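import Mathlib

/-!
# Short cuts for the instance search

Each of these instances is the one that Lean finds by itself (`inferInstance`). They are made
local instances in the modules of this folder and nowhere else.
-/

set_option autoImplicit false

namespace Pool.Agent.Helper23.MC.Inst

theorem rCharZero : CharZero ℝ := inferInstance
theorem rALM : AddLeftMono ℝ := inferInstance
theorem rARM : AddRightMono ℝ := inferInstance
theorem rALSM : AddLeftStrictMono ℝ := inferInstance
theorem rARSM : AddRightStrictMono ℝ := inferInstance
theorem rARRLE : AddRightReflectLE ℝ := inferInstance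
theorem rALRLE : AddLeftReflectLE ℝ := inferInstance
theorem rARRLT : AddRightReflectLT ℝ := inferInstance
theorem rALRLT : AddLeftReflectLT ℝ := inferInstance
theorem rPMRLT : PosMulReflectLT ℝ := inferInstance
theorem rMPRLT : MulPosReflectLT ℝ := inferInstance
theorem rPMM : PosMulMono ℝ := inferInstance
theorem rMPM : MulPosMono ℝ := inferInstance
theorem rPMSM : PosMulStrictMono ℝ := inferInstance
theorem rMPSM : MulPosStrictMono ℝ := inferInstance
theorem rEAOL : ExistsAddOfLE ℝ := inferInstance
theorem rIOR : IsOrderedRing ℝ := inferInstance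
theorem rISOR : IsStrictOrderedRing ℝ := inferInstance
theorem rNZD : NoZeroDivisors ℝ := inferInstance
theorem rcCharZero : CharZero ℂ := inferInstance
theorem rcNZD : NoZeroDivisors ℂ := inferInstance
theorem zCharZero : CharZero ℤ := inferInstance
theorem zALM : AddLeftMono ℤ := inferInstance
theorem zARM : AddRightMono ℤ := inferInstance
theorem zALSM : AddLeftStrictMono ℤ := inferInstance
theorem zARSM : AddRightStrictMono ℤ := inferInstance
theorem zIOR : IsOrderedRing ℤ := inferInstance
theorem zISOR : IsStrictOrderedRing ℤ := inferInstance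
theorem zNZD : NoZeroDivisors ℤ := inferInstance
theorem qCharZero : CharZero ℚ := inferInstance

noncomputable abbrev mR : Module ℚ≥0 ℝ := inferInstance
noncomputable abbrev mC : Module ℚ≥0 ℂ := inferInstance
noncomputable abbrev mRC : Module ℝ ℂ := inferInstance

theorem rPSM : PosSMulMono ℚ≥0 ℝ := inferInstance
theorem rCSM : LinearMap.CompatibleSMul ℝ ℂ ℚ≥0 ℝ := inferInstance
theorem cAdd : AddHomClass (ℂ →+* ℂ) ℂ ℂ := inferInstance
theorem cAddM : AddMonoidHomClass (ℂ →+* ℂ) ℂ ℂ := inferInstance
theorem cMul : MulHomClass (ℂ →+* ℂ) ℂ ℂ := inferInstance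
theorem cMon : MonoidHomClass (ℂ →+* ℂ) ℂ ℂ := inferInstance

end Pool.Agent.Helper23.MC.Inst
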