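import Pool.Agent.Helper23.MC.Inst

/-!
Parts of Helper57.NX.Defs, Helper67.NX2.Defs, Helper5.NX.Basic, Helper88.NX.BoxNorm, Helper25.NX.Gcs, Helper8.NX.BaseLS, Helper40.NX2.IGBasic, Helper82.NX2.Fib, Helper52.NX2.ArTopAux, Helper52.NX2.ArTop, Helper30.NX.LinForms, Helper91.NX2.LinForms, Helper61.NX.Four, Helper61.NX.Step, Helper81.NX2.CharRepA, Helper94.NX2.LowAux
-/

attribute [local instance 5000]
  Pool.Agent.Helper23.MC.Inst.rCharZero Pool.Agent.Helper23.MC.Inst.rALM
  Pool.Agent.Helper23.MC.Inst.rARM Pool.Agent.Helper23.MC.Inst.rALSM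
  Pool.Agent.Helper23.MC.Inst.rARSM Pool.Agent.Helper23.MC.Inst.rARRLE
  Pool.Agent.Helper23.MC.Inst.rALRLE Pool.Agent.Helper23.MC.Inst.rARRLT
  Pool.Agent.Helper23.MC.Inst.rALRLT Pool.Agent.Helper23.MC.Inst.rPMRLT
  Pool.Agent.Helper23.MC.Inst.rMPRLT Pool.Agent.Helper23.MC.Inst.rPMM
  Pool.Agent.Helper23.MC.Inst.rMPM Pool.Agent.Helper23.MC.Inst.rPMSM
  Pool.Agent.Helper23.MC.Inst.rMPSM Pool.Agent.Helper23.MC.Inst.rEAOL
  Pool.Agent.Helper23.MC.Inst.rIOR Pool.Agent.Helper23.MC.Inst.rISOR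
  Pool.Agent.Helper23.MC.Inst.rNZD Pool.Agent.Helper23.MC.Inst.rcCharZero
  Pool.Agent.Helper23.MC.Inst.rcNZD Pool.Agent.Helper23.MC.Inst.zCharZero
  Pool.Agent.Helper23.MC.Inst.zALM Pool.Agent.Helper23.MC.Inst.zARM
  Pool.Agent.Helper23.MC.Inst.zALSM Pool.Agent.Helper23.MC.Inst.zARSM
  Pool.Agent.Helper23.MC.Inst.zIOR Pool.Agent.Helper23.MC.Inst.zISOR
  Pool.Agent.Helper23.MC.Inst.zNZD Pool.Agent.Helper23.MC.Inst.qCharZero
  Pool.Agent.Helper23.MC.Inst.mR Pool.Agent.Helper23.MC.Inst.mC Pool.Agent.Helper23.MC.Inst.mRC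
  Pool.Agent.Helper23.MC.Inst.rPSM Pool.Agent.Helper23.MC.Inst.rCSM
  Pool.Agent.Helper23.MC.Inst.cAdd Pool.Agent.Helper23.MC.Inst.cAddM
  Pool.Agent.Helper23.MC.Inst.cMul Pool.Agent.Helper23.MC.Inst.cMon

namespace Pool.Agent.Helper57.NX
end Pool.Agent.Helper57.NX

section

set_option autoImplicit false

open Finset

open scoped BigOperators ComplexConjugate

namespace Pool.Agent.Helper57.NX

noncomputable section

/-- Forward average `A L f x = 𝔼_{a<L} f (x+a)`. -/
def A {N : ℕ} (L : ℕ) (f : ZMod N → ℂ) (x : ZMod N) : ℂ := 𝔼 a ∈ range L, f (x + (a : ZMod N))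

/-- Backward average `Ab L f x = 𝔼_{a<L} f (x-a)`. -/
def Ab {N : ℕ} (L : ℕ) (f : ZMod N → ℂ) (x : ZMod N) : ℂ := 𝔼 a ∈ range L, f (x - (a : ZMod N))

/-- `z` or its conjugate, according to the parity of `ω`. -/
def cjj {k : ℕ} (ω : Fin k → Bool) (z : ℂ) : ℂ :=
  if Even (#(univ.filter fun i => ω i = true)) then z else conj z

/-- choose `b i` where `ω i`, else `a i` -/
def sel {k : ℕ} {α : Type} (ω : Fin k → Bool) (a b : Fin k → α) : Fin k → α :=
  fun i => if ω i then b i else a i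

/-- sum of the coordinates -/
def tot {k : ℕ} (a : Fin k → ℕ) : ℕ := ∑ i, a i

/-- `cube f a b x = ∏_ω C^{|ω|} f (x + ∑_i (a_i or b_i))` -/
def cube {N k : ℕ} (f : ZMod N → ℂ) (a b : Fin k → ℕ) (x : ZMod N) : ℂ :=
  ∏ ω : Fin k → Bool, cjj ω (f (x + (tot (sel ω a b) : ZMod N)))

/-- the box `[0,X)^k` -/
def boxset (k X : ℕ) : Finset (Fin k → ℕ) := Fintype.piFinset fun _ => range X

/-- box norm (to the power `2^k`) with `k` directions of length `X` -/
def Box {N : ℕ} [NeZero N] (k X : ℕ) (f : ZMod N → ℂ) : ℝ :=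
  (𝔼 a ∈ boxset k X, 𝔼 b ∈ boxset k X, 𝔼 x : ZMod N, cube f a b x).re

end

end Pool.Agent.Helper57.NX

end

section

set_option autoImplicit false

open Finset

open scoped BigOperators ComplexConjugate

namespace Pool.Agent.Helper67.NX2

open Pool.Agent.Helper57.NX

noncomputable section

/-- backward average along a progression of difference `st` -/
def Aqb {N : ℕ} (st L : ℕ) (f : ZMod N → ℂ) (x : ZMod N) : ℂ :=
  𝔼 a ∈ range L, f (x - ((st * a : ℕ) : ZMod N))

/-- block-constant functions on `ZMod (Q p)` -/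
def blk {N p : ℕ} (Q : ℕ) (G : ZMod p → ℂ) (x : ZMod N) : ℂ := G ((x.val / Q : ℕ) : ZMod p)

/-- cubes in direction `st` -/
def cubeq {N k : ℕ} (st : ℕ) (f : ZMod N → ℂ) (a b : Fin k → ℕ) (x : ZMod N) : ℂ :=
  ∏ ω : Fin k → Bool, cjj ω (f (x + ((st * tot (sel ω a b) : ℕ) : ZMod N)))

/-- box norm in direction `st` -/
def Boxq {N : ℕ} [NeZero N] (st k X : ℕ) (f : ZMod N → ℂ) : ℝ :=
  (𝔼 a ∈ boxset k X, 𝔼 b ∈ boxset k X, 𝔼 x : ZMod N, cubeq st f a b x).re

end

end Pool.Agent.Helper67.NX2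

end

section

set_option autoImplicit false

open Finset

open scoped BigOperators ComplexConjugate

namespace Pool.Agent.Helper57.NX

noncomputable section

theorem norm_expect_le5 {ι : Type*} (s : Finset ι) (f : ι → ℂ) :
    ‖𝔼 i ∈ s, f i‖ ≤ 𝔼 i ∈ s, ‖f i‖ := RCLike.norm_expect_le (K := ℂ)

theorem expect_le_of5 {ι : Type*} (s : Finset ι) (f : ι → ℝ) {M : ℝ} (hM : 0 ≤ M)
    (h : ∀ i ∈ s, f i ≤ M) : 𝔼 i ∈ s, f i ≤ M := by
  rcases s.eq_empty_or_nonempty with rfl | hs
  · simpa using hM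
  · exact expect_le hs h

theorem norm_expect_le_of5 {ι : Type*} (s : Finset ι) (f : ι → ℂ) {M : ℝ} (hM : 0 ≤ M)
    (h : ∀ i ∈ s, ‖f i‖ ≤ M) : ‖𝔼 i ∈ s, f i‖ ≤ M :=
  (norm_expect_le5 s f).trans (expect_le_of5 s _ hM h)

section Basic

variable {N : ℕ} [NeZero N]

theorem expect_shift {M : Type} [AddCommMonoid M] [Module ℚ≥0 M] (f : ZMod N → M) (t : ZMod N) :
    𝔼 x, f (x + t) = 𝔼 x, f x :=
  Fintype.expect_equiv (Equiv.addRight t) _ _ (fun _ => rfl)

theorem norm_A_le {f : ZMod N → ℂ} (hf : ∀ x, ‖f x‖ ≤ 1) (L : ℕ) (x : ZMod N) :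
    ‖A L f x‖ ≤ 1 := norm_expect_le_of5 _ _ zero_le_one fun _ _ => hf _

theorem norm_Ab_le {f : ZMod N → ℂ} (hf : ∀ x, ‖f x‖ ≤ 1) (L : ℕ) (x : ZMod N) :
    ‖Ab L f x‖ ≤ 1 := norm_expect_le_of5 _ _ zero_le_one fun _ _ => hf _

theorem A_comm (L L' : ℕ) (f : ZMod N → ℂ) : A L (A L' f) = A L' (A L f) := by
  funext x
  unfold A
  rw [expect_comm]
  refine expect_congr rfl fun a _ => expect_congr rfl fun b _ => ?_
  rw [add_right_comm]

/-- `A` and `Ab` are adjoint (bilinear form) -/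
theorem adj_A (L : ℕ) (f g : ZMod N → ℂ) :
    𝔼 x, A L f x * g x = 𝔼 x, f x * Ab L g x := by
  unfold A Ab
  simp only [expect_mul, mul_expect]
  rw [expect_comm, expect_comm (s := univ) (t := range L)]
  refine expect_congr rfl fun a _ => ?_
  rw [← expect_shift (fun x => f x * g (x - (a : ZMod N))) (a : ZMod N)]
  refine expect_congr rfl fun x _ => ?_
  rw [add_sub_cancel_right]

omit [NeZero N] in
theorem A_step5 (L : ℕ) (f : ZMod N → ℂ) (x : ZMod N) :
    A L f (x + 1) - A L f x = (f (x + (L : ZMod N)) - f x) / L := by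
  unfold A
  rw [← expect_sub_distrib, expect_eq_sum_div_card, card_range]
  congr 1
  have h := Finset.sum_range_sub (fun a : ℕ => f (x + (a : ZMod N))) L
  simp only [Nat.cast_zero, add_zero] at h
  rw [← h]
  refine sum_congr rfl fun a _ => ?_
  push_cast
  rw [add_assoc, add_comm 1 (a : ZMod N)]

omit [NeZero N] in
theorem norm_A_step5 {f : ZMod N → ℂ} {M : ℝ} (hf : ∀ x, ‖f x‖ ≤ M) (L : ℕ) (x : ZMod N) :
    ‖A L f (x + 1) - A L f x‖ ≤ 2 * M / L := by
  rw [A_step5, norm_div, Complex.norm_natCast]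
  refine div_le_div_of_nonneg_right ?_ (Nat.cast_nonneg _)
  refine (norm_sub_le _ _).trans ?_
  have h1 := hf (x + (L : ZMod N))
  have h2 := hf x
  linarith

omit [NeZero N] in
/-- telescoping -/
theorem norm_shift_nat5 (g : ZMod N → ℂ) (x : ZMod N) (t : ℕ) :
    ‖g (x + (t : ZMod N)) - g x‖ ≤
      ∑ j ∈ range t, ‖g (x + (j : ZMod N) + 1) - g (x + (j : ZMod N))‖ := by
  have h := Finset.sum_range_sub (fun a : ℕ => g (x + (a : ZMod N))) t
  simp only [Nat.cast_zero, add_zero] at h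
  rw [← h]
  refine (norm_sum_le _ _).trans (le_of_eq (sum_congr rfl fun a _ => ?_))
  push_cast
  rw [add_assoc]

omit [NeZero N] in
theorem norm_shift_int5 {g : ZMod N → ℂ} {c : ℝ} (hg : ∀ x, ‖g (x + 1) - g x‖ ≤ c) (x : ZMod N)
    (t : ℤ) : ‖g (x + (t : ZMod N)) - g x‖ ≤ |(t : ℝ)| * c := by
  have key : ∀ (x : ZMod N) (t : ℕ), ‖g (x + (t : ZMod N)) - g x‖ ≤ t * c := by
    intro x t
    refine (norm_shift_nat5 g x t).trans ?_
    refine (sum_le_card_nsmul _ _ c fun j _ => hg _).trans (le_of_eq ?_)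
    rw [card_range, nsmul_eq_mul]
  rcases Int.eq_nat_or_neg t with ⟨n, rfl | rfl⟩
  · have := key x n
    simpa using this
  · have := key (x - (n : ZMod N)) n
    rw [sub_add_cancel, norm_sub_rev] at this
    simpa [sub_eq_add_neg] using this

/-- pointwise Lipschitz bound for averages -/
theorem A_lipschitz {f : ZMod N → ℂ} (hf : ∀ x, ‖f x‖ ≤ 1) (L : ℕ) (hL : 1 ≤ L) (x : ZMod N)
    (t : ℤ) : ‖A L f (x + (t : ZMod N)) - A L f x‖ ≤ 2 * |(t : ℝ)| / L := by
  refine (norm_shift_int5 (norm_A_step5 hf L) x t).trans (le_of_eq ?_)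
  ring

/-- averages of averages -/
theorem A_A_sub {f : ZMod N → ℂ} (hf : ∀ x, ‖f x‖ ≤ 1) (L L' : ℕ) (hL : 1 ≤ L) (hL' : 1 ≤ L')
    (x : ZMod N) : ‖A L (A L' f) x - A L' f x‖ ≤ 2 * L / L' := by
  have h1 : A L (A L' f) x - A L' f x
      = 𝔼 a ∈ range L, (A L' f (x + (a : ZMod N)) - A L' f x) := by
    rw [expect_sub_distrib, expect_const (nonempty_range_iff.2 (by omega))]
    rfl
  rw [h1]
  refine norm_expect_le_of5 _ _ (by (clear * - hL hL'; positivity)) fun a ha => ?_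
  have h2 := A_lipschitz hf L' hL' x (a : ℤ)
  have h3 : (a : ℝ) ≤ L := by exact_mod_cast (mem_range.1 ha).le
  simp only [Int.cast_natCast, Nat.abs_cast] at h2
  refine h2.trans ?_
  exact div_le_div_of_nonneg_right (by (clear * - h3; linarith)) (Nat.cast_nonneg _)

omit [NeZero N] in
theorem sum_expect_le5 {ι : Type*} (s : Finset ι) (g : ι → ZMod N → ℂ) {C : ℝ} (hC : 0 ≤ C) (x : ZMod N)
    (l : ℕ) (h : ∀ i ∈ s, ∑ j ∈ range l, ‖g i (x + (j : ZMod N) + 1) - g i (x + (j : ZMod N))‖ ≤ C) :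
    ∑ j ∈ range l, ‖(𝔼 i ∈ s, g i (x + (j : ZMod N) + 1)) - 𝔼 i ∈ s, g i (x + (j : ZMod N))‖
      ≤ C := by
  have h1 : ∑ j ∈ range l, ‖(𝔼 i ∈ s, g i (x + (j : ZMod N) + 1)) - 𝔼 i ∈ s, g i (x + (j : ZMod N))‖
      ≤ ∑ j ∈ range l, 𝔼 i ∈ s, ‖g i (x + (j : ZMod N) + 1) - g i (x + (j : ZMod N))‖ := by
    refine sum_le_sum fun j _ => ?_
    rw [← expect_sub_distrib]
    exact norm_expect_le5 _ _
  refine h1.trans ?_
  rw [← expect_sum_comm]
  exact expect_le_of5 _ _ hC h

end Basic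

end

end Pool.Agent.Helper57.NX

end

section

set_option autoImplicit false

set_option linter.unusedSectionVars false

set_option linter.unusedVariables false

open Finset

open scoped BigOperators ComplexConjugate

namespace Pool.Agent.Helper57.NX

noncomputable section

section private_basic

variable {N : ℕ} [NeZero N]

theorem bx_expect_shift {M : Type} [AddCommMonoid M] [Module ℚ≥0 M] (f : ZMod N → M)
    (t : ZMod N) : 𝔼 x, f (x + t) = 𝔼 x, f x :=
  Fintype.expect_equiv (Equiv.addRight t) _ _ fun _ => rfl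

theorem bx_norm_expect_le {ι : Type} (s : Finset ι) (f : ι → ℂ) :
    ‖𝔼 i ∈ s, f i‖ ≤ 𝔼 i ∈ s, ‖f i‖ := RCLike.norm_expect_le (K := ℂ)

theorem bx_expect_le_const {ι : Type} (s : Finset ι) (f : ι → ℝ) (c : ℝ) (hc : 0 ≤ c)
    (h : ∀ i ∈ s, f i ≤ c) : 𝔼 i ∈ s, f i ≤ c := by
  rcases s.eq_empty_or_nonempty with rfl | hs
  · simpa using hc
  · exact expect_le hs h

theorem bx_norm_expect_le_const {ι : Type} (s : Finset ι) (f : ι → ℂ) (c : ℝ) (hc : 0 ≤ c)
    (h : ∀ i ∈ s, ‖f i‖ ≤ c) : ‖𝔼 i ∈ s, f i‖ ≤ c :=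
  (bx_norm_expect_le s f).trans (bx_expect_le_const s _ c hc h)

theorem bx_norm_A_le {f : ZMod N → ℂ} (hf : ∀ x, ‖f x‖ ≤ 1) (L : ℕ) (x : ZMod N) :
    ‖A L f x‖ ≤ 1 :=
  bx_norm_expect_le_const _ _ 1 zero_le_one fun _ _ => hf _

theorem bx_A_comm (L L' : ℕ) (f : ZMod N → ℂ) : A L (A L' f) = A L' (A L f) := by
  funext x
  simp only [A]
  rw [expect_comm]
  refine expect_congr rfl fun a _ => expect_congr rfl fun b _ => ?_
  congr 1
  ring

/-- Cauchy Schwarz for a real average -/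
theorem bx_sq_expect_le {ι : Type} (s : Finset ι) (f : ι → ℝ) :
    (𝔼 i ∈ s, f i) ^ 2 ≤ 𝔼 i ∈ s, f i ^ 2 := by
  rcases s.eq_empty_or_nonempty with rfl | hs
  · simp
  · have := expect_mul_sq_le_sq_mul_sq s f (fun _ => 1)
    simpa [expect_const hs] using this

theorem bx_norm_sq_expect_le {ι : Type} (s : Finset ι) (f : ι → ℂ) :
    ‖𝔼 i ∈ s, f i‖ ^ 2 ≤ 𝔼 i ∈ s, ‖f i‖ ^ 2 := by
  refine le_trans ?_ (bx_sq_expect_le s _)
  exact pow_le_pow_left₀ (norm_nonneg _) (bx_norm_expect_le s f) 2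

/-- one translation changes a long average only a little -/
theorem bx_A_shift {f : ZMod N → ℂ} (hf : ∀ x, ‖f x‖ ≤ 1) (L : ℕ) (hL : 1 ≤ L)
    (x : ZMod N) (a : ℕ) : ‖A L f (x + (a : ZMod N)) - A L f x‖ ≤ 2 * a / L := by
  have hL0 : (0 : ℝ) < L := by exact_mod_cast hL
  induction a with
  | zero => simp
  | succ a ih =>
    have key : ‖A L f (x + ((a + 1 : ℕ) : ZMod N)) - A L f (x + (a : ZMod N))‖ ≤ 2 / L := by
      have e1 : ∀ y : ZMod N, A L f y = (∑ j ∈ range L, f (y + (j : ZMod N))) / L := by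
        intro y
        rw [A, expect_eq_sum_div_card, card_range]
      have e2 : (∑ j ∈ range L, f (x + ((a + 1 : ℕ) : ZMod N) + (j : ZMod N)))
          - ∑ j ∈ range L, f (x + (a : ZMod N) + (j : ZMod N))
          = f (x + (a : ZMod N) + (L : ZMod N)) - f (x + (a : ZMod N)) := by
        have h3 : ∀ j : ℕ, f (x + ((a + 1 : ℕ) : ZMod N) + (j : ZMod N))
            = (fun j : ℕ => f (x + (a : ZMod N) + (j : ZMod N))) (j + 1) := by
          intro j
          simp only
          congr 1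
          push_cast
          ring
        rw [sum_congr rfl fun j _ => h3 j, ← sum_sub_distrib,
          sum_range_sub (fun j : ℕ => f (x + (a : ZMod N) + (j : ZMod N)))]
        simp
      rw [e1, e1, ← sub_div, e2, norm_div, Complex.norm_natCast]
      gcongr
      calc ‖f (x + (a : ZMod N) + (L : ZMod N)) - f (x + (a : ZMod N))‖
          ≤ ‖f (x + (a : ZMod N) + (L : ZMod N))‖ + ‖f (x + (a : ZMod N))‖ := norm_sub_le _ _
        _ ≤ 2 := by (clear * - hf; linarith [hf (x + (a : ZMod N) + (L : ZMod N)), hf (x + (a : ZMod N))])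
    calc ‖A L f (x + ((a + 1 : ℕ) : ZMod N)) - A L f x‖
        ≤ ‖A L f (x + ((a + 1 : ℕ) : ZMod N)) - A L f (x + (a : ZMod N))‖
          + ‖A L f (x + (a : ZMod N)) - A L f x‖ := norm_sub_le_norm_sub_add_norm_sub _ _ _
      _ ≤ 2 / L + 2 * a / L := add_le_add key ih
      _ = 2 * ((a + 1 : ℕ) : ℝ) / L := by
        push_cast
        ring

/-- averages contract `L²` -/
theorem bx_l2_A_le (L : ℕ) (g : ZMod N → ℂ) : 𝔼 x, ‖A L g x‖ ^ 2 ≤ 𝔼 x, ‖g x‖ ^ 2 := by
  calc 𝔼 x, ‖A L g x‖ ^ 2 ≤ 𝔼 x, 𝔼 a ∈ range L, ‖g (x + (a : ZMod N))‖ ^ 2 :=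
        expect_le_expect fun x _ => bx_norm_sq_expect_le _ _
    _ = 𝔼 a ∈ range L, 𝔼 x, ‖g (x + (a : ZMod N))‖ ^ 2 := expect_comm _ _ _
    _ = 𝔼 a ∈ range L, 𝔼 x, ‖g x‖ ^ 2 :=
        expect_congr rfl fun a _ => bx_expect_shift (fun x => ‖g x‖ ^ 2) _
    _ ≤ 𝔼 x, ‖g x‖ ^ 2 :=
        bx_expect_le_const _ _ _ (expect_nonneg fun _ _ => by positivity) fun _ _ => le_rfl

end private_basic

section BoxNorm

variable {N : ℕ} [NeZero N]

theorem bx_cjj_mul {k : ℕ} (ω : Fin k → Bool) (z w : ℂ) :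
    cjj ω (z * w) = cjj ω z * cjj ω w := by
  unfold cjj
  split_ifs <;> simp

theorem bx_cjj_conj {k : ℕ} (ω : Fin k → Bool) (z : ℂ) :
    cjj ω (conj z) = conj (cjj ω z) := by
  unfold cjj
  split_ifs <;> simp

theorem bx_cjj_cons {k : ℕ} (b : Bool) (ω : Fin k → Bool) (z : ℂ) :
    cjj (Fin.cons b ω : Fin (k + 1) → Bool) z = if b then conj (cjj ω z) else cjj ω z := by
  have h : #(univ.filter fun i : Fin (k + 1) => (Fin.cons b ω : Fin (k + 1) → Bool) i = true)
      = (if b then 1 else 0) + #(univ.filter fun i => ω i = true) := by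
    rw [Fin.card_filter_univ_succ]
    cases b <;> simp [add_comm]
  unfold cjj
  rw [h]
  cases b
  · simp
  · simp only [if_true]
    by_cases he : Even #(univ.filter fun i => ω i = true)
    · have h1 : ¬ Even (1 + #(univ.filter fun i => ω i = true)) := by
        rw [add_comm, Nat.even_add_one]
        exact not_not.mpr he
      rw [if_neg h1, if_pos he]
    · have h1 : Even (1 + #(univ.filter fun i => ω i = true)) := by
        rw [add_comm, Nat.even_add_one]
        exact he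
      rw [if_pos h1, if_neg he]
      simp

theorem cube_shift (k : ℕ) (f : ZMod N → ℂ) (a b : Fin k → ℕ) (t x : ZMod N) :
    cube (fun x => f (x + t)) a b x = cube f a b (x + t) := by
  unfold cube
  refine prod_congr rfl fun ω _ => ?_
  rw [add_right_comm]

theorem cube_mul (k : ℕ) (f g : ZMod N → ℂ) (a b : Fin k → ℕ) (x : ZMod N) :
    cube (fun x => f x * g x) a b x = cube f a b x * cube g a b x := by
  unfold cube
  rw [← prod_mul_distrib]
  exact prod_congr rfl fun ω _ => bx_cjj_mul _ _ _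

theorem cube_conj (k : ℕ) (f : ZMod N → ℂ) (a b : Fin k → ℕ) (x : ZMod N) :
    cube (fun x => conj (f x)) a b x = conj (cube f a b x) := by
  unfold cube
  rw [map_prod]
  exact prod_congr rfl fun ω _ => bx_cjj_conj _ _

end BoxNorm

end

end Pool.Agent.Helper57.NX

end

section

set_option autoImplicit false

open Finset

open scoped BigOperators ComplexConjugate

namespace Pool.Agent.Helper57.NX

section Gcs

variable {α : Type}

theorem gcs_expect_succ {M : Type} [AddCommMonoid M] [Module ℚ≥0 M] {k : ℕ}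
    (As : Fin (k + 1) → Finset α) (f : (Fin (k + 1) → α) → M) :
    𝔼 a ∈ Fintype.piFinset As, f a =
      𝔼 x ∈ As 0, 𝔼 a ∈ Fintype.piFinset (fun i : Fin k => As i.succ), f (Fin.cons x a) := by
  rw [← Finset.expect_product']
  refine Finset.expect_nbij' (fun a => (a 0, Fin.tail a)) (fun p => Fin.cons p.1 p.2) ?_ ?_ ?_ ?_ ?_
  · intro a ha
    rw [Fintype.mem_piFinset] at ha
    rw [Finset.mem_product, Fintype.mem_piFinset]
    exact ⟨ha 0, fun i => ha i.succ⟩
  · rintro ⟨x, a⟩ h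
    rw [Finset.mem_product, Fintype.mem_piFinset] at h
    rw [Fintype.mem_piFinset]
    intro i
    refine Fin.cases ?_ (fun i => ?_) i
    · simpa using h.1
    · simpa using h.2 i
  · intro a _
    exact Fin.cons_self_tail a
  · rintro ⟨x, a⟩ _
    simp
  · intro a _
    simp

theorem gcs_prod_succ {k : ℕ} (g : (Fin (k + 1) → Bool) → ℂ) :
    ∏ ω : Fin (k + 1) → Bool, g ω =
      ∏ ω : Fin k → Bool, g (Fin.cons false ω) * g (Fin.cons true ω) := by
  rw [← (Fin.consEquiv (fun _ : Fin (k + 1) => Bool)).prod_comp, Fintype.prod_prod_type,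
    Fintype.prod_bool, ← Finset.prod_mul_distrib]
  refine Finset.prod_congr rfl fun ω _ => ?_
  rw [mul_comm]
  rfl

theorem gcs_card {k : ℕ} (b : Bool) (ω : Fin k → Bool) :
    #(univ.filter fun i : Fin (k + 1) => (Fin.cons b ω : Fin (k + 1) → Bool) i = true) =
      (if b = true then 1 else 0) + #(univ.filter fun i => ω i = true) := by
  rw [Finset.card_filter, Finset.card_filter, Fin.sum_univ_succ]
  simp

theorem cjj_cons_false {k : ℕ} (ω : Fin k → Bool) (z : ℂ) :
    cjj (Fin.cons false ω : Fin (k + 1) → Bool) z = cjj ω z := by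
  unfold cjj
  rw [gcs_card]
  simp

theorem cjj_cons_true {k : ℕ} (ω : Fin k → Bool) (z : ℂ) :
    cjj (Fin.cons true ω : Fin (k + 1) → Bool) z = conj (cjj ω z) := by
  unfold cjj
  rw [gcs_card]
  by_cases h : Even (#(univ.filter fun i => ω i = true))
  · have h' : ¬ Even ((if true = true then 1 else 0) + #(univ.filter fun i => ω i = true)) := by
      simp only [if_true]
      rw [add_comm, Nat.even_add_one]
      exact not_not.2 h
    rw [if_neg h', if_pos h]
  · have h' : Even ((if true = true then 1 else 0) + #(univ.filter fun i => ω i = true)) := by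
      simp only [if_true]
      rw [add_comm, Nat.even_add_one]
      exact h
    rw [if_pos h', if_neg h, Complex.conj_conj]

theorem cjj_mul {k : ℕ} (ω : Fin k → Bool) (z w : ℂ) : cjj ω (z * w) = cjj ω z * cjj ω w := by
  unfold cjj
  split_ifs
  · rfl
  · rw [map_mul]

theorem cjj_conj {k : ℕ} (ω : Fin k → Bool) (z : ℂ) : cjj ω (conj z) = conj (cjj ω z) := by
  unfold cjj
  split_ifs
  · rfl
  · rfl

theorem sel_cons {k : ℕ} (c : Bool) (ω : Fin k → Bool) (x y : α) (a b : Fin k → α) :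
    sel (Fin.cons c ω : Fin (k + 1) → Bool) (Fin.cons x a : Fin (k + 1) → α) (Fin.cons y b) =
      Fin.cons (if c then y else x) (sel ω a b) := by
  funext i
  refine Fin.cases ?_ (fun i => ?_) i
  · simp [sel]
  · simp [sel]

/-- the right-hand side -/
noncomputable def gcsR {k : ℕ} (As : Fin k → Finset α) (F : (Fin k → α) → ℂ) : ℂ :=
  𝔼 a ∈ Fintype.piFinset As, 𝔼 b ∈ Fintype.piFinset As,
        ∏ ω : Fin k → Bool, cjj ω (F (sel ω a b))

theorem gcsR_succ {k : ℕ} (As : Fin (k + 1) → Finset α) (F : (Fin (k + 1) → α) → ℂ) :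
    gcsR As F = 𝔼 x ∈ As 0, 𝔼 y ∈ As 0, gcsR (fun i : Fin k => As i.succ)
      (fun a => F (Fin.cons x a) * conj (F (Fin.cons y a))) := by
  unfold gcsR
  rw [gcs_expect_succ]
  refine Finset.expect_congr rfl fun x _ => ?_
  rw [Finset.expect_comm]
  rw [gcs_expect_succ]
  refine Finset.expect_congr rfl fun y _ => ?_
  rw [Finset.expect_comm]
  refine Finset.expect_congr rfl fun a _ => ?_
  refine Finset.expect_congr rfl fun b _ => ?_
  rw [gcs_prod_succ]
  refine Finset.prod_congr rfl fun ω _ => ?_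
  rw [sel_cons, sel_cons, cjj_cons_false, cjj_cons_true, cjj_mul, cjj_conj]
  simp

theorem gcs_sq_expect_le {ι : Type} (s : Finset ι) (g : ι → ℝ) :
    (𝔼 i ∈ s, g i) ^ 2 ≤ 𝔼 i ∈ s, g i ^ 2 := by
  have h := Finset.expect_mul_sq_le_sq_mul_sq s (fun _ => (1 : ℝ)) g
  simp only [one_mul, one_pow] at h
  refine h.trans ?_
  rcases s.eq_empty_or_nonempty with rfl | hs
  · simp
  · rw [Finset.expect_const hs, one_mul]

theorem gcs_expect_nonneg {ι : Type} (s : Finset ι) (g : ι → ℝ) (hg : ∀ i ∈ s, 0 ≤ g i) :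
    0 ≤ 𝔼 i ∈ s, g i := Finset.expect_nonneg hg

theorem gcs_pow_expect_le {ι : Type} (s : Finset ι) (k : ℕ) (g : ι → ℝ) (hg : ∀ i ∈ s, 0 ≤ g i) :
    (𝔼 i ∈ s, g i) ^ (2 ^ k) ≤ 𝔼 i ∈ s, g i ^ (2 ^ k) := by
  induction k with
  | zero => simp
  | succ k ih =>
    have e : ∀ x : ℝ, x ^ (2 ^ (k + 1)) = (x ^ (2 ^ k)) ^ 2 := fun x => by
      rw [← pow_mul, pow_succ]
    rw [e]
    simp_rw [e]
    have h0 : 0 ≤ (𝔼 i ∈ s, g i) ^ (2 ^ k) := pow_nonneg (gcs_expect_nonneg s g hg) _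
    exact (pow_le_pow_left₀ h0 ih 2).trans (gcs_sq_expect_le s fun i => g i ^ (2 ^ k))

/-- the doubled functions -/
def gcsF {k : ℕ} (F : (Fin (k + 1) → α) → ℂ) (x y : α) (a : Fin k → α) : ℂ :=
  F (Fin.cons x a) * conj (F (Fin.cons y a))

theorem gcs_re_expect {ι : Type} (s : Finset ι) (g : ι → ℂ) :
    (𝔼 i ∈ s, g i).re = 𝔼 i ∈ s, (g i).re := by
  exact map_expect (Complex.reLm.restrictScalars ℚ≥0 : ℂ →ₗ[ℚ≥0] ℝ) g s

theorem gcs_conj_expect {ι : Type} (s : Finset ι) (g : ι → ℂ) :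
    conj (𝔼 i ∈ s, g i) = 𝔼 i ∈ s, conj (g i) := by
  refine Complex.ext ?_ ?_
  · rw [Complex.conj_re, gcs_re_expect, gcs_re_expect]
    rfl
  · have him : ∀ f : ι → ℂ, (𝔼 i ∈ s, f i).im = 𝔼 i ∈ s, (f i).im := fun f =>
      map_expect (Complex.imLm.restrictScalars ℚ≥0 : ℂ →ₗ[ℚ≥0] ℝ) f s
    rw [Complex.conj_im, him, him, ← Finset.expect_neg_distrib]
    rfl

/-- the first step: eliminating `B 0` -/
theorem gcs_step {k : ℕ} (As : Fin (k + 1) → Finset α)
    (hA : (As 0).Nonempty) (F : (Fin (k + 1) → α) → ℂ)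
    (B : Fin (k + 1) → (Fin (k + 1) → α) → ℂ) (hB1 : ∀ j a, ‖B j a‖ ≤ 1)
    (hB : ∀ a a', (∀ i, i ≠ 0 → a i = a' i) → B 0 a = B 0 a') :
    ‖𝔼 a ∈ Fintype.piFinset As, F a * ∏ j, B j a‖ ^ 2 ≤
      (𝔼 x ∈ As 0, 𝔼 y ∈ As 0, 𝔼 a ∈ Fintype.piFinset (fun i : Fin k => As i.succ),
        gcsF F x y a * ∏ j, gcsF (B (Fin.succ j)) x y a).re := by
  obtain ⟨x0, hx0⟩ := hA
  set P := Fintype.piFinset (fun i : Fin k => As i.succ) with hP
  set W : (Fin k → α) → ℂ := fun a =>
    𝔼 x ∈ As 0, F (Fin.cons x a) * ∏ j : Fin k, B j.succ (Fin.cons x a) with hW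
  have e1 : 𝔼 a ∈ Fintype.piFinset As, F a * ∏ j, B j a =
      𝔼 a ∈ P, B 0 (Fin.cons x0 a) * W a := by
    rw [gcs_expect_succ, Finset.expect_comm]
    refine Finset.expect_congr rfl fun a _ => ?_
    rw [hW, Finset.mul_expect]
    refine Finset.expect_congr rfl fun x _ => ?_
    rw [Fin.prod_univ_succ, hB (Fin.cons x a) (Fin.cons x0 a)]
    · ring
    · intro i hi
      obtain ⟨j, rfl⟩ := Fin.exists_succ_eq.2 hi
      simp
  have e2 : ‖𝔼 a ∈ P, B 0 (Fin.cons x0 a) * W a‖ ≤ 𝔼 a ∈ P, ‖W a‖ := by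
    refine (RCLike.norm_expect_le (K := ℂ)).trans (Finset.expect_le_expect fun a _ => ?_)
    rw [norm_mul]
    exact mul_le_of_le_one_left (norm_nonneg _) (hB1 0 _)
  have e3 : ‖𝔼 a ∈ Fintype.piFinset As, F a * ∏ j, B j a‖ ^ 2 ≤ 𝔼 a ∈ P, ‖W a‖ ^ 2 := by
    rw [e1]
    exact (pow_le_pow_left₀ (norm_nonneg _) e2 2).trans (gcs_sq_expect_le P _)
  refine e3.trans (le_of_eq ?_)
  have e4 : ∀ a, ‖W a‖ ^ 2 = (W a * conj (W a)).re := fun a => by
    rw [Complex.mul_conj, Complex.normSq_eq_norm_sq]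
    exact (Complex.ofReal_re _).symm
  simp_rw [e4]
  rw [← gcs_re_expect]
  congr 1
  have e5 : ∀ a, W a * conj (W a) = 𝔼 x ∈ As 0, 𝔼 y ∈ As 0,
      (gcsF F x y a * ∏ j, gcsF (B (Fin.succ j)) x y a) := by
    intro a
    rw [gcs_conj_expect, Finset.expect_mul_expect]
    refine Finset.expect_congr rfl fun x _ => Finset.expect_congr rfl fun y _ => ?_
    unfold gcsF
    rw [map_mul, map_prod, Finset.prod_mul_distrib]
    ring
  simp_rw [e5]
  rw [Finset.expect_comm]
  refine Finset.expect_congr rfl fun x _ => ?_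
  rw [Finset.expect_comm]

theorem gcs_aux : ∀ (k : ℕ) (As : Fin (k + 1) → Finset α)
    (_ : ∀ i, (As i).Nonempty) (F : (Fin (k + 1) → α) → ℂ)
    (B : Fin (k + 1) → (Fin (k + 1) → α) → ℂ) (_ : ∀ j a, ‖B j a‖ ≤ 1)
    (_ : ∀ j a a', (∀ i, i ≠ j → a i = a' i) → B j a = B j a'),
    ‖𝔼 a ∈ Fintype.piFinset As, F a * ∏ j, B j a‖ ^ (2 ^ (k + 1)) ≤ (gcsR As F).re := by
  intro k
  induction k with
  | zero =>
    intro As hA F B hB1 hB
    have h := gcs_step As (hA 0) F B hB1 (hB 0)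
    refine (le_of_eq (by norm_num)).trans (h.trans (le_of_eq ?_))
    rw [gcsR_succ]
    congr 1
    refine Finset.expect_congr rfl fun x _ => Finset.expect_congr rfl fun y _ => ?_
    unfold gcsR gcsF
    have hu : (Fintype.piFinset fun i : Fin 0 => As i.succ) = {default} := by
      ext a
      simp [Subsingleton.elim a default]
    rw [hu]
    simp [cjj, Subsingleton.elim (sel _ _ _) (default : Fin 0 → α)]
  | succ k ih =>
    intro As hA F B hB1 hB
    have h := gcs_step As (hA 0) F B hB1 (hB 0)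
    have h1 : ‖𝔼 a ∈ Fintype.piFinset As, F a * ∏ j, B j a‖ ^ 2 ≤
        𝔼 x ∈ As 0, 𝔼 y ∈ As 0, ‖𝔼 a ∈ Fintype.piFinset (fun i : Fin (k + 1) => As i.succ),
          gcsF F x y a * ∏ j, gcsF (B (Fin.succ j)) x y a‖ := by
      refine h.trans ((Complex.re_le_norm _).trans ?_)
      refine (RCLike.norm_expect_le (K := ℂ)).trans (Finset.expect_le_expect fun x _ => ?_)
      exact RCLike.norm_expect_le (K := ℂ)
    have e : ∀ x : ℝ, x ^ (2 ^ (k + 1 + 1)) = (x ^ 2) ^ (2 ^ (k + 1)) := fun x => by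
      rw [← pow_mul, pow_succ' 2 (k + 1)]
    rw [e]
    refine (pow_le_pow_left₀ (sq_nonneg _) h1 _).trans ?_
    refine (gcs_pow_expect_le _ _ _ fun x _ => Finset.expect_nonneg fun y _ =>
      norm_nonneg _).trans ?_
    rw [gcsR_succ, gcs_re_expect]
    refine Finset.expect_le_expect fun x _ => ?_
    refine (gcs_pow_expect_le _ _ _ fun y _ => norm_nonneg _).trans ?_
    rw [gcs_re_expect]
    refine Finset.expect_le_expect fun y _ => ?_
    refine ih (fun i => As i.succ) (fun i => hA _) (gcsF F x y)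
      (fun j => gcsF (B (Fin.succ j)) x y) ?_ ?_
    · intro j a
      unfold gcsF
      rw [norm_mul, Complex.norm_conj]
      exact mul_le_one₀ (hB1 _ _) (norm_nonneg _) (hB1 _ _)
    · intro j a a' haa
      have key : ∀ z, B j.succ (Fin.cons z a) = B j.succ (Fin.cons z a') := by
        intro z
        refine hB j.succ _ _ ?_
        intro i hi
        refine Fin.cases ?_ (fun i hi => ?_) i hi
        · intro _
          simp
        · simpa using haa i fun h => hi (congrArg Fin.succ h)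
      unfold gcsF
      rw [key, key]

end Gcs

theorem gcs {k : ℕ} (hk : 1 ≤ k) {α : Type} [DecidableEq α] (As : Fin k → Finset α)
    (hA : ∀ i, (As i).Nonempty) (F : (Fin k → α) → ℂ)
    (B : Fin k → (Fin k → α) → ℂ) (hB1 : ∀ j a, ‖B j a‖ ≤ 1)
    (hB : ∀ j a a', (∀ i, i ≠ j → a i = a' i) → B j a = B j a') :
    ‖𝔼 a ∈ Fintype.piFinset As, F a * ∏ j, B j a‖ ^ (2 ^ k) ≤
      (𝔼 a ∈ Fintype.piFinset As, 𝔼 b ∈ Fintype.piFinset As,
        ∏ ω : Fin k → Bool, cjj ω (F (sel ω a b))).re := by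
  obtain ⟨k, rfl⟩ : ∃ k', k = k' + 1 := ⟨k - 1, by omega⟩
  exact gcs_aux k As hA F B hB1 hB

end Pool.Agent.Helper57.NX

end

section

set_option autoImplicit false

open Finset

open scoped BigOperators ComplexConjugate

namespace Pool.Agent.Helper57.NX

noncomputable section

theorem sum_shift8 {K : Type} [RCLike K] (F : ℕ → K) (hF : ∀ k, ‖F k‖ ≤ 1) (T j : ℕ) :
    ∀ u : ℕ, ‖∑ i ∈ range T, F (u + i + j) - ∑ i ∈ range T, F (u + i)‖ ≤ 2 * j := by
  induction j with
  | zero => intro u; simp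
  | succ j ih =>
    intro u
    have h1 : ∑ i ∈ range T, F (u + i + (j + 1)) - ∑ i ∈ range T, F (u + i + j)
        = F (u + T + j) - F (u + j) := by
      rw [← Finset.sum_sub_distrib]
      have h2 := Finset.sum_range_sub (fun i => F (u + i + j)) T
      simp only [Nat.add_zero] at h2
      rw [← h2]
      refine Finset.sum_congr rfl fun i _ => ?_
      congr 2
      omega
    have h3 : ∑ i ∈ range T, F (u + i + (j + 1)) - ∑ i ∈ range T, F (u + i)
        = (F (u + T + j) - F (u + j)) + (∑ i ∈ range T, F (u + i + j) - ∑ i ∈ range T, F (u + i)) := by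
      rw [← h1]; ring
    rw [h3]
    calc _ ≤ ‖F (u + T + j) - F (u + j)‖ + ‖∑ i ∈ range T, F (u + i + j)
          - ∑ i ∈ range T, F (u + i)‖ := norm_add_le _ _
      _ ≤ (1 + 1) + 2 * j := add_le_add ((norm_sub_le _ _).trans (add_le_add (hF _) (hF _))) (ih u)
      _ = 2 * ((j + 1 : ℕ) : ℝ) := by push_cast; ring

theorem expect_shift8 {K : Type} [RCLike K] (F : ℕ → K) (hF : ∀ k, ‖F k‖ ≤ 1) (T j u : ℕ) :
    ‖𝔼 i ∈ range T, F (u + i + j) - 𝔼 i ∈ range T, F (u + i)‖ ≤ 2 * j / T := by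
  rw [expect_eq_sum_div_card, expect_eq_sum_div_card, ← sub_div, norm_div, card_range,
    RCLike.norm_natCast]
  exact div_le_div_of_nonneg_right (sum_shift8 F hF T j u) (Nat.cast_nonneg T)

/-- sliding windows -/
theorem sliding8 (G : ℕ → ℂ) (hG : ∀ k, ‖G k‖ ≤ 1) (u T K K2 : ℕ) (hK : 1 ≤ K)
    (hK2 : 1 ≤ K2) :
    𝔼 i ∈ range T, ‖𝔼 j ∈ range K, G (u + i + j)‖ ≤
      𝔼 i ∈ range T, ‖𝔼 l ∈ range K2, G (u + i + l)‖ + (2 * K2 / K + 2 * K / T) := by
  set H : ℕ → ℝ := fun k => ‖𝔼 l ∈ range K2, G (k + l)‖ with hH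
  have hH1 : ∀ k, ‖H k‖ ≤ 1 := by
    intro k
    rw [Real.norm_of_nonneg (norm_nonneg _)]
    exact norm_expect_le_of5 _ _ zero_le_one fun _ _ => hG _
  have hne : (range K2).Nonempty := nonempty_range_iff.2 (by omega)
  have hneK : (range K).Nonempty := nonempty_range_iff.2 (by omega)
  have h1 : ∀ k : ℕ, ‖𝔼 j ∈ range K, G (k + j)‖ ≤ 𝔼 j ∈ range K, H (k + j) + 2 * K2 / K := by
    intro k
    have e1 : 𝔼 j ∈ range K, G (k + j) = 𝔼 l ∈ range K2, 𝔼 j ∈ range K, G (k + j + l)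
        + 𝔼 l ∈ range K2, (𝔼 j ∈ range K, G (k + j) - 𝔼 j ∈ range K, G (k + j + l)) := by
      rw [← expect_add_distrib]
      have : ∀ l ∈ range K2, 𝔼 j ∈ range K, G (k + j + l)
          + (𝔼 j ∈ range K, G (k + j) - 𝔼 j ∈ range K, G (k + j + l))
          = 𝔼 j ∈ range K, G (k + j) := fun l _ => by ring
      rw [expect_congr rfl this, expect_const hne]
    have e2 : ‖𝔼 l ∈ range K2, 𝔼 j ∈ range K, G (k + j + l)‖ ≤ 𝔼 j ∈ range K, H (k + j) := by
      rw [expect_comm]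
      exact norm_expect_le5 _ _
    have e3 : ‖𝔼 l ∈ range K2, (𝔼 j ∈ range K, G (k + j) - 𝔼 j ∈ range K, G (k + j + l))‖
        ≤ 2 * K2 / K := by
      refine norm_expect_le_of5 _ _ (by (clear * - hK2 hK; positivity)) fun l hl => ?_
      rw [norm_sub_rev]
      refine (expect_shift8 G hG K l k).trans ?_
      have : (l : ℝ) ≤ K2 := by exact_mod_cast (mem_range.1 hl).le
      (clear * - this hK; gcongr)
    rw [e1]
    exact (norm_add_le _ _).trans (add_le_add e2 e3)
  have h2 : 𝔼 i ∈ range T, 𝔼 j ∈ range K, H (u + i + j) ≤ 𝔼 i ∈ range T, H (u + i) + 2 * K / T := by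
    rw [expect_comm]
    refine expect_le hneK fun j hj => ?_
    have h3 := expect_shift8 H hH1 T j u
    rw [Real.norm_eq_abs] at h3
    have h4 := le_of_abs_le h3
    have h5 : (2 * j / T : ℝ) ≤ 2 * K / T := by
      have : (j : ℝ) ≤ K := by exact_mod_cast (mem_range.1 hj).le
      (clear * - this; gcongr)
    (clear * - h4 h5; linarith)
  exact by
    rcases Nat.eq_zero_or_pos T with rfl | hT
    · simp only [range_zero, expect_empty]
      (clear * - hK2 hK; positivity)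
    have hneT : (range T).Nonempty := nonempty_range_iff.2 (by omega)
    calc 𝔼 i ∈ range T, ‖𝔼 j ∈ range K, G (u + i + j)‖
        ≤ 𝔼 i ∈ range T, (𝔼 j ∈ range K, H (u + i + j) + 2 * K2 / K) :=
          expect_le_expect fun i _ => h1 (u + i)
      _ = 𝔼 i ∈ range T, 𝔼 j ∈ range K, H (u + i + j) + 2 * K2 / K := by
          rw [expect_add_distrib, expect_const hneT]
      _ ≤ _ := by (clear * - h2; linarith)

end

end Pool.Agent.Helper57.NX

end

section

set_option autoImplicit false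

open Finset

open scoped BigOperators ComplexConjugate

namespace Pool.Agent.Helper67.NX2

open Pool.Agent.Helper57.NX

noncomputable section

section IGBasic

variable {N : ℕ} [NeZero N]

omit [NeZero N] in
theorem blk_natCast40 {p : ℕ} {Q : ℕ} (hN : N = Q * p) (G : ZMod p → ℂ) (n : ℕ) :
    blk (N := N) Q G ((n : ℕ) : ZMod N) = G ((n / Q : ℕ) : ZMod p) := by
  unfold blk
  rw [ZMod.val_natCast, hN, Nat.mod_mul_right_div_self, ZMod.natCast_mod]

theorem blk_add {p : ℕ} [NeZero p] {Q : ℕ} (hQ : 1 ≤ Q) (hN : N = Q * p) (G : ZMod p → ℂ)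
    (x : ZMod N) (t : ℤ) : blk Q G (x + ((Q * t : ℤ) : ZMod N)) =
      blk Q (fun y => G (y + (t : ZMod p))) x := by
  obtain ⟨n, rfl⟩ : ∃ n : ℕ, (n : ZMod N) = x := ⟨x.val, ZMod.natCast_zmod_val x⟩
  obtain ⟨s, hs⟩ : ∃ s : ℕ, (s : ZMod p) = (t : ZMod p) :=
    ⟨(t : ZMod p).val, ZMod.natCast_zmod_val _⟩
  have h1 : ((Q * t : ℤ) : ZMod N) = ((Q * s : ℕ) : ZMod N) := by
    have h2 : (p : ℤ) ∣ t - s := by
      rw [← ZMod.intCast_zmod_eq_zero_iff_dvd]
      push_cast
      rw [hs, sub_self]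
    have h3 : (N : ℤ) ∣ (Q * t : ℤ) - ((Q * s : ℕ) : ℤ) := by
      rw [hN]
      push_cast
      rw [← mul_sub]
      exact mul_dvd_mul_left _ h2
    have h4 := (ZMod.intCast_zmod_eq_zero_iff_dvd _ N).2 h3
    rw [Int.cast_sub, sub_eq_zero, Int.cast_natCast] at h4
    exact h4
  rw [h1, ← Nat.cast_add, blk_natCast40 hN, blk_natCast40 hN, Nat.add_mul_div_left _ _ hQ,
    Nat.cast_add, hs]

end IGBasic

end

end Pool.Agent.Helper67.NX2

end

section

set_option autoImplicit false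

set_option linter.unusedVariables false

open Finset

open scoped BigOperators ComplexConjugate

namespace Pool.Agent.Helper67.NX2

open Pool.Agent.Helper57.NX

noncomputable section

section AqBasic

variable {N : ℕ} [NeZero N]

omit [NeZero N] in
theorem fb_cubeq_eq (st k : ℕ) (f : ZMod N → ℂ) (a b : Fin k → ℕ) :
    cubeq st f a b = cube f (fun i => st * a i) (fun i => st * b i) := by
  funext x
  unfold cubeq cube
  refine prod_congr rfl fun ω _ => ?_
  have h : tot (sel ω (fun i => st * a i) (fun i => st * b i)) = st * tot (sel ω a b) := by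
    unfold tot
    rw [mul_sum]
    refine sum_congr rfl fun i _ => ?_
    unfold sel
    split_ifs <;> rfl
  rw [h]

theorem fb_cjj_mul {k : ℕ} (ω : Fin k → Bool) (z w : ℂ) :
    cjj ω (z * w) = cjj ω z * cjj ω w := by
  unfold cjj
  split_ifs <;> simp

theorem fb_cjj_conj {k : ℕ} (ω : Fin k → Bool) (z : ℂ) :
    cjj ω (conj z) = conj (cjj ω z) := by
  unfold cjj
  split_ifs <;> simp

theorem fb_cjj_cons {k : ℕ} (b : Bool) (ω : Fin k → Bool) (z : ℂ) :
    cjj (Fin.cons b ω : Fin (k + 1) → Bool) z = if b then conj (cjj ω z) else cjj ω z := by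
  have h : #(univ.filter fun i : Fin (k + 1) => (Fin.cons b ω : Fin (k + 1) → Bool) i = true)
      = (if b then 1 else 0) + #(univ.filter fun i => ω i = true) := by
    rw [Fin.card_filter_univ_succ]
    cases b <;> simp [add_comm]
  unfold cjj
  rw [h]
  cases b
  · simp
  · simp only [if_true]
    by_cases he : Even #(univ.filter fun i => ω i = true)
    · have h1 : ¬ Even (1 + #(univ.filter fun i => ω i = true)) := by
        rw [add_comm, Nat.even_add_one]
        exact not_not.mpr he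
      rw [if_neg h1, if_pos he]
    · have h1 : Even (1 + #(univ.filter fun i => ω i = true)) := by
        rw [add_comm, Nat.even_add_one]
        exact he
      rw [if_pos h1, if_neg he]
      simp

theorem fb_sel_cons {k : ℕ} {α : Type} (β : Bool) (ω : Fin k → Bool) (a0 b0 : α)
    (a b : Fin k → α) :
    sel (Fin.cons β ω : Fin (k + 1) → Bool) (Fin.cons a0 a) (Fin.cons b0 b)
      = Fin.cons (if β then b0 else a0) (sel ω a b) := by
  funext i
  refine Fin.cases ?_ (fun i => ?_) i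
  · simp [sel]
  · simp [sel]

theorem fb_tot_cons {k : ℕ} (z : ℕ) (a : Fin k → ℕ) :
    tot (Fin.cons z a : Fin (k + 1) → ℕ) = z + tot a := by
  simp [tot, Fin.sum_univ_succ]

omit [NeZero N] in
theorem fb_cube_cons (k : ℕ) (f : ZMod N → ℂ) (z z' : ℕ) (a b : Fin k → ℕ) (x : ZMod N) :
    cube f (Fin.cons z a) (Fin.cons z' b) x
      = cube (fun x => f (x + (z : ZMod N)) * conj (f (x + (z' : ZMod N)))) a b x := by
  unfold cube
  rw [← Fintype.prod_equiv (Fin.consEquiv (fun _ : Fin (k + 1) => Bool))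
    (fun p => cjj (Fin.cons p.1 p.2 : Fin (k + 1) → Bool)
      (f (x + (tot (sel (Fin.cons p.1 p.2 : Fin (k + 1) → Bool) (Fin.cons z a)
        (Fin.cons z' b)) : ZMod N)))) _ (fun p => rfl)]
  rw [Fintype.prod_prod_type, Fintype.prod_bool, ← prod_mul_distrib]
  refine prod_congr rfl fun ω _ => ?_
  rw [fb_cjj_cons, fb_cjj_cons, fb_sel_cons, fb_sel_cons, fb_tot_cons, fb_tot_cons, fb_cjj_mul,
    fb_cjj_conj, mul_comm]
  simp only [if_true, Bool.false_eq_true, if_false, Nat.cast_add]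
  rw [add_assoc, add_assoc, add_comm (tot (sel ω a b) : ZMod N) (z : ZMod N),
    add_comm (tot (sel ω a b) : ZMod N) (z' : ZMod N)]

theorem fb_expect_boxset_succ {M : Type} [AddCommMonoid M] [Module ℚ≥0 M] (k X : ℕ)
    (F : (Fin (k + 1) → ℕ) → M) :
    𝔼 a ∈ boxset (k + 1) X, F a
      = 𝔼 z ∈ range X, 𝔼 a ∈ boxset k X, F (Fin.cons z a) := by
  rw [← expect_product' (range X) (boxset k X) (fun z a => F (Fin.cons z a))]
  refine expect_nbij' (fun a => (a 0, Fin.tail a)) (fun p => Fin.cons p.1 p.2) ?_ ?_ ?_ ?_ ?_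
  · intro a ha
    simp only [boxset, Fintype.mem_piFinset] at ha
    simp only [boxset, mem_product, Fintype.mem_piFinset]
    exact ⟨ha 0, fun i => ha _⟩
  · intro p hp
    simp only [boxset, mem_product, Fintype.mem_piFinset] at hp
    simp only [boxset, Fintype.mem_piFinset]
    intro i
    refine Fin.cases ?_ (fun i => ?_) i
    · simpa using hp.1
    · simpa using hp.2 i
  · intro a _
    simp
  · intro p _
    simp
  · intro a _
    simp

omit [NeZero N] in
theorem fb_cubeq_cons (st k : ℕ) (f : ZMod N → ℂ) (z z' : ℕ) (a b : Fin k → ℕ)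
    (x : ZMod N) :
    cubeq st f (Fin.cons z a) (Fin.cons z' b) x
      = cubeq st (fun x => f (x + ((st * z : ℕ) : ZMod N)) *
          conj (f (x + ((st * z' : ℕ) : ZMod N)))) a b x := by
  have h : ∀ (z : ℕ) (a : Fin k → ℕ), (fun i => st * (Fin.cons z a : Fin (k + 1) → ℕ) i) =
      Fin.cons (st * z) (fun i => st * a i) := by
    intro z a
    funext i
    refine Fin.cases ?_ (fun i => ?_) i
    · simp
    · simp
  rw [fb_cubeq_eq, fb_cubeq_eq, h, h, fb_cube_cons]

theorem fb_Boxq_eq (st k X : ℕ) (f : ZMod N → ℂ) :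
    Boxq st k X f = 𝔼 a ∈ boxset k X, 𝔼 b ∈ boxset k X, (𝔼 x : ZMod N, cubeq st f a b x).re := by
  simp only [Boxq, Complex.re_expect]

theorem fb_Boxq_succ (st k X : ℕ) (f : ZMod N → ℂ) :
    Boxq st (k + 1) X f = 𝔼 z ∈ range X, 𝔼 z' ∈ range X,
      Boxq st k X (fun x => f (x + ((st * z : ℕ) : ZMod N)) *
        conj (f (x + ((st * z' : ℕ) : ZMod N)))) := by
  rw [fb_Boxq_eq, fb_expect_boxset_succ]
  refine expect_congr rfl fun z _ => ?_
  have h : ∀ a ∈ boxset k X, 𝔼 b ∈ boxset (k + 1) X,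
      (𝔼 x : ZMod N, cubeq st f (Fin.cons z a) b x).re
      = 𝔼 z' ∈ range X, 𝔼 b ∈ boxset k X, (𝔼 x : ZMod N,
        cubeq st (fun x => f (x + ((st * z : ℕ) : ZMod N)) *
          conj (f (x + ((st * z' : ℕ) : ZMod N)))) a b x).re := by
    intro a _
    rw [fb_expect_boxset_succ]
    refine expect_congr rfl fun z' _ => expect_congr rfl fun b _ => ?_
    simp only [fb_cubeq_cons]
  rw [expect_congr rfl h, expect_comm]
  refine expect_congr rfl fun z' _ => ?_
  rw [fb_Boxq_eq]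

end AqBasic

end

end Pool.Agent.Helper67.NX2

end

section

set_option autoImplicit false

open Finset

open scoped BigOperators ComplexConjugate

namespace Pool.Agent.Helper67.NX2

open Pool.Agent.Helper57.NX

noncomputable section

section Sums52

lemma sum_zmod_range52 {N : ℕ} [NeZero N] {M : Type} [AddCommMonoid M] (g : ZMod N → M) :
    ∑ x : ZMod N, g x = ∑ n ∈ range N, g (n : ZMod N) := by
  refine sum_bij' (i := fun x _ => x.val) (j := fun j _ => (j : ZMod N)) ?_ ?_ ?_ ?_ ?_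
  · intro x _
    exact mem_range.2 (ZMod.val_lt x)
  · intro j _
    exact mem_univ _
  · intro x _
    exact ZMod.natCast_zmod_val x
  · intro j hj
    exact ZMod.val_natCast_of_lt (mem_range.1 hj)
  · intro x _
    rw [ZMod.natCast_zmod_val]

lemma sum_div_range52 (M K : ℕ) (hM : 1 ≤ M) (w : ℕ → ℝ) :
    ∑ n ∈ range (M * K), w (n / M) = M * ∑ g ∈ range K, w g := by
  induction K with
  | zero => simp
  | succ K ih =>
    rw [Nat.mul_succ, sum_range_add, ih, sum_range_succ, mul_add]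
    congr 1
    have h : ∀ i ∈ range M, w ((M * K + i) / M) = w K := by
      intro i hi
      rw [Nat.mul_add_div (by omega), Nat.div_eq_of_lt (mem_range.1 hi), add_zero]
    rw [sum_congr rfl h, sum_const, card_range, nsmul_eq_mul]

end Sums52

section Tv52

variable {N : ℕ} [NeZero N]

/-- proportion of the points near the end of the circle -/
lemma expect_end52 {p Q : ℕ} (hQ : 1 ≤ Q) (hN : N = Q * p) (Δ : ℕ) :
    𝔼 x : ZMod N, (if p ≤ x.val / Q + Δ then (2 : ℝ) else 0) ≤ 2 * (Δ / p) := by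
  have hN0 : 0 < N := Nat.pos_of_ne_zero (NeZero.ne N)
  have hp0 : 0 < p := Nat.pos_of_ne_zero (by rintro rfl; omega)
  have hNr : (0 : ℝ) < N := by exact_mod_cast hN0
  have hpr : (0 : ℝ) < p := by exact_mod_cast hp0
  have hQr : (0 : ℝ) < Q := by exact_mod_cast hQ
  rw [Fintype.expect_eq_sum_div_card, ZMod.card, div_le_iff₀ hNr,
    sum_zmod_range52 (fun x : ZMod N => if p ≤ x.val / Q + Δ then (2 : ℝ) else 0)]
  have h1 : ∀ n ∈ range N, (if p ≤ ((n : ZMod N)).val / Q + Δ then (2 : ℝ) else 0) =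
      if p ≤ n / Q + Δ then (2 : ℝ) else 0 := by
    intro n hn
    rw [ZMod.val_natCast_of_lt (mem_range.1 hn)]
  exact by
    rw [sum_congr rfl h1]
    have h2 := sum_div_range52 Q p hQ (fun g => if p ≤ g + Δ then (2 : ℝ) else 0)
    rw [hN, h2]
    have h3 : ∑ g ∈ range p, (if p ≤ g + Δ then (2 : ℝ) else 0) ≤ 2 * Δ := by
      rw [← sum_filter, sum_const, nsmul_eq_mul, mul_comm]
      refine mul_le_mul_of_nonneg_left ?_ (by norm_num)
      have h4 : (range p).filter (fun g => p ≤ g + Δ) ⊆ Ico (p - Δ) p := by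
        intro g hg
        rw [mem_filter, mem_range] at hg
        rw [mem_Ico]
        omega
      have h5 := card_le_card h4
      rw [Nat.card_Ico] at h5
      exact_mod_cast h5.trans (by omega)
    have h6 : (Q : ℝ) * ∑ g ∈ range p, (if p ≤ g + Δ then (2 : ℝ) else 0) ≤ Q * (2 * Δ) :=
      mul_le_mul_of_nonneg_left h3 hQr.le
    refine h6.trans (le_of_eq ?_)
    push_cast
    field_simp

end Tv52

end

end Pool.Agent.Helper67.NX2

end

section

set_option autoImplicit false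

open Finset

open scoped BigOperators ComplexConjugate

namespace Pool.Agent.Helper67.NX2

open Pool.Agent.Helper57.NX

noncomputable section

section Split52

variable {N : ℕ} [NeZero N]

/-- the model of the top function on the class `b` modulo `q` -/
def T52 {p : ℕ} (Q q n0 b : ℕ) (G : ZMod p → ℂ) (y : ZMod N) : ℂ :=
  G ((q * ((y - ((Q * n0 : ℕ) : ZMod N)).val / (Q * q)) + b + n0 : ℕ) : ZMod p)

/-- the indicator of the class `b` modulo `q` of the block number -/
def ind52 (Q q b : ℕ) (x : ZMod N) : ℂ := if x.val / Q % q = b then 1 else 0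

/-- decomposition for one `k` -/
lemma split_one52 {p : ℕ} [NeZero p] {Q q : ℕ} (hQ : 1 ≤ Q) (hq : 1 ≤ q) (hN : N = Q * p)
    (G : ZMod p → ℂ) (hG : ∀ z, ‖G z‖ ≤ 1) (f0 W : ZMod N → ℂ) (hf0 : ∀ x, ‖f0 x‖ ≤ 1)
    (hW : ∀ x, ‖W x‖ ≤ 1)
    (a : ℤ) (n0 Δk Δ : ℕ) (hΔ : Δk ≤ Δ) (hdvd : q ∣ Δk) (ha : a = (Q : ℤ) * (n0 + Δk : ℕ)) :
    ‖𝔼 x : ZMod N, f0 x * (W x * blk Q G (x + (a : ZMod N))) -
      ∑ b ∈ range q, 𝔼 x : ZMod N, (f0 x * ind52 Q q b x) *
        (W x * T52 Q q n0 b G (x + (a : ZMod N)))‖ ≤ 2 * (Δ / p) := by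
  rw [← expect_sum_comm, ← expect_sub_distrib]
  refine (norm_expect_le5 _ _).trans ?_
  refine le_trans (expect_le_expect fun x _ => ?_) (expect_end52 hQ hN Δ)
  have h1 : ∑ b ∈ range q, (f0 x * ind52 Q q b x) * (W x * T52 Q q n0 b G (x + (a : ZMod N))) =
      f0 x * (W x * T52 Q q n0 (x.val / Q % q) G (x + (a : ZMod N))) := by
    rw [sum_eq_single (x.val / Q % q)]
    · simp [ind52]
    · intro b _ hb
      simp [ind52, Ne.symm hb]
    · intro hb
      exact absurd (mem_range.2 (Nat.mod_lt _ hq)) hb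
  rw [h1, ← mul_sub, ← mul_sub, norm_mul, norm_mul]
  have h0 := hf0 x
  have hw := hW x
  have hn0 := norm_nonneg (f0 x)
  exact by
    have hnw := norm_nonneg (W x)
    split_ifs with hc
    · have h2 : ‖blk Q G (x + (a : ZMod N)) - T52 Q q n0 (x.val / Q % q) G (x + (a : ZMod N))‖ ≤ 2 := by
        refine (norm_sub_le _ _).trans ?_
        have e1 : ‖blk Q G (x + (a : ZMod N))‖ ≤ 1 := hG _
        have e2 : ‖T52 Q q n0 (x.val / Q % q) G (x + (a : ZMod N))‖ ≤ 1 := hG _
        (clear * - e1 e2; linarith)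
      have h3 := norm_nonneg (blk Q G (x + (a : ZMod N)) -
        T52 Q q n0 (x.val / Q % q) G (x + (a : ZMod N)))
      calc _ ≤ 1 * (1 * ‖blk Q G (x + (a : ZMod N)) -
            T52 Q q n0 (x.val / Q % q) G (x + (a : ZMod N))‖) := by (clear * - h0 hw; gcongr)
        _ ≤ 2 := by (clear * - h2; linarith)
    · have h2 : blk Q G (x + (a : ZMod N)) = T52 Q q n0 (x.val / Q % q) G (x + (a : ZMod N)) := by
        obtain ⟨t, ht⟩ := hdvd
        have e0 : x + (a : ZMod N) = x + (((Q : ℤ) * ((n0 + Δk : ℕ) : ℤ) : ℤ) : ZMod N) := by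
          rw [ha]
        have e1 : blk Q G (x + (a : ZMod N)) = G ((x.val / Q + Δk + n0 : ℕ) : ZMod p) := by
          rw [e0, blk_add hQ hN]
          have e4 : ((x.val / Q : ℕ) : ZMod p) + (((n0 + Δk : ℕ) : ℤ) : ZMod p) =
              ((x.val / Q + Δk + n0 : ℕ) : ZMod p) := by
            push_cast
            ring
          unfold blk
          rw [← e4]
        have hlt : x.val + Q * Δk < N := by
          have f1 : x.val < Q * (x.val / Q + 1) := Nat.lt_mul_div_succ _ hQ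
          have f2 : Q * (x.val / Q + 1 + Δk) ≤ Q * p := Nat.mul_le_mul_left _ (by omega)
          rw [Nat.mul_add] at f2
          omega
        have e2 : x + (a : ZMod N) - ((Q * n0 : ℕ) : ZMod N) = ((x.val + Q * Δk : ℕ) : ZMod N) := by
          rw [e0]
          conv_lhs => rw [← ZMod.natCast_zmod_val x]
          push_cast
          ring
        have e3 : (x.val + Q * Δk) / (Q * q) = x.val / Q / q + t := by
          rw [← Nat.div_div_eq_div_mul, Nat.add_mul_div_left _ _ hQ, ht, Nat.add_mul_div_left _ _ hq]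
        rw [e1]
        unfold T52
        rw [e2, ZMod.val_natCast_of_lt hlt, e3]
        congr 2
        have f3 := Nat.div_add_mod (x.val / Q) q
        rw [Nat.mul_add, ← ht]
        omega
      rw [h2, sub_self, norm_zero]
      simp

end Split52

end

end Pool.Agent.Helper67.NX2

end

section

set_option autoImplicit false

open Finset

open scoped BigOperators ComplexConjugate

namespace Pool.Agent.Helper57.NX

noncomputable section

namespace LF

theorem shift_avg (G : ℕ → ℂ) (hG : ∀ k, ‖G k‖ ≤ 1) (K : ℕ) (hK : 0 < K) (h : ℕ) :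
    ‖(𝔼 k ∈ range K, G k) - 𝔼 k ∈ range K, G (k + h)‖ ≤ 2 * h / K := by
  have hK0 : (0 : ℝ) < K := by exact_mod_cast hK
  have e1 : ∑ k ∈ range (K + h), G k = ∑ k ∈ range K, G k + ∑ k ∈ range h, G (K + k) :=
    Finset.sum_range_add G K h
  have e2 : ∑ k ∈ range (K + h), G k = ∑ k ∈ range h, G k + ∑ k ∈ range K, G (k + h) := by
    rw [add_comm K h, Finset.sum_range_add G h K]
    simp only [add_comm h]
  have e3 : (∑ k ∈ range K, G k) - ∑ k ∈ range K, G (k + h)
      = (∑ k ∈ range h, G k) - ∑ k ∈ range h, G (K + k) := by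
    linear_combination e2 - e1
  rw [Finset.expect_eq_sum_div_card, Finset.expect_eq_sum_div_card, Finset.card_range,
    ← sub_div, e3, norm_div, Complex.norm_natCast]
  refine div_le_div_of_nonneg_right ?_ hK0.le
  have h1 : ∀ g : ℕ → ℂ, (∀ k, ‖g k‖ ≤ 1) → ‖∑ k ∈ range h, g k‖ ≤ h := by
    intro g hg
    refine (norm_sum_le _ _).trans ((Finset.sum_le_card_nsmul _ _ 1 fun k _ => hg k).trans ?_)
    rw [nsmul_eq_mul, mul_one, Finset.card_range]
  calc _ ≤ _ := norm_sub_le _ _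
    _ ≤ h + h := add_le_add (h1 _ hG) (h1 _ fun k => hG _)
    _ = 2 * h := by ring

theorem avg_avg {ι : Type} (L : Finset ι) (hL : L.Nonempty) (s : ι → ℕ) (H : ℝ)
    (hs : ∀ l ∈ L, (s l : ℝ) ≤ H) (G : ℕ → ℂ) (hG : ∀ k, ‖G k‖ ≤ 1) (K : ℕ) (hK : 0 < K) :
    ‖(𝔼 k ∈ range K, G k) - 𝔼 k ∈ range K, 𝔼 l ∈ L, G (k + s l)‖ ≤ 2 * H / K := by
  have hK0 : (0 : ℝ) < K := by exact_mod_cast hK
  rw [Finset.expect_comm]
  have h1 : (𝔼 k ∈ range K, G k) = 𝔼 l ∈ L, 𝔼 k ∈ range K, G k := by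
    rw [Finset.expect_const hL]
  rw [h1, ← Finset.expect_sub_distrib]
  refine (RCLike.norm_expect_le (K := ℂ)).trans (Finset.expect_le hL fun l hl => ?_)
  refine (shift_avg G hG K hK (s l)).trans ?_
  refine div_le_div_of_nonneg_right ?_ hK0.le
  (clear * - hs hl; linarith [hs l hl])

theorem exists_of_le_norm_expect {ι : Type} (L : Finset ι) (hL : L.Nonempty) (G : ι → ℂ) (a : ℝ)
    (h : a ≤ ‖𝔼 k ∈ L, G k‖) : ∃ k ∈ L, a ≤ ‖G k‖ :=
  Finset.exists_le_of_le_expect hL (h.trans (RCLike.norm_expect_le (K := ℂ)))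

variable {N : ℕ} [NeZero N]

/-- the box average for given integer displacements -/
def W {r : ℕ} (f : ZMod N → ℂ) (u : (Fin r → Bool) → ℤ) : ℂ :=
  𝔼 x : ZMod N, ∏ ω : Fin r → Bool, cjj ω (f (x + (u ω : ZMod N)))

theorem W_shift {r : ℕ} (f : ZMod N → ℂ) (u : (Fin r → Bool) → ℤ) (c : ℤ) :
    W f (fun ω => u ω + c) = W f u := by
  unfold W
  rw [← expect_shift (fun x : ZMod N => ∏ ω : Fin r → Bool, cjj ω (f (x + (u ω : ZMod N))))
    (c : ZMod N)]
  refine Finset.expect_congr rfl fun x _ => Finset.prod_congr rfl fun ω _ => ?_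
  congr 2
  push_cast
  ring

omit [NeZero N] in
theorem expect_pi_refl {r : ℕ} (E : Fin r → ℕ) (P : Fin r → Prop) [DecidablePred P]
    (Φ : (Fin r → ℕ) → ℂ) :
    𝔼 l ∈ Fintype.piFinset (fun i => range (E i)), Φ (fun i => if P i then E i - 1 - l i else l i)
      = 𝔼 l ∈ Fintype.piFinset (fun i => range (E i)), Φ l := by
  refine Finset.expect_nbij' (fun l => fun i => if P i then E i - 1 - l i else l i)
    (fun l => fun i => if P i then E i - 1 - l i else l i) ?_ ?_ ?_ ?_ ?_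
  · intro l hl
    rw [Fintype.mem_piFinset] at hl ⊢
    intro i
    have h1 := Finset.mem_range.1 (hl i)
    rw [Finset.mem_range]
    split_ifs <;> omega
  · intro l hl
    rw [Fintype.mem_piFinset] at hl ⊢
    intro i
    have h1 := Finset.mem_range.1 (hl i)
    rw [Finset.mem_range]
    split_ifs <;> omega
  · intro l hl
    rw [Fintype.mem_piFinset] at hl
    funext i
    have h1 := Finset.mem_range.1 (hl i)
    dsimp only
    split_ifs <;> omega
  · intro l hl
    rw [Fintype.mem_piFinset] at hl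
    funext i
    have h1 := Finset.mem_range.1 (hl i)
    dsimp only
    split_ifs <;> omega
  · intro l _
    rfl

omit [NeZero N] in
/-- absorbing constants -/
theorem absorb {δ : ℝ} (hδ0 : 0 < δ) (hδ : δ ≤ 1 / 2) (c : ℝ) (k a b : ℕ) (hc : c ≤ 2 ^ k)
    (hb : a + k ≤ b) : c * δ ^ b ≤ δ ^ a := by
  have h1 : δ ^ b ≤ δ ^ (a + k) := pow_le_pow_of_le_one hδ0.le (by (clear * - hδ0 hδ; linarith)) hb
  have h2 : δ ^ k ≤ (1 / 2) ^ k := pow_le_pow_left₀ hδ0.le hδ k
  calc c * δ ^ b ≤ 2 ^ k * δ ^ b := mul_le_mul_of_nonneg_right hc (pow_nonneg hδ0.le _)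
    _ ≤ 2 ^ k * δ ^ (a + k) := mul_le_mul_of_nonneg_left h1 (by positivity)
    _ = 2 ^ k * δ ^ k * δ ^ a := by rw [pow_add]; ring
    _ ≤ 2 ^ k * (1 / 2) ^ k * δ ^ a := by gcongr
    _ = δ ^ a := by rw [← mul_pow]; norm_num

end LF

end

end Pool.Agent.Helper57.NX

end

section

set_option autoImplicit false

open Finset

open scoped BigOperators ComplexConjugate

namespace Pool.Agent.Helper67.NX2

open Pool.Agent.Helper57.NX

noncomputable section

namespace LFQ

variable {N : ℕ} [NeZero N]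

/-- the sign of a slope -/
def sn (a : ℤ) : ℤ := if 0 < a then 1 else -1

theorem sn_natAbs (a : ℤ) : sn a * (a.natAbs : ℤ) = a := by
  unfold sn
  split_ifs with h
  · rw [one_mul, Int.natAbs_of_nonneg h.le]
  · rw [Int.ofNat_natAbs_of_nonpos (not_lt.1 h)]; ring

/-- averages over boxes of displacements with signs are box norms in a fixed direction -/
theorem W_box {r : ℕ} (fs : ZMod N → ℂ) (st H : ℕ) (α : Fin r → ℤ) :
    (𝔼 l ∈ boxset r H, 𝔼 l' ∈ boxset r H,
      LF.W fs (fun ω => -(st * ∑ i, sn (α i) * ((sel ω l l' i : ℕ) : ℤ))))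
      = 𝔼 l ∈ boxset r H, 𝔼 l' ∈ boxset r H, 𝔼 x, cubeq st fs l l' x := by
  classical
  have hsel : ∀ (ω : Fin r → Bool) (l l' : Fin r → ℕ),
      sel ω (fun i => if 0 < α i then H - 1 - l i else l i)
        (fun i => if 0 < α i then H - 1 - l' i else l' i)
      = fun i => if 0 < α i then H - 1 - sel ω l l' i else sel ω l l' i := by
    intro ω l l'
    funext i
    by_cases h : ω i = true
    · simp only [sel, h, if_true]
    · simp only [sel, h, if_false, Bool.false_eq_true]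
  unfold boxset
  rw [← LF.expect_pi_refl (fun _ => H) (fun i => 0 < α i)]
  refine Finset.expect_congr rfl fun l hl => ?_
  rw [← LF.expect_pi_refl (fun _ => H) (fun i => 0 < α i)]
  refine Finset.expect_congr rfl fun l' hl' => ?_
  rw [← LF.W_shift fs _ (st * ∑ i, if 0 < α i then ((H - 1 : ℕ) : ℤ) else 0)]
  unfold LF.W cubeq tot
  refine Finset.expect_congr rfl fun x _ => Finset.prod_congr rfl fun ω _ => ?_
  exact by
    congr 2
    congr 1
    have key : (-(st * ∑ i, sn (α i) * ((sel ω (fun i => if 0 < α i then H - 1 - l i else l i)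
          (fun i => if 0 < α i then H - 1 - l' i else l' i) i : ℕ) : ℤ)) +
          st * ∑ i, if 0 < α i then ((H - 1 : ℕ) : ℤ) else 0 : ℤ)
        = ((st * ∑ i, sel ω l l' i : ℕ) : ℤ) := by
      rw [hsel, neg_add_eq_sub, ← mul_sub, ← Finset.sum_sub_distrib]
      push_cast
      congr 1
      refine Finset.sum_congr rfl fun i _ => ?_
      have hlt : sel ω l l' i < H := by
        unfold sel
        split_ifs
        · exact Finset.mem_range.1 (Fintype.mem_piFinset.1 hl' i)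
        · exact Finset.mem_range.1 (Fintype.mem_piFinset.1 hl i)
      unfold sn
      split_ifs with h
      · omega
      · push_cast
        ring
    refine (congrArg (Int.cast : ℤ → ZMod N) key).trans ?_
    push_cast
    rfl

end LFQ

open LFQ in
theorem lin_forms' (r n : ℕ) (hr : 1 ≤ r) : ∃ n' : ℕ, ∀ (N : ℕ) [NeZero N] (δ : ℝ) (K Q : ℕ)
    (α β : Fin r → ℤ) (fs : ZMod N → ℂ) (f : Fin r → ZMod N → ℂ), 0 < δ → δ ≤ 1 / 2 →
    (∀ x, ‖fs x‖ ≤ 1) → (∀ j x, ‖f j x‖ ≤ 1) → (∀ j, α j ≠ 0 ∧ |(α j : ℝ)| ≤ δ⁻¹ ^ n) →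
    δ⁻¹ ^ n' ≤ K →
    δ ^ n ≤ ‖𝔼 k ∈ range K, 𝔼 x, fs x * ∏ j, f j (x + ((Q * (α j * k + β j) : ℤ) : ZMod N))‖ →
    ∃ q : ℕ, 1 ≤ q ∧ (q : ℝ) ≤ δ⁻¹ ^ n' ∧ ∀ H : ℕ, 1 ≤ H → (H : ℝ) ≤ δ ^ n' * K →
      δ ^ n' ≤ Boxq (Q * q) r H fs := by
  classical
  obtain ⟨n', hn'⟩ : ∃ n' : ℕ, n' = n * r + n + r + 4 + (n + 1) * 2 ^ r := ⟨_, rfl⟩
  refine ⟨n', ?_⟩
  intro N _ δ K Q α β fs f hδ0 hδ hfs hf hα hK hform
  have hδ1 : δ ≤ 1 := by (clear * - hδ0 hδ; linarith)
  have hinv : 0 < δ⁻¹ := inv_pos.2 hδ0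
  have hinv1 : 1 ≤ δ⁻¹ := (one_le_inv₀ hδ0).2 hδ1
  have hK0 : (0 : ℝ) < K := (pow_pos hinv _).trans_le hK
  have hKn : 0 < K := by exact_mod_cast hK0
  obtain ⟨q, hq⟩ : ∃ q : ℕ, q = ∏ j, (α j).natAbs := ⟨_, rfl⟩
  have hab : ∀ j, 1 ≤ (α j).natAbs := fun j => Int.natAbs_pos.2 (hα j).1
  exact by
    have hq1 : 1 ≤ q := by
      rw [hq]
      exact Nat.one_le_iff_ne_zero.2 (Finset.prod_ne_zero_iff.2 fun j _ => by have := hab j; omega)
    have hqb : (q : ℝ) ≤ δ⁻¹ ^ (n * r) := by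
      rw [hq, Nat.cast_prod]
      calc ∏ j, (((α j).natAbs : ℕ) : ℝ) ≤ ∏ _j : Fin r, δ⁻¹ ^ n := by
            refine Finset.prod_le_prod (fun _ _ => Nat.cast_nonneg _) fun j _ => ?_
            rw [Nat.cast_natAbs, Int.cast_abs]
            exact (hα j).2
        _ = δ⁻¹ ^ (n * r) := by
            rw [Finset.prod_const, Finset.card_univ, Fintype.card_fin, ← pow_mul]
    refine ⟨q, hq1, hqb.trans (pow_le_pow_right₀ hinv1 (by omega)), ?_⟩
    intro H hH hHb
    -- the steps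
    have hdvd : ∀ j, (α j).natAbs ∣ q := fun j => by
      rw [hq]; exact Finset.dvd_prod_of_mem _ (Finset.mem_univ j)
    obtain ⟨e, he⟩ : ∃ e : Fin r → ℕ, ∀ j, (α j).natAbs * e j = q :=
      ⟨fun j => q / (α j).natAbs, fun j => Nat.mul_div_cancel' (hdvd j)⟩
    have heq : ∀ j, e j ≤ q := fun j => by
      calc e j = 1 * e j := (one_mul _).symm
        _ ≤ (α j).natAbs * e j := Nat.mul_le_mul_right _ (hab j)
        _ = q := he j
    obtain ⟨G, hGdef⟩ : ∃ G : ℕ → ℂ, G = fun k : ℕ => 𝔼 x : ZMod N,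
      fs x * ∏ j, f j (x + ((Q * (α j * k + β j) : ℤ) : ZMod N)) := ⟨_, rfl⟩
    obtain ⟨L, hLdef⟩ : ∃ L : Finset (Fin r → ℕ), L = Fintype.piFinset (fun _ => range H) := ⟨_, rfl⟩
    have hL : L.Nonempty := by
      rw [hLdef]
      exact ⟨fun _ => 0, Fintype.mem_piFinset.2 fun i => Finset.mem_range.2 hH⟩
    have hG : ∀ k, ‖G k‖ ≤ 1 := by
      intro k
      rw [hGdef]
      refine (RCLike.norm_expect_le (K := ℂ)).trans (Finset.expect_le Finset.univ_nonempty
        fun x _ => ?_)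
      rw [norm_mul, norm_prod]
      exact mul_le_one₀ (hfs x) (Finset.prod_nonneg fun _ _ => norm_nonneg _)
        (Finset.prod_le_one (fun _ _ => norm_nonneg _) fun j _ => hf j _)
    exact by
      have h1 := LF.avg_avg L hL (fun l => ∑ i, e i * l i) (r * (q * H)) (fun l hl => by
        push_cast
        calc ∑ i, ((e i : ℝ) * l i) ≤ ∑ _i : Fin r, ((q : ℝ) * H) := by
              refine Finset.sum_le_sum fun i _ => ?_
              rw [hLdef] at hl
              have h2 := Finset.mem_range.1 (Fintype.mem_piFinset.1 hl i)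
              have h3 : (l i : ℝ) ≤ H := by exact_mod_cast h2.le
              have h4 : (e i : ℝ) ≤ q := by exact_mod_cast heq i
              exact mul_le_mul h4 h3 (Nat.cast_nonneg _) (Nat.cast_nonneg _)
          _ = r * (q * H) := by
              rw [Finset.sum_const, nsmul_eq_mul, Finset.card_univ, Fintype.card_fin]) G hG K hKn
      have herr : 2 * (r * (q * H)) / K ≤ δ ^ (n + 1) := by
        rw [div_le_iff₀ hK0]
        have h2 : (q : ℝ) * H ≤ δ⁻¹ ^ (n * r) * (δ ^ n' * K) :=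
          mul_le_mul hqb hHb (Nat.cast_nonneg _) (by positivity)
        have h3 : δ⁻¹ ^ (n * r) * (δ ^ n' * K) = δ ^ (n + r + 4 + (n + 1) * 2 ^ r) * K := by
          have : n' = n * r + (n + r + 4 + (n + 1) * 2 ^ r) := by rw [hn']; ring
          rw [this, pow_add, inv_pow]
          field_simp
        rw [h3] at h2
        have hr2 : (r : ℝ) ≤ 2 ^ r := by exact_mod_cast Nat.lt_two_pow_self.le
        have h4 : (2 * r : ℝ) * δ ^ (n + r + 4 + (n + 1) * 2 ^ r) ≤ δ ^ (n + 1) := by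
          refine LF.absorb hδ0 hδ _ (r + 1) (n + 1) _ ?_ (by omega)
          rw [pow_add]; (clear * - hr2; linarith)
        calc (2 : ℝ) * (r * (q * H)) = 2 * r * (q * H) := by ring
          _ ≤ 2 * r * (δ ^ (n + r + 4 + (n + 1) * 2 ^ r) * K) :=
              mul_le_mul_of_nonneg_left h2 (by positivity)
          _ = (2 * r : ℝ) * δ ^ (n + r + 4 + (n + 1) * 2 ^ r) * K := by ring
          _ ≤ δ ^ (n + 1) * K := mul_le_mul_of_nonneg_right h4 hK0.le
      have hhalf : δ ^ (n + 1) ≤ δ ^ n / 2 := by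
        rw [pow_succ]
        have := pow_pos hδ0 n
        (clear * - hδ this; nlinarith)
      have h2 : δ ^ (n + 1) ≤ ‖𝔼 k ∈ range K, 𝔼 l ∈ L, G (k + ∑ i, e i * l i)‖ := by
        have h3 := norm_sub_norm_le (𝔼 k ∈ range K, G k) (𝔼 k ∈ range K, 𝔼 l ∈ L,
          G (k + ∑ i, e i * l i))
        have h4 : δ ^ n ≤ ‖𝔼 k ∈ range K, G k‖ := by rw [hGdef]; exact hform
        linarith
      obtain ⟨k, -, h3⟩ := LF.exists_of_le_norm_expect (range K)
        (Finset.nonempty_range_iff.2 hKn.ne') _ _ h2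
      -- translate
      obtain ⟨Lam, hLam⟩ : ∃ Lam : (Fin r → ℕ) → ℤ, Lam = fun l =>
        ((Q * q : ℕ) : ℤ) * ∑ i, sn (α i) * ((l i : ℕ) : ℤ) := ⟨_, rfl⟩
      obtain ⟨v, hv⟩ : ∃ v : Fin r → (Fin r → ℕ) → ℤ, v = fun j l =>
        Q * (α j * k + β j) + ∑ i ∈ univ.erase j, (Q * (α j * e i) - (Q * q : ℕ) * sn (α i)) * l i :=
        ⟨_, rfl⟩
      have hkey : ∀ (j : Fin r) (l : Fin r → ℕ),
          -Lam l + Q * (α j * ((k + ∑ i, e i * l i : ℕ) : ℤ) + β j) = v j l := by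
        intro j l
        have h0 : ∑ i ∈ univ.erase j, ((Q : ℤ) * (α j * e i) - (Q * q : ℕ) * sn (α i)) * l i
            = ∑ i, ((Q : ℤ) * (α j * e i) - (Q * q : ℕ) * sn (α i)) * l i := by
          rw [Finset.sum_erase]
          have h5 : (α j) * (e j : ℤ) = q * sn (α j) := by
            have h6 : ((α j).natAbs : ℤ) * (e j : ℤ) = q := by exact_mod_cast he j
            calc α j * (e j : ℤ) = sn (α j) * ((α j).natAbs : ℤ) * (e j : ℤ) := by rw [sn_natAbs]
              _ = sn (α j) * (((α j).natAbs : ℤ) * (e j : ℤ)) := by ring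
              _ = q * sn (α j) := by rw [h6]; ring
          rw [h5]
          push_cast
          ring
        rw [hv, hLam]
        dsimp only
        rw [h0]
        push_cast
        have h7 : ∑ i, ((Q : ℤ) * (α j * e i) - (Q : ℤ) * q * sn (α i)) * (l i : ℤ)
            = Q * α j * ∑ i, (e i : ℤ) * l i - Q * q * ∑ i, sn (α i) * (l i : ℤ) := by
          rw [Finset.mul_sum, Finset.mul_sum, ← Finset.sum_sub_distrib]
          exact Finset.sum_congr rfl fun i _ => by ring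
        rw [h7]
        ring
      have h5 : δ ^ (n + 1) ≤ ‖𝔼 l ∈ L, 𝔼 x : ZMod N,
          fs (x + ((-Lam l : ℤ) : ZMod N)) * ∏ j, f j (x + (v j l : ZMod N))‖ := by
        refine h3.trans (le_of_eq ?_)
        congr 1
        refine Finset.expect_congr rfl fun l _ => ?_
        rw [hGdef]
        dsimp only
        rw [← expect_shift (fun x : ZMod N => fs x *
          ∏ j, f j (x + ((Q * (α j * ((k + ∑ i, e i * l i : ℕ) : ℤ) + β j) : ℤ) : ZMod N)))
          ((-Lam l : ℤ) : ZMod N)]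
        refine Finset.expect_congr rfl fun x _ => ?_
        congr 1
        refine Finset.prod_congr rfl fun j _ => ?_
        congr 1
        rw [← hkey j l, Int.cast_add, add_assoc]
      exact by
        rw [Finset.expect_comm] at h5
        have h6 : δ ^ (n + 1) ≤ 𝔼 x : ZMod N, ‖𝔼 l ∈ L,
            fs (x + ((-Lam l : ℤ) : ZMod N)) * ∏ j, f j (x + (v j l : ZMod N))‖ :=
          h5.trans (RCLike.norm_expect_le (K := ℂ))
        have h7 : (δ ^ (n + 1)) ^ (2 ^ r) ≤ 𝔼 x : ZMod N, ‖𝔼 l ∈ L,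
            fs (x + ((-Lam l : ℤ) : ZMod N)) * ∏ j, f j (x + (v j l : ZMod N))‖ ^ (2 ^ r) :=
          (pow_le_pow_left₀ (by positivity) h6 _).trans
            (gcs_pow_expect_le _ _ _ fun _ _ => norm_nonneg _)
        have h8 : ∀ x : ZMod N, ‖𝔼 l ∈ L,
            fs (x + ((-Lam l : ℤ) : ZMod N)) * ∏ j, f j (x + (v j l : ZMod N))‖ ^ (2 ^ r)
            ≤ (𝔼 l ∈ L, 𝔼 l' ∈ L, ∏ ω : Fin r → Bool,
              cjj ω (fs (x + ((-Lam (sel ω l l') : ℤ) : ZMod N)))).re := by
          intro x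
          rw [hLdef]
          refine gcs hr (fun _ => range H) (fun i => Finset.nonempty_range_iff.2 (by omega))
            (fun l => fs (x + ((-Lam l : ℤ) : ZMod N))) (fun j l => f j (x + (v j l : ZMod N)))
            (fun j l => hf j _) ?_
          intro j a a' haa
          have h9 : v j a = v j a' := by
            rw [hv]
            dsimp only
            congr 1
            refine Finset.sum_congr rfl fun i hi => ?_
            rw [haa i (Finset.ne_of_mem_erase hi)]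
          rw [h9]
        have h9 : (δ ^ (n + 1)) ^ (2 ^ r) ≤ Boxq (Q * q) r H fs := by
          refine (h7.trans (Finset.expect_le_expect fun x _ => h8 x)).trans (le_of_eq ?_)
          rw [← gcs_re_expect]
          unfold Boxq
          rw [← W_box fs (Q * q) H α]
          congr 1
          rw [Finset.expect_comm, hLdef]
          refine Finset.expect_congr rfl fun l _ => ?_
          rw [Finset.expect_comm]
          refine Finset.expect_congr rfl fun l' _ => ?_
          rw [hLam]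
          rfl
        refine le_trans ?_ h9
        rw [← pow_mul]
        exact pow_le_pow_of_le_one hδ0.le hδ1 (by rw [hn']; omega)

end

end Pool.Agent.Helper67.NX2

end

section

set_option autoImplicit false

open Finset

open scoped BigOperators ComplexConjugate

namespace Pool.Agent.Helper57.NX

noncomputable section

variable {N : ℕ} [NeZero N]

/-- The character `x ↦ e(b x / N)` of `ZMod N`. -/
def ch (b x : ZMod N) : ℂ := ZMod.stdAddChar (b * x)

theorem ch_add (b x y : ZMod N) : ch b (x + y) = ch b x * ch b y := by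
  rw [ch, ch, ch, mul_add, AddChar.map_add_eq_mul]

theorem norm_ch (b x : ZMod N) : ‖ch b x‖ = 1 := by
  rw [ch, ZMod.stdAddChar_apply]
  exact Circle.norm_coe _

theorem conj_ch (b x : ZMod N) : conj (ch b x) = ch b (-x) := by
  rw [ch, ch, ZMod.stdAddChar_apply, ZMod.stdAddChar_apply, mul_neg, AddChar.map_neg_eq_inv,
    Circle.coe_inv_eq_conj]

theorem sum_ch (x : ZMod N) : ∑ b : ZMod N, ch b x = if x = 0 then (N : ℂ) else 0 := by
  have h := AddChar.sum_mulShift x (ZMod.isPrimitive_stdAddChar N)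
  rw [ZMod.card] at h
  exact_mod_cast h

theorem sum_ch' (b : ZMod N) : ∑ x : ZMod N, ch b x = if b = 0 then (N : ℂ) else 0 := by
  rw [← sum_ch b]
  exact Finset.sum_congr rfl fun x _ => by rw [ch, ch, mul_comm]

theorem expect_zmod (f : ZMod N → ℂ) : 𝔼 x, f x = (∑ x, f x) / N := by
  rw [Finset.expect_eq_sum_div_card, Finset.card_univ, ZMod.card]

theorem expect_zmod_real (f : ZMod N → ℝ) : 𝔼 x, f x = (∑ x, f x) / N := by
  rw [Finset.expect_eq_sum_div_card, Finset.card_univ, ZMod.card]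

/-- Fourier coefficients. -/
def fc (w : ZMod N → ℂ) (b : ZMod N) : ℂ := 𝔼 x, w x * conj (ch b x)

theorem four_inv (w : ZMod N → ℂ) (y : ZMod N) : w y = ∑ b, fc w b * ch b y := by
  have hN : (N : ℂ) ≠ 0 := by exact_mod_cast NeZero.ne N
  have h1 : ∀ b, fc w b * ch b y = (∑ x, w x * ch b (y - x)) / N := by
    intro b
    rw [fc, expect_zmod, div_mul_eq_mul_div, Finset.sum_mul]
    congr 1
    refine Finset.sum_congr rfl fun x _ => ?_
    rw [conj_ch, mul_assoc, ← ch_add, neg_add_eq_sub]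
  simp_rw [h1]
  rw [← Finset.sum_div, Finset.sum_comm]
  simp_rw [← Finset.mul_sum, sum_ch]
  rw [Finset.sum_eq_single y]
  · rw [sub_self, if_pos rfl, mul_div_assoc, div_self hN, mul_one]
  · intro x _ hx
    rw [if_neg (sub_ne_zero.mpr (Ne.symm hx)), mul_zero]
  · intro h
    exact absurd (Finset.mem_univ y) h

theorem parseval (c : ZMod N → ℂ) :
    𝔼 y, ‖∑ b, c b * ch b y‖ ^ 2 = ∑ b, ‖c b‖ ^ 2 := by
  have hN : (N : ℂ) ≠ 0 := by exact_mod_cast NeZero.ne N
  have key : ((𝔼 y, ‖∑ b, c b * ch b y‖ ^ 2 : ℝ) : ℂ) = ((∑ b, ‖c b‖ ^ 2 : ℝ) : ℂ) := by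
    rw [expect_zmod_real]
    push_cast
    have h1 : ∀ y, ((‖∑ b, c b * ch b y‖ : ℂ)) ^ 2 =
        ∑ b, ∑ b', c b * conj (c b') * ch (b - b') y := by
      intro y
      rw [← Complex.mul_conj', map_sum, Finset.sum_mul_sum]
      refine Finset.sum_congr rfl fun b _ => Finset.sum_congr rfl fun b' _ => ?_
      rw [map_mul, conj_ch]
      have h2 : ch b y * ch b' (-y) = ch (b - b') y := by
        rw [ch, ch, ch, ← AddChar.map_add_eq_mul]
        congr 1
        ring
      rw [← h2]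
      ring
    simp_rw [h1]
    rw [Finset.sum_comm]
    simp_rw [Finset.sum_comm (s := (univ : Finset (ZMod N))) (t := univ)
      (f := fun y b' => c _ * conj (c b') * ch (_ - b') y), ← Finset.mul_sum, sum_ch']
    rw [Finset.sum_div]
    refine Finset.sum_congr rfl fun b _ => ?_
    rw [Finset.sum_eq_single b]
    · rw [sub_self, if_pos rfl, mul_div_assoc, div_self hN, mul_one, Complex.mul_conj']
    · intro b' _ hb
      rw [if_neg (sub_ne_zero.mpr (Ne.symm hb)), mul_zero]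
    · intro h
      exact absurd (Finset.mem_univ b) h
  exact_mod_cast key

theorem sum_fc_le {w : ZMod N → ℂ} (hw : ∀ x, ‖w x‖ ≤ 1) : ∑ b, ‖fc w b‖ ^ 2 ≤ 1 := by
  rw [← parseval]
  have h1 : ∀ y, ‖∑ b, fc w b * ch b y‖ ^ 2 ≤ 1 := by
    intro y
    rw [← four_inv]
    exact pow_le_one₀ (norm_nonneg _) (hw y)
  calc 𝔼 y, ‖∑ b, fc w b * ch b y‖ ^ 2 ≤ 𝔼 _y : ZMod N, (1 : ℝ) :=
        Finset.expect_le_expect fun y _ => h1 y
    _ = 1 := Finset.expect_const (Finset.univ_nonempty) 1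

end

end Pool.Agent.Helper57.NX

end

section

set_option autoImplicit false

open Finset

open scoped BigOperators ComplexConjugate

namespace Pool.Agent.Helper57.NX

noncomputable section

variable {N : ℕ} [NeZero N]

omit [NeZero N] in
theorem conj_A (L : ℕ) (f : ZMod N → ℂ) (x : ZMod N) :
    conj (A L f x) = A L (fun x => conj (f x)) x := by
  rw [A, A, map_expect]

/-- The function `w`. -/
def wf (Y : ℕ) (F : ZMod N → ℂ) (x : ZMod N) : ℂ := conj (A Y (Ab Y F) x)

theorem expect_mul_conj (G : ZMod N → ℂ) :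
    𝔼 x, conj (G x) * G x = ((𝔼 x, ‖G x‖ ^ 2 : ℝ) : ℂ) := by
  rw [expect_zmod, expect_zmod_real]
  push_cast
  congr 1
  exact Finset.sum_congr rfl fun x _ => Complex.conj_mul' _

theorem w_pair (Y : ℕ) (F : ZMod N → ℂ) :
    𝔼 x, wf Y F x * F x = ((𝔼 x, ‖Ab Y F x‖ ^ 2 : ℝ) : ℂ) := by
  have h1 : 𝔼 x, wf Y F x * F x = 𝔼 x, A Y (fun x => conj (Ab Y F x)) x * F x :=
    Finset.expect_congr rfl fun x _ => by rw [wf, conj_A]
  rw [h1, adj_A, ← expect_mul_conj]

theorem norm_wf_le {F : ZMod N → ℂ} (hF : ∀ x, ‖F x‖ ≤ 1) (Y : ℕ) (x : ZMod N) :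
    ‖wf Y F x‖ ≤ 1 := by
  rw [wf, RCLike.norm_conj]
  exact norm_A_le (norm_Ab_le hF Y) Y x

theorem norm_wch_le {F : ZMod N → ℂ} (hF : ∀ x, ‖F x‖ ≤ 1) (Y : ℕ) (b x : ZMod N) :
    ‖wf Y F x * conj (ch b x)‖ ≤ 1 := by
  rw [norm_mul, RCLike.norm_conj, norm_ch, mul_one]
  exact norm_wf_le hF Y x

end

end Pool.Agent.Helper57.NX

end

section

set_option autoImplicit false

open Finset

open scoped BigOperators ComplexConjugate

namespace Pool.Agent.Helper67.NX2

open Pool.Agent.Helper57.NX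

noncomputable section

variable {N : ℕ} [NeZero N]

omit [NeZero N] in
theorem cr_norm_Aqb_le {f : ZMod N → ℂ} (hf : ∀ x, ‖f x‖ ≤ 1) (st L : ℕ) (x : ZMod N) :
    ‖Aqb st L f x‖ ≤ 1 := norm_expect_le_of5 _ _ zero_le_one fun _ _ => hf _

omit [NeZero N] in
theorem cr_Aqb_step {f : ZMod N → ℂ} (hf : ∀ x, ‖f x‖ ≤ 1) (st L : ℕ) (x : ZMod N) :
    ‖Aqb st L f (x + (st : ZMod N)) - Aqb st L f x‖ ≤ 2 / L := by
  have h1 : Aqb st L f (x + (st : ZMod N)) - Aqb st L f x =
      (f (x + (st : ZMod N)) - f (x + (st : ZMod N) - ((st * L : ℕ) : ZMod N))) / L := by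
    unfold Aqb
    rw [← expect_sub_distrib, expect_eq_sum_div_card, card_range]
    congr 1
    have h := Finset.sum_range_sub' (fun a : ℕ => f (x + (st : ZMod N) - ((st * a : ℕ) : ZMod N))) L
    simp only [mul_zero, Nat.cast_zero, sub_zero] at h
    rw [← h]
    refine sum_congr rfl fun a _ => ?_
    congr 2
    push_cast
    ring
  rw [h1, norm_div, Complex.norm_natCast]
  refine div_le_div_of_nonneg_right ?_ (Nat.cast_nonneg _)
  refine (norm_sub_le _ _).trans ?_
  (clear * - hf; linarith [hf (x + (st : ZMod N)), hf (x + (st : ZMod N) - ((st * L : ℕ) : ZMod N))])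

omit [NeZero N] in
theorem cr_shift {g : ZMod N → ℂ} {v : ℝ} (st : ℕ) (hg : ∀ x, ‖g (x + (st : ZMod N)) - g x‖ ≤ v)
    (x : ZMod N) (t : ℤ) : ‖g (x + ((st * t : ℤ) : ZMod N)) - g x‖ ≤ |(t : ℝ)| * v := by
  have key : ∀ (t : ℕ) (x : ZMod N), ‖g (x + ((st * t : ℕ) : ZMod N)) - g x‖ ≤ t * v := by
    intro t
    induction t with
    | zero => intro x; simp
    | succ t ih =>
      intro x
      have h1 := ih x
      have h2 := hg (x + ((st * t : ℕ) : ZMod N))
      have h3 : x + ((st * (t + 1) : ℕ) : ZMod N) = x + ((st * t : ℕ) : ZMod N) + (st : ZMod N) := by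
        push_cast
        ring
      rw [h3]
      have h4 : g (x + ((st * t : ℕ) : ZMod N) + (st : ZMod N)) - g x =
          (g (x + ((st * t : ℕ) : ZMod N) + (st : ZMod N)) - g (x + ((st * t : ℕ) : ZMod N))) +
          (g (x + ((st * t : ℕ) : ZMod N)) - g x) := by ring
      rw [h4]
      refine (norm_add_le _ _).trans ?_
      push_cast
      push_cast at h1 h2
      (clear * - h1 h2; linarith)
  rcases Int.eq_nat_or_neg t with ⟨n, rfl | rfl⟩
  · have := key n x
    simpa using this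
  · have := key n (x - ((st * n : ℕ) : ZMod N))
    rw [sub_add_cancel, norm_sub_rev] at this
    simpa [sub_eq_add_neg] using this

omit [NeZero N] in
theorem cr_Aqb_lip {f : ZMod N → ℂ} (hf : ∀ x, ‖f x‖ ≤ 1) (st L : ℕ) (x : ZMod N) (t : ℤ) :
    ‖Aqb st L f (x + ((st * t : ℤ) : ZMod N)) - Aqb st L f x‖ ≤ |(t : ℝ)| * (2 / L) :=
  cr_shift st (cr_Aqb_step hf st L) x t

end

end Pool.Agent.Helper67.NX2

end

section

set_option autoImplicit false

open Finset

open scoped BigOperators ComplexConjugate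

namespace Pool.Agent.Helper67.NX2

open Pool.Agent.Helper57.NX

noncomputable section

namespace Low94

section Aq

variable {N : ℕ} [NeZero N]

theorem blk_G {p : ℕ} [NeZero p] {Q : ℕ} (hQ : 1 ≤ Q) (hN : N = Q * p) (g : ZMod N → ℂ)
    (e : ℕ) : blk (N := N) Q (fun y : ZMod p => g ((Q * y.val + e : ℕ) : ZMod N)) =
      fun x => g ((Q * (x.val / Q) + e : ℕ) : ZMod N) := by
  funext x
  unfold blk
  have h1 : x.val / Q < p := by
    rw [Nat.div_lt_iff_lt_mul (by omega), mul_comm, ← hN]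
    exact ZMod.val_lt x
  dsimp only
  rw [ZMod.val_natCast, Nat.mod_eq_of_lt h1]

end Aq

end Low94

end

end Pool.Agent.Helper67.NX2

end
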