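import Pool.Agent.Helper23.MC.Inst

/-!
Parts of Helper57.NX.Defs, Helper57.NX.Defs3, Helper67.NX2.Defs, Helper5.NX.Basic, Helper99.NX.LpLocalAux, Helper87.NX2.Dil, Helper30.NX2.LocArithAux, Helper5.NX.PhiBasics, Helper81.NX.Types
-/

attribute [local instance 5000]
  Pool.Agent.Helper23.MC.Inst.rCharZero Pool.Agent.Helper23.MC.Inst.rALM
  Pool.Agent.Helper23.MC.Inst.rARM Pool.Agent.Helper23.MC.Inst.rALSM
  Pool.Agent.Helper23.MC.Inst.rARSM Pool.Agent.Helper23.MC.Inst.rARRLE
  Pool.Agent.Helper23.MC.Inst.rALRLE Pool.Agent.Helper23.MC.Inst.rARRLT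
  Pool.Agent.Helper23.MC.Inst.rALRLT Pool.Agent.Helper23.MC.Inst.rPMRLT
  Pool.Agent.Helper23.MC.Inst.rMPRLT Pool.Agent.Helper23.MC.Inst.rPMM
  Pool.Agent.Helper23.MC.Inst.rMPM Pool.Agent.Helper23.MC.Inst.rPMSM
  Pool.Agent.Helper23.MC.Inst.rMPSM Pool.Agent.Helper23.MC.Inst.rEAOL
  Pool.Agent.Helper23.MC.Inst.rIOR Pool.Agent.Helper23.MC.Inst.rISOR
  Pool.Agent.Helper23.MC.Inst.rNZD Pool.Agent.Helper23.MC.Inst.rcCharZero
  Pool.Agent.Helper23.MC.Inst.rcNZD Pool.Agent.Helper23.MC.Inst.zCharZero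
  Pool.Agent.Helper23.MC.Inst.zALM Pool.Agent.Helper23.MC.Inst.zARM
  Pool.Agent.Helper23.MC.Inst.zALSM Pool.Agent.Helper23.MC.Inst.zARSM
  Pool.Agent.Helper23.MC.Inst.zIOR Pool.Agent.Helper23.MC.Inst.zISOR
  Pool.Agent.Helper23.MC.Inst.zNZD Pool.Agent.Helper23.MC.Inst.qCharZero
  Pool.Agent.Helper23.MC.Inst.mR Pool.Agent.Helper23.MC.Inst.mC Pool.Agent.Helper23.MC.Inst.mRC
  Pool.Agent.Helper23.MC.Inst.rPSM Pool.Agent.Helper23.MC.Inst.rCSM
  Pool.Agent.Helper23.MC.Inst.cAdd Pool.Agent.Helper23.MC.Inst.cAddM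
  Pool.Agent.Helper23.MC.Inst.cMul Pool.Agent.Helper23.MC.Inst.cMon

namespace Pool.Agent.Helper57.NX
end Pool.Agent.Helper57.NX

section

set_option autoImplicit false

open Finset

open scoped BigOperators ComplexConjugate

namespace Pool.Agent.Helper57.NX

noncomputable section

/-- `e t = exp (2 π i t)` -/
def e (t : ℝ) : ℂ := Complex.exp (2 * Real.pi * t * Complex.I)

/-- The `L¹` norm on `ZMod N`. -/
def nrm {N : ℕ} [NeZero N] (f : ZMod N → ℂ) : ℝ := 𝔼 x, ‖f x‖

/-- Variation at most `B` per interval of length `X`: for every interval of length `l` the total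
variation is at most `B (l/X + 1)`. -/
def TV {N : ℕ} (B X : ℝ) (f : ZMod N → ℂ) : Prop :=
  ∀ (x : ZMod N) (l : ℕ),
    ∑ j ∈ range l, ‖f (x + (j : ZMod N) + 1) - f (x + (j : ZMod N))‖ ≤ B * (l / X + 1)

/-- Admissible functions: bounded by `1`, variation bounded by `B` at scale `X`. -/
structure Adm {N : ℕ} (B X : ℝ) (f : ZMod N → ℂ) : Prop where
  bdd : ∀ x, ‖f x‖ ≤ 1
  tv : TV B X f

/-- A system with `m` sequences `a i k = ⌊P i * ((k+ρ)/D)^(c i)⌋`, `k ∈ [u, u+T)`. -/
structure Sys (m : ℕ) where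
  D : ℝ
  ρ : ℝ
  Q : ℕ
  u : ℕ
  T : ℕ
  P : Fin m → ℝ

namespace Sys

variable {m : ℕ}

/-- the scaled variable `t = (k+ρ)/D` -/
def t (S : Sys m) (k : ℕ) : ℝ := ((k : ℝ) + S.ρ) / S.D

/-- the sequences -/
def a (S : Sys m) (c : Fin m → ℝ) (i : Fin m) (k : ℕ) : ℤ := ⌊S.P i * (S.t k) ^ (c i)⌋

/-- the interval of `k`'s -/
def I (S : Sys m) : Finset ℕ := Ico S.u (S.u + S.T)

end Sys

/-- Size conditions of a system (with slack `D^x`). -/
structure Good {m : ℕ} (S : Sys m) (c : Fin m → ℝ) (N : ℕ) (x : ℝ) : Prop where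
  ρ0 : 0 ≤ S.ρ
  ρ1 : S.ρ ≤ 1
  Q1 : S.D ^ (2 : ℝ) ≤ S.Q
  Q2 : (S.Q : ℝ) ≤ S.D ^ (3 : ℝ)
  P1 : ∀ i, S.Q * S.D ^ (c i - x) ≤ S.P i
  P2 : ∀ i, S.P i ≤ S.Q * S.D ^ (c i + x)
  N1 : ∀ i, S.P i ≤ N * S.D ^ x
  N2 : (S.Q : ℝ) ≤ N
  u1 : S.D ≤ S.u
  u2 : (S.u : ℝ) + S.T ≤ 2 * S.D
  T1 : S.D ^ (1 - x) ≤ S.T

/-- The multilinear form `𝔼_{k∈I} h(k) 𝔼_x f0(x) ∏_i f_i(x + a_i(k))`. -/
def form {m N : ℕ} [NeZero N] (S : Sys m) (c : Fin m → ℝ) (h : ℕ → ℂ)
    (f0 : ZMod N → ℂ) (f : Fin m → ZMod N → ℂ) : ℂ :=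
  𝔼 k ∈ S.I, h k * 𝔼 x : ZMod N, f0 x * ∏ i, f i (x + (S.a c i k : ZMod N))

/-- Block phases: on the `j`-th block of length `X` (counted from `r`) the function is
`c j * e (φ j * v)`, `v` the position relative to `r`. -/
def bphase {N : ℕ} (X : ℕ) (r : ZMod N) (c : ℕ → ℂ) (φ : ℕ → ℝ) (x : ZMod N) : ℂ :=
  c ((x - r).val / X) * e (φ ((x - r).val / X) * ((x - r).val : ℝ))

end

end Pool.Agent.Helper57.NX

end

section

set_option autoImplicit false

open Finset

open scoped BigOperators ComplexConjugate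

namespace Pool.Agent.Helper57.NX

noncomputable section

/-- Formal integer combinations of iterated differences `Δ_{h_1} ... Δ_{h_b} a_i`;
the atom `([h_1,...,h_b], i)`. -/
abbrev Phi (m : ℕ) := (List ℕ × Fin m) →₀ ℤ

/-- the shift `τ_h`: `A_t ↦ A_t + A_{h::t}` -/
def tau {m : ℕ} (h : ℕ) : Phi m →+ Phi m :=
  AddMonoidHom.id _ +
    Finsupp.mapDomain.addMonoidHom (fun s : List ℕ × Fin m => (h :: s.1, s.2))

/-- the filtration: combinations of at least `a`-fold differences -/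
def VV {m : ℕ} (a : ℕ) : AddSubgroup (Phi m) :=
  (Finsupp.supported ℤ ℤ {s : List ℕ × Fin m | a ≤ s.1.length}).toAddSubgroup

/-- iterated differences of real functions -/
def dlR : List ℕ → (ℝ → ℝ) → ℝ → ℝ
  | [], f, y => f y
  | h :: t, f, y => dlR t f (y + h) - dlR t f y

/-- falling factorial `γ (γ-1) ... (γ-b+1)` -/
def ff (γ : ℝ) (b : ℕ) : ℝ := ∏ i ∈ range b, (γ - i)

/-- the model of the `b`-th derivative: `ff γ b * ((y+ρ)/D)^(γ-b) / D^b` -/
def mdl {m : ℕ} (S : Sys m) (γ : ℝ) (b : ℕ) (y : ℝ) : ℝ :=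
  ff γ b * ((y + S.ρ) / S.D) ^ (γ - b) / S.D ^ b

/-- the `b`-th derivative of (the real version of) `p` -/
def jet {m : ℕ} (S : Sys m) (c : Fin m → ℝ) (b : ℕ) (p : Phi m) (y : ℝ) : ℝ :=
  p.sum fun s n => (n : ℝ) * dlR s.1 (fun z => S.P s.2 * mdl S (c s.2) b z) y

/-- `p` behaves like `Λ t^γ` up to an error `E`, for all derivatives of order `≤ B`, on `[D, Y]` -/
def Typ {m : ℕ} (S : Sys m) (c : Fin m → ℝ) (B : ℕ) (Y : ℝ) (p : Phi m) (γ Λ E : ℝ) : Prop :=
  ∀ b ≤ B, ∀ y : ℝ, S.D ≤ y → y ≤ Y → |jet S c b p y - Λ * mdl S γ b y| ≤ E / S.D ^ b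

/-- typed with a coefficient of size `lam` up to `δ^{±n}`, relative error `w` -/
def Tp {m : ℕ} (S : Sys m) (c : Fin m → ℝ) (δ : ℝ) (n B : ℕ) (Y γ lam w : ℝ) (p : Phi m) : Prop :=
  ∃ Λ : ℝ, δ ^ n * lam ≤ |Λ| ∧ |Λ| ≤ δ⁻¹ ^ n * lam ∧ Typ S c B Y p γ Λ (δ⁻¹ ^ n * lam * w)

end

end Pool.Agent.Helper57.NX

end

section

set_option autoImplicit false

open Finset

open scoped BigOperators ComplexConjugate

namespace Pool.Agent.Helper67.NX2

open Pool.Agent.Helper57.NX

noncomputable section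

/-- natural exponent -/
def IsN (γ : ℝ) : Prop := ∃ n : ℕ, γ = n

/-- forward average along a progression of difference `st` -/
def Aq {N : ℕ} (st L : ℕ) (f : ZMod N → ℂ) (x : ZMod N) : ℂ :=
  𝔼 a ∈ range L, f (x + ((st * a : ℕ) : ZMod N))

/-- the step at a position with exponent `γ`: `Q q` for natural exponents, `1` otherwise -/
def stp (Q q : ℕ) (γ : ℝ) : ℕ := by classical exact if IsN γ then Q * q else 1

/-- Good systems with exact polynomial sequences `Q (lam k + r)^d` at the natural exponents; the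
modulus `N` is `Q` times a prime. -/
structure IG {m : ℕ} (S : Sys m) (c : Fin m → ℝ) (N : ℕ) (x : ℝ) (lam : ℕ) : Prop where
  good : Good S c N x
  Q3 : (S.Q : ℝ) ≤ S.D ^ (5 / 2 + x)
  lam1 : 1 ≤ lam
  rho : ∃ r : ℕ, S.ρ * lam = r
  Pint : ∀ (i : Fin m) (d : ℕ), c i = d → S.P i = S.Q * (lam * S.D) ^ d
  prime : ∃ p : ℕ, p.Prime ∧ N = S.Q * p

/-- `U` for mixed systems -/
def UPm (m : ℕ) (c : Fin m → ℝ) (ε : ℝ) : Prop :=
  ∃ x0 : ℝ, 0 < x0 ∧ ∃ C : ℕ, ∃ σ : ℝ, 0 < σ ∧ ∃ D0 : ℝ,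
  ∀ (S : Sys m) (N : ℕ) [NeZero N] (lam : ℕ), D0 ≤ S.D → IG S c N x0 lam →
  ∀ δ : ℝ, S.D ^ (-σ) ≤ δ → δ ≤ 1 / 2 → (lam : ℝ) ≤ δ⁻¹ →
  ∀ (f0 : ZMod N → ℂ) (f : Fin m → ZMod N → ℂ),
  Adm δ⁻¹ S.Q f0 → (∀ i, Adm δ⁻¹ S.Q (f i)) →
  δ ≤ ‖form S c 1 f0 f‖ →
  ∃ q : ℕ, 1 ≤ q ∧ (q : ℝ) ≤ δ⁻¹ ^ C ∧ ∀ i, ∀ L : ℕ, 1 ≤ L →
    (L : ℝ) * (stp S.Q q (c i) : ℝ) ≤ S.P i * S.D ^ (-ε) →
    δ ^ C ≤ nrm (Aq (stp S.Q q (c i)) L (f i))

/-- The system seen along `k = q j + r0`, on the interval `[u', u'+T')`; new scale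
`D' = (u'+T')/2`. -/
def dil {m : ℕ} (S : Sys m) (c : Fin m → ℝ) (q r0 u' T' : ℕ) : Sys m where
  D := ((u' : ℝ) + T') / 2
  ρ := (r0 + S.ρ) / q
  Q := S.Q
  u := u'
  T := T'
  P := fun i => S.P i * (q * (((u' : ℝ) + T') / 2) / S.D) ^ (c i)

end

end Pool.Agent.Helper67.NX2

end

section

set_option autoImplicit false

open Finset

open scoped BigOperators ComplexConjugate

namespace Pool.Agent.Helper57.NX

noncomputable section

theorem norm_e (t : ℝ) : ‖e t‖ = 1 := by
  have h : e t = Complex.exp ((2 * Real.pi * t : ℝ) * Complex.I) := by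
    unfold e; push_cast; rfl
  rw [h, Complex.norm_exp_ofReal_mul_I]

theorem e_add (s t : ℝ) : e (s + t) = e s * e t := by
  unfold e
  rw [← Complex.exp_add]
  congr 1
  push_cast
  ring

theorem norm_e_sub_one (t : ℝ) : ‖e t - 1‖ = ‖2 * Real.sin (Real.pi * t)‖ := by
  have h : e t = Complex.exp (Complex.I * ((2 * Real.pi * t : ℝ) : ℂ)) := by
    unfold e; push_cast; ring_nf
  rw [h, Complex.norm_exp_I_mul_ofReal_sub_one]
  congr 3
  ring

theorem norm_e_sub_e_le (s t : ℝ) : ‖e s - e t‖ ≤ 2 * Real.pi * |s - t| := by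
  have h : e s - e t = e t * (e (s - t) - 1) := by
    rw [mul_sub, ← e_add, mul_one]
    congr 2
    ring
  rw [h, norm_mul, norm_e, one_mul, norm_e_sub_one, norm_mul, Real.norm_eq_abs, Real.norm_eq_abs,
    abs_of_pos (by norm_num : (0 : ℝ) < 2)]
  have h2 : |Real.sin (Real.pi * (s - t))| ≤ |Real.pi * (s - t)| := Real.abs_sin_le_abs
  rw [abs_mul, abs_of_pos Real.pi_pos] at h2
  (clear * - h2; linarith)

section Basic

variable {N : ℕ} [NeZero N]

omit [NeZero N] in
theorem TV.shift5 {B X : ℝ} {f : ZMod N → ℂ} (h : TV B X f) (t : ZMod N) :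
    TV B X (fun x => f (x + t)) := by
  intro x l
  refine le_trans (le_of_eq ?_) (h (x + t) l)
  refine sum_congr rfl fun j _ => ?_
  congr 3 <;> ring

theorem Adm.shift {B X : ℝ} {f : ZMod N → ℂ} (h : Adm B X f) (t : ZMod N) :
    Adm B X (fun x => f (x + t)) := ⟨fun x => h.bdd _, h.tv.shift5 t⟩

end Basic

end

end Pool.Agent.Helper57.NX

end

section

set_option autoImplicit false

open Finset

open scoped BigOperators ComplexConjugate

namespace Pool.Agent.Helper57.NX

noncomputable section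

theorem lpl_sum_blocks (G : ℕ → ℂ) (M T' : ℕ) :
    ∑ t ∈ range (M * T'), G t = ∑ j ∈ range M, ∑ t ∈ range T', G (j * T' + t) := by
  induction M with
  | zero => simp
  | succ M ih => rw [Nat.succ_mul, sum_range_add, ih, sum_range_succ]

theorem lpl_cut (G : ℕ → ℂ) (hG : ∀ k, ‖G k‖ ≤ 1) (T T' : ℕ) (η : ℝ) (hη : 0 < η)
    (hT' : 1 ≤ T') (hTT : (T' : ℝ) ≤ η / 2 * T) (h : η ≤ ‖𝔼 t ∈ range T, G t‖) :
    ∃ j : ℕ, (j + 1) * T' ≤ T ∧ η / 2 ≤ ‖𝔼 t ∈ range T', G (j * T' + t)‖ := by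
  by_contra hcon
  push Not at hcon
  have hT'0 : (0 : ℝ) < T' := by exact_mod_cast hT'
  have hTpos : (0 : ℝ) < T := by
    by_contra h0
    have : (T : ℝ) = 0 := le_antisymm (not_lt.1 h0) (by (clear * -; positivity))
    rw [this] at hTT
    linarith
  have hM : T / T' * T' ≤ T := Nat.div_mul_le_self _ _
  have hr : T - T / T' * T' < T' := by
    have := Nat.mod_lt T hT'
    have h2 := Nat.div_add_mod' T T'
    omega
  have h1 : ∑ t ∈ range T, G t = ∑ j ∈ range (T / T'), ∑ t ∈ range T', G (j * T' + t)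
      + ∑ t ∈ range (T - T / T' * T'), G (T / T' * T' + t) := by
    rw [← lpl_sum_blocks, ← sum_range_add, Nat.add_sub_cancel' hM]
  have h2 : ∀ j ∈ range (T / T'), ‖∑ t ∈ range T', G (j * T' + t)‖ ≤ η / 2 * T' := by
    intro j hj
    have hj' : (j + 1) * T' ≤ T :=
      le_trans (Nat.mul_le_mul_right _ (Nat.succ_le_of_lt (mem_range.1 hj))) hM
    have h3 := hcon j hj'
    rw [expect_eq_sum_div_card, norm_div, card_range, Complex.norm_natCast,
      div_lt_iff₀ hT'0] at h3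
    exact h3.le
  exact by
    have h3 : ‖∑ t ∈ range T, G t‖ ≤ ((T / T' : ℕ) : ℝ) * (η / 2 * T') + ((T - T / T' * T' : ℕ) : ℝ) := by
      rw [h1]
      refine (norm_add_le _ _).trans (add_le_add ?_ ?_)
      · refine (norm_sum_le _ _).trans ((sum_le_sum h2).trans ?_)
        simp
      · refine (norm_sum_le _ _).trans ((sum_le_sum fun _ _ => hG _).trans ?_)
        simp
    have h4 : η * T ≤ ‖∑ t ∈ range T, G t‖ := by
      rw [expect_eq_sum_div_card, norm_div, card_range, Complex.norm_natCast,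
        le_div_iff₀ hTpos] at h
      exact h
    have h5 : ((T - T / T' * T' : ℕ) : ℝ) < T' := by exact_mod_cast hr
    have h6 : ((T / T' : ℕ) : ℝ) * T' ≤ T := by exact_mod_cast hM
    have h7 : ((T / T' : ℕ) : ℝ) * (η / 2 * T') ≤ η / 2 * T := by
      calc ((T / T' : ℕ) : ℝ) * (η / 2 * T') = η / 2 * (((T / T' : ℕ) : ℝ) * T') := by ring
        _ ≤ η / 2 * T := by gcongr
    (clear * - hTT h3 h4 h5 h7; linarith)

theorem lpl_expect_range {N : ℕ} [NeZero N] (F : ZMod N → ℂ) :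
    𝔼 x, F x = 𝔼 v ∈ range N, F (v : ZMod N) := by
  rw [expect_eq_sum_div_card, expect_eq_sum_div_card, card_univ, ZMod.card, card_range]
  congr 1
  obtain ⟨n, rfl⟩ : ∃ n, N = n + 1 := ⟨N - 1, by have := NeZero.ne N; omega⟩
  rw [← Fin.sum_univ_eq_sum_range (fun v : ℕ => F (v : ZMod (n + 1))) (n + 1)]
  refine sum_congr rfl fun x _ => ?_
  congr 1
  exact (ZMod.natCast_zmod_val (n := n + 1) x).symm

theorem lpl_seg {N' : ℕ} [NeZero N'] (G : ℕ → ℂ) (a l : ℕ) (h : a + l < N') :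
    ∑ j ∈ range l, ‖G ((a : ZMod N') + (j : ZMod N') + 1).val - G ((a : ZMod N') + (j : ZMod N')).val‖
      = ∑ j ∈ range l, ‖G (a + j + 1) - G (a + j)‖ := by
  refine sum_congr rfl fun j hj => ?_
  have hj := mem_range.1 hj
  have h1 : ((a : ZMod N') + (j : ZMod N') + 1) = ((a + j + 1 : ℕ) : ZMod N') := by push_cast; ring
  have h2 : ((a : ZMod N') + (j : ZMod N')) = ((a + j : ℕ) : ZMod N') := by push_cast; ring
  rw [h1, h2, ZMod.val_natCast_of_lt (by omega), ZMod.val_natCast_of_lt (by omega)]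

theorem lpl_turn {N' : ℕ} [NeZero N'] (G : ℕ → ℂ) (B X : ℝ) (hX : 0 < X)
    (hG : ∀ t, ‖G t‖ ≤ 1)
    (h : ∀ a l : ℕ, ∑ j ∈ range l, ‖G (a + j + 1) - G (a + j)‖ ≤ B * (l / X + 1))
    (a : ℕ) (ha : a < N') :
    ∑ j ∈ range (N' - a), ‖G ((a : ZMod N') + (j : ZMod N') + 1).val -
      G ((a : ZMod N') + (j : ZMod N')).val‖ ≤ B * (((N' - a : ℕ) : ℝ) / X + 1) + 2 := by
  have hB : 0 ≤ B := by simpa using h 0 0
  obtain ⟨l, hl⟩ : ∃ l, N' - a = l + 1 := ⟨N' - a - 1, by omega⟩
  rw [hl, sum_range_succ, lpl_seg G a l (by omega)]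
  have h1 := h a l
  have h2 : ‖G ((a : ZMod N') + (l : ZMod N') + 1).val - G ((a : ZMod N') + (l : ZMod N')).val‖ ≤ 2 := by
    refine (norm_sub_le _ _).trans ?_
    (clear * - hG; linarith [hG ((a : ZMod N') + (l : ZMod N') + 1).val, hG ((a : ZMod N') + (l : ZMod N')).val])
  have h3 : B * ((l : ℝ) / X + 1) ≤ B * (((l + 1 : ℕ) : ℝ) / X + 1) := by
    gcongr
    omega
  (clear * - h1 h2 h3; linarith)

theorem lpl_wrap0 {N' : ℕ} [NeZero N'] (G : ℕ → ℂ) (B X : ℝ) (hX : 0 < X)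
    (hG : ∀ t, ‖G t‖ ≤ 1)
    (h : ∀ a l : ℕ, ∑ j ∈ range l, ‖G (a + j + 1) - G (a + j)‖ ≤ B * (l / X + 1)) :
    ∀ l : ℕ, ∑ j ∈ range l, ‖G (((0 : ℕ) : ZMod N') + (j : ZMod N') + 1).val -
      G (((0 : ℕ) : ZMod N') + (j : ZMod N')).val‖ ≤ (B / X + (B + 2) / N') * l + B := by
  have hB : 0 ≤ B := by simpa using h 0 0
  have hN : (0 : ℝ) < N' := by exact_mod_cast Nat.pos_of_ne_zero (NeZero.ne N')
  intro l
  induction l using Nat.strong_induction_on with
  | _ l ih =>
    rcases lt_or_ge l N' with hl | hl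
    · rw [lpl_seg G 0 l (by omega)]
      refine (h 0 l).trans ?_
      have : 0 ≤ (B + 2) / N' * l := by (clear * - hB hN; positivity)
      calc B * (l / X + 1) = B / X * l + B := by ring
        _ ≤ (B / X + (B + 2) / N') * l + B := by (clear * - this; nlinarith)
    · obtain ⟨l', rfl⟩ : ∃ l', l = N' + l' := ⟨l - N', by omega⟩
      rw [sum_range_add]
      have h1 := lpl_turn (N' := N') G B X hX hG h 0 (Nat.pos_of_ne_zero (NeZero.ne N'))
      have h2 := ih l' (by have := Nat.pos_of_ne_zero (NeZero.ne N'); omega)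
      have h3 : ∑ j ∈ range l', ‖G (((0 : ℕ) : ZMod N') + ((N' + j : ℕ) : ZMod N') + 1).val -
          G (((0 : ℕ) : ZMod N') + ((N' + j : ℕ) : ZMod N')).val‖ =
          ∑ j ∈ range l', ‖G (((0 : ℕ) : ZMod N') + (j : ZMod N') + 1).val -
          G (((0 : ℕ) : ZMod N') + (j : ZMod N')).val‖ := by
        refine sum_congr rfl fun j _ => ?_
        simp
      rw [h3]
      rw [Nat.sub_zero] at h1
      rw [Nat.cast_add (R := ℝ) N' l']
      have h4 : B * ((N' : ℝ) / X + 1) + 2 = (B / X + (B + 2) / N') * N' := by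
        field_simp
        ring
      calc _ ≤ (B * ((N' : ℝ) / X + 1) + 2) + ((B / X + (B + 2) / N') * l' + B) := add_le_add h1 h2
        _ = (B / X + (B + 2) / N') * (N' + l') + B := by rw [h4]; ring

theorem lpl_wrap {N' : ℕ} [NeZero N'] (G : ℕ → ℂ) (B X : ℝ) (hX : 0 < X) (hXN : X ≤ N')
    (hG : ∀ t, ‖G t‖ ≤ 1)
    (h : ∀ a l : ℕ, ∑ j ∈ range l, ‖G (a + j + 1) - G (a + j)‖ ≤ B * (l / X + 1)) :
    TV (2 * B + 2) X (fun y : ZMod N' => G y.val) := by
  have hB : 0 ≤ B := by simpa using h 0 0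
  have hN : (0 : ℝ) < N' := by exact_mod_cast Nat.pos_of_ne_zero (NeZero.ne N')
  intro x l
  have hx : ((x.val : ℕ) : ZMod N') = x := ZMod.natCast_zmod_val x
  have hxl : x.val < N' := ZMod.val_lt x
  rw [← hx]
  simp only
  generalize x.val = a at *
  rcases lt_or_ge (a + l) N' with hl | hl
  · rw [lpl_seg G a l hl]
    refine (h a l).trans ?_
    gcongr
    (clear * - hB; linarith)
  · obtain ⟨l', rfl⟩ : ∃ l', l = (N' - a) + l' := ⟨l - (N' - a), by omega⟩
    rw [sum_range_add]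
    have h1 := lpl_turn (N' := N') G B X hX hG h a hxl
    have h2 := lpl_wrap0 (N' := N') G B X hX hG h l'
    have h3 : ∑ j ∈ range l', ‖G ((a : ZMod N') + ((N' - a + j : ℕ) : ZMod N') + 1).val -
          G ((a : ZMod N') + ((N' - a + j : ℕ) : ZMod N')).val‖ =
          ∑ j ∈ range l', ‖G (((0 : ℕ) : ZMod N') + (j : ZMod N') + 1).val -
          G (((0 : ℕ) : ZMod N') + (j : ZMod N')).val‖ := by
      refine sum_congr rfl fun j _ => ?_
      have : (a : ZMod N') + ((N' - a + j : ℕ) : ZMod N') = ((0 : ℕ) : ZMod N') + (j : ZMod N') := by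
        rw [← Nat.cast_add, ← Nat.cast_add]
        have : a + (N' - a + j) = N' + j := by omega
        rw [this]
        simp
      rw [this]
    rw [h3]
    have h4 : (B + 2) / N' ≤ (B + 2) / X := div_le_div_of_nonneg_left (by (clear * - hB; linarith)) hX hXN
    exact by
      have h5 : (B / X + (B + 2) / N') * l' + B ≤ (B / X + (B + 2) / X) * l' + B := by (clear * - h4; gcongr)
      have h6 : 0 ≤ ((N' - a : ℕ) : ℝ) := by positivity
      have h7 : (0 : ℝ) ≤ (l' : ℝ) := by positivity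
      rw [Nat.cast_add]
      generalize ((N' - a : ℕ) : ℝ) = y at *
      have h8 : (2 * B + 2) * ((y + l') / X + 1) =
          (B * (y / X + 1) + 2) + ((B / X + (B + 2) / X) * l' + B) + (B + 2) * (y / X) := by
        field_simp
        ring
      have h9 : 0 ≤ (B + 2) * (y / X) := by (clear * - hB h6 hX; positivity)
      linarith

/-- the function on the cell, with the frequency `ϑ` of the cell removed -/
def cpf (X L κ : ℕ) (cc : ℕ → ℂ) (φ : ℕ → ℝ) (ϑ : ℝ) (w : ℕ) : ℂ :=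
  if w < L then cc ((κ * L + w) / X) *
    e ((φ ((κ * L + w) / X) - ϑ) * ((κ * L + w : ℕ) : ℝ)) else 0

theorem cpf_norm (X L κ : ℕ) (cc : ℕ → ℂ) (φ : ℕ → ℝ) (ϑ : ℝ) (hcc : ∀ j, ‖cc j‖ ≤ 1)
    (w : ℕ) : ‖cpf X L κ cc φ ϑ w‖ ≤ 1 := by
  unfold cpf
  split_ifs
  · rw [norm_mul, norm_e, mul_one]; exact hcc _
  · simp

theorem cpf_step (X q0 κ : ℕ) (hX : 1 ≤ X) (hq0 : 1 ≤ q0) (cc : ℕ → ℂ) (φ : ℕ → ℝ)
    (ϑ V : ℝ) (hV : 0 ≤ V) (hcc : ∀ j, ‖cc j‖ ≤ 1)
    (hφ : ∀ j, j / q0 = κ → cc j ≠ 0 → |φ j - ϑ| ≤ V) (w : ℕ) :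
    ‖cpf X (X * q0) κ cc φ ϑ (w + 1) - cpf X (X * q0) κ cc φ ϑ w‖ ≤
      2 * Real.pi * V + 2 * ((((κ * (X * q0) + (w + 1)) / X : ℕ) : ℝ)
        - (((κ * (X * q0) + w) / X : ℕ) : ℝ)) := by
  set L := X * q0 with hL
  have hmono : (κ * L + w) / X ≤ (κ * L + (w + 1)) / X := Nat.div_le_div_right (by omega)
  have hpi : 0 ≤ 2 * Real.pi * V := by (clear * - hV; positivity)
  rcases Nat.eq_or_lt_of_le hmono with heq | hlt
  · rw [← heq, sub_self, mul_zero, add_zero]
    have hcell : w < L → w + 1 < L := by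
      intro hw
      by_contra hcon
      have hwL : w + 1 = L := by omega
      have h1 : κ * L + (w + 1) = X * ((κ + 1) * q0) := by rw [hwL, hL]; ring
      have h2 : (κ * L + (w + 1)) / X = (κ + 1) * q0 := by
        rw [h1, Nat.mul_div_cancel_left _ (by omega)]
      have h3 : (κ * L + w) / X < (κ + 1) * q0 := by
        rw [Nat.div_lt_iff_lt_mul (by omega)]
        have : (κ + 1) * q0 * X = X * ((κ + 1) * q0) := by ring
        rw [this, ← h1]; omega
      omega
    by_cases hw : w < L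
    · have hw1 := hcell hw
      exact by
        unfold cpf
        rw [if_pos hw, if_pos hw1, ← heq, ← mul_sub, norm_mul]
        by_cases hc0 : cc ((κ * L + w) / X) = 0
        · rw [hc0]; simpa using hpi
        · have hj : (κ * L + w) / X / q0 = κ := by
            rw [Nat.div_div_eq_div_mul, ← hL]
            rw [Nat.div_eq_iff (by positivity)] 
            constructor
            · omega
            · omega
          have h1 := hφ _ hj hc0
          have h2 := norm_e_sub_e_le ((φ ((κ * L + w) / X) - ϑ) * ((κ * L + (w + 1) : ℕ) : ℝ))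
            ((φ ((κ * L + w) / X) - ϑ) * ((κ * L + w : ℕ) : ℝ))
          have h3 : (φ ((κ * L + w) / X) - ϑ) * ((κ * L + (w + 1) : ℕ) : ℝ) -
              (φ ((κ * L + w) / X) - ϑ) * ((κ * L + w : ℕ) : ℝ) = (φ ((κ * L + w) / X) - ϑ) := by
            push_cast; ring
          rw [h3] at h2
          calc _ ≤ 1 * (2 * Real.pi * |φ ((κ * L + w) / X) - ϑ|) :=
                mul_le_mul (hcc _) h2 (norm_nonneg _) zero_le_one
            _ ≤ 2 * Real.pi * V := by rw [one_mul]; (clear * - h1; gcongr)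
    · unfold cpf
      rw [if_neg hw, if_neg (by omega)]
      simpa using hpi
  · have h1 : (1 : ℝ) ≤ (((κ * L + (w + 1)) / X : ℕ) : ℝ) - (((κ * L + w) / X : ℕ) : ℝ) := by
      have : (((κ * L + w) / X : ℕ) : ℝ) + 1 ≤ (((κ * L + (w + 1)) / X : ℕ) : ℝ) := by
        exact_mod_cast hlt
      (clear * - this; linarith)
    have h2 := norm_sub_le (cpf X L κ cc φ ϑ (w + 1)) (cpf X L κ cc φ ϑ w)
    have h3 := cpf_norm X L κ cc φ ϑ hcc (w + 1)
    have h4 := cpf_norm X L κ cc φ ϑ hcc w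
    (clear * - hpi h1 h2 h3 h4; linarith)

end

end Pool.Agent.Helper57.NX

end

section

set_option autoImplicit false

open Finset

open scoped BigOperators ComplexConjugate

namespace Pool.Agent.Helper67.NX2

open Pool.Agent.Helper57.NX

noncomputable section

variable {m : ℕ}

/-- `D^a ≤ D'^b` if `D^(1-s) ≤ D'` and `a ≤ b (1-s)` -/
theorem dil87_pow {D D' s a b : ℝ} (hD : 1 ≤ D) (h : D ^ (1 - s) ≤ D') (hb : 0 ≤ b)
    (hab : a ≤ b * (1 - s)) : D ^ a ≤ D' ^ b := by
  have h0 : 0 ≤ D := by linarith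
  calc D ^ a ≤ D ^ ((1 - s) * b) := Real.rpow_le_rpow_of_exponent_le hD (by (clear * - hab; linarith [mul_comm b (1 - s)]))
    _ = (D ^ (1 - s)) ^ b := Real.rpow_mul h0 _ _
    _ ≤ D' ^ b := Real.rpow_le_rpow (Real.rpow_nonneg h0 _) h hb

/-- Dilated systems are good; the progression `q j + r0`, `u' ≤ j < u' + T'`, lies in `S.I`. -/
theorem IG.dil (c : Fin m → ℝ) (hc0 : ∀ i, 0 < c i) (x' : ℝ) (hx' : 0 < x') :
    ∃ x0 : ℝ, 0 < x0 ∧ ∃ σ : ℝ, 0 < σ ∧ ∃ D0 : ℝ, ∀ (S : Sys m) (N lam : ℕ), D0 ≤ S.D →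
    IG S c N x0 lam → ∀ q r0 u' T' : ℕ, 1 ≤ q → (q : ℝ) ≤ S.D ^ σ → r0 < q →
    S.u ≤ q * u' + r0 → q * (u' + T') + r0 ≤ S.u + S.T → T' ≤ u' →
    S.D ^ (1 - x' / 2) ≤ T' →
    IG (dil S c q r0 u' T') c N x' (lam * q) ∧
      S.D / (4 * q) ≤ (dil S c q r0 u' T').D ∧ (dil S c q r0 u' T').D ≤ S.D / q ∧
      (∀ i, S.P i * 4 ^ (-c i) ≤ (dil S c q r0 u' T').P i ∧
        (dil S c q r0 u' T').P i ≤ S.P i) := by
  -- the constants
  obtain ⟨M, hM1, hM⟩ : ∃ M : ℝ, 1 ≤ M ∧ ∀ i, c i ≤ M := by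
    refine ⟨1 + ∑ i, c i, ?_, ?_⟩
    · have : 0 ≤ ∑ i, c i := Finset.sum_nonneg fun i _ => (hc0 i).le
      (clear * - this; linarith)
    · intro i
      have := Finset.single_le_sum (f := c) (fun i _ => (hc0 i).le) (Finset.mem_univ i)
      (clear * - this; linarith)
  obtain ⟨x0, hx0, hx0a, hx0b⟩ : ∃ x0 : ℝ, 0 < x0 ∧ x0 ≤ x' / 4 ∧ x0 ≤ 1 / 8 :=
    ⟨min (x' / 4) (1 / 8), lt_min (by (clear * - hx'; linarith)) (by norm_num), min_le_left _ _, min_le_right _ _⟩
  obtain ⟨σ, hσ, hσa, hσb⟩ : ∃ σ : ℝ, 0 < σ ∧ σ * M ≤ x' / 40 ∧ σ ≤ 1 / 40 := by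
    refine ⟨min (x' / (40 * M)) (1 / 40), lt_min (by positivity) (by norm_num), ?_,
      min_le_right _ _⟩
    have h1 : min (x' / (40 * M)) (1 / 40) ≤ x' / (40 * M) := min_le_left _ _
    have h2 : x' / (40 * M) * M = x' / 40 := by
      field_simp
    calc min (x' / (40 * M)) (1 / 40) * M ≤ x' / (40 * M) * M :=
          mul_le_mul_of_nonneg_right h1 (by (clear * - hM1 hx0 hx0b; linarith))
      _ = x' / 40 := h2
  have hσx : σ ≤ x' / 40 := by (clear * - hσa hM1 hσ; nlinarith)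
  refine ⟨x0, hx0, σ, hσ, max 1 (4 ^ (1 / σ)), ?_⟩
  intro S N lam hSD hIG q r0 u' T' hq hqσ hr0 hu hT hTu hT'
  have hD1 : 1 ≤ S.D := le_trans (le_max_left _ _) hSD
  have hD0 : 0 < S.D := by (clear * - hσ hσb hD1; linarith)
  have hD4 : (4 : ℝ) ≤ S.D ^ σ := by
    have h1 : (4 : ℝ) ^ (1 / σ) ≤ S.D := le_trans (le_max_right _ _) hSD
    calc (4 : ℝ) = ((4 : ℝ) ^ (1 / σ)) ^ σ := by
          rw [← Real.rpow_mul (by norm_num), one_div, inv_mul_cancel₀ hσ.ne', Real.rpow_one]
      _ ≤ S.D ^ σ := Real.rpow_le_rpow (by positivity) h1 hσ.le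
  have hq1 : (1 : ℝ) ≤ (q : ℝ) := by exact_mod_cast hq
  have hq0 : (0 : ℝ) < (q : ℝ) := by (clear * - hσ hσb hq1; linarith)
  exact by
    have hT1 : 1 ≤ T' := by
      have : (0 : ℝ) < (T' : ℝ) := lt_of_lt_of_le (Real.rpow_pos_of_pos hD0 _) hT'
      exact_mod_cast this
    have hu1 : 1 ≤ u' := le_trans hT1 hTu
    have hg := hIG.good
    have hTu' : (T' : ℝ) ≤ (u' : ℝ) := by exact_mod_cast hTu
    have hT1' : (1 : ℝ) ≤ (T' : ℝ) := by exact_mod_cast hT1
    have hu1' : (1 : ℝ) ≤ (u' : ℝ) := by exact_mod_cast hu1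
    -- the new scale
    exact by
      have eD : (Pool.Agent.Helper67.NX2.dil S c q r0 u' T').D = ((u' : ℝ) + T') / 2 := rfl
      obtain ⟨D', hD'⟩ : ∃ D' : ℝ, D' = ((u' : ℝ) + T') / 2 := ⟨_, rfl⟩
      have hD'pos : 0 < D' := by rw [hD']; (clear * - hσ hσb hTu' hT1'; linarith)
      have hD'1 : 1 ≤ D' := by rw [hD']; (clear * - hTu' hT1'; linarith)
      have hr0' : (r0 : ℝ) + 1 ≤ q := by exact_mod_cast hr0
      have hqD' : q * D' ≤ S.D := by
        have h1 : (q : ℝ) * ((u' : ℝ) + T') + r0 ≤ S.u + S.T := by exact_mod_cast hT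
        have h2 := hg.u2
        have h3 : (0 : ℝ) ≤ r0 := Nat.cast_nonneg _
        rw [hD']
        (clear * - h1 h2; linarith)
      have hup : D' ≤ S.D / q := by
        rw [le_div_iff₀ hq0]; (clear * - hqD'; linarith)
      exact by
        have hlow4 : S.D ≤ 4 * (q * D') := by
          have h1 : (S.u : ℝ) ≤ q * u' + r0 := by exact_mod_cast hu
          have h2 := hg.u1
          have h3 : (q : ℝ) ≤ q * u' := by (clear * - hTu' hT1'; nlinarith)
          have h4 : (q : ℝ) * u' ≤ q * (2 * D') := by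
            apply mul_le_mul_of_nonneg_left _ hq0.le
            rw [hD']; (clear * - hσ hσb hT1'; linarith)
          (clear * - hσ hσb hr0' h1 h2 h3 h4; linarith)
        have hlow : S.D / (4 * q) ≤ D' := by
          rw [div_le_iff₀ (by positivity)]; (clear * - hlow4; linarith)
        have hD'D : D' ≤ S.D := by nlinarith
        have hpow : S.D ^ (1 - 2 * σ) ≤ D' := by
          have h1 : S.D ^ (1 - 2 * σ) * (S.D ^ σ * S.D ^ σ) = S.D := by
            rw [← Real.rpow_add hD0, ← Real.rpow_add hD0]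
            have : 1 - 2 * σ + (σ + σ) = 1 := by ring
            rw [this, Real.rpow_one]
          have h2 : 0 < S.D ^ σ := Real.rpow_pos_of_pos hD0 _
          have h3 : 4 * (q : ℝ) ≤ S.D ^ σ * S.D ^ σ := by
            calc 4 * (q : ℝ) ≤ S.D ^ σ * q := mul_le_mul_of_nonneg_right hD4 hq0.le
              _ ≤ S.D ^ σ * S.D ^ σ := mul_le_mul_of_nonneg_left hqσ h2.le
          have h4 : S.D ^ (1 - 2 * σ) * (4 * q) ≤ S.D := by
            calc S.D ^ (1 - 2 * σ) * (4 * q) ≤ S.D ^ (1 - 2 * σ) * (S.D ^ σ * S.D ^ σ) :=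
                  mul_le_mul_of_nonneg_left h3 (Real.rpow_nonneg hD0.le _)
              _ = S.D := h1
          calc S.D ^ (1 - 2 * σ) ≤ S.D / (4 * q) := by
                rw [le_div_iff₀ (by positivity)]; exact h4
            _ ≤ D' := hlow
        have hx0x : x0 ≤ x' * (1 - 2 * σ) := by (clear * - hx0a hσ hσx hx' hσb; nlinarith)
        have hslack : S.D ^ x0 ≤ D' ^ x' := dil87_pow hD1 hpow hx'.le hx0x
        -- the ratio
        exact by
          have hrat1 : q * D' / S.D ≤ 1 := by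
            rw [div_le_one hD0]; exact hqD'
          have hrat4 : 1 / 4 ≤ q * D' / S.D := by
            rw [le_div_iff₀ hD0]; (clear * - hlow4; linarith)
          have hrat0 : 0 ≤ q * D' / S.D := by (clear * - hq hD'pos hD1; positivity)
          have eP : ∀ i, (Pool.Agent.Helper67.NX2.dil S c q r0 u' T').P i =
              S.P i * (q * D' / S.D) ^ (c i) := by
            intro i
            rw [hD']
            rfl
          have hQ0 : (0 : ℝ) ≤ (S.Q : ℝ) := Nat.cast_nonneg _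
          have hP0 : ∀ i, 0 ≤ S.P i := fun i =>
            le_trans (mul_nonneg hQ0 (Real.rpow_nonneg hD0.le _)) (hg.P1 i)
          exact by
            have hPle : ∀ i, (Pool.Agent.Helper67.NX2.dil S c q r0 u' T').P i ≤ S.P i := by
              intro i
              rw [eP]
              calc S.P i * (q * D' / S.D) ^ (c i) ≤ S.P i * 1 :=
                    mul_le_mul_of_nonneg_left (Real.rpow_le_one hrat0 hrat1 (hc0 i).le) (hP0 i)
                _ = S.P i := mul_one _
            have hPge : ∀ i, S.P i * 4 ^ (-c i) ≤ (Pool.Agent.Helper67.NX2.dil S c q r0 u' T').P i := by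
              intro i
              rw [eP]
              apply mul_le_mul_of_nonneg_left _ (hP0 i)
              calc (4 : ℝ) ^ (-c i) = (1 / 4) ^ (c i) := by
                    rw [Real.rpow_neg (by norm_num), one_div, Real.inv_rpow (by norm_num)]
                _ ≤ (q * D' / S.D) ^ (c i) := Real.rpow_le_rpow (by norm_num) hrat4 (hc0 i).le
            refine ⟨⟨⟨?_, ?_, ?_, ?_, ?_, ?_, ?_, ?_, ?_, ?_, ?_⟩, ?_, ?_, ?_, ?_, ?_⟩, ?_, ?_, ?_⟩
            · -- ρ0
              show 0 ≤ (r0 + S.ρ) / q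
              have := hg.ρ0
              (clear * - this hq; positivity)
            · -- ρ1
              show (r0 + S.ρ) / q ≤ 1
              rw [div_le_one hq0]
              have := hg.ρ1
              (clear * - hr0' this; linarith)
            · -- Q1
              rw [eD, ← hD']
              show D' ^ (2 : ℝ) ≤ (S.Q : ℝ)
              exact le_trans (Real.rpow_le_rpow hD'pos.le hD'D (by norm_num)) hg.Q1
            · -- Q2
              rw [eD, ← hD']
              exact by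
                show (S.Q : ℝ) ≤ D' ^ (3 : ℝ)
                exact le_trans hIG.Q3 (dil87_pow hD1 hpow (by norm_num) (by (clear * - hx0b hσ hσb; nlinarith)))
            · -- P1
              intro i
              exact by
                rw [eD, ← hD', eP]
                show (S.Q : ℝ) * D' ^ (c i - x') ≤ _
                have h1 := hg.P1 i
                have h2 : (S.Q : ℝ) * S.D ^ (c i - x0) * (q * D' / S.D) ^ (c i) =
                    S.Q * ((S.D ^ x0)⁻¹ * (q * D') ^ (c i)) := by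
                  rw [Real.rpow_sub hD0, Real.div_rpow (by positivity) hD0.le]
                  have h3 : S.D ^ (c i) ≠ 0 := (Real.rpow_pos_of_pos hD0 _).ne'
                  have h4 : S.D ^ x0 ≠ 0 := (Real.rpow_pos_of_pos hD0 _).ne'
                  (clear * - h3 hq hD'pos h4; field_simp)
                calc (S.Q : ℝ) * D' ^ (c i - x') = S.Q * ((D' ^ x')⁻¹ * D' ^ (c i)) := by
                      rw [Real.rpow_sub hD'pos]
                      ring
                  _ ≤ S.Q * ((S.D ^ x0)⁻¹ * (q * D') ^ (c i)) := by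
                      apply mul_le_mul_of_nonneg_left _ hQ0
                      apply mul_le_mul _ _ (Real.rpow_nonneg hD'pos.le _) (by positivity)
                      · exact inv_anti₀ (Real.rpow_pos_of_pos hD0 _) hslack
                      · exact Real.rpow_le_rpow hD'pos.le (by nlinarith) (hc0 i).le
                  _ = (S.Q : ℝ) * S.D ^ (c i - x0) * (q * D' / S.D) ^ (c i) := h2.symm
                  _ ≤ S.P i * (q * D' / S.D) ^ (c i) :=
                      mul_le_mul_of_nonneg_right h1 (Real.rpow_nonneg hrat0 _)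
            · -- P2
              intro i
              exact by
                rw [eD, ← hD', eP]
                show _ ≤ (S.Q : ℝ) * D' ^ (c i + x')
                have h1 := hg.P2 i
                have h2 : (S.Q : ℝ) * S.D ^ (c i + x0) * (q * D' / S.D) ^ (c i) =
                    S.Q * ((S.D ^ x0 * (q : ℝ) ^ (c i)) * D' ^ (c i)) := by
                  rw [Real.rpow_add hD0, Real.div_rpow (by (clear * - hq hD'pos; positivity)) hD0.le,
                    Real.mul_rpow hq0.le hD'pos.le]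
                  have h3 : S.D ^ (c i) ≠ 0 := (Real.rpow_pos_of_pos hD0 _).ne'
                  (clear * - h3 hD'pos hq hD1; field_simp)
                have h5 : S.D ^ x0 * (q : ℝ) ^ (c i) ≤ D' ^ x' := by
                  calc S.D ^ x0 * (q : ℝ) ^ (c i) ≤ S.D ^ x0 * (S.D ^ σ) ^ (c i) := by
                        apply mul_le_mul_of_nonneg_left _ (Real.rpow_nonneg hD0.le _)
                        exact Real.rpow_le_rpow hq0.le hqσ (hc0 i).le
                    _ = S.D ^ (x0 + σ * c i) := by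
                        rw [← Real.rpow_mul hD0.le, ← Real.rpow_add hD0]
                    _ ≤ D' ^ x' := by
                        apply dil87_pow hD1 hpow hx'.le
                        have : σ * c i ≤ σ * M := mul_le_mul_of_nonneg_left (hM i) hσ.le
                        (clear * - hx0a hσ hσa hσx this hx' hσb; nlinarith)
                calc S.P i * (q * D' / S.D) ^ (c i)
                    ≤ (S.Q : ℝ) * S.D ^ (c i + x0) * (q * D' / S.D) ^ (c i) :=
                      mul_le_mul_of_nonneg_right h1 (Real.rpow_nonneg hrat0 _)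
                  _ = S.Q * ((S.D ^ x0 * (q : ℝ) ^ (c i)) * D' ^ (c i)) := h2
                  _ ≤ S.Q * (D' ^ x' * D' ^ (c i)) := by
                      apply mul_le_mul_of_nonneg_left _ hQ0
                      exact mul_le_mul_of_nonneg_right h5 (Real.rpow_nonneg hD'pos.le _)
                  _ = (S.Q : ℝ) * D' ^ (c i + x') := by
                      rw [Real.rpow_add hD'pos]; ring
            · -- N1
              intro i
              rw [eD, ← hD']
              calc (Pool.Agent.Helper67.NX2.dil S c q r0 u' T').P i ≤ S.P i := hPle i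
                _ ≤ N * S.D ^ x0 := hg.N1 i
                _ ≤ N * D' ^ x' := mul_le_mul_of_nonneg_left hslack (Nat.cast_nonneg _)
            · exact hg.N2
            · -- u1
              rw [eD]
              show ((u' : ℝ) + T') / 2 ≤ (u' : ℝ)
              (clear * - hTu'; linarith)
            · -- u2
              rw [eD]
              show (u' : ℝ) + T' ≤ 2 * (((u' : ℝ) + T') / 2)
              (clear * -; linarith)
            · -- T1
              rw [eD, ← hD']
              show D' ^ (1 - x') ≤ (T' : ℝ)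
              rcases le_total x' 1 with h | h
              · calc D' ^ (1 - x') ≤ S.D ^ (1 - x') := Real.rpow_le_rpow hD'pos.le hD'D (by (clear * - h; linarith))
                  _ ≤ S.D ^ (1 - x' / 2) := Real.rpow_le_rpow_of_exponent_le hD1 (by (clear * - hσ hσx; linarith))
                  _ ≤ T' := hT'
              · exact le_trans (Real.rpow_le_one_of_one_le_of_nonpos hD'1 (by (clear * - h; linarith))) hT1'
            · -- Q3
              rw [eD, ← hD']
              exact by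
                show (S.Q : ℝ) ≤ D' ^ (5 / 2 + x')
                exact le_trans hIG.Q3 (dil87_pow hD1 hpow (by (clear * - hσ hσb hσx; linarith)) (by (clear * - hx0a hσ hσx hx' hσb; nlinarith)))
            · -- lam1
              exact Nat.one_le_iff_ne_zero.mpr (Nat.mul_ne_zero
                (Nat.one_le_iff_ne_zero.mp hIG.lam1) (Nat.one_le_iff_ne_zero.mp hq))
            · -- rho
              obtain ⟨r, hr⟩ := hIG.rho
              refine ⟨lam * r0 + r, ?_⟩
              show (r0 + S.ρ) / q * ((lam * q : ℕ) : ℝ) = ((lam * r0 + r : ℕ) : ℝ)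
              push_cast
              rw [← hr]
              (clear * - hq; field_simp)
            · -- Pint
              intro i d hd
              have h1 := hIG.Pint i d hd
              rw [eP, eD, ← hD', h1, hd, Real.rpow_natCast]
              show (S.Q : ℝ) * (lam * S.D) ^ d * (q * D' / S.D) ^ d = (S.Q : ℝ) * (((lam * q : ℕ) : ℝ) * D') ^ d
              rw [mul_assoc, ← mul_pow]
              congr 2
              push_cast
              (clear * - hD1 hD'pos hq; field_simp)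
            · exact hIG.prime
            · rw [eD, ← hD']; exact hlow
            · rw [eD, ← hD']; exact hup
            · exact fun i => ⟨hPge i, hPle i⟩

end

end Pool.Agent.Helper67.NX2

end

section

set_option autoImplicit false

open Finset

open scoped BigOperators ComplexConjugate

namespace Pool.Agent.Helper67.NX2

open Pool.Agent.Helper57.NX

noncomputable section

theorem la_unit {p q : ℕ} (hp : p.Prime) (hq : 1 ≤ q) (hqp : q < p) :
    (q : ZMod p) * (q : ZMod p)⁻¹ = 1 := by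
  have : Fact p.Prime := ⟨hp⟩
  refine mul_inv_cancel₀ ?_
  intro h
  rw [ZMod.natCast_eq_zero_iff] at h
  exact absurd (Nat.le_of_dvd (by omega) h) (by omega)

theorem la_expect {N p Q q : ℕ} [NeZero N] [NeZero p] (hp : p.Prime) (hN : N = Q * p)
    (hq : 1 ≤ q) (hqp : q < p) (r A : ZMod p) (F : ZMod N → ℂ) :
    𝔼 x, F x = 𝔼 v ∈ range p, 𝔼 e ∈ range Q,
      F (((Q * ((q : ZMod p) * (r + (v : ZMod p)) - A).val : ℕ) : ZMod N) + (e : ZMod N)) := by
  have hQ : 0 < Q := by
    have := NeZero.ne N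
    rcases Nat.eq_zero_or_pos Q with h | h
    · rw [h, zero_mul] at hN; exact absurd hN this
    · exact h
  rw [lpl_expect_range, expect_eq_sum_div_card, card_range]
  have h1 : ∑ v ∈ range N, F (v : ZMod N) = ∑ y ∈ range p, ∑ e ∈ range Q,
      F ((y * Q + e : ℕ) : ZMod N) := by
    rw [← lpl_sum_blocks (fun v => F (v : ZMod N)) p Q]
    congr 1
    rw [hN, mul_comm]
  set G : ZMod p → ℂ := fun y => ∑ e ∈ range Q, F (((Q * y.val : ℕ) : ZMod N) + (e : ZMod N)) with hG
  have h2 : ∑ y ∈ range p, ∑ e ∈ range Q, F ((y * Q + e : ℕ) : ZMod N) =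
      ∑ y ∈ range p, G (y : ZMod p) := by
    refine sum_congr rfl fun y hy => ?_
    rw [hG]
    simp only
    rw [ZMod.val_natCast_of_lt (mem_range.1 hy)]
    refine sum_congr rfl fun e _ => ?_
    congr 1
    push_cast; ring
  have h3 : ∀ H : ZMod p → ℂ, ∑ y ∈ range p, H (y : ZMod p) = ∑ y : ZMod p, H y := by
    intro H
    have h4 := lpl_expect_range (N := p) H
    rw [expect_eq_sum_div_card, expect_eq_sum_div_card, card_univ, ZMod.card, card_range] at h4
    have hp0 : (p : ℂ) ≠ 0 := by exact_mod_cast NeZero.ne p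
    rw [div_left_inj' hp0] at h4
    exact h4.symm
  have hbij : Function.Bijective (fun v : ZMod p => (q : ZMod p) * (r + v) - A) := by
    have hu := la_unit hp hq hqp
    refine ⟨fun v w h => ?_, fun y => ⟨(q : ZMod p)⁻¹ * (y + A) - r, ?_⟩⟩
    · simp only at h
      have h5 : (q : ZMod p) * (r + v) = (q : ZMod p) * (r + w) := by
        linear_combination h
      have h6 : (q : ZMod p)⁻¹ * ((q : ZMod p) * (r + v)) = (q : ZMod p)⁻¹ * ((q : ZMod p) * (r + w)) := by
        rw [h5]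
      linear_combination h6 - (v - w) * hu
    · simp only
      linear_combination (y + A) * hu
  have h4 : ∑ v ∈ range p, G ((q : ZMod p) * (r + (v : ZMod p)) - A) = ∑ y : ZMod p, G y := by
    rw [h3 (fun v => G ((q : ZMod p) * (r + v) - A))]
    exact hbij.sum_comp G
  rw [h1, h2, h3 G, ← h4, expect_eq_sum_div_card, card_range]
  have h5 : ∀ v ∈ range p, (𝔼 e ∈ range Q,
      F (((Q * ((q : ZMod p) * (r + (v : ZMod p)) - A).val : ℕ) : ZMod N) + (e : ZMod N))) =
      G ((q : ZMod p) * (r + (v : ZMod p)) - A) / Q := by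
    intro v _
    rw [expect_eq_sum_div_card, card_range]
  rw [sum_congr rfl h5, ← sum_div, div_div, hN]
  push_cast
  ring

theorem la_sum_dvd (q L M : ℕ) (hq : 1 ≤ q) (hM : q * L ≤ M) (G : ℕ → ℂ)
    (hG : ∀ y, y < M → ¬ (y < q * L ∧ q ∣ y) → G y = 0) :
    ∑ y ∈ range M, G y = ∑ w ∈ range L, G (q * w) := by
  have h1 : ∑ y ∈ (range L).image (fun w => q * w), G y = ∑ w ∈ range L, G (q * w) := by
    rw [sum_image]
    intro a _ b _ h
    exact Nat.eq_of_mul_eq_mul_left (by omega) h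
  rw [← h1]
  symm
  refine sum_subset ?_ ?_
  · intro y hy
    obtain ⟨w, hw, rfl⟩ := mem_image.1 hy
    have hw := mem_range.1 hw
    rw [mem_range]
    have : q * w < q * L := Nat.mul_lt_mul_of_pos_left hw (by omega)
    omega
  · intro y hyM hy
    refine hG y (mem_range.1 hyM) fun h => hy ?_
    obtain ⟨h2, w, rfl⟩ := h
    refine mem_image.2 ⟨w, ?_, rfl⟩
    rw [mem_range]
    exact Nat.lt_of_mul_lt_mul_left h2

/-- the average over a cell -/
def laE2 {m N : ℕ} (S : Sys (m + 1)) (c : Fin (m + 1) → ℝ) (f0 : ZMod N → ℂ)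
    (f : Fin m → ZMod N → ℂ) (X L Q q κ : ℕ) (z : ZMod N) (cc : ℕ → ℂ) (φ : ℕ → ℝ) (ϑ : ℝ)
    (r0 u' J : ℕ) (τ : ℕ → ℕ) : ℂ :=
  𝔼 j ∈ Ico u' (u' + J), 𝔼 w ∈ range L, 𝔼 e' ∈ range Q,
    f0 (z + ((Q * (q * w) + e' : ℕ) : ZMod N)) *
    (∏ i : Fin m, f i (z + ((Q * (q * w) + e' : ℕ) : ZMod N) +
      (S.a c i.castSucc (q * j + r0) : ZMod N))) *
    (cpf X L κ cc φ ϑ (w + τ j) * e (ϑ * ((w : ℝ) + (τ j : ℝ))))

/-- the weight on the first coordinate -/
def laψ (q L : ℕ) (ϑ : ℝ) (y : ℕ) : ℂ :=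
  if y < q * L ∧ q ∣ y then e (ϑ * ((y / q : ℕ) : ℝ)) else 0

theorem la_transport {m N N' : ℕ} [NeZero N'] (S S' : Sys (m + 1)) (c : Fin (m + 1) → ℝ)
    (f0 : ZMod N → ℂ) (f : Fin m → ZMod N → ℂ) (X L Q q κ p' A : ℕ) (z : ZMod N) (cc : ℕ → ℂ)
    (φ : ℕ → ℝ) (ϑ : ℝ) (r0 u' J : ℕ) (τ : ℕ → ℕ) (hL : 1 ≤ L) (hq : 1 ≤ q) (hQ : 1 ≤ Q)
    (hp' : 4 * (q * L) ≤ p') (hN' : N' = Q * p') (hI : S'.I = Ico u' (u' + J))
    (ha : ∀ i, ∀ j ∈ Ico u' (u' + J), S'.a c i j = S.a c i (q * j + r0))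
    (hai : ∀ i : Fin m, ∀ j ∈ Ico u' (u' + J), 0 ≤ S.a c i.castSucc (q * j + r0) ∧
      S.a c i.castSucc (q * j + r0) ≤ ((Q * (q * L) : ℕ) : ℤ))
    (hτ : ∀ j ∈ Ico u' (u' + J), S.a c (Fin.last m) (q * j + r0) = ((Q * (A + q * τ j) : ℕ) : ℤ) ∧
      τ j ≤ L) :
    form (N := N') S' c (fun j => e (ϑ * (τ j : ℝ)))
      (fun x => laψ q L ϑ (x.val / Q) * f0 (z + (x.val : ZMod N)))
      (Fin.snoc (α := fun _ => ZMod N' → ℂ) (fun i x => f i (z + (x.val : ZMod N)))
        (fun x => cpf X L κ cc φ ϑ ((x - ((Q * A : ℕ) : ZMod N')).val / Q / q))) =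
    (L / p' : ℂ) * laE2 S c f0 f X L Q q κ z cc φ ϑ r0 u' J τ := by
  have hqL : 1 ≤ q * L := Nat.mul_pos hq hL
  have hp'0 : 0 < p' := by omega
  unfold form laE2
  rw [mul_expect, hI]
  refine expect_congr rfl fun j hj => ?_
  obtain ⟨hb1, hb2⟩ := hτ j hj
  have hlt : ∀ w e' n : ℕ, w < L → e' < Q → n ≤ Q * (q * L) → q * w * Q + e' + n < N' := by
    intro w e' n hw he hn
    have h1 : q * w + 1 ≤ q * L := by
      have : q * w < q * L := Nat.mul_lt_mul_of_pos_left hw (by omega)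
      omega
    have h2 : (q * w + 1) * Q ≤ q * L * Q := Nat.mul_le_mul_right _ h1
    have h3 : Q * (4 * (q * L)) ≤ Q * p' := Nat.mul_le_mul_left _ hp'
    have h4 : Q * (4 * (q * L)) = 4 * (q * L * Q) := by ring
    have h5 : (q * w + 1) * Q = q * w * Q + Q := by ring
    have h6 : Q * (q * L) = q * L * Q := by ring
    rw [hN']
    omega
  have hval : ∀ (w e' n : ℕ) (a : ZMod N'), w < L → e' < Q → n ≤ Q * (q * L) → a = (n : ZMod N') →
      (((q * w * Q + e' : ℕ) : ZMod N') + a).val = q * w * Q + e' + n := by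
    intro w e' n a hw he hn ha
    rw [ha, ← Nat.cast_add, ZMod.val_natCast_of_lt (hlt w e' n hw he hn)]
  exact by
    have hsum : ∀ H : ZMod N' → ℂ, (∀ y e' : ℕ, y < p' → e' < Q → ¬ (y < q * L ∧ q ∣ y) →
        H ((y * Q + e' : ℕ) : ZMod N') = 0) →
        ∑ v ∈ range N', H (v : ZMod N') = ∑ w ∈ range L, ∑ e' ∈ range Q,
          H ((q * w * Q + e' : ℕ) : ZMod N') := by
      intro H hH
      have h1 : ∑ v ∈ range N', H (v : ZMod N') = ∑ y ∈ range p', ∑ e' ∈ range Q,
          H ((y * Q + e' : ℕ) : ZMod N') := by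
        rw [← lpl_sum_blocks (fun v => H (v : ZMod N')) p' Q]
        congr 1
        rw [hN', mul_comm]
      rw [h1]
      exact la_sum_dvd q L p' hq (by omega) (fun y => ∑ e' ∈ range Q, H ((y * Q + e' : ℕ) : ZMod N'))
        fun y hy hyn => sum_eq_zero fun e' he' => hH y e' hy (mem_range.1 he') hyn
    obtain ⟨H, hH⟩ : ∃ H : ZMod N' → ℂ, H = fun x =>
        laψ q L ϑ (x.val / Q) * f0 (z + (x.val : ZMod N)) *
        ∏ i, (Fin.snoc (α := fun _ => ZMod N' → ℂ) (fun i x => f i (z + (x.val : ZMod N)))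
          (fun x => cpf X L κ cc φ ϑ ((x - ((Q * A : ℕ) : ZMod N')).val / Q / q)) :
          Fin (m + 1) → ZMod N' → ℂ) i (x + (S'.a c i j : ZMod N')) := ⟨_, rfl⟩
    have hz : ∀ y e' : ℕ, y < p' → e' < Q → ¬ (y < q * L ∧ q ∣ y) →
        H ((y * Q + e' : ℕ) : ZMod N') = 0 := by
      intro y e' hy he hyn
      rw [hH]
      have h1 : y * Q + e' < N' := by
        rw [hN']
        have : (y + 1) * Q ≤ p' * Q := Nat.mul_le_mul_right _ hy
        have h2 : (y + 1) * Q = y * Q + Q := by ring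
        have h3 : p' * Q = Q * p' := by ring
        omega
      have h2 : (((y * Q + e' : ℕ) : ZMod N')).val / Q = y := by
        rw [ZMod.val_natCast_of_lt h1, mul_comm, Nat.mul_add_div (by omega), Nat.div_eq_of_lt he,
          add_zero]
      simp only
      rw [h2]
      unfold laψ
      rw [if_neg hyn, zero_mul, zero_mul]
    have hQ0 : (Q : ℂ) ≠ 0 := by
      have : Q ≠ 0 := by omega
      exact_mod_cast this
    have hL0 : (L : ℂ) ≠ 0 := by
      have : L ≠ 0 := by (clear * - N' S c Q q p' A r0 τ hL j; omega)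
      exact_mod_cast this
    have hp0 : (p' : ℂ) ≠ 0 := by
      have : p' ≠ 0 := by omega
      exact_mod_cast this
    have hmain : ∀ w ∈ range L, ∀ e' ∈ range Q, e (ϑ * (τ j : ℝ)) *
        (laψ q L ϑ (((q * w * Q + e' : ℕ) : ZMod N').val / Q) *
          f0 (z + ((((q * w * Q + e' : ℕ) : ZMod N').val : ℕ) : ZMod N)) *
        ∏ i, (Fin.snoc (α := fun _ => ZMod N' → ℂ) (fun i x => f i (z + (x.val : ZMod N)))
          (fun x => cpf X L κ cc φ ϑ ((x - ((Q * A : ℕ) : ZMod N')).val / Q / q)) :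
          Fin (m + 1) → ZMod N' → ℂ) i
          (((q * w * Q + e' : ℕ) : ZMod N') + (S'.a c i j : ZMod N'))) =
        f0 (z + ((Q * (q * w) + e' : ℕ) : ZMod N)) *
        (∏ i : Fin m, f i (z + ((Q * (q * w) + e' : ℕ) : ZMod N) +
          (S.a c i.castSucc (q * j + r0) : ZMod N))) *
        (cpf X L κ cc φ ϑ (w + τ j) * e (ϑ * ((w : ℝ) + (τ j : ℝ)))) := by
      intro w hw e' he'
      have hw := mem_range.1 hw
      have he' := mem_range.1 he'
      have hcomm : q * w * Q + e' = Q * (q * w) + e' := by ring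
      have e0 : (((q * w * Q + e' : ℕ) : ZMod N')).val = q * w * Q + e' := by
        have := hval w e' 0 0 hw he' (by omega) (by simp)
        simpa using this
      have e00 : (q * w * Q + e') / Q = q * w := by
        rw [hcomm, Nat.mul_add_div (by omega), Nat.div_eq_of_lt he', add_zero]
      rw [e0, e00, Fin.prod_univ_castSucc]
      simp only [Fin.snoc_castSucc, Fin.snoc_last]
      have e1 : ∀ i : Fin m, f i (z + ((((((q * w * Q + e' : ℕ) : ZMod N') +
          (S'.a c i.castSucc j : ZMod N')).val : ℕ) : ZMod N))) =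
          f i (z + ((Q * (q * w) + e' : ℕ) : ZMod N) + (S.a c i.castSucc (q * j + r0) : ZMod N)) := by
        intro i
        obtain ⟨h1, h2⟩ := hai i j hj
        obtain ⟨n, hn⟩ := Int.eq_ofNat_of_zero_le h1
        have h3 : S'.a c i.castSucc j = (n : ℤ) := by rw [ha _ j hj, hn]
        have h4 : n ≤ Q * (q * L) := by
          rw [hn] at h2; exact_mod_cast h2
        rw [hval w e' n _ hw he' h4 (by rw [h3, Int.cast_natCast]), hn, hcomm]
        congr 1
        push_cast; ring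
      simp only [e1]
      have e2 : ((q * w * Q + e' : ℕ) : ZMod N') + (S'.a c (Fin.last m) j : ZMod N') -
          ((Q * A : ℕ) : ZMod N') = ((q * w * Q + e' : ℕ) : ZMod N') +
          ((Q * (q * τ j) : ℕ) : ZMod N') := by
        rw [ha _ j hj, hb1]
        push_cast; ring
      have e3 : Q * (q * τ j) ≤ Q * (q * L) :=
        Nat.mul_le_mul_left _ (Nat.mul_le_mul_left _ hb2)
      have e4 : (q * w * Q + e' + Q * (q * τ j)) / Q / q = w + τ j := by
        have h1 : q * w * Q + e' + Q * (q * τ j) = Q * (q * (w + τ j)) + e' := by ring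
        rw [h1, Nat.mul_add_div (by omega), Nat.div_eq_of_lt he', add_zero,
          Nat.mul_div_cancel_left _ (by omega)]
      rw [e2, hval w e' _ _ hw he' e3 rfl, e4]
      unfold laψ
      rw [if_pos ⟨Nat.mul_lt_mul_of_pos_left hw (by omega), Dvd.intro _ rfl⟩,
        Nat.mul_div_cancel_left _ (by omega : 0 < q), hcomm]
      have e5 : e (ϑ * ((w : ℝ) + (τ j : ℝ))) = e (ϑ * (w : ℝ)) * e (ϑ * (τ j : ℝ)) := by
        rw [← e_add]; congr 1; ring
      rw [e5]
      ring
    exact by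
      have hmain' : ∀ w ∈ range L, ∀ e' ∈ range Q, e (ϑ * (τ j : ℝ)) *
          H ((q * w * Q + e' : ℕ) : ZMod N') =
          f0 (z + ((Q * (q * w) + e' : ℕ) : ZMod N)) *
          (∏ i : Fin m, f i (z + ((Q * (q * w) + e' : ℕ) : ZMod N) +
            (S.a c i.castSucc (q * j + r0) : ZMod N))) *
          (cpf X L κ cc φ ϑ (w + τ j) * e (ϑ * ((w : ℝ) + (τ j : ℝ)))) := by
        rw [hH]; exact hmain
      have hgoal : (𝔼 x : ZMod N', laψ q L ϑ (x.val / Q) * f0 (z + (x.val : ZMod N)) *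
          ∏ i, (Fin.snoc (α := fun _ => ZMod N' → ℂ) (fun i x => f i (z + (x.val : ZMod N)))
            (fun x => cpf X L κ cc φ ϑ ((x - ((Q * A : ℕ) : ZMod N')).val / Q / q)) :
            Fin (m + 1) → ZMod N' → ℂ) i (x + (S'.a c i j : ZMod N'))) = 𝔼 x : ZMod N', H x := by
        rw [hH]
      refine (congrArg (fun t => e (ϑ * (τ j : ℝ)) * t) hgoal).trans ?_
      rw [lpl_expect_range, expect_eq_sum_div_card, card_range, hsum H hz, ← mul_div_assoc, mul_sum]
      have h1 : ∀ w ∈ range L, e (ϑ * (τ j : ℝ)) * (∑ e' ∈ range Q,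
          H ((q * w * Q + e' : ℕ) : ZMod N')) =
          Q * 𝔼 e' ∈ range Q, f0 (z + ((Q * (q * w) + e' : ℕ) : ZMod N)) *
          (∏ i : Fin m, f i (z + ((Q * (q * w) + e' : ℕ) : ZMod N) +
            (S.a c i.castSucc (q * j + r0) : ZMod N))) *
          (cpf X L κ cc φ ϑ (w + τ j) * e (ϑ * ((w : ℝ) + (τ j : ℝ)))) := by
        intro w hw
        rw [mul_sum, sum_congr rfl (hmain' w hw), expect_eq_sum_div_card, card_range,
          mul_div_left_comm, div_self hQ0, mul_one]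
      rw [sum_congr rfl h1, ← mul_sum, expect_eq_sum_div_card (s := range L), card_range, hN']
      push_cast
      field_simp

end

end Pool.Agent.Helper67.NX2

end

section

set_option autoImplicit false

open Finset

open scoped BigOperators ComplexConjugate

namespace Pool.Agent.Helper57.NX

noncomputable section

section PhiBasics

variable {m : ℕ}

/-- the map on atoms -/
def cns5 (h : ℕ) (s : List ℕ × Fin m) : List ℕ × Fin m := (h :: s.1, s.2)

theorem tau_apply5 (h : ℕ) (p : Phi m) : tau h p = p + Finsupp.mapDomain (cns5 h) p := rfl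

theorem jet_add5 (S : Sys m) (c : Fin m → ℝ) (b : ℕ) (p q : Phi m) (y : ℝ) :
    jet S c b (p + q) y = jet S c b p y + jet S c b q y := by
  unfold jet
  exact Finsupp.sum_add_index' (fun _ => by simp) (fun _ _ _ => by push_cast; ring)

theorem jet_sub (S : Sys m) (c : Fin m → ℝ) (b : ℕ) (p q : Phi m) (y : ℝ) :
    jet S c b (p - q) y = jet S c b p y - jet S c b q y := by
  have h := jet_add5 S c b (p - q) q y
  rw [sub_add_cancel] at h
  linarith

theorem jet_zero (S : Sys m) (c : Fin m → ℝ) (b : ℕ) (y : ℝ) : jet S c b (0 : Phi m) y = 0 := by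
  unfold jet
  exact Finsupp.sum_zero_index

theorem jet_tau (S : Sys m) (c : Fin m → ℝ) (b h : ℕ) (p : Phi m) (y : ℝ) :
    jet S c b (tau h p) y = jet S c b p (y + h) := by
  rw [tau_apply5, jet_add5]
  have h1 : jet S c b (Finsupp.mapDomain (cns5 h) p) y = jet S c b p (y + h) - jet S c b p y := by
    unfold jet
    rw [Finsupp.sum_mapDomain_index (fun _ => by simp) (fun _ _ _ => by push_cast; ring),
      ← Finsupp.sum_sub]
    refine Finsupp.sum_congr fun s _ => ?_
    simp only [cns5, dlR]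
    ring
  rw [h1]
  ring

theorem ff_succ_right5 (γ : ℝ) (b : ℕ) : ff γ (b + 1) = ff γ b * (γ - b) := by
  unfold ff
  rw [Finset.prod_range_succ]

theorem ff_succ (γ : ℝ) (b : ℕ) : ff γ (b + 1) = γ * ff (γ - 1) b := by
  unfold ff
  rw [Finset.prod_range_succ', mul_comm]
  congr 1
  · simp
  · refine Finset.prod_congr rfl fun i _ => ?_
    push_cast
    ring

theorem mdl_succ (S : Sys m) (γ : ℝ) (hD : 0 < S.D) (b : ℕ) (y : ℝ) :
    mdl S γ (b + 1) y = γ / S.D * mdl S (γ - 1) b y := by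
  unfold mdl
  rw [ff_succ]
  have h1 : γ - ((b + 1 : ℕ) : ℝ) = γ - 1 - b := by push_cast; ring
  rw [h1, pow_succ]
  have := hD.ne'
  field_simp

theorem mdl_hasDeriv (S : Sys m) (γ : ℝ) (hD : 0 < S.D) (hρ : 0 ≤ S.ρ) (b : ℕ)
    (y : ℝ) (hy : 0 < y) : HasDerivAt (mdl S γ b) (mdl S γ (b + 1) y) y := by
  have ht : 0 < (y + S.ρ) / S.D := by (clear * - hy hρ hD; positivity)
  have h1 : HasDerivAt (fun y : ℝ => (y + S.ρ) / S.D) (1 / S.D) y :=
    ((hasDerivAt_id y).add_const S.ρ).div_const S.D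
  have h2 := (h1.rpow_const (p := γ - b) (Or.inl ht.ne'))
  have h3 := (h2.const_mul (ff γ b)).div_const (S.D ^ b)
  refine h3.congr_deriv ?_
  unfold mdl
  rw [ff_succ_right5]
  have h4 : γ - ((b + 1 : ℕ) : ℝ) = γ - b - 1 := by push_cast; ring
  rw [h4, pow_succ]
  have := hD.ne'
  (clear * - hD hy hρ this; field_simp)

theorem dlR_hasDeriv5 (f f' : ℝ → ℝ) (hf : ∀ y, 0 < y → HasDerivAt f (f' y) y) (t : List ℕ) :
    ∀ y, 0 < y → HasDerivAt (dlR t f) (dlR t f' y) y := by
  induction t with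
  | nil => exact hf
  | cons h t ih =>
    intro y hy
    have h1 : HasDerivAt (fun z => dlR t f (z + h)) (dlR t f' (y + h)) y := by
      have h2 := ih (y + h) (by (clear * - hy; positivity))
      exact h2.comp_add_const y (h : ℝ)
    exact h1.sub (ih y hy)

theorem jet_hasDeriv (S : Sys m) (c : Fin m → ℝ) (hD : 0 < S.D) (hρ : 0 ≤ S.ρ) (b : ℕ) (p : Phi m)
    (y : ℝ) (hy : 0 < y) : HasDerivAt (jet S c b p) (jet S c (b + 1) p y) y := by
  unfold jet Finsupp.sum
  have h1 := HasDerivAt.fun_sum (u := p.support)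
    (A := fun s (y : ℝ) => ((p s : ℤ) : ℝ) * dlR s.1 (fun z => S.P s.2 * mdl S (c s.2) b z) y)
    (A' := fun s => ((p s : ℤ) : ℝ) * dlR s.1 (fun z => S.P s.2 * mdl S (c s.2) (b + 1) z) y)
    (x := y) (fun s _ => by
      have h2 := dlR_hasDeriv5 (fun z => S.P s.2 * mdl S (c s.2) b z)
        (fun z => S.P s.2 * mdl S (c s.2) (b + 1) z)
        (fun z hz => (mdl_hasDeriv S (c s.2) hD hρ b z hz).const_mul (S.P s.2)) s.1 y hy
      exact h2.const_mul _)
  exact h1

/-- the model and its modulus of continuity -/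
theorem mdl_bound (γ : ℝ) (b : ℕ) : ∃ C : ℝ, 0 < C ∧ ∀ (m : ℕ) (S : Sys m), 0 < S.D → 0 ≤ S.ρ →
    S.ρ ≤ S.D → ∀ y : ℝ, S.D ≤ y → y ≤ 4 * S.D → |mdl S γ b y| ≤ C / S.D ^ b := by
  refine ⟨|ff γ b| * 5 ^ |γ - b| + 1, by (clear * -; positivity), ?_⟩
  intro m S hD hρ hρD y hy hy4
  have h1 : 1 ≤ (y + S.ρ) / S.D := by
    rw [le_div_iff₀ hD]; linarith
  have h5 : (y + S.ρ) / S.D ≤ 5 := by
    rw [div_le_iff₀ hD]; (clear * - hρD hy4; linarith)
  have h2 : ((y + S.ρ) / S.D) ^ (γ - b) ≤ 5 ^ |γ - b| :=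
    (Real.rpow_le_rpow_of_exponent_le h1 (le_abs_self _)).trans
      (Real.rpow_le_rpow (by (clear * - h1; linarith)) h5 (abs_nonneg _))
  have h3 : 0 ≤ ((y + S.ρ) / S.D) ^ (γ - b) := by (clear * - h1; positivity)
  unfold mdl
  rw [abs_div, abs_mul, abs_of_nonneg h3, abs_of_pos (by positivity : (0 : ℝ) < S.D ^ b)]
  refine div_le_div_of_nonneg_right ?_ (by positivity)
  have h4 := mul_le_mul_of_nonneg_left h2 (abs_nonneg (ff γ b))
  (clear * - h4; linarith)

end PhiBasics

end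

end Pool.Agent.Helper57.NX

end

section

set_option autoImplicit false

open Finset

open scoped BigOperators ComplexConjugate

namespace Pool.Agent.Helper57.NX

noncomputable section

section Types81

variable {m : ℕ}

theorem Typ.mono81 {S : Sys m} {c : Fin m → ℝ} {B B' : ℕ} {Y Y' : ℝ} {p : Phi m} {γ Λ E E' : ℝ}
    (h : Typ S c B Y p γ Λ E) (hD : 0 < S.D) (hB : B' ≤ B) (hY : Y' ≤ Y) (hE : E ≤ E') :
    Typ S c B' Y' p γ Λ E' := by
  intro b hb y hy hy'
  refine (h b (hb.trans hB) y hy (hy'.trans hY)).trans ?_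
  exact div_le_div_of_nonneg_right hE (by positivity)

theorem Typ.add81 {S : Sys m} {c : Fin m → ℝ} {B : ℕ} {Y : ℝ} {p p' : Phi m} {γ Λ E Λ' E' : ℝ}
    (h : Typ S c B Y p γ Λ E) (h' : Typ S c B Y p' γ Λ' E') :
    Typ S c B Y (p + p') γ (Λ + Λ') (E + E') := by
  intro b hb y hy hy'
  have h1 := h b hb y hy hy'
  have h2 := h' b hb y hy hy'
  rw [jet_add5, add_div]
  have e1 : jet S c b p y + jet S c b p' y - (Λ + Λ') * mdl S γ b y
      = (jet S c b p y - Λ * mdl S γ b y) + (jet S c b p' y - Λ' * mdl S γ b y) := by ring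
  rw [e1]
  exact (abs_add_le _ _).trans (add_le_add h1 h2)

theorem Typ.zero81 (S : Sys m) (c : Fin m → ℝ) (B : ℕ) (Y : ℝ) (γ : ℝ) :
    Typ S c B Y 0 γ 0 0 := by
  intro b hb y hy hy'
  rw [jet_zero]
  simp

/-- shifted differences -/
theorem Typ_diff81 (γ : ℝ) (B : ℕ) : ∃ C : ℝ, 1 ≤ C ∧ ∀ (m : ℕ) (S : Sys m) (c : Fin m → ℝ),
    1 ≤ S.D → 0 ≤ S.ρ → S.ρ ≤ 1 → ∀ (Y : ℝ) (M : ℕ), Y + M ≤ 4 * S.D → ∀ (p : Phi m) (Λ E : ℝ),
    0 ≤ E → Typ S c (B + 1) (Y + M) p γ Λ E → ∀ h : ℕ, h < M →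
    Typ S c B Y (tau h p - p) γ 0 (C * (|Λ| + E) * (h / S.D)) ∧
    Typ S c B Y (tau h p - p) (γ - 1) (γ * Λ * (h / S.D))
      (E * (h / S.D) + C * |Λ| * (h / S.D) ^ 2) := by
  choose C0 hC0 hC using mdl_bound γ
  refine ⟨1 + ∑ b ∈ range (B + 3), C0 b, ?_, ?_⟩
  · have : 0 ≤ ∑ b ∈ range (B + 3), C0 b := Finset.sum_nonneg fun b _ => (hC0 b).le
    (clear * - this; linarith)
  intro m S c hD1 hρ0 hρ1 Y M hYM p Λ E hE hT h hh
  set C := 1 + ∑ b ∈ range (B + 3), C0 b with hCdef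
  have hD : 0 < S.D := by (clear * - hD1; linarith)
  have hC1 : 1 ≤ C := by
    have : 0 ≤ ∑ b ∈ range (B + 3), C0 b := Finset.sum_nonneg fun b _ => (hC0 b).le
    rw [hCdef]; (clear * - this; linarith)
  have hmdl : ∀ b, b < B + 3 → ∀ y, S.D ≤ y → y ≤ 4 * S.D → |mdl S γ b y| ≤ C / S.D ^ b := by
    intro b hb y hy hy4
    refine (hC b m S hD hρ0 (by (clear * - hD1 hρ1; linarith)) y hy hy4).trans ?_
    refine div_le_div_of_nonneg_right ?_ (by positivity)
    have h1 : C0 b ≤ ∑ b ∈ range (B + 3), C0 b :=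
      Finset.single_le_sum (fun i _ => (hC0 i).le) (Finset.mem_range.2 hb)
    rw [hCdef]; (clear * - h1; linarith)
  have hh0 : (0 : ℝ) ≤ h := Nat.cast_nonneg _
  have hhM : (h : ℝ) ≤ M := by exact_mod_cast hh.le
  exact by
    have key : ∀ b ≤ B, ∀ y, S.D ≤ y → y ≤ Y → ∀ κ A : ℝ,
        (∀ z, y ≤ z → z ≤ y + h → |jet S c (b + 1) p z - κ| ≤ A) →
        |jet S c b (tau h p - p) y - h * κ| ≤ A * h := by
      intro b hb y hy hyY κ A hA
      have hy0 : 0 < y := hD.trans_le hy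
      have hd : ∀ z ∈ Set.Icc y (y + h), HasDerivWithinAt (fun z => jet S c b p z - z * κ)
          (jet S c (b + 1) p z - κ) (Set.Icc y (y + h)) z := by
        intro z hz
        have h1 := jet_hasDeriv S c hD hρ0 b p z (hy0.trans_le hz.1)
        have h2 : HasDerivAt (fun z : ℝ => z * κ) κ z := by
          simpa using (hasDerivAt_id z).mul_const κ
        exact (h1.sub h2).hasDerivWithinAt
      have h1 := (convex_Icc y (y + h)).norm_image_sub_le_of_norm_hasDerivWithin_le hd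
        (C := A) (fun z hz => by rw [Real.norm_eq_abs]; exact hA z hz.1 hz.2)
        (Set.left_mem_Icc.2 (by (clear * -; linarith))) (Set.right_mem_Icc.2 (by (clear * -; linarith)))
      rw [Real.norm_eq_abs, Real.norm_eq_abs, add_sub_cancel_left, abs_of_nonneg hh0] at h1
      rw [jet_sub, jet_tau]
      have e1 : jet S c b p (y + h) - jet S c b p y - h * κ
          = jet S c b p (y + h) - (y + h) * κ - (jet S c b p y - y * κ) := by ring
      rw [e1]
      exact h1
    have hrange : ∀ y, S.D ≤ y → y ≤ Y → ∀ z, y ≤ z → z ≤ y + h →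
        S.D ≤ z ∧ z ≤ Y + M ∧ z ≤ 4 * S.D := by
      intro y hy hyY z hz hz'
      refine ⟨hy.trans hz, by (clear * - hhM hyY hz'; linarith), by linarith⟩
    constructor
    · intro b hb y hy hyY
      exact by
        have h1 := key b hb y hy hyY 0 ((C * (|Λ| + E)) / S.D ^ (b + 1)) (by
          intro z hz hz'
          obtain ⟨hz1, hz2, hz3⟩ := hrange y hy hyY z hz hz'
          have h2 := hT (b + 1) (by omega) z hz1 hz2
          have h3 := hmdl (b + 1) (by omega) z hz1 hz3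
          rw [sub_zero]
          have e1 : jet S c (b + 1) p z = (jet S c (b + 1) p z - Λ * mdl S γ (b + 1) z)
            + Λ * mdl S γ (b + 1) z := by ring
          rw [e1]
          refine (abs_add_le _ _).trans ?_
          rw [abs_mul]
          have h4 := mul_le_mul_of_nonneg_left h3 (abs_nonneg Λ)
          have h5 : E / S.D ^ (b + 1) ≤ C * E / S.D ^ (b + 1) :=
            div_le_div_of_nonneg_right (by (clear * - hE hC1; nlinarith)) (by positivity)
          have e2 : C * (|Λ| + E) / S.D ^ (b + 1)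
              = C * E / S.D ^ (b + 1) + |Λ| * (C / S.D ^ (b + 1)) := by ring
          rw [e2]
          (clear * - h2 h4 h5; linarith))
        rw [mul_zero, sub_zero] at h1
        rw [zero_mul, sub_zero]
        refine h1.trans (le_of_eq ?_)
        rw [pow_succ]
        (clear * - hD1 hC1; field_simp)
    · intro b hb y hy hyY
      exact by
        have h1 := key b hb y hy hyY (Λ * mdl S γ (b + 1) y)
          (E / S.D ^ (b + 1) + |Λ| * (C / S.D ^ (b + 2) * h)) (by
          intro z hz hz'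
          obtain ⟨hz1, hz2, hz3⟩ := hrange y hy hyY z hz hz'
          have h2 := hT (b + 1) (by omega) z hz1 hz2
          have hy0 : 0 < y := hD.trans_le hy
          have hd : ∀ x ∈ Set.Icc y (y + h), HasDerivWithinAt (mdl S γ (b + 1))
              (mdl S γ (b + 1 + 1) x) (Set.Icc y (y + h)) x := fun x hx =>
            (mdl_hasDeriv S γ hD hρ0 (b + 1) x (hy0.trans_le hx.1)).hasDerivWithinAt
          have h3 := (convex_Icc y (y + h)).norm_image_sub_le_of_norm_hasDerivWithin_le hd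
            (C := C / S.D ^ (b + 2)) (fun x hx => by
              rw [Real.norm_eq_abs]
              obtain ⟨hx1, _, hx3⟩ := hrange y hy hyY x hx.1 hx.2
              exact hmdl (b + 2) (by omega) x hx1 hx3)
            (Set.left_mem_Icc.2 (by (clear * -; linarith))) (Set.mem_Icc.2 ⟨hz, hz'⟩)
          rw [Real.norm_eq_abs, Real.norm_eq_abs, abs_of_nonneg (by (clear * - hz; linarith) : 0 ≤ z - y)] at h3
          have h3' : |mdl S γ (b + 1) z - mdl S γ (b + 1) y| ≤ C / S.D ^ (b + 2) * h :=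
            h3.trans (mul_le_mul_of_nonneg_left (by (clear * - hz'; linarith)) (by (clear * - hC1 hD1; positivity)))
          have e1 : jet S c (b + 1) p z - Λ * mdl S γ (b + 1) y
            = (jet S c (b + 1) p z - Λ * mdl S γ (b + 1) z)
            + Λ * (mdl S γ (b + 1) z - mdl S γ (b + 1) y) := by ring
          rw [e1]
          refine (abs_add_le _ _).trans ?_
          rw [abs_mul]
          have h4 := mul_le_mul_of_nonneg_left h3' (abs_nonneg Λ)
          (clear * - h2 h4; linarith))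
        have e0 : γ * Λ * (h / S.D) * mdl S (γ - 1) b y = h * (Λ * mdl S γ (b + 1) y) := by
          rw [mdl_succ S γ hD]
          ring
        rw [e0]
        refine h1.trans (le_of_eq ?_)
        rw [pow_succ, pow_succ, pow_succ]
        (clear * - hD1; field_simp)
        try ring

end Types81

end

end Pool.Agent.Helper57.NX

end
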