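import Pool.Agent.Helper23.MC.Inst

/-!
Parts of Helper64.NX.Blocks, Helper5.NX2.RatlCore, Helper25.NX2.Weyl, Helper7.NX.BaseCells, Helper87.NX.DlA, Helper88.NX.DlB, Helper8.NX.BaseLS, Helper41.NX.Gap, Helper8.NX2.BaseFin, Helper52.NX2.ArTopAux, Helper30.NX2.LocArithAux, Helper9.NX2.DlTotalAux, Helper94.NX2.LowCore, Helper21.NX2.ZeroAux, Helper46.NX2.ReplaceAp, Helper90.NX2.LocalMainOf, Helper87.NX2.LargeSieve, Helper57.NX3.PatStep, Helper57.FP.Energy, Helper51.NX3.Incr, Helper7.NX3.PairSieve, Helper52.NX3.BadRealOf, Helper87.NX3.ScalesOf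
-/

attribute [local instance 5000]
  Pool.Agent.Helper23.MC.Inst.rCharZero Pool.Agent.Helper23.MC.Inst.rALM
  Pool.Agent.Helper23.MC.Inst.rARM Pool.Agent.Helper23.MC.Inst.rALSM
  Pool.Agent.Helper23.MC.Inst.rARSM Pool.Agent.Helper23.MC.Inst.rARRLE
  Pool.Agent.Helper23.MC.Inst.rALRLE Pool.Agent.Helper23.MC.Inst.rARRLT
  Pool.Agent.Helper23.MC.Inst.rALRLT Pool.Agent.Helper23.MC.Inst.rPMRLT
  Pool.Agent.Helper23.MC.Inst.rMPRLT Pool.Agent.Helper23.MC.Inst.rPMM
  Pool.Agent.Helper23.MC.Inst.rMPM Pool.Agent.Helper23.MC.Inst.rPMSM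
  Pool.Agent.Helper23.MC.Inst.rMPSM Pool.Agent.Helper23.MC.Inst.rEAOL
  Pool.Agent.Helper23.MC.Inst.rIOR Pool.Agent.Helper23.MC.Inst.rISOR
  Pool.Agent.Helper23.MC.Inst.rNZD Pool.Agent.Helper23.MC.Inst.rcCharZero
  Pool.Agent.Helper23.MC.Inst.rcNZD Pool.Agent.Helper23.MC.Inst.zCharZero
  Pool.Agent.Helper23.MC.Inst.zALM Pool.Agent.Helper23.MC.Inst.zARM
  Pool.Agent.Helper23.MC.Inst.zALSM Pool.Agent.Helper23.MC.Inst.zARSM
  Pool.Agent.Helper23.MC.Inst.zIOR Pool.Agent.Helper23.MC.Inst.zISOR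
  Pool.Agent.Helper23.MC.Inst.zNZD Pool.Agent.Helper23.MC.Inst.qCharZero
  Pool.Agent.Helper23.MC.Inst.mR Pool.Agent.Helper23.MC.Inst.mC Pool.Agent.Helper23.MC.Inst.mRC
  Pool.Agent.Helper23.MC.Inst.rPSM Pool.Agent.Helper23.MC.Inst.rCSM
  Pool.Agent.Helper23.MC.Inst.cAdd Pool.Agent.Helper23.MC.Inst.cAddM
  Pool.Agent.Helper23.MC.Inst.cMul Pool.Agent.Helper23.MC.Inst.cMon

namespace Pool.Agent.Helper44
end Pool.Agent.Helper44
namespace Pool.Agent.Helper57.FP
end Pool.Agent.Helper57.FP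
namespace Pool.Agent.Helper57.NX
end Pool.Agent.Helper57.NX
namespace Pool.Agent.Helper96.CPAP
end Pool.Agent.Helper96.CPAP

section

set_option autoImplicit false

open Finset

open scoped BigOperators ComplexConjugate

namespace Pool.Agent.Helper57.NX

noncomputable section

section Blocks64

variable {N : ℕ} [NeZero N]

/-- `p` is the last point of a block of length `X` (counted from `r`), or the last point of the
circle. -/
def chg64 (X : ℕ) (r p : ZMod N) : Prop := (p - r).val + 1 = N ∨ X ∣ (p - r).val + 1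

lemma val_succ64 {r p : ZMod N} (h : (p - r).val + 1 ≠ N) :
    (p + 1 - r).val = (p - r).val + 1 := by
  have hlt := ZMod.val_lt (p - r)
  have hN1 : N ≠ 1 := by
    rintro rfl
    omega
  have h1 : (1 : ZMod N).val = 1 := ZMod.val_one'' hN1
  have h2 : p + 1 - r = (p - r) + 1 := by ring
  rw [h2, ZMod.val_add_of_lt (by rw [h1]; omega), h1]

lemma nochg64 {X : ℕ} {r p : ZMod N} (y : ℕ)
    (h : ∀ t < y, ¬ chg64 X r (p + (t : ZMod N))) :
    (p + (y : ZMod N) - r).val = (p - r).val + y ∧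
      (p + (y : ZMod N) - r).val / X = (p - r).val / X := by
  induction y with
  | zero => simp
  | succ y ih =>
    obtain ⟨h1, h2⟩ := ih fun t ht => h t (by omega)
    have h3 := h y (by omega)
    unfold chg64 at h3
    rw [not_or] at h3
    have h4 := val_succ64 h3.1
    have h5 : p + ((y + 1 : ℕ) : ZMod N) - r = p + (y : ZMod N) + 1 - r := by push_cast; ring
    rw [h5, h4]
    refine ⟨by omega, ?_⟩
    rw [Nat.succ_div_of_not_dvd h3.2, h2]

lemma chg_count64 {X : ℕ} (hX : 1 ≤ X) (hXN : X ≤ N) (r x : ZMod N) [DecidablePred (chg64 X r)] :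
    #((range X).filter fun j : ℕ => chg64 X r (x + (j : ZMod N))) ≤ 2 := by
  classical
  set v := (x - r).val with hv
  have hvN : v < N := ZMod.val_lt _
  have hsub : ((range X).filter fun j : ℕ => chg64 X r (x + (j : ZMod N))) ⊆
      ((range X).filter fun j : ℕ => v + j + 1 = N) ∪
        ((range X).filter fun j : ℕ => X ∣ v + j + 1) := by
    intro j hj
    rw [mem_filter, mem_range] at hj
    obtain ⟨hjX, hj⟩ := hj
    have hjN : j < N := by omega
    have e1 : x + (j : ZMod N) - r = (x - r) + (j : ZMod N) := by ring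
    have e2 : (x + (j : ZMod N) - r).val = (v + j) % N := by
      rw [e1, ZMod.val_add, ZMod.val_natCast, Nat.mod_eq_of_lt hjN]
    unfold chg64 at hj
    rw [e2] at hj
    rw [mem_union, mem_filter, mem_filter, mem_range]
    rcases lt_or_ge (v + j) N with hlt | hge
    · rw [Nat.mod_eq_of_lt hlt] at hj
      rcases hj with hj | hj
      · exact Or.inl ⟨hjX, hj⟩
      · exact Or.inr ⟨hjX, hj⟩
    · exfalso
      have e3 : (v + j) % N = v + j - N := by
        rw [Nat.mod_eq_sub_mod hge, Nat.mod_eq_of_lt (by omega)]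
      rw [e3] at hj
      rcases hj with hj | hj
      · omega
      · have := Nat.le_of_dvd (by omega) hj
        omega
  refine (card_le_card hsub).trans ((card_union_le _ _).trans ?_)
  have h1 : #((range X).filter fun j : ℕ => v + j + 1 = N) ≤ 1 := by
    rw [card_le_one]
    intro a ha b hb
    rw [mem_filter] at ha hb
    omega
  have h2 : #((range X).filter fun j : ℕ => X ∣ v + j + 1) ≤ 1 := by
    rw [card_le_one]
    intro a ha b hb
    rw [mem_filter, mem_range] at ha hb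
    have key : ∀ a b : ℕ, a ≤ b → b < X → X ∣ v + a + 1 → X ∣ v + b + 1 → a = b := by
      intro a b hab hb h1 h2
      have h3 : X ∣ b - a := by
        have := Nat.dvd_sub h2 h1
        have e : v + b + 1 - (v + a + 1) = b - a := by omega
        rwa [e] at this
      by_contra hne
      have := Nat.le_of_dvd (by omega) h3
      omega
    rcases le_total a b with hab | hab
    · exact key a b hab hb.1 ha.2 hb.2
    · exact (key b a hab ha.1 hb.2 ha.2).symm
  omega

end Blocks64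

end

end Pool.Agent.Helper57.NX

end

section

set_option autoImplicit false

open Finset

open scoped BigOperators ComplexConjugate

namespace Pool.Agent.Helper67.NX2

open Pool.Agent.Helper57.NX

noncomputable section

/-- the arithmetic of the top term -/
theorem rt5_top (n : ℕ) (w θ : ℝ) (A : ℤ) (Q x y : ℕ) (hQ : 1 ≤ Q) (hA : Q * w = A + θ)
    (hxy : (Q : ℤ) ∣ (y : ℤ) - x) :
    ∃ k : ℤ, w * (y : ℝ) ^ n - w * (x : ℝ) ^ n - k = θ / Q * ((y : ℝ) ^ n - (x : ℝ) ^ n) := by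
  have hQ0 : (Q : ℝ) ≠ 0 := by
    have : (0 : ℝ) < Q := by exact_mod_cast hQ
    exact this.ne'
  obtain ⟨k0, hk0⟩ : (Q : ℤ) ∣ (y : ℤ) ^ n - (x : ℤ) ^ n := hxy.trans (sub_dvd_pow_sub_pow _ _ n)
  refine ⟨A * k0, ?_⟩
  have h1 : (y : ℝ) ^ n - (x : ℝ) ^ n = Q * k0 := by exact_mod_cast hk0
  have h2 : w = (A + θ) / Q := by
    rw [← hA]; (clear * - hQ0; field_simp)
  have h3 : w * (y : ℝ) ^ n - w * (x : ℝ) ^ n = w * ((y : ℝ) ^ n - (x : ℝ) ^ n) := by ring
  push_cast
  rw [h3, h1, h2]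
  field_simp
  ring

/-- `y^(n+1) - x^(n+1) ≤ (n+1) (y-x) Z^n` -/
theorem rt5_powdiff (n : ℕ) {x y Z : ℝ} (hx : 0 ≤ x) (hxy : x ≤ y) (hy : y ≤ Z) :
    |y ^ (n + 1) - x ^ (n + 1)| ≤ (n + 1) * (y - x) * Z ^ n := by
  have h0 : x ^ (n + 1) ≤ y ^ (n + 1) := pow_le_pow_left₀ hx hxy _
  rw [abs_of_nonneg (by linarith)]
  have h1 : y ^ (n + 1) - x ^ (n + 1) = (y - x) * ∑ i ∈ range (n + 1), x ^ i * y ^ (n - i) := by
    have := (Commute.all x y).mul_geom_sum₂ (n + 1)
    have h2 := (Commute.all y x).mul_geom_sum₂ (n + 1)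
    have h3 : ∑ i ∈ range (n + 1), x ^ i * y ^ (n - i) =
        ∑ i ∈ range (n + 1), x ^ i * y ^ (n + 1 - 1 - i) := by simp
    rw [h3]
    (clear * - this; linarith)
  rw [h1]
  have h2 : ∑ i ∈ range (n + 1), x ^ i * y ^ (n - i) ≤ (n + 1) * Z ^ n := by
    calc ∑ i ∈ range (n + 1), x ^ i * y ^ (n - i) ≤ ∑ i ∈ range (n + 1), Z ^ n := by
          refine sum_le_sum fun i hi => ?_
          have hi' : i ≤ n := by have := mem_range.mp hi; omega
          have hy0 : 0 ≤ y := hx.trans hxy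
          calc x ^ i * y ^ (n - i) ≤ Z ^ i * Z ^ (n - i) :=
                mul_le_mul (pow_le_pow_left₀ hx (hxy.trans hy) _)
                  (pow_le_pow_left₀ hy0 hy _) (pow_nonneg hy0 _)
                  (pow_nonneg (hy0.trans hy) _)
            _ = Z ^ n := by rw [← pow_add]; congr 1; omega
      _ = (n + 1) * Z ^ n := by simp
  calc (y - x) * ∑ i ∈ range (n + 1), x ^ i * y ^ (n - i) ≤ (y - x) * ((n + 1) * Z ^ n) :=
        mul_le_mul_of_nonneg_left h2 (by (clear * - hxy; linarith))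
    _ = (n + 1) * (y - x) * Z ^ n := by ring

end

end Pool.Agent.Helper67.NX2

end

section

set_option autoImplicit false

open Finset

open scoped BigOperators ComplexConjugate

namespace Pool.Agent.Helper67.NX2

open Pool.Agent.Helper57.NX

noncomputable section

theorem sum_pairs25 (F : ℕ → ℕ → ℂ) (K : ℕ) :
    ∑ j ∈ range K, ∑ i ∈ range j, F i j = ∑ h ∈ Ico 1 K, ∑ i ∈ range (K - h), F i (i + h) := by
  rw [Finset.sum_sigma', Finset.sum_sigma']
  refine Finset.sum_nbij' (fun x => ⟨x.1 - x.2, x.2⟩) (fun x => ⟨x.2 + x.1, x.2⟩) ?_ ?_ ?_ ?_ ?_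
  · rintro ⟨j, i⟩ h
    simp only [mem_sigma, mem_range, mem_Ico] at h ⊢
    omega
  · rintro ⟨h, i⟩ hh
    simp only [mem_sigma, mem_range, mem_Ico] at hh ⊢
    omega
  · rintro ⟨j, i⟩ h
    simp only [mem_sigma, mem_range] at h
    have : i + (j - i) = j := by omega
    simp [this]
  · rintro ⟨h, i⟩ hh
    have : i + h - i = h := by omega
    simp [this]
  · rintro ⟨j, i⟩ h
    simp only [mem_sigma, mem_range] at h
    have : i + (j - i) = j := by omega
    simp [this]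

theorem vdc25 (z : ℕ → ℂ) (hz : ∀ j, ‖z j‖ = 1) (K : ℕ) :
    ‖∑ j ∈ range K, z j‖ ^ 2 ≤
      K + 2 * ∑ h ∈ Ico 1 K, ‖∑ i ∈ range (K - h), conj (z i) * z (i + h)‖ := by
  have h1 : ∀ K : ℕ, ‖∑ j ∈ range K, z j‖ ^ 2 =
      K + 2 * (∑ j ∈ range K, ∑ i ∈ range j, conj (z i) * z j).re := by
    intro K
    induction K with
    | zero => simp
    | succ K ih =>
      rw [Finset.sum_range_succ, Finset.sum_range_succ, Complex.add_re]
      have h2 : ‖∑ j ∈ range K, z j + z K‖ ^ 2 =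
          ‖∑ j ∈ range K, z j‖ ^ 2 + ‖z K‖ ^ 2 + 2 * (conj (∑ j ∈ range K, z j) * z K).re := by
        rw [← Complex.normSq_eq_norm_sq, ← Complex.normSq_eq_norm_sq, ← Complex.normSq_eq_norm_sq,
          Complex.normSq_add]
        congr 2
        simp only [Complex.mul_re, Complex.conj_re, Complex.conj_im]
        ring
      rw [h2, ih, hz K, map_sum, Finset.sum_mul]
      push_cast
      ring
  rw [h1 K, sum_pairs25 (fun i j => conj (z i) * z j) K]
  have h3 : (∑ h ∈ Ico 1 K, ∑ i ∈ range (K - h), conj (z i) * z (i + h)).re ≤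
      ∑ h ∈ Ico 1 K, ‖∑ i ∈ range (K - h), conj (z i) * z (i + h)‖ :=
    (Complex.re_le_norm _).trans (norm_sum_le _ _)
  linarith

end

end Pool.Agent.Helper67.NX2

end

section

set_option autoImplicit false

open Finset

open scoped BigOperators ComplexConjugate

namespace Pool.Agent.Helper57.NX

noncomputable section

/-- Cutting off. -/
theorem tv_cut7 (g : ℕ → ℂ) (hg : ∀ v, ‖g v‖ ≤ 1) (B X : ℝ) (hX : 0 < X)
    (hv : ∀ a l : ℕ, ∑ j ∈ range l, ‖g (a + j + 1) - g (a + j)‖ ≤ B * (l / X + 1)) (R : ℕ)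
    (a l : ℕ) :
    ∑ j ∈ range l, ‖(if a + j + 1 < R then g (a + j + 1) else 0) -
      (if a + j < R then g (a + j) else 0)‖ ≤ (B + 1) * (l / X + 1) := by
  have h1 : ∀ j ∈ range l, ‖(if a + j + 1 < R then g (a + j + 1) else 0) -
      (if a + j < R then g (a + j) else 0)‖ ≤ ‖g (a + j + 1) - g (a + j)‖ +
        (if j = R - 1 - a then 1 else 0) := by
    intro j _
    by_cases h1 : a + j + 1 < R
    · have h2 : a + j < R := by omega
      rw [if_pos h1, if_pos h2]
      have : (0 : ℝ) ≤ (if j = R - 1 - a then 1 else 0) := by split_ifs <;> norm_num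
      (clear * - this; linarith)
    · rw [if_neg h1]
      by_cases h2 : a + j < R
      · have h3 : j = R - 1 - a := by omega
        rw [if_pos h2, if_pos h3, zero_sub, norm_neg]
        have := hg (a + j)
        have := norm_nonneg (g (a + j + 1) - g (a + j))
        exact by
          linarith
      · rw [if_neg h2, sub_zero, norm_zero]
        have : (0 : ℝ) ≤ (if j = R - 1 - a then 1 else 0) := by split_ifs <;> norm_num
        have := norm_nonneg (g (a + j + 1) - g (a + j))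
        linarith
  refine (sum_le_sum h1).trans ?_
  rw [sum_add_distrib]
  have h2 : ∑ j ∈ range l, (if j = R - 1 - a then (1 : ℝ) else 0) ≤ 1 := by
    rw [sum_ite_eq']
    split_ifs <;> norm_num
  have h3 := hv a l
  have h4 : (0 : ℝ) ≤ l / X := by (clear * - hX; positivity)
  (clear * - h2 h3 h4; nlinarith)

end

end Pool.Agent.Helper57.NX

end

section

set_option autoImplicit false

open Finset

open scoped BigOperators ComplexConjugate

namespace Pool.Agent.Helper57.NX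

noncomputable section

section dla_num

theorem dla_pow_le_half {δ : ℝ} (h0 : 0 < δ) (h1 : δ ≤ 1 / 2) (m : ℕ) : δ ^ m ≤ (1 / 2) ^ m :=
  pow_le_pow_left₀ h0.le h1 m

theorem dla_num1 {δ : ℝ} (h0 : 0 < δ) (h1 : δ ≤ 1 / 2) (n k : ℕ) {X X' : ℝ} (hX : 0 < X)
    (h : X' ≤ δ ^ (n + k + 3) * X) : (k : ℝ) * (4 * X' / X) ≤ δ ^ n / 2 := by
  have h2 : X' / X ≤ δ ^ (n + k + 3) := by
    rwa [div_le_iff₀ hX]
  have h3 : δ ^ (n + k + 3) = δ ^ n * δ ^ (k + 3) := by
    rw [add_assoc, pow_add]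
  have h4 := dla_pow_le_half h0 h1 (k + 3)
  have h5 : (k : ℝ) * (1 / 2) ^ k ≤ 1 := by
    have h6 : (k : ℝ) ≤ 2 ^ k := by exact_mod_cast (Nat.lt_two_pow_self (n := k)).le
    rw [one_div, inv_pow, ← div_eq_mul_inv, div_le_one (by positivity)]
    exact h6
  have hn : 0 < δ ^ n := pow_pos h0 n
  calc (k : ℝ) * (4 * X' / X) = 4 * (k : ℝ) * (X' / X) := by ring
    _ ≤ 4 * (k : ℝ) * (δ ^ n * (1 / 2) ^ (k + 3)) := by
        refine mul_le_mul_of_nonneg_left ?_ (by (clear * -; positivity))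
        rw [h3] at h2
        exact h2.trans (mul_le_mul_of_nonneg_left h4 hn.le)
    _ = (k * (1 / 2) ^ k) * (δ ^ n / 2) := by
        rw [pow_add]
        ring
    _ ≤ 1 * (δ ^ n / 2) := mul_le_mul_of_nonneg_right h5 (by positivity)
    _ = δ ^ n / 2 := one_mul _

theorem dla_num2 {δ : ℝ} (h0 : 0 < δ) (h1 : δ ≤ 1 / 2) (n k : ℕ) {X N : ℝ} (hN : 0 < N)
    (h : X ≤ δ ^ (n + k + 3) * N) : 2 * X / N ≤ δ ^ n / 4 := by
  have h2 : X / N ≤ δ ^ (n + k + 3) := by
    rwa [div_le_iff₀ hN]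
  have h3 : δ ^ (n + k + 3) = δ ^ n * δ ^ k * δ ^ 3 := by
    rw [pow_add, pow_add]
  have h4 := dla_pow_le_half h0 h1 3
  have h5 : δ ^ k ≤ 1 := pow_le_one₀ h0.le (by (clear * - h0 h1; linarith))
  have hn : 0 < δ ^ n := pow_pos h0 n
  have hk : 0 < δ ^ k := pow_pos h0 k
  have h6 : δ ^ n * δ ^ k ≤ δ ^ n * 1 := mul_le_mul_of_nonneg_left h5 hn.le
  have h7 : δ ^ n * δ ^ k * δ ^ 3 ≤ δ ^ n * 1 * (1 / 2) ^ 3 :=
    mul_le_mul h6 h4 (by positivity) (by positivity)
  calc 2 * X / N = 2 * (X / N) := by ring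
    _ ≤ 2 * (δ ^ n * 1 * (1 / 2) ^ 3) := by linarith
    _ = δ ^ n / 4 := by ring

theorem dla_num3 {δ : ℝ} (h0 : 0 < δ) (h1 : δ ≤ 1 / 2) (n k e' : ℕ) :
    δ ^ ((n + 5) * (2 ^ k + 1) + e') ≤ (δ ^ n / 32) ^ (2 ^ k + 1) := by
  have h2 : δ ^ (n + 5) ≤ δ ^ n / 32 := by
    have h3 := dla_pow_le_half h0 h1 5
    rw [pow_add]
    calc δ ^ n * δ ^ 5 ≤ δ ^ n * (1 / 2) ^ 5 := mul_le_mul_of_nonneg_left h3 (by positivity)
      _ = δ ^ n / 32 := by ring
  calc δ ^ ((n + 5) * (2 ^ k + 1) + e') ≤ δ ^ ((n + 5) * (2 ^ k + 1)) :=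
        pow_le_pow_of_le_one h0.le (by (clear * - h0 h1; linarith)) (by omega)
    _ = (δ ^ (n + 5)) ^ (2 ^ k + 1) := by rw [pow_mul]
    _ ≤ _ := pow_le_pow_left₀ (by positivity) h2 _

end dla_num

end

end Pool.Agent.Helper57.NX

end

section

set_option autoImplicit false

set_option linter.unusedSectionVars false

set_option linter.unusedVariables false

open Finset

open scoped BigOperators ComplexConjugate

namespace Pool.Agent.Helper57.NX

noncomputable section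

section point

variable {N : ℕ} [NeZero N]

/-- blocks cover at most everything -/
theorem db_blocks (G : ZMod N → ℝ) (hG : ∀ x, 0 ≤ G x) (X : ℕ) (hX : 1 ≤ X)
    (hXN : 2 * X ≤ N) (r : ZMod N) :
    𝔼 j ∈ range (N / X), 𝔼 t ∈ range X, G (r + ((j * X + t : ℕ) : ZMod N))
      ≤ 2 * 𝔼 x, G x := by
  have hsum : ∀ (K : ℕ) (g : ℕ → ℝ), ∑ j ∈ range K, ∑ t ∈ range X, g (j * X + t)
      = ∑ s ∈ range (K * X), g s := by
    intro K g
    induction K with
    | zero => simp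
    | succ K ih => rw [sum_range_succ, ih, add_mul, one_mul, sum_range_add]
  have hN0 : 0 < N := NeZero.pos N
  have hK1 : 1 ≤ N / X := (Nat.one_le_div_iff (by omega)).mpr (by omega)
  have hKN : N / X * X ≤ N := Nat.div_mul_le_self N X
  have hKN2 : N ≤ 2 * (N / X * X) := by
    have := Nat.lt_div_mul_add (a := N) (b := X) (by omega)
    (clear * - hXN this; omega)
  have h1 : 𝔼 j ∈ range (N / X), 𝔼 t ∈ range X, G (r + ((j * X + t : ℕ) : ZMod N))
      = (∑ s ∈ range (N / X * X), G (r + (s : ZMod N))) / ((N / X * X : ℕ) : ℝ) := by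
    rw [expect_eq_sum_div_card, card_range]
    have : ∀ j ∈ range (N / X), 𝔼 t ∈ range X, G (r + ((j * X + t : ℕ) : ZMod N))
        = (∑ t ∈ range X, G (r + ((j * X + t : ℕ) : ZMod N))) / X := by
      intro j _
      rw [expect_eq_sum_div_card, card_range]
    rw [sum_congr rfl this, ← sum_div, hsum (N / X) (fun s => G (r + (s : ZMod N))), div_div]
    congr 1
    push_cast
    ring
  exact by
    have h2 : ∑ s ∈ range (N / X * X), G (r + (s : ZMod N)) ≤ ∑ x, G x := by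
      have hinj : Set.InjOn (fun s : ℕ => r + (s : ZMod N)) (range (N / X * X)) := by
        intro s hs t ht hst
        have hs' : s < N := lt_of_lt_of_le (by simpa using hs) hKN
        have ht' : t < N := lt_of_lt_of_le (by simpa using ht) hKN
        have h3 : (s : ZMod N) = (t : ZMod N) := add_left_cancel hst
        have h4 := congrArg ZMod.val h3
        rwa [ZMod.val_natCast_of_lt hs', ZMod.val_natCast_of_lt ht'] at h4
      rw [← sum_image (f := G) hinj]
      exact sum_le_sum_of_subset_of_nonneg (subset_univ _) fun x _ _ => hG x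
    have h3 : 𝔼 x, G x = (∑ x, G x) / N := by
      rw [Fintype.expect_eq_sum_div_card, ZMod.card]
    rw [h1, h3]
    have hS : 0 ≤ ∑ x, G x := sum_nonneg fun x _ => hG x
    have hN0' : (0 : ℝ) < N := by exact_mod_cast hN0
    have hM0 : (0 : ℝ) < ((N / X * X : ℕ) : ℝ) := by
      have : 0 < N / X * X := by omega
      exact_mod_cast this
    have hKN2' : (N : ℝ) ≤ 2 * ((N / X * X : ℕ) : ℝ) := by exact_mod_cast hKN2
    exact by
      calc (∑ s ∈ range (N / X * X), G (r + (s : ZMod N))) / ((N / X * X : ℕ) : ℝ)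
          ≤ (∑ x, G x) / ((N / X * X : ℕ) : ℝ) := by (clear * - h2 hK1 hX; gcongr)
        _ ≤ 2 * ((∑ x, G x) / N) := by
          rw [div_le_iff₀ hM0, mul_assoc, div_mul_eq_mul_div, ← mul_div_assoc, le_div_iff₀ hN0']
          (clear * - hS hKN2'; nlinarith)

end point

end

end Pool.Agent.Helper57.NX

end

section

set_option autoImplicit false

open Finset

open scoped BigOperators ComplexConjugate

namespace Pool.Agent.Helper57.NX

noncomputable section

theorem rpow_bounds8 (γ ξ : ℝ) (h1 : 1 ≤ ξ) (h4 : ξ ≤ 4) :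
    (4 : ℝ) ^ (-|γ|) ≤ ξ ^ γ ∧ ξ ^ γ ≤ (4 : ℝ) ^ |γ| := by
  have h0 : 0 < ξ := by linarith
  constructor
  · calc (4 : ℝ) ^ (-|γ|) ≤ ξ ^ (-|γ|) := Real.rpow_le_rpow_of_nonpos h0 h4 (by simp)
      _ ≤ ξ ^ γ := Real.rpow_le_rpow_of_exponent_le h1 (neg_abs_le γ)
  · calc ξ ^ γ ≤ ξ ^ |γ| := Real.rpow_le_rpow_of_exponent_le h1 (le_abs_self γ)
      _ ≤ 4 ^ |γ| := Real.rpow_le_rpow h0.le h4 (abs_nonneg _)

theorem mv8 (γ s s' : ℝ) (h1 : 1 ≤ s) (h : s < s') :
    ∃ ξ, s < ξ ∧ ξ < s' ∧ s' ^ γ - s ^ γ = γ * ξ ^ (γ - 1) * (s' - s) := by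
  obtain ⟨ξ, hξ, h2⟩ := exists_hasDerivAt_eq_slope (fun x => x ^ γ) (fun x => γ * x ^ (γ - 1)) h
    (fun x hx => (Real.continuousAt_rpow_const x γ
      (Or.inl (by have := hx.1; linarith))).continuousWithinAt)
    (fun x hx => Real.hasDerivAt_rpow_const (Or.inl (by have := hx.1; linarith)))
  refine ⟨ξ, hξ.1, hξ.2, ?_⟩
  have h3 : s' - s ≠ 0 := by (clear * - h; linarith)
  rw [h2, div_mul_cancel₀ _ h3]

/-- Lipschitz constant -/
def Lc8 (γ : ℝ) : ℝ := |γ| * (4 : ℝ) ^ |γ - 1|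

theorem Lc8_nonneg (γ : ℝ) : 0 ≤ Lc8 γ := by unfold Lc8; positivity

theorem lip8 (γ s s' : ℝ) (h1 : 1 ≤ s) (h : s ≤ s') (h4 : s' ≤ 4) :
    |s' ^ γ - s ^ γ| ≤ Lc8 γ * (s' - s) := by
  rcases h.eq_or_lt with rfl | h
  · simp
  obtain ⟨ξ, h2, h3, h5⟩ := mv8 γ s s' h1 h
  rw [h5, abs_mul, abs_mul, abs_of_pos (sub_pos.2 h),
    abs_of_nonneg (Real.rpow_nonneg (by linarith) _)]
  unfold Lc8
  have := (rpow_bounds8 (γ - 1) ξ (by (clear * - h1 h2; linarith)) (by linarith)).2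
  have h6 := sub_pos.2 h
  gcongr

end

end Pool.Agent.Helper57.NX

end

section

set_option autoImplicit false

open Finset

open scoped BigOperators ComplexConjugate

namespace Pool.Agent.Helper41.NX

open Pool.Agent.Helper57.NX

noncomputable section

theorem rpow_lip (p a b : ℝ) (ha : 0 < a) : ∃ C : ℝ, 0 < C ∧ ∀ x ∈ Set.Icc a b,
    ∀ y ∈ Set.Icc a b, |x ^ p - y ^ p| ≤ C * |x - y| := by
  have hcont : ContinuousOn (fun x : ℝ => p * x ^ (p - 1)) (Set.Icc a b) := by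
    apply ContinuousOn.mul continuousOn_const
    apply ContinuousOn.rpow_const continuousOn_id
    intro x hx
    left
    exact (ha.trans_le hx.1).ne'
  obtain ⟨C, hC⟩ := isCompact_Icc.exists_bound_of_continuousOn hcont
  refine ⟨max C 1, by positivity, fun x hx y hy => ?_⟩
  have h := (convex_Icc a b).norm_image_sub_le_of_norm_hasDerivWithin_le
    (f := fun x : ℝ => x ^ p) (f' := fun x => p * x ^ (p - 1)) (C := max C 1)
    (fun z hz => (Real.hasDerivAt_rpow_const (Or.inl (ha.trans_le hz.1).ne')).hasDerivWithinAt)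
    (fun z hz => (hC z hz).trans (le_max_left _ _)) hy hx
  simpa [Real.norm_eq_abs] using h

theorem rpow_taylor (p a b : ℝ) (ha : 0 < a) : ∃ C : ℝ, 0 < C ∧ ∀ x ∈ Set.Icc a b,
    ∀ y ∈ Set.Icc a b, |x ^ p - y ^ p - p * y ^ (p - 1) * (x - y)| ≤ C * (x - y) ^ 2 := by
  obtain ⟨C, hC0, hC⟩ := rpow_lip (p - 1) a b ha
  refine ⟨|p| * C + 1, by (clear * - hC0; positivity), fun x hx y hy => ?_⟩
  have hsub : Set.uIcc y x ⊆ Set.Icc a b := Set.uIcc_subset_Icc hy hx
  have h := (convex_uIcc y x).norm_image_sub_le_of_norm_hasDerivWithin_le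
    (f := fun z : ℝ => z ^ p - p * y ^ (p - 1) * z)
    (f' := fun z => p * z ^ (p - 1) - p * y ^ (p - 1) * 1) (C := |p| * (C * |x - y|))
    (fun z hz => ((Real.hasDerivAt_rpow_const
      (Or.inl (ha.trans_le (hsub hz).1).ne')).sub ((hasDerivAt_id z).const_mul _)).hasDerivWithinAt)
    (fun z hz => ?_) (Set.left_mem_uIcc) (Set.right_mem_uIcc)
  · rw [Real.norm_eq_abs, Real.norm_eq_abs] at h
    have h1 : x ^ p - y ^ p - p * y ^ (p - 1) * (x - y) =
        (x ^ p - p * y ^ (p - 1) * x) - (y ^ p - p * y ^ (p - 1) * y) := by ring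
    rw [h1]
    refine h.trans ?_
    have h2 : |p| * (C * |x - y|) * |x - y| = |p| * C * (x - y) ^ 2 := by
      rw [← sq_abs (x - y)]; ring
    rw [h2]
    (clear * -; nlinarith [sq_nonneg (x - y)])
  · rw [Real.norm_eq_abs, mul_one, ← mul_sub, abs_mul]
    apply mul_le_mul_of_nonneg_left _ (abs_nonneg _)
    refine (hC z (hsub hz) y hy).trans ?_
    apply mul_le_mul_of_nonneg_left _ hC0.le
    have := Set.abs_sub_left_of_mem_uIcc hz
    exact this

end

end Pool.Agent.Helper41.NX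

end

section

set_option autoImplicit false

open Finset

open scoped BigOperators ComplexConjugate

namespace Pool.Agent.Helper67.NX2

open Pool.Agent.Helper57.NX

noncomputable section

/-- splitting an interval into residue classes -/
theorem sum_split8 (q u' T' : ℕ) (G : ℕ → ℝ) :
    ∑ k ∈ Ico (q * u') (q * (u' + T')), G k =
      ∑ r ∈ range q, ∑ i ∈ Ico u' (u' + T'), G (q * i + r) := by
  rw [sum_comm]
  induction T' with
  | zero => simp
  | succ T ih =>
    rw [← Finset.sum_Ico_consecutive _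
      (show q * u' ≤ q * (u' + T) from Nat.mul_le_mul_left _ (by omega))
      (show q * (u' + T) ≤ q * (u' + (T + 1)) from Nat.mul_le_mul_left _ (by omega)), ih,
      ← add_assoc u' T 1, Finset.sum_Ico_succ_top (by omega)]
    congr 1
    rw [Finset.sum_Ico_eq_sum_range]
    have : q * (u' + T + 1) - q * (u' + T) = q := by
      rw [Nat.mul_succ]
      omega
    rw [this]

/-- the average over an interval in terms of averages over residue classes -/
theorem avg_split8 (u T q u' T' : ℕ) (hq : 1 ≤ q) (hT : 0 < T) (hT' : 0 < T')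
    (h1 : u ≤ q * u') (h2 : q * (u' + T') ≤ u + T) (h3 : T ≤ q * T' + 3 * q)
    (G : ℕ → ℝ) (h0 : ∀ k, 0 ≤ G k) (hG : ∀ k, G k ≤ 1) :
    𝔼 k ∈ Ico u (u + T), G k ≤
      𝔼 r ∈ range q, 𝔼 i ∈ Ico u' (u' + T'), G (q * i + r) + 3 * q / T := by
  have hTr : (0 : ℝ) < T := by exact_mod_cast hT
  have hTr' : (0 : ℝ) < T' := by exact_mod_cast hT'
  have hqr : (0 : ℝ) < q := by exact_mod_cast hq
  have hqT : q * T' ≤ T := by
    rw [Nat.mul_add] at h2
    omega
  have hqTr : (q : ℝ) * T' ≤ T := by exact_mod_cast hqT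
  have hsub : Ico (q * u') (q * (u' + T')) ⊆ Ico u (u + T) := by
    intro k hk
    rw [mem_Ico] at hk ⊢
    omega
  exact by
    have hsum : ∑ k ∈ Ico u (u + T), G k ≤
        ∑ k ∈ Ico (q * u') (q * (u' + T')), G k + 3 * q := by
      rw [← sum_sdiff hsub, add_comm]
      refine add_le_add_right ?_ _
      refine (sum_le_card_nsmul _ _ 1 fun k _ => hG k).trans ?_
      rw [nsmul_eq_mul, mul_one, card_sdiff_of_subset hsub, Nat.card_Ico, Nat.card_Ico]
      have h4 : u + T - u - (q * (u' + T') - q * u') ≤ 3 * q := by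
        rw [Nat.mul_add]
        omega
      exact_mod_cast h4
    have hA0 : 0 ≤ ∑ k ∈ Ico (q * u') (q * (u' + T')), G k := sum_nonneg fun k _ => h0 k
    rw [expect_eq_sum_div_card, expect_eq_sum_div_card, Nat.card_Ico, card_range]
    have hin : ∀ r ∈ range q, 𝔼 i ∈ Ico u' (u' + T'), G (q * i + r) =
        (∑ i ∈ Ico u' (u' + T'), G (q * i + r)) / T' := by
      intro r _
      rw [expect_eq_sum_div_card, Nat.card_Ico, Nat.add_sub_cancel_left]
    rw [sum_congr rfl hin, ← sum_div, ← sum_split8, Nat.add_sub_cancel_left, div_div]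
    calc (∑ k ∈ Ico u (u + T), G k) / T ≤
          (∑ k ∈ Ico (q * u') (q * (u' + T')), G k + 3 * q) / T := by (clear * - hsum hT; gcongr)
      _ = (∑ k ∈ Ico (q * u') (q * (u' + T')), G k) / T + 3 * q / T := add_div _ _ _
      _ ≤ _ := by
          gcongr
          (clear * - hqTr; linarith)

/-- the covering of a positive number by the classes -/
theorem cover8 {D ε2 : ℝ} (hD : 1 ≤ D) {J : ℕ} (hJ : 2 / 7 < ε2 * (7 / 6 : ℝ) ^ (J + 1))
    {M : ℝ} (h0 : D ^ ε2 ≤ M) (h1 : M ≤ D ^ (2 / 7 : ℝ)) :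
    ∃ j ≤ J, D ^ (ε2 * (7 / 6 : ℝ) ^ j) ≤ M ∧ M ≤ (D ^ (ε2 * (7 / 6 : ℝ) ^ j)) ^ (7 / 6 : ℝ) := by
  classical
  have hstep : ∀ j : ℕ, (D ^ (ε2 * (7 / 6 : ℝ) ^ j)) ^ (7 / 6 : ℝ) =
      D ^ (ε2 * (7 / 6 : ℝ) ^ (j + 1)) := by
    intro j
    rw [← Real.rpow_mul (by (clear * - hD; linarith)), pow_succ, mul_assoc]
  have hz : D ^ (ε2 * (7 / 6 : ℝ) ^ 0) ≤ M := by rwa [pow_zero, mul_one]
  refine ⟨Nat.findGreatest (fun j => D ^ (ε2 * (7 / 6 : ℝ) ^ j) ≤ M) J, Nat.findGreatest_le J,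
    Nat.findGreatest_spec (P := fun j => D ^ (ε2 * (7 / 6 : ℝ) ^ j) ≤ M) (Nat.zero_le J) hz, ?_⟩
  rw [hstep]
  rcases Nat.lt_or_ge (Nat.findGreatest (fun j => D ^ (ε2 * (7 / 6 : ℝ) ^ j) ≤ M) J) J with h | h
  · have := Nat.findGreatest_is_greatest (P := fun j => D ^ (ε2 * (7 / 6 : ℝ) ^ j) ≤ M)
      (Nat.lt_succ_self _) h
    exact (not_le.1 this).le
  · have h2 : Nat.findGreatest (fun j => D ^ (ε2 * (7 / 6 : ℝ) ^ j) ≤ M) J = J :=
      le_antisymm (Nat.findGreatest_le J) h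
    rw [h2]
    refine h1.trans (Real.rpow_le_rpow_of_exponent_le hD (by (clear * - hJ; linarith)))

end

end Pool.Agent.Helper67.NX2

end

section

set_option autoImplicit false

open Finset

open scoped BigOperators ComplexConjugate

namespace Pool.Agent.Helper67.NX2

open Pool.Agent.Helper57.NX

noncomputable section

section Sums52

lemma blocksum52 (F : ℕ → ℂ) (M n : ℕ) (l : ℕ) :
    ∑ j ∈ range l, ‖F ((n + j + 1) / M) - F ((n + j) / M)‖ =
      ∑ i ∈ range ((n + l) / M - n / M), ‖F (n / M + i + 1) - F (n / M + i)‖ := by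
  induction l with
  | zero => simp
  | succ l ih =>
    rw [sum_range_succ, ih]
    have hmono : n / M ≤ (n + l) / M := Nat.div_le_div_right (by omega)
    have hs := Nat.succ_div (a := n + l) (b := M)
    by_cases hd : M ∣ n + l + 1
    · rw [if_pos hd] at hs
      have h1 : (n + (l + 1)) / M - n / M = (n + l) / M - n / M + 1 := by
        rw [show n + (l + 1) = n + l + 1 by ring, hs]
        omega
      rw [h1, sum_range_succ]
      congr 1
      have h2 : n / M + ((n + l) / M - n / M) = (n + l) / M := by omega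
      rw [h2, hs]
    · rw [if_neg hd, add_zero] at hs
      rw [show n + (l + 1) = n + l + 1 by ring, hs, sub_self, norm_zero, add_zero]

end Sums52

end

end Pool.Agent.Helper67.NX2

end

section

set_option autoImplicit false

open Finset

open scoped BigOperators ComplexConjugate

namespace Pool.Agent.Helper67.NX2

open Pool.Agent.Helper57.NX

noncomputable section

theorem la_pow_le (a c d : ℕ) : (a + c) ^ d ≤ a ^ d + d * (a + c) ^ (d - 1) * c := by
  induction d with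
  | zero => simp
  | succ d ih =>
    rcases Nat.eq_zero_or_pos d with h | h
    · subst h; simp
    · have h1 : (a + c) ^ (d - 1) * a ≤ (a + c) ^ d := by
        obtain ⟨d', rfl⟩ : ∃ d', d = d' + 1 := ⟨d - 1, by omega⟩
        rw [Nat.add_sub_cancel, pow_succ]
        exact Nat.mul_le_mul_left _ (by omega)
      rw [Nat.add_sub_cancel]
      calc (a + c) ^ (d + 1) = (a + c) ^ d * a + (a + c) ^ d * c := by rw [pow_succ]; ring
        _ ≤ (a ^ d + d * (a + c) ^ (d - 1) * c) * a + (a + c) ^ d * c :=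
            Nat.add_le_add_right (Nat.mul_le_mul_right _ ih) _
        _ = a ^ (d + 1) + d * ((a + c) ^ (d - 1) * a) * c + (a + c) ^ d * c := by
            rw [pow_succ]; ring
        _ ≤ a ^ (d + 1) + d * (a + c) ^ d * c + (a + c) ^ d * c := by (clear * - h1; gcongr)
        _ = a ^ (d + 1) + (d + 1) * (a + c) ^ d * c := by ring

theorem la_tau (lam r q d u' r0 j : ℕ) (hj : u' ≤ j) :
    (lam * (q * j + r0) + r) ^ d = (lam * (q * u' + r0) + r) ^ d +
      q * (((lam * (q * j + r0) + r) ^ d - (lam * (q * u' + r0) + r) ^ d) / q) ∧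
    ((lam * (q * j + r0) + r) ^ d - (lam * (q * u' + r0) + r) ^ d) / q ≤
      d * (lam * (q * j + r0) + r) ^ (d - 1) * (lam * (j - u')) := by
  obtain ⟨i, rfl⟩ : ∃ i, j = u' + i := ⟨j - u', by omega⟩
  have h1 : lam * (q * (u' + i) + r0) + r = (lam * (q * u' + r0) + r) + q * (lam * i) := by ring
  rw [h1]
  generalize lam * (q * u' + r0) + r = a
  have h2 : q ∣ (a + q * (lam * i)) ^ d - a ^ d := by
    refine dvd_trans ?_ (Nat.sub_dvd_pow_sub_pow _ _ d)
    rw [Nat.add_sub_cancel_left]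
    exact Dvd.intro _ rfl
  have h3 : a ^ d ≤ (a + q * (lam * i)) ^ d := Nat.pow_le_pow_left (by omega) d
  refine ⟨?_, ?_⟩
  · rw [Nat.mul_div_cancel' h2]; omega
  · have h4 := la_pow_le a (q * (lam * i)) d
    have h5 : (a + q * (lam * i)) ^ d - a ^ d ≤
        q * (d * (a + q * (lam * i)) ^ (d - 1) * (lam * i)) := by
      have h6 : d * (a + q * (lam * i)) ^ (d - 1) * (q * (lam * i)) =
          q * (d * (a + q * (lam * i)) ^ (d - 1) * (lam * i)) := by ring
      omega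
    rw [Nat.add_sub_cancel_left]
    exact Nat.div_le_of_le_mul h5

end

end Pool.Agent.Helper67.NX2

end

section

set_option autoImplicit false

open Finset

open scoped BigOperators ComplexConjugate

namespace Pool.Agent.Helper67.NX2

open Pool.Agent.Helper57.NX

noncomputable section

theorem h9_floor {δ : ℝ} (hδ0 : 0 < δ) (hδ1 : δ ≤ 1 / 2) (m : ℕ) (x : ℝ) (h1 : 1 ≤ δ ^ m * x) :
    1 ≤ ⌊δ ^ m * x⌋₊ ∧ (⌊δ ^ m * x⌋₊ : ℝ) ≤ δ ^ m * x ∧ δ ^ (m + 1) * x ≤ (⌊δ ^ m * x⌋₊ : ℝ) := by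
  have h0 : 0 ≤ δ ^ m * x := by linarith
  have hf1 : 1 ≤ ⌊δ ^ m * x⌋₊ := (Nat.one_le_floor_iff _).mpr h1
  refine ⟨hf1, Nat.floor_le h0, ?_⟩
  have h2 : δ ^ m * x < ⌊δ ^ m * x⌋₊ + 1 := Nat.lt_floor_add_one _
  have h3 : (1 : ℝ) ≤ ⌊δ ^ m * x⌋₊ := by exact_mod_cast hf1
  have h4 : δ ^ (m + 1) * x ≤ (δ ^ m * x) / 2 := by
    have h5 : δ ^ (m + 1) * x = (δ ^ m * x) * δ := by ring
    rw [h5]
    (clear * - hδ1 h1; nlinarith)
  (clear * - h2 h3 h4; linarith)

end

end Pool.Agent.Helper67.NX2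

end

section

set_option autoImplicit false

open Finset

open scoped BigOperators ComplexConjugate

namespace Pool.Agent.Helper67.NX2

open Pool.Agent.Helper57.NX

noncomputable section

namespace Low94

theorem pow_lower {D σ δ t : ℝ} (hD : 1 ≤ D) (hδ : D ^ (-σ) ≤ δ) {n : ℕ} (h : σ * n ≤ t) :
    D ^ (-t) ≤ δ ^ n := by
  have hD0 : 0 < D := by (clear * - hD; linarith)
  calc D ^ (-t) ≤ D ^ (-σ * (n : ℝ)) := Real.rpow_le_rpow_of_exponent_le hD (by linarith)
    _ = (D ^ (-σ)) ^ n := Real.rpow_mul_natCast hD0.le _ _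
    _ ≤ δ ^ n := pow_le_pow_left₀ (Real.rpow_nonneg hD0.le _) hδ n

theorem pow_upper {D σ δ t : ℝ} (hD : 1 ≤ D) (hδ0 : 0 < δ) (hδ : D ^ (-σ) ≤ δ) {n : ℕ}
    (h : σ * n ≤ t) : δ⁻¹ ^ n ≤ D ^ t := by
  have hD0 : 0 < D := by (clear * - hD; linarith)
  have h1 := pow_lower hD hδ h
  rw [inv_pow, inv_le_comm₀ (pow_pos hδ0 n) (Real.rpow_pos_of_pos hD0 _), ← Real.rpow_neg hD0.le]
  exact h1

end Low94

end

end Pool.Agent.Helper67.NX2

end

section

set_option autoImplicit false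

open Finset

open scoped BigOperators ComplexConjugate

namespace Pool.Agent.Helper67.NX2

open Pool.Agent.Helper57.NX

noncomputable section

/-- the sequences at natural exponents, steps along `k + q j` -/
theorem step21 (Q lam r k q j d : ℕ) : ∃ t : ℤ,
    (Q : ℤ) * ((lam * (k + q * j) + r : ℕ) : ℤ) ^ d =
      (Q : ℤ) * ((lam * k + r : ℕ) : ℤ) ^ d + ((Q * q : ℕ) : ℤ) * t ∧
    |(t : ℝ)| * ((Q * q : ℕ) : ℝ) ≤
      Q * (d * (lam * (q * j)) * ((lam * (k + q * j) + r : ℕ) : ℝ) ^ (d - 1)) := by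
  obtain ⟨t0, ht0⟩ := sub_dvd_pow_sub_pow ((lam * (k + q * j) + r : ℕ) : ℤ)
    ((lam * k + r : ℕ) : ℤ) d
  have h1 : ((lam * (k + q * j) + r : ℕ) : ℤ) - ((lam * k + r : ℕ) : ℤ) = lam * (q * j) := by
    push_cast; ring
  rw [h1] at ht0
  refine ⟨lam * j * t0, ?_, ?_⟩
  · have h2 : ((lam * (k + q * j) + r : ℕ) : ℤ) ^ d =
        ((lam * k + r : ℕ) : ℤ) ^ d + lam * (q * j) * t0 := by linarith
    rw [h2]
    push_cast
    ring
  · have h3 := abs_pow_sub_pow_le ((lam * (k + q * j) + r : ℕ) : ℝ) ((lam * k + r : ℕ) : ℝ) d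
    have h4 : ((lam * (k + q * j) + r : ℕ) : ℝ) ^ d - ((lam * k + r : ℕ) : ℝ) ^ d =
        lam * (q * j) * t0 := by exact_mod_cast ht0
    have h5 : ((lam * (k + q * j) + r : ℕ) : ℝ) - ((lam * k + r : ℕ) : ℝ) = lam * (q * j) := by
      push_cast; ring
    rw [h4, h5, abs_of_nonneg (by positivity : (0 : ℝ) ≤ lam * (q * j)),
      abs_of_nonneg (by positivity : (0 : ℝ) ≤ ((lam * (k + q * j) + r : ℕ) : ℝ)),
      abs_of_nonneg (by positivity : (0 : ℝ) ≤ ((lam * k + r : ℕ) : ℝ)),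
      max_eq_left (by
        have : lam * k ≤ lam * (k + q * j) := Nat.mul_le_mul_left _ (Nat.le_add_right _ _)
        exact_mod_cast Nat.add_le_add_right this r)] at h3
    have h6 : |((lam * j * t0 : ℤ) : ℝ)| * ((Q * q : ℕ) : ℝ) = Q * |(lam : ℝ) * (q * j) * t0| := by
      push_cast
      rw [abs_mul, abs_mul (lam * (q * j) : ℝ), abs_of_nonneg (by positivity : (0 : ℝ) ≤ lam * j),
        abs_of_nonneg (by positivity : (0 : ℝ) ≤ (lam : ℝ) * (q * j))]
      ring
    rw [h6]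
    refine mul_le_mul_of_nonneg_left (h3.trans (le_of_eq ?_)) (Nat.cast_nonneg _)
    ring

end

end Pool.Agent.Helper67.NX2

end

section

set_option autoImplicit false

open Finset

open scoped BigOperators ComplexConjugate

namespace Pool.Agent.Helper67.NX2

open Pool.Agent.Helper57.NX

noncomputable section

lemma rap_count (q L B j x0 a : ℕ) (hq : 1 ≤ q) (hB : 0 < B) :
    (((range x0).filter (fun x => x % q = a)).filter
      (fun x => x ≤ B * j ∧ B * (j + 1) ≤ x + q * L)).card ≤ L := by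
  set lo := B * (j + 1) - q * L with hlo
  have h : (((range x0).filter (fun x => x % q = a)).filter
      (fun x => x ≤ B * j ∧ B * (j + 1) ≤ x + q * L)).card ≤ (range L).card := by
    refine card_le_card_of_injOn (fun x => (x - lo) / q) ?_ ?_
    · intro x hx
      rw [coe_filter, Set.mem_ofPred_eq, mem_filter] at hx
      rw [coe_range, Set.mem_Iio, Nat.div_lt_iff_lt_mul (by omega)]
      have h1 : B * (j + 1) = B * j + B := by ring
      have h2 : L * q = q * L := mul_comm _ _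
      have := hx.2.1
      have := hx.2.2
      have := hx.1.1
      omega
    · intro x hx y hy hxy
      rw [coe_filter, Set.mem_ofPred_eq, mem_filter] at hx hy
      simp only at hxy
      have hx1 : lo ≤ x := by omega
      have hy1 : lo ≤ y := by omega
      have hmod : x ≡ y [MOD q] := by
        unfold Nat.ModEq
        rw [hx.1.2, hy.1.2]
      have hmod2 : (x - lo) % q = (y - lo) % q := by
        have e1 : (x - lo) + lo ≡ (y - lo) + lo [MOD q] := by
          rw [Nat.sub_add_cancel hx1, Nat.sub_add_cancel hy1]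
          exact hmod
        exact Nat.ModEq.add_right_cancel' lo e1
      have e1 := Nat.div_add_mod (x - lo) q
      have e2 := Nat.div_add_mod (y - lo) q
      rw [hxy, hmod2, e2] at e1
      omega
  simpa using h

end

end Pool.Agent.Helper67.NX2

end

section

set_option autoImplicit false

open Finset

open scoped BigOperators ComplexConjugate

namespace Pool.Agent.Helper67.NX2

open Pool.Agent.Helper57.NX

noncomputable section

namespace LM

/-- the product of the primes up to `w` -/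
def prw (w : ℕ) : ℕ := ∏ p ∈ (range (w + 1)).filter Nat.Prime, p

theorem prw_ne_zero (w : ℕ) : prw w ≠ 0 := by
  unfold prw
  rw [Finset.prod_ne_zero_iff]
  intro p hp
  exact (Finset.mem_filter.mp hp).2.ne_zero

theorem prime_dvd_prw {w p : ℕ} (hp : p.Prime) : p ∣ prw w ↔ p ≤ w := by
  unfold prw
  rw [hp.prime.dvd_finsetProd_iff]
  constructor
  · rintro ⟨q, hq, hpq⟩
    rw [Finset.mem_filter, Finset.mem_range] at hq
    rw [(Nat.prime_dvd_prime_iff_eq hp hq.2).mp hpq]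
    omega
  · intro h
    exact ⟨p, Finset.mem_filter.mpr ⟨Finset.mem_range.mpr (by omega), hp⟩, dvd_refl p⟩

theorem dvd_prw_pow {w g e : ℕ} (hg0 : g ≠ 0) (hg : ∀ p : ℕ, p.Prime → p ∣ g → p ≤ w)
    (hge : g < 2 ^ e) : g ∣ prw w ^ e := by
  rw [← Nat.factorization_le_iff_dvd hg0 (pow_ne_zero _ (prw_ne_zero w))]
  intro p
  rw [Nat.factorization_pow]
  by_cases hp : p.Prime
  · by_cases hpg : p ∣ g
    · have h1 : 1 ≤ (prw w).factorization p :=
        (hp.dvd_iff_one_le_factorization (prw_ne_zero w)).mp ((prime_dvd_prw hp).mpr (hg p hp hpg))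
      have h2 : p ^ g.factorization p ≤ g := Nat.ordProj_le p hg0
      have h3 : 2 ^ g.factorization p ≤ p ^ g.factorization p :=
        Nat.pow_le_pow_left hp.two_le _
      have h4 : g.factorization p < e := (Nat.pow_lt_pow_iff_right (by norm_num)).mp
        ((h3.trans h2).trans_lt hge)
      show g.factorization p ≤ e * (prw w).factorization p
      (clear * - h1 h4; nlinarith)
    · rw [Nat.factorization_eq_zero_of_not_dvd hpg]
      exact Nat.zero_le _
  · rw [Nat.factorization_eq_zero_of_not_prime _ hp]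
    exact Nat.zero_le _

end LM

end

end Pool.Agent.Helper67.NX2

end

section

set_option autoImplicit false

open Finset

open scoped BigOperators ComplexConjugate

namespace Pool.Agent.Helper67.NX2

open Pool.Agent.Helper57.NX

noncomputable section

/-- duality -/
theorem ls87_dual {ι : Type*} (P : Finset ι) (I : Finset ℕ) (u : ι → ℕ → ℂ) (B : ℝ)
    (hB : 0 ≤ B) (h : ∀ c : ι → ℂ, ∑ n ∈ I, ‖∑ α ∈ P, c α * u α n‖ ^ 2 ≤ B * ∑ α ∈ P, ‖c α‖ ^ 2)
    (a : ℕ → ℂ) :
    ∑ α ∈ P, ‖∑ n ∈ I, a n * u α n‖ ^ 2 ≤ B * ∑ n ∈ I, ‖a n‖ ^ 2 := by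
  obtain ⟨S, hS⟩ : ∃ S : ι → ℂ, S = fun α => ∑ n ∈ I, a n * u α n := ⟨_, rfl⟩
  obtain ⟨X, hX⟩ : ∃ X : ℝ, X = ∑ α ∈ P, ‖S α‖ ^ 2 := ⟨_, rfl⟩
  have e0 : ∑ α ∈ P, ‖∑ n ∈ I, a n * u α n‖ ^ 2 = X := by rw [hX, hS]
  rw [e0]
  have hX0 : 0 ≤ X := by rw [hX]; exact Finset.sum_nonneg fun α _ => sq_nonneg _
  have hA0 : 0 ≤ ∑ n ∈ I, ‖a n‖ ^ 2 := Finset.sum_nonneg fun α _ => sq_nonneg _
  have hF := h (fun α => conj (S α))
  have e1 : ∑ α ∈ P, ‖conj (S α)‖ ^ 2 = X := by
    rw [hX]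
    exact Finset.sum_congr rfl fun α _ => by rw [RCLike.norm_conj]
  exact by
    rw [e1] at hF
    have e2 : (X : ℂ) = ∑ n ∈ I, a n * ∑ α ∈ P, conj (S α) * u α n := by
      calc (X : ℂ) = ∑ α ∈ P, conj (S α) * S α := by
            rw [hX]
            push_cast
            refine Finset.sum_congr rfl fun α _ => ?_
            rw [mul_comm, Complex.mul_conj, Complex.normSq_eq_norm_sq]
            push_cast
            rfl
        _ = ∑ α ∈ P, ∑ n ∈ I, a n * (conj (S α) * u α n) := by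
            refine Finset.sum_congr rfl fun α _ => ?_
            nth_rewrite 2 [hS]
            rw [Finset.mul_sum]
            exact Finset.sum_congr rfl fun n _ => by ring
        _ = ∑ n ∈ I, a n * ∑ α ∈ P, conj (S α) * u α n := by
            rw [Finset.sum_comm]
            exact Finset.sum_congr rfl fun n _ => by rw [Finset.mul_sum]
    have e3 : X ≤ ∑ n ∈ I, ‖a n‖ * ‖∑ α ∈ P, conj (S α) * u α n‖ := by
      calc X = ‖(X : ℂ)‖ := by rw [Complex.norm_real, Real.norm_of_nonneg hX0]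
        _ = ‖∑ n ∈ I, a n * ∑ α ∈ P, conj (S α) * u α n‖ := by rw [← e2]
        _ ≤ ∑ n ∈ I, ‖a n * ∑ α ∈ P, conj (S α) * u α n‖ := norm_sum_le _ _
        _ = ∑ n ∈ I, ‖a n‖ * ‖∑ α ∈ P, conj (S α) * u α n‖ :=
            Finset.sum_congr rfl fun n _ => norm_mul _ _
    have e4 : X ^ 2 ≤ (∑ n ∈ I, ‖a n‖ ^ 2) * (B * X) := by
      calc X ^ 2 ≤ (∑ n ∈ I, ‖a n‖ * ‖∑ α ∈ P, conj (S α) * u α n‖) ^ 2 :=
            pow_le_pow_left₀ hX0 e3 2
        _ ≤ (∑ n ∈ I, ‖a n‖ ^ 2) * ∑ n ∈ I, ‖∑ α ∈ P, conj (S α) * u α n‖ ^ 2 :=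
            Finset.sum_mul_sq_le_sq_mul_sq _ _ _
        _ ≤ (∑ n ∈ I, ‖a n‖ ^ 2) * (B * X) := mul_le_mul_of_nonneg_left hF hA0
    rcases hX0.eq_or_lt with h0 | h0
    · rw [← h0]; (clear * - hB; positivity)
    · have : X * X ≤ (B * ∑ n ∈ I, ‖a n‖ ^ 2) * X := by (clear * - e4; nlinarith)
      exact le_of_mul_le_mul_right this h0

end

end Pool.Agent.Helper67.NX2

end

section

set_option autoImplicit false

open Finset

open scoped BigOperators

namespace Pool.Agent.Helper57.NX3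

noncomputable section

/-- the contradiction at the end -/
theorem final_num (l : ℕ) (τ3 Cs c1 ζ form1 form2 err : ℝ) (hζ0 : 0 < ζ)
    (hc10 : 0 < c1) (hc1 : 2 * Cs * c1 ≤ τ3 / 2) (hζ : ζ < c1 * τ3 / 2)
    (hlow : τ3 * (c1 * ζ ^ (l + 1)) * ζ ^ (l + 1) ≤ form1)
    (hup : form2 ≤ 2 * Cs * (c1 * ζ ^ (l + 1)) * (c1 * ζ ^ (l + 1)))
    (hdiff : form1 ≤ form2 + err) (herr : err ≤ ζ ^ (2 * l + 3)) : False := by
  have h3 : ζ ^ (2 * l + 3) < c1 * τ3 / 2 * ζ ^ (2 * l + 2) := by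
    calc ζ ^ (2 * l + 3) = ζ * ζ ^ (2 * l + 2) := by ring
      _ < _ := mul_lt_mul_of_pos_right hζ (by positivity)
  have h4 : τ3 * (c1 * ζ ^ (l + 1)) * ζ ^ (l + 1) = c1 * τ3 * ζ ^ (2 * l + 2) := by ring
  have h5 : 2 * Cs * (c1 * ζ ^ (l + 1)) * (c1 * ζ ^ (l + 1)) =
      (2 * Cs * c1) * c1 * ζ ^ (2 * l + 2) := by ring
  have h6 : (2 * Cs * c1) * c1 * ζ ^ (2 * l + 2) ≤ (τ3 / 2) * c1 * ζ ^ (2 * l + 2) := by
    gcongr
  have h7 : (τ3 / 2) * c1 * ζ ^ (2 * l + 2) + c1 * τ3 / 2 * ζ ^ (2 * l + 2) =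
      c1 * τ3 * ζ ^ (2 * l + 2) := by ring
  linarith

end

end Pool.Agent.Helper57.NX3

end

section

set_option autoImplicit false

open Finset Real

namespace Pool.Agent.Helper57.FP

theorem energy_identity (a : ℕ → ℝ) (N R : ℕ) (hR : 0 < R) :
    ∑ j ∈ range (N * R), (a j - (∑ i ∈ range R, a (j / R * R + i)) / R) ^ 2 =
      ∑ j ∈ range (N * R), a j ^ 2 - (∑ V ∈ range N, (∑ i ∈ range R, a (V * R + i)) ^ 2) / R := by
  have hR0 : (R : ℝ) ≠ 0 := by exact_mod_cast hR.ne'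
  induction N with
  | zero => simp
  | succ N ih =>
    rw [Nat.succ_mul, Finset.sum_range_add, Finset.sum_range_add, ih, Finset.sum_range_succ]
    have h1 : ∀ i ∈ range R, (a (N * R + i) -
        (∑ i' ∈ range R, a ((N * R + i) / R * R + i')) / R) ^ 2 =
        (a (N * R + i) - (∑ i' ∈ range R, a (N * R + i')) / R) ^ 2 := by
      intro i hi
      rw [Finset.mem_range] at hi
      have : (N * R + i) / R = N := by
        rw [mul_comm, Nat.mul_add_div hR, Nat.div_eq_of_lt hi, add_zero]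
      rw [this]
    rw [Finset.sum_congr rfl h1]
    set S := ∑ i' ∈ range R, a (N * R + i') with hS
    have h2 : ∑ i ∈ range R, (a (N * R + i) - S / R) ^ 2 =
        ∑ i ∈ range R, a (N * R + i) ^ 2 - S ^ 2 / R := by
      have h3 : ∀ i ∈ range R, (a (N * R + i) - S / R) ^ 2 =
          a (N * R + i) ^ 2 - 2 * (S / R) * a (N * R + i) + (S / R) ^ 2 := by
        intro i _; ring
      rw [Finset.sum_congr rfl h3, Finset.sum_add_distrib, Finset.sum_sub_distrib,
        ← Finset.mul_sum, ← hS, Finset.sum_const, Finset.card_range, nsmul_eq_mul]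
      field_simp
      ring
    rw [h2]
    ring

end Pool.Agent.Helper57.FP

end

section

set_option autoImplicit false

open Finset

open scoped BigOperators

namespace Pool.Agent.Helper57.NX3

noncomputable section

theorem h51_lim (C κ θ : ℝ) (hθ : 0 < θ) (hκ : 0 < κ) : ∃ z0 : ℕ, ∀ z : ℕ, z0 ≤ z →
    C * Real.log ((2 : ℝ) ^ z) ^ 2 ≤ κ * ((2 : ℝ) ^ z) ^ θ := by
  have h1 := (isLittleO_log_rpow_rpow_atTop (2 : ℝ) hθ)
  have h2 : Filter.Tendsto (fun z : ℕ => (2 : ℝ) ^ z) Filter.atTop Filter.atTop :=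
    tendsto_pow_atTop_atTop_of_one_lt (by norm_num)
  have h3 := h1.comp_tendsto h2
  have hc : 0 < κ / (|C| + 1) := by (clear * - hκ; positivity)
  have h4 := h3.def hc
  obtain ⟨z0, hz0⟩ := Filter.eventually_atTop.1 h4
  refine ⟨z0, fun z hz => ?_⟩
  exact by
    have h5 := hz0 z hz
    simp only [Function.comp_apply, Real.rpow_two, Real.norm_eq_abs] at h5
    have h6 : (0 : ℝ) ≤ ((2 : ℝ) ^ z) ^ θ := by positivity
    rw [abs_of_nonneg (sq_nonneg _), abs_of_nonneg h6] at h5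
    have h7 : C * Real.log ((2 : ℝ) ^ z) ^ 2 ≤ (|C| + 1) * Real.log ((2 : ℝ) ^ z) ^ 2 := by
      apply mul_le_mul_of_nonneg_right _ (sq_nonneg _)
      (clear * -; linarith [le_abs_self C])
    have h8 : (|C| + 1) * Real.log ((2 : ℝ) ^ z) ^ 2 ≤
        (|C| + 1) * (κ / (|C| + 1) * ((2 : ℝ) ^ z) ^ θ) :=
      mul_le_mul_of_nonneg_left h5 (by (clear * -; positivity))
    have h9 : (|C| + 1) * (κ / (|C| + 1) * ((2 : ℝ) ^ z) ^ θ) = κ * ((2 : ℝ) ^ z) ^ θ := by
      have : (|C| + 1) ≠ 0 := by positivity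
      field_simp
    linarith

end

end Pool.Agent.Helper57.NX3

end

section

set_option autoImplicit false

open Finset

open scoped BigOperators

namespace Pool.Agent.Helper57.NX3

open Pool.Agent.Helper44 Pool.Agent.Helper96.CPAP Pool.Agent.Helper57.FP

lemma ratio_eq (h : ℕ) (hh : 1 ≤ h) :
    (h : ℝ) / h.totient = ∏ q ∈ h.primeFactors, (1 - 1 / (q : ℝ))⁻¹ := by
  have h1 := Nat.totient_eq_mul_prod_factors h
  have h2 : (h.totient : ℝ) = h * ∏ p ∈ h.primeFactors, (1 - (p : ℝ)⁻¹) := by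
    have := congrArg (fun x : ℚ => (x : ℝ)) h1
    push_cast at this
    exact this
  have h3 : (h : ℝ) ≠ 0 := by exact_mod_cast (by omega : h ≠ 0)
  rw [h2, Finset.prod_inv_distrib]
  simp only [one_div]
  have h4 : ∏ p ∈ h.primeFactors, (1 - (p : ℝ)⁻¹) ≠ 0 := by
    rw [Finset.prod_ne_zero_iff]
    intro p hp
    have hp' := (Nat.prime_of_mem_primeFactors hp).two_le
    have hp2 : (2 : ℝ) ≤ p := by exact_mod_cast hp'
    have : (p : ℝ)⁻¹ ≤ 1 / 2 := by
      rw [inv_eq_one_div]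
      exact one_div_le_one_div_of_le (by norm_num) hp2
    (clear * - this; linarith)
  (clear * - h3; field_simp)

lemma local_le {q : ℝ} (hq : 4 ≤ q) :
    1 - 1 / q ≤ (1 - 2 / q) * ((1 - 1 / q)⁻¹ * Real.exp (2 * (1 / q) ^ 2)) := by
  have hq0 : 0 < q := by (clear * - hq; linarith)
  have hx0 : 0 < 1 / q := by (clear * - hq; positivity)
  have hx : 1 / q ≤ 1 / 4 := one_div_le_one_div_of_le (by norm_num) hq
  have h2 : 2 / q = 2 * (1 / q) := by ring
  rw [h2]
  set x := 1 / q with hxdef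
  have h3 : 2 * x ^ 2 + 1 ≤ Real.exp (2 * x ^ 2) := Real.add_one_le_exp _
  have h4 : 0 < 1 - x := by (clear * - hx0 hx; linarith)
  have h5 : (1 - x) * (1 - x) ≤ (1 - 2 * x) * Real.exp (2 * x ^ 2) := by
    have h6 : (1 - x) * (1 - x) ≤ (1 - 2 * x) * (2 * x ^ 2 + 1) := by
      (clear * - hx0 hx; nlinarith [mul_pos hx0 hx0, mul_nonneg (mul_pos hx0 hx0).le (by linarith : 0 ≤ 1 - 4 * x)])
    exact h6.trans (mul_le_mul_of_nonneg_left h3 (by (clear * - hx0 hx; linarith)))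
  have h7 : (1 - 2 * x) * ((1 - x)⁻¹ * Real.exp (2 * x ^ 2))
      = ((1 - 2 * x) * Real.exp (2 * x ^ 2)) / (1 - x) := by
    (clear * - h4; field_simp)
  rw [h7, le_div_iff₀ h4]
  exact h5

end Pool.Agent.Helper57.NX3

end

section

set_option autoImplicit false

open Finset

open scoped BigOperators

namespace Pool.Agent.Helper57.NX3

noncomputable section

/-- number of points near the ends of the blocks -/
lemma ends52 (z b s M : ℕ) (hb : b ≤ z) :
    (((range (2 ^ z)).filter fun x => ¬ (M ≤ x % 2 ^ b ∧ x % 2 ^ b + s + M ≤ 2 ^ b)).card : ℝ) ≤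
      (s + 2 * M) * (2 ^ z / 2 ^ b) := by
  have hK : 0 < 2 ^ b := by positivity
  have hz : (2 : ℕ) ^ z = 2 ^ b * 2 ^ (z - b) := by rw [← pow_add]; congr 1; omega
  obtain ⟨R, hR⟩ : ∃ R : Finset ℕ, R = range M ∪ Ico (2 ^ b - (s + M)) (2 ^ b) := ⟨_, rfl⟩
  have hRc : R.card ≤ s + 2 * M := by
    rw [hR]
    refine (card_union_le _ _).trans ?_
    rw [card_range, Nat.card_Ico]
    omega
  have hsub : ((range (2 ^ z)).filter fun x => ¬ (M ≤ x % 2 ^ b ∧ x % 2 ^ b + s + M ≤ 2 ^ b)) ⊆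
      (range (2 ^ (z - b)) ×ˢ R).image (fun a => 2 ^ b * a.1 + a.2) := by
    intro x hx
    rw [mem_filter, mem_range] at hx
    rw [mem_image]
    have h1 := Nat.div_add_mod x (2 ^ b)
    have h2 := Nat.mod_lt x hK
    refine ⟨(x / 2 ^ b, x % 2 ^ b), ?_, h1⟩
    rw [mem_product, mem_range, hR, mem_union, mem_range, mem_Ico]
    refine ⟨?_, ?_⟩
    · rw [Nat.div_lt_iff_lt_mul hK, mul_comm, ← hz]
      exact hx.1
    · have h3 := hx.2
      by_cases h4 : x % 2 ^ b < M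
      · exact Or.inl h4
      · refine Or.inr ⟨?_, h2⟩
        by_contra h5
        exact h3 ⟨by omega, by omega⟩
  have h1 := (card_le_card hsub).trans card_image_le
  rw [card_product, card_range] at h1
  have h2 : 2 ^ (z - b) * R.card ≤ 2 ^ (z - b) * (s + 2 * M) := Nat.mul_le_mul_left _ hRc
  have h3 : (2 : ℝ) ^ z / 2 ^ b = 2 ^ (z - b) := by
    rw [div_eq_iff (by positivity), mul_comm]
    exact_mod_cast hz
  rw [h3, mul_comm]
  exact_mod_cast h1.trans h2

end

end Pool.Agent.Helper57.NX3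

end

section

set_option autoImplicit false

open Finset

open scoped BigOperators

namespace Pool.Agent.Helper57.NX3

noncomputable section

/-- the block lengths are powers of `2 ^ z` -/
theorem sc87_pow {Θ J j z : ℕ} (hΘ : 2 ≤ Θ) (hj : j ≤ J) (hz : 2 * Θ ^ (J + 1) ≤ z) :
    ((2 : ℝ) ^ z) ^ ((1 : ℝ) / (2 * (Θ : ℝ) ^ (J + 1))) ≤ 2 ^ (z / Θ ^ (j + 1)) := by
  have hΘ1 : 1 ≤ Θ := by omega
  have h1 : Θ ^ (j + 1) ≤ Θ ^ (J + 1) := Nat.pow_le_pow_right hΘ1 (by omega)
  have h2 : 0 < Θ ^ (j + 1) := pow_pos (by omega) _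
  have h3 : 0 < Θ ^ (J + 1) := pow_pos (by omega) _
  have h4 : z / Θ ^ (J + 1) ≤ z / Θ ^ (j + 1) := Nat.div_le_div_left h1 h2
  obtain ⟨W, hW⟩ : ∃ W : ℕ, W = Θ ^ (J + 1) := ⟨_, rfl⟩
  have hWr : (Θ : ℝ) ^ (J + 1) = (W : ℝ) := by rw [hW]; push_cast; rfl
  exact by
    rw [← hW] at h3 h4 hz
    rw [hWr]
    have hW0 : (0 : ℝ) < (W : ℝ) := by exact_mod_cast h3
    have h5 : z < W * (z / W + 1) := by
      have := Nat.lt_mul_div_succ z h3
      simpa [Nat.succ_eq_add_one] using this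
    have h6 : (z : ℝ) * (1 / (2 * W)) ≤ ((z / Θ ^ (j + 1) : ℕ) : ℝ) := by
      have h7 : (z : ℝ) < W * (((z / W : ℕ) : ℝ) + 1) := by exact_mod_cast h5
      have h8 : ((z / W : ℕ) : ℝ) ≤ ((z / Θ ^ (j + 1) : ℕ) : ℝ) := by exact_mod_cast h4
      have h9 : 2 * (W : ℝ) ≤ z := by exact_mod_cast hz
      refine le_trans ?_ h8
      rw [mul_one_div, div_le_iff₀ (by positivity)]
      nlinarith
    calc ((2 : ℝ) ^ z) ^ ((1 : ℝ) / (2 * (W : ℝ)))
        = (2 : ℝ) ^ ((z : ℝ) * (1 / (2 * W))) := by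
          rw [← Real.rpow_natCast, ← Real.rpow_mul (by norm_num)]
      _ ≤ (2 : ℝ) ^ (((z / Θ ^ (j + 1) : ℕ) : ℝ)) :=
          Real.rpow_le_rpow_of_exponent_le (by norm_num) h6
      _ = 2 ^ (z / Θ ^ (j + 1)) := Real.rpow_natCast _ _

end

end Pool.Agent.Helper57.NX3

end
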