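import Pool.Agent.Helper23.MC.Inst

/-!
Parts of Helper57.NX.Defs3, Helper99.NX.LpLocalAux, Helper55.NX2.AqBasic, Helper5.NX2.RatlCore, Helper25.NX2.Weyl, Helper41.NX2.BaseCells, Helper67.NX.TopStepAux, Helper87.NX.DlA, Helper88.NX.DlB, Helper41.NX2.TopStep, Helper59.NX2.BaseRatlA, Helper41.NX.TTStar, Helper41.NX.Gap, Helper92.NX2.Bc, Helper52.NX2.ArTop, Helper30.NX.LinForms, Helper51.NX.Sweep, Helper91.NX2.GncAux, Helper61.NX.DsOfUs, Helper60.NX2.DlB, Helper30.NX.UsOfTop, Helper94.NX2.LowAux, Helper21.NX2.ZeroAux, Helper61.NX.PatA, Helper46.NX2.ReplaceAp, Helper46.NX2.PrimesModelOf, Helper80.NX2.GmAp, Helper81.NX2.GmMomentB, Helper63.NX2.VarBound, Helper8.NX3.Averages, Helper57.NX3.PatSize, Helper57.FP.Shift, Helper57.FP.PsiAvg, Helper57.FP.Energy, Helper61.NX.Pattern, Helper51.NX3.Incr, Helper85.NX3.GoodSet, Helper40.NX.MainInd, Helper59.NX.Es0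
-/

attribute [local instance 5000]
  Pool.Agent.Helper23.MC.Inst.rCharZero Pool.Agent.Helper23.MC.Inst.rALM
  Pool.Agent.Helper23.MC.Inst.rARM Pool.Agent.Helper23.MC.Inst.rALSM
  Pool.Agent.Helper23.MC.Inst.rARSM Pool.Agent.Helper23.MC.Inst.rARRLE
  Pool.Agent.Helper23.MC.Inst.rALRLE Pool.Agent.Helper23.MC.Inst.rARRLT
  Pool.Agent.Helper23.MC.Inst.rALRLT Pool.Agent.Helper23.MC.Inst.rPMRLT
  Pool.Agent.Helper23.MC.Inst.rMPRLT Pool.Agent.Helper23.MC.Inst.rPMM
  Pool.Agent.Helper23.MC.Inst.rMPM Pool.Agent.Helper23.MC.Inst.rPMSM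
  Pool.Agent.Helper23.MC.Inst.rMPSM Pool.Agent.Helper23.MC.Inst.rEAOL
  Pool.Agent.Helper23.MC.Inst.rIOR Pool.Agent.Helper23.MC.Inst.rISOR
  Pool.Agent.Helper23.MC.Inst.rNZD Pool.Agent.Helper23.MC.Inst.rcCharZero
  Pool.Agent.Helper23.MC.Inst.rcNZD Pool.Agent.Helper23.MC.Inst.zCharZero
  Pool.Agent.Helper23.MC.Inst.zALM Pool.Agent.Helper23.MC.Inst.zARM
  Pool.Agent.Helper23.MC.Inst.zALSM Pool.Agent.Helper23.MC.Inst.zARSM
  Pool.Agent.Helper23.MC.Inst.zIOR Pool.Agent.Helper23.MC.Inst.zISOR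
  Pool.Agent.Helper23.MC.Inst.zNZD Pool.Agent.Helper23.MC.Inst.qCharZero
  Pool.Agent.Helper23.MC.Inst.mR Pool.Agent.Helper23.MC.Inst.mC Pool.Agent.Helper23.MC.Inst.mRC
  Pool.Agent.Helper23.MC.Inst.rPSM Pool.Agent.Helper23.MC.Inst.rCSM
  Pool.Agent.Helper23.MC.Inst.cAdd Pool.Agent.Helper23.MC.Inst.cAddM
  Pool.Agent.Helper23.MC.Inst.cMul Pool.Agent.Helper23.MC.Inst.cMon

namespace Pool.Agent.Helper44
end Pool.Agent.Helper44
namespace Pool.Agent.Helper57.NX
end Pool.Agent.Helper57.NX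
namespace Pool.Agent.Helper67.NX2
end Pool.Agent.Helper67.NX2
namespace Pool.Agent.Helper82.NX
end Pool.Agent.Helper82.NX
namespace Pool.Agent.Helper96.CPAP
end Pool.Agent.Helper96.CPAP

section

set_option autoImplicit false

open Finset

open scoped BigOperators ComplexConjugate

namespace Pool.Agent.Helper57.NX

noncomputable section

/-- iterated differences of sequences -/
def dl : List ℕ → (ℕ → ℤ) → ℕ → ℤ
  | [], f, k => f k
  | h :: t, f, k => dl t f (k + h) - dl t f k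

end

end Pool.Agent.Helper57.NX

end

section

set_option autoImplicit false

open Finset

open scoped BigOperators ComplexConjugate

namespace Pool.Agent.Helper57.NX

noncomputable section

theorem lpl_rpow_sub (c s t : ℝ) (hc : 0 < c) (h1 : 1 ≤ s) (hst : s ≤ t) (ht : t ≤ 3) :
    t ^ c - s ^ c ≤ c * 3 ^ c * (t - s) := by
  refine (convex_Icc s t).image_sub_le_mul_sub_of_deriv_le (f := fun x => x ^ c) ?_ ?_ ?_ s
    ⟨le_rfl, hst⟩ t ⟨hst, le_rfl⟩ hst
  · intro x hx
    exact (Real.continuousAt_rpow_const x c (Or.inl (by (clear * - h1 hx; linarith [hx.1])))).continuousWithinAt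
  · intro x hx
    rw [interior_Icc] at hx
    exact (Real.differentiableAt_rpow_const_of_ne c (by (clear * - h1 hx; linarith [hx.1]))).differentiableWithinAt
  · intro x hx
    rw [interior_Icc] at hx
    have hx1 : 1 ≤ x := by linarith [hx.1]
    rw [Real.deriv_rpow_const]
    have h2 : x ^ (c - 1) ≤ x ^ c := Real.rpow_le_rpow_of_exponent_le hx1 (by linarith)
    have h3 : x ^ c ≤ 3 ^ c := Real.rpow_le_rpow (by linarith) (by linarith [hx.2]) hc.le
    exact mul_le_mul_of_nonneg_left (h2.trans h3) hc.le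

end

end Pool.Agent.Helper57.NX

end

section

set_option autoImplicit false

open Finset

open scoped BigOperators ComplexConjugate

namespace Pool.Agent.Helper67.NX2

open Pool.Agent.Helper57.NX

noncomputable section

section AqBasic

variable {N : ℕ} [NeZero N]

omit [NeZero N] in
theorem norm_shift_st5 {g : ZMod N → ℂ} {c : ℝ} (st : ℕ)
    (hg : ∀ x, ‖g (x + (st : ZMod N)) - g x‖ ≤ c) (x : ZMod N)
    (t : ℤ) : ‖g (x + ((st * t : ℤ) : ZMod N)) - g x‖ ≤ |(t : ℝ)| * c := by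
  have key : ∀ (x : ZMod N) (t : ℕ), ‖g (x + ((st * t : ℕ) : ZMod N)) - g x‖ ≤ t * c := by
    intro x t
    induction t with
    | zero => simp
    | succ n ih =>
      have h1 := hg (x + ((st * n : ℕ) : ZMod N))
      have h2 : x + ((st * (n + 1) : ℕ) : ZMod N) = x + ((st * n : ℕ) : ZMod N) + (st : ZMod N) := by
        push_cast; ring
      rw [h2]
      have h3 : g (x + ((st * n : ℕ) : ZMod N) + (st : ZMod N)) - g x =
          (g (x + ((st * n : ℕ) : ZMod N) + (st : ZMod N)) - g (x + ((st * n : ℕ) : ZMod N))) +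
          (g (x + ((st * n : ℕ) : ZMod N)) - g x) := by ring
      rw [h3]
      refine (norm_add_le _ _).trans ?_
      push_cast at h1 ih ⊢
      (clear * - h1 ih; linarith)
  rcases Int.eq_nat_or_neg t with ⟨n, rfl | rfl⟩
  · have := key x n
    have e1 : (((st : ℤ) * (n : ℤ) : ℤ) : ZMod N) = ((st * n : ℕ) : ZMod N) := by push_cast; rfl
    rw [e1]
    simpa using this
  · have := key (x - ((st * n : ℕ) : ZMod N)) n
    rw [sub_add_cancel, norm_sub_rev] at this
    have e1 : x + (((st : ℤ) * (-(n : ℤ)) : ℤ) : ZMod N) = x - ((st * n : ℕ) : ZMod N) := by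
      push_cast; ring
    rw [e1]
    simpa using this

end AqBasic

end

end Pool.Agent.Helper67.NX2

end

section

set_option autoImplicit false

open Finset

open scoped BigOperators ComplexConjugate

namespace Pool.Agent.Helper67.NX2

open Pool.Agent.Helper57.NX

noncomputable section

/-- the polynomial -/
def rt5P (n : ℕ) (w : ℕ → ℝ) (M B : ℕ) : Polynomial ℝ :=
  ∑ d ∈ Icc 1 n, Polynomial.C (w d) *
    (Polynomial.C (M : ℝ) * Polynomial.X + Polynomial.C (B : ℝ)) ^ d

theorem rt5P_eval (n : ℕ) (w : ℕ → ℝ) (M B : ℕ) (x : ℝ) :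
    (rt5P n w M B).eval x = ∑ d ∈ Icc 1 n, w d * ((M : ℝ) * x + B) ^ d := by
  unfold rt5P
  rw [Polynomial.eval_finsetSum]
  refine sum_congr rfl fun d _ => ?_
  simp

theorem rt5P_deg (n : ℕ) (w : ℕ → ℝ) (M B : ℕ) : (rt5P n w M B).natDegree ≤ n := by
  unfold rt5P
  refine Polynomial.natDegree_sum_le_of_forall_le _ _ fun d hd => ?_
  have h1 : (Polynomial.C (M : ℝ) * Polynomial.X + Polynomial.C (B : ℝ)).natDegree ≤ 1 :=
    Polynomial.natDegree_linear_le
  calc _ ≤ ((Polynomial.C (M : ℝ) * Polynomial.X + Polynomial.C (B : ℝ)) ^ d).natDegree :=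
        Polynomial.natDegree_C_mul_le _ _
    _ ≤ d * 1 := Polynomial.natDegree_pow_le_of_le _ h1
    _ ≤ n := by rw [mul_one]; exact (mem_Icc.mp hd).2

theorem rt5P_coeff (n : ℕ) (w : ℕ → ℝ) (M B : ℕ) :
    (rt5P (n + 1) w M B).coeff (n + 1) = w (n + 1) * (M : ℝ) ^ (n + 1) := by
  have h1 : (Polynomial.C (M : ℝ) * Polynomial.X + Polynomial.C (B : ℝ)).natDegree ≤ 1 :=
    Polynomial.natDegree_linear_le
  have h2 : rt5P (n + 1) w M B = rt5P n w M B + Polynomial.C (w (n + 1)) *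
    (Polynomial.C (M : ℝ) * Polynomial.X + Polynomial.C (B : ℝ)) ^ (n + 1) := by
    unfold rt5P
    rw [sum_Icc_succ_top (by omega)]
  rw [h2, Polynomial.coeff_add, Polynomial.coeff_eq_zero_of_natDegree_lt
    (lt_of_le_of_lt (rt5P_deg n w M B) (Nat.lt_succ_self n)), zero_add, Polynomial.coeff_C_mul]
  congr 1
  have h3 := Polynomial.coeff_pow_of_natDegree_le (m := n + 1) h1
  rw [mul_one] at h3
  rw [h3]
  congr 1
  simp

end

end Pool.Agent.Helper67.NX2

end

section

set_option autoImplicit false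

open Finset

open scoped BigOperators ComplexConjugate

namespace Pool.Agent.Helper67.NX2

open Pool.Agent.Helper57.NX

noncomputable section

/-- the difference polynomial -/
def dif25 (p : Polynomial ℝ) (h : ℕ) : Polynomial ℝ := Polynomial.taylor (h : ℝ) p - p

theorem dif_eval25 (p : Polynomial ℝ) (h : ℕ) (y : ℝ) :
    (dif25 p h).eval y = p.eval (y + h) - p.eval y := by
  unfold dif25
  rw [Polynomial.eval_sub, Polynomial.taylor_eval]

theorem dif_coeff25 (p : Polynomial ℝ) (d h : ℕ) (hp : p.natDegree ≤ d + 1) :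
    (dif25 p h).coeff d = (d + 1 : ℕ) * h * p.coeff (d + 1) := by
  unfold dif25
  rw [Polynomial.coeff_sub, Polynomial.taylor_coeff]
  have h1 : (Polynomial.hasseDeriv d p).natDegree < 2 := by
    have := Polynomial.natDegree_hasseDeriv_le p d
    omega
  rw [Polynomial.eval_eq_sum_range' h1]
  simp only [Finset.sum_range_succ, Finset.sum_range_zero, Polynomial.hasseDeriv_coeff, pow_zero,
    pow_one, zero_add, mul_one, Nat.choose_self, Nat.cast_one, one_mul]
  rw [show 1 + d = d + 1 by ring, Nat.choose_succ_self_right]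
  push_cast
  ring

theorem dif_deg25 (p : Polynomial ℝ) (d h : ℕ) (hp : p.natDegree ≤ d + 1) :
    (dif25 p h).natDegree ≤ d := by
  rw [Polynomial.natDegree_le_iff_coeff_eq_zero]
  intro n hn
  unfold dif25
  rw [Polynomial.coeff_sub, Polynomial.taylor_coeff]
  have h1 : (Polynomial.hasseDeriv n p).natDegree < 1 := by
    have := Polynomial.natDegree_hasseDeriv_le p n
    omega
  rw [Polynomial.eval_eq_sum_range' h1]
  simp [Polynomial.hasseDeriv_coeff]

end

end Pool.Agent.Helper67.NX2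

end

section

set_option autoImplicit false

open Finset

open scoped BigOperators ComplexConjugate

namespace Pool.Agent.Helper67.NX2

open Pool.Agent.Helper57.NX

noncomputable section

theorem exists_mod41 (Q R : ℕ) (hQ : 1 ≤ Q) (hQR : Q ≤ R) :
    ∃ p : ℕ, p.Prime ∧ 2 * R ≤ Q * p ∧ Q * p ≤ 8 * R := by
  obtain ⟨p, hp, h1, h2⟩ := Nat.exists_prime_lt_and_le_two_mul (2 * R / Q)
    (by
      have : 0 < 2 * R / Q := Nat.div_pos (by omega) (by omega)
      omega)
  refine ⟨p, hp, ?_, ?_⟩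
  · have h3 : 2 * R < Q * (2 * R / Q + 1) := Nat.lt_mul_div_succ _ (by omega)
    have h4 : Q * (2 * R / Q + 1) ≤ Q * p := Nat.mul_le_mul_left _ h1
    omega
  · have h3 : Q * p ≤ Q * (2 * (2 * R / Q)) := Nat.mul_le_mul_left _ h2
    have h4 : Q * (2 * R / Q) ≤ 2 * R := Nat.mul_div_le _ _
    (clear * - hQ hQR h3 h4; nlinarith)

end

end Pool.Agent.Helper67.NX2

end

section

set_option autoImplicit false

open Finset

open scoped BigOperators ComplexConjugate

namespace Pool.Agent.Helper57.NX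

noncomputable section

lemma floor_facts (x : ℝ) (hx : 1 ≤ x) :
    1 ≤ ⌊x⌋₊ ∧ (⌊x⌋₊ : ℝ) ≤ x ∧ x / 2 ≤ (⌊x⌋₊ : ℝ) := by
  have h1 : 1 ≤ ⌊x⌋₊ := Nat.le_floor (by simpa using hx)
  have h2 := Nat.lt_floor_add_one x
  have h3 : (1 : ℝ) ≤ (⌊x⌋₊ : ℝ) := by exact_mod_cast h1
  exact ⟨h1, Nat.floor_le (by (clear * - hx; linarith)), by (clear * - h2 h3; linarith)⟩

end

end Pool.Agent.Helper57.NX

end

section

set_option autoImplicit false

open Finset

open scoped BigOperators ComplexConjugate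

namespace Pool.Agent.Helper57.NX

noncomputable section

section dla_basic

theorem dla_sum_range_mul {M : Type} [AddCommMonoid M] (J X : ℕ) (H : ℕ → M) :
    ∑ v ∈ range (J * X), H v = ∑ j ∈ range J, ∑ t ∈ range X, H (j * X + t) := by
  induction J with
  | zero => simp
  | succ J ih => rw [Nat.succ_mul, sum_range_add, ih, sum_range_succ]

variable {N : ℕ} [NeZero N]

theorem dla_sum_zmod {M : Type} [AddCommMonoid M] (r : ZMod N) (G : ZMod N → M) :
    ∑ x, G x = ∑ v ∈ range N, G (r + (v : ZMod N)) := by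
  rw [← Equiv.sum_comp (Equiv.addLeft r) G]
  refine Finset.sum_bij' (fun x _ => x.val) (fun v _ => (v : ZMod N)) ?_ ?_ ?_ ?_ ?_
  · intro x _
    exact mem_range.2 (ZMod.val_lt x)
  · intro v _
    exact mem_univ _
  · intro x _
    exact ZMod.natCast_zmod_val x
  · intro v hv
    exact ZMod.val_natCast_of_lt (mem_range.1 hv)
  · intro x _
    simp

theorem dla_val {r : ZMod N} {v : ℕ} (hv : v < N) : (r + (v : ZMod N) - r).val = v := by
  rw [add_sub_cancel_left]
  exact ZMod.val_natCast_of_lt hv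

theorem dla_blk {X : ℕ} (hX : 1 ≤ X) (j t : ℕ) (ht : t < X) : (j * X + t) / X = j := by
  rw [mul_comm, Nat.mul_add_div hX, Nat.div_eq_of_lt ht, add_zero]

/-- sum over the blocks -/
theorem dla_sum_blocks {M : Type} [AddCommMonoid M] (X : ℕ) (hX : 1 ≤ X) (r : ZMod N)
    (G : ZMod N → M) (hG : ∀ v < N, N / X ≤ v / X → G (r + (v : ZMod N)) = 0) :
    ∑ x, G x = ∑ j ∈ range (N / X), ∑ t ∈ range X, G (r + ((j * X + t : ℕ) : ZMod N)) := by
  rw [dla_sum_zmod r G, ← dla_sum_range_mul (N / X) X (fun v => G (r + (v : ZMod N)))]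
  symm
  refine sum_subset ?_ ?_
  · intro v hv
    exact mem_range.2 (lt_of_lt_of_le (mem_range.1 hv) (Nat.div_mul_le_self N X))
  · intro v hv hv'
    refine hG v (mem_range.1 hv) ?_
    rw [mem_range, not_lt] at hv'
    exact (Nat.le_div_iff_mul_le hX).2 hv'

/-- average of a nonnegative function of the block -/
theorem dla_expect_blk_le (X : ℕ) (hX : 1 ≤ X) (r : ZMod N) (p : ℕ → ℝ) (hp : ∀ j, 0 ≤ p j)
    (hp0 : ∀ j, N / X ≤ j → p j = 0) :
    𝔼 x : ZMod N, p ((x - r).val / X) ≤ 𝔼 j ∈ range (N / X), p j := by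
  have hN : (0 : ℝ) < N := by exact_mod_cast Nat.pos_of_ne_zero (NeZero.ne N)
  rw [Fintype.expect_eq_sum_div_card, ZMod.card, expect_eq_sum_div_card, card_range]
  have h1 : ∑ x : ZMod N, p ((x - r).val / X) = ∑ j ∈ range (N / X), X * p j := by
    rw [dla_sum_blocks X hX r (fun x => p ((x - r).val / X))]
    · refine sum_congr rfl (fun j hj => ?_)
      rw [sum_congr rfl (g := fun _ => p j)]
      · simp
      · intro t ht
        have hlt : j * X + t < N := by
          have h2 : (j + 1) * X ≤ N :=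
            (Nat.mul_le_mul_right X (mem_range.1 hj)).trans (Nat.div_mul_le_self N X)
          have h3 := mem_range.1 ht
          calc j * X + t < j * X + X := by omega
            _ = (j + 1) * X := by ring
            _ ≤ N := h2
        rw [dla_val hlt, dla_blk hX j t (mem_range.1 ht)]
    · intro v hv hvX
      rw [dla_val hv]
      exact hp0 _ hvX
  rw [h1, ← mul_sum]
  have h0 : 0 ≤ ∑ j ∈ range (N / X), p j := sum_nonneg (fun j _ => hp j)
  rcases Nat.eq_zero_or_pos (N / X) with hz | hz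
  · rw [hz]; simp
  · have hJ : (0 : ℝ) < ((N / X : ℕ) : ℝ) := by exact_mod_cast hz
    rw [div_le_div_iff₀ hN hJ]
    have h2 : (X : ℝ) * ((N / X : ℕ) : ℝ) ≤ N := by
      have := Nat.div_mul_le_self N X
      rw [mul_comm] at this
      exact_mod_cast this
    calc (X : ℝ) * (∑ j ∈ range (N / X), p j) * ((N / X : ℕ) : ℝ)
        = (∑ j ∈ range (N / X), p j) * ((X : ℝ) * ((N / X : ℕ) : ℝ)) := by ring
      _ ≤ (∑ j ∈ range (N / X), p j) * N := mul_le_mul_of_nonneg_left h2 h0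

end dla_basic

end

end Pool.Agent.Helper57.NX

end

section

set_option autoImplicit false

set_option linter.unusedSectionVars false

set_option linter.unusedVariables false

open Finset

open scoped BigOperators ComplexConjugate

namespace Pool.Agent.Helper57.NX

noncomputable section

theorem db_shift (g : ℕ → ℂ) (hg : ∀ t, ‖g t‖ ≤ 1) (X : ℕ) (hX : 1 ≤ X) (z : ℕ) :
    ‖(𝔼 t ∈ range X, g t) - 𝔼 t ∈ range X, g (t + z)‖ ≤ 2 * z / X := by
  have hX0 : (0 : ℝ) < X := by exact_mod_cast hX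
  induction z with
  | zero => simp
  | succ z ih =>
    have key : ‖(𝔼 t ∈ range X, g (t + z)) - 𝔼 t ∈ range X, g (t + (z + 1))‖ ≤ 2 / X := by
      rw [expect_eq_sum_div_card, expect_eq_sum_div_card, card_range, ← sub_div, norm_div,
        Complex.norm_natCast]
      gcongr
      have e2 : (∑ t ∈ range X, g (t + z)) - ∑ t ∈ range X, g (t + (z + 1))
          = -(g (X + z) - g z) := by
        have h3 : ∀ t : ℕ, g (t + (z + 1)) = (fun t : ℕ => g (t + z)) (t + 1) := by
          intro t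
          simp only
          congr 1
          ring
        rw [sum_congr rfl fun t _ => h3 t, ← neg_sub, ← sum_sub_distrib,
          sum_range_sub (fun t : ℕ => g (t + z))]
        simp
      rw [e2, norm_neg]
      calc ‖g (X + z) - g z‖ ≤ ‖g (X + z)‖ + ‖g z‖ := norm_sub_le _ _
        _ ≤ 2 := by (clear * - hg; linarith [hg (X + z), hg z])
    calc ‖(𝔼 t ∈ range X, g t) - 𝔼 t ∈ range X, g (t + (z + 1))‖
        ≤ ‖(𝔼 t ∈ range X, g t) - 𝔼 t ∈ range X, g (t + z)‖
          + ‖(𝔼 t ∈ range X, g (t + z)) - 𝔼 t ∈ range X, g (t + (z + 1))‖ :=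
          norm_sub_le_norm_sub_add_norm_sub _ _ _
      _ ≤ 2 * z / X + 2 / X := add_le_add ih key
      _ = 2 * ((z + 1 : ℕ) : ℝ) / X := by
        push_cast
        ring

end

end Pool.Agent.Helper57.NX

end

section

set_option autoImplicit false

open Finset

open scoped BigOperators ComplexConjugate

namespace Pool.Agent.Helper67.NX2

open Pool.Agent.Helper57.NX

noncomputable section

lemma floor_facts (x : ℝ) (hx : 1 ≤ x) :
    1 ≤ ⌊x⌋₊ ∧ (⌊x⌋₊ : ℝ) ≤ x ∧ x / 2 ≤ (⌊x⌋₊ : ℝ) := by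
  have h1 : 1 ≤ ⌊x⌋₊ := Nat.le_floor (by simpa using hx)
  have h2 := Nat.lt_floor_add_one x
  have h3 : (1 : ℝ) ≤ (⌊x⌋₊ : ℝ) := by exact_mod_cast h1
  exact ⟨h1, Nat.floor_le (by (clear * - hx; linarith)), by (clear * - h2 h3; linarith)⟩

end

end Pool.Agent.Helper67.NX2

end

section

set_option autoImplicit false

open Finset

open scoped BigOperators ComplexConjugate

namespace Pool.Agent.Helper67.NX2

open Pool.Agent.Helper57.NX

noncomputable section

theorem sum_shift59 {K : Type} [RCLike K] (F : ℕ → K) (hF : ∀ k, ‖F k‖ ≤ 1) (T j : ℕ) :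
    ∀ u : ℕ, ‖∑ i ∈ range T, F (u + i + j) - ∑ i ∈ range T, F (u + i)‖ ≤ 2 * j := by
  induction j with
  | zero => intro u; simp
  | succ j ih =>
    intro u
    have h1 : ∑ i ∈ range T, F (u + i + (j + 1)) - ∑ i ∈ range T, F (u + i + j)
        = F (u + T + j) - F (u + j) := by
      rw [← Finset.sum_sub_distrib]
      have h2 := Finset.sum_range_sub (fun i => F (u + i + j)) T
      simp only [Nat.add_zero] at h2
      rw [← h2]
      refine Finset.sum_congr rfl fun i _ => ?_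
      congr 2
      omega
    have h3 : ∑ i ∈ range T, F (u + i + (j + 1)) - ∑ i ∈ range T, F (u + i)
        = (F (u + T + j) - F (u + j)) + (∑ i ∈ range T, F (u + i + j) - ∑ i ∈ range T, F (u + i)) := by
      rw [← h1]; ring
    rw [h3]
    calc _ ≤ ‖F (u + T + j) - F (u + j)‖ + ‖∑ i ∈ range T, F (u + i + j)
          - ∑ i ∈ range T, F (u + i)‖ := norm_add_le _ _
      _ ≤ (1 + 1) + 2 * j := add_le_add ((norm_sub_le _ _).trans (add_le_add (hF _) (hF _))) (ih u)
      _ = 2 * ((j + 1 : ℕ) : ℝ) := by push_cast; ring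

theorem expect_shift59 {K : Type} [RCLike K] (F : ℕ → K) (hF : ∀ k, ‖F k‖ ≤ 1)
    (T j u : ℕ) :
    ‖𝔼 i ∈ range T, F (u + i + j) - 𝔼 i ∈ range T, F (u + i)‖ ≤ 2 * j / T := by
  rw [expect_eq_sum_div_card, expect_eq_sum_div_card, ← sub_div, norm_div, card_range,
    RCLike.norm_natCast]
  exact div_le_div_of_nonneg_right (sum_shift59 F hF T j u) (Nat.cast_nonneg T)

theorem rpow_bounds59 (γ ξ : ℝ) (h1 : 1 ≤ ξ) (h4 : ξ ≤ 4) :
    (4 : ℝ) ^ (-|γ|) ≤ ξ ^ γ ∧ ξ ^ γ ≤ (4 : ℝ) ^ |γ| := by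
  have h0 : 0 < ξ := by (clear * - h1; linarith)
  constructor
  · calc (4 : ℝ) ^ (-|γ|) ≤ ξ ^ (-|γ|) := Real.rpow_le_rpow_of_nonpos h0 h4 (by simp)
      _ ≤ ξ ^ γ := Real.rpow_le_rpow_of_exponent_le h1 (neg_abs_le γ)
  · calc ξ ^ γ ≤ ξ ^ |γ| := Real.rpow_le_rpow_of_exponent_le h1 (le_abs_self γ)
      _ ≤ 4 ^ |γ| := Real.rpow_le_rpow h0.le h4 (abs_nonneg _)

theorem mv59 (γ s s' : ℝ) (h1 : 1 ≤ s) (h : s < s') :
    ∃ ξ, s < ξ ∧ ξ < s' ∧ s' ^ γ - s ^ γ = γ * ξ ^ (γ - 1) * (s' - s) := by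
  obtain ⟨ξ, hξ, h2⟩ := exists_hasDerivAt_eq_slope (fun x => x ^ γ) (fun x => γ * x ^ (γ - 1)) h
    (fun x hx => (Real.continuousAt_rpow_const x γ
      (Or.inl (by have := hx.1; (clear * - h1 this; linarith)))).continuousWithinAt)
    (fun x hx => Real.hasDerivAt_rpow_const (Or.inl (by have := hx.1; linarith)))
  refine ⟨ξ, hξ.1, hξ.2, ?_⟩
  have h3 : s' - s ≠ 0 := by (clear * - h; linarith)
  rw [h2, div_mul_cancel₀ _ h3]

/-- Lipschitz constant -/
def Lc59 (γ : ℝ) : ℝ := |γ| * (4 : ℝ) ^ |γ - 1|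

theorem Lc59_nonneg (γ : ℝ) : 0 ≤ Lc59 γ := by unfold Lc59; (clear * -; positivity)

theorem lip59 (γ s s' : ℝ) (h1 : 1 ≤ s) (h : s ≤ s') (h4 : s' ≤ 4) :
    |s' ^ γ - s ^ γ| ≤ Lc59 γ * (s' - s) := by
  rcases h.eq_or_lt with rfl | h
  · simp
  obtain ⟨ξ, h2, h3, h5⟩ := mv59 γ s s' h1 h
  rw [h5, abs_mul, abs_mul, abs_of_pos (sub_pos.2 h),
    abs_of_nonneg (Real.rpow_nonneg (by (clear * - h1 h2; linarith)) _)]
  unfold Lc59
  have := (rpow_bounds59 (γ - 1) ξ (by (clear * - h1 h2; linarith)) (by linarith)).2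
  have h6 := sub_pos.2 h
  gcongr

/-- the integer part of the phase is constant along the progression -/
theorem phase_int59 (b : ℤ) (q' n M : ℕ) (hq' : 1 ≤ q') (d : ℕ) :
    ∃ z : ℤ, (b : ℝ) / q' * ((n + q' * M : ℕ) : ℝ) ^ d = (b : ℝ) / q' * (n : ℝ) ^ d + z := by
  have h1 : ((q' : ℤ)) ∣ ((n + q' * M : ℕ) : ℤ) ^ d - (n : ℤ) ^ d := by
    have h2 : ((n + q' * M : ℕ) : ℤ) - n ∣ ((n + q' * M : ℕ) : ℤ) ^ d - (n : ℤ) ^ d :=
      sub_dvd_pow_sub_pow _ _ d
    refine dvd_trans ?_ h2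
    push_cast
    exact ⟨M, by ring⟩
  obtain ⟨w, hw⟩ := h1
  refine ⟨b * w, ?_⟩
  have h3 : ((n + q' * M : ℕ) : ℝ) ^ d = (n : ℝ) ^ d + q' * w := by
    have h4 : ((n + q' * M : ℕ) : ℤ) ^ d = (n : ℤ) ^ d + q' * w := by (clear * - hw; linarith)
    exact_mod_cast h4
  rw [h3]
  have hq0 : (q' : ℝ) ≠ 0 := by
    have : 0 < (q' : ℝ) := by exact_mod_cast hq'
    exact this.ne'
  push_cast
  field_simp

end

end Pool.Agent.Helper67.NX2

end

section

set_option autoImplicit false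

open Finset

open scoped BigOperators ComplexConjugate

namespace Pool.Agent.Helper41.NX

open Pool.Agent.Helper57.NX

noncomputable section

/-- shifting a sum over an interval -/
theorem sum_shift_le (Ψ : ℕ → ℂ) (hΨ : ∀ z, ‖Ψ z‖ ≤ 1) (a Z h : ℕ) :
    ‖∑ z ∈ Ico a (a + Z), Ψ (z + h) - ∑ z ∈ Ico a (a + Z), Ψ z‖ ≤ 2 * h := by
  induction h with
  | zero => simp
  | succ h ih =>
    have h1 : ∑ z ∈ Ico a (a + Z), Ψ (z + (h + 1)) - ∑ z ∈ Ico a (a + Z), Ψ (z + h) =
        Ψ (a + Z + h) - Ψ (a + h) := by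
      rw [← sum_sub_distrib]
      have h2 := Finset.sum_Ico_sub (fun z => Ψ (z + h)) (m := a) (n := a + Z) (by omega)
      rw [← h2]
      refine sum_congr rfl fun z _ => ?_
      rw [show z + (h + 1) = z + 1 + h by ring]
    have h3 : ∑ z ∈ Ico a (a + Z), Ψ (z + (h + 1)) - ∑ z ∈ Ico a (a + Z), Ψ z =
        (Ψ (a + Z + h) - Ψ (a + h)) +
          (∑ z ∈ Ico a (a + Z), Ψ (z + h) - ∑ z ∈ Ico a (a + Z), Ψ z) := by
      rw [← h1]; ring
    rw [h3]
    refine (norm_add_le _ _).trans ?_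
    have h4 : ‖Ψ (a + Z + h) - Ψ (a + h)‖ ≤ 2 := by
      refine (norm_sub_le _ _).trans ?_
      (clear * - hΨ; linarith [hΨ (a + Z + h), hΨ (a + h)])
    push_cast
    (clear * - ih h4; linarith)

theorem sq_expect_le {ι : Type*} (s : Finset ι) (g : ι → ℝ) :
    (𝔼 i ∈ s, g i) ^ 2 ≤ 𝔼 i ∈ s, g i ^ 2 := by
  rcases s.eq_empty_or_nonempty with rfl | hs
  · simp
  have hc : (0 : ℝ) < s.card := by exact_mod_cast hs.card_pos
  rw [expect_eq_sum_div_card, expect_eq_sum_div_card, div_pow, div_le_div_iff₀ (by positivity) hc]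
  have := sq_sum_le_card_mul_sum_sq (s := s) (f := g)
  nlinarith

end

end Pool.Agent.Helper41.NX

end

section

set_option autoImplicit false

open Finset

open scoped BigOperators ComplexConjugate

namespace Pool.Agent.Helper41.NX

open Pool.Agent.Helper57.NX

noncomputable section

theorem expect_close_le (H : ℕ) (hH : 1 ≤ H) (R : ℝ) (hR : 0 ≤ R) :
    𝔼 h ∈ range H, 𝔼 h' ∈ range H, (if |(h : ℝ) - h'| ≤ R then (1 : ℝ) else 0) ≤
      (2 * R + 1) / H := by
  have hne : (range H).Nonempty := ⟨0, by simp; omega⟩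
  have hH0 : (0 : ℝ) < H := by (clear * - hH; positivity)
  refine expect_le hne fun h _ => ?_
  rw [expect_eq_sum_div_card, card_range]
  apply div_le_div_of_nonneg_right _ hH0.le
  rw [← sum_filter, sum_const, nsmul_eq_mul, mul_one]
  have h1 : ((range H).filter fun h' : ℕ => |(h : ℝ) - h'| ≤ R).card ≤
      (Finset.Icc ((h : ℤ) - ⌊R⌋₊) ((h : ℤ) + ⌊R⌋₊)).card := by
    apply Finset.card_le_card_of_injOn (fun h' : ℕ => (h' : ℤ))
    · intro h' hh'
      have hh2 : |(h : ℝ) - h'| ≤ R := (mem_filter.mp (mem_coe.mp hh')).2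
      rw [coe_Icc, Set.mem_Icc]
      change ((h : ℤ) - ⌊R⌋₊ ≤ (h' : ℤ) ∧ (h' : ℤ) ≤ (h : ℤ) + ⌊R⌋₊)
      have h2 := abs_le.mp hh2
      have h3 : (h : ℤ) - h' ≤ ⌊R⌋₊ := by
        rcases le_or_gt (h : ℤ) h' with h4 | h4
        · have : (0 : ℤ) ≤ ⌊R⌋₊ := by (clear * -; positivity)
          omega
        · have h5 : h' ≤ h := by exact_mod_cast h4.le
          have h6 : h - h' ≤ ⌊R⌋₊ := by
            apply Nat.le_floor
            push_cast [h5]
            exact h2.2
          omega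
      have h7 : (h' : ℤ) - h ≤ ⌊R⌋₊ := by
        rcases le_or_gt (h' : ℤ) h with h4 | h4
        · have : (0 : ℤ) ≤ ⌊R⌋₊ := by (clear * -; positivity)
          omega
        · have h5 : h ≤ h' := by exact_mod_cast h4.le
          have h6 : h' - h ≤ ⌊R⌋₊ := by
            apply Nat.le_floor
            push_cast [h5]
            (clear * - h2; linarith [h2.1])
          omega
      constructor <;> omega
    · intro a _ b _ hab
      have hab' : (a : ℤ) = (b : ℤ) := hab
      exact_mod_cast hab'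
  have h2 : (Finset.Icc ((h : ℤ) - ⌊R⌋₊) ((h : ℤ) + ⌊R⌋₊)).card = 2 * ⌊R⌋₊ + 1 := by
    rw [Int.card_Icc]
    omega
  rw [h2] at h1
  have h3 : (⌊R⌋₊ : ℝ) ≤ R := Nat.floor_le hR
  have h4 : ((((range H).filter fun h' : ℕ => |(h : ℝ) - h'| ≤ R).card : ℕ) : ℝ) ≤
      2 * ⌊R⌋₊ + 1 := by exact_mod_cast h1
  (clear * - h3 h4; linarith)

end

end Pool.Agent.Helper41.NX

end

section

set_option autoImplicit false

open Finset

open scoped BigOperators ComplexConjugate

namespace Pool.Agent.Helper67.NX2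

open Pool.Agent.Helper57.NX

noncomputable section

section Core

variable {N : ℕ} [NeZero N]

/-- adding a multiple of `Q` does not change the remainder mod `Q` -/
theorem mod92 {Q p z r : ℕ} (hN : N = Q * p) (hr : r < Q) (b : ℤ) :
    ((((Q * z + r : ℕ) : ZMod N) + ((Q * b : ℤ) : ZMod N)).val) % Q = r := by
  have hd : Q ∣ N := ⟨p, hN⟩
  have hQ : 0 < Q := by omega
  have : NeZero Q := ⟨by omega⟩
  set y : ZMod N := ((Q * z + r : ℕ) : ZMod N) + ((Q * b : ℤ) : ZMod N) with hy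
  have h1 : (ZMod.castHom hd (ZMod Q)) y = (r : ZMod Q) := by
    rw [hy, map_add, map_natCast, map_intCast]
    push_cast
    simp
  have h2 : (ZMod.castHom hd (ZMod Q)) y = ((y.val : ℕ) : ZMod Q) := by
    conv_lhs => rw [← ZMod.natCast_zmod_val y]
    rw [map_natCast]
  rw [h2] at h1
  have h3 := (ZMod.natCast_eq_natCast_iff' _ _ _).1 h1
  rw [h3, Nat.mod_eq_of_lt hr]

/-- the block-constant argument -/
theorem arg92 {Q p z r r0 : ℕ} (hN : N = Q * p) (hr : r < Q) (b : ℤ) :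
    ((Q * ((((Q * z + r : ℕ) : ZMod N) + ((Q * b : ℤ) : ZMod N)).val / Q) + r0 : ℕ) : ZMod N) =
      ((Q * z + r0 : ℕ) : ZMod N) + ((Q * b : ℤ) : ZMod N) := by
  set y : ZMod N := ((Q * z + r : ℕ) : ZMod N) + ((Q * b : ℤ) : ZMod N) with hy
  have h1 : y.val % Q = r := mod92 hN hr b
  have h2 : Q * (y.val / Q) + y.val % Q = y.val := Nat.div_add_mod _ _
  rw [h1] at h2
  have h3 : ((Q * (y.val / Q) : ℕ) : ZMod N) + (r : ZMod N) = y := by
    rw [← Nat.cast_add, h2, ZMod.natCast_zmod_val]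
  have h4 : ((Q * (y.val / Q) : ℕ) : ZMod N) = y - (r : ZMod N) := eq_sub_of_add_eq h3
  rw [Nat.cast_add, h4, hy]
  push_cast
  ring

/-- jumps of the indicator of an interval of residues -/
theorem jump92 {Q : ℕ} (hQ : 1 ≤ Q) {r0 ℓ : ℕ} (hr : r0 + ℓ ≤ Q) (w : ℕ) :
    ‖(if r0 ≤ (w + 1) % Q ∧ (w + 1) % Q < r0 + ℓ then (1 : ℂ) else 0) -
      (if r0 ≤ w % Q ∧ w % Q < r0 + ℓ then (1 : ℂ) else 0)‖ ≤
    (if (w + 1) % Q = r0 % Q then (1 : ℝ) else 0) +
      (if (w + 1) % Q = (r0 + ℓ) % Q then (1 : ℝ) else 0) := by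
  have hu : w % Q < Q := Nat.mod_lt _ (by omega)
  have h1 : (w + 1) % Q = (w % Q + 1) % Q := (Nat.mod_add_mod _ _ _).symm
  rw [h1]
  set u := w % Q with hu'
  have h2 : (u + 1) % Q = if u + 1 = Q then 0 else u + 1 := by
    split_ifs with h
    · rw [h, Nat.mod_self]
    · exact Nat.mod_eq_of_lt (by omega)
  rw [h2]
  set u' := (if u + 1 = Q then 0 else u + 1) with hu''
  have h0 : (0 : ℝ) ≤ (if u' = r0 % Q then (1 : ℝ) else 0) := by split_ifs <;> norm_num
  have h0' : (0 : ℝ) ≤ (if u' = (r0 + ℓ) % Q then (1 : ℝ) else 0) := by split_ifs <;> norm_num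
  by_cases ha : r0 ≤ u' ∧ u' < r0 + ℓ <;> by_cases hb : r0 ≤ u ∧ u < r0 + ℓ
  · rw [if_pos ha, if_pos hb, sub_self, norm_zero]; (clear * -; positivity)
  · rw [if_pos ha, if_neg hb, sub_zero, norm_one]
    have h3 : u' = r0 % Q := by
      have h4 : r0 % Q = r0 := Nat.mod_eq_of_lt (by
        have : u' < Q := by rw [hu'']; split_ifs <;> omega
        omega)
      rw [h4]
      by_cases h5 : u + 1 = Q
      · rw [if_pos h5] at hu''; omega
      · rw [if_neg h5] at hu''; omega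
    rw [if_pos h3]
    (clear * - h0'; linarith)
  · rw [if_neg ha, if_pos hb, zero_sub, norm_neg, norm_one]
    have h3 : u' = (r0 + ℓ) % Q := by
      by_cases h5 : u + 1 = Q
      · rw [if_pos h5] at hu''
        have h6 : r0 + ℓ = Q := by omega
        rw [h6, Nat.mod_self, hu'']
      · rw [if_neg h5] at hu''
        have h6 : u' = r0 + ℓ := by omega
        rw [← h6, Nat.mod_eq_of_lt (by omega)]
    rw [if_pos h3]
    (clear * - h0; linarith)
  · rw [if_neg ha, if_neg hb, sub_self, norm_zero]; (clear * -; positivity)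

end Core

end

end Pool.Agent.Helper67.NX2

end

section

set_option autoImplicit false

open Finset

open scoped BigOperators ComplexConjugate

namespace Pool.Agent.Helper67.NX2

open Pool.Agent.Helper57.NX

noncomputable section

lemma pow_sub_le52 (a b : ℝ) (hb : 0 ≤ b) (hab : b ≤ a) (d : ℕ) :
    a ^ (d + 1) - b ^ (d + 1) ≤ (d + 1) * a ^ d * (a - b) := by
  have ha : 0 ≤ a := hb.trans hab
  induction d with
  | zero => simp
  | succ d ih =>
    have h1 : a ^ (d + 1 + 1) - b ^ (d + 1 + 1) =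
        a ^ (d + 1) * (a - b) + b * (a ^ (d + 1) - b ^ (d + 1)) := by ring
    have h2 : b * (a ^ (d + 1) - b ^ (d + 1)) ≤ a * ((d + 1) * a ^ d * (a - b)) := by
      have h3 : 0 ≤ a ^ (d + 1) - b ^ (d + 1) := sub_nonneg.2 (pow_le_pow_left₀ hb hab _)
      calc b * (a ^ (d + 1) - b ^ (d + 1)) ≤ a * (a ^ (d + 1) - b ^ (d + 1)) :=
            mul_le_mul_of_nonneg_right hab h3
        _ ≤ _ := mul_le_mul_of_nonneg_left ih ha
    rw [h1]
    push_cast
    have h4 : a * ((d + 1) * a ^ d * (a - b)) = (d + 1) * a ^ (d + 1) * (a - b) := by ring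
    (clear * - h2 h4; linarith)

end

end Pool.Agent.Helper67.NX2

end

section

set_option autoImplicit false

open Finset

open scoped BigOperators ComplexConjugate

namespace Pool.Agent.Helper57.NX

noncomputable section

namespace LF

variable {N : ℕ} [NeZero N]

omit [NeZero N] in
/-- `j / X'` and `j / e` are coupled: `ρ * (j / X') ≈ j / e` -/
theorem couple_real (ρ : ℝ) (hρ : 0 < ρ) (X' e j : ℕ) (hX' : 0 < X') (he : 0 < e)
    (he1 : ρ * e ≤ X') (he2 : (X' : ℝ) < ρ * (e + 1)) (hj : j < e * X') :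
    -(2 * ρ) ≤ ρ * ((j / X' : ℕ) : ℝ) - ((j / e : ℕ) : ℝ) ∧
      ρ * ((j / X' : ℕ) : ℝ) - ((j / e : ℕ) : ℝ) ≤ 1 := by
  have hX0 : (0 : ℝ) < X' := by exact_mod_cast hX'
  have he0 : (0 : ℝ) < e := by exact_mod_cast he
  have hj0 : (0 : ℝ) ≤ j := Nat.cast_nonneg _
  have a1 : ((j / X' : ℕ) : ℝ) * X' ≤ j := by exact_mod_cast Nat.div_mul_le_self j X'
  have a2 : (j : ℝ) < ((j / X' : ℕ) : ℝ) * X' + X' := by
    exact_mod_cast Nat.lt_div_mul_add (a := j) hX'
  have a3 : ((j / e : ℕ) : ℝ) * e ≤ j := by exact_mod_cast Nat.div_mul_le_self j e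
  exact by
    have a4 : (j : ℝ) < ((j / e : ℕ) : ℝ) * e + e := by
      exact_mod_cast Nat.lt_div_mul_add (a := j) he
    have a5 : (j : ℝ) < e * X' := by exact_mod_cast hj
    set l : ℝ := ((j / X' : ℕ) : ℝ) with hl
    set a : ℝ := ((j / e : ℕ) : ℝ) with ha
    constructor
    · -- `a * e ≤ j`, `l * X' > j - X'`
      have h1 : (a - 2 * ρ) * (e * X') ≤ ρ * l * (e * X') := by
        have h2 : ρ * e * (j - X') ≤ ρ * e * (l * X') :=
          mul_le_mul_of_nonneg_left (by (clear * - a2; linarith)) (by (clear * - hρ he; positivity))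
        have h3 : a * e * X' ≤ j * X' := mul_le_mul_of_nonneg_right a3 hX0.le
        have h4 : (j : ℝ) * (X' - ρ * e) ≤ e * X' * ρ := by
          calc (j : ℝ) * (X' - ρ * e) ≤ (e * X') * (X' - ρ * e) :=
                mul_le_mul_of_nonneg_right a5.le (by (clear * - he1; linarith))
            _ ≤ (e * X') * ρ := mul_le_mul_of_nonneg_left (by (clear * - he2; linarith)) (by positivity)
        (clear * - h2 h3 h4; nlinarith)
      have h2 := le_of_mul_le_mul_right h1 (by positivity)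
      (clear * - h2; linarith)
    · have h1 : ρ * l * (e * X') ≤ (a + 1) * (e * X') := by
        have h2 : ρ * e * (l * X') ≤ ρ * e * j := mul_le_mul_of_nonneg_left a1 (by positivity)
        have h3 : ρ * e * j ≤ X' * j := mul_le_mul_of_nonneg_right he1 hj0
        have h4 : (X' : ℝ) * j ≤ X' * (a * e + e) := mul_le_mul_of_nonneg_left a4.le hX0.le
        (clear * - h2 h3 h4; nlinarith)
      have h2 := le_of_mul_le_mul_right h1 (by positivity)
      (clear * - h2; linarith)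

omit [NeZero N] in
theorem round_bound {r : ℕ} (α : Fin r → ℝ) (j : Fin r) (k : ℕ) (l : Fin r → ℕ) :
    |(((-∑ i, ⌊α i * (l i : ℝ)⌋) + ⌊α j * ((k + ∑ i, l i : ℕ) : ℝ)⌋
      - ⌊α j * k + ∑ i ∈ univ.erase j, (α j - α i) * l i⌋ : ℤ) : ℝ)| ≤ r + 2 := by
  have h1 := Int.floor_le (α j * ((k + ∑ i, l i : ℕ) : ℝ))
  have h2 := Int.lt_floor_add_one (α j * ((k + ∑ i, l i : ℕ) : ℝ))
  have h3 := Int.floor_le (α j * k + ∑ i ∈ univ.erase j, (α j - α i) * l i)
  have h4 := Int.lt_floor_add_one (α j * k + ∑ i ∈ univ.erase j, (α j - α i) * l i)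
  have h5 : (∑ i, (⌊α i * (l i : ℝ)⌋ : ℝ)) ≤ ∑ i, α i * (l i : ℝ) :=
    Finset.sum_le_sum fun i _ => Int.floor_le _
  have h6 : (∑ i, α i * (l i : ℝ)) - r ≤ ∑ i, (⌊α i * (l i : ℝ)⌋ : ℝ) := by
    have h7 : ∑ i : Fin r, (α i * (l i : ℝ) - 1) ≤ ∑ i, (⌊α i * (l i : ℝ)⌋ : ℝ) :=
      Finset.sum_le_sum fun i _ => by (clear * -; linarith [Int.lt_floor_add_one (α i * (l i : ℝ))])
    rw [Finset.sum_sub_distrib] at h7
    simpa using h7
  exact by
    have h8 : α j * ((k + ∑ i, l i : ℕ) : ℝ) - ∑ i, α i * (l i : ℝ)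
        = α j * k + ∑ i ∈ univ.erase j, (α j - α i) * l i := by
      have h9 : ∑ i ∈ univ.erase j, (α j - α i) * (l i : ℝ) = ∑ i, (α j - α i) * (l i : ℝ) := by
        rw [Finset.sum_erase]
        ring
      rw [h9]
      push_cast
      rw [mul_add, Finset.mul_sum]
      have h10 : ∑ i, (α j - α i) * (l i : ℝ) = ∑ i, α j * (l i : ℝ) - ∑ i, α i * (l i : ℝ) := by
        rw [← Finset.sum_sub_distrib]
        exact Finset.sum_congr rfl fun i _ => by ring
      rw [h10]
      ring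
    have hr : (0 : ℝ) ≤ r := Nat.cast_nonneg r
    push_cast at h1 h2 h8 ⊢
    rw [abs_le]
    constructor <;> (clear * - h3 h5 h2 h8 h4 h6 h1; linarith)

end LF

end

end Pool.Agent.Helper57.NX

end

section

set_option autoImplicit false

open Finset

open scoped BigOperators ComplexConjugate

namespace Pool.Agent.Helper57.NX

noncomputable section

namespace SW27

/-- Taylor's formula of order two. -/
theorem taylor2 (f f1 f2 : ℝ → ℝ) (a b B : ℝ) (hab : a ≤ b)
    (h1 : ∀ y, a ≤ y → y ≤ b → HasDerivAt f (f1 y) y)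
    (h2 : ∀ y, a ≤ y → y ≤ b → HasDerivAt f1 (f2 y) y)
    (hB : ∀ y, a ≤ y → y ≤ b → |f2 y| ≤ B) : |f b - f a - (b - a) * f1 a| ≤ B * (b - a) ^ 2 := by
  have hB0 : 0 ≤ B := (abs_nonneg _).trans (hB a le_rfl hab)
  have s1 : ∀ y, a ≤ y → y ≤ b → |f1 y - f1 a| ≤ B * (b - a) := by
    intro y hy hy'
    have h := (convex_Icc a b).norm_image_sub_le_of_norm_hasDerivWithin_le (f := f1) (f' := f2)
      (C := B) (x := a) (y := y) (fun z hz => (h2 z hz.1 hz.2).hasDerivWithinAt)
      (fun z hz => by rw [Real.norm_eq_abs]; exact hB z hz.1 hz.2) ⟨le_rfl, hab⟩ ⟨hy, hy'⟩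
    rw [Real.norm_eq_abs, Real.norm_eq_abs] at h
    refine h.trans ?_
    rw [abs_of_nonneg (by (clear * - hy; linarith))]
    exact mul_le_mul_of_nonneg_left (by (clear * - hy'; linarith)) hB0
  have h := (convex_Icc a b).norm_image_sub_le_of_norm_hasDerivWithin_le
    (f := fun y => f y - y * f1 a) (f' := fun y => f1 y - 1 * f1 a)
    (C := B * (b - a)) (x := a) (y := b)
    (fun z hz => ((h1 z hz.1 hz.2).sub ((hasDerivAt_id z).mul_const (f1 a))).hasDerivWithinAt)
    (fun z hz => by rw [Real.norm_eq_abs, one_mul]; exact s1 z hz.1 hz.2) ⟨le_rfl, hab⟩ ⟨hab, le_rfl⟩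
  rw [Real.norm_eq_abs, Real.norm_eq_abs, abs_of_nonneg (by linarith : (0 : ℝ) ≤ b - a)] at h
  have e1 : f b - b * f1 a - (f a - a * f1 a) = f b - f a - (b - a) * f1 a := by ring
  rw [e1] at h
  refine h.trans (le_of_eq ?_)
  ring

end SW27

end

end Pool.Agent.Helper57.NX

end

section

set_option autoImplicit false

open Finset

open scoped BigOperators ComplexConjugate

namespace Pool.Agent.Helper91.NX2

open Pool.Agent.Helper57.NX

open Pool.Agent.Helper67.NX2

open Pool.Agent.Helper82.NX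

noncomputable section

theorem natDegree_diff (G : Polynomial ℤ) (h : ℤ) (k : ℕ) (hG : G.natDegree ≤ k) :
    (Polynomial.taylor h G - G).natDegree ≤ k - 1 := by
  rw [Polynomial.natDegree_le_iff_coeff_eq_zero]
  intro j hj
  rw [Polynomial.coeff_sub]
  rcases lt_trichotomy j G.natDegree with h1 | h1 | h1
  · omega
  · rw [h1, Polynomial.coeff_taylor_natDegree, Polynomial.coeff_natDegree, sub_self]
  · rw [Polynomial.coeff_eq_zero_of_natDegree_lt h1, Polynomial.coeff_eq_zero_of_natDegree_lt, sub_zero]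
    rw [Polynomial.natDegree_taylor]
    exact h1

theorem dl_poly (F : Polynomial ℤ) (n : ℕ) (hF : F.natDegree ≤ n) (t : List ℕ) :
    ∃ G : Polynomial ℤ, G.natDegree ≤ n - t.length ∧
      ∀ k : ℕ, dl t (fun k : ℕ => F.eval (k : ℤ)) k = G.eval (k : ℤ) := by
  induction t with
  | nil => exact ⟨F, by simpa using hF, fun k => rfl⟩
  | cons h t ih =>
    obtain ⟨G, hG, hGe⟩ := ih
    refine ⟨Polynomial.taylor (h : ℤ) G - G, ?_, ?_⟩
    · have := natDegree_diff G h _ hG
      simp only [List.length_cons]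
      omega
    · intro k
      rw [dl, hGe, hGe, Polynomial.eval_sub, Polynomial.taylor_eval]
      push_cast
      rfl

theorem dl_lin (Q lam r d : ℕ) (t : List ℕ) (ht : d - 1 ≤ t.length) (a : ℕ → ℤ)
    (ha : ∀ k, a k = (Q : ℤ) * ((lam * k + r : ℕ) : ℤ) ^ d) :
    ∃ α β : ℤ, ∀ k : ℕ, dl t a k = Q * (α * k + β) := by
  obtain ⟨G, hG, hGe⟩ := dl_poly ((Polynomial.C (lam : ℤ) * Polynomial.X + Polynomial.C (r : ℤ)) ^ d)
    d (by
      refine Polynomial.natDegree_pow_le.trans ?_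
      have := Polynomial.natDegree_linear_le (a := (lam : ℤ)) (b := (r : ℤ))
      calc d * _ ≤ d * 1 := Nat.mul_le_mul_left _ this
        _ = d := mul_one d) t
  obtain ⟨α, β, hαβ⟩ := Polynomial.exists_eq_X_add_C_of_natDegree_le_one
    (show G.natDegree ≤ 1 by omega)
  refine ⟨α, β, ?_⟩
  have h1 : ∀ t : List ℕ, ∀ k : ℕ, dl t a k = Q * dl t (fun k : ℕ =>
      ((Polynomial.C (lam : ℤ) * Polynomial.X + Polynomial.C (r : ℤ)) ^ d).eval (k : ℤ)) k := by
    intro t
    induction t with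
    | nil =>
      intro k
      rw [dl, dl, ha]
      simp
    | cons h t ih =>
      intro k
      rw [dl, dl, ih, ih]
      ring
  intro k
  rw [h1, hGe, hαβ]
  simp

end

end Pool.Agent.Helper91.NX2

end

section

set_option autoImplicit false

open Finset

open scoped BigOperators ComplexConjugate

namespace Pool.Agent.Helper57.NX

noncomputable section

theorem shift_sum {G : ℕ → ℂ} (hG : ∀ k, ‖G k‖ ≤ 1) (u T j : ℕ) :
    ‖∑ k ∈ Ico u (u + T), G k - ∑ k ∈ Ico u (u + T), G (k + j)‖ ≤ 2 * j := by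
  induction j with
  | zero => simp
  | succ j ih =>
    have h1 : ∑ k ∈ Ico u (u + T), G (k + (j + 1)) =
        ∑ k ∈ Ico u (u + T), G (k + j) + G (u + T + j) - G (u + j) := by
      have h2 : ∀ T : ℕ, ∑ k ∈ Ico u (u + T), G (k + (j + 1)) =
          ∑ k ∈ Ico u (u + T), G (k + j) + G (u + T + j) - G (u + j) := by
        intro T
        induction T with
        | zero => simp
        | succ T ihT =>
          rw [← add_assoc, Finset.sum_Ico_succ_top (by omega), Finset.sum_Ico_succ_top (by omega),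
            ihT]
          have h3 : u + T + (j + 1) = u + T + 1 + j := by ring
          rw [h3]
          ring
      exact h2 T
    rw [h1]
    have h4 : ∑ k ∈ Ico u (u + T), G k -
        (∑ k ∈ Ico u (u + T), G (k + j) + G (u + T + j) - G (u + j)) =
        (∑ k ∈ Ico u (u + T), G k - ∑ k ∈ Ico u (u + T), G (k + j)) + (G (u + j) - G (u + T + j)) := by
      ring
    rw [h4]
    refine (norm_add_le _ _).trans ?_
    have h5 : ‖G (u + j) - G (u + T + j)‖ ≤ 2 := by
      refine (norm_sub_le _ _).trans ?_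
      linarith [hG (u + j), hG (u + T + j)]
    push_cast
    (clear * - ih h5; linarith)

theorem shift_expect {G : ℕ → ℂ} (hG : ∀ k, ‖G k‖ ≤ 1) (u T j : ℕ) (hT : 1 ≤ T) :
    ‖𝔼 k ∈ Ico u (u + T), G k - 𝔼 k ∈ Ico u (u + T), G (k + j)‖ ≤ 2 * j / T := by
  have hT0 : (0 : ℝ) < T := by exact_mod_cast hT
  rw [Finset.expect_eq_sum_div_card, Finset.expect_eq_sum_div_card, ← sub_div, norm_div,
    Nat.card_Ico, Nat.add_sub_cancel_left, Complex.norm_natCast]
  exact div_le_div_of_nonneg_right (shift_sum hG u T j) hT0.le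

end

end Pool.Agent.Helper57.NX

end

section

set_option autoImplicit false

set_option linter.unusedSectionVars false

set_option linter.unusedVariables false

open Finset

open scoped BigOperators ComplexConjugate

namespace Pool.Agent.Helper67.NX2

open Pool.Agent.Helper57.NX

noncomputable section

theorem dbq_shift (g : ℕ → ℂ) (hg : ∀ t, ‖g t‖ ≤ 1) (X : ℕ) (hX : 1 ≤ X) (z : ℕ) :
    ‖(𝔼 t ∈ range X, g t) - 𝔼 t ∈ range X, g (t + z)‖ ≤ 2 * z / X := by
  have hX0 : (0 : ℝ) < X := by exact_mod_cast hX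
  induction z with
  | zero => simp
  | succ z ih =>
    have key : ‖(𝔼 t ∈ range X, g (t + z)) - 𝔼 t ∈ range X, g (t + (z + 1))‖ ≤ 2 / X := by
      rw [expect_eq_sum_div_card, expect_eq_sum_div_card, card_range, ← sub_div, norm_div,
        Complex.norm_natCast]
      gcongr
      have e2 : (∑ t ∈ range X, g (t + z)) - ∑ t ∈ range X, g (t + (z + 1))
          = -(g (X + z) - g z) := by
        have h3 : ∀ t : ℕ, g (t + (z + 1)) = (fun t : ℕ => g (t + z)) (t + 1) := by
          intro t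
          simp only
          congr 1
          ring
        rw [sum_congr rfl fun t _ => h3 t, ← neg_sub, ← sum_sub_distrib,
          sum_range_sub (fun t : ℕ => g (t + z))]
        simp
      rw [e2, norm_neg]
      calc ‖g (X + z) - g z‖ ≤ ‖g (X + z)‖ + ‖g z‖ := norm_sub_le _ _
        _ ≤ 2 := by (clear * - hg; linarith [hg (X + z), hg z])
    calc ‖(𝔼 t ∈ range X, g t) - 𝔼 t ∈ range X, g (t + (z + 1))‖
        ≤ ‖(𝔼 t ∈ range X, g t) - 𝔼 t ∈ range X, g (t + z)‖
          + ‖(𝔼 t ∈ range X, g (t + z)) - 𝔼 t ∈ range X, g (t + (z + 1))‖ :=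
          norm_sub_le_norm_sub_add_norm_sub _ _ _
      _ ≤ 2 * z / X + 2 / X := add_le_add ih key
      _ = 2 * ((z + 1 : ℕ) : ℝ) / X := by
        push_cast
        ring

end

end Pool.Agent.Helper67.NX2

end

section

set_option autoImplicit false

open Finset

open scoped BigOperators ComplexConjugate

namespace Pool.Agent.Helper57.NX

noncomputable section

namespace US10

/-- a sum over `n` consecutive blocks -/
theorem block_aux (G : ℕ → ℂ) (u T T' : ℕ) (B : ℝ)
    (h : ∀ u', u ≤ u' → u' + T' ≤ u + T → ‖∑ k ∈ Ico u' (u' + T'), G k‖ ≤ B) (n : ℕ)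
    (hn : n * T' ≤ T) : ‖∑ k ∈ Ico u (u + n * T'), G k‖ ≤ n * B := by
  induction n with
  | zero => simp
  | succ n ih =>
    have h1 : n * T' ≤ T := (Nat.mul_le_mul_right _ (Nat.le_succ n)).trans hn
    have h2 : u + (n + 1) * T' = u + n * T' + T' := by ring
    rw [h2, ← Finset.sum_Ico_consecutive G (Nat.le_add_right u (n * T')) (Nat.le_add_right _ T')]
    have h3 := h (u + n * T') (Nat.le_add_right _ _) (by
      have : (n + 1) * T' = n * T' + T' := by ring
      omega)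
    have h4 := ih h1
    push_cast
    calc _ ≤ _ := norm_add_le _ _
      _ ≤ n * B + B := add_le_add h4 h3
      _ = _ := by ring

/-- if all block sums are small, so is the whole sum -/
theorem block_sum (G : ℕ → ℂ) (hG : ∀ k, ‖G k‖ ≤ 1) (u T T' : ℕ) (hT' : 0 < T') (B : ℝ)
    (hB : 0 ≤ B)
    (h : ∀ u', u ≤ u' → u' + T' ≤ u + T → ‖∑ k ∈ Ico u' (u' + T'), G k‖ ≤ B) :
    ‖∑ k ∈ Ico u (u + T), G k‖ ≤ (T / T' : ℝ) * B + T' := by
  have h1 : T / T' * T' ≤ T := Nat.div_mul_le_self T T'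
  have h2 := block_aux G u T T' B h (T / T') h1
  rw [← Finset.sum_Ico_consecutive G (Nat.le_add_right u (T / T' * T')) (by omega :
    u + T / T' * T' ≤ u + T)]
  have h3 : ‖∑ k ∈ Ico (u + T / T' * T') (u + T), G k‖ ≤ T' := by
    refine (norm_sum_le _ _).trans ((Finset.sum_le_card_nsmul _ _ 1 fun k _ => hG k).trans ?_)
    rw [nsmul_eq_mul, mul_one, Nat.card_Ico]
    have h4 : T < T / T' * T' + T' := by
      have := Nat.lt_div_mul_add (a := T) hT'
      omega
    exact_mod_cast (by omega : u + T - (u + T / T' * T') ≤ T')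
  have h4 : ((T / T' : ℕ) : ℝ) ≤ (T / T' : ℝ) := Nat.cast_div_le
  calc _ ≤ _ := norm_add_le _ _
    _ ≤ _ := add_le_add (h2.trans (mul_le_mul_of_nonneg_right h4 hB)) h3

end US10

end

end Pool.Agent.Helper57.NX

end

section

set_option autoImplicit false

open Finset

open scoped BigOperators ComplexConjugate

namespace Pool.Agent.Helper67.NX2

open Pool.Agent.Helper57.NX

noncomputable section

namespace Low94

section Aq

variable {N : ℕ} [NeZero N]

theorem sq_expect_le (g : ZMod N → ℝ) : (𝔼 x, g x) ^ 2 ≤ 𝔼 x, g x ^ 2 := by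
  set a : ℝ := 𝔼 x, g x with ha
  have h1 : (0 : ℝ) ≤ 𝔼 x : ZMod N, (g x - a) ^ 2 := expect_nonneg fun x _ => sq_nonneg _
  have h2 : (𝔼 x : ZMod N, (g x - a) ^ 2) = (𝔼 x, g x ^ 2) - a ^ 2 := by
    have e1 : ∀ x : ZMod N, (g x - a) ^ 2 = g x ^ 2 - 2 * a * g x + a ^ 2 := fun x => by ring
    simp_rw [e1]
    rw [Finset.expect_add_distrib, Finset.expect_sub_distrib, ← Finset.mul_expect,
      Finset.expect_const Finset.univ_nonempty, ← ha]
    ring
  linarith

end Aq

end Low94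

end

end Pool.Agent.Helper67.NX2

end

section

set_option autoImplicit false

open Finset

open scoped BigOperators ComplexConjugate

namespace Pool.Agent.Helper67.NX2

open Pool.Agent.Helper57.NX

noncomputable section

theorem shift_sum21 {G : ℕ → ℂ} (hG : ∀ k, ‖G k‖ ≤ 1) (u T j : ℕ) :
    ‖∑ k ∈ Ico u (u + T), G k - ∑ k ∈ Ico u (u + T), G (k + j)‖ ≤ 2 * j := by
  induction j with
  | zero => simp
  | succ j ih =>
    have h1 : ∑ k ∈ Ico u (u + T), G (k + (j + 1)) =
        ∑ k ∈ Ico u (u + T), G (k + j) + G (u + T + j) - G (u + j) := by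
      have h2 : ∀ T : ℕ, ∑ k ∈ Ico u (u + T), G (k + (j + 1)) =
          ∑ k ∈ Ico u (u + T), G (k + j) + G (u + T + j) - G (u + j) := by
        intro T
        induction T with
        | zero => simp
        | succ T ihT =>
          rw [← add_assoc, Finset.sum_Ico_succ_top (by omega), Finset.sum_Ico_succ_top (by omega),
            ihT]
          have h3 : u + T + (j + 1) = u + T + 1 + j := by ring
          rw [h3]
          ring
      exact h2 T
    rw [h1]
    have h4 : ∑ k ∈ Ico u (u + T), G k -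
        (∑ k ∈ Ico u (u + T), G (k + j) + G (u + T + j) - G (u + j)) =
        (∑ k ∈ Ico u (u + T), G k - ∑ k ∈ Ico u (u + T), G (k + j)) +
          (G (u + j) - G (u + T + j)) := by
      ring
    rw [h4]
    refine (norm_add_le _ _).trans ?_
    have h5 : ‖G (u + j) - G (u + T + j)‖ ≤ 2 := by
      refine (norm_sub_le _ _).trans ?_
      linarith [hG (u + j), hG (u + T + j)]
    push_cast
    linarith

theorem shift_expect21 {G : ℕ → ℂ} (hG : ∀ k, ‖G k‖ ≤ 1) (u T j : ℕ) (hT : 1 ≤ T) :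
    ‖𝔼 k ∈ Ico u (u + T), G k - 𝔼 k ∈ Ico u (u + T), G (k + j)‖ ≤ 2 * j / T := by
  have hT0 : (0 : ℝ) < T := by exact_mod_cast hT
  rw [Finset.expect_eq_sum_div_card, Finset.expect_eq_sum_div_card, ← sub_div, norm_div,
    Nat.card_Ico, Nat.add_sub_cancel_left, Complex.norm_natCast]
  exact div_le_div_of_nonneg_right (shift_sum21 hG u T j) hT0.le

end

end Pool.Agent.Helper67.NX2

end

section

set_option autoImplicit false

open Finset

open scoped BigOperators ComplexConjugate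

namespace Pool.Agent.Helper57.NX

noncomputable section

section TVs

variable {N : ℕ} [NeZero N]

theorem count_mod (v l Q r : ℕ) (hQ : 0 < Q) :
    (#((range l).filter fun j => (v + j) % Q = r) : ℝ) ≤ l / Q + 1 := by
  rcases ((range l).filter fun j => (v + j) % Q = r).eq_empty_or_nonempty with h | ⟨j0, hj0⟩
  · rw [h, Finset.card_empty, Nat.cast_zero]
    positivity
  · have hj0' := (Finset.mem_filter.mp hj0).2
    have h1 : (range l).filter (fun j => (v + j) % Q = r) ⊆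
        (range l).filter (fun j => j ≡ j0 [MOD Q]) := by
      intro j hj
      rw [Finset.mem_filter] at hj ⊢
      refine ⟨hj.1, ?_⟩
      have h2 : v + j ≡ v + j0 [MOD Q] := hj.2.trans hj0'.symm
      exact Nat.ModEq.add_left_cancel' v h2
    have h3 := Finset.card_le_card h1
    rw [← Nat.count_eq_card_filter_range, ← Nat.count_eq_card_filter_range,
      Nat.count_modEq_card l hQ j0] at h3
    rw [← Nat.count_eq_card_filter_range]
    have h4 : l / Q + (if j0 % Q < l % Q then 1 else 0) ≤ l / Q + 1 := by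
      split_ifs <;> omega
    have h5 : ((l / Q : ℕ) : ℝ) ≤ (l : ℝ) / Q := Nat.cast_div_le
    have h6 : ((Nat.count (fun j => (v + j) % Q = r) l : ℕ) : ℝ) ≤ ((l / Q + 1 : ℕ) : ℝ) := by
      exact_mod_cast h3.trans h4
    push_cast at h6
    linarith

end TVs

end

end Pool.Agent.Helper57.NX

end

section

set_option autoImplicit false

open Finset

open scoped BigOperators ComplexConjugate

namespace Pool.Agent.Helper67.NX2

open Pool.Agent.Helper57.NX

noncomputable section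

lemma rap_hybrid {s : ℕ} (Φ : (Option (Fin s) → ℕ → ℝ) → ℝ)
    (hΦ : ∀ h o v w, Φ (Function.update h o v) - Φ (Function.update h o w) =
      Φ (Function.update h o (fun x => v x - w x)))
    (f g : Option (Fin s) → ℕ → ℝ) (B : ℝ)
    (hB : ∀ (S : Finset (Option (Fin s))) (o : Option (Fin s)),
      |Φ (Function.update (fun o' => if o' ∈ S then g o' else f o') o
        (fun x => f o x - g o x))| ≤ B) :
    |Φ f - Φ g| ≤ (s + 1) * B := by
  have key : ∀ S : Finset (Option (Fin s)),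
      |Φ f - Φ (fun o' => if o' ∈ S then g o' else f o')| ≤ S.card * B := by
    intro S
    induction S using Finset.induction_on with
    | empty => simp
    | insert o S ho ih =>
      have e1 : (fun o' => if o' ∈ insert o S then g o' else f o') =
          Function.update (fun o' => if o' ∈ S then g o' else f o') o (g o) := by
        funext o'
        by_cases h : o' = o
        · subst h
          rw [Function.update_self, if_pos (mem_insert_self _ _)]
        · rw [Function.update_of_ne h]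
          simp [mem_insert, h]
      have e2 : (fun o' => if o' ∈ S then g o' else f o') =
          Function.update (fun o' => if o' ∈ S then g o' else f o') o (f o) := by
        funext o'
        by_cases h : o' = o
        · subst h
          rw [Function.update_self, if_neg ho]
        · rw [Function.update_of_ne h]
      have e3 := hΦ (fun o' => if o' ∈ S then g o' else f o') o (f o) (g o)
      rw [← e2, ← e1] at e3
      have e4 : Φ f - Φ (fun o' => if o' ∈ insert o S then g o' else f o') =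
          (Φ f - Φ (fun o' => if o' ∈ S then g o' else f o')) +
          (Φ (fun o' => if o' ∈ S then g o' else f o') -
            Φ (fun o' => if o' ∈ insert o S then g o' else f o')) := by ring
      rw [e4, e3, card_insert_of_notMem ho]
      refine (abs_add_le _ _).trans ?_
      have := hB S o
      push_cast
      linarith
  have h := key univ
  simp only [mem_univ, if_true] at h
  refine h.trans (le_of_eq ?_)
  simp

def rext (h : ℕ → ℝ) (x : ℤ) : ℂ := if 0 ≤ x then ((h x.toNat : ℝ) : ℂ) else 0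

lemma rext_nat (h : ℕ → ℝ) (n : ℕ) : rext h (n : ℤ) = ((h n : ℝ) : ℂ) := by
  simp [rext]

lemma rext_add (h : ℕ → ℝ) (n m : ℕ) :
    rext h ((n : ℤ) + ((m : ℕ) : ℤ)) = ((h (n + m) : ℝ) : ℂ) := by
  rw [← Nat.cast_add, rext_nat]

lemma norm_rext (h : ℕ → ℝ) (h1 : ∀ x, |h x| ≤ 1) (x : ℤ) : ‖rext h x‖ ≤ 1 := by
  unfold rext
  split_ifs
  · rw [Complex.norm_real, Real.norm_eq_abs]
    exact h1 _
  · simp

lemma rext_zero (h : ℕ → ℝ) (Z : ℕ) (hz : ∀ y, Z ≤ y → h y = 0) (x : ℤ)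
    (hx : x < 0 ∨ (Z : ℤ) ≤ x) : rext h x = 0 := by
  unfold rext
  rcases hx with hx | hx
  · rw [if_neg (by omega)]
  · rw [if_pos (by omega), hz _ (by omega)]
    simp

lemma expect_ofReal46 {ι : Type} (S : Finset ι) (a : ι → ℝ) :
    (𝔼 k ∈ S, ((a k : ℝ) : ℂ)) = ((𝔼 k ∈ S, a k : ℝ) : ℂ) := by
  rw [expect_eq_sum_div_card, expect_eq_sum_div_card]
  push_cast
  rfl

lemma rap_sum_expect (h : ℕ → ℝ) (Z q L : ℕ) :
    ∑ x ∈ range Z, ‖𝔼 a ∈ range L, rext h ((x : ℤ) + ((q * a : ℕ) : ℤ))‖ =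
      ∑ x ∈ range Z, |𝔼 a ∈ range L, h (x + q * a)| := by
  refine sum_congr rfl fun x _ => ?_
  have e1 : ∀ a ∈ range L, rext h ((x : ℤ) + ((q * a : ℕ) : ℤ)) = ((h (x + q * a) : ℝ) : ℂ) :=
    fun a _ => rext_add _ _ _
  rw [expect_congr rfl e1, expect_ofReal46, Complex.norm_real, Real.norm_eq_abs]

end

end Pool.Agent.Helper67.NX2

end

section

set_option autoImplicit false

open Finset

open scoped BigOperators ComplexConjugate

namespace Pool.Agent.Helper67.NX2

open Pool.Agent.Helper57.NX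

noncomputable section

/-- block lengths are comparable to `z` -/
lemma blk46 {b z : ℕ} {D e ε τ : ℝ} (hε' : ε ≤ 1 / 8) (he : 1 ≤ e) (hD : 256 ≤ D)
    (hτ : (2 : ℝ) ^ (τ * z) ≤ D) (hb : D ^ (e - 2 * ε) / 4 ≤ (2 : ℝ) ^ b) :
    (2 : ℝ) ^ (τ * z / 2) ≤ (2 : ℝ) ^ b ∧ τ * z / 2 ≤ b := by
  have hD0 : 0 < D := by (clear * - hD; linarith)
  have hD1 : 1 ≤ D := by (clear * - hD; linarith)
  have h1 : D ^ (3 / 4 : ℝ) ≤ D ^ (e - 2 * ε) :=
    Real.rpow_le_rpow_of_exponent_le hD1 (by (clear * - hε' he; linarith))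
  have h2 : (4 : ℝ) ≤ D ^ (1 / 4 : ℝ) := by
    have h3 : (4 : ℝ) = 256 ^ (1 / 4 : ℝ) := by
      rw [show (256 : ℝ) = 4 ^ (4 : ℝ) by norm_num, ← Real.rpow_mul (by norm_num)]
      norm_num
    exact h3.le.trans (Real.rpow_le_rpow (by norm_num) hD (by norm_num))
  have h3 : D ^ (3 / 4 : ℝ) = D ^ (1 / 2 : ℝ) * D ^ (1 / 4 : ℝ) := by
    rw [← Real.rpow_add hD0]
    norm_num
  have h4 : D ^ (1 / 2 : ℝ) ≤ (2 : ℝ) ^ b := by
    have h5 : 0 < D ^ (1 / 2 : ℝ) := Real.rpow_pos_of_pos hD0 _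
    have h6 := mul_le_mul_of_nonneg_left h2 h5.le
    linarith
  have h5 : (2 : ℝ) ^ (τ * z / 2) ≤ D ^ (1 / 2 : ℝ) := by
    have h6 := Real.rpow_le_rpow (by positivity) hτ (by norm_num : (0 : ℝ) ≤ 1 / 2)
    rw [← Real.rpow_mul (by norm_num)] at h6
    refine le_trans (le_of_eq ?_) h6
    congr 1
    ring
  have h6 := h5.trans h4
  refine ⟨h6, ?_⟩
  rw [← Real.rpow_natCast 2 b] at h6
  exact (Real.rpow_le_rpow_left_iff (by norm_num)).1 h6

end

end Pool.Agent.Helper67.NX2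

end

section

set_option autoImplicit false

open Finset

open scoped BigOperators ComplexConjugate

namespace Pool.Agent.Helper67.NX2

open Pool.Agent.Helper57.NX

noncomputable section

namespace B8

/-- number of small subsets -/
theorem card_small_le (r0 R : ℕ) (hR : 2 ≤ R) (PP : Finset ℕ) (hPP : ∀ p ∈ PP, p.Prime ∧ p ≤ R) :
    (PP.powerset.filter (fun S => S.card ≤ r0)).card ≤ R ^ (2 * r0 + 1) := by
  have hc : PP.card ≤ R := by
    have : PP ⊆ Icc 1 R := by
      intro p hp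
      exact mem_Icc.mpr ⟨(hPP p hp).1.one_le, (hPP p hp).2⟩
    simpa using card_le_card this
  have h1 : PP.powerset.filter (fun S => S.card ≤ r0) ⊆
      (range (r0 + 1)).biUnion fun i => PP.powersetCard i := by
    intro S hS
    rw [mem_filter, mem_powerset] at hS
    rw [mem_biUnion]
    exact ⟨S.card, mem_range.mpr (by omega), mem_powersetCard.mpr ⟨hS.1, rfl⟩⟩
  refine (card_le_card h1).trans (card_biUnion_le.trans ?_)
  have h2 : ∀ i ∈ range (r0 + 1), (PP.powersetCard i).card ≤ R ^ r0 := by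
    intro i hi
    rw [card_powersetCard]
    refine (Nat.choose_le_pow _ _).trans ?_
    exact (Nat.pow_le_pow_left hc i).trans (Nat.pow_le_pow_right (by omega)
      (by have := mem_range.mp hi; omega))
  refine (sum_le_sum h2).trans ?_
  rw [sum_const, card_range, smul_eq_mul]
  have h3 : r0 + 1 ≤ R ^ (r0 + 1) :=
    (Nat.lt_two_pow_self.le.trans (Nat.pow_le_pow_left hR _))
  calc (r0 + 1) * R ^ r0 ≤ R ^ (r0 + 1) * R ^ r0 := Nat.mul_le_mul_right _ h3
    _ = R ^ (2 * r0 + 1) := by rw [← pow_add]; congr 1; ring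

end B8

end

end Pool.Agent.Helper67.NX2

end

section

set_option autoImplicit false

open Finset

open scoped BigOperators ComplexConjugate

namespace Pool.Agent.Helper67.NX2

open Pool.Agent.Helper57.NX

noncomputable section

section Main

variable {F : ℕ → ℝ} {K b j R r0 r1 : ℕ} {PP : Finset ℕ} {B0 V : ℝ}

/-- number of small subsets -/
theorem gmm_count_subsets (hR : 2 ≤ R) (hPP : ∀ p ∈ PP, p.Prime ∧ p ≤ R ∧ ¬ p ∣ K) :
    (((univ : Finset (Finset {p // p ∈ PP})).filter (fun S => S.card ≤ r0)).card : ℝ) ≤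
      (R : ℝ) ^ (2 * r0 + 1) := by
  classical
  have hcardPP : PP.card ≤ R := by
    have h1 : PP ⊆ Icc 1 R := by
      intro p hp
      rw [Finset.mem_Icc]
      exact ⟨(hPP p hp).1.one_le, (hPP p hp).2.1⟩
    have h2 := Finset.card_le_card h1
    rw [Nat.card_Icc] at h2
    omega
  have h1 : (univ : Finset (Finset {p // p ∈ PP})).filter (fun S => S.card ≤ r0) ⊆
      (range (r0 + 1)).biUnion
        (fun i => Finset.powersetCard i (univ : Finset {p // p ∈ PP})) := by
    intro S hS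
    rw [Finset.mem_filter] at hS
    rw [Finset.mem_biUnion]
    refine ⟨S.card, Finset.mem_range.mpr (by omega), ?_⟩
    rw [Finset.mem_powersetCard]
    exact ⟨Finset.subset_univ _, rfl⟩
  have h2 : ((univ : Finset (Finset {p // p ∈ PP})).filter (fun S => S.card ≤ r0)).card ≤
      (r0 + 1) * R ^ r0 := by
    refine (Finset.card_le_card h1).trans (Finset.card_biUnion_le.trans ?_)
    calc ∑ i ∈ range (r0 + 1), (Finset.powersetCard i (univ : Finset {p // p ∈ PP})).card
        ≤ ∑ _i ∈ range (r0 + 1), R ^ r0 := by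
          refine Finset.sum_le_sum fun i hi => ?_
          rw [Finset.card_powersetCard, Finset.card_univ, Fintype.card_coe]
          calc PP.card.choose i ≤ PP.card ^ i := Nat.choose_le_pow _ _
            _ ≤ R ^ i := Nat.pow_le_pow_left hcardPP i
            _ ≤ R ^ r0 := Nat.pow_le_pow_right (by omega)
              (by have := Finset.mem_range.mp hi; omega)
      _ = (r0 + 1) * R ^ r0 := by
          rw [Finset.sum_const, Finset.card_range, smul_eq_mul]
  have h3 : r0 + 1 ≤ R ^ (r0 + 1) := by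
    have h4 : r0 + 1 < 2 ^ (r0 + 1) := Nat.lt_two_pow_self
    exact h4.le.trans (Nat.pow_le_pow_left hR _)
  have h5 : ((univ : Finset (Finset {p // p ∈ PP})).filter (fun S => S.card ≤ r0)).card ≤
      R ^ (2 * r0 + 1) := by
    refine h2.trans ((Nat.mul_le_mul_right _ h3).trans (le_of_eq ?_))
    rw [← pow_add]
    congr 1
    omega
  exact_mod_cast h5

end Main

end

end Pool.Agent.Helper67.NX2

end

section

set_option autoImplicit false

open Finset

open scoped BigOperators ComplexConjugate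

namespace Pool.Agent.Helper67.NX2

open Pool.Agent.Helper57.NX

noncomputable section

namespace VB

/-- the frequencies of `∏ (u_p - 1)` -/
def AEs (r1 : ℕ) (E : Finset ℕ) : Finset ℕ :=
  (range (∏ p ∈ E, p ^ r1)).filter (fun a => ∀ p ∈ E, ¬ p ^ r1 ∣ a)

theorem sub_of (r1 : ℕ) {E E' : Finset ℕ} (hE : ∀ p ∈ E, p.Prime) (hE' : ∀ p ∈ E', p.Prime)
    {a a' : ℕ} (ha : a ∈ AEs r1 E) (m : ℤ)
    (h : (a : ℤ) * (∏ p ∈ E', p ^ r1 : ℕ) - a' * (∏ p ∈ E, p ^ r1 : ℕ) =
      m * ((∏ p ∈ E, p ^ r1 : ℕ) * (∏ p ∈ E', p ^ r1 : ℕ))) : E ⊆ E' := by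
  intro p hp
  by_contra hp'
  have h1 : ((p ^ r1 : ℕ) : ℤ) ∣ ((∏ p ∈ E, p ^ r1 : ℕ) : ℤ) :=
    Int.natCast_dvd_natCast.2 (dvd_prod_of_mem _ hp)
  have h2 : ((p ^ r1 : ℕ) : ℤ) ∣ (a : ℤ) * (∏ p ∈ E', p ^ r1 : ℕ) := by
    have : (a : ℤ) * (∏ p ∈ E', p ^ r1 : ℕ) = (∏ p ∈ E, p ^ r1 : ℕ) *
        (a' + m * (∏ p ∈ E', p ^ r1 : ℕ)) := by linear_combination h
    rw [this]
    exact h1.mul_right _
  rw [← Nat.cast_mul, Int.natCast_dvd_natCast] at h2
  have h3 : Nat.Coprime (p ^ r1) (∏ p ∈ E', p ^ r1) := by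
    refine Nat.Coprime.prod_right fun q hq => Nat.Coprime.pow r1 r1 ?_
    exact (Nat.coprime_primes (hE p hp) (hE' q hq)).2 (fun h => hp' (h ▸ hq))
  exact (mem_filter.1 ha).2 p hp (h3.dvd_of_dvd_mul_right h2)

theorem dist_frac (r1 : ℕ) {E E' : Finset ℕ} (hE : ∀ p ∈ E, p.Prime) (hE' : ∀ p ∈ E', p.Prime)
    {a a' : ℕ} (ha : a ∈ AEs r1 E) (ha' : a' ∈ AEs r1 E') (m : ℤ)
    (h : (a : ℤ) * (∏ p ∈ E', p ^ r1 : ℕ) - a' * (∏ p ∈ E, p ^ r1 : ℕ) =
      m * ((∏ p ∈ E, p ^ r1 : ℕ) * (∏ p ∈ E', p ^ r1 : ℕ))) : E = E' ∧ a = a' := by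
  have h1 : E = E' := Subset.antisymm (sub_of r1 hE hE' ha m h)
    (sub_of r1 hE' hE (a' := a) ha' (-m) (by linear_combination -h))
  subst h1
  refine ⟨rfl, ?_⟩
  have hn : 0 < ∏ p ∈ E, p ^ r1 := prod_pos fun p hp => pow_pos (hE p hp).pos r1
  have h2 := mem_range.1 (mem_filter.1 ha).1
  have h3 := mem_range.1 (mem_filter.1 ha').1
  generalize (∏ p ∈ E, p ^ r1) = n at *
  have h4 : (a : ℤ) - a' = m * n := by
    have hn' : (n : ℤ) ≠ 0 := by (clear * - hn; positivity)
    apply mul_right_cancel₀ hn'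
    linear_combination h
  have hm : m = 0 := by
    by_contra hm
    rcases lt_or_gt_of_ne hm with hm | hm
    · have : m * n ≤ -1 * n := by
        apply mul_le_mul_of_nonneg_right (by omega) (by positivity)
      omega
    · have : 1 * n ≤ m * n := by
        apply mul_le_mul_of_nonneg_right (by omega) (by positivity)
      omega
  rw [hm, zero_mul] at h4
  omega

end VB

end

end Pool.Agent.Helper67.NX2

end

section

set_option autoImplicit false

open Finset

open scoped BigOperators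

namespace Pool.Agent.Helper57.NX3

noncomputable section

/-- difference of two products of numbers in `[0, V]` -/
lemma prod_diff8 {ρ : Type} (s : Finset ρ) (a b : ρ → ℝ) {V E : ℝ} (hV : 1 ≤ V)
    (ha0 : ∀ j, 0 ≤ a j) (haV : ∀ j, a j ≤ V) (hb0 : ∀ j, 0 ≤ b j) (hbV : ∀ j, b j ≤ V)
    (hE : ∀ j, |a j - b j| ≤ E) (hE0 : 0 ≤ E) :
    |∏ j ∈ s, a j - ∏ j ∈ s, b j| ≤ s.card * V ^ s.card * E := by
  classical
  induction s using Finset.induction_on with
  | empty => simp
  | insert i s his ih =>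
    rw [prod_insert his, prod_insert his, card_insert_of_notMem his]
    have hP0 : 0 ≤ ∏ j ∈ s, a j := prod_nonneg fun j _ => ha0 j
    have hPV : ∏ j ∈ s, a j ≤ V ^ s.card := by
      rw [← prod_const]
      exact prod_le_prod (fun j _ => ha0 j) (fun j _ => haV j)
    have hVn : 0 ≤ V ^ s.card := by (clear * - hV; positivity)
    have e : a i * ∏ j ∈ s, a j - b i * ∏ j ∈ s, b j =
        (a i - b i) * ∏ j ∈ s, a j + b i * (∏ j ∈ s, a j - ∏ j ∈ s, b j) := by ring
    rw [e]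
    refine (abs_add_le _ _).trans ?_
    rw [abs_mul, abs_mul, abs_of_nonneg hP0, abs_of_nonneg (hb0 i)]
    have h1 : |a i - b i| * ∏ j ∈ s, a j ≤ E * V ^ s.card :=
      mul_le_mul (hE i) hPV hP0 hE0
    have h2 : b i * |∏ j ∈ s, a j - ∏ j ∈ s, b j| ≤ V * (s.card * V ^ s.card * E) :=
      mul_le_mul (hbV i) ih (abs_nonneg _) (by (clear * - hV; linarith))
    have h3 : E * V ^ s.card ≤ V ^ (s.card + 1) * E := by
      rw [pow_succ]
      have : E * V ^ s.card * 1 ≤ E * V ^ s.card * V :=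
        mul_le_mul_of_nonneg_left hV (by (clear * - hE0 hV; positivity))
      (clear * - this; nlinarith)
    push_cast
    calc |a i - b i| * ∏ j ∈ s, a j + b i * |∏ j ∈ s, a j - ∏ j ∈ s, b j|
        ≤ V ^ (s.card + 1) * E + V * (s.card * V ^ s.card * E) := by (clear * - h1 h2 h3; linarith)
      _ = ((s.card : ℝ) + 1) * V ^ (s.card + 1) * E := by ring

end

end Pool.Agent.Helper57.NX3

end

section

set_option autoImplicit false

open Finset

open scoped BigOperators

namespace Pool.Agent.Helper57.NX3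

noncomputable section

/-- the scales -/
theorem scale_facts (Θ j z : ℕ) (τ : ℝ) (hΘ : 2 ≤ Θ) (hτ : τ * (2 * Θ ^ (j + 2)) ≤ 1)
    (hz : 2 * Θ ^ (j + 2) ≤ z) :
    ((2 : ℝ) ^ z) ^ τ ≤ (((2 ^ (z / Θ ^ (j + 2)) : ℕ)) : ℝ) ∧
      (z / Θ ^ (j + 2)) * Θ ≤ z / Θ ^ (j + 1) ∧ z / Θ ^ (j + 1) ≤ z := by
  have hpos : 0 < Θ ^ (j + 2) := by positivity
  have hposr : (0 : ℝ) < ((Θ ^ (j + 2) : ℕ) : ℝ) := by exact_mod_cast hpos
  refine ⟨?_, ?_, Nat.div_le_self _ _⟩
  · have h1 : (z : ℝ) * τ ≤ ((z / Θ ^ (j + 2) : ℕ) : ℝ) := by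
      have h2 : (z : ℝ) / ((Θ ^ (j + 2) : ℕ) : ℝ) < ((z / Θ ^ (j + 2) : ℕ) : ℝ) + 1 := by
        rw [div_lt_iff₀ hposr]
        have h3 := Nat.lt_mul_div_succ z hpos
        have h4 : ((z : ℕ) : ℝ) < ((Θ ^ (j + 2) * (z / Θ ^ (j + 2) + 1) : ℕ) : ℝ) := by
          exact_mod_cast h3
        rw [Nat.cast_mul, Nat.cast_add, Nat.cast_one] at h4
        linarith
      have h5 : (1 : ℝ) ≤ (z : ℝ) / (2 * ((Θ ^ (j + 2) : ℕ) : ℝ)) := by
        rw [le_div_iff₀ (by positivity), one_mul]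
        exact_mod_cast hz
      have h6 : τ ≤ 1 / (2 * ((Θ ^ (j + 2) : ℕ) : ℝ)) := by
        rw [le_div_iff₀ (by positivity)]
        push_cast
        exact hτ
      have h7 : (z : ℝ) * τ ≤ z * (1 / (2 * ((Θ ^ (j + 2) : ℕ) : ℝ))) :=
        mul_le_mul_of_nonneg_left h6 (Nat.cast_nonneg _)
      have h8 : (z : ℝ) * (1 / (2 * ((Θ ^ (j + 2) : ℕ) : ℝ))) =
          (z : ℝ) / ((Θ ^ (j + 2) : ℕ) : ℝ) - (z : ℝ) / (2 * ((Θ ^ (j + 2) : ℕ) : ℝ)) := by
        field_simp
        ring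
      linarith
    calc ((2 : ℝ) ^ z) ^ τ = (2 : ℝ) ^ ((z : ℝ) * τ) := by
          rw [← Real.rpow_natCast, ← Real.rpow_mul (by norm_num)]
      _ ≤ (2 : ℝ) ^ (((z / Θ ^ (j + 2) : ℕ) : ℝ)) :=
          Real.rpow_le_rpow_of_exponent_le (by norm_num) h1
      _ = _ := by rw [Real.rpow_natCast]; push_cast; rfl
  · have h1 : z / Θ ^ (j + 2) = z / Θ ^ (j + 1) / Θ := by
      rw [Nat.div_div_eq_div_mul, ← pow_succ]
    rw [h1]
    exact Nat.div_mul_le_self _ _

end

end Pool.Agent.Helper57.NX3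

end

section

set_option autoImplicit false

open Finset Real

namespace Pool.Agent.Helper57.FP

open Pool.Agent.Helper44 Pool.Agent.Helper96.CPAP

theorem eventually_small (r : ℕ) : ∀ᶠ Z : ℕ in Filter.atTop,
    3 * (Z : ℝ) ^ (1 / 2 : ℝ) ≤ Z / (Real.log Z) ^ r := by
  have h1 : (fun x : ℝ => Real.log x ^ r) =o[Filter.atTop] fun x : ℝ => x ^ (1 / 2 : ℝ) := by
    have := isLittleO_log_rpow_rpow_atTop (s := 1 / 2) (r : ℝ) (by norm_num)
    simpa [Real.rpow_natCast] using this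
  have h2 : ∀ᶠ x : ℝ in Filter.atTop, ‖Real.log x ^ r‖ ≤ (1 / 3) * ‖x ^ (1 / 2 : ℝ)‖ :=
    h1.bound (by norm_num)
  have h3 : ∀ᶠ Z : ℕ in Filter.atTop, ‖Real.log (Z : ℝ) ^ r‖ ≤ (1 / 3) * ‖(Z : ℝ) ^ (1 / 2 : ℝ)‖ :=
    tendsto_natCast_atTop_atTop.eventually h2
  filter_upwards [h3, Filter.eventually_ge_atTop 2] with Z hZ hZ2
  have hZ1 : (1 : ℝ) < Z := by exact_mod_cast hZ2
  have hlog : 0 < Real.log Z := Real.log_pos hZ1
  have hpos : 0 < (Z : ℝ) ^ (1 / 2 : ℝ) := Real.rpow_pos_of_pos (by (clear * - hZ1; linarith)) _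
  rw [Real.norm_of_nonneg (by positivity), Real.norm_of_nonneg hpos.le] at hZ
  rw [le_div_iff₀ (by positivity)]
  have h4 : (Z : ℝ) ^ (1 / 2 : ℝ) * (Z : ℝ) ^ (1 / 2 : ℝ) = Z := by
    rw [← Real.rpow_add (by (clear * - hZ1; linarith))]; norm_num
  calc 3 * (Z : ℝ) ^ (1 / 2 : ℝ) * Real.log Z ^ r
      ≤ 3 * (Z : ℝ) ^ (1 / 2 : ℝ) * ((1 / 3) * (Z : ℝ) ^ (1 / 2 : ℝ)) := by gcongr
    _ = (Z : ℝ) ^ (1 / 2 : ℝ) * (Z : ℝ) ^ (1 / 2 : ℝ) := by ring
    _ = Z := h4

end Pool.Agent.Helper57.FP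

end

section

set_option autoImplicit false

open Finset Real

namespace Pool.Agent.Helper57.FP

open Pool.Agent.Helper44

theorem card_dvd_le (α : ℤ) {d : ℕ} (hd : 0 < d) (L : ℕ) :
    (((range L).filter (fun i : ℕ => (d : ℤ) ∣ α + i)).card : ℝ) ≤ (L : ℝ) / d + 1 := by
  set v : ℕ := ((-α) % d).toNat with hv
  have hd' : (d : ℤ) ≠ 0 := by exact_mod_cast hd.ne'
  have hv' : (v : ℤ) = (-α) % d := by
    rw [hv, Int.toNat_of_nonneg (Int.emod_nonneg _ hd')]
  have h1 : ∀ i : ℕ, (d : ℤ) ∣ α + i ↔ i ≡ v [MOD d] := by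
    intro i
    rw [← Int.natCast_modEq_iff, Int.modEq_iff_dvd, hv']
    have h2 : (d : ℤ) ∣ (-α) % d - (-α) := by
      rw [← Int.modEq_iff_dvd]
      exact (Int.mod_modEq _ _).symm
    constructor
    · intro h
      have := dvd_sub h2 h
      have h3 : (-α) % (d : ℤ) - (-α) - (α + i) = (-α) % (d : ℤ) - i := by ring
      rwa [h3] at this
    · intro h
      have := dvd_sub h2 h
      have h3 : (-α) % (d : ℤ) - (-α) - ((-α) % (d : ℤ) - i) = α + i := by ring
      rwa [h3] at this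
  have h2 : (range L).filter (fun i : ℕ => (d : ℤ) ∣ α + i) =
      (range L).filter (fun i : ℕ => i ≡ v [MOD d]) := Finset.filter_congr fun i _ => h1 i
  rw [h2, ← Nat.count_eq_card_filter_range, Nat.count_modEq_card L hd v]
  push_cast
  have h3 : ((L / d : ℕ) : ℝ) ≤ (L : ℝ) / d := Nat.cast_div_le
  have h4 : ((if v % d < L % d then 1 else 0 : ℕ) : ℝ) ≤ 1 := by
    split_ifs <;> simp
  push_cast at h4
  linarith

end Pool.Agent.Helper57.FP

end

section

set_option autoImplicit false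

open Finset Real

namespace Pool.Agent.Helper57.FP

theorem pigeon (E : ℕ → ℝ) (K : ℕ) (hK : 0 < K) (M : ℝ) (h0 : E 0 ≤ M) (hK0 : 0 ≤ E K) :
    ∃ i < K, E i - E (i + 1) ≤ M / K := by
  by_contra hne
  push Not at hne
  have h1 : ∑ i ∈ range K, (E i - E (i + 1)) = E 0 - E K := Finset.sum_range_sub' E K
  have hK' : (0 : ℝ) < K := by exact_mod_cast hK
  have h2 : ∑ _i ∈ range K, M / K < ∑ i ∈ range K, (E i - E (i + 1)) := by
    apply Finset.sum_lt_sum_of_nonempty
    · exact ⟨0, Finset.mem_range.mpr hK⟩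
    · intro i hi
      exact hne i (Finset.mem_range.mp hi)
  rw [h1, Finset.sum_const, Finset.card_range, nsmul_eq_mul] at h2
  have : (K : ℝ) * (M / K) = M := by (clear * - hK; field_simp)
  (clear * - h0 hK0 h2 this; linarith)

end Pool.Agent.Helper57.FP

end

section

set_option autoImplicit false

open Finset

open scoped BigOperators ComplexConjugate

namespace Pool.Agent.Helper57.NX

noncomputable section

theorem frac_ok {Q : ℕ} (hQ : 0 < Q) {x η : ℝ} (hx : 0 ≤ x) (hf : Int.fract x < 1 - η) {e : ℕ}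
    (he : (e : ℝ) < η * Q) : (e + ⌊(Q : ℝ) * x⌋₊) / Q = ⌊x⌋₊ := by
  have hQ0 : (0 : ℝ) < Q := by exact_mod_cast hQ
  have hfl : (⌊x⌋₊ : ℝ) = x - Int.fract x := by
    have h1 : ((⌊x⌋₊ : ℤ) : ℝ) = (⌊x⌋ : ℝ) := by rw [Int.natCast_floor_eq_floor hx]
    rw [Int.fract]
    push_cast at h1
    (clear * - h1; linarith)
  have h2 : Q * ⌊x⌋₊ ≤ ⌊(Q : ℝ) * x⌋₊ := by
    refine Nat.le_floor ?_
    push_cast
    exact mul_le_mul_of_nonneg_left (Nat.floor_le hx) hQ0.le
  have h3 : e + ⌊(Q : ℝ) * x⌋₊ < Q * (⌊x⌋₊ + 1) := by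
    have h4 : (⌊(Q : ℝ) * x⌋₊ : ℝ) ≤ Q * x := Nat.floor_le (by (clear * - hQ hx; positivity))
    have h5 : ((e + ⌊(Q : ℝ) * x⌋₊ : ℕ) : ℝ) < ((Q * (⌊x⌋₊ + 1) : ℕ) : ℝ) := by
      push_cast
      rw [hfl]
      have h6 : (Q : ℝ) * Int.fract x < Q * (1 - η) := mul_lt_mul_of_pos_left hf hQ0
      (clear * - he h4 h6; nlinarith)
    exact_mod_cast h5
  refine Nat.div_eq_of_lt_le ?_ ?_
  · rw [mul_comm ⌊x⌋₊ Q]
    omega
  · rw [mul_comm (⌊x⌋₊ + 1) Q]
    exact h3

end

end Pool.Agent.Helper57.NX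

end

section

set_option autoImplicit false

open Finset

open scoped BigOperators

namespace Pool.Agent.Helper57.NX3

noncomputable section

theorem phi_eq {M M' : ℕ} (hM : 1 ≤ M) (hM' : 1 ≤ M') (h : M'.primeFactors = M.primeFactors) :
    (M'.totient : ℝ) / M' = (M.totient : ℝ) / M := by
  have h1 : ∀ n : ℕ, 1 ≤ n → (n.totient : ℝ) / n = ∏ p ∈ n.primeFactors, (1 - (p : ℝ)⁻¹) := by
    intro n hn
    have h2 := Nat.totient_eq_mul_prod_factors n
    have h3 : (n.totient : ℝ) = n * ∏ p ∈ n.primeFactors, (1 - (p : ℝ)⁻¹) := by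
      have := congrArg (fun q : ℚ => (q : ℝ)) h2
      push_cast at this
      exact this
    have h4 : (n : ℝ) ≠ 0 := by
      have : (0 : ℝ) < n := by exact_mod_cast hn
      exact this.ne'
    rw [h3, mul_div_cancel_left₀ _ h4]
  rw [h1 M' hM', h1 M hM, h]

end

end Pool.Agent.Helper57.NX3

end

section

set_option autoImplicit false

open Finset

open scoped BigOperators

namespace Pool.Agent.Helper57.NX3

noncomputable section

theorem gs_ev (M : ℕ) (hM : 1 ≤ M) (δ θ : ℝ) (hδ : 0 < δ) (hθ : 0 < θ) :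
    ∃ z0 : ℕ, ∀ z : ℕ, z0 ≤ z → 100 * (M : ℝ) ≤ ((2 : ℝ) ^ z) ^ θ ∧
      (M : ℝ) * Real.log ((2 : ℝ) ^ z) ≤ δ / 100 * 2 ^ z ∧ 25 * (M : ℝ) ^ 2 ≤ 2 ^ z := by
  have hM0 : (0 : ℝ) < M := by exact_mod_cast hM
  have T : Filter.Tendsto (fun z : ℕ => (2 : ℝ) ^ z) Filter.atTop Filter.atTop :=
    tendsto_pow_atTop_atTop_of_one_lt (by norm_num)
  have h1 := ((tendsto_rpow_atTop hθ).comp T).eventually_ge_atTop (100 * (M : ℝ))
  have h2 := (Real.isLittleO_log_id_atTop.comp_tendsto T).def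
    (show 0 < δ / (100 * M) by (clear * - hδ hM; positivity))
  have h3 := T.eventually_ge_atTop (25 * (M : ℝ) ^ 2)
  obtain ⟨z0, h⟩ := Filter.eventually_atTop.1 ((h1.and h2).and h3)
  refine ⟨z0, fun z hz => ?_⟩
  obtain ⟨⟨a1, a2⟩, a3⟩ := h z hz
  refine ⟨a1, ?_, a3⟩
  simp only [Function.comp, id, Real.norm_eq_abs] at a2
  have h2z : (0 : ℝ) < 2 ^ z := by positivity
  rw [abs_of_pos h2z] at a2
  calc (M : ℝ) * Real.log ((2 : ℝ) ^ z) ≤ M * |Real.log ((2 : ℝ) ^ z)| :=
        mul_le_mul_of_nonneg_left (le_abs_self _) hM0.le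
    _ ≤ M * (δ / (100 * M) * 2 ^ z) := mul_le_mul_of_nonneg_left a2 hM0.le
    _ = δ / 100 * 2 ^ z := by field_simp

end

end Pool.Agent.Helper57.NX3

end

section

set_option autoImplicit false

open Finset

open scoped BigOperators ComplexConjugate

namespace Pool.Agent.Helper57.NX

noncomputable section

/-- shifting the interval of summation -/
theorem h40_shift (h : ℕ → ℂ) (hh : ∀ k, ‖h k‖ ≤ 1) (u T j : ℕ) :
    ‖𝔼 k ∈ Ico u (u + T), h (k + j) - 𝔼 k ∈ Ico u (u + T), h k‖ ≤ 2 * j / T := by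
  induction j with
  | zero => simp
  | succ j ih =>
    have h1 : ‖𝔼 k ∈ Ico u (u + T), h (k + (j + 1)) - 𝔼 k ∈ Ico u (u + T), h (k + j)‖ ≤ 2 / T := by
      rw [Finset.expect_eq_sum_div_card, Finset.expect_eq_sum_div_card, ← sub_div, norm_div]
      have hc : ((Ico u (u + T)).card : ℂ) = (T : ℂ) := by simp
      rw [hc, Complex.norm_natCast]
      apply div_le_div_of_nonneg_right _ (Nat.cast_nonneg T)
      rw [← Finset.sum_sub_distrib]
      have h2 := Finset.sum_Ico_eq_sum_range (fun k => h (k + (j + 1)) - h (k + j)) u (u + T)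
      rw [h2, Nat.add_sub_cancel_left]
      have h3 : ∑ k ∈ range T, (h (u + k + (j + 1)) - h (u + k + j)) =
          h (u + T + j) - h (u + j) := by
        have := Finset.sum_range_sub (fun k => h (u + k + j)) T
        simp only [add_zero] at this
        rw [← this]
        apply Finset.sum_congr rfl
        intro k _
        congr 2
        ring
      rw [h3]
      calc ‖h (u + T + j) - h (u + j)‖ ≤ ‖h (u + T + j)‖ + ‖h (u + j)‖ := norm_sub_le _ _
        _ ≤ 2 := by (clear * - hh; linarith [hh (u + T + j), hh (u + j)])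
    calc ‖𝔼 k ∈ Ico u (u + T), h (k + (j + 1)) - 𝔼 k ∈ Ico u (u + T), h k‖
        = ‖(𝔼 k ∈ Ico u (u + T), h (k + (j + 1)) - 𝔼 k ∈ Ico u (u + T), h (k + j)) +
          (𝔼 k ∈ Ico u (u + T), h (k + j) - 𝔼 k ∈ Ico u (u + T), h k)‖ := by congr 1; ring
      _ ≤ 2 / T + 2 * j / T := (norm_add_le _ _).trans (add_le_add h1 ih)
      _ = 2 * ((j + 1 : ℕ) : ℝ) / T := by push_cast; ring

theorem h40_avg (h : ℕ → ℂ) (hh : ∀ k, ‖h k‖ ≤ 1) (u T K : ℕ) (hT : 0 < T) (hK : 0 < K) :
    ‖𝔼 k ∈ Ico u (u + T), h k‖ ≤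
      (𝔼 k ∈ Ico u (u + T), ‖𝔼 j ∈ range K, h (k + j)‖) + 2 * K / T := by
  have h1 : ‖𝔼 j ∈ range K, (𝔼 k ∈ Ico u (u + T), h (k + j) - 𝔼 k ∈ Ico u (u + T), h k)‖ ≤
      2 * K / T := by
    refine (RCLike.norm_expect_le (K := ℂ)).trans ?_
    refine (Finset.expect_le_expect (g := fun _ => (2 * K / T : ℝ)) fun j hj => ?_).trans ?_
    · refine (h40_shift h hh u T j).trans ?_
      have : (j : ℝ) ≤ K := by exact_mod_cast (Finset.mem_range.1 hj).le
      (clear * - this hT; gcongr)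
    · rw [Finset.expect_const (by simpa using hK.ne')]
  rw [Finset.expect_sub_distrib, Finset.expect_const (by simpa using hK.ne')] at h1
  have h2 : 𝔼 j ∈ range K, 𝔼 k ∈ Ico u (u + T), h (k + j) =
      𝔼 k ∈ Ico u (u + T), 𝔼 j ∈ range K, h (k + j) := Finset.expect_comm _ _ _
  rw [h2] at h1
  have h3 : ‖𝔼 k ∈ Ico u (u + T), 𝔼 j ∈ range K, h (k + j)‖ ≤
      𝔼 k ∈ Ico u (u + T), ‖𝔼 j ∈ range K, h (k + j)‖ := RCLike.norm_expect_le (K := ℂ)
  have h4 := norm_sub_norm_le (𝔼 k ∈ Ico u (u + T), h k)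
    (𝔼 k ∈ Ico u (u + T), 𝔼 j ∈ range K, h (k + j))
  rw [norm_sub_rev] at h4
  (clear * - h1 h3 h4; linarith)

end

end Pool.Agent.Helper57.NX

end

section

set_option autoImplicit false

open Finset

open scoped BigOperators ComplexConjugate

namespace Pool.Agent.Helper59.NX

theorem block_bound (h : ℕ → ℂ) (N : ℕ) (B : ℝ) (hh : ∀ n, ‖h n‖ ≤ 1) (q r : ℕ)
    (hB : ∀ b, b < q → ‖∑ n ∈ range N, h (b * N + n)‖ ≤ B) :
    ‖∑ n ∈ range (q * N + r), h n‖ ≤ q * B + r := by
  have h1 : ∀ q : ℕ, (∀ b, b < q → ‖∑ n ∈ range N, h (b * N + n)‖ ≤ B) →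
      ‖∑ n ∈ range (q * N), h n‖ ≤ q * B := by
    intro q
    induction q with
    | zero => intro _; simp
    | succ q ih =>
      intro hq
      rw [add_mul, one_mul, sum_range_add]
      refine (norm_add_le _ _).trans ?_
      have := ih fun b hb => hq b (by omega)
      have := hq q (by omega)
      push_cast
      linarith
  rw [sum_range_add]
  refine (norm_add_le _ _).trans (add_le_add (h1 q hB) ?_)
  refine (norm_sum_le _ _).trans ?_
  refine (sum_le_card_nsmul (range r) _ 1 fun x _ => hh _).trans ?_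
  rw [card_range, nsmul_eq_mul, mul_one]

end Pool.Agent.Helper59.NX

end
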