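import Pool.Agent.Helper23.MC.Inst

/-!
Parts of Helper57.NX.Defs2, Helper67.NX2.Defs, Helper99.NX.LpLocalAux, Helper64.NX.LpKey, Helper64.NX.LpBins, Helper55.NX2.AqBasic, Helper5.NX2.RatlCore, Helper7.NX.BaseCells, Helper41.NX2.BaseCells, Helper67.NX.Conv, Helper67.NX.TopStepAux, Helper88.NX.BoxNorm, Helper36.NX.U2Block, Helper72.NX.DlBase, Helper72.NX.DlTotalAux, Helper87.NX.DlA, Helper41.NX2.TopStep, Helper59.NX2.BaseRatlA, Helper8.NX.BaseLS, Helper41.NX.TTStar, Helper28.NX.BaseAux, Helper8.NX2.BaseFin, Helper92.NX2.Bc, Helper82.NX2.Fib, Helper30.NX2.LocArithAux, Helper82.NX.GncC, Helper84.NX.LFormCore, Helper81.NX.Types, Helper94.NX2.Round, Helper30.NX.LinForms, Helper51.NX.Sweep, Helper15.NX2.DaggerOf, Helper61.NX.Four, Helper61.NX.Step, Helper61.NX.One, Helper61.NX.DsOfUs, Helper9.NX2.DlTotalBase, Helper60.NX2.DlB, Helper30.NX.UsOfTop, Helper94.NX2.LowAux, Helper45.NX.Round, Helper21.NX2.ZeroAux, Helper61.NX.PatA, Helper21.NX2.ThmPOf,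 Helper46.NX2.ReplaceAp, Helper53.NX2.Cells, Helper80.NX2.GmAp, Helper81.NX2.GmMomentA, Helper44.MertensProd, Helper92.NX2.Stage12Of, Helper14.NX2.LocalThm, Helper90.NX2.LocalMainOf, Helper63.NX2.VarBound, Helper92.NX2.Pars, Helper40.NX2.LsMajorOf, Helper7.NX2.Montgomery, Helper79.RG.Sieve, Helper79.RG.Lower, Helper79.RG.Window, Helper8.NX3.Averages, Helper57.NX3.PatWin, Helper57.NX3.PatBlk, Helper57.FP.PsiAvg, Helper57.FP.Tree, Helper57.FP.Pairs, Helper57.FP.Energy, Helper57.FP.TreeMain, Helper82.NX3.BadNatCore, Helper51.NX3.Incr, Helper40.NX3.EnLeOf, Helper7.NX3.PairSieve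
-/

attribute [local instance 5000]
  Pool.Agent.Helper23.MC.Inst.rCharZero Pool.Agent.Helper23.MC.Inst.rALM
  Pool.Agent.Helper23.MC.Inst.rARM Pool.Agent.Helper23.MC.Inst.rALSM
  Pool.Agent.Helper23.MC.Inst.rARSM Pool.Agent.Helper23.MC.Inst.rARRLE
  Pool.Agent.Helper23.MC.Inst.rALRLE Pool.Agent.Helper23.MC.Inst.rARRLT
  Pool.Agent.Helper23.MC.Inst.rALRLT Pool.Agent.Helper23.MC.Inst.rPMRLT
  Pool.Agent.Helper23.MC.Inst.rMPRLT Pool.Agent.Helper23.MC.Inst.rPMM
  Pool.Agent.Helper23.MC.Inst.rMPM Pool.Agent.Helper23.MC.Inst.rPMSM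
  Pool.Agent.Helper23.MC.Inst.rMPSM Pool.Agent.Helper23.MC.Inst.rEAOL
  Pool.Agent.Helper23.MC.Inst.rIOR Pool.Agent.Helper23.MC.Inst.rISOR
  Pool.Agent.Helper23.MC.Inst.rNZD Pool.Agent.Helper23.MC.Inst.rcCharZero
  Pool.Agent.Helper23.MC.Inst.rcNZD Pool.Agent.Helper23.MC.Inst.zCharZero
  Pool.Agent.Helper23.MC.Inst.zALM Pool.Agent.Helper23.MC.Inst.zARM
  Pool.Agent.Helper23.MC.Inst.zALSM Pool.Agent.Helper23.MC.Inst.zARSM
  Pool.Agent.Helper23.MC.Inst.zIOR Pool.Agent.Helper23.MC.Inst.zISOR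
  Pool.Agent.Helper23.MC.Inst.zNZD Pool.Agent.Helper23.MC.Inst.qCharZero
  Pool.Agent.Helper23.MC.Inst.mR Pool.Agent.Helper23.MC.Inst.mC Pool.Agent.Helper23.MC.Inst.mRC
  Pool.Agent.Helper23.MC.Inst.rPSM Pool.Agent.Helper23.MC.Inst.rCSM
  Pool.Agent.Helper23.MC.Inst.cAdd Pool.Agent.Helper23.MC.Inst.cAddM
  Pool.Agent.Helper23.MC.Inst.cMul Pool.Agent.Helper23.MC.Inst.cMon

namespace Pool.Agent.Helper44
end Pool.Agent.Helper44
namespace Pool.Agent.Helper57.FP
end Pool.Agent.Helper57.FP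
namespace Pool.Agent.Helper57.NX
end Pool.Agent.Helper57.NX
namespace Pool.Agent.Helper57.NX3
end Pool.Agent.Helper57.NX3
namespace Pool.Agent.Helper92.NX2
end Pool.Agent.Helper92.NX2
namespace Pool.Agent.Helper96.CPAP
end Pool.Agent.Helper96.CPAP

section

set_option autoImplicit false

open Finset

open scoped BigOperators ComplexConjugate

namespace Pool.Agent.Helper57.NX

noncomputable section

/-- sign of `ω` -/
def sg {k : ℕ} (ω : Fin k → Bool) : ℝ := if Even (#(univ.filter fun i => ω i = true)) then 1 else -1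

end

end Pool.Agent.Helper57.NX

end

section

set_option autoImplicit false

open Finset

open scoped BigOperators ComplexConjugate

namespace Pool.Agent.Helper67.NX2

open Pool.Agent.Helper57.NX

noncomputable section

/-- `z ↦ f (Q (q z) + e)`, the fibre of `f` over the residue `e`, dilated by `q` -/
def fib {N p : ℕ} (Q q : ℕ) (f : ZMod N → ℂ) (e : ℕ) (z : ZMod p) : ℂ :=
  f ((Q * (q * z.val) + e : ℕ) : ZMod N)

end

end Pool.Agent.Helper67.NX2

end

section

set_option autoImplicit false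

open Finset

open scoped BigOperators ComplexConjugate

namespace Pool.Agent.Helper57.NX

noncomputable section

theorem lpl_count (L b : ℕ) :
    ∑ t ∈ range L, (if t + b < L then (0 : ℝ) else 1) ≤ b := by
  have h1 : ∑ t ∈ range L, (if t + b < L then (0 : ℝ) else 1) =
      ∑ t ∈ range L, (if ¬ (t + b < L) then (1 : ℝ) else 0) := by
    refine sum_congr rfl fun t _ => ?_
    by_cases h : t + b < L <;> simp [h]
  rw [h1, sum_boole]
  have h2 : (range L).filter (fun t => ¬ (t + b < L)) ⊆ Ico (L - b) L := by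
    intro t ht
    rw [mem_filter, mem_range] at ht
    rw [mem_Ico]
    omega
  have h3 := card_le_card h2
  rw [Nat.card_Ico] at h3
  exact_mod_cast h3.trans (by omega)

end

end Pool.Agent.Helper57.NX

end

section

set_option autoImplicit false

open Finset

open scoped BigOperators ComplexConjugate

namespace Pool.Agent.Helper57.NX

noncomputable section

lemma conj_expect64 {ι : Type} (s : Finset ι) (g : ι → ℂ) :
    conj (𝔼 i ∈ s, g i) = 𝔼 i ∈ s, conj (g i) := by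
  rw [Finset.expect_eq_sum_div_card, Finset.expect_eq_sum_div_card, map_div₀, map_sum,
    Complex.conj_natCast]

/-- `‖𝔼 g‖² = 𝔼 𝔼 g conj g` -/
lemma norm_sq_expect64 {ι : Type} (s : Finset ι) (g : ι → ℂ) :
    ((‖𝔼 i ∈ s, g i‖ ^ 2 : ℝ) : ℂ) = 𝔼 i ∈ s, 𝔼 j ∈ s, g i * conj (g j) := by
  have h : (𝔼 i ∈ s, 𝔼 j ∈ s, g i * conj (g j)) = (𝔼 i ∈ s, g i) * conj (𝔼 i ∈ s, g i) := by
    rw [conj_expect64, expect_mul_expect]
  rw [h, Complex.mul_conj, Complex.normSq_eq_norm_sq]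

end

end Pool.Agent.Helper57.NX

end

section

set_option autoImplicit false

open Finset

open scoped BigOperators ComplexConjugate

namespace Pool.Agent.Helper57.NX

noncomputable section

section Bins64

variable (cc : ℕ → ℂ) (φ : ℕ → ℝ) (w0 η : ℝ) (q0 : ℕ)

section Rest

variable {N : ℕ} [NeZero N]

lemma cell_of_point64 {X L : ℕ} (hL : L = X * q0) (hL1 : 1 ≤ L) (hLN : L ≤ N) (r z : ZMod N)
    {w : ℕ} (hw : w < L) :
    (z + (w : ZMod N) - r).val / X / q0 ∈
      ({(z - r).val / L, (z - r).val / L + 1, 0} : Finset ℕ) := by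
  have hv : (z - r).val < N := ZMod.val_lt _
  have e1 : z + (w : ZMod N) - r = (z - r) + (w : ZMod N) := by ring
  have e2 : (z + (w : ZMod N) - r).val = ((z - r).val + w) % N := by
    rw [e1, ZMod.val_add, ZMod.val_natCast, Nat.mod_eq_of_lt (by omega : w < N)]
  rw [Nat.div_div_eq_div_mul, ← hL, e2]
  simp only [mem_insert, mem_singleton]
  rcases lt_or_ge ((z - r).val + w) N with h | h
  · rw [Nat.mod_eq_of_lt h]
    have h1 : (z - r).val / L ≤ ((z - r).val + w) / L := Nat.div_le_div_right (by omega)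
    have h2 : ((z - r).val + w) / L ≤ ((z - r).val + L) / L := Nat.div_le_div_right (by omega)
    rw [Nat.add_div_right _ hL1] at h2
    omega
  · right; right
    rw [Nat.mod_eq_sub_mod h, Nat.mod_eq_of_lt (by omega)]
    exact Nat.div_eq_of_lt (by omega)

end Rest

end Bins64

end

end Pool.Agent.Helper57.NX

end

section

set_option autoImplicit false

open Finset

open scoped BigOperators ComplexConjugate

namespace Pool.Agent.Helper67.NX2

open Pool.Agent.Helper57.NX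

noncomputable section

section AqBasic

variable {N : ℕ} [NeZero N]

omit [NeZero N] in
theorem expect_range_mul5 (q L : ℕ) (hq : 1 ≤ q) (g : ℕ → ℂ) :
    𝔼 a ∈ range (q * L), g a = 𝔼 b ∈ range q, 𝔼 a ∈ range L, g (b + q * a) := by
  have hs : ∑ a ∈ range (q * L), g a = ∑ a ∈ range L, ∑ b ∈ range q, g (b + q * a) := by
    induction L with
    | zero => simp
    | succ n ih =>
      rw [Nat.mul_succ, Finset.sum_range_add, ih, Finset.sum_range_succ]
      congr 1
      refine sum_congr rfl fun b _ => ?_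
      rw [add_comm]
  rw [expect_eq_sum_div_card, hs, card_range, expect_eq_sum_div_card, card_range]
  have : ∀ b ∈ range q, 𝔼 a ∈ range L, g (b + q * a) = (∑ a ∈ range L, g (b + q * a)) / (L : ℂ) := by
    intro b _
    rw [expect_eq_sum_div_card, card_range]
  rw [sum_congr rfl this, ← Finset.sum_div, Finset.sum_comm, Nat.cast_mul, div_div, mul_comm (q : ℂ)]

end AqBasic

end

end Pool.Agent.Helper67.NX2

end

section

set_option autoImplicit false

open Finset

open scoped BigOperators ComplexConjugate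

namespace Pool.Agent.Helper67.NX2

open Pool.Agent.Helper57.NX

noncomputable section

theorem rt5_big (c0 τ : ℝ) (hτ : 0 < τ) : ∃ D0 : ℝ, 1 < D0 ∧ ∀ D : ℝ, D0 ≤ D → c0 ≤ D ^ τ := by
  have h := (tendsto_rpow_atTop hτ).eventually_ge_atTop c0
  obtain ⟨b, hb⟩ := Filter.eventually_atTop.mp h
  refine ⟨max b 2, lt_of_lt_of_le one_lt_two (le_max_right _ _), fun D hD => hb D ?_⟩
  exact le_trans (le_max_left _ _) hD

theorem rt5_inv {D σ δ : ℝ} (hD : 0 < D) (h : D ^ (-σ) ≤ δ) (C : ℕ) :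
    δ⁻¹ ^ C ≤ D ^ ((C : ℝ) * σ) := by
  have h0 : 0 < D ^ (-σ) := Real.rpow_pos_of_pos hD _
  have h1 : δ⁻¹ ≤ D ^ σ := by
    have h2 : δ⁻¹ ≤ (D ^ (-σ))⁻¹ := inv_anti₀ h0 h
    rwa [Real.rpow_neg hD.le, inv_inv] at h2
  have hδ : 0 < δ := lt_of_lt_of_le h0 h
  calc δ⁻¹ ^ C ≤ (D ^ σ) ^ C := pow_le_pow_left₀ (inv_pos.mpr hδ).le h1 C
    _ = D ^ ((C : ℝ) * σ) := by
      rw [← Real.rpow_natCast, ← Real.rpow_mul hD.le]
      congr 1
      ring

theorem rt5_floor {x : ℝ} (hx : 1 ≤ x) :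
    1 ≤ ⌊x⌋₊ ∧ ((⌊x⌋₊ : ℕ) : ℝ) ≤ x ∧ x ≤ 2 * (⌊x⌋₊ : ℕ) := by
  have h1 : 1 ≤ ⌊x⌋₊ := (Nat.one_le_floor_iff _).mpr hx
  refine ⟨h1, Nat.floor_le (by (clear * - hx; linarith)), ?_⟩
  have h2 := Nat.lt_floor_add_one x
  have h3 : (1 : ℝ) ≤ (⌊x⌋₊ : ℕ) := by exact_mod_cast h1
  (clear * - h2 h3; linarith)

/-- Lipschitz bound of `x ^ c` on `[1,5]` -/
theorem rt5_lip {c x y : ℝ} (hc : 0 < c) (hx : 1 ≤ x) (hx5 : x ≤ 5) (hy : 1 ≤ y) (hy5 : y ≤ 5) :
    |y ^ c - x ^ c| ≤ c * 5 ^ c * |y - x| := by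
  have h := (convex_Icc (1 : ℝ) 5).norm_image_sub_le_of_norm_hasDerivWithin_le
    (f := fun t : ℝ => t ^ c) (f' := fun t => c * t ^ (c - 1)) (C := c * 5 ^ c) (x := x) (y := y)
    (fun t ht => (Real.hasDerivAt_rpow_const (Or.inl (by linarith [ht.1]))).hasDerivWithinAt)
    (fun t ht => by
      have ht1 : 1 ≤ t := ht.1
      have ht5 : t ≤ 5 := ht.2
      have h1 : 0 ≤ t ^ (c - 1) := Real.rpow_nonneg (by (clear * - ht1; linarith)) _
      rw [Real.norm_eq_abs, abs_of_nonneg (by positivity)]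
      refine mul_le_mul_of_nonneg_left ?_ hc.le
      calc t ^ (c - 1) ≤ t ^ c := Real.rpow_le_rpow_of_exponent_le ht1 (by (clear * -; linarith))
        _ ≤ 5 ^ c := Real.rpow_le_rpow (by linarith) ht5 hc.le)
    ⟨hx, hx5⟩ ⟨hy, hy5⟩
  simpa [Real.norm_eq_abs] using h

end

end Pool.Agent.Helper67.NX2

end

section

set_option autoImplicit false

open Finset

open scoped BigOperators ComplexConjugate

namespace Pool.Agent.Helper57.NX

noncomputable section

theorem exists_gap7 {m : ℕ} (g : Fin m → ℝ) (hg : ∀ i, 0 < g i) :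
    ∃ κ : ℝ, 0 < κ ∧ ∀ i, κ ≤ g i := by
  refine ⟨1 / (1 + ∑ i, 1 / g i), ?_, fun i => ?_⟩
  · have : 0 ≤ ∑ i, 1 / g i := sum_nonneg fun i _ => by have := hg i; (clear * - this; positivity)
    (clear * - this; positivity)
  · have h0 : 0 ≤ ∑ i, 1 / g i := sum_nonneg fun i _ => by have := hg i; positivity
    have h1 : 1 / g i ≤ ∑ i, 1 / g i :=
      single_le_sum (f := fun i => 1 / g i) (fun i _ => by have := hg i; positivity)
        (mem_univ i)
    rw [div_le_iff₀ (by positivity)]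
    have h2 : g i * (1 / g i) ≤ g i * (1 + ∑ i, 1 / g i) :=
      mul_le_mul_of_nonneg_left (by linarith) (hg i).le
    rwa [mul_one_div_cancel (hg i).ne'] at h2

end

end Pool.Agent.Helper57.NX

end

section

set_option autoImplicit false

open Finset

open scoped BigOperators ComplexConjugate

namespace Pool.Agent.Helper67.NX2

open Pool.Agent.Helper57.NX

noncomputable section

/-- Pigeonhole. -/
theorem pigeon41 {N : ℕ} [NeZero N] (G : Finset (ZMod N)) (q : ZMod N → ℕ) (M : ℕ)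
    (hq : ∀ x ∈ G, q x ∈ range M) (η : ℝ) (hM : 0 < M)
    (hG : η * M ≤ 𝔼 x : ZMod N, (if x ∈ G then (1 : ℝ) else 0)) :
    ∃ q0 ∈ range M, η ≤ 𝔼 x : ZMod N, (if x ∈ G ∧ q x = q0 then (1 : ℝ) else 0) := by
  by_contra hcon
  push Not at hcon
  have h1 : 𝔼 x : ZMod N, (if x ∈ G then (1 : ℝ) else 0) =
      ∑ q0 ∈ range M, 𝔼 x : ZMod N, (if x ∈ G ∧ q x = q0 then (1 : ℝ) else 0) := by
    rw [← expect_sum_comm]
    refine expect_congr rfl fun x _ => ?_
    by_cases hx : x ∈ G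
    · simp only [hx, if_true, true_and]
      rw [sum_ite_eq, if_pos (hq x hx)]
    · simp [hx]
  have h2 : ∑ q0 ∈ range M, 𝔼 x : ZMod N, (if x ∈ G ∧ q x = q0 then (1 : ℝ) else 0) <
      ∑ _q0 ∈ range M, η :=
    sum_lt_sum_of_nonempty (nonempty_range_iff.2 (by omega)) fun q0 h => hcon q0 h
  rw [sum_const, card_range, nsmul_eq_mul] at h2
  rw [h1] at hG
  (clear * - hG h2; linarith)

end

end Pool.Agent.Helper67.NX2

end

section

set_option autoImplicit false

open Finset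

open scoped BigOperators ComplexConjugate

namespace Pool.Agent.Helper57.NX

noncomputable section

section Conv

variable {N : ℕ} [NeZero N]

/-- `W` is a convolution operator of mass at most `M` -/
def Cv67 (M : ℝ) (W : (ZMod N → ℂ) → (ZMod N → ℂ)) : Prop :=
  ∃ κ : ZMod N → ℂ, ∑ y, ‖κ y‖ ≤ M ∧ ∀ f x, W f x = ∑ y, κ y * f (x + y)

theorem Cv67.comp {M M' : ℝ} {W W' : (ZMod N → ℂ) → (ZMod N → ℂ)} (h : Cv67 M W)
    (h' : Cv67 M' W') (hM' : 0 ≤ M') : Cv67 (M * M') (fun f => W (W' f)) := by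
  obtain ⟨κ, h1, h2⟩ := h
  obtain ⟨κ', h1', h2'⟩ := h'
  refine ⟨fun w => ∑ y, κ y * κ' (w - y), ?_, fun f x => ?_⟩
  · calc ∑ w, ‖∑ y, κ y * κ' (w - y)‖ ≤ ∑ w, ∑ y, ‖κ y‖ * ‖κ' (w - y)‖ :=
          sum_le_sum fun w _ => (norm_sum_le _ _).trans (le_of_eq (sum_congr rfl fun y _ =>
            norm_mul _ _))
      _ = ∑ y, ‖κ y‖ * ∑ w, ‖κ' w‖ := by
          rw [sum_comm]
          refine sum_congr rfl fun y _ => ?_
          rw [← mul_sum]
          congr 1
          exact Fintype.sum_equiv (Equiv.subRight y) _ _ fun w => rfl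
      _ = (∑ y, ‖κ y‖) * ∑ w, ‖κ' w‖ := by rw [sum_mul]
      _ ≤ M * M' := mul_le_mul h1 h1' (sum_nonneg fun _ _ => norm_nonneg _)
          ((sum_nonneg fun _ _ => norm_nonneg _).trans h1)
  · beta_reduce
    rw [h2]
    simp_rw [h2', sum_mul, mul_sum]
    rw [sum_comm (s := univ) (t := univ) (f := fun w y => κ y * κ' (w - y) * f (x + w))]
    refine sum_congr rfl fun y _ => ?_
    refine (Fintype.sum_equiv (Equiv.addLeft y) _ _ fun z => ?_)
    simp only [Equiv.coe_addLeft]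
    rw [show y + z - y = z by ring, ← mul_assoc, add_assoc]

theorem Cv67.sub {M M' : ℝ} {W W' : (ZMod N → ℂ) → (ZMod N → ℂ)} (h : Cv67 M W)
    (h' : Cv67 M' W') : Cv67 (M + M') (fun f x => W f x - W' f x) := by
  obtain ⟨κ, h1, h2⟩ := h
  obtain ⟨κ', h1', h2'⟩ := h'
  refine ⟨fun y => κ y - κ' y, ?_, fun f x => ?_⟩
  · calc ∑ y, ‖κ y - κ' y‖ ≤ ∑ y, (‖κ y‖ + ‖κ' y‖) := sum_le_sum fun y _ => norm_sub_le _ _
      _ ≤ M + M' := by rw [sum_add_distrib]; exact add_le_add h1 h1'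
  · beta_reduce
    rw [h2, h2', ← sum_sub_distrib]
    exact sum_congr rfl fun y _ => by ring

theorem Cv67.smul {M : ℝ} {W : (ZMod N → ℂ) → (ZMod N → ℂ)} (h : Cv67 M W) (z : ℂ) :
    Cv67 (‖z‖ * M) (fun f x => z * W f x) := by
  obtain ⟨κ, h1, h2⟩ := h
  refine ⟨fun y => z * κ y, ?_, fun f x => ?_⟩
  · simp_rw [norm_mul]
    rw [← mul_sum]
    exact mul_le_mul_of_nonneg_left h1 (norm_nonneg _)
  · beta_reduce
    rw [h2, mul_sum]
    exact sum_congr rfl fun y _ => by ring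

/-- Cauchy–Schwarz for averages -/
theorem sq_expect_le67 {ι : Type} [Fintype ι] [Nonempty ι] (f : ι → ℝ) :
    (𝔼 i, f i) ^ 2 ≤ 𝔼 i, f i ^ 2 := by
  rw [Finset.expect_eq_sum_div_card, Finset.expect_eq_sum_div_card, div_pow]
  have h1 := sq_sum_le_card_mul_sum_sq (s := (univ : Finset ι)) (f := f)
  have hc : (0 : ℝ) < (#(univ : Finset ι) : ℝ) := by
    exact_mod_cast Finset.card_pos.2 univ_nonempty
  rw [div_le_div_iff₀ (by positivity) hc]
  nlinarith [h1]

end Conv

end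

end Pool.Agent.Helper57.NX

end

section

set_option autoImplicit false

open Finset

open scoped BigOperators ComplexConjugate

namespace Pool.Agent.Helper57.NX

noncomputable section

lemma inv_pow_mono {δ : ℝ} (h0 : 0 < δ) (h1 : δ ≤ 1) {a b : ℕ} (h : a ≤ b) :
    δ⁻¹ ^ a ≤ δ⁻¹ ^ b :=
  pow_le_pow_right₀ ((one_le_inv₀ h0).2 h1) h

lemma conj_expect67 {ι : Type} (s : Finset ι) (g : ι → ℂ) :
    conj (𝔼 i ∈ s, g i) = 𝔼 i ∈ s, conj (g i) := by
  rw [Finset.expect_eq_sum_div_card, Finset.expect_eq_sum_div_card, map_div₀, map_sum,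
    Complex.conj_natCast]

end

end Pool.Agent.Helper57.NX

end

section

set_option autoImplicit false

set_option linter.unusedSectionVars false

set_option linter.unusedVariables false

open Finset

open scoped BigOperators ComplexConjugate

namespace Pool.Agent.Helper57.NX

noncomputable section

section private_basic

variable {N : ℕ} [NeZero N]

theorem bx_conj_expect {ι : Type} (s : Finset ι) (f : ι → ℂ) :
    conj (𝔼 i ∈ s, f i) = 𝔼 i ∈ s, conj (f i) :=
  map_expect (starRingEnd ℂ) f s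

/-- square of an average -/
theorem bx_norm_sq_expect {ι : Type} (s : Finset ι) (f : ι → ℂ) :
    ((‖𝔼 i ∈ s, f i‖ ^ 2 : ℝ) : ℂ) = 𝔼 i ∈ s, 𝔼 j ∈ s, f i * conj (f j) := by
  rw [← expect_mul_expect, ← bx_conj_expect, Complex.mul_conj, Complex.normSq_eq_norm_sq]

end private_basic

end

end Pool.Agent.Helper57.NX

end

section

set_option autoImplicit false

open Finset

open scoped BigOperators ComplexConjugate

namespace Pool.Agent.Helper57.NX

noncomputable section

/-- the local average -/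
def h36_loc {N : ℕ} (X : ℕ) (v : ZMod N → ℂ) (x : ZMod N) : ℂ :=
  𝔼 z ∈ range X, 𝔼 z' ∈ range X, 𝔼 y ∈ range X, 𝔼 y' ∈ range X,
    v (x + (z : ZMod N) + (y : ZMod N)) * conj (v (x + (z : ZMod N) + (y' : ZMod N))) *
    conj (v (x + (z' : ZMod N) + (y : ZMod N))) * v (x + (z' : ZMod N) + (y' : ZMod N))

theorem h36_norm_expect_le {ι : Type*} (S : Finset ι) (f : ι → ℂ) :
    ‖𝔼 i ∈ S, f i‖ ≤ 𝔼 i ∈ S, ‖f i‖ := by
  rw [expect_eq_sum_div_card, expect_eq_sum_div_card, norm_div]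
  have : ‖(S.card : ℂ)‖ = S.card := by simp
  rw [this]
  exact div_le_div_of_nonneg_right (norm_sum_le _ _) (by (clear * -; positivity))

end

end Pool.Agent.Helper57.NX

end

section

set_option autoImplicit false

open Finset

open scoped BigOperators ComplexConjugate

namespace Pool.Agent.Helper57.NX

noncomputable section

theorem h72_sum_zmod {N : ℕ} [NeZero N] (r : ZMod N) (f : ZMod N → ℂ) :
    ∑ x, f x = ∑ v ∈ range N, f (r + (v : ZMod N)) := by
  have h1 : ∑ x, f x = ∑ x, f (r + x) :=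
    (Equiv.sum_comp (Equiv.addLeft r) f).symm
  rw [h1]
  symm
  refine Finset.sum_nbij' (fun v => (v : ZMod N)) (fun x => x.val) ?_ ?_ ?_ ?_ ?_
  · intro v _; exact mem_univ _
  · intro x _; exact mem_range.mpr (ZMod.val_lt x)
  · intro v hv; exact ZMod.val_natCast_of_lt (mem_range.mp hv)
  · intro x _; exact ZMod.natCast_zmod_val x
  · intro v _; rfl

theorem h72_sum_blocks (K X : ℕ) (f : ℕ → ℂ) :
    ∑ v ∈ range (K * X), f v = ∑ j ∈ range K, ∑ t ∈ range X, f (j * X + t) := by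
  induction K with
  | zero => simp
  | succ K ih => rw [Nat.succ_mul, Finset.sum_range_add, ih, Finset.sum_range_succ]

/-- the sum of a function supported on the full blocks -/
theorem h72_expect_blocks {N : ℕ} [NeZero N] (r : ZMod N) (X : ℕ) (f : ZMod N → ℂ)
    (h0 : ∀ v, (N / X) * X ≤ v → v < N → f (r + (v : ZMod N)) = 0) :
    𝔼 x, f x = (1 / N : ℂ) * ∑ j ∈ range (N / X), ∑ t ∈ range X,
      f (r + ((j * X + t : ℕ) : ZMod N)) := by
  rw [expect_eq_sum_div_card, h72_sum_zmod r f, card_univ, ZMod.card]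
  have h1 : ∑ v ∈ range N, f (r + (v : ZMod N)) =
      ∑ v ∈ range ((N / X) * X), f (r + (v : ZMod N)) := by
    symm
    refine Finset.sum_subset ?_ ?_
    · intro v hv
      rw [mem_range] at hv ⊢
      exact lt_of_lt_of_le hv (Nat.div_mul_le_self N X)
    · intro v hv hv'
      rw [mem_range] at hv hv'
      exact h0 v (not_lt.mp hv') hv
  rw [h1, h72_sum_blocks (N / X) X (fun v => f (r + (v : ZMod N)))]
  rw [div_eq_mul_inv, mul_comm, one_div]

end

end Pool.Agent.Helper57.NX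

end

section

set_option autoImplicit false

open Finset

open scoped BigOperators ComplexConjugate

namespace Pool.Agent.Helper57.NX

noncomputable section

theorem h72_pow_anti {δ : ℝ} (h0 : 0 < δ) (h1 : δ ≤ 1 / 2) {a b : ℕ} (hab : a ≤ b) :
    δ ^ b ≤ δ ^ a := pow_le_pow_of_le_one h0.le (by (clear * - h0 h1; linarith)) hab

theorem h72_ipow_mono {δ : ℝ} (h0 : 0 < δ) (h1 : δ ≤ 1 / 2) {a b : ℕ} (hab : a ≤ b) :
    δ⁻¹ ^ a ≤ δ⁻¹ ^ b := by
  refine pow_le_pow_right₀ ?_ hab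
  rw [le_inv_comm₀ (by norm_num) h0]
  (clear * - h0 h1; linarith)

end

end Pool.Agent.Helper57.NX

end

section

set_option autoImplicit false

open Finset

open scoped BigOperators ComplexConjugate

namespace Pool.Agent.Helper57.NX

noncomputable section

section dla_basic

theorem dla_norm_expect_le {ι : Type} (s : Finset ι) (f : ι → ℂ) :
    ‖𝔼 i ∈ s, f i‖ ≤ 𝔼 i ∈ s, ‖f i‖ := RCLike.norm_expect_le (K := ℂ)

theorem dla_expect_le_const {ι : Type} (s : Finset ι) (f : ι → ℝ) (c : ℝ) (hc : 0 ≤ c)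
    (h : ∀ i ∈ s, f i ≤ c) : 𝔼 i ∈ s, f i ≤ c := by
  rcases s.eq_empty_or_nonempty with rfl | hs
  · simpa using hc
  · exact expect_le hs h

theorem dla_norm_expect_le_const {ι : Type} (s : Finset ι) (f : ι → ℂ) (c : ℝ) (hc : 0 ≤ c)
    (h : ∀ i ∈ s, ‖f i‖ ≤ c) : ‖𝔼 i ∈ s, f i‖ ≤ c :=
  (dla_norm_expect_le s f).trans (dla_expect_le_const s _ c hc h)

end dla_basic

section dla_cube

variable {N : ℕ} {k : ℕ}

theorem dla_abs_sg (ω : Fin k → Bool) : |sg ω| = 1 := by
  unfold sg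
  split_ifs <;> simp

end dla_cube

section dla_steps

variable {N : ℕ} [NeZero N] {k : ℕ}

theorem dla_comm4 {α₁ α₂ α₃ α₄ : Type} (s₁ : Finset α₁) (s₂ : Finset α₂) (s₃ : Finset α₃)
    (s₄ : Finset α₄) (f : α₁ → α₂ → α₃ → α₄ → ℂ) :
    𝔼 n ∈ s₁, 𝔼 x ∈ s₂, 𝔼 b ∈ s₃, 𝔼 c ∈ s₄, f n x b c =
      𝔼 c ∈ s₄, 𝔼 b ∈ s₃, 𝔼 n ∈ s₁, 𝔼 x ∈ s₂, f n x b c := by
  have h1 : ∀ n ∈ s₁, 𝔼 x ∈ s₂, 𝔼 b ∈ s₃, 𝔼 c ∈ s₄, f n x b c =
      𝔼 q ∈ s₃ ×ˢ s₄, 𝔼 x ∈ s₂, f n x q.1 q.2 := by
    intro n _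
    rw [expect_comm (s := s₃ ×ˢ s₄) (t := s₂) (f := fun q x => f n x q.1 q.2)]
    refine expect_congr rfl (fun x _ => ?_)
    rw [expect_product]
  have h2 : 𝔼 c ∈ s₄, 𝔼 b ∈ s₃, 𝔼 n ∈ s₁, 𝔼 x ∈ s₂, f n x b c =
      𝔼 q ∈ s₃ ×ˢ s₄, 𝔼 n ∈ s₁, 𝔼 x ∈ s₂, f n x q.1 q.2 := by
    rw [expect_comm (s := s₄) (t := s₃), expect_product]
  rw [expect_congr rfl h1, h2]
  exact expect_comm _ _ _

theorem dla_Phi_bound (θ : (Fin k → Bool) → ℝ) {M : ℝ} (h : ∀ ω, |θ ω| ≤ M) :
    |∑ ω, sg ω * θ ω| ≤ 2 ^ k * M := by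
  refine (abs_sum_le_sum_abs _ _).trans ?_
  have h1 : ∑ _ω : Fin k → Bool, M = 2 ^ k * M := by
    rw [sum_const, card_univ, Fintype.card_pi, nsmul_eq_mul]
    simp
  rw [← h1]
  refine sum_le_sum (fun ω _ => ?_)
  rw [abs_mul, dla_abs_sg, one_mul]
  exact h ω

end dla_steps

end

end Pool.Agent.Helper57.NX

end

section

set_option autoImplicit false

open Finset

open scoped BigOperators ComplexConjugate

namespace Pool.Agent.Helper67.NX2

open Pool.Agent.Helper57.NX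

noncomputable section

lemma inv_pow_mono {δ : ℝ} (h0 : 0 < δ) (h1 : δ ≤ 1) {a b : ℕ} (h : a ≤ b) :
    δ⁻¹ ^ a ≤ δ⁻¹ ^ b :=
  pow_le_pow_right₀ ((one_le_inv₀ h0).2 h1) h

end

end Pool.Agent.Helper67.NX2

end

section

set_option autoImplicit false

open Finset

open scoped BigOperators ComplexConjugate

namespace Pool.Agent.Helper67.NX2

open Pool.Agent.Helper57.NX

noncomputable section

theorem floor59 (x y : ℝ) : |((⌊x⌋ : ℝ) - ⌊y⌋) - (x - y)| ≤ 1 := by
  rw [abs_le]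
  constructor <;> linarith [Int.floor_le x, Int.floor_le y, Int.lt_floor_add_one x,
    Int.lt_floor_add_one y]

end

end Pool.Agent.Helper67.NX2

end

section

set_option autoImplicit false

open Finset

open scoped BigOperators ComplexConjugate

namespace Pool.Agent.Helper57.NX

noncomputable section

theorem floor8 (x y : ℝ) : |((⌊x⌋ : ℝ) - ⌊y⌋) - (x - y)| ≤ 1 := by
  rw [abs_le]
  constructor <;> (clear * -; linarith [Int.floor_le x, Int.floor_le y, Int.lt_floor_add_one x,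
    Int.lt_floor_add_one y])

theorem split8 {N : ℕ} (f : ZMod N → ℂ) (b : ℕ → ℤ) (K : ℕ)
    (hb : ∀ j < K, b j ≤ b (j + 1)) (x : ZMod N) :
    b 0 ≤ b K ∧ ∑ z ∈ range (b K - b 0).toNat, f (x + (b 0 : ZMod N) + (z : ZMod N)) =
      ∑ j ∈ range K, ∑ z ∈ range (b (j + 1) - b j).toNat, f (x + (b j : ZMod N) + (z : ZMod N)) := by
  induction K with
  | zero => simp
  | succ K ih =>
    obtain ⟨h0, ih⟩ := ih fun j hj => hb j (by omega)
    have h1 := hb K (by omega)
    refine ⟨h0.trans h1, ?_⟩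
    rw [sum_range_succ, ← ih]
    have h2 : (b (K + 1) - b 0).toNat = (b K - b 0).toNat + (b (K + 1) - b K).toNat := by omega
    rw [h2, sum_range_add]
    congr 1
    refine sum_congr rfl fun z _ => ?_
    have h3 : (((b K - b 0).toNat : ℕ) : ZMod N) = (b K : ZMod N) - (b 0 : ZMod N) := by
      have : (((b K - b 0).toNat : ℕ) : ℤ) = b K - b 0 := Int.toNat_of_nonneg (by omega)
      rw [← Int.cast_natCast, this]
      push_cast
      rfl
    push_cast
    rw [h3]
    congr 1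
    ring

end

end Pool.Agent.Helper57.NX

end

section

set_option autoImplicit false

open Finset

open scoped BigOperators ComplexConjugate

namespace Pool.Agent.Helper41.NX

open Pool.Agent.Helper57.NX

noncomputable section

theorem norm_expect_sq {ι : Type*} (s : Finset ι) (g : ι → ℂ) :
    ((‖𝔼 i ∈ s, g i‖ ^ 2 : ℝ) : ℂ) = 𝔼 i ∈ s, 𝔼 j ∈ s, g i * conj (g j) := by
  push_cast
  rw [← Complex.mul_conj']
  have h1 : conj (𝔼 i ∈ s, g i) = 𝔼 i ∈ s, conj (g i) := by
    rw [expect_eq_sum_div_card, expect_eq_sum_div_card, map_div₀, map_sum, map_natCast]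
  rw [h1, expect_mul]
  refine expect_congr rfl fun i _ => ?_
  rw [mul_expect]

end

end Pool.Agent.Helper41.NX

end

section

set_option autoImplicit false

open Finset

open scoped BigOperators ComplexConjugate

namespace Pool.Agent.Helper57.NX

noncomputable section

/-- the covering of a positive number by the classes -/
theorem cover28 {D ε2 : ℝ} (hD : 1 ≤ D) {J : ℕ} (hJ : 2 / 7 < ε2 * (7 / 6 : ℝ) ^ (J + 1)) {M : ℝ}
    (h0 : D ^ ε2 ≤ M) (h1 : M < D ^ (1 / 4 : ℝ)) :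
    ∃ j ≤ J, D ^ (ε2 * (7 / 6 : ℝ) ^ j) ≤ M ∧ M ≤ (D ^ (ε2 * (7 / 6 : ℝ) ^ j)) ^ (7 / 6 : ℝ) := by
  classical
  have hstep : ∀ j : ℕ, (D ^ (ε2 * (7 / 6 : ℝ) ^ j)) ^ (7 / 6 : ℝ) =
      D ^ (ε2 * (7 / 6 : ℝ) ^ (j + 1)) := by
    intro j
    rw [← Real.rpow_mul (by (clear * - hD; linarith)), pow_succ, mul_assoc]
  have hz : D ^ (ε2 * (7 / 6 : ℝ) ^ 0) ≤ M := by rwa [pow_zero, mul_one]
  refine ⟨Nat.findGreatest (fun j => D ^ (ε2 * (7 / 6 : ℝ) ^ j) ≤ M) J, Nat.findGreatest_le J,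
    Nat.findGreatest_spec (P := fun j => D ^ (ε2 * (7 / 6 : ℝ) ^ j) ≤ M) (Nat.zero_le J) hz, ?_⟩
  rw [hstep]
  rcases Nat.lt_or_ge (Nat.findGreatest (fun j => D ^ (ε2 * (7 / 6 : ℝ) ^ j) ≤ M) J) J with h | h
  · have := Nat.findGreatest_is_greatest (P := fun j => D ^ (ε2 * (7 / 6 : ℝ) ^ j) ≤ M)
      (Nat.lt_succ_self _) h
    exact (not_le.1 this).le
  · have h2 : Nat.findGreatest (fun j => D ^ (ε2 * (7 / 6 : ℝ) ^ j) ≤ M) J = J :=
      le_antisymm (Nat.findGreatest_le J) h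
    rw [h2]
    refine h1.le.trans (Real.rpow_le_rpow_of_exponent_le hD (by (clear * - hJ; linarith)))

theorem exists_J28 {ε2 : ℝ} (h0 : 0 < ε2) (h1 : ε2 ≤ 1 / 16) :
    ∃ J : ℕ, 2 / 7 < ε2 * (7 / 6 : ℝ) ^ (J + 1) ∧ ∀ j ≤ J, ε2 * (7 / 6 : ℝ) ^ j ≤ 2 / 7 := by
  classical
  have hex : ∃ n : ℕ, 2 / 7 < ε2 * (7 / 6 : ℝ) ^ n := by
    obtain ⟨n, hn⟩ := pow_unbounded_of_one_lt (2 / 7 / ε2) (show (1 : ℝ) < 7 / 6 by norm_num)
    refine ⟨n, ?_⟩
    rw [div_lt_iff₀ h0] at hn
    (clear * - hn; linarith)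
  have h2 := Nat.find_spec hex
  have h3 : Nat.find hex ≠ 0 := by
    intro h
    rw [h, pow_zero, mul_one] at h2
    (clear * - h0 h1 h2; linarith)
  obtain ⟨J, hJ⟩ := Nat.exists_eq_succ_of_ne_zero h3
  refine ⟨J, ?_, fun j hj => ?_⟩
  · rw [← Nat.succ_eq_add_one, ← hJ]
    exact h2
  · exact not_lt.1 (Nat.find_min hex (by omega))

end

end Pool.Agent.Helper57.NX

end

section

set_option autoImplicit false

open Finset

open scoped BigOperators ComplexConjugate

namespace Pool.Agent.Helper67.NX2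

open Pool.Agent.Helper57.NX

noncomputable section

theorem large8 (a B : ℝ) (ha : 0 < a) : ∃ D1 : ℝ, ∀ D : ℝ, D1 ≤ D → B ≤ D ^ a :=
  Filter.eventually_atTop.1 ((tendsto_rpow_atTop ha).eventually_ge_atTop B)

end

end Pool.Agent.Helper67.NX2

end

section

set_option autoImplicit false

open Finset

open scoped BigOperators ComplexConjugate

namespace Pool.Agent.Helper67.NX2

open Pool.Agent.Helper57.NX

noncomputable section

section Core

variable {N : ℕ} [NeZero N]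

/-- sums over `ZMod N` as sums over `[0, N)` -/
theorem sum_zmod92 (g : ZMod N → ℂ) : ∑ x, g x = ∑ t ∈ range N, g (t : ZMod N) := by
  refine (sum_nbij' (fun t : ℕ => (t : ZMod N)) (fun x : ZMod N => x.val) ?_ ?_ ?_ ?_ ?_).symm
  · intro t _; exact mem_univ _
  · intro x _; exact mem_range.2 (ZMod.val_lt x)
  · intro t ht; exact ZMod.val_cast_of_lt (mem_range.1 ht)
  · intro x _; exact ZMod.natCast_zmod_val x
  · intro t _; rfl

/-- division with remainder in sums -/
theorem sum_mul92 (G : ℕ → ℂ) (Q p : ℕ) :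
    ∑ t ∈ range (Q * p), G t = ∑ z ∈ range p, ∑ r ∈ range Q, G (Q * z + r) := by
  induction p with
  | zero => simp
  | succ p ih => rw [Nat.mul_succ, sum_range_add, ih, sum_range_succ]

/-- average over `ZMod (Q p)` -/
theorem expect_fib92 {Q p : ℕ} (hN : N = Q * p) (g : ZMod N → ℂ) :
    𝔼 x, g x = (∑ r ∈ range Q, (∑ z ∈ range p, g ((Q * z + r : ℕ) : ZMod N)) / p) / Q := by
  have h1 : ∑ t ∈ range N, g (t : ZMod N) =
      ∑ r ∈ range Q, ∑ z ∈ range p, g ((Q * z + r : ℕ) : ZMod N) := by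
    have h2 := sum_mul92 (fun t => g (t : ZMod N)) Q p
    rw [← hN, sum_comm] at h2
    exact h2
  rw [Fintype.expect_eq_sum_div_card, ZMod.card, sum_zmod92, h1, ← sum_div, div_div]
  congr 1
  rw [hN]
  push_cast
  ring

end Core

end

end Pool.Agent.Helper67.NX2

end

section

set_option autoImplicit false

set_option linter.unusedVariables false

open Finset

open scoped BigOperators ComplexConjugate

namespace Pool.Agent.Helper67.NX2

open Pool.Agent.Helper57.NX

noncomputable section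

section AqBasic

variable {N : ℕ} [NeZero N]

omit [NeZero N] in
theorem fb_cast {p Q q : ℕ} (hN : N = Q * p) (e u v : ℕ) (h : u ≡ v [MOD p]) :
    ((Q * (q * u) + e : ℕ) : ZMod N) = ((Q * (q * v) + e : ℕ) : ZMod N) := by
  rw [ZMod.natCast_eq_natCast_iff, hN]
  exact Nat.ModEq.add_right e ((h.mul_left q).mul_left' Q)

omit [NeZero N] in
theorem fib_add {p : ℕ} [NeZero p] {Q q : ℕ} (hN : N = Q * p) (f : ZMod N → ℂ) (e : ℕ) (z : ZMod p)
    (a : ℕ) : fib Q q f e (z + (a : ZMod p)) =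
      f (((Q * (q * z.val) + e : ℕ) : ZMod N) + ((Q * q * a : ℕ) : ZMod N)) := by
  unfold fib
  have h : (z + (a : ZMod p)).val ≡ z.val + a [MOD p] := by
    rw [← ZMod.natCast_eq_natCast_iff, Nat.cast_add, ZMod.natCast_zmod_val, ZMod.natCast_zmod_val]
  rw [fb_cast hN e _ _ h, ← Nat.cast_add]
  congr 2
  ring

omit [NeZero N] in
theorem fib_fib {p : ℕ} [NeZero p] {Q q q' : ℕ} (hN : N = Q * p) (f : ZMod N → ℂ) (e : ℕ)
    (z : ZMod p) : fib Q q f e ((q' : ZMod p) * z) = fib Q (q * q') f e z := by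
  unfold fib
  have h : ((q' : ZMod p) * z).val ≡ q' * z.val [MOD p] := by
    rw [← ZMod.natCast_eq_natCast_iff, Nat.cast_mul, ZMod.natCast_zmod_val, ZMod.natCast_zmod_val]
  rw [fb_cast hN e _ _ h, mul_assoc q q' z.val]

/-- the average over the fibres is the average over `ZMod N` -/
theorem expect_fib {p : ℕ} [NeZero p] (hp : p.Prime) {Q q : ℕ} (hN : N = Q * p) (hq : 1 ≤ q)
    (hqp : q < p) {M : Type} [AddCommMonoid M] [Module ℚ≥0 M] (g : ZMod N → M) :
    𝔼 e : Fin Q, 𝔼 z : ZMod p, g ((Q * (q * z.val) + e : ℕ) : ZMod N) = 𝔼 x, g x := by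
  have hQ : 0 < Q := by
    rcases Nat.eq_zero_or_pos Q with h | h
    · exact absurd (by rw [hN, h, zero_mul]) (NeZero.ne N)
    · exact h
  rw [← expect_product' (univ : Finset (Fin Q)) (univ : Finset (ZMod p))
    (fun e z => g ((Q * (q * z.val) + e : ℕ) : ZMod N)), univ_product_univ]
  refine Fintype.expect_bijective
    (fun x : Fin Q × ZMod p => ((Q * (q * x.2.val) + x.1 : ℕ) : ZMod N)) ?_ _ _ fun _ => rfl
  rw [Fintype.bijective_iff_injective_and_card]
  constructor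
  · rintro ⟨e, z⟩ ⟨e', z'⟩ h
    simp only at h
    rw [ZMod.natCast_eq_natCast_iff, hN] at h
    have h1 : (e : ℕ) = e' := by
      have h2 := h.of_mul_right p
      have h3 : (Q * (q * z.val) + e) % Q = (Q * (q * z'.val) + e') % Q := h2
      rw [Nat.mul_add_mod, Nat.mul_add_mod, Nat.mod_eq_of_lt e.2, Nat.mod_eq_of_lt e'.2] at h3
      exact h3
    rw [h1] at h
    have h4 := Nat.ModEq.add_right_cancel' _ h
    have h5 : q * z.val ≡ q * z'.val [MOD p] := Nat.ModEq.mul_left_cancel' hQ.ne' h4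
    have h6 : z.val ≡ z'.val [MOD p] := by
      refine Nat.ModEq.cancel_left_of_coprime ?_ h5
      exact (Nat.Prime.coprime_iff_not_dvd hp).2 fun h =>
        absurd (Nat.le_of_dvd (by omega) h) (by omega)
    have h7 : z = z' := by
      rw [← ZMod.natCast_eq_natCast_iff, ZMod.natCast_zmod_val, ZMod.natCast_zmod_val] at h6
      exact h6
    rw [h7, Fin.ext h1]
  · rw [Fintype.card_prod, Fintype.card_fin, ZMod.card, ZMod.card, hN]

theorem fb_norm_expect_le {ι : Type} (s : Finset ι) (f : ι → ℂ) :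
    ‖𝔼 i ∈ s, f i‖ ≤ 𝔼 i ∈ s, ‖f i‖ := RCLike.norm_expect_le (K := ℂ)

theorem fb_conj_expect {ι : Type} (s : Finset ι) (f : ι → ℂ) :
    conj (𝔼 i ∈ s, f i) = 𝔼 i ∈ s, conj (f i) :=
  map_expect (starRingEnd ℂ) f s

theorem fb_norm_sq_expect {ι : Type} (s : Finset ι) (f : ι → ℂ) :
    ((‖𝔼 i ∈ s, f i‖ ^ 2 : ℝ) : ℂ) = 𝔼 i ∈ s, 𝔼 j ∈ s, f i * conj (f j) := by
  rw [← expect_mul_expect, ← fb_conj_expect, Complex.mul_conj, Complex.normSq_eq_norm_sq]

theorem fb_sq_expect_le {ι : Type} (s : Finset ι) (f : ι → ℝ) :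
    (𝔼 i ∈ s, f i) ^ 2 ≤ 𝔼 i ∈ s, f i ^ 2 := by
  rcases s.eq_empty_or_nonempty with rfl | hs
  · simp
  · have := expect_mul_sq_le_sq_mul_sq s f (fun _ => 1)
    simpa [expect_const hs] using this

theorem fb_norm_sq_expect_le {ι : Type} (s : Finset ι) (f : ι → ℂ) :
    ‖𝔼 i ∈ s, f i‖ ^ 2 ≤ 𝔼 i ∈ s, ‖f i‖ ^ 2 := by
  refine le_trans ?_ (fb_sq_expect_le s _)
  exact pow_le_pow_left₀ (norm_nonneg _) (fb_norm_expect_le s f) 2

end AqBasic

end

end Pool.Agent.Helper67.NX2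

end

section

set_option autoImplicit false

open Finset

open scoped BigOperators ComplexConjugate

namespace Pool.Agent.Helper67.NX2

open Pool.Agent.Helper57.NX

noncomputable section

theorem la_Qval {N p Q : ℕ} [NeZero p] (hN : N = Q * p) (a : ZMod p) (b : ℕ) :
    ((Q * (a + (b : ZMod p)).val : ℕ) : ZMod N) = ((Q * a.val : ℕ) : ZMod N) + ((Q * b : ℕ) : ZMod N) := by
  subst hN
  rw [ZMod.val_add, ZMod.val_natCast, Nat.add_mod_mod, ← Nat.mul_mod_mul_left, ZMod.natCast_mod]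
  push_cast
  ring

end

end Pool.Agent.Helper67.NX2

end

section

set_option autoImplicit false

open Finset

open scoped BigOperators ComplexConjugate

namespace Pool.Agent.Helper82.NX

open Pool.Agent.Helper57.NX

noncomputable section

theorem exists_D0 (θ A : ℝ) (hθ : 0 < θ) : ∃ D0 : ℝ, 2 ≤ D0 ∧ ∀ D : ℝ, D0 ≤ D → A ≤ D ^ θ := by
  have h1 := (tendsto_rpow_atTop hθ).eventually_ge_atTop A
  obtain ⟨D0, h2⟩ := Filter.eventually_atTop.mp h1
  exact ⟨max D0 2, le_max_right _ _, fun D hD => h2 D ((le_max_left _ _).trans hD)⟩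

theorem exists_gap {m : ℕ} (c : Fin (m + 1) → ℝ) (hc : StrictMono c) :
    ∃ g : ℝ, 0 < g ∧ ∀ i : Fin m, c i.castSucc + g ≤ c (Fin.last m) := by
  rcases isEmpty_or_nonempty (Fin m) with h | h
  · exact ⟨1, one_pos, fun i => (h.false i).elim⟩
  · obtain ⟨i0, hi0⟩ := Finite.exists_max fun i : Fin m => c i.castSucc
    refine ⟨c (Fin.last m) - c i0.castSucc, sub_pos.mpr (hc (Fin.castSucc_lt_last i0)), ?_⟩
    intro i
    have := hi0 i
    (clear * - this; linarith)

/-- size bookkeeping for a floor -/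
theorem floor_bounds {D a θ : ℝ} (hD : 1 ≤ D) (hθ : 2 ≤ D ^ θ) (hθa : θ ≤ a) :
    ((⌊D ^ a⌋₊ : ℕ) : ℝ) ≤ D ^ a ∧ D ^ a / 2 ≤ ((⌊D ^ a⌋₊ : ℕ) : ℝ) ∧
      D ^ (a - θ) ≤ ((⌊D ^ a⌋₊ : ℕ) : ℝ) := by
  have hD0 : 0 < D := lt_of_lt_of_le one_pos hD
  have h2 : (2 : ℝ) ≤ D ^ a := hθ.trans (Real.rpow_le_rpow_of_exponent_le hD hθa)
  have h3 := Nat.lt_floor_add_one (D ^ a)
  have h4 : D ^ a / 2 ≤ ((⌊D ^ a⌋₊ : ℕ) : ℝ) := by (clear * - h2 h3; linarith)
  refine ⟨Nat.floor_le (by positivity), h4, ?_⟩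
  refine le_trans ?_ h4
  rw [Real.rpow_sub hD0, div_le_div_iff_of_pos_left (by positivity) (by positivity) (by norm_num)]
  exact hθ

end

end Pool.Agent.Helper82.NX

end

section

set_option autoImplicit false

open Finset

open scoped BigOperators ComplexConjugate

namespace Pool.Agent.Helper84.NX

open Pool.Agent.Helper57.NX

lemma norm_list_prod_le {α : Type*} (L : List α) (g : α → ℂ) (hg : ∀ a ∈ L, ‖g a‖ ≤ 1) :
    ‖(L.map g).prod‖ ≤ 1 := by
  induction L with
  | nil => simp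
  | cons a L ih =>
    rw [List.map_cons, List.prod_cons, norm_mul]
    have h1 := hg a (by simp)
    have h2 := ih fun b hb => hg b (by simp [hb])
    calc ‖g a‖ * ‖(L.map g).prod‖ ≤ 1 * 1 := by gcongr
      _ = 1 := one_mul 1

end Pool.Agent.Helper84.NX

end

section

set_option autoImplicit false

open Finset

open scoped BigOperators ComplexConjugate

namespace Pool.Agent.Helper57.NX

noncomputable section

section Types81

variable {m : ℕ}

/-- absorbing constants -/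
theorem absorb81 (C : ℝ) : ∃ K : ℕ, ∀ δ : ℝ, 0 < δ → δ ≤ 1 / 2 → C ≤ δ⁻¹ ^ K := by
  obtain ⟨K, hK⟩ := pow_unbounded_of_one_lt C (one_lt_two : (1 : ℝ) < 2)
  refine ⟨K, fun δ h0 h1 => hK.le.trans ?_⟩
  refine pow_le_pow_left₀ (by norm_num) ?_ K
  rw [le_inv_comm₀ (by norm_num) h0]
  linarith

/-- few shifts are bad for one element -/
theorem bad_card81 (M : ℕ) (Λ κ ε : ℝ) (hκ : 0 < |κ|) (hε : 0 ≤ ε) :
    (((range M).filter fun h : ℕ => |Λ + κ * h| < ε).card : ℝ) ≤ 2 * ε / |κ| + 1 := by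
  set s := (range M).filter fun h : ℕ => |Λ + κ * h| < ε with hs
  rcases s.eq_empty_or_nonempty with h0 | h0
  · rw [h0, Finset.card_empty, Nat.cast_zero]
    (clear * - hε hκ; positivity)
  · have hsub : s ⊆ Finset.Icc (s.min' h0) (s.max' h0) := fun x hx =>
      Finset.mem_Icc.2 ⟨s.min'_le x hx, s.le_max' x hx⟩
    have hle : s.min' h0 ≤ s.max' h0 := s.min'_le _ (s.max'_mem h0)
    have hc := Finset.card_le_card hsub
    rw [Nat.card_Icc] at hc
    have hc' : (s.card : ℝ) ≤ (s.max' h0 : ℝ) - (s.min' h0 : ℝ) + 1 := by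
      have h1 : (s.card : ℝ) + (s.min' h0 : ℝ) ≤ (s.max' h0 : ℝ) + 1 := by
        have : s.card + s.min' h0 ≤ s.max' h0 + 1 := by omega
        exact_mod_cast this
      (clear * - h1; linarith)
    have h1 : |Λ + κ * (s.max' h0 : ℕ)| < ε := (Finset.mem_filter.1 (s.max'_mem h0)).2
    have h2 : |Λ + κ * (s.min' h0 : ℕ)| < ε := (Finset.mem_filter.1 (s.min'_mem h0)).2
    have h3 : |κ * ((s.max' h0 : ℝ) - (s.min' h0 : ℝ))| ≤ 2 * ε := by
      have e1 : κ * ((s.max' h0 : ℝ) - (s.min' h0 : ℝ))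
          = (Λ + κ * (s.max' h0 : ℕ)) - (Λ + κ * (s.min' h0 : ℕ)) := by ring
      rw [e1]
      exact (abs_sub _ _).trans (by (clear * - h1 h2; linarith))
    rw [abs_mul] at h3
    have h4 : |(s.max' h0 : ℝ) - (s.min' h0 : ℝ)| ≤ 2 * ε / |κ| := by
      rw [le_div_iff₀ hκ]
      (clear * - h3; linarith)
    have h5 := le_abs_self ((s.max' h0 : ℝ) - (s.min' h0 : ℝ))
    (clear * - hc' h4 h5; linarith)

end Types81

end

end Pool.Agent.Helper57.NX

end

section

set_option autoImplicit false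

open Finset

open scoped BigOperators ComplexConjugate

namespace Pool.Agent.Helper67.NX2

open Pool.Agent.Helper57.NX

noncomputable section

theorem r94_pow_anti {δ : ℝ} (h0 : 0 < δ) (h1 : δ ≤ 1 / 2) {a b : ℕ} (h : a ≤ b) :
    δ ^ b ≤ δ ^ a := pow_le_pow_of_le_one h0.le (by (clear * - h0 h1; linarith)) h

theorem r94_inv_one {δ : ℝ} (h0 : 0 < δ) (h1 : δ ≤ 1 / 2) : 2 ≤ δ⁻¹ := by
  rw [le_inv_comm₀ (by norm_num) h0]; (clear * - h1; linarith)

theorem r94_pow_inv_mono {δ : ℝ} (h0 : 0 < δ) (h1 : δ ≤ 1 / 2) {a b : ℕ} (h : a ≤ b) :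
    δ⁻¹ ^ a ≤ δ⁻¹ ^ b := pow_le_pow_right₀ (by (clear * - h0 h1; linarith [r94_inv_one h0 h1])) h

/-- sizes -/
theorem r94_pow_ge (C : ℝ) : ∃ e : ℕ, ∀ δ : ℝ, 0 < δ → δ ≤ 1 / 2 → C ≤ δ⁻¹ ^ e := by
  obtain ⟨e, he⟩ := pow_unbounded_of_one_lt C (by norm_num : (1 : ℝ) < 2)
  exact ⟨e, fun δ h0 h1 => he.le.trans (pow_le_pow_left₀ (by norm_num) (r94_inv_one h0 h1) e)⟩

end

end Pool.Agent.Helper67.NX2

end

section

set_option autoImplicit false

open Finset

open scoped BigOperators ComplexConjugate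

namespace Pool.Agent.Helper57.NX

noncomputable section

namespace LF

theorem norm_prod_sub_prod_le {ι : Type} (s : Finset ι) (a b : ι → ℂ) (ha : ∀ i ∈ s, ‖a i‖ ≤ 1)
    (hb : ∀ i ∈ s, ‖b i‖ ≤ 1) : ‖∏ i ∈ s, a i - ∏ i ∈ s, b i‖ ≤ ∑ i ∈ s, ‖a i - b i‖ := by
  classical
  induction s using Finset.induction_on with
  | empty => simp
  | insert i s hi ih =>
    rw [Finset.prod_insert hi, Finset.prod_insert hi, Finset.sum_insert hi]
    have h1 := ih (fun j hj => ha j (Finset.mem_insert_of_mem hj))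
      (fun j hj => hb j (Finset.mem_insert_of_mem hj))
    have h2 : ‖∏ j ∈ s, a j‖ ≤ 1 := by
      rw [norm_prod]
      exact Finset.prod_le_one (fun _ _ => norm_nonneg _)
        fun j hj => ha j (Finset.mem_insert_of_mem hj)
    have h3 := hb i (Finset.mem_insert_self i s)
    calc ‖a i * ∏ j ∈ s, a j - b i * ∏ j ∈ s, b j‖
        = ‖(a i - b i) * ∏ j ∈ s, a j + b i * (∏ j ∈ s, a j - ∏ j ∈ s, b j)‖ := by
          congr 1
          ring
      _ ≤ ‖a i - b i‖ * ‖∏ j ∈ s, a j‖ + ‖b i‖ * ‖∏ j ∈ s, a j - ∏ j ∈ s, b j‖ := by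
          refine (norm_add_le _ _).trans ?_
          rw [norm_mul, norm_mul]
      _ ≤ ‖a i - b i‖ * 1 + 1 * ∑ j ∈ s, ‖a j - b j‖ := by
          (clear * - h2 h3 h1; gcongr)
      _ = _ := by ring

variable {N : ℕ} [NeZero N]

omit [NeZero N] in
theorem expect_pi_div {r : ℕ} (E F : Fin r → ℕ) (hF : ∀ i, 0 < F i) (Φ : (Fin r → ℕ) → ℂ) :
    𝔼 j ∈ Fintype.piFinset (fun i => range (E i * F i)), Φ (fun i => j i / F i)
      = 𝔼 l ∈ Fintype.piFinset (fun i => range (E i)), Φ l := by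
  have hC : (Fintype.piFinset (fun i => range (F i))).Nonempty :=
    ⟨fun _ => 0, Fintype.mem_piFinset.2 fun i => Finset.mem_range.2 (hF i)⟩
  have h1 : 𝔼 l ∈ Fintype.piFinset (fun i => range (E i)), Φ l
      = 𝔼 p ∈ (Fintype.piFinset (fun i => range (E i))) ×ˢ
          (Fintype.piFinset (fun i => range (F i))), Φ p.1 := by
    rw [Finset.expect_product]
    exact Finset.expect_congr rfl fun l _ => (Finset.expect_const hC _).symm
  rw [h1]
  refine Finset.expect_nbij' (fun j => (fun i => j i / F i, fun i => j i % F i))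
    (fun p => fun i => p.1 i * F i + p.2 i) ?_ ?_ ?_ ?_ ?_
  · intro j hj
    rw [Fintype.mem_piFinset] at hj
    rw [Finset.mem_product, Fintype.mem_piFinset, Fintype.mem_piFinset]
    refine ⟨fun i => Finset.mem_range.2 ?_, fun i => Finset.mem_range.2 (Nat.mod_lt _ (hF i))⟩
    rw [Nat.div_lt_iff_lt_mul (hF i)]
    exact Finset.mem_range.1 (hj i)
  · intro p hp
    rw [Finset.mem_product, Fintype.mem_piFinset, Fintype.mem_piFinset] at hp
    rw [Fintype.mem_piFinset]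
    intro i
    rw [Finset.mem_range]
    have h2 := Finset.mem_range.1 (hp.1 i)
    have h3 := Finset.mem_range.1 (hp.2 i)
    calc p.1 i * F i + p.2 i < p.1 i * F i + F i := by omega
      _ = (p.1 i + 1) * F i := by ring
      _ ≤ E i * F i := Nat.mul_le_mul_right _ h2
  · intro j _
    funext i
    exact Nat.div_add_mod' (j i) (F i)
  · intro p hp
    rw [Finset.mem_product, Fintype.mem_piFinset, Fintype.mem_piFinset] at hp
    refine Prod.ext ?_ ?_
    · funext i
      have h3 := Finset.mem_range.1 (hp.2 i)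
      change (p.1 i * F i + p.2 i) / F i = p.1 i
      rw [mul_comm, Nat.mul_add_div (hF i), Nat.div_eq_of_lt h3, add_zero]
    · funext i
      have h3 := Finset.mem_range.1 (hp.2 i)
      change (p.1 i * F i + p.2 i) % F i = p.2 i
      rw [Nat.mul_add_mod', Nat.mod_eq_of_lt h3]
  · intro j _
    rfl

/-- the displacement in one direction, reflected for positive slopes -/
def hh (α : ℝ) (e l : ℕ) : ℤ :=
  (if 0 < α then ⌊α * ((e - 1 : ℕ) : ℝ)⌋ else 0)
    - ⌊α * ((if 0 < α then e - 1 - l else l : ℕ) : ℝ)⌋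

omit [NeZero N] in
theorem hh_bound (α : ℝ) (hα : α ≠ 0) (e l : ℕ) (hl : l < e) :
    |(hh α e l : ℝ) - |α| * l| ≤ 1 := by
  unfold hh
  split_ifs with h
  · have e1 : ((e - 1 - l : ℕ) : ℝ) = ((e - 1 : ℕ) : ℝ) - l := by
      rw [Nat.cast_sub (by omega)]
    have h1 := Int.floor_le (α * ((e - 1 : ℕ) : ℝ))
    have h2 := Int.lt_floor_add_one (α * ((e - 1 : ℕ) : ℝ))
    have h3 := Int.floor_le (α * ((e - 1 - l : ℕ) : ℝ))
    have h4 := Int.lt_floor_add_one (α * ((e - 1 - l : ℕ) : ℝ))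
    have e2 : α * ((e - 1 - l : ℕ) : ℝ) = α * ((e - 1 : ℕ) : ℝ) - α * l := by
      rw [e1]
      ring
    push_cast
    rw [abs_of_pos h, abs_le]
    constructor <;> (clear * - h2 h3 e2 h1 h4; linarith)
  · have h0 : α < 0 := lt_of_le_of_ne (not_lt.1 h) hα
    have h3 := Int.floor_le (α * (l : ℝ))
    have h4 := Int.lt_floor_add_one (α * (l : ℝ))
    push_cast
    rw [abs_of_neg h0, abs_le]
    constructor <;> (clear * - h3 h4; linarith)

omit [NeZero N] in
theorem floor_half {y : ℝ} (hy : 1 ≤ y) : y / 2 ≤ (⌊y⌋₊ : ℝ) := by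
  have h1 := Nat.lt_floor_add_one y
  have h2 : (1 : ℝ) ≤ (⌊y⌋₊ : ℝ) := by
    exact_mod_cast (Nat.one_le_floor_iff y).2 hy
  linarith

end LF

end

end Pool.Agent.Helper57.NX

end

section

set_option autoImplicit false

open Finset

open scoped BigOperators ComplexConjugate

namespace Pool.Agent.Helper57.NX

noncomputable section

namespace SW27

/-- averages over `Ico` -/
theorem expect_Ico (u T : ℕ) (G : ℕ → ℂ) :
    𝔼 k ∈ Ico u (u + T), G k = 𝔼 k ∈ range T, G (u + k) := by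
  rw [Finset.expect_eq_sum_div_card, Finset.expect_eq_sum_div_card, Finset.sum_Ico_eq_sum_range]
  simp

end SW27

end

end Pool.Agent.Helper57.NX

end

section

set_option autoImplicit false

open Finset

open scoped BigOperators ComplexConjugate

namespace Pool.Agent.Helper67.NX2

open Pool.Agent.Helper57.NX

noncomputable section

section Str

variable {m N : ℕ} [NeZero N]

/-- extension to `ℕ` -/
def ext15 {Q : ℕ} {α : Type} [Zero α] (cc : Fin Q → ℕ → α) (e j : ℕ) : α :=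
  if h : e < Q then cc ⟨e, h⟩ j else 0

theorem ext15_of_lt {Q : ℕ} {α : Type} [Zero α] (cc : Fin Q → ℕ → α) (e : Fin Q) :
    ext15 cc e = cc e := by
  funext j
  unfold ext15
  rw [dif_pos e.2]

theorem conj_expect15 {ι : Type*} (s : Finset ι) (g : ι → ℂ) :
    conj (𝔼 i ∈ s, g i) = 𝔼 i ∈ s, conj (g i) := by
  rw [Finset.expect_eq_sum_div_card, Finset.expect_eq_sum_div_card, map_div₀, map_sum,
    Complex.conj_natCast]

end Str

/-- powers of `δ` -/
theorem pow_ge15 {D δ σ τ : ℝ} {j K : ℕ} (hD : 1 ≤ D) (hσ0 : 0 ≤ σ) (hσ : σ * K ≤ τ)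
    (h : D ^ (-σ) ≤ δ) (hj : j ≤ K) : D ^ (-τ) ≤ δ ^ j := by
  have h0 : (0 : ℝ) < D := by (clear * - hD; linarith)
  calc D ^ (-τ) ≤ D ^ (-σ * j) := by
        apply Real.rpow_le_rpow_of_exponent_le hD
        have h1 : σ * j ≤ σ * K := mul_le_mul_of_nonneg_left (by exact_mod_cast hj) hσ0
        (clear * - hσ h1; linarith)
    _ = (D ^ (-σ)) ^ j := by rw [Real.rpow_mul h0.le, Real.rpow_natCast]
    _ ≤ δ ^ j := pow_le_pow_left₀ (Real.rpow_nonneg h0.le _) h j

theorem inv_pow_le15 {D δ τ : ℝ} {j : ℕ} (hD : 0 < D) (h : D ^ (-τ) ≤ δ ^ j) :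
    δ⁻¹ ^ j ≤ D ^ τ := by
  have h1 : 0 < D ^ (-τ) := Real.rpow_pos_of_pos hD _
  rw [inv_pow]
  calc (δ ^ j)⁻¹ ≤ (D ^ (-τ))⁻¹ := inv_anti₀ h1 h
    _ = D ^ τ := by rw [Real.rpow_neg hD.le, inv_inv]

end

end Pool.Agent.Helper67.NX2

end

section

set_option autoImplicit false

open Finset

open scoped BigOperators ComplexConjugate

namespace Pool.Agent.Helper57.NX

noncomputable section

variable {N : ℕ} [NeZero N]

/-- The frequency of the character `ch b`. -/
def fr (b : ZMod N) : ℝ := (b.valMinAbs : ℝ) / N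

theorem abs_fr_le (b : ZMod N) : |fr b| ≤ 1 / 2 := by
  have hN : (0 : ℝ) < N := by exact_mod_cast NeZero.pos N
  have h := b.valMinAbs_mem_Ioc
  have h1 : -(N : ℝ) < b.valMinAbs * 2 := by exact_mod_cast h.1
  have h2 : (b.valMinAbs : ℝ) * 2 ≤ N := by exact_mod_cast h.2
  rw [fr, abs_le]
  constructor
  · rw [le_div_iff₀ hN]; linarith
  · rw [div_le_iff₀ hN]; linarith

end

end Pool.Agent.Helper57.NX

end

section

set_option autoImplicit false

open Finset

open scoped BigOperators ComplexConjugate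

namespace Pool.Agent.Helper57.NX

noncomputable section

variable {N : ℕ} [NeZero N]

theorem sq_expect_le {ι : Type} (s : Finset ι) (g : ι → ℝ) :
    (𝔼 i ∈ s, g i) ^ 2 ≤ 𝔼 i ∈ s, g i ^ 2 := by
  rcases s.eq_empty_or_nonempty with rfl | hs
  · simp
  have hc : (0 : ℝ) < s.card := by exact_mod_cast hs.card_pos
  rw [Finset.expect_eq_sum_div_card, Finset.expect_eq_sum_div_card, div_pow,
    div_le_div_iff₀ (by positivity) hc]
  have h := sq_sum_le_card_mul_sum_sq (s := s) (f := g)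
  nlinarith [h, hc]

end

end Pool.Agent.Helper57.NX

end

section

set_option autoImplicit false

open Finset

open scoped BigOperators ComplexConjugate

namespace Pool.Agent.Helper57.NX

noncomputable section

theorem popular {ι : Type} {s : Finset ι} (hs : s.Nonempty) {a B : ι → ℝ} {η β : ℝ}
    (ha : ∀ i ∈ s, a i ≤ 1) (hB : ∀ i ∈ s, 0 ≤ B i) (hη0 : 0 ≤ η) (hβ : 0 ≤ β)
    (hη : η ≤ 𝔼 i ∈ s, a i) (h : ∀ i ∈ s, η / 2 ≤ a i → β ≤ B i) :
    η / 2 * β ≤ 𝔼 i ∈ s, B i := by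
  have h1 : 𝔼 i ∈ s, (a i - η / 2) * β ≤ 𝔼 i ∈ s, B i := by
    refine Finset.expect_le_expect fun i hi => ?_
    by_cases h2 : η / 2 ≤ a i
    · refine le_trans ?_ (h i hi h2)
      exact mul_le_of_le_one_left hβ (by (clear * - hη0 ha hi; linarith [ha i hi]))
    · push Not at h2
      exact (mul_nonpos_of_nonpos_of_nonneg (by (clear * - h2; linarith)) hβ).trans (hB i hi)
  have h3 : 𝔼 i ∈ s, (a i - η / 2) * β = (𝔼 i ∈ s, a i - η / 2) * β := by
    rw [← Finset.expect_mul, Finset.expect_sub_distrib, Finset.expect_const hs]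
  rw [h3] at h1
  refine le_trans ?_ h1
  exact mul_le_mul_of_nonneg_right (by (clear * - hη; linarith)) hβ

end

end Pool.Agent.Helper57.NX

end

section

set_option autoImplicit false

open Finset

open scoped BigOperators ComplexConjugate

namespace Pool.Agent.Helper57.NX

noncomputable section

theorem rpow_lip {c t t' : ℝ} (hc : 0 < c) (h1 : 1 ≤ t) (h4 : t ≤ 4) (h1' : 1 ≤ t')
    (h4' : t' ≤ 4) : |t' ^ c - t ^ c| ≤ c * 4 ^ c * |t' - t| := by
  have key := Convex.norm_image_sub_le_of_norm_hasDerivWithin_le (f := fun x : ℝ => x ^ c)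
    (f' := fun x : ℝ => c * x ^ (c - 1)) (s := Set.Icc (1 : ℝ) 4) (C := c * 4 ^ c)
    (fun x hx => (Real.hasDerivAt_rpow_const (Or.inl (by
      have := hx.1
      intro h0
      rw [h0] at this
      norm_num at this))).hasDerivWithinAt)
    (fun x hx => by
      have hx0 : 0 < x := by (clear * - hx; linarith [hx.1])
      rw [Real.norm_eq_abs, abs_of_nonneg (by (clear * - hc hx0; positivity))]
      refine mul_le_mul_of_nonneg_left ?_ hc.le
      calc x ^ (c - 1) ≤ x ^ c := Real.rpow_le_rpow_of_exponent_le hx.1 (by linarith)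
        _ ≤ 4 ^ c := Real.rpow_le_rpow hx0.le hx.2 hc.le)
    (convex_Icc 1 4) ⟨h1, h4⟩ ⟨h1', h4'⟩
  exact key

theorem floor_sub (u v : ℝ) : |(((⌊u⌋ - ⌊v⌋ : ℤ)) : ℝ)| ≤ |u - v| + 1 := by
  push_cast
  have h1 := Int.floor_le u
  have h2 := Int.lt_floor_add_one u
  have h3 := Int.floor_le v
  have h4 := Int.lt_floor_add_one v
  rw [abs_le]
  constructor
  · (clear * - h2 h3; linarith [neg_abs_le (u - v)])
  · linarith [le_abs_self (u - v)]

theorem prod_sub_prod {ι : Type} (s : Finset ι) {p q : ι → ℂ} (hp : ∀ i ∈ s, ‖p i‖ ≤ 1)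
    (hq : ∀ i ∈ s, ‖q i‖ ≤ 1) : ‖∏ i ∈ s, p i - ∏ i ∈ s, q i‖ ≤ ∑ i ∈ s, ‖p i - q i‖ := by
  classical
  induction s using Finset.induction_on with
  | empty => simp
  | insert i s hi ih =>
    rw [Finset.prod_insert hi, Finset.prod_insert hi, Finset.sum_insert hi]
    have h1 : p i * ∏ j ∈ s, p j - q i * ∏ j ∈ s, q j =
        (p i - q i) * ∏ j ∈ s, p j + q i * (∏ j ∈ s, p j - ∏ j ∈ s, q j) := by ring
    rw [h1]
    refine (norm_add_le _ _).trans (add_le_add ?_ ?_)
    · rw [norm_mul]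
      refine mul_le_of_le_one_right (norm_nonneg _) ?_
      rw [norm_prod]
      exact Finset.prod_le_one (fun j _ => norm_nonneg _)
        fun j hj => hp j (Finset.mem_insert_of_mem hj)
    · rw [norm_mul]
      refine (mul_le_of_le_one_left (norm_nonneg _) (hq i (Finset.mem_insert_self i s))).trans ?_
      exact ih (fun j hj => hp j (Finset.mem_insert_of_mem hj))
        (fun j hj => hq j (Finset.mem_insert_of_mem hj))

end

end Pool.Agent.Helper57.NX

end

section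

set_option autoImplicit false

open Finset

open scoped BigOperators ComplexConjugate

namespace Pool.Agent.Helper67.NX2

open Pool.Agent.Helper57.NX

noncomputable section

theorem h9_sum_zmod {N : ℕ} [NeZero N] (r : ZMod N) (f : ZMod N → ℝ) :
    ∑ x, f x = ∑ v ∈ range N, f (r + (v : ZMod N)) := by
  have h1 : ∑ x, f x = ∑ x, f (r + x) :=
    (Equiv.sum_comp (Equiv.addLeft r) f).symm
  rw [h1]
  symm
  refine Finset.sum_nbij' (fun v => (v : ZMod N)) (fun x => x.val) ?_ ?_ ?_ ?_ ?_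
  · intro v _; exact mem_univ _
  · intro x _; exact mem_range.mpr (ZMod.val_lt x)
  · intro v hv; exact ZMod.val_natCast_of_lt (mem_range.mp hv)
  · intro x _; exact ZMod.natCast_zmod_val x
  · intro v _; rfl

theorem h9_sum_blocks (K X : ℕ) (f : ℕ → ℝ) :
    ∑ v ∈ range (K * X), f v = ∑ j ∈ range K, ∑ t ∈ range X, f (j * X + t) := by
  induction K with
  | zero => simp
  | succ K ih => rw [Nat.succ_mul, Finset.sum_range_add, ih, Finset.sum_range_succ]

/-- the blocks cover at most the whole group -/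
theorem h9_blocks_le {N : ℕ} [NeZero N] (r : ZMod N) (X : ℕ) (f : ZMod N → ℝ)
    (hf : ∀ x, 0 ≤ f x) :
    (1 / N : ℝ) * ∑ j ∈ range (N / X), ∑ t ∈ range X, f (r + ((j * X + t : ℕ) : ZMod N)) ≤
      𝔼 x, f x := by
  rw [expect_eq_sum_div_card, h9_sum_zmod r f, card_univ, ZMod.card]
  rw [← h9_sum_blocks (N / X) X (fun v => f (r + (v : ZMod N)))]
  rw [one_div, inv_mul_eq_div]
  refine div_le_div_of_nonneg_right ?_ (Nat.cast_nonneg N)
  refine Finset.sum_le_sum_of_subset_of_nonneg ?_ fun _ _ _ => hf _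
  intro v hv
  rw [mem_range] at hv ⊢
  exact lt_of_lt_of_le hv (Nat.div_mul_le_self N X)

theorem h9_shift_sum (G : ℕ → ℂ) (hG : ∀ t, ‖G t‖ ≤ 1) (X s : ℕ) :
    ‖∑ t ∈ range X, G t - ∑ t ∈ range X, G (t + s)‖ ≤ 2 * s := by
  induction s with
  | zero => simp
  | succ s ih =>
    have h1 : ∑ t ∈ range X, G (t + (s + 1)) =
        ∑ t ∈ range X, G (t + s) + (G (X + s) - G s) := by
      have h2 := Finset.sum_range_succ (fun t => G (t + s)) X
      have h3 := Finset.sum_range_succ' (fun t => G (t + s)) X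
      rw [h2] at h3
      simp only [Nat.zero_add] at h3
      have h4 : ∑ t ∈ range X, G (t + (s + 1)) = ∑ t ∈ range X, G (t + 1 + s) := by
        refine sum_congr rfl fun t _ => ?_
        congr 1
        ring
      rw [h4]
      linear_combination -h3
    rw [h1]
    have h5 : ∑ t ∈ range X, G t - (∑ t ∈ range X, G (t + s) + (G (X + s) - G s)) =
        (∑ t ∈ range X, G t - ∑ t ∈ range X, G (t + s)) - (G (X + s) - G s) := by ring
    rw [h5]
    refine le_trans (norm_sub_le _ _) ?_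
    have h6 := norm_sub_le (G (X + s)) (G s)
    have h7 := hG (X + s)
    have h8 := hG s
    push_cast
    (clear * - ih h6 h7 h8; linarith)

end

end Pool.Agent.Helper67.NX2

end

section

set_option autoImplicit false

set_option linter.unusedSectionVars false

set_option linter.unusedVariables false

open Finset

open scoped BigOperators ComplexConjugate

namespace Pool.Agent.Helper67.NX2

open Pool.Agent.Helper57.NX

noncomputable section

section point

variable {N : ℕ} [NeZero N]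

theorem dbq_expect_mul {M : Type} [AddCommMonoid M] [Module ℚ≥0 M] (q : ZMod N)
    (hq : IsUnit q) (f : ZMod N → M) : 𝔼 x, f (q * x) = 𝔼 x, f x := by
  obtain ⟨v, hv⟩ := hq
  refine Fintype.expect_equiv (Units.mulLeft v) _ _ fun x => ?_
  rw [← hv]
  rfl

end point

end

end Pool.Agent.Helper67.NX2

end

section

set_option autoImplicit false

open Finset

open scoped BigOperators ComplexConjugate

namespace Pool.Agent.Helper57.NX

noncomputable section

namespace US10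

theorem rpow_lip (p : ℝ) (hp : 0 < p) (a b : ℝ) (ha : a ∈ Set.Icc (1 : ℝ) 2)
    (hb : b ∈ Set.Icc (1 : ℝ) 2) : |b ^ p - a ^ p| ≤ p * 2 ^ p * |b - a| := by
  have h := Convex.norm_image_sub_le_of_norm_hasDerivWithin_le (f := fun t : ℝ => t ^ p)
    (f' := fun t : ℝ => p * t ^ (p - 1)) (s := Set.Icc (1 : ℝ) 2) (C := p * 2 ^ p) ?_ ?_
    (convex_Icc _ _) ha hb
  · simpa [Real.norm_eq_abs] using h
  · intro t ht
    have h0 : t ≠ 0 := by
      have := ht.1
      intro h0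
      rw [h0] at this
      linarith
    exact (Real.hasDerivAt_rpow_const (Or.inl h0)).hasDerivWithinAt
  · intro t ht
    have h1 : (0 : ℝ) < t := by (clear * - ht; linarith [ht.1])
    rw [Real.norm_eq_abs, abs_mul, abs_of_pos hp, abs_of_pos (Real.rpow_pos_of_pos h1 _)]
    refine mul_le_mul_of_nonneg_left ?_ hp.le
    calc t ^ (p - 1) ≤ t ^ p := Real.rpow_le_rpow_of_exponent_le ht.1 (by linarith)
      _ ≤ 2 ^ p := Real.rpow_le_rpow h1.le ht.2 hp.le

theorem floor_diff (a b : ℝ) : |((⌊a⌋ - ⌊b⌋ : ℤ) : ℝ)| ≤ |a - b| + 1 := by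
  have h1 := Int.floor_le a
  have h2 := Int.lt_floor_add_one a
  have h3 := Int.floor_le b
  have h4 := Int.lt_floor_add_one b
  push_cast
  rw [abs_le]
  constructor
  · have := neg_abs_le (a - b)
    (clear * - h2 h3 this; linarith)
  · have := le_abs_self (a - b)
    linarith

theorem floor_half {y : ℝ} (hy : 1 ≤ y) : y / 2 ≤ (⌊y⌋₊ : ℝ) := by
  have h1 := Nat.lt_floor_add_one y
  have h2 : (1 : ℝ) ≤ (⌊y⌋₊ : ℝ) := by
    exact_mod_cast (Nat.one_le_floor_iff y).2 hy
  linarith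

end US10

end

end Pool.Agent.Helper57.NX

end

section

set_option autoImplicit false

open Finset

open scoped BigOperators ComplexConjugate

namespace Pool.Agent.Helper67.NX2

open Pool.Agent.Helper57.NX

noncomputable section

namespace Low94

section Aq

variable {N : ℕ} [NeZero N]

omit [NeZero N] in
theorem G_mul {p : ℕ} [NeZero p] {Q q : ℕ} (hN : N = Q * p) (g : ZMod N → ℂ) (e : ℕ) :
    (fun z : ZMod p => (fun y : ZMod p => g ((Q * y.val + e : ℕ) : ZMod N)) ((q : ZMod p) * z)) =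
      fib (p := p) Q q g e := by
  funext z
  have h1 := fib_fib (p := p) (q := 1) (q' := q) hN g e z
  rw [one_mul] at h1
  rw [← h1]
  unfold fib
  rw [one_mul]

end Aq

end Low94

end

end Pool.Agent.Helper67.NX2

end

section

set_option autoImplicit false

open Finset

open scoped BigOperators ComplexConjugate

namespace Pool.Agent.Helper57.NX

noncomputable section

theorem r45_pow_anti {δ : ℝ} (h0 : 0 < δ) (h1 : δ ≤ 1 / 2) {a b : ℕ} (h : a ≤ b) :
    δ ^ b ≤ δ ^ a := pow_le_pow_of_le_one h0.le (by (clear * - h0 h1; linarith)) h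

theorem r45_inv_one {δ : ℝ} (h0 : 0 < δ) (h1 : δ ≤ 1 / 2) : 2 ≤ δ⁻¹ := by
  rw [le_inv_comm₀ (by norm_num) h0]; linarith

theorem r45_pow_inv_mono {δ : ℝ} (h0 : 0 < δ) (h1 : δ ≤ 1 / 2) {a b : ℕ} (h : a ≤ b) :
    δ⁻¹ ^ a ≤ δ⁻¹ ^ b := pow_le_pow_right₀ (by (clear * - h0 h1; linarith [r45_inv_one h0 h1])) h

/-- sizes -/
theorem r45_pow_ge (C : ℝ) : ∃ e : ℕ, ∀ δ : ℝ, 0 < δ → δ ≤ 1 / 2 → C ≤ δ⁻¹ ^ e := by
  obtain ⟨e, he⟩ := pow_unbounded_of_one_lt C (by norm_num : (1 : ℝ) < 2)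
  exact ⟨e, fun δ h0 h1 => he.le.trans (pow_le_pow_left₀ (by norm_num) (r45_inv_one h0 h1) e)⟩

end

end Pool.Agent.Helper57.NX

end

section

set_option autoImplicit false

open Finset

open scoped BigOperators ComplexConjugate

namespace Pool.Agent.Helper67.NX2

open Pool.Agent.Helper57.NX

noncomputable section

theorem prod_sub_prod21 {ι : Type} (s : Finset ι) {p q : ι → ℂ} (hp : ∀ i ∈ s, ‖p i‖ ≤ 1)
    (hq : ∀ i ∈ s, ‖q i‖ ≤ 1) : ‖∏ i ∈ s, p i - ∏ i ∈ s, q i‖ ≤ ∑ i ∈ s, ‖p i - q i‖ := by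
  classical
  induction s using Finset.induction_on with
  | empty => simp
  | insert i s hi ih =>
    rw [Finset.prod_insert hi, Finset.prod_insert hi, Finset.sum_insert hi]
    have h1 : p i * ∏ j ∈ s, p j - q i * ∏ j ∈ s, q j =
        (p i - q i) * ∏ j ∈ s, p j + q i * (∏ j ∈ s, p j - ∏ j ∈ s, q j) := by ring
    rw [h1]
    refine (norm_add_le _ _).trans (add_le_add ?_ ?_)
    · rw [norm_mul]
      refine mul_le_of_le_one_right (norm_nonneg _) ?_
      rw [norm_prod]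
      exact Finset.prod_le_one (fun j _ => norm_nonneg _)
        fun j hj => hp j (Finset.mem_insert_of_mem hj)
    · rw [norm_mul]
      refine (mul_le_of_le_one_left (norm_nonneg _) (hq i (Finset.mem_insert_self i s))).trans ?_
      exact ih (fun j hj => hp j (Finset.mem_insert_of_mem hj))
        (fun j hj => hq j (Finset.mem_insert_of_mem hj))

/-- `δ⁻¹ ^ n ≤ D ^ η` -/
theorem inv_pow_le21 {D δ σ η : ℝ} {n : ℕ} (hD : 1 ≤ D) (hδ : D ^ (-σ) ≤ δ) (h : σ * n ≤ η) :
    δ⁻¹ ^ n ≤ D ^ η := by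
  have hD0 : 0 < D := by linarith
  have hδ0 : 0 < δ := (Real.rpow_pos_of_pos hD0 _).trans_le hδ
  have h1 : δ⁻¹ ≤ D ^ σ := by
    rw [inv_le_comm₀ hδ0 (Real.rpow_pos_of_pos hD0 _), ← Real.rpow_neg hD0.le]
    exact hδ
  calc δ⁻¹ ^ n ≤ (D ^ σ) ^ n := pow_le_pow_left₀ (by positivity) h1 n
    _ = D ^ (σ * n) := by rw [← Real.rpow_natCast, ← Real.rpow_mul hD0.le]
    _ ≤ D ^ η := Real.rpow_le_rpow_of_exponent_le hD h

theorem le_pow21 {D δ σ η : ℝ} {n : ℕ} (hD : 1 ≤ D) (hδ : D ^ (-σ) ≤ δ) (h : σ * n ≤ η) :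
    D ^ (-η) ≤ δ ^ n := by
  have hD0 : 0 < D := by linarith
  have hδ0 : 0 < δ := (Real.rpow_pos_of_pos hD0 _).trans_le hδ
  have h1 := inv_pow_le21 hD hδ h
  rw [Real.rpow_neg hD0.le]
  rw [inv_pow] at h1
  exact inv_le_of_inv_le₀ (by positivity) h1

end

end Pool.Agent.Helper67.NX2

end

section

set_option autoImplicit false

open Finset

open scoped BigOperators ComplexConjugate

namespace Pool.Agent.Helper57.NX

noncomputable section

section TVs

variable {N : ℕ} [NeZero N]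

theorem val_succ {Q : ℕ} (hQ : 0 < Q) (hQN : Q ∣ N) (x : ZMod N) (h : x.val % Q ≠ Q - 1) :
    (x + 1).val = x.val + 1 ∧ x.val % Q + 1 < Q := by
  have h0 : x.val % Q < Q := Nat.mod_lt _ hQ
  refine ⟨?_, by omega⟩
  have h1 : x.val + 1 < N := by
    have h2 := ZMod.val_lt x
    by_contra h3
    have h4 : x.val = N - 1 := by omega
    apply h
    obtain ⟨M, hM⟩ := hQN
    have hM0 : 0 < M := by
      rcases Nat.eq_zero_or_pos M with h5 | h5
      · rw [h5, mul_zero] at hM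
        exact absurd hM (NeZero.ne N)
      · exact h5
    obtain ⟨M', rfl⟩ : ∃ M', M = M' + 1 := ⟨M - 1, by omega⟩
    have h6 : N - 1 = Q * M' + (Q - 1) := by
      rw [hM, Nat.mul_succ]
      omega
    rw [h4, h6, Nat.mul_add_mod, Nat.mod_eq_of_lt (by omega)]
  rcases Nat.lt_or_ge 1 N with h7 | h7
  · have := ZMod.val_add_of_lt (a := x) (b := 1) (by rwa [ZMod.val_one'' (by omega)])
    rw [this, ZMod.val_one'' (by omega)]
  · omega

end TVs

end

end Pool.Agent.Helper57.NX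

end

section

set_option autoImplicit false

open Finset

open scoped BigOperators ComplexConjugate

namespace Pool.Agent.Helper67.NX2

open Pool.Agent.Helper57.NX

noncomputable section

/-- the function on `ZMod (Q p)` attached to a function on the integers -/
def lift21 {N : ℕ} (Q : ℕ) (f : ℤ → ℂ) (x : ZMod N) : ℂ := f ((x.val / Q : ℕ) : ℤ)

/-- adding a multiple of `Q` without wrap around -/
theorem val_div21 {N : ℕ} [NeZero N] (Q p : ℕ) (hN : N = Q * p) (x : ZMod N) (t : ℕ)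
    (h : x.val / Q + t < p) : (x + ((Q * t : ℕ) : ZMod N)).val / Q = x.val / Q + t := by
  have hN0 : N ≠ 0 := NeZero.ne N
  have hQ0 : 0 < Q := Nat.pos_of_ne_zero fun h => hN0 (by rw [hN, h, zero_mul])
  have h1 : x.val < Q * (x.val / Q + 1) := Nat.lt_mul_div_succ x.val hQ0
  have h2 : x.val + Q * t < N := by
    calc x.val + Q * t < Q * (x.val / Q + 1) + Q * t := by omega
      _ = Q * (x.val / Q + t + 1) := by ring
      _ ≤ Q * p := Nat.mul_le_mul_left Q h
      _ = N := hN.symm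
  have h3 : (x + ((Q * t : ℕ) : ZMod N)).val = x.val + Q * t := by
    have h4 : ((Q * t : ℕ) : ZMod N).val = Q * t := ZMod.val_cast_of_lt (by omega)
    rw [ZMod.val_add_of_lt (by rw [h4]; exact h2), h4]
  rw [h3, Nat.add_mul_div_left _ _ hQ0]

end

end Pool.Agent.Helper67.NX2

end

section

set_option autoImplicit false

open Finset

open scoped BigOperators ComplexConjugate

namespace Pool.Agent.Helper67.NX2

open Pool.Agent.Helper57.NX

noncomputable section

lemma rap_card1 (q B L : ℕ) (hq : 1 ≤ q) :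
    ((range L).filter (fun a => q * a < B)).card ≤ B / q + 1 := by
  have h : (range L).filter (fun a => q * a < B) ⊆ range (B / q + 1) := by
    intro a ha
    rw [mem_filter] at ha
    rw [mem_range, Nat.lt_succ_iff, Nat.le_div_iff_mul_le (by omega)]
    have := ha.2
    rw [mul_comm]
    omega
  simpa using card_le_card h

lemma rap_card2 (q B L : ℕ) (hq : 1 ≤ q) :
    ((range L).filter (fun a => q * (L - a) < B)).card ≤ B / q + 1 := by
  have h : ((range L).filter (fun a => q * (L - a) < B)).card ≤ (range (B / q + 1)).card := by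
    refine card_le_card_of_injOn (fun a => L - a) ?_ ?_
    · intro a ha
      rw [coe_filter, Set.mem_ofPred_eq] at ha
      rw [coe_range, Set.mem_Iio, Nat.lt_succ_iff, Nat.le_div_iff_mul_le (by omega)]
      simp only
      have := ha.2
      rw [mul_comm]
      omega
    · intro a ha b hb hab
      rw [coe_filter, Set.mem_ofPred_eq, mem_range] at ha hb
      simp only at hab
      omega
  simpa using h

/-- the statement of `thmP` (Part A) for one system of exponents -/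
def ThmPC (s : ℕ) (d : Fin (s + 1) → ℕ) : Prop := ∀ ε : ℝ, 0 < ε →
    ∃ x0 : ℝ, 0 < x0 ∧ ∃ C : ℕ, ∃ σ : ℝ, 0 < σ ∧ ∃ D0 : ℝ,
    ∀ (D : ℝ) (lam u T Z : ℕ), D0 ≤ D → D ≤ u → (u : ℝ) + T ≤ 2 * D → D ^ (1 - x0) ≤ T →
    1 ≤ lam → (∀ i, (lam * (3 * D)) ^ (d i) ≤ Z) →
    ∀ δ : ℝ, D ^ (-σ) ≤ δ → δ ≤ 1 / 2 → (lam : ℝ) ≤ δ⁻¹ →
    ∀ (f0 : ℤ → ℂ) (f : Fin (s + 1) → ℤ → ℂ), (∀ x, ‖f0 x‖ ≤ 1) → (∀ i x, ‖f i x‖ ≤ 1) →
    (∀ x, (x < 0 ∨ (Z : ℤ) ≤ x) → f0 x = 0 ∧ ∀ i, f i x = 0) →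
    δ * Z ≤ ‖𝔼 k ∈ Ico u (u + T), ∑ x ∈ range Z, f0 x * ∏ i, f i (x + ((lam * k) ^ (d i) : ℕ))‖ →
    ∃ q : ℕ, 1 ≤ q ∧ (q : ℝ) ≤ δ⁻¹ ^ C ∧
      (∀ L : ℕ, 1 ≤ L → (L : ℝ) * q ≤ D ^ (d 0 - ε) →
        δ ^ C * Z ≤ ∑ x ∈ range Z, ‖𝔼 a ∈ range L, f0 (x + (q * a : ℕ))‖) ∧
      (∀ i, ∀ L : ℕ, 1 ≤ L → (L : ℝ) * q ≤ D ^ (d i - ε) →
        δ ^ C * Z ≤ ∑ x ∈ range Z, ‖𝔼 a ∈ range L, f i (x + (q * a : ℕ))‖)

end

end Pool.Agent.Helper67.NX2

end

section

set_option autoImplicit false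

open Finset

open scoped BigOperators ComplexConjugate

namespace Pool.Agent.Helper67.NX2

open Pool.Agent.Helper57.NX

noncomputable section

theorem card_fibre (M M' : ℕ) [NeZero M] (h : M' ∣ M) (hM' : 1 ≤ M') (ρ : ZMod M') :
    (univ.filter (fun x : ZMod M => ((x.val : ℕ) : ZMod M') = ρ)).card * M' = M := by
  haveI : NeZero M' := ⟨by omega⟩
  obtain ⟨t, ht⟩ := h
  have hM0 : M ≠ 0 := NeZero.ne M
  have ht0 : 0 < t := by
    rcases Nat.eq_zero_or_pos t with h0 | h0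
    · rw [h0, mul_zero] at ht; exact absurd ht hM0
    · exact h0
  have hlt : ∀ k < t, ρ.val + M' * k < M := by
    intro k hk
    have h1 := ZMod.val_lt ρ
    rw [ht]
    calc ρ.val + M' * k < M' + M' * k := by omega
      _ = M' * (k + 1) := by ring
      _ ≤ M' * t := Nat.mul_le_mul_left _ hk
  have hcard : (univ.filter (fun x : ZMod M => ((x.val : ℕ) : ZMod M') = ρ)).card = t := by
    have himg : univ.filter (fun x : ZMod M => ((x.val : ℕ) : ZMod M') = ρ) =
        (range t).image (fun k => ((ρ.val + M' * k : ℕ) : ZMod M)) := by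
      ext x
      simp only [mem_filter, mem_univ, true_and, mem_image, mem_range]
      constructor
      · intro hx
        have h2 : x.val % M' = ρ.val := by
          rw [← hx, ZMod.val_natCast]
        refine ⟨x.val / M', ?_, ?_⟩
        · rw [Nat.div_lt_iff_lt_mul hM', mul_comm, ← ht]
          exact ZMod.val_lt x
        · rw [← h2, Nat.mod_add_div, ZMod.natCast_zmod_val]
      · rintro ⟨k, hk, rfl⟩
        rw [ZMod.val_natCast, Nat.mod_eq_of_lt (hlt k hk)]
        push_cast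
        simp
    rw [himg, Finset.card_image_of_injOn, card_range]
    intro k hk l hl hkl
    have hk' : k < t := by simpa using hk
    have hl' : l < t := by simpa using hl
    have h3 := congrArg ZMod.val hkl
    simp only [ZMod.val_natCast] at h3
    rw [Nat.mod_eq_of_lt (hlt k hk'), Nat.mod_eq_of_lt (hlt l hl')] at h3
    exact Nat.eq_of_mul_eq_mul_left (show 0 < M' by omega) (by omega)
  rw [hcard, ht, mul_comm]

end

end Pool.Agent.Helper67.NX2

end

section

set_option autoImplicit false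

open Finset

open scoped BigOperators ComplexConjugate

namespace Pool.Agent.Helper67.NX2

open Pool.Agent.Helper57.NX

noncomputable section

namespace B8

theorem prod_le {r0 r1 R : ℕ} (hR : 1 ≤ R) {S : Finset ℕ} (hS : ∀ p ∈ S, p ≤ R)
    (hc : S.card ≤ r0) : ∏ p ∈ S, p ^ r1 ≤ R ^ (r0 * r1) := by
  calc ∏ p ∈ S, p ^ r1 ≤ ∏ p ∈ S, R ^ r1 := prod_le_prod' fun p hp => Nat.pow_le_pow_left (hS p hp) _
    _ = R ^ (r1 * S.card) := by rw [prod_const, ← pow_mul]
    _ ≤ R ^ (r0 * r1) := by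
      apply Nat.pow_le_pow_right hR
      rw [Nat.mul_comm]
      exact Nat.mul_le_mul_right _ hc

theorem total_le {B0 : ℝ} (hB0 : 0 ≤ B0) {K r0 r1 R q : ℕ} (hK : 1 ≤ K)
    (hqR : q ≤ R) {f : ℕ → ℝ}
    (hf : ∀ a ∈ range q, |f a| ≤ B0 * ((R ^ (2 * r0 + 2) * (K ^ 2 * R ^ (2 * r0 * r1 + 1)) : ℕ) : ℝ)) :
    ∑ a ∈ range q, |f a| ≤ B0 * ((K * R : ℕ) : ℝ) ^ (2 * r0 * r1 + 2 * r0 + 4) := by
  refine (sum_le_sum hf).trans ?_
  rw [sum_const, card_range, nsmul_eq_mul]
  have h1 : q * (R ^ (2 * r0 + 2) * (K ^ 2 * R ^ (2 * r0 * r1 + 1))) ≤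
      (K * R) ^ (2 * r0 * r1 + 2 * r0 + 4) := by
    calc q * (R ^ (2 * r0 + 2) * (K ^ 2 * R ^ (2 * r0 * r1 + 1)))
        ≤ R * (R ^ (2 * r0 + 2) * (K ^ 2 * R ^ (2 * r0 * r1 + 1))) := Nat.mul_le_mul_right _ hqR
      _ = K ^ 2 * R ^ (2 * r0 * r1 + 2 * r0 + 4) := by
        have e : 2 * r0 * r1 + 2 * r0 + 4 = 1 + (2 * r0 + 2) + (2 * r0 * r1 + 1) := by ring
        rw [e, pow_add, pow_add, pow_one]; ring
      _ ≤ K ^ (2 * r0 * r1 + 2 * r0 + 4) * R ^ (2 * r0 * r1 + 2 * r0 + 4) :=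
        Nat.mul_le_mul_right _ (Nat.pow_le_pow_right hK (by omega))
      _ = _ := (mul_pow _ _ _).symm
  have h2 : (q : ℝ) * ((R ^ (2 * r0 + 2) * (K ^ 2 * R ^ (2 * r0 * r1 + 1)) : ℕ) : ℝ) ≤
      ((K * R : ℕ) : ℝ) ^ (2 * r0 * r1 + 2 * r0 + 4) := by exact_mod_cast h1
  calc (q : ℝ) * (B0 * ((R ^ (2 * r0 + 2) * (K ^ 2 * R ^ (2 * r0 * r1 + 1)) : ℕ) : ℝ))
      = B0 * ((q : ℝ) * ((R ^ (2 * r0 + 2) * (K ^ 2 * R ^ (2 * r0 * r1 + 1)) : ℕ) : ℝ)) := by ring
    _ ≤ _ := mul_le_mul_of_nonneg_left h2 hB0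

end B8

end

end Pool.Agent.Helper67.NX2

end

section

set_option autoImplicit false

open Finset

open scoped BigOperators ComplexConjugate

namespace Pool.Agent.Helper67.NX2

open Pool.Agent.Helper57.NX

noncomputable section

theorem gmm_count (n y : ℕ) (hn : 1 ≤ n) :
    𝔼 t ∈ range n, ((if y ≡ t [MOD n] then (n : ℝ) else 0) - 1) = 0 := by
  have hn0 : (0 : ℝ) < n := by exact_mod_cast hn
  have h1 : ∑ t ∈ range n, (if y ≡ t [MOD n] then (n : ℝ) else 0) = n := by
    rw [Finset.sum_eq_single (y % n)]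
    · rw [if_pos (Nat.mod_modEq y n).symm]
    · intro t ht htn
      rw [if_neg]
      intro h
      apply htn
      rw [Nat.ModEq, Nat.mod_eq_of_lt (Finset.mem_range.mp ht)] at h
      exact h.symm
    · intro h
      exact absurd (Finset.mem_range.mpr (Nat.mod_lt _ hn)) h
  rw [Finset.expect_sub_distrib, Finset.expect_const (Finset.nonempty_range_iff.mpr (by omega)),
    Finset.expect_eq_sum_div_card, h1, Finset.card_range, div_self hn0.ne', sub_self]

end

end Pool.Agent.Helper67.NX2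

end

section

set_option autoImplicit false

open Finset Real

namespace Pool.Agent.Helper44

theorem one_sub_ge_exp {x : ℝ} (h0 : 0 ≤ x) (h1 : x ≤ 1 / 2) : Real.exp (-(2 * x)) ≤ 1 - x := by
  have h2 : 2 * x + 1 ≤ Real.exp (2 * x) := Real.add_one_le_exp _
  have h3 : 0 < Real.exp (2 * x) := Real.exp_pos _
  rw [Real.exp_neg, inv_le_comm₀ h3 (by linarith)]
  refine le_trans ?_ h2
  rw [inv_le_iff_one_le_mul₀ (by linarith)]
  nlinarith

end Pool.Agent.Helper44

end

section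

set_option autoImplicit false

open Finset

open scoped BigOperators ComplexConjugate

namespace Pool.Agent.Helper67.NX2

open Pool.Agent.Helper57.NX

open Pool.Agent.Helper92.NX2

noncomputable section

theorem ap_abs_le {q : ℕ} (hq : 1 ≤ q) (S : Finset ℕ) (h : ℕ → ℝ) :
    ∑ a ∈ range q, |∑ x ∈ S.filter (fun x => x % q = a), h x| ≤ ∑ x ∈ S, |h x| := by
  have h1 : ∑ x ∈ S, |h x| = ∑ a ∈ range q, ∑ x ∈ S.filter (fun x => x % q = a), |h x| := by
    rw [Finset.sum_fiberwise_of_maps_to]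
    intro x _
    exact mem_range.mpr (Nat.mod_lt _ hq)
  rw [h1]
  exact sum_le_sum fun a _ => abs_sum_le_sum_abs _ _

theorem ap_add_le (q : ℕ) (S : Finset ℕ) (f g h : ℕ → ℝ) :
    ∑ a ∈ range q, |∑ x ∈ S.filter (fun x => x % q = a), (f x - h x)| ≤
      ∑ a ∈ range q, |∑ x ∈ S.filter (fun x => x % q = a), (f x - g x)| +
      ∑ a ∈ range q, |∑ x ∈ S.filter (fun x => x % q = a), (g x - h x)| := by
  rw [← sum_add_distrib]
  refine sum_le_sum fun a _ => ?_
  have h1 : ∑ x ∈ S.filter (fun x => x % q = a), (f x - h x) =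
      ∑ x ∈ S.filter (fun x => x % q = a), (f x - g x) +
      ∑ x ∈ S.filter (fun x => x % q = a), (g x - h x) := by
    rw [← sum_add_distrib]
    exact sum_congr rfl fun x _ => by ring
  rw [h1]
  exact abs_add_le _ _

theorem two_rpow (τ : ℝ) (z : ℕ) :
    (2 : ℝ) ^ (τ * z) = Real.exp (τ * Real.log ((2 : ℝ) ^ z)) := by
  rw [Real.rpow_def_of_pos (by norm_num), Real.log_pow]
  congr 1
  ring

theorem sum_blocks_le {z b : ℕ} (hb : b ≤ z) (f : ℕ → ℝ) (c : ℝ)
    (h : ∀ j, f j ≤ (2 : ℝ) ^ b * c) : ∑ j ∈ range (2 ^ (z - b)), f j ≤ (2 : ℝ) ^ z * c := by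
  calc ∑ j ∈ range (2 ^ (z - b)), f j ≤ ∑ _j ∈ range (2 ^ (z - b)), (2 : ℝ) ^ b * c :=
        sum_le_sum fun j _ => h j
    _ = (2 : ℝ) ^ z * c := by
        rw [sum_const, card_range, nsmul_eq_mul, ← mul_assoc]
        congr 1
        push_cast
        rw [← pow_add]
        congr 1
        omega

end

end Pool.Agent.Helper67.NX2

end

section

set_option autoImplicit false

open Finset

open scoped BigOperators ComplexConjugate

namespace Pool.Agent.Helper67.NX2

open Pool.Agent.Helper57.NX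

noncomputable section

/-- the conclusion of `thmP` (Part A) -/
def ThmP (s : ℕ) (d : Fin (s + 1) → ℕ) : Prop := ∀ ε : ℝ, 0 < ε →
    ∃ x0 : ℝ, 0 < x0 ∧ ∃ C : ℕ, ∃ σ : ℝ, 0 < σ ∧ ∃ D0 : ℝ,
    ∀ (D : ℝ) (lam u T Z : ℕ), D0 ≤ D → D ≤ u → (u : ℝ) + T ≤ 2 * D → D ^ (1 - x0) ≤ T →
    1 ≤ lam → (∀ i, (lam * (3 * D)) ^ (d i) ≤ Z) →
    ∀ δ : ℝ, D ^ (-σ) ≤ δ → δ ≤ 1 / 2 → (lam : ℝ) ≤ δ⁻¹ →
    ∀ (f0 : ℤ → ℂ) (f : Fin (s + 1) → ℤ → ℂ), (∀ x, ‖f0 x‖ ≤ 1) → (∀ i x, ‖f i x‖ ≤ 1) →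
    (∀ x, (x < 0 ∨ (Z : ℤ) ≤ x) → f0 x = 0 ∧ ∀ i, f i x = 0) →
    δ * Z ≤ ‖𝔼 k ∈ Ico u (u + T), ∑ x ∈ range Z, f0 x * ∏ i, f i (x + ((lam * k) ^ (d i) : ℕ))‖ →
    ∃ q : ℕ, 1 ≤ q ∧ (q : ℝ) ≤ δ⁻¹ ^ C ∧
      (∀ L : ℕ, 1 ≤ L → (L : ℝ) * q ≤ D ^ (d 0 - ε) →
        δ ^ C * Z ≤ ∑ x ∈ range Z, ‖𝔼 a ∈ range L, f0 (x + (q * a : ℕ))‖) ∧
      (∀ i, ∀ L : ℕ, 1 ≤ L → (L : ℝ) * q ≤ D ^ (d i - ε) →
        δ ^ C * Z ≤ ∑ x ∈ range Z, ‖𝔼 a ∈ range L, f i (x + (q * a : ℕ))‖)

lemma abs_prod_le_one {ι : Type*} (S : Finset ι) (g : ι → ℝ) (h : ∀ i ∈ S, |g i| ≤ 1) :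
    |∏ i ∈ S, g i| ≤ 1 := by
  rw [Finset.abs_prod]
  exact Finset.prod_le_one (fun i _ => abs_nonneg _) h

end

end Pool.Agent.Helper67.NX2

end

section

set_option autoImplicit false

open Finset

open scoped BigOperators ComplexConjugate

namespace Pool.Agent.Helper67.NX2

open Pool.Agent.Helper57.NX

noncomputable section

namespace LM

theorem prod_update {s M : ℕ} (φ : Option (Fin s) → ZMod M → ℝ) (o0 : Option (Fin s))
    (f : ZMod M → ℝ) (g : Option (Fin s) → ZMod M) :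
    ∏ o, Function.update φ o0 f o (g o) = f (g o0) * ∏ o ∈ univ.erase o0, φ o (g o) := by
  rw [← Finset.mul_prod_erase univ _ (Finset.mem_univ o0), Function.update_self]
  congr 1
  apply Finset.prod_congr rfl
  intro o ho
  rw [Function.update_of_ne (Finset.ne_of_mem_erase ho)]

theorem split (y M : ℕ) (hM : M ≠ 0) : ∃ M1 N : ℕ, M = M1 * N ∧
    (∀ p : ℕ, p.Prime → p ∣ M1 → p ≤ y) ∧ (∀ p : ℕ, p.Prime → p ∣ N → y < p) := by
  induction M using induction_on_primes with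
  | zero => exact absurd rfl hM
  | one =>
    exact ⟨1, 1, rfl, fun p hp h => absurd (Nat.dvd_one.mp h) hp.ne_one,
      fun p hp h => absurd (Nat.dvd_one.mp h) hp.ne_one⟩
  | prime_mul p a hp ih =>
    obtain ⟨M1, N, h1, h2, h3⟩ := ih (fun h => hM (by rw [h, mul_zero]))
    by_cases hpy : p ≤ y
    · refine ⟨p * M1, N, by rw [h1]; ring, ?_, h3⟩
      intro q hq hqd
      rcases (Nat.Prime.dvd_mul hq).mp hqd with h | h
      · rw [(Nat.prime_dvd_prime_iff_eq hq hp).mp h]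
        exact hpy
      · exact h2 q hq h
    · refine ⟨M1, p * N, by rw [h1]; ring, h2, ?_⟩
      intro q hq hqd
      rcases (Nat.Prime.dvd_mul hq).mp hqd with h | h
      · rw [(Nat.prime_dvd_prime_iff_eq hq hp).mp h]
        exact not_le.mp hpy
      · exact h3 q hq h

end LM

end

end Pool.Agent.Helper67.NX2

end

section

set_option autoImplicit false

open Finset

open scoped BigOperators ComplexConjugate

namespace Pool.Agent.Helper67.NX2

open Pool.Agent.Helper57.NX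

noncomputable section

namespace VB

/-- the residue class given by a residue modulo `K` and residues modulo `p ^ r1`, `p ∈ T` -/
theorem crt (r1 K κ : ℕ) (ω : ℕ → ℕ) (T : Finset ℕ) (hT : ∀ p ∈ T, p.Prime ∧ ¬ p ∣ K) :
    ∃ c : ℕ, ∀ y : ℕ, (y ≡ κ [MOD K] ∧ ∀ p ∈ T, y ≡ ω p [MOD p ^ r1]) ↔
      y ≡ c [MOD K * ∏ p ∈ T, p ^ r1] := by
  classical
  induction T using Finset.induction_on with
  | empty => exact ⟨κ, fun y => by simp⟩
  | @insert p T hp ih =>
    obtain ⟨c, hc⟩ := ih fun q hq => hT q (mem_insert_of_mem hq)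
    have hpp := hT p (mem_insert_self p T)
    have hco : Nat.Coprime (K * ∏ q ∈ T, q ^ r1) (p ^ r1) := by
      refine Nat.Coprime.pow_right r1 ?_
      refine Nat.Coprime.mul_left ?_ ?_
      · exact ((Nat.Prime.coprime_iff_not_dvd hpp.1).2 hpp.2).symm
      · refine Nat.Coprime.prod_left fun q hq => Nat.Coprime.pow_left r1 ?_
        exact (Nat.coprime_primes (hT q (mem_insert_of_mem hq)).1 hpp.1).2
          (fun h => hp (h ▸ hq))
    obtain ⟨c', hc'⟩ := Nat.chineseRemainder hco c (ω p)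
    refine ⟨c', fun y => ?_⟩
    rw [prod_insert hp, show K * (p ^ r1 * ∏ q ∈ T, q ^ r1) = (K * ∏ q ∈ T, q ^ r1) * p ^ r1 by ring,
      ← Nat.modEq_and_modEq_iff_modEq_mul hco]
    constructor
    · rintro ⟨h1, h2⟩
      exact ⟨((hc y).1 ⟨h1, fun q hq => h2 q (mem_insert_of_mem hq)⟩).trans hc'.1.symm,
        (h2 p (mem_insert_self p T)).trans hc'.2.symm⟩
    · rintro ⟨h1, h2⟩
      have h3 := (hc y).2 (h1.trans hc'.1)
      refine ⟨h3.1, fun q hq => ?_⟩
      rcases mem_insert.1 hq with rfl | hq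
      · exact h2.trans hc'.2
      · exact h3.2 q hq

theorem prod_ite (r1 K κ y c : ℕ) (ω : ℕ → ℕ) (T : Finset ℕ)
    (hc : (y ≡ κ [MOD K] ∧ ∀ p ∈ T, y ≡ ω p [MOD p ^ r1]) ↔
      y ≡ c [MOD K * ∏ p ∈ T, p ^ r1]) :
    (if y ≡ κ [MOD K] then (K : ℝ) else 0) *
      ∏ p ∈ T, (if y ≡ ω p [MOD p ^ r1] then (p : ℝ) ^ r1 else 0) =
      if y ≡ c [MOD K * ∏ p ∈ T, p ^ r1] then ((K * ∏ p ∈ T, p ^ r1 : ℕ) : ℝ) else 0 := by
  classical
  by_cases h : y ≡ c [MOD K * ∏ p ∈ T, p ^ r1]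
  · rw [if_pos h]
    obtain ⟨h1, h2⟩ := hc.2 h
    rw [if_pos h1, prod_congr rfl fun p hp => if_pos (h2 p hp)]
    push_cast
    rfl
  · rw [if_neg h]
    by_cases h1 : y ≡ κ [MOD K]
    · have h2 : ∃ p ∈ T, ¬ y ≡ ω p [MOD p ^ r1] := by
        by_contra hcon
        push Not at hcon
        exact h (hc.1 ⟨h1, hcon⟩)
      obtain ⟨p, hp, hp2⟩ := h2
      rw [prod_eq_zero hp (if_neg hp2), mul_zero]
    · rw [if_neg h1, zero_mul]

theorem prod_pow_le (r0 r1 R : ℕ) (hR : 2 ≤ R) (S : Finset ℕ) (hS : ∀ p ∈ S, p ≤ R)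
    (hc : S.card ≤ r0) : ∏ p ∈ S, p ^ r1 ≤ R ^ (r0 * r1) := by
  calc ∏ p ∈ S, p ^ r1 ≤ ∏ p ∈ S, R ^ r1 :=
        prod_le_prod' fun p hp => Nat.pow_le_pow_left (hS p hp) r1
    _ = (R ^ r1) ^ S.card := by rw [prod_const]
    _ ≤ (R ^ r1) ^ r0 := Nat.pow_le_pow_right (pow_pos (by omega) r1) hc
    _ = R ^ (r0 * r1) := by rw [← pow_mul, mul_comm]

end VB

end

end Pool.Agent.Helper67.NX2

end

section

set_option autoImplicit false

open Finset

open scoped BigOperators ComplexConjugate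

namespace Pool.Agent.Helper67.NX2

open Pool.Agent.Helper57.NX

noncomputable section

/-- the frequencies of `∏ (u_p - 1)` -/
def AE (r1 : ℕ) (E : Finset ℕ) : Finset ℕ :=
  (range (∏ p ∈ E, p ^ r1)).filter (fun a => ∀ p ∈ E, ¬ p ^ r1 ∣ a)

theorem prod_ite_dvd (q : ℕ → ℕ) (T : Finset ℕ)
    (hq : ∀ p ∈ T, ∀ p' ∈ T, p ≠ p' → Nat.Coprime (q p) (q p')) (m : ℤ) :
    ∏ p ∈ T, (if (q p : ℤ) ∣ m then (q p : ℂ) else 0) =
      if ((∏ p ∈ T, q p : ℕ) : ℤ) ∣ m then ((∏ p ∈ T, q p : ℕ) : ℂ) else 0 := by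
  by_cases h : ∀ p ∈ T, (q p : ℤ) ∣ m
  · have h1 : ((∏ p ∈ T, q p : ℕ) : ℤ) ∣ m := by
      push_cast
      refine Finset.prod_dvd_of_coprime ?_ h
      intro p hp p' hp' hne
      exact Nat.isCoprime_iff_coprime.mpr (hq p hp p' hp' hne)
    rw [if_pos h1]
    push_cast
    exact prod_congr rfl fun p hp => if_pos (h p hp)
  · have h1 : ¬ ((∏ p ∈ T, q p : ℕ) : ℤ) ∣ m := by
      intro h2
      apply h
      intro p hp
      refine dvd_trans ?_ h2
      exact_mod_cast dvd_prod_of_mem q hp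
    rw [if_neg h1]
    push Not at h
    obtain ⟨p, hp, hpm⟩ := h
    exact prod_eq_zero hp (if_neg hpm)

end

end Pool.Agent.Helper67.NX2

end

section

set_option autoImplicit false

open Finset

open scoped BigOperators ComplexConjugate

namespace Pool.Agent.Helper67.NX2

open Pool.Agent.Helper57.NX

noncomputable section

namespace LsMajor

/-- B3 -/
def RoughSum : Prop := ∃ c : ℝ, 0 < c ∧ ∀ R Y : ℕ, 2 ≤ R → 2 ≤ Y →
    c * Real.log Y / Real.log R ≤
      ∑ r ∈ (Icc 1 Y).filter (fun r => Squarefree r ∧ ∀ p ∈ r.primeFactors, R < p),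
        (1 : ℝ) / r.totient

/-- reindexing the residue class -/
theorem reidx {α : Type} [AddCommMonoid α] (N0 N M c : ℕ) (hM : 1 ≤ M) (g : ℕ → α) :
    ∑ y ∈ (Ico N0 (N0 + N)).filter (fun y => y ≡ c [MOD M]), g y =
      ∑ n ∈ Ico (N0 / M) (N0 / M + (N / M + 2)),
        if c % M + M * n ∈ (Ico N0 (N0 + N)).filter (fun y => y ≡ c [MOD M]) then
          g (c % M + M * n) else 0 := by
  rw [← sum_filter]
  refine sum_nbij' (fun y => y / M) (fun n => c % M + M * n) ?_ ?_ ?_ ?_ ?_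
  · intro y hy
    rw [mem_filter, mem_Ico] at hy
    obtain ⟨⟨h1, h2⟩, h3⟩ := hy
    have h4 : c % M + M * (y / M) = y := by
      have : y % M = c % M := h3
      rw [← this]
      exact Nat.mod_add_div y M
    rw [mem_filter, mem_Ico, h4, mem_filter, mem_Ico]
    refine ⟨⟨Nat.div_le_div_right h1, ?_⟩, ⟨h1, h2⟩, h3⟩
    rw [Nat.div_lt_iff_lt_mul hM]
    have h5 := Nat.lt_div_mul_add hM (a := N0)
    have h6 := Nat.lt_div_mul_add hM (a := N)
    calc y < N0 + N := h2
      _ ≤ (N0 / M * M + M) + (N / M * M + M) := by omega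
      _ = (N0 / M + (N / M + 2)) * M := by ring
  · intro n hn
    exact (mem_filter.1 hn).2
  · intro y hy
    rw [mem_filter, mem_Ico] at hy
    have : y % M = c % M := hy.2
    show c % M + M * (y / M) = y
    rw [← this]
    exact Nat.mod_add_div y M
  · intro n hn
    show (c % M + M * n) / M = n
    rw [Nat.add_mul_div_left _ _ hM, Nat.div_eq_of_lt (Nat.mod_lt _ hM), zero_add]
  · intro y hy
    rw [mem_filter, mem_Ico] at hy
    have : y % M = c % M := hy.2
    show g y = g (c % M + M * (y / M))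
    rw [← this, Nat.mod_add_div y M]

theorem Y_lt_of {N Y y : ℕ} (hY : 2 ≤ Y) (hYN : Y ^ 8 ≤ N) (h : N ≤ y ^ 4) : Y < y := by
  by_contra hlt
  push Not at hlt
  have h1 : y ^ 4 ≤ Y ^ 4 := Nat.pow_le_pow_left hlt 4
  have h2 : Y ^ 4 < Y ^ 8 := Nat.pow_lt_pow_right (by omega) (by norm_num)
  omega

end LsMajor

end

end Pool.Agent.Helper67.NX2

end

section

set_option autoImplicit false

open Finset

open scoped BigOperators ComplexConjugate

namespace Pool.Agent.Helper67.NX2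

open Pool.Agent.Helper57.NX

lemma mg_moebius (m : ℕ) :
    ∑ d ∈ m.divisors, (ArithmeticFunction.moebius d : ℂ) = if m = 1 then 1 else 0 := by
  have h : (ArithmeticFunction.moebius * (ArithmeticFunction.zeta : ArithmeticFunction ℤ)) m
      = (1 : ArithmeticFunction ℤ) m := by
    rw [ArithmeticFunction.moebius_mul_coe_zeta]
  rw [ArithmeticFunction.coe_mul_zeta_apply, ArithmeticFunction.one_apply] at h
  have h2 : ((∑ i ∈ m.divisors, ArithmeticFunction.moebius i : ℤ) : ℂ)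
      = ((if m = 1 then 1 else 0 : ℤ) : ℂ) := by rw [h]
  rw [Int.cast_sum] at h2
  rw [h2]
  split_ifs <;> simp

end Pool.Agent.Helper67.NX2

end

section

set_option autoImplicit false

open Finset

namespace Pool.Agent.Helper79.RG

open Pool.Agent.Helper44 Pool.Agent.Helper96.CPAP

/-- sum of the reciprocals of the prime factors -/
noncomputable def sig (n : ℕ) : ℝ := ∑ q ∈ n.primeFactors, (1 : ℝ) / q

theorem sig_nonneg (n : ℕ) : 0 ≤ sig n := Finset.sum_nonneg fun q _ => by (clear * -; positivity)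

@[simp] theorem sig_zero : sig 0 = 0 := by simp [sig]

/-- the exponent of the singular factor of a tuple -/
noncomputable def sigT {k : ℕ} (b : Fin k → ℕ) : ℝ := ∑ i, ∑ j, sig (b i - b j)

theorem sigT_nonneg {k : ℕ} (b : Fin k → ℕ) : 0 ≤ sigT b :=
  Finset.sum_nonneg fun _ _ => Finset.sum_nonneg fun _ _ => sig_nonneg _

theorem sum_biUnion_le' {ι : Type*} [DecidableEq ι] (S : Finset ι) (t : ι → Finset ℕ)
    (f : ℕ → ℝ) (hf : ∀ q, 0 ≤ f q) :
    ∑ q ∈ S.biUnion t, f q ≤ ∑ p ∈ S, ∑ q ∈ t p, f q := by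
  induction S using Finset.induction_on with
  | empty => simp
  | insert a S ha ih =>
    rw [Finset.biUnion_insert, Finset.sum_insert ha]
    have a1 := Finset.sum_union_inter (s₁ := t a) (s₂ := S.biUnion t) (f := f)
    have a3 : 0 ≤ ∑ q ∈ t a ∩ S.biUnion t, f q := Finset.sum_nonneg fun q _ => hf q
    linarith

/-- sieving primes of a tuple -/
def PT {k : ℕ} (b : Fin k → ℕ) (q : ℕ) : Prop :=
  q.Prime ∧ 2 * k ≤ q ∧ ∀ i j, i ≠ j → ¬ b i ≡ b j [MOD q]

theorem card_occ {k : ℕ} {b : Fin k → ℕ} {q : ℕ} (hq : PT b q) :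
    ((range q).filter (fun n => ∃ i, q ∣ n + b i)).card = k := by
  classical
  have : Fact q.Prime := ⟨hq.1⟩
  set f : Fin k → ℕ := fun i => (-(b i : ZMod q)).val with hf
  have key : ∀ (n : ℕ) (i : Fin k), q ∣ n + b i ↔ (n : ZMod q) = -(b i : ZMod q) := by
    intro n i
    rw [← ZMod.natCast_eq_zero_iff]
    push_cast
    exact ⟨fun h => eq_neg_of_add_eq_zero_left h, fun h => by rw [h]; ring⟩
  have himg : (range q).filter (fun n => ∃ i, q ∣ n + b i) = univ.image f := by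
    ext n
    rw [Finset.mem_filter, Finset.mem_range, Finset.mem_image]
    constructor
    · rintro ⟨hn, i, hdv⟩
      refine ⟨i, mem_univ _, ?_⟩
      rw [key] at hdv
      simp only [hf]
      rw [← hdv, ZMod.val_natCast, Nat.mod_eq_of_lt hn]
    · rintro ⟨i, _, rfl⟩
      refine ⟨ZMod.val_lt _, i, ?_⟩
      rw [key]
      simp [hf]
  rw [himg, Finset.card_image_of_injective, Finset.card_univ, Fintype.card_fin]
  intro i j hij
  simp only [hf] at hij
  by_contra hne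
  apply hq.2.2 i j hne
  have h1 := ZMod.val_injective q hij
  rw [neg_inj] at h1
  exact (ZMod.natCast_eq_natCast_iff _ _ _).mp h1

end Pool.Agent.Helper79.RG

end

section

set_option autoImplicit false

open Finset Filter Topology

namespace Pool.Agent.Helper79.RG

/-- the primes below `x` -/
def PR (x : ℕ) : Finset ℕ := (range x).filter Nat.Prime

theorem mem_PR {x p : ℕ} : p ∈ PR x ↔ p < x ∧ p.Prime := by
  unfold PR
  rw [Finset.mem_filter, Finset.mem_range]

/-- indicator of a window -/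
def win (h p y : ℕ) : ℝ := if p ≤ y ∧ y < p + h then 1 else 0

end Pool.Agent.Helper79.RG

end

section

set_option autoImplicit false

open Finset Filter Topology

namespace Pool.Agent.Helper79.RG

/-- the number of primes `p < x` with `y - h < p ≤ y` -/
noncomputable def cw (x h y : ℕ) : ℝ := ∑ p ∈ PR x, win h p y

theorem cw_eq (x h y : ℕ) :
    cw x h y = (((PR x).filter (fun p => p ≤ y ∧ y < p + h)).card : ℝ) := by
  unfold cw win
  rw [Finset.sum_boole]

end Pool.Agent.Helper79.RG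

end

section

set_option autoImplicit false

open Finset

open scoped BigOperators

namespace Pool.Agent.Helper57.NX3

noncomputable section

lemma lz_nonneg8 (z : ℕ) : 0 ≤ Real.log ((2 : ℝ) ^ z) :=
  Real.log_nonneg (one_le_pow₀ (by norm_num))

lemma log_small8 (K c : ℝ) (hK : 0 < K) (hc : 0 < c) : ∃ z0 : ℕ, ∀ z : ℕ, z0 ≤ z →
    K * Real.log ((2 : ℝ) ^ z) ≤ ((2 : ℝ) ^ z) ^ c := by
  have h1 : (fun x : ℝ => Real.log x) =o[Filter.atTop] (fun x : ℝ => x ^ c) :=
    isLittleO_log_rpow_atTop hc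
  have h2 := h1.bound (c := 1 / K) (by (clear * - hK; positivity))
  have h3 : Filter.Tendsto (fun z : ℕ => (2 : ℝ) ^ z) Filter.atTop Filter.atTop :=
    tendsto_pow_atTop_atTop_of_one_lt (by norm_num)
  have h4 := h3.eventually h2
  obtain ⟨z0, hz0⟩ := Filter.eventually_atTop.1 h4
  refine ⟨z0, fun z hz => ?_⟩
  have h5 := hz0 z hz
  rw [Real.norm_of_nonneg (lz_nonneg8 z), Real.norm_of_nonneg (by positivity)] at h5
  calc K * Real.log ((2 : ℝ) ^ z) ≤ K * (1 / K * ((2 : ℝ) ^ z) ^ c) :=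
        mul_le_mul_of_nonneg_left h5 hK.le
    _ = ((2 : ℝ) ^ z) ^ c := by field_simp

end

end Pool.Agent.Helper57.NX3

end

section

set_option autoImplicit false

open Finset

open scoped BigOperators

namespace Pool.Agent.Helper57.NX3

noncomputable section

/-- the refined sequences -/
def aK (Q K : ℕ) (γ : ℝ) (k : ℕ) : ℕ := ⌊(Q : ℝ) * ((K * k : ℕ) : ℝ) ^ γ⌋₊

theorem aK_nat (Q K k d : ℕ) {γ : ℝ} (h : γ = d) : aK Q K γ k = Q * (K * k) ^ d := by
  unfold aK
  rw [h, Real.rpow_natCast]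
  have : (Q : ℝ) * ((K * k : ℕ) : ℝ) ^ d = ((Q * (K * k) ^ d : ℕ) : ℝ) := by push_cast; ring
  rw [this, Nat.floor_natCast]

end

end Pool.Agent.Helper57.NX3

end

section

set_option autoImplicit false

open Finset

open scoped BigOperators

namespace Pool.Agent.Helper57.NX3

noncomputable section

section

variable {l : ℕ} {c : Fin l → ℝ} {β1 : ℕ} {xw : ℝ}

theorem BB_floor (hc : ∀ i, 2 ≤ c i) (hxw : xw ≤ 1) (hβ1 : 1 ≤ β1) (i : Fin l) :
    1 ≤ ⌊(β1 : ℝ) * (c i - xw / 4)⌋₊ := by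
  rw [Nat.one_le_floor_iff]
  have h1 : (1 : ℝ) ≤ β1 := by exact_mod_cast hβ1
  have h2 : (1 : ℝ) ≤ c i - xw / 4 := by (clear * - hxw hc; linarith [hc i])
  (clear * - h1 h2; nlinarith)

end

end

end Pool.Agent.Helper57.NX3

end

section

set_option autoImplicit false

open Finset Real

namespace Pool.Agent.Helper57.FP

open Pool.Agent.Helper44

theorem prod_one_add_ind (I : Finset ℕ) (hI : ∀ q ∈ I, q.Prime) (c : ℝ) (t : ℤ) :
    ∏ q ∈ I, (1 + (if (q : ℤ) ∣ t then c / q else 0)) =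
      ∑ J ∈ I.powerset, (∏ q ∈ J, (c / (q : ℝ))) * (if ((∏ q ∈ J, q : ℕ) : ℤ) ∣ t then 1 else 0) := by
  classical
  rw [Finset.prod_one_add]
  apply Finset.sum_congr rfl
  intro J hJ
  rw [Finset.mem_powerset] at hJ
  have hco : ((∏ q ∈ J, q : ℕ) : ℤ) ∣ t ↔ ∀ q ∈ J, (q : ℤ) ∣ t := by
    constructor
    · intro h q hq
      exact (Int.natCast_dvd_natCast.mpr (Finset.dvd_prod_of_mem _ hq)).trans h
    · intro h
      rw [Int.natCast_dvd]
      have h' : ∀ q ∈ J, q ∣ t.natAbs := fun q hq => Int.natCast_dvd.mp (h q hq)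
      apply Finset.prod_primes_dvd
      · intro q hq
        exact (hI q (hJ hq)).prime
      · exact h'
  by_cases h : ∀ q ∈ J, (q : ℤ) ∣ t
  · rw [if_pos (hco.mpr h), mul_one]
    exact Finset.prod_congr rfl fun q hq => if_pos (h q hq)
  · rw [if_neg (fun h' => h (hco.mp h')), mul_zero]
    push Not at h
    obtain ⟨q, hq, hq'⟩ := h
    exact Finset.prod_eq_zero hq (if_neg hq')

end Pool.Agent.Helper57.FP

end

section

set_option autoImplicit false

open Finset Real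

namespace Pool.Agent.Helper57.FP

/-- Averaging over one coordinate. -/
theorem sum_update {l L : ℕ} (k : Fin l) (F : (Fin l → Fin L) → ℝ) :
    ∑ u, ∑ v : Fin L, F (Function.update u k v) = L * ∑ u, F u := by
  classical
  have h1 : ∑ u, ∑ v : Fin L, F (Function.update u k v) =
      ∑ e : (Fin l → Fin L) × Fin L, F (Function.update e.1 k e.2) := by
    rw [Fintype.sum_prod_type]
  have h2 : ∑ e : (Fin l → Fin L) × Fin L, F (Function.update e.1 k e.2) =
      ∑ e : (Fin l → Fin L) × Fin L, F e.1 := by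
    apply Finset.sum_nbij' (i := fun e => (Function.update e.1 k e.2, e.1 k))
      (j := fun e => (Function.update e.1 k e.2, e.1 k))
    · intro e _; exact Finset.mem_univ _
    · intro e _; exact Finset.mem_univ _
    · intro e _
      simp
    · intro e _
      simp
    · intro e _
      rfl
  rw [h1, h2, Fintype.sum_prod_type]
  simp only [Finset.sum_const, Finset.card_univ, Fintype.card_fin, nsmul_eq_mul]
  rw [Finset.mul_sum]

theorem sum_le_of_update {l L : ℕ} (hL : 1 ≤ L) (k : Fin l) (F : (Fin l → Fin L) → ℝ) (C : ℝ)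
    (h : ∀ u, ∑ v : Fin L, F (Function.update u k v) ≤ C * L) :
    ∑ u, F u ≤ C * (L : ℝ) ^ l := by
  have hL0 : (0 : ℝ) < L := by exact_mod_cast hL
  have h1 := sum_update k F
  have h2 : ∑ u : Fin l → Fin L, ∑ v : Fin L, F (Function.update u k v) ≤
      ∑ _u : Fin l → Fin L, C * L := Finset.sum_le_sum fun u _ => h u
  rw [h1, Finset.sum_const, Finset.card_univ, Fintype.card_fun, Fintype.card_fin,
    Fintype.card_fin, nsmul_eq_mul] at h2
  push_cast at h2
  have h3 : (L : ℝ) * ∑ u, F u ≤ L * (C * (L : ℝ) ^ l) := by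
    calc _ ≤ _ := h2
      _ = _ := by ring
  exact le_of_mul_le_mul_left h3 hL0

end Pool.Agent.Helper57.FP

end

section

set_option autoImplicit false

open Finset Real

namespace Pool.Agent.Helper57.FP

theorem sum3_lin {l L M : ℕ} (F G : (Fin l → Fin L) → (Fin l → Fin L) → ℕ → ℝ) (a b : ℝ) :
    ∑ u : Fin l → Fin L, ∑ u' : Fin l → Fin L, ∑ i ∈ range M, (a * F u u' i + b * G u u' i) =
      a * (∑ u : Fin l → Fin L, ∑ u' : Fin l → Fin L, ∑ i ∈ range M, F u u' i) +
      b * (∑ u : Fin l → Fin L, ∑ u' : Fin l → Fin L, ∑ i ∈ range M, G u u' i) := by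
  simp only [Finset.sum_add_distrib, Finset.mul_sum]

end Pool.Agent.Helper57.FP

end

section

set_option autoImplicit false

open Finset Real

namespace Pool.Agent.Helper57.FP

theorem card_bdry_le (N R T : ℕ) (hR : 0 < R) (hT : T ≤ R) :
    ((range (N * R)).filter (fun j => R - T ≤ j % R)).card ≤ N * T := by
  calc ((range (N * R)).filter (fun j => R - T ≤ j % R)).card ≤ (range N ×ˢ range T).card := by
        apply Finset.card_le_card_of_injOn (fun j => (j / R, j % R - (R - T)))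
        · intro j hj
          simp only [Finset.mem_coe, Finset.mem_filter, Finset.mem_range] at hj
          simp only [Finset.mem_coe, Finset.mem_product, Finset.mem_range]
          have h1 := Nat.mod_lt j hR
          refine ⟨?_, by omega⟩
          rw [Nat.div_lt_iff_lt_mul hR]
          exact hj.1
        · intro j hj j' hj' h
          simp only [Finset.mem_coe, Finset.mem_filter, Finset.mem_range] at hj hj'
          simp only [Prod.mk.injEq] at h
          have h1 : j % R = j' % R := by omega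
          rw [← Nat.div_add_mod j R, ← Nat.div_add_mod j' R, h.1, h1]
    _ = N * T := by rw [Finset.card_product, Finset.card_range, Finset.card_range]

end Pool.Agent.Helper57.FP

end

section

set_option autoImplicit false

open Finset Real

namespace Pool.Agent.Helper57.FP

theorem exists_pos_le (l : ℕ) (f : ℕ → ℝ) (hf : ∀ k, 0 < f k) : ∃ ε : ℝ, 0 < ε ∧ ∀ k < l, ε ≤ f k := by
  induction l with
  | zero => exact ⟨1, one_pos, fun k hk => absurd hk (Nat.not_lt_zero k)⟩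
  | succ l ih =>
    obtain ⟨ε, hε, h⟩ := ih
    refine ⟨min ε (f l), lt_min hε (hf l), fun k hk => ?_⟩
    rcases Nat.lt_succ_iff_lt_or_eq.mp hk with h' | rfl
    · exact (min_le_left _ _).trans (h k h')
    · exact min_le_right _ _

theorem exists_nat_ge (l : ℕ) (f : ℕ → ℕ) : ∃ m : ℕ, ∀ k < l, f k ≤ m := by
  induction l with
  | zero => exact ⟨0, fun k hk => absurd hk (Nat.not_lt_zero k)⟩
  | succ l ih =>
    obtain ⟨m, h⟩ := ih
    refine ⟨max m (f l), fun k hk => ?_⟩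
    rcases Nat.lt_succ_iff_lt_or_eq.mp hk with h' | rfl
    · exact (h k h').trans (le_max_left _ _)
    · exact le_max_right _ _

end Pool.Agent.Helper57.FP

end

section

set_option autoImplicit false

open Finset

open scoped BigOperators

namespace Pool.Agent.Helper82.NX3

open Pool.Agent.Helper57.NX3

noncomputable section

/-- few `x < 2^z` change the dyadic block under the shift by `v` -/
theorem card_change (z β v : ℕ) (hβ : β ≤ z) :
    (((range (2 ^ z)).filter fun x => (x + v) / 2 ^ β ≠ x / 2 ^ β).card : ℝ) ≤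
      v * (2 : ℝ) ^ z / 2 ^ β := by
  have h2 : 0 < 2 ^ β := by positivity
  have hsub : (range (2 ^ z)).filter (fun x => (x + v) / 2 ^ β ≠ x / 2 ^ β) ⊆
      (range (2 ^ (z - β))).biUnion fun j => Ico (2 ^ β * (j + 1) - v) (2 ^ β * (j + 1)) := by
    intro x hx
    rw [mem_filter, mem_range] at hx
    obtain ⟨hx1, hx2⟩ := hx
    rw [mem_biUnion]
    refine ⟨x / 2 ^ β, ?_, ?_⟩
    · rw [mem_range, Nat.div_lt_iff_lt_mul h2, ← pow_add, Nat.sub_add_cancel hβ]
      exact hx1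
    · have h3 : x / 2 ^ β + 1 ≤ (x + v) / 2 ^ β := by
        have := Nat.div_le_div_right (c := 2 ^ β) (Nat.le_add_right x v)
        omega
      have h4 : 2 ^ β * (x / 2 ^ β + 1) ≤ x + v := by
        rw [Nat.le_div_iff_mul_le h2] at h3
        rw [mul_comm]
        exact h3
      have h5 : x < 2 ^ β * (x / 2 ^ β + 1) := Nat.lt_mul_div_succ x h2
      rw [mem_Ico]
      omega
  have hcard := (card_le_card hsub).trans card_biUnion_le
  have hsum : ∑ j ∈ range (2 ^ (z - β)), (Ico (2 ^ β * (j + 1) - v) (2 ^ β * (j + 1))).card ≤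
      2 ^ (z - β) * v := by
    calc ∑ j ∈ range (2 ^ (z - β)), (Ico (2 ^ β * (j + 1) - v) (2 ^ β * (j + 1))).card
        ≤ ∑ _j ∈ range (2 ^ (z - β)), v := by
          refine sum_le_sum fun j _ => ?_
          rw [Nat.card_Ico]
          omega
      _ = 2 ^ (z - β) * v := by rw [sum_const, card_range, smul_eq_mul]
  have h6 := hcard.trans hsum
  have h7 : (((range (2 ^ z)).filter fun x => (x + v) / 2 ^ β ≠ x / 2 ^ β).card : ℝ) ≤
      (2 : ℝ) ^ (z - β) * v := by exact_mod_cast h6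
  refine h7.trans (le_of_eq ?_)
  rw [pow_sub₀ _ (by norm_num) hβ]
  field_simp

end

end Pool.Agent.Helper82.NX3

end

section

set_option autoImplicit false

open Finset

open scoped BigOperators

namespace Pool.Agent.Helper57.NX3

noncomputable section

theorem h51_lt {z b x y : ℕ} (hb : b ≤ z) (hx : x < 2 ^ z) (h : y / 2 ^ b = x / 2 ^ b) :
    y < 2 ^ z := by
  have h1 : 2 ^ z = 2 ^ (z - b) * 2 ^ b := by rw [← pow_add]; congr 1; omega
  rw [h1] at hx ⊢
  have h2 : x / 2 ^ b < 2 ^ (z - b) := Nat.div_lt_of_lt_mul (by rwa [mul_comm])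
  rw [← h] at h2
  exact (Nat.div_lt_iff_lt_mul (by positivity)).1 h2

end

end Pool.Agent.Helper57.NX3

end

section

set_option autoImplicit false

open Finset

open scoped BigOperators

namespace Pool.Agent.Helper57.NX3

noncomputable section

namespace EnLe

open Pool.Agent.Helper57.FP

/-- C1 -/
def PairSieve : Prop := ∃ C : ℝ, 0 < C ∧ ∃ Z0 : ℕ, ∀ Z : ℕ, Z0 ≤ Z → ∀ h : ℕ, 1 ≤ h →
    (((range Z).filter (fun n => n.Prime ∧ (n + h).Prime)).card : ℝ) ≤
      C * ((h : ℝ) / h.totient) * (Z / (Real.log Z) ^ 2)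

end EnLe

end

end Pool.Agent.Helper57.NX3

end

section

set_option autoImplicit false

open Finset

open scoped BigOperators

namespace Pool.Agent.Helper57.NX3

open Pool.Agent.Helper44 Pool.Agent.Helper96.CPAP Pool.Agent.Helper57.FP

lemma ratio_ge (h : ℕ) (hh : 1 ≤ h) : 1 ≤ (h : ℝ) / h.totient := by
  have h1 : 0 < h.totient := Nat.totient_pos.2 (by omega)
  rw [one_le_div (by exact_mod_cast h1)]
  exact_mod_cast Nat.totient_le h

end Pool.Agent.Helper57.NX3

end
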