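import Pool.Agent.Helper23.MC.Inst

/-!
Parts of Helper57.NX.Defs, Helper57.NX.Defs2, Helper99.NX.LpLocalAux, Helper85.NX.Form, Helper64.NX.LpKey, Helper5.NX2.RatlCore, Helper36.NX.U2Block, Helper72.NX.DlBase, Helper87.NX.DlA, Helper59.NX2.BaseRatlA, Helper8.NX.BaseLS, Helper41.NX.BaseClass, Helper92.NX2.Bc, Helper82.NX2.Fib, Helper30.NX2.LocArithAux, Helper84.NX.LFormCore, Helper94.NX2.Round, Helper61.NX.Step, Helper61.NX.One, Helper94.NX2.LowStep, Helper45.NX.Round, Helper61.NX.PatA, Helper67.NX2.DefsB, Helper46.NX2.ReplaceAp, Helper92.NX2.Stage12Of, Helper90.NX2.LocalMainOf, Helper79.RG.Sieve, Helper57.FP.Pairs, Helper61.NX.Pattern, Helper82.NX3.BadNatCore, Helper7.NX3.PairSieve, Helper57.NX3.PatFinal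
-/

attribute [local instance 5000]
  Pool.Agent.Helper23.MC.Inst.rCharZero Pool.Agent.Helper23.MC.Inst.rALM
  Pool.Agent.Helper23.MC.Inst.rARM Pool.Agent.Helper23.MC.Inst.rALSM
  Pool.Agent.Helper23.MC.Inst.rARSM Pool.Agent.Helper23.MC.Inst.rARRLE
  Pool.Agent.Helper23.MC.Inst.rALRLE Pool.Agent.Helper23.MC.Inst.rARRLT
  Pool.Agent.Helper23.MC.Inst.rALRLT Pool.Agent.Helper23.MC.Inst.rPMRLT
  Pool.Agent.Helper23.MC.Inst.rMPRLT Pool.Agent.Helper23.MC.Inst.rPMM
  Pool.Agent.Helper23.MC.Inst.rMPM Pool.Agent.Helper23.MC.Inst.rPMSM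
  Pool.Agent.Helper23.MC.Inst.rMPSM Pool.Agent.Helper23.MC.Inst.rEAOL
  Pool.Agent.Helper23.MC.Inst.rIOR Pool.Agent.Helper23.MC.Inst.rISOR
  Pool.Agent.Helper23.MC.Inst.rNZD Pool.Agent.Helper23.MC.Inst.rcCharZero
  Pool.Agent.Helper23.MC.Inst.rcNZD Pool.Agent.Helper23.MC.Inst.zCharZero
  Pool.Agent.Helper23.MC.Inst.zALM Pool.Agent.Helper23.MC.Inst.zARM
  Pool.Agent.Helper23.MC.Inst.zALSM Pool.Agent.Helper23.MC.Inst.zARSM
  Pool.Agent.Helper23.MC.Inst.zIOR Pool.Agent.Helper23.MC.Inst.zISOR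
  Pool.Agent.Helper23.MC.Inst.zNZD Pool.Agent.Helper23.MC.Inst.qCharZero
  Pool.Agent.Helper23.MC.Inst.mR Pool.Agent.Helper23.MC.Inst.mC Pool.Agent.Helper23.MC.Inst.mRC
  Pool.Agent.Helper23.MC.Inst.rPSM Pool.Agent.Helper23.MC.Inst.rCSM
  Pool.Agent.Helper23.MC.Inst.cAdd Pool.Agent.Helper23.MC.Inst.cAddM
  Pool.Agent.Helper23.MC.Inst.cMul Pool.Agent.Helper23.MC.Inst.cMon

namespace Pool.Agent.Helper41.NX
end Pool.Agent.Helper41.NX
namespace Pool.Agent.Helper44
end Pool.Agent.Helper44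
namespace Pool.Agent.Helper57.FP
end Pool.Agent.Helper57.FP
namespace Pool.Agent.Helper57.NX
end Pool.Agent.Helper57.NX
namespace Pool.Agent.Helper57.NX3
end Pool.Agent.Helper57.NX3
namespace Pool.Agent.Helper92.NX2
end Pool.Agent.Helper92.NX2
namespace Pool.Agent.Helper96.CPAP
end Pool.Agent.Helper96.CPAP

section

set_option autoImplicit false

open Finset

open scoped BigOperators ComplexConjugate

namespace Pool.Agent.Helper57.NX

noncomputable section

/-- the two-dimensional local box norm at scale `X` -/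
def U2 {N : ℕ} [NeZero N] (X : ℕ) (v : ZMod N → ℂ) : ℝ :=
  (𝔼 x : ZMod N, 𝔼 z ∈ range X, 𝔼 z' ∈ range X, 𝔼 y ∈ range X, 𝔼 y' ∈ range X,
    v (x + (z : ZMod N) + (y : ZMod N)) * conj (v (x + (z : ZMod N) + (y' : ZMod N))) *
    conj (v (x + (z' : ZMod N) + (y : ZMod N))) * v (x + (z' : ZMod N) + (y' : ZMod N))).re

end

end Pool.Agent.Helper57.NX

end

section

set_option autoImplicit false

open Finset

open scoped BigOperators ComplexConjugate

namespace Pool.Agent.Helper57.NX

noncomputable section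

/-- Data of the degree lowering: `u` is an average of translates of `conj (𝔼_n F n)`. -/
structure DLData {N : ℕ} [NeZero N] {ι : Type} (Ω : Finset ι) (F : ι → ZMod N → ℂ)
    (κ : ZMod N → ℂ) (u : ZMod N → ℂ) : Prop where
  ne : Ω.Nonempty
  F1 : ∀ n x, ‖F n x‖ ≤ 1
  κ1 : ∑ y, ‖κ y‖ ≤ 1
  rep : ∀ x, u x = ∑ y, κ y * conj (𝔼 n ∈ Ω, F n (x + y))

end

end Pool.Agent.Helper57.NX

end

section

set_option autoImplicit false

open Finset

open scoped BigOperators ComplexConjugate

namespace Pool.Agent.Helper57.NX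

noncomputable section

theorem lpl_expect_Ico (u T : ℕ) (F : ℕ → ℂ) :
    𝔼 k ∈ Ico u (u + T), F k = 𝔼 t ∈ range T, F (u + t) := by
  rw [expect_eq_sum_div_card, expect_eq_sum_div_card, Nat.card_Ico, card_range,
    Nat.add_sub_cancel_left, sum_Ico_eq_sum_range, Nat.add_sub_cancel_left]

theorem lpl_cell_index (X q0 κ w : ℕ) (hX : 1 ≤ X) (hq0 : 1 ≤ q0) (hw : w < X * q0) :
    (κ * (X * q0) + w) / X / q0 = κ := by
  have : 0 < X * q0 := Nat.mul_pos hX hq0
  rw [Nat.div_div_eq_div_mul, Nat.div_eq_iff this]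
  constructor
  · omega
  · omega

end

end Pool.Agent.Helper57.NX

end

section

set_option autoImplicit false

open Finset

open scoped BigOperators ComplexConjugate

namespace Pool.Agent.Helper57.NX

noncomputable section

section Form

variable {m N : ℕ} [NeZero N]

/-- translation invariance of the average -/
lemma exp_shift {M : Type} [AddCommMonoid M] [Module ℚ≥0 M] (f : ZMod N → M)
    (t : ZMod N) : 𝔼 x, f (x + t) = 𝔼 x, f x :=
  Fintype.expect_equiv (Equiv.addRight t) _ _ fun _ => rfl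

/-- an average of numbers at most `b` is at most `b`, if `b` is nonnegative -/
lemma expect_le_of_nonneg {ι : Type} (s : Finset ι) (g : ι → ℝ) (b : ℝ) (hb : 0 ≤ b)
    (h : ∀ i ∈ s, g i ≤ b) : (𝔼 i ∈ s, g i) ≤ b := by
  rcases s.eq_empty_or_nonempty with rfl | hs
  · simpa using hb
  · exact Finset.expect_le hs h

lemma norm_prod_le (s : Finset (Fin m)) (f : Fin m → ZMod N → ℂ)
    (hf : ∀ j ∈ s, ∀ x, ‖f j x‖ ≤ 1) (y : Fin m → ZMod N) : ‖∏ j ∈ s, f j (y j)‖ ≤ 1 := by
  rw [norm_prod]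
  exact Finset.prod_le_one (fun j _ => norm_nonneg _) fun j hj => hf j hj _

lemma conj_exp {ι : Type} (s : Finset ι) (g : ι → ℂ) :
    conj (𝔼 i ∈ s, g i) = 𝔼 i ∈ s, conj (g i) := by
  rw [Finset.expect_eq_sum_div_card, Finset.expect_eq_sum_div_card, map_div₀, map_sum,
    Complex.conj_natCast]

end Form

end

end Pool.Agent.Helper57.NX

end

section

set_option autoImplicit false

open Finset

open scoped BigOperators ComplexConjugate

namespace Pool.Agent.Helper57.NX

noncomputable section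

lemma expect_comm4_64 {α β γ δ : Type} (s : Finset α)
    (t : Finset β) (u : Finset γ) (v : Finset δ) (G : α → β → γ → δ → ℂ) :
    (𝔼 k ∈ s, 𝔼 x ∈ t, 𝔼 y ∈ u, 𝔼 z ∈ v, G k x y z) =
      𝔼 y ∈ u, 𝔼 z ∈ v, 𝔼 k ∈ s, 𝔼 x ∈ t, G k x y z := by
  calc (𝔼 k ∈ s, 𝔼 x ∈ t, 𝔼 y ∈ u, 𝔼 z ∈ v, G k x y z)
      = 𝔼 k ∈ s, 𝔼 y ∈ u, 𝔼 z ∈ v, 𝔼 x ∈ t, G k x y z := by
        refine expect_congr rfl fun k _ => ?_
        rw [expect_comm]
        exact expect_congr rfl fun y _ => expect_comm _ _ _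
    _ = 𝔼 y ∈ u, 𝔼 k ∈ s, 𝔼 z ∈ v, 𝔼 x ∈ t, G k x y z := expect_comm _ _ _
    _ = 𝔼 y ∈ u, 𝔼 z ∈ v, 𝔼 k ∈ s, 𝔼 x ∈ t, G k x y z :=
        expect_congr rfl fun y _ => expect_comm _ _ _

section Form64

variable {m N : ℕ} [NeZero N]

omit [NeZero N] in
lemma snoc_update64 (f : Fin m → ZMod N → ℂ) (u v : ZMod N → ℂ) :
    Function.update (Fin.snoc (α := fun _ => ZMod N → ℂ) f u) (Fin.last m) v =
      Fin.snoc (α := fun _ => ZMod N → ℂ) f v := by
  funext i
  refine Fin.lastCases ?_ (fun i => ?_) i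
  · rw [Function.update_self, Fin.snoc_last]
  · rw [Function.update_of_ne (Fin.castSucc_lt_last i).ne, Fin.snoc_castSucc, Fin.snoc_castSucc]

omit [NeZero N] in
lemma snoc_bdd64 {f : Fin m → ZMod N → ℂ} (hf : ∀ i x, ‖f i x‖ ≤ 1) {u : ZMod N → ℂ}
    (hu : ∀ x, ‖u x‖ ≤ 1) (i : Fin (m + 1)) (x : ZMod N) :
    ‖Fin.snoc (α := fun _ => ZMod N → ℂ) f u i x‖ ≤ 1 := by
  refine Fin.lastCases ?_ (fun i => ?_) i
  · rw [Fin.snoc_last]
    exact hu x
  · rw [Fin.snoc_castSucc]
    exact hf i x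

end Form64

end

end Pool.Agent.Helper57.NX

end

section

set_option autoImplicit false

open Finset

open scoped BigOperators ComplexConjugate

namespace Pool.Agent.Helper67.NX2

open Pool.Agent.Helper57.NX

noncomputable section

theorem rt5_le {D a b X : ℝ} (hD : 1 ≤ D) (hX : X ≤ D ^ a) (hab : a ≤ b) : X ≤ D ^ b :=
  hX.trans (Real.rpow_le_rpow_of_exponent_le hD hab)

end

end Pool.Agent.Helper67.NX2

end

section

set_option autoImplicit false

open Finset

open scoped BigOperators ComplexConjugate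

namespace Pool.Agent.Helper57.NX

noncomputable section

theorem h36_re_expect {ι : Type*} (S : Finset ι) (f : ι → ℂ) :
    (𝔼 i ∈ S, f i).re = 𝔼 i ∈ S, (f i).re := by
  rw [expect_eq_sum_div_card, expect_eq_sum_div_card, Complex.div_natCast_re, Complex.re_sum]

end

end Pool.Agent.Helper57.NX

end

section

set_option autoImplicit false

open Finset

open scoped BigOperators ComplexConjugate

namespace Pool.Agent.Helper57.NX

noncomputable section

/-- a unimodular factor -/
theorem h72_unimod (z : ℂ) : ∃ w : ℂ, ‖w‖ ≤ 1 ∧ w * z = (‖z‖ : ℂ) := by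
  by_cases hz : z = 0
  · exact ⟨0, by simp, by simp [hz]⟩
  · refine ⟨conj z / ‖z‖, ?_, ?_⟩
    · rw [norm_div, Complex.norm_conj]
      simp [hz]
    · rw [div_mul_eq_mul_div, mul_comm (conj z) z, Complex.mul_conj]
      rw [Complex.normSq_eq_norm_sq]
      have : (‖z‖ : ℂ) ≠ 0 := by
        exact_mod_cast (norm_ne_zero_iff.mpr hz)
      push_cast
      field_simp

end

end Pool.Agent.Helper57.NX

end

section

set_option autoImplicit false

open Finset

open scoped BigOperators ComplexConjugate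

namespace Pool.Agent.Helper57.NX

noncomputable section

section dla_basic

/-- maximum is at least the average -/
theorem dla_exists_ge {ι : Type} (s : Finset ι) (hs : s.Nonempty) (f : ι → ℝ) :
    ∃ i ∈ s, 𝔼 j ∈ s, f j ≤ f i := by
  obtain ⟨i, hi, him⟩ := s.exists_max_image f hs
  exact ⟨i, hi, expect_le hs him⟩

end dla_basic

section dla_steps

variable {N : ℕ} [NeZero N] {k : ℕ}

theorem dla_expect_sum {ι : Type} (s : Finset ι) (κ : ZMod N → ℂ) (f : ι → ZMod N → ℂ) :
    𝔼 i ∈ s, ∑ y, κ y * f i y = ∑ y, κ y * 𝔼 i ∈ s, f i y := by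
  rw [expect_sum_comm]
  exact sum_congr rfl (fun y _ => (mul_expect _ _ _).symm)

/-- a coordinate where `ω` is true -/
def dla_idx (hk : 1 ≤ k) (ω : Fin k → Bool) : Fin k := by
  classical
  exact if h : ∃ i, ω i = true then h.choose else ⟨0, hk⟩

theorem dla_idx_spec (hk : 1 ≤ k) (ω : Fin k → Bool) (h : ω ≠ fun _ => false) :
    ω (dla_idx hk ω) = true := by
  have h2 : ∃ i, ω i = true := by
    by_contra hcon
    push Not at hcon
    apply h
    funext i
    have := hcon i
    simpa using this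
  unfold dla_idx
  rw [dif_pos h2]
  exact h2.choose_spec

theorem dla_norm_prod_le {ι : Type} (s : Finset ι) (f : ι → ℂ) (h : ∀ i ∈ s, ‖f i‖ ≤ 1) :
    ‖∏ i ∈ s, f i‖ ≤ 1 := by
  rw [norm_prod]
  exact Finset.prod_le_one (fun i _ => norm_nonneg _) h

end dla_steps

end

end Pool.Agent.Helper57.NX

end

section

set_option autoImplicit false

open Finset

open scoped BigOperators ComplexConjugate

namespace Pool.Agent.Helper67.NX2

open Pool.Agent.Helper57.NX

noncomputable section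

theorem expect_Ico59 {M : Type} [AddCommMonoid M] [Module ℚ≥0 M] (u T : ℕ) (g : ℕ → M) :
    𝔼 k ∈ Ico u (u + T), g k = 𝔼 i ∈ range T, g (u + i) := by
  unfold Finset.expect
  rw [Finset.sum_Ico_eq_sum_range, Nat.card_Ico, card_range, Nat.add_sub_cancel_left]

/-- eventual inequality -/
theorem ev59 (A τ : ℝ) (h : 0 < τ) : ∀ᶠ D : ℝ in Filter.atTop, A ≤ D ^ τ :=
  (tendsto_rpow_atTop h).eventually_ge_atTop A

end

end Pool.Agent.Helper67.NX2

end

section

set_option autoImplicit false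

open Finset

open scoped BigOperators ComplexConjugate

namespace Pool.Agent.Helper57.NX

noncomputable section

theorem expect_Ico8 {M : Type} [AddCommMonoid M] [Module ℚ≥0 M] (u T : ℕ) (g : ℕ → M) :
    𝔼 k ∈ Ico u (u + T), g k = 𝔼 i ∈ range T, g (u + i) := by
  unfold Finset.expect
  rw [Finset.sum_Ico_eq_sum_range, Nat.card_Ico, card_range, Nat.add_sub_cancel_left]

/-- eventual inequality -/
theorem ev8 (Cc α β : ℝ) (h : β < α) :
    ∀ᶠ D : ℝ in Filter.atTop, Cc * D ^ (-α) ≤ D ^ (-β) := by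
  have h1 := tendsto_rpow_atTop (sub_pos.2 h)
  filter_upwards [h1.eventually_ge_atTop Cc, Filter.eventually_gt_atTop 0] with D h2 h3
  calc Cc * D ^ (-α) ≤ D ^ (α - β) * D ^ (-α) :=
        mul_le_mul_of_nonneg_right h2 (Real.rpow_nonneg h3.le _)
    _ = D ^ (-β) := by rw [← Real.rpow_add h3]; congr 1; ring

end

end Pool.Agent.Helper57.NX

end

section

set_option autoImplicit false

open Finset

open scoped BigOperators ComplexConjugate

namespace Pool.Agent.Helper57.NX

open Pool.Agent.Helper41.NX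

noncomputable section

theorem ev_le41 (C a b : ℝ) (hab : a < b) :
    ∀ᶠ D : ℝ in Filter.atTop, C * D ^ a ≤ D ^ b := by
  have h1 := (tendsto_rpow_atTop (sub_pos.2 hab)).eventually_ge_atTop C
  filter_upwards [h1, Filter.eventually_gt_atTop 0] with D hD hD0
  calc C * D ^ a ≤ D ^ (b - a) * D ^ a := mul_le_mul_of_nonneg_right hD (by positivity)
    _ = D ^ b := by rw [← Real.rpow_add hD0]; ring_nf

end

end Pool.Agent.Helper57.NX

end

section

set_option autoImplicit false

open Finset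

open scoped BigOperators ComplexConjugate

namespace Pool.Agent.Helper67.NX2

open Pool.Agent.Helper57.NX

noncomputable section

section Core

variable {N : ℕ} [NeZero N]

/-- the value at `Q z + r` -/
theorem val92 {Q p z r : ℕ} (hN : N = Q * p) (hz : z < p) (hr : r < Q) :
    (((Q * z + r : ℕ) : ZMod N)).val = Q * z + r := by
  apply ZMod.val_cast_of_lt
  rw [hN]
  calc Q * z + r < Q * z + Q := by omega
    _ = Q * (z + 1) := by ring
    _ ≤ Q * p := Nat.mul_le_mul_left _ hz

end Core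

end

end Pool.Agent.Helper67.NX2

end

section

set_option autoImplicit false

set_option linter.unusedVariables false

open Finset

open scoped BigOperators ComplexConjugate

namespace Pool.Agent.Helper67.NX2

open Pool.Agent.Helper57.NX

noncomputable section

section AqBasic

variable {N : ℕ} [NeZero N]

theorem fb_expect_shift {M : Type} [AddCommMonoid M] [Module ℚ≥0 M] (f : ZMod N → M)
    (t : ZMod N) : 𝔼 x, f (x + t) = 𝔼 x, f x :=
  Fintype.expect_equiv (Equiv.addRight t) _ _ fun _ => rfl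

end AqBasic

end

end Pool.Agent.Helper67.NX2

end

section

set_option autoImplicit false

open Finset

open scoped BigOperators ComplexConjugate

namespace Pool.Agent.Helper67.NX2

open Pool.Agent.Helper57.NX

noncomputable section

theorem la_blk_val {N p Q : ℕ} (hN : N = Q * p) (hQ : 1 ≤ Q) (T e : ℕ) (he : e < Q) :
    ((((Q * T + e : ℕ) : ZMod N).val / Q : ℕ) : ZMod p) = (T : ZMod p) := by
  subst hN
  rw [ZMod.val_natCast, Nat.mod_mul_right_div_self]
  have h1 : (Q * T + e) / Q = T := by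
    rw [Nat.mul_add_div (by omega), Nat.div_eq_of_lt he, add_zero]
  rw [h1, ZMod.natCast_mod]

end

end Pool.Agent.Helper67.NX2

end

section

set_option autoImplicit false

open Finset

open scoped BigOperators ComplexConjugate

namespace Pool.Agent.Helper84.NX

open Pool.Agent.Helper57.NX

/-- statement of NX-3 -/
def VdcStep : Prop :=
  ∀ {N : ℕ} [NeZero N] (u T M : ℕ) (δ : ℝ) (_ : 0 < δ) (_ : δ ≤ 1)
    (f0 : ZMod N → ℂ) (_ : ∀ x, ‖f0 x‖ ≤ 1) (v : ℕ → ZMod N → ℂ) (_ : ∀ k x, ‖v k x‖ ≤ 1)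
    (_ : 16 / δ ^ 2 ≤ M) (_ : (M : ℝ) ≤ δ ^ 2 * T / 64)
    (Bad : Finset ℕ) (_ : (Bad.card : ℝ) ≤ δ ^ 2 * M / 32)
    (_ : δ ≤ ‖𝔼 k ∈ Ico u (u + T), 𝔼 x, f0 x * v k x‖),
    ∃ s : ℕ, 1 ≤ s ∧ s < M ∧ s ∉ Bad ∧
      δ ^ 2 / 4 ≤ ‖𝔼 k ∈ Ico u (u + T), 𝔼 x, v k x * conj (v (k + s) x)‖

lemma expect_shift' {N : ℕ} [NeZero N] (f : ZMod N → ℂ) (t : ZMod N) :
    𝔼 x, f (x + t) = 𝔼 x, f x :=
  Fintype.expect_equiv (Equiv.addRight t) _ _ fun _ => rfl

lemma conj_list_prod {α : Type*} (L : List α) (g : α → ℂ) :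
    conj (L.map g).prod = (L.map fun a => conj (g a)).prod := by
  induction L with
  | nil => simp
  | cons a L ih => simp [ih]

end Pool.Agent.Helper84.NX

end

section

set_option autoImplicit false

open Finset

open scoped BigOperators ComplexConjugate

namespace Pool.Agent.Helper67.NX2

open Pool.Agent.Helper57.NX

noncomputable section

theorem r94_norm_prod {ι : Type} (L : List ι) (f : ι → ℂ) (h : ∀ i ∈ L, ‖f i‖ ≤ 1) :
    ‖(L.map f).prod‖ ≤ 1 := by
  induction L with
  | nil => simp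
  | cons a L ih =>
    rw [List.map_cons, List.prod_cons, norm_mul]
    exact mul_le_one₀ (h a (by simp)) (norm_nonneg _) (ih fun i hi => h i (by simp [hi]))

end

end Pool.Agent.Helper67.NX2

end

section

set_option autoImplicit false

open Finset

open scoped BigOperators ComplexConjugate

namespace Pool.Agent.Helper57.NX

noncomputable section

variable {N : ℕ} [NeZero N]

theorem norm_expect_le' {ι : Type} (s : Finset ι) (g : ι → ℂ) :
    ‖𝔼 i ∈ s, g i‖ ≤ 𝔼 i ∈ s, ‖g i‖ := by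
  rw [Finset.expect_eq_sum_div_card, Finset.expect_eq_sum_div_card, norm_div,
    Complex.norm_natCast]
  exact div_le_div_of_nonneg_right (norm_sum_le _ _) (Nat.cast_nonneg _)

theorem expect_lt {ι : Type} {s : Finset ι} (hs : s.Nonempty) {g : ι → ℝ} {κ : ℝ}
    (h : ∀ i ∈ s, g i < κ) : 𝔼 i ∈ s, g i < κ := by
  have hc : (0 : ℝ) < s.card := by exact_mod_cast hs.card_pos
  rw [Finset.expect_eq_sum_div_card, div_lt_iff₀ hc]
  calc ∑ i ∈ s, g i < ∑ _i ∈ s, κ := Finset.sum_lt_sum_of_nonempty hs h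
    _ = κ * s.card := by rw [Finset.sum_const, nsmul_eq_mul, mul_comm]

end

end Pool.Agent.Helper57.NX

end

section

set_option autoImplicit false

open Finset

open scoped BigOperators ComplexConjugate

namespace Pool.Agent.Helper57.NX

noncomputable section

theorem two_le_inv {δ : ℝ} (hδ0 : 0 < δ) (hδ : δ ≤ 1 / 2) : 2 ≤ δ⁻¹ := by
  rw [le_inv_comm₀ (by norm_num) hδ0]
  linarith

end

end Pool.Agent.Helper57.NX

end

section

set_option autoImplicit false

open Finset

open scoped BigOperators ComplexConjugate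

namespace Pool.Agent.Helper67.NX2

open Pool.Agent.Helper57.NX

noncomputable section

namespace Low94

theorem snoc_init {m : ℕ} {F : Type} (f : Fin (m + 1) → F) (g : F) :
    Function.update f (Fin.last m) g =
      Fin.snoc (α := fun _ => F) (fun i : Fin m => f i.castSucc) g := by
  funext i
  refine Fin.lastCases ?_ (fun i => ?_) i
  · rw [Function.update_self, Fin.snoc_last]
  · rw [Function.update_of_ne (Fin.castSucc_lt_last i).ne, Fin.snoc_castSucc]

end Low94

end

end Pool.Agent.Helper67.NX2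

end

section

set_option autoImplicit false

open Finset

open scoped BigOperators ComplexConjugate

namespace Pool.Agent.Helper57.NX

noncomputable section

theorem r45_norm_prod {ι : Type} (L : List ι) (f : ι → ℂ) (h : ∀ i ∈ L, ‖f i‖ ≤ 1) :
    ‖(L.map f).prod‖ ≤ 1 := by
  induction L with
  | nil => simp
  | cons a L ih =>
    rw [List.map_cons, List.prod_cons, norm_mul]
    exact mul_le_one₀ (h a (by simp)) (norm_nonneg _) (ih fun i hi => h i (by simp [hi]))

end

end Pool.Agent.Helper57.NX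

end

section

set_option autoImplicit false

open Finset

open scoped BigOperators ComplexConjugate

namespace Pool.Agent.Helper57.NX

noncomputable section

section TVs

variable {N : ℕ} [NeZero N]

theorem div_succ {n Q : ℕ} (h : n % Q + 1 < Q) : (n + 1) / Q = n / Q ∧ (n + 1) % Q = n % Q + 1 := by
  have h1 : n + 1 = Q * (n / Q) + (n % Q + 1) := by
    have := Nat.div_add_mod n Q
    omega
  constructor
  · conv_lhs => rw [h1]
    rw [Nat.mul_add_div (by omega), Nat.div_eq_of_lt h, add_zero]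
  · conv_lhs => rw [h1]
    rw [Nat.mul_add_mod, Nat.mod_eq_of_lt h]

end TVs

end

end Pool.Agent.Helper57.NX

end

section

set_option autoImplicit false

open Finset

open scoped BigOperators ComplexConjugate

namespace Pool.Agent.Helper67.NX2

open Pool.Agent.Helper57.NX

noncomputable section

/-- the set of primes: all elements are primes `p` with `p < 2 ^ z ≤ p ^ 2` -/
def PrA (z : ℕ) (A : Finset ℕ) : Prop := ∀ p ∈ A, p.Prime ∧ p < 2 ^ z ∧ 2 ^ z ≤ p ^ 2

end

end Pool.Agent.Helper67.NX2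

end

section

set_option autoImplicit false

open Finset

open scoped BigOperators ComplexConjugate

namespace Pool.Agent.Helper67.NX2

open Pool.Agent.Helper57.NX

noncomputable section

lemma rap_prod {s : ℕ} (h : Option (Fin s) → ℕ → ℝ) (o : Option (Fin s)) (u : ℕ → ℝ)
    (y : Option (Fin s) → ℕ) :
    ∏ o', Function.update h o u o' (y o') = u (y o) * ∏ o' ∈ univ.erase o, h o' (y o') := by
  rw [← mul_prod_erase univ _ (mem_univ o), Function.update_self]
  congr 1
  refine prod_congr rfl fun o' ho' => ?_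
  rw [Function.update_of_ne (ne_of_mem_erase ho')]

end

end Pool.Agent.Helper67.NX2

end

section

set_option autoImplicit false

open Finset

open scoped BigOperators ComplexConjugate

namespace Pool.Agent.Helper67.NX2

open Pool.Agent.Helper57.NX

open Pool.Agent.Helper92.NX2

noncomputable section

theorem tendsto_log_two_pow :
    Filter.Tendsto (fun z : ℕ => Real.log ((2 : ℝ) ^ z)) Filter.atTop Filter.atTop := by
  have h1 : (fun z : ℕ => Real.log ((2 : ℝ) ^ z)) = fun z : ℕ => (z : ℝ) * Real.log 2 := by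
    funext z
    rw [Real.log_pow]
  rw [h1]
  exact tendsto_natCast_atTop_atTop.atTop_mul_const (Real.log_pos (by norm_num))

end

end Pool.Agent.Helper67.NX2

end

section

set_option autoImplicit false

open Finset

open scoped BigOperators ComplexConjugate

namespace Pool.Agent.Helper67.NX2

open Pool.Agent.Helper57.NX

noncomputable section

namespace LM

/-- the statement of `totient_ratio` -/
def TotRatioP : Prop :=
  ∃ C : ℝ, 0 < C ∧ ∀ M R : ℕ, 1 ≤ M → 2 ≤ R →
    (∀ p : ℕ, p.Prime → p ∣ M → p ≤ R) → (M : ℝ) / M.totient ≤ C * Real.log R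

theorem coprime_of_smooth {y M N : ℕ} (h1 : ∀ p : ℕ, p.Prime → p ∣ M → p ≤ y)
    (h2 : ∀ p : ℕ, p.Prime → p ∣ N → y < p) : Nat.Coprime M N := by
  apply Nat.coprime_of_dvd
  intro p hp hpM hpN
  exact absurd (h1 p hp hpM) (not_le.mpr (h2 p hp hpN))

end LM

end

end Pool.Agent.Helper67.NX2

end

section

set_option autoImplicit false

open Finset

namespace Pool.Agent.Helper79.RG

open Pool.Agent.Helper44 Pool.Agent.Helper96.CPAP

theorem occ_mod' {k : ℕ} {b : Fin k → ℕ} {q : ℕ} (n : ℕ) :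
    (∃ i, q ∣ n % q + b i) ↔ (∃ i, q ∣ n + b i) := by
  apply exists_congr
  intro i
  have h : n % q + b i ≡ n + b i [MOD q] := Nat.ModEq.add_right _ (Nat.mod_modEq n q)
  exact ⟨fun h' => (Nat.ModEq.dvd_iff h dvd_rfl).mp h', fun h' => (Nat.ModEq.dvd_iff h dvd_rfl).mpr h'⟩

end Pool.Agent.Helper79.RG

end

section

set_option autoImplicit false

open Finset Real

namespace Pool.Agent.Helper57.FP

theorem two_pow_le_four_pow (L : ℕ) : 2 ^ L ≤ 4 ^ L := Nat.pow_le_pow_left (by norm_num) L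

end Pool.Agent.Helper57.FP

end

section

set_option autoImplicit false

open Finset

open scoped BigOperators ComplexConjugate

namespace Pool.Agent.Helper57.NX

noncomputable section

/-- the sequence -/
def aN (Q : ℕ) (γ : ℝ) (k : ℕ) : ℕ := ⌊(Q : ℝ) * (k : ℝ) ^ γ⌋₊

end

end Pool.Agent.Helper57.NX

end

section

set_option autoImplicit false

open Finset

open scoped BigOperators

namespace Pool.Agent.Helper82.NX3

open Pool.Agent.Helper57.NX3

noncomputable section

theorem exists_zpow (θ C : ℝ) (hθ : 0 < θ) : ∃ z0 : ℕ, ∀ z : ℕ, z0 ≤ z →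
    C ≤ ((2 : ℝ) ^ z) ^ θ := by
  have h1 : Filter.Tendsto (fun z : ℕ => ((2 : ℝ) ^ z) ^ θ) Filter.atTop Filter.atTop :=
    (tendsto_rpow_atTop hθ).comp (tendsto_pow_atTop_atTop_of_one_lt (by norm_num))
  obtain ⟨z0, h⟩ := Filter.eventually_atTop.mp (h1.eventually_ge_atTop C)
  exact ⟨z0, h⟩

theorem phi_ratio_pos {M : ℕ} (hM : 1 ≤ M) : 0 < (M.totient : ℝ) / M := by
  have h1 : 0 < M.totient := Nat.totient_pos.mpr hM
  have h2 : (0 : ℝ) < M := by exact_mod_cast hM
  have h3 : (0 : ℝ) < M.totient := by exact_mod_cast h1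
  positivity

theorem phi_ratio_le_one {M : ℕ} (hM : 1 ≤ M) : (M.totient : ℝ) / M ≤ 1 := by
  have h2 : (0 : ℝ) < M := by exact_mod_cast hM
  rw [div_le_one h2]
  exact_mod_cast Nat.totient_le M

end

end Pool.Agent.Helper82.NX3

end

section

set_option autoImplicit false

open Finset

open scoped BigOperators

namespace Pool.Agent.Helper57.NX3

open Pool.Agent.Helper44 Pool.Agent.Helper96.CPAP Pool.Agent.Helper57.FP

/-- the two shifts -/
def psy (h : ℕ) : Bool → ℕ := fun b => if b then h else 0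

end Pool.Agent.Helper57.NX3

end

section

set_option autoImplicit false

open Finset

open scoped BigOperators

namespace Pool.Agent.Helper57.NX3

open Pool.Agent.Helper67.NX2 (PrA)

noncomputable section

theorem exists_chain (w : ℕ) (R : ℕ → ℕ → Prop)
    (hR : ∀ K, 1 ≤ K → (∀ p : ℕ, p.Prime → (p ∣ K ↔ p ≤ w)) →
      ∃ K', 1 ≤ K' ∧ K ∣ K' ∧ (∀ p : ℕ, p.Prime → (p ∣ K' ↔ p ≤ w)) ∧ R K K') :
    ∃ Ks : ℕ → ℕ, ∀ j, 1 ≤ Ks j ∧ (∀ p : ℕ, p.Prime → (p ∣ Ks j ↔ p ≤ w)) ∧
      Ks j ∣ Ks (j + 1) ∧ R (Ks j) (Ks (j + 1)) := by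
  classical
  let X := {K : ℕ // 1 ≤ K ∧ ∀ p : ℕ, p.Prime → (p ∣ K ↔ p ≤ w)}
  have hstep : ∀ K : X, ∃ K' : X, K.1 ∣ K'.1 ∧ R K.1 K'.1 := by
    rintro ⟨K, hK1, hK2⟩
    obtain ⟨K', h1, h2, h3, h4⟩ := hR K hK1 hK2
    exact ⟨⟨K', h1, h3⟩, h2, h4⟩
  choose nx hnx1 hnx2 using hstep
  let K0 : X := ⟨w.factorial, Nat.factorial_pos w, fun p hp => hp.dvd_factorial⟩
  let sq : ℕ → X := fun j => Nat.rec K0 (fun _ K => nx K) j
  refine ⟨fun j => (sq j).1, fun j => ⟨(sq j).2.1, (sq j).2.2, ?_, ?_⟩⟩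
  · exact hnx1 (sq j)
  · exact hnx2 (sq j)

end

end Pool.Agent.Helper57.NX3

end
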