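import Pool.Agent.Helper23.MC.Inst

/-!
Parts of Helper44.Mertens, Helper44.MertensInterval, Helper44.MertensProd, Helper44.SievePairs, Helper96.CPAP.SieveK, Helper96.CPAP.Count, Helper57.FP.Shift, Helper57.FP.PsiAvg, Helper57.FP.Tree, Helper57.FP.Pairs
-/

attribute [local instance 5000]
  Pool.Agent.Helper23.MC.Inst.rCharZero Pool.Agent.Helper23.MC.Inst.rALM
  Pool.Agent.Helper23.MC.Inst.rARM Pool.Agent.Helper23.MC.Inst.rALSM
  Pool.Agent.Helper23.MC.Inst.rARSM Pool.Agent.Helper23.MC.Inst.rARRLE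
  Pool.Agent.Helper23.MC.Inst.rALRLE Pool.Agent.Helper23.MC.Inst.rARRLT
  Pool.Agent.Helper23.MC.Inst.rALRLT Pool.Agent.Helper23.MC.Inst.rPMRLT
  Pool.Agent.Helper23.MC.Inst.rMPRLT Pool.Agent.Helper23.MC.Inst.rPMM
  Pool.Agent.Helper23.MC.Inst.rMPM Pool.Agent.Helper23.MC.Inst.rPMSM
  Pool.Agent.Helper23.MC.Inst.rMPSM Pool.Agent.Helper23.MC.Inst.rEAOL
  Pool.Agent.Helper23.MC.Inst.rIOR Pool.Agent.Helper23.MC.Inst.rISOR
  Pool.Agent.Helper23.MC.Inst.rNZD Pool.Agent.Helper23.MC.Inst.rcCharZero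
  Pool.Agent.Helper23.MC.Inst.rcNZD Pool.Agent.Helper23.MC.Inst.zCharZero
  Pool.Agent.Helper23.MC.Inst.zALM Pool.Agent.Helper23.MC.Inst.zARM
  Pool.Agent.Helper23.MC.Inst.zALSM Pool.Agent.Helper23.MC.Inst.zARSM
  Pool.Agent.Helper23.MC.Inst.zIOR Pool.Agent.Helper23.MC.Inst.zISOR
  Pool.Agent.Helper23.MC.Inst.zNZD Pool.Agent.Helper23.MC.Inst.qCharZero
  Pool.Agent.Helper23.MC.Inst.mR Pool.Agent.Helper23.MC.Inst.mC Pool.Agent.Helper23.MC.Inst.mRC
  Pool.Agent.Helper23.MC.Inst.rPSM Pool.Agent.Helper23.MC.Inst.rCSM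
  Pool.Agent.Helper23.MC.Inst.cAdd Pool.Agent.Helper23.MC.Inst.cAddM
  Pool.Agent.Helper23.MC.Inst.cMul Pool.Agent.Helper23.MC.Inst.cMon

namespace Pool.Agent.Helper44
end Pool.Agent.Helper44
namespace Pool.Agent.Helper96.CPAP
end Pool.Agent.Helper96.CPAP

section

set_option autoImplicit false

open Finset Real

open scoped ArithmeticFunction.vonMangoldt

namespace Pool.Agent.Helper44

/-- `log N! = ∑_{d ≤ N} Λ(d) ⌊N/d⌋`. -/
theorem log_factorial_eq_sum (N : ℕ) :
    Real.log (N.factorial : ℝ) = ∑ d ∈ Ioc 0 N, Λ d * ((N / d : ℕ) : ℝ) := by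
  have h1 : Real.log (N.factorial : ℝ) = ∑ m ∈ Ioc 0 N, Real.log m := by
    rw [← Finset.prod_Ico_id_eq_factorial, Nat.cast_prod, Real.log_prod]
    · apply Finset.sum_congr _ (fun _ _ => rfl)
      ext i
      simp only [Finset.mem_Ico, Finset.mem_Ioc]
      omega
    · intro i hi
      have := (Finset.mem_Ico.mp hi).1
      positivity
  rw [h1]
  have h2 : ∀ m ∈ Ioc 0 N, Real.log m = ∑ d ∈ Ioc 0 N, if d ∣ m then Λ d else 0 := by
    intro m hm
    rw [← ArithmeticFunction.vonMangoldt_sum, ← Finset.sum_filter]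
    apply Finset.sum_congr _ (fun _ _ => rfl)
    ext d
    simp only [Nat.mem_divisors, Finset.mem_filter, Finset.mem_Ioc]
    rw [Finset.mem_Ioc] at hm
    constructor
    · rintro ⟨h, h0⟩
      exact ⟨⟨Nat.pos_of_dvd_of_pos h hm.1, (Nat.le_of_dvd hm.1 h).trans hm.2⟩, h⟩
    · rintro ⟨_, h⟩
      exact ⟨h, by omega⟩
  rw [Finset.sum_congr rfl h2, Finset.sum_comm]
  apply Finset.sum_congr rfl
  intro d hd
  rw [← Finset.sum_filter, Finset.sum_const, nsmul_eq_mul, mul_comm]
  congr 2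
  rw [Nat.Ioc_filter_dvd_card_eq_div]

theorem log_factorial_le (N : ℕ) : Real.log (N.factorial : ℝ) ≤ N * Real.log N := by
  rcases Nat.eq_zero_or_pos N with h | h
  · simp [h]
  rw [← Real.log_pow]
  apply Real.log_le_log
  · positivity
  · exact_mod_cast Nat.factorial_le_pow N

theorem le_log_factorial (N : ℕ) : (N : ℝ) * Real.log N - N ≤ Real.log (N.factorial : ℝ) := by
  rcases Nat.eq_zero_or_pos N with h | h
  · simp [h]
  have hN : (0 : ℝ) < N := by exact_mod_cast h
  have h1 : (N : ℝ) ^ N / N.factorial ≤ Real.exp N := by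
    exact Real.pow_div_factorial_le_exp _ hN.le N
  have h2 : Real.log ((N : ℝ) ^ N / N.factorial) ≤ N := by
    calc Real.log ((N : ℝ) ^ N / N.factorial) ≤ Real.log (Real.exp N) :=
          Real.log_le_log (by (clear * - h; positivity)) h1
      _ = N := Real.log_exp _
  rw [Real.log_div (by positivity) (by positivity), Real.log_pow] at h2
  (clear * - h2; linarith)

/-- First theorem, with `Λ`, integer argument. -/
theorem abs_sum_vonMangoldt_div_sub_log_nat (N : ℕ) (hN : 1 ≤ N) :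
    |∑ d ∈ Ioc 0 N, Λ d / d - Real.log N| ≤ 6 := by
  have hN0 : (0 : ℝ) < N := by exact_mod_cast hN
  have h1 := log_factorial_eq_sum N
  have h2 := log_factorial_le N
  have h3 := le_log_factorial N
  have h4 : ∑ d ∈ Ioc 0 N, Λ d * ((N / d : ℕ) : ℝ) ≤ N * ∑ d ∈ Ioc 0 N, Λ d / d := by
    rw [Finset.mul_sum]
    apply Finset.sum_le_sum
    intro d hd
    have hd0 : (0 : ℝ) < d := by exact_mod_cast (Finset.mem_Ioc.mp hd).1
    have : ((N / d : ℕ) : ℝ) ≤ N / d := Nat.cast_div_le
    calc Λ d * ((N / d : ℕ) : ℝ) ≤ Λ d * (N / d) :=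
          mul_le_mul_of_nonneg_left this ArithmeticFunction.vonMangoldt_nonneg
      _ = N * (Λ d / d) := by ring
  have h5 : N * ∑ d ∈ Ioc 0 N, Λ d / d - Chebyshev.psi N
      ≤ ∑ d ∈ Ioc 0 N, Λ d * ((N / d : ℕ) : ℝ) := by
    have : Chebyshev.psi N = ∑ d ∈ Ioc 0 N, Λ d := by
      simp [Chebyshev.psi]
    rw [this, Finset.mul_sum, ← Finset.sum_sub_distrib]
    apply Finset.sum_le_sum
    intro d hd
    have hd0 : (0 : ℝ) < d := by exact_mod_cast (Finset.mem_Ioc.mp hd).1
    have : (N / d : ℝ) - 1 ≤ ((N / d : ℕ) : ℝ) := by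
      have h := Nat.div_add_mod N d
      have h' := Nat.mod_lt N (Finset.mem_Ioc.mp hd).1
      have h6 : (N : ℝ) ≤ d * ((N / d : ℕ) : ℝ) + d := by
        have : N ≤ d * (N / d) + d := by omega
        exact_mod_cast this
      rw [sub_le_iff_le_add, div_le_iff₀ hd0]
      (clear * - h6; linarith)
    calc N * (Λ d / d) - Λ d = Λ d * (N / d - 1) := by ring
      _ ≤ _ := mul_le_mul_of_nonneg_left this ArithmeticFunction.vonMangoldt_nonneg
  exact by
    have h6 : Chebyshev.psi N ≤ (Real.log 4 + 4) * N := Chebyshev.psi_le_const_mul_self hN0.le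
    have h7 : Real.log 4 ≤ 2 := by
      have : Real.log 4 = 2 * Real.log 2 := by
        rw [show (4 : ℝ) = 2 ^ 2 by norm_num, Real.log_pow]; norm_num
      have := Real.log_two_lt_d9
      linarith
    rw [abs_le]
    constructor
    · -- lower bound
      have : N * (Real.log N - 1) ≤ N * ∑ d ∈ Ioc 0 N, Λ d / d := by
        calc (N : ℝ) * (Real.log N - 1) = N * Real.log N - N := by ring
          _ ≤ _ := by (clear * - h1 h3 h4; linarith)
      have := le_of_mul_le_mul_left this hN0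
      (clear * - this; linarith)
    · have : N * ∑ d ∈ Ioc 0 N, Λ d / d ≤ N * (Real.log N + 6) := by
        have : N * ∑ d ∈ Ioc 0 N, Λ d / d ≤ N * Real.log N + (Real.log 4 + 4) * N := by linarith
        have h8 : (Real.log 4 + 4) * N ≤ 6 * N := by
          apply mul_le_mul_of_nonneg_right _ hN0.le
          (clear * - h7; linarith)
        calc _ ≤ _ := this
          _ ≤ N * Real.log N + 6 * N := by (clear * - h8; linarith)
          _ = _ := by ring
      have := le_of_mul_le_mul_left this hN0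
      (clear * - this; linarith)

/-- A constant bounding the contribution of proper prime powers. -/
noncomputable def ppC : ℝ := ∑' n : ℕ, 4 / (n : ℝ) ^ (3 / 2 : ℝ)

theorem summable_ppC : Summable (fun n : ℕ => 4 / (n : ℝ) ^ (3 / 2 : ℝ)) := by
  have h : Summable (fun n : ℕ => ((n : ℝ) ^ (3 / 2 : ℝ))⁻¹) :=
    Real.summable_nat_rpow_inv.mpr (by norm_num)
  simpa [div_eq_mul_inv] using h.mul_left 4

theorem ppC_nonneg : 0 ≤ ppC := tsum_nonneg fun n => by (clear * -; positivity)

theorem log_div_sq_le (n : ℕ) : Real.log n / (n : ℝ) ^ 2 * 2 ≤ 4 / (n : ℝ) ^ (3 / 2 : ℝ) := by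
  rcases Nat.eq_zero_or_pos n with h | h
  · simp [h]
  have hn : (0 : ℝ) < n := by exact_mod_cast h
  have h1 : Real.log n ≤ 2 * (n : ℝ) ^ (1 / 2 : ℝ) := by
    have := Real.log_le_rpow_div hn.le (show (0 : ℝ) < 1 / 2 by norm_num)
    calc Real.log n ≤ (n : ℝ) ^ (1 / 2 : ℝ) / (1 / 2) := this
      _ = _ := by ring
  have h2 : (n : ℝ) ^ 2 = (n : ℝ) ^ (1 / 2 : ℝ) * (n : ℝ) ^ (3 / 2 : ℝ) := by
    rw [← Real.rpow_natCast, ← Real.rpow_add hn]; norm_num
  rw [h2, div_mul_eq_mul_div, div_le_div_iff₀ (by positivity) (by positivity)]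
  calc Real.log n * 2 * (n : ℝ) ^ (3 / 2 : ℝ)
      ≤ (2 * (n : ℝ) ^ (1 / 2 : ℝ)) * 2 * (n : ℝ) ^ (3 / 2 : ℝ) := by gcongr
    _ = _ := by ring

theorem sum_vonMangoldt_div_sub_primes (N : ℕ) :
    0 ≤ ∑ d ∈ Ioc 0 N, Λ d / d - ∑ q ∈ (Ioc 0 N).filter Nat.Prime, Real.log q / q ∧
    ∑ d ∈ Ioc 0 N, Λ d / d - ∑ q ∈ (Ioc 0 N).filter Nat.Prime, Real.log q / q ≤ ppC := by
  have hsplit : ∑ d ∈ Ioc 0 N, Λ d / d = ∑ d ∈ (Ioc 0 N).filter IsPrimePow, Λ d / d := by
    rw [Finset.sum_filter]
    apply Finset.sum_congr rfl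
    intro d _
    split_ifs with h
    · rfl
    · rw [ArithmeticFunction.vonMangoldt_eq_zero_iff.mpr h, zero_div]
  have hN0 : (0 : ℝ) ≤ (N : ℝ) := by (clear * -; positivity)
  have hpp := Chebyshev.sum_PrimePow_eq_sum_sum (R := ℝ) (fun n => Λ n / n) hN0
  rw [Nat.floor_natCast] at hpp
  set K := ⌊Real.log N / Real.log 2⌋₊ with hK
  have hfk : ∀ k ∈ Icc 1 K, ∑ p ∈ Ioc 0 ⌊(N : ℝ) ^ ((1 : ℝ) / k)⌋₊ with p.Prime,
      (Λ (p ^ k) / ((p ^ k : ℕ) : ℝ)) =
      ∑ p ∈ Ioc 0 ⌊(N : ℝ) ^ ((1 : ℝ) / k)⌋₊ with p.Prime, Real.log p / (p : ℝ) ^ k := by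
    intro k hk
    apply Finset.sum_congr rfl
    intro p hp
    have hk1 := (Finset.mem_Icc.mp hk).1
    rw [ArithmeticFunction.vonMangoldt_apply_pow (by omega),
      ArithmeticFunction.vonMangoldt_apply_prime (Finset.mem_filter.mp hp).2, Nat.cast_pow]
  rw [hsplit, hpp, Finset.sum_congr rfl hfk]
  rcases Nat.lt_or_ge N 2 with hN2 | hN2
  · have hK0 : K = 0 := by
      rw [hK]
      interval_cases N <;> simp
    have : (Ioc 0 N).filter Nat.Prime = ∅ := by
      ext q
      simp only [Finset.mem_filter, Finset.mem_Ioc, Finset.notMem_empty, iff_false]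
      rintro ⟨⟨_, h⟩, hq⟩
      have := hq.two_le
      omega
    rw [hK0, this]
    simp [ppC_nonneg]
  have hK1 : 1 ≤ K := by
    rw [hK, Nat.one_le_floor_iff, one_le_div (Real.log_pos (by norm_num))]
    exact Real.log_le_log (by norm_num) (by exact_mod_cast hN2)
  rw [← Finset.add_sum_Ioc_eq_sum_Icc hK1]
  have h1 : ∑ p ∈ Ioc 0 ⌊(N : ℝ) ^ ((1 : ℝ) / (1 : ℕ))⌋₊ with p.Prime, Real.log p / (p : ℝ) ^ 1
      = ∑ q ∈ (Ioc 0 N).filter Nat.Prime, Real.log q / q := by
    simp
  exact by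
    rw [h1, add_sub_cancel_left]
    have hnn : ∀ k p : ℕ, 0 ≤ Real.log p / (p : ℝ) ^ k := by
      intro k p
      apply div_nonneg (Real.log_natCast_nonneg p) (by (clear * -; positivity))
    refine ⟨Finset.sum_nonneg fun k _ => Finset.sum_nonneg fun p _ => hnn k p, ?_⟩
    calc ∑ k ∈ Ioc 1 K, ∑ p ∈ Ioc 0 ⌊(N : ℝ) ^ ((1 : ℝ) / k)⌋₊ with p.Prime, Real.log p / (p : ℝ) ^ k
        ≤ ∑ k ∈ Ioc 1 K, ∑ p ∈ (Ioc 0 N).filter Nat.Prime, Real.log p / (p : ℝ) ^ k := by
          apply Finset.sum_le_sum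
          intro k hk
          apply Finset.sum_le_sum_of_subset_of_nonneg
          · intro p hp
            rw [Finset.mem_filter, Finset.mem_Ioc] at hp ⊢
            refine ⟨⟨hp.1.1, hp.1.2.trans ?_⟩, hp.2⟩
            have hk1 := (Finset.mem_Ioc.mp hk).1
            have : (N : ℝ) ^ ((1 : ℝ) / k) ≤ N := by
              apply Real.rpow_le_self_of_one_le
              · exact_mod_cast (by omega : 1 ≤ N)
              · rw [div_le_one (by positivity)]
                exact_mod_cast hk1.le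
            calc ⌊(N : ℝ) ^ ((1 : ℝ) / k)⌋₊ ≤ ⌊(N : ℝ)⌋₊ := Nat.floor_le_floor this
              _ = N := Nat.floor_natCast N
          · intro p _ _
            exact hnn k p
      _ = ∑ p ∈ (Ioc 0 N).filter Nat.Prime, ∑ k ∈ Ioc 1 K, Real.log p / (p : ℝ) ^ k :=
          Finset.sum_comm
      _ ≤ ∑ p ∈ (Ioc 0 N).filter Nat.Prime, 4 / (p : ℝ) ^ (3 / 2 : ℝ) := by
          apply Finset.sum_le_sum
          intro p hp
          have hpp := (Finset.mem_filter.mp hp).2
          have hp2 : (2 : ℝ) ≤ p := by exact_mod_cast hpp.two_le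
          refine le_trans ?_ (log_div_sq_le p)
          have hgeo : ∑ k ∈ Ioc 1 K, (1 / (p : ℝ)) ^ k ≤ 2 * (1 / (p : ℝ)) ^ 2 := by
            have h0 : ∀ K : ℕ, ∑ k ∈ Ioc 1 K, (1 / (p : ℝ)) ^ k ≤
                2 * (1 / (p : ℝ)) ^ 2 * (1 - (1 / (p : ℝ)) ^ (K - 1)) := by
              intro K
              induction K with
              | zero => simp
              | succ n ih =>
                rcases Nat.eq_zero_or_pos n with h | h
                · subst h; simp
                · rw [Finset.sum_Ioc_succ_top (by omega)]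
                  obtain ⟨m, rfl⟩ : ∃ m, n = m + 1 := ⟨n - 1, by omega⟩
                  simp only [Nat.add_sub_cancel] at ih ⊢
                  have hx : (1 / (p : ℝ)) ≤ 1 / 2 := by
                    apply one_div_le_one_div_of_le (by norm_num) hp2
                  have hx0 : (0 : ℝ) ≤ 1 / (p : ℝ) := by (clear * - hp2; positivity)
                  set x := 1 / (p : ℝ)
                  have e1 : x ^ (m + 1 + 1) = x ^ 2 * x ^ m := by ring
                  have e2 : x ^ (m + 1) = x ^ m * x := by ring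
                  rw [e1, e2]
                  have hxm : 0 ≤ x ^ m := by (clear * - hp2; positivity)
                  have : 0 ≤ x ^ 2 * x ^ m * (1 - 2 * x) := by
                    apply mul_nonneg (by (clear * - hp2; positivity)); (clear * - hx; linarith)
                  (clear * - ih this; nlinarith)
            refine (h0 K).trans ?_
            have : 0 ≤ (1 / (p : ℝ)) ^ (K - 1) := by (clear * - hp2; positivity)
            have h2 : (0 : ℝ) ≤ 2 * (1 / (p : ℝ)) ^ 2 := by (clear * - hp2; positivity)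
            (clear * - this; nlinarith)
          calc ∑ k ∈ Ioc 1 K, Real.log p / (p : ℝ) ^ k
              = Real.log p * ∑ k ∈ Ioc 1 K, (1 / (p : ℝ)) ^ k := by
                rw [Finset.mul_sum]
                apply Finset.sum_congr rfl
                intro k _
                rw [one_div, inv_pow]; rfl
            _ ≤ Real.log p * (2 * (1 / (p : ℝ)) ^ 2) :=
                mul_le_mul_of_nonneg_left hgeo (Real.log_natCast_nonneg p)
            _ = Real.log p / (p : ℝ) ^ 2 * 2 := by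
                rw [one_div, inv_pow]; ring
      _ ≤ ppC := by
          unfold ppC
          exact summable_ppC.sum_le_tsum _ (fun n _ => by (clear * -; positivity))

/-- Mertens' first theorem for primes. -/
theorem mertens_first : ∃ C : ℝ, 0 < C ∧ ∀ N : ℕ, 1 ≤ N →
    |∑ q ∈ (Ioc 0 N).filter Nat.Prime, Real.log q / q - Real.log N| ≤ C := by
  refine ⟨6 + ppC, by have := ppC_nonneg; (clear * - this; linarith), ?_⟩
  intro N hN
  have h1 := abs_sum_vonMangoldt_div_sub_log_nat N hN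
  have h2 := sum_vonMangoldt_div_sub_primes N
  rw [abs_le] at h1 ⊢
  constructor <;> linarith [h1.1, h1.2, h2.1, h2.2]

end Pool.Agent.Helper44

end

section

set_option autoImplicit false

open Finset Real

open scoped ArithmeticFunction.vonMangoldt

namespace Pool.Agent.Helper44

/-- Mertens' second theorem on intervals. -/
theorem mertens_interval : ∃ C : ℝ, 0 < C ∧ ∀ x y : ℝ, 2 ≤ x → x ≤ y →
    |∑ q ∈ (Finset.Ioc ⌊x⌋₊ ⌊y⌋₊).filter Nat.Prime, (1:ℝ)/q - Real.log (Real.log y / Real.log x)|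
      ≤ C / Real.log x := by
  obtain ⟨C0, hC0, hM⟩ := mertens_first
  set C1 := C0 + 1 with hC1
  refine ⟨3 * C1, by (clear * - hC0; positivity), ?_⟩
  intro x y hx hxy
  have hx0 : (0 : ℝ) < x := by linarith
  have hlx : 0 < Real.log x := Real.log_pos (by linarith)
  have hly : 0 < Real.log y := Real.log_pos (by linarith)
  set c : ℕ → ℝ := fun n => if n.Prime then Real.log n / n else 0 with hc
  set A : ℝ → ℝ := fun t => ∑ k ∈ Icc 0 ⌊t⌋₊, c k with hA
  exact by
    have hAbound : ∀ t : ℝ, 2 ≤ t → |A t - Real.log t| ≤ C1 := by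
      intro t ht
      have hN : 1 ≤ ⌊t⌋₊ := by
        rw [Nat.one_le_floor_iff]; (clear * - ht; linarith)
      have h1 := hM ⌊t⌋₊ hN
      have h2 : A t = ∑ q ∈ (Ioc 0 ⌊t⌋₊).filter Nat.Prime, Real.log q / q := by
        simp only [hA, hc]
        rw [← Finset.sum_filter]
        apply Finset.sum_congr _ (fun _ _ => rfl)
        ext q
        simp only [Finset.mem_filter, Finset.mem_Icc, Finset.mem_Ioc]
        constructor
        · rintro ⟨⟨_, h⟩, hq⟩; exact ⟨⟨hq.pos, h⟩, hq⟩
        · rintro ⟨⟨_, h⟩, hq⟩; exact ⟨⟨Nat.zero_le _, h⟩, hq⟩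
      rw [← h2] at h1
      have hfl : (⌊t⌋₊ : ℝ) ≤ t := Nat.floor_le (by (clear * - ht; linarith))
      have hfl2 : t ≤ 2 * (⌊t⌋₊ : ℝ) := by
        have := (Nat.lt_floor_add_one t).le
        have h3 : (1 : ℝ) ≤ (⌊t⌋₊ : ℝ) := by exact_mod_cast hN
        (clear * - ht this; linarith)
      have hf0 : (0 : ℝ) < (⌊t⌋₊ : ℝ) := by exact_mod_cast hN
      have h4 : Real.log (⌊t⌋₊ : ℝ) ≤ Real.log t := Real.log_le_log hf0 hfl
      have h5 : Real.log t ≤ Real.log 2 + Real.log (⌊t⌋₊ : ℝ) := by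
        rw [← Real.log_mul (by norm_num) hf0.ne']
        exact Real.log_le_log (by (clear * - ht; linarith)) hfl2
      have h6 : Real.log 2 ≤ 1 := by
        have := Real.log_two_lt_d9; (clear * - this; linarith)
      rw [abs_le] at h1 ⊢
      constructor <;> (clear * - h1 h5 h6 h4; linarith [h1.1, h1.2])
    -- Abel summation
    have hderiv : ∀ t ∈ Set.Icc x y, HasDerivAt (fun t => (Real.log t)⁻¹) (-(t * Real.log t ^ 2)⁻¹) t := by
      intro t ht
      have ht0 : 0 < t := by (clear * - hx ht; linarith [ht.1])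
      have hlt : Real.log t ≠ 0 := (Real.log_pos (by (clear * - hx ht; linarith [ht.1]))).ne'
      refine HasDerivAt.congr_deriv ((Real.hasDerivAt_log ht0.ne').inv hlt) ?_
      rw [mul_inv, neg_div, div_eq_mul_inv]
    have hdiff : ∀ t ∈ Set.Icc x y, DifferentiableAt ℝ (fun t => (Real.log t)⁻¹) t :=
      fun t ht => (hderiv t ht).differentiableAt
    have hcont : ContinuousOn (fun t : ℝ => -(t * Real.log t ^ 2)⁻¹) (Set.Icc x y) := by
      intro t ht
      have ht0 : 0 < t := by linarith [ht.1]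
      have hlt : Real.log t ≠ 0 := (Real.log_pos (by linarith [ht.1])).ne'
      apply ContinuousAt.continuousWithinAt
      have : t * Real.log t ^ 2 ≠ 0 := by positivity
      fun_prop (disch := first | exact this | exact ht0.ne')
    have hint : MeasureTheory.IntegrableOn (fun t : ℝ => -(t * Real.log t ^ 2)⁻¹) (Set.Icc x y) :=
      hcont.integrableOn_Icc
    have hint' : MeasureTheory.IntegrableOn (deriv (fun t => (Real.log t)⁻¹)) (Set.Icc x y) := by
      apply hint.congr_fun _ measurableSet_Icc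
      intro t ht
      exact (hderiv t ht).deriv.symm
    exact by
      have habel := sum_mul_eq_sub_sub_integral_mul c (f := fun t => (Real.log t)⁻¹) hx0.le hxy hdiff hint'
      have hlhs : ∑ k ∈ Ioc ⌊x⌋₊ ⌊y⌋₊, (Real.log (k : ℝ))⁻¹ * c k =
          ∑ q ∈ (Finset.Ioc ⌊x⌋₊ ⌊y⌋₊).filter Nat.Prime, (1:ℝ)/q := by
        rw [Finset.sum_filter]
        apply Finset.sum_congr rfl
        intro k hk
        simp only [hc]
        split_ifs with h
        · have : Real.log (k : ℝ) ≠ 0 := (Real.log_pos (by exact_mod_cast h.one_lt)).ne'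
          (clear * - this; field_simp)
        · simp
      rw [hlhs] at habel
      have hcongr : ∫ t in Set.Ioc x y, deriv (fun t => (Real.log t)⁻¹) t * ∑ k ∈ Icc 0 ⌊t⌋₊, c k =
          ∫ t in Set.Ioc x y, -(t * Real.log t ^ 2)⁻¹ * A t := by
        apply MeasureTheory.setIntegral_congr_fun measurableSet_Ioc
        intro t ht
        simp only [hA]
        rw [(hderiv t ⟨ht.1.le, ht.2⟩).deriv]
      rw [hcongr] at habel
      -- integrability
      have hiA : MeasureTheory.IntegrableOn (fun t => -(t * Real.log t ^ 2)⁻¹ * A t) (Set.Ioc x y) :=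
        (integrableOn_mul_sum_Icc c (m := 0) hx0.le hint).mono_set Set.Ioc_subset_Icc_self
      have hcontL : ContinuousOn (fun t : ℝ => -(t * Real.log t)⁻¹) (Set.Icc x y) := by
        intro t ht
        have ht0 : 0 < t := by (clear * - hx ht; linarith [ht.1])
        have hlt : Real.log t ≠ 0 := (Real.log_pos (by (clear * - hx ht; linarith [ht.1]))).ne'
        apply ContinuousAt.continuousWithinAt
        have : t * Real.log t ≠ 0 := by (clear * - ht0 hlt; positivity)
        fun_prop (disch := first | exact this | exact ht0.ne')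
      have hiL : MeasureTheory.IntegrableOn (fun t => -(t * Real.log t ^ 2)⁻¹ * Real.log t) (Set.Ioc x y) := by
        have h1 : MeasureTheory.IntegrableOn (fun t : ℝ => -(t * Real.log t)⁻¹) (Set.Ioc x y) :=
          hcontL.integrableOn_Icc.mono_set Set.Ioc_subset_Icc_self
        apply h1.congr_fun _ measurableSet_Ioc
        intro t ht
        have ht0 : 0 < t := by (clear * - hx ht; linarith [ht.1])
        have hlt : Real.log t ≠ 0 := (Real.log_pos (by (clear * - hx ht; linarith [ht.1]))).ne'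
        simp only
        field_simp
      have hI1 : ∫ t in Set.Ioc x y, -(t * Real.log t ^ 2)⁻¹ * Real.log t =
          -(Real.log (Real.log y / Real.log x)) := by
        rw [← intervalIntegral.integral_of_le hxy]
        have : ∀ t ∈ Set.uIcc x y, HasDerivAt (fun t => -Real.log (Real.log t))
            (-(t * Real.log t ^ 2)⁻¹ * Real.log t) t := by
          intro t ht
          rw [Set.uIcc_of_le hxy] at ht
          have ht0 : 0 < t := by (clear * - hx ht; linarith [ht.1])
          have hlt : Real.log t ≠ 0 := (Real.log_pos (by (clear * - hx ht; linarith [ht.1]))).ne'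
          refine HasDerivAt.congr_deriv (((Real.hasDerivAt_log ht0.ne').log hlt).neg) ?_
          rw [mul_inv, neg_mul, mul_assoc, sq, mul_inv, mul_assoc, inv_mul_cancel₀ hlt, mul_one,
            div_eq_mul_inv]
        rw [intervalIntegral.integral_eq_sub_of_hasDerivAt this]
        · rw [Real.log_div hly.ne' hlx.ne']; ring
        · rw [intervalIntegrable_iff_integrableOn_Ioc_of_le hxy]
          exact hiL
      exact by
        have hI2 : ∫ t in Set.Ioc x y, (t * Real.log t ^ 2)⁻¹ = (Real.log x)⁻¹ - (Real.log y)⁻¹ := by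
          rw [← intervalIntegral.integral_of_le hxy]
          have : ∀ t ∈ Set.uIcc x y, HasDerivAt (fun t => -(Real.log t)⁻¹)
              ((t * Real.log t ^ 2)⁻¹) t := by
            intro t ht
            rw [Set.uIcc_of_le hxy] at ht
            have := (hderiv t ht).neg
            rw [neg_neg] at this
            exact this
          rw [intervalIntegral.integral_eq_sub_of_hasDerivAt this]
          · ring
          · rw [intervalIntegrable_iff_integrableOn_Ioc_of_le hxy]
            have := hint.neg.mono_set (Set.Ioc_subset_Icc_self (a := x) (b := y))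
            apply this.congr_fun _ measurableSet_Ioc
            intro t _
            simp
        have hdiffI : |∫ t in Set.Ioc x y, -(t * Real.log t ^ 2)⁻¹ * (A t - Real.log t)| ≤
            C1 * ((Real.log x)⁻¹ - (Real.log y)⁻¹) := by
          rw [← hI2, ← MeasureTheory.integral_const_mul]
          rw [← Real.norm_eq_abs]
          apply MeasureTheory.norm_integral_le_of_norm_le
          · have := hint.neg.mono_set (Set.Ioc_subset_Icc_self (a := x) (b := y))
            have h2 : MeasureTheory.IntegrableOn (fun t => (t * Real.log t ^ 2)⁻¹) (Set.Ioc x y) := by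
              apply this.congr_fun _ measurableSet_Ioc
              intro t _
              simp
            exact h2.const_mul C1
          · rw [MeasureTheory.ae_restrict_iff' measurableSet_Ioc]
            exact by
              apply Filter.Eventually.of_forall
              intro t ht
              have ht0 : 0 < t := by (clear * - hx ht; linarith [ht.1])
              have hlt : 0 < Real.log t := (Real.log_pos (by (clear * - hx ht; linarith [ht.1])))
              rw [norm_mul, norm_neg, Real.norm_eq_abs, Real.norm_eq_abs,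
                abs_of_pos (by (clear * - ht0 hlt; positivity) : 0 < (t * Real.log t ^ 2)⁻¹), mul_comm]
              exact mul_le_mul_of_nonneg_right (hAbound t (by (clear * - hx ht; linarith [ht.1]))) (by (clear * - ht0 hlt; positivity))
        have hsplitI : ∫ t in Set.Ioc x y, -(t * Real.log t ^ 2)⁻¹ * (A t - Real.log t) =
            (∫ t in Set.Ioc x y, -(t * Real.log t ^ 2)⁻¹ * A t) +
              Real.log (Real.log y / Real.log x) := by
          have : ∀ t, -(t * Real.log t ^ 2)⁻¹ * (A t - Real.log t) =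
            -(t * Real.log t ^ 2)⁻¹ * A t - -(t * Real.log t ^ 2)⁻¹ * Real.log t := by
            intro t; ring
          simp_rw [this]
          rw [MeasureTheory.integral_sub hiA hiL, hI1]
          ring
        rw [hsplitI] at hdiffI
        have hbx := hAbound x hx
        have hby := hAbound y (by (clear * - hx hxy; linarith))
        have hly' : (Real.log y)⁻¹ ≤ (Real.log x)⁻¹ :=
          inv_anti₀ hlx (Real.log_le_log hx0 hxy)
        have e1 : |(Real.log y)⁻¹ * A y - 1| ≤ C1 * (Real.log y)⁻¹ := by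
          have : (Real.log y)⁻¹ * A y - 1 = (A y - Real.log y) * (Real.log y)⁻¹ := by
            (clear * - hly; field_simp)
          rw [this, abs_mul, abs_of_pos (inv_pos.mpr hly)]
          exact mul_le_mul_of_nonneg_right hby (inv_pos.mpr hly).le
        exact by
          have e2 : |(Real.log x)⁻¹ * A x - 1| ≤ C1 * (Real.log x)⁻¹ := by
            have : (Real.log x)⁻¹ * A x - 1 = (A x - Real.log x) * (Real.log x)⁻¹ := by
              (clear * - hlx; field_simp)
            rw [this, abs_mul, abs_of_pos (inv_pos.mpr hlx)]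
            exact mul_le_mul_of_nonneg_right hbx (inv_pos.mpr hlx).le
          have habel' : ∑ q ∈ (Finset.Ioc ⌊x⌋₊ ⌊y⌋₊).filter Nat.Prime, (1:ℝ)/q =
            (Real.log y)⁻¹ * A y - (Real.log x)⁻¹ * A x -
              ∫ t in Set.Ioc x y, -(t * Real.log t ^ 2)⁻¹ * A t := habel
          rw [habel']
          have hC1pos : 0 < C1 := by positivity
          have h9 : C1 * (Real.log y)⁻¹ ≤ C1 * (Real.log x)⁻¹ := mul_le_mul_of_nonneg_left hly' hC1pos.le
          have h10 : 3 * C1 / Real.log x = 3 * (C1 * (Real.log x)⁻¹) := by ring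
          rw [h10]
          rw [abs_le] at e1 e2 hdiffI ⊢
          have h11 : 0 < (Real.log y)⁻¹ := inv_pos.mpr hly
          have h12 : 0 < C1 * (Real.log y)⁻¹ := by positivity
          constructor <;> (clear * - hdiffI e1 e2 h12; nlinarith [e1.1, e1.2, e2.1, e2.2, hdiffI.1, hdiffI.2])

end Pool.Agent.Helper44

end

section

set_option autoImplicit false

open Finset Real

namespace Pool.Agent.Helper44

theorem one_sub_ge_exp' {x : ℝ} (h0 : 0 ≤ x) (h1 : x ≤ 1 / 2) :
    Real.exp (-(x + 2 * x ^ 2)) ≤ 1 - x := by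
  have h2 : (x + 2 * x ^ 2) + 1 ≤ Real.exp (x + 2 * x ^ 2) := Real.add_one_le_exp _
  have h3 : 0 < Real.exp (x + 2 * x ^ 2) := Real.exp_pos _
  rw [Real.exp_neg, inv_le_comm₀ h3 (by linarith)]
  refine le_trans ?_ h2
  rw [inv_le_iff_one_le_mul₀ (by linarith)]
  nlinarith [sq_nonneg x, mul_nonneg h0 h0, mul_nonneg (mul_nonneg h0 h0) (by linarith : 0 ≤ 1 - 2 * x)]

theorem sum_inv_sq_le : ∃ C : ℝ, 0 ≤ C ∧ ∀ s : Finset ℕ, ∑ n ∈ s, ((1 : ℝ) / n) ^ 2 ≤ C := by
  have h : Summable (fun n : ℕ => ((1 : ℝ) / n) ^ 2) := by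
    have := Real.summable_one_div_nat_pow.mpr (by norm_num : 1 < 2)
    refine this.congr ?_
    intro n
    rw [div_pow, one_pow]
  exact ⟨∑' n : ℕ, ((1 : ℝ) / n) ^ 2, tsum_nonneg fun n => by positivity,
    fun s => h.sum_le_tsum s (fun n _ => by positivity)⟩

/-- Primes up to `w`. -/
noncomputable def primesUpTo (w : ℝ) : Finset ℕ := (Finset.Ioc 0 ⌊w⌋₊).filter Nat.Prime

theorem mem_primesUpTo {w : ℝ} (hw : 0 ≤ w) {q : ℕ} : q ∈ primesUpTo w ↔ q.Prime ∧ (q : ℝ) ≤ w := by
  unfold primesUpTo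
  rw [Finset.mem_filter, Finset.mem_Ioc]
  constructor
  · rintro ⟨⟨_, h⟩, hq⟩
    exact ⟨hq, (Nat.le_floor_iff hw).mp h⟩
  · rintro ⟨hq, h⟩
    exact ⟨⟨hq.pos, (Nat.le_floor_iff hw).mpr h⟩, hq⟩

theorem sum_primesUpTo_bounds : ∃ C : ℝ, 0 < C ∧ ∀ w : ℝ, 2 ≤ w →
    |∑ q ∈ primesUpTo w, (1 : ℝ) / q - Real.log (Real.log w)| ≤ C := by
  obtain ⟨C, hC, hM⟩ := mertens_interval
  refine ⟨C / Real.log 2 + 2, by positivity, ?_⟩
  intro w hw
  have h1 := hM 2 w le_rfl hw
  have hl2 : 0 < Real.log 2 := Real.log_pos (by norm_num)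
  have hlw : 0 < Real.log w := Real.log_pos (by linarith)
  have hfl : (2 : ℕ) ≤ ⌊w⌋₊ := by
    rw [Nat.le_floor_iff (by linarith)]; exact_mod_cast hw
  have hsplit : ∑ q ∈ primesUpTo w, (1 : ℝ) / q =
      1 / 2 + ∑ q ∈ (Finset.Ioc ⌊(2:ℝ)⌋₊ ⌊w⌋₊).filter Nat.Prime, (1:ℝ)/q := by
    have : ⌊(2:ℝ)⌋₊ = 2 := by norm_num
    rw [this]
    have hu : primesUpTo w = insert 2 ((Finset.Ioc 2 ⌊w⌋₊).filter Nat.Prime) := by
      ext q
      unfold primesUpTo
      simp only [Finset.mem_filter, Finset.mem_Ioc, Finset.mem_insert]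
      constructor
      · rintro ⟨⟨h0, h⟩, hq⟩
        rcases eq_or_ne q 2 with h2 | h2
        · left; exact h2
        · right; exact ⟨⟨by have := hq.two_le; omega, h⟩, hq⟩
      · rintro (rfl | ⟨⟨h0, h⟩, hq⟩)
        · exact ⟨⟨by norm_num, hfl⟩, Nat.prime_two⟩
        · exact ⟨⟨by omega, h⟩, hq⟩
    rw [hu, Finset.sum_insert]
    · norm_num
    · simp
  rw [hsplit]
  rw [Real.log_div hlw.ne' hl2.ne'] at h1
  have hll : |Real.log (Real.log 2)| ≤ 1 := by
    rw [abs_le]
    constructor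
    · -- log log 2 ≥ -1 : log 2 ≥ exp (-1)
      have h3 : Real.exp (-1) ≤ Real.log 2 := by
        have h4 := Real.exp_neg_one_lt_d9
        have h5 := Real.log_two_gt_d9
        linarith
      calc (-1 : ℝ) = Real.log (Real.exp (-1)) := by rw [Real.log_exp]
        _ ≤ _ := Real.log_le_log (Real.exp_pos _) h3
    · have := Real.log_le_sub_one_of_pos hl2
      have h5 := Real.log_two_lt_d9
      linarith
  rw [abs_le] at h1 hll ⊢
  constructor <;> linarith [h1.1, h1.2, hll.1, hll.2]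

end Pool.Agent.Helper44

end

section

set_option autoImplicit false

open Finset Real

namespace Pool.Agent.Helper44

/-- Sieving scales `w^(1/2^j)`. -/
noncomputable def zs (w : ℝ) (j : ℕ) : ℝ := w ^ ((1 / 2 : ℝ) ^ j)

theorem zs_zero (w : ℝ) : zs w 0 = w := by simp [zs]

theorem one_le_zs {w : ℝ} (hw : 1 ≤ w) (j : ℕ) : 1 ≤ zs w j :=
  Real.one_le_rpow hw (by positivity)

theorem zs_pos {w : ℝ} (hw : 1 ≤ w) (j : ℕ) : 0 < zs w j :=
  lt_of_lt_of_le one_pos (one_le_zs hw j)

theorem zs_succ_sq {w : ℝ} (hw : 1 ≤ w) (j : ℕ) : zs w (j + 1) ^ 2 = zs w j := by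
  unfold zs
  rw [← Real.rpow_natCast, ← Real.rpow_mul (by (clear * - hw; linarith))]
  congr 1
  rw [pow_succ]
  push_cast
  ring

theorem zs_succ_le {w : ℝ} (hw : 1 ≤ w) (j : ℕ) : zs w (j + 1) ≤ zs w j := by
  have h1 := one_le_zs hw (j + 1)
  rw [← zs_succ_sq hw j]
  (clear * - h1; nlinarith)

theorem zs_anti {w : ℝ} (hw : 1 ≤ w) {i j : ℕ} (hij : i ≤ j) : zs w j ≤ zs w i := by
  induction j, hij using Nat.le_induction with
  | base => exact le_rfl
  | succ n _ ih => exact (zs_succ_le hw n).trans ih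

theorem log_zs {w : ℝ} (hw : 0 < w) (j : ℕ) : Real.log (zs w j) = (1 / 2 : ℝ) ^ j * Real.log w := by
  unfold zs
  rw [Real.log_rpow hw]

/-- Number of blocks. -/
noncomputable def nb (w : ℝ) : ℕ := ⌊w⌋₊ + 1

theorem zs_nb_lt {w : ℝ} (hw : 2 ≤ w) : zs w (nb w) < 2 := by
  have hw0 : 0 < w := by (clear * - hw; linarith)
  rw [← Real.log_lt_log_iff (zs_pos (by linarith) _) (by norm_num), log_zs hw0]
  have h1 : ((nb w : ℕ) : ℝ) + 1 ≤ 2 ^ (nb w) := by
    have := Nat.lt_two_pow_self (n := nb w)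
    exact_mod_cast this
  have h2 : w < nb w := by
    unfold nb
    push_cast
    exact Nat.lt_floor_add_one w
  have h3 : Real.log w ≤ w - 1 := Real.log_le_sub_one_of_pos hw0
  have h4 : Real.log 2 > 0.5 := by
    have := Real.log_two_gt_d9; (clear * - this; linarith)
  have h5 : (0 : ℝ) < 2 ^ (nb w) := by positivity
  rw [one_div, inv_pow, inv_mul_lt_iff₀ h5]
  have h6 : (1 : ℝ) ≤ 2 ^ (nb w - 1) := one_le_pow₀ (by norm_num)
  -- 2^(nb w) * log 2 > log w
  have h7 : Real.log w ≤ Real.log (nb w) := Real.log_le_log hw0 h2.le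
  have h8 : Real.log (nb w : ℝ) < (nb w : ℝ) * Real.log 2 := by
    have h9 : ((nb w : ℕ) : ℝ) < 2 ^ (nb w) := by (clear * - h1; linarith)
    have h10 : (0 : ℝ) < (nb w : ℕ) := by (clear * - hw h2; linarith)
    calc Real.log (nb w : ℝ) < Real.log (2 ^ (nb w)) := Real.log_lt_log h10 h9
      _ = (nb w : ℝ) * Real.log 2 := by rw [Real.log_pow]
  have h11 : (nb w : ℝ) * Real.log 2 ≤ 2 ^ (nb w) * Real.log 2 := by
    apply mul_le_mul_of_nonneg_right _ (by (clear * - h4; linarith))
    (clear * - h1; linarith)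
  (clear * - h7 h8 h11; linarith)

/-- Block `j` of primes (two copies). -/
noncomputable def blk (w : ℝ) (j : ℕ) : Finset (ℕ × Bool) :=
  ((Finset.Ioc ⌊zs w (j + 1)⌋₊ ⌊zs w j⌋₊).filter Nat.Prime) ×ˢ (Finset.univ : Finset Bool)

theorem mem_blk {w : ℝ} {j : ℕ} {i : ℕ × Bool} :
    i ∈ blk w j ↔ (⌊zs w (j + 1)⌋₊ < i.1 ∧ i.1 ≤ ⌊zs w j⌋₊) ∧ i.1.Prime := by
  unfold blk
  simp [Finset.mem_product]

/-- The density of an event. -/
noncomputable def dens (i : ℕ × Bool) : ℝ := 1 / (i.1 : ℝ)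

theorem sum_dens_blk (w : ℝ) (j : ℕ) : ∑ i ∈ blk w j, dens i =
    2 * ∑ q ∈ (Finset.Ioc ⌊zs w (j + 1)⌋₊ ⌊zs w j⌋₊).filter Nat.Prime, (1 : ℝ) / q := by
  unfold blk dens
  rw [Finset.sum_product]
  simp only [Finset.sum_const, Finset.card_univ, Fintype.card_bool, nsmul_eq_mul]
  rw [Finset.mul_sum]
  rfl

theorem sum_dens_blk_le : ∃ S0 : ℝ, 0 < S0 ∧ ∀ w : ℝ, 2 ≤ w → ∀ j : ℕ,
    ∑ i ∈ blk w j, dens i ≤ S0 := by
  obtain ⟨C, hC, hM⟩ := mertens_interval
  have hl2 : 0 < Real.log 2 := Real.log_pos (by norm_num)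
  refine ⟨2 * (Real.log 2 + C / Real.log 2) + 8, by (clear * - hC; positivity), ?_⟩
  intro w hw j
  rw [sum_dens_blk]
  have hw1 : (1 : ℝ) ≤ w := by linarith
  rcases lt_or_ge (zs w (j + 1)) 2 with h | h
  · -- small scale
    have h4 : zs w j < 4 := by
      rw [← zs_succ_sq hw1 j]
      have := one_le_zs hw1 (j + 1)
      (clear * - h this; nlinarith)
    have hfl : ⌊zs w j⌋₊ ≤ 3 := by
      have : ⌊zs w j⌋₊ < 4 := by
        rw [Nat.floor_lt (zs_pos hw1 j).le]
        exact_mod_cast h4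
      omega
    have : ∑ q ∈ (Finset.Ioc ⌊zs w (j + 1)⌋₊ ⌊zs w j⌋₊).filter Nat.Prime, (1 : ℝ) / q ≤ 4 := by
      calc ∑ q ∈ (Finset.Ioc ⌊zs w (j + 1)⌋₊ ⌊zs w j⌋₊).filter Nat.Prime, (1 : ℝ) / q
          ≤ ∑ q ∈ (Finset.Ioc ⌊zs w (j + 1)⌋₊ ⌊zs w j⌋₊).filter Nat.Prime, 1 := by
            apply Finset.sum_le_sum
            intro q hq
            have : (1 : ℝ) ≤ q := by exact_mod_cast (Finset.mem_filter.mp hq).2.one_lt.le
            rw [div_le_one (by (clear * - this; linarith))]
            exact this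
        _ = ((Finset.Ioc ⌊zs w (j + 1)⌋₊ ⌊zs w j⌋₊).filter Nat.Prime).card := by simp
        _ ≤ (4 : ℕ) := by
            have h1 : ((Finset.Ioc ⌊zs w (j + 1)⌋₊ ⌊zs w j⌋₊).filter Nat.Prime).card ≤
              (Finset.Ioc ⌊zs w (j + 1)⌋₊ ⌊zs w j⌋₊).card := Finset.card_filter_le _ _
            rw [Nat.card_Ioc] at h1
            exact_mod_cast (by omega)
        _ = 4 := by norm_num
    have : 0 < C / Real.log 2 := by positivity
    linarith
  · have h1 := hM (zs w (j + 1)) (zs w j) h (zs_succ_le hw1 j)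
    have hlz : 0 < Real.log (zs w (j + 1)) := Real.log_pos (by (clear * - h; linarith))
    have h2 : Real.log (zs w j) / Real.log (zs w (j + 1)) = 2 := by
      rw [← zs_succ_sq hw1 j, Real.log_pow]
      push_cast
      (clear * - hlz; field_simp)
    rw [h2] at h1
    have h3 : C / Real.log (zs w (j + 1)) ≤ C / Real.log 2 := by
      apply div_le_div_of_nonneg_left hC.le hl2
      exact Real.log_le_log (by norm_num) h
    rw [abs_le] at h1
    linarith [h1.2]

theorem sum_geo_le (t : ℕ) : ∑ j ∈ range t, (1 / 2 : ℝ) ^ j ≤ 2 := by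
  have h : ∀ t : ℕ, ∑ j ∈ range t, (1 / 2 : ℝ) ^ j = 2 - 2 * (1 / 2 : ℝ) ^ t := by
    intro t
    induction t with
    | zero => simp
    | succ n ih => rw [Finset.sum_range_succ, ih]; ring
  rw [h]
  have : (0 : ℝ) ≤ (1 / 2 : ℝ) ^ t := by positivity
  (clear * - this; linarith)

theorem sum_geo_mul_le (t : ℕ) : ∑ j ∈ range t, (j : ℝ) * (1 / 2 : ℝ) ^ j ≤ 2 := by
  have h : ∀ t : ℕ, ∑ j ∈ range t, (j : ℝ) * (1 / 2 : ℝ) ^ j = 2 - (2 * t + 2) * (1 / 2 : ℝ) ^ t := by
    intro t
    induction t with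
    | zero => simp
    | succ n ih => rw [Finset.sum_range_succ, ih]; push_cast; ring
  rw [h]
  have : (0 : ℝ) ≤ (2 * t + 2) * (1 / 2 : ℝ) ^ t := by (clear * -; positivity)
  linarith

theorem biUnion_blk {w : ℝ} (hw : 2 ≤ w) :
    (Finset.univ : Finset (Fin (nb w))).biUnion (fun j => blk w j) =
      primesUpTo w ×ˢ (Finset.univ : Finset Bool) := by
  have hw1 : (1 : ℝ) ≤ w := by linarith
  ext i
  simp only [Finset.mem_biUnion, Finset.mem_univ, true_and, mem_blk, Finset.mem_product, and_true]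
  rw [mem_primesUpTo (by (clear * - hw; linarith))]
  constructor
  · rintro ⟨j, ⟨_, h2⟩, h3⟩
    refine ⟨h3, ?_⟩
    have h4 : (i.1 : ℝ) ≤ zs w j := (Nat.le_floor_iff (zs_pos hw1 j).le).mp h2
    have h5 : zs w j ≤ w := by
      have := zs_anti hw1 (Nat.zero_le (j : ℕ))
      rwa [zs_zero] at this
    (clear * - h4 h5; linarith)
  · rintro ⟨hq, hle⟩
    -- find the last scale at least `i.1`
    have hex : ∃ j : ℕ, j < nb w ∧ (i.1 ≤ ⌊zs w j⌋₊ ∧ ¬ i.1 ≤ ⌊zs w (j + 1)⌋₊) := by
      by_contra hcon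
      push Not at hcon
      have hall : ∀ j : ℕ, j ≤ nb w → i.1 ≤ ⌊zs w j⌋₊ := by
        intro j
        induction j with
        | zero =>
          intro _
          rw [zs_zero, Nat.le_floor_iff (by (clear * - hw; linarith))]
          exact hle
        | succ n ih =>
          intro hn
          exact hcon n (by omega) (ih (by omega))
      have h6 := hall (nb w) le_rfl
      have h7 : (i.1 : ℝ) ≤ zs w (nb w) := (Nat.le_floor_iff (zs_pos hw1 _).le).mp h6
      have h8 := zs_nb_lt hw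
      have h9 : (2 : ℝ) ≤ i.1 := by exact_mod_cast hq.two_le
      (clear * - h7 h8 h9; linarith)
    obtain ⟨j, hj, h1, h2⟩ := hex
    exact ⟨⟨j, hj⟩, ⟨by simpa using h2, h1⟩, hq⟩

end Pool.Agent.Helper44

end

section

set_option autoImplicit false

open Finset Real

namespace Pool.Agent.Helper96.CPAP

open Pool.Agent.Helper44

/-- Block `j` of sieving primes. -/
noncomputable def pb (P : ℕ → Prop) (w : ℝ) (j : ℕ) : Finset ℕ := by
  classical exact (Finset.Ioc ⌊zs w (j + 1)⌋₊ ⌊zs w j⌋₊).filter P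

/-- All sieving primes up to `w`. -/
noncomputable def pU (P : ℕ → Prop) (w : ℝ) : Finset ℕ := by
  classical exact (primesUpTo w).filter P

theorem mem_pb {P : ℕ → Prop} {w : ℝ} {j i : ℕ} :
    i ∈ pb P w j ↔ (⌊zs w (j + 1)⌋₊ < i ∧ i ≤ ⌊zs w j⌋₊) ∧ P i := by
  classical
  unfold pb
  rw [Finset.mem_filter, Finset.mem_Ioc]

theorem mem_pU {P : ℕ → Prop} (hP : ∀ q, P q → q.Prime) {w : ℝ} (hw : 0 ≤ w) {q : ℕ} :
    q ∈ pU P w ↔ P q ∧ (q : ℝ) ≤ w := by
  classical
  unfold pU
  rw [Finset.mem_filter, mem_primesUpTo hw]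
  constructor
  · rintro ⟨⟨_, h⟩, h'⟩; exact ⟨h', h⟩
  · rintro ⟨h', h⟩; exact ⟨⟨hP q h', h⟩, h'⟩

theorem pb_disjoint {P : ℕ → Prop} {w : ℝ} (hw : 1 ≤ w) {i j : ℕ} (hij : i ≠ j) :
    Disjoint (pb P w i) (pb P w j) := by
  rw [Finset.disjoint_left]
  intro a hi hj
  rw [mem_pb] at hi hj
  rcases lt_or_gt_of_ne hij with h | h
  · have : ⌊zs w j⌋₊ ≤ ⌊zs w (i + 1)⌋₊ := Nat.floor_le_floor (zs_anti hw h)
    omega
  · have : ⌊zs w i⌋₊ ≤ ⌊zs w (j + 1)⌋₊ := Nat.floor_le_floor (zs_anti hw h)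
    omega

theorem biUnion_pb {P : ℕ → Prop} (hP : ∀ q, P q → q.Prime) {w : ℝ} (hw : 2 ≤ w) :
    (Finset.univ : Finset (Fin (nb w))).biUnion (fun j => pb P w j) = pU P w := by
  have hw1 : (1 : ℝ) ≤ w := by (clear * - hw; linarith)
  have hw0 : (0 : ℝ) ≤ w := by (clear * - hw; linarith)
  ext q
  rw [mem_pU hP hw0, Finset.mem_biUnion]
  constructor
  · rintro ⟨j, _, hj⟩
    rw [mem_pb] at hj
    refine ⟨hj.2, ?_⟩
    have h4 : (q : ℝ) ≤ zs w j := (Nat.le_floor_iff (zs_pos hw1 j).le).mp hj.1.2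
    have h5 : zs w j ≤ w := by
      have := zs_anti hw1 (Nat.zero_le (j : ℕ))
      rwa [zs_zero] at this
    (clear * - h4 h5; linarith)
  · rintro ⟨hPq, hle⟩
    have h1 : ((q, true) : ℕ × Bool) ∈
        (Finset.univ : Finset (Fin (nb w))).biUnion (fun j => blk w j) := by
      rw [biUnion_blk hw, Finset.mem_product, mem_primesUpTo hw0]
      exact ⟨⟨hP q hPq, hle⟩, Finset.mem_univ _⟩
    rw [Finset.mem_biUnion] at h1
    obtain ⟨j, _, hj⟩ := h1
    rw [mem_blk] at hj
    exact ⟨j, Finset.mem_univ _, mem_pb.mpr ⟨hj.1, hPq⟩⟩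

theorem sum_inv_pb_le : ∃ S0 : ℝ, 0 < S0 ∧ ∀ (P : ℕ → Prop), (∀ q, P q → q.Prime) →
    ∀ w : ℝ, 2 ≤ w → ∀ j : ℕ, ∑ q ∈ pb P w j, (1 : ℝ) / q ≤ S0 := by
  obtain ⟨S0, hS0, hS⟩ := sum_dens_blk_le
  refine ⟨S0, hS0, ?_⟩
  intro P hP w hw j
  have h1 := hS w hw j
  rw [sum_dens_blk] at h1
  have h2 : ∑ q ∈ pb P w j, (1 : ℝ) / q ≤
      ∑ q ∈ (Finset.Ioc ⌊zs w (j + 1)⌋₊ ⌊zs w j⌋₊).filter Nat.Prime, (1 : ℝ) / q := by
    apply Finset.sum_le_sum_of_subset_of_nonneg
    · intro q hq
      rw [mem_pb] at hq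
      rw [Finset.mem_filter, Finset.mem_Ioc]
      exact ⟨hq.1, hP q hq.2⟩
    · intro q _ _; (clear * -; positivity)
  have h3 : 0 ≤ ∑ q ∈ (Finset.Ioc ⌊zs w (j + 1)⌋₊ ⌊zs w j⌋₊).filter Nat.Prime, (1 : ℝ) / q :=
    Finset.sum_nonneg fun q _ => by (clear * -; positivity)
  (clear * - hS0 h1 h2; linarith)

theorem card_pb_le {P : ℕ → Prop} (hP : ∀ q, P q → q.Prime) (k : ℕ) {w : ℝ} (hw : 2 ≤ w) (j : ℕ) :
    ((k : ℝ) + 1) * ((pb P w j).card : ℝ) + 1 ≤ (zs w j) ^ (k + 2) := by
  classical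
  have hw1 : (1 : ℝ) ≤ w := by linarith
  have h1 := one_le_zs hw1 j
  rcases Finset.eq_empty_or_nonempty (pb P w j) with h | ⟨i, hi⟩
  · rw [h]
    simp only [Finset.card_empty, Nat.cast_zero, mul_zero, zero_add]
    exact one_le_pow₀ h1
  · rw [mem_pb] at hi
    have h2 : (2 : ℝ) ≤ zs w j := by
      have h3 : (i : ℝ) ≤ zs w j := (Nat.le_floor_iff (zs_pos hw1 j).le).mp hi.1.2
      have h4 : (2 : ℝ) ≤ i := by exact_mod_cast (hP i hi.2).two_le
      (clear * - h3 h4; linarith)
    have h6 : (pb P w j).card ≤ ⌊zs w j⌋₊ := by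
      unfold pb
      refine (Finset.card_filter_le _ _).trans ?_
      rw [Nat.card_Ioc]; omega
    have h7 : (⌊zs w j⌋₊ : ℝ) ≤ zs w j := Nat.floor_le (zs_pos hw1 j).le
    have h8 : ((pb P w j).card : ℝ) ≤ zs w j := le_trans (by exact_mod_cast h6) h7
    exact by
      have h9 : (k : ℝ) + 2 ≤ 2 ^ (k + 1) := by
        have := Nat.lt_two_pow_self (n := k + 1)
        have h10 : k + 2 ≤ 2 ^ (k + 1) := by omega
        exact_mod_cast h10
      have h10 : (2 : ℝ) ^ (k + 1) ≤ (zs w j) ^ (k + 1) := pow_le_pow_left₀ (by norm_num) h2 _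
      have hk : (0 : ℝ) ≤ k := by (clear * -; positivity)
      calc ((k : ℝ) + 1) * ((pb P w j).card : ℝ) + 1 ≤ ((k : ℝ) + 1) * zs w j + 1 := by (clear * - h8; gcongr)
        _ ≤ ((k : ℝ) + 2) * zs w j := by (clear * - h2; nlinarith)
        _ ≤ (zs w j) ^ (k + 1) * zs w j := by
            apply mul_le_mul_of_nonneg_right (h9.trans h10) (by (clear * - h2; linarith))
        _ = (zs w j) ^ (k + 2) := by ring

theorem prod_pb_card_le {P : ℕ → Prop} (hP : ∀ q, P q → q.Prime) (k : ℕ) {w : ℝ} (hw : 2 ≤ w)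
    (b : ℕ) :
    ∏ j : Fin (nb w), (((k : ℝ) + 1) * ((pb P w j).card : ℝ) + 1) ^ (2 * (b + (j : ℕ)) + 1) ≤
      w ^ (((k : ℝ) + 2) * (4 * b + 6) : ℝ) := by
  have hw1 : (1 : ℝ) ≤ w := by linarith
  have hw0 : (0 : ℝ) < w := by (clear * - hw; linarith)
  calc ∏ j : Fin (nb w), (((k : ℝ) + 1) * ((pb P w j).card : ℝ) + 1) ^ (2 * (b + (j : ℕ)) + 1)
      ≤ ∏ j : Fin (nb w), w ^ ((1 / 2 : ℝ) ^ (j : ℕ) * (((k : ℝ) + 2) * (2 * (b + (j : ℕ)) + 1))) := by
        apply Finset.prod_le_prod
        · intro j _; (clear * -; positivity)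
        · intro j _
          calc (((k : ℝ) + 1) * ((pb P w j).card : ℝ) + 1) ^ (2 * (b + (j : ℕ)) + 1)
              ≤ ((zs w j) ^ (k + 2)) ^ (2 * (b + (j : ℕ)) + 1) :=
                pow_le_pow_left₀ (by positivity) (card_pb_le hP k hw j) _
            _ = w ^ ((1 / 2 : ℝ) ^ (j : ℕ) * (((k : ℝ) + 2) * (2 * (b + (j : ℕ)) + 1))) := by
                unfold zs
                rw [← pow_mul, ← Real.rpow_natCast, ← Real.rpow_mul hw0.le]
                congr 1
                push_cast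
                ring
    _ = w ^ (∑ j : Fin (nb w), (1 / 2 : ℝ) ^ (j : ℕ) *
          (((k : ℝ) + 2) * (2 * (b + (j : ℕ)) + 1))) := by
        rw [Real.rpow_sum_of_pos hw0]
    _ ≤ w ^ (((k : ℝ) + 2) * (4 * b + 6) : ℝ) := by
        apply Real.rpow_le_rpow_of_exponent_le hw1
        rw [Fin.sum_univ_eq_sum_range
          (fun j => (1 / 2 : ℝ) ^ (j : ℕ) * (((k : ℝ) + 2) * (2 * (b + (j : ℝ)) + 1))) (nb w)]
        have e : ∀ j ∈ range (nb w), (1 / 2 : ℝ) ^ (j : ℕ) *
            (((k : ℝ) + 2) * (2 * (b + (j : ℝ)) + 1)) =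
            (((k : ℝ) + 2) * (2 * b + 1)) * (1 / 2 : ℝ) ^ j +
              (2 * ((k : ℝ) + 2)) * ((j : ℝ) * (1 / 2 : ℝ) ^ j) := by
          intro j _; ring
        rw [Finset.sum_congr rfl e, Finset.sum_add_distrib, ← Finset.mul_sum, ← Finset.mul_sum]
        have h1 := sum_geo_le (nb w)
        have h2 := sum_geo_mul_le (nb w)
        have h3 : (0 : ℝ) ≤ ((k : ℝ) + 2) * (2 * b + 1) := by (clear * -; positivity)
        have h4 : (0 : ℝ) ≤ 2 * ((k : ℝ) + 2) := by positivity
        have h5 := mul_le_mul_of_nonneg_left h1 h3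
        have h6 := mul_le_mul_of_nonneg_left h2 h4
        calc _ ≤ ((k : ℝ) + 2) * (2 * b + 1) * 2 + 2 * ((k : ℝ) + 2) * 2 := add_le_add h5 h6
          _ = _ := by ring

/-- Lower bound for the sieve product in dimension `k`. -/
theorem prod_lower_bound (k : ℕ) : ∃ c : ℝ, 0 < c ∧ ∀ (P : ℕ → Prop),
    (∀ q, P q → q.Prime ∧ 2 * k ≤ q) → ∀ ν : ℕ → ℝ, (∀ q, P q → 0 ≤ ν q ∧ ν q ≤ k) →
    ∀ w : ℝ, 2 ≤ w → c / (Real.log w) ^ k ≤ ∏ q ∈ pU P w, (1 - ν q / q) := by
  classical
  obtain ⟨C, hC, hM⟩ := sum_primesUpTo_bounds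
  obtain ⟨C2, hC2, hS⟩ := sum_inv_sq_le
  refine ⟨Real.exp (-(k * C + 2 * k ^ 2 * C2)), Real.exp_pos _, ?_⟩
  intro P hP ν hν w hw
  have hP' : ∀ q, P q → q.Prime := fun q h => (hP q h).1
  have hw0 : 0 ≤ w := by (clear * - hw; linarith)
  have hlw : 0 < Real.log w := Real.log_pos (by linarith)
  have hy : ∀ q ∈ pU P w, 0 ≤ ν q / q ∧ ν q / q ≤ k * (1 / (q : ℝ)) ∧ ν q / q ≤ 1 / 2 := by
    intro q hq
    rw [mem_pU hP' hw0] at hq
    have h1 := hP q hq.1
    have h2 := hν q hq.1
    have hq0 : (0 : ℝ) < q := by exact_mod_cast h1.1.pos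
    have h3 : (2 : ℝ) * k ≤ q := by exact_mod_cast h1.2
    refine ⟨div_nonneg h2.1 hq0.le, ?_, ?_⟩
    · rw [mul_one_div]
      exact div_le_div_of_nonneg_right h2.2 hq0.le
    · rw [div_le_iff₀ hq0]
      (clear * - h2 h3; linarith)
  have h1 : ∏ q ∈ pU P w, Real.exp (-(ν q / q + 2 * (ν q / q) ^ 2)) ≤
      ∏ q ∈ pU P w, (1 - ν q / q) := by
    apply Finset.prod_le_prod
    · intro q _; exact (Real.exp_pos _).le
    · intro q hq
      exact one_sub_ge_exp' (hy q hq).1 (hy q hq).2.2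
  refine le_trans ?_ h1
  rw [← Real.exp_sum, Finset.sum_neg_distrib, Finset.sum_add_distrib]
  have h2 : ∑ q ∈ pU P w, ν q / q ≤ k * (Real.log (Real.log w) + C) := by
    calc ∑ q ∈ pU P w, ν q / q ≤ ∑ q ∈ pU P w, k * (1 / (q : ℝ)) :=
          Finset.sum_le_sum fun q hq => (hy q hq).2.1
      _ = k * ∑ q ∈ pU P w, (1 / (q : ℝ)) := by rw [Finset.mul_sum]
      _ ≤ k * ∑ q ∈ primesUpTo w, (1 / (q : ℝ)) := by
          apply mul_le_mul_of_nonneg_left _ (by (clear * -; positivity))
          apply Finset.sum_le_sum_of_subset_of_nonneg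
          · unfold pU
            exact Finset.filter_subset _ _
          · intro q _ _; (clear * -; positivity)
      _ ≤ k * (Real.log (Real.log w) + C) := by
          apply mul_le_mul_of_nonneg_left _ (by (clear * -; positivity))
          have := (abs_le.mp (hM w hw)).2
          (clear * - this; linarith)
  have h3 : ∑ q ∈ pU P w, 2 * (ν q / q) ^ 2 ≤ 2 * k ^ 2 * C2 := by
    calc ∑ q ∈ pU P w, 2 * (ν q / q) ^ 2 ≤ ∑ q ∈ pU P w, 2 * (k : ℝ) ^ 2 * (1 / (q : ℝ)) ^ 2 := by
          apply Finset.sum_le_sum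
          intro q hq
          have h4 := pow_le_pow_left₀ (hy q hq).1 (hy q hq).2.1 2
          rw [mul_pow] at h4
          (clear * - h4; linarith)
      _ = 2 * (k : ℝ) ^ 2 * ∑ q ∈ pU P w, (1 / (q : ℝ)) ^ 2 := by rw [Finset.mul_sum]
      _ ≤ 2 * k ^ 2 * C2 := mul_le_mul_of_nonneg_left (hS _) (by (clear * -; positivity))
  have h4 : Real.exp (-(k * C + 2 * k ^ 2 * C2)) / (Real.log w) ^ k =
      Real.exp (-(k * (Real.log (Real.log w) + C) + 2 * k ^ 2 * C2)) := by
    have h5 : (Real.log w) ^ k = Real.exp (k * Real.log (Real.log w)) := by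
      rw [Real.exp_nat_mul, Real.exp_log hlw]
    rw [h5, ← Real.exp_sub]
    congr 1
    ring
  rw [h4]
  apply Real.exp_le_exp.mpr
  (clear * - h2 h3; linarith)

end Pool.Agent.Helper96.CPAP

end

section

set_option autoImplicit false

open Finset

namespace Pool.Agent.Helper96.CPAP

open Pool.Agent.Helper44

theorem card_crt {q D : ℕ} (hco : Nat.Coprime q D) (hq : 0 < q) (hD : 0 < D) (A B : ℕ → Prop)
    [DecidablePred A] [DecidablePred B]
    (hA : ∀ n, A (n % q) ↔ A n) (hB : ∀ n, B (n % D) ↔ B n) :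
    ((range (q * D)).filter (fun n => A n ∧ B n)).card =
      ((range q).filter A).card * ((range D).filter B).card := by
  rw [← Finset.card_product]
  refine Finset.card_nbij' (fun n => (n % q, n % D))
    (fun x => (Nat.chineseRemainder hco x.1 x.2 : ℕ)) ?_ ?_ ?_ ?_
  · intro n hn
    rw [Finset.mem_coe, Finset.mem_filter, Finset.mem_range] at hn
    rw [Finset.mem_coe, Finset.mem_product, Finset.mem_filter, Finset.mem_filter, Finset.mem_range,
      Finset.mem_range]
    exact ⟨⟨Nat.mod_lt _ hq, (hA n).mpr hn.2.1⟩, ⟨Nat.mod_lt _ hD, (hB n).mpr hn.2.2⟩⟩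
  · rintro ⟨x, y⟩ hx
    rw [Finset.mem_coe, Finset.mem_product, Finset.mem_filter, Finset.mem_filter, Finset.mem_range,
      Finset.mem_range] at hx
    rw [Finset.mem_coe, Finset.mem_filter, Finset.mem_range]
    have h1 := (Nat.chineseRemainder hco x y).2
    refine ⟨Nat.chineseRemainder_lt_mul hco x y hq.ne' hD.ne', ?_, ?_⟩
    · rw [← hA, h1.1, hA]; exact hx.1.2
    · rw [← hB, h1.2, hB]; exact hx.2.2
  · intro n hn
    rw [Finset.mem_coe, Finset.mem_filter, Finset.mem_range] at hn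
    have h1 := (Nat.chineseRemainder hco (n % q) (n % D)).2
    have h2 : (Nat.chineseRemainder hco (n % q) (n % D) : ℕ) ≡ n [MOD q * D] := by
      rw [← Nat.modEq_and_modEq_iff_modEq_mul hco]
      exact ⟨h1.1.trans (Nat.mod_modEq _ _), h1.2.trans (Nat.mod_modEq _ _)⟩
    exact Nat.ModEq.eq_of_lt_of_lt h2 (Nat.chineseRemainder_lt_mul hco _ _ hq.ne' hD.ne') hn.1
  · rintro ⟨x, y⟩ hx
    rw [Finset.mem_coe, Finset.mem_product, Finset.mem_filter, Finset.mem_filter, Finset.mem_range,
      Finset.mem_range] at hx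
    have h1 := (Nat.chineseRemainder hco x y).2
    simp only [Prod.mk.injEq]
    constructor
    · rw [h1.1]; exact Nat.mod_eq_of_lt hx.1.1
    · rw [h1.2]; exact Nat.mod_eq_of_lt hx.2.1

end Pool.Agent.Helper96.CPAP

end

section

set_option autoImplicit false

open Finset Real

namespace Pool.Agent.Helper57.FP

open Pool.Agent.Helper44 Pool.Agent.Helper96.CPAP

theorem one_le_prod_real {κ : Type*} (E : Finset κ) (z : κ → ℝ) (hz : ∀ e ∈ E, 1 ≤ z e) :
    1 ≤ ∏ e ∈ E, z e := by
  classical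
  induction E using Finset.induction_on with
  | empty => simp
  | insert a E ha ih =>
    rw [Finset.prod_insert ha]
    have h1 := hz a (Finset.mem_insert_self _ _)
    have h2 := ih (fun e he => hz e (Finset.mem_insert_of_mem he))
    (clear * - h1 h2; nlinarith)

theorem prod_le_prod_subset_real {κ : Type*} {E F : Finset κ} (h : E ⊆ F) (z : κ → ℝ)
    (hz : ∀ e ∈ F, 1 ≤ z e) : ∏ e ∈ E, z e ≤ ∏ e ∈ F, z e := by
  classical
  rw [← Finset.prod_sdiff h]
  have h1 : 1 ≤ ∏ e ∈ F \ E, z e :=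
    one_le_prod_real _ _ fun e he => hz e (Finset.mem_sdiff.mp he).1
  have h2 : 1 ≤ ∏ e ∈ E, z e := one_le_prod_real _ _ fun e he => hz e (h he)
  (clear * - h1 h2; nlinarith)

/-- The singular series type weight `∏_{q ∣ t} (1 + 1/q)^s` (for `t = 0` it is `1`). -/
noncomputable def Psi (s : ℕ) (t : ℤ) : ℝ := ∏ q ∈ t.natAbs.primeFactors, (1 + 1 / (q : ℝ)) ^ s

theorem one_le_Psi (s : ℕ) (t : ℤ) : 1 ≤ Psi s t := by
  unfold Psi
  apply one_le_prod_real
  intro q _
  apply one_le_pow₀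
  have : (0 : ℝ) ≤ 1 / (q : ℝ) := by (clear * -; positivity)
  linarith

theorem Psi_pos (s : ℕ) (t : ℤ) : 0 < Psi s t := lt_of_lt_of_le one_pos (one_le_Psi s t)

theorem Psi_neg (s : ℕ) (t : ℤ) : Psi s (-t) = Psi s t := by
  unfold Psi
  rw [Int.natAbs_neg]

theorem Psi_pow (s m : ℕ) (t : ℤ) : Psi s t ^ m = Psi (s * m) t := by
  unfold Psi
  rw [← Finset.prod_pow]
  exact Finset.prod_congr rfl fun q _ => by rw [pow_mul]

section

variable {ι : Type*}

/-- number of residue classes killed by `q` -/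
noncomputable def nu (y : ι → ℕ) (q : ℕ) : ℕ := by
  classical exact ((range q).filter (fun n => ∃ i, q ∣ n + y i)).card

theorem nu_eq (y : ι → ℕ) (q : ℕ) [DecidablePred (fun n : ℕ => ∃ i, q ∣ n + y i)] :
    nu y q = ((range q).filter (fun n => ∃ i, q ∣ n + y i)).card := by
  unfold nu
  congr!

theorem key_mod {q n a : ℕ} (hn : n < q) (h : q ∣ n + a) : n = (q - a % q) % q := by
  have hq : 0 < q := by omega
  have h1 : n + a ≡ 0 [MOD q] := (Nat.modEq_zero_iff_dvd).mpr h
  have h2 : (q - a % q) + a ≡ 0 [MOD q] := by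
    have h3 : a % q < q := Nat.mod_lt _ hq
    have h4 : (q - a % q) + a % q ≡ 0 [MOD q] := by
      rw [Nat.sub_add_cancel h3.le]
      exact (Nat.modEq_zero_iff_dvd).mpr dvd_rfl
    exact (Nat.ModEq.add_left _ (Nat.mod_modEq a q).symm).trans h4
  have h3 : n ≡ (q - a % q) [MOD q] := Nat.ModEq.add_right_cancel' a (h1.trans h2.symm)
  have h4 : n % q = (q - a % q) % q := h3
  rwa [Nat.mod_eq_of_lt hn] at h4

theorem key_mod' {q a : ℕ} (hq : 0 < q) : q ∣ (q - a % q) % q + a := by
  have h3 : a % q < q := Nat.mod_lt _ hq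
  have h4 : (q - a % q) + a % q ≡ 0 [MOD q] := by
    rw [Nat.sub_add_cancel h3.le]
    exact (Nat.modEq_zero_iff_dvd).mpr dvd_rfl
  rw [← Nat.modEq_zero_iff_dvd]
  exact ((Nat.mod_modEq (q - a % q) q).add_right a).trans
    ((Nat.ModEq.add_left _ (Nat.mod_modEq a q).symm).trans h4)

theorem nu_le [Fintype ι] (y : ι → ℕ) (q : ℕ) : nu y q ≤ Fintype.card ι := by
  classical
  rw [nu_eq]
  have : (range q).filter (fun n => ∃ i, q ∣ n + y i) ⊆
      Finset.univ.image (fun i => (q - y i % q) % q) := by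
    intro n hn
    rw [Finset.mem_filter, Finset.mem_range] at hn
    obtain ⟨hn, i, hi⟩ := hn
    rw [Finset.mem_image]
    exact ⟨i, Finset.mem_univ _, (key_mod hn hi).symm⟩
  exact (Finset.card_le_card this).trans Finset.card_image_le

theorem nu_ge [Fintype ι] (y : ι → ℕ) {q : ℕ} (hq : 0 < q)
    (h : ∀ i j, i ≠ j → ¬ (q : ℤ) ∣ (y i : ℤ) - y j) : Fintype.card ι ≤ nu y q := by
  classical
  rw [nu_eq]
  have hinj : Function.Injective (fun i => (q - y i % q) % q) := by
    intro i j hij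
    by_contra hne
    apply h i j hne
    have h1 := key_mod' (a := y i) hq
    have h2 := key_mod' (a := y j) hq
    simp only at hij
    rw [hij] at h1
    have h3 := (Int.natCast_dvd_natCast.mpr h1)
    have h4 := (Int.natCast_dvd_natCast.mpr h2)
    have h5 := dvd_sub h3 h4
    push_cast at h5
    have h6 : ((((q - y j % q) % q : ℕ) : ℤ) + y i - (((q - y j % q) % q : ℕ) + y j)) =
        (y i : ℤ) - y j := by ring
    rw [← h6]
    push_cast
    exact h5
  calc Fintype.card ι = (Finset.univ.image (fun i => (q - y i % q) % q)).card := by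
        rw [Finset.card_image_of_injective _ hinj, Finset.card_univ]
    _ ≤ _ := by
        apply Finset.card_le_card
        intro n hn
        rw [Finset.mem_image] at hn
        obtain ⟨i, _, rfl⟩ := hn
        rw [Finset.mem_filter, Finset.mem_range]
        exact ⟨Nat.mod_lt _ hq, i, key_mod' hq⟩

theorem occ_iff_of_modEq {q : ℕ} (y : ι → ℕ) {n m : ℕ} (h : n ≡ m [MOD q]) :
    (∃ i, q ∣ n + y i) ↔ (∃ i, q ∣ m + y i) := by
  apply exists_congr
  intro i
  have h' : n + y i ≡ m + y i [MOD q] := h.add_right _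
  exact ⟨fun h'' => (Nat.ModEq.dvd_iff h' dvd_rfl).mp h'', fun h'' => (Nat.ModEq.dvd_iff h' dvd_rfl).mpr h''⟩

theorem card_occ_prod' (y : ι → ℕ) (I : Finset ℕ) (hI : ∀ q ∈ I, q.Prime)
    [DecidablePred (fun n : ℕ => ∀ q ∈ I, ∃ i, q ∣ n + y i)] :
    ((range (∏ q ∈ I, q)).filter (fun n => ∀ q ∈ I, ∃ i, q ∣ n + y i)).card =
      ∏ q ∈ I, nu y q := by
  classical
  have main : ∀ I : Finset ℕ, (∀ q ∈ I, q.Prime) →
      ((range (∏ q ∈ I, q)).filter (fun n => ∀ q ∈ I, ∃ i, q ∣ n + y i)).card =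
      ∏ q ∈ I, nu y q := by
    intro I hI
    induction I using Finset.induction_on with
    | empty => simp
    | insert q I hqI ih =>
      have hq := hI q (Finset.mem_insert_self _ _)
      have hI' : ∀ q ∈ I, q.Prime := fun q' hq' => hI q' (Finset.mem_insert_of_mem hq')
      have hco : Nat.Coprime q (∏ q ∈ I, q) := by
        apply Nat.Coprime.prod_right
        intro q' hq'
        exact (Nat.coprime_primes hq (hI' q' hq')).mpr (fun h => hqI (h ▸ hq'))
      have hpos : 0 < ∏ q ∈ I, q := Finset.prod_pos fun q' hq' => (hI' q' hq').pos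
      rw [Finset.prod_insert hqI, Finset.prod_insert hqI, ← ih hI', nu_eq]
      rw [← card_crt hco hq.pos hpos]
      · congr 1
        apply Finset.filter_congr
        intro n _
        rw [Finset.forall_mem_insert]
      · intro n
        exact occ_iff_of_modEq y (Nat.mod_modEq _ _)
      · intro n
        apply forall₂_congr
        intro q' hq'
        exact occ_iff_of_modEq y ((Nat.mod_modEq n _).of_dvd (Finset.dvd_prod_of_mem _ hq'))
  have h := main I hI
  convert h using 2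
  ext n
  simp only [Finset.mem_filter]

end

/-- The sieving primes. -/
def PP (r : ℕ) (q : ℕ) : Prop := q.Prime ∧ 2 * r ≤ q

theorem prod_main_le (r : ℕ) : ∃ C : ℝ, 0 < C ∧ ∀ w : ℝ, 2 ≤ w →
    ∏ q ∈ pU (PP r) w, (1 - (r : ℝ) / q) ≤ C / (Real.log w) ^ r := by
  classical
  obtain ⟨C, hC, hM⟩ := sum_primesUpTo_bounds
  refine ⟨Real.exp (r * (C + 2 * r)), Real.exp_pos _, ?_⟩
  intro w hw
  have hP' : ∀ q, PP r q → q.Prime := fun q h => h.1
  have hw0 : 0 ≤ w := by linarith
  have hlw : 0 < Real.log w := Real.log_pos (by linarith)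
  have hsub : ∑ q ∈ primesUpTo w, (1 : ℝ) / q - 2 * r ≤ ∑ q ∈ pU (PP r) w, (1 : ℝ) / q := by
    have h1 : primesUpTo w ⊆ pU (PP r) w ∪ (range (2 * r)).filter (fun q => 1 ≤ q) := by
      intro q hq
      rw [mem_primesUpTo hw0] at hq
      rw [Finset.mem_union, mem_pU hP' hw0, Finset.mem_filter, Finset.mem_range]
      by_cases h : 2 * r ≤ q
      · left; exact ⟨⟨hq.1, h⟩, hq.2⟩
      · right; exact ⟨by omega, hq.1.one_lt.le⟩
    have h2 : ∑ q ∈ primesUpTo w, (1 : ℝ) / q ≤ ∑ q ∈ pU (PP r) w, (1 : ℝ) / q +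
        ∑ q ∈ (range (2 * r)).filter (fun q => 1 ≤ q), (1 : ℝ) / q := by
      calc _ ≤ ∑ q ∈ pU (PP r) w ∪ (range (2 * r)).filter (fun q => 1 ≤ q), (1 : ℝ) / q :=
            Finset.sum_le_sum_of_subset_of_nonneg h1 (fun q _ _ => by (clear * -; positivity))
        _ ≤ _ := by
            have := Finset.sum_union_inter (s₁ := pU (PP r) w)
              (s₂ := (range (2 * r)).filter (fun q => 1 ≤ q)) (f := fun q : ℕ => (1 : ℝ) / q)
            have h3 : 0 ≤ ∑ q ∈ pU (PP r) w ∩ (range (2 * r)).filter (fun q => 1 ≤ q), (1 : ℝ) / q :=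
              Finset.sum_nonneg fun q _ => by (clear * -; positivity)
            (clear * - this h3; linarith)
    have h3 : ∑ q ∈ (range (2 * r)).filter (fun q => 1 ≤ q), (1 : ℝ) / q ≤ 2 * r := by
      calc _ ≤ ∑ _q ∈ (range (2 * r)).filter (fun q => 1 ≤ q), (1 : ℝ) := by
            apply Finset.sum_le_sum
            intro q hq
            rw [Finset.mem_filter] at hq
            have : (1 : ℝ) ≤ q := by exact_mod_cast hq.2
            rw [div_le_one (by (clear * - this; linarith))]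
            exact this
        _ = (((range (2 * r)).filter (fun q => 1 ≤ q)).card : ℝ) := by simp
        _ ≤ 2 * r := by
            have := Finset.card_filter_le (range (2 * r)) (fun q => 1 ≤ q)
            rw [Finset.card_range] at this
            exact_mod_cast this
    linarith
  calc ∏ q ∈ pU (PP r) w, (1 - (r : ℝ) / q) ≤ ∏ q ∈ pU (PP r) w, Real.exp (-(r * (1 / (q : ℝ)))) := by
        apply Finset.prod_le_prod
        · intro q hq
          rw [mem_pU hP' hw0] at hq
          have hq0 : (0 : ℝ) < q := by exact_mod_cast hq.1.1.pos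
          have h3 : (2 : ℝ) * r ≤ q := by exact_mod_cast hq.1.2
          have hr : (0 : ℝ) ≤ r := by (clear * -; positivity)
          have : (r : ℝ) / q ≤ 1 := by
            rw [div_le_one hq0]; (clear * - hq0 h3; linarith)
          (clear * - this; linarith)
        · intro q _
          have := Real.add_one_le_exp (-(r * (1 / (q : ℝ))))
          rw [mul_one_div] at this ⊢
          linarith
    _ = Real.exp (-(r * ∑ q ∈ pU (PP r) w, (1 : ℝ) / q)) := by
        rw [← Real.exp_sum, Finset.sum_neg_distrib, ← Finset.mul_sum]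
    _ ≤ Real.exp (r * (C + 2 * r) - r * Real.log (Real.log w)) := by
        apply Real.exp_le_exp.mpr
        have h1 := (abs_le.mp (hM w hw)).1
        have h2 : Real.log (Real.log w) - C - 2 * r ≤ ∑ q ∈ pU (PP r) w, (1 : ℝ) / q := by linarith
        have h3 := mul_le_mul_of_nonneg_left h2 (by (clear * -; positivity) : (0 : ℝ) ≤ r)
        (clear * - h3; nlinarith)
    _ = Real.exp (r * (C + 2 * r)) / (Real.log w) ^ r := by
        have h5 : Real.exp (r * Real.log (Real.log w)) = (Real.log w) ^ r := by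
          rw [Real.exp_nat_mul, Real.exp_log hlw]
        rw [Real.exp_sub, h5]

theorem prod_le_one_add_sum_pow {κ : Type*} (E : Finset κ) (z : κ → ℝ) (hz : ∀ e, 1 ≤ z e)
    (m : ℕ) (hm : E.card ≤ m) : ∏ e ∈ E, z e ≤ 1 + ∑ e ∈ E, z e ^ m := by
  rcases E.eq_empty_or_nonempty with rfl | hne
  · simp
  · obtain ⟨e, he, hmax⟩ := Finset.exists_max_image E z hne
    have h0 : ∀ e, 0 ≤ z e := fun e => by linarith [hz e]
    calc ∏ e' ∈ E, z e' ≤ ∏ _e' ∈ E, z e := Finset.prod_le_prod (fun e _ => h0 e) hmax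
      _ = z e ^ E.card := by rw [Finset.prod_const]
      _ ≤ z e ^ m := pow_le_pow_right₀ (hz e) hm
      _ ≤ ∑ e ∈ E, z e ^ m :=
          Finset.single_le_sum (f := fun e => z e ^ m) (fun e _ => pow_nonneg (h0 e) _) he
      _ ≤ 1 + ∑ e ∈ E, z e ^ m := by (clear * -; linarith)

theorem prod_nu_le (ι : Type) [Fintype ι] (r : ℕ) (hr : Fintype.card ι = r) :
    ∃ C : ℝ, 0 < C ∧ ∀ w : ℝ, 2 ≤ w → ∀ y : ι → ℕ,
    Function.Injective y →
    ∏ q ∈ pU (PP r) w, (1 - (nu y q : ℝ) / q) ≤
      C * (1 + ∑ i, ∑ j, Psi (2 * r * (r * r)) ((y i : ℤ) - y j)) / (Real.log w) ^ r := by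
  classical
  obtain ⟨C, hC, hmain⟩ := prod_main_le r
  refine ⟨C, hC, ?_⟩
  intro w hw y hy
  have hP' : ∀ q, PP r q → q.Prime := fun q h => h.1
  have hw0 : 0 ≤ w := by (clear * - hw; linarith)
  have hlw : 0 < Real.log w := Real.log_pos (by (clear * - hw; linarith))
  set bad : ℕ → Prop := fun q => ∃ i j, i ≠ j ∧ (q : ℤ) ∣ (y i : ℤ) - y j with hbad
  have hq : ∀ q ∈ pU (PP r) w, 0 < (q : ℝ) ∧ (r : ℝ) / q ≤ 1 / 2 ∧ q.Prime := by
    intro q hq
    rw [mem_pU hP' hw0] at hq
    have hq0 : (0 : ℝ) < q := by exact_mod_cast hq.1.1.pos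
    have h3 : (2 : ℝ) * r ≤ q := by exact_mod_cast hq.1.2
    refine ⟨hq0, ?_, hq.1.1⟩
    rw [div_le_iff₀ hq0]; (clear * - h3; linarith)
  have h1 : ∏ q ∈ pU (PP r) w, (1 - (nu y q : ℝ) / q) ≤
      ∏ q ∈ pU (PP r) w, ((1 - (r : ℝ) / q) * (if bad q then (1 + 1 / (q : ℝ)) ^ (2 * r) else 1)) := by
    apply Finset.prod_le_prod
    · intro q hq'
      obtain ⟨hq0, hq1, _⟩ := hq q hq'
      have h2 : (nu y q : ℝ) ≤ r := by
        have := nu_le y q
        rw [hr] at this
        exact_mod_cast this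
      have : (nu y q : ℝ) / q ≤ (r : ℝ) / q := div_le_div_of_nonneg_right h2 hq0.le
      (clear * - hq1 this; linarith)
    · intro q hq'
      exact by
        obtain ⟨hq0, hq1, hqp⟩ := hq q hq'
        have hr0 : 0 ≤ (r : ℝ) / q := by (clear * - hq0; positivity)
        split_ifs with hb
        · have h3 : 0 ≤ (nu y q : ℝ) / q := by (clear * - hq0; positivity)
          exact by
            have h4 : 1 + (2 * r : ℕ) * (1 / (q : ℝ)) ≤ (1 + 1 / (q : ℝ)) ^ (2 * r) := by
              apply one_add_mul_le_pow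
              have : (0 : ℝ) ≤ 1 / q := by (clear * - hq0; positivity)
              (clear * - this; linarith)
            have h5 : 1 + 2 * ((r : ℝ) / q) ≤ (1 + 1 / (q : ℝ)) ^ (2 * r) := by
              refine le_trans (le_of_eq ?_) h4
              push_cast
              ring
            have h6 : (1 : ℝ) ≤ (1 - (r : ℝ) / q) * (1 + 2 * ((r : ℝ) / q)) := by (clear * - hq1 hr0; nlinarith)
            have h7 : (1 - (r : ℝ) / q) * (1 + 2 * ((r : ℝ) / q)) ≤
                (1 - (r : ℝ) / q) * (1 + 1 / (q : ℝ)) ^ (2 * r) :=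
              mul_le_mul_of_nonneg_left h5 (by (clear * - hq1; linarith))
            (clear * - h3 h6 h7; linarith)
        · have h3 : r ≤ nu y q := by
            have := nu_ge y hqp.pos (by
              intro i j hij hd
              exact hb ⟨i, j, hij, hd⟩)
            rwa [hr] at this
          have h4 : (r : ℝ) / q ≤ (nu y q : ℝ) / q :=
            div_le_div_of_nonneg_right (by exact_mod_cast h3) hq0.le
          rw [mul_one]
          (clear * - h4; linarith)
  rw [Finset.prod_mul_distrib] at h1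
  set E : Finset (ι × ι) := Finset.univ.filter (fun e => e.1 ≠ e.2) with hE
  exact by
    have hEc : E.card ≤ r * r := by
      refine (Finset.card_filter_le _ _).trans ?_
      rw [Finset.card_univ, Fintype.card_prod, hr]
    have h2 : ∏ q ∈ pU (PP r) w, (if bad q then (1 + 1 / (q : ℝ)) ^ (2 * r) else 1) ≤
        ∏ e ∈ E, Psi (2 * r) ((y e.1 : ℤ) - y e.2) := by
      rw [← Finset.prod_filter]
      have hone : ∀ q : ℕ, (1 : ℝ) ≤ (1 + 1 / (q : ℝ)) ^ (2 * r) := by
        intro q
        apply one_le_pow₀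
        have : (0 : ℝ) ≤ 1 / (q : ℝ) := by (clear * -; positivity)
        (clear * - this; linarith)
      have hsub : (pU (PP r) w).filter bad ⊆
          E.biUnion (fun e => ((y e.1 : ℤ) - y e.2).natAbs.primeFactors) := by
        intro q hq'
        rw [Finset.mem_filter] at hq'
        obtain ⟨hq1, i, j, hij, hd⟩ := hq'
        rw [Finset.mem_biUnion]
        refine ⟨(i, j), by rw [hE, Finset.mem_filter]; exact ⟨Finset.mem_univ _, hij⟩, ?_⟩
        rw [Nat.mem_primeFactors]
        refine ⟨(hq q hq1).2.2, ?_, ?_⟩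
        · exact Int.natCast_dvd.mp hd
        · rw [Int.natAbs_ne_zero, sub_ne_zero]
          intro h
          exact hij (hy (by exact_mod_cast h))
      calc ∏ q ∈ (pU (PP r) w).filter bad, (1 + 1 / (q : ℝ)) ^ (2 * r)
          ≤ ∏ q ∈ E.biUnion (fun e => ((y e.1 : ℤ) - y e.2).natAbs.primeFactors),
              (1 + 1 / (q : ℝ)) ^ (2 * r) := by
            apply prod_le_prod_subset_real hsub
            intro q _
            exact hone q
        _ ≤ ∏ e ∈ E, ∏ q ∈ ((y e.1 : ℤ) - y e.2).natAbs.primeFactors,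
              (1 + 1 / (q : ℝ)) ^ (2 * r) := by
            clear_value E
            clear hsub hEc hE
            induction E using Finset.induction_on with
            | empty => simp
            | insert e E he ih =>
              rw [Finset.biUnion_insert, Finset.prod_insert he]
              have h3 := Finset.prod_union_inter
                (s₁ := ((y e.1 : ℤ) - y e.2).natAbs.primeFactors)
                (s₂ := E.biUnion (fun e => ((y e.1 : ℤ) - y e.2).natAbs.primeFactors))
                (f := fun q : ℕ => (1 + 1 / (q : ℝ)) ^ (2 * r))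
              have h4 : (1 : ℝ) ≤ ∏ q ∈ ((y e.1 : ℤ) - y e.2).natAbs.primeFactors ∩
                  E.biUnion (fun e => ((y e.1 : ℤ) - y e.2).natAbs.primeFactors),
                  (1 + 1 / (q : ℝ)) ^ (2 * r) := one_le_prod_real _ _ fun q _ => hone q
              have h5 : (0 : ℝ) ≤ ∏ q ∈ ((y e.1 : ℤ) - y e.2).natAbs.primeFactors ∪
                  E.biUnion (fun e => ((y e.1 : ℤ) - y e.2).natAbs.primeFactors),
                  (1 + 1 / (q : ℝ)) ^ (2 * r) :=
                Finset.prod_nonneg fun q _ => by (clear * - hone; linarith [hone q])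
              have h6 : (0 : ℝ) ≤ ∏ q ∈ ((y e.1 : ℤ) - y e.2).natAbs.primeFactors,
                  (1 + 1 / (q : ℝ)) ^ (2 * r) :=
                Finset.prod_nonneg fun q _ => by (clear * - hone; linarith [hone q])
              calc _ ≤ (∏ q ∈ ((y e.1 : ℤ) - y e.2).natAbs.primeFactors ∪
                  E.biUnion (fun e => ((y e.1 : ℤ) - y e.2).natAbs.primeFactors),
                  (1 + 1 / (q : ℝ)) ^ (2 * r)) *
                  ∏ q ∈ ((y e.1 : ℤ) - y e.2).natAbs.primeFactors ∩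
                  E.biUnion (fun e => ((y e.1 : ℤ) - y e.2).natAbs.primeFactors),
                  (1 + 1 / (q : ℝ)) ^ (2 * r) := le_mul_of_one_le_right h5 h4
                _ = _ := h3
                _ ≤ _ := mul_le_mul_of_nonneg_left ih h6
        _ = _ := rfl
    have h3 : ∏ e ∈ E, Psi (2 * r) ((y e.1 : ℤ) - y e.2) ≤
        1 + ∑ i, ∑ j, Psi (2 * r * (r * r)) ((y i : ℤ) - y j) := by
      refine (prod_le_one_add_sum_pow E _ (fun e => one_le_Psi _ _) (r * r) hEc).trans ?_
      gcongr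
      calc ∑ e ∈ E, Psi (2 * r) ((y e.1 : ℤ) - y e.2) ^ (r * r)
          = ∑ e ∈ E, Psi (2 * r * (r * r)) ((y e.1 : ℤ) - y e.2) :=
            Finset.sum_congr rfl fun e _ => Psi_pow _ _ _
        _ ≤ ∑ e : ι × ι, Psi (2 * r * (r * r)) ((y e.1 : ℤ) - y e.2) :=
            Finset.sum_le_sum_of_subset_of_nonneg (Finset.subset_univ _)
              (fun e _ _ => (Psi_pos _ _).le)
        _ = _ := by rw [Fintype.sum_prod_type]
    have h4 : 0 ≤ ∏ q ∈ pU (PP r) w, (1 - (r : ℝ) / q) := by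
      apply Finset.prod_nonneg
      intro q hq'
      (clear * - hq hq'; linarith [(hq q hq').2.1])
    have h5 : 0 ≤ ∏ e ∈ E, Psi (2 * r) ((y e.1 : ℤ) - y e.2) :=
      Finset.prod_nonneg fun e _ => (Psi_pos _ _).le
    calc ∏ q ∈ pU (PP r) w, (1 - (nu y q : ℝ) / q) ≤ _ := h1
      _ ≤ (∏ q ∈ pU (PP r) w, (1 - (r : ℝ) / q)) *
          (1 + ∑ i, ∑ j, Psi (2 * r * (r * r)) ((y i : ℤ) - y j)) :=
          mul_le_mul_of_nonneg_left (h2.trans h3) h4
      _ ≤ (C / (Real.log w) ^ r) * (1 + ∑ i, ∑ j, Psi (2 * r * (r * r)) ((y i : ℤ) - y j)) :=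
          mul_le_mul_of_nonneg_right (hmain w hw) (by (clear * - h3 h5; linarith))
      _ = _ := by ring

end Pool.Agent.Helper57.FP

end

section

set_option autoImplicit false

open Finset Real

namespace Pool.Agent.Helper57.FP

open Pool.Agent.Helper44

/-- Small primes part of `Psi`. -/
theorem Psi_le_small (s L : ℕ) (hL : 1 ≤ L) (t : ℤ) (ht : t.natAbs ≤ 4 ^ L) :
    Psi s t ≤ Real.exp (2 * s) *
      ∏ q ∈ primesUpTo L, (1 + (if (q : ℤ) ∣ t then (2 : ℝ) ^ s / q else 0)) := by
  classical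
  have hL0 : (0 : ℝ) < L := by exact_mod_cast hL
  have hpos : ∀ q : ℕ, (1 : ℝ) ≤ 1 + 1 / (q : ℝ) := fun q => by
    have : (0 : ℝ) ≤ 1 / (q : ℝ) := by positivity
    linarith
  have hb : ∀ q : ℕ, q.Prime → (1 + 1 / (q : ℝ)) ^ s ≤ 1 + (2 : ℝ) ^ s / q := by
    intro q hq
    have hq0 : (0 : ℝ) < 1 / (q : ℝ) := by
      have : (0 : ℝ) < q := by exact_mod_cast hq.pos
      positivity
    have hq1 : 1 / (q : ℝ) ≤ 1 := by
      rw [div_le_one (by exact_mod_cast hq.pos)]
      exact_mod_cast hq.one_lt.le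
    rw [show (2 : ℝ) ^ s / q = 2 ^ s * (1 / q) by ring]
    generalize 1 / (q : ℝ) = x at hq0 hq1
    have : ∀ n : ℕ, (1 + x) ^ n ≤ 1 + (2 ^ n - 1) * x := by
      intro n
      induction n with
      | zero => simp
      | succ n ih =>
        have h2 : (1 : ℝ) ≤ 2 ^ n := one_le_pow₀ (by norm_num)
        calc (1 + x) ^ (n + 1) = (1 + x) ^ n * (1 + x) := pow_succ _ _
          _ ≤ (1 + (2 ^ n - 1) * x) * (1 + x) := by
              apply mul_le_mul_of_nonneg_right ih; linarith
          _ ≤ 1 + (2 ^ (n + 1) - 1) * x := by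
              rw [pow_succ]
              nlinarith [mul_nonneg (sub_nonneg.mpr h2) (mul_nonneg hq0.le (sub_nonneg.mpr hq1))]
    have h3 := this s
    nlinarith
  have hfac : ∀ q : ℕ, (1 : ℝ) ≤ 1 + (if (q : ℤ) ∣ t then (2 : ℝ) ^ s / q else 0) := by
    intro q
    have : (0 : ℝ) ≤ (if (q : ℤ) ∣ t then (2 : ℝ) ^ s / q else 0) := by
      split_ifs <;> positivity
    linarith
  have hone : (1 : ℝ) ≤ ∏ q ∈ primesUpTo L, (1 + (if (q : ℤ) ∣ t then (2 : ℝ) ^ s / q else 0)) :=
    one_le_prod_real _ _ fun q _ => hfac q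
  rcases eq_or_ne t 0 with rfl | ht0
  · have h1 : Psi s 0 = 1 := by simp [Psi]
    exact by
      rw [h1]
      have h2 : (1 : ℝ) ≤ Real.exp (2 * s) := Real.one_le_exp (by positivity)
      nlinarith
  · have ht0' : t.natAbs ≠ 0 := by simpa using ht0
    -- number of prime factors
    exact by
      have hcard : t.natAbs.primeFactors.card ≤ 2 * L := by
        have h1 : 2 ^ t.natAbs.primeFactors.card ≤ ∏ q ∈ t.natAbs.primeFactors, q := by
          rw [← Finset.prod_const]
          apply Finset.prod_le_prod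
          · intro q _; norm_num
          · intro q hq
            exact (Nat.prime_of_mem_primeFactors hq).two_le
        have h2 : ∏ q ∈ t.natAbs.primeFactors, q ≤ t.natAbs :=
          Nat.le_of_dvd (Nat.pos_of_ne_zero ht0') (Nat.prod_primeFactors_dvd _)
        have h3 : 2 ^ t.natAbs.primeFactors.card ≤ 2 ^ (2 * L) := by
          rw [pow_mul]
          exact (h1.trans h2).trans ht
        exact (Nat.pow_le_pow_iff_right (by norm_num)).mp h3
      unfold Psi
      rw [← Finset.prod_filter_mul_prod_filter_not t.natAbs.primeFactors (fun q => L < q)]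
      apply mul_le_mul
      · calc ∏ q ∈ t.natAbs.primeFactors.filter (fun q => L < q), (1 + 1 / (q : ℝ)) ^ s
            ≤ ∏ _q ∈ t.natAbs.primeFactors.filter (fun q => L < q), Real.exp (s * (1 / L)) := by
              apply Finset.prod_le_prod
              · intro q _; positivity
              · intro q hq
                rw [Finset.mem_filter] at hq
                have h1 : (1 : ℝ) / q ≤ 1 / L := by
                  apply one_div_le_one_div_of_le hL0
                  exact_mod_cast hq.2.le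
                have h2 : 1 + 1 / (q : ℝ) ≤ Real.exp (1 / L) := by
                  have := Real.add_one_le_exp (1 / (L : ℝ))
                  linarith
                rw [Real.exp_nat_mul]
                exact pow_le_pow_left₀ (by positivity) h2 _
          _ = Real.exp (s * (1 / L)) ^ (t.natAbs.primeFactors.filter (fun q => L < q)).card := by
              rw [Finset.prod_const]
          _ ≤ Real.exp (s * (1 / L)) ^ (2 * L) := by
              apply pow_le_pow_right₀ (Real.one_le_exp (by positivity))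
              exact (Finset.card_filter_le _ _).trans hcard
          _ = Real.exp (2 * s) := by
              rw [← Real.exp_nat_mul]
              congr 1
              push_cast
              field_simp
      · calc ∏ q ∈ t.natAbs.primeFactors.filter (fun q => ¬ L < q), (1 + 1 / (q : ℝ)) ^ s
            ≤ ∏ q ∈ t.natAbs.primeFactors.filter (fun q => ¬ L < q),
              (1 + (if (q : ℤ) ∣ t then (2 : ℝ) ^ s / q else 0)) := by
              apply Finset.prod_le_prod
              · intro q _; positivity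
              · intro q hq
                rw [Finset.mem_filter] at hq
                have h1 : (q : ℤ) ∣ t := Int.natCast_dvd.mpr (Nat.dvd_of_mem_primeFactors hq.1)
                rw [if_pos h1]
                exact hb q (Nat.prime_of_mem_primeFactors hq.1)
          _ ≤ _ := by
              apply prod_le_prod_subset_real _ _ (fun q _ => hfac q)
              intro q hq
              rw [Finset.mem_filter] at hq
              rw [mem_primesUpTo hL0.le]
              refine ⟨Nat.prime_of_mem_primeFactors hq.1, ?_⟩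
              exact_mod_cast not_lt.mp hq.2
      · apply Finset.prod_nonneg
        intro q _; positivity
      · exact (Real.exp_pos _).le

end Pool.Agent.Helper57.FP

end

section

set_option autoImplicit false

open Finset Real

namespace Pool.Agent.Helper57.FP

/-- The shifts: `X 0 = 0`, `X (i+1) = s i (X i) + u i`. -/
def X {l L : ℕ} (s : ℕ → ℕ → ℕ) (u : Fin l → Fin L) : ℕ → ℕ
  | 0 => 0
  | i + 1 => s i (X s u i) + (if h : i < l then (u ⟨i, h⟩ : ℕ) else 0)

theorem X_succ {l L : ℕ} (s : ℕ → ℕ → ℕ) (u : Fin l → Fin L) {i : ℕ} (h : i < l) :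
    X s u (i + 1) = s i (X s u i) + (u ⟨i, h⟩ : ℕ) := by
  simp [X, h]

theorem X_update {l L : ℕ} (s : ℕ → ℕ → ℕ) (u : Fin l → Fin L) (k : Fin l) (v : Fin L) :
    ∀ i : ℕ, i ≤ k → X s (Function.update u k v) i = X s u i := by
  intro i
  induction i with
  | zero => intro _; rfl
  | succ i ih =>
    intro hi
    have hil : i < l := by have := k.2; omega
    rw [X_succ s _ hil, X_succ s _ hil, ih (by omega)]
    congr 2
    rw [Function.update_of_ne]
    intro h
    have : i = (k : ℕ) := by rw [← h]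
    omega

theorem X_update_succ {l L : ℕ} (s : ℕ → ℕ → ℕ) (u : Fin l → Fin L) (k : Fin l) (v : Fin L) :
    X s (Function.update u k v) (k + 1) = s k (X s u k) + (v : ℕ) := by
  rw [X_succ s _ k.2, X_update s u k v k le_rfl]
  simp

end Pool.Agent.Helper57.FP

end

section

set_option autoImplicit false

open Finset Real

namespace Pool.Agent.Helper57.FP

theorem Psi_zero (s : ℕ) : Psi s 0 = 1 := by simp [Psi]

/-- difference of the shifts -/
def hh {l L : ℕ} (k : ℕ) (s : ℕ → ℕ → ℕ) (u u' : Fin l → Fin L) (i : ℕ) : ℤ :=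
  ((s k (X s u k) : ℤ) - s k (X s u' k)) - L + i

/-- the `Psi` sum for fixed `u,u',i` -/
noncomputable def WW {l L : ℕ} (σ k : ℕ) (s : ℕ → ℕ → ℕ) (u u' : Fin l → Fin L) (i : ℕ) : ℝ :=
  ∑ a : Fin (k + 1), ∑ b : Fin (k + 1), Psi σ ((X s u a : ℤ) - X s u b) +
  ∑ a : Fin (k + 1), ∑ b : Fin (k + 1), Psi σ (hh k s u u' i + (X s u' b - X s u a)) +
  ∑ a : Fin (k + 1), ∑ b : Fin (k + 1), Psi σ (hh k s u u' i + (X s u' a - X s u b)) +
  ∑ a : Fin (k + 1), ∑ b : Fin (k + 1), Psi σ ((X s u' a : ℤ) - X s u' b)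

end Pool.Agent.Helper57.FP

end
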