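import Pool.Agent.Helper23.MC.Inst

/-!
Parts of Helper61.NX.PatA, Helper67.NX2.DefsB, Helper46.NX2.ReplaceAp, Helper79.NX2.Freeze, Helper80.NX2.GmAp, Helper81.NX2.GmMomentA, Helper57.NX3.Defs, Helper23.NX3.Cells, Helper61.NX.PatB, Helper57.NX3.PatAlg, Helper72.NX3.Lower, Helper57.NX3.PatWin, Helper57.NX3.PatSize, Helper57.NX3.PatBlk, Helper53.NX3.Upper
-/

attribute [local instance 5000]
  Pool.Agent.Helper23.MC.Inst.rCharZero Pool.Agent.Helper23.MC.Inst.rALM
  Pool.Agent.Helper23.MC.Inst.rARM Pool.Agent.Helper23.MC.Inst.rALSM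
  Pool.Agent.Helper23.MC.Inst.rARSM Pool.Agent.Helper23.MC.Inst.rARRLE
  Pool.Agent.Helper23.MC.Inst.rALRLE Pool.Agent.Helper23.MC.Inst.rARRLT
  Pool.Agent.Helper23.MC.Inst.rALRLT Pool.Agent.Helper23.MC.Inst.rPMRLT
  Pool.Agent.Helper23.MC.Inst.rMPRLT Pool.Agent.Helper23.MC.Inst.rPMM
  Pool.Agent.Helper23.MC.Inst.rMPM Pool.Agent.Helper23.MC.Inst.rPMSM
  Pool.Agent.Helper23.MC.Inst.rMPSM Pool.Agent.Helper23.MC.Inst.rEAOL
  Pool.Agent.Helper23.MC.Inst.rIOR Pool.Agent.Helper23.MC.Inst.rISOR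
  Pool.Agent.Helper23.MC.Inst.rNZD Pool.Agent.Helper23.MC.Inst.rcCharZero
  Pool.Agent.Helper23.MC.Inst.rcNZD Pool.Agent.Helper23.MC.Inst.zCharZero
  Pool.Agent.Helper23.MC.Inst.zALM Pool.Agent.Helper23.MC.Inst.zARM
  Pool.Agent.Helper23.MC.Inst.zALSM Pool.Agent.Helper23.MC.Inst.zARSM
  Pool.Agent.Helper23.MC.Inst.zIOR Pool.Agent.Helper23.MC.Inst.zISOR
  Pool.Agent.Helper23.MC.Inst.zNZD Pool.Agent.Helper23.MC.Inst.qCharZero
  Pool.Agent.Helper23.MC.Inst.mR Pool.Agent.Helper23.MC.Inst.mC Pool.Agent.Helper23.MC.Inst.mRC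
  Pool.Agent.Helper23.MC.Inst.rPSM Pool.Agent.Helper23.MC.Inst.rCSM
  Pool.Agent.Helper23.MC.Inst.cAdd Pool.Agent.Helper23.MC.Inst.cAddM
  Pool.Agent.Helper23.MC.Inst.cMul Pool.Agent.Helper23.MC.Inst.cMon

namespace Pool.Agent.Helper57.NX
end Pool.Agent.Helper57.NX

section

set_option autoImplicit false

open Finset

open scoped BigOperators ComplexConjugate

namespace Pool.Agent.Helper57.NX

noncomputable section

/-- indicator function -/
def ind (A : Finset ℕ) (n : ℕ) : ℝ := if n ∈ A then 1 else 0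

theorem ind_nonneg (A : Finset ℕ) (n : ℕ) : 0 ≤ ind A n := by
  unfold ind
  split_ifs <;> norm_num

theorem ind_le_one (A : Finset ℕ) (n : ℕ) : ind A n ≤ 1 := by
  unfold ind
  split_ifs <;> norm_num

theorem sum_blocks (Q B : ℕ) (G : ℕ → ℝ) :
    ∑ n ∈ range (Q * B), G n = ∑ w ∈ range B, ∑ r ∈ range Q, G (Q * w + r) := by
  induction B with
  | zero => simp
  | succ B ih =>
    rw [Nat.mul_succ, Finset.sum_range_add, ih, Finset.sum_range_succ]

theorem block_sum (A : Finset ℕ) (Q B v : ℕ) (hQ : 0 < Q) :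
    (Q : ℝ) * ∑ w ∈ range B, ind A (v / Q + 1 + w) ≤
      ∑ t ∈ range (Q * (B + 1)), ind A ((v + t) / Q) := by
  set d := Q - v % Q with hd
  have hmod : v % Q < Q := Nat.mod_lt _ hQ
  have hdQ : d ≤ Q := Nat.sub_le _ _
  have hvd : v + d = Q * (v / Q + 1) := by
    have := Nat.div_add_mod v Q
    rw [Nat.mul_succ]
    omega
  have h1 : ∑ t ∈ Ico d (d + Q * B), ind A ((v + t) / Q) ≤
      ∑ t ∈ range (Q * (B + 1)), ind A ((v + t) / Q) := by
    refine Finset.sum_le_sum_of_subset_of_nonneg ?_ fun _ _ _ => ind_nonneg _ _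
    intro t ht
    rw [Finset.mem_Ico] at ht
    rw [Finset.mem_range, Nat.mul_succ]
    omega
  refine le_trans (le_of_eq ?_) h1
  rw [Finset.sum_Ico_eq_sum_range, Nat.add_sub_cancel_left, sum_blocks, Finset.mul_sum]
  refine Finset.sum_congr rfl fun w _ => ?_
  have h2 : ∀ r ∈ range Q, ind A ((v + (d + (Q * w + r))) / Q) = ind A (v / Q + 1 + w) := by
    intro r hr
    congr 1
    have h3 : v + (d + (Q * w + r)) = Q * (v / Q + 1 + w) + r := by
      have : v + (d + (Q * w + r)) = (v + d) + Q * w + r := by ring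
      rw [this, hvd]
      ring
    rw [h3, Nat.mul_add_div hQ, Nat.div_eq_of_lt (Finset.mem_range.mp hr), add_zero]
  rw [Finset.sum_congr rfl h2, Finset.sum_const, Finset.card_range, nsmul_eq_mul]

section TVs

variable {N : ℕ} [NeZero N]

/-- the refined indicator function -/
def gA (A : Finset ℕ) (Q : ℕ) (y : ZMod N) : ℝ := ind A (y.val / Q)

/-- the refined indicator function, restricted to the beginnings of the blocks -/
def g0A (A : Finset ℕ) (Q : ℕ) (η : ℝ) (y : ZMod N) : ℝ :=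
  if ((y.val % Q : ℕ) : ℝ) < η * Q then ind A (y.val / Q) else 0

omit [NeZero N] in
theorem gA_nonneg (A : Finset ℕ) (Q : ℕ) (y : ZMod N) : 0 ≤ gA A Q y := ind_nonneg _ _

omit [NeZero N] in
theorem gA_le_one (A : Finset ℕ) (Q : ℕ) (y : ZMod N) : gA A Q y ≤ 1 := ind_le_one _ _

omit [NeZero N] in
theorem g0A_nonneg (A : Finset ℕ) (Q : ℕ) (η : ℝ) (y : ZMod N) : 0 ≤ g0A A Q η y := by
  unfold g0A
  split_ifs
  · exact ind_nonneg _ _
  · exact le_rfl

omit [NeZero N] in
theorem g0A_le_one (A : Finset ℕ) (Q : ℕ) (η : ℝ) (y : ZMod N) : g0A A Q η y ≤ 1 := by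
  unfold g0A
  split_ifs
  · exact ind_le_one _ _
  · norm_num

end TVs

end

end Pool.Agent.Helper57.NX

end

section

set_option autoImplicit false

open Finset

open scoped BigOperators ComplexConjugate

namespace Pool.Agent.Helper67.NX2

open Pool.Agent.Helper57.NX

noncomputable section

/-- dyadic block `j` of length `2 ^ b` -/
def bl (b j : ℕ) : Finset ℕ := Ico (2 ^ b * j) (2 ^ b * (j + 1))

/-- shifts: `0` at the position `none`, `n ^ d_i` at the position `some i` -/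
def sh {s : ℕ} (d : Fin s → ℕ) {R : Type*} [Semiring R] (n : R) : Option (Fin s) → R
  | none => 0
  | some i => n ^ d i

/-- the form over the integers:
`𝔼_{k ∈ [u,u+T)} (1/Z) Σ_{x<Z} G x * f_none x * ∏_i f_i (x + (K k)^(d_i))` -/
def nform {s : ℕ} (d : Fin s → ℕ) (K u T Z : ℕ) (G : ℕ → ℝ) (f : Option (Fin s) → ℕ → ℝ) : ℝ :=
  𝔼 k ∈ Ico u (u + T), (∑ x ∈ range Z, G x * ∏ o, f o (x + sh d (K * k) o)) / Z

/-- the form over residues -/
def lfm {s : ℕ} (d : Fin s → ℕ) (K M : ℕ) [NeZero M] (H : Option (Fin s) → ZMod M → ℝ) : ℝ :=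
  𝔼 ρ : ZMod M, 𝔼 κ : ZMod M, ∏ o, H o (ρ + sh d ((K : ZMod M) * κ) o)

/-- average of `F` over the residue class `ρ` modulo `M` in the block `j` of length `2 ^ b`,
normalised by `M / 2 ^ b` -/
def cell (F : ℕ → ℝ) (M b j : ℕ) (ρ : ZMod M) : ℝ :=
  (M : ℝ) / 2 ^ b * ∑ y ∈ bl b j, if (y : ZMod M) = ρ then F y else 0

/-- conditional expectation of `F`: blocks of length `2 ^ b`, residues modulo `M` -/
def Fm (F : ℕ → ℝ) (M b x : ℕ) : ℝ := cell F M b (x / 2 ^ b) (x : ZMod M)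

/-- `Δ_S F` on the block `j`: residue `κ` modulo `K`, residues `ω p` modulo `p ^ r1`, `p ∈ S` -/
def DS (F : ℕ → ℝ) (K r1 b j : ℕ) (S : Finset ℕ) (κ : ℕ) (ω : ℕ → ℕ) : ℝ :=
  (∑ y ∈ bl b j, F y * (if y ≡ κ [MOD K] then (K : ℝ) else 0) *
    ∏ p ∈ S, ((if y ≡ ω p [MOD p ^ r1] then (p : ℝ) ^ r1 else 0) - 1)) / 2 ^ b

/-- the dense model: all `Δ_S F` with `#S ≤ r0` -/
def gm (F : ℕ → ℝ) (K r0 r1 b : ℕ) (PP : Finset ℕ) (x : ℕ) : ℝ :=
  ∑ S ∈ PP.powerset.filter (fun S => S.card ≤ r0), DS F K r1 b (x / 2 ^ b) S x (fun _ => x)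

/-- the weighted indicator function `log (2 ^ z) * 1_A` -/
def FA (z : ℕ) (A : Finset ℕ) (x : ℕ) : ℝ := if x ∈ A then Real.log ((2 : ℝ) ^ z) else 0

/-- block lengths -/
def BlkLen {s : ℕ} (d : Fin s → ℕ) (γ ε D : ℝ) (b : Option (Fin s) → ℕ) : Prop :=
  (D ^ (γ - 2 * ε) / 4 ≤ (2 : ℝ) ^ b none ∧ (2 : ℝ) ^ b none ≤ D ^ (γ - 2 * ε)) ∧
  ∀ i, D ^ ((d i : ℝ) - 2 * ε) / 4 ≤ (2 : ℝ) ^ b (some i) ∧
    (2 : ℝ) ^ b (some i) ≤ D ^ ((d i : ℝ) - 2 * ε)

end

end Pool.Agent.Helper67.NX2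

end

section

set_option autoImplicit false

open Finset

open scoped BigOperators ComplexConjugate

namespace Pool.Agent.Helper67.NX2

open Pool.Agent.Helper57.NX

noncomputable section

lemma rap_mem_bl {b j y : ℕ} : y ∈ bl b j ↔ y / 2 ^ b = j := by
  unfold bl
  rw [mem_Ico]
  have hB : 0 < 2 ^ b := by positivity
  constructor
  · rintro ⟨h1, h2⟩
    exact Nat.div_eq_of_lt_le (by rw [mul_comm]; exact h1) (by rw [mul_comm]; exact h2)
  · rintro rfl
    exact ⟨Nat.mul_div_le _ _, by rw [mul_add, mul_one]; exact Nat.lt_mul_div_succ y hB⟩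

end

end Pool.Agent.Helper67.NX2

end

section

set_option autoImplicit false

open Finset

open scoped BigOperators

namespace Pool.Agent.Helper67.NX2

open Pool.Agent.Helper57.NX

noncomputable section

/-- shift of a sum over an initial segment -/
theorem fz_shift (g : ℕ → ℝ) (B : ℝ) (hg : ∀ x, |g x| ≤ B) (Z t : ℕ) :
    |∑ x ∈ range Z, g (x + t) - ∑ x ∈ range Z, g x| ≤ 2 * t * B := by
  induction t with
  | zero => simp
  | succ t ih =>
    have h1 : ∑ x ∈ range Z, g (x + (t + 1)) =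
        ∑ x ∈ range Z, g (x + t) + g (Z + t) - g t := by
      have h2 : ∑ x ∈ range (Z + 1), g (x + t) = ∑ x ∈ range Z, g (x + t) + g (Z + t) :=
        sum_range_succ _ _
      have h3 : ∑ x ∈ range (Z + 1), g (x + t) = ∑ x ∈ range Z, g (x + 1 + t) + g (0 + t) :=
        sum_range_succ' _ _
      have h4 : ∑ x ∈ range Z, g (x + (t + 1)) = ∑ x ∈ range Z, g (x + 1 + t) :=
        sum_congr rfl fun x _ => by congr 1; ring
      rw [zero_add] at h3
      rw [h4]; linarith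
    rw [h1]
    have h5 := abs_le.1 (hg (Z + t))
    have h6 := abs_le.1 (hg t)
    have h7 := abs_le.1 ih
    rw [abs_le]
    push_cast
    constructor <;> (clear * - h5 h6 h7; nlinarith [h5.1, h5.2, h6.1, h6.2, h7.1, h7.2])

/-- shift of a sum over an interval -/
theorem fz_shift_Ico (g : ℕ → ℝ) (B : ℝ) (hg : ∀ x, |g x| ≤ B) (u T t : ℕ) :
    |∑ k ∈ Ico u (u + T), g (k + t) - ∑ k ∈ Ico u (u + T), g k| ≤ 2 * t * B := by
  rw [Finset.sum_Ico_eq_sum_range, Finset.sum_Ico_eq_sum_range, Nat.add_sub_cancel_left]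
  have := fz_shift (fun x => g (u + x)) B (fun x => hg _) T t
  simpa [add_assoc] using this

/-- number of `x` whose shifted residue is near the end -/
theorem fz_count (a N c δ : ℕ) (ha : 0 < a) :
    ((range (a * N)).filter (fun x => a ≤ (x + c) % a + δ)).card ≤ N * δ := by
  have hper : Function.Periodic (fun y : ℕ => a ≤ y % a + δ) (a * N) := by
    intro y; simp [Nat.add_mul_mod_self_left]
  have h1 : ((range (a * N)).filter (fun x => a ≤ (x + c) % a + δ)).card =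
      ((Ico c (c + a * N)).filter (fun y => a ≤ y % a + δ)).card := by
    apply Finset.card_nbij' (fun x => x + c) (fun y => y - c)
    · intro x hx
      simp only [coe_filter, mem_range, Set.mem_ofPred_eq, mem_Ico] at hx ⊢
      exact ⟨⟨by omega, by omega⟩, hx.2⟩
    · intro y hy
      simp only [coe_filter, mem_range, Set.mem_ofPred_eq, mem_Ico] at hy ⊢
      obtain ⟨⟨h1, h2⟩, h3⟩ := hy
      refine ⟨by omega, ?_⟩
      rwa [Nat.sub_add_cancel h1]
    · intro x hx
      simp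
    · intro y hy
      simp only [coe_filter, Set.mem_ofPred_eq, mem_Ico] at hy
      exact Nat.sub_add_cancel hy.1.1
  rw [h1, Nat.filter_Ico_card_eq_of_periodic _ _ _ hper, Nat.count_eq_card_filter_range]
  calc ((range (a * N)).filter (fun y => a ≤ y % a + δ)).card
      ≤ ((range N) ×ˢ (Ico (a - δ) a)).card := by
        apply Finset.card_le_card_of_injOn (fun y => (y / a, y % a))
        · intro y hy
          simp only [coe_filter, mem_range, Set.mem_ofPred_eq] at hy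
          simp only [coe_product, coe_range, coe_Ico, Set.mem_prod, Set.mem_Iio, Set.mem_Ico]
          refine ⟨Nat.div_lt_of_lt_mul hy.1, ?_, Nat.mod_lt _ ha⟩
          omega
        · intro y _ y' _ h
          simp only [Prod.mk.injEq] at h
          rw [← Nat.div_add_mod y a, ← Nat.div_add_mod y' a, h.1, h.2]
    _ ≤ N * δ := by
        rw [card_product, card_range, Nat.card_Ico]
        exact Nat.mul_le_mul_left _ (by omega)

/-- complete residue systems -/
theorem fz_sum_zmod (M : ℕ) [NeZero M] (c : ℕ) (g : ZMod M → ℝ) :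
    ∑ x ∈ range M, g ((c + x : ℕ) : ZMod M) = ∑ ρ : ZMod M, g ρ := by
  have h1 : ∀ g : ZMod M → ℝ, ∑ x ∈ range M, g ((x : ℕ) : ZMod M) = ∑ ρ : ZMod M, g ρ := by
    intro g
    apply Finset.sum_nbij' (fun x : ℕ => (x : ZMod M)) (fun ρ : ZMod M => ρ.val)
    · intro x _; exact mem_univ _
    · intro ρ _; exact mem_range.2 (ZMod.val_lt ρ)
    · intro x hx
      simp only [ZMod.val_natCast]
      exact Nat.mod_eq_of_lt (mem_range.1 hx)
    · intro ρ _
      simp
    · intro x _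
      rfl
  have h2 := h1 (fun ρ => g ((c : ZMod M) + ρ))
  have h3 : ∑ ρ : ZMod M, g ((c : ZMod M) + ρ) = ∑ ρ : ZMod M, g ρ :=
    Equiv.sum_comp (Equiv.addLeft (c : ZMod M)) g
  rw [← h3, ← h2]
  refine sum_congr rfl fun x _ => ?_
  push_cast
  rfl

theorem fz_sh_cast {s : ℕ} (d : Fin s → ℕ) (M n : ℕ) (o : Option (Fin s)) :
    ((sh d n o : ℕ) : ZMod M) = sh d (n : ZMod M) o := by
  cases o <;> simp [sh]

/-- the local form as an average over shifts -/
theorem fz_lfm {s : ℕ} (d : Fin s → ℕ) (K M : ℕ) [NeZero M]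
    (H : Option (Fin s) → ZMod M → ℝ) (x k : ℕ) :
    ∑ x' ∈ range M, ∑ k' ∈ range M, ∏ o, H o ((x + x' + sh d (K * (k + k')) o : ℕ) : ZMod M) =
      (M : ℝ) ^ 2 * lfm d K M H := by
  have hM : (M : ℝ) ≠ 0 := Nat.cast_ne_zero.2 (NeZero.ne M)
  have h1 : lfm d K M H =
      (∑ ρ : ZMod M, (∑ κ : ZMod M, ∏ o, H o (ρ + sh d ((K : ZMod M) * κ) o)) / M) / M := by
    unfold lfm
    rw [Finset.expect_eq_sum_div_card]
    simp only [Finset.expect_eq_sum_div_card, card_univ, ZMod.card]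
  have h2 : ∑ x' ∈ range M, ∑ k' ∈ range M,
      ∏ o, H o ((x + x' + sh d (K * (k + k')) o : ℕ) : ZMod M) =
      ∑ ρ : ZMod M, ∑ κ : ZMod M, ∏ o, H o (ρ + sh d ((K : ZMod M) * κ) o) := by
    rw [← fz_sum_zmod M x]
    refine sum_congr rfl fun x' _ => ?_
    rw [← fz_sum_zmod M k]
    refine sum_congr rfl fun k' _ => ?_
    refine prod_congr rfl fun o _ => ?_
    congr 1
    rw [Nat.cast_add, fz_sh_cast]
    push_cast
    rfl
  rw [h1, h2, ← Finset.sum_div]
  field_simp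

/-- blocks do not move -/
theorem fz_block (a y0 y1 δ : ℕ) (h01 : y0 ≤ y1) (h1 : y1 ≤ y0 + δ)
    (hb : ¬ a ≤ y0 % a + δ) : y1 / a = y0 / a := by
  have ha : 0 < a := by omega
  obtain ⟨t, rfl⟩ := Nat.exists_eq_add_of_le h01
  have h2 : y0 % a + t < a := by omega
  have h3 : y0 + t = a * (y0 / a) + (y0 % a + t) := by
    have := Nat.div_add_mod y0 a; omega
  rw [h3, Nat.mul_add_div ha, Nat.div_eq_of_lt h2, add_zero]

theorem fz_sh_mono {s : ℕ} (d : Fin s → ℕ) {m n : ℕ} (h : m ≤ n) (o : Option (Fin s)) :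
    (sh d m o : ℕ) ≤ sh d n o := by
  cases o with
  | none => simp [sh]
  | some i => simpa [sh] using Nat.pow_le_pow_left h (d i)

/-- product bound -/
theorem fz_prod {ι : Type} [Fintype ι] (f : ι → ℝ) (V : ℝ) (n : ℕ)
    (hn : Fintype.card ι = n) (hf : ∀ o, |f o| ≤ V) : |∏ o, f o| ≤ V ^ n := by
  rw [Finset.abs_prod]
  calc ∏ o, |f o| ≤ ∏ _o : ι, V := Finset.prod_le_prod (fun _ _ => abs_nonneg _) fun o _ => hf o
    _ = V ^ n := by rw [prod_const, card_univ, hn]

/-- the shift in the block -/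
def fz_dl {s : ℕ} (d : Fin s → ℕ) (K M k : ℕ) (o : Option (Fin s)) : ℕ :=
  M + (sh d (K * (k + M)) o - sh d (K * k) o)

/-- pointwise comparison -/
theorem fz_point {s : ℕ} (d : Fin (s + 1) → ℕ) (K M : ℕ) [NeZero M] (V Γ : ℝ)
    (hV : 0 ≤ V) (hΓ : 0 ≤ Γ) (F G : ℕ → ℝ) (b : Option (Fin (s + 1)) → ℕ)
    (hcell : ∀ o j ρ, |cell F M (b o) j ρ| ≤ V) (hG : ∀ x, |G x| ≤ V)
    (hGd : ∀ x t : ℕ, |G (x + t) - G x| ≤ V * t * Γ) (x k x' k' : ℕ) (hx' : x' < M)
    (hk' : k' < M) :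
    |G (x + x') * ∏ o, Fm F M (b o) (x + x' + sh d (K * (k + k')) o) -
      G x * ∏ o, cell F M (b o) ((x + sh d (K * k) o) / 2 ^ (b o))
        ((x + x' + sh d (K * (k + k')) o : ℕ) : ZMod M)| ≤
    V * V ^ (s + 2) * (M * Γ) + 2 * (V * V ^ (s + 2)) *
      ∑ o, (if 2 ^ (b o) ≤ (x + sh d (K * k) o) % 2 ^ (b o) + fz_dl d K M k o
        then (1 : ℝ) else 0) := by
  have hcard : Fintype.card (Option (Fin (s + 1))) = s + 2 := by simp
  have hP1 := fz_prod (fun o => Fm F M (b o) (x + x' + sh d (K * (k + k')) o)) V (s + 2) hcard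
    (fun o => hcell _ _ _)
  have hP2 := fz_prod (fun o => cell F M (b o) ((x + sh d (K * k) o) / 2 ^ (b o))
    ((x + x' + sh d (K * (k + k')) o : ℕ) : ZMod M)) V (s + 2) hcard (fun o => hcell _ _ _)
  have hB : 0 ≤ V * V ^ (s + 2) := by (clear * - hV; positivity)
  have hind : ∀ o : Option (Fin (s + 1)), (0 : ℝ) ≤
      (if 2 ^ (b o) ≤ (x + sh d (K * k) o) % 2 ^ (b o) + fz_dl d K M k o
        then (1 : ℝ) else 0) := fun o => by split_ifs <;> norm_num
  by_cases hbad : ∃ o, 2 ^ (b o) ≤ (x + sh d (K * k) o) % 2 ^ (b o) + fz_dl d K M k o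
  · obtain ⟨o, ho⟩ := hbad
    have h1 : (1 : ℝ) ≤ ∑ o, (if 2 ^ (b o) ≤ (x + sh d (K * k) o) % 2 ^ (b o) + fz_dl d K M k o
        then (1 : ℝ) else 0) := by
      have := Finset.single_le_sum (f := fun o =>
        (if 2 ^ (b o) ≤ (x + sh d (K * k) o) % 2 ^ (b o) + fz_dl d K M k o
        then (1 : ℝ) else 0)) (fun o _ => hind o) (mem_univ o)
      simpa [ho] using this
    exact by
      have h2 : |G (x + x') * ∏ o, Fm F M (b o) (x + x' + sh d (K * (k + k')) o)| ≤
          V * V ^ (s + 2) := by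
        rw [abs_mul]; exact mul_le_mul (hG _) hP1 (abs_nonneg _) hV
      have h3 : |G x * ∏ o, cell F M (b o) ((x + sh d (K * k) o) / 2 ^ (b o))
          ((x + x' + sh d (K * (k + k')) o : ℕ) : ZMod M)| ≤ V * V ^ (s + 2) := by
        rw [abs_mul]; exact mul_le_mul (hG _) hP2 (abs_nonneg _) hV
      have h4 := abs_sub (G (x + x') * ∏ o, Fm F M (b o) (x + x' + sh d (K * (k + k')) o))
        (G x * ∏ o, cell F M (b o) ((x + sh d (K * k) o) / 2 ^ (b o))
          ((x + x' + sh d (K * (k + k')) o : ℕ) : ZMod M))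
      have h5 : 0 ≤ V * V ^ (s + 2) * (M * Γ) := by (clear * - hV hΓ; positivity)
      (clear * - h2 h3 h4 h5 hB h1; nlinarith)
  exact by
    · push Not at hbad
      have hsame : ∀ o, Fm F M (b o) (x + x' + sh d (K * (k + k')) o) =
          cell F M (b o) ((x + sh d (K * k) o) / 2 ^ (b o))
          ((x + x' + sh d (K * (k + k')) o : ℕ) : ZMod M) := by
        intro o
        unfold Fm
        congr 1
        have hm1 : (sh d (K * k) o : ℕ) ≤ sh d (K * (k + k')) o :=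
          fz_sh_mono d (Nat.mul_le_mul_left _ (by omega)) o
        have hm2 : (sh d (K * (k + k')) o : ℕ) ≤ sh d (K * (k + M)) o :=
          fz_sh_mono d (Nat.mul_le_mul_left _ (by omega)) o
        have hd := hbad o
        unfold fz_dl at hd
        exact fz_block (2 ^ (b o)) (x + sh d (K * k) o) (x + x' + sh d (K * (k + k')) o)
          (M + (sh d (K * (k + M)) o - sh d (K * k) o)) (by omega) (by omega) (by omega)
      exact by
        rw [prod_congr rfl fun o _ => hsame o, ← sub_mul, abs_mul]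
        have h1 : |G (x + x') - G x| ≤ V * (M * Γ) := by
          refine (hGd x x').trans ?_
          rw [mul_assoc]
          have : (x' : ℝ) ≤ M := by exact_mod_cast hx'.le
          (clear * - this hΓ hV; gcongr)
        have h2 := mul_le_mul h1 hP2 (abs_nonneg _) (by (clear * - hV hΓ; positivity))
        have h3 : 0 ≤ 2 * (V * V ^ (s + 2)) *
          ∑ o, (if 2 ^ (b o) ≤ (x + sh d (K * k) o) % 2 ^ (b o) + fz_dl d K M k o
            then (1 : ℝ) else 0) := mul_nonneg (by (clear * - hV; positivity)) (sum_nonneg fun o _ => hind o)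
        (clear * - h2 h3; nlinarith)

/-- number of bad `x` -/
theorem fz_bad {s : ℕ} (d : Fin (s + 1) → ℕ) (K M k z : ℕ)
    (b : Option (Fin (s + 1)) → ℕ) (hb : ∀ o, b o ≤ z) (η : ℝ)
    (hη : ∀ o, (fz_dl d K M k o : ℝ) / 2 ^ (b o) ≤ η) :
    ∑ x ∈ range (2 ^ z), ∑ o, (if 2 ^ (b o) ≤ (x + sh d (K * k) o) % 2 ^ (b o) + fz_dl d K M k o
        then (1 : ℝ) else 0) ≤ 2 ^ z * ((s + 2) * η) := by
  rw [sum_comm]
  have h1 : ∀ o : Option (Fin (s + 1)), ∑ x ∈ range (2 ^ z),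
      (if 2 ^ (b o) ≤ (x + sh d (K * k) o) % 2 ^ (b o) + fz_dl d K M k o
        then (1 : ℝ) else 0) ≤ 2 ^ z * η := by
    intro o
    rw [← Finset.sum_filter, sum_const, nsmul_eq_mul, mul_one]
    have h2 := fz_count (2 ^ (b o)) (2 ^ (z - b o)) (sh d (K * k) o) (fz_dl d K M k o)
      (by positivity)
    rw [← pow_add, Nat.add_sub_cancel' (hb o)] at h2
    have h3 : (((range (2 ^ z)).filter (fun x => 2 ^ (b o) ≤ (x + sh d (K * k) o) % 2 ^ (b o) +
        fz_dl d K M k o)).card : ℝ) ≤ 2 ^ (z - b o) * (fz_dl d K M k o : ℝ) := by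
      exact_mod_cast h2
    refine h3.trans ?_
    have h4 : (2 : ℝ) ^ z = 2 ^ (z - b o) * 2 ^ (b o) := by
      rw [← pow_add, Nat.sub_add_cancel (hb o)]
    have h5 := hη o
    rw [div_le_iff₀ (by positivity)] at h5
    rw [h4, mul_assoc]
    refine mul_le_mul_of_nonneg_left ?_ (by positivity)
    (clear * - h5; linarith)
  refine (sum_le_sum fun o _ => h1 o).trans (le_of_eq ?_)
  rw [sum_const, card_univ, nsmul_eq_mul]
  simp only [Fintype.card_option, Fintype.card_fin]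
  push_cast
  ring

/-- the quantitative comparison -/
theorem fz_main {s : ℕ} (d : Fin (s + 1) → ℕ) (K M u T z : ℕ) [NeZero M] (V Γ η : ℝ)
    (hV : 0 ≤ V) (hΓ : 0 ≤ Γ) (hT : 0 < T) (F G : ℕ → ℝ) (b : Option (Fin (s + 1)) → ℕ)
    (hcell : ∀ o j ρ, |cell F M (b o) j ρ| ≤ V) (hG : ∀ x, |G x| ≤ V)
    (hGd : ∀ x t : ℕ, |G (x + t) - G x| ≤ V * t * Γ) (hb : ∀ o, b o ≤ z)
    (hη : ∀ k ∈ Ico u (u + T), ∀ o, (fz_dl d K M k o : ℝ) / 2 ^ (b o) ≤ η) :
    |nform d K u T (2 ^ z) G (fun o => Fm F M (b o)) -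
      𝔼 k ∈ Ico u (u + T), (∑ x ∈ range (2 ^ z), G x *
        lfm d K M (fun o => cell F M (b o) ((x + sh d (K * k) o) / 2 ^ (b o)))) / 2 ^ z| ≤
    2 * M * (V * V ^ (s + 2)) / T + 2 * M * (V * V ^ (s + 2)) / 2 ^ z +
      V * V ^ (s + 2) * (M * Γ) + 2 * (V * V ^ (s + 2)) * ((s + 2) * η) := by
  set B : ℝ := V * V ^ (s + 2) with hBdef
  have hB0 : 0 ≤ B := by (clear * - hV; positivity)
  have hM0 : (0 : ℝ) < M := Nat.cast_pos.2 (Nat.pos_of_ne_zero (NeZero.ne M))
  have hT0 : (0 : ℝ) < T := Nat.cast_pos.2 hT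
  have hZ0 : (0 : ℝ) < 2 ^ z := by positivity
  have hcard : Fintype.card (Option (Fin (s + 1))) = s + 2 := by simp
  exact by
    set Φ : ℕ → ℕ → ℝ := fun x k => G x * ∏ o, Fm F M (b o) (x + sh d (K * k) o) with hΦdef
    have hΦ : ∀ x k, |Φ x k| ≤ B := by
      intro x k
      rw [hΦdef, abs_mul]
      exact mul_le_mul (hG _) (fz_prod _ V (s + 2) hcard fun o => hcell _ _ _) (abs_nonneg _) hV
    set Ψ : ℕ → ℕ → ℝ := fun x k => G x *
      lfm d K M (fun o => cell F M (b o) ((x + sh d (K * k) o) / 2 ^ (b o))) with hΨdef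
    set Φ' : ℕ → ℕ → ℕ → ℕ → ℝ := fun x k x' k' => G x *
      ∏ o, cell F M (b o) ((x + sh d (K * k) o) / 2 ^ (b o))
          ((x + x' + sh d (K * (k + k')) o : ℕ) : ZMod M) with hΦ'def
    have hexact : ∀ x k, ∑ x' ∈ range M, ∑ k' ∈ range M, Φ' x k x' k' = (M : ℝ) ^ 2 * Ψ x k := by
      intro x k
      simp only [hΦ'def, hΨdef, ← Finset.mul_sum]
      rw [fz_lfm d K M (fun o => cell F M (b o) ((x + sh d (K * k) o) / 2 ^ (b o))) x k]
      ring
    set S0 : ℝ := ∑ k ∈ Ico u (u + T), ∑ x ∈ range (2 ^ z), Φ x k with hS0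
    exact by
      set S1 : ℝ := ∑ k ∈ Ico u (u + T), ∑ x ∈ range (2 ^ z), Ψ x k with hS1
      -- first comparison
      have hA : ∀ x' ∈ range M, ∀ k' ∈ range M,
          |∑ k ∈ Ico u (u + T), ∑ x ∈ range (2 ^ z), Φ (x + x') (k + k') - S0| ≤
            2 * M * B * T + 2 * M * B * 2 ^ z := by
        intro x' hx' k' hk'
        have hx'M : (x' : ℝ) ≤ M := by exact_mod_cast (mem_range.1 hx').le
        have hk'M : (k' : ℝ) ≤ M := by exact_mod_cast (mem_range.1 hk').le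
        have h1 : |∑ k ∈ Ico u (u + T), ∑ x ∈ range (2 ^ z), Φ (x + x') (k + k') -
            ∑ k ∈ Ico u (u + T), ∑ x ∈ range (2 ^ z), Φ x (k + k')| ≤ 2 * M * B * T := by
          rw [← Finset.sum_sub_distrib]
          refine (Finset.abs_sum_le_sum_abs _ _).trans ?_
          have h2 : ∀ k ∈ Ico u (u + T), |∑ x ∈ range (2 ^ z), Φ (x + x') (k + k') -
              ∑ x ∈ range (2 ^ z), Φ x (k + k')| ≤ 2 * M * B := by
            intro k _
            refine (fz_shift (fun x => Φ x (k + k')) B (fun x => hΦ _ _) (2 ^ z) x').trans ?_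
            (clear * - hx'M hV; gcongr)
          refine (sum_le_sum h2).trans (le_of_eq ?_)
          rw [sum_const, Nat.card_Ico, nsmul_eq_mul, Nat.add_sub_cancel_left]
          ring
        have h3 : |∑ k ∈ Ico u (u + T), ∑ x ∈ range (2 ^ z), Φ x (k + k') - S0| ≤
            2 * M * B * 2 ^ z := by
          have h4 : ∀ k, |∑ x ∈ range (2 ^ z), Φ x k| ≤ 2 ^ z * B := by
            intro k
            refine (Finset.abs_sum_le_sum_abs _ _).trans ?_
            refine (sum_le_sum fun x _ => hΦ x k).trans (le_of_eq ?_)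
            rw [sum_const, card_range, nsmul_eq_mul]
            push_cast
            ring
          refine (fz_shift_Ico (fun k => ∑ x ∈ range (2 ^ z), Φ x k) (2 ^ z * B) h4 u T k').trans ?_
          calc 2 * (k' : ℝ) * (2 ^ z * B) ≤ 2 * M * (2 ^ z * B) := by (clear * - hk'M hV; gcongr)
            _ = 2 * M * B * 2 ^ z := by ring
        calc |∑ k ∈ Ico u (u + T), ∑ x ∈ range (2 ^ z), Φ (x + x') (k + k') - S0|
            ≤ |∑ k ∈ Ico u (u + T), ∑ x ∈ range (2 ^ z), Φ (x + x') (k + k') -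
            ∑ k ∈ Ico u (u + T), ∑ x ∈ range (2 ^ z), Φ x (k + k')| +
            |∑ k ∈ Ico u (u + T), ∑ x ∈ range (2 ^ z), Φ x (k + k') - S0| := abs_sub_le _ _ _
          _ ≤ _ := add_le_add h1 h3
      -- second comparison
      have hC : ∀ x' ∈ range M, ∀ k' ∈ range M,
          |∑ k ∈ Ico u (u + T), ∑ x ∈ range (2 ^ z), Φ (x + x') (k + k') -
            ∑ k ∈ Ico u (u + T), ∑ x ∈ range (2 ^ z), Φ' x k x' k'| ≤
            T * (2 ^ z * (B * (M * Γ)) + 2 * B * (2 ^ z * ((s + 2) * η))) := by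
        intro x' hx' k' hk'
        rw [← Finset.sum_sub_distrib]
        refine (Finset.abs_sum_le_sum_abs _ _).trans ?_
        have h2 : ∀ k ∈ Ico u (u + T), |∑ x ∈ range (2 ^ z), Φ (x + x') (k + k') -
              ∑ x ∈ range (2 ^ z), Φ' x k x' k'| ≤
              2 ^ z * (B * (M * Γ)) + 2 * B * (2 ^ z * ((s + 2) * η)) := by
          intro k hk
          rw [← Finset.sum_sub_distrib]
          refine (Finset.abs_sum_le_sum_abs _ _).trans ?_
          refine (sum_le_sum fun x _ => fz_point d K M V Γ hV hΓ F G b hcell hG hGd x k x' k'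
            (mem_range.1 hx') (mem_range.1 hk')).trans ?_
          rw [sum_add_distrib, sum_const, card_range, nsmul_eq_mul, ← Finset.mul_sum]
          push_cast
          have h5 := fz_bad d K M k z b hb η (hη k hk)
          (clear * - h5 hV; gcongr)
        refine (sum_le_sum h2).trans (le_of_eq ?_)
        rw [sum_const, Nat.card_Ico, nsmul_eq_mul, Nat.add_sub_cancel_left]
      have hD : ∑ x' ∈ range M, ∑ k' ∈ range M,
          ∑ k ∈ Ico u (u + T), ∑ x ∈ range (2 ^ z), Φ' x k x' k' = (M : ℝ) ^ 2 * S1 := by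
        rw [hS1, Finset.mul_sum]
        have h1 : ∀ x' : ℕ, ∑ k' ∈ range M,
          ∑ k ∈ Ico u (u + T), ∑ x ∈ range (2 ^ z), Φ' x k x' k' =
            ∑ k ∈ Ico u (u + T), ∑ x ∈ range (2 ^ z), ∑ k' ∈ range M, Φ' x k x' k' := by
          intro x'
          rw [sum_comm]
          exact sum_congr rfl fun k _ => sum_comm
        rw [sum_congr rfl fun x' _ => h1 x', sum_comm]
        refine sum_congr rfl fun k _ => ?_
        rw [sum_comm, Finset.mul_sum]
        exact sum_congr rfl fun x _ => hexact x k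
      have hE : |(M : ℝ) ^ 2 * S0 - (M : ℝ) ^ 2 * S1| ≤ (M : ℝ) ^ 2 *
          ((2 * M * B * T + 2 * M * B * 2 ^ z) +
            T * (2 ^ z * (B * (M * Γ)) + 2 * B * (2 ^ z * ((s + 2) * η)))) := by
        have h1 : (M : ℝ) ^ 2 * S0 = ∑ x' ∈ range M, ∑ k' ∈ range M, S0 := by
          rw [sum_const, sum_const, card_range, nsmul_eq_mul, nsmul_eq_mul]; ring
        rw [h1, ← hD, ← Finset.sum_sub_distrib]
        refine (Finset.abs_sum_le_sum_abs _ _).trans ?_
        have h2 : ∀ x' ∈ range M, |∑ k' ∈ range M, S0 -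
            ∑ k' ∈ range M, ∑ k ∈ Ico u (u + T), ∑ x ∈ range (2 ^ z), Φ' x k x' k'| ≤
            M * ((2 * M * B * T + 2 * M * B * 2 ^ z) +
            T * (2 ^ z * (B * (M * Γ)) + 2 * B * (2 ^ z * ((s + 2) * η)))) := by
          intro x' hx'
          rw [← Finset.sum_sub_distrib]
          refine (Finset.abs_sum_le_sum_abs _ _).trans ?_
          have h3 : ∀ k' ∈ range M, |S0 -
              ∑ k ∈ Ico u (u + T), ∑ x ∈ range (2 ^ z), Φ' x k x' k'| ≤
              (2 * M * B * T + 2 * M * B * 2 ^ z) +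
              T * (2 ^ z * (B * (M * Γ)) + 2 * B * (2 ^ z * ((s + 2) * η))) := by
            intro k' hk'
            have h4 := hA x' hx' k' hk'
            rw [abs_sub_comm] at h4
            exact (abs_sub_le _ _ _).trans (add_le_add h4 (hC x' hx' k' hk'))
          refine (sum_le_sum h3).trans (le_of_eq ?_)
          rw [sum_const, card_range, nsmul_eq_mul]
        refine (sum_le_sum h2).trans (le_of_eq ?_)
        rw [sum_const, card_range, nsmul_eq_mul]
        ring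
      have hF : |S0 - S1| ≤ (2 * M * B * T + 2 * M * B * 2 ^ z) +
            T * (2 ^ z * (B * (M * Γ)) + 2 * B * (2 ^ z * ((s + 2) * η))) := by
        rw [← mul_sub, abs_mul, abs_of_nonneg (by positivity : (0 : ℝ) ≤ (M : ℝ) ^ 2)] at hE
        exact le_of_mul_le_mul_left hE (by (clear * - hM0; positivity))
      exact by
        have hG1 : nform d K u T (2 ^ z) G (fun o => Fm F M (b o)) = S0 / (T * 2 ^ z) := by
          unfold nform
          rw [Finset.expect_eq_sum_div_card, Nat.card_Ico, Nat.add_sub_cancel_left, ← Finset.sum_div,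
            hS0]
          push_cast
          rw [div_div, mul_comm ((2 : ℝ) ^ z)]
        have hG2 : 𝔼 k ∈ Ico u (u + T), (∑ x ∈ range (2 ^ z), G x *
              lfm d K M (fun o => cell F M (b o) ((x + sh d (K * k) o) / 2 ^ (b o)))) / 2 ^ z =
            S1 / (T * 2 ^ z) := by
          rw [Finset.expect_eq_sum_div_card, Nat.card_Ico, Nat.add_sub_cancel_left, ← Finset.sum_div,
            hS1]
          rw [div_div, mul_comm ((2 : ℝ) ^ z)]
        rw [hG1, hG2, ← sub_div, abs_div, abs_of_pos (by positivity : (0 : ℝ) < T * 2 ^ z),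
          div_le_iff₀ (by positivity)]
        refine hF.trans (le_of_eq ?_)
        field_simp
        ring

theorem fz_pow_sub (a m : ℝ) (ha : 0 ≤ a) (hm : 0 ≤ m) (n : ℕ) :
    (a + m) ^ (n + 1) ≤ a ^ (n + 1) + (n + 1) * m * (a + m) ^ n := by
  induction n with
  | zero => simp
  | succ n ih =>
    have h1 : (a + m) ^ (n + 1 + 1) ≤ (a ^ (n + 1) + (n + 1) * m * (a + m) ^ n) * (a + m) := by
      rw [pow_succ]
      exact mul_le_mul_of_nonneg_right ih (by positivity)
    have h2 : a ^ (n + 1) * m ≤ (a + m) ^ (n + 1) * m :=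
      mul_le_mul_of_nonneg_right (pow_le_pow_left₀ ha (by linarith) _) hm
    have h3 : (a ^ (n + 1) + (n + 1) * m * (a + m) ^ n) * (a + m) =
        a ^ (n + 1 + 1) + a ^ (n + 1) * m + (n + 1) * m * (a + m) ^ (n + 1) := by ring
    rw [h3] at h1
    push_cast
    (clear * - h1 h2; nlinarith)

/-- bound for the shift in a block -/
theorem fz_eta {s : ℕ} (d : Fin (s + 1) → ℕ) (hd2 : ∀ i, 2 ≤ d i) (γ ε D : ℝ)
    (hγ : 1 ≤ γ) (hε : 0 < ε) (hε' : ε ≤ 1 / 8) (hD : 1 ≤ D) (K M k : ℕ)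
    (hK : 1 ≤ K) (hk : (k : ℝ) + M ≤ 3 * D) (b : Option (Fin (s + 1)) → ℕ)
    (hb : BlkLen d γ ε D b) (o : Option (Fin (s + 1))) :
    (fz_dl d K M k o : ℝ) / 2 ^ (b o) ≤
      4 * (1 + (∑ i, d i : ℕ) * 3 ^ (∑ i, d i)) * (M * (K : ℝ) ^ (∑ i, d i)) /
        D ^ (3 / 4 : ℝ) := by
  have hD0 : 0 < D := by linarith
  have hK1 : (1 : ℝ) ≤ K := by exact_mod_cast hK
  have hM0 : (0 : ℝ) ≤ M := Nat.cast_nonneg _
  have hK2 : (1 : ℝ) ≤ (K : ℝ) ^ (∑ i, d i) := one_le_pow₀ hK1
  have hY : 0 < D ^ (3 / 4 : ℝ) := Real.rpow_pos_of_pos hD0 _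
  have hE : (1 : ℝ) ≤ 1 + (∑ i, d i : ℕ) * 3 ^ (∑ i, d i) := by
    have : (0 : ℝ) ≤ (∑ i, d i : ℕ) * 3 ^ (∑ i, d i) := by (clear * -; positivity)
    (clear * - this; linarith)
  exact by
    cases o with
    | none =>
      have h1 : (fz_dl d K M k none : ℝ) = M := by simp [fz_dl, sh]
      exact by
        rw [h1]
        have h2 : D ^ (3 / 4 : ℝ) / 4 ≤ 2 ^ (b none) := by
          refine le_trans ?_ hb.1.1
          have : D ^ (3 / 4 : ℝ) ≤ D ^ (γ - 2 * ε) :=
            Real.rpow_le_rpow_of_exponent_le hD (by (clear * - hγ hε'; linarith))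
          (clear * - this; linarith)
        rw [div_le_div_iff₀ (by positivity) hY]
        have h3 : (M : ℝ) * 1 ≤ M * (K : ℝ) ^ (∑ i, d i) := mul_le_mul_of_nonneg_left hK2 hM0
        calc (M : ℝ) * D ^ (3 / 4 : ℝ) ≤ M * (4 * 2 ^ (b none)) :=
              mul_le_mul_of_nonneg_left (by (clear * - h2; linarith)) hM0
          _ = 4 * 1 * (M * 1) * 2 ^ (b none) := by ring
          _ ≤ 4 * (1 + (∑ i, d i : ℕ) * 3 ^ (∑ i, d i)) * (M * (K : ℝ) ^ (∑ i, d i)) *
              2 ^ (b none) := by (clear * - hE h3; gcongr)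
    | some i =>
      obtain ⟨n, hn⟩ : ∃ n, d i = n + 1 := ⟨d i - 1, by have := hd2 i; omega⟩
      exact by
        have hdi : d i ≤ ∑ i, d i := Finset.single_le_sum (fun _ _ => Nat.zero_le _) (mem_univ i)
        have hk0 : (0 : ℝ) ≤ k := Nat.cast_nonneg _
        -- the shift
        have h1 : (fz_dl d K M k (some i) : ℝ) ≤
            M + (K : ℝ) ^ (n + 1) * ((n + 1) * M * (3 * D) ^ n) := by
          have h2 : (sh d (K * k) (some i) : ℕ) ≤ sh d (K * (k + M)) (some i) :=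
            fz_sh_mono d (Nat.mul_le_mul_left _ (by omega)) _
          unfold fz_dl
          rw [Nat.cast_add, Nat.cast_sub h2]
          simp only [sh, hn, Nat.cast_pow, Nat.cast_mul, Nat.cast_add]
          rw [mul_pow, mul_pow, ← mul_sub]
          have h3 := fz_pow_sub (k : ℝ) M hk0 hM0 n
          have h4 : ((k : ℝ) + M) ^ n ≤ (3 * D) ^ n := pow_le_pow_left₀ (by (clear * -; positivity)) hk n
          have h5 : ((k : ℝ) + M) ^ (n + 1) - (k : ℝ) ^ (n + 1) ≤ (n + 1) * M * (3 * D) ^ n := by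
            have : ((n : ℝ) + 1) * M * ((k : ℝ) + M) ^ n ≤ (n + 1) * M * (3 * D) ^ n := by (clear * - h4; gcongr)
            (clear * - h3 this; linarith)
          have := mul_le_mul_of_nonneg_left h5 (by positivity : (0 : ℝ) ≤ (K : ℝ) ^ (n + 1))
          (clear * - this; linarith)
        have h2 : D ^ n * D ^ (3 / 4 : ℝ) / 4 ≤ 2 ^ (b (some i)) := by
          refine le_trans ?_ (hb.2 i).1
          have : D ^ n * D ^ (3 / 4 : ℝ) ≤ D ^ ((d i : ℝ) - 2 * ε) := by
            rw [← Real.rpow_natCast D n, ← Real.rpow_add hD0]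
            refine Real.rpow_le_rpow_of_exponent_le hD ?_
            rw [hn]; push_cast; (clear * - hε'; linarith)
          (clear * - this; linarith)
        have hDn : (1 : ℝ) ≤ D ^ n := one_le_pow₀ hD
        rw [div_le_div_iff₀ (by positivity) hY]
        have hKn : (1 : ℝ) ≤ (K : ℝ) ^ (n + 1) := one_le_pow₀ hK1
        exact by
          have hKd : (K : ℝ) ^ (n + 1) ≤ (K : ℝ) ^ (∑ i, d i) :=
            pow_le_pow_right₀ hK1 (by omega)
          have h3n : ((3 : ℝ)) ^ n ≤ 3 ^ (∑ i, d i) := pow_le_pow_right₀ (by norm_num) (by omega)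
          have hn1 : (n : ℝ) + 1 ≤ (∑ i, d i : ℕ) := by
            have : n + 1 ≤ ∑ i, d i := by omega
            exact_mod_cast this
          have h5 : (M : ℝ) + (K : ℝ) ^ (n + 1) * ((n + 1) * M * (3 * D) ^ n) ≤
              (1 + (∑ i, d i : ℕ) * 3 ^ (∑ i, d i)) * (M * (K : ℝ) ^ (∑ i, d i)) * D ^ n := by
            have h6 : (M : ℝ) ≤ M * (K : ℝ) ^ (∑ i, d i) * D ^ n := by
              have : (M : ℝ) * 1 * 1 ≤ M * (K : ℝ) ^ (∑ i, d i) * D ^ n := by (clear * - hK2 hDn hK; gcongr)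
              (clear * - this; linarith)
            have h7 : (K : ℝ) ^ (n + 1) * ((n + 1) * M * (3 * D) ^ n) ≤
                (∑ i, d i : ℕ) * 3 ^ (∑ i, d i) * (M * (K : ℝ) ^ (∑ i, d i)) * D ^ n := by
              calc (K : ℝ) ^ (n + 1) * ((n + 1) * M * (3 * D) ^ n)
                  = ((n : ℝ) + 1) * 3 ^ n * (M * (K : ℝ) ^ (n + 1)) * D ^ n := by
                    rw [mul_pow]; ring
                _ ≤ _ := by (clear * - hn1 h3n hKd hK hD; gcongr)
            calc _ ≤ M * (K : ℝ) ^ (∑ i, d i) * D ^ n + (∑ i, d i : ℕ) * 3 ^ (∑ i, d i) *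
                  (M * (K : ℝ) ^ (∑ i, d i)) * D ^ n := add_le_add h6 h7
              _ = _ := by ring
          calc (fz_dl d K M k (some i) : ℝ) * D ^ (3 / 4 : ℝ)
              ≤ ((1 + (∑ i, d i : ℕ) * 3 ^ (∑ i, d i)) * (M * (K : ℝ) ^ (∑ i, d i)) * D ^ n) *
                D ^ (3 / 4 : ℝ) := mul_le_mul_of_nonneg_right (h1.trans h5) hY.le
            _ = 4 * (1 + (∑ i, d i : ℕ) * 3 ^ (∑ i, d i)) * (M * (K : ℝ) ^ (∑ i, d i)) *
                (D ^ n * D ^ (3 / 4 : ℝ) / 4) := by ring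
            _ ≤ _ := mul_le_mul_of_nonneg_left h2 (by (clear * - hK; positivity))

end

end Pool.Agent.Helper67.NX2

end

section

set_option autoImplicit false

open Finset

open scoped BigOperators ComplexConjugate

namespace Pool.Agent.Helper67.NX2

open Pool.Agent.Helper57.NX

noncomputable section

namespace B8

theorem bl_eq (b j : ℕ) : bl b j = Ico (2 ^ b * j) (2 ^ b * j + 2 ^ b) := by
  unfold bl
  rw [Nat.mul_succ]

end B8

end

end Pool.Agent.Helper67.NX2

end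

section

set_option autoImplicit false

open Finset

open scoped BigOperators ComplexConjugate

namespace Pool.Agent.Helper67.NX2

open Pool.Agent.Helper57.NX

noncomputable section

theorem gmm_DS_congr (F : ℕ → ℝ) (K r1 b j : ℕ) (S : Finset ℕ) {κ κ' : ℕ} {ω ω' : ℕ → ℕ}
    (hκ : κ ≡ κ' [MOD K]) (hω : ∀ p ∈ S, ω p ≡ ω' p [MOD p ^ r1]) :
    DS F K r1 b j S κ ω = DS F K r1 b j S κ' ω' := by
  unfold DS
  congr 1
  refine Finset.sum_congr rfl fun y _ => ?_
  have h1 : (y ≡ κ [MOD K]) ↔ (y ≡ κ' [MOD K]) := ⟨fun h => h.trans hκ, fun h => h.trans hκ.symm⟩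
  have h2 : ∏ p ∈ S, ((if y ≡ ω p [MOD p ^ r1] then (p : ℝ) ^ r1 else 0) - 1) =
      ∏ p ∈ S, ((if y ≡ ω' p [MOD p ^ r1] then (p : ℝ) ^ r1 else 0) - 1) := by
    refine Finset.prod_congr rfl fun p hp => ?_
    have h3 : (y ≡ ω p [MOD p ^ r1]) ↔ (y ≡ ω' p [MOD p ^ r1]) :=
      ⟨fun h => h.trans (hω p hp), fun h => h.trans (hω p hp).symm⟩
    simp only [h3]
  rw [h2]
  simp only [h1]

theorem gmm_card_bl (b j : ℕ) : (bl b j).card = 2 ^ b := by
  unfold bl
  rw [Nat.card_Ico, Nat.mul_succ, Nat.add_sub_cancel_left]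

theorem gmm_DS_le (F : ℕ → ℝ) (K r1 r0 b j R : ℕ) (B0 : ℝ) (hF : ∀ x, |F x| ≤ B0) (S : Finset ℕ)
    (hS : ∀ p ∈ S, 1 ≤ p ∧ p ≤ R) (hR : 1 ≤ R) (hcard : S.card ≤ r0) (κ : ℕ) (ω : ℕ → ℕ) :
    |DS F K r1 b j S κ ω| ≤ B0 * K * (R : ℝ) ^ (r0 * r1) := by
  have hB0 : 0 ≤ B0 := (abs_nonneg _).trans (hF 0)
  have hR' : (1 : ℝ) ≤ R := by exact_mod_cast hR
  unfold DS
  rw [abs_div, abs_of_pos (by positivity : (0 : ℝ) < 2 ^ b), div_le_iff₀ (by positivity)]
  refine (Finset.abs_sum_le_sum_abs _ _).trans ?_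
  calc ∑ y ∈ bl b j, |F y * (if y ≡ κ [MOD K] then (K : ℝ) else 0) *
        ∏ p ∈ S, ((if y ≡ ω p [MOD p ^ r1] then (p : ℝ) ^ r1 else 0) - 1)|
      ≤ ∑ _y ∈ bl b j, B0 * K * (R : ℝ) ^ (r0 * r1) := by
        refine Finset.sum_le_sum fun y _ => ?_
        rw [abs_mul, abs_mul]
        refine mul_le_mul (mul_le_mul (hF y) ?_ (abs_nonneg _) hB0) ?_ (abs_nonneg _)
          (by (clear * - hB0; positivity))
        · split_ifs
          · rw [Nat.abs_cast]
          · rw [abs_zero]; positivity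
        · rw [Finset.abs_prod]
          calc ∏ p ∈ S, |(if y ≡ ω p [MOD p ^ r1] then (p : ℝ) ^ r1 else 0) - 1|
              ≤ ∏ _p ∈ S, (R : ℝ) ^ r1 := by
                refine Finset.prod_le_prod (fun p _ => abs_nonneg _) fun p hp => ?_
                have h1 : (1 : ℝ) ≤ p := by exact_mod_cast (hS p hp).1
                have h2 : (p : ℝ) ≤ R := by exact_mod_cast (hS p hp).2
                have h3 : (1 : ℝ) ≤ (p : ℝ) ^ r1 := one_le_pow₀ h1
                have h4 : (p : ℝ) ^ r1 ≤ (R : ℝ) ^ r1 := pow_le_pow_left₀ (by (clear * - h1; linarith)) h2 _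
                split_ifs
                · rw [abs_of_nonneg (by (clear * - h3; linarith))]
                  linarith
                · rw [zero_sub, abs_neg, abs_one]
                  linarith
            _ = (R : ℝ) ^ (r1 * S.card) := by rw [Finset.prod_const, ← pow_mul]
            _ ≤ (R : ℝ) ^ (r0 * r1) := by
                refine pow_le_pow_right₀ hR' ?_
                rw [mul_comm]
                exact Nat.mul_le_mul_right r1 hcard
    _ = B0 * K * (R : ℝ) ^ (r0 * r1) * 2 ^ b := by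
        rw [Finset.sum_const, gmm_card_bl, nsmul_eq_mul]
        push_cast
        ring

theorem gmm_periodic_avg (M b j : ℕ) (hM : 1 ≤ M) (Φ : ℕ → ℝ) (B : ℝ) (hΦ : ∀ x, |Φ x| ≤ B)
    (hper : ∀ x, Φ (x + M) = Φ x) :
    |(∑ x ∈ bl b j, Φ x) / 2 ^ b - 𝔼 x ∈ range M, Φ x| ≤ 2 * M * B / 2 ^ b := by
  have hB : 0 ≤ B := (abs_nonneg _).trans (hΦ 0)
  have hM0 : (0 : ℝ) < M := by exact_mod_cast hM
  -- sums over complete periods
  have hfull : ∀ a : ℕ, ∑ x ∈ Ico a (a + M), Φ x = ∑ x ∈ range M, Φ x := by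
    intro a
    induction a with
    | zero => rw [zero_add, Finset.range_eq_Ico]
    | succ a ih =>
      have h1 : ∑ x ∈ Ico a (a + M), Φ x = Φ a + ∑ x ∈ Ico (a + 1) (a + M), Φ x :=
        Finset.sum_eq_sum_Ico_succ_bot (by omega) Φ
      have h2 : ∑ x ∈ Ico (a + 1) (a + 1 + M), Φ x =
          ∑ x ∈ Ico (a + 1) (a + M), Φ x + Φ (a + M) := by
        rw [show a + 1 + M = a + M + 1 by ring, Finset.sum_Ico_succ_top (by omega)]
      rw [h2, hper, ← ih, h1, add_comm]
  have hmany : ∀ (m a : ℕ), ∑ x ∈ Ico a (a + M * m), Φ x = m * ∑ x ∈ range M, Φ x := by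
    intro m
    induction m with
    | zero => intro a; simp
    | succ m ih =>
      intro a
      rw [show a + M * (m + 1) = a + M * m + M by ring,
        ← Finset.sum_Ico_consecutive Φ (show a ≤ a + M * m by omega)
          (show a + M * m ≤ a + M * m + M by omega), ih a, hfull]
      push_cast
      ring
  set L := 2 ^ b with hL
  set a := 2 ^ b * j with ha
  exact by
    have hbl : bl b j = Ico a (a + L) := by
      unfold bl
      rw [Nat.mul_succ]
    set m := L / M with hm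
    set r := L % M with hr
    have hLm : M * m + r = L := Nat.div_add_mod L M
    have hrM : r < M := Nat.mod_lt _ hM
    have hsum : ∑ x ∈ bl b j, Φ x = m * ∑ x ∈ range M, Φ x + ∑ x ∈ Ico (a + M * m) (a + L), Φ x := by
      rw [hbl, ← Finset.sum_Ico_consecutive Φ (show a ≤ a + M * m by omega)
        (show a + M * m ≤ a + L by omega), hmany]
    exact by
      have hrest : |∑ x ∈ Ico (a + M * m) (a + L), Φ x| ≤ M * B := by
        refine (Finset.abs_sum_le_sum_abs _ _).trans ?_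
        refine (Finset.sum_le_card_nsmul _ _ B fun x _ => hΦ x).trans ?_
        rw [Nat.card_Ico, nsmul_eq_mul]
        refine mul_le_mul_of_nonneg_right ?_ hB
        have : a + L - (a + M * m) ≤ M := by omega
        exact_mod_cast this
      have hE : |𝔼 x ∈ range M, Φ x| ≤ B := by
        rw [Finset.expect_eq_sum_div_card, Finset.card_range, abs_div, abs_of_pos hM0,
          div_le_iff₀ hM0]
        refine (Finset.abs_sum_le_sum_abs _ _).trans ?_
        refine (Finset.sum_le_card_nsmul _ _ B fun x _ => hΦ x).trans ?_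
        rw [Finset.card_range, nsmul_eq_mul, mul_comm]
      have hL0 : (0 : ℝ) < (2 : ℝ) ^ b := by positivity
      have hLr : (M : ℝ) * m + r = (2 : ℝ) ^ b := by exact_mod_cast hLm
      have hEs : ∑ x ∈ range M, Φ x = M * 𝔼 x ∈ range M, Φ x := by
        rw [Finset.expect_eq_sum_div_card, Finset.card_range, mul_div_cancel₀ _ hM0.ne']
      have hkey : (∑ x ∈ bl b j, Φ x) / 2 ^ b - 𝔼 x ∈ range M, Φ x =
          (∑ x ∈ Ico (a + M * m) (a + L), Φ x - r * 𝔼 x ∈ range M, Φ x) / 2 ^ b := by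
        rw [eq_div_iff hL0.ne', sub_mul, div_mul_cancel₀ _ hL0.ne', hsum, hEs, ← hLr]
        ring
      rw [hkey, abs_div, abs_of_pos hL0]
      refine div_le_div_of_nonneg_right ?_ hL0.le
      refine (abs_sub _ _).trans ?_
      rw [abs_mul, Nat.abs_cast]
      have hrM' : (r : ℝ) ≤ M := by exact_mod_cast hrM.le
      have h3 : (r : ℝ) * |𝔼 x ∈ range M, Φ x| ≤ M * B :=
        mul_le_mul hrM' hE (abs_nonneg _) hM0.le
      (clear * - hrest h3; linarith)

end

end Pool.Agent.Helper67.NX2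

end

section

set_option autoImplicit false

open Finset

open scoped BigOperators

namespace Pool.Agent.Helper57.NX3

noncomputable section

/-- the indicator function of `A` times `log (2 ^ z)` -/
def FA (z : ℕ) (A : Finset ℕ) (x : ℕ) : ℝ := if x ∈ A then Real.log ((2 : ℝ) ^ z) else 0

/-- the dyadic block of length `2 ^ b` of `x` -/
def blo (b x : ℕ) : Finset ℕ := Ico (2 ^ b * (x / 2 ^ b)) (2 ^ b * (x / 2 ^ b + 1))

/-- cell averages: `M / 2 ^ b` times the sum over the `y` in the dyadic block of `x` with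
`y ≡ x mod M` -/
def cd (f : ℕ → ℝ) (M b x : ℕ) : ℝ :=
  (M : ℝ) / 2 ^ b * ∑ y ∈ (blo b x).filter (fun y => y ≡ x [MOD M]), f y

/-- normalised energy of the cell averages -/
def En (z : ℕ) (A : Finset ℕ) (M b : ℕ) : ℝ :=
  (M.totient : ℝ) / M * ((∑ x ∈ range (2 ^ z), cd (FA z A) M b x ^ 2) / 2 ^ z)

end

end Pool.Agent.Helper57.NX3

end

section

set_option autoImplicit false

open Finset

open scoped BigOperators

namespace Pool.Agent.Helper57.NX3

noncomputable section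

theorem mem_blo {b x y : ℕ} : y ∈ blo b x ↔ y / 2 ^ b = x / 2 ^ b := by
  unfold blo
  have hp : 0 < 2 ^ b := by positivity
  rw [Finset.mem_Ico]
  constructor
  · rintro ⟨h1, h2⟩
    apply le_antisymm
    · apply Nat.lt_succ_iff.mp
      rw [Nat.div_lt_iff_lt_mul hp]
      rw [mul_comm]
      exact h2
    · rw [Nat.le_div_iff_mul_le hp, mul_comm]
      exact h1
  · intro h
    rw [← h]
    exact ⟨Nat.mul_div_le y _, by
      rw [mul_comm]
      exact (Nat.div_lt_iff_lt_mul hp).mp (Nat.lt_succ_self _)⟩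

theorem cd_nonneg {f : ℕ → ℝ} (hf : ∀ x, 0 ≤ f x) (M b x : ℕ) : 0 ≤ cd f M b x := by
  unfold cd
  exact mul_nonneg (by (clear * -; positivity)) (Finset.sum_nonneg fun y _ => hf y)

theorem cell_card {M b : ℕ} (hM : 1 ≤ M) (x : ℕ) :
    |(((blo b x).filter (fun y => y ≡ x [MOD M])).card : ℝ) - 2 ^ b / M| ≤ 1 := by
  have hM0 : (0 : ℝ) < M := by exact_mod_cast hM
  have hMq : (0 : ℚ) < M := by exact_mod_cast hM
  unfold blo
  have h := Nat.Ico_filter_modEq_card (2 ^ b * (x / 2 ^ b)) (2 ^ b * (x / 2 ^ b + 1)) hM x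
  set n : ℕ := ((Ico (2 ^ b * (x / 2 ^ b)) (2 ^ b * (x / 2 ^ b + 1))).filter
    (fun y => y ≡ x [MOD M])).card with hn
  set p : ℚ := (((2 ^ b * (x / 2 ^ b + 1) : ℕ) : ℚ) - (x : ℚ)) / (M : ℚ) with hp
  set q : ℚ := (((2 ^ b * (x / 2 ^ b) : ℕ) : ℚ) - (x : ℚ)) / (M : ℚ) with hq
  have hpq : p = q + 2 ^ b / M := by
    rw [hp, hq]
    push_cast
    field_simp
    ring
  exact by
    have hpos : (0 : ℚ) ≤ 2 ^ b / M := by (clear * - hM; positivity)
    have h1 : (⌈q⌉ : ℤ) ≤ ⌈p⌉ := Int.ceil_mono (by (clear * - hpq hpos; linarith))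
    have h2 : ((n : ℕ) : ℤ) = ⌈p⌉ - ⌈q⌉ := by
      rw [h]
      exact max_eq_left (by (clear * - h1; linarith))
    have h3 : ((n : ℕ) : ℚ) = (⌈p⌉ : ℚ) - (⌈q⌉ : ℚ) := by exact_mod_cast h2
    have a1 := Int.le_ceil p
    have a2 := Int.ceil_lt_add_one p
    exact by
      have a3 := Int.le_ceil q
      have a4 := Int.ceil_lt_add_one q
      have h4 : |((n : ℕ) : ℚ) - 2 ^ b / M| ≤ 1 := by
        rw [abs_le]
        constructor <;> (clear * - hpq h3 a1 a4 a2 a3; linarith)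
      have h5 : (((|((n : ℕ) : ℚ) - 2 ^ b / M| : ℚ)) : ℝ) ≤ ((1 : ℚ) : ℝ) := by exact_mod_cast h4
      push_cast at h5
      exact h5

theorem cell_card_le {M b : ℕ} (hM : 1 ≤ M) (x : ℕ) :
    (M : ℝ) / 2 ^ b * (((blo b x).filter (fun y => y ≡ x [MOD M])).card : ℝ) ≤ 1 + (M : ℝ) / 2 ^ b := by
  have hM0 : (0 : ℝ) < M := by exact_mod_cast hM
  have h := (abs_le.mp (cell_card (b := b) hM x)).2
  have h2 : (((blo b x).filter (fun y => y ≡ x [MOD M])).card : ℝ) ≤ 2 ^ b / M + 1 := by (clear * - h; linarith)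
  calc (M : ℝ) / 2 ^ b * (((blo b x).filter (fun y => y ≡ x [MOD M])).card : ℝ) ≤
      (M : ℝ) / 2 ^ b * (2 ^ b / M + 1) := mul_le_mul_of_nonneg_left h2 (by (clear * - hM; positivity))
    _ = 1 + (M : ℝ) / 2 ^ b := by field_simp

theorem cd_le {f : ℕ → ℝ} {B : ℝ} (hf : ∀ x, 0 ≤ f x) (hB : ∀ x, f x ≤ B) {M b : ℕ} (hM : 1 ≤ M)
    (hMb : M ≤ 2 ^ b) (x : ℕ) : cd f M b x ≤ 2 * B := by
  have hB0 : 0 ≤ B := (hf 0).trans (hB 0)
  have h1 : (M : ℝ) / 2 ^ b ≤ 1 := by
    rw [div_le_one (by positivity)]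
    exact_mod_cast hMb
  unfold cd
  calc (M : ℝ) / 2 ^ b * ∑ y ∈ (blo b x).filter (fun y => y ≡ x [MOD M]), f y
      ≤ (M : ℝ) / 2 ^ b * ∑ _y ∈ (blo b x).filter (fun y => y ≡ x [MOD M]), B :=
        mul_le_mul_of_nonneg_left (Finset.sum_le_sum fun y _ => hB y) (by positivity)
    _ = ((M : ℝ) / 2 ^ b * (((blo b x).filter (fun y => y ≡ x [MOD M])).card : ℝ)) * B := by
        rw [Finset.sum_const, nsmul_eq_mul]
        ring
    _ ≤ 2 * B := mul_le_mul_of_nonneg_right ((cell_card_le hM x).trans (by (clear * - h1; linarith))) hB0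

theorem cd_one (f : ℕ → ℝ) (b x : ℕ) : cd f 1 b x = (∑ y ∈ blo b x, f y) / 2 ^ b := by
  unfold cd
  have h : (blo b x).filter (fun y => y ≡ x [MOD 1]) = blo b x := by
    apply Finset.filter_true_of_mem
    intro y _
    exact Nat.modEq_one
  rw [h]
  push_cast
  ring

/-- the same cell averages as in part B -/
theorem Fm_eq_cd (z : ℕ) (A : Finset ℕ) (M b x : ℕ) :
    Helper67.NX2.Fm (Helper67.NX2.FA z A) M b x = cd (FA z A) M b x := by
  unfold Helper67.NX2.Fm Helper67.NX2.cell cd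
  rw [Finset.sum_filter]
  congr 1
  have h0 : Helper67.NX2.bl b (x / 2 ^ b) = blo b x := rfl
  rw [h0]
  apply Finset.sum_congr rfl
  intro y _
  have h1 : ((y : ZMod M) = (x : ZMod M)) ↔ y ≡ x [MOD M] := ZMod.natCast_eq_natCast_iff y x M
  by_cases h2 : y ≡ x [MOD M]
  · rw [if_pos h2, if_pos (h1.mpr h2)]
    rfl
  · rw [if_neg h2, if_neg (fun h => h2 (h1.mp h))]

end

end Pool.Agent.Helper57.NX3

end

section

set_option autoImplicit false

open Finset

open scoped BigOperators ComplexConjugate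

namespace Pool.Agent.Helper57.NX

noncomputable section

section

variable {N : ℕ} [NeZero N]

/-- real version of the average -/
def AR (L : ℕ) (g : ZMod N → ℝ) (x : ZMod N) : ℝ := 𝔼 a ∈ range L, g (x + (a : ZMod N))

omit [NeZero N] in
theorem AR_nonneg (L : ℕ) {g : ZMod N → ℝ} (hg : ∀ x, 0 ≤ g x) (x : ZMod N) : 0 ≤ AR L g x :=
  Finset.expect_nonneg fun _ _ => hg _

theorem val_add_nat (y : ZMod N) (a : ℕ) (h : y.val + a < N) :
    (y + (a : ZMod N)).val = y.val + a := by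
  have h1 : (a : ZMod N).val = a := ZMod.val_natCast_of_lt (by omega)
  rw [ZMod.val_add_of_lt (by rwa [h1]), h1]

theorem AR_gA_ge (A' : Finset ℕ) (Q B : ℕ) (hQ : 0 < Q) (y : ZMod N) (a : ℕ)
    (h : y.val + a + Q * (B + 1) ≤ N) :
    (∑ w ∈ range B, ind A' ((y.val + a) / Q + 1 + w)) / (B + 1) ≤
      AR (Q * (B + 1)) (gA A' Q) (y + (a : ZMod N)) := by
  have hQ0 : (0 : ℝ) < Q := by exact_mod_cast hQ
  have h1 : AR (Q * (B + 1)) (gA A' Q) (y + (a : ZMod N)) =
      (∑ t ∈ range (Q * (B + 1)), ind A' ((y.val + a + t) / Q)) / (Q * (B + 1)) := by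
    rw [AR, Finset.expect_eq_sum_div_card, Finset.card_range]
    push_cast
    congr 1
    refine Finset.sum_congr rfl fun t ht => ?_
    have ht' := Finset.mem_range.mp ht
    have h2 : (y + (a : ZMod N) + (t : ZMod N)).val = y.val + a + t := by
      rw [val_add_nat _ t (by rw [val_add_nat y a (by omega)]; omega), val_add_nat y a (by omega)]
    rw [gA, h2]
  rw [h1, div_le_div_iff₀ (by positivity) (by positivity)]
  have h3 := block_sum A' Q B (y.val + a) hQ
  have h4 : (0 : ℝ) ≤ (B : ℝ) + 1 := by positivity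
  calc (∑ w ∈ range B, ind A' ((y.val + a) / Q + 1 + w)) * (Q * (B + 1))
      = (Q * ∑ w ∈ range B, ind A' ((y.val + a) / Q + 1 + w)) * (B + 1) := by ring
    _ ≤ _ := mul_le_mul_of_nonneg_right h3 h4

end

/-- product of sums of indicators counts tuples -/
theorem prod_count {l : ℕ} (A' : Finset ℕ) (B : ℕ) (v : Fin l → ℕ) :
    ∏ i, ∑ w ∈ range B, ind A' (v i + w) =
      (#((univ : Finset (Fin l → Fin B)).filter fun u => ∀ i, v i + (u i : ℕ) ∈ A') : ℝ) := by
  have h1 : ∀ i, ∑ w ∈ range B, ind A' (v i + w) = ∑ w : Fin B, ind A' (v i + (w : ℕ)) :=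
    fun i => Finset.sum_range fun w => ind A' (v i + w)
  simp_rw [h1]
  rw [Finset.prod_univ_sum, Finset.card_filter]
  push_cast
  have h2 : (Fintype.piFinset fun _ : Fin l => (univ : Finset (Fin B))) = univ :=
    Fintype.piFinset_univ
  rw [h2]
  refine Finset.sum_congr rfl fun u _ => ?_
  by_cases h : ∀ i, v i + (u i : ℕ) ∈ A'
  · rw [if_pos h]
    exact Finset.prod_eq_one fun i _ => if_pos (h i)
  · rw [if_neg h]
    push Not at h
    obtain ⟨i, hi⟩ := h
    exact Finset.prod_eq_zero (Finset.mem_univ i) (if_neg hi)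

section

variable {l : ℕ} (A' : Finset ℕ) (Q Z B : ℕ) (η : ℝ) [NeZero (Q * (2 * Z))]

theorem block_inj (hQ : 0 < Q) {p e p' e' : ℕ} (he : e < Q) (he' : e' < Q)
    (h : Q * p + e = Q * p' + e') : p = p' ∧ e = e' := by
  have h1 := congrArg (· / Q) h
  have h2 := congrArg (· % Q) h
  simp only [Nat.mul_add_div hQ, Nat.mul_add_mod, Nat.div_eq_of_lt he, Nat.div_eq_of_lt he',
    Nat.mod_eq_of_lt he, Nat.mod_eq_of_lt he', add_zero] at h1 h2
  exact ⟨h1, h2⟩

theorem val_block (hA : ∀ p ∈ A', p < Z) {p e : ℕ} (hp : p ∈ A') (he : e < Q) :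
    ((Q * p + e : ℕ) : ZMod (Q * (2 * Z))).val = Q * p + e := by
  refine ZMod.val_natCast_of_lt ?_
  have h1 := hA p hp
  have h2 : Q * (p + 1) ≤ Q * Z := Nat.mul_le_mul_left Q h1
  rw [Nat.mul_succ] at h2
  have h3 : Q * (2 * Z) = Q * Z + Q * Z := by ring
  omega

theorem lower_k (hA : ∀ p ∈ A', p < Z) (hQ : 0 < Q) (a : Fin l → ℕ)
    (ha : ∀ i, a i + Q * (B + 1) ≤ Q * Z) (T : ℝ) (hη0 : 0 ≤ η) (hη1 : η ≤ 1) (hT0 : 0 ≤ T)
    (hT : ∀ e < Q, (e : ℝ) < η * Q → T ≤ (#((A' ×ˢ (univ : Finset (Fin l → Fin B))).filter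
      fun pu => ∀ i, pu.1 + ((e + a i) / Q + 1) + (pu.2 i : ℕ) ∈ A') : ℝ)) :
    η * Q * T / (B + 1) ^ l ≤ ∑ y : ZMod (Q * (2 * Z)), g0A A' Q η y *
      ∏ i, AR (Q * (B + 1)) (gA A' Q) (y + (a i : ZMod (Q * (2 * Z)))) := by
  classical
  set E := (range Q).filter fun e : ℕ => (e : ℝ) < η * Q with hE
  have hQ0 : (0 : ℝ) < Q := by exact_mod_cast hQ
  -- restrict to the image of `(p, e)`
  have h1 : ∑ pe ∈ A' ×ˢ E, g0A A' Q η ((Q * pe.1 + pe.2 : ℕ) : ZMod (Q * (2 * Z))) *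
      ∏ i, AR (Q * (B + 1)) (gA A' Q)
        (((Q * pe.1 + pe.2 : ℕ) : ZMod (Q * (2 * Z))) + (a i : ZMod (Q * (2 * Z)))) ≤
      ∑ y : ZMod (Q * (2 * Z)), g0A A' Q η y *
        ∏ i, AR (Q * (B + 1)) (gA A' Q) (y + (a i : ZMod (Q * (2 * Z)))) := by
    rw [← Finset.sum_image (s := A' ×ˢ E)
      (g := fun pe : ℕ × ℕ => ((Q * pe.1 + pe.2 : ℕ) : ZMod (Q * (2 * Z))))
      (f := fun y => g0A A' Q η y *
        ∏ i, AR (Q * (B + 1)) (gA A' Q) (y + (a i : ZMod (Q * (2 * Z)))))]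
    · refine Finset.sum_le_sum_of_subset_of_nonneg (Finset.subset_univ _) fun y _ _ => ?_
      exact mul_nonneg (g0A_nonneg _ _ _ _)
        (Finset.prod_nonneg fun i _ => AR_nonneg _ (gA_nonneg A' Q) _)
    · rintro ⟨p, e⟩ hpe ⟨p', e'⟩ hpe' h2
      rw [Finset.mem_coe, Finset.mem_product, hE, Finset.mem_filter, Finset.mem_range] at hpe hpe'
      have h3 := congrArg ZMod.val h2
      simp only at h3
      rw [val_block A' Q Z hA hpe.1 hpe.2.1, val_block A' Q Z hA hpe'.1 hpe'.2.1] at h3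
      obtain ⟨rfl, rfl⟩ := block_inj Q hQ hpe.2.1 hpe'.2.1 h3
      rfl
  refine le_trans ?_ h1
  rw [Finset.sum_product_right]
  have h2 : ∀ e ∈ E, T / (B + 1) ^ l ≤
      ∑ p ∈ A', g0A A' Q η ((Q * p + e : ℕ) : ZMod (Q * (2 * Z))) *
        ∏ i, AR (Q * (B + 1)) (gA A' Q)
          (((Q * p + e : ℕ) : ZMod (Q * (2 * Z))) + (a i : ZMod (Q * (2 * Z)))) := by
    intro e he
    rw [hE, Finset.mem_filter, Finset.mem_range] at he
    have h3 : ∀ p ∈ A', (∏ i, ∑ w ∈ range B, ind A' (p + ((e + a i) / Q + 1) + w)) /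
        ((B : ℝ) + 1) ^ l ≤ g0A A' Q η ((Q * p + e : ℕ) : ZMod (Q * (2 * Z))) *
        ∏ i, AR (Q * (B + 1)) (gA A' Q)
          (((Q * p + e : ℕ) : ZMod (Q * (2 * Z))) + (a i : ZMod (Q * (2 * Z)))) := by
      intro p hp
      have hv := val_block A' Q Z hA hp he.1
      have h4 : g0A A' Q η ((Q * p + e : ℕ) : ZMod (Q * (2 * Z))) = 1 := by
        unfold g0A
        rw [hv, Nat.mul_add_mod, Nat.mod_eq_of_lt he.1, if_pos he.2, Nat.mul_add_div hQ,
          Nat.div_eq_of_lt he.1, add_zero]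
        exact if_pos hp
      rw [h4, one_mul]
      have h5 : (∏ i : Fin l, ∑ w ∈ range B, ind A' (p + ((e + a i) / Q + 1) + w)) /
          ((B : ℝ) + 1) ^ l =
          ∏ i : Fin l, (∑ w ∈ range B, ind A' (p + ((e + a i) / Q + 1) + w)) / ((B : ℝ) + 1) := by
        rw [Finset.prod_div_distrib, Finset.prod_const, Finset.card_univ, Fintype.card_fin]
      rw [h5]
      refine Finset.prod_le_prod (fun i _ => ?_) fun i _ => ?_
      · exact div_nonneg (Finset.sum_nonneg fun w _ => ind_nonneg _ _) (by positivity)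
      · have h6 := AR_gA_ge A' Q B hQ ((Q * p + e : ℕ) : ZMod (Q * (2 * Z))) (a i) (by
          rw [hv]
          have h7 := hA p hp
          have h8 : Q * (p + 1) ≤ Q * Z := Nat.mul_le_mul_left Q h7
          rw [Nat.mul_succ] at h8
          have h9 : Q * (2 * Z) = Q * Z + Q * Z := by ring
          have := ha i
          have := he.1
          omega)
        refine le_trans (le_of_eq ?_) h6
        congr 1
        refine Finset.sum_congr rfl fun w _ => ?_
        rw [hv]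
        congr 1
        have h10 : Q * p + e + a i = Q * p + (e + a i) := by ring
        rw [h10, Nat.mul_add_div hQ]
        ring
    refine le_trans ?_ (Finset.sum_le_sum h3)
    rw [← Finset.sum_div]
    refine div_le_div_of_nonneg_right ?_ (by positivity)
    refine (hT e he.1 he.2).trans (le_of_eq ?_)
    simp_rw [prod_count]
    rw [Finset.card_filter, Finset.sum_product]
    push_cast
    refine Finset.sum_congr rfl fun p _ => ?_
    rw [Finset.card_filter]
    push_cast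
    rfl
  have h3 : η * Q ≤ (E.card : ℝ) := by
    have h4 : E = range ⌈η * Q⌉₊ := by
      rw [hE]
      ext e
      rw [Finset.mem_filter, Finset.mem_range, Finset.mem_range, Nat.lt_ceil]
      constructor
      · exact fun h => h.2
      · intro h
        refine ⟨?_, h⟩
        have : (e : ℝ) < Q := by nlinarith
        exact_mod_cast this
    rw [h4, Finset.card_range]
    exact Nat.le_ceil _
  calc η * Q * T / (B + 1) ^ l = η * Q * (T / (B + 1) ^ l) := by ring
    _ ≤ E.card * (T / (B + 1) ^ l) := mul_le_mul_of_nonneg_right h3 (by positivity)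
    _ = ∑ _e ∈ E, T / ((B : ℝ) + 1) ^ l := by rw [Finset.sum_const, nsmul_eq_mul]
    _ ≤ _ := Finset.sum_le_sum h2

theorem g0_sum (hA : ∀ p ∈ A', p < Z) (hQ : 0 < Q) (hη0 : 0 ≤ η) :
    ∑ y : ZMod (Q * (2 * Z)), g0A A' Q η y ≤ Z * (η * Q + 1) := by
  classical
  set E := range ⌈η * Q⌉₊ with hE
  have h1 : ∀ y : ZMod (Q * (2 * Z)), y ∉ (range Z ×ˢ E).image
      (fun pe : ℕ × ℕ => ((Q * pe.1 + pe.2 : ℕ) : ZMod (Q * (2 * Z)))) → g0A A' Q η y = 0 := by
    intro y hy
    unfold g0A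
    split_ifs with h2
    · refine if_neg fun h3 => hy ?_
      rw [Finset.mem_image]
      refine ⟨(y.val / Q, y.val % Q), ?_, ?_⟩
      · rw [Finset.mem_product, Finset.mem_range, hE, Finset.mem_range, Nat.lt_ceil]
        exact ⟨hA _ h3, h2⟩
      · rw [Nat.div_add_mod, ZMod.natCast_zmod_val]
    · rfl
  rw [← Finset.sum_subset (Finset.subset_univ _) (fun y _ hy => h1 y hy)]
  set W := (range Z ×ˢ E).image
      (fun pe : ℕ × ℕ => ((Q * pe.1 + pe.2 : ℕ) : ZMod (Q * (2 * Z)))) with hW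
  calc ∑ y ∈ W, g0A A' Q η y ≤ ∑ _y ∈ W, (1 : ℝ) :=
        Finset.sum_le_sum fun y _ => g0A_le_one _ _ _ _
    _ = (W.card : ℝ) := by
        rw [Finset.sum_const, nsmul_eq_mul, mul_one]
    _ ≤ ((range Z ×ˢ E).card : ℝ) := by exact_mod_cast Finset.card_image_le
    _ = Z * ⌈η * Q⌉₊ := by
        rw [Finset.card_product, Finset.card_range, hE, Finset.card_range]
        push_cast
        ring
    _ ≤ Z * (η * Q + 1) := by
        refine mul_le_mul_of_nonneg_left ?_ (Nat.cast_nonneg _)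
        exact (Nat.ceil_lt_add_one (by positivity)).le

end

end

end Pool.Agent.Helper57.NX

end

section

set_option autoImplicit false

open Finset

open scoped BigOperators

namespace Pool.Agent.Helper57.NX3

open Pool.Agent.Helper57.NX (ind ind_nonneg)

open Pool.Agent.Helper67.NX2 (sh)

noncomputable section

theorem FA_ind (z : ℕ) (A : Finset ℕ) (x : ℕ) :
    FA z A x = Real.log ((2 : ℝ) ^ z) * ind A x := by
  unfold FA ind
  split_ifs <;> simp

end

end Pool.Agent.Helper57.NX3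

end

section

set_option autoImplicit false

open Finset

open scoped BigOperators

namespace Pool.Agent.Helper57.NX3

noncomputable section

open Pool.Agent.Helper57.NX

lemma lm_val {A' : Finset ℕ} {Q Z N : ℕ} [NeZero N]
    (hN : Q * (2 * Z) ≤ N) (hA : ∀ p ∈ A', p < Z) {p e : ℕ} (hp : p ∈ A') (he : e < Q) :
    ((Q * p + e : ℕ) : ZMod N).val = Q * p + e := by
  refine ZMod.val_natCast_of_lt ?_
  have h1 := hA p hp
  have h2 : Q * (p + 1) ≤ Q * Z := Nat.mul_le_mul_left Q h1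
  rw [Nat.mul_succ] at h2
  have h3 : Q * (2 * Z) = Q * Z + Q * Z := by ring
  omega

lemma lm_range (A' : Finset ℕ) {x y m n : ℕ} (h1 : y ≤ x) (h2 : x + m ≤ y + n) :
    ∑ w ∈ range m, ind A' (x + w) ≤ ∑ w ∈ range n, ind A' (y + w) := by
  have h3 : ∑ w ∈ range m, ind A' (x + w) = ∑ w ∈ Ico x (x + m), ind A' w := by
    rw [Finset.sum_Ico_eq_sum_range, Nat.add_sub_cancel_left]
  have h4 : ∑ w ∈ range n, ind A' (y + w) = ∑ w ∈ Ico y (y + n), ind A' w := by
    rw [Finset.sum_Ico_eq_sum_range, Nat.add_sub_cancel_left]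
  rw [h3, h4]
  exact Finset.sum_le_sum_of_subset_of_nonneg (Finset.Ico_subset_Ico h1 h2)
    fun _ _ _ => ind_nonneg _ _

open Pool.Agent.Helper57.NX in
theorem lower_mixed {l : ℕ} (A' : Finset ℕ) (Q Z N : ℕ) [NeZero N] (η : ℝ) (hQ : 0 < Q)
    (hN : Q * (2 * Z) ≤ N) (hA : ∀ p ∈ A', p < Z) (hη0 : 0 ≤ η) (hη1 : η ≤ 1)
    (nat : Fin l → Prop) [DecidablePred nat] (a B B' v : Fin l → ℕ)
    (hnat : ∀ i, nat i → a i = Q * v i)
    (hreal : ∀ i, ¬ nat i → ∀ e < Q, (e + a i) / Q + 1 ≤ v i ∧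
      v i + B' i ≤ (e + a i) / Q + 1 + B i)
    (ha : ∀ i, a i + Q * (B i + 1) ≤ Q * Z) :
    η * Q * ∑ p ∈ A', ∏ i, (if nat i then ind A' (p + v i) else
        (∑ w ∈ range (B' i), ind A' (p + v i + w)) / ((B i : ℝ) + 1)) ≤
      ∑ y : ZMod N, g0A A' Q η y * ∏ i, (if nat i then gA A' Q (y + (a i : ZMod N)) else
        AR (Q * (B i + 1)) (gA A' Q) (y + (a i : ZMod N))) := by
  classical
  set E := (range Q).filter fun e : ℕ => (e : ℝ) < η * Q with hE
  have hQ0 : (0 : ℝ) < Q := by exact_mod_cast hQ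
  set R : ZMod N → ℝ := fun y => g0A A' Q η y *
    ∏ i, (if nat i then gA A' Q (y + (a i : ZMod N)) else
        AR (Q * (B i + 1)) (gA A' Q) (y + (a i : ZMod N))) with hR
  have hR0 : ∀ y, 0 ≤ R y := by
    intro y
    refine mul_nonneg (g0A_nonneg _ _ _ _) (Finset.prod_nonneg fun i _ => ?_)
    split_ifs
    · exact gA_nonneg A' Q _
    · exact AR_nonneg _ (gA_nonneg A' Q) _
  set T : ℕ → ℝ := fun p => ∏ i, (if nat i then ind A' (p + v i) else
        (∑ w ∈ range (B' i), ind A' (p + v i + w)) / ((B i : ℝ) + 1)) with hT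
  have hT0 : ∀ p, 0 ≤ T p := by
    intro p
    refine Finset.prod_nonneg fun i _ => ?_
    split_ifs
    · exact ind_nonneg _ _
    · exact div_nonneg (Finset.sum_nonneg fun w _ => ind_nonneg _ _) (by positivity)
  -- restrict to the image of `(p, e)`
  have h1 : ∑ pe ∈ A' ×ˢ E, R ((Q * pe.1 + pe.2 : ℕ) : ZMod N) ≤ ∑ y : ZMod N, R y := by
    rw [← Finset.sum_image (s := A' ×ˢ E)
      (g := fun pe : ℕ × ℕ => ((Q * pe.1 + pe.2 : ℕ) : ZMod N)) (f := R)]
    · exact Finset.sum_le_sum_of_subset_of_nonneg (Finset.subset_univ _) fun y _ _ => hR0 y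
    · rintro ⟨p, e⟩ hpe ⟨p', e'⟩ hpe' h2
      rw [Finset.mem_coe, Finset.mem_product, hE, Finset.mem_filter, Finset.mem_range] at hpe hpe'
      have h3 := congrArg ZMod.val h2
      simp only at h3
      rw [lm_val hN hA hpe.1 hpe.2.1, lm_val hN hA hpe'.1 hpe'.2.1] at h3
      obtain ⟨rfl, rfl⟩ := block_inj Q hQ hpe.2.1 hpe'.2.1 h3
      rfl
  refine le_trans ?_ h1
  have h2 : ∀ e ∈ E, ∀ p ∈ A', T p ≤ R ((Q * p + e : ℕ) : ZMod N) := by
    intro e he p hp
    rw [hE, Finset.mem_filter, Finset.mem_range] at he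
    have hv := lm_val hN hA hp he.1
    have h4 : g0A A' Q η ((Q * p + e : ℕ) : ZMod N) = 1 := by
      unfold g0A
      rw [hv, Nat.mul_add_mod, Nat.mod_eq_of_lt he.1, if_pos he.2, Nat.mul_add_div hQ,
        Nat.div_eq_of_lt he.1, add_zero]
      exact if_pos hp
    simp only [hT, hR]
    rw [h4, one_mul]
    have hroom : ∀ i, Q * p + e + a i + Q * (B i + 1) ≤ N := by
      intro i
      have h7 := hA p hp
      have h8 : Q * (p + 1) ≤ Q * Z := Nat.mul_le_mul_left Q h7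
      rw [Nat.mul_succ] at h8
      have h9 : Q * (2 * Z) = Q * Z + Q * Z := by ring
      have := ha i
      have := he.1
      omega
    refine Finset.prod_le_prod (fun i _ => ?_) fun i _ => ?_
    · split_ifs
      · exact ind_nonneg _ _
      · exact div_nonneg (Finset.sum_nonneg fun w _ => ind_nonneg _ _) (by positivity)
    · by_cases hi : nat i
      · rw [if_pos hi, if_pos hi]
        refine le_of_eq ?_
        unfold gA
        have hroom' : Q * p + e + a i < N := by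
          have h7 := hroom i
          have h8 : 0 < Q * (B i + 1) := Nat.mul_pos hQ (Nat.succ_pos _)
          omega
        rw [val_add_nat _ (a i) (by rw [hv]; exact hroom'), hv]
        congr 1
        rw [hnat i hi, show Q * p + e + Q * v i = Q * (p + v i) + e by ring,
          Nat.mul_add_div hQ, Nat.div_eq_of_lt he.1, add_zero]
      · rw [if_neg hi, if_neg hi]
        have h6 := AR_gA_ge A' Q (B i) hQ ((Q * p + e : ℕ) : ZMod N) (a i) (by
          rw [hv]
          exact hroom i)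
        refine le_trans ?_ h6
        refine div_le_div_of_nonneg_right ?_ (by positivity)
        rw [hv]
        have h10 : (Q * p + e + a i) / Q = p + (e + a i) / Q := by
          rw [show Q * p + e + a i = Q * p + (e + a i) by ring, Nat.mul_add_div hQ]
        rw [h10]
        obtain ⟨h11, h12⟩ := hreal i hi e he.1
        exact lm_range A' (by omega) (by omega)
  have h3 : η * Q ≤ (E.card : ℝ) := by
    have h4 : E = range ⌈η * Q⌉₊ := by
      rw [hE]
      ext e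
      rw [Finset.mem_filter, Finset.mem_range, Finset.mem_range, Nat.lt_ceil]
      constructor
      · exact fun h => h.2
      · intro h
        refine ⟨?_, h⟩
        have : (e : ℝ) < Q := by nlinarith
        exact_mod_cast this
    rw [h4, Finset.card_range]
    exact Nat.le_ceil _
  rw [Finset.sum_product_right]
  calc η * Q * ∑ p ∈ A', T p ≤ E.card * ∑ p ∈ A', T p :=
        mul_le_mul_of_nonneg_right h3 (Finset.sum_nonneg fun p _ => hT0 p)
    _ = ∑ _e ∈ E, ∑ p ∈ A', T p := by rw [Finset.sum_const, nsmul_eq_mul]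
    _ ≤ _ := Finset.sum_le_sum fun e he => Finset.sum_le_sum fun p hp => h2 e he p hp

end

end Pool.Agent.Helper57.NX3

end

section

set_option autoImplicit false

open Finset

open scoped BigOperators

namespace Pool.Agent.Helper57.NX3

open Pool.Agent.Helper57.NX (ind ind_nonneg gA g0A AR)

open Pool.Agent.Helper67.NX2 (sh nform)

noncomputable section

/-- a sum over an interval of windows -/
theorem windows_sum (D T W : ℕ) (h : D = T * W) (f : ℕ → ℝ) (x : ℝ)
    (hf : ∀ t < W, x * T ≤ ∑ k ∈ Ico (D + T * t) (D + T * t + T), f k) :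
    x * D ≤ ∑ k ∈ Ico D (D + D), f k := by
  rw [Finset.sum_Ico_eq_sum_range, Nat.add_sub_cancel]
  have h1 : ∑ k ∈ range D, f (D + k) = ∑ k ∈ range (T * W), f (D + k) := by rw [← h]
  rw [h1, Pool.Agent.Helper57.NX.sum_blocks T W (fun k => f (D + k))]
  have h2 : x * D = ∑ _t ∈ range W, x * T := by
    rw [Finset.sum_const, Finset.card_range, nsmul_eq_mul, h]
    push_cast
    ring
  rw [h2]
  refine Finset.sum_le_sum fun t ht => ?_
  refine (hf t (Finset.mem_range.mp ht)).trans (le_of_eq ?_)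
  rw [Finset.sum_Ico_eq_sum_range, Nat.add_sub_cancel_left]
  refine Finset.sum_congr rfl fun r _ => ?_
  rw [add_assoc]

end

end Pool.Agent.Helper57.NX3

end

section

set_option autoImplicit false

open Finset

open scoped BigOperators

namespace Pool.Agent.Helper57.NX3

open Pool.Agent.Helper57.NX (ind ind_nonneg gA g0A AR)

open Pool.Agent.Helper67.NX2 (sh nform)

noncomputable section

/-- powers of two near `D ^ e` -/
theorem two_pow_floor (β1 : ℕ) (e : ℝ) (he : 0 ≤ e) :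
    (2 : ℝ) ^ ⌊(β1 : ℝ) * e⌋₊ ≤ (((2 ^ β1 : ℕ) : ℝ)) ^ e ∧
      (((2 ^ β1 : ℕ) : ℝ)) ^ e / 2 ≤ (2 : ℝ) ^ ⌊(β1 : ℝ) * e⌋₊ := by
  have h1 : (((2 ^ β1 : ℕ) : ℝ)) ^ e = (2 : ℝ) ^ ((β1 : ℝ) * e) := by
    push_cast
    rw [← Real.rpow_natCast, ← Real.rpow_mul (by norm_num)]
  rw [h1]
  constructor
  · rw [← Real.rpow_natCast]
    exact Real.rpow_le_rpow_of_exponent_le (by norm_num) (Nat.floor_le (by positivity))
  · rw [div_le_iff₀ (by norm_num)]
    have h2 : (2 : ℝ) ^ ⌊(β1 : ℝ) * e⌋₊ * 2 = (2 : ℝ) ^ (((⌊(β1 : ℝ) * e⌋₊ : ℕ) : ℝ) + 1) := by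
      rw [Real.rpow_add (by norm_num), Real.rpow_natCast, Real.rpow_one]
    rw [h2]
    exact Real.rpow_le_rpow_of_exponent_le (by norm_num) (Nat.lt_floor_add_one _).le

end

end Pool.Agent.Helper57.NX3

end

section

set_option autoImplicit false

open Finset

open scoped BigOperators

namespace Pool.Agent.Helper57.NX3

open Pool.Agent.Helper67.NX2 (sh nform BlkLen Fm)

noncomputable section

theorem floor_range {β1 β Θ : ℕ} (h : β1 * Θ ≤ β) {e : ℝ} (he1 : 1 ≤ e) (he : e ≤ Θ) :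
    β1 ≤ ⌊(β1 : ℝ) * e⌋₊ ∧ ⌊(β1 : ℝ) * e⌋₊ ≤ β := by
  have h0 : (0 : ℝ) ≤ β1 := Nat.cast_nonneg _
  constructor
  · refine Nat.le_floor ?_
    (clear * - he1; nlinarith)
  · refine Nat.floor_le_of_le ?_
    have h1 : ((β1 * Θ : ℕ) : ℝ) ≤ β := by exact_mod_cast h
    push_cast at h1
    (clear * - h1 he; nlinarith)

/-- block lengths at the natural positions -/
def bb {s : ℕ} (β1 : ℕ) (γ : ℝ) (d : Fin s → ℕ) (o : Option (Fin s)) : ℕ :=
  match o with
  | none => ⌊(β1 : ℝ) * (γ - 2 * (1 / 8))⌋₊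
  | some i => ⌊(β1 : ℝ) * ((d i : ℝ) - 2 * (1 / 8))⌋₊

theorem bb_blk {s : ℕ} (β1 : ℕ) {γ : ℝ} (hγ : 2 ≤ γ) (d : Fin s → ℕ)
    (hd : ∀ i, (2 : ℝ) ≤ d i) : BlkLen d γ (1 / 8) (((2 ^ β1 : ℕ)) : ℝ) (bb β1 γ d) := by
  have hgen : ∀ e : ℝ, 0 ≤ e → (((2 ^ β1 : ℕ)) : ℝ) ^ e / 4 ≤ (2 : ℝ) ^ ⌊(β1 : ℝ) * e⌋₊ ∧
      (2 : ℝ) ^ ⌊(β1 : ℝ) * e⌋₊ ≤ (((2 ^ β1 : ℕ)) : ℝ) ^ e := by
    intro e he
    have h1 := two_pow_floor β1 e he
    have h2 : (0 : ℝ) ≤ (((2 ^ β1 : ℕ)) : ℝ) ^ e := by (clear * -; positivity)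
    refine ⟨?_, h1.1⟩
    have h3 := h1.2
    (clear * - h1; linarith)
  constructor
  · exact hgen _ (by (clear * - hγ; linarith))
  · intro i
    exact hgen _ (by (clear * - hd; linarith [hd i]))

theorem bb_range {s β1 β Θ : ℕ} (h : β1 * Θ ≤ β) {γ Γ : ℝ} (hγ : 2 ≤ γ) (hγΓ : γ ≤ Γ)
    (d : Fin s → ℕ) (hd : ∀ i, (2 : ℝ) ≤ d i) (hdΓ : ∀ i, (d i : ℝ) ≤ Γ) (hΘ : Γ ≤ Θ)
    (o : Option (Fin s)) : β1 ≤ bb β1 γ d o ∧ bb β1 γ d o ≤ β := by
  rcases o with _ | i
  · exact floor_range h (by linarith) (by (clear * - hγΓ hΘ; linarith))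
  · exact floor_range h (by (clear * - hd; linarith [hd i])) (by (clear * - hΘ hdΓ; linarith [hdΓ i]))

end

end Pool.Agent.Helper57.NX3

end

section

set_option autoImplicit false

open Finset

open scoped BigOperators

namespace Pool.Agent.Helper57.NX3

noncomputable section

open Pool.Agent.Helper57.NX in
theorem upper_mixed {l : ℕ} (A' : Finset ℕ) (Q Z N : ℕ) [NeZero N] (η : ℝ) (hQ : 0 < Q)
    (hN : Q * (2 * Z) ≤ N) (hA : ∀ p ∈ A', p < Z) (a : Fin l → ℕ)
    (ha : ∀ i, a i ≤ Q * Z)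
    (hno : ∀ e < Q, (e : ℝ) < η * Q → ∀ p ∈ A', ¬ ∀ i, p + (e + a i) / Q ∈ A') :
    ∑ y : ZMod N, g0A A' Q η y * ∏ i, gA A' Q (y + (a i : ZMod N)) = 0 := by
  refine Finset.sum_eq_zero fun y _ => ?_
  by_contra hne
  have h1 : g0A A' Q η y ≠ 0 := left_ne_zero_of_mul hne
  have h2 : ∏ i, gA A' Q (y + (a i : ZMod N)) ≠ 0 := right_ne_zero_of_mul hne
  unfold g0A at h1
  split_ifs at h1 with h3
  · have h4 : y.val / Q ∈ A' := by
      by_contra h5
      exact h1 (if_neg h5)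
    have hmod : y.val % Q < Q := Nat.mod_lt _ hQ
    refine hno (y.val % Q) hmod h3 (y.val / Q) h4 fun i => ?_
    have h6 : gA A' Q (y + (a i : ZMod N)) ≠ 0 :=
      (Finset.prod_ne_zero_iff.mp h2) i (Finset.mem_univ i)
    have h7 : (y + (a i : ZMod N)).val = y.val + a i := by
      refine val_add_nat y (a i) ?_
      have h8 := hA _ h4
      have h9 := Nat.div_add_mod y.val Q
      have h10 : Q * (y.val / Q + 1) ≤ Q * Z := Nat.mul_le_mul_left Q h8
      rw [Nat.mul_succ] at h10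
      have h11 : Q * (2 * Z) = Q * Z + Q * Z := by ring
      have := ha i
      omega
    unfold gA at h6
    rw [h7] at h6
    have h12 : (y.val + a i) / Q ∈ A' := by
      by_contra h13
      exact h6 (if_neg h13)
    have h14 : y.val + a i = Q * (y.val / Q) + (y.val % Q + a i) := by
      have h9 := Nat.div_add_mod y.val Q
      omega
    rw [h14, Nat.mul_add_div hQ] at h12
    exact h12
  · exact h1 rfl

open Pool.Agent.Helper57.NX in
theorem g0_sum_mixed (A' : Finset ℕ) (Q Z N : ℕ) [NeZero N] (η : ℝ) (hQ : 0 < Q)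
    (hA : ∀ p ∈ A', p < Z) (hη0 : 0 ≤ η) :
    ∑ y : ZMod N, g0A A' Q η y ≤ Z * (η * Q + 1) := by
  classical
  have _ := hQ
  set E := range ⌈η * Q⌉₊ with hE
  have h1 : ∀ y : ZMod N, y ∉ (range Z ×ˢ E).image
      (fun pe : ℕ × ℕ => ((Q * pe.1 + pe.2 : ℕ) : ZMod N)) → g0A A' Q η y = 0 := by
    intro y hy
    unfold g0A
    split_ifs with h2
    · refine if_neg fun h3 => hy ?_
      rw [Finset.mem_image]
      refine ⟨(y.val / Q, y.val % Q), ?_, ?_⟩
      · rw [Finset.mem_product, Finset.mem_range, hE, Finset.mem_range, Nat.lt_ceil]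
        exact ⟨hA _ h3, h2⟩
      · rw [Nat.div_add_mod, ZMod.natCast_zmod_val]
    · rfl
  rw [← Finset.sum_subset (Finset.subset_univ _) (fun y _ hy => h1 y hy)]
  set W := (range Z ×ˢ E).image
      (fun pe : ℕ × ℕ => ((Q * pe.1 + pe.2 : ℕ) : ZMod N)) with hW
  calc ∑ y ∈ W, g0A A' Q η y ≤ ∑ _y ∈ W, (1 : ℝ) :=
        Finset.sum_le_sum fun y _ => g0A_le_one _ _ _ _
    _ = (W.card : ℝ) := by
        rw [Finset.sum_const, nsmul_eq_mul, mul_one]
    _ ≤ ((range Z ×ˢ E).card : ℝ) := by exact_mod_cast Finset.card_image_le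
    _ = Z * ⌈η * Q⌉₊ := by
        rw [Finset.card_product, Finset.card_range, hE, Finset.card_range]
        push_cast
        ring
    _ ≤ Z * (η * Q + 1) := by
        refine mul_le_mul_of_nonneg_left ?_ (Nat.cast_nonneg _)
        exact (Nat.ceil_lt_add_one (by positivity)).le

end

end Pool.Agent.Helper57.NX3

end
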