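import Pool.Agent.Helper23.MC.Inst

/-!
Parts of Helper92.NX2.Stage12Of, Helper67.KSZ.Weyl, Helper10.QRH.StB, Helper64.QRH.Vdc, Helper67.KSZ.KTest, Helper59.NX.WT, Helper59.NX.WTStep, Helper59.NX.Deriv, Helper59.NX.Es0
-/

attribute [local instance 5000]
  Pool.Agent.Helper23.MC.Inst.rCharZero Pool.Agent.Helper23.MC.Inst.rALM
  Pool.Agent.Helper23.MC.Inst.rARM Pool.Agent.Helper23.MC.Inst.rALSM
  Pool.Agent.Helper23.MC.Inst.rARSM Pool.Agent.Helper23.MC.Inst.rARRLE
  Pool.Agent.Helper23.MC.Inst.rALRLE Pool.Agent.Helper23.MC.Inst.rARRLT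
  Pool.Agent.Helper23.MC.Inst.rALRLT Pool.Agent.Helper23.MC.Inst.rPMRLT
  Pool.Agent.Helper23.MC.Inst.rMPRLT Pool.Agent.Helper23.MC.Inst.rPMM
  Pool.Agent.Helper23.MC.Inst.rMPM Pool.Agent.Helper23.MC.Inst.rPMSM
  Pool.Agent.Helper23.MC.Inst.rMPSM Pool.Agent.Helper23.MC.Inst.rEAOL
  Pool.Agent.Helper23.MC.Inst.rIOR Pool.Agent.Helper23.MC.Inst.rISOR
  Pool.Agent.Helper23.MC.Inst.rNZD Pool.Agent.Helper23.MC.Inst.rcCharZero
  Pool.Agent.Helper23.MC.Inst.rcNZD Pool.Agent.Helper23.MC.Inst.zCharZero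
  Pool.Agent.Helper23.MC.Inst.zALM Pool.Agent.Helper23.MC.Inst.zARM
  Pool.Agent.Helper23.MC.Inst.zALSM Pool.Agent.Helper23.MC.Inst.zARSM
  Pool.Agent.Helper23.MC.Inst.zIOR Pool.Agent.Helper23.MC.Inst.zISOR
  Pool.Agent.Helper23.MC.Inst.zNZD Pool.Agent.Helper23.MC.Inst.qCharZero
  Pool.Agent.Helper23.MC.Inst.mR Pool.Agent.Helper23.MC.Inst.mC Pool.Agent.Helper23.MC.Inst.mRC
  Pool.Agent.Helper23.MC.Inst.rPSM Pool.Agent.Helper23.MC.Inst.rCSM
  Pool.Agent.Helper23.MC.Inst.cAdd Pool.Agent.Helper23.MC.Inst.cAddM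
  Pool.Agent.Helper23.MC.Inst.cMul Pool.Agent.Helper23.MC.Inst.cMon

namespace Pool.Agent.Helper10.QRH
end Pool.Agent.Helper10.QRH
namespace Pool.Agent.Helper57.NX
end Pool.Agent.Helper57.NX
namespace Pool.Agent.Helper67.KSZ
end Pool.Agent.Helper67.KSZ
namespace Pool.Agent.Helper92.NX2
end Pool.Agent.Helper92.NX2

section

set_option autoImplicit false

open Finset

open scoped BigOperators ComplexConjugate

namespace Pool.Agent.Helper67.NX2

open Pool.Agent.Helper57.NX

open Pool.Agent.Helper92.NX2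

noncomputable section

/-- truncation -/
def trc (h g : ℝ) : ℝ := if |g| ≤ h then g else 0

theorem abs_trc_le {h : ℝ} (hh : 0 ≤ h) (g : ℝ) : |trc h g| ≤ h := by
  unfold trc
  split_ifs with h1
  · exact h1
  · simpa using hh

theorem trc_zero {h : ℝ} : trc h 0 = 0 := by
  unfold trc
  split_ifs <;> rfl

theorem abs_sub_trc_le {h : ℝ} (hh : 0 < h) (g : ℝ) {k : ℕ} (hk : 1 ≤ k) :
    |g - trc h g| ≤ g ^ (2 * k) / h ^ (2 * k - 1) := by
  have h0 : 0 ≤ g ^ (2 * k) := by rw [pow_mul]; (clear * -; positivity)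
  unfold trc
  split_ifs with h1
  · rw [sub_self, abs_zero]
    (clear * - h0 hh; positivity)
  · push Not at h1
    rw [sub_zero, le_div_iff₀ (by (clear * - hh; positivity))]
    have h2 : g ^ (2 * k) = |g| * |g| ^ (2 * k - 1) := by
      rw [← pow_succ', show 2 * k - 1 + 1 = 2 * k by omega, pow_mul, pow_mul, sq_abs]
    rw [h2]
    exact mul_le_mul_of_nonneg_left (pow_le_pow_left₀ hh.le h1.le _) (abs_nonneg g)

end

end Pool.Agent.Helper67.NX2

end

section

set_option autoImplicit false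

open scoped ComplexConjugate

namespace Pool.Agent.Helper67.KSZ

/-- truncation of a sequence -/
noncomputable def trunc (z : ℕ → ℂ) (N : ℕ) (n : ℕ) : ℂ := if n < N then z n else 0

/-- shifted truncation -/
noncomputable def shifted (z : ℕ → ℂ) (N j m : ℕ) : ℂ := if j ≤ m then trunc z N (m - j) else 0

theorem sum_shift (F : ℕ → ℂ) (N M j : ℕ) (hF : ∀ n, N ≤ n → F n = 0) (hM : j + N ≤ M) :
    ∑ m ∈ Finset.range M, (if j ≤ m then F (m - j) else 0) = ∑ n ∈ Finset.range N, F n := by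
  obtain ⟨d, rfl⟩ := Nat.exists_eq_add_of_le hM
  rw [add_assoc, Finset.sum_range_add]
  have h1 : ∑ x ∈ Finset.range j, (if j ≤ x then F (x - j) else 0) = 0 := by
    apply Finset.sum_eq_zero
    intro x hx
    rw [if_neg (by rw [Finset.mem_range] at hx; omega)]
  have h2 : ∑ x ∈ Finset.range (N + d), (if j ≤ j + x then F (j + x - j) else 0) =
      ∑ x ∈ Finset.range (N + d), F x := by
    apply Finset.sum_congr rfl
    intro x _
    rw [if_pos (by omega), Nat.add_sub_cancel_left]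
  rw [h1, h2, zero_add, Finset.sum_range_add]
  have h3 : ∑ x ∈ Finset.range d, F (N + x) = 0 :=
    Finset.sum_eq_zero (fun x _ => hF _ (by omega))
  rw [h3, add_zero]

theorem sum_shifted (z : ℕ → ℂ) (N H j : ℕ) (hj : j < H) :
    ∑ m ∈ Finset.range (N + H), shifted z N j m = ∑ n ∈ Finset.range N, z n := by
  unfold shifted
  rw [sum_shift (trunc z N) N (N + H) j (fun n hn => by rw [trunc, if_neg (by omega)]) (by omega)]
  apply Finset.sum_congr rfl
  intro n hn
  rw [trunc, if_pos (Finset.mem_range.1 hn)]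

/-- correlation -/
noncomputable def corr (z : ℕ → ℂ) (N r : ℕ) : ℂ :=
  ∑ n ∈ Finset.range (N - r), z (n + r) * conj (z n)

theorem sum_prod (z : ℕ → ℂ) (N H j r : ℕ) (hj : j + r < H) :
    ∑ m ∈ Finset.range (N + H), shifted z N j m * conj (shifted z N (j + r) m) =
      corr z N r := by
  have h1 : ∀ m, shifted z N j m * conj (shifted z N (j + r) m) =
      if j + r ≤ m then (fun n => trunc z N (n + r) * conj (trunc z N n)) (m - (j + r)) else 0 := by
    intro m
    unfold shifted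
    by_cases h : j + r ≤ m
    · rw [if_pos (by omega), if_pos h, if_pos h]
      have e : m - j = m - (j + r) + r := by omega
      rw [e]
    · rw [if_neg h, if_neg h]; simp
  rw [Finset.sum_congr rfl (fun m _ => h1 m)]
  rw [sum_shift (fun n => trunc z N (n + r) * conj (trunc z N n)) (N - r) (N + H) (j + r) ?_
    (by omega)]
  · unfold corr
    apply Finset.sum_congr rfl
    intro n hn
    have := Finset.mem_range.1 hn
    simp only [trunc]
    rw [if_pos (by omega), if_pos (by omega)]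
  · intro n hn
    simp only [trunc]
    rw [if_neg (by omega), zero_mul]

theorem norm_sum_prod (z : ℕ → ℂ) (N H j j' : ℕ) (hj : j < H) (hj' : j' < H) :
    ‖∑ m ∈ Finset.range (N + H), shifted z N j m * conj (shifted z N j' m)‖ =
      ‖corr z N (Nat.dist j j')‖ := by
  rcases le_total j j' with h | h
  · obtain ⟨r, rfl⟩ := Nat.exists_eq_add_of_le h
    rw [sum_prod z N H j r hj', Nat.dist_eq_sub_of_le h, Nat.add_sub_cancel_left]
  · obtain ⟨r, rfl⟩ := Nat.exists_eq_add_of_le h
    rw [Nat.dist_comm, Nat.dist_eq_sub_of_le h, Nat.add_sub_cancel_left,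
      ← sum_prod z N H j' r hj, ← RCLike.norm_conj, map_sum]
    congr 1
    apply Finset.sum_congr rfl
    intro m _
    rw [map_mul, Complex.conj_conj, mul_comm]

theorem sum_dist_le (τ : ℕ → ℝ) (hτ : ∀ r, 0 ≤ τ r) (H j : ℕ) (hj : j < H) :
    ∑ j' ∈ Finset.range H, τ (Nat.dist j j') ≤
      τ 0 + 2 * ∑ x ∈ Finset.range (H - 1), τ (x + 1) := by
  obtain ⟨d, rfl⟩ := Nat.exists_eq_add_of_lt hj
  have e : j + d + 1 = j + (1 + d) := by ring
  rw [e, Finset.sum_range_add, Finset.sum_range_add]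
  have h1 : ∑ x ∈ Finset.range j, τ (Nat.dist j x) = ∑ x ∈ Finset.range j, τ (x + 1) := by
    rw [← Finset.sum_range_reflect]
    apply Finset.sum_congr rfl
    intro x hx
    have := Finset.mem_range.1 hx
    rw [Nat.dist_comm, Nat.dist_eq_sub_of_le (by omega)]
    congr 1
    omega
  have h2 : ∑ x ∈ Finset.range d, τ (Nat.dist j (j + (1 + x))) =
      ∑ x ∈ Finset.range d, τ (x + 1) := by
    apply Finset.sum_congr rfl
    intro x hx
    rw [Nat.dist_eq_sub_of_le (by omega)]
    congr 1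
    omega
  rw [h1, h2]
  simp only [Finset.sum_range_one, add_zero, Nat.dist_self]
  have h3 : ∑ x ∈ Finset.range j, τ (x + 1) ≤ ∑ x ∈ Finset.range (j + (1 + d) - 1), τ (x + 1) :=
    Finset.sum_le_sum_of_subset_of_nonneg (Finset.range_subset_range.2 (by omega))
      (fun _ _ _ => hτ _)
  have h4 : ∑ x ∈ Finset.range d, τ (x + 1) ≤ ∑ x ∈ Finset.range (j + (1 + d) - 1), τ (x + 1) :=
    Finset.sum_le_sum_of_subset_of_nonneg (Finset.range_subset_range.2 (by omega))
      (fun _ _ _ => hτ _)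
  linarith

theorem weyl_vdc (z : ℕ → ℂ) (N H : ℕ) (hH : 1 ≤ H) :
    ‖∑ n ∈ Finset.range N, z n‖ ^ 2 * H ≤ (N + H : ℕ) *
      (‖corr z N 0‖ + 2 * ∑ x ∈ Finset.range (H - 1), ‖corr z N (x + 1)‖) := by
  set S := ∑ n ∈ Finset.range N, z n with hS
  have hH' : (0 : ℝ) < H := by exact_mod_cast hH
  have h1 : (H : ℂ) * S = ∑ m ∈ Finset.range (N + H), ∑ j ∈ Finset.range H, shifted z N j m := by
    rw [Finset.sum_comm, Finset.sum_congr rfl (fun j hj => sum_shifted z N H j
      (Finset.mem_range.1 hj))]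
    simp [hS]
  have h2 : (H * ‖S‖) ^ 2 ≤ (N + H : ℕ) *
      ∑ m ∈ Finset.range (N + H), ‖∑ j ∈ Finset.range H, shifted z N j m‖ ^ 2 := by
    have : (H : ℝ) * ‖S‖ = ‖(H : ℂ) * S‖ := by simp
    rw [this, h1]
    have h3 := sq_sum_le_card_mul_sum_sq (s := Finset.range (N + H))
      (f := fun m => ‖∑ j ∈ Finset.range H, shifted z N j m‖)
    rw [Finset.card_range] at h3
    refine le_trans ?_ h3
    exact pow_le_pow_left₀ (norm_nonneg _) (norm_sum_le _ _) 2
  have h3 : ∑ m ∈ Finset.range (N + H), ‖∑ j ∈ Finset.range H, shifted z N j m‖ ^ 2 ≤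
      ∑ j ∈ Finset.range H, ∑ j' ∈ Finset.range H, ‖corr z N (Nat.dist j j')‖ := by
    have h4 : ((∑ m ∈ Finset.range (N + H), ‖∑ j ∈ Finset.range H, shifted z N j m‖ ^ 2 : ℝ) : ℂ) =
        ∑ j ∈ Finset.range H, ∑ j' ∈ Finset.range H,
          ∑ m ∈ Finset.range (N + H), shifted z N j m * conj (shifted z N j' m) := by
      push_cast
      rw [Finset.sum_congr rfl (fun j _ => Finset.sum_comm), Finset.sum_comm]
      apply Finset.sum_congr rfl
      intro m _
      rw [← Complex.mul_conj', map_sum, Finset.sum_mul_sum]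
    have h5 : ∑ m ∈ Finset.range (N + H), ‖∑ j ∈ Finset.range H, shifted z N j m‖ ^ 2 =
        ‖((∑ m ∈ Finset.range (N + H), ‖∑ j ∈ Finset.range H, shifted z N j m‖ ^ 2 : ℝ) : ℂ)‖ := by
      rw [Complex.norm_real, Real.norm_of_nonneg]
      exact Finset.sum_nonneg (fun _ _ => by positivity)
    rw [h5, h4]
    refine (norm_sum_le _ _).trans (Finset.sum_le_sum (fun j hj => ?_))
    refine (norm_sum_le _ _).trans (Finset.sum_le_sum (fun j' hj' => ?_))
    exact (norm_sum_prod z N H j j' (Finset.mem_range.1 hj) (Finset.mem_range.1 hj')).le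
  have h4 : ∑ j ∈ Finset.range H, ∑ j' ∈ Finset.range H, ‖corr z N (Nat.dist j j')‖ ≤
      H * (‖corr z N 0‖ + 2 * ∑ x ∈ Finset.range (H - 1), ‖corr z N (x + 1)‖) := by
    have := Finset.sum_le_card_nsmul (Finset.range H)
      (fun j => ∑ j' ∈ Finset.range H, ‖corr z N (Nat.dist j j')‖)
      (‖corr z N 0‖ + 2 * ∑ x ∈ Finset.range (H - 1), ‖corr z N (x + 1)‖)
      (fun j hj => sum_dist_le (fun r => ‖corr z N r‖) (fun _ => norm_nonneg _) H j
        (Finset.mem_range.1 hj))
    rwa [Finset.card_range, nsmul_eq_mul] at this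
  have h5 : (H * ‖S‖) ^ 2 ≤ (N + H : ℕ) *
      (H * (‖corr z N 0‖ + 2 * ∑ x ∈ Finset.range (H - 1), ‖corr z N (x + 1)‖)) :=
    h2.trans (mul_le_mul_of_nonneg_left (h3.trans h4) (by positivity))
  have h6 : H * (‖S‖ ^ 2 * H) ≤ H * ((N + H : ℕ) *
      (‖corr z N 0‖ + 2 * ∑ x ∈ Finset.range (H - 1), ‖corr z N (x + 1)‖)) := by
    calc H * (‖S‖ ^ 2 * H) = (H * ‖S‖) ^ 2 := by ring
      _ ≤ _ := h5
      _ = _ := by ring
  exact le_of_mul_le_mul_left h6 hH'

end Pool.Agent.Helper67.KSZ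

end

section

set_option autoImplicit false

open Filter Topology

open scoped Classical

namespace Pool.Agent.Helper10.QRH

noncomputable def ee (x : ℝ) : ℂ := Complex.exp (2 * Real.pi * x * Complex.I)

end Pool.Agent.Helper10.QRH

end

section

set_option autoImplicit false

open Filter Topology

open scoped Classical

namespace Pool.Agent.Helper64.QRH

open Pool.Agent.Helper10.QRH

theorem ee_add (x y : ℝ) : ee (x + y) = ee x * ee y := by
  unfold ee
  rw [← Complex.exp_add]
  congr 1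
  push_cast
  ring

theorem ee_eq (x : ℝ) : ee x = (Real.cos (2 * Real.pi * x) : ℂ) +
    (Real.sin (2 * Real.pi * x) : ℂ) * Complex.I := by
  unfold ee
  have : (2 * (Real.pi : ℂ) * (x : ℂ) * Complex.I) = ((2 * Real.pi * x : ℝ) : ℂ) * Complex.I := by
    push_cast; ring
  rw [this, Complex.exp_mul_I, Complex.ofReal_cos, Complex.ofReal_sin]

theorem norm_ee (x : ℝ) : ‖ee x‖ = 1 := by
  unfold ee
  have : (2 * (Real.pi : ℂ) * (x : ℂ) * Complex.I) = ((2 * Real.pi * x : ℝ) : ℂ) * Complex.I := by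
    push_cast; ring
  rw [this, Complex.norm_exp_ofReal_mul_I]

theorem ee_sub_int (x : ℝ) (m : ℤ) : ee (x - m) = ee x := by
  rw [ee_eq, ee_eq]
  have h : 2 * Real.pi * (x - m) = 2 * Real.pi * x - m * (2 * Real.pi) := by ring
  rw [h, Real.cos_sub_int_mul_two_pi, Real.sin_sub_int_mul_two_pi]

/-- cotangent of `π x` -/
noncomputable def ct (x : ℝ) : ℝ := Real.cos (Real.pi * x) / Real.sin (Real.pi * x)

/-- `1/(1 - e(x))` -/
noncomputable def gg (x : ℝ) : ℂ := 1 / 2 + (ct x / 2 : ℝ) * Complex.I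

theorem sin_lower {D x : ℝ} (hD : 0 < D) (h1 : D ≤ x) (h2 : x ≤ 1 - D) :
    2 * D ≤ Real.sin (Real.pi * x) := by
  have hpi := Real.pi_pos
  rcases le_total x (1/2) with h | h
  · have := Real.mul_le_sin (x := Real.pi * x) (mul_nonneg hpi.le (by (clear * - hD h1; linarith))) (by (clear * - hD h1 h2 hpi h; nlinarith))
    have h3 : 2 / Real.pi * (Real.pi * x) = 2 * x := by field_simp
    rw [h3] at this
    (clear * - h1 this; linarith)
  · have := Real.mul_le_sin (x := Real.pi * (1 - x)) (by (clear * - hD hpi h2; nlinarith)) (by (clear * - hD h1 h2 hpi h; nlinarith))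
    have h3 : 2 / Real.pi * (Real.pi * (1 - x)) = 2 * (1 - x) := by field_simp
    rw [h3] at this
    have h4 : Real.sin (Real.pi * (1 - x)) = Real.sin (Real.pi * x) := by
      rw [show Real.pi * (1 - x) = Real.pi - Real.pi * x by ring, Real.sin_pi_sub]
    (clear * - h2 this h4; linarith)

theorem gg_mul {x : ℝ} (h : Real.sin (Real.pi * x) ≠ 0) : (1 - ee x) * gg x = 1 := by
  rw [ee_eq]
  unfold gg ct
  have h2 : 2 * Real.pi * x = 2 * (Real.pi * x) := by ring
  rw [h2, Real.cos_two_mul, Real.sin_two_mul]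
  have hs : ((Real.sin (Real.pi * x) : ℝ) : ℂ) ≠ 0 := by exact_mod_cast h
  have hc := Real.sin_sq_add_cos_sq (Real.pi * x)
  have hcc : ((Real.sin (Real.pi * x) : ℝ) : ℂ) ^ 2 + ((Real.cos (Real.pi * x) : ℝ) : ℂ) ^ 2 = 1 := by
    exact_mod_cast hc
  push_cast [-Complex.ofReal_sin, -Complex.ofReal_cos]
  field_simp
  generalize ((Real.sin (Real.pi * x) : ℝ) : ℂ) = s at hcc ⊢
  generalize ((Real.cos (Real.pi * x) : ℝ) : ℂ) = c at hcc ⊢
  linear_combination (-(2 * Complex.I * c)) * hcc + (-2 * s * c ^ 2) * Complex.I_sq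

theorem ct_sub {x y : ℝ} (hx : Real.sin (Real.pi * x) ≠ 0) (hy : Real.sin (Real.pi * y) ≠ 0) :
    ct x - ct y = Real.sin (Real.pi * (y - x)) / (Real.sin (Real.pi * x) * Real.sin (Real.pi * y)) := by
  unfold ct
  rw [show Real.pi * (y - x) = Real.pi * y - Real.pi * x by ring, Real.sin_sub]
  (clear * - hy hx; field_simp)

theorem ct_anti {D x y : ℝ} (hD : 0 < D) (h1 : D ≤ x) (hxy : x ≤ y) (h2 : y ≤ 1 - D) :
    ct y ≤ ct x := by
  have hx := sin_lower hD h1 (hxy.trans h2)
  have hy := sin_lower hD (h1.trans hxy) h2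
  have h := ct_sub (x := x) (y := y) (by linarith) (by (clear * - hD hy; linarith))
  have hpi := Real.pi_pos
  have h3 : 0 ≤ Real.sin (Real.pi * (y - x)) :=
    Real.sin_nonneg_of_nonneg_of_le_pi (by (clear * - hxy hpi; nlinarith)) (by (clear * - hD hpi h1 h2; nlinarith))
  have : 0 ≤ ct x - ct y := by
    rw [h]
    apply div_nonneg h3
    apply mul_nonneg <;> (clear * - hD hx hy; linarith)
  (clear * - this; linarith)

theorem abs_ct_le {D x : ℝ} (hD : 0 < D) (h1 : D ≤ x) (h2 : x ≤ 1 - D) :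
    |ct x| ≤ 1 / (2 * D) := by
  have hx := sin_lower hD h1 h2
  unfold ct
  rw [abs_div, abs_of_pos (show 0 < Real.sin (Real.pi * x) by (clear * - hD hx; linarith))]
  exact div_le_div₀ zero_le_one (Real.abs_cos_le_one _) (by (clear * - hD; linarith)) hx

theorem norm_gg_le {D x : ℝ} (hD : 0 < D) (hD2 : D ≤ 1/2) (h1 : D ≤ x) (h2 : x ≤ 1 - D) :
    ‖gg x‖ ≤ 3 / (4 * D) := by
  have h := abs_ct_le hD h1 h2
  unfold gg
  calc ‖(1/2 : ℂ) + (ct x / 2 : ℝ) * Complex.I‖ ≤ ‖(1/2 : ℂ)‖ + ‖((ct x / 2 : ℝ) : ℂ) * Complex.I‖ :=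
        norm_add_le _ _
    _ = 1/2 + |ct x| / 2 := by
        rw [norm_mul, Complex.norm_I, mul_one, Complex.norm_real, Real.norm_eq_abs, abs_div]
        norm_num
    _ ≤ 1/2 + (1 / (2 * D)) / 2 := by linarith
    _ ≤ 3 / (4 * D) := by
        rw [div_add_div _ _ (by norm_num) (by norm_num), div_le_div_iff₀ (by norm_num) (by (clear * - hD; positivity))]
        have : 1 / (2 * D) * D = 1/2 := by field_simp
        (clear * - hD hD2 this; nlinarith)

theorem norm_gg_sub {x y : ℝ} : ‖gg x - gg y‖ = |ct x - ct y| / 2 := by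
  unfold gg
  have : (1 / 2 + ((ct x / 2 : ℝ) : ℂ) * Complex.I) - (1 / 2 + ((ct y / 2 : ℝ) : ℂ) * Complex.I)
      = (((ct x - ct y) / 2 : ℝ) : ℂ) * Complex.I := by
    push_cast; ring
  rw [this, norm_mul, Complex.norm_I, mul_one, Complex.norm_real, Real.norm_eq_abs, abs_div]
  norm_num

theorem KL_aux {D : ℝ} (hD : 0 < D) (z : ℕ → ℂ) (x : ℕ → ℝ) (N : ℕ)
    (hz : ∀ n, ‖z n‖ ≤ 1) (hx : ∀ n ≤ N, D ≤ x n ∧ x n ≤ 1 - D)
    (hm : ∀ n < N, x n ≤ x (n + 1)) (hs : ∀ n ≤ N, z (n + 1) = z n * ee (x n)) :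
    ‖∑ n ∈ Finset.range (N + 1), z n - (gg (x 0) * z 0 - gg (x N) * z (N + 1))‖ ≤
      (ct (x 0) - ct (x N)) / 2 := by
  have hg : ∀ n ≤ N, z n = (z n - z (n + 1)) * gg (x n) := by
    intro n hn
    have h := gg_mul (x := x n) (by
      have := sin_lower hD (hx n hn).1 (hx n hn).2
      (clear * - hD this; linarith))
    rw [hs n hn]
    calc z n = z n * 1 := by ring
      _ = z n * ((1 - ee (x n)) * gg (x n)) := by rw [h]
      _ = _ := by ring
  induction N with
  | zero =>
    have h0 := hg 0 le_rfl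
    have : ∑ n ∈ Finset.range (0 + 1), z n - (gg (x 0) * z 0 - gg (x 0) * z (0 + 1)) = 0 := by
      rw [Finset.sum_range_one]
      nth_rewrite 1 [h0]
      ring
    rw [this]
    simp
  | succ N ih =>
    have ih' := ih (fun n hn => hx n (by omega)) (fun n hn => hm n (by omega))
      (fun n hn => hs n (by omega)) (fun n hn => hg n (by omega))
    rw [Finset.sum_range_succ]
    have h0 := hg (N + 1) le_rfl
    have key : ∑ n ∈ Finset.range (N + 1), z n + z (N + 1) -
        (gg (x 0) * z 0 - gg (x (N + 1)) * z (N + 1 + 1)) =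
        (∑ n ∈ Finset.range (N + 1), z n - (gg (x 0) * z 0 - gg (x N) * z (N + 1))) +
        z (N + 1) * (gg (x (N + 1)) - gg (x N)) := by
      have : z (N + 1) + gg (x (N + 1)) * z (N + 1 + 1) = z (N + 1) * gg (x (N + 1)) := by
        nth_rewrite 1 [h0]
        ring
      linear_combination this
    rw [key]
    refine (norm_add_le _ _).trans ?_
    have h1 : ‖z (N + 1) * (gg (x (N + 1)) - gg (x N))‖ ≤ (ct (x N) - ct (x (N + 1))) / 2 := by
      rw [norm_mul, norm_gg_sub]
      have ha := ct_anti hD (hx N (by omega)).1 (hm N (by omega)) (hx (N + 1) le_rfl).2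
      rw [abs_sub_comm, abs_of_nonneg (by (clear * - ha; linarith) : 0 ≤ ct (x N) - ct (x (N + 1)))]
      have := hz (N + 1)
      (clear * - ha this; nlinarith [norm_nonneg (z (N + 1))])
    (clear * - ih' h1; linarith)

theorem KL {D : ℝ} (hD : 0 < D) (hD2 : D ≤ 1/2) (z : ℕ → ℂ) (x : ℕ → ℝ) (N : ℕ)
    (hz : ∀ n, ‖z n‖ ≤ 1) (hx : ∀ n ≤ N, D ≤ x n ∧ x n ≤ 1 - D)
    (hm : ∀ n < N, x n ≤ x (n + 1)) (hs : ∀ n ≤ N, z (n + 1) = z n * ee (x n)) :
    ‖∑ n ∈ Finset.range (N + 1), z n‖ ≤ 2 / D := by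
  have h := KL_aux hD z x N hz hx hm hs
  have h1 := norm_gg_le hD hD2 (hx 0 (by omega)).1 (hx 0 (by omega)).2
  have h2 := norm_gg_le hD hD2 (hx N le_rfl).1 (hx N le_rfl).2
  have h3 := abs_ct_le hD (hx 0 (by omega)).1 (hx 0 (by omega)).2
  have h4 := abs_ct_le hD (hx N le_rfl).1 (hx N le_rfl).2
  have e : ∑ n ∈ Finset.range (N + 1), z n =
      (∑ n ∈ Finset.range (N + 1), z n - (gg (x 0) * z 0 - gg (x N) * z (N + 1))) +
      (gg (x 0) * z 0 - gg (x N) * z (N + 1)) := by ring
  exact by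
    rw [e]
    refine (norm_add_le _ _).trans ?_
    have h5 : ‖gg (x 0) * z 0 - gg (x N) * z (N + 1)‖ ≤ 3 / (4 * D) + 3 / (4 * D) := by
      refine (norm_sub_le _ _).trans (add_le_add ?_ ?_)
      · rw [norm_mul]
        calc ‖gg (x 0)‖ * ‖z 0‖ ≤ ‖gg (x 0)‖ * 1 :=
              mul_le_mul_of_nonneg_left (hz 0) (norm_nonneg _)
          _ ≤ _ := by (clear * - h1; linarith)
      · rw [norm_mul]
        calc ‖gg (x N)‖ * ‖z (N + 1)‖ ≤ ‖gg (x N)‖ * 1 :=
              mul_le_mul_of_nonneg_left (hz _) (norm_nonneg _)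
          _ ≤ _ := by (clear * - h2; linarith)
    have h6 : (ct (x 0) - ct (x N)) / 2 ≤ 1 / (2 * D) := by
      have := abs_le.1 h3
      have := abs_le.1 h4
      linarith
    calc _ ≤ 1 / (2 * D) + (3 / (4 * D) + 3 / (4 * D)) := by (clear * - h h5 h6; linarith)
      _ = 2 / D := by field_simp; norm_num

section seq

variable {z : ℕ → ℂ} {δ : ℕ → ℝ} {N : ℕ} {lam A : ℝ}

theorem delta_diff (h1 : ∀ n, n + 1 < N → lam ≤ δ (n + 1) - δ n) :
    ∀ k p : ℕ, p + k < N → k * lam ≤ δ (p + k) - δ p := by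
  intro k
  induction k with
  | zero => intro p _; simp
  | succ k ih =>
    intro p hp
    have h2 := ih p (by omega)
    have h3 := h1 (p + k) (by omega)
    rw [← add_assoc]
    push_cast
    (clear * - h2 h3; nlinarith)

theorem delta_diff_up (h1 : ∀ n, n + 1 < N → δ (n + 1) - δ n ≤ A * lam) :
    ∀ k p : ℕ, p + k < N → δ (p + k) - δ p ≤ k * (A * lam) := by
  intro k
  induction k with
  | zero => intro p _; simp
  | succ k ih =>
    intro p hp
    have h2 := ih p (by omega)
    have h3 := h1 (p + k) (by omega)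
    rw [← add_assoc]
    push_cast
    (clear * - h2 h3; nlinarith)

theorem delta_mono (hl : 0 < lam) (h1 : ∀ n, n + 1 < N → lam ≤ δ (n + 1) - δ n) {p q : ℕ}
    (hpq : p ≤ q) (hq : q < N) : δ p ≤ δ q := by
  obtain ⟨k, rfl⟩ := Nat.exists_eq_add_of_le hpq
  have := delta_diff h1 k p hq
  have h2 : (0 : ℝ) ≤ k * lam := by (clear * - hl; positivity)
  (clear * - this h2; linarith)

theorem count_le (hl : 0 < lam) (h1 : ∀ n, n + 1 < N → lam ≤ δ (n + 1) - δ n) (T : Finset ℕ)
    (hT : T ⊆ Finset.range N) {u D : ℝ} (hD : 0 ≤ D) (hu : ∀ n ∈ T, u ≤ δ n ∧ δ n ≤ u + D) :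
    (T.card : ℝ) ≤ D / lam + 1 := by
  rcases T.eq_empty_or_nonempty with h | h
  · rw [h]; simp; (clear * - hD hl; positivity)
  · have hp := T.min'_mem h
    have hq := T.max'_mem h
    have hpq : T.min' h ≤ T.max' h := T.min'_le _ hq
    obtain ⟨k, hk⟩ := Nat.exists_eq_add_of_le hpq
    have hqN : T.max' h < N := Finset.mem_range.1 (hT hq)
    have h3 := delta_diff h1 k (T.min' h) (by omega)
    rw [← hk] at h3
    have h4 : T.card ≤ k + 1 := by
      have : T ⊆ Finset.Icc (T.min' h) (T.max' h) := fun n hn =>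
        Finset.mem_Icc.2 ⟨T.min'_le _ hn, T.le_max' _ hn⟩
      have h5 := Finset.card_le_card this
      rw [Nat.card_Icc] at h5
      omega
    have h5 : (T.card : ℝ) ≤ k + 1 := by exact_mod_cast h4
    have h6 : (k : ℝ) ≤ D / lam := by
      rw [le_div_iff₀ hl]
      (clear * - h3 hu hp hq; linarith [(hu _ hp).1, (hu _ hq).2])
    (clear * - h5 h6; linarith)

theorem mid_le (hl : 0 < lam) (hz : ∀ n, ‖z n‖ ≤ 1) (hs : ∀ n < N, z (n + 1) = z n * ee (δ n))
    (h1 : ∀ n, n + 1 < N → lam ≤ δ (n + 1) - δ n) {D : ℝ} (hD : 0 < D) (hD2 : D ≤ 1/2) (m : ℤ) :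
    ‖∑ n ∈ (Finset.range N).filter (fun n => (m : ℝ) + D ≤ δ n ∧ δ n ≤ m + 1 - D), z n‖ ≤ 2 / D := by
  set T := (Finset.range N).filter (fun n => (m : ℝ) + D ≤ δ n ∧ δ n ≤ m + 1 - D) with hT
  rcases T.eq_empty_or_nonempty with h | h
  · rw [h]; simp; (clear * - hD; positivity)
  · have hp := T.min'_mem h
    have hq := T.max'_mem h
    set p := T.min' h with hpdef
    set q := T.max' h with hqdef
    have hpq : p ≤ q := T.min'_le _ hq
    have hpm := (Finset.mem_filter.1 hp)
    have hqm := (Finset.mem_filter.1 hq)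
    exact by
      have hqN : q < N := Finset.mem_range.1 hqm.1
      obtain ⟨k, hk⟩ := Nat.exists_eq_add_of_le hpq
      have hTI : T = Finset.Icc p q := by
        ext n
        constructor
        · intro hn
          exact Finset.mem_Icc.2 ⟨T.min'_le _ hn, T.le_max' _ hn⟩
        · intro hn
          rw [Finset.mem_Icc] at hn
          rw [hT, Finset.mem_filter]
          refine ⟨Finset.mem_range.2 (by omega), ?_, ?_⟩
          · exact hpm.2.1.trans (delta_mono hl h1 hn.1 (by omega))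
          · exact (delta_mono hl h1 hn.2 hqN).trans hqm.2.2
      have hsum : ∑ n ∈ T, z n = ∑ i ∈ Finset.range (k + 1), z (p + i) := by
        rw [hTI, hk]
        rw [← Finset.Ico_add_one_right_eq_Icc, Finset.sum_Ico_eq_sum_range]
        congr 1
        congr 1
        omega
      rw [hsum]
      refine KL hD hD2 (fun i => z (p + i)) (fun i => δ (p + i) - m) k (fun n => hz _) ?_ ?_ ?_
      · intro i hi
        have : p + i ∈ T := by
          rw [hTI, Finset.mem_Icc]; omega
        have := (Finset.mem_filter.1 this).2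
        constructor <;> (clear * - this; linarith [this.1, this.2])
      · intro i hi
        have := h1 (p + i) (by omega)
        have e : p + (i + 1) = p + i + 1 := by ring
        simp only [e]
        (clear * - hl this; linarith)
      · intro i hi
        have := hs (p + i) (by omega)
        have e : p + (i + 1) = p + i + 1 := by ring
        simp only [e]
        rw [this, ee_sub_int]

theorem class_le (hl : 0 < lam) (hz : ∀ n, ‖z n‖ ≤ 1) (hs : ∀ n < N, z (n + 1) = z n * ee (δ n))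
    (h1 : ∀ n, n + 1 < N → lam ≤ δ (n + 1) - δ n) {D : ℝ} (hD : 0 < D) (hD2 : D ≤ 1/4) (m : ℤ) :
    ‖∑ n ∈ (Finset.range N).filter (fun n => ⌊δ n⌋ = m), z n‖ ≤ 2 / D + 2 * (D / lam + 1) := by
  set T := (Finset.range N).filter (fun n => ⌊δ n⌋ = m) with hT
  set T1 := (Finset.range N).filter (fun n => (m : ℝ) + D ≤ δ n ∧ δ n ≤ m + 1 - D) with hT1
  set T2 := (Finset.range N).filter (fun n => (m : ℝ) ≤ δ n ∧ δ n < m + D) with hT2
  set T3 := (Finset.range N).filter (fun n => (m : ℝ) + 1 - D < δ n ∧ δ n < m + 1) with hT3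
  have d12 : Disjoint T1 T2 := by
    rw [Finset.disjoint_left]
    intro n h h'
    have h1' := (Finset.mem_filter.1 h).2
    have h2' := (Finset.mem_filter.1 h').2
    (clear * - h1' h2'; linarith [h1'.1, h2'.2])
  have d3 : Disjoint (T1 ∪ T2) T3 := by
    rw [Finset.disjoint_left]
    intro n h h'
    have h2' := (Finset.mem_filter.1 h').2
    rcases Finset.mem_union.1 h with h | h
    · have h1' := (Finset.mem_filter.1 h).2
      (clear * - h2' h1'; linarith [h1'.2, h2'.1])
    · have h1' := (Finset.mem_filter.1 h).2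
      linarith [h1'.2, h2'.1]
  exact by
    have hU : T = (T1 ∪ T2) ∪ T3 := by
      ext n
      rw [Finset.mem_union, Finset.mem_union, hT, hT1, hT2, hT3]
      simp only [Finset.mem_filter, Finset.mem_range, Int.floor_eq_iff]
      constructor
      · rintro ⟨hn, ha, hb⟩
        rcases lt_or_ge (δ n) (m + D) with h | h
        · exact Or.inl (Or.inr ⟨hn, ha, h⟩)
        · rcases le_or_gt (δ n) (m + 1 - D) with h' | h'
          · exact Or.inl (Or.inl ⟨hn, h, h'⟩)
          · exact Or.inr ⟨hn, h', hb⟩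
      · rintro ((⟨hn, ha, hb⟩ | ⟨hn, ha, hb⟩) | ⟨hn, ha, hb⟩)
        · exact ⟨hn, by (clear * - hD ha; linarith), by (clear * - hD hb; linarith)⟩
        · exact ⟨hn, by (clear * - ha; linarith), by linarith⟩
        · exact ⟨hn, by linarith, by (clear * - hb; linarith)⟩
    rw [hU, Finset.sum_union d3, Finset.sum_union d12]
    have b1 := mid_le hl hz hs h1 hD (by linarith) m
    rw [← hT1] at b1
    have triv : ∀ S : Finset ℕ, ‖∑ n ∈ S, z n‖ ≤ S.card := by
      intro S
      refine (norm_sum_le _ _).trans ?_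
      refine (Finset.sum_le_sum (fun n _ => hz n)).trans ?_
      simp
    have b2 : ‖∑ n ∈ T2, z n‖ ≤ D / lam + 1 := by
      refine (triv T2).trans ?_
      refine count_le hl h1 T2 (Finset.filter_subset _ _) (u := m) (D := D) hD.le ?_
      intro n hn
      have := (Finset.mem_filter.1 hn).2
      exact ⟨this.1, this.2.le⟩
    have b3 : ‖∑ n ∈ T3, z n‖ ≤ D / lam + 1 := by
      refine (triv T3).trans ?_
      refine count_le hl h1 T3 (Finset.filter_subset _ _) (u := m + 1 - D) (D := D) hD.le ?_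
      intro n hn
      have := (Finset.mem_filter.1 hn).2
      exact ⟨this.1.le, by (clear * - this; linarith [this.2])⟩
    calc _ ≤ ‖∑ n ∈ T1, z n‖ + ‖∑ n ∈ T2, z n‖ + ‖∑ n ∈ T3, z n‖ := norm_add₃_le
      _ ≤ _ := by linarith

theorem seq_bound (hl : 0 < lam) (hA : 1 ≤ A) (hz : ∀ n, ‖z n‖ ≤ 1)
    (hs : ∀ n < N, z (n + 1) = z n * ee (δ n))
    (h1 : ∀ n, n + 1 < N → lam ≤ δ (n + 1) - δ n)
    (h2 : ∀ n, n + 1 < N → δ (n + 1) - δ n ≤ A * lam) (hlam : Real.sqrt lam ≤ 1/4) :
    ‖∑ n ∈ Finset.range N, z n‖ ≤ (A * lam * N + 2) * (5 / Real.sqrt lam) := by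
  have hr : 0 < Real.sqrt lam := Real.sqrt_pos.2 hl
  rcases Nat.eq_zero_or_pos N with hN | hN
  · subst hN
    simp
    positivity
  set K := (Finset.range N).image (fun n => ⌊δ n⌋) with hK
  have hsum : ∑ n ∈ Finset.range N, z n =
      ∑ m ∈ K, ∑ n ∈ (Finset.range N).filter (fun n => ⌊δ n⌋ = m), z n := by
    rw [Finset.sum_fiberwise_of_maps_to]
    intro n hn
    exact Finset.mem_image_of_mem _ hn
  have hcard : (K.card : ℝ) ≤ A * lam * N + 2 := by
    have hsub : K ⊆ Finset.Icc ⌊δ 0⌋ ⌊δ (N - 1)⌋ := by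
      intro m hm
      obtain ⟨n, hn, rfl⟩ := Finset.mem_image.1 hm
      have hn' := Finset.mem_range.1 hn
      rw [Finset.mem_Icc]
      exact ⟨Int.floor_le_floor (delta_mono hl h1 (Nat.zero_le n) hn'),
        Int.floor_le_floor (delta_mono hl h1 (by omega) (by omega))⟩
    have h3 := Finset.card_le_card hsub
    rw [Int.card_Icc] at h3
    have h01 : ⌊δ 0⌋ ≤ ⌊δ (N - 1)⌋ :=
      Int.floor_le_floor (delta_mono hl h1 (Nat.zero_le _) (by omega))
    have h4 : (K.card : ℤ) ≤ ⌊δ (N - 1)⌋ + 1 - ⌊δ 0⌋ := by omega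
    have h5 : (K.card : ℝ) ≤ ⌊δ (N - 1)⌋ + 1 - ⌊δ 0⌋ := by exact_mod_cast h4
    have h6 := delta_diff_up h2 (N - 1) 0 (by omega)
    rw [zero_add] at h6
    have h7 := Int.floor_le (δ (N - 1))
    have h8 := Int.sub_one_lt_floor (δ 0)
    have h9 : ((N - 1 : ℕ) : ℝ) * (A * lam) ≤ A * lam * N := by
      rw [mul_comm]
      apply mul_le_mul_of_nonneg_left _ (by positivity)
      exact_mod_cast Nat.sub_le N 1
    (clear * - h5 h6 h7 h8 h9; linarith)
  rw [hsum]
  refine (norm_sum_le _ _).trans ?_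
  have hc : ∀ m ∈ K, ‖∑ n ∈ (Finset.range N).filter (fun n => ⌊δ n⌋ = m), z n‖ ≤
      5 / Real.sqrt lam := by
    intro m _
    refine (class_le hl hz hs h1 hr hlam m).trans ?_
    have e1 : Real.sqrt lam / lam = 1 / Real.sqrt lam := by
      rw [div_eq_div_iff hl.ne' hr.ne', Real.mul_self_sqrt hl.le, one_mul]
    rw [e1]
    have : 4 ≤ 1 / Real.sqrt lam := by
      rw [le_div_iff₀ hr]; (clear * - hlam; linarith)
    have e2 : 5 / Real.sqrt lam = 2 / Real.sqrt lam + 3 * (1 / Real.sqrt lam) := by ring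
    rw [e2]
    (clear * - hlam hr this; linarith)
  refine (Finset.sum_le_card_nsmul _ _ _ hc).trans ?_
  rw [nsmul_eq_mul]
  exact mul_le_mul_of_nonneg_right hcard (by positivity)

end seq

end Pool.Agent.Helper64.QRH

end

section

set_option autoImplicit false

open scoped ComplexConjugate

namespace Pool.Agent.Helper67.KSZ

open Pool.Agent.Helper10.QRH (ee)

open Pool.Agent.Helper64.QRH (ee_add ee_eq norm_ee seq_bound)

/-- iterated forward differences -/
noncomputable def dk : ℕ → (ℕ → ℝ) → ℕ → ℝ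
  | 0, f => f
  | k + 1, f => dk k (fun n => f (n + 1) - f n)

theorem dk_shift (k : ℕ) : ∀ (f : ℕ → ℝ) (r n : ℕ), dk k (fun n => f (n + r)) n = dk k f (n + r) := by
  induction k with
  | zero => intro f r n; rfl
  | succ k ih =>
    intro f r n
    show dk k (fun n => f (n + 1 + r) - f (n + r)) n = dk k (fun n => f (n + 1) - f n) (n + r)
    rw [← ih (fun n => f (n + 1) - f n) r n]
    congr 1
    funext m
    have : m + 1 + r = m + r + 1 := by ring
    rw [this]

theorem dk_sub (k : ℕ) : ∀ (f g : ℕ → ℝ) (n : ℕ),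
    dk k (fun n => f n - g n) n = dk k f n - dk k g n := by
  induction k with
  | zero => intro f g n; rfl
  | succ k ih =>
    intro f g n
    show dk k (fun n => (f (n + 1) - g (n + 1)) - (f n - g n)) n =
      dk k (fun n => f (n + 1) - f n) n - dk k (fun n => g (n + 1) - g n) n
    rw [← ih]
    congr 1
    funext m
    ring

theorem dk_succ (k : ℕ) (f : ℕ → ℝ) (n : ℕ) : dk (k + 1) f n = dk k f (n + 1) - dk k f n := by
  show dk k (fun n => f (n + 1) - f n) n = _
  rw [dk_sub k (fun n => f (n + 1)) f n, dk_shift]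

theorem dk_diff (k : ℕ) (f : ℕ → ℝ) (r n : ℕ) :
    dk k (fun n => f (n + r) - f n) n = ∑ j ∈ Finset.range r, dk (k + 1) f (n + j) := by
  rw [dk_sub k (fun n => f (n + r)) f n, dk_shift]
  have : ∀ j ∈ Finset.range r, dk (k + 1) f (n + j) =
      (fun j => dk k f (n + j)) (j + 1) - (fun j => dk k f (n + j)) j := by
    intro j _
    rw [dk_succ]
    rfl
  rw [Finset.sum_congr rfl this, Finset.sum_range_sub (fun j => dk k f (n + j)) r]
  simp

/-- the k-th difference test -/
def KTest (k : ℕ) (α β C : ℝ) : Prop := ∀ (N : ℕ) (f : ℕ → ℝ) (lam A : ℝ), 0 < lam → 1 ≤ A →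
  (∀ n, n + k ≤ N → lam ≤ dk k f n ∧ dk k f n ≤ A * lam) →
  ‖∑ n ∈ Finset.range N, ee (f n)‖ ≤
    C * A * (N * lam ^ α + (N : ℝ) ^ (1 - β) * lam ^ (-α))

theorem norm_sum_ee_le (N : ℕ) (f : ℕ → ℝ) : ‖∑ n ∈ Finset.range N, ee (f n)‖ ≤ N := by
  refine (norm_sum_le _ _).trans ?_
  rw [Finset.sum_congr rfl (fun n _ => norm_ee (f n))]
  simp

theorem conj_ee (x : ℝ) : conj (ee x) = ee (-x) := by
  rw [ee_eq, ee_eq, map_add, map_mul, Complex.conj_ofReal, Complex.conj_ofReal, Complex.conj_I,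
    mul_neg, mul_neg, Real.cos_neg, Real.sin_neg]
  push_cast
  ring

theorem corr_ee (f : ℕ → ℝ) (N r : ℕ) :
    corr (fun n => ee (f n)) N r = ∑ n ∈ Finset.range (N - r), ee (f (n + r) - f n) := by
  unfold corr
  apply Finset.sum_congr rfl
  intro n _
  rw [conj_ee, ← ee_add, sub_eq_add_neg]

theorem ktest_two : KTest 2 (1 / 2) 1 10 := by
  intro N f lam A hl hA h
  rcases Nat.eq_zero_or_pos N with hN | hN
  · subst hN
    simp only [Finset.range_zero, Finset.sum_empty, norm_zero]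
    positivity
  have hN' : (1 : ℝ) ≤ N := by exact_mod_cast hN
  have hr : 0 < Real.sqrt lam := Real.sqrt_pos.2 hl
  rw [← Real.sqrt_eq_rpow, Real.rpow_neg hl.le, ← Real.sqrt_eq_rpow, sub_self, Real.rpow_zero,
    one_mul]
  by_cases hs : Real.sqrt lam ≤ 1 / 4
  · have h1 := seq_bound (z := fun n => ee (f n)) (δ := fun n => f (n + 1) - f n) (N := N)
      (lam := lam) (A := A) hl hA (fun n => (norm_ee _).le)
      (fun n _ => by rw [← ee_add]; congr 1; ring)
      (fun n hn => (h n (by omega)).1) (fun n hn => (h n (by omega)).2) hs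
    refine h1.trans ?_
    have e : A * lam * N * (5 / Real.sqrt lam) = 5 * A * N * Real.sqrt lam := by
      have : lam = Real.sqrt lam * Real.sqrt lam := (Real.mul_self_sqrt hl.le).symm
      field_simp
      nlinarith [Real.sq_sqrt hl.le]
    have h2 : (A * lam * N + 2) * (5 / Real.sqrt lam) =
        5 * A * N * Real.sqrt lam + 10 * (Real.sqrt lam)⁻¹ := by
      rw [add_mul, e]; ring
    exact by
      rw [h2]
      have h3 : 0 < (Real.sqrt lam)⁻¹ := inv_pos.2 hr
      have h4 : 0 < A * N * Real.sqrt lam := by positivity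
      nlinarith
  · refine (norm_sum_ee_le N f).trans ?_
    push Not at hs
    have h3 : 0 < (Real.sqrt lam)⁻¹ := inv_pos.2 hr
    have h4 : (N : ℝ) * (1 / 4) ≤ N * Real.sqrt lam := by nlinarith
    have h5 : 0 ≤ N * Real.sqrt lam := by positivity
    calc (N : ℝ) ≤ 10 * 1 * (N * Real.sqrt lam + 0) := by linarith
      _ ≤ 10 * A * (N * Real.sqrt lam + (Real.sqrt lam)⁻¹) := by gcongr

end Pool.Agent.Helper67.KSZ

end

section

set_option autoImplicit false

open Finset

namespace Pool.Agent.Helper59.NX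

open Pool.Agent.Helper10.QRH (ee)

open Pool.Agent.Helper64.QRH (ee_add norm_ee)

open Pool.Agent.Helper67.KSZ

/-- The weak difference test. -/
def WT (j : ℕ) : Prop := ∀ A ε : ℝ, 1 ≤ A → 0 < ε → ∃ σ : ℝ, 0 < σ ∧ ∃ N0 : ℕ, ∀ N : ℕ, N0 ≤ N →
  ∀ lam : ℝ, (N : ℝ) ^ (-(j : ℝ) + ε) ≤ lam → lam ≤ (N : ℝ) ^ (-ε) → ∀ f : ℕ → ℝ,
  (∀ n, n + j ≤ N → lam ≤ dk j f n ∧ dk j f n ≤ A * lam) →
  ‖∑ n ∈ range N, ee (f n)‖ ≤ (N : ℝ) ^ (1 - σ)

/-- Powers of large numbers beat constants. -/
theorem exists_pow_ge (B ε : ℝ) (hε : 0 < ε) : ∃ N0 : ℕ, 1 ≤ N0 ∧ ∀ N : ℕ, N0 ≤ N →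
    B ≤ (N : ℝ) ^ ε := by
  have h := (tendsto_rpow_atTop hε).comp tendsto_natCast_atTop_atTop (α := ℕ)
  obtain ⟨N0, h0⟩ := Filter.eventually_atTop.mp (h.eventually_ge_atTop B)
  exact ⟨max N0 1, le_max_right _ _, fun N hN => h0 N ((le_max_left _ _).trans hN)⟩

theorem wt_two : WT 2 := by
  intro A ε hA hε
  obtain ⟨N0, h1, h0⟩ := exists_pow_ge (20 * A) (ε / 4) (by positivity)
  refine ⟨ε / 4, by positivity, N0, fun N hN lam hl hu f hf => ?_⟩
  have hN1 : (1 : ℝ) ≤ N := by exact_mod_cast h1.trans hN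
  have hN0 : (0 : ℝ) < N := by linarith
  have hlam : 0 < lam := lt_of_lt_of_le (Real.rpow_pos_of_pos hN0 _) hl
  have h2 := ktest_two N f lam A hlam hA hf
  refine h2.trans ?_
  have e1 : lam ^ ((1 : ℝ) / 2) ≤ (N : ℝ) ^ (-(ε / 2)) := by
    refine (Real.rpow_le_rpow hlam.le hu (by norm_num)).trans ?_
    rw [← Real.rpow_mul hN0.le]
    exact le_of_eq (by ring_nf)
  have e2 : lam ^ (-((1 : ℝ) / 2)) ≤ (N : ℝ) ^ (1 - ε / 2) := by
    refine (Real.rpow_le_rpow_of_nonpos (Real.rpow_pos_of_pos hN0 _) hl (by norm_num)).trans ?_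
    rw [← Real.rpow_mul hN0.le]
    exact le_of_eq (by push_cast; ring_nf)
  have e3 : (N : ℝ) ^ ((1 : ℝ) - 1) = 1 := by rw [sub_self, Real.rpow_zero]
  rw [e3, one_mul]
  have e4 : (N : ℝ) * (N : ℝ) ^ (-(ε / 2)) = (N : ℝ) ^ (1 - ε / 2) := by
    rw [sub_eq_add_neg, Real.rpow_add hN0, Real.rpow_one]
  have e5 : (N : ℝ) * lam ^ ((1 : ℝ) / 2) ≤ (N : ℝ) ^ (1 - ε / 2) := by
    rw [← e4]; exact mul_le_mul_of_nonneg_left e1 hN0.le
  calc 10 * A * ((N : ℝ) * lam ^ ((1 : ℝ) / 2) + lam ^ (-((1 : ℝ) / 2)))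
      ≤ 10 * A * ((N : ℝ) ^ (1 - ε / 2) + (N : ℝ) ^ (1 - ε / 2)) := by gcongr
    _ = 20 * A * (N : ℝ) ^ (1 - ε / 2) := by ring
    _ ≤ (N : ℝ) ^ (ε / 4) * (N : ℝ) ^ (1 - ε / 2) := by
        exact mul_le_mul_of_nonneg_right (h0 N hN) (Real.rpow_nonneg hN0.le _)
    _ = (N : ℝ) ^ (1 - ε / 4) := by
        rw [← Real.rpow_add hN0]; congr 1; ring

/-- Monotonicity in `ε`. -/
theorem wt_of_small {j : ℕ} (h : ∀ A ε : ℝ, 1 ≤ A → 0 < ε → ε ≤ 1 → ∃ σ : ℝ, 0 < σ ∧ ∃ N0 : ℕ,
    ∀ N : ℕ, N0 ≤ N →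
    ∀ lam : ℝ, (N : ℝ) ^ (-(j : ℝ) + ε) ≤ lam → lam ≤ (N : ℝ) ^ (-ε) → ∀ f : ℕ → ℝ,
    (∀ n, n + j ≤ N → lam ≤ dk j f n ∧ dk j f n ≤ A * lam) →
    ‖∑ n ∈ range N, ee (f n)‖ ≤ (N : ℝ) ^ (1 - σ)) : WT j := by
  intro A ε hA hε
  obtain ⟨σ, hσ, N0, h0⟩ := h A (min ε 1) hA (lt_min hε one_pos) (min_le_right _ _)
  refine ⟨σ, hσ, max N0 1, fun N hN lam hl hu f hf => ?_⟩
  have hN1 : (1 : ℝ) ≤ N := by exact_mod_cast (le_max_right _ _).trans hN
  refine h0 N ((le_max_left _ _).trans hN) lam (le_trans ?_ hl) (hu.trans ?_) f hf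
  · exact Real.rpow_le_rpow_of_exponent_le hN1 (by linarith [min_le_left ε 1])
  · exact Real.rpow_le_rpow_of_exponent_le hN1 (by linarith [min_le_left ε 1])

end Pool.Agent.Helper59.NX

end

section

set_option autoImplicit false

open Finset

namespace Pool.Agent.Helper59.NX

open Pool.Agent.Helper10.QRH (ee)

open Pool.Agent.Helper64.QRH (ee_add norm_ee)

open Pool.Agent.Helper67.KSZ

/-- Counting in the differencing step. -/
theorem sum_split (H : ℕ) (c : ℕ → ℝ) (N U h0 : ℝ) (hU : 0 ≤ U) (hN : 0 ≤ N) (hh0 : 0 ≤ h0)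
    (h1 : ∀ x, x < H → c x ≤ N)
    (h2 : ∀ x, x < H → h0 ≤ ((x + 1 : ℕ) : ℝ) → c x ≤ U) :
    ∑ x ∈ range H, c x ≤ H * U + h0 * N := by
  classical
  have h3 : ∀ x ∈ range H, c x ≤ U + (if ((x + 1 : ℕ) : ℝ) < h0 then N else 0) := by
    intro x hx
    by_cases h : ((x + 1 : ℕ) : ℝ) < h0
    · rw [if_pos h]
      (clear * - hU h1 hx; linarith [h1 x (mem_range.1 hx)])
    · rw [if_neg h, add_zero]
      exact h2 x (mem_range.1 hx) (not_lt.mp h)
  refine (sum_le_sum h3).trans ?_
  rw [sum_add_distrib, sum_const, card_range, nsmul_eq_mul, ← sum_filter, sum_const, nsmul_eq_mul]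
  have h4 : ((filter (fun x => ((x + 1 : ℕ) : ℝ) < h0) (range H)).card : ℝ) ≤ h0 := by
    have h5 : filter (fun x => ((x + 1 : ℕ) : ℝ) < h0) (range H) ⊆ range ⌊h0⌋₊ := by
      intro x hx
      rw [mem_filter] at hx
      rw [mem_range]
      have : x + 1 ≤ ⌊h0⌋₊ := Nat.le_floor hx.2.le
      omega
    have h6 := card_le_card h5
    rw [card_range] at h6
    exact (Nat.cast_le.mpr h6).trans (Nat.floor_le hh0)
  have := mul_le_mul_of_nonneg_right h4 hN
  linarith

theorem wt_succ {j : ℕ} (hj : 2 ≤ j) (h : WT j) : WT (j + 1) := by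
  apply wt_of_small
  intro A ε hA hε hε1
  obtain ⟨σ1, hσ1, N1, h1⟩ := h A (ε / 4) hA (by positivity)
  set τ : ℝ := min (ε / 4) (min σ1 1) with hτ
  have hτ0 : 0 < τ := lt_min (by positivity) (lt_min hσ1 one_pos)
  have hτε : τ ≤ ε / 4 := min_le_left _ _
  have hτσ : τ ≤ σ1 := (min_le_right _ _).trans (min_le_left _ _)
  have hτ1 : τ ≤ 1 := (min_le_right _ _).trans (min_le_right _ _)
  obtain ⟨N2, h21, h2⟩ := exists_pow_ge 4 (τ / 4) (by positivity)
  obtain ⟨N3, h31, h3⟩ := exists_pow_ge (2 ^ j) (ε / 4) (by positivity)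
  refine ⟨τ / 4, by positivity, max (2 * N1) (max N2 N3), fun N hN lam hl hu f hf => ?_⟩
  exact by
    have hNN1 : 2 * N1 ≤ N := (le_max_left _ _).trans hN
    have hNN2 : N2 ≤ N := ((le_max_left _ _).trans (le_max_right _ _)).trans hN
    have hNN3 : N3 ≤ N := ((le_max_right _ _).trans (le_max_right _ _)).trans hN
    have hN1 : (1 : ℝ) ≤ N := by exact_mod_cast h21.trans hNN2
    have hN0 : (0 : ℝ) < N := by (clear * - hε1 hτ0 hτε hN1; linarith)
    have hj2 : (2 : ℝ) ≤ j := by exact_mod_cast hj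
    exact by
      have hpos : ∀ x : ℝ, 0 < (N : ℝ) ^ x := fun x => Real.rpow_pos_of_pos hN0 x
      have hmono : ∀ x y : ℝ, x ≤ y → (N : ℝ) ^ x ≤ (N : ℝ) ^ y := fun x y hxy =>
        Real.rpow_le_rpow_of_exponent_le hN1 hxy
      have hmul : ∀ x y : ℝ, (N : ℝ) ^ x * (N : ℝ) ^ y = (N : ℝ) ^ (x + y) := fun x y =>
        (Real.rpow_add hN0 x y).symm
      have hlam : 0 < lam := lt_of_lt_of_le (hpos _) hl
      have h2j : (2 : ℝ) ^ j ≤ (N : ℝ) ^ (ε / 4) := h3 N hNN3
      have h22 : (2 : ℝ) ≤ (N : ℝ) ^ (ε / 4) := by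
        refine le_trans ?_ h2j
        calc (2 : ℝ) = 2 ^ 1 := by norm_num
          _ ≤ 2 ^ j := pow_le_pow_right₀ (by norm_num) (by omega)
      -- the length of the differencing
      exact by
        set Hs : ℝ := min ((N : ℝ) ^ (1 - ε / 4)) ((N : ℝ) ^ (-(ε / 2)) / lam) with hHs
        have hHs1 : (N : ℝ) ^ (ε / 2) ≤ Hs := by
          refine le_min (hmono _ _ (by (clear * - hε1 hτ0 hτε; linarith))) ?_
          rw [le_div_iff₀ hlam]
          calc (N : ℝ) ^ (ε / 2) * lam ≤ (N : ℝ) ^ (ε / 2) * (N : ℝ) ^ (-ε) :=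
                mul_le_mul_of_nonneg_left hu (hpos _).le
            _ = (N : ℝ) ^ (-(ε / 2)) := by rw [hmul]; congr 1; ring
        have hHs2 : 2 ≤ Hs := by
          refine le_trans (h22.trans (hmono _ _ (by (clear * - hτ0 hτε; linarith)))) hHs1
        have hHs3 : Hs ≤ N / 2 := by
          refine (min_le_left _ _).trans ?_
          rw [le_div_iff₀ (by norm_num : (0 : ℝ) < 2)]
          calc (N : ℝ) ^ (1 - ε / 4) * 2 ≤ (N : ℝ) ^ (1 - ε / 4) * (N : ℝ) ^ (ε / 4) :=
                mul_le_mul_of_nonneg_left h22 (hpos _).le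
            _ = N := by rw [hmul]; ring_nf; rw [Real.rpow_one]
        have hHsl : Hs * lam ≤ (N : ℝ) ^ (-(ε / 2)) := by
          rw [← le_div_iff₀ hlam]
          exact min_le_right _ _
        have hHsl' : (N : ℝ) ^ (-(j : ℝ) + 3 * ε / 4) ≤ Hs * lam := by
          rw [← div_le_iff₀ hlam]
          refine le_min ?_ ?_
          · rw [div_le_iff₀ hlam]
            calc (N : ℝ) ^ (-(j : ℝ) + 3 * ε / 4)
                = (N : ℝ) ^ (1 - ε / 4) * (N : ℝ) ^ (-((j + 1 : ℕ) : ℝ) + ε) := by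
                  rw [hmul]; congr 1; push_cast; ring
              _ ≤ (N : ℝ) ^ (1 - ε / 4) * lam := mul_le_mul_of_nonneg_left hl (hpos _).le
          · exact div_le_div_of_nonneg_right (hmono _ _ (by (clear * - hε1 hτ0 hτε hj2; linarith))) hlam.le
        exact by
          set H : ℕ := ⌊Hs⌋₊ with hH
          have hHle : (H : ℝ) ≤ Hs := Nat.floor_le (by (clear * - hε1 hτ0 hτε hHs2; linarith))
          have hHge : Hs / 2 ≤ H := by
            have := Nat.lt_floor_add_one Hs
            rw [← hH] at this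
            (clear * - hHs2 this; linarith)
          have hH1 : 1 ≤ H := by
            rw [hH]
            exact Nat.le_floor (by push_cast; (clear * - hε1 hτ0 hτε hHs2; linarith))
          have hHN : H ≤ N := by
            have : (H : ℝ) ≤ N := by (clear * - hε1 hτ0 hτε hHs2 hHs3 hHle; linarith)
            exact_mod_cast this
          -- correlations
          have hc0 : ∀ r, ‖corr (fun n => ee (f n)) N r‖ ≤ N := by
            intro r
            rw [corr_ee]
            refine (norm_sum_ee_le (N - r) _).trans ?_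
            exact_mod_cast Nat.sub_le _ _
          exact by
            have hc1 : ∀ x, x < H - 1 → Hs * (N : ℝ) ^ (-(ε / 4)) ≤ ((x + 1 : ℕ) : ℝ) →
                ‖corr (fun n => ee (f n)) N (x + 1)‖ ≤ (N : ℝ) ^ (1 - τ) := by
              intro x hx hx'
              rw [corr_ee]
              set r : ℕ := x + 1 with hr
              have hrH : (r : ℝ) ≤ Hs := by
                refine le_trans ?_ hHle
                exact_mod_cast (by omega : r ≤ H)
              have hrN : 2 * r ≤ N := by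
                have : (2 : ℝ) * r ≤ N := by (clear * - hHs3 hrH; linarith)
                exact_mod_cast this
              have hNr : ((N - r : ℕ) : ℝ) = N - r := by
                rw [Nat.cast_sub (by omega)]
              have hNr2 : (N : ℝ) / 2 ≤ ((N - r : ℕ) : ℝ) := by
                rw [hNr]
                have : (2 : ℝ) * r ≤ N := by exact_mod_cast hrN
                (clear * - hHs3 hrH; linarith)
              have hr0 : (0 : ℝ) < r := by
                rw [hr]; positivity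
              have hrpos : (1 : ℝ) ≤ ((N - r : ℕ) : ℝ) := by
                have h1' : 1 ≤ N - r := by omega
                exact_mod_cast h1'
              have hrN' : ((N - r : ℕ) : ℝ) ≤ N := by
                exact_mod_cast Nat.sub_le _ _
              have key := h1 (N - r) (by omega) (r * lam) ?_ ?_ (fun n => f (n + r) - f n) ?_
              · refine key.trans ?_
                refine (Real.rpow_le_rpow_of_exponent_le hrpos (by (clear * - hτσ; linarith) : 1 - σ1 ≤ 1 - τ)).trans ?_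
                exact Real.rpow_le_rpow (by (clear * - hε1 hτ0 hτε hHs2 hHs3 hrH hNr; linarith)) hrN' (by (clear * - hε1 hτ0 hτε; linarith))
              · -- lower bound for `r * lam`
                have e1 : ((N - r : ℕ) : ℝ) ^ (-(j : ℝ) + ε / 4) ≤ ((N : ℝ) / 2) ^ (-(j : ℝ) + ε / 4) :=
                  Real.rpow_le_rpow_of_nonpos (by (clear * - hε1 hτ0 hτε hHs2 hHs3; linarith)) hNr2 (by (clear * - hε1 hτ0 hτε hj2; linarith))
                exact by
                  have e2 : ((N : ℝ) / 2) ^ (-(j : ℝ) + ε / 4) =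
                      (N : ℝ) ^ (-(j : ℝ) + ε / 4) * (2 : ℝ) ^ ((j : ℝ) - ε / 4) := by
                    rw [Real.div_rpow hN0.le (by norm_num), div_eq_mul_inv, ← Real.rpow_neg (by norm_num)]
                    congr 2
                    ring
                  have e3 : (2 : ℝ) ^ ((j : ℝ) - ε / 4) ≤ (2 : ℝ) ^ j := by
                    rw [← Real.rpow_natCast]
                    exact Real.rpow_le_rpow_of_exponent_le (by norm_num) (by (clear * - hτ0 hτε; linarith))
                  have e4 : ((N : ℝ) / 2) ^ (-(j : ℝ) + ε / 4) ≤ (N : ℝ) ^ (-(j : ℝ) + ε / 2) := by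
                    rw [e2]
                    calc (N : ℝ) ^ (-(j : ℝ) + ε / 4) * (2 : ℝ) ^ ((j : ℝ) - ε / 4)
                        ≤ (N : ℝ) ^ (-(j : ℝ) + ε / 4) * (N : ℝ) ^ (ε / 4) :=
                          mul_le_mul_of_nonneg_left (e3.trans h2j) (hpos _).le
                      _ = (N : ℝ) ^ (-(j : ℝ) + ε / 2) := by rw [hmul]; congr 1; ring
                  have e5 : (N : ℝ) ^ (-(j : ℝ) + ε / 2) ≤ r * lam := by
                    calc (N : ℝ) ^ (-(j : ℝ) + ε / 2)
                        = (N : ℝ) ^ (-(j : ℝ) + 3 * ε / 4) * (N : ℝ) ^ (-(ε / 4)) := by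
                          rw [hmul]; congr 1; ring
                      _ ≤ (Hs * lam) * (N : ℝ) ^ (-(ε / 4)) :=
                          mul_le_mul_of_nonneg_right hHsl' (hpos _).le
                      _ = (Hs * (N : ℝ) ^ (-(ε / 4))) * lam := by ring
                      _ ≤ r * lam := mul_le_mul_of_nonneg_right hx' hlam.le
                  exact e1.trans (e4.trans e5)
              · -- upper bound
                calc (r : ℝ) * lam ≤ Hs * lam := mul_le_mul_of_nonneg_right hrH hlam.le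
                  _ ≤ (N : ℝ) ^ (-(ε / 2)) := hHsl
                  _ ≤ (N : ℝ) ^ (-(ε / 4)) := hmono _ _ (by (clear * - hτ0 hτε; linarith))
                  _ ≤ ((N - r : ℕ) : ℝ) ^ (-(ε / 4)) :=
                      Real.rpow_le_rpow_of_nonpos (by (clear * - hε1 hτ0 hτε hHs2 hHs3 hrH hNr; linarith)) hrN' (by (clear * - hτ0 hτε; linarith))
              · intro n hn
                rw [dk_diff]
                have hb : ∀ i ∈ range r, lam ≤ dk (j + 1) f (n + i) ∧ dk (j + 1) f (n + i) ≤ A * lam := by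
                  intro i hi
                  rw [mem_range] at hi
                  exact hf (n + i) (by (clear * - hj ε N1 N2 N3 lam hn hi; omega))
                constructor
                · have := card_nsmul_le_sum (range r) (fun i => dk (j + 1) f (n + i)) lam
                    (fun i hi => (hb i hi).1)
                  rwa [card_range, nsmul_eq_mul] at this
                · have := sum_le_card_nsmul (range r) (fun i => dk (j + 1) f (n + i)) (A * lam)
                    (fun i hi => (hb i hi).2)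
                  rw [card_range, nsmul_eq_mul] at this
                  (clear * - this; linarith)
            -- conclusion
            have hW := weyl_vdc (fun n => ee (f n)) N H hH1
            have hS := sum_split (H - 1) (fun x => ‖corr (fun n => ee (f n)) N (x + 1)‖) N
              ((N : ℝ) ^ (1 - τ)) (Hs * (N : ℝ) ^ (-(ε / 4))) (hpos _).le hN0.le
              (mul_nonneg (by (clear * - hε1 hτ0 hτε hHs2; linarith)) (hpos _).le) (fun x _ => hc0 _) hc1
            have hNτ : (N : ℝ) ^ (-τ) * N = (N : ℝ) ^ (1 - τ) := by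
              nth_rewrite 2 [← Real.rpow_one (N : ℝ)]
              rw [hmul]; congr 1; ring
            have hS2 : ∑ x ∈ range (H - 1), ‖corr (fun n => ee (f n)) N (x + 1)‖ ≤
                3 * H * (N : ℝ) ^ (1 - τ) := by
              have a1 : ((H - 1 : ℕ) : ℝ) ≤ H := by exact_mod_cast Nat.sub_le _ _
              have a2 : Hs * (N : ℝ) ^ (-(ε / 4)) ≤ 2 * H * (N : ℝ) ^ (-τ) := by
                have a3 : Hs ≤ 2 * H := by (clear * - hHge; linarith)
                exact mul_le_mul a3 (hmono _ _ (by (clear * - hτε; linarith))) (hpos _).le (by positivity)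
              calc ∑ x ∈ range (H - 1), ‖corr (fun n => ee (f n)) N (x + 1)‖
                  ≤ ((H - 1 : ℕ) : ℝ) * (N : ℝ) ^ (1 - τ) + Hs * (N : ℝ) ^ (-(ε / 4)) * N := hS
                _ ≤ H * (N : ℝ) ^ (1 - τ) + (2 * H * (N : ℝ) ^ (-τ)) * N := by
                    (clear * - a1 hN1 a2; gcongr)
                _ = H * (N : ℝ) ^ (1 - τ) + 2 * H * ((N : ℝ) ^ (-τ) * N) := by ring
                _ = 3 * H * (N : ℝ) ^ (1 - τ) := by rw [hNτ]; ring
            have hNH : (N : ℝ) ≤ 2 * H * (N : ℝ) ^ (1 - τ) := by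
              have a1 : (N : ℝ) ^ τ ≤ 2 * H := by
                refine (hmono _ _ (by (clear * - hτ0 hτε; linarith) : τ ≤ ε / 2)).trans ?_
                (clear * - hHs1 hHge; linarith)
              calc (N : ℝ) = (N : ℝ) ^ τ * (N : ℝ) ^ (1 - τ) := by
                    rw [hmul]; ring_nf; rw [Real.rpow_one]
                _ ≤ 2 * H * (N : ℝ) ^ (1 - τ) := mul_le_mul_of_nonneg_right a1 (hpos _).le
            exact by
              have hH0 : (0 : ℝ) < H := by exact_mod_cast hH1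
              have hfin : ‖∑ n ∈ range N, ee (f n)‖ ^ 2 ≤ 16 * (N : ℝ) ^ (2 - τ) := by
                have b1 : ‖∑ n ∈ range N, ee (f n)‖ ^ 2 * H ≤ (2 * N) * (8 * H * (N : ℝ) ^ (1 - τ)) := by
                  refine hW.trans ?_
                  have b2 : ((N + H : ℕ) : ℝ) ≤ 2 * N := by
                    have : (H : ℝ) ≤ N := by exact_mod_cast hHN
                    push_cast; (clear * - hε1 hτ0 hτε hHs2 hHs3 hHle; linarith)
                  have b3 : ‖corr (fun n => ee (f n)) N 0‖ +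
                      2 * ∑ x ∈ range (H - 1), ‖corr (fun n => ee (f n)) N (x + 1)‖ ≤
                      8 * H * (N : ℝ) ^ (1 - τ) := by
                    have := hc0 0
                    (clear * - hS2 hNH this; linarith)
                  refine mul_le_mul b2 b3 ?_ (by positivity)
                  exact add_nonneg (norm_nonneg _) (mul_nonneg (by norm_num)
                    (sum_nonneg fun _ _ => norm_nonneg _))
                have b4 : (2 * N) * (8 * H * (N : ℝ) ^ (1 - τ)) = (16 * (N : ℝ) ^ (2 - τ)) * H := by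
                  have : (N : ℝ) ^ (2 - τ) = N * (N : ℝ) ^ (1 - τ) := by
                    nth_rewrite 2 [← Real.rpow_one (N : ℝ)]
                    rw [hmul]; congr 1; ring
                  rw [this]; ring
                rw [b4] at b1
                exact le_of_mul_le_mul_right b1 hH0
              have hfin2 : 16 * (N : ℝ) ^ (2 - τ) = (4 * (N : ℝ) ^ (1 - τ / 2)) ^ 2 := by
                rw [mul_pow, ← Real.rpow_natCast ((N : ℝ) ^ (1 - τ / 2)) 2, ← Real.rpow_mul hN0.le]
                norm_num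
                congr 1
                ring
              rw [hfin2] at hfin
              have hfin3 := abs_le_of_sq_le_sq' hfin (by have := hpos (1 - τ / 2); positivity)
              refine hfin3.2.trans ?_
              calc 4 * (N : ℝ) ^ (1 - τ / 2) ≤ (N : ℝ) ^ (τ / 4) * (N : ℝ) ^ (1 - τ / 2) :=
                    mul_le_mul_of_nonneg_right (h2 N hNN2) (hpos _).le
                _ = (N : ℝ) ^ (1 - τ / 4) := by rw [hmul]; congr 1; ring

theorem wt (j : ℕ) (hj : 2 ≤ j) : WT j := by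
  induction j, hj using Nat.le_induction with
  | base => exact wt_two
  | succ j hj ih => exact wt_succ hj ih

end Pool.Agent.Helper59.NX

end

section

set_option autoImplicit false

open Finset

namespace Pool.Agent.Helper59.NX

open Pool.Agent.Helper67.KSZ (dk dk_succ)

/-- Iterated differences of functions of a real variable. -/
def dr : ℕ → (ℝ → ℝ) → ℝ → ℝ
  | 0, g => g
  | j + 1, g => fun x => dr j g (x + 1) - dr j g x

theorem dk_eq_dr (j : ℕ) (g : ℝ → ℝ) (a : ℝ) (n : ℕ) :
    dk j (fun n => g (a + n)) n = dr j g (a + n) := by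
  induction j generalizing n with
  | zero => rfl
  | succ j ih =>
    rw [dk_succ, ih, ih]
    show dr j g (a + ((n + 1 : ℕ) : ℝ)) - dr j g (a + n) = dr j g (a + n + 1) - dr j g (a + n)
    push_cast
    rw [add_assoc]

theorem dr_hasDerivAt (j : ℕ) (g g' : ℝ → ℝ) (x : ℝ)
    (h : ∀ y, x ≤ y → y ≤ x + j → HasDerivAt g (g' y) y) :
    HasDerivAt (dr j g) (dr j g' x) x := by
  induction j generalizing x with
  | zero => exact h x le_rfl (by simp)
  | succ j ih =>
    have h1 := ih (x + 1) (fun y h1 h2 => h y (by linarith) (by push_cast; (clear * - h2; linarith)))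
    have h2 := ih x (fun y h1 h2 => h y h1 (by push_cast; linarith))
    have h3 : HasDerivAt (fun x => dr j g (x + 1)) (dr j g' (x + 1)) x := by
      have := h1.comp x ((hasDerivAt_id x).add_const 1)
      rw [mul_one] at this
      exact this
    exact h3.sub h2

/-- The mean value theorem for iterated differences. -/
theorem dr_mem (j : ℕ) (G : ℕ → ℝ → ℝ) (lo hi a : ℝ)
    (hG : ∀ i, ∀ y, a ≤ y → y ≤ a + j → HasDerivAt (G i) (G (i + 1) y) y)
    (hb : ∀ y, a ≤ y → y ≤ a + j → lo ≤ G j y ∧ G j y ≤ hi) :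
    lo ≤ dr j (G 0) a ∧ dr j (G 0) a ≤ hi := by
  induction j generalizing G a with
  | zero => exact hb a le_rfl (by simp)
  | succ j ih =>
    obtain ⟨ξ, hξ, e⟩ := exists_hasDerivAt_eq_slope (dr j (G 0)) (dr j (G 1)) (a := a)
      (b := a + 1) (by linarith) (by
        intro x hx
        refine (dr_hasDerivAt j (G 0) (G 1) x fun y h1 h2 => hG 0 y ?_ ?_).continuousAt.continuousWithinAt
        · exact hx.1.trans h1
        · have := hx.2
          push_cast; (clear * - h2 this; linarith))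
      (fun x hx => dr_hasDerivAt j (G 0) (G 1) x fun y h1 h2 => hG 0 y (hx.1.le.trans h1) (by
          have := hx.2
          push_cast; linarith))
    have e' : dr (j + 1) (G 0) a = dr j (G 1) ξ := by
      rw [e]
      show dr j (G 0) (a + 1) - dr j (G 0) a = _
      rw [add_sub_cancel_left, div_one]
    rw [e']
    refine ih (fun i => G (i + 1)) ξ (fun i y h1 h2 => hG (i + 1) y (hξ.1.le.trans h1) ?_)
      (fun y h1 h2 => hb y (hξ.1.le.trans h1) ?_)
    · have := hξ.2
      push_cast; (clear * - h2 this; linarith)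
    · have := hξ.2
      push_cast; (clear * - h2 this; linarith)

end Pool.Agent.Helper59.NX

end

section

set_option autoImplicit false

open Finset

open scoped BigOperators ComplexConjugate

namespace Pool.Agent.Helper59.NX

open Pool.Agent.Helper10.QRH (ee)

open Pool.Agent.Helper64.QRH (ee_add norm_ee)

open Pool.Agent.Helper67.KSZ (dk dk_succ conj_ee)

theorem norm_sum_ee_sign (s : ℝ) (hs : s = 1 ∨ s = -1) (N : ℕ) (F : ℕ → ℝ) :
    ‖∑ n ∈ range N, ee (s * F n)‖ = ‖∑ n ∈ range N, ee (F n)‖ := by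
  rcases hs with rfl | rfl
  · simp
  · rw [← RCLike.norm_conj, map_sum]
    congr 1
    apply sum_congr rfl
    intro n _
    rw [conj_ee]
    congr 1
    ring

end Pool.Agent.Helper59.NX

end
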