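import Pool.Agent.Helper23.MC.Inst

/-!
Parts of Helper67.NX2.Defs, Helper73.NX2.LpLocalOf, Helper55.NX2.AqBasic, Helper25.NX2.Weyl, Helper7.NX.BaseCells, Helper41.NX2.BaseCells, Helper72.NX2.DlA, Helper92.NX2.SmoothMod, Helper92.NX2.Asym, Helper40.NX2.LsMajorOf, Helper87.NX2.LargeSieve
-/

attribute [local instance 5000]
  Pool.Agent.Helper23.MC.Inst.rCharZero Pool.Agent.Helper23.MC.Inst.rALM
  Pool.Agent.Helper23.MC.Inst.rARM Pool.Agent.Helper23.MC.Inst.rALSM
  Pool.Agent.Helper23.MC.Inst.rARSM Pool.Agent.Helper23.MC.Inst.rARRLE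
  Pool.Agent.Helper23.MC.Inst.rALRLE Pool.Agent.Helper23.MC.Inst.rARRLT
  Pool.Agent.Helper23.MC.Inst.rALRLT Pool.Agent.Helper23.MC.Inst.rPMRLT
  Pool.Agent.Helper23.MC.Inst.rMPRLT Pool.Agent.Helper23.MC.Inst.rPMM
  Pool.Agent.Helper23.MC.Inst.rMPM Pool.Agent.Helper23.MC.Inst.rPMSM
  Pool.Agent.Helper23.MC.Inst.rMPSM Pool.Agent.Helper23.MC.Inst.rEAOL
  Pool.Agent.Helper23.MC.Inst.rIOR Pool.Agent.Helper23.MC.Inst.rISOR
  Pool.Agent.Helper23.MC.Inst.rNZD Pool.Agent.Helper23.MC.Inst.rcCharZero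
  Pool.Agent.Helper23.MC.Inst.rcNZD Pool.Agent.Helper23.MC.Inst.zCharZero
  Pool.Agent.Helper23.MC.Inst.zALM Pool.Agent.Helper23.MC.Inst.zARM
  Pool.Agent.Helper23.MC.Inst.zALSM Pool.Agent.Helper23.MC.Inst.zARSM
  Pool.Agent.Helper23.MC.Inst.zIOR Pool.Agent.Helper23.MC.Inst.zISOR
  Pool.Agent.Helper23.MC.Inst.zNZD Pool.Agent.Helper23.MC.Inst.qCharZero
  Pool.Agent.Helper23.MC.Inst.mR Pool.Agent.Helper23.MC.Inst.mC Pool.Agent.Helper23.MC.Inst.mRC
  Pool.Agent.Helper23.MC.Inst.rPSM Pool.Agent.Helper23.MC.Inst.rCSM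
  Pool.Agent.Helper23.MC.Inst.cAdd Pool.Agent.Helper23.MC.Inst.cAddM
  Pool.Agent.Helper23.MC.Inst.cMul Pool.Agent.Helper23.MC.Inst.cMon

namespace Pool.Agent.Helper57.NX
end Pool.Agent.Helper57.NX

section

set_option autoImplicit false

open Finset

open scoped BigOperators ComplexConjugate

namespace Pool.Agent.Helper67.NX2

open Pool.Agent.Helper57.NX

noncomputable section

/-- distance to the nearest integer -/
def dint (x : ℝ) : ℝ := |x - round x|

end

end Pool.Agent.Helper67.NX2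

end

section

set_option autoImplicit false

open Finset

open scoped BigOperators ComplexConjugate

namespace Pool.Agent.Helper67.NX2

open Pool.Agent.Helper57.NX

noncomputable section

theorem lpl2_dint {x : ℝ} (h : |x| < 1 / 2) : dint x = |x| := by
  have h1 := abs_lt.1 h
  have h2 : round x = 0 := round_eq_zero_iff.2 ⟨by (clear * - h1; linarith [h1.1]), h1.2⟩
  unfold dint
  rw [h2, Int.cast_zero, sub_zero]

end

end Pool.Agent.Helper67.NX2

end

section

set_option autoImplicit false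

open Finset

open scoped BigOperators ComplexConjugate

namespace Pool.Agent.Helper67.NX2

open Pool.Agent.Helper57.NX

noncomputable section

section AqBasic

variable {N : ℕ} [NeZero N]

theorem dint_nonneg (x : ℝ) : 0 ≤ dint x := abs_nonneg _

theorem dint_le_half (x : ℝ) : dint x ≤ 1 / 2 := abs_sub_round x

theorem dint_le_abs_sub (x : ℝ) (n : ℤ) : dint x ≤ |x - n| := round_le x n

theorem dint_add_int (x : ℝ) (n : ℤ) : dint (x + n) = dint x := by
  unfold dint
  rw [round_add_intCast]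
  push_cast
  congr 1
  ring

theorem dint_neg (x : ℝ) : dint (-x) = dint x := by
  have key : ∀ y : ℝ, dint (-y) ≤ dint y := by
    intro y
    refine (dint_le_abs_sub (-y) (-round y)).trans (le_of_eq ?_)
    unfold dint
    rw [← abs_neg]
    congr 1
    push_cast
    ring
  refine le_antisymm (key x) ?_
  have := key (-x)
  rwa [neg_neg] at this

theorem dint_add_le (x y : ℝ) : dint (x + y) ≤ dint x + dint y := by
  refine (dint_le_abs_sub (x + y) (round x + round y)).trans ?_
  unfold dint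
  refine le_trans (le_of_eq ?_) (abs_add_le _ _)
  congr 1
  push_cast
  ring

theorem dint_mul_le (n : ℕ) (x : ℝ) : dint (n * x) ≤ n * dint x := by
  refine (dint_le_abs_sub (n * x) (n * round x)).trans (le_of_eq ?_)
  unfold dint
  push_cast
  rw [← mul_sub, abs_mul, Nat.abs_cast]

end AqBasic

end

end Pool.Agent.Helper67.NX2

end

section

set_option autoImplicit false

open Finset

open scoped BigOperators ComplexConjugate

namespace Pool.Agent.Helper67.NX2

open Pool.Agent.Helper57.NX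

noncomputable section

theorem card_int_le25 (S : Finset ℤ) (x y : ℝ) (h : ∀ s ∈ S, x ≤ (s : ℝ) ∧ (s : ℝ) ≤ y)
    (hxy : x ≤ y) : (S.card : ℝ) ≤ y - x + 1 := by
  have h1 : S ⊆ Icc ⌈x⌉ ⌊y⌋ := by
    intro s hs
    rw [mem_Icc]
    exact ⟨Int.ceil_le.mpr (h s hs).1, Int.le_floor.mpr (h s hs).2⟩
  have h2 := Finset.card_le_card h1
  rw [Int.card_Icc] at h2
  have h3 : ((⌊y⌋ + 1 - ⌈x⌉).toNat : ℝ) ≤ y - x + 1 := by
    rcases le_total (⌊y⌋ + 1 - ⌈x⌉) 0 with h | h
    · rw [Int.toNat_of_nonpos h]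
      push_cast
      (clear * - hxy; linarith)
    · have h4 : (((⌊y⌋ + 1 - ⌈x⌉).toNat : ℤ) : ℝ) = ((⌊y⌋ + 1 - ⌈x⌉ : ℤ) : ℝ) := by
        rw [Int.toNat_of_nonneg h]
      have hc := Int.le_ceil x
      have hf := Int.floor_le y
      push_cast at h4
      rw [h4]
      (clear * - hc hf; linarith)
  have h4 : (S.card : ℝ) ≤ ((⌊y⌋ + 1 - ⌈x⌉).toNat : ℝ) := by exact_mod_cast h2
  (clear * - h3 h4; linarith)

/-- one residue class -/
theorem class_le25 (β τ ε0 : ℝ) (n : ℤ) (K q r : ℕ) (hq : 1 ≤ q)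
    (hβ : q * β = n + τ) (hτ : 0 < |τ|) (hε0 : 0 ≤ ε0) (hε1 : ε0 ≤ 1 / 2) (A : Finset ℕ)
    (hA : ∀ h ∈ A, h < K ∧ h % q = r ∧ dint (β * h) ≤ ε0) :
    (A.card : ℝ) ≤ (K / q * |τ| + 2) * (2 * ε0 / |τ| + 1) := by
  have hq0 : (0 : ℝ) < q := by exact_mod_cast hq
  have hK0 : (0 : ℝ) ≤ K := Nat.cast_nonneg K
  obtain ⟨T, hT⟩ : ∃ T : ℕ → ℕ, ∀ h, T h = h / q := ⟨_, fun _ => rfl⟩
  set f : ℕ → ℤ := fun h => round (β * h) - (T h : ℤ) * n with hf
  have key : ∀ h ∈ A, |β * r + (T h : ℝ) * τ - (f h : ℝ)| ≤ ε0 := by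
    intro h hh
    obtain ⟨_, h2, h3⟩ := hA h hh
    have h4 : (h : ℝ) = q * (T h : ℝ) + r := by
      have h40 := Nat.div_add_mod h q
      rw [h2, ← hT] at h40
      exact_mod_cast h40.symm
    have h5 : β * r + (T h : ℝ) * τ - (f h : ℝ) = β * h - round (β * h) := by
      simp only [hf]
      push_cast
      have h6 : β * (h : ℝ) = (T h : ℝ) * (q * β) + β * r := by
        have h61 : β * (h : ℝ) = β * (q * (T h : ℝ) + r) := by rw [← h4]
        rw [h61]
        ring
      rw [hβ] at h6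
      (clear * - h6; linarith [h6])
    rw [h5]
    exact h3
  -- fibres
  have hfib : ∀ m ∈ A.image f, (((A.filter (fun h => f h = m)).card : ℕ) : ℝ) ≤ 2 * ε0 / |τ| + 1 := by
    intro m _
    have hinj : Set.InjOn (fun h : ℕ => (T h : ℤ)) (A.filter (fun h => f h = m) : Finset ℕ) := by
      intro a ha b hb hab
      rw [mem_coe, mem_filter] at ha hb
      have h1 : a / q = b / q := by
        have h10 : (T a : ℤ) = (T b : ℤ) := hab
        rw [← hT, ← hT]
        exact_mod_cast h10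
      have h2 := Nat.div_add_mod a q
      have h3 := Nat.div_add_mod b q
      rw [(hA a ha.1).2.1] at h2
      rw [(hA b hb.1).2.1] at h3
      rw [← h2, ← h3, h1]
    rw [← Finset.card_image_of_injOn hinj]
    rcases lt_or_gt_of_ne (abs_pos.mp hτ) with hneg | hpos
    · have hab : |τ| = -τ := abs_of_neg hneg
      exact by
        have hb := card_int_le25 ((A.filter (fun h => f h = m)).image (fun h : ℕ => (T h : ℤ)))
          ((β * r - m - ε0) / (-τ)) ((β * r - m + ε0) / (-τ)) (by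
            intro s hs
            rw [mem_image] at hs
            obtain ⟨h, hh, rfl⟩ := hs
            rw [mem_filter] at hh
            have h1 := key h hh.1
            rw [hh.2, abs_le] at h1
            have hnt : 0 < -τ := by (clear * - hneg; linarith)
            constructor
            · rw [div_le_iff₀ hnt]
              push_cast
              (clear * - h1; linarith [h1.1, h1.2])
            · rw [le_div_iff₀ hnt]
              push_cast
              (clear * - h1; linarith [h1.1, h1.2])) (by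
            have hnt : 0 < -τ := by (clear * - hneg; linarith)
            apply div_le_div_of_nonneg_right _ hnt.le
            (clear * - hε0; linarith))
        refine hb.trans (le_of_eq ?_)
        rw [hab]
        have hnt : -τ ≠ 0 := by (clear * - hneg; linarith)
        field_simp
        ring
    · have hab : |τ| = τ := abs_of_pos hpos
      have hb := card_int_le25 ((A.filter (fun h => f h = m)).image (fun h : ℕ => (T h : ℤ)))
        ((m - β * r - ε0) / τ) ((m - β * r + ε0) / τ) (by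
          intro s hs
          rw [mem_image] at hs
          obtain ⟨h, hh, rfl⟩ := hs
          rw [mem_filter] at hh
          have h1 := key h hh.1
          rw [hh.2, abs_le] at h1
          constructor
          · rw [div_le_iff₀ hpos]
            push_cast
            (clear * - h1; linarith [h1.1, h1.2])
          · rw [le_div_iff₀ hpos]
            push_cast
            (clear * - h1; linarith [h1.1, h1.2])) (by
          apply div_le_div_of_nonneg_right _ hpos.le
          (clear * - hε0; linarith))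
      refine hb.trans (le_of_eq ?_)
      rw [hab]
      have hnt : τ ≠ 0 := by (clear * - hpos; linarith)
      field_simp
      ring
  -- the image
  have himg : (((A.image f).card : ℕ) : ℝ) ≤ K / q * |τ| + 2 := by
    have hT0 : 0 ≤ K / q * |τ| := by (clear * - hq hτ; positivity)
    have ht : ∀ h ∈ A, (T h : ℝ) ≤ K / q := by
      intro h hh
      have h1 : (T h : ℝ) ≤ (h : ℝ) / q := by
        rw [hT]
        exact Nat.cast_div_le
      have h2 : (h : ℝ) ≤ K := by exact_mod_cast (hA h hh).1.le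
      exact h1.trans (div_le_div_of_nonneg_right h2 hq0.le)
    rcases lt_or_gt_of_ne (abs_pos.mp hτ) with hneg | hpos
    · have hab : |τ| = -τ := abs_of_neg hneg
      exact by
        have hb := card_int_le25 (A.image f) (β * r + K / q * τ - ε0) (β * r + ε0) (by
            intro s hs
            rw [mem_image] at hs
            obtain ⟨h, hh, rfl⟩ := hs
            have h1 := key h hh
            rw [abs_le] at h1
            have h2 := ht h hh
            have h3 : (0 : ℝ) ≤ (T h : ℝ) := Nat.cast_nonneg _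
            constructor
            · (clear * - h1 hneg h2; nlinarith [h1.1, h1.2])
            · (clear * - h1 hneg; nlinarith [h1.1, h1.2])) (by
            rw [hab] at hT0
            (clear * - hε0 hT0; nlinarith))
        refine hb.trans ?_
        rw [hab]
        linarith
    · have hab : |τ| = τ := abs_of_pos hpos
      exact by
        have hb := card_int_le25 (A.image f) (β * r - ε0) (β * r + K / q * τ + ε0) (by
            intro s hs
            rw [mem_image] at hs
            obtain ⟨h, hh, rfl⟩ := hs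
            have h1 := key h hh
            rw [abs_le] at h1
            have h2 := ht h hh
            have h3 : (0 : ℝ) ≤ (T h : ℝ) := Nat.cast_nonneg _
            constructor
            · (clear * - h1 hpos; nlinarith [h1.1, h1.2])
            · (clear * - h1 hpos h2; nlinarith [h1.1, h1.2])) (by
            rw [hab] at hT0
            (clear * - hε0 hT0; nlinarith))
        refine hb.trans ?_
        rw [hab]
        linarith
  have hsum : (A.card : ℝ) = ∑ m ∈ A.image f, (((A.filter (fun h => f h = m)).card : ℕ) : ℝ) := by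
    have := Finset.card_eq_sum_card_image f A
    exact_mod_cast this
  rw [hsum]
  calc ∑ m ∈ A.image f, (((A.filter (fun h => f h = m)).card : ℕ) : ℝ)
      ≤ ∑ m ∈ A.image f, (2 * ε0 / |τ| + 1) := Finset.sum_le_sum hfib
    _ = ((A.image f).card : ℝ) * (2 * ε0 / |τ| + 1) := by rw [Finset.sum_const, nsmul_eq_mul]
    _ ≤ (K / q * |τ| + 2) * (2 * ε0 / |τ| + 1) := by
        apply mul_le_mul_of_nonneg_right himg
        (clear * - hε0 hτ; positivity)

theorem vino (β η ε0 : ℝ) (K : ℕ) (hη : 0 < η) (hη1 : η ≤ 1) (hK : 8 / η ≤ K) (hε0 : 0 ≤ ε0)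
    (hε1 : ε0 ≤ η / 32) (G : Finset ℕ) (hG : ∀ h ∈ G, 1 ≤ h ∧ h < K ∧ dint (β * h) ≤ ε0)
    (hc : η * K ≤ G.card) :
    ∃ q : ℕ, 1 ≤ q ∧ (q : ℝ) ≤ 4 / η ∧ dint (q * β) ≤ 128 * ε0 / (η ^ 2 * K) := by
  have hηK : 8 ≤ η * K := by
    rw [div_le_iff₀ hη] at hK
    (clear * - hK; linarith)
  have hK0 : (0 : ℝ) < K := by
    by_contra h
    (clear * - hηK h hη1; nlinarith)
  -- two close elements
  obtain ⟨q, hq1, hq2, hq3⟩ : ∃ q : ℕ, 1 ≤ q ∧ (q : ℝ) ≤ 4 / η ∧ dint (q * β) ≤ 2 * ε0 := by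
    set s : ℕ := ⌊4 / η⌋₊ with hs
    have h4 : 4 ≤ 4 / η := by
      rw [le_div_iff₀ hη]
      (clear * - hη1; linarith)
    have hs1 : (s : ℝ) ≤ 4 / η := Nat.floor_le (by (clear * - hη; positivity))
    have hs2 : 4 / η < s + 1 := Nat.lt_floor_add_one _
    have hs3 : 3 / η ≤ s := by
      have : 3 / η + 1 ≤ 4 / η := by
        have h5 : 4 / η = 3 / η + 1 / η := by ring
        have h6 : 1 ≤ 1 / η := by
          rw [le_div_iff₀ hη]
          (clear * - hη1; linarith)
        (clear * - h5 h6; linarith)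
      (clear * - hs2 this; linarith)
    have hs0 : 0 < s := by
      have : (0 : ℝ) < s := lt_of_lt_of_le (by positivity) hs3
      exact_mod_cast this
    exact by
      have hs0' : (0 : ℝ) < s := by exact_mod_cast hs0
      have hmaps : ∀ h ∈ G, h / s ∈ range (K / s + 1) := by
        intro h hh
        rw [mem_range]
        exact Nat.lt_succ_of_le (Nat.div_le_div_right (hG h hh).2.1.le)
      have hcard : (range (K / s + 1)).card < G.card := by
        rw [card_range]
        have h7 : (((K / s + 1 : ℕ)) : ℝ) < G.card := by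
          have h8 : ((K / s : ℕ) : ℝ) ≤ K / s := Nat.cast_div_le
          have h9 : (K : ℝ) / s ≤ η * K / 3 := by
            rw [div_le_div_iff₀ hs0' (by norm_num)]
            have h10 : 3 ≤ η * s := by
              rw [div_le_iff₀ hη] at hs3
              (clear * - hs3; linarith)
            (clear * - h10; nlinarith)
          push_cast
          (clear * - hc hηK h8 h9; linarith)
        exact_mod_cast h7
      obtain ⟨a, ha, b, hb, hab, hab2⟩ := Finset.exists_ne_map_eq_of_card_lt_of_maps_to hcard hmaps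
      wlog hlt : a < b generalizing a b
      · exact this b hb a ha hab.symm hab2.symm (lt_of_le_of_ne (not_lt.mp hlt) hab.symm)
      refine ⟨b - a, by omega, ?_, ?_⟩
      · have h11 : b - a ≤ s := by
          have e1 := Nat.div_add_mod a s
          have e2 := Nat.div_add_mod b s
          have e3 := Nat.mod_lt b hs0
          rw [hab2] at e1
          omega
        have h12 : ((b - a : ℕ) : ℝ) ≤ s := by exact_mod_cast h11
        (clear * - hs1 h12; linarith)
      · have h13 : ((b - a : ℕ) : ℝ) * β = β * b + -(β * a) := by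
          rw [Nat.cast_sub hlt.le]
          ring
        rw [h13]
        refine (dint_add_le _ _).trans ?_
        rw [dint_neg]
        (clear * - hG ha hb; linarith [(hG a ha).2.2, (hG b hb).2.2])
  refine ⟨q, hq1, hq2, ?_⟩
  have hq0 : (0 : ℝ) < q := by exact_mod_cast hq1
  have hRHS : 0 ≤ 128 * ε0 / (η ^ 2 * K) := by (clear * - hε0 hη hK0; positivity)
  rcases eq_or_lt_of_le (dint_nonneg (q * β)) with h0 | hpos
  · rw [← h0]
    exact hRHS
  set τ : ℝ := q * β - round (q * β) with hτ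
  have hθ : dint (q * β) = |τ| := rfl
  exact by
    rw [hθ] at hpos hq3 ⊢
    have hclass : ∀ r ∈ range q, (((G.filter (fun h => h % q = r)).card : ℕ) : ℝ) ≤
        (K / q * |τ| + 2) * (2 * ε0 / |τ| + 1) := by
      intro r _
      apply class_le25 β τ ε0 (round (q * β)) K q r hq1 (by rw [hτ]; ring) hpos hε0 (by (clear * - hη1 hε1 hq3 hpos; linarith))
      intro h hh
      rw [mem_filter] at hh
      exact ⟨(hG h hh.1).2.1, hh.2, (hG h hh.1).2.2⟩
    have hsum : (G.card : ℝ) = ∑ r ∈ range q, (((G.filter (fun h => h % q = r)).card : ℕ) : ℝ) := by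
      have := Finset.card_eq_sum_card_fiberwise (f := fun h => h % q) (s := G) (t := range q)
        (fun h _ => by
          simp only [coe_range, Set.mem_Iio]
          exact Nat.mod_lt h hq1)
      exact_mod_cast this
    have hG2 : (G.card : ℝ) ≤ q * ((K / q * |τ| + 2) * (2 * ε0 / |τ| + 1)) := by
      rw [hsum]
      refine (Finset.sum_le_sum hclass).trans (le_of_eq ?_)
      rw [Finset.sum_const, card_range, nsmul_eq_mul]
    have hG3 : q * ((K / q * |τ| + 2) * (2 * ε0 / |τ| + 1)) ≤ 4 * ε0 * K + 8 * ε0 * q / |τ| := by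
      have h1 : (1 : ℝ) ≤ 2 * ε0 / |τ| := by
        rw [le_div_iff₀ hpos]
        (clear * - hq3; linarith)
      have h2 : q * ((K / q * |τ| + 2) * (2 * ε0 / |τ| + 1)) = (K * |τ| + 2 * q) * (2 * ε0 / |τ| + 1) := by
        (clear * - hq1 hpos hε0 hK0; field_simp)
      rw [h2]
      calc (K * |τ| + 2 * q) * (2 * ε0 / |τ| + 1) ≤ (K * |τ| + 2 * q) * (2 * ε0 / |τ| + 2 * ε0 / |τ|) := by
            apply mul_le_mul_of_nonneg_left _ (by (clear * - hK0 hpos hq1; positivity))
            (clear * - h1; linarith)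
        _ = 4 * ε0 * K + 8 * ε0 * q / |τ| := by
            field_simp
            ring
    have h5 : η * K ≤ 4 * ε0 * K + 8 * ε0 * q / |τ| := hc.trans (hG2.trans hG3)
    have h6 : 4 * ε0 * K ≤ η * K / 8 := by (clear * - hε1; nlinarith)
    exact by
      have h7 : 7 / 8 * (η * K) * |τ| ≤ 8 * ε0 * q := by
        have h8 : 7 / 8 * (η * K) ≤ 8 * ε0 * q / |τ| := by (clear * - hc hG2 hG3 h6; linarith)
        rwa [le_div_iff₀ hpos] at h8
      have h9 : q * η ≤ 4 := by
        rwa [le_div_iff₀ hη] at hq2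
      rw [le_div_iff₀ (by positivity)]
      have h10 : |τ| * (η ^ 2 * K) * (7 / 8) ≤ 8 * ε0 * (q * η) := by
        (clear * - h7 hη; nlinarith [mul_le_mul_of_nonneg_left h7 hη.le])
      have h11 : 8 * ε0 * (q * η) ≤ 8 * ε0 * 4 := by
        apply mul_le_mul_of_nonneg_left h9 (by positivity)
      (clear * - hq3 hpos h10 h11; nlinarith)

end

end Pool.Agent.Helper67.NX2

end

section

set_option autoImplicit false

open Finset

open scoped BigOperators ComplexConjugate

namespace Pool.Agent.Helper57.NX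

noncomputable section

theorem sum_val7 (n : ℕ) [NeZero n] (G : ℕ → ℂ) :
    ∑ y : ZMod n, G y.val = ∑ v ∈ range n, G v := by
  refine sum_bij' (i := fun x _ => x.val) (j := fun j _ => (j : ZMod n)) ?_ ?_ ?_ ?_ ?_
  · intro x _
    exact mem_range.2 (ZMod.val_lt x)
  · intro j _
    exact mem_univ _
  · intro x _
    exact ZMod.natCast_zmod_val x
  · intro j hj
    exact ZMod.val_natCast_of_lt (mem_range.1 hj)
  · intro x _
    rfl

/-- The local form on `ZMod (2 R)`. -/
theorem local7 {m N : ℕ} (R : ℕ) (hR : 1 ≤ R) [NeZero (2 * R)] (f0 : ZMod N → ℂ)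
    (f : Fin m → ZMod N → ℂ) (r : ZMod N) (b : Fin m → ℤ) (hb0 : ∀ i, 0 ≤ b i)
    (hb : ∀ i, b i ≤ R) :
    𝔼 y : ZMod (2 * R), (if y.val < R then f0 (r + (y.val : ZMod N)) else 0) *
      ∏ i, f i (r + ((y + (b i : ZMod (2 * R))).val : ZMod N)) =
    (1 / 2) * 𝔼 t ∈ range R, f0 (r + (t : ZMod N)) *
      ∏ i, f i (r + (t : ZMod N) + (b i : ZMod N)) := by
  have hRC : (R : ℂ) ≠ 0 := by
    have : R ≠ 0 := by omega
    exact_mod_cast this
  rw [Fintype.expect_eq_sum_div_card, ZMod.card, expect_eq_sum_div_card, card_range]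
  have h1 : ∀ y : ZMod (2 * R), (if y.val < R then f0 (r + (y.val : ZMod N)) else 0) *
      ∏ i, f i (r + ((y + (b i : ZMod (2 * R))).val : ZMod N)) =
      (fun v : ℕ => if v < R then f0 (r + (v : ZMod N)) *
        ∏ i, f i (r + (v : ZMod N) + (b i : ZMod N)) else 0) y.val := by
    intro y
    by_cases h : y.val < R
    · simp only [if_pos h]
      congr 1
      refine prod_congr rfl fun i _ => ?_
      congr 1
      obtain ⟨n, hn⟩ := Int.eq_ofNat_of_zero_le (hb0 i)
      have hnR : n ≤ R := by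
        have := hb i
        rw [hn] at this
        exact_mod_cast this
      rw [hn, Int.cast_natCast, Int.cast_natCast]
      have e1 : (y + (n : ZMod (2 * R))).val = y.val + n := by
        have e2 : y + (n : ZMod (2 * R)) = ((y.val + n : ℕ) : ZMod (2 * R)) := by
          push_cast
          rw [ZMod.natCast_zmod_val]
        rw [e2, ZMod.val_natCast_of_lt (by omega)]
      rw [e1]
      push_cast
      ring
    · simp only [if_neg h, zero_mul]
  rw [sum_congr rfl fun y _ => h1 y, sum_val7 (2 * R) (fun v : ℕ => if v < R then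
    f0 (r + (v : ZMod N)) * ∏ i, f i (r + (v : ZMod N) + (b i : ZMod N)) else 0)]
  have h2 : ∑ v ∈ range (2 * R), (if v < R then f0 (r + (v : ZMod N)) *
        ∏ i, f i (r + (v : ZMod N) + (b i : ZMod N)) else 0) =
      ∑ v ∈ range R, f0 (r + (v : ZMod N)) *
        ∏ i, f i (r + (v : ZMod N) + (b i : ZMod N)) := by
    rw [← sum_filter]
    refine sum_congr ?_ fun _ _ => rfl
    ext v
    simp only [mem_filter, mem_range]
    omega
  rw [h2]
  push_cast
  field_simp

end

end Pool.Agent.Helper57.NX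

end

section

set_option autoImplicit false

open Finset

open scoped BigOperators ComplexConjugate

namespace Pool.Agent.Helper67.NX2

open Pool.Agent.Helper57.NX

noncomputable section

/-- The local form on `ZMod n`, `2 R ≤ n`. -/
theorem local41 {m N : ℕ} (R n : ℕ) (hR : 1 ≤ R) (hn : 2 * R ≤ n) [NeZero n]
    (f0 : ZMod N → ℂ) (f : Fin m → ZMod N → ℂ) (r : ZMod N) (b : Fin m → ℤ)
    (hb0 : ∀ i, 0 ≤ b i) (hb : ∀ i, b i ≤ R) :
    𝔼 y : ZMod n, (if y.val < R then f0 (r + (y.val : ZMod N)) else 0) *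
      ∏ i, f i (r + ((y + (b i : ZMod n)).val : ZMod N)) =
    ((R : ℂ) / n) * 𝔼 t ∈ range R, f0 (r + (t : ZMod N)) *
      ∏ i, f i (r + (t : ZMod N) + (b i : ZMod N)) := by
  have hRC : (R : ℂ) ≠ 0 := by
    have : R ≠ 0 := by omega
    exact_mod_cast this
  have hnC : (n : ℂ) ≠ 0 := by
    have : n ≠ 0 := by omega
    exact_mod_cast this
  rw [Fintype.expect_eq_sum_div_card, ZMod.card, expect_eq_sum_div_card, card_range]
  have h1 : ∀ y : ZMod n, (if y.val < R then f0 (r + (y.val : ZMod N)) else 0) *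
      ∏ i, f i (r + ((y + (b i : ZMod n)).val : ZMod N)) =
      (fun v : ℕ => if v < R then f0 (r + (v : ZMod N)) *
        ∏ i, f i (r + (v : ZMod N) + (b i : ZMod N)) else 0) y.val := by
    intro y
    by_cases h : y.val < R
    · simp only [if_pos h]
      congr 1
      refine prod_congr rfl fun i _ => ?_
      congr 1
      obtain ⟨n', hn'⟩ := Int.eq_ofNat_of_zero_le (hb0 i)
      have hnR : n' ≤ R := by
        have := hb i
        rw [hn'] at this
        exact_mod_cast this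
      rw [hn', Int.cast_natCast, Int.cast_natCast]
      have e1 : (y + (n' : ZMod n)).val = y.val + n' := by
        have e2 : y + (n' : ZMod n) = ((y.val + n' : ℕ) : ZMod n) := by
          push_cast
          rw [ZMod.natCast_zmod_val]
        rw [e2, ZMod.val_natCast_of_lt (by omega)]
      rw [e1]
      push_cast
      ring
    · simp only [if_neg h, zero_mul]
  rw [sum_congr rfl fun y _ => h1 y, sum_val7 n (fun v : ℕ => if v < R then
    f0 (r + (v : ZMod N)) * ∏ i, f i (r + (v : ZMod N) + (b i : ZMod N)) else 0)]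
  have h2 : ∑ v ∈ range n, (if v < R then f0 (r + (v : ZMod N)) *
        ∏ i, f i (r + (v : ZMod N) + (b i : ZMod N)) else 0) =
      ∑ v ∈ range R, f0 (r + (v : ZMod N)) *
        ∏ i, f i (r + (v : ZMod N) + (b i : ZMod N)) := by
    rw [← sum_filter]
    refine sum_congr ?_ fun _ _ => rfl
    ext v
    simp only [mem_filter, mem_range]
    omega
  rw [h2]
  (clear * - hRC hnC; field_simp)

end

end Pool.Agent.Helper67.NX2

end

section

set_option autoImplicit false

open Finset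

open scoped BigOperators ComplexConjugate

namespace Pool.Agent.Helper67.NX2

open Pool.Agent.Helper57.NX

noncomputable section

/-- a frequency `x` is major if `dint (q x) ≤ V` for some `1 ≤ q ≤ R` -/
def dlm_maj (R V x : ℝ) : Prop := ∃ q : ℕ, 1 ≤ q ∧ (q : ℝ) ≤ R ∧ dint (q * x) ≤ V

theorem dlm_dint_neg (x : ℝ) : dint (-x) = dint x := by
  have key : ∀ y : ℝ, dint (-y) ≤ dint y := by
    intro y
    unfold dint
    have h := round_le (-y) (-round y)
    refine h.trans (le_of_eq ?_)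
    rw [← abs_neg]
    congr 1
    push_cast
    ring
  refine le_antisymm (key x) ?_
  have h := key (-x)
  rwa [neg_neg] at h

theorem dlm_maj_neg (R V x : ℝ) : dlm_maj R V (-x) ↔ dlm_maj R V x := by
  unfold dlm_maj
  have h : ∀ q : ℕ, dint ((q : ℝ) * (-x)) = dint (q * x) := by
    intro q
    rw [mul_neg, dlm_dint_neg]
  simp only [h]

end

end Pool.Agent.Helper67.NX2

end

section

set_option autoImplicit false

open Finset

namespace Pool.Agent.Helper92.NX2

/-- the product over the primes `p ≤ y` of the least power of `p` which is at least `R` -/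
def sm (y R : ℕ) : ℕ := ∏ p ∈ (range (y + 1)).filter Nat.Prime, p ^ Nat.clog p R

theorem sm_pos (y R : ℕ) : 1 ≤ sm y R :=
  Nat.one_le_iff_ne_zero.mpr (prod_ne_zero_iff.mpr fun _ hp =>
    pow_ne_zero _ (mem_filter.mp hp).2.ne_zero)

theorem sm_prime {y R p : ℕ} (hp : p.Prime) (h : p ∣ sm y R) : p ≤ y := by
  rw [sm, hp.prime.dvd_finsetProd_iff] at h
  obtain ⟨q, hq, hpq⟩ := h
  rw [mem_filter, mem_range] at hq
  have h1 : p = q := (Nat.prime_dvd_prime_iff_eq hp hq.2).mp (hp.dvd_of_dvd_pow hpq)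
  omega

theorem pow_dvd_sm {y R p k : ℕ} (hp : p.Prime) (hpy : p ≤ y) (hk : p ^ k ≤ R) :
    p ^ k ∣ sm y R := by
  have h1 : k ≤ Nat.clog p R := by
    have h2 : p ^ k ≤ p ^ Nat.clog p R := hk.trans (Nat.le_pow_clog hp.one_lt R)
    exact (Nat.pow_le_pow_iff_right hp.one_lt).mp h2
  refine (pow_dvd_pow p h1).trans ?_
  exact dvd_prod_of_mem (fun p => p ^ Nat.clog p R)
    (mem_filter.mpr ⟨mem_range.mpr (by omega), hp⟩)

theorem dvd_sm {y R q : ℕ} (hq : 1 ≤ q) (hqR : q ≤ R)
    (h : ∀ p : ℕ, p.Prime → p ∣ q → p ≤ y) : q ∣ sm y R := by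
  rw [Nat.dvd_iff_prime_pow_dvd_dvd]
  intro p k hp hk
  rcases Nat.eq_zero_or_pos k with rfl | hk0
  · simp
  · exact pow_dvd_sm hp (h p hp ((dvd_pow_self p hk0.ne').trans hk))
      ((Nat.le_of_dvd hq hk).trans hqR)

theorem sm_le (y R : ℕ) (hR : 2 ≤ R) : sm y R ≤ (y * R) ^ y := by
  rcases Nat.eq_zero_or_pos y with rfl | hy
  · simp [sm, Finset.filter_singleton, Nat.not_prime_zero]
  have h1 : sm y R ≤ ∏ p ∈ (range (y + 1)).filter Nat.Prime, (y * R) := by
    refine prod_le_prod' fun p hp => ?_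
    rw [mem_filter, mem_range] at hp
    have h2 : 1 ≤ Nat.clog p R := Nat.clog_pos hp.2.one_lt hR
    have h3 : p ^ (Nat.clog p R).pred < R := Nat.pow_pred_clog_lt_self hp.2.one_lt (by omega)
    have h4 : p ^ Nat.clog p R = p * p ^ (Nat.clog p R).pred := by
      conv_lhs => rw [← Nat.succ_pred_eq_of_pos h2]
      rw [pow_succ, mul_comm]
    rw [h4]
    exact Nat.mul_le_mul (by omega) h3.le
  refine h1.trans ?_
  rw [prod_const]
  refine Nat.pow_le_pow_right (Nat.mul_pos hy (by omega)) ?_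
  have h2 : (range (y + 1)).filter Nat.Prime ⊆ Icc 1 y := by
    intro p hp
    rw [mem_filter, mem_range] at hp
    rw [mem_Icc]
    exact ⟨hp.2.one_le, by omega⟩
  calc ((range (y + 1)).filter Nat.Prime).card ≤ (Icc 1 y).card := card_le_card h2
    _ = y := by simp

/-- the primes in `(y, R]` -/
def mp (y R : ℕ) : Finset ℕ := (Ioc y R).filter Nat.Prime

theorem mem_mp {y R p : ℕ} : p ∈ mp y R ↔ (y < p ∧ p ≤ R) ∧ p.Prime := by
  rw [mp, mem_filter, mem_Ioc]

theorem dvd_sm_mul {y R q r : ℕ} (hq : 1 ≤ q) (hqR : q ≤ R) (hr : R ≤ (y + 1) ^ r) :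
    q ∣ sm y R * ∏ p ∈ (mp y R).filter (fun p => p ∣ q), p ^ r := by
  rw [Nat.dvd_iff_prime_pow_dvd_dvd]
  intro p k hp hk
  rcases Nat.eq_zero_or_pos k with rfl | hk0
  · simp
  have hpq : p ∣ q := (dvd_pow_self p hk0.ne').trans hk
  have hkR : p ^ k ≤ R := (Nat.le_of_dvd hq hk).trans hqR
  by_cases hpy : p ≤ y
  · exact Dvd.dvd.mul_right (pow_dvd_sm hp hpy hkR) _
  · push Not at hpy
    have h1 : p ∈ (mp y R).filter (fun p => p ∣ q) := by
      rw [mem_filter, mem_mp]
      exact ⟨⟨⟨hpy, (Nat.le_of_dvd hq hpq).trans hqR⟩, hp⟩, hpq⟩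
    have h2 : k ≤ r := by
      have h3 : p ^ k ≤ p ^ r := hkR.trans (hr.trans (Nat.pow_le_pow_left hpy r))
      exact (Nat.pow_le_pow_iff_right hp.one_lt).mp h3
    exact Dvd.dvd.mul_left ((pow_dvd_pow p h2).trans
      (dvd_prod_of_mem (fun p => p ^ r) h1)) _

theorem card_mp_filter {y R q r : ℕ} (hq : 1 ≤ q) (hqR : q ≤ R) (hy : 1 ≤ y)
    (hr : R ≤ (y + 1) ^ r) : ((mp y R).filter (fun p => p ∣ q)).card ≤ r := by
  have h1 : ∏ p ∈ (mp y R).filter (fun p => p ∣ q), p ∣ q := by
    refine Finset.prod_primes_dvd q ?_ ?_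
    · intro p hp
      exact ((mem_mp.mp (mem_filter.mp hp).1).2).prime
    · intro p hp
      exact (mem_filter.mp hp).2
  have h2 : (y + 1) ^ ((mp y R).filter (fun p => p ∣ q)).card ≤
      ∏ p ∈ (mp y R).filter (fun p => p ∣ q), p := by
    rw [← prod_const]
    refine prod_le_prod' fun p hp => ?_
    have := (mem_mp.mp (mem_filter.mp hp).1).1.1
    omega
  have h3 := (h2.trans (Nat.le_of_dvd hq h1)).trans (hqR.trans hr)
  exact (Nat.pow_le_pow_iff_right (by omega)).mp h3

end Pool.Agent.Helper92.NX2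

end

section

set_option autoImplicit false

open Finset Filter

namespace Pool.Agent.Helper92.NX2

noncomputable section

/-- powers against exponentials -/
theorem pow_le_exp (n : ℕ) (B c : ℝ) (hc : 0 < c) :
    ∀ᶠ L : ℝ in atTop, B * L ^ n ≤ Real.exp (c * L) := by
  have h1 : Tendsto (fun L : ℝ => L * (c ^ (n + 1) / (n + 1).factorial)) atTop atTop :=
    tendsto_id.atTop_mul_const (by (clear * - hc; positivity))
  filter_upwards [h1.eventually_ge_atTop B, eventually_ge_atTop 0] with L hL hL0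
  have h2 := Real.pow_div_factorial_le_exp (c * L) (by (clear * - hc hL0; positivity)) (n + 1)
  refine le_trans ?_ h2
  calc B * L ^ n ≤ (L * (c ^ (n + 1) / (n + 1).factorial)) * L ^ n :=
        mul_le_mul_of_nonneg_right hL (by positivity)
    _ = (c * L) ^ (n + 1) / (n + 1).factorial := by
        rw [mul_pow]; ring

/-- powers of logarithms against powers -/
theorem log_pow_le (n : ℕ) (B a : ℝ) (ha : 0 < a) :
    ∀ᶠ L : ℝ in atTop, B * Real.log L ^ n ≤ L ^ a := by
  have h1 : Tendsto (fun L : ℝ => a * Real.log L) atTop atTop :=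
    Real.tendsto_log_atTop.const_mul_atTop ha
  have h2 := h1.eventually (pow_le_exp n (B / a ^ n) 1 one_pos)
  filter_upwards [h2, eventually_gt_atTop 0] with L hL hL0
  rw [Real.rpow_def_of_pos hL0]
  have h3 : B * Real.log L ^ n = B / a ^ n * (a * Real.log L) ^ n := by
    rw [mul_pow]
    field_simp
  rw [h3]
  refine hL.trans (le_of_eq ?_)
  congr 1
  ring

/-- the parameter `R` -/
def RR (C : ℕ) (L : ℝ) : ℕ := ⌊L ^ (2 * C)⌋₊ + 2

/-- the parameter `y` -/
def yy (L : ℝ) : ℕ := ⌊Real.sqrt L⌋₊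

theorem RR_le (C : ℕ) : ∀ᶠ L : ℝ in atTop, (RR C L : ℝ) ≤ L ^ (2 * C + 1) := by
  filter_upwards [eventually_ge_atTop 3] with L hL
  have h1 : (⌊L ^ (2 * C)⌋₊ : ℝ) ≤ L ^ (2 * C) := Nat.floor_le (by (clear * - hL; positivity))
  have h2 : 1 ≤ L ^ (2 * C) := one_le_pow₀ (by linarith)
  rw [RR]
  push_cast
  rw [pow_succ]
  (clear * - h1 h2 hL; nlinarith)

theorem lt_RR (C : ℕ) (L : ℝ) {q : ℕ} (hq : (q : ℝ) ≤ L ^ (2 * C)) : q ≤ RR C L := by
  have h1 : q ≤ ⌊L ^ (2 * C)⌋₊ := Nat.le_floor hq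
  rw [RR]
  omega

theorem RR_ge (C : ℕ) (L : ℝ) : 2 ≤ RR C L := by rw [RR]; omega

theorem yy_le (L : ℝ) : (yy L : ℝ) ≤ Real.sqrt L := Nat.floor_le (Real.sqrt_nonneg L)

theorem lt_yy (L : ℝ) : Real.sqrt L < yy L + 1 := Nat.lt_floor_add_one _

theorem yy_tendsto : Tendsto yy atTop atTop :=
  tendsto_nat_floor_atTop.comp Real.tendsto_sqrt_atTop

theorem RR_le_pow (C : ℕ) : ∀ᶠ L : ℝ in atTop, RR C L ≤ (yy L + 1) ^ (4 * C + 4) := by
  filter_upwards [eventually_ge_atTop 2] with L hL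
  have h1 : (⌊L ^ (2 * C)⌋₊ : ℝ) ≤ L ^ (2 * C) := Nat.floor_le (by positivity)
  have h2 : 1 ≤ L ^ (2 * C) := one_le_pow₀ (by (clear * - hL; linarith))
  have h3 : (RR C L : ℝ) ≤ ((yy L : ℝ) + 1) ^ (4 * C + 4) := by
    have h4 : Real.sqrt L ^ (4 * C + 4) ≤ ((yy L : ℝ) + 1) ^ (4 * C + 4) :=
      pow_le_pow_left₀ (Real.sqrt_nonneg L) (lt_yy L).le _
    have h5 : Real.sqrt L ^ (4 * C + 4) = L ^ (2 * C) * (L * L) := by
      rw [show 4 * C + 4 = 2 * (2 * C + 2) by ring, pow_mul, Real.sq_sqrt (by (clear * - hL; linarith)),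
        pow_add, sq]
    rw [h5] at h4
    refine le_trans ?_ h4
    rw [RR]
    push_cast
    have h6 : 4 ≤ L * L := by (clear * - hL; nlinarith)
    have h7 : L ^ (2 * C) * 4 ≤ L ^ (2 * C) * (L * L) :=
      mul_le_mul_of_nonneg_left h6 (by (clear * - h2; linarith))
    (clear * - h1 h2 h7; linarith)
  exact_mod_cast h3

theorem yy_ge_quarter : ∀ᶠ L : ℝ in atTop, L ^ ((1 : ℝ) / 4) ≤ yy L := by
  filter_upwards [eventually_ge_atTop 16] with L hL
  have h1 := lt_yy L
  have hL0 : 0 < L := by linarith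
  have h2 : Real.sqrt L = L ^ ((1 : ℝ) / 4) * L ^ ((1 : ℝ) / 4) := by
    rw [← Real.rpow_add hL0, Real.sqrt_eq_rpow]
    norm_num
  have h3 : (2 : ℝ) ≤ L ^ ((1 : ℝ) / 4) := by
    have h4 : (16 : ℝ) ^ ((1 : ℝ) / 4) ≤ L ^ ((1 : ℝ) / 4) :=
      Real.rpow_le_rpow (by norm_num) hL (by norm_num)
    refine le_trans (le_of_eq ?_) h4
    rw [show (16 : ℝ) = 2 ^ (4 : ℝ) by norm_num, ← Real.rpow_mul (by norm_num)]
    norm_num
  (clear * - h1 h2 h3; nlinarith)

/-- the master bound: every power of `sm * R` is smaller than every power of `2 ^ z` -/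
theorem master (C E : ℕ) (η : ℝ) (hη : 0 < η) :
    ∀ᶠ L : ℝ in atTop, (((sm (yy L) (RR C L) * RR C L : ℕ) : ℝ)) ^ E ≤ Real.exp (η * L) := by
  have hB := log_pow_le 1 ((2 * E * (2 * C + 3)) / η) ((1 : ℝ) / 2) (by norm_num)
  filter_upwards [RR_le C, hB, eventually_ge_atTop 2] with L hR hlog hL
  have hL0 : 0 < L := by (clear * - hL; linarith)
  have hlog0 : 0 ≤ Real.log L := Real.log_nonneg (by (clear * - hL; linarith))
  have hsq1 : 1 ≤ Real.sqrt L := by
    rw [Real.one_le_sqrt]; (clear * - hL; linarith)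
  have hyL : (yy L : ℝ) ≤ L := (yy_le L).trans (by
    rw [Real.sqrt_le_left (by (clear * - hL; linarith))]; (clear * - hL; nlinarith))
  have h1 : ((sm (yy L) (RR C L) * RR C L : ℕ) : ℝ) ≤
      Real.exp ((2 * C + 2) * Real.log L * yy L + (2 * C + 1) * Real.log L) := by
    have h2 : ((sm (yy L) (RR C L) : ℕ) : ℝ) ≤ ((yy L : ℝ) * (RR C L : ℝ)) ^ (yy L) := by
      exact_mod_cast sm_le (yy L) (RR C L) (RR_ge C L)
    have h3 : (yy L : ℝ) * (RR C L : ℝ) ≤ L ^ (2 * C + 2) := by
      rw [pow_succ L (2 * C + 1), mul_comm (L ^ (2 * C + 1))]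
      exact mul_le_mul hyL hR (by positivity) hL0.le
    have h4 : L ^ (2 * C + 2) = Real.exp ((2 * C + 2) * Real.log L) := by
      rw [show ((2 : ℝ) * C + 2) = ((2 * C + 2 : ℕ) : ℝ) by push_cast; ring, Real.exp_nat_mul,
        Real.exp_log hL0]
    have h5 : L ^ (2 * C + 1) = Real.exp ((2 * C + 1) * Real.log L) := by
      rw [show ((2 : ℝ) * C + 1) = ((2 * C + 1 : ℕ) : ℝ) by push_cast; ring, Real.exp_nat_mul,
        Real.exp_log hL0]
    have h6 : Real.exp ((2 * C + 2) * Real.log L) ^ (yy L) =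
        Real.exp ((2 * C + 2) * Real.log L * yy L) := by
      rw [← Real.exp_nat_mul, mul_comm]
    rw [Nat.cast_mul, Real.exp_add, ← h6, ← h4, ← h5]
    refine mul_le_mul (h2.trans (pow_le_pow_left₀ (by (clear * -; positivity)) h3 _)) hR (by (clear * -; positivity))
      (by positivity)
  exact by
    refine (pow_le_pow_left₀ (by positivity) h1 E).trans ?_
    rw [← Real.exp_nat_mul]
    refine Real.exp_le_exp.mpr ?_
    have h7 : (2 * C + 2) * Real.log L * yy L + (2 * C + 1) * Real.log L ≤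
        (2 * C + 3) * 2 * (Real.log L * Real.sqrt L) := by
      have h8 : Real.log L * yy L ≤ Real.log L * Real.sqrt L :=
        mul_le_mul_of_nonneg_left (yy_le L) hlog0
      have h9 : Real.log L ≤ Real.log L * Real.sqrt L := by (clear * - hlog0 hsq1; nlinarith)
      have hC : (0 : ℝ) ≤ C := by (clear * -; positivity)
      (clear * - hlog0 h8 h9 hC; nlinarith [mul_nonneg hlog0 (Real.sqrt_nonneg L), mul_le_mul_of_nonneg_left h8 hC,
        mul_le_mul_of_nonneg_left h9 hC])
    have h10 : (E : ℝ) * ((2 * C + 3) * 2 * (Real.log L * Real.sqrt L)) ≤ η * L := by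
      rw [pow_one, ← Real.sqrt_eq_rpow, div_mul_eq_mul_div, div_le_iff₀ hη] at hlog
      have h11 := mul_le_mul_of_nonneg_right hlog (Real.sqrt_nonneg L)
      have h12 : Real.sqrt L * Real.sqrt L = L := Real.mul_self_sqrt hL0.le
      calc (E : ℝ) * ((2 * C + 3) * 2 * (Real.log L * Real.sqrt L)) =
          2 * E * (2 * C + 3) * Real.log L * Real.sqrt L := by ring
        _ ≤ Real.sqrt L * η * Real.sqrt L := h11
        _ = η * L := by rw [mul_comm (Real.sqrt L) η, mul_assoc, h12]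
    exact (mul_le_mul_of_nonneg_left h7 (by positivity)).trans h10

/-- the number of samples -/
def kk (C : ℕ) : ℕ := 2 * C * (2 * C + 1) + 1

theorem rpow_W_pow {C : ℕ} (hC : 1 ≤ C) {L : ℝ} (hL : 1 ≤ L) :
    L ^ (2 * C + 1) ≤ (L ^ ((1 : ℝ) / (4 * C))) ^ (2 * kk C - 1) := by
  have hC' : (1 : ℝ) ≤ C := by exact_mod_cast hC
  have hL0 : 0 < L := by (clear * - hL; linarith)
  rw [← Real.rpow_natCast (L ^ ((1 : ℝ) / (4 * C))), ← Real.rpow_mul hL0.le,
    ← Real.rpow_natCast L]
  refine Real.rpow_le_rpow_of_exponent_le hL ?_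
  have h1 : 2 * kk C - 1 = 4 * C * (2 * C + 1) + 1 := by
    unfold kk
    have : 2 * (2 * C * (2 * C + 1) + 1) = 4 * C * (2 * C + 1) + 2 := by ring
    omega
  rw [h1, div_mul_eq_mul_div, le_div_iff₀ (by (clear * - hC; positivity))]
  push_cast
  (clear * -; nlinarith)

theorem numeric {C : ℕ} (hC : 1 ≤ C) {τ η : ℝ} (hτ : 0 < τ) (hη : η ≤ τ / 4) (Cm : ℕ) {Cv : ℝ}
    (hCv : 0 < Cv) : ∀ᶠ L : ℝ in atTop, ∀ B : ℝ, Real.exp (τ / 2 * L) ≤ B →
      L * Real.exp (η * L) / B + (Cm * (Cv * (2 / τ) * Real.log (RR C L)) ^ (2 * kk C) +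
        L ^ (2 * kk C) * Real.exp (η * L) / B) /
          (L ^ ((1 : ℝ) / (4 * C)) / 2) ^ (2 * kk C - 1) ≤ 1 / L ^ (2 * C) := by
  have hC' : (1 : ℝ) ≤ C := by exact_mod_cast hC
  have hW : ∀ᶠ L : ℝ in atTop, 2 ≤ L ^ ((1 : ℝ) / (4 * C)) :=
    (tendsto_rpow_atTop (by (clear * - hC; positivity))).eventually_ge_atTop 2
  filter_upwards [RR_le C, hW, pow_le_exp (2 * C + 1) 3 (τ / 4) (by positivity),
    pow_le_exp (2 * kk C + 2 * C) 3 (τ / 4) (by positivity),
    log_pow_le (2 * kk C) (3 * Cm * (Cv * (2 / τ) * (2 * C + 1)) ^ (2 * kk C) *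
      2 ^ (2 * kk C - 1)) 1 one_pos, eventually_ge_atTop 1] with L hR hW h1 h2 h3 hL B hB
  set k := kk C with hk
  set X := Real.exp (τ / 4 * L) with hX
  set W := L ^ ((1 : ℝ) / (4 * C)) with hWdef
  have hL0 : 0 < L := by (clear * - hL; linarith)
  exact by
    have hX0 : 0 < X := Real.exp_pos _
    have hBX : X * X ≤ B := by
      rw [hX, ← Real.exp_add]
      refine le_trans (le_of_eq ?_) hB
      congr 1
      ring
    have hB0 : 0 < B := lt_of_lt_of_le (by positivity) hBX
    have hE : Real.exp (η * L) / B ≤ 1 / X := by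
      rw [div_le_div_iff₀ hB0 hX0, one_mul]
      refine le_trans (mul_le_mul_of_nonneg_right ?_ hX0.le) hBX
      exact Real.exp_le_exp.mpr (mul_le_mul_of_nonneg_right hη hL0.le)
    have hh1 : 1 ≤ W / 2 := by (clear * - hW; linarith)
    have hlogR : Real.log (RR C L) ≤ (2 * C + 1) * Real.log L := by
      have h5 : (0 : ℝ) < RR C L := by
        have := RR_ge C L
        positivity
      refine (Real.log_le_log h5 hR).trans (le_of_eq ?_)
      rw [Real.log_pow]
      push_cast
      ring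
    exact by
      have hlogR0 : 0 ≤ Real.log (RR C L) := by
        refine Real.log_nonneg ?_
        have := RR_ge C L
        have h5 : (2 : ℝ) ≤ RR C L := by exact_mod_cast this
        (clear * - h5; linarith)
      have t1 : L * Real.exp (η * L) / B ≤ 1 / (3 * L ^ (2 * C)) := by
        rw [mul_div_assoc]
        refine (mul_le_mul_of_nonneg_left hE hL0.le).trans ?_
        rw [mul_one_div, div_le_div_iff₀ hX0 (by positivity)]
        calc L * (3 * L ^ (2 * C)) = 3 * L ^ (2 * C + 1) := by ring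
          _ ≤ 1 * X := by rw [one_mul]; exact h1
      have t3 : L ^ (2 * k) * Real.exp (η * L) / B / (W / 2) ^ (2 * k - 1) ≤
          1 / (3 * L ^ (2 * C)) := by
        have h6 : 1 ≤ (W / 2) ^ (2 * k - 1) := one_le_pow₀ hh1
        refine (div_le_self (by (clear * - hL hB0; positivity)) h6).trans ?_
        rw [mul_div_assoc]
        refine (mul_le_mul_of_nonneg_left hE (by positivity)).trans ?_
        rw [mul_one_div, div_le_div_iff₀ hX0 (by positivity)]
        calc L ^ (2 * k) * (3 * L ^ (2 * C)) = 3 * L ^ (2 * k + 2 * C) := by ring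
          _ ≤ 1 * X := by rw [one_mul]; exact h2
      have t2 : Cm * (Cv * (2 / τ) * Real.log (RR C L)) ^ (2 * k) / (W / 2) ^ (2 * k - 1) ≤
          1 / (3 * L ^ (2 * C)) := by
        have h7 : L ^ (2 * C + 1) ≤ W ^ (2 * k - 1) := rpow_W_pow hC hL
        have h8 : (Cv * (2 / τ) * Real.log (RR C L)) ^ (2 * k) ≤
            (Cv * (2 / τ) * (2 * C + 1)) ^ (2 * k) * Real.log L ^ (2 * k) := by
          rw [← mul_pow]
          refine pow_le_pow_left₀ (by (clear * - hCv hτ; positivity)) ?_ _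
          rw [mul_assoc (Cv * (2 / τ))]
          exact mul_le_mul_of_nonneg_left hlogR (by (clear * - hCv hτ; positivity))
        rw [div_pow, div_div_eq_mul_div, div_le_div_iff₀ (by positivity) (by positivity)]
        rw [Real.rpow_one] at h3
        calc Cm * (Cv * (2 / τ) * Real.log (RR C L)) ^ (2 * k) * 2 ^ (2 * k - 1) *
              (3 * L ^ (2 * C))
            ≤ Cm * ((Cv * (2 / τ) * (2 * C + 1)) ^ (2 * k) * Real.log L ^ (2 * k)) *
              2 ^ (2 * k - 1) * (3 * L ^ (2 * C)) := by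
              have h9 := mul_le_mul_of_nonneg_left h8 (Nat.cast_nonneg (α := ℝ) Cm)
              exact mul_le_mul_of_nonneg_right (mul_le_mul_of_nonneg_right h9 (by positivity))
                (by positivity)
          _ = (3 * Cm * (Cv * (2 / τ) * (2 * C + 1)) ^ (2 * k) * 2 ^ (2 * k - 1) *
              Real.log L ^ (2 * k)) * L ^ (2 * C) := by ring
          _ ≤ L * L ^ (2 * C) := mul_le_mul_of_nonneg_right h3 (by positivity)
          _ = L ^ (2 * C + 1) := by ring
          _ ≤ 1 * W ^ (2 * k - 1) := by rw [one_mul]; exact h7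
      have h10 : 1 / (3 * L ^ (2 * C)) + (1 / (3 * L ^ (2 * C)) + 1 / (3 * L ^ (2 * C))) =
          1 / L ^ (2 * C) := by
        field_simp
        norm_num
      rw [add_div, ← h10]
      exact add_le_add t1 (add_le_add t2 t3)

end

end Pool.Agent.Helper92.NX2

end

section

set_option autoImplicit false

open Finset

open scoped BigOperators ComplexConjugate

namespace Pool.Agent.Helper67.NX2

open Pool.Agent.Helper57.NX

noncomputable section

namespace LsMajor

/-- the rough numbers -/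
def RR (R Y : ℕ) : Finset ℕ :=
  (Icc 1 Y).filter (fun r => Squarefree r ∧ ∀ p ∈ r.primeFactors, R < p)

/-- lower bound for the distance to the integers of a fraction -/
theorem dint_frac_ge {u : ℤ} {D : ℕ} (hD : 1 ≤ D) (h : ¬ (D : ℤ) ∣ u) :
    1 / (D : ℝ) ≤ dint ((u : ℝ) / D) := by
  have hD0 : (0 : ℝ) < D := by exact_mod_cast hD
  unfold dint
  set r := round ((u : ℝ) / D)
  have h1 : (u : ℝ) / D - r = ((u - D * r : ℤ) : ℝ) / D := by
    push_cast
    (clear * - hD; field_simp)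
  rw [h1, abs_div, abs_of_pos hD0]
  refine div_le_div_of_nonneg_right ?_ hD0.le
  have h2 : u - D * r ≠ 0 := by
    intro h3
    exact h ⟨r, by (clear * - h3; linarith)⟩
  have h3 := Int.one_le_abs h2
  rw [← Int.cast_abs]
  exact_mod_cast h3

/-- the index set -/
def T (P : Finset (ℕ × ℕ)) (R Y : ℕ) : Finset ((ℕ × ℕ) × (Σ _ : ℕ, ℕ)) :=
  P ×ˢ ((RR R Y).sigma fun r => (range r).filter (fun c => Nat.Coprime c r))

/-- the point -/
def pt (M : ℕ) (t : (ℕ × ℕ) × (Σ _ : ℕ, ℕ)) : ℝ :=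
  M * ((t.1.2 : ℝ) / t.1.1 + (t.2.2 : ℝ) / t.2.1)

theorem coprime_of_rough {q s R : ℕ} (hq : ∀ p : ℕ, p.Prime → p ∣ q → p ≤ R)
    (hs : ∀ p : ℕ, p.Prime → p ∣ s → R < p) : Nat.Coprime q s := by
  refine Nat.coprime_of_dvd fun p hp h1 h2 => ?_
  have h3 := hq p hp h1
  have h4 := hs p hp h2
  omega

theorem mem_RR {R Y r : ℕ} (h : r ∈ RR R Y) : 1 ≤ r ∧ r ≤ Y ∧ Squarefree r ∧
    ∀ p : ℕ, p.Prime → p ∣ r → R < p := by
  unfold RR at h
  rw [mem_filter, mem_Icc] at h
  refine ⟨h.1.1, h.1.2, h.2.1, fun p hp hd => h.2.2 p ?_⟩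
  rw [Nat.mem_primeFactors]
  exact ⟨hp, hd, by omega⟩

/-- the key separation -/
theorem pt_sep {M R Q0 Y : ℕ} (hM : 1 ≤ M) (hMR : ∀ p : ℕ, p.Prime → p ∣ M → p ≤ R)
    {P : Finset (ℕ × ℕ)} (hP : ∀ x ∈ P, 1 ≤ x.1 ∧ x.1 ≤ Q0 ∧ Nat.Coprime x.1 M ∧
      ∀ p : ℕ, p.Prime → p ∣ x.1 → p ≤ R)
    (hPd : ∀ x ∈ P, ∀ y ∈ P, x ≠ y → ∀ m : ℤ, (x.2 : ℤ) * y.1 - y.2 * x.1 ≠ m * (x.1 * y.1))
    {t t' : (ℕ × ℕ) × (Σ _ : ℕ, ℕ)} (ht : t ∈ T P R Y) (ht' : t' ∈ T P R Y) (hne : t ≠ t') :
    1 / ((Q0 : ℝ) ^ 2 * Y ^ 2) ≤ dint (pt M t - pt M t') := by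
  obtain ⟨⟨q, a⟩, ⟨r, b⟩⟩ := t
  obtain ⟨⟨q', a'⟩, ⟨r', b'⟩⟩ := t'
  unfold T at ht ht'
  rw [mem_product, mem_sigma, mem_filter, mem_range] at ht ht'
  obtain ⟨hx, hr, hbr, hb⟩ := ht
  obtain ⟨hx', hr', hbr', hb'⟩ := ht'
  simp only at hx hr hbr hb hx' hr' hbr' hb'
  obtain ⟨hr1, hrY, -, hrR⟩ := mem_RR hr
  obtain ⟨hr1', hrY', -, hrR'⟩ := mem_RR hr'
  obtain ⟨hq1, hqQ, hqM, hqR⟩ := hP _ hx
  obtain ⟨hq1', hqQ', hqM', hqR'⟩ := hP _ hx'
  simp only at hq1 hqQ hqM hqR hq1' hqQ' hqM' hqR'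
  set D : ℕ := (q * q') * (r * r') with hD
  set w : ℤ := ((a : ℤ) * q' - a' * q) * (r * r') + ((b : ℤ) * r' - b' * r) * (q * q') with hw
  have hD1 : 1 ≤ D := by
    rw [hD]
    exact Nat.one_le_iff_ne_zero.2 (by (clear * - hq1 hq1' hr1 hr1'; positivity))
  have hq0 : (q : ℝ) ≠ 0 := by (clear * - hq1; positivity)
  have hq0' : (q' : ℝ) ≠ 0 := by positivity
  have hr0 : (r : ℝ) ≠ 0 := by positivity
  exact by
    have hr0' : (r' : ℝ) ≠ 0 := by positivity
    have e1 : pt M ((q, a), ⟨r, b⟩) - pt M ((q', a'), ⟨r', b'⟩) = ((M * w : ℤ) : ℝ) / D := by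
      unfold pt
      rw [hD, hw]
      push_cast
      field_simp
      ring
    rw [e1]
    -- coprimality
    have hcop : Nat.Coprime (q * q') (r * r') := by
      refine coprime_of_rough (R := R) ?_ ?_
      · intro p hp hd
        rcases hp.dvd_mul.1 hd with h | h
        · exact hqR p hp h
        · exact hqR' p hp h
      · intro p hp hd
        rcases hp.dvd_mul.1 hd with h | h
        · exact hrR p hp h
        · exact hrR' p hp h
    have hcopM : Nat.Coprime D M := by
      rw [hD]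
      refine Nat.Coprime.mul_left (Nat.Coprime.mul_left hqM hqM') ?_
      refine (coprime_of_rough (R := R) hMR ?_).symm
      intro p hp hd
      rcases hp.dvd_mul.1 hd with h | h
      · exact hrR p hp h
      · exact hrR' p hp h
    have hnd : ¬ (D : ℤ) ∣ M * w := by
      intro hdvd
      have h1 : (D : ℤ) ∣ w := by
        refine IsCoprime.dvd_of_dvd_mul_left ?_ hdvd
        exact Nat.isCoprime_iff_coprime.2 hcopM
      have h2 : ((q * q' : ℕ) : ℤ) ∣ w := by
        refine dvd_trans ?_ h1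
        rw [hD]
        exact_mod_cast dvd_mul_right (q * q') (r * r')
      have h3 : ((r * r' : ℕ) : ℤ) ∣ w := by
        refine dvd_trans ?_ h1
        rw [hD]
        exact_mod_cast dvd_mul_left (r * r') (q * q')
      have h4 : ((q * q' : ℕ) : ℤ) ∣ (a : ℤ) * q' - a' * q := by
        have h5 : ((q * q' : ℕ) : ℤ) ∣ ((a : ℤ) * q' - a' * q) * ((r * r' : ℕ) : ℤ) := by
          have h6 : ((a : ℤ) * q' - a' * q) * ((r * r' : ℕ) : ℤ) =
              w - ((b : ℤ) * r' - b' * r) * ((q * q' : ℕ) : ℤ) := by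
            rw [hw]; push_cast; ring
          rw [h6]
          exact dvd_sub h2 (dvd_mul_left _ _)
        exact IsCoprime.dvd_of_dvd_mul_right (Nat.isCoprime_iff_coprime.2 hcop) h5
      have h5 : ((r * r' : ℕ) : ℤ) ∣ (b : ℤ) * r' - b' * r := by
        have h5 : ((r * r' : ℕ) : ℤ) ∣ ((b : ℤ) * r' - b' * r) * ((q * q' : ℕ) : ℤ) := by
          have h6 : ((b : ℤ) * r' - b' * r) * ((q * q' : ℕ) : ℤ) =
              w - ((a : ℤ) * q' - a' * q) * ((r * r' : ℕ) : ℤ) := by
            rw [hw]; push_cast; ring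
          rw [h6]
          exact dvd_sub h3 (dvd_mul_left _ _)
        exact IsCoprime.dvd_of_dvd_mul_right (Nat.isCoprime_iff_coprime.2 hcop.symm) h5
      -- x = x'
      have hxx : ((q, a) : ℕ × ℕ) = (q', a') := by
        by_contra hne'
        obtain ⟨m, hm⟩ := h4
        refine hPd _ hx _ hx' hne' m ?_
        simp only
        rw [hm]
        push_cast
        ring
      -- r = r'
      have hrr : r ∣ r' := by
        have h6 : (r : ℤ) ∣ (b : ℤ) * r' := by
          have h7 : (r : ℤ) ∣ (b : ℤ) * r' - b' * r :=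
            dvd_trans (by exact_mod_cast dvd_mul_right r r') h5
          have h8 : (b : ℤ) * r' = ((b : ℤ) * r' - b' * r) + b' * r := by ring
          rw [h8]
          exact dvd_add h7 (dvd_mul_left _ _)
        have h9 : r ∣ b * r' := by exact_mod_cast h6
        exact (Nat.Coprime.symm hb).dvd_of_dvd_mul_left h9
      have hrr' : r' ∣ r := by
        have h6 : (r' : ℤ) ∣ (b' : ℤ) * r := by
          have h7 : (r' : ℤ) ∣ (b : ℤ) * r' - b' * r :=
            dvd_trans (by exact_mod_cast dvd_mul_left r' r) h5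
          have h8 : (b' : ℤ) * r = (b : ℤ) * r' - ((b : ℤ) * r' - b' * r) := by ring
          rw [h8]
          exact dvd_sub (dvd_mul_left _ _) h7
        have h9 : r' ∣ b' * r := by exact_mod_cast h6
        exact (Nat.Coprime.symm hb').dvd_of_dvd_mul_left h9
      have hreq : r = r' := Nat.dvd_antisymm hrr hrr'
      subst hreq
      have hbb : b = b' := by
        have h6 : ((r * r : ℕ) : ℤ) ∣ ((b : ℤ) - b') * r := by
          have : ((b : ℤ) - b') * r = (b : ℤ) * r - b' * r := by ring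
          rw [this]
          exact h5
        have h7 : (r : ℤ) ∣ (b : ℤ) - b' := by
          push_cast at h6
          exact Int.dvd_of_mul_dvd_mul_right (by exact_mod_cast (show r ≠ 0 by omega)) h6
        have h8 : (b : ℤ) - b' = 0 := by
          refine Int.eq_zero_of_abs_lt_dvd h7 ?_
          rw [abs_lt]
          constructor <;> omega
        omega
      subst hbb
      rw [hxx] at hne
      exact hne rfl
    refine le_trans ?_ (dint_frac_ge hD1 hnd)
    refine one_div_le_one_div_of_le (by (clear * - hq1 hq1' hr1 hr1'; positivity)) ?_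
    rw [hD]
    push_cast
    have h1 : (q : ℝ) ≤ Q0 := by exact_mod_cast hqQ
    have h2 : (q' : ℝ) ≤ Q0 := by exact_mod_cast hqQ'
    have h3 : (r : ℝ) ≤ Y := by exact_mod_cast hrY
    have h4 : (r' : ℝ) ≤ Y := by exact_mod_cast hrY'
    rw [sq, sq]
    have hQ : (0 : ℝ) ≤ Q0 := Nat.cast_nonneg _
    have hY : (0 : ℝ) ≤ Y := Nat.cast_nonneg _
    exact mul_le_mul (mul_le_mul h1 h2 (by (clear * - hq1'; positivity)) hQ) (mul_le_mul h3 h4 (by positivity) hY)
      (by (clear * - hr1 hr1'; positivity)) (by (clear * -; positivity))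

end LsMajor

end

end Pool.Agent.Helper67.NX2

end

section

set_option autoImplicit false

open Finset

open scoped BigOperators ComplexConjugate

namespace Pool.Agent.Helper67.NX2

open Pool.Agent.Helper57.NX

noncomputable section

/-- one side of the separated points -/
theorem ls87_half (Q : Finset ℝ) (k : ℝ → ℕ) (hk : ∀ α ∈ Q, ∀ β ∈ Q, k α = k β → α = β)
    (h : ℝ → ℝ) (A B : ℝ) (hA : 0 ≤ A) (hB : 0 ≤ B) (h0 : ∀ β ∈ Q, k β = 0 → h β ≤ A)
    (h1 : ∀ β ∈ Q, 1 ≤ k β → h β ≤ B / (k β : ℝ) ^ 2) :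
    ∑ β ∈ Q, h β ≤ A + 2 * B := by
  obtain ⟨G, hG⟩ : ∃ G : ℕ → ℝ, G = fun n : ℕ => if n = 0 then A else B / (n : ℝ) ^ 2 := ⟨_, rfl⟩
  have hG0 : ∀ n, 0 ≤ G n := by
    intro n
    rw [hG]
    dsimp only
    split_ifs
    · exact hA
    · positivity
  have step1 : ∑ β ∈ Q, h β ≤ ∑ β ∈ Q, G (k β) := by
    refine Finset.sum_le_sum fun β hβ => ?_
    rw [hG]
    dsimp only
    split_ifs with hz
    · exact h0 β hβ hz
    · exact h1 β hβ (Nat.one_le_iff_ne_zero.mpr hz)
  have step2 : ∑ β ∈ Q, G (k β) = ∑ n ∈ Q.image k, G n := by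
    rw [Finset.sum_image]
    intro α hα β hβ hab
    exact hk α hα β hβ hab
  obtain ⟨M, hM⟩ : ∃ M : ℕ, ∀ n ∈ Q.image k, n < M + 2 := by
    refine ⟨(Q.image k).sup id, fun n hn => ?_⟩
    have : n ≤ (Q.image k).sup id := Finset.le_sup (f := id) hn
    omega
  have step3 : ∑ n ∈ Q.image k, G n ≤ ∑ n ∈ range (M + 2), G n :=
    Finset.sum_le_sum_of_subset_of_nonneg (fun n hn => Finset.mem_range.mpr (hM n hn))
      fun n _ _ => hG0 n
  have step4 : ∀ M : ℕ, ∑ n ∈ range (M + 2), G n ≤ A + B * (2 - 1 / ((M : ℝ) + 1)) := by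
    intro M
    induction M with
    | zero =>
      rw [Finset.sum_range_succ, Finset.sum_range_succ, Finset.sum_range_zero, hG]
      norm_num
    | succ M ih =>
      rw [Finset.sum_range_succ]
      exact by
        have e1 : G (M + 2) = B / ((M : ℝ) + 2) ^ 2 := by
          rw [hG]; simp
        rw [show M + 1 + 1 = M + 2 from rfl, e1]
        push_cast
        have hM0 : (0 : ℝ) ≤ (M : ℝ) := Nat.cast_nonneg _
        have e2 : 1 / ((M : ℝ) + 2) ^ 2 ≤ 1 / ((M : ℝ) + 1) - 1 / ((M : ℝ) + 1 + 1) := by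
          rw [div_sub_div _ _ (by (clear * -; positivity)) (by (clear * -; positivity)), div_le_div_iff₀ (by (clear * -; positivity))
            (by (clear * -; positivity))]
          (clear * -; nlinarith)
        have e3 := mul_le_mul_of_nonneg_left e2 hB
        rw [mul_one_div] at e3
        (clear * - ih e3; linarith)
  have hM0 : (0 : ℝ) ≤ (M : ℝ) := Nat.cast_nonneg _
  have step5 : B * (2 - 1 / ((M : ℝ) + 1)) ≤ 2 * B := by
    have : 0 ≤ 1 / ((M : ℝ) + 1) := by (clear * -; positivity)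
    (clear * - hB this; nlinarith)
  linarith [step4 M]

/-- separated points, `h` bounded by `L ^ 2` and by `1 / (4 dint (α - β) ^ 2)` -/
theorem ls87_sep (P : Finset ℝ) (Δ : ℝ) (hΔ : 0 < Δ)
    (hP : ∀ α ∈ P, ∀ β ∈ P, α ≠ β → Δ ≤ dint (α - β)) (α : ℝ) (L : ℝ)
    (h : ℝ → ℝ) (hL : ∀ β, h β ≤ L ^ 2)
    (hd : ∀ β, 0 < dint (α - β) → h β ≤ 1 / (4 * dint (α - β) ^ 2)) :
    ∑ β ∈ P, h β ≤ 2 * L ^ 2 + 1 / Δ ^ 2 := by
  obtain ⟨r, hr⟩ : ∃ r : ℝ → ℝ, r = fun β => (α - β) - round (α - β) := ⟨_, rfl⟩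
  have hrd : ∀ β, dint (α - β) = |r β| := fun β => by rw [hr]; rfl
  -- two points with close values of `r` are equal
  have hinj : ∀ β ∈ P, ∀ γ ∈ P, |r β - r γ| < Δ → β = γ := by
    intro β hβ γ hγ hlt
    by_contra hne
    have h1 := hP γ hγ β hβ (Ne.symm hne)
    have h2 := dint_le_abs_sub (γ - β) (round (α - β) - round (α - γ))
    have h3 : (γ - β) - ((round (α - β) - round (α - γ) : ℤ) : ℝ) = r β - r γ := by
      rw [hr]; push_cast; ring
    rw [h3] at h2
    (clear * - hlt h1 h2; linarith)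
  have hfloor : ∀ x y : ℝ, 0 ≤ x → 0 ≤ y → ⌊x / Δ⌋₊ = ⌊y / Δ⌋₊ → |x - y| < Δ := by
    intro x y hx hy hxy
    have h1 := Nat.floor_le (div_nonneg hx hΔ.le)
    have h2 := Nat.lt_floor_add_one (x / Δ)
    have h3 := Nat.floor_le (div_nonneg hy hΔ.le)
    have h4 := Nat.lt_floor_add_one (y / Δ)
    rw [hxy] at h1 h2
    have h5 : |x / Δ - y / Δ| < 1 := by rw [abs_lt]; constructor <;> (clear * - h1 h4 h2 h3; linarith)
    rw [← sub_div, abs_div, abs_of_pos hΔ, div_lt_one hΔ] at h5
    exact h5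
  have hbig : ∀ β, 1 ≤ ⌊|r β| / Δ⌋₊ → h β ≤ 1 / (4 * Δ ^ 2) / (⌊|r β| / Δ⌋₊ : ℝ) ^ 2 := by
    intro β hβ
    have h1 := Nat.floor_le (div_nonneg (abs_nonneg (r β)) hΔ.le)
    have h2 : (1 : ℝ) ≤ (⌊|r β| / Δ⌋₊ : ℝ) := by exact_mod_cast hβ
    obtain ⟨k, hk⟩ : ∃ k : ℝ, k = (⌊|r β| / Δ⌋₊ : ℝ) := ⟨_, rfl⟩
    rw [← hk] at h1 h2 ⊢
    rw [le_div_iff₀ hΔ] at h1
    have h3 : 0 < dint (α - β) := by rw [hrd]; (clear * - hΔ h1 h2; nlinarith)
    refine (hd β h3).trans ?_
    rw [hrd, div_div]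
    apply one_div_le_one_div_of_le (by (clear * - hΔ h2; positivity))
    have : (k * Δ) ^ 2 ≤ |r β| ^ 2 := pow_le_pow_left₀ (by positivity) h1 2
    (clear * - this; nlinarith)
  have hL2 : 0 ≤ L ^ 2 := sq_nonneg L
  have hB : 0 ≤ 1 / (4 * Δ ^ 2) := by positivity
  exact by
    rw [← Finset.sum_filter_add_sum_filter_not P (fun β => 0 ≤ r β)]
    have p1 := ls87_half (P.filter (fun β => 0 ≤ r β)) (fun β => ⌊|r β| / Δ⌋₊) (by
      intro β hβ γ hγ hk
      rw [Finset.mem_filter] at hβ hγ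
      have h1 := hfloor _ _ (abs_nonneg _) (abs_nonneg _) hk
      rw [abs_of_nonneg hβ.2, abs_of_nonneg hγ.2] at h1
      exact hinj β hβ.1 γ hγ.1 h1) h (L ^ 2) (1 / (4 * Δ ^ 2)) hL2 hB (fun β _ _ => hL β)
      (fun β _ hk => hbig β hk)
    have p2 := ls87_half (P.filter (fun β => ¬ 0 ≤ r β)) (fun β => ⌊|r β| / Δ⌋₊) (by
      intro β hβ γ hγ hk
      rw [Finset.mem_filter] at hβ hγ
      have h1 := hfloor _ _ (abs_nonneg _) (abs_nonneg _) hk
      rw [abs_of_neg (not_le.mp hβ.2), abs_of_neg (not_le.mp hγ.2)] at h1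
      refine hinj β hβ.1 γ hγ.1 ?_
      rw [← abs_neg]
      have : -(r β - r γ) = -r β - -r γ := by ring
      rw [this]
      exact h1) h (L ^ 2) (1 / (4 * Δ ^ 2)) hL2 hB (fun β _ _ => hL β)
      (fun β _ hk => hbig β hk)
    have e1 : L ^ 2 + 2 * (1 / (4 * Δ ^ 2)) + (L ^ 2 + 2 * (1 / (4 * Δ ^ 2))) =
        2 * L ^ 2 + 1 / Δ ^ 2 := by
      field_simp
      ring
    (clear * - p1 p2 e1; linarith)

end

end Pool.Agent.Helper67.NX2

end
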