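import Pool.Agent.Helper23.MC.Inst

/-!
Parts of Helper5.NX2.RatlCore, Helper67.NX2.DefsB, Helper81.NX2.GmMomentA, Helper81.NX2.GmMomentB, Helper72.NX2.LemL, Helper69.EK.Selberg, Helper45.NX2.BtClass, Helper96.CPAP.Count, Helper59.NX.Deriv, Helper59.NX.Es0
-/

attribute [local instance 5000]
  Pool.Agent.Helper23.MC.Inst.rCharZero Pool.Agent.Helper23.MC.Inst.rALM
  Pool.Agent.Helper23.MC.Inst.rARM Pool.Agent.Helper23.MC.Inst.rALSM
  Pool.Agent.Helper23.MC.Inst.rARSM Pool.Agent.Helper23.MC.Inst.rARRLE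
  Pool.Agent.Helper23.MC.Inst.rALRLE Pool.Agent.Helper23.MC.Inst.rARRLT
  Pool.Agent.Helper23.MC.Inst.rALRLT Pool.Agent.Helper23.MC.Inst.rPMRLT
  Pool.Agent.Helper23.MC.Inst.rMPRLT Pool.Agent.Helper23.MC.Inst.rPMM
  Pool.Agent.Helper23.MC.Inst.rMPM Pool.Agent.Helper23.MC.Inst.rPMSM
  Pool.Agent.Helper23.MC.Inst.rMPSM Pool.Agent.Helper23.MC.Inst.rEAOL
  Pool.Agent.Helper23.MC.Inst.rIOR Pool.Agent.Helper23.MC.Inst.rISOR
  Pool.Agent.Helper23.MC.Inst.rNZD Pool.Agent.Helper23.MC.Inst.rcCharZero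
  Pool.Agent.Helper23.MC.Inst.rcNZD Pool.Agent.Helper23.MC.Inst.zCharZero
  Pool.Agent.Helper23.MC.Inst.zALM Pool.Agent.Helper23.MC.Inst.zARM
  Pool.Agent.Helper23.MC.Inst.zALSM Pool.Agent.Helper23.MC.Inst.zARSM
  Pool.Agent.Helper23.MC.Inst.zIOR Pool.Agent.Helper23.MC.Inst.zISOR
  Pool.Agent.Helper23.MC.Inst.zNZD Pool.Agent.Helper23.MC.Inst.qCharZero
  Pool.Agent.Helper23.MC.Inst.mR Pool.Agent.Helper23.MC.Inst.mC Pool.Agent.Helper23.MC.Inst.mRC
  Pool.Agent.Helper23.MC.Inst.rPSM Pool.Agent.Helper23.MC.Inst.rCSM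
  Pool.Agent.Helper23.MC.Inst.cAdd Pool.Agent.Helper23.MC.Inst.cAddM
  Pool.Agent.Helper23.MC.Inst.cMul Pool.Agent.Helper23.MC.Inst.cMon

namespace Pool.Agent.Helper44
end Pool.Agent.Helper44
namespace Pool.Agent.Helper57.NX
end Pool.Agent.Helper57.NX

section

set_option autoImplicit false

open Finset

open scoped BigOperators ComplexConjugate

namespace Pool.Agent.Helper67.NX2

open Pool.Agent.Helper57.NX

noncomputable section

theorem rt5_mul {D a b X Y : ℝ} (hD : 0 < D) (hX : X ≤ D ^ a) (hY0 : 0 ≤ Y) (hY : Y ≤ D ^ b) :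
    X * Y ≤ D ^ (a + b) := by
  rw [Real.rpow_add hD]
  exact mul_le_mul hX hY hY0 (Real.rpow_nonneg hD.le _)

end

end Pool.Agent.Helper67.NX2

end

section

set_option autoImplicit false

open Finset

open scoped BigOperators ComplexConjugate

namespace Pool.Agent.Helper67.NX2

open Pool.Agent.Helper57.NX

noncomputable section

/-- `h` depends only on the coordinates in `S` -/
def DepOn {ι : Type} {X : ι → Type} (S : Finset ι) (h : (∀ i, X i) → ℝ) : Prop :=
  ∀ ω ω' : ∀ i, X i, (∀ i ∈ S, ω i = ω' i) → h ω = h ω'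

/-- `ω` on `B`, `ω'` outside `B` -/
def mixo {ι : Type} [DecidableEq ι] {X : ι → Type} (B : Finset ι) (ω ω' : ∀ i, X i) : ∀ i, X i :=
  fun i => if i ∈ B then ω i else ω' i

end

end Pool.Agent.Helper67.NX2

end

section

set_option autoImplicit false

open Finset

open scoped BigOperators ComplexConjugate

namespace Pool.Agent.Helper67.NX2

open Pool.Agent.Helper57.NX

noncomputable section

/-- averaging over one more coordinate -/
theorem gmm_update {ι : Type} [Fintype ι] [DecidableEq ι] (X : ι → Type) [∀ i, Fintype (X i)]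
    [∀ i, Nonempty (X i)] (Φ : (∀ i, X i) → ℝ) (p : ι) :
    𝔼 ω : ∀ i, X i, 𝔼 t : X p, Φ (Function.update ω p t) = 𝔼 ω : ∀ i, X i, Φ ω := by
  let ee : (∀ i, X i) × X p ≃ (∀ i, X i) × X p :=
    { toFun := fun z => (Function.update z.1 p z.2, z.1 p)
      invFun := fun z => (Function.update z.1 p z.2, z.1 p)
      left_inv := fun z => by simp
      right_inv := fun z => by simp }
  calc 𝔼 ω : ∀ i, X i, 𝔼 t : X p, Φ (Function.update ω p t)
      = 𝔼 z : (∀ i, X i) × X p, Φ (Function.update z.1 p z.2) := by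
        rw [← Finset.univ_product_univ, Finset.expect_product]
    _ = 𝔼 z : (∀ i, X i) × X p, Φ z.1 := Fintype.expect_equiv ee _ _ (fun z => rfl)
    _ = 𝔼 ω : ∀ i, X i, 𝔼 _t : X p, Φ ω := by
        rw [← Finset.univ_product_univ, Finset.expect_product]
    _ = 𝔼 ω : ∀ i, X i, Φ ω :=
        Finset.expect_congr rfl fun ω _ => Finset.expect_const Finset.univ_nonempty _

/-- Chinese remainder theorem for averages, two moduli -/
theorem gmm_crt2 (m n : ℕ) (hm : 1 ≤ m) (hn : 1 ≤ n) (h : Nat.Coprime m n) (f : ℕ → ℕ → ℝ) :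
    𝔼 x ∈ range (m * n), f (x % m) (x % n) = 𝔼 a ∈ range m, 𝔼 b ∈ range n, f a b := by
  have hmn : (0 : ℝ) < m * n := by
    have h1 : (1 : ℝ) ≤ m := by exact_mod_cast hm
    have h2 : (1 : ℝ) ≤ n := by exact_mod_cast hn
    positivity
  have h1 : ∑ x ∈ range (m * n), f (x % m) (x % n) = ∑ z ∈ range m ×ˢ range n, f z.1 z.2 := by
    refine Finset.sum_nbij (fun x => (x % m, x % n)) ?_ ?_ ?_ ?_
    · intro x _
      rw [Finset.mem_product, Finset.mem_range, Finset.mem_range]
      exact ⟨Nat.mod_lt _ hm, Nat.mod_lt _ hn⟩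
    · intro x hx y hy hxy
      simp only [Prod.mk.injEq] at hxy
      have h2 : x ≡ y [MOD m * n] := (Nat.modEq_and_modEq_iff_modEq_mul h).mp ⟨hxy.1, hxy.2⟩
      have hx' : x < m * n := by simpa using hx
      have hy' : y < m * n := by simpa using hy
      exact Nat.ModEq.eq_of_lt_of_lt h2 hx' hy'
    · rintro ⟨a, b⟩ hab
      simp only [Finset.coe_product, Set.mem_prod, Finset.mem_coe, Finset.mem_range] at hab
      obtain ⟨c, hc⟩ := Nat.chineseRemainder h a b
      refine ⟨c % (m * n), ?_, ?_⟩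
      · simp only [Finset.mem_coe, Finset.mem_range]
        exact Nat.mod_lt _ (Nat.mul_pos hm hn)
      · have e1 : c % (m * n) % m = a := by
          rw [Nat.mod_mul_right_mod]
          have := hc.1
          rw [Nat.ModEq, Nat.mod_eq_of_lt hab.1] at this
          exact this
        have e2 : c % (m * n) % n = b := by
          rw [Nat.mod_mul_left_mod]
          have := hc.2
          rw [Nat.ModEq, Nat.mod_eq_of_lt hab.2] at this
          exact this
        rw [Prod.mk.injEq]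
        exact ⟨e1, e2⟩
    · intro x _
      rfl
  rw [Finset.expect_eq_sum_div_card, h1, Finset.sum_product, Finset.card_range,
    Finset.expect_eq_sum_div_card, Finset.card_range]
  simp_rw [Finset.expect_eq_sum_div_card, Finset.card_range]
  rw [← Finset.sum_div, div_div]
  push_cast
  rw [mul_comm (n : ℝ) m]

/-- extension of a residue vector by zero -/
def gmext (r1 : ℕ) (PP : Finset ℕ) (ω : ∀ p : {p // p ∈ PP}, Fin (p.1 ^ r1)) (p : ℕ) : ℕ :=
  if hp : p ∈ PP then (ω ⟨p, hp⟩ : ℕ) else 0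

theorem gmext_mem {r1 : ℕ} {PP : Finset ℕ} (ω : ∀ p : {p // p ∈ PP}, Fin (p.1 ^ r1))
    (p : {p // p ∈ PP}) : gmext r1 PP ω p.1 = (ω p : ℕ) := by
  unfold gmext
  rw [dif_pos p.2]

theorem gmext_update {r1 : ℕ} {PP : Finset ℕ} (ω : ∀ p : {p // p ∈ PP}, Fin (p.1 ^ r1))
    (p : {p // p ∈ PP}) (t : Fin (p.1 ^ r1)) :
    gmext r1 PP (Function.update ω p t) = Function.update (gmext r1 PP ω) p.1 (t : ℕ) := by
  funext q
  by_cases hq : q ∈ PP
  · by_cases hqp : q = p.1
    · subst hqp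
      rw [Function.update_self]
      have h1 := gmext_mem (Function.update ω p t) p
      rw [Function.update_self] at h1
      exact h1
    · rw [Function.update_of_ne hqp]
      unfold gmext
      rw [dif_pos hq, dif_pos hq, Function.update_of_ne]
      intro h
      exact hqp (congrArg Subtype.val h)
  · have hqp : q ≠ p.1 := fun h => hq (h ▸ p.2)
    rw [Function.update_of_ne hqp]
    unfold gmext
    rw [dif_neg hq, dif_neg hq]

theorem gmm_expect_fin (n : ℕ) (g : ℕ → ℝ) : 𝔼 t ∈ range n, g t = 𝔼 t : Fin n, g (t : ℕ) := by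
  rw [Finset.expect_eq_sum_div_card, Fintype.expect_eq_sum_div_card, Fin.sum_univ_eq_sum_range,
    Finset.card_range, Fintype.card_fin]

theorem gmm_crt (K r1 : ℕ) (hK : 1 ≤ K) (PP : Finset ℕ) (hPP : ∀ p ∈ PP, p.Prime ∧ ¬ p ∣ K)
    (U : Finset ℕ) : U ⊆ PP → ∀ Φ : ℕ → (ℕ → ℕ) → ℝ,
    (∀ κ κ' ω ω', κ ≡ κ' [MOD K] → (∀ q ∈ U, ω q ≡ ω' q [MOD q ^ r1]) → Φ κ ω = Φ κ' ω') →
    𝔼 x ∈ range (K * ∏ p ∈ U, p ^ r1), Φ x (fun _ => x) =
      𝔼 κ ∈ range K, 𝔼 ω : (∀ p : {p // p ∈ PP}, Fin (p.1 ^ r1)), Φ κ (gmext r1 PP ω) := by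
  have hne : ∀ p : {p // p ∈ PP}, Nonempty (Fin (p.1 ^ r1)) := fun p =>
    ⟨⟨0, pow_pos (hPP p.1 p.2).1.pos r1⟩⟩
  induction U using Finset.induction_on with
  | empty =>
    intro _ Φ hΦ
    rw [Finset.prod_empty, mul_one]
    refine Finset.expect_congr rfl fun κ _ => ?_
    rw [← Finset.expect_const (Finset.univ_nonempty (α := ∀ p : {p // p ∈ PP}, Fin (p.1 ^ r1)))
      (Φ κ (fun _ => κ))]
    refine Finset.expect_congr rfl fun ω _ => ?_
    exact hΦ _ _ _ _ rfl (fun q hq => absurd hq (Finset.notMem_empty q))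
  | insert p U hpU ih =>
    intro hUP Φ hΦ
    have hpP : p ∈ PP := hUP (Finset.mem_insert_self p U)
    exact by
      have hUP' : U ⊆ PP := fun q hq => hUP (Finset.mem_insert_of_mem hq)
      have hpp := (hPP p hpP).1
      have hpr1 : 1 ≤ p ^ r1 := Nat.pos_of_ne_zero (pow_ne_zero _ hpp.pos.ne')
      have hM1 : 1 ≤ K * ∏ q ∈ U, q ^ r1 :=
        Nat.mul_pos hK (Finset.prod_pos fun q hq => pow_pos (hPP q (hUP' hq)).1.pos _)
      have hcop : Nat.Coprime (K * ∏ q ∈ U, q ^ r1) (p ^ r1) := by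
        apply Nat.Coprime.pow_right
        apply Nat.Coprime.symm
        rw [hpp.coprime_iff_not_dvd]
        intro hd
        rcases (hpp.dvd_mul).mp hd with h | h
        · exact (hPP p hpP).2 h
        · rw [hpp.prime.dvd_finset_prod_iff] at h
          obtain ⟨q, hq, hqd⟩ := h
          have h1 := hpp.dvd_of_dvd_pow hqd
          rw [Nat.prime_dvd_prime_iff_eq hpp (hPP q (hUP' hq)).1] at h1
          exact hpU (h1 ▸ hq)
      have hmod : K * ∏ q ∈ insert p U, q ^ r1 = (K * ∏ q ∈ U, q ^ r1) * p ^ r1 := by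
        rw [Finset.prod_insert hpU]
        ring
      exact by
        rw [hmod]
        have hΨ : ∀ x, Φ x (fun _ => x) = Φ (x % (K * ∏ q ∈ U, q ^ r1))
            (Function.update (fun _ => x % (K * ∏ q ∈ U, q ^ r1)) p (x % p ^ r1)) := by
          intro x
          refine hΦ _ _ _ _ ?_ ?_
          · have h1 : K ∣ K * ∏ q ∈ U, q ^ r1 := dvd_mul_right _ _
            exact (Nat.ModEq.of_dvd h1 (Nat.mod_modEq x _)).symm
          · intro q hq
            by_cases hqp : q = p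
            · subst hqp
              rw [Function.update_self]
              exact (Nat.mod_modEq x _).symm
            · rw [Function.update_of_ne hqp]
              have hqU : q ∈ U := (Finset.mem_insert.mp hq).resolve_left hqp
              have h1 : q ^ r1 ∣ K * ∏ q ∈ U, q ^ r1 :=
                Dvd.dvd.mul_left (Finset.dvd_prod_of_mem (fun q => q ^ r1) hqU) K
              exact (Nat.ModEq.of_dvd h1 (Nat.mod_modEq x _)).symm
        rw [Finset.expect_congr rfl (fun x _ => hΨ x)]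
        rw [gmm_crt2 (K * ∏ q ∈ U, q ^ r1) (p ^ r1) hM1 hpr1 hcop
          (fun a t => Φ a (Function.update (fun _ => a) p t)), Finset.expect_comm]
        have hih : ∀ t ∈ range (p ^ r1), 𝔼 a ∈ range (K * ∏ q ∈ U, q ^ r1),
            Φ a (Function.update (fun _ => a) p t) = 𝔼 κ ∈ range K,
            𝔼 ω : (∀ p : {p // p ∈ PP}, Fin (p.1 ^ r1)),
              Φ κ (Function.update (gmext r1 PP ω) p t) := by
          intro t _
          refine ih hUP' (fun κ ω => Φ κ (Function.update ω p t)) ?_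
          intro κ κ' ω ω' h1 h2
          refine hΦ _ _ _ _ h1 ?_
          intro q hq
          by_cases hqp : q = p
          · subst hqp
            rw [Function.update_self, Function.update_self]
          · rw [Function.update_of_ne hqp, Function.update_of_ne hqp]
            exact h2 q ((Finset.mem_insert.mp hq).resolve_left hqp)
        rw [Finset.expect_congr rfl hih, Finset.expect_comm]
        refine Finset.expect_congr rfl fun κ _ => ?_
        rw [Finset.expect_comm]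
        rw [← gmm_update (fun p : {p // p ∈ PP} => Fin (p.1 ^ r1)) (fun ω => Φ κ (gmext r1 PP ω)) ⟨p, hpP⟩]
        refine Finset.expect_congr rfl fun ω _ => ?_
        rw [gmm_expect_fin]
        refine Finset.expect_congr rfl fun t _ => ?_
        rw [gmext_update]

end

end Pool.Agent.Helper67.NX2

end

section

set_option autoImplicit false

open Finset

open scoped BigOperators ComplexConjugate

namespace Pool.Agent.Helper67.NX2

open Pool.Agent.Helper57.NX

noncomputable section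

/-- the statement of Lemma L -/
def LemLS (n r : ℕ) : Prop := ∃ K : ℝ, 0 ≤ K ∧ ∀ (ι : Type) [Fintype ι] [DecidableEq ι]
    (X : ι → Type) [∀ i, Fintype (X i)] [∀ i, Nonempty (X i)]
    (h : Fin n → Finset ι → (∀ i, X i) → ℝ) (V : Fin n → ℝ),
    (∀ a S ω, 0 ≤ h a S ω) → (∀ a S, DepOn S (h a S)) → (∀ a, 0 ≤ V a) →
    (∀ a (B : Finset ι) ω, ∑ S ∈ univ.filter (fun S : Finset ι => B ⊆ S ∧ S.card ≤ r),
      𝔼 ω' : ∀ i, X i, h a S (mixo B ω ω') ^ 2 ≤ V a ^ 2) →
    ∑ Ss ∈ univ.filter (fun Ss : Fin n → Finset ι => (∀ a, (Ss a).card ≤ r) ∧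
        ∀ i, (univ.filter (fun a => i ∈ Ss a)).card ≠ 1),
      𝔼 ω : ∀ i, X i, ∏ a, h a (Ss a) ω ≤ K * ∏ a, V a

/-- a set of elements of `PP` as a set of natural numbers -/
def gmup {PP : Finset ℕ} (S : Finset {p // p ∈ PP}) : Finset ℕ :=
  S.map (Function.Embedding.subtype _)

theorem mem_gmup {PP : Finset ℕ} {S : Finset {p // p ∈ PP}} {p : ℕ} :
    p ∈ gmup S ↔ ∃ hp : p ∈ PP, (⟨p, hp⟩ : {p // p ∈ PP}) ∈ S := by
  unfold gmup
  rw [Finset.mem_map]
  constructor
  · rintro ⟨q, hq, rfl⟩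
    exact ⟨q.2, hq⟩
  · rintro ⟨hp, h⟩
    exact ⟨⟨p, hp⟩, h, rfl⟩

theorem mem_gmup' {PP : Finset ℕ} {S : Finset {p // p ∈ PP}} {p : {p // p ∈ PP}} :
    p.1 ∈ gmup S ↔ p ∈ S := by
  rw [mem_gmup]
  exact ⟨fun ⟨_, h⟩ => h, fun h => ⟨p.2, h⟩⟩

theorem gmup_sub {PP : Finset ℕ} (S : Finset {p // p ∈ PP}) : gmup S ⊆ PP := by
  intro p hp
  exact (mem_gmup.mp hp).1

theorem gmup_card {PP : Finset ℕ} (S : Finset {p // p ∈ PP}) : (gmup S).card = S.card :=
  Finset.card_map _

theorem gmup_inj {PP : Finset ℕ} : Function.Injective (gmup (PP := PP)) :=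
  Finset.map_injective _

theorem gmup_subtype {PP : Finset ℕ} {T : Finset ℕ} (hT : T ⊆ PP) :
    gmup (T.subtype (fun p => p ∈ PP)) = T := by
  ext p
  rw [mem_gmup]
  constructor
  · rintro ⟨hp, h⟩
    simpa using h
  · intro h
    exact ⟨hT h, by simpa using h⟩

theorem gmm_sum_reindex {PP : Finset ℕ} (r0 : ℕ) (f : Finset ℕ → ℝ) :
    ∑ S ∈ PP.powerset.filter (fun S => S.card ≤ r0), f S =
      ∑ S ∈ (univ : Finset (Finset {p // p ∈ PP})).filter (fun S => S.card ≤ r0), f (gmup S) := by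
  symm
  refine Finset.sum_nbij' (fun S => gmup S) (fun T => T.subtype (fun p => p ∈ PP)) ?_ ?_ ?_ ?_ ?_
  · intro S hS
    rw [Finset.mem_filter] at hS ⊢
    exact ⟨Finset.mem_powerset.mpr (gmup_sub S), by rw [gmup_card]; exact hS.2⟩
  · intro T hT
    rw [Finset.mem_filter, Finset.mem_powerset] at hT
    rw [Finset.mem_filter]
    refine ⟨Finset.mem_univ _, ?_⟩
    rw [← gmup_card, gmup_subtype hT.1]
    exact hT.2
  · intro S _
    apply gmup_inj
    exact gmup_subtype (gmup_sub S)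
  · intro T hT
    rw [Finset.mem_filter, Finset.mem_powerset] at hT
    exact gmup_subtype hT.1
  · intro S _
    rfl

theorem gmext_mixo {r1 : ℕ} {PP : Finset ℕ} (B : Finset {p // p ∈ PP})
    (ω ω' : ∀ p : {p // p ∈ PP}, Fin (p.1 ^ r1)) (p : ℕ) :
    gmext r1 PP (mixo B ω ω') p = if p ∈ gmup B then gmext r1 PP ω p else gmext r1 PP ω' p := by
  by_cases hp : p ∈ PP
  · have h1 : (p ∈ gmup B) ↔ (⟨p, hp⟩ : {p // p ∈ PP}) ∈ B :=
      mem_gmup' (p := (⟨p, hp⟩ : {p // p ∈ PP}))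
    unfold gmext
    rw [dif_pos hp, dif_pos hp, dif_pos hp]
    unfold mixo
    by_cases h2 : (⟨p, hp⟩ : {p // p ∈ PP}) ∈ B
    · rw [if_pos h2, if_pos (h1.mpr h2)]
    · rw [if_neg h2, if_neg (fun h => h2 (h1.mp h))]
  · unfold gmext
    rw [dif_neg hp, dif_neg hp, dif_neg hp, ite_self]

end

end Pool.Agent.Helper67.NX2

end

section

set_option autoImplicit false

open Finset

open scoped BigOperators ComplexConjugate

namespace Pool.Agent.Helper67.NX2

open Pool.Agent.Helper57.NX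

noncomputable section

section

variable {ι : Type} [Fintype ι] [DecidableEq ι] {X : ι → Type} [∀ i, Fintype (X i)]
  [∀ i, Nonempty (X i)]

/-- averaging over the coordinates outside `U` -/
lemma ll_expect_mixo (U : Finset ι) (φ : (∀ i, X i) → ℝ) :
    𝔼 ω : ∀ i, X i, 𝔼 ω' : ∀ i, X i, φ (mixo U ω ω') = 𝔼 ω : ∀ i, X i, φ ω := by
  classical
  have h1 : 𝔼 ω : ∀ i, X i, 𝔼 ω' : ∀ i, X i, φ (mixo U ω ω') =
      𝔼 p : (∀ i, X i) × (∀ i, X i), φ (mixo U p.1 p.2) := by
    rw [← univ_product_univ, expect_product]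
  have h2 : 𝔼 ω : ∀ i, X i, φ ω =
      𝔼 p : (∀ i, X i) × (∀ i, X i), φ p.1 := by
    rw [← univ_product_univ, expect_product]
    apply expect_congr rfl
    intro ω _
    exact (Fintype.expect_const _).symm
  rw [h1, h2]
  apply Fintype.expect_bijective (fun p : (∀ i, X i) × (∀ i, X i) => (mixo U p.1 p.2, mixo U p.2 p.1))
  · have hinv : Function.Involutive
        (fun p : (∀ i, X i) × (∀ i, X i) => (mixo U p.1 p.2, mixo U p.2 p.1)) := by
      rintro ⟨a, b⟩
      simp only [Prod.mk.injEq]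
      constructor <;>
      · funext i
        simp only [mixo]
        split_ifs <;> rfl
    exact hinv.bijective
  · intro p
    rfl

lemma ll_indep {S T : Finset ι} (hST : Disjoint S T) {φ ψ : (∀ i, X i) → ℝ}
    (hφ : DepOn S φ) (hψ : DepOn T ψ) :
    𝔼 ω : ∀ i, X i, φ ω * ψ ω = (𝔼 ω : ∀ i, X i, φ ω) * 𝔼 ω : ∀ i, X i, ψ ω := by
  classical
  rw [← ll_expect_mixo S (fun ω => φ ω * ψ ω), expect_mul_expect]
  apply expect_congr rfl
  intro ω _
  apply expect_congr rfl
  intro ω' _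
  congr 1
  · apply hφ
    intro i hi
    simp [mixo, hi]
  · apply hψ
    intro i hi
    have : i ∉ S := fun h => (Finset.disjoint_left.1 hST h) hi
    simp [mixo, this]

omit [Fintype ι] [∀ i, Fintype (X i)] [∀ i, Nonempty (X i)] in
lemma ll_depOn_prod {κ : Type} (s : Finset κ) (E : κ → Finset ι)
    (ψ : κ → (∀ i, X i) → ℝ) (hψ : ∀ a ∈ s, DepOn (E a) (ψ a)) :
    DepOn (s.biUnion E) (fun ω => ∏ a ∈ s, ψ a ω) := by
  intro ω ω' h
  apply prod_congr rfl
  intro a ha
  apply hψ a ha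
  intro i hi
  exact h i (mem_biUnion.2 ⟨a, ha, hi⟩)

lemma ll_indep_prod {κ : Type} [DecidableEq κ] (s : Finset κ) (E : κ → Finset ι)
    (ψ : κ → (∀ i, X i) → ℝ) (hψ : ∀ a ∈ s, DepOn (E a) (ψ a))
    (hE : ∀ a ∈ s, ∀ b ∈ s, a ≠ b → Disjoint (E a) (E b)) :
    𝔼 ω : ∀ i, X i, ∏ a ∈ s, ψ a ω = ∏ a ∈ s, 𝔼 ω : ∀ i, X i, ψ a ω := by
  classical
  induction s using Finset.induction_on with
  | empty => simp
  | insert a s ha ih =>
    simp only [prod_insert ha]
    rw [← ih (fun b hb => hψ b (mem_insert_of_mem hb))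
      (fun b hb c hc => hE b (mem_insert_of_mem hb) c (mem_insert_of_mem hc))]
    apply ll_indep _ (hψ a (mem_insert_self a s))
      (ll_depOn_prod s E ψ (fun b hb => hψ b (mem_insert_of_mem hb)))
    rw [disjoint_biUnion_right]
    intro b hb
    apply hE a (mem_insert_self a s) b (mem_insert_of_mem hb)
    rintro rfl
    exact ha hb

/-- Cauchy-Schwarz for a sum of expectations -/
lemma ll_cs {κ Ω : Type} [Fintype Ω] (s : Finset κ) (P Q : κ → Ω → ℝ) :
    ∑ E ∈ s, 𝔼 ω : Ω, P E ω * Q E ω ≤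
      √(∑ E ∈ s, 𝔼 ω : Ω, P E ω ^ 2) * √(∑ E ∈ s, 𝔼 ω : Ω, Q E ω ^ 2) := by
  have key : ∀ F : κ → Ω → ℝ, ∑ E ∈ s, 𝔼 ω : Ω, F E ω =
      (∑ x ∈ s ×ˢ (univ : Finset Ω), F x.1 x.2) / Fintype.card Ω := by
    intro F
    rw [sum_product, sum_div]
    apply sum_congr rfl
    intro E _
    rw [Fintype.expect_eq_sum_div_card]
  rw [key, key (fun E ω => P E ω ^ 2), key (fun E ω => Q E ω ^ 2), Real.sqrt_div' _ (by (clear * -; positivity)),
    Real.sqrt_div' _ (by (clear * -; positivity)), div_mul_div_comm, Real.mul_self_sqrt (by positivity)]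
  exact div_le_div_of_nonneg_right (Real.sum_mul_le_sqrt_mul_sqrt _ _ _) (by positivity)

/-- the points covered exactly once by the functions `1, …, n` -/
def llA {n : ℕ} (Ss : Fin (n + 1) → Finset ι) : Finset ι :=
  univ.filter (fun i => (univ.filter (fun a : Fin n => i ∈ Ss a.succ)).card = 1)

/-- the validity condition -/
def llV {n : ℕ} (r : ℕ) (Ss : Fin n → Finset ι) : Prop :=
  (∀ a, (Ss a).card ≤ r) ∧ ∀ i, (univ.filter (fun a => i ∈ Ss a)).card ≠ 1

omit [Fintype ι] in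
lemma ll_count {n : ℕ} (Ss : Fin (n + 1) → Finset ι) (i : ι) :
    (univ.filter (fun a => i ∈ Ss a)).card =
      (if i ∈ Ss 0 then 1 else 0) + (univ.filter (fun a : Fin n => i ∈ Ss a.succ)).card := by
  rw [card_filter, card_filter, Fin.sum_univ_succ]

lemma ll_A_sub {n r : ℕ} {Ss : Fin (n + 1) → Finset ι} (h : llV r Ss) :
    llA Ss ⊆ Ss 0 := by
  intro i hi
  have h1 := (mem_filter.1 hi).2
  by_contra h0
  have h2 := h.2 i
  rw [ll_count, if_neg h0, h1] at h2
  exact h2 rfl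

lemma ll_B_sub {n r : ℕ} {Ss : Fin (n + 1) → Finset ι} (h : llV r Ss) :
    Ss 0 \ llA Ss ⊆ univ.biUnion (fun a : Fin n => Ss a.succ \ llA Ss) := by
  intro i hi
  obtain ⟨h0, hA⟩ := mem_sdiff.1 hi
  have h2 := h.2 i
  rw [ll_count, if_pos h0] at h2
  have h3 : (univ.filter (fun a : Fin n => i ∈ Ss a.succ)).card ≠ 0 := by omega
  obtain ⟨a, ha⟩ := card_ne_zero.1 h3
  exact mem_biUnion.2 ⟨a, mem_univ _, mem_sdiff.2 ⟨(mem_filter.1 ha).2, hA⟩⟩

lemma ll_s_valid {n r : ℕ} {Ss : Fin (n + 1) → Finset ι} (h : llV r Ss) :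
    llV r (fun a : Fin n => Ss a.succ \ llA Ss) := by
  refine ⟨fun a => (card_le_card sdiff_subset).trans (h.1 a.succ), fun i => ?_⟩
  by_cases hA : i ∈ llA Ss
  · have : (univ.filter (fun a : Fin n => i ∈ Ss a.succ \ llA Ss)) = ∅ := by
      apply filter_eq_empty_iff.2
      intro a _ ha
      exact (mem_sdiff.1 ha).2 hA
    rw [this]
    simp
  · have : (univ.filter (fun a : Fin n => i ∈ Ss a.succ \ llA Ss)) =
        (univ.filter (fun a : Fin n => i ∈ Ss a.succ)) := by
      apply filter_congr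
      intro a _
      rw [mem_sdiff]
      exact ⟨fun h => h.1, fun h => ⟨h, hA⟩⟩
    rw [this]
    intro h1
    exact hA (mem_filter.2 ⟨mem_univ _, h1⟩)

lemma ll_A_once {n : ℕ} {Ss : Fin (n + 1) → Finset ι} {i : ι} (hi : i ∈ llA Ss)
    {a b : Fin n} (ha : i ∈ Ss a.succ) (hb : i ∈ Ss b.succ) : a = b := by
  have h1 := (mem_filter.1 hi).2
  obtain ⟨c, hc⟩ := card_eq_one.1 h1
  have h2 : a ∈ ({c} : Finset (Fin n)) := hc ▸ mem_filter.2 ⟨mem_univ _, ha⟩
  have h3 : b ∈ ({c} : Finset (Fin n)) := hc ▸ mem_filter.2 ⟨mem_univ _, hb⟩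
  rw [mem_singleton] at h2 h3
  rw [h2, h3]

/-- the square of the new function -/
def llH (r : ℕ) (f : Finset ι → (∀ i, X i) → ℝ) (S' : Finset ι) (ω : ∀ i, X i) : ℝ :=
  ∑ S ∈ univ.filter (fun S : Finset ι => S' ⊆ S ∧ S.card ≤ r),
    𝔼 ω' : ∀ i, X i, f S (mixo S' ω ω') ^ 2

omit [∀ i, Nonempty (X i)] in
lemma llH_nonneg (r : ℕ) (f : Finset ι → (∀ i, X i) → ℝ) (S' : Finset ι)
    (ω : ∀ i, X i) : 0 ≤ llH r f S' ω :=
  sum_nonneg fun _ _ => expect_nonneg fun _ _ => sq_nonneg _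

omit [∀ i, Nonempty (X i)] in
lemma llH_depOn (r : ℕ) (f : Finset ι → (∀ i, X i) → ℝ) (S' : Finset ι) :
    DepOn S' (llH r f S') := by
  intro ω ω' h
  have : ∀ ω'', mixo S' ω ω'' = mixo S' ω' ω'' := by
    intro ω''
    funext i
    simp only [mixo]
    split_ifs with hi
    · exact h i hi
    · rfl
  simp only [llH, this]

/-- the sum bound for the new functions -/
lemma llH_sum (r : ℕ) (f : Finset ι → (∀ i, X i) → ℝ) (V : ℝ)
    (hf : ∀ (B : Finset ι) ω, ∑ S ∈ univ.filter (fun S : Finset ι => B ⊆ S ∧ S.card ≤ r),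
      𝔼 ω' : ∀ i, X i, f S (mixo B ω ω') ^ 2 ≤ V ^ 2) (B : Finset ι) (ω : ∀ i, X i) :
    ∑ S' ∈ univ.filter (fun S' : Finset ι => B ⊆ S' ∧ S'.card ≤ r),
      𝔼 ω' : ∀ i, X i, llH r f S' (mixo B ω ω') ≤ 2 ^ r * V ^ 2 := by
  classical
  have h1 : ∀ S' ∈ univ.filter (fun S' : Finset ι => B ⊆ S' ∧ S'.card ≤ r),
      𝔼 ω' : ∀ i, X i, llH r f S' (mixo B ω ω') =
        ∑ S ∈ univ.filter (fun S : Finset ι => S' ⊆ S ∧ S.card ≤ r),
          𝔼 ω' : ∀ i, X i, f S (mixo B ω ω') ^ 2 := by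
    intro S' hS'
    have hB : B ⊆ S' := (mem_filter.1 hS').2.1
    simp only [llH]
    rw [expect_sum_comm]
    apply sum_congr rfl
    intro S _
    rw [← ll_expect_mixo S' (fun ω' => f S (mixo B ω ω') ^ 2)]
    apply expect_congr rfl
    intro ω' _
    apply expect_congr rfl
    intro ω'' _
    congr 2
    funext i
    simp only [mixo]
    by_cases hi : i ∈ B
    · simp [hi, hB hi]
    · simp [hi]
  rw [sum_congr rfl h1]
  have h2 : ∑ S' ∈ univ.filter (fun S' : Finset ι => B ⊆ S' ∧ S'.card ≤ r),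
      ∑ S ∈ univ.filter (fun S : Finset ι => S' ⊆ S ∧ S.card ≤ r),
          𝔼 ω' : ∀ i, X i, f S (mixo B ω ω') ^ 2 ≤
      ∑ S ∈ univ.filter (fun S : Finset ι => B ⊆ S ∧ S.card ≤ r),
        ∑ _S' ∈ S.powerset, 𝔼 ω' : ∀ i, X i, f S (mixo B ω ω') ^ 2 := by
    rw [sum_comm' (t' := univ.filter (fun S : Finset ι => B ⊆ S ∧ S.card ≤ r))
      (s' := fun S => S.powerset.filter (fun S' => B ⊆ S'))]
    · apply sum_le_sum
      intro S _
      apply sum_le_sum_of_subset_of_nonneg (filter_subset _ _)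
      intro _ _ _
      exact expect_nonneg fun _ _ => sq_nonneg _
    · intro S' S
      simp only [mem_filter, mem_univ, true_and, mem_powerset]
      constructor
      · rintro ⟨⟨h1, h2⟩, h3, h4⟩
        exact ⟨⟨h3, h1⟩, h1.trans h3, h4⟩
      · rintro ⟨⟨h1, h2⟩, h3, h4⟩
        exact ⟨⟨h2, (card_le_card h1).trans h4⟩, h1, h4⟩
  refine h2.trans ?_
  calc ∑ S ∈ univ.filter (fun S : Finset ι => B ⊆ S ∧ S.card ≤ r),
        ∑ _S' ∈ S.powerset, 𝔼 ω' : ∀ i, X i, f S (mixo B ω ω') ^ 2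
      ≤ ∑ S ∈ univ.filter (fun S : Finset ι => B ⊆ S ∧ S.card ≤ r),
        2 ^ r * 𝔼 ω' : ∀ i, X i, f S (mixo B ω ω') ^ 2 := by
        apply sum_le_sum
        intro S hS
        rw [sum_const, card_powerset, nsmul_eq_mul]
        apply mul_le_mul_of_nonneg_right _ (expect_nonneg fun _ _ => sq_nonneg _)
        push_cast
        exact pow_le_pow_right₀ (by norm_num) (mem_filter.1 hS).2.2
    _ ≤ 2 ^ r * V ^ 2 := by
        rw [← mul_sum]
        exact mul_le_mul_of_nonneg_left (hf B ω) (by positivity)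

lemma ll_zero_eq {n r : ℕ} {Ss : Fin (n + 1) → Finset ι} (h : llV r Ss) {B : Finset ι}
    (hB : Ss 0 \ llA Ss = B) : Ss 0 = B ∪ llA Ss := by
  rw [← hB, sdiff_union_of_subset (ll_A_sub h)]

lemma ll_tail_inj {n r : ℕ} {B : Finset ι} {F : Finset (Fin (n + 1) → Finset ι)}
    (hF : ∀ Ss ∈ F, llV r Ss ∧ Ss 0 \ llA Ss = B) :
    Set.InjOn (fun (Ss : Fin (n + 1) → Finset ι) (a : Fin n) => Ss a.succ) (F : Set _) := by
  intro Ss hSs Ts hTs hST
  have h1 : ∀ a : Fin n, Ss a.succ = Ts a.succ := fun a => congrFun hST a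
  have h2 : llA Ss = llA Ts := by
    simp only [llA, h1]
  have h0 : Ss 0 = Ts 0 := by
    rw [ll_zero_eq (hF Ss hSs).1 (hF Ss hSs).2, ll_zero_eq (hF Ts hTs).1 (hF Ts hTs).2, h2]
  funext a
  refine Fin.cases h0 (fun b => h1 b) a

/-- first factor -/
lemma ll_P {n r : ℕ} (h : Fin (n + 1) → Finset ι → (∀ i, X i) → ℝ)
    (hd : ∀ a S, DepOn S (h a S)) (S' : Fin n → Finset ι) (B : Finset ι)
    (F : Finset (Fin (n + 1) → Finset ι))
    (hF : ∀ Ss ∈ F, llV r Ss ∧ Ss 0 \ llA Ss = B)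
    (hS : ∀ Ss ∈ F, ∀ a : Fin n, Ss a.succ \ llA Ss = S' a) (ω : ∀ i, X i) :
    ∑ Ss ∈ F, 𝔼 ω' : ∀ i, X i, (∏ a : Fin n, h a.succ (Ss a.succ)
      (mixo (univ.biUnion S') ω ω')) ^ 2 ≤ ∏ a : Fin n, llH r (h a.succ) (S' a) ω := by
  classical
  have h1 : ∀ Ss ∈ F, 𝔼 ω' : ∀ i, X i, (∏ a : Fin n, h a.succ (Ss a.succ)
      (mixo (univ.biUnion S') ω ω')) ^ 2 =
      ∏ a : Fin n, 𝔼 ω' : ∀ i, X i, h a.succ (Ss a.succ) (mixo (S' a) ω ω') ^ 2 := by
    intro Ss hSs
    rw [← ll_indep_prod univ (fun a : Fin n => Ss a.succ ∩ llA Ss)]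
    · apply expect_congr rfl
      intro ω' _
      rw [← prod_pow]
      apply prod_congr rfl
      intro a _
      congr 1
      apply hd
      intro i hi
      by_cases hA : i ∈ llA Ss
      · have h2 : i ∉ univ.biUnion S' := by
          intro h3
          obtain ⟨b, -, hb⟩ := mem_biUnion.1 h3
          rw [← hS Ss hSs b] at hb
          exact (mem_sdiff.1 hb).2 hA
        have h4 : i ∉ S' a := fun h5 => h2 (mem_biUnion.2 ⟨a, mem_univ _, h5⟩)
        simp only [mixo, if_neg h2, if_neg h4]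
      · have h4 : i ∈ S' a := by
          rw [← hS Ss hSs a]
          exact mem_sdiff.2 ⟨hi, hA⟩
        have h2 : i ∈ univ.biUnion S' := mem_biUnion.2 ⟨a, mem_univ _, h4⟩
        simp only [mixo, if_pos h2, if_pos h4]
    · intro a _ ω₁ ω₂ h12
      have : h a.succ (Ss a.succ) (mixo (S' a) ω ω₁) = h a.succ (Ss a.succ) (mixo (S' a) ω ω₂) := by
        apply hd
        intro i hi
        by_cases hA : i ∈ llA Ss
        · have h3 := h12 i (mem_inter.2 ⟨hi, hA⟩)
          simp only [mixo, h3]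
        · have h4 : i ∈ S' a := by
            rw [← hS Ss hSs a]
            exact mem_sdiff.2 ⟨hi, hA⟩
          simp only [mixo, if_pos h4]
      simp only [this]
    · intro a _ b _ hab
      rw [disjoint_left]
      intro i hi hj
      exact hab (ll_A_once (mem_inter.1 hi).2 (mem_inter.1 hi).1 (mem_inter.1 hj).1)
  rw [sum_congr rfl h1]
  simp only [llH]
  rw [prod_univ_sum]
  rw [← sum_image (s := F) (g := fun (Ss : Fin (n + 1) → Finset ι) (a : Fin n) => Ss a.succ)
    (f := fun E : Fin n → Finset ι =>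
      ∏ a : Fin n, 𝔼 ω' : ∀ i, X i, h a.succ (E a) (mixo (S' a) ω ω') ^ 2) (ll_tail_inj hF)]
  apply sum_le_sum_of_subset_of_nonneg
  · intro E hE
    obtain ⟨Ss, hSs, rfl⟩ := mem_image.1 hE
    rw [Fintype.mem_piFinset]
    intro a
    refine mem_filter.2 ⟨mem_univ _, ?_, (hF Ss hSs).1.1 a.succ⟩
    rw [← hS Ss hSs a]
    exact sdiff_subset
  · intro E _ _
    exact prod_nonneg fun a _ => expect_nonneg fun _ _ => sq_nonneg _

omit [∀ i, Nonempty (X i)] in
/-- second factor -/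
lemma ll_Q {n r : ℕ} (h : Fin (n + 1) → Finset ι → (∀ i, X i) → ℝ)
    (hd : ∀ a S, DepOn S (h a S)) (V0 : ℝ)
    (hV : ∀ (B : Finset ι) ω, ∑ S ∈ univ.filter (fun S : Finset ι => B ⊆ S ∧ S.card ≤ r),
      𝔼 ω' : ∀ i, X i, h 0 S (mixo B ω ω') ^ 2 ≤ V0 ^ 2)
    (S' : Fin n → Finset ι) (B : Finset ι)
    (F : Finset (Fin (n + 1) → Finset ι))
    (hF : ∀ Ss ∈ F, llV r Ss ∧ Ss 0 \ llA Ss = B)
    (hS : ∀ Ss ∈ F, ∀ a : Fin n, Ss a.succ \ llA Ss = S' a) (ω : ∀ i, X i) :
    ∑ Ss ∈ F, 𝔼 ω' : ∀ i, X i, h 0 (Ss 0) (mixo (univ.biUnion S') ω ω') ^ 2 ≤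
      2 ^ (n * r) * V0 ^ 2 := by
  classical
  have h1 : ∀ Ss ∈ F, 𝔼 ω' : ∀ i, X i, h 0 (Ss 0) (mixo (univ.biUnion S') ω ω') ^ 2 =
      𝔼 ω' : ∀ i, X i, h 0 (Ss 0) (mixo B ω ω') ^ 2 := by
    intro Ss hSs
    apply expect_congr rfl
    intro ω' _
    congr 1
    apply hd
    intro i hi
    have hB := (hF Ss hSs).2
    by_cases hA : i ∈ llA Ss
    · have h2 : i ∉ univ.biUnion S' := by
        intro h3
        obtain ⟨b, -, hb⟩ := mem_biUnion.1 h3
        rw [← hS Ss hSs b] at hb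
        exact (mem_sdiff.1 hb).2 hA
      have h4 : i ∉ B := by
        rw [← hB]
        exact fun h5 => (mem_sdiff.1 h5).2 hA
      simp only [mixo, if_neg h2, if_neg h4]
    · have h4 : i ∈ B := by
        rw [← hB]
        exact mem_sdiff.2 ⟨hi, hA⟩
      have h2 : i ∈ univ.biUnion S' := by
        have h5 := ll_B_sub (hF Ss hSs).1 (mem_sdiff.2 ⟨hi, hA⟩)
        obtain ⟨b, -, hb⟩ := mem_biUnion.1 h5
        exact mem_biUnion.2 ⟨b, mem_univ _, by rw [← hS Ss hSs b]; exact hb⟩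
      simp only [mixo, if_pos h2, if_pos h4]
  rw [sum_congr rfl h1]
  have hmaps : ∀ Ss ∈ F, Ss 0 ∈ univ.filter (fun S : Finset ι => B ⊆ S ∧ S.card ≤ r) := by
    intro Ss hSs
    refine mem_filter.2 ⟨mem_univ _, ?_, (hF Ss hSs).1.1 0⟩
    rw [← (hF Ss hSs).2]
    exact sdiff_subset
  rw [← sum_fiberwise_of_maps_to hmaps]
  calc ∑ S ∈ univ.filter (fun S : Finset ι => B ⊆ S ∧ S.card ≤ r),
        ∑ Ss ∈ F.filter (fun Ss => Ss 0 = S), 𝔼 ω' : ∀ i, X i, h 0 (Ss 0) (mixo B ω ω') ^ 2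
      ≤ ∑ S ∈ univ.filter (fun S : Finset ι => B ⊆ S ∧ S.card ≤ r),
        2 ^ (n * r) * 𝔼 ω' : ∀ i, X i, h 0 S (mixo B ω ω') ^ 2 := by
        apply sum_le_sum
        intro S hS2
        have h2 : ∑ Ss ∈ F.filter (fun Ss => Ss 0 = S),
            𝔼 ω' : ∀ i, X i, h 0 (Ss 0) (mixo B ω ω') ^ 2 =
            ((F.filter (fun Ss => Ss 0 = S)).card : ℝ) *
              𝔼 ω' : ∀ i, X i, h 0 S (mixo B ω ω') ^ 2 := by
          rw [← nsmul_eq_mul, ← sum_const]
          apply sum_congr rfl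
          intro Ss hSs
          rw [(mem_filter.1 hSs).2]
        rw [h2]
        apply mul_le_mul_of_nonneg_right _ (expect_nonneg fun _ _ => sq_nonneg _)
        have h3 : (F.filter (fun Ss => Ss 0 = S)).card ≤
            (Fintype.piFinset (fun _ : Fin n => S.powerset)).card := by
          apply card_le_card_of_injOn
            (fun (Ss : Fin (n + 1) → Finset ι) (a : Fin n) => Ss a.succ \ S' a)
          · intro Ss hSs
            obtain ⟨hSs1, hSs2⟩ := mem_filter.1 (mem_coe.1 hSs)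
            rw [mem_coe, Fintype.mem_piFinset]
            intro a
            rw [mem_powerset, ← hSs2]
            intro i hi
            obtain ⟨hi1, hi2⟩ := mem_sdiff.1 hi
            rw [← hS Ss hSs1 a] at hi2
            apply ll_A_sub (hF Ss hSs1).1
            by_contra hA
            exact hi2 (mem_sdiff.2 ⟨hi1, hA⟩)
          · intro Ss hSs Ts hTs hST
            obtain ⟨hSs1, hSs2⟩ := mem_filter.1 (mem_coe.1 hSs)
            obtain ⟨hTs1, hTs2⟩ := mem_filter.1 (mem_coe.1 hTs)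
            apply ll_tail_inj hF (mem_coe.2 hSs1) (mem_coe.2 hTs1)
            funext a
            have h4 : Ss a.succ \ S' a = Ts a.succ \ S' a := congrFun hST a
            have h5 : S' a ⊆ Ss a.succ := by rw [← hS Ss hSs1 a]; exact sdiff_subset
            have h6 : S' a ⊆ Ts a.succ := by rw [← hS Ts hTs1 a]; exact sdiff_subset
            show Ss a.succ = Ts a.succ
            rw [← sdiff_union_of_subset h5, ← sdiff_union_of_subset h6, h4]
        rw [Fintype.card_piFinset] at h3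
        simp only [card_powerset, prod_const, card_univ, Fintype.card_fin] at h3
        have h4 : (2 ^ S.card) ^ n ≤ 2 ^ (n * r) := by
          rw [← pow_mul, mul_comm]
          exact Nat.pow_le_pow_right (by norm_num) (Nat.mul_le_mul_left _ (mem_filter.1 hS2).2.2)
        exact_mod_cast h3.trans h4
    _ ≤ 2 ^ (n * r) * V0 ^ 2 := by
        rw [← mul_sum]
        exact mul_le_mul_of_nonneg_left (hV B ω) (by positivity)

/-- the sum over a fibre -/
lemma ll_fibre {n r : ℕ} (h : Fin (n + 1) → Finset ι → (∀ i, X i) → ℝ)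
    (hd : ∀ a S, DepOn S (h a S)) (V0 : ℝ) (hV0 : 0 ≤ V0)
    (hV : ∀ (B : Finset ι) ω, ∑ S ∈ univ.filter (fun S : Finset ι => B ⊆ S ∧ S.card ≤ r),
      𝔼 ω' : ∀ i, X i, h 0 S (mixo B ω ω') ^ 2 ≤ V0 ^ 2)
    (S' : Fin n → Finset ι) (B : Finset ι)
    (F : Finset (Fin (n + 1) → Finset ι))
    (hF : ∀ Ss ∈ F, llV r Ss ∧ Ss 0 \ llA Ss = B)
    (hS : ∀ Ss ∈ F, ∀ a : Fin n, Ss a.succ \ llA Ss = S' a) :
    ∑ Ss ∈ F, 𝔼 ω : ∀ i, X i, ∏ a, h a (Ss a) ω ≤
      2 ^ (n * r) * V0 * 𝔼 ω : ∀ i, X i, ∏ a : Fin n, √(llH r (h a.succ) (S' a) ω) := by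
  classical
  have h1 : ∑ Ss ∈ F, 𝔼 ω : ∀ i, X i, ∏ a, h a (Ss a) ω =
      𝔼 ω : ∀ i, X i, ∑ Ss ∈ F, 𝔼 ω' : ∀ i, X i,
        (∏ a : Fin n, h a.succ (Ss a.succ) (mixo (univ.biUnion S') ω ω')) *
          h 0 (Ss 0) (mixo (univ.biUnion S') ω ω') := by
    rw [expect_sum_comm]
    apply sum_congr rfl
    intro Ss _
    rw [← ll_expect_mixo (univ.biUnion S')]
    apply expect_congr rfl
    intro ω _
    apply expect_congr rfl
    intro ω' _
    rw [Fin.prod_univ_succ, mul_comm]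
  rw [h1, mul_expect]
  apply expect_le_expect
  intro ω _
  refine (ll_cs F _ _).trans ?_
  have h2 := ll_P h hd S' B F hF hS ω
  have h3 := ll_Q h hd V0 hV S' B F hF hS ω
  have h4 : √(∏ a : Fin n, llH r (h a.succ) (S' a) ω) =
      ∏ a : Fin n, √(llH r (h a.succ) (S' a) ω) := by
    rw [Real.sqrt_eq_rpow, ← Real.finsetProd_rpow _ _ (fun a _ => llH_nonneg _ _ _ _)]
    simp only [Real.sqrt_eq_rpow]
  have h5 : √(2 ^ (n * r) * V0 ^ 2) ≤ 2 ^ (n * r) * V0 := by
    apply Real.sqrt_le_iff.2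
    refine ⟨by (clear * - hV0; positivity), ?_⟩
    rw [mul_pow]
    apply mul_le_mul_of_nonneg_right _ (sq_nonneg _)
    have : (1 : ℝ) ≤ 2 ^ (n * r) := one_le_pow₀ (by norm_num)
    (clear * - this; nlinarith)
  calc _ ≤ √(∏ a : Fin n, llH r (h a.succ) (S' a) ω) * √(2 ^ (n * r) * V0 ^ 2) :=
        mul_le_mul (Real.sqrt_le_sqrt h2) (Real.sqrt_le_sqrt h3) (Real.sqrt_nonneg _)
          (Real.sqrt_nonneg _)
    _ ≤ (∏ a : Fin n, √(llH r (h a.succ) (S' a) ω)) * (2 ^ (n * r) * V0) := by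
        rw [h4]
        exact mul_le_mul_of_nonneg_left h5 (prod_nonneg fun _ _ => Real.sqrt_nonneg _)
    _ = 2 ^ (n * r) * V0 * ∏ a : Fin n, √(llH r (h a.succ) (S' a) ω) := by ring

end

theorem lemL (n r : ℕ) : ∃ K : ℝ, 0 ≤ K ∧ ∀ (ι : Type) [Fintype ι] [DecidableEq ι]
    (X : ι → Type) [∀ i, Fintype (X i)] [∀ i, Nonempty (X i)]
    (h : Fin n → Finset ι → (∀ i, X i) → ℝ) (V : Fin n → ℝ),
    (∀ a S ω, 0 ≤ h a S ω) → (∀ a S, DepOn S (h a S)) → (∀ a, 0 ≤ V a) →
    (∀ a (B : Finset ι) ω, ∑ S ∈ univ.filter (fun S : Finset ι => B ⊆ S ∧ S.card ≤ r),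
      𝔼 ω' : ∀ i, X i, h a S (mixo B ω ω') ^ 2 ≤ V a ^ 2) →
    ∑ Ss ∈ univ.filter (fun Ss : Fin n → Finset ι => (∀ a, (Ss a).card ≤ r) ∧
        ∀ i, (univ.filter (fun a => i ∈ Ss a)).card ≠ 1),
      𝔼 ω : ∀ i, X i, ∏ a, h a (Ss a) ω ≤ K * ∏ a, V a := by
  induction n with
  | zero =>
    refine ⟨1, zero_le_one, ?_⟩
    intro ι _ _ X _ _ h V _ _ _ _
    simp
  | succ n ih =>
    obtain ⟨K, hK, ih⟩ := ih
    refine ⟨2 ^ (n * r) * 2 ^ (n * r) * (K * (2 ^ r) ^ n), by (clear * - hK; positivity), ?_⟩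
    intro ι _ _ X _ _ h V hn hd hV0 hV
    have ih1 := ih ι X (fun a S ω => √(llH r (h a.succ) S ω)) (fun a => 2 ^ r * V a.succ)
      (fun a S ω => Real.sqrt_nonneg _)
      (by
        intro a S ω ω' hω
        have := llH_depOn r (h a.succ) S ω ω' hω
        simp only [this])
      (fun a => mul_nonneg (by positivity) (hV0 _))
      (by
        intro a B ω
        have h1 := llH_sum r (h a.succ) (V a.succ) (hV a.succ) B ω
        simp only [Real.sq_sqrt (llH_nonneg _ _ _ _)]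
        refine h1.trans ?_
        rw [mul_pow]
        apply mul_le_mul_of_nonneg_right _ (sq_nonneg _)
        have : (1 : ℝ) ≤ 2 ^ r := one_le_pow₀ (by norm_num)
        nlinarith)
    have hmap1 : ∀ Ss ∈ univ.filter (fun Ss : Fin (n + 1) → Finset ι => (∀ a, (Ss a).card ≤ r) ∧
        ∀ i, (univ.filter (fun a => i ∈ Ss a)).card ≠ 1),
        (fun a : Fin n => Ss a.succ \ llA Ss) ∈
          univ.filter (fun Ss : Fin n → Finset ι => (∀ a, (Ss a).card ≤ r) ∧
            ∀ i, (univ.filter (fun a => i ∈ Ss a)).card ≠ 1) := by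
      intro Ss hSs
      exact mem_filter.2 ⟨mem_univ _, ll_s_valid (mem_filter.1 hSs).2⟩
    rw [← sum_fiberwise_of_maps_to hmap1]
    have hfib : ∀ S' ∈ univ.filter (fun Ss : Fin n → Finset ι => (∀ a, (Ss a).card ≤ r) ∧
            ∀ i, (univ.filter (fun a => i ∈ Ss a)).card ≠ 1),
        ∑ Ss ∈ (univ.filter (fun Ss : Fin (n + 1) → Finset ι => (∀ a, (Ss a).card ≤ r) ∧
          ∀ i, (univ.filter (fun a => i ∈ Ss a)).card ≠ 1)).filter
            (fun Ss => (fun a : Fin n => Ss a.succ \ llA Ss) = S'),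
          𝔼 ω : ∀ i, X i, ∏ a, h a (Ss a) ω ≤
        2 ^ (n * r) * (2 ^ (n * r) * V 0 *
          𝔼 ω : ∀ i, X i, ∏ a : Fin n, √(llH r (h a.succ) (S' a) ω)) := by
      intro S' hS'
      have hmap2 : ∀ Ss ∈ (univ.filter (fun Ss : Fin (n + 1) → Finset ι =>
          (∀ a, (Ss a).card ≤ r) ∧
          ∀ i, (univ.filter (fun a => i ∈ Ss a)).card ≠ 1)).filter
            (fun Ss => (fun a : Fin n => Ss a.succ \ llA Ss) = S'),
          Ss 0 \ llA Ss ∈ (univ.biUnion S').powerset := by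
        intro Ss hSs
        obtain ⟨h1, h2⟩ := mem_filter.1 hSs
        rw [mem_powerset, ← h2]
        exact ll_B_sub (mem_filter.1 h1).2
      rw [← sum_fiberwise_of_maps_to hmap2]
      have hcard : (univ.biUnion S').card ≤ n * r := by
        have := card_biUnion_le_card_mul (univ : Finset (Fin n)) S' r
          (fun a _ => (mem_filter.1 hS').2.1 a)
        simpa using this
      calc _ ≤ ∑ _B ∈ (univ.biUnion S').powerset, (2 ^ (n * r) * V 0 *
          𝔼 ω : ∀ i, X i, ∏ a : Fin n, √(llH r (h a.succ) (S' a) ω)) := by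
            apply sum_le_sum
            intro B _
            apply ll_fibre h hd (V 0) (hV0 0) (hV 0) S' B
            · intro Ss hSs
              obtain ⟨h1, h2⟩ := mem_filter.1 hSs
              obtain ⟨h3, h4⟩ := mem_filter.1 h1
              exact ⟨(mem_filter.1 h3).2, h2⟩
            · intro Ss hSs a
              obtain ⟨h1, h2⟩ := mem_filter.1 hSs
              obtain ⟨h3, h4⟩ := mem_filter.1 h1
              exact congrFun h4 a
        _ ≤ _ := by
            rw [sum_const, card_powerset, nsmul_eq_mul]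
            apply mul_le_mul_of_nonneg_right
            · push_cast
              exact pow_le_pow_right₀ (by norm_num) hcard
            · apply mul_nonneg (mul_nonneg (by positivity) (hV0 0))
              exact expect_nonneg fun _ _ => prod_nonneg fun _ _ => Real.sqrt_nonneg _
    refine (sum_le_sum hfib).trans ?_
    rw [← mul_sum, ← mul_sum, Fin.prod_univ_succ]
    rw [prod_mul_distrib] at ih1
    simp only [prod_const, card_univ, Fintype.card_fin] at ih1
    calc _ ≤ 2 ^ (n * r) * (2 ^ (n * r) * V 0 * (K * ((2 ^ r) ^ n * ∏ a : Fin n, V a.succ))) := by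
          apply mul_le_mul_of_nonneg_left _ (by positivity)
          exact mul_le_mul_of_nonneg_left ih1 (mul_nonneg (by positivity) (hV0 0))
      _ = _ := by ring

end

end Pool.Agent.Helper67.NX2

end

section

set_option autoImplicit false

namespace Pool.Agent.Helper69.EK

open Finset ArithmeticFunction

open scoped ArithmeticFunction.Moebius ArithmeticFunction.zeta

/-- sum over the numbers with a given set of prime factors -/
theorem claim_rad (P : Finset ℕ) : (∀ p ∈ P, p.Prime) → ∀ N : ℕ,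
    ∑ m ∈ (Icc 1 N).filter (fun m => m.primeFactors = P), (1 : ℝ) / m ≤
      ∏ p ∈ P, (1 : ℝ) / (p - 1) := by
  induction P using Finset.induction_on with
  | empty =>
    intro _ N
    rw [Finset.prod_empty]
    have h1 : (Icc 1 N).filter (fun m => m.primeFactors = ∅) ⊆ {1} := by
      intro m hm
      rw [Finset.mem_filter, Finset.mem_Icc, Nat.primeFactors_eq_empty] at hm
      rw [Finset.mem_singleton]
      omega
    calc ∑ m ∈ (Icc 1 N).filter (fun m => m.primeFactors = ∅), (1 : ℝ) / m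
        ≤ ∑ m ∈ ({1} : Finset ℕ), (1 : ℝ) / m :=
          Finset.sum_le_sum_of_subset_of_nonneg h1 (fun _ _ _ => by (clear * -; positivity))
      _ = 1 := by simp
  | insert p P hp ih =>
    intro hP N
    have hpp : p.Prime := hP p (Finset.mem_insert_self _ _)
    have hP' : ∀ q ∈ P, q.Prime := fun q hq => hP q (Finset.mem_insert_of_mem hq)
    have ih' := ih hP' N
    exact by
      rw [Finset.prod_insert hp]
      have hp1 : (1 : ℝ) < p := by exact_mod_cast hpp.one_lt
      -- the injection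
      set S := (Icc 1 N).filter (fun m => m.primeFactors = insert p P) with hS
      set T := (Icc 1 N).filter (fun m => m.primeFactors = P) with hT
      have hSm : ∀ m ∈ S, m ≠ 0 ∧ 1 ≤ m.factorization p ∧ m.factorization p ≤ N ∧
          m / p ^ m.factorization p ∈ T := by
        intro m hm
        rw [hS, Finset.mem_filter, Finset.mem_Icc] at hm
        obtain ⟨⟨hm1, hm2⟩, hm3⟩ := hm
        have hm0 : m ≠ 0 := by omega
        have hpm : p ∈ m.primeFactors := by rw [hm3]; exact Finset.mem_insert_self _ _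
        have hpd : p ∣ m := Nat.dvd_of_mem_primeFactors hpm
        refine ⟨hm0, (hpp.dvd_iff_one_le_factorization hm0).1 hpd, ?_, ?_⟩
        · exact ((Nat.factorization_lt p hm0).le).trans hm2
        · rw [hT, Finset.mem_filter, Finset.mem_Icc]
          have hpos : 0 < m / p ^ m.factorization p := Nat.ordCompl_pos p hm0
          refine ⟨⟨hpos, (Nat.div_le_self _ _).trans hm2⟩, ?_⟩
          rw [← Nat.support_factorization, Nat.factorization_ordCompl, Finsupp.support_erase,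
            Nat.support_factorization, hm3, Finset.erase_insert hp]
      have hsum : ∑ m ∈ S, (1 : ℝ) / m ≤
          ∑ x ∈ (Icc 1 N) ×ˢ T, (1 : ℝ) / (p : ℝ) ^ x.1 * (1 / x.2) := by
        have h1 : ∑ m ∈ S, (1 : ℝ) / m = ∑ x ∈ S.image (fun m => (m.factorization p,
            m / p ^ m.factorization p)), (1 : ℝ) / (p : ℝ) ^ x.1 * (1 / (x.2 : ℕ)) := by
          rw [Finset.sum_image]
          · apply Finset.sum_congr rfl
            intro m hm
            have h2 : (m : ℝ) = (p : ℝ) ^ m.factorization p * ((m / p ^ m.factorization p : ℕ) : ℝ) := by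
              exact_mod_cast (Nat.ordProj_mul_ordCompl_eq_self m p).symm
            conv_lhs => rw [h2]
            rw [one_div_mul_one_div]
          · intro m hm m' hm' heq
            obtain ⟨h2, h3⟩ := Prod.mk.inj heq
            rw [← Nat.ordProj_mul_ordCompl_eq_self m p, ← Nat.ordProj_mul_ordCompl_eq_self m' p]
            rw [h3, h2]
        rw [h1]
        apply Finset.sum_le_sum_of_subset_of_nonneg
        · intro x hx
          rw [Finset.mem_image] at hx
          obtain ⟨m, hm, rfl⟩ := hx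
          obtain ⟨_, h2, h3, h4⟩ := hSm m hm
          rw [Finset.mem_product, Finset.mem_Icc]
          exact ⟨⟨h2, h3⟩, h4⟩
        · intro x _ _
          (clear * - hp1; positivity)
      rw [Finset.sum_product] at hsum
      simp only at hsum
      rw [← Finset.sum_mul_sum] at hsum
      have hgeo : ∑ k ∈ Icc 1 N, (1 : ℝ) / (p : ℝ) ^ k ≤ 1 / (p - 1) := by
        have h2 : ∀ N : ℕ, ∑ k ∈ Icc 1 N, (1 : ℝ) / (p : ℝ) ^ k = (1 - 1 / (p : ℝ) ^ N) / (p - 1) := by
          intro N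
          have hp0 : (p : ℝ) ≠ 0 := by (clear * - hp1; positivity)
          have hp1' : (p : ℝ) - 1 ≠ 0 := by (clear * - hp1; linarith)
          induction N with
          | zero => simp
          | succ N ihN =>
            rw [Finset.sum_Icc_succ_top (by omega), ihN, pow_succ]
            field_simp
            ring
        rw [h2]
        apply div_le_div_of_nonneg_right _ (by (clear * - hp1; linarith))
        have : (0 : ℝ) ≤ 1 / (p : ℝ) ^ N := by (clear * - hp1; positivity)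
        (clear * - this; linarith)
      calc ∑ m ∈ S, (1 : ℝ) / m ≤ _ := hsum
        _ ≤ 1 / (p - 1) * ∏ p ∈ P, (1 : ℝ) / (p - 1) := by
          apply mul_le_mul hgeo ih' (Finset.sum_nonneg (fun _ _ => by (clear * -; positivity)))
          apply div_nonneg zero_le_one; (clear * - hp1; linarith)

theorem totient_sqf {l : ℕ} (hl : Squarefree l) :
    (1 : ℝ) / l.totient = ∏ p ∈ l.primeFactors, (1 : ℝ) / (p - 1) := by
  rw [Nat.totient_eq_div_primeFactors_mul, Nat.prod_primeFactors_of_squarefree hl,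
    Nat.div_self (Nat.pos_of_ne_zero hl.ne_zero), one_mul, Finset.prod_div_distrib,
    Finset.prod_const_one]
  congr 1
  push_cast
  apply Finset.prod_congr rfl
  intro p hp
  rw [Nat.cast_sub (Nat.prime_of_mem_primeFactors hp).one_le, Nat.cast_one]

theorem squarefree_prod_primes (P : Finset ℕ) (hP : ∀ p ∈ P, p.Prime) :
    Squarefree (∏ p ∈ P, p) := by
  apply Finset.squarefree_prod_of_pairwise_isCoprime
  · intro a ha b hb hab
    show IsRelPrime a b
    rw [← Nat.coprime_iff_isRelPrime]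
    exact (Nat.coprime_primes (hP a ha) (hP b hb)).2 hab
  · intro p hp
    exact (hP p hp).prime.squarefree

/-- the full squarefree sum dominates the harmonic sum -/
theorem G1_lower (R : ℕ) :
    ∑ m ∈ Icc 1 R, (1 : ℝ) / m ≤ ∑ l ∈ (Icc 1 R).filter Squarefree, (1 : ℝ) / l.totient := by
  classical
  have hmaps : ∀ m ∈ Icc 1 R, (∏ p ∈ m.primeFactors, p) ∈ (Icc 1 R).filter Squarefree := by
    intro m hm
    rw [Finset.mem_Icc] at hm
    rw [Finset.mem_filter, Finset.mem_Icc]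
    have hdvd := Nat.prod_primeFactors_dvd m
    have hpos : 0 < ∏ p ∈ m.primeFactors, p := Nat.pos_of_dvd_of_pos hdvd (by omega)
    exact ⟨⟨hpos, (Nat.le_of_dvd (by omega) hdvd).trans hm.2⟩,
      squarefree_prod_primes _ (fun p hp => Nat.prime_of_mem_primeFactors hp)⟩
  rw [← Finset.sum_fiberwise_of_maps_to hmaps]
  apply Finset.sum_le_sum
  intro l hl
  rw [Finset.mem_filter] at hl
  rw [totient_sqf hl.2]
  refine le_trans (le_of_eq ?_) (claim_rad l.primeFactors
    (fun p hp => Nat.prime_of_mem_primeFactors hp) R)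
  apply Finset.sum_congr _ (fun _ _ => rfl)
  apply Finset.filter_congr
  intro m _
  constructor
  · intro h
    rw [← h, Nat.primeFactors_prod_primeFactors]
  · intro h
    rw [h, Nat.prod_primeFactors_of_squarefree hl.2]

/-- coprime index set -/
noncomputable def AA (D R : ℕ) : Finset ℕ := by
  classical
  exact (Icc 1 R).filter (fun l => Squarefree l ∧ Nat.Coprime l D)

theorem mem_AA {D R l : ℕ} : l ∈ AA D R ↔ (1 ≤ l ∧ l ≤ R) ∧ Squarefree l ∧ Nat.Coprime l D := by
  classical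
  unfold AA
  rw [Finset.mem_filter, Finset.mem_Icc]

noncomputable def GG (D R : ℕ) : ℝ := ∑ l ∈ AA D R, (1 : ℝ) / l.totient

theorem G1_le (D R : ℕ) (hD : 0 < D) :
    ∑ l ∈ (Icc 1 R).filter Squarefree, (1 : ℝ) / l.totient ≤ (D : ℝ) / D.totient * GG D R := by
  classical
  have hD0 : D ≠ 0 := hD.ne'
  -- sum over squarefree divisors of D
  have hdiv : ∑ d ∈ D.divisors.filter Squarefree, (1 : ℝ) / d.totient = (D : ℝ) / D.totient := by
    have h1 : ∑ d ∈ D.divisors.filter Squarefree, (1 : ℝ) / d.totient =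
        ∑ P ∈ D.primeFactors.powerset, ∏ p ∈ P, (1 : ℝ) / (p - 1) := by
      symm
      refine Finset.sum_bij' (fun P _ => ∏ p ∈ P, p) (fun d _ => d.primeFactors) ?_ ?_ ?_ ?_ ?_
      · intro P hP
        rw [Finset.mem_powerset] at hP
        have hPp : ∀ p ∈ P, p.Prime := fun p hp => Nat.prime_of_mem_primeFactors (hP hp)
        rw [Finset.mem_filter, Nat.mem_divisors]
        refine ⟨⟨?_, hD0⟩, squarefree_prod_primes _ hPp⟩
        exact (Finset.prod_dvd_prod_of_subset _ _ _ hP).trans (Nat.prod_primeFactors_dvd D)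
      · intro d hd
        rw [Finset.mem_filter, Nat.mem_divisors] at hd
        rw [Finset.mem_powerset]
        exact Nat.primeFactors_mono hd.1.1 hD0
      · intro P hP
        rw [Finset.mem_powerset] at hP
        exact Nat.primeFactors_prod (fun p hp => Nat.prime_of_mem_primeFactors (hP hp))
      · intro d hd
        rw [Finset.mem_filter] at hd
        exact Nat.prod_primeFactors_of_squarefree hd.2
      · intro P hP
        rw [Finset.mem_powerset] at hP
        have hPp : ∀ p ∈ P, p.Prime := fun p hp => Nat.prime_of_mem_primeFactors (hP hp)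
        rw [totient_sqf (squarefree_prod_primes _ hPp), Nat.primeFactors_prod hPp]
    rw [h1, ← Finset.prod_one_add]
    have h2 := Nat.totient_eq_mul_prod_factors D
    have h3 : (D.totient : ℝ) = D * ∏ p ∈ D.primeFactors, (1 - (p : ℝ)⁻¹) := by
      have := congrArg (fun x : ℚ => (x : ℝ)) h2
      push_cast at this
      exact this
    have hprod : ∏ p ∈ D.primeFactors, (1 - (p : ℝ)⁻¹) ≠ 0 := by
      rw [Finset.prod_ne_zero_iff]
      intro p hp
      have h4 : (1 : ℝ) < p := by exact_mod_cast (Nat.prime_of_mem_primeFactors hp).one_lt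
      have h5 : (p : ℝ)⁻¹ < 1 := inv_lt_one_of_one_lt₀ h4
      (clear * - h5; linarith)
    have hDR : (D : ℝ) ≠ 0 := by exact_mod_cast hD0
    rw [h3, eq_div_iff (mul_ne_zero hDR hprod), mul_comm (D : ℝ), ← mul_assoc,
      ← Finset.prod_mul_distrib]
    have h6 : ∏ p ∈ D.primeFactors, ((1 + 1 / ((p : ℝ) - 1)) * (1 - (p : ℝ)⁻¹)) = 1 := by
      apply Finset.prod_eq_one
      intro p hp
      have h4 : (1 : ℝ) < p := by exact_mod_cast (Nat.prime_of_mem_primeFactors hp).one_lt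
      have h5 : (p : ℝ) - 1 ≠ 0 := by (clear * - h4; linarith)
      have h7 : (p : ℝ) ≠ 0 := by (clear * - h4; linarith)
      field_simp
      ring
    rw [h6, one_mul]
  rw [← hdiv, GG, Finset.sum_mul_sum, ← Finset.sum_product']
  -- injection
  have hg : ∀ l ∈ (Icc 1 R).filter Squarefree, l.gcd D ∈ D.divisors.filter Squarefree ∧
      l / l.gcd D ∈ AA D R ∧ (1 : ℝ) / l.totient =
        (1 : ℝ) / (l.gcd D).totient * (1 / (l / l.gcd D).totient) := by
    intro l hl
    rw [Finset.mem_filter, Finset.mem_Icc] at hl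
    obtain ⟨⟨hl1, hl2⟩, hls⟩ := hl
    have hgpos : 0 < l.gcd D := Nat.gcd_pos_of_pos_left _ (by omega)
    have hmul : l.gcd D * (l / l.gcd D) = l := Nat.mul_div_cancel' (Nat.gcd_dvd_left _ _)
    have hcop : Nat.Coprime (l / l.gcd D) D := Nat.coprime_div_gcd_of_squarefree hls hD0
    refine ⟨?_, ?_, ?_⟩
    · rw [Finset.mem_filter, Nat.mem_divisors]
      exact ⟨⟨Nat.gcd_dvd_right _ _, hD0⟩, hls.squarefree_of_dvd (Nat.gcd_dvd_left _ _)⟩
    · rw [mem_AA]
      refine ⟨⟨Nat.div_pos (Nat.le_of_dvd (by omega) (Nat.gcd_dvd_left _ _)) hgpos,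
        (Nat.div_le_self _ _).trans hl2⟩, ?_, hcop⟩
      exact hls.squarefree_of_dvd (Nat.div_dvd_of_dvd (Nat.gcd_dvd_left _ _))
    · have hcop2 : Nat.Coprime (l.gcd D) (l / l.gcd D) :=
        (Nat.Coprime.coprime_dvd_right (Nat.gcd_dvd_right l D) hcop).symm
      have h1 := Nat.totient_mul hcop2
      rw [hmul] at h1
      rw [h1, Nat.cast_mul, one_div_mul_one_div]
  calc ∑ l ∈ (Icc 1 R).filter Squarefree, (1 : ℝ) / l.totient
      = ∑ x ∈ ((Icc 1 R).filter Squarefree).image (fun l => (l.gcd D, l / l.gcd D)),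
          (1 : ℝ) / (x.1).totient * (1 / (x.2).totient) := by
        rw [Finset.sum_image]
        · exact Finset.sum_congr rfl (fun l hl => (hg l hl).2.2)
        · intro l hl l' hl' heq
          obtain ⟨h1, h2⟩ := Prod.mk.inj heq
          rw [← Nat.mul_div_cancel' (Nat.gcd_dvd_left l D),
            ← Nat.mul_div_cancel' (Nat.gcd_dvd_left l' D), h2, h1]
    _ ≤ _ := by
        apply Finset.sum_le_sum_of_subset_of_nonneg
        · intro x hx
          rw [Finset.mem_image] at hx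
          obtain ⟨l, hl, rfl⟩ := hx
          rw [Finset.mem_product]
          exact ⟨(hg l hl).1, (hg l hl).2.1⟩
        · intro x _ _
          (clear * -; positivity)

theorem GG_lower (D R : ℕ) (hD : 0 < D) :
    Real.log R ≤ (D : ℝ) / D.totient * GG D R := by
  refine le_trans ?_ ((G1_lower R).trans (G1_le D R hD))
  rcases Nat.eq_zero_or_pos R with h | h
  · subst h; simp
  · have h1 := log_add_one_le_harmonic R
    have h2 : Real.log R ≤ Real.log (R + 1) :=
      Real.log_le_log (by exact_mod_cast h) (by (clear * -; linarith))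
    have h3 : ((harmonic R : ℚ) : ℝ) = ∑ m ∈ Icc 1 R, (1 : ℝ) / m := by
      rw [harmonic_eq_sum_Icc]
      push_cast
      simp
    rw [← h3]
    exact h2.trans (by exact_mod_cast h1)

theorem sum_mu (n : ℕ) : ∑ d ∈ n.divisors, (μ d : ℤ) = if n = 1 then 1 else 0 := by
  have h := congrArg (fun f : ArithmeticFunction ℤ => f n) moebius_mul_coe_zeta
  simp only [coe_mul_zeta_apply, one_apply] at h
  exact h

theorem mu_interval {l m : ℕ} (hm : Squarefree m) :
    ∑ d ∈ m.divisors.filter (fun d => l ∣ d), (μ d : ℤ) = if m = l then μ l else 0 := by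
  classical
  have hm0 : m ≠ 0 := hm.ne_zero
  by_cases hl : l ∣ m
  · obtain ⟨e, rfl⟩ := hl
    have hl0 : l ≠ 0 := fun h => hm0 (by rw [h, zero_mul])
    have he0 : e ≠ 0 := fun h => hm0 (by rw [h, mul_zero])
    have hcop : Nat.Coprime l e := Nat.coprime_of_squarefree_mul hm
    have h1 : ∑ d ∈ (l * e).divisors.filter (fun d => l ∣ d), (μ d : ℤ) =
        ∑ f ∈ e.divisors, (μ (l * f) : ℤ) := by
      symm
      apply Finset.sum_bij (fun f _ => l * f)
      · intro f hf
        rw [Nat.mem_divisors] at hf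
        rw [Finset.mem_filter, Nat.mem_divisors]
        exact ⟨⟨Nat.mul_dvd_mul_left l hf.1, hm0⟩, Nat.dvd_mul_right _ _⟩
      · intro f _ f' _ h
        exact Nat.eq_of_mul_eq_mul_left (Nat.pos_of_ne_zero hl0) h
      · intro d hd
        rw [Finset.mem_filter, Nat.mem_divisors] at hd
        obtain ⟨⟨hd1, _⟩, f, rfl⟩ := hd
        exact ⟨f, Nat.mem_divisors.2 ⟨Nat.dvd_of_mul_dvd_mul_left (Nat.pos_of_ne_zero hl0) hd1,
          he0⟩, rfl⟩
      · intro f _
        rfl
    rw [h1]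
    have h2 : ∀ f ∈ e.divisors, (μ (l * f) : ℤ) = μ l * μ f := by
      intro f hf
      rw [Nat.mem_divisors] at hf
      exact isMultiplicative_moebius.map_mul_of_coprime (hcop.coprime_dvd_right hf.1)
    rw [Finset.sum_congr rfl h2, ← Finset.mul_sum, sum_mu]
    by_cases he : e = 1
    · subst he; simp
    · rw [if_neg he, mul_zero, if_neg]
      intro h
      apply he
      exact Nat.eq_of_mul_eq_mul_left (Nat.pos_of_ne_zero hl0) (by rw [h, mul_one])
  · rw [if_neg (fun h => hl (by rw [h])), Finset.sum_eq_zero]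
    intro d hd
    rw [Finset.mem_filter, Nat.mem_divisors] at hd
    exact absurd (hd.2.trans hd.1.1) hl

/-- the weights -/
noncomputable def lamW (D R : ℕ) (d : ℕ) : ℝ := by
  classical
  exact if d ∈ AA D R then (μ d : ℝ) * d / GG D R *
    ∑ m ∈ (AA D R).filter (fun m => d ∣ m), (1 : ℝ) / m.totient else 0

theorem GG_pos (D R : ℕ) (hR : 1 ≤ R) : 0 < GG D R := by
  unfold GG
  apply Finset.sum_pos'
  · intro l _; (clear * -; positivity)
  · exact ⟨1, mem_AA.2 ⟨⟨le_refl _, hR⟩, squarefree_one, Nat.coprime_one_left D⟩, by simp⟩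

theorem y_eq (D R l : ℕ) (hR : 1 ≤ R) :
    ∑ d ∈ (Icc 1 R).filter (fun d => l ∣ d), lamW D R d / d =
      if l ∈ AA D R then (μ l : ℝ) / (GG D R * l.totient) else 0 := by
  classical
  have hG := GG_pos D R hR
  -- restrict to AA
  have h1 : ∑ d ∈ (Icc 1 R).filter (fun d => l ∣ d), lamW D R d / d =
      ∑ d ∈ (AA D R).filter (fun d => l ∣ d), (1 / GG D R) * ((μ d : ℝ) *
        ∑ m ∈ (AA D R).filter (fun m => d ∣ m), (1 : ℝ) / m.totient) := by
    symm
    have hsub : (AA D R).filter (fun d => l ∣ d) ⊆ (Icc 1 R).filter (fun d => l ∣ d) := by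
      intro d hd
      rw [Finset.mem_filter, mem_AA] at hd
      rw [Finset.mem_filter, Finset.mem_Icc]
      exact ⟨hd.1.1, hd.2⟩
    rw [← Finset.sum_subset hsub]
    · apply Finset.sum_congr rfl
      intro d hd
      rw [Finset.mem_filter] at hd
      have hd0 : (d : ℝ) ≠ 0 := by
        have := (mem_AA.1 hd.1).1.1
        positivity
      unfold lamW
      rw [if_pos hd.1]
      (clear * - hd0 hG; field_simp)
    · intro d hd hd'
      rw [Finset.mem_filter] at hd hd'
      unfold lamW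
      rw [if_neg (fun h => hd' ⟨h, hd.2⟩), zero_div]
  rw [h1, ← Finset.mul_sum]
  have h2 : ∑ d ∈ (AA D R).filter (fun d => l ∣ d), ((μ d : ℝ) *
        ∑ m ∈ (AA D R).filter (fun m => d ∣ m), (1 : ℝ) / m.totient) =
      ∑ m ∈ AA D R, (1 : ℝ) / m.totient * (if m = l then (μ l : ℝ) else 0) := by
    have h3 : ∀ d, ∑ m ∈ (AA D R).filter (fun m => d ∣ m), (1 : ℝ) / m.totient =
        ∑ m ∈ AA D R, if d ∣ m then (1 : ℝ) / m.totient else 0 := fun d => Finset.sum_filter _ _
    simp only [h3, Finset.mul_sum]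
    rw [Finset.sum_comm]
    apply Finset.sum_congr rfl
    intro m hm
    have hmA := mem_AA.1 hm
    have h4 := mu_interval (l := l) hmA.2.1
    have h5 : ((∑ d ∈ m.divisors.filter (fun d => l ∣ d), (μ d : ℤ) : ℤ) : ℝ) =
        if m = l then (μ l : ℝ) else 0 := by
      rw [h4]; push_cast; rfl
    rw [← h5, Int.cast_sum, Finset.mul_sum]
    have h6 : m.divisors.filter (fun d => l ∣ d) =
        ((AA D R).filter (fun d => l ∣ d)).filter (fun d => d ∣ m) := by
      ext d
      rw [Finset.mem_filter, Nat.mem_divisors, Finset.mem_filter, Finset.mem_filter, mem_AA]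
      constructor
      · rintro ⟨⟨hd1, _⟩, hd2⟩
        have hm1 : 0 < m := hmA.1.1
        exact ⟨⟨⟨⟨Nat.pos_of_dvd_of_pos hd1 hm1, (Nat.le_of_dvd hm1 hd1).trans hmA.1.2⟩,
          hmA.2.1.squarefree_of_dvd hd1, hmA.2.2.coprime_dvd_left hd1⟩, hd2⟩, hd1⟩
      · rintro ⟨⟨hd1, hd2⟩, hd3⟩
        exact ⟨⟨hd3, hmA.2.1.ne_zero⟩, hd2⟩
    rw [h6, Finset.sum_filter (p := fun d => d ∣ m)]
    apply Finset.sum_congr rfl
    intro d _
    by_cases hd : d ∣ m
    · rw [if_pos hd, if_pos hd]; ring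
    · rw [if_neg hd, if_neg hd, mul_zero]
  rw [h2]
  by_cases hl : l ∈ AA D R
  · rw [if_pos hl, Finset.sum_eq_single l]
    · rw [if_pos rfl]
      have : (l.totient : ℝ) ≠ 0 := by
        have := Nat.totient_pos.2 (mem_AA.1 hl).1.1
        positivity
      (clear * - this hG; field_simp)
    · intro m _ hml
      rw [if_neg hml, mul_zero]
    · intro h; exact absurd hl h
  · rw [if_neg hl, Finset.sum_eq_zero, mul_zero]
    intro m hm
    by_cases hml : m = l
    · subst hml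
      exact absurd hm hl
    · rw [if_neg hml, mul_zero]

theorem selberg_weights {D : ℕ} (hD : 0 < D) {R : ℕ} (hR : 2 ≤ R) : ∃ lam : ℕ → ℝ, lam 1 = 1 ∧
    (∀ d, lam d ≠ 0 → 1 ≤ d ∧ d ≤ R ∧ Nat.Coprime d D) ∧ (∀ d, |lam d| ≤ R) ∧
    ∑ d₁ ∈ Finset.Icc 1 R, ∑ d₂ ∈ Finset.Icc 1 R, lam d₁ * lam d₂ / (Nat.lcm d₁ d₂ : ℝ) ≤
      (D : ℝ) / (D.totient * Real.log R) := by
  classical
  have hG := GG_pos D R (by omega)
  refine ⟨lamW D R, ?_, ?_, ?_, ?_⟩
  · unfold lamW
    rw [if_pos (mem_AA.2 ⟨⟨le_refl _, by omega⟩, squarefree_one, Nat.coprime_one_left D⟩)]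
    have : ∑ m ∈ (AA D R).filter (fun m => 1 ∣ m), (1 : ℝ) / m.totient = GG D R := by
      unfold GG
      apply Finset.sum_congr _ (fun _ _ => rfl)
      simp
    rw [this]
    simp only [moebius_apply_one, Nat.cast_one, mul_one]
    push_cast
    (clear * - hG; field_simp)
  · intro d hd
    unfold lamW at hd
    by_cases h : d ∈ AA D R
    · have := mem_AA.1 h
      exact ⟨this.1.1, this.1.2, this.2.2⟩
    · rw [if_neg h] at hd
      exact absurd rfl hd
  · intro d
    unfold lamW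
    by_cases h : d ∈ AA D R
    · rw [if_pos h]
      have hA := mem_AA.1 h
      have h1 : |(μ d : ℝ)| ≤ 1 := by
        have := abs_moebius_le_one (n := d)
        exact_mod_cast this
      have h2 : ∑ m ∈ (AA D R).filter (fun m => d ∣ m), (1 : ℝ) / m.totient ≤ GG D R := by
        apply Finset.sum_le_sum_of_subset_of_nonneg (Finset.filter_subset _ _)
        intro _ _ _; (clear * -; positivity)
      have h3 : 0 ≤ ∑ m ∈ (AA D R).filter (fun m => d ∣ m), (1 : ℝ) / m.totient :=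
        Finset.sum_nonneg (fun _ _ => by (clear * -; positivity))
      exact by
        rw [abs_mul, abs_div, abs_mul, abs_of_pos hG, abs_of_nonneg h3, Nat.abs_cast]
        have hdR : (d : ℝ) ≤ R := by exact_mod_cast hA.1.2
        have hd0 : (0 : ℝ) ≤ d := Nat.cast_nonneg _
        calc |(μ d : ℝ)| * d / GG D R * ∑ m ∈ (AA D R).filter (fun m => d ∣ m), (1 : ℝ) / m.totient
            ≤ |(μ d : ℝ)| * d / GG D R * GG D R :=
              mul_le_mul_of_nonneg_left h2 (by (clear * - hG; positivity))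
          _ = |(μ d : ℝ)| * d := by (clear * - hG; field_simp)
          _ ≤ 1 * d := mul_le_mul_of_nonneg_right h1 hd0
          _ ≤ R := by rw [one_mul]; exact hdR
    · rw [if_neg h, abs_zero]; positivity
  · -- the quadratic form
    have hlcm : ∀ d₁ ∈ Icc 1 R, ∀ d₂ ∈ Icc 1 R,
        lamW D R d₁ * lamW D R d₂ / (Nat.lcm d₁ d₂ : ℝ) =
        ∑ l ∈ Icc 1 R, (l.totient : ℝ) * ((if l ∣ d₁ then lamW D R d₁ / d₁ else 0) *
          (if l ∣ d₂ then lamW D R d₂ / d₂ else 0)) := by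
      intro d₁ h₁ d₂ h₂
      rw [Finset.mem_Icc] at h₁ h₂
      have e1 : (d₁ : ℝ) ≠ 0 := by have := h₁.1; positivity
      have e2 : (d₂ : ℝ) ≠ 0 := by have := h₂.1; positivity
      have hgcd : ((d₁.gcd d₂ : ℕ) : ℝ) = ∑ l ∈ Icc 1 R,
          if l ∣ d₁ ∧ l ∣ d₂ then (l.totient : ℝ) else 0 := by
        rw [← Finset.sum_filter]
        conv_lhs => rw [← Nat.sum_totient (d₁.gcd d₂)]
        rw [Nat.cast_sum]
        apply Finset.sum_congr _ (fun _ _ => rfl)
        ext l
        have hgpos : 0 < d₁.gcd d₂ := Nat.gcd_pos_of_pos_left _ (by omega)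
        rw [Nat.mem_divisors, Finset.mem_filter, Finset.mem_Icc, Nat.dvd_gcd_iff]
        constructor
        · rintro ⟨h, _⟩
          exact ⟨⟨Nat.pos_of_dvd_of_pos h.1 (by omega), (Nat.le_of_dvd (by omega) h.1).trans h₁.2⟩,
            h⟩
        · rintro ⟨_, h⟩
          exact ⟨h, hgpos.ne'⟩
      have hl : (Nat.lcm d₁ d₂ : ℝ) = d₁ * d₂ / (d₁.gcd d₂ : ℕ) := by
        have hg0 : ((d₁.gcd d₂ : ℕ) : ℝ) ≠ 0 := by
          have : 0 < d₁.gcd d₂ := Nat.gcd_pos_of_pos_left _ (by omega)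
          positivity
        rw [eq_div_iff hg0]
        have := Nat.gcd_mul_lcm d₁ d₂
        rw [mul_comm]
        exact_mod_cast this
      rw [hl, div_div_eq_mul_div, hgcd, Finset.mul_sum, Finset.sum_div]
      apply Finset.sum_congr rfl
      intro l _
      by_cases c1 : l ∣ d₁
      · by_cases c2 : l ∣ d₂
        · rw [if_pos ⟨c1, c2⟩, if_pos c1, if_pos c2]
          (clear * - e2 e1; field_simp)
        · rw [if_neg (fun h => c2 h.2), if_neg c2]
          simp
      · rw [if_neg (fun h => c1 h.1), if_neg c1]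
        simp
    rw [Finset.sum_congr rfl (fun d₁ h₁ => Finset.sum_congr rfl (fun d₂ h₂ => hlcm d₁ h₁ d₂ h₂))]
    have hswap : ∑ d₁ ∈ Icc 1 R, ∑ d₂ ∈ Icc 1 R, ∑ l ∈ Icc 1 R, (l.totient : ℝ) *
        ((if l ∣ d₁ then lamW D R d₁ / d₁ else 0) * (if l ∣ d₂ then lamW D R d₂ / d₂ else 0)) =
        ∑ l ∈ Icc 1 R, (l.totient : ℝ) *
          (∑ d ∈ (Icc 1 R).filter (fun d => l ∣ d), lamW D R d / d) ^ 2 := by
      have h1 : ∀ d₁ ∈ Icc 1 R, ∑ d₂ ∈ Icc 1 R, ∑ l ∈ Icc 1 R, (l.totient : ℝ) *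
        ((if l ∣ d₁ then lamW D R d₁ / d₁ else 0) * (if l ∣ d₂ then lamW D R d₂ / d₂ else 0)) =
          ∑ l ∈ Icc 1 R, ∑ d₂ ∈ Icc 1 R, (l.totient : ℝ) *
        ((if l ∣ d₁ then lamW D R d₁ / d₁ else 0) * (if l ∣ d₂ then lamW D R d₂ / d₂ else 0)) :=
        fun d₁ _ => Finset.sum_comm
      rw [Finset.sum_congr rfl h1, Finset.sum_comm]
      apply Finset.sum_congr rfl
      intro l _
      rw [Finset.sum_filter, sq, Finset.sum_mul_sum, Finset.mul_sum]
      apply Finset.sum_congr rfl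
      intro d₁ _
      rw [Finset.mul_sum]
    rw [hswap]
    simp only [y_eq D R _ (by omega : 1 ≤ R)]
    have hfin : ∑ l ∈ Icc 1 R, (l.totient : ℝ) *
        (if l ∈ AA D R then (μ l : ℝ) / (GG D R * l.totient) else 0) ^ 2 = 1 / GG D R := by
      have hsub : AA D R ⊆ Icc 1 R := by
        intro l hl
        rw [Finset.mem_Icc]
        exact (mem_AA.1 hl).1
      rw [← Finset.sum_subset hsub]
      · have h1 : ∀ l ∈ AA D R, (l.totient : ℝ) *
            (if l ∈ AA D R then (μ l : ℝ) / (GG D R * l.totient) else 0) ^ 2 =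
            (1 / GG D R ^ 2) * (1 / l.totient) := by
          intro l hl
          rw [if_pos hl]
          have hA := mem_AA.1 hl
          have h2 : ((μ l : ℤ) : ℝ) ^ 2 = 1 := by
            have := moebius_sq_eq_one_of_squarefree hA.2.1
            exact_mod_cast this
          have h3 : (l.totient : ℝ) ≠ 0 := by
            have := Nat.totient_pos.2 hA.1.1
            positivity
          rw [div_pow, h2]
          field_simp
        rw [Finset.sum_congr rfl h1, ← Finset.mul_sum]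
        change 1 / GG D R ^ 2 * GG D R = 1 / GG D R
        field_simp
      · intro l _ hl
        rw [if_neg hl]
        simp
    rw [hfin]
    have hlow := GG_lower D R hD
    have hlog : 0 < Real.log R := Real.log_pos (by exact_mod_cast hR)
    have hphi : (0 : ℝ) < D.totient := by exact_mod_cast Nat.totient_pos.2 hD
    have hDR : (0 : ℝ) < D := by exact_mod_cast hD
    rw [div_le_div_iff₀ hG (by (clear * - hD hlog; positivity)), one_mul]
    rw [div_mul_eq_mul_div, le_div_iff₀ hphi] at hlow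
    (clear * - hlow; linarith)

end Pool.Agent.Helper69.EK

end

section

set_option autoImplicit false

open Finset

open scoped BigOperators ComplexConjugate

namespace Pool.Agent.Helper45.NX2.Bt

/-- the number of elements of a residue class in an interval -/
theorem card_class (y l q r : ℕ) (hq : 0 < q) :
    |((((Finset.Ico y (y + l)).filter fun n => n ≡ r [MOD q]).card : ℕ) : ℝ) - (l : ℝ) / q| ≤ 1 := by
  have hq' : (0 : ℚ) < q := by exact_mod_cast hq
  have h1 := Nat.Ico_filter_modEq_card y (y + l) hq r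
  have hle : ⌈((y : ℚ) - r) / (q : ℚ)⌉ ≤ ⌈(((y + l : ℕ) : ℚ) - r) / (q : ℚ)⌉ := by
    apply Int.ceil_mono
    apply div_le_div_of_nonneg_right _ hq'.le
    push_cast
    have : (0 : ℚ) ≤ l := Nat.cast_nonneg _
    (clear * -; linarith)
  rw [max_eq_left (sub_nonneg.2 hle)] at h1
  set N := ((Finset.Ico y (y + l)).filter fun n => n ≡ r [MOD q]).card with hN
  have h2 : (N : ℚ) = (⌈(((y + l : ℕ) : ℚ) - r) / (q : ℚ)⌉ : ℚ) - (⌈((y : ℚ) - r) / (q : ℚ)⌉ : ℚ) := by
    exact_mod_cast h1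
  have a1 := Int.le_ceil ((((y + l : ℕ) : ℚ) - r) / (q : ℚ))
  have a2 := Int.ceil_lt_add_one ((((y + l : ℕ) : ℚ) - r) / (q : ℚ))
  exact by
    have a3 := Int.le_ceil (((y : ℚ) - r) / (q : ℚ))
    have a4 := Int.ceil_lt_add_one (((y : ℚ) - r) / (q : ℚ))
    have a5 : (((y + l : ℕ) : ℚ) - r) / (q : ℚ) = ((y : ℚ) - r) / q + (l : ℚ) / q := by
      push_cast; rw [← add_div]; congr 1; ring
    have h3 : |(N : ℚ) - (l : ℚ) / q| ≤ 1 := by
      rw [abs_le]
      rw [a5] at a1 a2
      constructor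
      · rw [h2, a5]; (clear * - a1 a4; linarith)
      · rw [h2, a5]; (clear * - a2 a3; linarith)
    have h4 : ((|(N : ℚ) - (l : ℚ) / q| : ℚ) : ℝ) ≤ ((1 : ℚ) : ℝ) := Rat.cast_le.2 h3
    push_cast at h4
    exact h4

theorem card_class_dvd (y l M c d : ℕ) (hM : 0 < M) (hd : 0 < d) (hcop : Nat.Coprime M d) :
    |((((Finset.Ico y (y + l)).filter fun n => n ≡ c [MOD M] ∧ d ∣ n).card : ℕ) : ℝ) -
      (l : ℝ) / M * (1 / d)| ≤ 1 := by
  obtain ⟨r, hr1, hr2⟩ := Nat.chineseRemainder hcop c 0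
  have h0 : ((Finset.Ico y (y + l)).filter fun n => n ≡ c [MOD M] ∧ d ∣ n) =
      (Finset.Ico y (y + l)).filter fun n => n ≡ r [MOD (M * d)] := by
    apply Finset.filter_congr
    intro n _
    rw [← Nat.modEq_and_modEq_iff_modEq_mul hcop]
    constructor
    · rintro ⟨h1, h2⟩
      exact ⟨h1.trans hr1.symm, ((Nat.modEq_zero_iff_dvd).2 h2).trans hr2.symm⟩
    · rintro ⟨h1, h2⟩
      exact ⟨h1.trans hr1, (Nat.modEq_zero_iff_dvd).1 (h2.trans hr2)⟩
  rw [h0]
  have h1 := card_class y l (M * d) r (Nat.mul_pos hM hd)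
  have h2 : (l : ℝ) / M * (1 / d) = (l : ℝ) / ((M * d : ℕ) : ℝ) := by
    push_cast
    field_simp
  rw [h2]
  exact h1

theorem sieve_class (a N M c R : ℕ) (hM : 1 ≤ M) (hR : 2 ≤ R) :
    (((Ico a (a + N)).filter
      (fun p => p.Prime ∧ Nat.Coprime p M ∧ p ≡ c [MOD M])).card : ℝ) ≤
      R + (N : ℝ) / (M.totient * Real.log R) + (R : ℝ) ^ 4 := by
  classical
  obtain ⟨lam, hl1, hlc, hlb, hq⟩ := Pool.Agent.Helper69.EK.selberg_weights (D := M) hM hR
  set S := (Ico a (a + N)).filter (fun n => n ≡ c [MOD M]) with hS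
  have hM0 : (0 : ℝ) < M := by exact_mod_cast hM
  -- small primes
  have h1 : (((Ico a (a + N)).filter
      (fun p => p.Prime ∧ Nat.Coprime p M ∧ p ≡ c [MOD M])).card : ℝ) ≤
      R + ∑ n ∈ S, (∑ d ∈ (Icc 1 R).filter (fun d => d ∣ n), lam d) ^ 2 := by
    set T := (Ico a (a + N)).filter
      (fun p => p.Prime ∧ Nat.Coprime p M ∧ p ≡ c [MOD M]) with hT
    have h2 : T.card = (T.filter (fun p => p ≤ R)).card + (T.filter (fun p => ¬ p ≤ R)).card :=
      (Finset.card_filter_add_card_filter_not (fun p => p ≤ R)).symm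
    have h3 : (T.filter (fun p => p ≤ R)).card ≤ R := by
      have h4 : T.filter (fun p => p ≤ R) ⊆ Icc 1 R := by
        intro p hp
        rw [Finset.mem_filter, hT, Finset.mem_filter] at hp
        rw [Finset.mem_Icc]
        exact ⟨hp.1.2.1.one_le, hp.2⟩
      have h5 := Finset.card_le_card h4
      rwa [Nat.card_Icc, Nat.add_sub_cancel] at h5
    have h6 : ((T.filter (fun p => ¬ p ≤ R)).card : ℝ) ≤
        ∑ n ∈ S, (∑ d ∈ (Icc 1 R).filter (fun d => d ∣ n), lam d) ^ 2 := by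
      have hsub : T.filter (fun p => ¬ p ≤ R) ⊆ S := by
        intro p hp
        rw [Finset.mem_filter, hT, Finset.mem_filter] at hp
        rw [hS, Finset.mem_filter]
        exact ⟨hp.1.1, hp.1.2.2.2⟩
      rw [Finset.card_eq_sum_ones, Nat.cast_sum]
      refine le_trans (Finset.sum_le_sum ?_) (Finset.sum_le_sum_of_subset_of_nonneg hsub
        (fun _ _ _ => sq_nonneg _))
      intro p hp
      rw [Finset.mem_filter, hT, Finset.mem_filter] at hp
      have h7 : ∑ d ∈ (Icc 1 R).filter (fun d => d ∣ p), lam d = 1 := by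
        rw [Finset.sum_eq_single 1]
        · exact hl1
        · intro d hd hd1
          rw [Finset.mem_filter, Finset.mem_Icc] at hd
          rcases (Nat.dvd_prime hp.1.2.1).1 hd.2 with h | h
          · exact absurd h hd1
          · exact absurd (h ▸ hd.1.2) hp.2
        · intro h
          refine absurd ?_ h
          rw [Finset.mem_filter, Finset.mem_Icc]
          exact ⟨⟨le_refl _, by omega⟩, one_dvd _⟩
      rw [h7]
      norm_num
    rw [h2]
    push_cast
    have h3' : ((T.filter (fun p => p ≤ R)).card : ℝ) ≤ R := by exact_mod_cast h3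
    (clear * - h6 h3'; linarith)
  -- expansion
  have h2 : ∑ n ∈ S, (∑ d ∈ (Icc 1 R).filter (fun d => d ∣ n), lam d) ^ 2 =
      ∑ d₁ ∈ Icc 1 R, ∑ d₂ ∈ Icc 1 R, lam d₁ * lam d₂ *
        (((Finset.Ico a (a + N)).filter fun n => n ≡ c [MOD M] ∧ Nat.lcm d₁ d₂ ∣ n).card : ℝ) := by
    have h3 : ∀ n ∈ S, (∑ d ∈ (Icc 1 R).filter (fun d => d ∣ n), lam d) ^ 2 =
        ∑ d₁ ∈ Icc 1 R, ∑ d₂ ∈ Icc 1 R, lam d₁ * lam d₂ *
          (if Nat.lcm d₁ d₂ ∣ n then 1 else 0) := by
      intro n hn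
      rw [Finset.sum_filter, sq, Finset.sum_mul_sum]
      apply Finset.sum_congr rfl
      intro d₁ _
      apply Finset.sum_congr rfl
      intro d₂ _
      have h4 : Nat.lcm d₁ d₂ ∣ n ↔ d₁ ∣ n ∧ d₂ ∣ n := Nat.lcm_dvd_iff
      by_cases c1 : d₁ ∣ n
      · by_cases c2 : d₂ ∣ n
        · rw [if_pos c1, if_pos c2, if_pos (h4.2 ⟨c1, c2⟩), mul_one]
        · rw [if_neg c2, if_neg (fun h => c2 (h4.1 h).2), mul_zero, mul_zero]
      · rw [if_neg c1, if_neg (fun h => c1 (h4.1 h).1), mul_zero, zero_mul]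
    rw [Finset.sum_congr rfl h3, Finset.sum_comm]
    apply Finset.sum_congr rfl
    intro d₁ _
    rw [Finset.sum_comm]
    apply Finset.sum_congr rfl
    intro d₂ _
    rw [← Finset.mul_sum]
    congr 1
    rw [← Finset.sum_filter, Finset.card_eq_sum_ones, Nat.cast_sum, hS, Finset.filter_filter]
    simp only [Nat.cast_one]
  have h5 : ∀ d₁ ∈ Icc 1 R, ∀ d₂ ∈ Icc 1 R, lam d₁ * lam d₂ *
        (((Finset.Ico a (a + N)).filter fun n => n ≡ c [MOD M] ∧ Nat.lcm d₁ d₂ ∣ n).card : ℝ) ≤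
      (N : ℝ) / M * (lam d₁ * lam d₂ / (Nat.lcm d₁ d₂ : ℝ)) + (R : ℝ) ^ 2 := by
    intro d₁ h₁ d₂ h₂
    rw [Finset.mem_Icc] at h₁ h₂
    by_cases hz : lam d₁ * lam d₂ = 0
    · rw [hz]
      simp only [zero_mul, zero_div, mul_zero, zero_add]
      (clear * - hR; positivity)
    have hz1 : lam d₁ ≠ 0 := left_ne_zero_of_mul hz
    have hz2 : lam d₂ ≠ 0 := right_ne_zero_of_mul hz
    have hl0 : 0 < Nat.lcm d₁ d₂ := Nat.lcm_pos h₁.1 h₂.1
    have hcop : Nat.Coprime M (Nat.lcm d₁ d₂) := by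
      have e1 := (hlc d₁ hz1).2.2
      have e2 := (hlc d₂ hz2).2.2
      have e3 : Nat.Coprime (d₁ * d₂) M := Nat.Coprime.mul_left e1 e2
      exact (Nat.Coprime.coprime_dvd_left (Nat.lcm_dvd_mul d₁ d₂) e3).symm
    have h6 := card_class_dvd a N M c (Nat.lcm d₁ d₂) hM hl0 hcop
    set X := (((Finset.Ico a (a + N)).filter
      fun n => n ≡ c [MOD M] ∧ Nat.lcm d₁ d₂ ∣ n).card : ℝ) with hX
    have h7 : |lam d₁ * lam d₂| ≤ (R : ℝ) ^ 2 := by
      rw [abs_mul, sq]
      exact mul_le_mul (hlb d₁) (hlb d₂) (abs_nonneg _) (Nat.cast_nonneg _)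
    have h8 : lam d₁ * lam d₂ * (X - (N : ℝ) / M * (1 / (Nat.lcm d₁ d₂ : ℝ))) ≤ (R : ℝ) ^ 2 := by
      refine (le_abs_self _).trans ?_
      rw [abs_mul]
      calc _ ≤ (R : ℝ) ^ 2 * 1 := mul_le_mul h7 h6 (abs_nonneg _) (by positivity)
        _ = (R : ℝ) ^ 2 := mul_one _
    have h9 : (N : ℝ) / M * (lam d₁ * lam d₂ / (Nat.lcm d₁ d₂ : ℝ)) =
        lam d₁ * lam d₂ * ((N : ℝ) / M * (1 / (Nat.lcm d₁ d₂ : ℝ))) := by ring
    rw [h9]
    (clear * - h8; nlinarith)
  have h6 : ∑ n ∈ S, (∑ d ∈ (Icc 1 R).filter (fun d => d ∣ n), lam d) ^ 2 ≤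
      (N : ℝ) / (M.totient * Real.log R) + (R : ℝ) ^ 4 := by
    rw [h2]
    refine (Finset.sum_le_sum fun d₁ h₁ => Finset.sum_le_sum fun d₂ h₂ => h5 d₁ h₁ d₂ h₂).trans ?_
    simp only [Finset.sum_add_distrib, ← Finset.mul_sum, Finset.sum_const, Nat.card_Icc,
      Nat.add_sub_cancel, nsmul_eq_mul]
    have hphi : (0 : ℝ) < M.totient := by exact_mod_cast Nat.totient_pos.2 hM
    have hlog : 0 < Real.log R := Real.log_pos (by exact_mod_cast hR)
    have h7 : (N : ℝ) / M * ∑ d₁ ∈ Icc 1 R, ∑ d₂ ∈ Icc 1 R,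
        lam d₁ * lam d₂ / (Nat.lcm d₁ d₂ : ℝ) ≤
        (N : ℝ) / M * ((M : ℝ) / (M.totient * Real.log R)) :=
      mul_le_mul_of_nonneg_left hq (by (clear * - hM; positivity))
    have h8 : (N : ℝ) / M * ((M : ℝ) / (M.totient * Real.log R)) =
        (N : ℝ) / (M.totient * Real.log R) := by
      field_simp
    rw [h8] at h7
    have h9 : (R : ℝ) * (R * (R : ℝ) ^ 2) = (R : ℝ) ^ 4 := by ring
    rw [h9]
    (clear * - h7; linarith)
  (clear * - h1 h6; linarith)

theorem exists_root (k N : ℕ) : ∃ R : ℕ, R ^ (k + 1) ≤ N ∧ N < (R + 1) ^ (k + 1) := by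
  induction N with
  | zero => exact ⟨0, by simp, by simp⟩
  | succ N ih =>
    obtain ⟨R, h1, h2⟩ := ih
    by_cases h : N + 1 < (R + 1) ^ (k + 1)
    · exact ⟨R, by omega, h⟩
    · refine ⟨R + 1, by omega, ?_⟩
      have h3 : (R + 1) ^ (k + 1) < (R + 1 + 1) ^ (k + 1) :=
        Nat.pow_lt_pow_left (by omega) (by omega)
      omega

theorem log_root {R N k : ℕ} (hN : 1 ≤ N) (hR : 2 ≤ R) (h : N < (R + 1) ^ k) :
    Real.log N ≤ 2 * k * Real.log R := by
  have hN0 : (0 : ℝ) < N := by exact_mod_cast hN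
  have hR0 : (0 : ℝ) < R := by (clear * - hR; positivity)
  have h1 : (N : ℝ) ≤ ((R : ℝ) + 1) ^ k := by exact_mod_cast h.le
  have h2 := Real.log_le_log hN0 h1
  rw [Real.log_pow] at h2
  have h3 : ((R : ℝ) + 1) ≤ (R : ℝ) ^ 2 := by
    have : (2 : ℝ) ≤ R := by exact_mod_cast hR
    (clear * - this; nlinarith)
  have h4 := Real.log_le_log (by (clear * - hR; positivity)) h3
  rw [Real.log_pow] at h4
  have h5 : (k : ℝ) * Real.log ((R : ℝ) + 1) ≤ k * ((2 : ℕ) * Real.log R) :=
    mul_le_mul_of_nonneg_left h4 (Nat.cast_nonneg k)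
  calc Real.log N ≤ (k : ℝ) * Real.log ((R : ℝ) + 1) := h2
    _ ≤ k * ((2 : ℕ) * Real.log R) := h5
    _ = 2 * k * Real.log R := by push_cast; ring

theorem root_mul {R M N : ℕ} {k j : ℕ} (hkj : 2 * j ≤ k) (hR : 1 ≤ R) (h : R ^ k ≤ N)
    (hM : M ^ 2 ≤ N) : R ^ j * M ≤ N := by
  by_contra hh
  push Not at hh
  have h3 : N ^ 2 < (R ^ j * M) ^ 2 := Nat.pow_lt_pow_left hh (by norm_num)
  have h4 : (R ^ j * M) ^ 2 ≤ N * N := by
    calc (R ^ j * M) ^ 2 = R ^ (2 * j) * M ^ 2 := by rw [mul_pow, ← pow_mul, mul_comm j 2]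
      _ ≤ R ^ k * M ^ 2 := Nat.mul_le_mul_right _ (Nat.pow_le_pow_right hR hkj)
      _ ≤ N * N := Nat.mul_le_mul h hM
  rw [sq N] at h3
  exact absurd h3 (not_lt.2 h4)

theorem exists_R {M N : ℕ} (k : ℕ) (hN : 2 ^ (k + 1) ≤ N) (hM : M ^ 2 ≤ N) (j : ℕ)
    (hj : 2 * j ≤ k + 1) :
    ∃ R : ℕ, 2 ≤ R ∧ Real.log N ≤ 2 * ((k + 1 : ℕ) : ℝ) * Real.log R ∧ R ^ j * M ≤ N := by
  obtain ⟨R, h1, h2⟩ := exists_root k N
  have hR2 : 2 ≤ R := by
    by_contra h
    push Not at h
    have h3 : (R + 1) ^ (k + 1) ≤ 2 ^ (k + 1) := Nat.pow_le_pow_left (by omega) _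
    exact absurd (h2.trans_le h3) (not_lt.2 hN)
  have hN1 : 1 ≤ N := le_trans Nat.one_le_two_pow hN
  exact ⟨R, hR2, log_root hN1 hR2 h2, root_mul hj (by omega) h1 hM⟩

end Pool.Agent.Helper45.NX2.Bt

namespace Pool.Agent.Helper67.NX2

open Pool.Agent.Helper57.NX

theorem bt_class : ∃ C : ℝ, 0 < C ∧ ∀ a N M c : ℕ, 2 ≤ N → 1 ≤ M → M ^ 2 ≤ N →
    (((Ico a (a + N)).filter
      (fun p => p.Prime ∧ Nat.Coprime p M ∧ p ≡ c [MOD M])).card : ℝ) ≤
        C * N / (M.totient * Real.log N) := by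
  classical
  refine ⟨2 ^ 14, by norm_num, ?_⟩
  intro a N M c hN hM hMN
  have hphi : (0 : ℝ) < M.totient := by exact_mod_cast Nat.totient_pos.2 hM
  have hlogN : 0 < Real.log N := Real.log_pos (by exact_mod_cast hN)
  have hphiM : (M.totient : ℝ) ≤ M := by exact_mod_cast Nat.totient_le M
  have hN0 : (0 : ℝ) < N := by positivity
  rw [le_div_iff₀ (by (clear * - hM hlogN; positivity))]
  set X := (((Ico a (a + N)).filter
      (fun p => p.Prime ∧ Nat.Coprime p M ∧ p ≡ c [MOD M])).card : ℝ) with hX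
  have hX0 : 0 ≤ X := Nat.cast_nonneg _
  exact by
    by_cases hsmall : N < 2 ^ 20
    · have h1 : X ≤ N := by
        rw [hX]
        have := Finset.card_filter_le (Ico a (a + N))
          (fun p => p.Prime ∧ Nat.Coprime p M ∧ p ≡ c [MOD M])
        rw [Nat.card_Ico, Nat.add_sub_cancel_left] at this
        exact_mod_cast this
      have h2 : M < 2 ^ 10 := by
        by_contra h
        push Not at h
        have : (2 ^ 10) ^ 2 ≤ M ^ 2 := Nat.pow_le_pow_left h 2
        norm_num at this hsmall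
        omega
      have h3 : Real.log N ≤ 16 := by
        have h4 : Real.log N ≤ Real.log ((2 : ℝ) ^ 20) :=
          Real.log_le_log hN0 (by exact_mod_cast hsmall.le)
        rw [Real.log_pow] at h4
        have := Real.log_two_lt_d9
        push_cast at h4
        (clear * - h4 this; linarith)
      have h2' : (M : ℝ) ≤ 2 ^ 10 := by exact_mod_cast h2.le
      calc X * (M.totient * Real.log N) ≤ N * (2 ^ 10 * 16) := by
            apply mul_le_mul h1 _ (by (clear * - hM hlogN; positivity)) hN0.le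
            exact mul_le_mul (hphiM.trans h2') h3 hlogN.le (by positivity)
        _ = 2 ^ 14 * N := by ring
    · push Not at hsmall
      exact by
        obtain ⟨R, hR2, hlog0, hRM0⟩ :=
          Pool.Agent.Helper45.NX2.Bt.exists_R 19 hsmall hMN 5 (by norm_num)
        clear hsmall
        have hR0 : (0 : ℝ) < R := by (clear * - hR2; positivity)
        have hlogR : 0 < Real.log R := Real.log_pos (by exact_mod_cast hR2)
        have hlog : Real.log N ≤ 40 * Real.log R := by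
          push_cast at hlog0
          (clear * - hlog0; linarith)
        have hlogR' : Real.log R ≤ R := (Real.log_le_sub_one_of_pos hR0).trans (by (clear * -; linarith))
        have h1 := Pool.Agent.Helper45.NX2.Bt.sieve_class a N M c R hM hR2
        rw [← hX] at h1
        have hRM : (R : ℝ) ^ 5 * M ≤ N := by
          exact_mod_cast hRM0
        have hR1 : (1 : ℝ) ≤ R := by exact_mod_cast (by omega : 1 ≤ R)
        -- main term
        exact by
          have hmain : (N : ℝ) / (M.totient * Real.log R) * (M.totient * Real.log N) ≤ 40 * N := by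
            have : (N : ℝ) / (M.totient * Real.log R) * (M.totient * Real.log N) =
                N * (Real.log N / Real.log R) := by
              field_simp
            rw [this]
            have h2 : Real.log N / Real.log R ≤ 40 := by
              rw [div_le_iff₀ hlogR]; exact hlog
            (clear * - h2; nlinarith)
          have herr : ((R : ℝ) + (R : ℝ) ^ 4) * (M.totient * Real.log N) ≤ 80 * N := by
            have h2 : (R : ℝ) + (R : ℝ) ^ 4 ≤ 2 * (R : ℝ) ^ 4 := by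
              have : (R : ℝ) ≤ (R : ℝ) ^ 4 := le_self_pow₀ hR1 (by norm_num)
              (clear * - this; linarith)
            have h3 : (M.totient : ℝ) * Real.log N ≤ M * (40 * R) :=
              mul_le_mul hphiM (hlog.trans (by (clear * - hlogR'; linarith))) hlogN.le (by positivity)
            calc ((R : ℝ) + (R : ℝ) ^ 4) * (M.totient * Real.log N)
                ≤ (2 * (R : ℝ) ^ 4) * (M * (40 * R)) :=
                  mul_le_mul h2 h3 (by positivity) (by positivity)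
              _ = 80 * ((R : ℝ) ^ 5 * M) := by ring
              _ ≤ 80 * N := by (clear * - hRM; linarith)
          have hpos : (0 : ℝ) ≤ M.totient * Real.log N := by positivity
          calc X * (M.totient * Real.log N)
              ≤ (R + (N : ℝ) / (M.totient * Real.log R) + (R : ℝ) ^ 4) * (M.totient * Real.log N) :=
                mul_le_mul_of_nonneg_right h1 hpos
            _ = (N : ℝ) / (M.totient * Real.log R) * (M.totient * Real.log N) +
                ((R : ℝ) + (R : ℝ) ^ 4) * (M.totient * Real.log N) := by ring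
            _ ≤ 40 * N + 80 * N := add_le_add hmain herr
            _ ≤ 2 ^ 14 * N := by (clear * - hN0; nlinarith)

end Pool.Agent.Helper67.NX2

end

section

set_option autoImplicit false

open Finset

namespace Pool.Agent.Helper96.CPAP

open Pool.Agent.Helper44

theorem count_shift {p : ℕ → Prop} [DecidablePred p] {D : ℕ} (hp : ∀ n, p (n + D) ↔ p n) (n : ℕ) :
    Nat.count (fun k => p (D + k)) n = Nat.count p n := by
  induction n with
  | zero => simp
  | succ n ih =>
    rw [Nat.count_succ, Nat.count_succ, ih]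
    congr 1
    by_cases h : p n
    · rw [if_pos h, if_pos]
      rw [add_comm]; exact (hp n).mpr h
    · rw [if_neg h, if_neg]
      rw [add_comm]; exact fun h' => h ((hp n).mp h')

theorem count_periodic {p : ℕ → Prop} [DecidablePred p] {D : ℕ} (hp : ∀ n, p (n + D) ↔ p n)
    (Q r : ℕ) : Nat.count p (Q * D + r) = Q * Nat.count p D + Nat.count p r := by
  induction Q with
  | zero => simp
  | succ Q ih =>
    have e : (Q + 1) * D + r = D + (Q * D + r) := by ring
    rw [e, Nat.count_add, count_shift hp, ih]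
    ring

theorem count_periodic_bound {p : ℕ → Prop} [DecidablePred p] {D : ℕ} (hD : 0 < D)
    (hp : ∀ n, p (n + D) ↔ p n) (N : ℕ) :
    |(Nat.count p N : ℝ) - N * ((Nat.count p D : ℝ) / D)| ≤ Nat.count p D := by
  have hN : N = N / D * D + N % D := by rw [mul_comm]; exact (Nat.div_add_mod N D).symm
  have hlt : N % D < D := Nat.mod_lt _ hD
  have h1 : Nat.count p N = N / D * Nat.count p D + Nat.count p (N % D) := by
    conv_lhs => rw [hN]
    exact count_periodic hp _ _
  have h2 : Nat.count p (N % D) ≤ Nat.count p D := Nat.count_monotone p hlt.le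
  have hD0 : (0 : ℝ) < D := by exact_mod_cast hD
  set ρ : ℝ := (Nat.count p D : ℝ) with hρ
  have hρ0 : 0 ≤ ρ := by positivity
  have h3 : (Nat.count p N : ℝ) = (N / D : ℕ) * ρ + Nat.count p (N % D) := by
    rw [h1]; push_cast; ring
  have h4 : (N : ℝ) = (N / D : ℕ) * D + (N % D : ℕ) := by exact_mod_cast hN
  have h5 : (N : ℝ) * (ρ / D) = (N / D : ℕ) * ρ + (N % D : ℕ) * (ρ / D) := by
    conv_lhs => rw [h4]
    field_simp
  rw [h3, h5]
  have h6 : ((N % D : ℕ) : ℝ) ≤ D := by exact_mod_cast hlt.le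
  have h7 : 0 ≤ ((N % D : ℕ) : ℝ) * (ρ / D) := by positivity
  have h8 : ((N % D : ℕ) : ℝ) * (ρ / D) ≤ ρ := by
    calc ((N % D : ℕ) : ℝ) * (ρ / D) ≤ D * (ρ / D) :=
          mul_le_mul_of_nonneg_right h6 (by positivity)
      _ = ρ := by field_simp
  have h9 : (Nat.count p (N % D) : ℝ) ≤ ρ := by rw [hρ]; exact_mod_cast h2
  have h10 : (0 : ℝ) ≤ Nat.count p (N % D) := by positivity
  rw [abs_le]
  constructor <;> linarith

end Pool.Agent.Helper96.CPAP

end

section

set_option autoImplicit false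

open Finset

namespace Pool.Agent.Helper59.NX

/-- Falling factorials. -/
noncomputable def ff (γ : ℝ) (j : ℕ) : ℝ := ∏ r ∈ range j, (γ - r)

theorem ff_succ (γ : ℝ) (j : ℕ) : ff γ (j + 1) = ff γ j * (γ - j) := prod_range_succ _ _

theorem ff_ne_zero {γ : ℝ} (h : ∀ n : ℕ, γ ≠ n) (j : ℕ) : ff γ j ≠ 0 :=
  prod_ne_zero_iff.mpr fun r _ => sub_ne_zero.mpr (h r)

theorem ff_add (γ : ℝ) (K l : ℕ) :
    ff γ (K + l) = ff γ K * (descPochhammer ℝ l).eval (γ - K) := by
  unfold ff
  rw [prod_range_add, descPochhammer_eval_eq_prod_range]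
  congr 1
  apply prod_congr rfl
  intro r _
  push_cast
  ring

/-- The matrix of the falling factorials is invertible. -/
theorem lin_lower {m : ℕ} (hm : 0 < m) (γ : Fin m → ℝ) (hinj : Function.Injective γ)
    (hγ : ∀ i (n : ℕ), γ i ≠ n) (K : ℕ) : ∃ c : ℝ, 0 < c ∧ ∀ w : Fin m → ℝ,
      ∃ l : Fin m, c * ‖w‖ ≤ |∑ i, ff (γ i) (K + l) * w i| := by
  classical
  set M : Matrix (Fin m) (Fin m) ℝ := Matrix.of fun l i => ff (γ i) (K + l) with hM
  have hker : ∀ w : Fin m → ℝ, M.mulVec w = 0 → w = 0 := by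
    intro w hw
    have hdet : (Matrix.of fun (i j : Fin m) =>
        ((descPochhammer ℝ j).eval (γ i - K))).det ≠ 0 := by
      rw [← Matrix.det_eval_matrixOfPolynomials_eq_det_vandermonde (fun i => γ i - K)
        (fun j : Fin m => descPochhammer ℝ j) (fun i => descPochhammer_natDegree _ _)
        (fun i => monic_descPochhammer ℝ _)]
      rw [Matrix.det_vandermonde_ne_zero_iff]
      intro i j h
      exact hinj (by simpa using h)
    rw [← Matrix.det_transpose] at hdet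
    have h1 := Matrix.eq_zero_of_mulVec_eq_zero hdet (v := fun i => ff (γ i) K * w i) (by
      funext l
      have h2 := congrFun hw l
      simp only [Matrix.mulVec, dotProduct, hM, Matrix.of_apply, Pi.zero_apply,
        Matrix.transpose_apply] at h2 ⊢
      rw [← h2]
      apply sum_congr rfl
      intro i _
      rw [ff_add]
      ring)
    funext i
    have h3 := congrFun h1 i
    simp only [Pi.zero_apply, mul_eq_zero] at h3
    exact h3.resolve_left (ff_ne_zero (hγ i) K)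
  obtain ⟨C, hC, hA⟩ := LinearMap.exists_antilipschitzWith (Matrix.mulVecLin M) (by
    rw [LinearMap.ker_eq_bot']
    intro w hw
    exact hker w (by simpa using hw))
  have hC' : (0 : ℝ) < C := by exact_mod_cast hC
  refine ⟨1 / (2 * C), by (clear * - hC; positivity), fun w => ?_⟩
  rcases eq_or_ne w 0 with h0 | h0
  · refine ⟨⟨0, hm⟩, ?_⟩
    rw [h0, norm_zero, mul_zero]
    exact abs_nonneg _
  · by_contra hcon
    exact by
      push Not at hcon
      have hw : 0 < ‖w‖ := norm_pos_iff.mpr h0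
      have h1 : ‖M.mulVec w‖ < 1 / (2 * C) * ‖w‖ := by
        rw [pi_norm_lt_iff (by (clear * - hC h0; positivity))]
        intro l
        rw [Real.norm_eq_abs]
        exact hcon l
      have h2 := hA.le_mul_dist w 0
      rw [dist_zero_right, map_zero, dist_zero_right, Matrix.mulVecLin_apply] at h2
      have h3 : (C : ℝ) * ‖M.mulVec w‖ < C * (1 / (2 * C) * ‖w‖) := mul_lt_mul_of_pos_left h1 hC'
      have h4 : (C : ℝ) * (1 / (2 * C) * ‖w‖) = ‖w‖ / 2 := by (clear * - hC h0; field_simp)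
      linarith

/-- The derivatives of `∑ v_i t^γ_i`. -/
noncomputable def Phi {m : ℕ} (γ v : Fin m → ℝ) (j : ℕ) (t : ℝ) : ℝ :=
  ∑ i, v i * ff (γ i) j * t ^ (γ i - j)

theorem Phi_zero {m : ℕ} (γ v : Fin m → ℝ) (t : ℝ) : Phi γ v 0 t = ∑ i, v i * t ^ (γ i) := by
  unfold Phi ff
  simp

theorem Phi_hasDerivAt {m : ℕ} (γ v : Fin m → ℝ) (j : ℕ) {t : ℝ} (ht : 0 < t) :
    HasDerivAt (Phi γ v j) (Phi γ v (j + 1) t) t := by
  unfold Phi
  have h : ∀ i ∈ (univ : Finset (Fin m)), HasDerivAt (fun t : ℝ => v i * ff (γ i) j * t ^ (γ i - j))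
      (v i * ff (γ i) (j + 1) * t ^ (γ i - ((j + 1 : ℕ) : ℝ))) t := by
    intro i _
    have h1 := (Real.hasDerivAt_rpow_const (x := t) (p := γ i - j) (Or.inl ht.ne')).const_mul
      (v i * ff (γ i) j)
    have e : v i * ff (γ i) (j + 1) * t ^ (γ i - ((j + 1 : ℕ) : ℝ)) =
        v i * ff (γ i) j * ((γ i - j) * t ^ (γ i - j - 1)) := by
      rw [ff_succ]
      push_cast
      rw [show γ i - ((j : ℝ) + 1) = γ i - j - 1 by ring]
      ring
    rw [e]
    exact h1
  have := HasDerivAt.fun_sum h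
  exact this

theorem rpow_bounds {L t : ℝ} (h1 : 1 ≤ t) (h2 : t ≤ L) {g G : ℝ} (hg : |g| ≤ G) :
    L ^ (-G) ≤ t ^ g ∧ t ^ g ≤ L ^ G := by
  have hG : 0 ≤ G := (abs_nonneg g).trans hg
  have hL : 1 ≤ L := h1.trans h2
  constructor
  · calc L ^ (-G) ≤ t ^ (-G) := Real.rpow_le_rpow_of_nonpos (by linarith) h2 (by linarith)
      _ ≤ t ^ g := Real.rpow_le_rpow_of_exponent_le h1 (by (clear * - hg; linarith [neg_abs_le g]))
  · calc t ^ g ≤ t ^ G := Real.rpow_le_rpow_of_exponent_le h1 ((le_abs_self g).trans hg)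
      _ ≤ L ^ G := Real.rpow_le_rpow (by (clear * - h1; linarith)) h2 hG

/-- Bounds for the derivatives. -/
theorem Phi_bounds {m : ℕ} (hm : 0 < m) (γ : Fin m → ℝ) (hinj : Function.Injective γ)
    (hγ : ∀ i (n : ℕ), γ i ≠ n) (K : ℕ) (L : ℝ) (hL : 1 ≤ L) :
    ∃ c C : ℝ, 0 < c ∧ c ≤ 1 ∧ 1 ≤ C ∧ ∀ v : Fin m → ℝ, ∀ t : ℝ, 1 ≤ t → t ≤ L →
      (∃ l : Fin m, c * ‖v‖ ≤ |Phi γ v (K + l) t|) ∧
      ∀ j ≤ K + m, |Phi γ v j t| ≤ C * ‖v‖ := by
  obtain ⟨c1, hc1, h1⟩ := lin_lower hm γ hinj hγ K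
  have hL0 : 0 < L := by (clear * - hL; linarith)
  have hg : ∀ i, |γ i| ≤ ‖γ‖ := fun i => norm_le_pi_norm γ i
  set c2 : ℝ := c1 * L ^ (-‖γ‖) * L ^ (-((K + m : ℕ) : ℝ)) with hc2
  have hc2' : 0 < c2 := by
    rw [hc2]
    have := Real.rpow_pos_of_pos hL0 (-‖γ‖)
    have := Real.rpow_pos_of_pos hL0 (-((K + m : ℕ) : ℝ))
    (clear * - hc1 hL; positivity)
  set C1 : ℝ := L ^ ‖γ‖ * ∑ j ∈ range (K + m + 1), ∑ i, |ff (γ i) j| with hC1
  refine ⟨min c2 1, max C1 1, lt_min hc2' one_pos, min_le_right _ _, le_max_right _ _,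
    fun v t ht htL => ⟨?_, ?_⟩⟩
  · have ht0 : 0 < t := by (clear * - ht; linarith)
    exact by
      obtain ⟨l, hl⟩ := h1 (fun i => v i * t ^ (γ i))
      refine ⟨l, ?_⟩
      have e : Phi γ v (K + l) t =
          t ^ (-((K + l : ℕ) : ℝ)) * ∑ i, ff (γ i) (K + l) * (v i * t ^ (γ i)) := by
        unfold Phi
        rw [mul_sum]
        apply sum_congr rfl
        intro i _
        rw [sub_eq_add_neg, Real.rpow_add ht0]
        ring
      rw [e, abs_mul, abs_of_pos (Real.rpow_pos_of_pos ht0 _)]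
      have e1 : L ^ (-((K + m : ℕ) : ℝ)) ≤ t ^ (-((K + l : ℕ) : ℝ)) := by
        refine (rpow_bounds ht htL ?_).1
        rw [abs_neg, abs_of_nonneg (by (clear * -; positivity))]
        exact_mod_cast Nat.add_le_add_left l.2.le K
      have e2 : L ^ (-‖γ‖) * ‖v‖ ≤ ‖(fun i => v i * t ^ (γ i) : Fin m → ℝ)‖ := by
        rw [← le_div_iff₀' (Real.rpow_pos_of_pos hL0 _), pi_norm_le_iff_of_nonneg
          (div_nonneg (norm_nonneg _) (Real.rpow_pos_of_pos hL0 _).le)]
        intro i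
        rw [le_div_iff₀' (Real.rpow_pos_of_pos hL0 _)]
        refine le_trans ?_ (norm_le_pi_norm (fun i => v i * t ^ (γ i) : Fin m → ℝ) i)
        rw [norm_mul, Real.norm_eq_abs (t ^ γ i), abs_of_pos (Real.rpow_pos_of_pos ht0 _), mul_comm]
        exact mul_le_mul_of_nonneg_left (rpow_bounds ht htL (hg i)).1 (norm_nonneg _)
      calc min c2 1 * ‖v‖ ≤ c2 * ‖v‖ := mul_le_mul_of_nonneg_right (min_le_left _ _) (norm_nonneg _)
        _ = L ^ (-((K + m : ℕ) : ℝ)) * (c1 * (L ^ (-‖γ‖) * ‖v‖)) := by rw [hc2]; ring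
        _ ≤ L ^ (-((K + m : ℕ) : ℝ)) * (c1 * ‖(fun i => v i * t ^ (γ i) : Fin m → ℝ)‖) := by
            have := Real.rpow_pos_of_pos hL0 (-((K + m : ℕ) : ℝ))
            gcongr
        _ ≤ t ^ (-((K + l : ℕ) : ℝ)) * |∑ i, ff (γ i) (K + l) * (v i * t ^ (γ i))| := by
            refine mul_le_mul e1 hl ?_ (Real.rpow_pos_of_pos ht0 _).le
            (clear * - hc1; positivity)
  exact by
    · intro j hj
      exact by
        have ht0 : 0 < t := by (clear * - ht; linarith)
        unfold Phi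
        refine (abs_sum_le_sum_abs _ _).trans ?_
        have e1 : ∀ i ∈ (univ : Finset (Fin m)), |v i * ff (γ i) j * t ^ (γ i - j)| ≤
            ‖v‖ * L ^ ‖γ‖ * |ff (γ i) j| := by
          intro i _
          rw [abs_mul, abs_mul, abs_of_pos (Real.rpow_pos_of_pos ht0 _)]
          have e2 : t ^ (γ i - j) ≤ L ^ ‖γ‖ := by
            refine le_trans ?_ (rpow_bounds ht htL (hg i)).2
            exact Real.rpow_le_rpow_of_exponent_le ht (by (clear * -; linarith [Nat.cast_nonneg (α := ℝ) j]))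
          have e3 : |v i| ≤ ‖v‖ := norm_le_pi_norm v i
          calc |v i| * |ff (γ i) j| * t ^ (γ i - j) ≤ ‖v‖ * |ff (γ i) j| * L ^ ‖γ‖ := by
                (clear * - e3 e2 ht; gcongr)
            _ = ‖v‖ * L ^ ‖γ‖ * |ff (γ i) j| := by ring
        refine (sum_le_sum e1).trans ?_
        rw [← mul_sum]
        have e4 : ∑ i, |ff (γ i) j| ≤ ∑ j ∈ range (K + m + 1), ∑ i, |ff (γ i) j| :=
          single_le_sum (f := fun j => ∑ i, |ff (γ i) j|)
            (fun j _ => sum_nonneg fun i _ => abs_nonneg _) (mem_range.mpr (by omega))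
        calc ‖v‖ * L ^ ‖γ‖ * ∑ i, |ff (γ i) j|
            ≤ ‖v‖ * L ^ ‖γ‖ * ∑ j ∈ range (K + m + 1), ∑ i, |ff (γ i) j| := by
              have := Real.rpow_pos_of_pos hL0 ‖γ‖
              (clear * - e4 hL; gcongr)
          _ = C1 * ‖v‖ := by rw [hC1]; ring
          _ ≤ max C1 1 * ‖v‖ := mul_le_mul_of_nonneg_right (le_max_left _ _) (norm_nonneg _)

end Pool.Agent.Helper59.NX

end

section

set_option autoImplicit false

open Finset

open scoped BigOperators ComplexConjugate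

namespace Pool.Agent.Helper59.NX

/-- The function `∑ v_i ((x+ρ)/D)^γ_i + p(x)` and its derivatives. -/
noncomputable def GG {m : ℕ} (γ v : Fin m → ℝ) (D ρ : ℝ) (p : Polynomial ℝ) (s : ℝ) (j : ℕ)
    (x : ℝ) : ℝ :=
  s * ((D⁻¹) ^ j * Phi γ v j ((x + ρ) / D) + (Polynomial.derivative^[j] p).eval x)

theorem GG_hasDerivAt {m : ℕ} (γ v : Fin m → ℝ) (D ρ : ℝ) (hD : 0 < D) (p : Polynomial ℝ) (s : ℝ)
    (j : ℕ) {x : ℝ} (hx : 0 < x + ρ) :
    HasDerivAt (GG γ v D ρ p s j) (GG γ v D ρ p s (j + 1) x) x := by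
  unfold GG
  have h1 : HasDerivAt (fun x : ℝ => (x + ρ) / D) (1 / D) x :=
    ((hasDerivAt_id x).add_const ρ).div_const D
  have h2 : HasDerivAt (fun x : ℝ => Phi γ v j ((x + ρ) / D))
      (Phi γ v (j + 1) ((x + ρ) / D) * (1 / D)) x :=
    HasDerivAt.comp (h₂ := Phi γ v j) (h := fun x : ℝ => (x + ρ) / D) x
      (Phi_hasDerivAt γ v j (div_pos hx hD)) h1
  have h3 : HasDerivAt (fun x : ℝ => (Polynomial.derivative^[j] p).eval x)
      ((Polynomial.derivative^[j + 1] p).eval x) x := by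
    rw [Function.iterate_succ_apply']
    exact Polynomial.hasDerivAt _ x
  have h4 := ((h2.const_mul ((D⁻¹) ^ j)).add h3).const_mul s
  have e : s * ((D⁻¹) ^ (j + 1) * Phi γ v (j + 1) ((x + ρ) / D) +
      (Polynomial.derivative^[j + 1] p).eval x) =
      s * ((D⁻¹) ^ j * (Phi γ v (j + 1) ((x + ρ) / D) * (1 / D)) +
      (Polynomial.derivative^[j + 1] p).eval x) := by
    rw [pow_succ]
    ring
  rw [e]
  exact h4

end Pool.Agent.Helper59.NX

end
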