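import Pool.Agent.Helper23.MC.Inst

/-!
Parts of Helper67.NX2.Defs, Helper73.NX2.LpLocalOf, Helper87.NX.DlA, Helper40.NX2.IGBasic, Helper82.NX.VdC, Helper90.NX2.LocalMainOf, Helper67.NX2.PartB, Helper57.NX3.Defs, Helper44.Bonferroni, Helper44.BrunHooley, Helper96.CPAP.BHk, Helper57.NX3.PatSize, Helper61.NX.Pattern, Helper40.NX3.EnLeOf, Helper57.NX3.PatFinal, Helper57.FP.Final, Helper68.NX3.FinalAll
-/

attribute [local instance 5000]
  Pool.Agent.Helper23.MC.Inst.rCharZero Pool.Agent.Helper23.MC.Inst.rALM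
  Pool.Agent.Helper23.MC.Inst.rARM Pool.Agent.Helper23.MC.Inst.rALSM
  Pool.Agent.Helper23.MC.Inst.rARSM Pool.Agent.Helper23.MC.Inst.rARRLE
  Pool.Agent.Helper23.MC.Inst.rALRLE Pool.Agent.Helper23.MC.Inst.rARRLT
  Pool.Agent.Helper23.MC.Inst.rALRLT Pool.Agent.Helper23.MC.Inst.rPMRLT
  Pool.Agent.Helper23.MC.Inst.rMPRLT Pool.Agent.Helper23.MC.Inst.rPMM
  Pool.Agent.Helper23.MC.Inst.rMPM Pool.Agent.Helper23.MC.Inst.rPMSM
  Pool.Agent.Helper23.MC.Inst.rMPSM Pool.Agent.Helper23.MC.Inst.rEAOL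
  Pool.Agent.Helper23.MC.Inst.rIOR Pool.Agent.Helper23.MC.Inst.rISOR
  Pool.Agent.Helper23.MC.Inst.rNZD Pool.Agent.Helper23.MC.Inst.rcCharZero
  Pool.Agent.Helper23.MC.Inst.rcNZD Pool.Agent.Helper23.MC.Inst.zCharZero
  Pool.Agent.Helper23.MC.Inst.zALM Pool.Agent.Helper23.MC.Inst.zARM
  Pool.Agent.Helper23.MC.Inst.zALSM Pool.Agent.Helper23.MC.Inst.zARSM
  Pool.Agent.Helper23.MC.Inst.zIOR Pool.Agent.Helper23.MC.Inst.zISOR
  Pool.Agent.Helper23.MC.Inst.zNZD Pool.Agent.Helper23.MC.Inst.qCharZero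
  Pool.Agent.Helper23.MC.Inst.mR Pool.Agent.Helper23.MC.Inst.mC Pool.Agent.Helper23.MC.Inst.mRC
  Pool.Agent.Helper23.MC.Inst.rPSM Pool.Agent.Helper23.MC.Inst.rCSM
  Pool.Agent.Helper23.MC.Inst.cAdd Pool.Agent.Helper23.MC.Inst.cAddM
  Pool.Agent.Helper23.MC.Inst.cMul Pool.Agent.Helper23.MC.Inst.cMon

namespace Pool.Agent.Helper44
end Pool.Agent.Helper44
namespace Pool.Agent.Helper57.FP
end Pool.Agent.Helper57.FP
namespace Pool.Agent.Helper57.NX
end Pool.Agent.Helper57.NX
namespace Pool.Agent.Helper67.NX2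
end Pool.Agent.Helper67.NX2

section

set_option autoImplicit false

open Finset

open scoped BigOperators ComplexConjugate

namespace Pool.Agent.Helper67.NX2

open Pool.Agent.Helper57.NX

noncomputable section

/-- exponents at least `2`, with gaps at least `2` -/
structure Ex {m : ℕ} (c : Fin m → ℝ) : Prop where
  two : ∀ i, 2 ≤ c i
  gap : ∀ i j, i < j → c i + 2 ≤ c j

end

end Pool.Agent.Helper67.NX2

end

section

set_option autoImplicit false

open Finset

open scoped BigOperators ComplexConjugate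

namespace Pool.Agent.Helper67.NX2

open Pool.Agent.Helper57.NX

noncomputable section

theorem lpl2_strictMono {m : ℕ} {c : Fin m → ℝ} (h : Ex c) : StrictMono c :=
  fun i j hij => by (clear * - h hij; linarith [h.gap i j hij])

end

end Pool.Agent.Helper67.NX2

end

section

set_option autoImplicit false

open Finset

open scoped BigOperators ComplexConjugate

namespace Pool.Agent.Helper57.NX

noncomputable section

section dla_num

theorem dla_num4 {δ : ℝ} (h0 : 0 < δ) (h1 : δ ≤ 1 / 2) (n k n2 : ℕ) (h2 : 2 * n + 2 * k + 4 ≤ n2)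
    {Y : ℝ} (hY : 0 < Y) :
    2 ^ k * (8 * (1 + 2 ^ k * δ⁻¹ ^ n) / (δ ^ n * Y)) ≤ δ⁻¹ ^ n2 / Y := by
  have hi : (2 : ℝ) ≤ δ⁻¹ := by
    rw [le_inv_comm₀ (by norm_num) h0]
    (clear * - h1; linarith)
  have hi1 : (1 : ℝ) ≤ δ⁻¹ := by (clear * - h0 h1 hi; linarith)
  have h3 : δ⁻¹ ^ (2 * n + 2 * k + 4) ≤ δ⁻¹ ^ n2 := pow_le_pow_right₀ hi1 h2
  have h4 : (2 : ℝ) ^ (2 * k + 4) ≤ δ⁻¹ ^ (2 * k + 4) := pow_le_pow_left₀ (by norm_num) hi _
  have h5 : (1 : ℝ) ≤ 2 ^ k * δ⁻¹ ^ n := by
    have h6 : (1 : ℝ) ≤ 2 ^ k := one_le_pow₀ (by norm_num)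
    have h7 : (1 : ℝ) ≤ δ⁻¹ ^ n := one_le_pow₀ hi1
    calc (1 : ℝ) = 1 * 1 := by ring
      _ ≤ _ := mul_le_mul h6 h7 (by norm_num) (by positivity)
  have hn : 0 < δ⁻¹ ^ n := by (clear * - h0; positivity)
  have hinv : 1 / δ ^ n = δ⁻¹ ^ n := by
    rw [inv_pow, one_div]
  calc 2 ^ k * (8 * (1 + 2 ^ k * δ⁻¹ ^ n) / (δ ^ n * Y))
      = (2 ^ k * 8 * (1 + 2 ^ k * δ⁻¹ ^ n) * (1 / δ ^ n)) / Y := by
        (clear * - hY h0; field_simp)
    _ = (2 ^ k * 8 * (1 + 2 ^ k * δ⁻¹ ^ n) * δ⁻¹ ^ n) / Y := by rw [hinv]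
    _ ≤ (2 ^ k * 8 * (2 ^ k * δ⁻¹ ^ n + 2 ^ k * δ⁻¹ ^ n) * δ⁻¹ ^ n) / Y := by
        refine div_le_div_of_nonneg_right ?_ hY.le
        refine mul_le_mul_of_nonneg_right ?_ hn.le
        refine mul_le_mul_of_nonneg_left ?_ (by positivity)
        (clear * - h5; linarith)
    _ = (2 ^ (2 * k + 4) * δ⁻¹ ^ (2 * n)) / Y := by
        congr 1
        rw [pow_add, pow_mul', pow_mul' (δ⁻¹) 2 n]
        ring
    _ ≤ (δ⁻¹ ^ (2 * k + 4) * δ⁻¹ ^ (2 * n)) / Y := by
        refine div_le_div_of_nonneg_right ?_ hY.le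
        exact mul_le_mul_of_nonneg_right h4 (by positivity)
    _ = δ⁻¹ ^ (2 * n + 2 * k + 4) / Y := by
        rw [← pow_add]
        congr 2
        ring
    _ ≤ δ⁻¹ ^ n2 / Y := div_le_div_of_nonneg_right h3 hY.le

end dla_num

end

end Pool.Agent.Helper57.NX

end

section

set_option autoImplicit false

open Finset

open scoped BigOperators ComplexConjugate

namespace Pool.Agent.Helper67.NX2

open Pool.Agent.Helper57.NX

noncomputable section

section IGBasic

variable {N : ℕ} [NeZero N]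

theorem Ex.strictMono {m : ℕ} {c : Fin m → ℝ} (h : Ex c) : StrictMono c := by
  intro i j hij
  have := h.gap i j hij
  linarith

end IGBasic

end

end Pool.Agent.Helper67.NX2

end

section

set_option autoImplicit false

open Finset

open scoped BigOperators ComplexConjugate

namespace Pool.Agent.Helper57.NX

noncomputable section

theorem h82_shift (F : ℕ → ℂ) (B : ℝ) (hF : ∀ k, ‖F k‖ ≤ B) (u T j : ℕ) :
    ‖(∑ k ∈ Ico u (u + T), F (k + j)) - ∑ k ∈ Ico u (u + T), F k‖ ≤ 2 * j * B := by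
  induction j with
  | zero => simp
  | succ j ih =>
    have h1 : (∑ k ∈ Ico u (u + T), F (k + (j + 1))) - ∑ k ∈ Ico u (u + T), F (k + j) =
        F (u + T + j) - F (u + j) := by
      rw [Finset.sum_Ico_eq_sum_range, Finset.sum_Ico_eq_sum_range, Nat.add_sub_cancel_left]
      have h2 := Finset.sum_range_succ (fun i => F (u + i + j)) T
      have h3 := Finset.sum_range_succ' (fun i => F (u + i + j)) T
      have h4 : ∑ k ∈ range T, F (u + k + (j + 1)) = ∑ k ∈ range T, F (u + (k + 1) + j) :=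
        Finset.sum_congr rfl fun k _ => by congr 1; ring
      rw [h4]
      rw [h2] at h3
      simp only [add_zero] at h3
      linear_combination -h3
    have h2 : (∑ k ∈ Ico u (u + T), F (k + (j + 1))) - ∑ k ∈ Ico u (u + T), F k =
        (F (u + T + j) - F (u + j)) +
          ((∑ k ∈ Ico u (u + T), F (k + j)) - ∑ k ∈ Ico u (u + T), F k) := by
      rw [← h1]; ring
    rw [h2]
    refine (norm_add_le _ _).trans ?_
    have h3 := (norm_sub_le (F (u + T + j)) (F (u + j))).trans (add_le_add (hF _) (hF _))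
    push_cast
    linarith

theorem h82_count (Bad : Finset ℕ) (M j : ℕ) :
    ((range M).filter fun j' => (j' - j) + (j - j') ∈ Bad).card ≤ 2 * Bad.card := by
  have h1 : ((range M).filter fun j' => (j' - j) + (j - j') ∈ Bad) ⊆
      Bad.image (fun b => j + b) ∪ Bad.image (fun b => j - b) := by
    intro x hx
    rw [Finset.mem_filter] at hx
    rw [Finset.mem_union, Finset.mem_image, Finset.mem_image]
    rcases le_total j x with h | h
    · exact Or.inl ⟨_, hx.2, by omega⟩
    · exact Or.inr ⟨_, hx.2, by omega⟩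
  refine (Finset.card_le_card h1).trans ((Finset.card_union_le _ _).trans ?_)
  have h2 := Finset.card_image_le (s := Bad) (f := fun b => j + b)
  have h3 := Finset.card_image_le (s := Bad) (f := fun b => j - b)
  omega

theorem vdc_step {N : ℕ} [NeZero N] (u T M : ℕ) (δ : ℝ) (hδ0 : 0 < δ) (hδ1 : δ ≤ 1)
    (f0 : ZMod N → ℂ) (hf0 : ∀ x, ‖f0 x‖ ≤ 1) (v : ℕ → ZMod N → ℂ) (hv : ∀ k x, ‖v k x‖ ≤ 1)
    (hM : 16 / δ ^ 2 ≤ M) (hMT : (M : ℝ) ≤ δ ^ 2 * T / 64)
    (Bad : Finset ℕ) (hBad : (Bad.card : ℝ) ≤ δ ^ 2 * M / 32)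
    (h : δ ≤ ‖𝔼 k ∈ Ico u (u + T), 𝔼 x, f0 x * v k x‖) :
    ∃ s : ℕ, 1 ≤ s ∧ s < M ∧ s ∉ Bad ∧
      δ ^ 2 / 4 ≤ ‖𝔼 k ∈ Ico u (u + T), 𝔼 x, v k x * conj (v (k + s) x)‖ := by
  by_contra hc
  push Not at hc
  have hNpos : (0 : ℝ) < N := by exact_mod_cast Nat.pos_of_ne_zero (NeZero.ne N)
  have hMpos : (0 : ℝ) < M := lt_of_lt_of_le (by positivity) hM
  have hTpos : (0 : ℝ) < T := by
    by_contra hT
    have : (T : ℝ) = 0 := le_antisymm (not_lt.mp hT) (Nat.cast_nonneg _)
    rw [this] at hMT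
    (clear * - hMT hMpos; linarith)
  -- averages as sums
  have hE : ∀ g : ℕ → ZMod N → ℂ, ‖𝔼 k ∈ Ico u (u + T), 𝔼 x, g k x‖ =
      ‖∑ k ∈ Ico u (u + T), ∑ x, g k x‖ / (N * T) := by
    intro g
    have h1 : ∀ k, (𝔼 x, g k x) = (∑ x, g k x) / (N : ℂ) := by
      intro k
      rw [Finset.expect_eq_sum_div_card]
      simp [ZMod.card]
    simp only [h1]
    rw [Finset.expect_eq_sum_div_card, ← Finset.sum_div, Nat.card_Ico]
    simp only [Nat.add_sub_cancel_left, norm_div, Complex.norm_natCast]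
    rw [div_div]
  -- the vectors
  set c : ℕ → ℕ → ℂ := fun a b => ∑ x, v a x * conj (v b x) with hcdef
  have hcard : (∑ _x : ZMod N, (1 : ℝ)) = N := by simp [ZMod.card]
  exact by
    have hcb : ∀ a b, ‖c a b‖ ≤ N := by
      intro a b
      refine (norm_sum_le _ _).trans ?_
      rw [← hcard]
      refine Finset.sum_le_sum fun x _ => ?_
      rw [norm_mul, RCLike.norm_conj]
      exact mul_le_one₀ (hv _ _) (norm_nonneg _) (hv _ _)
    set R : ℕ → ℕ → ℂ := fun j j' => ∑ k ∈ Ico u (u + T), c (k + j) (k + j') with hR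
    have hRb : ∀ j j', ‖R j j'‖ ≤ N * T := by
      intro j j'
      refine (norm_sum_le _ _).trans ?_
      refine (Finset.sum_le_sum fun k _ => hcb _ _).trans ?_
      rw [Finset.sum_const, Nat.card_Ico, Nat.add_sub_cancel_left, nsmul_eq_mul]
      (clear * -; linarith [mul_comm (N : ℝ) T])
    have hRsymm : ∀ j j', ‖R j j'‖ = ‖R j' j‖ := by
      intro j j'
      have : R j j' = conj (R j' j) := by
        simp only [hR, hcdef, map_sum, map_mul, Complex.conj_conj]
        exact Finset.sum_congr rfl fun k _ => Finset.sum_congr rfl fun x _ => mul_comm _ _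
      rw [this, RCLike.norm_conj]
    have hR0 : ∀ s, 1 ≤ s → s < M → s ∉ Bad → ‖R 0 s‖ ≤ N * T * (δ ^ 2 / 4) := by
      intro s h1 h2 h3
      have h4 := hc s h1 h2 h3
      rw [hE, div_lt_iff₀ (by (clear * - hNpos hTpos; positivity))] at h4
      have h5 : R 0 s = ∑ k ∈ Ico u (u + T), ∑ x, v k x * conj (v (k + s) x) := rfl
      rw [h5]
      (clear * - h4; linarith)
    have hRle : ∀ j j', j ≤ j' → j < M → ‖R j j'‖ ≤ ‖R 0 (j' - j)‖ + 2 * M * N := by
      intro j j' hj hjM
      have h1 := h82_shift (fun k => c k (k + (j' - j))) N (fun k => hcb _ _) u T j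
      have h2 : ∑ k ∈ Ico u (u + T), c (k + j) (k + j + (j' - j)) = R j j' :=
        Finset.sum_congr rfl fun k _ => by congr 1; omega
      have h3 : ∑ k ∈ Ico u (u + T), c k (k + (j' - j)) = R 0 (j' - j) := rfl
      have h1 : ‖(∑ k ∈ Ico u (u + T), c (k + j) (k + j + (j' - j))) -
          ∑ k ∈ Ico u (u + T), c k (k + (j' - j))‖ ≤ 2 * j * N := h1
      rw [h2, h3] at h1
      have h4 : ‖R j j'‖ ≤ ‖R 0 (j' - j)‖ + ‖R j j' - R 0 (j' - j)‖ := by
        have := norm_add_le (R 0 (j' - j)) (R j j' - R 0 (j' - j))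
        rwa [add_sub_cancel] at this
      have h5 : (2 : ℝ) * j * N ≤ 2 * M * N := by
        have : (j : ℝ) ≤ M := by exact_mod_cast hjM.le
        (clear * - this; nlinarith)
      (clear * - h1 h4 h5; linarith)
    exact by
      have hRall : ∀ j ∈ range M, ∀ j' ∈ range M, ‖R j j'‖ ≤
          (if j' = j then (N * T : ℝ) else 0) +
          (if (j' - j) + (j - j') ∈ Bad then (N * T : ℝ) else 0) +
          (N * T * (δ ^ 2 / 4) + 2 * M * N) := by
        intro j hj j' hj'
        rw [Finset.mem_range] at hj hj'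
        have hp1 : (0 : ℝ) ≤ N * T := by positivity
        have hp2 : (0 : ℝ) ≤ N * T * (δ ^ 2 / 4) + 2 * M * N := by (clear * - hNpos hTpos hδ0 hMpos; positivity)
        by_cases h1 : j' = j
        · rw [if_pos h1]
          have := hRb j j'
          split_ifs <;> (clear * - hp1 hp2 this; linarith)
        · rw [if_neg h1]
          exact by
            by_cases h2 : (j' - j) + (j - j') ∈ Bad
            · rw [if_pos h2]
              have := hRb j j'
              (clear * - hp2 this; linarith)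
            · rw [if_neg h2]
              exact by
                rcases le_total j j' with h3 | h3
                · have h4 := hRle j j' h3 hj
                  have h5 := hR0 (j' - j) (by omega) (by omega) (by
                    have : (j' - j) + (j - j') = j' - j := by omega
                    rwa [this] at h2)
                  (clear * - h4 h5; linarith)
                · rw [hRsymm]
                  have h4 := hRle j' j h3 hj'
                  have h5 := hR0 (j - j') (by omega) (by omega) (by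
                    have : (j' - j) + (j - j') = j - j' := by omega
                    rwa [this] at h2)
                  (clear * - h4 h5; linarith)
      have hRsum : ∑ j ∈ range M, ∑ j' ∈ range M, ‖R j j'‖ ≤
          M * (N * T) + M * (2 * Bad.card * (N * T)) + M * (M * (N * T * (δ ^ 2 / 4) + 2 * M * N)) := by
        have h1 : ∀ j ∈ range M, ∑ j' ∈ range M, ‖R j j'‖ ≤
            N * T + 2 * Bad.card * (N * T) + M * (N * T * (δ ^ 2 / 4) + 2 * M * N) := by
          intro j hj
          refine (Finset.sum_le_sum (hRall j hj)).trans ?_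
          rw [Finset.sum_add_distrib, Finset.sum_add_distrib, Finset.sum_const, card_range,
            nsmul_eq_mul, Finset.sum_ite_eq' (range M) j, if_pos hj, ← Finset.sum_filter,
            Finset.sum_const, nsmul_eq_mul]
          have h2 : ((((range M).filter fun j' => (j' - j) + (j - j') ∈ Bad).card : ℕ) : ℝ) ≤
              2 * Bad.card := by exact_mod_cast h82_count Bad M j
          have h3 : (0 : ℝ) ≤ N * T := by (clear * - hNpos hTpos; positivity)
          have := mul_le_mul_of_nonneg_right h2 h3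
          linarith
        refine (Finset.sum_le_sum h1).trans ?_
        rw [Finset.sum_const, card_range, nsmul_eq_mul]
        ring_nf
        rfl
      -- the sums over windows
      set Wn : ℕ → ZMod N → ℂ := fun k x => ∑ j ∈ range M, v (k + j) x with hWn
      have hW1 : ∑ k ∈ Ico u (u + T), ∑ x, ‖Wn k x‖ ^ 2 ≤ ∑ j ∈ range M, ∑ j' ∈ range M, ‖R j j'‖ := by
        have h1 : ((∑ k ∈ Ico u (u + T), ∑ x, ‖Wn k x‖ ^ 2 : ℝ) : ℂ) =
            ∑ j ∈ range M, ∑ j' ∈ range M, R j j' := by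
          have h2 : ∀ k x, ((‖Wn k x‖ ^ 2 : ℝ) : ℂ) =
              ∑ j ∈ range M, ∑ j' ∈ range M, v (k + j) x * conj (v (k + j') x) := by
            intro k x
            rw [Complex.ofReal_pow, ← Complex.mul_conj', hWn, map_sum, Finset.sum_mul_sum]
          push_cast [h2]
          have h3 : ∀ k, ∑ x : ZMod N, ∑ j ∈ range M, ∑ j' ∈ range M,
              v (k + j) x * conj (v (k + j') x) = ∑ j ∈ range M, ∑ j' ∈ range M, c (k + j) (k + j') := by
            intro k
            rw [Finset.sum_comm]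
            refine Finset.sum_congr rfl fun j _ => ?_
            rw [Finset.sum_comm]
          simp only [h3]
          rw [Finset.sum_comm]
          refine Finset.sum_congr rfl fun j _ => ?_
          rw [Finset.sum_comm]
        have h2 : ‖((∑ k ∈ Ico u (u + T), ∑ x, ‖Wn k x‖ ^ 2 : ℝ) : ℂ)‖ =
            ∑ k ∈ Ico u (u + T), ∑ x, ‖Wn k x‖ ^ 2 := by
          rw [Complex.norm_real, Real.norm_of_nonneg]
          (clear * -; positivity)
        rw [← h2, h1]
        refine (norm_sum_le _ _).trans (Finset.sum_le_sum fun j _ => norm_sum_le _ _)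
      have hcs : (∑ k ∈ Ico u (u + T), ∑ x, ‖Wn k x‖) ^ 2 ≤
          T * N * ∑ k ∈ Ico u (u + T), ∑ x, ‖Wn k x‖ ^ 2 := by
        rw [← Finset.sum_product', ← Finset.sum_product']
        refine (sq_sum_le_card_mul_sum_sq (s := Ico u (u + T) ×ˢ (univ : Finset (ZMod N)))
          (f := fun p => ‖Wn p.1 p.2‖)).trans ?_
        rw [Finset.card_product, Nat.card_Ico, Nat.add_sub_cancel_left]
        simp [ZMod.card]
      -- lower bound
      set F : ℕ → ℂ := fun k => ∑ x, f0 x * v k x with hF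
      exact by
        have hFb : ∀ k, ‖F k‖ ≤ N := by
          intro k
          refine (norm_sum_le _ _).trans ?_
          rw [← hcard]
          refine Finset.sum_le_sum fun x _ => ?_
          rw [norm_mul]
          exact mul_le_one₀ (hf0 _) (norm_nonneg _) (hv _ _)
        have hlow0 : δ * (N * T) ≤ ‖∑ k ∈ Ico u (u + T), F k‖ := by
          rw [hE, le_div_iff₀ (by (clear * - hNpos hTpos; positivity))] at h
          exact h
        have hlow1 : ‖(∑ j ∈ range M, ∑ k ∈ Ico u (u + T), F (k + j)) -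
            M * ∑ k ∈ Ico u (u + T), F k‖ ≤ M * (2 * M * N) := by
          have h1 : (∑ j ∈ range M, ∑ k ∈ Ico u (u + T), F (k + j)) -
              M * ∑ k ∈ Ico u (u + T), F k =
              ∑ j ∈ range M, ((∑ k ∈ Ico u (u + T), F (k + j)) - ∑ k ∈ Ico u (u + T), F k) := by
            rw [Finset.sum_sub_distrib, Finset.sum_const, card_range, nsmul_eq_mul]
          rw [h1]
          refine (norm_sum_le _ _).trans ?_
          have h2 : ∀ j ∈ range M, ‖(∑ k ∈ Ico u (u + T), F (k + j)) - ∑ k ∈ Ico u (u + T), F k‖ ≤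
              2 * M * N := by
            intro j hj
            refine (h82_shift F N hFb u T j).trans ?_
            have : (j : ℝ) ≤ M := by exact_mod_cast (Finset.mem_range.mp hj).le
            (clear * - this; nlinarith)
          refine (Finset.sum_le_sum h2).trans ?_
          rw [Finset.sum_const, card_range, nsmul_eq_mul]
        have hlow2 : M * (δ * (N * T)) - M * (2 * M * N) ≤ ∑ k ∈ Ico u (u + T), ∑ x, ‖Wn k x‖ := by
          have h1 : ∑ j ∈ range M, ∑ k ∈ Ico u (u + T), F (k + j) =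
              ∑ k ∈ Ico u (u + T), ∑ x, f0 x * Wn k x := by
            rw [Finset.sum_comm]
            refine Finset.sum_congr rfl fun k _ => ?_
            simp only [hF, hWn, Finset.mul_sum]
            rw [Finset.sum_comm]
          have h2 : ‖∑ j ∈ range M, ∑ k ∈ Ico u (u + T), F (k + j)‖ ≤
              ∑ k ∈ Ico u (u + T), ∑ x, ‖Wn k x‖ := by
            rw [h1]
            refine (norm_sum_le _ _).trans (Finset.sum_le_sum fun k _ => ?_)
            refine (norm_sum_le _ _).trans (Finset.sum_le_sum fun x _ => ?_)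
            rw [norm_mul]
            exact mul_le_of_le_one_left (norm_nonneg _) (hf0 x)
          have h3 : ‖(M : ℂ) * ∑ k ∈ Ico u (u + T), F k‖ ≤
              ‖∑ j ∈ range M, ∑ k ∈ Ico u (u + T), F (k + j)‖ + M * (2 * M * N) := by
            have := norm_sub_norm_le ((M : ℂ) * ∑ k ∈ Ico u (u + T), F k)
              (∑ j ∈ range M, ∑ k ∈ Ico u (u + T), F (k + j))
            rw [norm_sub_rev] at this
            (clear * - hlow1 this; linarith)
          rw [norm_mul, Complex.norm_natCast] at h3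
          have h4 : M * (δ * (N * T)) ≤ M * ‖∑ k ∈ Ico u (u + T), F k‖ :=
            mul_le_mul_of_nonneg_left hlow0 hMpos.le
          (clear * - h2 h3 h4; linarith)
        -- the contradiction
        have hδM : 1 ≤ δ ^ 2 * M / 16 := by
          rw [div_le_iff₀ (by positivity)] at hM
          rw [le_div_iff₀ (by norm_num)]
          (clear * - hM; linarith)
        have hlow3 : (31 / 32) * (δ * (M * N * T)) ≤ ∑ k ∈ Ico u (u + T), ∑ x, ‖Wn k x‖ := by
          refine le_trans ?_ hlow2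
          have h1 : 2 * (M : ℝ) ≤ δ * T / 32 := by
            have : δ ^ 2 * T ≤ δ * T := by
              have : δ ^ 2 ≤ δ := by (clear * - hδ0 hδ1; nlinarith)
              exact mul_le_mul_of_nonneg_right this hTpos.le
            (clear * - hMT this; linarith)
          have h2 : (M : ℝ) * (2 * M * N) ≤ M * (δ * T / 32 * N) := by
            refine mul_le_mul_of_nonneg_left ?_ hMpos.le
            exact mul_le_mul_of_nonneg_right h1 hNpos.le
          (clear * - h2; linarith)
        exact by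
          have hup : T * N * ∑ k ∈ Ico u (u + T), ∑ x, ‖Wn k x‖ ^ 2 ≤
              (13 / 32) * (δ * (M * N * T)) ^ 2 := by
            have h1 := (mul_le_mul_of_nonneg_left (hW1.trans hRsum)
              (show (0 : ℝ) ≤ T * N by (clear * - hTpos hNpos; positivity)))
            refine h1.trans ?_
            have e1 : (M : ℝ) * (N * T) ≤ (δ ^ 2 / 16) * (M ^ 2 * N * T) := by
              have := mul_le_mul_of_nonneg_right hδM (show (0 : ℝ) ≤ M * (N * T) by positivity)
              calc (M : ℝ) * (N * T) = 1 * (M * (N * T)) := (one_mul _).symm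
                _ ≤ δ ^ 2 * M / 16 * (M * (N * T)) := this
                _ = _ := by ring
            have e2 : (M : ℝ) * (2 * Bad.card * (N * T)) ≤ (δ ^ 2 / 16) * (M ^ 2 * N * T) := by
              have := mul_le_mul_of_nonneg_right hBad (show (0 : ℝ) ≤ 2 * (M * (N * T)) by (clear * - hMpos hNpos hTpos; positivity))
              calc (M : ℝ) * (2 * Bad.card * (N * T)) = Bad.card * (2 * (M * (N * T))) := by ring
                _ ≤ δ ^ 2 * M / 32 * (2 * (M * (N * T))) := this
                _ = _ := by ring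
            have e3 : (M : ℝ) * (M * (N * T * (δ ^ 2 / 4) + 2 * M * N)) ≤
                (δ ^ 2 / 4 + δ ^ 2 / 32) * (M ^ 2 * N * T) := by
              have := mul_le_mul_of_nonneg_right hMT (show (0 : ℝ) ≤ 2 * (M ^ 2 * N) by (clear * - hMpos hNpos; positivity))
              calc (M : ℝ) * (M * (N * T * (δ ^ 2 / 4) + 2 * M * N))
                  = δ ^ 2 / 4 * (M ^ 2 * N * T) + M * (2 * (M ^ 2 * N)) := by ring
                _ ≤ δ ^ 2 / 4 * (M ^ 2 * N * T) + δ ^ 2 * T / 64 * (2 * (M ^ 2 * N)) := by (clear * - this; linarith)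
                _ = _ := by ring
            calc (T : ℝ) * N * (M * (N * T) + M * (2 * Bad.card * (N * T)) +
                  M * (M * (N * T * (δ ^ 2 / 4) + 2 * M * N)))
                ≤ T * N * ((δ ^ 2 / 16) * (M ^ 2 * N * T) + (δ ^ 2 / 16) * (M ^ 2 * N * T) +
                  (δ ^ 2 / 4 + δ ^ 2 / 32) * (M ^ 2 * N * T)) := by
                  refine mul_le_mul_of_nonneg_left ?_ (by (clear * - hTpos hNpos; positivity))
                  (clear * - e1 e2 e3; linarith)
              _ = _ := by ring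
          have hX : 0 < δ * (M * N * T) := by (clear * - hδ0 hMpos hNpos hTpos; positivity)
          have h1 : ((31 / 32) * (δ * (M * N * T))) ^ 2 ≤
              (∑ k ∈ Ico u (u + T), ∑ x, ‖Wn k x‖) ^ 2 :=
            pow_le_pow_left₀ (by (clear * - hδ0 hMpos hNpos hTpos; positivity)) hlow3 2
          have h2 := (h1.trans hcs).trans hup
          (clear * - hcs hup h1 hX; nlinarith [pow_pos hX 2])

end

end Pool.Agent.Helper57.NX

end

section

set_option autoImplicit false

open Finset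

open scoped BigOperators ComplexConjugate

namespace Pool.Agent.Helper67.NX2

open Pool.Agent.Helper57.NX

noncomputable section

namespace LM

theorem term_bound {c C C1 V : ℝ} (hc : 0 < c) (hC : 0 < C) (hC1 : 0 < C1) (hV : 0 < V) (n : ℕ)
    (hn : 1 ≤ n) :
    ∃ B : ℝ, 0 < B ∧ ∀ t : ℝ, 1 ≤ t →
      C * (V * (C1 * (2 * Real.log t))) ^ n * t ^ (-c) ≤ B * t ^ (-(c / 2)) := by
  have hn0 : (0 : ℝ) < n := by exact_mod_cast hn
  set ε : ℝ := c / 2 / n with hε
  have hε0 : 0 < ε := by (clear * - hc hn; positivity)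
  refine ⟨C * (V * (C1 * (2 / ε))) ^ n, by (clear * - hC hV hC1 hc hn; positivity), ?_⟩
  intro t ht
  have ht0 : 0 < t := by (clear * - ht; linarith)
  have hlog0 : 0 ≤ Real.log t := Real.log_nonneg ht
  have h1 : Real.log t ≤ t ^ ε / ε := Real.log_le_rpow_div ht0.le hε0
  exact by
    have h2 : V * (C1 * (2 * Real.log t)) ≤ V * (C1 * (2 / ε)) * t ^ ε := by
      have : V * (C1 * (2 * Real.log t)) ≤ V * (C1 * (2 * (t ^ ε / ε))) := by gcongr
      refine this.trans (le_of_eq ?_)
      ring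
    have h3 : (V * (C1 * (2 * Real.log t))) ^ n ≤ (V * (C1 * (2 / ε)) * t ^ ε) ^ n :=
      pow_le_pow_left₀ (by (clear * - hV hC1 hlog0; positivity)) h2 n
    have h4 : (t ^ ε) ^ n = t ^ (c / 2) := by
      rw [← Real.rpow_natCast, ← Real.rpow_mul ht0.le]
      congr 1
      rw [hε]
      field_simp
    have h5 : t ^ (c / 2) * t ^ (-c) = t ^ (-(c / 2)) := by
      rw [← Real.rpow_add ht0]
      congr 1
      ring
    calc C * (V * (C1 * (2 * Real.log t))) ^ n * t ^ (-c)
        ≤ C * (V * (C1 * (2 / ε)) * t ^ ε) ^ n * t ^ (-c) := by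
          have : 0 ≤ t ^ (-c) := Real.rpow_nonneg ht0.le _
          (clear * - h3 hC ht; gcongr)
      _ = C * (V * (C1 * (2 / ε))) ^ n * (t ^ (c / 2) * t ^ (-c)) := by
          rw [mul_pow, h4]; ring
      _ = _ := by rw [h5]

theorem sum_bound {c C C1 V κ : ℝ} (hc : 0 < c) (hC : 0 < C) (hC1 : 0 < C1) (hV : 0 < V)
    (hκ : 0 < κ) (n : ℕ) (hn : 1 ≤ n) :
    ∃ w0 : ℕ, 2 ≤ w0 ∧ ∀ w : ℕ, w0 ≤ w → ∀ J : ℕ,
      ∑ j ∈ range J, C * (V * (C1 * Real.log ((w : ℝ) ^ (2 ^ (j + 1))))) ^ n *
          ((w : ℝ) ^ (2 ^ j)) ^ (-c) ≤ κ / 2 := by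
  obtain ⟨B, hB, hterm⟩ := term_bound hc hC hC1 hV n hn
  have hlim : Filter.Tendsto (fun w : ℕ => ((w : ℝ)) ^ (-(c / 2))) Filter.atTop (nhds 0) :=
    (tendsto_rpow_neg_atTop (by positivity : 0 < c / 2)).comp tendsto_natCast_atTop_atTop
  have hpos : 0 < min (1 / 2 : ℝ) (κ / (4 * B)) := by (clear * - hκ hB; positivity)
  have hev := (hlim.eventually (gt_mem_nhds hpos))
  obtain ⟨w1, hw1⟩ := Filter.eventually_atTop.mp hev
  refine ⟨max 2 w1, le_max_left _ _, ?_⟩
  intro w hw J
  have hw2 : 2 ≤ w := (le_max_left _ _).trans hw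
  have hw1' := hw1 w ((le_max_right _ _).trans hw)
  set r : ℝ := (w : ℝ) ^ (-(c / 2)) with hr
  have hwr : (1 : ℝ) ≤ w := by exact_mod_cast (by omega : 1 ≤ w)
  exact by
    have hr0 : 0 < r := Real.rpow_pos_of_pos (by (clear * - hwr; linarith)) _
    have hr1 : r ≤ 1 / 2 := (hw1'.trans_le (min_le_left _ _)).le
    have hr2 : r ≤ κ / (4 * B) := (hw1'.trans_le (min_le_right _ _)).le
    have hj : ∀ j ∈ range J, C * (V * (C1 * Real.log ((w : ℝ) ^ (2 ^ (j + 1))))) ^ n *
            ((w : ℝ) ^ (2 ^ j)) ^ (-c) ≤ B * (r * r ^ j) := by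
      intro j _
      have ht1 : (1 : ℝ) ≤ (w : ℝ) ^ (2 ^ j) := one_le_pow₀ hwr
      have e1 : Real.log ((w : ℝ) ^ (2 ^ (j + 1))) = 2 * Real.log ((w : ℝ) ^ (2 ^ j)) := by
        rw [pow_succ, pow_mul, Real.log_pow]
        push_cast
        ring
      rw [e1]
      refine (hterm _ ht1).trans ?_
      apply mul_le_mul_of_nonneg_left _ hB.le
      have e2 : ((w : ℝ) ^ (2 ^ j)) ^ (-(c / 2)) = r ^ (2 ^ j) := by
        rw [hr, ← Real.rpow_natCast, ← Real.rpow_natCast, ← Real.rpow_mul (by (clear * - hwr hr0 hr1; linarith)),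
          ← Real.rpow_mul (by (clear * - hwr hr0 hr1; linarith))]
        congr 1
        ring
      rw [e2, ← pow_succ']
      exact pow_le_pow_of_le_one hr0.le (by (clear * - hr0 hr1; linarith)) (Nat.lt_two_pow_self)
    refine (Finset.sum_le_sum hj).trans ?_
    rw [← Finset.mul_sum, ← Finset.mul_sum]
    have hgeom : ∑ j ∈ range J, r ^ j ≤ 2 := by
      have h1 : (1 - r) * ∑ j ∈ range J, r ^ j = 1 - r ^ J := by
        have := mul_neg_geom_sum r J
        exact this
      have h2 : 0 ≤ r ^ J := by (clear * - hw2; positivity)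
      have h3 : 0 ≤ ∑ j ∈ range J, r ^ j := Finset.sum_nonneg (fun j _ => by positivity)
      (clear * - h1 h2 hr1 h3; nlinarith)
    have h4 : B * r ≤ κ / 4 := by
      rw [le_div_iff₀ (by positivity)] at hr2
      (clear * - hr2; linarith)
    calc B * (r * ∑ j ∈ range J, r ^ j) = (B * r) * ∑ j ∈ range J, r ^ j := by ring
      _ ≤ (κ / 4) * 2 := by
          apply mul_le_mul h4 hgeom (Finset.sum_nonneg (fun j _ => by positivity)) (by positivity)
      _ = κ / 2 := by ring

end LM

end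

end Pool.Agent.Helper67.NX2

end

section

set_option autoImplicit false

open Finset

open scoped BigOperators ComplexConjugate

namespace Pool.Agent.Helper67.NX2.W

open Pool.Agent.Helper57.NX Pool.Agent.Helper67.NX2

theorem ex_nat (s : ℕ) (d : Fin (s + 1) → ℕ) (hd2 : ∀ i, 2 ≤ d i)
    (hgap : ∀ i j, i < j → d i + 2 ≤ d j) : Ex (fun i => (d i : ℝ)) where
  two := fun i => by exact_mod_cast hd2 i
  gap := fun i j hij => by exact_mod_cast hgap i j hij

end Pool.Agent.Helper67.NX2.W

end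

section

set_option autoImplicit false

open Finset

open scoped BigOperators

namespace Pool.Agent.Helper57.NX3

noncomputable section

/-- sets of primes below `2 ^ z` -/
def PS (z : ℕ) (A : Finset ℕ) : Prop := ∀ p ∈ A, p.Prime ∧ p < 2 ^ z

end

end Pool.Agent.Helper57.NX3

end

section

set_option autoImplicit false

open Finset

namespace Pool.Agent.Helper44

variable {ι : Type*} [DecidableEq ι]

/-- Elementary symmetric sum. -/
noncomputable def es (B : Finset ι) (m : ℕ) (x : ι → ℝ) : ℝ :=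
  ∑ I ∈ B.powerset, if I.card = m then ∏ i ∈ I, x i else 0

/-- Truncated alternating sum. -/
noncomputable def tr (B : Finset ι) (m : ℕ) (x : ι → ℝ) : ℝ :=
  ∑ I ∈ B.powerset, if I.card ≤ m then (-1 : ℝ) ^ I.card * ∏ i ∈ I, x i else 0

theorem es_zero (B : Finset ι) (x : ι → ℝ) : es B 0 x = 1 := by
  unfold es
  have h : ∀ I ∈ B.powerset, (if I.card = 0 then ∏ i ∈ I, x i else 0) =
      if I = ∅ then 1 else 0 := by
    intro I _
    by_cases hI : I = ∅
    · simp [hI]
    · simp [hI]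
  rw [Finset.sum_congr rfl h]
  simp

theorem tr_zero (B : Finset ι) (x : ι → ℝ) : tr B 0 x = 1 := by
  unfold tr
  have h : ∀ I ∈ B.powerset, (if I.card ≤ 0 then (-1 : ℝ) ^ I.card * ∏ i ∈ I, x i else 0) =
      if I = ∅ then 1 else 0 := by
    intro I _
    by_cases hI : I = ∅
    · simp [hI]
    · simp [hI]
  rw [Finset.sum_congr rfl h]
  simp

theorem tr_succ (B : Finset ι) (m : ℕ) (x : ι → ℝ) :
    tr B (m + 1) x = tr B m x + (-1) ^ (m + 1) * es B (m + 1) x := by
  unfold tr es
  rw [Finset.mul_sum, ← Finset.sum_add_distrib]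
  apply Finset.sum_congr rfl
  intro I _
  rcases lt_trichotomy I.card (m + 1) with h | h | h
  · rw [if_pos (by omega), if_pos (by (clear * - h; omega)), if_neg (by omega)]; ring
  · rw [if_pos (by omega), if_neg (by omega), if_pos h, h]; ring
  · rw [if_neg (by omega), if_neg (by omega), if_neg (by omega)]; ring

theorem es_insert {a : ι} {B : Finset ι} (ha : a ∉ B) (m : ℕ) (x : ι → ℝ) :
    es (insert a B) (m + 1) x = es B (m + 1) x + x a * es B m x := by
  unfold es
  rw [Finset.sum_powerset_insert ha, Finset.mul_sum]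
  congr 1
  apply Finset.sum_congr rfl
  intro I hI
  have haI : a ∉ I := fun h => ha (Finset.mem_powerset.mp hI h)
  rw [Finset.card_insert_of_notMem haI, Finset.prod_insert haI]
  by_cases h : I.card = m
  · simp [h]
  · simp [h]

theorem tr_insert {a : ι} {B : Finset ι} (ha : a ∉ B) (m : ℕ) (x : ι → ℝ) :
    tr (insert a B) (m + 1) x = tr B (m + 1) x - x a * tr B m x := by
  unfold tr
  rw [Finset.sum_powerset_insert ha, Finset.mul_sum, sub_eq_add_neg, ← Finset.sum_neg_distrib]
  congr 1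
  apply Finset.sum_congr rfl
  intro I hI
  have haI : a ∉ I := fun h => ha (Finset.mem_powerset.mp hI h)
  rw [Finset.card_insert_of_notMem haI, Finset.prod_insert haI]
  by_cases h : I.card ≤ m
  · simp only [h, if_true, Nat.add_le_add_iff_right]; ring
  · simp only [h, if_false, Nat.add_le_add_iff_right]; ring

theorem es_nonneg (B : Finset ι) (m : ℕ) (x : ι → ℝ) (hx : ∀ i ∈ B, 0 ≤ x i) :
    0 ≤ es B m x := by
  unfold es
  apply Finset.sum_nonneg
  intro I hI
  split_ifs
  · exact Finset.prod_nonneg fun i hi => hx i (Finset.mem_powerset.mp hI hi)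
  · exact le_rfl

/-- Bonferroni inequalities in weighted form. -/
theorem bonferroni (B : Finset ι) (x : ι → ℝ) (hx : ∀ i ∈ B, 0 ≤ x i ∧ x i ≤ 1) (m : ℕ) :
    0 ≤ (-1 : ℝ) ^ m * (tr B m x - ∏ i ∈ B, (1 - x i)) := by
  induction B using Finset.induction_on generalizing m with
  | empty =>
    have : tr (∅ : Finset ι) m x = 1 := by simp [tr]
    simp [this]
  | insert a B ha ih =>
    have hxB : ∀ i ∈ B, 0 ≤ x i ∧ x i ≤ 1 := fun i hi => hx i (Finset.mem_insert_of_mem hi)
    have hxa := hx a (Finset.mem_insert_self a B)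
    have hP0 : 0 ≤ ∏ i ∈ B, (1 - x i) := Finset.prod_nonneg fun i hi => by linarith [(hxB i hi).2]
    rw [Finset.prod_insert ha]
    cases m with
    | zero =>
      have h0 := ih hxB 0
      rw [tr_zero] at h0 ⊢
      simp only [pow_zero, one_mul] at h0 ⊢
      (clear * - h0 hxa hP0; nlinarith [mul_nonneg hxa.1 hP0])
    | succ m =>
      have h1 := ih hxB (m + 1)
      have h2 := ih hxB m
      rw [tr_insert ha]
      have : (-1 : ℝ) ^ (m + 1) * (tr B (m + 1) x - x a * tr B m x - (1 - x a) * ∏ i ∈ B, (1 - x i))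
        = (-1 : ℝ) ^ (m + 1) * (tr B (m + 1) x - ∏ i ∈ B, (1 - x i)) +
          x a * ((-1 : ℝ) ^ m * (tr B m x - ∏ i ∈ B, (1 - x i))) := by
        rw [pow_succ]; ring
      rw [this]
      exact add_nonneg h1 (mul_nonneg hxa.1 h2)

theorem prod_le_tr_even (B : Finset ι) (x : ι → ℝ) (hx : ∀ i ∈ B, 0 ≤ x i ∧ x i ≤ 1) (m : ℕ)
    (hm : Even m) : ∏ i ∈ B, (1 - x i) ≤ tr B m x := by
  have h := bonferroni B x hx m
  rw [hm.neg_one_pow, one_mul] at h
  (clear * - h; linarith)

theorem tr_even_le (B : Finset ι) (x : ι → ℝ) (hx : ∀ i ∈ B, 0 ≤ x i ∧ x i ≤ 1) (m : ℕ)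
    (hm : Even m) : tr B m x ≤ ∏ i ∈ B, (1 - x i) + es B (m + 1) x := by
  have h := bonferroni B x hx (m + 1)
  rw [tr_succ, hm.add_one.neg_one_pow] at h
  (clear * - h; linarith)

theorem es_le_pow_div_factorial (B : Finset ι) (x : ι → ℝ) (hx : ∀ i ∈ B, 0 ≤ x i) (m : ℕ) :
    es B m x ≤ (∑ i ∈ B, x i) ^ m / m.factorial := by
  induction B using Finset.induction_on generalizing m with
  | empty =>
    unfold es
    cases m with
    | zero => simp
    | succ m => simp
  | insert a B ha ih =>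
    have hxB : ∀ i ∈ B, 0 ≤ x i := fun i hi => hx i (Finset.mem_insert_of_mem hi)
    have hxa := hx a (Finset.mem_insert_self a B)
    exact by
      cases m with
      | zero => rw [es_zero]; simp
      | succ m =>
        rw [es_insert ha, Finset.sum_insert ha]
        exact by
          have h1 := ih hxB (m + 1)
          have h2 := ih hxB m
          set s := ∑ i ∈ B, x i with hs
          have hs0 : 0 ≤ s := Finset.sum_nonneg hxB
          have hb : s ^ (m + 1) + (m + 1) * (x a * s ^ m) ≤ (x a + s) ^ (m + 1) := by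
            -- binomial: first two terms
            have hexp : ∀ m : ℕ, s ^ (m + 1) + (m + 1) * (x a * s ^ m) ≤ (x a + s) ^ (m + 1) := by
              intro m
              induction m with
              | zero => simp; (clear * -; linarith)
              | succ k ihk =>
                have : (x a + s) ^ (k + 1 + 1) = (x a + s) * (x a + s) ^ (k + 1) := by ring
                rw [this]
                calc s ^ (k + 1 + 1) + ((k + 1 : ℕ) + 1) * (x a * s ^ (k + 1))
                    ≤ (x a + s) * (s ^ (k + 1) + (k + 1) * (x a * s ^ k)) := by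
                      have e : (x a + s) * (s ^ (k + 1) + (k + 1) * (x a * s ^ k)) =
                        s ^ (k + 1 + 1) + ((k + 1 : ℕ) + 1) * (x a * s ^ (k + 1)) +
                          (k + 1) * (x a * x a * s ^ k) := by
                        push_cast; ring
                      rw [e]
                      have : 0 ≤ ((k : ℝ) + 1) * (x a * x a * s ^ k) := by (clear * - hxa hs0; positivity)
                      (clear * - this; linarith)
                  _ ≤ _ := mul_le_mul_of_nonneg_left ihk (by (clear * - hxa hs0; linarith))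
            exact hexp m
          have hf : ((m + 1).factorial : ℝ) = (m + 1) * m.factorial := by
            rw [Nat.factorial_succ]; push_cast; ring
          have hfpos : (0 : ℝ) < m.factorial := by positivity
          calc es B (m + 1) x + x a * es B m x
              ≤ s ^ (m + 1) / (m + 1).factorial + x a * (s ^ m / m.factorial) := by
                gcongr
            _ = (s ^ (m + 1) + (m + 1) * (x a * s ^ m)) / (m + 1).factorial := by
                rw [hf]
                (clear * -; field_simp)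
            _ ≤ (x a + s) ^ (m + 1) / (m + 1).factorial := by
                gcongr

end Pool.Agent.Helper44

end

section

set_option autoImplicit false

set_option linter.unusedSectionVars false

open Finset

namespace Pool.Agent.Helper44

variable {ι : Type*} [DecidableEq ι] {α : Type*}

/-- Number of elements of `Ω` satisfying `P`, as a real number. -/
noncomputable def evCount (Ω : Finset α) (P : α → Prop) : ℝ := by
  classical exact ((Ω.filter P).card : ℝ)

theorem evCount_eq (Ω : Finset α) (P : α → Prop) [DecidablePred P] :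
    evCount Ω P = ((Ω.filter P).card : ℝ) := by
  unfold evCount
  congr!

theorem evCount_eq_sum (Ω : Finset α) (P : α → Prop) [DecidablePred P] :
    evCount Ω P = ∑ ω ∈ Ω, if P ω then (1 : ℝ) else 0 := by
  rw [evCount_eq, ← Finset.sum_filter]
  simp

/-- The 0-1 vector of events occurring at `ω`. -/
noncomputable def ind (occ : ι → α → Prop) (ω : α) : ι → ℝ := by
  classical exact fun i => if occ i ω then 1 else 0

theorem ind_mem (occ : ι → α → Prop) (ω : α) (i : ι) : 0 ≤ ind occ ω i ∧ ind occ ω i ≤ 1 := by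
  unfold ind
  split_ifs <;> norm_num

open Classical in
theorem prod_ind (occ : ι → α → Prop) (ω : α) (I : Finset ι) :
    ∏ i ∈ I, ind occ ω i = if (∀ i ∈ I, occ i ω) then 1 else 0 := by
  unfold ind
  rw [Finset.prod_ite_zero]
  simp

open Classical in
theorem prod_one_sub_ind (occ : ι → α → Prop) (ω : α) (I : Finset ι) :
    ∏ i ∈ I, (1 - ind occ ω i) = if (∀ i ∈ I, ¬ occ i ω) then 1 else 0 := by
  have : ∀ i ∈ I, (1 - ind occ ω i) = if ¬ occ i ω then 1 else 0 := by
    intro i _
    unfold ind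
    by_cases h : occ i ω <;> simp [h]
  rw [Finset.prod_congr rfl this, Finset.prod_ite_zero]
  simp

/-- Product inequality behind Hooley's lower bound. -/
theorem prod_lower {t : ℕ} (P T : Fin t → ℝ) (h0 : ∀ j, 0 ≤ P j) (h1 : ∀ j, P j ≤ T j) :
    ∏ j, T j - ∑ l, ∏ j, (if j = l then T l - P l else T j) ≤ ∏ j, P j := by
  have key : ∀ s : Finset (Fin t),
      ∏ j ∈ s, T j - ∑ l ∈ s, ∏ j ∈ s, (if j = l then T l - P l else T j) ≤ ∏ j ∈ s, P j := by
    intro s
    induction s using Finset.induction_on with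
    | empty => simp
    | insert a s ha ih =>
      rw [Finset.prod_insert ha, Finset.prod_insert ha, Finset.sum_insert ha,
        Finset.prod_insert ha]
      have e1 : ∏ j ∈ s, (if j = a then T a - P a else T j) = ∏ j ∈ s, T j := by
        apply Finset.prod_congr rfl
        intro j hj
        rw [if_neg]
        rintro rfl
        exact ha hj
      have e2 : ∑ l ∈ s, ∏ j ∈ insert a s, (if j = l then T l - P l else T j) =
          T a * ∑ l ∈ s, ∏ j ∈ s, (if j = l then T l - P l else T j) := by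
        rw [Finset.mul_sum]
        apply Finset.sum_congr rfl
        intro l hl
        rw [Finset.prod_insert ha, if_neg]
        rintro rfl
        exact ha hl
      rw [e1, e2, if_pos rfl]
      have hS : 0 ≤ ∑ l ∈ s, ∏ j ∈ s, (if j = l then T l - P l else T j) := by
        apply Finset.sum_nonneg
        intro l _
        apply Finset.prod_nonneg
        intro j _
        split_ifs
        · linarith [h1 l]
        · exact (h0 j).trans (h1 j)
      have := mul_le_mul_of_nonneg_left ih (h0 a)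
      nlinarith [mul_le_mul_of_nonneg_right (h1 a) hS]
  exact key Finset.univ

theorem tr_eq_sum_filter (B : Finset ι) (m : ℕ) (x : ι → ℝ) :
    tr B m x = ∑ I ∈ B.powerset.filter (fun I => I.card ≤ m), (-1 : ℝ) ^ I.card * ∏ i ∈ I, x i := by
  unfold tr
  rw [Finset.sum_filter]

theorem es_eq_sum_filter (B : Finset ι) (m : ℕ) (x : ι → ℝ) :
    es B m x = ∑ I ∈ B.powerset.filter (fun I => I.card = m), (1 : ℝ) * ∏ i ∈ I, x i := by
  unfold es
  rw [Finset.sum_filter]
  simp

end Pool.Agent.Helper44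

end

section

set_option autoImplicit false

set_option linter.unusedSectionVars false

open Finset

namespace Pool.Agent.Helper96.CPAP

open Pool.Agent.Helper44

variable {ι : Type*} [DecidableEq ι] {α : Type*}

open Classical in
theorem expand_blocksK {t : ℕ} (Ω : Finset α) (occ : ι → α → Prop)
    (B : Fin t → Finset ι) (hB : ∀ i j, i ≠ j → Disjoint (B i) (B j)) (x : ι → ℝ) (X E κ : ℝ)
    (hE : 0 ≤ E) (hκ : 1 ≤ κ)
    (hcnt : ∀ I : Finset ι, I ⊆ Finset.univ.biUnion B →
      |evCount Ω (fun ω => ∀ i ∈ I, occ i ω) - X * ∏ i ∈ I, x i| ≤ E * κ ^ I.card)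
    (c : Fin t → Finset ι → ℝ) (S : Fin t → Finset (Finset ι)) (hS : ∀ j, ∀ I ∈ S j, I ⊆ B j)
    (hc : ∀ j I, |c j I| ≤ 1) :
    |∑ ω ∈ Ω, ∏ j, ∑ I ∈ S j, c j I * ∏ i ∈ I, ind occ ω i -
      X * ∏ j, ∑ I ∈ S j, c j I * ∏ i ∈ I, x i| ≤ E * ∏ j, ∑ I ∈ S j, κ ^ I.card := by
  have hprod : ∀ (y : ι → ℝ), ∏ j, ∑ I ∈ S j, c j I * ∏ i ∈ I, y i =
      ∑ f ∈ Fintype.piFinset S, (∏ j, c j (f j)) * ∏ i ∈ Finset.univ.biUnion f, y i := by
    intro y
    rw [Finset.prod_univ_sum]
    apply Finset.sum_congr rfl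
    intro f hf
    rw [Fintype.mem_piFinset] at hf
    rw [Finset.prod_mul_distrib, Finset.prod_biUnion]
    intro i _ j _ hij
    exact Finset.disjoint_of_subset_left (hS i _ (hf i))
      (Finset.disjoint_of_subset_right (hS j _ (hf j)) (hB i j hij))
  simp_rw [hprod]
  rw [Finset.sum_comm, Finset.mul_sum, ← Finset.sum_sub_distrib]
  have hterm : ∀ f ∈ Fintype.piFinset S,
      |∑ ω ∈ Ω, (∏ j, c j (f j)) * ∏ i ∈ Finset.univ.biUnion f, ind occ ω i -
        X * ((∏ j, c j (f j)) * ∏ i ∈ Finset.univ.biUnion f, x i)| ≤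
        E * ∏ j, κ ^ (f j).card := by
    intro f hf
    rw [Fintype.mem_piFinset] at hf
    have hsub : Finset.univ.biUnion f ⊆ Finset.univ.biUnion B := by
      intro i hi
      rw [Finset.mem_biUnion] at hi ⊢
      obtain ⟨j, hj, hij⟩ := hi
      exact ⟨j, hj, hS j _ (hf j) hij⟩
    have h1 := hcnt _ hsub
    have h2 : ∑ ω ∈ Ω, (∏ j, c j (f j)) * ∏ i ∈ Finset.univ.biUnion f, ind occ ω i =
        (∏ j, c j (f j)) * evCount Ω (fun ω => ∀ i ∈ Finset.univ.biUnion f, occ i ω) := by
      rw [← Finset.mul_sum, evCount_eq_sum]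
      simp_rw [prod_ind]
    rw [h2]
    have h3 : (∏ j, c j (f j)) * evCount Ω (fun ω => ∀ i ∈ Finset.univ.biUnion f, occ i ω) -
        X * ((∏ j, c j (f j)) * ∏ i ∈ Finset.univ.biUnion f, x i) =
        (∏ j, c j (f j)) * (evCount Ω (fun ω => ∀ i ∈ Finset.univ.biUnion f, occ i ω) -
            X * ∏ i ∈ Finset.univ.biUnion f, x i) := by ring
    rw [h3, abs_mul]
    have h4 : |∏ j, c j (f j)| ≤ 1 := by
      rw [Finset.abs_prod]
      exact Finset.prod_le_one (fun _ _ => abs_nonneg _) (fun j _ => hc j _)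
    have h5 : κ ^ (Finset.univ.biUnion f).card ≤ ∏ j, κ ^ (f j).card := by
      rw [Finset.prod_pow_eq_pow_sum]
      exact pow_le_pow_right₀ hκ Finset.card_biUnion_le
    calc _ ≤ 1 * (E * κ ^ (Finset.univ.biUnion f).card) :=
          mul_le_mul h4 h1 (abs_nonneg _) (by norm_num)
      _ = E * κ ^ (Finset.univ.biUnion f).card := one_mul _
      _ ≤ _ := mul_le_mul_of_nonneg_left h5 hE
  calc |∑ f ∈ Fintype.piFinset S,
      (∑ ω ∈ Ω, (∏ j, c j (f j)) * ∏ i ∈ Finset.univ.biUnion f, ind occ ω i -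
        X * ((∏ j, c j (f j)) * ∏ i ∈ Finset.univ.biUnion f, x i))|
      ≤ ∑ f ∈ Fintype.piFinset S, E * ∏ j, κ ^ (f j).card := (Finset.abs_sum_le_sum_abs _ _).trans
        (Finset.sum_le_sum hterm)
    _ = E * ∏ j, ∑ I ∈ S j, κ ^ I.card := by
        rw [Finset.prod_univ_sum, Finset.mul_sum]

theorem sum_pow_powerset_filter_le (B : Finset ι) (m : ℕ) (κ : ℝ) (hκ : 0 ≤ κ) :
    ∑ I ∈ B.powerset.filter (fun I => I.card ≤ m), κ ^ I.card ≤ (κ * (B.card : ℝ) + 1) ^ m := by
  have h1 : ∑ I ∈ B.powerset.filter (fun I => I.card ≤ m), κ ^ I.card =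
      ∑ j ∈ range (m + 1), (B.card.choose j : ℝ) * κ ^ j := by
    have : B.powerset.filter (fun I => I.card ≤ m) =
        (range (m + 1)).biUnion (fun j => B.powersetCard j) := by
      ext I
      simp only [Finset.mem_filter, Finset.mem_powerset, Finset.mem_biUnion, Finset.mem_range,
        Finset.mem_powersetCard]
      constructor
      · rintro ⟨h, h'⟩; exact ⟨I.card, by omega, h, rfl⟩
      · rintro ⟨j, hj, h, rfl⟩; exact ⟨h, by omega⟩
    rw [this, Finset.sum_biUnion]
    · apply Finset.sum_congr rfl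
      intro j _
      have h2 : ∑ I ∈ B.powersetCard j, κ ^ I.card = ∑ I ∈ B.powersetCard j, κ ^ j := by
        apply Finset.sum_congr rfl
        intro I hI
        rw [(Finset.mem_powersetCard.mp hI).2]
      rw [h2, Finset.sum_const, Finset.card_powersetCard, nsmul_eq_mul]
    · intro i _ j _ hij
      rw [Function.onFun, Finset.disjoint_left]
      intro I hI hJ
      exact hij ((Finset.mem_powersetCard.mp hI).2.symm.trans (Finset.mem_powersetCard.mp hJ).2)
  rw [h1, add_pow]
  apply Finset.sum_le_sum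
  intro j hj
  have hj' : j ≤ m := by rw [Finset.mem_range] at hj; omega
  have h2 : (B.card.choose j : ℝ) ≤ (B.card : ℝ) ^ j := by
    exact_mod_cast Nat.choose_le_pow B.card j
  have h3 : (1 : ℝ) ≤ (m.choose j : ℝ) := by
    exact_mod_cast Nat.choose_pos hj'
  have h4 : (0 : ℝ) ≤ (κ * (B.card : ℝ)) ^ j := by (clear * - hκ; positivity)
  rw [one_pow, mul_one]
  calc (B.card.choose j : ℝ) * κ ^ j ≤ (B.card : ℝ) ^ j * κ ^ j :=
        mul_le_mul_of_nonneg_right h2 (by positivity)
    _ = (κ * (B.card : ℝ)) ^ j := by rw [mul_pow]; ring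
    _ ≤ (κ * (B.card : ℝ)) ^ j * (m.choose j : ℝ) := le_mul_of_one_le_right h4 h3

/-- The Brun-Hooley sieve, raw form. -/
theorem brun_hooley_rawK {t : ℕ} (Ω : Finset α) (occ : ι → α → Prop)
    (B : Fin t → Finset ι) (hB : ∀ i j, i ≠ j → Disjoint (B i) (B j)) (x : ι → ℝ) (X E κ : ℝ)
    (hE : 0 ≤ E) (hκ : 1 ≤ κ)
    (hcnt : ∀ I : Finset ι, I ⊆ Finset.univ.biUnion B →
      |evCount Ω (fun ω => ∀ i ∈ I, occ i ω) - X * ∏ i ∈ I, x i| ≤ E * κ ^ I.card)
    (m : Fin t → ℕ) (hm : ∀ j, Even (m j)) :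
    evCount Ω (fun ω => ∀ j, ∀ i ∈ B j, ¬ occ i ω) ≤
        X * ∏ j, tr (B j) (m j) x + E * ∏ j, (κ * ((B j).card : ℝ) + 1) ^ (m j + 1) ∧
    X * (∏ j, tr (B j) (m j) x -
        ∑ l, ∏ j, (if j = l then es (B l) (m l + 1) x else tr (B j) (m j) x)) -
      E * ((t + 1) * ∏ j, (κ * ((B j).card : ℝ) + 1) ^ (m j + 1)) ≤
      evCount Ω (fun ω => ∀ j, ∀ i ∈ B j, ¬ occ i ω) := by
  classical
  have hκ0 : 0 ≤ κ := by (clear * - hκ; linarith)
  have hcard : evCount Ω (fun ω => ∀ j, ∀ i ∈ B j, ¬ occ i ω) =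
      ∑ ω ∈ Ω, ∏ j, ∏ i ∈ B j, (1 - ind occ ω i) := by
    rw [evCount_eq_sum]
    simp_rw [prod_one_sub_ind, Finset.prod_ite_zero]
    simp
  have hN : ∀ j, 1 ≤ (κ * ((B j).card : ℝ) + 1) := fun j => by
    have : (0 : ℝ) ≤ κ * ((B j).card : ℝ) := by (clear * - hκ; positivity)
    linarith
  have hPT : ∀ ω, ∀ j, ∏ i ∈ B j, (1 - ind occ ω i) ≤ tr (B j) (m j) (ind occ ω) := fun ω j =>
    prod_le_tr_even (B j) (ind occ ω) (fun i _ => ind_mem occ ω i) (m j) (hm j)
  have hP0 : ∀ ω, ∀ j, 0 ≤ ∏ i ∈ B j, (1 - ind occ ω i) := fun ω j =>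
    Finset.prod_nonneg fun i _ => by linarith [(ind_mem occ ω i).2]
  have hTP : ∀ ω, ∀ j, tr (B j) (m j) (ind occ ω) - ∏ i ∈ B j, (1 - ind occ ω i) ≤
      es (B j) (m j + 1) (ind occ ω) := fun ω j => by
    have := tr_even_le (B j) (ind occ ω) (fun i _ => ind_mem occ ω i) (m j) (hm j)
    linarith
  -- main expansion
  exact by
    have hmain : |∑ ω ∈ Ω, ∏ j, tr (B j) (m j) (ind occ ω) - X * ∏ j, tr (B j) (m j) x| ≤
        E * ∏ j, (κ * ((B j).card : ℝ) + 1) ^ (m j + 1) := by
      simp_rw [tr_eq_sum_filter]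
      refine (expand_blocksK Ω occ B hB x X E κ hE hκ hcnt (fun _ I => (-1 : ℝ) ^ I.card)
        (fun j => (B j).powerset.filter (fun I => I.card ≤ m j)) ?_ ?_).trans ?_
      · intro j I hI
        exact Finset.mem_powerset.mp (Finset.mem_filter.mp hI).1
      · intro j I
        rw [abs_pow]; simp
      · apply mul_le_mul_of_nonneg_left _ hE
        apply Finset.prod_le_prod
        · intro j _; (clear * - hκ; positivity)
        · intro j _
          refine (sum_pow_powerset_filter_le (B j) (m j) κ hκ0).trans ?_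
          exact pow_le_pow_right₀ (hN j) (by omega)
    have herr : ∀ l : Fin t,
        |∑ ω ∈ Ω, ∏ j, (if j = l then es (B l) (m l + 1) (ind occ ω) else
            tr (B j) (m j) (ind occ ω)) -
          X * ∏ j, (if j = l then es (B l) (m l + 1) x else tr (B j) (m j) x)| ≤
        E * ∏ j, (κ * ((B j).card : ℝ) + 1) ^ (m j + 1) := by
      intro l
      have hform : ∀ y : ι → ℝ, ∀ j : Fin t,
          (if j = l then es (B l) (m l + 1) y else tr (B j) (m j) y) =
          ∑ I ∈ (B j).powerset.filter (fun I => if j = l then I.card = m j + 1 else I.card ≤ m j),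
            (if j = l then 1 else (-1 : ℝ) ^ I.card) * ∏ i ∈ I, y i := by
        intro y j
        by_cases hj : j = l
        · subst hj
          simp only [if_true]
          rw [es_eq_sum_filter]
        · simp only [hj, if_false]
          rw [tr_eq_sum_filter]
      simp_rw [hform]
      refine (expand_blocksK Ω occ B hB x X E κ hE hκ hcnt
        (fun j I => if j = l then 1 else (-1 : ℝ) ^ I.card)
        (fun j => (B j).powerset.filter
          (fun I => if j = l then I.card = m j + 1 else I.card ≤ m j)) ?_ ?_).trans ?_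
      · intro j I hI
        exact Finset.mem_powerset.mp (Finset.mem_filter.mp hI).1
      · intro j I
        split_ifs
        · simp
        · rw [abs_pow]; simp
      · apply mul_le_mul_of_nonneg_left _ hE
        apply Finset.prod_le_prod
        · intro j _; (clear * - hκ; positivity)
        · intro j _
          refine le_trans ?_ (sum_pow_powerset_filter_le (B j) (m j + 1) κ hκ0)
          apply Finset.sum_le_sum_of_subset_of_nonneg
          · intro I hI
            rw [Finset.mem_filter] at hI ⊢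
            refine ⟨hI.1, ?_⟩
            have := hI.2
            split_ifs at this <;> omega
          · intro I _ _
            positivity
    constructor
    · rw [hcard]
      have h1 : ∑ ω ∈ Ω, ∏ j, ∏ i ∈ B j, (1 - ind occ ω i) ≤
          ∑ ω ∈ Ω, ∏ j, tr (B j) (m j) (ind occ ω) := by
        apply Finset.sum_le_sum
        intro ω _
        exact Finset.prod_le_prod (fun j _ => hP0 ω j) (fun j _ => hPT ω j)
      have h2 := (abs_le.mp hmain).2
      (clear * - h1 h2; linarith)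
    · rw [hcard]
      exact by
        have h1 : ∑ ω ∈ Ω, (∏ j, tr (B j) (m j) (ind occ ω) -
            ∑ l, ∏ j, (if j = l then es (B l) (m l + 1) (ind occ ω) else
              tr (B j) (m j) (ind occ ω))) ≤
            ∑ ω ∈ Ω, ∏ j, ∏ i ∈ B j, (1 - ind occ ω i) := by
          apply Finset.sum_le_sum
          intro ω _
          refine le_trans ?_ (prod_lower (fun j => ∏ i ∈ B j, (1 - ind occ ω i))
            (fun j => tr (B j) (m j) (ind occ ω)) (hP0 ω) (hPT ω))
          apply sub_le_sub_left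
          apply Finset.sum_le_sum
          intro l _
          apply Finset.prod_le_prod
          · intro j _
            split_ifs with hj
            · have := hPT ω l; (clear * - this; linarith)
            · exact (hP0 ω j).trans (hPT ω j)
          · intro j _
            split_ifs with hj
            · exact hTP ω l
            · exact le_rfl
        rw [Finset.sum_sub_distrib, Finset.sum_comm] at h1
        have h2 := (abs_le.mp hmain).1
        have h3 : ∑ l : Fin t, ∑ ω ∈ Ω, ∏ j, (if j = l then es (B l) (m l + 1) (ind occ ω) else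
              tr (B j) (m j) (ind occ ω)) ≤
            ∑ l : Fin t, (X * ∏ j, (if j = l then es (B l) (m l + 1) x else tr (B j) (m j) x) +
              E * ∏ j, (κ * ((B j).card : ℝ) + 1) ^ (m j + 1)) := by
          apply Finset.sum_le_sum
          intro l _
          have := (abs_le.mp (herr l)).2
          (clear * - this; linarith)
        rw [Finset.sum_add_distrib, ← Finset.mul_sum, Finset.sum_const, Finset.card_univ,
          Fintype.card_fin, nsmul_eq_mul] at h3
        have h4 : X * (∏ j, tr (B j) (m j) x -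
            ∑ l, ∏ j, (if j = l then es (B l) (m l + 1) x else tr (B j) (m j) x)) -
            E * ((t + 1) * ∏ j, (κ * ((B j).card : ℝ) + 1) ^ (m j + 1)) =
            (X * ∏ j, tr (B j) (m j) x - E * ∏ j, (κ * ((B j).card : ℝ) + 1) ^ (m j + 1)) -
            (X * ∑ l, ∏ j, (if j = l then es (B l) (m l + 1) x else tr (B j) (m j) x) +
            t * (E * ∏ j, (κ * ((B j).card : ℝ) + 1) ^ (m j + 1))) := by ring
        rw [h4]
        (clear * - h1 h2 h3; linarith)

/-- The Brun-Hooley sieve with clean main terms. -/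
theorem brun_hooleyK {t : ℕ} (Ω : Finset α) (occ : ι → α → Prop)
    (B : Fin t → Finset ι) (hB : ∀ i j, i ≠ j → Disjoint (B i) (B j)) (x : ι → ℝ)
    (hx : ∀ j, ∀ i ∈ B j, 0 ≤ x i ∧ x i ≤ 1 / 2) (X E κ : ℝ) (hX : 0 ≤ X) (hE : 0 ≤ E)
    (hκ : 1 ≤ κ)
    (hcnt : ∀ I : Finset ι, I ⊆ Finset.univ.biUnion B →
      |evCount Ω (fun ω => ∀ i ∈ I, occ i ω) - X * ∏ i ∈ I, x i| ≤ E * κ ^ I.card)
    (m : Fin t → ℕ) (hm : ∀ j, Even (m j))
    (hr : ∑ j, es (B j) (m j + 1) x / ∏ i ∈ B j, (1 - x i) ≤ 1 / 2) :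
    evCount Ω (fun ω => ∀ j, ∀ i ∈ B j, ¬ occ i ω) ≤
        2 * X * (∏ j, ∏ i ∈ B j, (1 - x i)) +
          E * ∏ j, (κ * ((B j).card : ℝ) + 1) ^ (m j + 1) ∧
    (1 / 2) * X * (∏ j, ∏ i ∈ B j, (1 - x i)) -
      E * ((t + 1) * ∏ j, (κ * ((B j).card : ℝ) + 1) ^ (m j + 1)) ≤
      evCount Ω (fun ω => ∀ j, ∀ i ∈ B j, ¬ occ i ω) := by
  obtain ⟨h1, h2⟩ := brun_hooley_rawK Ω occ B hB x X E κ hE hκ hcnt m hm
  have hx1 : ∀ j, ∀ i ∈ B j, 0 ≤ x i ∧ x i ≤ 1 := fun j i hi =>
    ⟨(hx j i hi).1, by (clear * - hx hi; linarith [(hx j i hi).2])⟩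
  set V : Fin t → ℝ := fun j => ∏ i ∈ B j, (1 - x i) with hV
  have hVpos : ∀ j, 0 < V j := fun j => Finset.prod_pos fun i hi => by
    (clear * - hx hi; linarith [(hx j i hi).2])
  set r : Fin t → ℝ := fun j => es (B j) (m j + 1) x / V j with hrdef
  have hr0 : ∀ j, 0 ≤ r j := fun j =>
    div_nonneg (es_nonneg _ _ _ fun i hi => (hx j i hi).1) (hVpos j).le
  have hVT : ∀ j, V j ≤ tr (B j) (m j) x := fun j => prod_le_tr_even _ _ (hx1 j) _ (hm j)
  exact by
    have hTV : ∀ j, tr (B j) (m j) x ≤ V j * Real.exp (r j) := by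
      intro j
      have h3 := tr_even_le (B j) x (hx1 j) (m j) (hm j)
      have h4 : es (B j) (m j + 1) x = V j * r j := by
        simp only [hrdef]
        rw [mul_div_cancel₀ _ (hVpos j).ne']
      have h5 : r j + 1 ≤ Real.exp (r j) := Real.add_one_le_exp _
      calc tr (B j) (m j) x ≤ V j + V j * r j := by rw [← h4]; exact h3
        _ = V j * (r j + 1) := by ring
        _ ≤ V j * Real.exp (r j) := mul_le_mul_of_nonneg_left h5 (hVpos j).le
    have hr' : ∑ j, r j ≤ 1 / 2 := hr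
    have hT0 : ∀ j, 0 < tr (B j) (m j) x := fun j => (hVpos j).trans_le (hVT j)
    have hPV : 0 < ∏ j, V j := Finset.prod_pos fun j _ => hVpos j
    have hPT : 0 < ∏ j, tr (B j) (m j) x := Finset.prod_pos fun j _ => hT0 j
    have hexp2 : Real.exp (1 / 2) ≤ 2 := by
      have h6 : Real.exp (1 / 2) ^ 2 ≤ 2 ^ 2 := by
        rw [← Real.exp_nat_mul]
        have := Real.exp_one_lt_d9
        have e : ((2 : ℕ) : ℝ) * (1 / 2) = 1 := by norm_num
        rw [e]
        (clear * - this; linarith)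
      exact (pow_le_pow_iff_left₀ (Real.exp_pos _).le (by norm_num) (by norm_num)).mp h6
    exact by
      have hup : ∏ j, tr (B j) (m j) x ≤ 2 * ∏ j, V j := by
        calc ∏ j, tr (B j) (m j) x ≤ ∏ j, (V j * Real.exp (r j)) :=
              Finset.prod_le_prod (fun j _ => (hT0 j).le) (fun j _ => hTV j)
          _ = (∏ j, V j) * Real.exp (∑ j, r j) := by
              rw [Finset.prod_mul_distrib, Real.exp_sum]
          _ ≤ (∏ j, V j) * 2 := by
              apply mul_le_mul_of_nonneg_left _ hPV.le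
              exact (Real.exp_le_exp.mpr hr').trans hexp2
          _ = 2 * ∏ j, V j := by ring
      constructor
      · refine h1.trans ?_
        have : X * ∏ j, tr (B j) (m j) x ≤ X * (2 * ∏ j, V j) := mul_le_mul_of_nonneg_left hup hX
        (clear * - this; linarith)
      · refine le_trans ?_ h2
        exact by
          have hsum : ∑ l, ∏ j, (if j = l then es (B l) (m l + 1) x else tr (B j) (m j) x) ≤
              (1 / 2) * ∏ j, tr (B j) (m j) x := by
            calc ∑ l, ∏ j, (if j = l then es (B l) (m l + 1) x else tr (B j) (m j) x)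
                ≤ ∑ l, r l * ∏ j, tr (B j) (m j) x := by
                  apply Finset.sum_le_sum
                  intro l _
                  rw [← Finset.mul_prod_erase Finset.univ _ (Finset.mem_univ l),
                    ← Finset.mul_prod_erase Finset.univ (fun j => tr (B j) (m j) x) (Finset.mem_univ l),
                    if_pos rfl, ← mul_assoc]
                  have h7 : ∏ j ∈ Finset.univ.erase l,
                      (if j = l then es (B l) (m l + 1) x else tr (B j) (m j) x) =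
                      ∏ j ∈ Finset.univ.erase l, tr (B j) (m j) x := by
                    apply Finset.prod_congr rfl
                    intro j hj
                    rw [if_neg (Finset.ne_of_mem_erase hj)]
                  rw [h7]
                  apply mul_le_mul_of_nonneg_right _ (Finset.prod_nonneg fun j _ => (hT0 j).le)
                  have h8 : es (B l) (m l + 1) x = r l * V l := by
                    simp only [hrdef]
                    rw [div_mul_cancel₀ _ (hVpos l).ne']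
                  rw [h8]
                  exact mul_le_mul_of_nonneg_left (hVT l) (hr0 l)
              _ = (∑ l, r l) * ∏ j, tr (B j) (m j) x := by rw [Finset.sum_mul]
              _ ≤ (1 / 2) * ∏ j, tr (B j) (m j) x := mul_le_mul_of_nonneg_right hr' hPT.le
          have hlow : ∏ j, V j ≤ ∏ j, tr (B j) (m j) x :=
            Finset.prod_le_prod (fun j _ => (hVpos j).le) (fun j _ => hVT j)
          have : X * ((1 / 2) * ∏ j, V j) ≤ X * (∏ j, tr (B j) (m j) x -
              ∑ l, ∏ j, (if j = l then es (B l) (m l + 1) x else tr (B j) (m j) x)) := by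
            apply mul_le_mul_of_nonneg_left _ hX
            (clear * - hsum hlow; linarith)
          (clear * - this; linarith)

end Pool.Agent.Helper96.CPAP

end

section

set_option autoImplicit false

open Finset

open scoped BigOperators

namespace Pool.Agent.Helper57.NX3

open Pool.Agent.Helper67.NX2 (Ex)

noncomputable section

/-- `2^(z τ)` beats every constant and every power of `z` -/
theorem size_ev (τ σ : ℝ) (hτ : 0 < τ) (hσ : 0 < σ) (n : ℕ) (C : ℝ) :
    ∃ z0 : ℕ, ∀ z : ℕ, z0 ≤ z → C ≤ (((2 : ℝ) ^ z) ^ τ) ^ σ ∧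
      (((2 : ℝ) ^ z) ^ τ) ^ (-σ) ≤ (z : ℝ)⁻¹ ^ n := by
  have hb : 0 < τ * σ * Real.log 2 := by
    have : 0 < Real.log 2 := Real.log_pos (by norm_num)
    positivity
  have h0 : ∀ z : ℕ, (((2 : ℝ) ^ z) ^ τ) ^ σ = Real.exp ((τ * σ * Real.log 2) * z) := by
    intro z
    rw [← Real.rpow_mul (by positivity), ← Real.rpow_natCast, ← Real.rpow_mul (by norm_num),
      Real.rpow_def_of_pos (by norm_num)]
    congr 1
    ring
  have h1 : Filter.Tendsto (fun z : ℕ => Real.exp ((τ * σ * Real.log 2) * (z : ℝ)))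
      Filter.atTop Filter.atTop :=
    Real.tendsto_exp_atTop.comp
      (Filter.Tendsto.const_mul_atTop hb tendsto_natCast_atTop_atTop)
  have h2 : Filter.Tendsto (fun x : ℝ => x ^ n * Real.exp (-(τ * σ * Real.log 2) * x))
      Filter.atTop (nhds 0) := by
    have := Real.tendsto_pow_mul_exp_neg_atTop_nhds_zero n
    have h3 : Filter.Tendsto (fun x : ℝ => (τ * σ * Real.log 2) * x) Filter.atTop Filter.atTop :=
      Filter.Tendsto.const_mul_atTop hb Filter.tendsto_id
    have h4 := (this.comp h3).const_mul (((τ * σ * Real.log 2) ^ n)⁻¹)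
    rw [mul_zero] at h4
    refine h4.congr fun x => ?_
    simp only [Function.comp]
    rw [mul_pow _ x n]
    have h5 : (τ * σ * Real.log 2) ^ n ≠ 0 := (pow_pos hb n).ne'
    rw [neg_mul, ← mul_assoc, ← mul_assoc, inv_mul_cancel₀ h5, one_mul]
  have h3 : ∀ᶠ z : ℕ in Filter.atTop,
      (z : ℝ) ^ n * Real.exp (-(τ * σ * Real.log 2) * z) < 1 :=
    tendsto_natCast_atTop_atTop.eventually (h2.eventually_lt_const one_pos)
  obtain ⟨z1, hz1⟩ := Filter.eventually_atTop.mp (h1.eventually (Filter.eventually_ge_atTop C))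
  obtain ⟨z2, hz2⟩ := Filter.eventually_atTop.mp h3
  refine ⟨max (max z1 z2) 1, fun z hz => ?_⟩
  have hza := hz1 z ((le_max_left _ _).trans ((le_max_left _ _).trans hz))
  have hzb := hz2 z ((le_max_right _ _).trans ((le_max_left _ _).trans hz))
  have hz1' : 1 ≤ z := (le_max_right _ _).trans hz
  have hz0 : (0 : ℝ) < z := by exact_mod_cast hz1'
  refine ⟨by rw [h0]; exact hza, ?_⟩
  rw [Real.rpow_neg (by positivity), h0, ← Real.exp_neg, inv_pow, le_inv_comm₀ (Real.exp_pos _)
    (by positivity), ← Real.exp_neg, neg_neg]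
  rw [neg_mul, Real.exp_neg] at hzb
  rw [← div_eq_mul_inv, div_lt_one (Real.exp_pos _)] at hzb
  exact hzb.le

end

end Pool.Agent.Helper57.NX3

end

section

set_option autoImplicit false

open Finset

open scoped BigOperators ComplexConjugate

namespace Pool.Agent.Helper57.NX

noncomputable section

theorem exists_pos_lb {l : ℕ} (f : Fin l → ℝ) (hf : ∀ i, 0 < f i) :
    ∃ r : ℝ, 0 < r ∧ r ≤ 1 ∧ ∀ i, r ≤ f i := by
  induction l with
  | zero => exact ⟨1, one_pos, le_rfl, fun i => i.elim0⟩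
  | succ l ih =>
    obtain ⟨r, hr, hr1, hr'⟩ := ih (fun i => f i.castSucc) fun i => hf _
    refine ⟨min r (f (Fin.last l)), lt_min hr (hf _), (min_le_left _ _).trans hr1, fun i => ?_⟩
    refine Fin.lastCases ?_ (fun j => ?_) i
    · exact min_le_right _ _
    · exact (min_le_left _ _).trans (hr' j)

theorem exists_gap {l : ℕ} (c : Fin l → ℝ) (hc : StrictMono c) :
    ∃ g : ℝ, 0 < g ∧ ∀ i j, i < j → c i + g ≤ c j := by
  obtain ⟨r, hr, -, hr'⟩ := exists_pos_lb
    (fun q : Fin (l * l) => if (finProdFinEquiv.symm q).1 < (finProdFinEquiv.symm q).2 then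
      c (finProdFinEquiv.symm q).2 - c (finProdFinEquiv.symm q).1 else 1) (by
    intro q
    split_ifs with h
    · exact sub_pos.mpr (hc h)
    · exact one_pos)
  refine ⟨r, hr, fun i j hij => ?_⟩
  have h1 := hr' (finProdFinEquiv (i, j))
  rw [Equiv.symm_apply_apply, if_pos hij] at h1
  (clear * - h1; linarith)

end

end Pool.Agent.Helper57.NX

end

section

set_option autoImplicit false

open Finset

open scoped BigOperators

namespace Pool.Agent.Helper57.NX3

noncomputable section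

namespace EnLe

open Pool.Agent.Helper57.FP

/-- cells have at most `2^b / M + 1` elements -/
theorem card_cell_le {M b : ℕ} (hM : 1 ≤ M) (Z y : ℕ) :
    (((range Z).filter (fun x => x / 2 ^ b = y / 2 ^ b ∧ x ≡ y [MOD M])).card : ℝ) ≤
      2 ^ b / M + 1 := by
  have hM0 : (0 : ℝ) < M := by exact_mod_cast hM
  have hM0' : (0 : ℚ) < M := by exact_mod_cast hM
  set s := 2 ^ b * (y / 2 ^ b) with hs
  have h1 : (range Z).filter (fun x => x / 2 ^ b = y / 2 ^ b ∧ x ≡ y [MOD M]) ⊆
      (Ico s (s + 2 ^ b)).filter (fun x => x ≡ y [MOD M]) := by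
    intro x hx
    rw [mem_filter] at hx ⊢
    refine ⟨?_, hx.2.2⟩
    rw [mem_Ico, hs, ← hx.2.1]
    constructor
    · exact Nat.mul_div_le x (2 ^ b)
    · have := Nat.lt_mul_div_succ x (Nat.pow_pos (n := b) (show 0 < 2 by norm_num))
      rw [mul_add, mul_one] at this
      exact this
  have h2 := card_le_card h1
  have h3 := Nat.Ico_filter_modEq_card s (s + 2 ^ b) hM y
  exact by
    have h4 : (((Ico s (s + 2 ^ b)).filter (fun x => x ≡ y [MOD M])).card : ℤ) ≤
        ⌈(2 ^ b : ℚ) / M⌉ := by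
      rw [h3]
      refine max_le ?_ (Int.ceil_nonneg (by (clear * - hM; positivity)))
      have h5 : (((s + 2 ^ b : ℕ) : ℚ) - y) / M = ((s : ℚ) - y) / M + 2 ^ b / M := by
        push_cast
        ring
      rw [h5]
      have h6 := Int.ceil_add_le (((s : ℚ) - y) / M) ((2 : ℚ) ^ b / M)
      (clear * - h6; linarith)
    have h5 : ((⌈(2 ^ b : ℚ) / M⌉ : ℤ) : ℚ) ≤ 2 ^ b / M + 1 := (Int.ceil_lt_add_one _).le
    have h6 : ((⌈(2 ^ b : ℚ) / M⌉ : ℤ) : ℝ) ≤ 2 ^ b / M + 1 := by
      have := (Rat.cast_le (K := ℝ)).2 h5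
      push_cast at this
      exact this
    have h7 : (((range Z).filter (fun x => x / 2 ^ b = y / 2 ^ b ∧ x ≡ y [MOD M])).card : ℝ) ≤
        ((⌈(2 ^ b : ℚ) / M⌉ : ℤ) : ℝ) := by
      have h8 : (((range Z).filter (fun x => x / 2 ^ b = y / 2 ^ b ∧ x ≡ y [MOD M])).card : ℤ) ≤
          ⌈(2 ^ b : ℚ) / M⌉ := le_trans (by exact_mod_cast h2) h4
      exact_mod_cast h8
    exact h7.trans h6

/-- pairs in the same cell -/
def PPr (A : Finset ℕ) (M b : ℕ) : Finset (ℕ × ℕ) :=
  (A ×ˢ A).filter (fun p => p.1 / 2 ^ b = p.2 / 2 ^ b ∧ p.1 ≡ p.2 [MOD M])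

theorem sum_sq_le {M b : ℕ} (hM : 1 ≤ M) (Z : ℕ) (A : Finset ℕ) :
    ∑ x ∈ range Z, ((A.filter (fun y => y / 2 ^ b = x / 2 ^ b ∧ y ≡ x [MOD M])).card : ℝ) ^ 2 ≤
      (2 ^ b / M + 1) * (PPr A M b).card := by
  classical
  have h1 : ∀ x ∈ range Z,
      ((A.filter (fun y => y / 2 ^ b = x / 2 ^ b ∧ y ≡ x [MOD M])).card : ℝ) ^ 2 =
      ∑ p ∈ A ×ˢ A, if (p.1 / 2 ^ b = x / 2 ^ b ∧ p.1 ≡ x [MOD M]) ∧
        (p.2 / 2 ^ b = x / 2 ^ b ∧ p.2 ≡ x [MOD M]) then (1 : ℝ) else 0 := by
    intro x _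
    have e1 : (A ×ˢ A).filter (fun p => (p.1 / 2 ^ b = x / 2 ^ b ∧ p.1 ≡ x [MOD M]) ∧
        (p.2 / 2 ^ b = x / 2 ^ b ∧ p.2 ≡ x [MOD M])) =
        (A.filter (fun y => y / 2 ^ b = x / 2 ^ b ∧ y ≡ x [MOD M])) ×ˢ
          (A.filter (fun y => y / 2 ^ b = x / 2 ^ b ∧ y ≡ x [MOD M])) := by
      ext p
      simp only [mem_filter, mem_product]
      tauto
    rw [← sum_filter, sum_const, nsmul_eq_mul, mul_one, e1, card_product]
    push_cast
    ring
  rw [sum_congr rfl h1, sum_comm]
  have h2 : ∀ p ∈ A ×ˢ A, (∑ x ∈ range Z, if (p.1 / 2 ^ b = x / 2 ^ b ∧ p.1 ≡ x [MOD M]) ∧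
        (p.2 / 2 ^ b = x / 2 ^ b ∧ p.2 ≡ x [MOD M]) then (1 : ℝ) else 0) ≤
      if p.1 / 2 ^ b = p.2 / 2 ^ b ∧ p.1 ≡ p.2 [MOD M] then ((2 : ℝ) ^ b / M + 1) else 0 := by
    intro p _
    by_cases h : p.1 / 2 ^ b = p.2 / 2 ^ b ∧ p.1 ≡ p.2 [MOD M]
    · rw [if_pos h, ← sum_filter, sum_const, nsmul_eq_mul, mul_one]
      refine le_trans ?_ (card_cell_le (b := b) hM Z p.1)
      exact_mod_cast card_le_card (fun x hx => by
        rw [mem_filter] at hx ⊢
        exact ⟨hx.1, hx.2.1.1.symm, hx.2.1.2.symm⟩)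
    · rw [if_neg h]
      refine le_of_eq (sum_eq_zero fun x _ => if_neg fun h' => h ?_)
      exact ⟨h'.1.1.trans h'.2.1.symm, h'.1.2.trans h'.2.2.symm⟩
  refine (sum_le_sum h2).trans (le_of_eq ?_)
  rw [← sum_filter, sum_const, nsmul_eq_mul, mul_comm]
  rfl

/-- counting the pairs by their difference -/
theorem card_PPr_le {z M b : ℕ} (hM : 1 ≤ M) {A : Finset ℕ} (hA : PS z A) :
    (PPr A M b).card ≤ A.card + 2 * ∑ t ∈ Icc 1 (2 ^ b / M),
      ((range (2 ^ z)).filter (fun n => n.Prime ∧ (n + M * t).Prime)).card := by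
  classical
  set W : ℕ → Finset ℕ := fun t =>
    (range (2 ^ z)).filter (fun n => n.Prime ∧ (n + M * t).Prime) with hW
  have key : ∀ p : ℕ × ℕ, p.1 ∈ A → p.2 ∈ A → p.1 / 2 ^ b = p.2 / 2 ^ b → p.1 ≡ p.2 [MOD M] →
      p.1 < p.2 → p.2 = p.1 + M * ((p.2 - p.1) / M) ∧
        (⟨(p.2 - p.1) / M, p.1⟩ : Σ _ : ℕ, ℕ) ∈ (Icc 1 (2 ^ b / M)).sigma W := by
    intro p h1 h2 h3 h4 h5
    have h6 : M ∣ p.2 - p.1 := (Nat.modEq_iff_dvd' h5.le).1 h4
    have h7 : M * ((p.2 - p.1) / M) = p.2 - p.1 := Nat.mul_div_cancel' h6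
    have h8 : p.2 = p.1 + M * ((p.2 - p.1) / M) := by omega
    refine ⟨h8, ?_⟩
    rw [mem_sigma, mem_Icc]
    refine ⟨⟨?_, ?_⟩, ?_⟩
    · exact (Nat.one_le_div_iff hM).2 (Nat.le_of_dvd (by omega) h6)
    · refine Nat.div_le_div_right ?_
      have e1 := Nat.mul_div_le p.1 (2 ^ b)
      have e2 := Nat.lt_mul_div_succ p.2 (Nat.pow_pos (n := b) (show 0 < 2 by norm_num))
      rw [← h3, mul_add, mul_one] at e2
      omega
    · simp only [hW]
      rw [mem_filter, mem_range, ← h8]
      exact ⟨(hA _ h1).2, (hA _ h1).1, (hA _ h2).1⟩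
  have hsig : ((Icc 1 (2 ^ b / M)).sigma W).card = ∑ t ∈ Icc 1 (2 ^ b / M), (W t).card :=
    card_sigma _ _
  have h1 : ((PPr A M b).filter (fun p => p.1 = p.2)).card ≤ A.card := by
    refine card_le_card_of_injOn (fun p => p.1) ?_ ?_
    · intro p hp
      unfold PPr at hp
      simp only [coe_filter, Set.mem_ofPred_eq, mem_filter, mem_product] at hp
      exact hp.1.1.1
    · intro p hp p' hp' h
      simp only [coe_filter, Set.mem_ofPred_eq] at hp hp'
      simp only at h
      ext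
      · exact h
      · rw [← hp.2, ← hp'.2, h]
  have h2 : ((PPr A M b).filter (fun p => p.1 < p.2)).card ≤
      ∑ t ∈ Icc 1 (2 ^ b / M), (W t).card := by
    rw [← hsig]
    refine card_le_card_of_injOn (fun p => (⟨(p.2 - p.1) / M, p.1⟩ : Σ _ : ℕ, ℕ)) ?_ ?_
    · intro p hp
      unfold PPr at hp
      simp only [coe_filter, Set.mem_ofPred_eq, mem_filter, mem_product] at hp
      exact (key p hp.1.1.1 hp.1.1.2 hp.1.2.1 hp.1.2.2 hp.2).2
    · intro p hp p' hp' h
      unfold PPr at hp hp'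
      simp only [coe_filter, Set.mem_ofPred_eq, mem_filter, mem_product] at hp hp'
      have k1 := (key p hp.1.1.1 hp.1.1.2 hp.1.2.1 hp.1.2.2 hp.2).1
      have k2 := (key p' hp'.1.1.1 hp'.1.1.2 hp'.1.2.1 hp'.1.2.2 hp'.2).1
      simp only [Sigma.mk.injEq, heq_eq_eq] at h
      ext
      · exact h.2
      · rw [k1, k2, h.1, h.2]
  have h3 : ((PPr A M b).filter (fun p => p.2 < p.1)).card ≤
      ∑ t ∈ Icc 1 (2 ^ b / M), (W t).card := by
    rw [← hsig]
    refine card_le_card_of_injOn (fun p => (⟨(p.1 - p.2) / M, p.2⟩ : Σ _ : ℕ, ℕ)) ?_ ?_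
    · intro p hp
      unfold PPr at hp
      simp only [coe_filter, Set.mem_ofPred_eq, mem_filter, mem_product] at hp
      exact (key (p.2, p.1) hp.1.1.2 hp.1.1.1 hp.1.2.1.symm hp.1.2.2.symm hp.2).2
    · intro p hp p' hp' h
      unfold PPr at hp hp'
      simp only [coe_filter, Set.mem_ofPred_eq, mem_filter, mem_product] at hp hp'
      have k1 := (key (p.2, p.1) hp.1.1.2 hp.1.1.1 hp.1.2.1.symm hp.1.2.2.symm hp.2).1
      have k2 := (key (p'.2, p'.1) hp'.1.1.2 hp'.1.1.1 hp'.1.2.1.symm hp'.1.2.2.symm hp'.2).1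
      simp only [Sigma.mk.injEq, heq_eq_eq] at h
      simp only at k1 k2
      ext
      · rw [k1, k2, h.1, h.2]
      · exact h.2
  have h4 : (PPr A M b).card ≤ ((PPr A M b).filter (fun p => p.1 = p.2)).card +
      ((PPr A M b).filter (fun p => p.1 < p.2)).card +
      ((PPr A M b).filter (fun p => p.2 < p.1)).card := by
    have h5 : PPr A M b ⊆ ((PPr A M b).filter (fun p => p.1 = p.2) ∪
        (PPr A M b).filter (fun p => p.1 < p.2)) ∪ (PPr A M b).filter (fun p => p.2 < p.1) := by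
      intro p hp
      simp only [mem_union, mem_filter]
      rcases lt_trichotomy p.1 p.2 with h | h | h
      · exact Or.inl (Or.inr ⟨hp, h⟩)
      · exact Or.inl (Or.inl ⟨hp, h⟩)
      · exact Or.inr ⟨hp, h⟩
    refine (card_le_card h5).trans ((card_union_le _ _).trans ?_)
    exact Nat.add_le_add_right (card_union_le _ _) _
  change _ ≤ A.card + 2 * ∑ t ∈ Icc 1 (2 ^ b / M), (W t).card
  omega

end EnLe

end

end Pool.Agent.Helper57.NX3

end

section

set_option autoImplicit false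

open Finset

open scoped BigOperators

namespace Pool.Agent.Helper57.NX3

open Pool.Agent.Helper57.NX (exists_pos_lb)

open Pool.Agent.Helper67.NX2 (Ex)

noncomputable section

/-- primes below the square root are rare -/
theorem small_primes (δ : ℝ) (hδ : 0 < δ) : ∃ z0 : ℕ, ∀ z : ℕ, z0 ≤ z → ∀ A : Finset ℕ, PS z A →
    δ * ((2 : ℝ) ^ z / Real.log ((2 : ℝ) ^ z)) ≤ A.card →
    δ / 2 * ((2 : ℝ) ^ z / Real.log ((2 : ℝ) ^ z)) ≤ (A.filter fun p => 2 ^ z ≤ p ^ 2).card := by
  obtain ⟨z1, hz1⟩ := size_ev 1 (1 / 4) one_pos (by norm_num) 0 (4 / δ)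
  obtain ⟨z2, hz2⟩ := size_ev 1 (1 / 4) one_pos (by norm_num) 1 0
  refine ⟨max (max z1 z2) 2, fun z hz A hA hcard => ?_⟩
  have h1 := (hz1 z ((le_max_left _ _).trans ((le_max_left _ _).trans hz))).1
  have h2 := (hz2 z ((le_max_right _ _).trans ((le_max_left _ _).trans hz))).2
  have hz2' : 2 ≤ z := (le_max_right _ _).trans hz
  have hz0 : (0 : ℝ) < z := by exact_mod_cast (by omega : 0 < z)
  rw [Real.rpow_one] at h1 h2
  rw [pow_one] at h2
  set Z : ℝ := (2 : ℝ) ^ z with hZ
  have hZ0 : 0 < Z := by (clear * -; positivity)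
  have hlog : Real.log Z = z * Real.log 2 := Real.log_pow _ _
  have hlog2 : 0 < Real.log 2 := Real.log_pos (by norm_num)
  have hlogz : 0 < Real.log Z := by rw [hlog]; (clear * - hz2'; positivity)
  have hlogle : Real.log Z ≤ z := by
    rw [hlog]
    have : Real.log 2 ≤ 1 := by (clear * -; linarith [Real.log_two_lt_d9])
    (clear * - this; nlinarith)
  -- `z ≤ Z^(1/4)`
  have h3 : (z : ℝ) ≤ Z ^ (1 / 4 : ℝ) := by
    rw [Real.rpow_neg hZ0.le] at h2
    exact (inv_le_inv₀ (by positivity) hz0).mp h2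
  have hsplit : A.card = (A.filter fun p => 2 ^ z ≤ p ^ 2).card +
      (A.filter fun p => ¬ 2 ^ z ≤ p ^ 2).card := (Finset.card_filter_add_card_filter_not _).symm
  have hsmall : ((A.filter fun p => ¬ 2 ^ z ≤ p ^ 2).card : ℝ) ≤ Z ^ (1 / 2 : ℝ) + 1 := by
    have h4 : (A.filter fun p => ¬ 2 ^ z ≤ p ^ 2) ⊆ range (⌊Z ^ (1 / 2 : ℝ)⌋₊ + 1) := by
      intro p hp
      rw [Finset.mem_filter, not_le] at hp
      rw [Finset.mem_range, Nat.lt_succ_iff]
      refine Nat.le_floor ?_
      have h5 : ((p : ℝ)) ^ 2 ≤ Z := by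
        have : ((p ^ 2 : ℕ) : ℝ) ≤ ((2 ^ z : ℕ) : ℝ) := by exact_mod_cast hp.2.le
        push_cast at this
        exact this
      calc (p : ℝ) = Real.sqrt ((p : ℝ) ^ 2) := (Real.sqrt_sq (Nat.cast_nonneg _)).symm
        _ ≤ Real.sqrt Z := Real.sqrt_le_sqrt h5
        _ = _ := Real.sqrt_eq_rpow Z
    have h6 := Finset.card_le_card h4
    rw [Finset.card_range] at h6
    have h7 : ((A.filter fun p => ¬ 2 ^ z ≤ p ^ 2).card : ℝ) ≤
        ((⌊Z ^ (1 / 2 : ℝ)⌋₊ + 1 : ℕ) : ℝ) := by exact_mod_cast h6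
    push_cast at h7
    have h8 : (⌊Z ^ (1 / 2 : ℝ)⌋₊ : ℝ) ≤ Z ^ (1 / 2 : ℝ) := Nat.floor_le (by positivity)
    (clear * - h7 h8; linarith)
  have hZ1 : 1 ≤ Z := one_le_pow₀ (by norm_num)
  have hmain : Z ^ (1 / 2 : ℝ) + 1 ≤ δ / 2 * (Z / Real.log Z) := by
    have h9 : (1 : ℝ) ≤ Z ^ (1 / 2 : ℝ) := Real.one_le_rpow hZ1 (by norm_num)
    rw [← mul_div_assoc, le_div_iff₀ hlogz]
    have h10 : Z = Z ^ (1 / 2 : ℝ) * (Z ^ (1 / 4 : ℝ) * Z ^ (1 / 4 : ℝ)) := by
      rw [← Real.rpow_add hZ0, ← Real.rpow_add hZ0]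
      norm_num
    have h11 : 4 ≤ δ * Z ^ (1 / 4 : ℝ) := by
      rw [div_le_iff₀ hδ] at h1
      (clear * - h1; linarith)
    calc (Z ^ (1 / 2 : ℝ) + 1) * Real.log Z ≤ (2 * Z ^ (1 / 2 : ℝ)) * Z ^ (1 / 4 : ℝ) := by
          refine mul_le_mul (by (clear * - h9; linarith)) (hlogle.trans h3) hlogz.le (by positivity)
      _ = 1 / 2 * (Z ^ (1 / 2 : ℝ) * Z ^ (1 / 4 : ℝ)) * 4 := by ring
      _ ≤ 1 / 2 * (Z ^ (1 / 2 : ℝ) * Z ^ (1 / 4 : ℝ)) * (δ * Z ^ (1 / 4 : ℝ)) :=
          mul_le_mul_of_nonneg_left h11 (by positivity)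
      _ = δ / 2 * (Z ^ (1 / 2 : ℝ) * (Z ^ (1 / 4 : ℝ) * Z ^ (1 / 4 : ℝ))) := by ring
      _ = δ / 2 * Z := by rw [← h10]
  have h12 : (A.card : ℝ) = ((A.filter fun p => 2 ^ z ≤ p ^ 2).card : ℝ) +
      ((A.filter fun p => ¬ 2 ^ z ≤ p ^ 2).card : ℝ) := by exact_mod_cast hsplit
  have h13 : δ / 2 * (Z / Real.log Z) = δ * (Z / Real.log Z) - δ / 2 * (Z / Real.log Z) := by ring
  (clear * - hcard hsmall hmain h12; linarith)

end

end Pool.Agent.Helper57.NX3

end

section

set_option autoImplicit false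

open Finset Real

namespace Pool.Agent.Helper57.FP

/-- Chebyshev's lower bound. -/
theorem chebyshev_lower : ∀ᶠ x : ℕ in Filter.atTop,
    (1 / 4 : ℝ) * ((x : ℝ) / Real.log x) ≤ ((range (x + 1)).filter Nat.Prime).card := by
  have h1 : ∀ᶠ x : ℝ in Filter.atTop, Real.log x ≤ (1 / 8) * x := by
    have := Real.isLittleO_log_id_atTop.bound (c := 1 / 8) (by norm_num)
    filter_upwards [this, Filter.eventually_ge_atTop 1] with x hx hx1
    rw [Real.norm_of_nonneg (Real.log_nonneg hx1), id, Real.norm_of_nonneg (by linarith)] at hx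
    exact hx
  have h2 : ∀ᶠ x : ℕ in Filter.atTop, Real.log (x : ℝ) ≤ (1 / 8) * x :=
    tendsto_natCast_atTop_atTop.eventually h1
  filter_upwards [h2, Filter.eventually_ge_atTop 4] with x hx hx4
  have hx4' : (4 : ℝ) ≤ x := by exact_mod_cast hx4
  have hlog : 0 < Real.log x := Real.log_pos (by linarith)
  have h3 := Chebyshev.psi_ge x
  have h4 := Chebyshev.psi_le_primeCounting_mul_log x
  have h5 : ((range (x + 1)).filter Nat.Prime).card = Nat.primeCounting x := by
    rw [Nat.primeCounting, Nat.primeCounting', Nat.count_eq_card_filter_range]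
  rw [h5]
  have h6 : Real.log ((x : ℝ) + 1) ≤ 2 * Real.log x := by
    have : (x : ℝ) + 1 ≤ x ^ 2 := by nlinarith
    calc Real.log ((x : ℝ) + 1) ≤ Real.log ((x : ℝ) ^ 2) := Real.log_le_log (by linarith) this
      _ = 2 * Real.log x := by rw [Real.log_pow]; norm_num
  have h7 : (1 / 2 : ℝ) ≤ Real.log 2 := by
    have := Real.log_two_gt_d9; linarith
  have h8 : (1 / 4 : ℝ) * x ≤ (Nat.primeCounting x) * Real.log x := by
    have : (x : ℝ) * (1 / 2) ≤ x * Real.log 2 := mul_le_mul_of_nonneg_left h7 (by linarith)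
    linarith
  rw [← mul_div_assoc, div_le_iff₀ hlog]
  exact h8

end Pool.Agent.Helper57.FP

end

section

set_option autoImplicit false

open Finset

open scoped BigOperators

namespace Pool.Agent.Helper57.NX3

noncomputable section

/-- The pattern theorem for exponents `≥ 2` with gaps `≥ 2`. -/
def PatternE : Prop :=
  ∀ (l : ℕ) (c : Fin l → ℝ), Helper67.NX2.Ex c → ∀ δ : ℝ, 0 < δ → ∀ N0 : ℕ,
    ∃ z0 : ℕ, ∀ z : ℕ, z0 ≤ z → ∀ A : Finset ℕ, PS z A →
    δ * ((2 : ℝ) ^ z / Real.log ((2 : ℝ) ^ z)) ≤ A.card →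
    ∃ m ∈ A, ∃ n : ℕ, N0 ≤ n ∧ ∀ i, m + ⌊(n : ℝ) ^ c i⌋₊ ∈ A

theorem final_all (hP : PatternE) (A : Set ℕ) (hA : ∀ p ∈ A, p.Prime)
    (hd : ∃ δ : ℝ, 0 < δ ∧ ∃ᶠ x : ℕ in Filter.atTop,
      δ * (Nat.primeCounting x : ℝ) ≤ ({p ∈ A | p ≤ x}.ncard : ℝ))
    (l : ℕ) (c : Fin l → ℝ) (hc : ∀ i, 0 < c i) (N : ℕ) :
    ∃ m ∈ A, ∃ n : ℕ, N ≤ n ∧ ∀ i, m + ⌊(n : ℝ) ^ c i⌋₊ ∈ A := by
  classical
  obtain ⟨δ, hδ, hfreq⟩ := hd
  -- the increasing list of exponents
  set E : Finset ℝ := Finset.univ.image c with hE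
  set o := E.orderEmbOfFin rfl with ho
  have hmem : ∀ j, ∃ i, c i = o j := by
    intro j
    have h1 : o j ∈ E := Finset.orderEmbOfFin_mem E rfl j
    obtain ⟨i, _, hi⟩ := Finset.mem_image.1 h1
    exact ⟨i, hi⟩
  have hex : ∀ i, ∃ j, o j = c i := by
    intro i
    have h1 : c i ∈ Set.range o := by
      rw [ho, Finset.range_orderEmbOfFin]
      exact Finset.mem_coe.mpr (Finset.mem_image_of_mem c (Finset.mem_univ i))
    exact h1
  have hopos : ∀ j, 0 < o j := fun j => by
    obtain ⟨i, hi⟩ := hmem j; rw [← hi]; exact hc i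
  -- the multiplier
  obtain ⟨r, hr0, -, hr⟩ := Helper57.NX.exists_pos_lb (fun j => o j) hopos
  obtain ⟨g, hg0, hg⟩ := Helper57.NX.exists_gap (fun j => o j) o.strictMono
  obtain ⟨b, hb⟩ := exists_nat_ge (max (2 / r) (2 / g))
  have hb1 : 2 ≤ b * r := by
    have h1 : 2 / r ≤ b := (le_max_left _ _).trans hb
    rwa [div_le_iff₀ hr0] at h1
  have hb2 : 2 ≤ b * g := by
    have h1 : 2 / g ≤ b := (le_max_right _ _).trans hb
    rwa [div_le_iff₀ hg0] at h1
  have hb0 : (0 : ℝ) ≤ b := Nat.cast_nonneg b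
  have hbpos : 0 < b := by
    rcases Nat.eq_zero_or_pos b with h | h
    · rw [h] at hb1; norm_num at hb1
    · exact h
  have hEx : Helper67.NX2.Ex (fun j => (b : ℝ) * o j) := by
    refine ⟨fun j => ?_, fun i j hij => ?_⟩
    · exact hb1.trans (mul_le_mul_of_nonneg_left (hr j) hb0)
    · have h1 := mul_le_mul_of_nonneg_left (hg i j hij) hb0
      rw [mul_add] at h1
      linarith
  obtain ⟨z0, hz0⟩ := hP E.card (fun j => (b : ℝ) * o j) hEx (δ / 8) (by positivity) N
  have hd2 := hfreq.and_eventually Helper57.FP.chebyshev_lower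
  rw [Filter.frequently_atTop] at hd2
  obtain ⟨x, hx, hxd, hxc⟩ := hd2 (2 ^ (max z0 2))
  set z := Nat.log 2 x + 1 with hz
  have hxpos : 0 < x := lt_of_lt_of_le (by positivity) hx
  have h1 : 2 ^ (Nat.log 2 x) ≤ x := Nat.pow_log_le_self 2 hxpos.ne'
  have h2 : x < 2 ^ z := Nat.lt_pow_succ_log_self (by norm_num) x
  have h3 : max z0 2 < z := by
    by_contra hne
    have : 2 ^ z ≤ 2 ^ (max z0 2) := Nat.pow_le_pow_right (by norm_num) (not_lt.mp hne)
    omega
  have hz0' : z0 ≤ z := (le_max_left _ _).trans h3.le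
  set F : Finset ℕ := (range (2 ^ z)).filter (· ∈ A) with hF
  have hFA : ∀ q ∈ F, q ∈ A := fun q hq => (Finset.mem_filter.mp hq).2
  have h4 : {p ∈ A | p ≤ x}.ncard ≤ F.card := by
    have h5 : {p ∈ A | p ≤ x} ⊆ (F : Set ℕ) := by
      intro p hp
      rw [Finset.mem_coe, hF, Finset.mem_filter, Finset.mem_range]
      exact ⟨lt_of_le_of_lt hp.2 h2, hp.1⟩
    calc {p ∈ A | p ≤ x}.ncard ≤ (F : Set ℕ).ncard := Set.ncard_le_ncard h5 F.finite_toSet
      _ = F.card := Set.ncard_coe_finset F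
  obtain ⟨m, hm, n, hn, hall⟩ := hz0 z hz0' F
    (by
      intro p hp
      rw [hF, Finset.mem_filter, Finset.mem_range] at hp
      exact ⟨hA p hp.2, hp.1⟩)
    (by
      have h5 : ((range (x + 1)).filter Nat.Prime).card = Nat.primeCounting x := by
        rw [Nat.primeCounting, Nat.primeCounting', Nat.count_eq_card_filter_range]
      rw [h5] at hxc
      have h4' : (({p ∈ A | p ≤ x}.ncard : ℕ) : ℝ) ≤ F.card := by exact_mod_cast h4
      have h6 : (2 : ℝ) ≤ x := by
        have : 2 ≤ x := by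
          calc 2 = 2 ^ 1 := rfl
            _ ≤ 2 ^ (max z0 2) := Nat.pow_le_pow_right (by norm_num)
                (le_trans (by norm_num) (le_max_right _ _))
            _ ≤ x := hx
        exact_mod_cast this
      have h7 : (x : ℝ) ≤ 2 ^ z := by exact_mod_cast h2.le
      have h8 : 0 < Real.log x := Real.log_pos (by linarith)
      have h9 : Real.log x ≤ Real.log (2 ^ z) := Real.log_le_log (by linarith) h7
      have h10 : (2 : ℝ) ^ z ≤ 2 * x := by
        rw [hz, pow_succ]
        have : ((2 : ℝ) ^ (Nat.log 2 x)) ≤ x := by exact_mod_cast h1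
        linarith
      calc δ / 8 * ((2 : ℝ) ^ z / Real.log (2 ^ z)) ≤ δ / 8 * (2 * x / Real.log x) := by
            apply mul_le_mul_of_nonneg_left _ (by positivity)
            exact div_le_div₀ (by positivity) h10 h8 h9
        _ = δ * ((1 / 4 : ℝ) * ((x : ℝ) / Real.log x)) := by ring
        _ ≤ δ * (Nat.primeCounting x : ℝ) := mul_le_mul_of_nonneg_left hxc hδ.le
        _ ≤ _ := hxd.trans h4')
  refine ⟨m, hFA m hm, n ^ b, hn.trans (Nat.le_self_pow hbpos.ne' n), ?_⟩
  intro i
  obtain ⟨j, hj⟩ := hex i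
  have h5 := hall j
  have h6 : (((n ^ b : ℕ) : ℝ)) ^ c i = (n : ℝ) ^ ((b : ℝ) * o j) := by
    rw [Nat.cast_pow, ← hj, Real.rpow_mul (Nat.cast_nonneg n), Real.rpow_natCast]
  rw [h6]
  exact hFA _ h5

end

end Pool.Agent.Helper57.NX3

end
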