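import Pool.Agent.Helper23.MC.Inst

/-!
Parts of Helper64.NX.LpKey, Helper64.NX.LpBins, Helper52.NX2.ArTopAux, Helper67.NX2.DefsB, Helper46.NX2.ReplaceAp, Helper80.NX2.GmAp, Helper14.NX2.LocalThm, Helper90.NX2.LocalAux, Helper90.NX2.LocalMainOf, Helper61.NX.Pattern, Helper68.NX3.FreezeReal, Helper85.NX3.GoodSet, Helper59.NX.Es0
-/

attribute [local instance 5000]
  Pool.Agent.Helper23.MC.Inst.rCharZero Pool.Agent.Helper23.MC.Inst.rALM
  Pool.Agent.Helper23.MC.Inst.rARM Pool.Agent.Helper23.MC.Inst.rALSM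
  Pool.Agent.Helper23.MC.Inst.rARSM Pool.Agent.Helper23.MC.Inst.rARRLE
  Pool.Agent.Helper23.MC.Inst.rALRLE Pool.Agent.Helper23.MC.Inst.rARRLT
  Pool.Agent.Helper23.MC.Inst.rALRLT Pool.Agent.Helper23.MC.Inst.rPMRLT
  Pool.Agent.Helper23.MC.Inst.rMPRLT Pool.Agent.Helper23.MC.Inst.rPMM
  Pool.Agent.Helper23.MC.Inst.rMPM Pool.Agent.Helper23.MC.Inst.rPMSM
  Pool.Agent.Helper23.MC.Inst.rMPSM Pool.Agent.Helper23.MC.Inst.rEAOL
  Pool.Agent.Helper23.MC.Inst.rIOR Pool.Agent.Helper23.MC.Inst.rISOR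
  Pool.Agent.Helper23.MC.Inst.rNZD Pool.Agent.Helper23.MC.Inst.rcCharZero
  Pool.Agent.Helper23.MC.Inst.rcNZD Pool.Agent.Helper23.MC.Inst.zCharZero
  Pool.Agent.Helper23.MC.Inst.zALM Pool.Agent.Helper23.MC.Inst.zARM
  Pool.Agent.Helper23.MC.Inst.zALSM Pool.Agent.Helper23.MC.Inst.zARSM
  Pool.Agent.Helper23.MC.Inst.zIOR Pool.Agent.Helper23.MC.Inst.zISOR
  Pool.Agent.Helper23.MC.Inst.zNZD Pool.Agent.Helper23.MC.Inst.qCharZero
  Pool.Agent.Helper23.MC.Inst.mR Pool.Agent.Helper23.MC.Inst.mC Pool.Agent.Helper23.MC.Inst.mRC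
  Pool.Agent.Helper23.MC.Inst.rPSM Pool.Agent.Helper23.MC.Inst.rCSM
  Pool.Agent.Helper23.MC.Inst.cAdd Pool.Agent.Helper23.MC.Inst.cAddM
  Pool.Agent.Helper23.MC.Inst.cMul Pool.Agent.Helper23.MC.Inst.cMon

namespace Pool.Agent.Helper57.NX
end Pool.Agent.Helper57.NX

section

set_option autoImplicit false

open Finset

open scoped BigOperators ComplexConjugate

namespace Pool.Agent.Helper57.NX

noncomputable section

section Form64

variable {m N : ℕ} [NeZero N]

open Classical in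
/-- the indicator of pairs of points with close frequencies -/
def ind64 (X : ℕ) (r : ZMod N) (cc : ℕ → ℂ) (φ : ℕ → ℝ) (w0 : ℝ) (p p' : ZMod N) : ℝ :=
  if cc ((p - r).val / X) ≠ 0 ∧ cc ((p' - r).val / X) ≠ 0 ∧
    |φ ((p - r).val / X) - φ ((p' - r).val / X)| ≤ w0 then 1 else 0

end Form64

end

end Pool.Agent.Helper57.NX

end

section

set_option autoImplicit false

open Finset

open scoped BigOperators ComplexConjugate

namespace Pool.Agent.Helper57.NX

noncomputable section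

section Bins64

/-- the blocks of the cell `a` -/
abbrev cell64 (q0 a : ℕ) : Finset ℕ := Ico (a * q0) ((a + 1) * q0)

lemma mem_cell64 {q0 : ℕ} (hq : 1 ≤ q0) {a j : ℕ} : j ∈ cell64 q0 a ↔ j / q0 = a := by
  rw [mem_Ico, Nat.div_eq_iff hq]
  constructor
  · rintro ⟨h1, h2⟩
    refine ⟨h1, ?_⟩
    rw [Nat.add_mul] at h2
    omega
  · rintro ⟨h1, h2⟩
    refine ⟨h1, ?_⟩
    rw [Nat.add_mul]
    omega

/-- the bin of the block `j` -/
def bin64 (φ : ℕ → ℝ) (w0 : ℝ) (j : ℕ) : ℤ := ⌊φ j / w0⌋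

lemma bin_close64 {φ : ℕ → ℝ} {w0 : ℝ} (hw0 : 0 < w0) (j : ℕ) :
    |φ j - w0 * bin64 φ w0 j| ≤ w0 := by
  unfold bin64
  have h1 := Int.floor_le (φ j / w0)
  have h2 := Int.lt_floor_add_one (φ j / w0)
  rw [le_div_iff₀ hw0] at h1
  rw [div_lt_iff₀ hw0] at h2
  rw [abs_le]
  constructor <;> (clear * - hw0 h1 h2; nlinarith)

lemma bin_near64 {φ : ℕ → ℝ} {w0 : ℝ} (hw0 : 0 < w0) {j j' : ℕ} (h : |φ j - φ j'| ≤ w0) :
    bin64 φ w0 j' ∈ ({bin64 φ w0 j - 1, bin64 φ w0 j, bin64 φ w0 j + 1} : Finset ℤ) := by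
  unfold bin64
  obtain ⟨h1, h2⟩ := abs_le.1 h
  have h3 : φ j' / w0 ≤ φ j / w0 + 1 := by
    rw [div_add_one hw0.ne', div_le_div_iff_of_pos_right hw0]
    (clear * - h1; linarith)
  have h4 : φ j / w0 - 1 ≤ φ j' / w0 := by
    rw [div_sub_one hw0.ne', div_le_div_iff_of_pos_right hw0]
    (clear * - h2; linarith)
  have h5 : ⌊φ j' / w0⌋ ≤ ⌊φ j / w0⌋ + 1 := by
    have := Int.floor_mono h3
    rwa [Int.floor_add_one] at this
  have h6 : ⌊φ j / w0⌋ - 1 ≤ ⌊φ j' / w0⌋ := by
    have := Int.floor_mono h4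
    rwa [Int.floor_sub_one] at this
  simp only [mem_insert, mem_singleton]
  omega

variable (cc : ℕ → ℂ) (φ : ℕ → ℝ) (w0 η : ℝ) (q0 : ℕ)

open Classical in
/-- the blocks of the cell `a` with nonzero coefficient and bin `b` -/
def bset64 (a : ℕ) (b : ℤ) : Finset ℕ :=
  (cell64 q0 a).filter fun j => cc j ≠ 0 ∧ bin64 φ w0 j = b

/-- popular blocks -/
def pop64 (j : ℕ) : Prop := η * q0 ≤ #(bset64 cc φ w0 q0 (j / q0) (bin64 φ w0 j))

open Classical in
/-- the popular part of the coefficients -/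
def ccp64 (j : ℕ) : ℂ := if pop64 cc φ w0 η q0 j then cc j else 0

open Classical in
/-- the unpopular part of the coefficients -/
def ccr64 (j : ℕ) : ℂ := if pop64 cc φ w0 η q0 j then 0 else cc j

lemma ccp_add_ccr64 (j : ℕ) : ccp64 cc φ w0 η q0 j + ccr64 cc φ w0 η q0 j = cc j := by
  unfold ccp64 ccr64
  split_ifs <;> simp

lemma norm_ccr64 (hcc : ∀ j, ‖cc j‖ ≤ 1) (j : ℕ) : ‖ccr64 cc φ w0 η q0 j‖ ≤ 1 := by
  unfold ccr64
  split_ifs
  · simp
  · exact hcc j

section Rest

variable {N : ℕ} [NeZero N]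

lemma blk_fiber64 {X L : ℕ} (hX : 1 ≤ X) (hLN : L ≤ N) (r z : ZMod N) (j : ℕ) :
    #((range L).filter fun w : ℕ => (z + (w : ZMod N) - r).val / X = j) ≤ X := by
  have h1 : #((range L).filter fun w : ℕ => (z + (w : ZMod N) - r).val / X = j) ≤
      #(Ico (j * X) (j * X + X)) := by
    refine card_le_card_of_injOn (fun w : ℕ => (z + (w : ZMod N) - r).val) ?_ ?_
    · intro w hw
      rw [mem_coe, mem_filter] at hw
      rw [mem_coe, mem_Ico]
      have h2 := hw.2
      rw [Nat.div_eq_iff hX] at h2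
      show j * X ≤ (z + (w : ZMod N) - r).val ∧ (z + (w : ZMod N) - r).val < j * X + X
      omega
    · intro w hw w' hw' h
      rw [mem_coe, mem_filter, mem_range] at hw hw'
      have h2 : z + (w : ZMod N) - r = z + (w' : ZMod N) - r := ZMod.val_injective N h
      have h3 : (w : ZMod N) = (w' : ZMod N) := by
        have := congrArg (fun t => t - z + r) h2
        ring_nf at this
        exact this
      have h4 := congrArg ZMod.val h3
      rwa [ZMod.val_natCast, ZMod.val_natCast, Nat.mod_eq_of_lt (by omega),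
        Nat.mod_eq_of_lt (by omega)] at h4
  rwa [Nat.card_Ico, Nat.add_sub_cancel_left] at h1

open Classical in
lemma bin_count64 {X L : ℕ} (hX : 1 ≤ X) (hq : 1 ≤ q0) (hη : 0 ≤ η) (hLN : L ≤ N) (r z : ZMod N)
    (a : ℕ) (b : ℤ) :
    ((#((range L).filter fun w : ℕ => (z + (w : ZMod N) - r).val / X / q0 = a ∧
      bin64 φ w0 ((z + (w : ZMod N) - r).val / X) = b ∧
      ccr64 cc φ w0 η q0 ((z + (w : ZMod N) - r).val / X) ≠ 0) : ℕ) : ℝ) ≤ η * q0 * X := by
  set s := (range L).filter fun w : ℕ => (z + (w : ZMod N) - r).val / X / q0 = a ∧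
      bin64 φ w0 ((z + (w : ZMod N) - r).val / X) = b ∧
      ccr64 cc φ w0 η q0 ((z + (w : ZMod N) - r).val / X) ≠ 0 with hs
  rcases s.eq_empty_or_nonempty with he | ⟨w1, hw1⟩
  · rw [he, card_empty]
    push_cast
    (clear * - hη hq hX; positivity)
  have hJ : s.image (fun w : ℕ => (z + (w : ZMod N) - r).val / X) ⊆ bset64 cc φ w0 q0 a b := by
    intro j hj
    obtain ⟨w, hw, rfl⟩ := mem_image.1 hj
    rw [hs, mem_filter] at hw
    unfold bset64
    rw [mem_filter, mem_cell64 hq]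
    refine ⟨hw.2.1, ?_, hw.2.2.1⟩
    intro h0
    apply hw.2.2.2
    unfold ccr64
    split_ifs
    · rfl
    · exact h0
  have h1 : #s ≤ X * #(s.image (fun w : ℕ => (z + (w : ZMod N) - r).val / X)) := by
    refine card_le_mul_card_image s X fun j _ => ?_
    refine (card_le_card ?_).trans (blk_fiber64 hX hLN r z j)
    intro w hw
    rw [mem_filter, hs, mem_filter] at hw
    rw [mem_filter]
    exact ⟨hw.1.1, hw.2⟩
  have h2 := card_le_card hJ
  have h3 : ((#(bset64 cc φ w0 q0 a b) : ℕ) : ℝ) ≤ η * q0 := by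
    rw [hs, mem_filter] at hw1
    obtain ⟨-, h4, h5, h6⟩ := hw1
    have h7 : ¬ pop64 cc φ w0 η q0 ((z + (w1 : ZMod N) - r).val / X) := by
      intro h
      apply h6
      unfold ccr64
      rw [if_pos h]
    unfold pop64 at h7
    rw [h4, h5] at h7
    exact (not_le.1 h7).le
  have h4 : (#s : ℝ) ≤ X * (#(bset64 cc φ w0 q0 a b) : ℝ) := by
    exact_mod_cast h1.trans (Nat.mul_le_mul_left _ h2)
  have hX0 : (0 : ℝ) ≤ X := Nat.cast_nonneg _
  (clear * - h4 h3 hX0; nlinarith [mul_le_mul_of_nonneg_left h3 hX0])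

end Rest

open Classical in
/-- the popular bins of the cell `a` -/
def pbins64 (a : ℕ) : Finset ℤ :=
  ((cell64 q0 a).filter fun j => ccp64 cc φ w0 η q0 j ≠ 0).image (bin64 φ w0)

lemma ccp_ne64 {j : ℕ} (h : ccp64 cc φ w0 η q0 j ≠ 0) :
    pop64 cc φ w0 η q0 j ∧ cc j ≠ 0 ∧ ccp64 cc φ w0 η q0 j = cc j := by
  unfold ccp64 at h ⊢
  split_ifs at h ⊢ with hp
  · exact ⟨hp, h, rfl⟩
  · exact absurd rfl h

lemma card_pbins64 (hq : 1 ≤ q0) (hη : 0 < η) (a : ℕ) :
    ((#(pbins64 cc φ w0 η q0 a) : ℕ) : ℝ) ≤ 1 / η := by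
  classical
  have hq0 : (0 : ℝ) < q0 := by exact_mod_cast hq
  have h1 : ∀ b ∈ pbins64 cc φ w0 η q0 a, η * q0 ≤ (#(bset64 cc φ w0 q0 a b) : ℝ) := by
    intro b hb
    unfold pbins64 at hb
    obtain ⟨j, hj, rfl⟩ := mem_image.1 hb
    rw [mem_filter, mem_cell64 hq] at hj
    have h2 := (ccp_ne64 cc φ w0 η q0 hj.2).1
    unfold pop64 at h2
    rwa [hj.1] at h2
  have h2 : ∑ b ∈ pbins64 cc φ w0 η q0 a, #(bset64 cc φ w0 q0 a b) ≤ q0 := by
    have h3 : ∑ b ∈ pbins64 cc φ w0 η q0 a, #(bset64 cc φ w0 q0 a b) =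
        #((pbins64 cc φ w0 η q0 a).biUnion fun b => bset64 cc φ w0 q0 a b) := by
      rw [card_biUnion]
      intro b _ b' _ hbb
      rw [Function.onFun, disjoint_left]
      intro j hj hj'
      unfold bset64 at hj hj'
      rw [mem_filter] at hj hj'
      exact hbb (hj.2.2.symm.trans hj'.2.2)
    rw [h3]
    have h4 : #((pbins64 cc φ w0 η q0 a).biUnion fun b => bset64 cc φ w0 q0 a b) ≤
        #(cell64 q0 a) := by
      refine card_le_card ?_
      rw [biUnion_subset]
      exact fun b _ => filter_subset _ _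
    refine h4.trans (le_of_eq ?_)
    rw [Nat.card_Ico, Nat.add_mul, one_mul, Nat.add_sub_cancel_left]
  have h3 : (#(pbins64 cc φ w0 η q0 a) : ℝ) * (η * q0) ≤ q0 := by
    have h4 := sum_le_sum h1
    rw [sum_const, nsmul_eq_mul] at h4
    refine h4.trans ?_
    exact_mod_cast h2
  rw [le_div_iff₀ hη]
  have h5 : (#(pbins64 cc φ w0 η q0 a) : ℝ) * η * q0 ≤ 1 * q0 := by (clear * - h3; linarith)
  exact le_of_mul_le_mul_right h5 hq0

open Classical in
/-- the rank of the bin of `j` among the popular bins of its cell -/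
def rank64 (j : ℕ) : ℕ :=
  #((pbins64 cc φ w0 η q0 (j / q0)).filter fun b => b < bin64 φ w0 j)

lemma bin_mem64 (hq : 1 ≤ q0) {j : ℕ} (h : ccp64 cc φ w0 η q0 j ≠ 0) :
    bin64 φ w0 j ∈ pbins64 cc φ w0 η q0 (j / q0) := by
  classical
  unfold pbins64
  refine mem_image.2 ⟨j, ?_, rfl⟩
  rw [mem_filter, mem_cell64 hq]
  exact ⟨rfl, h⟩

lemma rank_lt64 (hq : 1 ≤ q0) {j : ℕ} (h : ccp64 cc φ w0 η q0 j ≠ 0) :
    rank64 cc φ w0 η q0 j < #(pbins64 cc φ w0 η q0 (j / q0)) := by
  classical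
  unfold rank64
  refine card_lt_card ?_
  rw [ssubset_iff_of_subset (filter_subset _ _)]
  refine ⟨bin64 φ w0 j, bin_mem64 cc φ w0 η q0 hq h, ?_⟩
  rw [mem_filter]
  exact fun h => lt_irrefl _ h.2

lemma rank_inj64 (hq : 1 ≤ q0) {j j' : ℕ} (h : ccp64 cc φ w0 η q0 j ≠ 0)
    (h' : ccp64 cc φ w0 η q0 j' ≠ 0) (ha : j / q0 = j' / q0)
    (hr : rank64 cc φ w0 η q0 j = rank64 cc φ w0 η q0 j') : bin64 φ w0 j = bin64 φ w0 j' := by
  classical
  have key : ∀ j j' : ℕ, ccp64 cc φ w0 η q0 j ≠ 0 → j / q0 = j' / q0 →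
      rank64 cc φ w0 η q0 j = rank64 cc φ w0 η q0 j' → ¬ bin64 φ w0 j < bin64 φ w0 j' := by
    intro j j' h ha hr hlt
    have h1 : rank64 cc φ w0 η q0 j < rank64 cc φ w0 η q0 j' := by
      unfold rank64
      rw [← ha]
      refine card_lt_card ?_
      rw [ssubset_iff_of_subset]
      · refine ⟨bin64 φ w0 j, ?_, ?_⟩
        · rw [mem_filter]
          exact ⟨bin_mem64 cc φ w0 η q0 hq h, hlt⟩
        · rw [mem_filter]
          exact fun h => lt_irrefl _ h.2
      · intro b hb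
        rw [mem_filter] at hb ⊢
        exact ⟨hb.1, hb.2.trans hlt⟩
    omega
  have h1 := key j j' h ha hr
  have h2 := key j' j h' ha.symm hr.symm
  omega

/-- the part of the popular coefficients of rank `s` -/
def ccs64 (s j : ℕ) : ℂ := if rank64 cc φ w0 η q0 j = s then ccp64 cc φ w0 η q0 j else 0

open Classical in
/-- the common frequency of the cell `a` for the rank `s` -/
def th64 (s a : ℕ) : ℝ :=
  if h : ∃ j, j / q0 = a ∧ ccs64 cc φ w0 η q0 s j ≠ 0 then w0 * bin64 φ w0 h.choose else 0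

lemma ccs_ne64 {s j : ℕ} (h : ccs64 cc φ w0 η q0 s j ≠ 0) :
    rank64 cc φ w0 η q0 j = s ∧ ccp64 cc φ w0 η q0 j ≠ 0 := by
  unfold ccs64 at h
  split_ifs at h with hr
  · exact ⟨hr, h⟩
  · exact absurd rfl h

lemma ccs_cases64 (s j : ℕ) : ccs64 cc φ w0 η q0 s j = cc j ∨ ccs64 cc φ w0 η q0 s j = 0 := by
  unfold ccs64 ccp64
  split_ifs <;> simp

lemma th_close64 (hq : 1 ≤ q0) (hw0 : 0 < w0) {s j : ℕ} (h : ccs64 cc φ w0 η q0 s j ≠ 0) :
    |φ j - th64 cc φ w0 η q0 s (j / q0)| ≤ w0 := by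
  have hex : ∃ j', j' / q0 = j / q0 ∧ ccs64 cc φ w0 η q0 s j' ≠ 0 := ⟨j, rfl, h⟩
  unfold th64
  rw [dif_pos hex]
  obtain ⟨h1, h2⟩ := hex.choose_spec
  obtain ⟨h3, h4⟩ := ccs_ne64 cc φ w0 η q0 h2
  obtain ⟨h5, h6⟩ := ccs_ne64 cc φ w0 η q0 h
  have h7 := rank_inj64 cc φ w0 η q0 hq h4 h6 h1 (h3.trans h5.symm)
  rw [h7]
  exact bin_close64 hw0 j

lemma sum_ccs64 (hq : 1 ≤ q0) (hη : 0 < η) (j : ℕ) :
    ccp64 cc φ w0 η q0 j = ∑ s ∈ range ⌈1 / η⌉₊, ccs64 cc φ w0 η q0 s j := by
  classical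
  unfold ccs64
  by_cases h : ccp64 cc φ w0 η q0 j = 0
  · simp [h]
  · have h1 := rank_lt64 cc φ w0 η q0 hq h
    have h2 := card_pbins64 cc φ w0 η q0 hq hη (j / q0)
    have h3 : rank64 cc φ w0 η q0 j < ⌈1 / η⌉₊ := by
      rw [Nat.lt_ceil]
      refine lt_of_lt_of_le ?_ h2
      exact_mod_cast h1
    rw [sum_ite_eq, if_pos (mem_range.2 h3)]

end Bins64

end

end Pool.Agent.Helper57.NX

end

section

set_option autoImplicit false

open Finset

open scoped BigOperators ComplexConjugate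

namespace Pool.Agent.Helper67.NX2

open Pool.Agent.Helper57.NX

noncomputable section

section Tv52

variable {N : ℕ} [NeZero N]

/-- variation of a function of `x.val`, windows may contain the jump of the circle -/
lemma sum_wrap52 (φ : ℕ → ℂ) (hφ : ∀ n, ‖φ n‖ ≤ 1) (V : ℝ) (W : ℕ) (hW : W ≤ N)
    (h : ∀ n l, n + l < N → l ≤ W → ∑ j ∈ range l, ‖φ (n + j + 1) - φ (n + j)‖ ≤ V) (x : ZMod N) :
    ∑ j ∈ range W, ‖φ ((x + (j : ZMod N) + 1).val) - φ ((x + (j : ZMod N)).val)‖ ≤ 2 * V + 2 := by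
  have hN : 0 < N := Nat.pos_of_ne_zero (NeZero.ne N)
  have hV : 0 ≤ V := by
    have := h 0 0 (by omega) (by omega)
    simpa using this
  set n := x.val with hn
  have hnN : n < N := ZMod.val_lt x
  have hx : x = (n : ZMod N) := (ZMod.natCast_zmod_val x).symm
  rcases lt_or_ge (n + W) N with hlt | hge
  · have h1 : ∑ j ∈ range W, ‖φ ((x + (j : ZMod N) + 1).val) - φ ((x + (j : ZMod N)).val)‖ =
        ∑ j ∈ range W, ‖φ (n + j + 1) - φ (n + j)‖ := by
      refine sum_congr rfl fun j hj => ?_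
      have hj' := mem_range.1 hj
      have e1 : x + (j : ZMod N) = ((n + j : ℕ) : ZMod N) := by rw [hx]; push_cast; ring
      have e2 : x + (j : ZMod N) + 1 = ((n + j + 1 : ℕ) : ZMod N) := by rw [hx]; push_cast; ring
      rw [e2, e1, ZMod.val_natCast_of_lt (by omega), ZMod.val_natCast_of_lt (by omega)]
    rw [h1]
    have := h n W hlt le_rfl
    (clear * - hV this; linarith)
  · obtain ⟨l1, hl1⟩ : ∃ l1, n + l1 + 1 = N := ⟨N - 1 - n, by omega⟩
    obtain ⟨l2, hl2⟩ : ∃ l2, W = l1 + 1 + l2 := ⟨W - l1 - 1, by omega⟩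
    rw [hl2, sum_range_add, sum_range_succ]
    have h1 : ∑ j ∈ range l1, ‖φ ((x + (j : ZMod N) + 1).val) - φ ((x + (j : ZMod N)).val)‖ ≤ V := by
      have h2 : ∑ j ∈ range l1, ‖φ ((x + (j : ZMod N) + 1).val) - φ ((x + (j : ZMod N)).val)‖ =
          ∑ j ∈ range l1, ‖φ (n + j + 1) - φ (n + j)‖ := by
        refine sum_congr rfl fun j hj => ?_
        have hj' := mem_range.1 hj
        have e1 : x + (j : ZMod N) = ((n + j : ℕ) : ZMod N) := by rw [hx]; push_cast; ring
        have e2 : x + (j : ZMod N) + 1 = ((n + j + 1 : ℕ) : ZMod N) := by rw [hx]; push_cast; ring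
        rw [e2, e1, ZMod.val_natCast_of_lt (by omega), ZMod.val_natCast_of_lt (by omega)]
      rw [h2]
      exact h n l1 (by omega) (by omega)
    exact by
      have h2 : ‖φ ((x + (l1 : ZMod N) + 1).val) - φ ((x + (l1 : ZMod N)).val)‖ ≤ 2 := by
        refine (norm_sub_le _ _).trans ?_
        have := hφ ((x + (l1 : ZMod N) + 1).val)
        have := hφ ((x + (l1 : ZMod N)).val)
        linarith
      have h3 : ∑ j ∈ range l2, ‖φ ((x + ((l1 + 1 + j : ℕ) : ZMod N) + 1).val) -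
          φ ((x + ((l1 + 1 + j : ℕ) : ZMod N)).val)‖ ≤ V := by
        have h4 : ∑ j ∈ range l2, ‖φ ((x + ((l1 + 1 + j : ℕ) : ZMod N) + 1).val) -
            φ ((x + ((l1 + 1 + j : ℕ) : ZMod N)).val)‖ =
            ∑ j ∈ range l2, ‖φ (0 + j + 1) - φ (0 + j)‖ := by
          refine sum_congr rfl fun j hj => ?_
          have hj' := mem_range.1 hj
          have e0 : ((n + l1 + 1 : ℕ) : ZMod N) = 0 := by rw [hl1]; exact ZMod.natCast_self N
          have e1 : x + ((l1 + 1 + j : ℕ) : ZMod N) = ((0 + j : ℕ) : ZMod N) := by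
            have : x + ((l1 + 1 + j : ℕ) : ZMod N) = ((n + l1 + 1 : ℕ) : ZMod N) + (j : ZMod N) := by
              rw [hx]; push_cast; ring
            rw [this, e0, zero_add, zero_add]
          have e2 : x + ((l1 + 1 + j : ℕ) : ZMod N) + 1 = ((0 + j + 1 : ℕ) : ZMod N) := by
            rw [e1]; push_cast; ring
          rw [e2, e1, ZMod.val_natCast_of_lt (by omega), ZMod.val_natCast_of_lt (by omega)]
        rw [h4]
        exact h 0 l2 (by omega) (by omega)
      push_cast at h3 ⊢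
      (clear * - h1 h2 h3; linarith)

end Tv52

end

end Pool.Agent.Helper67.NX2

end

section

set_option autoImplicit false

open Finset

open scoped BigOperators ComplexConjugate

namespace Pool.Agent.Helper67.NX2

open Pool.Agent.Helper57.NX

noncomputable section

/-- average over the fibre `ρ` of `ZMod M → ZMod M'` (`M' ∣ M`) -/
def fav {M : ℕ} [NeZero M] (M' : ℕ) (H : ZMod M → ℝ) (ρ : ZMod M') : ℝ :=
  𝔼 x ∈ univ.filter (fun x : ZMod M => ((x.val : ℕ) : ZMod M') = ρ), H x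

end

end Pool.Agent.Helper67.NX2

end

section

set_option autoImplicit false

open Finset

open scoped BigOperators ComplexConjugate

namespace Pool.Agent.Helper67.NX2

open Pool.Agent.Helper57.NX

noncomputable section

/-- size of the error term -/
lemma rap_err (D e ε : ℝ) (hD : 1 ≤ D) (he : 1 ≤ e) (hε : 0 < ε) (hε' : ε ≤ 1 / 8)
    (b q : ℕ) (hb : (2 : ℝ) ^ b ≤ D ^ (e - 2 * ε)) (hq : 1 ≤ q) (hqD : (q : ℝ) ≤ D ^ (ε / 8)) :
    1 ≤ ⌊D ^ (e - 3 * ε / 2) / q⌋₊ ∧
    ((⌊D ^ (e - 3 * ε / 2) / q⌋₊ : ℕ) : ℝ) * q ≤ D ^ (e - 3 * ε / 2) ∧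
    2 * ((2 : ℝ) ^ b / q + 1) / ((⌊D ^ (e - 3 * ε / 2) / q⌋₊ : ℕ) : ℝ) ≤ 8 * D ^ (-(ε / 2)) := by
  have hD0 : 0 < D := by (clear * - hD hε hε'; linarith)
  have hq0 : (0 : ℝ) < q := by exact_mod_cast hq
  set E := D ^ (e - 3 * ε / 2) with hE
  have hE0 : 0 < E := Real.rpow_pos_of_pos hD0 _
  have h1 : (q : ℝ) ≤ E * D ^ (-(ε / 2)) := by
    refine hqD.trans ?_
    rw [hE, ← Real.rpow_add hD0]
    exact Real.rpow_le_rpow_of_exponent_le hD (by (clear * - he hε hε'; linarith))
  have h2 : (2 : ℝ) ^ b ≤ E * D ^ (-(ε / 2)) := by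
    refine hb.trans (le_of_eq ?_)
    rw [hE, ← Real.rpow_add hD0]
    congr 1
    ring
  exact by
    have h3 : D ^ (-(ε / 2)) ≤ 1 := Real.rpow_le_one_of_one_le_of_nonpos hD (by (clear * - hε; linarith))
    have h4 : (q : ℝ) ≤ E := h1.trans (mul_le_of_le_one_right hE0.le h3)
    have h5 : 1 ≤ E / q := by rw [le_div_iff₀ hq0]; (clear * - h4; linarith)
    have hL1 : 1 ≤ ⌊E / q⌋₊ := by rw [Nat.one_le_floor_iff]; exact h5
    have hL2 : ((⌊E / q⌋₊ : ℕ) : ℝ) ≤ E / q := Nat.floor_le (by positivity)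
    have hL3 : E / q < (⌊E / q⌋₊ : ℕ) + 1 := Nat.lt_floor_add_one _
    exact by
      have hL1' : (1 : ℝ) ≤ (⌊E / q⌋₊ : ℕ) := by exact_mod_cast hL1
      have hL4 : E / q ≤ 2 * (⌊E / q⌋₊ : ℕ) := by (clear * - hL3 hL1'; linarith)
      refine ⟨hL1, ?_, ?_⟩
      · rwa [← le_div_iff₀ hq0]
      · rw [div_le_iff₀ (by (clear * - hε hε' hL1'; linarith))]
        exact by
          have h6 : E ≤ 2 * (⌊E / q⌋₊ : ℕ) * q := by
            rwa [div_le_iff₀ hq0] at hL4
          have h7 : 2 * ((2 : ℝ) ^ b / q + 1) = 2 * ((2 : ℝ) ^ b + q) / q := by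
            field_simp
          rw [h7, div_le_iff₀ hq0]
          have h8 : 0 < D ^ (-(ε / 2)) := Real.rpow_pos_of_pos hD0 _
          have h9 := mul_le_mul_of_nonneg_right h6 h8.le
          (clear * - h1 h2 h9; nlinarith)

end

end Pool.Agent.Helper67.NX2

end

section

set_option autoImplicit false

open Finset

open scoped BigOperators ComplexConjugate

namespace Pool.Agent.Helper67.NX2

open Pool.Agent.Helper57.NX

noncomputable section

namespace B8

theorem sum_range_mul {f : ℕ → ℝ} (M n : ℕ) :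
    ∑ x ∈ range (M * n), f x = ∑ t ∈ range n, ∑ r ∈ range M, f (r + M * t) := by
  induction n with
  | zero => simp
  | succ n ih =>
    rw [Nat.mul_succ, sum_range_add, ih, sum_range_succ]
    congr 1
    exact sum_congr rfl fun r _ => by rw [Nat.add_comm]

theorem per_mul {M : ℕ} {f : ℕ → ℝ} (hf : ∀ x, f (x + M) = f x) (t x : ℕ) :
    f (x + M * t) = f x := by
  induction t with
  | zero => simp
  | succ t ih => rw [Nat.mul_succ, ← Nat.add_assoc, hf, ih]

theorem per_mod {M : ℕ} {f : ℕ → ℝ} (hf : ∀ x, f (x + M) = f x) (x : ℕ) :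
    f (x % M) = f x := by
  conv_rhs => rw [← Nat.mod_add_div x M]
  exact (per_mul hf _ _).symm

theorem sum_shift {M : ℕ} {f : ℕ → ℝ} (hf : ∀ x, f (x + M) = f x) (u : ℕ) :
    ∑ x ∈ range M, f (u + x) = ∑ x ∈ range M, f x := by
  induction u with
  | zero => simp
  | succ u ih =>
    rw [← ih]
    have h1 := sum_range_succ (fun x => f (u + x)) M
    have h2 := sum_range_succ' (fun x => f (u + x)) M
    rw [h1] at h2
    have h3 : ∀ x, f (u + (x + 1)) = f (u + 1 + x) := fun x => by congr 1; ring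
    simp only [h3, Nat.add_zero] at h2
    rw [hf] at h2
    (clear * - h2; linarith)

/-- sums of a periodic function with average `0` over an interval -/
theorem abs_sum_le {L : ℕ} (hL : 1 ≤ L) {f : ℕ → ℝ} (hf : ∀ x, f (x + L) = f x) {B : ℝ}
    (hB : ∀ x, |f x| ≤ B) (h0 : ∑ x ∈ range L, f x = 0) (u N : ℕ) :
    |∑ x ∈ Ico u (u + N), f x| ≤ L * B := by
  have hB0 : 0 ≤ B := (abs_nonneg _).trans (hB 0)
  rw [sum_Ico_eq_sum_range, Nat.add_sub_cancel_left]
  have h1 : N = L * (N / L) + N % L := (Nat.div_add_mod N L).symm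
  rw [h1, sum_range_add, sum_range_mul]
  have h2 : ∑ t ∈ range (N / L), ∑ r ∈ range L, f (u + (r + L * t)) = 0 := by
    apply sum_eq_zero
    intro t _
    have : ∀ r, f (u + (r + L * t)) = f (u + r) := by
      intro r
      rw [← Nat.add_assoc, per_mul hf]
    simp only [this]
    rw [sum_shift hf, h0]
  rw [h2, zero_add]
  have h3 : |∑ x ∈ range (N % L), f (u + (L * (N / L) + x))| ≤ ∑ x ∈ range (N % L), B :=
    (abs_sum_le_sum_abs _ _).trans (sum_le_sum fun x _ => hB _)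
  refine h3.trans ?_
  rw [sum_const, card_range, nsmul_eq_mul]
  have h4 : N % L ≤ L := (Nat.mod_lt _ hL).le
  have : ((N % L : ℕ) : ℝ) ≤ L := by exact_mod_cast h4
  exact mul_le_mul_of_nonneg_right this hB0

/-- coprime periods, the second factor has average `0` -/
theorem sum_coprime_zero {M P : ℕ} (hP : 1 ≤ P) (hc : Nat.Coprime M P)
    {g h : ℕ → ℝ} (hg : ∀ x, g (x + M) = g x) (hh : ∀ x, h (x + P) = h x)
    (h0 : ∑ x ∈ range P, h x = 0) : ∑ x ∈ range (M * P), g x * h x = 0 := by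
  rw [sum_range_mul, sum_comm]
  apply sum_eq_zero
  intro r _
  have h1 : ∀ t, g (r + M * t) * h (r + M * t) = g r * h ((r + M * t) % P) := by
    intro t
    rw [per_mul hg, per_mod hh]
  simp only [h1]
  rw [← mul_sum]
  have hinj : Set.InjOn (fun t => (r + M * t) % P) (range P : Finset ℕ) := by
    intro t ht t' ht' heq
    have e1 : r + M * t ≡ r + M * t' [MOD P] := heq
    have e2 : M * t ≡ M * t' [MOD P] := Nat.ModEq.add_left_cancel' r e1
    have e3 : t ≡ t' [MOD P] := Nat.ModEq.cancel_left_of_coprime hc.symm e2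
    have a1 : t < P := by simpa using ht
    have a2 : t' < P := by simpa using ht'
    rwa [Nat.ModEq, Nat.mod_eq_of_lt a1, Nat.mod_eq_of_lt a2] at e3
  have himg : (range P).image (fun t => (r + M * t) % P) = range P := by
    apply eq_of_subset_of_card_le
    · intro x hx
      obtain ⟨t, _, rfl⟩ := mem_image.mp hx
      exact mem_range.mpr (Nat.mod_lt _ hP)
    · rw [card_image_of_injOn hinj]
  have h2 : ∑ t ∈ range P, h ((r + M * t) % P) = ∑ x ∈ range P, h x := by
    conv_rhs => rw [← himg]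
    rw [sum_image hinj]
  rw [h2, h0, mul_zero]

/-- the factor at one modulus -/
def uf (P : ℕ) (y x : ℕ) : ℝ := if y ≡ x [MOD P] then (P : ℝ) else 0

theorem uf_per {P M : ℕ} (h : P ∣ M) (y x : ℕ) : uf P y (x + M) = uf P y x := by
  unfold uf
  have : (y ≡ x + M [MOD P]) ↔ (y ≡ x [MOD P]) := by
    have h1 : x + M ≡ x [MOD P] := by
      conv_rhs => rw [← Nat.add_zero x]
      exact Nat.ModEq.add_left x ((Nat.modEq_zero_iff_dvd).mpr h)
    exact ⟨fun h2 => h2.trans h1, fun h2 => h2.trans h1.symm⟩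
  simp only [this]

theorem uf_nonneg (P y x : ℕ) : 0 ≤ uf P y x := by
  unfold uf; split_ifs <;> (clear * -; positivity)

theorem uf_le (P y x : ℕ) : uf P y x ≤ P := by
  unfold uf; split_ifs <;> simp

theorem abs_uf_sub_one {P : ℕ} (hP : 1 ≤ P) (y x : ℕ) : |uf P y x - 1| ≤ P := by
  have h1 := uf_nonneg P y x
  have h2 := uf_le P y x
  have h3 : (1 : ℝ) ≤ P := by exact_mod_cast hP
  rw [abs_le]
  constructor <;> (clear * - h1 h3 h2; linarith)

theorem sum_uf {P : ℕ} (hP : 1 ≤ P) (y : ℕ) : ∑ x ∈ range P, (uf P y x - 1) = 0 := by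
  rw [sum_sub_distrib]
  have h1 : ∑ x ∈ range P, uf P y x = P := by
    rw [sum_eq_single (y % P)]
    · unfold uf
      rw [if_pos (Nat.mod_modEq y P).symm]
    · intro x hx hne
      unfold uf
      rw [if_neg]
      intro h
      apply hne
      have hx' := mem_range.mp hx
      have h' : y % P = x % P := h
      rw [h', Nat.mod_eq_of_lt hx']
    · intro h
      exact absurd (mem_range.mpr (Nat.mod_lt _ hP)) h
  rw [h1]
  simp

/-- the kernel -/
def kf (K r1 : ℕ) (S : Finset ℕ) (y x : ℕ) : ℝ := uf K y x * ∏ p ∈ S, (uf (p ^ r1) y x - 1)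

theorem abs_kf_le {K r1 : ℕ} {S : Finset ℕ} (hS : ∀ p ∈ S, 1 ≤ p) (y x : ℕ) :
    |kf K r1 S y x| ≤ ((K * ∏ p ∈ S, p ^ r1 : ℕ) : ℝ) := by
  unfold kf
  rw [abs_mul, abs_of_nonneg (uf_nonneg _ _ _), abs_prod]
  push_cast
  apply mul_le_mul (uf_le _ _ _) _ (prod_nonneg fun _ _ => abs_nonneg _) (by (clear * -; positivity))
  apply prod_le_prod (fun _ _ => abs_nonneg _)
  intro p hp
  have := abs_uf_sub_one (P := p ^ r1) (Nat.one_le_pow _ _ (hS p hp)) y x
  simpa using this

/-- the kernel of a set with a prime not dividing `q` averages to `0` -/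
theorem abs_sum_kf_le {K r1 q : ℕ} (hK : 1 ≤ K) (hq : 1 ≤ q) {S : Finset ℕ}
    (hS : ∀ p ∈ S, p.Prime ∧ ¬ p ∣ K) {p0 : ℕ} (hp0 : p0 ∈ S) (hp0q : ¬ p0 ∣ q)
    (y a u N : ℕ) :
    |∑ x ∈ Ico u (u + N), (if x % q = a then kf K r1 S y x else 0)| ≤
      ((q * (K * ∏ p ∈ S, p ^ r1) : ℕ) : ℝ) * ((K * ∏ p ∈ S, p ^ r1 : ℕ) : ℝ) := by
  set T := S.erase p0 with hT
  have hprod : ∏ p ∈ S, p ^ r1 = (∏ p ∈ T, p ^ r1) * p0 ^ r1 := by
    rw [hT, prod_erase_mul _ _ hp0]
  have hpp : ∀ p ∈ S, 1 ≤ p := fun p hp => (hS p hp).1.one_le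
  have hpos : 1 ≤ ∏ p ∈ S, p ^ r1 := Nat.one_le_iff_ne_zero.mpr
    (prod_ne_zero_iff.mpr fun p hp => pow_ne_zero _ (hS p hp).1.ne_zero)
  have hP0 : 1 ≤ p0 ^ r1 := Nat.one_le_pow _ _ (hpp p0 hp0)
  apply abs_sum_le (L := q * (K * ∏ p ∈ S, p ^ r1)) (Nat.mul_pos hq (Nat.mul_pos hK hpos))
  · intro x
    have h1 : (x + q * (K * ∏ p ∈ S, p ^ r1)) % q = x % q := by simp
    rw [h1]
    have h2 : kf K r1 S y (x + q * (K * ∏ p ∈ S, p ^ r1)) = kf K r1 S y x := by
      unfold kf
      rw [uf_per (⟨q * ∏ p ∈ S, p ^ r1, by ring⟩ : K ∣ _)]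
      congr 1
      refine prod_congr rfl fun p hp => ?_
      rw [uf_per ((dvd_prod_of_mem (fun p => p ^ r1) hp).trans ⟨q * K, by ring⟩ : p ^ r1 ∣ _)]
    rw [h2]
  · intro x
    split_ifs
    · exact abs_kf_le hpp y x
    · rw [abs_zero]; (clear * - hK hpos; positivity)
  · have e1 : q * (K * ∏ p ∈ S, p ^ r1) = (q * (K * ∏ p ∈ T, p ^ r1)) * p0 ^ r1 := by
      rw [hprod]; ring
    rw [e1]
    have e2 : ∀ x, (if x % q = a then kf K r1 S y x else 0) =
        (if x % q = a then kf K r1 T y x else 0) * (uf (p0 ^ r1) y x - 1) := by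
      intro x
      split_ifs
      · unfold kf
        rw [hT, mul_assoc, prod_erase_mul _ _ hp0]
      · rw [zero_mul]
    simp only [e2]
    apply sum_coprime_zero hP0
    · apply Nat.Coprime.pow_right
      apply Nat.Coprime.mul_left
      · exact ((hS p0 hp0).1.coprime_iff_not_dvd.mpr hp0q).symm
      · apply Nat.Coprime.mul_left
        · exact ((hS p0 hp0).1.coprime_iff_not_dvd.mpr (hS p0 hp0).2).symm
        · apply Nat.Coprime.prod_left
          intro p hp
          apply Nat.Coprime.pow_left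
          have h1 := mem_erase.mp hp
          exact (Nat.coprime_primes (hS p h1.2).1 (hS p0 hp0).1).mpr h1.1
    · intro x
      have h1 : (x + q * (K * ∏ p ∈ T, p ^ r1)) % q = x % q := by simp
      rw [h1]
      have h2 : kf K r1 T y (x + q * (K * ∏ p ∈ T, p ^ r1)) = kf K r1 T y x := by
        unfold kf
        rw [uf_per (⟨q * ∏ p ∈ T, p ^ r1, by ring⟩ : K ∣ _)]
        congr 1
        refine prod_congr rfl fun p hp => ?_
        rw [uf_per ((dvd_prod_of_mem (fun p => p ^ r1) hp).trans ⟨q * K, by ring⟩ : p ^ r1 ∣ _)]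
      rw [h2]
    · intro x
      rw [uf_per dvd_rfl]
    · exact sum_uf hP0 y

/-- expansion of the product -/
theorem sum_powerset_kf (K r1 : ℕ) {T : Finset ℕ} (hT : ∀ p ∈ T, p.Prime ∧ ¬ p ∣ K) (y x : ℕ) :
    ∑ S ∈ T.powerset, kf K r1 S y x = uf (K * ∏ p ∈ T, p ^ r1) y x := by
  unfold kf
  rw [← mul_sum, ← prod_add_one]
  have e : ∏ p ∈ T, (uf (p ^ r1) y x - 1 + 1) = ∏ p ∈ T, uf (p ^ r1) y x :=
    prod_congr rfl fun p _ => by ring
  rw [e]
  clear e
  induction T using Finset.induction_on with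
  | empty => simp
  | insert p T hp ih =>
    have ih' := ih fun p' hp' => hT p' (mem_insert_of_mem hp')
    rw [prod_insert hp, prod_insert hp]
    have hc : Nat.Coprime (p ^ r1) (K * ∏ p ∈ T, p ^ r1) := by
      apply Nat.Coprime.pow_left
      apply Nat.Coprime.mul_right
      · exact (hT p (mem_insert_self _ _)).1.coprime_iff_not_dvd.mpr (hT p (mem_insert_self _ _)).2
      · apply Nat.Coprime.prod_right
        intro p' hp'
        apply Nat.Coprime.pow_right
        apply (Nat.coprime_primes (hT p (mem_insert_self _ _)).1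
          (hT p' (mem_insert_of_mem hp')).1).mpr
        rintro rfl
        exact hp hp'
    have e1 : K * (p ^ r1 * ∏ p ∈ T, p ^ r1) = p ^ r1 * (K * ∏ p ∈ T, p ^ r1) := by ring
    have e2 : uf K y x * (uf (p ^ r1) y x * ∏ p ∈ T, uf (p ^ r1) y x) =
      uf (p ^ r1) y x * (uf K y x * ∏ p ∈ T, uf (p ^ r1) y x) := by ring
    rw [e1, e2, ih']
    unfold uf
    rw [ite_zero_mul_ite_zero]
    have h1 := Nat.modEq_and_modEq_iff_modEq_mul (a := y) (b := x) hc
    simp only [h1]
    push_cast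
    rfl

end B8

end

end Pool.Agent.Helper67.NX2

end

section

set_option autoImplicit false

open Finset

open scoped BigOperators ComplexConjugate

namespace Pool.Agent.Helper67.NX2

open Pool.Agent.Helper57.NX

noncomputable section

/-- extension by zero of a periodic function -/
def lex {M : ℕ} (Z : ℕ) (φ : ZMod M → ℝ) (x : ℤ) : ℝ :=
  if 0 ≤ x ∧ x < Z then φ (x : ZMod M) else 0

lemma lex_nat_lt {M Z : ℕ} (φ : ZMod M → ℝ) {y : ℕ} (hy : y < Z) :
    lex Z φ (y : ℤ) = φ (y : ZMod M) := by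
  unfold lex
  rw [if_pos ⟨by positivity, by exact_mod_cast hy⟩]
  simp

lemma lex_nat_ge {M Z : ℕ} (φ : ZMod M → ℝ) {y : ℕ} (hy : Z ≤ y) :
    lex Z φ (y : ℤ) = 0 := by
  unfold lex
  rw [if_neg]
  push Not
  intro _
  exact_mod_cast hy

lemma lex_abs {M Z : ℕ} (φ : ZMod M → ℝ) (hφ : ∀ x, |φ x| ≤ 1) (x : ℤ) :
    |lex Z φ x| ≤ 1 := by
  unfold lex
  split_ifs
  · exact hφ _
  · simp

lemma sum_range_mul {M : ℕ} [NeZero M] (m : ℕ) (g : ZMod M → ℝ) :
    ∑ x ∈ range (M * m), g (x : ZMod M) = m * ∑ ρ : ZMod M, g ρ := by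
  induction m with
  | zero => simp
  | succ m ih =>
    rw [Nat.mul_succ, Finset.sum_range_add, ih]
    have h1 : ∑ x ∈ range M, g ((M * m + x : ℕ) : ZMod M) = ∑ ρ : ZMod M, g ρ := by
      have h2 : ∀ x ∈ range M, g ((M * m + x : ℕ) : ZMod M) = g (x : ZMod M) := by
        intro x _
        congr 1
        push_cast
        simp
      rw [Finset.sum_congr rfl h2]
      refine Finset.sum_bij' (fun x _ => (x : ZMod M)) (fun ρ _ => ρ.val) ?_ ?_ ?_ ?_ ?_
      · intro x _; exact mem_univ _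
      · intro ρ _; exact mem_range.2 (ZMod.val_lt ρ)
      · intro x hx; exact ZMod.val_cast_of_lt (mem_range.1 hx)
      · intro ρ _; exact ZMod.natCast_zmod_val ρ
      · intro x _; rfl
    rw [h1]
    push_cast
    ring

lemma expect_Ico_mul {M : ℕ} [NeZero M] {t : ℕ} (ht : 1 ≤ t) (g : ZMod M → ℝ) :
    𝔼 k ∈ Ico (M * t) (M * t + M * t), g (k : ZMod M) = 𝔼 κ : ZMod M, g κ := by
  have hM : 0 < M := Nat.pos_of_ne_zero (NeZero.ne M)
  rw [Finset.expect_eq_sum_div_card, Finset.expect_eq_sum_div_card, Nat.card_Ico,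
    Finset.card_univ, ZMod.card]
  have h1 : ∑ k ∈ Ico (M * t) (M * t + M * t), g (k : ZMod M)
      = ∑ k ∈ range (M * t), g (k : ZMod M) := by
    rw [Finset.sum_Ico_eq_sum_range]
    simp only [Nat.add_sub_cancel_left]
    refine Finset.sum_congr rfl ?_
    intro k _
    congr 1
    push_cast
    simp
  rw [h1, sum_range_mul, Nat.add_sub_cancel_left]
  have hM' : (M : ℝ) ≠ 0 := by exact_mod_cast hM.ne'
  have ht' : (t : ℝ) ≠ 0 := by exact_mod_cast (by omega : t ≠ 0)
  push_cast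
  field_simp

/-- counting: functions that agree below `Z - E` -/
lemma sum_close {Z E : ℕ} (u v : ℕ → ℝ) (h1 : ∀ x, x < Z → x + E < Z → u x = v x)
    (h2 : ∀ x, x < Z → |u x - v x| ≤ 1) :
    |∑ x ∈ range Z, u x - ∑ x ∈ range Z, v x| ≤ E := by
  rw [← Finset.sum_sub_distrib]
  refine (Finset.abs_sum_le_sum_abs _ _).trans ?_
  have h3 : ∀ x ∈ range Z, |u x - v x| ≤ if Z ≤ x + E then (1 : ℝ) else 0 := by
    intro x hx
    rw [mem_range] at hx
    split_ifs with h
    · exact h2 x hx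
    · rw [h1 x hx (by omega)]
      simp
  refine (Finset.sum_le_sum h3).trans ?_
  rw [← Finset.sum_filter, Finset.sum_const, nsmul_eq_mul, mul_one]
  have h4 : (range Z).filter (fun x => Z ≤ x + E) ⊆ Ico (Z - E) Z := by
    intro x hx
    rw [mem_filter, mem_range] at hx
    rw [mem_Ico]
    omega
  have h5 := Finset.card_le_card h4
  rw [Nat.card_Ico] at h5
  have h6 : ((range Z).filter (fun x => Z ≤ x + E)).card ≤ E := by omega
  exact_mod_cast h6

/-- averages along progressions of the extension by zero -/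
lemma ap_close {M : ℕ} [NeZero M] (m q E : ℕ) (hE : q * M ≤ E) (ψ : ZMod M → ℝ)
    (hψ : ∀ x, |ψ x| ≤ 1) :
    ∑ x ∈ range (M * m), |𝔼 a ∈ range M, lex (M * m) ψ ((x : ℤ) + (q * a : ℕ))| ≤
      (M * m : ℕ) * 𝔼 x : ZMod M, |𝔼 a : ZMod M, ψ (x + (q : ZMod M) * a)| + E := by
  have hM : 0 < M := Nat.pos_of_ne_zero (NeZero.ne M)
  have hM' : (M : ℝ) ≠ 0 := by exact_mod_cast hM.ne'
  have hz : ∀ (x : ℕ), 𝔼 a ∈ range M, ψ ((x : ZMod M) + (q : ZMod M) * (a : ZMod M)) =
      𝔼 a : ZMod M, ψ ((x : ZMod M) + (q : ZMod M) * a) := by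
    intro x
    have := expect_Ico_mul (M := M) (t := 1) le_rfl
      (fun a : ZMod M => ψ ((x : ZMod M) + (q : ZMod M) * a))
    rw [← this, Finset.expect_eq_sum_div_card, Finset.expect_eq_sum_div_card,
      Finset.sum_Ico_eq_sum_range, Nat.card_Ico, Finset.card_range]
    simp
  have h0 : ((M * m : ℕ) : ℝ) * 𝔼 x : ZMod M, |𝔼 a : ZMod M, ψ (x + (q : ZMod M) * a)| =
      ∑ x ∈ range (M * m), |𝔼 a : ZMod M, ψ ((x : ZMod M) + (q : ZMod M) * a)| := by
    rw [sum_range_mul m (fun x : ZMod M => |𝔼 a : ZMod M, ψ (x + (q : ZMod M) * a)|),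
        Finset.expect_eq_sum_div_card, Finset.card_univ, ZMod.card]
    push_cast
    (clear * - hM'; field_simp)
  rw [h0]
  have hle1 : ∀ (x : ℤ), |𝔼 a ∈ range M, lex (M * m) ψ (x + (q * a : ℕ))| ≤ 1 := by
    intro x
    refine (Finset.abs_expect_le _ _).trans ?_
    exact Finset.expect_le ⟨0, mem_range.2 hM⟩ (fun a _ => lex_abs ψ hψ _)
  have hle2 : ∀ (x : ZMod M), |𝔼 a : ZMod M, ψ (x + (q : ZMod M) * a)| ≤ 1 := by
    intro x
    refine (Finset.abs_expect_le _ _).trans ?_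
    exact Finset.expect_le ⟨(0 : ZMod M), mem_univ _⟩ (fun a _ => hψ _)
  exact by
    have hc := sum_close (Z := M * m) (E := E)
      (fun x : ℕ => |𝔼 a ∈ range M, lex (M * m) ψ ((x : ℤ) + (q * a : ℕ))|)
      (fun x : ℕ => |𝔼 a : ZMod M, ψ ((x : ZMod M) + (q : ZMod M) * a)|) ?_ ?_
    · have := (abs_le.1 hc).2
      (clear * - this; linarith)
    · intro x hx hxE
      show |𝔼 a ∈ range M, lex (M * m) ψ ((x : ℤ) + (q * a : ℕ))| =
        |𝔼 a : ZMod M, ψ ((x : ZMod M) + (q : ZMod M) * a)|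
      rw [← hz x]
      congr 1
      refine Finset.expect_congr rfl ?_
      intro a ha
      rw [mem_range] at ha
      have h1 : x + q * a < M * m := by
        have : q * a ≤ q * M := Nat.mul_le_mul_left q ha.le
        omega
      have h2 : (x : ℤ) + (q * a : ℕ) = ((x + q * a : ℕ) : ℤ) := by push_cast; ring
      rw [h2, lex_nat_lt _ h1]
      push_cast
      rfl
    · intro x _
      have e1 := hle1 x
      have e2 := hle2 x
      have e3 := abs_nonneg (𝔼 a ∈ range M, lex (M * m) ψ ((x : ℤ) + (q * a : ℕ)))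
      have e4 := abs_nonneg (𝔼 a : ZMod M, ψ ((x : ZMod M) + (q : ZMod M) * a))
      rw [abs_le]
      constructor
      · (clear * - e2 e3; linarith)
      · (clear * - e1 e4; linarith)

end

end Pool.Agent.Helper67.NX2

end

section

set_option autoImplicit false

open Finset

open scoped BigOperators ComplexConjugate

namespace Pool.Agent.Helper67.NX2

open Pool.Agent.Helper57.NX

noncomputable section

namespace LM

/-- the reduction map as a ring homomorphism -/
def red {M M' : ℕ} (h : M' ∣ M) : ZMod M →+* ZMod M' := ZMod.castHom h (ZMod M')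

theorem red_eq {M M' : ℕ} [NeZero M] (h : M' ∣ M) (x : ZMod M) :
    red h x = ((x.val : ℕ) : ZMod M') := by
  unfold red
  rw [ZMod.castHom_apply, ZMod.natCast_val]

theorem red_surj {M M' : ℕ} (h : M' ∣ M) : Function.Surjective (red h) :=
  ZMod.castHom_surjective h

theorem red_natCast {M M' : ℕ} (h : M' ∣ M) (n : ℕ) : red h (n : ZMod M) = (n : ZMod M') :=
  map_natCast (red h) n

/-- translation invariance -/
theorem expect_shift {G : Type*} [AddCommGroup G] [Fintype G] (f : G → ℝ) (a : G) :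
    𝔼 x : G, f (x + a) = 𝔼 x : G, f x :=
  Fintype.expect_equiv (Equiv.addRight a) _ _ (fun _ => rfl)

/-- averages along a surjective homomorphism -/
theorem expect_surj {G G' : Type*} [AddCommGroup G] [Fintype G] [AddCommGroup G'] [Fintype G']
    (φ : G →+ G') (hφ : Function.Surjective φ) (f : G' → ℝ) :
    𝔼 x : G, f (φ x) = 𝔼 y : G', f y := by
  have h1 : ∀ b : G', 𝔼 x : G, f (φ x + b) = 𝔼 x : G, f (φ x) := by
    intro b
    obtain ⟨a, rfl⟩ := hφ b
    simp_rw [← map_add]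
    exact expect_shift (fun x => f (φ x)) a
  have h2 : 𝔼 b : G', 𝔼 x : G, f (φ x + b) = 𝔼 x : G, f (φ x) := by
    simp_rw [h1]
    exact Fintype.expect_const _
  rw [← h2, Finset.expect_comm]
  have h3 : ∀ x : G, 𝔼 b : G', f (φ x + b) = 𝔼 b : G', f b := by
    intro x
    simp_rw [add_comm (φ x)]
    exact expect_shift f (φ x)
  simp_rw [h3]
  exact Fintype.expect_const _

theorem expect_red {M M' : ℕ} [NeZero M] [NeZero M'] (h : M' ∣ M) (f : ZMod M' → ℝ) :
    𝔼 x : ZMod M, f (red h x) = 𝔼 y : ZMod M', f y :=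
  expect_surj (red h).toAddMonoidHom (red_surj h) f

theorem red_ker {M M' : ℕ} [NeZero M] (h : M' ∣ M) (x : ZMod M) (hx : red h x = 0) :
    ∃ b : ZMod M, x = (M' : ZMod M) * b := by
  rw [red_eq, ZMod.natCast_eq_zero_iff] at hx
  obtain ⟨c, hc⟩ := hx
  refine ⟨(c : ZMod M), ?_⟩
  have : ((x.val : ℕ) : ZMod M) = x := ZMod.natCast_zmod_val x
  rw [← this, hc]
  push_cast
  ring

theorem red_mul_self {M M' : ℕ} (h : M' ∣ M) (b : ZMod M) : red h ((M' : ZMod M) * b) = 0 := by
  rw [map_mul, red_natCast]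
  simp

/-- the fibre average as an average over `b` of `H (x + M' b)` -/
theorem fav_eq {M M' : ℕ} [NeZero M] (h : M' ∣ M) (H : ZMod M → ℝ) (x : ZMod M) :
    fav M' H (red h x) = 𝔼 b : ZMod M, H (x + (M' : ZMod M) * b) := by
  unfold fav
  have hfil : (univ.filter (fun y : ZMod M => ((y.val : ℕ) : ZMod M') = red h x)) =
      univ.filter (fun y : ZMod M => red h y = red h x) := by
    apply Finset.filter_congr
    intro y _
    rw [red_eq h y]
  rw [hfil]
  set F := univ.filter (fun y : ZMod M => red h y = red h x) with hF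
  have hne : F.Nonempty := ⟨x, by simp [hF]⟩
  have h1 : ∀ b : ZMod M, 𝔼 y ∈ F, H (y + (M' : ZMod M) * b) = 𝔼 y ∈ F, H y := by
    intro b
    apply Finset.expect_bij (fun y _ => y + (M' : ZMod M) * b)
    · intro y hy
      simp only [hF, mem_filter, mem_univ, true_and] at hy ⊢
      rw [map_add, red_mul_self, add_zero, hy]
    · intro y _
      rfl
    · intro a _ b _ hab
      simpa using hab
    · intro y hy
      refine ⟨y - (M' : ZMod M) * b, ?_, by ring⟩
      simp only [hF, mem_filter, mem_univ, true_and] at hy ⊢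
      rw [map_sub, red_mul_self, sub_zero, hy]
  have h2 : 𝔼 b : ZMod M, 𝔼 y ∈ F, H (y + (M' : ZMod M) * b) = 𝔼 y ∈ F, H y := by
    simp_rw [h1]
    exact Fintype.expect_const _
  rw [← h2, Finset.expect_comm]
  have h3 : ∀ y ∈ F, 𝔼 b : ZMod M, H (y + (M' : ZMod M) * b) =
      𝔼 b : ZMod M, H (x + (M' : ZMod M) * b) := by
    intro y hy
    simp only [hF, mem_filter, mem_univ, true_and] at hy
    obtain ⟨b0, hb0⟩ := red_ker h (y - x) (by rw [map_sub, hy, sub_self])
    have hy' : y = x + (M' : ZMod M) * b0 := by rw [← hb0]; ring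
    rw [hy', ← expect_shift (fun b => H (x + (M' : ZMod M) * b)) b0]
    apply Finset.expect_congr rfl
    intro b _
    congr 1
    ring
  rw [Finset.expect_congr rfl h3, Finset.expect_const hne]

theorem fav_self {M : ℕ} [NeZero M] (H : ZMod M → ℝ) (x : ZMod M) : fav M H x = H x := by
  have h := fav_eq (dvd_refl M) H x
  have h1 : red (dvd_refl M) x = x := by
    rw [red_eq, ZMod.natCast_zmod_val]
  rw [h1] at h
  rw [h]
  simp

theorem fav_fav {M M1 M' : ℕ} [NeZero M] [NeZero M1] (h : M' ∣ M1) (h1 : M1 ∣ M)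
    (H : ZMod M → ℝ) (ρ : ZMod M') : fav M' (fav M1 H) ρ = fav M' H ρ := by
  obtain ⟨x, rfl⟩ := red_surj (h.trans h1) ρ
  have hcomp : red (h.trans h1) x = red h (red h1 x) := by
    rw [red_eq, red_eq h, red_eq h1]
    have h2 : ((((x.val : ℕ) : ZMod M1)).val : ZMod M') = ((x.val : ℕ) : ZMod M') := by
      rw [ZMod.val_natCast]
      rw [ZMod.natCast_eq_natCast_iff]
      exact (Nat.mod_modEq _ _).of_dvd h
    rw [h2]
  rw [fav_eq (h.trans h1) H x, hcomp, fav_eq h (fav M1 H) (red h1 x)]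
  rw [← expect_red h1 (fun b => fav M1 H (red h1 x + (M' : ZMod M1) * b))]
  have h3 : ∀ b : ZMod M, fav M1 H (red h1 x + (M' : ZMod M1) * red h1 b) =
      𝔼 b' : ZMod M, H (x + (M' : ZMod M) * b + (M1 : ZMod M) * b') := by
    intro b
    rw [← fav_eq h1 H]
    congr 1
    rw [map_add, map_mul, red_natCast]
  simp_rw [h3]
  rw [Finset.expect_comm]
  obtain ⟨c, hc⟩ := h
  have h4 : ∀ b' : ZMod M, 𝔼 b : ZMod M, H (x + (M' : ZMod M) * b + (M1 : ZMod M) * b') =
      𝔼 b : ZMod M, H (x + (M' : ZMod M) * b) := by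
    intro b'
    rw [← expect_shift (fun b => H (x + (M' : ZMod M) * b)) ((c : ZMod M) * b')]
    apply Finset.expect_congr rfl
    intro b _
    congr 1
    rw [hc]
    push_cast
    ring
  simp_rw [h4]
  exact Fintype.expect_const _

theorem fav_nonneg {M M' : ℕ} [NeZero M] {H : ZMod M → ℝ} (hH : ∀ x, 0 ≤ H x) (ρ : ZMod M') :
    0 ≤ fav M' H ρ := by
  unfold fav
  exact Finset.expect_nonneg (fun x _ => hH x)

/-- if the fibre averages modulo `K'` vanish and `gcd q M ∣ K'` then the averages over the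
progressions of difference `q` vanish -/
theorem ap_zero {M K' : ℕ} [NeZero M] (h : K' ∣ M) (q : ℕ) (hq : Nat.gcd q M ∣ K')
    (f : ZMod M → ℝ) (hf : ∀ ρ : ZMod K', fav K' f ρ = 0) (x : ZMod M) :
    𝔼 a : ZMod M, f (x + (q : ZMod M) * a) = 0 := by
  obtain ⟨c, hc⟩ := hq
  -- `gcd q M = q u` in `ZMod M`
  have hg : ((Nat.gcd q M : ℕ) : ZMod M) = (q : ZMod M) * ((Nat.gcdA q M : ℤ) : ZMod M) := by
    have h1 := Nat.gcd_eq_gcd_ab q M
    have h2 : (((Nat.gcd q M : ℕ) : ℤ) : ZMod M) =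
        ((q * Nat.gcdA q M + M * Nat.gcdB q M : ℤ) : ZMod M) := by rw [h1]
    push_cast at h2
    simpa using h2
  have hK : (K' : ZMod M) = (q : ZMod M) * ((Nat.gcdA q M : ℤ) : ZMod M) * (c : ZMod M) := by
    rw [← hg, ← Nat.cast_mul, ← hc]
  have h1 : ∀ b : ZMod M, 𝔼 a : ZMod M, f (x + (q : ZMod M) * a + (K' : ZMod M) * b) =
      𝔼 a : ZMod M, f (x + (q : ZMod M) * a) := by
    intro b
    rw [← expect_shift (fun a => f (x + (q : ZMod M) * a))
      (((Nat.gcdA q M : ℤ) : ZMod M) * (c : ZMod M) * b)]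
    apply Finset.expect_congr rfl
    intro a _
    congr 1
    rw [hK]
    ring
  have h2 : 𝔼 b : ZMod M, 𝔼 a : ZMod M, f (x + (q : ZMod M) * a + (K' : ZMod M) * b) =
      𝔼 a : ZMod M, f (x + (q : ZMod M) * a) := by
    simp_rw [h1]
    exact Fintype.expect_const _
  rw [← h2, Finset.expect_comm]
  have h3 : ∀ a : ZMod M, 𝔼 b : ZMod M, f (x + (q : ZMod M) * a + (K' : ZMod M) * b) = 0 := by
    intro a
    rw [← fav_eq h f, hf]
  simp_rw [h3]
  exact Fintype.expect_const _

end LM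

end

end Pool.Agent.Helper67.NX2

end

section

set_option autoImplicit false

open Finset

open scoped BigOperators ComplexConjugate

namespace Pool.Agent.Helper67.NX2

open Pool.Agent.Helper57.NX

noncomputable section

namespace LM

theorem fav_mem {M M' : ℕ} [NeZero M] (h : M' ∣ M) {H : ZMod M → ℝ} {V : ℝ}
    (h0 : ∀ x, 0 ≤ H x) (hV : ∀ x, H x ≤ V) (ρ : ZMod M') : 0 ≤ fav M' H ρ ∧ fav M' H ρ ≤ V := by
  obtain ⟨x, rfl⟩ := red_surj h ρ
  rw [fav_eq h]
  refine ⟨Finset.expect_nonneg (fun b _ => h0 _), ?_⟩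
  exact Finset.expect_le (Finset.univ_nonempty) (fun b _ => hV _)

end LM

end

end Pool.Agent.Helper67.NX2

end

section

set_option autoImplicit false

open Finset

open scoped BigOperators ComplexConjugate

namespace Pool.Agent.Helper57.NX

noncomputable section

theorem s_bounds {Q : ℕ} (hQ : 0 < Q) {x : ℝ} (hx : 0 ≤ x) {e : ℕ} (he : e < Q) :
    x - 1 ≤ (((e + ⌊(Q : ℝ) * x⌋₊) / Q : ℕ) : ℝ) ∧
      (((e + ⌊(Q : ℝ) * x⌋₊) / Q : ℕ) : ℝ) ≤ x + 1 := by
  have hQ0 : (0 : ℝ) < Q := by exact_mod_cast hQ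
  constructor
  · have h2 : Q * ⌊x⌋₊ ≤ ⌊(Q : ℝ) * x⌋₊ := by
      refine Nat.le_floor ?_
      push_cast
      exact mul_le_mul_of_nonneg_left (Nat.floor_le hx) hQ0.le
    have h3 : ⌊x⌋₊ ≤ (e + ⌊(Q : ℝ) * x⌋₊) / Q := by
      rw [Nat.le_div_iff_mul_le hQ, mul_comm]
      omega
    have h4 := Nat.lt_floor_add_one x
    have h5 : (⌊x⌋₊ : ℝ) ≤ (((e + ⌊(Q : ℝ) * x⌋₊) / Q : ℕ) : ℝ) := by exact_mod_cast h3
    (clear * - h4 h5; linarith)
  · refine (Nat.cast_div_le).trans ?_
    rw [div_le_iff₀ hQ0]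
    push_cast
    have h4 : (⌊(Q : ℝ) * x⌋₊ : ℝ) ≤ Q * x := Nat.floor_le (by (clear * - hQ hx; positivity))
    have h5 : (e : ℝ) ≤ Q := by exact_mod_cast he.le
    (clear * - h4 h5; nlinarith)

end

end Pool.Agent.Helper57.NX

end

section

set_option autoImplicit false

open Finset Filter

open scoped BigOperators

namespace Pool.Agent.Helper57.NX3

noncomputable section

/-- the increment of `x ^ c` -/
theorem rpow_sub_le {c : ℝ} (hc : 1 ≤ c) {a b : ℝ} (ha : 0 < a) (hab : a ≤ b) :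
    b ^ c - a ^ c ≤ c * (b - a) * b ^ (c - 1) := by
  have hb : 0 < b := ha.trans_le hab
  have h1 : 1 + c * (a / b - 1) ≤ (1 + (a / b - 1)) ^ c := by
    refine one_add_mul_self_le_rpow_one_add ?_ hc
    have : 0 ≤ a / b := by (clear * - ha hb; positivity)
    (clear * - this; linarith)
  have h2 : (1 + (a / b - 1)) ^ c = a ^ c / b ^ c := by
    rw [add_sub_cancel, Real.div_rpow ha.le hb.le]
  rw [h2, le_div_iff₀ (by positivity)] at h1
  have h3 : b ^ c = b ^ (c - 1) * b := by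
    rw [← Real.rpow_add_one hb.ne', sub_add_cancel]
  have h4 : (1 + c * (a / b - 1)) * b ^ c = b ^ c - c * (b - a) * b ^ (c - 1) := by
    rw [h3]
    field_simp
    ring
  rw [h4] at h1
  (clear * - h1; linarith)

theorem freeze_real (K : ℕ) (hK : 1 ≤ K) (c : ℝ) (hc : 1 ≤ c) (x0 : ℝ) (hx0 : 0 < x0) :
    ∃ D0 : ℝ, ∀ (D u T Q B : ℕ), D0 ≤ D → D ≤ u → u + T ≤ 2 * D → (T : ℝ) ≤ (D : ℝ) ^ (1 - x0) →
    1 ≤ Q → (D : ℝ) ^ (c - x0 / 2) / 4 ≤ B → ∃ v : ℕ, (v : ℝ) ≤ (2 * K * D : ℝ) ^ c + 3 ∧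
    ∀ k ∈ Ico u (u + T), ∀ e < Q, (e + ⌊(Q : ℝ) * ((K * k : ℕ) : ℝ) ^ c⌋₊) / Q + 1 ≤ v ∧
      v + B / 2 ≤ (e + ⌊(Q : ℝ) * ((K * k : ℕ) : ℝ) ^ c⌋₊) / Q + 1 + B := by
  have hK1 : (1 : ℝ) ≤ K := by exact_mod_cast hK
  rcases le_or_gt x0 1 with hx1 | hx1
  · -- main case
    have ht1 : Tendsto (fun D : ℝ => D ^ (x0 / 2)) atTop atTop := tendsto_rpow_atTop (by (clear * - hx0; linarith))
    have ht2 : Tendsto (fun D : ℝ => D ^ (c - x0 / 2)) atTop atTop :=
      tendsto_rpow_atTop (by (clear * - hc hx1; linarith))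
    set M : ℝ := c * K * (2 * K) ^ (c - 1) with hM
    have hM0 : 0 ≤ M := by (clear * - hc hK; positivity)
    obtain ⟨D1, hD1⟩ := (tendsto_atTop.mp ht1 (16 * M)).exists_forall_of_atTop
    obtain ⟨D2, hD2⟩ := (tendsto_atTop.mp ht2 64).exists_forall_of_atTop
    refine ⟨max 1 (max D1 D2), fun D u T Q B hD hu huT hT hQ hB => ?_⟩
    have hDge : (1 : ℝ) ≤ D := (le_max_left _ _).trans hD
    have hD0 : (0 : ℝ) < D := by (clear * - hDge; linarith)
    have h1 := hD1 D ((le_max_left _ _).trans ((le_max_right _ _).trans hD))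
    have h2 := hD2 D ((le_max_right _ _).trans ((le_max_right _ _).trans hD))
    have hu1 : (D : ℝ) ≤ u := by exact_mod_cast hu
    have hu0 : (0 : ℝ) < u := by (clear * - hDge hu1; linarith)
    have huT1 : (u : ℝ) + T ≤ 2 * D := by exact_mod_cast huT
    set X : ℝ := ((K : ℝ) * (u + T)) ^ c with hX
    have hX0 : 0 ≤ X := by (clear * - hK hu0; positivity)
    have hXle : X ≤ (2 * K * D : ℝ) ^ c := by
      refine Real.rpow_le_rpow (by (clear * - hK hu0; positivity)) ?_ (by (clear * - hc; linarith))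
      (clear * - huT1; nlinarith)
    have hc1 : (⌈X⌉₊ : ℝ) < X + 1 := Nat.ceil_lt_add_one hX0
    have hc2 : X ≤ ⌈X⌉₊ := Nat.le_ceil X
    -- the increment
    have hinc : X - ((K : ℝ) * u) ^ c ≤ (D : ℝ) ^ (c - x0 / 2) / 16 := by
      have h3 := rpow_sub_le hc (a := (K : ℝ) * u) (b := (K : ℝ) * (u + T)) (by positivity)
        (by
          have : (0 : ℝ) ≤ T := Nat.cast_nonneg T
          (clear * -; nlinarith))
      have h4 : c * ((K : ℝ) * (u + T) - (K : ℝ) * u) * ((K : ℝ) * (u + T)) ^ (c - 1) ≤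
          c * (K * (D : ℝ) ^ (1 - x0)) * ((2 * K) * (D : ℝ)) ^ (c - 1) := by
        have h5 : (K : ℝ) * (u + T) - (K : ℝ) * u = K * T := by ring
        rw [h5]
        have h6 : ((K : ℝ) * (u + T)) ^ (c - 1) ≤ ((2 * K) * (D : ℝ)) ^ (c - 1) := by
          refine Real.rpow_le_rpow (by (clear * - hK hu0; positivity)) ?_ (by (clear * - hc; linarith))
          (clear * - huT1; nlinarith)
        have h7 : c * ((K : ℝ) * T) ≤ c * (K * (D : ℝ) ^ (1 - x0)) := by
          refine mul_le_mul_of_nonneg_left ?_ (by (clear * - hc; linarith))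
          exact mul_le_mul_of_nonneg_left hT (by (clear * - hK1; linarith))
        exact mul_le_mul h7 h6 (by (clear * - hK hu0; positivity)) (by positivity)
      have h8 : c * (K * (D : ℝ) ^ (1 - x0)) * ((2 * K) * (D : ℝ)) ^ (c - 1) =
          M * (D : ℝ) ^ (c - x0) := by
        rw [Real.mul_rpow (by positivity) hD0.le, hM]
        have h9 : (D : ℝ) ^ (c - x0) = (D : ℝ) ^ (1 - x0) * (D : ℝ) ^ (c - 1) := by
          rw [← Real.rpow_add hD0]
          congr 1
          ring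
        rw [h9]
        ring
      have h10 : (D : ℝ) ^ (c - x0 / 2) = (D : ℝ) ^ (c - x0) * (D : ℝ) ^ (x0 / 2) := by
        rw [← Real.rpow_add hD0]
        congr 1
        ring
      rw [h10]
      have h11 : 0 < (D : ℝ) ^ (c - x0) := by positivity
      have h12 := mul_le_mul_of_nonneg_left h1 h11.le
      rw [← hX] at h3
      calc X - ((K : ℝ) * u) ^ c ≤ M * (D : ℝ) ^ (c - x0) := (h3.trans h4).trans h8.le
        _ ≤ _ := by (clear * - h12; linarith)
    refine ⟨⌈X⌉₊ + 2, ?_, fun k hk e he => ?_⟩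
    · push_cast
      (clear * - hXle hc1; linarith)
    · rw [mem_Ico] at hk
      have hku : (u : ℝ) ≤ k := by exact_mod_cast hk.1
      have hkT : (k : ℝ) ≤ u + T := by exact_mod_cast hk.2.le
      have hs := Helper57.NX.s_bounds (Q := Q) hQ (x := ((K * k : ℕ) : ℝ) ^ c) (by (clear * -; positivity)) he
      set s : ℕ := (e + ⌊(Q : ℝ) * ((K * k : ℕ) : ℝ) ^ c⌋₊) / Q with hsdef
      have hk1 : ((K * k : ℕ) : ℝ) ^ c ≤ X := by
        refine Real.rpow_le_rpow (by (clear * -; positivity)) ?_ (by (clear * - hc; linarith))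
        push_cast
        exact mul_le_mul_of_nonneg_left hkT (by (clear * - hK1; linarith))
      have hk2 : ((K : ℝ) * u) ^ c ≤ ((K * k : ℕ) : ℝ) ^ c := by
        refine Real.rpow_le_rpow (by (clear * - hK hu0; positivity)) ?_ (by (clear * - hc; linarith))
        push_cast
        exact mul_le_mul_of_nonneg_left hku (by (clear * - hK1; linarith))
      constructor
      · have h3 : (s : ℝ) + 1 ≤ ((⌈X⌉₊ + 2 : ℕ) : ℝ) := by
          push_cast
          (clear * - hc2 hs hk1; linarith [hs.2])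
        exact_mod_cast h3
      · have h3 : ((⌈X⌉₊ + 2 : ℕ) : ℝ) + ((B / 2 : ℕ) : ℝ) ≤ (s : ℝ) + 1 + B := by
          have h4 : ((B / 2 : ℕ) : ℝ) ≤ (B : ℝ) / 2 := Nat.cast_div_le
          push_cast at h4 ⊢
          (clear * - hB h2 hc1 hinc hs hk2 h4; linarith [hs.1])
        exact_mod_cast h3
  · -- trivial case: the window is empty
    have ht1 : Tendsto (fun D : ℝ => D ^ (x0 - 1)) atTop atTop := tendsto_rpow_atTop (by (clear * - hx1; linarith))
    obtain ⟨D1, hD1⟩ := (tendsto_atTop.mp ht1 2).exists_forall_of_atTop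
    refine ⟨max 1 D1, fun D u T Q B hD hu huT hT hQ hB => ?_⟩
    have hDge : (1 : ℝ) ≤ D := (le_max_left _ _).trans hD
    have hD0 : (0 : ℝ) < D := by (clear * - hDge; linarith)
    have h1 := hD1 D ((le_max_right _ _).trans hD)
    have h2 : (D : ℝ) ^ (1 - x0) * (D : ℝ) ^ (x0 - 1) = 1 := by
      rw [← Real.rpow_add hD0]
      norm_num
    have h3 : 0 < (D : ℝ) ^ (1 - x0) := by positivity
    have hT1 : (T : ℝ) < 1 := by (clear * - hT h2 h3 h1; nlinarith)
    have hT0 : T = 0 := by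
      have : T < 1 := by exact_mod_cast hT1
      omega
    refine ⟨0, ?_, fun k hk => ?_⟩
    · have : 0 ≤ (2 * K * D : ℝ) ^ c := by (clear * - hK hDge; positivity)
      push_cast
      (clear * - this; linarith)
    · rw [hT0, add_zero, Ico_self] at hk
      exact absurd hk (Finset.notMem_empty k)

end

end Pool.Agent.Helper57.NX3

end

section

set_option autoImplicit false

open Finset

open scoped BigOperators

namespace Pool.Agent.Helper57.NX3

noncomputable section

theorem gs_blocks (f : ℕ → ℝ) (L n : ℕ) :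
    ∑ x ∈ range (L * n), f x = ∑ j ∈ range n, ∑ x ∈ Ico (L * j) (L * (j + 1)), f x := by
  induction n with
  | zero => simp
  | succ n ih =>
    rw [sum_range_succ, ← ih, range_eq_Ico, range_eq_Ico]
    rw [Finset.sum_Ico_consecutive _ (Nat.zero_le _) (Nat.mul_le_mul_left L (Nat.le_succ n))]

/-- number of integers prime to `M` -/
theorem card_coprime_le (M : ℕ) (hM : 1 ≤ M) (Z : ℕ) :
    |(((range Z).filter (fun x => x.Coprime M)).card : ℝ) - (M.totient : ℝ) / M * Z| ≤ M := by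
  have hM0 : (0 : ℝ) < M := by exact_mod_cast hM
  set q := Z / M with hq
  set r := Z % M with hr
  have hZ : Z = M * q + r := (Nat.div_add_mod Z M).symm
  have hrM : r < M := Nat.mod_lt _ hM
  have e1 : (((range Z).filter (fun x => x.Coprime M)).card : ℝ) =
      ∑ x ∈ range Z, (if x.Coprime M then (1 : ℝ) else 0) := by
    rw [Finset.sum_boole]
  exact by
    have e2 : ∑ x ∈ range (M * q), (if x.Coprime M then (1 : ℝ) else 0) = q * M.totient := by
      rw [gs_blocks]
      have : ∀ j ∈ range q, ∑ x ∈ Ico (M * j) (M * (j + 1)), (if x.Coprime M then (1 : ℝ) else 0)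
          = M.totient := by
        intro j _
        rw [Finset.sum_boole]
        have := Nat.filter_coprime_Ico_eq_totient M (M * j)
        have h2 : M * (j + 1) = M * j + M := by ring
        rw [h2]
        rw [← this]
        congr 2
        apply Finset.filter_congr
        intro x _
        exact Nat.coprime_comm
      rw [Finset.sum_congr rfl this]
      simp
    have e3 : ∑ x ∈ range Z, (if x.Coprime M then (1 : ℝ) else 0) =
        q * M.totient + ∑ x ∈ Ico (M * q) (M * q + r), (if x.Coprime M then (1 : ℝ) else 0) := by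
      rw [← e2, hZ, range_eq_Ico, range_eq_Ico,
        Finset.sum_Ico_consecutive _ (Nat.zero_le _) (Nat.le_add_right _ _)]
    have h0 : 0 ≤ ∑ x ∈ Ico (M * q) (M * q + r), (if x.Coprime M then (1 : ℝ) else 0) :=
      Finset.sum_nonneg (fun x _ => by split_ifs <;> norm_num)
    have h1 : ∑ x ∈ Ico (M * q) (M * q + r), (if x.Coprime M then (1 : ℝ) else 0) ≤ r := by
      calc _ ≤ ∑ x ∈ Ico (M * q) (M * q + r), (1 : ℝ) :=
            Finset.sum_le_sum (fun x _ => by split_ifs <;> norm_num)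
        _ = r := by simp
    have hφ : (M.totient : ℝ) / M ≤ 1 := by
      rw [div_le_one hM0]
      exact_mod_cast Nat.totient_le M
    have hφ0 : 0 ≤ (M.totient : ℝ) / M := by positivity
    exact by
      have hZr : (Z : ℝ) = M * q + r := by exact_mod_cast hZ
      have hrr : (r : ℝ) ≤ M := by exact_mod_cast hrM.le
      have hr0 : (0 : ℝ) ≤ r := Nat.cast_nonneg r
      have e4 : (M.totient : ℝ) / M * Z = q * M.totient + (M.totient : ℝ) / M * r := by
        rw [hZr]; (clear * - hM; field_simp)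
      have h5 : (M.totient : ℝ) / M * r ≤ r := by (clear * - hφ; nlinarith)
      have h6 : 0 ≤ (M.totient : ℝ) / M * r := by (clear * - hM; positivity)
      rw [e1, e3, e4, abs_le]
      constructor <;> (clear * - h0 hrr h5 h1 h6; linarith)

end

end Pool.Agent.Helper57.NX3

end

section

set_option autoImplicit false

open Finset

open scoped BigOperators ComplexConjugate

namespace Pool.Agent.Helper59.NX

theorem exists_pow_ge' (B ε : ℝ) (hε : 0 < ε) : ∃ D0 : ℝ, 1 ≤ D0 ∧ ∀ D : ℝ, D0 ≤ D →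
    B ≤ D ^ ε := by
  have h := tendsto_rpow_atTop hε
  obtain ⟨D0, h0⟩ := Filter.eventually_atTop.mp (h.eventually_ge_atTop B)
  exact ⟨max D0 1, le_max_right _ _, fun D hD => h0 D ((le_max_left _ _).trans hD)⟩

/-- The parameters. -/
theorem params (K m : ℕ) (hK : 2 ≤ K) (ε a c C : ℝ) (hε : 0 < ε) (haK : a + 2 ≤ K)
    (hc : 0 < c) (hc1 : c ≤ 1) (hC : 1 ≤ C) (N1 : ℕ) :
    ∃ x1 : ℝ, 0 < x1 ∧ x1 ≤ 1 / 8 ∧ ∃ D0 : ℝ, 1 ≤ D0 ∧ ∀ D : ℝ, D0 ≤ D →
      ∃ N : ℕ, N1 ≤ N ∧ 1 ≤ N ∧ (N : ℝ) ≤ D ^ (1 - x1) ∧ D ^ (1 / 2 : ℝ) ≤ N ∧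
      (N : ℝ) / D ≤ c / (2 * C) ∧
      ∀ V : ℝ, D ^ ε ≤ V → V ≤ D ^ a → ∀ l : ℕ, l < m →
        (N : ℝ) ^ (-((K + l : ℕ) : ℝ) + min ε 1 / 4) ≤ (D⁻¹) ^ (K + l : ℕ) * (c * V / 2) ∧
        (D⁻¹) ^ (K + l : ℕ) * (c * V / 2) ≤ (N : ℝ) ^ (-(min ε 1 / 4)) := by
  set ε1 : ℝ := min ε 1 / 4 with hε1
  have hε10 : 0 < ε1 := by rw [hε1]; have := lt_min hε one_pos; (clear * - hε; positivity)
  have hε14 : ε1 ≤ 1 / 4 := by rw [hε1]; (clear * -; linarith [min_le_right ε 1])
  have hε1ε : ε1 ≤ ε / 4 := by rw [hε1]; (clear * -; linarith [min_le_left ε 1])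
  have hKm : (2 : ℝ) ≤ ((K + m : ℕ) : ℝ) := by exact_mod_cast (by omega : 2 ≤ K + m)
  set x1 : ℝ := ε1 / ((K + m : ℕ) : ℝ) with hx1
  exact by
    have hx10 : 0 < x1 := by rw [hx1]; (clear * - hε hK; positivity)
    have hx18 : x1 ≤ 1 / 8 := by
      rw [hx1, div_le_iff₀ (by (clear * - hε10 hε14 hKm; linarith))]
      (clear * - hε14 hKm; linarith)
    have hx1K : x1 * ((K + m : ℕ) : ℝ) = ε1 := by rw [hx1]; (clear * - hK hε10; field_simp)
    obtain ⟨D1, hD1, h1⟩ := exists_pow_ge' (2 * C / c) x1 hx10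
    obtain ⟨D2, hD2, h2⟩ := exists_pow_ge' 2 (1 / 4) (by norm_num)
    obtain ⟨D3, hD3, h3⟩ := exists_pow_ge' N1 (1 / 2) (by norm_num)
    obtain ⟨D4, hD4, h4⟩ := exists_pow_ge' (2 ^ (K + m + 1) / c) (ε / 2) (by (clear * - hε; positivity))
    refine ⟨x1, hx10, hx18, max (max D1 D2) (max D3 D4), hD1.trans ((le_max_left _ _).trans
      (le_max_left _ _)), fun D hD => ?_⟩
    have hDD1 : D1 ≤ D := ((le_max_left _ _).trans (le_max_left _ _)).trans hD
    exact by
      have hDD2 : D2 ≤ D := ((le_max_right _ _).trans (le_max_left _ _)).trans hD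
      have hDD3 : D3 ≤ D := ((le_max_left _ _).trans (le_max_right _ _)).trans hD
      have hDD4 : D4 ≤ D := ((le_max_right _ _).trans (le_max_right _ _)).trans hD
      have hDone : 1 ≤ D := hD1.trans hDD1
      have hDpos : 0 < D := by (clear * - hx10 hx18 hD1 hDD1; linarith)
      have hpos : ∀ x : ℝ, 0 < D ^ x := fun x => Real.rpow_pos_of_pos hDpos x
      exact by
        have hmono : ∀ x y : ℝ, x ≤ y → D ^ x ≤ D ^ y := fun x y hxy =>
          Real.rpow_le_rpow_of_exponent_le hDone hxy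
        have hmul : ∀ x y : ℝ, D ^ x * D ^ y = D ^ (x + y) := fun x y => (Real.rpow_add hDpos x y).symm
        have hX1 : 1 ≤ D ^ (1 - x1) := by
          have := hmono 0 (1 - x1) (by (clear * - hx10 hx18; linarith))
          rwa [Real.rpow_zero] at this
        set N : ℕ := ⌊D ^ (1 - x1)⌋₊ with hN
        have hN1 : (N : ℝ) ≤ D ^ (1 - x1) := Nat.floor_le (by (clear * - hx10 hx18 hX1; linarith))
        have hNone : 1 ≤ N := Nat.le_floor (by push_cast; exact hX1)
        exact by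
          have hNone' : (1 : ℝ) ≤ N := by exact_mod_cast hNone
          have hN2 : D ^ (1 - x1) / 2 ≤ N := by
            have := Nat.lt_floor_add_one (D ^ (1 - x1))
            rw [← hN] at this
            (clear * - hNone' this; linarith)
          have hNhalf : D ^ (1 / 2 : ℝ) ≤ N := by
            refine le_trans ?_ hN2
            rw [le_div_iff₀ (by norm_num : (0 : ℝ) < 2)]
            calc D ^ (1 / 2 : ℝ) * 2 ≤ D ^ (1 / 2 : ℝ) * D ^ (1 / 4 : ℝ) :=
                  mul_le_mul_of_nonneg_left (h2 D hDD2) (hpos _).le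
              _ = D ^ (3 / 4 : ℝ) := by rw [hmul]; norm_num
              _ ≤ D ^ (1 - x1) := hmono _ _ (by (clear * - hx10 hx18; linarith))
          have hNpos : (0 : ℝ) < N := by (clear * - hx10 hx18 hNone'; linarith)
          refine ⟨N, ?_, hNone, hN1, hNhalf, ?_, ?_⟩
          · have := (h3 D hDD3).trans hNhalf
            exact_mod_cast this
          · have hC0 : 0 < C := by (clear * - hC hx10 hx18; linarith)
            rw [div_le_iff₀ hDpos]
            calc (N : ℝ) ≤ D ^ (1 - x1) := hN1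
              _ = D ^ (-x1) * D := by
                  nth_rewrite 3 [← Real.rpow_one D]
                  rw [hmul]; congr 1; ring
              _ ≤ c / (2 * C) * D := by
                  refine mul_le_mul_of_nonneg_right ?_ hDpos.le
                  rw [Real.rpow_neg hDpos.le, show c / (2 * C) = (2 * C / c)⁻¹ by rw [inv_div]]
                  exact inv_anti₀ (by positivity) (h1 D hDD1)
          · intro V hV1 hV2 l hl
            exact by
              have hj : ((K + l : ℕ) : ℝ) ≤ ((K + m : ℕ) : ℝ) := by exact_mod_cast (by (clear * - ε D hl; omega) : K + l ≤ K + m)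
              have hjK : (K : ℝ) ≤ ((K + l : ℕ) : ℝ) := by exact_mod_cast (by omega : K ≤ K + l)
              have hj2 : (2 : ℝ) ≤ ((K + l : ℕ) : ℝ) := by exact_mod_cast (by omega : 2 ≤ K + l)
              have e0 : (D⁻¹) ^ (K + l : ℕ) = D ^ (-((K + l : ℕ) : ℝ)) := by
                rw [Real.rpow_neg hDpos.le, Real.rpow_natCast, inv_pow]
              rw [e0]
              set J : ℝ := ((K + l : ℕ) : ℝ) with hJ
              constructor
              · have f1 : (N : ℝ) ^ (-J + ε1) ≤ (D ^ (1 - x1) / 2) ^ (-J + ε1) :=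
                  Real.rpow_le_rpow_of_nonpos (by have := hpos (1 - x1); (clear * - hDone; positivity)) hN2 (by (clear * - hε14 hx10 hx18 hj2; linarith))
                exact by
                  have f2 : (D ^ (1 - x1) / 2) ^ (-J + ε1) =
                      D ^ ((1 - x1) * (-J + ε1)) * (2 : ℝ) ^ (J - ε1) := by
                    rw [Real.div_rpow (hpos _).le (by norm_num), ← Real.rpow_mul hDpos.le, div_eq_mul_inv,
                      ← Real.rpow_neg (by norm_num)]
                    congr 2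
                    ring
                  have f3 : D ^ ((1 - x1) * (-J + ε1)) ≤ D ^ (-J + ε / 2) := by
                    apply hmono
                    have : x1 * J ≤ ε1 := by
                      rw [← hx1K]; exact mul_le_mul_of_nonneg_left hj hx10.le
                    have h5 : 0 ≤ x1 * ε1 := by (clear * - hε hK; positivity)
                    have h6 : (1 - x1) * (-J + ε1) = -J + ε1 + x1 * J - x1 * ε1 := by ring
                    rw [h6]
                    (clear * - hε1ε this h5; linarith)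
                  have f4 : (2 : ℝ) ^ (J - ε1) ≤ 2 ^ (K + m) := by
                    rw [← Real.rpow_natCast]
                    exact Real.rpow_le_rpow_of_exponent_le (by norm_num) (by (clear * - hε10 hj; linarith))
                  have f5 : (2 : ℝ) ^ (K + m) ≤ D ^ (ε / 2) * (c / 2) := by
                    have := h4 D hDD4
                    rw [div_le_iff₀ hc, pow_succ] at this
                    (clear * - this; linarith)
                  calc (N : ℝ) ^ (-J + ε1) ≤ D ^ ((1 - x1) * (-J + ε1)) * (2 : ℝ) ^ (J - ε1) := by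
                        rw [← f2]; exact f1
                    _ ≤ D ^ (-J + ε / 2) * (D ^ (ε / 2) * (c / 2)) := by
                        refine mul_le_mul f3 (f4.trans f5) (by positivity) (hpos _).le
                    _ = D ^ (-J) * (c * D ^ ε / 2) := by
                        rw [Real.rpow_add hDpos, show D ^ ε = D ^ (ε / 2) * D ^ (ε / 2) by
                          rw [hmul]; congr 1; ring]
                        ring
                    _ ≤ D ^ (-J) * (c * V / 2) := by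
                        have := hpos (-J)
                        gcongr
              · have g1 : D ^ (-J) * (c * V / 2) ≤ D ^ (-J) * D ^ a := by
                  refine mul_le_mul_of_nonneg_left ?_ (hpos _).le
                  have : 0 < V := lt_of_lt_of_le (hpos _) hV1
                  (clear * - hV2 this hc1; nlinarith)
                exact by
                  refine g1.trans ?_
                  rw [hmul]
                  calc D ^ (-J + a) ≤ D ^ (-(1 : ℝ)) := hmono _ _ (by (clear * - haK hx10 hx18 hjK; linarith))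
                    _ ≤ (N : ℝ) ^ (-(1 : ℝ)) := by
                        refine Real.rpow_le_rpow_of_nonpos hNpos ?_ (by norm_num)
                        refine hN1.trans ?_
                        have := hmono (1 - x1) 1 (by (clear * - hx10; linarith))
                        rwa [Real.rpow_one] at this
                    _ ≤ (N : ℝ) ^ (-ε1) := Real.rpow_le_rpow_of_exponent_le hNone' (by (clear * - hε14 hx10 hx18; linarith))

end Pool.Agent.Helper59.NX

end
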