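import Pool.Agent.Helper23.MC.Inst

/-!
Parts of Helper57.NX.Defs, Helper7.NX.BaseCells, Helper67.NX.BPhase, Helper41.NX.Gap, Helper92.NX2.Bc, Helper30.NX2.LocArithAux, Helper65.NX.Pet, Helper60.NX2.DlB, Helper94.NX2.MainMixedOf, Helper21.NX2.ThmPOf, Helper46.NX2.ReplaceAp, Helper57.NX3.Defs, Helper8.NX3.Averages, Helper57.NX3.PatBlk, Helper57.NX3.PatHwin, Helper57.FP.Energy, Helper57.FP.EnergyMain, Helper57.FP.Induct, Helper82.NX3.MainCore, Helper52.NX3.BadRealOf
-/

attribute [local instance 5000]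
  Pool.Agent.Helper23.MC.Inst.rCharZero Pool.Agent.Helper23.MC.Inst.rALM
  Pool.Agent.Helper23.MC.Inst.rARM Pool.Agent.Helper23.MC.Inst.rALSM
  Pool.Agent.Helper23.MC.Inst.rARSM Pool.Agent.Helper23.MC.Inst.rARRLE
  Pool.Agent.Helper23.MC.Inst.rALRLE Pool.Agent.Helper23.MC.Inst.rARRLT
  Pool.Agent.Helper23.MC.Inst.rALRLT Pool.Agent.Helper23.MC.Inst.rPMRLT
  Pool.Agent.Helper23.MC.Inst.rMPRLT Pool.Agent.Helper23.MC.Inst.rPMM
  Pool.Agent.Helper23.MC.Inst.rMPM Pool.Agent.Helper23.MC.Inst.rPMSM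
  Pool.Agent.Helper23.MC.Inst.rMPSM Pool.Agent.Helper23.MC.Inst.rEAOL
  Pool.Agent.Helper23.MC.Inst.rIOR Pool.Agent.Helper23.MC.Inst.rISOR
  Pool.Agent.Helper23.MC.Inst.rNZD Pool.Agent.Helper23.MC.Inst.rcCharZero
  Pool.Agent.Helper23.MC.Inst.rcNZD Pool.Agent.Helper23.MC.Inst.zCharZero
  Pool.Agent.Helper23.MC.Inst.zALM Pool.Agent.Helper23.MC.Inst.zARM
  Pool.Agent.Helper23.MC.Inst.zALSM Pool.Agent.Helper23.MC.Inst.zARSM
  Pool.Agent.Helper23.MC.Inst.zIOR Pool.Agent.Helper23.MC.Inst.zISOR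
  Pool.Agent.Helper23.MC.Inst.zNZD Pool.Agent.Helper23.MC.Inst.qCharZero
  Pool.Agent.Helper23.MC.Inst.mR Pool.Agent.Helper23.MC.Inst.mC Pool.Agent.Helper23.MC.Inst.mRC
  Pool.Agent.Helper23.MC.Inst.rPSM Pool.Agent.Helper23.MC.Inst.rCSM
  Pool.Agent.Helper23.MC.Inst.cAdd Pool.Agent.Helper23.MC.Inst.cAddM
  Pool.Agent.Helper23.MC.Inst.cMul Pool.Agent.Helper23.MC.Inst.cMon

namespace Pool.Agent.Helper57.NX
end Pool.Agent.Helper57.NX
namespace Pool.Agent.Helper57.NX3
end Pool.Agent.Helper57.NX3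

section

set_option autoImplicit false

open Finset

open scoped BigOperators ComplexConjugate

namespace Pool.Agent.Helper57.NX

noncomputable section

/-- the next list: all `p - q` and `τ_h p - q`, without the negligible ones (`∈ V R`) -/
def petNext {Φ : Type} [AddCommGroup Φ] (V : ℕ → AddSubgroup Φ) (τ : ℕ → Φ →+ Φ) (R : ℕ) (q : Φ)
    (h : ℕ) (Q : List Φ) : List Φ := by
  classical exact (Q.map (fun p => p - q) ++ Q.map (fun p => τ h p - q)).filter (fun p => p ∉ V R)

/-- `Steps ν Q`: the elimination process can be finished in at most `ν` steps -/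
def Steps {Φ : Type} [AddCommGroup Φ] (V : ℕ → AddSubgroup Φ) (τ : ℕ → Φ →+ Φ) (R : ℕ) :
    ℕ → List Φ → Prop
  | 0, Q => Q = []
  | ν + 1, Q => Q = [] ∨ ∃ q ∈ Q, ∀ h, Steps V τ R ν (petNext V τ R q h Q)

end

end Pool.Agent.Helper57.NX

end

section

set_option autoImplicit false

open Finset

open scoped BigOperators ComplexConjugate

namespace Pool.Agent.Helper57.NX

noncomputable section

theorem mod_var7 (g : ℕ → ℂ) (hg : ∀ v, ‖g v‖ ≤ 1) (B X : ℝ) (hB : 0 ≤ B) (hX : 0 < X)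
    (hv : ∀ a l : ℕ, ∑ j ∈ range l, ‖g (a + j + 1) - g (a + j)‖ ≤ B * (l / X + 1)) (n : ℕ)
    (hn : 0 < n) : ∀ l v : ℕ, v < n →
      ∑ j ∈ range l, ‖g ((v + j + 1) % n) - g ((v + j) % n)‖ ≤
        B * (l / X + 1) + (B + 2) * ((v + l) / n : ℕ) := by
  intro l
  induction l using Nat.strong_induction_on with
  | _ l ih =>
    intro v hvn
    by_cases h : v + l < n
    · have h1 : ∀ j ∈ range l, ‖g ((v + j + 1) % n) - g ((v + j) % n)‖ =
          ‖g (v + j + 1) - g (v + j)‖ := by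
        intro j hj
        rw [mem_range] at hj
        rw [Nat.mod_eq_of_lt (by omega), Nat.mod_eq_of_lt (by omega)]
      rw [sum_congr rfl h1]
      have h2 := hv v l
      have h3 : 0 ≤ (B + 2) * ((v + l) / n : ℕ) := by (clear * - hB; positivity)
      (clear * - h2 h3; linarith)
    · push Not at h
      obtain ⟨l2, hl2⟩ : ∃ l2, l = (n - 1 - v) + (1 + l2) := ⟨l - (n - v), by (clear * - hvn h; omega)⟩
      have e1 : (v + l) / n = 1 + (0 + l2) / n := by
        have : v + l = n * 1 + l2 := by omega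
        rw [this, Nat.mul_add_div hn, zero_add]
      have i1 := ih l2 (by omega) 0 hn
      rw [e1, hl2, sum_range_add, sum_range_add, sum_range_one]
      have s1 : ∑ j ∈ range (n - 1 - v), ‖g ((v + j + 1) % n) - g ((v + j) % n)‖ ≤
          B * ((n - 1 - v : ℕ) / X + 1) := by
        have h1 : ∀ j ∈ range (n - 1 - v), ‖g ((v + j + 1) % n) - g ((v + j) % n)‖ =
            ‖g (v + j + 1) - g (v + j)‖ := by
          intro j hj
          rw [mem_range] at hj
          rw [Nat.mod_eq_of_lt (by omega), Nat.mod_eq_of_lt (by omega)]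
        rw [sum_congr rfl h1]
        exact hv v _
      have s2 : ‖g ((v + (n - 1 - v + 0) + 1) % n) - g ((v + (n - 1 - v + 0)) % n)‖ ≤ 2 := by
        refine (norm_sub_le _ _).trans ?_
        have := hg ((v + (n - 1 - v + 0) + 1) % n)
        have := hg ((v + (n - 1 - v + 0)) % n)
        linarith
      have s3 : ∑ j ∈ range l2, ‖g ((v + (n - 1 - v + (1 + j)) + 1) % n) -
          g ((v + (n - 1 - v + (1 + j))) % n)‖ =
          ∑ j ∈ range l2, ‖g ((0 + j + 1) % n) - g ((0 + j) % n)‖ := by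
        refine sum_congr rfl fun j _ => ?_
        have e2 : v + (n - 1 - v + (1 + j)) + 1 = (0 + j + 1) + n := by omega
        have e3 : v + (n - 1 - v + (1 + j)) = (0 + j) + n := by omega
        rw [e2, e3, Nat.add_mod_right, Nat.add_mod_right]
      exact by
        rw [s3]
        push_cast at s1 s2 i1 ⊢
        have hXne : X ≠ 0 := hX.ne'
        have e4 : B * (((n - 1 - v : ℕ) + (1 + (l2 : ℝ))) / X + 1) =
            B * ((n - 1 - v : ℕ) / X + 1) + B * (l2 / X + 1) - B + B / X := by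
          field_simp
          ring
        have h5 : 0 ≤ B / X := by (clear * - hB hX; positivity)
        rw [e4]
        (clear * - i1 s1 s2 h5; nlinarith [s1, s2, i1, h5])

end

end Pool.Agent.Helper57.NX

end

section

set_option autoImplicit false

open Finset

open scoped BigOperators ComplexConjugate

namespace Pool.Agent.Helper57.NX

noncomputable section

lemma card_window67 (N X b : ℕ) (hX : 1 ≤ X) (hXN : X ≤ N) :
    #((range X).filter fun i => ((b + i) % N) % X = 0) ≤ 2 := by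
  classical
  have hN : 0 < N := by omega
  set w := b % N with hw
  have hwN : w < N := Nat.mod_lt _ hN
  have hmod : ∀ i, (b + i) % N = (w + i) % N := fun i => by rw [hw, Nat.mod_add_mod]
  have hsub : ((range X).filter fun i => ((b + i) % N) % X = 0) ⊆
      ((range X).filter fun i => w + i < N ∧ (w + i) % X = 0) ∪
      ((range X).filter fun i => w + i = N) := by
    intro i hi
    rw [mem_filter, hmod, mem_range] at hi
    rw [mem_union, mem_filter, mem_filter, mem_range]
    by_cases h : w + i < N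
    · left
      refine ⟨hi.1, h, ?_⟩
      rw [Nat.mod_eq_of_lt h] at hi
      exact hi.2
    · right
      have h3 : (w + i) % N = w + i - N := by
        conv_lhs => rw [← Nat.sub_add_cancel (not_lt.1 h)]
        rw [Nat.add_mod_right, Nat.mod_eq_of_lt (by omega)]
      rw [h3, Nat.mod_eq_of_lt (by omega)] at hi
      exact ⟨hi.1, by omega⟩
  have h1 : #((range X).filter fun i => w + i < N ∧ (w + i) % X = 0) ≤ 1 := by
    rw [card_le_one]
    intro i hi j hj
    rw [mem_filter, mem_range] at hi hj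
    have h : (w + i) ≡ (w + j) [MOD X] := by
      unfold Nat.ModEq
      rw [hi.2.2, hj.2.2]
    exact Nat.ModEq.eq_of_lt_of_lt (Nat.ModEq.add_left_cancel' w h) hi.1 hj.1
  have h2 : #((range X).filter fun i => w + i = N) ≤ 1 := by
    rw [card_le_one]
    intro i hi j hj
    rw [mem_filter] at hi hj
    omega
  calc _ ≤ _ := card_le_card hsub
    _ ≤ _ := card_union_le _ _
    _ ≤ 2 := by omega

lemma card_windows67 (N X : ℕ) (hX : 1 ≤ X) (hXN : X ≤ N) (q : ℕ) : ∀ b : ℕ,
    #((range (q * X)).filter fun i => ((b + i) % N) % X = 0) ≤ 2 * q := by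
  classical
  induction q with
  | zero => intro b; simp
  | succ q ih =>
    intro b
    have hsub : ((range ((q + 1) * X)).filter fun i => ((b + i) % N) % X = 0) ⊆
        ((range (q * X)).filter fun i => ((b + i) % N) % X = 0) ∪
        (((range X).filter fun i => (((b + q * X) + i) % N) % X = 0).image fun i => q * X + i) := by
      intro i hi
      rw [mem_filter, mem_range] at hi
      rw [mem_union, mem_filter, mem_range, mem_image]
      by_cases h : i < q * X
      · exact Or.inl ⟨h, hi.2⟩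
      · right
        have h1 : i < q * X + X := by have := hi.1; linarith [add_one_mul q X]
        refine ⟨i - q * X, ?_, by omega⟩
        rw [mem_filter, mem_range]
        refine ⟨by omega, ?_⟩
        have h2 : b + q * X + (i - q * X) = b + i := by omega
        rw [h2]
        exact hi.2
    calc _ ≤ _ := card_le_card hsub
      _ ≤ _ := card_union_le _ _
      _ ≤ 2 * q + 2 := add_le_add (ih b) (card_image_le.trans (card_window67 N X _ hX hXN))
      _ = 2 * (q + 1) := by ring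

/-- the number of block boundaries in an interval -/
theorem card_boundary67 (N X : ℕ) (hX : 1 ≤ X) (hXN : X ≤ N) (b l : ℕ) :
    (#((range l).filter fun i => ((b + i) % N) % X = 0) : ℝ) ≤ 2 * (l / X + 1) := by
  classical
  have hX0 : (0 : ℝ) < X := by exact_mod_cast hX
  have h1 : l ≤ (l / X + 1) * X := by
    have := Nat.div_add_mod l X
    have h2 := Nat.mod_lt l (show 0 < X by omega)
    (clear * - this h2; nlinarith)
  have h2 : #((range l).filter fun i => ((b + i) % N) % X = 0) ≤ 2 * (l / X + 1) :=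
    (card_le_card (filter_subset_filter _ (range_subset_range.2 h1))).trans
      (card_windows67 N X hX hXN _ b)
  have h3 : (#((range l).filter fun i => ((b + i) % N) % X = 0) : ℝ) ≤
      2 * (((l / X : ℕ) : ℝ) + 1) := by exact_mod_cast h2
  have h4 : ((l / X : ℕ) : ℝ) ≤ (l : ℝ) / X := Nat.cast_div_le
  (clear * - h3 h4; linarith)

end

end Pool.Agent.Helper57.NX

end

section

set_option autoImplicit false

open Finset

open scoped BigOperators ComplexConjugate

namespace Pool.Agent.Helper41.NX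

open Pool.Agent.Helper57.NX

noncomputable section

theorem sum_gaps (α : ℕ → ℕ) (F : ℕ → ℂ) (K : ℕ) (hα : ∀ j < K, α j ≤ α (j + 1)) :
    ∑ j ∈ range K, ∑ z ∈ Ico (α j) (α (j + 1)), F z = ∑ z ∈ Ico (α 0) (α K), F z := by
  induction K with
  | zero => simp
  | succ K ih =>
    rw [sum_range_succ, ih fun j hj => hα j (by omega)]
    have h0 : ∀ k ≤ K, α 0 ≤ α k := by
      intro k hk
      induction k with
      | zero => exact le_rfl
      | succ k ihk => exact (ihk (by omega)).trans (hα k (by omega))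
    exact sum_Ico_consecutive F (h0 K le_rfl) (hα K (by omega))

/-- replace the average over `j` by the average over `z` -/
theorem gap_change (K : ℕ) (hK : 1 ≤ K) (α : ℕ → ℕ) (hα : ∀ j < K, α j ≤ α (j + 1))
    (G Gt : ℕ → ℂ) (hG : ∀ j, ‖G j‖ ≤ 1) (g0 η η1 : ℝ) (hg0 : 0 < g0) (hη0 : 0 ≤ η)
    (hη : η ≤ 1 / 2) (hgap : ∀ j < K, |((α (j + 1) : ℝ) - α j) - g0| ≤ η * g0)
    (hGt : ∀ j < K, ∀ z ∈ Ico (α j) (α (j + 1)), ‖G j - Gt z‖ ≤ η1) :
    g0 * K / 2 ≤ (α K : ℝ) - α 0 ∧ (α K : ℝ) - α 0 ≤ 2 * g0 * K ∧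
    ‖𝔼 j ∈ range K, G j - 𝔼 z ∈ Ico (α 0) (α K), Gt z‖ ≤ η1 + 4 * η := by
  have hK0 : (0 : ℝ) < K := by (clear * - hK; positivity)
  have htel : ∑ j ∈ range K, ((α (j + 1) : ℝ) - α j) = (α K : ℝ) - α 0 :=
    sum_range_sub (fun j => (α j : ℝ)) K
  have hZ : |((α K : ℝ) - α 0) - K * g0| ≤ K * (η * g0) := by
    rw [← htel]
    have h1 : ∑ j ∈ range K, ((α (j + 1) : ℝ) - α j) - K * g0 =
        ∑ j ∈ range K, (((α (j + 1) : ℝ) - α j) - g0) := by
      rw [sum_sub_distrib]; simp
    rw [h1]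
    refine (abs_sum_le_sum_abs _ _).trans ?_
    calc ∑ j ∈ range K, |((α (j + 1) : ℝ) - α j) - g0| ≤ ∑ j ∈ range K, η * g0 :=
          sum_le_sum fun j hj => hgap j (mem_range.mp hj)
      _ = _ := by simp
  have hηg : η * g0 ≤ g0 / 2 := by (clear * - hg0 hη; nlinarith)
  have hKηg : K * (η * g0) ≤ K * (g0 / 2) := mul_le_mul_of_nonneg_left hηg hK0.le
  rw [abs_le] at hZ
  have hlow : g0 * K / 2 ≤ (α K : ℝ) - α 0 := by (clear * - hZ hKηg; nlinarith [hZ.1])
  have hup : (α K : ℝ) - α 0 ≤ 2 * g0 * K := by (clear * - hZ hKηg hg0 hK0; nlinarith [hZ.2, mul_pos hg0 hK0])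
  exact by
    refine ⟨hlow, hup, ?_⟩
    set Z : ℝ := (α K : ℝ) - α 0 with hZdef
    have hZpos : 0 < Z := lt_of_lt_of_le (by positivity) hlow
    have hle : α 0 ≤ α K := by
      have : (α 0 : ℝ) ≤ α K := by (clear * - hZpos; linarith)
      exact_mod_cast this
    have hcard : (((Ico (α 0) (α K)).card : ℕ) : ℂ) = ((Z : ℝ) : ℂ) := by
      rw [Nat.card_Ico, hZdef]
      push_cast [hle]
      ring
    have h2 : 𝔼 z ∈ Ico (α 0) (α K), Gt z =
        ∑ j ∈ range K, ∑ z ∈ Ico (α j) (α (j + 1)), Gt z / (Z : ℂ) := by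
      rw [expect_eq_sum_div_card, hcard, ← sum_gaps α Gt K hα, sum_div]
      refine sum_congr rfl fun j _ => ?_
      rw [sum_div]
    have h3 : 𝔼 j ∈ range K, G j - 𝔼 z ∈ Ico (α 0) (α K), Gt z =
        ∑ j ∈ range K, ((1 / (K : ℂ) - (((α (j + 1) : ℝ) - α j : ℝ) : ℂ) / Z) * G j +
          ∑ z ∈ Ico (α j) (α (j + 1)), (G j - Gt z) / (Z : ℂ)) := by
      rw [h2, expect_eq_sum_div_card, card_range, sum_div, ← sum_sub_distrib]
      refine sum_congr rfl fun j hj => ?_
      have h4 : ∑ z ∈ Ico (α j) (α (j + 1)), (G j - Gt z) / (Z : ℂ) =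
          (((α (j + 1) : ℝ) - α j : ℝ) : ℂ) / Z * G j -
            ∑ z ∈ Ico (α j) (α (j + 1)), Gt z / (Z : ℂ) := by
        simp only [sub_div]
        rw [sum_sub_distrib, sum_const, Nat.card_Ico, nsmul_eq_mul]
        have := hα j (mem_range.mp hj)
        push_cast [this]
        ring
      rw [h4]
      ring
    rw [h3]
    have hg : ∀ j < K, |1 / (K : ℝ) - ((α (j + 1) : ℝ) - α j) / Z| ≤ 4 * η / K := by
      intro j hj
      have h5 : 1 / (K : ℝ) - ((α (j + 1) : ℝ) - α j) / Z =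
          ((Z - K * g0) - K * (((α (j + 1) : ℝ) - α j) - g0)) / (K * Z) := by
        field_simp
        ring
      rw [h5, abs_div, abs_of_pos (by (clear * - hK hZpos; positivity) : 0 < (K : ℝ) * Z), div_le_div_iff₀ (by positivity)
        hK0]
      have h6 : |(Z - K * g0) - K * (((α (j + 1) : ℝ) - α j) - g0)| ≤ 2 * (K * (η * g0)) := by
        refine (abs_sub _ _).trans ?_
        have h7 : |Z - K * g0| ≤ K * (η * g0) := abs_le.mpr hZ
        have h8 : |K * (((α (j + 1) : ℝ) - α j) - g0)| ≤ K * (η * g0) := by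
          rw [abs_mul, abs_of_pos hK0]
          exact mul_le_mul_of_nonneg_left (hgap j hj) hK0.le
        (clear * - h7 h8; linarith)
      calc _ ≤ 2 * (K * (η * g0)) * K := mul_le_mul_of_nonneg_right h6 hK0.le
        _ = 4 * η * (K * (g0 * K / 2)) := by ring
        _ ≤ 4 * η * (K * Z) := by
            apply mul_le_mul_of_nonneg_left _ (by positivity)
            exact mul_le_mul_of_nonneg_left hlow hK0.le
    have hfin : ∀ j ∈ range K, ‖(1 / (K : ℂ) - (((α (j + 1) : ℝ) - α j : ℝ) : ℂ) / Z) * G j +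
          ∑ z ∈ Ico (α j) (α (j + 1)), (G j - Gt z) / (Z : ℂ)‖ ≤
        4 * η / K + ((α (j + 1) : ℝ) - α j) * (η1 / Z) := by
      intro j hj
      have hj' := mem_range.mp hj
      refine (norm_add_le _ _).trans (add_le_add ?_ ?_)
      · rw [norm_mul]
        have h9 : (1 / (K : ℂ) - (((α (j + 1) : ℝ) - α j : ℝ) : ℂ) / Z) =
            ((1 / (K : ℝ) - ((α (j + 1) : ℝ) - α j) / Z : ℝ) : ℂ) := by
          push_cast; ring
        rw [h9, Complex.norm_real, Real.norm_eq_abs]
        calc _ ≤ (4 * η / K) * 1 := mul_le_mul (hg j hj') (hG j) (norm_nonneg _) (by (clear * - hη0 hK; positivity))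
          _ = _ := mul_one _
      · refine (norm_sum_le _ _).trans ?_
        calc ∑ z ∈ Ico (α j) (α (j + 1)), ‖(G j - Gt z) / (Z : ℂ)‖
            ≤ ∑ z ∈ Ico (α j) (α (j + 1)), η1 / Z := by
              refine sum_le_sum fun z hz => ?_
              rw [norm_div, Complex.norm_real, Real.norm_eq_abs, abs_of_pos hZpos]
              exact div_le_div_of_nonneg_right (hGt j hj' z hz) hZpos.le
          _ = _ := by
              rw [sum_const, Nat.card_Ico, nsmul_eq_mul]
              have := hα j hj'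
              push_cast [this]
              ring
    refine (norm_sum_le _ _).trans ((sum_le_sum hfin).trans ?_)
    rw [sum_add_distrib, ← sum_mul, htel]
    have h10 : ∑ j ∈ range K, 4 * η / (K : ℝ) = 4 * η := by
      rw [sum_const, card_range, nsmul_eq_mul]
      (clear * - hK; field_simp)
    rw [h10]
    have h11 : Z * (η1 / Z) = η1 := by (clear * - hZpos; field_simp)
    rw [h11]
    (clear * -; linarith)

end

end Pool.Agent.Helper41.NX

end

section

set_option autoImplicit false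

open Finset

open scoped BigOperators ComplexConjugate

namespace Pool.Agent.Helper67.NX2

open Pool.Agent.Helper57.NX

noncomputable section

section Core

variable {N : ℕ} [NeZero N]

/-- numbers with a given residue in an interval -/
theorem cnt92 {Q : ℕ} (hQ : 1 ≤ Q) (v a l : ℕ) :
    (#((range l).filter fun j => (v + j) % Q = a) : ℝ) ≤ l / Q + 1 := by
  have hQ0 : (0 : ℝ) < Q := by exact_mod_cast hQ
  have h1 : #((range l).filter fun j => (v + j) % Q = a) ≤
      #((Ico v (v + l)).filter fun x => x ≡ a [MOD Q]) := by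
    refine card_le_card_of_injOn (fun j => v + j) ?_ ?_
    · intro j hj
      simp only [coe_filter, mem_range, Set.mem_ofPred_eq, mem_Ico] at hj ⊢
      refine ⟨⟨by omega, by omega⟩, ?_⟩
      unfold Nat.ModEq
      rw [← hj.2, Nat.mod_mod]
    · intro j _ j' _ h
      exact Nat.add_left_cancel h
  have h2 := Nat.Ico_filter_modEq_card v (v + l) (show 0 < Q by omega) a
  have h3 : ((max (⌈(((v + l : ℕ) : ℚ) - a) / (Q : ℚ)⌉ - ⌈((v : ℚ) - a) / (Q : ℚ)⌉) 0 : ℤ) : ℝ) ≤
      l / Q + 1 := by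
    rw [Int.cast_max, Int.cast_zero]
    refine max_le ?_ (by (clear * - hQ; positivity))
    have h4 : (⌈(((v + l : ℕ) : ℚ) - a) / (Q : ℚ)⌉ : ℝ) < ((((v + l : ℕ) : ℚ) - a) / (Q : ℚ) : ℚ) + 1 := by
      exact_mod_cast Int.ceil_lt_add_one _
    have h5 : ((((v : ℚ) - a) / (Q : ℚ) : ℚ) : ℝ) ≤ ⌈((v : ℚ) - a) / (Q : ℚ)⌉ := by
      exact_mod_cast Int.le_ceil _
    push_cast at h4 h5 ⊢
    have h6 : ((v : ℝ) + l - a) / Q = ((v : ℝ) - a) / Q + l / Q := by
      field_simp; ring
    linarith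
  have h7 : (#((Ico v (v + l)).filter fun x => x ≡ a [MOD Q]) : ℝ) ≤ l / Q + 1 := by
    refine le_trans (le_of_eq ?_) h3
    exact_mod_cast h2
  exact le_trans (by exact_mod_cast h1) h7

end Core

end

end Pool.Agent.Helper67.NX2

end

section

set_option autoImplicit false

open Finset

open scoped BigOperators ComplexConjugate

namespace Pool.Agent.Helper67.NX2

open Pool.Agent.Helper57.NX

noncomputable section

theorem la_div_le (a l R : ℕ) (hR : 1 ≤ R) :
    (((a + l) / R - a / R : ℕ) : ℝ) ≤ (l : ℝ) / R + 1 := by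
  have hR0 : (0 : ℝ) < R := by exact_mod_cast hR
  have h1 : (a + l) / R ≤ a / R + l / R + 1 := by
    rw [Nat.div_le_iff_le_mul_add_pred (by omega)]
    have h2 := Nat.div_add_mod a R
    have h3 := Nat.div_add_mod l R
    have h4 := Nat.mod_lt a (by omega : R > 0)
    have h5 := Nat.mod_lt l (by omega : R > 0)
    have h6 : R * (a / R + l / R + 1) = R * (a / R) + R * (l / R) + R := by ring
    omega
  have h2 : (a + l) / R - a / R ≤ l / R + 1 := by
    rw [Nat.sub_le_iff_le_add]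
    linarith
  have h3 : (((a + l) / R - a / R : ℕ) : ℝ) ≤ ((l / R : ℕ) : ℝ) + 1 := by exact_mod_cast h2
  have h4 : ((l / R : ℕ) : ℝ) ≤ (l : ℝ) / R := Nat.cast_div_le
  (clear * - h3 h4; linarith)

theorem la_div_succ (t R : ℕ) (hR : 1 ≤ R) : (t + 1) / R = t / R ∨ (t + 1) / R = t / R + 1 := by
  have h1 : t / R ≤ (t + 1) / R := Nat.div_le_div_right (by omega)
  have h2 : (t + 1) / R ≤ t / R + 1 := by
    calc (t + 1) / R ≤ (t + R) / R := Nat.div_le_div_right (by omega)
      _ = t / R + 1 := Nat.add_div_right t (by omega)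
  omega

theorem la_tv_div_aux (G : ℕ → ℂ) (R : ℕ) (hR : 1 ≤ R) (a l : ℕ) :
    ∑ j ∈ range l, ‖G ((a + j + 1) / R) - G ((a + j) / R)‖ =
      ∑ w ∈ range ((a + l) / R - a / R), ‖G (a / R + w + 1) - G (a / R + w)‖ := by
  induction l with
  | zero => simp
  | succ l ih =>
    rw [sum_range_succ, ih]
    have hm : a / R ≤ (a + l) / R := Nat.div_le_div_right (by omega)
    rcases la_div_succ (a + l) R hR with h | h
    · have h' : (a + (l + 1)) / R = (a + l) / R := by rw [← h]; rfl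
      rw [h, h', sub_self, norm_zero, add_zero]
    · have h' : (a + (l + 1)) / R = (a + l) / R + 1 := by rw [← h]; rfl
      have h2 : (a + (l + 1)) / R - a / R = ((a + l) / R - a / R) + 1 := by omega
      rw [h2, sum_range_succ, h]
      have h3 : a / R + ((a + l) / R - a / R) = (a + l) / R := by omega
      rw [h3]

theorem la_tv_div (G : ℕ → ℂ) (B X : ℝ) (hX : 1 ≤ X) (R : ℕ) (hR : 1 ≤ R)
    (h : ∀ a l : ℕ, ∑ j ∈ range l, ‖G (a + j + 1) - G (a + j)‖ ≤ B * (l / X + 1)) (a l : ℕ) :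
    ∑ j ∈ range l, ‖G ((a + j + 1) / R) - G ((a + j) / R)‖ ≤ 2 * B * (l / (R * X) + 1) := by
  have hB : 0 ≤ B := by simpa using h 0 0
  have hR0 : (0 : ℝ) < R := by exact_mod_cast hR
  have hX0 : 0 < X := by (clear * - hX; linarith)
  rw [la_tv_div_aux G R hR a l]
  refine (h (a / R) _).trans ?_
  have h1 := la_div_le a l R hR
  have h2 : (((a + l) / R - a / R : ℕ) : ℝ) / X ≤ ((l : ℝ) / R + 1) / X :=
    div_le_div_of_nonneg_right h1 hX0.le
  have h3 : ((l : ℝ) / R + 1) / X = l / (R * X) + 1 / X := by (clear * - hR hX; field_simp)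
  have h4 : 1 / X ≤ 1 := by rw [div_le_one hX0]; exact hX
  have h5 : (0 : ℝ) ≤ l / (R * X) := by (clear * - hR hX; positivity)
  have h6 : (((a + l) / R - a / R : ℕ) : ℝ) / X + 1 ≤ 2 * (l / (R * X) + 1) := by (clear * - h2 h3 h4 h5; linarith)
  calc B * ((((a + l) / R - a / R : ℕ) : ℝ) / X + 1) ≤ B * (2 * (l / (R * X) + 1)) :=
        mul_le_mul_of_nonneg_left h6 hB
    _ = 2 * B * (l / (R * X) + 1) := by ring

end

end Pool.Agent.Helper67.NX2

end

section

set_option autoImplicit false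

open Finset

namespace Pool.Agent.Helper57.NX

section Pet

variable {Φ : Type} [AddCommGroup Φ]

theorem mem_petNext (V : ℕ → AddSubgroup Φ) (τ : ℕ → Φ →+ Φ) (R : ℕ) (q : Φ) (h : ℕ)
    (Q : List Φ) (x : Φ) :
    x ∈ petNext V τ R q h Q ↔ x ∉ V R ∧ ∃ p ∈ Q, x = p - q ∨ x = τ h p - q := by
  classical
  unfold petNext
  simp only [List.mem_filter, List.mem_append, List.mem_map, decide_eq_true_eq]
  constructor
  · rintro ⟨h1 | h1, h2⟩
    · obtain ⟨p, hp, rfl⟩ := h1
      exact ⟨h2, p, hp, Or.inl rfl⟩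
    · obtain ⟨p, hp, rfl⟩ := h1
      exact ⟨h2, p, hp, Or.inr rfl⟩
  · rintro ⟨h2, p, hp, h1 | h1⟩
    · exact ⟨Or.inl ⟨p, hp, h1.symm⟩, h2⟩
    · exact ⟨Or.inr ⟨p, hp, h1.symm⟩, h2⟩

theorem length_petNext (V : ℕ → AddSubgroup Φ) (τ : ℕ → Φ →+ Φ) (R : ℕ) (q : Φ) (h : ℕ)
    (Q : List Φ) : (petNext V τ R q h Q).length ≤ 2 * Q.length := by
  classical
  unfold petNext
  refine (List.length_filter_le _ _).trans ?_
  simp only [List.length_append, List.length_map]
  omega

open Classical in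
/-- the classes modulo `V (b+1)` of the elements of `Q` of level `b` -/
noncomputable def petCls (V : ℕ → AddSubgroup Φ) (Q : List Φ) (b : ℕ) :
    Finset (Φ ⧸ V (b + 1)) :=
  (Q.toFinset.filter (fun p => p ∈ V b ∧ p ∉ V (b + 1))).image
    (fun p => (QuotientAddGroup.mk p : Φ ⧸ V (b + 1)))

theorem mem_petCls (V : ℕ → AddSubgroup Φ) (Q : List Φ) (b : ℕ) (x : Φ ⧸ V (b + 1)) :
    x ∈ petCls V Q b ↔
      ∃ p ∈ Q, p ∈ V b ∧ p ∉ V (b + 1) ∧ (QuotientAddGroup.mk p : Φ ⧸ V (b + 1)) = x := by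
  classical
  unfold petCls
  simp only [Finset.mem_image, Finset.mem_filter, List.mem_toFinset]
  constructor
  · rintro ⟨p, ⟨h1, h2, h3⟩, h4⟩
    exact ⟨p, h1, h2, h3, h4⟩
  · rintro ⟨p, h1, h2, h3, h4⟩
    exact ⟨p, ⟨h1, h2, h3⟩, h4⟩

theorem card_petCls_le (V : ℕ → AddSubgroup Φ) (Q : List Φ) (b : ℕ) :
    (petCls V Q b).card ≤ Q.length := by
  classical
  unfold petCls
  exact Finset.card_image_le.trans ((Finset.card_filter_le _ _).trans (List.toFinset_card_le Q))

theorem Steps_succ (V : ℕ → AddSubgroup Φ) (τ : ℕ → Φ →+ Φ) (R : ℕ) :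
    ∀ (ν : ℕ) (Q : List Φ), Steps V τ R ν Q → Steps V τ R (ν + 1) Q := by
  intro ν
  induction ν with
  | zero =>
    intro Q hQ
    exact Or.inl hQ
  | succ ν ih =>
    intro Q hQ
    rcases hQ with hQ | ⟨q, hq, hQ⟩
    · exact Or.inl hQ
    · exact Or.inr ⟨q, hq, fun h => ih _ (hQ h)⟩

theorem Steps_mono (V : ℕ → AddSubgroup Φ) (τ : ℕ → Φ →+ Φ) (R : ℕ) {ν ν' : ℕ} (hν : ν ≤ ν')
    (Q : List Φ) (h : Steps V τ R ν Q) : Steps V τ R ν' Q := by
  induction ν', hν using Nat.le_induction with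
  | base => exact h
  | succ n _ ih => exact Steps_succ V τ R n Q ih

/-- the pivot argument for the membership -/
theorem pet_mem_iff (V : ℕ → AddSubgroup Φ) (τ : ℕ → Φ →+ Φ) (hV0 : V 0 = ⊤) (hV : Antitone V)
    (hτ : ∀ a h, ∀ p ∈ V a, τ h p - p ∈ V (a + 1)) (q : Φ) (h a : ℕ) (hq : q ∈ V a) (p : Φ) :
    ∀ b, b ≤ a → τ h p - q ∈ V b → p ∈ V b := by
  intro b
  induction b with
  | zero =>
    intro _ _
    rw [hV0]; trivial
  | succ b ih =>
    intro hb hp
    have h1 : p ∈ V b := ih (by omega) (hV (Nat.le_succ b) hp)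
    have h2 := hτ b h p h1
    have h3 : q ∈ V (b + 1) := hV hb hq
    have h4 : p = (τ h p - q) + q - (τ h p - p) := by abel
    rw [h4]
    exact (V (b + 1)).sub_mem ((V (b + 1)).add_mem hp h3) h2

theorem pet_cls_eq (V : ℕ → AddSubgroup Φ) (τ : ℕ → Φ →+ Φ) (R : ℕ) (hV0 : V 0 = ⊤)
    (hV : Antitone V)
    (hτ : ∀ a h, ∀ p ∈ V a, τ h p - p ∈ V (a + 1)) (q : Φ) (h a : ℕ) (hq : q ∈ V a)
    (haR : a + 1 ≤ R) (Q : List Φ) (b : ℕ) (hb : b < a) :
    petCls V (petNext V τ R q h Q) b = petCls V Q b := by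
  have hqb : q ∈ V (b + 1) := hV hb hq
  have hqb' : q ∈ V b := hV hb.le hq
  ext x
  rw [mem_petCls, mem_petCls]
  constructor
  · rintro ⟨p', hp', hb1, hb2, hx⟩
    rw [mem_petNext] at hp'
    obtain ⟨_, p, hp, hc | hc⟩ := hp'
    · subst hc
      refine ⟨p, hp, ?_, ?_, ?_⟩
      · have := (V b).add_mem hb1 hqb'
        simpa using this
      · intro hh
        exact hb2 ((V (b + 1)).sub_mem hh hqb)
      · rw [← hx, QuotientAddGroup.eq]
        have : -p + (p - q) = -q := by abel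
        rw [this]
        exact (V (b + 1)).neg_mem hqb
    · subst hc
      have hpb : p ∈ V b := pet_mem_iff V τ hV0 hV hτ q h a hq p b hb.le hb1
      have h2 := hτ b h p hpb
      refine ⟨p, hp, hpb, ?_, ?_⟩
      · intro hh
        apply hb2
        have h4 : τ h p - q = (τ h p - p) + p - q := by abel
        rw [h4]
        exact (V (b + 1)).sub_mem ((V (b + 1)).add_mem h2 hh) hqb
      · rw [← hx, QuotientAddGroup.eq]
        have : -p + (τ h p - q) = (τ h p - p) - q := by abel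
        rw [this]
        exact (V (b + 1)).sub_mem h2 hqb
  · rintro ⟨p, hp, hb1, hb2, hx⟩
    have hn : p - q ∉ V (b + 1) := by
      intro hh
      apply hb2
      have := (V (b + 1)).add_mem hh hqb
      simpa using this
    refine ⟨p - q, ?_, (V b).sub_mem hb1 hqb', hn, ?_⟩
    · rw [mem_petNext]
      exact ⟨fun hh => hn (hV (by omega) hh), p, hp, Or.inl rfl⟩
    · rw [← hx, QuotientAddGroup.eq]
      have : -(p - q) + p = q := by abel
      rw [this]
      exact hqb

theorem pet_cls_lt (V : ℕ → AddSubgroup Φ) (τ : ℕ → Φ →+ Φ) (R : ℕ) (hV0 : V 0 = ⊤)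
    (hV : Antitone V)
    (hτ : ∀ a h, ∀ p ∈ V a, τ h p - p ∈ V (a + 1)) (q : Φ) (h a : ℕ) (hq : q ∈ V a)
    (Q : List Φ) (hqQ : q ∈ Q) (hmax : ∀ p ∈ Q, p ∉ V (a + 1)) :
    (petCls V (petNext V τ R q h Q) a).card < (petCls V Q a).card := by
  classical
  set c : Φ ⧸ V (a + 1) := QuotientAddGroup.mk q with hc
  have hcQ : c ∈ petCls V Q a := by
    rw [mem_petCls]
    exact ⟨q, hqQ, hq, hmax q hqQ, rfl⟩
  have hsub : petCls V (petNext V τ R q h Q) a ⊆
      ((petCls V Q a).erase c).image (fun x => x - c) := by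
    intro x hx
    rw [mem_petCls] at hx
    obtain ⟨p', hp', hb1, hb2, hx⟩ := hx
    rw [mem_petNext] at hp'
    obtain ⟨_, p, hp, hcc⟩ := hp'
    have hpa : p ∈ V a := by
      rcases hcc with hcc | hcc
      · subst hcc
        have := (V a).add_mem hb1 hq
        simpa using this
      · subst hcc
        exact pet_mem_iff V τ hV0 hV hτ q h a hq p a le_rfl hb1
    have h2 := hτ a h p hpa
    have hxp : x = QuotientAddGroup.mk p - c := by
      rw [← hx, hc, ← QuotientAddGroup.mk_sub, QuotientAddGroup.eq]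
      rcases hcc with hcc | hcc
      · subst hcc
        have : -(p - q) + (p - q) = 0 := by abel
        rw [this]
        exact (V (a + 1)).zero_mem
      · subst hcc
        have : -(τ h p - q) + (p - q) = -(τ h p - p) := by abel
        rw [this]
        exact (V (a + 1)).neg_mem h2
    rw [Finset.mem_image]
    refine ⟨QuotientAddGroup.mk p, ?_, hxp.symm⟩
    rw [Finset.mem_erase, mem_petCls]
    refine ⟨?_, p, hp, hpa, hmax p hp, rfl⟩
    intro heq
    rw [heq, sub_self] at hxp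
    rw [← hx] at hxp
    rw [QuotientAddGroup.eq_zero_iff] at hxp
    exact hb2 hxp
  calc (petCls V (petNext V τ R q h Q) a).card
      ≤ (((petCls V Q a).erase c).image (fun x => x - c)).card := Finset.card_le_card hsub
    _ ≤ ((petCls V Q a).erase c).card := Finset.card_image_le
    _ < (petCls V Q a).card := Finset.card_erase_lt_of_mem hcQ

end Pet

/-- the bound for lists with a given vector of class numbers -/
theorem pet_vec (R : ℕ) : ∀ (n : Lex (Fin R → ℕ)) (s : ℕ), ∃ ν : ℕ, ∀ (Φ : Type) [AddCommGroup Φ]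
    (V : ℕ → AddSubgroup Φ) (τ : ℕ → Φ →+ Φ), V 0 = ⊤ → Antitone V →
    (∀ a h, ∀ p ∈ V a, τ h p - p ∈ V (a + 1)) →
    ∀ Q : List Φ, Q.length ≤ s → (∀ p ∈ Q, p ∉ V R) →
      (∀ i : Fin R, (petCls V Q i).card = ofLex n i) → Steps V τ R ν Q := by
  intro n
  induction n using WellFoundedLT.induction with
  | ind n ih =>
  intro s
  classical
  -- the finitely many smaller vectors
  let F : Finset (Lex (Fin R → ℕ)) :=
    ((Fintype.piFinset fun _ : Fin R => Finset.range (2 * s + 1)).image toLex).filter (· < n)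
  have hF : ∀ m ∈ F, m < n := fun m hm => (Finset.mem_filter.mp hm).2
  let g : Lex (Fin R → ℕ) → ℕ := fun m =>
    if hm : m < n then (ih m hm (2 * s)).choose else 0
  refine ⟨F.sup g + 1, ?_⟩
  intro Φ _ V τ hV0 hV hτ Q hQs hQR hQn
  by_cases hQ : Q = []
  · exact Or.inl hQ
  exact by
    right
    -- the pivot
    let P : ℕ → Prop := fun a => ∃ p ∈ Q, p ∈ V a
    obtain ⟨p0, hp0⟩ := List.exists_mem_of_ne_nil Q hQ
    have hP0 : P 0 := ⟨p0, hp0, by rw [hV0]; trivial⟩
    set a := Nat.findGreatest P R with ha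
    have hPa : P a := Nat.findGreatest_spec (Nat.zero_le R) hP0
    have haR : a ≤ R := Nat.findGreatest_le R
    have haR' : a < R := by
      rcases lt_or_eq_of_le haR with h | h
      · exact h
      · exfalso
        obtain ⟨p, hp, hpa⟩ := hPa
        rw [h] at hpa
        exact hQR p hp hpa
    have hmax : ∀ p ∈ Q, p ∉ V (a + 1) := by
      intro p hp hpa
      have : a + 1 ≤ a := Nat.le_findGreatest (P := P) (show a + 1 ≤ R from haR') ⟨p, hp, hpa⟩
      omega
    obtain ⟨q, hq, hqa⟩ := hPa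
    exact by
      refine ⟨q, hq, ?_⟩
      intro h
      set Q' := petNext V τ R q h Q with hQ'
      have hlen : Q'.length ≤ 2 * s := (length_petNext V τ R q h Q).trans (by omega)
      let m : Lex (Fin R → ℕ) := toLex fun i => (petCls V Q' i).card
      have hmn : m < n := by
        refine ⟨⟨a, haR'⟩, ?_, ?_⟩
        · intro j hj
          have hj' : (j : ℕ) < a := hj
          show (petCls V Q' j).card = ofLex n j
          rw [← hQn j, hQ', pet_cls_eq V τ R hV0 hV hτ q h a hqa haR' Q j hj']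
        · show (petCls V Q' a).card < ofLex n ⟨a, haR'⟩
          rw [← hQn ⟨a, haR'⟩]
          exact pet_cls_lt V τ R hV0 hV hτ q h a hqa Q hq hmax
      have hmF : m ∈ F := by
        refine Finset.mem_filter.mpr ⟨?_, hmn⟩
        refine Finset.mem_image.mpr ⟨fun i => (petCls V Q' i).card, ?_, rfl⟩
        rw [Fintype.mem_piFinset]
        intro i
        rw [Finset.mem_range]
        have := card_petCls_le V Q' i
        omega
      have hg : g m = (ih m hmn (2 * s)).choose := by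
        show (if hm : m < n then (ih m hm (2 * s)).choose else 0) = _
        rw [dif_pos hmn]
      have hle : g m ≤ F.sup g := Finset.le_sup (f := g) hmF
      refine Steps_mono V τ R hle Q' ?_
      rw [hg]
      refine (ih m hmn (2 * s)).choose_spec Φ V τ hV0 hV hτ Q' hlen ?_ ?_
      · intro p hp
        rw [hQ', mem_petNext] at hp
        exact hp.1
      · intro i
        rfl

/-- The elimination process terminates, the number of steps depending only on `R` and the
length of the list. -/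
theorem pet_terminates (R s : ℕ) : ∃ ν : ℕ, ∀ (Φ : Type) [AddCommGroup Φ]
    (V : ℕ → AddSubgroup Φ) (τ : ℕ → Φ →+ Φ), V 0 = ⊤ → Antitone V →
    (∀ a h, ∀ p ∈ V a, τ h p - p ∈ V (a + 1)) →
    ∀ Q : List Φ, Q.length ≤ s → (∀ p ∈ Q, p ∉ V R) → Steps V τ R ν Q := by
  classical
  let F : Finset (Lex (Fin R → ℕ)) :=
    (Fintype.piFinset fun _ : Fin R => Finset.range (s + 1)).image toLex
  let g : Lex (Fin R → ℕ) → ℕ := fun m => (pet_vec R m s).choose
  refine ⟨F.sup g, ?_⟩
  intro Φ _ V τ hV0 hV hτ Q hQs hQR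
  let m : Lex (Fin R → ℕ) := toLex fun i => (petCls V Q i).card
  have hmF : m ∈ F := by
    refine Finset.mem_image.mpr ⟨fun i => (petCls V Q i).card, ?_, rfl⟩
    rw [Fintype.mem_piFinset]
    intro i
    rw [Finset.mem_range]
    have := card_petCls_le V Q i
    omega
  have hle : g m ≤ F.sup g := Finset.le_sup (f := g) hmF
  refine Steps_mono V τ R hle Q ?_
  exact (pet_vec R m s).choose_spec Φ V τ hV0 hV hτ Q hQs hQR (fun i => rfl)

end Pool.Agent.Helper57.NX

end

section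

set_option autoImplicit false

set_option linter.unusedSectionVars false

set_option linter.unusedVariables false

open Finset

open scoped BigOperators ComplexConjugate

namespace Pool.Agent.Helper67.NX2

open Pool.Agent.Helper57.NX

noncomputable section

section point

variable {N : ℕ} [NeZero N]

/-- blocks cover at most everything -/
theorem dbq_blocks (G : ZMod N → ℝ) (hG : ∀ x, 0 ≤ G x) (X : ℕ) (hX : 1 ≤ X)
    (hXN : 2 * X ≤ N) (r : ZMod N) :
    𝔼 j ∈ range (N / X), 𝔼 t ∈ range X, G (r + ((j * X + t : ℕ) : ZMod N))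
      ≤ 2 * 𝔼 x, G x := by
  have hsum : ∀ (K : ℕ) (g : ℕ → ℝ), ∑ j ∈ range K, ∑ t ∈ range X, g (j * X + t)
      = ∑ s ∈ range (K * X), g s := by
    intro K g
    induction K with
    | zero => simp
    | succ K ih => rw [sum_range_succ, ih, add_mul, one_mul, sum_range_add]
  have hN0 : 0 < N := NeZero.pos N
  have hK1 : 1 ≤ N / X := (Nat.one_le_div_iff (by omega)).mpr (by omega)
  have hKN : N / X * X ≤ N := Nat.div_mul_le_self N X
  have hKN2 : N ≤ 2 * (N / X * X) := by
    have := Nat.lt_div_mul_add (a := N) (b := X) (by omega)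
    (clear * - hXN this; omega)
  have h1 : 𝔼 j ∈ range (N / X), 𝔼 t ∈ range X, G (r + ((j * X + t : ℕ) : ZMod N))
      = (∑ s ∈ range (N / X * X), G (r + (s : ZMod N))) / ((N / X * X : ℕ) : ℝ) := by
    rw [expect_eq_sum_div_card, card_range]
    have : ∀ j ∈ range (N / X), 𝔼 t ∈ range X, G (r + ((j * X + t : ℕ) : ZMod N))
        = (∑ t ∈ range X, G (r + ((j * X + t : ℕ) : ZMod N))) / X := by
      intro j _
      rw [expect_eq_sum_div_card, card_range]
    rw [sum_congr rfl this, ← sum_div, hsum (N / X) (fun s => G (r + (s : ZMod N))), div_div]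
    congr 1
    push_cast
    ring
  exact by
    have h2 : ∑ s ∈ range (N / X * X), G (r + (s : ZMod N)) ≤ ∑ x, G x := by
      have hinj : Set.InjOn (fun s : ℕ => r + (s : ZMod N)) (range (N / X * X)) := by
        intro s hs t ht hst
        have hs' : s < N := lt_of_lt_of_le (by simpa using hs) hKN
        have ht' : t < N := lt_of_lt_of_le (by simpa using ht) hKN
        have h3 : (s : ZMod N) = (t : ZMod N) := add_left_cancel hst
        have h4 := congrArg ZMod.val h3
        rwa [ZMod.val_natCast_of_lt hs', ZMod.val_natCast_of_lt ht'] at h4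
      rw [← sum_image (f := G) hinj]
      exact sum_le_sum_of_subset_of_nonneg (subset_univ _) fun x _ _ => hG x
    have h3 : 𝔼 x, G x = (∑ x, G x) / N := by
      rw [Fintype.expect_eq_sum_div_card, ZMod.card]
    rw [h1, h3]
    have hS : 0 ≤ ∑ x, G x := sum_nonneg fun x _ => hG x
    have hN0' : (0 : ℝ) < N := by exact_mod_cast hN0
    have hM0 : (0 : ℝ) < ((N / X * X : ℕ) : ℝ) := by
      have : 0 < N / X * X := by omega
      exact_mod_cast this
    have hKN2' : (N : ℝ) ≤ 2 * ((N / X * X : ℕ) : ℝ) := by exact_mod_cast hKN2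
    calc (∑ s ∈ range (N / X * X), G (r + (s : ZMod N))) / ((N / X * X : ℕ) : ℝ)
        ≤ (∑ x, G x) / ((N / X * X : ℕ) : ℝ) := by gcongr
      _ ≤ 2 * ((∑ x, G x) / N) := by
        rw [div_le_iff₀ hM0, mul_assoc, div_mul_eq_mul_div, ← mul_div_assoc, le_div_iff₀ hN0']
        (clear * - hS hKN2'; nlinarith)

end point

end

end Pool.Agent.Helper67.NX2

end

section

set_option autoImplicit false

open Finset

open scoped BigOperators ComplexConjugate

namespace Pool.Agent.Helper67.NX2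

open Pool.Agent.Helper57.NX

noncomputable section

/-- shifting the interval of summation -/
theorem h94_shift (h : ℕ → ℂ) (hh : ∀ k, ‖h k‖ ≤ 1) (u T j : ℕ) :
    ‖𝔼 k ∈ Ico u (u + T), h (k + j) - 𝔼 k ∈ Ico u (u + T), h k‖ ≤ 2 * j / T := by
  induction j with
  | zero => simp
  | succ j ih =>
    have h1 : ‖𝔼 k ∈ Ico u (u + T), h (k + (j + 1)) - 𝔼 k ∈ Ico u (u + T), h (k + j)‖ ≤ 2 / T := by
      rw [Finset.expect_eq_sum_div_card, Finset.expect_eq_sum_div_card, ← sub_div, norm_div]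
      have hc : ((Ico u (u + T)).card : ℂ) = (T : ℂ) := by simp
      rw [hc, Complex.norm_natCast]
      apply div_le_div_of_nonneg_right _ (Nat.cast_nonneg T)
      rw [← Finset.sum_sub_distrib]
      have h2 := Finset.sum_Ico_eq_sum_range (fun k => h (k + (j + 1)) - h (k + j)) u (u + T)
      rw [h2, Nat.add_sub_cancel_left]
      have h3 : ∑ k ∈ range T, (h (u + k + (j + 1)) - h (u + k + j)) =
          h (u + T + j) - h (u + j) := by
        have := Finset.sum_range_sub (fun k => h (u + k + j)) T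
        simp only [add_zero] at this
        rw [← this]
        apply Finset.sum_congr rfl
        intro k _
        congr 2
        ring
      rw [h3]
      calc ‖h (u + T + j) - h (u + j)‖ ≤ ‖h (u + T + j)‖ + ‖h (u + j)‖ := norm_sub_le _ _
        _ ≤ 2 := by (clear * - hh; linarith [hh (u + T + j), hh (u + j)])
    calc ‖𝔼 k ∈ Ico u (u + T), h (k + (j + 1)) - 𝔼 k ∈ Ico u (u + T), h k‖
        = ‖(𝔼 k ∈ Ico u (u + T), h (k + (j + 1)) - 𝔼 k ∈ Ico u (u + T), h (k + j)) +
          (𝔼 k ∈ Ico u (u + T), h (k + j) - 𝔼 k ∈ Ico u (u + T), h k)‖ := by congr 1; ring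
      _ ≤ 2 / T + 2 * j / T := (norm_add_le _ _).trans (add_le_add h1 ih)
      _ = 2 * ((j + 1 : ℕ) : ℝ) / T := by push_cast; ring

theorem h94_avg (h : ℕ → ℂ) (hh : ∀ k, ‖h k‖ ≤ 1) (u T K : ℕ) (hT : 0 < T) (hK : 0 < K) :
    ‖𝔼 k ∈ Ico u (u + T), h k‖ ≤
      (𝔼 k ∈ Ico u (u + T), ‖𝔼 j ∈ range K, h (k + j)‖) + 2 * K / T := by
  have h1 : ‖𝔼 j ∈ range K, (𝔼 k ∈ Ico u (u + T), h (k + j) - 𝔼 k ∈ Ico u (u + T), h k)‖ ≤
      2 * K / T := by
    refine (RCLike.norm_expect_le (K := ℂ)).trans ?_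
    refine (Finset.expect_le_expect (g := fun _ => (2 * K / T : ℝ)) fun j hj => ?_).trans ?_
    · refine (h94_shift h hh u T j).trans ?_
      have : (j : ℝ) ≤ K := by exact_mod_cast (Finset.mem_range.1 hj).le
      gcongr
    · rw [Finset.expect_const (by simpa using hK.ne')]
  rw [Finset.expect_sub_distrib, Finset.expect_const (by simpa using hK.ne')] at h1
  have h2 : 𝔼 j ∈ range K, 𝔼 k ∈ Ico u (u + T), h (k + j) =
      𝔼 k ∈ Ico u (u + T), 𝔼 j ∈ range K, h (k + j) := Finset.expect_comm _ _ _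
  rw [h2] at h1
  have h3 : ‖𝔼 k ∈ Ico u (u + T), 𝔼 j ∈ range K, h (k + j)‖ ≤
      𝔼 k ∈ Ico u (u + T), ‖𝔼 j ∈ range K, h (k + j)‖ := RCLike.norm_expect_le (K := ℂ)
  have h4 := norm_sub_norm_le (𝔼 k ∈ Ico u (u + T), h k)
    (𝔼 k ∈ Ico u (u + T), 𝔼 j ∈ range K, h (k + j))
  rw [norm_sub_rev] at h4
  (clear * - h1 h3 h4; linarith)

end

end Pool.Agent.Helper67.NX2

end

section

set_option autoImplicit false

open Finset

open scoped BigOperators ComplexConjugate

namespace Pool.Agent.Helper67.NX2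

open Pool.Agent.Helper57.NX

noncomputable section

theorem sum_div21 {M : Type} [AddCommMonoid M] (Q p : ℕ) (hQ : 0 < Q) (g : ℕ → M) :
    ∑ n ∈ range (Q * p), g (n / Q) = Q • ∑ y ∈ range p, g y := by
  induction p with
  | zero => simp
  | succ p ih =>
    rw [Nat.mul_succ, Finset.sum_range_add, ih, Finset.sum_range_succ, smul_add]
    congr 1
    have h1 : ∀ r ∈ range Q, g ((Q * p + r) / Q) = g p := by
      intro r hr
      rw [Nat.mul_add_div hQ, Nat.div_eq_of_lt (Finset.mem_range.mp hr), add_zero]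
    rw [Finset.sum_congr rfl h1, Finset.sum_const, Finset.card_range]

theorem sum_val21 {N : ℕ} [NeZero N] {M : Type} [AddCommMonoid M] (g : ℕ → M) :
    ∑ x : ZMod N, g x.val = ∑ n ∈ range N, g n := by
  refine Finset.sum_nbij' (fun x => x.val) (fun n => (n : ZMod N)) ?_ ?_ ?_ ?_ ?_
  · intro x _
    exact Finset.mem_range.mpr (ZMod.val_lt x)
  · intro n _
    exact Finset.mem_univ _
  · intro x _
    exact ZMod.natCast_zmod_val x
  · intro n hn
    exact ZMod.val_cast_of_lt (Finset.mem_range.mp hn)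
  · intro x _
    rfl

theorem expect_div21 {N : ℕ} [NeZero N] (Q p : ℕ) (hN : N = Q * p) (g : ℕ → ℝ) :
    𝔼 x : ZMod N, g (x.val / Q) = (∑ y ∈ range p, g y) / p := by
  have hN0 : N ≠ 0 := NeZero.ne N
  have hQ0 : 0 < Q := Nat.pos_of_ne_zero fun h => hN0 (by rw [hN, h, zero_mul])
  have hp0 : 0 < p := Nat.pos_of_ne_zero fun h => hN0 (by rw [hN, h, mul_zero])
  rw [Fintype.expect_eq_sum_div_card, ZMod.card,
    sum_val21 (N := N) (fun n => g (n / Q)), hN, sum_div21 Q p hQ0 g, nsmul_eq_mul]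
  have h1 : (Q : ℝ) ≠ 0 := by exact_mod_cast hQ0.ne'
  have h2 : (p : ℝ) ≠ 0 := by exact_mod_cast hp0.ne'
  push_cast
  field_simp

theorem expect_divC21 {N : ℕ} [NeZero N] (Q p : ℕ) (hN : N = Q * p) (g : ℕ → ℂ) :
    𝔼 x : ZMod N, g (x.val / Q) = (∑ y ∈ range p, g y) / p := by
  have hN0 : N ≠ 0 := NeZero.ne N
  have hQ0 : 0 < Q := Nat.pos_of_ne_zero fun h => hN0 (by rw [hN, h, zero_mul])
  have hp0 : 0 < p := Nat.pos_of_ne_zero fun h => hN0 (by rw [hN, h, mul_zero])
  rw [Fintype.expect_eq_sum_div_card, ZMod.card,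
    sum_val21 (N := N) (fun n => g (n / Q)), hN, sum_div21 Q p hQ0 g, nsmul_eq_mul]
  have h1 : (Q : ℂ) ≠ 0 := by exact_mod_cast hQ0.ne'
  have h2 : (p : ℂ) ≠ 0 := by exact_mod_cast hp0.ne'
  push_cast
  field_simp

end

end Pool.Agent.Helper67.NX2

end

section

set_option autoImplicit false

open Finset

open scoped BigOperators ComplexConjugate

namespace Pool.Agent.Helper67.NX2

open Pool.Agent.Helper57.NX

noncomputable section

lemma rap_contra (D W ε : ℝ) (C z : ℕ) (hD : 1 ≤ D) (hW : 2 ≤ W) (hε : 0 < ε)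
    (hWC : W ^ C ≤ D ^ (ε / 8)) (hDbig : 13 ≤ D ^ (ε / 4))
    (h : (W ^ C)⁻¹ * 2 ^ z ≤ 2 ^ z / (4 * W ^ C) + 2 ^ z * D ^ (-ε) +
      2 ^ z * (8 * D ^ (-(ε / 2)))) : False := by
  have hD0 : 0 < D := by (clear * - hD; linarith)
  have hW0 : 0 < W := by (clear * - hW; linarith)
  have hWC0 : 0 < W ^ C := by positivity
  have hz0 : (0 : ℝ) < 2 ^ z := by positivity
  have h1 : D ^ (-ε) ≤ D ^ (-(ε / 2)) := Real.rpow_le_rpow_of_exponent_le hD (by (clear * - hε; linarith))
  have h2 : (W ^ C)⁻¹ ≤ (W ^ C)⁻¹ / 4 + 9 * D ^ (-(ε / 2)) := by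
    have h3 : (2 : ℝ) ^ z / (4 * W ^ C) = 2 ^ z * ((W ^ C)⁻¹ / 4) := by
      field_simp
    rw [h3, mul_comm, ← mul_add, ← mul_add] at h
    have h4 := le_of_mul_le_mul_left h hz0
    (clear * - h1 h4; linarith)
  exact by
    have h3 : 3 / 4 ≤ 9 * (D ^ (-(ε / 2)) * W ^ C) := by
      have h4 := mul_le_mul_of_nonneg_right h2 hWC0.le
      have h5 : (W ^ C)⁻¹ * W ^ C = 1 := inv_mul_cancel₀ hWC0.ne'
      rw [add_mul, div_mul_eq_mul_div, h5] at h4
      (clear * - h4; linarith)
    have h4 : D ^ (-(ε / 2)) * W ^ C ≤ D ^ (-(ε / 4)) := by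
      calc D ^ (-(ε / 2)) * W ^ C ≤ D ^ (-(ε / 2)) * D ^ (ε / 8) :=
            mul_le_mul_of_nonneg_left hWC (Real.rpow_nonneg hD0.le _)
        _ = D ^ (-(ε / 2) + ε / 8) := (Real.rpow_add hD0 _ _).symm
        _ ≤ D ^ (-(ε / 4)) := Real.rpow_le_rpow_of_exponent_le hD (by (clear * - hε; linarith))
    have h5 : D ^ (-(ε / 4)) ≤ 1 / 13 := by
      rw [Real.rpow_neg hD0.le, one_div]
      exact inv_anti₀ (by norm_num) hDbig
    (clear * - h3 h4 h5; linarith)

end

end Pool.Agent.Helper67.NX2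

end

section

set_option autoImplicit false

open Finset

open scoped BigOperators

namespace Pool.Agent.Helper57.NX3

noncomputable section

/-- forward averages on the natural numbers -/
def AN (L : ℕ) (f : ℕ → ℝ) (x : ℕ) : ℝ := (∑ t ∈ range L, f (x + t)) / L

end

end Pool.Agent.Helper57.NX3

end

section

set_option autoImplicit false

open Finset

open scoped BigOperators

namespace Pool.Agent.Helper57.NX3

noncomputable section

lemma AN_nonneg8 {f : ℕ → ℝ} (hf : ∀ x, 0 ≤ f x) (L x : ℕ) : 0 ≤ AN L f x :=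
  div_nonneg (sum_nonneg fun _ _ => hf _) (Nat.cast_nonneg L)

lemma AN_eq8 (L : ℕ) (f : ℕ → ℝ) (x : ℕ) :
    AN L f x = (∑ y ∈ Ico x (x + L), f y) / L := by
  unfold AN
  congr 1
  rw [sum_Ico_eq_sum_range]
  congr 1
  simp

lemma AN_step8 {f : ℕ → ℝ} {B : ℝ} (hf : ∀ x, 0 ≤ f x) (hB : ∀ x, f x ≤ B) {L : ℕ}
    (hL : 1 ≤ L) (x t : ℕ) : |AN L f (x + t) - AN L f x| ≤ B * t / L := by
  have hLr : (0 : ℝ) < L := by exact_mod_cast hL
  have hB0 : 0 ≤ B := (hf 0).trans (hB 0)
  rw [AN_eq8, AN_eq8, ← sub_div, abs_div, abs_of_pos hLr]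
  apply div_le_div_of_nonneg_right _ hLr.le
  have e1 : (∑ y ∈ Ico x (x + L), f y) + ∑ y ∈ Ico (x + L) (x + t + L), f y
      = ∑ y ∈ Ico x (x + t + L), f y :=
    sum_Ico_consecutive f (by omega) (by omega)
  have e2 : (∑ y ∈ Ico x (x + t), f y) + ∑ y ∈ Ico (x + t) (x + t + L), f y
      = ∑ y ∈ Ico x (x + t + L), f y :=
    sum_Ico_consecutive f (by omega) (by omega)
  have b1 : ∑ y ∈ Ico (x + L) (x + t + L), f y ≤ B * t := by
    calc ∑ y ∈ Ico (x + L) (x + t + L), f y ≤ ∑ _y ∈ Ico (x + L) (x + t + L), B :=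
          sum_le_sum fun y _ => hB y
      _ = B * t := by
          rw [sum_const, Nat.card_Ico, nsmul_eq_mul]
          have : x + t + L - (x + L) = t := by omega
          rw [this]; ring
  have b2 : ∑ y ∈ Ico x (x + t), f y ≤ B * t := by
    calc ∑ y ∈ Ico x (x + t), f y ≤ ∑ _y ∈ Ico x (x + t), B :=
          sum_le_sum fun y _ => hB y
      _ = B * t := by
          rw [sum_const, Nat.card_Ico, nsmul_eq_mul]
          have : x + t - x = t := by (clear * - L; omega)
          rw [this]; ring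
  have n1 : 0 ≤ ∑ y ∈ Ico (x + L) (x + t + L), f y := sum_nonneg fun y _ => hf y
  have n2 : 0 ≤ ∑ y ∈ Ico x (x + t), f y := sum_nonneg fun y _ => hf y
  rw [abs_le]
  constructor <;> (clear * - e1 e2 b2 n1 b1 n2; linarith)

end

end Pool.Agent.Helper57.NX3

end

section

set_option autoImplicit false

open Finset

open scoped BigOperators

namespace Pool.Agent.Helper57.NX3

noncomputable section

theorem Dβ_le {β1 β Θ : ℕ} (h : β1 * Θ ≤ β) {e : ℝ} (he : e ≤ Θ) :
    (((2 ^ β1 : ℕ)) : ℝ) ^ e ≤ (2 : ℝ) ^ β := by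
  have h1 : (1 : ℝ) ≤ ((2 ^ β1 : ℕ) : ℝ) := by exact_mod_cast Nat.one_le_two_pow
  calc (((2 ^ β1 : ℕ)) : ℝ) ^ e ≤ (((2 ^ β1 : ℕ)) : ℝ) ^ ((Θ : ℕ) : ℝ) :=
        Real.rpow_le_rpow_of_exponent_le h1 he
    _ = (2 : ℝ) ^ (β1 * Θ) := by
        rw [Real.rpow_natCast]
        push_cast
        rw [pow_mul]
    _ ≤ _ := pow_le_pow_right₀ (by norm_num) h

theorem Ke_le {D K : ℕ} {Γ : ℝ} (hK : 1 ≤ K) (hD0 : (0 : ℝ) < D) (hDK : 8 * (3 * K : ℝ) ^ Γ ≤ D)
    {e : ℝ} (he : e ≤ Γ) : (3 * K * D : ℝ) ^ e ≤ (D : ℝ) ^ (e + 1) / 8 := by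
  have hKr : (1 : ℝ) ≤ K := by exact_mod_cast hK
  rw [Real.mul_rpow (by (clear * - hK; positivity)) hD0.le, Real.rpow_add hD0, Real.rpow_one]
  have h1 : (3 * K : ℝ) ^ e ≤ (3 * K : ℝ) ^ Γ :=
    Real.rpow_le_rpow_of_exponent_le (by (clear * - hKr; linarith)) he
  have h2 : 8 * (3 * K : ℝ) ^ e ≤ D := by (clear * - hDK h1; linarith)
  have h3 : (0 : ℝ) ≤ (D : ℝ) ^ e := by positivity
  (clear * - hDK h3 h1; nlinarith)

theorem twoKe_le {D K : ℕ} {Γ : ℝ} (hK : 1 ≤ K) (hD0 : (0 : ℝ) < D)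
    (hDK : 8 * (3 * K : ℝ) ^ Γ ≤ D)
    {e : ℝ} (he0 : 0 ≤ e) (he : e ≤ Γ) : (2 * K * D : ℝ) ^ e ≤ (D : ℝ) ^ (e + 1) / 8 := by
  refine le_trans (Real.rpow_le_rpow (by (clear * - hK hD0; positivity)) ?_ he0) (Ke_le hK hD0 hDK he)
  have : (0 : ℝ) ≤ K * D := by (clear * - hK hD0; positivity)
  (clear * - this; nlinarith)

end

end Pool.Agent.Helper57.NX3

end

section

set_option autoImplicit false

open Finset

open scoped BigOperators

namespace Pool.Agent.Helper57.NX3

noncomputable section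

/-- sizes of the shifts at a natural position -/
theorem size_nat {D K k dd z β1 β Θ : ℕ} {Γ τ : ℝ} (hD : D = 2 ^ β1) (hK : 1 ≤ K)
    (hD0 : (0 : ℝ) < D) (hDK : 8 * (3 * K : ℝ) ^ Γ ≤ D) (hd : (dd : ℝ) ≤ Γ) (hΘ : Γ + 3 ≤ Θ)
    (hβ : β1 * Θ ≤ β) (hθ0 : (0 : ℝ) ≤ ((2 : ℝ) ^ z) ^ (τ / 2))
    (hθD : ((2 : ℝ) ^ z) ^ (τ / 2) ≤ D) (hk : k ≤ 2 * D) :
    (((K * k) ^ dd : ℕ) : ℝ) * ((2 : ℝ) ^ z) ^ (τ / 2) ≤ 2 ^ β := by
  have hK0 : (0 : ℝ) ≤ K := Nat.cast_nonneg _
  have h1 : (((K * k) ^ dd : ℕ) : ℝ) ≤ (2 * K * D : ℝ) ^ ((dd : ℕ) : ℝ) := by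
    rw [Real.rpow_natCast]
    push_cast
    refine pow_le_pow_left₀ (by (clear * - hK; positivity)) ?_ _
    have h2 : (k : ℝ) ≤ 2 * D := by exact_mod_cast hk
    (clear * - h2; nlinarith)
  have h2 := twoKe_le hK hD0 hDK (Nat.cast_nonneg dd) hd
  have h3 : (D : ℝ) ^ ((dd : ℝ) + 1) * D = (D : ℝ) ^ ((dd : ℝ) + 1 + 1) := by
    rw [Real.rpow_add hD0 ((dd : ℝ) + 1) 1, Real.rpow_one]
  calc (((K * k) ^ dd : ℕ) : ℝ) * ((2 : ℝ) ^ z) ^ (τ / 2)
      ≤ (D : ℝ) ^ ((dd : ℝ) + 1) * D := by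
        refine mul_le_mul (h1.trans (h2.trans ?_)) hθD hθ0 (by (clear * - hD0; positivity))
        have h4 : (0 : ℝ) ≤ (D : ℝ) ^ ((dd : ℝ) + 1) := by positivity
        (clear * - h1 h2; linarith)
    _ = (D : ℝ) ^ ((dd : ℝ) + 1 + 1) := h3
    _ ≤ _ := by
        rw [hD]
        exact Dβ_le hβ (by (clear * - hd hΘ; linarith))

end

end Pool.Agent.Helper57.NX3

end

section

set_option autoImplicit false

open Finset Real

namespace Pool.Agent.Helper57.FP

/-- number of elements of `A` in block `j` of length `B` -/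
def bc (A : Finset ℕ) (B j : ℕ) : ℕ := (A.filter (fun n => n / B = j)).card

theorem bc_mul (A : Finset ℕ) (B R V : ℕ) (hR : 0 < R) :
    bc A (B * R) V = ∑ i ∈ range R, bc A B (V * R + i) := by
  unfold bc
  rw [Finset.card_eq_sum_card_fiberwise (f := fun n => n / B - V * R) (t := range R)]
  · apply Finset.sum_congr rfl
    intro i hi
    rw [Finset.mem_range] at hi
    congr 1
    ext n
    simp only [Finset.mem_filter]
    rw [← Nat.div_div_eq_div_mul]
    constructor
    · rintro ⟨⟨h1, h2⟩, h3⟩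
      refine ⟨h1, ?_⟩
      have h4 := Nat.div_mul_le_self (n / B) R
      rw [h2] at h4
      omega
    · rintro ⟨h1, h2⟩
      refine ⟨⟨h1, ?_⟩, by omega⟩
      rw [h2, mul_comm, Nat.mul_add_div hR, Nat.div_eq_of_lt hi, add_zero]
  · intro n hn
    rw [Finset.mem_coe, Finset.mem_filter] at hn
    rw [Finset.mem_coe, Finset.mem_range]
    show n / B - V * R < R
    have h1 : n / (B * R) = V := hn.2
    rw [← Nat.div_div_eq_div_mul] at h1
    have h2 : n / B < V * R + R := by
      have := Nat.lt_mul_div_succ (n / B) hR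
      rw [h1] at this
      calc n / B < R * (V + 1) := this
        _ = V * R + R := by ring
    omega

end Pool.Agent.Helper57.FP

end

section

set_option autoImplicit false

open Finset Real

namespace Pool.Agent.Helper57.FP

theorem pow_le_two_pow (D m : ℕ) (hD : 0 < D) : ∃ z0 : ℕ, ∀ z : ℕ, z0 ≤ z → z ^ m ≤ 2 ^ (z / D) := by
  have h1 := tendsto_pow_const_div_const_pow_of_one_lt m (r := (2 : ℝ)) (by norm_num)
  have h2 : ∀ᶠ n : ℕ in Filter.atTop, (n : ℝ) ^ m / 2 ^ n < 1 / (2 * (D : ℝ) ^ m) :=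
    h1.eventually_lt_const (by (clear * - hD; positivity))
  obtain ⟨n0, hn0⟩ := Filter.eventually_atTop.mp h2
  refine ⟨D * n0, ?_⟩
  intro z hz
  set e := z / D with he
  have he0 : n0 ≤ e := by
    rw [he, Nat.le_div_iff_mul_le hD]
    (clear * - hz; linarith [mul_comm D n0])
  have h3 := hn0 (e + 1) (by omega)
  have hD0 : (0 : ℝ) < (D : ℝ) ^ m := by positivity
  rw [div_lt_div_iff₀ (by positivity) (by positivity), one_mul] at h3
  have h4 : z ≤ D * (e + 1) := by
    have := Nat.lt_mul_div_succ z hD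
    exact this.le
  have h5 : z ^ m ≤ (D * (e + 1)) ^ m := Nat.pow_le_pow_left h4 m
  have h6 : (((D * (e + 1)) ^ m : ℕ) : ℝ) ≤ 2 ^ e := by
    rw [pow_succ] at h3
    push_cast
    push_cast at h3
    rw [mul_pow]
    (clear * - h3; nlinarith)
  have h7 : (D * (e + 1)) ^ m ≤ 2 ^ e := by exact_mod_cast h6
  exact h5.trans h7

end Pool.Agent.Helper57.FP

end

section

set_option autoImplicit false

open Finset Real

namespace Pool.Agent.Helper57.FP

/-- blocks of length `B` inside `[y, y + B^2)` -/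
def II (B y : ℕ) : Finset ℕ := Finset.Ico ((y + B - 1) / B) ((y + B ^ 2) / B)

theorem mem_II {B y j : ℕ} (hB : 0 < B) : j ∈ II B y ↔ y ≤ j * B ∧ (j + 1) * B ≤ y + B ^ 2 := by
  unfold II
  rw [Finset.mem_Ico, ← Nat.succ_le_iff (n := (y + B ^ 2) / B), Nat.le_div_iff_mul_le hB,
    ← Nat.lt_succ_iff, Nat.div_lt_iff_lt_mul hB]
  have h1 : j.succ * B = j * B + B := Nat.succ_mul j B
  rw [h1]
  constructor
  · rintro ⟨h, h'⟩; exact ⟨by omega, h'⟩
  · rintro ⟨h, h'⟩; exact ⟨by omega, h'⟩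

theorem card_II_ge {B : ℕ} (hB : 0 < B) (y : ℕ) : B ≤ (II B y).card + 1 := by
  unfold II
  rw [Nat.card_Ico]
  have h1 : (y + B ^ 2) / B = y / B + B := by
    rw [sq, Nat.add_mul_div_right _ _ hB]
  have h2 : (y + B - 1) / B ≤ y / B + 1 := by
    have : (y + B - 1) / B ≤ (y + B) / B := Nat.div_le_div_right (by omega)
    rwa [Nat.add_div_right _ hB] at this
  omega

theorem card_II_le {B : ℕ} (hB : 0 < B) (y : ℕ) : (II B y).card ≤ B := by
  unfold II
  rw [Nat.card_Ico]
  have h1 : (y + B ^ 2) / B = y / B + B := by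
    rw [sq, Nat.add_mul_div_right _ _ hB]
  have h2 : y / B ≤ (y + B - 1) / B := Nat.div_le_div_right (by omega)
  omega

/-- elements of `A` in `[y, y+B^2)` versus blocks -/
theorem count_ge {A J : Finset ℕ} {B y : ℕ} (hB : 0 < B) {m : ℝ} (hm : 0 ≤ m)
    (h : ∀ j ∈ II B y, j ∉ J → m ≤ bc A B j) :
    m * ((B : ℝ) - 1 - ((II B y).filter (fun j => j ∈ J)).card) ≤
      ((range (B ^ 2)).filter (fun v => y + v ∈ A)).card := by
  classical
  have h1 : ∑ j ∈ (II B y).filter (fun j => j ∉ J), bc A B j ≤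
      ((range (B ^ 2)).filter (fun v => y + v ∈ A)).card := by
    have h2 : ∑ j ∈ (II B y).filter (fun j => j ∉ J), bc A B j =
        (((II B y).filter (fun j => j ∉ J)).sigma (fun j => A.filter (fun n => n / B = j))).card := by
      rw [Finset.card_sigma]; rfl
    rw [h2]
    apply Finset.card_le_card_of_injOn (fun e => e.2 - y)
    · rintro ⟨j, n⟩ he
      simp only [Finset.mem_coe, Finset.mem_sigma, Finset.mem_filter, mem_II hB] at he
      obtain ⟨⟨⟨hj1, hj2⟩, _⟩, hnA, hnj⟩ := he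
      simp only [Finset.mem_coe, Finset.mem_filter, Finset.mem_range]
      have a1 := Nat.div_mul_le_self n B
      have a2 := Nat.lt_mul_div_succ n hB
      rw [hnj] at a1 a2
      have a3 : B * (j + 1) = (j + 1) * B := mul_comm _ _
      have a4 : y + (n - y) = n := by omega
      refine ⟨by omega, ?_⟩
      rw [a4]; exact hnA
    · rintro ⟨j, n⟩ he ⟨j', n'⟩ he' hee
      simp only [Finset.mem_coe, Finset.mem_sigma, Finset.mem_filter, mem_II hB] at he he'
      obtain ⟨⟨⟨hj1, hj2⟩, _⟩, hnA, hnj⟩ := he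
      obtain ⟨⟨⟨hj1', hj2'⟩, _⟩, hnA', hnj'⟩ := he'
      simp only at hee
      have a1 := Nat.div_mul_le_self n B
      rw [hnj] at a1
      have a1' := Nat.div_mul_le_self n' B
      rw [hnj'] at a1'
      have hn : n = n' := by omega
      subst hn
      have : j = j' := by rw [← hnj, ← hnj']
      subst this
      rfl
  have h3 : m * ((II B y).filter (fun j => j ∉ J)).card ≤
      ∑ j ∈ (II B y).filter (fun j => j ∉ J), (bc A B j : ℝ) := by
    rw [mul_comm, ← nsmul_eq_mul]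
    apply Finset.card_nsmul_le_sum
    intro j hj
    rw [Finset.mem_filter] at hj
    exact h j hj.1 hj.2
  have h4 : (B : ℝ) - 1 - ((II B y).filter (fun j => j ∈ J)).card ≤
      ((II B y).filter (fun j => j ∉ J)).card := by
    have h5 := Finset.card_filter_add_card_filter_not (s := II B y) (fun j => j ∈ J)
    have h6 := card_II_ge hB y
    have h7 : (B : ℝ) ≤ ((II B y).filter (fun j => j ∈ J)).card +
        ((II B y).filter (fun j => j ∉ J)).card + 1 := by
      have : B ≤ ((II B y).filter (fun j => j ∈ J)).card +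
        ((II B y).filter (fun j => j ∉ J)).card + 1 := by omega
      exact_mod_cast this
    linarith
  calc _ ≤ m * ((II B y).filter (fun j => j ∉ J)).card := mul_le_mul_of_nonneg_left h4 hm
    _ ≤ _ := h3
    _ ≤ _ := by exact_mod_cast h1

end Pool.Agent.Helper57.FP

end

section

set_option autoImplicit false

open Finset

open scoped BigOperators

namespace Pool.Agent.Helper82.NX3

open Pool.Agent.Helper57.NX3

noncomputable section

theorem AN_nonneg' {f : ℕ → ℝ} (hf : ∀ x, 0 ≤ f x) (L x : ℕ) : 0 ≤ AN L f x := by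
  unfold AN
  exact div_nonneg (sum_nonneg fun _ _ => hf _) (Nat.cast_nonneg _)

end

end Pool.Agent.Helper82.NX3

end

section

set_option autoImplicit false

open Finset

open scoped BigOperators

namespace Pool.Agent.Helper57.NX3

noncomputable section

lemma sum_step52 {f : ℕ → ℝ} {B : ℝ} (hf : ∀ x, 0 ≤ f x) (hB : ∀ x, f x ≤ B) (L x t : ℕ) :
    |∑ i ∈ range L, f (x + t + i) - ∑ i ∈ range L, f (x + i)| ≤ B * t := by
  induction t with
  | zero => simp
  | succ t ih =>
    have h1 : ∑ i ∈ range L, f (x + (t + 1) + i) - ∑ i ∈ range L, f (x + t + i) =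
        f (x + t + L) - f (x + t) := by
      have h2 := sum_range_succ (fun i => f (x + t + i)) L
      have h3 := sum_range_succ' (fun i => f (x + t + i)) L
      have h4 : ∑ i ∈ range L, f (x + (t + 1) + i) = ∑ i ∈ range L, f (x + t + (i + 1)) :=
        sum_congr rfl fun i _ => by congr 1; ring
      rw [h4]
      rw [h2, add_zero] at h3
      (clear * - h3; linarith)
    have h5 : |f (x + t + L) - f (x + t)| ≤ B := by
      rw [abs_le]
      constructor
      · (clear * - hf hB; linarith [hf (x + t + L), hB (x + t)])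
      · (clear * - hB hf; linarith [hB (x + t + L), hf (x + t)])
    rw [← h1] at h5
    have h6 := abs_add_le (∑ i ∈ range L, f (x + (t + 1) + i) - ∑ i ∈ range L, f (x + t + i))
      (∑ i ∈ range L, f (x + t + i) - ∑ i ∈ range L, f (x + i))
    rw [sub_add_sub_cancel] at h6
    push_cast
    (clear * - ih h5 h6; linarith)

theorem AN_step {f : ℕ → ℝ} {B : ℝ} (hf : ∀ x, 0 ≤ f x) (hB : ∀ x, f x ≤ B) {L : ℕ} (hL : 1 ≤ L)
    (x t : ℕ) : |AN L f (x + t) - AN L f x| ≤ B * t / L := by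
  have hL0 : (0 : ℝ) < L := by exact_mod_cast hL
  unfold AN
  rw [← sub_div, abs_div, abs_of_pos hL0]
  exact div_le_div_of_nonneg_right (sum_step52 hf hB L x t) hL0.le

/-- points whose block contains the interval used by the average -/
def NG52 (z b v L : ℕ) : Finset ℕ := (range (2 ^ z)).filter fun x => x % 2 ^ b + v + L ≤ 2 ^ b

lemma same_block52 {b z x y : ℕ} (hb : b ≤ z) (hx : x < 2 ^ z) (hxy : y / 2 ^ b = x / 2 ^ b) :
    y < 2 ^ z := by
  have hK : 0 < 2 ^ b := by positivity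
  have h1 : (2 : ℕ) ^ z = 2 ^ b * 2 ^ (z - b) := by rw [← pow_add]; congr 1; omega
  have h2 : x / 2 ^ b < 2 ^ (z - b) := by
    rw [Nat.div_lt_iff_lt_mul hK, mul_comm, ← h1]
    exact hx
  rw [← hxy, Nat.div_lt_iff_lt_mul hK, mul_comm, ← h1] at h2
  exact h2

lemma div_add52 {b x s : ℕ} (h : x % 2 ^ b + s < 2 ^ b) : (x + s) / 2 ^ b = x / 2 ^ b := by
  have hK : 0 < 2 ^ b := by positivity
  have h1 := Nat.div_add_mod x (2 ^ b)
  have h2 : x + s = 2 ^ b * (x / 2 ^ b) + (x % 2 ^ b + s) := by omega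
  rw [h2, Nat.mul_add_div hK, Nat.div_eq_of_lt h, add_zero]

/-- the square sum of the averages -/
lemma sumsq52 (w : ℕ → ℝ) (z b v L : ℕ) (hb : b ≤ z) (hL : 1 ≤ L) :
    ∑ x ∈ NG52 z b v L, (AN L w (x + v)) ^ 2 ≤ ∑ x ∈ range (2 ^ z), w x ^ 2 := by
  have hL0 : (0 : ℝ) < L := by exact_mod_cast hL
  have h1 : ∀ x, (AN L w (x + v)) ^ 2 ≤ (∑ t ∈ range L, w (x + v + t) ^ 2) / L := by
    intro x
    have h2 := sq_sum_le_card_mul_sum_sq (s := range L) (f := fun t => w (x + v + t))
    rw [card_range] at h2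
    unfold AN
    rw [div_pow, div_le_div_iff₀ (by (clear * - hL; positivity)) hL0]
    calc (∑ t ∈ range L, w (x + v + t)) ^ 2 * L ≤ (L * ∑ t ∈ range L, w (x + v + t) ^ 2) * L :=
          mul_le_mul_of_nonneg_right h2 hL0.le
      _ = (∑ t ∈ range L, w (x + v + t) ^ 2) * (L : ℝ) ^ 2 := by ring
  refine (sum_le_sum fun x _ => h1 x).trans ?_
  rw [← sum_div, div_le_iff₀ hL0, sum_comm]
  have h2 : ∀ t ∈ range L, ∑ x ∈ NG52 z b v L, w (x + v + t) ^ 2 ≤
      ∑ x ∈ range (2 ^ z), w x ^ 2 := by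
    intro t ht
    have ht' := mem_range.1 ht
    have h3 : ∑ x ∈ NG52 z b v L, w (x + v + t) ^ 2 =
        ∑ y ∈ (NG52 z b v L).image (fun x => x + v + t), w y ^ 2 := by
      rw [sum_image]
      intro x _ y _ hxy
      simp only at hxy
      omega
    rw [h3]
    refine sum_le_sum_of_subset_of_nonneg ?_ fun _ _ _ => sq_nonneg _
    intro y hy
    rw [mem_image] at hy
    obtain ⟨x, hx, rfl⟩ := hy
    unfold NG52 at hx
    rw [mem_filter, mem_range] at hx
    rw [mem_range]
    refine same_block52 hb hx.1 ?_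
    rw [add_assoc]
    exact div_add52 (by omega)
  refine (sum_le_card_nsmul _ _ _ h2).trans (le_of_eq ?_)
  rw [card_range, nsmul_eq_mul, mul_comm]

end

end Pool.Agent.Helper57.NX3

end
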