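import Pool.Agent.Helper23.MC.L00_a0
import Pool.Agent.Helper23.MC.L00_a1
import Pool.Agent.Helper23.MC.L00_a10
import Pool.Agent.Helper23.MC.L00_a11
import Pool.Agent.Helper23.MC.L00_a12
import Pool.Agent.Helper23.MC.L00_a13
import Pool.Agent.Helper23.MC.L00_a5
import Pool.Agent.Helper23.MC.L00_a6

/-!
Parts of Helper67.NX2.Defs, Helper5.NX.Basic, Helper87.NX2.Dil, Helper5.NX2.RatlCore, Helper84.NX2.BaseOf, Helper87.NX.DlA, Helper59.NX2.BaseRatlA, Helper91.NX2.AlArithCore, Helper60.NX2.DlB, Helper21.NX2.ZeroAux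
-/

attribute [local instance 5000]
  Pool.Agent.Helper23.MC.Inst.rCharZero Pool.Agent.Helper23.MC.Inst.rALM
  Pool.Agent.Helper23.MC.Inst.rARM Pool.Agent.Helper23.MC.Inst.rALSM
  Pool.Agent.Helper23.MC.Inst.rARSM Pool.Agent.Helper23.MC.Inst.rARRLE
  Pool.Agent.Helper23.MC.Inst.rALRLE Pool.Agent.Helper23.MC.Inst.rARRLT
  Pool.Agent.Helper23.MC.Inst.rALRLT Pool.Agent.Helper23.MC.Inst.rPMRLT
  Pool.Agent.Helper23.MC.Inst.rMPRLT Pool.Agent.Helper23.MC.Inst.rPMM
  Pool.Agent.Helper23.MC.Inst.rMPM Pool.Agent.Helper23.MC.Inst.rPMSM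
  Pool.Agent.Helper23.MC.Inst.rMPSM Pool.Agent.Helper23.MC.Inst.rEAOL
  Pool.Agent.Helper23.MC.Inst.rIOR Pool.Agent.Helper23.MC.Inst.rISOR
  Pool.Agent.Helper23.MC.Inst.rNZD Pool.Agent.Helper23.MC.Inst.rcCharZero
  Pool.Agent.Helper23.MC.Inst.rcNZD Pool.Agent.Helper23.MC.Inst.zCharZero
  Pool.Agent.Helper23.MC.Inst.zALM Pool.Agent.Helper23.MC.Inst.zARM
  Pool.Agent.Helper23.MC.Inst.zALSM Pool.Agent.Helper23.MC.Inst.zARSM
  Pool.Agent.Helper23.MC.Inst.zIOR Pool.Agent.Helper23.MC.Inst.zISOR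
  Pool.Agent.Helper23.MC.Inst.zNZD Pool.Agent.Helper23.MC.Inst.qCharZero
  Pool.Agent.Helper23.MC.Inst.mR Pool.Agent.Helper23.MC.Inst.mC Pool.Agent.Helper23.MC.Inst.mRC
  Pool.Agent.Helper23.MC.Inst.rPSM Pool.Agent.Helper23.MC.Inst.rCSM
  Pool.Agent.Helper23.MC.Inst.cAdd Pool.Agent.Helper23.MC.Inst.cAddM
  Pool.Agent.Helper23.MC.Inst.cMul Pool.Agent.Helper23.MC.Inst.cMon

namespace Pool.Agent.Helper57.NX
end Pool.Agent.Helper57.NX
namespace Pool.Agent.Helper67.NX2
end Pool.Agent.Helper67.NX2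

section

set_option autoImplicit false

open Finset

open scoped BigOperators ComplexConjugate

namespace Pool.Agent.Helper67.NX2

open Pool.Agent.Helper57.NX

noncomputable section

/-- local correlation along progressions of difference `q` -/
def locCorrq {m N : ℕ} [NeZero N] (S : Sys (m + 1)) (c : Fin (m + 1) → ℝ) (q : ℕ)
    (f : ZMod N → ℂ) (θ : ZMod N → Fin m → ℝ) (K : ℕ) (x : ZMod N) : ℝ :=
  𝔼 k ∈ S.I, ‖𝔼 j ∈ range K, f (x + (S.a c (Fin.last m) (k + q * j) : ZMod N)) *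
    e (∑ i : Fin m, θ x i * S.P i.castSucc * (S.t (k + q * j)) ^ (c i.castSucc))‖

end

end Pool.Agent.Helper67.NX2

end

section

set_option autoImplicit false

open Finset

open scoped BigOperators ComplexConjugate

namespace Pool.Agent.Helper57.NX

noncomputable section

theorem e_int (n : ℤ) : e n = 1 := by
  unfold e
  have h : (2 * Real.pi * ((n : ℝ) : ℂ) * Complex.I) = n * (2 * Real.pi * Complex.I) := by
    push_cast; ring
  rw [h, Complex.exp_int_mul_two_pi_mul_I]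

end

end Pool.Agent.Helper57.NX

end

section

set_option autoImplicit false

open Finset

open scoped BigOperators ComplexConjugate

namespace Pool.Agent.Helper67.NX2

open Pool.Agent.Helper57.NX

noncomputable section

variable {m : ℕ}

/-- Pigeonhole: windows of a residue class. -/
theorem exists_window (S : Sys m) (η : ℝ) (q J : ℕ) (hq : 1 ≤ q) (hJ : 1 ≤ J)
    (hqJ : 4 * (q : ℝ) * J ≤ η * S.T) (G : ℕ → ℂ) (hG : ∀ k, ‖G k‖ ≤ 1)
    (h : η ≤ ‖𝔼 k ∈ S.I, G k‖) (hη : 0 < η) :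
    ∃ r0 u' : ℕ, r0 < q ∧ S.u ≤ q * u' + r0 ∧ q * (u' + J) + r0 ≤ S.u + S.T ∧
      η / 2 ≤ ‖𝔼 j ∈ Ico u' (u' + J), G (q * j + r0)‖ := by
  have hq1 : (1 : ℝ) ≤ (q : ℝ) := by exact_mod_cast hq
  have hJ1 : (1 : ℝ) ≤ (J : ℝ) := by exact_mod_cast hJ
  have hqJ0 : (1 : ℝ) ≤ (q : ℝ) * J := by (clear * - hq1 hJ1; nlinarith)
  have hT0 : (0 : ℝ) < (S.T : ℝ) := by
    by_contra hcon
    have h1 : (0 : ℝ) ≤ (S.T : ℝ) := Nat.cast_nonneg _
    have h2 : (S.T : ℝ) = 0 := le_antisymm (not_lt.mp hcon) h1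
    rw [h2] at hqJ
    (clear * - hqJ hqJ0; nlinarith)
  have hcard : (#S.I : ℝ) = S.T := by
    unfold Sys.I
    rw [Nat.card_Ico]
    simp
  -- the sum
  have hsum : η * S.T ≤ ‖∑ k ∈ S.I, G k‖ := by
    rw [Finset.expect_eq_sum_div_card, norm_div, Complex.norm_natCast, hcard,
      le_div_iff₀ hT0] at h
    exact h
  exact by
    have hη1 : η ≤ 1 := by
      have h1 : ‖∑ k ∈ S.I, G k‖ ≤ S.T := by
        calc ‖∑ k ∈ S.I, G k‖ ≤ ∑ k ∈ S.I, ‖G k‖ := norm_sum_le _ _
          _ ≤ ∑ k ∈ S.I, (1 : ℝ) := Finset.sum_le_sum fun k _ => hG k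
          _ = S.T := by rw [Finset.sum_const, nsmul_eq_mul, mul_one, hcard]
      by_contra hcon
      have : (S.T : ℝ) < η * S.T := by (clear * - hcon hqJ hη hsum h1 hqJ0; nlinarith [not_le.mp hcon])
      (clear * - hsum h1 this; linarith)
    have hqJT : (q : ℝ) * J ≤ S.T := by (clear * - hqJ hT0 hη1; nlinarith)
    have hqJT' : q * J ≤ S.T := by exact_mod_cast hqJT
    -- windows
    have hwin : ∀ j, j < J → ‖(∑ k ∈ S.I, G k) -
        ∑ k ∈ Ico S.u (S.u + (S.T - q * J)), G (k + q * j)‖ ≤ q * J := by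
      intro j hj
      have hjq : q * j + (S.T - q * J) ≤ S.T := by
        have : q * j ≤ q * J := Nat.mul_le_mul_left _ hj.le
        omega
      have e1 : ∑ k ∈ Ico S.u (S.u + (S.T - q * J)), G (k + q * j) =
          ∑ k ∈ Ico (S.u + q * j) (S.u + (S.T - q * J) + q * j), G k := by
        rw [Finset.sum_Ico_add']
      have hsub : Ico (S.u + q * j) (S.u + (S.T - q * J) + q * j) ⊆ S.I := by
        intro k hk
        unfold Sys.I
        rw [Finset.mem_Ico] at hk ⊢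
        omega
      rw [e1, ← Finset.sum_sdiff hsub, add_sub_cancel_right]
      calc ‖∑ k ∈ S.I \ Ico (S.u + q * j) (S.u + (S.T - q * J) + q * j), G k‖
          ≤ ∑ k ∈ S.I \ Ico (S.u + q * j) (S.u + (S.T - q * J) + q * j), ‖G k‖ := norm_sum_le _ _
        _ ≤ ∑ k ∈ S.I \ Ico (S.u + q * j) (S.u + (S.T - q * J) + q * j), (1 : ℝ) :=
            Finset.sum_le_sum fun k _ => hG k
        _ = (#(S.I \ Ico (S.u + q * j) (S.u + (S.T - q * J) + q * j)) : ℝ) := by
            rw [Finset.sum_const, nsmul_eq_mul, mul_one]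
        _ = q * J := by
            rw [Finset.card_sdiff_of_subset hsub, Nat.card_Ico]
            unfold Sys.I
            rw [Nat.card_Ico]
            have e2 : S.u + S.T - S.u - (S.u + (S.T - q * J) + q * j - (S.u + q * j)) = q * J := by
              omega
            rw [e2]
            push_cast
            ring
    have hW : ‖(J : ℂ) * (∑ k ∈ S.I, G k) -
        ∑ k ∈ Ico S.u (S.u + (S.T - q * J)), ∑ j ∈ range J, G (k + q * j)‖ ≤ J * (q * J) := by
      have e1 : (J : ℂ) * (∑ k ∈ S.I, G k) -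
          ∑ k ∈ Ico S.u (S.u + (S.T - q * J)), ∑ j ∈ range J, G (k + q * j) =
          ∑ j ∈ range J, ((∑ k ∈ S.I, G k) -
            ∑ k ∈ Ico S.u (S.u + (S.T - q * J)), G (k + q * j)) := by
        rw [Finset.sum_sub_distrib, Finset.sum_const, card_range, nsmul_eq_mul, Finset.sum_comm]
      rw [e1]
      calc ‖∑ j ∈ range J, ((∑ k ∈ S.I, G k) -
            ∑ k ∈ Ico S.u (S.u + (S.T - q * J)), G (k + q * j))‖
          ≤ ∑ j ∈ range J, ‖(∑ k ∈ S.I, G k) -
            ∑ k ∈ Ico S.u (S.u + (S.T - q * J)), G (k + q * j)‖ := norm_sum_le _ _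
        _ ≤ ∑ j ∈ range J, ((q : ℝ) * J) :=
            Finset.sum_le_sum fun j hj => hwin j (Finset.mem_range.mp hj)
        _ = J * (q * J) := by rw [Finset.sum_const, card_range, nsmul_eq_mul]
    have hbig : 3 / 4 * η * J * S.T ≤
        ‖∑ k ∈ Ico S.u (S.u + (S.T - q * J)), ∑ j ∈ range J, G (k + q * j)‖ := by
      have h1 := norm_sub_norm_le ((J : ℂ) * (∑ k ∈ S.I, G k))
        (∑ k ∈ Ico S.u (S.u + (S.T - q * J)), ∑ j ∈ range J, G (k + q * j))
      rw [norm_mul, Complex.norm_natCast] at h1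
      have h2 : (J : ℝ) * (η * S.T) ≤ J * ‖∑ k ∈ S.I, G k‖ :=
        mul_le_mul_of_nonneg_left hsum (by (clear * - hJ1; linarith))
      have h3 : (J : ℝ) * (4 * q * J) ≤ J * (η * S.T) :=
        mul_le_mul_of_nonneg_left hqJ (by (clear * - hJ1; linarith))
      linarith
    -- a good window
    exact by
      obtain ⟨k, hk, hkW⟩ : ∃ k ∈ Ico S.u (S.u + (S.T - q * J)),
          η / 2 * J ≤ ‖∑ j ∈ range J, G (k + q * j)‖ := by
        by_contra hcon
        push Not at hcon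
        have h1 : ‖∑ k ∈ Ico S.u (S.u + (S.T - q * J)), ∑ j ∈ range J, G (k + q * j)‖ ≤
            S.T * (η / 2 * J) := by
          calc ‖∑ k ∈ Ico S.u (S.u + (S.T - q * J)), ∑ j ∈ range J, G (k + q * j)‖
              ≤ ∑ k ∈ Ico S.u (S.u + (S.T - q * J)), ‖∑ j ∈ range J, G (k + q * j)‖ :=
                norm_sum_le _ _
            _ ≤ ∑ k ∈ Ico S.u (S.u + (S.T - q * J)), (η / 2 * J) :=
                Finset.sum_le_sum fun k hk => (hcon k hk).le
            _ = ((S.T - q * J : ℕ) : ℝ) * (η / 2 * J) := by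
                rw [Finset.sum_const, Nat.card_Ico, nsmul_eq_mul, Nat.add_sub_cancel_left]
            _ ≤ S.T * (η / 2 * J) := by
                apply mul_le_mul_of_nonneg_right _ (by positivity)
                exact_mod_cast Nat.sub_le _ _
        have h2 : 0 < η * J * S.T := by positivity
        (clear * - hbig h1 h2; linarith)
      rw [Finset.mem_Ico] at hk
      have hkq : q * (k / q) + k % q = k := Nat.div_add_mod k q
      refine ⟨k % q, k / q, Nat.mod_lt _ (by (clear * - S J hq k; omega)), by omega, ?_, ?_⟩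
      · rw [mul_add]
        omega
      · have e1 : ∑ j ∈ Ico (k / q) (k / q + J), G (q * j + k % q) =
            ∑ j ∈ range J, G (k + q * j) := by
          rw [Finset.sum_Ico_eq_sum_range, Nat.add_sub_cancel_left]
          apply Finset.sum_congr rfl
          intro j _
          congr 1
          rw [mul_add]
          omega
        have hJ0 : (0 : ℝ) < (J : ℝ) := by (clear * - hJ1; linarith)
        rw [Finset.expect_eq_sum_div_card, e1, Nat.card_Ico, Nat.add_sub_cancel_left, norm_div,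
          Complex.norm_natCast, le_div_iff₀ hJ0]
        exact hkW

end

end Pool.Agent.Helper67.NX2

end

section

set_option autoImplicit false

open Finset

open scoped BigOperators ComplexConjugate

namespace Pool.Agent.Helper67.NX2

open Pool.Agent.Helper57.NX

noncomputable section

theorem rt5_win (K Q J : ℕ) (η : ℝ) (hη : 0 < η) (hQ : 1 ≤ Q) (hJ : 1 ≤ J)
    (hQJ : 4 * (Q : ℝ) * J ≤ η * K) (G : ℕ → ℂ) (hG : ∀ k, ‖G k‖ ≤ 1)
    (h : η ≤ ‖𝔼 k ∈ range K, G k‖) :
    ∃ h0 : ℕ, h0 + Q * J ≤ K ∧ η / 2 ≤ ‖𝔼 j ∈ range J, G (h0 + Q * j)‖ := by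
  let S : Sys 0 := ⟨1, 0, 1, 0, K, fun _ => 0⟩
  have hSI : S.I = range K := by
    show Ico 0 (0 + K) = range K
    rw [zero_add, range_eq_Ico]
  obtain ⟨r0, u', hr, h1, h2, h3⟩ := exists_window S η Q J hQ hJ hQJ G hG (by rw [hSI]; exact h) hη
  refine ⟨Q * u' + r0, ?_, ?_⟩
  · have h4 : Q * (u' + J) + r0 ≤ 0 + K := h2
    rw [mul_add] at h4
    omega
  · have h5 : 𝔼 j ∈ Ico u' (u' + J), G (Q * j + r0) =
        𝔼 j ∈ range J, G (Q * u' + r0 + Q * j) := by
      rw [expect_eq_sum_div_card, expect_eq_sum_div_card, Nat.card_Ico, card_range,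
        sum_Ico_eq_sum_range]
      have e1 : u' + J - u' = J := by omega
      rw [e1]
      congr 1
      refine sum_congr rfl fun j _ => ?_
      congr 1
      ring
    rw [← h5]
    exact h3

theorem rt5_drop (J : ℕ) (z : ℕ → ℂ) (hz : ∀ j, ‖z j‖ ≤ 1) (φ : ℕ → ℝ) (φ0 η : ℝ) (hη : 0 ≤ η)
    (h : ∀ j < J, ∃ n : ℤ, |φ j - φ0 - n| ≤ η) :
    ‖𝔼 j ∈ range J, z j * e (φ j)‖ ≤ ‖𝔼 j ∈ range J, z j‖ + 2 * Real.pi * η := by
  have h1 : 𝔼 j ∈ range J, z j * e (φ j) =
      (𝔼 j ∈ range J, z j) * e φ0 + 𝔼 j ∈ range J, z j * (e (φ j) - e φ0) := by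
    rw [expect_mul, ← expect_add_distrib]
    refine expect_congr rfl fun j _ => ?_
    ring
  have h2 : ‖𝔼 j ∈ range J, z j * (e (φ j) - e φ0)‖ ≤ 2 * Real.pi * η := by
    refine norm_expect_le_of5 _ _ (by (clear * - hη; positivity)) fun j hj => ?_
    obtain ⟨n, hn⟩ := h j (mem_range.mp hj)
    have e1 : e φ0 = e (φ0 + n) := by rw [e_add, e_int, mul_one]
    rw [norm_mul, e1]
    have h3 := norm_e_sub_e_le (φ j) (φ0 + n)
    have h4 : |φ j - (φ0 + n)| ≤ η := by
      have : φ j - (φ0 + n) = φ j - φ0 - n := by ring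
      rw [this]; exact hn
    have h5 : ‖e (φ j) - e (φ0 + n)‖ ≤ 2 * Real.pi * η :=
      h3.trans (mul_le_mul_of_nonneg_left h4 (by positivity))
    calc ‖z j‖ * ‖e (φ j) - e (φ0 + n)‖ ≤ 1 * (2 * Real.pi * η) :=
          mul_le_mul (hz j) h5 (norm_nonneg _) zero_le_one
      _ = 2 * Real.pi * η := one_mul _
  rw [h1]
  refine (norm_add_le _ _).trans ?_
  rw [norm_mul, norm_e, mul_one]
  (clear * - h2; linarith)

/-- Weyl's inequality (module A4) as a statement -/
def rt5Weyl : Prop := ∀ d : ℕ, 1 ≤ d → ∃ C : ℕ, ∀ δ : ℝ, 0 < δ → δ ≤ 1 / 2 → ∀ K : ℕ,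
    δ⁻¹ ^ C ≤ K → ∀ p : Polynomial ℝ, p.natDegree ≤ d →
    δ ≤ ‖𝔼 j ∈ range K, e (p.eval (j : ℝ))‖ →
    ∃ q : ℕ, 1 ≤ q ∧ (q : ℝ) ≤ δ⁻¹ ^ C ∧ dint (q * p.coeff d) ≤ δ⁻¹ ^ C / (K : ℝ) ^ d

/-- the statement for polynomial phases -/
def rt5PL (n : ℕ) : Prop :=
  ∀ κ : ℝ, 0 < κ → ∃ κ0 : ℝ, 0 < κ0 ∧ ∃ C : ℕ, ∃ σ : ℝ, 0 < σ ∧ ∃ D0 : ℝ, 1 < D0 ∧
  ∀ D : ℝ, D0 ≤ D → ∀ δ : ℝ, D ^ (-σ) ≤ δ → δ ≤ 1 / 2 →
  ∀ M B K : ℕ, 1 ≤ M → (M : ℝ) ≤ δ⁻¹ → (B : ℝ) ≤ δ⁻¹ * D →
  D ^ (1 - κ0) ≤ K → (K : ℝ) ≤ D → ∀ w : ℕ → ℝ,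
  δ ≤ ‖𝔼 h ∈ range K, e (∑ d ∈ Icc 1 n, w d * ((M : ℝ) * (h : ℝ) + B) ^ d)‖ →
  ∃ q : ℕ, 1 ≤ q ∧ (q : ℝ) ≤ δ⁻¹ ^ C ∧ ∀ d ∈ Icc 1 n, dint (q * w d) ≤ D ^ (κ - d)

theorem rt5PL_zero : rt5PL 0 := by
  intro κ hκ
  refine ⟨1, one_pos, 0, 1, one_pos, 2, by norm_num, ?_⟩
  intro D hD δ hδ1 hδ2 M B K hM hM2 hB hK1 hK2 w h
  refine ⟨1, le_rfl, by simp, ?_⟩
  intro d hd
  have := mem_Icc.mp hd
  omega

theorem rt5PL_succ (hWeyl : rt5Weyl) (n : ℕ) (ih : rt5PL n) : rt5PL (n + 1) := by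
  intro κ hκ
  obtain ⟨κ0', hκ0', C', σ', hσ', D0', hD0', IH⟩ := ih (κ / 2) (by linarith)
  obtain ⟨C1, hweyl⟩ := hWeyl (n + 1) (by omega)
  -- parameters
  obtain ⟨κ2, hκ2, hκ2a, hκ2b⟩ : ∃ κ2 : ℝ, 0 < κ2 ∧ 2 * κ2 ≤ κ0' ∧ κ2 ≤ 1 / 2 :=
    ⟨min (κ0' / 2) (1 / 2), lt_min (by (clear * - hκ0'; linarith)) (by norm_num),
      by linarith [min_le_left (κ0' / 2) (1 / 2)], min_le_right _ _⟩
  have hn1 : (1 : ℝ) ≤ (n : ℝ) + 1 := by
    have : (0 : ℝ) ≤ n := Nat.cast_nonneg _
    (clear * -; linarith)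
  obtain ⟨κ0, hκ0, hκ0a, hκ0b⟩ : ∃ κ0 : ℝ, 0 < κ0 ∧ (n + 1) * κ0 ≤ κ2 / 4 ∧
      (n + 1) * κ0 ≤ κ / 4 := by
    refine ⟨min κ2 κ / (4 * (n + 1)), div_pos (lt_min hκ2 hκ) (by (clear * -; positivity)), ?_, ?_⟩
    · have h1 : (n + 1) * (min κ2 κ / (4 * (n + 1))) = min κ2 κ / 4 := by
        field_simp
      rw [h1]
      (clear * -; linarith [min_le_left κ2 κ])
    · have h1 : (n + 1) * (min κ2 κ / (4 * (n + 1))) = min κ2 κ / 4 := by
        (clear * - hκ2 hκ; field_simp)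
      rw [h1]
      (clear * -; linarith [min_le_right κ2 κ])
  have hκ0c : κ0 ≤ κ2 / 4 := by (clear * - hκ0a hκ0; nlinarith)
  set C2 : ℕ := C1 + n + 3 with hC2
  set C : ℕ := C1 + n + 1 + C2 * C' with hC
  set W : ℕ := C2 * (C' + 1) + C1 + n + 3 with hW
  have hW1 : (1 : ℝ) ≤ (W : ℝ) := by
    have : 1 ≤ W := by omega
    exact_mod_cast this
  exact by
    obtain ⟨σ, hσ, hσa, hσb, hσc, hσd⟩ : ∃ σ : ℝ, 0 < σ ∧ W * σ ≤ σ' / 4 ∧ W * σ ≤ κ2 / 4 ∧
        W * σ ≤ κ / 4 ∧ W * σ ≤ 1 / 4 := by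
      refine ⟨min (min σ' κ2) (min κ 1) / (4 * W), div_pos (lt_min (lt_min hσ' hκ2)
        (lt_min hκ one_pos)) (by (clear * -; positivity)), ?_⟩
      have h1 : W * (min (min σ' κ2) (min κ 1) / (4 * W)) = min (min σ' κ2) (min κ 1) / 4 := by
        (clear * - hW1 hσ' hκ2 hκ; field_simp)
      rw [h1]
      have h2 : min (min σ' κ2) (min κ 1) ≤ σ' := (min_le_left _ _).trans (min_le_left _ _)
      have h3 : min (min σ' κ2) (min κ 1) ≤ κ2 := (min_le_left _ _).trans (min_le_right _ _)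
      have h4 : min (min σ' κ2) (min κ 1) ≤ κ := (min_le_right _ _).trans (min_le_left _ _)
      have h5 : min (min σ' κ2) (min κ 1) ≤ 1 := (min_le_right _ _).trans (min_le_right _ _)
      refine ⟨by (clear * - h2; linarith), by (clear * - h3; linarith), by (clear * - h4; linarith), by (clear * - hκ2b hκ0 hκ0c h3; linarith)⟩
    have hE : ∀ E : ℕ, E ≤ W → (E : ℝ) * σ ≤ W * σ := fun E hEW =>
      mul_le_mul_of_nonneg_right (by exact_mod_cast hEW) hσ.le
    obtain ⟨D1, hD1, hbig⟩ := rt5_big (8 * Real.pi * (n + 1) * 2 ^ n) (κ2 / 4) (by (clear * - hκ0 hκ0c; linarith))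
    refine ⟨κ0, hκ0, C, σ, hσ, max D0' D1, lt_of_lt_of_le hD0' (le_max_left _ _), ?_⟩
    intro D hDD δ hδ1 hδ2 M B K hM1 hM2 hB hK1 hK2 w h
    have hDD0 : D0' ≤ D := (le_max_left _ _).trans hDD
    have hDD1 : D1 ≤ D := (le_max_right _ _).trans hDD
    have hD : 1 < D := lt_of_lt_of_le hD1 hDD1
    have hD' : 1 ≤ D := hD.le
    have hDp : 0 < D := by (clear * - hD0' hκ2b hκ0 hκ0c hDD0; linarith)
    exact by
      have hδ : 0 < δ := lt_of_lt_of_le (Real.rpow_pos_of_pos hDp _) hδ1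
      have hδi : 2 ≤ δ⁻¹ := by
        rw [le_inv_comm₀ (by norm_num) hδ]; (clear * - hδ2; linarith)
      have hδi0 : 0 < δ⁻¹ := inv_pos.mpr hδ
      have hδi1 : 1 ≤ δ⁻¹ := by (clear * - hκ2b hκ0 hκ0c hδi; linarith)
      have hpow : ∀ E : ℕ, E ≤ W → δ⁻¹ ^ E ≤ D ^ ((E : ℝ) * σ) := fun E _ => rt5_inv hDp hδ1 E
      have hc8 := hbig D hDD1
      exact by
        have hpi : (3 : ℝ) < Real.pi := Real.pi_gt_three
        have h2n : (1 : ℝ) ≤ 2 ^ n := one_le_pow₀ (by norm_num)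
        have hc4 : (4 : ℝ) ≤ D ^ (κ2 / 4) := by
          refine le_trans ?_ hc8
          have h1 : 24 ≤ 8 * Real.pi := by (clear * - hpi; linarith)
          have h2 : (24 : ℝ) ≤ 8 * Real.pi * (n + 1) := by (clear * - hpi; nlinarith)
          (clear * - hκ2b h2n hpi hκ2 hκ0c hκ0 h2; nlinarith)
        -- Weyl
        have hK0 : (0 : ℝ) < K := lt_of_lt_of_le (Real.rpow_pos_of_pos hDp _) hK1
        obtain ⟨q1, hq1, hq1C, hq1d⟩ := hweyl δ hδ hδ2 K (by
          have h1 := hpow C1 (by (clear * - M; omega))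
          have h2 := hE C1 (by omega)
          refine le_trans (rt5_le hD' h1 ?_) hK1
          (clear * - hκ2b hκ0 hκ0c hσb h2; linarith)) (rt5P (n + 1) w M B) (rt5P_deg _ _ _ _) (by
            refine h.trans (le_of_eq ?_)
            congr 1
            refine expect_congr rfl fun j _ => ?_
            rw [rt5P_eval])
        rw [rt5P_coeff] at hq1d
        have hM0 : (1 : ℝ) ≤ (M : ℝ) := by exact_mod_cast hM1
        set Q2 : ℕ := q1 * M ^ (n + 1) with hQ2
        exact by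
          have hQ21 : 1 ≤ Q2 := Nat.one_le_iff_ne_zero.mpr (by
            have : 0 < M ^ (n + 1) := pow_pos (by (clear * - n C' C1 hM1 q1; omega)) _
            have h3 : 0 < q1 * M ^ (n + 1) := Nat.mul_pos (by omega) this
            omega)
          have hQ2r : (1 : ℝ) ≤ (Q2 : ℝ) := by exact_mod_cast hQ21
          have hQ2b : (Q2 : ℝ) ≤ δ⁻¹ ^ (C1 + n + 1) := by
            rw [hQ2]
            push_cast
            rw [show C1 + n + 1 = C1 + (n + 1) by ring, pow_add δ⁻¹ C1 (n + 1)]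
            exact mul_le_mul hq1C (pow_le_pow_left₀ (by (clear * - hM1; positivity)) hM2 _) (by (clear * - hM1; positivity)) (by (clear * - hδ; positivity))
          obtain ⟨A, hA⟩ : ∃ A : ℤ, A = round ((Q2 : ℝ) * w (n + 1)) := ⟨_, rfl⟩
          obtain ⟨θ, hθ⟩ : ∃ θ : ℝ, θ = (Q2 : ℝ) * w (n + 1) - A := ⟨_, rfl⟩
          have hθb : |θ| ≤ δ⁻¹ ^ C1 / (K : ℝ) ^ (n + 1) := by
            have h1 : |θ| = dint (q1 * (w (n + 1) * (M : ℝ) ^ (n + 1))) := by
              unfold dint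
              have h2 : (q1 : ℝ) * (w (n + 1) * (M : ℝ) ^ (n + 1)) = (Q2 : ℝ) * w (n + 1) := by
                rw [hQ2]; push_cast; ring
              rw [h2, hθ, hA]
            rw [h1]; exact hq1d
          have hθD : |θ| ≤ D ^ ((C1 : ℝ) * σ + -((n + 1) * (1 - κ0))) := by
            refine hθb.trans ?_
            have h1 : (D ^ (1 - κ0)) ^ (n + 1) ≤ (K : ℝ) ^ (n + 1) :=
              pow_le_pow_left₀ (Real.rpow_nonneg hDp.le _) hK1 _
            have h2 : (D ^ (1 - κ0)) ^ (n + 1) = D ^ ((n + 1) * (1 - κ0)) := by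
              rw [← Real.rpow_natCast, ← Real.rpow_mul hDp.le]
              congr 1
              push_cast
              ring
            rw [h2] at h1
            have h3 : 0 < D ^ ((n + 1) * (1 - κ0)) := Real.rpow_pos_of_pos hDp _
            calc δ⁻¹ ^ C1 / (K : ℝ) ^ (n + 1) ≤ D ^ ((C1 : ℝ) * σ) / D ^ ((n + 1) * (1 - κ0)) :=
                  div_le_div₀ (Real.rpow_nonneg hDp.le _) (hpow C1 (by omega)) h3 h1
              _ = D ^ ((C1 : ℝ) * σ + -((n + 1) * (1 - κ0))) := by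
                  rw [Real.rpow_add hDp, Real.rpow_neg hDp.le, div_eq_mul_inv]
          -- the window
          have hx1 : (1 : ℝ) ≤ D ^ (1 - κ2) := Real.one_le_rpow hD' (by (clear * - hκ2b hκ0 hκ0c; linarith))
          exact by
            obtain ⟨hJ1, hJ2, hJ3⟩ := rt5_floor hx1
            set J : ℕ := ⌊D ^ (1 - κ2)⌋₊ with hJ
            have hJ0 : (0 : ℝ) ≤ (J : ℝ) := Nat.cast_nonneg _
            have hQJ : 4 * (Q2 : ℝ) * J ≤ δ * K := by
              have h1 : 4 * (Q2 : ℝ) * J * δ⁻¹ ≤ K := by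
                have h2 : (4 : ℝ) * (Q2 * (J * δ⁻¹)) ≤
                    D ^ (κ2 / 4 + (((C1 + n + 1 : ℕ) : ℝ) * σ + ((1 - κ2) + ((1 : ℕ) : ℝ) * σ))) := by
                  refine rt5_mul hDp hc4 (by (clear * - hq1 hM1 hJ1 hδ; positivity)) ?_
                  refine rt5_mul hDp (hQ2b.trans (hpow _ (by (clear * - κ2 D M w q1 A; omega)))) (by (clear * - hJ1 hδ; positivity)) ?_
                  refine rt5_mul hDp hJ2 hδi0.le ?_
                  have := hpow 1 (by (clear * - κ2 D M w q1 A; omega))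
                  rwa [pow_one] at this
                have h3 := hE (C1 + n + 2) (by omega)
                have h4 : 4 * (Q2 : ℝ) * J * δ⁻¹ = (4 : ℝ) * (Q2 * (J * δ⁻¹)) := by ring
                rw [h4]
                refine (rt5_le hD' h2 ?_).trans hK1
                push_cast at h3 ⊢
                (clear * - hκ0 hκ0c hσb h3; nlinarith)
              have h5 : 4 * (Q2 : ℝ) * J * δ⁻¹ * δ = 4 * (Q2 : ℝ) * J := by
                (clear * - hδ hJ1 hQ21; field_simp)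
              calc 4 * (Q2 : ℝ) * J = 4 * (Q2 : ℝ) * J * δ⁻¹ * δ := h5.symm
                _ ≤ K * δ := mul_le_mul_of_nonneg_right h1 hδ.le
                _ = δ * K := mul_comm _ _
            obtain ⟨h0, hh0, hwin⟩ := rt5_win K Q2 J δ hδ hQ21 hJ1 hQJ
              (fun h : ℕ => e (∑ d ∈ Icc 1 (n + 1), w d * ((M : ℝ) * (h : ℝ) + B) ^ d))
              (fun _ => (norm_e _).le) h
            -- splitting off the top term
            have hsplit : ∀ j : ℕ, e (∑ d ∈ Icc 1 (n + 1), w d * ((M : ℝ) * ((h0 + Q2 * j : ℕ) : ℝ) + B) ^ d) =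
                e (∑ d ∈ Icc 1 n, w d * (((M * Q2 : ℕ) : ℝ) * (j : ℝ) + ((M * h0 + B : ℕ) : ℝ)) ^ d) *
                e (w (n + 1) * (((M * h0 + B + M * Q2 * j : ℕ) : ℝ)) ^ (n + 1)) := by
              intro j
              rw [← e_add, sum_Icc_succ_top (by omega)]
              congr 2
              · refine sum_congr rfl fun d _ => ?_
                push_cast
                congr 2
                ring
              · push_cast
                congr 2
                ring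
            have hwin' : δ / 2 ≤ ‖𝔼 j ∈ range J,
                e (∑ d ∈ Icc 1 n, w d * (((M * Q2 : ℕ) : ℝ) * (j : ℝ) + ((M * h0 + B : ℕ) : ℝ)) ^ d) *
                e (w (n + 1) * (((M * h0 + B + M * Q2 * j : ℕ) : ℝ)) ^ (n + 1))‖ := by
              refine hwin.trans (le_of_eq ?_)
              congr 1
              exact expect_congr rfl fun j _ => hsplit j
            -- the size of the base points
            have hZ : ∀ j : ℕ, j < J → ((M * h0 + B + M * Q2 * j : ℕ) : ℝ) ≤ 2 * (δ⁻¹ * D) := by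
              intro j hj
              have h1 : h0 + Q2 * j ≤ K := by
                have : Q2 * j ≤ Q2 * J := Nat.mul_le_mul_left _ hj.le
                omega
              have h2 : ((h0 + Q2 * j : ℕ) : ℝ) ≤ D := le_trans (by exact_mod_cast h1) hK2
              have h3 : ((M * h0 + B + M * Q2 * j : ℕ) : ℝ) = (M : ℝ) * ((h0 + Q2 * j : ℕ) : ℝ) + B := by
                push_cast; ring
              rw [h3]
              have h4 : (M : ℝ) * ((h0 + Q2 * j : ℕ) : ℝ) ≤ δ⁻¹ * D :=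
                mul_le_mul hM2 h2 (Nat.cast_nonneg _) hδi0.le
              (clear * - hB h4; linarith)
            exact by
              have hη : ∀ j < J, ∃ k : ℤ, |w (n + 1) * (((M * h0 + B + M * Q2 * j : ℕ) : ℝ)) ^ (n + 1) -
                  w (n + 1) * (((M * h0 + B : ℕ) : ℝ)) ^ (n + 1) - k| ≤ δ / (8 * Real.pi) := by
                intro j hj
                obtain ⟨k, hk⟩ := rt5_top (n + 1) (w (n + 1)) θ A Q2 (M * h0 + B) (M * h0 + B + M * Q2 * j)
                  hQ21 (by rw [hθ]; ring) ⟨(M : ℤ) * j, by push_cast; ring⟩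
                refine ⟨k, ?_⟩
                rw [hk, abs_mul]
                have hpd := rt5_powdiff n (x := ((M * h0 + B : ℕ) : ℝ))
                  (y := ((M * h0 + B + M * Q2 * j : ℕ) : ℝ)) (Z := 2 * (δ⁻¹ * D)) (Nat.cast_nonneg _)
                  (by exact_mod_cast Nat.le_add_right _ _) (hZ j hj)
                have hjJ : (j : ℝ) ≤ J := by exact_mod_cast hj.le
                have h1 : ((M * h0 + B + M * Q2 * j : ℕ) : ℝ) - ((M * h0 + B : ℕ) : ℝ) = M * Q2 * j := by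
                  push_cast; ring
                rw [h1] at hpd
                have h2 : |θ / (Q2 : ℝ)| = |θ| / Q2 := by
                  rw [abs_div, Nat.abs_cast]
                rw [h2]
                calc |θ| / Q2 * |((M * h0 + B + M * Q2 * j : ℕ) : ℝ) ^ (n + 1) -
                        ((M * h0 + B : ℕ) : ℝ) ^ (n + 1)|
                    ≤ |θ| / Q2 * ((n + 1) * (M * Q2 * j) * (2 * (δ⁻¹ * D)) ^ n) :=
                      mul_le_mul_of_nonneg_left hpd (by (clear * - hq1 hM1; positivity))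
                  _ = (n + 1) * 2 ^ n * (|θ| * (M * (j * (δ⁻¹ ^ n * D ^ n)))) := by
                      rw [mul_pow, mul_pow]
                      (clear * - hQ21 hD hδ hM1; field_simp)
                  _ ≤ (n + 1) * 2 ^ n * (|θ| * (δ⁻¹ * (J * (δ⁻¹ ^ n * D ^ n)))) := by
                      (clear * - hM2 hjJ hδ hD; gcongr)
                  _ ≤ δ / (8 * Real.pi) := by
                      have h3 : |θ| * (δ⁻¹ * (J * (δ⁻¹ ^ n * D ^ n))) ≤
                          D ^ (((C1 : ℝ) * σ + -((n + 1) * (1 - κ0))) + (((1 : ℕ) : ℝ) * σ + ((1 - κ2) +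
                            ((n : ℝ) * σ + (n : ℝ))))) := by
                        refine rt5_mul hDp hθD (by (clear * - hδ hJ1 hD; positivity)) ?_
                        refine rt5_mul hDp (by have := hpow 1 (by (clear * - κ2 D M K w q1 A h0 j; omega)); rwa [pow_one] at this)
                          (by (clear * - hJ1 hδ hD; positivity)) ?_
                        refine rt5_mul hDp hJ2 (by (clear * - hδ hD; positivity)) ?_
                        refine rt5_mul hDp (hpow n (by omega)) (by (clear * - hD; positivity)) ?_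
                        rw [Real.rpow_natCast]
                      have h4 := hE (C1 + n + 2) (by omega)
                      have h5 : (8 * Real.pi * (n + 1) * 2 ^ n) * ((|θ| * (δ⁻¹ * (J * (δ⁻¹ ^ n * D ^ n)))) *
                          δ⁻¹) ≤ D ^ (κ2 / 4 + ((((C1 : ℝ) * σ + -((n + 1) * (1 - κ0))) +
                            (((1 : ℕ) : ℝ) * σ + ((1 - κ2) + ((n : ℝ) * σ + (n : ℝ))))) +
                            ((1 : ℕ) : ℝ) * σ)) := by
                        refine rt5_mul hDp hc8 (by (clear * - hδ hJ1 hD; positivity)) ?_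
                        refine rt5_mul hDp h3 (by (clear * - hδ; positivity)) ?_
                        have := hpow 1 (by omega); rwa [pow_one] at this
                      have h6 : (8 * Real.pi * (n + 1) * 2 ^ n) * ((|θ| * (δ⁻¹ * (J * (δ⁻¹ ^ n * D ^ n)))) *
                          δ⁻¹) ≤ 1 := by
                        have := rt5_le hD' h5 (b := 0) (by push_cast at h4 ⊢; (clear * - hκ0 hκ0a hκ0c hσb h4; nlinarith))
                        rwa [Real.rpow_zero] at this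
                      have h7 : (n + 1) * 2 ^ n * (|θ| * (δ⁻¹ * (J * (δ⁻¹ ^ n * D ^ n)))) =
                          ((8 * Real.pi * (n + 1) * 2 ^ n) * ((|θ| * (δ⁻¹ * (J * (δ⁻¹ ^ n * D ^ n)))) *
                          δ⁻¹)) * (δ / (8 * Real.pi)) := by
                        (clear * - hD hδ hJ1; field_simp)
                      rw [h7]
                      calc _ ≤ 1 * (δ / (8 * Real.pi)) := mul_le_mul_of_nonneg_right h6 (by (clear * - hδ; positivity))
                        _ = δ / (8 * Real.pi) := one_mul _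
              have hdrop := rt5_drop J
                (fun j => e (∑ d ∈ Icc 1 n, w d * (((M * Q2 : ℕ) : ℝ) * (j : ℝ) + ((M * h0 + B : ℕ) : ℝ)) ^ d))
                (fun _ => (norm_e _).le)
                (fun j => w (n + 1) * (((M * h0 + B + M * Q2 * j : ℕ) : ℝ)) ^ (n + 1))
                (w (n + 1) * (((M * h0 + B : ℕ) : ℝ)) ^ (n + 1)) (δ / (8 * Real.pi)) (by (clear * - hδ; positivity)) hη
              have hlow : δ / 4 ≤ ‖𝔼 j ∈ range J,
                  e (∑ d ∈ Icc 1 n, w d * (((M * Q2 : ℕ) : ℝ) * (j : ℝ) + ((M * h0 + B : ℕ) : ℝ)) ^ d)‖ := by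
                have h1 : 2 * Real.pi * (δ / (8 * Real.pi)) = δ / 4 := by
                  field_simp
                  norm_num
                rw [h1] at hdrop
                (clear * - hwin' hdrop; linarith)
              -- the induction hypothesis
              have hδ'4 : δ ^ C2 ≤ δ / 4 := by
                have h1 : δ ^ C2 = δ ^ (C1 + n + 2) * δ := by rw [hC2]; ring
                have h2 : δ ^ (C1 + n + 2) ≤ δ ^ 2 :=
                  pow_le_pow_of_le_one hδ.le (by (clear * - hκ2b hκ0 hκ0c hδ2; linarith)) (by (clear * - C' κ2 D M K w q1 A h0; omega))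
                have h3 : δ ^ 2 ≤ 1 / 4 := by (clear * - hδ2 hκ2b hκ0 hκ0c hδ; nlinarith)
                rw [h1]
                (clear * - hδ2 hκ2b hκ0 hκ0c hδ h2; nlinarith)
              have hinv : (δ ^ C2)⁻¹ = δ⁻¹ ^ C2 := (inv_pow δ C2).symm
              have hMQ : (M : ℝ) * Q2 ≤ δ⁻¹ ^ C2 := by
                have h1 : δ⁻¹ ^ C2 = δ⁻¹ * δ⁻¹ ^ (C1 + n + 1) * δ⁻¹ := by rw [hC2]; ring
                have h2 : (M : ℝ) * Q2 ≤ δ⁻¹ * δ⁻¹ ^ (C1 + n + 1) :=
                  mul_le_mul hM2 hQ2b (by (clear * - hq1 hM1; positivity)) hδi0.le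
                rw [h1]
                have h3 : 0 ≤ δ⁻¹ * δ⁻¹ ^ (C1 + n + 1) := by (clear * - hδ; positivity)
                (clear * - h2 hQ2r hκ2b hκ0 hκ0c hδi h3; nlinarith)
              exact by
                obtain ⟨q2, hq21, hq2b, hq2d⟩ := IH D hDD0 (δ ^ C2) (by
                    have h1 := hpow C2 (by
                      rw [hW]
                      have : C2 * (C' + 1) = C2 * C' + C2 := by ring
                      omega)
                    have h2 := hE C2 (by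
                      rw [hW]
                      have : C2 * (C' + 1) = C2 * C' + C2 := by ring
                      omega)
                    have h3 : δ⁻¹ ^ C2 ≤ D ^ σ' := rt5_le hD' h1 (by (clear * - hσ' hσa h2; linarith))
                    have h4 : (D ^ σ')⁻¹ ≤ (δ⁻¹ ^ C2)⁻¹ := inv_anti₀ (by positivity) h3
                    rw [inv_pow, inv_inv] at h4
                    rwa [Real.rpow_neg hDp.le]) (hδ'4.trans (by (clear * - hκ2b hκ0 hκ0c hδ2; linarith))) (M * Q2) (M * h0 + B) J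
                  (Nat.one_le_iff_ne_zero.mpr (by
                    have : 0 < M * Q2 := Nat.mul_pos (by omega) (by omega)
                    omega))
                  (by rw [hinv]; push_cast; exact hMQ)
                  (by
                    rw [hinv]
                    have h1 := hZ 0 (by omega)
                    have h2 : ((M * h0 + B + M * Q2 * 0 : ℕ) : ℝ) = ((M * h0 + B : ℕ) : ℝ) := by simp
                    rw [h2] at h1
                    have h3 : δ⁻¹ ^ 2 ≤ δ⁻¹ ^ C2 := pow_le_pow_right₀ hδi1 (by omega)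
                    have h4 : 2 * δ⁻¹ ≤ δ⁻¹ ^ 2 := by (clear * - hδi hM2; nlinarith)
                    (clear * - h1 h3 hδi hκ2b hκ0 hκ0c hM2 hK2; nlinarith))
                  (by
                    have h1 : D ^ (1 - κ0') ≤ D ^ (1 - 2 * κ2) :=
                      Real.rpow_le_rpow_of_exponent_le hD' (by (clear * - hκ2a; linarith))
                    have h2 : (2 : ℝ) * D ^ (1 - 2 * κ2) ≤ D ^ (κ2 + (1 - 2 * κ2)) := by
                      refine rt5_mul hDp ?_ (Real.rpow_nonneg hDp.le _) le_rfl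
                      exact rt5_le hD' (by (clear * - hκ2b hκ0 hκ0c hc4; linarith)) (show κ2 / 4 ≤ κ2 by (clear * - hκ0 hκ0c; linarith))
                    have h3 : κ2 + (1 - 2 * κ2) = 1 - κ2 := by ring
                    rw [h3] at h2
                    (clear * - hJ3 h1 h2; linarith))
                  (by
                    have := rt5_le hD' hJ2 (b := 1) (by (clear * - hκ0 hκ0c; linarith))
                    rwa [Real.rpow_one] at this) w (hδ'4.trans hlow)
                rw [hinv, ← pow_mul] at hq2b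
                refine ⟨Q2 * q2, Nat.one_le_iff_ne_zero.mpr (by
                    have : 0 < Q2 * q2 := Nat.mul_pos (by (clear * - C' C1 κ2 D K w hQ21 A h0 q2; omega)) (by omega)
                    omega), ?_, ?_⟩
                · push_cast
                  exact by
                    rw [hC, pow_add]
                    exact mul_le_mul hQ2b hq2b (by (clear * - hq21; positivity)) (by (clear * - hδ; positivity))
                · intro d hd
                  exact by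
                    rw [mem_Icc] at hd
                    rcases Nat.lt_or_ge d (n + 1) with hdn | hdn
                    · have h1 := hq2d d (mem_Icc.mpr ⟨hd.1, by (clear * - C' C1 κ2 D M K w q1 A h0 q2 hdn; omega)⟩)
                      exact by
                        have h2 : dint (((Q2 * q2 : ℕ) : ℝ) * w d) ≤ Q2 * dint (q2 * w d) := by
                          have := dint_mul_le Q2 ((q2 : ℝ) * w d)
                          have h3 : (Q2 : ℝ) * ((q2 : ℝ) * w d) = ((Q2 * q2 : ℕ) : ℝ) * w d := by push_cast; ring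
                          rwa [h3] at this
                        have h3 : (Q2 : ℝ) * dint (q2 * w d) ≤ D ^ (((C1 + n + 1 : ℕ) : ℝ) * σ + (κ / 2 - d)) :=
                          rt5_mul hDp (hQ2b.trans (hpow _ (by omega))) (dint_nonneg _) h1
                        have h4 := hE (C1 + n + 1) (by omega)
                        refine h2.trans (rt5_le hD' h3 ?_)
                        (clear * - hκ hσc h4; linarith)
                    · have hdn' : d = n + 1 := by omega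
                      exact by
                        subst hdn'
                        have h1 : dint (((Q2 * q2 : ℕ) : ℝ) * w (n + 1)) ≤ q2 * |θ| := by
                          have h2 := dint_mul_le q2 ((Q2 : ℝ) * w (n + 1))
                          have h3 : (q2 : ℝ) * ((Q2 : ℝ) * w (n + 1)) = ((Q2 * q2 : ℕ) : ℝ) * w (n + 1) := by
                            push_cast; ring
                          rw [h3] at h2
                          have h4 : dint ((Q2 : ℝ) * w (n + 1)) = |θ| := by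
                            unfold dint; rw [hθ, hA]
                          rwa [h4] at h2
                        have h2 : (q2 : ℝ) * |θ| ≤ D ^ (((C2 * C' : ℕ) : ℝ) * σ +
                            ((C1 : ℝ) * σ + -((n + 1) * (1 - κ0)))) := by
                          refine rt5_mul hDp (hq2b.trans (hpow _ (by
                            rw [hW]
                            have : C2 * (C' + 1) = C2 * C' + C2 := by ring
                            omega))) (abs_nonneg _) hθD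
                        have h4 := hE (C2 * C' + C1) (by
                          rw [hW]
                          have : C2 * (C' + 1) = C2 * C' + C2 := by ring
                          omega)
                        refine h1.trans (rt5_le hD' h2 ?_)
                        push_cast at h4 ⊢
                        (clear * - hκ hκ0b hσc h4; nlinarith)

theorem rt5PL_all (hWeyl : rt5Weyl) (n : ℕ) : rt5PL n := by
  induction n with
  | zero => exact rt5PL_zero
  | succ n ih => exact rt5PL_succ hWeyl n ih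

end

end Pool.Agent.Helper67.NX2

end

section

set_option autoImplicit false

open Finset

open scoped BigOperators ComplexConjugate

namespace Pool.Agent.Helper67.NX2

open Pool.Agent.Helper57.NX

noncomputable section

/-- the statement of `base_cells'` for `m, c` -/
def A16Cells (m : ℕ) (c : Fin (m + 1) → ℝ) : Prop :=
  ∀ s : ℝ, 0 < s → s < c (Fin.last m) → (∀ i : Fin m, c i.castSucc < s) → ∀ ε : ℝ, 0 < ε →
    ∃ x0 : ℝ, 0 < x0 ∧ ∃ C : ℕ, ∃ σ : ℝ, 0 < σ ∧ ∃ D0 : ℝ,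
    ∀ (S : Sys (m + 1)) (N : ℕ) [NeZero N] (lam : ℕ), D0 ≤ S.D → IG S c N x0 lam →
    ∀ δ : ℝ, S.D ^ (-σ) ≤ δ → δ ≤ 1 / 2 → (lam : ℝ) ≤ δ⁻¹ →
    ∀ X : ℝ, (S.Q : ℝ) ≤ X → S.Q * S.D ^ (s - σ) ≤ X →
    ∀ (f0 : ZMod N → ℂ) (f : Fin (m + 1) → ZMod N → ℂ),
    Adm δ⁻¹ S.Q f0 → (∀ i, Adm δ⁻¹ S.Q (f i)) → Adm δ⁻¹ X (f (Fin.last m)) →
    δ ≤ ‖form S c 1 f0 f‖ →
    ∃ q : ℕ, 1 ≤ q ∧ (q : ℝ) ≤ δ⁻¹ ^ C ∧
    ∃ (θ : ZMod N → Fin m → ℝ) (E : Finset (ZMod N)), (∀ x i, |θ x i| ≤ δ⁻¹ ^ C / S.Q) ∧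
      ∀ K : ℕ, 1 ≤ K → (K : ℝ) ≤ S.D ^ (1 - ε) →
        δ ^ C ≤ 𝔼 x, (if x ∈ E then locCorrq S c q (f (Fin.last m)) θ K x else 0)

/-- the statement of `base_ratl` for `m, c` -/
def A16Ratl (m : ℕ) (c : Fin (m + 1) → ℝ) : Prop :=
    ∃ eb : ℝ, 0 < eb ∧ ∀ (n : ℕ) (ε : ℝ), 0 < ε → ε ≤ eb →
    ∃ x0 : ℝ, 0 < x0 ∧ ∃ C : ℕ, ∃ σ : ℝ, 0 < σ ∧ ∃ D0 : ℝ,
    ∀ (S : Sys (m + 1)) (N : ℕ) [NeZero N] (lam : ℕ), D0 ≤ S.D → IG S c N x0 lam →
    ∀ δ : ℝ, S.D ^ (-σ) ≤ δ → δ ≤ 1 / 2 → (lam : ℝ) ≤ δ⁻¹ →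
    ∀ X : ℝ, S.Q * S.D ^ (c (Fin.last m) - 2 * eb) ≤ X →
    ∀ f : ZMod N → ℂ, Adm δ⁻¹ X f → ∀ q : ℕ, 1 ≤ q → (q : ℝ) ≤ δ⁻¹ ^ n →
    ∀ (θ : ZMod N → Fin m → ℝ) (E : Finset (ZMod N)), (∀ x i, |θ x i| ≤ δ⁻¹ ^ n / S.Q) →
    ∀ K : ℕ, S.D ^ (1 - ε) ≤ (K : ℝ) + 1 → (K : ℝ) ≤ S.D ^ (1 - ε) →
    δ ^ n ≤ 𝔼 x, (if x ∈ E then locCorrq S c q f θ K x else 0) →
    ∃ q2 : ℕ, 1 ≤ q2 ∧ (q2 : ℝ) ≤ δ⁻¹ ^ C ∧
    ∃ (θ2 : ZMod N → Fin m → ℝ) (E2 : Finset (ZMod N)),
      (∀ x ∈ E2, ∀ i, |θ2 x i * S.P i.castSucc| ≤ S.D ^ (1 / 4 : ℝ)) ∧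
      ∀ K2 : ℕ, 1 ≤ K2 → (K2 : ℝ) ≤ S.D ^ (1 - 2 * ε) →
        δ ^ C ≤ 𝔼 x, (if x ∈ E2 then locCorrq S c q2 f θ2 K2 x else 0)

/-- the statement of `base_fin` for `m, c` -/
def A16Fin (m : ℕ) (c : Fin (m + 1) → ℝ) : Prop :=
  ∀ ε : ℝ, 0 < ε → ∃ ε1 : ℝ, 0 < ε1 ∧ ∀ n : ℕ,
    ∃ x0 : ℝ, 0 < x0 ∧ ∃ C : ℕ, ∃ σ : ℝ, 0 < σ ∧ ∃ D0 : ℝ,
    ∀ (S : Sys (m + 1)) (N : ℕ) [NeZero N] (lam : ℕ), D0 ≤ S.D → IG S c N x0 lam →
    ∀ δ : ℝ, S.D ^ (-σ) ≤ δ → δ ≤ 1 / 2 → (lam : ℝ) ≤ δ⁻¹ →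
    ∀ X : ℝ, S.Q * S.D ^ (c (Fin.last m) - 1 / 8) ≤ X →
    ∀ f : ZMod N → ℂ, Adm δ⁻¹ X f → ∀ q : ℕ, 1 ≤ q → (q : ℝ) ≤ δ⁻¹ ^ n →
    ∀ (θ : ZMod N → Fin m → ℝ) (E : Finset (ZMod N)),
    (∀ x ∈ E, ∀ i, |θ x i * S.P i.castSucc| ≤ S.D ^ (1 / 4 : ℝ)) →
    (∀ K : ℕ, 1 ≤ K → (K : ℝ) ≤ S.D ^ (1 - ε1) →
      δ ^ n ≤ 𝔼 x, (if x ∈ E then locCorrq S c q f θ K x else 0)) →
    ∀ L : ℕ, 1 ≤ L → (L : ℝ) ≤ S.P (Fin.last m) * S.D ^ (-ε) → δ ^ C ≤ nrm (A L f)

end

end Pool.Agent.Helper67.NX2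

end

section

set_option autoImplicit false

open Finset

open scoped BigOperators ComplexConjugate

namespace Pool.Agent.Helper57.NX

noncomputable section

section dla_cube

variable {N : ℕ} {k : ℕ}

theorem dla_norm_bphase (X : ℕ) (r x : ZMod N) (c : ℕ → ℂ) (φ : ℕ → ℝ) :
    ‖bphase X r c φ x‖ = ‖c ((x - r).val / X)‖ := by
  unfold bphase
  rw [norm_mul, norm_e, mul_one]

end dla_cube

end

end Pool.Agent.Helper57.NX

end

section

set_option autoImplicit false

open Finset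

open scoped BigOperators ComplexConjugate

namespace Pool.Agent.Helper67.NX2

open Pool.Agent.Helper57.NX

noncomputable section

/-- sliding windows along progressions -/
theorem sliding59 (G : ℕ → ℂ) (hG : ∀ k, ‖G k‖ ≤ 1) (u T q q' K K2 : ℕ) (hK : 1 ≤ K)
    (hK2 : 1 ≤ K2) :
    𝔼 i ∈ range T, ‖𝔼 j ∈ range K, G (u + i + q * j)‖ ≤
      𝔼 i ∈ range T, ‖𝔼 l ∈ range K2, G (u + i + q * q' * l)‖ +
        (2 * (q' * K2) / K + 2 * (q * K) / T) := by
  set H : ℕ → ℝ := fun k => ‖𝔼 l ∈ range K2, G (k + q * q' * l)‖ with hH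
  have hH1 : ∀ k, ‖H k‖ ≤ 1 := by
    intro k
    rw [Real.norm_of_nonneg (norm_nonneg _)]
    exact norm_expect_le_of5 _ _ zero_le_one fun _ _ => hG _
  have hne : (range K2).Nonempty := nonempty_range_iff.2 (by omega)
  have hneK : (range K).Nonempty := nonempty_range_iff.2 (by omega)
  have h1 : ∀ k : ℕ, ‖𝔼 j ∈ range K, G (k + q * j)‖ ≤
      𝔼 j ∈ range K, H (k + q * j) + 2 * (q' * K2) / K := by
    intro k
    have e1 : 𝔼 j ∈ range K, G (k + q * j) =
        𝔼 l ∈ range K2, 𝔼 j ∈ range K, G (k + q * j + q * q' * l)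
        + 𝔼 l ∈ range K2, (𝔼 j ∈ range K, G (k + q * j) -
          𝔼 j ∈ range K, G (k + q * j + q * q' * l)) := by
      rw [← expect_add_distrib]
      have : ∀ l ∈ range K2, 𝔼 j ∈ range K, G (k + q * j + q * q' * l)
          + (𝔼 j ∈ range K, G (k + q * j) - 𝔼 j ∈ range K, G (k + q * j + q * q' * l))
          = 𝔼 j ∈ range K, G (k + q * j) := fun l _ => by ring
      rw [expect_congr rfl this, expect_const hne]
    have e2 : ‖𝔼 l ∈ range K2, 𝔼 j ∈ range K, G (k + q * j + q * q' * l)‖ ≤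
        𝔼 j ∈ range K, H (k + q * j) := by
      rw [expect_comm]
      exact norm_expect_le5 _ _
    have e3 : ‖𝔼 l ∈ range K2, (𝔼 j ∈ range K, G (k + q * j) -
        𝔼 j ∈ range K, G (k + q * j + q * q' * l))‖ ≤ 2 * (q' * K2) / K := by
      refine norm_expect_le_of5 _ _ (by (clear * - hK2 hK; positivity)) fun l hl => ?_
      rw [norm_sub_rev]
      have h5 := expect_shift59 (fun i => G (k + q * i)) (fun i => hG _) K (q' * l) 0
      have e4 : ∀ j ∈ range K, G (k + q * (0 + j + q' * l)) = G (k + q * j + q * q' * l) := by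
        intro j _
        congr 1
        ring
      have e5 : ∀ j ∈ range K, G (k + q * (0 + j)) = G (k + q * j) := by
        intro j _
        rw [Nat.zero_add]
      rw [expect_congr rfl e4, expect_congr rfl e5] at h5
      refine h5.trans ?_
      have : (l : ℝ) ≤ K2 := by exact_mod_cast (mem_range.1 hl).le
      push_cast
      gcongr
    rw [e1]
    exact (norm_add_le _ _).trans (add_le_add e2 e3)
  have h2 : 𝔼 i ∈ range T, 𝔼 j ∈ range K, H (u + i + q * j) ≤
      𝔼 i ∈ range T, H (u + i) + 2 * (q * K) / T := by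
    rw [expect_comm]
    refine expect_le hneK fun j hj => ?_
    have h3 := expect_shift59 H hH1 T (q * j) u
    rw [Real.norm_eq_abs] at h3
    have h4 := le_of_abs_le h3
    have h5 : (2 * ((q * j : ℕ) : ℝ) / T : ℝ) ≤ 2 * (q * K) / T := by
      have : (j : ℝ) ≤ K := by exact_mod_cast (mem_range.1 hj).le
      push_cast
      (clear * - this; gcongr)
    linarith
  exact by
    rcases Nat.eq_zero_or_pos T with rfl | hT
    · simp only [range_zero, expect_empty]
      (clear * - hK2 hK; positivity)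
    have hneT : (range T).Nonempty := nonempty_range_iff.2 (by omega)
    calc 𝔼 i ∈ range T, ‖𝔼 j ∈ range K, G (u + i + q * j)‖
        ≤ 𝔼 i ∈ range T, (𝔼 j ∈ range K, H (u + i + q * j) + 2 * (q' * K2) / K) :=
          expect_le_expect fun i _ => h1 (u + i)
      _ = 𝔼 i ∈ range T, 𝔼 j ∈ range K, H (u + i + q * j) + 2 * (q' * K2) / K := by
          rw [expect_add_distrib, expect_const hneT]
      _ ≤ _ := by (clear * - h2; linarith)

/-- the phase -/
def ph59 {m : ℕ} (S : Sys (m + 1)) (c : Fin (m + 1) → ℝ) (v : Fin m → ℝ) (k : ℕ) : ℝ :=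
  ∑ i : Fin m, v i * S.P i.castSucc * (S.t k) ^ (c i.castSucc)

section Win

variable {m N : ℕ} [NeZero N] {S : Sys (m + 1)} {c : Fin (m + 1) → ℝ}

theorem locCorrq_eq59 (f : ZMod N → ℂ) (θ : ZMod N → Fin m → ℝ) (q K : ℕ) (x : ZMod N) :
    locCorrq S c q f θ K x =
      𝔼 i ∈ range S.T, ‖𝔼 l ∈ range K, (f (x + (S.a c (Fin.last m) (S.u + i + q * l) : ZMod N)) *
        e (ph59 S c (θ x) (S.u + i + q * l)))‖ := by
  unfold locCorrq Sys.I
  rw [expect_Ico59]
  rfl

theorem locCorrq_le59 (f : ZMod N → ℂ) (hf : ∀ x, ‖f x‖ ≤ 1) (θ : ZMod N → Fin m → ℝ)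
    (q q' K K2 : ℕ) (hK : 1 ≤ K) (hK2 : 1 ≤ K2) (x : ZMod N) :
    locCorrq S c q f θ K x ≤ locCorrq S c (q * q') f θ K2 x +
      (2 * (q' * K2) / K + 2 * (q * K) / S.T) := by
  rw [locCorrq_eq59, locCorrq_eq59]
  refine sliding59 (fun k => f (x + (S.a c (Fin.last m) k : ZMod N)) * e (ph59 S c (θ x) k)) ?_
    S.u S.T q q' K K2 hK hK2
  intro k
  rw [norm_mul, norm_e, mul_one]
  exact hf _

omit [NeZero N] in
theorem win_large59 (f : ZMod N → ℂ) (hf : ∀ x, ‖f x‖ ≤ 1) (v : Fin m → ℝ)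
    (q K2 : ℕ) (k : ℕ) (x : ZMod N) :
    ‖𝔼 l ∈ range K2, (f (x + (S.a c (Fin.last m) (k + q * l) : ZMod N)) *
      e (ph59 S c v (k + q * l)))‖ ≤
      ‖𝔼 l ∈ range K2, e (ph59 S c v (k + q * l))‖ +
      𝔼 l ∈ range K2, ‖f (x + (S.a c (Fin.last m) (k + q * l) : ZMod N))
        - f (x + (S.a c (Fin.last m) k : ZMod N))‖ := by
  have h1 : 𝔼 l ∈ range K2, (f (x + (S.a c (Fin.last m) (k + q * l) : ZMod N)) *
      e (ph59 S c v (k + q * l)))
      = f (x + (S.a c (Fin.last m) k : ZMod N)) * 𝔼 l ∈ range K2, e (ph59 S c v (k + q * l)) +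
        𝔼 l ∈ range K2, (f (x + (S.a c (Fin.last m) (k + q * l) : ZMod N))
        - f (x + (S.a c (Fin.last m) k : ZMod N))) * e (ph59 S c v (k + q * l)) := by
    rw [mul_expect, ← expect_add_distrib]
    refine expect_congr rfl fun l _ => ?_
    ring
  rw [h1]
  refine (norm_add_le _ _).trans (add_le_add ?_ ?_)
  · rw [norm_mul]
    exact mul_le_of_le_one_left (norm_nonneg _) (hf _)
  · refine (norm_expect_le5 _ _).trans (le_of_eq (expect_congr rfl fun l _ => ?_))
    rw [norm_mul, norm_e, mul_one]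

end Win

/-- the corrected phases -/
def th59 {m : ℕ} (S : Sys (m + 1)) (c : Fin (m + 1) → ℝ) (q' : ℕ) (θ : Fin m → ℝ)
    (i : Fin m) : ℝ := by
  classical exact if IsN (c i.castSucc) then θ i - (round (q' * (θ i * S.Q)) : ℝ) / q' / S.Q else θ i

section Change

variable {m N : ℕ} [NeZero N] {S : Sys (m + 1)} {c : Fin (m + 1) → ℝ}

omit [NeZero N] in
theorem phase_shift59 {x0 : ℝ} {lam : ℕ} (hG : IG S c N x0 lam) (hD : 0 < S.D)
    (hQ : 0 < (S.Q : ℝ)) (θ : Fin m → ℝ) (q q' k : ℕ) (hq' : 1 ≤ q') :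
    ∃ w : ℝ, ∀ l : ℕ, ∃ z : ℤ,
      ph59 S c θ (k + q * q' * l) = ph59 S c (th59 S c q' θ) (k + q * q' * l) + w + z := by
  classical
  obtain ⟨r, hr⟩ := hG.rho
  have h1 : ∀ i : Fin m, ∃ w : ℝ, ∀ l : ℕ, ∃ z : ℤ,
      θ i * S.P i.castSucc * (S.t (k + q * q' * l)) ^ (c i.castSucc) =
      th59 S c q' θ i * S.P i.castSucc * (S.t (k + q * q' * l)) ^ (c i.castSucc) + w + z := by
    intro i
    by_cases hN : IsN (c i.castSucc)
    · obtain ⟨d, hd⟩ := hN
      set b : ℤ := round (q' * (θ i * S.Q)) with hb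
      refine ⟨(b : ℝ) / q' * ((lam * k + r : ℕ) : ℝ) ^ d, fun l => ?_⟩
      obtain ⟨z, hz⟩ := phase_int59 b q' (lam * k + r) (lam * (q * l)) hq' d
      refine ⟨z, ?_⟩
      have h2 : th59 S c q' θ i = θ i - (b : ℝ) / q' / S.Q := by
        unfold th59
        rw [if_pos ⟨d, hd⟩]
      rw [h2, add_assoc, ← hz, hd, Real.rpow_natCast, hG.Pint _ d hd]
      have h3 : (((lam * k + r) + q' * (lam * (q * l)) : ℕ) : ℝ) =
          lam * S.D * S.t (k + q * q' * l) := by
        unfold Sys.t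
        rw [mul_assoc, mul_div_cancel₀ _ hD.ne']
        push_cast
        rw [← hr]
        ring
      rw [h3, mul_pow]
      field_simp
      ring
    · refine ⟨0, fun l => ⟨0, ?_⟩⟩
      have h2 : th59 S c q' θ i = θ i := by
        unfold th59
        rw [if_neg hN]
      rw [h2]
      simp
  choose w hw using h1
  refine ⟨∑ i, w i, fun l => ?_⟩
  choose z hz using fun i => hw i l
  refine ⟨∑ i, z i, ?_⟩
  unfold ph59
  rw [Finset.sum_congr rfl fun i _ => hz i, Finset.sum_add_distrib, Finset.sum_add_distrib]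
  push_cast
  rfl

theorem locCorrq_change59 {x0 : ℝ} {lam : ℕ} (hG : IG S c N x0 lam) (hD : 0 < S.D)
    (hQ : 0 < (S.Q : ℝ)) (f : ZMod N → ℂ) (θ : ZMod N → Fin m → ℝ) (q q' K : ℕ) (hq' : 1 ≤ q')
    (x : ZMod N) : locCorrq S c (q * q') f θ K x =
      locCorrq S c (q * q') f (fun x => th59 S c q' (θ x)) K x := by
  rw [locCorrq_eq59, locCorrq_eq59]
  refine expect_congr rfl fun i _ => ?_
  obtain ⟨w, hw⟩ := phase_shift59 hG hD hQ (θ x) q q' (S.u + i) hq'
  have h1 : ∀ l ∈ range K, f (x + (S.a c (Fin.last m) (S.u + i + q * q' * l) : ZMod N)) *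
      e (ph59 S c (θ x) (S.u + i + q * q' * l)) =
      f (x + (S.a c (Fin.last m) (S.u + i + q * q' * l) : ZMod N)) *
      e (ph59 S c (th59 S c q' (θ x)) (S.u + i + q * q' * l)) * e w := by
    intro l _
    obtain ⟨z, hz⟩ := hw l
    rw [hz, e_add, e_add, e_int]
    ring
  rw [expect_congr rfl h1, ← expect_mul, norm_mul, norm_e, mul_one]

end Change

end

end Pool.Agent.Helper67.NX2

end

section

set_option autoImplicit false

open Finset

open scoped BigOperators ComplexConjugate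

namespace Pool.Agent.Helper91.NX2

open Pool.Agent.Helper57.NX

open Pool.Agent.Helper67.NX2

noncomputable section

/-- conclusion of `ar_top` -/
def ArTopC (m : ℕ) (c : Fin (m + 1) → ℝ) (s ε : ℝ) : Prop :=
  ∃ x0 : ℝ, 0 < x0 ∧ ∃ C : ℕ, ∃ σ : ℝ, 0 < σ ∧ ∃ D0 : ℝ,
    ∀ (S : Sys (m + 1)) (N : ℕ) [NeZero N] (lam : ℕ), D0 ≤ S.D → IG S c N x0 lam →
    ∀ δ : ℝ, S.D ^ (-σ) ≤ δ → δ ≤ 1 / 2 → (lam : ℝ) ≤ δ⁻¹ →
    ∀ (p : ℕ) [NeZero p], p.Prime → N = S.Q * p → ∀ q : ℕ, 1 ≤ q → (q : ℝ) ≤ δ⁻¹ →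
    ∀ X : ℝ, 1 ≤ X → S.D ^ (s - σ) ≤ X →
    ∀ (f0 : ZMod N → ℂ) (f : Fin m → ZMod N → ℂ), Adm δ⁻¹ S.Q f0 → (∀ i, Adm δ⁻¹ S.Q (f i)) →
    ∀ G : ZMod p → ℂ, Adm δ⁻¹ X (fun z => G ((q : ZMod p) * z)) →
    δ ≤ ‖form S c 1 f0 (Fin.snoc (α := fun _ => ZMod N → ℂ) f (blk S.Q G))‖ →
    ∀ L : ℕ, 1 ≤ L → (L : ℝ) * (S.Q * q) ≤ S.P (Fin.last m) * S.D ^ (-ε) →
      δ ^ C ≤ nrm (A L (fun z : ZMod p => G ((q : ZMod p) * z)))

/-- the phase modulo one, on the blocks of the class `b`; constant on the other blocks -/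
def phh (b : Bool) (φ : ℕ → ℝ) (j : ℕ) : ℝ :=
  if b then (if Int.fract (φ j) < 1 / 2 then 1 / 2 else Int.fract (φ j))
  else (if Int.fract (φ j) < 1 / 2 then Int.fract (φ j) else 0)

/-- the coefficients of the blocks of the class `b` -/
def cch (b : Bool) (φ : ℕ → ℝ) (cc : ℕ → ℂ) (j : ℕ) : ℂ :=
  if b then (if Int.fract (φ j) < 1 / 2 then 0 else cc j)
  else (if Int.fract (φ j) < 1 / 2 then cc j else 0)

theorem phh_sub (b : Bool) (φ : ℕ → ℝ) (j j' : ℕ) : |phh b φ j - phh b φ j'| ≤ 1 / 2 := by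
  have h : ∀ j, (b = true → 1 / 2 ≤ phh b φ j ∧ phh b φ j ≤ 1) ∧
      (b = false → 0 ≤ phh b φ j ∧ phh b φ j ≤ 1 / 2) := by
    intro j
    have h1 := Int.fract_nonneg (φ j)
    have h2 := (Int.fract_lt_one (φ j)).le
    unfold phh
    cases b
    · refine ⟨fun h => by simp at h, fun _ => ?_⟩
      rw [if_neg (by simp)]
      split_ifs with h3
      · exact ⟨h1, h3.le⟩
      · exact ⟨le_rfl, by norm_num⟩
    · refine ⟨fun _ => ?_, fun h => by simp at h⟩
      rw [if_pos rfl]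
      split_ifs with h3
      · exact ⟨le_rfl, by norm_num⟩
      · exact ⟨not_lt.1 h3, h2⟩
  rw [abs_le]
  cases b
  · have h1 := (h j).2 rfl
    have h2 := (h j').2 rfl
    constructor <;> linarith [h1.1, h1.2, h2.1, h2.2]
  · have h1 := (h j).1 rfl
    have h2 := (h j').1 rfl
    constructor <;> (clear * - h1 h2; linarith [h1.1, h1.2, h2.1, h2.2])

theorem cch_cases (b : Bool) (φ : ℕ → ℝ) (cc : ℕ → ℂ) (j : ℕ) :
    cch b φ cc j = cc j ∨ cch b φ cc j = 0 := by
  unfold cch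
  cases b
  · rw [if_neg (by simp)]
    split_ifs <;> simp
  · rw [if_pos rfl]
    split_ifs <;> simp

theorem cch_phh (b : Bool) (φ : ℕ → ℝ) (cc : ℕ → ℂ) {j : ℕ} (h : cch b φ cc j ≠ 0) :
    phh b φ j = Int.fract (φ j) := by
  unfold cch at h
  unfold phh
  cases b
  · rw [if_neg (by simp)] at h ⊢
    split_ifs at h ⊢ with h3
    · rfl
    · exact absurd rfl h
  · rw [if_pos rfl] at h ⊢
    split_ifs at h ⊢ with h3
    · exact absurd rfl h
    · rfl

theorem e_fract_mul (x : ℝ) (v : ℕ) : e (Int.fract x * v) = e (x * v) := by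
  have h1 : x * v = Int.fract x * v + ((⌊x⌋ * (v : ℤ) : ℤ) : ℝ) := by
    have := Int.fract_add_floor x
    push_cast
    rw [← add_mul, this]
  rw [h1, e_add, e_int, mul_one]

theorem bphase_phh {p : ℕ} (X : ℕ) (r : ZMod p) (b : Bool) (φ : ℕ → ℝ) (cc cc' : ℕ → ℂ)
    (h : ∀ j, cc' j ≠ 0 → cch b φ cc j ≠ 0) :
    bphase X r cc' (phh b φ) = bphase X r cc' φ := by
  funext x
  unfold bphase
  by_cases h0 : cc' ((x - r).val / X) = 0
  · rw [h0, zero_mul, zero_mul]
  · rw [cch_phh b φ cc (h _ h0), e_fract_mul]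

end

end Pool.Agent.Helper91.NX2

end

section

set_option autoImplicit false

set_option linter.unusedSectionVars false

set_option linter.unusedVariables false

open Finset

open scoped BigOperators ComplexConjugate

namespace Pool.Agent.Helper67.NX2

open Pool.Agent.Helper57.NX

noncomputable section

theorem dbq_near (θ Ψ : ℝ) (q z : ℕ) :
    ‖e (-(θ * ((q * z : ℕ) : ℝ))) - e (-(Ψ * ((q * z : ℕ) : ℝ)))‖
      ≤ 2 * Real.pi * dint (q * (θ - Ψ)) * z := by
  set m : ℤ := round ((q : ℝ) * (θ - Ψ)) with hm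
  have h1 : -(θ * ((q * z : ℕ) : ℝ))
      = (-(Ψ * ((q * z : ℕ) : ℝ)) - ((q : ℝ) * (θ - Ψ) - m) * z) + ((-(m * z) : ℤ) : ℝ) := by
    push_cast
    ring
  rw [h1, e_add, e_int, mul_one]
  refine (norm_e_sub_e_le _ _).trans ?_
  have h2 : |-(Ψ * ((q * z : ℕ) : ℝ)) - ((q : ℝ) * (θ - Ψ) - m) * z - -(Ψ * ((q * z : ℕ) : ℝ))|
      = dint (q * (θ - Ψ)) * z := by
    rw [show -(Ψ * ((q * z : ℕ) : ℝ)) - ((q : ℝ) * (θ - Ψ) - m) * z - -(Ψ * ((q * z : ℕ) : ℝ))
      = -(((q : ℝ) * (θ - Ψ) - m) * z) by ring, abs_neg, abs_mul, Nat.abs_cast]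
    rfl
  rw [h2]
  exact le_of_eq (by ring)

/-- a long average is an average of short windows along progressions of difference `q`, with a
modified frequency -/
theorem dbq_window (v : ℕ → ℂ) (hv : ∀ t, ‖v t‖ ≤ 1) (θ Ψ : ℝ) (q X Y : ℕ) (hX : 1 ≤ X)
    (hY : 1 ≤ Y) :
    ‖𝔼 t ∈ range X, v t * e (-(θ * t))‖
      ≤ (𝔼 t0 ∈ range X, ‖𝔼 z ∈ range Y, v (t0 + q * z) * e (-(Ψ * ((q * z : ℕ) : ℝ)))‖)
        + (2 * (q * Y) / X + 2 * Real.pi * dint (q * (θ - Ψ)) * Y) := by
  have hne : (range X).Nonempty := by simpa using (by omega : X ≠ 0)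
  have hne' : (range Y).Nonempty := by simpa using (by omega : Y ≠ 0)
  have hd0 : 0 ≤ dint (q * (θ - Ψ)) := abs_nonneg _
  set g : ℕ → ℂ := fun t => v t * e (-(θ * t)) with hg
  have hg1 : ∀ t, ‖g t‖ ≤ 1 := fun t => by
    rw [hg]
    simp only [norm_mul, norm_e, mul_one]
    exact hv t
  have h1 : ‖(𝔼 t ∈ range X, g t) - 𝔼 z ∈ range Y, 𝔼 t ∈ range X, g (t + q * z)‖
      ≤ 2 * (q * Y) / X := by
    have : (𝔼 t ∈ range X, g t) - 𝔼 z ∈ range Y, 𝔼 t ∈ range X, g (t + q * z)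
        = 𝔼 z ∈ range Y, ((𝔼 t ∈ range X, g t) - 𝔼 t ∈ range X, g (t + q * z)) := by
      rw [expect_sub_distrib, expect_const hne']
    rw [this]
    refine norm_expect_le_of5 _ _ (by (clear * - hY hX; positivity)) fun z hz => ?_
    refine (dbq_shift g hg1 X hX (q * z)).trans ?_
    have : (z : ℝ) ≤ Y := by exact_mod_cast (mem_range.mp hz).le
    push_cast
    (clear * - this hX; gcongr)
  exact by
    have h2 : 𝔼 z ∈ range Y, 𝔼 t ∈ range X, g (t + q * z)
        = 𝔼 t ∈ range X, 𝔼 z ∈ range Y, g (t + q * z) := expect_comm _ _ _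
    have h3 : ‖𝔼 t ∈ range X, 𝔼 z ∈ range Y, g (t + q * z)‖
        ≤ 𝔼 t ∈ range X, ‖𝔼 z ∈ range Y, g (t + q * z)‖ := norm_expect_le5 _ _
    have h4 : ∀ t ∈ range X, ‖𝔼 z ∈ range Y, g (t + q * z)‖
        ≤ ‖𝔼 z ∈ range Y, v (t + q * z) * e (-(Ψ * ((q * z : ℕ) : ℝ)))‖
          + 2 * Real.pi * dint (q * (θ - Ψ)) * Y := by
      intro t _
      have h5 : 𝔼 z ∈ range Y, g (t + q * z)
          = e (-(θ * t)) * 𝔼 z ∈ range Y, v (t + q * z) * e (-(θ * ((q * z : ℕ) : ℝ))) := by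
        rw [mul_expect]
        refine expect_congr rfl fun z _ => ?_
        rw [hg]
        simp only
        rw [show -(θ * ((t + q * z : ℕ) : ℝ)) = -(θ * t) + -(θ * ((q * z : ℕ) : ℝ)) by
          push_cast; ring, e_add]
        ring
      rw [h5, norm_mul, norm_e, one_mul]
      have h6 : ‖(𝔼 z ∈ range Y, v (t + q * z) * e (-(θ * ((q * z : ℕ) : ℝ))))
          - 𝔼 z ∈ range Y, v (t + q * z) * e (-(Ψ * ((q * z : ℕ) : ℝ)))‖
          ≤ 2 * Real.pi * dint (q * (θ - Ψ)) * Y := by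
        rw [← expect_sub_distrib]
        refine norm_expect_le_of5 _ _ (by (clear * - hd0 hY; positivity)) fun z hz => ?_
        rw [← mul_sub, norm_mul]
        have h7 := dbq_near θ Ψ q z
        have h9 : (z : ℝ) ≤ Y := by exact_mod_cast (mem_range.mp hz).le
        calc ‖v (t + q * z)‖ * ‖e (-(θ * ((q * z : ℕ) : ℝ))) - e (-(Ψ * ((q * z : ℕ) : ℝ)))‖
            ≤ 1 * (2 * Real.pi * dint (q * (θ - Ψ)) * z) :=
              mul_le_mul (hv _) h7 (norm_nonneg _) zero_le_one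
          _ ≤ 2 * Real.pi * dint (q * (θ - Ψ)) * Y := by
              rw [one_mul]
              (clear * - h9 hd0; gcongr)
      have := norm_le_norm_add_norm_sub' (𝔼 z ∈ range Y, v (t + q * z) * e (-(θ * ((q * z : ℕ) : ℝ))))
        (𝔼 z ∈ range Y, v (t + q * z) * e (-(Ψ * ((q * z : ℕ) : ℝ))))
      (clear * - h6 this; linarith)
    have h5 : 𝔼 t ∈ range X, ‖𝔼 z ∈ range Y, g (t + q * z)‖
        ≤ (𝔼 t ∈ range X, ‖𝔼 z ∈ range Y, v (t + q * z) * e (-(Ψ * ((q * z : ℕ) : ℝ)))‖)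
          + 2 * Real.pi * dint (q * (θ - Ψ)) * Y := by
      have hc : (𝔼 _t ∈ range X, 2 * Real.pi * dint (q * (θ - Ψ)) * Y)
          = 2 * Real.pi * dint (q * (θ - Ψ)) * Y := expect_const hne _
      rw [← hc, ← expect_add_distrib]
      exact expect_le_expect h4
    have h6 := norm_le_norm_add_norm_sub' (𝔼 t ∈ range X, g t)
      (𝔼 z ∈ range Y, 𝔼 t ∈ range X, g (t + q * z))
    rw [h2] at h6 h1
    linarith

end

end Pool.Agent.Helper67.NX2

end

section

set_option autoImplicit false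

open Finset

open scoped BigOperators ComplexConjugate

namespace Pool.Agent.Helper67.NX2

open Pool.Agent.Helper57.NX

noncomputable section

/-- characters of `ZMod N` -/
theorem char_add21 {N : ℕ} [NeZero N] (b : ℤ) (x : ZMod N) (t : ℤ) :
    e ((b : ℝ) / N * ((x + (t : ZMod N)).val : ℝ)) =
      e ((b : ℝ) / N * (x.val : ℝ)) * e ((b : ℝ) / N * t) := by
  have hN : (N : ℝ) ≠ 0 := by exact_mod_cast NeZero.ne N
  have h1 : (((x + (t : ZMod N)).val : ℤ) : ZMod N) = (((x.val : ℤ) + t : ℤ) : ZMod N) := by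
    push_cast
    rw [ZMod.natCast_zmod_val, ZMod.natCast_zmod_val]
  obtain ⟨k, hk⟩ := (ZMod.intCast_eq_intCast_iff_dvd_sub _ _ N).mp h1
  have h2 : (((x + (t : ZMod N)).val : ℝ)) = (x.val : ℝ) + t - N * k := by
    have h3 : (((x + (t : ZMod N)).val : ℤ)) = (x.val : ℤ) + t - N * k := by linarith
    exact_mod_cast h3
  have h3 : (b : ℝ) / N * ((x.val : ℝ) + t - N * k) =
      (b : ℝ) / N * x.val + (b : ℝ) / N * t + ((-(b * k) : ℤ) : ℝ) := by
    push_cast
    field_simp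
    ring
  rw [h2, h3, e_add, e_add, e_int, mul_one]

end

end Pool.Agent.Helper67.NX2

end
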