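import Pool.Agent.Helper23.MC.L00_a0
import Pool.Agent.Helper23.MC.L00_a1
import Pool.Agent.Helper23.MC.L00_a11
import Pool.Agent.Helper23.MC.L00_a12
import Pool.Agent.Helper23.MC.L00_a13
import Pool.Agent.Helper23.MC.L00_a7
import Pool.Agent.Helper23.MC.L00_a9

/-!
Parts of Helper57.NX.Defs3, Helper5.NX.Basic, Helper99.NX.LpLocalAux, Helper30.NX2.LocArithAux, Helper82.NX.GncA, Helper5.NX.PhiBasics, Helper84.NX.LFormCore, Helper84.NX.LForm, Helper81.NX.Types, Helper94.NX2.Round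
-/

attribute [local instance 5000]
  Pool.Agent.Helper23.MC.Inst.rCharZero Pool.Agent.Helper23.MC.Inst.rALM
  Pool.Agent.Helper23.MC.Inst.rARM Pool.Agent.Helper23.MC.Inst.rALSM
  Pool.Agent.Helper23.MC.Inst.rARSM Pool.Agent.Helper23.MC.Inst.rARRLE
  Pool.Agent.Helper23.MC.Inst.rALRLE Pool.Agent.Helper23.MC.Inst.rARRLT
  Pool.Agent.Helper23.MC.Inst.rALRLT Pool.Agent.Helper23.MC.Inst.rPMRLT
  Pool.Agent.Helper23.MC.Inst.rMPRLT Pool.Agent.Helper23.MC.Inst.rPMM
  Pool.Agent.Helper23.MC.Inst.rMPM Pool.Agent.Helper23.MC.Inst.rPMSM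
  Pool.Agent.Helper23.MC.Inst.rMPSM Pool.Agent.Helper23.MC.Inst.rEAOL
  Pool.Agent.Helper23.MC.Inst.rIOR Pool.Agent.Helper23.MC.Inst.rISOR
  Pool.Agent.Helper23.MC.Inst.rNZD Pool.Agent.Helper23.MC.Inst.rcCharZero
  Pool.Agent.Helper23.MC.Inst.rcNZD Pool.Agent.Helper23.MC.Inst.zCharZero
  Pool.Agent.Helper23.MC.Inst.zALM Pool.Agent.Helper23.MC.Inst.zARM
  Pool.Agent.Helper23.MC.Inst.zALSM Pool.Agent.Helper23.MC.Inst.zARSM
  Pool.Agent.Helper23.MC.Inst.zIOR Pool.Agent.Helper23.MC.Inst.zISOR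
  Pool.Agent.Helper23.MC.Inst.zNZD Pool.Agent.Helper23.MC.Inst.qCharZero
  Pool.Agent.Helper23.MC.Inst.mR Pool.Agent.Helper23.MC.Inst.mC Pool.Agent.Helper23.MC.Inst.mRC
  Pool.Agent.Helper23.MC.Inst.rPSM Pool.Agent.Helper23.MC.Inst.rCSM
  Pool.Agent.Helper23.MC.Inst.cAdd Pool.Agent.Helper23.MC.Inst.cAddM
  Pool.Agent.Helper23.MC.Inst.cMul Pool.Agent.Helper23.MC.Inst.cMon

namespace Pool.Agent.Helper57.NX
end Pool.Agent.Helper57.NX

section

set_option autoImplicit false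

open Finset

open scoped BigOperators ComplexConjugate

namespace Pool.Agent.Helper57.NX

noncomputable section

/-- evaluation of a formal combination -/
def ev {m : ℕ} (a : Fin m → ℕ → ℤ) (p : Phi m) (k : ℕ) : ℤ :=
  p.sum fun s n => n * dl s.1 (a s.2) k

/-- bookkeeping: total weight `≤ n`, differences of order `≤ n`, shifts `< M` -/
def Bd {m : ℕ} (M n : ℕ) (p : Phi m) : Prop :=
  (∑ s ∈ p.support, (p s).natAbs ≤ n) ∧ ∀ s ∈ p.support, s.1.length ≤ n ∧ ∀ h ∈ s.1, h < M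

/-- invariants during a round: `Lq` lower part (and the frame `0`), `Lg` upper part -/
structure TG {m : ℕ} (S : Sys m) (c : Fin m → ℝ) (δ : ℝ) (M n B : ℕ) (Y γ lam w : ℝ)
    (Lq Lg : List (Phi m)) : Prop where
  q : ∀ g ∈ Lg, ∀ p ∈ (0 : Phi m) :: Lq, Tp S c δ n B Y γ lam w (g - p)
  g : ∀ g0 t, Lg = g0 :: t → ∀ g ∈ t, Tp S c δ n B Y (γ - 1) (lam * M / S.D) w (g - g0)
  bq : ∀ p ∈ Lq, Bd M n p
  bg : ∀ p ∈ Lg, Bd M n p
  lq : Lq.length ≤ n
  lg : Lg.length ≤ n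
  ne : Lg ≠ []

/-- a cluster: all differences to the head `g0` are typed -/
structure Clu {m : ℕ} (S : Sys m) (c : Fin m → ℝ) (δ : ℝ) (M n B : ℕ) (Y γ lam w : ℝ)
    (g0 : Phi m) (t : List (Phi m)) : Prop where
  g : ∀ g ∈ t, Tp S c δ n B Y γ lam w (g - g0)
  b0 : Bd M n g0
  bt : ∀ g ∈ t, Bd M n g
  ne : t ≠ []
  le : t.length ≤ n

/-- size conditions for the PET steps -/
structure Env {m : ℕ} (S : Sys m) (N : ℕ) (δ : ℝ) (M R : ℕ) (w : ℝ) (n : ℕ) : Prop where
  ρ0 : 0 ≤ S.ρ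
  ρ1 : S.ρ ≤ 1
  D1 : 1 ≤ S.D
  δ0 : 0 < δ
  δ1 : δ ≤ 1 / 2
  u1 : S.D ≤ S.u
  u2 : (S.u : ℝ) + S.T ≤ 2 * S.D
  MT : (M : ℝ) ≤ δ ^ n * S.T
  M1 : δ⁻¹ ^ n ≤ M
  MD : (M : ℝ) / S.D ≤ w
  w1 : w ≤ δ ^ n
  P0 : ∀ i, 0 ≤ S.P i
  PR : ∀ i, S.P i * ((M : ℝ) / S.D) ^ R ≤ w * S.Q
  wQ : 1 ≤ w * S.Q
  QN : (S.Q : ℝ) ≤ N

/-- form of a list of functions with formal shifts -/
def lform {m N : ℕ} [NeZero N] (S : Sys m) (c : Fin m → ℝ) (F0 : ZMod N → ℂ)
    (L : List ((ZMod N → ℂ) × Phi m)) : ℂ :=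
  𝔼 k ∈ S.I, 𝔼 x : ZMod N, F0 x *
    (L.map fun fp => fp.1 (x + (ev (S.a c) fp.2 k : ZMod N))).prod

end

end Pool.Agent.Helper57.NX

end

section

set_option autoImplicit false

open Finset

open scoped BigOperators ComplexConjugate

namespace Pool.Agent.Helper57.NX

noncomputable section

section Basic

variable {N : ℕ} [NeZero N]

theorem TV.nonneg {B X : ℝ} {f : ZMod N → ℂ} (h : TV B X f) : 0 ≤ B := by
  have := h 0 0
  simpa using this

theorem TV.mono {B B' X X' : ℝ} {f : ZMod N → ℂ} (h : TV B X f) (hB : B ≤ B') (hX' : 0 < X')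
    (hX : X' ≤ X) : TV B' X' f := by
  intro x l
  refine (h x l).trans ?_
  have h1 : (l : ℝ) / X ≤ l / X' := div_le_div_of_nonneg_left (Nat.cast_nonneg _) hX' hX
  have h2 : 0 ≤ (l : ℝ) / X' := by positivity
  exact mul_le_mul hB (by linarith) (by
    have : 0 ≤ (l : ℝ) / X := div_nonneg (Nat.cast_nonneg _) (hX'.le.trans hX)
    (clear * - this; linarith)) (h.nonneg.trans hB)

theorem Adm.mono {B B' X X' : ℝ} {f : ZMod N → ℂ} (h : Adm B X f) (hB : B ≤ B') (hX' : 0 < X')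
    (hX : X' ≤ X) : Adm B' X' f := ⟨h.bdd, h.tv.mono hB hX' hX⟩

theorem expect_step5 {B X : ℝ} {f : ZMod N → ℂ} (h : TV B X f) (hX : 0 < X) :
    𝔼 x, ‖f (x + 1) - f x‖ ≤ B * (1 / X + 1 / N) := by
  have hN : (0 : ℝ) < N := by exact_mod_cast Nat.pos_of_ne_zero (NeZero.ne N)
  rw [Fintype.expect_eq_sum_div_card, ZMod.card, div_le_iff₀ hN]
  have h1 : ∑ x : ZMod N, ‖f (x + 1) - f x‖
      = ∑ j ∈ range N, ‖f (0 + (j : ZMod N) + 1) - f (0 + (j : ZMod N))‖ := by
    refine sum_bij' (i := fun x _ => x.val) (j := fun j _ => (j : ZMod N)) ?_ ?_ ?_ ?_ ?_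
    · intro x _
      exact mem_range.2 (ZMod.val_lt x)
    · intro j _
      exact mem_univ _
    · intro x _
      exact ZMod.natCast_zmod_val x
    · intro j hj
      exact ZMod.val_natCast_of_lt (mem_range.1 hj)
    · intro x _
      rw [ZMod.natCast_zmod_val, zero_add]
  rw [h1]
  refine (h 0 N).trans (le_of_eq ?_)
  field_simp

/-- `L¹` continuity of translations -/
theorem TV.l1_shift {B X : ℝ} {f : ZMod N → ℂ} (h : TV B X f) (hX : 0 < X) (t : ℤ) :
    𝔼 x, ‖f (x + (t : ZMod N)) - f x‖ ≤ |(t : ℝ)| * B * (1 / X + 1 / N) := by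
  have key : ∀ t : ℕ, 𝔼 x, ‖f (x + (t : ZMod N)) - f x‖ ≤ t * B * (1 / X + 1 / N) := by
    intro t
    have h1 : 𝔼 x, ‖f (x + (t : ZMod N)) - f x‖ ≤
        𝔼 x : ZMod N, ∑ j ∈ range t, ‖f (x + (j : ZMod N) + 1) - f (x + (j : ZMod N))‖ :=
      expect_le_expect fun x _ => norm_shift_nat5 f x t
    refine h1.trans ?_
    rw [expect_sum_comm]
    refine (sum_le_card_nsmul _ _ (B * (1 / X + 1 / N)) fun j _ => ?_).trans (le_of_eq ?_)
    · rw [expect_shift (fun x => ‖f (x + 1) - f x‖) (j : ZMod N)]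
      exact expect_step5 h hX
    · rw [card_range, nsmul_eq_mul]
      ring
  rcases Int.eq_nat_or_neg t with ⟨n, rfl | rfl⟩
  · have := key n
    simpa using this
  · have h1 := key n
    rw [← expect_shift (fun x => ‖f (x + (n : ZMod N)) - f x‖) (-(n : ZMod N))] at h1
    have h2 : ∀ x : ZMod N, ‖f (x + ((-(n : ℤ) : ℤ) : ZMod N)) - f x‖
        = ‖f (x + -(n : ZMod N) + (n : ZMod N)) - f (x + -(n : ZMod N))‖ := by
      intro x
      rw [neg_add_cancel_right, norm_sub_rev]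
      simp
    simp only [h2]
    refine h1.trans (le_of_eq ?_)
    simp

end Basic

end

end Pool.Agent.Helper57.NX

end

section

set_option autoImplicit false

open Finset

open scoped BigOperators ComplexConjugate

namespace Pool.Agent.Helper57.NX

noncomputable section

theorem cpf_tv (X q0 κ : ℕ) (hX : 1 ≤ X) (hq0 : 1 ≤ q0) (cc : ℕ → ℂ) (φ : ℕ → ℝ)
    (ϑ W : ℝ) (hW : 0 ≤ W) (hcc : ∀ j, ‖cc j‖ ≤ 1)
    (hφ : ∀ j, j / q0 = κ → cc j ≠ 0 → |φ j - ϑ| ≤ W / X) (a l : ℕ) :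
    ∑ j ∈ range l, ‖cpf X (X * q0) κ cc φ ϑ (a + j + 1) - cpf X (X * q0) κ cc φ ϑ (a + j)‖ ≤
      (2 * Real.pi * W + 2) * (l / X + 1) := by
  have hX0 : (0 : ℝ) < X := by exact_mod_cast hX
  have h1 : ∑ j ∈ range l, ‖cpf X (X * q0) κ cc φ ϑ (a + j + 1) - cpf X (X * q0) κ cc φ ϑ (a + j)‖
      ≤ ∑ j ∈ range l, (2 * Real.pi * (W / X) + 2 * ((((κ * (X * q0) + a + (j + 1)) / X : ℕ) : ℝ)
        - (((κ * (X * q0) + a + j) / X : ℕ) : ℝ))) := by
    refine sum_le_sum fun j _ => ?_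
    have := cpf_step X q0 κ hX hq0 cc φ ϑ (W / X) (by (clear * - hW hX; positivity)) hcc hφ (a + j)
    rw [add_assoc a j 1] at this
    rw [add_assoc a j 1, add_assoc (κ * (X * q0)) a, add_assoc (κ * (X * q0)) a]
    exact this
  refine h1.trans ?_
  have h0 : ∑ j ∈ range l, ((((κ * (X * q0) + a + (j + 1)) / X : ℕ) : ℝ)
        - (((κ * (X * q0) + a + j) / X : ℕ) : ℝ)) = (((κ * (X * q0) + a + l) / X : ℕ) : ℝ)
        - (((κ * (X * q0) + a) / X : ℕ) : ℝ) :=
    sum_range_sub (fun j => (((κ * (X * q0) + a + j) / X : ℕ) : ℝ)) l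
  rw [sum_add_distrib, ← mul_sum (range l) _ 2, h0]
  simp only [sum_const, card_range, nsmul_eq_mul]
  have h2 : (((κ * (X * q0) + a + l) / X : ℕ) : ℝ) ≤ ((κ * (X * q0) + a + l : ℕ) : ℝ) / X :=
    Nat.cast_div_le
  have h3 : ((κ * (X * q0) + a : ℕ) : ℝ) / X < (((κ * (X * q0) + a) / X : ℕ) : ℝ) + 1 := by
    have := Nat.lt_floor_add_one (((κ * (X * q0) + a : ℕ) : ℝ) / X)
    rwa [Nat.floor_div_eq_div] at this
  have h4 : ((κ * (X * q0) + a + l : ℕ) : ℝ) / X = ((κ * (X * q0) + a : ℕ) : ℝ) / X + l / X := by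
    rw [← add_div]; push_cast; rfl
  have h5 : (2 * Real.pi * W + 2) * (l / X + 1) =
      l * (2 * Real.pi * (W / X)) + 2 * (l / X + 1) + 2 * Real.pi * W := by
    field_simp
    ring
  have h6 : 0 ≤ 2 * Real.pi * W := by (clear * - hW; positivity)
  rw [h5]
  (clear * - h2 h3 h4 h6; linarith)

theorem lpl_fi_tv {N : ℕ} (f : ZMod N → ℂ) (B Q : ℝ) (hB : TV B Q f)
    (z : ZMod N) (a l : ℕ) :
    ∑ j ∈ range l, ‖f (z + ((a + j + 1 : ℕ) : ZMod N)) - f (z + ((a + j : ℕ) : ZMod N))‖ ≤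
      B * (l / Q + 1) := by
  have h := hB (z + (a : ZMod N)) l
  refine le_trans (le_of_eq (sum_congr rfl fun j _ => ?_)) h
  congr 2
  · congr 1
    push_cast; ring
  · push_cast; ring_nf

end

end Pool.Agent.Helper57.NX

end

section

set_option autoImplicit false

open Finset

open scoped BigOperators ComplexConjugate

namespace Pool.Agent.Helper67.NX2

open Pool.Agent.Helper57.NX

noncomputable section

theorem la_f0_tv {N : ℕ} (f : ZMod N → ℂ) (hf : ∀ x, ‖f x‖ ≤ 1) (B : ℝ) (Q : ℕ) (hQ : 1 ≤ Q)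
    (hB : TV B Q f) (ψ : ℕ → ℂ) (hψ : ∀ y, ‖ψ y‖ ≤ 1) (z : ZMod N) (a l : ℕ) :
    ∑ j ∈ range l, ‖ψ ((a + j + 1) / Q) * f (z + ((a + j + 1 : ℕ) : ZMod N)) -
      ψ ((a + j) / Q) * f (z + ((a + j : ℕ) : ZMod N))‖ ≤ (B + 2) * (l / Q + 1) := by
  have hstep : ∀ j : ℕ, ‖ψ ((a + j + 1) / Q) * f (z + ((a + j + 1 : ℕ) : ZMod N)) -
      ψ ((a + j) / Q) * f (z + ((a + j : ℕ) : ZMod N))‖ ≤
      ‖f ((z + (a : ZMod N)) + (j : ZMod N) + 1) - f ((z + (a : ZMod N)) + (j : ZMod N))‖ +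
      2 * ((((a + (j + 1)) / Q : ℕ) : ℝ) - (((a + j) / Q : ℕ) : ℝ)) := by
    intro j
    have e1 : z + ((a + j + 1 : ℕ) : ZMod N) = (z + (a : ZMod N)) + (j : ZMod N) + 1 := by
      push_cast; ring
    have e2 : z + ((a + j : ℕ) : ZMod N) = (z + (a : ZMod N)) + (j : ZMod N) := by
      push_cast; ring
    rw [e1, e2, ← add_assoc a j 1]
    generalize (z + (a : ZMod N)) + (j : ZMod N) + 1 = p
    generalize (z + (a : ZMod N)) + (j : ZMod N) = q
    rcases la_div_succ (a + j) Q hQ with h | h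
    · rw [h, ← mul_sub, norm_mul, sub_self, mul_zero, add_zero]
      exact mul_le_of_le_one_left (norm_nonneg _) (hψ _)
    · rw [h]
      push_cast
      have h1 : ‖ψ ((a + j) / Q + 1) * f p‖ ≤ 1 := by
        rw [norm_mul]; exact mul_le_one₀ (hψ _) (norm_nonneg _) (hf _)
      have h2 : ‖ψ ((a + j) / Q) * f q‖ ≤ 1 := by
        rw [norm_mul]; exact mul_le_one₀ (hψ _) (norm_nonneg _) (hf _)
      have h3 := norm_sub_le (ψ ((a + j) / Q + 1) * f p) (ψ ((a + j) / Q) * f q)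
      have h4 := norm_nonneg (f p - f q)
      (clear * - h1 h2 h3 h4; linarith)
  refine (sum_le_sum fun j _ => hstep j).trans ?_
  rw [sum_add_distrib, ← mul_sum, sum_range_sub (fun j => (((a + j) / Q : ℕ) : ℝ)) l]
  have h1 := hB (z + (a : ZMod N)) l
  have h2 := la_div_le a l Q hQ
  have h3 : a / Q ≤ (a + l) / Q := Nat.div_le_div_right (by omega)
  rw [Nat.cast_sub h3] at h2
  have h4 : a + 0 = a := rfl
  rw [h4]
  have h5 : (B + 2) * (l / Q + 1) = B * (l / Q + 1) + 2 * (l / Q + 1) := by ring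
  (clear * - h1 h2; linarith)

theorem laψ_norm (q L : ℕ) (ϑ : ℝ) (y : ℕ) : ‖laψ q L ϑ y‖ ≤ 1 := by
  unfold laψ
  split_ifs
  · rw [norm_e]
  · simp

theorem la_classes_0 {N N' : ℕ} [NeZero N'] (Q q L : ℕ) (hQ : 1 ≤ Q) (hQN : Q ≤ N') (I M : ℝ)
    (hIM : 2 * I + 6 ≤ M) (z : ZMod N) (ϑ : ℝ) (f0 : ZMod N → ℂ) (hf0 : Adm I Q f0) :
    Adm (N := N') M Q (fun x => laψ q L ϑ (x.val / Q) * f0 (z + (x.val : ZMod N))) := by
  have hQ0 : (0 : ℝ) < Q := by exact_mod_cast hQ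
  have hb : ∀ t : ℕ, ‖laψ q L ϑ (t / Q) * f0 (z + (t : ZMod N))‖ ≤ 1 := by
    intro t
    rw [norm_mul]
    exact mul_le_one₀ (laψ_norm _ _ _ _) (norm_nonneg _) (hf0.bdd _)
  refine ⟨fun x => hb x.val, ?_⟩
  have h1 := lpl_wrap (N' := N') (fun t => laψ q L ϑ (t / Q) * f0 (z + (t : ZMod N))) (I + 2) Q hQ0
    (by exact_mod_cast hQN) hb
    (fun a l => la_f0_tv f0 hf0.bdd I Q hQ hf0.tv (laψ q L ϑ) (laψ_norm q L ϑ) z a l)
  exact h1.mono (by (clear * - hIM; linarith)) hQ0 le_rfl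

theorem la_classes_i {N N' : ℕ} [NeZero N'] (Q : ℕ) (hQ : 1 ≤ Q) (hQN : Q ≤ N') (I M : ℝ)
    (hIM : 2 * I + 6 ≤ M) (z : ZMod N) (f : ZMod N → ℂ) (hf : Adm I Q f) :
    Adm (N := N') M Q (fun x => f (z + (x.val : ZMod N))) := by
  have hQ0 : (0 : ℝ) < Q := by exact_mod_cast hQ
  refine ⟨fun x => hf.bdd _, ?_⟩
  have h1 := lpl_wrap (N' := N') (fun t => f (z + (t : ZMod N))) I Q hQ0
    (by exact_mod_cast hQN) (fun t => hf.bdd _) (fun a l => lpl_fi_tv f I Q hf.tv z a l)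
  exact h1.mono (by (clear * - hIM; linarith)) hQ0 le_rfl

theorem la_classes_c {N' : ℕ} [NeZero N'] (Q q X q0 κ : ℕ) (hQ : 1 ≤ Q) (hq : 1 ≤ q) (hX : 1 ≤ X)
    (hq0 : 1 ≤ q0) (hN : Q * q * X ≤ N') (W M : ℝ) (hW : 2 ≤ W) (hWM : 32 * W ≤ M) (cc : ℕ → ℂ)
    (φ : ℕ → ℝ) (ϑ : ℝ) (hcc : ∀ j, ‖cc j‖ ≤ 1)
    (hφ : ∀ j, j / q0 = κ → cc j ≠ 0 → |φ j - ϑ| ≤ W / X) (t : ZMod N') :
    Adm (N := N') M ((Q * q * X : ℕ) : ℝ)
      (fun x => cpf X (X * q0) κ cc φ ϑ ((x - t).val / Q / q)) := by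
  have hX0 : (1 : ℝ) ≤ X := by exact_mod_cast hX
  have hR : 1 ≤ Q * q := Nat.mul_pos hQ hq
  have hR0 : (0 : ℝ) < ((Q * q : ℕ) : ℝ) := by exact_mod_cast hR
  have hQX : (0 : ℝ) < ((Q * q * X : ℕ) : ℝ) := by
    have : 0 < Q * q * X := Nat.mul_pos hR hX
    exact_mod_cast this
  have h0 := la_tv_div (cpf X (X * q0) κ cc φ ϑ) (2 * Real.pi * W + 2) X hX0 (Q * q) hR
    (cpf_tv X q0 κ hX hq0 cc φ ϑ W (by (clear * - hW; linarith)) hcc hφ)
  have h1 := lpl_wrap (N' := N') (fun y => cpf X (X * q0) κ cc φ ϑ (y / (Q * q)))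
    (2 * (2 * Real.pi * W + 2)) ((Q * q * X : ℕ) : ℝ) hQX (by exact_mod_cast hN)
    (fun y => cpf_norm X (X * q0) κ cc φ ϑ hcc _)
    (fun a l => by
      have := h0 a l
      rw [Nat.cast_mul (Q * q) X]
      exact this)
  have h2 : Adm (N := N') M ((Q * q * X : ℕ) : ℝ)
      (fun x => cpf X (X * q0) κ cc φ ϑ (x.val / Q / q)) := by
    refine ⟨fun y => cpf_norm X (X * q0) κ cc φ ϑ hcc _, ?_⟩
    have h3 : (fun x : ZMod N' => cpf X (X * q0) κ cc φ ϑ (x.val / Q / q)) =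
        fun x : ZMod N' => cpf X (X * q0) κ cc φ ϑ (x.val / (Q * q)) := by
      funext x
      rw [Nat.div_div_eq_div_mul]
    rw [h3]
    refine h1.mono ?_ hQX le_rfl
    refine le_trans ?_ hWM
    have hπ : Real.pi ≤ 3.15 := Real.pi_lt_d2.le
    have h4 : Real.pi * W ≤ 3.15 * W := mul_le_mul_of_nonneg_right hπ (by (clear * - hW; linarith))
    (clear * - hW h4; linarith)
  have h3 := h2.shift (-t)
  simpa only [sub_eq_add_neg] using h3

end

end Pool.Agent.Helper67.NX2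

end

section

set_option autoImplicit false

open Finset

open scoped BigOperators ComplexConjugate

namespace Pool.Agent.Helper82.NX

open Pool.Agent.Helper57.NX

noncomputable section

section Mono

variable {m : ℕ} {S : Sys m} {c : Fin m → ℝ} {δ : ℝ} {M : ℕ}

theorem Adm.mono' {N : ℕ} {B B' X : ℝ} {f : ZMod N → ℂ} (h : Adm B X f) (hX : 0 < X)
    (hB : B ≤ B') : Adm B' X f := by
  refine ⟨h.bdd, fun x l => (h.tv x l).trans ?_⟩
  exact mul_le_mul_of_nonneg_right hB (by positivity)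

end Mono

end

end Pool.Agent.Helper82.NX

end

section

set_option autoImplicit false

open Finset

open scoped BigOperators ComplexConjugate

namespace Pool.Agent.Helper57.NX

noncomputable section

section PhiBasics

variable {m : ℕ}

theorem mem_VV5 (a : ℕ) (p : Phi m) :
    p ∈ (VV a : AddSubgroup (Phi m)) ↔ ∀ s ∈ p.support, a ≤ s.1.length := by
  unfold VV
  rw [Submodule.mem_toAddSubgroup, Finsupp.mem_supported]
  exact Iff.rfl

theorem VV_antitone : Antitone (VV : ℕ → AddSubgroup (Phi m)) := by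
  intro a b hab p hp
  rw [mem_VV5] at hp ⊢
  exact fun s hs => hab.trans (hp s hs)

theorem cns5_inj (h : ℕ) : Function.Injective (cns5 (m := m) h) := by
  rintro ⟨t, i⟩ ⟨t', i'⟩ hh
  simp only [cns5, Prod.mk.injEq, List.cons.injEq, true_and] at hh
  exact Prod.ext hh.1 hh.2

theorem supp_map5 (h : ℕ) (p : Phi m) {s : List ℕ × Fin m}
    (hs : s ∈ (Finsupp.mapDomain (cns5 h) p).support) : ∃ t ∈ p.support, cns5 h t = s := by
  classical
  have := Finsupp.mapDomain_support hs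
  rw [Finset.mem_image] at this
  exact this

theorem tau_sub_mem (a h : ℕ) (p : Phi m) (hp : p ∈ (VV a : AddSubgroup (Phi m))) :
    tau h p - p ∈ (VV (a + 1) : AddSubgroup (Phi m)) := by
  rw [tau_apply5, add_sub_cancel_left, mem_VV5]
  intro s hs
  obtain ⟨t, ht, rfl⟩ := supp_map5 h p hs
  rw [mem_VV5] at hp
  have := hp t ht
  simp only [cns5, List.length_cons]
  omega

/-- total weight -/
def wgt5 (p : Phi m) : ℕ := ∑ s ∈ p.support, (p s).natAbs

theorem wgt5_eq (p : Phi m) (S : Finset (List ℕ × Fin m)) (hS : p.support ⊆ S) :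
    wgt5 p = ∑ s ∈ S, (p s).natAbs := by
  refine Finset.sum_subset hS fun s _ hs => ?_
  rw [Finsupp.notMem_support_iff.1 hs]
  rfl

theorem wgt5_add (p q : Phi m) : wgt5 (p + q) ≤ wgt5 p + wgt5 q := by
  classical
  rw [wgt5_eq (p + q) (p.support ∪ q.support) Finsupp.support_add,
    wgt5_eq p (p.support ∪ q.support) Finset.subset_union_left,
    wgt5_eq q (p.support ∪ q.support) Finset.subset_union_right, ← Finset.sum_add_distrib]
  exact Finset.sum_le_sum fun s _ => Int.natAbs_add_le _ _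

theorem wgt5_neg (p : Phi m) : wgt5 (-p) = wgt5 p := by
  unfold wgt5
  rw [Finsupp.support_neg]
  exact Finset.sum_congr rfl fun s _ => by simp

theorem wgt5_map (h : ℕ) (p : Phi m) : wgt5 (Finsupp.mapDomain (cns5 h) p) = wgt5 p := by
  classical
  unfold wgt5
  rw [Finsupp.mapDomain_support_of_injective (cns5_inj h), Finset.sum_image
    (fun x _ y _ hxy => cns5_inj h hxy)]
  exact Finset.sum_congr rfl fun s _ => by rw [Finsupp.mapDomain_apply (cns5_inj h)]

theorem Bd.mono {M n n' : ℕ} {p : Phi m} (h : Bd M n p) (hn : n ≤ n') : Bd M n' p :=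
  ⟨h.1.trans hn, fun s hs => ⟨(h.2 s hs).1.trans hn, (h.2 s hs).2⟩⟩

theorem Bd.sub {M n n' : ℕ} {p q : Phi m} (h : Bd M n p) (h' : Bd M n' q) :
    Bd M (n + n') (p - q) := by
  classical
  refine ⟨?_, fun s hs => ?_⟩
  · have h1 := wgt5_add p (-q)
    rw [wgt5_neg, ← sub_eq_add_neg] at h1
    exact h1.trans (add_le_add h.1 h'.1)
  · have h1 := Finsupp.support_sub hs
    rw [Finset.mem_union] at h1
    rcases h1 with h1 | h1
    · exact ⟨(h.2 s h1).1.trans (Nat.le_add_right _ _), (h.2 s h1).2⟩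
    · exact ⟨(h'.2 s h1).1.trans (Nat.le_add_left _ _), (h'.2 s h1).2⟩

theorem Bd.tau {M n : ℕ} {p : Phi m} (h : Bd M n p) {s : ℕ} (hs : s < M) :
    Bd M (2 * n + 1) (tau s p) := by
  classical
  rw [tau_apply5]
  refine ⟨?_, fun t ht => ?_⟩
  · have h1 := wgt5_add p (Finsupp.mapDomain (cns5 s) p)
    rw [wgt5_map] at h1
    have h2 : wgt5 p ≤ n := h.1
    change wgt5 _ ≤ _
    omega
  · have h1 := Finsupp.support_add ht
    rw [Finset.mem_union] at h1
    rcases h1 with h1 | h1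
    · exact ⟨(h.2 t h1).1.trans (by omega), (h.2 t h1).2⟩
    · obtain ⟨t', ht', rfl⟩ := supp_map5 s p h1
      have h2 := h.2 t' ht'
      refine ⟨?_, fun x hx => ?_⟩
      · simp only [cns5, List.length_cons]
        omega
      · simp only [cns5, List.mem_cons] at hx
        rcases hx with rfl | hx
        · exact hs
        · exact h2.2 x hx

theorem ev_add5 (a : Fin m → ℕ → ℤ) (p q : Phi m) (k : ℕ) :
    ev a (p + q) k = ev a p k + ev a q k := by
  unfold ev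
  exact Finsupp.sum_add_index' (fun _ => by simp) (fun _ _ _ => by ring)

theorem ev_zero (a : Fin m → ℕ → ℤ) (k : ℕ) : ev a (0 : Phi m) k = 0 := by
  unfold ev
  exact Finsupp.sum_zero_index

theorem dl_dlR5 (f : ℕ → ℤ) (g : ℝ → ℝ) (h : ∀ k : ℕ, |(f k : ℝ) - g k| ≤ 1) (t : List ℕ) :
    ∀ k : ℕ, |(dl t f k : ℝ) - dlR t g k| ≤ 2 ^ t.length := by
  induction t with
  | nil => intro k; simpa [dl, dlR] using h k
  | cons a t ih =>
    intro k
    have h1 := ih (k + a)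
    have h2 := ih k
    simp only [dl, dlR, List.length_cons]
    push_cast at h1 ⊢
    have h3 : (dl t f (k + a) : ℝ) - dl t f k - (dlR t g (k + a) - dlR t g k)
        = ((dl t f (k + a) : ℝ) - dlR t g (k + a)) - ((dl t f k : ℝ) - dlR t g k) := by ring
    rw [h3, pow_succ]
    refine (abs_sub _ _).trans ?_
    (clear * - h2 h1; linarith)

theorem sum_abs_le5 (p : Phi m) {n : ℕ} (hp : ∑ s ∈ p.support, (p s).natAbs ≤ n)
    (F : List ℕ × Fin m → ℝ) {B : ℝ} (hB : 0 ≤ B) (hF : ∀ s ∈ p.support, |F s| ≤ B) :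
    |∑ s ∈ p.support, ((p s : ℤ) : ℝ) * F s| ≤ n * B := by
  refine (Finset.abs_sum_le_sum_abs _ _).trans ?_
  have h1 : ∀ s ∈ p.support, |((p s : ℤ) : ℝ) * F s| ≤ ((p s).natAbs : ℝ) * B := by
    intro s hs
    rw [abs_mul]
    have h2 : |((p s : ℤ) : ℝ)| = ((p s).natAbs : ℝ) := by
      rw [← Int.cast_abs, Int.abs_eq_natAbs]
      rfl
    rw [h2]
    exact mul_le_mul_of_nonneg_left (hF s hs) (Nat.cast_nonneg _)
  refine (Finset.sum_le_sum h1).trans ?_
  rw [← Finset.sum_mul]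
  refine mul_le_mul_of_nonneg_right ?_ hB
  exact_mod_cast hp

/-- rounding errors -/
theorem ev_jet (S : Sys m) (c : Fin m → ℝ) (M n : ℕ) (p : Phi m) (hp : Bd M n p) (k : ℕ) :
    |(ev (S.a c) p k : ℝ) - jet S c 0 p k| ≤ n * 2 ^ n := by
  have h1 : (ev (S.a c) p k : ℝ) - jet S c 0 p k = ∑ s ∈ p.support, ((p s : ℤ) : ℝ) *
      ((dl s.1 (S.a c s.2) k : ℝ) - dlR s.1 (fun z => S.P s.2 * mdl S (c s.2) 0 z) k) := by
    unfold ev jet Finsupp.sum
    push_cast
    rw [← Finset.sum_sub_distrib]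
    exact Finset.sum_congr rfl fun s _ => by ring
  rw [h1]
  refine sum_abs_le5 p hp.1 _ (by positivity) fun s hs => ?_
  refine (dl_dlR5 _ _ ?_ s.1 k).trans (pow_le_pow_right₀ (by norm_num) (hp.2 s hs).1)
  intro j
  have h2 : S.P s.2 * mdl S (c s.2) 0 j = S.P s.2 * (S.t j) ^ (c s.2) := by
    simp [mdl, ff, Sys.t]
  simp only [h2]
  unfold Sys.a
  have h3 := Int.floor_le (S.P s.2 * (S.t j) ^ (c s.2))
  have h4 := Int.lt_floor_add_one (S.P s.2 * (S.t j) ^ (c s.2))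
  rw [abs_le]
  constructor <;> linarith

theorem dlR_bound5 (g : ℕ → ℝ → ℝ) (hg : ∀ b y, 0 < y → HasDerivAt (g b) (g (b + 1) y) y)
    (y0 y1 : ℝ) (h0 : 0 < y0) (M : ℕ) (t : List ℕ) (ht : ∀ h ∈ t, h < M) :
    ∀ (b : ℕ) (C : ℝ), (∀ z, y0 ≤ z → z ≤ y1 → |g (b + t.length) z| ≤ C) →
    ∀ y, y0 ≤ y → y + t.length * M ≤ y1 → |dlR t (g b) y| ≤ (M : ℝ) ^ t.length * C := by
  induction t with
  | nil =>
    intro b C hC y hy hy1
    simpa [dlR] using hC y hy (by simpa using hy1)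
  | cons h t ih =>
    intro b C hC y hy hy1
    have hh : h < M := ht h (by simp)
    have hhM : (h : ℝ) ≤ M := by exact_mod_cast hh.le
    have hM0 : (0 : ℝ) ≤ M := Nat.cast_nonneg _
    exact by
      have hh0 : (0 : ℝ) ≤ h := Nat.cast_nonneg _
      have ih' := ih (fun x hx => ht x (by simp [hx])) (b + 1) C (fun z hz hz1 => by
        have := hC z hz hz1
        simp only [List.length_cons] at this
        rwa [show b + (t.length + 1) = b + 1 + t.length by ring] at this)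
      have hlen : (((h :: t).length : ℕ) : ℝ) = t.length + 1 := by
        simp
      rw [hlen] at hy1
      have hd : ∀ z ∈ Set.Icc y (y + h),
          HasDerivWithinAt (dlR t (g b)) (dlR t (g (b + 1)) z) (Set.Icc y (y + h)) z := by
        intro z hz
        exact (dlR_hasDeriv5 (g b) (g (b + 1)) (hg b) t z (h0.trans_le (hy.trans hz.1))).hasDerivWithinAt
      have hb : ∀ z ∈ Set.Icc y (y + h), ‖dlR t (g (b + 1)) z‖ ≤ (M : ℝ) ^ t.length * C := by
        intro z hz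
        rw [Real.norm_eq_abs]
        refine ih' z (hy.trans hz.1) ?_
        have := hz.2
        (clear * - hy1 hhM this; nlinarith)
      have h1 := (convex_Icc y (y + h)).norm_image_sub_le_of_norm_hasDerivWithin_le hd hb
        (Set.left_mem_Icc.2 (by (clear * -; linarith))) (Set.right_mem_Icc.2 (by (clear * -; linarith)))
      rw [Real.norm_eq_abs, Real.norm_eq_abs, add_sub_cancel_left, abs_of_nonneg hh0] at h1
      have h2 : 0 ≤ (M : ℝ) ^ t.length * C :=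
        (norm_nonneg _).trans (hb y (Set.left_mem_Icc.2 (by (clear * -; linarith))))
      simp only [dlR, List.length_cons]
      rw [pow_succ]
      calc |dlR t (g b) (y + h) - dlR t (g b) y| ≤ (M : ℝ) ^ t.length * C * h := h1
        _ ≤ (M : ℝ) ^ t.length * C * M := mul_le_mul_of_nonneg_left hhM h2
        _ = (M : ℝ) ^ t.length * M * C := by ring

/-- elements of `VV R` are small -/
theorem ev_small (c : Fin m → ℝ) (n R : ℕ) : ∃ C : ℝ, 0 < C ∧ ∀ (S : Sys m) (M : ℕ) (Pm : ℝ),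
    0 ≤ Pm →
    1 ≤ S.D → 0 ≤ S.ρ → S.ρ ≤ 1 → n * (M : ℝ) ≤ S.D → (∀ i, 0 ≤ S.P i ∧ S.P i ≤ Pm) →
    ∀ p : Phi m, Bd M n p → p ∈ (VV R : AddSubgroup (Phi m)) →
    ∀ k : ℕ, S.D ≤ k → (k : ℝ) ≤ 3 * S.D →
    |(ev (S.a c) p k : ℝ)| ≤ C * (1 + Pm * ((M : ℝ) / S.D) ^ R) := by
  choose K hK0 hK using fun (γ : ℝ) (b : ℕ) => mdl_bound γ b
  set Cm : ℝ := ∑ i : Fin m, ∑ b ∈ range (n + 1), K (c i) b with hCm
  have hCm0 : 0 ≤ Cm := Finset.sum_nonneg fun i _ => Finset.sum_nonneg fun b _ => (hK0 _ _).le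
  have hKle : ∀ (i : Fin m) (b : ℕ), b ≤ n → K (c i) b ≤ Cm := by
    intro i b hb
    have h1 : K (c i) b ≤ ∑ b ∈ range (n + 1), K (c i) b :=
      Finset.single_le_sum (f := fun b => K (c i) b) (fun b _ => (hK0 _ _).le)
        (Finset.mem_range.2 (by omega))
    have h2 : ∑ b ∈ range (n + 1), K (c i) b ≤ Cm :=
      Finset.single_le_sum (f := fun i : Fin m => ∑ b ∈ range (n + 1), K (c i) b)
        (fun i _ => Finset.sum_nonneg fun b _ => (hK0 _ _).le) (Finset.mem_univ i)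
    exact h1.trans h2
  refine ⟨n * (Cm + 2 ^ n) + 1, by (clear * - hCm0; positivity), ?_⟩
  intro S M Pm hPm hD1 hρ0 hρ1 hMD hP p hp hpR k hk hk3
  have hD : 0 < S.D := by (clear * - hD1; linarith)
  have hMD0 : 0 ≤ (M : ℝ) / S.D := by (clear * - hD1; positivity)
  have hj := ev_jet S c M n p hp k
  exact by
    have hk0 : 0 ≤ Pm * ((M : ℝ) / S.D) ^ R := by (clear * - hPm hD1; positivity)
    rcases Nat.eq_zero_or_pos n with hn | hn
    · -- weight zero
      subst hn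
      have hsup : p.support = ∅ := by
        by_contra hne
        obtain ⟨s, hs⟩ := Finset.nonempty_iff_ne_empty.2 hne
        have h1 : (p s).natAbs ≤ 0 :=
          (Finset.single_le_sum (f := fun s => (p s).natAbs) (fun _ _ => Nat.zero_le _) hs).trans hp.1
        have h2 := Finsupp.mem_support_iff.1 hs
        exact h2 (Int.natAbs_eq_zero.1 (Nat.le_zero.1 h1))
      have hp0 : p = 0 := Finsupp.support_eq_empty.1 hsup
      rw [hp0, ev_zero]
      simp only [Int.cast_zero, abs_zero]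
      (clear * - hCm0 hPm hD1; positivity)
    · have hn1 : (1 : ℝ) ≤ n := by exact_mod_cast hn
      exact by
        have hMD1 : (M : ℝ) / S.D ≤ 1 := by
          rw [div_le_one hD]
          have : (M : ℝ) ≤ n * M := by (clear * - hn1; nlinarith [(Nat.cast_nonneg M : (0 : ℝ) ≤ M)])
          (clear * - hMD this; linarith)
        have hjet : |jet S c 0 p k| ≤ n * (Cm * (Pm * ((M : ℝ) / S.D) ^ R)) := by
          unfold jet Finsupp.sum
          refine sum_abs_le5 p hp.1 _ (by (clear * - hCm0 hPm hD1; positivity)) fun s hs => ?_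
          have hlen := (hp.2 s hs).1
          have hlt := (hp.2 s hs).2
          have hR : R ≤ s.1.length := (mem_VV5 R p).1 hpR s hs
          have hlenR : ((s.1.length : ℕ) : ℝ) ≤ n := by exact_mod_cast hlen
          have h1 := dlR_bound5 (fun b z => S.P s.2 * mdl S (c s.2) b z)
            (fun b z hz => (mdl_hasDeriv S (c s.2) hD hρ0 b z hz).const_mul (S.P s.2))
            S.D (4 * S.D) hD M s.1 hlt 0 (Pm * (Cm / S.D ^ s.1.length)) (fun z hz hz1 => by
              have h2 := hK (c s.2) (0 + s.1.length) m S hD hρ0 (by (clear * - hD1 hρ1; linarith)) z hz hz1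
              rw [zero_add] at h2 ⊢
              rw [abs_mul, abs_of_nonneg (hP s.2).1]
              refine mul_le_mul (hP s.2).2 (h2.trans ?_) (abs_nonneg _) hPm
              exact div_le_div_of_nonneg_right (hKle s.2 _ hlen) (by positivity))
            k hk (by (clear * - hMD hk3 hlenR; nlinarith [(Nat.cast_nonneg M : (0 : ℝ) ≤ M)]))
          refine h1.trans ?_
          have h3 : (M : ℝ) ^ s.1.length * (Pm * (Cm / S.D ^ s.1.length))
              = Cm * (Pm * ((M : ℝ) / S.D) ^ s.1.length) := by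
            rw [div_pow]
            ring
          rw [h3]
          refine mul_le_mul_of_nonneg_left (mul_le_mul_of_nonneg_left ?_ hPm) hCm0
          exact pow_le_pow_of_le_one hMD0 hMD1 hR
        have h4 : |(ev (S.a c) p k : ℝ)| ≤ n * 2 ^ n + n * (Cm * (Pm * ((M : ℝ) / S.D) ^ R)) := by
          have h5 : (ev (S.a c) p k : ℝ) = ((ev (S.a c) p k : ℝ) - jet S c 0 p k) + jet S c 0 p k := by
            ring
          rw [h5]
          exact (abs_add_le _ _).trans (add_le_add hj hjet)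
        refine h4.trans ?_
        set W := Pm * ((M : ℝ) / S.D) ^ R with hW
        have h6 : 0 ≤ (n : ℝ) * Cm := by (clear * - hn hCm0; positivity)
        have h7 : 0 ≤ (n : ℝ) * 2 ^ n * W := by (clear * - hn hPm hD1; positivity)
        (clear * - hk0 h6 h7; nlinarith)

end PhiBasics

end

end Pool.Agent.Helper57.NX

end

section

set_option autoImplicit false

open Finset

open scoped BigOperators ComplexConjugate

namespace Pool.Agent.Helper84.NX

open Pool.Agent.Helper57.NX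

lemma ev_sub' {m : ℕ} (a : Fin m → ℕ → ℤ) (p q : Phi m) (k : ℕ) :
    ev a (p - q) k = ev a p k - ev a q k := by
  unfold ev
  exact Finsupp.sum_sub_index fun s n1 n2 => by ring

lemma ev_tau' {m : ℕ} (a : Fin m → ℕ → ℤ) (h : ℕ) (p : Phi m) (k : ℕ) :
    ev a (tau h p) k = ev a p (k + h) := by
  unfold ev tau
  rw [AddMonoidHom.add_apply, AddMonoidHom.id_apply, Finsupp.sum_add_index' (fun _ => by ring)
    (fun _ _ _ => by ring)]
  rw [Finsupp.mapDomain.addMonoidHom_apply, Finsupp.sum_mapDomain_index (fun _ => by ring)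
    (fun _ _ _ => by ring)]
  rw [← Finsupp.sum_add]
  refine Finsupp.sum_congr fun s _ => ?_
  show _ * _ + _ * (dl s.1 (a s.2) (k + h) - dl s.1 (a s.2) k) = _
  ring

theorem lform_step_of (hvdc : VdcStep) {m N : ℕ} [NeZero N] (S : Sys m) (c : Fin m → ℝ) (M : ℕ)
    (δ : ℝ) (hδ0 : 0 < δ)
    (hδ1 : δ ≤ 1) (F0 : ZMod N → ℂ) (hF0 : ∀ x, ‖F0 x‖ ≤ 1)
    (L : List ((ZMod N → ℂ) × Phi m)) (hL : ∀ fp ∈ L, ∀ x, ‖fp.1 x‖ ≤ 1)
    (hM : 16 / δ ^ 2 ≤ M) (hMT : (M : ℝ) ≤ δ ^ 2 * S.T / 64)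
    (Bad : Finset ℕ) (hBad : (Bad.card : ℝ) ≤ δ ^ 2 * M / 32) (q : Phi m)
    (h : δ ≤ ‖lform S c F0 L‖) :
    ∃ s : ℕ, 1 ≤ s ∧ s < M ∧ s ∉ Bad ∧
      δ ^ 2 / 4 ≤ ‖lform S c 1 (L.map (fun fp => (fp.1, fp.2 - q)) ++
        L.map (fun fp => ((fun x => conj (fp.1 x)), tau s fp.2 - q)))‖ := by
  set v : ℕ → ZMod N → ℂ := fun k x =>
    (L.map fun fp => fp.1 (x + (ev (S.a c) fp.2 k : ZMod N))).prod with hv
  obtain ⟨s, h1, h2, h3, h4⟩ := hvdc S.u S.T M δ hδ0 hδ1 F0 hF0 v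
    (fun k x => norm_list_prod_le _ _ fun fp hfp => hL fp hfp _) hM hMT Bad hBad h
  refine ⟨s, h1, h2, h3, h4.trans (le_of_eq ?_)⟩
  congr 1
  unfold lform
  refine Finset.expect_congr rfl fun k _ => ?_
  rw [← expect_shift' _ (-(ev (S.a c) q k : ZMod N))]
  refine Finset.expect_congr rfl fun x _ => ?_
  rw [Pi.one_apply, one_mul, List.map_append, List.prod_append, List.map_map, List.map_map, hv]
  simp only [conj_list_prod]
  congr 1
  · refine congrArg List.prod (List.map_congr_left fun fp _ => ?_)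
    exact by
      simp only [Function.comp, ev_sub']
      push_cast
      ring_nf
  · refine congrArg List.prod (List.map_congr_left fun fp _ => ?_)
    simp only [Function.comp, ev_sub', ev_tau']
    congr 2
    push_cast
    ring_nf

end Pool.Agent.Helper84.NX

end

section

set_option autoImplicit false

open Finset

open scoped BigOperators ComplexConjugate

namespace Pool.Agent.Helper57.NX

theorem lform_step {m N : ℕ} [NeZero N] (S : Sys m) (c : Fin m → ℝ) (M : ℕ) (δ : ℝ) (hδ0 : 0 < δ)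
    (hδ1 : δ ≤ 1) (F0 : ZMod N → ℂ) (hF0 : ∀ x, ‖F0 x‖ ≤ 1)
    (L : List ((ZMod N → ℂ) × Phi m)) (hL : ∀ fp ∈ L, ∀ x, ‖fp.1 x‖ ≤ 1)
    (hM : 16 / δ ^ 2 ≤ M) (hMT : (M : ℝ) ≤ δ ^ 2 * S.T / 64)
    (Bad : Finset ℕ) (hBad : (Bad.card : ℝ) ≤ δ ^ 2 * M / 32) (q : Phi m)
    (h : δ ≤ ‖lform S c F0 L‖) :
    ∃ s : ℕ, 1 ≤ s ∧ s < M ∧ s ∉ Bad ∧
      δ ^ 2 / 4 ≤ ‖lform S c 1 (L.map (fun fp => (fp.1, fp.2 - q)) ++
        L.map (fun fp => ((fun x => conj (fp.1 x)), tau s fp.2 - q)))‖ := by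
  have hv : Pool.Agent.Helper84.NX.VdcStep := by
    intro N _ u T M δ h1 h2 f0 h3 v h4 h5 h6 Bad h7 h8
    exact vdc_step u T M δ h1 h2 f0 h3 v h4 h5 h6 Bad h7 h8
  exact Pool.Agent.Helper84.NX.lform_step_of hv S c M δ hδ0 hδ1 F0 hF0 L hL hM hMT Bad hBad q h

end Pool.Agent.Helper57.NX

end

section

set_option autoImplicit false

open Finset

open scoped BigOperators ComplexConjugate

namespace Pool.Agent.Helper57.NX

noncomputable section

section Types81

variable {m : ℕ}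

theorem Typ.sub81 {S : Sys m} {c : Fin m → ℝ} {B : ℕ} {Y : ℝ} {p p' : Phi m} {γ Λ E Λ' E' : ℝ}
    (h : Typ S c B Y p γ Λ E) (h' : Typ S c B Y p' γ Λ' E') :
    Typ S c B Y (p - p') γ (Λ - Λ') (E + E') := by
  intro b hb y hy hy'
  have h1 := h b hb y hy hy'
  have h2 := h' b hb y hy hy'
  rw [jet_sub, add_div]
  have e1 : jet S c b p y - jet S c b p' y - (Λ - Λ') * mdl S γ b y
      = (jet S c b p y - Λ * mdl S γ b y) - (jet S c b p' y - Λ' * mdl S γ b y) := by ring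
  rw [e1]
  exact (abs_sub _ _).trans (add_le_add h1 h2)

theorem Tp.mono81 {S : Sys m} {c : Fin m → ℝ} {δ : ℝ} {n n' B B' : ℕ} {Y Y' γ lam w : ℝ}
    {p : Phi m} (h : Tp S c δ n B Y γ lam w p) (hD : 0 < S.D) (hδ0 : 0 < δ) (hδ1 : δ ≤ 1 / 2)
    (hlam : 0 ≤ lam) (hw : 0 ≤ w) (hn : n ≤ n') (hB : B' ≤ B) (hY : Y' ≤ Y) :
    Tp S c δ n' B' Y' γ lam w p := by
  obtain ⟨Λ, h1, h2, h3⟩ := h
  have hi : 1 ≤ δ⁻¹ := (one_le_inv₀ hδ0).2 (by (clear * - hδ0 hδ1; linarith))
  have hp : δ⁻¹ ^ n ≤ δ⁻¹ ^ n' := pow_le_pow_right₀ hi hn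
  have hq : δ ^ n' ≤ δ ^ n := pow_le_pow_of_le_one hδ0.le (by (clear * - hδ0 hδ1; linarith)) hn
  refine ⟨Λ, (mul_le_mul_of_nonneg_right hq hlam).trans h1,
    h2.trans (mul_le_mul_of_nonneg_right hp hlam), h3.mono81 hD hB hY ?_⟩
  exact mul_le_mul_of_nonneg_right (mul_le_mul_of_nonneg_right hp hlam) hw

/-- the lower part of the invariants -/
theorem qpart81 (γ : ℝ) (n B : ℕ) : ∃ n' : ℕ, n ≤ n' ∧
    ∀ (m : ℕ) (S : Sys m) (c : Fin m → ℝ) (δ Y lam w : ℝ) (M : ℕ), 1 ≤ S.D → 0 ≤ S.ρ → S.ρ ≤ 1 →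
      0 < δ → δ ≤ 1 / 2 → 0 < lam → (M : ℝ) / S.D ≤ w → w ≤ 1 → Y ≤ 3 * S.D →
      ∀ g p : Phi m, Tp S c δ n (B + 1) (Y + M) γ lam w g →
        Tp S c δ n (B + 1) (Y + M) γ lam w (g - p) → ∀ h : ℕ, h < M →
        Tp S c δ n' B Y γ lam w (tau h g - p) ∧ Tp S c δ n' B Y γ lam w (g - tau h p) ∧
        Tp S c δ n' B Y γ lam w (tau h (g - p)) := by
  obtain ⟨C, hC1, hC⟩ := Typ_diff81 γ B
  obtain ⟨K, hK⟩ := absorb81 (1 + 4 * C)
  refine ⟨n + K, Nat.le_add_right _ _, ?_⟩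
  intro m S c δ Y lam w M hD1 hρ0 hρ1 hδ0 hδ1 hlam hMw hw1 hY g p hg hgp h hh
  have hD : 0 < S.D := by (clear * - hD1 hδ0 hδ1; linarith)
  have hM0 : (0 : ℝ) ≤ M := Nat.cast_nonneg _
  have hw0 : 0 ≤ w := (div_nonneg hM0 hD.le).trans hMw
  have hMD : (M : ℝ) ≤ S.D := by
    have := hMw.trans hw1
    rwa [div_le_one hD] at this
  have hYM : Y + M ≤ 4 * S.D := by (clear * - hY hMD; linarith)
  have hh0 : (0 : ℝ) ≤ h := Nat.cast_nonneg _
  exact by
    have hhM : (h : ℝ) ≤ M := by exact_mod_cast hh.le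
    have hhD0 : 0 ≤ (h : ℝ) / S.D := div_nonneg hh0 hD.le
    have hhD : (h : ℝ) / S.D ≤ w := (div_le_div_of_nonneg_right hhM hD.le).trans hMw
    have hi : 1 ≤ δ⁻¹ := (one_le_inv₀ hδ0).2 (by (clear * - hδ0 hδ1; linarith))
    obtain ⟨Λg, hg1, hg2, hg3⟩ := hg
    obtain ⟨Λ, h1, h2, h3⟩ := hgp
    set a := δ⁻¹ ^ n with ha
    have ha1 : 1 ≤ a := one_le_pow₀ hi
    exact by
      have ha0 : 0 < a := by (clear * - hδ0 hδ1 ha1; linarith)
      have hp3 : Typ S c (B + 1) (Y + M) p γ (Λg - Λ) (a * lam * w + a * lam * w) := by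
        have := hg3.sub81 h3
        rwa [sub_sub_cancel] at this
      have hE0 : 0 ≤ a * lam * w := by (clear * - hδ0 hlam hw0; positivity)
      have dg := (hC m S c hD1 hρ0 hρ1 Y M hYM g Λg _ hE0 hg3 h hh).1
      have dp := (hC m S c hD1 hρ0 hρ1 Y M hYM p (Λg - Λ) _ (by (clear * - hE0; linarith)) hp3 h hh).1
      have dgp := (hC m S c hD1 hρ0 hρ1 Y M hYM (g - p) Λ _ hE0 h3 h hh).1
      exact by
        have h3' : Typ S c B Y (g - p) γ Λ (a * lam * w) :=
          h3.mono81 hD (Nat.le_succ _) (by (clear * -; linarith)) le_rfl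
        have hKδ := hK δ hδ0 hδ1
        have hC0 : 0 < C := by (clear * - hC1 hδ0 hδ1; linarith)
        have hpow : δ⁻¹ ^ (n + K) = a * δ⁻¹ ^ K := by rw [pow_add]
        have fin : a * lam * w + C * (2 * (a * lam) + 2 * (a * lam * w)) * (h / S.D)
            ≤ δ⁻¹ ^ (n + K) * lam * w := by
          have hal : 0 ≤ a * lam := by (clear * - hδ0 hlam; positivity)
          have e1 : C * (2 * (a * lam) + 2 * (a * lam * w)) * (h / S.D)
              ≤ C * (2 * (a * lam) + 2 * (a * lam * 1)) * w := by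
            refine mul_le_mul ?_ hhD hhD0 (by (clear * - hC1 hδ0 hlam; positivity))
            refine mul_le_mul_of_nonneg_left ?_ hC0.le
            have := mul_le_mul_of_nonneg_left hw1 hal
            (clear * - this; linarith)
          have e2 : a * lam * w + C * (2 * (a * lam) + 2 * (a * lam * 1)) * w
              = (1 + 4 * C) * (a * lam * w) := by ring
          have e3 : (1 + 4 * C) * (a * lam * w) ≤ δ⁻¹ ^ K * (a * lam * w) :=
            mul_le_mul_of_nonneg_right hKδ hE0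
          have e4 : δ⁻¹ ^ K * (a * lam * w) = δ⁻¹ ^ (n + K) * lam * w := by rw [hpow]; ring
          (clear * - e1 e3 e4; linarith)
        have fin' : ∀ L E : ℝ, L ≤ 2 * (a * lam) → E ≤ 2 * (a * lam * w) →
            a * lam * w + C * (L + E) * (h / S.D) ≤ δ⁻¹ ^ (n + K) * lam * w := by
          intro L E hL hE
          refine le_trans (add_le_add_right ?_ _) fin
          exact mul_le_mul_of_nonneg_right (mul_le_mul_of_nonneg_left (add_le_add hL hE) hC0.le) hhD0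
        exact by
          have low : δ ^ (n + K) * lam ≤ |Λ| :=
            (mul_le_mul_of_nonneg_right (pow_le_pow_of_le_one hδ0.le (by (clear * - hδ0 hδ1; linarith))
              (Nat.le_add_right _ _)) hlam.le).trans h1
          have upp : |Λ| ≤ δ⁻¹ ^ (n + K) * lam :=
            h2.trans (mul_le_mul_of_nonneg_right (pow_le_pow_right₀ hi (Nat.le_add_right _ _)) hlam.le)
          have hal : 0 ≤ a * lam := by (clear * - hδ0 hlam; positivity)
          have hdiff : |Λg - Λ| ≤ 2 * (a * lam) := (abs_sub _ _).trans (by (clear * - hg2 h2; linarith))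
          refine ⟨⟨Λ, low, upp, ?_⟩, ⟨Λ, low, upp, ?_⟩, ⟨Λ, low, upp, ?_⟩⟩
          · have e := h3'.add81 dg
            rw [add_zero, sub_add_sub_comm, add_comm g, add_sub_add_right_eq_sub] at e
            exact e.mono81 hD le_rfl le_rfl (fin' _ _ (by (clear * - hg2 hal; linarith)) (by (clear * - hE0; linarith)))
          · have e := h3'.sub81 dp
            have e1 : g - p - (tau h p - p) = g - tau h p := by abel
            rw [sub_zero, e1] at e
            exact e.mono81 hD le_rfl le_rfl (fin' _ _ hdiff (by (clear * -; linarith)))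
          · have e := h3'.add81 dgp
            rw [add_zero, add_sub_cancel] at e
            exact e.mono81 hD le_rfl le_rfl (fin' _ _ (by (clear * - h2 hal; linarith)) (by (clear * - hE0; linarith)))

/-- the upper part of the invariants -/
theorem gpart81 (γ : ℝ) (hγ : γ ≠ 0) (n B : ℕ) : ∃ n' : ℕ, n ≤ n' ∧
    ∀ (m : ℕ) (S : Sys m) (c : Fin m → ℝ) (δ Y lam w : ℝ) (M : ℕ), 1 ≤ S.D → 0 ≤ S.ρ → S.ρ ≤ 1 →
      0 < δ → δ ≤ 1 / 2 → 0 < lam → δ⁻¹ ^ n' ≤ M → (M : ℝ) / S.D ≤ w → w ≤ 1 → Y ≤ 3 * S.D →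
      ∀ (g0 : Phi m) (t : List (Phi m)),
        (∀ g ∈ g0 :: t, Tp S c δ n (B + 1) (Y + M) γ lam w g) →
        (∀ g ∈ t, Tp S c δ n (B + 1) (Y + M) (γ - 1) (lam * M / S.D) w (g - g0)) →
        (g0 :: t).length ≤ n →
        ∃ Bad : Finset ℕ, (Bad.card : ℝ) ≤ δ ^ (2 * n) * M / 32 ∧
          ∀ h : ℕ, 1 ≤ h → h < M → h ∉ Bad → ∀ g ∈ g0 :: t,
            Tp S c δ n' B Y (γ - 1) (lam * M / S.D) w (tau h g - g0) := by
  classical
  obtain ⟨C, hC1, hC⟩ := Typ_diff81 γ B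
  obtain ⟨K1, hK1⟩ := absorb81 (2 + C)
  obtain ⟨K2, hK2⟩ := absorb81 (1 + |γ|)
  obtain ⟨K3, hK3⟩ := absorb81 (128 * n / |γ|)
  obtain ⟨K4, hK4⟩ := absorb81 (64 * n)
  refine ⟨3 * n + K1 + K2 + K3 + K4, by omega, ?_⟩
  intro m S c δ Y lam w M hD1 hρ0 hρ1 hδ0 hδ1 hlam hM hMw hw1 hY g0 t hg hgg hlen
  set n' := 3 * n + K1 + K2 + K3 + K4 with hn'
  have hD : 0 < S.D := by (clear * - hD1 hδ0 hδ1; linarith)
  have hi : 1 ≤ δ⁻¹ := (one_le_inv₀ hδ0).2 (by (clear * - hδ0 hδ1; linarith))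
  have hM1 : (1 : ℝ) ≤ M := (one_le_pow₀ hi).trans hM
  have hM0 : (0 : ℝ) < M := by (clear * - hδ0 hδ1 hM1; linarith)
  have hw0 : 0 ≤ w := (div_nonneg hM0.le hD.le).trans hMw
  exact by
    have hMD : (M : ℝ) ≤ S.D := by
      have := hMw.trans hw1
      rwa [div_le_one hD] at this
    have hYM : Y + M ≤ 4 * S.D := by (clear * - hY hMD; linarith)
    set lam' := lam * M / S.D with hlam'
    have hlam'0 : 0 < lam' := by (clear * - hlam hM1 hD1; positivity)
    have hγ0 : 0 < |γ| := abs_pos.2 hγ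
    -- the coefficients
    have hg' : ∀ g : Phi m, ∃ Λ : ℝ, g ∈ g0 :: t → (δ ^ n * lam ≤ |Λ| ∧ |Λ| ≤ δ⁻¹ ^ n * lam ∧
        Typ S c (B + 1) (Y + M) g γ Λ (δ⁻¹ ^ n * lam * w)) := by
      intro g
      by_cases h : g ∈ g0 :: t
      · obtain ⟨Λ, hΛ⟩ := hg g h
        exact ⟨Λ, fun _ => hΛ⟩
      · exact ⟨0, fun h' => absurd h' h⟩
    exact by
      choose L hL using hg'
      have hgg' : ∀ g : Phi m, ∃ Λ : ℝ, g ∈ g0 :: t → (|Λ| ≤ δ⁻¹ ^ n * lam' ∧
          Typ S c (B + 1) (Y + M) (g - g0) (γ - 1) Λ (δ⁻¹ ^ n * lam' * w)) := by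
        intro g
        by_cases h : g ∈ g0 :: t
        · rcases List.mem_cons.1 h with h1 | h1
          · refine ⟨0, fun _ => ⟨by rw [abs_zero]; (clear * - hδ0 hlam hM1 hD1; positivity), ?_⟩⟩
            rw [h1, sub_self]
            exact (Typ.zero81 S c (B + 1) (Y + M) (γ - 1)).mono81 hD le_rfl le_rfl (by (clear * - hδ0 hlam hM1 hD1 hw0; positivity))
          · obtain ⟨Λ, _, hΛ, hΛ'⟩ := hgg g h1
            exact ⟨Λ, fun _ => ⟨hΛ, hΛ'⟩⟩
        · exact ⟨0, fun h' => absurd h' h⟩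
      choose L' hL' using hgg'
      set ε := δ ^ (3 * n + K3) * lam' with hε
      have hε0 : 0 ≤ ε := by (clear * - hδ0 hlam hM1 hD1; positivity)
      have hδ1' : δ ≤ 1 := by (clear * - hδ0 hδ1; linarith)
      refine ⟨(g0 :: t).toFinset.biUnion fun g =>
        (range M).filter fun h : ℕ => |L' g + (γ * L g / S.D) * h| < ε, ?_, ?_⟩
      · have hcard : ∀ g ∈ (g0 :: t).toFinset,
            (((range M).filter fun h : ℕ => |L' g + (γ * L g / S.D) * h| < ε).card : ℝ)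
              ≤ 2 * ε / (|γ| * (δ ^ n * lam) / S.D) + 1 := by
          intro g hgm
          rw [List.mem_toFinset] at hgm
          obtain ⟨h1, h2, h3⟩ := hL g hgm
          have hpos : 0 < |γ| * (δ ^ n * lam) / S.D := by (clear * - hγ hδ0 hlam hD1; positivity)
          have h4 : |γ| * (δ ^ n * lam) / S.D ≤ |γ * L g / S.D| := by
            rw [abs_div, abs_mul, abs_of_pos hD]
            exact div_le_div_of_nonneg_right (mul_le_mul_of_nonneg_left h1 hγ0.le) hD.le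
          refine (bad_card81 M (L' g) _ ε (hpos.trans_le h4) hε0).trans ?_
          have := div_le_div_of_nonneg_left (by (clear * - hδ0 hlam hM1 hD1; positivity) : 0 ≤ 2 * ε) hpos h4
          (clear * - this; linarith)
        exact by
          have h1 : ((((g0 :: t).toFinset.biUnion fun g =>
              (range M).filter fun h : ℕ => |L' g + (γ * L g / S.D) * h| < ε).card : ℕ) : ℝ)
              ≤ ∑ g ∈ (g0 :: t).toFinset,
                (((range M).filter fun h : ℕ => |L' g + (γ * L g / S.D) * h| < ε).card : ℝ) := by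
            exact_mod_cast Finset.card_biUnion_le
          refine h1.trans ((Finset.sum_le_sum hcard).trans ?_)
          rw [Finset.sum_const, nsmul_eq_mul]
          have h2 : (((g0 :: t).toFinset.card : ℕ) : ℝ) ≤ n := by
            exact_mod_cast (List.toFinset_card_le _).trans hlen
          have h3 : 0 ≤ 2 * ε / (|γ| * (δ ^ n * lam) / S.D) + 1 := by (clear * - hδ0 hlam hM1 hD1 hγ; positivity)
          refine (mul_le_mul_of_nonneg_right h2 h3).trans ?_
          have e1 : 2 * ε / (|γ| * (δ ^ n * lam) / S.D) = 2 * δ ^ (2 * n + K3) * M / |γ| := by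
            rw [hε, hlam']
            have : δ ^ (3 * n + K3) = δ ^ (2 * n + K3) * δ ^ n := by rw [← pow_add]; congr 1; ring
            rw [this]
            have := hδ0.ne'
            (clear * - hδ0 hlam hD1 hγ hM1; field_simp)
          rw [e1]
          have hd2 : 0 < δ ^ (2 * n) := by positivity
          have e2 : (n : ℝ) * (2 * δ ^ (2 * n + K3) * M / |γ|) ≤ δ ^ (2 * n) * M / 64 := by
            have h4 := hK3 δ hδ0 hδ1
            have h5 : 128 * n / |γ| * δ ^ K3 ≤ 1 := by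
              have := mul_le_mul_of_nonneg_right h4 (by positivity : 0 ≤ δ ^ K3)
              rwa [← mul_pow, inv_mul_cancel₀ hδ0.ne', one_pow] at this
            have h6 : (n : ℝ) * (2 * δ ^ (2 * n + K3) * M / |γ|)
                = (δ ^ (2 * n) * M / 64) * (128 * n / |γ| * δ ^ K3) := by
              rw [pow_add]; ring
            rw [h6]
            have : 0 ≤ δ ^ (2 * n) * M / 64 := by (clear * - hδ0 hM1; positivity)
            (clear * - hδ0 hδ1 h5 this; nlinarith)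
          exact by
            have e3 : (n : ℝ) ≤ δ ^ (2 * n) * M / 64 := by
              have h4 := hK4 δ hδ0 hδ1
              have h5 : (64 * n : ℝ) * δ⁻¹ ^ (2 * n) ≤ M := by
                refine (mul_le_mul_of_nonneg_right h4 (by positivity)).trans ?_
                rw [← pow_add]
                exact (pow_le_pow_right₀ hi (by omega)).trans hM
              have h6 := mul_le_mul_of_nonneg_left h5 hd2.le
              have h7 : δ ^ (2 * n) * ((64 * n : ℝ) * δ⁻¹ ^ (2 * n)) = 64 * n := by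
                rw [mul_left_comm, ← mul_pow, mul_inv_cancel₀ hδ0.ne', one_pow, mul_one]
              (clear * - h6 h7; linarith)
            have e4 : δ ^ (2 * n) * M / 32 = δ ^ (2 * n) * M / 64 + δ ^ (2 * n) * M / 64 := by ring
            rw [mul_add, mul_one, e4]
            exact add_le_add e2 e3
      · intro h hh1 hhM hbad g hgm
        exact by
          have hh0 : (0 : ℝ) ≤ h := Nat.cast_nonneg _
          have hhM' : (h : ℝ) ≤ M := by exact_mod_cast hhM.le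
          have hhD0 : 0 ≤ (h : ℝ) / S.D := div_nonneg hh0 hD.le
          have hhD : (h : ℝ) / S.D ≤ M / S.D := div_le_div_of_nonneg_right hhM' hD.le
          have hhw : (h : ℝ) / S.D ≤ w := hhD.trans hMw
          obtain ⟨a1, a2, a3⟩ := hL g hgm
          obtain ⟨b1, b2⟩ := hL' g hgm
          have hE0 : 0 ≤ δ⁻¹ ^ n * lam * w := by (clear * - hδ0 hlam hw0; positivity)
          exact by
            have d := (hC m S c hD1 hρ0 hρ1 Y M hYM g (L g) _ hE0 a3 h hhM).2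
            have b2' : Typ S c B Y (g - g0) (γ - 1) (L' g) (δ⁻¹ ^ n * lam' * w) :=
              b2.mono81 hD (Nat.le_succ _) (by (clear * - hδ0 hδ1 hM1; linarith)) le_rfl
            have e := b2'.add81 d
            have e0 : g - g0 + (tau h g - g) = tau h g - g0 := by abel
            rw [e0] at e
            refine ⟨_, ?_, ?_, e.mono81 hD le_rfl le_rfl ?_⟩
            · have h1 : ¬ |L' g + (γ * L g / S.D) * h| < ε := by
                intro hcon
                exact hbad (Finset.mem_biUnion.2 ⟨g, List.mem_toFinset.2 hgm,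
                  Finset.mem_filter.2 ⟨Finset.mem_range.2 hhM, hcon⟩⟩)
              push Not at h1
              have e2 : γ * L g / S.D * h = γ * L g * (h / S.D) := by ring
              rw [e2] at h1
              refine le_trans ?_ h1
              rw [hε]
              exact mul_le_mul_of_nonneg_right (pow_le_pow_of_le_one hδ0.le hδ1' (by omega)) hlam'0.le
            · have h1 : |γ * L g * (h / S.D)| ≤ |γ| * (δ⁻¹ ^ n * lam') := by
                rw [abs_mul, abs_mul, abs_of_nonneg hhD0, mul_assoc]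
                refine mul_le_mul_of_nonneg_left ?_ hγ0.le
                calc |L g| * (h / S.D) ≤ (δ⁻¹ ^ n * lam) * (M / S.D) :=
                      mul_le_mul a2 hhD hhD0 (by positivity)
                  _ = δ⁻¹ ^ n * lam' := by rw [hlam']; ring
              exact by
                refine (abs_add_le _ _).trans ?_
                have h2 := hK2 δ hδ0 hδ1
                have h3 : (1 + |γ|) * (δ⁻¹ ^ n * lam') ≤ δ⁻¹ ^ n' * lam' := by
                  have h4 : (1 + |γ|) * (δ⁻¹ ^ n * lam') ≤ δ⁻¹ ^ K2 * (δ⁻¹ ^ n * lam') :=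
                    mul_le_mul_of_nonneg_right h2 (by (clear * - hδ0 hlam hM1 hD1; positivity))
                  have h5 : δ⁻¹ ^ K2 * (δ⁻¹ ^ n * lam') = δ⁻¹ ^ (K2 + n) * lam' := by rw [pow_add]; ring
                  rw [h5] at h4
                  exact h4.trans (mul_le_mul_of_nonneg_right (pow_le_pow_right₀ hi (by omega)) hlam'0.le)
                have h4 : (1 + |γ|) * (δ⁻¹ ^ n * lam') = δ⁻¹ ^ n * lam' + |γ| * (δ⁻¹ ^ n * lam') := by ring
                (clear * - b1 h1 h3; linarith)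
            · have h1 : δ⁻¹ ^ n * lam * w * (h / S.D) ≤ δ⁻¹ ^ n * lam' * w := by
                have := mul_le_mul_of_nonneg_left hhD hE0
                refine this.trans (le_of_eq ?_)
                rw [hlam']; ring
              exact by
                have h2 : C * |L g| * (h / S.D) ^ 2 ≤ C * (δ⁻¹ ^ n * lam' * w) := by
                  have h3 : |L g| * (h / S.D) ^ 2 ≤ (δ⁻¹ ^ n * lam) * ((M / S.D) * w) := by
                    refine mul_le_mul a2 ?_ (by (clear * - hh1 hD1; positivity)) (by (clear * - hδ0 hlam; positivity))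
                    rw [pow_two]
                    exact mul_le_mul hhD hhw hhD0 (by (clear * - hM1 hD1; positivity))
                  have h4 := mul_le_mul_of_nonneg_left h3 (by (clear * - hC1 hδ0 hδ1; linarith) : 0 ≤ C)
                  have e1 : C * |L g| * (h / S.D) ^ 2 = C * (|L g| * (h / S.D) ^ 2) := by ring
                  rw [e1]
                  refine h4.trans (le_of_eq ?_)
                  rw [hlam']; ring
                have h3 : δ⁻¹ ^ n * lam' * w + (δ⁻¹ ^ n * lam * w * (h / S.D) + C * |L g| * (h / S.D) ^ 2)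
                    ≤ (2 + C) * (δ⁻¹ ^ n * lam' * w) := by
                  have : (2 + C) * (δ⁻¹ ^ n * lam' * w) = δ⁻¹ ^ n * lam' * w
                    + (δ⁻¹ ^ n * lam' * w + C * (δ⁻¹ ^ n * lam' * w)) := by ring
                  (clear * - h1 h2; linarith)
                refine h3.trans ?_
                have h4 : (2 + C) * (δ⁻¹ ^ n * lam' * w) ≤ δ⁻¹ ^ K1 * (δ⁻¹ ^ n * lam' * w) :=
                  mul_le_mul_of_nonneg_right (hK1 δ hδ0 hδ1) (by (clear * - hδ0 hlam hM1 hD1 hw0; positivity))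
                have h5 : δ⁻¹ ^ K1 * (δ⁻¹ ^ n * lam' * w) = δ⁻¹ ^ (K1 + n) * lam' * w := by
                  rw [pow_add]; ring
                rw [h5] at h4
                refine h4.trans ?_
                exact mul_le_mul_of_nonneg_right (mul_le_mul_of_nonneg_right
                  (pow_le_pow_right₀ hi (by omega)) hlam'0.le) hw0

end Types81

/-- one elimination step: outside a small bad set of shifts the invariants persist -/
theorem type_step (γ : ℝ) (hγ : γ ≠ 0) (n B : ℕ) : ∃ n' : ℕ, n ≤ n' ∧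
    ∀ (m : ℕ) (S : Sys m) (c : Fin m → ℝ) (δ Y lam w : ℝ) (M : ℕ), 1 ≤ S.D → 0 ≤ S.ρ → S.ρ ≤ 1 →
      0 < δ → δ ≤ 1 / 2 → 0 < lam → δ⁻¹ ^ n' ≤ M → (M : ℝ) / S.D ≤ w → w ≤ δ ^ n' →
      Y ≤ 3 * S.D →
      ∀ Lq Lg : List (Phi m), TG S c δ M n (B + 1) (Y + M) γ lam w Lq Lg → ∀ q ∈ Lq,
      ∃ Bad : Finset ℕ, (Bad.card : ℝ) ≤ δ ^ (2 * n) * M / 32 ∧
        ∀ h : ℕ, 1 ≤ h → h < M → h ∉ Bad →
          TG S c δ M n' B Y γ lam w
            (Lq.map (fun p => p - q) ++ Lq.map (fun p => tau h p - q))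
            (Lg.map (fun p => p - q) ++ Lg.map (fun p => tau h p - q)) := by
  obtain ⟨n1, hn1, H1⟩ := qpart81 γ n B
  obtain ⟨n2, hn2, H2⟩ := gpart81 γ hγ n B
  refine ⟨n1 + n2 + 3 * n + 1, by omega, ?_⟩
  intro m S c δ Y lam w M hD1 hρ0 hρ1 hδ0 hδ1 hlam hM hMw hwδ hY Lq Lg hT q hq
  set n' := n1 + n2 + 3 * n + 1 with hn'
  have hD : 0 < S.D := by (clear * - hD1 hδ0 hδ1; linarith)
  have hi : 1 ≤ δ⁻¹ := (one_le_inv₀ hδ0).2 (by (clear * - hδ0 hδ1; linarith))
  have hM0 : (0 : ℝ) ≤ M := Nat.cast_nonneg _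
  have hw0 : 0 ≤ w := (div_nonneg hM0 hD.le).trans hMw
  have hw1 : w ≤ 1 := hwδ.trans (pow_le_one₀ hδ0.le (by (clear * - hδ0 hδ1; linarith)))
  exact by
    have hlam' : 0 ≤ lam * M / S.D := by (clear * - hlam hD1; positivity)
    cases hLg : Lg with
    | nil => exact absurd hLg hT.ne
    | cons g0 t =>
      have hq0 : ∀ g ∈ g0 :: t, Tp S c δ n (B + 1) (Y + M) γ lam w g := by
        intro g hg
        have := hT.q g (by rw [hLg]; exact hg) 0 List.mem_cons_self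
        rwa [sub_zero] at this
      exact by
        obtain ⟨Bad, hBad, HB⟩ := H2 m S c δ Y lam w M hD1 hρ0 hρ1 hδ0 hδ1 hlam
          ((pow_le_pow_right₀ hi (by omega)).trans hM) hMw hw1 hY g0 t hq0 (hT.g g0 t hLg)
          (by rw [← hLg]; exact hT.lg)
        refine ⟨Bad, hBad, fun h hh1 hhM hbad => ?_⟩
        have HB' := HB h hh1 hhM hbad
        -- typed differences
        have T0 : ∀ g ∈ g0 :: t, ∀ p ∈ (0 : Phi m) :: Lq, Tp S c δ n' B Y γ lam w (g - p) := by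
          intro g hg p hp
          exact (hT.q g (by rw [hLg]; exact hg) p hp).mono81 hD hδ0 hδ1 hlam.le hw0 (by omega)
            (Nat.le_succ _) (by (clear * -; linarith))
        exact by
          have T1 : ∀ g ∈ g0 :: t, ∀ p ∈ (0 : Phi m) :: Lq,
              Tp S c δ n' B Y γ lam w (tau h g - p) ∧ Tp S c δ n' B Y γ lam w (g - tau h p) ∧
              Tp S c δ n' B Y γ lam w (tau h (g - p)) := by
            intro g hg p hp
            obtain ⟨h1, h2, h3⟩ := H1 m S c δ Y lam w M hD1 hρ0 hρ1 hδ0 hδ1 hlam hMw hw1 hY g p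
              (hq0 g hg) (hT.q g (by rw [hLg]; exact hg) p hp) h hhM
            exact ⟨h1.mono81 hD hδ0 hδ1 hlam.le hw0 (by omega) le_rfl le_rfl,
              h2.mono81 hD hδ0 hδ1 hlam.le hw0 (by omega) le_rfl le_rfl,
              h3.mono81 hD hδ0 hδ1 hlam.le hw0 (by omega) le_rfl le_rfl⟩
          have hqc : q ∈ (0 : Phi m) :: Lq := List.mem_cons_of_mem _ hq
          constructor
          · intro g' hg' p' hp'
            rw [List.mem_append, List.mem_map, List.mem_map] at hg'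
            rw [List.mem_cons, List.mem_append, List.mem_map, List.mem_map] at hp'
            rcases hg' with ⟨g, hg, rfl⟩ | ⟨g, hg, rfl⟩
            · rcases hp' with rfl | ⟨p, hp, rfl⟩ | ⟨p, hp, rfl⟩
              · rw [sub_zero]; exact T0 g hg q hqc
              · rw [sub_sub_sub_cancel_right]; exact T0 g hg p (List.mem_cons_of_mem _ hp)
              · rw [sub_sub_sub_cancel_right]; exact (T1 g hg p (List.mem_cons_of_mem _ hp)).2.1
            · rcases hp' with rfl | ⟨p, hp, rfl⟩ | ⟨p, hp, rfl⟩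
              · rw [sub_zero]; exact (T1 g hg q hqc).1
              · rw [sub_sub_sub_cancel_right]; exact (T1 g hg p (List.mem_cons_of_mem _ hp)).1
              · rw [sub_sub_sub_cancel_right, ← map_sub]
                exact (T1 g hg p (List.mem_cons_of_mem _ hp)).2.2
          · intro g0' t' ht' g' hg'
            rw [List.map_cons, List.cons_append, List.cons.injEq] at ht'
            obtain ⟨h1, h2⟩ := ht'
            rw [← h2, List.mem_append, List.mem_map, List.mem_map] at hg'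
            rw [← h1]
            rcases hg' with ⟨g, hg, rfl⟩ | ⟨g, hg, rfl⟩
            · rw [sub_sub_sub_cancel_right]
              exact (hT.g g0 t hLg g hg).mono81 hD hδ0 hδ1 hlam' hw0 (by omega) (Nat.le_succ _)
                (by (clear * -; linarith))
            · rw [sub_sub_sub_cancel_right]
              exact (HB' g hg).mono81 hD hδ0 hδ1 hlam' hw0 (by omega) le_rfl le_rfl
          · intro p' hp'
            rw [List.mem_append, List.mem_map, List.mem_map] at hp'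
            rcases hp' with ⟨p, hp, rfl⟩ | ⟨p, hp, rfl⟩
            · exact ((hT.bq p hp).sub (hT.bq q hq)).mono (by omega)
            · exact (((hT.bq p hp).tau hhM).sub (hT.bq q hq)).mono (by omega)
          · intro p' hp'
            rw [List.mem_append, List.mem_map, List.mem_map] at hp'
            rcases hp' with ⟨p, hp, rfl⟩ | ⟨p, hp, rfl⟩
            · exact ((hT.bg p (by rw [hLg]; exact hp)).sub (hT.bq q hq)).mono (by omega)
            · exact (((hT.bg p (by rw [hLg]; exact hp)).tau hhM).sub (hT.bq q hq)).mono (by omega)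
          · have := hT.lq
            rw [List.length_append, List.length_map, List.length_map]
            omega
          · have := hT.lg
            rw [hLg] at this
            rw [List.length_append, List.length_map, List.length_map]
            omega
          · simp

/-- the last step of a round -/
theorem type_final (γ : ℝ) (hγ : γ ≠ 0) (n B : ℕ) : ∃ n' : ℕ, n ≤ n' ∧
    ∀ (m : ℕ) (S : Sys m) (c : Fin m → ℝ) (δ Y lam w : ℝ) (M : ℕ), 1 ≤ S.D → 0 ≤ S.ρ → S.ρ ≤ 1 →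
      0 < δ → δ ≤ 1 / 2 → 0 < lam → δ⁻¹ ^ n' ≤ M → (M : ℝ) / S.D ≤ w → w ≤ δ ^ n' →
      Y ≤ 3 * S.D →
      ∀ (g0 : Phi m) (t : List (Phi m)), TG S c δ M n (B + 1) (Y + M) γ lam w [] (g0 :: t) →
      ∃ Bad : Finset ℕ, (Bad.card : ℝ) ≤ δ ^ (2 * n) * M / 32 ∧
        ∀ h : ℕ, 1 ≤ h → h < M → h ∉ Bad →
          Clu S c δ M n' B Y (γ - 1) (lam * M / S.D) w g0 (t ++ (g0 :: t).map (tau h)) := by
  obtain ⟨n2, hn2, H2⟩ := gpart81 γ hγ n B
  refine ⟨n2 + 3 * n + 1, by omega, ?_⟩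
  intro m S c δ Y lam w M hD1 hρ0 hρ1 hδ0 hδ1 hlam hM hMw hwδ hY g0 t hT
  set n' := n2 + 3 * n + 1 with hn'
  have hD : 0 < S.D := by (clear * - hD1 hδ0 hδ1; linarith)
  have hi : 1 ≤ δ⁻¹ := (one_le_inv₀ hδ0).2 (by (clear * - hδ0 hδ1; linarith))
  have hM0 : (0 : ℝ) ≤ M := Nat.cast_nonneg _
  have hw0 : 0 ≤ w := (div_nonneg hM0 hD.le).trans hMw
  have hw1 : w ≤ 1 := hwδ.trans (pow_le_one₀ hδ0.le (by (clear * - hδ0 hδ1; linarith)))
  have hlam' : 0 ≤ lam * M / S.D := by (clear * - hlam hD1; positivity)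
  have hq0 : ∀ g ∈ g0 :: t, Tp S c δ n (B + 1) (Y + M) γ lam w g := by
    intro g hg
    have := hT.q g hg 0 List.mem_cons_self
    rwa [sub_zero] at this
  obtain ⟨Bad, hBad, HB⟩ := H2 m S c δ Y lam w M hD1 hρ0 hρ1 hδ0 hδ1 hlam
    ((pow_le_pow_right₀ hi (by omega)).trans hM) hMw hw1 hY g0 t hq0 (hT.g g0 t rfl) hT.lg
  refine ⟨Bad, hBad, fun h hh1 hhM hbad => ?_⟩
  have HB' := HB h hh1 hhM hbad
  constructor
  · intro g' hg'
    rw [List.mem_append, List.mem_map] at hg'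
    rcases hg' with hg | ⟨g, hg, rfl⟩
    · exact (hT.g g0 t rfl g' hg).mono81 hD hδ0 hδ1 hlam' hw0 (by omega) (Nat.le_succ _)
        (by (clear * -; linarith))
    · exact (HB' g hg).mono81 hD hδ0 hδ1 hlam' hw0 (by omega) le_rfl le_rfl
  · exact (hT.bg g0 List.mem_cons_self).mono (by omega)
  · intro g' hg'
    rw [List.mem_append, List.mem_map] at hg'
    rcases hg' with hg | ⟨g, hg, rfl⟩
    · exact (hT.bg g' (List.mem_cons_of_mem _ hg)).mono (by omega)
    · exact ((hT.bg g hg).tau hhM).mono (by omega)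
  · simp
  · have := hT.lg
    simp only [List.length_cons] at this
    simp only [List.length_append, List.length_map, List.length_cons]
    omega

end

end Pool.Agent.Helper57.NX

end

section

set_option autoImplicit false

open Finset

open scoped BigOperators ComplexConjugate

namespace Pool.Agent.Helper67.NX2

open Pool.Agent.Helper57.NX

noncomputable section

theorem r94_Env_mono {m N M R n n' : ℕ} {S : Sys m} {δ w : ℝ} (h : Env S N δ M R w n')
    (hn : n ≤ n') : Env S N δ M R w n where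
  ρ0 := h.ρ0
  ρ1 := h.ρ1
  D1 := h.D1
  δ0 := h.δ0
  δ1 := h.δ1
  u1 := h.u1
  u2 := h.u2
  MT := h.MT.trans (mul_le_mul_of_nonneg_right (r94_pow_anti h.δ0 h.δ1 hn) (Nat.cast_nonneg _))
  M1 := (r94_pow_inv_mono h.δ0 h.δ1 hn).trans h.M1
  MD := h.MD
  w1 := h.w1.trans (r94_pow_anti h.δ0 h.δ1 hn)
  P0 := h.P0
  PR := h.PR
  wQ := h.wQ
  QN := h.QN

theorem r94_Tp_mono {m : ℕ} {S : Sys m} {c : Fin m → ℝ} {δ Y Y' γ lam w : ℝ}
    {n n' B B' : ℕ} {p : Phi m} (h : Tp S c δ n B Y γ lam w p) (h0 : 0 < δ) (h1 : δ ≤ 1 / 2)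
    (hD : 0 < S.D)
    (hl : 0 ≤ lam) (hw : 0 ≤ w) (hn : n ≤ n') (hB : B' ≤ B) (hY : Y' ≤ Y) :
    Tp S c δ n' B' Y' γ lam w p := by
  obtain ⟨Λ, h2, h3, h4⟩ := h
  refine ⟨Λ, ?_, ?_, ?_⟩
  · exact (mul_le_mul_of_nonneg_right (r94_pow_anti h0 h1 hn) hl).trans h2
  · exact h3.trans (mul_le_mul_of_nonneg_right (r94_pow_inv_mono h0 h1 hn) hl)
  · intro b hb y hy1 hy2
    refine (h4 b (hb.trans hB) y hy1 (hy2.trans hY)).trans ?_
    gcongr ?_ / _
    have := r94_pow_inv_mono h0 h1 hn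
    (clear * - this hl hw; gcongr)

theorem r94_Clu_mono {m M : ℕ} {S : Sys m} {c : Fin m → ℝ} {δ Y Y' γ lam w : ℝ}
    {n n' B B' : ℕ} {g0 : Phi m} {t : List (Phi m)} (h : Clu S c δ M n B Y γ lam w g0 t)
    (h0 : 0 < δ) (h1 : δ ≤ 1 / 2)
    (hD : 0 < S.D)
    (hl : 0 ≤ lam) (hw : 0 ≤ w) (hn : n ≤ n') (hB : B' ≤ B) (hY : Y' ≤ Y) :
    Clu S c δ M n' B' Y' γ lam w g0 t where
  g := fun g hg => r94_Tp_mono (h.g g hg) h0 h1 hD hl hw hn hB hY
  b0 := h.b0.mono hn
  bt := fun g hg => (h.bt g hg).mono hn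
  ne := h.ne
  le := h.le.trans hn

theorem r94_lform_perm {m N : ℕ} [NeZero N] (S : Sys m) (c : Fin m → ℝ)
    (F0 : ZMod N → ℂ) {L L' : List ((ZMod N → ℂ) × Phi m)} (h : L.Perm L') :
    lform S c F0 L = lform S c F0 L' := by
  unfold lform
  refine Finset.expect_congr rfl fun k _ => Finset.expect_congr rfl fun x _ => ?_
  congr 1
  exact (h.map _).prod_eq

theorem r94_merge1 {m N : ℕ} [NeZero N] (S : Sys m) (c : Fin m → ℝ) (B E : ℝ)
    (F0 : ZMod N → ℂ) (hF0 : ∀ x, ‖F0 x‖ ≤ 1)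
    (L : List ((ZMod N → ℂ) × Phi m)) (hL : ∀ fp ∈ L, ∀ x, ‖fp.1 x‖ ≤ 1)
    (hQ : 1 ≤ S.Q) (f : ZMod N → ℂ) (hf : Adm B S.Q f) (p : Phi m) (hE0 : 0 ≤ E)
    (hE : ∀ k ∈ S.I, |(ev (S.a c) p k : ℝ)| ≤ E) :
    ‖lform S c F0 ((f, p) :: L) - lform S c (fun x => F0 x * f x) L‖
      ≤ E * B * (1 / S.Q + 1 / N) := by
  have hB : 0 ≤ B := hf.tv.nonneg
  have hQ' : (0 : ℝ) < S.Q := by exact_mod_cast hQ
  have hR : 0 ≤ E * B * (1 / (S.Q : ℝ) + 1 / N) := by (clear * - hE0 hB hQ; positivity)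
  unfold lform
  rw [← Finset.expect_sub_distrib]
  refine norm_expect_le_of5 _ _ hR fun k hk => ?_
  rw [← Finset.expect_sub_distrib]
  refine (norm_expect_le5 _ _).trans ?_
  calc 𝔼 x, ‖F0 x * (List.map (fun fp => fp.1 (x + (ev (S.a c) fp.2 k : ZMod N)))
          ((f, p) :: L)).prod - F0 x * f x * (List.map
            (fun fp => fp.1 (x + (ev (S.a c) fp.2 k : ZMod N))) L).prod‖
      ≤ 𝔼 x, ‖f (x + (ev (S.a c) p k : ZMod N)) - f x‖ := by
        refine Finset.expect_le_expect fun x _ => ?_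
        have h1 : F0 x * (List.map (fun fp => fp.1 (x + (ev (S.a c) fp.2 k : ZMod N)))
          ((f, p) :: L)).prod - F0 x * f x * (List.map
            (fun fp => fp.1 (x + (ev (S.a c) fp.2 k : ZMod N))) L).prod
            = (f (x + (ev (S.a c) p k : ZMod N)) - f x) * (F0 x * (List.map
            (fun fp => fp.1 (x + (ev (S.a c) fp.2 k : ZMod N))) L).prod) := by
          rw [List.map_cons, List.prod_cons]; ring
        rw [h1, norm_mul]
        refine mul_le_of_le_one_right (norm_nonneg _) ?_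
        rw [norm_mul]
        exact mul_le_one₀ (hF0 x) (norm_nonneg _) (r94_norm_prod _ _ fun fp hfp => hL fp hfp _)
    _ ≤ |((ev (S.a c) p k : ℤ) : ℝ)| * B * (1 / S.Q + 1 / N) := hf.tv.l1_shift hQ' _
    _ ≤ E * B * (1 / S.Q + 1 / N) := by
        have := hE k hk
        (clear * - this hB hQ; gcongr)

theorem r94_merge {m N : ℕ} [NeZero N] (S : Sys m) (c : Fin m → ℝ) (B E : ℝ)
    (pr : (ZMod N → ℂ) × Phi m → Bool)
    (hQ : 1 ≤ S.Q) (hE0 : 0 ≤ E) (hB : 0 ≤ B)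
    (Lq : List ((ZMod N → ℂ) × Phi m)) : ∀ (Lg : List ((ZMod N → ℂ) × Phi m)) (F0 : ZMod N → ℂ),
    (∀ x, ‖F0 x‖ ≤ 1) → (∀ fp ∈ Lg, ∀ x, ‖fp.1 x‖ ≤ 1) →
    (∀ fp ∈ Lq, Adm B S.Q fp.1) →
    (∀ fp ∈ Lq, pr fp = false → ∀ k ∈ S.I, |(ev (S.a c) fp.2 k : ℝ)| ≤ E) →
    ∃ F0' : ZMod N → ℂ, (∀ x, ‖F0' x‖ ≤ 1) ∧
    ‖lform S c F0 (Lq ++ Lg) - lform S c F0' (Lq.filter pr ++ Lg)‖
      ≤ Lq.length * (E * B * (1 / S.Q + 1 / N)) := by
  have hQ' : (0 : ℝ) < S.Q := by exact_mod_cast hQ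
  have hR : 0 ≤ E * B * (1 / (S.Q : ℝ) + 1 / N) := by (clear * - hE0 hB hQ; positivity)
  induction Lq with
  | nil =>
    intro Lg F0 hF0 hLg _ _
    exact ⟨F0, hF0, by simp⟩
  | cons fp Lq ih =>
    intro Lg F0 hF0 hLg hLq hE
    obtain ⟨f, p⟩ := fp
    have hf : Adm B S.Q f := hLq (f, p) (by simp)
    cases hp : pr (f, p) with
    | true =>
      obtain ⟨F0', h1, h2⟩ := ih ((f, p) :: Lg) F0 hF0
        (fun fp hfp => by
          rcases List.mem_cons.1 hfp with h | h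
          · rw [h]; exact hf.bdd
          · exact hLg fp h)
        (fun fp hfp => hLq fp (by simp [hfp])) (fun fp hfp => hE fp (by simp [hfp]))
      refine ⟨F0', h1, ?_⟩
      rw [List.filter_cons_of_pos hp]
      rw [r94_lform_perm S c F0 (L := ((f, p) :: Lq) ++ Lg) (L' := Lq ++ (f, p) :: Lg)
        (by simpa using (List.perm_middle (l₁ := Lq) (l₂ := Lg) (a := (f, p))).symm)]
      rw [r94_lform_perm S c F0' (L := ((f, p) :: Lq.filter pr) ++ Lg)
        (L' := Lq.filter pr ++ (f, p) :: Lg)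
        (by simpa using (List.perm_middle (l₁ := Lq.filter pr) (l₂ := Lg) (a := (f, p))).symm)]
      refine h2.trans ?_
      rw [List.length_cons]
      push_cast
      (clear * - hR; nlinarith)
    | false =>
      obtain ⟨F0', h1, h2⟩ := ih Lg (fun x => F0 x * f x)
        (fun x => by
          rw [norm_mul]
          exact mul_le_one₀ (hF0 x) (norm_nonneg _) (hf.bdd x)) hLg
        (fun fp hfp => hLq fp (by simp [hfp])) (fun fp hfp => hE fp (by simp [hfp]))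
      refine ⟨F0', h1, ?_⟩
      rw [List.filter_cons_of_neg (by simp [hp])]
      have h3 := r94_merge1 S c B E F0 hF0 (Lq ++ Lg)
        (fun fp hfp => by
          rcases List.mem_append.1 hfp with h | h
          · exact (hLq fp (by simp [h])).bdd
          · exact hLg fp h) hQ f hf p hE0 (hE (f, p) (by simp) hp)
      rw [List.cons_append]
      calc _ ≤ ‖lform S c F0 ((f, p) :: (Lq ++ Lg)) - lform S c (fun x => F0 x * f x) (Lq ++ Lg)‖
            + ‖lform S c (fun x => F0 x * f x) (Lq ++ Lg) -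
              lform S c F0' (Lq.filter pr ++ Lg)‖ := norm_sub_le_norm_sub_add_norm_sub _ _ _
        _ ≤ _ := by
          rw [List.length_cons]
          push_cast
          (clear * - h2 h3; linarith)

theorem r94_ev {m : ℕ} (c : Fin m → ℝ) (n R : ℕ) : ∃ C : ℝ, 0 < C ∧
    ∀ (S : Sys m) (N : ℕ) (δ w : ℝ) (M : ℕ), Env S N δ M R w n →
    ∀ p : Phi m, Bd M n p → p ∈ (VV R : AddSubgroup (Phi m)) →
    ∀ k ∈ S.I, |(ev (S.a c) p k : ℝ)| ≤ C * (w * S.Q) := by
  obtain ⟨C, hC, h⟩ := ev_small c n R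
  refine ⟨2 * C, by positivity, ?_⟩
  intro S N δ w M hE p hp hV k hk
  have hD : 0 < S.D := by (clear * - hE; linarith [hE.D1])
  have hnM : n * (M : ℝ) ≤ S.D := by
    have h1 : (M : ℝ) / S.D ≤ δ ^ n := hE.MD.trans hE.w1
    rw [div_le_iff₀ hD] at h1
    have h2 : (n : ℝ) * δ ^ n ≤ 1 := by
      have h3 : δ ^ n ≤ (1 / 2) ^ n := pow_le_pow_left₀ hE.δ0.le hE.δ1 n
      have h4 : (n : ℝ) ≤ 2 ^ n := by exact_mod_cast Nat.lt_two_pow_self.le
      calc (n : ℝ) * δ ^ n ≤ 2 ^ n * (1 / 2) ^ n := by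
            have := pow_nonneg hE.δ0.le n
            (clear * - h4 h3 this; gcongr)
        _ = 1 := by rw [← mul_pow]; norm_num
    calc n * (M : ℝ) ≤ n * (δ ^ n * S.D) := by (clear * - h1; gcongr)
      _ = (n * δ ^ n) * S.D := by ring
      _ ≤ 1 * S.D := by gcongr
      _ = S.D := one_mul _
  obtain ⟨Pm, hP0, hP1, hP2⟩ : ∃ Pm : ℝ, 0 ≤ Pm ∧ (∀ i, 0 ≤ S.P i ∧ S.P i ≤ Pm) ∧
      Pm * ((M : ℝ) / S.D) ^ R ≤ w * S.Q := by
    rcases isEmpty_or_nonempty (Fin m) with hm | hm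
    · refine ⟨0, le_rfl, fun i => (hm.false i).elim, ?_⟩
      rw [zero_mul]
      (clear * - hE; linarith [hE.wQ])
    · obtain ⟨i0, hi0⟩ := Finite.exists_max S.P
      exact ⟨S.P i0, hE.P0 i0, fun i => ⟨hE.P0 i, hi0 i⟩, hE.PR i0⟩
  rw [Sys.I, Finset.mem_Ico] at hk
  have hk1 : (S.u : ℝ) ≤ k := by exact_mod_cast hk.1
  have hk2 : (k : ℝ) ≤ S.u + S.T := by exact_mod_cast hk.2.le
  have := h S M Pm hP0 hE.D1 hE.ρ0 hE.ρ1 hnM hP1 p hp hV k (hE.u1.trans hk1)
    (by (clear * - hD hk2 hE; linarith [hE.u2]))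
  refine this.trans ?_
  have h5 := hE.wQ
  (clear * - hC hP2 h5; nlinarith)

/-- merging the negligible elements -/
theorem r94_merge2 {m : ℕ} (c : Fin m → ℝ) (n R : ℕ) : ∃ n' : ℕ, n ≤ n' ∧
    ∀ (S : Sys m) (N : ℕ) [NeZero N] (δ w : ℝ) (M : ℕ), Env S N δ M R w n' →
    ∀ (Lq Lg : List ((ZMod N → ℂ) × Phi m)) (F0 : ZMod N → ℂ) (pr : (ZMod N → ℂ) × Phi m → Bool),
    (∀ fp : (ZMod N → ℂ) × Phi m, pr fp = false ↔ fp.2 ∈ (VV R : AddSubgroup (Phi m))) →
    (∀ x, ‖F0 x‖ ≤ 1) → (∀ fp ∈ Lg, ∀ x, ‖fp.1 x‖ ≤ 1) →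
    (∀ fp ∈ Lq, Adm (δ⁻¹ ^ n) S.Q fp.1) → (∀ fp ∈ Lq, Bd M n fp.2) → Lq.length ≤ n →
    δ ^ n ≤ ‖lform S c F0 (Lq ++ Lg)‖ →
    ∃ F0' : ZMod N → ℂ, (∀ x, ‖F0' x‖ ≤ 1) ∧
      δ ^ n' ≤ ‖lform S c F0' (Lq.filter pr ++ Lg)‖ := by
  obtain ⟨C, hC, h⟩ := r94_ev c n R
  obtain ⟨e, he⟩ := r94_pow_ge (4 * n * C)
  refine ⟨2 * n + e + 1, by omega, ?_⟩
  intro S N _ δ w M hE Lq Lg F0 pr hpr hF0 hLg hLq hBd hlen hδ
  have hδ0 := hE.δ0
  have hδ1 := hE.δ1
  have hE' : Env S N δ M R w n := r94_Env_mono hE (by omega)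
  have hwQ := hE.wQ
  have hQ0 : (0 : ℝ) < S.Q := by
    rcases (Nat.cast_nonneg S.Q : (0 : ℝ) ≤ S.Q).eq_or_lt with h0 | h0
    · rw [← h0, mul_zero] at hwQ; linarith
    · exact h0
  have hQ1 : 1 ≤ S.Q := by exact_mod_cast Nat.cast_pos.1 hQ0
  exact by
    have hw0 : 0 < w := by
      by_contra h0
      have : w * S.Q ≤ 0 := mul_nonpos_of_nonpos_of_nonneg (not_lt.1 h0) hQ0.le
      (clear * - hδ0 hδ1 hwQ this; linarith)
    obtain ⟨F0', h1, h2⟩ := r94_merge S c (δ⁻¹ ^ n) (C * (w * S.Q)) pr hQ1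
      (by (clear * - hC hw0 hQ1; positivity)) (by positivity) Lq Lg F0 hF0 hLg hLq
      (fun fp hfp hp k hk => h S N δ w M hE' fp.2 (hBd fp hfp) ((hpr fp).1 hp) k hk)
    refine ⟨F0', h1, ?_⟩
    have hNpos : (0 : ℝ) < N := by
      have := NeZero.pos N
      exact_mod_cast this
    have h3 : (Lq.length : ℝ) * (C * (w * S.Q) * δ⁻¹ ^ n * (1 / S.Q + 1 / N)) ≤ δ ^ n / 2 := by
      have h4 : (1 : ℝ) / S.Q + 1 / N ≤ 2 / S.Q := by
        have : (1 : ℝ) / N ≤ 1 / S.Q := one_div_le_one_div_of_le hQ0 hE.QN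
        calc (1 : ℝ) / S.Q + 1 / N ≤ 1 / S.Q + 1 / S.Q := by (clear * - this; linarith)
          _ = 2 / S.Q := by ring
      have h5 : (Lq.length : ℝ) ≤ n := by exact_mod_cast hlen
      calc (Lq.length : ℝ) * (C * (w * S.Q) * δ⁻¹ ^ n * (1 / S.Q + 1 / N))
          ≤ n * (C * (w * S.Q) * δ⁻¹ ^ n * (2 / S.Q)) := by (clear * - h5 h4 hC hw0 hQ1 hδ0 hNpos; gcongr)
        _ = 2 * n * C * w * δ⁻¹ ^ n := by (clear * - hQ1 hδ0 hw0 hC; field_simp)
        _ ≤ 2 * n * C * δ ^ (2 * n + e + 1) * δ⁻¹ ^ n := by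
            have := hE.w1
            (clear * - this hC hδ0; gcongr)
        _ = (4 * n * C) * (δ ^ e * δ ^ n * δ) / 2 := by
            rw [show 2 * n + e + 1 = n + e + n + 1 by ring, pow_succ, pow_add, pow_add]
            have : δ ^ n * δ⁻¹ ^ n = 1 := by
              rw [← mul_pow, mul_inv_cancel₀ hδ0.ne', one_pow]
            linear_combination (2 * n * C * δ ^ e * δ ^ n * δ) * this
        _ ≤ δ⁻¹ ^ e * (δ ^ e * δ ^ n * δ) / 2 := by
            have := he δ hδ0 hδ1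
            gcongr
        _ = δ ^ n * δ / 2 := by
            have : δ⁻¹ ^ e * δ ^ e = 1 := by
              rw [← mul_pow, inv_mul_cancel₀ hδ0.ne', one_pow]
            linear_combination (δ ^ n * δ / 2) * this
        _ ≤ δ ^ n / 2 := by
            have : δ ^ n * δ ≤ δ ^ n * 1 := by
              have := pow_pos hδ0 n
              gcongr
              (clear * - hδ0 hδ1; linarith)
            (clear * - this; linarith)
    have h6 : ‖lform S c F0 (Lq ++ Lg)‖ ≤ ‖lform S c F0' (Lq.filter pr ++ Lg)‖ +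
        ‖lform S c F0 (Lq ++ Lg) - lform S c F0' (Lq.filter pr ++ Lg)‖ := by
      have := norm_sub_norm_le (lform S c F0 (Lq ++ Lg)) (lform S c F0' (Lq.filter pr ++ Lg))
      (clear * - this; linarith)
    have h7 : δ ^ (2 * n + e + 1) ≤ δ ^ n / 2 := by
      calc δ ^ (2 * n + e + 1) ≤ δ ^ (n + 1) := r94_pow_anti hδ0 hδ1 (by omega)
        _ = δ ^ n * δ := pow_succ _ _
        _ ≤ δ ^ n * (1 / 2) := by
            have := pow_pos hδ0 n
            (clear * - hδ1 hδ0; gcongr)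
        _ = δ ^ n / 2 := by ring
    (clear * - hδ h2 h3 h6 h7; linarith)

/-- sizes needed for `lform_step` -/
theorem r94_step_sizes {m N M R n : ℕ} {S : Sys m} {δ w : ℝ}
    (hE : Env S N δ M R w (2 * n + 6)) :
    0 < δ ^ n ∧ δ ^ n ≤ 1 ∧ 16 / (δ ^ n) ^ 2 ≤ M ∧ (M : ℝ) ≤ (δ ^ n) ^ 2 * S.T / 64 := by
  have hδ0 := hE.δ0
  have hδ1 := hE.δ1
  refine ⟨pow_pos hδ0 n, pow_le_one₀ hδ0.le (by linarith), ?_, ?_⟩
  · have h1 := (r94_Env_mono hE (show 2 * n + 4 ≤ 2 * n + 6 by omega)).M1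
    refine le_trans ?_ h1
    have h2 : (16 : ℝ) ≤ δ⁻¹ ^ 4 := by
      have := pow_le_pow_left₀ (by norm_num) (r94_inv_one hδ0 hδ1) 4
      norm_num at this ⊢
      (clear * - this; linarith)
    rw [div_eq_mul_inv, pow_add, ← pow_mul, mul_comm n 2, ← inv_pow, mul_comm]
    have := pow_pos (inv_pos.2 hδ0) (2 * n)
    (clear * - h2 hδ0; gcongr)
  · refine hE.MT.trans ?_
    have h2 : δ ^ 6 ≤ 1 / 64 := by
      have := pow_le_pow_left₀ hδ0.le hδ1 6
      norm_num at this ⊢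
      (clear * - this; linarith)
    have h3 : (0 : ℝ) ≤ S.T := Nat.cast_nonneg _
    have h4 := pow_pos hδ0 (2 * n)
    calc δ ^ (2 * n + 6) * (S.T : ℝ) = δ ^ (2 * n) * δ ^ 6 * S.T := by rw [pow_add]
      _ ≤ δ ^ (2 * n) * (1 / 64) * S.T := by (clear * - h2 hδ0; gcongr)
      _ = (δ ^ n) ^ 2 * S.T / 64 := by rw [← pow_mul, mul_comm n 2]; ring

/-- the conclusion of a round -/
def Concl {m N : ℕ} [NeZero N] (S : Sys m) (c : Fin m → ℝ) (δ : ℝ) (M n B : ℕ)
    (Y γ lam w : ℝ) (b : ℕ) (fs : ZMod N → ℂ) (l : ℕ) : Prop :=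
  ∃ (g0' : Phi m) (t' : List ((ZMod N → ℂ) × Phi m)),
    (∀ fp ∈ t', fp.1 = fs ∨ fp.1 = fun x => conj (fs x)) ∧ t'.length + 1 ≤ l ∧
    Clu S c δ M n B Y (γ - 1) (lam * M / S.D) w g0' (t'.map Prod.snd) ∧
    (∀ fp ∈ t', fp.2 - g0' ∈ (VV (b + 1) : AddSubgroup (Phi m))) ∧
    δ ^ n ≤ ‖lform S c 1 ((fs, g0') :: t')‖

/-- the invariant of the filtration -/
structure InvV {m : ℕ} {F : Type} (b : ℕ) (Lq : List (F × Phi m)) (g0 : Phi m)
    (tg : List (F × Phi m)) : Prop where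
  q : ∀ fp ∈ Lq, fp.2 ∈ (VV b : AddSubgroup (Phi m))
  h0 : g0 ∈ (VV b : AddSubgroup (Phi m))
  d : ∀ fp ∈ tg, fp.2 - g0 ∈ (VV (b + 1) : AddSubgroup (Phi m))

theorem InvV.g {m : ℕ} {F : Type} {b : ℕ} {Lq : List (F × Phi m)} {g0 : Phi m}
    {tg : List (F × Phi m)} (h : InvV b Lq g0 tg) (fp : F × Phi m) (hfp : fp ∈ tg) :
    fp.2 ∈ (VV b : AddSubgroup (Phi m)) := by
  have h1 := VV_antitone (m := m) (Nat.le_succ b) (h.d fp hfp)
  have h2 := add_mem h1 h.h0
  rwa [sub_add_cancel] at h2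

theorem r94_Env_w {m N M R n : ℕ} {S : Sys m} {δ w : ℝ} (hE : Env S N δ M R w n) :
    0 < w := by
  have hwQ := hE.wQ
  by_contra h0
  have : w * S.Q ≤ 0 := mul_nonpos_of_nonpos_of_nonneg (not_lt.1 h0) (Nat.cast_nonneg _)
  linarith

end

end Pool.Agent.Helper67.NX2

end
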