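import Pool.Agent.Helper23.MC.L00_a1
import Pool.Agent.Helper23.MC.L00_a10
import Pool.Agent.Helper23.MC.L00_a11
import Pool.Agent.Helper23.MC.L00_a12
import Pool.Agent.Helper23.MC.L00_a13
import Pool.Agent.Helper23.MC.L00_a3
import Pool.Agent.Helper23.MC.L00_a7
import Pool.Agent.Helper23.MC.L00_a8
import Pool.Agent.Helper23.MC.L00_a9

/-!
Parts of Helper61.NX.PatA, Helper21.NX2.ThmPOf, Helper79.NX2.Freeze, Helper14.NX2.LocalThm, Helper90.NX2.LocalAux, Helper90.NX2.LocalMainOf, Helper57.NX3.PatBlk, Helper57.NX3.PatHwin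
-/

attribute [local instance 5000]
  Pool.Agent.Helper23.MC.Inst.rCharZero Pool.Agent.Helper23.MC.Inst.rALM
  Pool.Agent.Helper23.MC.Inst.rARM Pool.Agent.Helper23.MC.Inst.rALSM
  Pool.Agent.Helper23.MC.Inst.rARSM Pool.Agent.Helper23.MC.Inst.rARRLE
  Pool.Agent.Helper23.MC.Inst.rALRLE Pool.Agent.Helper23.MC.Inst.rARRLT
  Pool.Agent.Helper23.MC.Inst.rALRLT Pool.Agent.Helper23.MC.Inst.rPMRLT
  Pool.Agent.Helper23.MC.Inst.rMPRLT Pool.Agent.Helper23.MC.Inst.rPMM
  Pool.Agent.Helper23.MC.Inst.rMPM Pool.Agent.Helper23.MC.Inst.rPMSM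
  Pool.Agent.Helper23.MC.Inst.rMPSM Pool.Agent.Helper23.MC.Inst.rEAOL
  Pool.Agent.Helper23.MC.Inst.rIOR Pool.Agent.Helper23.MC.Inst.rISOR
  Pool.Agent.Helper23.MC.Inst.rNZD Pool.Agent.Helper23.MC.Inst.rcCharZero
  Pool.Agent.Helper23.MC.Inst.rcNZD Pool.Agent.Helper23.MC.Inst.zCharZero
  Pool.Agent.Helper23.MC.Inst.zALM Pool.Agent.Helper23.MC.Inst.zARM
  Pool.Agent.Helper23.MC.Inst.zALSM Pool.Agent.Helper23.MC.Inst.zARSM
  Pool.Agent.Helper23.MC.Inst.zIOR Pool.Agent.Helper23.MC.Inst.zISOR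
  Pool.Agent.Helper23.MC.Inst.zNZD Pool.Agent.Helper23.MC.Inst.qCharZero
  Pool.Agent.Helper23.MC.Inst.mR Pool.Agent.Helper23.MC.Inst.mC Pool.Agent.Helper23.MC.Inst.mRC
  Pool.Agent.Helper23.MC.Inst.rPSM Pool.Agent.Helper23.MC.Inst.rCSM
  Pool.Agent.Helper23.MC.Inst.cAdd Pool.Agent.Helper23.MC.Inst.cAddM
  Pool.Agent.Helper23.MC.Inst.cMul Pool.Agent.Helper23.MC.Inst.cMon

namespace Pool.Agent.Helper57.NX
end Pool.Agent.Helper57.NX

section

set_option autoImplicit false

open Finset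

open scoped BigOperators ComplexConjugate

namespace Pool.Agent.Helper57.NX

noncomputable section

section TVs

variable {N : ℕ} [NeZero N]

theorem tv_of_jumps {Q : ℕ} (hQ : 0 < Q) (hQN : Q ∣ N) (R : Finset ℕ) (g : ZMod N → ℂ)
    (hg : ∀ x, ‖g x‖ ≤ 1) (hj : ∀ x : ZMod N, x.val % Q ∉ R → g (x + 1) = g x) :
    TV (2 * R.card) Q g := by
  intro x l
  have h0 : ∀ j : ℕ, (x + (j : ZMod N)).val % Q = (x.val + j) % Q := by
    intro j
    rw [ZMod.val_add, ZMod.val_natCast, Nat.mod_mod_of_dvd _ hQN, Nat.add_mod,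
      Nat.mod_mod_of_dvd _ hQN, ← Nat.add_mod]
  have h1 : ∀ j ∈ range l, ‖g (x + (j : ZMod N) + 1) - g (x + (j : ZMod N))‖ ≤
      ∑ r ∈ R, if (x.val + j) % Q = r then (2 : ℝ) else 0 := by
    intro j _
    by_cases h2 : (x.val + j) % Q ∈ R
    · rw [Finset.sum_ite_eq, if_pos h2]
      refine (norm_sub_le _ _).trans ?_
      linarith [hg (x + (j : ZMod N) + 1), hg (x + (j : ZMod N))]
    · rw [← h0] at h2
      rw [hj _ h2, sub_self, norm_zero]
      exact Finset.sum_nonneg fun r _ => by split_ifs <;> norm_num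
  refine (Finset.sum_le_sum h1).trans ?_
  rw [Finset.sum_comm]
  calc ∑ r ∈ R, ∑ j ∈ range l, (if (x.val + j) % Q = r then (2 : ℝ) else 0)
      ≤ ∑ _r ∈ R, 2 * ((l : ℝ) / Q + 1) := by
        refine Finset.sum_le_sum fun r _ => ?_
        rw [← Finset.sum_filter, Finset.sum_const, nsmul_eq_mul, mul_comm]
        exact mul_le_mul_of_nonneg_left (count_mod x.val l Q r hQ) (by norm_num)
    _ = _ := by
        rw [Finset.sum_const, nsmul_eq_mul]
        ring

end TVs

end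

end Pool.Agent.Helper57.NX

end

section

set_option autoImplicit false

open Finset

open scoped BigOperators ComplexConjugate

namespace Pool.Agent.Helper67.NX2

open Pool.Agent.Helper57.NX

noncomputable section

theorem lift_adm21 {N : ℕ} [NeZero N] (Q p : ℕ) (hN : N = Q * p) (f : ℤ → ℂ)
    (hf : ∀ x, ‖f x‖ ≤ 1) : Adm 2 Q (lift21 (N := N) Q f) := by
  have hN0 : N ≠ 0 := NeZero.ne N
  have hQ0 : 0 < Q := Nat.pos_of_ne_zero fun h => hN0 (by rw [hN, h, zero_mul])
  refine ⟨fun x => hf _, ?_⟩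
  have h1 := tv_of_jumps hQ0 ⟨p, hN⟩ {Q - 1} (lift21 (N := N) Q f) (fun x => hf _) (by
    intro x hx
    rw [Finset.mem_singleton] at hx
    obtain ⟨h2, h3⟩ := val_succ hQ0 ⟨p, hN⟩ x hx
    change f (((x + 1).val / Q : ℕ) : ℤ) = f ((x.val / Q : ℕ) : ℤ)
    rw [h2, (div_succ h3).1])
  simpa using h1

end

end Pool.Agent.Helper67.NX2

end

section

set_option autoImplicit false

open Finset

open scoped BigOperators

namespace Pool.Agent.Helper67.NX2

open Pool.Agent.Helper57.NX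

noncomputable section

theorem freeze (s : ℕ) (d : Fin (s + 1) → ℕ) (hd2 : ∀ i, 2 ≤ d i) (γ ε : ℝ) (hγ : 1 ≤ γ)
    (hγd : ∀ i, γ ≤ d i) (hε : 0 < ε) (hε' : ε ≤ 1 / 8) :
    ∃ σ : ℝ, 0 < σ ∧ ∃ D0 : ℝ, ∀ (D V : ℝ) (K M u T z : ℕ) [NeZero M], D0 ≤ D → 1 ≤ K →
    (K : ℝ) ≤ D ^ σ → (M : ℝ) ≤ D ^ σ → 1 ≤ V → V ≤ D ^ σ → D ≤ u → (u : ℝ) + T ≤ 2 * D →
    D ^ (1 - ε) ≤ T → (∀ i, ((K : ℝ) * (3 * D)) ^ (d i) ≤ (2 : ℝ) ^ z) →
    ∀ (F G : ℕ → ℝ) (b : Option (Fin (s + 1)) → ℕ), BlkLen d γ ε D b → (∀ o, b o ≤ z) →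
    (∀ o j ρ, |cell F M (b o) j ρ| ≤ V) → (∀ x, |G x| ≤ V) →
    (∀ x t : ℕ, |G (x + t) - G x| ≤ V * t / D ^ (γ - ε)) →
    |nform d K u T (2 ^ z) G (fun o => Fm F M (b o)) -
      𝔼 k ∈ Ico u (u + T), (∑ x ∈ range (2 ^ z), G x *
        lfm d K M (fun o => cell F M (b o) ((x + sh d (K * k) o) / 2 ^ (b o)))) / 2 ^ z| ≤
      D ^ (-σ) := by
  set dm : ℕ := ∑ i, d i with hdm
  set E : ℝ := 1 + (dm : ℝ) * 3 ^ dm with hEdef
  have hE1 : 1 ≤ E := by
    have : (0 : ℝ) ≤ (dm : ℝ) * 3 ^ dm := by (clear * -; positivity)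
    rw [hEdef]; (clear * - this; linarith)
  set Cst : ℝ := 5 + 8 * (s + 2) * E with hCst
  have hCst1 : 1 ≤ Cst := by
    have : (0 : ℝ) ≤ 8 * (s + 2) * E := by (clear * -; positivity)
    rw [hCst]; (clear * - hε hε' this; linarith)
  set σ : ℝ := 1 / (4 * (s + dm + 6)) with hσdef
  exact by
    have hσ0 : 0 < σ := by rw [hσdef]; (clear * -; positivity)
    have hσ1 : σ * (s + dm + 6) = 1 / 4 := by rw [hσdef]; field_simp
    have hσ4 : σ ≤ 1 / 4 := by
      have h1 : (0 : ℝ) ≤ s + dm := by (clear * -; positivity)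
      (clear * - hε hε' hσ1 hσ0; nlinarith)
    refine ⟨σ, hσ0, Cst ^ 4, ?_⟩
    intro D V K M u T z _ hD hK hKD hMD hV hVD hu hT2 hT hz F G b hb hbz hcell hG hGd
    have hD1 : 1 ≤ D := (one_le_pow₀ hCst1).trans hD
    have hD0 : 0 < D := by (clear * - hε hε' hD1; linarith)
    have hM1 : (1 : ℝ) ≤ M := by exact_mod_cast Nat.one_le_iff_ne_zero.2 (NeZero.ne M)
    exact by
      have hK1 : (1 : ℝ) ≤ K := by exact_mod_cast hK
      have hTpos : 0 < T := by
        have : (0 : ℝ) < T := lt_of_lt_of_le (Real.rpow_pos_of_pos hD0 _) hT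
        exact_mod_cast this
      have hMD1 : (M : ℝ) ≤ D := by
        refine hMD.trans ?_
        calc D ^ σ ≤ D ^ (1 : ℝ) := Real.rpow_le_rpow_of_exponent_le hD1 (by (clear * - hε hε' hσ4; linarith))
          _ = D := Real.rpow_one D
      have hη : ∀ k ∈ Ico u (u + T), ∀ o, (fz_dl d K M k o : ℝ) / 2 ^ (b o) ≤
          4 * E * (M * (K : ℝ) ^ dm) / D ^ (3 / 4 : ℝ) := by
        intro k hk o
        have hk1 : (k : ℝ) ≤ u + T := by exact_mod_cast (mem_Ico.1 hk).2.le
        exact fz_eta d hd2 γ ε D hγ hε hε' hD1 K M k hK (by (clear * - hT2 hMD1 hk1; linarith)) b hb o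
      have hΓ : 0 ≤ 1 / D ^ (γ - ε) := by (clear * - hD1; positivity)
      have hmain := fz_main d K M u T z V (1 / D ^ (γ - ε))
        (4 * E * (M * (K : ℝ) ^ dm) / D ^ (3 / 4 : ℝ)) (by (clear * - hε hε' hV; linarith)) hΓ hTpos F G b hcell hG
        (fun x t => by have := hGd x t; rwa [mul_one_div]) hbz hη
      exact by
        refine hmain.trans ?_
        -- numerics
        have hY : 0 < D ^ (3 / 4 : ℝ) := Real.rpow_pos_of_pos hD0 _
        set B : ℝ := V * V ^ (s + 2) with hB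
        have hB0 : 0 < B := by positivity
        set X : ℝ := B * (M * (K : ℝ) ^ dm) with hX
        have hX0 : 0 < X := by (clear * - hV hM1 hK; positivity)
        have hBM : M * B ≤ X := by
          have h1 : (1 : ℝ) ≤ (K : ℝ) ^ dm := one_le_pow₀ hK1
          have h2 : M * B * 1 ≤ M * B * (K : ℝ) ^ dm := mul_le_mul_of_nonneg_left h1 (by (clear * - hM1 hV; positivity))
          rw [hX]; (clear * - h2; linarith)
        have hXD : X ≤ D ^ (1 / 4 : ℝ) := by
          have h1 : X ≤ (D ^ σ) ^ (s + dm + 4) := by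
            calc X = V ^ (s + 3) * (M * (K : ℝ) ^ dm) := by rw [hX, hB]; ring
              _ ≤ (D ^ σ) ^ (s + 3) * (D ^ σ * (D ^ σ) ^ dm) := by (clear * - hV hVD hMD hK hKD hD1 hM1; gcongr)
              _ = (D ^ σ) ^ (s + dm + 4) := by ring
          refine h1.trans ?_
          rw [← Real.rpow_natCast, ← Real.rpow_mul hD0.le]
          refine Real.rpow_le_rpow_of_exponent_le hD1 ?_
          push_cast
          (clear * - hσ0 hσ1; nlinarith)
        exact by
          have hTY : D ^ (3 / 4 : ℝ) ≤ T :=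
            (Real.rpow_le_rpow_of_exponent_le hD1 (by (clear * - hε hε'; linarith))).trans hT
          have hZY : D ^ (3 / 4 : ℝ) ≤ 2 ^ z := by
            refine le_trans ?_ (hz 0)
            have h1 : D ^ (3 / 4 : ℝ) ≤ D := by
              calc D ^ (3 / 4 : ℝ) ≤ D ^ (1 : ℝ) := Real.rpow_le_rpow_of_exponent_le hD1 (by norm_num)
                _ = D := Real.rpow_one D
            have h2 : D ≤ (K : ℝ) * (3 * D) := by (clear * - hσ0 hσ1 hu hK1 hT2 hD1; nlinarith)
            have h3 : (1 : ℝ) ≤ (K : ℝ) * (3 * D) := hD1.trans h2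
            have h4 : ((K : ℝ) * (3 * D)) ^ 1 ≤ ((K : ℝ) * (3 * D)) ^ (d 0) :=
              pow_le_pow_right₀ h3 (by have := hd2 0; omega)
            rw [pow_one] at h4
            (clear * - hu hT2 hTY h2 h4; linarith)
          have hΓY : 1 / D ^ (γ - ε) ≤ 1 / D ^ (3 / 4 : ℝ) :=
            one_div_le_one_div_of_le hY (Real.rpow_le_rpow_of_exponent_le hD1 (by (clear * - hγ hε hε'; linarith)))
          have t1 : 2 * M * B / T ≤ 2 * X / D ^ (3 / 4 : ℝ) := by
            rw [mul_assoc]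
            exact div_le_div₀ (by (clear * - hV hM1 hK; positivity)) (by (clear * - hBM; linarith)) hY hTY
          have t2 : 2 * M * B / 2 ^ z ≤ 2 * X / D ^ (3 / 4 : ℝ) := by
            rw [mul_assoc]
            exact div_le_div₀ (by (clear * - hV hM1 hK; positivity)) (by (clear * - hBM; linarith)) hY hZY
          have t3 : B * (M * (1 / D ^ (γ - ε))) ≤ X / D ^ (3 / 4 : ℝ) := by
            calc B * (M * (1 / D ^ (γ - ε))) = M * B * (1 / D ^ (γ - ε)) := by ring
              _ ≤ X * (1 / D ^ (3 / 4 : ℝ)) := mul_le_mul hBM hΓY hΓ hX0.le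
              _ = _ := by ring
          exact by
            have t4 : 2 * B * ((s + 2) * (4 * E * (M * (K : ℝ) ^ dm) / D ^ (3 / 4 : ℝ))) =
                8 * (s + 2) * E * X / D ^ (3 / 4 : ℝ) := by rw [hX]; ring
            have t5 : 2 * M * B / T + 2 * M * B / 2 ^ z + B * (M * (1 / D ^ (γ - ε))) +
                2 * B * ((s + 2) * (4 * E * (M * (K : ℝ) ^ dm) / D ^ (3 / 4 : ℝ))) ≤
                Cst * X / D ^ (3 / 4 : ℝ) := by
              rw [t4]
              calc _ ≤ 2 * X / D ^ (3 / 4 : ℝ) + 2 * X / D ^ (3 / 4 : ℝ) + X / D ^ (3 / 4 : ℝ) +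
                    8 * (s + 2) * E * X / D ^ (3 / 4 : ℝ) := by (clear * - t1 t2 t3; linarith)
                _ = Cst * X / D ^ (3 / 4 : ℝ) := by rw [hCst]; ring
            refine t5.trans ?_
            have hC4 : Cst ≤ D ^ (1 / 4 : ℝ) := by
              calc Cst = (Cst ^ 4) ^ (1 / 4 : ℝ) := by
                    rw [← Real.rpow_natCast Cst 4, ← Real.rpow_mul (by (clear * - hε hε' hCst1; linarith))]
                    norm_num
                _ ≤ D ^ (1 / 4 : ℝ) := Real.rpow_le_rpow (by (clear * -; positivity)) hD (by norm_num)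
            calc Cst * X / D ^ (3 / 4 : ℝ) ≤ D ^ (1 / 4 : ℝ) * D ^ (1 / 4 : ℝ) / D ^ (3 / 4 : ℝ) := by
                  (clear * - hC4 hXD hV hM1 hK hD1; gcongr)
              _ = D ^ (-(1 / 4) : ℝ) := by
                  rw [← Real.rpow_add hD0, ← Real.rpow_sub hD0]; norm_num
              _ ≤ D ^ (-σ) := Real.rpow_le_rpow_of_exponent_le hD1 (by (clear * - hσ4; linarith))

end

end Pool.Agent.Helper67.NX2

end

section

set_option autoImplicit false

open Finset

open scoped BigOperators ComplexConjugate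

namespace Pool.Agent.Helper67.NX2

open Pool.Agent.Helper57.NX

noncomputable section

/-- the form over the integers of the extensions by zero is close to the form over residues -/
lemma form_close {s : ℕ} (d : Fin (s + 1) → ℕ) (K M t E m : ℕ) [NeZero M] (ht : 1 ≤ t)
    (hm : 1 ≤ m) (φ : Option (Fin (s + 1)) → ZMod M → ℝ) (hφ : ∀ o x, |φ o x| ≤ 1)
    (hE : ∀ i, ∀ k, k < M * t + M * t → (K * k) ^ (d i) ≤ E) :
    |𝔼 k ∈ Ico (M * t) (M * t + M * t), ∑ x ∈ range (M * m), lex (M * m) (φ none) (x : ℤ) *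
        ∏ i, lex (M * m) (φ (some i)) ((x : ℤ) + ((K * k) ^ (d i) : ℕ)) -
      (M * m : ℕ) * lfm d K M φ| ≤ E := by
  have hM : 0 < M := Nat.pos_of_ne_zero (NeZero.ne M)
  have hM' : (M : ℝ) ≠ 0 := by exact_mod_cast hM.ne'
  have hmain : ∀ k ∈ Ico (M * t) (M * t + M * t),
      |∑ x ∈ range (M * m), lex (M * m) (φ none) (x : ℤ) *
        ∏ i, lex (M * m) (φ (some i)) ((x : ℤ) + ((K * k) ^ (d i) : ℕ)) -
       (M * m : ℕ) * 𝔼 ρ : ZMod M, ∏ o, φ o (ρ + sh d ((K : ZMod M) * (k : ZMod M)) o)| ≤ E := by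
    intro k hk
    rw [mem_Ico] at hk
    have h0 : ((M * m : ℕ) : ℝ) * 𝔼 ρ : ZMod M, ∏ o, φ o (ρ + sh d ((K : ZMod M) * (k : ZMod M)) o)
        = ∑ x ∈ range (M * m),
          ∏ o, φ o ((x : ZMod M) + sh d ((K : ZMod M) * (k : ZMod M)) o) := by
      rw [sum_range_mul m (fun ρ => ∏ o, φ o (ρ + sh d ((K : ZMod M) * (k : ZMod M)) o)),
        Finset.expect_eq_sum_div_card, Finset.card_univ, ZMod.card]
      push_cast
      field_simp
    rw [h0]
    refine sum_close _ _ ?_ ?_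
    · intro x hx hxE
      rw [Fintype.prod_option, lex_nat_lt _ hx]
      congr 1
      · simp [sh]
      · refine Finset.prod_congr rfl ?_
        intro i _
        have h1 : x + (K * k) ^ (d i) < M * m := lt_of_le_of_lt
          (Nat.add_le_add_left (hE i k hk.2) x) hxE
        have h2 : (x : ℤ) + ((K * k) ^ (d i) : ℕ) = ((x + (K * k) ^ (d i) : ℕ) : ℤ) := by
          push_cast; ring
        rw [h2, lex_nat_lt _ h1]
        simp [sh]
    · intro x hx
      by_cases hall : ∀ i, x + (K * k) ^ (d i) < M * m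
      · have he : lex (M * m) (φ none) (x : ℤ) *
            ∏ i, lex (M * m) (φ (some i)) ((x : ℤ) + ((K * k) ^ (d i) : ℕ)) =
            ∏ o, φ o ((x : ZMod M) + sh d ((K : ZMod M) * (k : ZMod M)) o) := by
          rw [Fintype.prod_option, lex_nat_lt _ hx]
          congr 1
          · simp [sh]
          · refine Finset.prod_congr rfl ?_
            intro i _
            have h2 : (x : ℤ) + ((K * k) ^ (d i) : ℕ) = ((x + (K * k) ^ (d i) : ℕ) : ℤ) := by
              push_cast; ring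
            rw [h2, lex_nat_lt _ (hall i)]
            simp [sh]
        rw [he]
        simp
      · push Not at hall
        obtain ⟨i, hi⟩ := hall
        have h2 : (x : ℤ) + ((K * k) ^ (d i) : ℕ) = ((x + (K * k) ^ (d i) : ℕ) : ℤ) := by
          push_cast; ring
        have hz : ∏ i, lex (M * m) (φ (some i)) ((x : ℤ) + ((K * k) ^ (d i) : ℕ)) = 0 := by
          refine Finset.prod_eq_zero (mem_univ i) ?_
          rw [h2, lex_nat_ge _ hi]
        rw [hz, mul_zero, zero_sub, abs_neg]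
        exact abs_prod_le_one _ _ (fun o _ => hφ o _)
  have hlfm : lfm d K M φ = 𝔼 k ∈ Ico (M * t) (M * t + M * t),
      𝔼 ρ : ZMod M, ∏ o, φ o (ρ + sh d ((K : ZMod M) * (k : ZMod M)) o) := by
    unfold lfm
    rw [Finset.expect_comm, expect_Ico_mul ht
      (fun κ : ZMod M => 𝔼 ρ : ZMod M, ∏ o, φ o (ρ + sh d ((K : ZMod M) * κ) o))]
  have hne : (Ico (M * t) (M * t + M * t)).Nonempty := by
    rw [Finset.nonempty_Ico]
    have : 0 < M * t := Nat.mul_pos hM ht
    omega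
  rw [hlfm, Finset.mul_expect, ← Finset.expect_sub_distrib]
  refine (Finset.abs_expect_le _ _).trans ?_
  exact Finset.expect_le hne hmain

/-- the theorem over residues follows from the theorem on the integers -/
theorem local_thm_of (s : ℕ) (d : Fin (s + 1) → ℕ) (hd2 : ∀ i, 2 ≤ d i) (hP : ThmP s d) :
    ∃ C : ℕ, ∀ δ : ℝ, 0 < δ → δ ≤ 1 / 2 →
    ∀ K : ℕ, 1 ≤ K → (K : ℝ) ≤ δ⁻¹ → ∀ (M : ℕ) [NeZero M] (φ : Option (Fin (s + 1)) → ZMod M → ℝ),
    (∀ o x, |φ o x| ≤ 1) → δ ≤ |lfm d K M φ| →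
    ∃ q : ℕ, 1 ≤ q ∧ (q : ℝ) ≤ δ⁻¹ ^ C ∧ ∀ o,
      δ ^ C ≤ 𝔼 x : ZMod M, |𝔼 a : ZMod M, φ o (x + (q : ZMod M) * a)| := by
  obtain ⟨x0, hx0, C1, σ, hσ, D0, H⟩ := hP (1 / 8) (by norm_num)
  refine ⟨2 * C1 + 1, ?_⟩
  intro δ hδ hδ2 K hK hKδ M _ φ hφ hlow
  have hM : 0 < M := Nat.pos_of_ne_zero (NeZero.ne M)
  have hM1 : 1 ≤ M := hM
  set δ' : ℝ := δ / 2 with hδ'
  have hδ'0 : 0 < δ' := by positivity
  have hδ'1 : δ' ≤ 1 / 2 := by (clear * - hδ hδ2 hδ'; linarith)
  -- the threshold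
  have htend : Filter.Tendsto (fun x : ℝ => x ^ (-σ)) Filter.atTop (nhds 0) :=
    tendsto_rpow_neg_atTop hσ
  exact by
    have hev : ∀ᶠ x : ℝ in Filter.atTop, x ^ (-σ) ≤ δ' :=
      (htend.eventually (gt_mem_nhds hδ'0)).mono (fun x hx => hx.le)
    obtain ⟨X0, hX0⟩ := Filter.eventually_atTop.1 hev
    obtain ⟨t, ht⟩ := exists_nat_ge (max (max D0 X0) (max 1 (δ'⁻¹ ^ C1)))
    have ht1 : D0 ≤ t := (le_max_left _ _).trans ((le_max_left _ _).trans ht)
    have ht2 : X0 ≤ t := (le_max_right _ _).trans ((le_max_left _ _).trans ht)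
    have ht3 : (1 : ℝ) ≤ t := (le_max_left _ _).trans ((le_max_right _ _).trans ht)
    have ht4 : δ'⁻¹ ^ C1 ≤ t := (le_max_right _ _).trans ((le_max_right _ _).trans ht)
    have ht5 : 1 ≤ t := by exact_mod_cast ht3
    exact by
      have hnt : t ≤ M * t := Nat.le_mul_of_pos_left t hM
      have hnt' : (t : ℝ) ≤ ((M * t : ℕ) : ℝ) := by exact_mod_cast hnt
      have hn1 : 1 ≤ M * t := ht5.trans hnt
      have hn1' : (1 : ℝ) ≤ ((M * t : ℕ) : ℝ) := by exact_mod_cast hn1
      -- the length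
      set E : ℕ := ∑ i, (K * (3 * (M * t))) ^ (d i) with hE
      obtain ⟨B, hB⟩ := exists_nat_ge (max 1 (max (2 / δ) (2 * δ'⁻¹ ^ C1)))
      have hB1 : (1 : ℝ) ≤ B := (le_max_left _ _).trans hB
      exact by
        have hB2 : 2 / δ ≤ (B : ℝ) := (le_max_left _ _).trans ((le_max_right _ _).trans hB)
        have hB3 : 2 * δ'⁻¹ ^ C1 ≤ (B : ℝ) := (le_max_right _ _).trans ((le_max_right _ _).trans hB)
        have hB1' : 1 ≤ B := by exact_mod_cast hB1
        have hEi : ∀ i, (K * (3 * (M * t))) ^ (d i) ≤ E := by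
          intro i
          exact Finset.single_le_sum (f := fun i => (K * (3 * (M * t))) ^ (d i))
            (fun j _ => Nat.zero_le _) (mem_univ i)
        have hKn : 1 ≤ K * (3 * (M * t)) := by
          have : 1 ≤ 3 * (M * t) := by omega
          exact Nat.one_le_iff_ne_zero.2 (Nat.mul_ne_zero (by omega) (by omega))
        have hEn : M * t ≤ E := by
          refine le_trans ?_ (hEi 0)
          calc M * t ≤ K * (3 * (M * t)) := by (clear * - hK hKn hnt; nlinarith)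
            _ = (K * (3 * (M * t))) ^ 1 := (pow_one _).symm
            _ ≤ (K * (3 * (M * t))) ^ (d 0) := Nat.pow_le_pow_right hKn (by have := hd2 0; omega)
        exact by
          have hE1 : 1 ≤ E := hn1.trans hEn
          have hm : 1 ≤ E * B := Nat.one_le_iff_ne_zero.2 (Nat.mul_ne_zero (by omega) (by omega))
          set m : ℕ := E * B with hmdef
          have hEZ : E ≤ M * m := by
            calc E = E * 1 := (mul_one _).symm
              _ ≤ E * B := Nat.mul_le_mul_left _ hB1'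
              _ ≤ M * m := Nat.le_mul_of_pos_left _ hM
          have hEB : (E : ℝ) * B ≤ ((M * m : ℕ) : ℝ) := by
            have : E * B ≤ M * m := Nat.le_mul_of_pos_left _ hM
            exact_mod_cast this
          have hE0 : (0 : ℝ) < E := by exact_mod_cast hE1
          have hshift : ∀ i, ∀ k, k < M * t + M * t → (K * k) ^ (d i) ≤ E := by
            intro i k hk
            exact (Nat.pow_le_pow_left (Nat.mul_le_mul_left K (by omega)) _).trans (hEi i)
          exact by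
            have hclose := form_close d K M t E m ht5 hm φ hφ hshift
            -- the lower bound
            have hlow' : δ' * ((M * m : ℕ) : ℝ) ≤
                |𝔼 k ∈ Ico (M * t) (M * t + M * t), ∑ x ∈ range (M * m), lex (M * m) (φ none) (x : ℤ) *
                  ∏ i, lex (M * m) (φ (some i)) ((x : ℤ) + ((K * k) ^ (d i) : ℕ))| := by
              have h1 : δ * ((M * m : ℕ) : ℝ) ≤ |((M * m : ℕ) : ℝ) * lfm d K M φ| := by
                rw [abs_mul, abs_of_nonneg (Nat.cast_nonneg (M * m)), mul_comm]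
                exact mul_le_mul_of_nonneg_left hlow (Nat.cast_nonneg _)
              have h2 : (E : ℝ) ≤ δ' * ((M * m : ℕ) : ℝ) := by
                have h3 : (E : ℝ) = δ' * (E * (2 / δ)) := by
                  rw [hδ']; (clear * - hδ hE1; field_simp)
                rw [h3]
                refine mul_le_mul_of_nonneg_left ?_ hδ'0.le
                exact (mul_le_mul_of_nonneg_left hB2 hE0.le).trans hEB
              have h4 := abs_sub_abs_le_abs_sub (((M * m : ℕ) : ℝ) * lfm d K M φ)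
                (𝔼 k ∈ Ico (M * t) (M * t + M * t), ∑ x ∈ range (M * m), lex (M * m) (φ none) (x : ℤ) *
                  ∏ i, lex (M * m) (φ (some i)) ((x : ℤ) + ((K * k) ^ (d i) : ℕ)))
              rw [abs_sub_comm] at h4
              have h5 : δ * ((M * m : ℕ) : ℝ) = 2 * (δ' * ((M * m : ℕ) : ℝ)) := by rw [hδ']; ring
              (clear * - hclose h1 h2 h4 h5; linarith)
            -- application of the theorem on the integers
            obtain ⟨q, hq1, hqC, hq0, hqi⟩ := H ((M * t : ℕ) : ℝ) K (M * t) (M * t) (M * m)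
              (ht1.trans hnt') le_rfl (by (clear * -; linarith))
              (by
                calc ((M * t : ℕ) : ℝ) ^ (1 - x0) ≤ ((M * t : ℕ) : ℝ) ^ (1 : ℝ) :=
                      Real.rpow_le_rpow_of_exponent_le hn1' (by (clear * - hx0; linarith))
                  _ = _ := Real.rpow_one _)
              hK
              (by
                intro i
                have h1 : (((K * (3 * (M * t))) ^ (d i) : ℕ) : ℝ) ≤ ((M * m : ℕ) : ℝ) := by
                  exact_mod_cast (hEi i).trans hEZ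
                refine le_trans (le_of_eq ?_) h1
                push_cast
                ring)
              δ' (hX0 _ (ht2.trans hnt')) hδ'1
              (hKδ.trans (by
                rw [hδ']
                exact inv_anti₀ (by positivity) (by (clear * - hδ' hδ'0; linarith))))
              (fun x => ((lex (M * m) (φ none) x : ℝ) : ℂ))
              (fun i x => ((lex (M * m) (φ (some i)) x : ℝ) : ℂ))
              (fun x => by rw [Complex.norm_real, Real.norm_eq_abs]; exact lex_abs _ (hφ none) x)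
              (fun i x => by rw [Complex.norm_real, Real.norm_eq_abs]; exact lex_abs _ (hφ (some i)) x)
              (by
                intro x hx
                have hz : ∀ ψ : ZMod M → ℝ, lex (M * m) ψ x = 0 := by
                  intro ψ
                  unfold lex
                  rw [if_neg]
                  rintro ⟨h1, h2⟩
                  rcases hx with h | h
                  · exact absurd h1 (not_le.2 h)
                  · exact absurd h2 (not_lt.2 h)
                refine ⟨?_, ?_⟩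
                · rw [hz]; simp
                · intro i
                  rw [hz]; simp)
              (by
                refine hlow'.trans (le_of_eq ?_)
                rw [← Real.norm_eq_abs, ← Complex.norm_real, Complex.ofReal_expect]
                congr 1
                refine Finset.expect_congr rfl ?_
                intro k _
                push_cast
                rfl)
            have hqt : q ≤ t := by
              have : (q : ℝ) ≤ t := hqC.trans ht4
              exact_mod_cast this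
            have hqM : q * M ≤ M * t := by
              rw [mul_comm q M]
              exact Nat.mul_le_mul_left M hqt
            have hLq : ∀ i, ((M : ℕ) : ℝ) * q ≤ ((M * t : ℕ) : ℝ) ^ ((d i : ℝ) - 1 / 8) := by
              intro i
              have h1 : ((M : ℕ) : ℝ) * q ≤ ((M * t : ℕ) : ℝ) := by
                have : M * q ≤ M * t := Nat.mul_le_mul_left M hqt
                exact_mod_cast this
              refine h1.trans ?_
              calc ((M * t : ℕ) : ℝ) = ((M * t : ℕ) : ℝ) ^ (1 : ℝ) := (Real.rpow_one _).symm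
                _ ≤ _ := Real.rpow_le_rpow_of_exponent_le hn1' (by
                  have : (2 : ℝ) ≤ d i := by exact_mod_cast hd2 i
                  (clear * - hδ2 hδ' hδ'0 this; linarith))
            have hall : ∀ o, δ' ^ C1 * ((M * m : ℕ) : ℝ) ≤
                ∑ x ∈ range (M * m), |𝔼 a ∈ range M, lex (M * m) (φ o) ((x : ℤ) + (q * a : ℕ))| := by
              have hnorm : ∀ o (x : ℕ),
                  ‖𝔼 a ∈ range M, ((lex (M * m) (φ o) ((x : ℤ) + (q * a : ℕ)) : ℝ) : ℂ)‖ =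
                  |𝔼 a ∈ range M, lex (M * m) (φ o) ((x : ℤ) + (q * a : ℕ))| := by
                intro o x
                rw [← Complex.ofReal_expect, Complex.norm_real, Real.norm_eq_abs]
              intro o
              cases o with
              | none =>
                have := hq0 M hM1 (hLq 0)
                refine this.trans (le_of_eq ?_)
                exact Finset.sum_congr rfl (fun x _ => hnorm none x)
              | some i =>
                have := hqi i M hM1 (hLq i)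
                refine this.trans (le_of_eq ?_)
                exact Finset.sum_congr rfl (fun x _ => hnorm (some i) x)
            exact by
              have hδδ : δ ^ 2 ≤ δ' := by rw [hδ']; (clear * - hδ hδ2; nlinarith)
              refine ⟨q, hq1, ?_, ?_⟩
              · have h1 : δ'⁻¹ ≤ δ⁻¹ ^ 2 := by
                  rw [inv_pow]
                  exact inv_anti₀ (by positivity) hδδ
                have h2 : (1 : ℝ) ≤ δ⁻¹ := by
                  rw [one_le_inv₀ hδ]; (clear * - hδ2 hδ' hδ'0; linarith)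
                calc (q : ℝ) ≤ δ'⁻¹ ^ C1 := hqC
                  _ ≤ (δ⁻¹ ^ 2) ^ C1 := pow_le_pow_left₀ (by positivity) h1 _
                  _ = δ⁻¹ ^ (2 * C1) := by rw [pow_mul]
                  _ ≤ δ⁻¹ ^ (2 * C1 + 1) := pow_le_pow_right₀ h2 (by (clear * - d K M t B q; omega))
              · intro o
                exact by
                  have h1 := (hall o).trans (ap_close m q (M * t) hqM (φ o) (hφ o))
                  set A : ℝ := 𝔼 x : ZMod M, |𝔼 a : ZMod M, φ o (x + (q : ZMod M) * a)| with hA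
                  set Z : ℝ := ((M * m : ℕ) : ℝ) with hZ
                  have hZ0 : 0 < Z := lt_of_lt_of_le (by (clear * - hK hM ht5 hB1'; positivity)) hEB
                  have h2 : ((M * t : ℕ) : ℝ) ≤ δ' ^ C1 / 2 * Z := by
                    have h3 : ((M * t : ℕ) : ℝ) ≤ E := by exact_mod_cast hEn
                    have h4 : (E : ℝ) = δ' ^ C1 / 2 * (E * (2 * δ'⁻¹ ^ C1)) := by
                      rw [inv_pow]
                      have : δ' ^ C1 ≠ 0 := by positivity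
                      (clear * - this hE1; field_simp)
                    refine h3.trans ?_
                    rw [h4]
                    refine mul_le_mul_of_nonneg_left ?_ (by positivity)
                    exact (mul_le_mul_of_nonneg_left hB3 hE0.le).trans hEB
                  have h5 : δ' ^ C1 / 2 * Z ≤ A * Z := by (clear * - h1 h2; linarith [mul_comm A Z])
                  have h6 : δ' ^ C1 / 2 ≤ A := le_of_mul_le_mul_right h5 hZ0
                  refine le_trans ?_ h6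
                  calc δ ^ (2 * C1 + 1) = (δ ^ 2) ^ C1 * δ := by rw [pow_succ, pow_mul]
                    _ ≤ δ' ^ C1 * (1 / 2) := mul_le_mul (pow_le_pow_left₀ (by positivity) hδδ _) hδ2 hδ.le
                      (by positivity)
                    _ = δ' ^ C1 / 2 := by ring

end

end Pool.Agent.Helper67.NX2

end

section

set_option autoImplicit false

open Finset

open scoped BigOperators ComplexConjugate

namespace Pool.Agent.Helper67.NX2

open Pool.Agent.Helper57.NX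

noncomputable section

namespace LM

/-- composing with the reduction map does not change the form -/
theorem lfm_red {s : ℕ} (d : Fin s → ℕ) (K : ℕ) {M M' : ℕ} [NeZero M] [NeZero M'] (h : M' ∣ M)
    (H : Option (Fin s) → ZMod M' → ℝ) :
    lfm d K M (fun o x => H o (red h x)) = lfm d K M' H := by
  unfold lfm
  have h1 : ∀ (ρ κ : ZMod M) (o : Option (Fin s)),
      red h (ρ + sh d ((K : ZMod M) * κ) o) = red h ρ + sh d ((K : ZMod M') * red h κ) o := by
    intro ρ κ o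
    rw [map_add]
    congr 1
    cases o with
    | none => simp [sh]
    | some i =>
      simp only [sh]
      rw [map_pow, map_mul, red_natCast]
  simp_rw [h1]
  have h2 : ∀ ρ : ZMod M, 𝔼 κ : ZMod M, ∏ o, H o (red h ρ + sh d ((K : ZMod M') * red h κ) o) =
      𝔼 κ : ZMod M', ∏ o, H o (red h ρ + sh d ((K : ZMod M') * κ) o) := by
    intro ρ
    exact expect_red h (fun κ => ∏ o, H o (red h ρ + sh d ((K : ZMod M') * κ) o))
  simp_rw [h2]
  exact expect_red h (fun ρ => 𝔼 κ : ZMod M', ∏ o, H o (ρ + sh d ((K : ZMod M') * κ) o))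

end LM

end

end Pool.Agent.Helper67.NX2

end

section

set_option autoImplicit false

open Finset

open scoped BigOperators ComplexConjugate

namespace Pool.Agent.Helper67.NX2

open Pool.Agent.Helper57.NX

noncomputable section

namespace LM

/-- the statement of `local_thm` -/
def LocalThmP (s : ℕ) (d : Fin (s + 1) → ℕ) : Prop :=
  ∃ C : ℕ, ∀ δ : ℝ, 0 < δ → δ ≤ 1 / 2 →
    ∀ K : ℕ, 1 ≤ K → (K : ℝ) ≤ δ⁻¹ → ∀ (M : ℕ) [NeZero M] (φ : Option (Fin (s + 1)) → ZMod M → ℝ),
    (∀ o x, |φ o x| ≤ 1) → δ ≤ |lfm d K M φ| →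
    ∃ q : ℕ, 1 ≤ q ∧ (q : ℝ) ≤ δ⁻¹ ^ C ∧ ∀ o,
      δ ^ C ≤ 𝔼 x : ZMod M, |𝔼 a : ZMod M, φ o (x + (q : ZMod M) * a)|

/-- the statement of `peel` -/
def PeelP (s : ℕ) (d : Fin (s + 1) → ℕ) : Prop :=
  ∃ c : ℝ, 0 < c ∧ ∃ C : ℝ, 0 < C ∧
    ∀ (V : ℝ) (y K M N : ℕ) [NeZero M] [NeZero (M * N)], 0 ≤ V → 1 ≤ y → 1 ≤ K →
    Nat.Coprime M N → Nat.Coprime K N → (∀ p : ℕ, p.Prime → p ∣ N → y < p) →
    ∀ H : Option (Fin (s + 1)) → ZMod (M * N) → ℝ, (∀ o x, |H o x| ≤ V) →
    |lfm d K (M * N) H - lfm d K M (fun o => fav M (H o))| ≤ C * V ^ (s + 2) * (y : ℝ) ^ (-c)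

theorem lfm_update_sub {s : ℕ} (d : Fin s → ℕ) (K M : ℕ) [NeZero M]
    (φ : Option (Fin s) → ZMod M → ℝ) (o0 : Option (Fin s)) (f g : ZMod M → ℝ) :
    lfm d K M (Function.update φ o0 (fun x => f x - g x)) =
      lfm d K M (Function.update φ o0 f) - lfm d K M (Function.update φ o0 g) := by
  unfold lfm
  rw [← Finset.expect_sub_distrib]
  apply Finset.expect_congr rfl
  intro ρ _
  rw [← Finset.expect_sub_distrib]
  apply Finset.expect_congr rfl
  intro κ _
  rw [prod_update φ o0 (fun x => f x - g x) (fun o => ρ + sh d ((K : ZMod M) * κ) o),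
    prod_update φ o0 f (fun o => ρ + sh d ((K : ZMod M) * κ) o),
    prod_update φ o0 g (fun o => ρ + sh d ((K : ZMod M) * κ) o)]
  ring

theorem hybrid {s : ℕ} (d : Fin s → ℕ) (K M : ℕ) [NeZero M]
    (H H' : Option (Fin s) → ZMod M → ℝ) (V B : ℝ) (hH : ∀ o x, |H o x| ≤ V)
    (hH' : ∀ o x, |H' o x| ≤ V) (hd : ∀ o x, |H o x - H' o x| ≤ V)
    (hB : ∀ (φ : Option (Fin s) → ZMod M → ℝ) (o0 : Option (Fin s)), (∀ o x, |φ o x| ≤ V) →
      (∀ x, φ o0 x = H o0 x - H' o0 x) → |lfm d K M φ| ≤ B) :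
    |lfm d K M H - lfm d K M H'| ≤ (s + 1) * B := by
  classical
  have key : ∀ S : Finset (Option (Fin s)),
      |lfm d K M H - lfm d K M (fun o => if o ∈ S then H' o else H o)| ≤ S.card * B := by
    intro S
    induction S using Finset.induction_on with
    | empty => simp
    | insert o0 S ho0 ih =>
      set m1 : Option (Fin s) → ZMod M → ℝ := fun o => if o ∈ S then H' o else H o with hm1
      set m2 : Option (Fin s) → ZMod M → ℝ := fun o => if o ∈ insert o0 S then H' o else H o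
        with hm2
      exact by
        have e1 : m1 = Function.update m1 o0 (H o0) := by
          have : m1 o0 = H o0 := by simp [hm1, ho0]
          rw [← this, Function.update_eq_self]
        have e2 : m2 = Function.update m1 o0 (H' o0) := by
          funext o
          by_cases ho : o = o0
          · subst ho
            simp [hm2]
          · rw [Function.update_of_ne ho]
            simp [hm1, hm2, ho]
        have e3 : lfm d K M m1 - lfm d K M m2 =
            lfm d K M (Function.update m1 o0 (fun x => H o0 x - H' o0 x)) := by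
          rw [lfm_update_sub, ← e1, ← e2]
        have e4 : |lfm d K M m1 - lfm d K M m2| ≤ B := by
          rw [e3]
          apply hB _ o0
          · intro o x
            by_cases ho : o = o0
            · subst ho
              rw [Function.update_self]
              exact hd o x
            · rw [Function.update_of_ne ho]
              by_cases hoS : o ∈ S
              · simp only [hm1, hoS, if_true]
                exact hH' o x
              · simp only [hm1, hoS, if_false]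
                exact hH o x
          · intro x
            rw [Function.update_self]
        rw [Finset.card_insert_of_notMem ho0]
        push_cast
        calc |lfm d K M H - lfm d K M m2|
            = |(lfm d K M H - lfm d K M m1) + (lfm d K M m1 - lfm d K M m2)| := by
              congr 1; ring
          _ ≤ |lfm d K M H - lfm d K M m1| + |lfm d K M m1 - lfm d K M m2| := abs_add_le _ _
          _ ≤ S.card * B + B := add_le_add ih e4
          _ = (S.card + 1) * B := by ring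
  have h := key univ
  simp only [Finset.mem_univ, if_true, Finset.card_univ, Fintype.card_option,
    Fintype.card_fin] at h
  push_cast at h
  exact h

theorem lfm_smul {s : ℕ} (d : Fin s → ℕ) (K M : ℕ) [NeZero M] (V : ℝ)
    (φ : Option (Fin s) → ZMod M → ℝ) :
    lfm d K M (fun o x => V * φ o x) = V ^ (s + 1) * lfm d K M φ := by
  unfold lfm
  rw [Finset.mul_expect]
  apply Finset.expect_congr rfl
  intro ρ _
  rw [Finset.mul_expect]
  apply Finset.expect_congr rfl
  intro κ _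
  rw [Finset.prod_mul_distrib, Finset.prod_const, Finset.card_univ, Fintype.card_option,
    Fintype.card_fin]

/-- the last step: from a smooth modulus to `K'` -/
theorem last_step {s : ℕ} {d : Fin (s + 1) → ℕ} {C : ℕ}
    (hloc : ∀ δ : ℝ, 0 < δ → δ ≤ 1 / 2 →
      ∀ K : ℕ, 1 ≤ K → (K : ℝ) ≤ δ⁻¹ → ∀ (M : ℕ) [NeZero M]
      (φ : Option (Fin (s + 1)) → ZMod M → ℝ), (∀ o x, |φ o x| ≤ 1) → δ ≤ |lfm d K M φ| →
      ∃ q : ℕ, 1 ≤ q ∧ (q : ℝ) ≤ δ⁻¹ ^ C ∧ ∀ o,
        δ ^ C ≤ 𝔼 x : ZMod M, |𝔼 a : ZMod M, φ o (x + (q : ZMod M) * a)|)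
    {δ V1 : ℝ} (hδ : 0 < δ) (hδ2 : δ ≤ 1 / 2) (hV1 : 0 < V1) {K : ℕ} (hK : 1 ≤ K)
    (hKδ : (K : ℝ) ≤ δ⁻¹) {M K' : ℕ} [NeZero M] [NeZero K'] (h : K' ∣ M)
    (hg : ∀ g : ℕ, g ∣ M → (g : ℝ) ≤ δ⁻¹ ^ C → g ∣ K')
    (H : Option (Fin (s + 1)) → ZMod M → ℝ) (h0 : ∀ o x, 0 ≤ H o x) (hV : ∀ o x, H o x ≤ V1) :
    |lfm d K M H - lfm d K K' (fun o => fav K' (H o))| ≤ ((s : ℝ) + 2) * (V1 ^ (s + 2) * δ) := by
  rw [← lfm_red d K h (fun o => fav K' (H o))]
  have hm := fun o (x : ZMod M) => fav_mem h (h0 o) (hV o) (red h x)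
  have hmain := hybrid d K M H (fun o x => fav K' (H o) (red h x)) V1 (V1 ^ (s + 2) * δ)
    (fun o x => by rw [abs_of_nonneg (h0 o x)]; exact hV o x)
    (fun o x => by
      show |fav K' (H o) (red h x)| ≤ V1
      rw [abs_of_nonneg (hm o x).1]; exact (hm o x).2)
    (fun o x => by
      show |H o x - fav K' (H o) (red h x)| ≤ V1
      rw [abs_le]
      have h1 := hm o x
      have h2 := h0 o x
      have h3 := hV o x
      constructor <;> (clear * - h1 h2 h3; linarith [h1.1, h1.2]))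
    (fun φ o0 hφ hφ0 => by
      by_contra hcon
      push Not at hcon
      set ψ : Option (Fin (s + 1)) → ZMod M → ℝ := fun o x => φ o x / V1 with hψ
      have e1 : lfm d K M φ = V1 ^ (s + 2) * lfm d K M ψ := by
        have := lfm_smul d K M V1 ψ
        rw [← this]
        congr 1
        funext o x
        simp only [hψ]
        (clear * - hV1; field_simp)
      have hψ1 : ∀ o x, |ψ o x| ≤ 1 := by
        intro o x
        simp only [hψ]
        rw [abs_div, abs_of_pos hV1, div_le_one hV1]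
        exact hφ o x
      have hψδ : δ ≤ |lfm d K M ψ| := by
        rw [e1, abs_mul, abs_of_pos (pow_pos hV1 _)] at hcon
        exact (lt_of_mul_lt_mul_left hcon (pow_pos hV1 _).le).le
      obtain ⟨q, hq1, hq2, hq3⟩ := hloc δ hδ hδ2 K hK hKδ M ψ hψ1 hψδ
      have hgq : Nat.gcd q M ∣ K' := by
        apply hg _ (Nat.gcd_dvd_right q M)
        refine le_trans ?_ hq2
        exact_mod_cast Nat.gcd_le_left M (by omega)
      exact by
        have hz : ∀ x : ZMod M, 𝔼 a : ZMod M, ψ o0 (x + (q : ZMod M) * a) = 0 := by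
          apply ap_zero h q hgq
          intro ρ
          obtain ⟨x, rfl⟩ := red_surj h ρ
          rw [fav_eq h]
          have e2 : ∀ b : ZMod M, ψ o0 (x + (K' : ZMod M) * b) =
              (H o0 (x + (K' : ZMod M) * b) - fav K' (H o0) (red h x)) / V1 := by
            intro b
            simp only [hψ]
            rw [hφ0]
            congr 2
            show fav K' (H o0) (red h (x + (K' : ZMod M) * b)) = _
            rw [map_add, red_mul_self, add_zero]
          simp_rw [e2]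
          rw [← Finset.expect_div, Finset.expect_sub_distrib, ← fav_eq h,
            Fintype.expect_const, sub_self, zero_div]
        have h4 := hq3 o0
        simp_rw [hz] at h4
        simp only [abs_zero, Finset.expect_const_zero] at h4
        exact absurd h4 (not_le.mpr (pow_pos hδ C)))
  push_cast at hmain
  calc _ ≤ _ := hmain
    _ = _ := by ring

/-- the chain of peelings -/
theorem chain {s : ℕ} {d : Fin (s + 1) → ℕ} {c C C1 V : ℝ} (hC1 : 0 < C1)
    (hpeel : ∀ (V : ℝ) (y K M N : ℕ) [NeZero M] [NeZero (M * N)], 0 ≤ V → 1 ≤ y → 1 ≤ K →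
      Nat.Coprime M N → Nat.Coprime K N → (∀ p : ℕ, p.Prime → p ∣ N → y < p) →
      ∀ H : Option (Fin (s + 1)) → ZMod (M * N) → ℝ, (∀ o x, |H o x| ≤ V) →
      |lfm d K (M * N) H - lfm d K M (fun o => fav M (H o))| ≤ C * V ^ (s + 2) * (y : ℝ) ^ (-c))
    (htot : ∀ M R : ℕ, 1 ≤ M → 2 ≤ R →
      (∀ p : ℕ, p.Prime → p ∣ M → p ≤ R) → (M : ℝ) / M.totient ≤ C1 * Real.log R)
    (hV : 0 ≤ V) {w K : ℕ} (hw : 2 ≤ w) (hK : 1 ≤ K) (hKw : ∀ p : ℕ, p.Prime → p ∣ K → p ≤ w) :
    ∀ J : ℕ, ∀ (M : ℕ) [NeZero M], (∀ p : ℕ, p.Prime → p ∣ M → p ≤ w ^ (2 ^ J)) →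
    ∀ H : Option (Fin (s + 1)) → ZMod M → ℝ, (∀ o ρ, 0 ≤ H o ρ) →
    (∀ M' : ℕ, M' ∣ M → ∀ o ρ, fav M' (H o) ρ ≤ V * (M' / M'.totient)) →
    ∃ (Mw : ℕ) (_ : NeZero Mw), Mw ∣ M ∧ (∀ p : ℕ, p.Prime → p ∣ Mw → p ≤ w) ∧
      (∀ K' : ℕ, K' ∣ M → (∀ p : ℕ, p.Prime → p ∣ K' → p ≤ w) → K' ∣ Mw) ∧
      |lfm d K M H - lfm d K Mw (fun o => fav Mw (H o))| ≤
        ∑ j ∈ range J, C * (V * (C1 * Real.log ((w : ℝ) ^ (2 ^ (j + 1))))) ^ (s + 2) *
          ((w : ℝ) ^ (2 ^ j)) ^ (-c) := by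
  intro J
  induction J with
  | zero =>
    intro M _ hM H h0 hb
    refine ⟨M, inferInstance, dvd_refl M, by simpa using hM, fun K' h _ => h, ?_⟩
    have : (fun o => fav M (H o)) = H := by
      funext o x
      exact fav_self (H o) x
    rw [this]
    simp
  | succ J ih =>
    intro M _ hM H h0 hb
    obtain ⟨M1, N, hMN, hM1, hN⟩ := split (w ^ (2 ^ J)) M (NeZero.ne M)
    subst hMN
    have hM10 : M1 ≠ 0 := left_ne_zero_of_mul (NeZero.ne (M1 * N))
    have : NeZero M1 := ⟨hM10⟩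
    have hwJ : w ≤ w ^ (2 ^ J) := Nat.le_self_pow (by positivity) w
    exact by
      have hcop : Nat.Coprime M1 N := coprime_of_smooth hM1 hN
      have hcopK : Nat.Coprime K N :=
        coprime_of_smooth (fun p hp h => (hKw p hp h).trans hwJ) hN
      have hw1 : 1 ≤ w ^ (2 ^ J) := Nat.one_le_pow _ _ (by omega)
      have hR : 2 ≤ w ^ (2 ^ (J + 1)) := le_trans hw (Nat.le_self_pow (by positivity) w)
      set V' : ℝ := V * (C1 * Real.log ((w : ℝ) ^ (2 ^ (J + 1)))) with hV'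
      have hlog : 0 ≤ Real.log ((w : ℝ) ^ (2 ^ (J + 1))) := by
        apply Real.log_nonneg
        have : (1 : ℝ) ≤ w := by exact_mod_cast (by omega : 1 ≤ w)
        exact one_le_pow₀ this
      have hV'0 : 0 ≤ V' := mul_nonneg hV (mul_nonneg hC1.le hlog)
      have hbd : ∀ o x, |H o x| ≤ V' := by
        intro o x
        rw [abs_of_nonneg (h0 o x)]
        have h1 := hb (M1 * N) (dvd_refl _) o x
        rw [fav_self] at h1
        refine h1.trans ?_
        apply mul_le_mul_of_nonneg_left _ hV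
        have h2 := htot (M1 * N) (w ^ (2 ^ (J + 1))) (Nat.one_le_iff_ne_zero.mpr (NeZero.ne _)) hR hM
        push_cast at h2 ⊢
        exact h2
      have hp := hpeel V' (w ^ (2 ^ J)) K M1 N hV'0 hw1 hK hcop hcopK hN H hbd
      push_cast at hp
      obtain ⟨Mw, hMw0, hMw1, hMw2, hMw3, hMw4⟩ := ih M1 hM1 (fun o => fav M1 (H o))
        (fun o ρ => fav_nonneg (h0 o) ρ)
        (fun M' hM' o ρ => by
          show fav M' (fav M1 (H o)) ρ ≤ _
          rw [fav_fav hM' (dvd_mul_right M1 N)]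
          exact hb M' (hM'.trans (dvd_mul_right M1 N)) o ρ)
      refine ⟨Mw, hMw0, hMw1.trans (dvd_mul_right M1 N), hMw2, ?_, ?_⟩
      · intro K' hK' hK'w
        apply hMw3 K' _ hK'w
        have : Nat.Coprime K' N := coprime_of_smooth (fun p hp h => (hK'w p hp h).trans hwJ) hN
        exact this.dvd_of_dvd_mul_right hK'
      · have e1 : (fun o => fav Mw (fav M1 (H o))) = fun o => fav Mw (H o) := by
          funext o ρ
          exact fav_fav hMw1 (dvd_mul_right M1 N) (H o) ρ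
        rw [e1] at hMw4
        rw [Finset.sum_range_succ]
        calc |lfm d K (M1 * N) H - lfm d K Mw (fun o => fav Mw (H o))|
            = |(lfm d K (M1 * N) H - lfm d K M1 (fun o => fav M1 (H o))) +
                (lfm d K M1 (fun o => fav M1 (H o)) - lfm d K Mw (fun o => fav Mw (H o)))| := by
              congr 1; ring
          _ ≤ |lfm d K (M1 * N) H - lfm d K M1 (fun o => fav M1 (H o))| +
              |lfm d K M1 (fun o => fav M1 (H o)) - lfm d K Mw (fun o => fav Mw (H o))| :=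
              abs_add_le _ _
          _ ≤ _ := by
              rw [add_comm]
              exact add_le_add hMw4 hp

end LM

open LM in
/-- `local_main` from `local_thm`, `peel` and `totient_ratio` -/
theorem local_main_of (s : ℕ) (d : Fin (s + 1) → ℕ) (hlocal : LocalThmP s d) (hpeel : PeelP s d)
    (htot : TotRatioP) (V κ : ℝ) (hV : 1 ≤ V) (hκ : 0 < κ) :
    ∃ w0 : ℕ, ∀ w : ℕ, w0 ≤ w → ∀ K : ℕ, 1 ≤ K → (∀ p : ℕ, p.Prime → p ∣ K → p ≤ w) →
    ∃ (K' : ℕ) (_ : NeZero K'), K ∣ K' ∧ (∀ p : ℕ, p.Prime → (p ∣ K' ↔ p ≤ w)) ∧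
    ∀ (M : ℕ) [NeZero M], K' ∣ M → ∀ H : Option (Fin (s + 1)) → ZMod M → ℝ, (∀ o ρ, 0 ≤ H o ρ) →
    (∀ M' : ℕ, M' ∣ M → ∀ o ρ, fav M' (H o) ρ ≤ V * (M' / M'.totient)) →
    |lfm d K M H - lfm d K K' (fun o => fav K' (H o))| ≤ κ := by
  obtain ⟨C0, hloc⟩ := hlocal
  obtain ⟨c, hc, C, hC, hpl⟩ := hpeel
  obtain ⟨C1, hC1, htr⟩ := htot
  have hV0 : 0 < V := by linarith
  obtain ⟨w0, hw0, hsum⟩ := sum_bound hc hC hC1 hV0 hκ (s + 2) (by omega)
  refine ⟨w0, ?_⟩
  intro w hw K hK hKw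
  have hw2 : 2 ≤ w := hw0.trans hw
  set V1 : ℝ := max 1 (V * (C1 * Real.log w)) with hV1
  have hV1p : 1 ≤ V1 := le_max_left _ _
  have hV1p0 : 0 < V1 := by (clear * - hV1p; linarith)
  have hKr : (1 : ℝ) ≤ K := by exact_mod_cast hK
  exact by
    set δ : ℝ := min (κ / (2 * (((s : ℝ) + 2) * V1 ^ (s + 2)))) (min ((K : ℝ)⁻¹) (1 / 2)) with hδ
    have hδ0 : 0 < δ := by
      rw [hδ]
      refine lt_min (by (clear * - hκ; positivity)) (lt_min (by positivity) (by norm_num))
    have hδ2 : δ ≤ 1 / 2 := (min_le_right _ _).trans (min_le_right _ _)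
    have hδK : (K : ℝ) ≤ δ⁻¹ := by
      have h1 : δ ≤ (K : ℝ)⁻¹ := (min_le_right _ _).trans (min_le_left _ _)
      exact (le_inv_comm₀ hδ0 (by positivity)).mp h1
    have hδκ : ((s : ℝ) + 2) * (V1 ^ (s + 2) * δ) ≤ κ / 2 := by
      have h1 : δ ≤ κ / (2 * (((s : ℝ) + 2) * V1 ^ (s + 2))) := min_le_left _ _
      rw [le_div_iff₀ (by (clear * -; positivity))] at h1
      (clear * - h1; linarith)
    obtain ⟨e, he⟩ : ∃ e : ℕ, δ⁻¹ ^ C0 < (2 : ℝ) ^ e :=
      pow_unbounded_of_one_lt _ (by norm_num)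
    have he1 : 1 ≤ e + 1 := by omega
    exact by
      have hP0 : prw w ≠ 0 := prw_ne_zero w
      have hK'0 : K * prw w ^ (e + 1) ≠ 0 := mul_ne_zero (by omega) (pow_ne_zero _ hP0)
      have hK'p : ∀ p : ℕ, p.Prime → (p ∣ K * prw w ^ (e + 1) ↔ p ≤ w) := by
        intro p hp
        constructor
        · intro h
          rcases (Nat.Prime.dvd_mul hp).mp h with h | h
          · exact hKw p hp h
          · exact (prime_dvd_prw hp).mp (hp.dvd_of_dvd_pow h)
        · intro h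
          exact Dvd.dvd.mul_left (dvd_pow ((prime_dvd_prw hp).mpr h) (by omega)) K
      refine ⟨K * prw w ^ (e + 1), ⟨hK'0⟩, dvd_mul_right _ _, hK'p, ?_⟩
      intro M _ hM H h0 hb
      have : NeZero (K * prw w ^ (e + 1)) := ⟨hK'0⟩
      have hMJ : ∀ p : ℕ, p.Prime → p ∣ M → p ≤ w ^ (2 ^ M) := by
        intro p _ hpM
        have h1 : p ≤ M := Nat.le_of_dvd (Nat.pos_of_ne_zero (NeZero.ne M)) hpM
        have h2 : M < 2 ^ M := Nat.lt_two_pow_self
        have h3 : 2 ^ M < 2 ^ (2 ^ M) := Nat.pow_lt_pow_right (by norm_num) h2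
        have h4 : 2 ^ (2 ^ M) ≤ w ^ (2 ^ M) := Nat.pow_le_pow_left hw2 _
        omega
      obtain ⟨Mw, hMw0, hMw1, hMw2, hMw3, hMw4⟩ :=
        chain hC1 hpl htr hV0.le hw2 hK hKw M M hMJ H h0 hb
      have hK'M : K * prw w ^ (e + 1) ∣ Mw := hMw3 _ hM (fun p hp h => (hK'p p hp).mp h)
      have hbw : ∀ o x, fav Mw (H o) x ≤ V1 := by
        intro o x
        refine (hb Mw hMw1 o x).trans (le_trans ?_ (le_max_right _ _))
        apply mul_le_mul_of_nonneg_left _ hV0.le
        exact htr Mw w (Nat.one_le_iff_ne_zero.mpr (NeZero.ne _)) hw2 hMw2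
      have hlast := last_step hloc hδ0 hδ2 hV1p0 hK hδK hK'M
        (fun g hgM hgb => by
          have hg0 : g ≠ 0 := fun h => NeZero.ne Mw (Nat.eq_zero_of_zero_dvd (h ▸ hgM))
          have hg2 : g < 2 ^ e := by
            have : (g : ℝ) < (2 : ℝ) ^ e := hgb.trans_lt he
            exact_mod_cast this
          have h1 : g ∣ prw w ^ e :=
            dvd_prw_pow hg0 (fun p hp h => hMw2 p hp (h.trans hgM)) hg2
          exact (h1.trans (pow_dvd_pow _ (by omega))).trans (dvd_mul_left _ _))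
        (fun o => fav Mw (H o)) (fun o x => fav_nonneg (h0 o) x) hbw
      have e1 : (fun o => fav (K * prw w ^ (e + 1)) (fav Mw (H o))) =
          fun o => fav (K * prw w ^ (e + 1)) (H o) := by
        funext o ρ
        exact fav_fav hK'M hMw1 (H o) ρ
      rw [e1] at hlast
      calc |lfm d K M H - lfm d K (K * prw w ^ (e + 1)) (fun o => fav (K * prw w ^ (e + 1)) (H o))|
          = |(lfm d K M H - lfm d K Mw (fun o => fav Mw (H o))) +
              (lfm d K Mw (fun o => fav Mw (H o)) -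
                lfm d K (K * prw w ^ (e + 1)) (fun o => fav (K * prw w ^ (e + 1)) (H o)))| := by
            congr 1; ring
        _ ≤ |lfm d K M H - lfm d K Mw (fun o => fav Mw (H o))| +
            |lfm d K Mw (fun o => fav Mw (H o)) -
              lfm d K (K * prw w ^ (e + 1)) (fun o => fav (K * prw w ^ (e + 1)) (H o))| :=
            abs_add_le _ _
        _ ≤ κ / 2 + κ / 2 := by
            refine add_le_add (hMw4.trans (hsum w hw M)) (hlast.trans hδκ)
        _ = κ := by ring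

end

end Pool.Agent.Helper67.NX2

end

section

set_option autoImplicit false

open Finset

open scoped BigOperators

namespace Pool.Agent.Helper57.NX3

open Pool.Agent.Helper67.NX2 (IsN sh nform IG Ex PrA BlkLen Fm)

noncomputable section

/-- the lower bound on one window, in terms of the cell averages -/
theorem window_form {l s : ℕ} (c : Fin l → ℝ) [DecidablePred fun i : Fin l => IsN (c i)]
    (d : Fin s → ℕ) (z K K' u T : ℕ) (A : Finset ℕ) (τ1 : ℝ) (hT : 0 < T)
    (v : {i : Fin l // ¬ IsN (c i)} → ℕ) (B : Fin l → ℕ) (b : Option (Fin s) → ℕ)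
    (hPM : |nform d K u T (2 ^ z)
        (fun x => ∏ j : {i : Fin l // ¬ IsN (c i)}, AN (B j / 2) (FA z A) (x + v j))
        (fun _ => FA z A) - nform d K u T (2 ^ z)
        (fun x => ∏ j : {i : Fin l // ¬ IsN (c i)}, AN (B j / 2) (FA z A) (x + v j))
        (fun o => Fm (FA z A) K' (b o))| ≤ τ1 / 2)
    (hMF : ∀ k ∈ Ico u (u + T), τ1 ≤ (∑ x ∈ range (2 ^ z),
      (∏ o : Option (Fin s), cd (FA z A) K' (b o) (x + sh d (K * k) o)) *
      ∏ j : {i : Fin l // ¬ IsN (c i)}, AN (B j / 2) (FA z A) (x + v j)) / 2 ^ z) :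
    τ1 / 2 ≤ nform d K u T (2 ^ z)
        (fun x => ∏ j : {i : Fin l // ¬ IsN (c i)}, AN (B j / 2) (FA z A) (x + v j))
        (fun _ => FA z A) := by
  have h1 : τ1 ≤ nform d K u T (2 ^ z)
        (fun x => ∏ j : {i : Fin l // ¬ IsN (c i)}, AN (B j / 2) (FA z A) (x + v j))
        (fun o => Fm (FA z A) K' (b o)) := by
    have hne : (Ico u (u + T)).Nonempty := by
      rw [Finset.nonempty_Ico]
      omega
    rw [← Finset.expect_const hne τ1]
    unfold nform
    refine Finset.expect_le_expect fun k hk => ?_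
    refine (hMF k hk).trans (le_of_eq ?_)
    push_cast
    congr 1
    refine Finset.sum_congr rfl fun x _ => ?_
    rw [mul_comm]
    congr 1
    refine Finset.prod_congr rfl fun o _ => ?_
    exact (Fm_eq_cd z A K' (b o) _).symm
  have h2 := (abs_le.mp hPM).1
  (clear * - h1 h2; linarith)

/-- block lengths at the real positions -/
def BB {l : ℕ} (c : Fin l → ℝ) (β1 : ℕ) (xw : ℝ) (i : Fin l) : ℕ := by
  classical exact if IsN (c i) then 0 else 2 ^ ⌊(β1 : ℝ) * (c i - xw / 4)⌋₊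

section

variable {l : ℕ} {c : Fin l → ℝ} {β1 : ℕ} {xw : ℝ}

theorem BB_real {i : Fin l} (hi : ¬ IsN (c i)) :
    BB c β1 xw i = 2 ^ ⌊(β1 : ℝ) * (c i - xw / 4)⌋₊ := by
  classical
  unfold BB
  rw [if_neg hi]

theorem BB_le (hc : ∀ i, 2 ≤ c i) (hxw : xw ≤ 1) (i : Fin l) :
    (BB c β1 xw i : ℝ) ≤ (((2 ^ β1 : ℕ)) : ℝ) ^ (c i - xw / 4) := by
  classical
  by_cases hi : IsN (c i)
  · unfold BB
    rw [if_pos hi, Nat.cast_zero]
    positivity
  · rw [BB_real hi]
    have h1 := (two_pow_floor β1 (c i - xw / 4) (by linarith [hc i])).1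
    rw [Nat.cast_pow, Nat.cast_ofNat]
    exact h1

theorem BB_ge (hc : ∀ i, 2 ≤ c i) (hxw : xw ≤ 1) {i : Fin l} (hi : ¬ IsN (c i)) :
    (((2 ^ β1 : ℕ)) : ℝ) ^ (c i - xw / 4) / 2 ≤ BB c β1 xw i := by
  rw [BB_real hi]
  have h1 := (two_pow_floor β1 (c i - xw / 4) (by (clear * - hxw hc; linarith [hc i]))).2
  rw [Nat.cast_pow (2 : ℕ) ⌊(β1 : ℝ) * (c i - xw / 4)⌋₊, Nat.cast_ofNat]
  exact h1

theorem BB_two (hc : ∀ i, 2 ≤ c i) (hxw : xw ≤ 1) (hβ1 : 1 ≤ β1) {i : Fin l}
    (hi : ¬ IsN (c i)) : 2 ≤ BB c β1 xw i := by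
  rw [BB_real hi]
  calc 2 = 2 ^ 1 := rfl
    _ ≤ _ := Nat.pow_le_pow_right (by norm_num) (BB_floor hc hxw hβ1 i)

theorem BB_half (hc : ∀ i, 2 ≤ c i) (hxw : xw ≤ 1) (hβ1 : 1 ≤ β1) {i : Fin l}
    (hi : ¬ IsN (c i)) : ((BB c β1 xw i / 2 : ℕ) : ℝ) = (BB c β1 xw i : ℝ) / 2 := by
  have h1 : 2 ∣ BB c β1 xw i := by
    rw [BB_real hi]
    exact dvd_pow_self 2 (by have := BB_floor hc hxw hβ1 i; omega)
  rw [Nat.cast_div h1 (by norm_num)]
  norm_num

end

end

end Pool.Agent.Helper57.NX3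

end

section

set_option autoImplicit false

open Finset

open scoped BigOperators

namespace Pool.Agent.Helper57.NX3

open Pool.Agent.Helper67.NX2 (IsN sh nform IG Ex PrA BlkLen Fm)

noncomputable section

/-- sizes at a real position -/
theorem size_real {l D K z β1 β Θ v : ℕ} {c : Fin l → ℝ} {Γ τ xw : ℝ} (hD : D = 2 ^ β1)
    (hK : 1 ≤ K) (hD64 : (64 : ℝ) ≤ D) (hDK : 8 * (3 * K : ℝ) ^ Γ ≤ D) (hc2 : ∀ i, 2 ≤ c i)
    (hΓ : ∀ i, c i ≤ Γ) (hΘ : Γ + 3 ≤ Θ)
    (hβ : β1 * Θ ≤ β) (hθ0 : (0 : ℝ) ≤ ((2 : ℝ) ^ z) ^ (τ / 2))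
    (hθ : ((2 : ℝ) ^ z) ^ (τ / 2) ≤ (D : ℝ) ^ (1 / 2 : ℝ))
    (hθD : ((2 : ℝ) ^ z) ^ (τ / 2) ≤ D) (hxw : 0 < xw) (hxw1 : xw ≤ 1 / 8)
    (hDxw : (4 : ℝ) ≤ (D : ℝ) ^ (xw / 8)) (hβ1 : 1 ≤ β1) {i : Fin l} (hi : ¬ IsN (c i))
    (hv : (v : ℝ) ≤ (2 * K * D : ℝ) ^ c i + 3) :
    (v : ℝ) * ((2 : ℝ) ^ z) ^ (τ / 2) ≤ 2 ^ β ∧
      ((BB c β1 xw i / 2 : ℕ) : ℝ) * ((2 : ℝ) ^ z) ^ (τ / 2) ≤ 2 ^ β ∧
      2 ^ β1 * ((2 : ℝ) ^ z) ^ (τ / 2) ≤ ((BB c β1 xw i / 2 : ℕ) : ℝ) := by
  have hD0 : (0 : ℝ) < D := by (clear * - hD64 hxw hxw1; linarith)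
  have hDr1 : (1 : ℝ) ≤ D := by (clear * - hD64 hxw hxw1; linarith)
  have hci := hc2 i
  have hΓi := hΓ i
  have hDe1 : (64 : ℝ) ≤ (D : ℝ) ^ (c i + 1) := by
    calc (64 : ℝ) ≤ D := hD64
      _ = (D : ℝ) ^ (1 : ℝ) := (Real.rpow_one _).symm
      _ ≤ _ := Real.rpow_le_rpow_of_exponent_le hDr1 (by (clear * - hxw hxw1 hci; linarith))
  have hDc1 : (D : ℝ) ^ (c i) * 64 ≤ (D : ℝ) ^ (c i + 1) := by
    rw [Real.rpow_add hD0, Real.rpow_one]
    exact mul_le_mul_of_nonneg_left hD64 (by positivity)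
  exact by
    have h3 : (D : ℝ) ^ (c i + 1) * D = (D : ℝ) ^ (c i + 1 + 1) := by
      rw [Real.rpow_add hD0 (c i + 1) 1, Real.rpow_one]
    have h4 : (D : ℝ) ^ (c i + 1 + 1) ≤ 2 ^ β := by
      rw [hD]
      exact Dβ_le hβ (by (clear * - hΘ hxw hxw1 hΓi; linarith))
    have hhalf := BB_half (β1 := β1) (xw := xw) hc2 (by (clear * - hxw hxw1; linarith)) hβ1 hi
    have hle := BB_le (β1 := β1) (xw := xw) hc2 (by (clear * - hxw hxw1; linarith)) i
    have hge := BB_ge (β1 := β1) (xw := xw) hc2 (by (clear * - hxw hxw1; linarith)) hi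
    rw [← hD] at hle hge
    refine ⟨?_, ?_, ?_⟩
    · calc (v : ℝ) * ((2 : ℝ) ^ z) ^ (τ / 2) ≤ (D : ℝ) ^ (c i + 1) * D := by
            refine mul_le_mul (hv.trans ?_) hθD hθ0 (by (clear * - hD64; positivity))
            have h1 := twoKe_le hK hD0 hDK (e := c i) (by (clear * - hxw hxw1 hci; linarith)) hΓi
            (clear * - hxw hxw1 hDe1 h1; linarith)
        _ = (D : ℝ) ^ (c i + 1 + 1) := h3
        _ ≤ _ := h4
    · calc ((BB c β1 xw i / 2 : ℕ) : ℝ) * ((2 : ℝ) ^ z) ^ (τ / 2) ≤ (D : ℝ) ^ (c i + 1) * D := by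
            refine mul_le_mul ?_ hθD hθ0 (by positivity)
            rw [hhalf]
            have h1 : (D : ℝ) ^ (c i - xw / 4) ≤ (D : ℝ) ^ (c i) :=
              Real.rpow_le_rpow_of_exponent_le hDr1 (by (clear * - hxw; linarith))
            have h4 : (0 : ℝ) ≤ (D : ℝ) ^ (c i) := by (clear * - hD64; positivity)
            have h5 : (0 : ℝ) ≤ (BB c β1 xw i : ℝ) := Nat.cast_nonneg _
            (clear * - hxw hxw1 hDe1 hDc1 hle h1; linarith)
        _ = (D : ℝ) ^ (c i + 1 + 1) := h3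
        _ ≤ _ := h4
    · rw [hhalf]
      exact by
        have h5 : (D : ℝ) ^ (c i - xw / 4) / 4 ≤ (BB c β1 xw i : ℝ) / 2 := by (clear * - hge; linarith)
        refine le_trans ?_ h5
        have h1 : (2 : ℝ) ^ β1 = D := by rw [hD]; push_cast; rfl
        rw [h1]
        have h4 : (D : ℝ) * ((2 : ℝ) ^ z) ^ (τ / 2) ≤ (D : ℝ) ^ (3 / 2 : ℝ) := by
          calc (D : ℝ) * ((2 : ℝ) ^ z) ^ (τ / 2) ≤ D * (D : ℝ) ^ (1 / 2 : ℝ) :=
                mul_le_mul_of_nonneg_left hθ hD0.le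
            _ = (D : ℝ) ^ (1 : ℝ) * (D : ℝ) ^ (1 / 2 : ℝ) := by rw [Real.rpow_one]
            _ = (D : ℝ) ^ (3 / 2 : ℝ) := by
                rw [← Real.rpow_add hD0]
                norm_num
        refine h4.trans ?_
        rw [le_div_iff₀ (by norm_num)]
        calc (D : ℝ) ^ (3 / 2 : ℝ) * 4 ≤ (D : ℝ) ^ (3 / 2 : ℝ) * (D : ℝ) ^ (xw / 8) :=
              mul_le_mul_of_nonneg_left hDxw (by (clear * - hD64; positivity))
          _ = (D : ℝ) ^ (3 / 2 + xw / 8) := (Real.rpow_add hD0 _ _).symm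
          _ ≤ _ := Real.rpow_le_rpow_of_exponent_le hDr1 (by (clear * - hxw hxw1 hci; linarith))

/-- the lower bounds on the windows -/
theorem all_windows {l s : ℕ} (c : Fin (l + 1) → ℝ) (hc2 : ∀ i, 2 ≤ c i)
    (hc0 : ∀ i, c 0 ≤ c i) (d : Fin s → ℕ) (hd2 : ∀ i, (2 : ℝ) ≤ d i)
    (K K' : ℕ) (hK : 1 ≤ K) (xw : ℝ) (hxw : 0 < xw) (hxw1 : xw ≤ 1 / 8)
    (τ V τ1 κ δ1 : ℝ) (z Θ β1 β : ℕ) (hΘ2 : 2 ≤ Θ) (Γ : ℝ) (hΓ : ∀ i, c i ≤ Γ)
    (hdΓ : ∀ i, (d i : ℝ) ≤ Γ) (hΘ : Γ + 3 ≤ Θ) (A : Finset ℕ)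
    (D : ℕ) (hD : D = 2 ^ β1) (hD64 : (64 : ℝ) ≤ D) (hDK : 8 * (3 * K : ℝ) ^ Γ ≤ D)
    (hDxw : (4 : ℝ) ≤ (D : ℝ) ^ (xw / 8)) (hβ1 : 1 ≤ β1) (hβ : β1 * Θ ≤ β) (hβz : β ≤ z)
    (hsc1 : ((2 : ℝ) ^ z) ^ τ ≤ D)
    (hθ : ((2 : ℝ) ^ z) ^ (τ / 2) ≤ (D : ℝ) ^ (1 / 2 : ℝ))
    (hfreeze : ∀ i, ∀ (u T Q B : ℕ), D ≤ u → u + T ≤ 2 * D →
      (T : ℝ) ≤ (D : ℝ) ^ (1 - xw / 2) →
      1 ≤ Q → (D : ℝ) ^ (c i - xw / 2 / 2) / 4 ≤ B → ∃ v : ℕ, (v : ℝ) ≤ (2 * K * D : ℝ) ^ c i + 3 ∧
      ∀ k ∈ Ico u (u + T), ∀ e < Q, (e + ⌊(Q : ℝ) * ((K * k : ℕ) : ℝ) ^ c i⌋₊) / Q + 1 ≤ v ∧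
        v + B / 2 ≤ (e + ⌊(Q : ℝ) * ((K * k : ℕ) : ℝ) ^ c i⌋₊) / Q + 1 + B)
    (hPM : ∀ (D : ℝ) (u T : ℕ),
      (2 : ℝ) ^ (τ * z) ≤ D → (∀ i, ((K : ℝ) * (3 * D)) ^ (d i) ≤ (2 : ℝ) ^ z) →
      D ≤ u → (u : ℝ) + T ≤ 2 * D → D ^ (1 - xw) ≤ T →
      ∀ G : ℕ → ℝ, (∀ x, |G x| ≤ V) →
      (∀ x t : ℕ, |G (x + t) - G x| ≤ V * t / D ^ (c 0 - 1 / 8)) →
      ∀ b : Option (Fin s) → ℕ, BlkLen d (c 0) (1 / 8) D b →
      |nform d K u T (2 ^ z) G (fun _ => FA z A) -
        nform d K u T (2 ^ z) G (fun o => Fm (FA z A) K' (b o))| ≤ τ1 / 2)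
    (hAN : (open scoped Classical in
      ∀ D : ℝ, ((2 : ℝ) ^ z) ^ τ ≤ D → ∀ L w : {i : Fin (l + 1) // ¬ IsN (c i)} → ℕ,
      (∀ j, D ^ (c 0 - xw / 4) / 8 ≤ L j) →
      (∀ x, |∏ j, AN (L j) (FA z A) (x + w j)| ≤ V) ∧
      ∀ x t : ℕ, |(∏ j, AN (L j) (FA z A) (x + t + w j)) - ∏ j, AN (L j) (FA z A) (x + w j)| ≤
        V * t / D ^ (c 0 - 1 / 8)))
    (hcard : δ1 * ((2 : ℝ) ^ z / Real.log ((2 : ℝ) ^ z)) ≤ A.card)
    (hEn : En z A K' β1 + En z A 1 β1 ≤ En z A K β + En z A 1 β + κ)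
    (hMF : (open scoped Classical in
      δ1 * ((2 : ℝ) ^ z / Real.log ((2 : ℝ) ^ z)) ≤ A.card →
      ∀ β β1 : ℕ, β1 ≤ β → β ≤ z → ((2 : ℝ) ^ z) ^ (τ / 2) ≤ 2 ^ β1 →
      En z A K' β1 + En z A 1 β1 ≤ En z A K β + En z A 1 β + κ →
      ∀ b v : Option (Fin s) → ℕ, (∀ i, β1 ≤ b i ∧ b i ≤ β ∧ K ∣ v i ∧
        (v i : ℝ) * ((2 : ℝ) ^ z) ^ (τ / 2) ≤ 2 ^ β) →
      ∀ L w : {i : Fin (l + 1) // ¬ IsN (c i)} → ℕ,
      (∀ j, (w j : ℝ) * ((2 : ℝ) ^ z) ^ (τ / 2) ≤ 2 ^ β ∧
        (L j : ℝ) * ((2 : ℝ) ^ z) ^ (τ / 2) ≤ 2 ^ β ∧ 2 ^ β1 * ((2 : ℝ) ^ z) ^ (τ / 2) ≤ L j) →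
      τ1 ≤ (∑ x ∈ range (2 ^ z), (∏ i, cd (FA z A) K' (b i) (x + v i)) *
        ∏ j, AN (L j) (FA z A) (x + w j)) / 2 ^ z))
    (T W : ℕ) (hDTW : D = T * W) (hT : 0 < T) (hTup : (T : ℝ) ≤ (D : ℝ) ^ (1 - xw / 2))
    (hTlow : (D : ℝ) ^ (1 - xw) ≤ T) (t : ℕ) (ht : t < W) :
    ∃ v : {i : Fin (l + 1) // ¬ IsN (c i)} → ℕ,
      (∀ i : {i : Fin (l + 1) // ¬ IsN (c i)}, ∀ k ∈ Ico (D + T * t) (D + T * t + T), ∀ e < D ^ 2,
        (e + aK (D ^ 2) K (c i) k) / D ^ 2 + 1 ≤ v i ∧
          v i + BB c β1 xw i / 2 ≤ (e + aK (D ^ 2) K (c i) k) / D ^ 2 + 1 + BB c β1 xw i) ∧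
      (open scoped Classical in τ1 / 2 ≤ nform d K (D + T * t) T (2 ^ z)
        (fun x => ∏ j : {i : Fin (l + 1) // ¬ IsN (c i)},
          AN (BB c β1 xw j / 2) (FA z A) (x + v j))
        (fun _ => FA z A)) := by
  classical
  have hDr1 : (1 : ℝ) ≤ D := by (clear * - hxw hxw1 hD64; linarith)
  have hDr0 : (0 : ℝ) < D := by (clear * - hxw hxw1 hD64; linarith)
  have hD1n : 1 ≤ D := by exact_mod_cast hDr1
  have hθ0 : (0 : ℝ) ≤ ((2 : ℝ) ^ z) ^ (τ / 2) := by positivity
  have hθD : ((2 : ℝ) ^ z) ^ (τ / 2) ≤ D := by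
    refine hθ.trans ?_
    calc (D : ℝ) ^ (1 / 2 : ℝ) ≤ (D : ℝ) ^ (1 : ℝ) :=
          Real.rpow_le_rpow_of_exponent_le hDr1 (by norm_num)
      _ = D := Real.rpow_one _
  have hTt : D + T * t + T ≤ 2 * D := by
    have h1 : T * (t + 1) ≤ T * W := Nat.mul_le_mul_left T ht
    rw [Nat.mul_succ, ← hDTW] at h1
    omega
  exact by
    have hfr : ∀ i : {i : Fin (l + 1) // ¬ IsN (c i)}, ∃ v : ℕ,
        (v : ℝ) ≤ (2 * K * D : ℝ) ^ c i + 3 ∧
        ∀ k ∈ Ico (D + T * t) (D + T * t + T), ∀ e < D ^ 2,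
          (e + aK (D ^ 2) K (c i) k) / D ^ 2 + 1 ≤ v ∧
          v + BB c β1 xw i / 2 ≤ (e + aK (D ^ 2) K (c i) k) / D ^ 2 + 1 + BB c β1 xw i := by
      intro i
      refine hfreeze i (D + T * t) T (D ^ 2) (BB c β1 xw i) (Nat.le_add_right _ _) hTt hTup
        (Nat.one_le_pow _ _ hD1n) ?_
      have h1 := BB_ge (β1 := β1) (xw := xw) hc2 (by (clear * - hxw hxw1; linarith)) i.2
      rw [← hD] at h1
      have h2 : c i - xw / 2 / 2 = c i - xw / 4 := by ring
      rw [h2]
      have h3 : (0 : ℝ) ≤ (D : ℝ) ^ (c i - xw / 4) := by (clear * - hD1n; positivity)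
      (clear * - h1; linarith)
    choose v hv1 hv2 using hfr
    refine ⟨v, hv2, ?_⟩
    have hLge : ∀ j : {i : Fin (l + 1) // ¬ IsN (c i)},
        (D : ℝ) ^ (c j - xw / 4) / 4 ≤ ((BB c β1 xw j / 2 : ℕ) : ℝ) := by
      intro j
      rw [BB_half hc2 (by (clear * - hxw hxw1; linarith)) hβ1 j.2]
      have := BB_ge (β1 := β1) (xw := xw) hc2 (by (clear * - hxw hxw1; linarith)) j.2
      rw [← hD] at this
      (clear * - this; linarith)
    obtain ⟨hG1, hG2⟩ := hAN D hsc1 (fun j => BB c β1 xw j / 2) v (by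
      intro j
      refine le_trans ?_ (hLge j)
      have h1 : (D : ℝ) ^ (c 0 - xw / 4) ≤ (D : ℝ) ^ (c j - xw / 4) :=
        Real.rpow_le_rpow_of_exponent_le hDr1 (by (clear * - hc0; linarith [hc0 j]))
      have h2 : (0 : ℝ) ≤ (D : ℝ) ^ (c j - xw / 4) := by (clear * - hD1n; positivity)
      (clear * - h1 h2; linarith))
    have hβz' : (2 : ℝ) ^ β ≤ (2 : ℝ) ^ z := pow_le_pow_right₀ (by norm_num) hβz
    refine window_form c d z K K' (D + T * t) T A τ1 hT v (BB c β1 xw) (bb β1 (c 0) d) ?_ ?_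
    · refine hPM D (D + T * t) T ?_ ?_ ?_ ?_ hTlow _ hG1 hG2 (bb β1 (c 0) d) ?_
      · refine le_trans (le_of_eq ?_) hsc1
        rw [← Real.rpow_natCast, ← Real.rpow_mul (by norm_num), mul_comm]
      · intro i
        have h1 := Ke_le hK hDr0 hDK (hdΓ i)
        rw [Real.rpow_natCast] at h1
        have h2 : ((K : ℝ) * (3 * D)) ^ d i = (3 * K * D : ℝ) ^ d i := by ring
        rw [h2]
        have h3 : (D : ℝ) ^ ((d i : ℝ) + 1) ≤ (2 : ℝ) ^ β := by
          rw [hD]
          exact Dβ_le hβ (by (clear * - hxw hxw1 hΘ hdΓ; linarith [hdΓ i]))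
        have h4 : (0 : ℝ) ≤ (D : ℝ) ^ ((d i : ℝ) + 1) := by (clear * - hD1n; positivity)
        (clear * - hβz' h1 h3 h4; linarith)
      · push_cast
        have : (0 : ℝ) ≤ (T : ℝ) * t := by (clear * - hT; positivity)
        (clear * - this; linarith)
      · have h1 : ((D + T * t + T : ℕ) : ℝ) ≤ ((2 * D : ℕ) : ℝ) := by exact_mod_cast hTt
        push_cast at h1 ⊢
        exact h1
      · have h1 := bb_blk (s := s) β1 (hc2 0) d hd2
        rw [← hD] at h1
        exact h1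
    · intro k hk
      have hk' := Finset.mem_Ico.mp hk
      have hk2 : k ≤ 2 * D := by omega
      refine hMF hcard β β1 ?_ hβz ?_ hEn (bb β1 (c 0) d) (fun o => sh d (K * k) o) ?_
        (fun j => BB c β1 xw j / 2) v ?_
      · calc β1 = β1 * 1 := (mul_one _).symm
          _ ≤ β1 * Θ := Nat.mul_le_mul_left _ (by omega)
          _ ≤ β := hβ
      · refine hθD.trans (le_of_eq ?_)
        rw [hD]
        push_cast
        rfl
      · intro o
        have hr := bb_range hβ (hc2 0) (hΓ 0) d hd2 hdΓ (by (clear * - hxw hxw1 hΘ; linarith)) o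
        refine ⟨hr.1, hr.2, ?_, ?_⟩
        · rcases o with _ | i
          · exact dvd_zero _
          · change K ∣ (K * k) ^ d i
            have h1 : d i ≠ 0 := by
              intro h0
              have := hd2 i
              rw [h0] at this
              norm_num at this
            exact dvd_pow (Dvd.intro _ rfl) h1
        · rcases o with _ | i
          · change ((0 : ℕ) : ℝ) * _ ≤ _
            rw [Nat.cast_zero, zero_mul]
            positivity
          · exact size_nat hD hK hDr0 hDK (hdΓ i) hΘ hβ hθ0 hθD hk2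
      · intro j
        exact size_real hD hK hD64 hDK hc2 hΓ hΘ hβ hθ0 hθ hθD hxw hxw1 hDxw hβ1 j.2 (hv1 j)

end

end Pool.Agent.Helper57.NX3

end
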