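import Pool.Agent.Helper23.MC.L00_a0
import Pool.Agent.Helper23.MC.L00_a1
import Pool.Agent.Helper23.MC.L00_a11
import Pool.Agent.Helper23.MC.L00_a12
import Pool.Agent.Helper23.MC.L00_a13
import Pool.Agent.Helper23.MC.L00_a3
import Pool.Agent.Helper23.MC.L00_a8

/-!
Parts of Helper64.NX.LpKey, Helper7.NX.BaseCells, Helper91.NX2.AlKey, Helper91.NX2.AlArithCore, Helper82.NX.GncA, Helper60.NX2.DlB, Helper21.NX2.ThmPOf, Helper8.NX2.PeelCore, Helper63.NX2.VarBound, Helper92.NX2.Pars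
-/

attribute [local instance 5000]
  Pool.Agent.Helper23.MC.Inst.rCharZero Pool.Agent.Helper23.MC.Inst.rALM
  Pool.Agent.Helper23.MC.Inst.rARM Pool.Agent.Helper23.MC.Inst.rALSM
  Pool.Agent.Helper23.MC.Inst.rARSM Pool.Agent.Helper23.MC.Inst.rARRLE
  Pool.Agent.Helper23.MC.Inst.rALRLE Pool.Agent.Helper23.MC.Inst.rARRLT
  Pool.Agent.Helper23.MC.Inst.rALRLT Pool.Agent.Helper23.MC.Inst.rPMRLT
  Pool.Agent.Helper23.MC.Inst.rMPRLT Pool.Agent.Helper23.MC.Inst.rPMM
  Pool.Agent.Helper23.MC.Inst.rMPM Pool.Agent.Helper23.MC.Inst.rPMSM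
  Pool.Agent.Helper23.MC.Inst.rMPSM Pool.Agent.Helper23.MC.Inst.rEAOL
  Pool.Agent.Helper23.MC.Inst.rIOR Pool.Agent.Helper23.MC.Inst.rISOR
  Pool.Agent.Helper23.MC.Inst.rNZD Pool.Agent.Helper23.MC.Inst.rcCharZero
  Pool.Agent.Helper23.MC.Inst.rcNZD Pool.Agent.Helper23.MC.Inst.zCharZero
  Pool.Agent.Helper23.MC.Inst.zALM Pool.Agent.Helper23.MC.Inst.zARM
  Pool.Agent.Helper23.MC.Inst.zALSM Pool.Agent.Helper23.MC.Inst.zARSM
  Pool.Agent.Helper23.MC.Inst.zIOR Pool.Agent.Helper23.MC.Inst.zISOR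
  Pool.Agent.Helper23.MC.Inst.zNZD Pool.Agent.Helper23.MC.Inst.qCharZero
  Pool.Agent.Helper23.MC.Inst.mR Pool.Agent.Helper23.MC.Inst.mC Pool.Agent.Helper23.MC.Inst.mRC
  Pool.Agent.Helper23.MC.Inst.rPSM Pool.Agent.Helper23.MC.Inst.rCSM
  Pool.Agent.Helper23.MC.Inst.cAdd Pool.Agent.Helper23.MC.Inst.cAddM
  Pool.Agent.Helper23.MC.Inst.cMul Pool.Agent.Helper23.MC.Inst.cMon

namespace Pool.Agent.Helper57.NX
end Pool.Agent.Helper57.NX
namespace Pool.Agent.Helper67.NX2
end Pool.Agent.Helper67.NX2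

section

set_option autoImplicit false

open Finset

open scoped BigOperators ComplexConjugate

namespace Pool.Agent.Helper57.NX

noncomputable section

lemma sq_expect_le64 {ι : Type} (s : Finset ι) (g : ι → ℝ) :
    (𝔼 i ∈ s, g i) ^ 2 ≤ 𝔼 i ∈ s, g i ^ 2 := by
  have h := Finset.expect_mul_sq_le_sq_mul_sq s (fun _ => (1 : ℝ)) g
  simp only [one_mul, one_pow] at h
  refine h.trans (mul_le_of_le_one_left (expect_nonneg fun k _ => by positivity) ?_)
  exact expect_le_of5 _ _ zero_le_one fun k _ => le_refl _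

section Form64

variable {m N : ℕ} [NeZero N]

/-- Cauchy–Schwarz after a short shift of `x` -/
theorem form_cs_local64 (S : Sys m) (c : Fin m → ℝ) (f0 : ZMod N → ℂ) (f : Fin m → ZMod N → ℂ)
    (Y : ℕ) (hY : 1 ≤ Y) :
    ‖form S c 1 f0 f‖ ^ 2 ≤ 𝔼 y ∈ range Y, 𝔼 y' ∈ range Y,
      ‖form S c 1 (fun x => f0 (x + (y : ZMod N)) * conj (f0 (x + (y' : ZMod N))))
        (fun i x => f i (x + (y : ZMod N)) * conj (f i (x + (y' : ZMod N))))‖ := by
  set F : ℕ → ZMod N → ℂ := fun k x => f0 x * ∏ i, f i (x + (S.a c i k : ZMod N)) with hF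
  have hne : (range Y).Nonempty := nonempty_range_iff.2 (by omega)
  -- the shifted form
  have e1 : form S c 1 f0 f = 𝔼 k ∈ S.I, 𝔼 x : ZMod N, 𝔼 y ∈ range Y, F k (x + (y : ZMod N)) := by
    unfold form
    refine expect_congr rfl fun k _ => ?_
    rw [Pi.one_apply, one_mul, expect_comm]
    rw [expect_congr rfl fun (y : ℕ) _ => expect_shift (F k) (y : ZMod N), expect_const hne]
  have e2 : ‖form S c 1 f0 f‖ ^ 2 ≤
      𝔼 k ∈ S.I, 𝔼 x : ZMod N, ‖𝔼 y ∈ range Y, F k (x + (y : ZMod N))‖ ^ 2 := by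
    have h1 : ‖form S c 1 f0 f‖ ≤
        𝔼 k ∈ S.I, 𝔼 x : ZMod N, ‖𝔼 y ∈ range Y, F k (x + (y : ZMod N))‖ := by
      rw [e1]
      refine (norm_expect_le5 _ _).trans (expect_le_expect fun k _ => ?_)
      exact norm_expect_le5 _ _
    refine (pow_le_pow_left₀ (norm_nonneg _) h1 2).trans ((sq_expect_le64 _ _).trans ?_)
    exact expect_le_expect fun k _ => sq_expect_le64 _ _
  have e3 : ((𝔼 k ∈ S.I, 𝔼 x : ZMod N, ‖𝔼 y ∈ range Y, F k (x + (y : ZMod N))‖ ^ 2 : ℝ) : ℂ) =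
      𝔼 y ∈ range Y, 𝔼 y' ∈ range Y,
        form S c 1 (fun x => f0 (x + (y : ZMod N)) * conj (f0 (x + (y' : ZMod N))))
        (fun i x => f i (x + (y : ZMod N)) * conj (f i (x + (y' : ZMod N)))) := by
    have h2 : ∀ y y' : ℕ,
        form S c 1 (fun x => f0 (x + (y : ZMod N)) * conj (f0 (x + (y' : ZMod N))))
        (fun i x => f i (x + (y : ZMod N)) * conj (f i (x + (y' : ZMod N)))) =
        𝔼 k ∈ S.I, 𝔼 x : ZMod N, F k (x + (y : ZMod N)) * conj (F k (x + (y' : ZMod N))) := by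
      intro y y'
      unfold form
      refine expect_congr rfl fun k _ => ?_
      rw [Pi.one_apply, one_mul]
      refine expect_congr rfl fun x _ => ?_
      simp only [hF]
      rw [prod_mul_distrib, map_mul, map_prod]
      have h3 : ∀ (t : ℕ) (i : Fin m), x + (S.a c i k : ZMod N) + (t : ZMod N) =
        x + (t : ZMod N) + (S.a c i k : ZMod N) := fun t i => by ring
      simp_rw [h3]
      ring
    simp_rw [h2]
    push_cast
    have h4 : ∀ k x, ((‖𝔼 y ∈ range Y, F k (x + (y : ZMod N))‖ : ℂ) ^ 2) =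
        𝔼 y ∈ range Y, 𝔼 y' ∈ range Y, F k (x + (y : ZMod N)) * conj (F k (x + (y' : ZMod N))) := by
      intro k x
      rw [← norm_sq_expect64]
      push_cast
      rfl
    simp_rw [h4]
    have h6 := expect_comm4_64 S.I (univ : Finset (ZMod N)) (range Y) (range Y)
      (fun (k : ℕ) (x : ZMod N) (y y' : ℕ) =>
        F k (x + (y : ZMod N)) * conj (F k (x + (y' : ZMod N))))
    exact h6
  refine e2.trans ?_
  have h5 := congrArg norm e3
  rw [Complex.norm_real] at h5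
  refine (Real.le_norm_self _).trans ?_
  rw [h5]
  refine (norm_expect_le5 _ _).trans (expect_le_expect fun y _ => ?_)
  exact norm_expect_le5 _ _

end Form64

end

end Pool.Agent.Helper57.NX

end

section

set_option autoImplicit false

open Finset

open scoped BigOperators ComplexConjugate

namespace Pool.Agent.Helper57.NX

noncomputable section

/-- The sizes. -/
theorem sizes7 {m : ℕ} (c : Fin (m + 1) → ℝ) (hc : StrictMono c) (hc0 : ∀ i, 0 < c i)
    (s κ x0 σ M : ℝ) (_hκ : 0 < κ) (hκi : ∀ i : Fin m, κ ≤ s - c i.castSucc) (hκs : κ ≤ s)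
    (hκc : κ ≤ c (Fin.last m) - s) (hx0 : x0 ≤ κ / 8) (hσ0 : 0 < σ) (hσ : σ ≤ κ / 40)
    (hM : M = 2 ^ (c (Fin.last m)) + 3) (S : Sys (m + 1)) (N : ℕ) [NeZero N]
    (hG : Good S c N x0) (hD : 1 ≤ S.D) (hDM : M ≤ S.D ^ (κ / 2)) (δ : ℝ) (hδp : 0 < δ)
    (hδ0 : S.D ^ (-σ) ≤ δ) (hδ1 : δ ≤ 1 / 2) (X : ℝ) (hX : S.Q * S.D ^ (s - σ) ≤ X) (R : ℕ)
    (hRdef : R = ⌊δ ^ 4 * min X (S.Q * S.D ^ s)⌋₊) :
    0 < (S.Q : ℝ) ∧ 0 < X ∧ 1 ≤ R ∧ (S.Q : ℝ) ≤ R ∧
      (R : ℝ) * δ⁻¹ * (1 / X + 1 / N) ≤ δ / 2 ∧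
      ∀ i : Fin m, 0 ≤ S.P i.castSucc ∧ S.P i.castSucc * 2 ^ (c i.castSucc) ≤ R ∧
        S.P i.castSucc ≤ R := by
  have hDp : 0 < S.D := by (clear * - hD hδp hδ1; linarith)
  have hQ1 : 1 ≤ (S.Q : ℝ) := by
    refine le_trans ?_ hG.Q1
    exact Real.one_le_rpow hD (by norm_num)
  have hQp : 0 < (S.Q : ℝ) := by (clear * - hδp hδ1 hQ1; linarith)
  have h2c : 0 < (2 : ℝ) ^ c (Fin.last m) := Real.rpow_pos_of_pos (by norm_num) _
  have hXp : 0 < X := lt_of_lt_of_le (mul_pos hQp (Real.rpow_pos_of_pos hDp _)) hX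
  -- the lower bound for δ ^ 4
  have hδ4 : S.D ^ (-(κ / 10)) ≤ δ ^ 4 := by
    have h1 : S.D ^ (-(κ / 10)) ≤ (S.D ^ (-σ)) ^ 4 := by
      rw [← Real.rpow_natCast, ← Real.rpow_mul hDp.le]
      refine Real.rpow_le_rpow_of_exponent_le hD ?_
      push_cast
      (clear * - hσ; linarith)
    exact h1.trans (pow_le_pow_left₀ (Real.rpow_nonneg hDp.le _) hδ0 4)
  exact by
    have hX' : S.Q * S.D ^ (s - κ / 40) ≤ min X (S.Q * S.D ^ s) := by
      refine le_min (le_trans ?_ hX) ?_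
      · exact mul_le_mul_of_nonneg_left (Real.rpow_le_rpow_of_exponent_le hD (by (clear * - hσ; linarith))) hQp.le
      · exact mul_le_mul_of_nonneg_left (Real.rpow_le_rpow_of_exponent_le hD (by (clear * - hσ0 hσ; linarith))) hQp.le
    have hlow : S.Q * S.D ^ (s - κ / 8) ≤ δ ^ 4 * min X (S.Q * S.D ^ s) := by
      have h1 : S.Q * S.D ^ (s - κ / 8) = S.D ^ (-(κ / 10)) * (S.Q * S.D ^ (s - κ / 40)) := by
        have : s - κ / 8 = -(κ / 10) + (s - κ / 40) := by ring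
        rw [this, Real.rpow_add hDp]
        ring
      rw [h1]
      exact mul_le_mul hδ4 hX' (mul_nonneg hQp.le (Real.rpow_nonneg hDp.le _)) (by positivity)
    have hmin0 : 0 ≤ δ ^ 4 * min X (S.Q * S.D ^ s) := by
      refine le_trans ?_ hlow
      exact mul_nonneg hQp.le (Real.rpow_nonneg hDp.le _)
    have hR1 : (R : ℝ) ≤ δ ^ 4 * min X (S.Q * S.D ^ s) := by
      rw [hRdef]
      exact Nat.floor_le hmin0
    have hR2 : S.Q * S.D ^ (s - κ / 8) - 1 ≤ R := by
      have := Nat.lt_floor_add_one (δ ^ 4 * min X (S.Q * S.D ^ s))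
      rw [← hRdef] at this
      (clear * - hlow this; linarith)
    -- comparison with the sequences
    have hcmp : ∀ c' : ℝ, κ ≤ s - c' → 0 ≤ c' →
        S.Q * S.D ^ (c' + κ / 8) * 2 ^ c (Fin.last m) + 2 ≤ R := by
      intro c' h1 h2
      have h3 : S.Q * S.D ^ (c' + κ / 8) * M ≤ S.Q * S.D ^ (s - κ / 8) := by
        have h4 : S.D ^ (c' + κ / 8) * S.D ^ (κ / 2) ≤ S.D ^ (s - κ / 8) := by
          rw [← Real.rpow_add hDp]
          exact Real.rpow_le_rpow_of_exponent_le hD (by (clear * - hσ0 hσ h1; linarith))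
        have h5 : S.D ^ (c' + κ / 8) * M ≤ S.D ^ (c' + κ / 8) * S.D ^ (κ / 2) :=
          mul_le_mul_of_nonneg_left hDM (Real.rpow_nonneg hDp.le _)
        rw [mul_assoc]
        exact mul_le_mul_of_nonneg_left (h5.trans h4) hQp.le
      have h6 : 1 ≤ S.Q * S.D ^ (c' + κ / 8) := by
        have : 1 ≤ S.D ^ (c' + κ / 8) := Real.one_le_rpow hD (by (clear * - hσ0 hσ h2; linarith))
        (clear * - hQ1 this; nlinarith)
      rw [hM] at h3
      (clear * - hR2 h3 h6; nlinarith)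
    exact by
      have hQR : (S.Q : ℝ) + 2 ≤ R := by
        refine le_trans ?_ (hcmp 0 (by (clear * - hκs; linarith)) (le_refl _))
        have h1 : 1 ≤ S.D ^ (0 + κ / 8) := Real.one_le_rpow hD (by (clear * - hσ0 hσ; linarith))
        have h2 : (1 : ℝ) ≤ 2 ^ c (Fin.last m) :=
          Real.one_le_rpow (by norm_num) (hc0 _).le
        have h3 : (S.Q : ℝ) ≤ S.Q * S.D ^ (0 + κ / 8) := le_mul_of_one_le_right hQp.le h1
        have h4 : (S.Q : ℝ) * S.D ^ (0 + κ / 8) ≤ S.Q * S.D ^ (0 + κ / 8) * 2 ^ c (Fin.last m) :=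
          le_mul_of_one_le_right (by positivity) h2
        linarith
      -- N is large
      have hN : S.Q * S.D ^ s ≤ N := by
        have h1 := hG.N1 (Fin.last m)
        have h2 := hG.P1 (Fin.last m)
        have h3 : S.Q * S.D ^ (c (Fin.last m) - x0) * S.D ^ (-x0) ≤ N := by
          have h4 : (N : ℝ) * S.D ^ x0 * S.D ^ (-x0) = N := by
            rw [mul_assoc, ← Real.rpow_add hDp, add_neg_cancel, Real.rpow_zero, mul_one]
          rw [← h4]
          exact mul_le_mul_of_nonneg_right (h2.trans h1) (Real.rpow_nonneg hDp.le _)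
        refine le_trans ?_ h3
        rw [mul_assoc, ← Real.rpow_add hDp]
        exact mul_le_mul_of_nonneg_left (Real.rpow_le_rpow_of_exponent_le hD (by (clear * - hκc hx0 hσ0 hσ; linarith))) hQp.le
      have hNp : (0 : ℝ) < N := by exact_mod_cast Nat.pos_of_ne_zero (NeZero.ne N)
      refine ⟨hQp, hXp, ?_, by (clear * - hδp hδ1 hQR; linarith), ?_, fun i => ?_⟩
      · have : (1 : ℝ) ≤ R := by (clear * - hδp hδ1 hQ1 hQR; linarith)
        exact_mod_cast this
      · have h1 : (R : ℝ) / X ≤ δ ^ 4 := by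
          rw [div_le_iff₀ hXp]
          exact hR1.trans (mul_le_mul_of_nonneg_left (min_le_left _ _) (by positivity))
        exact by
          have h2 : (R : ℝ) / N ≤ δ ^ 4 := by
            rw [div_le_iff₀ hNp]
            exact hR1.trans (mul_le_mul_of_nonneg_left ((min_le_right _ _).trans hN) (by positivity))
          have h3 : (R : ℝ) * δ⁻¹ * (1 / X + 1 / N) = δ⁻¹ * (R / X + R / N) := by
            (clear * - hNp hXp hδp; field_simp)
          rw [h3]
          have h4 : δ⁻¹ * (R / X + R / N) ≤ δ⁻¹ * (2 * δ ^ 4) :=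
            mul_le_mul_of_nonneg_left (by (clear * - h1 h2; linarith)) (by positivity)
          have h5 : δ⁻¹ * (2 * δ ^ 4) = 2 * δ ^ 3 := by
            field_simp
          rw [h5] at h4
          refine h4.trans ?_
          (clear * - hδ1 hδp; nlinarith [pow_pos hδp 2])
      · have hci := hc0 i.castSucc
        exact by
          have hP0 : 0 ≤ S.P i.castSucc :=
            le_trans (mul_nonneg hQp.le (Real.rpow_nonneg hDp.le _)) (hG.P1 i.castSucc)
          have hP : S.P i.castSucc ≤ S.Q * S.D ^ (c i.castSucc + κ / 8) := by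
            refine (hG.P2 i.castSucc).trans ?_
            exact mul_le_mul_of_nonneg_left (Real.rpow_le_rpow_of_exponent_le hD (by (clear * - hx0; linarith))) hQp.le
          have hcc : c i.castSucc ≤ c (Fin.last m) := hc.monotone (Fin.le_last _)
          have h2 : (2 : ℝ) ^ c i.castSucc ≤ 2 ^ c (Fin.last m) :=
            Real.rpow_le_rpow_of_exponent_le (by norm_num) hcc
          have h3 := hcmp (c i.castSucc) (hκi i) hci.le
          have h4 : S.P i.castSucc * 2 ^ c i.castSucc ≤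
              S.Q * S.D ^ (c i.castSucc + κ / 8) * 2 ^ c (Fin.last m) :=
            mul_le_mul hP h2 (Real.rpow_nonneg (by norm_num) _)
              (mul_nonneg hQp.le (Real.rpow_nonneg hDp.le _))
          exact by
            have h5 : S.P i.castSucc ≤ S.P i.castSucc * 2 ^ c i.castSucc :=
              le_mul_of_one_le_right hP0 (Real.one_le_rpow (by norm_num) hci.le)
            exact ⟨hP0, by (clear * - hδp hδ1 h3 h4; linarith), by (clear * - hδp hδ1 h3 h4 h5; linarith)⟩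

end

end Pool.Agent.Helper57.NX

end

section

set_option autoImplicit false

open Finset

open scoped BigOperators ComplexConjugate

namespace Pool.Agent.Helper91.NX2

open Pool.Agent.Helper57.NX

open Pool.Agent.Helper67.NX2

noncomputable section

section

variable {m N : ℕ} [NeZero N]

/-- Cauchy–Schwarz after a short shift of `x` along a progression of difference `st` -/
theorem form_cs_st (S : Sys m) (c : Fin m → ℝ) (f0 : ZMod N → ℂ) (f : Fin m → ZMod N → ℂ)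
    (st Y : ℕ) (hY : 1 ≤ Y) :
    ‖form S c 1 f0 f‖ ^ 2 ≤ 𝔼 y ∈ range Y, 𝔼 y' ∈ range Y,
      ‖form S c 1 (fun x => f0 (x + ((st * y : ℕ) : ZMod N)) *
          conj (f0 (x + ((st * y' : ℕ) : ZMod N))))
        (fun i x => f i (x + ((st * y : ℕ) : ZMod N)) *
          conj (f i (x + ((st * y' : ℕ) : ZMod N))))‖ := by
  set F : ℕ → ZMod N → ℂ := fun k x => f0 x * ∏ i, f i (x + (S.a c i k : ZMod N)) with hF
  have hne : (range Y).Nonempty := nonempty_range_iff.2 (by omega)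
  have e1 : form S c 1 f0 f = 𝔼 k ∈ S.I, 𝔼 x : ZMod N, 𝔼 y ∈ range Y,
      F k (x + ((st * y : ℕ) : ZMod N)) := by
    unfold form
    refine expect_congr rfl fun k _ => ?_
    rw [Pi.one_apply, one_mul, expect_comm]
    rw [expect_congr rfl fun (y : ℕ) _ => expect_shift (F k) ((st * y : ℕ) : ZMod N),
      expect_const hne]
  have e2 : ‖form S c 1 f0 f‖ ^ 2 ≤
      𝔼 k ∈ S.I, 𝔼 x : ZMod N, ‖𝔼 y ∈ range Y, F k (x + ((st * y : ℕ) : ZMod N))‖ ^ 2 := by
    have h1 : ‖form S c 1 f0 f‖ ≤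
        𝔼 k ∈ S.I, 𝔼 x : ZMod N, ‖𝔼 y ∈ range Y, F k (x + ((st * y : ℕ) : ZMod N))‖ := by
      rw [e1]
      refine (norm_expect_le5 _ _).trans (expect_le_expect fun k _ => ?_)
      exact norm_expect_le5 _ _
    refine (pow_le_pow_left₀ (norm_nonneg _) h1 2).trans ((sq_expect_le64 _ _).trans ?_)
    exact expect_le_expect fun k _ => sq_expect_le64 _ _
  have e3 : ((𝔼 k ∈ S.I, 𝔼 x : ZMod N,
        ‖𝔼 y ∈ range Y, F k (x + ((st * y : ℕ) : ZMod N))‖ ^ 2 : ℝ) : ℂ) =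
      𝔼 y ∈ range Y, 𝔼 y' ∈ range Y,
        form S c 1 (fun x => f0 (x + ((st * y : ℕ) : ZMod N)) *
          conj (f0 (x + ((st * y' : ℕ) : ZMod N))))
        (fun i x => f i (x + ((st * y : ℕ) : ZMod N)) *
          conj (f i (x + ((st * y' : ℕ) : ZMod N)))) := by
    have h2 : ∀ y y' : ℕ,
        form S c 1 (fun x => f0 (x + ((st * y : ℕ) : ZMod N)) *
          conj (f0 (x + ((st * y' : ℕ) : ZMod N))))
        (fun i x => f i (x + ((st * y : ℕ) : ZMod N)) *
          conj (f i (x + ((st * y' : ℕ) : ZMod N)))) =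
        𝔼 k ∈ S.I, 𝔼 x : ZMod N, F k (x + ((st * y : ℕ) : ZMod N)) *
          conj (F k (x + ((st * y' : ℕ) : ZMod N))) := by
      intro y y'
      unfold form
      refine expect_congr rfl fun k _ => ?_
      rw [Pi.one_apply, one_mul]
      refine expect_congr rfl fun x _ => ?_
      simp only [hF]
      rw [prod_mul_distrib, map_mul, map_prod]
      have h3 : ∀ (t : ℕ) (i : Fin m), x + (S.a c i k : ZMod N) + (t : ZMod N) =
        x + (t : ZMod N) + (S.a c i k : ZMod N) := fun t i => by ring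
      simp_rw [h3]
      ring
    simp_rw [h2]
    push_cast
    have h4 : ∀ k x, ((‖𝔼 y ∈ range Y, F k (x + (st : ZMod N) * (y : ZMod N))‖ : ℂ) ^ 2) =
        𝔼 y ∈ range Y, 𝔼 y' ∈ range Y, F k (x + (st : ZMod N) * (y : ZMod N)) *
          conj (F k (x + (st : ZMod N) * (y' : ZMod N))) := by
      intro k x
      rw [← norm_sq_expect64]
      push_cast
      rfl
    simp_rw [h4]
    have h6 := expect_comm4_64 S.I (univ : Finset (ZMod N)) (range Y) (range Y)
      (fun (k : ℕ) (x : ZMod N) (y y' : ℕ) =>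
        F k (x + (st : ZMod N) * (y : ZMod N)) * conj (F k (x + (st : ZMod N) * (y' : ZMod N))))
    exact h6
  refine e2.trans ?_
  have h5 := congrArg norm e3
  rw [Complex.norm_real] at h5
  refine (Real.le_norm_self _).trans ?_
  rw [h5]
  refine (norm_expect_le5 _ _).trans (expect_le_expect fun y _ => ?_)
  exact norm_expect_le5 _ _

/-- functions of the block index, dilated by `q⁻¹` -/
def bd {N p : ℕ} (Q q : ℕ) (g : ZMod p → ℂ) : ZMod N → ℂ :=
  blk Q fun y : ZMod p => g (y * (q : ZMod p)⁻¹)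

theorem bd_point {p : ℕ} [NeZero p] (hp : p.Prime) {Q q : ℕ} (hN : N = Q * p) (hq : 1 ≤ q)
    (hqp : q < p) (g : ZMod p → ℂ) (e : ℕ) (he : e < Q) (z : ZMod p) :
    bd (N := N) Q q g ((Q * (q * z.val) + e : ℕ) : ZMod N) = g z := by
  have : Fact p.Prime := ⟨hp⟩
  have hQ : 0 < Q := by omega
  have hq0 : (q : ZMod p) ≠ 0 := by
    rw [Ne, ZMod.natCast_eq_zero_iff]
    intro h
    exact absurd (Nat.le_of_dvd (by omega) h) (by omega)
  unfold bd
  rw [blk_natCast40 hN]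
  have h1 : (Q * (q * z.val) + e) / Q = q * z.val := by
    rw [Nat.mul_add_div hQ, Nat.div_eq_of_lt he, add_zero]
  rw [h1]
  congr 1
  rw [Nat.cast_mul, ZMod.natCast_zmod_val, mul_comm (q : ZMod p) z, mul_assoc,
    mul_inv_cancel₀ hq0, mul_one]

theorem nrm_bd {p : ℕ} [NeZero p] (hp : p.Prime) {Q q : ℕ} (hN : N = Q * p) (hq : 1 ≤ q)
    (hqp : q < p) (g : ZMod p → ℂ) : nrm (bd (N := N) Q q g) = nrm g := by
  have hQ : 0 < Q := by
    rcases Nat.eq_zero_or_pos Q with h | h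
    · exact absurd (by rw [hN, h, zero_mul]) (NeZero.ne N)
    · exact h
  have : NeZero Q := ⟨by omega⟩
  unfold nrm
  rw [← expect_fib hp hN hq hqp (fun x => ‖bd (N := N) Q q g x‖)]
  have h1 : ∀ e : Fin Q, 𝔼 z : ZMod p, ‖bd (N := N) Q q g ((Q * (q * z.val) + e : ℕ) : ZMod N)‖ =
      𝔼 z : ZMod p, ‖g z‖ := by
    intro e
    refine expect_congr rfl fun z _ => ?_
    rw [bd_point hp hN hq hqp g e e.2 z]
  simp_rw [h1]
  exact expect_const univ_nonempty _

theorem bd_shift {p : ℕ} [NeZero p] (hp : p.Prime) {Q q : ℕ} (hN : N = Q * p) (hq : 1 ≤ q)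
    (hqp : q < p) (g : ZMod p → ℂ) (x : ZMod N) (y : ℕ) :
    bd (N := N) Q q g (x + ((Q * q * y : ℕ) : ZMod N)) =
      bd (N := N) Q q (fun z => g (z + (y : ZMod p))) x := by
  have : Fact p.Prime := ⟨hp⟩
  have hQ : 1 ≤ Q := by
    rcases Nat.eq_zero_or_pos Q with h | h
    · exact absurd (by rw [hN, h, zero_mul]) (NeZero.ne N)
    · exact h
  have hq0 : (q : ZMod p) ≠ 0 := by
    rw [Ne, ZMod.natCast_eq_zero_iff]
    intro h
    exact absurd (Nat.le_of_dvd (by omega) h) (by omega)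
  unfold bd
  have h1 : ((Q * q * y : ℕ) : ZMod N) = ((Q * ((q * y : ℕ) : ℤ) : ℤ) : ZMod N) := by
    push_cast
    ring
  rw [h1, blk_add hQ hN]
  unfold blk
  beta_reduce
  congr 1
  push_cast
  rw [add_mul, mul_comm (q : ZMod p) (y : ZMod p), mul_assoc (y : ZMod p), mul_inv_cancel₀ hq0,
    mul_one]

end

end

end Pool.Agent.Helper91.NX2

end

section

set_option autoImplicit false

open Finset

open scoped BigOperators ComplexConjugate

namespace Pool.Agent.Helper91.NX2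

open Pool.Agent.Helper57.NX

open Pool.Agent.Helper67.NX2

noncomputable section

section

variable {m N : ℕ} [NeZero N]

theorem bd_add {p : ℕ} (Q q : ℕ) (u v : ZMod p → ℂ) :
    bd (N := N) Q q (fun z => u z + v z) = fun x => bd Q q u x + bd Q q v x := rfl

theorem bd_sum {p : ℕ} (Q q n : ℕ) (u : ℕ → ZMod p → ℂ) :
    bd (N := N) Q q (fun z => ∑ s ∈ range n, u s z) =
      fun x => ∑ s ∈ range n, bd Q q (u s) x := rfl

end

end

end Pool.Agent.Helper91.NX2

end

section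

set_option autoImplicit false

open Finset

open scoped BigOperators ComplexConjugate

namespace Pool.Agent.Helper82.NX

open Pool.Agent.Helper57.NX

noncomputable section

section Mono

variable {m : ℕ} {S : Sys m} {c : Fin m → ℝ} {δ : ℝ} {M : ℕ}

theorem Adm.conj' {N : ℕ} {B X : ℝ} {f : ZMod N → ℂ} (h : Adm B X f) :
    Adm B X fun x => conj (f x) := by
  refine ⟨fun x => ?_, fun x l => ?_⟩
  · rw [RCLike.norm_conj]
    exact h.bdd x
  · refine le_trans (le_of_eq ?_) (h.tv x l)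
    refine Finset.sum_congr rfl fun j _ => ?_
    rw [← map_sub, RCLike.norm_conj]

end Mono

end

end Pool.Agent.Helper82.NX

end

section

set_option autoImplicit false

set_option linter.unusedSectionVars false

set_option linter.unusedVariables false

open Finset

open scoped BigOperators ComplexConjugate

namespace Pool.Agent.Helper67.NX2

open Pool.Agent.Helper57.NX

noncomputable section

section point

variable {N : ℕ} [NeZero N]

theorem dbq_norm_sq {ι : Type} (s : Finset ι) (f : ι → ℂ) :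
    ‖𝔼 i ∈ s, f i‖ ^ 2 = (𝔼 i ∈ s, 𝔼 j ∈ s, f i * conj (f j)).re := by
  rw [← expect_mul_expect, ← gcs_conj_expect, Complex.mul_conj, Complex.normSq_eq_norm_sq,
    Complex.ofReal_re]

theorem dbq_cjj_mul {k : ℕ} (ω : Fin k → Bool) (z w : ℂ) :
    cjj ω (z * w) = cjj ω z * cjj ω w := by
  unfold cjj
  split_ifs <;> simp

theorem dbq_cjj_conj {k : ℕ} (ω : Fin k → Bool) (z : ℂ) :
    cjj ω (conj z) = conj (cjj ω z) := by
  unfold cjj
  split_ifs <;> simp

theorem dbq_cubeq (q k : ℕ) (f : ZMod N → ℂ) (a b : Fin k → ℕ) (s s' y : ZMod N) :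
    cube (fun y => f ((q : ZMod N) * y + s) * conj (f ((q : ZMod N) * y + s'))) a b y
      = cubeq q f a b ((q : ZMod N) * y + s) * conj (cubeq q f a b ((q : ZMod N) * y + s')) := by
  unfold cube cubeq
  rw [map_prod, ← prod_mul_distrib]
  refine prod_congr rfl fun ω _ => ?_
  rw [dbq_cjj_mul, dbq_cjj_conj]
  have h : ∀ s : ZMod N, (q : ZMod N) * (y + (tot (sel ω a b) : ZMod N)) + s
      = (q : ZMod N) * y + s + ((q * tot (sel ω a b) : ℕ) : ZMod N) := by
    intro s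
    push_cast
    ring
  rw [h, h]

/-- averaging one direction with its own length and step -/
theorem dbq_avg (q : ℕ) (hq : IsUnit (q : ZMod N)) (t k X Y : ℕ) (f : ZMod N → ℂ) :
    𝔼 z ∈ range Y, 𝔼 z' ∈ range Y,
      Box k X (fun y => f ((q : ZMod N) * y + ((t * z : ℕ) : ZMod N))
        * conj (f ((q : ZMod N) * y + ((t * z' : ℕ) : ZMod N))))
    = 𝔼 a ∈ boxset k X, 𝔼 b ∈ boxset k X, 𝔼 x, ‖Aq t Y (cubeq q f a b) x‖ ^ 2 := by
  have hbox : ∀ z z' : ℕ, Box k X (fun y => f ((q : ZMod N) * y + ((t * z : ℕ) : ZMod N))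
        * conj (f ((q : ZMod N) * y + ((t * z' : ℕ) : ZMod N))))
      = 𝔼 a ∈ boxset k X, 𝔼 b ∈ boxset k X, (𝔼 x : ZMod N,
        cubeq q f a b (x + ((t * z : ℕ) : ZMod N))
          * conj (cubeq q f a b (x + ((t * z' : ℕ) : ZMod N)))).re := by
    intro z z'
    unfold Box
    rw [Complex.re_expect]
    refine expect_congr rfl fun a _ => ?_
    rw [Complex.re_expect]
    refine expect_congr rfl fun b _ => ?_
    congr 1
    simp only [dbq_cubeq]
    exact dbq_expect_mul (q : ZMod N) hq (fun x => cubeq q f a b (x + ((t * z : ℕ) : ZMod N))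
          * conj (cubeq q f a b (x + ((t * z' : ℕ) : ZMod N))))
  simp only [hbox]
  have h1 : ∀ z ∈ range Y, 𝔼 z' ∈ range Y, 𝔼 a ∈ boxset k X, 𝔼 b ∈ boxset k X,
      (𝔼 x : ZMod N, cubeq q f a b (x + ((t * z : ℕ) : ZMod N))
          * conj (cubeq q f a b (x + ((t * z' : ℕ) : ZMod N)))).re
      = 𝔼 a ∈ boxset k X, 𝔼 b ∈ boxset k X, 𝔼 z' ∈ range Y, (𝔼 x : ZMod N,
        cubeq q f a b (x + ((t * z : ℕ) : ZMod N))
          * conj (cubeq q f a b (x + ((t * z' : ℕ) : ZMod N)))).re := by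
    intro z _
    rw [expect_comm]
    exact expect_congr rfl fun a _ => expect_comm _ _ _
  rw [expect_congr rfl h1, expect_comm]
  refine expect_congr rfl fun a _ => ?_
  rw [expect_comm]
  refine expect_congr rfl fun b _ => ?_
  have h3 : ∀ x : ZMod N, ‖Aq t Y (cubeq q f a b) x‖ ^ 2
      = 𝔼 z ∈ range Y, 𝔼 z' ∈ range Y, (cubeq q f a b (x + ((t * z : ℕ) : ZMod N))
          * conj (cubeq q f a b (x + ((t * z' : ℕ) : ZMod N)))).re := by
    intro x
    unfold Aq
    rw [dbq_norm_sq, Complex.re_expect]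
    exact expect_congr rfl fun z _ => Complex.re_expect _ _
  simp only [h3, Complex.re_expect]
  symm
  rw [expect_comm]
  exact expect_congr rfl fun z _ => expect_comm _ _ _

/-- one translation changes a long average only a little -/
theorem dbq_A_shift {f : ZMod N → ℂ} (hf : ∀ x, ‖f x‖ ≤ 1) (L : ℕ) (hL : 1 ≤ L)
    (x : ZMod N) (a : ℕ) : ‖A L f (x + (a : ZMod N)) - A L f x‖ ≤ 2 * a / L := by
  have h := dbq_shift (fun t => f (x + (t : ZMod N))) (fun t => hf _) L hL a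
  rw [norm_sub_rev]
  refine le_trans (le_of_eq ?_) h
  congr 1
  unfold A
  congr 1
  refine expect_congr rfl fun j _ => ?_
  congr 1
  push_cast
  ring

/-- averages contract `L²` -/
theorem dbq_l2_Aq_le (s L : ℕ) (g : ZMod N → ℂ) :
    𝔼 x, ‖A L g x‖ ^ 2 ≤ 𝔼 x, ‖g x‖ ^ 2 := by
  calc 𝔼 x, ‖A L g x‖ ^ 2 ≤ 𝔼 x, 𝔼 a ∈ range L, ‖g (x + (a : ZMod N))‖ ^ 2 := by
        refine expect_le_expect fun x _ => ?_
        refine le_trans ?_ (gcs_sq_expect_le _ _)
        exact pow_le_pow_left₀ (norm_nonneg _) (norm_expect_le5 _ _) 2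
    _ = 𝔼 a ∈ range L, 𝔼 x, ‖g (x + (a : ZMod N))‖ ^ 2 := expect_comm _ _ _
    _ = 𝔼 a ∈ range L, 𝔼 x, ‖g x‖ ^ 2 :=
        expect_congr rfl fun a _ => expect_shift (fun x => ‖g x‖ ^ 2) _
    _ ≤ 𝔼 x, ‖g x‖ ^ 2 :=
        expect_le_of5 _ _ (expect_nonneg fun _ _ => by positivity) fun _ _ => le_rfl

/-- shortening one direction -/
theorem dbq_shorten {w : ZMod N → ℂ} (hw : ∀ x, ‖w x‖ ≤ 1) (q X Y : ℕ) (hY : 1 ≤ Y)
    (hX : 1 ≤ X) :
    𝔼 x, ‖Aq 1 X w x‖ ^ 2 ≤ (𝔼 x, ‖Aq q Y w x‖ ^ 2) + 4 * (q * Y) / X := by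
  have hA : ∀ x, Aq 1 X w x = A X w x := by
    intro x
    unfold Aq A
    refine expect_congr rfl fun a _ => ?_
    rw [one_mul]
  simp only [hA]
  have hneY : (range Y).Nonempty := by simpa using (by omega : Y ≠ 0)
  have hX0 : (0 : ℝ) < X := by exact_mod_cast hX
  have h0 : ∀ x, ‖Aq q Y (A X w) x - A X w x‖ ≤ 2 * (q * Y) / X := by
    intro x
    have h1 : Aq q Y (A X w) x - A X w x
        = 𝔼 a ∈ range Y, (A X w (x + ((q * a : ℕ) : ZMod N)) - A X w x) := by
      rw [expect_sub_distrib, expect_const hneY]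
      rfl
    rw [h1]
    refine norm_expect_le_of5 _ _ (by (clear * - hY hX; positivity)) fun a ha => ?_
    refine (dbq_A_shift hw X hX x (q * a)).trans ?_
    have : (a : ℝ) ≤ Y := by exact_mod_cast (mem_range.mp ha).le
    push_cast
    gcongr
  have hAqA : Aq q Y (A X w) = A X (Aq q Y w) := by
    funext x
    unfold Aq A
    rw [expect_comm]
    refine expect_congr rfl fun a _ => expect_congr rfl fun b _ => ?_
    congr 1
    ring
  have hbd : ∀ x, ‖Aq q Y (A X w) x‖ ≤ 1 := by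
    intro x
    unfold Aq
    exact norm_expect_le_of5 _ _ zero_le_one fun a _ => norm_A_le hw X _
  exact by
    have h1 : 𝔼 x, ‖A X w x‖ ^ 2 ≤ (𝔼 x, ‖Aq q Y (A X w) x‖ ^ 2) + 4 * (q * Y) / X := by
      have hc : (𝔼 _x : ZMod N, (4 * ((q : ℝ) * Y) / X)) = 4 * (q * Y) / X :=
        expect_const univ_nonempty _
      rw [← hc, ← expect_add_distrib]
      refine expect_le_expect fun x _ => ?_
      have h2 := h0 x
      have h3 := norm_A_le hw X x
      have h4 := hbd x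
      have h5 : ‖A X w x‖ ≤ ‖Aq q Y (A X w) x‖ + 2 * (q * Y) / X := by
        have := norm_sub_norm_le (A X w x) (Aq q Y (A X w) x)
        rw [norm_sub_rev] at h2
        (clear * - h2 this; linarith)
      have h6 : ‖A X w x‖ ^ 2 - ‖Aq q Y (A X w) x‖ ^ 2
          = (‖A X w x‖ - ‖Aq q Y (A X w) x‖) * (‖A X w x‖ + ‖Aq q Y (A X w) x‖) := by ring
      have h7 : 0 ≤ 2 * ((q : ℝ) * Y) / X := by (clear * - hY hX; positivity)
      have h8 : (‖A X w x‖ - ‖Aq q Y (A X w) x‖) * (‖A X w x‖ + ‖Aq q Y (A X w) x‖)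
          ≤ 2 * (q * Y) / X * 2 := by
        refine mul_le_mul (by (clear * - h5; linarith)) (by (clear * - h3 h4; linarith)) (by (clear * -; positivity)) h7
      have h9 : 2 * ((q : ℝ) * Y) / X * 2 = 4 * (q * Y) / X := by ring
      linarith
    have h2 : 𝔼 x, ‖Aq q Y (A X w) x‖ ^ 2 ≤ 𝔼 x, ‖Aq q Y w x‖ ^ 2 := by
      rw [hAqA]
      exact dbq_l2_Aq_le 1 X _
    (clear * - h1 h2; linarith)

end point

end

end Pool.Agent.Helper67.NX2

end

section

set_option autoImplicit false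

open Finset

open scoped BigOperators ComplexConjugate

namespace Pool.Agent.Helper67.NX2

open Pool.Agent.Helper57.NX

noncomputable section

/-- the systems of the theorem on the integers are good -/
theorem ig21 {s : ℕ} (D x : ℝ) (p Z lam u T : ℕ) (d : Fin (s + 1) → ℕ) (hx : 0 < x)
    (hD4 : 4 ≤ D) (hDu : D ≤ u) (huT : (u : ℝ) + T ≤ 2 * D) (hT : D ^ (1 - x) ≤ T)
    (hlam : 1 ≤ lam) (hZ : ∀ i, ((lam : ℝ) * (3 * D)) ^ (d i) ≤ Z) (hp : p.Prime) (hZp : 2 * Z < p)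
    (hlx : ∀ i, (lam : ℝ) ^ d i ≤ D ^ x) :
    IG (⟨D, 0, ⌈D ^ (2 : ℕ)⌉₊, u, T, fun i => (⌈D ^ (2 : ℕ)⌉₊ : ℝ) * (lam * D) ^ d i⟩ : Sys (s + 1))
      (fun i => (d i : ℝ)) (⌈D ^ (2 : ℕ)⌉₊ * p) x lam := by
  have hD0 : 0 < D := by (clear * - hD4; linarith)
  have hD1 : 1 ≤ D := by (clear * - hD4; linarith)
  have hlam' : (1 : ℝ) ≤ lam := by exact_mod_cast hlam
  set Q : ℕ := ⌈D ^ (2 : ℕ)⌉₊ with hQ
  have hQ1 : D ^ (2 : ℕ) ≤ Q := Nat.le_ceil _
  have hQ2 : (Q : ℝ) < D ^ (2 : ℕ) + 1 := Nat.ceil_lt_add_one (by positivity)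
  exact by
    have hQ0 : (0 : ℝ) < Q := lt_of_lt_of_le (by positivity) hQ1
    have hQD : (Q : ℝ) ≤ 2 * D ^ 2 := by (clear * - hD4 hQ2 hQ0; nlinarith)
    have hZp' : (Z : ℝ) ≤ p := by
      have : Z ≤ p := by omega
      exact_mod_cast this
    have hp1 : (1 : ℝ) ≤ p := by exact_mod_cast hp.one_lt.le
    have hDx : 1 ≤ D ^ x := Real.one_le_rpow hD1 hx.le
    refine ⟨⟨le_rfl, zero_le_one, ?_, ?_, ?_, ?_, ?_, ?_, hDu, huT, hT⟩, ?_, hlam, ⟨0, by simp⟩, ?_,
      ⟨p, hp, rfl⟩⟩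
    · change D ^ (2 : ℝ) ≤ Q
      rw [show (2 : ℝ) = ((2 : ℕ) : ℝ) by norm_num, Real.rpow_natCast]
      exact hQ1
    · change (Q : ℝ) ≤ D ^ (3 : ℝ)
      rw [show (3 : ℝ) = ((3 : ℕ) : ℝ) by norm_num, Real.rpow_natCast]
      (clear * - hQ0 hQD hD4; nlinarith)
    · intro i
      change (Q : ℝ) * D ^ ((d i : ℝ) - x) ≤ Q * (lam * D) ^ d i
      refine mul_le_mul_of_nonneg_left ?_ hQ0.le
      calc D ^ ((d i : ℝ) - x) ≤ D ^ (d i : ℝ) := Real.rpow_le_rpow_of_exponent_le hD1 (by (clear * - hx; linarith))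
        _ = D ^ d i := Real.rpow_natCast _ _
        _ ≤ (lam * D) ^ d i := pow_le_pow_left₀ hD0.le (by (clear * - hlam' hD4; nlinarith)) _
    · intro i
      change (Q : ℝ) * (lam * D) ^ d i ≤ Q * D ^ ((d i : ℝ) + x)
      refine mul_le_mul_of_nonneg_left ?_ hQ0.le
      rw [mul_pow, Real.rpow_add hD0, Real.rpow_natCast, mul_comm]
      exact mul_le_mul_of_nonneg_left (hlx i) (by positivity)
    · intro i
      change (Q : ℝ) * (lam * D) ^ d i ≤ ((Q * p : ℕ) : ℝ) * D ^ x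
      have h1 : (lam * D) ^ d i ≤ p := by
        refine le_trans ?_ ((hZ i).trans hZp')
        exact pow_le_pow_left₀ (by positivity) (by (clear * - hlam' hD4; nlinarith)) _
      push_cast
      calc (Q : ℝ) * (lam * D) ^ d i ≤ Q * p * 1 := by
            rw [mul_one]
            exact mul_le_mul_of_nonneg_left h1 hQ0.le
        _ ≤ Q * p * D ^ x := mul_le_mul_of_nonneg_left hDx (by positivity)
    · change (Q : ℝ) ≤ ((Q * p : ℕ) : ℝ)
      push_cast
      exact le_mul_of_one_le_right hQ0.le hp1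
    · change (Q : ℝ) ≤ D ^ (5 / 2 + x)
      exact by
        have h1 : D ^ (5 / 2 + x) = D ^ 2 * (D ^ (1 / 2 : ℝ) * D ^ x) := by
          rw [← Real.rpow_natCast, ← Real.rpow_add hD0, ← Real.rpow_add hD0]
          congr 1
          push_cast
          ring
        have h2 : (2 : ℝ) ≤ D ^ (1 / 2 : ℝ) := by
          calc (2 : ℝ) = 4 ^ (1 / 2 : ℝ) := by
                rw [show (4 : ℝ) = 2 ^ (2 : ℝ) by norm_num, ← Real.rpow_mul (by norm_num)]
                norm_num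
            _ ≤ D ^ (1 / 2 : ℝ) := Real.rpow_le_rpow (by norm_num) hD4 (by norm_num)
        rw [h1]
        have h3 : 2 * 1 ≤ D ^ (1 / 2 : ℝ) * D ^ x := mul_le_mul h2 hDx zero_le_one (by positivity)
        (clear * - hQD h3; nlinarith [sq_nonneg D])
    · intro i d' hd'
      have h1 : d i = d' := by exact_mod_cast hd'
      change (Q : ℝ) * (lam * D) ^ d i = Q * (lam * D) ^ d'
      rw [h1]

end

end Pool.Agent.Helper67.NX2

end

section

set_option autoImplicit false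

open Finset

open scoped BigOperators ComplexConjugate

namespace Pool.Agent.Helper67.NX2

open Pool.Agent.Helper57.NX

noncomputable section

/-- the conclusion of `local_thm` -/
def LocThm8 (s : ℕ) (d : Fin (s + 1) → ℕ) : Prop :=
    ∃ C : ℕ, ∀ δ : ℝ, 0 < δ → δ ≤ 1 / 2 →
    ∀ K : ℕ, 1 ≤ K → (K : ℝ) ≤ δ⁻¹ → ∀ (M : ℕ) [NeZero M] (φ : Option (Fin (s + 1)) → ZMod M → ℝ),
    (∀ o x, |φ o x| ≤ 1) → δ ≤ |lfm d K M φ| →
    ∃ q : ℕ, 1 ≤ q ∧ (q : ℝ) ≤ δ⁻¹ ^ C ∧ ∀ o,
      δ ^ C ≤ 𝔼 x : ZMod M, |𝔼 a : ZMod M, φ o (x + (q : ZMod M) * a)|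

theorem abs_lfm_le8 {s : ℕ} (d : Fin s → ℕ) (K M : ℕ) [NeZero M]
    (φ : Option (Fin s) → ZMod M → ℝ) (W : Option (Fin s) → ℝ) (h : ∀ o x, |φ o x| ≤ W o) :
    |lfm d K M φ| ≤ ∏ o, W o := by
  unfold lfm
  refine (abs_expect_le _ _).trans (expect_le univ_nonempty fun ρ _ => ?_)
  refine (abs_expect_le _ _).trans (expect_le univ_nonempty fun κ _ => ?_)
  rw [abs_prod]
  exact prod_le_prod (fun o _ => abs_nonneg _) fun o _ => h o _

theorem lfm_mul8 {s : ℕ} (d : Fin s → ℕ) (K M : ℕ) [NeZero M]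
    (φ : Option (Fin s) → ZMod M → ℝ) (W : Option (Fin s) → ℝ) :
    lfm d K M (fun o x => W o * φ o x) = (∏ o, W o) * lfm d K M φ := by
  unfold lfm
  simp only [prod_mul_distrib, mul_expect]

theorem lfm_upd8 {s : ℕ} (d : Fin s → ℕ) (K M : ℕ) [NeZero M]
    (g : Option (Fin s) → ZMod M → ℝ) (o0 : Option (Fin s)) (f1 f2 : ZMod M → ℝ) :
    lfm d K M (fun o x => if o = o0 then f1 x else g o x) -
      lfm d K M (fun o x => if o = o0 then f2 x else g o x) =
      lfm d K M (fun o x => if o = o0 then f1 x - f2 x else g o x) := by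
  unfold lfm
  rw [← expect_sub_distrib]
  refine expect_congr rfl fun ρ _ => ?_
  rw [← expect_sub_distrib]
  refine expect_congr rfl fun κ _ => ?_
  have key : ∀ f : ZMod M → ℝ, (∏ o : Option (Fin s), if o = o0 then
      f (ρ + sh d ((K : ZMod M) * κ) o) else g o (ρ + sh d ((K : ZMod M) * κ) o)) =
      f (ρ + sh d ((K : ZMod M) * κ) o0) *
        ∏ o ∈ univ.erase o0, g o (ρ + sh d ((K : ZMod M) * κ) o) := by
    intro f
    rw [← mul_prod_erase univ _ (mem_univ o0), if_pos rfl]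
    congr 1
    refine prod_congr rfl fun o ho => ?_
    rw [if_neg (ne_of_mem_erase ho)]
  rw [key f1, key f2, key (fun x => f1 x - f2 x)]
  ring

theorem lfm_small8 (s : ℕ) (d : Fin (s + 1) → ℕ) (hloc : LocThm8 s d) : ∃ c : ℝ, 0 < c ∧ ∀ (y N : ℕ) [NeZero N], 1 ≤ y →
    (∀ p : ℕ, p.Prime → p ∣ N → y < p) →
    ∀ φ : Option (Fin (s + 1)) → ZMod N → ℝ, (∀ o x, |φ o x| ≤ 1) →
    ∀ o0, 𝔼 x, φ o0 x = 0 → |lfm d 1 N φ| ≤ 2 * (y : ℝ) ^ (-c) := by
  obtain ⟨C, hC⟩ := hloc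
  have hC1 : (0 : ℝ) < (C : ℝ) + 1 := by (clear * -; positivity)
  refine ⟨1 / (C + 1), by (clear * -; positivity), ?_⟩
  intro y N _ hy hN φ hφ o0 h0
  have hy1 : (1 : ℝ) ≤ y := by exact_mod_cast hy
  have hy0 : (0 : ℝ) < y := by (clear * - hy1; linarith)
  obtain ⟨δ, hδ⟩ : ∃ δ : ℝ, δ = (y : ℝ) ^ (-(1 / ((C : ℝ) + 1))) := ⟨_, rfl⟩
  rw [← hδ]
  have hδpos : 0 < δ := by rw [hδ]; positivity
  by_contra hcon
  push Not at hcon
  have h1 : |lfm d 1 N φ| ≤ 1 := by
    have := abs_lfm_le8 d 1 N φ (fun _ => 1) hφ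
    simpa using this
  have hδ2 : δ ≤ 1 / 2 := by (clear * - hcon h1; linarith)
  exact by
    have hδinv1 : 1 ≤ δ⁻¹ := (one_le_inv₀ hδpos).2 (by (clear * - hδpos hcon h1; linarith))
    obtain ⟨q, hq1, hq2, hq3⟩ := hC δ hδpos hδ2 1 le_rfl (by simpa using hδinv1) N φ hφ (by (clear * - hδpos hcon; linarith))
    have hqy : (q : ℝ) ≤ y := by
      refine hq2.trans ?_
      have h2 : δ⁻¹ = (y : ℝ) ^ (1 / ((C : ℝ) + 1)) := by
        rw [hδ, Real.rpow_neg hy0.le, inv_inv]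
      rw [h2, ← Real.rpow_natCast, ← Real.rpow_mul hy0.le]
      calc (y : ℝ) ^ (1 / ((C : ℝ) + 1) * C) ≤ (y : ℝ) ^ (1 : ℝ) := by
            refine Real.rpow_le_rpow_of_exponent_le hy1 ?_
            rw [one_div, inv_mul_le_iff₀ hC1]
            (clear * - hδpos hcon h1; linarith)
        _ = y := Real.rpow_one _
    have hqy' : q ≤ y := by exact_mod_cast hqy
    have hcop : Nat.Coprime q N := by
      by_contra hc
      obtain ⟨p, hp, hpq, hpN⟩ := Nat.Prime.not_coprime_iff_dvd.1 hc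
      have h2 := hN p hp hpN
      have h3 := Nat.le_of_dvd (by omega) hpq
      omega
    have hu : IsUnit (q : ZMod N) := (ZMod.isUnit_iff_coprime q N).2 hcop
    have h4 : ∀ x, 𝔼 a : ZMod N, φ o0 (x + (q : ZMod N) * a) = 0 := by
      intro x
      rw [← h0]
      exact Fintype.expect_equiv ((Units.mulLeft hu.unit).trans (Equiv.addLeft x)) _ _ fun _ => rfl
    have h5 := hq3 o0
    simp only [h4, abs_zero, expect_const_zero] at h5
    have h6 : 0 < δ ^ C := by (clear * - hδpos; positivity)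
    (clear * - h5 h6; linarith)

theorem peel_in8 (s : ℕ) (d : Fin (s + 1) → ℕ) (hloc : LocThm8 s d) : ∃ c : ℝ, 0 < c ∧ ∀ (y N : ℕ) [NeZero N], 1 ≤ y →
    (∀ p : ℕ, p.Prime → p ∣ N → y < p) → ∀ V : ℝ, 0 < V →
    ∀ φ : Option (Fin (s + 1)) → ZMod N → ℝ, (∀ o x, |φ o x| ≤ V) →
    |lfm d 1 N φ - ∏ o, 𝔼 x, φ o x| ≤ (s + 2) * (4 * V ^ (s + 2) * (y : ℝ) ^ (-c)) := by
  classical
  obtain ⟨c, hc, hsm⟩ := lfm_small8 s d hloc
  refine ⟨c, hc, ?_⟩
  intro y N _ hy hN V hV φ hφ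
  obtain ⟨mm, hmm⟩ : ∃ mm : Option (Fin (s + 1)) → ℝ, ∀ o, mm o = 𝔼 x, φ o x := ⟨_, fun _ => rfl⟩
  have hmV : ∀ o, |mm o| ≤ V := by
    intro o
    rw [hmm]
    exact (abs_expect_le _ _).trans (expect_le univ_nonempty fun x _ => hφ o x)
  have key : ∀ S : Finset (Option (Fin (s + 1))),
      |lfm d 1 N φ - lfm d 1 N (fun o x => if o ∈ S then mm o else φ o x)| ≤
        (S.card : ℝ) * (4 * V ^ (s + 2) * (y : ℝ) ^ (-c)) := by
    intro S
    induction S using Finset.induction_on with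
    | empty => simp
    | insert o0 S ho0 ih =>
      have h1 : lfm d 1 N (fun o x => if o ∈ S then mm o else φ o x) =
          lfm d 1 N (fun o x => if o = o0 then φ o0 x else (if o ∈ S then mm o else φ o x)) := by
        congr 1
        funext o x
        by_cases h : o = o0
        · rw [h, if_neg ho0, if_pos rfl]
        · rw [if_neg h]
      exact by
        have h2 : lfm d 1 N (fun o x => if o ∈ insert o0 S then mm o else φ o x) =
            lfm d 1 N (fun o x => if o = o0 then mm o0 else (if o ∈ S then mm o else φ o x)) := by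
          congr 1
          funext o x
          by_cases h : o = o0
          · rw [h, if_pos (mem_insert_self _ _), if_pos rfl]
          · rw [if_neg h]
            by_cases h' : o ∈ S
            · rw [if_pos h', if_pos (mem_insert_of_mem h')]
            · rw [if_neg h', if_neg (by simp [h, h'])]
        have h3 := lfm_upd8 d 1 N (fun o x => if o ∈ S then mm o else φ o x) o0 (φ o0)
          (fun _ => mm o0)
        rw [← h1, ← h2] at h3
        -- the scaled functions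
        have h4 : lfm d 1 N (fun o x => if o = o0 then φ o0 x - mm o0 else
            (if o ∈ S then mm o else φ o x)) =
            (∏ o, (if o = o0 then 2 * V else V)) * lfm d 1 N (fun o x => if o = o0 then
              (φ o0 x - mm o0) / (2 * V) else (if o ∈ S then mm o else φ o x) / V) := by
          rw [← lfm_mul8]
          congr 1
          funext o x
          by_cases h : o = o0
          · rw [if_pos h, if_pos h, if_pos h]
            (clear * - hV; field_simp)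
          · rw [if_neg h, if_neg h, if_neg h]
            (clear * - hV; field_simp)
        have h5 : (∏ o : Option (Fin (s + 1)), (if o = o0 then 2 * V else V)) =
            2 * V ^ (s + 2) := by
          rw [← mul_prod_erase univ _ (mem_univ o0), if_pos rfl,
            prod_congr rfl (fun o ho => if_neg (ne_of_mem_erase ho)), prod_const,
            card_erase_of_mem (mem_univ _), card_univ, Fintype.card_option, Fintype.card_fin]
          have : s + 1 + 1 - 1 = s + 1 := by omega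
          rw [this]
          ring
        have h6 := hsm y N hy hN (fun o x => if o = o0 then
              (φ o0 x - mm o0) / (2 * V) else (if o ∈ S then mm o else φ o x) / V) (by
          intro o x
          by_cases h : o = o0
          · simp only [if_pos h]
            rw [abs_div, abs_of_pos (by (clear * - hV; positivity) : 0 < 2 * V), div_le_one (by positivity)]
            calc |φ o0 x - mm o0| ≤ |φ o0 x| + |mm o0| := abs_sub _ _
              _ ≤ 2 * V := by (clear * - hφ hmV; linarith [hφ o0 x, hmV o0])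
          · simp only [if_neg h]
            rw [abs_div, abs_of_pos hV, div_le_one hV]
            split_ifs
            · exact hmV o
            · exact hφ o x) o0 (by
          simp only [if_true]
          rw [← expect_div, expect_sub_distrib, expect_const univ_nonempty, ← hmm, sub_self,
            zero_div])
        have h7 : |lfm d 1 N (fun o x => if o ∈ S then mm o else φ o x) -
            lfm d 1 N (fun o x => if o ∈ insert o0 S then mm o else φ o x)| ≤
            4 * V ^ (s + 2) * (y : ℝ) ^ (-c) := by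
          rw [h3, h4, h5, abs_mul, abs_of_pos (by positivity : 0 < 2 * V ^ (s + 2))]
          have := mul_le_mul_of_nonneg_left h6 (show 0 ≤ 2 * V ^ (s + 2) by positivity)
          (clear * - this; linarith)
        rw [card_insert_of_notMem ho0]
        have h8 := abs_sub_le (lfm d 1 N φ) (lfm d 1 N (fun o x => if o ∈ S then mm o else φ o x))
          (lfm d 1 N (fun o x => if o ∈ insert o0 S then mm o else φ o x))
        push_cast
        (clear * - ih h7 h8; linarith)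
  have h9 := key univ
  have h10 : lfm d 1 N (fun o x => if o ∈ (univ : Finset (Option (Fin (s + 1)))) then mm o
      else φ o x) = ∏ o, 𝔼 x, φ o x := by
    simp only [mem_univ, if_true]
    unfold lfm
    simp only [expect_const univ_nonempty]
    exact prod_congr rfl fun o _ => hmm o
  rw [h10, card_univ, Fintype.card_option, Fintype.card_fin] at h9
  push_cast at h9
  have : (s : ℝ) + 1 + 1 = s + 2 := by ring
  rwa [this] at h9

theorem peel_of8 (s : ℕ) (d : Fin (s + 1) → ℕ) (hloc : LocThm8 s d) : ∃ c : ℝ, 0 < c ∧ ∃ C : ℝ, 0 < C ∧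
    ∀ (V : ℝ) (y K M N : ℕ) [NeZero M] [NeZero (M * N)], 0 ≤ V → 1 ≤ y → 1 ≤ K →
    Nat.Coprime M N → Nat.Coprime K N → (∀ p : ℕ, p.Prime → p ∣ N → y < p) →
    ∀ H : Option (Fin (s + 1)) → ZMod (M * N) → ℝ, (∀ o x, |H o x| ≤ V) →
    |lfm d K (M * N) H - lfm d K M (fun o => fav M (H o))| ≤ C * V ^ (s + 2) * (y : ℝ) ^ (-c) := by
  classical
  obtain ⟨c, hc, hin⟩ := peel_in8 s d hloc
  refine ⟨c, hc, (s + 2) * 4, by (clear * -; positivity), ?_⟩
  intro V y K M N _ _ hV hy hK hMN hKN hN H hH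
  have hN0 : N ≠ 0 := by
    rintro rfl
    exact (NeZero.ne (M * 0)) (by simp)
  have : NeZero N := ⟨hN0⟩
  set e := ZMod.chineseRemainder hMN with he
  have he1 : ∀ x : ZMod (M * N), (e x).1 = ((x.val : ℕ) : ZMod M) := by
    intro x
    have h1 : e x = (((x.val : ℕ) : ZMod M), ((x.val : ℕ) : ZMod N)) := by
      conv_lhs => rw [← ZMod.natCast_zmod_val x]
      rw [map_natCast]
      rfl
    rw [h1]
  -- the fibre averages
  have hfav : ∀ (F : ZMod (M * N) → ℝ) (r : ZMod M), fav M F r = 𝔼 z : ZMod N, F (e.symm (r, z)) := by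
    intro F r
    unfold fav
    refine expect_nbij' (fun x => (e x).2) (fun z => e.symm (r, z)) (fun x _ => mem_univ _) ?_ ?_ ?_ ?_
    · intro z _
      rw [mem_filter]
      refine ⟨mem_univ _, ?_⟩
      rw [← he1, RingEquiv.apply_symm_apply]
    · intro x hx
      rw [mem_filter] at hx
      rw [← hx.2, ← he1, Prod.mk.eta, RingEquiv.symm_apply_apply]
    · intro z _
      rw [RingEquiv.apply_symm_apply]
    · intro x hx
      rw [mem_filter] at hx
      rw [← hx.2, ← he1, Prod.mk.eta, RingEquiv.symm_apply_apply]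
  have hexp : ∀ F : ZMod (M * N) → ℝ, 𝔼 x, F x = 𝔼 r : ZMod M, 𝔼 z : ZMod N, F (e.symm (r, z)) := by
    intro F
    rw [Fintype.expect_equiv e.toEquiv F (fun p => F (e.symm p)) (fun x => by
      change F x = F (e.symm (e x))
      rw [RingEquiv.symm_apply_apply]), ← univ_product_univ, expect_product]
  exact by
    have hu : IsUnit (K : ZMod N) := (ZMod.isUnit_iff_coprime K N).2 hKN
    have hsh : ∀ (r : ZMod M) (z : ZMod N) (r' : ZMod M) (z' : ZMod N) (o : Option (Fin (s + 1))),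
        e.symm (r, z) + sh d ((K : ZMod (M * N)) * e.symm (r', z')) o =
        e.symm (r + sh d ((K : ZMod M) * r') o, z + sh d ((K : ZMod N) * z') o) := by
      intro r z r' z' o
      apply e.injective
      rw [map_add, RingEquiv.apply_symm_apply, RingEquiv.apply_symm_apply]
      cases o with
      | none => simp [sh]
      | some i =>
        simp only [sh, map_pow, map_mul, map_natCast, RingEquiv.apply_symm_apply]
        rfl
    have hmain : lfm d K (M * N) H = 𝔼 r : ZMod M, 𝔼 r' : ZMod M, lfm d 1 N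
        (fun o z => H o (e.symm (r + sh d ((K : ZMod M) * r') o, z))) := by
      unfold lfm
      rw [hexp]
      refine expect_congr rfl fun r _ => ?_
      have h1 : ∀ z : ZMod N, (𝔼 κ : ZMod (M * N), ∏ o, H o (e.symm (r, z) +
          sh d ((K : ZMod (M * N)) * κ) o)) = 𝔼 r' : ZMod M, 𝔼 z' : ZMod N,
          ∏ o, H o (e.symm (r + sh d ((K : ZMod M) * r') o, z + sh d ((K : ZMod N) * z') o)) := by
        intro z
        rw [hexp]
        simp only [hsh]
      simp only [h1]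
      rw [expect_comm]
      refine expect_congr rfl fun r' _ => expect_congr rfl fun z _ => ?_
      refine Fintype.expect_equiv (Units.mulLeft hu.unit) _ _ fun z' => ?_
      simp only [Units.mulLeft_apply, IsUnit.unit_spec, Nat.cast_one, one_mul]
    have hmain2 : lfm d K M (fun o => fav M (H o)) = 𝔼 r : ZMod M, 𝔼 r' : ZMod M,
        ∏ o, 𝔼 z : ZMod N, H o (e.symm (r + sh d ((K : ZMod M) * r') o, z)) := by
      unfold lfm
      simp only [hfav]
    rcases eq_or_lt_of_le hV with hV0 | hV0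
    · have hH0 : ∀ o x, H o x = 0 := fun o x => by
        have := hH o x
        rw [← hV0] at this
        exact abs_nonpos_iff.1 this
      rw [hmain, hmain2]
      unfold lfm
      have hz : (∏ _o : Option (Fin (s + 1)), (0 : ℝ)) = 0 := by
        rw [prod_const]
        exact zero_pow (by simp)
      simp only [hH0, expect_const_zero, hz, sub_self, abs_zero]
      (clear * - hV hy; positivity)
    rw [hmain, hmain2, ← expect_sub_distrib]
    refine (abs_expect_le _ _).trans (expect_le univ_nonempty fun r _ => ?_)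
    rw [← expect_sub_distrib]
    refine (abs_expect_le _ _).trans (expect_le univ_nonempty fun r' _ => ?_)
    refine (hin y N hy hN V hV0 _ fun o z => hH o _).trans (le_of_eq ?_)
    ring

end

end Pool.Agent.Helper67.NX2

end

section

set_option autoImplicit false

open Finset

open scoped BigOperators ComplexConjugate

namespace Pool.Agent.Helper67.NX2

open Pool.Agent.Helper57.NX

noncomputable section

namespace VB

/-- expansion of the factors in `B` -/
theorem DS_split (F : ℕ → ℝ) (K r1 b j : ℕ) (B E : Finset ℕ) (hBE : Disjoint B E) (κ t : ℕ)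
    (ω : ℕ → ℕ) :
    DS F K r1 b j (B ∪ E) κ (fun p => if p ∈ B then ω p else t) =
      ∑ T ∈ B.powerset, (-1) ^ (B \ T).card * ((∑ y ∈ bl b j, F y *
        ((if y ≡ κ [MOD K] then (K : ℝ) else 0) *
          ∏ p ∈ T, (if y ≡ ω p [MOD p ^ r1] then (p : ℝ) ^ r1 else 0)) *
        ∏ p ∈ E, ((if y ≡ t [MOD p ^ r1] then (p : ℝ) ^ r1 else 0) - 1)) / 2 ^ b) := by
  classical
  unfold DS
  have key : ∀ y : ℕ, F y * (if y ≡ κ [MOD K] then (K : ℝ) else 0) *
      ∏ p ∈ B ∪ E, ((if y ≡ (if p ∈ B then ω p else t) [MOD p ^ r1] then (p : ℝ) ^ r1 else 0) - 1) =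
      ∑ T ∈ B.powerset, (-1) ^ (B \ T).card * (F y *
        ((if y ≡ κ [MOD K] then (K : ℝ) else 0) *
          ∏ p ∈ T, (if y ≡ ω p [MOD p ^ r1] then (p : ℝ) ^ r1 else 0)) *
        ∏ p ∈ E, ((if y ≡ t [MOD p ^ r1] then (p : ℝ) ^ r1 else 0) - 1)) := by
    intro y
    rw [prod_union hBE]
    have h1 : ∏ p ∈ B, ((if y ≡ (if p ∈ B then ω p else t) [MOD p ^ r1] then (p : ℝ) ^ r1 else 0) - 1)
        = ∑ T ∈ B.powerset, (∏ p ∈ T, (if y ≡ ω p [MOD p ^ r1] then (p : ℝ) ^ r1 else 0)) *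
          (-1) ^ (B \ T).card := by
      rw [prod_congr rfl (g := fun p => (if y ≡ ω p [MOD p ^ r1] then (p : ℝ) ^ r1 else 0) + (-1))
        (fun p hp => by rw [if_pos hp, sub_eq_add_neg]), prod_add]
      exact sum_congr rfl fun T _ => by rw [prod_const]
    have h2 : ∏ p ∈ E, ((if y ≡ (if p ∈ B then ω p else t) [MOD p ^ r1] then (p : ℝ) ^ r1 else 0) - 1)
        = ∏ p ∈ E, ((if y ≡ t [MOD p ^ r1] then (p : ℝ) ^ r1 else 0) - 1) :=
      prod_congr rfl fun p hp => by rw [if_neg (disjoint_right.1 hBE hp)]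
    rw [h1, h2, sum_mul, mul_sum]
    exact sum_congr rfl fun T _ => by ring
  rw [sum_congr rfl fun y _ => key y, sum_comm, sum_div]
  refine sum_congr rfl fun T _ => ?_
  rw [← mul_sum, mul_div_assoc]

/-- one term of the expansion -/
theorem term_bound (r0 r1 : ℕ) (hr1 : 1 ≤ r1) {C1 C2 C3 : ℝ} (hC1 : 0 < C1)
    (hpars : ∀ (E : Finset ℕ), (∀ p ∈ E, p.Prime) → ∀ (Y : Finset ℕ) (f : ℕ → ℝ),
      𝔼 t ∈ range (∏ p ∈ E, p ^ r1), (∑ y ∈ Y, f y *
          ∏ p ∈ E, ((if y ≡ t [MOD p ^ r1] then (p : ℝ) ^ r1 else 0) - 1)) ^ 2 =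
        ∑ a ∈ AEs r1 E, ‖∑ y ∈ Y, (f y : ℂ) *
          e ((a : ℝ) / ((∏ p ∈ E, p ^ r1 : ℕ) : ℝ) * y)‖ ^ 2)
    (hls : ∀ N0 N M c R Q0 : ℕ, 2 ≤ R → R ≤ N → 1 ≤ M → 1 ≤ Q0 →
      (M * Q0) ^ 16 ≤ N → (∀ p : ℕ, p.Prime → p ∣ M → p ≤ R) →
      ∀ P : Finset (ℕ × ℕ), (∀ x ∈ P, 1 ≤ x.1 ∧ x.1 ≤ Q0 ∧ Nat.Coprime x.1 M ∧
        ∀ p : ℕ, p.Prime → p ∣ x.1 → p ≤ R) →
      (∀ x ∈ P, ∀ y ∈ P, x ≠ y → ∀ m : ℤ, (x.2 : ℤ) * y.1 - y.2 * x.1 ≠ m * (x.1 * y.1)) →
      ∀ f : ℕ → ℝ, (∀ y, f y ≠ 0 → y.Prime ∧ N ≤ y ^ 4) →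
      ∑ x ∈ P, ‖∑ y ∈ (Ico N0 (N0 + N)).filter (fun y => y ≡ c [MOD M]),
          (f y : ℂ) * e ((x.2 : ℝ) / x.1 * y)‖ ^ 2 ≤
        C1 * (Real.log R / Real.log N) * (N / M) *
          ∑ y ∈ (Ico N0 (N0 + N)).filter (fun y => y ≡ c [MOD M]), f y ^ 2)
    (hcell : ∀ (z : ℕ) (A : Finset ℕ), PrA z A → ∀ b j M : ℕ, 1 ≤ b →
      b ≤ z → 1 ≤ M → M ^ 2 < 2 ^ b → ∀ ρ : ZMod M,
      cell (FA z A) M b j ρ ≤ C2 * (z / b) * (M / M.totient))
    (htot : ∀ M R : ℕ, 1 ≤ M → 2 ≤ R →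
      (∀ p : ℕ, p.Prime → p ∣ M → p ≤ R) → (M : ℝ) / M.totient ≤ C3 * Real.log R)
    (hC2 : 0 < C2)
    (z : ℕ) (A : Finset ℕ) (hA : PrA z A) (b j K R : ℕ) (hb1 : 1 ≤ b) (hbz : b ≤ z) (hR : 2 ≤ R)
    (hRb : R ≤ 2 ^ b) (hK : 1 ≤ K) (hsize : (K * R ^ (2 * r0 * r1)) ^ 16 ≤ 2 ^ b)
    (hKR : ∀ p : ℕ, p.Prime → p ∣ K → p ≤ R) (PP : Finset ℕ)
    (hPP : ∀ p ∈ PP, p.Prime ∧ p ≤ R ∧ ¬ p ∣ K) (κ : ℕ) (B : Finset ℕ) (ω : ℕ → ℕ)
    (hB : B ⊆ PP) (hBc : B.card ≤ r0) (T : Finset ℕ) (hT : T ⊆ B) :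
    ∑ E ∈ (PP \ B).powerset.filter (fun E => (B ∪ E).card ≤ r0),
      𝔼 t ∈ range (∏ p ∈ E, p ^ r1), ((∑ y ∈ bl b j, FA z A y *
        ((if y ≡ κ [MOD K] then (K : ℝ) else 0) *
          ∏ p ∈ T, (if y ≡ ω p [MOD p ^ r1] then (p : ℝ) ^ r1 else 0)) *
        ∏ p ∈ E, ((if y ≡ t [MOD p ^ r1] then (p : ℝ) ^ r1 else 0) - 1)) / 2 ^ b) ^ 2 ≤
      C1 * C2 * C3 * (z / b * Real.log R) ^ 2 := by
  classical
  set Es := (PP \ B).powerset.filter (fun E => (B ∪ E).card ≤ r0) with hEs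
  have hTP : ∀ p ∈ T, p.Prime ∧ p ≤ R ∧ ¬ p ∣ K := fun p hp => hPP p (hB (hT hp))
  have hTc : T.card ≤ r0 := (card_le_card hT).trans hBc
  have hEP : ∀ E ∈ Es, ∀ p ∈ E, p.Prime ∧ p ≤ R ∧ ¬ p ∣ K := fun E hE p hp =>
    hPP p (mem_sdiff.1 (mem_powerset.1 (mem_filter.1 hE).1 hp)).1
  have hEB : ∀ E ∈ Es, Disjoint B E := fun E hE =>
    disjoint_left.2 fun p hp hpE => (mem_sdiff.1 (mem_powerset.1 (mem_filter.1 hE).1 hpE)).2 hp
  have hEc : ∀ E ∈ Es, E.card ≤ r0 := fun E hE =>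
    (card_le_card subset_union_right).trans (mem_filter.1 hE).2
  exact by
    obtain ⟨c, hc⟩ := crt r1 K κ ω T fun p hp => ⟨(hTP p hp).1, (hTP p hp).2.2⟩
    set M := K * ∏ p ∈ T, p ^ r1 with hM
    have hTpos : 0 < ∏ p ∈ T, p ^ r1 := prod_pos fun p hp => pow_pos (hTP p hp).1.pos r1
    have hM1 : 1 ≤ M := Nat.mul_pos hK hTpos
    set Y := (bl b j).filter (fun y => y ≡ c [MOD M]) with hY
    have hblk : bl b j = Ico (2 ^ b * j) (2 ^ b * j + 2 ^ b) := by
      unfold bl; rw [mul_add, mul_one]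
    -- rewriting the inner sum
    have h1 : ∀ E t, (∑ y ∈ bl b j, FA z A y *
          ((if y ≡ κ [MOD K] then (K : ℝ) else 0) *
            ∏ p ∈ T, (if y ≡ ω p [MOD p ^ r1] then (p : ℝ) ^ r1 else 0)) *
          ∏ p ∈ E, ((if y ≡ t [MOD p ^ r1] then (p : ℝ) ^ r1 else 0) - 1)) / 2 ^ b =
        (M / 2 ^ b : ℝ) * ∑ y ∈ Y, FA z A y *
          ∏ p ∈ E, ((if y ≡ t [MOD p ^ r1] then (p : ℝ) ^ r1 else 0) - 1) := by
      intro E t
      rw [hY, sum_filter, mul_sum, sum_div]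
      refine sum_congr rfl fun y _ => ?_
      rw [prod_ite r1 K κ y c ω T (hc y)]
      split_ifs
      · ring
      · ring
    exact by
      have h2 : ∀ E ∈ Es, 𝔼 t ∈ range (∏ p ∈ E, p ^ r1), ((∑ y ∈ bl b j, FA z A y *
            ((if y ≡ κ [MOD K] then (K : ℝ) else 0) *
              ∏ p ∈ T, (if y ≡ ω p [MOD p ^ r1] then (p : ℝ) ^ r1 else 0)) *
            ∏ p ∈ E, ((if y ≡ t [MOD p ^ r1] then (p : ℝ) ^ r1 else 0) - 1)) / 2 ^ b) ^ 2 =
          (M / 2 ^ b : ℝ) ^ 2 * ∑ a ∈ AEs r1 E, ‖∑ y ∈ Y, (FA z A y : ℂ) *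
              e ((a : ℝ) / ((∏ p ∈ E, p ^ r1 : ℕ) : ℝ) * y)‖ ^ 2 := by
        intro E hE
        rw [← hpars E (fun p hp => (hEP E hE p hp).1) Y (FA z A), mul_expect]
        refine expect_congr rfl fun t _ => ?_
        rw [h1, mul_pow]
      rw [sum_congr rfl h2, ← mul_sum]
      -- the set of fractions
      set g : (Σ _ : Finset ℕ, ℕ) → ℕ × ℕ := fun x => (∏ p ∈ x.1, p ^ r1, x.2) with hg
      set P : Finset (ℕ × ℕ) := (Es.sigma fun E => AEs r1 E).image g with hP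
      have hinj : ∀ x ∈ Es.sigma (fun E => AEs r1 E), ∀ y ∈ Es.sigma (fun E => AEs r1 E),
          ∀ m : ℤ, ((g x).2 : ℤ) * (g y).1 - (g y).2 * (g x).1 = m * ((g x).1 * (g y).1) → x = y := by
        rintro ⟨E, a⟩ hx ⟨E', a'⟩ hy m h
        rw [mem_sigma] at hx hy
        obtain ⟨h3, h4⟩ := dist_frac r1 (fun p hp => (hEP E hx.1 p hp).1)
          (fun p hp => (hEP E' hy.1 p hp).1) hx.2 hy.2 m h
        subst h3 h4
        rfl
      exact by
        have h3 : ∑ E ∈ Es, ∑ a ∈ AEs r1 E, ‖∑ y ∈ Y, (FA z A y : ℂ) *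
                e ((a : ℝ) / ((∏ p ∈ E, p ^ r1 : ℕ) : ℝ) * y)‖ ^ 2 =
            ∑ x ∈ P, ‖∑ y ∈ Y, (FA z A y : ℂ) * e ((x.2 : ℝ) / x.1 * y)‖ ^ 2 := by
          rw [hP, sum_image, sum_sigma]
          intro x hx y hy hxy
          refine hinj x hx y hy 0 ?_
          rw [hxy]; ring
        have hQ : 1 ≤ R ^ (r0 * r1) := Nat.one_le_pow _ _ (by omega)
        have hMle : M ≤ K * R ^ (r0 * r1) :=
          Nat.mul_le_mul_left K (prod_pow_le r0 r1 R hR T (fun p hp => (hTP p hp).2.1) hTc)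
        have hMX : M * R ^ (r0 * r1) ≤ K * R ^ (2 * r0 * r1) := by
          calc M * R ^ (r0 * r1) ≤ K * R ^ (r0 * r1) * R ^ (r0 * r1) := Nat.mul_le_mul_right _ hMle
            _ = K * R ^ (2 * r0 * r1) := by rw [mul_assoc, ← pow_add]; congr 2; ring
        have hMR : ∀ p : ℕ, p.Prime → p ∣ M → p ≤ R := by
          intro p hp hpM
          rcases (Nat.Prime.dvd_mul hp).1 hpM with h | h
          · exact hKR p hp h
          · obtain ⟨q, hq, hpq⟩ := (Prime.dvd_finsetProd_iff hp.prime _).1 h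
            have := (Nat.prime_dvd_prime_iff_eq hp (hTP q hq).1).1 (hp.dvd_of_dvd_pow hpq)
            exact this ▸ (hTP q hq).2.1
        have h4 := hls (2 ^ b * j) (2 ^ b) M c R (R ^ (r0 * r1)) hR hRb hM1 hQ
          ((Nat.pow_le_pow_left hMX 16).trans hsize) hMR P
          (by
            intro x hx
            obtain ⟨⟨E, a⟩, hEa, rfl⟩ := mem_image.1 hx
            rw [mem_sigma] at hEa
            have hE := hEa.1
            refine ⟨prod_pos fun p hp => pow_pos (hEP E hE p hp).1.pos r1,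
              prod_pow_le r0 r1 R hR E (fun p hp => (hEP E hE p hp).2.1) (hEc E hE), ?_, ?_⟩
            · refine Nat.Coprime.prod_left fun p hp => Nat.Coprime.pow_left r1 ?_
              refine Nat.Coprime.mul_right ((Nat.Prime.coprime_iff_not_dvd (hEP E hE p hp).1).2
                (hEP E hE p hp).2.2) ?_
              refine Nat.Coprime.prod_right fun q hq => Nat.Coprime.pow_right r1 ?_
              exact (Nat.coprime_primes (hEP E hE p hp).1 (hTP q hq).1).2
                (fun h => disjoint_left.1 (hEB E hE) (hT hq) (h ▸ hp))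
            · intro p hp hpx
              obtain ⟨q, hq, hpq⟩ := (Prime.dvd_finsetProd_iff hp.prime _).1 hpx
              have := (Nat.prime_dvd_prime_iff_eq hp (hEP E hE q hq).1).1 (hp.dvd_of_dvd_pow hpq)
              exact this ▸ (hEP E hE q hq).2.1)
          (by
            intro x hx y hy hxy m hm
            obtain ⟨x', hx', rfl⟩ := mem_image.1 hx
            obtain ⟨y', hy', rfl⟩ := mem_image.1 hy
            exact hxy (congrArg g (hinj x' hx' y' hy' m hm)))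
          (FA z A)
          (by
            intro y hy
            have hyA : y ∈ A := by
              by_contra hcon
              exact hy (if_neg hcon)
            obtain ⟨hp, -, h5⟩ := hA y hyA
            refine ⟨hp, ?_⟩
            calc 2 ^ b ≤ 2 ^ z := Nat.pow_le_pow_right (by norm_num) hbz
              _ ≤ y ^ 2 := h5
              _ ≤ y ^ 4 := Nat.pow_le_pow_right hp.pos (by norm_num))
        exact by
          rw [← hblk] at h4
          rw [h3]
          -- the sum of the squares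
          have hlog : 0 < Real.log ((2 : ℝ) ^ z) := Real.log_pos (one_lt_pow₀ (by norm_num) (by omega))
          have h5 : ∑ y ∈ Y, FA z A y ^ 2 = Real.log ((2 : ℝ) ^ z) * ∑ y ∈ Y, FA z A y := by
            rw [mul_sum]
            refine sum_congr rfl fun y _ => ?_
            unfold FA
            split_ifs
            · ring
            · ring
          have h6 : (M / 2 ^ b : ℝ) * ∑ y ∈ Y, FA z A y = cell (FA z A) M b j (c : ZMod M) := by
            unfold cell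
            rw [hY, sum_filter]
            congr 1
            refine sum_congr rfl fun y _ => ?_
            by_cases hyc : y ≡ c [MOD M]
            · rw [if_pos hyc, if_pos ((ZMod.natCast_eq_natCast_iff y c M).2 hyc)]
            · rw [if_neg hyc, if_neg fun h => hyc ((ZMod.natCast_eq_natCast_iff y c M).1 h)]
          have hM2 : M ^ 2 < 2 ^ b := by
            have hX : M ≤ K * R ^ (2 * r0 * r1) := (Nat.le_mul_of_pos_right M hQ).trans hMX
            rcases Nat.lt_or_ge 1 M with hM' | hM'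
            · calc M ^ 2 < M ^ 16 := Nat.pow_lt_pow_right hM' (by norm_num)
                _ ≤ (K * R ^ (2 * r0 * r1)) ^ 16 := Nat.pow_le_pow_left hX 16
                _ ≤ 2 ^ b := hsize
            · have : M = 1 := le_antisymm hM' hM1
              rw [this, one_pow]
              exact Nat.one_lt_two_pow (by omega)
          have h7 := hcell z A hA b j M hb1 hbz hM1 hM2 (c : ZMod M)
          have h8 := htot M R hM1 hR hMR
          have hb0 : (0 : ℝ) < b := by exact_mod_cast hb1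
          exact by
            have hlogR : 0 < Real.log R := Real.log_pos (by exact_mod_cast (by omega : 1 < R))
            have hM0 : (0 : ℝ) < M := by exact_mod_cast hM1
            have h9 : cell (FA z A) M b j (c : ZMod M) ≤ C2 * (z / b) * (C3 * Real.log R) :=
              h7.trans (mul_le_mul_of_nonneg_left h8 (by (clear * - hC2 hb1; positivity)))
            have hlog2 : 0 < Real.log 2 := Real.log_pos (by norm_num)
            have hlogb : Real.log ((2 ^ b : ℕ) : ℝ) = b * Real.log 2 := by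
              push_cast
              rw [Real.log_pow]
            have hlogz : Real.log ((2 : ℝ) ^ z) = z * Real.log 2 := by rw [Real.log_pow]
            exact by
              calc (M / 2 ^ b : ℝ) ^ 2 * ∑ x ∈ P, ‖∑ y ∈ Y, (FA z A y : ℂ) * e ((x.2 : ℝ) / x.1 * y)‖ ^ 2
                  ≤ (M / 2 ^ b : ℝ) ^ 2 * (C1 * (Real.log R / Real.log ((2 ^ b : ℕ) : ℝ)) *
                      (((2 ^ b : ℕ) : ℝ) / M) * ∑ y ∈ Y, FA z A y ^ 2) :=
                    mul_le_mul_of_nonneg_left h4 (by (clear * - hK hTpos; positivity))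
                _ = C1 * Real.log R * (z / b) * ((M / 2 ^ b : ℝ) * ∑ y ∈ Y, FA z A y) := by
                    rw [h5, hlogb, hlogz]
                    push_cast
                    (clear * - hb1 hlogR hC1 hM1; field_simp)
                _ ≤ C1 * Real.log R * (z / b) * (C2 * (z / b) * (C3 * Real.log R)) := by
                    rw [h6]
                    exact mul_le_mul_of_nonneg_left h9 (by (clear * - hC1 hlogR hb1; positivity))
                _ = C1 * C2 * C3 * (z / b * Real.log R) ^ 2 := by ring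

end VB

/-- B10, with the inputs `pars`, `ls_major`, `cell_le`, `totient_ratio` as hypotheses -/
theorem var_bound_of (r0 r1 : ℕ) (hr1 : 1 ≤ r1)
    (hpars : ∀ (E : Finset ℕ), (∀ p ∈ E, p.Prime) → ∀ (Y : Finset ℕ) (f : ℕ → ℝ),
      𝔼 t ∈ range (∏ p ∈ E, p ^ r1), (∑ y ∈ Y, f y *
          ∏ p ∈ E, ((if y ≡ t [MOD p ^ r1] then (p : ℝ) ^ r1 else 0) - 1)) ^ 2 =
        ∑ a ∈ VB.AEs r1 E, ‖∑ y ∈ Y, (f y : ℂ) *
          e ((a : ℝ) / ((∏ p ∈ E, p ^ r1 : ℕ) : ℝ) * y)‖ ^ 2)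
    (hls : ∃ C : ℝ, 0 < C ∧ ∀ N0 N M c R Q0 : ℕ, 2 ≤ R → R ≤ N → 1 ≤ M → 1 ≤ Q0 →
      (M * Q0) ^ 16 ≤ N → (∀ p : ℕ, p.Prime → p ∣ M → p ≤ R) →
      ∀ P : Finset (ℕ × ℕ), (∀ x ∈ P, 1 ≤ x.1 ∧ x.1 ≤ Q0 ∧ Nat.Coprime x.1 M ∧
        ∀ p : ℕ, p.Prime → p ∣ x.1 → p ≤ R) →
      (∀ x ∈ P, ∀ y ∈ P, x ≠ y → ∀ m : ℤ, (x.2 : ℤ) * y.1 - y.2 * x.1 ≠ m * (x.1 * y.1)) →
      ∀ f : ℕ → ℝ, (∀ y, f y ≠ 0 → y.Prime ∧ N ≤ y ^ 4) →
      ∑ x ∈ P, ‖∑ y ∈ (Ico N0 (N0 + N)).filter (fun y => y ≡ c [MOD M]),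
          (f y : ℂ) * e ((x.2 : ℝ) / x.1 * y)‖ ^ 2 ≤
        C * (Real.log R / Real.log N) * (N / M) *
          ∑ y ∈ (Ico N0 (N0 + N)).filter (fun y => y ≡ c [MOD M]), f y ^ 2)
    (hcell : ∃ C : ℝ, 0 < C ∧ ∀ (z : ℕ) (A : Finset ℕ), PrA z A → ∀ b j M : ℕ, 1 ≤ b →
      b ≤ z → 1 ≤ M → M ^ 2 < 2 ^ b → ∀ ρ : ZMod M,
      cell (FA z A) M b j ρ ≤ C * (z / b) * (M / M.totient))
    (htot : ∃ C : ℝ, 0 < C ∧ ∀ M R : ℕ, 1 ≤ M → 2 ≤ R →
      (∀ p : ℕ, p.Prime → p ∣ M → p ≤ R) → (M : ℝ) / M.totient ≤ C * Real.log R) :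
    ∃ C : ℝ, 0 < C ∧ ∀ (z : ℕ) (A : Finset ℕ),
    PrA z A → ∀ b j K R : ℕ, 1 ≤ b → b ≤ z → 2 ≤ R → R ≤ 2 ^ b → 1 ≤ K →
    (K * R ^ (2 * r0 * r1)) ^ 16 ≤ 2 ^ b → (∀ p : ℕ, p.Prime → p ∣ K → p ≤ R) →
    ∀ PP : Finset ℕ, (∀ p ∈ PP, p.Prime ∧ p ≤ R ∧ ¬ p ∣ K) →
    ∀ (κ : ℕ) (B : Finset ℕ) (ω : ℕ → ℕ), B ⊆ PP → B.card ≤ r0 →
    ∑ E ∈ (PP \ B).powerset.filter (fun E => (B ∪ E).card ≤ r0),
      𝔼 t ∈ range (∏ p ∈ E, p ^ r1),
        DS (FA z A) K r1 b j (B ∪ E) κ (fun p => if p ∈ B then ω p else t) ^ 2 ≤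
      (C * (z / b) * Real.log R) ^ 2 := by
  classical
  obtain ⟨C1, hC1, hls⟩ := hls
  obtain ⟨C2, hC2, hcell⟩ := hcell
  obtain ⟨C3, hC3, htot⟩ := htot
  refine ⟨4 ^ r0 * (C1 * C2 * C3) + 1, by positivity, ?_⟩
  intro z A hA b j K R hb1 hbz hR hRb hK hsize hKR PP hPP κ B ω hB hBc
  have key := VB.term_bound r0 r1 hr1 hC1 hpars hls hcell htot hC2 z A hA b j K R hb1 hbz hR hRb hK
    hsize hKR PP hPP κ B ω hB hBc
  set Es := (PP \ B).powerset.filter (fun E => (B ∪ E).card ≤ r0) with hEs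
  have hEB : ∀ E ∈ Es, Disjoint B E := fun E hE =>
    disjoint_left.2 fun p hp hpE => (mem_sdiff.1 (mem_powerset.1 (mem_filter.1 hE).1 hpE)).2 hp
  set D : Finset ℕ → Finset ℕ → ℕ → ℝ := fun T E t => (∑ y ∈ bl b j, FA z A y *
        ((if y ≡ κ [MOD K] then (K : ℝ) else 0) *
          ∏ p ∈ T, (if y ≡ ω p [MOD p ^ r1] then (p : ℝ) ^ r1 else 0)) *
        ∏ p ∈ E, ((if y ≡ t [MOD p ^ r1] then (p : ℝ) ^ r1 else 0) - 1)) / 2 ^ b with hD
  have hcard : ((B.powerset.card : ℕ) : ℝ) ≤ 2 ^ r0 := by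
    rw [card_powerset]
    push_cast
    exact pow_le_pow_right₀ (by norm_num) hBc
  have h1 : ∀ E ∈ Es, 𝔼 t ∈ range (∏ p ∈ E, p ^ r1),
        DS (FA z A) K r1 b j (B ∪ E) κ (fun p => if p ∈ B then ω p else t) ^ 2 ≤
      2 ^ r0 * ∑ T ∈ B.powerset, 𝔼 t ∈ range (∏ p ∈ E, p ^ r1), D T E t ^ 2 := by
    intro E hE
    rw [← expect_sum_comm, mul_expect]
    refine expect_le_expect fun t _ => ?_
    rw [VB.DS_split _ _ _ _ _ _ _ (hEB E hE)]
    calc (∑ T ∈ B.powerset, (-1) ^ (B \ T).card * D T E t) ^ 2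
        ≤ (B.powerset.card : ℝ) * ∑ T ∈ B.powerset, ((-1) ^ (B \ T).card * D T E t) ^ 2 :=
          sq_sum_le_card_mul_sum_sq
      _ = (B.powerset.card : ℝ) * ∑ T ∈ B.powerset, D T E t ^ 2 := by
          congr 1
          refine sum_congr rfl fun T _ => ?_
          rw [mul_pow, ← pow_mul, mul_comm (B \ T).card 2, pow_mul, neg_one_sq, one_pow, one_mul]
      _ ≤ 2 ^ r0 * ∑ T ∈ B.powerset, D T E t ^ 2 :=
          mul_le_mul_of_nonneg_right hcard (sum_nonneg fun T _ => sq_nonneg _)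
  exact by
    have h2 : ∑ T ∈ B.powerset, ∑ E ∈ Es, 𝔼 t ∈ range (∏ p ∈ E, p ^ r1), D T E t ^ 2 ≤
        2 ^ r0 * (C1 * C2 * C3 * (z / b * Real.log R) ^ 2) := by
      calc ∑ T ∈ B.powerset, ∑ E ∈ Es, 𝔼 t ∈ range (∏ p ∈ E, p ^ r1), D T E t ^ 2
          ≤ ∑ T ∈ B.powerset, C1 * C2 * C3 * (z / b * Real.log R) ^ 2 :=
            sum_le_sum fun T hT => key T (mem_powerset.1 hT)
        _ = (B.powerset.card : ℝ) * (C1 * C2 * C3 * (z / b * Real.log R) ^ 2) := by
            rw [sum_const, nsmul_eq_mul]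
        _ ≤ 2 ^ r0 * (C1 * C2 * C3 * (z / b * Real.log R) ^ 2) :=
            mul_le_mul_of_nonneg_right hcard (by (clear * - hC1 hC2 hC3; positivity))
    have h4 : (4 : ℝ) ^ r0 = 2 ^ r0 * 2 ^ r0 := by rw [← mul_pow]; norm_num
    calc ∑ E ∈ Es, 𝔼 t ∈ range (∏ p ∈ E, p ^ r1),
          DS (FA z A) K r1 b j (B ∪ E) κ (fun p => if p ∈ B then ω p else t) ^ 2
        ≤ ∑ E ∈ Es, 2 ^ r0 * ∑ T ∈ B.powerset, 𝔼 t ∈ range (∏ p ∈ E, p ^ r1), D T E t ^ 2 :=
          sum_le_sum h1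
      _ = 2 ^ r0 * ∑ T ∈ B.powerset, ∑ E ∈ Es, 𝔼 t ∈ range (∏ p ∈ E, p ^ r1), D T E t ^ 2 := by
          rw [← mul_sum, sum_comm]
      _ ≤ 2 ^ r0 * (2 ^ r0 * (C1 * C2 * C3 * (z / b * Real.log R) ^ 2)) :=
          mul_le_mul_of_nonneg_left h2 (by positivity)
      _ = 4 ^ r0 * (C1 * C2 * C3) * (z / b * Real.log R) ^ 2 := by rw [h4]; ring
      _ ≤ ((4 ^ r0 * (C1 * C2 * C3) + 1) * (z / b) * Real.log R) ^ 2 := by
          have h5 : 0 ≤ (4 : ℝ) ^ r0 * (C1 * C2 * C3) := by positivity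
          have h6 : (4 : ℝ) ^ r0 * (C1 * C2 * C3) ≤ (4 ^ r0 * (C1 * C2 * C3) + 1) ^ 2 := by (clear * - h5; nlinarith)
          calc (4 : ℝ) ^ r0 * (C1 * C2 * C3) * (z / b * Real.log R) ^ 2
              ≤ (4 ^ r0 * (C1 * C2 * C3) + 1) ^ 2 * (z / b * Real.log R) ^ 2 :=
                mul_le_mul_of_nonneg_right h6 (sq_nonneg _)
            _ = _ := by ring

end

end Pool.Agent.Helper67.NX2

end

section

set_option autoImplicit false

open Finset

open scoped BigOperators ComplexConjugate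

namespace Pool.Agent.Helper67.NX2

open Pool.Agent.Helper57.NX

noncomputable section

theorem e_eq_one_iff' (t : ℝ) : e t = 1 ↔ ∃ k : ℤ, t = k := by
  unfold e
  rw [Complex.exp_eq_one_iff]
  constructor
  · rintro ⟨k, hk⟩
    refine ⟨k, ?_⟩
    have h1 : (2 * (Real.pi : ℂ) * Complex.I) * (t : ℂ) = (2 * (Real.pi : ℂ) * Complex.I) * (k : ℂ) := by
      rw [show (2 * (Real.pi : ℂ) * Complex.I) * (t : ℂ) = 2 * Real.pi * t * Complex.I by ring, hk]
      ring
    have h2 := mul_left_cancel₀ Complex.two_pi_I_ne_zero h1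
    exact_mod_cast h2
  · rintro ⟨k, rfl⟩
    refine ⟨k, ?_⟩
    push_cast
    ring

theorem e_nat_mul' (a : ℕ) (t : ℝ) : e (a * t) = e t ^ a := by
  unfold e
  rw [← Complex.exp_nat_mul]
  congr 1
  push_cast
  ring

/-- orthogonality -/
theorem orth (n : ℕ) (hn : 1 ≤ n) (m : ℤ) :
    ∑ a ∈ range n, e ((a : ℝ) * m / n) = if (n : ℤ) ∣ m then (n : ℂ) else 0 := by
  have hn0 : (n : ℝ) ≠ 0 := by (clear * - hn; positivity)
  have h1 : ∀ a ∈ range n, e ((a : ℝ) * m / n) = e ((m : ℝ) / n) ^ a := by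
    intro a _
    rw [← e_nat_mul', mul_div_assoc]
  rw [sum_congr rfl h1]
  split_ifs with h
  · obtain ⟨k, rfl⟩ := h
    have h2 : e ((((n : ℤ) * k : ℤ) : ℝ) / n) = 1 := by
      rw [e_eq_one_iff']
      refine ⟨k, ?_⟩
      push_cast
      (clear * - hn0; field_simp)
    rw [sum_congr rfl fun a _ => by rw [h2, one_pow]]
    simp
  · have h2 : e ((m : ℝ) / n) ≠ 1 := by
      rw [Ne, e_eq_one_iff']
      rintro ⟨k, hk⟩
      apply h
      refine ⟨k, ?_⟩
      rw [div_eq_iff hn0] at hk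
      have : (m : ℝ) = ((n : ℤ) * k : ℤ) := by rw [hk]; push_cast; ring
      exact_mod_cast this
    rw [geom_sum_eq h2, ← e_nat_mul']
    have h3 : e ((n : ℝ) * ((m : ℝ) / n)) = 1 := by
      rw [e_eq_one_iff']
      exact ⟨m, by (clear * - hn0; field_simp)⟩
    rw [h3]
    simp

theorem orth_dvd (n d : ℕ) (hn : 1 ≤ n) (hd : 1 ≤ d) (m : ℤ) :
    ∑ a ∈ (range (d * n)).filter (fun a => d ∣ a), e ((a : ℝ) * m / ((d * n : ℕ) : ℝ)) =
      if (n : ℤ) ∣ m then (n : ℂ) else 0 := by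
  rw [← orth n hn m]
  symm
  refine sum_nbij' (fun b => d * b) (fun a => a / d) ?_ ?_ ?_ ?_ ?_
  · intro b hb
    rw [mem_filter, mem_range]
    rw [mem_range] at hb
    exact ⟨Nat.mul_lt_mul_of_pos_left hb hd, dvd_mul_right _ _⟩
  · intro a ha
    rw [mem_filter, mem_range] at ha
    rw [mem_range]
    exact Nat.div_lt_of_lt_mul ha.1
  · intro b _
    simp [Nat.mul_div_cancel_left b hd]
  · intro a ha
    rw [mem_filter] at ha
    exact Nat.mul_div_cancel' ha.2
  · intro b _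
    congr 1
    have hn0 : (n : ℝ) ≠ 0 := by (clear * - hn; positivity)
    have hd0 : (d : ℝ) ≠ 0 := by (clear * - hd; positivity)
    push_cast
    (clear * - hd0 hn0; field_simp)

theorem prod_sub_one (q : ℕ → ℕ) (E : Finset ℕ) (hq1 : ∀ p ∈ E, 1 ≤ q p)
    (hq : ∀ p ∈ E, ∀ p' ∈ E, p ≠ p' → Nat.Coprime (q p) (q p')) (m : ℤ) :
    ∏ p ∈ E, ((if (q p : ℤ) ∣ m then (q p : ℂ) else 0) - 1) =
      ∑ a ∈ (range (∏ p ∈ E, q p)).filter (fun a => ∀ p ∈ E, ¬ q p ∣ a),
        e ((a : ℝ) * m / ((∏ p ∈ E, q p : ℕ) : ℝ)) := by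
  set n := ∏ p ∈ E, q p with hn
  have hR : ∑ a ∈ (range n).filter (fun a => ∀ p ∈ E, ¬ q p ∣ a), e ((a : ℝ) * m / (n : ℝ)) =
      ∑ a ∈ range n, (∏ p ∈ E, ((1 : ℂ) + (if q p ∣ a then -1 else 0))) *
        e ((a : ℝ) * m / (n : ℝ)) := by
    rw [sum_filter]
    refine sum_congr rfl fun a _ => ?_
    split_ifs with h
    · rw [prod_eq_one, one_mul]
      intro p hp
      rw [if_neg (h p hp), add_zero]
    · push Not at h
      obtain ⟨p, hp, hpa⟩ := h
      rw [prod_eq_zero hp, zero_mul]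
      rw [if_pos hpa]
      ring
  rw [hR]
  have hL : ∏ p ∈ E, ((if (q p : ℤ) ∣ m then (q p : ℂ) else 0) - 1) =
      ∑ T ∈ E.powerset, (∏ p ∈ T, (if (q p : ℤ) ∣ m then (q p : ℂ) else 0)) *
        ∏ p ∈ E \ T, (-1 : ℂ) := by
    rw [← Finset.prod_add]
    exact prod_congr rfl fun p _ => by ring
  rw [hL]
  have hR2 : ∀ a ∈ range n, (∏ p ∈ E, ((1 : ℂ) + (if q p ∣ a then -1 else 0))) *
        e ((a : ℝ) * m / (n : ℝ)) =
      ∑ T ∈ E.powerset, (∏ p ∈ E \ T, (-1 : ℂ)) *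
        (if (∏ p ∈ E \ T, q p) ∣ a then e ((a : ℝ) * m / (n : ℝ)) else 0) := by
    intro a _
    rw [Finset.prod_add, sum_mul]
    refine sum_congr rfl fun T hT => ?_
    rw [prod_const_one, one_mul]
    by_cases h : ∀ p ∈ E \ T, q p ∣ a
    · have h1 : (∏ p ∈ E \ T, q p) ∣ a := by
        refine Finset.prod_dvd_of_isRelPrime ?_ h
        intro p hp p' hp' hne
        have hp1 := (mem_sdiff.mp (mem_coe.mp hp)).1
        have hp2 := (mem_sdiff.mp (mem_coe.mp hp')).1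
        exact Nat.coprime_iff_isRelPrime.mp (hq p hp1 p' hp2 hne)
      rw [if_pos h1]
      congr 1
      exact prod_congr rfl fun p hp => if_pos (h p hp)
    · have h1 : ¬ (∏ p ∈ E \ T, q p) ∣ a := by
        intro h2
        apply h
        intro p hp
        exact dvd_trans (dvd_prod_of_mem q hp) h2
      rw [if_neg h1, mul_zero]
      push Not at h
      obtain ⟨p, hp, hpa⟩ := h
      rw [prod_eq_zero hp (if_neg hpa), zero_mul]
  rw [sum_congr rfl hR2, sum_comm]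
  refine sum_congr rfl fun T hT => ?_
  rw [mem_powerset] at hT
  rw [← mul_sum, ← sum_filter, mul_comm]
  congr 1
  have hn2 : n = (∏ p ∈ E \ T, q p) * ∏ p ∈ T, q p := by
    rw [hn, ← prod_sdiff hT]
  have h1 : 1 ≤ ∏ p ∈ T, q p := Nat.one_le_iff_ne_zero.mpr
    (prod_ne_zero_iff.mpr fun p hp => by have := hq1 p (hT hp); omega)
  have h2 : 1 ≤ ∏ p ∈ E \ T, q p := Nat.one_le_iff_ne_zero.mpr
    (prod_ne_zero_iff.mpr fun p hp => by have := hq1 p (mem_sdiff.mp hp).1; omega)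
  rw [hn2, orth_dvd _ _ h1 h2, prod_ite_dvd q T fun p hp p' hp' => hq p (hT hp) p' (hT hp')]

end

end Pool.Agent.Helper67.NX2

end
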