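import Pool.Agent.Helper23.MC.L00_a0
import Pool.Agent.Helper23.MC.L00_a1
import Pool.Agent.Helper23.MC.L00_a10
import Pool.Agent.Helper23.MC.L00_a11
import Pool.Agent.Helper23.MC.L00_a12
import Pool.Agent.Helper23.MC.L00_a13
import Pool.Agent.Helper23.MC.L00_a2
import Pool.Agent.Helper23.MC.L00_a3
import Pool.Agent.Helper23.MC.L00_a7
import Pool.Agent.Helper23.MC.L00_a9

/-!
Parts of Helper57.NX.Defs2, Helper99.NX.LpLocalAux, Helper73.NX2.LpLocalAux, Helper64.NX.Blocks, Helper7.NX.BaseCells, Helper67.NX.BPhase, Helper88.NX.DlB, Helper59.NX2.BaseRatlA, Helper8.NX.BaseLS, Helper28.NX.BaseAux, Helper92.NX2.Bc, Helper52.NX2.ArTop, Helper30.NX2.LocArithAux, Helper81.NX2.CharRepA, Helper61.NX.DsOfUs, Helper15.NX2.TopArithOf, Helper21.NX2.ThmPOf, Helper79.RG.Sieve, Helper40.NX3.EnLeOf, Helper87.NX3.ScalesOf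
-/

attribute [local instance 5000]
  Pool.Agent.Helper23.MC.Inst.rCharZero Pool.Agent.Helper23.MC.Inst.rALM
  Pool.Agent.Helper23.MC.Inst.rARM Pool.Agent.Helper23.MC.Inst.rALSM
  Pool.Agent.Helper23.MC.Inst.rARSM Pool.Agent.Helper23.MC.Inst.rARRLE
  Pool.Agent.Helper23.MC.Inst.rALRLE Pool.Agent.Helper23.MC.Inst.rARRLT
  Pool.Agent.Helper23.MC.Inst.rALRLT Pool.Agent.Helper23.MC.Inst.rPMRLT
  Pool.Agent.Helper23.MC.Inst.rMPRLT Pool.Agent.Helper23.MC.Inst.rPMM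
  Pool.Agent.Helper23.MC.Inst.rMPM Pool.Agent.Helper23.MC.Inst.rPMSM
  Pool.Agent.Helper23.MC.Inst.rMPSM Pool.Agent.Helper23.MC.Inst.rEAOL
  Pool.Agent.Helper23.MC.Inst.rIOR Pool.Agent.Helper23.MC.Inst.rISOR
  Pool.Agent.Helper23.MC.Inst.rNZD Pool.Agent.Helper23.MC.Inst.rcCharZero
  Pool.Agent.Helper23.MC.Inst.rcNZD Pool.Agent.Helper23.MC.Inst.zCharZero
  Pool.Agent.Helper23.MC.Inst.zALM Pool.Agent.Helper23.MC.Inst.zARM
  Pool.Agent.Helper23.MC.Inst.zALSM Pool.Agent.Helper23.MC.Inst.zARSM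
  Pool.Agent.Helper23.MC.Inst.zIOR Pool.Agent.Helper23.MC.Inst.zISOR
  Pool.Agent.Helper23.MC.Inst.zNZD Pool.Agent.Helper23.MC.Inst.qCharZero
  Pool.Agent.Helper23.MC.Inst.mR Pool.Agent.Helper23.MC.Inst.mC Pool.Agent.Helper23.MC.Inst.mRC
  Pool.Agent.Helper23.MC.Inst.rPSM Pool.Agent.Helper23.MC.Inst.rCSM
  Pool.Agent.Helper23.MC.Inst.cAdd Pool.Agent.Helper23.MC.Inst.cAddM
  Pool.Agent.Helper23.MC.Inst.cMul Pool.Agent.Helper23.MC.Inst.cMon

namespace Pool.Agent.Helper44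
end Pool.Agent.Helper44
namespace Pool.Agent.Helper57.FP
end Pool.Agent.Helper57.FP
namespace Pool.Agent.Helper57.NX
end Pool.Agent.Helper57.NX
namespace Pool.Agent.Helper96.CPAP
end Pool.Agent.Helper96.CPAP

section

set_option autoImplicit false

open Finset

open scoped BigOperators ComplexConjugate

namespace Pool.Agent.Helper57.NX

noncomputable section

/-- local correlation of `f` along the top sequence with the phases `θ x` -/
def locCorr {m N : ℕ} [NeZero N] (S : Sys (m + 1)) (c : Fin (m + 1) → ℝ) (f : ZMod N → ℂ)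
    (θ : ZMod N → Fin m → ℝ) (K : ℕ) (x : ZMod N) : ℝ :=
  𝔼 k ∈ S.I, ‖𝔼 j ∈ range K, f (x + (S.a c (Fin.last m) (k + j) : ZMod N)) *
    e (∑ i : Fin m, θ x i * S.P i.castSucc * (S.t (k + j)) ^ (c i.castSucc))‖

end

end Pool.Agent.Helper57.NX

end

section

set_option autoImplicit false

open Finset

open scoped BigOperators ComplexConjugate

namespace Pool.Agent.Helper57.NX

noncomputable section

theorem lpl_b {m : ℕ} (S : Sys m) (c : Fin m → ℝ) (i : Fin m) (hc : 0 < c i)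
    (hρ0 : 0 ≤ S.ρ) (hρ1 : S.ρ ≤ 1) (hD : 1 ≤ S.D) (hP : 0 ≤ S.P i) (T' u' k : ℕ)
    (hu : S.D ≤ u') (huk : u' ≤ k) (hk : k < u' + T') (h2 : (u' : ℝ) + T' ≤ 2 * S.D) :
    (0 ≤ S.a c i k - S.a c i u' ∧
      ((S.a c i k - S.a c i u' : ℤ) : ℝ) ≤ S.P i * (c i * 3 ^ (c i) * (T' / S.D)) + 1) ∧
    0 ≤ S.a c i k ∧ ((S.a c i k : ℤ) : ℝ) ≤ S.P i * 3 ^ (c i) := by
  have hD0 : 0 < S.D := by (clear * - hD; linarith)
  have hkr : (k : ℝ) < u' + T' := by exact_mod_cast hk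
  have hukr : (u' : ℝ) ≤ k := by exact_mod_cast huk
  have ht1 : 1 ≤ S.t u' := by
    unfold Sys.t
    rw [le_div_iff₀ hD0]; (clear * - hρ0 hu; linarith)
  have htt : S.t u' ≤ S.t k := by
    unfold Sys.t
    (clear * - hukr hD; gcongr)
  have ht3 : S.t k ≤ 3 := by
    unfold Sys.t
    rw [div_le_iff₀ hD0]; (clear * - hρ1 hD h2 hkr; linarith)
  exact by
    have htd : S.t k - S.t u' ≤ T' / S.D := by
      unfold Sys.t
      rw [← sub_div]
      gcongr
      (clear * - hkr; linarith)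
    have h3 := lpl_rpow_sub (c i) (S.t u') (S.t k) hc ht1 htt ht3
    have hmono : S.P i * S.t u' ^ c i ≤ S.P i * S.t k ^ c i := by
      gcongr
    have htk : S.t k ^ c i ≤ 3 ^ c i := Real.rpow_le_rpow (by (clear * - ht1 htt; linarith)) ht3 hc.le
    refine ⟨⟨?_, ?_⟩, ?_, ?_⟩
    · rw [sub_nonneg]
      exact Int.floor_le_floor hmono
    · push_cast
      exact by
        have h4 : ((S.a c i k : ℤ) : ℝ) ≤ S.P i * S.t k ^ c i := Int.floor_le _
        have h5 : S.P i * S.t u' ^ c i < ((S.a c i u' : ℤ) : ℝ) + 1 := Int.lt_floor_add_one _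
        have h6 : S.P i * (S.t k ^ c i - S.t u' ^ c i) ≤ S.P i * (c i * 3 ^ (c i) * (T' / S.D)) := by
          gcongr
          exact h3.trans (by gcongr)
        (clear * - h4 h5 h6; linarith)
    · exact Int.floor_nonneg.2 (mul_nonneg hP (Real.rpow_nonneg (by (clear * - ht1 htt; linarith)) _))
    · have h4 : ((S.a c i k : ℤ) : ℝ) ≤ S.P i * S.t k ^ c i := Int.floor_le _
      exact h4.trans (by (clear * - htk hP; gcongr))

theorem lpl_final {m : ℕ} (S : Sys (m + 1)) (c : Fin (m + 1) → ℝ) (θ' : Fin (m + 1) → ℝ)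
    (ϑ A B E a' : ℝ) (u' T' K : ℕ) (hT' : 1 ≤ T') (hDu : S.D ≤ u')
    (hDu2 : (u' : ℝ) + T' ≤ 2 * S.D) (hKD : (K : ℝ) ≤ S.D)
    (hE : E < A / 2) (hϑ : 2 * Real.pi * |ϑ| ≤ A / 2)
    (HE : ∀ v : Fin (m + 1) → ℝ, (∀ i, |v i| ≤ a') → (∃ i, B ≤ |v i|) → ∀ k : ℕ, S.D ≤ k →
      (k : ℝ) + K ≤ 4 * S.D →
      ‖𝔼 k' ∈ Ico k (k + K), e (∑ i, v i * (((k' : ℝ) + S.ρ) / S.D) ^ (c i))‖ ≤ E)
    (hv : ∀ i, |θ' i * S.P i| + |ϑ * S.P i| ≤ a')
    (h : A ≤ 𝔼 k ∈ Ico u' (u' + T'), ‖𝔼 j ∈ range K,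
      e (ϑ * ((S.a c (Fin.last m) (k + j) - S.a c (Fin.last m) u' : ℤ) : ℝ)) *
        e (∑ i, θ' i * S.P i * (S.t (k + j)) ^ (c i))‖) :
    |θ' (Fin.last m) * S.P (Fin.last m) + ϑ * S.P (Fin.last m)| < B := by
  by_contra hcon
  rw [not_lt] at hcon
  obtain ⟨k, hk, hk2⟩ := exists_le_of_le_expect (nonempty_Ico.2 (by omega)) h
  obtain ⟨hk3, hk4⟩ := mem_Ico.1 hk
  have hk3r : (u' : ℝ) ≤ k := by exact_mod_cast hk3
  have hk4r : (k : ℝ) ≤ u' + T' := by exact_mod_cast hk4.le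
  obtain ⟨v, hvdef⟩ : ∃ v : Fin (m + 1) → ℝ, v = fun i => θ' i * S.P i +
    (if i = Fin.last m then ϑ * S.P i else 0) := ⟨_, rfl⟩
  have hv1 : ∀ i, |v i| ≤ a' := by
    intro i
    rw [hvdef]
    refine (abs_add_le _ _).trans (le_trans ?_ (hv i))
    split_ifs
    · exact le_rfl
    · rw [abs_zero]
      have := abs_nonneg (ϑ * S.P i)
      (clear * - this; linarith)
  have hv2 : ∃ i, B ≤ |v i| := by
    refine ⟨Fin.last m, ?_⟩
    rw [hvdef]
    simpa using hcon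
  have h1 := HE v hv1 hv2 k (hDu.trans hk3r) (by (clear * - hDu2 hKD hk4r; linarith))
  rw [lpl_expect_Ico] at h1
  obtain ⟨w, hw⟩ : ∃ w : ℂ, w = e (-(ϑ * ((S.a c (Fin.last m) u' : ℤ) : ℝ))) := ⟨_, rfl⟩
  have hwn : ‖w‖ = 1 := by rw [hw, norm_e]
  have h2 : ‖(𝔼 j ∈ range K,
      e (ϑ * ((S.a c (Fin.last m) (k + j) - S.a c (Fin.last m) u' : ℤ) : ℝ)) *
        e (∑ i, θ' i * S.P i * (S.t (k + j)) ^ (c i))) -
      w * 𝔼 j ∈ range K, e (∑ i, v i * ((((k + j : ℕ) : ℝ) + S.ρ) / S.D) ^ (c i))‖ ≤ A / 2 := by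
    rw [mul_expect, ← expect_sub_distrib]
    refine norm_expect_le_of5 _ _ ((by (clear * -; positivity) : (0:ℝ) ≤ 2 * Real.pi * |ϑ|).trans hϑ)
      fun j _ => le_trans ?_ hϑ
    have e1 : ∑ i, v i * ((((k + j : ℕ) : ℝ) + S.ρ) / S.D) ^ (c i) =
        ∑ i, θ' i * S.P i * (S.t (k + j)) ^ (c i) +
        ϑ * (S.P (Fin.last m) * (S.t (k + j)) ^ (c (Fin.last m))) := by
      rw [hvdef]
      have : ∀ i, (θ' i * S.P i + (if i = Fin.last m then ϑ * S.P i else 0)) *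
          ((((k + j : ℕ) : ℝ) + S.ρ) / S.D) ^ (c i) =
          θ' i * S.P i * (S.t (k + j)) ^ (c i) +
          (if i = Fin.last m then ϑ * (S.P i * (S.t (k + j)) ^ (c i)) else 0) := by
        intro i
        unfold Sys.t
        split_ifs <;> ring
      simp only [this]
      rw [sum_add_distrib]
      simp
    rw [e1, e_add]
    have e2 : e (ϑ * ((S.a c (Fin.last m) (k + j) - S.a c (Fin.last m) u' : ℤ) : ℝ)) =
        w * e (ϑ * ((S.a c (Fin.last m) (k + j) : ℤ) : ℝ)) := by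
      rw [hw, ← e_add]
      congr 1
      push_cast; ring
    rw [e2]
    have e3 : w * e (ϑ * ((S.a c (Fin.last m) (k + j) : ℤ) : ℝ)) *
        e (∑ i, θ' i * S.P i * (S.t (k + j)) ^ (c i)) -
        w * (e (∑ i, θ' i * S.P i * (S.t (k + j)) ^ (c i)) *
        e (ϑ * (S.P (Fin.last m) * (S.t (k + j)) ^ (c (Fin.last m))))) =
        w * e (∑ i, θ' i * S.P i * (S.t (k + j)) ^ (c i)) *
        (e (ϑ * ((S.a c (Fin.last m) (k + j) : ℤ) : ℝ)) -
        e (ϑ * (S.P (Fin.last m) * (S.t (k + j)) ^ (c (Fin.last m))))) := by ring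
    rw [e3, norm_mul, norm_mul, hwn, norm_e, one_mul, one_mul]
    refine (norm_e_sub_e_le _ _).trans ?_
    rw [← mul_sub, abs_mul]
    have h5 : |((S.a c (Fin.last m) (k + j) : ℤ) : ℝ) -
        S.P (Fin.last m) * (S.t (k + j)) ^ (c (Fin.last m))| ≤ 1 := by
      unfold Sys.a
      have h6 := Int.floor_le (S.P (Fin.last m) * (S.t (k + j)) ^ (c (Fin.last m)))
      have h7 := Int.lt_floor_add_one (S.P (Fin.last m) * (S.t (k + j)) ^ (c (Fin.last m)))
      rw [abs_le]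
      constructor <;> (clear * - h7 h6; linarith)
    calc 2 * Real.pi * (|ϑ| * |((S.a c (Fin.last m) (k + j) : ℤ) : ℝ) -
        S.P (Fin.last m) * (S.t (k + j)) ^ (c (Fin.last m))|) ≤ 2 * Real.pi * (|ϑ| * 1) := by
          (clear * - h5; gcongr)
      _ = 2 * Real.pi * |ϑ| := by ring
  have h3 := norm_sub_norm_le (𝔼 j ∈ range K,
      e (ϑ * ((S.a c (Fin.last m) (k + j) - S.a c (Fin.last m) u' : ℤ) : ℝ)) *
        e (∑ i, θ' i * S.P i * (S.t (k + j)) ^ (c i)))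
      (w * 𝔼 j ∈ range K, e (∑ i, v i * ((((k + j : ℕ) : ℝ) + S.ρ) / S.D) ^ (c i)))
  rw [norm_mul, hwn, one_mul] at h3
  (clear * - hE hk2 h1 h2 h3; linarith)

end

end Pool.Agent.Helper57.NX

end

section

set_option autoImplicit false

open Finset

open scoped BigOperators ComplexConjugate

namespace Pool.Agent.Helper67.NX2

open Pool.Agent.Helper57.NX

noncomputable section

/-- a window with a large exponential sum -/
theorem lpl2_window {m : ℕ} (S : Sys (m + 1)) (c : Fin (m + 1) → ℝ) (θ' : Fin (m + 1) → ℝ)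
    (ϑ A : ℝ) (u' T' K q : ℕ) (hT' : 1 ≤ T') (hϑ : 2 * Real.pi * |ϑ| ≤ A / 2)
    (h : A ≤ 𝔼 k ∈ Ico u' (u' + T'), ‖𝔼 j ∈ range K,
      e (ϑ * ((S.a c (Fin.last m) (k + q * j) - S.a c (Fin.last m) u' : ℤ) : ℝ)) *
        e (∑ i, θ' i * S.P i * (S.t (k + q * j)) ^ (c i))‖) :
    ∃ k, u' ≤ k ∧ k < u' + T' ∧ A / 2 ≤ ‖𝔼 j ∈ range K,
      e (∑ i, (θ' i * S.P i + (if i = Fin.last m then ϑ * S.P i else 0)) *
        ((((k + q * j : ℕ) : ℝ) + S.ρ) / S.D) ^ (c i))‖ := by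
  obtain ⟨k, hk, hk2⟩ := exists_le_of_le_expect (nonempty_Ico.2 (by omega)) h
  obtain ⟨hk3, hk4⟩ := mem_Ico.1 hk
  refine ⟨k, hk3, hk4, ?_⟩
  obtain ⟨w, hw⟩ : ∃ w : ℂ, w = e (-(ϑ * ((S.a c (Fin.last m) u' : ℤ) : ℝ))) := ⟨_, rfl⟩
  have hwn : ‖w‖ = 1 := by rw [hw, norm_e]
  have h2 : ‖(𝔼 j ∈ range K,
      e (ϑ * ((S.a c (Fin.last m) (k + q * j) - S.a c (Fin.last m) u' : ℤ) : ℝ)) *
        e (∑ i, θ' i * S.P i * (S.t (k + q * j)) ^ (c i))) -
      w * 𝔼 j ∈ range K, e (∑ i, (θ' i * S.P i + (if i = Fin.last m then ϑ * S.P i else 0)) *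
        ((((k + q * j : ℕ) : ℝ) + S.ρ) / S.D) ^ (c i))‖ ≤ A / 2 := by
    rw [mul_expect, ← expect_sub_distrib]
    refine norm_expect_le_of5 _ _ ((by (clear * -; positivity) : (0:ℝ) ≤ 2 * Real.pi * |ϑ|).trans hϑ)
      fun j _ => le_trans ?_ hϑ
    have e1 : ∑ i, (θ' i * S.P i + (if i = Fin.last m then ϑ * S.P i else 0)) *
        ((((k + q * j : ℕ) : ℝ) + S.ρ) / S.D) ^ (c i) =
        ∑ i, θ' i * S.P i * (S.t (k + q * j)) ^ (c i) +
        ϑ * (S.P (Fin.last m) * (S.t (k + q * j)) ^ (c (Fin.last m))) := by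
      have : ∀ i, (θ' i * S.P i + (if i = Fin.last m then ϑ * S.P i else 0)) *
          ((((k + q * j : ℕ) : ℝ) + S.ρ) / S.D) ^ (c i) =
          θ' i * S.P i * (S.t (k + q * j)) ^ (c i) +
          (if i = Fin.last m then ϑ * (S.P i * (S.t (k + q * j)) ^ (c i)) else 0) := by
        intro i
        unfold Sys.t
        split_ifs <;> ring
      simp only [this]
      rw [sum_add_distrib]
      simp
    rw [e1, e_add]
    have e2 : e (ϑ * ((S.a c (Fin.last m) (k + q * j) - S.a c (Fin.last m) u' : ℤ) : ℝ)) =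
        w * e (ϑ * ((S.a c (Fin.last m) (k + q * j) : ℤ) : ℝ)) := by
      rw [hw, ← e_add]
      congr 1
      push_cast; ring
    rw [e2]
    have e3 : w * e (ϑ * ((S.a c (Fin.last m) (k + q * j) : ℤ) : ℝ)) *
        e (∑ i, θ' i * S.P i * (S.t (k + q * j)) ^ (c i)) -
        w * (e (∑ i, θ' i * S.P i * (S.t (k + q * j)) ^ (c i)) *
        e (ϑ * (S.P (Fin.last m) * (S.t (k + q * j)) ^ (c (Fin.last m))))) =
        w * e (∑ i, θ' i * S.P i * (S.t (k + q * j)) ^ (c i)) *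
        (e (ϑ * ((S.a c (Fin.last m) (k + q * j) : ℤ) : ℝ)) -
        e (ϑ * (S.P (Fin.last m) * (S.t (k + q * j)) ^ (c (Fin.last m))))) := by ring
    rw [e3, norm_mul, norm_mul, hwn, norm_e, one_mul, one_mul]
    refine (norm_e_sub_e_le _ _).trans ?_
    rw [← mul_sub, abs_mul]
    have h5 : |((S.a c (Fin.last m) (k + q * j) : ℤ) : ℝ) -
        S.P (Fin.last m) * (S.t (k + q * j)) ^ (c (Fin.last m))| ≤ 1 := by
      unfold Sys.a
      have h6 := Int.floor_le (S.P (Fin.last m) * (S.t (k + q * j)) ^ (c (Fin.last m)))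
      have h7 := Int.lt_floor_add_one (S.P (Fin.last m) * (S.t (k + q * j)) ^ (c (Fin.last m)))
      rw [abs_le]
      constructor <;> (clear * - h7 h6; linarith)
    calc 2 * Real.pi * (|ϑ| * |((S.a c (Fin.last m) (k + q * j) : ℤ) : ℝ) -
        S.P (Fin.last m) * (S.t (k + q * j)) ^ (c (Fin.last m))|) ≤ 2 * Real.pi * (|ϑ| * 1) := by
          (clear * - h5; gcongr)
      _ = 2 * Real.pi * |ϑ| := by ring
  have h3 := norm_sub_norm_le (𝔼 j ∈ range K,
      e (ϑ * ((S.a c (Fin.last m) (k + q * j) - S.a c (Fin.last m) u' : ℤ) : ℝ)) *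
        e (∑ i, θ' i * S.P i * (S.t (k + q * j)) ^ (c i)))
      (w * 𝔼 j ∈ range K, e (∑ i, (θ' i * S.P i + (if i = Fin.last m then ϑ * S.P i else 0)) *
        ((((k + q * j : ℕ) : ℝ) + S.ρ) / S.D) ^ (c i)))
  rw [norm_mul, hwn, one_mul] at h3
  (clear * - hk2 h2 h3; linarith)

end

end Pool.Agent.Helper67.NX2

end

section

set_option autoImplicit false

open Finset

open scoped BigOperators ComplexConjugate

namespace Pool.Agent.Helper57.NX

noncomputable section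

section Blocks64

variable {N : ℕ} [NeZero N]

/-- variation from windows -/
lemma tv_of_window64 {B : ℝ} {X : ℕ} (hX : 1 ≤ X) {f : ZMod N → ℂ}
    (h : ∀ x : ZMod N, ∑ j ∈ range X, ‖f (x + (j : ZMod N) + 1) - f (x + (j : ZMod N))‖ ≤ B) :
    TV B X f := by
  have hB : 0 ≤ B := (sum_nonneg fun _ _ => norm_nonneg _).trans (h 0)
  have key : ∀ (n : ℕ) (x : ZMod N),
      ∑ j ∈ range (n * X), ‖f (x + (j : ZMod N) + 1) - f (x + (j : ZMod N))‖ ≤ n * B := by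
    intro n
    induction n with
    | zero => intro x; simp
    | succ n ih =>
      intro x
      rw [Nat.succ_mul, sum_range_add]
      have h1 := ih x
      have h2 := h (x + ((n * X : ℕ) : ZMod N))
      have h3 : ∑ j ∈ range X, ‖f (x + ((n * X + j : ℕ) : ZMod N) + 1) -
          f (x + ((n * X + j : ℕ) : ZMod N))‖ =
          ∑ j ∈ range X, ‖f (x + ((n * X : ℕ) : ZMod N) + (j : ZMod N) + 1) -
            f (x + ((n * X : ℕ) : ZMod N) + (j : ZMod N))‖ := by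
        refine sum_congr rfl fun j _ => ?_
        rw [Nat.cast_add, ← add_assoc]
      rw [h3]
      push_cast
      push_cast at h1 h2
      (clear * - h1 h2; linarith)
  intro x l
  have hX0 : (0 : ℝ) < X := by exact_mod_cast hX
  have hl : l ≤ (l / X + 1) * X := by
    have h5 := Nat.div_add_mod l X
    have h6 := Nat.mod_lt l hX
    rw [Nat.add_mul, mul_comm (l / X) X]
    omega
  refine (sum_le_sum_of_subset_of_nonneg (range_mono hl) fun _ _ _ => norm_nonneg _).trans ?_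
  refine (key (l / X + 1) x).trans ?_
  have h4 : ((l / X : ℕ) : ℝ) ≤ (l : ℝ) / X := Nat.cast_div_le
  push_cast
  (clear * - hB h4; nlinarith)

open Classical in
/-- functions which are constant on blocks -/
lemma tv_block64 {X : ℕ} (hX : 1 ≤ X) (hXN : X ≤ N) (r : ZMod N) (ψ : ℕ → ℂ)
    (hψ : ∀ j, ‖ψ j‖ ≤ 1) : TV 4 X (fun z : ZMod N => ψ ((z - r).val / X)) := by
  refine tv_of_window64 hX fun x => ?_
  have h1 : ∀ p : ZMod N, ‖ψ ((p + 1 - r).val / X) - ψ ((p - r).val / X)‖ ≤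
      if chg64 X r p then (2 : ℝ) else 0 := by
    intro p
    split_ifs with hp
    · exact (norm_sub_le _ _).trans (by have := hψ ((p + 1 - r).val / X); have := hψ ((p - r).val / X); linarith)
    · have h2 := nochg64 (X := X) (r := r) (p := p) 1 (by
        intro t ht
        obtain rfl : t = 0 := by omega
        simpa using hp)
      simp only [Nat.cast_one] at h2
      rw [h2.2, sub_self, norm_zero]
  refine (sum_le_sum fun (j : ℕ) _ => h1 (x + (j : ZMod N))).trans ?_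
  rw [← sum_filter, sum_const, nsmul_eq_mul]
  have h3 := chg_count64 hX hXN r x
  have h4 : ((#((range X).filter fun j : ℕ => chg64 X r (x + (j : ZMod N))) : ℕ) : ℝ) ≤ 2 := by
    exact_mod_cast h3
  (clear * - h4; linarith)

end Blocks64

end

end Pool.Agent.Helper57.NX

end

section

set_option autoImplicit false

open Finset

open scoped BigOperators ComplexConjugate

namespace Pool.Agent.Helper57.NX

noncomputable section

/-- Transport of a sequence to `ZMod n`. -/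
theorem tv_transport7 (g : ℕ → ℂ) (hg : ∀ v, ‖g v‖ ≤ 1) (B X : ℝ) (hB : 0 ≤ B) (hX : 0 < X)
    (hv : ∀ a l : ℕ, ∑ j ∈ range l, ‖g (a + j + 1) - g (a + j)‖ ≤ B * (l / X + 1)) (n : ℕ)
    [NeZero n] (hn : X ≤ n) : Adm (2 * B + 2) X (fun y : ZMod n => g y.val) := by
  refine ⟨fun y => hg _, fun y l => ?_⟩
  have hn0 : 0 < n := Nat.pos_of_ne_zero (NeZero.ne n)
  have h1 : ∀ j ∈ range l, ‖g (y + (j : ZMod n) + 1).val - g (y + (j : ZMod n)).val‖ =
      ‖g ((y.val + j + 1) % n) - g ((y.val + j) % n)‖ := by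
    intro j _
    have e1 : (y + (j : ZMod n)).val = (y.val + j) % n := by
      rw [← ZMod.val_natCast]
      congr 1
      push_cast
      rw [ZMod.natCast_zmod_val]
    have e2 : (y + (j : ZMod n) + 1).val = (y.val + j + 1) % n := by
      rw [← ZMod.val_natCast]
      congr 1
      push_cast
      rw [ZMod.natCast_zmod_val]
    rw [e1, e2]
  rw [sum_congr rfl h1]
  refine (mod_var7 g hg B X hB hX hv n hn0 l y.val (ZMod.val_lt y)).trans ?_
  have h2 : (((y.val + l) / n : ℕ) : ℝ) ≤ l / X + 1 := by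
    have h3 : (((y.val + l) / n : ℕ) : ℝ) ≤ ((y.val + l : ℕ) : ℝ) / n := Nat.cast_div_le
    refine h3.trans ?_
    have hnR : (0 : ℝ) < n := by exact_mod_cast hn0
    have h4 : (y.val : ℝ) ≤ n := by exact_mod_cast (ZMod.val_lt y).le
    push_cast
    rw [add_div]
    have h5 : (y.val : ℝ) / n ≤ 1 := by rw [div_le_one hnR]; exact h4
    have h6 : (l : ℝ) / n ≤ l / X := by
      exact div_le_div_of_nonneg_left (Nat.cast_nonneg _) hX hn
    (clear * - h5 h6; linarith)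
  have h7 := mul_le_mul_of_nonneg_left h2 (show 0 ≤ B + 2 by (clear * - hB; linarith))
  (clear * - h7; nlinarith [h7])

/-- Bounds for the sequences. -/
theorem a_bound7 {m : ℕ} (S : Sys m) (c : Fin m → ℝ) (i : Fin m) (hci : 0 ≤ c i)
    (hP : 0 ≤ S.P i) (hD : 0 < S.D) (hρ0 : 0 ≤ S.ρ) (hρ1 : S.ρ ≤ 1)
    (hu : (S.u : ℝ) + S.T ≤ 2 * S.D) {k : ℕ} (hk : k ∈ S.I) :
    0 ≤ S.a c i k ∧ (S.a c i k : ℝ) ≤ S.P i * 2 ^ (c i) := by
  have hk' : k + 1 ≤ S.u + S.T := by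
    have := (mem_Ico.mp hk).2
    omega
  have hk2 : (k : ℝ) + 1 ≤ S.u + S.T := by exact_mod_cast hk'
  have ht0 : 0 ≤ S.t k := by
    unfold Sys.t
    (clear * - hρ0 hD; positivity)
  have ht : S.t k ≤ 2 := by
    unfold Sys.t
    rw [div_le_iff₀ hD]
    (clear * - hρ1 hu hk2; linarith)
  have h1 : S.t k ^ c i ≤ 2 ^ c i := Real.rpow_le_rpow ht0 ht hci
  constructor
  · exact Int.floor_nonneg.mpr (mul_nonneg hP (Real.rpow_nonneg ht0 _))
  · exact (Int.floor_le _).trans (mul_le_mul_of_nonneg_left h1 hP)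

end

end Pool.Agent.Helper57.NX

end

section

set_option autoImplicit false

open Finset

open scoped BigOperators ComplexConjugate

namespace Pool.Agent.Helper57.NX

noncomputable section

section BP

variable {N : ℕ} [NeZero N]

theorem norm_bphase_le67 (X : ℕ) (r : ZMod N) (cc : ℕ → ℂ) (φ : ℕ → ℝ)
    (hcc : ∀ j, ‖cc j‖ ≤ 1) (x : ZMod N) : ‖bphase X r cc φ x‖ ≤ 1 := by
  unfold bphase
  rw [norm_mul, norm_e, mul_one]
  exact hcc _

/-- one step of a block phase -/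
theorem bphase_step67 (X : ℕ) (r : ZMod N) (cc : ℕ → ℂ) (φ : ℕ → ℝ) (Φ : ℝ) (hΦ : 0 ≤ Φ)
    (hcc : ∀ j, ‖cc j‖ ≤ 1) (hφ : ∀ j, cc j ≠ 0 → |φ j| ≤ Φ) (y : ZMod N) :
    ‖bphase X r cc φ (y + 1) - bphase X r cc φ y‖ ≤
      2 * Real.pi * Φ + (if ((y + 1 - r).val) % X = 0 then 2 else 0) := by
  have hpi := Real.pi_pos
  split_ifs with h
  · have h1 := norm_bphase_le67 X r cc φ hcc (y + 1)
    have h2 := norm_bphase_le67 X r cc φ hcc y
    have h3 := norm_sub_le (bphase X r cc φ (y + 1)) (bphase X r cc φ y)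
    have h4 : 0 ≤ 2 * Real.pi * Φ := by (clear * - hΦ; positivity)
    linarith
  · have hval : (y + 1 - r).val = (y - r).val + 1 := by
      have h0 : (y + 1 - r).val ≠ 0 := by
        intro h0
        rw [h0] at h
        simp at h
      have hne : y + 1 - r ≠ 0 := by
        intro h1
        rw [h1] at h0
        simp at h0
      have h5 : y - r = (y + 1 - r) - 1 := by ring
      have h6 := ZMod.val_natCast_of_lt (n := N) (a := (y + 1 - r).val - 1)
        (by have := ZMod.val_lt (y + 1 - r); omega)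
      have h7 : (((y + 1 - r).val - 1 : ℕ) : ZMod N) = y - r := by
        rw [h5, Nat.cast_sub (by omega), ZMod.natCast_zmod_val, Nat.cast_one]
      rw [h7] at h6
      omega
    have hdiv : ((y - r).val + 1) / X = (y - r).val / X := by
      rw [hval] at h
      rw [Nat.succ_div, if_neg (fun hd => h (Nat.mod_eq_zero_of_dvd hd)), add_zero]
    unfold bphase
    rw [hval, hdiv, ← mul_sub, norm_mul]
    by_cases hc : cc ((y - r).val / X) = 0
    · rw [hc, norm_zero, zero_mul]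
      (clear * - hΦ; positivity)
    · have h8 := norm_e_sub_e_le (φ ((y - r).val / X) * (((y - r).val + 1 : ℕ) : ℝ))
        (φ ((y - r).val / X) * ((y - r).val : ℝ))
      have h9 : φ ((y - r).val / X) * (((y - r).val + 1 : ℕ) : ℝ) -
          φ ((y - r).val / X) * ((y - r).val : ℝ) = φ ((y - r).val / X) := by
        push_cast; ring
      rw [h9] at h8
      calc _ ≤ 1 * (2 * Real.pi * |φ ((y - r).val / X)|) :=
            mul_le_mul (hcc _) h8 (norm_nonneg _) zero_le_one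
        _ ≤ 2 * Real.pi * Φ + 0 := by
            rw [one_mul, add_zero]
            exact mul_le_mul_of_nonneg_left (hφ _ hc) (by positivity)

/-- block phases with bounded frequencies have bounded variation -/
theorem bphase_tv67 (X : ℕ) (hX : 1 ≤ X) (hXN : X ≤ N) (r : ZMod N) (cc : ℕ → ℂ) (φ : ℕ → ℝ)
    (Φ : ℝ) (hΦ : 0 ≤ Φ) (hcc : ∀ j, ‖cc j‖ ≤ 1) (hφ : ∀ j, cc j ≠ 0 → |φ j| ≤ Φ) :
    TV (2 * Real.pi * Φ * X + 4) X (bphase X r cc φ) := by
  classical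
  intro x l
  have hpi := Real.pi_pos
  have hX0 : (0 : ℝ) < X := by exact_mod_cast hX
  have h1 : ∀ j ∈ range l, ‖bphase X r cc φ (x + (j : ZMod N) + 1) -
      bphase X r cc φ (x + (j : ZMod N))‖ ≤ 2 * Real.pi * Φ +
        (if (((x + 1 - r).val + j) % N) % X = 0 then 2 else 0) := by
    intro j _
    have h2 := bphase_step67 X r cc φ Φ hΦ hcc hφ (x + (j : ZMod N))
    have h3 : (x + (j : ZMod N) + 1 - r).val = ((x + 1 - r).val + j) % N := by
      have h4 : x + (j : ZMod N) + 1 - r = (((x + 1 - r).val + j : ℕ) : ZMod N) := by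
        rw [Nat.cast_add, ZMod.natCast_zmod_val]
        ring
      rw [h4, ZMod.val_natCast]
    rwa [h3] at h2
  refine (sum_le_sum h1).trans ?_
  rw [sum_add_distrib, sum_const, card_range, nsmul_eq_mul, ← sum_filter, sum_const,
    nsmul_eq_mul]
  have h5 := card_boundary67 N X hX hXN (x + 1 - r).val l
  have h6 : (l : ℝ) * (2 * Real.pi * Φ) = 2 * Real.pi * Φ * X * (l / X) := by
    (clear * - hX; field_simp)
  have h7 : 0 ≤ 2 * Real.pi * Φ * X := by (clear * - hΦ hX; positivity)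
  exact by
    (clear * - h5 h6 h7; nlinarith)

theorem bphase_adm67 (X : ℕ) (hX : 1 ≤ X) (hXN : X ≤ N) (r : ZMod N) (cc : ℕ → ℂ) (φ : ℕ → ℝ)
    (Φ : ℝ) (hΦ : 0 ≤ Φ) (hcc : ∀ j, ‖cc j‖ ≤ 1) (hφ : ∀ j, cc j ≠ 0 → |φ j| ≤ Φ) :
    Adm (2 * Real.pi * Φ * X + 4) X (bphase X r cc φ) :=
  ⟨norm_bphase_le67 X r cc φ hcc, bphase_tv67 X hX hXN r cc φ Φ hΦ hcc hφ⟩

end BP

end

end Pool.Agent.Helper57.NX

end

section

set_option autoImplicit false

set_option linter.unusedSectionVars false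

set_option linter.unusedVariables false

open Finset

open scoped BigOperators ComplexConjugate

namespace Pool.Agent.Helper57.NX

noncomputable section

/-- a long average is an average of short windows, with a modified frequency -/
theorem db_window (v : ℕ → ℂ) (hv : ∀ t, ‖v t‖ ≤ 1) (θ Ψ : ℝ) (X X' : ℕ) (hX : 1 ≤ X)
    (hX' : 1 ≤ X') :
    ‖𝔼 t ∈ range X, v t * e (-(θ * t))‖
      ≤ (𝔼 t0 ∈ range X, ‖𝔼 z ∈ range X', v (t0 + z) * e (-(Ψ * z))‖)
        + (2 * X' / X + 2 * Real.pi * |θ - Ψ| * X') := by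
  have hne : (range X).Nonempty := by simpa using (by omega : X ≠ 0)
  have hne' : (range X').Nonempty := by simpa using (by omega : X' ≠ 0)
  set g : ℕ → ℂ := fun t => v t * e (-(θ * t)) with hg
  have hg1 : ∀ t, ‖g t‖ ≤ 1 := fun t => by
    rw [hg]
    simp only [norm_mul, norm_e, mul_one]
    exact hv t
  have h1 : ‖(𝔼 t ∈ range X, g t) - 𝔼 z ∈ range X', 𝔼 t ∈ range X, g (t + z)‖ ≤ 2 * X' / X := by
    have : (𝔼 t ∈ range X, g t) - 𝔼 z ∈ range X', 𝔼 t ∈ range X, g (t + z)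
        = 𝔼 z ∈ range X', ((𝔼 t ∈ range X, g t) - 𝔼 t ∈ range X, g (t + z)) := by
      rw [expect_sub_distrib, expect_const hne']
    rw [this]
    refine norm_expect_le_of5 _ _ (by (clear * - hX' hX; positivity)) fun z hz => ?_
    refine (db_shift g hg1 X hX z).trans ?_
    have : (z : ℝ) ≤ X' := by exact_mod_cast (mem_range.mp hz).le
    (clear * - this hX; gcongr)
  have h2 : 𝔼 z ∈ range X', 𝔼 t ∈ range X, g (t + z)
      = 𝔼 t ∈ range X, 𝔼 z ∈ range X', g (t + z) := expect_comm _ _ _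
  exact by
    have h3 : ‖𝔼 t ∈ range X, 𝔼 z ∈ range X', g (t + z)‖
        ≤ 𝔼 t ∈ range X, ‖𝔼 z ∈ range X', g (t + z)‖ := norm_expect_le5 _ _
    have h4 : ∀ t ∈ range X, ‖𝔼 z ∈ range X', g (t + z)‖
        ≤ ‖𝔼 z ∈ range X', v (t + z) * e (-(Ψ * z))‖ + 2 * Real.pi * |θ - Ψ| * X' := by
      intro t _
      have h5 : 𝔼 z ∈ range X', g (t + z)
          = e (-(θ * t)) * 𝔼 z ∈ range X', v (t + z) * e (-(θ * z)) := by
        rw [mul_expect]
        refine expect_congr rfl fun z _ => ?_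
        rw [hg]
        simp only
        rw [show -(θ * ((t + z : ℕ) : ℝ)) = -(θ * t) + -(θ * z) by push_cast; ring, e_add]
        ring
      rw [h5, norm_mul, norm_e, one_mul]
      have h6 : ‖(𝔼 z ∈ range X', v (t + z) * e (-(θ * z)))
          - 𝔼 z ∈ range X', v (t + z) * e (-(Ψ * z))‖ ≤ 2 * Real.pi * |θ - Ψ| * X' := by
        rw [← expect_sub_distrib]
        refine norm_expect_le_of5 _ _ (by (clear * - hX'; positivity)) fun z hz => ?_
        rw [← mul_sub, norm_mul]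
        have h7 := norm_e_sub_e_le (-(θ * z)) (-(Ψ * z))
        have h8 : |-(θ * (z : ℝ)) - -(Ψ * z)| = |θ - Ψ| * z := by
          rw [show -(θ * (z : ℝ)) - -(Ψ * z) = -((θ - Ψ) * z) by ring, abs_neg, abs_mul,
            Nat.abs_cast]
        have h9 : (z : ℝ) ≤ X' := by exact_mod_cast (mem_range.mp hz).le
        calc ‖v (t + z)‖ * ‖e (-(θ * z)) - e (-(Ψ * z))‖
            ≤ 1 * (2 * Real.pi * (|θ - Ψ| * z)) := by
              rw [← h8]
              exact mul_le_mul (hv _) h7 (norm_nonneg _) zero_le_one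
          _ ≤ 2 * Real.pi * |θ - Ψ| * X' := by
              rw [one_mul, ← mul_assoc]
              (clear * - h9; gcongr)
      have := norm_le_norm_add_norm_sub' (𝔼 z ∈ range X', v (t + z) * e (-(θ * z)))
        (𝔼 z ∈ range X', v (t + z) * e (-(Ψ * z)))
      (clear * - h6 this; linarith)
    have h5 : 𝔼 t ∈ range X, ‖𝔼 z ∈ range X', g (t + z)‖
        ≤ (𝔼 t ∈ range X, ‖𝔼 z ∈ range X', v (t + z) * e (-(Ψ * z))‖)
          + 2 * Real.pi * |θ - Ψ| * X' := by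
      have hc : (𝔼 _t ∈ range X, 2 * Real.pi * |θ - Ψ| * X') = 2 * Real.pi * |θ - Ψ| * X' :=
        expect_const hne _
      rw [← hc, ← expect_add_distrib]
      exact expect_le_expect h4
    have h6 := norm_le_norm_add_norm_sub' (𝔼 t ∈ range X, g t)
      (𝔼 z ∈ range X', 𝔼 t ∈ range X, g (t + z))
    rw [h2] at h6 h1
    linarith

end

end Pool.Agent.Helper57.NX

end

section

set_option autoImplicit false

open Finset

open scoped BigOperators ComplexConjugate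

namespace Pool.Agent.Helper67.NX2

open Pool.Agent.Helper57.NX

noncomputable section

section Seq

variable {m N : ℕ} [NeZero N] {S : Sys (m + 1)} {c : Fin (m + 1) → ℝ}

omit [NeZero N] in
theorem t_mem59 {k : ℕ} (hD : 1 ≤ S.D) (h0 : 0 ≤ S.ρ) (h1 : S.ρ ≤ 1) (hk : S.D ≤ k)
    (hk3 : (k : ℝ) ≤ 3 * S.D) : 1 ≤ S.t k ∧ S.t k ≤ 4 := by
  unfold Sys.t
  have hD0 : 0 < S.D := by linarith
  rw [le_div_iff₀ hD0, div_le_iff₀ hD0]
  constructor <;> (clear * - h0 hk hD h1 hk3; linarith)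

theorem t_add59 (k j : ℕ) : S.t (k + j) - S.t k = j / S.D := by
  unfold Sys.t
  rw [← sub_div]
  push_cast
  congr 1
  ring

theorem tpow59 (γ : ℝ) {k j : ℕ} (hD : 1 ≤ S.D) (h0 : 0 ≤ S.ρ) (h1 : S.ρ ≤ 1)
    (hk : S.D ≤ k) (hk3 : ((k + j : ℕ) : ℝ) ≤ 3 * S.D) :
    |(S.t (k + j)) ^ γ - (S.t k) ^ γ| ≤ Lc59 γ * (j / S.D) := by
  have hkj : (k : ℝ) ≤ (k + j : ℕ) := by exact_mod_cast Nat.le_add_right k j
  have e1 := t_mem59 hD h0 h1 hk (hkj.trans hk3)
  have e2 := t_mem59 hD h0 h1 (hk.trans hkj) hk3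
  rw [← t_add59 k j]
  refine lip59 γ _ _ e1.1 ?_ e2.2
  have := t_add59 (S := S) k j
  have h3 : 0 ≤ (j : ℝ) / S.D := by (clear * - hD; positivity)
  linarith

theorem adiff59 (i : Fin (m + 1)) {k j : ℕ} (hD : 1 ≤ S.D) (h0 : 0 ≤ S.ρ) (h1 : S.ρ ≤ 1)
    (hP : 0 ≤ S.P i) (hk : S.D ≤ k) (hk3 : ((k + j : ℕ) : ℝ) ≤ 3 * S.D) :
    |(S.a c i (k + j) : ℝ) - S.a c i k| ≤ Lc59 (c i) * (S.P i * (j / S.D)) + 1 := by
  unfold Sys.a
  have h2 := floor59 (S.P i * S.t (k + j) ^ c i) (S.P i * S.t k ^ c i)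
  have h3 := tpow59 (c i) hD h0 h1 hk hk3
  have h4 : |S.P i * S.t (k + j) ^ c i - S.P i * S.t k ^ c i|
      ≤ Lc59 (c i) * (S.P i * (j / S.D)) := by
    rw [← mul_sub, abs_mul, abs_of_nonneg hP]
    calc _ ≤ S.P i * (Lc59 (c i) * (j / S.D)) := mul_le_mul_of_nonneg_left h3 hP
      _ = _ := by ring
  rw [abs_le] at h2 h4 ⊢
  constructor <;> linarith [h2.1, h2.2, h4.1, h4.2]

end Seq

end

end Pool.Agent.Helper67.NX2

end

section

set_option autoImplicit false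

open Finset

open scoped BigOperators ComplexConjugate

namespace Pool.Agent.Helper57.NX

noncomputable section

section Seq

variable {m N : ℕ} [NeZero N] {S : Sys (m + 1)} {c : Fin (m + 1) → ℝ}

theorem t_mem8 {k : ℕ} (hD : 1 ≤ S.D) (h0 : 0 ≤ S.ρ) (h1 : S.ρ ≤ 1) (hk : S.D ≤ k)
    (hk3 : (k : ℝ) ≤ 3 * S.D) : 1 ≤ S.t k ∧ S.t k ≤ 4 := by
  unfold Sys.t
  have hD0 : 0 < S.D := by linarith
  rw [le_div_iff₀ hD0, div_le_iff₀ hD0]
  constructor <;> (clear * - h0 hk hD h1 hk3; linarith)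

theorem t_add8 (k j : ℕ) : S.t (k + j) - S.t k = j / S.D := by
  unfold Sys.t
  rw [← sub_div]
  push_cast
  congr 1
  ring

theorem tpow8 (γ : ℝ) {k j : ℕ} (hD : 1 ≤ S.D) (h0 : 0 ≤ S.ρ) (h1 : S.ρ ≤ 1)
    (hk : S.D ≤ k) (hk3 : ((k + j : ℕ) : ℝ) ≤ 3 * S.D) :
    |(S.t (k + j)) ^ γ - (S.t k) ^ γ| ≤ Lc8 γ * (j / S.D) := by
  have hkj : (k : ℝ) ≤ (k + j : ℕ) := by exact_mod_cast Nat.le_add_right k j
  have e1 := t_mem8 hD h0 h1 hk (hkj.trans hk3)
  have e2 := t_mem8 hD h0 h1 (hk.trans hkj) hk3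
  rw [← t_add8 k j]
  refine lip8 γ _ _ e1.1 ?_ e2.2
  have := t_add8 (S := S) k j
  have h3 : 0 ≤ (j : ℝ) / S.D := by (clear * - hD; positivity)
  linarith

theorem adiff8 (i : Fin (m + 1)) {k j : ℕ} (hD : 1 ≤ S.D) (h0 : 0 ≤ S.ρ) (h1 : S.ρ ≤ 1)
    (hP : 0 ≤ S.P i) (hk : S.D ≤ k) (hk3 : ((k + j : ℕ) : ℝ) ≤ 3 * S.D) :
    |(S.a c i (k + j) : ℝ) - S.a c i k| ≤ Lc8 (c i) * (S.P i * (j / S.D)) + 1 := by
  unfold Sys.a
  have h2 := floor8 (S.P i * S.t (k + j) ^ c i) (S.P i * S.t k ^ c i)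
  have h3 := tpow8 (c i) hD h0 h1 hk hk3
  have h4 : |S.P i * S.t (k + j) ^ c i - S.P i * S.t k ^ c i|
      ≤ Lc8 (c i) * (S.P i * (j / S.D)) := by
    rw [← mul_sub, abs_mul, abs_of_nonneg hP]
    calc _ ≤ S.P i * (Lc8 (c i) * (j / S.D)) := mul_le_mul_of_nonneg_left h3 hP
      _ = _ := by ring
  rw [abs_le] at h2 h4 ⊢
  constructor <;> linarith [h2.1, h2.2, h4.1, h4.2]

end Seq

/-- the phase -/
def ph8 {m : ℕ} (S : Sys (m + 1)) (c : Fin (m + 1) → ℝ) (v : Fin m → ℝ) (k : ℕ) : ℝ :=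
  ∑ i : Fin m, v i * S.P i.castSucc * (S.t k) ^ (c i.castSucc)

section Win

variable {m N : ℕ} [NeZero N] {S : Sys (m + 1)} {c : Fin (m + 1) → ℝ}

theorem locCorr_le8 (f : ZMod N → ℂ) (hf : ∀ x, ‖f x‖ ≤ 1) (θ : ZMod N → Fin m → ℝ)
    (K K2 : ℕ) (hK : 1 ≤ K) (hK2 : 1 ≤ K2) (x : ZMod N) :
    locCorr S c f θ K x ≤
      𝔼 i ∈ range S.T, ‖𝔼 l ∈ range K2, (f (x + (S.a c (Fin.last m) (S.u + i + l) : ZMod N)) *
        e (ph8 S c (θ x) (S.u + i + l)))‖ + (2 * K2 / K + 2 * K / S.T) := by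
  unfold locCorr Sys.I
  rw [expect_Ico8]
  refine sliding8 (fun k => f (x + (S.a c (Fin.last m) k : ZMod N)) * e (ph8 S c (θ x) k)) ?_
    S.u S.T K K2 hK hK2
  intro k
  rw [norm_mul, norm_e, mul_one]
  exact hf _

omit [NeZero N] in
theorem win_large8 (f : ZMod N → ℂ) (hf : ∀ x, ‖f x‖ ≤ 1) (v : Fin m → ℝ)
    (K2 : ℕ) (k : ℕ) (x : ZMod N) :
    ‖𝔼 l ∈ range K2, (f (x + (S.a c (Fin.last m) (k + l) : ZMod N)) * e (ph8 S c v (k + l)))‖ ≤
      ‖𝔼 l ∈ range K2, e (ph8 S c v (k + l))‖ +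
      𝔼 l ∈ range K2, ‖f (x + (S.a c (Fin.last m) (k + l) : ZMod N))
        - f (x + (S.a c (Fin.last m) k : ZMod N))‖ := by
  have h1 : 𝔼 l ∈ range K2, (f (x + (S.a c (Fin.last m) (k + l) : ZMod N)) * e (ph8 S c v (k + l)))
      = f (x + (S.a c (Fin.last m) k : ZMod N)) * 𝔼 l ∈ range K2, e (ph8 S c v (k + l)) +
        𝔼 l ∈ range K2, (f (x + (S.a c (Fin.last m) (k + l) : ZMod N))
        - f (x + (S.a c (Fin.last m) k : ZMod N))) * e (ph8 S c v (k + l)) := by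
    rw [mul_expect, ← expect_add_distrib]
    refine expect_congr rfl fun l _ => ?_
    ring
  rw [h1]
  refine (norm_add_le _ _).trans (add_le_add ?_ ?_)
  · rw [norm_mul]
    exact mul_le_of_le_one_left (norm_nonneg _) (hf _)
  · refine (norm_expect_le5 _ _).trans (le_of_eq (expect_congr rfl fun l _ => ?_))
    rw [norm_mul, norm_e, mul_one]

omit [NeZero N] in
theorem win_small8 (f : ZMod N → ℂ) (hf : ∀ x, ‖f x‖ ≤ 1) (v : Fin m → ℝ)
    (K2 : ℕ) (k : ℕ) (x : ZMod N) {η : ℝ} (hη : 0 ≤ η)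
    (h : ∀ l ∈ range K2, |ph8 S c v (k + l) - ph8 S c v k| ≤ η) :
    ‖𝔼 l ∈ range K2, (f (x + (S.a c (Fin.last m) (k + l) : ZMod N)) * e (ph8 S c v (k + l)))‖ ≤
      ‖𝔼 l ∈ range K2, f (x + (S.a c (Fin.last m) (k + l) : ZMod N))‖ + 2 * Real.pi * η := by
  have h1 : 𝔼 l ∈ range K2, (f (x + (S.a c (Fin.last m) (k + l) : ZMod N)) * e (ph8 S c v (k + l)))
      = (𝔼 l ∈ range K2, f (x + (S.a c (Fin.last m) (k + l) : ZMod N))) * e (ph8 S c v k) +
        𝔼 l ∈ range K2, f (x + (S.a c (Fin.last m) (k + l) : ZMod N))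
        * (e (ph8 S c v (k + l)) - e (ph8 S c v k)) := by
    rw [expect_mul, ← expect_add_distrib]
    refine expect_congr rfl fun l _ => ?_
    ring
  rw [h1]
  refine (norm_add_le _ _).trans (add_le_add ?_ ?_)
  · rw [norm_mul, norm_e, mul_one]
  · refine norm_expect_le_of5 _ _ (by positivity) fun l hl => ?_
    rw [norm_mul]
    refine (mul_le_of_le_one_left (norm_nonneg _) (hf _)).trans ((norm_e_sub_e_le _ _).trans ?_)
    have := h l hl
    have h3 : 0 < 2 * Real.pi := by positivity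
    exact mul_le_mul_of_nonneg_left this h3.le

end Win

end

end Pool.Agent.Helper57.NX

end

section

set_option autoImplicit false

open Finset

open scoped BigOperators ComplexConjugate

namespace Pool.Agent.Helper57.NX

noncomputable section

/-- conclusion of `base_cells` -/
def BCells (m : ℕ) (c : Fin (m + 1) → ℝ) (s ε : ℝ) : Prop :=
    ∃ x0 : ℝ, 0 < x0 ∧ ∃ C : ℕ, ∃ σ : ℝ, 0 < σ ∧ ∃ D0 : ℝ,
    ∀ (S : Sys (m + 1)) (N : ℕ) [NeZero N], D0 ≤ S.D → Good S c N x0 →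
    ∀ δ : ℝ, S.D ^ (-σ) ≤ δ → δ ≤ 1 / 2 →
    ∀ X : ℝ, (S.Q : ℝ) ≤ X → S.Q * S.D ^ (s - σ) ≤ X →
    ∀ (f0 : ZMod N → ℂ) (f : Fin (m + 1) → ZMod N → ℂ),
    Adm δ⁻¹ S.Q f0 → (∀ i, Adm δ⁻¹ S.Q (f i)) → Adm δ⁻¹ X (f (Fin.last m)) →
    δ ≤ ‖form S c 1 f0 f‖ →
    ∃ θ : ZMod N → Fin m → ℝ, (∀ x i, |θ x i| ≤ δ⁻¹ ^ C / S.Q) ∧
      ∀ K : ℕ, 1 ≤ K → (K : ℝ) ≤ S.D ^ (1 - ε) →
        δ ^ C ≤ 𝔼 x, locCorr S c (f (Fin.last m)) θ K x

/-- conclusion of `base_class` -/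
def BClass (m : ℕ) (c : Fin (m + 1) → ℝ) (ε2 ε : ℝ) : Prop :=
    ∃ x0 : ℝ, 0 < x0 ∧ ∃ σ : ℝ, 0 < σ ∧ ∃ D0 : ℝ,
    ∀ (S : Sys (m + 1)) (N : ℕ) [NeZero N], D0 ≤ S.D → Good S c N x0 →
    ∀ X : ℝ, S.Q * S.D ^ (c (Fin.last m) - 1 / 4) ≤ X →
    ∀ f : ZMod N → ℂ, Adm (S.D ^ σ) X f →
    ∀ (θ : ZMod N → Fin m → ℝ) (lam : ℝ), S.D ^ ε2 ≤ lam → lam ^ (7 / 6 : ℝ) ≤ S.D ^ (1 / 3 : ℝ) →
    ∀ E : Finset (ZMod N), (∀ x ∈ E, (∀ i, |θ x i * S.P i.castSucc| ≤ lam ^ (7 / 6 : ℝ)) ∧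
      ∃ i, lam ≤ |θ x i * S.P i.castSucc|) →
    ∀ K : ℕ, S.D ^ (1 - ε) ≤ (K : ℝ) + 1 → (K : ℝ) ≤ S.D ^ (1 - ε) →
    𝔼 x, (if x ∈ E then locCorr S c f θ K x else 0) ≤ S.D ^ (-σ)

/-- conclusion of `base_large` -/
def BLarge (m : ℕ) (c : Fin (m + 1) → ℝ) (a εb ε : ℝ) : Prop :=
    ∃ x0 : ℝ, 0 < x0 ∧ ∃ σ : ℝ, 0 < σ ∧ ∃ D0 : ℝ,
    ∀ (S : Sys (m + 1)) (N : ℕ) [NeZero N], D0 ≤ S.D → Good S c N x0 →
    ∀ X : ℝ, S.Q * S.D ^ (c (Fin.last m) - 2 * εb) ≤ X →
    ∀ f : ZMod N → ℂ, Adm (S.D ^ σ) X f →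
    ∀ θ : ZMod N → Fin m → ℝ,
    ∀ E : Finset (ZMod N), (∀ x ∈ E, (∀ i, |θ x i * S.P i.castSucc| ≤ S.D ^ a) ∧
      ∃ i, S.D ^ (1 / 4 : ℝ) ≤ |θ x i * S.P i.castSucc|) →
    ∀ K : ℕ, S.D ^ (1 - ε) ≤ (K : ℝ) + 1 → (K : ℝ) ≤ S.D ^ (1 - ε) →
    𝔼 x, (if x ∈ E then locCorr S c f θ K x else 0) ≤ S.D ^ (-σ)

/-- conclusion of `base_small` -/
def BSmall (m : ℕ) (c : Fin (m + 1) → ℝ) (n : ℕ) (ε2 ε : ℝ) : Prop :=
    ∃ x0 : ℝ, 0 < x0 ∧ ∃ C : ℕ, ∃ σ : ℝ, 0 < σ ∧ ∃ D0 : ℝ,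
    ∀ (S : Sys (m + 1)) (N : ℕ) [NeZero N], D0 ≤ S.D → Good S c N x0 →
    ∀ δ : ℝ, S.D ^ (-σ) ≤ δ → δ ≤ 1 / 2 →
    ∀ X : ℝ, S.Q * S.D ^ (c (Fin.last m) - 1 / 4) ≤ X →
    ∀ f : ZMod N → ℂ, Adm δ⁻¹ X f →
    ∀ θ : ZMod N → Fin m → ℝ,
    ∀ E : Finset (ZMod N), (∀ x ∈ E, ∀ i, |θ x i * S.P i.castSucc| ≤ S.D ^ ε2) →
    ∀ K : ℕ, S.D ^ (1 - ε) ≤ (K : ℝ) + 1 → (K : ℝ) ≤ S.D ^ (1 - ε) →
    δ ^ n ≤ 𝔼 x, (if x ∈ E then locCorr S c f θ K x else 0) →
    ∀ L : ℕ, 1 ≤ L → (L : ℝ) ≤ S.P (Fin.last m) * S.D ^ (-(4 * ε2)) → δ ^ C ≤ nrm (A L f)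

theorem locCorr_nonneg28 {m N : ℕ} [NeZero N] (S : Sys (m + 1)) (c : Fin (m + 1) → ℝ)
    (f : ZMod N → ℂ) (θ : ZMod N → Fin m → ℝ) (K : ℕ) (x : ZMod N) : 0 ≤ locCorr S c f θ K x :=
  expect_nonneg fun _ _ => norm_nonneg _

end

end Pool.Agent.Helper57.NX

end

section

set_option autoImplicit false

open Finset

open scoped BigOperators ComplexConjugate

namespace Pool.Agent.Helper67.NX2

open Pool.Agent.Helper57.NX

noncomputable section

section Core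

variable {N : ℕ} [NeZero N]

/-- the indicator of an interval of residues -/
theorem ind92 {Q p : ℕ} (hN : N = Q * p) (hQ : 1 ≤ Q) {r0 ℓ : ℕ} (hr : r0 + ℓ ≤ Q) :
    Adm 2 Q (fun x : ZMod N => if r0 ≤ x.val % Q ∧ x.val % Q < r0 + ℓ then (1 : ℂ) else 0) := by
  have hQ0 : (0 : ℝ) < Q := by exact_mod_cast hQ
  refine ⟨fun x => ?_, fun x l => ?_⟩
  · split_ifs <;> simp
  · have hd : Q ∣ N := ⟨p, hN⟩
    have hval : ∀ j : ℕ, (x + (j : ZMod N)).val % Q = (x.val + j) % Q := by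
      intro j
      rw [ZMod.val_add, ZMod.val_natCast, Nat.mod_mod_of_dvd _ hd]
      conv_rhs => rw [Nat.add_mod]
      rw [Nat.add_mod, Nat.mod_mod_of_dvd _ hd]
    have h1 : ∀ j ∈ range l, ‖(if r0 ≤ (x + (j : ZMod N) + 1).val % Q ∧
        (x + (j : ZMod N) + 1).val % Q < r0 + ℓ then (1 : ℂ) else 0) -
          (if r0 ≤ (x + (j : ZMod N)).val % Q ∧ (x + (j : ZMod N)).val % Q < r0 + ℓ then
            (1 : ℂ) else 0)‖ ≤
        (if (x.val + 1 + j) % Q = r0 % Q then (1 : ℝ) else 0) +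
          (if (x.val + 1 + j) % Q = (r0 + ℓ) % Q then (1 : ℝ) else 0) := by
      intro j _
      have h2 : x + (j : ZMod N) + 1 = x + ((j + 1 : ℕ) : ZMod N) := by push_cast; ring
      rw [h2, hval j, hval (j + 1)]
      have h3 : x.val + 1 + j = x.val + j + 1 := by omega
      have h4 : x.val + (j + 1) = x.val + j + 1 := by omega
      rw [h3, h4]
      exact jump92 hQ hr _
    refine (sum_le_sum h1).trans ?_
    rw [sum_add_distrib, ← sum_filter, ← sum_filter, sum_const, sum_const, nsmul_eq_mul,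
      nsmul_eq_mul, mul_one, mul_one]
    have h5 := cnt92 hQ (x.val + 1) (r0 % Q) l
    have h6 := cnt92 hQ (x.val + 1) ((r0 + ℓ) % Q) l
    (clear * - h5 h6; linarith)

end Core

end

end Pool.Agent.Helper67.NX2

end

section

set_option autoImplicit false

open Finset

open scoped BigOperators ComplexConjugate

namespace Pool.Agent.Helper67.NX2

open Pool.Agent.Helper57.NX

noncomputable section

section Split52

variable {N : ℕ} [NeZero N]

omit [NeZero N] in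
lemma norm_ind52 (Q q b : ℕ) (x : ZMod N) : ‖ind52 Q q b x‖ ≤ 1 := by
  unfold ind52
  split_ifs <;> simp

lemma adm_ind52 {Q : ℕ} (hQ : 1 ≤ Q) (hQN : Q ≤ N) (q b : ℕ) :
    Adm 4 Q (ind52 (N := N) Q q b) := by
  refine ⟨norm_ind52 Q q b, ?_⟩
  have h := tv_block64 (N := N) hQ hQN 0 (fun j => if j % q = b then (1 : ℂ) else 0)
    (fun j => by split_ifs <;> simp)
  simp only [sub_zero] at h
  exact h

/-- decomposition of a window -/
lemma form_split52 {m p : ℕ} [NeZero p] (S : Sys (m + 1)) (c : Fin (m + 1) → ℝ) {q : ℕ}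
    (hQ : 1 ≤ S.Q) (hq : 1 ≤ q) (hN : N = S.Q * p) (r0 u' J : ℕ) (hJ : 1 ≤ J)
    (hdil : ∀ (i : Fin (m + 1)) (k : ℕ), (dil S c q r0 u' J).a c i k = S.a c i (q * k + r0))
    (f0 : ZMod N → ℂ) (f : Fin m → ZMod N → ℂ)
    (hf0 : ∀ x, ‖f0 x‖ ≤ 1) (hf : ∀ i x, ‖f i x‖ ≤ 1) (G : ZMod p → ℂ) (hG : ∀ z, ‖G z‖ ≤ 1)
    (n0 Δ : ℕ)
    (ha : ∀ j ∈ Ico u' (u' + J), ∃ Δk : ℕ, Δk ≤ Δ ∧ q ∣ Δk ∧
      S.a c (Fin.last m) (q * j + r0) = (S.Q : ℤ) * (n0 + Δk : ℕ)) :
    ‖𝔼 j ∈ Ico u' (u' + J), 𝔼 x : ZMod N, f0 x *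
      ∏ i, (Fin.snoc (α := fun _ => ZMod N → ℂ) f (blk S.Q G)) i
        (x + (S.a c i (q * j + r0) : ZMod N))‖ ≤
      ∑ b ∈ range q, ‖form (dil S c q r0 u' J) c 1 (fun x => f0 x * ind52 S.Q q b x)
        (Fin.snoc (α := fun _ => ZMod N → ℂ) f (T52 S.Q q n0 b G))‖ + 2 * (Δ / p) := by
  have hne : (Ico u' (u' + J)).Nonempty := nonempty_Ico.2 (by omega)
  have h1 : ∀ b, form (dil S c q r0 u' J) c 1 (fun x => f0 x * ind52 S.Q q b x)
      (Fin.snoc (α := fun _ => ZMod N → ℂ) f (T52 S.Q q n0 b G)) =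
      𝔼 j ∈ Ico u' (u' + J), 𝔼 x : ZMod N, (f0 x * ind52 S.Q q b x) *
        ((∏ i : Fin m, f i (x + (S.a c i.castSucc (q * j + r0) : ZMod N))) *
          T52 S.Q q n0 b G (x + (S.a c (Fin.last m) (q * j + r0) : ZMod N))) := by
    intro b
    unfold form
    refine expect_congr rfl fun j _ => ?_
    rw [Pi.one_apply, one_mul]
    refine expect_congr rfl fun x _ => ?_
    rw [Fin.prod_univ_castSucc]
    simp only [Fin.snoc_castSucc, Fin.snoc_last, hdil]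
  have h2 : ∀ j x, ∏ i, (Fin.snoc (α := fun _ => ZMod N → ℂ) f (blk S.Q G)) i
        (x + (S.a c i (q * j + r0) : ZMod N)) =
      (∏ i : Fin m, f i (x + (S.a c i.castSucc (q * j + r0) : ZMod N))) *
          blk S.Q G (x + (S.a c (Fin.last m) (q * j + r0) : ZMod N)) := by
    intro j x
    rw [Fin.prod_univ_castSucc]
    simp only [Fin.snoc_castSucc, Fin.snoc_last]
  simp only [h2]
  have hW : ∀ j x, ‖∏ i : Fin m, f i (x + (S.a c i.castSucc (q * j + r0) : ZMod N))‖ ≤ 1 := by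
    intro j x
    rw [norm_prod]
    exact prod_le_one (fun _ _ => norm_nonneg _) fun i _ => hf i _
  set F : ℕ → ℂ := fun j => 𝔼 x : ZMod N, f0 x *
      ((∏ i : Fin m, f i (x + (S.a c i.castSucc (q * j + r0) : ZMod N))) *
          blk S.Q G (x + (S.a c (Fin.last m) (q * j + r0) : ZMod N))) with hF
  set F' : ℕ → ℕ → ℂ := fun b j => 𝔼 x : ZMod N, (f0 x * ind52 S.Q q b x) *
        ((∏ i : Fin m, f i (x + (S.a c i.castSucc (q * j + r0) : ZMod N))) *
          T52 S.Q q n0 b G (x + (S.a c (Fin.last m) (q * j + r0) : ZMod N))) with hF'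
  have h3 : ∀ j ∈ Ico u' (u' + J), ‖F j - ∑ b ∈ range q, F' b j‖ ≤ 2 * (Δ / p) := by
    intro j hj
    obtain ⟨Δk, hΔk, hdvd, hak⟩ := ha j hj
    exact split_one52 hQ hq hN G hG f0 _ hf0 (hW j) _ n0 Δk Δ hΔk hdvd hak
  have h4 : ‖𝔼 j ∈ Ico u' (u' + J), (F j - ∑ b ∈ range q, F' b j)‖ ≤ 2 * (Δ / p) :=
    norm_expect_le_of5 _ _ (by (clear * -; positivity)) h3
  rw [expect_sub_distrib] at h4
  have h5 : 𝔼 j ∈ Ico u' (u' + J), F j = (𝔼 j ∈ Ico u' (u' + J), F j -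
      𝔼 j ∈ Ico u' (u' + J), ∑ b ∈ range q, F' b j) +
      𝔼 j ∈ Ico u' (u' + J), ∑ b ∈ range q, F' b j := by ring
  rw [h5]
  refine (norm_add_le _ _).trans ?_
  rw [add_comm]
  refine add_le_add ?_ h4
  rw [expect_sum_comm]
  refine (norm_sum_le _ _).trans (le_of_eq (sum_congr rfl fun b _ => ?_))
  rw [h1 b]

end Split52

end

end Pool.Agent.Helper67.NX2

end

section

set_option autoImplicit false

open Finset

open scoped BigOperators ComplexConjugate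

namespace Pool.Agent.Helper67.NX2

open Pool.Agent.Helper57.NX

noncomputable section

theorem la_final {m : ℕ} (S : Sys (m + 1)) (c : Fin (m + 1) → ℝ) (θ' : Fin (m + 1) → ℝ)
    (ϑ A0 W M : ℝ) (q q2 K u' J : ℕ) (τ : ℕ → ℕ) (hq : 1 ≤ q) (hJ : 1 ≤ J)
    (hτ : ∀ j, u' ≤ j → (q : ℝ) * τ j = W * (S.t j) ^ (c (Fin.last m)) - M)
    (h : A0 ≤ 𝔼 k ∈ Ico u' (u' + J), ‖𝔼 j ∈ range K, e (ϑ * (τ (k + q2 * j) : ℝ)) *
        e (∑ i, θ' i * S.P i * (S.t (k + q2 * j)) ^ (c i))‖) :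
    ∃ k, u' ≤ k ∧ k < u' + J ∧ A0 ≤ ‖𝔼 j ∈ range K, e (∑ i,
      (θ' i * S.P i + if i = Fin.last m then ϑ / q * W else 0) *
        ((((k + q2 * j : ℕ) : ℝ) + S.ρ) / S.D) ^ (c i))‖ := by
  obtain ⟨k, hk, hk2⟩ := exists_le_of_le_expect (nonempty_Ico.2 (by omega)) h
  obtain ⟨hk3, hk4⟩ := mem_Ico.1 hk
  refine ⟨k, hk3, hk4, hk2.trans (le_of_eq ?_)⟩
  have hq0 : (q : ℝ) ≠ 0 := by
    have : q ≠ 0 := by omega
    exact_mod_cast this
  have h1 : ∀ j, e (ϑ * (τ (k + q2 * j) : ℝ)) *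
        e (∑ i, θ' i * S.P i * (S.t (k + q2 * j)) ^ (c i)) = e (-(ϑ / q * M)) * e (∑ i,
      (θ' i * S.P i + if i = Fin.last m then ϑ / q * W else 0) *
        ((((k + q2 * j : ℕ) : ℝ) + S.ρ) / S.D) ^ (c i)) := by
    intro j
    rw [← e_add, ← e_add]
    congr 1
    have h2 : ∑ i, (θ' i * S.P i + if i = Fin.last m then ϑ / q * W else 0) *
        ((((k + q2 * j : ℕ) : ℝ) + S.ρ) / S.D) ^ (c i) =
        ∑ i, θ' i * S.P i * (S.t (k + q2 * j)) ^ (c i) +
          ϑ / q * W * (S.t (k + q2 * j)) ^ (c (Fin.last m)) := by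
      have : ∀ i, (θ' i * S.P i + if i = Fin.last m then ϑ / q * W else 0) *
          ((((k + q2 * j : ℕ) : ℝ) + S.ρ) / S.D) ^ (c i) =
          θ' i * S.P i * (S.t (k + q2 * j)) ^ (c i) +
          (if i = Fin.last m then ϑ / q * W * (S.t (k + q2 * j)) ^ (c i) else 0) := by
        intro i
        unfold Sys.t
        split_ifs <;> ring
      simp only [this]
      rw [sum_add_distrib]
      simp
    rw [h2]
    have h3 := hτ (k + q2 * j) (by omega)
    have h4 : (τ (k + q2 * j) : ℝ) = (W * (S.t (k + q2 * j)) ^ (c (Fin.last m)) - M) / q := by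
      rw [← h3]; (clear * - hq0; field_simp)
    rw [h4]
    ring
  simp only [h1]
  rw [← mul_expect, norm_mul, norm_e, one_mul]

end

end Pool.Agent.Helper67.NX2

end

section

set_option autoImplicit false

open Finset

open scoped BigOperators ComplexConjugate

namespace Pool.Agent.Helper67.NX2

open Pool.Agent.Helper57.NX

noncomputable section

variable {N : ℕ} [NeZero N]

omit [NeZero N] in
theorem cr_conj_Aq (st L : ℕ) (f : ZMod N → ℂ) (x : ZMod N) :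
    conj (Aq st L f x) = Aq st L (fun x => conj (f x)) x := by
  rw [Aq, Aq, map_expect]

theorem cr_adj (st L : ℕ) (f g : ZMod N → ℂ) :
    𝔼 x, Aq st L f x * g x = 𝔼 x, f x * Aqb st L g x := by
  unfold Aq Aqb
  simp only [expect_mul, mul_expect]
  rw [expect_comm, expect_comm (s := univ) (t := range L)]
  refine expect_congr rfl fun a _ => ?_
  rw [← expect_shift (fun x => f x * g (x - ((st * a : ℕ) : ZMod N))) ((st * a : ℕ) : ZMod N)]
  refine expect_congr rfl fun x _ => ?_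
  rw [add_sub_cancel_right]

/-- The structured function. -/
def sfq (st Y L : ℕ) (F : ZMod N → ℂ) (b : ZMod N) (x : ZMod N) : ℂ :=
  Aqb st L (Aq st L (fun x => wf Y F x * conj (ch b x))) x

theorem cr_exists_shift {F : ZMod N → ℂ} (st Y L : ℕ) (b : ZMod N) {κ : ℝ} (hκ0 : 0 < κ)
    (hκ : κ ≤ 𝔼 x, ‖Aq st L (fun x => wf Y F x * conj (ch b x)) x‖ ^ 2) :
    ∃ y : ZMod N, κ ≤ ‖𝔼 x, (ch b (x + y) * sfq st Y L F b (x + y)) * F x‖ := by
  set g : ZMod N → ℂ := fun x => wf Y F x * conj (ch b x) with hg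
  set ψ : ZMod N → ℂ := fun x => ch b x * sfq st Y L F b x with hψ
  have h1 : 𝔼 x, conj (wf Y F x) * ψ x = ((𝔼 x, ‖Aq st L g x‖ ^ 2 : ℝ) : ℂ) := by
    have h2 : 𝔼 x, conj (wf Y F x) * ψ x = 𝔼 x, conj (g x) * Aqb st L (Aq st L g) x := by
      refine Finset.expect_congr rfl fun x _ => ?_
      rw [hg, hψ]
      simp only [map_mul, Complex.conj_conj, sfq]
      ring
    rw [h2, ← cr_adj, ← expect_mul_conj]
    refine Finset.expect_congr rfl fun x _ => ?_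
    rw [cr_conj_Aq]
  have h3 : 𝔼 x, conj (wf Y F x) * ψ x = 𝔼 x, A Y (Ab Y ψ) x * F x := by
    have h4 : 𝔼 x, conj (wf Y F x) * ψ x = 𝔼 x, A Y (Ab Y F) x * ψ x := by
      refine Finset.expect_congr rfl fun x _ => ?_
      rw [wf, Complex.conj_conj]
    rw [h4, adj_A, adj_A]
    exact Finset.expect_congr rfl fun x _ => mul_comm _ _
  have h5 : 𝔼 x, A Y (Ab Y ψ) x * F x =
      𝔼 p ∈ range Y ×ˢ range Y, 𝔼 x, ψ (x + ((p.1 : ZMod N) - (p.2 : ZMod N))) * F x := by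
    rw [Finset.expect_product, ]
    simp only [A, Helper57.NX.Ab]
    simp_rw [Finset.expect_mul]
    rw [Finset.expect_comm]
    refine Finset.expect_congr rfl fun a _ => ?_
    rw [Finset.expect_comm]
    refine Finset.expect_congr rfl fun a' _ => ?_
    refine Finset.expect_congr rfl fun x _ => ?_
    rw [add_sub_assoc]
  by_contra hcon
  exact by
    push Not at hcon
    have h6 : ‖𝔼 p ∈ range Y ×ˢ range Y, 𝔼 x, ψ (x + ((p.1 : ZMod N) - (p.2 : ZMod N))) * F x‖ < κ := by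
      rcases (range Y ×ˢ range Y).eq_empty_or_nonempty with h | h
      · rw [h, Finset.expect_empty, norm_zero]
        exact hκ0
      · refine (norm_expect_le' _ _).trans_lt ?_
        exact expect_lt h fun p _ => hcon _
    rw [← h5, ← h3, h1, Complex.norm_real, Real.norm_eq_abs, abs_of_nonneg] at h6
    · exact absurd hκ (not_le.mpr h6)
    · exact Finset.expect_nonneg fun x _ => sq_nonneg _

end

end Pool.Agent.Helper67.NX2

end

section

set_option autoImplicit false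

open Finset

open scoped BigOperators ComplexConjugate

namespace Pool.Agent.Helper57.NX

noncomputable section

section Final

variable {m N : ℕ} [NeZero N] {S : Sys (m + 1)} {c : Fin (m + 1) → ℝ} {x0 ε s X : ℝ}

/-- the error constant -/
def Mc (c : Fin (m + 1) → ℝ) : ℝ := ∑ i, c i * 4 ^ (c i)

theorem le_Mc (hc : ∀ i, 0 < c i) (i : Fin (m + 1)) : c i * 4 ^ (c i) ≤ Mc c :=
  Finset.single_le_sum (f := fun i => c i * (4 : ℝ) ^ (c i))
    (fun j _ => mul_nonneg (hc j).le (by positivity)) (Finset.mem_univ i)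

omit [NeZero N] in
theorem t_mem (hG : Good S c N x0) (hD : 1 ≤ S.D) {k j : ℕ} (hk : k ∈ S.I) (hj : (j : ℝ) ≤ S.D) :
    1 ≤ S.t (k + j) ∧ S.t (k + j) ≤ 4 := by
  have hD0 : 0 < S.D := by linarith
  rw [Sys.I, Finset.mem_Ico] at hk
  have h1 : (S.u : ℝ) ≤ k := by exact_mod_cast hk.1
  have h2 : (k : ℝ) ≤ S.u + S.T := by exact_mod_cast hk.2.le
  have h3 := hG.u1
  have h4 := hG.u2
  have h5 := hG.ρ0
  have h6 := hG.ρ1
  have h7 : (0 : ℝ) ≤ j := Nat.cast_nonneg _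
  unfold Sys.t
  push_cast
  constructor
  · rw [le_div_iff₀ hD0]; (clear * - h1 h3 h5; linarith)
  · rw [div_le_iff₀ hD0]; (clear * - hD hj h2 h4 h6; linarith)

omit [NeZero N] in
theorem a_diff (hG : Good S c N x0) (hc : ∀ i, 0 < c i) (hD : 1 ≤ S.D) {k j : ℕ} (hk : k ∈ S.I)
    (hj : (j : ℝ) ≤ S.D) (hP : ∀ i, 0 ≤ S.P i) (i : Fin (m + 1)) :
    |((S.a c i (k + j) - S.a c i k : ℤ) : ℝ)| ≤ S.P i * (Mc c * (j / S.D)) + 1 := by
  have hD0 : 0 < S.D := by linarith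
  refine (floor_sub _ _).trans ?_
  obtain ⟨h1, h2⟩ := t_mem hG hD hk hj
  have h3 := t_mem hG hD (j := 0) hk (by simp; linarith)
  rw [add_zero] at h3
  rw [← mul_sub, abs_mul, abs_of_nonneg (hP i)]
  have h4 := rpow_lip (hc i) h3.1 h3.2 h1 h2
  have h5 : |S.t (k + j) - S.t k| = j / S.D := by
    have : S.t (k + j) - S.t k = j / S.D := by
      unfold Sys.t
      push_cast
      ring
    rw [this, abs_of_nonneg (by (clear * - hD; positivity))]
  rw [h5] at h4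
  have h6 : c i * 4 ^ (c i) * (j / S.D) ≤ Mc c * (j / S.D) :=
    mul_le_mul_of_nonneg_right (le_Mc hc i) (by (clear * - hD; positivity))
  have h7 := mul_le_mul_of_nonneg_left (h4.trans h6) (hP i)
  (clear * - h7; linarith)

end Final

end

end Pool.Agent.Helper57.NX

end

section

set_option autoImplicit false

open Finset

open scoped BigOperators ComplexConjugate

namespace Pool.Agent.Helper67.NX2

open Pool.Agent.Helper57.NX

noncomputable section

section Four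

variable {N : ℕ} [NeZero N]

theorem pigeon15 {f : ZMod N → ℂ} (hf : ∀ x, ‖f x‖ ≤ 1) (W : ZMod N → ℝ)
    (hW : ∀ b, W b ≤ 1) (ξ : ℝ) (hξ : 0 < ξ)
    (h : 2 * ξ ≤ ∑ b, ‖fc f b‖ ^ 2 * W b) (R : ℕ) (V : ℕ → ZMod N → Prop)
    (hV : ∀ b, ξ ≤ W b → ∃ q, 1 ≤ q ∧ q ≤ R ∧ V q b) :
    ∃ q, 1 ≤ q ∧ q ≤ R ∧ (open scoped Classical in
      ξ / R ≤ ∑ b ∈ univ.filter (V q), ‖fc f b‖ ^ 2) := by
  classical
  have h1 : ξ ≤ ∑ b ∈ univ.filter (fun b => ξ ≤ W b), ‖fc f b‖ ^ 2 := by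
    have h2 : ∀ b, ‖fc f b‖ ^ 2 * W b ≤
        (if ξ ≤ W b then ‖fc f b‖ ^ 2 else 0) + ‖fc f b‖ ^ 2 * ξ := by
      intro b
      split_ifs with hb
      · have := mul_le_mul_of_nonneg_left (hW b) (sq_nonneg ‖fc f b‖)
        have h3 : 0 ≤ ‖fc f b‖ ^ 2 * ξ := by (clear * - hξ; positivity)
        (clear * - this h3; linarith)
      · push Not at hb
        have := mul_le_mul_of_nonneg_left hb.le (sq_nonneg ‖fc f b‖)
        (clear * - this; linarith)
    have h3 := Finset.sum_le_sum fun b (_ : b ∈ (univ : Finset (ZMod N))) => h2 b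
    rw [Finset.sum_add_distrib, ← Finset.sum_mul, ← Finset.sum_filter] at h3
    have h4 : (∑ b, ‖fc f b‖ ^ 2) * ξ ≤ 1 * ξ :=
      mul_le_mul_of_nonneg_right (sum_fc_le hf) hξ.le
    linarith
  by_contra hcon
  push Not at hcon
  have h5 : ∑ b ∈ univ.filter (fun b => ξ ≤ W b), ‖fc f b‖ ^ 2 ≤
      ∑ q ∈ Icc 1 R, ∑ b ∈ univ.filter (V q), ‖fc f b‖ ^ 2 := by
    simp_rw [Finset.sum_filter]
    rw [Finset.sum_comm]
    refine Finset.sum_le_sum fun b _ => ?_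
    split_ifs with hb
    · obtain ⟨q, hq1, hqR, hqV⟩ := hV b hb
      refine le_trans (le_of_eq ?_) (Finset.single_le_sum (f := fun q =>
        if V q b then ‖fc f b‖ ^ 2 else 0) (fun q _ => ?_) (Finset.mem_Icc.2 ⟨hq1, hqR⟩))
      · simp only [if_pos hqV]
      · (clear * -; positivity)
    · exact Finset.sum_nonneg fun q _ => by (clear * -; positivity)
  have hR : 1 ≤ R := by
    by_contra hR
    have hR0 : R = 0 := by omega
    subst hR0
    have h6 : ∑ b ∈ univ.filter (fun b => ξ ≤ W b), ‖fc f b‖ ^ 2 = 0 := by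
      refine Finset.sum_eq_zero fun b hb => ?_
      obtain ⟨q, hq1, hqR, -⟩ := hV b (Finset.mem_filter.1 hb).2
      omega
    (clear * - hξ h1 h6; linarith)
  have hR0 : (0 : ℝ) < R := by exact_mod_cast hR
  have h6 : ∑ q ∈ Icc 1 R, ∑ b ∈ univ.filter (V q), ‖fc f b‖ ^ 2 < ∑ q ∈ Icc 1 R, ξ / R := by
    refine Finset.sum_lt_sum_of_nonempty ⟨1, Finset.mem_Icc.2 ⟨le_rfl, hR⟩⟩ fun q hq => ?_
    exact hcon q (Finset.mem_Icc.1 hq).1 (Finset.mem_Icc.1 hq).2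
  rw [Finset.sum_const, Nat.card_Icc, nsmul_eq_mul] at h6
  have h7 : ((R + 1 - 1 : ℕ) : ℝ) * (ξ / R) = ξ := by
    rw [Nat.add_sub_cancel]
    (clear * - hR hξ; field_simp)
  (clear * - h1 h5 h6 h7; linarith)

end Four

end

end Pool.Agent.Helper67.NX2

end

section

set_option autoImplicit false

open Finset

open scoped BigOperators ComplexConjugate

namespace Pool.Agent.Helper67.NX2

open Pool.Agent.Helper57.NX

noncomputable section

/-- averages on `ZMod (Q p)` and on the integers -/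
theorem nrm_lift21 {N : ℕ} [NeZero N] (Q p Z q L : ℕ) (hN : N = Q * p) (f : ℤ → ℂ)
    (hf : ∀ x, ‖f x‖ ≤ 1) (hf0 : ∀ x, (x < 0 ∨ (Z : ℤ) ≤ x) → f x = 0) (hZp : 2 * Z < p)
    (hLZ : L * q ≤ Z) :
    p * nrm (Aq (Q * q) L (lift21 (N := N) Q f)) ≤
      ∑ x ∈ range Z, ‖𝔼 a ∈ range L, f (x + (q * a : ℕ))‖ + L * q := by
  have hp0 : (0 : ℝ) < p := by
    have : 0 < p := by omega
    exact_mod_cast this
  set h : ℕ → ℝ := fun y => (if y < Z then ‖𝔼 a ∈ range L, f ((y : ℤ) + (q * a : ℕ))‖ else 0) +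
    (if y + L * q < p then 0 else 1) with hh
  have h1 : nrm (Aq (Q * q) L (lift21 (N := N) Q f)) ≤ 𝔼 x : ZMod N, h (x.val / Q) := by
    unfold nrm
    refine Finset.expect_le_expect fun x _ => ?_
    unfold Aq
    by_cases hx : x.val / Q + L * q < p
    · have h2 : ∀ a ∈ range L, lift21 (N := N) Q f (x + ((Q * q * a : ℕ) : ZMod N)) =
          f (((x.val / Q : ℕ) : ℤ) + (q * a : ℕ)) := by
        intro a ha
        have ha' := Finset.mem_range.mp ha
        unfold lift21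
        have h3 : q * a ≤ L * q := by
          rw [mul_comm L q]
          exact Nat.mul_le_mul_left q ha'.le
        rw [mul_assoc, val_div21 Q p hN x (q * a) (by omega)]
        push_cast
        rfl
      rw [Finset.expect_congr rfl h2]
      simp only [hh]
      rw [if_pos hx, add_zero]
      by_cases hy : x.val / Q < Z
      · rw [if_pos hy]
      · rw [if_neg hy]
        have h4 : ∀ a ∈ range L, f (((x.val / Q : ℕ) : ℤ) + (q * a : ℕ)) = 0 := by
          intro a _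
          refine hf0 _ (Or.inr ?_)
          push Not at hy
          have h5 : (Z : ℤ) ≤ ((x.val / Q : ℕ) : ℤ) := by exact_mod_cast hy
          have h6 : (0 : ℤ) ≤ (q * a : ℕ) := Int.natCast_nonneg _
          (clear * - h5; linarith)
        rw [Finset.expect_congr rfl h4]
        simp
    · simp only [hh]
      rw [if_neg hx]
      have h2 : ‖𝔼 a ∈ range L, lift21 (N := N) Q f (x + ((Q * q * a : ℕ) : ZMod N))‖ ≤ 1 :=
        norm_expect_le_of5 _ _ zero_le_one fun _ _ => hf _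
      refine h2.trans ?_
      have h3 : 0 ≤ (if x.val / Q < Z then
          ‖𝔼 a ∈ range L, f (((x.val / Q : ℕ) : ℤ) + (q * a : ℕ))‖ else 0) := by
        split_ifs
        · exact norm_nonneg _
        · exact le_rfl
      (clear * - h3; linarith)
  rw [expect_div21 Q p hN h] at h1
  have h2 : p * nrm (Aq (Q * q) L (lift21 (N := N) Q f)) ≤ ∑ y ∈ range p, h y := by
    have := mul_le_mul_of_nonneg_left h1 hp0.le
    rwa [mul_div_cancel₀ _ hp0.ne'] at this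
  refine h2.trans ?_
  rw [hh, Finset.sum_add_distrib]
  refine add_le_add (le_of_eq ?_) ?_
  · rw [← Finset.sum_filter]
    refine Finset.sum_congr ?_ fun y _ => rfl
    ext y
    simp only [Finset.mem_filter, Finset.mem_range]
    omega
  · have h3 : ∑ y ∈ range p, (if y + L * q < p then (0 : ℝ) else 1) =
        #((range p).filter fun y => ¬ (y + L * q < p)) := by
      rw [Finset.card_filter]
      push_cast
      refine Finset.sum_congr rfl fun y _ => ?_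
      by_cases hy : y + L * q < p
      · rw [if_pos hy, if_neg (not_not.mpr hy)]
      · rw [if_neg hy, if_pos hy]
    rw [h3]
    have h4 : (range p).filter (fun y => ¬ (y + L * q < p)) ⊆ Ico (p - L * q) p := by
      intro y hy
      simp only [Finset.mem_filter, Finset.mem_range] at hy
      rw [Finset.mem_Ico]
      omega
    have h5 := Finset.card_le_card h4
    rw [Nat.card_Ico] at h5
    have h6 : #((range p).filter fun y => ¬ (y + L * q < p)) ≤ L * q := by omega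
    exact_mod_cast h6

/-- the form on `ZMod (Q p)` and on the integers -/
theorem form_lift21 {N s : ℕ} [NeZero N] (D : ℝ) (Q p Z lam u T : ℕ) (hN : N = Q * p)
    (P : Fin (s + 1) → ℝ) (c : Fin (s + 1) → ℝ) (d : Fin (s + 1) → ℕ) (hQ0 : 0 < Q)
    (ha : ∀ i k, (⟨D, 0, Q, u, T, P⟩ : Sys (s + 1)).a c i k =
      (Q : ℤ) * ((lam * k : ℕ) : ℤ) ^ d i)
    (hZp : 2 * Z < p) (hkZ : ∀ i, ∀ k ∈ Ico u (u + T), (lam * k) ^ d i ≤ Z)
    (f0 : ℤ → ℂ) (f : Fin (s + 1) → ℤ → ℂ)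
    (hsup : ∀ x, (x < 0 ∨ (Z : ℤ) ≤ x) → f0 x = 0 ∧ ∀ i, f i x = 0) :
    form (⟨D, 0, Q, u, T, P⟩ : Sys (s + 1)) c 1 (lift21 (N := N) Q f0)
      (fun i => lift21 (N := N) Q (f i)) =
    (𝔼 k ∈ Ico u (u + T), ∑ x ∈ range Z, f0 x * ∏ i, f i (x + ((lam * k) ^ (d i) : ℕ))) / p := by
  unfold form
  rw [Finset.expect_div]
  refine Finset.expect_congr rfl fun k hk => ?_
  have hk' : k ∈ Ico u (u + T) := hk
  rw [Pi.one_apply, one_mul]
  set g : ℕ → ℂ := fun y => f0 y * ∏ i, f i (y + ((lam * k) ^ (d i) : ℕ)) with hg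
  have h1 : ∀ x : ZMod N, lift21 (N := N) Q f0 x * ∏ i, lift21 (N := N) Q (f i)
      (x + (((⟨D, 0, Q, u, T, P⟩ : Sys (s + 1)).a c i k : ℤ) : ZMod N)) = g (x.val / Q) := by
    intro x
    by_cases hx : x.val / Q < Z
    · simp only [hg]
      unfold lift21
      congr 1
      refine Finset.prod_congr rfl fun i _ => ?_
      have h2 := hkZ i k hk'
      have h3 : (((⟨D, 0, Q, u, T, P⟩ : Sys (s + 1)).a c i k : ℤ) : ZMod N) =
          ((Q * (lam * k) ^ d i : ℕ) : ZMod N) := by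
        rw [ha]
        push_cast
        rfl
      rw [h3, val_div21 Q p hN x _ (by omega)]
      push_cast
      rfl
    · push Not at hx
      have h2 : f0 ((x.val / Q : ℕ) : ℤ) = 0 := (hsup _ (Or.inr (by exact_mod_cast hx))).1
      simp only [hg]
      unfold lift21
      rw [h2, zero_mul, zero_mul]
  rw [Finset.expect_congr rfl fun x _ => h1 x, expect_divC21 Q p hN g]
  congr 1
  symm
  refine Finset.sum_subset (fun y hy => ?_) fun y _ hy => ?_
  · rw [Finset.mem_range] at hy ⊢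
    omega
  · rw [Finset.mem_range, not_lt] at hy
    have h2 : f0 (y : ℤ) = 0 := (hsup _ (Or.inr (by exact_mod_cast hy))).1
    rw [h2, zero_mul]

end

end Pool.Agent.Helper67.NX2

end

section

set_option autoImplicit false

open Finset

namespace Pool.Agent.Helper79.RG

open Pool.Agent.Helper44 Pool.Agent.Helper96.CPAP

/-- sum of the reciprocals of the sieving primes -/
theorem sum_pU_ge (k : ℕ) : ∃ C : ℝ, 0 < C ∧ ∀ b : Fin k → ℕ, Function.Injective b →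
    ∀ w : ℝ, 2 ≤ w →
      Real.log (Real.log w) - C - sigT b ≤ ∑ q ∈ pU (PT b) w, (1 : ℝ) / q := by
  classical
  obtain ⟨C, hC, hM⟩ := sum_primesUpTo_bounds
  refine ⟨C + ∑ q ∈ range (2 * k), (1 : ℝ) / q, ?_, ?_⟩
  · have : 0 ≤ ∑ q ∈ range (2 * k), (1 : ℝ) / q := Finset.sum_nonneg fun q _ => by (clear * -; positivity)
    linarith
  intro b hb w hw
  have hw0 : 0 ≤ w := by linarith
  have h1 := (abs_le.mp (hM w hw)).1
  set Bad : Finset ℕ := (univ : Finset (Fin k × Fin k)).biUnion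
    (fun p => (b p.1 - b p.2).primeFactors) with hBad
  have hsub : primesUpTo w ⊆ pU (PT b) w ∪ (range (2 * k) ∪ Bad) := by
    intro q hq
    rw [mem_primesUpTo hw0] at hq
    rw [Finset.mem_union, Finset.mem_union]
    by_cases h2 : 2 * k ≤ q
    · by_cases h3 : ∀ i j, i ≠ j → ¬ b i ≡ b j [MOD q]
      · left
        rw [mem_pU (fun q h => h.1) hw0]
        exact ⟨⟨hq.1, h2, h3⟩, hq.2⟩
      · right; right
        push Not at h3
        obtain ⟨i, j, hij, hmod⟩ := h3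
        rw [hBad, Finset.mem_biUnion]
        rcases lt_or_gt_of_ne (fun h => hij (hb h) : b i ≠ b j) with h4 | h4
        · refine ⟨(j, i), mem_univ _, ?_⟩
          simp only
          rw [Nat.mem_primeFactors]
          exact ⟨hq.1, (Nat.modEq_iff_dvd' h4.le).mp hmod, by omega⟩
        · refine ⟨(i, j), mem_univ _, ?_⟩
          simp only
          rw [Nat.mem_primeFactors]
          exact ⟨hq.1, (Nat.modEq_iff_dvd' h4.le).mp hmod.symm, by omega⟩
    · right; left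
      rw [Finset.mem_range]
      omega
  have h2 : ∑ q ∈ primesUpTo w, (1 : ℝ) / q ≤
      ∑ q ∈ pU (PT b) w, (1 : ℝ) / q + (∑ q ∈ range (2 * k), (1 : ℝ) / q + ∑ q ∈ Bad, (1 : ℝ) / q) := by
    calc ∑ q ∈ primesUpTo w, (1 : ℝ) / q ≤ ∑ q ∈ pU (PT b) w ∪ (range (2 * k) ∪ Bad), (1 : ℝ) / q :=
          Finset.sum_le_sum_of_subset_of_nonneg hsub (fun q _ _ => by (clear * -; positivity))
      _ ≤ _ := by
          have a1 := Finset.sum_union_inter (s₁ := pU (PT b) w) (s₂ := range (2 * k) ∪ Bad)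
            (f := fun q : ℕ => (1 : ℝ) / q)
          have a2 := Finset.sum_union_inter (s₁ := range (2 * k)) (s₂ := Bad)
            (f := fun q : ℕ => (1 : ℝ) / q)
          have a3 : 0 ≤ ∑ q ∈ pU (PT b) w ∩ (range (2 * k) ∪ Bad), (1 : ℝ) / q :=
            Finset.sum_nonneg fun q _ => by (clear * -; positivity)
          have a4 : 0 ≤ ∑ q ∈ range (2 * k) ∩ Bad, (1 : ℝ) / q :=
            Finset.sum_nonneg fun q _ => by (clear * -; positivity)
          linarith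
  have h3 : ∑ q ∈ Bad, (1 : ℝ) / q ≤ sigT b := by
    have h4 : ∑ q ∈ Bad, (1 : ℝ) / q ≤ ∑ p : Fin k × Fin k, sig (b p.1 - b p.2) := by
      rw [hBad]
      exact sum_biUnion_le' (univ : Finset (Fin k × Fin k))
        (fun p => (b p.1 - b p.2).primeFactors) (fun q : ℕ => (1 : ℝ) / q)
        (fun q => by (clear * -; positivity))
    refine h4.trans ?_
    unfold sigT
    rw [Fintype.sum_prod_type]
  linarith

/-- The sieve product -/
theorem prod_pU_le (k : ℕ) : ∃ C : ℝ, 0 < C ∧ ∀ b : Fin k → ℕ, Function.Injective b →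
    ∀ w : ℝ, 2 ≤ w →
      ∏ q ∈ pU (PT b) w, (1 - (k : ℝ) / q) ≤ C * Real.exp (k * sigT b) / (Real.log w) ^ k := by
  obtain ⟨C, hC, hS⟩ := sum_pU_ge k
  refine ⟨Real.exp (k * C), Real.exp_pos _, ?_⟩
  intro b hb w hw
  have hw0 : 0 ≤ w := by linarith
  have hlw : 0 < Real.log w := Real.log_pos (by (clear * - hw; linarith))
  have h1 := hS b hb w hw
  calc ∏ q ∈ pU (PT b) w, (1 - (k : ℝ) / q) ≤ ∏ q ∈ pU (PT b) w, Real.exp (-((k : ℝ) * (1 / q))) := by
        apply Finset.prod_le_prod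
        · intro q hq
          rw [mem_pU (fun q h => h.1) hw0] at hq
          have hq0 : (0 : ℝ) < q := by exact_mod_cast hq.1.1.pos
          have h3 : (2 : ℝ) * k ≤ q := by exact_mod_cast hq.1.2.1
          rw [sub_nonneg, div_le_one hq0]
          have : (0 : ℝ) ≤ k := Nat.cast_nonneg k
          (clear * - hq0 h3; linarith)
        · intro q _
          have := Real.add_one_le_exp (-((k : ℝ) * (1 / q)))
          rw [mul_one_div] at this ⊢
          linarith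
    _ = Real.exp (-(k * ∑ q ∈ pU (PT b) w, (1 : ℝ) / q)) := by
        rw [← Real.exp_sum, Finset.sum_neg_distrib, Finset.mul_sum]
    _ ≤ Real.exp (-(k * (Real.log (Real.log w) - C - sigT b))) := by
        apply Real.exp_le_exp.mpr
        have : (0 : ℝ) ≤ k := Nat.cast_nonneg k
        have := mul_le_mul_of_nonneg_left h1 this
        linarith
    _ = Real.exp (k * C) * Real.exp (k * sigT b) / (Real.log w) ^ k := by
        have h5 : (Real.log w) ^ k = Real.exp (k * Real.log (Real.log w)) := by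
          rw [Real.exp_nat_mul, Real.exp_log hlw]
        rw [h5, ← Real.exp_add, ← Real.exp_sub]
        congr 1
        ring

end Pool.Agent.Helper79.RG

end

section

set_option autoImplicit false

open Finset

open scoped BigOperators

namespace Pool.Agent.Helper57.NX3

noncomputable section

namespace EnLe

open Pool.Agent.Helper57.FP

/-- the sum of squares of the cell averages -/
theorem sum_cd_sq_le {z M b : ℕ} (hM : 1 ≤ M) (hMb : (M : ℝ) ≤ 2 ^ b) (A : Finset ℕ) :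
    ∑ x ∈ range (2 ^ z), cd (FA z A) M b x ^ 2 ≤
      2 * ((M : ℝ) / 2 ^ b) * Real.log ((2 : ℝ) ^ z) ^ 2 * (PPr A M b).card := by
  classical
  have hM0 : (0 : ℝ) < M := by exact_mod_cast hM
  have h2b : (0 : ℝ) < 2 ^ b := by positivity
  set lz := Real.log ((2 : ℝ) ^ z) with hlz
  have h1 : ∀ x : ℕ, cd (FA z A) M b x ^ 2 = ((M : ℝ) / 2 ^ b) ^ 2 * lz ^ 2 *
      ((A.filter (fun y => y / 2 ^ b = x / 2 ^ b ∧ y ≡ x [MOD M])).card : ℝ) ^ 2 := by
    intro x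
    have h2 : ∑ y ∈ (blo b x).filter (fun y => y ≡ x [MOD M]), FA z A y =
        lz * ((A.filter (fun y => y / 2 ^ b = x / 2 ^ b ∧ y ≡ x [MOD M])).card : ℝ) := by
      unfold FA
      rw [← hlz, ← sum_filter, sum_const, nsmul_eq_mul, mul_comm]
      congr 2
      refine congrArg card ?_
      ext y
      simp only [mem_filter, blo, mem_Ico]
      have e1 : (2 ^ b * (x / 2 ^ b) ≤ y ∧ y < 2 ^ b * (x / 2 ^ b + 1)) ↔
          y / 2 ^ b = x / 2 ^ b := by
        have hp : 0 < 2 ^ b := Nat.pow_pos (by norm_num)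
        rw [Nat.div_eq_iff hp]
        rw [mul_comm, mul_add, mul_one]
        constructor
        · rintro ⟨h1, h2⟩
          exact ⟨h1, by rw [mul_comm] at h2; omega⟩
        · rintro ⟨h1, h2⟩
          exact ⟨h1, by rw [mul_comm]; omega⟩
      rw [e1]
      tauto
    unfold cd
    rw [h2]
    ring
  rw [sum_congr rfl (fun x _ => h1 x), ← mul_sum]
  have h3 := sum_sq_le (b := b) hM (2 ^ z) A
  have h4 : ((2 : ℝ) ^ b / M + 1) ≤ 2 * (2 ^ b / M) := by
    have : 1 ≤ (2 : ℝ) ^ b / M := by rwa [le_div_iff₀ hM0, one_mul]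
    (clear * - this; linarith)
  exact by
    calc ((M : ℝ) / 2 ^ b) ^ 2 * lz ^ 2 * ∑ x ∈ range (2 ^ z),
          ((A.filter (fun y => y / 2 ^ b = x / 2 ^ b ∧ y ≡ x [MOD M])).card : ℝ) ^ 2
        ≤ ((M : ℝ) / 2 ^ b) ^ 2 * lz ^ 2 * (2 * (2 ^ b / M) * (PPr A M b).card) := by
          refine mul_le_mul_of_nonneg_left (h3.trans ?_) (by (clear * - hM; positivity))
          exact mul_le_mul_of_nonneg_right h4 (Nat.cast_nonneg _)
      _ = 2 * ((M : ℝ) / 2 ^ b) * lz ^ 2 * (PPr A M b).card := by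
          field_simp

end EnLe

end

end Pool.Agent.Helper57.NX3

end

section

set_option autoImplicit false

open Finset

open scoped BigOperators

namespace Pool.Agent.Helper57.NX3

noncomputable section

theorem sc87_En_nonneg (z : ℕ) (A : Finset ℕ) (M b : ℕ) : 0 ≤ En z A M b := by
  unfold En
  have : 0 ≤ ∑ x ∈ range (2 ^ z), cd (FA z A) M b x ^ 2 := Finset.sum_nonneg fun _ _ => sq_nonneg _
  positivity

theorem scales_of
    (hen : ∃ C1 : ℝ, 1 ≤ C1 ∧ ∀ M : ℕ, 1 ≤ M → ∀ θ : ℝ, 0 < θ → ∃ z0 : ℕ, ∀ z : ℕ, z0 ≤ z →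
      ∀ A : Finset ℕ, PS z A → ∀ b : ℕ, b ≤ z → ((2 : ℝ) ^ z) ^ θ ≤ 2 ^ b → En z A M b ≤ C1)
    (κ : ℝ) (hκ : 0 < κ) : ∃ J : ℕ, ∀ Θ : ℕ, 2 ≤ Θ → ∀ Ks : ℕ → ℕ, (∀ j, 1 ≤ Ks j) →
    ∃ z0 : ℕ, ∀ z : ℕ, z0 ≤ z → ∀ A : Finset ℕ, PS z A → ∃ j < J,
      En z A (Ks (j + 1)) (z / Θ ^ (j + 2)) + En z A 1 (z / Θ ^ (j + 2)) ≤
        En z A (Ks j) (z / Θ ^ (j + 1)) + En z A 1 (z / Θ ^ (j + 1)) + κ := by
  obtain ⟨C1, hC1, hen⟩ := hen
  refine ⟨⌈2 * C1 / κ⌉₊ + 1, ?_⟩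
  intro Θ hΘ Ks hKs
  obtain ⟨J, hJ⟩ : ∃ J : ℕ, J = ⌈2 * C1 / κ⌉₊ + 1 := ⟨_, rfl⟩
  rw [← hJ]
  have hJκ : 2 * C1 < J * κ := by
    have h1 := Nat.le_ceil (2 * C1 / κ)
    rw [div_le_iff₀ hκ] at h1
    rw [hJ]
    push_cast
    linarith
  have hθ : (0 : ℝ) < 1 / (2 * (Θ : ℝ) ^ (J + 1)) := by
    have : (0 : ℝ) < (Θ : ℝ) := by exact_mod_cast (by omega : 0 < Θ)
    positivity
  choose z1 hz1 using fun j => hen (Ks j) (hKs j) (1 / (2 * (Θ : ℝ) ^ (J + 1))) hθ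
  obtain ⟨z2, hz2⟩ := hen 1 le_rfl (1 / (2 * (Θ : ℝ) ^ (J + 1))) hθ
  refine ⟨z1 J + z2 + 2 * Θ ^ (J + 1), ?_⟩
  intro z hz A hA
  by_contra hcon
  push Not at hcon
  -- the increments
  have hinc : ∀ j, j ≤ J → (j : ℝ) * κ ≤
      En z A (Ks j) (z / Θ ^ (j + 1)) + En z A 1 (z / Θ ^ (j + 1)) := by
    intro j
    induction j with
    | zero =>
      intro _
      have h1 := sc87_En_nonneg z A (Ks 0) (z / Θ ^ (0 + 1))
      have h2 := sc87_En_nonneg z A 1 (z / Θ ^ (0 + 1))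
      simp only [Nat.cast_zero, zero_mul]
      linarith
    | succ j ih =>
      intro hj
      have h1 := ih (by omega)
      have h2 := hcon j (by omega)
      push_cast
      have e1 : j + 1 + 1 = j + 2 := rfl
      rw [e1]
      linarith
  have h1 := hinc J le_rfl
  have hΘz : 2 * Θ ^ (J + 1) ≤ z := by omega
  have hpow := sc87_pow (Θ := Θ) (J := J) (j := J) (z := z) hΘ le_rfl hΘz
  exact by
    have hb : z / Θ ^ (J + 1) ≤ z := Nat.div_le_self _ _
    have h2 := hz1 J z (by omega) A hA _ hb hpow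
    have h3 := hz2 z (by omega) A hA _ hb hpow
    linarith

end

end Pool.Agent.Helper57.NX3

end
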