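import Pool.Agent.Helper23.MC.L00_a0
import Pool.Agent.Helper23.MC.L00_a1
import Pool.Agent.Helper23.MC.L00_a10
import Pool.Agent.Helper23.MC.L00_a11
import Pool.Agent.Helper23.MC.L00_a12
import Pool.Agent.Helper23.MC.L00_a13
import Pool.Agent.Helper23.MC.L00_a2
import Pool.Agent.Helper23.MC.L00_a3
import Pool.Agent.Helper23.MC.L00_a5
import Pool.Agent.Helper23.MC.L00_a6
import Pool.Agent.Helper23.MC.L00_a7
import Pool.Agent.Helper23.MC.L00_a8

/-!
Parts of Helper5.NX.Basic, Helper73.NX2.LpLocalOf, Helper85.NX.Form, Helper64.NX.Blocks, Helper64.NX.LpKey, Helper64.NX.LpBins, Helper55.NX2.AqBasic, Helper84.NX2.BaseOf, Helper7.NX.BaseCells, Helper67.NX.BPhase, Helper67.NX.Conv, Helper87.NX.DlA, Helper88.NX.DlB, Helper41.NX2.TopStep, Helper59.NX2.BaseRatlA, Helper8.NX.BaseLS, Helper28.NX.BaseAux, Helper8.NX2.BaseFin, Helper40.NX2.IGBasic, Helper92.NX2.Bc, Helper82.NX2.Fib, Helper82.NX.GncB, Helper5.NX.PhiBasics, Helper94.NX2.Round,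 Helper30.NX.LinForms, Helper51.NX.Sweep, Helper15.NX2.DaggerOf, Helper61.NX.Four, Helper61.NX.Step, Helper61.NX.One, Helper81.NX2.CharRep, Helper61.NX.DsOfUs, Helper15.NX2.TopArithOf, Helper9.NX2.DlTotalBase, Helper60.NX2.DlB, Helper30.NX.UsOfTop, Helper94.NX2.LowAux, Helper94.NX2.LowStep, Helper45.NX.Round, Helper50.NX2.UsOfTop, Helper45.NX2.DsCore, Helper21.NX2.ZeroArithOf, Helper53.NX2.Cells, Helper46.NX2.PrimesModelOf, Helper87.NX2.LargeSieve, Helper53.NX2.FormReplace, Helper79.RG.Sieve, Helper8.NX3.Averages, Helper23.NX3.Cells, Helper61.NX.PatB, Helper57.NX3.PatBlk, Helper96.NX.Replace, Helper61.NX.Pattern, Helper40.NX3.EnLeOf, Helper85.NX3.GoodSet, Helper57.NX3.PatFinal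
-/

attribute [local instance 5000]
  Pool.Agent.Helper23.MC.Inst.rCharZero Pool.Agent.Helper23.MC.Inst.rALM
  Pool.Agent.Helper23.MC.Inst.rARM Pool.Agent.Helper23.MC.Inst.rALSM
  Pool.Agent.Helper23.MC.Inst.rARSM Pool.Agent.Helper23.MC.Inst.rARRLE
  Pool.Agent.Helper23.MC.Inst.rALRLE Pool.Agent.Helper23.MC.Inst.rARRLT
  Pool.Agent.Helper23.MC.Inst.rALRLT Pool.Agent.Helper23.MC.Inst.rPMRLT
  Pool.Agent.Helper23.MC.Inst.rMPRLT Pool.Agent.Helper23.MC.Inst.rPMM
  Pool.Agent.Helper23.MC.Inst.rMPM Pool.Agent.Helper23.MC.Inst.rPMSM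
  Pool.Agent.Helper23.MC.Inst.rMPSM Pool.Agent.Helper23.MC.Inst.rEAOL
  Pool.Agent.Helper23.MC.Inst.rIOR Pool.Agent.Helper23.MC.Inst.rISOR
  Pool.Agent.Helper23.MC.Inst.rNZD Pool.Agent.Helper23.MC.Inst.rcCharZero
  Pool.Agent.Helper23.MC.Inst.rcNZD Pool.Agent.Helper23.MC.Inst.zCharZero
  Pool.Agent.Helper23.MC.Inst.zALM Pool.Agent.Helper23.MC.Inst.zARM
  Pool.Agent.Helper23.MC.Inst.zALSM Pool.Agent.Helper23.MC.Inst.zARSM
  Pool.Agent.Helper23.MC.Inst.zIOR Pool.Agent.Helper23.MC.Inst.zISOR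
  Pool.Agent.Helper23.MC.Inst.zNZD Pool.Agent.Helper23.MC.Inst.qCharZero
  Pool.Agent.Helper23.MC.Inst.mR Pool.Agent.Helper23.MC.Inst.mC Pool.Agent.Helper23.MC.Inst.mRC
  Pool.Agent.Helper23.MC.Inst.rPSM Pool.Agent.Helper23.MC.Inst.rCSM
  Pool.Agent.Helper23.MC.Inst.cAdd Pool.Agent.Helper23.MC.Inst.cAddM
  Pool.Agent.Helper23.MC.Inst.cMul Pool.Agent.Helper23.MC.Inst.cMon

namespace Pool.Agent.Helper44
end Pool.Agent.Helper44
namespace Pool.Agent.Helper57.FP
end Pool.Agent.Helper57.FP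
namespace Pool.Agent.Helper57.NX
end Pool.Agent.Helper57.NX
namespace Pool.Agent.Helper57.NX.US10
end Pool.Agent.Helper57.NX.US10
namespace Pool.Agent.Helper96.CPAP
end Pool.Agent.Helper96.CPAP

section

set_option autoImplicit false

open Finset

open scoped BigOperators ComplexConjugate

namespace Pool.Agent.Helper57.NX

noncomputable section

section Basic

variable {N : ℕ} [NeZero N]

omit [NeZero N] in
theorem norm_A_le_of5 {f : ZMod N → ℂ} {M : ℝ} (hM : 0 ≤ M) (hf : ∀ x, ‖f x‖ ≤ M) (L : ℕ)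
    (x : ZMod N) : ‖A L f x‖ ≤ M :=
  norm_expect_le_of5 _ _ hM fun _ _ => hf _

theorem A_sub (L : ℕ) (f g : ZMod N → ℂ) :
    A L (fun x => f x - g x) = fun x => A L f x - A L g x := by
  funext x
  exact expect_sub_distrib _ _ _

omit [NeZero N] in
theorem Ab_step5 (L : ℕ) (f : ZMod N → ℂ) (x : ZMod N) :
    Ab L f (x + 1) - Ab L f x = (f (x + 1) - f (x + 1 - (L : ZMod N))) / L := by
  unfold Ab
  rw [← expect_sub_distrib, expect_eq_sum_div_card, card_range]
  congr 1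
  have h := Finset.sum_range_sub' (fun a : ℕ => f (x + 1 - (a : ZMod N))) L
  simp only [Nat.cast_zero, sub_zero] at h
  rw [← h]
  refine sum_congr rfl fun a _ => ?_
  push_cast
  congr 2
  ring

omit [NeZero N] in
theorem norm_Ab_step5 {f : ZMod N → ℂ} {M : ℝ} (hf : ∀ x, ‖f x‖ ≤ M) (L : ℕ) (x : ZMod N) :
    ‖Ab L f (x + 1) - Ab L f x‖ ≤ 2 * M / L := by
  rw [Ab_step5, norm_div, Complex.norm_natCast]
  refine div_le_div_of_nonneg_right ?_ (Nat.cast_nonneg _)
  refine (norm_sub_le _ _).trans ?_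
  have h1 := hf (x + 1)
  have h2 := hf (x + 1 - (L : ZMod N))
  linarith

theorem Ab_lipschitz {f : ZMod N → ℂ} (hf : ∀ x, ‖f x‖ ≤ 1) (L : ℕ) (hL : 1 ≤ L) (x : ZMod N)
    (t : ℤ) : ‖Ab L f (x + (t : ZMod N)) - Ab L f x‖ ≤ 2 * |(t : ℝ)| / L := by
  refine (norm_shift_int5 (norm_Ab_step5 hf L) x t).trans (le_of_eq ?_)
  ring

/-- the long average of `f - A L' f` is small -/
theorem A_small {f : ZMod N → ℂ} (hf : ∀ x, ‖f x‖ ≤ 1) (L L' : ℕ) (hL : 1 ≤ L) (hL' : 1 ≤ L')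
    (x : ZMod N) : ‖A L (fun y => f y - A L' f y) x‖ ≤ 2 * L' / L := by
  rw [A_sub, A_comm, norm_sub_rev]
  exact A_A_sub hf L' L hL' hL x

omit [NeZero N] in
theorem tv_of_step5 {g : ZMod N → ℂ} {M : ℝ} {L : ℕ} (hM : 0 ≤ M)
    (hg : ∀ x, ‖g (x + 1) - g x‖ ≤ 2 * M / L) : TV (2 * M) L g := by
  intro x l
  refine (sum_le_card_nsmul _ _ (2 * M / L) fun j _ => hg _).trans ?_
  rw [card_range, nsmul_eq_mul]
  have : 2 * M * ((l : ℝ) / L + 1) = l * (2 * M / L) + 2 * M := by ring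
  rw [this]
  (clear * - hM; linarith)

/-- averages are smooth; no variation hypothesis on `f` -/
theorem tv_A {f : ZMod N → ℂ} {M : ℝ} (hf : ∀ x, ‖f x‖ ≤ M) (L : ℕ) (hL : 1 ≤ L) :
    TV (2 * M) L (A L f) :=
  tv_of_step5 ((norm_nonneg _).trans (hf 0)) (norm_A_step5 hf L)

omit [NeZero N] in
theorem TV.cnj5 {B X : ℝ} {f : ZMod N → ℂ} (h : TV B X f) : TV B X (fun x => conj (f x)) := by
  intro x l
  refine le_trans (le_of_eq ?_) (h x l)
  refine sum_congr rfl fun j _ => ?_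
  rw [← map_sub, Complex.norm_conj]

theorem Adm.cnj {B X : ℝ} {f : ZMod N → ℂ} (h : Adm B X f) : Adm B X (fun x => conj (f x)) :=
  ⟨fun x => by rw [Complex.norm_conj]; exact h.bdd x, h.tv.cnj5⟩

end Basic

end

end Pool.Agent.Helper57.NX

end

section

set_option autoImplicit false

open Finset

open scoped BigOperators ComplexConjugate

namespace Pool.Agent.Helper67.NX2

open Pool.Agent.Helper57.NX

noncomputable section

/-- The statement of `ratl` (module A5). -/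
def RatlC : Prop :=
    ∀ {m : ℕ} (c : Fin m → ℝ) (_ : StrictMono c) (_ : ∀ i, 0 < c i)
    (a ε : ℝ) (_ : 0 < ε),
    ∃ x0 : ℝ, 0 < x0 ∧ ∃ C : ℕ, ∃ σ : ℝ, 0 < σ ∧ ∃ D0 : ℝ, ∀ D : ℝ, D0 ≤ D →
    ∀ ρ : ℝ, 0 ≤ ρ → ρ ≤ 1 → ∀ lam : ℕ, 1 ≤ lam → (∃ r : ℕ, ρ * lam = r) →
    ∀ δ : ℝ, D ^ (-σ) ≤ δ → δ ≤ 1 / 2 → (lam : ℝ) ≤ δ⁻¹ →
    ∀ v : Fin m → ℝ, (∀ i, |v i| ≤ D ^ a) →
    ∀ q k K : ℕ, 1 ≤ q → (q : ℝ) ≤ δ⁻¹ → D ≤ k → (k : ℝ) ≤ 3 * D → D ^ (1 - x0) ≤ K →
    (q : ℝ) * K ≤ D →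
    δ ≤ ‖𝔼 j ∈ range K, e (∑ i, v i * ((((k + q * j : ℕ) : ℝ) + ρ) / D) ^ (c i))‖ →
    (∀ i, ¬ IsN (c i) → |v i| ≤ D ^ ε) ∧
    ∃ q' : ℕ, 1 ≤ q' ∧ (q' : ℝ) ≤ δ⁻¹ ^ C ∧ ∀ (i : Fin m) (d : ℕ), c i = d →
      dint (q' * (v i / (lam * D) ^ d)) ≤ D ^ (ε - d)

end

end Pool.Agent.Helper67.NX2

end

section

set_option autoImplicit false

open Finset

open scoped BigOperators ComplexConjugate

namespace Pool.Agent.Helper57.NX

noncomputable section

section Form

variable {m N : ℕ} [NeZero N]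

theorem norm_form_le_one (S : Sys m) (c : Fin m → ℝ) (h : ℕ → ℂ) (hh : ∀ k, ‖h k‖ ≤ 1)
    (f0 : ZMod N → ℂ) (hf0 : ∀ x, ‖f0 x‖ ≤ 1)
    (f : Fin m → ZMod N → ℂ) (hf : ∀ j x, ‖f j x‖ ≤ 1) : ‖form S c h f0 f‖ ≤ 1 := by
  unfold form
  refine (RCLike.norm_expect_le (K := ℂ)).trans (expect_le_of_nonneg _ _ _ zero_le_one fun k _ => ?_)
  rw [norm_mul]
  refine (mul_le_of_le_one_left (norm_nonneg _) (hh k)).trans ?_
  refine (RCLike.norm_expect_le (K := ℂ)).trans (expect_le_of_nonneg _ _ _ zero_le_one fun x _ => ?_)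
  rw [norm_mul]
  refine mul_le_one₀ (hf0 x) (norm_nonneg _) ?_
  exact norm_prod_le _ _ (fun j _ => hf j) _

/-- Cauchy–Schwarz in `k`: removing the weights -/
theorem form_cs (S : Sys m) (c : Fin m → ℝ) (h : ℕ → ℂ) (hh : ∀ k, ‖h k‖ ≤ 1)
    (f0 : ZMod N → ℂ) (f : Fin m → ZMod N → ℂ) :
    ‖form S c h f0 f‖ ^ 2 ≤ (𝔼 y : ZMod N, form S c 1 (fun x => f0 x * conj (f0 (x + y)))
      (fun i x => f i x * conj (f i (x + y)))).re := by
  set F : ℕ → ZMod N → ℂ := fun k x => f0 x * ∏ i, f i (x + (S.a c i k : ZMod N)) with hF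
  have e1 : (𝔼 y : ZMod N, form S c 1 (fun x => f0 x * conj (f0 (x + y)))
      (fun i x => f i x * conj (f i (x + y)))) =
      ((𝔼 k ∈ S.I, ‖𝔼 x, F k x‖ ^ 2 : ℝ) : ℂ) := by
    have e2 : ∀ y : ZMod N, form S c 1 (fun x => f0 x * conj (f0 (x + y)))
        (fun i x => f i x * conj (f i (x + y))) =
        𝔼 k ∈ S.I, 𝔼 x : ZMod N, F k x * conj (F k (x + y)) := by
      intro y
      unfold form
      refine Finset.expect_congr rfl fun k _ => ?_
      rw [Pi.one_apply, one_mul]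
      refine Finset.expect_congr rfl fun x _ => ?_
      simp only [hF]
      rw [Finset.prod_mul_distrib, map_mul, map_prod]
      have : ∀ i : Fin m, x + (S.a c i k : ZMod N) + y = x + y + (S.a c i k : ZMod N) :=
        fun i => by ring
      simp_rw [this]
      ring
    simp_rw [e2]
    rw [Finset.expect_comm]
    push_cast
    refine Finset.expect_congr rfl fun k _ => ?_
    rw [Finset.expect_comm]
    have e3 : ∀ x : ZMod N, (𝔼 y : ZMod N, F k x * conj (F k (x + y))) =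
        F k x * conj (𝔼 y, F k y) := by
      intro x
      rw [← Finset.mul_expect, conj_exp]
      congr 1
      have := exp_shift (fun y => conj (F k y)) x
      simp_rw [add_comm x]
      exact this
    simp_rw [e3]
    rw [← Finset.expect_mul, Complex.mul_conj, Complex.normSq_eq_norm_sq]
    push_cast
    rfl
  rw [e1, Complex.ofReal_re]
  have e4 : ‖form S c h f0 f‖ ≤ 𝔼 k ∈ S.I, 1 * ‖𝔼 x, F k x‖ := by
    unfold form
    refine (RCLike.norm_expect_le (K := ℂ)).trans (Finset.expect_le_expect fun k _ => ?_)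
    rw [norm_mul]
    exact mul_le_mul_of_nonneg_right (hh k) (norm_nonneg _)
  refine (pow_le_pow_left₀ (norm_nonneg _) e4 2).trans ?_
  refine (Finset.expect_mul_sq_le_sq_mul_sq S.I (fun _ => (1 : ℝ)) fun k => ‖𝔼 x, F k x‖).trans ?_
  refine mul_le_of_le_one_left (Finset.expect_nonneg fun k _ => by positivity) ?_
  exact expect_le_of_nonneg _ _ _ zero_le_one fun k _ => by norm_num

end Form

end

end Pool.Agent.Helper57.NX

end

section

set_option autoImplicit false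

open Finset

open scoped BigOperators ComplexConjugate

namespace Pool.Agent.Helper57.NX

noncomputable section

section Blocks64

variable {N : ℕ} [NeZero N]

open Classical in
lemma expect_chg64 {X : ℕ} (hX : 1 ≤ X) (hXN : X ≤ N) (r : ZMod N) :
    𝔼 z : ZMod N, (if chg64 X r z then (1 : ℝ) else 0) ≤ 2 / X := by
  have hX0 : (0 : ℝ) < X := by exact_mod_cast hX
  have h1 : 𝔼 j ∈ range X, 𝔼 z : ZMod N, (if chg64 X r (z + (j : ZMod N)) then (1 : ℝ) else 0) =
      𝔼 z : ZMod N, (if chg64 X r z then (1 : ℝ) else 0) := by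
    rw [expect_congr rfl fun (j : ℕ) _ => expect_shift
      (fun z => if chg64 X r z then (1 : ℝ) else 0) (j : ZMod N)]
    exact expect_const (nonempty_range_iff.2 (by omega)) _
  rw [← h1, expect_comm]
  refine expect_le_of5 _ _ (by (clear * - hX; positivity)) fun z _ => ?_
  rw [expect_eq_sum_div_card, card_range, ← sum_filter, sum_const, nsmul_eq_mul, mul_one]
  refine div_le_div_of_nonneg_right ?_ hX0.le
  exact_mod_cast chg_count64 hX hXN r z

open Classical in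
/-- few points are close to the end of a block -/
lemma expect_exc64 {X : ℕ} (hX : 1 ≤ X) (hXN : X ≤ N) (r : ZMod N) (Y : ℕ) :
    𝔼 z : ZMod N, (if ∃ t < Y, chg64 X r (z + (t : ZMod N)) then (1 : ℝ) else 0) ≤ Y * (2 / X) := by
  have h1 : 𝔼 z : ZMod N, (if ∃ t < Y, chg64 X r (z + (t : ZMod N)) then (1 : ℝ) else 0) ≤
      𝔼 z : ZMod N, ∑ t ∈ range Y, (if chg64 X r (z + (t : ZMod N)) then (1 : ℝ) else 0) := by
    refine expect_le_expect fun z _ => ?_
    split_ifs with h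
    · obtain ⟨t, ht, h⟩ := h
      refine le_trans ?_ (single_le_sum (f := fun t : ℕ =>
        (if chg64 X r (z + (t : ZMod N)) then (1 : ℝ) else 0)) (fun t _ => ?_) (mem_range.2 ht))
      · simp only [if_pos h, le_refl]
      · split_ifs <;> norm_num
    · exact sum_nonneg fun t _ => by split_ifs <;> norm_num
  refine h1.trans ?_
  rw [expect_sum_comm]
  have h2 := sum_le_card_nsmul (range Y) (fun t : ℕ =>
    𝔼 z : ZMod N, (if chg64 X r (z + (t : ZMod N)) then (1 : ℝ) else 0)) (2 / X) fun t _ => by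
      rw [expect_shift (fun z => if chg64 X r z then (1 : ℝ) else 0) (t : ZMod N)]
      exact expect_chg64 hX hXN r
  rwa [card_range, nsmul_eq_mul] at h2

end Blocks64

end

end Pool.Agent.Helper57.NX

end

section

set_option autoImplicit false

open Finset

open scoped BigOperators ComplexConjugate

namespace Pool.Agent.Helper57.NX

noncomputable section

section Form64

variable {m N : ℕ} [NeZero N]

/-- the coefficients of the differenced block phase -/
def gcoef64 (cc : ℕ → ℂ) (φ : ℕ → ℝ) (y y' : ℕ) (j : ℕ) : ℂ :=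
  ((‖cc j‖ ^ 2 : ℝ) : ℂ) * e (φ j * ((y : ℝ) - y'))

/-- the differenced block phase -/
def Gf64 (X : ℕ) (r : ZMod N) (cc : ℕ → ℂ) (φ : ℕ → ℝ) (y y' : ℕ) (z : ZMod N) : ℂ :=
  gcoef64 cc φ y y' ((z - r).val / X)

lemma norm_gcoef64 {cc : ℕ → ℂ} (hcc : ∀ j, ‖cc j‖ ≤ 1) (φ : ℕ → ℝ) (y y' j : ℕ) :
    ‖gcoef64 cc φ y y' j‖ ≤ 1 := by
  unfold gcoef64
  rw [norm_mul, norm_e, mul_one, Complex.norm_real, Real.norm_eq_abs, abs_of_nonneg (by (clear * -; positivity))]
  have := hcc j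
  have := norm_nonneg (cc j)
  nlinarith

omit [NeZero N] in
lemma bphase_bdd64 {X : ℕ} {r : ZMod N} {cc : ℕ → ℂ} (hcc : ∀ j, ‖cc j‖ ≤ 1) (φ : ℕ → ℝ)
    (x : ZMod N) : ‖bphase X r cc φ x‖ ≤ 1 := by
  unfold bphase
  rw [norm_mul, norm_e, mul_one]
  exact hcc _

end Form64

end

end Pool.Agent.Helper57.NX

end

section

set_option autoImplicit false

open Finset

open scoped BigOperators ComplexConjugate

namespace Pool.Agent.Helper57.NX

noncomputable section

section Bins64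

variable (cc : ℕ → ℂ) (φ : ℕ → ℝ) (w0 η : ℝ) (q0 : ℕ)

section Rest

variable {N : ℕ} [NeZero N]

/-- The unpopular part has few pairs of close frequencies. -/
theorem rest64 {X L : ℕ} (hX : 1 ≤ X) (hq : 1 ≤ q0) (hη : 0 ≤ η) (hw0 : 0 < w0)
    (hL : L = X * q0) (hLN : L ≤ N) (r : ZMod N) :
    𝔼 z : ZMod N, 𝔼 w ∈ range L, 𝔼 w' ∈ range L,
        ind64 X r (ccr64 cc φ w0 η q0) φ w0 (z + (w : ZMod N)) (z + (w' : ZMod N)) ≤ 9 * η := by
  classical
  have hL1 : 1 ≤ L := by rw [hL]; exact Nat.mul_pos hX hq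
  have hL0 : (0 : ℝ) < L := by exact_mod_cast hL1
  refine expect_le_of5 _ _ (by positivity) fun z _ => ?_
  refine expect_le_of5 _ _ (by (clear * - hη; positivity)) fun w _ => ?_
  exact by
    set j := (z + (w : ZMod N) - r).val / X with hj
    set T : Finset (ℕ × ℤ) := ({(z - r).val / L, (z - r).val / L + 1, 0} : Finset ℕ) ×ˢ
      ({bin64 φ w0 j - 1, bin64 φ w0 j, bin64 φ w0 j + 1} : Finset ℤ) with hT
    have hTc : #T ≤ 9 := by
      rw [hT, card_product]
      exact (Nat.mul_le_mul card_le_three card_le_three).trans (by norm_num)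
    let sab : ℕ × ℤ → Finset ℕ := fun ab =>
      (range L).filter fun w : ℕ => (z + (w : ZMod N) - r).val / X / q0 = ab.1 ∧
        bin64 φ w0 ((z + (w : ZMod N) - r).val / X) = ab.2 ∧
        ccr64 cc φ w0 η q0 ((z + (w : ZMod N) - r).val / X) ≠ 0
    have h1 : ∀ w' ∈ range L,
        ind64 X r (ccr64 cc φ w0 η q0) φ w0 (z + (w : ZMod N)) (z + (w' : ZMod N)) ≤
          if w' ∈ T.biUnion sab then (1 : ℝ) else 0 := by
      intro w' hw'
      unfold ind64
      by_cases hc : ccr64 cc φ w0 η q0 ((z + (w : ZMod N) - r).val / X) ≠ 0 ∧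
          ccr64 cc φ w0 η q0 ((z + (w' : ZMod N) - r).val / X) ≠ 0 ∧
          |φ ((z + (w : ZMod N) - r).val / X) - φ ((z + (w' : ZMod N) - r).val / X)| ≤ w0
      · rw [if_pos hc, if_pos]
        rw [mem_biUnion]
        refine ⟨((z + (w' : ZMod N) - r).val / X / q0, bin64 φ w0 ((z + (w' : ZMod N) - r).val / X)),
          ?_, ?_⟩
        · rw [hT, mem_product]
          exact ⟨cell_of_point64 q0 hL hL1 hLN r z (mem_range.1 hw'), bin_near64 hw0 hc.2.2⟩
        · rw [mem_filter]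
          exact ⟨hw', rfl, rfl, hc.2.1⟩
      · rw [if_neg hc]
        split_ifs <;> norm_num
    exact by
      refine (expect_le_expect h1).trans ?_
      rw [expect_eq_sum_div_card, card_range, div_le_iff₀ hL0, ← sum_filter, sum_const, nsmul_eq_mul,
        mul_one]
      have h2 : #((range L).filter fun w' => w' ∈ T.biUnion sab) ≤ ∑ ab ∈ T, #(sab ab) :=
        (card_le_card fun w' hw' => (mem_filter.1 hw').2).trans card_biUnion_le
      have h3 : ((∑ ab ∈ T, #(sab ab) : ℕ) : ℝ) ≤ ∑ ab ∈ T, η * q0 * X := by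
        push_cast
        exact sum_le_sum fun ab _ => bin_count64 cc φ w0 η q0 hX hq hη hLN r z ab.1 ab.2
      rw [sum_const, nsmul_eq_mul] at h3
      have h4 : ((#T : ℕ) : ℝ) ≤ 9 := by exact_mod_cast hTc
      have h5 : (0 : ℝ) ≤ η * q0 * X := by (clear * - hη hq hX; positivity)
      have h6 : ((#((range L).filter fun w' => w' ∈ T.biUnion sab) : ℕ) : ℝ) ≤
          ((∑ ab ∈ T, #(sab ab) : ℕ) : ℝ) := by exact_mod_cast h2
      have h7 : (L : ℝ) = X * q0 := by rw [hL]; push_cast; ring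
      rw [h7]
      (clear * - h3 h6 h4 h5; nlinarith [mul_le_mul_of_nonneg_right h4 h5])

end Rest

end Bins64

end

end Pool.Agent.Helper57.NX

end

section

set_option autoImplicit false

open Finset

open scoped BigOperators ComplexConjugate

namespace Pool.Agent.Helper67.NX2

open Pool.Agent.Helper57.NX

noncomputable section

section AqBasic

variable {N : ℕ} [NeZero N]

omit [NeZero N] in
theorem Aq_one (L : ℕ) (f : ZMod N → ℂ) : Aq 1 L f = A L f := by
  funext x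
  unfold Aq A
  refine expect_congr rfl fun a _ => ?_
  rw [one_mul]

end AqBasic

end

end Pool.Agent.Helper67.NX2

end

section

set_option autoImplicit false

open Finset

open scoped BigOperators ComplexConjugate

namespace Pool.Agent.Helper67.NX2

open Pool.Agent.Helper57.NX

noncomputable section

/-- the statement of `IG.mono` -/
def A16Mono (m : ℕ) (c : Fin (m + 1) → ℝ) : Prop :=
  ∀ {S : Sys (m + 1)} {N : ℕ} {x x' : ℝ} {lam : ℕ},
    IG S c N x lam → x ≤ x' → 1 ≤ S.D → IG S c N x' lam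

end

end Pool.Agent.Helper67.NX2

end

section

set_option autoImplicit false

open Finset

open scoped BigOperators ComplexConjugate

namespace Pool.Agent.Helper57.NX

noncomputable section

/-- Variation along natural numbers. -/
theorem tv_nat7 {N : ℕ} {B X : ℝ} {f : ZMod N → ℂ} (h : TV B X f) (r : ZMod N) (a l : ℕ) :
    ∑ j ∈ range l, ‖f (r + ((a + j + 1 : ℕ) : ZMod N)) - f (r + ((a + j : ℕ) : ZMod N))‖ ≤
      B * (l / X + 1) := by
  refine le_trans (le_of_eq ?_) (h (r + (a : ZMod N)) l)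
  refine sum_congr rfl fun j _ => ?_
  congr 3 <;> push_cast <;> ring

/-- The local average at `r`. -/
def loc7 {m N : ℕ} (S : Sys (m + 1)) (c : Fin (m + 1) → ℝ) (f0 : ZMod N → ℂ)
    (f : Fin (m + 1) → ZMod N → ℂ) (R : ℕ) (r : ZMod N) : ℂ :=
  𝔼 k ∈ S.I, f (Fin.last m) (r + (S.a c (Fin.last m) k : ZMod N)) *
    𝔼 t ∈ range R, f0 (r + (t : ZMod N)) *
      ∏ i : Fin m, f i.castSucc (r + (t : ZMod N) + (S.a c i.castSucc k : ZMod N))

end

end Pool.Agent.Helper57.NX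

end

section

set_option autoImplicit false

open Finset

open scoped BigOperators ComplexConjugate

namespace Pool.Agent.Helper57.NX

noncomputable section

theorem Good.mono67 {m : ℕ} {S : Sys m} {c : Fin m → ℝ} {N : ℕ} {x x' : ℝ}
    (h : Good S c N x) (hD : 1 ≤ S.D) (hx : x ≤ x') : Good S c N x' where
  ρ0 := h.ρ0
  ρ1 := h.ρ1
  Q1 := h.Q1
  Q2 := h.Q2
  P1 := fun i => le_trans (mul_le_mul_of_nonneg_left
    (Real.rpow_le_rpow_of_exponent_le hD (by linarith)) (Nat.cast_nonneg _)) (h.P1 i)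
  P2 := fun i => le_trans (h.P2 i) (mul_le_mul_of_nonneg_left
    (Real.rpow_le_rpow_of_exponent_le hD (by linarith)) (Nat.cast_nonneg _))
  N1 := fun i => le_trans (h.N1 i) (mul_le_mul_of_nonneg_left
    (Real.rpow_le_rpow_of_exponent_le hD (by linarith)) (Nat.cast_nonneg _))
  N2 := h.N2
  u1 := h.u1
  u2 := h.u2
  T1 := le_trans (Real.rpow_le_rpow_of_exponent_le hD (by linarith)) h.T1

section BP

variable {N : ℕ} [NeZero N]

/-- translates of block phases are block phases -/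
theorem bphase_shift67 (X : ℕ) (r : ZMod N) (cc : ℕ → ℂ) (φ : ℕ → ℝ) (x y : ZMod N) :
    bphase X r cc φ (x + y) = bphase X (r - y) cc φ x := by
  unfold bphase
  have : x + y - r = x - (r - y) := by ring
  rw [this]

/-- splitting a block phase by the size of its frequencies -/
theorem bphase_split67 (X : ℕ) (r : ZMod N) (cc : ℕ → ℂ) (φ : ℕ → ℝ) (p : ℕ → Prop)
    [DecidablePred p] (x : ZMod N) :
    bphase X r cc φ x = bphase X r (fun j => if p j then cc j else 0) φ x +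
      bphase X r (fun j => if p j then 0 else cc j) φ x := by
  unfold bphase
  by_cases h : p ((x - r).val / X) <;> simp [h]

end BP

end

end Pool.Agent.Helper57.NX

end

section

set_option autoImplicit false

open Finset

open scoped BigOperators ComplexConjugate

namespace Pool.Agent.Helper57.NX

noncomputable section

section Conv

variable {N : ℕ} [NeZero N]

lemma cv_avg {ι : Type} (s : Finset ι) (t : ι → ZMod N) :
    Cv67 1 (fun (f : ZMod N → ℂ) x => 𝔼 a ∈ s, f (x + t a)) := by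
  classical
  refine ⟨fun y => 𝔼 a ∈ s, if t a = y then 1 else 0, ?_, fun f x => ?_⟩
  · have h1 : ∀ y : ZMod N, ‖𝔼 a ∈ s, (if t a = y then (1 : ℂ) else 0)‖ ≤
        𝔼 a ∈ s, (if t a = y then (1 : ℝ) else 0) := by
      intro y
      refine (norm_expect_le5 s _).trans (le_of_eq (expect_congr rfl fun a _ => ?_))
      split_ifs <;> simp
    refine (sum_le_sum fun y _ => h1 y).trans ?_
    rw [← expect_sum_comm]
    refine expect_le_of5 _ _ zero_le_one fun a _ => ?_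
    simp
  · rw [show ∑ y, (𝔼 a ∈ s, if t a = y then (1 : ℂ) else 0) * f (x + y) =
      ∑ y, 𝔼 a ∈ s, (if t a = y then (1 : ℂ) else 0) * f (x + y) from
      sum_congr rfl fun y _ => by rw [expect_mul]]
    rw [← expect_sum_comm]
    refine expect_congr rfl fun a _ => ?_
    simp

theorem cv_A67 (L : ℕ) : Cv67 1 (A (N := N) L) :=
  cv_avg (range L) fun a => (a : ZMod N)

theorem cv_Ab67 (L : ℕ) : Cv67 1 (Ab (N := N) L) := by
  obtain ⟨κ, h1, h2⟩ := cv_avg (N := N) (range L) fun a => -(a : ZMod N)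
  refine ⟨κ, h1, fun f x => ?_⟩
  rw [← h2 f x]
  unfold Ab
  simp only [sub_eq_add_neg]

omit [NeZero N] in
lemma Ab_conj (L : ℕ) (f : ZMod N → ℂ) (x : ZMod N) :
    Ab L (fun y => conj (f y)) x = conj (Ab L f x) := by
  unfold Ab
  rw [Finset.expect_eq_sum_div_card, Finset.expect_eq_sum_div_card, map_div₀, map_sum,
    Complex.conj_natCast]

omit [NeZero N] in
lemma A_smul (L : ℕ) (z : ℂ) (f : ZMod N → ℂ) (x : ZMod N) :
    A L (fun y => z * f y) x = z * A L f x := by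
  unfold A
  rw [mul_expect]

end Conv

end

end Pool.Agent.Helper57.NX

end

section

set_option autoImplicit false

open Finset

open scoped BigOperators ComplexConjugate

namespace Pool.Agent.Helper57.NX

noncomputable section

section dla_basic

variable {N : ℕ} [NeZero N]

/-- correlation with a block phase -/
theorem dla_block_corr (X : ℕ) (hX : 1 ≤ X) (hXN : X ≤ N) (r : ZMod N) (v : ZMod N → ℂ)
    (c : ℕ → ℂ) (θ : ℕ → ℝ) (hc : ∀ j, N / X ≤ j → c j = 0) :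
    𝔼 x, v x * bphase X r c (fun j => -θ j) x =
      (((X : ℝ) * ((N / X : ℕ) : ℝ) / N : ℝ) : ℂ) * 𝔼 j ∈ range (N / X),
        (c j * e (-(θ j * ((j * X : ℕ) : ℝ)))) *
          𝔼 t ∈ range X, v (r + ((j * X + t : ℕ) : ZMod N)) * e (-(θ j * t)) := by
  have hN : (N : ℂ) ≠ 0 := by exact_mod_cast NeZero.ne N
  have hX0 : (X : ℂ) ≠ 0 := by
    have : X ≠ 0 := by omega
    exact_mod_cast this
  have hJ0 : ((N / X : ℕ) : ℂ) ≠ 0 := by
    have : 0 < N / X := Nat.div_pos hXN hX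
    exact_mod_cast this.ne'
  rw [Fintype.expect_eq_sum_div_card, ZMod.card, expect_eq_sum_div_card, card_range]
  have h1 : ∑ x : ZMod N, v x * bphase X r c (fun j => -θ j) x =
      ∑ j ∈ range (N / X), ∑ t ∈ range X, (c j * e (-(θ j * ((j * X : ℕ) : ℝ)))) *
        (v (r + ((j * X + t : ℕ) : ZMod N)) * e (-(θ j * t))) := by
    rw [dla_sum_blocks X hX r (fun x => v x * bphase X r c (fun j => -θ j) x)]
    · refine sum_congr rfl (fun j hj => sum_congr rfl (fun t ht => ?_))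
      have hlt : j * X + t < N := by
        have h2 : (j + 1) * X ≤ N :=
          (Nat.mul_le_mul_right X (mem_range.1 hj)).trans (Nat.div_mul_le_self N X)
        have h3 := mem_range.1 ht
        calc j * X + t < j * X + X := by omega
          _ = (j + 1) * X := by ring
          _ ≤ N := h2
      unfold bphase
      rw [dla_val hlt, dla_blk hX j t (mem_range.1 ht)]
      have : e (-θ j * ((j * X + t : ℕ) : ℝ)) =
          e (-(θ j * ((j * X : ℕ) : ℝ))) * e (-(θ j * t)) := by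
        rw [← e_add]
        congr 1
        push_cast
        ring
      rw [this]
      ring
    · intro w hw hwX
      unfold bphase
      rw [dla_val hw, hc _ hwX]
      ring
  rw [h1]
  have h2 : ∀ j ∈ range (N / X), (c j * e (-(θ j * ((j * X : ℕ) : ℝ)))) *
      𝔼 t ∈ range X, v (r + ((j * X + t : ℕ) : ZMod N)) * e (-(θ j * t)) =
      (∑ t ∈ range X, (c j * e (-(θ j * ((j * X : ℕ) : ℝ)))) *
        (v (r + ((j * X + t : ℕ) : ZMod N)) * e (-(θ j * t)))) / X := by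
    intro j _
    rw [expect_eq_sum_div_card, card_range, ← mul_sum]
    ring
  rw [sum_congr rfl h2, ← sum_div]
  generalize (∑ j ∈ range (N / X), ∑ t ∈ range X, c j * e (-(θ j * ((j * X : ℕ) : ℝ))) *
        (v (r + ((j * X + t : ℕ) : ZMod N)) * e (-(θ j * t)))) = T
  push_cast
  (clear * - hX0 hJ0 hN; field_simp)

end dla_basic

section dla_cube

variable {N : ℕ} {k : ℕ}

theorem dla_cjj_ne_zero (ω : Fin k → Bool) (z : ℂ) (h : cjj ω z ≠ 0) : z ≠ 0 := by
  intro hz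
  apply h
  rw [hz]
  unfold cjj
  split_ifs <;> simp

end dla_cube

end

end Pool.Agent.Helper57.NX

end

section

set_option autoImplicit false

set_option linter.unusedSectionVars false

set_option linter.unusedVariables false

open Finset

open scoped BigOperators ComplexConjugate

namespace Pool.Agent.Helper57.NX

noncomputable section

section point

variable {N : ℕ} [NeZero N]

theorem db_norm_sq {ι : Type} (s : Finset ι) (f : ι → ℂ) :
    ‖𝔼 i ∈ s, f i‖ ^ 2 = (𝔼 i ∈ s, 𝔼 j ∈ s, f i * conj (f j)).re := by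
  rw [← expect_mul_expect, ← gcs_conj_expect, Complex.mul_conj, Complex.normSq_eq_norm_sq,
    Complex.ofReal_re]

end point

end

end Pool.Agent.Helper57.NX

end

section

set_option autoImplicit false

open Finset

open scoped BigOperators ComplexConjugate

namespace Pool.Agent.Helper67.NX2

open Pool.Agent.Helper57.NX

noncomputable section

theorem ig_mono41 {m : ℕ} {S : Sys m} {c : Fin m → ℝ} {N : ℕ} {x x' : ℝ} {lam : ℕ}
    (h : IG S c N x lam) (hD : 1 ≤ S.D) (hx : x ≤ x') : IG S c N x' lam :=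
  ⟨h.good.mono67 hD hx,
    h.Q3.trans (Real.rpow_le_rpow_of_exponent_le hD (by linarith)), h.lam1, h.rho, h.Pint, h.prime⟩

end

end Pool.Agent.Helper67.NX2

end

section

set_option autoImplicit false

open Finset

open scoped BigOperators ComplexConjugate

namespace Pool.Agent.Helper67.NX2

open Pool.Agent.Helper57.NX

noncomputable section

/-- The statement of `ratl`. -/
def RatlStmt : Prop :=
  ∀ {m : ℕ} (c : Fin m → ℝ), StrictMono c → (∀ i, 0 < c i) → ∀ (a ε : ℝ), 0 < ε →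
    ∃ x0 : ℝ, 0 < x0 ∧ ∃ C : ℕ, ∃ σ : ℝ, 0 < σ ∧ ∃ D0 : ℝ, ∀ D : ℝ, D0 ≤ D →
    ∀ ρ : ℝ, 0 ≤ ρ → ρ ≤ 1 → ∀ lam : ℕ, 1 ≤ lam → (∃ r : ℕ, ρ * lam = r) →
    ∀ δ : ℝ, D ^ (-σ) ≤ δ → δ ≤ 1 / 2 → (lam : ℝ) ≤ δ⁻¹ →
    ∀ v : Fin m → ℝ, (∀ i, |v i| ≤ D ^ a) →
    ∀ q k K : ℕ, 1 ≤ q → (q : ℝ) ≤ δ⁻¹ → D ≤ k → (k : ℝ) ≤ 3 * D → D ^ (1 - x0) ≤ K →
    (q : ℝ) * K ≤ D →
    δ ≤ ‖𝔼 j ∈ range K, e (∑ i, v i * ((((k + q * j : ℕ) : ℝ) + ρ) / D) ^ (c i))‖ →
    (∀ i, ¬ IsN (c i) → |v i| ≤ D ^ ε) ∧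
    ∃ q' : ℕ, 1 ≤ q' ∧ (q' : ℝ) ≤ δ⁻¹ ^ C ∧ ∀ (i : Fin m) (d : ℕ), c i = d →
      dint (q' * (v i / (lam * D) ^ d)) ≤ D ^ (ε - d)

end

end Pool.Agent.Helper67.NX2

end

section

set_option autoImplicit false

open Finset

open scoped BigOperators ComplexConjugate

namespace Pool.Agent.Helper57.NX

noncomputable section

section Win

variable {m N : ℕ} [NeZero N] {S : Sys (m + 1)} {c : Fin (m + 1) → ℝ}

omit [NeZero N] in
/-- sizes -/
theorem sizes8 {x0 b X : ℝ} (hb : 0 ≤ b) (hD : 1 ≤ S.D) (hc0 : ∀ i, 0 < c i)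
    (hG : Good S c N x0) (hX : S.Q * S.D ^ (c (Fin.last m) - b) ≤ X) :
    0 < X ∧ 0 < S.P (Fin.last m) ∧
      S.P (Fin.last m) * (1 / X + 1 / N) ≤ 2 * S.D ^ (x0 + b) ∧
      1 / X + 1 / (N : ℝ) ≤ 2 * S.D ^ (b - 2) := by
  have hD0 : 0 < S.D := by linarith
  have hQ : 0 < (S.Q : ℝ) := lt_of_lt_of_le (Real.rpow_pos_of_pos hD0 _) hG.Q1
  have hX0 : 0 < X := lt_of_lt_of_le (mul_pos hQ (Real.rpow_pos_of_pos hD0 _)) hX
  have hP : 0 < S.P (Fin.last m) :=
    lt_of_lt_of_le (mul_pos hQ (Real.rpow_pos_of_pos hD0 _)) (hG.P1 _)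
  have hN : 0 < (N : ℝ) := hQ.trans_le hG.N2
  refine ⟨hX0, hP, ?_, ?_⟩
  · have h1 : S.P (Fin.last m) * (1 / X) ≤ S.D ^ (x0 + b) := by
      rw [mul_one_div, div_le_iff₀ hX0]
      calc S.P (Fin.last m) ≤ S.Q * S.D ^ (c (Fin.last m) + x0) := hG.P2 _
        _ = S.D ^ (x0 + b) * (S.Q * S.D ^ (c (Fin.last m) - b)) := by
            rw [mul_left_comm, ← Real.rpow_add hD0]
            congr 2
            ring
        _ ≤ S.D ^ (x0 + b) * X := mul_le_mul_of_nonneg_left hX (Real.rpow_nonneg hD0.le _)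
    have h2 : S.P (Fin.last m) * (1 / N) ≤ S.D ^ (x0 + b) := by
      rw [mul_one_div, div_le_iff₀ hN]
      calc S.P (Fin.last m) ≤ N * S.D ^ x0 := hG.N1 _
        _ ≤ N * S.D ^ (x0 + b) := mul_le_mul_of_nonneg_left
            (Real.rpow_le_rpow_of_exponent_le hD (by (clear * - hb; linarith))) hN.le
        _ = _ := mul_comm _ _
    rw [mul_add]
    linarith
  · have h1 : 1 / X ≤ S.D ^ (b - 2) := by
      rw [div_le_iff₀ hX0]
      calc (1 : ℝ) ≤ S.D ^ (c (Fin.last m)) :=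
            Real.one_le_rpow hD (hc0 _).le
        _ = S.D ^ (b - 2) * (S.D ^ (2 : ℝ) * S.D ^ (c (Fin.last m) - b)) := by
            rw [← Real.rpow_add hD0, ← Real.rpow_add hD0]
            congr 1
            ring
        _ ≤ S.D ^ (b - 2) * (S.Q * S.D ^ (c (Fin.last m) - b)) := by
            have := hG.Q1
            have h5 := Real.rpow_nonneg hD0.le (c (Fin.last m) - b)
            have h6 := Real.rpow_nonneg hD0.le (b - 2)
            exact mul_le_mul_of_nonneg_left (mul_le_mul_of_nonneg_right this h5) h6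
        _ ≤ S.D ^ (b - 2) * X := mul_le_mul_of_nonneg_left hX (Real.rpow_nonneg hD0.le _)
    have h2 : 1 / (N : ℝ) ≤ S.D ^ (b - 2) := by
      rw [div_le_iff₀ hN]
      calc (1 : ℝ) ≤ S.D ^ b := Real.one_le_rpow hD hb
        _ = S.D ^ (b - 2) * S.D ^ (2 : ℝ) := by
            rw [← Real.rpow_add hD0]
            congr 1
            ring
        _ ≤ S.D ^ (b - 2) * N := mul_le_mul_of_nonneg_left (hG.Q1.trans hG.N2)
            (Real.rpow_nonneg hD0.le _)
    linarith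

end Win

end

end Pool.Agent.Helper57.NX

end

section

set_option autoImplicit false

open Finset

open scoped BigOperators ComplexConjugate

namespace Pool.Agent.Helper57.NX

noncomputable section

/-- more slack -/
theorem good_mono28 {m : ℕ} {S : Sys m} {c : Fin m → ℝ} {N : ℕ} {x y : ℝ} (h : Good S c N x)
    (hxy : x ≤ y) (hD : 1 ≤ S.D) : Good S c N y where
  ρ0 := h.ρ0
  ρ1 := h.ρ1
  Q1 := h.Q1
  Q2 := h.Q2
  P1 i := le_trans (mul_le_mul_of_nonneg_left
    (Real.rpow_le_rpow_of_exponent_le hD (by (clear * - hxy; linarith))) (Nat.cast_nonneg _)) (h.P1 i)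
  P2 i := le_trans (h.P2 i) (mul_le_mul_of_nonneg_left
    (Real.rpow_le_rpow_of_exponent_le hD (by (clear * - hxy; linarith))) (Nat.cast_nonneg _))
  N1 i := le_trans (h.N1 i) (mul_le_mul_of_nonneg_left
    (Real.rpow_le_rpow_of_exponent_le hD hxy) (Nat.cast_nonneg _))
  N2 := h.N2
  u1 := h.u1
  u2 := h.u2
  T1 := le_trans (Real.rpow_le_rpow_of_exponent_le hD (by linarith)) h.T1

end

end Pool.Agent.Helper57.NX

end

section

set_option autoImplicit false

open Finset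

open scoped BigOperators ComplexConjugate

namespace Pool.Agent.Helper67.NX2

open Pool.Agent.Helper57.NX

noncomputable section

theorem IG_mono8 {m : ℕ} {S : Sys m} {c : Fin m → ℝ} {N : ℕ} {x x' : ℝ} {lam : ℕ}
    (h : IG S c N x lam) (hx : x ≤ x') (hD : 1 ≤ S.D) : IG S c N x' lam where
  good := good_mono28 h.good hx hD
  Q3 := h.Q3.trans (Real.rpow_le_rpow_of_exponent_le hD (by linarith))
  lam1 := h.lam1
  rho := h.rho
  Pint := h.Pint
  prime := h.prime

end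

end Pool.Agent.Helper67.NX2

end

section

set_option autoImplicit false

open Finset

open scoped BigOperators ComplexConjugate

namespace Pool.Agent.Helper67.NX2

open Pool.Agent.Helper57.NX

noncomputable section

section IGBasic

variable {N : ℕ} [NeZero N]

omit [NeZero N] in
theorem good_mono40 {m : ℕ} {S : Sys m} {c : Fin m → ℝ} {x x' : ℝ} (h : Good S c N x)
    (hx : x ≤ x') (hD : 1 ≤ S.D) : Good S c N x' where
  ρ0 := h.ρ0
  ρ1 := h.ρ1
  Q1 := h.Q1
  Q2 := h.Q2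
  P1 i := by
    refine le_trans (mul_le_mul_of_nonneg_left ?_ (Nat.cast_nonneg _)) (h.P1 i)
    exact Real.rpow_le_rpow_of_exponent_le hD (by linarith)
  P2 i := by
    refine (h.P2 i).trans (mul_le_mul_of_nonneg_left ?_ (Nat.cast_nonneg _))
    exact Real.rpow_le_rpow_of_exponent_le hD (by linarith)
  N1 i := by
    refine (h.N1 i).trans (mul_le_mul_of_nonneg_left ?_ (Nat.cast_nonneg _))
    exact Real.rpow_le_rpow_of_exponent_le hD hx
  N2 := h.N2
  u1 := h.u1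
  u2 := h.u2
  T1 := (Real.rpow_le_rpow_of_exponent_le hD (by linarith)).trans h.T1

theorem IG.mono {m : ℕ} {S : Sys m} {c : Fin m → ℝ} {N : ℕ} {x x' : ℝ} {lam : ℕ}
    (h : IG S c N x lam) (hx : x ≤ x') (hD : 1 ≤ S.D) : IG S c N x' lam :=
  ⟨good_mono40 h.good hx hD,
    h.Q3.trans (Real.rpow_le_rpow_of_exponent_le hD (by linarith)), h.lam1, h.rho, h.Pint, h.prime⟩

/-- change of the modulus -/
theorem IG.modulus {m : ℕ} {S : Sys m} {c : Fin m → ℝ} {N N' : ℕ} {x x' : ℝ} {lam : ℕ}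
    (h : IG S c N x lam) (hx : x ≤ x') (hD : 1 ≤ S.D) (hN : ∀ i, S.P i ≤ N' * S.D ^ x')
    (hp : ∃ p : ℕ, p.Prime ∧ N' = S.Q * p) : IG S c N' x' lam := by
  have h' := h.mono hx hD
  refine ⟨⟨h'.good.ρ0, h'.good.ρ1, h'.good.Q1, h'.good.Q2, h'.good.P1, h'.good.P2, hN, ?_,
    h'.good.u1, h'.good.u2, h'.good.T1⟩, h'.Q3, h'.lam1, h'.rho, h'.Pint, hp⟩
  obtain ⟨p, hp1, rfl⟩ := hp
  exact_mod_cast Nat.le_mul_of_pos_right _ hp1.pos

theorem stp_nat (Q q : ℕ) {γ : ℝ} (h : IsN γ) : stp Q q γ = Q * q := by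
  unfold stp
  rw [if_pos h]

end IGBasic

end

end Pool.Agent.Helper67.NX2

end

section

set_option autoImplicit false

open Finset

open scoped BigOperators ComplexConjugate

namespace Pool.Agent.Helper67.NX2

open Pool.Agent.Helper57.NX

noncomputable section

/-- the last sequence at a natural exponent -/
theorem a_last92 {m : ℕ} {c : Fin (m + 1) → ℝ} {d : ℕ} (hd : c (Fin.last m) = d)
    {S : Sys (m + 1)} {N lam : ℕ} {x : ℝ} (hD : 0 < S.D) (h : IG S c N x lam) {r : ℕ}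
    (hr : S.ρ * lam = r) (k : ℕ) :
    S.a c (Fin.last m) k = (S.Q : ℤ) * (((lam * k + r) ^ d : ℕ) : ℤ) := by
  unfold Sys.a Sys.t
  rw [h.Pint (Fin.last m) d hd, hd, Real.rpow_natCast]
  have h1 : (S.Q : ℝ) * ((lam : ℝ) * S.D) ^ d * (((k : ℝ) + S.ρ) / S.D) ^ d =
      (((S.Q : ℤ) * (((lam * k + r) ^ d : ℕ) : ℤ) : ℤ) : ℝ) := by
    push_cast
    rw [← hr, mul_assoc, ← mul_pow]
    congr 2
    field_simp
  rw [h1, Int.floor_intCast]

end

end Pool.Agent.Helper67.NX2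

end

section

set_option autoImplicit false

set_option linter.unusedVariables false

open Finset

open scoped BigOperators ComplexConjugate

namespace Pool.Agent.Helper67.NX2

open Pool.Agent.Helper57.NX

noncomputable section

section AqBasic

variable {N : ℕ} [NeZero N]

theorem Boxq_fib {p : ℕ} [NeZero p] (hp : p.Prime) {Q q : ℕ} [NeZero Q] (hN : N = Q * p)
    (hq : 1 ≤ q) (hqp : q < p) (k X : ℕ) (f : ZMod N → ℂ) :
    Boxq (Q * q) k X f = 𝔼 e : Fin Q, Box k X (fib (p := p) Q q f e) := by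
  unfold Boxq Box
  rw [← Complex.re_expect]
  congr 1
  symm
  refine (expect_comm _ _ _).trans ?_
  refine expect_congr rfl fun a _ => ?_
  refine (expect_comm _ _ _).trans ?_
  refine expect_congr rfl fun b _ => ?_
  rw [← expect_fib hp hN hq hqp (cubeq (Q * q) f a b)]
  refine expect_congr rfl fun e _ => expect_congr rfl fun z _ => ?_
  unfold cubeq cube
  refine prod_congr rfl fun ω _ => ?_
  rw [fib_add hN]

theorem nrm_fib {p : ℕ} [NeZero p] (hp : p.Prime) {Q q : ℕ} [NeZero Q] (hN : N = Q * p)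
    (hq : 1 ≤ q) (hqp : q < p) (L : ℕ) (f : ZMod N → ℂ) :
    nrm (Aq (Q * q) L f) = 𝔼 e : Fin Q, nrm (A L (fib (p := p) Q q f e)) := by
  unfold nrm
  rw [← expect_fib hp hN hq hqp (fun x => ‖Aq (Q * q) L f x‖)]
  refine expect_congr rfl fun e _ => expect_congr rfl fun z _ => ?_
  unfold Aq A
  congr 1
  refine expect_congr rfl fun a _ => ?_
  rw [fib_add hN]

end AqBasic

end

end Pool.Agent.Helper67.NX2

end

section

set_option autoImplicit false

open Finset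

open scoped BigOperators ComplexConjugate

namespace Pool.Agent.Helper82.NX

open Pool.Agent.Helper57.NX

noncomputable section

theorem mdl_bound' {m : ℕ} (S : Sys m) (γ : ℝ) (b : ℕ) (hD : 1 ≤ S.D) (hρ0 : 0 ≤ S.ρ)
    (hρ1 : S.ρ ≤ 1) (y : ℝ) (h1 : S.D ≤ y) (h2 : y ≤ 4 * S.D) :
    |mdl S γ b y| ≤ |ff γ b| * 5 ^ |γ - b| / S.D ^ b := by
  have hD0 : 0 < S.D := lt_of_lt_of_le one_pos hD
  have ht1 : 1 ≤ (y + S.ρ) / S.D := by
    rw [le_div_iff₀ hD0]
    linarith
  have ht2 : (y + S.ρ) / S.D ≤ 5 := by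
    rw [div_le_iff₀ hD0]
    linarith
  unfold mdl
  rw [abs_div, abs_mul, abs_of_pos (pow_pos hD0 b)]
  refine div_le_div_of_nonneg_right ?_ (pow_pos hD0 b).le
  refine mul_le_mul_of_nonneg_left ?_ (abs_nonneg _)
  rw [abs_of_nonneg (Real.rpow_nonneg (by linarith) _)]
  refine (Real.rpow_le_rpow_of_exponent_le ht1 (le_abs_self _)).trans ?_
  exact Real.rpow_le_rpow (by linarith) ht2 (abs_nonneg _)

theorem jet_sub' {m : ℕ} (S : Sys m) (c : Fin m → ℝ) (b : ℕ) (p q : Phi m) (y : ℝ) :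
    jet S c b (p - q) y = jet S c b p y - jet S c b q y := by
  unfold jet
  refine Finsupp.sum_sub_index ?_
  intro s b1 b2
  push_cast
  ring

theorem jet_single' {m : ℕ} (S : Sys m) (c : Fin m → ℝ) (b : ℕ) (i : Fin m) (y : ℝ) :
    jet S c b (Finsupp.single (([] : List ℕ), i) (1 : ℤ)) y = S.P i * mdl S (c i) b y := by
  simp [jet, dlR]

end

end Pool.Agent.Helper82.NX

end

section

set_option autoImplicit false

open Finset

open scoped BigOperators ComplexConjugate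

namespace Pool.Agent.Helper57.NX

noncomputable section

section PhiBasics

variable {m : ℕ}

theorem VV_zero : (VV 0 : AddSubgroup (Phi m)) = ⊤ := by
  have h : {s : List ℕ × Fin m | 0 ≤ s.1.length} = Set.univ := by
    ext s; simp
  unfold VV
  rw [h, Finsupp.supported_univ]
  rfl

end PhiBasics

end

end Pool.Agent.Helper57.NX

end

section

set_option autoImplicit false

open Finset

open scoped BigOperators ComplexConjugate

namespace Pool.Agent.Helper67.NX2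

open Pool.Agent.Helper57.NX

noncomputable section

theorem r94_Tp_neg {m : ℕ} {S : Sys m} {c : Fin m → ℝ} {δ Y γ lam w : ℝ}
    {n B : ℕ} {p q : Phi m} (h : Tp S c δ n B Y γ lam w (p - q)) :
    Tp S c δ n B Y γ lam w (q - p) := by
  obtain ⟨Λ, h2, h3, h4⟩ := h
  refine ⟨-Λ, by rwa [abs_neg], by rwa [abs_neg], ?_⟩
  intro b hb y hy1 hy2
  have h5 := h4 b hb y hy1 hy2
  rw [jet_sub] at h5 ⊢
  rw [← abs_neg]
  convert h5 using 2
  ring

end

end Pool.Agent.Helper67.NX2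

end

section

set_option autoImplicit false

open Finset

open scoped BigOperators ComplexConjugate

namespace Pool.Agent.Helper57.NX

noncomputable section

namespace LF

variable {N : ℕ} [NeZero N]

theorem adm_cjj {r : ℕ} {B X : ℝ} {f : ZMod N → ℂ} (hf : Adm B X f) (ω : Fin r → Bool) :
    Adm B X (fun x => cjj ω (f x)) := by
  unfold cjj
  split_ifs
  · exact hf
  · exact hf.cnj

theorem W_cube {r : ℕ} (f : ZMod N → ℂ) (a b : Fin r → ℕ) :
    W f (fun ω => ∑ i, ((sel ω a b i : ℕ) : ℤ)) = 𝔼 x, cube f a b x := by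
  unfold W cube tot
  refine Finset.expect_congr rfl fun x _ => Finset.prod_congr rfl fun ω _ => ?_
  congr 3
  push_cast
  rfl

end LF

end

end Pool.Agent.Helper57.NX

end

section

set_option autoImplicit false

open Finset

open scoped BigOperators ComplexConjugate

namespace Pool.Agent.Helper57.NX

noncomputable section

namespace SW27

/-- lower bound for the first derivative of the model -/
theorem mdl_lower (γ : ℝ) (hγ : γ ≠ 0) : ∃ c : ℝ, 0 < c ∧ ∀ (m : ℕ) (S : Sys m), 0 < S.D →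
    0 ≤ S.ρ → S.ρ ≤ S.D → ∀ y : ℝ, S.D ≤ y → y ≤ 3 * S.D → c / S.D ≤ |mdl S γ 1 y| := by
  refine ⟨|γ| * (4 : ℝ) ^ (-|γ - 1|), by (clear * - hγ; positivity), ?_⟩
  intro m S hD hρ hρ' y hy hy'
  have ht1 : 1 ≤ (y + S.ρ) / S.D := by
    rw [le_div_iff₀ hD]; (clear * - hρ hy; linarith)
  have ht2 : (y + S.ρ) / S.D ≤ 4 := by
    rw [div_le_iff₀ hD]; linarith
  have ht0 : 0 < (y + S.ρ) / S.D := by linarith
  have hff : ff γ 1 = γ := by
    unfold ff
    simp
  have hpow : (4 : ℝ) ^ (-|γ - 1|) ≤ ((y + S.ρ) / S.D) ^ (γ - 1) := by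
    rcases le_total 0 (γ - 1) with h | h
    · have h1 : (4 : ℝ) ^ (-|γ - 1|) ≤ 1 :=
        Real.rpow_le_one_of_one_le_of_nonpos (by norm_num) (by simp)
      exact h1.trans (Real.one_le_rpow ht1 h)
    · rw [abs_of_nonpos h, neg_neg]
      exact Real.rpow_le_rpow_of_nonpos ht0 ht2 h
  unfold mdl
  rw [hff, pow_one, Nat.cast_one, abs_div, abs_mul, abs_of_pos hD,
    abs_of_nonneg (Real.rpow_nonneg ht0.le _)]
  gcongr

end SW27

end

end Pool.Agent.Helper57.NX

end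

section

set_option autoImplicit false

open Finset

open scoped BigOperators ComplexConjugate

namespace Pool.Agent.Helper67.NX2

open Pool.Agent.Helper57.NX

noncomputable section

section Str

variable {m N : ℕ} [NeZero N]

theorem nrm_Aq_conj15 (st L : ℕ) (f : ZMod N → ℂ) :
    nrm (Aq st L (fun x => conj (f x))) = nrm (Aq st L f) := by
  unfold nrm Aq
  refine expect_congr rfl fun x _ => ?_
  rw [← conj_expect15, Complex.norm_conj]

end Str

end

end Pool.Agent.Helper67.NX2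

end

section

set_option autoImplicit false

open Finset

open scoped BigOperators ComplexConjugate

namespace Pool.Agent.Helper57.NX

noncomputable section

variable {N : ℕ} [NeZero N]

/-- The local correlation with a suitable character controls the average of the local averages of
all multiplicative derivatives. -/
theorem exists_char {w : ZMod N → ℂ} (hw : ∀ x, ‖w x‖ ≤ 1) (L : ℕ) :
    ∃ b : ZMod N, 𝔼 y, 𝔼 x, ‖A L (fun x => w x * conj (w (x + y))) x‖ ^ 2 ≤
      𝔼 x, ‖A L (fun x => w x * conj (ch b x)) x‖ ^ 2 := by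
  -- the identity
  have h1 : ∀ x, 𝔼 y, ‖A L (fun x => w x * conj (w (x + y))) x‖ ^ 2 =
      ∑ b, ‖fc w b‖ ^ 2 * ‖A L (fun x => w x * conj (ch b x)) x‖ ^ 2 := by
    intro x
    have h2 : ∀ y, ‖A L (fun x => w x * conj (w (x + y))) x‖ ^ 2 =
        ‖∑ b, (fc w b * 𝔼 a ∈ range L, conj (w (x + (a : ZMod N))) * ch b (a : ZMod N)) *
          ch b (y + x)‖ ^ 2 := by
      intro y
      have h3 : ∑ b, (fc w b * 𝔼 a ∈ range L, conj (w (x + (a : ZMod N))) * ch b (a : ZMod N)) *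
          ch b (y + x) = 𝔼 a ∈ range L, conj (w (x + (a : ZMod N))) * w (x + (a : ZMod N) + y) := by
        have h4 : ∀ a : ℕ, conj (w (x + (a : ZMod N))) * w (x + (a : ZMod N) + y) =
            ∑ b, fc w b * (conj (w (x + (a : ZMod N))) * ch b (a : ZMod N)) * ch b (y + x) := by
          intro a
          rw [four_inv w (x + (a : ZMod N) + y), Finset.mul_sum]
          refine Finset.sum_congr rfl fun b _ => ?_
          have h5 : x + (a : ZMod N) + y = (a : ZMod N) + (y + x) := by ring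
          rw [h5, ch_add b (a : ZMod N)]
          ring
        simp_rw [h4]
        rw [Finset.expect_sum_comm]
        refine Finset.sum_congr rfl fun b _ => ?_
        rw [Finset.mul_expect, Finset.expect_mul]
      rw [h3, ← RCLike.norm_conj (A L _ x), A, map_expect]
      congr 2
      refine Finset.expect_congr rfl fun a _ => ?_
      rw [map_mul, Complex.conj_conj]
    simp_rw [h2]
    rw [expect_shift (fun y => ‖∑ b, (fc w b * 𝔼 a ∈ range L,
      conj (w (x + (a : ZMod N))) * ch b (a : ZMod N)) * ch b y‖ ^ 2) x, parseval]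
    refine Finset.sum_congr rfl fun b _ => ?_
    rw [norm_mul, mul_pow]
    congr 2
    have h6 : A L (fun x => w x * conj (ch b x)) x =
        conj (ch b x) * conj (𝔼 a ∈ range L, conj (w (x + (a : ZMod N))) * ch b (a : ZMod N)) := by
      rw [A, map_expect, Finset.mul_expect]
      refine Finset.expect_congr rfl fun a _ => ?_
      rw [map_mul, Complex.conj_conj, ch_add, map_mul]
      ring
    rw [h6, norm_mul, RCLike.norm_conj, RCLike.norm_conj, norm_ch, one_mul]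
  rw [Finset.expect_comm]
  simp_rw [h1]
  rw [Finset.expect_sum_comm]
  simp_rw [← Finset.mul_expect]
  obtain ⟨b, -, hb⟩ := Finset.exists_max_image (univ : Finset (ZMod N))
    (fun b => 𝔼 x, ‖A L (fun x => w x * conj (ch b x)) x‖ ^ 2) Finset.univ_nonempty
  refine ⟨b, ?_⟩
  have h0 : 0 ≤ 𝔼 x, ‖A L (fun x => w x * conj (ch b x)) x‖ ^ 2 :=
    Finset.expect_nonneg fun x _ => sq_nonneg _
  calc ∑ i, ‖fc w i‖ ^ 2 * 𝔼 x, ‖A L (fun x => w x * conj (ch i x)) x‖ ^ 2
      ≤ ∑ i, ‖fc w i‖ ^ 2 * 𝔼 x, ‖A L (fun x => w x * conj (ch b x)) x‖ ^ 2 :=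
        Finset.sum_le_sum fun i hi => mul_le_mul_of_nonneg_left (hb i hi) (sq_nonneg _)
    _ = (∑ i, ‖fc w i‖ ^ 2) * 𝔼 x, ‖A L (fun x => w x * conj (ch b x)) x‖ ^ 2 := by
        rw [Finset.sum_mul]
    _ ≤ 1 * 𝔼 x, ‖A L (fun x => w x * conj (ch b x)) x‖ ^ 2 :=
        mul_le_mul_of_nonneg_right (sum_fc_le hw) h0
    _ = _ := one_mul _

end

end Pool.Agent.Helper57.NX

end

section

set_option autoImplicit false

open Finset

open scoped BigOperators ComplexConjugate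

namespace Pool.Agent.Helper57.NX

noncomputable section

variable {N : ℕ} [NeZero N]

theorem norm_pair_le {u F : ZMod N → ℂ} (hF : ∀ x, ‖F x‖ ≤ 1) : ‖𝔼 x, u x * F x‖ ≤ nrm u := by
  refine (norm_expect_le' _ _).trans (Finset.expect_le_expect fun x _ => ?_)
  rw [norm_mul]
  exact mul_le_of_le_one_right (norm_nonneg _) (hF x)

theorem w_large {f F : ZMod N → ℂ} (hf : ∀ x, ‖f x‖ ≤ 1) (hF : ∀ x, ‖F x‖ ≤ 1) (Y : ℕ) {δ : ℝ}
    (hδ : 0 < δ) (h : δ ≤ ‖𝔼 x, f x * F x‖) (hY : 𝔼 x, ‖f x - A Y f x‖ ≤ δ / 2) :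
    δ ^ 2 / 4 ≤ 𝔼 x, ‖Ab Y F x‖ ^ 2 := by
  have h1 : 𝔼 x, f x * F x = 𝔼 x, (f x - A Y f x) * F x + 𝔼 x, A Y f x * F x := by
    rw [← Finset.expect_add_distrib]
    exact Finset.expect_congr rfl fun x _ => by ring
  have h2 : ‖𝔼 x, (f x - A Y f x) * F x‖ ≤ δ / 2 := (norm_pair_le hF).trans hY
  have h3 : ‖𝔼 x, A Y f x * F x‖ ≤ 𝔼 x, ‖Ab Y F x‖ := by
    rw [adj_A]
    refine (norm_expect_le' _ _).trans (Finset.expect_le_expect fun x _ => ?_)
    rw [norm_mul]
    exact mul_le_of_le_one_left (norm_nonneg _) (hf x)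
  have h4 : δ / 2 ≤ 𝔼 x, ‖Ab Y F x‖ := by
    have := norm_add_le (𝔼 x, (f x - A Y f x) * F x) (𝔼 x, A Y f x * F x)
    rw [← h1] at this
    linarith
  have h5 := sq_expect_le univ (fun x : ZMod N => ‖Ab Y F x‖)
  have h6 : (δ / 2) ^ 2 ≤ (𝔼 x, ‖Ab Y F x‖) ^ 2 := pow_le_pow_left₀ (by positivity) h4 2
  calc δ ^ 2 / 4 = (δ / 2) ^ 2 := by ring
    _ ≤ _ := h6.trans h5

theorem wf_adm {F : ZMod N → ℂ} (hF : ∀ x, ‖F x‖ ≤ 1) (Y : ℕ) (hY : 1 ≤ Y) :
    Adm 2 Y (wf Y F) := by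
  have h1 : Adm 2 Y (A Y (Ab Y F)) := by
    refine ⟨norm_A_le (norm_Ab_le hF Y) Y, ?_⟩
    have := tv_A (M := 1) (norm_Ab_le hF Y) Y hY
    rwa [mul_one] at this
  exact h1.cnj

/-- The structured function. -/
def sf (Y L : ℕ) (F : ZMod N → ℂ) (b : ZMod N) (x : ZMod N) : ℂ :=
  Ab L (A L (fun x => wf Y F x * conj (ch b x))) x

theorem norm_sf_le {F : ZMod N → ℂ} (hF : ∀ x, ‖F x‖ ≤ 1) (Y L : ℕ) (b x : ZMod N) :
    ‖sf Y L F b x‖ ≤ 1 :=
  norm_Ab_le (norm_A_le (norm_wch_le hF Y b) L) L x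

theorem sf_lip {F : ZMod N → ℂ} (hF : ∀ x, ‖F x‖ ≤ 1) (Y L : ℕ) (hL : 1 ≤ L) (b x : ZMod N)
    (t : ℤ) : ‖sf Y L F b (x + (t : ZMod N)) - sf Y L F b x‖ ≤ 2 * |(t : ℝ)| / L :=
  Ab_lipschitz (norm_A_le (norm_wch_le hF Y b) L) L hL x t

theorem exists_shift {F : ZMod N → ℂ} (Y L : ℕ) (b : ZMod N) {κ : ℝ} (hκ0 : 0 < κ)
    (hκ : κ ≤ 𝔼 x, ‖A L (fun x => wf Y F x * conj (ch b x)) x‖ ^ 2) :
    ∃ y : ZMod N, κ ≤ ‖𝔼 x, (ch b (x + y) * sf Y L F b (x + y)) * F x‖ := by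
  -- the pairing of `conj w` with `ch b * sf`
  set g : ZMod N → ℂ := fun x => wf Y F x * conj (ch b x) with hg
  set ψ : ZMod N → ℂ := fun x => ch b x * sf Y L F b x with hψ
  have h1 : 𝔼 x, conj (wf Y F x) * ψ x = ((𝔼 x, ‖A L g x‖ ^ 2 : ℝ) : ℂ) := by
    have h2 : 𝔼 x, conj (wf Y F x) * ψ x = 𝔼 x, conj (g x) * Ab L (A L g) x := by
      refine Finset.expect_congr rfl fun x _ => ?_
      rw [hg, hψ]
      simp only [map_mul, Complex.conj_conj, sf]
      ring
    rw [h2, ← adj_A, ← expect_mul_conj]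
    refine Finset.expect_congr rfl fun x _ => ?_
    rw [conj_A]
  have h3 : 𝔼 x, conj (wf Y F x) * ψ x = 𝔼 x, A Y (Ab Y ψ) x * F x := by
    have h4 : 𝔼 x, conj (wf Y F x) * ψ x = 𝔼 x, A Y (Ab Y F) x * ψ x := by
      refine Finset.expect_congr rfl fun x _ => ?_
      rw [wf, Complex.conj_conj]
    rw [h4, adj_A, adj_A]
    exact Finset.expect_congr rfl fun x _ => mul_comm _ _
  have h5 : 𝔼 x, A Y (Ab Y ψ) x * F x =
      𝔼 p ∈ range Y ×ˢ range Y, 𝔼 x, ψ (x + ((p.1 : ZMod N) - (p.2 : ZMod N))) * F x := by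
    rw [Finset.expect_product, ]
    simp only [A, Ab]
    simp_rw [Finset.expect_mul]
    rw [Finset.expect_comm]
    refine Finset.expect_congr rfl fun a _ => ?_
    rw [Finset.expect_comm]
    refine Finset.expect_congr rfl fun a' _ => ?_
    refine Finset.expect_congr rfl fun x _ => ?_
    rw [add_sub_assoc]
  by_contra hcon
  push Not at hcon
  have h6 : ‖𝔼 p ∈ range Y ×ˢ range Y, 𝔼 x, ψ (x + ((p.1 : ZMod N) - (p.2 : ZMod N))) * F x‖ < κ := by
    rcases (range Y ×ˢ range Y).eq_empty_or_nonempty with h | h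
    · rw [h, Finset.expect_empty, norm_zero]
      exact hκ0
    · refine (norm_expect_le' _ _).trans_lt ?_
      exact expect_lt h fun p _ => hcon _
  rw [← h5, ← h3, h1, Complex.norm_real, Real.norm_eq_abs, abs_of_nonneg] at h6
  · exact absurd hκ (not_le.mpr h6)
  · exact Finset.expect_nonneg fun x _ => sq_nonneg _

end

end Pool.Agent.Helper57.NX

end

section

set_option autoImplicit false

open Finset

open scoped BigOperators ComplexConjugate

namespace Pool.Agent.Helper57.NX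

noncomputable section

theorem Good.mono {m : ℕ} {S : Sys m} {c : Fin m → ℝ} {N : ℕ} {x x' : ℝ} (h : Good S c N x)
    (hx : x ≤ x') (hD : 1 ≤ S.D) : Good S c N x' where
  ρ0 := h.ρ0
  ρ1 := h.ρ1
  Q1 := h.Q1
  Q2 := h.Q2
  P1 i := by
    refine le_trans (mul_le_mul_of_nonneg_left ?_ (Nat.cast_nonneg _)) (h.P1 i)
    exact Real.rpow_le_rpow_of_exponent_le hD (by (clear * - hx; linarith))
  P2 i := by
    refine (h.P2 i).trans (mul_le_mul_of_nonneg_left ?_ (Nat.cast_nonneg _))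
    exact Real.rpow_le_rpow_of_exponent_le hD (by (clear * - hx; linarith))
  N1 i := by
    refine (h.N1 i).trans (mul_le_mul_of_nonneg_left ?_ (Nat.cast_nonneg _))
    exact Real.rpow_le_rpow_of_exponent_le hD hx
  N2 := h.N2
  u1 := h.u1
  u2 := h.u2
  T1 := (Real.rpow_le_rpow_of_exponent_le hD (by linarith)).trans h.T1

/-- the smoothness scale of the `i`-th function -/
def XiOf {m : ℕ} (S : Sys (m + 1)) (X : ℝ) (i : Fin (m + 1)) : ℝ :=
  if i = Fin.last m then X else S.Q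

/-- A character times a function which is almost constant on intervals of length `P i D^(-ε)`. -/
def Nice {m N : ℕ} [NeZero N] (S : Sys (m + 1)) (Xi ε B : ℝ) (i : Fin (m + 1))
    (ψ : ZMod N → ℂ) : Prop :=
  ∃ (b : ZMod N) (z : ℂ) (g : ZMod N → ℂ), ‖z‖ ≤ 1 ∧ (∀ x, ‖g x‖ ≤ 1) ∧
    (∀ (x : ZMod N) (t : ℤ), ‖g (x + (t : ZMod N)) - g x‖ ≤
      4 * |(t : ℝ)| / (S.P i * S.D ^ (-ε))) ∧
    |fr b| ≤ B / Xi ∧ ∀ x, ψ x = z * ch b x * g x

section Facts

variable {m N : ℕ} [NeZero N] {S : Sys (m + 1)} {c : Fin (m + 1) → ℝ} {x0 ε s X : ℝ}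

theorem le_XiOf (hX : (S.Q : ℝ) ≤ X) (i : Fin (m + 1)) : (S.Q : ℝ) ≤ XiOf S X i := by
  unfold XiOf
  split_ifs
  · exact hX
  · exact le_rfl

omit [NeZero N] in
theorem XiOf_le (hG : Good S c N x0) (hD : 1 ≤ S.D) (h1 : ∀ i, x0 + ε ≤ c i)
    (h2 : x0 + ε ≤ c (Fin.last m) - s) (hX' : X ≤ S.Q * S.D ^ s) (i : Fin (m + 1)) :
    XiOf S X i ≤ S.P i * S.D ^ (-ε) := by
  have hD0 : 0 < S.D := by linarith
  have hQ0 : (0 : ℝ) ≤ S.Q := Nat.cast_nonneg _
  have h3 : S.Q * S.D ^ (c i - x0 - ε) ≤ S.P i * S.D ^ (-ε) := by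
    have h4 : (S.Q : ℝ) * S.D ^ (c i - x0 - ε) = S.Q * S.D ^ (c i - x0) * S.D ^ (-ε) := by
      rw [mul_assoc, ← Real.rpow_add hD0]
      congr 2
    rw [h4]
    exact mul_le_mul_of_nonneg_right (hG.P1 i) (Real.rpow_nonneg hD0.le _)
  refine le_trans ?_ h3
  unfold XiOf
  split_ifs with hi
  · subst hi
    refine hX'.trans (mul_le_mul_of_nonneg_left ?_ hQ0)
    exact Real.rpow_le_rpow_of_exponent_le hD (by (clear * - h2; linarith))
  · calc (S.Q : ℝ) = S.Q * 1 := (mul_one _).symm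
      _ ≤ _ := mul_le_mul_of_nonneg_left (Real.one_le_rpow hD (by linarith [h1 i])) hQ0

omit [NeZero N] in
theorem XiOf_le_N (hG : Good S c N x0) (hD : 1 ≤ S.D) (h2 : 2 * x0 ≤ c (Fin.last m) - s)
    (hX' : X ≤ S.Q * S.D ^ s) (i : Fin (m + 1)) : XiOf S X i ≤ N := by
  have hD0 : 0 < S.D := by (clear * - hD; linarith)
  have hQ0 : (0 : ℝ) ≤ S.Q := Nat.cast_nonneg _
  unfold XiOf
  split_ifs with hi
  · have h3 : S.Q * S.D ^ (c (Fin.last m) - x0) ≤ N * S.D ^ x0 :=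
      (hG.P1 (Fin.last m)).trans (hG.N1 (Fin.last m))
    have h4 : X * S.D ^ x0 ≤ N * S.D ^ x0 := by
      refine le_trans ?_ h3
      calc X * S.D ^ x0 ≤ S.Q * S.D ^ s * S.D ^ x0 :=
            mul_le_mul_of_nonneg_right hX' (Real.rpow_nonneg hD0.le _)
        _ = S.Q * S.D ^ (s + x0) := by rw [mul_assoc, ← Real.rpow_add hD0]
        _ ≤ _ := mul_le_mul_of_nonneg_left
            (Real.rpow_le_rpow_of_exponent_le hD (by (clear * - h2; linarith))) hQ0
    exact le_of_mul_le_mul_right h4 (Real.rpow_pos_of_pos hD0 _)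
  · exact hG.N2

end Facts

end

end Pool.Agent.Helper57.NX

end

section

set_option autoImplicit false

open Finset

open scoped BigOperators ComplexConjugate

namespace Pool.Agent.Helper67.NX2

open Pool.Agent.Helper57.NX

noncomputable section

/-- A character times a function which is almost constant along progressions. -/
def NiceQ {m N : ℕ} [NeZero N] (S : Sys (m + 1)) (c : Fin (m + 1) → ℝ) (Xi ε B : ℝ)
    (i : Fin (m + 1)) (ψ : ZMod N → ℂ) : Prop :=
  ∃ (q : ℕ) (b : ZMod N) (g : ZMod N → ℂ), 1 ≤ q ∧ (q : ℝ) ≤ B ∧ |fr b| ≤ B / Xi ∧ Adm B Xi g ∧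
    (∀ (x : ZMod N) (t : ℤ), ‖g (x + ((stp S.Q q (c i) * t : ℤ) : ZMod N)) - g x‖ ≤
      |(t : ℝ)| * (stp S.Q q (c i) : ℝ) * S.D ^ ε / S.P i) ∧ ∀ x, ψ x = ch b x * g x

theorem cr_stp_nat (Q q : ℕ) {γ : ℝ} (h : IsN γ) : stp Q q γ = Q * q := by
  unfold stp
  rw [if_pos h]

theorem cr_stp_not (Q q : ℕ) {γ : ℝ} (h : ¬ IsN γ) : stp Q q γ = 1 := by
  unfold stp
  rw [if_neg h]

theorem cr_stp_pos {Q q : ℕ} (hQ : 1 ≤ Q) (hq : 1 ≤ q) (γ : ℝ) : 1 ≤ stp Q q γ := by
  by_cases h : IsN γ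
  · rw [cr_stp_nat _ _ h]
    exact Nat.mul_pos hQ hq
  · rw [cr_stp_not _ _ h]

theorem cr_stp_le {Q q : ℕ} (hQ : 1 ≤ Q) (hq : 1 ≤ q) (γ : ℝ) : stp Q q γ ≤ Q * q := by
  by_cases h : IsN γ
  · rw [cr_stp_nat _ _ h]
  · rw [cr_stp_not _ _ h]
    exact Nat.mul_pos hQ hq

theorem cr_stp_mul (Q q r : ℕ) (γ : ℝ) : ∃ r' : ℕ, stp Q (q * r) γ = stp Q q γ * r' := by
  by_cases h : IsN γ
  · exact ⟨r, by rw [cr_stp_nat _ _ h, cr_stp_nat _ _ h]; ring⟩
  · exact ⟨1, by rw [cr_stp_not _ _ h, cr_stp_not _ _ h]⟩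

theorem cr_IG_mono {m : ℕ} {S : Sys m} {c : Fin m → ℝ} {N : ℕ} {x x' : ℝ} {lam : ℕ}
    (h : IG S c N x lam) (hx : x ≤ x') (hD : 1 ≤ S.D) : IG S c N x' lam :=
  ⟨h.good.mono hx hD, h.Q3.trans (Real.rpow_le_rpow_of_exponent_le hD (by (clear * - hx; linarith))), h.lam1,
    h.rho, h.Pint, h.prime⟩

end

end Pool.Agent.Helper67.NX2

end

section

set_option autoImplicit false

open Finset

open scoped BigOperators ComplexConjugate

namespace Pool.Agent.Helper57.NX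

noncomputable section

theorem Nice.mono {m N : ℕ} [NeZero N] {S : Sys (m + 1)} {Xi ε B B' : ℝ} {i : Fin (m + 1)}
    {ψ : ZMod N → ℂ} (h : Nice S Xi ε B i ψ) (hXi : 0 < Xi) (hB : B ≤ B') :
    Nice S Xi ε B' i ψ := by
  obtain ⟨b, z, g, h1, h2, h3, h4, h5⟩ := h
  exact ⟨b, z, g, h1, h2, h3, h4.trans (by (clear * - hB hXi; gcongr)), h5⟩

end

end Pool.Agent.Helper57.NX

end

section

set_option autoImplicit false

open Finset

open scoped BigOperators ComplexConjugate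

namespace Pool.Agent.Helper67.NX2

open Pool.Agent.Helper57.NX

noncomputable section

/-- the statement on phases with large window sums -/
def RatlSt15 {m : ℕ} (c : Fin m → ℝ) : Prop :=
    ∀ (a ε : ℝ), 0 < ε →
    ∃ x0 : ℝ, 0 < x0 ∧ ∃ C : ℕ, ∃ σ : ℝ, 0 < σ ∧ ∃ D0 : ℝ, ∀ D : ℝ, D0 ≤ D →
    ∀ ρ : ℝ, 0 ≤ ρ → ρ ≤ 1 → ∀ lam : ℕ, 1 ≤ lam → (∃ r : ℕ, ρ * lam = r) →
    ∀ δ : ℝ, D ^ (-σ) ≤ δ → δ ≤ 1 / 2 → (lam : ℝ) ≤ δ⁻¹ →
    ∀ v : Fin m → ℝ, (∀ i, |v i| ≤ D ^ a) →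
    ∀ q k K : ℕ, 1 ≤ q → (q : ℝ) ≤ δ⁻¹ → D ≤ k → (k : ℝ) ≤ 3 * D → D ^ (1 - x0) ≤ K →
    (q : ℝ) * K ≤ D →
    δ ≤ ‖𝔼 j ∈ range K, e (∑ i, v i * ((((k + q * j : ℕ) : ℝ) + ρ) / D) ^ (c i))‖ →
    (∀ i, ¬ IsN (c i) → |v i| ≤ D ^ ε) ∧
    ∃ q' : ℕ, 1 ≤ q' ∧ (q' : ℝ) ≤ δ⁻¹ ^ C ∧ ∀ (i : Fin m) (d : ℕ), c i = d →
      dint (q' * (v i / (lam * D) ^ d)) ≤ D ^ (ε - d)

section Aux

variable {m N : ℕ} [NeZero N] {S : Sys (m + 1)} {c : Fin (m + 1) → ℝ} {x : ℝ} {lam : ℕ}

theorem large15 {A p D : ℝ} (hA : 0 ≤ A) (hp : 0 < p) (h : A ^ (1 / p) ≤ D) :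
    A ≤ D ^ p := by
  calc A = (A ^ (1 / p)) ^ p := by
        rw [← Real.rpow_mul hA, one_div, inv_mul_cancel₀ hp.ne', Real.rpow_one]
    _ ≤ D ^ p := Real.rpow_le_rpow (Real.rpow_nonneg hA _) h hp.le

theorem pow_ge15' {D δ σ τ : ℝ} {j K : ℕ} (hD : 1 ≤ D) (hσ0 : 0 ≤ σ) (hσ : σ * K ≤ τ)
    (h : D ^ (-σ) ≤ δ) (hj : j ≤ K) : D ^ (-τ) ≤ δ ^ j := by
  have h0 : (0 : ℝ) < D := by (clear * - hD; linarith)
  calc D ^ (-τ) ≤ D ^ (-σ * j) := by
        apply Real.rpow_le_rpow_of_exponent_le hD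
        have h1 : σ * j ≤ σ * K := mul_le_mul_of_nonneg_left (by exact_mod_cast hj) hσ0
        (clear * - hσ h1; linarith)
    _ = (D ^ (-σ)) ^ j := by rw [Real.rpow_mul h0.le, Real.rpow_natCast]
    _ ≤ δ ^ j := pow_le_pow_left₀ (Real.rpow_nonneg h0.le _) h j

theorem expect_Ico15 (u J : ℕ) (F : ℕ → ℂ) :
    𝔼 j ∈ Ico u (u + J), F j = 𝔼 j ∈ range J, F (u + j) := by
  rw [expect_eq_sum_div_card, expect_eq_sum_div_card, sum_Ico_eq_sum_range, Nat.card_Ico,
    card_range, Nat.add_sub_cancel_left]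

end Aux

end

end Pool.Agent.Helper67.NX2

end

section

set_option autoImplicit false

open Finset

open scoped BigOperators ComplexConjugate

namespace Pool.Agent.Helper67.NX2

open Pool.Agent.Helper57.NX

noncomputable section

/-- dilation of the average -/
theorem h9_nrm_dil {p : ℕ} [NeZero p] (hp : p.Prime) (q L : ℕ) (hq1 : 1 ≤ q) (hqp : q < p)
    (f : ZMod p → ℂ) :
    𝔼 x, ‖𝔼 l ∈ range L, f (x + ((q * l : ℕ) : ZMod p))‖ =
      nrm (A L (fun z => f ((q : ZMod p) * z))) := by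
  have : Fact p.Prime := ⟨hp⟩
  have hq0 : (q : ZMod p) ≠ 0 := by
    rw [Ne, ZMod.natCast_eq_zero_iff]
    intro h
    have := Nat.le_of_dvd (by omega) h
    omega
  unfold nrm A
  symm
  refine Fintype.expect_equiv (Equiv.mulLeft₀ (q : ZMod p) hq0) _ _ ?_
  intro z
  simp only [Equiv.mulLeft₀_apply]
  congr 1
  refine expect_congr rfl fun l _ => ?_
  congr 1
  push_cast
  ring

theorem h9_boxset_zero (X : ℕ) (a : Fin 0 → ℕ) : a ∈ boxset 0 X := by
  simp only [boxset, Fintype.mem_piFinset]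
  intro i
  exact i.elim0

end

end Pool.Agent.Helper67.NX2

end

section

set_option autoImplicit false

set_option linter.unusedSectionVars false

set_option linter.unusedVariables false

open Finset

open scoped BigOperators ComplexConjugate

namespace Pool.Agent.Helper67.NX2

open Pool.Agent.Helper57.NX

noncomputable section

section point

variable {N : ℕ} [NeZero N]

theorem dbq_norm_cubeq_le (q k : ℕ) {f : ZMod N → ℂ} (hf : ∀ x, ‖f x‖ ≤ 1)
    (a b : Fin k → ℕ) (x : ZMod N) : ‖cubeq q f a b x‖ ≤ 1 := by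
  unfold cubeq
  rw [norm_prod]
  refine prod_le_one (fun _ _ => norm_nonneg _) fun ω _ => ?_
  have : ∀ z : ℂ, ‖cjj ω z‖ = ‖z‖ := by
    intro z
    unfold cjj
    split_ifs <;> simp
  rw [this]
  exact hf _

theorem dbq_boxset_ne (k X : ℕ) (hX : 1 ≤ X) : (boxset k X).Nonempty := by
  refine ⟨fun _ => 0, ?_⟩
  simp only [boxset, Fintype.mem_piFinset, mem_range]
  intro _
  omega

theorem dbq_Box_zero (X : ℕ) (f : ZMod N → ℂ) : Box 0 X f = (𝔼 x, f x).re := by
  have h1 : boxset 0 X = {Fin.elim0} := by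
    ext a
    simp only [boxset, Fintype.mem_piFinset, mem_singleton]
    exact ⟨fun _ => Subsingleton.elim _ _, fun _ i => i.elim0⟩
  have h2 : ∀ (a b : Fin 0 → ℕ) (x : ZMod N), cube f a b x = f x := by
    intro a b x
    unfold cube
    rw [Fintype.prod_unique]
    simp [cjj, tot]
  simp [Box, h1, h2]

end point

end

end Pool.Agent.Helper67.NX2

end

section

set_option autoImplicit false

open Finset

open scoped BigOperators ComplexConjugate

namespace Pool.Agent.Helper57.NX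

noncomputable section

namespace US10

/-- monotonicity of `Good` in the slack -/
theorem good_mono {m : ℕ} {S : Sys m} {c : Fin m → ℝ} {N : ℕ} {x x' : ℝ} (h : Good S c N x)
    (hD : 1 ≤ S.D) (hx : x ≤ x') : Good S c N x' where
  ρ0 := h.ρ0
  ρ1 := h.ρ1
  Q1 := h.Q1
  Q2 := h.Q2
  P1 i := (mul_le_mul_of_nonneg_left (Real.rpow_le_rpow_of_exponent_le hD (by linarith))
    (Nat.cast_nonneg _)).trans (h.P1 i)
  P2 i := (h.P2 i).trans (mul_le_mul_of_nonneg_left
    (Real.rpow_le_rpow_of_exponent_le hD (by (clear * - hx; linarith))) (Nat.cast_nonneg _))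
  N1 i := (h.N1 i).trans (mul_le_mul_of_nonneg_left
    (Real.rpow_le_rpow_of_exponent_le hD (by linarith)) (Nat.cast_nonneg _))
  N2 := h.N2
  u1 := h.u1
  u2 := h.u2
  T1 := (Real.rpow_le_rpow_of_exponent_le hD (by linarith)).trans h.T1

theorem t_mem {m N : ℕ} {S : Sys m} {c : Fin m → ℝ} {x : ℝ} (h : Good S c N x) (hD : 0 < S.D)
    (k : ℕ) (hk1 : S.u ≤ k) (hk2 : k < S.u + S.T) : S.t k ∈ Set.Icc (1 : ℝ) 2 := by
  have h1 : (S.u : ℝ) ≤ k := by exact_mod_cast hk1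
  have h2 : (k : ℝ) + 1 ≤ S.u + S.T := by exact_mod_cast hk2
  have h3 := h.u1
  have h4 := h.u2
  have h5 := h.ρ0
  have h6 := h.ρ1
  constructor
  · rw [Sys.t, le_div_iff₀ hD]
    (clear * - h1 h3 h5; linarith)
  · rw [Sys.t, div_le_iff₀ hD]
    (clear * - h2 h4 h6; linarith)

theorem A_const_mul {N : ℕ} (L : ℕ) (z : ℂ) (f : ZMod N → ℂ) (x : ZMod N) :
    A L (fun y => z * f y) x = z * A L f x := by
  rw [A, A, Finset.mul_expect]

end US10

end

end Pool.Agent.Helper57.NX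

end

section

set_option autoImplicit false

open Finset

open scoped BigOperators ComplexConjugate

namespace Pool.Agent.Helper67.NX2

open Pool.Agent.Helper57.NX

noncomputable section

namespace Low94

section Aq

variable {N : ℕ} [NeZero N]

omit [NeZero N] in
theorem Aq_const_mul (st L : ℕ) (z : ℂ) (f : ZMod N → ℂ) (x : ZMod N) :
    Aq st L (fun y => z * f y) x = z * Aq st L f x := by
  rw [Aq, Aq, Finset.mul_expect]

omit [NeZero N] in
/-- `Aq` commutes with translations -/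
theorem Aq_shift (st L : ℕ) (f : ZMod N → ℂ) (t x : ZMod N) :
    Aq st L (fun y => f (y + t)) x = Aq st L f (x + t) := by
  unfold Aq
  refine Finset.expect_congr rfl fun a _ => ?_
  dsimp only
  rw [add_right_comm]

omit [NeZero N] in
/-- functions which are Lipschitz along the progressions have smooth fibres -/
theorem fib_adm {p : ℕ} [NeZero p] {Q q : ℕ} (hN : N = Q * p) {g : ZMod N → ℂ}
    (hg : ∀ x, ‖g x‖ ≤ 1) {L : ℕ}
    (hl : ∀ x, ‖g (x + ((Q * q : ℕ) : ZMod N)) - g x‖ ≤ 2 / L) (e : ℕ) :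
    Adm 2 L (fib (p := p) Q q g e) := by
  refine ⟨fun z => hg _, ?_⟩
  have h1 := tv_of_step5 (N := p) (g := fib (p := p) Q q g e) (M := 1) (L := L) zero_le_one
    (fun z => by
      have h2 := fib_add (p := p) (q := q) hN g e z 1
      rw [Nat.cast_one, mul_one] at h2
      rw [h2, mul_one]
      exact hl _)
  rw [mul_one] at h1
  exact h1

omit [NeZero N] in
theorem A_fib {p : ℕ} [NeZero p] {Q q : ℕ} (hN : N = Q * p) (g : ZMod N → ℂ) (e L : ℕ)
    (z : ZMod p) : A L (fib (p := p) Q q g e) z =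
      Aq (Q * q) L g ((Q * (q * z.val) + e : ℕ) : ZMod N) := by
  unfold A Aq
  refine Finset.expect_congr rfl fun a _ => ?_
  exact fib_add hN g e z a

end Aq

end Low94

end

end Pool.Agent.Helper67.NX2

end

section

set_option autoImplicit false

open Finset

open scoped BigOperators ComplexConjugate

namespace Pool.Agent.Helper67.NX2

open Pool.Agent.Helper57.NX

noncomputable section

namespace Low94

/-- the conclusion of `ar_top` -/
def ArC (m : ℕ) (c : Fin (m + 1) → ℝ) (s ε : ℝ) (x0 : ℝ) (C : ℕ) (σ D0 : ℝ) : Prop :=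
    ∀ (S : Sys (m + 1)) (N : ℕ) [NeZero N] (lam : ℕ), D0 ≤ S.D → IG S c N x0 lam →
    ∀ δ : ℝ, S.D ^ (-σ) ≤ δ → δ ≤ 1 / 2 → (lam : ℝ) ≤ δ⁻¹ →
    ∀ (p : ℕ) [NeZero p], p.Prime → N = S.Q * p → ∀ q : ℕ, 1 ≤ q → (q : ℝ) ≤ δ⁻¹ →
    ∀ X : ℝ, 1 ≤ X → S.D ^ (s - σ) ≤ X →
    ∀ (f0 : ZMod N → ℂ) (f : Fin m → ZMod N → ℂ), Adm δ⁻¹ S.Q f0 → (∀ i, Adm δ⁻¹ S.Q (f i)) →
    ∀ G : ZMod p → ℂ, Adm δ⁻¹ X (fun z => G ((q : ZMod p) * z)) →
    δ ≤ ‖form S c 1 f0 (Fin.snoc (α := fun _ => ZMod N → ℂ) f (blk S.Q G))‖ →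
    ∀ L : ℕ, 1 ≤ L → (L : ℝ) * (S.Q * q) ≤ S.P (Fin.last m) * S.D ^ (-ε) →
      δ ^ C ≤ nrm (A L (fun z : ZMod p => G ((q : ZMod p) * z)))

/-- the conclusion of `bc` -/
def BcC (m : ℕ) (C : ℕ) : Prop :=
  ∀ (c : Fin (m + 1) → ℝ) (d : ℕ) (_ : c (Fin.last m) = d)
    (S : Sys (m + 1)) (N : ℕ) [NeZero N] (lam : ℕ) (x : ℝ), 1 ≤ S.D → IG S c N x lam →
    ∀ δ : ℝ, 0 < δ → δ ≤ 1 / 2 → δ⁻¹ ^ C ≤ S.Q →
    ∀ (f0 : ZMod N → ℂ) (f : Fin m → ZMod N → ℂ) (g : ZMod N → ℂ),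
    Adm δ⁻¹ S.Q f0 → (∀ i, Adm δ⁻¹ S.Q (f i)) → (∀ x, ‖g x‖ ≤ 1) →
    δ ≤ ‖form S c 1 f0 (Fin.snoc (α := fun _ => ZMod N → ℂ) f g)‖ →
    ∃ e : ℕ, e < S.Q ∧ ∃ f0' : ZMod N → ℂ, Adm (δ⁻¹ ^ 3) S.Q f0' ∧
      δ ^ C ≤ ‖form S c 1 f0' (Fin.snoc (α := fun _ => ZMod N → ℂ) f
        (fun x => g ((S.Q * (x.val / S.Q) + e : ℕ) : ZMod N)))‖

end Low94

end

end Pool.Agent.Helper67.NX2

end

section

set_option autoImplicit false

open Finset

open scoped BigOperators ComplexConjugate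

namespace Pool.Agent.Helper57.NX

noncomputable section

theorem r45_Tp_mono {m : ℕ} {S : Sys m} {c : Fin m → ℝ} {δ Y Y' γ lam w : ℝ}
    {n n' B B' : ℕ} {p : Phi m} (h : Tp S c δ n B Y γ lam w p) (h0 : 0 < δ) (h1 : δ ≤ 1 / 2)
    (hD : 0 < S.D)
    (hl : 0 ≤ lam) (hw : 0 ≤ w) (hn : n ≤ n') (hB : B' ≤ B) (hY : Y' ≤ Y) :
    Tp S c δ n' B' Y' γ lam w p := by
  obtain ⟨Λ, h2, h3, h4⟩ := h
  refine ⟨Λ, ?_, ?_, ?_⟩
  · exact (mul_le_mul_of_nonneg_right (r45_pow_anti h0 h1 hn) hl).trans h2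
  · exact h3.trans (mul_le_mul_of_nonneg_right (r45_pow_inv_mono h0 h1 hn) hl)
  · intro b hb y hy1 hy2
    refine (h4 b (hb.trans hB) y hy1 (hy2.trans hY)).trans ?_
    gcongr ?_ / _
    have := r45_pow_inv_mono h0 h1 hn
    gcongr

theorem r45_Tp_neg {m : ℕ} {S : Sys m} {c : Fin m → ℝ} {δ Y γ lam w : ℝ}
    {n B : ℕ} {p q : Phi m} (h : Tp S c δ n B Y γ lam w (p - q)) :
    Tp S c δ n B Y γ lam w (q - p) := by
  obtain ⟨Λ, h2, h3, h4⟩ := h
  refine ⟨-Λ, by rwa [abs_neg], by rwa [abs_neg], ?_⟩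
  intro b hb y hy1 hy2
  have h5 := h4 b hb y hy1 hy2
  rw [jet_sub] at h5 ⊢
  rw [← abs_neg]
  convert h5 using 2
  ring

end

end Pool.Agent.Helper57.NX

end

section

set_option autoImplicit false

open Finset

open scoped BigOperators ComplexConjugate

namespace Pool.Agent.Helper67.NX2

open Pool.Agent.Helper57.NX

noncomputable section

namespace US50

open Pool.Agent.Helper57.NX.US10

/-- monotonicity of `IG` in the slack -/
theorem ig_mono {m : ℕ} {S : Sys m} {c : Fin m → ℝ} {N : ℕ} {x x' : ℝ} {lam : ℕ}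
    (h : IG S c N x lam) (hD : 1 ≤ S.D) (hx : x ≤ x') : IG S c N x' lam where
  good := good_mono h.good hD hx
  Q3 := h.Q3.trans (Real.rpow_le_rpow_of_exponent_le hD (by linarith))
  lam1 := h.lam1
  rho := h.rho
  Pint := h.Pint
  prime := h.prime

/-- an average of length `st L` is an average of averages along progressions of difference `st` -/
theorem nrm_A_mul {N : ℕ} [NeZero N] (st L : ℕ) (hst : 1 ≤ st) (f : ZMod N → ℂ) :
    nrm (A (st * L) f) ≤ nrm (Aq st L f) := by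
  have hst0 : (st : ℚ≥0) ≠ 0 := by exact_mod_cast (by omega : st ≠ 0)
  have h1 : ∀ x, A (st * L) f x = 𝔼 r ∈ range st, Aq st L f (x + (r : ZMod N)) := by
    intro x
    have h2 : (∑ a ∈ range (st * L), f (x + (a : ZMod N))) =
        ∑ r ∈ range st, ∑ b ∈ range L, f (x + (r : ZMod N) + ((st * b : ℕ) : ZMod N)) := by
      rw [Finset.sum_comm]
      have h3 : ∀ n : ℕ, (∑ a ∈ range (st * n), f (x + (a : ZMod N))) =
          ∑ b ∈ range n, ∑ r ∈ range st, f (x + (r : ZMod N) + ((st * b : ℕ) : ZMod N)) := by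
        intro n
        induction n with
        | zero => simp
        | succ n ih =>
          rw [Nat.mul_succ, Finset.sum_range_add, ih, Finset.sum_range_succ]
          congr 1
          refine Finset.sum_congr rfl fun r _ => ?_
          congr 1
          push_cast
          ring
      exact h3 L
    rw [A, Finset.expect_eq_sum_div_card, h2, Finset.expect_eq_sum_div_card, card_range,
      card_range]
    have h3 : ∀ r ∈ range st, Aq st L f (x + (r : ZMod N)) =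
        (∑ b ∈ range L, f (x + (r : ZMod N) + ((st * b : ℕ) : ZMod N))) / L := by
      intro r _
      rw [Aq, Finset.expect_eq_sum_div_card, card_range]
    rw [Finset.sum_congr rfl h3, ← Finset.sum_div, div_div]
    push_cast
    rw [mul_comm (st : ℂ) (L : ℂ)]
  have hne : (range st).Nonempty := Finset.nonempty_range_iff.2 (by omega)
  calc nrm (A (st * L) f) ≤ 𝔼 x : ZMod N, 𝔼 r ∈ range st, ‖Aq st L f (x + (r : ZMod N))‖ := by
        refine Finset.expect_le_expect fun x _ => ?_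
        rw [h1]
        exact RCLike.norm_expect_le (K := ℂ)
    _ = 𝔼 r ∈ range st, 𝔼 x : ZMod N, ‖Aq st L f (x + (r : ZMod N))‖ := Finset.expect_comm _ _ _
    _ = 𝔼 r ∈ range st, nrm (Aq st L f) := by
        refine Finset.expect_congr rfl fun r _ => ?_
        rw [nrm]
        exact Fintype.expect_equiv (Equiv.addRight (r : ZMod N)) _ _ fun x => rfl
    _ = nrm (Aq st L f) := Finset.expect_const hne _

end US50

end

end Pool.Agent.Helper67.NX2

end

section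

set_option autoImplicit false

open Finset

open scoped BigOperators ComplexConjugate

namespace Pool.Agent.Helper67.NX2

open Pool.Agent.Helper57.NX

noncomputable section

/-- the character with an integer frequency -/
theorem ch_eq45 {N : ℕ} [NeZero N] (b : ℤ) (x : ZMod N) :
    e ((b : ℝ) / N * x.val) = ch (b : ZMod N) x := by
  have h : (b : ZMod N) * x = ((b * x.val : ℤ) : ZMod N) := by
    push_cast
    rw [ZMod.natCast_zmod_val]
  rw [ch, h, ZMod.stdAddChar_coe, e]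
  congr 1
  push_cast
  ring

theorem ch_int45 {N : ℕ} [NeZero N] (b : ℤ) (a : ℤ) :
    ch (b : ZMod N) (a : ZMod N) = e ((b : ℝ) / N * a) := by
  have h : (b : ZMod N) * (a : ZMod N) = ((b * a : ℤ) : ZMod N) := by push_cast; ring
  rw [ch, h, ZMod.stdAddChar_coe, e]
  congr 1
  push_cast
  ring

end

end Pool.Agent.Helper67.NX2

end

section

set_option autoImplicit false

open Finset

open scoped BigOperators ComplexConjugate

namespace Pool.Agent.Helper67.NX2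

open Pool.Agent.Helper57.NX

noncomputable section

/-- replacing the frame function by its averages -/
theorem frame21 {N : ℕ} [NeZero N] (f H : ZMod N → ℂ) (st L : ℕ) (ζ : ℝ) (hL : 1 ≤ L)
    (hf : ∀ x, ‖f x‖ ≤ 1) (hH : ∀ x, ‖H x‖ ≤ 1)
    (hlip : ∀ a < L, ∀ x, ‖H (x + ((st * a : ℕ) : ZMod N)) - H x‖ ≤ ζ) :
    ‖𝔼 x, f x * H x‖ ≤ nrm (Aq st L f) + ζ := by
  have hζ : 0 ≤ ζ := (norm_nonneg _).trans (hlip 0 (by omega) 0)
  have hLne : (range L).Nonempty := Finset.nonempty_range_iff.mpr (by omega)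
  have h1 : 𝔼 x, f x * H x = 𝔼 x, 𝔼 a ∈ range L,
      f (x + ((st * a : ℕ) : ZMod N)) * H (x + ((st * a : ℕ) : ZMod N)) := by
    rw [Finset.expect_comm]
    rw [Finset.expect_congr rfl fun a _ => expect_shift (fun x => f x * H x)
      ((st * a : ℕ) : ZMod N), Finset.expect_const hLne]
  have h2 : 𝔼 x, f x * H x = (𝔼 x, 𝔼 a ∈ range L,
      f (x + ((st * a : ℕ) : ZMod N)) * (H (x + ((st * a : ℕ) : ZMod N)) - H x)) +
      𝔼 x, Aq st L f x * H x := by
    rw [h1, ← Finset.expect_add_distrib]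
    refine Finset.expect_congr rfl fun x _ => ?_
    unfold Aq
    rw [Finset.expect_mul, ← Finset.expect_add_distrib]
    refine Finset.expect_congr rfl fun a _ => ?_
    ring
  rw [h2]
  refine (norm_add_le _ _).trans ?_
  rw [add_comm]
  refine add_le_add ?_ ?_
  · refine (norm_expect_le5 _ _).trans ?_
    unfold nrm
    refine Finset.expect_le_expect fun x _ => ?_
    rw [norm_mul]
    exact mul_le_of_le_one_right (norm_nonneg _) (hH x)
  · refine norm_expect_le_of5 _ _ hζ fun x _ => ?_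
    refine norm_expect_le_of5 _ _ hζ fun a ha => ?_
    rw [norm_mul]
    exact (mul_le_of_le_one_left (norm_nonneg _) (hf _)).trans
      (hlip a (Finset.mem_range.mp ha) x)

/-- the statement on phases with large window sums (A5) -/
def RatlSt21 {m : ℕ} (c : Fin m → ℝ) : Prop :=
    ∀ (a ε : ℝ), 0 < ε →
    ∃ x0 : ℝ, 0 < x0 ∧ ∃ C : ℕ, ∃ σ : ℝ, 0 < σ ∧ ∃ D0 : ℝ, ∀ D : ℝ, D0 ≤ D →
    ∀ ρ : ℝ, 0 ≤ ρ → ρ ≤ 1 → ∀ lam : ℕ, 1 ≤ lam → (∃ r : ℕ, ρ * lam = r) →
    ∀ δ : ℝ, D ^ (-σ) ≤ δ → δ ≤ 1 / 2 → (lam : ℝ) ≤ δ⁻¹ →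
    ∀ v : Fin m → ℝ, (∀ i, |v i| ≤ D ^ a) →
    ∀ q k K : ℕ, 1 ≤ q → (q : ℝ) ≤ δ⁻¹ → D ≤ k → (k : ℝ) ≤ 3 * D → D ^ (1 - x0) ≤ K →
    (q : ℝ) * K ≤ D →
    δ ≤ ‖𝔼 j ∈ range K, e (∑ i, v i * ((((k + q * j : ℕ) : ℝ) + ρ) / D) ^ (c i))‖ →
    (∀ i, ¬ IsN (c i) → |v i| ≤ D ^ ε) ∧
    ∃ q' : ℕ, 1 ≤ q' ∧ (q' : ℝ) ≤ δ⁻¹ ^ C ∧ ∀ (i : Fin m) (d : ℕ), c i = d →
      dint (q' * (v i / (lam * D) ^ d)) ≤ D ^ (ε - d)

end

end Pool.Agent.Helper67.NX2

end

section

set_option autoImplicit false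

open Finset

open scoped BigOperators ComplexConjugate

namespace Pool.Agent.Helper67.NX2

open Pool.Agent.Helper57.NX

noncomputable section

theorem fav_cell (F : ℕ → ℝ) (M M' b j : ℕ) [NeZero M] (h : M' ∣ M) (hM' : 1 ≤ M') (ρ : ZMod M') :
    fav M' (cell F M b j) ρ = cell F M' b j ρ := by
  have hc := card_fibre M M' h hM' ρ
  have hM'r : (0 : ℝ) < M' := by exact_mod_cast hM'
  have hM0 : (0 : ℝ) < M := by exact_mod_cast Nat.pos_of_ne_zero (NeZero.ne M)
  have hcr : ((univ.filter (fun x : ZMod M => ((x.val : ℕ) : ZMod M') = ρ)).card : ℝ) * M' = M := by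
    exact_mod_cast hc
  have hc0 : ((univ.filter (fun x : ZMod M => ((x.val : ℕ) : ZMod M') = ρ)).card : ℝ) ≠ 0 := by
    intro h0
    rw [h0, zero_mul] at hcr
    exact hM0.ne hcr
  have hval : ∀ y : ℕ, (((y : ZMod M).val : ℕ) : ZMod M') = (y : ZMod M') := by
    intro y
    rw [ZMod.val_natCast, ZMod.natCast_eq_natCast_iff]
    exact (Nat.mod_modEq y M).of_dvd h
  unfold fav cell
  rw [Finset.expect_eq_sum_div_card, ← Finset.mul_sum, Finset.sum_comm]
  have hsum : ∀ y : ℕ, (∑ x ∈ univ.filter (fun x : ZMod M => ((x.val : ℕ) : ZMod M') = ρ),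
      if (y : ZMod M) = x then F y else 0) = if (y : ZMod M') = ρ then F y else 0 := by
    intro y
    rw [Finset.sum_ite_eq]
    simp only [mem_filter, mem_univ, true_and, hval]
  simp only [hsum]
  rw [div_eq_iff hc0]
  have h5 : (M : ℝ) / 2 ^ b = M' / 2 ^ b *
      ((univ.filter (fun x : ZMod M => ((x.val : ℕ) : ZMod M') = ρ)).card : ℝ) := by
    rw [div_mul_eq_mul_div, ← hcr, mul_comm]
  rw [h5]
  ring

end

end Pool.Agent.Helper67.NX2

end

section

set_option autoImplicit false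

open Finset

open scoped BigOperators ComplexConjugate

namespace Pool.Agent.Helper67.NX2

open Pool.Agent.Helper57.NX

noncomputable section

/-- the statement of `local_main` -/
def LocalMainC (s : ℕ) (d : Fin (s + 1) → ℕ) : Prop := ∀ (V κ : ℝ), 1 ≤ V → 0 < κ →
    ∃ w0 : ℕ, ∀ w : ℕ, w0 ≤ w → ∀ K : ℕ, 1 ≤ K → (∀ p : ℕ, p.Prime → p ∣ K → p ≤ w) →
    ∃ (K' : ℕ) (_ : NeZero K'), K ∣ K' ∧ (∀ p : ℕ, p.Prime → (p ∣ K' ↔ p ≤ w)) ∧
    ∀ (M : ℕ) [NeZero M], K' ∣ M → ∀ H : Option (Fin (s + 1)) → ZMod M → ℝ, (∀ o ρ, 0 ≤ H o ρ) →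
    (∀ M' : ℕ, M' ∣ M → ∀ o ρ, fav M' (H o) ρ ≤ V * (M' / M'.totient)) →
    |lfm d K M H - lfm d K K' (fun o => fav K' (H o))| ≤ κ

lemma cell_nonneg46 {F : ℕ → ℝ} (hF : ∀ x, 0 ≤ F x) (M b j : ℕ) (ρ : ZMod M) :
    0 ≤ cell F M b j ρ := by
  unfold cell
  refine mul_nonneg (by (clear * -; positivity)) (sum_nonneg fun y _ => ?_)
  split_ifs
  · exact hF y
  · exact le_rfl

lemma FA_nonneg46 (z : ℕ) (A : Finset ℕ) (x : ℕ) : 0 ≤ FA z A x := by
  unfold FA
  split_ifs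
  · exact Real.log_nonneg (one_le_pow₀ (by norm_num))
  · exact le_rfl

end

end Pool.Agent.Helper67.NX2

end

section

set_option autoImplicit false

open Finset

open scoped BigOperators ComplexConjugate

namespace Pool.Agent.Helper67.NX2

open Pool.Agent.Helper57.NX

noncomputable section

theorem ls87_e_add (x y : ℝ) : e (x + y) = e x * e y := by
  unfold e
  rw [← Complex.exp_add]
  congr 1
  push_cast
  ring

theorem ls87_e_conj (x : ℝ) : conj (e x) = e (-x) := by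
  unfold e
  rw [← Complex.exp_conj]
  congr 1
  have h : (2 * Real.pi * x * Complex.I : ℂ) = ((2 * Real.pi * x : ℝ) : ℂ) * Complex.I := by
    push_cast; ring
  rw [h, map_mul, Complex.conj_ofReal, Complex.conj_I]
  push_cast
  ring

theorem ls87_norm_e (x : ℝ) : ‖e x‖ = 1 := by
  unfold e
  have : (2 * Real.pi * x * Complex.I : ℂ) = ((2 * Real.pi * x : ℝ) : ℂ) * Complex.I := by
    push_cast; ring
  rw [this, Complex.norm_exp_ofReal_mul_I]

theorem ls87_geom' (θ : ℝ) (L : ℕ) : ‖∑ t ∈ range L, e (θ * t)‖ ≤ L := by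
  calc ‖∑ t ∈ range L, e (θ * t)‖ ≤ ∑ t ∈ range L, ‖e (θ * t)‖ := norm_sum_le _ _
    _ = L := by simp [ls87_norm_e]

end

end Pool.Agent.Helper67.NX2

end

section

set_option autoImplicit false

open Finset

open scoped BigOperators ComplexConjugate

namespace Pool.Agent.Helper67.NX2

open Pool.Agent.Helper57.NX

noncomputable section

theorem stp_not_fr (Q q : ℕ) {γ : ℝ} (h : ¬ IsN γ) : stp Q q γ = 1 := by
  unfold stp
  rw [if_neg h]

theorem Aq_one_fr {N : ℕ} (L : ℕ) (f : ZMod N → ℂ) : Aq 1 L f = A L f := by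
  funext x
  unfold Aq A
  refine Finset.expect_congr rfl fun a _ => ?_
  rw [one_mul]

/-- the hybrid functions: the functions with index `< t` and non-natural exponent are replaced -/
def hyf {m N : ℕ} (c : Fin m → ℝ) (f : Fin m → ZMod N → ℂ) (L : Fin m → ℕ) (t : ℕ)
    (i : Fin m) : ZMod N → ℂ := by
  classical exact if (i : ℕ) < t ∧ ¬ IsN (c i) then A (L i) (f i) else f i

theorem hyf_zero {m N : ℕ} (c : Fin m → ℝ) (f : Fin m → ZMod N → ℂ) (L : Fin m → ℕ) :
    hyf c f L 0 = f := by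
  funext i
  simp [hyf]

theorem hyf_last {m N : ℕ} (c : Fin m → ℝ) (f : Fin m → ZMod N → ℂ) (L : Fin m → ℕ) :
    hyf c f L m = fun i x => (open scoped Classical in
      if IsN (c i) then f i x else A (L i) (f i) x) := by
  funext i x
  by_cases h : IsN (c i)
  · simp [hyf, h]
  · simp [hyf, h]

theorem hyf_self {m N : ℕ} (c : Fin m → ℝ) (f : Fin m → ZMod N → ℂ) (L : Fin m → ℕ)
    (i : Fin m) : hyf c f L i = Function.update (hyf c f L i) i (f i) := by
  funext j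
  by_cases hj : j = i
  · subst hj
    simp [hyf]
  · simp [hj]

theorem hyf_succ {m N : ℕ} (c : Fin m → ℝ) (f : Fin m → ZMod N → ℂ) (L : Fin m → ℕ)
    (i : Fin m) (hi : ¬ IsN (c i)) :
    hyf c f L (i + 1) = Function.update (hyf c f L i) i (A (L i) (f i)) := by
  funext j
  by_cases hj : j = i
  · subst hj
    simp [hyf, hi]
  · have h1 : (j : ℕ) ≠ i := fun h => hj (Fin.ext h)
    rw [Function.update_of_ne hj]
    unfold hyf
    by_cases h2 : (j : ℕ) < i ∧ ¬ IsN (c j)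
    · rw [if_pos h2, if_pos ⟨by omega, h2.2⟩]
    · rw [if_neg h2, if_neg]
      rintro ⟨h3, h4⟩
      exact h2 ⟨by omega, h4⟩

theorem hyf_succ_nat {m N : ℕ} (c : Fin m → ℝ) (f : Fin m → ZMod N → ℂ) (L : Fin m → ℕ)
    (i : Fin m) (hi : IsN (c i)) : hyf c f L (i + 1) = hyf c f L i := by
  funext j
  by_cases hj : j = i
  · subst hj
    simp [hyf, hi]
  · have h1 : (j : ℕ) ≠ i := fun h => hj (Fin.ext h)
    unfold hyf
    by_cases h2 : (j : ℕ) < i ∧ ¬ IsN (c j)
    · rw [if_pos h2, if_pos ⟨by omega, h2.2⟩]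
    · rw [if_neg h2, if_neg]
      rintro ⟨h3, h4⟩
      exact h2 ⟨by omega, h4⟩

end

end Pool.Agent.Helper67.NX2

end

section

set_option autoImplicit false

open Finset

namespace Pool.Agent.Helper79.RG

open Pool.Agent.Helper44 Pool.Agent.Helper96.CPAP

theorem card_occ_prod' {k : ℕ} {b : Fin k → ℕ} (I : Finset ℕ) (hI : ∀ q ∈ I, PT b q) :
    ((range (∏ q ∈ I, q)).filter (fun n => ∀ q ∈ I, ∃ i, q ∣ n + b i)).card = k ^ I.card := by
  classical
  induction I using Finset.induction_on with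
  | empty => simp
  | insert q I hqI ih =>
    have hq := hI q (Finset.mem_insert_self _ _)
    have hI' : ∀ q ∈ I, PT b q := fun q' hq' => hI q' (Finset.mem_insert_of_mem hq')
    have hco : Nat.Coprime q (∏ q ∈ I, q) := by
      apply Nat.Coprime.prod_right
      intro q' hq'
      exact (Nat.coprime_primes hq.1 (hI' q' hq').1).mpr (fun h => hqI (h ▸ hq'))
    have hpos : 0 < ∏ q ∈ I, q := Finset.prod_pos fun q' hq' => (hI' q' hq').1.pos
    rw [Finset.prod_insert hqI, Finset.card_insert_of_notMem hqI, pow_succ, mul_comm (k ^ I.card),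
      ← ih hI']
    have e : ((range q).filter (fun n => ∃ i, q ∣ n + b i)).card = k := card_occ hq
    have h2 := card_crt hco hq.1.pos hpos (fun n => ∃ i, q ∣ n + b i)
      (fun n => ∀ q ∈ I, ∃ i, q ∣ n + b i) (fun n => occ_mod' n) (by
        intro n
        apply forall₂_congr
        intro q' hq'
        apply exists_congr
        intro i
        have hdvd : q' ∣ ∏ q ∈ I, q := Finset.dvd_prod_of_mem _ hq'
        have h : (n % ∏ q ∈ I, q) + b i ≡ n + b i [MOD q'] :=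
          Nat.ModEq.add_right _ ((Nat.mod_modEq n _).of_dvd hdvd)
        exact ⟨fun h' => (Nat.ModEq.dvd_iff h dvd_rfl).mp h',
          fun h' => (Nat.ModEq.dvd_iff h dvd_rfl).mpr h'⟩)
    rw [e] at h2
    rw [← h2]
    congr 1
    apply Finset.filter_congr
    intro n _
    rw [Finset.forall_mem_insert]

theorem count_bound' {k : ℕ} {b : Fin k → ℕ} (I : Finset ℕ) (hI : ∀ q ∈ I, PT b q) (N : ℕ) :
    |evCount (range N) (fun n => ∀ q ∈ I, ∃ i, q ∣ n + b i) -
      (N : ℝ) * ∏ q ∈ I, ((k : ℝ) / q)| ≤ 1 * ((k : ℝ) + 1) ^ I.card := by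
  classical
  have hpos : 0 < ∏ q ∈ I, q := Finset.prod_pos fun q' hq' => (hI q' hq').1.pos
  have hper : ∀ n, (∀ q ∈ I, ∃ i, q ∣ (n + ∏ q ∈ I, q) + b i) ↔
      (∀ q ∈ I, ∃ i, q ∣ n + b i) := by
    intro n
    apply forall₂_congr
    intro q' hq'
    apply exists_congr
    intro i
    have hdvd : q' ∣ ∏ q ∈ I, q := Finset.dvd_prod_of_mem _ hq'
    have h : (n + ∏ q ∈ I, q) + b i ≡ n + b i [MOD q'] := by
      apply Nat.ModEq.add_right
      have h1 : ∏ q ∈ I, q ≡ 0 [MOD q'] := (Nat.modEq_zero_iff_dvd).mpr hdvd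
      simpa using h1.add_left n
    exact ⟨fun h' => (Nat.ModEq.dvd_iff h dvd_rfl).mp h',
      fun h' => (Nat.ModEq.dvd_iff h dvd_rfl).mpr h'⟩
  have h1 := count_periodic_bound (p := fun n => ∀ q ∈ I, ∃ i, q ∣ n + b i) hpos hper N
  rw [Nat.count_eq_card_filter_range, Nat.count_eq_card_filter_range, card_occ_prod' I hI] at h1
  rw [evCount_eq, Finset.prod_div_distrib, Finset.prod_const]
  push_cast at h1
  refine h1.trans ?_
  rw [one_mul]
  exact pow_le_pow_left₀ (by (clear * -; positivity)) (by (clear * -; linarith)) _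

end Pool.Agent.Helper79.RG

end

section

set_option autoImplicit false

open Finset

open scoped BigOperators

namespace Pool.Agent.Helper57.NX3

noncomputable section

lemma FA_nonneg8 (z : ℕ) (A : Finset ℕ) (x : ℕ) : 0 ≤ FA z A x := by
  unfold FA
  split_ifs
  · exact lz_nonneg8 z
  · exact le_refl 0

lemma FA_le8 (z : ℕ) (A : Finset ℕ) (x : ℕ) : FA z A x ≤ Real.log ((2 : ℝ) ^ z) := by
  unfold FA
  split_ifs
  · exact le_refl _
  · exact lz_nonneg8 z

end

end Pool.Agent.Helper57.NX3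

end

section

set_option autoImplicit false

open Finset

open scoped BigOperators

namespace Pool.Agent.Helper57.NX3

noncomputable section

theorem sum_FA {z : ℕ} {A : Finset ℕ} (hA : PS z A) :
    ∑ x ∈ range (2 ^ z), FA z A x = Real.log ((2 : ℝ) ^ z) * A.card := by
  unfold FA
  rw [← Finset.sum_filter]
  have h : (range (2 ^ z)).filter (fun x => x ∈ A) = A := by
    ext x
    rw [Finset.mem_filter, Finset.mem_range]
    exact ⟨fun h => h.2, fun h => ⟨(hA x h).2, h⟩⟩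
  rw [h, Finset.sum_const, nsmul_eq_mul, mul_comm]

end

end Pool.Agent.Helper57.NX3

end

section

set_option autoImplicit false

open Finset

open scoped BigOperators ComplexConjugate

namespace Pool.Agent.Helper57.NX

noncomputable section

section

variable {N : ℕ} [NeZero N]

omit [NeZero N] in
theorem A_ofReal (L : ℕ) (g : ZMod N → ℝ) (x : ZMod N) :
    A L (fun y => (g y : ℂ)) x = ((AR L g x : ℝ) : ℂ) := by
  rw [A, AR, Finset.expect_eq_sum_div_card, Finset.expect_eq_sum_div_card]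
  push_cast
  rfl

end

section

variable {l : ℕ} (A' : Finset ℕ) (Q Z B : ℕ) (η : ℝ) [NeZero (Q * (2 * Z))]

theorem upper_k (hA : ∀ p ∈ A', p < Z) (hQ : 0 < Q) (a : Fin l → ℕ) (ha : ∀ i, a i ≤ Q * Z)
    (hno : ∀ e < Q, (e : ℝ) < η * Q → ∀ p ∈ A', ¬ ∀ i, p + (e + a i) / Q ∈ A') :
    ∑ y : ZMod (Q * (2 * Z)), g0A A' Q η y *
      ∏ i, gA A' Q (y + (a i : ZMod (Q * (2 * Z)))) = 0 := by
  refine Finset.sum_eq_zero fun y _ => ?_
  by_contra hne
  have h1 : g0A A' Q η y ≠ 0 := left_ne_zero_of_mul hne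
  have h2 : ∏ i, gA A' Q (y + (a i : ZMod (Q * (2 * Z)))) ≠ 0 := right_ne_zero_of_mul hne
  unfold g0A at h1
  split_ifs at h1 with h3
  · have h4 : y.val / Q ∈ A' := by
      by_contra h5
      exact h1 (if_neg h5)
    have hmod : y.val % Q < Q := Nat.mod_lt _ hQ
    refine hno (y.val % Q) hmod h3 (y.val / Q) h4 fun i => ?_
    have h6 : gA A' Q (y + (a i : ZMod (Q * (2 * Z)))) ≠ 0 :=
      (Finset.prod_ne_zero_iff.mp h2) i (Finset.mem_univ i)
    have h7 : (y + (a i : ZMod (Q * (2 * Z)))).val = y.val + a i := by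
      refine val_add_nat y (a i) ?_
      have h8 := hA _ h4
      have h9 := Nat.div_add_mod y.val Q
      have h10 : Q * (y.val / Q + 1) ≤ Q * Z := Nat.mul_le_mul_left Q h8
      rw [Nat.mul_succ] at h10
      have h11 : Q * (2 * Z) = Q * Z + Q * Z := by ring
      have := ha i
      omega
    unfold gA at h6
    rw [h7] at h6
    have h12 : (y.val + a i) / Q ∈ A' := by
      by_contra h13
      exact h6 (if_neg h13)
    have h14 : y.val + a i = Q * (y.val / Q) + (y.val % Q + a i) := by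
      have h9 := Nat.div_add_mod y.val Q
      omega
    rw [h14, Nat.mul_add_div hQ] at h12
    exact h12
  · exact h1 rfl

end

end

end Pool.Agent.Helper57.NX

end

section

set_option autoImplicit false

open Finset

open scoped BigOperators

namespace Pool.Agent.Helper57.NX3

open Pool.Agent.Helper67.NX2 (IsN sh nform IG Ex PrA BlkLen Fm)

noncomputable section

/-- the length of the windows -/
theorem window_len {β1 : ℕ} {xw : ℝ} (hxw : 0 < xw) (hxw1 : xw ≤ 1 / 8)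
    (hD : (4 : ℝ) ≤ (((2 ^ β1 : ℕ)) : ℝ) ^ (xw / 8)) :
    ∃ T W : ℕ, 2 ^ β1 = T * W ∧ 0 < T ∧ (T : ℝ) ≤ (((2 ^ β1 : ℕ)) : ℝ) ^ (1 - xw / 2) ∧
      (((2 ^ β1 : ℕ)) : ℝ) ^ (1 - xw) ≤ T := by
  have hDr1 : (1 : ℝ) ≤ ((2 ^ β1 : ℕ) : ℝ) := by exact_mod_cast Nat.one_le_two_pow
  have hDr0 : (0 : ℝ) < ((2 ^ β1 : ℕ) : ℝ) := by (clear * - hxw hxw1 hDr1; linarith)
  set a' := ⌊(β1 : ℝ) * (1 - xw / 2)⌋₊ with ha'
  have hx01 : 0 ≤ 1 - xw / 2 := by (clear * - hxw hxw1; linarith)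
  have ha'le : a' ≤ β1 := by
    rw [ha']
    refine Nat.floor_le_of_le ?_
    have : (0 : ℝ) ≤ β1 := Nat.cast_nonneg _
    (clear * - hxw; nlinarith)
  have hTf := two_pow_floor β1 (1 - xw / 2) hx01
  refine ⟨2 ^ a', 2 ^ (β1 - a'), ?_, by positivity, ?_, ?_⟩
  · rw [← pow_add]
    congr 1
    omega
  · rw [Nat.cast_pow 2 a', Nat.cast_ofNat]
    exact hTf.1
  · have h1 : (((2 ^ β1 : ℕ)) : ℝ) ^ (1 - xw / 2) / 2 ≤ ((2 ^ a' : ℕ) : ℝ) := by
      rw [Nat.cast_pow 2 a', Nat.cast_ofNat]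
      exact hTf.2
    refine le_trans ?_ h1
    rw [le_div_iff₀ (by norm_num)]
    have h2 : (((2 ^ β1 : ℕ)) : ℝ) ^ (1 - xw / 2) =
        (((2 ^ β1 : ℕ)) : ℝ) ^ (1 - xw) * (((2 ^ β1 : ℕ)) : ℝ) ^ (xw / 2) := by
      rw [← Real.rpow_add hDr0]
      congr 1
      ring
    rw [h2]
    refine mul_le_mul_of_nonneg_left ?_ (by positivity)
    calc (2 : ℝ) ≤ 4 := by norm_num
      _ ≤ (((2 ^ β1 : ℕ)) : ℝ) ^ (xw / 8) := hD
      _ ≤ _ := Real.rpow_le_rpow_of_exponent_le hDr1 (by (clear * - hxw; linarith))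

end

end Pool.Agent.Helper57.NX3

end

section

set_option autoImplicit false

open Finset

open scoped BigOperators ComplexConjugate

namespace Pool.Agent.Helper57.NX

noncomputable section

/-- the hybrid functions -/
def hyb {m N : ℕ} (f : Fin m → ZMod N → ℂ) (L : Fin m → ℕ) (t : ℕ) (i : Fin m) : ZMod N → ℂ :=
  if (i : ℕ) < t then A (L i) (f i) else f i

theorem hyb_zero {m N : ℕ} (f : Fin m → ZMod N → ℂ) (L : Fin m → ℕ) : hyb f L 0 = f := by
  funext i
  simp [hyb]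

theorem hyb_last {m N : ℕ} (f : Fin m → ZMod N → ℂ) (L : Fin m → ℕ) :
    hyb f L m = fun i => A (L i) (f i) := by
  funext i
  simp [hyb]

theorem hyb_self {m N : ℕ} (f : Fin m → ZMod N → ℂ) (L : Fin m → ℕ) (i : Fin m) :
    hyb f L i = Function.update (hyb f L i) i (f i) := by
  funext j
  by_cases hj : j = i
  · subst hj
    simp [hyb]
  · simp [hj]

theorem hyb_succ {m N : ℕ} (f : Fin m → ZMod N → ℂ) (L : Fin m → ℕ) (i : Fin m) :
    hyb f L (i + 1) = Function.update (hyb f L i) i (A (L i) (f i)) := by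
  funext j
  by_cases hj : j = i
  · subst hj
    simp [hyb]
  · have h1 : (j : ℕ) ≠ i := fun h => hj (Fin.ext h)
    rw [Function.update_of_ne hj]
    unfold hyb
    by_cases h2 : (j : ℕ) < i
    · rw [if_pos h2, if_pos (by omega)]
    · rw [if_neg h2, if_neg (by omega)]

end

end Pool.Agent.Helper57.NX

end

section

set_option autoImplicit false

open Finset

open scoped BigOperators ComplexConjugate

namespace Pool.Agent.Helper57.NX

noncomputable section

/-- the system -/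
def SS {l : ℕ} (D : ℕ) (c : Fin l → ℝ) : Sys l :=
  ⟨D, 0, D ^ 2, D, D, fun i => (D : ℝ) ^ (2 : ℝ) * (D : ℝ) ^ (c i)⟩

theorem SS_a {l : ℕ} {D : ℕ} (hD : 1 ≤ D) (c : Fin l → ℝ) (i : Fin l) (k : ℕ) :
    (SS D c).a c i k = ((aN (D ^ 2) (c i) k : ℕ) : ℤ) := by
  have hD0 : (0 : ℝ) < D := by exact_mod_cast hD
  have h1 : (SS D c).P i * ((SS D c).t k) ^ (c i) = ((D ^ 2 : ℕ) : ℝ) * (k : ℝ) ^ (c i) := by
    change ((D : ℝ) ^ (2 : ℝ) * (D : ℝ) ^ (c i)) * (((k : ℝ) + 0) / D) ^ (c i) = _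
    rw [add_zero, Real.div_rpow (Nat.cast_nonneg _) hD0.le, Real.rpow_two]
    push_cast
    have h2 : (D : ℝ) ^ (c i) ≠ 0 := (Real.rpow_pos_of_pos hD0 _).ne'
    field_simp
  unfold Sys.a aN
  rw [h1]
  exact (Int.natCast_floor_eq_floor (by (clear * - hD; positivity))).symm

end

end Pool.Agent.Helper57.NX

end

section

set_option autoImplicit false

open Finset

open scoped BigOperators

namespace Pool.Agent.Helper57.NX3

noncomputable section

namespace EnLe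

open Pool.Agent.Helper57.FP

/-- `t / φ(t)` and `Psi` -/
theorem div_totient_le {t : ℕ} (ht : 1 ≤ t) : (t : ℝ) / t.totient ≤ Psi 2 (t : ℤ) := by
  have hφ : (0 : ℝ) < t.totient := by exact_mod_cast Nat.totient_pos.2 ht
  rw [div_le_iff₀ hφ]
  have h1 := Nat.totient_eq_mul_prod_factors t
  have h2 : (t.totient : ℝ) = t * ∏ p ∈ t.primeFactors, (1 - (p : ℝ)⁻¹) := by
    have := congrArg (fun q : ℚ => (q : ℝ)) h1
    push_cast at this
    exact this
  rw [h2]
  unfold Psi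
  rw [Int.natAbs_natCast]
  have h3 : (∏ q ∈ t.primeFactors, (1 + 1 / (q : ℝ)) ^ 2) *
      (t * ∏ p ∈ t.primeFactors, (1 - (p : ℝ)⁻¹)) =
      t * ∏ q ∈ t.primeFactors, ((1 + 1 / (q : ℝ)) ^ 2 * (1 - (q : ℝ)⁻¹)) := by
    rw [prod_mul_distrib]
    ring
  rw [h3]
  refine le_mul_of_one_le_right (Nat.cast_nonneg _) ?_
  refine one_le_prod_real _ _ fun q hq => ?_
  exact by
    have hq2 : (2 : ℝ) ≤ q := by exact_mod_cast (Nat.prime_of_mem_primeFactors hq).two_le
    set u := (q : ℝ)⁻¹ with hu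
    have hu0 : 0 < u := by (clear * - hq2; positivity)
    have hu1 : u ≤ 1 / 2 := by
      rw [hu, inv_le_comm₀ (by (clear * - hq2; positivity)) (by positivity)]
      (clear * - hq2; linarith)
    rw [one_div, ← hu]
    have h4 : (1 + u) ^ 2 * (1 - u) = 1 + u * (1 - u - u ^ 2) := by ring
    rw [h4]
    have h5 : 0 ≤ 1 - u - u ^ 2 := by (clear * - hu0 hu1; nlinarith)
    have h6 := mul_nonneg hu0.le h5
    (clear * - h6; linarith)

end EnLe

end

end Pool.Agent.Helper57.NX3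

end

section

set_option autoImplicit false

open Finset

open scoped BigOperators

namespace Pool.Agent.Helper57.NX3

noncomputable section

/-- the good set -/
def GG (z : ℕ) (A : Finset ℕ) (M β : ℕ) (δ : ℝ) : Finset ℕ :=
  (range (2 ^ z)).filter fun x => x.Coprime M ∧
    δ / 4 ≤ (M.totient : ℝ) / M * cd (FA z A) M β x ∧ δ / 4 ≤ cd (FA z A) 1 β x

end

end Pool.Agent.Helper57.NX3

end

section

set_option autoImplicit false

open Finset

open scoped BigOperators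

namespace Pool.Agent.Helper57.NX3

open Pool.Agent.Helper57.NX (Sys Good form Adm exists_pos_lb)

open Pool.Agent.Helper67.NX2 (IsN sh nform IG Ex PrA BlkLen Fm)

noncomputable section

/-- the relation between the coarse and the fine modulus -/
def PMrel {s : ℕ} (d : Fin s → ℕ) (γ ε x0 τ V κ : ℝ) (K K' : ℕ) : Prop :=
  ∃ z0 : ℕ, ∀ z : ℕ, z0 ≤ z → ∀ A : Finset ℕ, PrA z A → ∀ (D : ℝ) (u T : ℕ),
    (2 : ℝ) ^ (τ * z) ≤ D → (∀ i, ((K : ℝ) * (3 * D)) ^ (d i) ≤ (2 : ℝ) ^ z) →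
    D ≤ u → (u : ℝ) + T ≤ 2 * D → D ^ (1 - x0) ≤ T →
    ∀ G : ℕ → ℝ, (∀ x, |G x| ≤ V) → (∀ x t : ℕ, |G (x + t) - G x| ≤ V * t / D ^ (γ - ε)) →
    ∀ b : Option (Fin s) → ℕ, BlkLen d γ ε D b →
    |nform d K u T (2 ^ z) G (fun _ => FA z A) -
      nform d K u T (2 ^ z) G (fun o => Fm (FA z A) K' (b o))| ≤ κ

/-- the statement of `primes_model` -/
def PrimesModel : Prop :=
  ∀ (s : ℕ) (d : Fin (s + 1) → ℕ) (_ : ∀ i, 2 ≤ d i)
    (_ : ∀ i j, i < j → d i + 2 ≤ d j) (γ ε : ℝ) (_ : 1 ≤ γ) (_ : γ ≤ d 0) (_ : 0 < ε)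
    (_ : ε ≤ 1 / 8),
    ∃ x0 : ℝ, 0 < x0 ∧ ∀ τ V κ : ℝ, 0 < τ → 1 ≤ V → 0 < κ → ∃ w0 : ℕ, ∀ w : ℕ, w0 ≤ w →
    ∀ K : ℕ, 1 ≤ K → (∀ p : ℕ, p.Prime → p ∣ K → p ≤ w) →
    ∃ K' : ℕ, 1 ≤ K' ∧ K ∣ K' ∧ (∀ p : ℕ, p.Prime → (p ∣ K' ↔ p ≤ w)) ∧
      PMrel d γ ε x0 τ V κ K K'

/-- the statement of `form_replace'` -/
def FormRep : Prop :=
  ∀ (m : ℕ) (c : Fin m → ℝ), Ex c →
    ∀ ε : ℝ, 0 < ε → ∃ x0 : ℝ, 0 < x0 ∧ ∃ σ : ℝ, 0 < σ ∧ ∀ lam : ℕ, ∃ D0 : ℝ,
    ∀ (S : Sys m) (N : ℕ) [NeZero N], D0 ≤ S.D → IG S c N x0 lam →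
    ∀ (f0 : ZMod N → ℂ) (f : Fin m → ZMod N → ℂ), Adm 8 S.Q f0 → (∀ i, Adm 8 S.Q (f i)) →
    ∀ L : Fin m → ℕ, (∀ i, 1 ≤ L i ∧ (L i : ℝ) ≤ S.P i * S.D ^ (-ε)) →
    ‖form S c 1 f0 f - form S c 1 f0 (fun i x => (open scoped Classical in
      if IsN (c i) then f i x else NX.A (L i) (f i) x))‖ ≤ S.D ^ (-σ)

end

end Pool.Agent.Helper57.NX3

end
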