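import Pool.Agent.Helper23.MC.L00_a0
import Pool.Agent.Helper23.MC.L00_a1
import Pool.Agent.Helper23.MC.L00_a10
import Pool.Agent.Helper23.MC.L00_a11
import Pool.Agent.Helper23.MC.L00_a12
import Pool.Agent.Helper23.MC.L00_a13

/-!
Parts of Helper57.NX.Defs, Helper5.NX.Basic, Helper85.NX.Form, Helper55.NX2.AqBasic, Helper87.NX2.Dil, Helper87.NX.DlA, Helper88.NX.DlB, Helper41.NX.TTStar, Helper40.NX2.IGBasic, Helper82.NX.GncB, Helper61.NX.Four, Helper61.NX.Step, Helper81.NX2.CharRepA, Helper61.NX.DsOfUs, Helper15.NX2.TopArithOf, Helper60.NX2.DlB, Helper94.NX2.LowAux, Helper94.NX2.LowStep, Helper21.NX2.ZeroAux, Helper21.NX2.ZeroArithOf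
-/

attribute [local instance 5000]
  Pool.Agent.Helper23.MC.Inst.rCharZero Pool.Agent.Helper23.MC.Inst.rALM
  Pool.Agent.Helper23.MC.Inst.rARM Pool.Agent.Helper23.MC.Inst.rALSM
  Pool.Agent.Helper23.MC.Inst.rARSM Pool.Agent.Helper23.MC.Inst.rARRLE
  Pool.Agent.Helper23.MC.Inst.rALRLE Pool.Agent.Helper23.MC.Inst.rARRLT
  Pool.Agent.Helper23.MC.Inst.rALRLT Pool.Agent.Helper23.MC.Inst.rPMRLT
  Pool.Agent.Helper23.MC.Inst.rMPRLT Pool.Agent.Helper23.MC.Inst.rPMM
  Pool.Agent.Helper23.MC.Inst.rMPM Pool.Agent.Helper23.MC.Inst.rPMSM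
  Pool.Agent.Helper23.MC.Inst.rMPSM Pool.Agent.Helper23.MC.Inst.rEAOL
  Pool.Agent.Helper23.MC.Inst.rIOR Pool.Agent.Helper23.MC.Inst.rISOR
  Pool.Agent.Helper23.MC.Inst.rNZD Pool.Agent.Helper23.MC.Inst.rcCharZero
  Pool.Agent.Helper23.MC.Inst.rcNZD Pool.Agent.Helper23.MC.Inst.zCharZero
  Pool.Agent.Helper23.MC.Inst.zALM Pool.Agent.Helper23.MC.Inst.zARM
  Pool.Agent.Helper23.MC.Inst.zALSM Pool.Agent.Helper23.MC.Inst.zARSM
  Pool.Agent.Helper23.MC.Inst.zIOR Pool.Agent.Helper23.MC.Inst.zISOR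
  Pool.Agent.Helper23.MC.Inst.zNZD Pool.Agent.Helper23.MC.Inst.qCharZero
  Pool.Agent.Helper23.MC.Inst.mR Pool.Agent.Helper23.MC.Inst.mC Pool.Agent.Helper23.MC.Inst.mRC
  Pool.Agent.Helper23.MC.Inst.rPSM Pool.Agent.Helper23.MC.Inst.rCSM
  Pool.Agent.Helper23.MC.Inst.cAdd Pool.Agent.Helper23.MC.Inst.cAddM
  Pool.Agent.Helper23.MC.Inst.cMul Pool.Agent.Helper23.MC.Inst.cMon

namespace Pool.Agent.Helper57.NX
end Pool.Agent.Helper57.NX

section

set_option autoImplicit false

open Finset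

open scoped BigOperators ComplexConjugate

namespace Pool.Agent.Helper57.NX

noncomputable section

namespace Sys

variable {m : ℕ}

/-- forget the last sequence -/
def init {m : ℕ} (S : Sys (m + 1)) : Sys m := ⟨S.D, S.ρ, S.Q, S.u, S.T, fun i => S.P i.castSucc⟩

end Sys

/-- dual function at position `i` -/
def dual {m N : ℕ} [NeZero N] (S : Sys m) (c : Fin m → ℝ) (h : ℕ → ℂ) (f0 : ZMod N → ℂ)
    (f : Fin m → ZMod N → ℂ) (i : Fin m) (x : ZMod N) : ℂ :=
  𝔼 k ∈ S.I, h k * (f0 (x - (S.a c i k : ZMod N)) *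
    ∏ j ∈ univ.erase i, f j (x - (S.a c i k : ZMod N) + (S.a c j k : ZMod N)))

end

end Pool.Agent.Helper57.NX

end

section

set_option autoImplicit false

open Finset

open scoped BigOperators ComplexConjugate

namespace Pool.Agent.Helper57.NX

noncomputable section

theorem e_zero : e 0 = 1 := by simp [e]

theorem e_neg (t : ℝ) : e (-t) = conj (e t) := by
  unfold e
  rw [← Complex.exp_conj, map_mul, map_mul, map_mul, Complex.conj_I, Complex.conj_ofReal,
    Complex.conj_ofReal, map_ofNat]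
  congr 1
  push_cast
  ring

/-- lower bound for `|1 - e θ|` -/
theorem four_mul_abs_le (θ : ℝ) (h : |θ| ≤ 1 / 2) : 4 * |θ| ≤ ‖1 - e θ‖ := by
  rw [norm_sub_rev, norm_e_sub_one, norm_mul, Real.norm_eq_abs, Real.norm_eq_abs,
    abs_of_pos (by norm_num : (0 : ℝ) < 2)]
  have h1 : |Real.sin (Real.pi * θ)| = |Real.sin (Real.pi * |θ|)| := by
    rcases abs_cases θ with ⟨h0, -⟩ | ⟨h0, -⟩
    · rw [h0]
    · rw [h0, mul_neg, Real.sin_neg, abs_neg]
  have h2 : 2 / Real.pi * (Real.pi * |θ|) ≤ Real.sin (Real.pi * |θ|) :=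
    Real.mul_le_sin (by (clear * -; positivity)) (by (clear * - h; nlinarith [Real.pi_pos]))
  have h3 : 2 / Real.pi * (Real.pi * |θ|) = 2 * |θ| := by
    have := Real.pi_ne_zero
    field_simp
  rw [h3] at h2
  rw [h1]
  have h4 := le_abs_self (Real.sin (Real.pi * |θ|))
  (clear * - h2 h4; linarith)

section Basic

variable {N : ℕ} [NeZero N]

theorem expect_shift_sub5 {M : Type} [AddCommMonoid M] [Module ℚ≥0 M] (f : ZMod N → M)
    (t : ZMod N) : 𝔼 x, f (x - t) = 𝔼 x, f x := by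
  simp only [sub_eq_add_neg]
  exact expect_shift f (-t)

omit [NeZero N] in
theorem TV.rhs_nonneg5 {B X : ℝ} {f : ZMod N → ℂ} (h : TV B X f) (l : ℕ) :
    0 ≤ B * (l / X + 1) :=
  (sum_nonneg fun _ _ => norm_nonneg _).trans (h 0 l)

theorem TV.smul {B X : ℝ} {f : ZMod N → ℂ} (h : TV B X f) (z : ℂ) :
    TV (‖z‖ * B) X (fun x => z * f x) := by
  intro x l
  simp only [← mul_sub, norm_mul]
  rw [← mul_sum, mul_assoc]
  exact mul_le_mul_of_nonneg_left (h x l) (norm_nonneg _)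

theorem Adm.mul {B B' X : ℝ} {f g : ZMod N → ℂ} (h : Adm B X f) (h' : Adm B' X g) :
    Adm (B + B') X (fun x => f x * g x) := by
  refine ⟨fun x => ?_, fun x l => ?_⟩
  · rw [norm_mul]
    exact mul_le_one₀ (h.bdd x) (norm_nonneg _) (h'.bdd x)
  · rw [add_mul]
    refine le_trans ?_ (add_le_add (h.tv x l) (h'.tv x l))
    rw [← sum_add_distrib]
    refine sum_le_sum fun j _ => ?_
    set y := x + (j : ZMod N)
    have e1 : f (y + 1) * g (y + 1) - f y * g y
        = (f (y + 1) - f y) * g (y + 1) + f y * (g (y + 1) - g y) := by ring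
    rw [e1]
    refine (norm_add_le _ _).trans ?_
    rw [norm_mul, norm_mul]
    have h1 := mul_le_mul_of_nonneg_left (h'.bdd (y + 1)) (norm_nonneg (f (y + 1) - f y))
    have h2 := mul_le_mul_of_nonneg_right (h.bdd y) (norm_nonneg (g (y + 1) - g y))
    (clear * - h1 h2; linarith)

theorem Adm.prod {ι : Type} (s : Finset ι) {B : ι → ℝ} {X : ℝ} {f : ι → ZMod N → ℂ} (hX : 0 < X)
    (h : ∀ i ∈ s, Adm (B i) X (f i)) : Adm (∑ i ∈ s, B i) X (fun x => ∏ i ∈ s, f i x) := by
  classical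
  induction s using Finset.induction_on with
  | empty =>
    refine ⟨fun x => by simp, fun x l => by simp⟩
  | insert i s hi ih =>
    simp only [prod_insert hi, sum_insert hi]
    exact (h i (mem_insert_self _ _)).mul (ih fun j hj => h j (mem_insert_of_mem hj))

omit [NeZero N] in
theorem abel5 (f : ZMod N → ℂ) (x : ZMod N) (θ : ℝ) (L : ℕ) :
    (1 - e (-θ)) * ∑ t ∈ range L, f (x + (t : ZMod N)) * e (-(θ * t)) =
      f x - f (x + (L : ZMod N)) * e (-(θ * L)) +
        ∑ t ∈ range L, (f (x + (t : ZMod N) + 1) - f (x + (t : ZMod N))) * e (-(θ * (t + 1))) := by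
  induction L with
  | zero => simp [e_zero]
  | succ L ih =>
    rw [sum_range_succ, sum_range_succ, mul_add, ih]
    have h1 : e (-(θ * ((L : ℝ) + 1))) = e (-(θ * L)) * e (-θ) := by
      rw [← e_add]; congr 1; ring
    push_cast
    rw [h1, add_assoc x (L : ZMod N) 1]
    ring

/-- high frequencies are invisible for functions of small variation -/
theorem freq_bound {f : ZMod N → ℂ} (hf : ∀ x, ‖f x‖ ≤ 1) (x : ZMod N) (L : ℕ) (hL : 1 ≤ L)
    (θ : ℝ) (h0 : 0 < |θ|) (h1 : |θ| ≤ 1 / 2) :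
    ‖𝔼 t ∈ range L, f (x + (t : ZMod N)) * e (-(θ * t))‖ ≤
      (2 + ∑ j ∈ range L, ‖f (x + (j : ZMod N) + 1) - f (x + (j : ZMod N))‖) / (4 * |θ| * L) := by
  have hL0 : (0 : ℝ) < L := by exact_mod_cast hL
  rw [expect_eq_sum_div_card, card_range, norm_div, Complex.norm_natCast,
    div_le_div_iff₀ hL0 (by (clear * - h0 hL; positivity))]
  have h2 := four_mul_abs_le (-θ) (by rwa [abs_neg])
  rw [abs_neg] at h2
  have h3 := congrArg norm (abel5 f x θ L)
  rw [norm_mul] at h3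
  have h4 : ‖f x - f (x + (L : ZMod N)) * e (-(θ * L)) +
        ∑ t ∈ range L, (f (x + (t : ZMod N) + 1) - f (x + (t : ZMod N))) * e (-(θ * (t + 1)))‖ ≤
      2 + ∑ j ∈ range L, ‖f (x + (j : ZMod N) + 1) - f (x + (j : ZMod N))‖ := by
    refine (norm_add_le _ _).trans (add_le_add ?_ ?_)
    · refine (norm_sub_le _ _).trans ?_
      rw [norm_mul, norm_e, mul_one]
      (clear * - hf; linarith [hf x, hf (x + (L : ZMod N))])
    · refine (norm_sum_le _ _).trans (le_of_eq (sum_congr rfl fun j _ => ?_))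
      rw [norm_mul, norm_e, mul_one]
  have h5 : 4 * |θ| * ‖∑ t ∈ range L, f (x + (t : ZMod N)) * e (-(θ * t))‖ ≤
      2 + ∑ j ∈ range L, ‖f (x + (j : ZMod N) + 1) - f (x + (j : ZMod N))‖ := by
    refine le_trans ?_ h4
    rw [← h3]
    exact mul_le_mul_of_nonneg_right h2 (norm_nonneg _)
  calc _ = (4 * |θ| * ‖∑ t ∈ range L, f (x + (t : ZMod N)) * e (-(θ * t))‖) * L := by ring
    _ ≤ _ := mul_le_mul_of_nonneg_right h5 hL0.le

end Basic

end

end Pool.Agent.Helper57.NX

end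

section

set_option autoImplicit false

open Finset

open scoped BigOperators ComplexConjugate

namespace Pool.Agent.Helper57.NX

noncomputable section

section Form

variable {m N : ℕ} [NeZero N]

lemma prod_update (S : Sys m) (c : Fin m → ℝ) (f : Fin m → ZMod N → ℂ) (i : Fin m)
    (u : ZMod N → ℂ) (k : ℕ) (x : ZMod N) :
    ∏ j, Function.update f i u j (x + (S.a c j k : ZMod N)) =
      u (x + (S.a c i k : ZMod N)) * ∏ j ∈ univ.erase i, f j (x + (S.a c j k : ZMod N)) := by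
  rw [← Finset.mul_prod_erase univ _ (mem_univ i), Function.update_self]
  congr 1
  refine Finset.prod_congr rfl fun j hj => ?_
  rw [Function.update_of_ne (ne_of_mem_erase hj)]

lemma form_update (S : Sys m) (c : Fin m → ℝ) (h : ℕ → ℂ) (f0 : ZMod N → ℂ)
    (f : Fin m → ZMod N → ℂ) (i : Fin m) (u : ZMod N → ℂ) :
    form S c h f0 (Function.update f i u) =
      𝔼 k ∈ S.I, h k * 𝔼 x : ZMod N, u (x + (S.a c i k : ZMod N)) *
        (f0 x * ∏ j ∈ univ.erase i, f j (x + (S.a c j k : ZMod N))) := by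
  unfold form
  refine Finset.expect_congr rfl fun k _ => ?_
  congr 1
  refine Finset.expect_congr rfl fun x _ => ?_
  rw [prod_update]
  ring

theorem form_update_add (S : Sys m) (c : Fin m → ℝ) (h : ℕ → ℂ) (f0 : ZMod N → ℂ)
    (f : Fin m → ZMod N → ℂ) (i : Fin m) (u v : ZMod N → ℂ) :
    form S c h f0 (Function.update f i (fun x => u x + v x)) =
      form S c h f0 (Function.update f i u) + form S c h f0 (Function.update f i v) := by
  rw [form_update, form_update, form_update, ← Finset.expect_add_distrib]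
  refine Finset.expect_congr rfl fun k _ => ?_
  rw [← mul_add, ← Finset.expect_add_distrib]
  congr 1
  refine Finset.expect_congr rfl fun x _ => ?_
  ring

theorem form_update_smul (S : Sys m) (c : Fin m → ℝ) (h : ℕ → ℂ) (f0 : ZMod N → ℂ)
    (f : Fin m → ZMod N → ℂ) (i : Fin m) (z : ℂ) (u : ZMod N → ℂ) :
    form S c h f0 (Function.update f i (fun x => z * u x)) =
      z * form S c h f0 (Function.update f i u) := by
  rw [form_update, form_update, Finset.mul_expect (M := ℂ)]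
  refine Finset.expect_congr rfl fun k _ => ?_
  rw [mul_left_comm z (h k), Finset.mul_expect _ _ z]
  congr 1
  refine Finset.expect_congr rfl fun x _ => ?_
  ring

theorem form_dual (S : Sys m) (c : Fin m → ℝ) (h : ℕ → ℂ) (f0 : ZMod N → ℂ)
    (f : Fin m → ZMod N → ℂ) (i : Fin m) (u : ZMod N → ℂ) :
    form S c h f0 (Function.update f i u) = 𝔼 x, u x * dual S c h f0 f i x := by
  have e1 : ∀ k : ℕ, (𝔼 x : ZMod N, u (x + (S.a c i k : ZMod N)) *
        (f0 x * ∏ j ∈ univ.erase i, f j (x + (S.a c j k : ZMod N)))) =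
      𝔼 x : ZMod N, u x * (f0 (x - (S.a c i k : ZMod N)) *
        ∏ j ∈ univ.erase i, f j (x - (S.a c i k : ZMod N) + (S.a c j k : ZMod N))) := by
    intro k
    rw [← exp_shift (fun x => u x * (f0 (x - (S.a c i k : ZMod N)) *
        ∏ j ∈ univ.erase i, f j (x - (S.a c i k : ZMod N) + (S.a c j k : ZMod N))))
        (S.a c i k : ZMod N)]
    refine Finset.expect_congr rfl fun x _ => ?_
    rw [add_sub_cancel_right]
  rw [form_update]
  simp_rw [e1]
  unfold dual
  simp_rw [Finset.mul_expect]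
  rw [Finset.expect_comm]
  refine Finset.expect_congr rfl fun x _ => ?_
  refine Finset.expect_congr rfl fun k _ => ?_
  ring

theorem norm_dual_le (S : Sys m) (c : Fin m → ℝ) (h : ℕ → ℂ) (hh : ∀ k, ‖h k‖ ≤ 1)
    (f0 : ZMod N → ℂ) (hf0 : ∀ x, ‖f0 x‖ ≤ 1)
    (f : Fin m → ZMod N → ℂ) (i : Fin m) (hf : ∀ j, j ≠ i → ∀ x, ‖f j x‖ ≤ 1) (x : ZMod N) :
    ‖dual S c h f0 f i x‖ ≤ 1 := by
  unfold dual
  refine (RCLike.norm_expect_le (K := ℂ)).trans (expect_le_of_nonneg _ _ _ zero_le_one fun k _ => ?_)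
  rw [norm_mul, norm_mul]
  refine mul_le_one₀ (hh k) (by positivity) ?_
  refine mul_le_one₀ (hf0 _) (norm_nonneg _) ?_
  exact norm_prod_le _ _ (fun j hj => hf j (ne_of_mem_erase hj)) _

end Form

end

end Pool.Agent.Helper57.NX

end

section

set_option autoImplicit false

open Finset

open scoped BigOperators ComplexConjugate

namespace Pool.Agent.Helper67.NX2

open Pool.Agent.Helper57.NX

noncomputable section

section AqBasic

variable {N : ℕ} [NeZero N]

omit [NeZero N] in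
theorem norm_Aq_le {f : ZMod N → ℂ} (hf : ∀ x, ‖f x‖ ≤ 1) (st L : ℕ) (x : ZMod N) :
    ‖Aq st L f x‖ ≤ 1 := norm_expect_le_of5 _ _ zero_le_one fun _ _ => hf _

omit [NeZero N] in
theorem norm_Aqb_le {f : ZMod N → ℂ} (hf : ∀ x, ‖f x‖ ≤ 1) (st L : ℕ) (x : ZMod N) :
    ‖Aqb st L f x‖ ≤ 1 := norm_expect_le_of5 _ _ zero_le_one fun _ _ => hf _

omit [NeZero N] in
theorem Aq_comm (st st' L L' : ℕ) (f : ZMod N → ℂ) :
    Aq st L (Aq st' L' f) = Aq st' L' (Aq st L f) := by
  funext x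
  unfold Aq
  rw [expect_comm]
  refine expect_congr rfl fun a _ => expect_congr rfl fun b _ => ?_
  rw [add_right_comm]

omit [NeZero N] in
theorem Aq_sub (st L : ℕ) (f g : ZMod N → ℂ) :
    Aq st L (fun x => f x - g x) = fun x => Aq st L f x - Aq st L g x := by
  funext x
  exact expect_sub_distrib _ _ _

theorem adj_Aq (st L : ℕ) (f g : ZMod N → ℂ) :
    𝔼 x, Aq st L f x * g x = 𝔼 x, f x * Aqb st L g x := by
  unfold Aq Aqb
  simp only [expect_mul, mul_expect]
  rw [expect_comm, expect_comm (s := univ) (t := range L)]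
  refine expect_congr rfl fun a _ => ?_
  rw [← expect_shift (fun x => f x * g (x - ((st * a : ℕ) : ZMod N))) ((st * a : ℕ) : ZMod N)]
  refine expect_congr rfl fun x _ => ?_
  rw [add_sub_cancel_right]

omit [NeZero N] in
/-- backward averages are translates of forward averages -/
theorem Aqb_eq (st L : ℕ) (hL : 1 ≤ L) (f : ZMod N → ℂ) (x : ZMod N) :
    Aqb st L f x = Aq st L f (x - ((st * (L - 1) : ℕ) : ZMod N)) := by
  unfold Aq Aqb
  rw [expect_eq_sum_div_card, expect_eq_sum_div_card]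
  congr 1
  rw [← Finset.sum_range_reflect]
  refine sum_congr rfl fun a ha => ?_
  have ha' := mem_range.1 ha
  congr 1
  have h1 : st * (L - 1) = st * (L - 1 - a) + st * a := by
    rw [← mul_add]
    congr 1
    omega
  rw [h1]
  push_cast
  ring

omit [NeZero N] in
theorem norm_Aq_step5 {f : ZMod N → ℂ} (hf : ∀ x, ‖f x‖ ≤ 1) (st L : ℕ) (x : ZMod N) :
    ‖Aq st L f (x + (st : ZMod N)) - Aq st L f x‖ ≤ 2 / L := by
  have h0 : Aq st L f (x + (st : ZMod N)) - Aq st L f x =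
      (f (x + ((st * L : ℕ) : ZMod N)) - f x) / L := by
    unfold Aq
    rw [← expect_sub_distrib, expect_eq_sum_div_card, card_range]
    congr 1
    have h := Finset.sum_range_sub (fun a : ℕ => f (x + ((st * a : ℕ) : ZMod N))) L
    simp only [Nat.mul_zero, Nat.cast_zero, add_zero] at h
    rw [← h]
    refine sum_congr rfl fun a _ => ?_
    congr 2
    push_cast
    ring
  rw [h0, norm_div, Complex.norm_natCast]
  refine div_le_div_of_nonneg_right ?_ (Nat.cast_nonneg _)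
  refine (norm_sub_le _ _).trans ?_
  have h1 := hf (x + ((st * L : ℕ) : ZMod N))
  have h2 := hf x
  (clear * - h1 h2; linarith)

omit [NeZero N] in
theorem Aq_lipschitz {f : ZMod N → ℂ} (hf : ∀ x, ‖f x‖ ≤ 1) (st L : ℕ) (hL : 1 ≤ L) (x : ZMod N)
    (t : ℤ) : ‖Aq st L f (x + ((st * t : ℤ) : ZMod N)) - Aq st L f x‖ ≤ 2 * |(t : ℝ)| / L := by
  refine (norm_shift_st5 st (norm_Aq_step5 hf st L) x t).trans (le_of_eq ?_)
  ring

omit [NeZero N] in
/-- averages of averages -/
theorem Aq_Aq_sub5 {f : ZMod N → ℂ} (hf : ∀ x, ‖f x‖ ≤ 1) (st L L' : ℕ) (hL : 1 ≤ L) (hL' : 1 ≤ L')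
    (x : ZMod N) : ‖Aq st L (Aq st L' f) x - Aq st L' f x‖ ≤ 2 * L / L' := by
  have h1 : Aq st L (Aq st L' f) x - Aq st L' f x
      = 𝔼 a ∈ range L, (Aq st L' f (x + ((st * a : ℕ) : ZMod N)) - Aq st L' f x) := by
    rw [expect_sub_distrib, expect_const (nonempty_range_iff.2 (by omega))]
    rfl
  rw [h1]
  refine norm_expect_le_of5 _ _ (by (clear * - hL hL'; positivity)) fun a ha => ?_
  have h2 := Aq_lipschitz hf st L' hL' x (a : ℤ)
  have h3 : (a : ℝ) ≤ L := by exact_mod_cast (mem_range.1 ha).le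
  have e1 : (((st : ℤ) * (a : ℤ) : ℤ) : ZMod N) = ((st * a : ℕ) : ZMod N) := by push_cast; rfl
  rw [e1] at h2
  simp only [Int.cast_natCast, Nat.abs_cast] at h2
  refine h2.trans ?_
  exact div_le_div_of_nonneg_right (by (clear * - h3; linarith)) (Nat.cast_nonneg _)

omit [NeZero N] in
theorem Aq_small {f : ZMod N → ℂ} (hf : ∀ x, ‖f x‖ ≤ 1) (st L L' : ℕ) (hL : 1 ≤ L) (hL' : 1 ≤ L')
    (x : ZMod N) : ‖Aq st L (fun y => f y - Aq st L' f y) x‖ ≤ 2 * L' / L := by
  rw [Aq_sub, Aq_comm, norm_sub_rev]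
  exact Aq_Aq_sub5 hf st L' L hL' hL x

omit [NeZero N] in
theorem Adm.aq {B X : ℝ} {f : ZMod N → ℂ} (h : Adm B X f) (st L : ℕ) : Adm B X (Aq st L f) := by
  refine ⟨norm_Aq_le h.bdd st L, ?_⟩
  intro x l
  refine sum_expect_le5 (range L) (fun a y => f (y + ((st * a : ℕ) : ZMod N)))
    (h.tv.rhs_nonneg5 l) x l fun a _ => ?_
  refine le_trans (le_of_eq ?_) (h.tv (x + ((st * a : ℕ) : ZMod N)) l)
  refine sum_congr rfl fun j _ => ?_
  congr 3 <;> ring

omit [NeZero N] in
theorem Adm.aqb {B X : ℝ} {f : ZMod N → ℂ} (h : Adm B X f) (st L : ℕ) :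
    Adm B X (Aqb st L f) := by
  refine ⟨norm_Aqb_le h.bdd st L, ?_⟩
  intro x l
  refine sum_expect_le5 (range L) (fun a y => f (y - ((st * a : ℕ) : ZMod N)))
    (h.tv.rhs_nonneg5 l) x l fun a _ => ?_
  refine le_trans (le_of_eq ?_) (h.tv (x - ((st * a : ℕ) : ZMod N)) l)
  refine sum_congr rfl fun j _ => ?_
  congr 3 <;> ring

end AqBasic

end

end Pool.Agent.Helper67.NX2

end

section

set_option autoImplicit false

open Finset

open scoped BigOperators ComplexConjugate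

namespace Pool.Agent.Helper67.NX2

open Pool.Agent.Helper57.NX

noncomputable section

variable {m : ℕ}

theorem dil87_Dpos (S : Sys m) (c : Fin m → ℝ) (q r0 u' T' : ℕ) (hu : 1 ≤ u') :
    0 < (dil S c q r0 u' T').D := by
  have h1 : (1 : ℝ) ≤ (u' : ℝ) := by exact_mod_cast hu
  have h2 : (0 : ℝ) ≤ (T' : ℝ) := Nat.cast_nonneg _
  show 0 < ((u' : ℝ) + T') / 2
  linarith

theorem dil_t (S : Sys m) (c : Fin m → ℝ) (q r0 u' T' k : ℕ) (hq : 1 ≤ q) (hu : 1 ≤ u')
    (hD : 0 < S.D) : (q * (dil S c q r0 u' T').D / S.D) * (dil S c q r0 u' T').t k =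
      S.t (q * k + r0) := by
  have hD' := dil87_Dpos S c q r0 u' T' hu
  have hq' : (0 : ℝ) < (q : ℝ) := by exact_mod_cast hq
  have e1 : (dil S c q r0 u' T').ρ = (r0 + S.ρ) / q := rfl
  unfold Sys.t
  rw [e1]
  push_cast
  field_simp
  ring

theorem dil87_tnonneg (S : Sys m) (c : Fin m → ℝ) (q r0 u' T' k : ℕ) (hu : 1 ≤ u')
    (hρ : 0 ≤ S.ρ) : 0 ≤ (dil S c q r0 u' T').t k := by
  have hD' := dil87_Dpos S c q r0 u' T' hu
  have e1 : (dil S c q r0 u' T').ρ = (r0 + S.ρ) / q := rfl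
  unfold Sys.t
  rw [e1]
  (clear * - hρ hD'; positivity)

/-- `P_i t^(c_i)` is unchanged -/
theorem dil_Pt (S : Sys m) (c : Fin m → ℝ) (q r0 u' T' k : ℕ) (hq : 1 ≤ q) (hu : 1 ≤ u')
    (hD : 0 < S.D) (hρ : 0 ≤ S.ρ) (i : Fin m) :
    (dil S c q r0 u' T').P i * (dil S c q r0 u' T').t k ^ (c i) =
      S.P i * S.t (q * k + r0) ^ (c i) := by
  have hD' := dil87_Dpos S c q r0 u' T' hu
  have hq' : (0 : ℝ) < (q : ℝ) := by exact_mod_cast hq
  have e2 : (dil S c q r0 u' T').P i = S.P i * (q * (dil S c q r0 u' T').D / S.D) ^ (c i) := rfl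
  rw [← dil_t S c q r0 u' T' k hq hu hD, e2,
    Real.mul_rpow (by (clear * - hq hD' hD; positivity)) (dil87_tnonneg S c q r0 u' T' k hu hρ)]
  ring

theorem dil_a (S : Sys m) (c : Fin m → ℝ) (q r0 u' T' k : ℕ) (hq : 1 ≤ q) (hu : 1 ≤ u')
    (hD : 0 < S.D) (hρ : 0 ≤ S.ρ) (i : Fin m) :
    (dil S c q r0 u' T').a c i k = S.a c i (q * k + r0) := by
  unfold Sys.a
  rw [dil_Pt S c q r0 u' T' k hq hu hD hρ i]

end

end Pool.Agent.Helper67.NX2

end

section

set_option autoImplicit false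

open Finset

open scoped BigOperators ComplexConjugate

namespace Pool.Agent.Helper57.NX

noncomputable section

section dla_cube

variable {N : ℕ} {k : ℕ}

theorem dla_cjj_e (ω : Fin k → Bool) (t : ℝ) : cjj ω (e t) = e (sg ω * t) := by
  unfold cjj sg
  split_ifs
  · rw [one_mul]
  · rw [← e_neg, neg_one_mul]

end dla_cube

end

end Pool.Agent.Helper57.NX

end

section

set_option autoImplicit false

set_option linter.unusedSectionVars false

set_option linter.unusedVariables false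

open Finset

open scoped BigOperators ComplexConjugate

namespace Pool.Agent.Helper57.NX

noncomputable section

theorem db_e_sum {ι : Type} (s : Finset ι) (g : ι → ℝ) :
    e (∑ i ∈ s, g i) = ∏ i ∈ s, e (g i) := by
  classical
  induction s using Finset.induction_on with
  | empty => simp [e_zero]
  | insert i s hi ih => rw [sum_insert hi, prod_insert hi, e_add, ih]

section point

variable {N : ℕ} [NeZero N]

theorem db_point (k : ℕ) (hk : 1 ≤ k) (X' : ℕ) (hX' : 1 ≤ X') (V : ZMod N → ℂ)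
    (hV : ∀ x, ‖V x‖ ≤ 1) (θ : (Fin k → ℕ) → ℝ) (a' b : Fin k → ℕ) (w : ℝ) (x : ZMod N) :
    ‖𝔼 a ∈ boxset k X', cube V a b x *
        e ((∑ ω ∈ univ.erase (fun _ : Fin k => false), sg ω * θ (sel ω a a')) * w)‖ ^ (2 ^ k)
      ≤ (𝔼 a ∈ boxset k X', 𝔼 a'' ∈ boxset k X', cube V a a'' x).re := by
  classical
  have hne : ∀ i : Fin k, (range X').Nonempty := fun _ => by simpa using (by omega : X' ≠ 0)
  set Z : Finset (Fin k → Bool) := univ.erase (fun _ : Fin k => false) with hZ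
  -- the index of a nonzero `ω`
  have hidx : ∀ ω : Fin k → Bool, ∃ i : Fin k, ω ∈ Z → ω i = true := by
    intro ω
    by_cases h : ω ∈ Z
    · have h1 : ω ≠ fun _ => false := by
        rw [hZ] at h
        exact (mem_erase.mp h).1
      obtain ⟨i, hi⟩ := Function.ne_iff.mp h1
      exact ⟨i, fun _ => by simpa using hi⟩
    · exact ⟨⟨0, hk⟩, fun h' => absurd h' h⟩
  choose idx hidx using hidx
  set H : (Fin k → Bool) → (Fin k → ℕ) → ℂ := fun ω a =>
    cjj ω (V (x + (tot (sel ω a b) : ZMod N))) * e (sg ω * θ (sel ω a a') * w) with hH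
  have hcjj : ∀ (ω : Fin k → Bool) (z : ℂ), ‖cjj ω z‖ = ‖z‖ := by
    intro ω z
    unfold cjj
    split_ifs <;> simp
  exact by
    have hH1 : ∀ ω a, ‖H ω a‖ ≤ 1 := by
      intro ω a
      rw [hH]
      simp only [norm_mul, norm_e, mul_one, hcjj]
      exact hV _
    have hHdep : ∀ ω ∈ Z, ∀ a a₂ : Fin k → ℕ, (∀ i, i ≠ idx ω → a i = a₂ i) → H ω a = H ω a₂ := by
      intro ω hω a a₂ h
      have hs : ∀ c : Fin k → ℕ, sel ω a c = sel ω a₂ c := by
        intro c
        funext i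
        by_cases hi : i = idx ω
        · subst hi
          simp [sel, hidx ω hω]
        · simp only [sel, h i hi]
      simp only [hH, hs]
    set B : Fin k → (Fin k → ℕ) → ℂ := fun i a => ∏ ω ∈ Z with idx ω = i, H ω a with hB
    have hmain : ∀ a : Fin k → ℕ, cube V a b x *
          e ((∑ ω ∈ Z, sg ω * θ (sel ω a a')) * w)
        = V (x + (tot a : ZMod N)) * ∏ i, B i a := by
      intro a
      have h1 : ∏ i, B i a = ∏ ω ∈ Z, H ω a := by
        rw [hB]
        exact prod_fiberwise Z idx (fun ω => H ω a)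
      have h2 : e ((∑ ω ∈ Z, sg ω * θ (sel ω a a')) * w)
          = ∏ ω ∈ Z, e (sg ω * θ (sel ω a a') * w) := by
        rw [sum_mul]
        exact db_e_sum Z fun ω => sg ω * θ (sel ω a a') * w
      have h3 : cube V a b x = V (x + (tot a : ZMod N))
          * ∏ ω ∈ Z, cjj ω (V (x + (tot (sel ω a b) : ZMod N))) := by
        unfold cube
        rw [← mul_prod_erase univ _ (mem_univ (fun _ : Fin k => false))]
        congr 1
        have h0 : sel (fun _ : Fin k => false) a b = a := by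
          funext i
          simp [sel]
        rw [h0]
        simp [cjj]
      rw [h1, h2, h3, mul_assoc, ← prod_mul_distrib]
    have hg := gcs hk (fun _ : Fin k => range X') hne (fun a => V (x + (tot a : ZMod N))) B
      (by
        intro i a
        rw [hB]
        simp only
        rw [norm_prod]
        exact prod_le_one (fun _ _ => norm_nonneg _) fun ω _ => hH1 ω a)
      (by
        intro i a a₂ h
        rw [hB]
        simp only
        refine prod_congr rfl fun ω hω => ?_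
        have hω' := mem_filter.mp hω
        refine hHdep ω hω'.1 a a₂ fun l hl => h l ?_
        rw [← hω'.2]
        exact hl)
    have h1 : 𝔼 a ∈ boxset k X', cube V a b x *
          e ((∑ ω ∈ Z, sg ω * θ (sel ω a a')) * w)
        = 𝔼 a ∈ Fintype.piFinset (fun _ : Fin k => range X'),
          V (x + (tot a : ZMod N)) * ∏ i, B i a :=
      expect_congr rfl fun a _ => hmain a
    rw [h1]
    exact hg

end point

end

end Pool.Agent.Helper57.NX

end

section

set_option autoImplicit false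

open Finset

open scoped BigOperators ComplexConjugate

namespace Pool.Agent.Helper41.NX

open Pool.Agent.Helper57.NX

noncomputable section

theorem tt_star {N : ℕ} [NeZero N] (f b : ZMod N → ℂ) (hf : ∀ x, ‖f x‖ ≤ 1) (hb : ∀ x, ‖b x‖ ≤ 1)
    (E : Finset (ZMod N)) (hbE : ∀ x, x ∉ E → b x = 0) (φ : ZMod N → ℝ → ℝ) (z0 Z H : ℕ)
    (hZ : 1 ≤ Z) (hH : 1 ≤ H) (δ : ℝ) (hδ : 2 * H / Z ≤ δ)
    (h : δ ≤ ‖𝔼 x, b x * 𝔼 z ∈ Ico z0 (z0 + Z), f (x + (z : ZMod N)) * e (φ x z)‖) :
    ∃ w : ZMod N, (δ - 2 * H / Z) ^ 2 ≤ 𝔼 h ∈ range H, 𝔼 h' ∈ range H,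
      (if w + (h : ZMod N) ∈ E ∧ w + (h' : ZMod N) ∈ E then
        ‖𝔼 z ∈ Ico z0 (z0 + Z), e (φ (w + (h : ZMod N)) ((z : ℝ) - h) -
          φ (w + (h' : ZMod N)) ((z : ℝ) - h'))‖ else 0) := by
  have hHne : (range H).Nonempty := ⟨0, by simp; omega⟩
  have hJne : (Ico z0 (z0 + Z)).Nonempty := ⟨z0, by simp; omega⟩
  have hJc : (Ico z0 (z0 + Z)).card = Z := by simp
  have hZ0 : (0 : ℝ) < Z := by (clear * - hZ; positivity)
  -- choose the window
  have h1 : 𝔼 x, b x * 𝔼 z ∈ Ico z0 (z0 + Z), f (x + (z : ZMod N)) * e (φ x z) =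
      𝔼 w : ZMod N, 𝔼 h ∈ range H, b (w + (h : ZMod N)) * 𝔼 z ∈ Ico z0 (z0 + Z),
        f (w + (h : ZMod N) + (z : ZMod N)) * e (φ (w + (h : ZMod N)) z) := by
    rw [expect_comm]
    have h2 : ∀ h ∈ range H, 𝔼 w : ZMod N, b (w + (h : ZMod N)) * 𝔼 z ∈ Ico z0 (z0 + Z),
        f (w + (h : ZMod N) + (z : ZMod N)) * e (φ (w + (h : ZMod N)) z) =
        𝔼 x, b x * 𝔼 z ∈ Ico z0 (z0 + Z), f (x + (z : ZMod N)) * e (φ x z) := fun h _ =>
      expect_shift (fun x => b x * 𝔼 z ∈ Ico z0 (z0 + Z), f (x + (z : ZMod N)) * e (φ x z)) _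
    rw [expect_congr rfl h2, expect_const hHne]
  rw [h1] at h
  obtain ⟨w, -, hw⟩ := Finset.exists_le_of_le_expect (s := (univ : Finset (ZMod N)))
    univ_nonempty (h.trans (RCLike.norm_expect_le (K := ℂ)))
  refine ⟨w, ?_⟩
  -- move the shift
  have h3 : ∀ h ∈ range H, ‖𝔼 z ∈ Ico z0 (z0 + Z),
      f (w + (h : ZMod N) + (z : ZMod N)) * e (φ (w + (h : ZMod N)) z) -
      𝔼 z ∈ Ico z0 (z0 + Z), f (w + (z : ZMod N)) * e (φ (w + (h : ZMod N)) ((z : ℝ) - h))‖ ≤
      2 * H / Z := by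
    intro h hh
    rw [mem_range] at hh
    rw [expect_eq_sum_div_card, expect_eq_sum_div_card, hJc, ← sub_div, norm_div,
      Complex.norm_natCast]
    apply div_le_div_of_nonneg_right _ hZ0.le
    have h4 := sum_shift_le (fun z => f (w + (z : ZMod N)) *
      e (φ (w + (h : ZMod N)) ((z : ℝ) - h))) (fun z => by
        rw [norm_mul, norm_e, mul_one]; exact hf _) z0 Z h
    have h5 : ∀ z : ℕ, f (w + ((z + h : ℕ) : ZMod N)) *
        e (φ (w + (h : ZMod N)) (((z + h : ℕ) : ℝ) - h)) =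
        f (w + (h : ZMod N) + (z : ZMod N)) * e (φ (w + (h : ZMod N)) z) := by
      intro z
      have h6 : w + ((z + h : ℕ) : ZMod N) = w + (h : ZMod N) + (z : ZMod N) := by
        push_cast; ring
      have h7 : (((z + h : ℕ) : ℝ) - h) = z := by push_cast; ring
      rw [h6, h7]
    simp only [h5] at h4
    refine h4.trans ?_
    have : (h : ℝ) ≤ H := by exact_mod_cast hh.le
    (clear * - this; linarith)
  exact by
    have h8 : δ - 2 * H / Z ≤ ‖𝔼 z ∈ Ico z0 (z0 + Z), f (w + (z : ZMod N)) *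
        𝔼 h ∈ range H, b (w + (h : ZMod N)) * e (φ (w + (h : ZMod N)) ((z : ℝ) - h))‖ := by
      have h9 : 𝔼 z ∈ Ico z0 (z0 + Z), f (w + (z : ZMod N)) *
        𝔼 h ∈ range H, b (w + (h : ZMod N)) * e (φ (w + (h : ZMod N)) ((z : ℝ) - h)) =
        𝔼 h ∈ range H, b (w + (h : ZMod N)) * 𝔼 z ∈ Ico z0 (z0 + Z), f (w + (z : ZMod N)) *
          e (φ (w + (h : ZMod N)) ((z : ℝ) - h)) := by
        simp only [mul_expect]
        rw [expect_comm]
        refine expect_congr rfl fun h _ => expect_congr rfl fun z _ => ?_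
        ring
      rw [h9]
      have h10 : ‖𝔼 h ∈ range H, b (w + (h : ZMod N)) * 𝔼 z ∈ Ico z0 (z0 + Z),
          f (w + (h : ZMod N) + (z : ZMod N)) * e (φ (w + (h : ZMod N)) z) -
          𝔼 h ∈ range H, b (w + (h : ZMod N)) * 𝔼 z ∈ Ico z0 (z0 + Z), f (w + (z : ZMod N)) *
          e (φ (w + (h : ZMod N)) ((z : ℝ) - h))‖ ≤ 2 * H / Z := by
        rw [← expect_sub_distrib]
        refine (RCLike.norm_expect_le (K := ℂ)).trans (expect_le hHne fun h hh => ?_)
        rw [← mul_sub, norm_mul]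
        calc _ ≤ 1 * (2 * H / Z : ℝ) := mul_le_mul (hb _) (h3 h hh) (norm_nonneg _) zero_le_one
          _ = _ := one_mul _
      have h11 := norm_sub_norm_le (𝔼 h ∈ range H, b (w + (h : ZMod N)) * 𝔼 z ∈ Ico z0 (z0 + Z),
          f (w + (h : ZMod N) + (z : ZMod N)) * e (φ (w + (h : ZMod N)) z))
          (𝔼 h ∈ range H, b (w + (h : ZMod N)) * 𝔼 z ∈ Ico z0 (z0 + Z), f (w + (z : ZMod N)) *
          e (φ (w + (h : ZMod N)) ((z : ℝ) - h)))
      (clear * - hw h10 h11; linarith)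
    -- Cauchy-Schwarz
    have h12 : δ - 2 * H / Z ≤ 𝔼 z ∈ Ico z0 (z0 + Z),
        ‖𝔼 h ∈ range H, b (w + (h : ZMod N)) * e (φ (w + (h : ZMod N)) ((z : ℝ) - h))‖ := by
      refine h8.trans ((RCLike.norm_expect_le (K := ℂ)).trans (expect_le_expect fun z _ => ?_))
      rw [norm_mul]
      calc _ ≤ 1 * ‖𝔼 h ∈ range H, b (w + (h : ZMod N)) *
            e (φ (w + (h : ZMod N)) ((z : ℝ) - h))‖ :=
            mul_le_mul_of_nonneg_right (hf _) (norm_nonneg _)
        _ = _ := one_mul _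
    have h13 : (δ - 2 * H / Z) ^ 2 ≤ 𝔼 z ∈ Ico z0 (z0 + Z),
        ‖𝔼 h ∈ range H, b (w + (h : ZMod N)) * e (φ (w + (h : ZMod N)) ((z : ℝ) - h))‖ ^ 2 :=
      (pow_le_pow_left₀ (by (clear * - hδ; linarith)) h12 2).trans (sq_expect_le _ _)
    refine h13.trans ?_
    have h14 : ((𝔼 z ∈ Ico z0 (z0 + Z),
        ‖𝔼 h ∈ range H, b (w + (h : ZMod N)) *
          e (φ (w + (h : ZMod N)) ((z : ℝ) - h))‖ ^ 2 : ℝ) : ℂ) =
        𝔼 h ∈ range H, 𝔼 h' ∈ range H, (b (w + (h : ZMod N)) * conj (b (w + (h' : ZMod N)))) *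
          𝔼 z ∈ Ico z0 (z0 + Z), e (φ (w + (h : ZMod N)) ((z : ℝ) - h) -
            φ (w + (h' : ZMod N)) ((z : ℝ) - h')) := by
      have h15 : ((𝔼 z ∈ Ico z0 (z0 + Z),
        ‖𝔼 h ∈ range H, b (w + (h : ZMod N)) *
          e (φ (w + (h : ZMod N)) ((z : ℝ) - h))‖ ^ 2 : ℝ) : ℂ) =
          𝔼 z ∈ Ico z0 (z0 + Z), ((‖𝔼 h ∈ range H, b (w + (h : ZMod N)) *
          e (φ (w + (h : ZMod N)) ((z : ℝ) - h))‖ ^ 2 : ℝ) : ℂ) := by
        rw [expect_eq_sum_div_card, expect_eq_sum_div_card]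
        push_cast
        rfl
      rw [h15]
      have h16 : ∀ z ∈ Ico z0 (z0 + Z), ((‖𝔼 h ∈ range H, b (w + (h : ZMod N)) *
          e (φ (w + (h : ZMod N)) ((z : ℝ) - h))‖ ^ 2 : ℝ) : ℂ) =
          𝔼 h ∈ range H, 𝔼 h' ∈ range H, (b (w + (h : ZMod N)) * conj (b (w + (h' : ZMod N)))) *
            e (φ (w + (h : ZMod N)) ((z : ℝ) - h) - φ (w + (h' : ZMod N)) ((z : ℝ) - h')) := by
        intro z _
        rw [norm_expect_sq]
        refine expect_congr rfl fun h _ => expect_congr rfl fun h' _ => ?_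
        have h20 : e (φ (w + (h : ZMod N)) ((z : ℝ) - h) - φ (w + (h' : ZMod N)) ((z : ℝ) - h')) =
            e (φ (w + (h : ZMod N)) ((z : ℝ) - h)) *
              conj (e (φ (w + (h' : ZMod N)) ((z : ℝ) - h'))) := by
          rw [← e_neg, ← e_add]
          congr 1
        rw [h20, map_mul]
        ring
      rw [expect_congr rfl h16, expect_comm]
      refine expect_congr rfl fun h _ => ?_
      rw [expect_comm]
      refine expect_congr rfl fun h' _ => ?_
      rw [mul_expect]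
    have h17 : 𝔼 z ∈ Ico z0 (z0 + Z),
        ‖𝔼 h ∈ range H, b (w + (h : ZMod N)) *
          e (φ (w + (h : ZMod N)) ((z : ℝ) - h))‖ ^ 2 ≤
        ‖𝔼 h ∈ range H, 𝔼 h' ∈ range H, (b (w + (h : ZMod N)) * conj (b (w + (h' : ZMod N)))) *
          𝔼 z ∈ Ico z0 (z0 + Z), e (φ (w + (h : ZMod N)) ((z : ℝ) - h) -
            φ (w + (h' : ZMod N)) ((z : ℝ) - h'))‖ := by
      rw [← h14, Complex.norm_real]
      exact le_abs_self _
    refine h17.trans ?_
    refine (RCLike.norm_expect_le (K := ℂ)).trans (expect_le_expect fun h _ => ?_)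
    exact by
      refine (RCLike.norm_expect_le (K := ℂ)).trans (expect_le_expect fun h' _ => ?_)
      split_ifs with hE
      · rw [norm_mul, norm_mul, RCLike.norm_conj]
        have h18 : ‖b (w + (h : ZMod N))‖ * ‖b (w + (h' : ZMod N))‖ ≤ 1 :=
          mul_le_one₀ (hb _) (norm_nonneg _) (hb _)
        calc _ ≤ 1 * ‖𝔼 z ∈ Ico z0 (z0 + Z), e (φ (w + (h : ZMod N)) ((z : ℝ) - h) -
              φ (w + (h' : ZMod N)) ((z : ℝ) - h'))‖ :=
              mul_le_mul_of_nonneg_right h18 (norm_nonneg _)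
          _ = _ := one_mul _
      · rw [not_and_or] at hE
        rcases hE with hE | hE
        · rw [hbE _ hE]; simp
        · rw [hbE _ hE]; simp

end

end Pool.Agent.Helper41.NX

end

section

set_option autoImplicit false

open Finset

open scoped BigOperators ComplexConjugate

namespace Pool.Agent.Helper67.NX2

open Pool.Agent.Helper57.NX

noncomputable section

section IGBasic

variable {N : ℕ} [NeZero N]

theorem IG.init {m : ℕ} {S : Sys (m + 1)} {c : Fin (m + 1) → ℝ} {N : ℕ} {x : ℝ} {lam : ℕ}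
    (h : IG S c N x lam) : IG S.init (fun i => c i.castSucc) N x lam where
  good :=
    { ρ0 := h.good.ρ0
      ρ1 := h.good.ρ1
      Q1 := h.good.Q1
      Q2 := h.good.Q2
      P1 := fun i => h.good.P1 i.castSucc
      P2 := fun i => h.good.P2 i.castSucc
      N1 := fun i => h.good.N1 i.castSucc
      N2 := h.good.N2
      u1 := h.good.u1
      u2 := h.good.u2
      T1 := h.good.T1 }
  Q3 := h.Q3
  lam1 := h.lam1
  rho := h.rho
  Pint := fun i d hd => h.Pint i.castSucc d hd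
  prime := h.prime

/-- the sequences at natural exponents -/
theorem a_nat {m : ℕ} {S : Sys m} {c : Fin m → ℝ} {x : ℝ} {lam : ℕ} (h : IG S c N x lam)
    (hD : 0 < S.D) {r : ℕ} (hr : S.ρ * lam = r) (i : Fin m) (d : ℕ) (hd : c i = d) (k : ℕ) :
    S.a c i k = (S.Q : ℤ) * ((lam * k + r : ℕ) : ℤ) ^ d := by
  have h1 : S.P i * (S.t k) ^ (c i) = (((S.Q : ℤ) * ((lam * k + r : ℕ) : ℤ) ^ d : ℤ) : ℝ) := by
    rw [h.Pint i d hd, hd, Real.rpow_natCast, mul_assoc, ← mul_pow]
    have h2 : (lam : ℝ) * S.D * S.t k = lam * k + r := by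
      unfold Sys.t
      rw [← hr]
      field_simp
    rw [h2]
    push_cast
    ring
  unfold Sys.a
  rw [h1, Int.floor_intCast]

/-- dual functions are admissible -/
theorem Adm.dual {m : ℕ} {B X : ℝ} (hX : 0 < X) (S : Sys m) (c : Fin m → ℝ) (h : ℕ → ℂ)
    (hh : ∀ k, ‖h k‖ ≤ 1) {f0 : ZMod N → ℂ} {f : Fin m → ZMod N → ℂ} (i : Fin m)
    (h0 : Adm B X f0) (hf : ∀ j, j ≠ i → Adm B X (f j)) (hI : S.I.Nonempty) :
    Adm (m * B) X (dual S c h f0 f i) := by
  -- the functions under the average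
  set g : ℕ → ZMod N → ℂ := fun k x => f0 (x - (S.a c i k : ZMod N)) *
    ∏ j ∈ univ.erase i, f j (x - (S.a c i k : ZMod N) + (S.a c j k : ZMod N)) with hg
  have hgA : ∀ k, Adm (m * B) X (g k) := by
    intro k
    have h1 : Adm B X (fun x => f0 (x - (S.a c i k : ZMod N))) := by
      simpa only [sub_eq_add_neg] using h0.shift (-(S.a c i k : ZMod N))
    have h2 : Adm (∑ j ∈ univ.erase i, B) X (fun x => ∏ j ∈ univ.erase i,
        f j (x - (S.a c i k : ZMod N) + (S.a c j k : ZMod N))) := by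
      refine Adm.prod _ hX fun j hj => ?_
      have h3 := (hf j (ne_of_mem_erase hj)).shift
        (-(S.a c i k : ZMod N) + (S.a c j k : ZMod N))
      simpa only [sub_eq_add_neg, add_assoc] using h3
    have h4 := h1.mul h2
    have h5 : B + ∑ j ∈ univ.erase i, B = m * B := by
      have hm : 1 ≤ m := Fin.pos i
      rw [sum_const, card_erase_of_mem (mem_univ _), card_univ, Fintype.card_fin, nsmul_eq_mul,
        Nat.cast_sub hm]
      push_cast
      ring
    rw [h5] at h4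
    exact h4
  have hform : Pool.Agent.Helper57.NX.dual S c h f0 f i = fun x => 𝔼 k ∈ S.I, h k * g k x := rfl
  rw [hform]
  refine ⟨fun x => ?_, fun x l => ?_⟩
  · refine norm_expect_le_of5 _ _ zero_le_one fun k _ => ?_
    rw [norm_mul]
    exact mul_le_one₀ (hh k) (norm_nonneg _) ((hgA k).bdd x)
  · refine sum_expect_le5 S.I (fun k y => h k * g k y) ((hgA 0).tv.rhs_nonneg5 l) x l
      fun k _ => ?_
    refine le_trans ((hgA k).tv.smul (h k) x l) ?_
    rw [mul_assoc]
    exact mul_le_of_le_one_left ((hgA k).tv.rhs_nonneg5 l) (hh k)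

end IGBasic

end

end Pool.Agent.Helper67.NX2

end

section

set_option autoImplicit false

open Finset

open scoped BigOperators ComplexConjugate

namespace Pool.Agent.Helper82.NX

open Pool.Agent.Helper57.NX

noncomputable section

theorem jet_zero' {m : ℕ} (S : Sys m) (c : Fin m → ℝ) (b : ℕ) (y : ℝ) :
    jet S c b (0 : Phi m) y = 0 := by
  simp [jet]

end

end Pool.Agent.Helper82.NX

end

section

set_option autoImplicit false

open Finset

open scoped BigOperators ComplexConjugate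

namespace Pool.Agent.Helper57.NX

noncomputable section

variable {N : ℕ} [NeZero N]

theorem ch_int (b : ZMod N) (t : ℤ) : ch b (t : ZMod N) = e (fr b * t) := by
  have h : b * (t : ZMod N) = ((b.valMinAbs * t : ℤ) : ZMod N) := by
    rw [Int.cast_mul, ZMod.coe_valMinAbs]
  rw [ch, h, ZMod.stdAddChar_coe, e, fr]
  congr 1
  push_cast
  ring

theorem ch_nat (b : ZMod N) (t : ℕ) : ch b (t : ZMod N) = e (fr b * t) := by
  have h := ch_int b (t : ℤ)
  push_cast at h
  exact h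

end

end Pool.Agent.Helper57.NX

end

section

set_option autoImplicit false

open Finset

open scoped BigOperators ComplexConjugate

namespace Pool.Agent.Helper57.NX

noncomputable section

variable {N : ℕ} [NeZero N]

theorem ch_step (b x : ZMod N) : ‖ch b (x + 1) - ch b x‖ ≤ 2 * Real.pi * |fr b| := by
  have h1 : ch b (1 : ZMod N) = e (fr b) := by
    have := ch_nat b 1
    rwa [Nat.cast_one, Nat.cast_one, mul_one] at this
  rw [ch_add, h1]
  have h2 : ch b x * e (fr b) - ch b x = ch b x * (e (fr b) - e 0) := by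
    rw [e_zero]; ring
  rw [h2, norm_mul, norm_ch, one_mul]
  have h3 := norm_e_sub_e_le (fr b) 0
  rwa [sub_zero] at h3

end

end Pool.Agent.Helper57.NX

end

section

set_option autoImplicit false

open Finset

open scoped BigOperators ComplexConjugate

namespace Pool.Agent.Helper67.NX2

open Pool.Agent.Helper57.NX

noncomputable section

variable {N : ℕ} [NeZero N]

omit [NeZero N] in
theorem cr_norm_Aq_le {f : ZMod N → ℂ} (hf : ∀ x, ‖f x‖ ≤ 1) (st L : ℕ) (x : ZMod N) :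
    ‖Aq st L f x‖ ≤ 1 := norm_expect_le_of5 _ _ zero_le_one fun _ _ => hf _

omit [NeZero N] in
theorem cr_tv_Aq {B X : ℝ} {f : ZMod N → ℂ} (h : TV B X f) (st L : ℕ) : TV B X (Aq st L f) := by
  intro x l
  refine sum_expect_le5 (range L) (fun a y => f (y + ((st * a : ℕ) : ZMod N)))
    (h.rhs_nonneg5 l) x l fun a _ => ?_
  refine le_trans (le_of_eq ?_) (h (x + ((st * a : ℕ) : ZMod N)) l)
  refine sum_congr rfl fun j _ => ?_
  congr 3 <;> ring

omit [NeZero N] in
theorem cr_tv_Aqb {B X : ℝ} {f : ZMod N → ℂ} (h : TV B X f) (st L : ℕ) : TV B X (Aqb st L f) := by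
  intro x l
  refine sum_expect_le5 (range L) (fun a y => f (y - ((st * a : ℕ) : ZMod N)))
    (h.rhs_nonneg5 l) x l fun a _ => ?_
  refine le_trans (le_of_eq ?_) (h (x - ((st * a : ℕ) : ZMod N)) l)
  refine sum_congr rfl fun j _ => ?_
  congr 3 <;> ring

omit [NeZero N] in
theorem cr_adm_Aq {B X : ℝ} {f : ZMod N → ℂ} (h : Adm B X f) (st L : ℕ) :
    Adm B X (Aq st L f) := ⟨cr_norm_Aq_le h.bdd st L, cr_tv_Aq h.tv st L⟩

omit [NeZero N] in
theorem cr_adm_Aqb {B X : ℝ} {f : ZMod N → ℂ} (h : Adm B X f) (st L : ℕ) :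
    Adm B X (Aqb st L f) := ⟨cr_norm_Aqb_le h.bdd st L, cr_tv_Aqb h.tv st L⟩

/-- The identity behind the choice of the character. -/
theorem cr_char_sum (w : ZMod N → ℂ) (st L : ℕ) :
    𝔼 y, 𝔼 x, ‖Aq st L (fun x => w x * conj (w (x + y))) x‖ ^ 2 =
      ∑ b, ‖fc w b‖ ^ 2 * 𝔼 x, ‖Aq st L (fun x => w x * conj (ch b x)) x‖ ^ 2 := by
  have h1 : ∀ x, 𝔼 y, ‖Aq st L (fun x => w x * conj (w (x + y))) x‖ ^ 2 =
      ∑ b, ‖fc w b‖ ^ 2 * ‖Aq st L (fun x => w x * conj (ch b x)) x‖ ^ 2 := by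
    intro x
    have h2 : ∀ y, ‖Aq st L (fun x => w x * conj (w (x + y))) x‖ ^ 2 =
        ‖∑ b, (fc w b * 𝔼 a ∈ range L, conj (w (x + ((st * a : ℕ) : ZMod N))) *
          ch b ((st * a : ℕ) : ZMod N)) * ch b (y + x)‖ ^ 2 := by
      intro y
      have h3 : ∑ b, (fc w b * 𝔼 a ∈ range L, conj (w (x + ((st * a : ℕ) : ZMod N))) *
          ch b ((st * a : ℕ) : ZMod N)) * ch b (y + x) =
          𝔼 a ∈ range L, conj (w (x + ((st * a : ℕ) : ZMod N))) *
            w (x + ((st * a : ℕ) : ZMod N) + y) := by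
        have h4 : ∀ a : ℕ, conj (w (x + ((st * a : ℕ) : ZMod N))) *
            w (x + ((st * a : ℕ) : ZMod N) + y) =
            ∑ b, fc w b * (conj (w (x + ((st * a : ℕ) : ZMod N))) *
              ch b ((st * a : ℕ) : ZMod N)) * ch b (y + x) := by
          intro a
          rw [four_inv w (x + ((st * a : ℕ) : ZMod N) + y), Finset.mul_sum]
          refine Finset.sum_congr rfl fun b _ => ?_
          have h5 : x + ((st * a : ℕ) : ZMod N) + y = ((st * a : ℕ) : ZMod N) + (y + x) := by ring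
          rw [h5, ch_add b ((st * a : ℕ) : ZMod N)]
          ring
        simp_rw [h4]
        rw [Finset.expect_sum_comm]
        refine Finset.sum_congr rfl fun b _ => ?_
        rw [Finset.mul_expect, Finset.expect_mul]
      rw [h3, ← RCLike.norm_conj (Aq st L _ x), Aq, map_expect]
      congr 2
      refine Finset.expect_congr rfl fun a _ => ?_
      rw [map_mul, Complex.conj_conj]
    simp_rw [h2]
    rw [expect_shift (fun y => ‖∑ b, (fc w b * 𝔼 a ∈ range L,
      conj (w (x + ((st * a : ℕ) : ZMod N))) * ch b ((st * a : ℕ) : ZMod N)) * ch b y‖ ^ 2) x,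
      parseval]
    refine Finset.sum_congr rfl fun b _ => ?_
    rw [norm_mul, mul_pow]
    congr 2
    have h6 : Aq st L (fun x => w x * conj (ch b x)) x =
        conj (ch b x) * conj (𝔼 a ∈ range L, conj (w (x + ((st * a : ℕ) : ZMod N))) *
          ch b ((st * a : ℕ) : ZMod N)) := by
      rw [Aq, map_expect, Finset.mul_expect]
      refine Finset.expect_congr rfl fun a _ => ?_
      rw [map_mul, Complex.conj_conj, ch_add, map_mul]
      ring
    rw [h6, norm_mul, RCLike.norm_conj, RCLike.norm_conj, norm_ch, one_mul]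
  rw [Finset.expect_comm]
  simp_rw [h1]
  rw [Finset.expect_sum_comm]
  simp_rw [← Finset.mul_expect]

/-- The Fourier coefficients of `w` are small at large frequencies. -/
theorem cr_fc_wf (Y : ℕ) (F : ZMod N → ℂ) (b : ZMod N) :
    ‖fc (wf Y F) b‖ = ‖𝔼 a ∈ range Y, (1 : ℂ) * e (-(fr b * (a : ℕ)))‖ *
      ‖fc (fun x => conj (Ab Y F x)) b‖ := by
  have h1 : fc (wf Y F) b = conj (𝔼 x, A Y (Ab Y F) x * ch b x) := by
    rw [fc, map_expect]
    refine Finset.expect_congr rfl fun x _ => ?_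
    rw [map_mul, wf]
  have h2 : ∀ x, Ab Y (ch b) x = ch b x * 𝔼 a ∈ range Y, (1 : ℂ) * e (-(fr b * (a : ℕ))) := by
    intro x
    rw [Helper57.NX.Ab, Finset.mul_expect]
    refine Finset.expect_congr rfl fun a _ => ?_
    rw [one_mul, sub_eq_add_neg, ch_add, ← conj_ch, ch_nat, e_neg]
  have h3 : fc (fun x => conj (Ab Y F x)) b = conj (𝔼 x, Ab Y F x * ch b x) := by
    rw [fc, map_expect]
    refine Finset.expect_congr rfl fun x _ => ?_
    rw [map_mul]
  rw [h1, h3, RCLike.norm_conj, RCLike.norm_conj, adj_A]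
  have h4 : 𝔼 x, Ab Y F x * Ab Y (ch b) x =
      (𝔼 a ∈ range Y, (1 : ℂ) * e (-(fr b * (a : ℕ)))) * 𝔼 x, Ab Y F x * ch b x := by
    rw [Finset.mul_expect]
    refine Finset.expect_congr rfl fun x _ => ?_
    rw [h2 x]
    ring
  rw [h4, norm_mul]

theorem cr_geom (Y : ℕ) (hY : 1 ≤ Y) (θ : ℝ) (h0 : 0 < |θ|) (h1 : |θ| ≤ 1 / 2) :
    ‖𝔼 a ∈ range Y, (1 : ℂ) * e (-(θ * (a : ℕ)))‖ ≤ 1 / (2 * |θ| * Y) := by
  have h := freq_bound (N := 1) (f := fun _ => (1 : ℂ)) (fun _ => by simp) 0 Y hY θ h0 h1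
  refine h.trans (le_of_eq ?_)
  simp only [sub_self, norm_zero, Finset.sum_const_zero, add_zero]
  have hY0 : (0 : ℝ) < Y := by exact_mod_cast hY
  field_simp
  norm_num

/-- A character of small frequency. -/
theorem cr_exists_char {F : ZMod N → ℂ} (hF : ∀ x, ‖F x‖ ≤ 1) (Y : ℕ) (hY : 1 ≤ Y) (st L : ℕ)
    {κ : ℝ} (hκ0 : 0 < κ) (hκ1 : κ ≤ 1)
    (hκ : κ ≤ 𝔼 y, 𝔼 x, ‖Aq st L (fun x => wf Y F x * conj (wf Y F (x + y))) x‖ ^ 2) :
    ∃ b : ZMod N, |fr b| ≤ κ⁻¹ / Y ∧
      κ / 2 ≤ 𝔼 x, ‖Aq st L (fun x => wf Y F x * conj (ch b x)) x‖ ^ 2 := by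
  have hY0 : (0 : ℝ) < Y := by exact_mod_cast hY
  rw [cr_char_sum] at hκ
  by_contra hcon
  push Not at hcon
  have hE1 : ∀ b : ZMod N, 𝔼 x, ‖Aq st L (fun x => wf Y F x * conj (ch b x)) x‖ ^ 2 ≤ 1 := by
    intro b
    refine expect_le_of5 _ _ zero_le_one fun x _ => ?_
    refine pow_le_one₀ (norm_nonneg _) (cr_norm_Aq_le (fun x => ?_) st L x)
    exact norm_wch_le hF Y b x
  have hE0 : ∀ b : ZMod N, 0 ≤ 𝔼 x, ‖Aq st L (fun x => wf Y F x * conj (ch b x)) x‖ ^ 2 :=
    fun b => Finset.expect_nonneg fun x _ => sq_nonneg _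
  have hterm : ∀ b : ZMod N, ‖fc (wf Y F) b‖ ^ 2 *
      𝔼 x, ‖Aq st L (fun x => wf Y F x * conj (ch b x)) x‖ ^ 2 ≤
      κ / 2 * ‖fc (wf Y F) b‖ ^ 2 + (κ / 2) ^ 2 * ‖fc (fun x => conj (Ab Y F x)) b‖ ^ 2 := by
    intro b
    by_cases hb : |fr b| ≤ κ⁻¹ / Y
    · have h1 := hcon b hb
      have h2 : ‖fc (wf Y F) b‖ ^ 2 *
          𝔼 x, ‖Aq st L (fun x => wf Y F x * conj (ch b x)) x‖ ^ 2 ≤
          ‖fc (wf Y F) b‖ ^ 2 * (κ / 2) := mul_le_mul_of_nonneg_left h1.le (sq_nonneg _)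
      have h3 : 0 ≤ (κ / 2) ^ 2 * ‖fc (fun x => conj (Ab Y F x)) b‖ ^ 2 := by (clear * - hκ0; positivity)
      (clear * - h2 h3; linarith)
    · push Not at hb
      have hfr0 : 0 < |fr b| := lt_of_lt_of_le (by positivity) hb.le
      have h1 := cr_geom Y hY (fr b) hfr0 (abs_fr_le b)
      have h2 : 1 / (2 * |fr b| * Y) ≤ κ / 2 := by
        rw [div_le_div_iff₀ (by positivity) (by norm_num)]
        rw [div_lt_iff₀ hY0] at hb
        have h3 : 1 ≤ κ * (|fr b| * Y) := by
          calc (1 : ℝ) = κ * κ⁻¹ := (mul_inv_cancel₀ hκ0.ne').symm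
            _ ≤ _ := mul_le_mul_of_nonneg_left hb.le hκ0.le
        (clear * - h3; nlinarith)
      exact by
        have h4 : ‖fc (wf Y F) b‖ ≤ κ / 2 * ‖fc (fun x => conj (Ab Y F x)) b‖ := by
          rw [cr_fc_wf]
          exact mul_le_mul_of_nonneg_right (h1.trans h2) (norm_nonneg _)
        have h5 : ‖fc (wf Y F) b‖ ^ 2 ≤ (κ / 2) ^ 2 * ‖fc (fun x => conj (Ab Y F x)) b‖ ^ 2 := by
          rw [← mul_pow]
          exact pow_le_pow_left₀ (norm_nonneg _) h4 2
        have h6 : ‖fc (wf Y F) b‖ ^ 2 *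
            𝔼 x, ‖Aq st L (fun x => wf Y F x * conj (ch b x)) x‖ ^ 2 ≤ ‖fc (wf Y F) b‖ ^ 2 * 1 :=
          mul_le_mul_of_nonneg_left (hE1 b) (sq_nonneg _)
        have h7 : 0 ≤ κ / 2 * ‖fc (wf Y F) b‖ ^ 2 := by positivity
        (clear * - h5 h6 h7; linarith)
  have hsum : ∑ b, ‖fc (wf Y F) b‖ ^ 2 *
      𝔼 x, ‖Aq st L (fun x => wf Y F x * conj (ch b x)) x‖ ^ 2 ≤ κ / 2 + (κ / 2) ^ 2 := by
    refine (Finset.sum_le_sum fun b _ => hterm b).trans ?_
    rw [Finset.sum_add_distrib, ← Finset.mul_sum, ← Finset.mul_sum]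
    have h1 := sum_fc_le (norm_wf_le hF Y)
    have h2 := sum_fc_le (w := fun x => conj (Ab Y F x)) (fun x => by
      rw [RCLike.norm_conj]
      exact norm_Ab_le hF Y x)
    have h3 := mul_le_mul_of_nonneg_left h1 (by (clear * - hκ0; positivity) : (0 : ℝ) ≤ κ / 2)
    have h4 := mul_le_mul_of_nonneg_left h2 (by positivity : (0 : ℝ) ≤ (κ / 2) ^ 2)
    (clear * - h3 h4; linarith)
  (clear * - hκ0 hκ hsum hκ1; nlinarith)

end

end Pool.Agent.Helper67.NX2

end

section

set_option autoImplicit false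

open Finset

open scoped BigOperators ComplexConjugate

namespace Pool.Agent.Helper57.NX

noncomputable section

theorem e_sum {ι : Type} (s : Finset ι) (t : ι → ℝ) : e (∑ i ∈ s, t i) = ∏ i ∈ s, e (t i) := by
  classical
  induction s using Finset.induction_on with
  | empty => rw [Finset.sum_empty, Finset.prod_empty, e_zero]
  | insert i s hi ih => rw [Finset.sum_insert hi, Finset.prod_insert hi, e_add, ih]

end

end Pool.Agent.Helper57.NX

end

section

set_option autoImplicit false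

open Finset

open scoped BigOperators ComplexConjugate

namespace Pool.Agent.Helper67.NX2

open Pool.Agent.Helper57.NX

noncomputable section

section Four

variable {N : ℕ} [NeZero N]

theorem std15 (t : ℤ) : ZMod.stdAddChar (t : ZMod N) = e ((t : ℝ) / N) := by
  rw [ZMod.stdAddChar_coe, e]
  congr 1
  push_cast
  ring

theorem cz_eq15 (b : ℤ) (x : ZMod N) : e ((b : ℝ) / N * x.val) = ch (b : ZMod N) x := by
  have h : (b : ZMod N) * x = ((b * (x.val : ℤ) : ℤ) : ZMod N) := by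
    push_cast
    rw [ZMod.natCast_val, ZMod.cast_id', id]
  rw [ch, h, std15]
  congr 1
  push_cast
  ring

theorem ch_int15 (b a : ℤ) : ch (b : ZMod N) (a : ZMod N) = e ((b : ℝ) / N * a) := by
  rw [ch, ← Int.cast_mul, std15]
  congr 1
  push_cast
  ring

theorem four_window15 (f : ZMod N → ℂ) (Ω : Finset ℕ) (w : ℕ → ℂ) (s : ℕ → ℤ) :
    𝔼 x, ‖𝔼 j ∈ Ω, w j * f (x + (s j : ZMod N))‖ ^ 2 =
      ∑ b, ‖fc f b‖ ^ 2 * ‖𝔼 j ∈ Ω, w j * e (fr b * s j)‖ ^ 2 := by
  have h1 : ∀ x, 𝔼 j ∈ Ω, w j * f (x + (s j : ZMod N)) =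
      ∑ b, (fc f b * 𝔼 j ∈ Ω, w j * e (fr b * s j)) * ch b x := by
    intro x
    have h2 : ∀ j, w j * f (x + (s j : ZMod N)) =
        ∑ b, fc f b * (w j * e (fr b * s j)) * ch b x := by
      intro j
      rw [four_inv f, Finset.mul_sum]
      refine Finset.sum_congr rfl fun b _ => ?_
      rw [ch_add, ch_int]
      ring
    simp_rw [h2]
    rw [Finset.expect_sum_comm]
    refine Finset.sum_congr rfl fun b _ => ?_
    rw [Finset.mul_expect, Finset.expect_mul]
  simp_rw [h1]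
  rw [parseval]
  refine Finset.sum_congr rfl fun b _ => ?_
  rw [norm_mul, mul_pow]

theorem four_Aq15 (f : ZMod N → ℂ) (st L : ℕ) :
    𝔼 x, ‖Aq st L f x‖ ^ 2 =
      ∑ b, ‖fc f b‖ ^ 2 * ‖𝔼 a ∈ range L, e (fr b * ((st * a : ℕ) : ℝ))‖ ^ 2 := by
  have h := four_window15 f (range L) (fun _ => 1) (fun a => ((st * a : ℕ) : ℤ))
  simp only [one_mul, Int.cast_natCast] at h
  exact h

theorem nrm_Aq_ge15 {f : ZMod N → ℂ} (hf : ∀ x, ‖f x‖ ≤ 1) (st L : ℕ)
    (B : Finset (ZMod N)) (τ : ℝ) (hB : τ ≤ ∑ b ∈ B, ‖fc f b‖ ^ 2)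
    (hb : ∀ b ∈ B, 1 / 2 ≤ ‖𝔼 a ∈ range L, e (fr b * ((st * a : ℕ) : ℝ))‖) :
    τ / 4 ≤ nrm (Aq st L f) := by
  have h1 : 𝔼 x, ‖Aq st L f x‖ ^ 2 ≤ nrm (Aq st L f) := by
    refine Finset.expect_le_expect fun x _ => ?_
    exact pow_le_of_le_one (norm_nonneg _) (norm_Aq_le hf st L x) two_ne_zero
  refine le_trans ?_ h1
  rw [four_Aq15]
  calc τ / 4 ≤ ∑ b ∈ B, ‖fc f b‖ ^ 2 * (1 / 4) := by
        rw [← Finset.sum_mul]
        (clear * - hB; linarith)
    _ ≤ ∑ b ∈ B, ‖fc f b‖ ^ 2 * ‖𝔼 a ∈ range L, e (fr b * ((st * a : ℕ) : ℝ))‖ ^ 2 := by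
        refine Finset.sum_le_sum fun b hbB => mul_le_mul_of_nonneg_left ?_ (sq_nonneg _)
        (clear * - hb hbB; nlinarith [hb b hbB, norm_nonneg (𝔼 a ∈ range L, e (fr b * ((st * a : ℕ) : ℝ)))])
    _ ≤ _ := Finset.sum_le_sum_of_subset_of_nonneg (Finset.subset_univ _)
        fun b _ _ => by (clear * -; positivity)

end Four

section Win

variable {m N : ℕ} [NeZero N]

theorem window15 (S : Sys (m + 1)) (c : Fin (m + 1) → ℝ) {f0 : ZMod N → ℂ}
    (hf0 : ∀ x, ‖f0 x‖ ≤ 1) (f : Fin (m + 1) → ZMod N → ℂ) (b : Fin (m + 1) → ℤ)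
    (cc : Fin (m + 1) → ZMod N → ℂ) (hcc : ∀ (i : Fin m) x, ‖cc i.castSucc x‖ ≤ 1)
    (hfm : ∀ x, ‖f (Fin.last m) x‖ ≤ 1) (Ω : Finset ℕ) (κ : ℕ → ℕ) (k0 : ℕ) (E : ℝ) (hE0 : 0 ≤ E)
    (hE : ∀ (i : Fin m), ∀ j ∈ Ω, ∀ x, ‖cc i.castSucc (x + (S.a c i.castSucc (κ j) : ZMod N)) -
      cc i.castSucc (x + (S.a c i.castSucc k0 : ZMod N))‖ ≤ E) :
    ‖𝔼 j ∈ Ω, 𝔼 x, f0 x * ∏ i, (if i ∈ univ.erase (Fin.last m) then
        e ((b i : ℝ) / N * (x + (S.a c i (κ j) : ZMod N)).val) * cc i (x + (S.a c i (κ j) : ZMod N))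
        else f i (x + (S.a c i (κ j) : ZMod N)))‖ ≤
      m * E + 𝔼 x, ‖𝔼 j ∈ Ω, e (∑ i : Fin m, (b i.castSucc : ℝ) / N * (S.a c i.castSucc (κ j))) *
        f (Fin.last m) (x + (S.a c (Fin.last m) (κ j) : ZMod N))‖ := by
  set w : ℕ → ℂ := fun j =>
    e (∑ i : Fin m, (b i.castSucc : ℝ) / N * (S.a c i.castSucc (κ j))) with hw
  set F : ZMod N → ℂ := fun x => f0 x * (∏ i : Fin m, ch (b i.castSucc : ZMod N) x) *
    ∏ i : Fin m, cc i.castSucc (x + (S.a c i.castSucc k0 : ZMod N)) with hF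
  have hF1 : ∀ x, ‖F x‖ ≤ 1 := by
    intro x
    rw [hF]
    simp only [norm_mul, norm_prod]
    refine mul_le_one₀ (mul_le_one₀ (hf0 x) (prod_nonneg fun _ _ => norm_nonneg _) ?_)
      (prod_nonneg fun _ _ => norm_nonneg _) ?_
    · exact prod_le_one (fun _ _ => norm_nonneg _) fun i _ => (norm_ch _ _).le
    · exact prod_le_one (fun _ _ => norm_nonneg _) fun i _ => hcc i _
  have h1 : ∀ j ∈ Ω, ∀ x, ‖f0 x * ∏ i, (if i ∈ univ.erase (Fin.last m) then
        e ((b i : ℝ) / N * (x + (S.a c i (κ j) : ZMod N)).val) * cc i (x + (S.a c i (κ j) : ZMod N))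
        else f i (x + (S.a c i (κ j) : ZMod N))) -
      F x * (w j * f (Fin.last m) (x + (S.a c (Fin.last m) (κ j) : ZMod N)))‖ ≤ m * E := by
    intro j hj x
    have h2 : f0 x * ∏ i, (if i ∈ univ.erase (Fin.last m) then
        e ((b i : ℝ) / N * (x + (S.a c i (κ j) : ZMod N)).val) * cc i (x + (S.a c i (κ j) : ZMod N))
        else f i (x + (S.a c i (κ j) : ZMod N))) =
        f0 x * (∏ i : Fin m, ch (b i.castSucc : ZMod N) x) * (w j *
          f (Fin.last m) (x + (S.a c (Fin.last m) (κ j) : ZMod N))) *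
          ∏ i : Fin m, cc i.castSucc (x + (S.a c i.castSucc (κ j) : ZMod N)) := by
      rw [Fin.prod_univ_castSucc, if_neg (by simp)]
      have h3 : ∀ i : Fin m, (if i.castSucc ∈ univ.erase (Fin.last m) then
          e ((b i.castSucc : ℝ) / N * (x + (S.a c i.castSucc (κ j) : ZMod N)).val) *
            cc i.castSucc (x + (S.a c i.castSucc (κ j) : ZMod N))
          else f i.castSucc (x + (S.a c i.castSucc (κ j) : ZMod N))) =
          ch (b i.castSucc : ZMod N) x * e ((b i.castSucc : ℝ) / N * (S.a c i.castSucc (κ j))) *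
            cc i.castSucc (x + (S.a c i.castSucc (κ j) : ZMod N)) := by
        intro i
        rw [if_pos (by simp [(Fin.castSucc_lt_last i).ne]), cz_eq15, ch_add, ch_int15]
      simp_rw [h3]
      rw [prod_mul_distrib, prod_mul_distrib, ← e_sum]
      simp only [hw]
      ring
    rw [h2]
    have h4 : f0 x * (∏ i : Fin m, ch (b i.castSucc : ZMod N) x) * (w j *
          f (Fin.last m) (x + (S.a c (Fin.last m) (κ j) : ZMod N))) *
          ∏ i : Fin m, cc i.castSucc (x + (S.a c i.castSucc (κ j) : ZMod N)) -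
        F x * (w j * f (Fin.last m) (x + (S.a c (Fin.last m) (κ j) : ZMod N))) =
        f0 x * (∏ i : Fin m, ch (b i.castSucc : ZMod N) x) * (w j *
          f (Fin.last m) (x + (S.a c (Fin.last m) (κ j) : ZMod N))) *
          (∏ i : Fin m, cc i.castSucc (x + (S.a c i.castSucc (κ j) : ZMod N)) -
            ∏ i : Fin m, cc i.castSucc (x + (S.a c i.castSucc k0 : ZMod N))) := by
      simp only [hF]
      ring
    rw [h4, norm_mul]
    have h5 : ‖f0 x * (∏ i : Fin m, ch (b i.castSucc : ZMod N) x) * (w j *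
          f (Fin.last m) (x + (S.a c (Fin.last m) (κ j) : ZMod N)))‖ ≤ 1 := by
      simp only [norm_mul, norm_prod, norm_ch, prod_const_one, mul_one, hw, norm_e, one_mul]
      exact mul_le_one₀ (hf0 x) (norm_nonneg _) (hfm _)
    refine (mul_le_of_le_one_left (norm_nonneg _) h5).trans ?_
    refine (prod_sub_prod univ (fun i _ => hcc i _) (fun i _ => hcc i _)).trans ?_
    refine (sum_le_sum fun i _ => hE i j hj x).trans (le_of_eq ?_)
    rw [sum_const, card_univ, Fintype.card_fin, nsmul_eq_mul]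
  have h6 : ‖𝔼 j ∈ Ω, 𝔼 x, f0 x * ∏ i, (if i ∈ univ.erase (Fin.last m) then
        e ((b i : ℝ) / N * (x + (S.a c i (κ j) : ZMod N)).val) * cc i (x + (S.a c i (κ j) : ZMod N))
        else f i (x + (S.a c i (κ j) : ZMod N))) -
      𝔼 j ∈ Ω, 𝔼 x, F x * (w j * f (Fin.last m) (x + (S.a c (Fin.last m) (κ j) : ZMod N)))‖ ≤
      m * E := by
    rw [← expect_sub_distrib]
    refine norm_expect_le_of5 _ _ (by (clear * - hE0; positivity)) fun j hj => ?_
    rw [← expect_sub_distrib]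
    exact norm_expect_le_of5 _ _ (by (clear * - hE0; positivity)) fun x _ => h1 j hj x
  have h7 : 𝔼 j ∈ Ω, 𝔼 x, F x * (w j * f (Fin.last m) (x + (S.a c (Fin.last m) (κ j) : ZMod N))) =
      𝔼 x, F x * 𝔼 j ∈ Ω, w j * f (Fin.last m) (x + (S.a c (Fin.last m) (κ j) : ZMod N)) := by
    rw [expect_comm]
    refine expect_congr rfl fun x _ => ?_
    rw [mul_expect]
  exact by
    have h8 : ‖𝔼 x, F x * 𝔼 j ∈ Ω, w j *
        f (Fin.last m) (x + (S.a c (Fin.last m) (κ j) : ZMod N))‖ ≤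
        𝔼 x, ‖𝔼 j ∈ Ω, w j * f (Fin.last m) (x + (S.a c (Fin.last m) (κ j) : ZMod N))‖ := by
      refine (RCLike.norm_expect_le (K := ℂ)).trans (expect_le_expect fun x _ => ?_)
      rw [norm_mul]
      exact mul_le_of_le_one_left (norm_nonneg _) (hF1 x)
    have h9 := norm_sub_norm_le (𝔼 j ∈ Ω, 𝔼 x, f0 x * ∏ i, (if i ∈ univ.erase (Fin.last m) then
          e ((b i : ℝ) / N * (x + (S.a c i (κ j) : ZMod N)).val) * cc i (x + (S.a c i (κ j) : ZMod N))
          else f i (x + (S.a c i (κ j) : ZMod N))))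
        (𝔼 j ∈ Ω, 𝔼 x, F x * (w j * f (Fin.last m) (x + (S.a c (Fin.last m) (κ j) : ZMod N))))
    rw [h7] at h6 h9
    linarith

end Win

section Aux

variable {m N : ℕ} [NeZero N] {S : Sys (m + 1)} {c : Fin (m + 1) → ℝ} {x : ℝ} {lam : ℕ}

theorem a_last15 (hI : IG S c N x lam) (hD : 0 < S.D) (d : ℕ)
    (hd : c (Fin.last m) = d) (k : ℕ) :
    (S.a c (Fin.last m) k : ℝ) = S.P (Fin.last m) * S.t k ^ (c (Fin.last m)) := by
  obtain ⟨r, hr⟩ := hI.rho
  rw [a_nat hI hD hr _ d hd, hI.Pint _ d hd, hd, Real.rpow_natCast, mul_assoc, ← mul_pow]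
  have h1 : (lam : ℝ) * S.D * S.t k = lam * k + r := by
    unfold Sys.t
    rw [← hr]
    field_simp
  rw [h1]
  push_cast
  ring

end Aux

end

end Pool.Agent.Helper67.NX2

end

section

set_option autoImplicit false

set_option linter.unusedSectionVars false

set_option linter.unusedVariables false

open Finset

open scoped BigOperators ComplexConjugate

namespace Pool.Agent.Helper67.NX2

open Pool.Agent.Helper57.NX

noncomputable section

theorem dbq_e_sum {ι : Type} (s : Finset ι) (g : ι → ℝ) :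
    e (∑ i ∈ s, g i) = ∏ i ∈ s, e (g i) := by
  classical
  induction s using Finset.induction_on with
  | empty => simp [e_zero]
  | insert i s hi ih => rw [sum_insert hi, prod_insert hi, e_add, ih]

section point

variable {N : ℕ} [NeZero N]

theorem dbq_point (k : ℕ) (hk : 1 ≤ k) (X' : ℕ) (hX' : 1 ≤ X') (V : ZMod N → ℂ)
    (hV : ∀ x, ‖V x‖ ≤ 1) (θ : (Fin k → ℕ) → ℝ) (a' b : Fin k → ℕ) (w : ℝ) (x : ZMod N) :
    ‖𝔼 a ∈ boxset k X', cube V a b x *
        e ((∑ ω ∈ univ.erase (fun _ : Fin k => false), sg ω * θ (sel ω a a')) * w)‖ ^ (2 ^ k)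
      ≤ (𝔼 a ∈ boxset k X', 𝔼 a'' ∈ boxset k X', cube V a a'' x).re := by
  classical
  have hne : ∀ i : Fin k, (range X').Nonempty := fun _ => by simpa using (by omega : X' ≠ 0)
  set Z : Finset (Fin k → Bool) := univ.erase (fun _ : Fin k => false) with hZ
  -- the index of a nonzero `ω`
  have hidx : ∀ ω : Fin k → Bool, ∃ i : Fin k, ω ∈ Z → ω i = true := by
    intro ω
    by_cases h : ω ∈ Z
    · have h1 : ω ≠ fun _ => false := by
        rw [hZ] at h
        exact (mem_erase.mp h).1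
      obtain ⟨i, hi⟩ := Function.ne_iff.mp h1
      exact ⟨i, fun _ => by simpa using hi⟩
    · exact ⟨⟨0, hk⟩, fun h' => absurd h' h⟩
  choose idx hidx using hidx
  set H : (Fin k → Bool) → (Fin k → ℕ) → ℂ := fun ω a =>
    cjj ω (V (x + (tot (sel ω a b) : ZMod N))) * e (sg ω * θ (sel ω a a') * w) with hH
  have hcjj : ∀ (ω : Fin k → Bool) (z : ℂ), ‖cjj ω z‖ = ‖z‖ := by
    intro ω z
    unfold cjj
    split_ifs <;> simp
  exact by
    have hH1 : ∀ ω a, ‖H ω a‖ ≤ 1 := by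
      intro ω a
      rw [hH]
      simp only [norm_mul, norm_e, mul_one, hcjj]
      exact hV _
    have hHdep : ∀ ω ∈ Z, ∀ a a₂ : Fin k → ℕ, (∀ i, i ≠ idx ω → a i = a₂ i) → H ω a = H ω a₂ := by
      intro ω hω a a₂ h
      have hs : ∀ c : Fin k → ℕ, sel ω a c = sel ω a₂ c := by
        intro c
        funext i
        by_cases hi : i = idx ω
        · subst hi
          simp [sel, hidx ω hω]
        · simp only [sel, h i hi]
      simp only [hH, hs]
    set B : Fin k → (Fin k → ℕ) → ℂ := fun i a => ∏ ω ∈ Z with idx ω = i, H ω a with hB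
    have hmain : ∀ a : Fin k → ℕ, cube V a b x *
          e ((∑ ω ∈ Z, sg ω * θ (sel ω a a')) * w)
        = V (x + (tot a : ZMod N)) * ∏ i, B i a := by
      intro a
      have h1 : ∏ i, B i a = ∏ ω ∈ Z, H ω a := by
        rw [hB]
        exact prod_fiberwise Z idx (fun ω => H ω a)
      have h2 : e ((∑ ω ∈ Z, sg ω * θ (sel ω a a')) * w)
          = ∏ ω ∈ Z, e (sg ω * θ (sel ω a a') * w) := by
        rw [sum_mul]
        exact dbq_e_sum Z fun ω => sg ω * θ (sel ω a a') * w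
      have h3 : cube V a b x = V (x + (tot a : ZMod N))
          * ∏ ω ∈ Z, cjj ω (V (x + (tot (sel ω a b) : ZMod N))) := by
        unfold cube
        rw [← mul_prod_erase univ _ (mem_univ (fun _ : Fin k => false))]
        congr 1
        have h0 : sel (fun _ : Fin k => false) a b = a := by
          funext i
          simp [sel]
        rw [h0]
        simp [cjj]
      rw [h1, h2, h3, mul_assoc, ← prod_mul_distrib]
    have hg := gcs hk (fun _ : Fin k => range X') hne (fun a => V (x + (tot a : ZMod N))) B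
      (by
        intro i a
        rw [hB]
        simp only
        rw [norm_prod]
        exact prod_le_one (fun _ _ => norm_nonneg _) fun ω _ => hH1 ω a)
      (by
        intro i a a₂ h
        rw [hB]
        simp only
        refine prod_congr rfl fun ω hω => ?_
        have hω' := mem_filter.mp hω
        refine hHdep ω hω'.1 a a₂ fun l hl => h l ?_
        rw [← hω'.2]
        exact hl)
    have h1 : 𝔼 a ∈ boxset k X', cube V a b x *
          e ((∑ ω ∈ Z, sg ω * θ (sel ω a a')) * w)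
        = 𝔼 a ∈ Fintype.piFinset (fun _ : Fin k => range X'),
          V (x + (tot a : ZMod N)) * ∏ i, B i a :=
      expect_congr rfl fun a _ => hmain a
    rw [h1]
    exact hg

end point

end

end Pool.Agent.Helper67.NX2

end

section

set_option autoImplicit false

open Finset

open scoped BigOperators ComplexConjugate

namespace Pool.Agent.Helper67.NX2

open Pool.Agent.Helper57.NX

noncomputable section

namespace Low94

section Aq

variable {N : ℕ} [NeZero N]

omit [NeZero N] in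
theorem conj_Aq (st L : ℕ) (f : ZMod N → ℂ) (x : ZMod N) :
    conj (Aq st L f x) = Aq st L (fun y => conj (f y)) x := by
  unfold Aq
  rw [Finset.expect_eq_sum_div_card, Finset.expect_eq_sum_div_card, map_div₀, map_sum,
    Complex.conj_natCast]

theorem nrm_Aqb (st L : ℕ) (hL : 1 ≤ L) (f : ZMod N → ℂ) :
    nrm (Aqb st L f) = nrm (Aq st L f) := by
  unfold nrm
  rw [← expect_shift_sub5 (fun x => ‖Aq st L f x‖) ((st * (L - 1) : ℕ) : ZMod N)]
  refine Finset.expect_congr rfl fun x _ => ?_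
  rw [Aqb_eq st L hL]

/-- the form of the smoothed conjugate of the dual function -/
theorem form_w {m : ℕ} (S : Sys (m + 1)) (c : Fin (m + 1) → ℝ) (f0 : ZMod N → ℂ)
    (f : Fin (m + 1) → ZMod N → ℂ) (st L : ℕ) (hL : 1 ≤ L) :
    nrm (Aq st L (dual S c 1 f0 f (Fin.last m))) ^ 2 ≤
      ‖form S c 1 f0 (Function.update f (Fin.last m) (fun x => conj (Aq st L
        (Aqb st L (dual S c 1 f0 f (Fin.last m))) x)))‖ := by
  set F := dual S c 1 f0 f (Fin.last m) with hF
  rw [form_dual, ← hF]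
  have e1 : (𝔼 x : ZMod N, conj (Aq st L (Aqb st L F) x) * F x) =
      ((𝔼 x : ZMod N, ‖Aqb st L F x‖ ^ 2 : ℝ) : ℂ) := by
    simp_rw [conj_Aq]
    rw [adj_Aq]
    push_cast
    refine Finset.expect_congr rfl fun x _ => ?_
    rw [mul_comm, Complex.mul_conj, Complex.normSq_eq_norm_sq]
    push_cast
    rfl
  rw [e1, Complex.norm_real, Real.norm_of_nonneg (expect_nonneg fun x _ => sq_nonneg _),
    ← nrm_Aqb st L hL]
  exact sq_expect_le _

end Aq

theorem a_diff {m N : ℕ} [NeZero N] {S : Sys (m + 1)} {c : Fin (m + 1) → ℝ} {x : ℝ} {lam : ℕ}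
    (h : IG S c N x lam) (hD : 1 ≤ S.D) {d : ℕ} (hd : c (Fin.last m) = d) {q k0 j J : ℕ}
    (hj : j ≤ J) (hk : k0 + q * J ≤ S.u + S.T) :
    ∃ τ : ℤ, S.a c (Fin.last m) (k0 + q * j) = S.a c (Fin.last m) k0 + ((S.Q * q : ℕ) : ℤ) * τ ∧
      |(τ : ℝ)| ≤ d * 3 ^ d * lam ^ d * (S.D ^ (d - 1) * J) := by
  have hD0 : 0 < S.D := by linarith
  obtain ⟨r, hr⟩ := h.rho
  have hrl : (r : ℝ) ≤ lam := by
    rw [← hr]
    have := h.good.ρ1
    have h2 : (0 : ℝ) ≤ lam := Nat.cast_nonneg _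
    nlinarith
  have hl1 : (1 : ℝ) ≤ lam := by exact_mod_cast h.lam1
  rw [a_nat h hD0 hr _ d hd, a_nat h hD0 hr _ d hd]
  set A : ℤ := ((lam * (k0 + q * j) + r : ℕ) : ℤ) with hA
  set B : ℤ := ((lam * k0 + r : ℕ) : ℤ) with hB
  have hAB : A - B = (lam : ℤ) * (q * j) := by
    rw [hA, hB]
    push_cast
    ring
  exact by
    have hgeo := (Commute.all A B).geom_sum₂_mul d
    refine ⟨(lam : ℤ) * j * ∑ i ∈ range d, A ^ i * B ^ (d - 1 - i), ?_, ?_⟩
    · have h1 : A ^ d = B ^ d + (∑ i ∈ range d, A ^ i * B ^ (d - 1 - i)) * (A - B) := by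
        rw [hgeo]; ring
      rw [h1, hAB]
      push_cast
      ring
    · -- sizes
      have hbd : ∀ k : ℕ, k ≤ S.u + S.T → |(((lam * k + r : ℕ) : ℤ) : ℝ)| ≤ 3 * (lam * S.D) := by
        intro k hk
        have h1 : (k : ℝ) ≤ S.u + S.T := by exact_mod_cast hk
        have h2 := h.good.u2
        rw [abs_of_nonneg (by positivity)]
        push_cast
        have h3 : (lam : ℝ) * k ≤ lam * (2 * S.D) :=
          mul_le_mul_of_nonneg_left (h1.trans h2) (by positivity)
        nlinarith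
      exact by
        have hA' : |(A : ℝ)| ≤ 3 * (lam * S.D) := by
          refine hbd _ (le_trans ?_ hk)
          have := Nat.mul_le_mul_left q hj
          omega
        have hB' : |(B : ℝ)| ≤ 3 * (lam * S.D) := hbd _ (by
          have := Nat.zero_le (q * J)
          omega)
        have hsum : |∑ i ∈ range d, (A : ℝ) ^ i * (B : ℝ) ^ (d - 1 - i)| ≤
            d * (3 * (lam * S.D)) ^ (d - 1) := by
          refine (Finset.abs_sum_le_sum_abs _ _).trans ?_
          refine (Finset.sum_le_card_nsmul _ _ ((3 * (lam * S.D)) ^ (d - 1)) fun i hi => ?_).trans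
            (by rw [card_range, nsmul_eq_mul])
          rw [abs_mul, abs_pow, abs_pow]
          have hi' := Finset.mem_range.1 hi
          calc |(A : ℝ)| ^ i * |(B : ℝ)| ^ (d - 1 - i)
              ≤ (3 * (lam * S.D)) ^ i * (3 * (lam * S.D)) ^ (d - 1 - i) :=
                mul_le_mul (pow_le_pow_left₀ (abs_nonneg _) hA' _)
                  (pow_le_pow_left₀ (abs_nonneg _) hB' _) (by positivity) (by positivity)
            _ = (3 * (lam * S.D)) ^ (d - 1) := by
                rw [← pow_add]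
                congr 1
                omega
        push_cast
        rw [abs_mul, abs_mul, Nat.abs_cast, Nat.abs_cast]
        have hjJ : (j : ℝ) ≤ J := by exact_mod_cast hj
        rcases Nat.eq_zero_or_pos d with hd0 | hd0
        · subst hd0
          simp
        · calc (lam : ℝ) * j * |∑ i ∈ range d, (A : ℝ) ^ i * (B : ℝ) ^ (d - 1 - i)|
              ≤ lam * J * (d * (3 * (lam * S.D)) ^ (d - 1)) := by gcongr
            _ = d * 3 ^ (d - 1) * (lam * lam ^ (d - 1)) * (S.D ^ (d - 1) * J) := by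
                rw [mul_pow, mul_pow]
                ring
            _ = d * 3 ^ (d - 1) * lam ^ d * (S.D ^ (d - 1) * J) := by
                rw [← pow_succ', Nat.sub_add_cancel hd0]
            _ ≤ d * 3 ^ d * lam ^ d * (S.D ^ (d - 1) * J) := by
                have : (3 : ℝ) ^ (d - 1) ≤ 3 ^ d :=
                  pow_le_pow_right₀ (by norm_num) (Nat.sub_le _ _)
                gcongr

end Low94

end

end Pool.Agent.Helper67.NX2

end

section

set_option autoImplicit false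

open Finset

open scoped BigOperators ComplexConjugate

namespace Pool.Agent.Helper67.NX2

open Pool.Agent.Helper57.NX

noncomputable section

namespace Low94

/-- freezing the top function on a window of a residue class -/
theorem freeze {m : ℕ} {c : Fin (m + 1) → ℝ} {d : ℕ} (hd : c (Fin.last m) = d)
    {S : Sys (m + 1)} {N : ℕ} [NeZero N] {lam : ℕ} {x : ℝ} (hD1 : 1 ≤ S.D)
    (hIG : IG S c N x lam) {f0 : ZMod N → ℂ} {f : Fin m → ZMod N → ℂ} {w : ZMod N → ℂ}
    (hf0 : ∀ x, ‖f0 x‖ ≤ 1) (hf : ∀ i x, ‖f i x‖ ≤ 1) (hw : ∀ x, ‖w x‖ ≤ 1) {q L2 J r0 u' : ℕ}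
    (hq : 1 ≤ q) (hL2 : 1 ≤ L2) (hJ : 1 ≤ J) (hu' : 1 ≤ u')
    (hwin : q * (u' + J) + r0 ≤ S.u + S.T) {η : ℝ}
    (hη : 2 * (d * 3 ^ d * lam ^ d * (S.D ^ (d - 1) * J)) / L2 ≤ η / 4)
    (hform : η / 2 ≤ ‖𝔼 j ∈ Ico u' (u' + J), 𝔼 x, f0 x * ∏ i : Fin (m + 1),
      (Fin.snoc (α := fun _ => ZMod N → ℂ) f (Aq (S.Q * q) L2 w) i)
        (x + (S.a c i (q * j + r0) : ZMod N))‖) :
    η / 4 ≤ ‖form (dil S c q r0 u' J).init (fun i => c i.castSucc) 1
      (fun x => f0 x * Aq (S.Q * q) L2 w (x + (S.a c (Fin.last m) (q * u' + r0) : ZMod N))) f‖ := by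
  have hD0 : 0 < S.D := by linarith
  set g : ZMod N → ℂ := Aq (S.Q * q) L2 w with hg
  have hgb : ∀ x, ‖g x‖ ≤ 1 := norm_Aq_le hw _ _
  have hL20 : (0 : ℝ) < L2 := by exact_mod_cast hL2
  have hη0 : 0 ≤ η / 4 := le_trans (by positivity) hη
  -- the frozen form
  have e1 : form (dil S c q r0 u' J).init (fun i => c i.castSucc) 1
      (fun x => f0 x * g (x + (S.a c (Fin.last m) (q * u' + r0) : ZMod N))) f =
      𝔼 j ∈ Ico u' (u' + J), 𝔼 x : ZMod N, f0 x *
        g (x + (S.a c (Fin.last m) (q * u' + r0) : ZMod N)) *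
        ∏ i : Fin m, f i (x + (S.a c i.castSucc (q * j + r0) : ZMod N)) := by
    unfold form
    show (𝔼 j ∈ Ico u' (u' + J), _) = _
    refine Finset.expect_congr rfl fun j _ => ?_
    rw [Pi.one_apply, one_mul]
    refine Finset.expect_congr rfl fun x _ => ?_
    congr 1
    refine Finset.prod_congr rfl fun i _ => ?_
    have h1 := dil_a S c q r0 u' J j hq hu' hD0 hIG.good.ρ0 i.castSucc
    have h2 : (dil S c q r0 u' J).init.a (fun i => c i.castSucc) i j =
        (dil S c q r0 u' J).a c i.castSucc j := rfl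
    rw [h2, h1]
  exact by
    rw [e1]
    have e2 : ∀ j x, (f0 x * ∏ i : Fin (m + 1),
        (Fin.snoc (α := fun _ => ZMod N → ℂ) f g i)
          (x + (S.a c i (q * j + r0) : ZMod N))) =
        f0 x * g (x + (S.a c (Fin.last m) (q * j + r0) : ZMod N)) *
          ∏ i : Fin m, f i (x + (S.a c i.castSucc (q * j + r0) : ZMod N)) := by
      intro j x
      rw [Fin.prod_univ_castSucc]
      simp only [Fin.snoc_castSucc, Fin.snoc_last]
      ring
    simp_rw [e2] at hform
    have e3 : ‖(𝔼 j ∈ Ico u' (u' + J), 𝔼 x : ZMod N, f0 x *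
          g (x + (S.a c (Fin.last m) (q * j + r0) : ZMod N)) *
          ∏ i : Fin m, f i (x + (S.a c i.castSucc (q * j + r0) : ZMod N))) -
        𝔼 j ∈ Ico u' (u' + J), 𝔼 x : ZMod N, f0 x *
          g (x + (S.a c (Fin.last m) (q * u' + r0) : ZMod N)) *
          ∏ i : Fin m, f i (x + (S.a c i.castSucc (q * j + r0) : ZMod N))‖ ≤ η / 4 := by
      rw [← Finset.expect_sub_distrib]
      refine norm_expect_le_of5 _ _ hη0 fun j hj => ?_
      rw [← Finset.expect_sub_distrib]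
      refine norm_expect_le_of5 _ _ hη0 fun x _ => ?_
      rw [← sub_mul, ← mul_sub, norm_mul, norm_mul]
      have hj' := Finset.mem_Ico.1 hj
      obtain ⟨τ, h1, h2⟩ := a_diff hIG hD1 hd (q := q) (k0 := q * u' + r0) (j := j - u') (J := J)
        (by omega) (by
          have : q * (u' + J) = q * u' + q * J := mul_add _ _ _
          omega)
      have h3 : q * u' + r0 + q * (j - u') = q * j + r0 := by
        have h4 : q * j = q * u' + q * (j - u') := by
          rw [← mul_add]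
          congr 1
          omega
        omega
      rw [h3] at h1
      have h5 : ‖g (x + (S.a c (Fin.last m) (q * j + r0) : ZMod N)) -
          g (x + (S.a c (Fin.last m) (q * u' + r0) : ZMod N))‖ ≤ η / 4 := by
        have h6 := Aq_lipschitz hw (S.Q * q) L2 hL2
          (x + (S.a c (Fin.last m) (q * u' + r0) : ZMod N)) τ
        rw [h1]
        have h7 : x + (((S.a c (Fin.last m) (q * u' + r0) + ((S.Q * q : ℕ) : ℤ) * τ : ℤ)) : ZMod N) =
            x + (S.a c (Fin.last m) (q * u' + r0) : ZMod N) +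
              (((S.Q * q : ℕ) : ℤ) * τ : ℤ) := by
          push_cast
          ring
        rw [h7]
        refine h6.trans (le_trans ?_ hη)
        gcongr
      have h8 : ‖∏ i : Fin m, f i (x + (S.a c i.castSucc (q * j + r0) : ZMod N))‖ ≤ 1 := by
        rw [norm_prod]
        exact Finset.prod_le_one (fun i _ => norm_nonneg _) fun i _ => hf i _
      calc ‖f0 x‖ * ‖g (x + (S.a c (Fin.last m) (q * j + r0) : ZMod N)) -
          g (x + (S.a c (Fin.last m) (q * u' + r0) : ZMod N))‖ *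
          ‖∏ i : Fin m, f i (x + (S.a c i.castSucc (q * j + r0) : ZMod N))‖
          ≤ 1 * (η / 4) * 1 := mul_le_mul (mul_le_mul (hf0 x) h5 (norm_nonneg _) zero_le_one) h8
            (norm_nonneg _) (by positivity)
        _ = η / 4 := by ring
    have e4 := norm_sub_norm_le (𝔼 j ∈ Ico u' (u' + J), 𝔼 x : ZMod N, f0 x *
          g (x + (S.a c (Fin.last m) (q * j + r0) : ZMod N)) *
          ∏ i : Fin m, f i (x + (S.a c i.castSucc (q * j + r0) : ZMod N)))
        (𝔼 j ∈ Ico u' (u' + J), 𝔼 x : ZMod N, f0 x *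
          g (x + (S.a c (Fin.last m) (q * u' + r0) : ZMod N)) *
          ∏ i : Fin m, f i (x + (S.a c i.castSucc (q * j + r0) : ZMod N)))
    linarith

end Low94

end

end Pool.Agent.Helper67.NX2

end

section

set_option autoImplicit false

open Finset

open scoped BigOperators ComplexConjugate

namespace Pool.Agent.Helper67.NX2

open Pool.Agent.Helper57.NX

noncomputable section

theorem e_sum21 {ι : Type} (s : Finset ι) (t : ι → ℝ) : e (∑ i ∈ s, t i) = ∏ i ∈ s, e (t i) := by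
  classical
  induction s using Finset.induction_on with
  | empty => rw [Finset.sum_empty, Finset.prod_empty, e_zero]
  | insert i s hi ih => rw [Finset.sum_insert hi, Finset.prod_insert hi, e_add, ih]

end

end Pool.Agent.Helper67.NX2

end

section

set_option autoImplicit false

open Finset

open scoped BigOperators ComplexConjugate

namespace Pool.Agent.Helper67.NX2

open Pool.Agent.Helper57.NX

noncomputable section

/-- the sizes of the steps of the sequences relative to `P i` -/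
theorem step_le21 {m : ℕ} {S : Sys m} {c : Fin m → ℝ} {N : ℕ} [NeZero N] {x : ℝ} {lam : ℕ}
    (hG : IG S c N x lam) (hD : 1 ≤ S.D) (i : Fin m) (d : ℕ) (hd : c i = d) (hd1 : 1 ≤ d)
    (k q j : ℕ) (hk : ((k + q * j : ℕ) : ℝ) + S.ρ ≤ 4 * S.D) :
    ∃ t : ℤ, S.a c i (k + q * j) = S.a c i k + ((S.Q * q : ℕ) : ℤ) * t ∧
      |(t : ℝ)| * ((S.Q * q : ℕ) : ℝ) / S.P i ≤ d * 4 ^ d * (q * j / S.D) := by
  have hD0 : 0 < S.D := by (clear * - hD; linarith)
  obtain ⟨r, hr⟩ := hG.rho
  obtain ⟨t, ht1, ht2⟩ := step21 S.Q lam r k q j d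
  refine ⟨t, ?_, ?_⟩
  · rw [a_nat hG hD0 hr i d hd, a_nat hG hD0 hr i d hd]
    exact ht1
  · have hQ0 : (0 : ℝ) < S.Q := (Real.rpow_pos_of_pos hD0 _).trans_le hG.good.Q1
    have hlam : (0 : ℝ) < lam := by exact_mod_cast hG.lam1
    have hP : S.P i = S.Q * (lam * S.D) ^ d := hG.Pint i d hd
    have hP0 : 0 < S.P i := by rw [hP]; (clear * - hQ0 hlam hD; positivity)
    rw [div_le_iff₀ hP0, hP]
    refine ht2.trans ?_
    have h1 : ((lam * (k + q * j) + r : ℕ) : ℝ) ≤ 4 * (lam * S.D) := by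
      push_cast at hk ⊢
      rw [← hr]
      (clear * - hk; nlinarith)
    exact by
      have h2 : ((lam * (k + q * j) + r : ℕ) : ℝ) ^ (d - 1) ≤ (4 * (lam * S.D)) ^ (d - 1) :=
        pow_le_pow_left₀ (Nat.cast_nonneg _) h1 _
      have h3 : (lam * S.D) ^ d = (lam * S.D) ^ (d - 1) * (lam * S.D) := by
        rw [← pow_succ]
        congr 1
        omega
      have h4 : (4 : ℝ) ^ (d - 1) ≤ 4 ^ d := pow_le_pow_right₀ (by norm_num) (by omega)
      calc S.Q * (d * (lam * (q * j)) * ((lam * (k + q * j) + r : ℕ) : ℝ) ^ (d - 1))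
          ≤ S.Q * (d * (lam * (q * j)) * (4 * (lam * S.D)) ^ (d - 1)) := by (clear * - h2 hd1 hlam hQ0; gcongr)
        _ = S.Q * (d * (lam * (q * j)) * (4 ^ (d - 1) * (lam * S.D) ^ (d - 1))) := by rw [mul_pow]
        _ ≤ S.Q * (d * (lam * (q * j)) * (4 ^ d * (lam * S.D) ^ (d - 1))) := by (clear * - h4 hlam hD hd1 hQ0; gcongr)
        _ = d * 4 ^ d * (q * j / S.D) * (S.Q * (lam * S.D) ^ d) := by
          rw [h3]
          (clear * - hD hlam hd1 hQ0; field_simp)

end

end Pool.Agent.Helper67.NX2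

end
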