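import Pool.Agent.Helper23.MC.L00_a1
import Pool.Agent.Helper23.MC.L00_a10
import Pool.Agent.Helper23.MC.L00_a11
import Pool.Agent.Helper23.MC.L00_a12
import Pool.Agent.Helper23.MC.L00_a13
import Pool.Agent.Helper23.MC.L00_a2
import Pool.Agent.Helper23.MC.L00_a6
import Pool.Agent.Helper23.MC.L00_a7
import Pool.Agent.Helper23.MC.L00_a9

/-!
Parts of Helper15.NX2.TopArithOf, Helper96.CPAP.SieveK, Helper57.FP.Shift, Helper57.FP.PsiAvg, Helper57.FP.Tree, Helper57.FP.Pairs, Helper57.FP.Energy, Helper57.FP.Induct, Helper7.NX3.PairSieve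
-/

attribute [local instance 5000]
  Pool.Agent.Helper23.MC.Inst.rCharZero Pool.Agent.Helper23.MC.Inst.rALM
  Pool.Agent.Helper23.MC.Inst.rARM Pool.Agent.Helper23.MC.Inst.rALSM
  Pool.Agent.Helper23.MC.Inst.rARSM Pool.Agent.Helper23.MC.Inst.rARRLE
  Pool.Agent.Helper23.MC.Inst.rALRLE Pool.Agent.Helper23.MC.Inst.rARRLT
  Pool.Agent.Helper23.MC.Inst.rALRLT Pool.Agent.Helper23.MC.Inst.rPMRLT
  Pool.Agent.Helper23.MC.Inst.rMPRLT Pool.Agent.Helper23.MC.Inst.rPMM
  Pool.Agent.Helper23.MC.Inst.rMPM Pool.Agent.Helper23.MC.Inst.rPMSM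
  Pool.Agent.Helper23.MC.Inst.rMPSM Pool.Agent.Helper23.MC.Inst.rEAOL
  Pool.Agent.Helper23.MC.Inst.rIOR Pool.Agent.Helper23.MC.Inst.rISOR
  Pool.Agent.Helper23.MC.Inst.rNZD Pool.Agent.Helper23.MC.Inst.rcCharZero
  Pool.Agent.Helper23.MC.Inst.rcNZD Pool.Agent.Helper23.MC.Inst.zCharZero
  Pool.Agent.Helper23.MC.Inst.zALM Pool.Agent.Helper23.MC.Inst.zARM
  Pool.Agent.Helper23.MC.Inst.zALSM Pool.Agent.Helper23.MC.Inst.zARSM
  Pool.Agent.Helper23.MC.Inst.zIOR Pool.Agent.Helper23.MC.Inst.zISOR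
  Pool.Agent.Helper23.MC.Inst.zNZD Pool.Agent.Helper23.MC.Inst.qCharZero
  Pool.Agent.Helper23.MC.Inst.mR Pool.Agent.Helper23.MC.Inst.mC Pool.Agent.Helper23.MC.Inst.mRC
  Pool.Agent.Helper23.MC.Inst.rPSM Pool.Agent.Helper23.MC.Inst.rCSM
  Pool.Agent.Helper23.MC.Inst.cAdd Pool.Agent.Helper23.MC.Inst.cAddM
  Pool.Agent.Helper23.MC.Inst.cMul Pool.Agent.Helper23.MC.Inst.cMon

namespace Pool.Agent.Helper44
end Pool.Agent.Helper44
namespace Pool.Agent.Helper57.FP
end Pool.Agent.Helper57.FP
namespace Pool.Agent.Helper57.NX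
end Pool.Agent.Helper57.NX
namespace Pool.Agent.Helper96.CPAP
end Pool.Agent.Helper96.CPAP

section

set_option autoImplicit false

open Finset

open scoped BigOperators ComplexConjugate

namespace Pool.Agent.Helper67.NX2

open Pool.Agent.Helper57.NX

noncomputable section

section Aux

variable {m N : ℕ} [NeZero N] {S : Sys (m + 1)} {c : Fin (m + 1) → ℝ} {x : ℝ} {lam : ℕ}

theorem inv_pow_le15' {D δ τ : ℝ} {j : ℕ} (hD : 0 < D) (h : D ^ (-τ) ≤ δ ^ j) :
    δ⁻¹ ^ j ≤ D ^ τ := by
  have h1 : 0 < D ^ (-τ) := Real.rpow_pos_of_pos hD _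
  rw [inv_pow]
  calc (δ ^ j)⁻¹ ≤ (D ^ (-τ))⁻¹ := inv_anti₀ h1 h
    _ = D ^ τ := by rw [Real.rpow_neg hD.le, inv_inv]

end Aux

end

end Pool.Agent.Helper67.NX2

end

section

set_option autoImplicit false

open Finset Real

namespace Pool.Agent.Helper96.CPAP

open Pool.Agent.Helper44

/-- The `k`-dimensional Brun-Hooley sieve. -/
theorem sieveK (k : ℕ) : ∃ K c : ℝ, 1 ≤ K ∧ 0 < c ∧ ∀ (α : Type) (P : ℕ → Prop),
    (∀ q, P q → q.Prime ∧ 2 * k ≤ q) → ∀ ν : ℕ → ℝ, (∀ q, P q → 0 ≤ ν q ∧ ν q ≤ k) →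
    ∀ w : ℝ, 2 ≤ w → ∀ (Ω : Finset α) (occ : ℕ → α → Prop) (X E : ℝ), 0 ≤ X → 0 ≤ E →
    (∀ I : Finset ℕ, (∀ q ∈ I, P q ∧ (q : ℝ) ≤ w) →
      |evCount Ω (fun ω => ∀ q ∈ I, occ q ω) - X * ∏ q ∈ I, (ν q / q)| ≤
        E * ((k : ℝ) + 1) ^ I.card) →
    evCount Ω (fun ω => ∀ q : ℕ, P q → (q : ℝ) ≤ w → ¬ occ q ω) ≤
        2 * X * (∏ q ∈ pU P w, (1 - ν q / q)) + E * w ^ K ∧
    c * X / (Real.log w) ^ k - E * w ^ K ≤
      evCount Ω (fun ω => ∀ q : ℕ, P q → (q : ℝ) ≤ w → ¬ occ q ω) := by
  obtain ⟨S0, hS0, hS⟩ := sum_inv_pb_le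
  obtain ⟨c1, hc1, hlow⟩ := prod_lower_bound k
  set S1 : ℝ := k * S0 with hS1
  have hS1n : 0 ≤ S1 := by (clear * - hS0; positivity)
  have hsum : Summable (fun n : ℕ => S1 ^ n / (n.factorial : ℝ)) := Real.summable_pow_div_factorial S1
  obtain ⟨s0, hs0⟩ := summable_iff_vanishing_norm.mp hsum (Real.exp (-(2 * S1)) / 2) (by positivity)
  set b := s0.sup id + 1 with hb
  set K0 : ℝ := ((k : ℝ) + 2) * (4 * b + 6) with hK0
  have hK0' : 0 ≤ K0 := by (clear * -; positivity)
  exact by
    refine ⟨K0 + 2, c1 / 2, by (clear * - hK0'; linarith), by positivity, ?_⟩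
    intro α P hP ν hν w hw Ω occ X E hX hE hcnt
    have hP' : ∀ q, P q → q.Prime := fun q h => (hP q h).1
    have hw1 : (1 : ℝ) ≤ w := by (clear * - hw; linarith)
    have hw0 : (0 : ℝ) < w := by (clear * - hw; linarith)
    have hlw : 0 < Real.log w := Real.log_pos (by linarith)
    have hdisj : ∀ i j : Fin (nb w), i ≠ j → Disjoint (pb P w i) (pb P w j) := by
      intro i j hij
      exact pb_disjoint hw1 (fun h => hij (Fin.ext h))
    have hx : ∀ j : ℕ, ∀ i ∈ pb P w j, 0 ≤ ν i / i ∧ ν i / i ≤ 1 / 2 := by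
      intro j i hi
      rw [mem_pb] at hi
      have h1 := hP i hi.2
      have h2 := hν i hi.2
      have hq0 : (0 : ℝ) < i := by exact_mod_cast h1.1.pos
      have h3 : (2 : ℝ) * k ≤ i := by exact_mod_cast h1.2
      refine ⟨div_nonneg h2.1 hq0.le, ?_⟩
      rw [div_le_iff₀ hq0]
      (clear * - h2 h3; linarith)
    have hcnt' : ∀ I : Finset ℕ,
        I ⊆ Finset.univ.biUnion (fun j : Fin (nb w) => pb P w j) →
        |evCount Ω (fun ω => ∀ i ∈ I, occ i ω) - X * ∏ i ∈ I, (ν i / i)| ≤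
          E * ((k : ℝ) + 1) ^ I.card := by
      intro I hI
      apply hcnt
      intro q hq
      have := hI hq
      rwa [biUnion_pb hP' hw, mem_pU hP' hw0.le] at this
    exact by
      have hsumx : ∀ j : ℕ, ∑ i ∈ pb P w j, ν i / i ≤ S1 := by
        intro j
        calc ∑ i ∈ pb P w j, ν i / i ≤ ∑ i ∈ pb P w j, k * ((1 : ℝ) / i) := by
              apply Finset.sum_le_sum
              intro i hi
              rw [mem_pb] at hi
              have hq0 : (0 : ℝ) < i := by exact_mod_cast (hP' i hi.2).pos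
              rw [mul_one_div]
              exact div_le_div_of_nonneg_right (hν i hi.2).2 hq0.le
          _ = k * ∑ i ∈ pb P w j, (1 : ℝ) / i := by rw [Finset.mul_sum]
          _ ≤ k * S0 := mul_le_mul_of_nonneg_left (hS P hP' w hw j) (by (clear * -; positivity))
      have hVlow : ∀ j : Fin (nb w), Real.exp (-(2 * S1)) ≤ ∏ i ∈ pb P w j, (1 - ν i / i) := by
        intro j
        calc Real.exp (-(2 * S1)) ≤ Real.exp (-∑ i ∈ pb P w j, 2 * (ν i / i)) := by
              apply Real.exp_le_exp.mpr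
              rw [← Finset.mul_sum]
              have := hsumx j
              (clear * - this; linarith)
          _ = ∏ i ∈ pb P w j, Real.exp (-(2 * (ν i / i))) := by
              rw [← Finset.sum_neg_distrib, Real.exp_sum]
          _ ≤ _ := by
              apply Finset.prod_le_prod
              · intro i _; exact (Real.exp_pos _).le
              · intro i hi
                have := hx j i hi
                exact one_sub_ge_exp this.1 this.2
      have hr : ∑ j : Fin (nb w), es (pb P w j) (2 * (b + (j : ℕ)) + 1) (fun q => ν q / q) /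
          ∏ i ∈ pb P w j, (1 - ν i / i) ≤ 1 / 2 := by
        have hterm : ∀ j : Fin (nb w), es (pb P w j) (2 * (b + (j : ℕ)) + 1) (fun q => ν q / q) /
            ∏ i ∈ pb P w j, (1 - ν i / i) ≤
            (S1 ^ (2 * (b + (j : ℕ)) + 1) / ((2 * (b + (j : ℕ)) + 1).factorial : ℝ)) *
              Real.exp (2 * S1) := by
          intro j
          have h1 : es (pb P w j) (2 * (b + (j : ℕ)) + 1) (fun q => ν q / q) ≤
              S1 ^ (2 * (b + (j : ℕ)) + 1) / ((2 * (b + (j : ℕ)) + 1).factorial : ℝ) := by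
            refine (es_le_pow_div_factorial _ _ (fun i hi => (hx j i hi).1) _).trans ?_
            apply div_le_div_of_nonneg_right _ (by positivity)
            apply pow_le_pow_left₀ (Finset.sum_nonneg fun i hi => (hx j i hi).1) (hsumx j)
          have h2 := hVlow j
          have h3 : 0 < Real.exp (-(2 * S1)) := Real.exp_pos _
          rw [div_le_iff₀ (h3.trans_le h2)]
          calc es (pb P w j) (2 * (b + (j : ℕ)) + 1) (fun q => ν q / q)
              ≤ S1 ^ (2 * (b + (j : ℕ)) + 1) / ((2 * (b + (j : ℕ)) + 1).factorial : ℝ) * 1 := by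
                rw [mul_one]; exact h1
            _ = S1 ^ (2 * (b + (j : ℕ)) + 1) / ((2 * (b + (j : ℕ)) + 1).factorial : ℝ) *
                  (Real.exp (2 * S1) * Real.exp (-(2 * S1))) := by
                rw [← Real.exp_add]; simp
            _ ≤ S1 ^ (2 * (b + (j : ℕ)) + 1) / ((2 * (b + (j : ℕ)) + 1).factorial : ℝ) *
                  (Real.exp (2 * S1) * ∏ i ∈ pb P w j, (1 - ν i / i)) := by
                (clear * - h2 hS0; gcongr)
            _ = _ := by ring
        calc ∑ j : Fin (nb w), es (pb P w j) (2 * (b + (j : ℕ)) + 1) (fun q => ν q / q) /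
              ∏ i ∈ pb P w j, (1 - ν i / i)
            ≤ ∑ j : Fin (nb w), (S1 ^ (2 * (b + (j : ℕ)) + 1) /
                ((2 * (b + (j : ℕ)) + 1).factorial : ℝ)) * Real.exp (2 * S1) :=
              Finset.sum_le_sum fun j _ => hterm j
          _ = (∑ n ∈ (Finset.univ : Finset (Fin (nb w))).image (fun j : Fin (nb w) => 2 * (b + (j : ℕ)) + 1),
                S1 ^ n / (n.factorial : ℝ)) * Real.exp (2 * S1) := by
              rw [← Finset.sum_mul, Finset.sum_image]
              intro i _ j _ hij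
              apply Fin.ext
              simp only at hij
              omega
          _ ≤ (Real.exp (-(2 * S1)) / 2) * Real.exp (2 * S1) := by
              apply mul_le_mul_of_nonneg_right _ (Real.exp_pos _).le
              have h4 := hs0 ((Finset.univ : Finset (Fin (nb w))).image
                (fun j : Fin (nb w) => 2 * (b + (j : ℕ)) + 1)) ?_
              · rw [Real.norm_eq_abs] at h4
                exact (le_abs_self _).trans h4.le
              · rw [Finset.disjoint_left]
                intro n hn hn'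
                rw [Finset.mem_image] at hn
                obtain ⟨j, _, rfl⟩ := hn
                have : id (2 * (b + (j : ℕ)) + 1) ≤ s0.sup id := Finset.le_sup (f := id) hn'
                simp only [id] at this
                omega
          _ = 1 / 2 := by
              rw [div_mul_eq_mul_div, ← Real.exp_add]; simp
      have hmain := brun_hooleyK Ω occ (fun j : Fin (nb w) => pb P w j) hdisj (fun q => ν q / q)
        (fun j i hi => hx j i hi) X E ((k : ℝ) + 1) hX hE (by (clear * - α; linarith [Nat.cast_nonneg (α := ℝ) k]))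
        hcnt' (fun j => 2 * (b + (j : ℕ)))
        (fun j => even_two_mul _) hr
      -- identify the event
      have hevent : (fun ω : α => ∀ j : Fin (nb w), ∀ i ∈ pb P w j, ¬ occ i ω) =
          (fun ω => ∀ q : ℕ, P q → (q : ℝ) ≤ w → ¬ occ q ω) := by
        funext ω
        apply propext
        constructor
        · intro h q hq hqw
          have : q ∈ (Finset.univ : Finset (Fin (nb w))).biUnion (fun j => pb P w j) := by
            rw [biUnion_pb hP' hw, mem_pU hP' hw0.le]
            exact ⟨hq, hqw⟩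
          rw [Finset.mem_biUnion] at this
          obtain ⟨j, _, hj⟩ := this
          exact h j q hj
        · intro h j i hi
          have hi' : i ∈ (Finset.univ : Finset (Fin (nb w))).biUnion (fun j => pb P w j) :=
            Finset.mem_biUnion.mpr ⟨j, Finset.mem_univ _, hi⟩
          rw [biUnion_pb hP' hw, mem_pU hP' hw0.le] at hi'
          exact h i hi'.1 hi'.2
      rw [hevent] at hmain
      -- the product
      have hprodV : ∏ j : Fin (nb w), ∏ i ∈ pb P w j, (1 - ν i / i) =
          ∏ q ∈ pU P w, (1 - ν q / q) := by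
        rw [← Finset.prod_biUnion, biUnion_pb hP' hw]
        intro i _ j _ hij
        exact hdisj i j hij
      rw [hprodV] at hmain
      have hPw := hlow P hP ν hν w hw
      exact by
        have hprod := prod_pb_card_le hP' k hw b
        have hprod0 : 0 ≤ ∏ j : Fin (nb w),
            (((k : ℝ) + 1) * ((pb P w j).card : ℝ) + 1) ^ (2 * (b + (j : ℕ)) + 1) :=
          Finset.prod_nonneg fun j _ => by (clear * -; positivity)
        have hwK : w ^ (K0 + 2) = w ^ K0 * w ^ 2 := by
          rw [Real.rpow_add hw0]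
          norm_num
        have hwK0 : 0 < w ^ K0 := Real.rpow_pos_of_pos hw0 _
        have hnb : (nb w : ℝ) + 1 ≤ w ^ 2 := by
          unfold nb
          push_cast
          have := Nat.floor_le hw0.le
          (clear * - hw this; nlinarith)
        constructor
        · refine hmain.1.trans ?_
          have h2 : E * ∏ j : Fin (nb w),
              (((k : ℝ) + 1) * ((pb P w j).card : ℝ) + 1) ^ (2 * (b + (j : ℕ)) + 1) ≤
              E * w ^ (K0 + 2) := by
            apply mul_le_mul_of_nonneg_left _ hE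
            refine hprod.trans ?_
            rw [hwK]
            have : (1 : ℝ) ≤ w ^ 2 := one_le_pow₀ hw1
            (clear * - hprod hprod0 hnb; nlinarith)
          (clear * - h2; linarith)
        · refine le_trans ?_ hmain.2
          exact by
            have h1 : c1 / 2 * X / Real.log w ^ k ≤
                1 / 2 * X * ∏ q ∈ pU P w, (1 - ν q / q) := by
              calc c1 / 2 * X / Real.log w ^ k = 1 / 2 * X * (c1 / Real.log w ^ k) := by ring
                _ ≤ _ := by
                    apply mul_le_mul_of_nonneg_left _ (by (clear * - hX; positivity))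
                    exact hPw
            have h2 : E * (((nb w : ℕ) + 1) *
                ∏ j : Fin (nb w), (((k : ℝ) + 1) * ((pb P w j).card : ℝ) + 1) ^ (2 * (b + (j : ℕ)) + 1)) ≤
                E * w ^ (K0 + 2) := by
              apply mul_le_mul_of_nonneg_left _ hE
              rw [hwK, mul_comm (w ^ K0)]
              exact mul_le_mul hnb hprod hprod0 (by positivity)
            (clear * - h1 h2; linarith)

end Pool.Agent.Helper96.CPAP

end

section

set_option autoImplicit false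

open Finset Real

namespace Pool.Agent.Helper57.FP

open Pool.Agent.Helper44 Pool.Agent.Helper96.CPAP

section

variable {ι : Type*}

theorem count_bound' [Fintype ι] (y : ι → ℕ) (I : Finset ℕ) (hI : ∀ q ∈ I, q.Prime) (N : ℕ) :
    |evCount (range N) (fun n => ∀ q ∈ I, ∃ i, q ∣ n + y i) -
      (N : ℝ) * ∏ q ∈ I, ((nu y q : ℝ) / q)| ≤ 1 * ((Fintype.card ι : ℝ) + 1) ^ I.card := by
  classical
  have hpos : 0 < ∏ q ∈ I, q := Finset.prod_pos fun q' hq' => (hI q' hq').pos
  have hper : ∀ n, (∀ q ∈ I, ∃ i, q ∣ (n + ∏ q ∈ I, q) + y i) ↔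
      (∀ q ∈ I, ∃ i, q ∣ n + y i) := by
    intro n
    apply forall₂_congr
    intro q' hq'
    apply occ_iff_of_modEq
    have h1 : ∏ q ∈ I, q ≡ 0 [MOD q'] :=
      (Nat.modEq_zero_iff_dvd).mpr (Finset.dvd_prod_of_mem _ hq')
    simpa using h1.add_left n
  have h1 := count_periodic_bound (p := fun n => ∀ q ∈ I, ∃ i, q ∣ n + y i) hpos hper N
  rw [Nat.count_eq_card_filter_range, Nat.count_eq_card_filter_range, card_occ_prod' y I hI] at h1
  rw [evCount_eq, Finset.prod_div_distrib]
  push_cast at h1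
  refine h1.trans ?_
  rw [one_mul]
  calc ∏ q ∈ I, (nu y q : ℝ) ≤ ∏ _q ∈ I, ((Fintype.card ι : ℝ) + 1) := by
        apply Finset.prod_le_prod
        · intro q _; (clear * -; positivity)
        · intro q _
          have : (nu y q : ℝ) ≤ Fintype.card ι := by exact_mod_cast nu_le y q
          (clear * - this; linarith)
    _ = _ := by rw [Finset.prod_const]

end

/-- Upper bound sieve for prime tuples with arbitrary distinct shifts. -/
theorem sieve_shift (ι : Type) [Fintype ι] (r : ℕ) (hr : Fintype.card ι = r) :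
    ∃ C : ℝ, 0 < C ∧ ∃ Z0 : ℕ, ∀ Z : ℕ, Z0 ≤ Z → ∀ y : ι → ℕ,
    Function.Injective y →
    (((range Z).filter (fun n => ∀ i, (n + y i).Prime)).card : ℝ) ≤
      C * (1 + ∑ i, ∑ j, Psi (2 * r * (r * r)) ((y i : ℤ) - y j)) * (Z / (Real.log Z) ^ r) := by
  classical
  obtain ⟨K, c, hK, hc, hS⟩ := sieveK r
  obtain ⟨C, hC, hprod⟩ := prod_nu_le ι r hr
  obtain ⟨Z1, hZ1⟩ := Filter.eventually_atTop.mp (eventually_small r)
  obtain ⟨Z2, hZ2⟩ : ∃ Z2 : ℕ, ∀ Z : ℕ, Z2 ≤ Z → (2 : ℝ) ≤ (Z : ℝ) ^ (1 / (2 * K)) := by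
    have h := (tendsto_rpow_atTop (y := 1 / (2 * K)) (by positivity)).comp
      (tendsto_natCast_atTop_atTop (R := ℝ))
    obtain ⟨Z2, h2⟩ := Filter.eventually_atTop.mp (h.eventually (Filter.eventually_ge_atTop 2))
    exact ⟨Z2, h2⟩
  refine ⟨2 * C * (2 * K) ^ r + 1, by (clear * - hC hK; positivity), max (max Z1 Z2) 2, ?_⟩
  intro Z hZ y hy
  have hZ1' := hZ1 Z ((le_max_left _ _).trans ((le_max_left _ _).trans hZ))
  have hZ2' := hZ2 Z ((le_max_right _ _).trans ((le_max_left _ _).trans hZ))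
  have hZ3 : 2 ≤ Z := (le_max_right _ _).trans hZ
  have hZr : (1 : ℝ) < Z := by exact_mod_cast hZ3
  have hZ0 : (0 : ℝ) < Z := by (clear * - hZr; linarith)
  have hlog : 0 < Real.log Z := Real.log_pos hZr
  exact by
    set w : ℝ := (Z : ℝ) ^ (1 / (2 * K)) with hw
    have hw0 : 0 < w := by (clear * - hZ2'; linarith)
    have hlogw : Real.log w = Real.log Z / (2 * K) := by
      rw [hw, Real.log_rpow hZ0]; ring
    have hwK : w ^ K = (Z : ℝ) ^ (1 / 2 : ℝ) := by
      rw [hw, ← Real.rpow_mul hZ0.le]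
      congr 1
      field_simp
    have hwle : w ≤ (Z : ℝ) ^ (1 / 2 : ℝ) := by
      rw [hw]
      apply Real.rpow_le_rpow_of_exponent_le hZr.le
      apply one_div_le_one_div_of_le (by norm_num)
      (clear * - hK; linarith)
    have hone : (1 : ℝ) ≤ (Z : ℝ) ^ (1 / 2 : ℝ) := Real.one_le_rpow hZr.le (by norm_num)
    -- sieve bound
    have h1 := (hS ℕ (PP r) (fun q h => h) (fun q => (nu y q : ℝ)) (fun q _ => by
        refine ⟨by (clear * -; positivity), ?_⟩
        have := nu_le y q
        rw [hr] at this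
        exact_mod_cast this) w hZ2' (range Z) (fun q n => ∃ i, q ∣ n + y i) Z 1 hZ0.le zero_le_one
        (fun I hI => by
          have := count_bound' y I (fun q hq => (hI q hq).1.1) Z
          rwa [hr] at this)).1
    exact by
      rw [hwK, one_mul] at h1
      -- cover
      have h2 : (((range Z).filter (fun n => ∀ i, (n + y i).Prime)).card : ℝ) ≤
          evCount (range Z) (fun n => ∀ q : ℕ, PP r q → (q : ℝ) ≤ w → ¬ ∃ i, q ∣ n + y i) +
            (w + 1) := by
        rw [evCount_eq]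
        have hsub : (range Z).filter (fun n => ∀ i, (n + y i).Prime) ⊆
            (range Z).filter (fun n => ∀ q : ℕ, PP r q → (q : ℝ) ≤ w → ¬ ∃ i, q ∣ n + y i) ∪
              range (⌊w⌋₊ + 1) := by
          intro n hn
          rw [Finset.mem_filter] at hn
          rw [Finset.mem_union, Finset.mem_filter, Finset.mem_range]
          by_cases h : n < ⌊w⌋₊ + 1
          · right; exact Finset.mem_range.mpr h
          · left
            refine ⟨Finset.mem_range.mp hn.1, ?_⟩
            rintro q hq hqw ⟨i, hi⟩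
            have h3 : q = n + y i := (Nat.prime_dvd_prime_iff_eq hq.1 (hn.2 i)).mp hi
            have h4 : q ≤ ⌊w⌋₊ := Nat.le_floor hqw
            omega
        have h3 := Finset.card_le_card hsub
        have h4 := h3.trans (Finset.card_union_le _ _)
        rw [Finset.card_range] at h4
        have h5 : ((⌊w⌋₊ + 1 : ℕ) : ℝ) ≤ w + 1 := by
          push_cast
          (clear * - hw0; linarith [Nat.floor_le hw0.le])
        calc _ ≤ ((((range Z).filter (fun n => ∀ q : ℕ, PP r q → (q : ℝ) ≤ w →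
                  ¬ ∃ i, q ∣ n + y i)).card + (⌊w⌋₊ + 1) : ℕ) : ℝ) := by exact_mod_cast h4
          _ ≤ _ := by
              push_cast
              push_cast at h5
              (clear * - h5; linarith)
      have h3 := hprod w hZ2' y hy
      have hPsi : 0 ≤ ∑ i, ∑ j, Psi (2 * r * (r * r)) ((y i : ℤ) - y j) :=
        Finset.sum_nonneg fun i _ => Finset.sum_nonneg fun j _ => (Psi_pos _ _).le
      set T := ∑ i, ∑ j, Psi (2 * r * (r * r)) ((y i : ℤ) - y j) with hT
      have h4 : C * (1 + T) / (Real.log w) ^ r = C * (2 * K) ^ r * (1 + T) / (Real.log Z) ^ r := by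
        rw [hlogw, div_pow]
        field_simp
      rw [h4] at h3
      have h5 : 2 * (Z : ℝ) * ∏ q ∈ pU (PP r) w, (1 - (nu y q : ℝ) / q) ≤
          2 * Z * (C * (2 * K) ^ r * (1 + T) / (Real.log Z) ^ r) :=
        mul_le_mul_of_nonneg_left h3 (by (clear * - hZ3; positivity))
      have h6 : (0 : ℝ) ≤ Z / (Real.log Z) ^ r := by (clear * - hZ3 hlog; positivity)
      have h7 : (0 : ℝ) ≤ T * (Z / (Real.log Z) ^ r) := mul_nonneg hPsi h6
      calc _ ≤ _ := h2
        _ ≤ (2 * Z * (C * (2 * K) ^ r * (1 + T) / (Real.log Z) ^ r) + (Z : ℝ) ^ (1 / 2 : ℝ)) +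
            (w + 1) := by (clear * - h1 h5; linarith)
        _ ≤ 2 * Z * (C * (2 * K) ^ r * (1 + T) / (Real.log Z) ^ r) + 3 * (Z : ℝ) ^ (1 / 2 : ℝ) := by
            (clear * - hZ2' hwle; linarith)
        _ ≤ 2 * Z * (C * (2 * K) ^ r * (1 + T) / (Real.log Z) ^ r) + Z / (Real.log Z) ^ r := by
            (clear * - hZ1'; linarith)
        _ = 2 * C * (2 * K) ^ r * (1 + T) * (Z / (Real.log Z) ^ r) + Z / (Real.log Z) ^ r := by ring
        _ ≤ (2 * C * (2 * K) ^ r + 1) * (1 + T) * (Z / (Real.log Z) ^ r) := by (clear * - h7; nlinarith)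

end Pool.Agent.Helper57.FP

end

section

set_option autoImplicit false

open Finset Real

namespace Pool.Agent.Helper57.FP

open Pool.Agent.Helper44

/-- The average of `Psi` over an interval of length `L` is bounded, provided the values are at most
`4 ^ L`. -/
theorem psi_avg (s : ℕ) : ∃ C : ℝ, 0 < C ∧ ∀ L : ℕ, 1 ≤ L → ∀ α : ℤ,
    (∀ i : ℕ, i < L → (α + i).natAbs ≤ 4 ^ L) → ∑ i ∈ range L, Psi s (α + i) ≤ C * L := by
  classical
  obtain ⟨C1, hC1, hM⟩ := sum_primesUpTo_bounds
  obtain ⟨C2, hC2, hS⟩ := sum_inv_sq_le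
  -- log L ^ c ≤ C3 * L
  have hlog : ∃ C3 : ℝ, 0 < C3 ∧ ∀ L : ℕ, 2 ≤ L →
      Real.exp (2 ^ s * (Real.log (Real.log L))) ≤ C3 * L := by
    have h1 : (fun x : ℝ => Real.log x ^ (2 ^ s)) =o[Filter.atTop] fun x : ℝ => x ^ (1 : ℝ) := by
      have := isLittleO_log_rpow_rpow_atTop (s := 1) ((2 ^ s : ℕ) : ℝ) (by norm_num)
      simp only [Real.rpow_natCast] at this
      exact this
    have h2 : ∀ᶠ x : ℝ in Filter.atTop, ‖Real.log x ^ (2 ^ s)‖ ≤ 1 * ‖x ^ (1 : ℝ)‖ :=
      h1.bound (by norm_num)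
    have h3 : ∀ᶠ Z : ℕ in Filter.atTop, ‖Real.log (Z : ℝ) ^ (2 ^ s)‖ ≤ 1 * ‖(Z : ℝ) ^ (1 : ℝ)‖ :=
      tendsto_natCast_atTop_atTop.eventually h2
    obtain ⟨L0, hL0⟩ := Filter.eventually_atTop.mp h3
    refine ⟨1 + Real.exp (2 ^ s * (Real.log (Real.log (max L0 3 : ℕ)))), by positivity, ?_⟩
    intro L hL
    have hL1 : (1 : ℝ) < L := by exact_mod_cast hL
    have hlogL : 0 < Real.log L := Real.log_pos hL1
    by_cases h : L0 ≤ L
    · have h4 := hL0 L h
      exact by
        rw [Real.norm_of_nonneg (by positivity), Real.rpow_one, one_mul,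
          Real.norm_of_nonneg (by positivity)] at h4
        have h5 : Real.exp (2 ^ s * (Real.log (Real.log L))) = (Real.log L) ^ (2 ^ s) := by
          have := Real.exp_nat_mul (Real.log (Real.log L)) (2 ^ s)
          push_cast at this
          rw [this, Real.exp_log hlogL]
        rw [h5]
        have h6 := Real.exp_pos (2 ^ s * (Real.log (Real.log (max L0 3 : ℕ))))
        nlinarith
    · have h4 : Real.exp (2 ^ s * (Real.log (Real.log L))) ≤
          Real.exp (2 ^ s * (Real.log (Real.log (max L0 3 : ℕ)))) := by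
        apply Real.exp_le_exp.mpr
        apply mul_le_mul_of_nonneg_left _ (by positivity)
        apply Real.log_le_log hlogL
        apply Real.log_le_log (by linarith)
        have : L ≤ max L0 3 := (by omega : L ≤ L0).trans (le_max_left _ _)
        exact_mod_cast this
      have h6 := Real.exp_pos (2 ^ s * (Real.log (Real.log (max L0 3 : ℕ))))
      nlinarith
  obtain ⟨C3, hC3, hlog⟩ := hlog
  refine ⟨Real.exp (2 * s) * (Real.exp (2 ^ s * C2) + Real.exp (2 ^ s * C1) * C3 + 1) , by positivity, ?_⟩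
  intro L hL α hα
  have hL0 : (0 : ℝ) < L := by exact_mod_cast hL
  have hprime : ∀ q ∈ primesUpTo (L : ℝ), q.Prime := fun q hq => ((mem_primesUpTo hL0.le).mp hq).1
  have hc0 : (0 : ℝ) ≤ 2 ^ s := by positivity
  have h1 : ∑ i ∈ range L, Psi s (α + i) ≤ Real.exp (2 * s) *
      ∑ i ∈ range L, ∏ q ∈ primesUpTo L, (1 + (if (q : ℤ) ∣ α + i then (2 : ℝ) ^ s / q else 0)) := by
    rw [Finset.mul_sum]
    apply Finset.sum_le_sum
    intro i hi
    exact Psi_le_small s L hL _ (hα i (Finset.mem_range.mp hi))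
  exact by
    have h2 : ∑ i ∈ range L, ∏ q ∈ primesUpTo (L : ℝ),
        (1 + (if (q : ℤ) ∣ α + i then (2 : ℝ) ^ s / q else 0)) ≤
        L * ∏ q ∈ primesUpTo (L : ℝ), (1 + (2 : ℝ) ^ s / q * (1 / q)) +
          ∏ q ∈ primesUpTo (L : ℝ), (1 + (2 : ℝ) ^ s / q) := by
      calc ∑ i ∈ range L, ∏ q ∈ primesUpTo (L : ℝ),
        (1 + (if (q : ℤ) ∣ α + i then (2 : ℝ) ^ s / q else 0))
          = ∑ i ∈ range L, ∑ J ∈ (primesUpTo (L : ℝ)).powerset,
            (∏ q ∈ J, ((2 : ℝ) ^ s / (q : ℝ))) *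
              (if ((∏ q ∈ J, q : ℕ) : ℤ) ∣ α + i then 1 else 0) :=
            Finset.sum_congr rfl fun i _ => prod_one_add_ind _ hprime _ _
        _ = ∑ J ∈ (primesUpTo (L : ℝ)).powerset, (∏ q ∈ J, ((2 : ℝ) ^ s / (q : ℝ))) *
              (((range L).filter (fun i : ℕ => ((∏ q ∈ J, q : ℕ) : ℤ) ∣ α + i)).card : ℝ) := by
            rw [Finset.sum_comm]
            apply Finset.sum_congr rfl
            intro J _
            rw [← Finset.mul_sum, Finset.sum_boole]
        _ ≤ ∑ J ∈ (primesUpTo (L : ℝ)).powerset, (∏ q ∈ J, ((2 : ℝ) ^ s / (q : ℝ))) *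
              ((L : ℝ) / (∏ q ∈ J, q : ℕ) + 1) := by
            apply Finset.sum_le_sum
            intro J hJ
            rw [Finset.mem_powerset] at hJ
            apply mul_le_mul_of_nonneg_left
            · exact card_dvd_le α (Finset.prod_pos fun q hq => (hprime q (hJ hq)).pos) L
            · apply Finset.prod_nonneg
              intro q _; positivity
        _ = _ := by
            rw [Finset.prod_one_add, Finset.prod_one_add, Finset.mul_sum, ← Finset.sum_add_distrib]
            apply Finset.sum_congr rfl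
            intro J _
            rw [Finset.prod_mul_distrib]
            push_cast
            rw [Finset.prod_div_distrib (f := fun _ => (1 : ℝ)), Finset.prod_const_one]
            ring
    have h3 : ∏ q ∈ primesUpTo (L : ℝ), (1 + (2 : ℝ) ^ s / q * (1 / q)) ≤ Real.exp (2 ^ s * C2) := by
      calc ∏ q ∈ primesUpTo (L : ℝ), (1 + (2 : ℝ) ^ s / q * (1 / q))
          ≤ ∏ q ∈ primesUpTo (L : ℝ), Real.exp (2 ^ s * (1 / (q : ℝ)) ^ 2) := by
            apply Finset.prod_le_prod
            · intro q _; positivity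
            · intro q _
              have := Real.add_one_le_exp (2 ^ s * (1 / (q : ℝ)) ^ 2)
              calc 1 + (2 : ℝ) ^ s / q * (1 / q) = 2 ^ s * (1 / (q : ℝ)) ^ 2 + 1 := by ring
                _ ≤ _ := this
        _ = Real.exp (2 ^ s * ∑ q ∈ primesUpTo (L : ℝ), (1 / (q : ℝ)) ^ 2) := by
            rw [← Real.exp_sum, Finset.mul_sum]
        _ ≤ _ := by
            apply Real.exp_le_exp.mpr
            exact mul_le_mul_of_nonneg_left (hS _) hc0
    have h4 : ∏ q ∈ primesUpTo (L : ℝ), (1 + (2 : ℝ) ^ s / q) ≤ (Real.exp (2 ^ s * C1) * C3 + 1) * L := by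
      by_cases hL2 : 2 ≤ L
      · have hL2' : (2 : ℝ) ≤ L := by exact_mod_cast hL2
        exact by
          calc ∏ q ∈ primesUpTo (L : ℝ), (1 + (2 : ℝ) ^ s / q)
              ≤ ∏ q ∈ primesUpTo (L : ℝ), Real.exp (2 ^ s * (1 / (q : ℝ))) := by
                apply Finset.prod_le_prod
                · intro q _; positivity
                · intro q _
                  have := Real.add_one_le_exp (2 ^ s * (1 / (q : ℝ)))
                  calc 1 + (2 : ℝ) ^ s / q = 2 ^ s * (1 / (q : ℝ)) + 1 := by ring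
                    _ ≤ _ := this
            _ = Real.exp (2 ^ s * ∑ q ∈ primesUpTo (L : ℝ), (1 : ℝ) / q) := by
                rw [← Real.exp_sum, Finset.mul_sum]
            _ ≤ Real.exp (2 ^ s * (Real.log (Real.log L) + C1)) := by
                apply Real.exp_le_exp.mpr
                apply mul_le_mul_of_nonneg_left _ hc0
                have := (abs_le.mp (hM L hL2')).2
                linarith
            _ = Real.exp (2 ^ s * C1) * Real.exp (2 ^ s * (Real.log (Real.log L))) := by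
                rw [← Real.exp_add]; congr 1; ring
            _ ≤ Real.exp (2 ^ s * C1) * (C3 * L) :=
                mul_le_mul_of_nonneg_left (hlog L hL2) (Real.exp_pos _).le
            _ ≤ _ := by nlinarith [Real.exp_pos (2 ^ s * C1)]
      · have hL1 : L = 1 := by omega
        subst hL1
        have h5 : primesUpTo ((1 : ℕ) : ℝ) = ∅ := by
          rw [Finset.eq_empty_iff_forall_notMem]
          intro q hq
          rw [mem_primesUpTo (by norm_num)] at hq
          have := hq.1.one_lt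
          have h6 : q ≤ 1 := by exact_mod_cast hq.2
          omega
        rw [h5, Finset.prod_empty]
        have : 0 < Real.exp (2 ^ s * C1) * C3 := by positivity
        push_cast
        linarith
    calc ∑ i ∈ range L, Psi s (α + i) ≤ _ := h1
      _ ≤ Real.exp (2 * s) * (L * Real.exp (2 ^ s * C2) + (Real.exp (2 ^ s * C1) * C3 + 1) * L) := by
          apply mul_le_mul_of_nonneg_left _ (Real.exp_pos _).le
          refine h2.trans ?_
          exact add_le_add (mul_le_mul_of_nonneg_left h3 hL0.le) h4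
      _ = _ := by ring

end Pool.Agent.Helper57.FP

end

section

set_option autoImplicit false

open Finset Real

namespace Pool.Agent.Helper57.FP

theorem X_zero {l L : ℕ} (s : ℕ → ℕ → ℕ) (u : Fin l → Fin L) : X s u 0 = 0 := rfl

theorem X_strictMono {l L : ℕ} {s : ℕ → ℕ → ℕ} (hs : ∀ i x, x < s i x) (u : Fin l → Fin L) :
    StrictMono (X s u) := by
  apply strictMono_nat_of_lt_succ
  intro i
  have : s i (X s u i) ≤ X s u (i + 1) := by
    show s i (X s u i) ≤ s i (X s u i) + _
    exact Nat.le_add_right _ _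
  exact (hs _ _).trans_le this

end Pool.Agent.Helper57.FP

end

section

set_option autoImplicit false

open Finset Real

namespace Pool.Agent.Helper57.FP

/-- average of `Psi` of the differences of the tree -/
theorem psi_tree (σ : ℕ) : ∃ C : ℝ, 0 < C ∧ ∀ (k l L : ℕ) (s : ℕ → ℕ → ℕ), k ≤ l → 1 ≤ L →
    (∀ i x, x < s i x) → (∀ (u : Fin l → Fin L) (i : ℕ), i ≤ k → X s u i ≤ 2 ^ L) →
    ∀ i j : ℕ, i ≤ k → j ≤ k →
      ∑ u : Fin l → Fin L, Psi σ ((X s u i : ℤ) - X s u j) ≤ C * (L : ℝ) ^ l := by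
  obtain ⟨C, hC, havg⟩ := psi_avg σ
  refine ⟨C + 1, by (clear * - hC; positivity), ?_⟩
  intro k l L s hkl hL hs hX
  have key : ∀ i j : ℕ, i ≤ k → j < i →
      ∑ u : Fin l → Fin L, Psi σ ((X s u i : ℤ) - X s u j) ≤ (C + 1) * (L : ℝ) ^ l := by
    intro i j hi hj
    obtain ⟨m, rfl⟩ : ∃ m, i = m + 1 := ⟨i - 1, by omega⟩
    have hm : m < l := by omega
    have h1 : ∑ u : Fin l → Fin L, Psi σ ((X s u (m + 1) : ℤ) - X s u j) ≤ C * (L : ℝ) ^ l := by
      apply sum_le_of_update hL ⟨m, hm⟩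
      intro u
      have h2 : ∀ v : Fin L, (X s (Function.update u ⟨m, hm⟩ v) (m + 1) : ℤ) -
          X s (Function.update u ⟨m, hm⟩ v) j = ((s m (X s u m) : ℤ) - X s u j) + (v : ℕ) := by
        intro v
        have h3 := X_update_succ s u ⟨m, hm⟩ v
        have h4 := X_update s u ⟨m, hm⟩ v j (by simpa using (by omega : j ≤ m))
        simp only at h3
        rw [h3, h4]
        push_cast
        ring
      simp only [h2]
      rw [Fin.sum_univ_eq_sum_range (fun v : ℕ => Psi σ (((s m (X s u m) : ℤ) - X s u j) + (v : ℕ))) L]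
      apply havg L hL
      intro v hv
      have h5 := h2 ⟨v, hv⟩
      simp only at h5
      rw [← h5]
      have h6 := hX (Function.update u ⟨m, hm⟩ ⟨v, hv⟩) (m + 1) hi
      have h7 := hX (Function.update u ⟨m, hm⟩ ⟨v, hv⟩) j (by omega)
      have h8 := two_pow_le_four_pow L
      omega
    have : 0 ≤ (L : ℝ) ^ l := by positivity
    (clear * - h1 this; linarith)
  intro i j hi hj
  rcases lt_trichotomy i j with h | h | h
  · have h1 := key j i hj h
    have h2 : ∀ u : Fin l → Fin L, Psi σ ((X s u i : ℤ) - X s u j) = Psi σ ((X s u j : ℤ) - X s u i) := by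
      intro u
      rw [← Psi_neg]; congr 1; ring
    simp only [h2]
    exact h1
  · subst h
    simp only [sub_self, Psi_zero, Finset.sum_const, Finset.card_univ, Fintype.card_fun,
      Fintype.card_fin, nsmul_eq_mul, mul_one]
    push_cast
    have : 0 ≤ (L : ℝ) ^ l := by positivity
    (clear * - hC this; nlinarith)
  · exact key i j hi h

/-- prime tuples -/
noncomputable def TP (l L k Z : ℕ) (s : ℕ → ℕ → ℕ) : Finset (ℕ × (Fin l → Fin L)) := by
  classical exact (range Z ×ˢ univ).filter (fun c => ∀ i ≤ k, (c.1 + X s c.2 i).Prime)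

theorem mem_TP {l L k Z : ℕ} {s : ℕ → ℕ → ℕ} {c : ℕ × (Fin l → Fin L)} :
    c ∈ TP l L k Z s ↔ c.1 < Z ∧ ∀ i ≤ k, (c.1 + X s c.2 i).Prime := by
  classical
  unfold TP
  rw [Finset.mem_filter, Finset.mem_product, Finset.mem_range]
  simp

/-- the base point of the next interval -/
def yy {l L : ℕ} (k : ℕ) (s : ℕ → ℕ → ℕ) (c : ℕ × (Fin l → Fin L)) : ℕ := c.1 + s k (X s c.2 k)

/-- the pairs -/
noncomputable def PR (l L k Z : ℕ) (s : ℕ → ℕ → ℕ) :
    Finset ((ℕ × (Fin l → Fin L)) × (ℕ × (Fin l → Fin L))) := by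
  classical
  exact (TP l L k Z s ×ˢ TP l L k Z s).filter (fun e => |(yy k s e.1 : ℤ) - yy k s e.2| < L)

/-- the `2k+2` shifts -/
def YY {l L : ℕ} (k : ℕ) (s : ℕ → ℕ → ℕ) (u u' : Fin l → Fin L) (h : ℕ) :
    Fin (k + 1) ⊕ Fin (k + 1) → ℕ :=
  Sum.elim (fun j => X s u j) (fun j => h + X s u' j)

/-- the count for fixed `u,u',i` -/
noncomputable def GG {l L : ℕ} (k Z : ℕ) (s : ℕ → ℕ → ℕ) (u u' : Fin l → Fin L) (i : ℕ) : ℝ :=
  if 0 ≤ hh k s u u' i then
    (((range Z).filter (fun n => ∀ a, (n + YY k s u u' (hh k s u u' i).toNat a).Prime)).card : ℝ)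
  else 0

theorem card_PR_le (l L k Z : ℕ) (s : ℕ → ℕ → ℕ) :
    ((PR l L k Z s).card : ℝ) ≤ 2 * ∑ u : Fin l → Fin L, ∑ u' : Fin l → Fin L,
      ∑ i ∈ range (2 * L), GG k Z s u u' i := by
  classical
  set P1 := (PR l L k Z s).filter (fun e => e.1.1 ≤ e.2.1) with hP1
  set P2 := (PR l L k Z s).filter (fun e => ¬ e.1.1 ≤ e.2.1) with hP2
  have h1 : (PR l L k Z s).card = P1.card + P2.card := by
    rw [hP1, hP2, Finset.card_filter_add_card_filter_not]
  have h2 : P2.card ≤ P1.card := by
    apply Finset.card_le_card_of_injOn (fun e => (e.2, e.1))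
    · intro e he
      rw [hP2, PR] at he
      simp only [Finset.mem_coe, Finset.mem_filter, Finset.mem_product] at he
      rw [hP1, PR]
      simp only [Finset.mem_coe, Finset.mem_filter, Finset.mem_product]
      refine ⟨⟨⟨he.1.1.2, he.1.1.1⟩, ?_⟩, ?_⟩
      · rw [abs_sub_comm]; exact he.1.2
      · omega
    · intro e _ e' _ h
      simp only [Prod.mk.injEq] at h
      exact Prod.ext h.2 h.1
  set Q := (((univ : Finset (Fin l → Fin L)) ×ˢ (univ : Finset (Fin l → Fin L))) ×ˢ range (2 * L) ×ˢ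
    range Z).filter (fun t => 0 ≤ hh k s t.1.1 t.1.2 t.2.1 ∧
      ∀ a, (t.2.2 + YY k s t.1.1 t.1.2 (hh k s t.1.1 t.1.2 t.2.1).toNat a).Prime) with hQ
  have h3 : P1.card ≤ Q.card := by
    apply Finset.card_le_card_of_injOn (fun e => ((e.1.2, e.2.2),
      ((((e.2.1 : ℤ) - e.1.1) - ((s k (X s e.1.2 k) : ℤ) - s k (X s e.2.2 k)) + L).toNat, e.1.1)))
    · intro e he
      rw [hP1, PR] at he
      simp only [Finset.mem_coe, Finset.mem_filter, Finset.mem_product,
        mem_TP] at he
      obtain ⟨⟨⟨⟨hp, hpr⟩, ⟨hp', hpr'⟩⟩, hd⟩, hle⟩ := he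
      unfold yy at hd
      rw [abs_lt] at hd
      push_cast at hd
      have hnn : 0 ≤ ((e.2.1 : ℤ) - e.1.1) - ((s k (X s e.1.2 k) : ℤ) - s k (X s e.2.2 k)) + L := by
        omega
      have hh1 : hh k s e.1.2 e.2.2
          (((e.2.1 : ℤ) - e.1.1) - ((s k (X s e.1.2 k) : ℤ) - s k (X s e.2.2 k)) + L).toNat =
          (e.2.1 : ℤ) - e.1.1 := by
        unfold hh
        rw [Int.toNat_of_nonneg hnn]
        ring
      rw [hQ]
      simp only [Finset.mem_coe, Finset.mem_filter, Finset.mem_product,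
        Finset.mem_univ, Finset.mem_range, true_and, and_self]
      refine ⟨⟨by omega, hp⟩, ?_, ?_⟩
      · rw [hh1]; omega
      · rw [hh1]
        rintro (a | a)
        · exact hpr a (by have := a.2; omega)
        · have h4 := hpr' a (by have := a.2; omega)
          have h5 : e.1.1 + YY k s e.1.2 e.2.2 ((e.2.1 : ℤ) - e.1.1).toNat (Sum.inr a) =
              e.2.1 + X s e.2.2 a := by
            show e.1.1 + (((e.2.1 : ℤ) - e.1.1).toNat + X s e.2.2 a) = _
            omega
          rw [h5]; exact h4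
    · intro e he e' he' h
      rw [hP1, PR] at he he'
      simp only [Finset.mem_coe, Finset.mem_filter, Finset.mem_product,
        mem_TP] at he he'
      obtain ⟨⟨⟨⟨hp, hpr⟩, ⟨hp', hpr'⟩⟩, hd⟩, hle⟩ := he
      obtain ⟨⟨⟨⟨hq, hqr⟩, ⟨hq', hqr'⟩⟩, hd'⟩, hle'⟩ := he'
      simp only [Prod.mk.injEq] at h
      obtain ⟨⟨h1, h2⟩, h3, h4⟩ := h
      unfold yy at hd hd'
      rw [abs_lt] at hd hd'
      push_cast at hd hd'
      rw [h1, h2, h4] at h3
      rw [h1, h2, h4] at hd
      have h5 : e.2.1 = e'.2.1 := by omega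
      exact Prod.ext (Prod.ext h4 h1) (Prod.ext h5 h2)
  have h4 : (Q.card : ℝ) = ∑ u : Fin l → Fin L, ∑ u' : Fin l → Fin L,
      ∑ i ∈ range (2 * L), GG k Z s u u' i := by
    rw [hQ, Finset.card_filter]
    push_cast
    rw [Finset.sum_product, Finset.sum_product]
    apply Finset.sum_congr rfl
    intro u _
    apply Finset.sum_congr rfl
    intro u' _
    rw [Finset.sum_product]
    apply Finset.sum_congr rfl
    intro i _
    unfold GG
    by_cases h : 0 ≤ hh k s u u' i
    · simp only [h, true_and, if_true]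
      rw [Finset.card_filter]
      push_cast
      rfl
    · simp [h]
  have h5 : ((PR l L k Z s).card : ℝ) = P1.card + P2.card := by exact_mod_cast h1
  have h6 : (P2.card : ℝ) ≤ P1.card := by exact_mod_cast h2
  have h7 : (P1.card : ℝ) ≤ Q.card := by exact_mod_cast h3
  rw [← h4]
  (clear * - h5 h6 h7; linarith)

/-- number of coincidences -/
noncomputable def NN {l L : ℕ} (k : ℕ) (s : ℕ → ℕ → ℕ) (u u' : Fin l → Fin L) (i : ℕ) : ℝ :=
  ∑ a : Fin (k + 1), ∑ b : Fin (k + 1), if hh k s u u' i + (X s u' b - X s u a) = 0 then (1 : ℝ) else 0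

theorem sum_YY {l L : ℕ} (σ k : ℕ) (s : ℕ → ℕ → ℕ) (u u' : Fin l → Fin L) (i : ℕ)
    (h : 0 ≤ hh k s u u' i) :
    ∑ a, ∑ b, Psi σ ((YY k s u u' (hh k s u u' i).toNat a : ℤ) - YY k s u u' (hh k s u u' i).toNat b) =
      WW σ k s u u' i := by
  have h1 : (((hh k s u u' i).toNat : ℕ) : ℤ) = hh k s u u' i := Int.toNat_of_nonneg h
  unfold WW YY
  simp only [Fintype.sum_sum_type, Sum.elim_inl, Sum.elim_inr, Finset.sum_add_distrib]
  push_cast
  simp only [h1]
  have e1 : ∀ a b : Fin (k + 1), Psi σ ((X s u a : ℤ) - (hh k s u u' i + X s u' b)) =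
      Psi σ (hh k s u u' i + (X s u' b - X s u a)) := by
    intro a b
    rw [← Psi_neg]; congr 1; ring
  have e2 : ∀ a b : Fin (k + 1), Psi σ ((hh k s u u' i + X s u' a : ℤ) - X s u b) =
      Psi σ (hh k s u u' i + (X s u' a - X s u b)) := by
    intro a b
    congr 1; ring
  have e3 : ∀ a b : Fin (k + 1), Psi σ ((hh k s u u' i + X s u' a : ℤ) - (hh k s u u' i + X s u' b)) =
      Psi σ ((X s u' a : ℤ) - X s u' b) := by
    intro a b
    congr 1; ring
  simp only [e1, e2, e3]
  ring

theorem GG_le (k : ℕ) : ∃ C : ℝ, 0 < C ∧ ∃ (σ Z0 : ℕ), ∀ Z : ℕ, Z0 ≤ Z → ∀ (l L : ℕ)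
    (s : ℕ → ℕ → ℕ), (∀ i x, x < s i x) → ∀ (u u' : Fin l → Fin L) (i : ℕ),
    GG k Z s u u' i ≤ C * (Z / (Real.log Z) ^ (2 * k + 2)) * (1 + WW σ k s u u' i) +
      Z * NN k s u u' i := by
  classical
  obtain ⟨C, hC, Z0, hS⟩ := sieve_shift (Fin (k + 1) ⊕ Fin (k + 1)) (2 * k + 2) (by
    simp; ring)
  refine ⟨C, hC, 2 * (2 * k + 2) * ((2 * k + 2) * (2 * k + 2)), max Z0 2, ?_⟩
  intro Z hZ l L s hs u u' i
  have hZ0 : Z0 ≤ Z := (le_max_left _ _).trans hZ
  have hZ2 : 2 ≤ Z := (le_max_right _ _).trans hZ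
  have hZr : (1 : ℝ) < Z := by exact_mod_cast hZ2
  have hlog : 0 < Real.log Z := Real.log_pos hZr
  have hWpos : ∀ σ, 0 ≤ WW σ k s u u' i := by
    intro σ
    unfold WW
    have : ∀ f : Fin (k + 1) → Fin (k + 1) → ℤ, 0 ≤ ∑ a, ∑ b, Psi σ (f a b) := fun f =>
      Finset.sum_nonneg fun a _ => Finset.sum_nonneg fun b _ => (Psi_pos _ _).le
    have h1 := this (fun a b => (X s u a : ℤ) - X s u b)
    have h2 := this (fun a b => hh k s u u' i + (X s u' b - X s u a))
    have h3 := this (fun a b => hh k s u u' i + (X s u' a - X s u b))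
    have h4 := this (fun a b => (X s u' a : ℤ) - X s u' b)
    (clear * - h1 h2 h3 h4; linarith)
  have hNpos : 0 ≤ NN k s u u' i := by
    unfold NN
    apply Finset.sum_nonneg; intro a _
    apply Finset.sum_nonneg; intro b _
    split_ifs <;> norm_num
  exact by
    have hZq : 0 ≤ (Z : ℝ) / (Real.log Z) ^ (2 * k + 2) := by (clear * - hZ2 hlog; positivity)
    unfold GG
    split_ifs with h0
    · by_cases hinj : Function.Injective (YY k s u u' (hh k s u u' i).toNat)
      · have h1 := hS Z hZ0 _ hinj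
        rw [sum_YY _ k s u u' i h0] at h1
        have h2 : 0 ≤ (Z : ℝ) * NN k s u u' i := by (clear * - hZ2 hNpos; positivity)
        calc _ ≤ _ := h1
          _ = C * (Z / (Real.log Z) ^ (2 * k + 2)) *
              (1 + WW (2 * (2 * k + 2) * ((2 * k + 2) * (2 * k + 2))) k s u u' i) := by ring
          _ ≤ _ := by (clear * - h2; linarith)
      exact by
        · have h1 : 1 ≤ NN k s u u' i := by
            have hex : ∃ a b : Fin (k + 1), hh k s u u' i + (X s u' b - X s u a) = 0 := by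
              by_contra hne
              push Not at hne
              apply hinj
              have hcast : (((hh k s u u' i).toNat : ℕ) : ℤ) = hh k s u u' i := Int.toNat_of_nonneg h0
              rintro (a | a) (b | b) hab
              · have h2 : X s u a = X s u b := hab
                have h3 := (X_strictMono hs u).injective h2
                rw [Fin.ext h3]
              · exfalso
                have h2 : X s u a = (hh k s u u' i).toNat + X s u' b := hab
                apply hne a b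
                rw [← hcast, h2]
                push_cast
                ring
              · exfalso
                have h2 : (hh k s u u' i).toNat + X s u' a = X s u b := hab
                apply hne b a
                rw [← hcast, ← h2]
                push_cast
                ring
              · have h2 : (hh k s u u' i).toNat + X s u' a = (hh k s u u' i).toNat + X s u' b := hab
                have h3 := (X_strictMono hs u').injective (Nat.add_left_cancel h2)
                rw [Fin.ext h3]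
            obtain ⟨a, b, hab⟩ := hex
            unfold NN
            have hnn : ∀ a b : Fin (k + 1),
                (0 : ℝ) ≤ if hh k s u u' i + (X s u' b - X s u a) = 0 then (1 : ℝ) else 0 := by
              intro a b; split_ifs <;> norm_num
            calc (1 : ℝ) = if hh k s u u' i + (X s u' b - X s u a) = 0 then (1 : ℝ) else 0 := by
                  rw [if_pos hab]
              _ ≤ ∑ b : Fin (k + 1), if hh k s u u' i + (X s u' b - X s u a) = 0 then (1 : ℝ) else 0 :=
                  Finset.single_le_sum (f := fun b : Fin (k + 1) =>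
                    if hh k s u u' i + (X s u' b - X s u a) = 0 then (1 : ℝ) else 0)
                    (fun b _ => hnn a b) (Finset.mem_univ b)
              _ ≤ _ := Finset.single_le_sum (f := fun a : Fin (k + 1) => ∑ b : Fin (k + 1),
                    if hh k s u u' i + (X s u' b - X s u a) = 0 then (1 : ℝ) else 0)
                    (fun a _ => Finset.sum_nonneg fun b _ => hnn a b) (Finset.mem_univ a)
          have h2 : (((range Z).filter
              (fun n => ∀ a, (n + YY k s u u' (hh k s u u' i).toNat a).Prime)).card : ℝ) ≤ Z := by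
            have := Finset.card_filter_le (range Z)
              (fun n => ∀ a, (n + YY k s u u' (hh k s u u' i).toNat a).Prime)
            rw [Finset.card_range] at this
            exact_mod_cast this
          have h3 : 0 ≤ C * (Z / (Real.log Z) ^ (2 * k + 2)) * (1 +
              WW (2 * (2 * k + 2) * ((2 * k + 2) * (2 * k + 2))) k s u u' i) := by
            have := hWpos (2 * (2 * k + 2) * ((2 * k + 2) * (2 * k + 2)))
            (clear * - hC hZ2 hlog this; positivity)
          have h4 : (Z : ℝ) ≤ Z * NN k s u u' i := le_mul_of_one_le_right (by (clear * - hZr; linarith)) h1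
          (clear * - h2 h3 h4; linarith)
    · have h3 : 0 ≤ C * (Z / (Real.log Z) ^ (2 * k + 2)) * (1 +
          WW (2 * (2 * k + 2) * ((2 * k + 2) * (2 * k + 2))) k s u u' i) := by
        have := hWpos (2 * (2 * k + 2) * ((2 * k + 2) * (2 * k + 2)))
        positivity
      have h2 : 0 ≤ (Z : ℝ) * NN k s u u' i := by (clear * - hZ2 hNpos; positivity)
      (clear * - h3 h2; linarith)

theorem sum_WW_le (σ : ℕ) : ∃ C : ℝ, 0 < C ∧ ∀ (k l L : ℕ) (s : ℕ → ℕ → ℕ), k ≤ l → 1 ≤ L →
    (∀ i x, x < s i x) → (∀ (u : Fin l → Fin L) (i : ℕ), i ≤ k → X s u i ≤ 2 ^ L) →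
    (∀ (u : Fin l → Fin L), s k (X s u k) ≤ 2 ^ L) →
    ∑ u : Fin l → Fin L, ∑ u' : Fin l → Fin L, ∑ i ∈ range (2 * L), (1 + WW σ k s u u' i) ≤
      C * (k + 1) ^ 2 * (L : ℝ) ^ (2 * l + 1) := by
  obtain ⟨C1, hC1, hT⟩ := psi_tree σ
  obtain ⟨C2, hC2, hA⟩ := psi_avg σ
  refine ⟨2 + 4 * C1 + 4 * C2, by (clear * - hC1 hC2; positivity), ?_⟩
  intro k l L s hkl hL hs hX hsX
  have hL0 : (0 : ℝ) < L := by exact_mod_cast hL
  have hcard : (Fintype.card (Fin l → Fin L) : ℝ) = (L : ℝ) ^ l := by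
    rw [Fintype.card_fun, Fintype.card_fin, Fintype.card_fin]; push_cast; rfl
  have hk1 : ∀ a : Fin (k + 1), (a : ℕ) ≤ k := fun a => by have := a.2; omega
  -- the `u` part
  have hAu : ∑ u : Fin l → Fin L, ∑ a : Fin (k + 1), ∑ b : Fin (k + 1),
      Psi σ ((X s u a : ℤ) - X s u b) ≤ (k + 1) ^ 2 * (C1 * (L : ℝ) ^ l) := by
    rw [Finset.sum_comm]
    calc ∑ a : Fin (k + 1), ∑ u : Fin l → Fin L, ∑ b : Fin (k + 1), Psi σ ((X s u a : ℤ) - X s u b)
        = ∑ a : Fin (k + 1), ∑ b : Fin (k + 1), ∑ u : Fin l → Fin L,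
            Psi σ ((X s u a : ℤ) - X s u b) := by
          apply Finset.sum_congr rfl; intro a _; rw [Finset.sum_comm]
      _ ≤ ∑ _a : Fin (k + 1), ∑ _b : Fin (k + 1), C1 * (L : ℝ) ^ l := by
          apply Finset.sum_le_sum; intro a _
          apply Finset.sum_le_sum; intro b _
          exact hT k l L s hkl hL hs hX a b (hk1 a) (hk1 b)
      _ = _ := by
          simp only [Finset.sum_const, Finset.card_univ, Fintype.card_fin, nsmul_eq_mul]
          push_cast; ring
  -- the mixed part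
  have hmix : ∀ (u u' : Fin l → Fin L) (a b : Fin (k + 1)),
      ∑ i ∈ range (2 * L), Psi σ (hh k s u u' i + (X s u' b - X s u a)) ≤ C2 * (2 * L) := by
    intro u u' a b
    have h1 : ∀ i : ℕ, hh k s u u' i + (X s u' b - X s u a) =
        (((s k (X s u k) : ℤ) - s k (X s u' k)) - L + (X s u' b - X s u a)) + i := by
      intro i; unfold hh; ring
    simp only [h1]
    have := hA (2 * L) (by omega)
      (((s k (X s u k) : ℤ) - s k (X s u' k)) - L + (X s u' b - X s u a)) (by
        intro i hi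
        have a1 := hsX u
        have a2 := hsX u'
        have a3 := hX u' b (hk1 b)
        have a4 := hX u a (hk1 a)
        have a5 : 2 ^ L * 2 ^ L * (2 ^ L * 2 ^ L) = 4 ^ (2 * L) := by
          rw [show (4 : ℕ) = 2 ^ 2 by norm_num, ← pow_mul, ← pow_add, ← pow_add]
          congr 1; ring
        have a6 : L < 2 ^ L := Nat.lt_two_pow_self
        exact by
          have a7 : 2 ≤ 2 ^ L := by
            calc 2 = 2 ^ 1 := rfl
              _ ≤ 2 ^ L := Nat.pow_le_pow_right (by norm_num) hL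
          have a8 : 3 * 2 ^ L ≤ 2 ^ L * 2 ^ L * (2 ^ L * 2 ^ L) := by
            have : 2 * 2 ≤ 2 ^ L * 2 ^ L := Nat.mul_le_mul a7 a7
            have h9 : 4 * 2 ^ L ≤ 2 ^ L * 2 ^ L * 2 ^ L := Nat.mul_le_mul_right _ this
            have h10 : 2 ^ L * 2 ^ L * 2 ^ L ≤ 2 ^ L * 2 ^ L * (2 ^ L * 2 ^ L) := by
              apply Nat.mul_le_mul_left
              exact Nat.le_mul_of_pos_left _ (by positivity)
            omega
          rw [← a5]
          generalize 2 ^ L * 2 ^ L * (2 ^ L * 2 ^ L) = M at a8 ⊢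
          generalize 2 ^ L = N at *
          omega)
    refine this.trans (le_of_eq ?_)
    push_cast; ring
  have hmix' : ∀ (u u' : Fin l → Fin L), ∑ i ∈ range (2 * L), ∑ a : Fin (k + 1),
      ∑ b : Fin (k + 1), Psi σ (hh k s u u' i + (X s u' b - X s u a)) ≤
      (k + 1) ^ 2 * (C2 * (2 * L)) := by
    intro u u'
    rw [Finset.sum_comm]
    calc ∑ a : Fin (k + 1), ∑ i ∈ range (2 * L), ∑ b : Fin (k + 1),
          Psi σ (hh k s u u' i + (X s u' b - X s u a))
        = ∑ a : Fin (k + 1), ∑ b : Fin (k + 1), ∑ i ∈ range (2 * L),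
          Psi σ (hh k s u u' i + (X s u' b - X s u a)) := by
          apply Finset.sum_congr rfl; intro a _; rw [Finset.sum_comm]
      _ ≤ ∑ _a : Fin (k + 1), ∑ _b : Fin (k + 1), C2 * (2 * L) := by
          apply Finset.sum_le_sum; intro a _
          apply Finset.sum_le_sum; intro b _
          exact hmix u u' a b
      _ = _ := by
          simp only [Finset.sum_const, Finset.card_univ, Fintype.card_fin, nsmul_eq_mul]
          push_cast; ring
  exact by
    have hmix'' : ∀ (u u' : Fin l → Fin L), ∑ i ∈ range (2 * L), ∑ a : Fin (k + 1),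
        ∑ b : Fin (k + 1), Psi σ (hh k s u u' i + (X s u' a - X s u b)) ≤
        (k + 1) ^ 2 * (C2 * (2 * L)) := by
      intro u u'
      refine le_trans (le_of_eq ?_) (hmix' u u')
      apply Finset.sum_congr rfl; intro i _
      rw [Finset.sum_comm]
    -- sum over i
    have h1 : ∀ (u u' : Fin l → Fin L), ∑ i ∈ range (2 * L), (1 + WW σ k s u u' i) ≤
        2 * L + 2 * L * (∑ a : Fin (k + 1), ∑ b : Fin (k + 1), Psi σ ((X s u a : ℤ) - X s u b)) +
        2 * L * (∑ a : Fin (k + 1), ∑ b : Fin (k + 1), Psi σ ((X s u' a : ℤ) - X s u' b)) +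
        2 * ((k + 1) ^ 2 * (C2 * (2 * L))) := by
      intro u u'
      have a1 := hmix' u u'
      have a2 := hmix'' u u'
      unfold WW
      simp only [Finset.sum_add_distrib, Finset.sum_const, Finset.card_range, nsmul_eq_mul, mul_one]
      push_cast
      (clear * - a1 a2; linarith)
    have h2 : ∑ u : Fin l → Fin L, ∑ u' : Fin l → Fin L, ∑ i ∈ range (2 * L),
        (1 + WW σ k s u u' i) ≤
        ∑ u : Fin l → Fin L, ∑ u' : Fin l → Fin L, (2 * L +
        2 * L * (∑ a : Fin (k + 1), ∑ b : Fin (k + 1), Psi σ ((X s u a : ℤ) - X s u b)) +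
        2 * L * (∑ a : Fin (k + 1), ∑ b : Fin (k + 1), Psi σ ((X s u' a : ℤ) - X s u' b)) +
        2 * ((k + 1) ^ 2 * (C2 * (2 * L)))) := by
      apply Finset.sum_le_sum; intro u _
      apply Finset.sum_le_sum; intro u' _
      exact h1 u u'
    refine h2.trans ?_
    simp only [Finset.sum_add_distrib, Finset.sum_const, Finset.card_univ, nsmul_eq_mul, hcard,
      ← Finset.mul_sum]
    have hAu' := hAu
    set S := ∑ u : Fin l → Fin L, ∑ a : Fin (k + 1), ∑ b : Fin (k + 1),
        Psi σ ((X s u a : ℤ) - X s u b) with hS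
    have hl : 0 ≤ (L : ℝ) ^ l := by (clear * - hL; positivity)
    have e1 : (L : ℝ) ^ (2 * l + 1) = (L : ℝ) ^ l * (L : ℝ) ^ l * L := by ring
    rw [e1]
    have h3 : (L : ℝ) ^ l * (2 * L) * S ≤ (L : ℝ) ^ l * (2 * L) * ((k + 1) ^ 2 * (C1 * (L : ℝ) ^ l)) :=
      mul_le_mul_of_nonneg_left hAu' (by positivity)
    exact by
      have h4 : (1 : ℝ) ≤ (k + 1) ^ 2 := one_le_pow₀ (by (clear * -; linarith [Nat.cast_nonneg (α := ℝ) k]))
      have h5 : (L : ℝ) ^ l * (L : ℝ) ^ l * (2 * L) ≤
          (k + 1) ^ 2 * ((L : ℝ) ^ l * (L : ℝ) ^ l * (2 * L)) :=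
        le_mul_of_one_le_left (by positivity) h4
      (clear * - h3 h5; nlinarith)

theorem sum_NN_le (k l L : ℕ) (s : ℕ → ℕ → ℕ) :
    ∑ u : Fin l → Fin L, ∑ u' : Fin l → Fin L, ∑ i ∈ range (2 * L), NN k s u u' i ≤
      (k + 1) ^ 2 * (L : ℝ) ^ (2 * l) := by
  have hcard : (Fintype.card (Fin l → Fin L) : ℝ) = (L : ℝ) ^ l := by
    rw [Fintype.card_fun, Fintype.card_fin, Fintype.card_fin]; push_cast; rfl
  have h0 : ∀ (u u' : Fin l → Fin L) (a b : Fin (k + 1)), ∑ i ∈ range (2 * L),
      (if hh k s u u' i + (X s u' b - X s u a) = 0 then (1 : ℝ) else 0) ≤ 1 := by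
    intro u u' a b
    rw [Finset.sum_boole]
    have : ((range (2 * L)).filter
        (fun i => hh k s u u' i + (X s u' b - X s u a) = 0)).card ≤ 1 := by
      rw [Finset.card_le_one]
      intro i hi j hj
      rw [Finset.mem_filter] at hi hj
      have h1 := hi.2
      have h2 := hj.2
      unfold hh at h1 h2
      omega
    exact_mod_cast this
  have h1 : ∀ (u u' : Fin l → Fin L), ∑ i ∈ range (2 * L), NN k s u u' i ≤ (k + 1) ^ 2 := by
    intro u u'
    unfold NN
    rw [Finset.sum_comm]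
    calc ∑ a : Fin (k + 1), ∑ i ∈ range (2 * L), ∑ b : Fin (k + 1),
          (if hh k s u u' i + (X s u' b - X s u a) = 0 then (1 : ℝ) else 0)
        = ∑ a : Fin (k + 1), ∑ b : Fin (k + 1), ∑ i ∈ range (2 * L),
          (if hh k s u u' i + (X s u' b - X s u a) = 0 then (1 : ℝ) else 0) := by
          apply Finset.sum_congr rfl; intro a _; rw [Finset.sum_comm]
      _ ≤ ∑ _a : Fin (k + 1), ∑ _b : Fin (k + 1), (1 : ℝ) := by
          apply Finset.sum_le_sum; intro a _
          apply Finset.sum_le_sum; intro b _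
          exact h0 u u' a b
      _ = _ := by
          simp only [Finset.sum_const, Finset.card_univ, Fintype.card_fin, nsmul_eq_mul]
          push_cast; ring
  calc _ ≤ ∑ _u : Fin l → Fin L, ∑ _u' : Fin l → Fin L, ((k : ℝ) + 1) ^ 2 := by
        apply Finset.sum_le_sum; intro u _
        apply Finset.sum_le_sum; intro u' _
        exact h1 u u'
    _ = _ := by
        simp only [Finset.sum_const, Finset.card_univ, nsmul_eq_mul, hcard]
        ring

/-- The second moment bound. -/
theorem pair_bound (k : ℕ) : ∃ C : ℝ, 0 < C ∧ ∃ Z0 : ℕ, ∀ Z : ℕ, Z0 ≤ Z → ∀ (l L : ℕ)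
    (s : ℕ → ℕ → ℕ), k ≤ l → (Real.log Z) ^ (2 * k + 2) ≤ L →
    (∀ i x, x < s i x) → (∀ (u : Fin l → Fin L) (i : ℕ), i ≤ k → X s u i ≤ 2 ^ L) →
    (∀ (u : Fin l → Fin L), s k (X s u k) ≤ 2 ^ L) →
    ((PR l L k Z s).card : ℝ) ≤ C * (Z / (Real.log Z) ^ (2 * k + 2)) * (L : ℝ) ^ (2 * l + 1) := by
  obtain ⟨C1, hC1, σ, Z0, hG⟩ := GG_le k
  obtain ⟨C2, hC2, hW⟩ := sum_WW_le σ
  refine ⟨2 * (C1 * C2 * (k + 1) ^ 2 + (k + 1) ^ 2), by (clear * - hC1 hC2; positivity), max Z0 3, ?_⟩
  intro Z hZ l L s hkl hLz hs hX hsX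
  have hZ0 : Z0 ≤ Z := (le_max_left _ _).trans hZ
  have hZ3 : 3 ≤ Z := (le_max_right _ _).trans hZ
  have hZr : (3 : ℝ) ≤ Z := by exact_mod_cast hZ3
  have hlog : 0 < Real.log Z := Real.log_pos (by (clear * - hZr; linarith))
  have hlp : 0 < (Real.log Z) ^ (2 * k + 2) := by positivity
  have hL0 : (0 : ℝ) < L := lt_of_lt_of_le hlp hLz
  exact by
    have hL : 1 ≤ L := by exact_mod_cast hL0
    have h1 := card_PR_le l L k Z s
    have h2 : ∑ u : Fin l → Fin L, ∑ u' : Fin l → Fin L, ∑ i ∈ range (2 * L), GG k Z s u u' i ≤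
        ∑ u : Fin l → Fin L, ∑ u' : Fin l → Fin L, ∑ i ∈ range (2 * L),
          (C1 * (Z / (Real.log Z) ^ (2 * k + 2)) * (1 + WW σ k s u u' i) + Z * NN k s u u' i) := by
      apply Finset.sum_le_sum; intro u _
      apply Finset.sum_le_sum; intro u' _
      apply Finset.sum_le_sum; intro i _
      exact hG Z hZ0 l L s hs u u' i
    have h3 : ∑ u : Fin l → Fin L, ∑ u' : Fin l → Fin L, ∑ i ∈ range (2 * L),
          (C1 * (Z / (Real.log Z) ^ (2 * k + 2)) * (1 + WW σ k s u u' i) + Z * NN k s u u' i) =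
        C1 * (Z / (Real.log Z) ^ (2 * k + 2)) *
          (∑ u : Fin l → Fin L, ∑ u' : Fin l → Fin L, ∑ i ∈ range (2 * L), (1 + WW σ k s u u' i)) +
        Z * ∑ u : Fin l → Fin L, ∑ u' : Fin l → Fin L, ∑ i ∈ range (2 * L), NN k s u u' i :=
      sum3_lin (fun u u' i => 1 + WW σ k s u u' i) (fun u u' i => NN k s u u' i) _ _
    have h4 := hW k l L s hkl hL hs hX hsX
    have h5 := sum_NN_le k l L s
    exact by
      have h6 : C1 * (Z / (Real.log Z) ^ (2 * k + 2)) *
            (∑ u : Fin l → Fin L, ∑ u' : Fin l → Fin L, ∑ i ∈ range (2 * L), (1 + WW σ k s u u' i)) ≤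
          C1 * (Z / (Real.log Z) ^ (2 * k + 2)) * (C2 * (k + 1) ^ 2 * (L : ℝ) ^ (2 * l + 1)) :=
        mul_le_mul_of_nonneg_left h4 (by (clear * - hC1 hZ3 hlog; positivity))
      have h7 : Z * ∑ u : Fin l → Fin L, ∑ u' : Fin l → Fin L, ∑ i ∈ range (2 * L), NN k s u u' i ≤
          Z * ((k + 1) ^ 2 * (L : ℝ) ^ (2 * l)) := mul_le_mul_of_nonneg_left h5 (by positivity)
      have h8 : (Z : ℝ) * ((k + 1) ^ 2 * (L : ℝ) ^ (2 * l)) ≤
          (k + 1) ^ 2 * (Z / (Real.log Z) ^ (2 * k + 2)) * (L : ℝ) ^ (2 * l + 1) := by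
        have e1 : (Z : ℝ) = (Z / (Real.log Z) ^ (2 * k + 2)) * (Real.log Z) ^ (2 * k + 2) := by
          field_simp
        calc (Z : ℝ) * ((k + 1) ^ 2 * (L : ℝ) ^ (2 * l)) =
            (Z / (Real.log Z) ^ (2 * k + 2)) * ((k + 1) ^ 2 * (L : ℝ) ^ (2 * l)) *
              (Real.log Z) ^ (2 * k + 2) := by
              conv_lhs => rw [e1]
              ring
          _ ≤ (Z / (Real.log Z) ^ (2 * k + 2)) * ((k + 1) ^ 2 * (L : ℝ) ^ (2 * l)) * L :=
              mul_le_mul_of_nonneg_left hLz (by (clear * - hZ3 hlog hL; positivity))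
          _ = _ := by ring
      calc ((PR l L k Z s).card : ℝ) ≤ _ := h1
        _ ≤ 2 * (C1 * (Z / (Real.log Z) ^ (2 * k + 2)) * (C2 * (k + 1) ^ 2 * (L : ℝ) ^ (2 * l + 1)) +
            (k + 1) ^ 2 * (Z / (Real.log Z) ^ (2 * k + 2)) * (L : ℝ) ^ (2 * l + 1)) := by
            (clear * - h2 h3 h6 h7 h8; linarith)
        _ = _ := by ring

end Pool.Agent.Helper57.FP

end

section

set_option autoImplicit false

open Finset Real

namespace Pool.Agent.Helper57.FP

/-- second moment over blocks -/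
theorem energy_le : ∃ C : ℝ, 0 < C ∧ ∃ Z0 : ℕ, ∀ Z : ℕ, Z0 ≤ Z → ∀ B : ℕ, 0 < B →
    (Real.log Z) ^ 2 ≤ B → ∀ A : Finset ℕ, (∀ p ∈ A, p.Prime ∧ p < Z) → ∀ N : ℕ,
    ∑ j ∈ range N, (bc A B j : ℝ) ^ 2 ≤ C * (Z / (Real.log Z) ^ 2) * B := by
  classical
  obtain ⟨C, hC, Z0, hP⟩ := pair_bound 0
  refine ⟨C, hC, Z0, ?_⟩
  intro Z hZ B hB0 hB A hA N
  have h1 := hP Z hZ 0 B (fun _ x => x + 1) le_rfl (by simpa using hB) (fun _ x => Nat.lt_succ_self x)
    (by
      intro u i hi
      have : i = 0 := by omega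
      subst this
      rw [X_zero]
      positivity)
    (by
      intro u
      rw [X_zero]
      exact Nat.one_le_two_pow)
  simp only [mul_zero, zero_add, pow_one] at h1
  refine le_trans ?_ h1
  have h2 : ∑ j ∈ range N, (bc A B j) ^ 2 ≤ (PR 0 B 0 Z (fun _ x => x + 1)).card := by
    have h3 : ∑ j ∈ range N, (bc A B j) ^ 2 = (((range N).sigma (fun j =>
        (A.filter (fun n => n / B = j)) ×ˢ (A.filter (fun n => n / B = j)))).card) := by
      rw [Finset.card_sigma]
      apply Finset.sum_congr rfl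
      intro j _
      rw [Finset.card_product, bc, sq]
    rw [h3]
    apply Finset.card_le_card_of_injOn (fun e => ((e.2.1, Fin.elim0), (e.2.2, Fin.elim0)))
    · rintro ⟨j, p, q⟩ he
      simp only [Finset.mem_coe, Finset.mem_sigma, Finset.mem_product, Finset.mem_filter] at he
      obtain ⟨_, ⟨hp, hpj⟩, ⟨hq, hqj⟩⟩ := he
      simp only [PR, Finset.mem_coe, Finset.mem_filter, Finset.mem_product, mem_TP]
      refine ⟨⟨⟨(hA p hp).2, ?_⟩, ⟨(hA q hq).2, ?_⟩⟩, ?_⟩
      · intro i hi
        have : i = 0 := by omega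
        subst this
        exact (hA p hp).1
      · intro i hi
        have : i = 0 := by omega
        subst this
        exact (hA q hq).1
      · unfold yy
        simp only [X_zero]
        rw [abs_lt]
        have a1 := Nat.div_mul_le_self p B
        have a2 := Nat.div_mul_le_self q B
        have a3 := Nat.lt_mul_div_succ p hB0
        have a4 := Nat.lt_mul_div_succ q hB0
        rw [hpj] at a1 a3
        rw [hqj] at a2 a4
        have a5 : B * (j + 1) = j * B + B := by ring
        push_cast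
        omega
    · rintro ⟨j, p, q⟩ he ⟨j', p', q'⟩ he' h
      simp only [Finset.mem_coe, Finset.mem_sigma, Finset.mem_product, Finset.mem_filter] at he he'
      simp only [Prod.mk.injEq, and_true] at h
      obtain ⟨h1, h2⟩ := h
      subst h1
      subst h2
      have : j = j' := by rw [← he.2.1.2, ← he'.2.1.2]
      subst this
      rfl
  calc ∑ j ∈ range N, (bc A B j : ℝ) ^ 2 = ((∑ j ∈ range N, (bc A B j) ^ 2 : ℕ) : ℝ) := by
        push_cast; rfl
    _ ≤ _ := by exact_mod_cast h2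

end Pool.Agent.Helper57.FP

end

section

set_option autoImplicit false

open Finset Real

namespace Pool.Agent.Helper57.FP

/-- the tuples in `A` with base point in `G` -/
def TG (G A : Finset ℕ) (l L k : ℕ) (s : ℕ → ℕ → ℕ) : Finset (ℕ × (Fin l → Fin L)) :=
  (G ×ˢ univ).filter (fun c => ∀ i ≤ k, c.1 + X s c.2 i ∈ A)

theorem mem_TG {G A : Finset ℕ} {l L k : ℕ} {s : ℕ → ℕ → ℕ} {c : ℕ × (Fin l → Fin L)} :
    c ∈ TG G A l L k s ↔ c.1 ∈ G ∧ ∀ i ≤ k, c.1 + X s c.2 i ∈ A := by
  unfold TG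
  rw [Finset.mem_filter, Finset.mem_product]
  simp

theorem card_TG_succ {G A : Finset ℕ} {l L k : ℕ} {s : ℕ → ℕ → ℕ} (hk : k < l) :
    (L : ℝ) * (TG G A l L (k + 1) s).card =
      ∑ c ∈ TG G A l L k s, (((range L).filter (fun v => yy k s c + v ∈ A)).card : ℝ) := by
  classical
  have h1 : ((TG G A l L (k + 1) s).card : ℝ) = ∑ p ∈ G, ∑ u : Fin l → Fin L,
      if (∀ i ≤ k + 1, p + X s u i ∈ A) then (1 : ℝ) else 0 := by
    unfold TG
    rw [Finset.card_filter]
    push_cast
    rw [Finset.sum_product]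
  have h2 : ∑ c ∈ TG G A l L k s, (((range L).filter (fun v => yy k s c + v ∈ A)).card : ℝ) =
      ∑ p ∈ G, ∑ u : Fin l → Fin L, if (∀ i ≤ k, p + X s u i ∈ A) then
        (((range L).filter (fun v => yy k s (p, u) + v ∈ A)).card : ℝ) else 0 := by
    unfold TG
    rw [Finset.sum_filter, Finset.sum_product]
  rw [h1, h2, Finset.mul_sum]
  apply Finset.sum_congr rfl
  intro p _
  rw [← sum_update ⟨k, hk⟩]
  apply Finset.sum_congr rfl
  intro u _
  have h3 : ∀ v : Fin L, (∀ i ≤ k + 1, p + X s (Function.update u ⟨k, hk⟩ v) i ∈ A) ↔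
      (∀ i ≤ k, p + X s u i ∈ A) ∧ yy k s (p, u) + (v : ℕ) ∈ A := by
    intro v
    have hu := X_update s u ⟨k, hk⟩ v
    have hu' := X_update_succ s u ⟨k, hk⟩ v
    simp only at hu hu'
    constructor
    · intro h
      refine ⟨fun i hi => ?_, ?_⟩
      · rw [← hu i hi]; exact h i (by omega)
      · have := h (k + 1) le_rfl
        rw [hu'] at this
        unfold yy
        simp only
        rw [add_assoc]
        exact this
    · rintro ⟨h, h'⟩ i hi
      rcases Nat.lt_or_ge k i with hlt | hle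
      · have : i = k + 1 := by omega
        subst this
        rw [hu']
        unfold yy at h'
        simp only at h'
        rw [add_assoc] at h'
        exact h'
      · rw [hu i hle]; exact h i hle
  simp only [h3]
  by_cases hall : ∀ i ≤ k, p + X s u i ∈ A
  · have h4 : ∀ v : Fin L, ((∀ i ≤ k, p + X s u i ∈ A) ∧ yy k s (p, u) + (v : ℕ) ∈ A) ↔
        yy k s (p, u) + (v : ℕ) ∈ A := fun v => and_iff_right hall
    simp only [h4]
    rw [if_pos hall]
    rw [Fin.sum_univ_eq_sum_range (fun v : ℕ => if yy k s (p, u) + v ∈ A then (1 : ℝ) else 0) L,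
      Finset.sum_boole]
  · rw [if_neg hall]
    apply Finset.sum_eq_zero
    intro v _
    rw [if_neg]
    exact fun h => hall h.1

/-- The bad incidences. -/
theorem bad_le {G A J : Finset ℕ} {l B k Z : ℕ} {s : ℕ → ℕ → ℕ} (hB : 0 < B)
    (hA : ∀ p ∈ A, p.Prime ∧ p < Z) (hG : G ⊆ A) :
    (∑ c ∈ TG G A l (B ^ 2) k s, (((II B (yy k s c)).filter (fun j => j ∈ J)).card : ℝ)) ^ 2 ≤
      J.card * (B * (PR l (B ^ 2) k Z s).card) := by
  classical
  set T := TG G A l (B ^ 2) k s with hT
  have h1 : ∑ c ∈ T, (((II B (yy k s c)).filter (fun j => j ∈ J)).card : ℝ) =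
      ∑ j ∈ J, ((T.filter (fun c => j ∈ II B (yy k s c))).card : ℝ) := by
    have e1 : ∀ c ∈ T, (((II B (yy k s c)).filter (fun j => j ∈ J)).card : ℝ) =
        ∑ j ∈ J, if j ∈ II B (yy k s c) then (1 : ℝ) else 0 := by
      intro c _
      rw [Finset.sum_boole]
      congr 2
      ext j
      simp only [Finset.mem_filter]
      tauto
    rw [Finset.sum_congr rfl e1, Finset.sum_comm]
    apply Finset.sum_congr rfl
    intro j _
    rw [Finset.sum_boole]
  rw [h1]
  refine (sq_sum_le_card_mul_sum_sq).trans ?_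
  apply mul_le_mul_of_nonneg_left _ (by positivity)
  have hTP : ∀ c ∈ T, c ∈ TP l (B ^ 2) k Z s := by
    intro c hc
    rw [hT, mem_TG] at hc
    rw [mem_TP]
    exact ⟨(hA _ (hG hc.1)).2, fun i hi => (hA _ (hc.2 i hi)).1⟩
  have h2 : ∑ j ∈ J, ((T.filter (fun c => j ∈ II B (yy k s c))).card) ^ 2 ≤
      B * (PR l (B ^ 2) k Z s).card := by
    calc ∑ j ∈ J, ((T.filter (fun c => j ∈ II B (yy k s c))).card) ^ 2
        = (J.sigma (fun j => (T.filter (fun c => j ∈ II B (yy k s c))) ×ˢ
            (T.filter (fun c => j ∈ II B (yy k s c))))).card := by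
          rw [Finset.card_sigma]
          apply Finset.sum_congr rfl
          intro j _
          rw [Finset.card_product, sq]
      _ ≤ ((PR l (B ^ 2) k Z s).sigma (fun e => II B (yy k s e.1))).card := by
          apply Finset.card_le_card_of_injOn (fun e => ⟨e.2, e.1⟩)
          · rintro ⟨j, c, c'⟩ he
            simp only [Finset.mem_coe, Finset.mem_sigma, Finset.mem_product,
              Finset.mem_filter] at he
            obtain ⟨_, ⟨hc, hcj⟩, ⟨hc', hcj'⟩⟩ := he
            simp only [PR, Finset.mem_coe, Finset.mem_sigma, Finset.mem_product,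
              Finset.mem_filter]
            refine ⟨⟨⟨hTP c hc, hTP c' hc'⟩, ?_⟩, hcj⟩
            rw [mem_II hB] at hcj hcj'
            have a1 : (j + 1) * B = j * B + B := Nat.succ_mul j B
            rw [abs_lt]
            omega
          · rintro ⟨j, c, c'⟩ _ ⟨j', d, d'⟩ _ h
            simp only [Sigma.mk.injEq, Prod.mk.injEq, heq_eq_eq] at h
            obtain ⟨⟨h1, h2⟩, h3⟩ := h
            subst h1; subst h2; subst h3
            rfl
      _ = ∑ e ∈ PR l (B ^ 2) k Z s, (II B (yy k s e.1)).card := Finset.card_sigma _ _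
      _ ≤ ∑ _e ∈ PR l (B ^ 2) k Z s, B := Finset.sum_le_sum fun e _ => card_II_le hB _
      _ = B * (PR l (B ^ 2) k Z s).card := by
          rw [Finset.sum_const, smul_eq_mul, mul_comm]
  exact_mod_cast h2

/-- One step of the induction. -/
theorem step {G A J : Finset ℕ} {l B k Z S : ℕ} {s : ℕ → ℕ → ℕ} (hk : k < l) (hB : 2 ≤ B)
    {δ ε lz τ C : ℝ} (hδ : 0 < δ) (hε : 0 < ε) (hlz : 0 < lz) (hτ : 0 < τ) (hC : 0 < C)
    (hZ : 0 < Z)
    (hεC : ε * C ≤ τ ^ 2 / 16)
    (hA : ∀ p ∈ A, p.Prime ∧ p < Z) (hG : G ⊆ A)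
    (hJ : (J.card : ℝ) ≤ ε * (Z / B))
    (hgood : ∀ p ∈ G, ∀ j : ℕ, p ≤ j * B → (j + 1) * B ≤ p + S → j ∉ J →
        δ / 4 * (B / lz) ≤ bc A B j)
    (hS : ∀ u : Fin l → Fin (B ^ 2), s k (X s u k) + B ^ 2 ≤ S)
    (hPR : ((PR l (B ^ 2) k Z s).card : ℝ) ≤
      C * (Z / lz ^ (2 * k + 2)) * ((B ^ 2 : ℕ) : ℝ) ^ (2 * l + 1))
    (hT : τ * (Z / lz ^ (k + 1)) * ((B ^ 2 : ℕ) : ℝ) ^ l ≤ (TG G A l (B ^ 2) k s).card) :
    δ / 16 * τ * (Z / lz ^ (k + 2)) * ((B ^ 2 : ℕ) : ℝ) ^ l ≤
      (TG G A l (B ^ 2) (k + 1) s).card := by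
  classical
  have hB0 : 0 < B := by omega
  have hBr : (2 : ℝ) ≤ B := by exact_mod_cast hB
  have hBpos : (0 : ℝ) < B := by linarith
  have hZr : (0 : ℝ) < Z := by exact_mod_cast hZ
  set Lr : ℝ := ((B ^ 2 : ℕ) : ℝ) with hLr
  have hLr' : Lr = (B : ℝ) ^ 2 := by rw [hLr]; push_cast; rfl
  exact by
    have hLpos : 0 < Lr := by rw [hLr']; positivity
    set m : ℝ := δ / 4 * (B / lz) with hm
    have hm0 : 0 < m := by positivity
    set Q : ℝ := (Z / lz ^ (k + 1)) * Lr ^ l with hQ
    have hQ0 : 0 < Q := by positivity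
    have hT' : τ * Q ≤ (TG G A l (B ^ 2) k s).card := by
      calc τ * Q = τ * (Z / lz ^ (k + 1)) * Lr ^ l := by rw [hQ]; ring
        _ ≤ _ := hT
    exact by
      set W : ℝ := ∑ c ∈ TG G A l (B ^ 2) k s,
        (((II B (yy k s c)).filter (fun j => j ∈ J)).card : ℝ) with hW
      have hW0 : 0 ≤ W := Finset.sum_nonneg fun c _ => by positivity
      -- lower bound
      have h1 : m * ((B - 1) * (TG G A l (B ^ 2) k s).card - W) ≤ Lr * (TG G A l (B ^ 2) (k + 1) s).card := by
        rw [card_TG_succ hk]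
        calc m * ((B - 1) * (TG G A l (B ^ 2) k s).card - W) =
            ∑ c ∈ TG G A l (B ^ 2) k s, m * ((B : ℝ) - 1 -
              ((II B (yy k s c)).filter (fun j => j ∈ J)).card) := by
              rw [hW, ← Finset.mul_sum, Finset.sum_sub_distrib, Finset.sum_const, nsmul_eq_mul]
              ring
          _ ≤ _ := by
              apply Finset.sum_le_sum
              intro c hc
              rw [mem_TG] at hc
              apply count_ge hB0 hm0.le
              intro j hj hjJ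
              rw [mem_II hB0] at hj
              apply hgood c.1 hc.1 j _ _ hjJ
              · refine le_trans ?_ hj.1
                unfold yy; omega
              · refine hj.2.trans ?_
                have := hS c.2
                unfold yy; omega
      -- upper bound for W
      have h2 : W ≤ τ / 4 * B * Q := by
        have h3 := bad_le (l := l) (k := k) (s := s) (J := J) hB0 hA hG
        rw [← hW] at h3
        have h4 : W ^ 2 ≤ (τ / 4 * B * Q) ^ 2 := by
          calc W ^ 2 ≤ J.card * (B * (PR l (B ^ 2) k Z s).card) := h3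
            _ ≤ (ε * (Z / B)) * (B * (C * (Z / lz ^ (2 * k + 2)) * Lr ^ (2 * l + 1))) := by
                apply mul_le_mul hJ _ (by positivity) (by positivity)
                exact mul_le_mul_of_nonneg_left hPR hBpos.le
            _ = (ε * C) * (B * Q) ^ 2 := by
                rw [hQ, hLr']
                field_simp
                ring
            _ ≤ τ ^ 2 / 16 * (B * Q) ^ 2 := mul_le_mul_of_nonneg_right hεC (by positivity)
            _ = _ := by ring
        exact (pow_le_pow_iff_left₀ hW0 (by positivity) two_ne_zero).mp h4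
      have h5 : τ / 4 * B * Q ≤ (B - 1) * (TG G A l (B ^ 2) k s).card - W := by
        have h6 : (B : ℝ) / 2 * (τ * Q) ≤ (B - 1) * (TG G A l (B ^ 2) k s).card := by
          calc (B : ℝ) / 2 * (τ * Q) ≤ (B - 1) * (τ * Q) := by
                apply mul_le_mul_of_nonneg_right _ (by positivity)
                linarith
            _ ≤ _ := mul_le_mul_of_nonneg_left hT' (by linarith)
        linarith
      have h6 : m * (τ / 4 * B * Q) ≤ Lr * (TG G A l (B ^ 2) (k + 1) s).card :=
        (mul_le_mul_of_nonneg_left h5 hm0.le).trans h1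
      have h7 : m * (τ / 4 * B * Q) = Lr * (δ / 16 * τ * (Z / lz ^ (k + 2)) * Lr ^ l) := by
        rw [hm, hQ, hLr']
        field_simp
        ring
      rw [h7] at h6
      exact le_of_mul_le_mul_left h6 hLpos

end Pool.Agent.Helper57.FP

end

section

set_option autoImplicit false

open Finset

open scoped BigOperators

namespace Pool.Agent.Helper57.NX3

open Pool.Agent.Helper44 Pool.Agent.Helper96.CPAP Pool.Agent.Helper57.FP

lemma psy_le (h q : ℕ) : nu (psy h) q ≤ 2 := nu_le (psy h) q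

lemma psy_ge (h q : ℕ) (hq : 0 < q) (hd : ¬ q ∣ h) : 2 ≤ nu (psy h) q := by
  apply nu_ge (psy h) hq
  intro i j hij hdvd
  apply hd
  cases i <;> cases j <;> simp [psy] at hij hdvd
  · exact_mod_cast hdvd
  · exact_mod_cast hdvd

lemma psy_pos (h q : ℕ) (hq : 0 < q) : 1 ≤ nu (psy h) q := by
  classical
  rw [nu_eq]
  apply Nat.succ_le_of_lt
  rw [Finset.card_pos]
  refine ⟨0, ?_⟩
  rw [Finset.mem_filter, Finset.mem_range]
  exact ⟨hq, false, by simp [psy]⟩

lemma prod_local : ∃ C : ℝ, 0 < C ∧ ∀ w : ℝ, 2 ≤ w → ∀ h : ℕ, 1 ≤ h →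
    ∏ q ∈ pU (PP 2) w, (1 - (nu (psy h) q : ℝ) / q) ≤
      C * ((h : ℝ) / h.totient) / (Real.log w) ^ 2 := by
  classical
  obtain ⟨C, hC, hmain⟩ := prod_main_le 2
  obtain ⟨C2, hC2, hS⟩ := sum_inv_sq_le
  refine ⟨C * Real.exp (2 * C2), by positivity, ?_⟩
  intro w hw h hh
  have hP' : ∀ q, PP 2 q → q.Prime := fun q h => h.1
  have hw0 : 0 ≤ w := by (clear * - hw; linarith)
  have hlw : 0 < Real.log w := Real.log_pos (by (clear * - hw; linarith))
  have hq : ∀ q ∈ pU (PP 2) w, (4 : ℝ) ≤ q ∧ q.Prime := by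
    intro q hq
    rw [mem_pU hP' hw0] at hq
    have h1 : 4 ≤ q := hq.1.2
    exact ⟨by exact_mod_cast h1, hq.1.1⟩
  have h1 : ∏ q ∈ pU (PP 2) w, (1 - (nu (psy h) q : ℝ) / q) ≤
      ∏ q ∈ pU (PP 2) w, ((1 - ((2 : ℕ) : ℝ) / q) *
        ((if q ∣ h then (1 - 1 / (q : ℝ))⁻¹ else 1) * Real.exp (2 * (1 / (q : ℝ)) ^ 2))) := by
    apply Finset.prod_le_prod
    · intro q hq'
      obtain ⟨hq4, hqp⟩ := hq q hq'
      have h2 : (nu (psy h) q : ℝ) ≤ 2 := by exact_mod_cast psy_le h q
      have : (nu (psy h) q : ℝ) / q ≤ 1 := by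
        rw [div_le_one (by (clear * - hq4; linarith))]
        (clear * - hq4 h2; linarith)
      (clear * - this; linarith)
    · intro q hq'
      obtain ⟨hq4, hqp⟩ := hq q hq'
      have hq0 : (0 : ℝ) < q := by (clear * - hq4; linarith)
      exact by
        have hpush : ((2 : ℕ) : ℝ) / q = 2 / q := by norm_num
        rw [hpush]
        have h2q : (2 : ℝ) / q ≤ 1 / 2 := by
          rw [div_le_iff₀ hq0]; (clear * - hq4; linarith)
        split_ifs with hd
        · have h2 : (1 : ℝ) ≤ nu (psy h) q := by exact_mod_cast psy_pos h q hqp.pos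
          have h3 : (1 : ℝ) / q ≤ (nu (psy h) q : ℝ) / q := div_le_div_of_nonneg_right h2 hq0.le
          have h4 := local_le hq4
          (clear * - h3 h4; linarith)
        · have h2 : (2 : ℝ) ≤ nu (psy h) q := by exact_mod_cast psy_ge h q hqp.pos hd
          have h3 : (2 : ℝ) / q ≤ (nu (psy h) q : ℝ) / q := div_le_div_of_nonneg_right h2 hq0.le
          rw [one_mul]
          have h4 : 1 ≤ Real.exp (2 * (1 / (q : ℝ)) ^ 2) := Real.one_le_exp (by (clear * - hq4; positivity))
          have h5 : (1 - 2 / (q : ℝ)) * 1 ≤ (1 - 2 / (q : ℝ)) * Real.exp (2 * (1 / (q : ℝ)) ^ 2) :=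
            mul_le_mul_of_nonneg_left h4 (by (clear * - h2q; linarith))
          (clear * - h3 h5; linarith)
  rw [Finset.prod_mul_distrib, Finset.prod_mul_distrib] at h1
  have h2 : ∏ q ∈ pU (PP 2) w, (if q ∣ h then (1 - 1 / (q : ℝ))⁻¹ else 1) ≤
      (h : ℝ) / h.totient := by
    rw [← Finset.prod_filter, ratio_eq h hh]
    apply prod_le_prod_subset_real
    · intro q hq'
      rw [Finset.mem_filter] at hq'
      rw [Nat.mem_primeFactors]
      exact ⟨(hq q hq'.1).2, hq'.2, by omega⟩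
    · intro q hq'
      have hq2 := (Nat.prime_of_mem_primeFactors hq').two_le
      have hq3 : (2 : ℝ) ≤ q := by exact_mod_cast hq2
      have hq4 : 1 / (q : ℝ) ≤ 1 / 2 := one_div_le_one_div_of_le (by norm_num) hq3
      have hq5 : 0 ≤ 1 / (q : ℝ) := by positivity
      rw [one_le_inv₀ (by (clear * - hq4; linarith))]
      (clear * - hq5; linarith)
  have h3 : ∏ q ∈ pU (PP 2) w, Real.exp (2 * (1 / (q : ℝ)) ^ 2) ≤ Real.exp (2 * C2) := by
    rw [← Real.exp_sum, ← Finset.mul_sum]
    apply Real.exp_le_exp.mpr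
    have := hS (pU (PP 2) w)
    (clear * - this; linarith)
  have h4 : 0 ≤ ∏ q ∈ pU (PP 2) w, (1 - ((2 : ℕ) : ℝ) / q) := by
    apply Finset.prod_nonneg
    intro q hq'
    obtain ⟨hq4, _⟩ := hq q hq'
    have hq0 : (0 : ℝ) < q := by (clear * - hq4; linarith)
    have : ((2 : ℕ) : ℝ) / q ≤ 1 / 2 := by
      rw [div_le_iff₀ hq0]; push_cast; (clear * - hq4; linarith)
    (clear * - this; linarith)
  have h5 : 0 ≤ ∏ q ∈ pU (PP 2) w, Real.exp (2 * (1 / (q : ℝ)) ^ 2) :=
    Finset.prod_nonneg fun q _ => (Real.exp_pos _).le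
  have h6 : 0 ≤ (h : ℝ) / h.totient := by positivity
  calc ∏ q ∈ pU (PP 2) w, (1 - (nu (psy h) q : ℝ) / q) ≤ _ := h1
    _ ≤ (∏ q ∈ pU (PP 2) w, (1 - ((2 : ℕ) : ℝ) / q)) *
        (((h : ℝ) / h.totient) * Real.exp (2 * C2)) := by
        apply mul_le_mul_of_nonneg_left _ h4
        exact mul_le_mul h2 h3 h5 h6
    _ ≤ (C / (Real.log w) ^ 2) * (((h : ℝ) / h.totient) * Real.exp (2 * C2)) :=
        mul_le_mul_of_nonneg_right (hmain w hw) (by positivity)
    _ = _ := by ring

end Pool.Agent.Helper57.NX3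

end
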