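import Pool.Agent.Helper23.MC.L00_a0
import Pool.Agent.Helper23.MC.L00_a1
import Pool.Agent.Helper23.MC.L00_a12
import Pool.Agent.Helper23.MC.L00_a13

/-!
Parts of Helper88.NX.BoxNorm, Helper36.NX.U2Block, Helper72.NX.DlBase, Helper25.NX.Gcs, Helper87.NX.DlA, Helper88.NX.DlB, Helper82.NX2.Fib, Helper30.NX2.LocArithAux, Helper82.NX.GncA, Helper91.NX2.GncArith, Helper61.NX.Step, Helper9.NX2.DlTotalAux, Helper72.NX2.DlA, Helper60.NX2.DlB
-/

attribute [local instance 5000]
  Pool.Agent.Helper23.MC.Inst.rCharZero Pool.Agent.Helper23.MC.Inst.rALM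
  Pool.Agent.Helper23.MC.Inst.rARM Pool.Agent.Helper23.MC.Inst.rALSM
  Pool.Agent.Helper23.MC.Inst.rARSM Pool.Agent.Helper23.MC.Inst.rARRLE
  Pool.Agent.Helper23.MC.Inst.rALRLE Pool.Agent.Helper23.MC.Inst.rARRLT
  Pool.Agent.Helper23.MC.Inst.rALRLT Pool.Agent.Helper23.MC.Inst.rPMRLT
  Pool.Agent.Helper23.MC.Inst.rMPRLT Pool.Agent.Helper23.MC.Inst.rPMM
  Pool.Agent.Helper23.MC.Inst.rMPM Pool.Agent.Helper23.MC.Inst.rPMSM
  Pool.Agent.Helper23.MC.Inst.rMPSM Pool.Agent.Helper23.MC.Inst.rEAOL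
  Pool.Agent.Helper23.MC.Inst.rIOR Pool.Agent.Helper23.MC.Inst.rISOR
  Pool.Agent.Helper23.MC.Inst.rNZD Pool.Agent.Helper23.MC.Inst.rcCharZero
  Pool.Agent.Helper23.MC.Inst.rcNZD Pool.Agent.Helper23.MC.Inst.zCharZero
  Pool.Agent.Helper23.MC.Inst.zALM Pool.Agent.Helper23.MC.Inst.zARM
  Pool.Agent.Helper23.MC.Inst.zALSM Pool.Agent.Helper23.MC.Inst.zARSM
  Pool.Agent.Helper23.MC.Inst.zIOR Pool.Agent.Helper23.MC.Inst.zISOR
  Pool.Agent.Helper23.MC.Inst.zNZD Pool.Agent.Helper23.MC.Inst.qCharZero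
  Pool.Agent.Helper23.MC.Inst.mR Pool.Agent.Helper23.MC.Inst.mC Pool.Agent.Helper23.MC.Inst.mRC
  Pool.Agent.Helper23.MC.Inst.rPSM Pool.Agent.Helper23.MC.Inst.rCSM
  Pool.Agent.Helper23.MC.Inst.cAdd Pool.Agent.Helper23.MC.Inst.cAddM
  Pool.Agent.Helper23.MC.Inst.cMul Pool.Agent.Helper23.MC.Inst.cMon

namespace Pool.Agent.Helper57.NX
end Pool.Agent.Helper57.NX
namespace Pool.Agent.Helper67.NX2
end Pool.Agent.Helper67.NX2
namespace Pool.Agent.Helper82.NX
end Pool.Agent.Helper82.NX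

section

set_option autoImplicit false

set_option linter.unusedSectionVars false

set_option linter.unusedVariables false

open Finset

open scoped BigOperators ComplexConjugate

namespace Pool.Agent.Helper57.NX

noncomputable section

section private_basic

variable {N : ℕ} [NeZero N]

theorem bx_A_A_sub {f : ZMod N → ℂ} (hf : ∀ x, ‖f x‖ ≤ 1) (L L' : ℕ) (hL' : 1 ≤ L')
    (hL : 1 ≤ L) (x : ZMod N) : ‖A L (A L' f) x - A L' f x‖ ≤ 2 * L / L' := by
  have hne : (range L).Nonempty := by simpa using (by omega : L ≠ 0)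
  have h1 : A L (A L' f) x - A L' f x
      = 𝔼 a ∈ range L, (A L' f (x + (a : ZMod N)) - A L' f x) := by
    rw [expect_sub_distrib, expect_const hne]
    rfl
  rw [h1]
  refine bx_norm_expect_le_const _ _ _ (by (clear * - hL hL'; positivity)) fun a ha => ?_
  refine (bx_A_shift hf L' hL' x a).trans ?_
  have : (a : ℝ) ≤ L := by exact_mod_cast (mem_range.mp ha).le
  (clear * - this hL'; gcongr)

/-- shortening one direction -/
theorem bx_shorten {w : ZMod N → ℂ} (hw : ∀ x, ‖w x‖ ≤ 1) (X X' : ℕ) (hX' : 1 ≤ X')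
    (hX : 1 ≤ X) : 𝔼 x, ‖A X w x‖ ^ 2 ≤ (𝔼 x, ‖A X' w x‖ ^ 2) + 4 * X' / X := by
  have h1 : 𝔼 x, ‖A X w x‖ ^ 2 ≤ (𝔼 x, ‖A X' (A X w) x‖ ^ 2) + 4 * X' / X := by
    have hc : (𝔼 _x : ZMod N, (4 * (X' : ℝ) / X)) = 4 * X' / X := expect_const univ_nonempty _
    rw [← hc, ← expect_add_distrib]
    refine expect_le_expect fun x _ => ?_
    have h2 := bx_A_A_sub hw X' X hX hX' x
    have h3 := bx_norm_A_le hw X x
    have h4 := bx_norm_A_le (bx_norm_A_le hw X) X' x
    have h5 : ‖A X w x‖ ≤ ‖A X' (A X w) x‖ + 2 * X' / X := by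
      have := norm_sub_norm_le (A X w x) (A X' (A X w) x)
      rw [norm_sub_rev] at h2
      (clear * - h2 this; linarith)
    have h6 : ‖A X w x‖ ^ 2 - ‖A X' (A X w) x‖ ^ 2
        = (‖A X w x‖ - ‖A X' (A X w) x‖) * (‖A X w x‖ + ‖A X' (A X w) x‖) := by ring
    have h7 : 0 ≤ 2 * (X' : ℝ) / X := by (clear * - hX' hX; positivity)
    have h8 : (‖A X w x‖ - ‖A X' (A X w) x‖) * (‖A X w x‖ + ‖A X' (A X w) x‖)
        ≤ 2 * X' / X * 2 := by
      refine mul_le_mul (by (clear * - h5; linarith)) (by (clear * - h3 h4; linarith)) (by (clear * -; positivity)) h7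
    have h9 : 2 * (X' : ℝ) / X * 2 = 4 * X' / X := by ring
    (clear * - h8 h9; linarith)
  have h2 : 𝔼 x, ‖A X' (A X w) x‖ ^ 2 ≤ 𝔼 x, ‖A X' w x‖ ^ 2 := by
    rw [bx_A_comm]
    exact bx_l2_A_le X _
  linarith

end private_basic

section BoxNorm

variable {N : ℕ} [NeZero N]

theorem bx_norm_cjj {k : ℕ} (ω : Fin k → Bool) (z : ℂ) : ‖cjj ω z‖ = ‖z‖ := by
  unfold cjj
  split_ifs <;> simp

theorem bx_sel_cons {k : ℕ} {α : Type} (β : Bool) (ω : Fin k → Bool) (a0 b0 : α)
    (a b : Fin k → α) :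
    sel (Fin.cons β ω : Fin (k + 1) → Bool) (Fin.cons a0 a) (Fin.cons b0 b)
      = Fin.cons (if β then b0 else a0) (sel ω a b) := by
  funext i
  refine Fin.cases ?_ (fun i => ?_) i
  · simp [sel]
  · simp [sel]

theorem bx_tot_cons {k : ℕ} (z : ℕ) (a : Fin k → ℕ) :
    tot (Fin.cons z a : Fin (k + 1) → ℕ) = z + tot a := by
  simp [tot, Fin.sum_univ_succ]

/-- peel the first direction of a cube -/
theorem bx_cube_cons (k : ℕ) (f : ZMod N → ℂ) (z z' : ℕ) (a b : Fin k → ℕ) (x : ZMod N) :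
    cube f (Fin.cons z a) (Fin.cons z' b) x
      = cube (fun x => f (x + (z : ZMod N)) * conj (f (x + (z' : ZMod N)))) a b x := by
  unfold cube
  rw [← Fintype.prod_equiv (Fin.consEquiv (fun _ : Fin (k + 1) => Bool))
    (fun p => cjj (Fin.cons p.1 p.2 : Fin (k + 1) → Bool)
      (f (x + (tot (sel (Fin.cons p.1 p.2 : Fin (k + 1) → Bool) (Fin.cons z a)
        (Fin.cons z' b)) : ZMod N)))) _ (fun p => rfl)]
  rw [Fintype.prod_prod_type, Fintype.prod_bool, ← prod_mul_distrib]
  refine prod_congr rfl fun ω _ => ?_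
  rw [bx_cjj_cons, bx_cjj_cons, bx_sel_cons, bx_sel_cons, bx_tot_cons, bx_tot_cons, bx_cjj_mul,
    bx_cjj_conj, mul_comm]
  simp only [if_true, Bool.false_eq_true, if_false, Nat.cast_add]
  rw [add_assoc, add_assoc, add_comm (tot (sel ω a b) : ZMod N) (z : ZMod N),
    add_comm (tot (sel ω a b) : ZMod N) (z' : ZMod N)]

theorem norm_cube_le (k : ℕ) {f : ZMod N → ℂ} (hf : ∀ x, ‖f x‖ ≤ 1) (a b : Fin k → ℕ)
    (x : ZMod N) : ‖cube f a b x‖ ≤ 1 := by
  unfold cube
  rw [norm_prod]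
  refine prod_le_one (fun _ _ => norm_nonneg _) fun ω _ => ?_
  rw [bx_norm_cjj]
  exact hf _

theorem bx_expect_boxset_succ {M : Type} [AddCommMonoid M] [Module ℚ≥0 M] (k X : ℕ)
    (F : (Fin (k + 1) → ℕ) → M) :
    𝔼 a ∈ boxset (k + 1) X, F a
      = 𝔼 z ∈ range X, 𝔼 a ∈ boxset k X, F (Fin.cons z a) := by
  rw [← expect_product' (range X) (boxset k X) (fun z a => F (Fin.cons z a))]
  refine expect_nbij' (fun a => (a 0, Fin.tail a)) (fun p => Fin.cons p.1 p.2) ?_ ?_ ?_ ?_ ?_
  · intro a ha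
    simp only [boxset, Fintype.mem_piFinset] at ha
    simp only [boxset, mem_product, Fintype.mem_piFinset]
    exact ⟨ha 0, fun i => ha _⟩
  · intro p hp
    simp only [boxset, mem_product, Fintype.mem_piFinset] at hp
    simp only [boxset, Fintype.mem_piFinset]
    intro i
    refine Fin.cases ?_ (fun i => ?_) i
    · simpa using hp.1
    · simpa using hp.2 i
  · intro a _
    simp
  · intro p _
    simp
  · intro a _
    simp

theorem bx_boxset_zero (X : ℕ) : boxset 0 X = {Fin.elim0} := by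
  ext a
  simp only [boxset, Fintype.mem_piFinset, mem_singleton]
  exact ⟨fun _ => Subsingleton.elim _ _, fun _ i => i.elim0⟩

theorem bx_cube_zero (f : ZMod N → ℂ) (a b : Fin 0 → ℕ) (x : ZMod N) :
    cube f a b x = f x := by
  unfold cube
  rw [Fintype.prod_unique]
  simp [cjj, tot]

theorem bx_Box_zero (X : ℕ) (f : ZMod N → ℂ) : Box 0 X f = (𝔼 x, f x).re := by
  simp [Box, bx_boxset_zero, bx_cube_zero]

/-- `Box` with complex averages -/
theorem bx_Box_eq (k X : ℕ) (f : ZMod N → ℂ) :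
    Box k X f = 𝔼 a ∈ boxset k X, 𝔼 b ∈ boxset k X, (𝔼 x : ZMod N, cube f a b x).re := by
  simp only [Box, Complex.re_expect]

/-- peel off one direction -/
theorem Box_succ (k X : ℕ) (f : ZMod N → ℂ) :
    Box (k + 1) X f = 𝔼 z ∈ range X, 𝔼 z' ∈ range X,
      Box k X (fun x => f (x + (z : ZMod N)) * conj (f (x + (z' : ZMod N)))) := by
  rw [bx_Box_eq, bx_expect_boxset_succ]
  refine expect_congr rfl fun z _ => ?_
  have h : ∀ a ∈ boxset k X, 𝔼 b ∈ boxset (k + 1) X,
      (𝔼 x : ZMod N, cube f (Fin.cons z a) b x).re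
      = 𝔼 z' ∈ range X, 𝔼 b ∈ boxset k X, (𝔼 x : ZMod N,
        cube (fun x => f (x + (z : ZMod N)) * conj (f (x + (z' : ZMod N)))) a b x).re := by
    intro a _
    rw [bx_expect_boxset_succ]
    refine expect_congr rfl fun z' _ => expect_congr rfl fun b _ => ?_
    simp only [bx_cube_cons]
  rw [expect_congr rfl h, expect_comm]
  refine expect_congr rfl fun z' _ => ?_
  rw [bx_Box_eq]

/-- averaging one direction with its own length -/
theorem bx_Box_avg (k X Y : ℕ) (f : ZMod N → ℂ) :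
    𝔼 z ∈ range Y, 𝔼 z' ∈ range Y,
      Box k X (fun x => f (x + (z : ZMod N)) * conj (f (x + (z' : ZMod N))))
    = 𝔼 a ∈ boxset k X, 𝔼 b ∈ boxset k X, 𝔼 x, ‖A Y (cube f a b) x‖ ^ 2 := by
  simp only [bx_Box_eq]
  have h1 : ∀ z ∈ range Y, 𝔼 z' ∈ range Y, 𝔼 a ∈ boxset k X, 𝔼 b ∈ boxset k X,
      (𝔼 x : ZMod N,
        cube (fun x => f (x + (z : ZMod N)) * conj (f (x + (z' : ZMod N)))) a b x).re
      = 𝔼 a ∈ boxset k X, 𝔼 b ∈ boxset k X, 𝔼 z' ∈ range Y, (𝔼 x : ZMod N,
        cube (fun x => f (x + (z : ZMod N)) * conj (f (x + (z' : ZMod N)))) a b x).re := by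
    intro z _
    rw [expect_comm]
    exact expect_congr rfl fun a _ => expect_comm _ _ _
  rw [expect_congr rfl h1, expect_comm]
  refine expect_congr rfl fun a _ => ?_
  rw [expect_comm]
  refine expect_congr rfl fun b _ => ?_
  have h2 : ((𝔼 x, ‖A Y (cube f a b) x‖ ^ 2 : ℝ) : ℂ)
      = 𝔼 z ∈ range Y, 𝔼 z' ∈ range Y, 𝔼 x : ZMod N,
        cube (fun x => f (x + (z : ZMod N)) * conj (f (x + (z' : ZMod N)))) a b x := by
    rw [Complex.ofReal_expect]
    have h3 : ∀ x ∈ (univ : Finset (ZMod N)), ((‖A Y (cube f a b) x‖ ^ 2 : ℝ) : ℂ)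
        = 𝔼 z ∈ range Y, 𝔼 z' ∈ range Y,
          cube (fun x => f (x + (z : ZMod N)) * conj (f (x + (z' : ZMod N)))) a b x := by
      intro x _
      unfold A
      rw [bx_norm_sq_expect]
      refine expect_congr rfl fun z _ => expect_congr rfl fun z' _ => ?_
      rw [cube_mul k (fun x => f (x + (z : ZMod N))) (fun x => conj (f (x + (z' : ZMod N)))),
        cube_shift, cube_conj k (fun x => f (x + (z' : ZMod N))), cube_shift]
    rw [expect_congr rfl h3, expect_comm]
    exact expect_congr rfl fun z _ => expect_comm _ _ _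
  have h4 := congrArg Complex.re h2
  simp only [Complex.ofReal_re, Complex.re_expect] at h4
  simp only [Complex.re_expect]
  exact h4.symm

theorem bx_Box_succ' (k X : ℕ) (f : ZMod N → ℂ) :
    Box (k + 1) X f
      = 𝔼 a ∈ boxset k X, 𝔼 b ∈ boxset k X, 𝔼 x, ‖A X (cube f a b) x‖ ^ 2 := by
  rw [Box_succ, bx_Box_avg]

/-- more directions -/
theorem Box_succ_ge (k X : ℕ) (hX : 1 ≤ X) {f : ZMod N → ℂ} (hf : ∀ x, ‖f x‖ ≤ 1) :
    Box k X f ^ 2 ≤ Box (k + 1) X f := by
  have hne : (range X).Nonempty := by simpa using (by omega : X ≠ 0)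
  have h1 : ∀ g : ZMod N → ℂ, (𝔼 x, g x) = 𝔼 x, A X g x := by
    intro g
    unfold A
    rw [expect_comm]
    rw [expect_congr rfl fun (a : ℕ) _ => bx_expect_shift g (a : ZMod N), expect_const hne]
  rw [bx_Box_succ', bx_Box_eq]
  refine (bx_sq_expect_le _ _).trans ?_
  refine expect_le_expect fun a _ => ?_
  refine (bx_sq_expect_le _ _).trans ?_
  refine expect_le_expect fun b _ => ?_
  rw [h1]
  refine le_trans ?_ (bx_norm_sq_expect_le _ _)
  exact sq_le_sq.mpr (by
    rw [abs_of_nonneg (norm_nonneg _)]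
    exact Complex.abs_re_le_norm _)

/-- shorten all directions -/
theorem Box_shorten_all (k X X' : ℕ) (hX' : 1 ≤ X') (hX : X' ≤ X) {f : ZMod N → ℂ}
    (hf : ∀ x, ‖f x‖ ≤ 1) : Box k X f ≤ Box k X' f + k * (4 * X' / X) := by
  induction k generalizing f with
  | zero => simp [bx_Box_zero]
  | succ k ih =>
    have h1 : Box (k + 1) X f
        ≤ (𝔼 z ∈ range X, 𝔼 z' ∈ range X,
          Box k X' (fun x => f (x + (z : ZMod N)) * conj (f (x + (z' : ZMod N)))))
          + k * (4 * X' / X) := by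
      have hne : (range X).Nonempty := by simpa using (by omega : X ≠ 0)
      rw [Box_succ]
      have hc : 𝔼 _z ∈ range X, 𝔼 _z' ∈ range X, ((k : ℝ) * (4 * X' / X)) = k * (4 * X' / X) := by
        rw [expect_const hne, expect_const hne]
      rw [← hc, ← expect_add_distrib]
      refine expect_le_expect fun z _ => ?_
      rw [← expect_add_distrib]
      refine expect_le_expect fun z' _ => ?_
      refine ih fun x => ?_
      rw [norm_mul, RCLike.norm_conj]
      exact mul_le_one₀ (hf _) (norm_nonneg _) (hf _)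
    refine h1.trans ?_
    rw [bx_Box_avg, bx_Box_succ' k X' f]
    have h2 : 𝔼 a ∈ boxset k X', 𝔼 b ∈ boxset k X', 𝔼 x, ‖A X (cube f a b) x‖ ^ 2
        ≤ (𝔼 a ∈ boxset k X', 𝔼 b ∈ boxset k X', 𝔼 x, ‖A X' (cube f a b) x‖ ^ 2)
          + 4 * X' / X := by
      have hne : (boxset k X').Nonempty := by
        refine ⟨fun _ => 0, ?_⟩
        simp only [boxset, Fintype.mem_piFinset, mem_range]
        intro _
        omega
      have hc : 𝔼 _a ∈ boxset k X', 𝔼 _b ∈ boxset k X', (4 * (X' : ℝ) / X) = 4 * X' / X := by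
        rw [expect_const hne, expect_const hne]
      rw [← hc, ← expect_add_distrib]
      refine expect_le_expect fun a _ => ?_
      rw [← expect_add_distrib]
      refine expect_le_expect fun b _ => ?_
      exact bx_shorten (norm_cube_le k hf a b) X X' hX' (hX'.trans hX)
    push_cast
    (clear * - h2; linarith)

/-- `U2` is the two-dimensional box norm -/
theorem bx_U2_eq (X : ℕ) (v : ZMod N → ℂ) : U2 X v = Box 2 X v := by
  rw [Box_succ]
  simp only [Box_succ 0, bx_Box_zero]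
  unfold U2
  simp only [Complex.re_expect]
  rw [expect_comm]
  refine expect_congr rfl fun z _ => ?_
  rw [expect_comm]
  refine expect_congr rfl fun z' _ => ?_
  rw [expect_comm]
  refine expect_congr rfl fun y _ => ?_
  rw [expect_comm]
  refine expect_congr rfl fun y' _ => ?_
  refine expect_congr rfl fun x _ => ?_
  congr 1
  rw [map_mul, Complex.conj_conj, add_right_comm x (z : ZMod N) (y : ZMod N),
    add_right_comm x (z : ZMod N) (y' : ZMod N), add_right_comm x (z' : ZMod N) (y : ZMod N),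
    add_right_comm x (z' : ZMod N) (y' : ZMod N)]
  ring

/-- split off two directions -/
theorem Box_add_two (k X : ℕ) (f : ZMod N → ℂ) :
    Box (k + 2) X f = 𝔼 a ∈ boxset k X, 𝔼 b ∈ boxset k X, U2 X (cube f a b) := by
  induction k generalizing f with
  | zero =>
    rw [bx_boxset_zero]
    simp only [expect_singleton]
    have : cube f (Fin.elim0 : Fin 0 → ℕ) (Fin.elim0 : Fin 0 → ℕ) = f :=
      funext fun x => bx_cube_zero f _ _ x
    rw [this, bx_U2_eq]
  | succ k ih =>
    rw [show k + 1 + 2 = (k + 2) + 1 by ring, Box_succ]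
    simp only [ih]
    rw [bx_expect_boxset_succ]
    refine expect_congr rfl fun z _ => ?_
    rw [expect_comm]
    refine expect_congr rfl fun a _ => ?_
    rw [bx_expect_boxset_succ]
    refine expect_congr rfl fun z' _ => expect_congr rfl fun b _ => ?_
    congr 1
    funext x
    rw [bx_cube_cons]

theorem bx_shorten_aux (k X X' : ℕ) (hX' : 1 ≤ X') (hX : X' ≤ X) {f : ZMod N → ℂ}
    (hf : ∀ x, ‖f x‖ ≤ 1) :
    Box (k + 2) X f ≤ (𝔼 a ∈ boxset k X', 𝔼 b ∈ boxset k X', U2 X (cube f a b))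
      + k * (4 * X' / X) := by
  have hneX : (range X).Nonempty := by simpa using (by omega : X ≠ 0)
  have hne : ∀ k, (boxset k X').Nonempty := by
    intro k
    refine ⟨fun _ => 0, ?_⟩
    simp only [boxset, Fintype.mem_piFinset, mem_range]
    intro _
    omega
  have hne2 : (boxset 2 X).Nonempty := by
    refine ⟨fun _ => 0, ?_⟩
    simp only [boxset, Fintype.mem_piFinset, mem_range]
    intro _
    omega
  have hone : ∀ v : ZMod N → ℂ, (∀ x, ‖v x‖ ≤ 1) →
      𝔼 z ∈ range X, 𝔼 z' ∈ range X,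
        Box 2 X (fun x => v (x + (z : ZMod N)) * conj (v (x + (z' : ZMod N))))
      ≤ (𝔼 z ∈ range X', 𝔼 z' ∈ range X',
        Box 2 X (fun x => v (x + (z : ZMod N)) * conj (v (x + (z' : ZMod N))))) + 4 * X' / X := by
    intro v hv
    rw [bx_Box_avg, bx_Box_avg]
    have hc : 𝔼 _a ∈ boxset 2 X, 𝔼 _b ∈ boxset 2 X, (4 * (X' : ℝ) / X) = 4 * X' / X := by
      rw [expect_const hne2, expect_const hne2]
    rw [← hc, ← expect_add_distrib]
    refine expect_le_expect fun a _ => ?_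
    rw [← expect_add_distrib]
    refine expect_le_expect fun b _ => ?_
    exact bx_shorten (norm_cube_le 2 hv a b) X X' hX' (hX'.trans hX)
  induction k generalizing f with
  | zero =>
    rw [Box_add_two]
    simp [bx_boxset_zero]
  | succ k ih =>
    have h1 : Box (k + 1 + 2) X f
        ≤ (𝔼 z ∈ range X, 𝔼 z' ∈ range X, 𝔼 a ∈ boxset k X', 𝔼 b ∈ boxset k X',
          U2 X (cube (fun x => f (x + (z : ZMod N)) * conj (f (x + (z' : ZMod N)))) a b))
          + k * (4 * X' / X) := by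
      rw [show k + 1 + 2 = (k + 2) + 1 by ring, Box_succ]
      have hc : 𝔼 _z ∈ range X, 𝔼 _z' ∈ range X, ((k : ℝ) * (4 * X' / X)) = k * (4 * X' / X) := by
        rw [expect_const hneX, expect_const hneX]
      rw [← hc, ← expect_add_distrib]
      refine expect_le_expect fun z _ => ?_
      rw [← expect_add_distrib]
      refine expect_le_expect fun z' _ => ?_
      refine ih fun x => ?_
      rw [norm_mul, RCLike.norm_conj]
      exact mul_le_one₀ (hf _) (norm_nonneg _) (hf _)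
    exact by
      have hcube : ∀ (z z' : ℕ) (a b : Fin k → ℕ),
          cube (fun x => f (x + (z : ZMod N)) * conj (f (x + (z' : ZMod N)))) a b
          = fun x => cube f a b (x + (z : ZMod N)) * conj (cube f a b (x + (z' : ZMod N))) := by
        intro z z' a b
        funext x
        rw [cube_mul k (fun x => f (x + (z : ZMod N))) (fun x => conj (f (x + (z' : ZMod N)))),
          cube_shift, cube_conj k (fun x => f (x + (z' : ZMod N))), cube_shift]
      have hsw : ∀ Y : ℕ, 𝔼 z ∈ range Y, 𝔼 z' ∈ range Y, 𝔼 a ∈ boxset k X', 𝔼 b ∈ boxset k X',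
            U2 X (cube (fun x => f (x + (z : ZMod N)) * conj (f (x + (z' : ZMod N)))) a b)
          = 𝔼 a ∈ boxset k X', 𝔼 b ∈ boxset k X', 𝔼 z ∈ range Y, 𝔼 z' ∈ range Y,
            Box 2 X (fun x => cube f a b (x + (z : ZMod N))
              * conj (cube f a b (x + (z' : ZMod N)))) := by
        intro Y
        simp only [hcube, bx_U2_eq]
        have h1 : ∀ z ∈ range Y, 𝔼 z' ∈ range Y, 𝔼 a ∈ boxset k X', 𝔼 b ∈ boxset k X',
            Box 2 X (fun x => cube f a b (x + (z : ZMod N))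
              * conj (cube f a b (x + (z' : ZMod N))))
            = 𝔼 a ∈ boxset k X', 𝔼 b ∈ boxset k X', 𝔼 z' ∈ range Y,
            Box 2 X (fun x => cube f a b (x + (z : ZMod N))
              * conj (cube f a b (x + (z' : ZMod N)))) := by
          intro z _
          rw [expect_comm]
          exact expect_congr rfl fun a _ => expect_comm _ _ _
        rw [expect_congr rfl h1, expect_comm]
        exact expect_congr rfl fun a _ => expect_comm _ _ _
      have h2 : 𝔼 a ∈ boxset (k + 1) X', 𝔼 b ∈ boxset (k + 1) X', U2 X (cube f a b)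
          = 𝔼 z ∈ range X', 𝔼 z' ∈ range X', 𝔼 a ∈ boxset k X', 𝔼 b ∈ boxset k X',
            U2 X (cube (fun x => f (x + (z : ZMod N)) * conj (f (x + (z' : ZMod N)))) a b) := by
        rw [bx_expect_boxset_succ]
        refine expect_congr rfl fun z _ => ?_
        rw [expect_comm (range X') (boxset k X')]
        refine expect_congr rfl fun a _ => ?_
        rw [bx_expect_boxset_succ]
        refine expect_congr rfl fun z' _ => expect_congr rfl fun b _ => ?_
        congr 1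
        funext x
        rw [bx_cube_cons]
      rw [hsw] at h1 h2
      have h3 : 𝔼 a ∈ boxset k X', 𝔼 b ∈ boxset k X', 𝔼 z ∈ range X, 𝔼 z' ∈ range X,
            Box 2 X (fun x => cube f a b (x + (z : ZMod N))
              * conj (cube f a b (x + (z' : ZMod N))))
          ≤ (𝔼 a ∈ boxset k X', 𝔼 b ∈ boxset k X', 𝔼 z ∈ range X', 𝔼 z' ∈ range X',
            Box 2 X (fun x => cube f a b (x + (z : ZMod N))
              * conj (cube f a b (x + (z' : ZMod N))))) + 4 * X' / X := by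
        have hc : 𝔼 _a ∈ boxset k X', 𝔼 _b ∈ boxset k X', (4 * (X' : ℝ) / X) = 4 * X' / X := by
          rw [expect_const (hne k), expect_const (hne k)]
        rw [← hc, ← expect_add_distrib]
        refine expect_le_expect fun a _ => ?_
        rw [← expect_add_distrib]
        refine expect_le_expect fun b _ => ?_
        exact hone _ (norm_cube_le k hf a b)
      rw [h2]
      push_cast
      (clear * - h1 h3; linarith)

/-- shorten the first `k` directions -/
theorem Box_shorten (k X X' : ℕ) (hX' : 1 ≤ X') (hX : X' ≤ X) {f : ZMod N → ℂ}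
    (hf : ∀ x, ‖f x‖ ≤ 1) :
    Box (k + 2) X f ≤ 𝔼 a ∈ boxset k X', 𝔼 b ∈ boxset k X', U2 X (cube f a b)
      + k * (4 * X' / X) :=
  bx_shorten_aux k X X' hX' hX hf

end BoxNorm

end

end Pool.Agent.Helper57.NX

end

section

set_option autoImplicit false

open Finset

open scoped BigOperators ComplexConjugate

namespace Pool.Agent.Helper57.NX

noncomputable section

theorem h36_norm_e (t : ℝ) : ‖e t‖ = 1 := by
  unfold e
  rw [show (2 * (Real.pi : ℂ) * t * Complex.I) = ((2 * Real.pi * t : ℝ) : ℂ) * Complex.I by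
    push_cast; ring]
  exact Complex.norm_exp_ofReal_mul_I _

theorem h36_e_add (s t : ℝ) : e (s + t) = e s * e t := by
  unfold e
  rw [← Complex.exp_add]
  congr 1
  push_cast
  ring

theorem h36_e_int (n : ℤ) : e n = 1 := by
  unfold e
  rw [Complex.exp_eq_one_iff]
  exact ⟨n, by push_cast; ring⟩

theorem h36_conj_e (t : ℝ) : conj (e t) = e (-t) := by
  unfold e
  rw [← Complex.exp_conj]
  congr 1
  rw [map_mul, map_mul, map_mul, Complex.conj_I, Complex.conj_ofReal, Complex.conj_ofReal,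
    Complex.conj_ofNat]
  push_cast
  ring

theorem h36_e_nat_mul (t : ℝ) (n : ℕ) : e (n * t) = e t ^ n := by
  unfold e
  rw [← Complex.exp_nat_mul]
  congr 1
  push_cast
  ring

theorem h36_e_eq_one {t : ℝ} (h : e t = 1) : ∃ n : ℤ, t = n := by
  unfold e at h
  rw [Complex.exp_eq_one_iff] at h
  obtain ⟨n, hn⟩ := h
  refine ⟨n, ?_⟩
  have h2 : (2 * (Real.pi : ℂ) * Complex.I) ≠ 0 := by
    simp [Real.pi_ne_zero]
  have h3 : (t : ℂ) * (2 * (Real.pi : ℂ) * Complex.I) = (n : ℂ) * (2 * (Real.pi : ℂ) * Complex.I) := by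
    rw [← hn]; ring
  have h4 := mul_right_cancel₀ h2 h3
  exact_mod_cast h4

/-- orthogonality of the characters -/
theorem h36_orth (M : ℕ) (hM : 0 < M) (a b : ℕ) (ha : a < M) (hb : b < M) :
    ∑ s ∈ range M, e ((s : ℝ) * a / M) * e (-((s : ℝ) * b / M)) =
      if a = b then (M : ℂ) else 0 := by
  have hMR : (M : ℝ) ≠ 0 := by exact_mod_cast hM.ne'
  have h1 : ∀ s ∈ range M, e ((s : ℝ) * a / M) * e (-((s : ℝ) * b / M)) =
      e (((a : ℝ) - b) / M) ^ s := by
    intro s _
    rw [← h36_e_add, ← h36_e_nat_mul]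
    congr 1
    ring
  rw [sum_congr rfl h1]
  split_ifs with hab
  · subst hab
    have : e (((a : ℝ) - a) / M) = 1 := by
      have := h36_e_int 0
      simpa using this
    rw [this]
    simp
  · have hne : e (((a : ℝ) - b) / M) ≠ 1 := by
      intro h
      obtain ⟨n, hn⟩ := h36_e_eq_one h
      rw [div_eq_iff hMR] at hn
      have hn' : (a : ℤ) - b = n * M := by exact_mod_cast hn
      have h3 : |(a : ℤ) - b| < M := by
        rw [abs_lt]; constructor <;> omega
      rw [hn', abs_mul] at h3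
      have h4 : |(M : ℤ)| = M := abs_of_nonneg (by positivity)
      rw [h4] at h3
      have h5 : |n| < 1 := by
        by_contra h6
        push Not at h6
        (clear * - h3 h6 hM; nlinarith [show (0 : ℤ) < M by exact_mod_cast hM])
      have h6 : n = 0 := Int.abs_lt_one_iff.mp h5
      rw [h6] at hn'
      apply hab
      omega
    rw [geom_sum_eq hne]
    have : e (((a : ℝ) - b) / M) ^ M = 1 := by
      rw [← h36_e_nat_mul, mul_div_cancel₀ _ hMR]
      have := h36_e_int ((a : ℤ) - b)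
      rw [← this]
      congr 1
      push_cast
      ring
    rw [this]
    simp

theorem h36_parseval (M X : ℕ) (hM : 0 < M) (hX : X ≤ M) (p : ℕ → ℂ) :
    ∑ s ∈ range M, ‖∑ z ∈ range X, p z * e ((s : ℝ) * z / M)‖ ^ 2 =
      M * ∑ z ∈ range X, ‖p z‖ ^ 2 := by
  have key : ((∑ s ∈ range M, ‖∑ z ∈ range X, p z * e ((s : ℝ) * z / M)‖ ^ 2 : ℝ) : ℂ) =
      ((M * ∑ z ∈ range X, ‖p z‖ ^ 2 : ℝ) : ℂ) := by
    push_cast
    have h1 : ∀ s ∈ range M, ((‖∑ z ∈ range X, p z * e ((s : ℝ) * z / M)‖ : ℂ)) ^ 2 =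
        ∑ z ∈ range X, ∑ z' ∈ range X, p z * conj (p z') *
          (e ((s : ℝ) * z / M) * e (-((s : ℝ) * z' / M))) := by
      intro s _
      rw [← Complex.mul_conj', map_sum, Finset.sum_mul_sum]
      refine sum_congr rfl fun z _ => sum_congr rfl fun z' _ => ?_
      rw [map_mul, h36_conj_e]
      ring
    rw [sum_congr rfl h1, sum_comm, mul_sum]
    refine sum_congr rfl fun z hz => ?_
    rw [sum_comm]
    have h2 : ∀ z' ∈ range X, ∑ s ∈ range M, p z * conj (p z') *
          (e ((s : ℝ) * z / M) * e (-((s : ℝ) * z' / M))) =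
        if z = z' then p z * conj (p z') * M else 0 := by
      intro z' hz'
      rw [← mul_sum, h36_orth M hM z z' (lt_of_lt_of_le (mem_range.mp hz) hX)
        (lt_of_lt_of_le (mem_range.mp hz') hX)]
      split_ifs <;> simp
    rw [sum_congr rfl h2, sum_ite_eq, if_pos hz, Complex.mul_conj']
    ring
  exact_mod_cast key

theorem h36_inversion (M : ℕ) (hM : 0 < M) (w : ℕ → ℂ) (t : ℕ) (ht : t < M) :
    (M : ℂ) * w t = ∑ s ∈ range M,
      (∑ u ∈ range M, w u * e (-((s : ℝ) * u / M))) * e ((s : ℝ) * t / M) := by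
  have h1 : ∀ s ∈ range M,
      (∑ u ∈ range M, w u * e (-((s : ℝ) * u / M))) * e ((s : ℝ) * t / M) =
      ∑ u ∈ range M, w u * (e ((s : ℝ) * t / M) * e (-((s : ℝ) * u / M))) := by
    intro s _
    rw [sum_mul]
    exact sum_congr rfl fun u _ => by ring
  rw [sum_congr rfl h1, sum_comm]
  have h2 : ∀ u ∈ range M, ∑ s ∈ range M, w u * (e ((s : ℝ) * t / M) * e (-((s : ℝ) * u / M))) =
      if t = u then w u * M else 0 := by
    intro u hu
    rw [← mul_sum, h36_orth M hM t u ht (mem_range.mp hu)]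
    split_ifs <;> simp
  rw [sum_congr rfl h2, sum_ite_eq, if_pos (mem_range.mpr ht)]
  ring

/-- a bilinear estimate -/
theorem h36_bilin (X : ℕ) (hX : 1 ≤ X) (w p q : ℕ → ℂ) (hp : ∀ z, ‖p z‖ ≤ 1)
    (hq : ∀ z, ‖q z‖ ≤ 1) (V : ℝ)
    (hV : ∀ s ∈ range (2 * X),
      ‖∑ u ∈ range (2 * X), w u * e (-((s : ℝ) * u / (2 * X : ℕ)))‖ ≤ V) :
    ‖∑ z ∈ range X, ∑ y ∈ range X, w (z + y) * p z * q y‖ ≤ X * V := by
  have hM : 0 < 2 * X := by omega
  have hXM : X ≤ 2 * X := by omega
  set M := 2 * X with hMdef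
  have hV0 : 0 ≤ V := le_trans (norm_nonneg _) (hV 0 (mem_range.mpr hM))
  have h1 : (M : ℂ) * ∑ z ∈ range X, ∑ y ∈ range X, w (z + y) * p z * q y =
      ∑ s ∈ range M, (∑ u ∈ range M, w u * e (-((s : ℝ) * u / M))) *
        ((∑ z ∈ range X, p z * e ((s : ℝ) * z / M)) *
          (∑ y ∈ range X, q y * e ((s : ℝ) * y / M))) := by
    have h2 : ∀ z ∈ range X, ∀ y ∈ range X, (M : ℂ) * (w (z + y) * p z * q y) =
        ∑ s ∈ range M, (∑ u ∈ range M, w u * e (-((s : ℝ) * u / M))) *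
          ((p z * e ((s : ℝ) * z / M)) * (q y * e ((s : ℝ) * y / M))) := by
      intro z hz y hy
      have hlt : z + y < M := by
        have := mem_range.mp hz
        have := mem_range.mp hy
        omega
      have h3 := h36_inversion M hM w (z + y) hlt
      calc (M : ℂ) * (w (z + y) * p z * q y) = ((M : ℂ) * w (z + y)) * (p z * q y) := by ring
        _ = _ := by
          rw [h3, sum_mul]
          refine sum_congr rfl fun s _ => ?_
          have h4 : e ((s : ℝ) * ((z + y : ℕ) : ℝ) / M) =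
              e ((s : ℝ) * z / M) * e ((s : ℝ) * y / M) := by
            rw [← h36_e_add]
            congr 1
            push_cast
            ring
          rw [h4]
          ring
    rw [mul_sum]
    calc ∑ z ∈ range X, (M : ℂ) * ∑ y ∈ range X, w (z + y) * p z * q y
        = ∑ z ∈ range X, ∑ y ∈ range X, ∑ s ∈ range M,
            (∑ u ∈ range M, w u * e (-((s : ℝ) * u / M))) *
            ((p z * e ((s : ℝ) * z / M)) * (q y * e ((s : ℝ) * y / M))) := by
          refine sum_congr rfl fun z hz => ?_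
          rw [mul_sum]
          exact sum_congr rfl fun y hy => h2 z hz y hy
      _ = ∑ s ∈ range M, ∑ z ∈ range X, ∑ y ∈ range X,
            (∑ u ∈ range M, w u * e (-((s : ℝ) * u / M))) *
            ((p z * e ((s : ℝ) * z / M)) * (q y * e ((s : ℝ) * y / M))) := by
          refine Eq.trans (sum_congr rfl fun z _ => sum_comm) ?_
          exact sum_comm
      _ = _ := by
          refine sum_congr rfl fun s _ => ?_
          rw [sum_mul_sum, mul_sum]
          refine sum_congr rfl fun z _ => ?_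
          rw [mul_sum]
  have h5 : ‖(M : ℂ) * ∑ z ∈ range X, ∑ y ∈ range X, w (z + y) * p z * q y‖ ≤
      V * (M * X) := by
    rw [h1]
    have hP := h36_parseval M X hM hXM p
    have hQ := h36_parseval M X hM hXM q
    have hP2 : ∑ z ∈ range X, ‖p z‖ ^ 2 ≤ X := by
      calc ∑ z ∈ range X, ‖p z‖ ^ 2 ≤ ∑ z ∈ range X, (1 : ℝ) :=
            sum_le_sum fun z _ => by
              have := hp z
              have := norm_nonneg (p z)
              nlinarith
        _ = X := by simp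
    have hQ2 : ∑ z ∈ range X, ‖q z‖ ^ 2 ≤ X := by
      calc ∑ z ∈ range X, ‖q z‖ ^ 2 ≤ ∑ z ∈ range X, (1 : ℝ) :=
            sum_le_sum fun z _ => by
              have := hq z
              have := norm_nonneg (q z)
              nlinarith
        _ = X := by simp
    calc _ ≤ ∑ s ∈ range M, ‖(∑ u ∈ range M, w u * e (-((s : ℝ) * u / M))) *
        ((∑ z ∈ range X, p z * e ((s : ℝ) * z / M)) *
          (∑ y ∈ range X, q y * e ((s : ℝ) * y / M)))‖ := norm_sum_le _ _
      _ ≤ ∑ s ∈ range M, V * ((‖∑ z ∈ range X, p z * e ((s : ℝ) * z / M)‖ ^ 2 +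
          ‖∑ y ∈ range X, q y * e ((s : ℝ) * y / M)‖ ^ 2) / 2) := by
          refine sum_le_sum fun s hs => ?_
          rw [norm_mul, norm_mul]
          refine mul_le_mul (hV s hs) ?_ (by (clear * -; positivity)) hV0
          (clear * -; nlinarith [sq_nonneg (‖∑ z ∈ range X, p z * e ((s : ℝ) * z / M)‖ -
            ‖∑ y ∈ range X, q y * e ((s : ℝ) * y / M)‖)])
      _ = V * ((M * ∑ z ∈ range X, ‖p z‖ ^ 2 + M * ∑ z ∈ range X, ‖q z‖ ^ 2) / 2) := by
          rw [← mul_sum, ← sum_div, sum_add_distrib, hP, hQ]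
      _ ≤ V * (M * X) := by
          refine mul_le_mul_of_nonneg_left ?_ hV0
          have hM0 : (0 : ℝ) ≤ M := by positivity
          (clear * - hP2 hM0 hQ2; nlinarith [mul_le_mul_of_nonneg_left hP2 hM0, mul_le_mul_of_nonneg_left hQ2 hM0])
  rw [norm_mul] at h5
  have hMn : ‖(M : ℂ)‖ = M := by simp
  rw [hMn] at h5
  have hMR : (0 : ℝ) < M := by exact_mod_cast hM
  have h6 : (M : ℝ) * ‖∑ z ∈ range X, ∑ y ∈ range X, w (z + y) * p z * q y‖ ≤
      M * (X * V) := by (clear * - h5; linarith [h5, show V * ((M : ℝ) * X) = M * (X * V) by ring])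
  exact le_of_mul_le_mul_left h6 hMR

/-- the block correlation with the frequency `s / (2X)` -/
def h36_M {N : ℕ} (X : ℕ) (v : ZMod N → ℂ) (x : ZMod N) (s : ℕ) : ℝ :=
  ‖𝔼 t ∈ range X, v (x + (t : ZMod N)) * e (-((s : ℝ) * t / (2 * X : ℕ)))‖

theorem h36_M_le_one {N : ℕ} (X : ℕ) (hX : 1 ≤ X) (v : ZMod N → ℂ) (hv : ∀ x, ‖v x‖ ≤ 1)
    (x : ZMod N) (s : ℕ) : h36_M X v x s ≤ 1 := by
  unfold h36_M
  refine le_trans (h36_norm_expect_le _ _) ?_
  refine expect_le ⟨0, mem_range.mpr (by omega)⟩ fun t _ => ?_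
  rw [norm_mul, h36_norm_e, mul_one]
  exact hv _

theorem h36_loc_le {N : ℕ} (X : ℕ) (hX : 1 ≤ X) (v : ZMod N → ℂ) (hv : ∀ x, ‖v x‖ ≤ 1)
    (x : ZMod N) (A B : ℝ) (hA : ∀ s ∈ range (2 * X), h36_M X v x s ≤ A)
    (hB : ∀ s ∈ range (2 * X), h36_M X v (x + (X : ZMod N)) s ≤ B) :
    ‖h36_loc X v x‖ ≤ A + B := by
  have hne : (range X).Nonempty := ⟨0, mem_range.mpr (by omega)⟩
  have hXR : (0 : ℝ) < X := by exact_mod_cast hX
  have hXC : (X : ℂ) ≠ 0 := by exact_mod_cast (show X ≠ 0 by omega)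
  -- Fourier coefficients
  have hV : ∀ s ∈ range (2 * X),
      ‖∑ u ∈ range (2 * X), v (x + ((u : ℕ) : ZMod N)) * e (-((s : ℝ) * u / (2 * X : ℕ)))‖ ≤
        X * (A + B) := by
    intro s hs
    have h1 := hA s hs
    have h2 := hB s hs
    unfold h36_M at h1 h2
    rw [expect_eq_sum_div_card, norm_div, card_range, div_le_iff₀ (by simp; omega)] at h1 h2
    simp only [Complex.norm_natCast] at h1 h2
    have e1 : ∑ u ∈ range (2 * X), v (x + ((u : ℕ) : ZMod N)) *
          e (-((s : ℝ) * u / (2 * X : ℕ))) =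
        ∑ u ∈ range X, v (x + ((u : ℕ) : ZMod N)) * e (-((s : ℝ) * u / (2 * X : ℕ))) +
        e (-((s : ℝ) * X / (2 * X : ℕ))) * ∑ u ∈ range X,
          v (x + (X : ZMod N) + ((u : ℕ) : ZMod N)) * e (-((s : ℝ) * u / (2 * X : ℕ))) := by
      rw [show range (2 * X) = range (X + X) by rw [two_mul], sum_range_add, mul_sum]
      congr 1
      refine sum_congr rfl fun u _ => ?_
      have h3 : e (-((s : ℝ) * ((X + u : ℕ) : ℝ) / (2 * X : ℕ))) =
          e (-((s : ℝ) * X / (2 * X : ℕ))) * e (-((s : ℝ) * u / (2 * X : ℕ))) := by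
        rw [← h36_e_add]
        congr 1
        push_cast
        ring
      rw [h3, Nat.cast_add (R := ZMod N), ← add_assoc]
      ring
    rw [e1]
    refine le_trans (norm_add_le _ _) ?_
    rw [norm_mul, h36_norm_e, one_mul]
    linarith [h1, h2, show (X : ℝ) * (A + B) = A * X + B * X by ring]
  have hb : ∀ z' ∈ range X, ∀ y' ∈ range X,
      ‖𝔼 z ∈ range X, 𝔼 y ∈ range X,
        v (x + (z : ZMod N) + (y : ZMod N)) * conj (v (x + (z : ZMod N) + (y' : ZMod N))) *
    conj (v (x + (z' : ZMod N) + (y : ZMod N))) * v (x + (z' : ZMod N) + (y' : ZMod N))‖ ≤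
      A + B := by
    intro z' _ y' _
    have h1 := h36_bilin X hX (fun u => v (x + ((u : ℕ) : ZMod N)))
      (fun z => conj (v (x + (z : ZMod N) + (y' : ZMod N))))
      (fun y => conj (v (x + (z' : ZMod N) + (y : ZMod N))))
      (fun z => by rw [RCLike.norm_conj]; exact hv _)
      (fun z => by rw [RCLike.norm_conj]; exact hv _) (X * (A + B)) hV
    have h2 : 𝔼 z ∈ range X, 𝔼 y ∈ range X,
        v (x + (z : ZMod N) + (y : ZMod N)) * conj (v (x + (z : ZMod N) + (y' : ZMod N))) *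
    conj (v (x + (z' : ZMod N) + (y : ZMod N))) * v (x + (z' : ZMod N) + (y' : ZMod N)) =
      (∑ z ∈ range X, ∑ y ∈ range X, v (x + ((z + y : ℕ) : ZMod N)) *
        conj (v (x + (z : ZMod N) + (y' : ZMod N))) *
        conj (v (x + (z' : ZMod N) + (y : ZMod N)))) / ((X : ℂ) * X) *
        v (x + (z' : ZMod N) + (y' : ZMod N)) := by
      rw [expect_eq_sum_div_card, card_range]
      rw [← div_div, sum_div, sum_div, sum_div, sum_mul]
      refine sum_congr rfl fun z _ => ?_
      rw [expect_eq_sum_div_card, card_range, sum_div, sum_div, sum_div, sum_div, sum_mul]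
      refine sum_congr rfl fun y _ => ?_
      rw [Nat.cast_add (R := ZMod N), ← add_assoc]
      ring
    rw [h2, norm_mul, norm_div]
    have h3 : ‖(X : ℂ) * X‖ = (X : ℝ) * X := by simp
    rw [h3]
    have h4 : ‖∑ z ∈ range X, ∑ y ∈ range X, v (x + ((z + y : ℕ) : ZMod N)) *
        conj (v (x + (z : ZMod N) + (y' : ZMod N))) *
        conj (v (x + (z' : ZMod N) + (y : ZMod N)))‖ / ((X : ℝ) * X) ≤ A + B := by
      rw [div_le_iff₀ (by positivity)]
      (clear * - h1; linarith [h1, show (A + B) * ((X : ℝ) * X) = X * (X * (A + B)) by ring])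
    have h5 := hv (x + (z' : ZMod N) + (y' : ZMod N))
    have h6 : 0 ≤ A + B := le_trans (by (clear * - hX; positivity)) h4
    calc _ ≤ (A + B) * 1 := mul_le_mul h4 h5 (norm_nonneg _) h6
      _ = A + B := mul_one _
  have hc : h36_loc X v x = 𝔼 z' ∈ range X, 𝔼 y' ∈ range X, 𝔼 z ∈ range X, 𝔼 y ∈ range X,
        v (x + (z : ZMod N) + (y : ZMod N)) * conj (v (x + (z : ZMod N) + (y' : ZMod N))) *
    conj (v (x + (z' : ZMod N) + (y : ZMod N))) * v (x + (z' : ZMod N) + (y' : ZMod N)) := by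
    unfold h36_loc
    rw [expect_comm]
    refine expect_congr rfl fun z' _ => ?_
    refine Eq.trans (expect_congr rfl fun z _ => expect_comm _ _ _) ?_
    exact expect_comm _ _ _
  rw [hc]
  refine le_trans (h36_norm_expect_le _ _) ?_
  refine expect_le hne fun z' hz' => ?_
  refine le_trans (h36_norm_expect_le _ _) ?_
  exact expect_le hne fun y' hy' => hb z' hz' y' hy'

theorem u2_block {N : ℕ} [NeZero N] {κ : Type} (Λ : Finset κ) (hΛ : Λ.Nonempty)
    (v : κ → ZMod N → ℂ) (hv : ∀ i x, ‖v i x‖ ≤ 1) (X : ℕ) (hX : 1 ≤ X) (hXN : X ≤ N) :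
    ∃ (r : ZMod N) (θ : κ → ℕ → ℝ), (∀ i j, |θ i j| ≤ 1 / 2) ∧
      𝔼 i ∈ Λ, U2 X (v i) ≤
        2 * (𝔼 i ∈ Λ, 𝔼 j ∈ range (N / X),
          ‖𝔼 t ∈ range X, v i (r + ((j * X + t : ℕ) : ZMod N)) * e (-(θ i j * t))‖)
        + 2 * X / N := by
  have hN0 : 0 < N := Nat.pos_of_ne_zero (NeZero.ne N)
  have hK : 1 ≤ N / X := (Nat.one_le_div_iff (by omega)).mpr hXN
  set K := N / X with hKdef
  have hKne : (range K).Nonempty := ⟨0, mem_range.mpr (by omega)⟩
  have hM0 : (range (2 * X)).Nonempty := ⟨0, mem_range.mpr (by omega)⟩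
  -- the function to average
  let g : ZMod N → ℝ := fun x => 𝔼 i ∈ Λ, (h36_loc X (v i) x).re
  have hU : 𝔼 i ∈ Λ, U2 X (v i) = 𝔼 x : ZMod N, g x := by
    have h1 : ∀ i ∈ Λ, U2 X (v i) = 𝔼 x : ZMod N, (h36_loc X (v i) x).re := by
      intro i _
      unfold U2
      exact h36_re_expect _ _
    rw [expect_congr rfl h1, expect_comm]
  have havg : ∃ r : ZMod N, 𝔼 x : ZMod N, g x ≤ 𝔼 j ∈ range K, g (r + ((j * X : ℕ) : ZMod N)) := by
    have h1 : 𝔼 r : ZMod N, 𝔼 j ∈ range K, g (r + ((j * X : ℕ) : ZMod N)) = 𝔼 x : ZMod N, g x := by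
      rw [expect_comm]
      have h2 : ∀ j ∈ range K, 𝔼 r : ZMod N, g (r + ((j * X : ℕ) : ZMod N)) = 𝔼 x : ZMod N, g x := by
        intro j _
        exact Fintype.expect_equiv (Equiv.addRight ((j * X : ℕ) : ZMod N)) _ _ fun r => rfl
      rw [expect_congr rfl h2, expect_const hKne]
    obtain ⟨r, _, hr⟩ := exists_le_of_le_expect (s := (univ : Finset (ZMod N)))
      ⟨0, mem_univ _⟩ (le_of_eq h1.symm)
    exact ⟨r, hr⟩
  exact by
    obtain ⟨r, hr⟩ := havg
    -- maximising frequencies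
    have hmax : ∀ (i : κ) (j : ℕ), ∃ s ∈ range (2 * X), ∀ s' ∈ range (2 * X),
        h36_M X (v i) (r + ((j * X : ℕ) : ZMod N)) s' ≤
          h36_M X (v i) (r + ((j * X : ℕ) : ZMod N)) s := by
      intro i j
      exact exists_max_image _ _ hM0
    choose s hs1 hs2 using hmax
    let Mx : κ → ℕ → ℝ := fun i j => h36_M X (v i) (r + ((j * X : ℕ) : ZMod N)) (s i j)
    let θ : κ → ℕ → ℝ := fun i j =>
      if s i j ≤ X then (s i j : ℝ) / (2 * X : ℕ) else (s i j : ℝ) / (2 * X : ℕ) - 1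
    have hXR : (0 : ℝ) < X := by exact_mod_cast hX
    refine ⟨r, θ, ?_, ?_⟩
    · intro i j
      exact by
        have h1 := mem_range.mp (hs1 i j)
        have h1' : (s i j : ℝ) ≤ 2 * X := by exact_mod_cast h1.le
        have h2X : (0 : ℝ) < ((2 * X : ℕ) : ℝ) := by push_cast; (clear * - hXR; linarith)
        simp only [θ]
        split_ifs with h2
        · have h2' : (s i j : ℝ) ≤ X := by exact_mod_cast h2
          exact by
            rw [abs_of_nonneg (by (clear * - hX; positivity)), div_le_iff₀ h2X]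
            push_cast
            (clear * - h2'; linarith)
        · have h2' : (X : ℝ) ≤ s i j := by exact_mod_cast (not_le.mp h2).le
          exact by
            rw [abs_le]
            constructor
            · rw [neg_le_sub_iff_le_add, ← sub_le_iff_le_add, le_div_iff₀ h2X]
              push_cast
              (clear * - h2'; linarith)
            · have : (s i j : ℝ) / (2 * X : ℕ) ≤ 1 := by
                rw [div_le_one h2X]
                push_cast
                exact h1'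
              (clear * - this; linarith)
    · have hθ : ∀ i j, ‖𝔼 t ∈ range X, v i (r + ((j * X + t : ℕ) : ZMod N)) *
          e (-(θ i j * t))‖ = Mx i j := by
        intro i j
        simp only [Mx, h36_M]
        congr 1
        refine expect_congr rfl fun t _ => ?_
        rw [Nat.cast_add (R := ZMod N), ← add_assoc]
        congr 1
        simp only [θ]
        split_ifs with h2
        · congr 1
          ring
        · rw [show -(((s i j : ℝ) / (2 * X : ℕ) - 1) * t) =
            -((s i j : ℝ) * t / (2 * X : ℕ)) + ((t : ℤ) : ℝ) by push_cast; ring, h36_e_add,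
            h36_e_int, mul_one]
      exact by
        have hloc : ∀ i ∈ Λ, ∀ j, (h36_loc X (v i) (r + ((j * X : ℕ) : ZMod N))).re ≤
            Mx i j + Mx i (j + 1) := by
          intro i _ j
          refine le_trans (Complex.re_le_norm _) ?_
          refine h36_loc_le X hX (v i) (hv i) _ _ _ (hs2 i j) ?_
          intro s' hs'
          have h1 := hs2 i (j + 1) s' hs'
          have h2 : r + ((j * X : ℕ) : ZMod N) + (X : ZMod N) =
              r + (((j + 1) * X : ℕ) : ZMod N) := by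
            push_cast
            ring
          rw [h2]
          exact h1
        have hsum : ∀ i ∈ Λ, 𝔼 j ∈ range K, (h36_loc X (v i) (r + ((j * X : ℕ) : ZMod N))).re ≤
            2 * (𝔼 j ∈ range K, Mx i j) + 2 * X / N := by
          intro i hi
          have hKR : (0 : ℝ) < K := by exact_mod_cast hK
          have h1 : ∑ j ∈ range K, (h36_loc X (v i) (r + ((j * X : ℕ) : ZMod N))).re ≤
              2 * (∑ j ∈ range K, Mx i j) + 1 := by
            have h2 : ∑ j ∈ range K, (Mx i j + Mx i (j + 1)) =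
                2 * (∑ j ∈ range K, Mx i j) + (Mx i K - Mx i 0) := by
              have h3 := sum_range_sub (fun j => Mx i j) K
              rw [sum_sub_distrib] at h3
              rw [sum_add_distrib]
              (clear * - h3; linarith)
            have h4 : Mx i K ≤ 1 := h36_M_le_one X hX (v i) (hv i) _ _
            have h5 : 0 ≤ Mx i 0 := norm_nonneg _
            have h6 := sum_le_sum (s := range K) fun j _ => hloc i hi j
            (clear * - h2 h4 h5 h6; linarith)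
          rw [expect_eq_sum_div_card, expect_eq_sum_div_card, card_range]
          have h7 : 1 / (K : ℝ) ≤ 2 * X / N := by
            rw [div_le_div_iff₀ hKR (by exact_mod_cast hN0)]
            have h8 : N < X * (K + 1) := by
              have h9 := Nat.lt_mul_div_succ N (show 0 < X by omega)
              rw [← hKdef] at h9
              exact h9
            have h10 : N ≤ 2 * X * K := by (clear * - h8 hK; nlinarith)
            have h11 : (N : ℝ) ≤ 2 * X * K := by exact_mod_cast h10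
            (clear * - h11; linarith)
          calc (∑ j ∈ range K, (h36_loc X (v i) (r + ((j * X : ℕ) : ZMod N))).re) / (K : ℝ)
              ≤ (2 * (∑ j ∈ range K, Mx i j) + 1) / K := div_le_div_of_nonneg_right h1 hKR.le
            _ = 2 * ((∑ j ∈ range K, Mx i j) / K) + 1 / K := by ring
            _ ≤ _ := by (clear * - h7; linarith)
        calc 𝔼 i ∈ Λ, U2 X (v i) = 𝔼 x : ZMod N, g x := hU
          _ ≤ 𝔼 j ∈ range K, g (r + ((j * X : ℕ) : ZMod N)) := hr
          _ = 𝔼 i ∈ Λ, 𝔼 j ∈ range K, (h36_loc X (v i) (r + ((j * X : ℕ) : ZMod N))).re := by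
              simp only [g]
              exact expect_comm _ _ _
          _ ≤ 𝔼 i ∈ Λ, (2 * (𝔼 j ∈ range K, Mx i j) + 2 * X / N) := expect_le_expect hsum
          _ = 2 * (𝔼 i ∈ Λ, 𝔼 j ∈ range K, Mx i j) + 2 * X / N := by
              rw [expect_add_distrib, expect_const hΛ, mul_expect]
          _ = _ := by
              congr 2
              refine expect_congr rfl fun i _ => expect_congr rfl fun j _ => ?_
              rw [hθ]

end

end Pool.Agent.Helper57.NX

end

section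

set_option autoImplicit false

open Finset

open scoped BigOperators ComplexConjugate

namespace Pool.Agent.Helper57.NX

noncomputable section

theorem h72_box_two {N : ℕ} [NeZero N] (X : ℕ) (u : ZMod N → ℂ) : Box 2 X u = U2 X u := by
  have h := Box_add_two 0 X u
  rw [Nat.zero_add] at h
  rw [h]
  have hb : boxset 0 X = {fun i => i.elim0} := by
    ext a
    simp only [boxset, Fintype.mem_piFinset, mem_singleton]
    constructor
    · intro _; ext i; exact i.elim0
    · intro _ i; exact i.elim0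
  rw [hb]
  simp only [expect_singleton]
  congr 1
  funext x
  unfold cube
  rw [Fintype.prod_unique]
  unfold cjj
  rw [if_pos (by simp)]
  unfold tot
  simp

end

end Pool.Agent.Helper57.NX

end

section

set_option autoImplicit false

open Finset

open scoped BigOperators ComplexConjugate

namespace Pool.Agent.Helper57.NX

/-- the right-hand side is a nonnegative real number -/
theorem gcs_pos {k : ℕ} (hk : 1 ≤ k) {α : Type} [DecidableEq α] (As : Fin k → Finset α)
    (F : (Fin k → α) → ℂ) : ∃ r : ℝ, 0 ≤ r ∧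
      𝔼 a ∈ Fintype.piFinset As, 𝔼 b ∈ Fintype.piFinset As,
        ∏ ω : Fin k → Bool, cjj ω (F (sel ω a b)) = r := by
  obtain ⟨k, rfl⟩ : ∃ k', k = k' + 1 := ⟨k - 1, by omega⟩
  set P := Fintype.piFinset (fun i : Fin k => As i.succ) with hP
  set U : (Fin k → α) → (Fin k → α) → ℂ := fun a b =>
    𝔼 x ∈ As 0, ∏ ω : Fin k → Bool, cjj ω (F (Fin.cons x (sel ω a b))) with hU
  refine ⟨𝔼 a ∈ P, 𝔼 b ∈ P, ‖U a b‖ ^ 2, Finset.expect_nonneg fun a _ =>
    Finset.expect_nonneg fun b _ => sq_nonneg _, ?_⟩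
  show gcsR As F = _
  rw [gcsR_succ]
  have e1 : ∀ x y, gcsR (fun i : Fin k => As i.succ)
      (fun a => F (Fin.cons x a) * conj (F (Fin.cons y a))) =
      𝔼 a ∈ P, 𝔼 b ∈ P, (∏ ω : Fin k → Bool, cjj ω (F (Fin.cons x (sel ω a b)))) *
        conj (∏ ω : Fin k → Bool, cjj ω (F (Fin.cons y (sel ω a b)))) := by
    intro x y
    unfold gcsR
    refine Finset.expect_congr rfl fun a _ => Finset.expect_congr rfl fun b _ => ?_
    rw [map_prod, ← Finset.prod_mul_distrib]
    refine Finset.prod_congr rfl fun ω _ => ?_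
    rw [cjj_mul, cjj_conj]
  simp_rw [e1]
  have e2 : (((𝔼 a ∈ P, 𝔼 b ∈ P, ‖U a b‖ ^ 2 : ℝ)) : ℂ) =
      𝔼 a ∈ P, 𝔼 b ∈ P, U a b * conj (U a b) := by
    rw [show ∀ r : ℝ, ((r : ℝ) : ℂ) = algebraMap ℝ ℂ r from fun _ => rfl, map_expect]
    refine Finset.expect_congr rfl fun a _ => ?_
    rw [map_expect]
    refine Finset.expect_congr rfl fun b _ => ?_
    rw [Complex.mul_conj, Complex.normSq_eq_norm_sq]
    rfl
  rw [e2]
  have e3 : ∀ a b, U a b * conj (U a b) = 𝔼 x ∈ As 0, 𝔼 y ∈ As 0,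
      ((∏ ω : Fin k → Bool, cjj ω (F (Fin.cons x (sel ω a b)))) *
        conj (∏ ω : Fin k → Bool, cjj ω (F (Fin.cons y (sel ω a b))))) := by
    intro a b
    rw [hU, gcs_conj_expect, Finset.expect_mul_expect]
  simp_rw [e3]
  -- reorder
  have e4 : ∀ g : α → α → (Fin k → α) → (Fin k → α) → ℂ,
      𝔼 x ∈ As 0, 𝔼 y ∈ As 0, 𝔼 a ∈ P, 𝔼 b ∈ P, g x y a b =
      𝔼 a ∈ P, 𝔼 b ∈ P, 𝔼 x ∈ As 0, 𝔼 y ∈ As 0, g x y a b := by
    intro g
    have h1 : ∀ x, 𝔼 y ∈ As 0, 𝔼 a ∈ P, 𝔼 b ∈ P, g x y a b =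
        𝔼 a ∈ P, 𝔼 b ∈ P, 𝔼 y ∈ As 0, g x y a b := by
      intro x
      rw [Finset.expect_comm]
      exact Finset.expect_congr rfl fun a _ => Finset.expect_comm _ _ _
    simp_rw [h1]
    rw [Finset.expect_comm]
    exact Finset.expect_congr rfl fun a _ => Finset.expect_comm _ _ _
  exact e4 _

end Pool.Agent.Helper57.NX

end

section

set_option autoImplicit false

open Finset

open scoped BigOperators ComplexConjugate

namespace Pool.Agent.Helper57.NX

noncomputable section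

section dla_steps

variable {N : ℕ} [NeZero N] {k : ℕ}

/-- the local average on block `j` -/
def dla_S (X : ℕ) (r : ZMod N) (v : ZMod N → ℂ) (θ : ℕ → ℝ) (j : ℕ) : ℂ :=
  𝔼 t ∈ range X, v (r + ((j * X + t : ℕ) : ZMod N)) * e (-(θ j * t))

/-- the good blocks -/
def dla_good (X : ℕ) (r : ZMod N) (v : ZMod N → ℂ) (θ : ℕ → ℝ) (β : ℝ) (j : ℕ) : Prop :=
  j < N / X ∧ β / 16 ≤ ‖dla_S X r v θ j‖

open Classical in
/-- the frequency, on the good blocks -/
def dla_th (X : ℕ) (r : ZMod N) (v : ZMod N → ℂ) (θ : ℕ → ℝ) (β : ℝ) (j : ℕ) : ℝ :=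
  if dla_good X r v θ β j then θ j else 0

open Classical in
/-- the coefficient, on the good blocks -/
def dla_cc (X : ℕ) (r : ZMod N) (v : ZMod N → ℂ) (θ : ℕ → ℝ) (β : ℝ) (j : ℕ) : ℂ :=
  if dla_good X r v θ β j then e (θ j * ((j * X : ℕ) : ℝ)) *
    (conj (dla_S X r v θ j) / (‖dla_S X r v θ j‖ : ℂ)) else 0

theorem dla_cc_norm (X : ℕ) (r : ZMod N) (v : ZMod N → ℂ) (θ : ℕ → ℝ) (β : ℝ) (j : ℕ) :
    ‖dla_cc X r v θ β j‖ ≤ 1 := by
  unfold dla_cc
  split_ifs
  · rw [norm_mul, norm_e, one_mul, norm_div, RCLike.norm_conj, Complex.norm_real, norm_norm]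
    exact div_self_le_one _
  · simp

theorem dla_cc_ne {X : ℕ} {r : ZMod N} {v : ZMod N → ℂ} {θ : ℕ → ℝ} {β : ℝ} {j : ℕ}
    (h : dla_cc X r v θ β j ≠ 0) : dla_good X r v θ β j := by
  by_contra hcon
  apply h
  unfold dla_cc
  rw [if_neg hcon]

theorem dla_cc_out (X : ℕ) (r : ZMod N) (v : ZMod N → ℂ) (θ : ℕ → ℝ) (β : ℝ) (j : ℕ)
    (hj : N / X ≤ j) : dla_cc X r v θ β j = 0 := by
  by_contra hcon
  exact absurd (dla_cc_ne hcon).1 (not_lt.2 hj)

theorem dla_S_good {X : ℕ} {r : ZMod N} {v : ZMod N → ℂ} {θ : ℕ → ℝ} {β : ℝ} {j : ℕ}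
    (h : dla_good X r v θ β j) : dla_S X r v (dla_th X r v θ β) j = dla_S X r v θ j := by
  unfold dla_S
  have : dla_th X r v θ β j = θ j := by
    unfold dla_th
    rw [if_pos h]
  rw [this]

theorem dla_start {u : ZMod N → ℂ} (hu : ∀ x, ‖u x‖ ≤ 1) {β : ℝ} (X X' : ℕ) (hX' : 1 ≤ X')
    (hX'X : X' ≤ X) (hXN : X ≤ N) (hBox : β ≤ Box (k + 2) X u)
    (h1 : (k : ℝ) * (4 * X' / X) ≤ β / 2) (h2 : 2 * (X : ℝ) / N ≤ β / 4) :
    ∃ (r : ZMod N) (θ : (Fin k → ℕ) × (Fin k → ℕ) → ℕ → ℝ), (∀ i j, |θ i j| ≤ 1 / 2) ∧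
      β / 8 ≤ 𝔼 i ∈ boxset k X' ×ˢ boxset k X', 𝔼 j ∈ range (N / X),
        ‖dla_S X r (cube u i.1 i.2) (θ i) j‖ := by
  have hne : (boxset k X').Nonempty := by
    unfold boxset
    rw [Fintype.piFinset_nonempty]
    exact fun _ => ⟨0, mem_range.2 (by omega)⟩
  obtain ⟨r, θ, hθ, hb⟩ := u2_block (boxset k X' ×ˢ boxset k X') (hne.product hne)
    (fun i => cube u i.1 i.2) (fun i x => norm_cube_le k hu i.1 i.2 x) X (by omega) hXN
  refine ⟨r, θ, hθ, ?_⟩
  have h3 := Box_shorten k X X' hX' hX'X hu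
  rw [← expect_product (boxset k X') (boxset k X') (fun i => U2 X (cube u i.1 i.2))] at h3
  unfold dla_S
  linarith

open Classical in
theorem dla_good_avg {α : Type} (Λ : Finset α) (X : ℕ) (r : ZMod N)
    (v : α → ZMod N → ℂ) (θ : α → ℕ → ℝ) (β : ℝ) (hβ : 0 < β)
    (h : β / 8 ≤ 𝔼 i ∈ Λ, 𝔼 j ∈ range (N / X), ‖dla_S X r (v i) (θ i) j‖) :
    β / 16 ≤ 𝔼 i ∈ Λ, 𝔼 j ∈ range (N / X),
      (if dla_good X r (v i) (θ i) β j then ‖dla_S X r (v i) (θ i) j‖ else 0) := by
  have h1 : 𝔼 i ∈ Λ, 𝔼 j ∈ range (N / X), ‖dla_S X r (v i) (θ i) j‖ ≤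
      𝔼 i ∈ Λ, (𝔼 j ∈ range (N / X),
      (if dla_good X r (v i) (θ i) β j then ‖dla_S X r (v i) (θ i) j‖ else 0)) + β / 16 := by
    have h2 : 𝔼 i ∈ Λ, 𝔼 j ∈ range (N / X), ‖dla_S X r (v i) (θ i) j‖ ≤
      𝔼 i ∈ Λ, ((𝔼 j ∈ range (N / X),
      (if dla_good X r (v i) (θ i) β j then ‖dla_S X r (v i) (θ i) j‖ else 0)) +
        𝔼 _j ∈ range (N / X), β / 16) := by
      refine expect_le_expect (fun i _ => ?_)
      rw [← expect_add_distrib]
      refine expect_le_expect (fun j hj => ?_)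
      by_cases hg : dla_good X r (v i) (θ i) β j
      · rw [if_pos hg]
        (clear * - hβ; linarith)
      · rw [if_neg hg, zero_add]
        unfold dla_good at hg
        push Not at hg
        exact (hg (mem_range.1 hj)).le
    refine h2.trans ?_
    rw [expect_add_distrib]
    refine add_le_add le_rfl ?_
    exact dla_expect_le_const _ _ _ (by (clear * - hβ; positivity)) (fun i _ =>
      dla_expect_le_const _ _ _ (by positivity) (fun j _ => le_rfl))
  linarith

end dla_steps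

end

end Pool.Agent.Helper57.NX

end

section

set_option autoImplicit false

set_option linter.unusedSectionVars false

set_option linter.unusedVariables false

open Finset

open scoped BigOperators ComplexConjugate

namespace Pool.Agent.Helper57.NX

noncomputable section

section point

variable {N : ℕ} [NeZero N]

/-- the local quantity -/
def dbG (k X' : ℕ) (u : ZMod N → ℂ) (x : ZMod N) : ℝ :=
  𝔼 z ∈ range X', 𝔼 z' ∈ range X', (𝔼 a ∈ boxset k X', 𝔼 a'' ∈ boxset k X',
    cube (fun x => u (x + (z : ZMod N)) * conj (u (x + (z' : ZMod N)))) a a'' x).re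

theorem dbG_nonneg (k : ℕ) (hk : 1 ≤ k) (X' : ℕ) (u : ZMod N → ℂ) (x : ZMod N) :
    0 ≤ dbG k X' u x := by
  refine expect_nonneg fun z _ => expect_nonneg fun z' _ => ?_
  obtain ⟨r, hr, h⟩ := gcs_pos hk (fun _ : Fin k => range X')
    (fun a => (fun x => u (x + (z : ZMod N)) * conj (u (x + (z' : ZMod N))))
      (x + (tot a : ZMod N)))
  have h' : 𝔼 a ∈ boxset k X', 𝔼 a'' ∈ boxset k X',
    cube (fun x => u (x + (z : ZMod N)) * conj (u (x + (z' : ZMod N)))) a a'' x = r := h
  rw [h', Complex.ofReal_re]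
  exact hr

theorem dbG_expect (k X' : ℕ) (u : ZMod N → ℂ) :
    𝔼 x, dbG k X' u x = Box (k + 1) X' u := by
  rw [Box_succ]
  unfold dbG
  rw [expect_comm]
  refine expect_congr rfl fun z _ => ?_
  rw [expect_comm]
  refine expect_congr rfl fun z' _ => ?_
  rw [← gcs_re_expect]
  unfold Box
  congr 1
  rw [expect_comm]
  refine expect_congr rfl fun a _ => ?_
  rw [expect_comm]

end point

end

end Pool.Agent.Helper57.NX

end

section

set_option autoImplicit false

set_option linter.unusedVariables false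

open Finset

open scoped BigOperators ComplexConjugate

namespace Pool.Agent.Helper67.NX2

open Pool.Agent.Helper57.NX

noncomputable section

section AqBasic

variable {N : ℕ} [NeZero N]

/-- averaging one direction with its own length -/
theorem fb_Boxq_avg (st k X Y : ℕ) (f : ZMod N → ℂ) :
    𝔼 z ∈ range Y, 𝔼 z' ∈ range Y,
      Boxq st k X (fun x => f (x + ((st * z : ℕ) : ZMod N)) *
        conj (f (x + ((st * z' : ℕ) : ZMod N))))
    = 𝔼 a ∈ boxset k X, 𝔼 b ∈ boxset k X, 𝔼 x, ‖Aq st Y (cubeq st f a b) x‖ ^ 2 := by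
  simp only [fb_Boxq_eq]
  have h1 : ∀ z ∈ range Y, 𝔼 z' ∈ range Y, 𝔼 a ∈ boxset k X, 𝔼 b ∈ boxset k X,
      (𝔼 x : ZMod N,
        cubeq st (fun x => f (x + ((st * z : ℕ) : ZMod N)) *
          conj (f (x + ((st * z' : ℕ) : ZMod N)))) a b x).re
      = 𝔼 a ∈ boxset k X, 𝔼 b ∈ boxset k X, 𝔼 z' ∈ range Y, (𝔼 x : ZMod N,
        cubeq st (fun x => f (x + ((st * z : ℕ) : ZMod N)) *
          conj (f (x + ((st * z' : ℕ) : ZMod N)))) a b x).re := by
    intro z _
    rw [expect_comm]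
    exact expect_congr rfl fun a _ => expect_comm _ _ _
  rw [expect_congr rfl h1, expect_comm]
  refine expect_congr rfl fun a _ => ?_
  rw [expect_comm]
  refine expect_congr rfl fun b _ => ?_
  have h2 : ((𝔼 x, ‖Aq st Y (cubeq st f a b) x‖ ^ 2 : ℝ) : ℂ)
      = 𝔼 z ∈ range Y, 𝔼 z' ∈ range Y, 𝔼 x : ZMod N,
        cubeq st (fun x => f (x + ((st * z : ℕ) : ZMod N)) *
          conj (f (x + ((st * z' : ℕ) : ZMod N)))) a b x := by
    rw [Complex.ofReal_expect]
    have h3 : ∀ x ∈ (univ : Finset (ZMod N)), ((‖Aq st Y (cubeq st f a b) x‖ ^ 2 : ℝ) : ℂ)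
        = 𝔼 z ∈ range Y, 𝔼 z' ∈ range Y,
          cubeq st (fun x => f (x + ((st * z : ℕ) : ZMod N)) *
            conj (f (x + ((st * z' : ℕ) : ZMod N)))) a b x := by
      intro x _
      unfold Aq
      rw [fb_norm_sq_expect]
      refine expect_congr rfl fun z _ => expect_congr rfl fun z' _ => ?_
      rw [fb_cubeq_eq, fb_cubeq_eq, cube_mul k (fun x => f (x + ((st * z : ℕ) : ZMod N)))
        (fun x => conj (f (x + ((st * z' : ℕ) : ZMod N)))),
        cube_shift, cube_conj k (fun x => f (x + ((st * z' : ℕ) : ZMod N))), cube_shift]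
    rw [expect_congr rfl h3, expect_comm]
    exact expect_congr rfl fun z _ => expect_comm _ _ _
  have h4 := congrArg Complex.re h2
  simp only [Complex.ofReal_re, Complex.re_expect] at h4
  simp only [Complex.re_expect]
  exact h4.symm

/-- more directions -/
theorem Boxq_succ_ge (st k X : ℕ) (hX : 1 ≤ X) {f : ZMod N → ℂ} (hf : ∀ x, ‖f x‖ ≤ 1) :
    Boxq st k X f ^ 2 ≤ Boxq st (k + 1) X f := by
  have hne : (range X).Nonempty := by simpa using (by omega : X ≠ 0)
  have h1 : ∀ g : ZMod N → ℂ, (𝔼 x, g x) = 𝔼 x, Aq st X g x := by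
    intro g
    unfold Aq
    rw [expect_comm]
    rw [expect_congr rfl fun (a : ℕ) _ => fb_expect_shift g ((st * a : ℕ) : ZMod N),
      expect_const hne]
  rw [fb_Boxq_succ, fb_Boxq_avg, fb_Boxq_eq]
  refine (fb_sq_expect_le _ _).trans ?_
  refine expect_le_expect fun a _ => ?_
  refine (fb_sq_expect_le _ _).trans ?_
  refine expect_le_expect fun b _ => ?_
  rw [h1]
  refine le_trans ?_ (fb_norm_sq_expect_le _ _)
  exact sq_le_sq.mpr (by
    rw [abs_of_nonneg (norm_nonneg _)]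
    exact Complex.abs_re_le_norm _)

end AqBasic

end

end Pool.Agent.Helper67.NX2

end

section

set_option autoImplicit false

open Finset

open scoped BigOperators ComplexConjugate

namespace Pool.Agent.Helper67.NX2

open Pool.Agent.Helper57.NX

noncomputable section

theorem la_cell {m N : ℕ} [NeZero N] (S : Sys (m + 1)) (c : Fin (m + 1) → ℝ) (η : ℝ)
    (hη : 0 < η) (p Q q X q0 J Bd r0 u' A : ℕ) [NeZero p] (hX : 1 ≤ X) (hq0 : 1 ≤ q0)
    (hp : p.Prime) (hN : N = Q * p) (hQ : 1 ≤ Q) (hq : 1 ≤ q) (hqp : q < p)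
    (hLN : ((X * q0 : ℕ) : ℝ) ≤ η / 4 * p) (τ : ℕ → ℕ)
    (hτ : ∀ j ∈ Ico u' (u' + J), S.a c (Fin.last m) (q * j + r0) = ((Q * (A + q * τ j) : ℕ) : ℤ) ∧
      τ j ≤ Bd)
    (hBd : (Bd : ℝ) ≤ η / 8 * ((X * q0 : ℕ) : ℝ))
    (f0 : ZMod N → ℂ) (f : Fin m → ZMod N → ℂ) (hf0 : ∀ x, ‖f0 x‖ ≤ 1) (hf : ∀ i x, ‖f i x‖ ≤ 1)
    (r : ZMod p) (cc : ℕ → ℂ) (φ θ : ℕ → ℝ) (hcc : ∀ j, ‖cc j‖ ≤ 1)
    (h : η / 2 ≤ ‖𝔼 j ∈ Ico u' (u' + J), 𝔼 x : ZMod N, f0 x *
      ∏ i, (Fin.snoc (α := fun _ => ZMod N → ℂ) f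
        (blk Q fun y : ZMod p => bphase X r cc φ (y * (q : ZMod p)⁻¹)) : Fin (m + 1) → ZMod N → ℂ) i
        (x + (S.a c i (q * j + r0) : ZMod N))‖) :
    ∃ κ : ℕ, (κ + 1) * (X * q0) ≤ p ∧
      η / 8 ≤ ‖laE2 S c f0 f X (X * q0) Q q κ
        ((Q * ((q : ZMod p) * (r + ((κ * (X * q0) : ℕ) : ZMod p)) - (A : ZMod p)).val : ℕ) : ZMod N)
        cc φ (θ κ) r0 u' J τ‖ := by
  set L := X * q0 with hL
  have hL1 : 1 ≤ L := Nat.mul_pos hX hq0
  have hL0 : (0 : ℝ) < L := by exact_mod_cast hL1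
  set b0 : ZMod p → ℂ := bphase X r cc φ with hb0
  have hbn : ∀ x, ‖b0 x‖ ≤ 1 := by
    intro x
    rw [hb0]
    unfold bphase
    rw [norm_mul, norm_e, mul_one]
    exact hcc _
  set g : ZMod N → ℂ := blk Q fun y : ZMod p => b0 (y * (q : ZMod p)⁻¹) with hg
  exact by
    have hgn : ∀ x, ‖g x‖ ≤ 1 := fun x => hbn _
    set F : ℕ → ZMod N → ℂ := fun j x => f0 x *
      ((∏ i : Fin m, f i (x + (S.a c i.castSucc (q * j + r0) : ZMod N))) *
      g (x + (S.a c (Fin.last m) (q * j + r0) : ZMod N))) with hF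
    have hFn : ∀ k x, ‖F k x‖ ≤ 1 := by
      intro k x
      simp only [hF]
      rw [norm_mul, norm_mul, norm_prod]
      have h1 : ∏ i : Fin m, ‖f i (x + (S.a c i.castSucc (q * k + r0) : ZMod N))‖ ≤ 1 :=
        prod_le_one (fun _ _ => norm_nonneg _) fun i _ => hf i _
      have h2 : (∏ i : Fin m, ‖f i (x + (S.a c i.castSucc (q * k + r0) : ZMod N))‖) *
        ‖g (x + (S.a c (Fin.last m) (q * k + r0) : ZMod N))‖ ≤ 1 :=
        mul_le_one₀ h1 (norm_nonneg _) (hgn _)
      exact mul_le_one₀ (hf0 _) (by (clear * -; positivity)) h2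
    set pt : ℕ → ZMod N := fun v =>
      ((Q * ((q : ZMod p) * (r + (v : ZMod p)) - (A : ZMod p)).val : ℕ) : ZMod N) with hpt
    have hform : (𝔼 j ∈ Ico u' (u' + J), 𝔼 x : ZMod N, f0 x *
        ∏ i, (Fin.snoc (α := fun _ => ZMod N → ℂ) f g : Fin (m + 1) → ZMod N → ℂ) i
          (x + (S.a c i (q * j + r0) : ZMod N))) =
        𝔼 v ∈ range p, 𝔼 j ∈ Ico u' (u' + J), 𝔼 e' ∈ range Q, F j (pt v + (e' : ZMod N)) := by
      rw [expect_comm (range p)]
      refine expect_congr rfl fun j _ => ?_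
      rw [← la_expect hp hN hq hqp r (A : ZMod p) (F j)]
      refine expect_congr rfl fun x _ => ?_
      simp only [hF]
      rw [Fin.prod_univ_castSucc]
      simp only [Fin.snoc_castSucc, Fin.snoc_last]
    rw [hform] at h
    obtain ⟨κ, hκ, h3⟩ := lpl_cut
      (fun v => 𝔼 j ∈ Ico u' (u' + J), 𝔼 e' ∈ range Q, F j (pt v + (e' : ZMod N)))
      (fun k => norm_expect_le_of5 _ _ zero_le_one fun j _ =>
        norm_expect_le_of5 _ _ zero_le_one fun x _ => hFn _ _) p L (η / 2) (by (clear * - hη; positivity)) hL1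
      (by (clear * - hLN; linarith)) h
    refine ⟨κ, hκ, ?_⟩
    set ϑ := θ κ with hϑ
    exact by
      rw [expect_comm] at h3
      have hz : ((Q * ((q : ZMod p) * (r + ((κ * L : ℕ) : ZMod p)) - (A : ZMod p)).val : ℕ) : ZMod N) =
          pt (κ * L) := rfl
      rw [hz]
      set z : ZMod N := pt (κ * L) with hzdef
      have hptw : ∀ w e' : ℕ, pt (κ * L + w) + (e' : ZMod N) = z + ((Q * (q * w) + e' : ℕ) : ZMod N) := by
        intro w e'
        have h1 := la_Qval hN ((q : ZMod p) * (r + ((κ * L : ℕ) : ZMod p)) - (A : ZMod p)) (q * w)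
        have h2 : (q : ZMod p) * (r + ((κ * L : ℕ) : ZMod p)) - (A : ZMod p) + ((q * w : ℕ) : ZMod p) =
            (q : ZMod p) * (r + ((κ * L + w : ℕ) : ZMod p)) - (A : ZMod p) := by
          push_cast; ring
        rw [h2] at h1
        have h3 : pt (κ * L + w) = z + ((Q * (q * w) : ℕ) : ZMod N) := h1
        rw [h3, add_assoc, Nat.cast_add (Q * (q * w)) e']
      have hu := la_unit hp hq hqp
      have h5 : ‖(𝔼 j ∈ Ico u' (u' + J), 𝔼 w ∈ range L, 𝔼 e' ∈ range Q,
          F j (pt (κ * L + w) + (e' : ZMod N))) -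
          e (ϑ * ((κ * L : ℕ) : ℝ)) * laE2 S c f0 f X L Q q κ z cc φ ϑ r0 u' J τ‖ ≤ η / 8 := by
        unfold laE2
        rw [mul_expect, ← expect_sub_distrib]
        refine norm_expect_le_of5 _ _ (by positivity) fun j hj => ?_
        rw [mul_expect, ← expect_sub_distrib]
        obtain ⟨hb1, hb2⟩ := hτ j hj
        have hy : ∀ w ∈ range L, ‖(𝔼 e' ∈ range Q, F j (pt (κ * L + w) + (e' : ZMod N))) -
            e (ϑ * ((κ * L : ℕ) : ℝ)) * (𝔼 e' ∈ range Q, f0 (z + ((Q * (q * w) + e' : ℕ) : ZMod N)) *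
            (∏ i : Fin m, f i (z + ((Q * (q * w) + e' : ℕ) : ZMod N) +
              (S.a c i.castSucc (q * j + r0) : ZMod N))) *
            (cpf X L κ cc φ ϑ (w + τ j) * e (ϑ * ((w : ℝ) + (τ j : ℝ)))))‖ ≤
            (if w + τ j < L then (0 : ℝ) else 1) := by
          intro w hwL
          have hwL := mem_range.1 hwL
          rw [mul_expect, ← expect_sub_distrib]
          have h0 : (0 : ℝ) ≤ (if w + τ j < L then (0 : ℝ) else 1) := by split_ifs <;> norm_num
          refine norm_expect_le_of5 _ _ h0 fun e' he' => ?_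
          have he' := mem_range.1 he'
          rw [hptw]
          by_cases hw : w + τ j < L
          · rw [if_pos hw]
            exact by
              apply le_of_eq
              rw [norm_eq_zero, sub_eq_zero]
              simp only [hF]
              have hlt : κ * L + (w + τ j) < p := by
                have : (κ + 1) * L = κ * L + L := by ring
                omega
              have e3 : g (z + ((Q * (q * w) + e' : ℕ) : ZMod N) +
                  (S.a c (Fin.last m) (q * j + r0) : ZMod N)) =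
                  cc ((κ * L + (w + τ j)) / X) *
                    e (φ ((κ * L + (w + τ j)) / X) * ((κ * L + (w + τ j) : ℕ) : ℝ)) := by
                have e4 : z + ((Q * (q * w) + e' : ℕ) : ZMod N) +
                    (S.a c (Fin.last m) (q * j + r0) : ZMod N) =
                    ((Q * (((q : ZMod p) * (r + ((κ * L : ℕ) : ZMod p)) - (A : ZMod p)).val +
                      (q * w + (A + q * τ j))) + e' : ℕ) : ZMod N) := by
                  rw [hb1, hzdef]
                  simp only [hpt]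
                  push_cast; ring
                rw [e4, hg]
                unfold blk
                rw [la_blk_val hN hQ _ _ he', Nat.cast_add, ZMod.natCast_zmod_val]
                have e5 : ((q : ZMod p) * (r + ((κ * L : ℕ) : ZMod p)) - (A : ZMod p) +
                    ((q * w + (A + q * τ j) : ℕ) : ZMod p)) * (q : ZMod p)⁻¹ =
                    r + ((κ * L + (w + τ j) : ℕ) : ZMod p) := by
                  push_cast
                  linear_combination (r + κ * L + w + τ j) * hu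
                beta_reduce
                rw [e5, hb0]
                unfold bphase
                rw [add_sub_cancel_left, ZMod.val_natCast_of_lt hlt]
              rw [e3]
              unfold cpf
              rw [if_pos hw]
              have e4 : e (φ ((κ * L + (w + τ j)) / X) * ((κ * L + (w + τ j) : ℕ) : ℝ)) =
                  e (ϑ * ((κ * L : ℕ) : ℝ)) *
                  (e ((φ ((κ * L + (w + τ j)) / X) - ϑ) * ((κ * L + (w + τ j) : ℕ) : ℝ)) *
                  e (ϑ * ((w : ℝ) + (τ j : ℝ)))) := by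
                rw [← e_add, ← e_add]
                congr 1
                push_cast; ring
              rw [e4]
              ring
          · rw [if_neg hw]
            unfold cpf
            rw [if_neg hw, zero_mul, mul_zero, mul_zero, sub_zero]
            exact hFn _ _
        refine (norm_expect_le5 _ _).trans ?_
        rw [expect_eq_sum_div_card, card_range, div_le_iff₀ hL0]
        refine (sum_le_sum hy).trans ((lpl_count L (τ j)).trans ?_)
        have : (τ j : ℝ) ≤ Bd := by exact_mod_cast hb2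
        (clear * - hBd this; linarith)
      have h6 : ‖e (ϑ * ((κ * L : ℕ) : ℝ)) * laE2 S c f0 f X L Q q κ z cc φ ϑ r0 u' J τ‖ =
          ‖laE2 S c f0 f X L Q q κ z cc φ ϑ r0 u' J τ‖ := by
        rw [norm_mul, norm_e, one_mul]
      rw [← h6]
      have h7 := norm_sub_norm_le (𝔼 j ∈ Ico u' (u' + J), 𝔼 w ∈ range L, 𝔼 e' ∈ range Q,
          F j (pt (κ * L + w) + (e' : ZMod N)))
        (e (ϑ * ((κ * L : ℕ) : ℝ)) * laE2 S c f0 f X L Q q κ z cc φ ϑ r0 u' J τ)
      (clear * - h3 h5 h7; linarith)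

end

end Pool.Agent.Helper67.NX2

end

section

set_option autoImplicit false

open Finset

open scoped BigOperators ComplexConjugate

namespace Pool.Agent.Helper82.NX

open Pool.Agent.Helper57.NX

noncomputable section

section Mono

variable {m : ℕ} {S : Sys m} {c : Fin m → ℝ} {δ : ℝ} {M : ℕ}

theorem inv_pow_mono (h0 : 0 < δ) (h1 : δ ≤ 1) {n n' : ℕ} (h : n ≤ n') : δ⁻¹ ^ n ≤ δ⁻¹ ^ n' :=
  pow_le_pow_right₀ (one_le_inv_iff₀.mpr ⟨h0, h1⟩) h

theorem pow_anti (h0 : 0 < δ) (h1 : δ ≤ 1) {n n' : ℕ} (h : n ≤ n') : δ ^ n' ≤ δ ^ n :=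
  pow_le_pow_of_le_one h0.le h1 h

theorem Typ.mono' {B : ℕ} {Y : ℝ} {p : Phi m} {γ Λ E E' : ℝ} (hD : 0 < S.D)
    (h : Typ S c B Y p γ Λ E) (hE : E ≤ E') : Typ S c B Y p γ Λ E' := by
  intro b hb y h1 h2
  refine (h b hb y h1 h2).trans ?_
  exact div_le_div_of_nonneg_right hE (pow_pos hD _).le

theorem Tp.mono' {n n' B : ℕ} {Y γ lam w : ℝ} {p : Phi m} (h0 : 0 < δ) (h1 : δ ≤ 1)
    (hD : 0 < S.D) (hl : 0 ≤ lam) (hw : 0 ≤ w) (h : Tp S c δ n B Y γ lam w p) (hn : n ≤ n') :
    Tp S c δ n' B Y γ lam w p := by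
  obtain ⟨Λ, h2, h3, h4⟩ := h
  have h5 := mul_le_mul_of_nonneg_right (inv_pow_mono h0 h1 hn) hl
  refine ⟨Λ, (mul_le_mul_of_nonneg_right (pow_anti h0 h1 hn) hl).trans h2, h3.trans h5, ?_⟩
  exact Typ.mono' hD h4 (mul_le_mul_of_nonneg_right h5 hw)

end Mono

theorem Box_pow {N : ℕ} [NeZero N] (k X : ℕ) (hX : 1 ≤ X) {f : ZMod N → ℂ}
    (hf : ∀ x, ‖f x‖ ≤ 1) {δ : ℝ} (h0 : 0 < δ) (h1 : δ ≤ 1) (n j : ℕ) (h : δ ^ n ≤ Box k X f) :
    δ ^ (n * 2 ^ j) ≤ Box (k + j) X f := by
  induction j with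
  | zero => simpa using h
  | succ j ih =>
    refine le_trans ?_ (Box_succ_ge (k + j) X hX hf)
    have h2 := pow_le_pow_left₀ (pow_pos h0 _).le ih 2
    rwa [← pow_mul, mul_assoc, ← pow_succ] at h2

theorem Box_raise {N : ℕ} [NeZero N] (k r X : ℕ) (hk : k ≤ r) (hX : 1 ≤ X) {f : ZMod N → ℂ}
    (hf : ∀ x, ‖f x‖ ≤ 1) {δ : ℝ} (h0 : 0 < δ) (h1 : δ ≤ 1) (n : ℕ) (h : δ ^ n ≤ Box k X f) :
    δ ^ (n * 2 ^ r) ≤ Box r X f := by
  have h2 := Box_pow k X hX hf h0 h1 n (r - k) h
  rw [Nat.add_sub_cancel' hk] at h2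
  refine le_trans (pow_anti h0 h1 ?_) h2
  exact Nat.mul_le_mul_left _ (Nat.pow_le_pow_right (by norm_num) (Nat.sub_le _ _))

end

end Pool.Agent.Helper82.NX

end

section

set_option autoImplicit false

open Finset

open scoped BigOperators ComplexConjugate

namespace Pool.Agent.Helper91.NX2

open Pool.Agent.Helper57.NX

open Pool.Agent.Helper67.NX2

open Pool.Agent.Helper82.NX

noncomputable section

theorem Boxq_pow {N : ℕ} [NeZero N] (st k X : ℕ) (hX : 1 ≤ X) {f : ZMod N → ℂ}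
    (hf : ∀ x, ‖f x‖ ≤ 1) {δ : ℝ} (h0 : 0 < δ) (n j : ℕ) (h : δ ^ n ≤ Boxq st k X f) :
    δ ^ (n * 2 ^ j) ≤ Boxq st (k + j) X f := by
  induction j with
  | zero => simpa using h
  | succ j ih =>
    refine le_trans ?_ (Boxq_succ_ge st (k + j) X hX hf)
    have h2 := pow_le_pow_left₀ (pow_pos h0 _).le ih 2
    rwa [← pow_mul, mul_assoc, ← pow_succ] at h2

theorem Boxq_raise {N : ℕ} [NeZero N] (st k r X : ℕ) (hk : k ≤ r) (hX : 1 ≤ X) {f : ZMod N → ℂ}
    (hf : ∀ x, ‖f x‖ ≤ 1) {δ : ℝ} (h0 : 0 < δ) (h1 : δ ≤ 1) (n : ℕ) (h : δ ^ n ≤ Boxq st k X f) :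
    δ ^ (n * 2 ^ r) ≤ Boxq st r X f := by
  have h2 := Boxq_pow st k X hX hf h0 n (r - k) h
  rw [Nat.add_sub_cancel' hk] at h2
  refine le_trans (pow_anti h0 h1 ?_) h2
  exact Nat.mul_le_mul_left _ (Nat.pow_le_pow_right (by norm_num) (Nat.sub_le _ _))

end

end Pool.Agent.Helper91.NX2

end

section

set_option autoImplicit false

open Finset

open scoped BigOperators ComplexConjugate

namespace Pool.Agent.Helper57.NX

noncomputable section

variable {N : ℕ} [NeZero N]

omit [NeZero N] in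
theorem tv_of_step {f : ZMod N → ℂ} {η B X : ℝ} (h : ∀ x, ‖f (x + 1) - f x‖ ≤ η)
    (hη : η ≤ B / X) (hB : 0 ≤ B) : TV B X f := by
  intro x l
  calc ∑ j ∈ range l, ‖f (x + (j : ZMod N) + 1) - f (x + (j : ZMod N))‖
      ≤ ∑ _j ∈ range l, B / X := Finset.sum_le_sum fun j _ => (h _).trans hη
    _ = B * (l / X) := by
        rw [Finset.sum_const, Finset.card_range, nsmul_eq_mul]
        ring
    _ ≤ B * (l / X + 1) := mul_le_mul_of_nonneg_left (by linarith) hB

end

end Pool.Agent.Helper57.NX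

end

section

set_option autoImplicit false

open Finset

open scoped BigOperators ComplexConjugate

namespace Pool.Agent.Helper67.NX2

open Pool.Agent.Helper57.NX

noncomputable section

theorem h9_raise {p : ℕ} [NeZero p] {κ : Type} [Fintype κ] [Nonempty κ] (k X : ℕ) (hX : 1 ≤ X)
    (u : κ → ZMod p → ℂ) (hu : ∀ i x, ‖u i x‖ ≤ 1) (n : ℕ) (δ : ℝ) (hδ0 : 0 < δ)
    (h : δ ^ n ≤ 𝔼 i, Box k X (u i)) : δ ^ (2 * n) ≤ 𝔼 i, Box (k + 1) X (u i) := by
  have h1 : (𝔼 i, Box k X (u i)) ^ 2 ≤ 𝔼 i, Box k X (u i) ^ 2 := by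
    rw [expect_eq_sum_div_card, expect_eq_sum_div_card, div_pow]
    have hc : (0 : ℝ) < (#(univ : Finset κ) : ℝ) := by
      have := Finset.card_pos.mpr (univ_nonempty (α := κ))
      exact_mod_cast this
    rw [div_le_div_iff₀ (by (clear * -; positivity)) hc]
    have h2 := sq_sum_le_card_mul_sum_sq (s := (univ : Finset κ)) (f := fun i => Box k X (u i))
    (clear * - h2; nlinarith)
  have h2 : 𝔼 i, Box k X (u i) ^ 2 ≤ 𝔼 i, Box (k + 1) X (u i) :=
    expect_le_expect fun i _ => Box_succ_ge k X hX (hu i)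
  have h3 : (δ ^ n) ^ 2 ≤ (𝔼 i, Box k X (u i)) ^ 2 :=
    pow_le_pow_left₀ (pow_pos hδ0 n).le h 2
  rw [mul_comm, pow_mul]
  (clear * - h1 h2 h3; linarith)

end

end Pool.Agent.Helper67.NX2

end

section

set_option autoImplicit false

open Finset

open scoped BigOperators ComplexConjugate

namespace Pool.Agent.Helper67.NX2

open Pool.Agent.Helper57.NX

noncomputable section

section dlm_steps

variable {N : ℕ} [NeZero N] {k : ℕ} {κ ι : Type} [Fintype κ]

theorem dlm_start [Nonempty κ] {u : κ → ZMod N → ℂ} (hu : ∀ i x, ‖u i x‖ ≤ 1) {β : ℝ}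
    (X X' : ℕ) (hX' : 1 ≤ X') (hX'X : X' ≤ X) (hXN : X ≤ N)
    (hBox : β ≤ 𝔼 i, Box (k + 2) X (u i))
    (h1 : (k : ℝ) * (4 * X' / X) ≤ β / 2) (h2 : 2 * (X : ℝ) / N ≤ β / 4) :
    ∃ (r : ZMod N) (θ : κ × ((Fin k → ℕ) × (Fin k → ℕ)) → ℕ → ℝ),
      β / 8 ≤ 𝔼 z ∈ (univ : Finset κ) ×ˢ (boxset k X' ×ˢ boxset k X'), 𝔼 j ∈ range (N / X),
        ‖dla_S X r (cube (u z.1) z.2.1 z.2.2) (θ z) j‖ := by
  have hne : (boxset k X').Nonempty := by
    unfold boxset
    rw [Fintype.piFinset_nonempty]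
    exact fun _ => ⟨0, mem_range.2 (by omega)⟩
  obtain ⟨r, θ, hθ, hb⟩ := u2_block ((univ : Finset κ) ×ˢ (boxset k X' ×ˢ boxset k X'))
    (univ_nonempty.product (hne.product hne))
    (fun z => cube (u z.1) z.2.1 z.2.2) (fun z x => norm_cube_le k (hu z.1) z.2.1 z.2.2 x) X
    (by omega) hXN
  refine ⟨r, θ, ?_⟩
  have h3 : 𝔼 i, Box (k + 2) X (u i) ≤
      (𝔼 z ∈ (univ : Finset κ) ×ˢ (boxset k X' ×ˢ boxset k X'),
        U2 X (cube (u z.1) z.2.1 z.2.2)) + k * (4 * X' / X) := by
    have h4 : 𝔼 i, Box (k + 2) X (u i) ≤ 𝔼 i : κ, ((𝔼 a ∈ boxset k X', 𝔼 b ∈ boxset k X',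
        U2 X (cube (u i) a b)) + k * (4 * X' / X)) :=
      expect_le_expect (fun i _ => Box_shorten k X X' hX' hX'X (hu i))
    rw [expect_add_distrib, expect_const univ_nonempty] at h4
    refine h4.trans (le_of_eq ?_)
    congr 1
    rw [expect_product univ (boxset k X' ×ˢ boxset k X')
      (fun z => U2 X (cube (u z.1) z.2.1 z.2.2))]
    refine expect_congr rfl (fun i _ => ?_)
    rw [expect_product (boxset k X') (boxset k X') (fun z => U2 X (cube (u i) z.1 z.2))]
  unfold dla_S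
  (clear * - hBox h1 h2 hb h3; linarith)

end dlm_steps

end

end Pool.Agent.Helper67.NX2

end

section

set_option autoImplicit false

set_option linter.unusedSectionVars false

set_option linter.unusedVariables false

open Finset

open scoped BigOperators ComplexConjugate

namespace Pool.Agent.Helper67.NX2

open Pool.Agent.Helper57.NX

noncomputable section

section point

variable {N : ℕ} [NeZero N]

/-- the local quantity -/
def dbqG (k X' q Y : ℕ) (u : ZMod N → ℂ) (x : ZMod N) : ℝ :=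
  𝔼 z ∈ range Y, 𝔼 z' ∈ range Y, (𝔼 a ∈ boxset k X', 𝔼 a'' ∈ boxset k X',
    cube (fun x => u (x + ((q * z : ℕ) : ZMod N)) * conj (u (x + ((q * z' : ℕ) : ZMod N))))
      a a'' x).re

theorem dbqG_nonneg (k : ℕ) (hk : 1 ≤ k) (X' q Y : ℕ) (u : ZMod N → ℂ) (x : ZMod N) :
    0 ≤ dbqG k X' q Y u x := by
  refine expect_nonneg fun z _ => expect_nonneg fun z' _ => ?_
  obtain ⟨r, hr, h⟩ := gcs_pos hk (fun _ : Fin k => range X')
    (fun a => (fun x => u (x + ((q * z : ℕ) : ZMod N)) * conj (u (x + ((q * z' : ℕ) : ZMod N))))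
      (x + (tot a : ZMod N)))
  have h' : 𝔼 a ∈ boxset k X', 𝔼 a'' ∈ boxset k X',
    cube (fun x => u (x + ((q * z : ℕ) : ZMod N)) * conj (u (x + ((q * z' : ℕ) : ZMod N))))
      a a'' x = r := h
  rw [h', Complex.ofReal_re]
  exact hr

theorem dbqG_expect (k X' q Y : ℕ) (u : ZMod N → ℂ) :
    𝔼 x, dbqG k X' q Y u x = 𝔼 z ∈ range Y, 𝔼 z' ∈ range Y, Box k X'
      (fun x => u (x + ((q * z : ℕ) : ZMod N)) * conj (u (x + ((q * z' : ℕ) : ZMod N)))) := by
  unfold dbqG
  rw [expect_comm]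
  refine expect_congr rfl fun z _ => ?_
  rw [expect_comm]
  refine expect_congr rfl fun z' _ => ?_
  rw [← gcs_re_expect]
  unfold Box
  congr 1
  rw [expect_comm]
  refine expect_congr rfl fun a _ => ?_
  rw [expect_comm]

end point

end

end Pool.Agent.Helper67.NX2

end
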