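import Pool.Agent.Helper23.MC.L00_a0
import Pool.Agent.Helper23.MC.L00_a1
import Pool.Agent.Helper23.MC.L00_a10
import Pool.Agent.Helper23.MC.L00_a11
import Pool.Agent.Helper23.MC.L00_a12
import Pool.Agent.Helper23.MC.L00_a13
import Pool.Agent.Helper23.MC.L00_a3
import Pool.Agent.Helper23.MC.L00_a5
import Pool.Agent.Helper23.MC.L00_a7
import Pool.Agent.Helper23.MC.L00_a8
import Pool.Agent.Helper23.MC.L00_a9

/-!
Parts of Helper5.NX.Basic, Helper55.NX2.AqBasic, Helper40.NX2.LsMajorOf, Helper23.NX3.Cells, Helper82.NX3.BadNatCore, Helper82.NX3.MainCore, Helper51.NX3.Incr, Helper82.NX3.BadNat, Helper85.NX3.GoodSet, Helper52.NX3.BadRealOf, Helper52.NX3.BadReal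
-/

attribute [local instance 5000]
  Pool.Agent.Helper23.MC.Inst.rCharZero Pool.Agent.Helper23.MC.Inst.rALM
  Pool.Agent.Helper23.MC.Inst.rARM Pool.Agent.Helper23.MC.Inst.rALSM
  Pool.Agent.Helper23.MC.Inst.rARSM Pool.Agent.Helper23.MC.Inst.rARRLE
  Pool.Agent.Helper23.MC.Inst.rALRLE Pool.Agent.Helper23.MC.Inst.rARRLT
  Pool.Agent.Helper23.MC.Inst.rALRLT Pool.Agent.Helper23.MC.Inst.rPMRLT
  Pool.Agent.Helper23.MC.Inst.rMPRLT Pool.Agent.Helper23.MC.Inst.rPMM
  Pool.Agent.Helper23.MC.Inst.rMPM Pool.Agent.Helper23.MC.Inst.rPMSM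
  Pool.Agent.Helper23.MC.Inst.rMPSM Pool.Agent.Helper23.MC.Inst.rEAOL
  Pool.Agent.Helper23.MC.Inst.rIOR Pool.Agent.Helper23.MC.Inst.rISOR
  Pool.Agent.Helper23.MC.Inst.rNZD Pool.Agent.Helper23.MC.Inst.rcCharZero
  Pool.Agent.Helper23.MC.Inst.rcNZD Pool.Agent.Helper23.MC.Inst.zCharZero
  Pool.Agent.Helper23.MC.Inst.zALM Pool.Agent.Helper23.MC.Inst.zARM
  Pool.Agent.Helper23.MC.Inst.zALSM Pool.Agent.Helper23.MC.Inst.zARSM
  Pool.Agent.Helper23.MC.Inst.zIOR Pool.Agent.Helper23.MC.Inst.zISOR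
  Pool.Agent.Helper23.MC.Inst.zNZD Pool.Agent.Helper23.MC.Inst.qCharZero
  Pool.Agent.Helper23.MC.Inst.mR Pool.Agent.Helper23.MC.Inst.mC Pool.Agent.Helper23.MC.Inst.mRC
  Pool.Agent.Helper23.MC.Inst.rPSM Pool.Agent.Helper23.MC.Inst.rCSM
  Pool.Agent.Helper23.MC.Inst.cAdd Pool.Agent.Helper23.MC.Inst.cAddM
  Pool.Agent.Helper23.MC.Inst.cMul Pool.Agent.Helper23.MC.Inst.cMon

namespace Pool.Agent.Helper57.NX
end Pool.Agent.Helper57.NX
namespace Pool.Agent.Helper57.NX3
end Pool.Agent.Helper57.NX3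

section

set_option autoImplicit false

open Finset

open scoped BigOperators ComplexConjugate

namespace Pool.Agent.Helper57.NX

noncomputable section

section Basic

variable {N : ℕ} [NeZero N]

theorem nrm_nonneg (f : ZMod N → ℂ) : 0 ≤ nrm f := expect_nonneg fun _ _ => norm_nonneg _

theorem nrm_A_le (L : ℕ) (f : ZMod N → ℂ) : nrm (A L f) ≤ nrm f := by
  have h1 : nrm (A L f) ≤ 𝔼 x : ZMod N, 𝔼 a ∈ range L, ‖f (x + (a : ZMod N))‖ :=
    expect_le_expect fun x _ => norm_expect_le5 _ _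
  rw [expect_comm] at h1
  refine h1.trans (expect_le_of5 _ _ (nrm_nonneg f) fun a _ => ?_)
  exact (expect_shift (fun x => ‖f x‖) (a : ZMod N)).le

theorem nrm_add_le (f g : ZMod N → ℂ) : nrm (fun x => f x + g x) ≤ nrm f + nrm g := by
  unfold nrm
  rw [← expect_add_distrib]
  exact expect_le_expect fun x _ => norm_add_le _ _

theorem nrm_sub_le (f g : ZMod N → ℂ) : nrm f ≤ nrm g + nrm (fun x => f x - g x) := by
  refine le_trans (le_of_eq ?_) (nrm_add_le g (fun x => f x - g x))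
  congr 1
  funext x
  ring

theorem nrm_A_mono {f : ZMod N → ℂ} (hf : ∀ x, ‖f x‖ ≤ 1) (L L' : ℕ) (hL : 1 ≤ L)
    (hL' : 1 ≤ L') : nrm (A L' f) ≤ nrm (A L f) + 2 * L / L' := by
  refine (nrm_sub_le (A L' f) (A L (A L' f))).trans ?_
  refine add_le_add ?_ ?_
  · rw [A_comm]
    exact nrm_A_le _ _
  · refine expect_le_of5 _ _ (by (clear * - hL hL'; positivity)) fun x _ => ?_
    rw [norm_sub_rev]
    exact A_A_sub hf L L' hL hL' x

end Basic

end

end Pool.Agent.Helper57.NX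

end

section

set_option autoImplicit false

open Finset

open scoped BigOperators ComplexConjugate

namespace Pool.Agent.Helper67.NX2

open Pool.Agent.Helper57.NX

noncomputable section

section AqBasic

variable {N : ℕ} [NeZero N]

/-- an average along `st` of length `q L` is an average of averages along `st q` of length `L` -/
theorem nrm_Aq_mul (st q L : ℕ) (hq : 1 ≤ q) (f : ZMod N → ℂ) :
    nrm (Aq st (q * L) f) ≤ nrm (Aq (st * q) L f) := by
  have h0 : ∀ x, Aq st (q * L) f x =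
      𝔼 b ∈ range q, Aq (st * q) L f (x + ((st * b : ℕ) : ZMod N)) := by
    intro x
    unfold Aq
    rw [expect_range_mul5 q L hq (fun a => f (x + ((st * a : ℕ) : ZMod N)))]
    refine expect_congr rfl fun b _ => expect_congr rfl fun a _ => ?_
    congr 1
    push_cast
    ring
  have h1 : nrm (Aq st (q * L) f) ≤
      𝔼 x : ZMod N, 𝔼 b ∈ range q, ‖Aq (st * q) L f (x + ((st * b : ℕ) : ZMod N))‖ := by
    refine expect_le_expect fun x _ => ?_
    rw [h0 x]
    exact norm_expect_le5 _ _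
  rw [expect_comm] at h1
  refine h1.trans (expect_le_of5 _ _ (nrm_nonneg _) fun a _ => ?_)
  exact (expect_shift (fun x => ‖Aq (st * q) L f x‖) ((st * a : ℕ) : ZMod N)).le

end AqBasic

end

end Pool.Agent.Helper67.NX2

end

section

set_option autoImplicit false

open Finset

open scoped BigOperators ComplexConjugate

namespace Pool.Agent.Helper67.NX2

open Pool.Agent.Helper57.NX

noncomputable section

namespace LsMajor

/-- B1 -/
def LargeSieve : Prop := ∃ C : ℝ, 0 < C ∧ ∀ (N0 N : ℕ) (Δ : ℝ), 1 ≤ N → 0 < Δ → Δ ≤ 1 →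
    ∀ P : Finset ℝ, (∀ α ∈ P, ∀ β ∈ P, α ≠ β → Δ ≤ dint (α - β)) → ∀ a : ℕ → ℂ,
    ∑ α ∈ P, ‖∑ n ∈ Ico N0 (N0 + N), a n * e (α * n)‖ ^ 2 ≤
      C * (N + 1 / Δ) * ∑ n ∈ Ico N0 (N0 + N), ‖a n‖ ^ 2

/-- B2 -/
def Montgomery : Prop := ∀ (r : ℕ) (_ : Squarefree r) (S : Finset ℕ) (a : ℕ → ℂ)
    (_ : ∀ n ∈ S, a n ≠ 0 → Nat.Coprime n r) (α : ℝ),
    ‖∑ n ∈ S, a n * e (α * n)‖ ^ 2 ≤ r.totient *
      ∑ c ∈ (range r).filter (fun c => Nat.Coprime c r),
        ‖∑ n ∈ S, a n * e ((α + c / r) * n)‖ ^ 2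

/-- the main inequality, with a parameter `Y` -/
theorem main {C1 : ℝ} (hC1 : 0 < C1)
    (hLS : ∀ (N0 N : ℕ) (Δ : ℝ), 1 ≤ N → 0 < Δ → Δ ≤ 1 →
      ∀ P : Finset ℝ, (∀ α ∈ P, ∀ β ∈ P, α ≠ β → Δ ≤ dint (α - β)) → ∀ a : ℕ → ℂ,
      ∑ α ∈ P, ‖∑ n ∈ Ico N0 (N0 + N), a n * e (α * n)‖ ^ 2 ≤
        C1 * (N + 1 / Δ) * ∑ n ∈ Ico N0 (N0 + N), ‖a n‖ ^ 2)
    (hMo : Montgomery) {N0 N M c R Q0 Y : ℕ} (hM : 1 ≤ M) (hQ0 : 1 ≤ Q0)
    (hN : (M * Q0) ^ 16 ≤ N) (hY : 1 ≤ Y) (hYN : Y ^ 8 ≤ N)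
    (hMR : ∀ p : ℕ, p.Prime → p ∣ M → p ≤ R)
    {P : Finset (ℕ × ℕ)} (hP : ∀ x ∈ P, 1 ≤ x.1 ∧ x.1 ≤ Q0 ∧ Nat.Coprime x.1 M ∧
      ∀ p : ℕ, p.Prime → p ∣ x.1 → p ≤ R)
    (hPd : ∀ x ∈ P, ∀ y ∈ P, x ≠ y → ∀ m : ℤ, (x.2 : ℤ) * y.1 - y.2 * x.1 ≠ m * (x.1 * y.1))
    {f : ℕ → ℝ} (hf : ∀ y, f y ≠ 0 → y.Prime ∧ N ≤ y ^ 4) :
    (∑ x ∈ P, ‖∑ y ∈ (Ico N0 (N0 + N)).filter (fun y => y ≡ c [MOD M]),
        (f y : ℂ) * e ((x.2 : ℝ) / x.1 * y)‖ ^ 2) * ∑ r ∈ RR R Y, (1 : ℝ) / r.totient ≤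
      C1 * (4 * (N / M)) *
        ∑ y ∈ (Ico N0 (N0 + N)).filter (fun y => y ≡ c [MOD M]), f y ^ 2 := by
  set S := (Ico N0 (N0 + N)).filter (fun y => y ≡ c [MOD M]) with hS
  set SS : ℝ → ℝ := fun α => ‖∑ y ∈ S, (f y : ℂ) * e (α * y)‖ ^ 2 with hSS
  set a' : ℕ → ℂ := fun n => if c % M + M * n ∈ S then (f (c % M + M * n) : ℂ) else 0 with ha'
  set I' := Ico (N0 / M) (N0 / M + (N / M + 2)) with hI'
  set G : ℝ → ℝ := fun α => ‖∑ n ∈ I', a' n * e (α * n)‖ ^ 2 with hG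
  have hM0 : (0 : ℝ) < M := by exact_mod_cast hM
  exact by
    have hY0 : (0 : ℝ) < Y := by exact_mod_cast hY
    have hQ00 : (0 : ℝ) < Q0 := by exact_mod_cast hQ0
    -- sizes
    have hMQ : 1 ≤ M * Q0 := Nat.one_le_iff_ne_zero.2 (by positivity)
    have hN1 : 1 ≤ N := le_trans (Nat.one_le_pow _ _ hMQ) hN
    have hMN : M ≤ N := by
      calc M ≤ M * Q0 := Nat.le_mul_of_pos_right _ hQ0
        _ ≤ (M * Q0) ^ 16 := Nat.le_self_pow (by norm_num) _
        _ ≤ N := hN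
    -- Montgomery
    have h1 : ∀ x ∈ P, SS ((x.2 : ℝ) / x.1) * ∑ r ∈ RR R Y, (1 : ℝ) / r.totient ≤
        ∑ r ∈ RR R Y, ∑ b ∈ (range r).filter (fun b => Nat.Coprime b r),
          SS ((x.2 : ℝ) / x.1 + b / r) := by
      intro x _
      rw [mul_sum]
      refine sum_le_sum fun r hr => ?_
      obtain ⟨hr1, hrY, hrs, -⟩ := mem_RR hr
      have hco : ∀ n ∈ S, ((f n : ℝ) : ℂ) ≠ 0 → Nat.Coprime n r := by
        intro n _ hn
        have hn' : f n ≠ 0 := by
          intro h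
          exact hn (by rw [h, Complex.ofReal_zero])
        obtain ⟨hp, h4⟩ := hf n hn'
        rcases Nat.eq_or_lt_of_le hr1 with h | h
        · rw [← h]
          exact Nat.coprime_one_right n
        · have h5 : Y < n := Y_lt_of (by omega) hYN h4
          have h6 : r < n := by omega
          have h7 : r ≠ 0 := by omega
          have h8 := Nat.coprime_of_lt_prime h7 h6 hp
          exact h8
      have h2 := hMo r hrs S (fun y => (f y : ℂ)) hco ((x.2 : ℝ) / x.1)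
      have hφ : (0 : ℝ) < r.totient := by exact_mod_cast Nat.totient_pos.2 (by omega)
      rw [mul_one_div, div_le_iff₀ hφ, mul_comm]
      exact h2
    -- reindexing
    exact by
      have h2 : ∀ β : ℝ, SS β = G (M * β) := by
        intro β
        simp only [hSS, hG]
        congr 1
        have e1 := reidx N0 N M c hM (fun y => (f y : ℂ) * e (β * y))
        rw [← hS] at e1
        rw [e1]
        have e2 : ∀ n : ℕ, (if c % M + M * n ∈ S then
            (f (c % M + M * n) : ℂ) * e (β * ((c % M + M * n : ℕ) : ℝ)) else 0) =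
            e (β * ((c % M : ℕ) : ℝ)) * (a' n * e (M * β * n)) := by
          intro n
          simp only [ha']
          split_ifs
          · have e3 : β * ((c % M + M * n : ℕ) : ℝ) = β * ((c % M : ℕ) : ℝ) + M * β * n := by
              push_cast
              ring
            rw [e3, e_add]
            ring
          · simp
        rw [sum_congr rfl (fun n _ => e2 n), ← mul_sum, norm_mul, norm_e, one_mul]
      -- the sum over the index set
      have h3 : ∑ x ∈ P, ∑ r ∈ RR R Y, ∑ b ∈ (range r).filter (fun b => Nat.Coprime b r),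
            SS ((x.2 : ℝ) / x.1 + b / r) = ∑ t ∈ T P R Y, G (pt M t) := by
        unfold T
        rw [sum_product]
        refine sum_congr rfl fun x _ => ?_
        rw [sum_sigma]
        refine sum_congr rfl fun r _ => sum_congr rfl fun b _ => ?_
        rw [h2]
        rfl
      have hinj : Set.InjOn (pt M) (T P R Y : Set ((ℕ × ℕ) × (Σ _ : ℕ, ℕ))) := by
        intro t ht t' ht' heq
        by_contra hne
        have h4 := pt_sep hM hMR hP hPd (mem_coe.1 ht) (mem_coe.1 ht') hne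
        rw [heq, sub_self] at h4
        have h5 : dint 0 = 0 := by simp [dint]
        rw [h5] at h4
        have : 0 < 1 / ((Q0 : ℝ) ^ 2 * Y ^ 2) := by (clear * - hQ0 hY; positivity)
        (clear * - h4 this; linarith)
      have h4 : ∑ t ∈ T P R Y, G (pt M t) = ∑ α ∈ (T P R Y).image (pt M), G α := by
        rw [sum_image hinj]
      have h5 : ∑ α ∈ (T P R Y).image (pt M), G α ≤
          C1 * (((N / M + 2 : ℕ) : ℝ) + 1 / (1 / ((Q0 : ℝ) ^ 2 * Y ^ 2))) * ∑ n ∈ I', ‖a' n‖ ^ 2 := by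
        refine hLS (N0 / M) (N / M + 2) (1 / ((Q0 : ℝ) ^ 2 * Y ^ 2))
          (le_trans (by norm_num) (Nat.le_add_left 2 (N / M))) (by (clear * - hQ0 hY; positivity)) ?_
          ((T P R Y).image (pt M)) ?_ a'
        · rw [div_le_one (by positivity)]
          have h6 : (1 : ℝ) ≤ Q0 := by exact_mod_cast hQ0
          have h7 : (1 : ℝ) ≤ Y := by exact_mod_cast hY
          (clear * - h7 h6; nlinarith [one_le_pow₀ h6 (n := 2), one_le_pow₀ h7 (n := 2)])
        · intro α hα β hβ hne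
          obtain ⟨t, ht, rfl⟩ := mem_image.1 hα
          obtain ⟨t', ht', rfl⟩ := mem_image.1 hβ
          exact pt_sep hM hMR hP hPd ht ht' (fun h => hne (by rw [h]))
      have h6 : ∑ n ∈ I', ‖a' n‖ ^ 2 = ∑ y ∈ S, f y ^ 2 := by
        have e1 := reidx N0 N M c hM (fun y => f y ^ 2)
        rw [← hS, ← hI'] at e1
        rw [e1]
        refine sum_congr rfl fun n _ => ?_
        simp only [ha']
        split_ifs
        · rw [Complex.norm_real, Real.norm_eq_abs, sq_abs]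
        · simp
      exact by
        have h7 : ((N / M + 2 : ℕ) : ℝ) + 1 / (1 / ((Q0 : ℝ) ^ 2 * Y ^ 2)) ≤ 4 * (N / M) := by
          have e1 : ((N / M : ℕ) : ℝ) ≤ (N : ℝ) / M := Nat.cast_div_le
          have e2 : (1 : ℝ) ≤ (N : ℝ) / M := by
            rw [le_div_iff₀ hM0, one_mul]
            exact_mod_cast hMN
          have e3 : (Q0 : ℝ) ^ 2 * Y ^ 2 ≤ (N : ℝ) / M := by
            rw [le_div_iff₀ hM0]
            have e4 : Q0 ^ 2 * Y ^ 2 * M ≤ N := by
              by_contra hlt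
              push Not at hlt
              have e5 : N ^ 8 < (Q0 ^ 2 * Y ^ 2 * M) ^ 8 := Nat.pow_lt_pow_left hlt (by norm_num)
              have e6 : (Q0 ^ 2 * Y ^ 2 * M) ^ 8 ≤ N ^ 3 := by
                calc (Q0 ^ 2 * Y ^ 2 * M) ^ 8 = Q0 ^ 16 * M ^ 8 * (Y ^ 8) ^ 2 := by ring
                  _ ≤ Q0 ^ 16 * M ^ 16 * (Y ^ 8) ^ 2 := by
                      refine Nat.mul_le_mul_right _ (Nat.mul_le_mul_left _ ?_)
                      exact Nat.pow_le_pow_right hM (by norm_num)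
                  _ = (M * Q0) ^ 16 * (Y ^ 8) ^ 2 := by ring
                  _ ≤ N * N ^ 2 := Nat.mul_le_mul hN (Nat.pow_le_pow_left hYN 2)
                  _ = N ^ 3 := by ring
              have e7 : N ^ 3 ≤ N ^ 8 := Nat.pow_le_pow_right hN1 (by norm_num)
              omega
            exact_mod_cast e4
          rw [one_div_one_div]
          push_cast
          (clear * - e1 e2 e3; linarith)
        have h8 : 0 ≤ ∑ y ∈ S, f y ^ 2 := sum_nonneg fun _ _ => sq_nonneg _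
        calc (∑ x ∈ P, SS ((x.2 : ℝ) / x.1)) * ∑ r ∈ RR R Y, (1 : ℝ) / r.totient
            = ∑ x ∈ P, SS ((x.2 : ℝ) / x.1) * ∑ r ∈ RR R Y, (1 : ℝ) / r.totient := by
              rw [sum_mul]
          _ ≤ ∑ x ∈ P, ∑ r ∈ RR R Y, ∑ b ∈ (range r).filter (fun b => Nat.Coprime b r),
              SS ((x.2 : ℝ) / x.1 + b / r) := sum_le_sum h1
          _ ≤ C1 * (((N / M + 2 : ℕ) : ℝ) + 1 / (1 / ((Q0 : ℝ) ^ 2 * Y ^ 2))) *
              ∑ n ∈ I', ‖a' n‖ ^ 2 := by rw [h3, h4]; exact h5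
          _ ≤ _ := by
              rw [h6]
              exact mul_le_mul_of_nonneg_right (mul_le_mul_of_nonneg_left h7 hC1.le) h8

/-- B5 -/
theorem ls_major_of (hLS : LargeSieve) (hMo : Montgomery) (hRS : RoughSum) :
    ∃ C : ℝ, 0 < C ∧ ∀ N0 N M c R Q0 : ℕ, 2 ≤ R → R ≤ N → 1 ≤ M → 1 ≤ Q0 →
    (M * Q0) ^ 16 ≤ N → (∀ p : ℕ, p.Prime → p ∣ M → p ≤ R) →
    ∀ P : Finset (ℕ × ℕ), (∀ x ∈ P, 1 ≤ x.1 ∧ x.1 ≤ Q0 ∧ Nat.Coprime x.1 M ∧
      ∀ p : ℕ, p.Prime → p ∣ x.1 → p ≤ R) →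
    (∀ x ∈ P, ∀ y ∈ P, x ≠ y → ∀ m : ℤ, (x.2 : ℤ) * y.1 - y.2 * x.1 ≠ m * (x.1 * y.1)) →
    ∀ f : ℕ → ℝ, (∀ y, f y ≠ 0 → y.Prime ∧ N ≤ y ^ 4) →
    ∑ x ∈ P, ‖∑ y ∈ (Ico N0 (N0 + N)).filter (fun y => y ≡ c [MOD M]),
        (f y : ℂ) * e ((x.2 : ℝ) / x.1 * y)‖ ^ 2 ≤
      C * (Real.log R / Real.log N) * (N / M) *
        ∑ y ∈ (Ico N0 (N0 + N)).filter (fun y => y ≡ c [MOD M]), f y ^ 2 := by
  obtain ⟨C1, hC1, hLS⟩ := hLS
  obtain ⟨c1, hc1, hRS⟩ := hRS
  refine ⟨64 * C1 * (1 + 1 / c1), by (clear * - hC1 hc1; positivity), ?_⟩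
  intro N0 N M c R Q0 hR hRN hM hQ0 hN hMR P hP hPd f hf
  have hM0 : (0 : ℝ) < M := by exact_mod_cast hM
  have hlR : 0 < Real.log R := Real.log_pos (by exact_mod_cast (show 1 < R by omega))
  have hlN : 0 < Real.log N := Real.log_pos (by exact_mod_cast (show 1 < N by omega))
  set S := (Ico N0 (N0 + N)).filter (fun y => y ≡ c [MOD M]) with hS
  set X := ∑ x ∈ P, ‖∑ y ∈ S, (f y : ℂ) * e ((x.2 : ℝ) / x.1 * y)‖ ^ 2 with hX
  have hX0 : 0 ≤ X := sum_nonneg fun _ _ => sq_nonneg _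
  exact by
    have h8 : 0 ≤ ∑ y ∈ S, f y ^ 2 := sum_nonneg fun _ _ => sq_nonneg _
    set F := ((N : ℝ) / M) * ∑ y ∈ S, f y ^ 2 with hF
    have hF0 : 0 ≤ F := by (clear * - hM; positivity)
    rw [mul_assoc _ ((N : ℝ) / M), ← hF]
    rcases lt_or_ge N (2 ^ 16) with hsmall | hbig
    · have h1 := main (R := R) (c := c) (N0 := N0) hC1 hLS hMo hM hQ0 hN (le_refl 1)
        (by rw [one_pow]; omega) hMR hP hPd hf
      exact by
        rw [← hS, ← hX] at h1
        have h2 : ∑ r ∈ RR R 1, (1 : ℝ) / r.totient = 1 := by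
          have : RR R 1 = {1} := by
            unfold RR
            ext r
            rw [mem_filter, mem_Icc, mem_singleton]
            constructor
            · intro h
              omega
            · rintro rfl
              simp
          rw [this]
          simp
        rw [h2, mul_one] at h1
        have h3 : (1 : ℝ) / 16 ≤ Real.log R / Real.log N := by
          rw [le_div_iff₀ hlN]
          have h4 : Real.log N ≤ 16 * Real.log 2 := by
            have h5 : Real.log N ≤ Real.log ((2 : ℝ) ^ 16) := by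
              refine Real.log_le_log (by exact_mod_cast (show 0 < N by omega)) ?_
              exact_mod_cast hsmall.le
            rw [Real.log_pow] at h5
            exact_mod_cast h5
          have h5 : Real.log 2 ≤ Real.log R := Real.log_le_log (by norm_num) (by exact_mod_cast hR)
          (clear * - h4 h5; linarith)
        calc X ≤ C1 * (4 * (N / M)) * ∑ y ∈ S, f y ^ 2 := h1
          _ = 64 * C1 * (1 / 16) * F := by rw [hF]; ring
          _ ≤ 64 * C1 * (Real.log R / Real.log N) * F := by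
              refine mul_le_mul_of_nonneg_right (mul_le_mul_of_nonneg_left h3 (by positivity)) hF0
          _ ≤ 64 * C1 * (1 + 1 / c1) * (Real.log R / Real.log N) * F := by
              refine mul_le_mul_of_nonneg_right (mul_le_mul_of_nonneg_right ?_ (by positivity)) hF0
              have : 0 < 1 / c1 := by positivity
              (clear * - hC1 this; nlinarith)
    · -- large N
      obtain ⟨Y, hY1, hY2⟩ : ∃ Y : ℕ, Y ^ 8 ≤ N ∧ N < (Y + 1) ^ 8 := by
        have h1 := Nat.findGreatest_spec (P := fun Y => Y ^ 8 ≤ N) (m := 0) (n := N) (by omega)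
          (by simp)
        refine ⟨Nat.findGreatest (fun Y => Y ^ 8 ≤ N) N, h1, ?_⟩
        by_contra hlt
        push Not at hlt
        have h2 : Nat.findGreatest (fun Y => Y ^ 8 ≤ N) N + 1 ≤ N :=
          (Nat.le_self_pow (by norm_num) _).trans hlt
        have h3 := Nat.le_findGreatest (P := fun Y => Y ^ 8 ≤ N) h2 hlt
        omega
      exact by
        have hY4 : 4 ≤ Y := by
          by_contra h
          push Not at h
          have h1 : (Y + 1) ^ 8 ≤ 4 ^ 8 := Nat.pow_le_pow_left (by omega) 8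
          have h2 : (4 : ℕ) ^ 8 = 2 ^ 16 := by norm_num
          omega
        have h1 := main (R := R) (c := c) (N0 := N0) hC1 hLS hMo hM hQ0 hN (show 1 ≤ Y by omega)
          hY1 hMR hP hPd hf
        rw [← hS, ← hX] at h1
        have h2 := hRS R Y hR (by omega)
        have h3 : Real.log N / 16 ≤ Real.log Y := by
          have h4 : N ≤ Y ^ 16 := by
            calc N ≤ (Y + 1) ^ 8 := hY2.le
              _ ≤ (Y ^ 2) ^ 8 := by
                  refine Nat.pow_le_pow_left ?_ 8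
                  (clear * - hY4; nlinarith)
              _ = Y ^ 16 := by ring
          have h5 : Real.log N ≤ Real.log ((Y : ℝ) ^ 16) := by
            refine Real.log_le_log (by exact_mod_cast (show 0 < N by omega)) ?_
            exact_mod_cast h4
          rw [Real.log_pow] at h5
          push_cast at h5
          (clear * - h5; linarith)
        have h4 : X * (c1 * (Real.log N / 16) / Real.log R) ≤ 4 * C1 * F := by
          calc X * (c1 * (Real.log N / 16) / Real.log R)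
              ≤ X * ∑ r ∈ RR R Y, (1 : ℝ) / r.totient := by
                refine mul_le_mul_of_nonneg_left (le_trans ?_ h2) hX0
                exact div_le_div_of_nonneg_right (mul_le_mul_of_nonneg_left h3 hc1.le) hlR.le
            _ ≤ C1 * (4 * (N / M)) * ∑ y ∈ S, f y ^ 2 := h1
            _ = 4 * C1 * F := by rw [hF]; ring
        have h5 : X ≤ 64 * C1 * (1 / c1) * (Real.log R / Real.log N) * F := by
          have h6 : X * (c1 * (Real.log N / 16) / Real.log R) * (16 * Real.log R / (c1 * Real.log N)) =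
              X := by
            (clear * - hc1 hlN hlR; field_simp)
          rw [← h6]
          calc X * (c1 * (Real.log N / 16) / Real.log R) * (16 * Real.log R / (c1 * Real.log N))
              ≤ 4 * C1 * F * (16 * Real.log R / (c1 * Real.log N)) :=
                mul_le_mul_of_nonneg_right h4 (by positivity)
            _ = 64 * C1 * (1 / c1) * (Real.log R / Real.log N) * F := by
                field_simp
                ring
        refine h5.trans ?_
        refine mul_le_mul_of_nonneg_right (mul_le_mul_of_nonneg_right ?_ (by positivity)) hF0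
        refine mul_le_mul_of_nonneg_left ?_ (by positivity)
        (clear * -; linarith)

end LsMajor

end

end Pool.Agent.Helper67.NX2

end

section

set_option autoImplicit false

open Finset

open scoped BigOperators

namespace Pool.Agent.Helper57.NX3

noncomputable section

theorem FA_nonneg (z : ℕ) (A : Finset ℕ) (x : ℕ) : 0 ≤ FA z A x := by
  unfold FA
  split_ifs
  · exact Real.log_nonneg (one_le_pow₀ (by norm_num))
  · exact le_refl _

theorem FA_le (z : ℕ) (A : Finset ℕ) (x : ℕ) : FA z A x ≤ Real.log ((2 : ℝ) ^ z) := by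
  unfold FA
  split_ifs
  · exact le_refl _
  · exact Real.log_nonneg (one_le_pow₀ (by norm_num))

/-- membership in a cell -/
theorem mem_cell {M b x y : ℕ} :
    y ∈ (blo b x).filter (fun y => y ≡ x [MOD M]) ↔ y / 2 ^ b = x / 2 ^ b ∧ y ≡ x [MOD M] := by
  rw [Finset.mem_filter, mem_blo]

theorem cell_card_ge {M b : ℕ} (hM : 1 ≤ M) (x : ℕ) :
    1 - (M : ℝ) / 2 ^ b ≤ (M : ℝ) / 2 ^ b * (((blo b x).filter (fun y => y ≡ x [MOD M])).card : ℝ) := by
  have hM0 : (0 : ℝ) < M := by exact_mod_cast hM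
  have h := (abs_le.mp (cell_card (b := b) hM x)).1
  have h2 : 2 ^ b / M - 1 ≤ (((blo b x).filter (fun y => y ≡ x [MOD M])).card : ℝ) := by (clear * - h; linarith)
  calc 1 - (M : ℝ) / 2 ^ b = (M : ℝ) / 2 ^ b * (2 ^ b / M - 1) := by field_simp
    _ ≤ _ := mul_le_mul_of_nonneg_left h2 (by (clear * - hM; positivity))

theorem cd_congr (f : ℕ → ℝ) {M b x x' : ℕ} (h1 : x / 2 ^ b = x' / 2 ^ b)
    (h2 : x ≡ x' [MOD M]) : cd f M b x = cd f M b x' := by
  unfold cd
  have h : (blo b x).filter (fun y => y ≡ x [MOD M]) = (blo b x').filter (fun y => y ≡ x' [MOD M]) := by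
    ext y
    rw [mem_cell, mem_cell, h1]
    exact ⟨fun h => ⟨h.1, h.2.trans h2⟩, fun h => ⟨h.1, h.2.trans h2.symm⟩⟩
  rw [h]

/-- exchange of the sums -/
theorem sum_cd_closed (f : ℕ → ℝ) (M b : ℕ) (C : Finset ℕ)
    (hC : ∀ y ∈ C, ∀ u, u / 2 ^ b = y / 2 ^ b → u ≡ y [MOD M] → u ∈ C) :
    ∑ y ∈ C, cd f M b y = ∑ u ∈ C, f u *
      ((M : ℝ) / 2 ^ b * (((blo b u).filter (fun y => y ≡ u [MOD M])).card : ℝ)) := by
  have h1 : ∀ y ∈ C, cd f M b y = ∑ u ∈ C, if (u / 2 ^ b = y / 2 ^ b ∧ u ≡ y [MOD M]) then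
      (M : ℝ) / 2 ^ b * f u else 0 := by
    intro y hy
    unfold cd
    rw [Finset.mul_sum, ← Finset.sum_filter]
    apply Finset.sum_congr _ (fun _ _ => rfl)
    ext u
    rw [mem_cell, Finset.mem_filter]
    exact ⟨fun h => ⟨hC y hy u h.1 h.2, h⟩, fun h => h.2⟩
  rw [Finset.sum_congr rfl h1, Finset.sum_comm]
  apply Finset.sum_congr rfl
  intro u hu
  rw [← Finset.sum_filter, Finset.sum_const, nsmul_eq_mul]
  have h2 : C.filter (fun y => u / 2 ^ b = y / 2 ^ b ∧ u ≡ y [MOD M]) =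
      (blo b u).filter (fun y => y ≡ u [MOD M]) := by
    ext y
    rw [mem_cell, Finset.mem_filter]
    exact ⟨fun h => ⟨h.2.1.symm, h.2.2.symm⟩, fun h => ⟨hC u hu y h.1 h.2, h.1.symm, h.2.symm⟩⟩
  rw [h2]
  ring

/-- the sum of the fine cell averages over a coarse cell is almost the sum of the function -/
theorem sum_cd_cell {f : ℕ → ℝ} (hf : ∀ x, 0 ≤ f x) {M M' b b' : ℕ} (hM : 1 ≤ M) (hM' : 1 ≤ M')
    (hMM : M ∣ M') (hb : b' ≤ b) (x : ℕ) :
    |(∑ y ∈ (blo b x).filter (fun y => y ≡ x [MOD M]), cd f M' b' y) -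
      ∑ y ∈ (blo b x).filter (fun y => y ≡ x [MOD M]), f y| ≤
      (M' : ℝ) / 2 ^ b' * ∑ y ∈ (blo b x).filter (fun y => y ≡ x [MOD M]), f y := by
  have hdiv : ∀ u : ℕ, u / 2 ^ b = u / 2 ^ b' / 2 ^ (b - b') := by
    intro u
    rw [Nat.div_div_eq_div_mul, ← pow_add, Nat.add_sub_cancel' hb]
  rw [sum_cd_closed f M' b' _ (by
    intro y hy u hu1 hu2
    rw [mem_cell] at hy ⊢
    refine ⟨?_, (hu2.of_dvd hMM).trans hy.2⟩
    rw [← hy.1, hdiv u, hdiv y, hu1])]
  rw [← Finset.sum_sub_distrib, Finset.mul_sum]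
  refine (Finset.abs_sum_le_sum_abs _ _).trans (Finset.sum_le_sum fun u _ => ?_)
  have h1 := cell_card_le (b := b') hM' u
  have h2 := cell_card_ge (b := b') hM' u
  set t : ℝ := (M' : ℝ) / 2 ^ b' * (((blo b' u).filter (fun y => y ≡ u [MOD M'])).card : ℝ) with ht
  have h3 : f u * t - f u = f u * (t - 1) := by ring
  rw [h3, abs_mul, abs_of_nonneg (hf u), mul_comm]
  apply mul_le_mul_of_nonneg_right _ (hf u)
  rw [abs_le]
  constructor <;> (clear * - h2 h1; linarith)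

/-- sums over a block, restricted to the classes prime to `M` -/
theorem sum_cd_block {f : ℕ → ℝ} (hf : ∀ x, 0 ≤ f x) {M b : ℕ} (hM : 1 ≤ M) (x : ℕ) :
    ∑ y ∈ (blo b x).filter (fun y => y.Coprime M), cd f M b y ≤
      (1 + (M : ℝ) / 2 ^ b) * ∑ y ∈ blo b x, f y := by
  rw [sum_cd_closed f M b _ (by
    intro y hy u hu1 hu2
    rw [Finset.mem_filter, mem_blo] at hy ⊢
    refine ⟨hu1.trans hy.1, ?_⟩
    unfold Nat.Coprime
    rw [hu2.gcd_eq]
    exact hy.2)]
  calc ∑ u ∈ (blo b x).filter (fun y => y.Coprime M), f u *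
        ((M : ℝ) / 2 ^ b * (((blo b u).filter (fun y => y ≡ u [MOD M])).card : ℝ))
      ≤ ∑ u ∈ (blo b x).filter (fun y => y.Coprime M), f u * (1 + (M : ℝ) / 2 ^ b) :=
        Finset.sum_le_sum fun u _ => mul_le_mul_of_nonneg_left (cell_card_le hM u) (hf u)
    _ ≤ ∑ u ∈ blo b x, f u * (1 + (M : ℝ) / 2 ^ b) := by
        apply Finset.sum_le_sum_of_subset_of_nonneg (Finset.filter_subset _ _)
        intro u _ _
        exact mul_nonneg (hf u) (by (clear * - hM; positivity))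
    _ = _ := by rw [← Finset.sum_mul, mul_comm]

theorem sum_cd_coprime {f : ℕ → ℝ} (hf : ∀ x, 0 ≤ f x) {M b z : ℕ} (hM : 1 ≤ M) (hb : b ≤ z) :
    (1 - (M : ℝ) / 2 ^ b) * ∑ y ∈ (range (2 ^ z)).filter (fun y => y.Coprime M), f y ≤
      ∑ y ∈ (range (2 ^ z)).filter (fun y => y.Coprime M), cd f M b y := by
  have hp : 0 < 2 ^ b := by positivity
  have hz : ∀ u : ℕ, u < 2 ^ z ↔ u / 2 ^ b < 2 ^ (z - b) := by
    intro u
    rw [Nat.div_lt_iff_lt_mul hp, ← pow_add, Nat.sub_add_cancel hb]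
  rw [sum_cd_closed f M b _ (by
    intro y hy u hu1 hu2
    rw [Finset.mem_filter, Finset.mem_range] at hy ⊢
    refine ⟨?_, ?_⟩
    · rw [hz, hu1, ← hz]
      exact hy.1
    · unfold Nat.Coprime
      rw [hu2.gcd_eq]
      exact hy.2)]
  rw [Finset.mul_sum]
  refine Finset.sum_le_sum fun u _ => ?_
  rw [mul_comm]
  exact mul_le_mul_of_nonneg_left (cell_card_ge hM u) (hf u)

end

end Pool.Agent.Helper57.NX3

end

section

set_option autoImplicit false

open Finset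

open scoped BigOperators

namespace Pool.Agent.Helper82.NX3

open Pool.Agent.Helper57.NX3

noncomputable section

/-- the statement `incr` of C4 -/
def IncrS : Prop := ∀ (M M' : ℕ) (_ : 1 ≤ M) (_ : 1 ≤ M') (_ : M ∣ M') (θ κ : ℝ) (_ : 0 < θ)
    (_ : 0 < κ), ∃ z0 : ℕ, ∀ z : ℕ, z0 ≤ z → ∀ A : Finset ℕ, PS z A → ∀ b b' : ℕ, b' ≤ b →
    b ≤ z → ((2 : ℝ) ^ z) ^ θ ≤ 2 ^ b' →
    (∑ x ∈ range (2 ^ z), (cd (FA z A) M' b' x - cd (FA z A) M b x) ^ 2) / 2 ^ z ≤
      (∑ x ∈ range (2 ^ z), cd (FA z A) M' b' x ^ 2) / 2 ^ z -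
        (∑ x ∈ range (2 ^ z), cd (FA z A) M b x ^ 2) / 2 ^ z + κ

/-- the statement `en_mono` of C4 -/
def EnMonoS : Prop := ∀ (M M' : ℕ) (_ : 1 ≤ M) (_ : 1 ≤ M') (_ : M ∣ M')
    (_ : M'.primeFactors = M.primeFactors) (θ κ : ℝ) (_ : 0 < θ)
    (_ : 0 < κ), ∃ z0 : ℕ, ∀ z : ℕ, z0 ≤ z → ∀ A : Finset ℕ, PS z A → ∀ b b' : ℕ, b' ≤ b →
    b ≤ z → ((2 : ℝ) ^ z) ^ θ ≤ 2 ^ b' → En z A M b ≤ En z A M' b' + κ

theorem cd_congr' (f : ℕ → ℝ) {M b x x' : ℕ} (h1 : x / 2 ^ b = x' / 2 ^ b)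
    (h2 : x ≡ x' [MOD M]) : cd f M b x = cd f M b x' := by
  unfold cd blo
  rw [h1]
  congr 1
  refine Finset.sum_congr ?_ fun _ _ => rfl
  refine Finset.filter_congr fun y _ => ?_
  exact ⟨fun h => h.trans h2, fun h => h.trans h2.symm⟩

theorem bad_nat_of (hI : IncrS) (hE : EnMonoS) (M M' : ℕ) (hM : 1 ≤ M) (hM' : 1 ≤ M')
    (hMM : M ∣ M') (hphi : (M'.totient : ℝ) / M' = (M.totient : ℝ) / M)
    (δ κ θ : ℝ) (hδ : 0 < δ) (hκ : 0 < κ) (hθ : 0 < θ) :
    ∃ z0 : ℕ, ∀ z : ℕ, z0 ≤ z → ∀ A : Finset ℕ, PS z A → ∀ β β1 b : ℕ, β1 ≤ b → b ≤ β → β ≤ z →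
    ((2 : ℝ) ^ z) ^ θ ≤ 2 ^ β1 → En z A M' β1 ≤ En z A M β + κ →
    ∀ v : ℕ, M ∣ v → (v : ℝ) * ((2 : ℝ) ^ z) ^ θ ≤ 2 ^ β →
    (((range (2 ^ z)).filter fun x => x.Coprime M ∧
      δ / 4 ≤ (M.totient : ℝ) / M * cd (FA z A) M β x ∧
      (M.totient : ℝ) / M * cd (FA z A) M' b (x + v) < δ / 8).card : ℝ) ≤
      256 * κ / δ ^ 2 * ((M.totient : ℝ) / M) * 2 ^ z := by
  set kap : ℝ := (M.totient : ℝ) / M with hkap
  have hk0 : 0 < kap := phi_ratio_pos hM
  have hk1 : kap ≤ 1 := phi_ratio_le_one hM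
  obtain ⟨z1, h1⟩ := hI M M' hM hM' hMM θ κ hθ hκ
  obtain ⟨z2, h2⟩ := hE M' M' hM' hM' dvd_rfl rfl θ κ hθ hκ
  obtain ⟨z3, h3⟩ := exists_zpow θ (δ ^ 2 / (64 * κ * kap)) hθ
  refine ⟨max z1 (max z2 z3), ?_⟩
  intro z hz A hA β β1 b hb1 hb2 hβ hθ1 hEn v hv hvθ
  have hz1 := h1 z ((le_max_left _ _).trans hz) A hA β b hb2 hβ
    (hθ1.trans (pow_le_pow_right₀ (by norm_num) hb1))
  have hz2 := h2 z ((le_max_left _ _).trans ((le_max_right _ _).trans hz)) A hA b β1 hb1
    (hb2.trans hβ) hθ1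
  exact by
    have hz3 := h3 z ((le_max_right _ _).trans ((le_max_right _ _).trans hz))
    have hZ : (0 : ℝ) < 2 ^ z := by positivity
    have hZθ : 0 < ((2 : ℝ) ^ z) ^ θ := Real.rpow_pos_of_pos hZ _
    set F := FA z A with hF
    set S : ℝ := ∑ x ∈ range (2 ^ z), (cd F M' b x - cd F M β x) ^ 2 with hS
    -- the energy
    have hS1 : kap * (S / 2 ^ z) ≤ 3 * κ := by
      have h4 := mul_le_mul_of_nonneg_left hz1 hk0.le
      have h5 : kap * ((∑ x ∈ range (2 ^ z), cd F M' b x ^ 2) / 2 ^ z) = En z A M' b := by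
        rw [En, hphi]
      have h6 : kap * ((∑ x ∈ range (2 ^ z), cd F M β x ^ 2) / 2 ^ z) = En z A M β := rfl
      have h7 : kap * κ ≤ κ := mul_le_of_le_one_left hκ.le hk1
      rw [mul_add, mul_sub, h5, h6] at h4
      linarith
    -- splitting
    set B := (range (2 ^ z)).filter fun x => x.Coprime M ∧
        δ / 4 ≤ kap * cd F M β x ∧ kap * cd F M' b (x + v) < δ / 8 with hB
    exact by
      set B1 := B.filter fun x => (x + v) / 2 ^ β = x / 2 ^ β with hB1
      set B2 := (range (2 ^ z)).filter fun x => (x + v) / 2 ^ β ≠ x / 2 ^ β with hB2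
      have hsub : B ⊆ B1 ∪ B2 := by
        intro x hx
        rw [mem_union]
        by_cases h : (x + v) / 2 ^ β = x / 2 ^ β
        · left
          exact mem_filter.mpr ⟨hx, h⟩
        · right
          exact mem_filter.mpr ⟨(mem_filter.mp hx).1, h⟩
      have hcard : (B.card : ℝ) ≤ B1.card + B2.card := by
        exact_mod_cast (card_le_card hsub).trans (card_union_le _ _)
      -- the points near the end of a block
      have hc2 : (B2.card : ℝ) ≤ 64 * κ / δ ^ 2 * kap * 2 ^ z := by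
        refine (card_change z β v hβ).trans ?_
        have h4 : (v : ℝ) / 2 ^ β ≤ 64 * κ / δ ^ 2 * kap := by
          rw [div_le_iff₀ (by positivity)]
          have h5 : (v : ℝ) * (δ ^ 2 / (64 * κ * kap)) ≤ 2 ^ β :=
            (mul_le_mul_of_nonneg_left hz3 (Nat.cast_nonneg v)).trans hvθ
          have h6 : (v : ℝ) = (v : ℝ) * (δ ^ 2 / (64 * κ * kap)) * (64 * κ / δ ^ 2 * kap) := by
            field_simp
          rw [h6, mul_comm (64 * κ / δ ^ 2 * kap)]
          exact mul_le_mul_of_nonneg_right h5 (by positivity)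
        calc (v : ℝ) * 2 ^ z / 2 ^ β = (v : ℝ) / 2 ^ β * 2 ^ z := by ring
          _ ≤ _ := mul_le_mul_of_nonneg_right h4 hZ.le
      -- Markov
      have hc1 : (B1.card : ℝ) * (δ / 8) ^ 2 ≤ kap ^ 2 * S := by
        have h4 : (B1.card : ℝ) * (δ / 8) ^ 2 ≤
            ∑ x ∈ B1, kap ^ 2 * (cd F M' b (x + v) - cd F M β (x + v)) ^ 2 := by
          rw [← nsmul_eq_mul]
          refine card_nsmul_le_sum _ _ _ fun x hx => ?_
          rw [hB1, mem_filter, hB, mem_filter] at hx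
          obtain ⟨⟨hx1, _, hx3, hx4⟩, hx5⟩ := hx
          have h5 : cd F M β (x + v) = cd F M β x := by
            refine cd_congr' F hx5 ?_
            obtain ⟨u, rfl⟩ := hv
            exact (Nat.ModEq.refl x).add (Nat.modEq_zero_iff_dvd.mpr (dvd_mul_right M u)) |>.trans
              (by rw [add_zero])
          rw [h5, ← mul_pow, ← sq_abs (kap * _)]
          refine pow_le_pow_left₀ (by positivity) ?_ 2
          rw [← abs_neg, ← mul_neg, neg_sub, mul_sub]
          exact le_trans (by linarith) (le_abs_self _)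
        refine h4.trans ?_
        rw [← mul_sum]
        refine mul_le_mul_of_nonneg_left ?_ (by positivity)
        rw [hS]
        have h6 : ∑ x ∈ B1, (cd F M' b (x + v) - cd F M β (x + v)) ^ 2 =
            ∑ y ∈ B1.map (addRightEmbedding v), (cd F M' b y - cd F M β y) ^ 2 := by
          rw [sum_map]
          rfl
        rw [h6]
        refine sum_le_sum_of_subset_of_nonneg ?_ fun _ _ _ => sq_nonneg _
        intro y hy
        rw [mem_map] at hy
        obtain ⟨x, hx, rfl⟩ := hy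
        rw [hB1, mem_filter, hB, mem_filter, mem_range] at hx
        obtain ⟨⟨hx1, _⟩, hx5⟩ := hx
        rw [mem_range, addRightEmbedding_apply]
        have h7 : x / 2 ^ β < 2 ^ (z - β) := by
          rw [Nat.div_lt_iff_lt_mul (by positivity), ← pow_add, Nat.sub_add_cancel hβ]
          exact hx1
        rw [← hx5, Nat.div_lt_iff_lt_mul (by positivity), ← pow_add, Nat.sub_add_cancel hβ] at h7
        exact h7
      exact by
        have hc1' : (B1.card : ℝ) ≤ 192 * κ / δ ^ 2 * kap * 2 ^ z := by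
          have h4 : kap ^ 2 * S ≤ kap * (3 * κ) * 2 ^ z := by
            have h5 : S = S / 2 ^ z * 2 ^ z := by field_simp
            calc kap ^ 2 * S = kap * (kap * (S / 2 ^ z)) * 2 ^ z := by
                  rw [h5]
                  field_simp
              _ ≤ kap * (3 * κ) * 2 ^ z := by
                  refine mul_le_mul_of_nonneg_right (mul_le_mul_of_nonneg_left hS1 hk0.le) hZ.le
          have h6 : (B1.card : ℝ) * (δ / 8) ^ 2 ≤ kap * (3 * κ) * 2 ^ z := hc1.trans h4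
          have h7 : (B1.card : ℝ) = (B1.card : ℝ) * (δ / 8) ^ 2 * (64 / δ ^ 2) := by
            field_simp
            norm_num
          rw [h7]
          refine (mul_le_mul_of_nonneg_right h6 (by positivity)).trans (le_of_eq ?_)
          ring
        calc (B.card : ℝ) ≤ B1.card + B2.card := hcard
          _ ≤ 192 * κ / δ ^ 2 * kap * 2 ^ z + 64 * κ / δ ^ 2 * kap * 2 ^ z := add_le_add hc1' hc2
          _ = 256 * κ / δ ^ 2 * kap * 2 ^ z := by ring

end

end Pool.Agent.Helper82.NX3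

end

section

set_option autoImplicit false

open Finset

open scoped BigOperators

namespace Pool.Agent.Helper82.NX3

open Pool.Agent.Helper57.NX3

noncomputable section

/-- the good set -/
def gset (z : ℕ) (A : Finset ℕ) (M β : ℕ) (δ : ℝ) : Finset ℕ :=
  (range (2 ^ z)).filter fun x => x.Coprime M ∧
    δ / 4 ≤ (M.totient : ℝ) / M * cd (FA z A) M β x ∧ δ / 4 ≤ cd (FA z A) 1 β x

/-- the statement `good_set` -/
def GoodSetS : Prop := ∃ ω : ℝ, 0 < ω ∧ ∀ δ : ℝ, 0 < δ → δ ≤ 1 → ∀ M : ℕ, 1 ≤ M → ∀ θ : ℝ, 0 < θ →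
    ∃ z0 : ℕ, ∀ z : ℕ, z0 ≤ z → ∀ A : Finset ℕ, PS z A →
    δ * ((2 : ℝ) ^ z / Real.log ((2 : ℝ) ^ z)) ≤ A.card →
    ∀ β : ℕ, β ≤ z → ((2 : ℝ) ^ z) ^ θ ≤ 2 ^ β →
    ω * δ ^ 2 * ((M.totient : ℝ) / M) * 2 ^ z ≤ (gset z A M β δ).card

/-- the statement `bad_nat` -/
def BadNatS : Prop := ∀ (M M' : ℕ) (_ : 1 ≤ M) (_ : 1 ≤ M') (_ : M ∣ M')
    (_ : M'.primeFactors = M.primeFactors) (δ κ θ : ℝ) (_ : 0 < δ) (_ : 0 < κ) (_ : 0 < θ),
    ∃ z0 : ℕ, ∀ z : ℕ, z0 ≤ z → ∀ A : Finset ℕ, PS z A → ∀ β β1 b : ℕ, β1 ≤ b → b ≤ β → β ≤ z →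
    ((2 : ℝ) ^ z) ^ θ ≤ 2 ^ β1 → En z A M' β1 ≤ En z A M β + κ →
    ∀ v : ℕ, M ∣ v → (v : ℝ) * ((2 : ℝ) ^ z) ^ θ ≤ 2 ^ β →
    (((range (2 ^ z)).filter fun x => x.Coprime M ∧
      δ / 4 ≤ (M.totient : ℝ) / M * cd (FA z A) M β x ∧
      (M.totient : ℝ) / M * cd (FA z A) M' b (x + v) < δ / 8).card : ℝ) ≤
      256 * κ / δ ^ 2 * ((M.totient : ℝ) / M) * 2 ^ z

/-- the statement `bad_real` -/
def BadRealS : Prop := ∀ (M : ℕ) (_ : 1 ≤ M) (δ κ θ : ℝ) (_ : 0 < δ) (_ : 0 < κ) (_ : 0 < θ),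
    ∃ z0 : ℕ, ∀ z : ℕ, z0 ≤ z → ∀ A : Finset ℕ, PS z A → ∀ β β1 : ℕ, β1 ≤ β → β ≤ z →
    ((2 : ℝ) ^ z) ^ θ ≤ 2 ^ β1 → En z A 1 β1 ≤ En z A 1 β + κ →
    ∀ v L : ℕ, (v : ℝ) * ((2 : ℝ) ^ z) ^ θ ≤ 2 ^ β → (L : ℝ) * ((2 : ℝ) ^ z) ^ θ ≤ 2 ^ β →
    2 ^ β1 * ((2 : ℝ) ^ z) ^ θ ≤ L →
    (((range (2 ^ z)).filter fun x => x.Coprime M ∧ δ / 4 ≤ cd (FA z A) 1 β x ∧
      AN L (FA z A) (x + v) < δ / 8).card : ℝ) ≤
      512 * κ / δ ^ 2 * ((M.totient : ℝ) / M) * 2 ^ z

theorem FA_nonneg' (z : ℕ) (A : Finset ℕ) (x : ℕ) : 0 ≤ FA z A x := by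
  unfold FA
  split_ifs
  · exact Real.log_nonneg (one_le_pow₀ (by norm_num))
  · exact le_rfl

theorem cd_nonneg' {f : ℕ → ℝ} (hf : ∀ x, 0 ≤ f x) (M b x : ℕ) : 0 ≤ cd f M b x := by
  unfold cd
  exact mul_nonneg (by positivity) (sum_nonneg fun _ _ => hf _)

theorem main_fixed_of (hG : GoodSetS) (hE : EnMonoS) (hBN : BadNatS) (hBR : BadRealS)
    (ι ρ : Type) [Fintype ι] [Nonempty ι] [Fintype ρ] (δ : ℝ) (hδ : 0 < δ)
    (hδ1 : δ ≤ 1) :
    ∃ κ : ℝ, 0 < κ ∧ ∃ τ1 : ℝ, 0 < τ1 ∧ ∀ M M' : ℕ, 1 ≤ M → 1 ≤ M' → M ∣ M' →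
    M'.primeFactors = M.primeFactors → ∀ θ : ℝ, 0 < θ → ∃ z0 : ℕ, ∀ z : ℕ, z0 ≤ z →
    ∀ A : Finset ℕ, PS z A → δ * ((2 : ℝ) ^ z / Real.log ((2 : ℝ) ^ z)) ≤ A.card →
    ∀ β β1 : ℕ, β1 ≤ β → β ≤ z → ((2 : ℝ) ^ z) ^ θ ≤ 2 ^ β1 →
    En z A M' β1 + En z A 1 β1 ≤ En z A M β + En z A 1 β + κ →
    ∀ b v : ι → ℕ, (∀ i, β1 ≤ b i ∧ b i ≤ β ∧ M ∣ v i ∧
      (v i : ℝ) * ((2 : ℝ) ^ z) ^ θ ≤ 2 ^ β) →
    ∀ L w : ρ → ℕ, (∀ j, (w j : ℝ) * ((2 : ℝ) ^ z) ^ θ ≤ 2 ^ β ∧
      (L j : ℝ) * ((2 : ℝ) ^ z) ^ θ ≤ 2 ^ β ∧ 2 ^ β1 * ((2 : ℝ) ^ z) ^ θ ≤ L j) →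
    τ1 ≤ (∑ x ∈ range (2 ^ z), (∏ i, cd (FA z A) M' (b i) (x + v i)) *
      ∏ j, AN (L j) (FA z A) (x + w j)) / 2 ^ z := by
  obtain ⟨ω, hω, hgood⟩ := hG
  set m : ℝ := (Fintype.card ι : ℝ) + Fintype.card ρ + 1 with hm
  have hm0 : 0 < m := by positivity
  set κ : ℝ := ω * δ ^ 4 / (4096 * m) with hκ
  have hκ0 : 0 < κ := by positivity
  set τ1 : ℝ := ω * δ ^ 2 / 2 * (δ / 8) ^ (Fintype.card ι + Fintype.card ρ) with hτ
  have hτ0 : 0 < τ1 := by positivity
  exact by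
    refine ⟨κ, hκ0, τ1, hτ0, ?_⟩
    intro M M' hM hM' hMM hpf θ hθ
    set kap : ℝ := (M.totient : ℝ) / M with hkap
    have hk0 : 0 < kap := phi_ratio_pos hM
    have hk1 : kap ≤ 1 := phi_ratio_le_one hM
    obtain ⟨z1, h1⟩ := hgood δ hδ hδ1 M hM θ hθ
    obtain ⟨z2, h2⟩ := hE 1 1 le_rfl le_rfl dvd_rfl rfl θ κ hθ hκ0
    obtain ⟨z3, h3⟩ := hE M M' hM hM' hMM hpf θ κ hθ hκ0
    obtain ⟨z4, h4⟩ := hBN M M' hM hM' hMM hpf δ (2 * κ) θ hδ (by positivity) hθ
    obtain ⟨z5, h5⟩ := hBR M hM δ (2 * κ) θ hδ (by positivity) hθ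
    refine ⟨max z1 (max z2 (max z3 (max z4 z5))), ?_⟩
    intro z hz A hA hcA β β1 hβ1 hβ hθ1 hEn b v hbv L w hLw
    have hz' : z1 ≤ z ∧ z2 ≤ z ∧ z3 ≤ z ∧ z4 ≤ z ∧ z5 ≤ z := by
      simpa only [max_le_iff] using hz
    obtain ⟨hz1, hz2, hz3, hz4, hz5⟩ := hz'
    exact by
      have hθβ : ((2 : ℝ) ^ z) ^ θ ≤ 2 ^ β := hθ1.trans (pow_le_pow_right₀ (by norm_num) hβ1)
      have hZ : (0 : ℝ) < 2 ^ z := by positivity
      have g1 := h1 z hz1 A hA hcA β hβ hθβ
      have g2 := h2 z hz2 A hA β β1 hβ1 hβ hθ1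
      have g3 := h3 z hz3 A hA β β1 hβ1 hβ hθ1
      have e1 : En z A M' β1 ≤ En z A M β + 2 * κ := by linarith
      exact by
        have e2 : En z A 1 β1 ≤ En z A 1 β + 2 * κ := by linarith
        set F := FA z A with hF
        set G := gset z A M β δ with hGd
        -- the bad sets
        set BN : ι → Finset ℕ := fun i => (range (2 ^ z)).filter fun x => x.Coprime M ∧
            δ / 4 ≤ kap * cd F M β x ∧ kap * cd F M' (b i) (x + v i) < δ / 8 with hBNd
        set BR : ρ → Finset ℕ := fun j => (range (2 ^ z)).filter fun x => x.Coprime M ∧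
            δ / 4 ≤ cd F 1 β x ∧ AN (L j) F (x + w j) < δ / 8 with hBRd
        exact by
          have hBNc : ∀ i, ((BN i).card : ℝ) ≤ 1024 * κ / δ ^ 2 * kap * 2 ^ z := by
            intro i
            have := h4 z hz4 A hA β β1 (b i) (hbv i).1 (hbv i).2.1 hβ hθ1 e1 (v i) (hbv i).2.2.1
              (hbv i).2.2.2
            refine this.trans ?_
            refine mul_le_mul_of_nonneg_right (mul_le_mul_of_nonneg_right
              (div_le_div_of_nonneg_right (by linarith) (by positivity)) hk0.le) hZ.le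
          have hBRc : ∀ j, ((BR j).card : ℝ) ≤ 1024 * κ / δ ^ 2 * kap * 2 ^ z := by
            intro j
            have := h5 z hz5 A hA β β1 hβ1 hβ hθ1 e2 (w j) (L j) (hLw j).1 (hLw j).2.1 (hLw j).2.2
            refine this.trans ?_
            refine mul_le_mul_of_nonneg_right (mul_le_mul_of_nonneg_right
              (div_le_div_of_nonneg_right (by linarith) (by positivity)) hk0.le) hZ.le
          set R := G \ (univ.biUnion BN ∪ univ.biUnion BR) with hR
          have hRc : ω * δ ^ 2 / 2 * kap * 2 ^ z ≤ R.card := by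
            have c1 : (G.card : ℝ) ≤ R.card + (univ.biUnion BN ∪ univ.biUnion BR).card := by
              have : G.card ≤ R.card + (univ.biUnion BN ∪ univ.biUnion BR).card := by
                rw [hR]
                exact Finset.card_le_card_sdiff_add_card
              exact_mod_cast this
            have c2 : ((univ.biUnion BN ∪ univ.biUnion BR).card : ℝ) ≤
                (univ.biUnion BN).card + (univ.biUnion BR).card := by
              exact_mod_cast card_union_le _ _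
            have c3 : ((univ.biUnion BN).card : ℝ) ≤
                Fintype.card ι * (1024 * κ / δ ^ 2 * kap * 2 ^ z) := by
              have : ((univ.biUnion BN).card : ℝ) ≤ ∑ i, ((BN i).card : ℝ) := by
                exact_mod_cast card_biUnion_le
              refine this.trans ((sum_le_sum fun i _ => hBNc i).trans (le_of_eq ?_))
              rw [sum_const, card_univ, nsmul_eq_mul]
            have c4 : ((univ.biUnion BR).card : ℝ) ≤
                Fintype.card ρ * (1024 * κ / δ ^ 2 * kap * 2 ^ z) := by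
              have : ((univ.biUnion BR).card : ℝ) ≤ ∑ j, ((BR j).card : ℝ) := by
                exact_mod_cast card_biUnion_le
              refine this.trans ((sum_le_sum fun j _ => hBRc j).trans (le_of_eq ?_))
              rw [sum_const, card_univ, nsmul_eq_mul]
            have c5 : ((Fintype.card ι : ℝ) + Fintype.card ρ) * (1024 * κ / δ ^ 2 * kap * 2 ^ z) ≤
                ω * δ ^ 2 / 4 * kap * 2 ^ z := by
              have c6 : m * (1024 * κ / δ ^ 2 * kap * 2 ^ z) = ω * δ ^ 2 / 4 * kap * 2 ^ z := by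
                rw [hκ]
                field_simp
                norm_num
              rw [← c6]
              refine mul_le_mul_of_nonneg_right (by rw [hm]; linarith) (by positivity)
            have c7 : 0 < ω * δ ^ 2 * kap * 2 ^ z := by positivity
            have c8 : ω * δ ^ 2 * kap * 2 ^ z ≤ G.card := g1
            linarith
          -- the pointwise lower bound
          have hpt : ∀ x ∈ R, (δ / 8) ^ (Fintype.card ι + Fintype.card ρ) / kap ≤
              (∏ i, cd F M' (b i) (x + v i)) * ∏ j, AN (L j) F (x + w j) := by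
            intro x hx
            rw [hR, mem_sdiff, mem_union, not_or] at hx
            obtain ⟨hx1, hx2, hx3⟩ := hx
            rw [mem_biUnion] at hx2 hx3
            push Not at hx2 hx3
            rw [hGd, gset, mem_filter] at hx1
            obtain ⟨hx4, hx5, hx6, hx7⟩ := hx1
            have d1 : ∀ i, δ / 8 / kap ≤ cd F M' (b i) (x + v i) := by
              intro i
              have := hx2 i (mem_univ i)
              rw [hBNd, mem_filter] at this
              have h8 : δ / 8 ≤ kap * cd F M' (b i) (x + v i) := by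
                by_contra h9
                exact this ⟨hx4, hx5, hx6, not_le.mp h9⟩
              rwa [div_le_iff₀' hk0]
            have d2 : ∀ j, δ / 8 ≤ AN (L j) F (x + w j) := by
              intro j
              have := hx3 j (mem_univ j)
              rw [hBRd, mem_filter] at this
              by_contra h9
              exact this ⟨hx4, hx5, hx7, not_le.mp h9⟩
            have d3 : (δ / 8 / kap) ^ Fintype.card ι ≤ ∏ i, cd F M' (b i) (x + v i) := by
              have := prod_le_prod (s := (univ : Finset ι)) (f := fun _ => δ / 8 / kap)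
                (g := fun i => cd F M' (b i) (x + v i)) (fun _ _ => by positivity) fun i _ => d1 i
              rwa [prod_const, card_univ] at this
            have d4 : (δ / 8) ^ Fintype.card ρ ≤ ∏ j, AN (L j) F (x + w j) := by
              have := prod_le_prod (s := (univ : Finset ρ)) (f := fun _ => δ / 8)
                (g := fun j => AN (L j) F (x + w j)) (fun _ _ => by positivity) fun j _ => d2 j
              rwa [prod_const, card_univ] at this
            have d5 : (δ / 8) ^ Fintype.card ι / kap ≤ (δ / 8 / kap) ^ Fintype.card ι := by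
              rw [div_pow (δ / 8)]
              have d6 : kap ^ Fintype.card ι ≤ kap := pow_le_of_le_one hk0.le hk1 Fintype.card_ne_zero
              have d7 : 0 ≤ (δ / 8) ^ Fintype.card ι := by positivity
              exact div_le_div_of_nonneg_left d7 (pow_pos hk0 _) d6
            calc (δ / 8) ^ (Fintype.card ι + Fintype.card ρ) / kap
                = (δ / 8) ^ Fintype.card ι / kap * (δ / 8) ^ Fintype.card ρ := by
                  rw [pow_add]
                  ring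
              _ ≤ _ := mul_le_mul (d5.trans d3) d4 (by positivity)
                  (prod_nonneg fun i _ => cd_nonneg' (FA_nonneg' z A) _ _ _)
          have hsum : (R.card : ℝ) * ((δ / 8) ^ (Fintype.card ι + Fintype.card ρ) / kap) ≤
              ∑ x ∈ range (2 ^ z), (∏ i, cd F M' (b i) (x + v i)) * ∏ j, AN (L j) F (x + w j) := by
            rw [← nsmul_eq_mul]
            refine (card_nsmul_le_sum _ _ _ hpt).trans ?_
            refine sum_le_sum_of_subset_of_nonneg ?_ fun x _ _ => ?_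
            · intro x hx
              rw [hR, mem_sdiff, hGd, gset, mem_filter] at hx
              exact hx.1.1
            · exact mul_nonneg (prod_nonneg fun i _ => cd_nonneg' (FA_nonneg' z A) _ _ _)
                (prod_nonneg fun j _ => AN_nonneg' (FA_nonneg' z A) _ _)
          exact by
            rw [le_div_iff₀ hZ]
            refine le_trans ?_ hsum
            calc τ1 * 2 ^ z = ω * δ ^ 2 / 2 * kap * 2 ^ z *
                  ((δ / 8) ^ (Fintype.card ι + Fintype.card ρ) / kap) := by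
                  rw [hτ]
                  field_simp
              _ ≤ _ := mul_le_mul_of_nonneg_right hRc (by positivity)

end

end Pool.Agent.Helper82.NX3

end

section

set_option autoImplicit false

open Finset

open scoped BigOperators

namespace Pool.Agent.Helper57.NX3

noncomputable section

/-- sums over cells -/
theorem h51_cells {z b M : ℕ} (hb : b ≤ z) (g : ℕ → ℝ) (f : ℕ → ℝ) (c : ℝ)
    (h : ∀ x < 2 ^ z, |∑ y ∈ (blo b x).filter (fun y => y ≡ x [MOD M]), g y| ≤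
      c * ∑ y ∈ (blo b x).filter (fun y => y ≡ x [MOD M]), f y) :
    |∑ x ∈ range (2 ^ z), g x| ≤ c * ∑ x ∈ range (2 ^ z), f x := by
  classical
  set key : ℕ → ℕ × ℕ := fun x => (x / 2 ^ b, x % M) with hkey
  have hfib : ∀ x < 2 ^ z, (range (2 ^ z)).filter (fun y => key y = key x) =
      (blo b x).filter (fun y => y ≡ x [MOD M]) := by
    intro x hx
    ext y
    simp only [mem_filter, mem_range, hkey, Prod.mk.injEq, mem_blo, Nat.ModEq]
    constructor
    · rintro ⟨_, h1, h2⟩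
      exact ⟨h1, h2⟩
    · rintro ⟨h1, h2⟩
      exact ⟨h51_lt hb hx h1, h1, h2⟩
  have hmaps : ∀ x ∈ range (2 ^ z), key x ∈ (range (2 ^ z)).image key :=
    fun x hx => mem_image_of_mem _ hx
  rw [← sum_fiberwise_of_maps_to hmaps g, ← sum_fiberwise_of_maps_to hmaps f, mul_sum]
  refine (abs_sum_le_sum_abs _ _).trans (sum_le_sum fun k hk => ?_)
  obtain ⟨x, hx, rfl⟩ := mem_image.1 hk
  rw [hfib x (mem_range.1 hx)]
  exact h x (mem_range.1 hx)

theorem incr (M M' : ℕ) (hM : 1 ≤ M) (hM' : 1 ≤ M') (hMM : M ∣ M') (θ κ : ℝ) (hθ : 0 < θ)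
    (hκ : 0 < κ) : ∃ z0 : ℕ, ∀ z : ℕ, z0 ≤ z → ∀ A : Finset ℕ, PS z A → ∀ b b' : ℕ, b' ≤ b →
    b ≤ z → ((2 : ℝ) ^ z) ^ θ ≤ 2 ^ b' →
    (∑ x ∈ range (2 ^ z), (cd (FA z A) M' b' x - cd (FA z A) M b x) ^ 2) / 2 ^ z ≤
      (∑ x ∈ range (2 ^ z), cd (FA z A) M' b' x ^ 2) / 2 ^ z -
        (∑ x ∈ range (2 ^ z), cd (FA z A) M b x ^ 2) / 2 ^ z + κ := by
  obtain ⟨z1, hz1⟩ := h51_lim (8 * M') κ θ hθ hκ
  have hlim2 : ∃ z2 : ℕ, ∀ z : ℕ, z2 ≤ z → (M' : ℝ) ≤ ((2 : ℝ) ^ z) ^ θ := by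
    have h2 : Filter.Tendsto (fun z : ℕ => ((2 : ℝ) ^ z) ^ θ) Filter.atTop Filter.atTop :=
      (tendsto_rpow_atTop hθ).comp (tendsto_pow_atTop_atTop_of_one_lt (by norm_num))
    exact Filter.eventually_atTop.1 (h2.eventually_ge_atTop (M' : ℝ))
  obtain ⟨z2, hz2⟩ := hlim2
  refine ⟨max z1 z2, fun z hz A hA b b' hbb hbz hθb => ?_⟩
  exact by
    have hzz1 := hz1 z (le_trans (le_max_left _ _) hz)
    have hzz2 := hz2 z (le_trans (le_max_right _ _) hz)
    set f := FA z A with hf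
    set lz := Real.log ((2 : ℝ) ^ z) with hlz
    have hf0 : ∀ x, 0 ≤ f x := FA_nonneg z A
    have hf1 : ∀ x, f x ≤ lz := FA_le z A
    have hlz0 : 0 ≤ lz := (hf0 0).trans (hf1 0)
    exact by
      have hMM' : M ≤ M' := Nat.le_of_dvd hM' hMM
      have hMMr : (M : ℝ) ≤ M' := by exact_mod_cast hMM'
      have hb2 : (2 : ℝ) ^ b' ≤ 2 ^ b := pow_le_pow_right₀ (by norm_num) hbb
      have hMb : M ≤ 2 ^ b := by
        have : (M : ℝ) ≤ 2 ^ b := by (clear * - hθb hzz2 hMMr hb2; linarith)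
        exact_mod_cast this
      have hr : (M : ℝ) / 2 ^ b ≤ (M' : ℝ) / 2 ^ b' := by
        apply div_le_div₀ (by positivity) hMMr (by positivity) hb2
      -- the cross term
      have hcross : |∑ x ∈ range (2 ^ z), cd f M b x * (cd f M' b' x - cd f M b x)| ≤
          (4 * lz * ((M' : ℝ) / 2 ^ b')) * ∑ x ∈ range (2 ^ z), f x := by
        apply h51_cells (M := M) hbz
        intro x hx
        have h1 : ∑ y ∈ (blo b x).filter (fun y => y ≡ x [MOD M]),
            cd f M b y * (cd f M' b' y - cd f M b y) =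
            cd f M b x * (((∑ y ∈ (blo b x).filter (fun y => y ≡ x [MOD M]), cd f M' b' y) -
              ∑ y ∈ (blo b x).filter (fun y => y ≡ x [MOD M]), f y) -
              ((∑ y ∈ (blo b x).filter (fun y => y ≡ x [MOD M]), cd f M b y) -
              ∑ y ∈ (blo b x).filter (fun y => y ≡ x [MOD M]), f y)) := by
          rw [sub_sub_sub_cancel_right, ← sum_sub_distrib, mul_sum]
          refine sum_congr rfl fun y hy => ?_
          rw [mem_filter, mem_blo] at hy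
          rw [cd_congr f hy.1 hy.2]
        have h2 := sum_cd_cell hf0 hM hM' hMM hbb x
        have h3 := sum_cd_cell hf0 hM hM (dvd_refl M) (le_refl b) x
        have h4 : (0 : ℝ) ≤ ∑ y ∈ (blo b x).filter (fun y => y ≡ x [MOD M]), f y :=
          sum_nonneg fun y _ => hf0 y
        have h5 := cd_nonneg hf0 M b x
        have h6 := cd_le hf0 hf1 hM hMb x
        rw [h1, abs_mul, abs_of_nonneg h5]
        set S := ∑ y ∈ (blo b x).filter (fun y => y ≡ x [MOD M]), f y with hS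
        have h7 : |((∑ y ∈ (blo b x).filter (fun y => y ≡ x [MOD M]), cd f M' b' y) - S) -
              ((∑ y ∈ (blo b x).filter (fun y => y ≡ x [MOD M]), cd f M b y) - S)| ≤
              2 * ((M' : ℝ) / 2 ^ b' * S) := by
          refine (abs_sub _ _).trans ?_
          have h8 : (M : ℝ) / 2 ^ b * S ≤ (M' : ℝ) / 2 ^ b' * S :=
            mul_le_mul_of_nonneg_right hr h4
          (clear * - h2 h3 h8; linarith)
        calc cd f M b x * |((∑ y ∈ (blo b x).filter (fun y => y ≡ x [MOD M]), cd f M' b' y) - S) -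
              ((∑ y ∈ (blo b x).filter (fun y => y ≡ x [MOD M]), cd f M b y) - S)|
            ≤ (2 * lz) * (2 * ((M' : ℝ) / 2 ^ b' * S)) :=
              mul_le_mul h6 h7 (abs_nonneg _) (by (clear * - hlz0; positivity))
          _ = 4 * lz * ((M' : ℝ) / 2 ^ b') * S := by ring
      exact by
        have hsumF : ∑ x ∈ range (2 ^ z), f x ≤ lz * 2 ^ z := by
          calc ∑ x ∈ range (2 ^ z), f x ≤ ∑ x ∈ range (2 ^ z), lz := sum_le_sum fun x _ => hf1 x
            _ = lz * 2 ^ z := by simp [mul_comm]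
        have hexp : ∑ x ∈ range (2 ^ z), (cd f M' b' x - cd f M b x) ^ 2 =
            ∑ x ∈ range (2 ^ z), cd f M' b' x ^ 2 - ∑ x ∈ range (2 ^ z), cd f M b x ^ 2 -
            2 * ∑ x ∈ range (2 ^ z), cd f M b x * (cd f M' b' x - cd f M b x) := by
          rw [mul_sum, ← sum_sub_distrib, ← sum_sub_distrib]
          exact sum_congr rfl fun x _ => by ring
        have h2z : (0 : ℝ) < 2 ^ z := by positivity
        have hb'pos : (0 : ℝ) < 2 ^ b' := by positivity
        have hpos : (0 : ℝ) < ((2 : ℝ) ^ z) ^ θ := by positivity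
        have hbound : 2 * ((4 * lz * ((M' : ℝ) / 2 ^ b')) * ∑ x ∈ range (2 ^ z), f x) ≤ κ * 2 ^ z := by
          have h1 : (4 * lz * ((M' : ℝ) / 2 ^ b')) * ∑ x ∈ range (2 ^ z), f x ≤
              (4 * lz * ((M' : ℝ) / 2 ^ b')) * (lz * 2 ^ z) :=
            mul_le_mul_of_nonneg_left hsumF (by (clear * - hlz0 hM'; positivity))
          have h2 : (M' : ℝ) / 2 ^ b' ≤ M' / ((2 : ℝ) ^ z) ^ θ :=
            div_le_div_of_nonneg_left (by positivity) hpos hθb
          have h3 : (4 * lz * ((M' : ℝ) / 2 ^ b')) * (lz * 2 ^ z) ≤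
              (4 * lz * (M' / ((2 : ℝ) ^ z) ^ θ)) * (lz * 2 ^ z) := by
            apply mul_le_mul_of_nonneg_right _ (by (clear * - hlz0; positivity))
            exact mul_le_mul_of_nonneg_left h2 (by (clear * - hlz0; positivity))
          have h4 : 2 * ((4 * lz * (M' / ((2 : ℝ) ^ z) ^ θ)) * (lz * 2 ^ z)) =
              (8 * M' * lz ^ 2) / ((2 : ℝ) ^ z) ^ θ * 2 ^ z := by
            field_simp
            ring
          have h5 : (8 * M' * lz ^ 2) / ((2 : ℝ) ^ z) ^ θ ≤ κ := by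
            rw [div_le_iff₀ hpos]
            exact hzz1
          have h6 : (8 * M' * lz ^ 2) / ((2 : ℝ) ^ z) ^ θ * 2 ^ z ≤ κ * 2 ^ z :=
            mul_le_mul_of_nonneg_right h5 h2z.le
          (clear * - h1 h3 h4 h6; linarith)
        have hab := abs_le.1 hcross
        rw [hexp]
        have hfin : -(2 * ∑ x ∈ range (2 ^ z), cd f M b x * (cd f M' b' x - cd f M b x)) ≤ κ * 2 ^ z := by
          (clear * - hbound hab; linarith [hab.1])
        rw [← sub_div, div_le_iff₀ h2z, add_mul, div_mul_cancel₀ _ h2z.ne']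
        (clear * - hbound hab; linarith)

/-- energies are monotone, up to a small error -/
theorem en_mono (M M' : ℕ) (hM : 1 ≤ M) (hM' : 1 ≤ M') (hMM : M ∣ M')
    (hpf : M'.primeFactors = M.primeFactors) (θ κ : ℝ) (hθ : 0 < θ)
    (hκ : 0 < κ) : ∃ z0 : ℕ, ∀ z : ℕ, z0 ≤ z → ∀ A : Finset ℕ, PS z A → ∀ b b' : ℕ, b' ≤ b →
    b ≤ z → ((2 : ℝ) ^ z) ^ θ ≤ 2 ^ b' → En z A M b ≤ En z A M' b' + κ := by
  obtain ⟨z0, hz0⟩ := incr M M' hM hM' hMM θ κ hθ hκ
  refine ⟨z0, fun z hz A hA b b' hbb hbz hθb => ?_⟩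
  exact by
    have h1 := hz0 z hz A hA b b' hbb hbz hθb
    have h2 : 0 ≤ (∑ x ∈ range (2 ^ z), (cd (FA z A) M' b' x - cd (FA z A) M b x) ^ 2) / 2 ^ z := by
      apply div_nonneg (sum_nonneg fun x _ => sq_nonneg _) (by positivity)
    unfold En
    rw [phi_eq hM hM' hpf]
    have h3 : (0 : ℝ) ≤ (M.totient : ℝ) / M := by (clear * - hM; positivity)
    have h4 : (M.totient : ℝ) / M ≤ 1 := by
      rw [div_le_one (by exact_mod_cast hM)]
      exact_mod_cast Nat.totient_le M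
    have h5 : (∑ x ∈ range (2 ^ z), cd (FA z A) M b x ^ 2) / 2 ^ z ≤
        (∑ x ∈ range (2 ^ z), cd (FA z A) M' b' x ^ 2) / 2 ^ z + κ := by (clear * - h1 h2; linarith)
    calc (M.totient : ℝ) / M * ((∑ x ∈ range (2 ^ z), cd (FA z A) M b x ^ 2) / 2 ^ z)
        ≤ (M.totient : ℝ) / M * ((∑ x ∈ range (2 ^ z), cd (FA z A) M' b' x ^ 2) / 2 ^ z + κ) :=
          mul_le_mul_of_nonneg_left h5 h3
      _ = (M.totient : ℝ) / M * ((∑ x ∈ range (2 ^ z), cd (FA z A) M' b' x ^ 2) / 2 ^ z) +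
          (M.totient : ℝ) / M * κ := by ring
      _ ≤ (M.totient : ℝ) / M * ((∑ x ∈ range (2 ^ z), cd (FA z A) M' b' x ^ 2) / 2 ^ z) + κ := by
          have : (M.totient : ℝ) / M * κ ≤ 1 * κ := mul_le_mul_of_nonneg_right h4 hκ.le
          (clear * - this; linarith)

end

end Pool.Agent.Helper57.NX3

end

section

set_option autoImplicit false

open Finset

open scoped BigOperators

namespace Pool.Agent.Helper57.NX3

noncomputable section

theorem bad_nat (M M' : ℕ) (hM : 1 ≤ M) (hM' : 1 ≤ M') (hMM : M ∣ M')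
    (hpf : M'.primeFactors = M.primeFactors) (δ κ θ : ℝ) (hδ : 0 < δ) (hκ : 0 < κ) (hθ : 0 < θ) :
    ∃ z0 : ℕ, ∀ z : ℕ, z0 ≤ z → ∀ A : Finset ℕ, PS z A → ∀ β β1 b : ℕ, β1 ≤ b → b ≤ β → β ≤ z →
    ((2 : ℝ) ^ z) ^ θ ≤ 2 ^ β1 → En z A M' β1 ≤ En z A M β + κ →
    ∀ v : ℕ, M ∣ v → (v : ℝ) * ((2 : ℝ) ^ z) ^ θ ≤ 2 ^ β →
    (((range (2 ^ z)).filter fun x => x.Coprime M ∧
      δ / 4 ≤ (M.totient : ℝ) / M * cd (FA z A) M β x ∧
      (M.totient : ℝ) / M * cd (FA z A) M' b (x + v) < δ / 8).card : ℝ) ≤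
      256 * κ / δ ^ 2 * ((M.totient : ℝ) / M) * 2 ^ z :=
  Helper82.NX3.bad_nat_of incr en_mono M M' hM hM' hMM (phi_eq hM hM' hpf) δ κ θ hδ hκ hθ

end

end Pool.Agent.Helper57.NX3

end

section

set_option autoImplicit false

open Finset

open scoped BigOperators

namespace Pool.Agent.Helper57.NX3

noncomputable section

/-- the terms with a small block average -/
theorem gs_small {f : ℕ → ℝ} (hf : ∀ x, 0 ≤ f x) {M β z : ℕ} (hM : 1 ≤ M) (hβ : β ≤ z)
    {η : ℝ} (hη : 0 ≤ η) :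
    ∑ x ∈ (range (2 ^ z)).filter (fun x => x.Coprime M ∧ cd f 1 β x < η), cd f M β x ≤
      (1 + (M : ℝ) / 2 ^ β) * η * 2 ^ z := by
  have hz : (2 : ℕ) ^ z = 2 ^ β * 2 ^ (z - β) := by rw [← pow_add]; congr 1; omega
  have h2 : (0 : ℝ) < 2 ^ β := by positivity
  rw [Finset.sum_filter, hz, gs_blocks]
  have key : ∀ j ∈ range (2 ^ (z - β)), ∑ x ∈ Ico (2 ^ β * j) (2 ^ β * (j + 1)),
      (if x.Coprime M ∧ cd f 1 β x < η then cd f M β x else 0) ≤
      (1 + (M : ℝ) / 2 ^ β) * (2 ^ β * η) := by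
    intro j _
    have hdiv : (2 ^ β * j) / 2 ^ β = j := Nat.mul_div_cancel_left j (by positivity)
    have hblo : blo β (2 ^ β * j) = Ico (2 ^ β * j) (2 ^ β * (j + 1)) := by
      unfold blo; rw [hdiv]
    have hx : ∀ x ∈ Ico (2 ^ β * j) (2 ^ β * (j + 1)), cd f 1 β x = cd f 1 β (2 ^ β * j) := by
      intro x hx
      rw [← hblo, mem_blo] at hx
      exact cd_congr f hx (Nat.modEq_one)
    have hM1 : (0 : ℝ) ≤ 1 + (M : ℝ) / 2 ^ β := by (clear * - hM; positivity)
    by_cases hc : cd f 1 β (2 ^ β * j) < η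
    · calc ∑ x ∈ Ico (2 ^ β * j) (2 ^ β * (j + 1)),
            (if x.Coprime M ∧ cd f 1 β x < η then cd f M β x else 0)
          ≤ ∑ x ∈ Ico (2 ^ β * j) (2 ^ β * (j + 1)), (if x.Coprime M then cd f M β x else 0) := by
            apply Finset.sum_le_sum
            intro x _
            have h0 := cd_nonneg hf M β x
            split_ifs with h1 h2 h2
            · exact le_rfl
            · exact absurd h1.1 h2
            · exact h0
            · exact le_rfl
        _ = ∑ y ∈ (blo β (2 ^ β * j)).filter (fun y => y.Coprime M), cd f M β y := by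
            rw [hblo, Finset.sum_filter]
        _ ≤ (1 + (M : ℝ) / 2 ^ β) * ∑ y ∈ blo β (2 ^ β * j), f y := sum_cd_block hf hM _
        _ ≤ (1 + (M : ℝ) / 2 ^ β) * (2 ^ β * η) := by
            apply mul_le_mul_of_nonneg_left _ hM1
            rw [cd_one, div_lt_iff₀ h2] at hc
            (clear * - hc; linarith)
    · rw [Finset.sum_eq_zero]
      · (clear * - hM hη; positivity)
      · intro x hxx
        rw [if_neg]
        rintro ⟨_, h⟩
        rw [hx x hxx] at h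
        exact hc h
  calc _ ≤ ∑ j ∈ range (2 ^ (z - β)), (1 + (M : ℝ) / 2 ^ β) * (2 ^ β * η) :=
        Finset.sum_le_sum key
    _ = (1 + (M : ℝ) / 2 ^ β) * η * (2 ^ β * 2 ^ (z - β)) := by
        rw [Finset.sum_const, card_range, nsmul_eq_mul]; push_cast; ring
    _ = (1 + (M : ℝ) / 2 ^ β) * η * 2 ^ z := by
        rw [← pow_add]; congr 2; omega

end

end Pool.Agent.Helper57.NX3

end

section

set_option autoImplicit false

open Finset

open scoped BigOperators

namespace Pool.Agent.Helper57.NX3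

noncomputable section

/-- partial sums of `f - cd f 1 b` are small -/
lemma partial52 {f : ℕ → ℝ} {B : ℝ} (hf : ∀ x, 0 ≤ f x) (hB : ∀ x, f x ≤ B) (b n : ℕ) :
    |∑ i ∈ range n, (f i - cd f 1 b i)| ≤ 2 * B * 2 ^ b := by
  have hB0 : 0 ≤ B := (hf 0).trans (hB 0)
  have hK : 0 < 2 ^ b := by positivity
  have h0 : ∀ q : ℕ, ∑ i ∈ range (2 ^ b * q), (f i - cd f 1 b i) = 0 := by
    intro q
    induction q with
    | zero => simp
    | succ q ih =>
      rw [Nat.mul_succ, sum_range_add, ih, zero_add, sum_sub_distrib, sub_eq_zero]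
      have h1 : ∀ i ∈ range (2 ^ b), cd f 1 b (2 ^ b * q + i) =
          (∑ i ∈ range (2 ^ b), f (2 ^ b * q + i)) / 2 ^ b := by
        intro i hi
        rw [cd_one]
        congr 1
        have h2 : (2 ^ b * q + i) / 2 ^ b = q := by
          rw [Nat.mul_add_div hK, Nat.div_eq_of_lt (mem_range.1 hi), add_zero]
        unfold blo
        rw [h2, sum_Ico_eq_sum_range]
        congr 2
        rw [Nat.mul_succ, Nat.add_sub_cancel_left]
      rw [sum_congr rfl h1, sum_const, card_range, nsmul_eq_mul]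
      push_cast
      field_simp
  have h1 : n = 2 ^ b * (n / 2 ^ b) + n % 2 ^ b := (Nat.div_add_mod n (2 ^ b)).symm
  rw [h1, sum_range_add, h0, zero_add]
  refine (abs_sum_le_sum_abs _ _).trans ?_
  have h2 : ∀ i ∈ range (n % 2 ^ b), |f (2 ^ b * (n / 2 ^ b) + i) -
      cd f 1 b (2 ^ b * (n / 2 ^ b) + i)| ≤ 2 * B := by
    intro i _
    have e1 := cd_nonneg hf 1 b (2 ^ b * (n / 2 ^ b) + i)
    have e2 := cd_le hf hB (le_refl 1) (Nat.one_le_two_pow (n := b)) (2 ^ b * (n / 2 ^ b) + i)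
    have e3 := hf (2 ^ b * (n / 2 ^ b) + i)
    have e4 := hB (2 ^ b * (n / 2 ^ b) + i)
    rw [abs_le]
    constructor <;> (clear * - e2 e3 hB0 e1 e4; linarith)
  refine (sum_le_card_nsmul _ _ _ h2).trans ?_
  rw [card_range, nsmul_eq_mul, mul_comm]
  refine mul_le_mul_of_nonneg_left ?_ (by (clear * - hB0; positivity))
  exact_mod_cast (Nat.mod_lt n hK).le

/-- averages of `f` and of its block averages -/
lemma AN_block52 {f : ℕ → ℝ} {B : ℝ} (hf : ∀ x, 0 ≤ f x) (hB : ∀ x, f x ≤ B) (b L y : ℕ)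
    (hL : 1 ≤ L) : |AN L f y - AN L (cd f 1 b) y| ≤ 4 * B * 2 ^ b / L := by
  have hL0 : (0 : ℝ) < L := by exact_mod_cast hL
  unfold AN
  rw [← sub_div, abs_div, abs_of_pos hL0]
  refine div_le_div_of_nonneg_right ?_ hL0.le
  have h1 : ∑ t ∈ range L, f (y + t) - ∑ t ∈ range L, cd f 1 b (y + t) =
      ∑ i ∈ range (y + L), (f i - cd f 1 b i) - ∑ i ∈ range y, (f i - cd f 1 b i) := by
    rw [sum_range_add, add_sub_cancel_left, sum_sub_distrib]
  rw [h1]
  refine (abs_sub _ _).trans ?_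
  have h2 := partial52 hf hB b (y + L)
  have h3 := partial52 hf hB b y
  (clear * - h2 h3; linarith)

lemma core52 {f : ℕ → ℝ} {B : ℝ} (hf : ∀ x, 0 ≤ f x) (hB : ∀ x, f x ≤ B) (M v L b b1 z : ℕ)
    (hM : 1 ≤ M) (hL : 1 ≤ L) (hb : b ≤ z) (δ η : ℝ) (hδ : 0 < δ)
    (h1 : B * M / L ≤ δ / 80) (h2 : 4 * B * 2 ^ b1 / L ≤ η) :
    (((range (2 ^ z)).filter fun x => (x.Coprime M ∧ δ / 4 ≤ cd f 1 b x ∧
      AN L f (x + v) < δ / 8) ∧ M ≤ x % 2 ^ b ∧ x % 2 ^ b + v + L + M ≤ 2 ^ b).card : ℝ) ≤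
    (M.totient : ℝ) / M * ((80 / (9 * δ)) ^ 2 *
      (2 * ∑ x ∈ range (2 ^ z), (cd f 1 b1 x - cd f 1 b x) ^ 2 + 2 * η ^ 2 * 2 ^ z)) := by
  classical
  have hB0 : 0 ≤ B := (hf 0).trans (hB 0)
  have hL0 : (0 : ℝ) < L := by exact_mod_cast hL
  have hM0 : (0 : ℝ) < M := by exact_mod_cast hM
  have hη : 0 ≤ η := le_trans (by (clear * - hB0 hL; positivity)) h2
  obtain ⟨w, hw⟩ : ∃ w : ℕ → ℝ, w = fun x => cd f 1 b1 x - cd f 1 b x := ⟨_, rfl⟩
  obtain ⟨u, hu⟩ : ∃ u : ℕ → ℝ, u = fun x => cd f 1 b x - AN L f (x + v) := ⟨_, rfl⟩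
  obtain ⟨T, hT⟩ : ∃ T : Finset ℕ, T = (range (2 ^ z)).filter fun x => (x.Coprime M ∧
    δ / 4 ≤ cd f 1 b x ∧ AN L f (x + v) < δ / 8) ∧ M ≤ x % 2 ^ b ∧
    x % 2 ^ b + v + L + M ≤ 2 ^ b := ⟨_, rfl⟩
  rw [← hT]
  -- step A
  have hA : ∀ x ∈ NG52 z b v L, u x ^ 2 ≤ 2 * (AN L w (x + v)) ^ 2 + 2 * η ^ 2 := by
    intro x hx
    unfold NG52 at hx
    rw [mem_filter, mem_range] at hx
    have e1 : AN L (cd f 1 b) (x + v) = cd f 1 b x := by
      unfold AN
      have e2 : ∀ t ∈ range L, cd f 1 b (x + v + t) = cd f 1 b x := by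
        intro t ht
        have ht' := mem_range.1 ht
        refine cd_congr f ?_ (Nat.modEq_one)
        rw [add_assoc]
        exact div_add52 (by omega)
      rw [sum_congr rfl e2, sum_const, card_range, nsmul_eq_mul]
      (clear * - hL; field_simp)
    have e3 : AN L w (x + v) = AN L (cd f 1 b1) (x + v) - AN L (cd f 1 b) (x + v) := by
      unfold AN
      rw [hw, ← sub_div, ← sum_sub_distrib]
    have e4 := AN_block52 hf hB b1 L (x + v) hL
    have e5 : u x = -(AN L w (x + v)) - (AN L f (x + v) - AN L (cd f 1 b1) (x + v)) := by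
      rw [hu, e3, e1]
      ring
    have e6 := e4.trans h2
    obtain ⟨a, ha⟩ : ∃ a, a = AN L w (x + v) := ⟨_, rfl⟩
    obtain ⟨c, hc⟩ : ∃ c, c = AN L f (x + v) - AN L (cd f 1 b1) (x + v) := ⟨_, rfl⟩
    rw [e5, ← ha, ← hc]
    rw [← hc] at e6
    have e7 : c ^ 2 ≤ η ^ 2 := sq_le_sq' (abs_le.1 e6).1 (abs_le.1 e6).2
    (clear * - e7; nlinarith [sq_nonneg (a - c)])
  have hAB : ∑ x ∈ NG52 z b v L, u x ^ 2 ≤
      2 * ∑ x ∈ range (2 ^ z), w x ^ 2 + 2 * η ^ 2 * 2 ^ z := by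
    refine (sum_le_sum hA).trans ?_
    rw [sum_add_distrib, ← mul_sum, sum_const, nsmul_eq_mul]
    have e1 := sumsq52 w z b v L hb hL
    have e2 : ((NG52 z b v L).card : ℝ) ≤ 2 ^ z := by
      have := card_filter_le (range (2 ^ z)) (fun x => x % 2 ^ b + v + L ≤ 2 ^ b)
      rw [card_range] at this
      exact_mod_cast this
    have e3 : ((NG52 z b v L).card : ℝ) * (2 * η ^ 2) ≤ 2 ^ z * (2 * η ^ 2) :=
      mul_le_mul_of_nonneg_right e2 (by (clear * -; positivity))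
    (clear * - e1 e3; linarith)
  -- step C
  exact by
    obtain ⟨J, hJ⟩ : ∃ J : Finset ℕ, J = T.image (fun x => x / M) := ⟨_, rfl⟩
    have hC : T.card ≤ M.totient * J.card := by
      rw [hJ]
      refine card_le_mul_card_image T _ fun j _ => ?_
      have e1 := Nat.filter_coprime_Ico_eq_totient M (M * j)
      rw [← e1]
      refine card_le_card fun x hx => ?_
      rw [mem_filter, hT, mem_filter] at hx
      rw [mem_filter, mem_Ico]
      have e2 := Nat.div_add_mod x M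
      have e3 := Nat.mod_lt x hM
      rw [hx.2] at e2
      refine ⟨by omega, ?_⟩
      exact (hx.1.2.1.1).symm
    -- step D
    have hD : ∀ j ∈ J, ∀ x' ∈ Ico (M * j) (M * j + M), x' ∈ NG52 z b v L ∧ 9 * δ / 80 ≤ u x' := by
      intro j hj x' hx'
      rw [hJ, mem_image] at hj
      obtain ⟨x, hx, hxj⟩ := hj
      rw [hT, mem_filter, mem_range] at hx
      obtain ⟨hxz, ⟨_, hx1, hx2⟩, hx3, hx4⟩ := hx
      rw [mem_Ico] at hx'
      have e2 := Nat.div_add_mod x M
      have e3 := Nat.mod_lt x hM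
      rw [hxj] at e2
      have hK : 0 < 2 ^ b := by positivity
      have e4 := Nat.div_add_mod x (2 ^ b)
      -- same block
      have e5 : x' / 2 ^ b = x / 2 ^ b ∧ x' % 2 ^ b + v + L ≤ 2 ^ b := by
        have f1 : x' = 2 ^ b * (x / 2 ^ b) + (x % 2 ^ b + x' - x) := by omega
        have f2 : x % 2 ^ b + x' - x < 2 ^ b := by omega
        have f3 : x' / 2 ^ b = x / 2 ^ b := by
          conv_lhs => rw [f1]
          rw [Nat.mul_add_div hK, Nat.div_eq_of_lt f2, add_zero]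
        have f4 : x' % 2 ^ b = x % 2 ^ b + x' - x := by
          conv_lhs => rw [f1]
          rw [Nat.mul_add_mod, Nat.mod_eq_of_lt f2]
        refine ⟨f3, ?_⟩
        rw [f4]
        omega
      have e6 : |AN L f (x' + v) - AN L f (x + v)| ≤ δ / 80 := by
        refine le_trans ?_ h1
        rcases le_total x x' with hle | hle
        · obtain ⟨t, rfl⟩ := Nat.exists_eq_add_of_le hle
          have g1 := AN_step hf hB hL (x + v) t
          rw [show x + v + t = x + t + v by ring] at g1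
          refine g1.trans (div_le_div_of_nonneg_right (mul_le_mul_of_nonneg_left ?_ hB0) hL0.le)
          have : t ≤ M := by omega
          exact_mod_cast this
        · obtain ⟨t, rfl⟩ := Nat.exists_eq_add_of_le hle
          have g1 := AN_step hf hB hL (x' + v) t
          rw [show x' + v + t = x' + t + v by ring, abs_sub_comm] at g1
          refine g1.trans (div_le_div_of_nonneg_right (mul_le_mul_of_nonneg_left ?_ hB0) hL0.le)
          have : t ≤ M := by omega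
          exact_mod_cast this
      refine ⟨?_, ?_⟩
      · unfold NG52
        rw [mem_filter, mem_range]
        exact ⟨same_block52 hb hxz e5.1, e5.2⟩
      · rw [hu]
        have e7 : cd f 1 b x' = cd f 1 b x := cd_congr f e5.1 Nat.modEq_one
        have e8 := (abs_le.1 e6).2
        simp only [e7]
        (clear * - hx1 hx2 e8; linarith)
    have hE : (J.card : ℝ) * (M * (9 * δ / 80) ^ 2) ≤ ∑ x ∈ NG52 z b v L, u x ^ 2 := by
      have e1 : ∑ x ∈ (NG52 z b v L).filter (fun x => x / M ∈ J), u x ^ 2 =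
          ∑ j ∈ J, ∑ x ∈ ((NG52 z b v L).filter (fun x => x / M ∈ J)).filter (fun x => x / M = j),
            u x ^ 2 := by
        rw [sum_fiberwise_of_maps_to]
        intro x hx
        exact (mem_filter.1 hx).2
      have e2 : ∀ j ∈ J, M * (9 * δ / 80) ^ 2 ≤
          ∑ x ∈ ((NG52 z b v L).filter (fun x => x / M ∈ J)).filter (fun x => x / M = j), u x ^ 2 := by
        intro j hj
        have e3 : Ico (M * j) (M * j + M) ⊆
            ((NG52 z b v L).filter (fun x => x / M ∈ J)).filter (fun x => x / M = j) := by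
          intro x hx
          have e4 := (hD j hj x hx).1
          have e5 : x / M = j := by
            rw [mem_Ico] at hx
            obtain ⟨t, rfl⟩ := Nat.exists_eq_add_of_le hx.1
            rw [Nat.mul_add_div hM, Nat.div_eq_of_lt (by omega), add_zero]
          rw [mem_filter, mem_filter]
          exact ⟨⟨e4, by rw [e5]; exact hj⟩, e5⟩
        refine le_trans ?_ (sum_le_sum_of_subset_of_nonneg e3 fun _ _ _ => sq_nonneg _)
        have e6 : ∀ x ∈ Ico (M * j) (M * j + M), (9 * δ / 80) ^ 2 ≤ u x ^ 2 := fun x hx =>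
          pow_le_pow_left₀ (by positivity) (hD j hj x hx).2 2
        refine le_trans (le_of_eq ?_) (card_nsmul_le_sum _ _ _ e6)
        rw [Nat.card_Ico, Nat.add_sub_cancel_left, nsmul_eq_mul]
      calc (J.card : ℝ) * (M * (9 * δ / 80) ^ 2) = J.card • (M * (9 * δ / 80) ^ 2) := by
            rw [nsmul_eq_mul]
        _ ≤ _ := card_nsmul_le_sum _ _ _ e2
        _ = ∑ x ∈ (NG52 z b v L).filter (fun x => x / M ∈ J), u x ^ 2 := e1.symm
        _ ≤ _ := sum_le_sum_of_subset_of_nonneg (filter_subset _ _) fun _ _ _ => sq_nonneg _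
    have hF := hE.trans hAB
    rw [hw] at hF
    have hC' : (T.card : ℝ) ≤ M.totient * J.card := by exact_mod_cast hC
    obtain ⟨R, hR⟩ : ∃ R : ℝ, R = 2 * ∑ x ∈ range (2 ^ z), (cd f 1 b1 x - cd f 1 b x) ^ 2 +
      2 * η ^ 2 * 2 ^ z := ⟨_, rfl⟩
    rw [← hR]
    have hF' : (J.card : ℝ) * (M * (9 * δ / 80) ^ 2) ≤ R := by rw [hR]; exact hF
    exact by
      have hG : (J.card : ℝ) ≤ (80 / (9 * δ)) ^ 2 * R / M := by
        rw [le_div_iff₀ hM0]
        have e1 : (80 / (9 * δ)) ^ 2 * (9 * δ / 80) ^ 2 = 1 := by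
          rw [← mul_pow]
          have : 80 / (9 * δ) * (9 * δ / 80) = 1 := by (clear * - hδ; field_simp)
          rw [this, one_pow]
        calc (J.card : ℝ) * M = ((80 / (9 * δ)) ^ 2 * (9 * δ / 80) ^ 2) * (J.card * M) := by
              rw [e1, one_mul]
          _ = (80 / (9 * δ)) ^ 2 * (J.card * (M * (9 * δ / 80) ^ 2)) := by ring
          _ ≤ (80 / (9 * δ)) ^ 2 * R := mul_le_mul_of_nonneg_left hF' (by positivity)
      calc (T.card : ℝ) ≤ M.totient * J.card := hC'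
        _ ≤ M.totient * ((80 / (9 * δ)) ^ 2 * R / M) := mul_le_mul_of_nonneg_left hG (Nat.cast_nonneg _)
        _ = (M.totient : ℝ) / M * ((80 / (9 * δ)) ^ 2 * R) := by ring

/-- C7 from the energy increment (C4) -/
theorem bad_real_of (hincr : ∀ θ κ : ℝ, 0 < θ → 0 < κ → ∃ z0 : ℕ, ∀ z : ℕ, z0 ≤ z →
      ∀ A : Finset ℕ, PS z A → ∀ b b' : ℕ, b' ≤ b → b ≤ z → ((2 : ℝ) ^ z) ^ θ ≤ 2 ^ b' →
      (∑ x ∈ range (2 ^ z), (cd (FA z A) 1 b' x - cd (FA z A) 1 b x) ^ 2) / 2 ^ z ≤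
        (∑ x ∈ range (2 ^ z), cd (FA z A) 1 b' x ^ 2) / 2 ^ z -
          (∑ x ∈ range (2 ^ z), cd (FA z A) 1 b x ^ 2) / 2 ^ z + κ)
    (M : ℕ) (hM : 1 ≤ M) (δ κ θ : ℝ) (hδ : 0 < δ) (hκ : 0 < κ) (hθ : 0 < θ) :
    ∃ z0 : ℕ, ∀ z : ℕ, z0 ≤ z → ∀ A : Finset ℕ, PS z A → ∀ β β1 : ℕ, β1 ≤ β → β ≤ z →
    ((2 : ℝ) ^ z) ^ θ ≤ 2 ^ β1 → En z A 1 β1 ≤ En z A 1 β + κ →
    ∀ v L : ℕ, (v : ℝ) * ((2 : ℝ) ^ z) ^ θ ≤ 2 ^ β → (L : ℝ) * ((2 : ℝ) ^ z) ^ θ ≤ 2 ^ β →
    2 ^ β1 * ((2 : ℝ) ^ z) ^ θ ≤ L →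
    (((range (2 ^ z)).filter fun x => x.Coprime M ∧ δ / 4 ≤ cd (FA z A) 1 β x ∧
      AN L (FA z A) (x + v) < δ / 8).card : ℝ) ≤
      512 * κ / δ ^ 2 * ((M.totient : ℝ) / M) * 2 ^ z := by
  obtain ⟨z1, hz1⟩ := hincr θ (κ / 4) hθ (by (clear * - hκ; positivity))
  have hM0 : (0 : ℝ) < M := by exact_mod_cast hM
  have hφ0 : 0 < (M.totient : ℝ) / M := by
    have : 0 < M.totient := Nat.totient_pos.2 hM
    (clear * - hM; positivity)
  obtain ⟨φ, hφ⟩ : ∃ φ : ℝ, φ = (M.totient : ℝ) / M := ⟨_, rfl⟩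
  rw [← hφ] at hφ0 ⊢
  -- `log Z * Z ^ (-θ) → 0`
  have hlim : Filter.Tendsto (fun z : ℕ => Real.log ((2 : ℝ) ^ z) * ((2 : ℝ) ^ z) ^ (-θ))
      Filter.atTop (nhds 0) := by
    have h1 : Filter.Tendsto (fun x : ℝ => Real.log x * x ^ (-θ)) Filter.atTop (nhds 0) := by
      have h2 := (isLittleO_log_rpow_atTop hθ).tendsto_div_nhds_zero
      refine h2.congr' ?_
      filter_upwards [Filter.eventually_gt_atTop 0] with x hx
      rw [Real.rpow_neg hx.le]
      rfl
    exact h1.comp (tendsto_pow_atTop_atTop_of_one_lt (by norm_num : (1 : ℝ) < 2))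
  have hlim2 : Filter.Tendsto (fun z : ℕ => ((2 : ℝ) ^ z) ^ (-θ)) Filter.atTop (nhds 0) :=
    (tendsto_rpow_neg_atTop hθ).comp (tendsto_pow_atTop_atTop_of_one_lt (by norm_num : (1 : ℝ) < 2))
  obtain ⟨e1, he1⟩ : ∃ e1 : ℝ, e1 = min (δ / (80 * M)) (Real.sqrt κ / 8) := ⟨_, rfl⟩
  have he10 : 0 < e1 := by rw [he1]; positivity
  obtain ⟨e2, he2⟩ : ∃ e2 : ℝ, e2 = κ / δ ^ 2 * φ / (2 + 2 * M) := ⟨_, rfl⟩
  have he20 : 0 < e2 := by rw [he2]; positivity
  exact by
    have hev := (hlim.eventually (ge_mem_nhds he10)).and (hlim2.eventually (ge_mem_nhds he20))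
    obtain ⟨z2, hz2⟩ := Filter.eventually_atTop.1 hev
    refine ⟨max z1 z2, ?_⟩
    intro z hz A hA β β1 hβ1 hβz hθβ hEn v L hv hL1 hL2
    obtain ⟨h3, h4⟩ := hz2 z ((le_max_right _ _).trans hz)
    have hinc := hz1 z ((le_max_left _ _).trans hz) A hA β β1 hβ1 hβz hθβ
    obtain ⟨lz, hlz⟩ : ∃ lz : ℝ, lz = Real.log ((2 : ℝ) ^ z) := ⟨_, rfl⟩
    obtain ⟨Zt, hZt⟩ : ∃ Zt : ℝ, Zt = ((2 : ℝ) ^ z) ^ θ := ⟨_, rfl⟩
    have hZt0 : 0 < Zt := by rw [hZt]; positivity
    have hneg : ((2 : ℝ) ^ z) ^ (-θ) = Zt⁻¹ := by rw [hZt, Real.rpow_neg (by positivity)]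
    rw [hneg, ← hlz] at h3
    rw [hneg] at h4
    rw [← hZt] at hθβ hv hL1 hL2
    have hlz0 : 0 ≤ lz := by
      rw [hlz]
      exact Real.log_nonneg (one_le_pow₀ (by norm_num))
    have h1β1 : (1 : ℝ) ≤ 2 ^ β1 := one_le_pow₀ (by norm_num)
    exact by
      have hLpos : (0 : ℝ) < L := lt_of_lt_of_le (by (clear * - hZt0; positivity)) hL2
      have hL : 1 ≤ L := by
        have : 0 < L := by exact_mod_cast hLpos
        omega
      have hLZ : Zt ≤ L := le_trans (le_mul_of_one_le_left hZt0.le h1β1) hL2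
      have hf := FA_nonneg z A
      have hB : ∀ x, FA z A x ≤ lz := by rw [hlz]; exact FA_le z A
      -- the two smallness conditions
      have hlM : lz * M / L ≤ δ / 80 := by
        have g1 : lz * Zt⁻¹ ≤ δ / (80 * M) := h3.trans (by rw [he1]; exact min_le_left _ _)
        have g2 : lz * M / L ≤ lz * M / Zt := div_le_div_of_nonneg_left (by (clear * - hlz0 hM; positivity)) hZt0 hLZ
        refine g2.trans ?_
        have g3 : lz * M / Zt = (lz * Zt⁻¹) * M := by ring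
        rw [g3]
        calc (lz * Zt⁻¹) * M ≤ δ / (80 * M) * M := mul_le_mul_of_nonneg_right g1 hM0.le
          _ = δ / 80 := by field_simp
      exact by
        have hη : 4 * lz * 2 ^ β1 / L ≤ Real.sqrt κ / 2 := by
          have g1 : lz * Zt⁻¹ ≤ Real.sqrt κ / 8 := h3.trans (by rw [he1]; exact min_le_right _ _)
          have g2 : 2 ^ β1 / (L : ℝ) ≤ Zt⁻¹ := by
            rw [div_le_iff₀ hLpos, inv_mul_eq_div, le_div_iff₀ hZt0]
            exact hL2
          calc 4 * lz * 2 ^ β1 / L = 4 * (lz * (2 ^ β1 / L)) := by ring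
            _ ≤ 4 * (lz * Zt⁻¹) := by (clear * - g2 hlz0; gcongr)
            _ ≤ 4 * (Real.sqrt κ / 8) := by (clear * - g1; gcongr)
            _ = Real.sqrt κ / 2 := by ring
        have hcore := core52 hf hB M v L β β1 z hM hL hβz δ (Real.sqrt κ / 2) hδ hlM hη
        rw [← hφ] at hcore
        -- the energy increment
        have hsum : ∑ x ∈ range (2 ^ z), (cd (FA z A) 1 β1 x - cd (FA z A) 1 β x) ^ 2 ≤
            5 / 4 * κ * 2 ^ z := by
          unfold En at hEn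
          simp only [Nat.totient_one, Nat.cast_one, div_one, one_mul] at hEn
          have g1 := hinc.trans (show _ ≤ 5 / 4 * κ by (clear * - hEn; linarith))
          rwa [div_le_iff₀ (by positivity)] at g1
        have hsq : (Real.sqrt κ / 2) ^ 2 = κ / 4 := by
          rw [div_pow, Real.sq_sqrt hκ.le]
          norm_num
        rw [hsq] at hcore
        have hends := ends52 z β (v + L) M hβz
        -- the exceptional points
        have hexc : ((v + L : ℕ) + 2 * (M : ℝ)) * (2 ^ z / 2 ^ β) ≤ κ / δ ^ 2 * φ * 2 ^ z := by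
          have hββ : (2 : ℝ) ^ β1 ≤ 2 ^ β := pow_le_pow_right₀ (by norm_num) hβ1
          have g1 : (v : ℝ) / 2 ^ β ≤ Zt⁻¹ := by
            rw [div_le_iff₀ (by positivity), inv_mul_eq_div, le_div_iff₀ hZt0]
            exact hv
          have g2 : (L : ℝ) / 2 ^ β ≤ Zt⁻¹ := by
            rw [div_le_iff₀ (by positivity), inv_mul_eq_div, le_div_iff₀ hZt0]
            exact hL1
          have g3 : 1 / (2 : ℝ) ^ β ≤ Zt⁻¹ := by
            rw [one_div]
            exact inv_anti₀ hZt0 (hθβ.trans hββ)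
          calc ((v + L : ℕ) + 2 * (M : ℝ)) * (2 ^ z / 2 ^ β) =
                ((v : ℝ) / 2 ^ β + (L : ℝ) / 2 ^ β + 2 * M * (1 / 2 ^ β)) * 2 ^ z := by
                push_cast; ring
            _ ≤ (Zt⁻¹ + Zt⁻¹ + 2 * M * Zt⁻¹) * 2 ^ z := by (clear * - g1 g2 g3 hM; gcongr)
            _ = (2 + 2 * M) * Zt⁻¹ * 2 ^ z := by ring
            _ ≤ (2 + 2 * M) * e2 * 2 ^ z := by (clear * - h4 hM; gcongr)
            _ = κ / δ ^ 2 * φ * 2 ^ z := by rw [he2]; (clear * - hM hφ0 hδ hκ; field_simp)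
        -- final count
        have hsplit : (range (2 ^ z)).filter (fun x => x.Coprime M ∧ δ / 4 ≤ cd (FA z A) 1 β x ∧
            AN L (FA z A) (x + v) < δ / 8) ⊆
            ((range (2 ^ z)).filter fun x => (x.Coprime M ∧ δ / 4 ≤ cd (FA z A) 1 β x ∧
              AN L (FA z A) (x + v) < δ / 8) ∧ M ≤ x % 2 ^ β ∧ x % 2 ^ β + v + L + M ≤ 2 ^ β) ∪
            ((range (2 ^ z)).filter fun x => ¬ (M ≤ x % 2 ^ β ∧ x % 2 ^ β + (v + L) + M ≤ 2 ^ β)) := by
          intro x hx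
          rw [mem_filter] at hx
          rw [mem_union, mem_filter, mem_filter]
          by_cases hc : M ≤ x % 2 ^ β ∧ x % 2 ^ β + (v + L) + M ≤ 2 ^ β
          · exact Or.inl ⟨hx.1, hx.2, hc.1, by have := hc.2; omega⟩
          · exact Or.inr ⟨hx.1, hc⟩
        exact by
          have hcard := (card_le_card hsplit).trans (card_union_le _ _)
          have hcard' : (((range (2 ^ z)).filter (fun x => x.Coprime M ∧ δ / 4 ≤ cd (FA z A) 1 β x ∧
              AN L (FA z A) (x + v) < δ / 8)).card : ℝ) ≤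
              (((range (2 ^ z)).filter fun x => (x.Coprime M ∧ δ / 4 ≤ cd (FA z A) 1 β x ∧
                AN L (FA z A) (x + v) < δ / 8) ∧ M ≤ x % 2 ^ β ∧ x % 2 ^ β + v + L + M ≤ 2 ^ β).card : ℝ) +
              (((range (2 ^ z)).filter fun x =>
                ¬ (M ≤ x % 2 ^ β ∧ x % 2 ^ β + (v + L) + M ≤ 2 ^ β)).card : ℝ) := by
            exact_mod_cast hcard
          refine hcard'.trans ((add_le_add hcore (hends.trans hexc)).trans ?_)
          have hfin : (80 / (9 * δ)) ^ 2 * (2 * ∑ x ∈ range (2 ^ z),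
              (cd (FA z A) 1 β1 x - cd (FA z A) 1 β x) ^ 2 + 2 * (κ / 4) * 2 ^ z) ≤
              (80 / (9 * δ)) ^ 2 * (3 * κ * 2 ^ z) := by
            refine mul_le_mul_of_nonneg_left ?_ (by positivity)
            (clear * - hsum; linarith)
          have hfin2 : (80 / (9 * δ)) ^ 2 * (3 * κ * 2 ^ z) ≤ 511 * (κ / δ ^ 2) * 2 ^ z := by
            have g1 : (80 / (9 * δ)) ^ 2 * (3 * κ * 2 ^ z) = 6400 * 3 / 81 * (κ / δ ^ 2) * 2 ^ z := by
              field_simp
              norm_num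
            rw [g1]
            have : 0 ≤ κ / δ ^ 2 * 2 ^ z := by positivity
            (clear * - this; nlinarith)
          have hfin3 := mul_le_mul_of_nonneg_left (hfin.trans hfin2) hφ0.le
          have hfin4 : φ * (511 * (κ / δ ^ 2) * 2 ^ z) + κ / δ ^ 2 * φ * 2 ^ z =
              512 * κ / δ ^ 2 * φ * 2 ^ z := by ring
          (clear * - hfin3 hfin4; linarith)

end

end Pool.Agent.Helper57.NX3

end

section

set_option autoImplicit false

open Finset

open scoped BigOperators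

namespace Pool.Agent.Helper57.NX3

noncomputable section

theorem bad_real (M : ℕ) (hM : 1 ≤ M) (δ κ θ : ℝ) (hδ : 0 < δ) (hκ : 0 < κ) (hθ : 0 < θ) :
    ∃ z0 : ℕ, ∀ z : ℕ, z0 ≤ z → ∀ A : Finset ℕ, PS z A → ∀ β β1 : ℕ, β1 ≤ β → β ≤ z →
    ((2 : ℝ) ^ z) ^ θ ≤ 2 ^ β1 → En z A 1 β1 ≤ En z A 1 β + κ →
    ∀ v L : ℕ, (v : ℝ) * ((2 : ℝ) ^ z) ^ θ ≤ 2 ^ β → (L : ℝ) * ((2 : ℝ) ^ z) ^ θ ≤ 2 ^ β →
    2 ^ β1 * ((2 : ℝ) ^ z) ^ θ ≤ L →
    (((range (2 ^ z)).filter fun x => x.Coprime M ∧ δ / 4 ≤ cd (FA z A) 1 β x ∧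
      AN L (FA z A) (x + v) < δ / 8).card : ℝ) ≤
      512 * κ / δ ^ 2 * ((M.totient : ℝ) / M) * 2 ^ z :=
  bad_real_of (fun θ κ hθ hκ => incr 1 1 le_rfl le_rfl (dvd_refl 1) θ κ hθ hκ) M hM δ κ θ hδ hκ hθ

end

end Pool.Agent.Helper57.NX3

end
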