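import Pool.Agent.Helper23.MC.L00_a0
import Pool.Agent.Helper23.MC.L00_a1
import Pool.Agent.Helper23.MC.L00_a11
import Pool.Agent.Helper23.MC.L00_a12
import Pool.Agent.Helper23.MC.L00_a13
import Pool.Agent.Helper23.MC.L00_a2
import Pool.Agent.Helper23.MC.L00_a3
import Pool.Agent.Helper23.MC.L00_a4
import Pool.Agent.Helper23.MC.L00_a5
import Pool.Agent.Helper23.MC.L00_a6
import Pool.Agent.Helper23.MC.L00_a8

/-!
Parts of Helper57.NX.Defs, Helper99.NX.LpLocalAux, Helper73.NX2.LpLocalAux, Helper59.NX2.BaseRatlA, Helper53.NX2.Cells, Helper46.NX2.PrimesModelOf, Helper80.NX2.GmAp, Helper81.NX2.GmMomentA, Helper81.NX2.GmMomentB, Helper81.NX2.GmMoment, Helper44.MertensProd, Helper84.NX2.RoughSum, Helper92.NX2.Stage12Of, Helper83.NX2.CellLe, Helper67.NX2.PartB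
-/

attribute [local instance 5000]
  Pool.Agent.Helper23.MC.Inst.rCharZero Pool.Agent.Helper23.MC.Inst.rALM
  Pool.Agent.Helper23.MC.Inst.rARM Pool.Agent.Helper23.MC.Inst.rALSM
  Pool.Agent.Helper23.MC.Inst.rARSM Pool.Agent.Helper23.MC.Inst.rARRLE
  Pool.Agent.Helper23.MC.Inst.rALRLE Pool.Agent.Helper23.MC.Inst.rARRLT
  Pool.Agent.Helper23.MC.Inst.rALRLT Pool.Agent.Helper23.MC.Inst.rPMRLT
  Pool.Agent.Helper23.MC.Inst.rMPRLT Pool.Agent.Helper23.MC.Inst.rPMM
  Pool.Agent.Helper23.MC.Inst.rMPM Pool.Agent.Helper23.MC.Inst.rPMSM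
  Pool.Agent.Helper23.MC.Inst.rMPSM Pool.Agent.Helper23.MC.Inst.rEAOL
  Pool.Agent.Helper23.MC.Inst.rIOR Pool.Agent.Helper23.MC.Inst.rISOR
  Pool.Agent.Helper23.MC.Inst.rNZD Pool.Agent.Helper23.MC.Inst.rcCharZero
  Pool.Agent.Helper23.MC.Inst.rcNZD Pool.Agent.Helper23.MC.Inst.zCharZero
  Pool.Agent.Helper23.MC.Inst.zALM Pool.Agent.Helper23.MC.Inst.zARM
  Pool.Agent.Helper23.MC.Inst.zALSM Pool.Agent.Helper23.MC.Inst.zARSM
  Pool.Agent.Helper23.MC.Inst.zIOR Pool.Agent.Helper23.MC.Inst.zISOR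
  Pool.Agent.Helper23.MC.Inst.zNZD Pool.Agent.Helper23.MC.Inst.qCharZero
  Pool.Agent.Helper23.MC.Inst.mR Pool.Agent.Helper23.MC.Inst.mC Pool.Agent.Helper23.MC.Inst.mRC
  Pool.Agent.Helper23.MC.Inst.rPSM Pool.Agent.Helper23.MC.Inst.rCSM
  Pool.Agent.Helper23.MC.Inst.cAdd Pool.Agent.Helper23.MC.Inst.cAddM
  Pool.Agent.Helper23.MC.Inst.cMul Pool.Agent.Helper23.MC.Inst.cMon

namespace Pool.Agent.Helper57.NX
end Pool.Agent.Helper57.NX
namespace Pool.Agent.Helper67.NX2
end Pool.Agent.Helper67.NX2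
namespace Pool.Agent.Helper67.NX2.B8
end Pool.Agent.Helper67.NX2.B8
namespace Pool.Agent.Helper92.NX2
end Pool.Agent.Helper92.NX2

section

set_option autoImplicit false

open Finset

open scoped BigOperators ComplexConjugate

namespace Pool.Agent.Helper57.NX

noncomputable section

namespace Sys

variable {m : ℕ}

/-- change the interval -/
def sub (S : Sys m) (u T : ℕ) : Sys m := ⟨S.D, S.ρ, S.Q, u, T, S.P⟩

end Sys

end

end Pool.Agent.Helper57.NX

end

section

set_option autoImplicit false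

open Finset

open scoped BigOperators ComplexConjugate

namespace Pool.Agent.Helper57.NX

noncomputable section

/-- the average over a cell -/
def lplE2 {m N : ℕ} (S : Sys (m + 1)) (c : Fin (m + 1) → ℝ) (f0 : ZMod N → ℂ)
    (f : Fin m → ZMod N → ℂ) (X L κ : ℕ) (z : ZMod N) (cc : ℕ → ℂ) (φ : ℕ → ℝ) (ϑ : ℝ)
    (u' T' : ℕ) : ℂ :=
  𝔼 k ∈ Ico u' (u' + T'), 𝔼 y ∈ range L,
    f0 (z + (y : ZMod N)) * (∏ i : Fin m, f i (z + (y : ZMod N) + (S.a c i.castSucc k : ZMod N))) *
    (cpf X L κ cc φ ϑ (y + (S.a c (Fin.last m) k - S.a c (Fin.last m) u').toNat) *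
      e (ϑ * ((y : ℝ) + ((S.a c (Fin.last m) k - S.a c (Fin.last m) u').toNat : ℝ))))

theorem lpl_cell {m N : ℕ} [NeZero N] (S : Sys (m + 1)) (c : Fin (m + 1) → ℝ) (η : ℝ)
    (hη : 0 < η) (X q0 T' Bd : ℕ) (hX : 1 ≤ X) (hq0 : 1 ≤ q0) (hT' : 1 ≤ T')
    (hTT : (T' : ℝ) ≤ η / 2 * S.T) (hLN : ((X * q0 : ℕ) : ℝ) ≤ η / 4 * N)
    (hb : ∀ u' k, S.u ≤ u' → u' ≤ k → k < u' + T' → u' + T' ≤ S.u + S.T →
      0 ≤ S.a c (Fin.last m) k - S.a c (Fin.last m) u' ∧
      S.a c (Fin.last m) k - S.a c (Fin.last m) u' ≤ Bd)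
    (hBd : (Bd : ℝ) ≤ η / 8 * ((X * q0 : ℕ) : ℝ))
    (f0 : ZMod N → ℂ) (f : Fin m → ZMod N → ℂ) (hf0 : ∀ x, ‖f0 x‖ ≤ 1) (hf : ∀ i x, ‖f i x‖ ≤ 1)
    (r : ZMod N) (cc : ℕ → ℂ) (φ θ : ℕ → ℝ) (hcc : ∀ j, ‖cc j‖ ≤ 1)
    (h : η ≤ ‖form S c 1 f0 (Fin.snoc (α := fun _ => ZMod N → ℂ) f (bphase X r cc φ))‖) :
    ∃ u' κ : ℕ, S.u ≤ u' ∧ u' + T' ≤ S.u + S.T ∧ (κ + 1) * (X * q0) ≤ N ∧
      η / 8 ≤ ‖lplE2 S c f0 f X (X * q0) κ
        (r + ((κ * (X * q0) : ℕ) : ZMod N) - (S.a c (Fin.last m) u' : ZMod N)) cc φ (θ κ) u' T'‖ := by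
  set L := X * q0 with hL
  have hL1 : 1 ≤ L := Nat.mul_pos hX hq0
  have hL0 : (0 : ℝ) < L := by exact_mod_cast hL1
  set g := bphase X r cc φ with hg
  have hgn : ∀ x, ‖g x‖ ≤ 1 := by
    intro x
    rw [hg]
    unfold bphase
    rw [norm_mul, norm_e, mul_one]
    exact hcc _
  set F : ℕ → ZMod N → ℂ := fun k x => f0 x * ((∏ i : Fin m, f i (x + (S.a c i.castSucc k : ZMod N))) *
    g (x + (S.a c (Fin.last m) k : ZMod N))) with hF
  exact by
    have hFn : ∀ k x, ‖F k x‖ ≤ 1 := by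
      intro k x
      simp only [hF]
      rw [norm_mul, norm_mul, norm_prod]
      have h1 : ∏ i : Fin m, ‖f i (x + (S.a c i.castSucc k : ZMod N))‖ ≤ 1 :=
        prod_le_one (fun _ _ => norm_nonneg _) fun i _ => hf i _
      have h2 : (∏ i : Fin m, ‖f i (x + (S.a c i.castSucc k : ZMod N))‖) *
        ‖g (x + (S.a c (Fin.last m) k : ZMod N))‖ ≤ 1 :=
        mul_le_one₀ h1 (norm_nonneg _) (hgn _)
      exact mul_le_one₀ (hf0 _) (by (clear * -; positivity)) h2
    have hform : form S c 1 f0 (Fin.snoc (α := fun _ => ZMod N → ℂ) f g) =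
        𝔼 t ∈ range S.T, 𝔼 x, F (S.u + t) x := by
      unfold form Sys.I
      rw [← lpl_expect_Ico S.u S.T (fun k => 𝔼 x, F k x)]
      refine expect_congr rfl fun k _ => ?_
      rw [Pi.one_apply, one_mul]
      refine expect_congr rfl fun x _ => ?_
      simp only [hF]
      rw [Fin.prod_univ_castSucc]
      simp only [Fin.snoc_castSucc, Fin.snoc_last]
    rw [hform] at h
    obtain ⟨j, hj, h1⟩ := lpl_cut (fun t => 𝔼 x, F (S.u + t) x)
      (fun k => norm_expect_le_of5 _ _ zero_le_one fun x _ => hFn _ x) S.T T' η hη hT' hTT h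
    set u' := S.u + j * T' with hu'
    have hu1 : S.u ≤ u' := by omega
    have hu2 : u' + T' ≤ S.u + S.T := by
      have : (j + 1) * T' = j * T' + T' := by ring
      omega
    set z0 : ZMod N := r - (S.a c (Fin.last m) u' : ZMod N) with hz0
    exact by
      have h2 : 𝔼 t ∈ range T', 𝔼 x, F (S.u + (j * T' + t)) x =
          𝔼 v ∈ range N, 𝔼 t ∈ range T', F (u' + t) ((v : ZMod N) + z0) := by
        rw [expect_comm (range N)]
        refine expect_congr rfl fun t _ => ?_
        rw [← expect_shift (fun x => F (S.u + (j * T' + t)) x) z0, lpl_expect_range, hu', add_assoc]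
      rw [h2] at h1
      obtain ⟨κ, hκ, h3⟩ := lpl_cut (fun v => 𝔼 t ∈ range T', F (u' + t) ((v : ZMod N) + z0))
        (fun k => norm_expect_le_of5 _ _ zero_le_one fun x _ => hFn _ _) N L (η / 2) (by positivity) hL1
        (by (clear * - hLN; linarith)) h1
      refine ⟨u', κ, hu1, hu2, hκ, ?_⟩
      set ϑ := θ κ with hϑ
      rw [expect_comm] at h3
      set z : ZMod N := r + ((κ * L : ℕ) : ZMod N) - (S.a c (Fin.last m) u' : ZMod N) with hz
      have h4 : lplE2 S c f0 f X L κ z cc φ ϑ u' T' = 𝔼 t ∈ range T', 𝔼 y ∈ range L,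
        f0 (z + (y : ZMod N)) * (∏ i : Fin m, f i (z + (y : ZMod N) + (S.a c i.castSucc (u' + t) : ZMod N))) *
        (cpf X L κ cc φ ϑ (y + (S.a c (Fin.last m) (u' + t) - S.a c (Fin.last m) u').toNat) *
          e (ϑ * ((y : ℝ) + ((S.a c (Fin.last m) (u' + t) - S.a c (Fin.last m) u').toNat : ℝ)))) := by
        unfold lplE2
        rw [lpl_expect_Ico]
      have h5 : ‖(𝔼 t ∈ range T', 𝔼 y ∈ range L, F (u' + t) (((κ * L + y : ℕ) : ZMod N) + z0)) -
          e (ϑ * ((κ * L : ℕ) : ℝ)) * lplE2 S c f0 f X L κ z cc φ ϑ u' T'‖ ≤ η / 8 := by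
        rw [h4, mul_expect, ← expect_sub_distrib]
        refine norm_expect_le_of5 _ _ (by positivity) fun t ht => ?_
        rw [mul_expect, ← expect_sub_distrib]
        have ht := mem_range.1 ht
        obtain ⟨hb1, hb2⟩ := hb u' (u' + t) hu1 (by omega) (by omega) hu2
        obtain ⟨b, hbb⟩ := Int.eq_ofNat_of_zero_le hb1
        have hbB : b ≤ Bd := by omega
        rw [hbb]
        simp only [Int.toNat_natCast]
        have hy : ∀ y ∈ range L, ‖F (u' + t) (((κ * L + y : ℕ) : ZMod N) + z0) -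
            e (ϑ * ((κ * L : ℕ) : ℝ)) * (f0 (z + (y : ZMod N)) *
            (∏ i : Fin m, f i (z + (y : ZMod N) + (S.a c i.castSucc (u' + t) : ZMod N))) *
            (cpf X L κ cc φ ϑ (y + b) * e (ϑ * ((y : ℝ) + (b : ℝ)))))‖ ≤
            (if y + b < L then (0 : ℝ) else 1) := by
          intro y hyL
          have hyL := mem_range.1 hyL
          have e1 : ((κ * L + y : ℕ) : ZMod N) + z0 = z + (y : ZMod N) := by
            rw [hz0, hz]; push_cast; ring
          rw [e1]
          by_cases hw : y + b < L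
          · rw [if_pos hw]
            exact by
              apply le_of_eq
              rw [norm_eq_zero, sub_eq_zero]
              simp only [hF]
              have e2 : z + (y : ZMod N) + (S.a c (Fin.last m) (u' + t) : ZMod N) =
                  r + ((κ * L + (y + b) : ℕ) : ZMod N) := by
                have : S.a c (Fin.last m) (u' + t) = S.a c (Fin.last m) u' + (b : ℤ) := by
                  (clear * - hbb; linarith)
                rw [this, hz]; push_cast; ring
              have hlt : κ * L + (y + b) < N := by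
                have : (κ + 1) * L = κ * L + L := by ring
                omega
              have e3 : g (z + (y : ZMod N) + (S.a c (Fin.last m) (u' + t) : ZMod N)) =
                  cc ((κ * L + (y + b)) / X) * e (φ ((κ * L + (y + b)) / X) * ((κ * L + (y + b) : ℕ) : ℝ)) := by
                rw [e2, hg]
                unfold bphase
                rw [add_sub_cancel_left, ZMod.val_natCast_of_lt hlt]
              rw [e3]
              unfold cpf
              rw [if_pos hw]
              have e4 : e (φ ((κ * L + (y + b)) / X) * ((κ * L + (y + b) : ℕ) : ℝ)) =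
                  e (ϑ * ((κ * L : ℕ) : ℝ)) * (e ((φ ((κ * L + (y + b)) / X) - ϑ) * ((κ * L + (y + b) : ℕ) : ℝ)) *
                  e (ϑ * ((y : ℝ) + (b : ℝ)))) := by
                rw [← e_add, ← e_add]
                congr 1
                push_cast; ring
              rw [e4]
              ring
          · rw [if_neg hw]
            unfold cpf
            rw [if_neg hw, zero_mul, mul_zero, mul_zero, sub_zero]
            exact hFn _ _
        refine (norm_expect_le5 _ _).trans ?_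
        rw [expect_eq_sum_div_card, card_range, div_le_iff₀ hL0]
        refine (sum_le_sum hy).trans ((lpl_count L b).trans ?_)
        have : (b : ℝ) ≤ Bd := by exact_mod_cast hbB
        (clear * - hBd this; linarith)
      have h6 : ‖e (ϑ * ((κ * L : ℕ) : ℝ)) * lplE2 S c f0 f X L κ z cc φ ϑ u' T'‖ =
          ‖lplE2 S c f0 f X L κ z cc φ ϑ u' T'‖ := by
        rw [norm_mul, norm_e, one_mul]
      rw [← h6]
      have h7 := norm_sub_norm_le (𝔼 t ∈ range T', 𝔼 y ∈ range L, F (u' + t) (((κ * L + y : ℕ) : ZMod N) + z0))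
        (e (ϑ * ((κ * L : ℕ) : ℝ)) * lplE2 S c f0 f X L κ z cc φ ϑ u' T')
      (clear * - h3 h5 h7; linarith)

theorem lpl_transport {m N : ℕ} (S : Sys (m + 1)) (c : Fin (m + 1) → ℝ)
    (f0 : ZMod N → ℂ) (f : Fin m → ZMod N → ℂ) (X L κ : ℕ) (z : ZMod N) (cc : ℕ → ℂ) (φ : ℕ → ℝ)
    (ϑ : ℝ) (u' T' : ℕ) (hL : 1 ≤ L) [NeZero (4 * L)]
    (hai : ∀ i : Fin m, ∀ k ∈ Ico u' (u' + T'), 0 ≤ S.a c i.castSucc k ∧ S.a c i.castSucc k ≤ L)
    (hb : ∀ k ∈ Ico u' (u' + T'), 0 ≤ S.a c (Fin.last m) k - S.a c (Fin.last m) u' ∧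
      S.a c (Fin.last m) k - S.a c (Fin.last m) u' ≤ L) :
    form (N := 4 * L) (S.sub u' T') c
      (fun k => e (ϑ * ((S.a c (Fin.last m) k - S.a c (Fin.last m) u' : ℤ) : ℝ)))
      (fun y => if y.val < L then f0 (z + (y.val : ZMod N)) * e (ϑ * (y.val : ℝ)) else 0)
      (Fin.snoc (α := fun _ => ZMod (4 * L) → ℂ) (fun i y => f i (z + (y.val : ZMod N)))
        (fun y => cpf X L κ cc φ ϑ (y - (S.a c (Fin.last m) u' : ZMod (4 * L))).val)) =
    1 / 4 * lplE2 S c f0 f X L κ z cc φ ϑ u' T' := by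
  unfold form lplE2
  rw [mul_expect]
  have hI : (S.sub u' T').I = Ico u' (u' + T') := rfl
  rw [hI]
  refine expect_congr rfl fun k hk => ?_
  obtain ⟨hb1, hb2⟩ := hb k hk
  obtain ⟨b, hbb⟩ := Int.eq_ofNat_of_zero_le hb1
  have hbL : b ≤ L := by omega
  have hval : ∀ (v n : ℕ) (a : ℤ), v < L → n ≤ L → a = (n : ℤ) →
      ((v : ZMod (4 * L)) + (a : ZMod (4 * L))).val = v + n := by
    intro v n a hv hn ha
    have : (v : ZMod (4 * L)) + (a : ZMod (4 * L)) = ((v + n : ℕ) : ZMod (4 * L)) := by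
      rw [ha]; push_cast; rfl
    rw [this, ZMod.val_natCast_of_lt (by omega)]
  rw [lpl_expect_range, expect_eq_sum_div_card, expect_eq_sum_div_card, card_range, card_range]
  have h4L : 4 * L = L + 3 * L := by ring
  exact by
    rw [show range (4 * L) = range (L + 3 * L) from by rw [h4L], sum_range_add]
    have hzero : ∑ x ∈ range (3 * L), ((if (((L + x : ℕ) : ZMod (4 * L))).val < L then
        f0 (z + ((((L + x : ℕ) : ZMod (4 * L))).val : ZMod N)) *
          e (ϑ * ((((L + x : ℕ) : ZMod (4 * L))).val : ℝ)) else 0) *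
        ∏ i, (Fin.snoc (α := fun _ => ZMod (4 * L) → ℂ) (fun i y => f i (z + (y.val : ZMod N)))
          (fun y => cpf X L κ cc φ ϑ (y - (S.a c (Fin.last m) u' : ZMod (4 * L))).val) :
          Fin (m + 1) → ZMod (4 * L) → ℂ) i
          (((L + x : ℕ) : ZMod (4 * L)) + ((S.sub u' T').a c i k : ZMod (4 * L)))) = 0 := by
      refine sum_eq_zero fun x hx => ?_
      have hx := mem_range.1 hx
      rw [ZMod.val_natCast_of_lt (by omega), if_neg (by omega), zero_mul]
    rw [hzero, add_zero]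
    have hL0 : (L : ℂ) ≠ 0 := by
      have : L ≠ 0 := by omega
      exact_mod_cast this
    have hmain : ∀ v ∈ range L, e (ϑ * ((S.a c (Fin.last m) k - S.a c (Fin.last m) u' : ℤ) : ℝ)) *
        ((if ((v : ZMod (4 * L))).val < L then
        f0 (z + (((v : ZMod (4 * L))).val : ZMod N)) *
          e (ϑ * (((v : ZMod (4 * L))).val : ℝ)) else 0) *
        ∏ i, (Fin.snoc (α := fun _ => ZMod (4 * L) → ℂ) (fun i y => f i (z + (y.val : ZMod N)))
          (fun y => cpf X L κ cc φ ϑ (y - (S.a c (Fin.last m) u' : ZMod (4 * L))).val) :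
          Fin (m + 1) → ZMod (4 * L) → ℂ) i
          ((v : ZMod (4 * L)) + ((S.sub u' T').a c i k : ZMod (4 * L)))) =
        f0 (z + (v : ZMod N)) * (∏ i : Fin m, f i (z + (v : ZMod N) + (S.a c i.castSucc k : ZMod N))) *
        (cpf X L κ cc φ ϑ (v + (S.a c (Fin.last m) k - S.a c (Fin.last m) u').toNat) *
        e (ϑ * ((v : ℝ) + ((S.a c (Fin.last m) k - S.a c (Fin.last m) u').toNat : ℝ)))) := by
      intro v hv
      have hv := mem_range.1 hv
      rw [ZMod.val_natCast_of_lt (by omega), if_pos hv, Fin.prod_univ_castSucc]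
      simp only [Fin.snoc_castSucc, Fin.snoc_last]
      have e1 : ∀ i : Fin m, f i (z + ((((v : ZMod (4 * L)) +
          ((S.sub u' T').a c i.castSucc k : ZMod (4 * L))).val : ℕ) : ZMod N)) =
          f i (z + (v : ZMod N) + (S.a c i.castSucc k : ZMod N)) := by
        intro i
        obtain ⟨h1, h2⟩ := hai i k hk
        obtain ⟨n, hn⟩ := Int.eq_ofNat_of_zero_le h1
        have h3 : (S.sub u' T').a c i.castSucc k = (n : ℤ) := hn
        rw [hval v n _ hv (by omega) h3, hn]
        congr 1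
        push_cast; ring
      simp only [e1]
      have e2 : (v : ZMod (4 * L)) + ((S.sub u' T').a c (Fin.last m) k : ZMod (4 * L)) -
          (S.a c (Fin.last m) u' : ZMod (4 * L)) = (v : ZMod (4 * L)) +
          ((S.a c (Fin.last m) k - S.a c (Fin.last m) u' : ℤ) : ZMod (4 * L)) := by
        have : (S.sub u' T').a c (Fin.last m) k = S.a c (Fin.last m) k := rfl
        rw [this]; push_cast; ring
      rw [e2, hval v b _ hv hbL hbb, hbb]
      simp only [Int.toNat_natCast, Int.cast_natCast]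
      have e3 : e (ϑ * ((v : ℝ) + (b : ℝ))) = e (ϑ * (v : ℝ)) * e (ϑ * (b : ℝ)) := by
        rw [← e_add]; congr 1; ring
      rw [e3]
      ring
    rw [← mul_div_assoc, mul_sum, sum_congr rfl hmain]
    push_cast
    field_simp

end

end Pool.Agent.Helper57.NX

end

section

set_option autoImplicit false

open Finset

open scoped BigOperators ComplexConjugate

namespace Pool.Agent.Helper67.NX2

open Pool.Agent.Helper57.NX

noncomputable section

theorem lpl2_transport {m N N' : ℕ} (S : Sys (m + 1)) (c : Fin (m + 1) → ℝ)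
    (f0 : ZMod N → ℂ) (f : Fin m → ZMod N → ℂ) (X L κ : ℕ) (z : ZMod N) (cc : ℕ → ℂ) (φ : ℕ → ℝ)
    (ϑ : ℝ) (u' T' : ℕ) (hL : 1 ≤ L) [NeZero N'] (hN' : 4 * L ≤ N')
    (hai : ∀ i : Fin m, ∀ k ∈ Ico u' (u' + T'), 0 ≤ S.a c i.castSucc k ∧ S.a c i.castSucc k ≤ L)
    (hb : ∀ k ∈ Ico u' (u' + T'), 0 ≤ S.a c (Fin.last m) k - S.a c (Fin.last m) u' ∧
      S.a c (Fin.last m) k - S.a c (Fin.last m) u' ≤ L) :
    form (N := N') (S.sub u' T') c
      (fun k => e (ϑ * ((S.a c (Fin.last m) k - S.a c (Fin.last m) u' : ℤ) : ℝ)))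
      (fun y => if y.val < L then f0 (z + (y.val : ZMod N)) * e (ϑ * (y.val : ℝ)) else 0)
      (Fin.snoc (α := fun _ => ZMod N' → ℂ) (fun i y => f i (z + (y.val : ZMod N)))
        (fun y => cpf X L κ cc φ ϑ (y - (S.a c (Fin.last m) u' : ZMod N')).val)) =
    (L : ℂ) / N' * lplE2 S c f0 f X L κ z cc φ ϑ u' T' := by
  unfold form lplE2
  rw [mul_expect]
  have hI : (S.sub u' T').I = Ico u' (u' + T') := rfl
  rw [hI]
  refine expect_congr rfl fun k hk => ?_
  obtain ⟨hb1, hb2⟩ := hb k hk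
  obtain ⟨b, hbb⟩ := Int.eq_ofNat_of_zero_le hb1
  have hbL : b ≤ L := by omega
  have hval : ∀ (v n : ℕ) (a : ℤ), v < L → n ≤ L → a = (n : ℤ) →
      ((v : ZMod N') + (a : ZMod N')).val = v + n := by
    intro v n a hv hn ha
    have : (v : ZMod N') + (a : ZMod N') = ((v + n : ℕ) : ZMod N') := by
      rw [ha]; push_cast; rfl
    rw [this, ZMod.val_natCast_of_lt (by omega)]
  rw [lpl_expect_range, expect_eq_sum_div_card, expect_eq_sum_div_card, card_range, card_range]
  have h4L : N' = L + (N' - L) := by omega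
  exact by
    rw [show range N' = range (L + (N' - L)) from by rw [← h4L], sum_range_add]
    have hzero : ∑ x ∈ range (N' - L), ((if (((L + x : ℕ) : ZMod N')).val < L then
        f0 (z + ((((L + x : ℕ) : ZMod N')).val : ZMod N)) *
          e (ϑ * ((((L + x : ℕ) : ZMod N')).val : ℝ)) else 0) *
        ∏ i, (Fin.snoc (α := fun _ => ZMod N' → ℂ) (fun i y => f i (z + (y.val : ZMod N)))
          (fun y => cpf X L κ cc φ ϑ (y - (S.a c (Fin.last m) u' : ZMod N')).val) :
          Fin (m + 1) → ZMod N' → ℂ) i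
          (((L + x : ℕ) : ZMod N') + ((S.sub u' T').a c i k : ZMod N'))) = 0 := by
      refine sum_eq_zero fun x hx => ?_
      have hx := mem_range.1 hx
      rw [ZMod.val_natCast_of_lt (by omega), if_neg (by omega), zero_mul]
    rw [hzero, add_zero]
    have hL0 : (L : ℂ) ≠ 0 := by
      have : L ≠ 0 := by omega
      exact_mod_cast this
    have hmain : ∀ v ∈ range L, e (ϑ * ((S.a c (Fin.last m) k - S.a c (Fin.last m) u' : ℤ) : ℝ)) *
        ((if ((v : ZMod N')).val < L then
        f0 (z + (((v : ZMod N')).val : ZMod N)) *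
          e (ϑ * (((v : ZMod N')).val : ℝ)) else 0) *
        ∏ i, (Fin.snoc (α := fun _ => ZMod N' → ℂ) (fun i y => f i (z + (y.val : ZMod N)))
          (fun y => cpf X L κ cc φ ϑ (y - (S.a c (Fin.last m) u' : ZMod N')).val) :
          Fin (m + 1) → ZMod N' → ℂ) i
          ((v : ZMod N') + ((S.sub u' T').a c i k : ZMod N'))) =
        f0 (z + (v : ZMod N)) * (∏ i : Fin m, f i (z + (v : ZMod N) + (S.a c i.castSucc k : ZMod N))) *
        (cpf X L κ cc φ ϑ (v + (S.a c (Fin.last m) k - S.a c (Fin.last m) u').toNat) *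
        e (ϑ * ((v : ℝ) + ((S.a c (Fin.last m) k - S.a c (Fin.last m) u').toNat : ℝ)))) := by
      intro v hv
      have hv := mem_range.1 hv
      rw [ZMod.val_natCast_of_lt (by omega), if_pos hv, Fin.prod_univ_castSucc]
      simp only [Fin.snoc_castSucc, Fin.snoc_last]
      have e1 : ∀ i : Fin m, f i (z + ((((v : ZMod N') +
          ((S.sub u' T').a c i.castSucc k : ZMod N')).val : ℕ) : ZMod N)) =
          f i (z + (v : ZMod N) + (S.a c i.castSucc k : ZMod N)) := by
        intro i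
        obtain ⟨h1, h2⟩ := hai i k hk
        obtain ⟨n, hn⟩ := Int.eq_ofNat_of_zero_le h1
        have h3 : (S.sub u' T').a c i.castSucc k = (n : ℤ) := hn
        rw [hval v n _ hv (by omega) h3, hn]
        congr 1
        push_cast; ring
      simp only [e1]
      have e2 : (v : ZMod N') + ((S.sub u' T').a c (Fin.last m) k : ZMod N') -
          (S.a c (Fin.last m) u' : ZMod N') = (v : ZMod N') +
          ((S.a c (Fin.last m) k - S.a c (Fin.last m) u' : ℤ) : ZMod N') := by
        have : (S.sub u' T').a c (Fin.last m) k = S.a c (Fin.last m) k := rfl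
        rw [this]; push_cast; ring
      rw [e2, hval v b _ hv hbL hbb, hbb]
      simp only [Int.toNat_natCast, Int.cast_natCast]
      have e3 : e (ϑ * ((v : ℝ) + (b : ℝ))) = e (ϑ * (v : ℝ)) * e (ϑ * (b : ℝ)) := by
        rw [← e_add]; congr 1; ring
      rw [e3]
      ring
    have hN0 : (N' : ℂ) ≠ 0 := by exact_mod_cast NeZero.ne N'
    rw [← mul_div_assoc, mul_sum, sum_congr rfl hmain]
    field_simp

end

end Pool.Agent.Helper67.NX2

end

section

set_option autoImplicit false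

open Finset

open scoped BigOperators ComplexConjugate

namespace Pool.Agent.Helper67.NX2

open Pool.Agent.Helper57.NX

noncomputable section

section Win

variable {m N : ℕ} [NeZero N] {S : Sys (m + 1)} {c : Fin (m + 1) → ℝ}

omit [NeZero N] in
/-- sizes -/
theorem sizes59 {x0 b X : ℝ} (hb : 0 ≤ b) (hD : 1 ≤ S.D) (hc0 : ∀ i, 0 < c i)
    (hG : Good S c N x0) (hX : S.Q * S.D ^ (c (Fin.last m) - b) ≤ X) :
    0 < X ∧ 0 < S.P (Fin.last m) ∧
      S.P (Fin.last m) * (1 / X + 1 / N) ≤ 2 * S.D ^ (x0 + b) ∧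
      1 / X + 1 / (N : ℝ) ≤ 2 * S.D ^ (b - 2) := by
  have hD0 : 0 < S.D := by (clear * - hD; linarith)
  have hQ : 0 < (S.Q : ℝ) := lt_of_lt_of_le (Real.rpow_pos_of_pos hD0 _) hG.Q1
  have hX0 : 0 < X := lt_of_lt_of_le (mul_pos hQ (Real.rpow_pos_of_pos hD0 _)) hX
  have hP : 0 < S.P (Fin.last m) :=
    lt_of_lt_of_le (mul_pos hQ (Real.rpow_pos_of_pos hD0 _)) (hG.P1 _)
  have hN : 0 < (N : ℝ) := hQ.trans_le hG.N2
  refine ⟨hX0, hP, ?_, ?_⟩
  · have h1 : S.P (Fin.last m) * (1 / X) ≤ S.D ^ (x0 + b) := by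
      rw [mul_one_div, div_le_iff₀ hX0]
      calc S.P (Fin.last m) ≤ S.Q * S.D ^ (c (Fin.last m) + x0) := hG.P2 _
        _ = S.D ^ (x0 + b) * (S.Q * S.D ^ (c (Fin.last m) - b)) := by
            rw [mul_left_comm, ← Real.rpow_add hD0]
            congr 2
            ring
        _ ≤ S.D ^ (x0 + b) * X := mul_le_mul_of_nonneg_left hX (Real.rpow_nonneg hD0.le _)
    have h2 : S.P (Fin.last m) * (1 / N) ≤ S.D ^ (x0 + b) := by
      rw [mul_one_div, div_le_iff₀ hN]
      calc S.P (Fin.last m) ≤ N * S.D ^ x0 := hG.N1 _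
        _ ≤ N * S.D ^ (x0 + b) := mul_le_mul_of_nonneg_left
            (Real.rpow_le_rpow_of_exponent_le hD (by (clear * - hb; linarith))) hN.le
        _ = _ := mul_comm _ _
    rw [mul_add]
    (clear * - h1 h2; linarith)
  · have h1 : 1 / X ≤ S.D ^ (b - 2) := by
      rw [div_le_iff₀ hX0]
      calc (1 : ℝ) ≤ S.D ^ (c (Fin.last m)) :=
            Real.one_le_rpow hD (hc0 _).le
        _ = S.D ^ (b - 2) * (S.D ^ (2 : ℝ) * S.D ^ (c (Fin.last m) - b)) := by
            rw [← Real.rpow_add hD0, ← Real.rpow_add hD0]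
            congr 1
            ring
        _ ≤ S.D ^ (b - 2) * (S.Q * S.D ^ (c (Fin.last m) - b)) := by
            have := hG.Q1
            have h5 := Real.rpow_nonneg hD0.le (c (Fin.last m) - b)
            have h6 := Real.rpow_nonneg hD0.le (b - 2)
            exact mul_le_mul_of_nonneg_left (mul_le_mul_of_nonneg_right this h5) h6
        _ ≤ S.D ^ (b - 2) * X := mul_le_mul_of_nonneg_left hX (Real.rpow_nonneg hD0.le _)
    have h2 : 1 / (N : ℝ) ≤ S.D ^ (b - 2) := by
      rw [div_le_iff₀ hN]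
      calc (1 : ℝ) ≤ S.D ^ b := Real.one_le_rpow hD hb
        _ = S.D ^ (b - 2) * S.D ^ (2 : ℝ) := by
            rw [← Real.rpow_add hD0]
            congr 1
            ring
        _ ≤ S.D ^ (b - 2) * N := mul_le_mul_of_nonneg_left (hG.Q1.trans hG.N2)
            (Real.rpow_nonneg hD0.le _)
    linarith

end Win

end

end Pool.Agent.Helper67.NX2

end

section

set_option autoImplicit false

open Finset

open scoped BigOperators ComplexConjugate

namespace Pool.Agent.Helper67.NX2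

open Pool.Agent.Helper57.NX

noncomputable section

theorem Fm_nonneg {F : ℕ → ℝ} (hF : ∀ x, 0 ≤ F x) (M b x : ℕ) : 0 ≤ Fm F M b x := by
  unfold Fm cell
  refine mul_nonneg (by positivity) (Finset.sum_nonneg fun y _ => ?_)
  split_ifs
  · exact hF y
  · exact le_rfl

theorem Fm_support {F : ℕ → ℝ} {z b : ℕ} (hb : b ≤ z) (hF : ∀ x, 2 ^ z ≤ x → F x = 0) (M x : ℕ)
    (hx : 2 ^ z ≤ x) : Fm F M b x = 0 := by
  unfold Fm cell
  rw [Finset.sum_eq_zero, mul_zero]
  intro y hy
  have h1 : 2 ^ b * (x / 2 ^ b) ≤ y := (mem_Ico.1 hy).1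
  have h2 : 2 ^ z = 2 ^ b * 2 ^ (z - b) := by rw [← pow_add]; congr 1; omega
  have h3 : 2 ^ (z - b) ≤ x / 2 ^ b := by
    rw [Nat.le_div_iff_mul_le (by positivity), mul_comm, ← h2]
    exact hx
  have h4 : 2 ^ z ≤ y := by
    rw [h2]
    exact (Nat.mul_le_mul_left _ h3).trans h1
  rw [hF y h4, ite_self]

end

end Pool.Agent.Helper67.NX2

end

section

set_option autoImplicit false

open Finset

open scoped BigOperators ComplexConjugate

namespace Pool.Agent.Helper67.NX2

open Pool.Agent.Helper57.NX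

noncomputable section

/-- the statement of `stage12` -/
def Stage12C (s : ℕ) (d : Fin (s + 1) → ℕ) (γ ε : ℝ) : Prop :=
    ∃ x0 : ℝ, 0 < x0 ∧ ∀ τ V κ σ : ℝ, 0 < τ → 1 ≤ V → 0 < κ → 0 < σ → ∀ K K1 : ℕ, 1 ≤ K → 1 ≤ K1 →
    ∃ z0 : ℕ, ∀ z : ℕ, z0 ≤ z → ∃ K2 : ℕ, K1 ∣ K2 ∧ 1 ≤ K2 ∧ (K2 : ℝ) ≤ (2 : ℝ) ^ (σ * z) ∧
    ∀ A : Finset ℕ, PrA z A → ∀ (D : ℝ) (u T : ℕ), (2 : ℝ) ^ (τ * z) ≤ D →
    (∀ i, ((K : ℝ) * (3 * D)) ^ (d i) ≤ (2 : ℝ) ^ z) → D ≤ u → (u : ℝ) + T ≤ 2 * D →
    D ^ (1 - x0) ≤ T →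
    ∀ G : ℕ → ℝ, (∀ x, |G x| ≤ V) → (∀ x t : ℕ, |G (x + t) - G x| ≤ V * t / D ^ (γ - ε)) →
    ∀ b : Option (Fin (s + 1)) → ℕ, BlkLen d γ ε D b →
    |nform d K u T (2 ^ z) G (fun _ => FA z A) -
      nform d K u T (2 ^ z) G (fun o => Fm (FA z A) K2 (b o))| ≤ κ

/-- the statement of `cell_le` -/
def CellLeC : Prop := ∃ C : ℝ, 0 < C ∧ ∀ (z : ℕ) (A : Finset ℕ), PrA z A → ∀ b j M : ℕ, 1 ≤ b →
    b ≤ z → 1 ≤ M → M ^ 2 < 2 ^ b → ∀ ρ : ZMod M,
    cell (FA z A) M b j ρ ≤ C * (z / b) * (M / M.totient)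

end

end Pool.Agent.Helper67.NX2

end

section

set_option autoImplicit false

open Finset

open scoped BigOperators ComplexConjugate

namespace Pool.Agent.Helper67.NX2

open Pool.Agent.Helper57.NX

noncomputable section

namespace B8

theorem DS_eq (F : ℕ → ℝ) (K r1 b j : ℕ) (S : Finset ℕ) (x : ℕ) :
    DS F K r1 b j S x (fun _ => x) = (∑ y ∈ bl b j, F y * kf K r1 S y x) / 2 ^ b := by
  unfold DS kf uf
  congr 1
  refine sum_congr rfl fun y _ => ?_
  push_cast
  ring

theorem bl_div {b j x : ℕ} (hx : x ∈ bl b j) : x / 2 ^ b = j := by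
  unfold bl at hx
  rw [mem_Ico] at hx
  apply Nat.div_eq_of_lt_le
  · rw [Nat.mul_comm]; exact hx.1
  · rw [Nat.mul_comm]; exact hx.2

theorem bl_card (b j : ℕ) : ((bl b j).card : ℝ) = 2 ^ b := by
  rw [bl_eq, Nat.card_Ico, Nat.add_sub_cancel_left]
  push_cast
  rfl

theorem bl_sum_abs {F : ℕ → ℝ} {B0 : ℝ} (hF : ∀ x, |F x| ≤ B0) (b j : ℕ) {Θ : ℕ → ℝ} {B : ℝ}
    (hΘ : ∀ y, |Θ y| ≤ B) : |(∑ y ∈ bl b j, F y * Θ y) / 2 ^ b| ≤ B0 * B := by
  rw [abs_div, abs_of_pos (by positivity : (0:ℝ) < 2 ^ b), div_le_iff₀ (by positivity)]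
  refine (abs_sum_le_sum_abs _ _).trans ?_
  have h : ∀ y ∈ bl b j, |F y * Θ y| ≤ B0 * B := by
    intro y _
    rw [abs_mul]
    exact mul_le_mul (hF y) (hΘ y) (abs_nonneg _) ((abs_nonneg _).trans (hF y))
  refine (sum_le_sum h).trans ?_
  rw [sum_const, nsmul_eq_mul, bl_card]
  exact le_of_eq (by ring)

/-- the sum over a progression of `DS` -/
theorem sum_DS (F : ℕ → ℝ) (K r1 b j q a : ℕ) (S : Finset ℕ) :
    ∑ x ∈ (bl b j).filter (fun x => x % q = a), DS F K r1 b j S x (fun _ => x) =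
      (∑ y ∈ bl b j, F y * ∑ x ∈ bl b j, (if x % q = a then kf K r1 S y x else 0)) / 2 ^ b := by
  rw [sum_filter]
  have h1 : ∀ x, (if x % q = a then DS F K r1 b j S x (fun _ => x) else 0) =
      (∑ y ∈ bl b j, F y * (if x % q = a then kf K r1 S y x else 0)) / 2 ^ b := by
    intro x
    split_ifs
    · exact DS_eq F K r1 b j S x
    · simp
  simp only [h1]
  rw [← sum_div, sum_comm]
  congr 1
  exact sum_congr rfl fun y _ => by rw [mul_sum]

theorem abs_sum_DS_le {F : ℕ → ℝ} {B0 : ℝ} (hF : ∀ x, |F x| ≤ B0) {K r0 r1 R q : ℕ} (b j : ℕ)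
    (hK : 1 ≤ K) (hR : 1 ≤ R) (hq : 1 ≤ q) (hqR : q ≤ R) {S : Finset ℕ}
    (hS : ∀ p ∈ S, p.Prime ∧ p ≤ R ∧ ¬ p ∣ K) (hc : S.card ≤ r0) {p0 : ℕ} (hp0 : p0 ∈ S)
    (hp0q : ¬ p0 ∣ q) (a : ℕ) :
    |∑ x ∈ (bl b j).filter (fun x => x % q = a), DS F K r1 b j S x (fun _ => x)| ≤
      B0 * ((K ^ 2 * R ^ (2 * r0 * r1 + 1) : ℕ) : ℝ) := by
  rw [sum_DS]
  apply bl_sum_abs hF b j
  intro y
  rw [bl_eq]
  refine (abs_sum_kf_le hK hq (fun p hp => ⟨(hS p hp).1, (hS p hp).2.2⟩) hp0 hp0q y a _ _).trans ?_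
  have h1 : ∏ p ∈ S, p ^ r1 ≤ R ^ (r0 * r1) := prod_le hR (fun p hp => (hS p hp).2.1) hc
  have h2 : q * (K * ∏ p ∈ S, p ^ r1) * (K * ∏ p ∈ S, p ^ r1) ≤ K ^ 2 * R ^ (2 * r0 * r1 + 1) := by
    calc q * (K * ∏ p ∈ S, p ^ r1) * (K * ∏ p ∈ S, p ^ r1)
        ≤ R * (K * R ^ (r0 * r1)) * (K * R ^ (r0 * r1)) := by (clear * - hqR h1; gcongr)
      _ = _ := by
        have : R ^ (2 * r0 * r1 + 1) = R * (R ^ (r0 * r1) * R ^ (r0 * r1)) := by
          rw [← pow_add, pow_succ, Nat.mul_comm]
          congr 2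
          ring
        rw [this]; ring
  exact_mod_cast h2

theorem sets_le {F : ℕ → ℝ} {B0 : ℝ} (hF : ∀ x, |F x| ≤ B0) {K r0 r1 R q : ℕ} (b j : ℕ)
    {PP : Finset ℕ}
    (hK : 1 ≤ K) (hR : 2 ≤ R) (hq : 1 ≤ q) (hqR : q ≤ R)
    (hPP : ∀ p ∈ PP, p.Prime ∧ p ≤ R ∧ ¬ p ∣ K) {𝒮 : Finset (Finset ℕ)}
    (h𝒮 : ∀ S ∈ 𝒮, S ⊆ PP ∧ S.card ≤ r0 ∧ ∃ p ∈ S, ¬ p ∣ q) (a : ℕ) :
    |∑ S ∈ 𝒮, ∑ x ∈ (bl b j).filter (fun x => x % q = a), DS F K r1 b j S x (fun _ => x)| ≤
      B0 * ((R ^ (2 * r0 + 1) * (K ^ 2 * R ^ (2 * r0 * r1 + 1)) : ℕ) : ℝ) := by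
  have hB0 : 0 ≤ B0 := (abs_nonneg _).trans (hF 0)
  have hsub : 𝒮 ⊆ PP.powerset.filter (fun S => S.card ≤ r0) := by
    intro S hS
    rw [mem_filter, mem_powerset]
    exact ⟨(h𝒮 S hS).1, (h𝒮 S hS).2.1⟩
  have hcard : 𝒮.card ≤ R ^ (2 * r0 + 1) :=
    (card_le_card hsub).trans (card_small_le r0 R hR PP fun p hp => ⟨(hPP p hp).1, (hPP p hp).2.1⟩)
  refine (abs_sum_le_sum_abs _ _).trans ?_
  have h : ∀ S ∈ 𝒮, |∑ x ∈ (bl b j).filter (fun x => x % q = a), DS F K r1 b j S x (fun _ => x)| ≤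
      B0 * ((K ^ 2 * R ^ (2 * r0 * r1 + 1) : ℕ) : ℝ) := by
    intro S hS
    obtain ⟨h1, h2, p0, h3, h4⟩ := h𝒮 S hS
    exact abs_sum_DS_le hF b j hK (by omega) hq hqR (fun p hp => hPP p (h1 hp)) h2 h3 h4 a
  refine (sum_le_sum h).trans ?_
  rw [sum_const, nsmul_eq_mul]
  have h5 : ((𝒮.card * (K ^ 2 * R ^ (2 * r0 * r1 + 1)) : ℕ) : ℝ) ≤
      ((R ^ (2 * r0 + 1) * (K ^ 2 * R ^ (2 * r0 * r1 + 1)) : ℕ) : ℝ) := by
    exact_mod_cast Nat.mul_le_mul_right _ hcard
  calc (𝒮.card : ℝ) * (B0 * ((K ^ 2 * R ^ (2 * r0 * r1 + 1) : ℕ) : ℝ))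
      = B0 * ((𝒮.card * (K ^ 2 * R ^ (2 * r0 * r1 + 1)) : ℕ) : ℝ) := by push_cast; ring
    _ ≤ _ := mul_le_mul_of_nonneg_left h5 hB0

theorem gm_sum (F : ℕ → ℝ) (K r0 r1 b j q a : ℕ) (PP : Finset ℕ) :
    ∑ x ∈ (bl b j).filter (fun x => x % q = a), gm F K r0 r1 b PP x =
      ∑ S ∈ PP.powerset.filter (fun S => S.card ≤ r0),
        ∑ x ∈ (bl b j).filter (fun x => x % q = a), DS F K r1 b j S x (fun _ => x) := by
  rw [sum_comm]
  refine sum_congr rfl fun x hx => ?_
  unfold gm
  rw [bl_div (mem_filter.mp hx).1]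

/-- the main term -/
theorem main_term {F : ℕ → ℝ} {B0 : ℝ} (hF : ∀ x, |F x| ≤ B0) {K r1 q : ℕ} (b j : ℕ)
    {T : Finset ℕ} (hT : ∀ p ∈ T, p.Prime ∧ ¬ p ∣ K) (hK : 1 ≤ K)
    (hqM : q ∣ K * ∏ p ∈ T, p ^ r1) (a : ℕ) :
    |∑ x ∈ (bl b j).filter (fun x => x % q = a), F x - ∑ S ∈ T.powerset,
      ∑ x ∈ (bl b j).filter (fun x => x % q = a), DS F K r1 b j S x (fun _ => x)| ≤
      B0 * (((K * ∏ p ∈ T, p ^ r1) ^ 2 : ℕ) : ℝ) := by
  set M := K * ∏ p ∈ T, p ^ r1 with hM
  have hM1 : 1 ≤ M := Nat.mul_pos hK (Nat.pos_of_ne_zero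
    (prod_ne_zero_iff.mpr fun p hp => pow_ne_zero _ (hT p hp).1.ne_zero))
  have e1 : ∑ S ∈ T.powerset,
      ∑ x ∈ (bl b j).filter (fun x => x % q = a), DS F K r1 b j S x (fun _ => x) =
      (∑ y ∈ bl b j, F y * (if y % q = a then ∑ x ∈ bl b j, uf M y x else 0)) / 2 ^ b := by
    simp only [sum_DS]
    rw [← sum_div, sum_comm]
    congr 1
    refine sum_congr rfl fun y _ => ?_
    rw [← mul_sum, sum_comm]
    congr 1
    have e2 : ∀ x, ∑ S ∈ T.powerset, (if x % q = a then kf K r1 S y x else 0) =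
        if x % q = a then uf M y x else 0 := by
      intro x
      split_ifs
      · rw [sum_powerset_kf K r1 hT]
      · simp
    simp only [e2]
    have e3 : ∀ x, (if x % q = a then uf M y x else 0) = if y % q = a then uf M y x else 0 := by
      intro x
      by_cases h : y ≡ x [MOD M]
      · have h1 : y % q = x % q := h.of_dvd hqM
        rw [h1]
      · unfold uf
        simp [h]
    simp only [e3]
    split_ifs
    · rfl
    · simp
  have e4 : ∑ x ∈ (bl b j).filter (fun x => x % q = a), F x =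
      (∑ y ∈ bl b j, F y * (if y % q = a then (2:ℝ) ^ b else 0)) / 2 ^ b := by
    rw [sum_filter, sum_div]
    refine sum_congr rfl fun y _ => ?_
    split_ifs
    · (clear * -; field_simp)
    · simp
  rw [e1, e4, ← sub_div, ← sum_sub_distrib]
  have e5 : ∀ y, F y * (if y % q = a then (2:ℝ) ^ b else 0) -
      F y * (if y % q = a then ∑ x ∈ bl b j, uf M y x else 0) =
      F y * (if y % q = a then -(∑ x ∈ bl b j, (uf M y x - 1)) else 0) := by
    intro y
    split_ifs
    · rw [sum_sub_distrib, sum_const, nsmul_eq_mul, bl_card]; ring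
    · ring
  simp only [e5]
  apply bl_sum_abs hF b j
  intro y
  have h0 : |∑ x ∈ bl b j, (uf M y x - 1)| ≤ (M : ℝ) * M := by
    rw [bl_eq]
    exact abs_sum_le hM1 (fun x => by rw [uf_per dvd_rfl]) (abs_uf_sub_one hM1 y) (sum_uf hM1 y) _ _
  split_ifs
  · rw [abs_neg]
    refine h0.trans (le_of_eq ?_)
    push_cast; ring
  · rw [abs_zero]; (clear * - hM1; positivity)

end B8

open B8

/-- the dense model has the same sums over progressions with a difference `≤ R` -/
theorem gm_ap (r0 r1 : ℕ) (hr1 : 1 ≤ r1) : ∃ C : ℕ, ∀ (F : ℕ → ℝ) (B0 : ℝ) (K b j R q : ℕ)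
    (PP : Finset ℕ), 1 ≤ K → 2 ≤ R → 1 ≤ q → q ≤ R → (∀ x, |F x| ≤ B0) →
    (∀ p ∈ PP, p.Prime ∧ p ≤ R ∧ ¬ p ∣ K) →
    q ∣ K * ∏ p ∈ PP.filter (fun p => p ∣ q), p ^ r1 → (PP.filter (fun p => p ∣ q)).card ≤ r0 →
    ∑ a ∈ range q, |∑ x ∈ (bl b j).filter (fun x => x % q = a), (F x - gm F K r0 r1 b PP x)| ≤
      B0 * ((K * R : ℕ) : ℝ) ^ C := by
  have _ := hr1
  refine ⟨2 * r0 * r1 + 2 * r0 + 4, ?_⟩
  intro F B0 K b j R q PP hK hR hq hqR hF hPP hdvd hcard
  have hB0 : 0 ≤ B0 := (abs_nonneg _).trans (hF 0)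
  apply total_le hB0 hK hqR
  intro a _
  set T := PP.filter (fun p => p ∣ q) with hT
  have hTs : T ⊆ PP := filter_subset _ _
  rw [sum_sub_distrib, gm_sum]
  have hsub : T.powerset ⊆ PP.powerset.filter (fun S => S.card ≤ r0) := by
    intro S hS
    rw [mem_powerset] at hS
    rw [mem_filter, mem_powerset]
    exact ⟨hS.trans hTs, (card_le_card hS).trans hcard⟩
  rw [← sum_sdiff hsub]
  have h1 := main_term (r1 := r1) hF b j (T := T)
    (fun p hp => ⟨(hPP p (hTs hp)).1, (hPP p (hTs hp)).2.2⟩) hK hdvd a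
  exact by
    have h2 := sets_le (r0 := r0) (r1 := r1) hF b j hK hR hq hqR hPP
      (𝒮 := PP.powerset.filter (fun S => S.card ≤ r0) \ T.powerset) (by
        intro S hS
        rw [mem_sdiff, mem_filter, mem_powerset, mem_powerset] at hS
        refine ⟨hS.1.1, hS.1.2, ?_⟩
        by_contra hcon
        push Not at hcon
        apply hS.2
        intro p hp
        rw [hT, mem_filter]
        exact ⟨hS.1.1 hp, hcon p hp⟩) a
    have h3 : ((K * ∏ p ∈ T, p ^ r1) ^ 2 : ℕ) ≤ K ^ 2 * R ^ (2 * r0 * r1 + 1) := by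
      have h4 : ∏ p ∈ T, p ^ r1 ≤ R ^ (r0 * r1) :=
        prod_le (by omega) (fun p hp => (hPP p (hTs hp)).2.1) hcard
      calc (K * ∏ p ∈ T, p ^ r1) ^ 2 ≤ (K * R ^ (r0 * r1)) ^ 2 := by (clear * - h4; gcongr)
        _ = K ^ 2 * R ^ (2 * r0 * r1) := by rw [mul_pow, ← pow_mul]; congr 2; ring
        _ ≤ _ := Nat.mul_le_mul_left _ (Nat.pow_le_pow_right (by omega) (by omega))
    have h5 : K ^ 2 * R ^ (2 * r0 * r1 + 1) + R ^ (2 * r0 + 1) * (K ^ 2 * R ^ (2 * r0 * r1 + 1)) ≤
        R ^ (2 * r0 + 2) * (K ^ 2 * R ^ (2 * r0 * r1 + 1)) := by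
      have h6 : 1 + R ^ (2 * r0 + 1) ≤ R ^ (2 * r0 + 2) := by
        have h7 : 1 ≤ R ^ (2 * r0 + 1) := Nat.one_le_pow _ _ (by omega)
        have h8 : R ^ (2 * r0 + 2) = R ^ (2 * r0 + 1) * R := pow_succ _ _
        rw [h8]
        (clear * - hR h7; nlinarith)
      calc _ = (1 + R ^ (2 * r0 + 1)) * (K ^ 2 * R ^ (2 * r0 * r1 + 1)) := by ring
        _ ≤ _ := Nat.mul_le_mul_right _ h6
    have h3' : B0 * (((K * ∏ p ∈ T, p ^ r1) ^ 2 : ℕ) : ℝ) ≤
        B0 * ((K ^ 2 * R ^ (2 * r0 * r1 + 1) : ℕ) : ℝ) :=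
      mul_le_mul_of_nonneg_left (by exact_mod_cast h3) hB0
    have h5' : B0 * ((K ^ 2 * R ^ (2 * r0 * r1 + 1) : ℕ) : ℝ) +
        B0 * ((R ^ (2 * r0 + 1) * (K ^ 2 * R ^ (2 * r0 * r1 + 1)) : ℕ) : ℝ) ≤
        B0 * ((R ^ (2 * r0 + 2) * (K ^ 2 * R ^ (2 * r0 * r1 + 1)) : ℕ) : ℝ) := by
      rw [← mul_add]
      apply mul_le_mul_of_nonneg_left _ hB0
      exact_mod_cast h5
    refine le_trans ?_ (h5'.trans' (add_le_add (h1.trans h3') h2))
    rw [sub_add_eq_sub_sub_swap]
    exact abs_sub _ _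

/-- `Δ_∅ F` is the conditional expectation -/
theorem B8.DS_empty (F : ℕ → ℝ) (K r1 b x : ℕ) :
    DS F K r1 b (x / 2 ^ b) ∅ x (fun _ => x) = Fm F K b x := by
  unfold DS Fm cell
  rw [div_mul_eq_mul_div, mul_sum]
  congr 1
  refine sum_congr rfl fun y _ => ?_
  rw [prod_empty, mul_one]
  by_cases h : y ≡ x [MOD K]
  · rw [if_pos h, if_pos ((ZMod.natCast_eq_natCast_iff _ _ _).mpr h), mul_comm]
  · rw [if_neg h, if_neg (fun h' => h ((ZMod.natCast_eq_natCast_iff _ _ _).mp h'))]
    simp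

theorem gm_head (r0 r1 : ℕ) (hr1 : 1 ≤ r1) : ∃ C : ℕ, ∀ (F : ℕ → ℝ) (B0 : ℝ) (K b j R q : ℕ)
    (PP : Finset ℕ), 1 ≤ K → 2 ≤ R → 1 ≤ q → q ≤ R → (∀ x, |F x| ≤ B0) →
    (∀ p ∈ PP, p.Prime ∧ p ≤ R ∧ ¬ p ∣ K) → q ∣ K →
    ∑ a ∈ range q, |∑ x ∈ (bl b j).filter (fun x => x % q = a),
      (gm F K r0 r1 b PP x - Fm F K b x)| ≤ B0 * ((K * R : ℕ) : ℝ) ^ C := by
  have _ := hr1
  refine ⟨2 * r0 * r1 + 2 * r0 + 4, ?_⟩
  intro F B0 K b j R q PP hK hR hq hqR hF hPP hdvd
  have hB0 : 0 ≤ B0 := (abs_nonneg _).trans (hF 0)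
  apply total_le hB0 hK hqR
  intro a _
  rw [sum_sub_distrib, gm_sum]
  have hmem : (∅ : Finset ℕ) ∈ PP.powerset.filter (fun S => S.card ≤ r0) := by
    rw [mem_filter, mem_powerset]; simp
  rw [← sum_erase_add _ _ hmem]
  have e1 : ∑ x ∈ (bl b j).filter (fun x => x % q = a), DS F K r1 b j ∅ x (fun _ => x) =
      ∑ x ∈ (bl b j).filter (fun x => x % q = a), Fm F K b x := by
    refine sum_congr rfl fun x hx => ?_
    rw [← DS_empty F K r1 b x, bl_div (mem_filter.mp hx).1]
  rw [e1, add_sub_cancel_right]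
  refine (sets_le (r0 := r0) (r1 := r1) hF b j hK hR hq hqR hPP ?_ a).trans ?_
  · intro S hS
    rw [mem_erase, mem_filter, mem_powerset] at hS
    obtain ⟨p, hp⟩ := nonempty_iff_ne_empty.mpr hS.1
    exact ⟨hS.2.1, hS.2.2, p, hp, fun h => (hPP p (hS.2.1 hp)).2.2 (h.trans hdvd)⟩
  · apply mul_le_mul_of_nonneg_left _ hB0
    have : R ^ (2 * r0 + 1) * (K ^ 2 * R ^ (2 * r0 * r1 + 1)) ≤
        R ^ (2 * r0 + 2) * (K ^ 2 * R ^ (2 * r0 * r1 + 1)) :=
      Nat.mul_le_mul_right _ (Nat.pow_le_pow_right (by omega) (by omega))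
    exact_mod_cast this

end

end Pool.Agent.Helper67.NX2

end

section

set_option autoImplicit false

open Finset

open scoped BigOperators ComplexConjugate

namespace Pool.Agent.Helper67.NX2

open Pool.Agent.Helper57.NX

noncomputable section

theorem gmm_DS_zero (F : ℕ → ℝ) (K r1 b j : ℕ) (S : Finset ℕ) (κ : ℕ) (ω : ℕ → ℕ) {p : ℕ}
    (hp : p ∈ S) (hp0 : 0 < p) :
    𝔼 t ∈ range (p ^ r1), DS F K r1 b j S κ (Function.update ω p t) = 0 := by
  have hpr1 : 1 ≤ p ^ r1 := Nat.pos_of_ne_zero (pow_ne_zero _ hp0.ne')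
  have h1 : ∀ t, DS F K r1 b j S κ (Function.update ω p t) =
      ∑ y ∈ bl b j, (F y * (if y ≡ κ [MOD K] then (K : ℝ) else 0) *
        ∏ q ∈ S.erase p, ((if y ≡ ω q [MOD q ^ r1] then (q : ℝ) ^ r1 else 0) - 1)) / 2 ^ b *
        ((if y ≡ t [MOD p ^ r1] then ((p ^ r1 : ℕ) : ℝ) else 0) - 1) := by
    intro t
    unfold DS
    rw [Finset.sum_div]
    refine Finset.sum_congr rfl fun y _ => ?_
    rw [← Finset.mul_prod_erase S _ hp, Function.update_self]
    have h2 : ∏ q ∈ S.erase p,
        ((if y ≡ Function.update ω p t q [MOD q ^ r1] then (q : ℝ) ^ r1 else 0) - 1) =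
        ∏ q ∈ S.erase p, ((if y ≡ ω q [MOD q ^ r1] then (q : ℝ) ^ r1 else 0) - 1) := by
      refine Finset.prod_congr rfl fun q hq => ?_
      rw [Function.update_of_ne (Finset.ne_of_mem_erase hq)]
    rw [h2]
    push_cast
    ring
  rw [Finset.expect_congr rfl (fun t _ => h1 t), Finset.expect_sum_comm]
  refine Finset.sum_eq_zero fun y _ => ?_
  rw [← Finset.mul_expect, gmm_count (p ^ r1) y hpr1, mul_zero]

end

end Pool.Agent.Helper67.NX2

end

section

set_option autoImplicit false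

open Finset

open scoped BigOperators ComplexConjugate

namespace Pool.Agent.Helper67.NX2

open Pool.Agent.Helper57.NX

noncomputable section

section Main

variable {F : ℕ → ℝ} {K b j R r0 r1 : ℕ} {PP : Finset ℕ} {B0 V : ℝ}

/-- the hypothesis of Lemma L -/
theorem gmm_hyp (hPP : ∀ p ∈ PP, p.Prime ∧ p ≤ R ∧ ¬ p ∣ K) (κ : ℕ)
    (hvar : ∀ (B : Finset ℕ) (ω : ℕ → ℕ), B ⊆ PP → B.card ≤ r0 →
      ∑ E ∈ (PP \ B).powerset.filter (fun E => (B ∪ E).card ≤ r0),
        𝔼 t ∈ range (∏ p ∈ E, p ^ r1),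
          DS F K r1 b j (B ∪ E) κ (fun p => if p ∈ B then ω p else t) ^ 2 ≤ V ^ 2)
    (B : Finset {p // p ∈ PP}) (ω : ∀ p : {p // p ∈ PP}, Fin (p.1 ^ r1)) :
    ∑ S ∈ univ.filter (fun S : Finset {p // p ∈ PP} => B ⊆ S ∧ S.card ≤ r0),
      𝔼 ω' : (∀ p : {p // p ∈ PP}, Fin (p.1 ^ r1)),
        |DS F K r1 b j (gmup S) κ (gmext r1 PP (mixo B ω ω'))| ^ 2 ≤ V ^ 2 := by
  classical
  by_cases hB : B.card ≤ r0
  swap
  · rw [Finset.filter_false_of_mem, Finset.sum_empty]
    · (clear * -; positivity)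
    · rintro S - ⟨h1, h2⟩
      exact hB ((Finset.card_le_card h1).trans h2)
  have hterm : ∀ S ∈ univ.filter (fun S : Finset {p // p ∈ PP} => B ⊆ S ∧ S.card ≤ r0),
      𝔼 ω' : (∀ p : {p // p ∈ PP}, Fin (p.1 ^ r1)),
        |DS F K r1 b j (gmup S) κ (gmext r1 PP (mixo B ω ω'))| ^ 2 =
      𝔼 t ∈ range (∏ p ∈ gmup (S \ B), p ^ r1),
        DS F K r1 b j (gmup B ∪ gmup (S \ B)) κ
          (fun p => if p ∈ gmup B then gmext r1 PP ω p else t) ^ 2 := by
    intro S hS
    rw [Finset.mem_filter] at hS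
    have hunion : gmup B ∪ gmup (S \ B) = gmup S := by
      ext p
      rw [Finset.mem_union, mem_gmup, mem_gmup, mem_gmup]
      constructor
      · rintro (⟨hp, h⟩ | ⟨hp, h⟩)
        · exact ⟨hp, hS.2.1 h⟩
        · exact ⟨hp, (Finset.mem_sdiff.mp h).1⟩
      · rintro ⟨hp, h⟩
        by_cases h2 : (⟨p, hp⟩ : {p // p ∈ PP}) ∈ B
        · exact Or.inl ⟨hp, h2⟩
        · exact Or.inr ⟨hp, Finset.mem_sdiff.mpr ⟨h, h2⟩⟩
    rw [hunion]
    have hcrt := gmm_crt 1 r1 le_rfl PP
      (fun p hp => ⟨(hPP p hp).1, fun h => (hPP p hp).1.one_lt.ne' (Nat.dvd_one.mp h)⟩)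
      (gmup (S \ B)) (gmup_sub _)
      (fun _ ω' => DS F K r1 b j (gmup S) κ (fun p => if p ∈ gmup B then gmext r1 PP ω p else ω' p) ^ 2)
      (by
        intro _ _ ω₁ ω₂ _ h
        beta_reduce
        congr 1
        refine gmm_DS_congr F K r1 b j (gmup S) (Nat.ModEq.refl _) ?_
        intro p hp
        beta_reduce
        split_ifs with hpB
        · rfl
        · refine h p ?_
          rw [← hunion, Finset.mem_union] at hp
          exact hp.resolve_left hpB)
    rw [one_mul] at hcrt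
    rw [hcrt, Finset.range_one, Finset.expect_singleton]
    refine Finset.expect_congr rfl fun ω' _ => ?_
    rw [sq_abs]
    congr 2
    funext p
    exact gmext_mixo B ω ω' p
  rw [Finset.sum_congr rfl hterm]
  have hmaps : ∀ S ∈ univ.filter (fun S : Finset {p // p ∈ PP} => B ⊆ S ∧ S.card ≤ r0),
      gmup (S \ B) ∈ (PP \ gmup B).powerset.filter (fun E => (gmup B ∪ E).card ≤ r0) := by
    intro S hS
    rw [Finset.mem_filter] at hS
    rw [Finset.mem_filter, Finset.mem_powerset]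
    refine ⟨?_, ?_⟩
    · intro p hp
      rw [mem_gmup] at hp
      obtain ⟨hp1, hp2⟩ := hp
      rw [Finset.mem_sdiff] at hp2 ⊢
      refine ⟨hp1, ?_⟩
      rw [mem_gmup]
      rintro ⟨_, h⟩
      exact hp2.2 h
    · refine le_trans (Finset.card_le_card ?_) (le_of_eq (gmup_card S) |>.trans hS.2.2)
      intro p hp
      rw [Finset.mem_union, mem_gmup, mem_gmup] at hp
      rw [mem_gmup]
      rcases hp with ⟨hp1, h⟩ | ⟨hp1, h⟩
      · exact ⟨hp1, hS.2.1 h⟩
      · exact ⟨hp1, (Finset.mem_sdiff.mp h).1⟩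
  have hinj : Set.InjOn (fun S : Finset {p // p ∈ PP} => gmup (S \ B))
      (univ.filter (fun S : Finset {p // p ∈ PP} => B ⊆ S ∧ S.card ≤ r0) :
        Finset (Finset {p // p ∈ PP})) := by
    intro S hS S' hS' h
    have h1 := (Finset.mem_filter.mp (Finset.mem_coe.mp hS)).2.1
    have h2 := (Finset.mem_filter.mp (Finset.mem_coe.mp hS')).2.1
    have h3 : S \ B = S' \ B := gmup_inj h
    calc S = S \ B ∪ B := (Finset.sdiff_union_of_subset h1).symm
      _ = S' \ B ∪ B := by rw [h3]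
      _ = S' := Finset.sdiff_union_of_subset h2
  have himg := Finset.sum_image (f := fun E : Finset ℕ =>
    𝔼 t ∈ range (∏ p ∈ E, p ^ r1), DS F K r1 b j (gmup B ∪ E) κ
          (fun p => if p ∈ gmup B then gmext r1 PP ω p else t) ^ 2) hinj
  beta_reduce at himg
  rw [← himg]
  refine le_trans ?_ (hvar (gmup B) (gmext r1 PP ω) (gmup_sub B) (by rw [gmup_card]; exact hB))
  refine Finset.sum_le_sum_of_subset_of_nonneg ?_ ?_
  · intro E hE
    rw [Finset.mem_image] at hE
    obtain ⟨S, hS, rfl⟩ := hE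
    exact hmaps S hS
  · intro E _ _
    exact Finset.expect_nonneg fun t _ => sq_nonneg _

end Main

theorem gm_moment_of (k r0 r1 : ℕ) (hr1 : 1 ≤ r1) (hL : LemLS (2 * k) r0) :
    ∃ C : ℕ, ∀ (F : ℕ → ℝ) (K b j R : ℕ)
    (PP : Finset ℕ) (B0 V : ℝ), 1 ≤ K → 2 ≤ R → (∀ p ∈ PP, p.Prime ∧ p ≤ R ∧ ¬ p ∣ K) →
    (∀ x, |F x| ≤ B0) → 0 ≤ V →
    (∀ (κ : ℕ) (B : Finset ℕ) (ω : ℕ → ℕ), B ⊆ PP → B.card ≤ r0 →
      ∑ E ∈ (PP \ B).powerset.filter (fun E => (B ∪ E).card ≤ r0),
        𝔼 t ∈ range (∏ p ∈ E, p ^ r1),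
          DS F K r1 b j (B ∪ E) κ (fun p => if p ∈ B then ω p else t) ^ 2 ≤ V ^ 2) →
    (∑ x ∈ bl b j, gm F K r0 r1 b PP x ^ (2 * k)) / 2 ^ b ≤
      C * V ^ (2 * k) + B0 ^ (2 * k) * ((K * R : ℕ) : ℝ) ^ C / 2 ^ b := by
  classical
  obtain ⟨KL, hKL0, hL⟩ := hL
  set Ce : ℕ := (2 * r0 + 1) * (2 * k) + 1 + (1 + r1 * (r0 * (2 * k))) + (2 * k + r0 * r1 * (2 * k))
    with hCe
  refine ⟨⌈KL⌉₊ + Ce, ?_⟩
  intro F K b j R PP B0 V hK hR hPP hF hV hvar
  have hB0 : 0 ≤ B0 := (abs_nonneg _).trans (hF 0)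
  have hR1 : (1 : ℝ) ≤ R := by
    have : (2 : ℝ) ≤ R := by exact_mod_cast hR
    (clear * - this; linarith)
  have hR2 : (2 : ℝ) ≤ R := by exact_mod_cast hR
  have hK1 : (1 : ℝ) ≤ K := by exact_mod_cast hK
  have hne : ∀ p : {p // p ∈ PP}, Nonempty (Fin (p.1 ^ r1)) := fun p =>
    ⟨⟨0, pow_pos (hPP p.1 p.2).1.pos r1⟩⟩
  exact by
    have h2b : (0 : ℝ) < (2 : ℝ) ^ b := by positivity
    set SF := (univ : Finset (Finset {p // p ∈ PP})).filter (fun S => S.card ≤ r0) with hSF
    set PF := Fintype.piFinset (fun _ : Fin (2 * k) => SF) with hPF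
    -- the products
    set T : (Fin (2 * k) → Finset {p // p ∈ PP}) → ℕ → (ℕ → ℕ) → ℝ :=
      fun Ss κ ω => ∏ a, DS F K r1 b j (gmup (Ss a)) κ ω with hT
    set BB : ℝ := B0 * K * (R : ℝ) ^ (r0 * r1) with hBB
    exact by
      have hBB0 : 0 ≤ BB := by (clear * - hB0 hK hR; positivity)
      have hDSle : ∀ S ∈ SF, ∀ κ ω, |DS F K r1 b j (gmup S) κ ω| ≤ BB := by
        intro S hS κ ω
        refine gmm_DS_le F K r1 r0 b j R B0 hF (gmup S) ?_ (by omega) ?_ κ ω
        · intro p hp
          exact ⟨(hPP p (gmup_sub S hp)).1.one_le, (hPP p (gmup_sub S hp)).2.1⟩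
        · rw [gmup_card]
          exact (Finset.mem_filter.mp hS).2
      have hTle : ∀ Ss ∈ PF, ∀ κ ω, |T Ss κ ω| ≤ BB ^ (2 * k) := by
        intro Ss hSs κ ω
        rw [hT]
        beta_reduce
        rw [Finset.abs_prod]
        calc ∏ a, |DS F K r1 b j (gmup (Ss a)) κ ω| ≤ ∏ _a : Fin (2 * k), BB :=
              Finset.prod_le_prod (fun a _ => abs_nonneg _)
                fun a _ => hDSle (Ss a) (Fintype.mem_piFinset.mp hSs a) κ ω
          _ = BB ^ (2 * k) := by rw [Finset.prod_const, Finset.card_univ, Fintype.card_fin]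
      -- expansion
      have hexp : ∀ x ∈ bl b j, gm F K r0 r1 b PP x ^ (2 * k) = ∑ Ss ∈ PF, T Ss x (fun _ => x) := by
        intro x hx
        have hxj : x / 2 ^ b = j := by
          unfold bl at hx
          rw [Finset.mem_Ico] at hx
          exact Nat.div_eq_of_lt_le (by rw [mul_comm]; exact hx.1) (by rw [mul_comm]; exact hx.2)
        have h1 : gm F K r0 r1 b PP x = ∑ S ∈ SF, DS F K r1 b j (gmup S) x (fun _ => x) := by
          unfold gm
          rw [hxj, gmm_sum_reindex]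
        have h2 := Finset.prod_univ_sum (fun _ : Fin (2 * k) => SF)
          (fun _ S => DS F K r1 b j (gmup S) x (fun _ => x))
        rw [Finset.prod_const, Finset.card_univ, Fintype.card_fin] at h2
        rw [h1, h2]
      -- the union of the primes
      set UU : (Fin (2 * k) → Finset {p // p ∈ PP}) → Finset ℕ :=
        fun Ss => univ.biUnion (fun a => gmup (Ss a)) with hUU
      exact by
        have hUUsub : ∀ Ss, UU Ss ⊆ PP := by
          intro Ss p hp
          rw [hUU, Finset.mem_biUnion] at hp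
          obtain ⟨a, -, ha⟩ := hp
          exact gmup_sub _ ha
        have hTcongr : ∀ Ss κ κ' ω ω', κ ≡ κ' [MOD K] → (∀ q ∈ UU Ss, ω q ≡ ω' q [MOD q ^ r1]) →
            T Ss κ ω = T Ss κ' ω' := by
          intro Ss κ κ' ω ω' h1 h2
          refine Finset.prod_congr rfl fun a _ => ?_
          refine gmm_DS_congr F K r1 b j _ h1 ?_
          intro p hp
          refine h2 p ?_
          rw [hUU, Finset.mem_biUnion]
          exact ⟨a, Finset.mem_univ a, hp⟩
        have hUUmod : ∀ Ss ∈ PF, ((∏ p ∈ UU Ss, p ^ r1 : ℕ) : ℝ) ≤ (R : ℝ) ^ (r1 * (r0 * (2 * k))) := by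
          intro Ss hSs
          have h1 : (UU Ss).card ≤ r0 * (2 * k) := by
            refine Finset.card_biUnion_le.trans ?_
            calc ∑ a, (gmup (Ss a)).card ≤ ∑ _a : Fin (2 * k), r0 := by
                  refine Finset.sum_le_sum fun a _ => ?_
                  rw [gmup_card]
                  exact (Finset.mem_filter.mp (Fintype.mem_piFinset.mp hSs a)).2
              _ = r0 * (2 * k) := by
                  rw [Finset.sum_const, Finset.card_univ, Fintype.card_fin, smul_eq_mul, mul_comm]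
          push_cast
          calc ∏ p ∈ UU Ss, (p : ℝ) ^ r1 ≤ ∏ _p ∈ UU Ss, (R : ℝ) ^ r1 := by
                refine Finset.prod_le_prod (fun p _ => by (clear * -; positivity)) fun p hp => ?_
                have h2 : (p : ℝ) ≤ R := by exact_mod_cast (hPP p (hUUsub Ss hp)).2.1
                exact pow_le_pow_left₀ (Nat.cast_nonneg _) h2 _
            _ = (R : ℝ) ^ (r1 * (UU Ss).card) := by rw [Finset.prod_const, ← pow_mul]
            _ ≤ _ := pow_le_pow_right₀ hR1 (Nat.mul_le_mul_left r1 h1)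
        -- averages over a block
        have hblock : ∀ Ss ∈ PF, (∑ x ∈ bl b j, T Ss x (fun _ => x)) / 2 ^ b ≤
            𝔼 κ ∈ range K, 𝔼 ω : (∀ p : {p // p ∈ PP}, Fin (p.1 ^ r1)), T Ss κ (gmext r1 PP ω) +
              2 * (K * (R : ℝ) ^ (r1 * (r0 * (2 * k)))) * BB ^ (2 * k) / 2 ^ b := by
          intro Ss hSs
          have hM1 : 1 ≤ K * ∏ p ∈ UU Ss, p ^ r1 :=
            Nat.mul_pos hK (Finset.prod_pos fun p hp => pow_pos (hPP p (hUUsub Ss hp)).1.pos _)
          have h1 := gmm_periodic_avg (K * ∏ p ∈ UU Ss, p ^ r1) b j hM1 (fun x => T Ss x (fun _ => x))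
            (BB ^ (2 * k)) (fun x => hTle Ss hSs x _) (by
              intro x
              refine hTcongr Ss _ _ _ _ ?_ ?_
              · have h2 : x + K * ∏ p ∈ UU Ss, p ^ r1 ≡ x + 0 [MOD K] :=
                  Nat.ModEq.add_left x ((Nat.modEq_zero_iff_dvd).mpr (dvd_mul_right _ _))
                exact h2
              · intro q hq
                have h2 : x + K * ∏ p ∈ UU Ss, p ^ r1 ≡ x + 0 [MOD q ^ r1] :=
                  Nat.ModEq.add_left x ((Nat.modEq_zero_iff_dvd).mpr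
                    (Dvd.dvd.mul_left (Finset.dvd_prod_of_mem (fun q => q ^ r1) hq) K))
                exact h2)
          rw [gmm_crt K r1 hK PP (fun p hp => ⟨(hPP p hp).1, (hPP p hp).2.2⟩) (UU Ss) (hUUsub Ss)
            (T Ss) (hTcongr Ss)] at h1
          have h2 := (abs_le.mp h1).2
          have h3 : 2 * ((K * ∏ p ∈ UU Ss, p ^ r1 : ℕ) : ℝ) * BB ^ (2 * k) / 2 ^ b ≤
              2 * (K * (R : ℝ) ^ (r1 * (r0 * (2 * k)))) * BB ^ (2 * k) / 2 ^ b := by
            have h4 := hUUmod Ss hSs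
            rw [Nat.cast_mul]
            (clear * - h4 hK hB0 hR; gcongr)
          (clear * - h2 h3; linarith)
        -- vanishing
        have hvanish : ∀ (κ : ℕ) (Ss : Fin (2 * k) → Finset {p // p ∈ PP}),
            (∃ i, (univ.filter (fun a => i ∈ Ss a)).card = 1) →
            𝔼 ω : (∀ p : {p // p ∈ PP}, Fin (p.1 ^ r1)), T Ss κ (gmext r1 PP ω) = 0 := by
          rintro κ Ss ⟨i, hi⟩
          rw [Finset.card_eq_one] at hi
          obtain ⟨a, ha⟩ := hi
          have hia : i ∈ Ss a := by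
            have : a ∈ univ.filter (fun a => i ∈ Ss a) := by rw [ha]; exact Finset.mem_singleton_self a
            exact (Finset.mem_filter.mp this).2
          have hother : ∀ a', a' ≠ a → i ∉ Ss a' := by
            intro a' ha' h
            have : a' ∈ univ.filter (fun a => i ∈ Ss a) := Finset.mem_filter.mpr ⟨Finset.mem_univ _, h⟩
            rw [ha, Finset.mem_singleton] at this
            exact ha' this
          rw [← gmm_update (fun p : {p // p ∈ PP} => Fin (p.1 ^ r1)) (fun ω => T Ss κ (gmext r1 PP ω)) i]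
          refine Finset.expect_eq_zero fun ω _ => ?_
          have h1 : ∀ t : Fin (i.1 ^ r1), T Ss κ (gmext r1 PP (Function.update ω i t)) =
              (∏ a' ∈ univ.erase a, DS F K r1 b j (gmup (Ss a')) κ (gmext r1 PP ω)) *
                DS F K r1 b j (gmup (Ss a)) κ (Function.update (gmext r1 PP ω) i.1 (t : ℕ)) := by
            intro t
            rw [gmext_update]
            change ∏ a', DS F K r1 b j (gmup (Ss a')) κ (Function.update (gmext r1 PP ω) i.1 (t : ℕ)) = _
            rw [← Finset.prod_erase_mul univ _ (Finset.mem_univ a)]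
            congr 1
            refine Finset.prod_congr rfl fun a' ha' => ?_
            refine gmm_DS_congr F K r1 b j _ (Nat.ModEq.refl _) ?_
            intro p hp
            have hpi : p ≠ i.1 := by
              rintro rfl
              exact hother a' (Finset.ne_of_mem_erase ha') (mem_gmup'.mp hp)
            rw [Function.update_of_ne hpi]
          rw [Finset.expect_congr rfl (fun t _ => h1 t), ← Finset.mul_expect,
            ← gmm_expect_fin (i.1 ^ r1) (fun t => DS F K r1 b j (gmup (Ss a)) κ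
              (Function.update (gmext r1 PP ω) i.1 t)),
            gmm_DS_zero F K r1 b j (gmup (Ss a)) κ (gmext r1 PP ω) (mem_gmup'.mpr hia)
              (hPP i.1 i.2).1.pos, mul_zero]
        -- Lemma L
        have hmain : ∀ κ : ℕ, ∑ Ss ∈ PF,
            𝔼 ω : (∀ p : {p // p ∈ PP}, Fin (p.1 ^ r1)), T Ss κ (gmext r1 PP ω) ≤ KL * V ^ (2 * k) := by
          intro κ
          have h1 := hL {p // p ∈ PP} (fun p => Fin (p.1 ^ r1))
            (fun _ S ω => |DS F K r1 b j (gmup S) κ (gmext r1 PP ω)|) (fun _ => V)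
            (fun _ S ω => abs_nonneg _)
            (by
              intro _ S ω ω' h
              beta_reduce
              congr 1
              refine gmm_DS_congr F K r1 b j _ (Nat.ModEq.refl _) ?_
              intro p hp
              obtain ⟨hp1, hp2⟩ := mem_gmup.mp hp
              have h2 := h ⟨p, hp1⟩ hp2
              have h3 := gmext_mem ω ⟨p, hp1⟩
              have h4 := gmext_mem ω' ⟨p, hp1⟩
              rw [h2] at h3
              change gmext r1 PP ω p = _ at h3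
              change gmext r1 PP ω' p = _ at h4
              rw [h3, h4])
            (fun _ => hV)
            (fun _ B ω => gmm_hyp hPP κ (hvar κ) B ω)
          rw [Finset.prod_const, Finset.card_univ, Fintype.card_fin] at h1
          refine le_trans ?_ h1
          have hsub : univ.filter (fun Ss : Fin (2 * k) → Finset {p // p ∈ PP} =>
              (∀ a, (Ss a).card ≤ r0) ∧ ∀ i, (univ.filter (fun a => i ∈ Ss a)).card ≠ 1) =
              PF.filter (fun Ss => ∀ i, (univ.filter (fun a => i ∈ Ss a)).card ≠ 1) := by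
            ext Ss
            rw [Finset.mem_filter, Finset.mem_filter, hPF, Fintype.mem_piFinset]
            constructor
            · rintro ⟨-, h2, h3⟩
              exact ⟨fun a => Finset.mem_filter.mpr ⟨Finset.mem_univ _, h2 a⟩, h3⟩
            · rintro ⟨h2, h3⟩
              exact ⟨Finset.mem_univ _, fun a => (Finset.mem_filter.mp (h2 a)).2, h3⟩
          rw [hsub, Finset.sum_filter]
          refine Finset.sum_le_sum fun Ss _ => ?_
          split_ifs with hgood
          · refine Finset.expect_le_expect fun ω _ => ?_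
            change ∏ a, DS F K r1 b j (gmup (Ss a)) κ (gmext r1 PP ω) ≤
              ∏ a, |DS F K r1 b j (gmup (Ss a)) κ (gmext r1 PP ω)|
            refine (le_abs_self _).trans ?_
            rw [Finset.abs_prod]
          · push Not at hgood
            exact (hvanish κ Ss hgood).le
        -- conclusion
        exact by
          have hsum : (∑ x ∈ bl b j, gm F K r0 r1 b PP x ^ (2 * k)) / 2 ^ b =
              ∑ Ss ∈ PF, (∑ x ∈ bl b j, T Ss x (fun _ => x)) / 2 ^ b := by
            rw [Finset.sum_congr rfl hexp, Finset.sum_comm, Finset.sum_div]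
          rw [hsum]
          refine (Finset.sum_le_sum hblock).trans ?_
          rw [Finset.sum_add_distrib, ← Finset.expect_sum_comm, Finset.sum_const, nsmul_eq_mul]
          have hKne : (range K).Nonempty := Finset.nonempty_range_iff.mpr (by (clear * - k r0 r1 R hK; omega))
          have hpart1 : 𝔼 κ ∈ range K, ∑ Ss ∈ PF,
              𝔼 ω : (∀ p : {p // p ∈ PP}, Fin (p.1 ^ r1)), T Ss κ (gmext r1 PP ω) ≤
              ((⌈KL⌉₊ + Ce : ℕ) : ℝ) * V ^ (2 * k) := by
            refine (Finset.expect_le hKne fun κ _ => hmain κ).trans ?_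
            refine mul_le_mul_of_nonneg_right ?_ (by (clear * - hV; positivity))
            push_cast
            have := Nat.le_ceil KL
            have h2 : (0 : ℝ) ≤ Ce := Nat.cast_nonneg _
            (clear * - this; linarith)
          have hcard : (PF.card : ℝ) ≤ (R : ℝ) ^ ((2 * r0 + 1) * (2 * k)) := by
            rw [hPF, Fintype.card_piFinset, Finset.prod_const, Finset.card_univ, Fintype.card_fin,
              Nat.cast_pow, pow_mul (R : ℝ) (2 * r0 + 1) (2 * k)]
            exact pow_le_pow_left₀ (Nat.cast_nonneg _) (gmm_count_subsets hR hPP) _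
          have hpart2 : (PF.card : ℝ) * (2 * (K * (R : ℝ) ^ (r1 * (r0 * (2 * k)))) * BB ^ (2 * k) / 2 ^ b) ≤
              B0 ^ (2 * k) * ((K * R : ℕ) : ℝ) ^ (⌈KL⌉₊ + Ce) / 2 ^ b := by
            rw [← mul_div_assoc]
            refine div_le_div_of_nonneg_right ?_ h2b.le
            set Z : ℝ := ((K * R : ℕ) : ℝ) with hZ
            have hZ1 : 1 ≤ Z := by
              rw [hZ]
              push_cast
              (clear * - hK1 hR1; nlinarith)
            have hKZ : (K : ℝ) ≤ Z := by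
              rw [hZ]
              push_cast
              (clear * - hR1; nlinarith)
            have hRZ : (R : ℝ) ≤ Z := by
              rw [hZ]
              push_cast
              (clear * - hK1; nlinarith)
            have h2Z : (2 : ℝ) ≤ Z := hR2.trans hRZ
            have hBBk : BB ^ (2 * k) ≤ B0 ^ (2 * k) * Z ^ (2 * k + r0 * r1 * (2 * k)) := by
              rw [hBB, mul_pow, mul_pow, ← pow_mul, mul_assoc]
              refine mul_le_mul_of_nonneg_left ?_ (by (clear * - hB0; positivity))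
              rw [pow_add]
              exact mul_le_mul (pow_le_pow_left₀ (by positivity) hKZ _)
                (pow_le_pow_left₀ (by positivity) hRZ _) (by positivity) (by positivity)
            have hKR : 2 * (K * (R : ℝ) ^ (r1 * (r0 * (2 * k)))) ≤ Z ^ (1 + (1 + r1 * (r0 * (2 * k)))) := by
              rw [pow_add, pow_add, pow_one]
              exact mul_le_mul h2Z (mul_le_mul hKZ (pow_le_pow_left₀ (by positivity) hRZ _)
                (by positivity) (by positivity)) (by positivity) (by positivity)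
            have hcardZ : (PF.card : ℝ) ≤ Z ^ ((2 * r0 + 1) * (2 * k)) :=
              hcard.trans (pow_le_pow_left₀ (by positivity) hRZ _)
            calc (PF.card : ℝ) * (2 * (K * (R : ℝ) ^ (r1 * (r0 * (2 * k)))) * BB ^ (2 * k))
                ≤ Z ^ ((2 * r0 + 1) * (2 * k)) * (Z ^ (1 + (1 + r1 * (r0 * (2 * k)))) *
                  (B0 ^ (2 * k) * Z ^ (2 * k + r0 * r1 * (2 * k)))) := by
                  refine mul_le_mul hcardZ (mul_le_mul hKR hBBk (by (clear * - hB0 hK hR; positivity)) (by positivity))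
                    (by (clear * - hK hR hB0; positivity)) (by positivity)
              _ = B0 ^ (2 * k) * Z ^ Ce := by
                  rw [hCe]
                  ring
              _ ≤ B0 ^ (2 * k) * Z ^ (⌈KL⌉₊ + Ce) := by
                  refine mul_le_mul_of_nonneg_left ?_ (by (clear * - hB0; positivity))
                  exact pow_le_pow_right₀ hZ1 (by (clear * - K R; omega))
          (clear * - hpart1 hpart2; linarith)

end

end Pool.Agent.Helper67.NX2

end

section

set_option autoImplicit false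

open Finset

open scoped BigOperators ComplexConjugate

namespace Pool.Agent.Helper67.NX2

open Pool.Agent.Helper57.NX

noncomputable section

theorem gm_moment (k r0 r1 : ℕ) (hr1 : 1 ≤ r1) : ∃ C : ℕ, ∀ (F : ℕ → ℝ) (K b j R : ℕ)
    (PP : Finset ℕ) (B0 V : ℝ), 1 ≤ K → 2 ≤ R → (∀ p ∈ PP, p.Prime ∧ p ≤ R ∧ ¬ p ∣ K) →
    (∀ x, |F x| ≤ B0) → 0 ≤ V →
    (∀ (κ : ℕ) (B : Finset ℕ) (ω : ℕ → ℕ), B ⊆ PP → B.card ≤ r0 →
      ∑ E ∈ (PP \ B).powerset.filter (fun E => (B ∪ E).card ≤ r0),
        𝔼 t ∈ range (∏ p ∈ E, p ^ r1),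
          DS F K r1 b j (B ∪ E) κ (fun p => if p ∈ B then ω p else t) ^ 2 ≤ V ^ 2) →
    (∑ x ∈ bl b j, gm F K r0 r1 b PP x ^ (2 * k)) / 2 ^ b ≤
      C * V ^ (2 * k) + B0 ^ (2 * k) * ((K * R : ℕ) : ℝ) ^ C / 2 ^ b :=
  gm_moment_of k r0 r1 hr1 (lemL (2 * k) r0)

end

end Pool.Agent.Helper67.NX2

end

section

set_option autoImplicit false

open Finset Real

namespace Pool.Agent.Helper44

theorem mertens_prod : ∃ c C : ℝ, 0 < c ∧ 0 < C ∧ ∀ w : ℝ, 2 ≤ w →
    c / Real.log w ≤ ∏ q ∈ primesUpTo w, (1 - (1 : ℝ) / q) ∧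
    ∏ q ∈ primesUpTo w, (1 - (1 : ℝ) / q) ≤ C / Real.log w := by
  obtain ⟨C, hC, hM⟩ := sum_primesUpTo_bounds
  obtain ⟨C2, hC2, hS⟩ := sum_inv_sq_le
  refine ⟨Real.exp (-(C + 2 * C2)), Real.exp C, Real.exp_pos _, Real.exp_pos _, ?_⟩
  intro w hw
  have hlw : 0 < Real.log w := Real.log_pos (by linarith)
  have h1 := hM w hw
  rw [abs_le] at h1
  have hq : ∀ q ∈ primesUpTo w, (0 : ℝ) ≤ 1 / q ∧ (1 : ℝ) / q ≤ 1 / 2 := by
    intro q hq
    rw [mem_primesUpTo (by linarith)] at hq
    have : (2 : ℝ) ≤ q := by exact_mod_cast hq.1.two_le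
    exact ⟨by positivity, one_div_le_one_div_of_le (by norm_num) this⟩
  constructor
  · calc Real.exp (-(C + 2 * C2)) / Real.log w
        = Real.exp (-(C + 2 * C2) - Real.log (Real.log w)) := by
          rw [Real.exp_sub, Real.exp_log hlw]
      _ ≤ Real.exp (-∑ q ∈ primesUpTo w, ((1 : ℝ) / q + 2 * ((1 : ℝ) / q) ^ 2)) := by
          apply Real.exp_le_exp.mpr
          rw [Finset.sum_add_distrib, ← Finset.mul_sum]
          have := hS (primesUpTo w)
          linarith [h1.2]
      _ = ∏ q ∈ primesUpTo w, Real.exp (-((1 : ℝ) / q + 2 * ((1 : ℝ) / q) ^ 2)) := by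
          rw [← Finset.sum_neg_distrib, Real.exp_sum]
      _ ≤ ∏ q ∈ primesUpTo w, (1 - (1 : ℝ) / q) := by
          apply Finset.prod_le_prod
          · intro q _; exact (Real.exp_pos _).le
          · intro q hq'
            exact one_sub_ge_exp' (hq q hq').1 (hq q hq').2
  · calc ∏ q ∈ primesUpTo w, (1 - (1 : ℝ) / q)
        ≤ ∏ q ∈ primesUpTo w, Real.exp (-((1 : ℝ) / q)) := by
          apply Finset.prod_le_prod
          · intro q hq'
            linarith [(hq q hq').2]
          · intro q _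
            have := Real.add_one_le_exp (-((1 : ℝ) / q))
            linarith
      _ = Real.exp (-∑ q ∈ primesUpTo w, (1 : ℝ) / q) := by
          rw [← Real.exp_sum, Finset.sum_neg_distrib]
      _ ≤ Real.exp (C - Real.log (Real.log w)) := by
          apply Real.exp_le_exp.mpr
          linarith [h1.1]
      _ = Real.exp C / Real.log w := by rw [Real.exp_sub, Real.exp_log hlw]

end Pool.Agent.Helper44

end

section

set_option autoImplicit false

open Finset

namespace Pool.Agent.Helper67.NX2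

theorem totient_ratio : ∃ C : ℝ, 0 < C ∧ ∀ M R : ℕ, 1 ≤ M → 2 ≤ R →
    (∀ p : ℕ, p.Prime → p ∣ M → p ≤ R) → (M : ℝ) / M.totient ≤ C * Real.log R := by
  obtain ⟨c, C', hc, -, hM⟩ := Pool.Agent.Helper44.mertens_prod
  refine ⟨1 / c, by positivity, ?_⟩
  intro M R hM1 hR2 hMR
  have hR2' : (2 : ℝ) ≤ R := by exact_mod_cast hR2
  have hlog : 0 < Real.log R := Real.log_pos (by linarith)
  have h1 := (hM R hR2').1
  -- the totient
  have hM0 : (0 : ℝ) < M := by exact_mod_cast hM1
  have htot : (M.totient : ℝ) = M * ∏ p ∈ M.primeFactors, (1 - (1 : ℝ) / p) := by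
    have h := Nat.totient_eq_mul_prod_factors M
    have h' : ((M.totient : ℚ) : ℝ) = ((M * ∏ p ∈ M.primeFactors, (1 - (p : ℚ)⁻¹) : ℚ) : ℝ) := by
      rw [h]
    push_cast at h'
    rw [h']
    congr 1
    apply Finset.prod_congr rfl
    intro p _
    rw [one_div]
  have hsub : M.primeFactors ⊆ Pool.Agent.Helper44.primesUpTo (R : ℝ) := by
    intro p hp
    rw [Pool.Agent.Helper44.mem_primesUpTo (by positivity)]
    have hpp := Nat.prime_of_mem_primeFactors hp
    refine ⟨hpp, ?_⟩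
    exact_mod_cast hMR p hpp (Nat.dvd_of_mem_primeFactors hp)
  have hfac : ∀ p : ℕ, p.Prime → 0 < 1 - (1 : ℝ) / p ∧ 1 - (1 : ℝ) / p ≤ 1 := by
    intro p hp
    have h2 : (2 : ℝ) ≤ p := by exact_mod_cast hp.two_le
    have h3 : (1 : ℝ) / p ≤ 1 / 2 := one_div_le_one_div_of_le (by norm_num) h2
    have h4 : 0 ≤ (1 : ℝ) / p := by positivity
    constructor <;> linarith
  have hle : ∏ q ∈ Pool.Agent.Helper44.primesUpTo (R : ℝ), (1 - (1 : ℝ) / q) ≤
      ∏ p ∈ M.primeFactors, (1 - (1 : ℝ) / p) := by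
    rw [← Finset.prod_sdiff hsub]
    have hA : ∏ q ∈ Pool.Agent.Helper44.primesUpTo (R : ℝ) \ M.primeFactors, (1 - (1 : ℝ) / q) ≤ 1 := by
      apply Finset.prod_le_one
      · intro q hq
        rw [Finset.mem_sdiff, Pool.Agent.Helper44.mem_primesUpTo (by positivity)] at hq
        exact (hfac q hq.1.1).1.le
      · intro q hq
        rw [Finset.mem_sdiff, Pool.Agent.Helper44.mem_primesUpTo (by positivity)] at hq
        exact (hfac q hq.1.1).2
    have hB : 0 ≤ ∏ p ∈ M.primeFactors, (1 - (1 : ℝ) / p) :=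
      Finset.prod_nonneg fun p hp => (hfac p (Nat.prime_of_mem_primeFactors hp)).1.le
    exact mul_le_of_le_one_left hB hA
  have hpos : 0 < ∏ p ∈ M.primeFactors, (1 - (1 : ℝ) / p) :=
    Finset.prod_pos fun p hp => (hfac p (Nat.prime_of_mem_primeFactors hp)).1
  have hge : c / Real.log R ≤ ∏ p ∈ M.primeFactors, (1 - (1 : ℝ) / p) := h1.trans hle
  rw [htot, div_mul_eq_div_div, div_self hM0.ne', one_div_mul_eq_div]
  calc 1 / ∏ p ∈ M.primeFactors, (1 - (1 : ℝ) / p) ≤ 1 / (c / Real.log R) :=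
        one_div_le_one_div_of_le (by positivity) hge
    _ = Real.log R / c := by rw [one_div_div]

theorem rough_sum : ∃ c : ℝ, 0 < c ∧ ∀ R Y : ℕ, 2 ≤ R → 2 ≤ Y →
    c * Real.log Y / Real.log R ≤
      ∑ r ∈ (Icc 1 Y).filter (fun r => Squarefree r ∧ ∀ p ∈ r.primeFactors, R < p),
        (1 : ℝ) / r.totient := by
  obtain ⟨C, hC, hM⟩ := totient_ratio
  refine ⟨1 / C, by positivity, ?_⟩
  intro R Y hR hY
  have hR2' : (2 : ℝ) ≤ R := by exact_mod_cast hR
  have hlog : 0 < Real.log R := Real.log_pos (by linarith)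
  set D := primorial R with hD
  have hDpos : 0 < D := primorial_pos R
  have h1 := hM D R hDpos hR (fun p hp hpd => hp.dvd_primorial_iff.1 hpd)
  have h2 := Pool.Agent.Helper69.EK.GG_lower D Y hDpos
  have hset : Pool.Agent.Helper69.EK.AA D Y =
      (Icc 1 Y).filter (fun r => Squarefree r ∧ ∀ p ∈ r.primeFactors, R < p) := by
    ext l
    rw [Pool.Agent.Helper69.EK.mem_AA, Finset.mem_filter, Finset.mem_Icc]
    constructor
    · rintro ⟨hl, hsq, hco⟩
      refine ⟨hl, hsq, ?_⟩
      intro p hp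
      by_contra hle
      push Not at hle
      have hpp := Nat.prime_of_mem_primeFactors hp
      have hpD : p ∣ D := hpp.dvd_primorial_iff.2 hle
      have hpl : p ∣ l := Nat.dvd_of_mem_primeFactors hp
      have := Nat.dvd_gcd hpl hpD
      rw [hco] at this
      exact hpp.one_lt.ne' (Nat.dvd_one.1 this)
    · rintro ⟨hl, hsq, hp⟩
      refine ⟨hl, hsq, ?_⟩
      apply Nat.coprime_of_dvd
      intro p hpp hpl hpD
      have h3 : p ≤ R := hpp.dvd_primorial_iff.1 hpD
      have h4 := hp p (Nat.mem_primeFactors.2 ⟨hpp, hpl, by omega⟩)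
      omega
  rw [Pool.Agent.Helper69.EK.GG, hset] at h2
  set S := ∑ r ∈ (Icc 1 Y).filter (fun r => Squarefree r ∧ ∀ p ∈ r.primeFactors, R < p),
        (1 : ℝ) / r.totient with hS
  have hS0 : 0 ≤ S := Finset.sum_nonneg fun _ _ => by positivity
  have h3 : Real.log Y ≤ C * Real.log R * S := h2.trans (mul_le_mul_of_nonneg_right h1 hS0)
  rw [div_le_iff₀ hlog, one_div_mul_eq_div, div_le_iff₀ hC]
  linarith

end Pool.Agent.Helper67.NX2

end

section

set_option autoImplicit false

open Finset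

open scoped BigOperators ComplexConjugate

namespace Pool.Agent.Helper67.NX2

open Pool.Agent.Helper57.NX

open Pool.Agent.Helper92.NX2

noncomputable section

theorem FA_nonneg (z : ℕ) (A : Finset ℕ) (x : ℕ) : 0 ≤ FA z A x := by
  unfold FA
  split_ifs
  · exact Real.log_nonneg (one_le_pow₀ (by norm_num))
  · exact le_rfl

theorem FA_abs_le (z : ℕ) (A : Finset ℕ) (x : ℕ) :
    |FA z A x| ≤ Real.log ((2 : ℝ) ^ z) := by
  rw [abs_of_nonneg (FA_nonneg z A x)]
  unfold FA
  split_ifs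
  · exact le_rfl
  · exact Real.log_nonneg (one_le_pow₀ (by norm_num))

theorem FA_support {z : ℕ} {A : Finset ℕ} (hA : PrA z A) (x : ℕ) (hx : 2 ^ z ≤ x) :
    FA z A x = 0 := by
  unfold FA
  rw [if_neg]
  intro h
  have := (hA x h).2.1
  omega

theorem gm_support {F : ℕ → ℝ} {z b : ℕ} (hb : b ≤ z) (hF : ∀ x, 2 ^ z ≤ x → F x = 0)
    (K r0 r1 : ℕ) (PP : Finset ℕ) (x : ℕ) (hx : 2 ^ z ≤ x) : gm F K r0 r1 b PP x = 0 := by
  unfold gm
  refine sum_eq_zero fun S _ => ?_
  unfold DS
  rw [sum_eq_zero, zero_div]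
  intro w hw
  rw [bl, mem_Ico] at hw
  have h1 : 2 ^ z ≤ w := by
    have h2 : 2 ^ z = 2 ^ b * 2 ^ (z - b) := by rw [← pow_add]; congr 1; omega
    have h3 : 2 ^ (z - b) ≤ x / 2 ^ b := by
      rw [Nat.le_div_iff_mul_le (by positivity), mul_comm, ← h2]
      exact hx
    calc 2 ^ z = 2 ^ b * 2 ^ (z - b) := h2
      _ ≤ 2 ^ b * (x / 2 ^ b) := Nat.mul_le_mul_left _ h3
      _ ≤ w := hw.1
  rw [hF w h1]
  ring

theorem blk_facts {s : ℕ} {d : Fin (s + 1) → ℕ} (hd2 : ∀ i, 2 ≤ d i) {γ ε D τ : ℝ}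
    {z K : ℕ} (hγ : 1 ≤ γ) (hγd : γ ≤ d 0) (hε : 0 < ε) (hε' : ε ≤ 1 / 8) (hτ : 0 < τ)
    (hK : 1 ≤ K) (hD : (2 : ℝ) ^ (τ * z) ≤ D)
    (hKD : ∀ i, ((K : ℝ) * (3 * D)) ^ (d i) ≤ (2 : ℝ) ^ z)
    (h4 : 4 ≤ Real.exp (τ / 4 * Real.log ((2 : ℝ) ^ z)))
    {b : Option (Fin (s + 1)) → ℕ} (hb : BlkLen d γ ε D b) (o : Option (Fin (s + 1))) :
    Real.exp (τ / 2 * Real.log ((2 : ℝ) ^ z)) ≤ (2 : ℝ) ^ (b o) ∧ 1 ≤ b o ∧ b o ≤ z ∧
      (z : ℝ) / (b o : ℝ) ≤ 2 / τ := by
  set L := Real.log ((2 : ℝ) ^ z) with hL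
  have hL0 : 0 ≤ L := Real.log_nonneg (one_le_pow₀ (by norm_num))
  have hD' : Real.exp (τ * L) ≤ D := by rw [← two_rpow]; exact hD
  have hD1 : 1 ≤ D := le_trans (Real.one_le_exp (by (clear * - hτ hL0; positivity))) hD'
  have hD0 : 0 < D := by (clear * - hε hε' hD1; linarith)
  -- exponents
  have key : ∃ e : ℝ, 3 / 4 ≤ e ∧ D ^ e / 4 ≤ (2 : ℝ) ^ (b o) ∧ (2 : ℝ) ^ (b o) ≤ D ^ e ∧
      D ^ e ≤ (2 : ℝ) ^ z := by
    have hle : ∀ (i : Fin (s + 1)) (e : ℝ), e ≤ d i → D ^ e ≤ (2 : ℝ) ^ z := by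
      intro i e he
      refine le_trans (Real.rpow_le_rpow_of_exponent_le hD1 he) ?_
      rw [Real.rpow_natCast]
      refine le_trans (pow_le_pow_left₀ hD0.le ?_ _) (hKD i)
      have hK' : (1 : ℝ) ≤ K := by exact_mod_cast hK
      (clear * - hε' hK' hD1 hε; nlinarith)
    cases o with
    | none =>
      refine ⟨γ - 2 * ε, by (clear * - hγ hε'; linarith), hb.1.1, hb.1.2, hle 0 _ (by (clear * - hγd hε; linarith))⟩
    | some i =>
      have hdi : (2 : ℝ) ≤ d i := by exact_mod_cast hd2 i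
      refine ⟨(d i : ℝ) - 2 * ε, by linarith, (hb.2 i).1, (hb.2 i).2, hle i _ (by (clear * - hε; linarith))⟩
  exact by
    obtain ⟨e, he, hb1, hb2, hb3⟩ := key
    have h1 : Real.exp (τ / 2 * L) ≤ (2 : ℝ) ^ (b o) := by
      refine le_trans ?_ hb1
      have h2 : Real.exp (3 / 4 * (τ * L)) ≤ D ^ e := by
        have h3 : D ^ ((3 : ℝ) / 4) ≤ D ^ e := Real.rpow_le_rpow_of_exponent_le hD1 he
        refine le_trans ?_ h3
        rw [mul_comm, Real.exp_mul]
        exact Real.rpow_le_rpow (Real.exp_pos _).le hD' (by norm_num)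
      rw [le_div_iff₀ (by norm_num)]
      refine le_trans ?_ h2
      calc Real.exp (τ / 2 * L) * 4 ≤ Real.exp (τ / 2 * L) * Real.exp (τ / 4 * L) :=
            mul_le_mul_of_nonneg_left h4 (Real.exp_pos _).le
        _ = Real.exp (3 / 4 * (τ * L)) := by rw [← Real.exp_add]; congr 1; ring
    have h5 : b o ≤ z := by
      have h6 : (2 : ℝ) ^ (b o) ≤ (2 : ℝ) ^ z := hb2.trans hb3
      exact (pow_le_pow_iff_right₀ (by norm_num)).mp h6
    have hLpos : 0 < L := by
      by_contra hneg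
      have hL00 : L = 0 := le_antisymm (not_lt.mp hneg) hL0
      rw [hL00, mul_zero, Real.exp_zero] at h4
      norm_num at h4
    exact by
      have h7 : τ / 2 * (z : ℝ) ≤ b o := by
        have h8 : τ / 2 * L ≤ Real.log ((2 : ℝ) ^ (b o)) := by
          rw [Real.le_log_iff_exp_le (by positivity)]
          exact h1
        rw [hL, Real.log_pow, Real.log_pow] at h8
        have h9 : 0 < Real.log 2 := Real.log_pos (by norm_num)
        have h10 : (τ / 2 * z) * Real.log 2 ≤ (b o : ℝ) * Real.log 2 := by (clear * - h8; linarith)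
        exact le_of_mul_le_mul_right h10 h9
      have hz0 : 0 < (z : ℝ) := by
        have : z ≠ 0 := by
          rintro rfl
          simp [hL] at hLpos
        positivity
      have hb0 : 0 < (b o : ℝ) := lt_of_lt_of_le (by positivity) h7
      refine ⟨h1, by exact_mod_cast hb0, h5, ?_⟩
      rw [div_le_div_iff₀ hb0 hτ]
      (clear * - h7; nlinarith)

/-- the statement of `replace_ap` -/
def ReplaceApC (s : ℕ) (d : Fin (s + 1) → ℕ) (γ ε : ℝ) : Prop :=
    ∃ x0 : ℝ, 0 < x0 ∧ ∃ C : ℕ, ∃ σ : ℝ, 0 < σ ∧ ∃ D0 : ℝ,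
    ∀ (D : ℝ) (K u T z : ℕ), D0 ≤ D → D ≤ u → (u : ℝ) + T ≤ 2 * D → D ^ (1 - x0) ≤ T → 1 ≤ K →
    (∀ i, ((K : ℝ) * (3 * D)) ^ (d i) ≤ (2 : ℝ) ^ z) →
    ∀ W : ℝ, 2 ≤ W → W ≤ D ^ σ → (K : ℝ) ≤ W →
    ∀ (G : ℕ → ℝ) (f g : Option (Fin (s + 1)) → ℕ → ℝ), (∀ x, |G x| ≤ W) →
    (∀ x t : ℕ, |G (x + t) - G x| ≤ W * t / D ^ (γ - ε)) →
    (∀ o x, |f o x| ≤ W ∧ |g o x| ≤ W) → (∀ o x, 2 ^ z ≤ x → f o x = 0 ∧ g o x = 0) →
    ∀ b : Option (Fin (s + 1)) → ℕ, BlkLen d γ ε D b →
    (∀ o, ∀ q : ℕ, 1 ≤ q → (q : ℝ) ≤ W ^ C →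
      ∑ j ∈ range (2 ^ (z - b o)), ∑ a ∈ range q,
        |∑ x ∈ (bl (b o) j).filter (fun x => x % q = a), (f o x - g o x)| ≤
          2 ^ z / W ^ C) →
    |nform d K u T (2 ^ z) G f - nform d K u T (2 ^ z) G g| ≤ 1 / W

/-- the statement of `var_bound` -/
def VarBoundC : Prop := ∀ r0 r1 : ℕ, 1 ≤ r1 → ∃ C : ℝ, 0 < C ∧ ∀ (z : ℕ) (A : Finset ℕ),
    PrA z A → ∀ b j K R : ℕ, 1 ≤ b → b ≤ z → 2 ≤ R → R ≤ 2 ^ b → 1 ≤ K →
    (K * R ^ (2 * r0 * r1)) ^ 16 ≤ 2 ^ b → (∀ p : ℕ, p.Prime → p ∣ K → p ≤ R) →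
    ∀ PP : Finset ℕ, (∀ p ∈ PP, p.Prime ∧ p ≤ R ∧ ¬ p ∣ K) →
    ∀ (κ : ℕ) (B : Finset ℕ) (ω : ℕ → ℕ), B ⊆ PP → B.card ≤ r0 →
    ∑ E ∈ (PP \ B).powerset.filter (fun E => (B ∪ E).card ≤ r0),
      𝔼 t ∈ range (∏ p ∈ E, p ^ r1),
        DS (FA z A) K r1 b j (B ∪ E) κ (fun p => if p ∈ B then ω p else t) ^ 2 ≤
      (C * (z / b) * Real.log R) ^ 2

theorem stage12_of (s : ℕ) (d : Fin (s + 1) → ℕ) (hd2 : ∀ i, 2 ≤ d i) (γ ε : ℝ) (hγ : 1 ≤ γ)
    (hγd : γ ≤ d 0) (hε : 0 < ε) (hε' : ε ≤ 1 / 8) (hRep : ReplaceApC s d γ ε)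
    (hVar : VarBoundC) (hCell : CellLeC) : Stage12C s d γ ε := by
  obtain ⟨x0, hx0, C, σ0, hσ0, D0, hrep⟩ := hRep
  refine ⟨x0, hx0, ?_⟩
  intro τ V κ σ hτ hV hκ hσ K K1 hK hK1
  obtain ⟨C1, hC1⟩ : ∃ C1, C1 = C + 1 := ⟨_, rfl⟩
  obtain ⟨r, hr⟩ : ∃ r, r = 4 * C1 + 4 := ⟨_, rfl⟩
  have hC11 : 1 ≤ C1 := by omega
  have hC11' : (1 : ℝ) ≤ C1 := by exact_mod_cast hC11
  have hr1 : 1 ≤ r := by omega
  obtain ⟨k, hk⟩ : ∃ k, k = kk C1 := ⟨_, rfl⟩
  have hk1 : 1 ≤ k := by rw [hk, kk]; omega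
  obtain ⟨Cap, hap⟩ := gm_ap r r hr1
  obtain ⟨Chead, hhead⟩ := gm_head r r hr1
  obtain ⟨Cm, hmom⟩ := gm_moment k r r hr1
  obtain ⟨Cv, hCv, hvar⟩ := hVar r r hr1
  obtain ⟨Cc, hCc, hcell⟩ := hCell
  obtain ⟨Ct, hCt, htot⟩ := totient_ratio
  obtain ⟨E, hE⟩ : ∃ E, E = 32 * r * r + 2 + Cap + Chead + Cm := ⟨_, rfl⟩
  obtain ⟨η, hη⟩ : ∃ η, η = min (τ / 4) σ := ⟨_, rfl⟩
  have hη0 : 0 < η := by rw [hη]; exact lt_min (by positivity) hσ
  have hητ : η ≤ τ / 4 := by rw [hη]; exact min_le_left _ _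
  exact by
    have hησ : η ≤ σ := by rw [hη]; exact min_le_right _ _
    have hwpos : (0 : ℝ) < 1 / (4 * C1) := by positivity
    have hWt : Filter.Tendsto (fun L : ℝ => L ^ ((1 : ℝ) / (4 * C1))) Filter.atTop Filter.atTop :=
      tendsto_rpow_atTop hwpos
    have hev : ∀ᶠ z : ℕ in Filter.atTop, _ := tendsto_log_two_pow.eventually
      ((RR_le_pow C1).and ((yy_ge_quarter).and ((master C1 E η hη0).and
        ((pow_le_exp 2 1 (τ * σ0) (by positivity)).and ((pow_le_exp 0 D0 τ hτ).and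
        ((pow_le_exp 0 4 (τ / 4) (by positivity)).and
        ((numeric hC11 hτ hητ Cm hCv).and
        ((log_pow_le 1 (Cc * (2 / τ) * Ct) _ hwpos).and
        ((hWt.eventually_ge_atTop (max (max 2 K) (max V (2 / κ)))).and
        ((yy_tendsto.eventually_ge_atTop (max 2 K1)).and
        (Filter.eventually_ge_atTop 4)))))))))))
    obtain ⟨z0, hz0⟩ := Filter.eventually_atTop.mp hev
    refine ⟨z0, fun z hz => ?_⟩
    exact by
      obtain ⟨e1, e2, e3, e4, e5, e6, e7, e8, e9, e10, e11⟩ := hz0 z hz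
      clear hev hz0
      obtain ⟨L, hL⟩ : ∃ L, L = Real.log ((2 : ℝ) ^ z) := ⟨_, rfl⟩
      rw [← hL] at e1 e2 e3 e4 e5 e6 e7 e8 e9 e10 e11
      obtain ⟨y, hy⟩ : ∃ y, y = yy L := ⟨_, rfl⟩
      obtain ⟨R, hR⟩ : ∃ R, R = RR C1 L := ⟨_, rfl⟩
      obtain ⟨W, hW⟩ : ∃ W, W = L ^ ((1 : ℝ) / (4 * C1)) := ⟨_, rfl⟩
      obtain ⟨K2, hK2⟩ : ∃ K2, K2 = sm y R := ⟨_, rfl⟩
      rw [← hy, ← hR, ← hr] at e1
      rw [← hy] at e2 e10
      rw [← hy, ← hR, ← hK2] at e3
      rw [← hR, ← hW, ← hk] at e7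
      rw [← hW] at e8 e9
      rw [pow_zero, mul_one] at e5 e6
      rw [pow_one] at e8
      rw [one_mul] at e4
      have hL1 : 1 ≤ L := by (clear * - hε hε' e11; linarith)
      have hL0 : 0 < L := by (clear * - hε hε' e11; linarith)
      have hW2 : 2 ≤ W := (le_max_left _ _).trans ((le_max_left _ _).trans e9)
      have hWK : (K : ℝ) ≤ W := (le_max_right _ _).trans ((le_max_left _ _).trans e9)
      have hWV : V ≤ W := (le_max_left _ _).trans ((le_max_right _ _).trans e9)
      have hWκ : 2 / κ ≤ W := (le_max_right _ _).trans ((le_max_right _ _).trans e9)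
      have hW0 : 0 < W := by (clear * - hε hε' hW2; linarith)
      exact by
        have hy2 : 2 ≤ y := (le_max_left _ _).trans e10
        have hyK1 : K1 ≤ y := (le_max_right _ _).trans e10
        have hyL : (y : ℝ) ≤ L := by
          rw [hy]
          refine (yy_le L).trans ?_
          rw [Real.sqrt_le_left (by (clear * - hε hε' e11; linarith))]
          (clear * - hε' e11 hε; nlinarith)
        have hR2 : 2 ≤ R := by rw [hR]; exact RR_ge C1 L
        have hyR : y ≤ R := by
          rw [hR]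
          refine lt_RR C1 L (hyL.trans ?_)
          exact le_self_pow₀ hL1 (by omega)
        have hK21 : 1 ≤ K2 := by rw [hK2]; exact sm_pos y R
        exact by
          have hK2p : ∀ p : ℕ, p.Prime → p ∣ K2 → p ≤ y := by
            intro p hp h
            rw [hK2] at h
            exact sm_prime hp h
          have hPP : ∀ p ∈ mp y R, p.Prime ∧ p ≤ R ∧ ¬ p ∣ K2 := by
            intro p hp
            rw [mem_mp] at hp
            refine ⟨hp.2, hp.1.2, fun h => ?_⟩
            have := hK2p p hp.2 h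
            omega
          -- powers of `K2 * R`
          have hKR1 : 1 ≤ ((K2 * R : ℕ) : ℝ) := by
            have : 1 ≤ K2 * R := Nat.mul_pos hK21 (by omega)
            exact_mod_cast this
          have hKRe : ∀ e, e ≤ E → ((K2 * R : ℕ) : ℝ) ^ e ≤ Real.exp (η * L) := fun e he =>
            (pow_le_pow_right₀ hKR1 he).trans e3
          have hX : Real.exp (η * L) ≤ Real.exp (τ / 4 * L) :=
            Real.exp_le_exp.mpr (mul_le_mul_of_nonneg_right hητ hL0.le)
          have hX2 : Real.exp (τ / 4 * L) < Real.exp (τ / 2 * L) :=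
            Real.exp_lt_exp.mpr (mul_lt_mul_of_pos_right (by (clear * - hη0 hητ; linarith)) hL0)
          exact by
            refine ⟨K2, ?_, hK21, ?_, ?_⟩
            · rw [hK2]
              refine dvd_sm hK1 (hyK1.trans hyR) fun p hp h => ?_
              exact (Nat.le_of_dvd hK1 h).trans hyK1
            · have h1 : (K2 : ℝ) ≤ ((K2 * R : ℕ) : ℝ) ^ 1 := by
                rw [pow_one]
                have : K2 ≤ K2 * R := Nat.le_mul_of_pos_right _ (by omega)
                exact_mod_cast this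
              refine h1.trans ((hKRe 1 (by omega)).trans ?_)
              rw [two_rpow, ← hL]
              exact Real.exp_le_exp.mpr (mul_le_mul_of_nonneg_right hησ hL0.le)
            intro A hA D u T hD hKD hDu huT hDT G hG hGl b hb
            have hblkf := blk_facts hd2 hγ hγd hε hε' hτ hK hD hKD (by rw [← hL]; exact e6) hb
            rw [← hL] at hblkf
            have hD' : Real.exp (τ * L) ≤ D := by rw [hL, ← two_rpow]; exact hD
            have hD1 : 1 ≤ D := le_trans (Real.one_le_exp (by positivity)) hD'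
            have hFL : ∀ x, |FA z A x| ≤ L := fun x => by rw [hL]; exact FA_abs_le z A x
            have hFs : ∀ x, 2 ^ z ≤ x → FA z A x = 0 := FA_support hA
            -- the model and its truncation
            obtain ⟨g0, hg0⟩ : ∃ g0 : Option (Fin (s + 1)) → ℕ → ℝ,
              g0 = fun o x => gm (FA z A) K2 r r (b o) (mp y R) x := ⟨_, rfl⟩
            obtain ⟨g1, hg1⟩ : ∃ g1 : Option (Fin (s + 1)) → ℕ → ℝ,
              g1 = fun o x => trc (W / 2) (g0 o x) := ⟨_, rfl⟩
            have hg1W : ∀ o x, |g1 o x| ≤ W / 2 := fun o x => by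
              rw [hg1]; exact abs_trc_le (by (clear * - hε hε' hW2; linarith)) _
            have hg1s : ∀ o x, 2 ^ z ≤ x → g1 o x = 0 := fun o x hx => by
              rw [hg1, hg0]
              simp only []
              rw [gm_support (hblkf o).2.2.1 hFs K2 r r (mp y R) x hx, trc_zero]
            exact by
              obtain ⟨V0, hV0⟩ : ∃ V0, V0 = Cv * (2 / τ) * Real.log R := ⟨_, rfl⟩
              have hlogR0 : 0 ≤ Real.log R := by
                refine Real.log_nonneg ?_
                have : (2 : ℝ) ≤ R := by exact_mod_cast hR2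
                (clear * - hε hε' this; linarith)
              have hV00 : 0 ≤ V0 := by rw [hV0]; (clear * - hCv hτ; positivity)
              have hKR2b : ∀ o e, e ≤ E → ((K2 * R : ℕ) : ℝ) ^ e < (2 : ℝ) ^ (b o) := fun o e he =>
                lt_of_le_of_lt ((hKRe e he).trans hX) (lt_of_lt_of_le hX2 (hblkf o).1)
              -- moments of the model
              have hmoment : ∀ o j, (∑ x ∈ bl (b o) j, g0 o x ^ (2 * k)) / (2 : ℝ) ^ (b o) ≤
                  Cm * V0 ^ (2 * k) + L ^ (2 * k) * Real.exp (η * L) / (2 : ℝ) ^ (b o) := by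
                intro o j
                have h1 := hmom (FA z A) K2 (b o) j R (mp y R) L V0 hK21 hR2 hPP hFL hV00 (by
                  intro κ' B ω hB hBr
                  have hc1 : R ≤ 2 ^ (b o) := by
                    have h2 : (R : ℝ) ≤ ((K2 * R : ℕ) : ℝ) ^ 1 := by
                      rw [pow_one]
                      have : R ≤ K2 * R := Nat.le_mul_of_pos_left _ hK21
                      exact_mod_cast this
                    have h3 := h2.trans (hKR2b o 1 (by omega)).le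
                    exact_mod_cast h3
                  have hc2 : (K2 * R ^ (2 * r * r)) ^ 16 ≤ 2 ^ (b o) := by
                    have h2 : K2 * R ^ (2 * r * r) ≤ (K2 * R) ^ (2 * r * r) := by
                      rw [mul_pow]
                      refine Nat.mul_le_mul_right _ ?_
                      exact Nat.le_self_pow (by
                        have : 1 ≤ 2 * r * r := by (clear * - hC1 hr; nlinarith)
                        omega) K2
                    have h3 : (K2 * R ^ (2 * r * r)) ^ 16 ≤ (K2 * R) ^ (32 * r * r) := by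
                      refine (Nat.pow_le_pow_left h2 16).trans (le_of_eq ?_)
                      rw [← pow_mul]
                      congr 1
                      ring
                    have h4 := (hKR2b o (32 * r * r) (by omega)).le
                    have h5 : (K2 * R) ^ (32 * r * r) ≤ 2 ^ (b o) := by exact_mod_cast h4
                    exact h3.trans h5
                  have h6 := hvar z A hA (b o) j K2 R (hblkf o).2.1 (hblkf o).2.2.1 hR2 hc1 hK21 hc2
                    (fun p hp h => (hK2p p hp h).trans hyR) (mp y R) hPP κ' B ω hB hBr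
                  refine h6.trans ?_
                  refine pow_le_pow_left₀ (by (clear * - hCv; positivity)) ?_ 2
                  rw [hV0]
                  refine mul_le_mul_of_nonneg_right ?_ hlogR0
                  exact mul_le_mul_of_nonneg_left (hblkf o).2.2.2 hCv.le)
                rw [hg0]
                refine h1.trans ?_
                refine add_le_add le_rfl ?_
                refine div_le_div_of_nonneg_right ?_ (by positivity)
                exact mul_le_mul_of_nonneg_left (hKRe Cm (by omega)) (by positivity)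
              -- truncation error per block
              have htr : ∀ o j, ∑ x ∈ bl (b o) j, |g0 o x - g1 o x| ≤ (2 : ℝ) ^ (b o) *
                  ((Cm * V0 ^ (2 * k) + L ^ (2 * k) * Real.exp (η * L) / (2 : ℝ) ^ (b o)) /
                    (W / 2) ^ (2 * k - 1)) := by
                intro o j
                have h1 : ∑ x ∈ bl (b o) j, |g0 o x - g1 o x| ≤
                    (∑ x ∈ bl (b o) j, g0 o x ^ (2 * k)) / (W / 2) ^ (2 * k - 1) := by
                  rw [sum_div]
                  refine sum_le_sum fun x _ => ?_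
                  rw [hg1]
                  exact abs_sub_trc_le (by (clear * - hε hε' hW2; linarith)) _ hk1
                refine h1.trans ?_
                rw [← mul_div_assoc]
                refine div_le_div_of_nonneg_right ?_ (by (clear * - hW2; positivity))
                have h2 := hmoment o j
                rw [div_le_iff₀ (by positivity)] at h2
                refine h2.trans (le_of_eq ?_)
                ring
              have hnum : ∀ o, L * Real.exp (η * L) / (2 : ℝ) ^ (b o) +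
                  (Cm * V0 ^ (2 * k) + L ^ (2 * k) * Real.exp (η * L) / (2 : ℝ) ^ (b o)) /
                    (W / 2) ^ (2 * k - 1) ≤ 1 / L ^ (2 * C1) := by
                intro o
                rw [hV0]
                exact e7 _ (hblkf o).1
              exact by
                have hcomb : ∀ o, L * Real.exp (η * L) + (2 : ℝ) ^ (b o) *
                    ((Cm * V0 ^ (2 * k) + L ^ (2 * k) * Real.exp (η * L) / (2 : ℝ) ^ (b o)) /
                      (W / 2) ^ (2 * k - 1)) ≤ (2 : ℝ) ^ (b o) * (1 / L ^ (2 * C1)) := by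
                  intro o
                  have h1 := mul_le_mul_of_nonneg_left (hnum o) (by positivity : (0 : ℝ) ≤ 2 ^ (b o))
                  refine le_trans (le_of_eq ?_) h1
                  rw [mul_add]
                  congr 1
                  field_simp
                -- comparison of the primes and the truncated model
                have hcmp1 : ∀ o j q, 1 ≤ q → q ≤ R →
                    ∑ a ∈ range q, |∑ x ∈ (bl (b o) j).filter (fun x => x % q = a),
                      (FA z A x - g1 o x)| ≤ (2 : ℝ) ^ (b o) * (1 / L ^ (2 * C1)) := by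
                  intro o j q hq hqR
                  have h1 := hap (FA z A) L K2 (b o) j R q (mp y R) hK21 hR2 hq hqR hFL hPP
                    (by rw [hK2]; exact dvd_sm_mul hq hqR e1)
                    (card_mp_filter hq hqR (by omega) e1)
                  have h2 := ap_add_le q (bl (b o) j) (FA z A) (g0 o) (g1 o)
                  have h3 := ap_abs_le hq (bl (b o) j) (fun x => g0 o x - g1 o x)
                  refine h2.trans ((add_le_add ?_ (h3.trans (htr o j))).trans (hcomb o))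
                  rw [hg0]
                  exact h1.trans (mul_le_mul_of_nonneg_left (hKRe Cap (by omega)) hL0.le)
                -- comparison of the truncated model and the model modulo `K2`
                have hcmp2 : ∀ o j q, 1 ≤ q → q ≤ R → q ∣ K2 →
                    ∑ a ∈ range q, |∑ x ∈ (bl (b o) j).filter (fun x => x % q = a),
                      (g1 o x - Fm (FA z A) K2 (b o) x)| ≤ (2 : ℝ) ^ (b o) * (1 / L ^ (2 * C1)) := by
                  intro o j q hq hqR hqK
                  have h1 := hhead (FA z A) L K2 (b o) j R q (mp y R) hK21 hR2 hq hqR hFL hPP hqK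
                  have h2 := ap_add_le q (bl (b o) j) (g1 o) (g0 o) (Fm (FA z A) K2 (b o))
                  have h3 := ap_abs_le hq (bl (b o) j) (fun x => g1 o x - g0 o x)
                  have h4 : ∑ x ∈ bl (b o) j, |g1 o x - g0 o x| = ∑ x ∈ bl (b o) j, |g0 o x - g1 o x| :=
                    sum_congr rfl fun x _ => abs_sub_comm _ _
                  rw [h4] at h3
                  rw [add_comm] at h2
                  refine h2.trans ((add_le_add ?_ (h3.trans (htr o j))).trans (hcomb o))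
                  rw [hg0]
                  exact h1.trans (mul_le_mul_of_nonneg_left (hKRe Chead (by omega)) hL0.le)
                -- bounds for `Fm`
                have hFm : ∀ o x, |Fm (FA z A) K2 (b o) x| ≤ W := by
                  intro o x
                  rw [abs_of_nonneg (Fm_nonneg (FA_nonneg z A) _ _ _)]
                  have hsq : K2 ^ 2 < 2 ^ (b o) := by
                    have h1 : K2 ^ 2 ≤ (K2 * R) ^ 2 :=
                      Nat.pow_le_pow_left (Nat.le_mul_of_pos_right _ (by omega)) 2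
                    have h2 : (K2 * R) ^ 2 < 2 ^ (b o) := by
                      have := hKR2b o 2 (by omega)
                      exact_mod_cast this
                    exact lt_of_le_of_lt h1 h2
                  have h1 := hcell z A hA (b o) (x / 2 ^ (b o)) K2 (hblkf o).2.1 (hblkf o).2.2.1 hK21 hsq
                    (x : ZMod K2)
                  have h2 := htot K2 y hK21 hy2 hK2p
                  have h3 : Real.log y ≤ Real.log L := by
                    refine Real.log_le_log ?_ hyL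
                    have : 0 < y := by omega
                    exact_mod_cast this
                  have hτ2 : 0 ≤ 2 / τ := by positivity
                  calc Fm (FA z A) K2 (b o) x ≤ Cc * (z / b o) * (K2 / K2.totient) := h1
                    _ ≤ Cc * (2 / τ) * (Ct * Real.log y) := by
                        refine mul_le_mul (mul_le_mul_of_nonneg_left (hblkf o).2.2.2 hCc.le) h2
                          (by (clear * - hK21; positivity)) (by positivity)
                    _ ≤ Cc * (2 / τ) * (Ct * Real.log L) :=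
                        mul_le_mul_of_nonneg_left (mul_le_mul_of_nonneg_left h3 hCt.le) (by positivity)
                    _ = Cc * (2 / τ) * Ct * Real.log L := by ring
                    _ ≤ W := e8
                have hDγ : 0 < D ^ (γ - ε) := Real.rpow_pos_of_pos (by (clear * - hε hε' hD1; linarith)) _
                have hGW : ∀ W' : ℝ, V ≤ W' → (∀ x, |G x| ≤ W') ∧
                    (∀ x t : ℕ, |G (x + t) - G x| ≤ W' * t / D ^ (γ - ε)) := by
                  intro W' hW'
                  refine ⟨fun x => (hG x).trans hW', fun x t => (hGl x t).trans ?_⟩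
                  refine div_le_div_of_nonneg_right ?_ hDγ.le
                  exact mul_le_mul_of_nonneg_right hW' (Nat.cast_nonneg t)
                exact by
                  have hDσ : L ^ 2 ≤ D ^ σ0 := by
                    refine e4.trans ?_
                    rw [show τ * σ0 * L = τ * L * σ0 by ring, Real.exp_mul]
                    exact Real.rpow_le_rpow (Real.exp_pos _).le hD' hσ0.le
                  have hWL : W ≤ L := by
                    rw [hW]
                    refine (Real.rpow_le_rpow_of_exponent_le hL1 ?_).trans (le_of_eq (Real.rpow_one L))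
                    rw [div_le_one (by positivity)]
                    (clear * - hε hε' hC11'; linarith)
                  have hLL2 : L ≤ L ^ 2 := by (clear * - hε' e11 hε; nlinarith)
                  have hWL2 : W ≤ L ^ 2 := hWL.trans hLL2
                  have hL2C : (L ^ 2) ^ C ≤ L ^ (2 * C1) := by
                    rw [← pow_mul]
                    exact pow_le_pow_right₀ hL1 (by omega)
                  have hWC : W ^ C ≤ L ^ (2 * C1) := (pow_le_pow_left₀ hW0.le hWL2 C).trans hL2C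
                  exact by
                    have hfin : ∀ X : ℝ, 0 < X → X ≤ L ^ (2 * C1) →
                        (2 : ℝ) ^ z * (1 / L ^ (2 * C1)) ≤ 2 ^ z / X := by
                      intro X hX0 hX1
                      rw [← mul_one_div ((2 : ℝ) ^ z) X]
                      refine mul_le_mul_of_nonneg_left ?_ (by positivity)
                      exact one_div_le_one_div_of_le hX0 hX1
                    have hD0' : D0 ≤ D := e5.trans hD'
                    have step1 := hrep D K u T z hD0' hDu huT hDT hK hKD (L ^ 2) (hW2.trans hWL2) hDσ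
                      (hWK.trans hWL2) G (fun _ => FA z A) g1 (hGW _ (hWV.trans hWL2)).1
                      (hGW _ (hWV.trans hWL2)).2
                      (fun o x => ⟨(hFL x).trans hLL2, (hg1W o x).trans (by (clear * - hε hε' e11 hWL hLL2; linarith))⟩)
                      (fun o x hx => ⟨hFs x hx, hg1s o x hx⟩) b hb (by
                        intro o q hq hqC
                        have hqR : q ≤ R := by
                          rw [hR]
                          exact lt_RR C1 L (hqC.trans hL2C)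
                        refine (sum_blocks_le (hblkf o).2.2.1 _ _ fun j => hcmp1 o j q hq hqR).trans ?_
                        exact hfin _ (by positivity) hL2C)
                    have step2 := hrep D K u T z hD0' hDu huT hDT hK hKD W hW2 (hWL2.trans hDσ)
                      hWK G g1 (fun o => Fm (FA z A) K2 (b o)) (hGW _ hWV).1 (hGW _ hWV).2
                      (fun o x => ⟨(hg1W o x).trans (by (clear * - hε hε' hW2; linarith)), hFm o x⟩)
                      (fun o x hx => ⟨hg1s o x hx, Fm_support (hblkf o).2.2.1 hFs K2 x hx⟩) b hb (by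
                        intro o q hq hqC
                        have hqy : q ≤ y := by
                          have h1 : W ^ C ≤ W ^ C1 := pow_le_pow_right₀ (by (clear * - hε hε' hW2; linarith)) (by omega)
                          have h2 : W ^ C1 = L ^ ((1 : ℝ) / 4) := by
                            rw [hW, ← Real.rpow_natCast, ← Real.rpow_mul hL0.le]
                            congr 1
                            (clear * - hC11; field_simp)
                          have h3 : (q : ℝ) ≤ y := hqC.trans (h1.trans (by rw [h2]; exact e2))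
                          exact_mod_cast h3
                        have hqK : q ∣ K2 := by
                          rw [hK2]
                          exact dvd_sm hq (hqy.trans hyR) fun p hp h => (Nat.le_of_dvd hq h).trans hqy
                        refine (sum_blocks_le (hblkf o).2.2.1 _ _ fun j =>
                          hcmp2 o j q hq (hqy.trans hyR) hqK).trans ?_
                        exact hfin _ (by (clear * - hW2; positivity)) hWC)
                    have h1 : 1 / L ^ 2 ≤ 1 / W := one_div_le_one_div_of_le hW0 hWL2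
                    have h2 : 1 / W + 1 / W ≤ κ := by
                      rw [div_le_iff₀ hκ] at hWκ
                      rw [← add_div, div_le_iff₀ hW0]
                      (clear * - hWκ; linarith)
                    exact (abs_sub_le _ _ _).trans ((add_le_add (step1.trans h1) step2).trans h2)

end

end Pool.Agent.Helper67.NX2

end

section

set_option autoImplicit false

open Finset

open scoped BigOperators ComplexConjugate

namespace Pool.Agent.Helper67.NX2

open Pool.Agent.Helper57.NX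

noncomputable section

/-- `cell_le` from the Brun-Titchmarsh inequality `bt_class` -/
theorem cell_le_of_bt (hbt : ∃ C : ℝ, 0 < C ∧ ∀ a N M c : ℕ, 2 ≤ N → 1 ≤ M → M ^ 2 ≤ N →
    (((Ico a (a + N)).filter
      (fun p => p.Prime ∧ Nat.Coprime p M ∧ p ≡ c [MOD M])).card : ℝ) ≤
        C * N / (M.totient * Real.log N)) :
    ∃ C : ℝ, 0 < C ∧ ∀ (z : ℕ) (A : Finset ℕ), PrA z A → ∀ b j M : ℕ, 1 ≤ b →
    b ≤ z → 1 ≤ M → M ^ 2 < 2 ^ b → ∀ ρ : ZMod M,
    cell (FA z A) M b j ρ ≤ C * (z / b) * (M / M.totient) := by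
  obtain ⟨C, hC, h⟩ := hbt
  refine ⟨C, hC, fun z A hA b j M hb hbz hM hMb ρ => ?_⟩
  have : NeZero M := ⟨by omega⟩
  have h2b : (2 : ℕ) ≤ 2 ^ b := by
    calc (2 : ℕ) = 2 ^ 1 := by norm_num
      _ ≤ 2 ^ b := Nat.pow_le_pow_right (by norm_num) hb
  have hcnt := h (2 ^ b * j) (2 ^ b) M ρ.val h2b hM hMb.le
  have hlog2 : 0 < Real.log 2 := Real.log_pos (by norm_num)
  have hb0 : (0 : ℝ) < b := by exact_mod_cast hb
  have hM0 : (0 : ℝ) < M := by exact_mod_cast hM
  have hφ0 : (0 : ℝ) < M.totient := by exact_mod_cast Nat.totient_pos.mpr hM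
  have h2b0 : (0 : ℝ) < 2 ^ b := by positivity
  have hlz : Real.log ((2 : ℝ) ^ z) = z * Real.log 2 := by
    rw [Real.log_pow]
  have hlb : Real.log (((2 ^ b : ℕ) : ℝ)) = b * Real.log 2 := by
    push_cast
    rw [Real.log_pow]
  have hbl : bl b j = Ico (2 ^ b * j) (2 ^ b * j + 2 ^ b) := by
    unfold bl
    rw [Nat.mul_add, Nat.mul_one]
  have hsum : ∑ y ∈ bl b j, (if (y : ZMod M) = ρ then FA z A y else 0) ≤
      (((Ico (2 ^ b * j) (2 ^ b * j + 2 ^ b)).filter
        (fun p => p.Prime ∧ Nat.Coprime p M ∧ p ≡ ρ.val [MOD M])).card : ℝ) *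
        Real.log ((2 : ℝ) ^ z) := by
    rw [hbl, Finset.card_filter, Nat.cast_sum, Finset.sum_mul]
    refine Finset.sum_le_sum fun y _ => ?_
    have hnn : 0 ≤ Real.log ((2 : ℝ) ^ z) := by rw [hlz]; positivity
    by_cases h1 : (y : ZMod M) = ρ
    · rw [if_pos h1]
      unfold FA
      by_cases h2 : y ∈ A
      · obtain ⟨hp, -, hy2⟩ := hA y h2
        have hMy : M < y := by
          have h3 : M ^ 2 < y ^ 2 :=
            lt_of_lt_of_le hMb (le_trans (Nat.pow_le_pow_right (by norm_num) hbz) hy2)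
          exact lt_of_pow_lt_pow_left₀ 2 (Nat.zero_le _) h3
        have hcop : Nat.Coprime y M := by
          refine (Nat.Prime.coprime_iff_not_dvd hp).mpr fun hd => ?_
          exact absurd (Nat.le_of_dvd hM hd) (not_le.mpr hMy)
        have hmod : y ≡ ρ.val [MOD M] := by
          rw [← ZMod.natCast_eq_natCast_iff, h1, ZMod.natCast_val, ZMod.cast_id]
        rw [if_pos h2, if_pos ⟨hp, hcop, hmod⟩]
        simp
      · rw [if_neg h2]
        positivity
    · rw [if_neg h1]
      positivity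
  unfold cell
  calc (M : ℝ) / 2 ^ b * ∑ y ∈ bl b j, (if (y : ZMod M) = ρ then FA z A y else 0)
      ≤ (M : ℝ) / 2 ^ b * ((C * ((2 ^ b : ℕ) : ℝ) / (M.totient * Real.log ((2 ^ b : ℕ) : ℝ))) *
          Real.log ((2 : ℝ) ^ z)) := by
        refine mul_le_mul_of_nonneg_left (hsum.trans ?_) (by positivity)
        refine mul_le_mul_of_nonneg_right hcnt ?_
        rw [hlz]; positivity
    _ = C * (z / b) * (M / M.totient) := by
        rw [hlb, hlz]
        push_cast
        field_simp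

end

end Pool.Agent.Helper67.NX2

end

section

set_option autoImplicit false

open Finset

open scoped BigOperators ComplexConjugate

namespace Pool.Agent.Helper67.NX2.W

open Pool.Agent.Helper57.NX Pool.Agent.Helper67.NX2

theorem cell_le : CellLeC := cell_le_of_bt bt_class

end Pool.Agent.Helper67.NX2.W

end
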