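import Pool.Agent.Helper23.MC.L00_a0
import Pool.Agent.Helper23.MC.L00_a1
import Pool.Agent.Helper23.MC.L00_a10
import Pool.Agent.Helper23.MC.L00_a11
import Pool.Agent.Helper23.MC.L00_a12
import Pool.Agent.Helper23.MC.L00_a13
import Pool.Agent.Helper23.MC.L00_a4
import Pool.Agent.Helper23.MC.L00_a5
import Pool.Agent.Helper23.MC.L00_a6
import Pool.Agent.Helper23.MC.L00_a7
import Pool.Agent.Helper23.MC.L00_a8

/-!
Parts of Helper57.NX.Defs, Helper57.NX.Defs2, Helper67.NX2.Defs, Helper5.NX.Basic, Helper64.NX.LpAlign, Helper46.NX2.LpAlign, Helper7.NX2.EsMixed, Helper5.NX2.RatlCore, Helper67.NX.FormCube, Helper67.NX.TopStepAux, Helper72.NX.DlTotalAux, Helper87.NX.DlA, Helper41.NX.PairBound, Helper74.NX2.LpArithCore, Helper82.NX2.Fib, Helper15.NX2.DaggerOf, Helper9.NX2.DlTotalBase, Helper9.NX2.DlTotalAux, Helper9.NX.Frac, Helper84.NX3.FracMult, Helper59.NX.Es0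
-/

attribute [local instance 5000]
  Pool.Agent.Helper23.MC.Inst.rCharZero Pool.Agent.Helper23.MC.Inst.rALM
  Pool.Agent.Helper23.MC.Inst.rARM Pool.Agent.Helper23.MC.Inst.rALSM
  Pool.Agent.Helper23.MC.Inst.rARSM Pool.Agent.Helper23.MC.Inst.rARRLE
  Pool.Agent.Helper23.MC.Inst.rALRLE Pool.Agent.Helper23.MC.Inst.rARRLT
  Pool.Agent.Helper23.MC.Inst.rALRLT Pool.Agent.Helper23.MC.Inst.rPMRLT
  Pool.Agent.Helper23.MC.Inst.rMPRLT Pool.Agent.Helper23.MC.Inst.rPMM
  Pool.Agent.Helper23.MC.Inst.rMPM Pool.Agent.Helper23.MC.Inst.rPMSM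
  Pool.Agent.Helper23.MC.Inst.rMPSM Pool.Agent.Helper23.MC.Inst.rEAOL
  Pool.Agent.Helper23.MC.Inst.rIOR Pool.Agent.Helper23.MC.Inst.rISOR
  Pool.Agent.Helper23.MC.Inst.rNZD Pool.Agent.Helper23.MC.Inst.rcCharZero
  Pool.Agent.Helper23.MC.Inst.rcNZD Pool.Agent.Helper23.MC.Inst.zCharZero
  Pool.Agent.Helper23.MC.Inst.zALM Pool.Agent.Helper23.MC.Inst.zARM
  Pool.Agent.Helper23.MC.Inst.zALSM Pool.Agent.Helper23.MC.Inst.zARSM
  Pool.Agent.Helper23.MC.Inst.zIOR Pool.Agent.Helper23.MC.Inst.zISOR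
  Pool.Agent.Helper23.MC.Inst.zNZD Pool.Agent.Helper23.MC.Inst.qCharZero
  Pool.Agent.Helper23.MC.Inst.mR Pool.Agent.Helper23.MC.Inst.mC Pool.Agent.Helper23.MC.Inst.mRC
  Pool.Agent.Helper23.MC.Inst.rPSM Pool.Agent.Helper23.MC.Inst.rCSM
  Pool.Agent.Helper23.MC.Inst.cAdd Pool.Agent.Helper23.MC.Inst.cAddM
  Pool.Agent.Helper23.MC.Inst.cMul Pool.Agent.Helper23.MC.Inst.cMon

namespace Pool.Agent.Helper57.NX
end Pool.Agent.Helper57.NX
namespace Pool.Agent.Helper59.NX
end Pool.Agent.Helper59.NX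

section

set_option autoImplicit false

open Finset

open scoped BigOperators ComplexConjugate

namespace Pool.Agent.Helper57.NX

noncomputable section

/-- The exponential sum estimate (exponents distinct and not natural numbers). -/
def ES0 : Prop :=
  ∀ (m d : ℕ) (γ : Fin m → ℝ), Function.Injective γ → (∀ i (n : ℕ), γ i ≠ n) →
  ∀ (Λ a ε : ℝ), 1 ≤ Λ → 0 < ε →
  ∃ x0 : ℝ, 0 < x0 ∧ ∃ σ : ℝ, 0 < σ ∧ ∃ D0 : ℝ, ∀ D : ℝ, D0 ≤ D → ∀ ρ : ℝ, 0 ≤ ρ → ρ ≤ 1 →
  ∀ v : Fin m → ℝ, (∀ i, |v i| ≤ D ^ a) → (∃ i, D ^ ε ≤ |v i|) →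
  ∀ p : Polynomial ℝ, p.natDegree ≤ d →
  ∀ u T : ℕ, D ≤ u → (u : ℝ) + T ≤ Λ * D → D ^ (1 - x0) ≤ T →
  ‖𝔼 k ∈ Ico u (u + T), e (∑ i, v i * (((k : ℝ) + ρ) / D) ^ (γ i) + p.eval (k : ℝ))‖ ≤ D ^ (-σ)

end

end Pool.Agent.Helper57.NX

end

section

set_option autoImplicit false

open Finset

open scoped BigOperators ComplexConjugate

namespace Pool.Agent.Helper57.NX

noncomputable section

/-- `Ψ = -∑_{ω ≠ 0} (-1)^{|ω|} θ (a_ω, b, j)` where `a_ω` takes the coordinates in `ω` from `a'` -/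
def psiSum {k : ℕ} (θ : (Fin k → ℕ) → (Fin k → ℕ) → ℕ → ℝ) (a' a b : Fin k → ℕ) (j : ℕ) : ℝ :=
  - ∑ ω ∈ univ.erase (fun _ : Fin k => false), sg ω * θ (sel ω a a') b j

/-- Abstract hypothesis of the degree lowering: the cubes of `F n` have a small form against block
phases (blocks of length `X`) with all frequencies `≥ V` (and `≤ U`). -/
def LPh {N : ℕ} [NeZero N] {ι : Type} (Ω : Finset ι) (F : ι → ZMod N → ℂ) (k X' X : ℕ)
    (U V η : ℝ) : Prop :=
  ∀ a ∈ boxset k X', ∀ b ∈ boxset k X', ∀ (r : ZMod N) (cc : ℕ → ℂ) (φ : ℕ → ℝ),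
    (∀ j, ‖cc j‖ ≤ 1) → (∀ j, |φ j| ≤ U) → (∀ j, cc j ≠ 0 → V ≤ |φ j|) →
    ‖𝔼 n ∈ Ω, 𝔼 x, cube (F n) a b x * bphase X r cc φ x‖ < η

end

end Pool.Agent.Helper57.NX

end

section

set_option autoImplicit false

open Finset

open scoped BigOperators ComplexConjugate

namespace Pool.Agent.Helper67.NX2

open Pool.Agent.Helper57.NX

noncomputable section

/-- block phases along the progressions of difference `Q q` -/
def apb {N p : ℕ} (Q q X : ℕ) (r : ZMod p) (cc : ℕ → ℕ → ℂ) (φ : ℕ → ℕ → ℝ) (x : ZMod N) : ℂ :=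
  bphase X r (cc (x.val % Q)) (φ (x.val % Q)) (((x.val / Q : ℕ) : ZMod p) * (q : ZMod p)⁻¹)

/-- Abstract hypothesis of the degree lowering for families: the cubes of `F n e` have a small
form against block phases without major frequencies. -/
def LPhM {p : ℕ} [NeZero p] {κ ι : Type} [Fintype κ] (Ω : Finset ι) (F : ι → κ → ZMod p → ℂ)
    (k X' X : ℕ) (R V η : ℝ) : Prop :=
  ∀ a ∈ boxset k X', ∀ b ∈ boxset k X', ∀ (r : ZMod p) (cc : κ → ℕ → ℂ) (φ : κ → ℕ → ℝ),
    (∀ e j, ‖cc e j‖ ≤ 1) →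
    (∀ e j, cc e j ≠ 0 → ∀ q : ℕ, 1 ≤ q → (q : ℝ) ≤ R → V < dint (q * φ e j)) →
    ‖𝔼 n ∈ Ω, 𝔼 e : κ, 𝔼 x, cube (F n e) a b x * bphase X r (cc e) (φ e) x‖ < η

end

end Pool.Agent.Helper67.NX2

end

section

set_option autoImplicit false

open Finset

open scoped BigOperators ComplexConjugate

namespace Pool.Agent.Helper57.NX

noncomputable section

section Basic

variable {N : ℕ} [NeZero N]

theorem TV.sub {B B' X : ℝ} {f g : ZMod N → ℂ} (h : TV B X f) (h' : TV B' X g) :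
    TV (B + B') X (fun x => f x - g x) := by
  intro x l
  rw [add_mul]
  refine le_trans ?_ (add_le_add (h x l) (h' x l))
  rw [← sum_add_distrib]
  refine sum_le_sum fun j _ => ?_
  refine le_trans (le_of_eq ?_) (norm_sub_le _ _)
  congr 1
  ring

end Basic

end

end Pool.Agent.Helper57.NX

end

section

set_option autoImplicit false

open Finset

open scoped BigOperators ComplexConjugate

namespace Pool.Agent.Helper57.NX

noncomputable section

lemma Good.mono64 {m N : ℕ} {S : Sys m} {c : Fin m → ℝ} {x x' : ℝ} (hD : 1 ≤ S.D)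
    (h : Good S c N x) (hx : x ≤ x') : Good S c N x' where
  ρ0 := h.ρ0
  ρ1 := h.ρ1
  Q1 := h.Q1
  Q2 := h.Q2
  P1 i := (mul_le_mul_of_nonneg_left (Real.rpow_le_rpow_of_exponent_le hD (by linarith))
    (Nat.cast_nonneg _)).trans (h.P1 i)
  P2 i := (h.P2 i).trans (mul_le_mul_of_nonneg_left
    (Real.rpow_le_rpow_of_exponent_le hD (by linarith)) (Nat.cast_nonneg _))
  N1 i := (h.N1 i).trans (mul_le_mul_of_nonneg_left
    (Real.rpow_le_rpow_of_exponent_le hD hx) (Nat.cast_nonneg _))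
  N2 := h.N2
  u1 := h.u1
  u2 := h.u2
  T1 := (Real.rpow_le_rpow_of_exponent_le hD (by linarith)).trans h.T1

end

end Pool.Agent.Helper57.NX

end

section

set_option autoImplicit false

open Finset

open scoped BigOperators ComplexConjugate

namespace Pool.Agent.Helper67.NX2

open Pool.Agent.Helper57.NX

noncomputable section

lemma IG_mono46 {m : ℕ} {S : Sys m} {c : Fin m → ℝ} {N : ℕ} {x x' : ℝ} {lam : ℕ}
    (h : IG S c N x lam) (hx : x ≤ x') (hD : 1 ≤ S.D) : IG S c N x' lam where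
  good := h.good.mono64 hD hx
  Q3 := h.Q3.trans (Real.rpow_le_rpow_of_exponent_le hD (by linarith))
  lam1 := h.lam1
  rho := h.rho
  Pint := h.Pint
  prime := h.prime

end

end Pool.Agent.Helper67.NX2

end

section

set_option autoImplicit false

open Finset

open scoped BigOperators ComplexConjugate

namespace Pool.Agent.Helper67.NX2

open Pool.Agent.Helper57.NX

theorem es_mixed (hES : ES0) {m : ℕ} (c : Fin m → ℝ) (hc : Function.Injective c)
    (hc0 : ∀ i, 0 < c i) (d0 : ℕ) (Λ a ε : ℝ) (hΛ : 1 ≤ Λ) (hε : 0 < ε) :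
    ∃ x0 : ℝ, 0 < x0 ∧ ∃ σ : ℝ, 0 < σ ∧ ∃ D0 : ℝ, ∀ D : ℝ, D0 ≤ D → ∀ ρ : ℝ, 0 ≤ ρ → ρ ≤ 1 →
    ∀ v : Fin m → ℝ, (∀ i, ¬ IsN (c i) → |v i| ≤ D ^ a) →
    (∃ i, ¬ IsN (c i) ∧ D ^ ε ≤ |v i|) →
    ∀ p : Polynomial ℝ, p.natDegree ≤ d0 →
    ∀ u T : ℕ, D ≤ u → (u : ℝ) + T ≤ Λ * D → D ^ (1 - x0) ≤ T →
    ‖𝔼 k ∈ Ico u (u + T), e (∑ i, v i * (((k : ℝ) + ρ) / D) ^ (c i) + p.eval (k : ℝ))‖ ≤
      D ^ (-σ) := by
  classical
  set κ := {i : Fin m // ¬ IsN (c i)} with hκ
  set e0 : Fin (Fintype.card κ) ≃ κ := (Fintype.equivFin κ).symm with he0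
  set d : ℕ := d0 + ∑ i : Fin m, ⌊c i⌋₊ with hd
  obtain ⟨x0, hx0, σ, hσ, D0, hD0⟩ := hES (Fintype.card κ) d (fun j => c (e0 j).1)
    (fun i j hij => by
      have h1 := hc hij
      exact e0.injective (Subtype.ext h1))
    (fun j n hn => (e0 j).2 ⟨n, hn⟩) Λ a ε hΛ hε
  refine ⟨x0, hx0, σ, hσ, D0, fun D hD ρ hρ0 hρ1 v hv hex p hp u T hu hT1 hT2 => ?_⟩
  -- the natural exponents form a polynomial
  set q : Fin m → Polynomial ℝ := fun i =>
    Polynomial.C (v i) * (Polynomial.C (1 / D) * (Polynomial.X + Polynomial.C ρ)) ^ ⌊c i⌋₊ with hq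
  set p' : Polynomial ℝ := p + ∑ i ∈ univ.filter (fun i => IsN (c i)), q i with hp'
  have hqd : ∀ i, (q i).natDegree ≤ d := by
    intro i
    have h1 : (q i).natDegree ≤ ⌊c i⌋₊ := by
      have h2 : (Polynomial.C (1 / D) * (Polynomial.X + Polynomial.C ρ)).natDegree ≤ 1 :=
        (Polynomial.natDegree_C_mul_le _ _).trans (Polynomial.natDegree_X_add_C ρ).le
      calc (q i).natDegree ≤
            ((Polynomial.C (1 / D) * (Polynomial.X + Polynomial.C ρ)) ^ ⌊c i⌋₊).natDegree :=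
            Polynomial.natDegree_C_mul_le _ _
        _ ≤ ⌊c i⌋₊ * 1 := Polynomial.natDegree_pow_le_of_le _ h2
        _ = ⌊c i⌋₊ := mul_one _
    have h3 : ⌊c i⌋₊ ≤ ∑ i : Fin m, ⌊c i⌋₊ :=
      Finset.single_le_sum (f := fun i => ⌊c i⌋₊) (fun _ _ => Nat.zero_le _) (mem_univ i)
    omega
  have hp'd : p'.natDegree ≤ d := by
    refine (Polynomial.natDegree_add_le _ _).trans (max_le (hp.trans (Nat.le_add_right _ _)) ?_)
    exact Polynomial.natDegree_sum_le_of_forall_le _ _ fun i _ => hqd i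
  have key := hD0 D hD ρ hρ0 hρ1 (fun j => v (e0 j).1) (fun j => hv _ (e0 j).2) (by
    obtain ⟨i, hi, hi2⟩ := hex
    exact ⟨e0.symm ⟨i, hi⟩, by simpa using hi2⟩) p' hp'd u T hu hT1 hT2
  have hsum : ∀ k : ℕ,
      ∑ j, v (e0 j).1 * (((k : ℝ) + ρ) / D) ^ (c (e0 j).1) + p'.eval (k : ℝ) =
      ∑ i, v i * (((k : ℝ) + ρ) / D) ^ (c i) + p.eval (k : ℝ) := by
    intro k
    have h1 : ∑ j, v (e0 j).1 * (((k : ℝ) + ρ) / D) ^ (c (e0 j).1) =
        ∑ i ∈ univ.filter (fun i => ¬ IsN (c i)), v i * (((k : ℝ) + ρ) / D) ^ (c i) := by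
      rw [Finset.sum_subtype (univ.filter (fun i => ¬ IsN (c i))) (p := fun i => ¬ IsN (c i))
        (by simp) (fun i => v i * (((k : ℝ) + ρ) / D) ^ (c i))]
      exact Fintype.sum_equiv e0 _ _ fun j => rfl
    have h2 : p'.eval (k : ℝ) = p.eval (k : ℝ) +
        ∑ i ∈ univ.filter (fun i => IsN (c i)), v i * (((k : ℝ) + ρ) / D) ^ (c i) := by
      rw [hp', Polynomial.eval_add, Polynomial.eval_finsetSum]
      congr 1
      apply Finset.sum_congr rfl
      intro i hi
      obtain ⟨n, hn⟩ := (Finset.mem_filter.mp hi).2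
      simp only [hq, Polynomial.eval_mul, Polynomial.eval_C, Polynomial.eval_pow,
        Polynomial.eval_add, Polynomial.eval_X]
      rw [hn, Nat.floor_natCast, Real.rpow_natCast]
      congr 2
      ring
    rw [h1, h2, ← Finset.sum_filter_add_sum_filter_not univ (fun i => IsN (c i))
      (fun i => v i * (((k : ℝ) + ρ) / D) ^ (c i))]
    ring
  simp_rw [hsum] at key
  exact key

end Pool.Agent.Helper67.NX2

end

section

set_option autoImplicit false

open Finset

open scoped BigOperators ComplexConjugate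

namespace Pool.Agent.Helper67.NX2

open Pool.Agent.Helper57.NX

noncomputable section

theorem rt5_nonnat (hES : ES0) {m : ℕ} (c : Fin m → ℝ) (hc : StrictMono c) (hc0 : ∀ i, 0 < c i)
    (a ε : ℝ) (hε : 0 < ε) :
    ∃ x0 : ℝ, 0 < x0 ∧ ∃ σ : ℝ, 0 < σ ∧ ∃ D0 : ℝ, 1 < D0 ∧ ∀ D : ℝ, D0 ≤ D →
    ∀ ρ : ℝ, 0 ≤ ρ → ρ ≤ 1 → ∀ δ : ℝ, D ^ (-σ) ≤ δ → δ ≤ 1 / 2 →
    ∀ v : Fin m → ℝ, (∀ i, |v i| ≤ D ^ a) →
    ∀ q k K : ℕ, 1 ≤ q → (q : ℝ) ≤ δ⁻¹ → D ≤ k → (k : ℝ) ≤ 3 * D → D ^ (1 - x0) ≤ K →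
    (q : ℝ) * K ≤ D →
    δ ≤ ‖𝔼 j ∈ range K, e (∑ i, v i * ((((k + q * j : ℕ) : ℝ) + ρ) / D) ^ (c i))‖ →
    ∀ i, ¬ IsN (c i) → |v i| ≤ D ^ ε := by
  obtain ⟨x0', hx0', σ', hσ', D0', hES'⟩ := es_mixed hES c hc.injective hc0 0 8 (2 * |a|) (ε / 2)
    (by norm_num) (by linarith)
  obtain ⟨D1, hD11, hD1⟩ := rt5_big D0' (1 / 2) (by norm_num)
  obtain ⟨D2, hD21, hD2⟩ := rt5_big 2 (1 / 4) (by norm_num)
  obtain ⟨D3, hD31, hD3⟩ := rt5_big (∑ i, (2 : ℝ) ^ (c i)) (ε / 2) (by (clear * - hε; linarith))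
  refine ⟨min x0' (1 / 2), lt_min hx0' (by norm_num), min (σ' / 4) (1 / 4),
    lt_min (by (clear * - hσ'; linarith)) (by norm_num), max D1 (max D2 D3), lt_of_lt_of_le hD11 (le_max_left _ _),
    ?_⟩
  intro D hDD ρ hρ0 hρ1 δ hδ1 hδ2 v hv q k K hq hqδ hk1 hk2 hK1 hK2 h i hi
  have hDD1 : D1 ≤ D := (le_max_left _ _).trans hDD
  have hDD2 : D2 ≤ D := ((le_max_left _ _).trans (le_max_right _ _)).trans hDD
  have hDD3 : D3 ≤ D := ((le_max_right _ _).trans (le_max_right _ _)).trans hDD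
  have hD : 1 < D := lt_of_lt_of_le hD11 hDD1
  have hDp : 0 < D := by (clear * - hD11 hDD1; linarith)
  have hδ : 0 < δ := lt_of_lt_of_le (Real.rpow_pos_of_pos hDp _) hδ1
  exact by
    by_contra hcon
    rw [not_le] at hcon
    have hq1 : (1 : ℝ) ≤ (q : ℝ) := by exact_mod_cast hq
    have hq0 : (0 : ℝ) < (q : ℝ) := by (clear * - hδ2 hδ hq1; linarith)
    have hqD : (q : ℝ) ≤ D ^ (1 / 4 : ℝ) := by
      have h1 := rt5_inv hDp hδ1 1
      rw [pow_one] at h1
      refine rt5_le hD.le (hqδ.trans h1) ?_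
      push_cast
      (clear * -; linarith [min_le_right (σ' / 4) (1 / 4 : ℝ)])
    obtain ⟨D', hD'⟩ : ∃ D' : ℝ, D' = D / (2 * q) := ⟨_, rfl⟩
    have hD'h : D ^ (1 / 2 : ℝ) ≤ D' := by
      rw [hD', le_div_iff₀ (by positivity)]
      have h1 : (2 : ℝ) * (q * D ^ (1 / 2 : ℝ)) ≤ D ^ ((1 / 4 : ℝ) + (1 / 4 + 1 / 2)) :=
        rt5_mul hDp (hD2 D hDD2) (by (clear * - hq hD; positivity)) (rt5_mul hDp hqD (by (clear * - hD; positivity)) le_rfl)
      norm_num at h1
      (clear * - h1; linarith)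
    have hDh1 : 1 ≤ D ^ (1 / 2 : ℝ) := Real.one_le_rpow hD.le (by norm_num)
    have hD'1 : 1 ≤ D' := hDh1.trans hD'h
    exact by
      have hD'p : 0 < D' := by (clear * - hδ2 hδ hD'h hDh1; linarith)
      have hD'D : D' ≤ D := by
        rw [hD', div_le_iff₀ (by (clear * - hq; positivity))]
        (clear * - hδ2 hδ hq1 hDD1 hD11 hk2; nlinarith)
      have h2D' : 2 * q * D' = D := by
        rw [hD']; (clear * - hq hD; field_simp)
      -- the residue class
      obtain ⟨u0, hu0⟩ : ∃ u0 : ℕ, u0 = k / q := ⟨_, rfl⟩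
      obtain ⟨r0, hr0⟩ : ∃ r0 : ℕ, r0 = k % q := ⟨_, rfl⟩
      have hk : q * u0 + r0 = k := by rw [hu0, hr0]; exact Nat.div_add_mod k q
      have hr0q : r0 < q := by rw [hr0]; exact Nat.mod_lt _ (by omega)
      have hkr : (q : ℝ) * u0 + r0 = k := by exact_mod_cast hk
      exact by
        have hr0q' : (r0 : ℝ) + 1 ≤ q := by exact_mod_cast hr0q
        have hr00 : (0 : ℝ) ≤ r0 := Nat.cast_nonneg _
        have key := hES' D' ((hD1 D hDD1).trans hD'h) ((r0 + ρ) / q) (by (clear * - hρ0 hq; positivity))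
          (by rw [div_le_one hq0]; (clear * - hρ1 hr0q'; linarith)) (fun i => v i * 2 ^ (-c i))
          (fun i _ => by
            have h1 : (2 : ℝ) ^ (-c i) ≤ 1 := Real.rpow_le_one_of_one_le_of_nonpos (by norm_num)
              (by (clear * - hc0; linarith [hc0 i]))
            have h0 : 0 ≤ (2 : ℝ) ^ (-c i) := Real.rpow_nonneg (by norm_num) _
            rw [abs_mul, abs_of_nonneg h0]
            calc |v i| * 2 ^ (-c i) ≤ |v i| * 1 := mul_le_mul_of_nonneg_left h1 (abs_nonneg _)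
              _ ≤ D ^ a := by rw [mul_one]; exact hv i
              _ ≤ D ^ |a| := Real.rpow_le_rpow_of_exponent_le hD.le (le_abs_self a)
              _ = (D ^ (1 / 2 : ℝ)) ^ (2 * |a|) := by
                rw [← Real.rpow_mul hDp.le]
                congr 1
                ring
              _ ≤ D' ^ (2 * |a|) := Real.rpow_le_rpow (by (clear * - hD; positivity)) hD'h (by (clear * -; positivity)))
          ⟨i, hi, by
            have h0 : 0 < (2 : ℝ) ^ (-c i) := Real.rpow_pos_of_pos (by norm_num) _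
            rw [abs_mul, abs_of_pos h0]
            have h1 : (2 : ℝ) ^ (c i) ≤ D ^ (ε / 2) :=
              (Finset.single_le_sum (f := fun i => (2 : ℝ) ^ (c i))
                (fun i _ => Real.rpow_nonneg (by norm_num) _) (mem_univ i)).trans (hD3 D hDD3)
            have h2 : D ^ ε = D ^ (ε / 2) * D ^ (ε / 2) := by
              rw [← Real.rpow_add hDp]; congr 1; ring
            have h3 : (2 : ℝ) ^ (c i) * 2 ^ (-c i) = 1 := by
              rw [← Real.rpow_add (by norm_num)]; simp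
            calc D' ^ (ε / 2) ≤ D ^ (ε / 2) := Real.rpow_le_rpow hD'p.le hD'D (by (clear * - hε; linarith))
              _ = D ^ (ε / 2) * ((2 : ℝ) ^ (c i) * 2 ^ (-c i)) := by rw [h3, mul_one]
              _ ≤ D ^ (ε / 2) * (D ^ (ε / 2) * 2 ^ (-c i)) := by (clear * - h1 hD; gcongr)
              _ = D ^ ε * 2 ^ (-c i) := by rw [h2]; ring
              _ ≤ |v i| * 2 ^ (-c i) := mul_le_mul_of_nonneg_right hcon.le h0.le⟩
          0 (by simp) u0 K (by
            have h1 : (q : ℝ) * (2 * D') ≤ q * (u0 + 1) := by (clear * - hδ2 hk1 hδ h2D' hkr hr0q'; nlinarith)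
            have h2 : 2 * D' ≤ u0 + 1 := le_of_mul_le_mul_left h1 hq0
            (clear * - hD'h hDh1 h2; linarith)) (by
            have h1 : (q : ℝ) * (u0 + K) ≤ q * (8 * D') := by (clear * - hk2 hK2 h2D' hkr; nlinarith)
            exact le_of_mul_le_mul_left h1 hq0) (by
            calc D' ^ (1 - x0') ≤ D' ^ (1 - min x0' (1 / 2)) :=
                  Real.rpow_le_rpow_of_exponent_le hD'1 (by (clear * -; linarith [min_le_left x0' (1 / 2 : ℝ)]))
              _ ≤ D ^ (1 - min x0' (1 / 2)) := Real.rpow_le_rpow hD'p.le hD'D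
                  (by (clear * - hδ2 hδ; linarith [min_le_right x0' (1 / 2 : ℝ)]))
              _ ≤ K := hK1)
        have hsame : 𝔼 k' ∈ Ico u0 (u0 + K), e (∑ i, v i * 2 ^ (-c i) *
            (((k' : ℝ) + (r0 + ρ) / q) / D') ^ (c i) + (0 : Polynomial ℝ).eval (k' : ℝ)) =
            𝔼 j ∈ range K, e (∑ i, v i * ((((k + q * j : ℕ) : ℝ) + ρ) / D) ^ (c i)) := by
          rw [expect_eq_sum_div_card, expect_eq_sum_div_card, Nat.card_Ico, card_range,
            sum_Ico_eq_sum_range]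
          have e1 : u0 + K - u0 = K := by (clear * - q k r0; omega)
          rw [e1]
          congr 1
          refine sum_congr rfl fun j _ => ?_
          congr 1
          rw [Polynomial.eval_zero, add_zero]
          refine sum_congr rfl fun i _ => ?_
          have e2 : (((u0 + j : ℕ) : ℝ) + (r0 + ρ) / q) / D' =
              2 * ((((k + q * j : ℕ) : ℝ) + ρ) / D) := by
            rw [← h2D']
            push_cast
            rw [← hkr]
            field_simp
            ring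
          have ht : 0 ≤ ((((k + q * j : ℕ) : ℝ) + ρ) / D) := by (clear * - hρ0 hD; positivity)
          rw [e2, Real.mul_rpow (by norm_num) ht]
          have h3 : (2 : ℝ) ^ (-c i) * 2 ^ (c i) = 1 := by
            rw [← Real.rpow_add (by norm_num)]; simp
          calc v i * 2 ^ (-c i) * (2 ^ (c i) * ((((k + q * j : ℕ) : ℝ) + ρ) / D) ^ (c i)) =
                v i * ((2 : ℝ) ^ (-c i) * 2 ^ (c i)) * ((((k + q * j : ℕ) : ℝ) + ρ) / D) ^ (c i) := by ring
            _ = _ := by rw [h3, mul_one]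
        rw [hsame] at key
        have h4 : D' ^ (-σ') ≤ D ^ (-(σ' / 2)) := by
          calc D' ^ (-σ') ≤ (D ^ (1 / 2 : ℝ)) ^ (-σ') :=
                Real.rpow_le_rpow_of_nonpos (by (clear * - hD; positivity)) hD'h (by (clear * - hσ'; linarith))
            _ = D ^ (-(σ' / 2)) := by
                rw [← Real.rpow_mul hDp.le]
                congr 1
                ring
        have h5 : D ^ (-(σ' / 2)) < D ^ (-min (σ' / 4) (1 / 4)) :=
          Real.rpow_lt_rpow_of_exponent_lt hD (by (clear * - hσ'; linarith [min_le_left (σ' / 4) (1 / 4 : ℝ)]))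
        (clear * - hδ1 h key h4 h5; linarith)

end

end Pool.Agent.Helper67.NX2

end

section

set_option autoImplicit false

open Finset

open scoped BigOperators ComplexConjugate

namespace Pool.Agent.Helper57.NX

noncomputable section

theorem cjj_mul67 {k : ℕ} (ω : Fin k → Bool) (z w : ℂ) : cjj ω (z * w) = cjj ω z * cjj ω w := by
  unfold cjj
  split_ifs
  · rfl
  · rw [map_mul]

theorem cjj_prod67 {k : ℕ} {ι : Type} (ω : Fin k → Bool) (s : Finset ι) (z : ι → ℂ) :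
    cjj ω (∏ i ∈ s, z i) = ∏ i ∈ s, cjj ω (z i) := by
  unfold cjj
  split_ifs
  · rfl
  · rw [map_prod]

section FC

variable {m N : ℕ} [NeZero N]

/-- the `k`-th term of the dual function at the last position -/
def Fk67 (S : Sys (m + 1)) (c : Fin (m + 1) → ℝ) (f0 : ZMod N → ℂ) (f : Fin m → ZMod N → ℂ)
    (k : ℕ) (x : ZMod N) : ℂ :=
  f0 (x - (S.a c (Fin.last m) k : ZMod N)) *
    ∏ i : Fin m, f i (x - (S.a c (Fin.last m) k : ZMod N) + (S.a c i.castSucc k : ZMod N))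

omit [NeZero N] in
theorem norm_Fk_le67 (S : Sys (m + 1)) (c : Fin (m + 1) → ℝ) (f0 : ZMod N → ℂ)
    (f : Fin m → ZMod N → ℂ) (h0 : ∀ x, ‖f0 x‖ ≤ 1) (h : ∀ i x, ‖f i x‖ ≤ 1) (k : ℕ)
    (x : ZMod N) : ‖Fk67 S c f0 f k x‖ ≤ 1 := by
  unfold Fk67
  rw [norm_mul, norm_prod]
  exact mul_le_one₀ (h0 _) (prod_nonneg fun _ _ => norm_nonneg _)
    (prod_le_one (fun _ _ => norm_nonneg _) fun i _ => h i _)

/-- the form with a last function `G` -/
theorem form_snoc67 (S : Sys (m + 1)) (c : Fin (m + 1) → ℝ) (f0 : ZMod N → ℂ)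
    (f : Fin m → ZMod N → ℂ) (G : ZMod N → ℂ) :
    form S c 1 f0 (Fin.snoc (α := fun _ => ZMod N → ℂ) f G) =
      𝔼 k ∈ S.I, 𝔼 x, Fk67 S c f0 f k x * G x := by
  unfold form
  refine expect_congr rfl fun k _ => ?_
  rw [Pi.one_apply, one_mul]
  rw [← expect_shift (fun x => Fk67 S c f0 f k x * G x) (S.a c (Fin.last m) k : ZMod N)]
  refine expect_congr rfl fun x _ => ?_
  rw [Fin.prod_univ_castSucc]
  unfold Fk67
  simp only [Fin.snoc_castSucc, Fin.snoc_last, add_sub_cancel_right]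
  ring

theorem cube_Fk67 (S : Sys (m + 1)) (c : Fin (m + 1) → ℝ) (f0 : ZMod N → ℂ)
    (f : Fin m → ZMod N → ℂ) (k : ℕ) {l : ℕ} (a b : Fin l → ℕ) (x : ZMod N) :
    cube (Fk67 S c f0 f k) a b x = Fk67 S c (cube f0 a b) (fun i => cube (f i) a b) k x := by
  unfold cube Fk67
  rw [prod_comm, ← prod_mul_distrib]
  refine prod_congr rfl fun ω _ => ?_
  rw [cjj_mul67, cjj_prod67]
  congr 1
  · congr 2
    ring
  · refine prod_congr rfl fun i _ => ?_
    congr 2
    ring

theorem form_cube67 (S : Sys (m + 1)) (c : Fin (m + 1) → ℝ) (f0 : ZMod N → ℂ)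
    (f : Fin m → ZMod N → ℂ) (G : ZMod N → ℂ) {l : ℕ} (a b : Fin l → ℕ) :
    𝔼 k ∈ S.I, 𝔼 x, cube (Fk67 S c f0 f k) a b x * G x =
      form S c 1 (cube f0 a b)
        (Fin.snoc (α := fun _ => ZMod N → ℂ) (fun i => cube (f i) a b) G) := by
  rw [form_snoc67]
  simp_rw [cube_Fk67]

/-- correlations of the dual function are forms -/
theorem expect_dual67 (S : Sys (m + 1)) (c : Fin (m + 1) → ℝ) (f0 : ZMod N → ℂ)
    (f : Fin m → ZMod N → ℂ) (G : ZMod N → ℂ) :
    𝔼 x, (𝔼 k ∈ S.I, Fk67 S c f0 f k x) * G x =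
      form S c 1 f0 (Fin.snoc (α := fun _ => ZMod N → ℂ) f G) := by
  rw [form_snoc67, expect_comm]
  refine expect_congr rfl fun x _ => ?_
  rw [expect_mul]

end FC

end

end Pool.Agent.Helper57.NX

end

section

set_option autoImplicit false

open Finset

open scoped BigOperators ComplexConjugate

namespace Pool.Agent.Helper57.NX

noncomputable section

/-- the statement of `dl_total` (NX-13) -/
def DLTotal67 : Prop := ∀ (r : ℕ) (Γ : ℕ → ℕ) (n : ℕ), ∃ n4 : ℕ,
    ∀ (N : ℕ) [NeZero N] (ι : Type) (Ω : Finset ι) (F : ι → ZMod N → ℂ) (κ u : ZMod N → ℂ)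
      (δ Y : ℝ) (X : ℕ), DLData Ω F κ u → 0 < δ → δ ≤ 1 / 2 → Adm (δ⁻¹ ^ n) Y u →
      1 ≤ Y → Y ≤ δ ^ n4 * X → (X : ℝ) ≤ δ ^ n4 * N → δ ^ n ≤ Box r X u →
      (∀ k ≤ r, ∀ n2 ≤ n4, ∀ X2 X' : ℕ, δ ^ n4 * X ≤ X2 → X2 ≤ X → 1 ≤ X' → X' ≤ X2 →
        LPh Ω F k X' X2 (δ⁻¹ ^ n2 / Y) (δ⁻¹ ^ (Γ n2) / X2) (δ ^ n2)) →
      ∃ X2 : ℕ, δ ^ n4 * X ≤ X2 ∧ X2 ≤ X ∧ ∃ (r' : ZMod N) (cc : ℕ → ℂ) (φ : ℕ → ℝ),
        (∀ j, ‖cc j‖ ≤ 1) ∧ (∀ j, |φ j| ≤ δ⁻¹ ^ n4 / Y) ∧
        δ ^ n4 ≤ ‖𝔼 x, u x * bphase X2 r' cc φ x‖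

end

end Pool.Agent.Helper57.NX

end

section

set_option autoImplicit false

open Finset

open scoped BigOperators ComplexConjugate

namespace Pool.Agent.Helper57.NX

noncomputable section

/-- one complete degree lowering step -/
def H72Low (k : ℕ) : Prop := ∀ (Γ : ℕ → ℕ) (n : ℕ), ∃ n2 n3 : ℕ,
    ∀ (N : ℕ) [NeZero N] (ι : Type) (Ω : Finset ι) (F : ι → ZMod N → ℂ) (κ u : ZMod N → ℂ)
      (δ Y : ℝ) (X X' : ℕ), DLData Ω F κ u → 0 < δ → δ ≤ 1 / 2 → Adm (δ⁻¹ ^ n) Y u →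
      1 ≤ Y → Y ≤ X → (X : ℝ) ≤ δ ^ n3 * N → δ ^ n ≤ Box (k + 2) X u →
      1 ≤ X' → (X' : ℝ) ≤ δ ^ n3 * X →
      LPh Ω F k X' X (δ⁻¹ ^ n2 / Y) (δ⁻¹ ^ (Γ n2) / X) (δ ^ n2) →
      δ ^ n3 ≤ Box (k + 1) X' u

/-- the statement of `dl_A` for a fixed `k` -/
def H72A (k : ℕ) : Prop := ∀ n : ℕ, ∃ n2 : ℕ, ∀ n1 : ℕ, ∃ n3 : ℕ,
    ∀ (N : ℕ) [NeZero N] (ι : Type) (Ω : Finset ι) (F : ι → ZMod N → ℂ) (κ u : ZMod N → ℂ)
      (δ Y : ℝ) (X X' : ℕ), DLData Ω F κ u → 0 < δ → δ ≤ 1 / 2 → Adm (δ⁻¹ ^ n) Y u →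
      1 ≤ Y → Y ≤ X → (X : ℝ) ≤ δ ^ n3 * N → δ ^ n ≤ Box (k + 2) X u →
      1 ≤ X' → (X' : ℝ) ≤ δ ^ n3 * X →
      LPh Ω F k X' X (δ⁻¹ ^ n2 / Y) (δ⁻¹ ^ n1 / X) (δ ^ n2) →
      ∃ (r : ZMod N) (θ : (Fin k → ℕ) → (Fin k → ℕ) → ℕ → ℝ) (a' : ℕ → Fin k → ℕ),
        (∀ j, a' j ∈ boxset k X') ∧
        δ ^ n2 ≤ 𝔼 j ∈ range (N / X), 𝔼 a ∈ boxset k X', 𝔼 b ∈ boxset k X',
          (if |θ a b j - psiSum θ (a' j) a b j| ≤ δ⁻¹ ^ n1 / X then
            ‖𝔼 t ∈ range X, cube u a b (r + ((j * X + t : ℕ) : ZMod N)) * e (-(θ a b j * t))‖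
          else 0)

/-- the statement of `dl_B` for a fixed `k` -/
def H72B (k : ℕ) : Prop := ∀ n n1 : ℕ, ∃ n3 : ℕ,
    ∀ (N : ℕ) [NeZero N] (u : ZMod N → ℂ) (δ : ℝ) (X X' : ℕ), (∀ x, ‖u x‖ ≤ 1) →
      0 < δ → δ ≤ 1 / 2 → 1 ≤ X → (X : ℝ) ≤ δ ^ n3 * N → 1 ≤ X' → (X' : ℝ) ≤ δ ^ n3 * X →
      ∀ (r : ZMod N) (θ : (Fin k → ℕ) → (Fin k → ℕ) → ℕ → ℝ) (a' : ℕ → Fin k → ℕ),
        (∀ j, a' j ∈ boxset k X') →
        δ ^ n ≤ 𝔼 j ∈ range (N / X), 𝔼 a ∈ boxset k X', 𝔼 b ∈ boxset k X',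
          (if |θ a b j - psiSum θ (a' j) a b j| ≤ δ⁻¹ ^ n1 / X then
            ‖𝔼 t ∈ range X, cube u a b (r + ((j * X + t : ℕ) : ZMod N)) * e (-(θ a b j * t))‖
          else 0) →
        δ ^ n3 ≤ Box (k + 1) X' u

theorem h72_low_of (k : ℕ) (hA : H72A k) (hB : H72B k) : H72Low k := by
  intro Γ n
  obtain ⟨n2, h2⟩ := hA n
  obtain ⟨n3, h3⟩ := h2 (Γ n2)
  obtain ⟨n5, h5⟩ := hB n2 (Γ n2)
  refine ⟨n2, max n3 n5, ?_⟩
  intro N _ ι Ω F κ u δ Y X X' hD hδ0 hδ1 hu hY hYX hXN hbox hX'1 hX' hLP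
  have hX0 : (0 : ℝ) ≤ X := Nat.cast_nonneg X
  have hN0 : (0 : ℝ) ≤ N := Nat.cast_nonneg N
  have hX1 : 1 ≤ X := by
    have : (1 : ℝ) ≤ X := le_trans hY hYX
    exact_mod_cast this
  obtain ⟨r, θ, a', ha', hlow⟩ := h3 N ι Ω F κ u δ Y X X' hD hδ0 hδ1 hu hY hYX
    (le_trans hXN (mul_le_mul_of_nonneg_right (h72_pow_anti hδ0 hδ1 (le_max_left _ _)) hN0)) hbox
    hX'1 (le_trans hX' (mul_le_mul_of_nonneg_right (h72_pow_anti hδ0 hδ1 (le_max_left _ _)) hX0))
    hLP
  exact le_trans (h72_pow_anti hδ0 hδ1 (le_max_right _ _))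
    (h5 N u δ X X' hu.bdd hδ0 hδ1 hX1
      (le_trans hXN (mul_le_mul_of_nonneg_right (h72_pow_anti hδ0 hδ1 (le_max_right _ _)) hN0))
      hX'1 (le_trans hX' (mul_le_mul_of_nonneg_right (h72_pow_anti hδ0 hδ1 (le_max_right _ _)) hX0))
      r θ a' ha' hlow)

end

end Pool.Agent.Helper57.NX

end

section

set_option autoImplicit false

open Finset

open scoped BigOperators ComplexConjugate

namespace Pool.Agent.Helper57.NX

noncomputable section

section dla_cube

variable {N : ℕ} {k : ℕ}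

theorem dla_psi (θ : (Fin k → ℕ) → (Fin k → ℕ) → ℕ → ℝ) (a' a b : Fin k → ℕ) (j : ℕ) :
    ∑ ω, sg ω * (-θ (sel ω a a') b j) = -(θ a b j - psiSum θ a' a b j) := by
  unfold psiSum
  rw [← Finset.add_sum_erase univ _ (mem_univ (fun _ : Fin k => false))]
  have h1 : sg (fun _ : Fin k => false) = 1 := by
    unfold sg
    simp
  have h2 : sel (fun _ : Fin k => false) a a' = a := by
    funext i
    simp [sel]
  rw [h1, h2]
  simp only [mul_neg, sum_neg_distrib, one_mul]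
  ring

end dla_cube

end

end Pool.Agent.Helper57.NX

end

section

set_option autoImplicit false

open Finset

open scoped BigOperators ComplexConjugate

namespace Pool.Agent.Helper41.NX

open Pool.Agent.Helper57.NX

noncomputable section

theorem norm_expect_e_sub_le (s : Finset ℕ) (φ ψ : ℕ → ℝ) (η : ℝ) (hη : 0 ≤ η)
    (h : ∀ z ∈ s, |φ z - ψ z| ≤ η) :
    ‖𝔼 z ∈ s, e (φ z)‖ ≤ ‖𝔼 z ∈ s, e (ψ z)‖ + 2 * Real.pi * η := by
  have h1 : ‖𝔼 z ∈ s, e (φ z) - 𝔼 z ∈ s, e (ψ z)‖ ≤ 2 * Real.pi * η := by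
    rw [← expect_sub_distrib]
    refine norm_expect_le_of5 s _ (by positivity) fun z hz => ?_
    refine (norm_e_sub_e_le _ _).trans ?_
    exact mul_le_mul_of_nonneg_left (h z hz) (by positivity)
  have h2 := norm_sub_norm_le (𝔼 z ∈ s, e (φ z)) (𝔼 z ∈ s, e (ψ z))
  linarith

theorem pair_bound (hES : ES0) (m : ℕ) (g : Fin m → ℝ) (hg0 : ∀ i, 0 < g i) (hg1 : ∀ i, g i < 1)
    (hginj : Function.Injective g) (b : ℝ) (hb : 1 ≤ b) (ε : ℝ) (hε : 0 < ε) :
    ∃ xE : ℝ, 0 < xE ∧ ∃ σE : ℝ, 0 < σE ∧ ∃ P0 : ℝ, ∃ C : ℝ, 0 < C ∧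
    ∀ P : ℝ, P0 ≤ P → ∀ V : ℝ, 0 ≤ V → V ≤ P / 4 → ∀ v v' : Fin m → ℝ, (∀ i, |v i| ≤ V) →
    (∀ i, |v' i| ≤ V) → ∀ lam : ℝ, 0 < lam → (∃ i, lam ≤ |v i|) →
    ∀ z0 Z : ℕ, 3 / 4 * P ≤ z0 → (z0 : ℝ) + Z ≤ b * P → P ^ (1 - xE) ≤ Z →
    ∀ h h' H : ℝ, 0 ≤ h → h ≤ H → 0 ≤ h' → h' ≤ H → H ≤ P / 4 →
    C * (P ^ ε * P / lam) < |h - h'| →
    ‖𝔼 z ∈ Ico z0 (z0 + Z), e (∑ i, v i * (((z : ℝ) - h) / P) ^ (g i) -
      ∑ i, v' i * (((z : ℝ) - h') / P) ^ (g i))‖ ≤ C * P ^ (-σE) + C * (V * (H / P) ^ 2) := by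
  -- constants
  have hT : ∀ i, ∃ C : ℝ, 0 < C ∧ ∀ x ∈ Set.Icc (1 / 2) b, ∀ y ∈ Set.Icc (1 / 2) b,
      |x ^ (g i) - y ^ (g i) - g i * y ^ (g i - 1) * (x - y)| ≤ C * (x - y) ^ 2 := fun i =>
    rpow_taylor (g i) (1 / 2) b (by norm_num)
  choose CT hCT0 hCT using hT
  let γ : Fin (m + m) → ℝ := Fin.append g (fun i => g i - 1)
  have hγl : ∀ i : Fin m, γ (Fin.castAdd m i) = g i := fun i => Fin.append_left _ _ i
  have hγr : ∀ i : Fin m, γ (Fin.natAdd m i) = g i - 1 := fun i => Fin.append_right _ _ i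
  have hγinj : Function.Injective γ := by
    intro i j
    refine Fin.addCases (fun i => ?_) (fun i => ?_) i <;>
      refine Fin.addCases (fun j => ?_) (fun j => ?_) j
    · rw [hγl, hγl]
      intro h
      rw [hginj h]
    · rw [hγl, hγr]
      intro h
      have := hg0 i
      have := hg1 j
      linarith
    · rw [hγr, hγl]
      intro h
      have := hg1 i
      have := hg0 j
      linarith
    · rw [hγr, hγr]
      intro h
      rw [hginj (by linarith : g i = g j)]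
  exact by
    have hγn : ∀ i (n : ℕ), γ i ≠ n := by
      intro i n
      refine Fin.addCases (fun i => ?_) (fun i => ?_) i
      · rw [hγl]
        intro h
        have h0 := hg0 i
        have h1 := hg1 i
        rw [h] at h0 h1
        have h2 : 0 < n := by exact_mod_cast h0
        have h3 : n < 1 := by exact_mod_cast h1
        omega
      · rw [hγr]
        intro h
        have h1 := hg1 i
        have h2 : (0 : ℝ) ≤ n := by (clear * -; positivity)
        (clear * - h h1; linarith)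
    obtain ⟨x0, hx0, σ, hσ, D0, hmain⟩ := hES (m + m) 0 γ hγinj hγn (2 * b) 1 ε (by linarith) hε
    set xE : ℝ := min x0 (1 / 2) with hxE
    have hxE0 : 0 < xE := lt_min hx0 (by norm_num)
    refine ⟨xE, hxE0, σ, hσ, max (2 * D0) 2, ∑ i, 1 / g i + 1 + 2 ^ σ + 4 * Real.pi * ∑ i, CT i, ?_,
      ?_⟩
    · have h1 : 0 ≤ ∑ i, 1 / g i := sum_nonneg fun i _ => (div_pos one_pos (hg0 i)).le
      have h2 : 0 ≤ ∑ i, CT i := sum_nonneg fun i _ => (hCT0 i).le
      have h3 : (0 : ℝ) < 2 ^ σ := by positivity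
      (clear * - h1 h2; positivity)
    intro P hP V hV0 hV v v' hv hv' lam hlam hex z0 Z hz0 hzZ hZ h h' H hh0 hhH hh'0 hh'H hH hclose
    have hS1 : 0 ≤ ∑ i, 1 / g i := sum_nonneg fun i _ => (div_pos one_pos (hg0 i)).le
    have hS2 : 0 ≤ ∑ i, CT i := sum_nonneg fun i _ => (hCT0 i).le
    have h2σ : (0 : ℝ) < 2 ^ σ := by positivity
    exact by
      have hP2 : 2 ≤ P := (le_max_right _ _).trans hP
      have hP0 : 0 < P := by (clear * - hP2; linarith)
      have hPD : D0 ≤ P / 2 := by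
        have := (le_max_left (2 * D0) 2).trans hP
        (clear * - this; linarith)
      have hH0 : 0 ≤ H := hh0.trans hhH
      set D : ℝ := P / 2 with hD
      have hD1 : 1 ≤ D := by rw [hD]; (clear * - hP2; linarith)
      have hD0 : 0 < D := by (clear * - hP2 hD; linarith)
      -- coefficients
      exact by
        let A : Fin m → ℝ := fun i => v i - v' i
        let B : Fin m → ℝ := fun i => -(g i * (v i * h - v' i * h') / P)
        -- Taylor
        have hpi := Real.pi_pos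
        have step1 : ∀ z ∈ Ico z0 (z0 + Z), |(∑ i, v i * (((z : ℝ) - h) / P) ^ (g i) -
            ∑ i, v' i * (((z : ℝ) - h') / P) ^ (g i)) -
            (∑ i, A i * ((z : ℝ) / P) ^ (g i) + ∑ i, B i * ((z : ℝ) / P) ^ (g i - 1))| ≤
            2 * (∑ i, CT i) * (V * (H / P) ^ 2) := by
          intro z hz
          rw [mem_Ico] at hz
          have hz1 : (z0 : ℝ) ≤ z := by exact_mod_cast hz.1
          have hz2 : (z : ℝ) ≤ z0 + Z := by exact_mod_cast hz.2.le
          have hy : (z : ℝ) / P ∈ Set.Icc (1 / 2) b := by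
            constructor
            · rw [le_div_iff₀ hP0]; (clear * - hz0 hP2 hz1; linarith)
            · rw [div_le_iff₀ hP0]; (clear * - hzZ hz2; linarith)
          have hx : ∀ t : ℝ, 0 ≤ t → t ≤ H → ((z : ℝ) - t) / P ∈ Set.Icc (1 / 2) b := by
            intro t ht0 htH
            constructor
            · rw [le_div_iff₀ hP0]; (clear * - hz0 hH hz1 htH; linarith)
            · rw [div_le_iff₀ hP0]; (clear * - hzZ hz2 ht0; linarith)
          have hone : ∀ i, ∀ t : ℝ, 0 ≤ t → t ≤ H → |(((z : ℝ) - t) / P) ^ (g i) - ((z : ℝ) / P) ^ (g i) +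
              g i * ((z : ℝ) / P) ^ (g i - 1) * (t / P)| ≤ CT i * (H / P) ^ 2 := by
            intro i t ht0 htH
            have h1 := hCT i _ (hx t ht0 htH) _ hy
            have h2 : ((z : ℝ) - t) / P - (z : ℝ) / P = -(t / P) := by ring
            rw [h2] at h1
            have h3 : (((z : ℝ) - t) / P) ^ (g i) - ((z : ℝ) / P) ^ (g i) +
              g i * ((z : ℝ) / P) ^ (g i - 1) * (t / P) = (((z : ℝ) - t) / P) ^ (g i) -
              ((z : ℝ) / P) ^ (g i) - g i * ((z : ℝ) / P) ^ (g i - 1) * -(t / P) := by ring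
            rw [h3]
            refine h1.trans ?_
            apply mul_le_mul_of_nonneg_left _ (hCT0 i).le
            rw [neg_sq]
            apply pow_le_pow_left₀ (by (clear * - ht0 hP2; positivity))
            exact div_le_div_of_nonneg_right htH hP0.le
          have hsplit : (∑ i, v i * (((z : ℝ) - h) / P) ^ (g i) -
            ∑ i, v' i * (((z : ℝ) - h') / P) ^ (g i)) -
            (∑ i, A i * ((z : ℝ) / P) ^ (g i) + ∑ i, B i * ((z : ℝ) / P) ^ (g i - 1)) =
            ∑ i, (v i * ((((z : ℝ) - h) / P) ^ (g i) - ((z : ℝ) / P) ^ (g i) +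
              g i * ((z : ℝ) / P) ^ (g i - 1) * (h / P)) -
              v' i * ((((z : ℝ) - h') / P) ^ (g i) - ((z : ℝ) / P) ^ (g i) +
              g i * ((z : ℝ) / P) ^ (g i - 1) * (h' / P))) := by
            rw [← sum_sub_distrib, ← sum_add_distrib, ← sum_sub_distrib]
            refine sum_congr rfl fun i _ => ?_
            simp only [A, B]
            ring
          rw [hsplit]
          refine (abs_sum_le_sum_abs _ _).trans ?_
          calc _ ≤ ∑ i, 2 * (CT i) * (V * (H / P) ^ 2) := by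
                refine sum_le_sum fun i _ => ?_
                refine (abs_sub _ _).trans ?_
                rw [abs_mul, abs_mul]
                have h4 := mul_le_mul (hv i) (hone i h hh0 hhH) (abs_nonneg _) hV0
                have h5 := mul_le_mul (hv' i) (hone i h' hh'0 hh'H) (abs_nonneg _) hV0
                (clear * - h4 h5; linarith)
            _ = _ := by rw [← sum_mul, ← mul_sum]
        have step2 := norm_expect_e_sub_le (Ico z0 (z0 + Z))
          (fun z => ∑ i, v i * (((z : ℝ) - h) / P) ^ (g i) - ∑ i, v' i * (((z : ℝ) - h') / P) ^ (g i))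
          (fun z => ∑ i, A i * ((z : ℝ) / P) ^ (g i) + ∑ i, B i * ((z : ℝ) / P) ^ (g i - 1))
          (2 * (∑ i, CT i) * (V * (H / P) ^ 2)) (by (clear * - hS2 hV0; positivity)) step1
        refine step2.trans ?_
        -- the exponential sum
        let v2 : Fin (m + m) → ℝ := Fin.append (fun i => A i * 2 ^ (-(g i)))
          (fun i => B i * 2 ^ (-(g i - 1)))
        have hv2l : ∀ i : Fin m, v2 (Fin.castAdd m i) = A i * 2 ^ (-(g i)) := fun i =>
          Fin.append_left _ _ i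
        have hv2r : ∀ i : Fin m, v2 (Fin.natAdd m i) = B i * 2 ^ (-(g i - 1)) := fun i =>
          Fin.append_right _ _ i
        exact by
          have hA : ∀ i, |A i| ≤ 2 * V := fun i => by
            refine (abs_sub _ _).trans ?_
            (clear * - hv hv'; linarith [hv i, hv' i])
          have hBh : ∀ i, |v i * h - v' i * h'| ≤ 2 * V * H := fun i => by
            refine (abs_sub _ _).trans ?_
            rw [abs_mul, abs_mul, abs_of_nonneg hh0, abs_of_nonneg hh'0]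
            have h4 := mul_le_mul (hv i) hhH hh0 hV0
            have h5 := mul_le_mul (hv' i) hh'H hh'0 hV0
            (clear * - h4 h5; linarith)
          have hBeq : ∀ i, |B i| = g i * |v i * h - v' i * h'| / P := fun i => by
            simp only [B]
            rw [abs_neg, abs_div, abs_mul, abs_of_pos (hg0 i), abs_of_pos hP0]
          have hB : ∀ i, |B i| ≤ V := fun i => by
            rw [hBeq, div_le_iff₀ hP0]
            have h6 := hBh i
            have h7 : 2 * V * H ≤ V * P := by (clear * - hV0 hV hH; nlinarith)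
            have h8 : g i * |v i * h - v' i * h'| ≤ 1 * |v i * h - v' i * h'| :=
              mul_le_mul_of_nonneg_right (hg1 i).le (abs_nonneg _)
            (clear * - h6 h7 h8; linarith)
          have h2g : ∀ i, (2 : ℝ) ^ (-(g i)) ≤ 1 := fun i =>
            Real.rpow_le_one_of_one_le_of_nonpos (by norm_num) (by (clear * - hg0; linarith [hg0 i]))
          have h2g' : ∀ i, (2 : ℝ) ^ (-(g i - 1)) ≤ 2 := fun i => by
            calc (2 : ℝ) ^ (-(g i - 1)) ≤ 2 ^ (1 : ℝ) :=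
                  Real.rpow_le_rpow_of_exponent_le (by norm_num) (by (clear * - hg0; linarith [hg0 i]))
              _ = 2 := by rw [Real.rpow_one]
          exact by
            have h2gl : ∀ i, 1 / 2 ≤ (2 : ℝ) ^ (-(g i)) := fun i => by
              calc (1 / 2 : ℝ) = 2 ^ (-1 : ℝ) := by
                    rw [Real.rpow_neg_one]; norm_num
                _ ≤ _ := Real.rpow_le_rpow_of_exponent_le (by norm_num) (by (clear * - hg1; linarith [hg1 i]))
            have h2gl' : ∀ i, 1 ≤ (2 : ℝ) ^ (-(g i - 1)) := fun i =>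
              Real.one_le_rpow (by norm_num) (by (clear * - hg1; linarith [hg1 i]))
            have hbound : ∀ i, |v2 i| ≤ D ^ (1 : ℝ) := by
              intro i
              rw [Real.rpow_one]
              refine Fin.addCases (fun i => ?_) (fun i => ?_) i
              · rw [hv2l, abs_mul, abs_of_pos (by positivity : (0 : ℝ) < 2 ^ (-(g i)))]
                have h9 := mul_le_mul (hA i) (h2g i) (by positivity) (by (clear * - hV0; positivity))
                rw [hD]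
                (clear * - hV h9; linarith)
              · rw [hv2r, abs_mul, abs_of_pos (by positivity : (0 : ℝ) < 2 ^ (-(g i - 1)))]
                have h9 := mul_le_mul (hB i) (h2g' i) (by positivity) (by positivity)
                rw [hD]
                (clear * - hV h9; linarith)
            have hlarge : ∃ i, D ^ ε ≤ |v2 i| := by
              by_contra hno
              push Not at hno
              obtain ⟨i, hi⟩ := hex
              have hWpos : 0 < D ^ ε := by positivity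
              have h1 := hno (Fin.castAdd m i)
              have h2 := hno (Fin.natAdd m i)
              rw [hv2l, abs_mul, abs_of_pos (by positivity : (0 : ℝ) < 2 ^ (-(g i)))] at h1
              rw [hv2r, abs_mul, abs_of_pos (by positivity : (0 : ℝ) < 2 ^ (-(g i - 1)))] at h2
              have hA' : |A i| ≤ 2 * D ^ ε := by
                have := mul_le_mul_of_nonneg_left (h2gl i) (abs_nonneg (A i))
                (clear * - h1 this; linarith)
              have hB' : |B i| ≤ D ^ ε := by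
                have := mul_le_mul_of_nonneg_left (h2gl' i) (abs_nonneg (B i))
                (clear * - h2 this; linarith)
              have h3 : |h - h'| * lam ≤ (∑ i, 1 / g i + 1) * (D ^ ε * P) := by
                have h4 : |h - h'| * lam ≤ |h - h'| * |v i| := mul_le_mul_of_nonneg_left hi (abs_nonneg _)
                have h5 : |h - h'| * |v i| = |(v i * h - v' i * h') + -(A i * h')| := by
                  rw [← abs_mul]
                  congr 1
                  simp only [A]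
                  ring
                have h6 : |(v i * h - v' i * h') + -(A i * h')| ≤ |v i * h - v' i * h'| + |A i| * |h'| := by
                  refine (abs_add_le _ _).trans ?_
                  rw [abs_neg, abs_mul]
                have h7 : |v i * h - v' i * h'| = (1 / g i) * (|B i| * P) := by
                  have h70 := (hg0 i).ne'
                  rw [hBeq i]
                  (clear * - h70 hP2; field_simp)
                have h8 : |A i| * |h'| ≤ 2 * D ^ ε * (P / 4) := by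
                  rw [abs_of_nonneg hh'0]
                  exact mul_le_mul hA' (hh'H.trans hH) hh'0 (by positivity)
                have h9 : (1 / g i) * (|B i| * P) ≤ (∑ i, 1 / g i) * (D ^ ε * P) := by
                  apply mul_le_mul _ (mul_le_mul_of_nonneg_right hB' hP0.le) (by (clear * - hP2; positivity)) hS1
                  exact single_le_sum (f := fun i => 1 / g i) (fun j _ => (div_pos one_pos (hg0 j)).le)
                    (mem_univ i)
                have h10 : 0 ≤ D ^ ε * P := by (clear * - hP2; positivity)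
                (clear * - h4 h5 h6 h7 h8 h9 h10; linarith)
              have h11 : |h - h'| ≤ (∑ i, 1 / g i + 1) * (P ^ ε * P / lam) := by
                have h12 : D ^ ε ≤ P ^ ε := Real.rpow_le_rpow hD0.le (by rw [hD]; (clear * - hP2; linarith)) hε.le
                have h13 : (∑ i, 1 / g i + 1) * (D ^ ε * P) ≤ (∑ i, 1 / g i + 1) * (P ^ ε * P) := by
                  apply mul_le_mul_of_nonneg_left _ (by (clear * - hS1; linarith))
                  exact mul_le_mul_of_nonneg_right h12 hP0.le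
                have h14 : |h - h'| ≤ ((∑ i, 1 / g i + 1) * (P ^ ε * P)) / lam := by
                  rw [le_div_iff₀ hlam]
                  exact h3.trans h13
                rw [mul_div_assoc] at h14
                exact h14
              have h15 : (∑ i, 1 / g i + 1) * (P ^ ε * P / lam) ≤
                  (∑ i, 1 / g i + 1 + 2 ^ σ + 4 * Real.pi * ∑ i, CT i) * (P ^ ε * P / lam) := by
                apply mul_le_mul_of_nonneg_right _ (by (clear * - hP2 hlam; positivity))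
                have : 0 ≤ 4 * Real.pi * ∑ i, CT i := by (clear * - hS2; positivity)
                (clear * - h2σ this; linarith)
              (clear * - hclose h11 h15; linarith)
            have hT' : D ^ (1 - x0) ≤ Z := by
              have h1 : D ^ (1 - x0) ≤ D ^ (1 - xE) :=
                Real.rpow_le_rpow_of_exponent_le hD1 (by (clear * -; linarith [min_le_left x0 (1 / 2)]))
              have h2 : D ^ (1 - xE) ≤ P ^ (1 - xE) :=
                Real.rpow_le_rpow hD0.le (by rw [hD]; (clear * - hP2; linarith)) (by (clear * -; linarith [min_le_right x0 (1 / 2)]))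
              (clear * - hZ h1 h2; linarith)
            have hes := hmain D hPD 0 le_rfl zero_le_one v2 hbound hlarge 0 (by simp) z0 Z
              (by rw [hD]; (clear * - hz0 hP2; linarith)) (by rw [hD]; (clear * - hzZ; linarith)) hT'
            exact by
              have hphase : ∀ z ∈ Ico z0 (z0 + Z), ∑ i, v2 i * (((z : ℝ) + 0) / D) ^ (γ i) +
                  Polynomial.eval (z : ℝ) (0 : Polynomial ℝ) =
                  ∑ i, A i * ((z : ℝ) / P) ^ (g i) + ∑ i, B i * ((z : ℝ) / P) ^ (g i - 1) := by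
                intro z _
                rw [Polynomial.eval_zero, add_zero, Fin.sum_univ_add]
                have hzD : ((z : ℝ) + 0) / D = 2 * ((z : ℝ) / P) := by
                  rw [hD]
                  field_simp
                  ring
                have hpow : ∀ s : ℝ, (2 : ℝ) ^ (-s) * (2 * ((z : ℝ) / P)) ^ s = ((z : ℝ) / P) ^ s := by
                  intro s
                  rw [Real.mul_rpow (by norm_num) (by (clear * - hP2; positivity)), ← mul_assoc, ← Real.rpow_add (by norm_num)]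
                  simp
                congr 1
                · refine sum_congr rfl fun i _ => ?_
                  rw [hv2l, hγl, hzD, mul_assoc, hpow]
                · refine sum_congr rfl fun i _ => ?_
                  rw [hv2r, hγr, hzD, mul_assoc, hpow]
              rw [expect_congr rfl fun z hz => by rw [hphase z hz]] at hes
              have h16 : D ^ (-σ) = 2 ^ σ * P ^ (-σ) := by
                rw [hD, Real.div_rpow hP0.le (by norm_num), Real.rpow_neg (by norm_num : (0 : ℝ) ≤ 2)]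
                (clear * - hP2; field_simp)
              rw [h16] at hes
              have h17 : 0 < P ^ (-σ) := by positivity
              have h18 : 0 ≤ V * (H / P) ^ 2 := by (clear * - hV0; positivity)
              have h19 : 2 ^ σ * P ^ (-σ) ≤
                  (∑ i, 1 / g i + 1 + 2 ^ σ + 4 * Real.pi * ∑ i, CT i) * P ^ (-σ) := by
                apply mul_le_mul_of_nonneg_right _ h17.le
                have : 0 ≤ 4 * Real.pi * ∑ i, CT i := by (clear * - hS2; positivity)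
                (clear * - hS1 this; linarith)
              have h20 : 2 * Real.pi * (2 * (∑ i, CT i) * (V * (H / P) ^ 2)) ≤
                  (∑ i, 1 / g i + 1 + 2 ^ σ + 4 * Real.pi * ∑ i, CT i) * (V * (H / P) ^ 2) := by
                have : 2 * Real.pi * (2 * (∑ i, CT i) * (V * (H / P) ^ 2)) =
                    (4 * Real.pi * ∑ i, CT i) * (V * (H / P) ^ 2) := by ring
                rw [this]
                apply mul_le_mul_of_nonneg_right _ h18
                (clear * - hS1 h2σ; linarith)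
              (clear * - hes h19 h20; linarith)

end

end Pool.Agent.Helper41.NX

end

section

set_option autoImplicit false

open Finset

open scoped BigOperators ComplexConjugate

namespace Pool.Agent.Helper67.NX2

open Pool.Agent.Helper57.NX

noncomputable section

/-- The conclusion of `bc` (module A22). -/
def BcC (m : ℕ) : Prop :=
  ∃ C : ℕ, ∀ (c : Fin (m + 1) → ℝ) (d : ℕ) (_ : c (Fin.last m) = d)
    (S : Sys (m + 1)) (N : ℕ) [NeZero N] (lam : ℕ) (x : ℝ), 1 ≤ S.D → IG S c N x lam →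
    ∀ δ : ℝ, 0 < δ → δ ≤ 1 / 2 → δ⁻¹ ^ C ≤ S.Q →
    ∀ (f0 : ZMod N → ℂ) (f : Fin m → ZMod N → ℂ) (g : ZMod N → ℂ),
    Adm δ⁻¹ S.Q f0 → (∀ i, Adm δ⁻¹ S.Q (f i)) → (∀ x, ‖g x‖ ≤ 1) →
    δ ≤ ‖form S c 1 f0 (Fin.snoc (α := fun _ => ZMod N → ℂ) f g)‖ →
    ∃ e : ℕ, e < S.Q ∧ ∃ f0' : ZMod N → ℂ, Adm (δ⁻¹ ^ 3) S.Q f0' ∧
      δ ^ C ≤ ‖form S c 1 f0' (Fin.snoc (α := fun _ => ZMod N → ℂ) f
        (fun x => g ((S.Q * (x.val / S.Q) + e : ℕ) : ZMod N)))‖

/-- The conclusion of `al_arith` (module A24). -/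
def AlC (m : ℕ) (c : Fin (m + 1) → ℝ) (s ε : ℝ) : Prop :=
  ∃ x0 : ℝ, 0 < x0 ∧ ∃ C : ℕ, ∃ σ : ℝ, 0 < σ ∧ ∃ D0 : ℝ,
    ∀ (S : Sys (m + 1)) (N : ℕ) [NeZero N] (lam : ℕ), D0 ≤ S.D → IG S c N x0 lam →
    ∀ δ : ℝ, S.D ^ (-σ) ≤ δ → δ ≤ 1 / 2 → (lam : ℝ) ≤ δ⁻¹ →
    ∀ (p : ℕ) [NeZero p], p.Prime → N = S.Q * p → ∀ q : ℕ, 1 ≤ q → (q : ℝ) ≤ δ⁻¹ →
    ∀ X : ℕ, 1 ≤ X → S.D ^ (s - σ) ≤ (X : ℝ) →
    ∀ q0 : ℕ, 1 ≤ q0 → (X : ℝ) * q0 * (S.Q * q) ≤ S.P (Fin.last m) * S.D ^ (-ε) →
    ∀ (f0 : ZMod N → ℂ) (f : Fin m → ZMod N → ℂ), Adm δ⁻¹ S.Q f0 → (∀ i, Adm δ⁻¹ S.Q (f i)) →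
    ∀ (r : ZMod p) (cc : ℕ → ℂ) (φ : ℕ → ℝ), (∀ j, ‖cc j‖ ≤ 1) →
    δ ≤ ‖form S c 1 f0 (Fin.snoc (α := fun _ => ZMod N → ℂ) f
      (blk S.Q fun y : ZMod p => bphase X r cc φ (y * (q : ZMod p)⁻¹)))‖ →
    ∃ (cc' : ℕ → ℂ) (θ : ℕ → ℝ), (∀ j, cc' j = cc j ∨ cc' j = 0) ∧
      (∀ j, cc' j ≠ 0 → dint (φ j - θ (j / q0)) ≤ δ⁻¹ ^ C / X) ∧
      δ ^ C ≤ ‖form S c 1 f0 (Fin.snoc (α := fun _ => ZMod N → ℂ) f
        (blk S.Q fun y : ZMod p => bphase X r cc' φ (y * (q : ZMod p)⁻¹)))‖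

/-- The conclusion of `loc_arith` (module A25), with the `X`-range in monotone form. -/
def LocC (m : ℕ) (c : Fin (m + 1) → ℝ) (s : ℝ) : Prop :=
  ∃ ε0 : ℝ, 0 < ε0 ∧ ∀ ε : ℝ, 0 < ε → ε ≤ ε0 → ∀ n : ℕ,
    ∃ x0 : ℝ, 0 < x0 ∧ ∃ C : ℕ, ∃ σ : ℝ, 0 < σ ∧ ∃ D0 : ℝ,
    ∀ (S : Sys (m + 1)) (N : ℕ) [NeZero N] (lam : ℕ), D0 ≤ S.D → IG S c N x0 lam →
    ∀ δ : ℝ, S.D ^ (-σ) ≤ δ → δ ≤ 1 / 2 → (lam : ℝ) ≤ δ⁻¹ →
    ∀ (p : ℕ) [NeZero p], p.Prime → N = S.Q * p → ∀ q : ℕ, 1 ≤ q → (q : ℝ) ≤ δ⁻¹ →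
    ∀ X : ℕ, 1 ≤ X → S.D ^ (s - σ) ≤ (X : ℝ) → (X : ℝ) * δ⁻¹ ^ 4 ≤ S.D ^ s →
    ∀ q0 : ℕ, 1 ≤ q0 → S.P (Fin.last m) * S.D ^ (-ε) / 2 ≤ (X : ℝ) * q0 * (S.Q * q) →
      (X : ℝ) * q0 * (S.Q * q) ≤ S.P (Fin.last m) * S.D ^ (-ε) →
    ∀ (f0 : ZMod N → ℂ) (f : Fin m → ZMod N → ℂ), Adm δ⁻¹ S.Q f0 → (∀ i, Adm δ⁻¹ S.Q (f i)) →
    ∀ (r : ZMod p) (cc : ℕ → ℂ) (φ θ : ℕ → ℝ), (∀ j, ‖cc j‖ ≤ 1) →
    (∀ j, cc j ≠ 0 → dint (φ j - θ (j / q0)) ≤ δ⁻¹ ^ n / X) →
    δ ^ n ≤ ‖form S c 1 f0 (Fin.snoc (α := fun _ => ZMod N → ℂ) f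
      (blk S.Q fun y : ZMod p => bphase X r cc φ (y * (q : ZMod p)⁻¹)))‖ →
    ∃ j q' : ℕ, cc j ≠ 0 ∧ 1 ≤ q' ∧ (q' : ℝ) ≤ δ⁻¹ ^ C ∧ dint (q' * φ j) ≤ δ⁻¹ ^ C / X

theorem goodMonoLp {m : ℕ} {S : Sys m} {c : Fin m → ℝ} {N : ℕ} {x y : ℝ} (hxy : x ≤ y)
    (hD : 1 ≤ S.D) (h : Good S c N x) : Good S c N y where
  ρ0 := h.ρ0
  ρ1 := h.ρ1
  Q1 := h.Q1
  Q2 := h.Q2
  P1 i := le_trans (mul_le_mul_of_nonneg_left
    (Real.rpow_le_rpow_of_exponent_le hD (by (clear * - hxy; linarith))) (Nat.cast_nonneg _)) (h.P1 i)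
  P2 i := le_trans (h.P2 i) (mul_le_mul_of_nonneg_left
    (Real.rpow_le_rpow_of_exponent_le hD (by (clear * - hxy; linarith))) (Nat.cast_nonneg _))
  N1 i := le_trans (h.N1 i) (mul_le_mul_of_nonneg_left
    (Real.rpow_le_rpow_of_exponent_le hD hxy) (Nat.cast_nonneg _))
  N2 := h.N2
  u1 := h.u1
  u2 := h.u2
  T1 := le_trans (Real.rpow_le_rpow_of_exponent_le hD (by linarith)) h.T1

theorem igMonoLp {m : ℕ} {S : Sys m} {c : Fin m → ℝ} {N : ℕ} {x y : ℝ} {lam : ℕ}
    (hxy : x ≤ y) (hD : 1 ≤ S.D) (h : IG S c N x lam) : IG S c N y lam where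
  good := goodMonoLp hxy hD h.good
  Q3 := le_trans h.Q3 (Real.rpow_le_rpow_of_exponent_le hD (by linarith))
  lam1 := h.lam1
  rho := h.rho
  Pint := h.Pint
  prime := h.prime

theorem admMonoLp {N : ℕ} {B B' X : ℝ} (hX : 0 < X) (hB : B ≤ B') {f : ZMod N → ℂ}
    (h : Adm B X f) : Adm B' X f where
  bdd := h.bdd
  tv x l := le_trans (h.tv x l) (mul_le_mul_of_nonneg_right hB (by (clear * - hX; positivity)))

theorem apb_blk {N p : ℕ} [NeZero N] [NeZero p] {Q : ℕ} (hN : N = Q * p) (q X : ℕ)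
    (r : ZMod p) (cc : ℕ → ℕ → ℂ) (φ : ℕ → ℕ → ℝ) (e : ℕ) (he : e < Q) :
    (fun x : ZMod N => apb Q q X r cc φ ((Q * (x.val / Q) + e : ℕ) : ZMod N)) =
      blk Q fun y : ZMod p => bphase X r (cc e) (φ e) (y * (q : ZMod p)⁻¹) := by
  funext x
  have hQ : 0 < Q := by omega
  have h1 : x.val < Q * p := by
    have := ZMod.val_lt x
    omega
  have h2 : x.val / Q < p := Nat.div_lt_of_lt_mul h1
  have h3 : Q * (x.val / Q) + e < N := by
    calc Q * (x.val / Q) + e < Q * (x.val / Q) + Q := by omega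
      _ = Q * (x.val / Q + 1) := by ring
      _ ≤ Q * p := Nat.mul_le_mul_left _ h2
      _ = N := hN.symm
  have h4 : ((Q * (x.val / Q) + e : ℕ) : ZMod N).val = Q * (x.val / Q) + e :=
    ZMod.val_cast_of_lt h3
  have h5 : (Q * (x.val / Q) + e) % Q = e := by
    rw [Nat.mul_add_mod, Nat.mod_eq_of_lt he]
  have h6 : (Q * (x.val / Q) + e) / Q = x.val / Q := by
    rw [Nat.mul_add_div hQ, Nat.div_eq_of_lt he, add_zero]
  unfold apb blk
  rw [h4, h5, h6]

theorem bphase_normLp {N : ℕ} (X : ℕ) (r : ZMod N) (cc : ℕ → ℂ) (φ : ℕ → ℝ)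
    (hcc : ∀ j, ‖cc j‖ ≤ 1) (x : ZMod N) : ‖bphase X r cc φ x‖ ≤ 1 := by
  unfold bphase e
  rw [norm_mul]
  have : ‖Complex.exp (2 * Real.pi * ((φ ((x - r).val / X) * ((x - r).val : ℝ) : ℝ) : ℂ) *
      Complex.I)‖ = 1 := by
    rw [show (2 : ℂ) * Real.pi * ((φ ((x - r).val / X) * ((x - r).val : ℝ) : ℝ) : ℂ) * Complex.I =
      ((2 * Real.pi * (φ ((x - r).val / X) * ((x - r).val : ℝ)) : ℝ) : ℂ) * Complex.I by
        push_cast; ring]
    exact Complex.norm_exp_ofReal_mul_I _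
  rw [this, mul_one]
  exact hcc _

/-- Module A26 from the conclusions of A22, A24 and A25. -/
theorem lp_arith_core (m : ℕ) (c : Fin (m + 1) → ℝ) (hc : Ex c) (d : ℕ)
    (hd : c (Fin.last m) = d) (s : ℝ) (hs : s ≤ 1) (hB : BcC m)
    (hA : ∀ ε : ℝ, 0 < ε → AlC m c s ε) (hL : LocC m c s) :
    ∃ x0 : ℝ, 0 < x0 ∧ ∃ C : ℕ, ∃ σ : ℝ, 0 < σ ∧ ∃ D0 : ℝ,
    ∀ (S : Sys (m + 1)) (N : ℕ) [NeZero N] (lam : ℕ), D0 ≤ S.D → IG S c N x0 lam →
    ∀ δ : ℝ, S.D ^ (-σ) ≤ δ → δ ≤ 1 / 2 → (lam : ℝ) ≤ δ⁻¹ →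
    ∀ (p : ℕ) [NeZero p], p.Prime → N = S.Q * p → ∀ q : ℕ, 1 ≤ q → (q : ℝ) ≤ δ⁻¹ →
    ∀ X : ℕ, 1 ≤ X → S.D ^ (s - σ) ≤ (X : ℝ) → (X : ℝ) * δ⁻¹ ^ C ≤ S.D ^ s →
    ∀ (f0 : ZMod N → ℂ) (f : Fin m → ZMod N → ℂ), Adm δ⁻¹ S.Q f0 → (∀ i, Adm δ⁻¹ S.Q (f i)) →
    ∀ (r : ZMod p) (cc : ℕ → ℕ → ℂ) (φ : ℕ → ℕ → ℝ), (∀ e j, ‖cc e j‖ ≤ 1) →
    (∀ e j, cc e j ≠ 0 → ∀ q' : ℕ, 1 ≤ q' → (q' : ℝ) ≤ δ⁻¹ ^ C →
      δ⁻¹ ^ C / X < dint (q' * φ e j)) →
    ‖form S c 1 f0 (Fin.snoc (α := fun _ => ZMod N → ℂ) f (apb S.Q q X r cc φ))‖ < δ := by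
  obtain ⟨ε0, hε0, hL⟩ := hL
  set ε : ℝ := min ε0 (1 / 4) with hεdef
  have hε : 0 < ε := lt_min hε0 (by norm_num)
  have hε1 : ε ≤ ε0 := min_le_left _ _
  have hε2 : ε ≤ 1 / 4 := min_le_right _ _
  obtain ⟨CB, hB⟩ := hB
  obtain ⟨xA, hxA, CA, σA, hσA, DA, hA⟩ := hA ε hε
  obtain ⟨xL, hxL, CL, σL, hσL, DL, hL⟩ := hL ε hε hε1 CA
  set k1 : ℕ := CB + 3 with hk1
  have hk1pos : (0 : ℝ) < k1 := by rw [hk1]; (clear * -; positivity)
  exact by
    have hk1one : (1 : ℝ) ≤ k1 := by rw [hk1]; push_cast; linarith [Nat.cast_nonneg (α := ℝ) CB]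
    set σ : ℝ := min (min σA σL) 1 / k1 with hσdef
    have hmpos : 0 < min (min σA σL) 1 := lt_min (lt_min hσA hσL) one_pos
    have hσ : 0 < σ := div_pos hmpos hk1pos
    have hσk : σ * k1 = min (min σA σL) 1 := div_mul_cancel₀ _ hk1pos.ne'
    have hσkA : σ * k1 ≤ σA := by rw [hσk]; exact le_trans (min_le_left _ _) (min_le_left _ _)
    exact by
      have hσkL : σ * k1 ≤ σL := by rw [hσk]; exact le_trans (min_le_left _ _) (min_le_right _ _)
      have hσk1 : σ * k1 ≤ 1 := by rw [hσk]; exact min_le_right _ _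
      have hσle : σ ≤ σ * k1 := le_mul_of_one_le_right hσ.le hk1one
      set C : ℕ := k1 * (CL + 4) with hCdef
      refine ⟨min (min xA xL) (1 / 4), lt_min (lt_min hxA hxL) (by norm_num), C, σ, hσ,
        max (max DA DL) 1, ?_⟩
      intro S N _ lam hD hG δ hδ hδ2 hlam p _ hp hN q hq hqδ X hX hX1 hX2 f0 f hf0 hf r cc φ hcc hφ
      have hD1 : 1 ≤ S.D := le_trans (le_max_right _ _) hD
      have hDA : DA ≤ S.D := le_trans (le_trans (le_max_left _ _) (le_max_left _ _)) hD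
      exact by
        have hDL : DL ≤ S.D := le_trans (le_trans (le_max_right _ _) (le_max_left _ _)) hD
        have hDpos : 0 < S.D := lt_of_lt_of_le one_pos hD1
        have hGA : IG S c N xA lam := igMonoLp (le_trans (min_le_left _ _) (min_le_left _ _)) hD1 hG
        have hGL : IG S c N xL lam := igMonoLp (le_trans (min_le_left _ _) (min_le_right _ _)) hD1 hG
        have hGs : IG S c N (1 / 4) lam := igMonoLp (min_le_right _ _) hD1 hG
        have hδpos : 0 < δ := lt_of_lt_of_le (Real.rpow_pos_of_pos hDpos _) hδ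
        exact by
          have hδ1 : δ ≤ 1 := by (clear * - hε hε2 hδ2; linarith)
          have hi1 : 1 ≤ δ⁻¹ := (one_le_inv₀ hδpos).2 hδ1
          have hi0 : 0 < δ⁻¹ := inv_pos.2 hδpos
          have hQ1 : (1 : ℝ) ≤ S.Q := le_trans (Real.one_le_rpow hD1 (by norm_num)) hG.good.Q1
          have hQpos : (0 : ℝ) < S.Q := by (clear * - hε hε2 hQ1; linarith)
          have hXpos : (0 : ℝ) < X := by exact_mod_cast hX
          -- the smaller `δ1 = δ ^ k1`
          exact by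
            have hi2 : (δ ^ k1)⁻¹ = δ⁻¹ ^ k1 := (inv_pow δ k1).symm
            have hδk : S.D ^ (-(σ * k1)) ≤ δ ^ k1 := by
              have h1 : S.D ^ (-(σ * k1)) = (S.D ^ (-σ)) ^ k1 := by
                rw [← Real.rpow_natCast, ← Real.rpow_mul hDpos.le]
                congr 1
                ring
              rw [h1]
              exact pow_le_pow_left₀ (Real.rpow_nonneg hDpos.le _) hδ _
            have hδA : S.D ^ (-σA) ≤ δ ^ k1 := le_trans (Real.rpow_le_rpow_of_exponent_le hD1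
              (neg_le_neg hσkA)) hδk
            have hδL : S.D ^ (-σL) ≤ δ ^ k1 := le_trans (Real.rpow_le_rpow_of_exponent_le hD1
              (neg_le_neg hσkL)) hδk
            have hδk2 : δ ^ k1 ≤ 1 / 2 := le_trans (pow_le_of_le_one hδpos.le hδ1 (by omega)) hδ2
            have hik : δ⁻¹ ≤ (δ ^ k1)⁻¹ := by
              rw [hi2]
              exact le_self_pow₀ hi1 (by omega)
            exact by
              have hik3 : δ⁻¹ ^ 3 ≤ (δ ^ k1)⁻¹ := by
                rw [hi2]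
                exact pow_le_pow_right₀ hi1 (by omega)
              -- the choice of `q0`
              have hX3 : (X : ℝ) * q ≤ S.D := by
                have h1 : (X : ℝ) * q ≤ X * δ⁻¹ := mul_le_mul_of_nonneg_left hqδ hXpos.le
                have h2 : (X : ℝ) * δ⁻¹ ≤ X * δ⁻¹ ^ C :=
                  mul_le_mul_of_nonneg_left (le_self_pow₀ hi1 (by rw [hCdef]; (clear * -; positivity))) hXpos.le
                have h3 : S.D ^ s ≤ S.D ^ (1 : ℝ) := Real.rpow_le_rpow_of_exponent_le hD1 hs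
                rw [Real.rpow_one] at h3
                (clear * - hX2 h1 h2 h3; linarith)
              have hqpos : (0 : ℝ) < q := by exact_mod_cast hq
              have hP : (X : ℝ) * (S.Q * q) ≤ S.P (Fin.last m) * S.D ^ (-ε) := by
                have h1 := hGs.good.P1 (Fin.last m)
                have h2 : (2 : ℝ) ≤ c (Fin.last m) := hc.two _
                have h3 : (S.Q : ℝ) * S.D
                    ≤ (S.Q * S.D ^ (c (Fin.last m) - 1 / 4)) * S.D ^ (-ε) := by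
                  rw [mul_assoc, ← Real.rpow_add hDpos]
                  refine mul_le_mul_of_nonneg_left ?_ (Nat.cast_nonneg _)
                  calc S.D = S.D ^ (1 : ℝ) := (Real.rpow_one _).symm
                    _ ≤ _ := Real.rpow_le_rpow_of_exponent_le hD1 (by (clear * - hε hε2 h2; linarith))
                calc (X : ℝ) * (S.Q * q) = S.Q * (X * q) := by ring
                  _ ≤ S.Q * S.D := mul_le_mul_of_nonneg_left hX3 hQpos.le
                  _ ≤ _ := h3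
                  _ ≤ _ := mul_le_mul_of_nonneg_right h1 (Real.rpow_nonneg hDpos.le _)
              have hZpos : (0 : ℝ) < X * (S.Q * q) := by (clear * - hX hQ1 hq; positivity)
              set y : ℝ := S.P (Fin.last m) * S.D ^ (-ε) / (X * (S.Q * q)) with hy
              exact by
                have hy1 : 1 ≤ y := (one_le_div hZpos).2 hP
                have hyX : y * (X * (S.Q * q)) = S.P (Fin.last m) * S.D ^ (-ε) := div_mul_cancel₀ _ hZpos.ne'
                have hq1 : 1 ≤ ⌊y⌋₊ := Nat.le_floor (by exact_mod_cast hy1)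
                have hq2 : (⌊y⌋₊ : ℝ) ≤ y := Nat.floor_le (by (clear * - hε hε2 hy1; linarith))
                have hq3 : y / 2 ≤ ⌊y⌋₊ := by
                  have h1 : y < ⌊y⌋₊ + 1 := Nat.lt_floor_add_one y
                  have h2 : (1 : ℝ) ≤ ⌊y⌋₊ := by exact_mod_cast hq1
                  (clear * - h1 h2; linarith)
                have hXq1 : (X : ℝ) * ⌊y⌋₊ * (S.Q * q) ≤ S.P (Fin.last m) * S.D ^ (-ε) := by
                  rw [← hyX]
                  calc (X : ℝ) * ⌊y⌋₊ * (S.Q * q) = ⌊y⌋₊ * (X * (S.Q * q)) := by ring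
                    _ ≤ _ := mul_le_mul_of_nonneg_right hq2 hZpos.le
                exact by
                  have hXq2 : S.P (Fin.last m) * S.D ^ (-ε) / 2 ≤ (X : ℝ) * ⌊y⌋₊ * (S.Q * q) := by
                    rw [← hyX]
                    calc y * (X * (S.Q * q)) / 2 = y / 2 * (X * (S.Q * q)) := by ring
                      _ ≤ ⌊y⌋₊ * (X * (S.Q * q)) := mul_le_mul_of_nonneg_right hq3 hZpos.le
                      _ = _ := by ring
                  by_contra hcon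
                  -- reduction to block-constant functions
                  have hCB : δ⁻¹ ^ CB ≤ (S.Q : ℝ) := by
                    have h1 : δ⁻¹ ^ CB ≤ δ⁻¹ ^ k1 := pow_le_pow_right₀ hi1 (by omega)
                    have h2 : δ⁻¹ ^ k1 ≤ S.D ^ (σ * k1) := by
                      rw [← hi2]
                      rw [Real.rpow_neg hDpos.le] at hδk
                      exact (inv_le_comm₀ (Real.rpow_pos_of_pos hDpos _) (pow_pos hδpos _)).1 hδk
                    have h3 : S.D ^ (σ * k1) ≤ S.D ^ (2 : ℝ) :=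
                      Real.rpow_le_rpow_of_exponent_le hD1 (by (clear * - hε hε2 hσk1; linarith))
                    exact h1.trans (h2.trans (h3.trans hG.good.Q1))
                  obtain ⟨e0, he0, f0', hf0', hf0''⟩ := hB c d hd S N lam _ hD1 hG δ hδpos hδ2 hCB f0 f
                    (apb S.Q q X r cc φ) hf0 hf (fun x => by
                      unfold apb
                      exact bphase_normLp X r _ _ (fun j => hcc _ j) _) (not_lt.1 hcon)
                  rw [apb_blk hN q X r cc φ e0 he0] at hf0''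
                  have hlow : δ ^ k1 ≤ δ ^ CB := pow_le_pow_of_le_one hδpos.le hδ1 (by omega)
                  obtain ⟨cc', θ, h1, h2, h3⟩ := hA S N lam hDA hGA (δ ^ k1) hδA hδk2 (hlam.trans hik) p hp hN q
                    hq (hqδ.trans hik) X hX (le_trans (Real.rpow_le_rpow_of_exponent_le hD1 (by (clear * - hσkA hσle; linarith))) hX1)
                    ⌊y⌋₊ hq1 hXq1 f0' f (admMonoLp hQpos hik3 hf0') (fun i => admMonoLp hQpos hik (hf i))
                    r (cc e0) (φ e0) (hcc e0) (hlow.trans hf0'')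
                  have hcc' : ∀ j, ‖cc' j‖ ≤ 1 := by
                    intro j
                    rcases h1 j with h | h
                    · rw [h]; exact hcc _ j
                    · rw [h, norm_zero]; exact zero_le_one
                  have hC1 : (δ ^ k1)⁻¹ ^ CL ≤ δ⁻¹ ^ C := by
                    rw [hi2, ← pow_mul]
                    exact pow_le_pow_right₀ hi1 (Nat.mul_le_mul_left _ (by omega))
                  have hC2 : (X : ℝ) * (δ ^ k1)⁻¹ ^ 4 ≤ S.D ^ s := by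
                    refine le_trans (mul_le_mul_of_nonneg_left ?_ hXpos.le) hX2
                    rw [hi2, ← pow_mul]
                    exact pow_le_pow_right₀ hi1 (Nat.mul_le_mul_left _ (by omega))
                  obtain ⟨j, q', hj1, hj2, hj3, hj4⟩ := hL S N lam hDL hGL (δ ^ k1) hδL hδk2 (hlam.trans hik) p hp
                    hN q hq (hqδ.trans hik) X hX
                    (le_trans (Real.rpow_le_rpow_of_exponent_le hD1 (by (clear * - hσkL hσle; linarith))) hX1) hC2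
                    ⌊y⌋₊ hq1 hXq2 hXq1 f0' f (admMonoLp hQpos hik3 hf0') (fun i => admMonoLp hQpos hik (hf i))
                    r cc' (φ e0) θ hcc' h2 h3
                  have hj5 : cc e0 j ≠ 0 := by
                    rcases h1 j with h | h
                    · rwa [h] at hj1
                    · exact absurd h hj1
                  have h4 := hφ e0 j hj5 q' hj2 (hj3.trans hC1)
                  have h5 : (δ ^ k1)⁻¹ ^ CL / X ≤ δ⁻¹ ^ C / (X : ℝ) := div_le_div_of_nonneg_right hC1 hXpos.le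
                  exact absurd (hj4.trans h5) (not_le.2 h4)

end

end Pool.Agent.Helper67.NX2

end

section

set_option autoImplicit false

set_option linter.unusedVariables false

open Finset

open scoped BigOperators ComplexConjugate

namespace Pool.Agent.Helper67.NX2

open Pool.Agent.Helper57.NX

noncomputable section

section AqBasic

variable {N : ℕ} [NeZero N]

omit [NeZero N] in
theorem apb_fib {p : ℕ} [NeZero p] (hp : p.Prime) {Q q X : ℕ} (hN : N = Q * p) (hq : 1 ≤ q)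
    (hqp : q < p) (r : ZMod p) (cc : ℕ → ℕ → ℂ) (φ : ℕ → ℕ → ℝ) (e : ℕ) (he : e < Q) (z : ZMod p) :
    apb (N := N) Q q X r cc φ ((Q * (q * z.val) + e : ℕ) : ZMod N) =
      bphase X r (cc e) (φ e) z := by
  have : Fact p.Prime := ⟨hp⟩
  have hQ : 0 < Q := by omega
  have h1 : ((Q * (q * z.val) + e : ℕ) : ZMod N).val = (Q * (q * z.val) + e) % (Q * p) := by
    rw [ZMod.val_natCast, hN]
  have h2 : (Q * (q * z.val) + e) % (Q * p) % Q = e := by
    rw [Nat.mod_mul_right_mod, Nat.mul_add_mod, Nat.mod_eq_of_lt he]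
  have h3 : (Q * (q * z.val) + e) % (Q * p) / Q = (q * z.val) % p := by
    rw [Nat.mod_mul_right_div_self, Nat.mul_add_div hQ, Nat.div_eq_of_lt he, add_zero]
  have h4 : (((q * z.val) % p : ℕ) : ZMod p) * (q : ZMod p)⁻¹ = z := by
    rw [ZMod.natCast_mod, Nat.cast_mul, ZMod.natCast_zmod_val]
    have h5 : (q : ZMod p) ≠ 0 := by
      intro h
      rw [ZMod.natCast_eq_zero_iff] at h
      exact absurd (Nat.le_of_dvd (by omega) h) (by omega)
    field_simp
  unfold apb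
  rw [h1, h2, h3, h4]

end AqBasic

end

end Pool.Agent.Helper67.NX2

end

section

set_option autoImplicit false

open Finset

open scoped BigOperators ComplexConjugate

namespace Pool.Agent.Helper67.NX2

open Pool.Agent.Helper57.NX

noncomputable section

/-- the statement of the degree lowering -/
def DlTot15 : Prop :=
  ∀ (r : ℕ) (Γ : ℕ → ℕ → ℕ) (n : ℕ), ∃ n4 : ℕ,
    ∀ (p : ℕ) [NeZero p] (κ ι : Type) [Fintype κ] [Nonempty κ] (Ω : Finset ι)
      (F : ι → κ → ZMod p → ℂ) (u : κ → ZMod p → ℂ) (δ : ℝ) (X : ℕ), p.Prime → Ω.Nonempty →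
      (∀ n i x, ‖F n i x‖ ≤ 1) → (∀ i x, u i x = conj (𝔼 n ∈ Ω, F n i x)) →
      0 < δ → δ ≤ 1 / 2 → δ⁻¹ ^ n4 ≤ (X : ℝ) → (X : ℝ) ≤ δ ^ n4 * p →
      δ ^ n ≤ 𝔼 i, Box r X (u i) →
      (∀ nq ≤ n4, ∀ q : ℕ, 1 ≤ q → (q : ℝ) ≤ δ⁻¹ ^ nq → ∀ k ≤ r, ∀ n2 ≤ n4, ∀ X2 X' : ℕ,
        δ ^ n4 * X ≤ X2 → X2 ≤ X → 1 ≤ X' → X' ≤ X2 →
        LPhM Ω (fun n i z => F n i ((q : ZMod p) * z)) k X' X2 (δ⁻¹ ^ (Γ nq n2))
          (δ⁻¹ ^ (Γ nq n2) / X2) (δ ^ n2)) →
      ∃ q : ℕ, 1 ≤ q ∧ (q : ℝ) ≤ δ⁻¹ ^ n4 ∧ ∀ L : ℕ, 1 ≤ L → (L : ℝ) ≤ δ ^ n4 * X →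
        δ ^ n4 ≤ 𝔼 i, nrm (A L (fun z => u i ((q : ZMod p) * z)))

/-- block phases along progressions without major frequencies have a small form -/
def LpSt15 (m : ℕ) (c : Fin (m + 1) → ℝ) (s : ℝ) : Prop :=
    ∃ x0 : ℝ, 0 < x0 ∧ ∃ C : ℕ, ∃ σ : ℝ, 0 < σ ∧ ∃ D0 : ℝ,
    ∀ (S : Sys (m + 1)) (N : ℕ) [NeZero N] (lam : ℕ), D0 ≤ S.D → IG S c N x0 lam →
    ∀ δ : ℝ, S.D ^ (-σ) ≤ δ → δ ≤ 1 / 2 → (lam : ℝ) ≤ δ⁻¹ →
    ∀ (p : ℕ) [NeZero p], p.Prime → N = S.Q * p → ∀ q : ℕ, 1 ≤ q → (q : ℝ) ≤ δ⁻¹ →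
    ∀ X : ℕ, 1 ≤ X → S.D ^ (s - σ) ≤ (X : ℝ) → (X : ℝ) * δ⁻¹ ^ C ≤ S.D ^ s →
    ∀ (f0 : ZMod N → ℂ) (f : Fin m → ZMod N → ℂ), Adm δ⁻¹ S.Q f0 → (∀ i, Adm δ⁻¹ S.Q (f i)) →
    ∀ (r : ZMod p) (cc : ℕ → ℕ → ℂ) (φ : ℕ → ℕ → ℝ), (∀ e j, ‖cc e j‖ ≤ 1) →
    (∀ e j, cc e j ≠ 0 → ∀ q' : ℕ, 1 ≤ q' → (q' : ℝ) ≤ δ⁻¹ ^ C →
      δ⁻¹ ^ C / X < dint (q' * φ e j)) →
    ‖form S c 1 f0 (Fin.snoc (α := fun _ => ZMod N → ℂ) f (apb S.Q q X r cc φ))‖ < δ

section Str

variable {m N : ℕ} [NeZero N]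

theorem cubeq_Fk15 (S : Sys (m + 1)) (c : Fin (m + 1) → ℝ) (f0 : ZMod N → ℂ)
    (f : Fin m → ZMod N → ℂ) (k st : ℕ) {l : ℕ} (a b : Fin l → ℕ) (x : ZMod N) :
    cubeq st (Fk67 S c f0 f k) a b x =
      Fk67 S c (cubeq st f0 a b) (fun i => cubeq st (f i) a b) k x := by
  unfold cubeq Fk67
  rw [prod_comm, ← prod_mul_distrib]
  refine prod_congr rfl fun ω _ => ?_
  rw [cjj_mul67, cjj_prod67]
  congr 1
  · congr 2
    ring
  · refine prod_congr rfl fun i _ => ?_
    congr 2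
    ring

theorem cube_fib15 {p : ℕ} [NeZero p] {Q q : ℕ} (hN : N = Q * p) (f : ZMod N → ℂ) (e : ℕ)
    {l : ℕ} (a b : Fin l → ℕ) (z : ZMod p) :
    cube (fib Q q f e) a b z = cubeq (Q * q) f a b ((Q * (q * z.val) + e : ℕ) : ZMod N) := by
  unfold cube cubeq
  refine prod_congr rfl fun ω _ => ?_
  rw [fib_add hN]

theorem expect_fib15 {p : ℕ} [NeZero p] (hp : p.Prime) {Q q X : ℕ} (hN : N = Q * p)
    (hq : 1 ≤ q) (hqp : q < p) (f : ZMod N → ℂ) {l : ℕ} (a b : Fin l → ℕ) (r : ZMod p)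
    (cc : Fin Q → ℕ → ℂ) (φ : Fin Q → ℕ → ℝ) :
    𝔼 e : Fin Q, 𝔼 z : ZMod p, cube (fib Q q f e) a b z * bphase X r (cc e) (φ e) z =
      𝔼 x : ZMod N, cubeq (Q * q) f a b x * apb Q q X r (ext15 cc) (ext15 φ) x := by
  rw [← expect_fib hp hN hq hqp
    (fun x => cubeq (Q * q) f a b x * apb Q q X r (ext15 cc) (ext15 φ) x)]
  refine expect_congr rfl fun e _ => expect_congr rfl fun z _ => ?_
  rw [cube_fib15 hN, apb_fib hp hN hq hqp r (ext15 cc) (ext15 φ) e e.2 z, ext15_of_lt, ext15_of_lt]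

/-- correlations of cubes of fibres with block phases are forms -/
theorem form_fib15 (S : Sys (m + 1)) (c : Fin (m + 1) → ℝ) (f0 : ZMod N → ℂ)
    (f : Fin m → ZMod N → ℂ) {p : ℕ} [NeZero p] (hp : p.Prime) {Q q X : ℕ} (hN : N = Q * p)
    (hq : 1 ≤ q) (hqp : q < p) {l : ℕ} (a b : Fin l → ℕ) (r : ZMod p)
    (cc : Fin Q → ℕ → ℂ) (φ : Fin Q → ℕ → ℝ) :
    𝔼 k ∈ S.I, 𝔼 e : Fin Q, 𝔼 z : ZMod p, cube (fib Q q (Fk67 S c f0 f k) e) a b z *
        bphase X r (cc e) (φ e) z =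
      form S c 1 (cubeq (Q * q) f0 a b) (Fin.snoc (α := fun _ => ZMod N → ℂ)
        (fun i => cubeq (Q * q) (f i) a b) (apb Q q X r (ext15 cc) (ext15 φ))) := by
  rw [form_snoc67]
  refine expect_congr rfl fun k _ => ?_
  rw [expect_fib15 hp hN hq hqp]
  refine expect_congr rfl fun x _ => ?_
  rw [cubeq_Fk15]

end Str

end

end Pool.Agent.Helper67.NX2

end

section

set_option autoImplicit false

open Finset

open scoped BigOperators ComplexConjugate

namespace Pool.Agent.Helper67.NX2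

open Pool.Agent.Helper57.NX

noncomputable section

theorem h9_norm_u {p : ℕ} {κ ι : Type} {Ω : Finset ι}
    {F : ι → κ → ZMod p → ℂ} {u : κ → ZMod p → ℂ} (hF : ∀ n i x, ‖F n i x‖ ≤ 1)
    (hu : ∀ i x, u i x = conj (𝔼 n ∈ Ω, F n i x)) (i : κ) (x : ZMod p) : ‖u i x‖ ≤ 1 := by
  rw [hu, Complex.norm_conj]
  exact norm_expect_le_of5 _ _ zero_le_one fun n _ => hF n i x

end

end Pool.Agent.Helper67.NX2

end

section

set_option autoImplicit false

open Finset

open scoped BigOperators ComplexConjugate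

namespace Pool.Agent.Helper67.NX2

open Pool.Agent.Helper57.NX

noncomputable section

/-- the statement of `dl_A'` for a fixed `k` -/
def H9A (k : ℕ) : Prop := ∀ n : ℕ, ∃ n2 : ℕ, ∀ n1 : ℕ, ∃ n3 : ℕ,
    ∀ (p : ℕ) [NeZero p] (κ ι : Type) [Fintype κ] [Nonempty κ] (Ω : Finset ι)
      (F : ι → κ → ZMod p → ℂ) (u : κ → ZMod p → ℂ) (δ : ℝ) (X X' : ℕ), Ω.Nonempty →
      (∀ n i x, ‖F n i x‖ ≤ 1) → (∀ i x, u i x = conj (𝔼 n ∈ Ω, F n i x)) →
      0 < δ → δ ≤ 1 / 2 → 1 ≤ X → (X : ℝ) ≤ δ ^ n3 * p →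
      δ ^ n ≤ 𝔼 i, Box (k + 2) X (u i) → 1 ≤ X' → (X' : ℝ) ≤ δ ^ n3 * X →
      LPhM Ω F k X' X (δ⁻¹ ^ n1) (δ⁻¹ ^ n1 / X) (δ ^ n2) →
      ∃ (r : ZMod p) (θ : κ → (Fin k → ℕ) → (Fin k → ℕ) → ℕ → ℝ) (a' : κ → ℕ → Fin k → ℕ),
        (∀ i j, a' i j ∈ boxset k X') ∧
        δ ^ n2 ≤ 𝔼 i, 𝔼 j ∈ range (p / X), 𝔼 a ∈ boxset k X', 𝔼 b ∈ boxset k X',
          (open scoped Classical in
          if (∃ q : ℕ, 1 ≤ q ∧ (q : ℝ) ≤ δ⁻¹ ^ n1 ∧
              dint (q * (θ i a b j - psiSum (θ i) (a' i j) a b j)) ≤ δ⁻¹ ^ n1 / X) then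
            ‖𝔼 t ∈ range X, cube (u i) a b (r + ((j * X + t : ℕ) : ZMod p)) *
              e (-(θ i a b j * t))‖
          else 0)

/-- the statement of `dl_B'` for a fixed `k` -/
def H9B (k : ℕ) : Prop := ∀ n n1 : ℕ, ∃ n3 : ℕ,
    ∀ (p : ℕ) [NeZero p] (κ : Type) [Fintype κ] [Nonempty κ] (u : κ → ZMod p → ℂ) (δ : ℝ)
      (X X' : ℕ), p.Prime → (∀ i x, ‖u i x‖ ≤ 1) → 0 < δ → δ ≤ 1 / 2 → 1 ≤ X →
      (X : ℝ) ≤ δ ^ n3 * p → 1 ≤ X' → (X' : ℝ) ≤ δ ^ n3 * X →
      ∀ (r : ZMod p) (θ : κ → (Fin k → ℕ) → (Fin k → ℕ) → ℕ → ℝ) (a' : κ → ℕ → Fin k → ℕ),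
        (∀ i j, a' i j ∈ boxset k X') →
        δ ^ n ≤ 𝔼 i, 𝔼 j ∈ range (p / X), 𝔼 a ∈ boxset k X', 𝔼 b ∈ boxset k X',
          (open scoped Classical in
          if (∃ q : ℕ, 1 ≤ q ∧ (q : ℝ) ≤ δ⁻¹ ^ n1 ∧
              dint (q * (θ i a b j - psiSum (θ i) (a' i j) a b j)) ≤ δ⁻¹ ^ n1 / X) then
            ‖𝔼 t ∈ range X, cube (u i) a b (r + ((j * X + t : ℕ) : ZMod p)) *
              e (-(θ i a b j * t))‖
          else 0) →
        ∃ q : ℕ, 1 ≤ q ∧ (q : ℝ) ≤ δ⁻¹ ^ n1 ∧ ∀ X'' : ℕ, 1 ≤ X'' → (X'' : ℝ) ≤ δ ^ n3 * X' →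
          δ ^ n3 ≤ 𝔼 i, Box (k + 1) X'' (fun z => u i ((q : ZMod p) * z))

/-- one complete degree lowering step -/
def H9Low (k : ℕ) : Prop := ∀ n : ℕ, ∃ n2 : ℕ, ∀ n1 : ℕ, ∃ n3 : ℕ,
    ∀ (p : ℕ) [NeZero p] (κ ι : Type) [Fintype κ] [Nonempty κ] (Ω : Finset ι)
      (F : ι → κ → ZMod p → ℂ) (u : κ → ZMod p → ℂ) (δ : ℝ) (X X' X'' : ℕ), p.Prime → Ω.Nonempty →
      (∀ n i x, ‖F n i x‖ ≤ 1) → (∀ i x, u i x = conj (𝔼 n ∈ Ω, F n i x)) →
      0 < δ → δ ≤ 1 / 2 → 1 ≤ X → (X : ℝ) ≤ δ ^ n3 * p →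
      δ ^ n ≤ 𝔼 i, Box (k + 2) X (u i) → 1 ≤ X' → (X' : ℝ) ≤ δ ^ n3 * X →
      1 ≤ X'' → (X'' : ℝ) ≤ δ ^ n3 * X' →
      LPhM Ω F k X' X (δ⁻¹ ^ n1) (δ⁻¹ ^ n1 / X) (δ ^ n2) →
      ∃ q : ℕ, 1 ≤ q ∧ (q : ℝ) ≤ δ⁻¹ ^ n1 ∧
        δ ^ n3 ≤ 𝔼 i, Box (k + 1) X'' (fun z => u i ((q : ZMod p) * z))

theorem h9_low_of (k : ℕ) (hA : H9A k) (hB : H9B k) : H9Low k := by
  intro n
  obtain ⟨n2, h2⟩ := hA n
  refine ⟨n2, ?_⟩
  intro n1
  obtain ⟨n3, h3⟩ := h2 n1
  obtain ⟨n5, h5⟩ := hB n2 n1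
  refine ⟨max n3 n5, ?_⟩
  intro p _ κ ι _ _ Ω F u δ X X' X'' hp hΩ hF hu hδ0 hδ1 hX1 hXp hbox hX'1 hX' hX''1 hX'' hLP
  have hX0 : (0 : ℝ) ≤ X := Nat.cast_nonneg X
  have hX'0 : (0 : ℝ) ≤ X' := Nat.cast_nonneg X'
  have hp0 : (0 : ℝ) ≤ p := Nat.cast_nonneg p
  obtain ⟨r, θ, a', ha', hlow⟩ := h3 p κ ι Ω F u δ X X' hΩ hF hu hδ0 hδ1 hX1
    (le_trans hXp (mul_le_mul_of_nonneg_right (h72_pow_anti hδ0 hδ1 (le_max_left _ _)) hp0)) hbox
    hX'1 (le_trans hX' (mul_le_mul_of_nonneg_right (h72_pow_anti hδ0 hδ1 (le_max_left _ _)) hX0))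
    hLP
  obtain ⟨q, hq1, hq2, hq3⟩ := h5 p κ u δ X X' hp (h9_norm_u hF hu) hδ0 hδ1 hX1
    (le_trans hXp (mul_le_mul_of_nonneg_right (h72_pow_anti hδ0 hδ1 (le_max_right _ _)) hp0))
    hX'1 (le_trans hX' (mul_le_mul_of_nonneg_right (h72_pow_anti hδ0 hδ1 (le_max_right _ _)) hX0))
    r θ a' ha' hlow
  refine ⟨q, hq1, hq2, ?_⟩
  exact le_trans (h72_pow_anti hδ0 hδ1 (le_max_right _ _)) (hq3 X'' hX''1
    (le_trans hX'' (mul_le_mul_of_nonneg_right (h72_pow_anti hδ0 hδ1 (le_max_right _ _)) hX'0)))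

end

end Pool.Agent.Helper67.NX2

end

section

set_option autoImplicit false

open Finset

open scoped BigOperators ComplexConjugate

namespace Pool.Agent.Helper57.NX

noncomputable section

theorem frac_e_add (s t : ℝ) : e (s + t) = e s * e t := by
  unfold e
  rw [← Complex.exp_add]
  congr 1
  push_cast
  ring

theorem frac_e_conj (t : ℝ) : conj (e t) = e (-t) := by
  unfold e
  rw [← Complex.exp_conj]
  congr 1
  simp only [map_mul, Complex.conj_ofReal, Complex.conj_I, map_ofNat, Complex.ofReal_neg]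
  ring

theorem frac_norm_e (t : ℝ) : ‖e t‖ = 1 := by
  unfold e
  have h : (2 * Real.pi * t * Complex.I : ℂ) = ((2 * Real.pi * t : ℝ) : ℂ) * Complex.I := by
    push_cast; ring
  rw [h, Complex.norm_exp_ofReal_mul_I]

theorem frac_re_e (t : ℝ) : (e t).re = Real.cos (2 * Real.pi * t) := by
  unfold e
  have h : (2 * Real.pi * t * Complex.I : ℂ) = ((2 * Real.pi * t : ℝ) : ℂ) * Complex.I := by
    push_cast; ring
  rw [h, Complex.exp_ofReal_mul_I_re]

theorem frac_e_int (t : ℝ) (n : ℤ) : e (t + n) = e t := by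
  rw [frac_e_add]
  have : e (n : ℝ) = 1 := by
    unfold e
    have h : (2 * Real.pi * ((n : ℝ) : ℂ) * Complex.I : ℂ) = n * (2 * Real.pi * Complex.I) := by
      push_cast; ring
    rw [h, Complex.exp_int_mul_two_pi_mul_I]
  rw [this, mul_one]

/-- lower bound for the exponential sum near an integer -/
theorem frac_low (H : ℕ) (x η : ℝ) (hH : (H : ℝ) * η ≤ 1 / 8)
    (hx : 1 - η ≤ Int.fract x) :
    (H : ℝ) ^ 2 / 4 ≤ ‖∑ h ∈ range H, e (h * x)‖ ^ 2 := by
  have h1 : (H : ℝ) / 2 ≤ ‖∑ h ∈ range H, e (h * x)‖ := by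
    refine le_trans ?_ (Complex.re_le_norm _)
    rw [Complex.re_sum]
    have h2 : ∀ h ∈ range H, (1 / 2 : ℝ) ≤ (e (h * x)).re := by
      intro h hh
      have hhH : (h : ℝ) ≤ H := by exact_mod_cast (mem_range.mp hh).le
      have hy0 : 0 ≤ 1 - Int.fract x := by (clear * -; linarith [Int.fract_lt_one x])
      have hy1 : 1 - Int.fract x ≤ η := by (clear * - hx; linarith)
      have e1 : e (h * x) = e (-(h * (1 - Int.fract x))) := by
        rw [← frac_e_int (-(h * (1 - Int.fract x))) ((h : ℤ) * (⌊x⌋ + 1))]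
        congr 1
        push_cast
        have := Int.floor_add_fract x
        have h3 : x = ⌊x⌋ + Int.fract x := this.symm
        nth_rewrite 1 [h3]
        ring
      rw [e1, frac_re_e]
      have h4 : 2 * Real.pi * (-(h * (1 - Int.fract x))) =
          -(2 * Real.pi * (h * (1 - Int.fract x))) := by ring
      rw [h4, Real.cos_neg]
      have h5 : (h : ℝ) * (1 - Int.fract x) ≤ 1 / 8 := by
        calc (h : ℝ) * (1 - Int.fract x) ≤ H * η := by
              apply mul_le_mul hhH hy1 hy0 (Nat.cast_nonneg _)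
          _ ≤ 1 / 8 := hH
      have h6 : 0 ≤ (h : ℝ) * (1 - Int.fract x) := mul_nonneg (Nat.cast_nonneg _) hy0
      have hpi := Real.pi_pos
      have h7 : Real.cos (Real.pi / 3) ≤ Real.cos (2 * Real.pi * (h * (1 - Int.fract x))) := by
        apply Real.cos_le_cos_of_nonneg_of_le_pi
        · (clear * - hy0; positivity)
        · (clear * - hpi; linarith)
        · (clear * - hpi h5; nlinarith)
      rw [Real.cos_pi_div_three] at h7
      exact h7
    calc (H : ℝ) / 2 = ∑ _h ∈ range H, (1 / 2 : ℝ) := by simp; ring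
      _ ≤ _ := sum_le_sum h2
  have h0 : 0 ≤ (H : ℝ) / 2 := by positivity
  calc (H : ℝ) ^ 2 / 4 = ((H : ℝ) / 2) ^ 2 := by ring
    _ ≤ _ := pow_le_pow_left₀ h0 h1 2

/-- expansion of the square -/
theorem frac_sq (H : ℕ) (I : Finset ℕ) (x : ℕ → ℝ) (E : ℝ)
    (hE : ∀ j : ℤ, j ≠ 0 → |j| ≤ H → ‖∑ k ∈ I, e (j * x k)‖ ≤ E) (hE0 : 0 ≤ E) :
    ∑ k ∈ I, ‖∑ h ∈ range H, e (h * x k)‖ ^ 2 ≤ H * I.card + H ^ 2 * E := by
  have h1 : ((∑ k ∈ I, ‖∑ h ∈ range H, e (h * x k)‖ ^ 2 : ℝ) : ℂ) =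
      ∑ h ∈ range H, ∑ h' ∈ range H, ∑ k ∈ I, e (((h : ℤ) - (h' : ℤ) : ℤ) * x k) := by
    push_cast
    have h2 : ∀ k ∈ I, ((‖∑ h ∈ range H, e (h * x k)‖ : ℝ) : ℂ) ^ 2 =
        ∑ h ∈ range H, ∑ h' ∈ range H, e (((h : ℤ) - (h' : ℤ) : ℤ) * x k) := by
      intro k _
      rw [← Complex.mul_conj']
      rw [map_sum, sum_mul_sum]
      refine sum_congr rfl fun h _ => sum_congr rfl fun h' _ => ?_
      rw [frac_e_conj, ← frac_e_add]
      congr 1
      push_cast
      ring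
    rw [sum_congr rfl h2, sum_comm]
    refine sum_congr rfl fun h _ => ?_
    rw [sum_comm]
    refine sum_congr rfl fun h' _ => ?_
    refine sum_congr rfl fun k _ => ?_
    push_cast
    rfl
  have h3 : ∑ k ∈ I, ‖∑ h ∈ range H, e (h * x k)‖ ^ 2 =
      ‖((∑ k ∈ I, ‖∑ h ∈ range H, e (h * x k)‖ ^ 2 : ℝ) : ℂ)‖ := by
    rw [Complex.norm_real, Real.norm_of_nonneg]
    exact sum_nonneg fun _ _ => by positivity
  rw [h3, h1]
  refine le_trans (norm_sum_le _ _) ?_
  have h4 : ∀ h ∈ range H, ‖∑ h' ∈ range H, ∑ k ∈ I, e (((h : ℤ) - (h' : ℤ) : ℤ) * x k)‖ ≤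
      I.card + H * E := by
    intro h hh
    refine le_trans (norm_sum_le _ _) ?_
    have h5 : ∀ h' ∈ range H, ‖∑ k ∈ I, e (((h : ℤ) - (h' : ℤ) : ℤ) * x k)‖ ≤
        (if h' = h then (I.card : ℝ) else 0) + E := by
      intro h' hh'
      split_ifs with heq
      · subst heq
        refine le_trans (norm_sum_le _ _) ?_
        simp only [frac_norm_e, sum_const, nsmul_eq_mul, mul_one]
        linarith
      · rw [zero_add]
        apply hE
        · intro h0
          apply heq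
          omega
        · have := mem_range.mp hh
          have := mem_range.mp hh'
          rw [abs_le]
          constructor <;> omega
    refine le_trans (sum_le_sum h5) ?_
    rw [sum_add_distrib]
    simp only [sum_ite_eq', hh, if_true, sum_const, card_range, nsmul_eq_mul]
    exact le_refl _
  refine le_trans (sum_le_sum h4) ?_
  simp only [sum_const, card_range, nsmul_eq_mul]
  apply le_of_eq
  ring

theorem frac_count (hES : ES0) (c : ℝ) (hc : 0 < c) (hcn : ∀ n : ℕ, c ≠ n) :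
    ∃ C : ℝ, 0 < C ∧ ∃ σ : ℝ, 0 < σ ∧ ∃ D0 : ℝ, ∀ D : ℝ, D0 ≤ D → ∀ η : ℝ, 0 < η → η ≤ 1 →
    ∀ u T : ℕ, D ≤ u → (u : ℝ) + T ≤ 2 * D → D / 4 ≤ T →
    (#((Ico u (u + T)).filter fun k : ℕ => 1 - η ≤ Int.fract ((k : ℝ) ^ c)) : ℝ) ≤
      C * (η + D ^ (-σ)) * T := by
  obtain ⟨x0, hx0, σ, hσ, D0, hD0⟩ := hES 1 0 (fun _ => c) (fun _ _ _ => Subsingleton.elim _ _)
    (fun _ n => hcn n) 2 (c + 1) c (by norm_num) hc
  refine ⟨256, by norm_num, min σ 1, lt_min hσ one_pos, max (max D0 1) ((4 : ℝ) ^ (1 / x0)), ?_⟩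
  intro D hD η hη0 hη1 u T hDu huT hT
  have hD1 : 1 ≤ D := le_trans (le_trans (le_max_right _ _) (le_max_left _ _)) hD
  have hDD0 : D0 ≤ D := le_trans (le_trans (le_max_left _ _) (le_max_left _ _)) hD
  have hD4 : (4 : ℝ) ^ (1 / x0) ≤ D := le_trans (le_max_right _ _) hD
  have hDpos : 0 < D := by (clear * - hD1; linarith)
  have hTpos : (0 : ℝ) < T := by (clear * - hT hD1; linarith)
  have hT0 : T ≠ 0 := by
    intro h; rw [h] at hTpos; simp at hTpos
  exact by
    have hDx : 4 ≤ D ^ x0 := by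
      have h := Real.rpow_le_rpow (by positivity) hD4 hx0.le
      rwa [← Real.rpow_mul (by norm_num), one_div, inv_mul_cancel₀ hx0.ne', Real.rpow_one] at h
    have hTx : D ^ (1 - x0) ≤ T := by
      refine le_trans ?_ hT
      rw [Real.rpow_sub hDpos, Real.rpow_one]
      exact div_le_div_of_nonneg_left hDpos.le (by norm_num) hDx
    set σ' := min σ 1 with hσ'
    have hDσ : D ^ (-σ) ≤ D ^ (-σ') :=
      Real.rpow_le_rpow_of_exponent_le hD1 (by simp [hσ'])
    have hD1σ : D⁻¹ ≤ D ^ (-σ') := by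
      rw [← Real.rpow_neg_one]
      exact Real.rpow_le_rpow_of_exponent_le hD1 (by simp [hσ'])
    have hDσpos : 0 < D ^ (-σ') := Real.rpow_pos_of_pos hDpos _
    -- the enlarged `η`
    exact by
      set η' := max η D⁻¹ with hη'
      have hη'0 : 0 < η' := lt_of_lt_of_le hη0 (le_max_left _ _)
      have hη'b : η' ≤ η + D ^ (-σ') := by
        apply max_le
        · (clear * - hDσpos; linarith)
        · (clear * - hη0 hD1σ; linarith)
      have hcard : (#((Ico u (u + T)).filter fun k : ℕ => 1 - η ≤ Int.fract ((k : ℝ) ^ c)) : ℝ) ≤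
          (#((Ico u (u + T)).filter fun k : ℕ => 1 - η' ≤ Int.fract ((k : ℝ) ^ c)) : ℝ) := by
        exact_mod_cast card_le_card (by
          intro k hk
          rw [mem_filter] at hk ⊢
          exact ⟨hk.1, by (clear * - hk; linarith [le_max_left η D⁻¹, hk.2])⟩)
      refine le_trans hcard ?_
      by_cases hbig : 1 / 8 < η'
      · calc (#((Ico u (u + T)).filter fun k : ℕ => 1 - η' ≤ Int.fract ((k : ℝ) ^ c)) : ℝ)
            ≤ ((Ico u (u + T)).card : ℝ) := by exact_mod_cast card_filter_le _ _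
          _ = T := by simp
          _ ≤ 256 * (η + D ^ (-σ')) * T := by
            have : 1 ≤ 256 * (η + D ^ (-σ')) := by (clear * - hη0 hDσpos hη'b hbig; linarith)
            (clear * - hTpos hη'b hbig; nlinarith)
      push Not at hbig
      set H := ⌊1 / (8 * η')⌋₊ with hH
      have h8 : 1 ≤ 1 / (8 * η') := by
        rw [le_div_iff₀ (by positivity)]; (clear * - hbig; linarith)
      exact by
        have hH1 : 1 ≤ H := by
          rw [hH]
          exact Nat.le_floor (by simpa using h8)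
        have hHle : (H : ℝ) ≤ 1 / (8 * η') := Nat.floor_le (by (clear * - hη0; positivity))
        have hHη : (H : ℝ) * η' ≤ 1 / 8 := by
          calc (H : ℝ) * η' ≤ 1 / (8 * η') * η' := by
                apply mul_le_mul_of_nonneg_right hHle hη'0.le
            _ = 1 / 8 := by (clear * - hη'0; field_simp)
        have hHlow : 1 / (16 * η') ≤ H := by
          have h9 : 1 / (8 * η') < H + 1 := Nat.lt_floor_add_one _
          have h10 : (1 : ℝ) ≤ H := by exact_mod_cast hH1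
          have h11 : 1 / (16 * η') = (1 / (8 * η')) / 2 := by field_simp; norm_num
          rw [h11]
          (clear * - h9 h10; linarith)
        have hHD : (H : ℝ) ≤ D := by
          refine le_trans hHle ?_
          rw [div_le_iff₀ (by positivity)]
          have : 1 ≤ D * η' := by
            calc 1 = D * D⁻¹ := by field_simp
              _ ≤ D * η' := mul_le_mul_of_nonneg_left (le_max_right _ _) hDpos.le
          (clear * - hη'0 hbig this; nlinarith)
        -- the exponential sums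
        have hexp : ∀ j : ℤ, j ≠ 0 → |j| ≤ H →
            ‖∑ k ∈ Ico u (u + T), e (j * ((k : ℝ) ^ c))‖ ≤ T * D ^ (-σ) := by
          intro j hj hjH
          have hj1 : (1 : ℝ) ≤ |(j : ℝ)| := by
            have : (1 : ℤ) ≤ |j| := Int.one_le_abs hj
            exact_mod_cast this
          have hj2 : |(j : ℝ)| ≤ D := by
            have : (|(j : ℝ)|) ≤ (H : ℝ) := by exact_mod_cast hjH
            (clear * - hHD this; linarith)
          have hv := hD0 D hDD0 0 le_rfl zero_le_one (fun _ => (j : ℝ) * D ^ c)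
            (fun _ => by
              rw [abs_mul, abs_of_pos (Real.rpow_pos_of_pos hDpos c), Real.rpow_add hDpos,
                Real.rpow_one, mul_comm (D ^ c)]
              exact mul_le_mul_of_nonneg_right hj2 (Real.rpow_nonneg hDpos.le _))
            ⟨0, by
              rw [abs_mul, abs_of_pos (Real.rpow_pos_of_pos hDpos c)]
              have := Real.rpow_pos_of_pos hDpos c
              (clear * - hη'0 hbig hj1 this; nlinarith)⟩
            0 (by simp) u T hDu (by (clear * - huT; linarith)) hTx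
          have hEq : (𝔼 k ∈ Ico u (u + T), e (∑ i : Fin 1, (fun _ => (j : ℝ) * D ^ c) i *
              (((k : ℝ) + 0) / D) ^ ((fun _ => c : Fin 1 → ℝ) i) + (0 : Polynomial ℝ).eval (k : ℝ))) =
              (T : ℂ)⁻¹ * ∑ k ∈ Ico u (u + T), e (j * ((k : ℝ) ^ c)) := by
            rw [Finset.expect_eq_sum_div_card, div_eq_inv_mul]
            congr 1
            · simp
            · refine sum_congr rfl fun k _ => ?_
              congr 1
              simp only [univ_unique, Fin.default_eq_zero, Fin.isValue, add_zero, sum_const,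
                card_singleton, one_smul, Polynomial.eval_zero]
              rw [Real.div_rpow (Nat.cast_nonneg _) hDpos.le]
              have := Real.rpow_pos_of_pos hDpos c
              (clear * - hD1 hj; field_simp)
          rw [hEq, norm_mul, norm_inv, Complex.norm_natCast] at hv
          rw [inv_mul_le_iff₀ hTpos] at hv
          exact hv
        exact by
          have hsq := frac_sq H (Ico u (u + T)) (fun k => (k : ℝ) ^ c) (T * D ^ (-σ)) hexp
            (by positivity)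
          have hlow : (#((Ico u (u + T)).filter fun k : ℕ => 1 - η' ≤ Int.fract ((k : ℝ) ^ c)) : ℝ) *
              ((H : ℝ) ^ 2 / 4) ≤ ∑ k ∈ Ico u (u + T), ‖∑ h ∈ range H, e (h * (k : ℝ) ^ c)‖ ^ 2 := by
            calc (#((Ico u (u + T)).filter fun k : ℕ => 1 - η' ≤ Int.fract ((k : ℝ) ^ c)) : ℝ) *
                ((H : ℝ) ^ 2 / 4) =
                ∑ k ∈ (Ico u (u + T)).filter fun k : ℕ => 1 - η' ≤ Int.fract ((k : ℝ) ^ c),
                  ((H : ℝ) ^ 2 / 4) := by rw [sum_const, nsmul_eq_mul]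
              _ ≤ ∑ k ∈ (Ico u (u + T)).filter fun k : ℕ => 1 - η' ≤ Int.fract ((k : ℝ) ^ c),
                  ‖∑ h ∈ range H, e (h * (k : ℝ) ^ c)‖ ^ 2 := by
                refine sum_le_sum fun k hk => ?_
                exact frac_low H _ η' hHη (mem_filter.mp hk).2
              _ ≤ _ := sum_le_sum_of_subset_of_nonneg (filter_subset _ _) fun _ _ _ => by (clear * -; positivity)
          have hH0 : (0 : ℝ) < H := by exact_mod_cast hH1
          have hfin := le_trans hlow hsq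
          have hcI : ((Ico u (u + T)).card : ℝ) = T := by simp
          rw [hcI] at hfin
          have hfin2 : (#((Ico u (u + T)).filter fun k : ℕ => 1 - η' ≤ Int.fract ((k : ℝ) ^ c)) : ℝ) ≤
              4 * T / H + 4 * (T * D ^ (-σ)) := by
            have h12 : (4 * T / H + 4 * (T * D ^ (-σ))) * ((H : ℝ) ^ 2 / 4) =
                H * T + H ^ 2 * (T * D ^ (-σ)) := by
              (clear * - hH1 hD1 hT0; field_simp)
            rw [← h12] at hfin
            exact le_of_mul_le_mul_right hfin (by positivity)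
          refine le_trans hfin2 ?_
          have hinv : 1 / (H : ℝ) ≤ 16 * η' := by
            rw [div_le_iff₀ hH0]
            have h13 : 1 / (16 * η') * (16 * η') = 1 := by field_simp
            (clear * - h13 hHlow hη0; nlinarith [mul_le_mul_of_nonneg_right hHlow (by positivity : 0 ≤ 16 * η')])
          calc 4 * (T : ℝ) / H + 4 * (T * D ^ (-σ)) = (4 * (1 / H) + 4 * D ^ (-σ)) * T := by ring
            _ ≤ (256 * (η + D ^ (-σ'))) * T := by
              apply mul_le_mul_of_nonneg_right _ hTpos.le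
              (clear * - hη0 hDσ hDσpos hη'b hinv; linarith)
            _ = _ := by ring

end

end Pool.Agent.Helper57.NX

end

section

set_option autoImplicit false

open Finset

open scoped BigOperators

namespace Pool.Agent.Helper57.NX3

open Pool.Agent.Helper57.NX in
theorem frac_mult (hES : ES0) (c : ℝ) (hc : 0 < c) (hcn : ∀ n : ℕ, c ≠ n) (K : ℕ) (hK : 1 ≤ K) :
    ∃ C : ℝ, 0 < C ∧ ∃ σ : ℝ, 0 < σ ∧ ∃ D0 : ℝ, ∀ D : ℕ, D0 ≤ D → ∀ η : ℝ, 0 < η → η ≤ 1 →
    (#((Ico D (D + D)).filter fun k : ℕ => 1 - η ≤ Int.fract (((K * k : ℕ) : ℝ) ^ c)) : ℝ) ≤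
      C * (η + (D : ℝ) ^ (-σ)) * D := by
  obtain ⟨C, hC, σ, hσ, D0, hD0⟩ := frac_count hES c hc hcn
  have hK0 : (0 : ℝ) < K := by exact_mod_cast hK
  have hK1 : (1 : ℝ) ≤ K := by exact_mod_cast hK
  refine ⟨C * K, by positivity, σ, hσ, max D0 1, ?_⟩
  intro D hD η hη0 hη1
  have hD1 : (1 : ℝ) ≤ D := le_trans (le_max_right _ _) hD
  have hDD0 : D0 ≤ D := le_trans (le_max_left _ _) hD
  have hDpos : (0 : ℝ) < D := by linarith
  have hKD : (D : ℝ) ≤ K * D := le_mul_of_one_le_left hDpos.le hK1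
  have h1 := hD0 (K * D) (hDD0.trans hKD) η hη0 hη1 (K * D) (K * D)
    (by push_cast; exact le_rfl) (by push_cast; linarith) (by push_cast; nlinarith)
  have hcard : #((Ico D (D + D)).filter fun k : ℕ => 1 - η ≤ Int.fract (((K * k : ℕ) : ℝ) ^ c)) ≤
      #((Ico (K * D) (K * D + K * D)).filter fun k : ℕ => 1 - η ≤ Int.fract ((k : ℝ) ^ c)) := by
    apply Finset.card_le_card_of_injOn (fun k => K * k)
    · intro k hk
      rw [Finset.mem_coe, Finset.mem_filter, Finset.mem_Ico] at hk ⊢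
      obtain ⟨⟨hk1, hk2⟩, hk3⟩ := hk
      refine ⟨⟨Nat.mul_le_mul_left K hk1, ?_⟩, hk3⟩
      rw [← mul_add]
      exact Nat.mul_lt_mul_of_pos_left hk2 (by omega)
    · intro a _ b _ hab
      exact Nat.eq_of_mul_eq_mul_left (by omega) hab
  have hcard' : (#((Ico D (D + D)).filter fun k : ℕ =>
      1 - η ≤ Int.fract (((K * k : ℕ) : ℝ) ^ c)) : ℝ) ≤
      (#((Ico (K * D) (K * D + K * D)).filter fun k : ℕ =>
        1 - η ≤ Int.fract ((k : ℝ) ^ c)) : ℝ) := by exact_mod_cast hcard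
  have hpow : ((K : ℝ) * D) ^ (-σ) ≤ (D : ℝ) ^ (-σ) :=
    Real.rpow_le_rpow_of_nonpos hDpos hKD (by linarith)
  calc _ ≤ _ := hcard'
    _ ≤ C * (η + ((K : ℝ) * D) ^ (-σ)) * ((K * D : ℕ) : ℝ) := h1
    _ ≤ C * (η + (D : ℝ) ^ (-σ)) * ((K * D : ℕ) : ℝ) := by
        apply mul_le_mul_of_nonneg_right _ (by positivity)
        exact mul_le_mul_of_nonneg_left (by linarith) hC.le
    _ = C * K * (η + (D : ℝ) ^ (-σ)) * D := by push_cast; ring

end Pool.Agent.Helper57.NX3

end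

section

set_option autoImplicit false

open Finset

open scoped BigOperators ComplexConjugate

namespace Pool.Agent.Helper59.NX

open Pool.Agent.Helper10.QRH (ee)

open Pool.Agent.Helper64.QRH (ee_add norm_ee)

open Pool.Agent.Helper67.KSZ (dk dk_succ conj_ee)

/-- One piece. -/
theorem piece {m : ℕ} (γ v : Fin m → ℝ) (K d : ℕ) (L c C : ℝ) (hc : 0 < c) (hC : 1 ≤ C)
    (hPhi : ∀ t : ℝ, 1 ≤ t → t ≤ L → (∃ l : Fin m, c * ‖v‖ ≤ |Phi γ v (K + l) t|) ∧
      ∀ j ≤ K + m, |Phi γ v j t| ≤ C * ‖v‖)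
    (hKd : d < K) (D ρ : ℝ) (hD : 1 ≤ D) (hρ0 : 0 ≤ ρ) (p : Polynomial ℝ)
    (hp : p.natDegree ≤ d) (hv : 0 < ‖v‖) (σ ε1 : ℝ) (N : ℕ)
    (hWT : ∀ l : Fin m, ∀ lam : ℝ, (N : ℝ) ^ (-((K + l : ℕ) : ℝ) + ε1) ≤ lam →
      lam ≤ (N : ℝ) ^ (-ε1) → ∀ f : ℕ → ℝ,
      (∀ n, n + (K + l) ≤ N → lam ≤ dk (K + l) f n ∧ dk (K + l) f n ≤ (2 * C / c) * lam) →
      ‖∑ n ∈ range N, ee (f n)‖ ≤ (N : ℝ) ^ (1 - σ))
    (hlam : ∀ l : Fin m, (N : ℝ) ^ (-((K + l : ℕ) : ℝ) + ε1) ≤ (D⁻¹) ^ (K + l : ℕ) * (c * ‖v‖ / 2) ∧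
      (D⁻¹) ^ (K + l : ℕ) * (c * ‖v‖ / 2) ≤ (N : ℝ) ^ (-ε1))
    (hND : (N : ℝ) / D ≤ c / (2 * C)) (k0 : ℕ) (hk0 : D ≤ k0) (hkN : (k0 : ℝ) + N + ρ ≤ L * D) :
    ‖∑ n ∈ range N, ee (∑ i, v i * ((((k0 + n : ℕ) : ℝ) + ρ) / D) ^ (γ i) +
      p.eval ((k0 + n : ℕ) : ℝ))‖ ≤ (N : ℝ) ^ (1 - σ) := by
  have hD0 : 0 < D := by (clear * - hD; linarith)
  have hC0 : 0 < C := by (clear * - hC; linarith)
  set t0 : ℝ := ((k0 : ℝ) + ρ) / D with ht0
  have ht01 : 1 ≤ t0 := by
    rw [ht0, le_div_iff₀ hD0]; (clear * - hρ0 hk0; linarith)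
  have hN0 : (0 : ℝ) ≤ N := Nat.cast_nonneg N
  have ht0L : t0 + N / D ≤ L := by
    rw [ht0, ← add_div, div_le_iff₀ hD0]; (clear * - hkN; linarith)
  exact by
    have hND0 : 0 ≤ (N : ℝ) / D := by (clear * - hD; positivity)
    obtain ⟨l, hl⟩ := (hPhi t0 ht01 (by (clear * - ht0L hND0; linarith))).1
    set j : ℕ := K + l with hj
    -- the sign
    obtain ⟨s, hs, hs'⟩ : ∃ s : ℝ, (s = 1 ∨ s = -1) ∧ s * Phi γ v j t0 = |Phi γ v j t0| := by
      rcases le_total 0 (Phi γ v j t0) with h | h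
      · exact ⟨1, Or.inl rfl, by rw [one_mul, abs_of_nonneg h]⟩
      · exact ⟨-1, Or.inr rfl, by rw [abs_of_nonpos h]; ring⟩
    have habs : |s| = 1 := by rcases hs with rfl | rfl <;> simp
    -- the size on the piece
    have hsize : ∀ t, t0 ≤ t → t ≤ t0 + N / D →
        c * ‖v‖ / 2 ≤ s * Phi γ v j t ∧ s * Phi γ v j t ≤ C * ‖v‖ := by
      intro t h1 h2
      constructor
      · have h3 : |Phi γ v j t - Phi γ v j t0| ≤ C * ‖v‖ * (t - t0) := by
          have h4 := Convex.norm_image_sub_le_of_norm_hasDerivWithin_le (𝕜 := ℝ)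
            (f := Phi γ v j) (f' := Phi γ v (j + 1)) (s := Set.Icc t0 (t0 + N / D))
            (C := C * ‖v‖) (x := t0) (y := t)
            (fun x hx => (Phi_hasDerivAt γ v j (by (clear * - ht01 hx; linarith [hx.1]))).hasDerivWithinAt)
            (fun x hx => by
              rw [Real.norm_eq_abs]
              exact (hPhi x (by (clear * - ht01 hx; linarith [hx.1])) (by (clear * - ht0L hx; linarith [hx.2]))).2 (j + 1)
                (by have := l.2; omega))
            (convex_Icc _ _) ⟨le_rfl, by (clear * - hND0; linarith)⟩ ⟨h1, h2⟩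
          rw [Real.norm_eq_abs, Real.norm_eq_abs, abs_of_nonneg (by (clear * - h1; linarith) : (0 : ℝ) ≤ t - t0)] at h4
          exact h4
        have h5 : C * ‖v‖ * (t - t0) ≤ c * ‖v‖ / 2 := by
          calc C * ‖v‖ * (t - t0) ≤ C * ‖v‖ * (c / (2 * C)) := by
                have : t - t0 ≤ c / (2 * C) := by (clear * - hND h2; linarith)
                (clear * - this hC hv; gcongr)
            _ = c * ‖v‖ / 2 := by (clear * - hC hc hv; field_simp)
        have h6 : |s * Phi γ v j t - s * Phi γ v j t0| ≤ c * ‖v‖ / 2 := by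
          rw [← mul_sub, abs_mul, habs, one_mul]
          exact h3.trans h5
        have h7 := (abs_le.mp h6).1
        rw [hs'] at h7
        (clear * - hl h7; linarith)
      · refine (le_abs_self _).trans ?_
        rw [abs_mul, habs, one_mul]
        exact (hPhi t (by (clear * - ht01 h1; linarith)) (by (clear * - ht0L h2; linarith))).2 j (by have := l.2; omega)
    have key := hWT l ((D⁻¹) ^ (K + l : ℕ) * (c * ‖v‖ / 2)) (hlam l).1 (hlam l).2
      (fun n => GG γ v D ρ p s 0 ((k0 : ℝ) + n)) ?_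
    · have e : ∀ n : ℕ, GG γ v D ρ p s 0 ((k0 : ℝ) + n) =
          s * (∑ i, v i * ((((k0 + n : ℕ) : ℝ) + ρ) / D) ^ (γ i) + p.eval ((k0 + n : ℕ) : ℝ)) := by
        intro n
        unfold GG
        rw [pow_zero, one_mul, Phi_zero]
        push_cast
        rfl
      simp only [e] at key
      rw [norm_sum_ee_sign s hs N (fun n => ∑ i, v i * ((((k0 + n : ℕ) : ℝ) + ρ) / D) ^ (γ i) +
        p.eval ((k0 + n : ℕ) : ℝ))] at key
      exact key
    · intro n hn
      exact by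
        have hn' : (n : ℝ) + ((K + l : ℕ) : ℝ) ≤ N := by exact_mod_cast hn
        rw [dk_eq_dr]
        refine dr_mem (K + l) (GG γ v D ρ p s) _ _ ((k0 : ℝ) + n) ?_ ?_
        · intro i y h1 _
          refine GG_hasDerivAt γ v D ρ hD0 p s i ?_
          have : (0 : ℝ) ≤ n := Nat.cast_nonneg n
          (clear * - hD hρ0 hk0 h1; linarith)
        · intro y h1 h2
          exact by
            have hn0 : (0 : ℝ) ≤ n := Nat.cast_nonneg n
            have h3 := hsize ((y + ρ) / D)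
              (by rw [ht0]; exact div_le_div_of_nonneg_right (by (clear * - h1; linarith)) hD0.le)
              (by rw [ht0, ← add_div]; exact div_le_div_of_nonneg_right (by (clear * - hn' h2; linarith)) hD0.le)
            have h4 : (Polynomial.derivative^[K + l] p) = 0 :=
              Polynomial.iterate_derivative_eq_zero (by omega)
            have h5 : GG γ v D ρ p s (K + l) y = (D⁻¹) ^ (K + l : ℕ) * (s * Phi γ v j ((y + ρ) / D)) := by
              unfold GG
              rw [h4, Polynomial.eval_zero, add_zero, ← hj]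
              ring
            have hp0 : 0 < (D⁻¹) ^ (K + l : ℕ) := by positivity
            rw [h5]
            constructor
            · exact mul_le_mul_of_nonneg_left h3.1 hp0.le
            · calc (D⁻¹) ^ (K + l : ℕ) * (s * Phi γ v j ((y + ρ) / D))
                  ≤ (D⁻¹) ^ (K + l : ℕ) * (C * ‖v‖) := mul_le_mul_of_nonneg_left h3.2 hp0.le
                _ = 2 * C / c * ((D⁻¹) ^ (K + l : ℕ) * (c * ‖v‖ / 2)) := by (clear * - hc hv hC hD; field_simp)

end Pool.Agent.Helper59.NX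

namespace Pool.Agent.Helper57.NX

open Pool.Agent.Helper59.NX

open Pool.Agent.Helper10.QRH (ee)

open Pool.Agent.Helper64.QRH (norm_ee)

open Pool.Agent.Helper67.KSZ (dk)

theorem es0 : ES0 := by
  intro m d γ hinj hγ Λ a ε hΛ hε
  rcases Nat.eq_zero_or_pos m with hm | hm
  · subst hm
    refine ⟨1, one_pos, 1, one_pos, 0, fun D _ ρ _ _ v _ ⟨i, _⟩ => i.elim0⟩
  set K : ℕ := max (d + 1) (⌈a⌉₊ + 2) with hK
  have hK2 : 2 ≤ K := by have := le_max_right (d + 1) (⌈a⌉₊ + 2); omega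
  have hKd : d < K := by have := le_max_left (d + 1) (⌈a⌉₊ + 2); omega
  have haK : a + 2 ≤ K := by
    have h1 : ((⌈a⌉₊ + 2 : ℕ) : ℝ) ≤ K := by exact_mod_cast le_max_right (d + 1) (⌈a⌉₊ + 2)
    push_cast at h1
    (clear * - h1; linarith [Nat.le_ceil a])
  obtain ⟨c, C, hc, hc1, hC, hPhi⟩ := Phi_bounds hm γ hinj hγ K (Λ + 1) (by (clear * - hΛ; linarith))
  have hε1 : 0 < min ε 1 / 4 := by have := lt_min hε one_pos; positivity
  have hA : 1 ≤ 2 * C / c := by
    rw [le_div_iff₀ hc]; (clear * - hc1 hC; linarith)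
  exact by
    choose σf hσf Nf hNf using fun l : Fin m => wt (K + l) (by omega) (2 * C / c)
      (min ε 1 / 4) hA hε1
    have hne : (univ : Finset (Fin m)).Nonempty := ⟨⟨0, hm⟩, mem_univ _⟩
    set σ1 : ℝ := min 1 (univ.inf' hne σf) with hσ1
    have hσ10 : 0 < σ1 := by
      refine lt_min one_pos ?_
      rw [lt_inf'_iff]
      exact fun i _ => hσf i
    have hσ1l : ∀ l, σ1 ≤ σf l := fun l => (min_le_right _ _).trans (inf'_le _ (mem_univ l))
    set N1 : ℕ := univ.sup Nf with hN1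
    obtain ⟨x1, hx10, hx18, D0, hD0, hpar⟩ := params K m hK2 ε a c C hε haK hc hc1 hC N1
    set σ : ℝ := min (x1 / 4) (σ1 / 4) with hσ
    exact by
      have hσ0 : 0 < σ := lt_min (by (clear * - hx10; positivity)) (by (clear * - hσ10; positivity))
      have hσx : σ ≤ x1 / 4 := min_le_left _ _
      have hσσ : σ ≤ σ1 / 4 := min_le_right _ _
      obtain ⟨D1, hD1, h1⟩ := exists_pow_ge' 2 σ hσ0
      refine ⟨x1 / 2, by positivity, σ, hσ0, max D0 D1, fun D hD ρ hρ0 hρ1 v hv1 hv2 p hp u T hu huT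
        hT => ?_⟩
      exact by
        have hDD0 : D0 ≤ D := (le_max_left _ _).trans hD
        have hDD1 : D1 ≤ D := (le_max_right _ _).trans hD
        have hDone : 1 ≤ D := hD0.trans hDD0
        have hDpos : 0 < D := by (clear * - hx18 hD0 hσ0 hσx hDD0; linarith)
        have hpos : ∀ x : ℝ, 0 < D ^ x := fun x => Real.rpow_pos_of_pos hDpos x
        have hmono : ∀ x y : ℝ, x ≤ y → D ^ x ≤ D ^ y := fun x y hxy =>
          Real.rpow_le_rpow_of_exponent_le hDone hxy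
        exact by
          have hmul : ∀ x y : ℝ, D ^ x * D ^ y = D ^ (x + y) := fun x y => (Real.rpow_add hDpos x y).symm
          obtain ⟨N, hNN1, hNone, hNle, hNhalf, hND, hlam⟩ := hpar D hDD0
          have hNpos : (0 : ℝ) < N := by exact_mod_cast hNone
          have hNone' : (1 : ℝ) ≤ N := by exact_mod_cast hNone
          -- the size of `v`
          have hV1 : D ^ ε ≤ ‖v‖ := by
            obtain ⟨i, hi⟩ := hv2
            exact hi.trans (norm_le_pi_norm v i)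
          have hV2 : ‖v‖ ≤ D ^ a := by
            rw [pi_norm_le_iff_of_nonneg (hpos _).le]
            exact fun i => hv1 i
          have hVpos : 0 < ‖v‖ := lt_of_lt_of_le (hpos _) hV1
          -- the function
          exact by
            set g : ℕ → ℂ := fun n => ee (∑ i, v i * ((((u + n : ℕ) : ℝ) + ρ) / D) ^ (γ i) +
              p.eval ((u + n : ℕ) : ℝ)) with hg
            have hTpos : (0 : ℝ) < T := lt_of_lt_of_le (hpos _) hT
            have e1 : 𝔼 k ∈ Ico u (u + T), e (∑ i, v i * (((k : ℝ) + ρ) / D) ^ (γ i) + p.eval (k : ℝ)) =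
                (∑ n ∈ range T, g n) / T := by
              rw [expect_eq_sum_div_card, Nat.card_Ico, add_tsub_cancel_left, sum_Ico_eq_sum_range,
                add_tsub_cancel_left]
              rfl
            rw [e1, norm_div, Complex.norm_natCast, div_le_iff₀ hTpos]
            set q : ℕ := T / N with hq
            set r : ℕ := T % N with hr
            have hTqr : q * N + r = T := by rw [hq, hr, mul_comm]; exact Nat.div_add_mod T N
            exact by
              have hrN : r < N := Nat.mod_lt _ hNone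
              have hblock := block_bound g N ((N : ℝ) ^ (1 - σ1)) (fun n => (norm_ee _).le) q r ?_
              · rw [hTqr] at hblock
                exact by
                  refine hblock.trans ?_
                  -- final estimate
                  have hqN : (q : ℝ) * N ≤ T := by
                    have : q * N ≤ T := by omega
                    exact_mod_cast this
                  have hr' : (r : ℝ) ≤ N := by exact_mod_cast hrN.le
                  have f1 : (N : ℝ) ^ (1 - σ1) = N * (N : ℝ) ^ (-σ1) := by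
                    rw [sub_eq_add_neg, Real.rpow_add hNpos, Real.rpow_one]
                  have f2 : (N : ℝ) ^ (-σ1) ≤ D ^ (-(2 * σ)) := by
                    calc (N : ℝ) ^ (-σ1) ≤ (D ^ (1 / 2 : ℝ)) ^ (-σ1) :=
                          Real.rpow_le_rpow_of_nonpos (hpos _) hNhalf (by (clear * - hσ0 hσσ; linarith))
                      _ = D ^ (1 / 2 * -σ1) := by rw [← Real.rpow_mul hDpos.le]
                      _ ≤ D ^ (-(2 * σ)) := hmono _ _ (by (clear * - hσσ; linarith))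
                  have f3 : (N : ℝ) ≤ T * D ^ (-(2 * σ)) := by
                    calc (N : ℝ) ≤ D ^ (1 - x1) := hNle
                      _ = D ^ (1 - x1 / 2) * D ^ (-(x1 / 2)) := by rw [hmul]; congr 1; ring
                      _ ≤ T * D ^ (-(2 * σ)) := by
                          refine mul_le_mul hT (hmono _ _ (by (clear * - hσx; linarith))) (hpos _).le hTpos.le
                  have f4 : (q : ℝ) * (N : ℝ) ^ (1 - σ1) ≤ T * D ^ (-(2 * σ)) := by
                    rw [f1, ← mul_assoc]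
                    exact mul_le_mul hqN f2 (Real.rpow_pos_of_pos hNpos _).le hTpos.le
                  exact by
                    have f5 : D ^ (-σ) = D ^ σ * D ^ (-(2 * σ)) := by rw [hmul]; congr 1; ring
                    calc (q : ℝ) * (N : ℝ) ^ (1 - σ1) + r ≤ T * D ^ (-(2 * σ)) + T * D ^ (-(2 * σ)) := by
                          (clear * - hr' f3 f4; linarith)
                      _ = 2 * (T * D ^ (-(2 * σ))) := by ring
                      _ ≤ D ^ σ * (T * D ^ (-(2 * σ))) := by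
                          refine mul_le_mul_of_nonneg_right (h1 D hDD1) ?_
                          have := hpos (-(2 * σ))
                          (clear * - hTpos hDone; positivity)
                      _ = D ^ (-σ) * T := by rw [f5]; ring
              · intro b hb
                exact by
                  have hbN : b * N + N ≤ T := by
                    have : (b + 1) * N ≤ q * N := Nat.mul_le_mul_right N hb
                    have : (b + 1) * N = b * N + N := by ring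
                    omega
                  have hk0 : D ≤ ((u + b * N : ℕ) : ℝ) := by
                    push_cast
                    have : (0 : ℝ) ≤ b * N := by (clear * - hNone; positivity)
                    (clear * - hu this; linarith)
                  have hkN : ((u + b * N : ℕ) : ℝ) + N + ρ ≤ (Λ + 1) * D := by
                    have h5 : ((b * N + N : ℕ) : ℝ) ≤ T := by exact_mod_cast hbN
                    push_cast at h5 ⊢
                    (clear * - hD0 hρ1 huT hDD0 h5; linarith)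
                  have := piece γ v K d (Λ + 1) c C hc hC (fun t h1 h2 => hPhi v t h1 h2) hKd D ρ hDone hρ0 p hp
                    hVpos σ1 (min ε 1 / 4) N ?_ (fun l => hlam ‖v‖ hV1 hV2 l l.2) hND (u + b * N) hk0 hkN
                  · have e2 : ∀ n : ℕ, g (b * N + n) =
                        ee (∑ i, v i * ((((u + b * N + n : ℕ) : ℝ) + ρ) / D) ^ (γ i) +
                          p.eval ((u + b * N + n : ℕ) : ℝ)) := by
                      intro n
                      rw [hg]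
                      simp only [add_assoc]
                    simp only [e2]
                    exact this
                  · intro l lam hl1 hl2 f hf
                    refine (hNf l N ((le_sup (mem_univ l)).trans hNN1) lam hl1 hl2 f hf).trans ?_
                    exact Real.rpow_le_rpow_of_exponent_le hNone' (by (clear * - hσ1l; linarith [hσ1l l]))

end Pool.Agent.Helper57.NX

end
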