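import Pool.Agent.Helper23.MC.L00_a0
import Pool.Agent.Helper23.MC.L00_a1
import Pool.Agent.Helper23.MC.L00_a11
import Pool.Agent.Helper23.MC.L00_a12
import Pool.Agent.Helper23.MC.L00_a13
import Pool.Agent.Helper23.MC.L00_a7
import Pool.Agent.Helper23.MC.L00_a9

/-!
Parts of Helper57.NX.Defs, Helper67.NX2.Defs, Helper28.NX2.Lpp, Helper87.NX.DlA, Helper40.NX2.IGBasic, Helper72.NX2.DlA, Helper94.NX2.MainMixedOf, Helper7.NX2.Montgomery, Helper67.NX2.PartB, Helper15.NX.Lpp, Helper40.NX.MainInd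
-/

attribute [local instance 5000]
  Pool.Agent.Helper23.MC.Inst.rCharZero Pool.Agent.Helper23.MC.Inst.rALM
  Pool.Agent.Helper23.MC.Inst.rARM Pool.Agent.Helper23.MC.Inst.rALSM
  Pool.Agent.Helper23.MC.Inst.rARSM Pool.Agent.Helper23.MC.Inst.rARRLE
  Pool.Agent.Helper23.MC.Inst.rALRLE Pool.Agent.Helper23.MC.Inst.rARRLT
  Pool.Agent.Helper23.MC.Inst.rALRLT Pool.Agent.Helper23.MC.Inst.rPMRLT
  Pool.Agent.Helper23.MC.Inst.rMPRLT Pool.Agent.Helper23.MC.Inst.rPMM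
  Pool.Agent.Helper23.MC.Inst.rMPM Pool.Agent.Helper23.MC.Inst.rPMSM
  Pool.Agent.Helper23.MC.Inst.rMPSM Pool.Agent.Helper23.MC.Inst.rEAOL
  Pool.Agent.Helper23.MC.Inst.rIOR Pool.Agent.Helper23.MC.Inst.rISOR
  Pool.Agent.Helper23.MC.Inst.rNZD Pool.Agent.Helper23.MC.Inst.rcCharZero
  Pool.Agent.Helper23.MC.Inst.rcNZD Pool.Agent.Helper23.MC.Inst.zCharZero
  Pool.Agent.Helper23.MC.Inst.zALM Pool.Agent.Helper23.MC.Inst.zARM
  Pool.Agent.Helper23.MC.Inst.zALSM Pool.Agent.Helper23.MC.Inst.zARSM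
  Pool.Agent.Helper23.MC.Inst.zIOR Pool.Agent.Helper23.MC.Inst.zISOR
  Pool.Agent.Helper23.MC.Inst.zNZD Pool.Agent.Helper23.MC.Inst.qCharZero
  Pool.Agent.Helper23.MC.Inst.mR Pool.Agent.Helper23.MC.Inst.mC Pool.Agent.Helper23.MC.Inst.mRC
  Pool.Agent.Helper23.MC.Inst.rPSM Pool.Agent.Helper23.MC.Inst.rCSM
  Pool.Agent.Helper23.MC.Inst.cAdd Pool.Agent.Helper23.MC.Inst.cAddM
  Pool.Agent.Helper23.MC.Inst.cMul Pool.Agent.Helper23.MC.Inst.cMon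

namespace Pool.Agent.Helper57.NX
end Pool.Agent.Helper57.NX
namespace Pool.Agent.Helper67.NX2
end Pool.Agent.Helper67.NX2

section

set_option autoImplicit false

open Finset

open scoped BigOperators ComplexConjugate

namespace Pool.Agent.Helper57.NX

noncomputable section

/-- `U` at level `m` : a large form implies that every `f i` has large averages. -/
def UP (m : ℕ) (c : Fin m → ℝ) (ε : ℝ) : Prop :=
  ∃ x0 : ℝ, 0 < x0 ∧ ∃ C : ℕ, ∃ σ : ℝ, 0 < σ ∧ ∃ D0 : ℝ,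
  ∀ (S : Sys m) (N : ℕ) [NeZero N], D0 ≤ S.D → Good S c N x0 →
  ∀ δ : ℝ, S.D ^ (-σ) ≤ δ → δ ≤ 1 / 2 →
  ∀ (f0 : ZMod N → ℂ) (f : Fin m → ZMod N → ℂ),
  Adm δ⁻¹ S.Q f0 → (∀ i, Adm δ⁻¹ S.Q (f i)) →
  δ ≤ ‖form S c 1 f0 f‖ →
  ∀ i, ∀ L : ℕ, 1 ≤ L → (L : ℝ) ≤ S.P i * S.D ^ (-ε) → δ ^ C ≤ nrm (A L (f i))

/-- `D` at level `m` : with arbitrary weights `h`. -/
def DP (m : ℕ) (c : Fin m → ℝ) (ε : ℝ) : Prop :=
  ∃ x0 : ℝ, 0 < x0 ∧ ∃ C : ℕ, ∃ σ : ℝ, 0 < σ ∧ ∃ D0 : ℝ,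
  ∀ (S : Sys m) (N : ℕ) [NeZero N], D0 ≤ S.D → Good S c N x0 →
  ∀ δ : ℝ, S.D ^ (-σ) ≤ δ → δ ≤ 1 / 2 →
  ∀ (h : ℕ → ℂ) (f0 : ZMod N → ℂ) (f : Fin m → ZMod N → ℂ),
  (∀ k, ‖h k‖ ≤ 1) → Adm δ⁻¹ S.Q f0 → (∀ i, Adm δ⁻¹ S.Q (f i)) →
  δ ≤ ‖form S c h f0 f‖ →
  ∃ θ : Fin m → ℝ, (∀ i, |θ i| ≤ δ⁻¹ ^ C / S.Q) ∧
    ∀ K : ℕ, 1 ≤ K → (K : ℝ) ≤ S.D ^ (1 - ε) →
      δ ^ C ≤ 𝔼 k ∈ S.I, ‖𝔼 j ∈ range K, h (k + j) * e (∑ i, θ i * S.P i * (S.t (k + j)) ^ (c i))‖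

/-- the top function is smooth at scale `Q D^s`: conclusion of `U` for the top function -/
def TopP (m : ℕ) (c : Fin (m + 1) → ℝ) (s ε : ℝ) : Prop :=
  ∃ x0 : ℝ, 0 < x0 ∧ ∃ C : ℕ, ∃ σ : ℝ, 0 < σ ∧ ∃ D0 : ℝ,
  ∀ (S : Sys (m + 1)) (N : ℕ) [NeZero N], D0 ≤ S.D → Good S c N x0 →
  ∀ δ : ℝ, S.D ^ (-σ) ≤ δ → δ ≤ 1 / 2 →
  ∀ X : ℝ, (S.Q : ℝ) ≤ X → S.Q * S.D ^ (s - σ) ≤ X →
  ∀ (f0 : ZMod N → ℂ) (f : Fin (m + 1) → ZMod N → ℂ),
  Adm δ⁻¹ S.Q f0 → (∀ i, Adm δ⁻¹ S.Q (f i)) → Adm δ⁻¹ X (f (Fin.last m)) →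
  δ ≤ ‖form S c 1 f0 f‖ →
  ∀ L : ℕ, 1 ≤ L → (L : ℝ) ≤ S.P (Fin.last m) * S.D ^ (-ε) → δ ^ C ≤ nrm (A L (f (Fin.last m)))

/-- the top function is smooth at scale `Q D^s`: conclusion of `U` for all functions -/
def UsP (m : ℕ) (c : Fin (m + 1) → ℝ) (s ε : ℝ) : Prop :=
  ∃ x0 : ℝ, 0 < x0 ∧ ∃ C : ℕ, ∃ σ : ℝ, 0 < σ ∧ ∃ D0 : ℝ,
  ∀ (S : Sys (m + 1)) (N : ℕ) [NeZero N], D0 ≤ S.D → Good S c N x0 →
  ∀ δ : ℝ, S.D ^ (-σ) ≤ δ → δ ≤ 1 / 2 →
  ∀ X : ℝ, (S.Q : ℝ) ≤ X → S.Q * S.D ^ (s - σ) ≤ X →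
  ∀ (f0 : ZMod N → ℂ) (f : Fin (m + 1) → ZMod N → ℂ),
  Adm δ⁻¹ S.Q f0 → (∀ i, Adm δ⁻¹ S.Q (f i)) → Adm δ⁻¹ X (f (Fin.last m)) →
  δ ≤ ‖form S c 1 f0 f‖ →
  ∀ i, ∀ L : ℕ, 1 ≤ L → (L : ℝ) ≤ S.P i * S.D ^ (-ε) → δ ^ C ≤ nrm (A L (f i))

/-- the top function is smooth at scale `X ≈ Q D^s`: conclusion of `D` -/
def DsP (m : ℕ) (c : Fin (m + 1) → ℝ) (s ε : ℝ) : Prop :=
  ∃ x0 : ℝ, 0 < x0 ∧ ∃ C : ℕ, ∃ σ : ℝ, 0 < σ ∧ ∃ D0 : ℝ,
  ∀ (S : Sys (m + 1)) (N : ℕ) [NeZero N], D0 ≤ S.D → Good S c N x0 →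
  ∀ δ : ℝ, S.D ^ (-σ) ≤ δ → δ ≤ 1 / 2 →
  ∀ X : ℝ, (S.Q : ℝ) ≤ X → S.Q * S.D ^ (s - σ) ≤ X → X ≤ S.Q * S.D ^ s →
  ∀ (h : ℕ → ℂ) (f0 : ZMod N → ℂ) (f : Fin (m + 1) → ZMod N → ℂ),
  (∀ k, ‖h k‖ ≤ 1) → Adm δ⁻¹ S.Q f0 → (∀ i, Adm δ⁻¹ S.Q (f i)) →
  Adm δ⁻¹ X (f (Fin.last m)) →
  δ ≤ ‖form S c h f0 f‖ →
  ∃ θ : Fin (m + 1) → ℝ, (∀ i, |θ i| ≤ δ⁻¹ ^ C / S.Q) ∧ |θ (Fin.last m)| ≤ δ⁻¹ ^ C / X ∧
    ∀ K : ℕ, 1 ≤ K → (K : ℝ) ≤ S.D ^ (1 - ε) →
      δ ^ C ≤ 𝔼 k ∈ S.I, ‖𝔼 j ∈ range K, h (k + j) * e (∑ i, θ i * S.P i * (S.t (k + j)) ^ (c i))‖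

/-- block phases with large frequencies have a small form -/
def LPP (m : ℕ) (c : Fin (m + 1) → ℝ) (s : ℝ) : Prop :=
  ∃ x0 : ℝ, 0 < x0 ∧ ∃ C : ℕ, ∃ σ : ℝ, 0 < σ ∧ ∃ D0 : ℝ,
  ∀ (S : Sys (m + 1)) (N : ℕ) [NeZero N], D0 ≤ S.D → Good S c N x0 →
  ∀ δ : ℝ, S.D ^ (-σ) ≤ δ → δ ≤ 1 / 2 →
  ∀ X : ℕ, S.Q ≤ X → S.Q * S.D ^ (s - σ) ≤ (X : ℝ) → (X : ℝ) ≤ S.Q * S.D ^ s →
  ∀ (f0 : ZMod N → ℂ) (f : Fin m → ZMod N → ℂ),
  Adm δ⁻¹ S.Q f0 → (∀ i, Adm δ⁻¹ S.Q (f i)) →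
  ∀ (r : ZMod N) (cc : ℕ → ℂ) (φ : ℕ → ℝ), (∀ j, ‖cc j‖ ≤ 1) → (∀ j, |φ j| ≤ δ⁻¹ / S.Q) →
  (∀ j, cc j ≠ 0 → δ⁻¹ ^ C / X ≤ |φ j|) →
  ‖form S c 1 f0 (Fin.snoc (α := fun _ => ZMod N → ℂ) f (bphase X r cc φ))‖ < δ

/-- the generalised von Neumann theorem: smoothness `Q D^s` gives a box norm at scale `Q D^s'` -/
def GNCP (m : ℕ) (c : Fin (m + 1) → ℝ) (s s' : ℝ) : Prop :=
  ∃ x0 : ℝ, 0 < x0 ∧ ∃ r C : ℕ, ∃ σ : ℝ, 0 < σ ∧ ∃ D0 : ℝ,
  ∀ (S : Sys (m + 1)) (N : ℕ) [NeZero N], D0 ≤ S.D → Good S c N x0 →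
  ∀ δ : ℝ, S.D ^ (-σ) ≤ δ → δ ≤ 1 / 2 →
  ∀ X : ℝ, (S.Q : ℝ) ≤ X → S.Q * S.D ^ (s - σ) ≤ X →
  ∀ (f0 : ZMod N → ℂ) (f : Fin (m + 1) → ZMod N → ℂ),
  Adm δ⁻¹ S.Q f0 → (∀ i, Adm δ⁻¹ S.Q (f i)) → Adm δ⁻¹ X (f (Fin.last m)) →
  δ ≤ ‖form S c 1 f0 f‖ →
  ∀ X1 : ℕ, 1 ≤ X1 → (X1 : ℝ) ≤ S.Q * S.D ^ s' → δ ^ C ≤ Box r X1 (f (Fin.last m))

end

end Pool.Agent.Helper57.NX

end

section

set_option autoImplicit false

open Finset

open scoped BigOperators ComplexConjugate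

namespace Pool.Agent.Helper67.NX2

open Pool.Agent.Helper57.NX

noncomputable section

/-- `D` for mixed systems -/
def DPm (m : ℕ) (c : Fin m → ℝ) (ε : ℝ) : Prop :=
  ∃ x0 : ℝ, 0 < x0 ∧ ∃ C : ℕ, ∃ σ : ℝ, 0 < σ ∧ ∃ D0 : ℝ,
  ∀ (S : Sys m) (N : ℕ) [NeZero N] (lam : ℕ), D0 ≤ S.D → IG S c N x0 lam →
  ∀ δ : ℝ, S.D ^ (-σ) ≤ δ → δ ≤ 1 / 2 → (lam : ℝ) ≤ δ⁻¹ →
  ∀ (h : ℕ → ℂ) (f0 : ZMod N → ℂ) (f : Fin m → ZMod N → ℂ),
  (∀ k, ‖h k‖ ≤ 1) → Adm δ⁻¹ S.Q f0 → (∀ i, Adm δ⁻¹ S.Q (f i)) →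
  δ ≤ ‖form S c h f0 f‖ →
  ∃ q : ℕ, 1 ≤ q ∧ (q : ℝ) ≤ δ⁻¹ ^ C ∧ ∃ θ : Fin m → ℝ, (∀ i, |θ i| ≤ δ⁻¹ ^ C / S.Q) ∧
    ∀ K : ℕ, 1 ≤ K → (K : ℝ) ≤ S.D ^ (1 - ε) →
      δ ^ C ≤ 𝔼 k ∈ S.I, ‖𝔼 j ∈ range K,
        h (k + q * j) * e (∑ i, θ i * S.P i * (S.t (k + q * j)) ^ (c i))‖

/-- top function smooth at scale `Q D^s`: interval conclusion for the top function -/
def TopPm (m : ℕ) (c : Fin (m + 1) → ℝ) (s ε : ℝ) : Prop :=
  ∃ x0 : ℝ, 0 < x0 ∧ ∃ C : ℕ, ∃ σ : ℝ, 0 < σ ∧ ∃ D0 : ℝ,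
  ∀ (S : Sys (m + 1)) (N : ℕ) [NeZero N] (lam : ℕ), D0 ≤ S.D → IG S c N x0 lam →
  ∀ δ : ℝ, S.D ^ (-σ) ≤ δ → δ ≤ 1 / 2 → (lam : ℝ) ≤ δ⁻¹ →
  ∀ X : ℝ, (S.Q : ℝ) ≤ X → S.Q * S.D ^ (s - σ) ≤ X →
  ∀ (f0 : ZMod N → ℂ) (f : Fin (m + 1) → ZMod N → ℂ),
  Adm δ⁻¹ S.Q f0 → (∀ i, Adm δ⁻¹ S.Q (f i)) → Adm δ⁻¹ X (f (Fin.last m)) →
  δ ≤ ‖form S c 1 f0 f‖ →
  ∀ L : ℕ, 1 ≤ L → (L : ℝ) ≤ S.P (Fin.last m) * S.D ^ (-ε) → δ ^ C ≤ nrm (A L (f (Fin.last m)))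

/-- top function smooth at scale `Q D^s`: progression conclusion for the functions with index
in `J` -/
def UsJ (m : ℕ) (c : Fin (m + 1) → ℝ) (s ε : ℝ) (J : Finset (Fin (m + 1))) : Prop :=
  ∃ x0 : ℝ, 0 < x0 ∧ ∃ C : ℕ, ∃ σ : ℝ, 0 < σ ∧ ∃ D0 : ℝ,
  ∀ (S : Sys (m + 1)) (N : ℕ) [NeZero N] (lam : ℕ), D0 ≤ S.D → IG S c N x0 lam →
  ∀ δ : ℝ, S.D ^ (-σ) ≤ δ → δ ≤ 1 / 2 → (lam : ℝ) ≤ δ⁻¹ →
  ∀ X : ℝ, (S.Q : ℝ) ≤ X → S.Q * S.D ^ (s - σ) ≤ X →
  ∀ (f0 : ZMod N → ℂ) (f : Fin (m + 1) → ZMod N → ℂ),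
  Adm δ⁻¹ S.Q f0 → (∀ i, Adm δ⁻¹ S.Q (f i)) → Adm δ⁻¹ X (f (Fin.last m)) →
  δ ≤ ‖form S c 1 f0 f‖ →
  ∃ q : ℕ, 1 ≤ q ∧ (q : ℝ) ≤ δ⁻¹ ^ C ∧ ∀ i ∈ J, ∀ L : ℕ, 1 ≤ L →
    (L : ℝ) * (stp S.Q q (c i) : ℝ) ≤ S.P i * S.D ^ (-ε) →
    δ ^ C ≤ nrm (Aq (stp S.Q q (c i)) L (f i))

/-- conclusion of `D` with smooth top function -/
def DsPm (m : ℕ) (c : Fin (m + 1) → ℝ) (s ε : ℝ) : Prop :=
  ∃ x0 : ℝ, 0 < x0 ∧ ∃ C : ℕ, ∃ σ : ℝ, 0 < σ ∧ ∃ D0 : ℝ,
  ∀ (S : Sys (m + 1)) (N : ℕ) [NeZero N] (lam : ℕ), D0 ≤ S.D → IG S c N x0 lam →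
  ∀ δ : ℝ, S.D ^ (-σ) ≤ δ → δ ≤ 1 / 2 → (lam : ℝ) ≤ δ⁻¹ →
  ∀ X : ℝ, (S.Q : ℝ) ≤ X → S.Q * S.D ^ (s - σ) ≤ X → X ≤ S.Q * S.D ^ s →
  ∀ (h : ℕ → ℂ) (f0 : ZMod N → ℂ) (f : Fin (m + 1) → ZMod N → ℂ),
  (∀ k, ‖h k‖ ≤ 1) → Adm δ⁻¹ S.Q f0 → (∀ i, Adm δ⁻¹ S.Q (f i)) →
  Adm δ⁻¹ X (f (Fin.last m)) →
  δ ≤ ‖form S c h f0 f‖ →
  ∃ q : ℕ, 1 ≤ q ∧ (q : ℝ) ≤ δ⁻¹ ^ C ∧
    ∃ θ : Fin (m + 1) → ℝ, (∀ i, |θ i| ≤ δ⁻¹ ^ C / S.Q) ∧ |θ (Fin.last m)| ≤ δ⁻¹ ^ C / X ∧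
    ∀ K : ℕ, 1 ≤ K → (K : ℝ) ≤ S.D ^ (1 - ε) →
      δ ^ C ≤ 𝔼 k ∈ S.I, ‖𝔼 j ∈ range K,
        h (k + q * j) * e (∑ i, θ i * S.P i * (S.t (k + q * j)) ^ (c i))‖

/-- block phases with large frequencies (but `≤ δ⁻¹/(Q D^s0)`) have a small form -/
def LPPm (m : ℕ) (c : Fin (m + 1) → ℝ) (s s0 : ℝ) : Prop :=
  ∃ x0 : ℝ, 0 < x0 ∧ ∃ C : ℕ, ∃ σ : ℝ, 0 < σ ∧ ∃ D0 : ℝ,
  ∀ (S : Sys (m + 1)) (N : ℕ) [NeZero N] (lam : ℕ), D0 ≤ S.D → IG S c N x0 lam →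
  ∀ δ : ℝ, S.D ^ (-σ) ≤ δ → δ ≤ 1 / 2 → (lam : ℝ) ≤ δ⁻¹ →
  ∀ X : ℕ, S.Q ≤ X → S.Q * S.D ^ (s - σ) ≤ (X : ℝ) → (X : ℝ) ≤ S.Q * S.D ^ s →
  ∀ (f0 : ZMod N → ℂ) (f : Fin m → ZMod N → ℂ),
  Adm δ⁻¹ S.Q f0 → (∀ i, Adm δ⁻¹ S.Q (f i)) →
  ∀ (r : ZMod N) (cc : ℕ → ℂ) (φ : ℕ → ℝ), (∀ j, ‖cc j‖ ≤ 1) →
  (∀ j, |φ j| ≤ δ⁻¹ / (S.Q * S.D ^ s0)) →
  (∀ j, cc j ≠ 0 → δ⁻¹ ^ C / X ≤ |φ j|) →
  ‖form S c 1 f0 (Fin.snoc (α := fun _ => ZMod N → ℂ) f (bphase X r cc φ))‖ < δ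

end

end Pool.Agent.Helper67.NX2

end

section

set_option autoImplicit false

open Finset

open scoped BigOperators ComplexConjugate

namespace Pool.Agent.Helper67.NX2

open Pool.Agent.Helper57.NX

noncomputable section

/-- The conclusion of `lp_align'`. -/
def AlignCm (m : ℕ) (c : Fin (m + 1) → ℝ) (s ε : ℝ) : Prop :=
    ∃ x0 : ℝ, 0 < x0 ∧ ∃ C : ℕ, ∃ σ : ℝ, 0 < σ ∧ ∃ D0 : ℝ,
    ∀ (S : Sys (m + 1)) (N : ℕ) [NeZero N] (lam : ℕ), D0 ≤ S.D → IG S c N x0 lam →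
    ∀ δ : ℝ, S.D ^ (-σ) ≤ δ → δ ≤ 1 / 2 → (lam : ℝ) ≤ δ⁻¹ →
    ∀ X : ℕ, S.Q ≤ X → S.Q * S.D ^ (s - σ) ≤ (X : ℝ) →
    ∀ q0 : ℕ, 1 ≤ q0 → (X : ℝ) * q0 ≤ S.P (Fin.last m) * S.D ^ (-ε) →
    ∀ (f0 : ZMod N → ℂ) (f : Fin m → ZMod N → ℂ),
    Adm δ⁻¹ S.Q f0 → (∀ i, Adm δ⁻¹ S.Q (f i)) →
    ∀ (r : ZMod N) (cc : ℕ → ℂ) (φ : ℕ → ℝ), (∀ j, ‖cc j‖ ≤ 1) → (∀ j, |φ j| ≤ δ⁻¹ / S.Q) →
    δ ≤ ‖form S c 1 f0 (Fin.snoc (α := fun _ => ZMod N → ℂ) f (bphase X r cc φ))‖ →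
    ∃ (cc' : ℕ → ℂ) (θ : ℕ → ℝ), (∀ j, cc' j = cc j ∨ cc' j = 0) ∧
      (∀ j, cc' j ≠ 0 → |φ j - θ (j / q0)| ≤ δ⁻¹ ^ C / X) ∧
      δ ^ C ≤ ‖form S c 1 f0 (Fin.snoc (α := fun _ => ZMod N → ℂ) f (bphase X r cc' φ))‖

/-- The conclusion of `lp_local'`. -/
def LocalCm (m : ℕ) (c : Fin (m + 1) → ℝ) (s s0 : ℝ) : Prop :=
    ∃ ε0 : ℝ, 0 < ε0 ∧ ∀ ε : ℝ, 0 < ε → ε ≤ ε0 → ∀ n : ℕ,
    ∃ x0 : ℝ, 0 < x0 ∧ ∃ C : ℕ, ∃ σ : ℝ, 0 < σ ∧ ∃ D0 : ℝ,
    ∀ (S : Sys (m + 1)) (N : ℕ) [NeZero N] (lam : ℕ), D0 ≤ S.D → IG S c N x0 lam →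
    ∀ δ : ℝ, S.D ^ (-σ) ≤ δ → δ ≤ 1 / 2 → (lam : ℝ) ≤ δ⁻¹ →
    ∀ X : ℕ, S.Q ≤ X → S.Q * S.D ^ (s - σ) ≤ (X : ℝ) → (X : ℝ) ≤ S.Q * S.D ^ s →
    ∀ q0 : ℕ, 1 ≤ q0 → S.P (Fin.last m) * S.D ^ (-ε) / 2 ≤ (X : ℝ) * q0 →
      (X : ℝ) * q0 ≤ S.P (Fin.last m) * S.D ^ (-ε) →
    ∀ (f0 : ZMod N → ℂ) (f : Fin m → ZMod N → ℂ),
    Adm δ⁻¹ S.Q f0 → (∀ i, Adm δ⁻¹ S.Q (f i)) →
    ∀ (r : ZMod N) (cc : ℕ → ℂ) (φ : ℕ → ℝ) (θ : ℕ → ℝ), (∀ j, ‖cc j‖ ≤ 1) →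
    (∀ j, |φ j| ≤ δ⁻¹ / (S.Q * S.D ^ s0)) →
    (∀ j, cc j ≠ 0 → |φ j - θ (j / q0)| ≤ δ⁻¹ ^ n / X) →
    δ ^ n ≤ ‖form S c 1 f0 (Fin.snoc (α := fun _ => ZMod N → ℂ) f (bphase X r cc φ))‖ →
    ∃ j, cc j ≠ 0 ∧ |φ j| ≤ δ⁻¹ ^ C / X

/-- `IG` is monotone in the slack. -/
theorem igMonoA11 {m : ℕ} {S : Sys m} {c : Fin m → ℝ} {N : ℕ} {x y : ℝ} {lam : ℕ} (hxy : x ≤ y)
    (hD : 1 ≤ S.D) (h : IG S c N x lam) : IG S c N y lam where
  good :=
    { ρ0 := h.good.ρ0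
      ρ1 := h.good.ρ1
      Q1 := h.good.Q1
      Q2 := h.good.Q2
      P1 := fun i => le_trans (mul_le_mul_of_nonneg_left
        (Real.rpow_le_rpow_of_exponent_le hD (by linarith)) (Nat.cast_nonneg _)) (h.good.P1 i)
      P2 := fun i => le_trans (h.good.P2 i) (mul_le_mul_of_nonneg_left
        (Real.rpow_le_rpow_of_exponent_le hD (by linarith)) (Nat.cast_nonneg _))
      N1 := fun i => le_trans (h.good.N1 i) (mul_le_mul_of_nonneg_left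
        (Real.rpow_le_rpow_of_exponent_le hD hxy) (Nat.cast_nonneg _))
      N2 := h.good.N2
      u1 := h.good.u1
      u2 := h.good.u2
      T1 := le_trans (Real.rpow_le_rpow_of_exponent_le hD (by linarith)) h.good.T1 }
  Q3 := le_trans h.Q3 (Real.rpow_le_rpow_of_exponent_le hD (by (clear * - hxy; linarith)))
  lam1 := h.lam1
  rho := h.rho
  Pint := h.Pint
  prime := h.prime

/-- LPP from the conclusions of alignment and localisation. -/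
theorem lpp_core' (m : ℕ) (c : Fin (m + 1) → ℝ) (s s0 : ℝ) (hs0 : 0 ≤ s0)
    (hs : s < c (Fin.last m))
    (hA : ∀ ε : ℝ, 0 < ε → AlignCm m c s ε) (hL : LocalCm m c s s0) : LPPm m c s s0 := by
  obtain ⟨ε0, hε0, hL⟩ := hL
  set ε : ℝ := min ε0 ((c (Fin.last m) - s) / 4) with hεdef
  have hε : 0 < ε := lt_min hε0 (by (clear * - hs; linarith))
  have hε1 : ε ≤ ε0 := min_le_left _ _
  have hε2 : ε ≤ (c (Fin.last m) - s) / 4 := min_le_right _ _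
  obtain ⟨xA, hxA, CA, σA, hσA, DA, hA⟩ := hA ε hε
  obtain ⟨xL, hxL, CL, σL, hσL, DL, hL⟩ := hL ε hε hε1 CA
  refine ⟨min (min xA xL) ((c (Fin.last m) - s) / 4), lt_min (lt_min hxA hxL) (by (clear * - hε hε2; linarith)),
    CL + 1, min σA σL, lt_min hσA hσL, max (max DA DL) 1, ?_⟩
  intro S N _ lam hD hG δ hδ hδ2 hlam X hQX hX1 hX2 f0 f hf0 hf r cc φ hcc hφ hlarge
  have hD1 : 1 ≤ S.D := le_trans (le_max_right _ _) hD
  have hDA : DA ≤ S.D := le_trans (le_trans (le_max_left _ _) (le_max_left _ _)) hD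
  have hDL : DL ≤ S.D := le_trans (le_trans (le_max_right _ _) (le_max_left _ _)) hD
  have hDpos : 0 < S.D := lt_of_lt_of_le one_pos hD1
  have hGA : IG S c N xA lam :=
    igMonoA11 (le_trans (min_le_left _ _) (min_le_left _ _)) hD1 hG
  have hGL : IG S c N xL lam :=
    igMonoA11 (le_trans (min_le_left _ _) (min_le_right _ _)) hD1 hG
  have hGs : IG S c N ((c (Fin.last m) - s) / 4) lam := igMonoA11 (min_le_right _ _) hD1 hG
  have hδpos : 0 < δ := lt_of_lt_of_le (Real.rpow_pos_of_pos hDpos _) hδ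
  have hδA : S.D ^ (-σA) ≤ δ := le_trans (Real.rpow_le_rpow_of_exponent_le hD1
    (neg_le_neg (min_le_left _ _))) hδ
  have hδL : S.D ^ (-σL) ≤ δ := le_trans (Real.rpow_le_rpow_of_exponent_le hD1
    (neg_le_neg (min_le_right _ _))) hδ
  have hQ1 : (1 : ℝ) ≤ S.Q := le_trans (Real.one_le_rpow hD1 (by norm_num)) hG.good.Q1
  have hXQ : (S.Q : ℝ) ≤ X := by exact_mod_cast hQX
  have hXpos : (0 : ℝ) < X := by (clear * - hδ2 hδpos hQ1 hXQ; linarith)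
  have hXA : S.Q * S.D ^ (s - σA) ≤ (X : ℝ) := le_trans (mul_le_mul_of_nonneg_left
    (Real.rpow_le_rpow_of_exponent_le hD1 (by (clear * -; linarith [min_le_left σA σL])))
    (Nat.cast_nonneg _)) hX1
  have hXL : S.Q * S.D ^ (s - σL) ≤ (X : ℝ) := le_trans (mul_le_mul_of_nonneg_left
    (Real.rpow_le_rpow_of_exponent_le hD1 (by (clear * -; linarith [min_le_right σA σL])))
    (Nat.cast_nonneg _)) hX1
  -- the choice of `q0`
  have hP : (X : ℝ) ≤ S.P (Fin.last m) * S.D ^ (-ε) := by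
    have h1 := hGs.good.P1 (Fin.last m)
    have h2 : (S.Q : ℝ) * S.D ^ s
        ≤ (S.Q * S.D ^ (c (Fin.last m) - (c (Fin.last m) - s) / 4)) * S.D ^ (-ε) := by
      rw [mul_assoc, ← Real.rpow_add hDpos]
      exact mul_le_mul_of_nonneg_left (Real.rpow_le_rpow_of_exponent_le hD1 (by (clear * - hε hε2; linarith)))
        (Nat.cast_nonneg _)
    exact le_trans hX2 (le_trans h2 (mul_le_mul_of_nonneg_right h1
      (Real.rpow_nonneg hDpos.le _)))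
  set y : ℝ := S.P (Fin.last m) * S.D ^ (-ε) / X with hy
  have hy1 : 1 ≤ y := (one_le_div hXpos).2 hP
  have hyX : y * X = S.P (Fin.last m) * S.D ^ (-ε) := div_mul_cancel₀ _ hXpos.ne'
  have hq1 : 1 ≤ ⌊y⌋₊ := Nat.le_floor (by exact_mod_cast hy1)
  have hq2 : (⌊y⌋₊ : ℝ) ≤ y := Nat.floor_le (by (clear * - hδ2 hδpos hy1; linarith))
  have hq3 : y / 2 ≤ ⌊y⌋₊ := by
    have h1 : y < ⌊y⌋₊ + 1 := Nat.lt_floor_add_one y
    have h2 : (1 : ℝ) ≤ ⌊y⌋₊ := by exact_mod_cast hq1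
    (clear * - h1 h2; linarith)
  have hXq1 : (X : ℝ) * ⌊y⌋₊ ≤ S.P (Fin.last m) * S.D ^ (-ε) := by
    rw [← hyX, mul_comm]
    exact mul_le_mul_of_nonneg_right hq2 hXpos.le
  have hXq2 : S.P (Fin.last m) * S.D ^ (-ε) / 2 ≤ (X : ℝ) * ⌊y⌋₊ := by
    rw [← hyX]
    (clear * - hq3 hXpos; nlinarith [mul_le_mul_of_nonneg_right hq3 hXpos.le])
  have hφ' : ∀ j, |φ j| ≤ δ⁻¹ / S.Q := by
    intro j
    refine (hφ j).trans ?_
    refine div_le_div_of_nonneg_left (inv_nonneg.2 hδpos.le) (by (clear * - hδ2 hδpos hQ1; linarith)) ?_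
    exact le_mul_of_one_le_right (by (clear * - hδ2 hδpos hQ1; linarith)) (Real.one_le_rpow hD1 hs0)
  by_contra hcon
  obtain ⟨cc', θ, h1, h2, h3⟩ := hA S N lam hDA hGA δ hδA hδ2 hlam X hQX hXA ⌊y⌋₊ hq1 hXq1
    f0 f hf0 hf r cc φ hcc hφ' (not_lt.1 hcon)
  have hcc' : ∀ j, ‖cc' j‖ ≤ 1 := by
    intro j
    rcases h1 j with h | h
    · rw [h]; exact hcc j
    · rw [h, norm_zero]; exact zero_le_one
  obtain ⟨j, hj1, hj2⟩ := hL S N lam hDL hGL δ hδL hδ2 hlam X hQX hXL hX2 ⌊y⌋₊ hq1 hXq2 hXq1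
    f0 f hf0 hf r cc' φ θ hcc' hφ h2 h3
  have hj3 : cc j ≠ 0 := by
    rcases h1 j with h | h
    · rwa [h] at hj1
    · exact absurd h hj1
  have h4 := le_trans (hlarge j hj3) hj2
  have h5 : δ⁻¹ ^ (CL + 1) ≤ δ⁻¹ ^ CL := by
    rwa [div_le_div_iff_of_pos_right hXpos] at h4
  have h6 : (1 : ℝ) < δ⁻¹ := by
    rw [one_lt_inv₀ hδpos]
    (clear * - hδ2 hδpos; linarith)
  have h7 : δ⁻¹ ^ CL < δ⁻¹ ^ (CL + 1) := pow_lt_pow_right₀ h6 (Nat.lt_succ_self _)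
  exact absurd h5 (not_le.2 h7)

end

end Pool.Agent.Helper67.NX2

end

section

set_option autoImplicit false

open Finset

open scoped BigOperators ComplexConjugate

namespace Pool.Agent.Helper57.NX

noncomputable section

section dla_cube

variable {N : ℕ} {k : ℕ}

theorem dla_norm_cjj (ω : Fin k → Bool) (z : ℂ) : ‖cjj ω z‖ = ‖z‖ := by
  unfold cjj
  split_ifs
  · rfl
  · exact RCLike.norm_conj z

end dla_cube

section dla_steps

variable {N : ℕ} [NeZero N] {k : ℕ}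

theorem dla_exists_y {ι : Type} {Ω : Finset ι} {F : ι → ZMod N → ℂ} {κ u : ZMod N → ℂ}
    (D : DLData Ω F κ u) (X' : ℕ) (R : (Fin k → ℕ) → (Fin k → ℕ) → ZMod N → ℂ) (δ₁ : ℝ)
    (h : δ₁ ≤ ‖𝔼 a ∈ boxset k X', 𝔼 b ∈ boxset k X', 𝔼 x : ZMod N,
      u (x + (tot a : ZMod N)) * R a b x‖) :
    ∃ y : ZMod N, δ₁ ≤ ‖𝔼 a ∈ boxset k X', 𝔼 b ∈ boxset k X', 𝔼 x : ZMod N,
      conj (𝔼 n ∈ Ω, F n (x + (tot a : ZMod N) + y)) * R a b x‖ := by
  have h1 : 𝔼 a ∈ boxset k X', 𝔼 b ∈ boxset k X', 𝔼 x : ZMod N,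
      u (x + (tot a : ZMod N)) * R a b x = ∑ y, κ y * 𝔼 a ∈ boxset k X', 𝔼 b ∈ boxset k X',
        𝔼 x : ZMod N, conj (𝔼 n ∈ Ω, F n (x + (tot a : ZMod N) + y)) * R a b x := by
    simp only [← dla_expect_sum]
    refine expect_congr rfl (fun a _ => expect_congr rfl (fun b _ => expect_congr rfl
      (fun x _ => ?_)))
    rw [D.rep, sum_mul]
    exact sum_congr rfl (fun y _ => by ring)
  rw [h1] at h
  obtain ⟨y, _, hy⟩ := (univ : Finset (ZMod N)).exists_max_image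
    (fun y => ‖𝔼 a ∈ boxset k X', 𝔼 b ∈ boxset k X', 𝔼 x : ZMod N,
      conj (𝔼 n ∈ Ω, F n (x + (tot a : ZMod N) + y)) * R a b x‖) univ_nonempty
  refine ⟨y, h.trans ((norm_sum_le _ _).trans ?_)⟩
  have h2 : ∀ z ∈ (univ : Finset (ZMod N)), ‖κ z * 𝔼 a ∈ boxset k X', 𝔼 b ∈ boxset k X',
      𝔼 x : ZMod N, conj (𝔼 n ∈ Ω, F n (x + (tot a : ZMod N) + z)) * R a b x‖ ≤
      ‖κ z‖ * ‖𝔼 a ∈ boxset k X', 𝔼 b ∈ boxset k X', 𝔼 x : ZMod N,
      conj (𝔼 n ∈ Ω, F n (x + (tot a : ZMod N) + y)) * R a b x‖ := by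
    intro z hz
    rw [norm_mul]
    exact mul_le_mul_of_nonneg_left (hy z hz) (norm_nonneg _)
  refine (sum_le_sum h2).trans ?_
  rw [← sum_mul]
  exact mul_le_of_le_one_left (norm_nonneg _) D.κ1

/-- the part of the cube which does not see some coordinate of `a` -/
def dla_rest (u : ZMod N → ℂ) (a b : Fin k → ℕ) (x : ZMod N) : ℂ :=
  ∏ ω ∈ univ.erase (fun _ : Fin k => false), cjj ω (u (x + (tot (sel ω a b) : ZMod N)))

theorem dla_cube_eq (u : ZMod N → ℂ) (a b : Fin k → ℕ) (x : ZMod N) :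
    cube u a b x = u (x + (tot a : ZMod N)) * dla_rest u a b x := by
  unfold cube dla_rest
  rw [← Finset.mul_prod_erase univ _ (mem_univ (fun _ : Fin k => false))]
  congr 1
  have h2 : sel (fun _ : Fin k => false) a b = a := by
    funext i
    simp [sel]
  rw [h2]
  unfold cjj
  simp

/-- the factor number `j` -/
def dla_B (hk : 1 ≤ k) (u : ZMod N → ℂ) (b : Fin k → ℕ) (x : ZMod N) (j : Fin k)
    (a : Fin k → ℕ) : ℂ :=
  ∏ ω ∈ (univ.erase (fun _ : Fin k => false)).filter (fun ω => dla_idx hk ω = j),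
    cjj ω (u (x + (tot (sel ω a b) : ZMod N)))

theorem dla_rest_eq (hk : 1 ≤ k) (u : ZMod N → ℂ) (a b : Fin k → ℕ) (x : ZMod N) :
    dla_rest u a b x = ∏ j, dla_B hk u b x j a := by
  unfold dla_rest dla_B
  exact (Finset.prod_fiberwise _ _ _).symm

theorem dla_B_norm (hk : 1 ≤ k) {u : ZMod N → ℂ} (hu : ∀ x, ‖u x‖ ≤ 1) (b : Fin k → ℕ)
    (x : ZMod N) (j : Fin k) (a : Fin k → ℕ) : ‖dla_B hk u b x j a‖ ≤ 1 := by
  unfold dla_B
  refine dla_norm_prod_le _ _ (fun ω _ => ?_)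
  rw [dla_norm_cjj]
  exact hu _

theorem dla_B_indep (hk : 1 ≤ k) (u : ZMod N → ℂ) (b : Fin k → ℕ) (x : ZMod N) (j : Fin k)
    (a a' : Fin k → ℕ) (h : ∀ i, i ≠ j → a i = a' i) :
    dla_B hk u b x j a = dla_B hk u b x j a' := by
  unfold dla_B
  refine prod_congr rfl (fun ω hω => ?_)
  rw [mem_filter, mem_erase] at hω
  have h1 := dla_idx_spec hk ω hω.1.1
  rw [hω.2] at h1
  have h2 : sel ω a b = sel ω a' b := by
    funext i
    unfold sel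
    by_cases hi : i = j
    · rw [hi, h1]
      simp
    · rw [h i hi]
  rw [h2]

theorem dla_prod_conj (F : ZMod N → ℂ) (g : (Fin k → ℕ) → ZMod N → ℂ) (a a' : Fin k → ℕ)
    (x y : ZMod N) :
    ∏ ω : Fin k → Bool, cjj ω (conj (F (x + (tot (sel ω a a') : ZMod N) + y)) *
      g (sel ω a a') x) = conj (cube F a a' (x + y)) * ∏ ω, cjj ω (g (sel ω a a') x) := by
  unfold cube
  rw [map_prod, ← prod_mul_distrib]
  refine prod_congr rfl (fun ω _ => ?_)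
  rw [cjj_mul, cjj_conj]
  congr 4
  ring

theorem dla_gcs_step (hk : 1 ≤ k) {ι : Type} {Ω : Finset ι} {F : ι → ZMod N → ℂ}
    {κ u : ZMod N → ℂ} (D : DLData Ω F κ u) (hu : ∀ x, ‖u x‖ ≤ 1) (X' : ℕ) (hX' : 1 ≤ X')
    (g : (Fin k → ℕ) → (Fin k → ℕ) → ZMod N → ℂ) (δ₁ : ℝ) (hδ : 0 ≤ δ₁)
    (h : δ₁ ≤ ‖𝔼 a ∈ boxset k X', 𝔼 b ∈ boxset k X', 𝔼 x : ZMod N,
      cube u a b x * g a b x‖) :
    ∃ y : ZMod N, δ₁ ^ (2 ^ k) ≤
      (𝔼 c ∈ boxset k X' ×ˢ boxset k X', 𝔼 b ∈ boxset k X', 𝔼 n ∈ Ω, 𝔼 x : ZMod N,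
        conj (cube (F n) c.1 c.2 (x + y)) * ∏ ω, cjj ω (g (sel ω c.1 c.2) b x)).re := by
  have hne : ∀ _i : Fin k, (range X').Nonempty := fun _ => ⟨0, mem_range.2 (by omega)⟩
  have h0 : δ₁ ≤ ‖𝔼 a ∈ boxset k X', 𝔼 b ∈ boxset k X', 𝔼 x : ZMod N,
      u (x + (tot a : ZMod N)) * (dla_rest u a b x * g a b x)‖ := by
    refine h.trans (le_of_eq (congrArg norm ?_))
    refine expect_congr rfl (fun a _ => expect_congr rfl (fun b _ => expect_congr rfl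
      (fun x _ => ?_)))
    rw [dla_cube_eq, mul_assoc]
  obtain ⟨y, hy⟩ := dla_exists_y D X' _ δ₁ h0
  refine ⟨y, ?_⟩
  -- rearrange
  have h1 : 𝔼 a ∈ boxset k X', 𝔼 b ∈ boxset k X', 𝔼 x : ZMod N,
      conj (𝔼 n ∈ Ω, F n (x + (tot a : ZMod N) + y)) * (dla_rest u a b x * g a b x) =
      𝔼 n ∈ Ω, 𝔼 x : ZMod N, 𝔼 b ∈ boxset k X', 𝔼 a ∈ boxset k X',
        (conj (F n (x + (tot a : ZMod N) + y)) * g a b x) * ∏ j, dla_B hk u b x j a := by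
    rw [dla_comm4]
    refine expect_congr rfl (fun a _ => expect_congr rfl (fun b _ => ?_))
    rw [expect_comm]
    refine expect_congr rfl (fun x _ => ?_)
    rw [gcs_conj_expect, expect_mul]
    refine expect_congr rfl (fun n _ => ?_)
    rw [dla_rest_eq hk]
    ring
  rw [h1] at hy
  have h2 : δ₁ ≤ 𝔼 n ∈ Ω, 𝔼 x : ZMod N, 𝔼 b ∈ boxset k X', ‖𝔼 a ∈ boxset k X',
        (conj (F n (x + (tot a : ZMod N) + y)) * g a b x) * ∏ j, dla_B hk u b x j a‖ := by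
    refine hy.trans ((dla_norm_expect_le _ _).trans (expect_le_expect (fun n _ => ?_)))
    refine (dla_norm_expect_le _ _).trans (expect_le_expect (fun x _ => ?_))
    exact dla_norm_expect_le _ _
  have h3 : δ₁ ^ (2 ^ k) ≤ 𝔼 n ∈ Ω, 𝔼 x : ZMod N, 𝔼 b ∈ boxset k X', ‖𝔼 a ∈ boxset k X',
        (conj (F n (x + (tot a : ZMod N) + y)) * g a b x) *
          ∏ j, dla_B hk u b x j a‖ ^ (2 ^ k) := by
    refine (pow_le_pow_left₀ hδ h2 _).trans ?_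
    refine (gcs_pow_expect_le _ k _ (fun n _ => expect_nonneg (fun x _ => expect_nonneg
      (fun b _ => norm_nonneg _)))).trans (expect_le_expect (fun n _ => ?_))
    refine (gcs_pow_expect_le _ k _ (fun x _ => expect_nonneg
      (fun b _ => norm_nonneg _))).trans (expect_le_expect (fun x _ => ?_))
    exact gcs_pow_expect_le _ k _ (fun b _ => norm_nonneg _)
  refine h3.trans ?_
  have h4 : ∀ n ∈ Ω, ∀ x : ZMod N, ∀ b ∈ boxset k X', ‖𝔼 a ∈ boxset k X',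
        (conj (F n (x + (tot a : ZMod N) + y)) * g a b x) *
          ∏ j, dla_B hk u b x j a‖ ^ (2 ^ k) ≤
      (𝔼 c ∈ boxset k X' ×ˢ boxset k X',
        conj (cube (F n) c.1 c.2 (x + y)) * ∏ ω, cjj ω (g (sel ω c.1 c.2) b x)).re := by
    intro n _ x b _
    refine (gcs hk (fun _ => range X') hne
      (fun a => conj (F n (x + (tot a : ZMod N) + y)) * g a b x)
      (fun j a => dla_B hk u b x j a) (fun j a => dla_B_norm hk hu b x j a)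
      (fun j a a' haa => dla_B_indep hk u b x j a a' haa)).trans (le_of_eq ?_)
    congr 1
    rw [expect_product]
    refine expect_congr rfl (fun a _ => expect_congr rfl (fun a' _ => ?_))
    exact dla_prod_conj (F n) (fun a x => g a b x) a a' x y
  refine (expect_le_expect (fun n hn => expect_le_expect (fun x _ => expect_le_expect
    (fun b hb => h4 n hn x b hb)))).trans (le_of_eq ?_)
  rw [← dla_comm4 Ω univ (boxset k X') (boxset k X' ×ˢ boxset k X')]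
  rw [gcs_re_expect]
  refine expect_congr rfl (fun n _ => ?_)
  rw [gcs_re_expect]
  refine expect_congr rfl (fun x _ => ?_)
  rw [gcs_re_expect]

end dla_steps

end

end Pool.Agent.Helper57.NX

end

section

set_option autoImplicit false

open Finset

open scoped BigOperators ComplexConjugate

namespace Pool.Agent.Helper67.NX2

open Pool.Agent.Helper57.NX

noncomputable section

section IGBasic

variable {N : ℕ} [NeZero N]

theorem stp_not (Q q : ℕ) {γ : ℝ} (h : ¬ IsN γ) : stp Q q γ = 1 := by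
  unfold stp
  rw [if_neg h]

end IGBasic

end

end Pool.Agent.Helper67.NX2

end

section

set_option autoImplicit false

open Finset

open scoped BigOperators ComplexConjugate

namespace Pool.Agent.Helper67.NX2

open Pool.Agent.Helper57.NX

noncomputable section

section dlm_steps

variable {N : ℕ} [NeZero N] {k : ℕ} {κ ι : Type} [Fintype κ]

/-- the Gowers-Cauchy-Schwarz step for one member of the family -/
theorem dlm_gcs (hk : 1 ≤ k) {Ω : Finset ι} {F : ι → ZMod N → ℂ} {u : ZMod N → ℂ}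
    (hrep : ∀ x, u x = conj (𝔼 n ∈ Ω, F n x)) (hu : ∀ x, ‖u x‖ ≤ 1) (X' : ℕ) (hX' : 1 ≤ X')
    (g : (Fin k → ℕ) → (Fin k → ℕ) → ZMod N → ℂ) :
    ‖𝔼 a ∈ boxset k X', 𝔼 b ∈ boxset k X', 𝔼 x : ZMod N, cube u a b x * g a b x‖ ^ (2 ^ k) ≤
      (𝔼 c ∈ boxset k X' ×ˢ boxset k X', 𝔼 b ∈ boxset k X', 𝔼 n ∈ Ω, 𝔼 x : ZMod N,
        conj (cube (F n) c.1 c.2 x) * ∏ ω, cjj ω (g (sel ω c.1 c.2) b x)).re := by
  have hne : ∀ _i : Fin k, (range X').Nonempty := fun _ => ⟨0, mem_range.2 (by omega)⟩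
  have h1 : 𝔼 a ∈ boxset k X', 𝔼 b ∈ boxset k X', 𝔼 x : ZMod N, cube u a b x * g a b x =
      𝔼 n ∈ Ω, 𝔼 x : ZMod N, 𝔼 b ∈ boxset k X', 𝔼 a ∈ boxset k X',
        (conj (F n (x + (tot a : ZMod N))) * g a b x) * ∏ j, dla_B hk u b x j a := by
    rw [dla_comm4]
    refine expect_congr rfl (fun a _ => expect_congr rfl (fun b _ => ?_))
    rw [expect_comm]
    refine expect_congr rfl (fun x _ => ?_)
    rw [dla_cube_eq, hrep, mul_assoc, gcs_conj_expect, expect_mul]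
    refine expect_congr rfl (fun n _ => ?_)
    rw [dla_rest_eq hk]
    ring
  rw [h1]
  have h2 : ‖𝔼 n ∈ Ω, 𝔼 x : ZMod N, 𝔼 b ∈ boxset k X', 𝔼 a ∈ boxset k X',
        (conj (F n (x + (tot a : ZMod N))) * g a b x) * ∏ j, dla_B hk u b x j a‖ ≤
      𝔼 n ∈ Ω, 𝔼 x : ZMod N, 𝔼 b ∈ boxset k X', ‖𝔼 a ∈ boxset k X',
        (conj (F n (x + (tot a : ZMod N))) * g a b x) * ∏ j, dla_B hk u b x j a‖ := by
    refine (dla_norm_expect_le _ _).trans (expect_le_expect (fun n _ => ?_))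
    refine (dla_norm_expect_le _ _).trans (expect_le_expect (fun x _ => ?_))
    exact dla_norm_expect_le _ _
  have h3 := (pow_le_pow_left₀ (norm_nonneg _) h2 (2 ^ k)).trans
    ((gcs_pow_expect_le _ k _ (fun n _ => expect_nonneg (fun x _ => expect_nonneg
      (fun b _ => norm_nonneg _)))).trans (expect_le_expect (fun n _ =>
    (gcs_pow_expect_le _ k _ (fun x _ => expect_nonneg
      (fun b _ => norm_nonneg _))).trans (expect_le_expect (fun x _ =>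
    gcs_pow_expect_le _ k _ (fun b _ => norm_nonneg _))))))
  refine h3.trans ?_
  have h4 : ∀ n ∈ Ω, ∀ x : ZMod N, ∀ b ∈ boxset k X', ‖𝔼 a ∈ boxset k X',
        (conj (F n (x + (tot a : ZMod N))) * g a b x) *
          ∏ j, dla_B hk u b x j a‖ ^ (2 ^ k) ≤
      (𝔼 c ∈ boxset k X' ×ˢ boxset k X',
        conj (cube (F n) c.1 c.2 x) * ∏ ω, cjj ω (g (sel ω c.1 c.2) b x)).re := by
    intro n _ x b _
    refine (gcs hk (fun _ => range X') hne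
      (fun a => conj (F n (x + (tot a : ZMod N))) * g a b x)
      (fun j a => dla_B hk u b x j a) (fun j a => dla_B_norm hk hu b x j a)
      (fun j a a' haa => dla_B_indep hk u b x j a a' haa)).trans (le_of_eq ?_)
    congr 1
    rw [expect_product]
    refine expect_congr rfl (fun a _ => expect_congr rfl (fun a' _ => ?_))
    have h5 := dla_prod_conj (F n) (fun a x => g a b x) a a' x 0
    simp only [add_zero] at h5
    exact h5
  refine (expect_le_expect (fun n hn => expect_le_expect (fun x _ => expect_le_expect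
    (fun b hb => h4 n hn x b hb)))).trans (le_of_eq ?_)
  rw [← dla_comm4 Ω univ (boxset k X') (boxset k X' ×ˢ boxset k X')]
  rw [gcs_re_expect]
  refine expect_congr rfl (fun n _ => ?_)
  rw [gcs_re_expect]
  refine expect_congr rfl (fun x _ => ?_)
  rw [gcs_re_expect]

/-- the Gowers-Cauchy-Schwarz step for the family -/
theorem dlm_gcs_fam (hk : 1 ≤ k) {Ω : Finset ι} {F : ι → κ → ZMod N → ℂ} {u : κ → ZMod N → ℂ}
    (hrep : ∀ i x, u i x = conj (𝔼 n ∈ Ω, F n i x)) (hu : ∀ i x, ‖u i x‖ ≤ 1) (X' : ℕ)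
    (hX' : 1 ≤ X') (g : κ → (Fin k → ℕ) → (Fin k → ℕ) → ZMod N → ℂ) (δ₁ : ℝ) (hδ : 0 ≤ δ₁)
    (h : δ₁ ≤ ‖𝔼 i, 𝔼 a ∈ boxset k X', 𝔼 b ∈ boxset k X', 𝔼 x : ZMod N,
      cube (u i) a b x * g i a b x‖) :
    δ₁ ^ (2 ^ k) ≤ 𝔼 c ∈ boxset k X' ×ˢ boxset k X', 𝔼 b ∈ boxset k X',
      (𝔼 n ∈ Ω, 𝔼 i, 𝔼 x : ZMod N,
        conj (cube (F n i) c.1 c.2 x) * ∏ ω, cjj ω (g i (sel ω c.1 c.2) b x)).re := by
  have h1 : δ₁ ^ (2 ^ k) ≤ 𝔼 i, ‖𝔼 a ∈ boxset k X', 𝔼 b ∈ boxset k X', 𝔼 x : ZMod N,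
      cube (u i) a b x * g i a b x‖ ^ (2 ^ k) := by
    refine (pow_le_pow_left₀ hδ (h.trans (dla_norm_expect_le _ _)) (2 ^ k)).trans ?_
    exact gcs_pow_expect_le _ k _ (fun i _ => norm_nonneg _)
  refine h1.trans ((expect_le_expect (fun i _ =>
    dlm_gcs hk (F := fun n => F n i) (hrep i) (hu i) X' hX' (g i))).trans (le_of_eq ?_))
  have h2 : ∀ i ∈ (univ : Finset κ), (𝔼 c ∈ boxset k X' ×ˢ boxset k X', 𝔼 b ∈ boxset k X',
      𝔼 n ∈ Ω, 𝔼 x : ZMod N,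
        conj (cube (F n i) c.1 c.2 x) * ∏ ω, cjj ω (g i (sel ω c.1 c.2) b x)).re =
      𝔼 c ∈ boxset k X' ×ˢ boxset k X', 𝔼 b ∈ boxset k X', 𝔼 n ∈ Ω, (𝔼 x : ZMod N,
        conj (cube (F n i) c.1 c.2 x) * ∏ ω, cjj ω (g i (sel ω c.1 c.2) b x)).re := by
    intro i _
    rw [gcs_re_expect]
    refine expect_congr rfl (fun c _ => ?_)
    rw [gcs_re_expect]
    refine expect_congr rfl (fun b _ => ?_)
    rw [gcs_re_expect]
  rw [expect_congr rfl h2, expect_comm]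
  refine expect_congr rfl (fun c _ => ?_)
  rw [expect_comm]
  refine expect_congr rfl (fun b _ => ?_)
  rw [expect_comm, gcs_re_expect]
  refine expect_congr rfl (fun n _ => ?_)
  rw [gcs_re_expect]

end dlm_steps

end

end Pool.Agent.Helper67.NX2

end

section

set_option autoImplicit false

open Finset

open scoped BigOperators ComplexConjugate

namespace Pool.Agent.Helper67.NX2

open Pool.Agent.Helper57.NX

noncomputable section

theorem h94_e_zero : e 0 = 1 := by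
  simp [e]

theorem h94_DP_zero (c : Fin 0 → ℝ) (ε : ℝ) (hε : 0 < ε) : DP 0 c ε := by
  refine ⟨ε / 2, by (clear * - hε; positivity), 2, ε / 4, by positivity, (4 : ℝ) ^ (4 / ε), ?_⟩
  intro S N _ hD hG δ hδ hδ1 h f0 f hh hf0 hf hform
  refine ⟨fun _ => 0, fun i => i.elim0, fun K hK1 hK2 => ?_⟩
  have h4 : (1 : ℝ) ≤ (4 : ℝ) ^ (4 / ε) := Real.one_le_rpow (by norm_num) (by (clear * - hε; positivity))
  have hD1 : 1 ≤ S.D := h4.trans hD
  have hD0 : 0 < S.D := by (clear * - hD h4; linarith)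
  exact by
    have hT : (S.D : ℝ) ^ (1 - ε / 2) ≤ S.T := hG.T1
    have hTpos : (0 : ℝ) < S.T := (Real.rpow_pos_of_pos hD0 _).trans_le hT
    have hTn : 0 < S.T := by exact_mod_cast hTpos
    have hδ0 : 0 < δ := (Real.rpow_pos_of_pos hD0 _).trans_le hδ
    have hN : (0 : ℝ) < N := by exact_mod_cast Nat.pos_of_ne_zero (NeZero.ne N)
    -- the form
    have h5 : ‖form S c h f0 f‖ ≤ ‖𝔼 k ∈ Ico S.u (S.u + S.T), h k‖ := by
      unfold form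
      have e1 : 𝔼 k ∈ S.I, h k * 𝔼 x : ZMod N, f0 x * ∏ i, f i (x + (S.a c i k : ZMod N)) =
          (𝔼 k ∈ Ico S.u (S.u + S.T), h k) * 𝔼 x : ZMod N, f0 x := by
        rw [Finset.expect_mul]
        unfold Sys.I
        simp
      rw [e1, norm_mul]
      have h6 : ‖𝔼 x : ZMod N, f0 x‖ ≤ 1 := by
        refine (RCLike.norm_expect_le (K := ℂ)).trans ?_
        refine (Finset.expect_le_expect (g := fun _ => (1 : ℝ)) fun x _ => hf0.bdd x).trans ?_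
        rw [Finset.expect_const Finset.univ_nonempty]
      calc _ ≤ ‖𝔼 k ∈ Ico S.u (S.u + S.T), h k‖ * 1 :=
            mul_le_mul_of_nonneg_left h6 (norm_nonneg _)
        _ = _ := mul_one _
    exact by
      have h7 := h94_avg h hh S.u S.T K hTn hK1
      have h8 : (𝔼 k ∈ S.I, ‖𝔼 j ∈ range K, h (k + j) *
          e (∑ i : Fin 0, (fun _ => (0 : ℝ)) i * S.P i * (S.t (k + j)) ^ (c i))‖) =
          𝔼 k ∈ Ico S.u (S.u + S.T), ‖𝔼 j ∈ range K, h (k + j)‖ := by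
        unfold Sys.I
        simp [h94_e_zero]
      rw [h8]
      have h9 : (K : ℝ) / S.T ≤ S.D ^ (-(ε / 2)) := by
        rw [div_le_iff₀ hTpos]
        calc (K : ℝ) ≤ S.D ^ (1 - ε) := hK2
          _ = S.D ^ (-(ε / 2)) * S.D ^ (1 - ε / 2) := by
            rw [← Real.rpow_add hD0]
            congr 1
            ring
          _ ≤ _ := mul_le_mul_of_nonneg_left hT (Real.rpow_nonneg hD0.le _)
      have h10 : 4 * S.D ^ (-(ε / 2)) ≤ δ := by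
        refine le_trans ?_ hδ
        have h11 : S.D ^ (-(ε / 2)) = S.D ^ (-(ε / 4)) * S.D ^ (-(ε / 4)) := by
          rw [← Real.rpow_add hD0]
          congr 1
          ring
        have h12 : S.D ^ (-(ε / 4)) ≤ 1 / 4 := by
          rw [Real.rpow_neg hD0.le, inv_le_comm₀ (Real.rpow_pos_of_pos hD0 _) (by norm_num)]
          calc (1 / 4 : ℝ)⁻¹ = 4 := by norm_num
            _ = ((4 : ℝ) ^ (4 / ε)) ^ (ε / 4) := by
              rw [← Real.rpow_mul (by norm_num)]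
              have : 4 / ε * (ε / 4) = 1 := by (clear * - hε; field_simp)
              rw [this, Real.rpow_one]
            _ ≤ _ := Real.rpow_le_rpow (by positivity) hD (by positivity)
        have h13 : 0 < S.D ^ (-(ε / 4)) := Real.rpow_pos_of_pos hD0 _
        rw [h11]
        (clear * - hδ1 hδ0 h12 h13; nlinarith)
      have h14 : 2 * (K : ℝ) / S.T ≤ δ / 2 := by
        have : 2 * (K : ℝ) / S.T = 2 * (K / S.T) := by ring
        rw [this]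
        (clear * - h9 h10; linarith)
      have h15 : δ / 2 ≤ 𝔼 k ∈ Ico S.u (S.u + S.T), ‖𝔼 j ∈ range K, h (k + j)‖ := by (clear * - hform h5 h7 h14; linarith)
      refine le_trans ?_ h15
      (clear * - hδ1 hδ0; nlinarith)

theorem h94_DPm_zero (c : Fin 0 → ℝ) (ε : ℝ) (hε : 0 < ε) : DPm 0 c ε := by
  obtain ⟨x0, hx0, C, σ, hσ, D0, h1⟩ := h94_DP_zero c ε hε
  refine ⟨x0, hx0, C, σ, hσ, D0, ?_⟩
  intro S N _ lam hD hG δ hδ hδ1 hlam h f0 f hh hf0 hf hform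
  obtain ⟨θ, h2, h3⟩ := h1 S N hD hG.good δ hδ hδ1 h f0 f hh hf0 hf hform
  have h4 : (1 : ℝ) ≤ δ⁻¹ := by
    have : (lam : ℝ) ≤ δ⁻¹ := hlam
    have h5 : (1 : ℝ) ≤ lam := by exact_mod_cast hG.lam1
    (clear * - hlam h5; linarith)
  refine ⟨1, le_rfl, ?_, θ, h2, fun K hK1 hK2 => ?_⟩
  · rw [Nat.cast_one]
    exact one_le_pow₀ h4
  · simp only [one_mul]
    exact h3 K hK1 hK2

/-- the end of the induction step -/
theorem h94_finish (m : ℕ) (c : Fin (m + 1) → ℝ)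
    (hUs : ∀ ε : ℝ, 0 < ε → UsJ m c 0 ε univ) (hDs : ∀ ε : ℝ, 0 < ε → DsPm m c 0 ε) :
    (∀ ε : ℝ, 0 < ε → UPm (m + 1) c ε) ∧ (∀ ε : ℝ, 0 < ε → DPm (m + 1) c ε) := by
  refine ⟨fun ε hε => ?_, fun ε hε => ?_⟩
  · obtain ⟨x0, hx0, C, σ, hσ, D0, h1⟩ := hUs ε hε
    refine ⟨x0, hx0, C, σ, hσ, max D0 1, ?_⟩
    intro S N _ lam hD hGood δ hδ hδ1 hlam f0 f hf0 hf hform
    have hD1 : 1 ≤ S.D := (le_max_right _ _).trans hD
    obtain ⟨q, hq1, hq2, hq3⟩ := h1 S N lam ((le_max_left _ _).trans hD) hGood δ hδ hδ1 hlam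
      (S.Q : ℝ) le_rfl (by
        calc (S.Q : ℝ) * S.D ^ (0 - σ) ≤ S.Q * 1 := by
              apply mul_le_mul_of_nonneg_left _ (Nat.cast_nonneg _)
              exact Real.rpow_le_one_of_one_le_of_nonpos hD1 (by (clear * - hσ; linarith))
          _ = _ := mul_one _) f0 f hf0 hf (hf _) hform
    exact ⟨q, hq1, hq2, fun i => hq3 i (mem_univ i)⟩
  · obtain ⟨x0, hx0, C, σ, hσ, D0, h1⟩ := hDs ε hε
    refine ⟨x0, hx0, C, σ, hσ, max D0 1, ?_⟩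
    intro S N _ lam hD hGood δ hδ hδ1 hlam h f0 f hh hf0 hf hform
    have hD1 : 1 ≤ S.D := (le_max_right _ _).trans hD
    obtain ⟨q, hq1, hq2, θ, hθ1, -, hθ3⟩ := h1 S N lam ((le_max_left _ _).trans hD) hGood δ hδ
      hδ1 hlam (S.Q : ℝ)
      le_rfl (by
        calc (S.Q : ℝ) * S.D ^ (0 - σ) ≤ S.Q * 1 := by
              apply mul_le_mul_of_nonneg_left _ (Nat.cast_nonneg _)
              exact Real.rpow_le_one_of_one_le_of_nonpos hD1 (by (clear * - hσ; linarith))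
          _ = _ := mul_one _) (by rw [Real.rpow_zero, mul_one]) h f0 f hh hf0 hf (hf _) hform
    exact ⟨q, hq1, hq2, θ, hθ1, hθ3⟩

/-- the induction, from the other modules as hypotheses -/
theorem main_mixed_of
    (hbase : ∀ (m : ℕ) (c : Fin (m + 1) → ℝ), Ex c →
      (∀ ε : ℝ, 0 < ε → DPm m (fun i => c i.castSucc) ε) →
      ∃ sb : ℝ, c (Fin.last m) - 1 / 8 ≤ sb ∧ sb < c (Fin.last m) ∧
        ∀ ε : ℝ, 0 < ε → TopPm m c sb ε)
    (hgnc : ∀ (m : ℕ) (c : Fin (m + 1) → ℝ), StrictMono c → (∀ i, 0 < c i) →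
      ¬ IsN (c (Fin.last m)) → ∀ εb : ℝ, 0 < εb →
      ∃ g0 : ℝ, 0 < g0 ∧ ∀ s : ℝ, 0 ≤ s → s ≤ c (Fin.last m) - εb → ∀ s' : ℝ, s' ≤ s + g0 →
        GNCP m c s s')
    (hgncn : ∀ (m : ℕ) (c : Fin (m + 1) → ℝ), Ex c → ∀ d : ℕ, c (Fin.last m) = d →
      ∀ εb : ℝ, 0 < εb →
      ∃ g0 : ℝ, 0 < g0 ∧ g0 ≤ 1 / 16 ∧ ∀ s : ℝ, 1 - 2 * g0 ≤ s → s ≤ d - εb →
        ∀ s' : ℝ, s' ≤ s + g0 → GNCP m c s s')
    (hus : ∀ (m : ℕ) (c : Fin (m + 1) → ℝ), Ex c → ∀ s : ℝ, 0 ≤ s →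
      (∀ ε : ℝ, 0 < ε → UPm m (fun i => c i.castSucc) ε) →
      (∀ ε : ℝ, 0 < ε → TopPm m c s ε) → ∀ ε : ℝ, 0 < ε → UsJ m c s ε univ)
    (hds : ∀ (m : ℕ) (c : Fin (m + 1) → ℝ), Ex c → ∀ s : ℝ, 0 ≤ s →
      s < c (Fin.last m) → (∀ ε : ℝ, 0 < ε → UsJ m c s ε univ) → ∀ ε : ℝ, 0 < ε → DsPm m c s ε)
    (hlpp : ∀ (m : ℕ) (c : Fin (m + 1) → ℝ), Ex c → ∀ s s0 : ℝ, 0 ≤ s0 → s0 ≤ s →
      s < c (Fin.last m) → (IsN (c (Fin.last m)) → 0 < s0) →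
      (∀ ε : ℝ, 0 < ε → TopPm m c s ε) → (∀ ε : ℝ, 0 < ε → DsPm m c s ε) → LPPm m c s s0)
    (htop : ∀ (m : ℕ) (c : Fin (m + 1) → ℝ), Ex c →
      ∀ s s' s0 ε : ℝ, 0 ≤ s → (s0 = 0 ∨ s0 < s) → s < s' → s' < c (Fin.last m) → 0 < ε →
      GNCP m c s s' → LPPm m c s' s0 → TopPm m c s' ε → TopPm m c s ε)
    (hlow : ∀ (m : ℕ) (c : Fin (m + 1) → ℝ), Ex c → ∀ d : ℕ, c (Fin.last m) = d →
      ∀ s : ℝ, 0 < s → s < 1 → (∀ ε : ℝ, 0 < ε → TopPm m c s ε) →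
      (∀ ε : ℝ, 0 < ε → DsPm m c s ε) →
      (∀ ε : ℝ, 0 < ε → UPm m (fun i => c i.castSucc) ε) →
      ∀ ε : ℝ, 0 < ε → UsJ m c 0 ε (univ.erase (Fin.last m)))
    (htopa : ∀ (m : ℕ) (c : Fin (m + 1) → ℝ), Ex c → ∀ d : ℕ, c (Fin.last m) = d →
      (∀ ε : ℝ, 0 < ε → UsJ m c 0 ε (univ.erase (Fin.last m))) →
      ∀ ε : ℝ, 0 < ε → UsJ m c 0 ε univ)
    (m : ℕ) (c : Fin m → ℝ) (hc : Ex c) :
    (∀ ε : ℝ, 0 < ε → UPm m c ε) ∧ (∀ ε : ℝ, 0 < ε → DPm m c ε) := by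
  induction m with
  | zero =>
    refine ⟨fun ε hε => ?_, fun ε hε => h94_DPm_zero c ε hε⟩
    refine ⟨1, one_pos, 0, 1, one_pos, 0, fun S N _ lam _ _ δ _ _ _ f0 f _ _ _ => ?_⟩
    exact ⟨1, le_rfl, by simp, fun i => i.elim0⟩
  | succ m ih =>
    have hcs : Ex (fun i : Fin m => c i.castSucc) :=
      ⟨fun i => hc.two _, fun i j hij => hc.gap _ _ (Fin.castSucc_lt_castSucc_iff.2 hij)⟩
    have hc0 : ∀ i, 0 < c i := fun i => by linarith [hc.two i]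
    have hmono : StrictMono c := fun i j hij => by linarith [hc.gap i j hij]
    obtain ⟨ihU, ihD⟩ := ih (fun i => c i.castSucc) hcs
    obtain ⟨sb, hsb0, hsb1, hT0⟩ := hbase m c hc ihD
    have hl2 := hc.two (Fin.last m)
    by_cases hN : IsN (c (Fin.last m))
    · obtain ⟨d, hd⟩ := hN
      obtain ⟨g0, hg0, hg1, hG⟩ := hgncn m c hc d hd (c (Fin.last m) - sb) (by (clear * - hsb1; linarith))
      have claim : ∀ j : ℕ, ∀ ε : ℝ, 0 < ε → TopPm m c (max (sb - j * g0) (1 - g0)) ε := by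
        intro j
        induction j with
        | zero =>
          intro ε hε
          have : max (sb - ((0 : ℕ) : ℝ) * g0) (1 - g0) = sb := by
            rw [Nat.cast_zero, zero_mul, sub_zero]
            exact max_eq_left (by (clear * - hsb0 hl2 hg0 hg1; linarith))
          rw [this]
          exact hT0 ε hε
        | succ j ihj =>
          intro ε hε
          exact by
            have hj0 : (0 : ℝ) ≤ j * g0 := by (clear * - hg0; positivity)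
            rcases le_or_gt (sb - j * g0) (1 - g0) with hle | hlt
            · have e1 : max (sb - (j : ℝ) * g0) (1 - g0) = 1 - g0 := max_eq_right hle
              have e2 : max (sb - ((j + 1 : ℕ) : ℝ) * g0) (1 - g0) = 1 - g0 := by
                apply max_eq_right
                push_cast
                (clear * - hg0 hle; linarith)
              rw [e2, ← e1]
              exact ihj ε hε
            · have e1 : max (sb - (j : ℝ) * g0) (1 - g0) = sb - j * g0 := max_eq_left hlt.le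
              exact by
                rw [e1] at ihj
                set s' : ℝ := sb - j * g0 with hs'
                set s : ℝ := max (sb - ((j + 1 : ℕ) : ℝ) * g0) (1 - g0) with hs
                have hs1 : s = max (s' - g0) (1 - g0) := by
                  rw [hs, hs']
                  congr 1
                  push_cast
                  ring
                have hsl0 : 1 - g0 ≤ s := le_max_right _ _
                have hs0 : 0 ≤ s := by (clear * - hg0 hg1 hsl0; linarith)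
                have hss : s < s' := by
                  rw [hs1]
                  exact max_lt (by (clear * - hg0; linarith)) hlt
                have hsl : s' < c (Fin.last m) := by (clear * - hsb1 hj0; linarith)
                have hU' := hus m c hc s' (by (clear * - hg0 hg1 hlt; linarith)) ihU ihj
                exact by
                  have hD' := hds m c hc s' (by linarith) hsl hU'
                  have hL' := hlpp m c hc s' (1 / 2) (by norm_num) (by (clear * - hg0 hg1 hlt; linarith)) hsl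
                    (fun _ => by norm_num) ihj hD'
                  refine htop m c hc s s' (1 / 2) ε hs0 (Or.inr (by (clear * - hg0 hg1 hsl0; linarith))) hss hsl hε ?_ hL'
                    (ihj ε hε)
                  refine hG s (by (clear * - hg0 hsl0; linarith)) (by (clear * - hd hj0 hss; linarith)) s' ?_
                  rw [hs1]
                  (clear * -; linarith [le_max_left (s' - g0) (1 - g0)])
      exact by
        obtain ⟨j, hj⟩ := exists_nat_ge (sb / g0)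
        have hTop : ∀ ε : ℝ, 0 < ε → TopPm m c (1 - g0) ε := by
          intro ε hε
          have h1 := claim j ε hε
          have : max (sb - (j : ℝ) * g0) (1 - g0) = 1 - g0 := by
            apply max_eq_right
            rw [div_le_iff₀ hg0] at hj
            (clear * - hg0 hg1 hj; linarith)
          rwa [this] at h1
        have hUs := hus m c hc (1 - g0) (by (clear * - hg0 hg1; linarith)) ihU hTop
        have hDs := hds m c hc (1 - g0) (by (clear * - hg0 hg1; linarith)) (by (clear * - hl2 hg0 hg1; linarith)) hUs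
        have hJ := hlow m c hc d hd (1 - g0) (by linarith) (by (clear * - hg0; linarith)) hTop hDs ihU
        have hU0 := htopa m c hc d hd hJ
        exact h94_finish m c hU0 (hds m c hc 0 le_rfl (hc0 _) hU0)
    exact by
      · obtain ⟨g0, hg0, hG⟩ := hgnc m c hmono hc0 hN (c (Fin.last m) - sb) (by linarith)
        exact by
          have claim : ∀ j : ℕ, ∀ ε : ℝ, 0 < ε → TopPm m c (max (sb - j * g0) 0) ε := by
            intro j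
            induction j with
            | zero =>
              intro ε hε
              have : max (sb - ((0 : ℕ) : ℝ) * g0) 0 = sb := by
                rw [Nat.cast_zero, zero_mul, sub_zero]
                exact max_eq_left (by linarith)
              rw [this]
              exact hT0 ε hε
            | succ j ihj =>
              intro ε hε
              have hj0 : (0 : ℝ) ≤ j * g0 := by (clear * - hg0; positivity)
              rcases le_or_gt (sb - j * g0) 0 with hle | hlt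
              · have e1 : max (sb - (j : ℝ) * g0) 0 = 0 := max_eq_right hle
                have e2 : max (sb - ((j + 1 : ℕ) : ℝ) * g0) 0 = 0 := by
                  apply max_eq_right
                  push_cast
                  (clear * - hg0 hle; linarith)
                rw [e2, ← e1]
                exact ihj ε hε
              · have e1 : max (sb - (j : ℝ) * g0) 0 = sb - j * g0 := max_eq_left hlt.le
                rw [e1] at ihj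
                set s' : ℝ := sb - j * g0 with hs'
                set s : ℝ := max (sb - ((j + 1 : ℕ) : ℝ) * g0) 0 with hs
                have hs1 : s = max (s' - g0) 0 := by
                  rw [hs, hs']
                  congr 1
                  push_cast
                  ring
                have hs0 : 0 ≤ s := le_max_right _ _
                have hss : s < s' := by
                  rw [hs1]
                  exact max_lt (by (clear * - hg0; linarith)) hlt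
                have hsl : s' < c (Fin.last m) := by (clear * - hsb1 hj0; linarith)
                have hU' := hus m c hc s' hlt.le ihU ihj
                have hD' := hds m c hc s' hlt.le hsl hU'
                have hL' := hlpp m c hc s' 0 le_rfl hlt.le hsl (fun h => absurd h hN) ihj hD'
                refine htop m c hc s s' 0 ε hs0 (Or.inl rfl) hss hsl hε ?_ hL' (ihj ε hε)
                refine hG s hs0 (by (clear * - hj0 hss; linarith)) s' ?_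
                rw [hs1]
                (clear * -; linarith [le_max_left (s' - g0) 0])
          obtain ⟨j, hj⟩ := exists_nat_ge (sb / g0)
          have hTop : ∀ ε : ℝ, 0 < ε → TopPm m c 0 ε := by
            intro ε hε
            have h1 := claim j ε hε
            have : max (sb - (j : ℝ) * g0) 0 = 0 := by
              apply max_eq_right
              rw [div_le_iff₀ hg0] at hj
              (clear * - hj; linarith)
            rwa [this] at h1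
          have hUs := hus m c hc 0 le_rfl ihU hTop
          exact h94_finish m c hUs (hds m c hc 0 le_rfl (hc0 _) hUs)

end

end Pool.Agent.Helper67.NX2

end

section

set_option autoImplicit false

open Finset

open scoped BigOperators ComplexConjugate

namespace Pool.Agent.Helper67.NX2

open Pool.Agent.Helper57.NX

lemma mg_e_add (x y : ℝ) : e (x + y) = e x * e y := by
  unfold e
  rw [← Complex.exp_add]
  congr 1
  push_cast
  ring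

lemma mg_geom (m n : ℕ) (hm : 1 ≤ m) (hn : Nat.Coprime n m) :
    ∑ c ∈ range m, e ((c : ℝ) / m * n) = if m = 1 then 1 else 0 := by
  have hm0 : (m : ℂ) ≠ 0 := by exact_mod_cast (by omega : m ≠ 0)
  have hζ := Complex.isPrimitiveRoot_exp_of_coprime n m (by omega) hn
  have h1 : ∀ c ∈ range m, e ((c : ℝ) / m * n)
      = (Complex.exp (2 * Real.pi * Complex.I * ((n : ℂ) / m))) ^ c := by
    intro c _
    unfold e
    rw [← Complex.exp_nat_mul]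
    congr 1
    push_cast
    ring
  rw [Finset.sum_congr rfl h1]
  split_ifs with h
  · subst h
    simp
  · exact hζ.geom_sum_eq_zero (by omega)

lemma mg_ramanujan (r n : ℕ) (hr : 1 ≤ r) (hn : Nat.Coprime n r) :
    ∑ c ∈ (range r).filter (fun c => Nat.Coprime c r), e ((c : ℝ) / r * n)
      = (ArithmeticFunction.moebius r : ℂ) := by
  rw [Finset.sum_filter]
  have h1 : ∀ c ∈ range r, (if Nat.Coprime c r then e ((c : ℝ) / r * n) else 0)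
      = ∑ d ∈ r.divisors, if d ∣ c then
        (ArithmeticFunction.moebius d : ℂ) * e ((c : ℝ) / r * n) else 0 := by
    intro c _
    have hg : Nat.gcd c r ≠ 0 := by
      rw [Ne, Nat.gcd_eq_zero_iff]
      omega
    rw [← Finset.sum_filter, ← Finset.sum_mul]
    have hd : r.divisors.filter (fun d => d ∣ c) = (Nat.gcd c r).divisors := by
      ext d
      simp only [Finset.mem_filter, Nat.mem_divisors]
      constructor
      · rintro ⟨⟨h1, h2⟩, h3⟩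
        exact ⟨Nat.dvd_gcd h3 h1, hg⟩
      · rintro ⟨h1, h2⟩
        exact ⟨⟨h1.trans (Nat.gcd_dvd_right _ _), by omega⟩, h1.trans (Nat.gcd_dvd_left _ _)⟩
    rw [hd, mg_moebius _]
    by_cases h : Nat.Coprime c r
    · rw [if_pos h, if_pos (Nat.coprime_iff_gcd_eq_one.1 h), one_mul]
    · rw [if_neg h, if_neg (fun h' => h (Nat.coprime_iff_gcd_eq_one.2 h')), zero_mul]
  rw [Finset.sum_congr rfl h1, Finset.sum_comm]
  have h2 : ∀ d ∈ r.divisors, (∑ c ∈ range r, if d ∣ c then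
      (ArithmeticFunction.moebius d : ℂ) * e ((c : ℝ) / r * n) else 0)
      = if d = r then (ArithmeticFunction.moebius d : ℂ) else 0 := by
    intro d hd
    rw [Nat.mem_divisors] at hd
    obtain ⟨⟨m, hm⟩, _⟩ := hd
    have hd0 : 1 ≤ d := by
      rcases Nat.eq_zero_or_pos d with h | h
      · subst h; omega
      · exact h
    have hm0 : 1 ≤ m := by
      rcases Nat.eq_zero_or_pos m with h | h
      · subst h; omega
      · exact h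
    have himg : (range r).filter (fun c => d ∣ c) = (range m).image (fun c => d * c) := by
      ext c
      simp only [Finset.mem_filter, Finset.mem_range, Finset.mem_image]
      constructor
      · rintro ⟨h1, k, rfl⟩
        refine ⟨k, ?_, rfl⟩
        rw [hm] at h1
        exact lt_of_mul_lt_mul_left h1 (Nat.zero_le _)
      · rintro ⟨k, hk, rfl⟩
        refine ⟨?_, Dvd.intro _ rfl⟩
        rw [hm]
        exact Nat.mul_lt_mul_of_pos_left hk hd0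
    rw [← Finset.sum_filter, himg, Finset.sum_image (by
      intro x _ y _ hxy
      exact Nat.eq_of_mul_eq_mul_left hd0 hxy), ← Finset.mul_sum]
    have hcop : Nat.Coprime n m := Nat.Coprime.coprime_dvd_right (Dvd.intro_left d hm.symm) hn
    have h3 : ∀ c ∈ range m, e (((d * c : ℕ) : ℝ) / r * n) = e ((c : ℝ) / m * n) := by
      intro c _
      congr 1
      have hdR : (d : ℝ) ≠ 0 := by exact_mod_cast (by omega : d ≠ 0)
      have hmR : (m : ℝ) ≠ 0 := by exact_mod_cast (by omega : m ≠ 0)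
      rw [hm]
      push_cast
      field_simp
    rw [Finset.sum_congr rfl h3, mg_geom m n hm0 hcop]
    by_cases h : m = 1
    · subst h
      rw [if_pos rfl, mul_one, if_pos (by omega)]
    · rw [if_neg h, mul_zero, if_neg]
      intro h'
      apply h
      rw [h'] at hm
      have : r * m = r * 1 := by omega
      exact Nat.eq_of_mul_eq_mul_left (by omega) this
  rw [Finset.sum_congr rfl h2, Finset.sum_ite_eq' r.divisors r]
  rw [if_pos (Nat.mem_divisors_self r (by omega))]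

theorem montgomery (r : ℕ) (hr : Squarefree r) (S : Finset ℕ) (a : ℕ → ℂ)
    (ha : ∀ n ∈ S, a n ≠ 0 → Nat.Coprime n r) (α : ℝ) :
    ‖∑ n ∈ S, a n * e (α * n)‖ ^ 2 ≤ r.totient *
      ∑ c ∈ (range r).filter (fun c => Nat.Coprime c r),
        ‖∑ n ∈ S, a n * e ((α + c / r) * n)‖ ^ 2 := by
  have hr0 : 1 ≤ r := Nat.one_le_iff_ne_zero.2 hr.ne_zero
  have hsum : ∑ c ∈ (range r).filter (fun c => Nat.Coprime c r),
      ∑ n ∈ S, a n * e ((α + c / r) * n)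
      = (ArithmeticFunction.moebius r : ℂ) * ∑ n ∈ S, a n * e (α * n) := by
    rw [Finset.sum_comm, Finset.mul_sum]
    apply Finset.sum_congr rfl
    intro n hn
    by_cases h0 : a n = 0
    · simp [h0]
    · rw [← mg_ramanujan r n hr0 (ha n hn h0), Finset.sum_mul]
      apply Finset.sum_congr rfl
      intro c _
      rw [add_mul, mg_e_add]
      ring
  have hμ : ‖(ArithmeticFunction.moebius r : ℂ)‖ = 1 := by
    rw [Complex.norm_intCast]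
    have := ArithmeticFunction.abs_moebius_eq_one_of_squarefree hr
    exact_mod_cast this
  have hcard : (((range r).filter (fun c => Nat.Coprime c r)).card : ℝ) = r.totient := by
    rw [Nat.totient_eq_card_coprime]
    congr 2
    ext c
    simp only [Finset.mem_filter]
    rw [Nat.coprime_comm]
  calc ‖∑ n ∈ S, a n * e (α * n)‖ ^ 2
      = ‖(ArithmeticFunction.moebius r : ℂ) * ∑ n ∈ S, a n * e (α * n)‖ ^ 2 := by
        rw [norm_mul, hμ, one_mul]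
    _ = ‖∑ c ∈ (range r).filter (fun c => Nat.Coprime c r),
          ∑ n ∈ S, a n * e ((α + c / r) * n)‖ ^ 2 := by rw [hsum]
    _ ≤ (∑ c ∈ (range r).filter (fun c => Nat.Coprime c r),
          ‖∑ n ∈ S, a n * e ((α + c / r) * n)‖) ^ 2 := by
        apply pow_le_pow_left₀ (norm_nonneg _)
        exact norm_sum_le _ _
    _ ≤ _ := by
        rw [← hcard]
        exact sq_sum_le_card_mul_sum_sq

end Pool.Agent.Helper67.NX2

end

section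

set_option autoImplicit false

open Finset

open scoped BigOperators ComplexConjugate

namespace Pool.Agent.Helper67.NX2.W

open Pool.Agent.Helper57.NX Pool.Agent.Helper67.NX2

theorem usJ_of_upm (m : ℕ) (c : Fin (m + 1) → ℝ) (ε : ℝ) (h : UPm (m + 1) c ε) :
    UsJ m c 0 ε univ := by
  obtain ⟨x0, hx0, C, σ, hσ, D0, H⟩ := h
  refine ⟨x0, hx0, C, σ, hσ, D0, ?_⟩
  intro S N _ lam hD hI δ h1 h2 h3 X _ _ f0 f a1 a2 _ hf
  obtain ⟨q, q1, q2, q3⟩ := H S N lam hD hI δ h1 h2 h3 f0 f a1 a2 hf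
  exact ⟨q, q1, q2, fun i _ => q3 i⟩

end Pool.Agent.Helper67.NX2.W

end

section

set_option autoImplicit false

open Finset

open scoped BigOperators ComplexConjugate

namespace Pool.Agent.Helper57.NX

noncomputable section

/-- The conclusion of `lp_align`. -/
def AlignC (m : ℕ) (c : Fin (m + 1) → ℝ) (s ε : ℝ) : Prop :=
    ∃ x0 : ℝ, 0 < x0 ∧ ∃ C : ℕ, ∃ σ : ℝ, 0 < σ ∧ ∃ D0 : ℝ,
    ∀ (S : Sys (m + 1)) (N : ℕ) [NeZero N], D0 ≤ S.D → Good S c N x0 →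
    ∀ δ : ℝ, S.D ^ (-σ) ≤ δ → δ ≤ 1 / 2 →
    ∀ X : ℕ, S.Q ≤ X → S.Q * S.D ^ (s - σ) ≤ (X : ℝ) →
    ∀ q0 : ℕ, 1 ≤ q0 → (X : ℝ) * q0 ≤ S.P (Fin.last m) * S.D ^ (-ε) →
    ∀ (f0 : ZMod N → ℂ) (f : Fin m → ZMod N → ℂ),
    Adm δ⁻¹ S.Q f0 → (∀ i, Adm δ⁻¹ S.Q (f i)) →
    ∀ (r : ZMod N) (cc : ℕ → ℂ) (φ : ℕ → ℝ), (∀ j, ‖cc j‖ ≤ 1) → (∀ j, |φ j| ≤ δ⁻¹ / S.Q) →
    δ ≤ ‖form S c 1 f0 (Fin.snoc (α := fun _ => ZMod N → ℂ) f (bphase X r cc φ))‖ →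
    ∃ (cc' : ℕ → ℂ) (θ : ℕ → ℝ), (∀ j, cc' j = cc j ∨ cc' j = 0) ∧
      (∀ j, cc' j ≠ 0 → |φ j - θ (j / q0)| ≤ δ⁻¹ ^ C / X) ∧
      δ ^ C ≤ ‖form S c 1 f0 (Fin.snoc (α := fun _ => ZMod N → ℂ) f (bphase X r cc' φ))‖

/-- The conclusion of `lp_local`. -/
def LocalC (m : ℕ) (c : Fin (m + 1) → ℝ) (s : ℝ) : Prop :=
    ∃ ε0 : ℝ, 0 < ε0 ∧ ∀ ε : ℝ, 0 < ε → ε ≤ ε0 → ∀ n : ℕ,
    ∃ x0 : ℝ, 0 < x0 ∧ ∃ C : ℕ, ∃ σ : ℝ, 0 < σ ∧ ∃ D0 : ℝ,
    ∀ (S : Sys (m + 1)) (N : ℕ) [NeZero N], D0 ≤ S.D → Good S c N x0 →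
    ∀ δ : ℝ, S.D ^ (-σ) ≤ δ → δ ≤ 1 / 2 →
    ∀ X : ℕ, S.Q ≤ X → S.Q * S.D ^ (s - σ) ≤ (X : ℝ) → (X : ℝ) ≤ S.Q * S.D ^ s →
    ∀ q0 : ℕ, 1 ≤ q0 → S.P (Fin.last m) * S.D ^ (-ε) / 2 ≤ (X : ℝ) * q0 →
      (X : ℝ) * q0 ≤ S.P (Fin.last m) * S.D ^ (-ε) →
    ∀ (f0 : ZMod N → ℂ) (f : Fin m → ZMod N → ℂ),
    Adm δ⁻¹ S.Q f0 → (∀ i, Adm δ⁻¹ S.Q (f i)) →
    ∀ (r : ZMod N) (cc : ℕ → ℂ) (φ : ℕ → ℝ) (θ : ℕ → ℝ), (∀ j, ‖cc j‖ ≤ 1) →
    (∀ j, |φ j| ≤ δ⁻¹ / S.Q) → (∀ j, cc j ≠ 0 → |φ j - θ (j / q0)| ≤ δ⁻¹ ^ n / X) →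
    δ ^ n ≤ ‖form S c 1 f0 (Fin.snoc (α := fun _ => ZMod N → ℂ) f (bphase X r cc φ))‖ →
    ∃ j, cc j ≠ 0 ∧ |φ j| ≤ δ⁻¹ ^ C / X

/-- `Good` is monotone in the slack. -/
theorem goodMono16 {m : ℕ} {S : Sys m} {c : Fin m → ℝ} {N : ℕ} {x y : ℝ} (hxy : x ≤ y)
    (hD : 1 ≤ S.D) (h : Good S c N x) : Good S c N y where
  ρ0 := h.ρ0
  ρ1 := h.ρ1
  Q1 := h.Q1
  Q2 := h.Q2
  P1 i := le_trans (mul_le_mul_of_nonneg_left
    (Real.rpow_le_rpow_of_exponent_le hD (by (clear * - hxy; linarith))) (Nat.cast_nonneg _)) (h.P1 i)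
  P2 i := le_trans (h.P2 i) (mul_le_mul_of_nonneg_left
    (Real.rpow_le_rpow_of_exponent_le hD (by linarith)) (Nat.cast_nonneg _))
  N1 i := le_trans (h.N1 i) (mul_le_mul_of_nonneg_left
    (Real.rpow_le_rpow_of_exponent_le hD hxy) (Nat.cast_nonneg _))
  N2 := h.N2
  u1 := h.u1
  u2 := h.u2
  T1 := le_trans (Real.rpow_le_rpow_of_exponent_le hD (by linarith)) h.T1

/-- LPP from the conclusions of alignment and localisation. -/
theorem lpp_core (m : ℕ) (c : Fin (m + 1) → ℝ) (s : ℝ) (hs : s < c (Fin.last m))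
    (hA : ∀ ε : ℝ, 0 < ε → AlignC m c s ε) (hL : LocalC m c s) : LPP m c s := by
  obtain ⟨ε0, hε0, hL⟩ := hL
  set ε : ℝ := min ε0 ((c (Fin.last m) - s) / 4) with hεdef
  have hε : 0 < ε := lt_min hε0 (by (clear * - hs; linarith))
  have hε1 : ε ≤ ε0 := min_le_left _ _
  have hε2 : ε ≤ (c (Fin.last m) - s) / 4 := min_le_right _ _
  obtain ⟨xA, hxA, CA, σA, hσA, DA, hA⟩ := hA ε hε
  obtain ⟨xL, hxL, CL, σL, hσL, DL, hL⟩ := hL ε hε hε1 CA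
  refine ⟨min (min xA xL) ((c (Fin.last m) - s) / 4), lt_min (lt_min hxA hxL) (by linarith),
    CL + 1, min σA σL, lt_min hσA hσL, max (max DA DL) 1, ?_⟩
  intro S N _ hD hG δ hδ hδ2 X hQX hX1 hX2 f0 f hf0 hf r cc φ hcc hφ hlarge
  have hD1 : 1 ≤ S.D := le_trans (le_max_right _ _) hD
  have hDA : DA ≤ S.D := le_trans (le_trans (le_max_left _ _) (le_max_left _ _)) hD
  have hDL : DL ≤ S.D := le_trans (le_trans (le_max_right _ _) (le_max_left _ _)) hD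
  have hDpos : 0 < S.D := lt_of_lt_of_le one_pos hD1
  have hGA : Good S c N xA := goodMono16 (le_trans (min_le_left _ _) (min_le_left _ _)) hD1 hG
  have hGL : Good S c N xL := goodMono16 (le_trans (min_le_left _ _) (min_le_right _ _)) hD1 hG
  have hGs : Good S c N ((c (Fin.last m) - s) / 4) := goodMono16 (min_le_right _ _) hD1 hG
  have hδpos : 0 < δ := lt_of_lt_of_le (Real.rpow_pos_of_pos hDpos _) hδ
  have hδA : S.D ^ (-σA) ≤ δ := le_trans (Real.rpow_le_rpow_of_exponent_le hD1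
    (neg_le_neg (min_le_left _ _))) hδ
  have hδL : S.D ^ (-σL) ≤ δ := le_trans (Real.rpow_le_rpow_of_exponent_le hD1
    (neg_le_neg (min_le_right _ _))) hδ
  have hQ1 : (1 : ℝ) ≤ S.Q := le_trans (Real.one_le_rpow hD1 (by norm_num)) hG.Q1
  have hXQ : (S.Q : ℝ) ≤ X := by exact_mod_cast hQX
  have hXpos : (0 : ℝ) < X := by (clear * - hδ2 hδpos hQ1 hXQ; linarith)
  have hXA : S.Q * S.D ^ (s - σA) ≤ (X : ℝ) := le_trans (mul_le_mul_of_nonneg_left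
    (Real.rpow_le_rpow_of_exponent_le hD1 (by (clear * -; linarith [min_le_left σA σL])))
    (Nat.cast_nonneg _)) hX1
  have hXL : S.Q * S.D ^ (s - σL) ≤ (X : ℝ) := le_trans (mul_le_mul_of_nonneg_left
    (Real.rpow_le_rpow_of_exponent_le hD1 (by (clear * -; linarith [min_le_right σA σL])))
    (Nat.cast_nonneg _)) hX1
  -- the choice of `q0`
  have hP : (X : ℝ) ≤ S.P (Fin.last m) * S.D ^ (-ε) := by
    have h1 := hGs.P1 (Fin.last m)
    have h2 : (S.Q : ℝ) * S.D ^ s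
        ≤ (S.Q * S.D ^ (c (Fin.last m) - (c (Fin.last m) - s) / 4)) * S.D ^ (-ε) := by
      rw [mul_assoc, ← Real.rpow_add hDpos]
      exact mul_le_mul_of_nonneg_left (Real.rpow_le_rpow_of_exponent_le hD1 (by (clear * - hε hε2; linarith)))
        (Nat.cast_nonneg _)
    exact le_trans hX2 (le_trans h2 (mul_le_mul_of_nonneg_right h1
      (Real.rpow_nonneg hDpos.le _)))
  set y : ℝ := S.P (Fin.last m) * S.D ^ (-ε) / X with hy
  have hy1 : 1 ≤ y := (one_le_div hXpos).2 hP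
  have hyX : y * X = S.P (Fin.last m) * S.D ^ (-ε) := div_mul_cancel₀ _ hXpos.ne'
  have hq1 : 1 ≤ ⌊y⌋₊ := Nat.le_floor (by exact_mod_cast hy1)
  have hq2 : (⌊y⌋₊ : ℝ) ≤ y := Nat.floor_le (by (clear * - hδ2 hδpos hy1; linarith))
  have hq3 : y / 2 ≤ ⌊y⌋₊ := by
    have h1 : y < ⌊y⌋₊ + 1 := Nat.lt_floor_add_one y
    have h2 : (1 : ℝ) ≤ ⌊y⌋₊ := by exact_mod_cast hq1
    (clear * - h1 h2; linarith)
  have hXq1 : (X : ℝ) * ⌊y⌋₊ ≤ S.P (Fin.last m) * S.D ^ (-ε) := by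
    rw [← hyX, mul_comm]
    exact mul_le_mul_of_nonneg_right hq2 hXpos.le
  have hXq2 : S.P (Fin.last m) * S.D ^ (-ε) / 2 ≤ (X : ℝ) * ⌊y⌋₊ := by
    rw [← hyX]
    (clear * - hq3 hXpos; nlinarith [mul_le_mul_of_nonneg_right hq3 hXpos.le])
  by_contra hcon
  obtain ⟨cc', θ, h1, h2, h3⟩ := hA S N hDA hGA δ hδA hδ2 X hQX hXA ⌊y⌋₊ hq1 hXq1 f0 f hf0 hf
    r cc φ hcc hφ (not_lt.1 hcon)
  have hcc' : ∀ j, ‖cc' j‖ ≤ 1 := by
    intro j
    rcases h1 j with h | h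
    · rw [h]; exact hcc j
    · rw [h, norm_zero]; exact zero_le_one
  obtain ⟨j, hj1, hj2⟩ := hL S N hDL hGL δ hδL hδ2 X hQX hXL hX2 ⌊y⌋₊ hq1 hXq2 hXq1 f0 f hf0 hf
    r cc' φ θ hcc' hφ h2 h3
  have hj3 : cc j ≠ 0 := by
    rcases h1 j with h | h
    · rwa [h] at hj1
    · exact absurd h hj1
  have h4 := le_trans (hlarge j hj3) hj2
  have h5 : δ⁻¹ ^ (CL + 1) ≤ δ⁻¹ ^ CL := by
    rwa [div_le_div_iff_of_pos_right hXpos] at h4
  have h6 : (1 : ℝ) < δ⁻¹ := by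
    rw [one_lt_inv₀ hδpos]
    (clear * - hδ2 hδpos; linarith)
  have h7 : δ⁻¹ ^ CL < δ⁻¹ ^ (CL + 1) := pow_lt_pow_right₀ h6 (Nat.lt_succ_self _)
  exact absurd h5 (not_le.2 h7)

end

end Pool.Agent.Helper57.NX

end

section

set_option autoImplicit false

open Finset

open scoped BigOperators ComplexConjugate

namespace Pool.Agent.Helper57.NX

noncomputable section

theorem h40_e_zero : e 0 = 1 := by
  simp [e]

theorem h40_DP_zero (c : Fin 0 → ℝ) (ε : ℝ) (hε : 0 < ε) : DP 0 c ε := by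
  refine ⟨ε / 2, by (clear * - hε; positivity), 2, ε / 4, by (clear * - hε; positivity), (4 : ℝ) ^ (4 / ε), ?_⟩
  intro S N _ hD hG δ hδ hδ1 h f0 f hh hf0 hf hform
  refine ⟨fun _ => 0, fun i => i.elim0, fun K hK1 hK2 => ?_⟩
  have h4 : (1 : ℝ) ≤ (4 : ℝ) ^ (4 / ε) := Real.one_le_rpow (by norm_num) (by (clear * - hε; positivity))
  have hD1 : 1 ≤ S.D := h4.trans hD
  have hD0 : 0 < S.D := by (clear * - hD h4; linarith)
  exact by
    have hT : (S.D : ℝ) ^ (1 - ε / 2) ≤ S.T := hG.T1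
    have hTpos : (0 : ℝ) < S.T := (Real.rpow_pos_of_pos hD0 _).trans_le hT
    have hTn : 0 < S.T := by exact_mod_cast hTpos
    have hδ0 : 0 < δ := (Real.rpow_pos_of_pos hD0 _).trans_le hδ
    have hN : (0 : ℝ) < N := by exact_mod_cast Nat.pos_of_ne_zero (NeZero.ne N)
    -- the form
    have h5 : ‖form S c h f0 f‖ ≤ ‖𝔼 k ∈ Ico S.u (S.u + S.T), h k‖ := by
      unfold form
      have e1 : 𝔼 k ∈ S.I, h k * 𝔼 x : ZMod N, f0 x * ∏ i, f i (x + (S.a c i k : ZMod N)) =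
          (𝔼 k ∈ Ico S.u (S.u + S.T), h k) * 𝔼 x : ZMod N, f0 x := by
        rw [Finset.expect_mul]
        unfold Sys.I
        simp
      rw [e1, norm_mul]
      have h6 : ‖𝔼 x : ZMod N, f0 x‖ ≤ 1 := by
        refine (RCLike.norm_expect_le (K := ℂ)).trans ?_
        refine (Finset.expect_le_expect (g := fun _ => (1 : ℝ)) fun x _ => hf0.bdd x).trans ?_
        rw [Finset.expect_const Finset.univ_nonempty]
      calc _ ≤ ‖𝔼 k ∈ Ico S.u (S.u + S.T), h k‖ * 1 :=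
            mul_le_mul_of_nonneg_left h6 (norm_nonneg _)
        _ = _ := mul_one _
    exact by
      have h7 := h40_avg h hh S.u S.T K hTn hK1
      have h8 : (𝔼 k ∈ S.I, ‖𝔼 j ∈ range K, h (k + j) *
          e (∑ i : Fin 0, (fun _ => (0 : ℝ)) i * S.P i * (S.t (k + j)) ^ (c i))‖) =
          𝔼 k ∈ Ico S.u (S.u + S.T), ‖𝔼 j ∈ range K, h (k + j)‖ := by
        unfold Sys.I
        simp [h40_e_zero]
      rw [h8]
      have h9 : (K : ℝ) / S.T ≤ S.D ^ (-(ε / 2)) := by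
        rw [div_le_iff₀ hTpos]
        calc (K : ℝ) ≤ S.D ^ (1 - ε) := hK2
          _ = S.D ^ (-(ε / 2)) * S.D ^ (1 - ε / 2) := by
            rw [← Real.rpow_add hD0]
            congr 1
            ring
          _ ≤ _ := mul_le_mul_of_nonneg_left hT (Real.rpow_nonneg hD0.le _)
      have h10 : 4 * S.D ^ (-(ε / 2)) ≤ δ := by
        refine le_trans ?_ hδ
        have h11 : S.D ^ (-(ε / 2)) = S.D ^ (-(ε / 4)) * S.D ^ (-(ε / 4)) := by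
          rw [← Real.rpow_add hD0]
          congr 1
          ring
        have h12 : S.D ^ (-(ε / 4)) ≤ 1 / 4 := by
          rw [Real.rpow_neg hD0.le, inv_le_comm₀ (Real.rpow_pos_of_pos hD0 _) (by norm_num)]
          calc (1 / 4 : ℝ)⁻¹ = 4 := by norm_num
            _ = ((4 : ℝ) ^ (4 / ε)) ^ (ε / 4) := by
              rw [← Real.rpow_mul (by norm_num)]
              have : 4 / ε * (ε / 4) = 1 := by (clear * - hε; field_simp)
              rw [this, Real.rpow_one]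
            _ ≤ _ := Real.rpow_le_rpow (by positivity) hD (by positivity)
        have h13 : 0 < S.D ^ (-(ε / 4)) := Real.rpow_pos_of_pos hD0 _
        rw [h11]
        (clear * - hδ1 hδ0 h12 h13; nlinarith)
      have h14 : 2 * (K : ℝ) / S.T ≤ δ / 2 := by
        have : 2 * (K : ℝ) / S.T = 2 * (K / S.T) := by ring
        rw [this]
        (clear * - h9 h10; linarith)
      have h15 : δ / 2 ≤ 𝔼 k ∈ Ico S.u (S.u + S.T), ‖𝔼 j ∈ range K, h (k + j)‖ := by (clear * - hform h5 h7 h14; linarith)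
      refine le_trans ?_ h15
      (clear * - hδ1 hδ0; nlinarith)

/-- the induction, from the other modules as hypotheses -/
theorem main_induction_of
    (hbase : ∀ (m : ℕ) (c : Fin (m + 1) → ℝ), StrictMono c → (∀ i, 0 < c i) →
      (∀ i (n : ℕ), c i ≠ n) → (∀ ε : ℝ, 0 < ε → DP m (fun i => c i.castSucc) ε) →
      ∃ sb : ℝ, 0 < sb ∧ sb < c (Fin.last m) ∧ ∀ ε : ℝ, 0 < ε → TopP m c sb ε)
    (hgnc : ∀ (m : ℕ) (c : Fin (m + 1) → ℝ), StrictMono c → (∀ i, 0 < c i) →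
      (∀ i (n : ℕ), c i ≠ n) → ∀ εb : ℝ, 0 < εb →
      ∃ g0 : ℝ, 0 < g0 ∧ ∀ s : ℝ, 0 ≤ s → s ≤ c (Fin.last m) - εb → ∀ s' : ℝ, s' ≤ s + g0 →
        GNCP m c s s')
    (hus : ∀ (m : ℕ) (c : Fin (m + 1) → ℝ), StrictMono c → (∀ i, 0 < c i) → ∀ s : ℝ, 0 ≤ s →
      (∀ ε : ℝ, 0 < ε → UP m (fun i => c i.castSucc) ε) →
      (∀ ε : ℝ, 0 < ε → TopP m c s ε) → ∀ ε : ℝ, 0 < ε → UsP m c s ε)
    (hds : ∀ (m : ℕ) (c : Fin (m + 1) → ℝ), (∀ i, 0 < c i) → ∀ s : ℝ, 0 ≤ s →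
      s < c (Fin.last m) → (∀ ε : ℝ, 0 < ε → UsP m c s ε) → ∀ ε : ℝ, 0 < ε → DsP m c s ε)
    (hlpp : ∀ (m : ℕ) (c : Fin (m + 1) → ℝ), StrictMono c → (∀ i, 0 < c i) →
      (∀ i (n : ℕ), c i ≠ n) → ∀ s : ℝ, 0 ≤ s → s < c (Fin.last m) →
      (∀ ε : ℝ, 0 < ε → TopP m c s ε) → (∀ ε : ℝ, 0 < ε → DsP m c s ε) → LPP m c s)
    (htop : ∀ (m : ℕ) (c : Fin (m + 1) → ℝ), StrictMono c → (∀ i, 0 < c i) →
      ∀ s s' ε : ℝ, 0 ≤ s → s < s' → s' < c (Fin.last m) → 0 < ε →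
      GNCP m c s s' → LPP m c s' → TopP m c s' ε → TopP m c s ε)
    (m : ℕ) (c : Fin m → ℝ) (hc : StrictMono c)
    (hc0 : ∀ i, 0 < c i) (hcn : ∀ i (n : ℕ), c i ≠ n) :
    (∀ ε : ℝ, 0 < ε → UP m c ε) ∧ (∀ ε : ℝ, 0 < ε → DP m c ε) := by
  induction m with
  | zero =>
    refine ⟨fun ε hε => ?_, fun ε hε => h40_DP_zero c ε hε⟩
    exact ⟨1, one_pos, 0, 1, one_pos, 0, fun S N _ _ _ δ _ _ f0 f _ _ _ i => i.elim0⟩
  | succ m ih =>
    have hcs : StrictMono (fun i : Fin m => c i.castSucc) :=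
      fun i j hij => hc (Fin.castSucc_lt_castSucc_iff.2 hij)
    obtain ⟨ihU, ihD⟩ := ih (fun i => c i.castSucc) hcs (fun i => hc0 _) (fun i n => hcn _ n)
    obtain ⟨sb, hsb0, hsb1, hT0⟩ := hbase m c hc hc0 hcn ihD
    obtain ⟨g0, hg0, hG⟩ := hgnc m c hc hc0 hcn (c (Fin.last m) - sb) (by linarith)
    have claim : ∀ j : ℕ, ∀ ε : ℝ, 0 < ε → TopP m c (max (sb - j * g0) 0) ε := by
      intro j
      induction j with
      | zero =>
        intro ε hε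
        have : max (sb - ((0 : ℕ) : ℝ) * g0) 0 = sb := by
          rw [Nat.cast_zero, zero_mul, sub_zero]
          exact max_eq_left hsb0.le
        rw [this]
        exact hT0 ε hε
      | succ j ihj =>
        intro ε hε
        have hj0 : (0 : ℝ) ≤ j * g0 := by (clear * - hg0; positivity)
        rcases le_or_gt (sb - j * g0) 0 with hle | hlt
        · have e1 : max (sb - (j : ℝ) * g0) 0 = 0 := max_eq_right hle
          have e2 : max (sb - ((j + 1 : ℕ) : ℝ) * g0) 0 = 0 := by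
            apply max_eq_right
            push_cast
            (clear * - hg0 hle; linarith)
          rw [e2, ← e1]
          exact ihj ε hε
        · have e1 : max (sb - (j : ℝ) * g0) 0 = sb - j * g0 := max_eq_left hlt.le
          rw [e1] at ihj
          set s' : ℝ := sb - j * g0 with hs'
          set s : ℝ := max (sb - ((j + 1 : ℕ) : ℝ) * g0) 0 with hs
          have hs1 : s = max (s' - g0) 0 := by
            rw [hs, hs']
            congr 1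
            push_cast
            ring
          have hs0 : 0 ≤ s := le_max_right _ _
          have hss : s < s' := by
            rw [hs1]
            exact max_lt (by (clear * - hg0; linarith)) hlt
          have hsl : s' < c (Fin.last m) := by (clear * - hsb1 hj0; linarith)
          have hU' := hus m c hc hc0 s' hlt.le ihU ihj
          have hD' := hds m c hc0 s' hlt.le hsl hU'
          have hL' := hlpp m c hc hc0 hcn s' hlt.le hsl ihj hD'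
          refine htop m c hc hc0 s s' ε hs0 hss hsl hε ?_ hL' (ihj ε hε)
          refine hG s hs0 (by (clear * - hj0 hss; linarith)) s' ?_
          rw [hs1]
          (clear * -; linarith [le_max_left (s' - g0) 0])
    obtain ⟨j, hj⟩ := exists_nat_ge (sb / g0)
    have hTop : ∀ ε : ℝ, 0 < ε → TopP m c 0 ε := by
      intro ε hε
      have h1 := claim j ε hε
      have : max (sb - (j : ℝ) * g0) 0 = 0 := by
        apply max_eq_right
        rw [div_le_iff₀ hg0] at hj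
        linarith
      rwa [this] at h1
    have hUs := hus m c hc hc0 0 le_rfl ihU hTop
    have hDs := hds m c hc0 0 le_rfl (hc0 _) hUs
    refine ⟨fun ε hε => ?_, fun ε hε => ?_⟩
    · obtain ⟨x0, hx0, C, σ, hσ, D0, h1⟩ := hUs ε hε
      refine ⟨x0, hx0, C, σ, hσ, max D0 1, ?_⟩
      intro S N _ hD hGood δ hδ hδ1 f0 f hf0 hf hform
      have hD1 : 1 ≤ S.D := (le_max_right _ _).trans hD
      refine h1 S N ((le_max_left _ _).trans hD) hGood δ hδ hδ1 (S.Q : ℝ) le_rfl ?_ f0 f hf0 hf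
        (hf _) hform
      calc (S.Q : ℝ) * S.D ^ (0 - σ) ≤ S.Q * 1 := by
            apply mul_le_mul_of_nonneg_left _ (Nat.cast_nonneg _)
            exact Real.rpow_le_one_of_one_le_of_nonpos hD1 (by (clear * - hσ; linarith))
        _ = _ := mul_one _
    · obtain ⟨x0, hx0, C, σ, hσ, D0, h1⟩ := hDs ε hε
      refine ⟨x0, hx0, C, σ, hσ, max D0 1, ?_⟩
      intro S N _ hD hGood δ hδ hδ1 h f0 f hh hf0 hf hform
      have hD1 : 1 ≤ S.D := (le_max_right _ _).trans hD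
      obtain ⟨θ, hθ1, -, hθ3⟩ := h1 S N ((le_max_left _ _).trans hD) hGood δ hδ hδ1 (S.Q : ℝ)
        le_rfl (by
          calc (S.Q : ℝ) * S.D ^ (0 - σ) ≤ S.Q * 1 := by
                apply mul_le_mul_of_nonneg_left _ (Nat.cast_nonneg _)
                exact Real.rpow_le_one_of_one_le_of_nonpos hD1 (by (clear * - hσ; linarith))
            _ = _ := mul_one _) (by rw [Real.rpow_zero, mul_one]) h f0 f hh hf0 hf (hf _) hform
      exact ⟨θ, hθ1, hθ3⟩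

end

end Pool.Agent.Helper57.NX

end
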