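import Pool.Agent.Helper23.MC.L00_a0
import Pool.Agent.Helper23.MC.L00_a1
import Pool.Agent.Helper23.MC.L00_a10
import Pool.Agent.Helper23.MC.L00_a11
import Pool.Agent.Helper23.MC.L00_a12
import Pool.Agent.Helper23.MC.L00_a13
import Pool.Agent.Helper23.MC.L00_a3
import Pool.Agent.Helper23.MC.L00_a7
import Pool.Agent.Helper23.MC.L00_a8
import Pool.Agent.Helper23.MC.L00_a9

/-!
Parts of Helper52.NX2.ArTopAux, Helper9.NX2.DlTotalBase, Helper46.NX2.ReplaceAp, Helper61.NX.PatB, Helper57.NX3.PatAlg, Helper57.NX3.PatWin, Helper57.NX3.PatSize, Helper57.NX3.PatStep, Helper57.NX3.PatUp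
-/

attribute [local instance 5000]
  Pool.Agent.Helper23.MC.Inst.rCharZero Pool.Agent.Helper23.MC.Inst.rALM
  Pool.Agent.Helper23.MC.Inst.rARM Pool.Agent.Helper23.MC.Inst.rALSM
  Pool.Agent.Helper23.MC.Inst.rARSM Pool.Agent.Helper23.MC.Inst.rARRLE
  Pool.Agent.Helper23.MC.Inst.rALRLE Pool.Agent.Helper23.MC.Inst.rARRLT
  Pool.Agent.Helper23.MC.Inst.rALRLT Pool.Agent.Helper23.MC.Inst.rPMRLT
  Pool.Agent.Helper23.MC.Inst.rMPRLT Pool.Agent.Helper23.MC.Inst.rPMM
  Pool.Agent.Helper23.MC.Inst.rMPM Pool.Agent.Helper23.MC.Inst.rPMSM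
  Pool.Agent.Helper23.MC.Inst.rMPSM Pool.Agent.Helper23.MC.Inst.rEAOL
  Pool.Agent.Helper23.MC.Inst.rIOR Pool.Agent.Helper23.MC.Inst.rISOR
  Pool.Agent.Helper23.MC.Inst.rNZD Pool.Agent.Helper23.MC.Inst.rcCharZero
  Pool.Agent.Helper23.MC.Inst.rcNZD Pool.Agent.Helper23.MC.Inst.zCharZero
  Pool.Agent.Helper23.MC.Inst.zALM Pool.Agent.Helper23.MC.Inst.zARM
  Pool.Agent.Helper23.MC.Inst.zALSM Pool.Agent.Helper23.MC.Inst.zARSM
  Pool.Agent.Helper23.MC.Inst.zIOR Pool.Agent.Helper23.MC.Inst.zISOR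
  Pool.Agent.Helper23.MC.Inst.zNZD Pool.Agent.Helper23.MC.Inst.qCharZero
  Pool.Agent.Helper23.MC.Inst.mR Pool.Agent.Helper23.MC.Inst.mC Pool.Agent.Helper23.MC.Inst.mRC
  Pool.Agent.Helper23.MC.Inst.rPSM Pool.Agent.Helper23.MC.Inst.rCSM
  Pool.Agent.Helper23.MC.Inst.cAdd Pool.Agent.Helper23.MC.Inst.cAddM
  Pool.Agent.Helper23.MC.Inst.cMul Pool.Agent.Helper23.MC.Inst.cMon

namespace Pool.Agent.Helper57.NX
end Pool.Agent.Helper57.NX

section

set_option autoImplicit false

open Finset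

open scoped BigOperators ComplexConjugate

namespace Pool.Agent.Helper67.NX2

open Pool.Agent.Helper57.NX

noncomputable section

section Tv52

variable {N : ℕ} [NeZero N]

/-- averages of the dilated block function -/
lemma nrm_dil52 {p : ℕ} [NeZero p] {Q q : ℕ} (hQ : 1 ≤ Q) (hq : 1 ≤ q) (hN : N = Q * p)
    (g : ZMod p → ℂ) (hg : ∀ z, ‖g z‖ ≤ 1) (β : ZMod p) (L : ℕ) :
    𝔼 x : ZMod N, ‖𝔼 l ∈ range L,
      g ((((x + ((Q * q * l : ℕ) : ZMod N)).val / (Q * q) : ℕ) : ZMod p) + β)‖ ≤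
      q * nrm (A L g) + (Q * q : ℝ) * L / N := by
  have hN0 : 0 < N := Nat.pos_of_ne_zero (NeZero.ne N)
  have hp0 : 0 < p := Nat.pos_of_ne_zero (NeZero.ne p)
  have hNr : (0 : ℝ) < N := by exact_mod_cast hN0
  have hpr : (0 : ℝ) < p := by exact_mod_cast hp0
  have hQr : (0 : ℝ) < Q := by exact_mod_cast hQ
  have hM : 1 ≤ Q * q := Nat.mul_pos hQ hq
  exact by
    set w : ℕ → ℝ := fun i => ‖A L g ((i : ZMod p) + β)‖ with hw
    have hw0 : ∀ i, 0 ≤ w i := fun i => norm_nonneg _
    rw [Fintype.expect_eq_sum_div_card, ZMod.card, div_le_iff₀ hNr,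
      sum_zmod_range52 (fun x : ZMod N => ‖𝔼 l ∈ range L,
        g ((((x + ((Q * q * l : ℕ) : ZMod N)).val / (Q * q) : ℕ) : ZMod p) + β)‖)]
    have h1 : ∀ n ∈ range N, ‖𝔼 l ∈ range L,
        g (((((n : ZMod N) + ((Q * q * l : ℕ) : ZMod N)).val / (Q * q) : ℕ) : ZMod p) + β)‖ ≤
        w (n / (Q * q)) + if N < n + Q * q * L then (1 : ℝ) else 0 := by
      intro n hn
      split_ifs with hc
      · have : ‖𝔼 l ∈ range L,
          g (((((n : ZMod N) + ((Q * q * l : ℕ) : ZMod N)).val / (Q * q) : ℕ) : ZMod p) + β)‖ ≤ 1 :=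
          norm_expect_le_of5 _ _ (by norm_num) fun l _ => hg _
        have := hw0 (n / (Q * q))
        linarith
      · rw [add_zero]
        exact by
          refine le_of_eq ?_
          rw [hw]
          simp only [A]
          congr 1
          refine expect_congr rfl fun l hl => ?_
          have hl' := mem_range.1 hl
          have e1 : (n : ZMod N) + ((Q * q * l : ℕ) : ZMod N) = ((n + Q * q * l : ℕ) : ZMod N) := by
            push_cast; ring
          have e2 : n + Q * q * l < N := by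
            have : Q * q * (l + 1) ≤ Q * q * L := Nat.mul_le_mul_left _ hl'
            rw [Nat.mul_succ] at this
            omega
          rw [e1, ZMod.val_natCast_of_lt e2, Nat.add_mul_div_left _ _ hM]
          congr 1
          push_cast
          ring
    refine (sum_le_sum h1).trans ?_
    rw [sum_add_distrib]
    have h2 : ∑ n ∈ range N, w (n / (Q * q)) ≤ (q * nrm (A L g)) * N := by
      have e1 : N ≤ Q * q * p := by
        rw [hN, mul_right_comm]
        exact Nat.le_mul_of_pos_right _ hq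
      refine (sum_le_sum_of_subset_of_nonneg (range_mono e1) fun _ _ _ => hw0 _).trans ?_
      rw [sum_div_range52 _ _ hM w]
      have e2 : ∑ i ∈ range p, w i = p * nrm (A L g) := by
        unfold nrm
        rw [Fintype.expect_eq_sum_div_card, ZMod.card, mul_div_cancel₀ _ hpr.ne']
        have e3 := sum_zmod_range52 (N := p) (fun z => ‖A L g (z + β)‖)
        rw [← e3]
        exact Fintype.sum_equiv (Equiv.addRight β) _ _ fun z => rfl
      rw [e2, hN]
      push_cast
      exact le_of_eq (by ring)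
    have h3 : ∑ n ∈ range N, (if N < n + Q * q * L then (1 : ℝ) else 0) ≤ (Q * q : ℝ) * L := by
      rw [← sum_filter, sum_const, nsmul_eq_mul, mul_one]
      have h4 : (range N).filter (fun n => N < n + Q * q * L) ⊆ Ico (N - Q * q * L) N := by
        intro g hg
        rw [mem_filter, mem_range] at hg
        rw [mem_Ico]
        omega
      have h5 := card_le_card h4
      rw [Nat.card_Ico] at h5
      exact_mod_cast h5.trans (by omega)
    have h4 : (q * nrm (A L g) + (Q * q : ℝ) * L / N) * N = (q * nrm (A L g)) * N + (Q * q : ℝ) * L := by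
      (clear * - hN0 hq; field_simp)
    rw [h4]
    (clear * - h2 h3; linarith)

end Tv52

end

end Pool.Agent.Helper67.NX2

end

section

set_option autoImplicit false

open Finset

open scoped BigOperators ComplexConjugate

namespace Pool.Agent.Helper67.NX2

open Pool.Agent.Helper57.NX

noncomputable section

theorem h9_cube_zero {N : ℕ} (f : ZMod N → ℂ) (a b : Fin 0 → ℕ) (x : ZMod N) :
    cube f a b x = f x := by
  unfold cube
  rw [Fintype.prod_unique]
  unfold cjj
  rw [if_pos (by simp)]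
  unfold tot
  simp

end

end Pool.Agent.Helper67.NX2

end

section

set_option autoImplicit false

open Finset

open scoped BigOperators ComplexConjugate

namespace Pool.Agent.Helper67.NX2

open Pool.Agent.Helper57.NX

noncomputable section

lemma rap_inner (z b q L x : ℕ) (h : ℕ → ℝ) (hb : b ≤ z) (hq : 1 ≤ q)
    (h1 : ∀ y, |h y| ≤ 1) (hz : ∀ y, 2 ^ z ≤ y → h y = 0) :
    |∑ a ∈ range L, h (x + q * a)| ≤
      (∑ j ∈ (range (2 ^ (z - b))).filter (fun j => x ≤ 2 ^ b * j ∧ 2 ^ b * (j + 1) ≤ x + q * L),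
        |∑ y ∈ (bl b j).filter (fun y => y % q = x % q), h y|) +
      2 * (((2 ^ b / q : ℕ) : ℝ) + 1) := by
  set J := (range (2 ^ (z - b))).filter (fun j => x ≤ 2 ^ b * j ∧ 2 ^ b * (j + 1) ≤ x + q * L)
    with hJ
  have hB : 0 < 2 ^ b := by positivity
  rw [← sum_filter_add_sum_filter_not (range L) (fun a => (x + q * a) / 2 ^ b ∈ J)]
  refine (abs_add_le _ _).trans (add_le_add ?_ ?_)
  · have e1 : ∑ a ∈ (range L).filter (fun a => (x + q * a) / 2 ^ b ∈ J), h (x + q * a) =
        ∑ j ∈ J, ∑ a ∈ (range L).filter (fun a => (x + q * a) / 2 ^ b = j), h (x + q * a) := by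
      rw [← sum_fiberwise_of_maps_to (g := fun a => (x + q * a) / 2 ^ b) (t := J)]
      · refine sum_congr rfl fun j hj => ?_
        refine sum_congr ?_ fun _ _ => rfl
        ext a
        simp only [mem_filter]
        constructor
        · rintro ⟨⟨ha, _⟩, hc⟩
          exact ⟨ha, hc⟩
        · rintro ⟨ha, hc⟩
          exact ⟨⟨ha, by rw [hc]; exact hj⟩, hc⟩
      · intro a ha
        exact (mem_filter.1 ha).2
    rw [e1]
    refine (abs_sum_le_sum_abs _ _).trans (sum_le_sum fun j hj => le_of_eq ?_)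
    congr 1
    rw [hJ, mem_filter] at hj
    obtain ⟨_, hj1, hj2⟩ := hj
    refine sum_nbij' (fun a => x + q * a) (fun y => (y - x) / q) ?_ ?_ ?_ ?_ ?_
    · intro a ha
      rw [mem_filter] at ha
      rw [mem_filter, rap_mem_bl]
      exact ⟨ha.2, by rw [Nat.add_mul_mod_self_left]⟩
    · intro y hy
      rw [mem_filter] at hy
      obtain ⟨hy1, hy2⟩ := hy
      have hy3 := hy1
      unfold bl at hy3
      rw [mem_Ico] at hy3
      have hxy : x ≤ y := hj1.trans hy3.1
      have hdvd : q ∣ y - x := (Nat.modEq_iff_dvd' hxy).1 hy2.symm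
      have hmul : q * ((y - x) / q) = y - x := Nat.mul_div_cancel' hdvd
      rw [mem_filter, mem_range]
      refine ⟨?_, ?_⟩
      · have : y - x < q * L := by omega
        rw [Nat.div_lt_iff_lt_mul (by omega), mul_comm]
        exact this
      · rw [hmul, Nat.add_sub_cancel' hxy]
        exact rap_mem_bl.1 hy1
    · intro a _
      simp only [Nat.add_sub_cancel_left]
      exact Nat.mul_div_cancel_left a (by omega)
    · intro y hy
      rw [mem_filter] at hy
      obtain ⟨hy1, hy2⟩ := hy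
      unfold bl at hy1
      rw [mem_Ico] at hy1
      have hxy : x ≤ y := hj1.trans hy1.1
      have hdvd : q ∣ y - x := (Nat.modEq_iff_dvd' hxy).1 hy2.symm
      have hmul : q * ((y - x) / q) = y - x := Nat.mul_div_cancel' hdvd
      simp only [hmul]
      omega
    · intro a _
      rfl
  · have e2 : |∑ a ∈ (range L).filter (fun a => ¬ (x + q * a) / 2 ^ b ∈ J), h (x + q * a)| ≤
        ∑ a ∈ (range L).filter (fun a => q * a < 2 ^ b) ∪
          (range L).filter (fun a => q * (L - a) < 2 ^ b), (1 : ℝ) := by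
      refine (abs_sum_le_sum_abs _ _).trans ?_
      have e3 : ∑ a ∈ (range L).filter (fun a => ¬ (x + q * a) / 2 ^ b ∈ J), |h (x + q * a)| =
          ∑ a ∈ ((range L).filter (fun a => ¬ (x + q * a) / 2 ^ b ∈ J)).filter
            (fun a => x + q * a < 2 ^ z), |h (x + q * a)| := by
        rw [sum_filter (fun a => x + q * a < 2 ^ z)]
        refine sum_congr rfl fun a _ => ?_
        by_cases hc : x + q * a < 2 ^ z
        · rw [if_pos hc]
        · rw [if_neg hc, hz _ (not_lt.1 hc), abs_zero]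
      rw [e3]
      refine (sum_le_sum fun a _ => h1 (x + q * a)).trans ?_
      refine sum_le_sum_of_subset_of_nonneg ?_ fun _ _ _ => zero_le_one
      intro a ha
      simp only [mem_filter, mem_union, mem_range] at ha ⊢
      obtain ⟨⟨haL, haJ⟩, haz⟩ := ha
      by_contra hcon
      push Not at hcon
      have hc1 : 2 ^ b ≤ q * a := by
        by_contra h'
        exact absurd (hcon.1 haL) (by omega)
      have hc2 : 2 ^ b ≤ q * (L - a) := by
        by_contra h'
        exact absurd (hcon.2 haL) (by omega)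
      apply haJ
      have hd1 := Nat.mul_div_le (x + q * a) (2 ^ b)
      have hd2 := Nat.lt_mul_div_succ (x + q * a) hB
      have hqL : q * (L - a) + q * a = q * L := by
        rw [← mul_add, Nat.sub_add_cancel haL.le]
      rw [hJ, mem_filter, mem_range]
      refine ⟨?_, ?_, ?_⟩
      · rw [Nat.div_lt_iff_lt_mul hB, ← pow_add, Nat.sub_add_cancel hb]
        exact haz
      · rw [mul_add, mul_one] at hd2
        omega
      · rw [mul_add, mul_one]
        omega
    refine e2.trans ?_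
    rw [sum_const, nsmul_eq_mul, mul_one]
    have e4 := card_union_le ((range L).filter (fun a => q * a < 2 ^ b))
      ((range L).filter (fun a => q * (L - a) < 2 ^ b))
    have e5 := rap_card1 q (2 ^ b) L hq
    have e6 := rap_card2 q (2 ^ b) L hq
    have e7 : (((range L).filter (fun a => q * a < 2 ^ b) ∪
      (range L).filter (fun a => q * (L - a) < 2 ^ b)).card : ℝ) ≤ ((2 * (2 ^ b / q + 1) : ℕ) : ℝ) := by
      exact_mod_cast (by omega)
    refine e7.trans (le_of_eq ?_)
    push_cast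
    ring

/-- sums over progressions are controlled by the sums over residue classes in blocks -/
lemma rap_core (z b q L : ℕ) (h : ℕ → ℝ) (hb : b ≤ z) (hq : 1 ≤ q) (hL : 1 ≤ L)
    (h1 : ∀ y, |h y| ≤ 1) (hz : ∀ y, 2 ^ z ≤ y → h y = 0) :
    ∑ x ∈ range (2 ^ z), |𝔼 a ∈ range L, h (x + q * a)| ≤
      (∑ j ∈ range (2 ^ (z - b)), ∑ a ∈ range q,
        |∑ y ∈ (bl b j).filter (fun y => y % q = a), h y|) +
      2 ^ z * (2 * ((2 : ℝ) ^ b / q + 1) / L) := by
  have hL0 : (0 : ℝ) < L := by exact_mod_cast hL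
  have hq0 : (0 : ℝ) < q := by exact_mod_cast hq
  have step1 : ∀ x ∈ range (2 ^ z), |𝔼 a ∈ range L, h (x + q * a)| ≤
      (L : ℝ)⁻¹ * ((∑ j ∈ (range (2 ^ (z - b))).filter
        (fun j => x ≤ 2 ^ b * j ∧ 2 ^ b * (j + 1) ≤ x + q * L),
        |∑ y ∈ (bl b j).filter (fun y => y % q = x % q), h y|) +
      2 * ((2 : ℝ) ^ b / q + 1)) := by
    intro x _
    rw [expect_eq_sum_div_card, card_range, abs_div, Nat.abs_cast, div_eq_inv_mul]
    refine mul_le_mul_of_nonneg_left ?_ (by (clear * - hL; positivity))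
    refine (rap_inner z b q L x h hb hq h1 hz).trans ?_
    gcongr
    refine Nat.cast_div_le.trans ?_
    push_cast
    exact le_rfl
  refine (sum_le_sum step1).trans ?_
  rw [← mul_sum, sum_add_distrib, sum_const, card_range, nsmul_eq_mul, mul_add]
  refine add_le_add ?_ (le_of_eq ?_)
  · rw [inv_mul_le_iff₀ hL0, mul_sum]
    simp only [sum_filter]
    rw [sum_comm]
    refine sum_le_sum fun j _ => ?_
    have e1 : ∑ x ∈ range (2 ^ z), (if x ≤ 2 ^ b * j ∧ 2 ^ b * (j + 1) ≤ x + q * L then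
        |∑ y ∈ (bl b j).filter (fun y => y % q = x % q), h y| else 0) =
        ∑ a ∈ range q, ∑ x ∈ (range (2 ^ z)).filter (fun x => x % q = a),
          (if x ≤ 2 ^ b * j ∧ 2 ^ b * (j + 1) ≤ x + q * L then
            |∑ y ∈ (bl b j).filter (fun y => y % q = x % q), h y| else 0) := by
      rw [sum_fiberwise_of_maps_to]
      intro x _
      exact mem_range.2 (Nat.mod_lt _ hq)
    have e1' := e1
    simp only [sum_filter] at e1' ⊢
    rw [e1', mul_sum]
    refine sum_le_sum fun a ha => ?_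
    have e2 : ∑ x ∈ range (2 ^ z), (if x % q = a then
          (if x ≤ 2 ^ b * j ∧ 2 ^ b * (j + 1) ≤ x + q * L then
            |∑ y ∈ bl b j, if y % q = x % q then h y else 0| else 0) else 0) =
        ∑ x ∈ ((range (2 ^ z)).filter (fun x => x % q = a)).filter
          (fun x => x ≤ 2 ^ b * j ∧ 2 ^ b * (j + 1) ≤ x + q * L),
            |∑ y ∈ bl b j, if y % q = a then h y else 0| := by
      rw [sum_filter, sum_filter]
      refine sum_congr rfl fun x _ => ?_
      by_cases hx : x % q = a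
      · rw [if_pos hx, if_pos hx, hx]
      · rw [if_neg hx, if_neg hx]
    rw [e2, sum_const, nsmul_eq_mul]
    refine mul_le_mul_of_nonneg_right ?_ (abs_nonneg _)
    exact_mod_cast rap_count q L (2 ^ b) j (2 ^ z) a hq (by positivity)
  · push_cast
    field_simp

lemma rap_nform_sub {s : ℕ} (d : Fin s → ℕ) (K u T Z : ℕ) (G : ℕ → ℝ)
    (h : Option (Fin s) → ℕ → ℝ) (o : Option (Fin s)) (v w : ℕ → ℝ) :
    nform d K u T Z G (Function.update h o v) - nform d K u T Z G (Function.update h o w) =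
      nform d K u T Z G (Function.update h o (fun x => v x - w x)) := by
  unfold nform
  rw [← expect_sub_distrib]
  refine expect_congr rfl fun k _ => ?_
  rw [← sub_div, ← sum_sub_distrib]
  congr 1
  refine sum_congr rfl fun x _ => ?_
  rw [rap_prod h o v, rap_prod h o w, rap_prod h o (fun x => v x - w x)]
  ring

/-- the form is the form of the normalised functions -/
lemma rap_form (s : ℕ) (d : Fin (s + 1) → ℕ) (K u T Z : ℕ) (G : ℕ → ℝ)
    (H : Option (Fin (s + 1)) → ℕ → ℝ) (W : ℝ) (hW : 0 < W) (hZ : 0 < Z) :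
    ‖𝔼 k ∈ Ico u (u + T), ∑ x ∈ range Z,
      rext (fun x => G x * H none x / (2 * W ^ 2)) (x : ℤ) *
        ∏ i, rext (fun x => H (some i) x / (2 * W)) ((x : ℤ) + (((K * k) ^ (d i) : ℕ) : ℤ))‖ =
      |nform d K u T Z G H| * Z / (2 * W ^ 2 * (2 * W) ^ (s + 1)) := by
  have hZ0 : (0 : ℝ) < Z := by exact_mod_cast hZ
  have e1 : ∀ k ∈ Ico u (u + T), ∑ x ∈ range Z,
      rext (fun x => G x * H none x / (2 * W ^ 2)) (x : ℤ) *
        ∏ i, rext (fun x => H (some i) x / (2 * W)) ((x : ℤ) + (((K * k) ^ (d i) : ℕ) : ℤ)) =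
      (((∑ x ∈ range Z, G x * ∏ o, H o (x + sh d (K * k) o)) / Z * (Z /
        (2 * W ^ 2 * (2 * W) ^ (s + 1))) : ℝ) : ℂ) := by
    intro k _
    rw [div_mul_div_comm, mul_comm _ (Z : ℝ), mul_div_mul_left _ _ hZ0.ne', sum_div]
    push_cast
    refine sum_congr rfl fun x _ => ?_
    rw [rext_nat]
    have e2 : ∀ i : Fin (s + 1), rext (fun x => H (some i) x / (2 * W))
        ((x : ℤ) + (((K * k) ^ (d i) : ℕ) : ℤ)) =
        ((H (some i) (x + (K * k) ^ (d i)) / (2 * W) : ℝ) : ℂ) := fun i => rext_add _ _ _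
    have e3 : ∀ i : Fin (s + 1), rext (fun x => H (some i) x / (2 * W))
        ((x : ℤ) + ((K : ℤ) * (k : ℤ)) ^ (d i)) =
        ((H (some i) (x + (K * k) ^ (d i)) / (2 * W) : ℝ) : ℂ) := by
      intro i
      rw [← e2 i]
      push_cast
      rfl
    rw [Fintype.prod_option]
    simp only [e3]
    push_cast
    rw [prod_div_distrib, prod_const, card_univ, Fintype.card_fin]
    simp only [sh, Nat.add_zero]
    field_simp
  rw [expect_congr rfl e1, expect_ofReal46, Complex.norm_real, Real.norm_eq_abs, ← expect_mul,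
    abs_mul, abs_of_nonneg (by (clear * - hZ hW; positivity) : (0 : ℝ) ≤ Z / (2 * W ^ 2 * (2 * W) ^ (s + 1)))]
  unfold nform
  ring

lemma rap_sum_some (z b q C : ℕ) (W : ℝ) (F : ℕ → ℝ) (hW : 2 ≤ W)
    (h : ∑ j ∈ range (2 ^ (z - b)), ∑ a ∈ range q,
        |∑ x ∈ (bl b j).filter (fun x => x % q = a), F x| ≤ 2 ^ z / W ^ C) :
    ∑ j ∈ range (2 ^ (z - b)), ∑ a ∈ range q,
        |∑ x ∈ (bl b j).filter (fun x => x % q = a), F x / (2 * W)| ≤ 2 ^ z / (4 * W ^ C) := by
  have hW0 : 0 < W := by (clear * - hW; linarith)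
  simp only [← sum_div, abs_div, abs_of_pos (by (clear * - hW; linarith) : 0 < 2 * W)]
  rw [div_le_iff₀ (by (clear * - hW; linarith))]
  refine h.trans ?_
  rw [div_mul_eq_mul_div, div_le_div_iff₀ (by positivity) (by positivity)]
  have h1 : (0 : ℝ) < 2 ^ z * W ^ C := by positivity
  (clear * - hW h1; nlinarith)

lemma rap_sum_none (z b q C : ℕ) (W D γ ε : ℝ) (F G : ℕ → ℝ) (hW : 2 ≤ W) (hD : 1 ≤ D)
    (hb : b ≤ z) (hbD : (2 : ℝ) ^ b ≤ D ^ (γ - 2 * ε)) (hq : 1 ≤ q)
    (hF : ∀ x, |F x| ≤ 2 * W) (hG : ∀ x, |G x| ≤ W)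
    (hGl : ∀ x t : ℕ, |G (x + t) - G x| ≤ W * t / D ^ (γ - ε))
    (h : ∑ j ∈ range (2 ^ (z - b)), ∑ a ∈ range q,
        |∑ x ∈ (bl b j).filter (fun x => x % q = a), F x| ≤ 2 ^ z / W ^ C) :
    ∑ j ∈ range (2 ^ (z - b)), ∑ a ∈ range q,
        |∑ x ∈ (bl b j).filter (fun x => x % q = a), G x * F x / (2 * W ^ 2)| ≤
      2 ^ z / (4 * W ^ C) + 2 ^ z * D ^ (-ε) := by
  have hW0 : 0 < W := by (clear * - hW; linarith)
  have hD0 : 0 < D := by (clear * - hD; linarith)
  simp only [← sum_div, abs_div, abs_of_pos (by positivity : 0 < 2 * W ^ 2)]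
  rw [div_le_iff₀ (by positivity)]
  have hrat : (2 : ℝ) ^ b / D ^ (γ - ε) ≤ D ^ (-ε) := by
    rw [div_le_iff₀ (Real.rpow_pos_of_pos hD0 _), ← Real.rpow_add hD0]
    refine hbD.trans (le_of_eq ?_)
    congr 1
    ring
  have hin : ∀ j ∈ range (2 ^ (z - b)), ∑ a ∈ range q,
      |∑ x ∈ (bl b j).filter (fun x => x % q = a), G x * F x| ≤
      (∑ a ∈ range q, W * |∑ x ∈ (bl b j).filter (fun x => x % q = a), F x|) +
        2 ^ b * (2 * W ^ 2 * D ^ (-ε)) := by
    intro j _
    have e0 : ∑ a ∈ range q, ∑ x ∈ (bl b j).filter (fun x => x % q = a),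
        (2 * W ^ 2 * D ^ (-ε)) = 2 ^ b * (2 * W ^ 2 * D ^ (-ε)) := by
      rw [sum_fiberwise_of_maps_to (fun x _ => mem_range.2 (Nat.mod_lt _ hq)), sum_const,
        nsmul_eq_mul]
      congr 1
      unfold bl
      rw [Nat.card_Ico]
      have : 2 ^ b * (j + 1) - 2 ^ b * j = 2 ^ b := by
        rw [mul_add, mul_one, Nat.add_sub_cancel_left]
      rw [this]
      push_cast
      rfl
    rw [← e0, ← sum_add_distrib]
    refine sum_le_sum fun a _ => ?_
    have e1 : ∑ x ∈ (bl b j).filter (fun x => x % q = a), G x * F x =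
        G (2 ^ b * j) * ∑ x ∈ (bl b j).filter (fun x => x % q = a), F x +
        ∑ x ∈ (bl b j).filter (fun x => x % q = a), (G x - G (2 ^ b * j)) * F x := by
      rw [mul_sum, ← sum_add_distrib]
      refine sum_congr rfl fun x _ => ?_
      ring
    rw [e1]
    refine (abs_add_le _ _).trans (add_le_add ?_ ?_)
    · rw [abs_mul]
      exact mul_le_mul_of_nonneg_right (hG _) (abs_nonneg _)
    · refine (abs_sum_le_sum_abs _ _).trans (sum_le_sum fun x hx => ?_)
      rw [mem_filter] at hx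
      have hx1 := hx.1
      unfold bl at hx1
      rw [mem_Ico] at hx1
      have h1 := hGl (2 ^ b * j) (x - 2 ^ b * j)
      rw [Nat.add_sub_cancel' hx1.1] at h1
      have h2 : ((x - 2 ^ b * j : ℕ) : ℝ) ≤ 2 ^ b := by
        have h3 : x - 2 ^ b * j ≤ 2 ^ b := by
          have := hx1.2
          rw [mul_add, mul_one] at this
          omega
        exact_mod_cast h3
      have h3 : |G x - G (2 ^ b * j)| ≤ W * D ^ (-ε) := by
        refine h1.trans ?_
        rw [mul_div_assoc]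
        refine mul_le_mul_of_nonneg_left (le_trans ?_ hrat) hW0.le
        exact div_le_div_of_nonneg_right h2 (Real.rpow_nonneg hD0.le _)
      rw [abs_mul]
      refine (mul_le_mul h3 (hF x) (abs_nonneg _)
        (mul_nonneg hW0.le (Real.rpow_nonneg hD0.le _))).trans (le_of_eq ?_)
      ring
  refine (sum_le_sum hin).trans ?_
  rw [sum_add_distrib, sum_const, card_range, nsmul_eq_mul, add_mul]
  simp only [← mul_sum]
  refine add_le_add ?_ (le_of_eq ?_)
  · refine (mul_le_mul_of_nonneg_left h hW0.le).trans ?_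
    rw [← mul_div_assoc, div_mul_eq_mul_div, div_le_div_iff₀ (by positivity) (by positivity)]
    have h1 : (0 : ℝ) < 2 ^ z * W ^ C := by positivity
    have h2 : W * 2 ^ z * (4 * W ^ C) = 2 ^ z * W ^ C * (4 * W) := by ring
    have h3 : 2 ^ z * (2 * W ^ 2) * W ^ C = 2 ^ z * W ^ C * (2 * W ^ 2) := by ring
    rw [h2, h3]
    refine mul_le_mul_of_nonneg_left ?_ h1.le
    (clear * - hW; nlinarith)
  · have h1 : ((2 ^ (z - b) : ℕ) : ℝ) * 2 ^ b = 2 ^ z := by
      push_cast
      rw [← pow_add, Nat.sub_add_cancel hb]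
    rw [← mul_assoc, h1]
    ring

theorem replace_ap_of (s : ℕ) (d : Fin (s + 1) → ℕ) (hP : ThmPC s d) (hd2 : ∀ i, 2 ≤ d i)
    (γ ε : ℝ) (hγ : 1 ≤ γ) (hγd : γ ≤ d 0) (hε : 0 < ε) (hε' : ε ≤ 1 / 8) :
    ∃ x0 : ℝ, 0 < x0 ∧ ∃ C : ℕ, ∃ σ : ℝ, 0 < σ ∧ ∃ D0 : ℝ,
    ∀ (D : ℝ) (K u T z : ℕ), D0 ≤ D → D ≤ u → (u : ℝ) + T ≤ 2 * D → D ^ (1 - x0) ≤ T → 1 ≤ K →
    (∀ i, ((K : ℝ) * (3 * D)) ^ (d i) ≤ (2 : ℝ) ^ z) →
    ∀ W : ℝ, 2 ≤ W → W ≤ D ^ σ → (K : ℝ) ≤ W →
    ∀ (G : ℕ → ℝ) (f g : Option (Fin (s + 1)) → ℕ → ℝ), (∀ x, |G x| ≤ W) →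
    (∀ x t : ℕ, |G (x + t) - G x| ≤ W * t / D ^ (γ - ε)) →
    (∀ o x, |f o x| ≤ W ∧ |g o x| ≤ W) → (∀ o x, 2 ^ z ≤ x → f o x = 0 ∧ g o x = 0) →
    ∀ b : Option (Fin (s + 1)) → ℕ, BlkLen d γ ε D b →
    (∀ o, ∀ q : ℕ, 1 ≤ q → (q : ℝ) ≤ W ^ C →
      ∑ j ∈ range (2 ^ (z - b o)), ∑ a ∈ range q,
        |∑ x ∈ (bl (b o) j).filter (fun x => x % q = a), (f o x - g o x)| ≤
          2 ^ z / W ^ C) →
    |nform d K u T (2 ^ z) G f - nform d K u T (2 ^ z) G g| ≤ 1 / W := by
  obtain ⟨x0, hx0, C', σ', hσ', D0', HP⟩ := hP ε hε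
  set A : ℕ := 3 * s + 8 with hA
  have hA0 : (0 : ℝ) < A := by rw [hA]; (clear * -; positivity)
  refine ⟨x0, hx0, A * C', min (σ' / A) (ε / (8 * ((A * C' : ℕ) + 1))),
    lt_min (by (clear * - hσ'; positivity)) (by (clear * - hε; positivity)), max (max D0' 1) (13 ^ (4 / ε)), ?_⟩
  intro D K u T z hD hu1 hu2 hT hK hKz W hW2 hWσ hKW G f g hG hGl hfg hfg0 b hb hsum
  have hDD : D0' ≤ D := ((le_max_left _ _).trans (le_max_left _ _)).trans hD
  have hD1 : 1 ≤ D := ((le_max_right _ _).trans (le_max_left _ _)).trans hD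
  have hD13 : (13 : ℝ) ^ (4 / ε) ≤ D := (le_max_right _ _).trans hD
  have hD0 : 0 < D := by (clear * - hε hε' hD1; linarith)
  exact by
    have hW0 : 0 < W := by (clear * - hε hε' hW2; linarith)
    have hW1 : 1 ≤ W := by (clear * - hε hε' hW2; linarith)
    have hDbig : 13 ≤ D ^ (ε / 4) := by
      have h1 := Real.rpow_le_rpow (by positivity) hD13 (by positivity : 0 ≤ ε / 4)
      rw [← Real.rpow_mul (by norm_num)] at h1
      have h2 : 4 / ε * (ε / 4) = 1 := by field_simp
      rwa [h2, Real.rpow_one] at h1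
    -- sizes of powers of W
    have hWA : W ^ A ≤ D ^ σ' := by
      have h1 : W ≤ D ^ (σ' / A) := hWσ.trans
        (Real.rpow_le_rpow_of_exponent_le hD1 (min_le_left _ _))
      have h2 := pow_le_pow_left₀ hW0.le h1 A
      rw [← Real.rpow_natCast (D ^ (σ' / A)) A, ← Real.rpow_mul hD0.le,
        div_mul_cancel₀ _ hA0.ne'] at h2
      exact h2
    have hWC : W ^ (A * C') ≤ D ^ (ε / 8) := by
      have h1 : W ≤ D ^ (ε / (8 * ((A * C' : ℕ) + 1))) := hWσ.trans
        (Real.rpow_le_rpow_of_exponent_le hD1 (min_le_right _ _))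
      have h2 := pow_le_pow_left₀ hW0.le h1 (A * C')
      rw [← Real.rpow_natCast (D ^ (ε / (8 * ((A * C' : ℕ) + 1)))) (A * C'),
        ← Real.rpow_mul hD0.le] at h2
      refine h2.trans (Real.rpow_le_rpow_of_exponent_le hD1 ?_)
      rw [div_mul_eq_mul_div, div_le_div_iff₀ (by (clear * -; positivity)) (by norm_num)]
      have h3 : (0 : ℝ) ≤ ((A * C' : ℕ) : ℝ) := Nat.cast_nonneg _
      (clear * - hε; nlinarith)
    -- the step
    have step : ∀ (S : Finset (Option (Fin (s + 1)))) (o : Option (Fin (s + 1))),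
        |nform d K u T (2 ^ z) G (Function.update (fun o' => if o' ∈ S then g o' else f o') o
          (fun x => f o x - g o x))| ≤ 1 / (W * (s + 2)) := by
      intro S o
      by_contra hcon
      rw [not_le] at hcon
      set H := Function.update (fun o' => if o' ∈ S then g o' else f o') o
          (fun x => f o x - g o x) with hH
      have hHo : H o = fun x => f o x - g o x := by rw [hH, Function.update_self]
      have hHb : ∀ o' x, |H o' x| ≤ 2 * W := by
        intro o' x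
        by_cases ho : o' = o
        · subst ho
          rw [hHo]
          have := abs_sub (f o' x) (g o' x)
          have := (hfg o' x).1
          have := (hfg o' x).2
          linarith
        · rw [hH, Function.update_of_ne ho]
          split_ifs
          · (clear * - hε hε' hW2 hfg; linarith [(hfg o' x).2])
          · (clear * - hε hε' hW2 hfg; linarith [(hfg o' x).1])
      have hHz : ∀ o' x, 2 ^ z ≤ x → H o' x = 0 := by
        intro o' x hx
        by_cases ho : o' = o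
        · subst ho
          rw [hHo]
          simp [(hfg0 o' x hx).1, (hfg0 o' x hx).2]
        · rw [hH, Function.update_of_ne ho]
          split_ifs
          · exact (hfg0 o' x hx).2
          · exact (hfg0 o' x hx).1
      -- normalised functions
      have hn0 : ∀ x, |G x * H none x / (2 * W ^ 2)| ≤ 1 := by
        intro x
        rw [abs_div, abs_of_pos (by positivity : 0 < 2 * W ^ 2), div_le_one (by positivity), abs_mul]
        refine (mul_le_mul (hG x) (hHb none x) (abs_nonneg _) hW0.le).trans (le_of_eq ?_)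
        ring
      have hn1 : ∀ i x, |H (some i) x / (2 * W)| ≤ 1 := by
        intro i x
        rw [abs_div, abs_of_pos (by positivity : 0 < 2 * W), div_le_one (by positivity)]
        exact hHb _ _
      have hz0 : ∀ x, 2 ^ z ≤ x → G x * H none x / (2 * W ^ 2) = 0 := by
        intro x hx
        rw [hHz none x hx]
        simp
      have hz1 : ∀ i x, 2 ^ z ≤ x → H (some i) x / (2 * W) = 0 := by
        intro i x hx
        rw [hHz (some i) x hx]
        simp
      have hform := rap_form s d K u T (2 ^ z) G H W hW0 (by positivity)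
      -- δ
      set δ : ℝ := (W ^ A)⁻¹ with hδ
      have hδ1 : D ^ (-σ') ≤ δ := by
        rw [hδ, Real.rpow_neg hD0.le]
        exact inv_anti₀ (by positivity) hWA
      have hδ2 : δ ≤ 1 / 2 := by
        rw [hδ, one_div]
        refine inv_anti₀ (by norm_num) (hW2.trans ?_)
        exact le_self_pow₀ hW1 (by omega)
      have hδi : δ⁻¹ = W ^ A := by rw [hδ, inv_inv]
      have hlam : (K : ℝ) ≤ δ⁻¹ := by
        rw [hδi]
        exact hKW.trans (le_self_pow₀ hW1 (by omega))
      have hlow : δ * ((2 ^ z : ℕ) : ℝ) ≤ |nform d K u T (2 ^ z) G H| * ((2 ^ z : ℕ) : ℝ) /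
          (2 * W ^ 2 * (2 * W) ^ (s + 1)) := by
        rw [mul_div_right_comm]
        refine mul_le_mul_of_nonneg_right ?_ (Nat.cast_nonneg _)
        rw [le_div_iff₀ (by (clear * - hW2; positivity))]
        refine le_trans ?_ hcon.le
        rw [le_div_iff₀ (by (clear * - hW2; positivity)), hδ, mul_assoc, inv_mul_le_iff₀ (by positivity), mul_one]
        have k1 : 2 * W ^ 2 ≤ W ^ 3 := by
          have : W ^ 3 = W * W ^ 2 := by ring
          rw [this]
          exact mul_le_mul_of_nonneg_right hW2 (by positivity)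
        have k2 : (2 * W) ^ (s + 1) ≤ W ^ (2 * s + 2) := by
          have : W ^ (2 * s + 2) = (W * W) ^ (s + 1) := by
            rw [← sq, ← pow_mul, mul_add, mul_one]
          rw [this]
          exact pow_le_pow_left₀ (by positivity) (mul_le_mul_of_nonneg_right hW2 hW0.le) _
        have k3 : (s : ℝ) + 2 ≤ W ^ (s + 2) := by
          have h1 : s + 2 < 2 ^ (s + 2) := Nat.lt_two_pow_self
          have h2 : ((s + 2 : ℕ) : ℝ) ≤ ((2 ^ (s + 2) : ℕ) : ℝ) := by exact_mod_cast h1.le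
          push_cast at h2
          exact h2.trans (pow_le_pow_left₀ (by norm_num) hW2 _)
        have k4 : W ^ A = W ^ 3 * W ^ (2 * s + 2) * (W * W ^ (s + 2)) := by
          rw [← pow_succ', ← pow_add, ← pow_add]
          congr 1
          omega
        rw [k4]
        exact mul_le_mul (mul_le_mul k1 k2 (by positivity) (by positivity))
          (mul_le_mul_of_nonneg_left k3 hW0.le) (by (clear * - hW2; positivity)) (by positivity)
      obtain ⟨q, hq1, hqC, hq0, hqi⟩ := HP D K u T (2 ^ z) hDD hu1 hu2 hT hK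
        (by intro i; push_cast; exact hKz i) δ hδ1 hδ2 hlam
        (rext (fun x => G x * H none x / (2 * W ^ 2)))
        (fun i => rext (fun x => H (some i) x / (2 * W)))
        (norm_rext _ hn0) (fun i => norm_rext _ (hn1 i))
        (fun x hx => ⟨rext_zero _ _ hz0 x (by exact_mod_cast hx),
          fun i => rext_zero _ _ (hz1 i) x (by exact_mod_cast hx)⟩)
        (by rw [hform]; exact hlow)
      have hqW : (q : ℝ) ≤ W ^ (A * C') := by
        rw [hδi, ← pow_mul] at hqC
        exact hqC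
      have hqD : (q : ℝ) ≤ D ^ (ε / 8) := hqW.trans hWC
      have hδC : δ ^ C' = (W ^ (A * C'))⁻¹ := by
        rw [hδ, inv_pow, ← pow_mul]
      have hK1 : (1 : ℝ) ≤ K := by exact_mod_cast hK
      have hDi : ∀ (e : ℝ) (i : Fin (s + 1)), e ≤ d i → D ^ (e - 2 * ε) ≤ (2 : ℝ) ^ z := by
        intro e i he
        refine le_trans ?_ (hKz i)
        rw [← Real.rpow_natCast (K * (3 * D)) (d i)]
        have h1 : D ^ (e - 2 * ε) ≤ D ^ ((d i : ℕ) : ℝ) :=
          Real.rpow_le_rpow_of_exponent_le hD1 (by (clear * - hε he; linarith))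
        refine h1.trans (Real.rpow_le_rpow hD0.le ?_ (Nat.cast_nonneg _))
        (clear * - hε hε' hu1 hD1 hK1 hu2; nlinarith)
      have hbz : ∀ (e : ℝ) (i : Fin (s + 1)) (b' : ℕ), e ≤ d i → (2 : ℝ) ^ b' ≤ D ^ (e - 2 * ε) →
          b' ≤ z := by
        intro e i b' he hb'
        have h1 := hb'.trans (hDi e i he)
        exact (pow_le_pow_iff_right₀ (by norm_num : (1 : ℝ) < 2)).1 h1
      have hHb' : ∀ x, |f o x - g o x| ≤ 2 * W := by
        intro x
        have := hHb o x
        rwa [hHo] at this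
      cases o with
      | none =>
        obtain ⟨⟨_, hbD⟩, _⟩ := hb
        exact by
          obtain ⟨hL1, hL2, hL3⟩ := rap_err D γ ε hD1 hγ hε hε' (b none) q hbD hq1 hqD
          set L := ⌊D ^ (γ - 3 * ε / 2) / q⌋₊ with hL
          have hbz' := hbz γ 0 (b none) hγd hbD
          have h1 := hq0 L hL1 (hL2.trans (Real.rpow_le_rpow_of_exponent_le hD1 (by (clear * - hγd hε; linarith))))
          rw [rap_sum_expect, hδC] at h1
          have h2 := rap_core z (b none) q L (fun x => G x * H none x / (2 * W ^ 2)) hbz' hq1 hL1 hn0 hz0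
          have h3 := rap_sum_none z (b none) q (A * C') W D γ ε (fun x => f none x - g none x) G hW2 hD1
            hbz' hbD hq1 hHb' hG hGl (hsum none q hq1 hqW)
          rw [hHo] at h1 h2
          refine rap_contra D W ε (A * C') z hD1 hW2 hε hWC hDbig ?_
          push_cast at h1
          refine h1.trans (h2.trans (add_le_add h3 ?_))
          exact mul_le_mul_of_nonneg_left hL3 (by positivity)
      | some i =>
        obtain ⟨_, hbi⟩ := hb
        exact by
          obtain ⟨_, hbD⟩ := hbi i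
          have hdi : (1 : ℝ) ≤ d i := by
            have := hd2 i
            exact_mod_cast (by (clear * - K q this; omega) : 1 ≤ d i)
          obtain ⟨hL1, hL2, hL3⟩ := rap_err D (d i) ε hD1 hdi hε hε' (b (some i)) q hbD hq1 hqD
          set L := ⌊D ^ ((d i : ℝ) - 3 * ε / 2) / q⌋₊ with hL
          have hbz' := hbz (d i) i (b (some i)) le_rfl hbD
          have h1 := hqi i L hL1 (hL2.trans (Real.rpow_le_rpow_of_exponent_le hD1 (by (clear * - hε; linarith))))
          rw [rap_sum_expect, hδC] at h1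
          have h2 := rap_core z (b (some i)) q L (fun x => H (some i) x / (2 * W)) hbz' hq1 hL1 (hn1 i)
            (hz1 i)
          have h3 := rap_sum_some z (b (some i)) q (A * C') W (fun x => f (some i) x - g (some i) x) hW2
            (hsum (some i) q hq1 hqW)
          rw [hHo] at h1 h2
          refine rap_contra D W ε (A * C') z hD1 hW2 hε hWC hDbig ?_
          push_cast at h1
          have h4 : 0 ≤ (2 : ℝ) ^ z * D ^ (-ε) := by positivity
          refine h1.trans (h2.trans ?_)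
          have h5 : (2 : ℝ) ^ z * (2 * ((2 : ℝ) ^ b (some i) / q + 1) / L) ≤
              2 ^ z * (8 * D ^ (-(ε / 2))) := mul_le_mul_of_nonneg_left hL3 (by positivity)
          (clear * - h3 h4 h5; linarith)
    have h := rap_hybrid (nform d K u T (2 ^ z) G) (fun h o v w => rap_nform_sub d K u T (2 ^ z) G h o v w)
      f g (1 / (W * (s + 2))) step
    refine h.trans (le_of_eq ?_)
    push_cast
    field_simp
    ring

end

end Pool.Agent.Helper67.NX2

end

section

set_option autoImplicit false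

open Finset

open scoped BigOperators ComplexConjugate

namespace Pool.Agent.Helper57.NX

noncomputable section

section

variable {N : ℕ} [NeZero N]

/-- real version of the form -/
def formR {l : ℕ} (S : Sys l) (c : Fin l → ℝ) (g0 : ZMod N → ℝ) (g : Fin l → ZMod N → ℝ) : ℝ :=
  𝔼 k ∈ S.I, 𝔼 x : ZMod N, g0 x * ∏ i, g i (x + (S.a c i k : ZMod N))

theorem form_ofReal {l : ℕ} (S : Sys l) (c : Fin l → ℝ) (g0 : ZMod N → ℝ)
    (g : Fin l → ZMod N → ℝ) :
    form S c 1 (fun x => (g0 x : ℂ)) (fun i x => (g i x : ℂ)) = ((formR S c g0 g : ℝ) : ℂ) := by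
  rw [form, formR, Finset.expect_eq_sum_div_card, Finset.expect_eq_sum_div_card]
  push_cast
  congr 1
  refine Finset.sum_congr rfl fun k _ => ?_
  rw [Pi.one_apply, one_mul, Finset.expect_eq_sum_div_card]

end

end

end Pool.Agent.Helper57.NX

end

section

set_option autoImplicit false

open Finset

open scoped BigOperators

namespace Pool.Agent.Helper57.NX3

open Pool.Agent.Helper57.NX (ind ind_nonneg)

open Pool.Agent.Helper67.NX2 (IsN sh)

noncomputable section

/-- splitting a product over the positions into natural and other positions -/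
theorem prod_split {m s : ℕ} (c : Fin m → ℝ) [DecidablePred fun i : Fin m => IsN (c i)]
    (em : Fin s → Fin m) (hem : Function.Injective em)
    (hN : ∀ j, IsN (c (em j))) (hall : ∀ i, IsN (c i) → ∃ j, em j = i) (g : Fin m → ℝ) :
    ∏ i, g i = (∏ j, g (em j)) * ∏ i : {i : Fin m // ¬ IsN (c i)}, g i := by
  rw [← Fintype.prod_subtype_mul_prod_subtype (fun i : Fin m => IsN (c i)) g]
  congr 1
  have hb : Function.Bijective (fun j : Fin s => (⟨em j, hN j⟩ : {i : Fin m // IsN (c i)})) := by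
    constructor
    · intro j j' h
      exact hem (congrArg Subtype.val h)
    · rintro ⟨i, hi⟩
      obtain ⟨j, hj⟩ := hall i hi
      exact ⟨j, Subtype.ext hj⟩
  exact (Function.Bijective.prod_comp hb (fun i : {i : Fin m // IsN (c i)} => g i)).symm

/-- the shift of the position `i`: exact at natural exponents, frozen at the others -/
def vv {m : ℕ} (c : Fin m → ℝ) (v : {i : Fin m // ¬ IsN (c i)} → ℕ) (n : ℕ) (i : Fin m) : ℕ := by
  classical exact if h : IsN (c i) then ⌊(n : ℝ) ^ c i⌋₊ else v ⟨i, h⟩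

theorem vv_nat {m : ℕ} (c : Fin m → ℝ) (v : {i : Fin m // ¬ IsN (c i)} → ℕ) (n : ℕ) (i : Fin m)
    (d : ℕ) (h : c i = d) : vv c v n i = n ^ d := by
  classical
  have h1 : IsN (c i) := ⟨d, h⟩
  unfold vv
  rw [dif_pos h1, h, Real.rpow_natCast, ← Nat.cast_pow, Nat.floor_natCast]

theorem vv_real {m : ℕ} (c : Fin m → ℝ) (v : {i : Fin m // ¬ IsN (c i)} → ℕ) (n : ℕ)
    (i : {i : Fin m // ¬ IsN (c i)}) : vv c v n i = v i := by
  classical
  unfold vv
  rw [dif_neg i.2]

/-- For one `n`: the sum over `p ∈ A` in `lower_mixed` is at least a constant times the sum with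
the weighted functions. -/
theorem conv_k {m s : ℕ} (c : Fin m → ℝ) [DecidablePred fun i : Fin m => IsN (c i)]
    (d : Fin s → ℕ) (em : Fin s → Fin m)
    (hem : Function.Injective em) (hd : ∀ j, c (em j) = d j)
    (hall : ∀ i, IsN (c i) → ∃ j, em j = i) (z : ℕ) (hz : 1 ≤ z) (A : Finset ℕ) (hA : PS z A)
    (n : ℕ) (v : {i : Fin m // ¬ IsN (c i)} → ℕ) (B : Fin m → ℕ)
    (hB : ∀ i, ¬ IsN (c i) → 2 ≤ B i) :
    (∑ x ∈ range (2 ^ z), (∏ j : {i : Fin m // ¬ IsN (c i)}, AN (B j / 2) (FA z A) (x + v j)) *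
      ∏ o : Option (Fin s), FA z A (x + sh d n o)) /
        (Real.log ((2 : ℝ) ^ z) ^ (m + 1) * 4 ^ m) ≤
    ∑ p ∈ A, ∏ i, (if IsN (c i) then ind A (p + vv c v n i) else
        (∑ w ∈ range (B i / 2), ind A (p + vv c v n i + w)) / ((B i : ℝ) + 1)) := by
  have hlz : 0 < Real.log ((2 : ℝ) ^ z) := by
    rw [Real.log_pow]
    have h1 : (1 : ℝ) ≤ z := by exact_mod_cast hz
    have h2 : 0 < Real.log 2 := Real.log_pos (by norm_num)
    positivity
  set lz := Real.log ((2 : ℝ) ^ z) with hlzdef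
  have hcard : Fintype.card {i : Fin m // ¬ IsN (c i)} + s = m := by
    have hb : Function.Bijective
        (fun j : Fin s => (⟨em j, ⟨d j, hd j⟩⟩ : {i : Fin m // IsN (c i)})) := by
      constructor
      · intro j j' h
        exact hem (congrArg Subtype.val h)
      · rintro ⟨i, hi⟩
        obtain ⟨j, hj⟩ := hall i hi
        exact ⟨j, Subtype.ext hj⟩
    have h1 := Fintype.card_of_bijective hb
    rw [Fintype.card_fin] at h1
    have h2 := Fintype.card_subtype_compl (fun i : Fin m => IsN (c i))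
    rw [Fintype.card_fin] at h2
    have h3 : Fintype.card {i : Fin m // IsN (c i)} ≤ m := by
      have := Fintype.card_subtype_le (fun i : Fin m => IsN (c i))
      rwa [Fintype.card_fin] at this
    omega
  -- the sum over `p ∈ A` as a sum over `range`
  have hsum : ∑ p ∈ A, ∏ i, (if IsN (c i) then ind A (p + vv c v n i) else
        (∑ w ∈ range (B i / 2), ind A (p + vv c v n i + w)) / ((B i : ℝ) + 1)) =
      ∑ x ∈ range (2 ^ z), ind A x * ∏ i, (if IsN (c i) then ind A (x + vv c v n i) else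
        (∑ w ∈ range (B i / 2), ind A (x + vv c v n i + w)) / ((B i : ℝ) + 1)) := by
    have hsub : A ⊆ range (2 ^ z) := fun p hp => Finset.mem_range.mpr (hA p hp).2
    rw [← Finset.sum_subset hsub (f := fun x => ind A x * ∏ i, (if IsN (c i) then
      ind A (x + vv c v n i) else
        (∑ w ∈ range (B i / 2), ind A (x + vv c v n i + w)) / ((B i : ℝ) + 1)))]
    · refine Finset.sum_congr rfl fun p hp => ?_
      have : ind A p = 1 := if_pos hp
      rw [this, one_mul]
    · intro x _ hx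
      have : ind A x = 0 := if_neg hx
      rw [this, zero_mul]
  rw [hsum, Finset.sum_div]
  refine Finset.sum_le_sum fun x _ => ?_
  have hN : ∀ j, IsN (c (em j)) := fun j => ⟨d j, hd j⟩
  rw [prod_split c em hem hN hall]
  have h1 : ∏ j : Fin s, (if IsN (c (em j)) then ind A (x + vv c v n (em j)) else
        (∑ w ∈ range (B (em j) / 2), ind A (x + vv c v n (em j) + w)) / ((B (em j) : ℝ) + 1)) =
      ∏ j : Fin s, ind A (x + n ^ d j) := by
    refine Finset.prod_congr rfl fun j _ => ?_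
    rw [if_pos (hN j), vv_nat c v n (em j) (d j) (hd j)]
  have h2 : ∏ j : {i : Fin m // ¬ IsN (c i)}, (AN (B j / 2) (FA z A) (x + v j) / (4 * lz)) ≤
      ∏ i : {i : Fin m // ¬ IsN (c i)}, (if IsN (c i) then ind A (x + vv c v n i) else
        (∑ w ∈ range (B i / 2), ind A (x + vv c v n i + w)) / ((B i : ℝ) + 1)) := by
    refine Finset.prod_le_prod (fun j _ => ?_) fun j _ => ?_
    · refine div_nonneg (div_nonneg (Finset.sum_nonneg fun w _ => ?_) (Nat.cast_nonneg _))
        (by positivity)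
      rw [FA_ind]
      exact mul_nonneg hlz.le (ind_nonneg _ _)
    · rw [if_neg j.2, vv_real]
      unfold AN
      simp_rw [FA_ind]
      rw [← Finset.mul_sum, ← hlzdef]
      set S := ∑ w ∈ range (B j / 2), ind A (x + v j + w) with hS
      have hS0 : 0 ≤ S := Finset.sum_nonneg fun w _ => ind_nonneg _ _
      have h3 := hB j j.2
      have h4 : (1 : ℝ) ≤ ((B j / 2 : ℕ) : ℝ) := by
        have : 1 ≤ B j / 2 := by omega
        exact_mod_cast this
      have h5 : (B j : ℝ) + 1 ≤ 4 * ((B j / 2 : ℕ) : ℝ) := by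
        have : B (j : Fin m) + 1 ≤ 4 * (B (j : Fin m) / 2) := by omega
        exact_mod_cast this
      rw [div_div, div_le_div_iff₀ (by positivity) (by positivity)]
      have h6 : 0 ≤ lz * S := mul_nonneg hlz.le hS0
      calc lz * S * ((B j : ℝ) + 1) ≤ lz * S * (4 * ((B j / 2 : ℕ) : ℝ)) :=
            mul_le_mul_of_nonneg_left h5 h6
        _ = S * (((B j / 2 : ℕ) : ℝ) * (4 * lz)) := by ring
  have h3 : ∏ o : Option (Fin s), FA z A (x + sh d n o) =
      lz ^ (s + 1) * (ind A x * ∏ j : Fin s, ind A (x + n ^ d j)) := by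
    rw [Fintype.prod_option]
    simp only [sh, add_zero, FA_ind]
    rw [Finset.prod_mul_distrib, Finset.prod_const, Finset.card_univ, Fintype.card_fin, ← hlzdef]
    ring
  rw [h1, h3]
  have h4 : ∏ j : {i : Fin m // ¬ IsN (c i)}, (AN (B j / 2) (FA z A) (x + v j) / (4 * lz)) =
      (∏ j : {i : Fin m // ¬ IsN (c i)}, AN (B j / 2) (FA z A) (x + v j)) /
        (4 * lz) ^ (Fintype.card {i : Fin m // ¬ IsN (c i)}) := by
    rw [Finset.prod_div_distrib, Finset.prod_const, Finset.card_univ]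
  rw [h4] at h2
  set r := Fintype.card {i : Fin m // ¬ IsN (c i)} with hr
  set P := ∏ j : {i : Fin m // ¬ IsN (c i)}, AN (B j / 2) (FA z A) (x + v j) with hP
  have hP0 : 0 ≤ P := by
    refine Finset.prod_nonneg fun j _ => ?_
    refine div_nonneg (Finset.sum_nonneg fun w _ => ?_) (Nat.cast_nonneg _)
    rw [FA_ind]
    exact mul_nonneg hlz.le (ind_nonneg _ _)
  set W := ind A x * ∏ j : Fin s, ind A (x + n ^ d j) with hW
  have hW0 : 0 ≤ W := mul_nonneg (ind_nonneg _ _) (Finset.prod_nonneg fun j _ => ind_nonneg _ _)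
  have h5 : P * (lz ^ (s + 1) * W) / (lz ^ (m + 1) * 4 ^ m) ≤ W * (P / (4 * lz) ^ r) := by
    rw [div_le_iff₀ (by positivity)]
    have h6 : lz ^ (m + 1) = lz ^ (s + 1) * lz ^ r := by
      rw [← pow_add]
      congr 1
      omega
    have h7 : (4 : ℝ) ^ r ≤ 4 ^ m := pow_le_pow_right₀ (by norm_num) (by omega)
    rw [h6, mul_pow]
    have h8 : W * (P / (4 ^ r * lz ^ r)) * (lz ^ (s + 1) * lz ^ r * 4 ^ m) =
        P * (lz ^ (s + 1) * W) * (4 ^ m / 4 ^ r) := by
      field_simp
    rw [h8]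
    have h9 : (1 : ℝ) ≤ 4 ^ m / 4 ^ r := by
      rw [le_div_iff₀ (by positivity), one_mul]
      exact h7
    exact le_mul_of_one_le_right (by positivity) h9
  refine h5.trans ?_
  refine (mul_le_mul_of_nonneg_left h2 hW0).trans (le_of_eq ?_)
  rw [hW, mul_assoc]

end

end Pool.Agent.Helper57.NX3

end

section

set_option autoImplicit false

open Finset

open scoped BigOperators

namespace Pool.Agent.Helper57.NX3

open Pool.Agent.Helper57.NX (ind ind_nonneg gA g0A AR Sys Good)

open Pool.Agent.Helper67.NX2 (IsN sh nform IG)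

noncomputable section

/-- the system -/
def SK {m : ℕ} (D K : ℕ) (c : Fin m → ℝ) : Sys m :=
  ⟨D, 0, D ^ 2, D, D, fun i => ((D ^ 2 : ℕ) : ℝ) * ((K : ℝ) * D) ^ (c i)⟩

theorem SK_a {m : ℕ} {D : ℕ} (hD : 1 ≤ D) (K : ℕ) (c : Fin m → ℝ) (i : Fin m) (k : ℕ) :
    (SK D K c).a c i k = ((aK (D ^ 2) K (c i) k : ℕ) : ℤ) := by
  have hD0 : (0 : ℝ) < D := by exact_mod_cast hD
  have h1 : (SK D K c).P i * ((SK D K c).t k) ^ (c i) =
      ((D ^ 2 : ℕ) : ℝ) * ((K * k : ℕ) : ℝ) ^ (c i) := by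
    change (((D ^ 2 : ℕ) : ℝ) * ((K : ℝ) * D) ^ (c i)) * (((k : ℝ) + 0) / D) ^ (c i) = _
    rw [add_zero, mul_assoc, ← Real.mul_rpow (by positivity) (by positivity)]
    congr 2
    push_cast
    field_simp
  unfold Sys.a aK
  rw [h1]
  exact (Int.natCast_floor_eq_floor (by positivity)).symm

/-- the lower bound on a window -/
theorem window_low {m s : ℕ} (c : Fin m → ℝ) [DecidablePred fun i : Fin m => IsN (c i)]
    (d : Fin s → ℕ) (em : Fin s → Fin m)
    (hem : Function.Injective em) (hd : ∀ j, c (em j) = d j)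
    (hall : ∀ i, IsN (c i) → ∃ j, em j = i) (z : ℕ) (hz : 1 ≤ z) (A : Finset ℕ) (hA : PS z A)
    (K Q N u T : ℕ) [NeZero N] (η τ2 : ℝ) (hQ : 0 < Q) (hN : Q * (2 * 2 ^ z) ≤ N) (hη0 : 0 ≤ η)
    (hη1 : η ≤ 1) (v : {i : Fin m // ¬ IsN (c i)} → ℕ) (B : Fin m → ℕ)
    (hB : ∀ i, ¬ IsN (c i) → 2 ≤ B i)
    (hfr : ∀ i : {i : Fin m // ¬ IsN (c i)}, ∀ k ∈ Ico u (u + T), ∀ e < Q,
      (e + aK Q K (c i) k) / Q + 1 ≤ v i ∧ v i + B i / 2 ≤ (e + aK Q K (c i) k) / Q + 1 + B i)
    (hsz : ∀ i, ∀ k ∈ Ico u (u + T), aK Q K (c i) k + Q * (B i + 1) ≤ Q * 2 ^ z)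
    (hT : 0 < T)
    (hform : τ2 ≤ nform d K u T (2 ^ z)
      (fun x => ∏ j : {i : Fin m // ¬ IsN (c i)}, AN (B j / 2) (FA z A) (x + v j))
      (fun _ => FA z A)) :
    η * Q * (τ2 * 2 ^ z / (Real.log ((2 : ℝ) ^ z) ^ (m + 1) * 4 ^ m)) * T ≤
      ∑ k ∈ Ico u (u + T), ∑ y : ZMod N, g0A A Q η y * ∏ i, (if IsN (c i) then
        gA A Q (y + (aK Q K (c i) k : ZMod N)) else
        AR (Q * (B i + 1)) (gA A Q) (y + (aK Q K (c i) k : ZMod N))) := by
  have hlz : 0 < Real.log ((2 : ℝ) ^ z) := by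
    rw [Real.log_pow]
    have h1 : (1 : ℝ) ≤ z := by exact_mod_cast hz
    have h2 : 0 < Real.log 2 := Real.log_pos (by norm_num)
    positivity
  have hstep : ∀ k ∈ Ico u (u + T), η * Q *
      ((∑ x ∈ range (2 ^ z), (∏ j : {i : Fin m // ¬ IsN (c i)}, AN (B j / 2) (FA z A) (x + v j)) *
      ∏ o : Option (Fin s), FA z A (x + sh d (K * k) o)) /
        (Real.log ((2 : ℝ) ^ z) ^ (m + 1) * 4 ^ m)) ≤
      ∑ y : ZMod N, g0A A Q η y * ∏ i, (if IsN (c i) then
        gA A Q (y + (aK Q K (c i) k : ZMod N)) else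
        AR (Q * (B i + 1)) (gA A Q) (y + (aK Q K (c i) k : ZMod N))) := by
    intro k hk
    have h1 := conv_k c d em hem hd hall z hz A hA (K * k) v B hB
    have h2 := lower_mixed A Q (2 ^ z) N η hQ hN (fun p hp => (hA p hp).2) hη0 hη1
      (fun i => IsN (c i)) (fun i => aK Q K (c i) k) B (fun i => B i / 2) (vv c v (K * k))
      (by
        rintro i ⟨d', hd'⟩
        rw [aK_nat Q K k d' hd', vv_nat c v (K * k) i d' hd'])
      (by
        intro i hi e he
        have h3 := hfr ⟨i, hi⟩ k hk e he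
        have h4 := vv_real c v (K * k) ⟨i, hi⟩
        simp only at h3 h4
        rw [h4]
        exact h3)
      (fun i => hsz i k hk)
    refine le_trans ?_ h2
    exact mul_le_mul_of_nonneg_left h1 (by positivity)
  refine le_trans ?_ (Finset.sum_le_sum hstep)
  rw [← Finset.mul_sum, ← Finset.sum_div]
  have hTr : (0 : ℝ) < T := by exact_mod_cast hT
  have h3 : nform d K u T (2 ^ z)
      (fun x => ∏ j : {i : Fin m // ¬ IsN (c i)}, AN (B j / 2) (FA z A) (x + v j))
      (fun _ => FA z A) * (T * 2 ^ z) = ∑ k ∈ Ico u (u + T),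
      ∑ x ∈ range (2 ^ z), (∏ j : {i : Fin m // ¬ IsN (c i)}, AN (B j / 2) (FA z A) (x + v j)) *
      ∏ o : Option (Fin s), FA z A (x + sh d (K * k) o) := by
    unfold nform
    rw [Finset.expect_eq_sum_div_card, Nat.card_Ico, Nat.add_sub_cancel_left, ← Finset.sum_div]
    push_cast
    field_simp
  rw [← h3]
  have h4 : τ2 * (T * 2 ^ z) ≤ nform d K u T (2 ^ z)
      (fun x => ∏ j : {i : Fin m // ¬ IsN (c i)}, AN (B j / 2) (FA z A) (x + v j))
      (fun _ => FA z A) * (T * 2 ^ z) := mul_le_mul_of_nonneg_right hform (by positivity)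
  calc η * Q * (τ2 * 2 ^ z / (Real.log ((2 : ℝ) ^ z) ^ (m + 1) * 4 ^ m)) * T
      = η * Q * ((τ2 * (T * 2 ^ z)) / (Real.log ((2 : ℝ) ^ z) ^ (m + 1) * 4 ^ m)) := by ring
    _ ≤ _ := by gcongr

end

end Pool.Agent.Helper57.NX3

end

section

set_option autoImplicit false

open Finset

open scoped BigOperators

namespace Pool.Agent.Helper57.NX3

open Pool.Agent.Helper57.NX (ind ind_nonneg gA g0A AR Sys Good)

open Pool.Agent.Helper67.NX2 (IsN sh nform IG Ex)

noncomputable section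

/-- the systems are good -/
theorem IG_SK {m : ℕ} (c : Fin m → ℝ) (hc : ∀ i, 0 < c i) (D K Z P : ℕ) (x : ℝ) (hx : 0 < x)
    (hD : 2 ≤ D) (hK : 1 ≤ K) (hKx : ∀ i, (K : ℝ) ^ (c i) ≤ (D : ℝ) ^ x)
    (hKZ : ∀ i, ((K : ℝ) * D) ^ (c i) ≤ 2 * Z) (hZ : 1 ≤ Z) (hP : P.Prime) (hPZ : 2 * Z < P) :
    IG (SK D K c) c (D ^ 2 * P) x K := by
  have hDr : (2 : ℝ) ≤ D := by exact_mod_cast hD
  have hDr1 : (1 : ℝ) ≤ D := by linarith
  have hD0 : (0 : ℝ) < D := by linarith
  have hKr : (1 : ℝ) ≤ K := by exact_mod_cast hK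
  have hK0 : (0 : ℝ) < K := by linarith
  have hQ : ((D ^ 2 : ℕ) : ℝ) = (D : ℝ) ^ (2 : ℝ) := by push_cast; rw [Real.rpow_two]
  exact by
    have hQ0 : (0 : ℝ) < ((D ^ 2 : ℕ) : ℝ) := by positivity
    have hDx : (1 : ℝ) ≤ (D : ℝ) ^ x := Real.one_le_rpow hDr1 hx.le
    have hPr : 2 * (Z : ℝ) ≤ P := by exact_mod_cast hPZ.le
    have hgood : Good (SK D K c) c (D ^ 2 * P) x := by
      refine ⟨le_rfl, zero_le_one, ?_, ?_, ?_, ?_, ?_, ?_, ?_, ?_, ?_⟩
      · change (D : ℝ) ^ (2 : ℝ) ≤ ((D ^ 2 : ℕ) : ℝ)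
        rw [hQ]
      · change ((D ^ 2 : ℕ) : ℝ) ≤ (D : ℝ) ^ (3 : ℝ)
        rw [hQ]
        exact Real.rpow_le_rpow_of_exponent_le hDr1 (by norm_num)
      · intro i
        exact by
          change ((D ^ 2 : ℕ) : ℝ) * (D : ℝ) ^ (c i - x) ≤ ((D ^ 2 : ℕ) : ℝ) * ((K : ℝ) * D) ^ (c i)
          refine mul_le_mul_of_nonneg_left ?_ hQ0.le
          calc (D : ℝ) ^ (c i - x) ≤ (D : ℝ) ^ (c i) :=
                Real.rpow_le_rpow_of_exponent_le hDr1 (by linarith)
            _ ≤ ((K : ℝ) * D) ^ (c i) := by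
                refine Real.rpow_le_rpow hD0.le ?_ (hc i).le
                nlinarith
      · intro i
        change ((D ^ 2 : ℕ) : ℝ) * ((K : ℝ) * D) ^ (c i) ≤ ((D ^ 2 : ℕ) : ℝ) * (D : ℝ) ^ (c i + x)
        refine mul_le_mul_of_nonneg_left ?_ hQ0.le
        rw [Real.mul_rpow hK0.le hD0.le, Real.rpow_add hD0, mul_comm]
        exact mul_le_mul_of_nonneg_left (hKx i) (by positivity)
      · intro i
        change ((D ^ 2 : ℕ) : ℝ) * ((K : ℝ) * D) ^ (c i) ≤ ((D ^ 2 * P : ℕ) : ℝ) * (D : ℝ) ^ x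
        have h1 : ((D ^ 2 * P : ℕ) : ℝ) = ((D ^ 2 : ℕ) : ℝ) * P := by push_cast; ring
        rw [h1]
        calc ((D ^ 2 : ℕ) : ℝ) * ((K : ℝ) * D) ^ (c i) ≤ ((D ^ 2 : ℕ) : ℝ) * P :=
              mul_le_mul_of_nonneg_left ((hKZ i).trans hPr) hQ0.le
          _ = ((D ^ 2 : ℕ) : ℝ) * P * 1 := (mul_one _).symm
          _ ≤ _ := mul_le_mul_of_nonneg_left hDx (by positivity)
      · change ((D ^ 2 : ℕ) : ℝ) ≤ ((D ^ 2 * P : ℕ) : ℝ)
        have h1 : D ^ 2 * 1 ≤ D ^ 2 * P := Nat.mul_le_mul_left _ hP.one_lt.le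
        rw [mul_one] at h1
        exact_mod_cast h1
      · exact le_rfl
      · change (D : ℝ) + D ≤ 2 * D
        linarith
      · change (D : ℝ) ^ (1 - x) ≤ D
        calc (D : ℝ) ^ (1 - x) ≤ (D : ℝ) ^ (1 : ℝ) :=
              Real.rpow_le_rpow_of_exponent_le hDr1 (by linarith)
          _ = D := Real.rpow_one _
    refine ⟨hgood, ?_, hK, ⟨0, ?_⟩, ?_, ⟨P, hP, rfl⟩⟩
    · change ((D ^ 2 : ℕ) : ℝ) ≤ (D : ℝ) ^ (5 / 2 + x)
      rw [hQ]
      exact Real.rpow_le_rpow_of_exponent_le hDr1 (by linarith)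
    · change (0 : ℝ) * K = ((0 : ℕ) : ℝ)
      simp
    · intro i d hd
      change ((D ^ 2 : ℕ) : ℝ) * ((K : ℝ) * D) ^ (c i) = ((D ^ 2 : ℕ) : ℝ) * ((K : ℝ) * D) ^ d
      rw [hd, Real.rpow_natCast]

end

end Pool.Agent.Helper57.NX3

end

section

set_option autoImplicit false

open Finset

open scoped BigOperators

namespace Pool.Agent.Helper57.NX3

open Pool.Agent.Helper57.NX (ind ind_nonneg gA g0A AR Sys Good form formR Adm g0A_nonneg gA_nonneg gA_le_one form_ofReal expect_zmod_real)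

open Pool.Agent.Helper67.NX2 (IsN sh nform IG Ex PrA BlkLen Fm)

noncomputable section

/-- the natural/real family of refined functions -/
def gm {l : ℕ} (c : Fin l → ℝ) {N : ℕ} (A : Finset ℕ) (Q : ℕ) (B : Fin l → ℕ) (i : Fin l)
    (x : ZMod N) : ℝ := by
  classical exact if IsN (c i) then gA A Q x else AR (Q * (B i + 1)) (gA A Q) x

/-- lower bound for the form, from the windows -/
theorem lower_form {l s : ℕ} (c : Fin l → ℝ) (hc : ∀ i, 0 < c i) (d : Fin s → ℕ) (em : Fin s → Fin l)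
    (hem : Function.Injective em) (hd : ∀ j, c (em j) = d j)
    (hall : ∀ i, IsN (c i) → ∃ j, em j = i) (z : ℕ) (hz : 1 ≤ z) (A : Finset ℕ) (hA : PS z A)
    (K D T W N : ℕ) [NeZero N] (hDTW : D = T * W) (hT : 0 < T) (hD : 1 ≤ D)
    (η τ2 : ℝ) (hτ2 : 0 ≤ τ2)
    (hN : D ^ 2 * (2 * 2 ^ z) ≤ N) (hN' : N ≤ D ^ 2 * (4 * 2 ^ z)) (hη0 : 0 ≤ η)
    (hη1 : η ≤ 1) (B : Fin l → ℕ) (hB : ∀ i, ¬ IsN (c i) → 2 ≤ B i)
    (hsz : ∀ i, ((2 * K * D : ℕ) : ℝ) ^ c i + B i + 1 ≤ (2 : ℝ) ^ z)
    (hwin : ∀ t < W, ∃ v : {i : Fin l // ¬ IsN (c i)} → ℕ,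
      (∀ i : {i : Fin l // ¬ IsN (c i)}, ∀ k ∈ Ico (D + T * t) (D + T * t + T), ∀ e < D ^ 2,
        (e + aK (D ^ 2) K (c i) k) / D ^ 2 + 1 ≤ v i ∧
          v i + B i / 2 ≤ (e + aK (D ^ 2) K (c i) k) / D ^ 2 + 1 + B i) ∧
      (open scoped Classical in τ2 ≤ nform d K (D + T * t) T (2 ^ z)
        (fun x => ∏ j : {i : Fin l // ¬ IsN (c i)}, AN (B j / 2) (FA z A) (x + v j))
        (fun _ => FA z A))) :
    η * τ2 / (4 ^ (l + 1) * Real.log ((2 : ℝ) ^ z) ^ (l + 1)) ≤
      formR (N := N) (SK D K c) c (g0A A (D ^ 2) η) (gm c A (D ^ 2) B) := by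
  classical
  have hlz : 0 < Real.log ((2 : ℝ) ^ z) := by
    rw [Real.log_pow]
    have h1 : (1 : ℝ) ≤ z := by exact_mod_cast hz
    have h2 : 0 < Real.log 2 := Real.log_pos (by norm_num)
    positivity
  set Q := D ^ 2 with hQ
  have hQ0 : 0 < Q := by positivity
  have hQr0 : (0 : ℝ) < Q := by exact_mod_cast hQ0
  have hDr0 : (0 : ℝ) < D := by exact_mod_cast hD
  have hN0 : (0 : ℝ) < N := by exact_mod_cast NeZero.pos N
  exact by
    set X : ℝ := η * Q * (τ2 * 2 ^ z / (Real.log ((2 : ℝ) ^ z) ^ (l + 1) * 4 ^ l)) with hX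
    have hX0 : 0 ≤ X := by positivity
    have hTD : ∀ t < W, D + T * t + T ≤ D + D := by
      intro t ht
      have h1 : T * (t + 1) ≤ T * W := Nat.mul_le_mul_left T ht
      rw [Nat.mul_succ, ← hDTW] at h1
      omega
    have hszk : ∀ i, ∀ k, k < D + D → aK Q K (c i) k + Q * (B i + 1) ≤ Q * 2 ^ z := by
      intro i k hk
      have h1 : (aK Q K (c i) k : ℝ) ≤ Q * ((K * k : ℕ) : ℝ) ^ c i := Nat.floor_le (by positivity)
      have h2 : ((K * k : ℕ) : ℝ) ^ c i ≤ ((2 * K * D : ℕ) : ℝ) ^ c i := by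
        refine Real.rpow_le_rpow (Nat.cast_nonneg _) ?_ (hc i).le
        have : K * k ≤ 2 * K * D := by
          calc K * k ≤ K * (2 * D) := Nat.mul_le_mul_left K (by omega)
            _ = 2 * K * D := by ring
        exact_mod_cast this
      have h3 : ((aK Q K (c i) k + Q * (B i + 1) : ℕ) : ℝ) ≤ ((Q * 2 ^ z : ℕ) : ℝ) := by
        push_cast
        calc (aK Q K (c i) k : ℝ) + Q * ((B i : ℝ) + 1)
            ≤ Q * ((2 * K * D : ℕ) : ℝ) ^ c i + Q * ((B i : ℝ) + 1) := by
              have := mul_le_mul_of_nonneg_left h2 hQr0.le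
              linarith
          _ = Q * (((2 * K * D : ℕ) : ℝ) ^ c i + B i + 1) := by ring
          _ ≤ Q * 2 ^ z := mul_le_mul_of_nonneg_left (hsz i) hQr0.le
      exact_mod_cast h3
    have hwl : ∀ t < W, X * T ≤ ∑ k ∈ Ico (D + T * t) (D + T * t + T),
        ∑ y : ZMod N, g0A A Q η y * ∏ i, gm c A Q B i (y + (aK Q K (c i) k : ZMod N)) := by
      intro t ht
      obtain ⟨v, hv1, hv2⟩ := hwin t ht
      have h1 := window_low c d em hem hd hall z hz A hA K Q N (D + T * t) T η τ2 hQ0 hN hη0 hη1 v B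
        hB hv1 (fun i k hk => by
          refine hszk i k ?_
          have h2 := (Finset.mem_Ico.mp hk).2
          have := hTD t ht
          omega) hT hv2
      exact h1
    have hsum := windows_sum D T W hDTW _ X hwl
    -- the form
    exact by
      have hform : formR (N := N) (SK D K c) c (g0A A Q η) (gm c A Q B) =
          (∑ k ∈ Ico D (D + D), ∑ y : ZMod N, g0A A Q η y *
            ∏ i, gm c A Q B i (y + (aK Q K (c i) k : ZMod N))) / (D * N) := by
        unfold formR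
        have hI : (SK D K c).I = Ico D (D + D) := rfl
        rw [hI, Finset.expect_eq_sum_div_card, Nat.card_Ico, Nat.add_sub_cancel]
        have h1 : ∀ k ∈ Ico D (D + D), (𝔼 x : ZMod N, g0A A Q η x *
            ∏ i, gm c A Q B i (x + ((SK D K c).a c i k : ZMod N))) =
            (∑ y : ZMod N, g0A A Q η y *
              ∏ i, gm c A Q B i (y + (aK Q K (c i) k : ZMod N))) / N := by
          intro k _
          rw [expect_zmod_real]
          congr 1
          refine Finset.sum_congr rfl fun y _ => ?_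
          congr 1
          refine Finset.prod_congr rfl fun i _ => ?_
          rw [SK_a hD K c i k]
          push_cast
          rfl
        rw [Finset.sum_congr rfl h1, ← Finset.sum_div, div_div, mul_comm (N : ℝ) D]
      rw [hform, le_div_iff₀ (by positivity)]
      refine le_trans ?_ hsum
      have hNr : (N : ℝ) ≤ Q * (4 * 2 ^ z) := by
        have : ((N : ℕ) : ℝ) ≤ ((Q * (4 * 2 ^ z) : ℕ) : ℝ) := by exact_mod_cast hN'
        push_cast at this
        exact this
      calc η * τ2 / (4 ^ (l + 1) * Real.log ((2 : ℝ) ^ z) ^ (l + 1)) * (D * N)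
          ≤ η * τ2 / (4 ^ (l + 1) * Real.log ((2 : ℝ) ^ z) ^ (l + 1)) * (D * (Q * (4 * 2 ^ z))) := by
            gcongr
        _ = X * D := by
            rw [hX]
            field_simp
            ring

end

end Pool.Agent.Helper57.NX3

end

section

set_option autoImplicit false

open Finset

open scoped BigOperators

namespace Pool.Agent.Helper57.NX3

open Pool.Agent.Helper57.NX (ind ind_nonneg gA g0A AR Sys Good form formR Adm g0A_nonneg gA_nonneg gA_le_one form_ofReal expect_zmod_real frac_ok)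

open Pool.Agent.Helper67.NX2 (IsN sh nform IG Ex PrA BlkLen Fm)

noncomputable section

/-- upper bound for the form, when there is no pattern -/
theorem upper_form {l : ℕ} (c : Fin l → ℝ) (hc : ∀ i, 0 < c i) (z : ℕ) (A : Finset ℕ) (hA : PS z A)
    (K D N : ℕ) [NeZero N] (hD : 1 ≤ D) (η Cs : ℝ)
    (hN : D ^ 2 * (2 * 2 ^ z) ≤ N) (hη0 : 0 ≤ η) (hQη : 1 ≤ η * (D : ℝ) ^ 2)
    (hsz : ∀ i, ((2 * K * D : ℕ) : ℝ) ^ c i ≤ (2 : ℝ) ^ z)
    (bad : Finset ℕ) (hbad : (bad.card : ℝ) ≤ 2 * Cs * η * D)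
    (hgood : ∀ k ∈ Ico D (D + D), k ∉ bad → ∀ i, Int.fract (((K * k : ℕ) : ℝ) ^ c i) < 1 - η)
    (hno : ∀ k ∈ Ico D (D + D), ∀ p ∈ A, ¬ ∀ i, p + ⌊((K * k : ℕ) : ℝ) ^ c i⌋₊ ∈ A) :
    formR (N := N) (SK D K c) c (g0A A (D ^ 2) η) (fun _ => gA A (D ^ 2)) ≤ 2 * Cs * η * η := by
  classical
  set Q := D ^ 2 with hQ
  have hQ0 : 0 < Q := by positivity
  have hQr0 : (0 : ℝ) < Q := by exact_mod_cast hQ0
  have hQr : (Q : ℝ) = (D : ℝ) ^ 2 := by rw [hQ]; push_cast; rfl
  have hDr0 : (0 : ℝ) < D := by exact_mod_cast hD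
  have hN0 : (0 : ℝ) < N := by exact_mod_cast NeZero.pos N
  have haK : ∀ i, ∀ k, k < D + D → aK Q K (c i) k ≤ Q * 2 ^ z := by
    intro i k hk
    have h1 : (aK Q K (c i) k : ℝ) ≤ Q * ((K * k : ℕ) : ℝ) ^ c i := Nat.floor_le (by positivity)
    have h2 : ((K * k : ℕ) : ℝ) ^ c i ≤ ((2 * K * D : ℕ) : ℝ) ^ c i := by
      refine Real.rpow_le_rpow (Nat.cast_nonneg _) ?_ (hc i).le
      have : K * k ≤ 2 * K * D := by
        calc K * k ≤ K * (2 * D) := Nat.mul_le_mul_left K (by omega)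
          _ = 2 * K * D := by ring
      exact_mod_cast this
    have h3 : ((aK Q K (c i) k : ℕ) : ℝ) ≤ ((Q * 2 ^ z : ℕ) : ℝ) := by
      push_cast
      exact h1.trans (mul_le_mul_of_nonneg_left (h2.trans (hsz i)) hQr0.le)
    exact_mod_cast h3
  have hup_k : ∀ k ∈ Ico D (D + D), 𝔼 y : ZMod N, g0A A Q η y *
        ∏ i : Fin l, gA A Q (y + ((SK D K c).a c i k : ZMod N)) ≤
        if k ∈ bad then η else 0 := by
    intro k hk
    have hk' := Finset.mem_Ico.mp hk
    rw [expect_zmod_real]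
    have haS : ∀ i, (((SK D K c).a c i k : ℤ) : ZMod N) = ((aK Q K (c i) k : ℕ) : ZMod N) := by
      intro i
      rw [SK_a hD K c i k]
      push_cast
      rfl
    simp_rw [haS]
    rw [div_le_iff₀ hN0]
    split_ifs with hkb
    · have h1 : ∑ y : ZMod N, g0A A Q η y *
          ∏ i : Fin l, gA A Q (y + (aK Q K (c i) k : ZMod N)) ≤
          ∑ y : ZMod N, g0A A Q η y := by
        refine Finset.sum_le_sum fun y _ => ?_
        refine mul_le_of_le_one_right (g0A_nonneg _ _ _ _) ?_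
        exact Finset.prod_le_one (fun i _ => gA_nonneg _ _ _) fun i _ => gA_le_one _ _ _
      refine h1.trans ((g0_sum_mixed A Q (2 ^ z) N η hQ0 (fun p hp => (hA p hp).2) hη0).trans ?_)
      have h2 : ((Q * (2 * 2 ^ z) : ℕ) : ℝ) ≤ N := by exact_mod_cast hN
      push_cast at h2 ⊢
      calc (2 : ℝ) ^ z * (η * Q + 1) ≤ (2 : ℝ) ^ z * (η * Q + η * Q) := by
            refine mul_le_mul_of_nonneg_left ?_ (by positivity)
            rw [hQr]
            linarith
        _ = η * (Q * (2 * 2 ^ z)) := by ring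
        _ ≤ _ := mul_le_mul_of_nonneg_left h2 hη0
    · have h1 := upper_mixed A Q (2 ^ z) N η hQ0 hN (fun p hp => (hA p hp).2)
        (fun i : Fin l => aK Q K (c i) k) (fun i => haK i k hk'.2) (by
          intro e _ he' p hp hall
          refine hno k hk p hp fun i => ?_
          have h2 := hgood k hk hkb i
          have h4 := frac_ok hQ0 (x := ((K * k : ℕ) : ℝ) ^ (c i)) (by positivity) h2 he'
          rw [← h4]
          exact hall i)
      rw [h1, zero_mul]
  have h1 : formR (N := N) (SK D K c) c (g0A A Q η) (fun _ => gA A Q) ≤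
      𝔼 k ∈ Ico D (D + D), if k ∈ bad then η else 0 :=
    Finset.expect_le_expect fun k hk => hup_k k hk
  refine h1.trans ?_
  rw [Finset.expect_eq_sum_div_card, Nat.card_Ico, Nat.add_sub_cancel,
    div_le_iff₀ hDr0, ← Finset.sum_filter, Finset.sum_const, nsmul_eq_mul]
  have h2 : (((Ico D (D + D)).filter fun k => k ∈ bad).card : ℝ) ≤ bad.card := by
    have : (Ico D (D + D)).filter (fun k => k ∈ bad) ⊆ bad := fun k hk =>
      (Finset.mem_filter.mp hk).2
    exact_mod_cast Finset.card_le_card this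
  calc (((Ico D (D + D)).filter fun k => k ∈ bad).card : ℝ) * η ≤ (2 * Cs * η * D) * η :=
        mul_le_mul_of_nonneg_right (h2.trans hbad) hη0
    _ = _ := by ring

end

end Pool.Agent.Helper57.NX3

end
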