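import Pool.Agent.Helper23.MC.L01_a0
import Pool.Agent.Helper23.MC.L01_a1
import Pool.Agent.Helper23.MC.L01_a12
import Pool.Agent.Helper23.MC.L01_a13
import Pool.Agent.Helper23.MC.L01_a2
import Pool.Agent.Helper23.MC.L01_a4
import Pool.Agent.Helper23.MC.L01_a8

/-!
Parts of Helper30.NX2.LocArithOf
-/

attribute [local instance 5000]
  Pool.Agent.Helper23.MC.Inst.rCharZero Pool.Agent.Helper23.MC.Inst.rALM
  Pool.Agent.Helper23.MC.Inst.rARM Pool.Agent.Helper23.MC.Inst.rALSM
  Pool.Agent.Helper23.MC.Inst.rARSM Pool.Agent.Helper23.MC.Inst.rARRLE
  Pool.Agent.Helper23.MC.Inst.rALRLE Pool.Agent.Helper23.MC.Inst.rARRLT
  Pool.Agent.Helper23.MC.Inst.rALRLT Pool.Agent.Helper23.MC.Inst.rPMRLT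
  Pool.Agent.Helper23.MC.Inst.rMPRLT Pool.Agent.Helper23.MC.Inst.rPMM
  Pool.Agent.Helper23.MC.Inst.rMPM Pool.Agent.Helper23.MC.Inst.rPMSM
  Pool.Agent.Helper23.MC.Inst.rMPSM Pool.Agent.Helper23.MC.Inst.rEAOL
  Pool.Agent.Helper23.MC.Inst.rIOR Pool.Agent.Helper23.MC.Inst.rISOR
  Pool.Agent.Helper23.MC.Inst.rNZD Pool.Agent.Helper23.MC.Inst.rcCharZero
  Pool.Agent.Helper23.MC.Inst.rcNZD Pool.Agent.Helper23.MC.Inst.zCharZero
  Pool.Agent.Helper23.MC.Inst.zALM Pool.Agent.Helper23.MC.Inst.zARM
  Pool.Agent.Helper23.MC.Inst.zALSM Pool.Agent.Helper23.MC.Inst.zARSM
  Pool.Agent.Helper23.MC.Inst.zIOR Pool.Agent.Helper23.MC.Inst.zISOR
  Pool.Agent.Helper23.MC.Inst.zNZD Pool.Agent.Helper23.MC.Inst.qCharZero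
  Pool.Agent.Helper23.MC.Inst.mR Pool.Agent.Helper23.MC.Inst.mC Pool.Agent.Helper23.MC.Inst.mRC
  Pool.Agent.Helper23.MC.Inst.rPSM Pool.Agent.Helper23.MC.Inst.rCSM
  Pool.Agent.Helper23.MC.Inst.cAdd Pool.Agent.Helper23.MC.Inst.cAddM
  Pool.Agent.Helper23.MC.Inst.cMul Pool.Agent.Helper23.MC.Inst.cMon

namespace Pool.Agent.Helper57.NX
end Pool.Agent.Helper57.NX

section

set_option autoImplicit false

open Finset

open scoped BigOperators ComplexConjugate

namespace Pool.Agent.Helper67.NX2

open Pool.Agent.Helper57.NX

noncomputable section

/-- **A25.** Localisation along progressions, from the statement of A5 (`ratl`). -/
theorem loc_arith_of (m : ℕ) (c : Fin (m + 1) → ℝ) (hc : Ex c) (d : ℕ)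
    (hd : c (Fin.last m) = d) (s : ℝ) (hs0 : 0 < s) (hs : s ≤ 1)
    (hR : ∀ a ε : ℝ, 0 < ε →
      ∃ x0 : ℝ, 0 < x0 ∧ ∃ C : ℕ, ∃ σ : ℝ, 0 < σ ∧ ∃ D0 : ℝ, ∀ D : ℝ, D0 ≤ D →
      ∀ ρ : ℝ, 0 ≤ ρ → ρ ≤ 1 → ∀ lam : ℕ, 1 ≤ lam → (∃ r : ℕ, ρ * lam = r) →
      ∀ δ : ℝ, D ^ (-σ) ≤ δ → δ ≤ 1 / 2 → (lam : ℝ) ≤ δ⁻¹ →
      ∀ v : Fin (m + 1) → ℝ, (∀ i, |v i| ≤ D ^ a) →
      ∀ q k K : ℕ, 1 ≤ q → (q : ℝ) ≤ δ⁻¹ → D ≤ k → (k : ℝ) ≤ 3 * D → D ^ (1 - x0) ≤ K →
      (q : ℝ) * K ≤ D →
      δ ≤ ‖𝔼 j ∈ range K, e (∑ i, v i * ((((k + q * j : ℕ) : ℝ) + ρ) / D) ^ (c i))‖ →
      (∀ i, ¬ IsN (c i) → |v i| ≤ D ^ ε) ∧
      ∃ q' : ℕ, 1 ≤ q' ∧ (q' : ℝ) ≤ δ⁻¹ ^ C ∧ ∀ (i : Fin (m + 1)) (d : ℕ), c i = d →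
        dint (q' * (v i / (lam * D) ^ d)) ≤ D ^ (ε - d))
    (hD : ∀ ε : ℝ, 0 < ε → DsPm m c s ε) :
    ∃ ε0 : ℝ, 0 < ε0 ∧ ∀ ε : ℝ, 0 < ε → ε ≤ ε0 → ∀ n : ℕ,
    ∃ x0 : ℝ, 0 < x0 ∧ ∃ C : ℕ, ∃ σ : ℝ, 0 < σ ∧ ∃ D0 : ℝ,
    ∀ (S : Sys (m + 1)) (N : ℕ) [NeZero N] (lam : ℕ), D0 ≤ S.D → IG S c N x0 lam →
    ∀ δ : ℝ, S.D ^ (-σ) ≤ δ → δ ≤ 1 / 2 → (lam : ℝ) ≤ δ⁻¹ →
    ∀ (p : ℕ) [NeZero p], p.Prime → N = S.Q * p → ∀ q : ℕ, 1 ≤ q → (q : ℝ) ≤ δ⁻¹ →
    ∀ X : ℕ, 1 ≤ X → S.D ^ (s - σ) ≤ (X : ℝ) → (X : ℝ) * δ⁻¹ ^ 4 ≤ S.D ^ s →
    ∀ q0 : ℕ, 1 ≤ q0 → S.P (Fin.last m) * S.D ^ (-ε) / 2 ≤ (X : ℝ) * q0 * (S.Q * q) →
      (X : ℝ) * q0 * (S.Q * q) ≤ S.P (Fin.last m) * S.D ^ (-ε) →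
    ∀ (f0 : ZMod N → ℂ) (f : Fin m → ZMod N → ℂ), Adm δ⁻¹ S.Q f0 → (∀ i, Adm δ⁻¹ S.Q (f i)) →
    ∀ (r : ZMod p) (cc : ℕ → ℂ) (φ θ : ℕ → ℝ), (∀ j, ‖cc j‖ ≤ 1) →
    (∀ j, cc j ≠ 0 → dint (φ j - θ (j / q0)) ≤ δ⁻¹ ^ n / X) →
    δ ^ n ≤ ‖form S c 1 f0 (Fin.snoc (α := fun _ => ZMod N → ℂ) f
      (blk S.Q fun y : ZMod p => bphase X r cc φ (y * (q : ZMod p)⁻¹)))‖ →
    ∃ j q' : ℕ, cc j ≠ 0 ∧ 1 ≤ q' ∧ (q' : ℝ) ≤ δ⁻¹ ^ C ∧ dint (q' * φ j) ≤ δ⁻¹ ^ C / X := by
  have hc0 : ∀ i, 0 < c i := fun i => by (clear * - hc; linarith [hc.two i])
  have hd2r : (2 : ℝ) ≤ d := by rw [← hd]; exact hc.two _
  have hd2 : 2 ≤ d := by exact_mod_cast hd2r
  have hgap : ∀ i : Fin m, c i.castSucc + 2 ≤ d := by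
    intro i
    rw [← hd]
    exact hc.gap _ _ (Fin.castSucc_lt_last i)
  have hcd : ∀ i, c i ≤ d := by
    intro i
    rw [← hd]
    exact hc.strictMono.monotone (Fin.le_last i)
  obtain ⟨xr, hxr, Cr, σr, hσr, Dr, Hr⟩ := hR (d + 5) (1 / 2) (by norm_num)
  obtain ⟨ε2, hε2d⟩ : ∃ ε2, ε2 = min (xr / 2) (1 / 2) := ⟨_, rfl⟩
  have hε20 : 0 < ε2 := by rw [hε2d]; positivity
  exact by
    have hε2a : ε2 ≤ xr / 2 := by rw [hε2d]; exact min_le_left _ _
    have hε2b : ε2 ≤ 1 / 2 := by rw [hε2d]; exact min_le_right _ _
    obtain ⟨x2, hx2, C2, σ2, hσ2, D2, H2⟩ := hD ε2 hε20
    obtain ⟨x', hx'd⟩ : ∃ x', x' = min x2 1 := ⟨_, rfl⟩
    have hx'0 : 0 < x' := by rw [hx'd]; positivity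
    have hx'2 : x' ≤ x2 := by rw [hx'd]; exact min_le_left _ _
    have hx'1 : x' ≤ 1 := by rw [hx'd]; exact min_le_right _ _
    obtain ⟨xd, hxd, σd, hσd, Dd, Hd⟩ := IG.dil c hc0 x' hx'0
    refine ⟨x' / 8, by positivity, fun ε hε hεle n0 => ?_⟩
    exact by
      have hε1 : ε ≤ 1 / 8 := by (clear * - hx'1 hεle; linarith)
      obtain ⟨n, hn⟩ : ∃ n, n = n0 + 1 := ⟨_, rfl⟩
      -- the exponents
      obtain ⟨p1, hp1⟩ : ∃ p1, p1 = (n + 7) * (C2 + 1) * (Cr + 1) := ⟨_, rfl⟩
      have hp1a : n + 7 ≤ p1 := by
        rw [hp1, mul_assoc]; exact Nat.le_mul_of_pos_right _ (by (clear * -; positivity))
      have hp1b : (n + 7) * (C2 + 1) ≤ p1 := by
        rw [hp1]; exact Nat.le_mul_of_pos_right _ (by (clear * -; positivity))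
      have hp1c : (n + 7) * (C2 + 1) * Cr ≤ p1 := by
        rw [hp1]; exact Nat.mul_le_mul_left _ (by omega)
      have hp1d : (n + 7) * C2 ≤ p1 := by
        refine le_trans (Nat.mul_le_mul_left _ (by omega)) hp1b
      have hp10 : 0 < p1 := by omega
      exact by
        obtain ⟨Z, hZ⟩ : ∃ Z, Z = min (min (min σ2 σr / 8) (ε / 8)) (min (ε2 / 8) (σd / 8)) := ⟨_, rfl⟩
        have hZ0 : 0 < Z := by rw [hZ]; (clear * - hσ2 hσr hε hε20 hσd; positivity)
        have hZ1 : Z ≤ min σ2 σr / 8 := by rw [hZ]; exact (min_le_left _ _).trans (min_le_left _ _)
        have hZσ2 : Z ≤ σ2 / 8 := hZ1.trans (div_le_div_of_nonneg_right (min_le_left _ _) (by norm_num))
        have hZσr : Z ≤ σr / 8 := hZ1.trans (div_le_div_of_nonneg_right (min_le_right _ _) (by norm_num))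
        have hZε : Z ≤ ε / 8 := by rw [hZ]; exact (min_le_left _ _).trans (min_le_right _ _)
        have hZε2 : Z ≤ ε2 / 8 := by rw [hZ]; exact (min_le_right _ _).trans (min_le_left _ _)
        exact by
          have hZσd : Z ≤ σd / 8 := by rw [hZ]; exact (min_le_right _ _).trans (min_le_right _ _)
          obtain ⟨K0, hK0⟩ : ∃ K0 : ℝ, K0 = 64 * d * 3 ^ d + 64 := ⟨_, rfl⟩
          have h3d : (0 : ℝ) < 3 ^ d := by positivity
          have hK064 : 64 ≤ K0 := by rw [hK0]; have : (0 : ℝ) ≤ 64 * d * 3 ^ d := by positivity
                                     (clear * - this; linarith)
          have hev : ∀ᶠ D : ℝ in Filter.atTop, 64 ≤ D ∧ Dd ≤ D ∧ max 1 (max D2 Dr) ≤ D ^ (1 / 2 : ℝ) ∧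
              K0 ≤ D ^ (ε / 2) ∧ 4 ≤ D ^ (Z / p1) ∧ 3 ≤ D ^ (ε2 / 4) := by
            have hp1r : (0 : ℝ) < p1 := by exact_mod_cast hp10
            refine (Filter.eventually_ge_atTop _).and ((Filter.eventually_ge_atTop _).and
              (((tendsto_rpow_atTop (by norm_num)).eventually_ge_atTop _).and
              (((tendsto_rpow_atTop (by positivity)).eventually_ge_atTop _).and
              (((tendsto_rpow_atTop (by (clear * - hZ0 hp10; positivity))).eventually_ge_atTop _).and
              ((tendsto_rpow_atTop (by (clear * - hε20; positivity))).eventually_ge_atTop _)))))
          obtain ⟨D0, hD0⟩ := Filter.eventually_atTop.1 hev
          have hp1r : (0 : ℝ) < p1 := by exact_mod_cast hp10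
          have hp11 : (1 : ℝ) ≤ p1 := by exact_mod_cast hp10
          exact by
            refine ⟨min xd (ε / 4), by (clear * - hxd hε; positivity), 2 * p1 + 2, Z / p1, by (clear * - hZ0 hp10; positivity), D0, ?_⟩
            obtain ⟨σ, hσ⟩ : ∃ σ, σ = Z / p1 := ⟨_, rfl⟩
            rw [← hσ]
            have hσ0 : 0 < σ := by rw [hσ]; (clear * - hZ0 hp10; positivity)
            have hσZ : σ ≤ Z := by rw [hσ]; exact div_le_self hZ0.le hp11
            intro S N _ lam hSD hG δ hδσ hδ2 hlam p _ hp hN q hq hqδ X hX hX1 hX2 q0 hq0 hXq1 hXq2 f0 f hf0 hf
              r cc φ θ hcc hφ hform
            obtain ⟨hD64, hDDd, hDmax, hDK0, hDσ, hDε2⟩ := hD0 S.D hSD
            rw [← hσ] at hDσ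
            have hD0 : 0 < S.D := by (clear * - hx'1 hεle hZ0 hZε hD64; linarith)
            have hD1 : 1 ≤ S.D := by (clear * - hx'1 hεle hZ0 hZε hD64; linarith)
            have hδ0 : 0 < δ := lt_of_lt_of_le (Real.rpow_pos_of_pos hD0 _) hδσ
            have hδ1 : δ ≤ 1 := by (clear * - hx'1 hεle hZ0 hZε hδ2; linarith)
            exact by
              have hexp : ∀ a b : ℝ, a ≤ b → S.D ^ a ≤ S.D ^ b := fun a b hab =>
                Real.rpow_le_rpow_of_exponent_le hD1 hab
              have hadd : ∀ a b : ℝ, S.D ^ a * S.D ^ b = S.D ^ (a + b) := fun a b => (Real.rpow_add hD0 a b).symm
              have hpos : ∀ a : ℝ, 0 < S.D ^ a := fun a => Real.rpow_pos_of_pos hD0 a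
              have hK : ∀ k a b : ℝ, k ≤ K0 → a + ε / 2 ≤ b → k * S.D ^ a ≤ S.D ^ b := by
                intro k a b hk hab
                calc k * S.D ^ a ≤ S.D ^ (ε / 2) * S.D ^ a :=
                      mul_le_mul_of_nonneg_right (hk.trans hDK0) (Real.rpow_nonneg hD0.le _)
                  _ = S.D ^ (ε / 2 + a) := hadd _ _
                  _ ≤ S.D ^ b := hexp _ _ (by (clear * - hab; linarith))
              -- powers of `δ`
              have hδp : S.D ^ (-Z) ≤ δ ^ p1 := by
                have h1 : (S.D ^ (-σ)) ^ p1 = S.D ^ (-Z) := by
                  rw [← Real.rpow_mul_natCast hD0.le, hσ]
                  congr 1
                  (clear * - hp10 hZ0; field_simp)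
                rw [← h1]
                exact pow_le_pow_left₀ (Real.rpow_nonneg hD0.le _) hδσ p1
              have hδq : ∀ i, i ≤ p1 → S.D ^ (-Z) ≤ δ ^ i := fun i hi =>
                hδp.trans (pow_le_pow_of_le_one hδ0.le hδ1 hi)
              exact by
                have hinv : 2 ≤ δ⁻¹ := by
                  rw [le_inv_comm₀ (by norm_num) hδ0]; (clear * - hδ2; linarith)
                have hinv1 : 1 ≤ δ⁻¹ := by (clear * - hx'1 hεle hZ0 hZε hinv; linarith)
                have hinv0 : 0 < δ⁻¹ := by (clear * - hx'1 hεle hZ0 hZε hinv; linarith)
                have hinvq : ∀ i, i ≤ p1 → δ⁻¹ ^ i ≤ S.D ^ Z := by
                  intro i hi
                  have h1 := hδq i hi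
                  rw [Real.rpow_neg hD0.le] at h1
                  rw [inv_pow]
                  exact (inv_le_comm₀ (pow_pos hδ0 i) (hpos Z)).2 h1
                have hinvσ : δ⁻¹ ≤ S.D ^ σ := by
                  have h1 := hδσ
                  rw [Real.rpow_neg hD0.le] at h1
                  exact (inv_le_comm₀ hδ0 (hpos σ)).2 h1
                have hqσ : (q : ℝ) ≤ S.D ^ σ := hqδ.trans hinvσ
                exact by
                  have hq1r : (1 : ℝ) ≤ q := by exact_mod_cast hq
                  have hqpos : (0 : ℝ) < q := by (clear * - hx'1 hεle hZ0 hZε hq1r; linarith)
                  have hδn0 : 0 < δ ^ n := pow_pos hδ0 n
                  have hδn : S.D ^ (-(ε / 8)) ≤ δ ^ n := (hexp _ _ (by (clear * - hZε; linarith))).trans (hδq n (by (clear * - d hn hp1 hp1a S N p q X q0; omega)))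
                  have hqε : (q : ℝ) ≤ S.D ^ (ε / 8) := hqσ.trans (hexp _ _ (by (clear * - hZε hσZ; linarith)))
                  -- sizes
                  have hGd := hG.good
                  exact by
                    have hQ2 : S.D ^ (2 : ℝ) ≤ (S.Q : ℝ) := hGd.Q1
                    have hQ0 : (0 : ℝ) < S.Q := (hpos _).trans_le hQ2
                    have hQ1 : 1 ≤ S.Q := by exact_mod_cast hQ0
                    have hlam1 : (1 : ℝ) ≤ lam := by exact_mod_cast hG.lam1
                    have hP0 : ∀ i, 0 < S.P i := fun i => lt_of_lt_of_le (mul_pos hQ0 (hpos _)) (hGd.P1 i)
                    obtain ⟨P, hP⟩ : ∃ P, P = S.P (Fin.last m) := ⟨_, rfl⟩
                    have hPval : P = S.Q * (lam * S.D) ^ d := by rw [hP]; exact hG.Pint _ d hd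
                    exact by
                      have hlD : S.D ≤ lam * S.D := le_mul_of_one_le_left hD0.le hlam1
                      have hlD0 : 0 < lam * S.D := by (clear * - hx'1 hεle hZ0 hZε hD64 hlD; linarith)
                      obtain ⟨B, hB⟩ : ∃ B, B = ((lam : ℝ) * S.D) ^ d := ⟨_, rfl⟩
                      have hB0 : 0 < B := by rw [hB]; (clear * - hlam1 hD64; positivity)
                      rw [← hB] at hPval
                      have hPpos : 0 < P := by rw [hPval]; (clear * - hQ1 hB0; positivity)
                      rw [← hP] at hXq1 hXq2
                      have hX0 : (0 : ℝ) < X := by exact_mod_cast hX
                      obtain ⟨L, hL⟩ : ∃ L, L = X * q0 := ⟨_, rfl⟩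
                      have hL1 : 1 ≤ L := by rw [hL]; exact Nat.mul_pos hX hq0
                      have hLr : (L : ℝ) = (X : ℝ) * q0 := by rw [hL]; push_cast; rfl
                      exact by
                        rw [← hLr] at hXq1 hXq2
                        have hL0 : (0 : ℝ) < L := by exact_mod_cast hL1
                        have hXL : (X : ℝ) ≤ L := by
                          rw [hLr]
                          have : (1 : ℝ) ≤ q0 := by exact_mod_cast hq0
                          exact le_mul_of_one_le_right hX0.le this
                        have hLq1 : B * S.D ^ (-ε) / 2 ≤ L * q := by
                          rw [hPval] at hXq1
                          have h1 : S.Q * (B * S.D ^ (-ε) / 2) ≤ S.Q * (L * q) := by (clear * - hXq1; linarith)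
                          exact le_of_mul_le_mul_left h1 hQ0
                        have hLq2 : L * q ≤ B * S.D ^ (-ε) := by
                          rw [hPval] at hXq2
                          have h1 : S.Q * (L * q) ≤ S.Q * (B * S.D ^ (-ε)) := by (clear * - hXq2; linarith)
                          exact le_of_mul_le_mul_left h1 hQ0
                        have hBD : S.D ^ (d : ℝ) ≤ B := by
                          rw [hB, Real.rpow_natCast]
                          exact pow_le_pow_left₀ hD0.le hlD d
                        -- the interval
                        obtain ⟨J, hJ⟩ : ∃ J, J = ⌈S.D ^ (1 - 2 * ε)⌉₊ := ⟨_, rfl⟩
                        have hJ1 : S.D ^ (1 - 2 * ε) ≤ J := by rw [hJ]; exact Nat.le_ceil _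
                        exact by
                          have hone : 1 ≤ S.D ^ (1 - 2 * ε) := Real.one_le_rpow hD1 (by (clear * - hx'1 hεle hZ0 hZε; linarith))
                          have hJ2 : (J : ℝ) ≤ 2 * S.D ^ (1 - 2 * ε) := by
                            have := Nat.ceil_lt_add_one (hpos (1 - 2 * ε)).le
                            rw [← hJ] at this
                            (clear * - hone this; linarith)
                          have hJ3 : 1 ≤ J := by
                            have : (1 : ℝ) ≤ J := hone.trans hJ1
                            exact_mod_cast this
                          have hx0 : min xd (ε / 4) ≤ ε / 4 := min_le_right _ _
                          have hqJ : 4 * (q : ℝ) * J ≤ δ ^ n * S.T := by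
                            have h1 : S.D ^ (1 - ε / 4) ≤ S.T := (hexp _ _ (by (clear * - hx0; linarith))).trans hGd.T1
                            have h2 : 8 * S.D ^ (ε / 8 + (1 - 2 * ε)) ≤ S.D ^ (-(ε / 8) + (1 - ε / 4)) :=
                              hK 8 _ _ (by (clear * - hx'1 hεle hZ0 hZε hK064; linarith)) (by (clear * - hZ0 hZε; linarith))
                            rw [← hadd, ← hadd] at h2
                            have h3 : S.D ^ (-(ε / 8)) * S.D ^ (1 - ε / 4) ≤ δ ^ n * S.T :=
                              mul_le_mul hδn h1 (hpos _).le hδn0.le
                            have h4 : (q : ℝ) * J ≤ S.D ^ (ε / 8) * (2 * S.D ^ (1 - 2 * ε)) :=
                              mul_le_mul hqε hJ2 (by (clear * - hJ3; positivity)) (hpos _).le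
                            (clear * - h2 h3 h4; linarith)
                          -- normalisation of the frequencies
                          obtain ⟨θ1, hθ1d⟩ : ∃ θ1 : ℕ → ℝ, θ1 = fun κ => θ κ - round (θ κ) := ⟨_, rfl⟩
                          have hθ1a : ∀ κ, |θ1 κ| ≤ 1 / 2 := by
                            intro κ; rw [hθ1d]; exact abs_sub_round _
                          exact by
                            obtain ⟨ι, hι⟩ : ∃ ι : ℕ → ℤ, ι = fun j => round (φ j - θ (j / q0)) + round (θ (j / q0)) := ⟨_, rfl⟩
                            obtain ⟨φ1, hφ1d⟩ : ∃ φ1 : ℕ → ℝ, φ1 = fun j => φ j - ι j := ⟨_, rfl⟩
                            have hφ1 : ∀ j, cc j ≠ 0 → |φ1 j - θ1 (j / q0)| ≤ δ⁻¹ ^ n / X := by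
                              intro j hj
                              have h1 : φ1 j - θ1 (j / q0) = (φ j - θ (j / q0)) - round (φ j - θ (j / q0)) := by
                                rw [hφ1d, hθ1d, hι]; push_cast; ring
                              rw [h1]
                              refine (hφ j hj).trans (div_le_div_of_nonneg_right ?_ hX0.le)
                              rw [hn]
                              exact pow_le_pow_right₀ hinv1 (by (clear * - d Cr C2 ε n p1 S N p q X q0 L J; omega))
                            have hbp : bphase X r cc φ = bphase X r cc φ1 := by
                              funext y
                              unfold bphase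
                              have h1 : φ ((y - r).val / X) * ((y - r).val : ℝ) = φ1 ((y - r).val / X) * ((y - r).val : ℝ) +
                                  ((ι ((y - r).val / X) * ((y - r).val : ℤ) : ℤ) : ℝ) := by
                                rw [hφ1d]; push_cast; ring
                              rw [h1, e_add, e_int, mul_one]
                            rw [hbp] at hform
                            have hform' : δ ^ n ≤ ‖𝔼 k ∈ S.I, 𝔼 x : ZMod N, f0 x *
                                ∏ i, (Fin.snoc (α := fun _ => ZMod N → ℂ) f
                                  (blk S.Q fun y : ZMod p => bphase X r cc φ1 (y * (q : ZMod p)⁻¹)) : Fin (m + 1) → ZMod N → ℂ) i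
                                  (x + (S.a c i k : ZMod N))‖ := by
                              have h1 : δ ^ n ≤ δ ^ n0 := by
                                rw [hn]; exact pow_le_pow_of_le_one hδ0.le hδ1 (by omega)
                              refine (h1.trans hform).trans (le_of_eq ?_)
                              unfold form
                              congr 1
                              refine expect_congr rfl fun k _ => ?_
                              rw [Pi.one_apply, one_mul]
                            have hgb : ∀ i x, ‖(Fin.snoc (α := fun _ => ZMod N → ℂ) f
                                  (blk S.Q fun y : ZMod p => bphase X r cc φ1 (y * (q : ZMod p)⁻¹)) :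
                                  Fin (m + 1) → ZMod N → ℂ) i x‖ ≤ 1 := by
                              intro i x
                              refine Fin.lastCases ?_ (fun i => ?_) i
                              · rw [Fin.snoc_last]
                                unfold blk bphase
                                rw [norm_mul, norm_e, mul_one]
                                exact hcc _
                              · rw [Fin.snoc_castSucc]
                                exact (hf i).bdd x
                            obtain ⟨r0, u', hr0, hw1, hw2, hform2⟩ := exists_window S (δ ^ n) q J hq hJ3 hqJ _
                              (fun k => norm_expect_le_of5 _ _ zero_le_one fun x _ => by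
                                rw [norm_mul, norm_prod]
                                exact mul_le_one₀ (hf0.bdd _) (prod_nonneg fun _ _ => norm_nonneg _)
                                  (prod_le_one (fun _ _ => norm_nonneg _) fun i _ => hgb i _)) hform' hδn0
                            have hwr1 : (S.u : ℝ) ≤ q * u' + r0 := by exact_mod_cast hw1
                            have hwr2 : (q : ℝ) * (u' + J) + r0 ≤ S.u + S.T := by exact_mod_cast hw2
                            exact by
                              have hr0r : (r0 : ℝ) < q := by exact_mod_cast hr0
                              have hJu : J ≤ u' := by
                                have h1 : S.D ≤ q * u' + q := by (clear * - hwr1 hr0r hGd; linarith [hGd.u1])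
                                have h2 : S.D ≤ S.D ^ (ε / 8) * (u' + 1) := by
                                  have : (q : ℝ) * (u' + 1) ≤ S.D ^ (ε / 8) * (u' + 1) :=
                                    mul_le_mul_of_nonneg_right hqε (by (clear * -; positivity))
                                  (clear * - h1 this; linarith)
                                have h3 : S.D ^ (1 - ε / 8) ≤ u' + 1 := by
                                  have h4 : S.D ^ (ε / 8) * S.D ^ (1 - ε / 8) = S.D := by
                                    rw [hadd, show ε / 8 + (1 - ε / 8) = 1 by ring, Real.rpow_one]
                                  exact le_of_mul_le_mul_left (h4.le.trans h2) (hpos (ε / 8))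
                                have h4 : 3 * S.D ^ (1 - 2 * ε) ≤ S.D ^ (1 - ε / 8) := hK 3 _ _ (by (clear * - hx'1 hεle hZ0 hZε hK064; linarith)) (by (clear * - hZ0 hZε; linarith))
                                have h5 : (J : ℝ) ≤ u' := by (clear * - hone hJ2 h3 h4; linarith)
                                exact_mod_cast h5
                              have hu'1 : 1 ≤ u' := hJ3.trans hJu
                              -- the dilated system
                              have hσ64 : σ ≤ 1 / 64 := by (clear * - hx'1 hεle hZε hσZ; linarith)
                              obtain ⟨hG', hDp1, hDp2, hPp⟩ := Hd S N lam hDDd (hG.mono (min_le_left _ _) hD1) q r0 u' J hq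
                                (hqσ.trans (hexp _ _ (by (clear * - hZ0 hZσd hσZ; linarith)))) hr0 hw1 hw2 hJu
                                ((hexp _ _ (by (clear * - hεle hZ0 hZε; linarith))).trans hJ1)
                              have hdt := fun j => dil_t S c q r0 u' J j hq hu'1 hD0
                              have hda := fun j i => dil_a S c q r0 u' J j hq hu'1 hD0 hGd.ρ0 i
                              exact by
                                obtain ⟨S', hS'⟩ : ∃ S', S' = dil S c q r0 u' J := ⟨_, rfl⟩
                                have hS'Q : S'.Q = S.Q := by rw [hS']; rfl
                                have hS'I : S'.I = Ico u' (u' + J) := by rw [hS']; rfl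
                                have hS'u : S'.u = u' := by rw [hS']; rfl
                                have hS'T : S'.T = J := by rw [hS']; rfl
                                rw [← hS'] at hG' hDp1 hDp2 hPp hdt hda
                                have hGd' := hG'.good
                                have hDhalf : S.D ^ (1 / 2 : ℝ) ≤ S'.D := by
                                  refine le_trans ?_ hDp1
                                  rw [le_div_iff₀ (by (clear * - hq; positivity))]
                                  have h1 : 4 * (q : ℝ) ≤ S.D ^ (1 / 2 : ℝ) := by
                                    calc 4 * (q : ℝ) ≤ S.D ^ σ * S.D ^ σ := mul_le_mul hDσ hqσ hqpos.le (hpos _).le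
                                      _ = S.D ^ (σ + σ) := hadd _ _
                                      _ ≤ S.D ^ (1 / 2 : ℝ) := hexp _ _ (by (clear * - hx'1 hεle hZ0 hZε hσZ; linarith))
                                  calc S.D ^ (1 / 2 : ℝ) * (4 * q) ≤ S.D ^ (1 / 2 : ℝ) * S.D ^ (1 / 2 : ℝ) :=
                                        mul_le_mul_of_nonneg_left h1 (hpos _).le
                                    _ = S.D := by rw [hadd]; norm_num
                                have hDpD : S'.D ≤ S.D := by
                                  refine hDp2.trans ?_
                                  rw [div_le_iff₀ hqpos]
                                  exact le_mul_of_one_le_right hD0.le hq1r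
                                have hDp1' : 1 ≤ S'.D := le_trans ((le_max_left _ _).trans hDmax) hDhalf
                                exact by
                                  have hDp0 : 0 < S'.D := by (clear * - hx'1 hεle hZ0 hZε hDp1'; linarith)
                                  have hDpD2 : D2 ≤ S'.D := (((le_max_left _ _).trans (le_max_right _ _)).trans hDmax).trans hDhalf
                                  have hDpDr : Dr ≤ S'.D := (((le_max_right _ _).trans (le_max_right _ _)).trans hDmax).trans hDhalf
                                  have hexp' : ∀ a b : ℝ, a ≤ b → S'.D ^ a ≤ S'.D ^ b := fun a b hab =>
                                    Real.rpow_le_rpow_of_exponent_le hDp1' hab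
                                  have hadd' : ∀ a b : ℝ, S'.D ^ a * S'.D ^ b = S'.D ^ (a + b) := fun a b =>
                                    (Real.rpow_add hDp0 a b).symm
                                  have hpos' : ∀ a : ℝ, 0 < S'.D ^ a := fun a => Real.rpow_pos_of_pos hDp0 a
                                  exact by
                                    have hDpy : ∀ y : ℝ, 0 ≤ y → S.D ^ (y / 2) ≤ S'.D ^ y := by
                                      intro y hy
                                      have h1 : (S.D ^ (1 / 2 : ℝ)) ^ y ≤ S'.D ^ y := Real.rpow_le_rpow (hpos _).le hDhalf hy
                                      rwa [← Real.rpow_mul hD0.le, one_div_mul_eq_div] at h1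
                                    have hDpy' : ∀ y : ℝ, 0 ≤ y → S'.D ^ (-y) ≤ S.D ^ (-(y / 2)) := by
                                      intro y hy
                                      rw [Real.rpow_neg hDp0.le, Real.rpow_neg hD0.le]
                                      exact inv_anti₀ (hpos _) (hDpy y hy)
                                    -- the top sequence
                                    obtain ⟨ρr, hρr⟩ := hG.rho
                                    obtain ⟨A, hA⟩ : ∃ A, A = (lam * (q * u' + r0) + ρr) ^ d := ⟨_, rfl⟩
                                    obtain ⟨τ, hτd⟩ : ∃ τ : ℕ → ℕ, τ = fun j => ((lam * (q * j + r0) + ρr) ^ d - A) / q := ⟨_, rfl⟩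
                                    have hτ1 : ∀ j, u' ≤ j → (lam * (q * j + r0) + ρr) ^ d = A + q * τ j ∧
                                        τ j ≤ d * (lam * (q * j + r0) + ρr) ^ (d - 1) * (lam * (j - u')) := by
                                      intro j hj
                                      rw [hτd, hA]
                                      exact la_tau lam ρr q d u' r0 j hj
                                    have hτa : ∀ j, u' ≤ j → S.a c (Fin.last m) (q * j + r0) = ((S.Q * (A + q * τ j) : ℕ) : ℤ) := by
                                      intro j hj
                                      rw [a_nat hG hD0 hρr (Fin.last m) d hd, ← Nat.cast_pow, (hτ1 j hj).1]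
                                      push_cast; ring
                                    have hkI : ∀ j ∈ Ico u' (u' + J), S.u ≤ q * j + r0 ∧ q * j + r0 < S.u + S.T := by
                                      intro j hj
                                      obtain ⟨h1, h2⟩ := mem_Ico.1 hj
                                      have h3 : q * u' ≤ q * j := Nat.mul_le_mul_left _ h1
                                      have h4 : q * (j + 1) ≤ q * (u' + J) := Nat.mul_le_mul_left _ h2
                                      have h5 : q * (j + 1) = q * j + q := by ring
                                      omega
                                    have hτB : ∀ j ∈ Ico u' (u' + J), (τ j : ℝ) ≤ δ ^ n / 8 * L := by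
                                      intro j hj
                                      obtain ⟨h1, h2⟩ := mem_Ico.1 hj
                                      obtain ⟨h3, h4⟩ := hkI j hj
                                      have h5 : ((lam * (q * j + r0) + ρr : ℕ) : ℝ) ≤ 3 * (lam * S.D) := by
                                        have h6 : ((q * j + r0 : ℕ) : ℝ) ≤ 2 * S.D := by
                                          have h7 : ((q * j + r0 : ℕ) : ℝ) ≤ S.u + S.T := by exact_mod_cast h4.le
                                          (clear * - h7 hGd; linarith [hGd.u2])
                                        have h7 : ((lam * (q * j + r0) + ρr : ℕ) : ℝ) = lam * ((q * j + r0 : ℕ) : ℝ) + S.ρ * lam := by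
                                          rw [hρr]; push_cast; ring
                                        rw [h7]
                                        have h8 : (lam : ℝ) * ((q * j + r0 : ℕ) : ℝ) ≤ lam * (2 * S.D) :=
                                          mul_le_mul_of_nonneg_left h6 (by (clear * -; linarith))
                                        have h9 : S.ρ * lam ≤ 1 * lam := mul_le_mul_of_nonneg_right hGd.ρ1 (by (clear * -; linarith))
                                        have h10 : (lam : ℝ) * 1 ≤ lam * S.D := mul_le_mul_of_nonneg_left hD1 (by (clear * -; linarith))
                                        (clear * - h8 h9 h10; linarith)
                                      have h6 : ((j - u' : ℕ) : ℝ) ≤ J := by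
                                        have : j - u' ≤ J := by omega
                                        exact_mod_cast this
                                      have h7 : (τ j : ℝ) ≤ d * (3 * (lam * S.D)) ^ (d - 1) * (lam * J) := by
                                        have h8 : (τ j : ℝ) ≤ ((d * (lam * (q * j + r0) + ρr) ^ (d - 1) * (lam * (j - u')) : ℕ) : ℝ) := by
                                          exact_mod_cast (hτ1 j h1).2
                                        refine h8.trans ?_
                                        rw [Nat.cast_mul, Nat.cast_mul, Nat.cast_pow, Nat.cast_mul lam (j - u')]
                                        (clear * - h5 hd2 h6 hlam1 hD64; gcongr)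
                                      have h8 : (lam : ℝ) * J ≤ 2 * (lam * S.D) * S.D ^ (-(2 * ε)) := by
                                        have h9 : S.D ^ (1 - 2 * ε) = S.D * S.D ^ (-(2 * ε)) := by
                                          rw [sub_eq_add_neg, ← hadd, Real.rpow_one]
                                        rw [h9] at hJ2
                                        have := mul_le_mul_of_nonneg_left hJ2 (by (clear * -; linarith) : (0 : ℝ) ≤ lam)
                                        (clear * - this; linarith)
                                      have h9 : (d : ℝ) * (3 * (lam * S.D)) ^ (d - 1) * (2 * (lam * S.D) * S.D ^ (-(2 * ε))) ≤
                                          2 * d * 3 ^ d * B * S.D ^ (-(2 * ε)) := by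
                                        have h10 : (3 * ((lam : ℝ) * S.D)) ^ (d - 1) * (lam * S.D) ≤ 3 ^ d * B := by
                                          have h11 : (3 * ((lam : ℝ) * S.D)) ^ d = 3 ^ d * B := by rw [mul_pow, hB]
                                          rw [← h11]
                                          have h12 : (3 * ((lam : ℝ) * S.D)) ^ d = (3 * ((lam : ℝ) * S.D)) ^ (d - 1) * (3 * (lam * S.D)) := by
                                            rw [← pow_succ]; congr 1; omega
                                          rw [h12]
                                          have h13 : (0 : ℝ) ≤ (3 * ((lam : ℝ) * S.D)) ^ (d - 1) := by (clear * - hlam1 hD64; positivity)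
                                          exact mul_le_mul_of_nonneg_left (by linarith only [hlD0]) h13
                                        have h11 : (0 : ℝ) ≤ 2 * d * S.D ^ (-(2 * ε)) := by have := hpos (-(2 * ε)); positivity
                                        have h12 := mul_le_mul_of_nonneg_left h10 h11
                                        (clear * - h12; linarith)
                                      have h10 : (τ j : ℝ) ≤ 2 * d * 3 ^ d * B * S.D ^ (-(2 * ε)) := by
                                        refine h7.trans (le_trans ?_ h9)
                                        exact mul_le_mul_of_nonneg_left h8 (by (clear * - hd2 hlam1 hD64; positivity))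
                                      have h11 : 32 * d * 3 ^ d * S.D ^ (ε / 8 + -(2 * ε)) ≤ S.D ^ (-(ε / 8) + -ε) :=
                                        hK _ _ _ (by rw [hK0]; have : (0 : ℝ) ≤ 32 * d * 3 ^ d := by positivity
                                                     (clear * - hx'1 hεle hZ0 hZε hK0 hK064; linarith)) (by (clear * - hZ0 hZε; linarith))
                                      rw [← hadd, ← hadd] at h11
                                      have h12 : 32 * d * 3 ^ d * (q * S.D ^ (-(2 * ε))) ≤ δ ^ n * S.D ^ (-ε) := by
                                        refine le_trans ?_ (h11.trans (mul_le_mul_of_nonneg_right hδn (hpos _).le))
                                        exact mul_le_mul_of_nonneg_left (mul_le_mul_of_nonneg_right hqε (hpos _).le) (by positivity)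
                                      have h13 : (τ j : ℝ) * q ≤ δ ^ n / 8 * L * q := by
                                        calc (τ j : ℝ) * q ≤ 2 * d * 3 ^ d * B * S.D ^ (-(2 * ε)) * q :=
                                              mul_le_mul_of_nonneg_right h10 hqpos.le
                                          _ = B / 16 * (32 * d * 3 ^ d * (q * S.D ^ (-(2 * ε)))) := by ring
                                          _ ≤ B / 16 * (δ ^ n * S.D ^ (-ε)) := mul_le_mul_of_nonneg_left h12 (by (clear * - hB0; positivity))
                                          _ = δ ^ n / 8 * (B * S.D ^ (-ε) / 2) := by ring
                                          _ ≤ δ ^ n / 8 * (L * q) := mul_le_mul_of_nonneg_left hLq1 (by positivity)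
                                          _ = δ ^ n / 8 * L * q := by ring
                                      exact le_of_mul_le_mul_right h13 hqpos
                                    exact by
                                      have hδn1 : δ ^ n ≤ 1 := pow_le_one₀ hδ0.le hδ1
                                      have hqLp : (L : ℝ) * q ≤ δ ^ n / 4 * p := by
                                        have h1 : P ≤ N * S.D ^ (ε / 4) := by
                                          rw [hP]
                                          exact (hGd.N1 _).trans (mul_le_mul_of_nonneg_left (hexp _ _ hx0) (by (clear * -; positivity)))
                                        have h2 : 4 * S.D ^ (ε / 4 + -ε) ≤ S.D ^ (-(ε / 8)) :=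
                                          hK 4 _ _ (by (clear * - hx'1 hεle hZ0 hZε hK064; linarith)) (by (clear * - hZ0 hZε; linarith))
                                        have hNr : (N : ℝ) = S.Q * p := by rw [hN]; push_cast; ring
                                        rw [hPval, hNr] at h1
                                        have h3 : B ≤ p * S.D ^ (ε / 4) := by
                                          have : S.Q * B ≤ S.Q * (p * S.D ^ (ε / 4)) := by (clear * - h1; linarith)
                                          exact le_of_mul_le_mul_left this hQ0
                                        have h4 : (L : ℝ) * q ≤ p * S.D ^ (ε / 4) * S.D ^ (-ε) :=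
                                          hLq2.trans (mul_le_mul_of_nonneg_right h3 (hpos _).le)
                                        rw [mul_assoc, hadd] at h4
                                        have h5 : (p : ℝ) * (4 * S.D ^ (ε / 4 + -ε)) ≤ p * δ ^ n :=
                                          mul_le_mul_of_nonneg_left (h2.trans hδn) (by (clear * -; positivity))
                                        (clear * - h4 h5; linarith)
                                      have hp0 : 0 < p := hp.pos
                                      have hp0r : (0 : ℝ) < p := by exact_mod_cast hp0
                                      have hqp : q < p := by
                                        have h1 : (q : ℝ) < p := by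
                                          have h2 : (1 : ℝ) ≤ L := by exact_mod_cast hL1
                                          have h3 : 1 * (q : ℝ) ≤ L * q := mul_le_mul_of_nonneg_right h2 hqpos.le
                                          have h4 : δ ^ n / 4 * p ≤ 1 / 4 * p := by
                                            exact mul_le_mul_of_nonneg_right (by (clear * - hδn1; linarith)) hp0r.le
                                          (clear * - hx'1 hεle hZ0 hZε hq1r hqLp h3 h4; linarith)
                                        exact_mod_cast h1
                                      have hLp : ((X * q0 : ℕ) : ℝ) ≤ δ ^ n / 4 * p := by
                                        rw [← hL]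
                                        refine le_trans ?_ hqLp
                                        exact le_mul_of_one_le_right hL0.le hq1r
                                      -- localisation
                                      exact by
                                        obtain ⟨Bd, hBd⟩ : ∃ Bd, Bd = ⌊δ ^ n / 8 * L⌋₊ := ⟨_, rfl⟩
                                        have hBdle : (Bd : ℝ) ≤ δ ^ n / 8 * ((X * q0 : ℕ) : ℝ) := by
                                          rw [← hL, hBd]; exact Nat.floor_le (by positivity)
                                        have hBdL : Bd ≤ L := by
                                          have h1 : (Bd : ℝ) ≤ L := by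
                                            refine hBdle.trans ?_
                                            rw [← hL]
                                            exact mul_le_of_le_one_left hL0.le (by (clear * - hx'1 hεle hZ0 hZε hδn1; linarith))
                                          exact_mod_cast h1
                                        have hτ2 : ∀ j ∈ Ico u' (u' + J), S.a c (Fin.last m) (q * j + r0) =
                                            ((S.Q * (A + q * τ j) : ℕ) : ℤ) ∧ τ j ≤ Bd := by
                                          intro j hj
                                          refine ⟨hτa j (mem_Ico.1 hj).1, ?_⟩
                                          rw [hBd]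
                                          exact Nat.le_floor (hτB j hj)
                                        obtain ⟨κ, hκ, hE2⟩ := la_cell S c (δ ^ n) hδn0 p S.Q q X q0 J Bd r0 u' A hX hq0 hp hN hQ1 hq hqp
                                          hLp τ hτ2 hBdle f0 f hf0.bdd (fun i => (hf i).bdd) r cc φ1 θ1 hcc hform2
                                        obtain ⟨z, hz⟩ : ∃ z : ZMod N, z = ((S.Q * ((q : ZMod p) * (r + ((κ * (X * q0) : ℕ) : ZMod p)) -
                                          (A : ZMod p)).val : ℕ) : ZMod N) := ⟨_, rfl⟩
                                        rw [← hz] at hE2
                                        obtain ⟨j0, hj0, hcj0⟩ : ∃ j, j / q0 = κ ∧ cc j ≠ 0 := by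
                                          by_contra hcon
                                          push Not at hcon
                                          have hw0 : ∀ w, cpf X (X * q0) κ cc φ1 (θ1 κ) w = 0 := by
                                            intro w
                                            unfold cpf
                                            split_ifs with hw
                                            · rw [hcon _ (lpl_cell_index X q0 κ w hX hq0 hw), zero_mul]
                                            · rfl
                                          have h0 : laE2 S c f0 f X (X * q0) S.Q q κ z cc φ1 (θ1 κ) r0 u' J τ = 0 := by
                                            unfold laE2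
                                            refine expect_eq_zero fun k _ => expect_eq_zero fun y _ => expect_eq_zero fun e' _ => ?_
                                            rw [hw0, zero_mul, mul_zero]
                                          rw [h0, norm_zero] at hE2
                                          (clear * - hδn0 hE2; linarith)
                                        obtain ⟨W, hW⟩ : ∃ W, W = δ⁻¹ ^ n := ⟨_, rfl⟩
                                        obtain ⟨ϑ, hϑ⟩ : ∃ ϑ, ϑ = θ1 κ := ⟨_, rfl⟩
                                        have hWδ : δ⁻¹ ≤ W := by
                                          rw [hW]; exact le_self_pow₀ hinv1 (by (clear * - d Cr C2 ε hn p1 S N lam δ p q X q0 L J r0 u' S' ρr A Bd κ j0; omega))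
                                        have hW2 : 2 ≤ W := hinv.trans hWδ
                                        have hφθ : ∀ j, j / q0 = κ → cc j ≠ 0 → |φ1 j - ϑ| ≤ W / X := by
                                          intro j hj hcj
                                          have := hφ1 j hcj
                                          rw [hj, ← hϑ, ← hW] at this
                                          exact this
                                        exact by
                                          have hϑ2 : |ϑ| ≤ 1 / 2 := by rw [hϑ]; exact hθ1a κ
                                          -- the new modulus
                                          have hqL1 : 1 ≤ q * L := Nat.mul_pos hq hL1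
                                          obtain ⟨p', hp', hp'1, hp'2⟩ := Nat.exists_prime_lt_and_le_two_mul (4 * (q * L)) (by omega)
                                          obtain ⟨N', hN'⟩ : ∃ N', N' = S.Q * p' := ⟨_, rfl⟩
                                          have hN'0 : N' ≠ 0 := by
                                            rw [hN']; exact Nat.mul_ne_zero (by omega) hp'.ne_zero
                                          have : NeZero N' := ⟨hN'0⟩
                                          have hp'1r : 4 * ((q : ℝ) * L) ≤ p' := by exact_mod_cast hp'1.le
                                          have hp'2r : (p' : ℝ) ≤ 8 * (q * L) := by
                                            have : p' ≤ 8 * (q * L) := by omega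
                                            exact_mod_cast this
                                          exact by
                                            have hN'r : (N' : ℝ) = S.Q * p' := by rw [hN']; push_cast; ring
                                            have hPi : ∀ i : Fin m, S.P i.castSucc * 3 ^ (c i.castSucc) ≤ S.Q * (q * L) := by
                                              intro i
                                              have h1 : S.P i.castSucc ≤ S.Q * S.D ^ (c i.castSucc + ε / 4) :=
                                                (hGd.P2 _).trans (mul_le_mul_of_nonneg_left (hexp _ _ (by linarith only [hx0])) hQ0.le)
                                              have h2 := hgap i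
                                              have h3 : (3 : ℝ) ^ (c i.castSucc) ≤ 3 ^ d := by
                                                rw [← Real.rpow_natCast]
                                                exact Real.rpow_le_rpow_of_exponent_le (by norm_num) (by linarith only [h2])
                                              have h4 : S.D ^ (c i.castSucc + ε / 4) ≤ S.D ^ ((d : ℝ) - 2 + ε / 4) :=
                                                hexp _ _ (by linarith only [h2])
                                              have h5 : 2 * 3 ^ d * S.D ^ ((d : ℝ) - 2 + ε / 4) ≤ S.D ^ ((d : ℝ) + -ε) := by
                                                refine hK _ _ _ ?_ (by linarith only [hε1, hε])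
                                                rw [hK0]
                                                have h6 : (1 : ℝ) * 3 ^ d ≤ d * 3 ^ d := mul_le_mul_of_nonneg_right (by linarith only [hd2r]) h3d.le
                                                linarith only [h6, h3d]
                                              rw [← hadd (d : ℝ) (-ε)] at h5
                                              have h6 : S.D ^ (d : ℝ) * S.D ^ (-ε) ≤ B * S.D ^ (-ε) := mul_le_mul_of_nonneg_right hBD (hpos _).le
                                              calc S.P i.castSucc * 3 ^ (c i.castSucc) ≤ (S.Q * S.D ^ ((d : ℝ) - 2 + ε / 4)) * 3 ^ d := by
                                                    refine mul_le_mul (h1.trans (mul_le_mul_of_nonneg_left h4 hQ0.le)) h3 (by positivity) ?_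
                                                    have := hpos ((d : ℝ) - 2 + ε / 4)
                                                    (clear * - hQ1 hD64; positivity)
                                                _ = S.Q * (2 * 3 ^ d * S.D ^ ((d : ℝ) - 2 + ε / 4) / 2) := by ring
                                                _ ≤ S.Q * (L * q) := by
                                                    refine mul_le_mul_of_nonneg_left ?_ hQ0.le
                                                    linarith only [h5, h6, hLq1]
                                                _ = S.Q * (q * L) := by ring
                                            have hPi' : ∀ i : Fin m, S.P i.castSucc ≤ S.Q * (q * L) := by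
                                              intro i
                                              have h2 : (1 : ℝ) ≤ 3 ^ (c i.castSucc) := Real.one_le_rpow (by norm_num) (hc0 _).le
                                              exact (le_mul_of_one_le_right (hP0 _).le h2).trans (hPi i)
                                            have hG'' : IG S' c N' x2 (lam * q) := by
                                              refine hG'.modulus hx'2 hDp1' (fun i => ?_) ⟨p', hp', by rw [hN', hS'Q]⟩
                                              rw [hN'r]
                                              have h1x : 1 ≤ S'.D ^ x2 := Real.one_le_rpow hDp1' hx2.le
                                              refine ((hPp i).2).trans ?_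
                                              refine Fin.lastCases ?_ (fun i => ?_) i
                                              · rw [← hP]
                                                exact by
                                                  have h1 : S.D ^ ε ≤ S'.D ^ x2 := by
                                                    refine le_trans (hexp _ _ ?_) ((hDpy x' hx'0.le).trans (hexp' _ _ hx'2))
                                                    linarith only [hεle, hx'0]
                                                  have h2 : P ≤ 2 * (S.Q * (L * q)) * S.D ^ ε := by
                                                    have h3 : P * S.D ^ (-ε) ≤ 2 * (S.Q * (L * q)) := by linarith only [hXq1]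
                                                    have h4 := mul_le_mul_of_nonneg_right h3 (hpos ε).le
                                                    rw [mul_assoc P, hadd, neg_add_cancel, Real.rpow_zero, mul_one] at h4
                                                    exact h4
                                                  have h3 : 2 * (S.Q * (L * q)) ≤ S.Q * (p' : ℝ) := by
                                                    have h4 := mul_le_mul_of_nonneg_left hp'1r hQ0.le
                                                    have h5 : (0 : ℝ) ≤ S.Q * (L * q) := by positivity
                                                    linarith only [h4, h5]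
                                                  calc P ≤ 2 * (S.Q * (L * q)) * S.D ^ ε := h2
                                                    _ ≤ S.Q * p' * S'.D ^ x2 := mul_le_mul h3 h1 (hpos _).le (by (clear * - hQ1; positivity))
                                              · have h1 := hPi' i
                                                exact by
                                                  have h2 : (S.Q : ℝ) * (q * L) ≤ S.Q * p' := by
                                                    refine mul_le_mul_of_nonneg_left ?_ hQ0.le
                                                    have : (0 : ℝ) ≤ q * L := by positivity
                                                    linarith only [hp'1r, this]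
                                                  calc S.P i.castSucc ≤ S.Q * p' * 1 := by rw [mul_one]; exact h1.trans h2
                                                    _ ≤ S.Q * p' * S'.D ^ x2 := mul_le_mul_of_nonneg_left h1x (by (clear * - hQ1; positivity))
                                            -- the new parameter
                                            obtain ⟨δ', hδ'⟩ : ∃ δ', δ' = δ ^ (n + 7) := ⟨_, rfl⟩
                                            have hδ'0 : 0 < δ' := by rw [hδ']; positivity
                                            have hδ'1 : S'.D ^ (-σ2) ≤ δ' := by
                                              rw [hδ']
                                              refine (hDpy' σ2 hσ2.le).trans ((hexp _ _ ?_).trans (hδq (n + 7) hp1a))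
                                              linarith only [hZσ2, hσ2]
                                            exact by
                                              have hδ'2 : δ' ≤ 1 / 2 := by
                                                rw [hδ']
                                                refine le_trans ?_ hδ2
                                                calc δ ^ (n + 7) ≤ δ ^ 1 := pow_le_pow_of_le_one hδ0.le hδ1 (by (clear * - d Cr C2 ε hn p1 S N lam δ p q X q0 L J r0 u' S' ρr A Bd κ j0 p' N'; omega))
                                                  _ = δ := pow_one δ
                                              have h27 : (2 : ℝ) ^ 7 ≤ δ⁻¹ ^ 7 := pow_le_pow_left₀ (by norm_num) hinv 7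
                                              have hδ'i : 128 * W ≤ δ'⁻¹ := by
                                                rw [hδ', ← inv_pow, pow_add, ← hW]
                                                calc 128 * W = W * 2 ^ 7 := by ring
                                                  _ ≤ W * δ⁻¹ ^ 7 := mul_le_mul_of_nonneg_left h27 (by linarith only [hW2])
                                              have hδ'W : 32 * W ≤ δ'⁻¹ := by linarith only [hδ'i, hW2]
                                              have hδ'I : 2 * δ⁻¹ + 6 ≤ δ'⁻¹ := by linarith only [hδ'i, hWδ, hinv]
                                              have hlam' : ((lam * q : ℕ) : ℝ) ≤ δ'⁻¹ := by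
                                                have h1 : ((lam * q : ℕ) : ℝ) ≤ δ⁻¹ * δ⁻¹ := by
                                                  push_cast
                                                  exact mul_le_mul hlam hqδ hqpos.le hinv0.le
                                                have h2 : δ⁻¹ * δ⁻¹ = δ⁻¹ ^ 2 := by ring
                                                rw [h2] at h1
                                                refine h1.trans ?_
                                                rw [hδ', ← inv_pow]
                                                exact pow_le_pow_right₀ hinv1 (by omega)
                                              -- the functions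
                                              exact by
                                                obtain ⟨X', hX'⟩ : ∃ X' : ℝ, X' = ((S.Q * q * X : ℕ) : ℝ) := ⟨_, rfl⟩
                                                have hX'r : X' = S.Q * (q * X) := by rw [hX']; push_cast; ring
                                                have hX1r : (1 : ℝ) ≤ X := by exact_mod_cast hX
                                                have hqX1 : (1 : ℝ) ≤ q * X := by
                                                  calc (1 : ℝ) = 1 * 1 := by norm_num
                                                    _ ≤ q * X := mul_le_mul hq1r hX1r zero_le_one hqpos.le
                                                have hQX' : (S'.Q : ℝ) ≤ X' := by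
                                                  rw [hS'Q, hX'r]; exact le_mul_of_one_le_right hQ0.le hqX1
                                                have hX'1 : S'.Q * S'.D ^ (s - σ2) ≤ X' := by
                                                  rw [hS'Q, hX'r]
                                                  refine mul_le_mul_of_nonneg_left ?_ hQ0.le
                                                  rcases le_total 0 (s - σ2) with h | h
                                                  · calc S'.D ^ (s - σ2) ≤ S.D ^ (s - σ2) := Real.rpow_le_rpow hDp0.le hDpD h
                                                      _ ≤ S.D ^ (s - σ) := hexp _ _ (by linarith only [hZσ2, hσZ, hσ2])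
                                                      _ ≤ X := hX1
                                                      _ ≤ q * X := le_mul_of_one_le_left hX0.le hq1r
                                                  · exact (Real.rpow_le_one_of_one_le_of_nonpos hDp1' h).trans hqX1
                                                have hX'2 : X' ≤ S'.Q * S'.D ^ s := by
                                                  rw [hS'Q, hX'r]
                                                  refine mul_le_mul_of_nonneg_left ?_ hQ0.le
                                                  have h1 : S.D ^ s ≤ 4 * q * S'.D ^ s := by
                                                    have h2 : S.D ≤ 4 * q * S'.D := by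
                                                      rw [div_le_iff₀ (by positivity)] at hDp1
                                                      linarith only [hDp1]
                                                    calc S.D ^ s ≤ (4 * q * S'.D) ^ s := Real.rpow_le_rpow hD0.le h2 hs0.le
                                                      _ = (4 * q) ^ s * S'.D ^ s := Real.mul_rpow (by positivity) hDp0.le
                                                      _ ≤ (4 * q) ^ (1 : ℝ) * S'.D ^ s := by
                                                          refine mul_le_mul_of_nonneg_right ?_ (hpos' s).le
                                                          exact Real.rpow_le_rpow_of_exponent_le (by linarith only [hq1r]) hs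
                                                      _ = 4 * q * S'.D ^ s := by rw [Real.rpow_one]
                                                  have h2 : 4 * q * (q * (X : ℝ)) ≤ S.D ^ s := by
                                                    have h3 : 4 * q * (q : ℝ) ≤ δ⁻¹ ^ 4 := by
                                                      have h4 : (4 : ℝ) ≤ δ⁻¹ * δ⁻¹ := by
                                                        calc (4 : ℝ) = 2 * 2 := by norm_num
                                                          _ ≤ δ⁻¹ * δ⁻¹ := mul_le_mul hinv hinv (by norm_num) hinv0.le
                                                      have h5 : 4 * q * (q : ℝ) ≤ δ⁻¹ * δ⁻¹ * δ⁻¹ * δ⁻¹ :=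
                                                        mul_le_mul (mul_le_mul h4 hqδ hqpos.le (by (clear * - hδ0; positivity))) hqδ hqpos.le (by (clear * - hδ0; positivity))
                                                      calc 4 * q * (q : ℝ) ≤ δ⁻¹ * δ⁻¹ * δ⁻¹ * δ⁻¹ := h5
                                                        _ = δ⁻¹ ^ 4 := by ring
                                                    calc 4 * q * (q * (X : ℝ)) = X * (4 * q * q) := by ring
                                                      _ ≤ X * δ⁻¹ ^ 4 := mul_le_mul_of_nonneg_left h3 hX0.le
                                                      _ ≤ S.D ^ s := hX2
                                                  have h3 : 4 * q * (q * (X : ℝ)) ≤ 4 * q * S'.D ^ s := h2.trans h1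
                                                  exact le_of_mul_le_mul_left h3 (by positivity)
                                                exact by
                                                  have hQN' : S.Q ≤ N' := by rw [hN']; exact Nat.le_mul_of_pos_right _ hp'.pos
                                                  have hRN' : S.Q * q * X ≤ N' := by
                                                    rw [hN', mul_assoc]
                                                    refine Nat.mul_le_mul_left _ ?_
                                                    have h1 : q * X ≤ q * L := Nat.mul_le_mul_left _ (by rw [hL]; exact Nat.le_mul_of_pos_right _ hq0)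
                                                    omega
                                                  have hA0 : Adm (N := N') δ'⁻¹ S'.Q (fun x => laψ q L ϑ (x.val / S.Q) * f0 (z + (x.val : ZMod N))) := by
                                                    rw [hS'Q]; exact la_classes_0 S.Q q L hQ1 hQN' δ⁻¹ δ'⁻¹ hδ'I z ϑ f0 hf0
                                                  have hAi : ∀ i, Adm (N := N') δ'⁻¹ S'.Q (fun x => f i (z + (x.val : ZMod N))) := by
                                                    intro i
                                                    rw [hS'Q]; exact la_classes_i S.Q hQ1 hQN' δ⁻¹ δ'⁻¹ hδ'I z (f i) (hf i)
                                                  have hAc : Adm (N := N') δ'⁻¹ X' (fun x => cpf X L κ cc φ1 ϑ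
                                                      ((x - ((S.Q * A : ℕ) : ZMod N')).val / S.Q / q)) := by
                                                    rw [hX', hL]
                                                    exact la_classes_c S.Q q X q0 κ hQ1 hq hX hq0 hRN' W δ'⁻¹ hW2 hδ'W cc φ1 ϑ hcc hφθ _
                                                  have hA : ∀ i, Adm (N := N') δ'⁻¹ S'.Q ((Fin.snoc (α := fun _ => ZMod N' → ℂ)
                                                      (fun i x => f i (z + (x.val : ZMod N)))
                                                      (fun x => cpf X L κ cc φ1 ϑ ((x - ((S.Q * A : ℕ) : ZMod N')).val / S.Q / q)) :
                                                      Fin (m + 1) → ZMod N' → ℂ) i) := by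
                                                    intro i
                                                    refine Fin.lastCases ?_ (fun i => ?_) i
                                                    · rw [Fin.snoc_last]
                                                      exact hAc.mono le_rfl (by rw [hS'Q]; exact hQ0) hQX'
                                                    · rw [Fin.snoc_castSucc]
                                                      exact hAi i
                                                  have htr := la_transport (N' := N') S S' c f0 f X L S.Q q κ p' A z cc φ1 ϑ r0 u' J τ hL1 hq hQ1
                                                    hp'1.le hN' hS'I (fun i j _ => hda j i)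
                                                    (by
                                                      intro i j hj
                                                      obtain ⟨h1, h2⟩ := hkI j hj
                                                      have h7 := lpl_b S c i.castSucc (hc0 _) hGd.ρ0 hGd.ρ1 hD1 (hP0 _).le S.T S.u (q * j + r0)
                                                        hGd.u1 h1 h2 hGd.u2
                                                      refine ⟨h7.2.1, ?_⟩
                                                      have h8 := h7.2.2.trans (hPi i)
                                                      exact_mod_cast h8)
                                                    (fun j hj => ⟨(hτ2 j hj).1, (hτ2 j hj).2.trans hBdL⟩)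
                                                  have hF : δ' ≤ ‖form (N := N') S' c (fun j => e (ϑ * (τ j : ℝ)))
                                                      (fun x => laψ q L ϑ (x.val / S.Q) * f0 (z + (x.val : ZMod N)))
                                                      (Fin.snoc (α := fun _ => ZMod N' → ℂ) (fun i x => f i (z + (x.val : ZMod N)))
                                                        (fun x => cpf X L κ cc φ1 ϑ ((x - ((S.Q * A : ℕ) : ZMod N')).val / S.Q / q)))‖ := by
                                                    rw [htr, norm_mul]
                                                    rw [← hL, ← hϑ] at hE2
                                                    have hp'0r : (0 : ℝ) < p' := by exact_mod_cast hp'.pos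
                                                    have h1 : ‖((L : ℂ) / p')‖ = (L : ℝ) / p' := by
                                                      rw [norm_div, Complex.norm_natCast, Complex.norm_natCast]
                                                    have h2 : δ / 8 ≤ (L : ℝ) / p' := by
                                                      rw [le_div_iff₀ hp'0r]
                                                      have h3 : δ * q ≤ 1 := by
                                                        have := mul_le_mul_of_nonneg_left hqδ hδ0.le
                                                        rwa [mul_inv_cancel₀ hδ0.ne'] at this
                                                      calc δ / 8 * p' ≤ δ / 8 * (8 * (q * L)) := mul_le_mul_of_nonneg_left hp'2r (by positivity)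
                                                        _ = (δ * q) * L := by ring
                                                        _ ≤ 1 * L := mul_le_mul_of_nonneg_right h3 hL0.le
                                                        _ = L := one_mul _
                                                    rw [h1, hδ', pow_add]
                                                    have h3 : δ ^ 7 ≤ δ / 64 := by
                                                      have h4 : δ ^ 6 ≤ 1 / 64 := by
                                                        calc δ ^ 6 ≤ (1 / 2) ^ 6 := pow_le_pow_left₀ hδ0.le hδ2 6
                                                          _ = 1 / 64 := by norm_num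
                                                      have h5 : δ * δ ^ 6 ≤ δ * (1 / 64) := mul_le_mul_of_nonneg_left h4 hδ0.le
                                                      have h6 : δ ^ 7 = δ * δ ^ 6 := by ring
                                                      linarith only [h5, h6]
                                                    calc δ ^ n * δ ^ 7 ≤ δ ^ n * (δ / 64) := mul_le_mul_of_nonneg_left h3 hδn0.le
                                                      _ = (δ / 8) * (δ ^ n / 8) := by ring
                                                      _ ≤ (L : ℝ) / p' * ‖laE2 S c f0 f X L S.Q q κ z cc φ1 ϑ r0 u' J τ‖ :=
                                                          mul_le_mul h2 hE2 (by positivity) (by (clear * - hL1 hp'0r; positivity))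
                                                  obtain ⟨q2, hq21, hq22, θ', hθ'1, hθ'2, hθ'3⟩ := H2 S' N' (lam * q) hDpD2 hG'' δ' hδ'1 hδ'2 hlam' X'
                                                    hQX' hX'1 hX'2 _ _ _ (fun k => (norm_e _).le) hA0 hA (by rw [Fin.snoc_last]; exact hAc) hF
                                                  -- the window
                                                  obtain ⟨δ3, hδ3⟩ : ∃ δ3, δ3 = δ' ^ (C2 + 1) := ⟨_, rfl⟩
                                                  have hδ3v : δ3 = δ ^ ((n + 7) * (C2 + 1)) := by rw [hδ3, hδ', ← pow_mul]
                                                  have hδ30 : 0 < δ3 := by rw [hδ3]; exact pow_pos hδ'0 _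
                                                  have hδ31 : S'.D ^ (-σr) ≤ δ3 := by
                                                    rw [hδ3v]
                                                    refine (hDpy' σr hσr.le).trans ((hexp _ _ ?_).trans (hδq _ hp1b))
                                                    linarith only [hZσr, hσr]
                                                  have hδ'le1 : δ' ≤ 1 := by linarith only [hδ'2]
                                                  have hδ32 : δ3 ≤ 1 / 2 := by
                                                    rw [hδ3]
                                                    refine le_trans ?_ hδ'2
                                                    calc δ' ^ (C2 + 1) ≤ δ' ^ 1 := pow_le_pow_of_le_one hδ'0.le hδ'le1 (by omega)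
                                                      _ = δ' := pow_one δ'
                                                  have hδ'inv1 : 1 ≤ δ'⁻¹ := (one_le_inv₀ hδ'0).2 hδ'le1
                                                  have hδ3i : δ3⁻¹ = δ'⁻¹ ^ (C2 + 1) := by rw [hδ3, inv_pow]
                                                  have hlam3 : ((lam * q : ℕ) : ℝ) ≤ δ3⁻¹ := by
                                                    rw [hδ3i]; exact hlam'.trans (le_self_pow₀ hδ'inv1 (by omega))
                                                  have hδ3C : δ'⁻¹ ^ C2 ≤ δ3⁻¹ := by
                                                    rw [hδ3i]; exact pow_le_pow_right₀ hδ'inv1 (by omega)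
                                                  have hq23 : (q2 : ℝ) ≤ δ3⁻¹ := hq22.trans hδ3C
                                                  have hδ3Z : δ3⁻¹ ≤ S.D ^ Z := by
                                                    rw [hδ3v, ← inv_pow]; exact hinvq _ hp1b
                                                  have h3ε2 : 3 ≤ S'.D ^ (ε2 / 2) := by
                                                    refine hDε2.trans ?_
                                                    have := hDpy (ε2 / 2) (by positivity)
                                                    rwa [show ε2 / 2 / 2 = ε2 / 4 by ring] at this
                                                  obtain ⟨K, hKd⟩ : ∃ K, K = ⌊S'.D ^ (1 - ε2)⌋₊ := ⟨_, rfl⟩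
                                                  have hK2 : (K : ℝ) ≤ S'.D ^ (1 - ε2) := by rw [hKd]; exact Nat.floor_le (hpos' _).le
                                                  have hK3 : S'.D ^ (1 - ε2) < K + 1 := by rw [hKd]; exact Nat.lt_floor_add_one _
                                                  have hK5 : 3 ≤ S'.D ^ (1 - ε2) := h3ε2.trans (hexp' _ _ (by linarith only [hε2b]))
                                                  have hK1 : 1 ≤ K := by
                                                    have : (1 : ℝ) ≤ K := by linarith only [hK3, hK5]
                                                    exact_mod_cast this
                                                  have hK4 : S'.D ^ (1 - xr) ≤ K := by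
                                                    have h1 : S'.D ^ (1 - xr) ≤ S'.D ^ (1 - 2 * ε2) := hexp' _ _ (by linarith only [hε2a])
                                                    have h2 : 1 ≤ S'.D ^ (1 - 2 * ε2) := Real.one_le_rpow hDp1' (by linarith only [hε2b])
                                                    have h3 : 3 * S'.D ^ (1 - 2 * ε2) ≤ S'.D ^ (1 - ε2) := by
                                                      calc 3 * S'.D ^ (1 - 2 * ε2) ≤ S'.D ^ (ε2 / 2) * S'.D ^ (1 - 2 * ε2) :=
                                                            mul_le_mul_of_nonneg_right h3ε2 (hpos' _).le
                                                        _ = S'.D ^ (ε2 / 2 + (1 - 2 * ε2)) := hadd' _ _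
                                                        _ ≤ S'.D ^ (1 - ε2) := hexp' _ _ (by linarith only [hε20])
                                                    linarith only [h1, h2, h3, hK3]
                                                  have hqK : (q2 : ℝ) * K ≤ S'.D := by
                                                    have h1 : (q2 : ℝ) ≤ S'.D ^ ε2 :=
                                                      hq23.trans (hδ3Z.trans ((hexp _ _ (by linarith only [hZε2, hε20])).trans (hDpy ε2 hε20.le)))
                                                    calc (q2 : ℝ) * K ≤ S'.D ^ ε2 * S'.D ^ (1 - ε2) := mul_le_mul h1 hK2 (by (clear * - hK1; positivity)) (hpos' _).le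
                                                      _ = S'.D := by rw [hadd', add_sub_cancel, Real.rpow_one]
                                                  -- the exponential sum
                                                  obtain ⟨Wd, hWd⟩ : ∃ Wd : ℝ, Wd = (((lam * q : ℕ) : ℝ) * S'.D) ^ d := ⟨_, rfl⟩
                                                  have hlq1 : 1 ≤ lam * q := Nat.mul_pos hG.lam1 hq
                                                  have hlq0 : (0 : ℝ) < ((lam * q : ℕ) : ℝ) := by exact_mod_cast hlq1
                                                  have hWd0 : 0 < Wd := by rw [hWd]; (clear * - hlq1 hDp1'; positivity)
                                                  have hτreal : ∀ j, u' ≤ j → (q : ℝ) * τ j = Wd * (S'.t j) ^ (c (Fin.last m)) - A := by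
                                                    intro j hj
                                                    have h1 : (((lam * (q * j + r0) + ρr : ℕ) : ℝ)) ^ d = A + q * τ j := by
                                                      have := (hτ1 j hj).1
                                                      exact_mod_cast this
                                                    have h2 : ((lam * (q * j + r0) + ρr : ℕ) : ℝ) = ((lam * q : ℕ) : ℝ) * S'.D * S'.t j := by
                                                      have h3 := hdt j
                                                      have h4 : S.t (q * j + r0) = (((q * j + r0 : ℕ) : ℝ) + S.ρ) / S.D := rfl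
                                                      rw [h4] at h3
                                                      have h5 : (q : ℝ) * S'.D * S'.t j = ((q * j + r0 : ℕ) : ℝ) + S.ρ := by
                                                        field_simp at h3
                                                        exact h3
                                                      have h6 : ((lam * (q * j + r0) + ρr : ℕ) : ℝ) = lam * ((q * j + r0 : ℕ) : ℝ) + S.ρ * lam := by
                                                        rw [hρr]; push_cast; ring
                                                      rw [h6, Nat.cast_mul lam q]
                                                      have h7 : (lam : ℝ) * q * S'.D * S'.t j = lam * (q * S'.D * S'.t j) := by ring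
                                                      rw [h7, h5]
                                                      ring
                                                    rw [hd, Real.rpow_natCast, hWd, ← mul_pow, ← h2, h1]
                                                    ring
                                                  have hθ'4 := hθ'3 K hK1 hK2
                                                  rw [hS'I] at hθ'4
                                                  obtain ⟨k, hk1, hk2, hk3⟩ := la_final S' c θ' ϑ (δ' ^ C2) Wd A q q2 K u' J τ hq hJ3 hτreal hθ'4
                                                  have hPint' : S'.P (Fin.last m) = S'.Q * Wd := by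
                                                    rw [hWd]; exact hG'.Pint _ d hd
                                                  have hS'Q0 : (0 : ℝ) < S'.Q := by rw [hS'Q]; exact hQ0
                                                  have hPS' : ∀ i, 0 < S'.P i ∧ S'.P i ≤ S'.Q * S'.D ^ ((d : ℝ) + 1) := by
                                                    intro i
                                                    refine ⟨lt_of_lt_of_le (mul_pos hS'Q0 (hpos' _)) (hGd'.P1 i), (hGd'.P2 i).trans ?_⟩
                                                    refine mul_le_mul_of_nonneg_left (hexp' _ _ ?_) hS'Q0.le
                                                    linarith only [hcd i, hx'1]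
                                                  have hWdle : Wd ≤ S'.D ^ ((d : ℝ) + 1) := by
                                                    have h1 := (hPS' (Fin.last m)).2
                                                    rw [hPint'] at h1
                                                    exact le_of_mul_le_mul_left h1 hS'Q0
                                                  have hZhalf : S.D ^ Z ≤ S'.D ^ (1 : ℝ) :=
                                                    (hexp _ _ (by linarith only [hZε, hε1])).trans (hDpy 1 zero_le_one)
                                                  have hv : ∀ i, |θ' i * S'.P i + if i = Fin.last m then ϑ / q * Wd else 0| ≤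
                                                      S'.D ^ ((d : ℝ) + 5) := by
                                                    intro i
                                                    have h1 : |θ' i| ≤ S'.D ^ (1 : ℝ) / S'.Q :=
                                                      (hθ'1 i).trans (div_le_div_of_nonneg_right ((hδ3C.trans hδ3Z).trans hZhalf) hS'Q0.le)
                                                    have h2 : |θ' i * S'.P i| ≤ S'.D ^ ((d : ℝ) + 2) := by
                                                      rw [abs_mul, abs_of_pos (hPS' i).1]
                                                      calc |θ' i| * S'.P i ≤ S'.D ^ (1 : ℝ) / S'.Q * (S'.Q * S'.D ^ ((d : ℝ) + 1)) :=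
                                                            mul_le_mul h1 (hPS' i).2 (hPS' i).1.le (div_nonneg (hpos' _).le hS'Q0.le)
                                                        _ = S'.D ^ (1 : ℝ) * S'.D ^ ((d : ℝ) + 1) := by (clear * - hS'Q0 hDp1'; field_simp)
                                                        _ = S'.D ^ ((d : ℝ) + 2) := by rw [hadd']; congr 1; ring
                                                    have h3 : |(if i = Fin.last m then ϑ / q * Wd else 0 : ℝ)| ≤ S'.D ^ ((d : ℝ) + 2) := by
                                                      split_ifs
                                                      · rw [abs_mul, abs_div, abs_of_pos hqpos, abs_of_pos hWd0]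
                                                        exact by
                                                          have h4 : |ϑ| / q ≤ 1 := by
                                                            rw [div_le_one hqpos]
                                                            linarith only [hϑ2, hq1r]
                                                          calc |ϑ| / q * Wd ≤ 1 * Wd := mul_le_mul_of_nonneg_right h4 hWd0.le
                                                            _ = Wd := one_mul _
                                                            _ ≤ S'.D ^ ((d : ℝ) + 1) := hWdle
                                                            _ ≤ S'.D ^ ((d : ℝ) + 2) := hexp' _ _ (by linarith only)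
                                                      · rw [abs_zero]; exact (hpos' _).le
                                                    have h4 : (2 : ℝ) ≤ S'.D ^ (3 : ℝ) := by
                                                      have h5 : S'.D ^ (ε2 / 2) ≤ S'.D ^ (3 : ℝ) := hexp' _ _ (by linarith only [hε2b])
                                                      linarith only [h3ε2, h5]
                                                    calc |θ' i * S'.P i + if i = Fin.last m then ϑ / q * Wd else 0| ≤
                                                          |θ' i * S'.P i| + |(if i = Fin.last m then ϑ / q * Wd else 0 : ℝ)| := abs_add_le _ _
                                                      _ ≤ S'.D ^ ((d : ℝ) + 2) + S'.D ^ ((d : ℝ) + 2) := add_le_add h2 h3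
                                                      _ = 2 * S'.D ^ ((d : ℝ) + 2) := by ring
                                                      _ ≤ S'.D ^ (3 : ℝ) * S'.D ^ ((d : ℝ) + 2) := mul_le_mul_of_nonneg_right h4 (hpos' _).le
                                                      _ = S'.D ^ ((d : ℝ) + 5) := by rw [hadd']; congr 1; ring
                                                  have hDk : S'.D ≤ k := by
                                                    have h1 := hGd'.u1
                                                    rw [hS'u] at h1
                                                    refine h1.trans ?_
                                                    exact_mod_cast hk1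
                                                  have hk4 : (k : ℝ) ≤ 3 * S'.D := by
                                                    have h1 := hGd'.u2
                                                    rw [hS'u, hS'T] at h1
                                                    have h2 : (k : ℝ) ≤ u' + J := by exact_mod_cast hk2.le
                                                    linarith only [h1, h2, hDp0]
                                                  have hbound : δ3 ≤ ‖𝔼 j ∈ range K, e (∑ i,
                                                      (θ' i * S'.P i + if i = Fin.last m then ϑ / q * Wd else 0) *
                                                        ((((k + q2 * j : ℕ) : ℝ) + S'.ρ) / S'.D) ^ (c i))‖ := by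
                                                    refine le_trans ?_ hk3
                                                    rw [hδ3]
                                                    exact pow_le_pow_of_le_one hδ'0.le hδ'le1 (by (clear * - d Cr ε2 ε n0 n p1 S N lam δ p q X q0 L J r0 u' S' ρr A Bd κ j0 p' N' q2 K k; omega))
                                                  obtain ⟨-, q', hq'1, hq'2, hq'3⟩ := Hr S'.D hDpDr S'.ρ hGd'.ρ0 hGd'.ρ1 (lam * q) hlq1 hG'.rho δ3
                                                    hδ31 hδ32 hlam3 _ hv q2 k K hq21 hq23 hDk hk4 hK4 hqK hbound
                                                  have hq'4 := hq'3 (Fin.last m) d hd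
                                                  rw [if_pos rfl, ← hWd, hPint'] at hq'4
                                                  have hv2 : (θ' (Fin.last m) * (S'.Q * Wd) + ϑ / q * Wd) / Wd = θ' (Fin.last m) * S'.Q + ϑ / q := by
                                                    (clear * - hq hWd0; field_simp)
                                                  rw [hv2, hS'Q] at hq'4
                                                  -- conclusion
                                                  have hq'0 : (0 : ℝ) ≤ q' := Nat.cast_nonneg _
                                                  have hq'5 : (q' : ℝ) ≤ δ⁻¹ ^ p1 := by
                                                    refine hq'2.trans ?_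
                                                    rw [hδ3v, ← inv_pow, ← pow_mul]
                                                    exact pow_le_pow_right₀ hinv1 hp1c
                                                  have hC2 : δ'⁻¹ ^ C2 ≤ δ⁻¹ ^ p1 := by
                                                    rw [hδ', ← inv_pow, ← pow_mul]
                                                    exact pow_le_pow_right₀ hinv1 hp1d
                                                  have hWp : W ≤ δ⁻¹ ^ p1 := by rw [hW]; exact pow_le_pow_right₀ hinv1 (by omega)
                                                  have hp1i : 1 ≤ δ⁻¹ ^ p1 := one_le_pow₀ hinv1
                                                  refine ⟨j0, q', hcj0, hq'1, hq'5.trans (pow_le_pow_right₀ hinv1 (by omega)), ?_⟩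
                                                  have habs : ∀ x : ℝ, dint x ≤ |x| := by
                                                    intro x
                                                    have := dint_le_abs_sub x 0
                                                    rwa [Int.cast_zero, sub_zero] at this
                                                  have e1 : (q' : ℝ) * φ j0 = ((q : ℝ) * (q' * (θ' (Fin.last m) * S.Q + ϑ / q)) +
                                                      (-(q * q' * θ' (Fin.last m) * S.Q) + q' * (φ1 j0 - ϑ))) + ((q' * ι j0 : ℤ) : ℝ) := by
                                                    have h1 : φ j0 = φ1 j0 + ι j0 := by rw [hφ1d]; ring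
                                                    rw [h1]
                                                    push_cast
                                                    field_simp
                                                    ring
                                                  rw [e1, dint_add_int]
                                                  refine (dint_add_le _ _).trans ?_
                                                  have h1 : dint ((q : ℝ) * (q' * (θ' (Fin.last m) * S.Q + ϑ / q))) ≤ 1 / X := by
                                                    refine (dint_mul_le q _).trans ?_
                                                    rw [le_div_iff₀ hX0]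
                                                    have h2 : (q : ℝ) * X ≤ S'.D ^ (1 : ℝ) := by
                                                      have h3 : S.Q * (q * X) ≤ S.Q * S'.D ^ s := by
                                                        rw [← hX'r, ← hS'Q]; exact hX'2
                                                      exact (le_of_mul_le_mul_left h3 hQ0).trans (hexp' _ _ hs)
                                                    calc (q : ℝ) * dint (q' * (θ' (Fin.last m) * S.Q + ϑ / q)) * X ≤
                                                          q * S'.D ^ (1 / 2 - (d : ℝ)) * X :=
                                                          mul_le_mul_of_nonneg_right (mul_le_mul_of_nonneg_left hq'4 hqpos.le) hX0.le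
                                                      _ = (q * X) * S'.D ^ (1 / 2 - (d : ℝ)) := by ring
                                                      _ ≤ S'.D ^ (1 : ℝ) * S'.D ^ (1 / 2 - (d : ℝ)) := mul_le_mul_of_nonneg_right h2 (hpos' _).le
                                                      _ = S'.D ^ (1 + (1 / 2 - (d : ℝ))) := hadd' _ _
                                                      _ ≤ S'.D ^ (0 : ℝ) := hexp' _ _ (by linarith only [hd2r])
                                                      _ = 1 := Real.rpow_zero _
                                                  have h2 : dint (-(q * q' * θ' (Fin.last m) * S.Q) + q' * (φ1 j0 - ϑ)) ≤
                                                      q' * δ'⁻¹ ^ C2 / X + q' * W / X := by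
                                                    refine (habs _).trans ((abs_add_le _ _).trans (add_le_add ?_ ?_))
                                                    · rw [abs_neg, abs_mul, abs_mul, abs_of_pos hQ0, abs_of_nonneg (mul_nonneg hqpos.le hq'0)]
                                                      exact by
                                                        have h3 : |θ' (Fin.last m)| ≤ δ'⁻¹ ^ C2 / (S.Q * (q * X)) := by rw [← hX'r]; exact hθ'2
                                                        calc (q : ℝ) * q' * |θ' (Fin.last m)| * S.Q ≤ q * q' * (δ'⁻¹ ^ C2 / (S.Q * (q * X))) * S.Q :=
                                                              mul_le_mul_of_nonneg_right (mul_le_mul_of_nonneg_left h3 (mul_nonneg hqpos.le hq'0)) hQ0.le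
                                                          _ = q' * δ'⁻¹ ^ C2 / X := by (clear * - hq hQ1 hX hδ'0 hq'1; field_simp)
                                                    · rw [abs_mul, abs_of_nonneg hq'0, mul_div_assoc]
                                                      exact mul_le_mul_of_nonneg_left (hφθ j0 hj0 hcj0) hq'0
                                                  have h3 : (q' : ℝ) * δ'⁻¹ ^ C2 ≤ δ⁻¹ ^ p1 * δ⁻¹ ^ p1 :=
                                                    mul_le_mul hq'5 hC2 (pow_nonneg (by linarith only [hδ'inv1]) _) (by linarith only [hp1i])
                                                  have h4 : (q' : ℝ) * W ≤ δ⁻¹ ^ p1 * δ⁻¹ ^ p1 :=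
                                                    mul_le_mul hq'5 hWp (by linarith only [hW2]) (by linarith only [hp1i])
                                                  have h5 : (1 : ℝ) ≤ δ⁻¹ ^ p1 * δ⁻¹ ^ p1 := by
                                                    calc (1 : ℝ) = 1 * 1 := by norm_num
                                                      _ ≤ _ := mul_le_mul hp1i hp1i zero_le_one (by linarith only [hp1i])
                                                  have h6 : (2 : ℝ) ^ 2 ≤ δ⁻¹ ^ 2 := pow_le_pow_left₀ (by norm_num) hinv 2
                                                  have h7 : δ⁻¹ ^ p1 * δ⁻¹ ^ p1 * 2 ^ 2 ≤ δ⁻¹ ^ p1 * δ⁻¹ ^ p1 * δ⁻¹ ^ 2 :=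
                                                    mul_le_mul_of_nonneg_left h6 (by linarith only [h5])
                                                  have h8 : δ⁻¹ ^ (2 * p1 + 2) = δ⁻¹ ^ p1 * δ⁻¹ ^ p1 * δ⁻¹ ^ 2 := by
                                                    rw [← pow_add, ← pow_add]; congr 1; ring
                                                  calc dint ((q : ℝ) * (q' * (θ' (Fin.last m) * S.Q + ϑ / q))) +
                                                        dint (-(q * q' * θ' (Fin.last m) * S.Q) + q' * (φ1 j0 - ϑ)) ≤
                                                        1 / X + (q' * δ'⁻¹ ^ C2 / X + q' * W / X) := add_le_add h1 h2
                                                    _ = (1 + q' * δ'⁻¹ ^ C2 + q' * W) / X := by ring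
                                                    _ ≤ δ⁻¹ ^ (2 * p1 + 2) / X := by
                                                        refine div_le_div_of_nonneg_right ?_ hX0.le
                                                        rw [h8]
                                                        linarith only [h3, h4, h5, h7]

end

end Pool.Agent.Helper67.NX2

end
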