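import Pool.Agent.Helper23.MC.L01_a1
import Pool.Agent.Helper23.MC.L01_a12
import Pool.Agent.Helper23.MC.L01_a13
import Pool.Agent.Helper23.MC.L01_a2
import Pool.Agent.Helper23.MC.L01_a4
import Pool.Agent.Helper23.MC.L01_a5
import Pool.Agent.Helper23.MC.L01_a7
import Pool.Agent.Helper23.MC.L01_a8

/-!
Parts of Helper5.NX.Basic, Helper67.NX.FormCube, Helper67.NX.TopStepAux, Helper61.NX.Step, Helper61.NX.One, Helper81.NX2.CharRep
-/

attribute [local instance 5000]
  Pool.Agent.Helper23.MC.Inst.rCharZero Pool.Agent.Helper23.MC.Inst.rALM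
  Pool.Agent.Helper23.MC.Inst.rARM Pool.Agent.Helper23.MC.Inst.rALSM
  Pool.Agent.Helper23.MC.Inst.rARSM Pool.Agent.Helper23.MC.Inst.rARRLE
  Pool.Agent.Helper23.MC.Inst.rALRLE Pool.Agent.Helper23.MC.Inst.rARRLT
  Pool.Agent.Helper23.MC.Inst.rALRLT Pool.Agent.Helper23.MC.Inst.rPMRLT
  Pool.Agent.Helper23.MC.Inst.rMPRLT Pool.Agent.Helper23.MC.Inst.rPMM
  Pool.Agent.Helper23.MC.Inst.rMPM Pool.Agent.Helper23.MC.Inst.rPMSM
  Pool.Agent.Helper23.MC.Inst.rMPSM Pool.Agent.Helper23.MC.Inst.rEAOL
  Pool.Agent.Helper23.MC.Inst.rIOR Pool.Agent.Helper23.MC.Inst.rISOR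
  Pool.Agent.Helper23.MC.Inst.rNZD Pool.Agent.Helper23.MC.Inst.rcCharZero
  Pool.Agent.Helper23.MC.Inst.rcNZD Pool.Agent.Helper23.MC.Inst.zCharZero
  Pool.Agent.Helper23.MC.Inst.zALM Pool.Agent.Helper23.MC.Inst.zARM
  Pool.Agent.Helper23.MC.Inst.zALSM Pool.Agent.Helper23.MC.Inst.zARSM
  Pool.Agent.Helper23.MC.Inst.zIOR Pool.Agent.Helper23.MC.Inst.zISOR
  Pool.Agent.Helper23.MC.Inst.zNZD Pool.Agent.Helper23.MC.Inst.qCharZero
  Pool.Agent.Helper23.MC.Inst.mR Pool.Agent.Helper23.MC.Inst.mC Pool.Agent.Helper23.MC.Inst.mRC
  Pool.Agent.Helper23.MC.Inst.rPSM Pool.Agent.Helper23.MC.Inst.rCSM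
  Pool.Agent.Helper23.MC.Inst.cAdd Pool.Agent.Helper23.MC.Inst.cAddM
  Pool.Agent.Helper23.MC.Inst.cMul Pool.Agent.Helper23.MC.Inst.cMon

namespace Pool.Agent.Helper57.NX
end Pool.Agent.Helper57.NX

section

set_option autoImplicit false

open Finset

open scoped BigOperators ComplexConjugate

namespace Pool.Agent.Helper57.NX

noncomputable section

section Basic

variable {N : ℕ} [NeZero N]

theorem TV.rescale {B X X' : ℝ} {f : ZMod N → ℂ} (h : TV B X f) (hX : 0 < X) (hX' : X ≤ X') :
    TV (B * (X' / X)) X' f := by
  intro x l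
  refine (h x l).trans ?_
  have hX'0 : 0 < X' := hX.trans_le hX'
  have h1 : 1 ≤ X' / X := by rwa [le_div_iff₀ hX, one_mul]
  have h2 : X' / X * (l / X' + 1) = l / X + X' / X := by
    field_simp
  rw [mul_assoc, h2]
  exact mul_le_mul_of_nonneg_left (by linarith) h.nonneg

theorem TV.l1_sub_A {B X : ℝ} {f : ZMod N → ℂ} (h : TV B X f) (hX : 0 < X) (L : ℕ) (hL : 1 ≤ L) :
    𝔼 x, ‖f x - A L f x‖ ≤ L * B * (1 / X + 1 / N) := by
  have hB := h.nonneg
  have h1 : ∀ x, ‖f x - A L f x‖ ≤ 𝔼 a ∈ range L, ‖f (x + ((a : ℤ) : ZMod N)) - f x‖ := by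
    intro x
    have h2 : f x - A L f x = 𝔼 a ∈ range L, (f x - f (x + ((a : ℤ) : ZMod N))) := by
      rw [expect_sub_distrib, expect_const (nonempty_range_iff.2 (by omega))]
      simp [A]
    rw [h2]
    refine (norm_expect_le5 _ _).trans (le_of_eq (expect_congr rfl fun a _ => norm_sub_rev _ _))
  refine (expect_le_expect fun x _ => h1 x).trans ?_
  rw [expect_comm]
  refine expect_le_of5 _ _ (by (clear * - hL hB hX; positivity)) fun a ha => ?_
  refine (h.l1_shift hX (a : ℤ)).trans ?_
  have h3 : (a : ℝ) ≤ L := by exact_mod_cast (mem_range.1 ha).le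
  rw [Int.cast_natCast, Nat.abs_cast, mul_assoc, mul_assoc]
  exact mul_le_mul_of_nonneg_right h3 (by (clear * - hB hX; positivity))

end Basic

end

end Pool.Agent.Helper57.NX

end

section

set_option autoImplicit false

open Finset

open scoped BigOperators ComplexConjugate

namespace Pool.Agent.Helper57.NX

noncomputable section

section FC

variable {m N : ℕ} [NeZero N]

omit [NeZero N] in
theorem dual_last67 (S : Sys (m + 1)) (c : Fin (m + 1) → ℝ) (f0 : ZMod N → ℂ)
    (f : Fin (m + 1) → ZMod N → ℂ) [NeZero N] (x : ZMod N) :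
    dual S c 1 f0 f (Fin.last m) x = 𝔼 k ∈ S.I, Fk67 S c f0 (fun i => f i.castSucc) k x := by
  unfold dual Fk67
  refine expect_congr rfl fun k _ => ?_
  rw [Pi.one_apply, one_mul]
  congr 1
  have h1 : (univ.erase (Fin.last m) : Finset (Fin (m + 1))) = univ.map Fin.castSuccEmb := by
    ext i
    simp only [mem_erase, mem_univ, and_true, mem_map, true_and, Fin.coe_castSuccEmb]
    constructor
    · intro h
      obtain ⟨j, hj⟩ := Fin.exists_castSucc_eq.2 h
      exact ⟨j, hj⟩
    · rintro ⟨j, rfl⟩
      exact (Fin.castSucc_lt_last j).ne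
  rw [h1, prod_map]
  rfl

end FC

end

end Pool.Agent.Helper57.NX

end

section

set_option autoImplicit false

open Finset

open scoped BigOperators ComplexConjugate

namespace Pool.Agent.Helper57.NX

noncomputable section

theorem smooth67 {N : ℕ} [NeZero N] (g : ZMod N → ℂ) (δ X' : ℝ) (hδp : 0 < δ)
    (hδ1 : δ ≤ 1 / 2) (hX'0 : 0 < X') (hX'N : X' ≤ N) (hgX' : Adm δ⁻¹ X' g) (Y : ℕ) (hY1 : 1 ≤ Y)
    (hY2 : (Y : ℝ) ≤ δ ^ 6 * X') (L' : ℕ) :
    nrm (fun x => (g x - A L' g x) - A Y (fun x => g x - A L' g x) x) ≤ δ / 4 := by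
  have e1 : (fun x => (g x - A L' g x) - A Y (fun x => g x - A L' g x) x) =
      fun x => (g x - A Y g x) + (-A L' (fun y => g y - A Y g y) x) := by
    funext x
    rw [A_sub, A_sub, A_comm Y L']
    ring
  rw [e1]
  have h3 := nrm_add_le (fun x => g x - A Y g x)
    (fun x => -A L' (fun y => g y - A Y g y) x)
  have h4 : nrm (fun x => -A L' (fun y => g y - A Y g y) x) ≤
      nrm (fun x => g x - A Y g x) := by
    have h5 : nrm (fun x => -A L' (fun y => g y - A Y g y) x) =
        nrm (A L' (fun y => g y - A Y g y)) := by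
      unfold nrm
      simp only [norm_neg]
    rw [h5]
    exact nrm_A_le _ _
  have h6 : nrm (fun x => g x - A Y g x) ≤ Y * δ⁻¹ * (1 / X' + 1 / N) :=
    hgX'.tv.l1_sub_A hX'0 Y hY1
  have h7 : (1 : ℝ) / X' + 1 / N ≤ 2 / X' := by
    have : (1 : ℝ) / N ≤ 1 / X' := one_div_le_one_div_of_le hX'0 hX'N
    have e2 : (2 : ℝ) / X' = 1 / X' + 1 / X' := by ring
    (clear * - this e2; linarith)
  have h8 : (Y : ℝ) * δ⁻¹ * (1 / X' + 1 / N) ≤ 2 * δ ^ 5 := by
    calc (Y : ℝ) * δ⁻¹ * (1 / X' + 1 / N) ≤ (δ ^ 6 * X') * δ⁻¹ * (2 / X') := by gcongr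
      _ = 2 * δ ^ 5 := by (clear * - hX'0 hδp; field_simp)
  exact by
    have h9 : 2 * (2 * δ ^ 5) ≤ δ / 4 := by
      have : δ ^ 5 = δ * δ ^ 4 := by ring
      have h10 : δ ^ 4 ≤ (1 / 2) ^ 4 := pow_le_pow_left₀ hδp.le hδ1 4
      (clear * - hδp h10; nlinarith)
    (clear * - h3 h4 h6 h8 h9; linarith)

theorem uadm67 {N : ℕ} [NeZero N] (u : ZMod N → ℂ) (δ X' : ℝ) (hδp : 0 < δ)
    (hδ1 : δ ≤ 1 / 2) (hu1 : ∀ x, ‖u x‖ ≤ 1) (Y : ℕ) (hY0 : (0 : ℝ) < Y) (hYX' : (Y : ℝ) ≤ X')
    (hX'0 : 0 < X') (hY3 : δ ^ 6 * X' / 2 ≤ Y) (hutv : TV 2 Y u) : Adm (δ⁻¹ ^ 8) X' u := by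
  refine ⟨hu1, ?_⟩
  have h1 := hutv.rescale hY0 hYX'
  refine h1.mono ?_ hX'0 le_rfl
  have h2 : X' / Y ≤ 2 * δ⁻¹ ^ 6 := by
    rw [div_le_iff₀ hY0]
    calc X' = 2 * δ⁻¹ ^ 6 * (δ ^ 6 * X' / 2) := by (clear * - hδp hX'0; field_simp)
      _ ≤ _ := mul_le_mul_of_nonneg_left hY3 (by (clear * - hδp; positivity))
  have h3 : (4 : ℝ) ≤ δ⁻¹ ^ 2 := by
    have : (2 : ℝ) ≤ δ⁻¹ := by
      rw [le_inv_comm₀ (by norm_num) hδp]; linarith
    (clear * - this; nlinarith)
  calc 2 * (X' / Y) ≤ 2 * (2 * δ⁻¹ ^ 6) := by (clear * - h2; linarith)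
    _ = 4 * δ⁻¹ ^ 6 := by ring
    _ ≤ δ⁻¹ ^ 2 * δ⁻¹ ^ 6 := mul_le_mul_of_nonneg_right h3 (by (clear * - hδp; positivity))
    _ = δ⁻¹ ^ 8 := by rw [← pow_add]

end

end Pool.Agent.Helper57.NX

end

section

set_option autoImplicit false

open Finset

open scoped BigOperators ComplexConjugate

namespace Pool.Agent.Helper57.NX

noncomputable section

variable {N : ℕ} [NeZero N]

theorem A_wch (Y L : ℕ) (F : ZMod N → ℂ) (b x : ZMod N) :
    A L (fun x => wf Y F x * conj (ch b x)) x =
      conj (ch b x) * 𝔼 t ∈ range L, wf Y F (x + (t : ZMod N)) * e (-(fr b * t)) := by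
  rw [A, Finset.mul_expect]
  refine Finset.expect_congr rfl fun a _ => ?_
  rw [ch_add, map_mul, e_neg, ← ch_nat]
  ring

theorem freq_le {F : ZMod N → ℂ} (hF : ∀ x, ‖F x‖ ≤ 1) (Y L : ℕ) (hY : 1 ≤ Y) (hL : 1 ≤ L)
    (b : ZMod N) {κ : ℝ} (hκ0 : 0 < κ)
    (hκ : κ ≤ 𝔼 x, ‖A L (fun x => wf Y F x * conj (ch b x)) x‖ ^ 2) :
    |fr b| ≤ κ⁻¹ * (1 / L + 1 / (2 * Y)) := by
  have hL0 : (0 : ℝ) < L := by exact_mod_cast hL
  have hY0 : (0 : ℝ) < Y := by exact_mod_cast hY
  rcases eq_or_lt_of_le (abs_nonneg (fr b)) with h0 | h0
  · rw [← h0]; positivity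
  -- a good point
  have h1 : ∃ x, κ ≤ ‖A L (fun x => wf Y F x * conj (ch b x)) x‖ := by
    by_contra hcon
    push Not at hcon
    have h2 : 𝔼 x, ‖A L (fun x => wf Y F x * conj (ch b x)) x‖ ^ 2 < κ := by
      refine expect_lt Finset.univ_nonempty fun x _ => ?_
      have h3 := norm_A_le (norm_wch_le hF Y b) L x
      calc ‖A L (fun x => wf Y F x * conj (ch b x)) x‖ ^ 2
          ≤ ‖A L (fun x => wf Y F x * conj (ch b x)) x‖ := by
            rw [sq]
            exact mul_le_of_le_one_left (norm_nonneg _) h3
        _ < κ := hcon x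
    exact absurd hκ (not_le.mpr h2)
  obtain ⟨x, hx⟩ := h1
  rw [A_wch, norm_mul, RCLike.norm_conj, norm_ch, one_mul] at hx
  have h4 := hx.trans (freq_bound (norm_wf_le hF Y) x L hL (fr b) h0 (abs_fr_le b))
  have h5 := (wf_adm hF Y hY).tv x L
  have h6 : κ ≤ (2 + 2 * (L / Y + 1)) / (4 * |fr b| * L) := by
    refine h4.trans ?_
    gcongr
  rw [le_div_iff₀ (by positivity)] at h6
  rw [← div_eq_inv_mul, le_div_iff₀ hκ0]
  have h7 : |fr b| * κ * (4 * L) ≤ (1 / L + 1 / (2 * Y)) * (4 * L) := by
    have h8 : (1 / (L : ℝ) + 1 / (2 * Y)) * (4 * L) = 2 + 2 * (L / Y + 1) := by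
      field_simp
      ring
    rw [h8]
    linarith
  exact le_of_mul_le_mul_right h7 (by positivity)

end

end Pool.Agent.Helper57.NX

end

section

set_option autoImplicit false

open Finset

open scoped BigOperators ComplexConjugate

namespace Pool.Agent.Helper57.NX

noncomputable section

theorem one_step (m : ℕ) (c : Fin (m + 1) → ℝ) (s ε : ℝ) (hε : 0 < ε)
    (h1 : ∀ i, ε ≤ c i / 4) (h2 : ε ≤ (c (Fin.last m) - s) / 4) (hU : UsP m c s ε) :
    ∃ x0 : ℝ, 0 < x0 ∧ x0 ≤ ε ∧ ∃ C : ℕ, 1 ≤ C ∧ ∃ σ : ℝ, 0 < σ ∧ σ ≤ 1 / 2 ∧ ∃ D0 : ℝ, 4 ≤ D0 ∧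
    ∀ (S : Sys (m + 1)) (N : ℕ) [NeZero N], D0 ≤ S.D → Good S c N x0 →
    ∀ δ : ℝ, S.D ^ (-σ) ≤ δ → δ ≤ 1 / 2 →
    ∀ X : ℝ, (S.Q : ℝ) ≤ X → S.Q * S.D ^ (s - σ) ≤ X → X ≤ S.Q * S.D ^ s →
    ∀ (h : ℕ → ℂ) (f0 : ZMod N → ℂ) (f : Fin (m + 1) → ZMod N → ℂ),
    (∀ k, ‖h k‖ ≤ 1) → Adm δ⁻¹ S.Q f0 → (∀ i, Adm δ⁻¹ (XiOf S X i) (f i)) →
    δ ≤ ‖form S c h f0 f‖ → ∀ i, ∃ ψ : ZMod N → ℂ,
      Nice S (XiOf S X i) ε (δ⁻¹ ^ C) i ψ ∧ Adm (δ⁻¹ ^ C) (XiOf S X i) ψ ∧
      δ ^ C ≤ ‖form S c h f0 (Function.update f i ψ)‖ := by
  obtain ⟨x1, hx1, C1, σ1, hσ1, D1, H⟩ := hU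
  refine ⟨min x1 ε, lt_min hx1 hε, min_le_right _ _, 18 + 18 * C1, by omega,
    min (σ1 / 9) (1 / 2), lt_min (by (clear * - hσ1; positivity)) (by norm_num), min_le_right _ _,
    max D1 4, le_max_right _ _, ?_⟩
  intro S N _ hD hG δ hδσ hδ X hQX hX hX' h f0 f hh hf0 hf hform i
  have hD4 : 4 ≤ S.D := (le_max_right _ _).trans hD
  have hD1 : 1 ≤ S.D := by (clear * - hD4; linarith)
  have hD0 : 0 < S.D := by (clear * - hD4; linarith)
  have hδ0 : 0 < δ := (Real.rpow_pos_of_pos hD0 _).trans_le hδσ
  have hR2 : 2 ≤ δ⁻¹ := two_le_inv hδ0 hδ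
  have hR0 : 0 < δ⁻¹ := inv_pos.mpr hδ0
  exact by
    have hx0ε : min x1 ε ≤ ε := min_le_right _ _
    -- sizes
    set Xi := XiOf S X i with hXi
    have hQXi : (S.Q : ℝ) ≤ Xi := le_XiOf hQX i
    have hXiP : Xi ≤ S.P i * S.D ^ (-ε) :=
      XiOf_le hG hD1 (fun j => by (clear * - hε hx0ε h1; linarith [h1 j])) (by (clear * - hε h2 hx0ε; linarith)) hX' i
    have hXiN : Xi ≤ N := XiOf_le_N hG hD1 (by (clear * - hε h2 hx0ε; linarith)) hX' i
    have hQD : S.D ^ 2 ≤ (S.Q : ℝ) := by
      have := hG.Q1
      rwa [Real.rpow_two] at this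
    exact by
      have hQ16 : 16 ≤ (S.Q : ℝ) := by (clear * - hD4 hQD; nlinarith)
      have hXi0 : 0 < Xi := by (clear * - hδ hδ0 hQXi hQ16; linarith)
      have hN0 : (0 : ℝ) < N := by exact_mod_cast NeZero.pos N
      have hδD : 1 ≤ δ ^ 2 * S.D := by
        have h3 : S.D ^ (-(1 / 2) : ℝ) ≤ δ := le_trans
          (Real.rpow_le_rpow_of_exponent_le hD1 (by (clear * -; linarith [min_le_right (σ1 / 9) (1 / 2 : ℝ)]))) hδσ
        have h4 : (S.D ^ (-(1 / 2) : ℝ)) ^ 2 ≤ δ ^ 2 :=
          pow_le_pow_left₀ (Real.rpow_nonneg hD0.le _) h3 2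
        have h5 : (S.D ^ (-(1 / 2) : ℝ)) ^ 2 = S.D⁻¹ := by
          rw [← Real.rpow_natCast, ← Real.rpow_mul hD0.le]
          norm_num
          rw [Real.rpow_neg_one]
        rw [h5] at h4
        calc (1 : ℝ) = S.D⁻¹ * S.D := (inv_mul_cancel₀ hD0.ne').symm
          _ ≤ _ := mul_le_mul_of_nonneg_right h4 hD0.le
      have hYbig : 4 ≤ δ ^ 2 * Xi := by
        have h3 : S.D * 4 ≤ Xi := by (clear * - hQXi hQD hQ16 hD4; nlinarith)
        calc (4 : ℝ) ≤ (δ ^ 2 * S.D) * 4 := by (clear * - hδD; linarith)
          _ = δ ^ 2 * (S.D * 4) := by ring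
          _ ≤ _ := mul_le_mul_of_nonneg_left h3 (sq_nonneg _)
      set Y : ℕ := ⌊δ ^ 2 * Xi / 4⌋₊ with hYdef
      exact by
        have hY1 : 1 ≤ Y := Nat.le_floor (by push_cast; (clear * - hYbig; linarith))
        have hYle : (Y : ℝ) ≤ δ ^ 2 * Xi / 4 := Nat.floor_le (by (clear * - hδ0 hXi0; positivity))
        have hYge : δ ^ 2 * Xi / 8 ≤ Y := by
          have h3 := Nat.lt_floor_add_one (δ ^ 2 * Xi / 4)
          rw [← hYdef] at h3
          have h4 : (1 : ℝ) ≤ Y := by exact_mod_cast hY1
          (clear * - h3 h4; linarith)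
        have hY0 : (0 : ℝ) < Y := by exact_mod_cast hY1
        set L : ℕ := ⌊S.P i * S.D ^ (-ε)⌋₊ with hLdef
        have hPpos : 16 ≤ S.P i * S.D ^ (-ε) := by (clear * - hQXi hXiP hQ16; linarith)
        exact by
          have hL1 : 1 ≤ L := Nat.le_floor (by push_cast; (clear * - hδ hδ0 hQXi hXiP hQ16; linarith))
          have hLle : (L : ℝ) ≤ S.P i * S.D ^ (-ε) := Nat.floor_le (by (clear * - hδ hδ0 hQXi hXiP hQ16; linarith))
          have hLge : S.P i * S.D ^ (-ε) ≤ 2 * L := by
            have h3 := Nat.lt_floor_add_one (S.P i * S.D ^ (-ε))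
            rw [← hLdef] at h3
            have h4 : (1 : ℝ) ≤ L := by exact_mod_cast hL1
            (clear * - hδ hδ0 hQXi hXiP hQ16 h3; linarith)
          have hL0 : (0 : ℝ) < L := by exact_mod_cast hL1
          -- the dual function
          have hfb : ∀ j, j ≠ i → ∀ x, ‖f j x‖ ≤ 1 := fun j _ x => (hf j).bdd x
          set F := dual S c h f0 f i with hFdef
          exact by
            have hF : ∀ x, ‖F x‖ ≤ 1 := norm_dual_le S c h hh f0 hf0.bdd f i hfb
            have hpair : ∀ u : ZMod N → ℂ, form S c h f0 (Function.update f i u) = 𝔼 x, u x * F x :=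
              fun u => form_dual S c h f0 f i u
            have hfF : δ ≤ ‖𝔼 x, f i x * F x‖ := by
              rw [← hpair, Function.update_eq_self]
              exact hform
            have hsub : 𝔼 x, ‖f i x - A Y (f i) x‖ ≤ δ / 2 := by
              refine (TV.l1_sub_A (hf i).tv hXi0 Y hY1).trans ?_
              have h3 : 1 / Xi + 1 / (N : ℝ) ≤ 2 / Xi := by
                have h4 : 1 / (N : ℝ) ≤ 1 / Xi := one_div_le_one_div_of_le hXi0 hXiN
                calc 1 / Xi + 1 / (N : ℝ) ≤ 1 / Xi + 1 / Xi := by (clear * - h4; linarith)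
                  _ = 2 / Xi := by ring
              calc (Y : ℝ) * δ⁻¹ * (1 / Xi + 1 / N) ≤ (δ ^ 2 * Xi / 4) * δ⁻¹ * (2 / Xi) := by
                    (clear * - hYle hδ0 h3 hXi0 hN0; gcongr)
                _ = δ / 2 := by
                    field_simp
                    norm_num
            have hw1 : δ ^ 2 / 4 ≤ 𝔼 x, ‖Ab Y F x‖ ^ 2 := w_large (hf i).bdd hF Y hδ0 hfF hsub
            -- the function `w`
            set w := wf Y F with hwdef
            exact by
              have hwb : ∀ x, ‖w x‖ ≤ 1 := norm_wf_le hF Y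
              have hwAdm : Adm (δ⁻¹ ^ 6) Xi w := by
                refine ⟨hwb, ?_⟩
                have hYXi : (Y : ℝ) ≤ Xi := by
                  have h9 : δ ^ 2 ≤ 1 := pow_le_one₀ hδ0.le (by (clear * - hδ hδ0; linarith))
                  have h10 : δ ^ 2 * Xi ≤ 1 * Xi := mul_le_mul_of_nonneg_right h9 hXi0.le
                  (clear * - hδ hδ0 hQXi hQ16 hYle h10; linarith)
                have h3 := TV.rescale (wf_adm hF Y hY1).tv hY0 hYXi
                refine TV.mono h3 ?_ hXi0 le_rfl
                have h4 : Xi / Y ≤ 8 * δ⁻¹ ^ 2 := by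
                  rw [div_le_iff₀ hY0]
                  calc Xi = 8 * δ⁻¹ ^ 2 * (δ ^ 2 * Xi / 8) := by field_simp
                    _ ≤ _ := mul_le_mul_of_nonneg_left hYge (by positivity)
                have h5 : (16 : ℝ) ≤ δ⁻¹ ^ 4 := by
                  calc (16 : ℝ) = 2 ^ 4 := by norm_num
                    _ ≤ _ := pow_le_pow_left₀ (by norm_num) hR2 4
                calc 2 * (Xi / Y) ≤ 2 * (8 * δ⁻¹ ^ 2) := by (clear * - h4; linarith)
                  _ = 16 * δ⁻¹ ^ 2 := by ring
                  _ ≤ δ⁻¹ ^ 4 * δ⁻¹ ^ 2 := mul_le_mul_of_nonneg_right h5 (by positivity)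
                  _ = δ⁻¹ ^ 6 := by ring
              have hwform : ‖form S c h f0 (Function.update f i w)‖ = 𝔼 x, ‖Ab Y F x‖ ^ 2 := by
                rw [hpair, w_pair, Complex.norm_real, Real.norm_eq_abs, abs_of_nonneg]
                exact Finset.expect_nonneg fun x _ => sq_nonneg _
              -- Cauchy-Schwarz in `k`
              set g := Function.update f i w with hgdef
              have hgAdm : ∀ j, Adm (δ⁻¹ ^ 6) (XiOf S X j) (g j) := by
                intro j
                by_cases hj : j = i
                · subst hj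
                  rw [hgdef, Function.update_self]
                  exact hwAdm
                · rw [hgdef, Function.update_of_ne hj]
                  exact by
                    refine (hf j).mono ?_ (lt_of_lt_of_le (by (clear * - hδ hδ0 hQ16; linarith)) (le_XiOf hQX j)) le_rfl
                    exact le_self_pow₀ (by (clear * - hδ hδ0 hR2; linarith)) (by norm_num)
              set a : ZMod N → ℝ := fun y => ‖form S c 1 (fun x => f0 x * conj (f0 (x + y)))
                  (fun j x => g j x * conj (g j (x + y)))‖ with hadef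
              have hcs : δ ^ 8 ≤ 𝔼 y, a y := by
                have h3 := form_cs S c h hh f0 g
                have h4 : (𝔼 y : ZMod N, form S c 1 (fun x => f0 x * conj (f0 (x + y)))
                  (fun i x => g i x * conj (g i (x + y)))).re ≤ 𝔼 y, a y :=
                  (Complex.re_le_norm _).trans (norm_expect_le' _ _)
                rw [hwform] at h3
                have h5 : (δ ^ 2 / 4) ^ 2 ≤ (𝔼 x, ‖Ab Y F x‖ ^ 2) ^ 2 :=
                  pow_le_pow_left₀ (by positivity) hw1 2
                have h6 : δ ^ 4 ≤ 1 / 16 := by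
                  calc δ ^ 4 ≤ (1 / 2) ^ 4 := pow_le_pow_left₀ hδ0.le hδ 4
                    _ = 1 / 16 := by norm_num
                calc δ ^ 8 = δ ^ 4 * δ ^ 4 := by ring
                  _ ≤ 1 / 16 * δ ^ 4 := mul_le_mul_of_nonneg_right h6 (by positivity)
                  _ = (δ ^ 2 / 4) ^ 2 := by ring
                  _ ≤ _ := h5.trans (h3.trans h4)
              exact by
                have hconj : ∀ (B X' : ℝ) (u : ZMod N → ℂ) (y : ZMod N), Adm B X' u →
                    Adm (B + B) X' (fun x => u x * conj (u (x + y))) :=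
                  fun B X' u y hu => hu.mul (hu.shift y).cnj
                have hpow7 : δ⁻¹ ^ 6 + δ⁻¹ ^ 6 ≤ (δ ^ 9)⁻¹ := by
                  rw [← inv_pow]
                  calc δ⁻¹ ^ 6 + δ⁻¹ ^ 6 = 2 * δ⁻¹ ^ 6 := by ring
                    _ ≤ δ⁻¹ * δ⁻¹ ^ 6 := mul_le_mul_of_nonneg_right hR2 (by positivity)
                    _ = δ⁻¹ ^ 7 := by ring
                    _ ≤ δ⁻¹ ^ 9 := pow_le_pow_right₀ (by (clear * - hδ hδ0 hR2; linarith)) (by norm_num)
                have hpow1 : δ⁻¹ + δ⁻¹ ≤ (δ ^ 9)⁻¹ := by
                  refine le_trans ?_ hpow7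
                  have : δ⁻¹ ≤ δ⁻¹ ^ 6 := le_self_pow₀ (by (clear * - hδ hδ0 hR2; linarith)) (by norm_num)
                  (clear * - this; linarith)
                have hUy : ∀ y, δ ^ 8 / 2 ≤ a y → (δ ^ (9 * C1)) ^ 2 ≤
                    𝔼 x, ‖A L (fun x => w x * conj (w (x + y))) x‖ ^ 2 := by
                  intro y hy
                  have h3 : δ ^ 9 ≤ a y := by
                    refine le_trans ?_ hy
                    calc δ ^ 9 = δ ^ 8 * δ := by ring
                      _ ≤ δ ^ 8 * (1 / 2) := mul_le_mul_of_nonneg_left hδ (by positivity)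
                      _ = δ ^ 8 / 2 := by ring
                  have h4 : S.D ^ (-σ1) ≤ δ ^ 9 := by
                    calc S.D ^ (-σ1) = (S.D ^ (-(σ1 / 9))) ^ 9 := by
                          rw [← Real.rpow_natCast, ← Real.rpow_mul hD0.le]
                          congr 1
                          push_cast
                          ring
                      _ ≤ δ ^ 9 := by
                          refine pow_le_pow_left₀ (Real.rpow_nonneg hD0.le _) (le_trans ?_ hδσ) 9
                          exact Real.rpow_le_rpow_of_exponent_le hD1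
                            (by (clear * -; linarith [min_le_left (σ1 / 9) (1 / 2 : ℝ)]))
                  have h5 : δ ^ 9 ≤ 1 / 2 := by
                    calc δ ^ 9 ≤ δ ^ 1 := pow_le_pow_of_le_one hδ0.le (by (clear * - hδ hδ0; linarith)) (by norm_num)
                      _ ≤ 1 / 2 := by rw [pow_one]; exact hδ
                  have h6 : S.Q * S.D ^ (s - σ1) ≤ X := by
                    refine le_trans (mul_le_mul_of_nonneg_left ?_ (Nat.cast_nonneg _)) hX
                    refine Real.rpow_le_rpow_of_exponent_le hD1 ?_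
                    have := min_le_left (σ1 / 9) (1 / 2 : ℝ)
                    (clear * - hσ1 this; linarith)
                  have hQ0 : (0 : ℝ) < S.Q := by (clear * - hδ hδ0 hQ16; linarith)
                  have h7 := H S N ((le_max_left _ _).trans hD) (hG.mono (min_le_left _ _) hD1) (δ ^ 9) h4 h5 X
                    hQX h6 (fun x => f0 x * conj (f0 (x + y))) (fun j x => g j x * conj (g j (x + y)))
                    ((hconj _ _ _ y hf0).mono hpow1 hQ0 le_rfl)
                    (fun j => (hconj _ _ _ y (hgAdm j)).mono hpow7 hQ0 (le_XiOf hQX j))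
                    (by
                      have h8 := (hconj _ _ _ y (hgAdm (Fin.last m)))
                      have h9 : XiOf S X (Fin.last m) = X := if_pos rfl
                      rw [h9] at h8
                      exact h8.mono hpow7 (by (clear * - hδ hQX hδ0 hQ16; linarith)) le_rfl)
                    h3 i L hL1 hLle
                  have h8 : (fun x => g i x * conj (g i (x + y))) = fun x => w x * conj (w (x + y)) := by
                    funext x
                    rw [hgdef, Function.update_self]
                  have h9 : δ ^ (9 * C1) ≤ nrm (A L (fun x => w x * conj (w (x + y)))) := by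
                    rw [← h8, pow_mul]
                    exact h7
                  calc (δ ^ (9 * C1)) ^ 2 ≤ (nrm (A L (fun x => w x * conj (w (x + y))))) ^ 2 :=
                        pow_le_pow_left₀ (by positivity) h9 2
                    _ ≤ _ := sq_expect_le _ _
                have hpop : δ ^ 8 / 2 * (δ ^ (9 * C1)) ^ 2 ≤
                    𝔼 y, 𝔼 x, ‖A L (fun x => w x * conj (w (x + y))) x‖ ^ 2 := by
                  refine popular Finset.univ_nonempty (a := a) ?_ ?_ (by positivity) (by positivity) hcs
                    fun y _ => hUy y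
                  · intro y _
                    refine norm_form_le_one S c 1 (fun k => by simp) _ ?_ _ ?_
                    · intro x
                      rw [norm_mul, RCLike.norm_conj]
                      exact mul_le_one₀ (hf0.bdd x) (norm_nonneg _) (hf0.bdd _)
                    · intro j x
                      rw [norm_mul, RCLike.norm_conj]
                      exact mul_le_one₀ ((hgAdm j).bdd x) (norm_nonneg _) ((hgAdm j).bdd _)
                  · intro y _
                    exact Finset.expect_nonneg fun x _ => sq_nonneg _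
                obtain ⟨b, hb⟩ := exists_char hwb L
                set κ := δ ^ (9 + 18 * C1) with hκdef
                exact by
                  have hκ0 : 0 < κ := by positivity
                  have hκ : κ ≤ 𝔼 x, ‖A L (fun x => w x * conj (ch b x)) x‖ ^ 2 := by
                    refine le_trans ?_ (hpop.trans hb)
                    calc κ = δ * (δ ^ 8 * (δ ^ (9 * C1)) ^ 2) := by rw [hκdef]; ring
                      _ ≤ 1 / 2 * (δ ^ 8 * (δ ^ (9 * C1)) ^ 2) :=
                          mul_le_mul_of_nonneg_right hδ (by positivity)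
                      _ = _ := by ring
                  obtain ⟨y, hy⟩ := exists_shift Y L b hκ0 hκ
                  have hfr : |fr b| ≤ δ⁻¹ ^ (14 + 18 * C1) / Xi := by
                    refine (freq_le hF Y L hY1 hL1 b hκ0 hκ).trans ?_
                    have h3 : 1 / (L : ℝ) ≤ 2 / Xi := by
                      rw [div_le_div_iff₀ hL0 hXi0]
                      (clear * - hXiP hLge; linarith)
                    have h4 : 1 / (2 * (Y : ℝ)) ≤ 4 * δ⁻¹ ^ 2 / Xi := by
                      rw [div_le_div_iff₀ (by positivity) hXi0]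
                      calc 1 * Xi = 4 * δ⁻¹ ^ 2 * (2 * (δ ^ 2 * Xi / 8)) := by field_simp; norm_num
                        _ ≤ _ := by (clear * - hYge hδ0; gcongr)
                    have h5 : (1 : ℝ) ≤ δ⁻¹ ^ 2 := one_le_pow₀ (by (clear * - hδ hδ0 hR2; linarith))
                    have h6 : (8 : ℝ) ≤ δ⁻¹ ^ 3 := by
                      calc (8 : ℝ) = 2 ^ 3 := by norm_num
                        _ ≤ _ := pow_le_pow_left₀ (by norm_num) hR2 3
                    have h7 : 1 / (L : ℝ) + 1 / (2 * (Y : ℝ)) ≤ δ⁻¹ ^ 5 / Xi := by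
                      calc 1 / (L : ℝ) + 1 / (2 * (Y : ℝ)) ≤ 2 / Xi + 4 * δ⁻¹ ^ 2 / Xi := add_le_add h3 h4
                        _ = (2 + 4 * δ⁻¹ ^ 2) / Xi := by ring
                        _ ≤ (δ⁻¹ ^ 3 * δ⁻¹ ^ 2) / Xi := by
                            gcongr
                            (clear * - hδ hδ0 h5 h6; nlinarith)
                        _ = _ := by ring
                    calc κ⁻¹ * (1 / L + 1 / (2 * Y)) ≤ κ⁻¹ * (δ⁻¹ ^ 5 / Xi) :=
                          mul_le_mul_of_nonneg_left h7 (by positivity)
                      _ = δ⁻¹ ^ (14 + 18 * C1) / Xi := by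
                          rw [hκdef, ← inv_pow]
                          ring
                  have hLinv : 2 / (L : ℝ) ≤ 4 / Xi := by
                    rw [div_le_div_iff₀ hL0 hXi0]
                    (clear * - hXiP hLge; linarith)
                  refine ⟨fun x => ch b (x + y) * sf Y L F b (x + y), ?_, ?_, ?_⟩
                  · refine ⟨b, ch b y, fun x => sf Y L F b (x + y), (norm_ch b y).le,
                      fun x => norm_sf_le hF Y L b _, ?_, ?_, ?_⟩
                    · intro x t
                      exact by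
                        have h3 := sf_lip hF Y L hL1 b (x + y) t
                        have h4 : x + (t : ZMod N) + y = x + y + (t : ZMod N) := by ring
                        change ‖sf Y L F b (x + (t : ZMod N) + y) - sf Y L F b (x + y)‖ ≤ _
                        rw [h4]
                        refine h3.trans ?_
                        rw [div_le_div_iff₀ hL0 (by (clear * - hδ hδ0 hQXi hXiP hQ16; linarith))]
                        have h5 : 0 ≤ 2 * |(t : ℝ)| := by (clear * -; positivity)
                        calc 2 * |(t : ℝ)| * (S.P i * S.D ^ (-ε)) ≤ 2 * |(t : ℝ)| * (2 * L) :=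
                              mul_le_mul_of_nonneg_left hLge h5
                          _ = _ := by ring
                    · refine hfr.trans ?_
                      exact by
                        gcongr
                        · (clear * - hδ hδ0 hR2; linarith)
                        · (clear * - ε S δ X i; omega)
                    · intro x
                      change ch b (x + y) * _ = _
                      rw [ch_add]
                      ring
                  · refine ⟨fun x => ?_, ?_⟩
                    · change ‖ch b (x + y) * _‖ ≤ 1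
                      rw [norm_mul, norm_ch, one_mul]
                      exact norm_sf_le hF Y L b _
                    exact by
                      · have hstep : ∀ x : ZMod N, ‖ch b (x + 1 + y) * sf Y L F b (x + 1 + y) -
                            ch b (x + y) * sf Y L F b (x + y)‖ ≤ 2 * Real.pi * |fr b| + 2 / L := by
                          intro x
                          have h3 : ch b (x + 1 + y) * sf Y L F b (x + 1 + y) -
                            ch b (x + y) * sf Y L F b (x + y) =
                            (ch b (x + y + 1) - ch b (x + y)) * sf Y L F b (x + y + 1) +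
                            ch b (x + y) * (sf Y L F b (x + y + 1) - sf Y L F b (x + y)) := by
                            have h4 : x + 1 + y = x + y + 1 := by ring
                            rw [h4]
                            ring
                          rw [h3]
                          refine (norm_add_le _ _).trans (add_le_add ?_ ?_)
                          · rw [norm_mul]
                            exact (mul_le_of_le_one_right (norm_nonneg _) (norm_sf_le hF Y L b _)).trans
                              (ch_step b _)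
                          · rw [norm_mul, norm_ch, one_mul]
                            have h5 := sf_lip hF Y L hL1 b (x + y) 1
                            simpa using h5
                        exact by
                          refine tv_of_step hstep ?_ (by positivity)
                          have h3 : 2 * Real.pi * |fr b| ≤ 8 * δ⁻¹ ^ (14 + 18 * C1) / Xi := by
                            have h4 : 2 * Real.pi ≤ 8 := by (clear * -; linarith [Real.pi_le_four])
                            calc 2 * Real.pi * |fr b| ≤ 8 * (δ⁻¹ ^ (14 + 18 * C1) / Xi) :=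
                                  mul_le_mul h4 hfr (abs_nonneg _) (by norm_num)
                              _ = _ := by ring
                          have h5 : (1 : ℝ) ≤ δ⁻¹ ^ (14 + 18 * C1) := one_le_pow₀ (by (clear * - hδ hδ0 hR2; linarith))
                          have h6 : (16 : ℝ) ≤ δ⁻¹ ^ 4 := by
                            calc (16 : ℝ) = 2 ^ 4 := by norm_num
                              _ ≤ _ := pow_le_pow_left₀ (by norm_num) hR2 4
                          calc 2 * Real.pi * |fr b| + 2 / L ≤ 8 * δ⁻¹ ^ (14 + 18 * C1) / Xi + 4 / Xi :=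
                                add_le_add h3 hLinv
                            _ = (8 * δ⁻¹ ^ (14 + 18 * C1) + 4) / Xi := by ring
                            _ ≤ (δ⁻¹ ^ 4 * δ⁻¹ ^ (14 + 18 * C1)) / Xi := by
                                gcongr
                                (clear * - h5 h6 hδ hδ0; nlinarith)
                            _ = _ := by ring
                  · rw [hpair]
                    exact by
                      refine le_trans ?_ hy
                      exact pow_le_pow_of_le_one hδ0.le (by (clear * - hδ hδ0; linarith)) (by omega)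

end

end Pool.Agent.Helper57.NX

end

section

set_option autoImplicit false

open Finset

open scoped BigOperators ComplexConjugate

namespace Pool.Agent.Helper67.NX2

open Pool.Agent.Helper57.NX

noncomputable section

theorem NiceQ.mono {m N : ℕ} [NeZero N] {S : Sys (m + 1)} {c : Fin (m + 1) → ℝ} {Xi ε B B' : ℝ}
    {i : Fin (m + 1)} {ψ : ZMod N → ℂ} (h : NiceQ S c Xi ε B i ψ) (hXi : 0 < Xi) (hB : B ≤ B') :
    NiceQ S c Xi ε B' i ψ := by
  obtain ⟨q, b, g, h1, h2, h3, h4, h5, h6⟩ := h
  exact ⟨q, b, g, h1, h2.trans hB, h3.trans (by (clear * - hB hXi; gcongr)), h4.mono hB hXi le_rfl, h5, h6⟩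

set_option maxHeartbeats 1600000 in
theorem cr_step (m : ℕ) (c : Fin (m + 1) → ℝ) (hc : Ex c) (s ε : ℝ) (hε : 0 < ε) (hε1 : ε ≤ 1)
    (hs : s < c (Fin.last m)) (J : Finset (Fin (m + 1))) (hU : UsJ m c s (ε / 2) J) :
    ∃ x0 : ℝ, 0 < x0 ∧ ∃ C : ℕ, 1 ≤ C ∧ ∃ σ : ℝ, 0 < σ ∧ σ ≤ 1 / 2 ∧ ∃ D0 : ℝ, 4 ≤ D0 ∧
    ∀ (S : Sys (m + 1)) (N : ℕ) [NeZero N] (lam : ℕ), D0 ≤ S.D → IG S c N x0 lam →
    ∀ δ : ℝ, S.D ^ (-σ) ≤ δ → δ ≤ 1 / 2 → (lam : ℝ) ≤ δ⁻¹ →
    ∀ X : ℝ, (S.Q : ℝ) ≤ X → S.Q * S.D ^ (s - σ) ≤ X → X ≤ S.Q * S.D ^ s →
    ∀ (h : ℕ → ℂ) (f0 : ZMod N → ℂ) (f : Fin (m + 1) → ZMod N → ℂ),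
    (∀ k, ‖h k‖ ≤ 1) → Adm δ⁻¹ S.Q f0 → (∀ i, Adm δ⁻¹ (XiOf S X i) (f i)) →
    δ ≤ ‖form S c h f0 f‖ → ∀ i ∈ J, ∃ ψ : ZMod N → ℂ,
      NiceQ S c (XiOf S X i) ε (δ⁻¹ ^ C) i ψ ∧ Adm (δ⁻¹ ^ C) (XiOf S X i) ψ ∧
      δ ^ C ≤ ‖form S c h f0 (Function.update f i ψ)‖ := by
  classical
  obtain ⟨x1, hx1, C1, σ1, hσ1, D1, H⟩ := hU
  have hgap : 0 < (c (Fin.last m) - s) / 2 := by linarith
  refine ⟨min x1 (min (1 / 4) ((c (Fin.last m) - s) / 2)),
    lt_min hx1 (lt_min (by norm_num) hgap), 19 + 27 * C1, by omega,
    min (σ1 / 9) (1 / (18 * C1 + 2)), lt_min (by positivity) (by (clear * -; positivity)), ?_,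
    max D1 (max 4 (4 ^ (2 / ε))), (le_max_left _ _).trans (le_max_right _ _), ?_⟩
  · refine (min_le_right _ _).trans ?_
    rw [div_le_div_iff₀ (by (clear * -; positivity)) (by norm_num)]
    have : (0 : ℝ) ≤ C1 := Nat.cast_nonneg _
    (clear * -; linarith)
  intro S N _ lam hD hIG δ hδσ hδ hlam X hQX hX hX' h f0 f hh hf0 hf hform i hiJ
  have hG := hIG.good
  set x0 := min x1 (min (1 / 4) ((c (Fin.last m) - s) / 2)) with hx0def
  have hx0a : x0 ≤ x1 := min_le_left _ _
  have hx0b : x0 ≤ 1 / 4 := (min_le_right _ _).trans (min_le_left _ _)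
  have hx0c : x0 ≤ (c (Fin.last m) - s) / 2 := (min_le_right _ _).trans (min_le_right _ _)
  have hx00 : 0 < x0 := lt_min hx1 (lt_min (by norm_num) hgap)
  exact by
    set σ := min (σ1 / 9) (1 / (18 * C1 + 2 : ℝ)) with hσdef
    have hσa : σ ≤ σ1 / 9 := min_le_left _ _
    have hσb : σ ≤ 1 / (18 * C1 + 2 : ℝ) := min_le_right _ _
    have hσ0 : 0 < σ := lt_min (by positivity) (by (clear * -; positivity))
    have hC10 : (0 : ℝ) ≤ C1 := Nat.cast_nonneg _
    have hσc : σ * (18 * C1 + 2) ≤ 1 := by
      have := mul_le_mul_of_nonneg_right hσb (by (clear * -; positivity) : (0 : ℝ) ≤ 18 * C1 + 2)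
      rwa [one_div, inv_mul_cancel₀ (by (clear * -; positivity))] at this
    exact by
      have hσ2 : σ ≤ 1 / 2 := by (clear * - hσc hσ0; nlinarith)
      have hD4 : 4 ≤ S.D := ((le_max_left _ _).trans (le_max_right _ _)).trans hD
      have hDbig : (4 : ℝ) ^ (2 / ε) ≤ S.D := ((le_max_right _ _).trans (le_max_right _ _)).trans hD
      have hD1 : 1 ≤ S.D := by (clear * - hD4; linarith)
      have hD0 : 0 < S.D := by (clear * - hD4; linarith)
      have hDε : 4 ≤ S.D ^ (ε / 2) := by
        calc (4 : ℝ) = (4 ^ (2 / ε)) ^ (ε / 2) := by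
              rw [← Real.rpow_mul (by norm_num)]
              have : 2 / ε * (ε / 2) = 1 := by (clear * - hε; field_simp)
              rw [this, Real.rpow_one]
          _ ≤ _ := Real.rpow_le_rpow (by positivity) hDbig (by positivity)
      exact by
        have hδ0 : 0 < δ := (Real.rpow_pos_of_pos hD0 _).trans_le hδσ
        have hR2 : 2 ≤ δ⁻¹ := two_le_inv hδ0 hδ
        have hR0 : 0 < δ⁻¹ := inv_pos.mpr hδ0
        -- sizes
        set Xi := XiOf S X i with hXi
        have hQXi : (S.Q : ℝ) ≤ Xi := le_XiOf hQX i
        have hXiN : Xi ≤ N := XiOf_le_N hG hD1 (by (clear * - hx0c; linarith)) hX' i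
        exact by
          have hQD : S.D ^ 2 ≤ (S.Q : ℝ) := by
            have := hG.Q1
            rwa [Real.rpow_two] at this
          have hQ16 : 16 ≤ (S.Q : ℝ) := by (clear * - hD4 hQD; nlinarith)
          have hQ1 : 1 ≤ S.Q := by
            have : (1 : ℝ) ≤ S.Q := by (clear * - hQ16; linarith)
            exact_mod_cast this
          have hXi0 : 0 < Xi := by (clear * - hQXi hQ16; linarith)
          have hN0 : (0 : ℝ) < N := by exact_mod_cast NeZero.pos N
          have hδD : 1 ≤ δ ^ 2 * S.D := by
            have h3 : S.D ^ (-(1 / 2) : ℝ) ≤ δ := le_trans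
              (Real.rpow_le_rpow_of_exponent_le hD1 (by (clear * - hσ2; linarith))) hδσ
            have h4 : (S.D ^ (-(1 / 2) : ℝ)) ^ 2 ≤ δ ^ 2 :=
              pow_le_pow_left₀ (Real.rpow_nonneg hD0.le _) h3 2
            have h5 : (S.D ^ (-(1 / 2) : ℝ)) ^ 2 = S.D⁻¹ := by
              rw [← Real.rpow_natCast, ← Real.rpow_mul hD0.le]
              norm_num
              rw [Real.rpow_neg_one]
            rw [h5] at h4
            calc (1 : ℝ) = S.D⁻¹ * S.D := (inv_mul_cancel₀ hD0.ne').symm
              _ ≤ _ := mul_le_mul_of_nonneg_right h4 hD0.le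
          exact by
            have hYbig : 4 ≤ δ ^ 2 * Xi := by
              have h3 : S.D * 4 ≤ Xi := by (clear * - hD4 hQXi hQD; nlinarith)
              calc (4 : ℝ) ≤ (δ ^ 2 * S.D) * 4 := by (clear * - hδD; linarith)
                _ = δ ^ 2 * (S.D * 4) := by ring
                _ ≤ _ := mul_le_mul_of_nonneg_left h3 (sq_nonneg _)
            set Y : ℕ := ⌊δ ^ 2 * Xi / 4⌋₊ with hYdef
            have hY1 : 1 ≤ Y := Nat.le_floor (by push_cast; (clear * - hYbig; linarith))
            have hYle : (Y : ℝ) ≤ δ ^ 2 * Xi / 4 := Nat.floor_le (by (clear * - hδ0 hXi0; positivity))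
            have hYge : δ ^ 2 * Xi / 8 ≤ Y := by
              have h3 := Nat.lt_floor_add_one (δ ^ 2 * Xi / 4)
              rw [← hYdef] at h3
              have h4 : (1 : ℝ) ≤ Y := by exact_mod_cast hY1
              (clear * - h3 h4; linarith)
            have hY0 : (0 : ℝ) < Y := by exact_mod_cast hY1
            -- the lengths
            exact by
              have hPi0 : 0 < S.P i := by
                refine lt_of_lt_of_le ?_ (hG.P1 i)
                exact mul_pos (by (clear * - hQ16; linarith)) (Real.rpow_pos_of_pos hD0 _)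
              have hδC : δ⁻¹ ^ (9 * C1) ≤ S.D ^ (1 / 2 : ℝ) := by
                have h3 : δ⁻¹ ≤ S.D ^ σ := by
                  rw [inv_le_comm₀ hδ0 (Real.rpow_pos_of_pos hD0 _), ← Real.rpow_neg hD0.le]
                  exact hδσ
                calc δ⁻¹ ^ (9 * C1) ≤ (S.D ^ σ) ^ (9 * C1) := pow_le_pow_left₀ hR0.le h3 _
                  _ = S.D ^ (σ * (9 * C1)) := by
                    rw [← Real.rpow_natCast, ← Real.rpow_mul hD0.le]
                    push_cast
                    rfl
                  _ ≤ S.D ^ (1 / 2 : ℝ) := by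
                    refine Real.rpow_le_rpow_of_exponent_le hD1 ?_
                    (clear * - hσ0 hσc; nlinarith)
              have hlen : ∀ q : ℕ, 1 ≤ q → (q : ℝ) ≤ δ⁻¹ ^ (9 * C1) →
                  (stp S.Q q (c i) : ℝ) ≤ S.P i * S.D ^ (-(ε / 2)) := by
                intro q hq1 hq
                have h3 : (stp S.Q q (c i) : ℝ) ≤ S.Q * q := by exact_mod_cast cr_stp_le hQ1 hq1 (c i)
                have h4 : (S.Q : ℝ) * q ≤ S.Q * S.D ^ (1 / 2 : ℝ) :=
                  mul_le_mul_of_nonneg_left (hq.trans hδC) (Nat.cast_nonneg _)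
                refine h3.trans (h4.trans ?_)
                have h5 : S.Q * S.D ^ (c i - x0) * S.D ^ (-(ε / 2)) ≤ S.P i * S.D ^ (-(ε / 2)) :=
                  mul_le_mul_of_nonneg_right (hG.P1 i) (Real.rpow_nonneg hD0.le _)
                refine le_trans ?_ h5
                rw [mul_assoc, ← Real.rpow_add hD0]
                refine mul_le_mul_of_nonneg_left ?_ (Nat.cast_nonneg _)
                refine Real.rpow_le_rpow_of_exponent_le hD1 ?_
                have := hc.two i
                (clear * - hε1 hx0b this; linarith)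
              set Lq : ℕ → ℕ := fun q => ⌊S.P i * S.D ^ (-(ε / 2)) / (stp S.Q q (c i) : ℝ)⌋₊ with hLq
              have hstp0 : ∀ q : ℕ, 1 ≤ q → (0 : ℝ) < stp S.Q q (c i) := by
                intro q hq1
                exact_mod_cast cr_stp_pos hQ1 hq1 (c i)
              have hLq1 : ∀ q : ℕ, 1 ≤ q → (q : ℝ) ≤ δ⁻¹ ^ (9 * C1) → 1 ≤ Lq q := by
                intro q hq1 hq
                refine Nat.le_floor ?_
                push_cast
                rw [le_div_iff₀ (hstp0 q hq1), one_mul]
                exact hlen q hq1 hq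
              exact by
                have hLqle : ∀ q : ℕ, 1 ≤ q →
                    (Lq q : ℝ) * (stp S.Q q (c i) : ℝ) ≤ S.P i * S.D ^ (-(ε / 2)) := by
                  intro q hq1
                  have h3 : (Lq q : ℝ) ≤ S.P i * S.D ^ (-(ε / 2)) / (stp S.Q q (c i) : ℝ) :=
                    Nat.floor_le (div_nonneg (mul_nonneg hPi0.le (Real.rpow_nonneg hD0.le _))
                      (Nat.cast_nonneg _))
                  rwa [le_div_iff₀ (hstp0 q hq1)] at h3
                have hLqge : ∀ q : ℕ, 1 ≤ q → (q : ℝ) ≤ δ⁻¹ ^ (9 * C1) →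
                    S.P i * S.D ^ (-(ε / 2)) ≤ 2 * Lq q * (stp S.Q q (c i) : ℝ) := by
                  intro q hq1 hq
                  have h3 := Nat.lt_floor_add_one (S.P i * S.D ^ (-(ε / 2)) / (stp S.Q q (c i) : ℝ))
                  rw [div_lt_iff₀ (hstp0 q hq1)] at h3
                  have h4 : (1 : ℝ) ≤ Lq q := by exact_mod_cast hLq1 q hq1 hq
                  have h5 := hstp0 q hq1
                  change _ < ((Lq q : ℝ) + 1) * _ at h3
                  (clear * - h3 h4; nlinarith)
                -- the dual function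
                have hfb : ∀ j, j ≠ i → ∀ x, ‖f j x‖ ≤ 1 := fun j _ x => (hf j).bdd x
                set F := dual S c h f0 f i with hFdef
                have hF : ∀ x, ‖F x‖ ≤ 1 := norm_dual_le S c h hh f0 hf0.bdd f i hfb
                have hpair : ∀ u : ZMod N → ℂ, form S c h f0 (Function.update f i u) = 𝔼 x, u x * F x :=
                  fun u => form_dual S c h f0 f i u
                exact by
                  have hfF : δ ≤ ‖𝔼 x, f i x * F x‖ := by
                    rw [← hpair, Function.update_eq_self]
                    exact hform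
                  have hsub : 𝔼 x, ‖f i x - A Y (f i) x‖ ≤ δ / 2 := by
                    refine (TV.l1_sub_A (hf i).tv hXi0 Y hY1).trans ?_
                    have h3 : 1 / Xi + 1 / (N : ℝ) ≤ 2 / Xi := by
                      have h4 : 1 / (N : ℝ) ≤ 1 / Xi := one_div_le_one_div_of_le hXi0 hXiN
                      calc 1 / Xi + 1 / (N : ℝ) ≤ 1 / Xi + 1 / Xi := by (clear * - h4; linarith)
                        _ = 2 / Xi := by ring
                    calc (Y : ℝ) * δ⁻¹ * (1 / Xi + 1 / N) ≤ (δ ^ 2 * Xi / 4) * δ⁻¹ * (2 / Xi) := by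
                          (clear * - hYle hδ0 h3 hXi0 hN0; gcongr)
                      _ = δ / 2 := by
                          field_simp
                          norm_num
                  have hw1 : δ ^ 2 / 4 ≤ 𝔼 x, ‖Ab Y F x‖ ^ 2 := w_large (hf i).bdd hF Y hδ0 hfF hsub
                  -- the function `w`
                  set w := wf Y F with hwdef
                  have hwb : ∀ x, ‖w x‖ ≤ 1 := norm_wf_le hF Y
                  have hwAdm : Adm (δ⁻¹ ^ 6) Xi w := by
                    refine ⟨hwb, ?_⟩
                    have hYXi : (Y : ℝ) ≤ Xi := by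
                      have h9 : δ ^ 2 ≤ 1 := pow_le_one₀ hδ0.le (by (clear * - hδ; linarith))
                      have h10 : δ ^ 2 * Xi ≤ 1 * Xi := mul_le_mul_of_nonneg_right h9 hXi0.le
                      (clear * - hx0b hx00 hQXi hQ16 hYle h10; linarith)
                    have h3 := TV.rescale (wf_adm hF Y hY1).tv hY0 hYXi
                    refine TV.mono h3 ?_ hXi0 le_rfl
                    have h4 : Xi / Y ≤ 8 * δ⁻¹ ^ 2 := by
                      rw [div_le_iff₀ hY0]
                      calc Xi = 8 * δ⁻¹ ^ 2 * (δ ^ 2 * Xi / 8) := by (clear * - hδ0 hXi0; field_simp)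
                        _ ≤ _ := mul_le_mul_of_nonneg_left hYge (by positivity)
                    have h5 : (16 : ℝ) ≤ δ⁻¹ ^ 4 := by
                      calc (16 : ℝ) = 2 ^ 4 := by norm_num
                        _ ≤ _ := pow_le_pow_left₀ (by norm_num) hR2 4
                    calc 2 * (Xi / Y) ≤ 2 * (8 * δ⁻¹ ^ 2) := by (clear * - h4; linarith)
                      _ = 16 * δ⁻¹ ^ 2 := by ring
                      _ ≤ δ⁻¹ ^ 4 * δ⁻¹ ^ 2 := mul_le_mul_of_nonneg_right h5 (by positivity)
                      _ = δ⁻¹ ^ 6 := by ring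
                  exact by
                    have hwform : ‖form S c h f0 (Function.update f i w)‖ = 𝔼 x, ‖Ab Y F x‖ ^ 2 := by
                      rw [hpair, w_pair, Complex.norm_real, Real.norm_eq_abs, abs_of_nonneg]
                      exact Finset.expect_nonneg fun x _ => sq_nonneg _
                    -- Cauchy-Schwarz in `k`
                    set g := Function.update f i w with hgdef
                    have hgAdm : ∀ j, Adm (δ⁻¹ ^ 6) (XiOf S X j) (g j) := by
                      intro j
                      by_cases hj : j = i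
                      · subst hj
                        rw [hgdef, Function.update_self]
                        exact hwAdm
                      · rw [hgdef, Function.update_of_ne hj]
                        refine (hf j).mono ?_ (lt_of_lt_of_le (by (clear * - hQ16; linarith)) (le_XiOf hQX j)) le_rfl
                        exact le_self_pow₀ (by (clear * - hR2; linarith)) (by norm_num)
                    set a : ZMod N → ℝ := fun y => ‖form S c 1 (fun x => f0 x * conj (f0 (x + y)))
                        (fun j x => g j x * conj (g j (x + y)))‖ with hadef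
                    have hcs : δ ^ 8 ≤ 𝔼 y, a y := by
                      have h3 := form_cs S c h hh f0 g
                      have h4 : (𝔼 y : ZMod N, form S c 1 (fun x => f0 x * conj (f0 (x + y)))
                        (fun i x => g i x * conj (g i (x + y)))).re ≤ 𝔼 y, a y :=
                        (Complex.re_le_norm _).trans (norm_expect_le' _ _)
                      rw [hwform] at h3
                      have h5 : (δ ^ 2 / 4) ^ 2 ≤ (𝔼 x, ‖Ab Y F x‖ ^ 2) ^ 2 :=
                        pow_le_pow_left₀ (by positivity) hw1 2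
                      have h6 : δ ^ 4 ≤ 1 / 16 := by
                        calc δ ^ 4 ≤ (1 / 2) ^ 4 := pow_le_pow_left₀ hδ0.le hδ 4
                          _ = 1 / 16 := by norm_num
                      calc δ ^ 8 = δ ^ 4 * δ ^ 4 := by ring
                        _ ≤ 1 / 16 * δ ^ 4 := mul_le_mul_of_nonneg_right h6 (by positivity)
                        _ = (δ ^ 2 / 4) ^ 2 := by ring
                        _ ≤ _ := h5.trans (h3.trans h4)
                    have hconj : ∀ (B X' : ℝ) (u : ZMod N → ℂ) (y : ZMod N), Adm B X' u →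
                        Adm (B + B) X' (fun x => u x * conj (u (x + y))) :=
                      fun B X' u y hu => hu.mul (hu.shift y).cnj
                    have hpow7 : δ⁻¹ ^ 6 + δ⁻¹ ^ 6 ≤ (δ ^ 9)⁻¹ := by
                      rw [← inv_pow]
                      calc δ⁻¹ ^ 6 + δ⁻¹ ^ 6 = 2 * δ⁻¹ ^ 6 := by ring
                        _ ≤ δ⁻¹ * δ⁻¹ ^ 6 := mul_le_mul_of_nonneg_right hR2 (by positivity)
                        _ = δ⁻¹ ^ 7 := by ring
                        _ ≤ δ⁻¹ ^ 9 := pow_le_pow_right₀ (by (clear * - hR2; linarith)) (by norm_num)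
                    exact by
                      have hpow1 : δ⁻¹ + δ⁻¹ ≤ (δ ^ 9)⁻¹ := by
                        refine le_trans ?_ hpow7
                        have : δ⁻¹ ≤ δ⁻¹ ^ 6 := le_self_pow₀ (by (clear * - hR2; linarith)) (by norm_num)
                        (clear * - this; linarith)
                      have hlam9 : (lam : ℝ) ≤ (δ ^ 9)⁻¹ := by
                        refine hlam.trans (le_trans ?_ hpow1)
                        (clear * - hR2; linarith)
                      -- the sum over the possible steps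
                      set M : ℕ := ⌊δ⁻¹ ^ (9 * C1)⌋₊ with hMdef
                      have hMle : (M : ℝ) ≤ δ⁻¹ ^ (9 * C1) := Nat.floor_le (by positivity)
                      set Bq : ℕ → ZMod N → ℝ := fun q y =>
                        𝔼 x, ‖Aq (stp S.Q q (c i)) (Lq q) (fun x => w x * conj (w (x + y))) x‖ ^ 2 with hBq
                      have hBq0 : ∀ q y, 0 ≤ Bq q y := fun q y => Finset.expect_nonneg fun x _ => sq_nonneg _
                      exact by
                        have hUy : ∀ y, δ ^ 8 / 2 ≤ a y → (δ ^ (9 * C1)) ^ 2 ≤ ∑ q ∈ Icc 1 M, Bq q y := by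
                          intro y hy
                          have h3 : δ ^ 9 ≤ a y := by
                            refine le_trans ?_ hy
                            calc δ ^ 9 = δ ^ 8 * δ := by ring
                              _ ≤ δ ^ 8 * (1 / 2) := mul_le_mul_of_nonneg_left hδ (by positivity)
                              _ = δ ^ 8 / 2 := by ring
                          have h4 : S.D ^ (-σ1) ≤ δ ^ 9 := by
                            calc S.D ^ (-σ1) = (S.D ^ (-(σ1 / 9))) ^ 9 := by
                                  rw [← Real.rpow_natCast, ← Real.rpow_mul hD0.le]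
                                  congr 1
                                  push_cast
                                  ring
                              _ ≤ δ ^ 9 := by
                                  refine pow_le_pow_left₀ (Real.rpow_nonneg hD0.le _) (le_trans ?_ hδσ) 9
                                  exact Real.rpow_le_rpow_of_exponent_le hD1 (by (clear * - hσa; linarith))
                          have h5 : δ ^ 9 ≤ 1 / 2 := by
                            calc δ ^ 9 ≤ δ ^ 1 := pow_le_pow_of_le_one hδ0.le (by (clear * - hδ; linarith)) (by norm_num)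
                              _ ≤ 1 / 2 := by rw [pow_one]; exact hδ
                          have h6 : S.Q * S.D ^ (s - σ1) ≤ X := by
                            refine le_trans (mul_le_mul_of_nonneg_left ?_ (Nat.cast_nonneg _)) hX
                            refine Real.rpow_le_rpow_of_exponent_le hD1 ?_
                            (clear * - hσa hσ0; linarith)
                          have hQ0 : (0 : ℝ) < S.Q := by (clear * - hQ16; linarith)
                          obtain ⟨q, hq1, hq, h7⟩ := H S N lam ((le_max_left _ _).trans hD) (cr_IG_mono hIG hx0a hD1)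
                            (δ ^ 9) h4 h5 hlam9 X
                            hQX h6 (fun x => f0 x * conj (f0 (x + y))) (fun j x => g j x * conj (g j (x + y)))
                            ((hconj _ _ _ y hf0).mono hpow1 hQ0 le_rfl)
                            (fun j => (hconj _ _ _ y (hgAdm j)).mono hpow7 hQ0 (le_XiOf hQX j))
                            (by
                              have h8 := (hconj _ _ _ y (hgAdm (Fin.last m)))
                              have h9 : XiOf S X (Fin.last m) = X := if_pos rfl
                              rw [h9] at h8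
                              exact h8.mono hpow7 (by (clear * - hQX hQ16; linarith)) le_rfl)
                            h3
                          have hq' : (q : ℝ) ≤ δ⁻¹ ^ (9 * C1) := by
                            rw [← inv_pow, ← pow_mul] at hq
                            exact hq
                          have hqM : q ∈ Icc 1 M := Finset.mem_Icc.mpr ⟨hq1, Nat.le_floor hq'⟩
                          have h7' := h7 i hiJ (Lq q) (hLq1 q hq1 hq') (hLqle q hq1)
                          have h8 : (fun x => g i x * conj (g i (x + y))) = fun x => w x * conj (w (x + y)) := by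
                            funext x
                            rw [hgdef, Function.update_self]
                          have h9 : δ ^ (9 * C1) ≤ nrm (Aq (stp S.Q q (c i)) (Lq q) (fun x => w x * conj (w (x + y)))) := by
                            rw [← h8, pow_mul]
                            exact h7'
                          calc (δ ^ (9 * C1)) ^ 2 ≤
                                (nrm (Aq (stp S.Q q (c i)) (Lq q) (fun x => w x * conj (w (x + y))))) ^ 2 :=
                                pow_le_pow_left₀ (by positivity) h9 2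
                            _ ≤ Bq q y := sq_expect_le _ _
                            _ ≤ _ := Finset.single_le_sum (f := fun q => Bq q y) (fun q _ => hBq0 q y) hqM
                        have hpop : δ ^ 8 / 2 * (δ ^ (9 * C1)) ^ 2 ≤ 𝔼 y, ∑ q ∈ Icc 1 M, Bq q y := by
                          refine popular Finset.univ_nonempty (a := a) ?_ ?_ (by positivity) (by positivity) hcs
                            fun y _ => hUy y
                          · intro y _
                            refine norm_form_le_one S c 1 (fun k => by simp) _ ?_ _ ?_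
                            · intro x
                              rw [norm_mul, RCLike.norm_conj]
                              exact mul_le_one₀ (hf0.bdd x) (norm_nonneg _) (hf0.bdd _)
                            · intro j x
                              rw [norm_mul, RCLike.norm_conj]
                              exact mul_le_one₀ ((hgAdm j).bdd x) (norm_nonneg _) ((hgAdm j).bdd _)
                          · intro y _
                            exact Finset.sum_nonneg fun q _ => hBq0 q y
                        set κ := δ ^ (9 + 27 * C1) with hκdef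
                        have hκ0 : 0 < κ := by positivity
                        have hκ1 : κ ≤ 1 := pow_le_one₀ hδ0.le (by (clear * - hδ; linarith))
                        obtain ⟨q, hqM, hκ⟩ : ∃ q ∈ Icc 1 M, κ ≤ 𝔼 y, Bq q y := by
                          by_contra hcon
                          push Not at hcon
                          rw [Finset.expect_sum_comm] at hpop
                          have h3 : ∑ q ∈ Icc 1 M, 𝔼 y, Bq q y ≤ ∑ _q ∈ Icc 1 M, κ :=
                            Finset.sum_le_sum fun q hq => (hcon q hq).le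
                          rw [Finset.sum_const, Nat.card_Icc, Nat.add_sub_cancel, nsmul_eq_mul] at h3
                          have h4 : (M : ℝ) * κ ≤ δ⁻¹ ^ (9 * C1) * κ := mul_le_mul_of_nonneg_right hMle hκ0.le
                          have h5 : δ⁻¹ ^ (9 * C1) * κ = δ * (δ ^ 8 * (δ ^ (9 * C1)) ^ 2) := by
                            rw [hκdef, inv_pow]
                            field_simp
                            ring
                          rcases Nat.eq_zero_or_pos M with hM0 | hM0
                          · rw [hM0] at hpop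
                            simp only [Icc_self, zero_lt_one, Finset.Icc_eq_empty_of_lt, Finset.sum_empty] at hpop
                            have : 0 < δ ^ 8 / 2 * (δ ^ (9 * C1)) ^ 2 := by (clear * - hδ0; positivity)
                            (clear * - hpop this; linarith)
                          · have h6 : ∑ q ∈ Icc 1 M, 𝔼 y, Bq q y < ∑ _q ∈ Icc 1 M, κ :=
                              Finset.sum_lt_sum_of_nonempty ⟨1, Finset.mem_Icc.mpr ⟨le_rfl, hM0⟩⟩ hcon
                            rw [Finset.sum_const, Nat.card_Icc, Nat.add_sub_cancel, nsmul_eq_mul] at h6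
                            have h7 : 0 < δ ^ 8 * (δ ^ (9 * C1)) ^ 2 := by (clear * - hδ0; positivity)
                            have h8 : δ * (δ ^ 8 * (δ ^ (9 * C1)) ^ 2) ≤ 1 / 2 * (δ ^ 8 * (δ ^ (9 * C1)) ^ 2) :=
                              mul_le_mul_of_nonneg_right hδ h7.le
                            (clear * - hpop h4 h5 h6 h8; linarith)
                        have hq1 : 1 ≤ q := (Finset.mem_Icc.mp hqM).1
                        exact by
                          have hq : (q : ℝ) ≤ δ⁻¹ ^ (9 * C1) := by
                            refine le_trans ?_ hMle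
                            exact_mod_cast (Finset.mem_Icc.mp hqM).2
                          set st := stp S.Q q (c i) with hst
                          set L := Lq q with hL
                          have hL1 : 1 ≤ L := hLq1 q hq1 hq
                          have hL0 : (0 : ℝ) < L := by exact_mod_cast hL1
                          have hst0 : (0 : ℝ) < st := hstp0 q hq1
                          exact by
                            obtain ⟨b, hfrb, hb⟩ := cr_exists_char hF Y hY1 st L hκ0 hκ1 hκ
                            obtain ⟨y, hy⟩ := cr_exists_shift st Y L b (by positivity : 0 < κ / 2) hb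
                            have hfr : |fr b| ≤ δ⁻¹ ^ (14 + 27 * C1) / Xi := by
                              refine hfrb.trans ?_
                              rw [div_le_div_iff₀ hY0 hXi0]
                              have h3 : (8 : ℝ) ≤ δ⁻¹ ^ 3 := by
                                calc (8 : ℝ) = 2 ^ 3 := by norm_num
                                  _ ≤ _ := pow_le_pow_left₀ (by norm_num) hR2 3
                              calc κ⁻¹ * Xi = κ⁻¹ * (8 * δ⁻¹ ^ 2 * (δ ^ 2 * Xi / 8)) := by (clear * - hδ0 hXi0 hκ0; field_simp)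
                                _ ≤ κ⁻¹ * (δ⁻¹ ^ 3 * δ⁻¹ ^ 2 * Y) := by
                                  refine mul_le_mul_of_nonneg_left ?_ (by positivity)
                                  exact mul_le_mul (mul_le_mul_of_nonneg_right h3 (by positivity)) hYge (by (clear * - hδ0 hXi0; positivity))
                                    (by (clear * - hδ0; positivity))
                                _ = δ⁻¹ ^ (14 + 27 * C1) * Y := by
                                  rw [hκdef, ← inv_pow]
                                  ring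
                            have hpi : 2 * Real.pi ≤ 8 := by (clear * -; linarith [Real.pi_le_four])
                            have h2pi : 2 * Real.pi * |fr b| ≤ δ⁻¹ ^ (17 + 27 * C1) / Xi := by
                              have h3 : (8 : ℝ) ≤ δ⁻¹ ^ 3 := by
                                calc (8 : ℝ) = 2 ^ 3 := by norm_num
                                  _ ≤ _ := pow_le_pow_left₀ (by norm_num) hR2 3
                              calc 2 * Real.pi * |fr b| ≤ 8 * (δ⁻¹ ^ (14 + 27 * C1) / Xi) :=
                                    mul_le_mul hpi hfr (abs_nonneg _) (by norm_num)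
                                _ ≤ δ⁻¹ ^ 3 * (δ⁻¹ ^ (14 + 27 * C1) / Xi) :=
                                    mul_le_mul_of_nonneg_right h3 (by (clear * - hδ0 hXi0; positivity))
                                _ = _ := by ring
                            have hchAdm : Adm (δ⁻¹ ^ (17 + 27 * C1)) Xi (ch b) := by
                              refine ⟨fun x => (norm_ch b x).le, ?_⟩
                              exact tv_of_step (fun x => ch_step b x) h2pi (by positivity)
                            have hpow18 : δ⁻¹ ^ 6 + δ⁻¹ ^ (17 + 27 * C1) ≤ δ⁻¹ ^ (18 + 27 * C1) := by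
                              have h3 : δ⁻¹ ^ 6 ≤ δ⁻¹ ^ (17 + 27 * C1) := pow_le_pow_right₀ (by (clear * - hR2; linarith)) (by (clear * - c ε S δ X i q; omega))
                              calc δ⁻¹ ^ 6 + δ⁻¹ ^ (17 + 27 * C1) ≤ 2 * δ⁻¹ ^ (17 + 27 * C1) := by (clear * - h3; linarith)
                                _ ≤ δ⁻¹ * δ⁻¹ ^ (17 + 27 * C1) := mul_le_mul_of_nonneg_right hR2 (by (clear * - hδ0; positivity))
                                _ = _ := by ring
                            have hsAdm : Adm (δ⁻¹ ^ (18 + 27 * C1)) Xi (sfq st Y L F b) := by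
                              have h3 : Adm (δ⁻¹ ^ 6 + δ⁻¹ ^ (17 + 27 * C1)) Xi (fun x => wf Y F x * conj (ch b x)) :=
                                hwAdm.mul hchAdm.cnj
                              have h4 := cr_adm_Aqb (cr_adm_Aq h3 st L) st L
                              exact h4.mono hpow18 hXi0 le_rfl
                            exact by
                              set cc : ZMod N → ℂ := fun x => ch b y * sfq st Y L F b (x + y) with hcc
                              have hccAdm : Adm (δ⁻¹ ^ (18 + 27 * C1)) Xi cc := by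
                                have h3 := hsAdm.shift y
                                refine ⟨fun x => ?_, ?_⟩
                                · rw [hcc, norm_mul, norm_ch, one_mul]
                                  exact h3.bdd x
                                · have h4 := h3.tv.smul (ch b y)
                                  rw [norm_ch, one_mul] at h4
                                  exact h4
                              have hψ : ∀ x, ch b (x + y) * sfq st Y L F b (x + y) = ch b x * cc x := by
                                intro x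
                                rw [hcc, ch_add]
                                ring
                              have hpow19 : δ⁻¹ ^ (17 + 27 * C1) + δ⁻¹ ^ (18 + 27 * C1) ≤ δ⁻¹ ^ (19 + 27 * C1) := by
                                have h3 : δ⁻¹ ^ (17 + 27 * C1) ≤ δ⁻¹ ^ (18 + 27 * C1) :=
                                  pow_le_pow_right₀ (by (clear * - hR2; linarith)) (by omega)
                                calc δ⁻¹ ^ (17 + 27 * C1) + δ⁻¹ ^ (18 + 27 * C1) ≤ 2 * δ⁻¹ ^ (18 + 27 * C1) := by (clear * - h3; linarith)
                                  _ ≤ δ⁻¹ * δ⁻¹ ^ (18 + 27 * C1) := mul_le_mul_of_nonneg_right hR2 (by positivity)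
                                  _ = _ := by ring
                              refine ⟨fun x => ch b x * cc x, ⟨q, b, cc, hq1, ?_, ?_, ?_, ?_, fun x => rfl⟩, ?_, ?_⟩
                              · refine hq.trans (pow_le_pow_right₀ (by (clear * - hR2; linarith)) (by omega))
                              · refine hfr.trans ?_
                                exact by
                                  have h3 : δ⁻¹ ^ (14 + 27 * C1) ≤ δ⁻¹ ^ (19 + 27 * C1) :=
                                    pow_le_pow_right₀ (by (clear * - hR2; linarith)) (by omega)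
                                  (clear * - h3 hXi0; gcongr)
                              · exact hccAdm.mono (pow_le_pow_right₀ (by (clear * - hR2; linarith)) (by omega)) hXi0 le_rfl
                              · intro x t
                                exact by
                                  change ‖ch b y * sfq st Y L F b (x + ((st * t : ℤ) : ZMod N) + y) -
                                    ch b y * sfq st Y L F b (x + y)‖ ≤ _
                                  rw [← mul_sub, norm_mul, norm_ch, one_mul]
                                  have h3 : x + ((st * t : ℤ) : ZMod N) + y = x + y + ((st * t : ℤ) : ZMod N) := by ring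
                                  rw [h3]
                                  have h4 := cr_Aqb_lip (f := Aq st L (fun x => wf Y F x * conj (ch b x)))
                                    (cr_norm_Aq_le (fun x => norm_wch_le hF Y b x) st L) st L (x + y) t
                                  refine h4.trans ?_
                                  have h5 := hLqge q hq1 hq
                                  have h6 : S.P i ≤ 2 * L * st * S.D ^ (ε / 2) := by
                                    have h7 : S.P i = S.P i * S.D ^ (-(ε / 2)) * S.D ^ (ε / 2) := by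
                                      rw [mul_assoc, ← Real.rpow_add hD0, neg_add_cancel, Real.rpow_zero, mul_one]
                                    rw [h7]
                                    exact mul_le_mul_of_nonneg_right h5 (Real.rpow_nonneg hD0.le _)
                                  have h8 : S.D ^ (ε / 2) * S.D ^ (ε / 2) = S.D ^ ε := by
                                    rw [← Real.rpow_add hD0]
                                    congr 1
                                    ring
                                  have h9 : 2 / (L : ℝ) ≤ st * S.D ^ ε / S.P i := by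
                                    rw [div_le_div_iff₀ hL0 hPi0]
                                    have h10 : 0 < S.D ^ (ε / 2) := Real.rpow_pos_of_pos hD0 _
                                    have h11 : 0 ≤ L * st * S.D ^ (ε / 2) := by (clear * - hL1 hst0 hD4; positivity)
                                    calc 2 * S.P i ≤ 2 * (2 * L * st * S.D ^ (ε / 2)) := by (clear * - h6; linarith)
                                      _ = 4 * (L * st * S.D ^ (ε / 2)) := by ring
                                      _ ≤ S.D ^ (ε / 2) * (L * st * S.D ^ (ε / 2)) := mul_le_mul_of_nonneg_right hDε h11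
                                      _ = st * (S.D ^ (ε / 2) * S.D ^ (ε / 2)) * L := by ring
                                      _ = _ := by rw [h8]
                                  calc |(t : ℝ)| * (2 / L) ≤ |(t : ℝ)| * (st * S.D ^ ε / S.P i) :=
                                        mul_le_mul_of_nonneg_left h9 (abs_nonneg _)
                                    _ = _ := by ring
                              · exact (hchAdm.mul hccAdm).mono hpow19 hXi0 le_rfl
                              · rw [hpair]
                                exact by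
                                  have h3 : 𝔼 x, ch b x * cc x * F x =
                                      𝔼 x, (ch b (x + y) * sfq st Y L F b (x + y)) * F x :=
                                    Finset.expect_congr rfl fun x _ => by rw [hψ x]
                                  rw [h3]
                                  refine le_trans ?_ hy
                                  calc δ ^ (19 + 27 * C1) ≤ δ ^ (10 + 27 * C1) :=
                                        pow_le_pow_of_le_one hδ0.le (by (clear * - hδ; linarith)) (by (clear * - c ε S δ X i q; omega))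
                                    _ = κ * δ := by rw [hκdef]; ring
                                    _ ≤ κ * (1 / 2) := mul_le_mul_of_nonneg_left hδ hκ0.le
                                    _ = κ / 2 := by ring

theorem cr_stages (m : ℕ) (c : Fin (m + 1) → ℝ) (hc : Ex c) (s ε : ℝ) (hε : 0 < ε) (hε1 : ε ≤ 1)
    (hs : s < c (Fin.last m)) (J : Finset (Fin (m + 1))) (hU : UsJ m c s (ε / 2) J)
    (J' : Finset (Fin (m + 1))) : J' ⊆ J →
    ∃ x0 : ℝ, 0 < x0 ∧ ∃ C : ℕ, 1 ≤ C ∧ ∃ σ : ℝ, 0 < σ ∧ σ ≤ 1 / 2 ∧ ∃ D0 : ℝ, 4 ≤ D0 ∧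
    ∀ (S : Sys (m + 1)) (N : ℕ) [NeZero N] (lam : ℕ), D0 ≤ S.D → IG S c N x0 lam →
    ∀ δ : ℝ, S.D ^ (-σ) ≤ δ → δ ≤ 1 / 2 → (lam : ℝ) ≤ δ⁻¹ →
    ∀ X : ℝ, (S.Q : ℝ) ≤ X → S.Q * S.D ^ (s - σ) ≤ X → X ≤ S.Q * S.D ^ s →
    ∀ (h : ℕ → ℂ) (f0 : ZMod N → ℂ) (f : Fin (m + 1) → ZMod N → ℂ),
    (∀ k, ‖h k‖ ≤ 1) → Adm δ⁻¹ S.Q f0 → (∀ i, Adm δ⁻¹ (XiOf S X i) (f i)) →
    δ ≤ ‖form S c h f0 f‖ → ∃ f' : Fin (m + 1) → ZMod N → ℂ,
      (∀ i ∈ J', NiceQ S c (XiOf S X i) ε (δ⁻¹ ^ C) i (f' i)) ∧ (∀ i, i ∉ J' → f' i = f i) ∧
      (∀ i, Adm (δ⁻¹ ^ C) (XiOf S X i) (f' i)) ∧ δ ^ C ≤ ‖form S c h f0 f'‖ := by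
  classical
  induction J' using Finset.induction_on with
  | empty =>
    intro _
    refine ⟨1, one_pos, 1, le_rfl, 1 / 2, by norm_num, le_rfl, 4, le_rfl, ?_⟩
    intro S N _ lam hD hG δ hδσ hδ hlam X hQX hX hX' h f0 f hh hf0 hf hform
    refine ⟨f, fun i hi => absurd hi (Finset.notMem_empty i), fun i _ => rfl, ?_, ?_⟩
    · intro i
      rw [pow_one]
      exact hf i
    · rw [pow_one]
      exact hform
  | insert i J' hi ih =>
    intro hJ'
    have hiJ : i ∈ J := hJ' (Finset.mem_insert_self i J')
    obtain ⟨x1, hx1, C1, hC1, σ1, hσ1, hσ1', D1, hD1, H1⟩ :=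
      ih (fun j hj => hJ' (Finset.mem_insert_of_mem hj))
    obtain ⟨x2, hx2, C2, hC2, σ2, hσ2, hσ2', D2, hD2, H2⟩ := cr_step m c hc s ε hε hε1 hs J hU
    have hC1r : (1 : ℝ) ≤ C1 := by exact_mod_cast hC1
    exact by
      have hC10 : (0 : ℝ) < C1 := by (clear * - hσ1 hσ1' hC1r; linarith)
      refine ⟨min x1 x2, lt_min hx1 hx2, C1 * C2,
        Nat.mul_pos hC1 hC2, min σ1 (σ2 / C1), lt_min hσ1 (by (clear * - hσ2 hC1; positivity)),
        (min_le_left _ _).trans hσ1', max D1 D2, hD1.trans (le_max_left _ _), ?_⟩
      intro S N _ lam hD hG δ hδσ hδ hlam X hQX hX hX' h f0 f hh hf0 hf hform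
      have hDa : D1 ≤ S.D := (le_max_left _ _).trans hD
      have hDb : D2 ≤ S.D := (le_max_right _ _).trans hD
      have hD1' : 1 ≤ S.D := by (clear * - hσ1 hσ1' hD1 hDa; linarith)
      have hD0 : 0 < S.D := by (clear * - hσ1 hσ1' hD1 hDa; linarith)
      have hδ0 : 0 < δ := (Real.rpow_pos_of_pos hD0 _).trans_le hδσ
      exact by
        have hR2 : 2 ≤ δ⁻¹ := two_le_inv hδ0 hδ
        have hm1 : min σ1 (σ2 / C1) ≤ σ1 := min_le_left _ _
        have hm2 : min σ1 (σ2 / C1) ≤ σ2 / C1 := min_le_right _ _
        have hm3 : σ2 / C1 ≤ σ2 := div_le_self hσ2.le hC1r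
        have hQ0 : (0 : ℝ) < S.Q := by
          have := hG.good.Q1
          exact (Real.rpow_pos_of_pos hD0 _).trans_le this
        have hXi0 : ∀ j, 0 < XiOf S X j := fun j => hQ0.trans_le (le_XiOf hQX j)
        exact by
          have hXσ : ∀ σ', min σ1 (σ2 / C1) ≤ σ' → S.Q * S.D ^ (s - σ') ≤ X := by
            intro σ' hσ'
            refine le_trans (mul_le_mul_of_nonneg_left ?_ (Nat.cast_nonneg _)) hX
            exact Real.rpow_le_rpow_of_exponent_le hD1' (by (clear * - hσ'; linarith))
          obtain ⟨f', hN', hE', hA', hF'⟩ := H1 S N lam hDa (cr_IG_mono hG (min_le_left _ _) hD1') δ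
            ((Real.rpow_le_rpow_of_exponent_le hD1' (by (clear * - hm1; linarith))).trans hδσ) hδ hlam X hQX
            (hXσ σ1 hm1) hX' h f0 f hh hf0 hf hform
          have hinv : (δ ^ C1)⁻¹ = δ⁻¹ ^ C1 := (inv_pow δ C1).symm
          have hδ' : S.D ^ (-σ2) ≤ δ ^ C1 := by
            calc S.D ^ (-σ2) = (S.D ^ (-(σ2 / C1))) ^ C1 := by
                  rw [← Real.rpow_natCast, ← Real.rpow_mul hD0.le]
                  congr 1
                  (clear * - hC1 hσ2; field_simp)
              _ ≤ δ ^ C1 := by
                  refine pow_le_pow_left₀ (Real.rpow_nonneg hD0.le _) (le_trans ?_ hδσ) C1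
                  exact Real.rpow_le_rpow_of_exponent_le hD1' (by (clear * - hm2; linarith))
          have hδ'' : δ ^ C1 ≤ 1 / 2 := by
            calc δ ^ C1 ≤ δ ^ 1 := pow_le_pow_of_le_one hδ0.le (by (clear * - hσ1 hσ1' hδ; linarith)) hC1
              _ ≤ 1 / 2 := by rw [pow_one]; exact hδ
          have hself : δ⁻¹ ≤ δ⁻¹ ^ C1 := le_self_pow₀ (by (clear * - hσ1 hσ1' hR2; linarith)) (by (clear * - hC1 C2; omega))
          obtain ⟨ψ, hψ1, hψ2, hψ3⟩ := H2 S N lam hDb (cr_IG_mono hG (min_le_right _ _) hD1') (δ ^ C1)
            hδ' hδ'' (by rw [hinv]; exact hlam.trans hself) X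
            hQX (hXσ σ2 (hm2.trans hm3)) hX' h f0 f' hh
            (hf0.mono (by
              rw [hinv]
              exact hself) hQ0 le_rfl)
            (fun j => by
              rw [hinv]
              exact hA' j) hF' i hiJ
          have hpow : (δ ^ C1)⁻¹ ^ C2 = δ⁻¹ ^ (C1 * C2) := by rw [hinv, ← pow_mul]
          rw [hpow] at hψ1 hψ2
          have hle : δ⁻¹ ^ C1 ≤ δ⁻¹ ^ (C1 * C2) :=
            pow_le_pow_right₀ (by (clear * - hσ1 hσ1' hR2; linarith)) (Nat.le_mul_of_pos_right C1 hC2)
          refine ⟨Function.update f' i ψ, ?_, ?_, ?_, ?_⟩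
          · intro j hj
            by_cases hji : j = i
            · subst hji
              rw [Function.update_self]
              exact hψ1
            · rw [Function.update_of_ne hji]
              exact (hN' j ((Finset.mem_insert.mp hj).resolve_left hji)).mono (hXi0 j) hle
          · intro j hj
            rw [Finset.mem_insert, not_or] at hj
            rw [Function.update_of_ne hj.1]
            exact hE' j hj.2
          · intro j
            by_cases hji : j = i
            · subst hji
              rw [Function.update_self]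
              exact hψ2
            · rw [Function.update_of_ne hji]
              exact (hA' j).mono hle (hXi0 j) le_rfl
          · rw [pow_mul]
            exact hψ3

theorem char_rep (m : ℕ) (c : Fin (m + 1) → ℝ) (hc : Ex c) (s : ℝ) (hs0 : 0 ≤ s)
    (hs : s < c (Fin.last m)) (J : Finset (Fin (m + 1)))
    (hU : ∀ ε : ℝ, 0 < ε → UsJ m c s ε J) : ∀ ε : ℝ, 0 < ε →
    ∃ x0 : ℝ, 0 < x0 ∧ ∃ C : ℕ, ∃ σ : ℝ, 0 < σ ∧ ∃ D0 : ℝ,
    ∀ (S : Sys (m + 1)) (N : ℕ) [NeZero N] (lam : ℕ), D0 ≤ S.D → IG S c N x0 lam →
    ∀ δ : ℝ, S.D ^ (-σ) ≤ δ → δ ≤ 1 / 2 → (lam : ℝ) ≤ δ⁻¹ →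
    ∀ X : ℝ, (S.Q : ℝ) ≤ X → S.Q * S.D ^ (s - σ) ≤ X → X ≤ S.Q * S.D ^ s →
    ∀ (h : ℕ → ℂ) (f0 : ZMod N → ℂ) (f : Fin (m + 1) → ZMod N → ℂ),
    (∀ k, ‖h k‖ ≤ 1) → Adm δ⁻¹ S.Q f0 → (∀ i, Adm δ⁻¹ S.Q (f i)) →
    Adm δ⁻¹ X (f (Fin.last m)) →
    δ ≤ ‖form S c h f0 f‖ →
    ∃ q : ℕ, 1 ≤ q ∧ (q : ℝ) ≤ δ⁻¹ ^ C ∧
    ∃ (b : Fin (m + 1) → ℤ) (cc : Fin (m + 1) → ZMod N → ℂ),
      (∀ i ∈ J, |(b i : ℝ) / N| ≤ δ⁻¹ ^ C / S.Q ∧ (i = Fin.last m → |(b i : ℝ) / N| ≤ δ⁻¹ ^ C / X) ∧
        Adm (δ⁻¹ ^ C) S.Q (cc i) ∧
        ∀ (x : ZMod N) (t : ℤ), ‖cc i (x + ((stp S.Q q (c i) * t : ℤ) : ZMod N)) - cc i x‖ ≤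
          |(t : ℝ)| * (stp S.Q q (c i) : ℝ) * S.D ^ ε / S.P i) ∧
      δ ^ C ≤ ‖form S c h f0 (fun i x => if i ∈ J then e ((b i : ℝ) / N * x.val) * cc i x
        else f i x)‖ := by
  classical
  intro ε0 hε0
  set ε := min ε0 1 with hεdef
  have hε : 0 < ε := lt_min hε0 one_pos
  have hε1 : ε ≤ 1 := min_le_right _ _
  have hεε0 : ε ≤ ε0 := min_le_left _ _
  obtain ⟨x0, hx0, C, hC, σ, hσ, hσ', D0, hD0, H⟩ :=
    cr_stages m c hc s ε hε hε1 hs J (hU (ε / 2) (by linarith)) J (Finset.Subset.refl J)
  refine ⟨x0, hx0, C * (J.card + 1), σ, hσ, D0, ?_⟩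
  intro S N _ lam hD hG δ hδσ hδ hlam X hQX hX hX' h f0 f hh hf0 hf hfl hform
  have hD4 : 4 ≤ S.D := hD0.trans hD
  have hD1 : 1 ≤ S.D := by (clear * - hσ hσ' hD0 hD; linarith)
  exact by
    have hDpos : 0 < S.D := by (clear * - hσ hσ' hD0 hD; linarith)
    have hδ0 : 0 < δ := (Real.rpow_pos_of_pos hDpos _).trans_le hδσ
    have hR2 : 2 ≤ δ⁻¹ := two_le_inv hδ0 hδ
    have hQ0 : (0 : ℝ) < S.Q := (Real.rpow_pos_of_pos hDpos _).trans_le hG.good.Q1
    have hX0 : 0 < X := hQ0.trans_le hQX
    have hXi0 : ∀ j, 0 < XiOf S X j := fun j => hQ0.trans_le (le_XiOf hQX j)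
    exact by
      obtain ⟨f', hN', hE', -, hF'⟩ := H S N lam hD hG δ hδσ hδ hlam X hQX hX hX' h f0 f hh hf0
        (fun i => by
          unfold XiOf
          split_ifs with hi
          · rw [hi]; exact hfl
          · exact hf i) hform
      have hch : ∀ i, ∃ (q : ℕ) (b : ZMod N) (g : ZMod N → ℂ), 1 ≤ q ∧ (i ∈ J → (q : ℝ) ≤ δ⁻¹ ^ C ∧
          |fr b| ≤ δ⁻¹ ^ C / XiOf S X i ∧ Adm (δ⁻¹ ^ C) (XiOf S X i) g ∧
          (∀ (x : ZMod N) (t : ℤ), ‖g (x + ((stp S.Q q (c i) * t : ℤ) : ZMod N)) - g x‖ ≤
            |(t : ℝ)| * (stp S.Q q (c i) : ℝ) * S.D ^ ε / S.P i) ∧ ∀ x, f' i x = ch b x * g x) := by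
        intro i
        by_cases hi : i ∈ J
        · obtain ⟨q, b, g, h1, h2, h3, h4, h5, h6⟩ := hN' i hi
          exact ⟨q, b, g, h1, fun _ => ⟨h2, h3, h4, h5, h6⟩⟩
        · exact ⟨1, 0, 0, le_rfl, fun h => absurd h hi⟩
      choose q b g hq1 hall using hch
      have hRC : 1 ≤ δ⁻¹ ^ C := one_le_pow₀ (by (clear * - hσ hσ' hR2; linarith))
      have hCle : δ⁻¹ ^ C ≤ δ⁻¹ ^ (C * (J.card + 1)) :=
        pow_le_pow_right₀ (by (clear * - hσ hσ' hR2; linarith)) (Nat.le_mul_of_pos_right C (Nat.succ_pos _))
      have hq1' : 1 ≤ ∏ j ∈ J, q j := Nat.succ_le_of_lt (Finset.prod_pos fun j _ => hq1 j)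
      refine ⟨∏ j ∈ J, q j, hq1', ?_, fun i => (b i).valMinAbs, g, ?_, ?_⟩
      · push_cast
        calc ∏ j ∈ J, (q j : ℝ) ≤ ∏ _j ∈ J, δ⁻¹ ^ C :=
              Finset.prod_le_prod (fun j _ => Nat.cast_nonneg _) fun j hj => (hall j hj).1
          _ = (δ⁻¹ ^ C) ^ J.card := by rw [Finset.prod_const]
          _ ≤ (δ⁻¹ ^ C) ^ (J.card + 1) := pow_le_pow_right₀ hRC (Nat.le_succ _)
          _ = _ := by rw [← pow_mul]
      · intro i hi
        exact by
          obtain ⟨-, h2, h3, h4, -⟩ := hall i hi
          have hfr : |((b i).valMinAbs : ℝ) / N| ≤ δ⁻¹ ^ C / XiOf S X i := h2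
          refine ⟨?_, ?_, ?_, ?_⟩
          · refine hfr.trans ?_
            have h5 := le_XiOf hQX i
            (clear * - hδ0 hCle hQ0 h5; gcongr)
          · intro hlast
            refine hfr.trans ?_
            have h5 : XiOf S X i = X := by
              unfold XiOf
              rw [if_pos hlast]
            rw [h5]
            (clear * - hCle hX0; gcongr)
          · exact h3.mono hCle hQ0 (le_XiOf hQX i)
          · intro x t
            have hPi0 : 0 < S.P i := by
              refine lt_of_lt_of_le ?_ (hG.good.P1 i)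
              exact mul_pos hQ0 (Real.rpow_pos_of_pos hDpos _)
            have h5 : ∏ j ∈ J, q j = q i * ∏ j ∈ J.erase i, q j :=
              (Finset.mul_prod_erase J q hi).symm
            obtain ⟨r, hr⟩ := cr_stp_mul S.Q (q i) (∏ j ∈ J.erase i, q j) (c i)
            rw [h5, hr]
            have h6 : ((stp S.Q (q i) (c i) * r : ℕ) : ℤ) * t = (stp S.Q (q i) (c i) : ℤ) * (r * t) := by
              push_cast
              ring
            rw [h6]
            refine (h4 x (r * t)).trans ?_
            have h7 : S.D ^ ε ≤ S.D ^ ε0 := Real.rpow_le_rpow_of_exponent_le hD1 hεε0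
            have h8 : |((r * t : ℤ) : ℝ)| = r * |(t : ℝ)| := by
              push_cast
              rw [abs_mul, Nat.abs_cast]
            rw [h8]
            push_cast
            calc (r : ℝ) * |(t : ℝ)| * (stp S.Q (q i) (c i) : ℝ) * S.D ^ ε / S.P i
                ≤ (r : ℝ) * |(t : ℝ)| * (stp S.Q (q i) (c i) : ℝ) * S.D ^ ε0 / S.P i := by
                  (clear * - h7 hPi0; gcongr)
              _ = _ := by ring
      · have hfe : (fun (i : Fin (m + 1)) (x : ZMod N) => if i ∈ J then
            e (((b i).valMinAbs : ℝ) / N * x.val) * g i x else f i x) = f' := by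
          funext i x
          split_ifs with hi
          · rw [(hall i hi).2.2.2.2 x]
            congr 1
            have h1 := ch_nat (b i) x.val
            rw [ZMod.natCast_zmod_val] at h1
            rw [h1]
            rfl
          · rw [hE' i hi]
        rw [hfe]
        refine le_trans ?_ hF'
        exact pow_le_pow_of_le_one hδ0.le (by (clear * - hσ hσ' hδ; linarith))
          (Nat.le_mul_of_pos_right C (Nat.succ_pos _))

end

end Pool.Agent.Helper67.NX2

end
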