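import Pool.Agent.Helper23.MC.L01_a1
import Pool.Agent.Helper23.MC.L01_a10
import Pool.Agent.Helper23.MC.L01_a11
import Pool.Agent.Helper23.MC.L01_a12
import Pool.Agent.Helper23.MC.L01_a13
import Pool.Agent.Helper23.MC.L01_a2
import Pool.Agent.Helper23.MC.L01_a5
import Pool.Agent.Helper23.MC.L01_a6
import Pool.Agent.Helper23.MC.L01_a7
import Pool.Agent.Helper23.MC.L01_a8

/-!
Parts of Helper5.NX.Basic, Helper30.NX.UsOfTop, Helper50.NX2.UsOfTop, Helper21.NX2.ThmPOf
-/

attribute [local instance 5000]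
  Pool.Agent.Helper23.MC.Inst.rCharZero Pool.Agent.Helper23.MC.Inst.rALM
  Pool.Agent.Helper23.MC.Inst.rARM Pool.Agent.Helper23.MC.Inst.rALSM
  Pool.Agent.Helper23.MC.Inst.rARSM Pool.Agent.Helper23.MC.Inst.rARRLE
  Pool.Agent.Helper23.MC.Inst.rALRLE Pool.Agent.Helper23.MC.Inst.rARRLT
  Pool.Agent.Helper23.MC.Inst.rALRLT Pool.Agent.Helper23.MC.Inst.rPMRLT
  Pool.Agent.Helper23.MC.Inst.rMPRLT Pool.Agent.Helper23.MC.Inst.rPMM
  Pool.Agent.Helper23.MC.Inst.rMPM Pool.Agent.Helper23.MC.Inst.rPMSM
  Pool.Agent.Helper23.MC.Inst.rMPSM Pool.Agent.Helper23.MC.Inst.rEAOL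
  Pool.Agent.Helper23.MC.Inst.rIOR Pool.Agent.Helper23.MC.Inst.rISOR
  Pool.Agent.Helper23.MC.Inst.rNZD Pool.Agent.Helper23.MC.Inst.rcCharZero
  Pool.Agent.Helper23.MC.Inst.rcNZD Pool.Agent.Helper23.MC.Inst.zCharZero
  Pool.Agent.Helper23.MC.Inst.zALM Pool.Agent.Helper23.MC.Inst.zARM
  Pool.Agent.Helper23.MC.Inst.zALSM Pool.Agent.Helper23.MC.Inst.zARSM
  Pool.Agent.Helper23.MC.Inst.zIOR Pool.Agent.Helper23.MC.Inst.zISOR
  Pool.Agent.Helper23.MC.Inst.zNZD Pool.Agent.Helper23.MC.Inst.qCharZero
  Pool.Agent.Helper23.MC.Inst.mR Pool.Agent.Helper23.MC.Inst.mC Pool.Agent.Helper23.MC.Inst.mRC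
  Pool.Agent.Helper23.MC.Inst.rPSM Pool.Agent.Helper23.MC.Inst.rCSM
  Pool.Agent.Helper23.MC.Inst.cAdd Pool.Agent.Helper23.MC.Inst.cAddM
  Pool.Agent.Helper23.MC.Inst.cMul Pool.Agent.Helper23.MC.Inst.cMon

namespace Pool.Agent.Helper57.NX
end Pool.Agent.Helper57.NX
namespace Pool.Agent.Helper57.NX.US10
end Pool.Agent.Helper57.NX.US10

section

set_option autoImplicit false

open Finset

open scoped BigOperators ComplexConjugate

namespace Pool.Agent.Helper57.NX

noncomputable section

section Basic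

variable {N : ℕ} [NeZero N]

theorem TV.avg {B X : ℝ} {f : ZMod N → ℂ} (h : TV B X f) (L : ℕ) : TV B X (A L f) := by
  intro x l
  refine sum_expect_le5 (range L) (fun a y => f (y + (a : ZMod N))) (h.rhs_nonneg5 l) x l
    fun a _ => ?_
  refine le_trans (le_of_eq ?_) (h (x + (a : ZMod N)) l)
  refine sum_congr rfl fun j _ => ?_
  congr 3 <;> ring

theorem Adm.avg {B X : ℝ} {f : ZMod N → ℂ} (h : Adm B X f) (L : ℕ) : Adm B X (A L f) :=
  ⟨norm_A_le h.bdd L, h.tv.avg L⟩

end Basic

end

end Pool.Agent.Helper57.NX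

end

section

set_option autoImplicit false

open Finset

open scoped BigOperators ComplexConjugate

namespace Pool.Agent.Helper57.NX

noncomputable section

namespace US10

theorem reduce {m N : ℕ} [NeZero N] (S : Sys (m + 1)) (c : Fin (m + 1) → ℝ)
    (f0 : ZMod N → ℂ) (hf0 : ∀ x, ‖f0 x‖ ≤ 1) (f : Fin (m + 1) → ZMod N → ℂ)
    (hf : ∀ i x, ‖f i x‖ ≤ 1) (T' : ℕ) (hT' : 0 < T') (δ η : ℝ) (hδ : 0 < δ)
    (hT : (T' : ℝ) < δ / 4 * S.T) (hform : δ / 2 ≤ ‖form S c 1 f0 f‖)
    (hη : ∀ k k' : ℕ, S.u ≤ k → k < S.u + S.T → S.u ≤ k' → k' < S.u + S.T →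
      |(k : ℝ) - k'| ≤ T' → ∀ x, ‖f (Fin.last m) (x + (S.a c (Fin.last m) k : ZMod N))
        - f (Fin.last m) (x + (S.a c (Fin.last m) k' : ZMod N))‖ ≤ η) :
    ∃ u' : ℕ, S.u ≤ u' ∧ u' + T' ≤ S.u + S.T ∧
      δ / 4 - η ≤ ‖form (S.init.sub u' T') (fun i => c i.castSucc) 1
        (fun x => f0 x * f (Fin.last m) (x + (S.a c (Fin.last m) u' : ZMod N)))
        (fun i => f i.castSucc)‖ := by
  set G : ℕ → ℂ := fun k => 𝔼 x : ZMod N, f0 x * ∏ i, f i (x + (S.a c i k : ZMod N)) with hGdef
  have hprod : ∀ (k : ℕ) (x : ZMod N), ‖∏ i : Fin m, f i.castSucc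
      (x + (S.a c i.castSucc k : ZMod N))‖ ≤ 1 := by
    intro k x
    rw [norm_prod]
    exact Finset.prod_le_one (fun _ _ => norm_nonneg _) fun i _ => hf _ _
  have hG : ∀ k, ‖G k‖ ≤ 1 := by
    intro k
    refine (RCLike.norm_expect_le (K := ℂ)).trans (Finset.expect_le Finset.univ_nonempty fun x _ => ?_)
    rw [Fin.prod_univ_castSucc, norm_mul, norm_mul]
    exact mul_le_one₀ (hf0 x) (by positivity)
      (mul_le_one₀ (hprod k x) (norm_nonneg _) (hf _ _))
  have hTpos : (0 : ℝ) < S.T := by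
    have h1 : (0 : ℝ) < T' := by exact_mod_cast hT'
    by_contra h2
    have h3 : δ / 4 * (S.T : ℝ) ≤ 0 := mul_nonpos_of_nonneg_of_nonpos (by (clear * - hδ; linarith)) (by (clear * - h2; linarith))
    linarith
  have hformG : ‖∑ k ∈ Ico S.u (S.u + S.T), G k‖ = ‖form S c 1 f0 f‖ * S.T := by
    have h1 : form S c 1 f0 f = (∑ k ∈ Ico S.u (S.u + S.T), G k) / S.T := by
      rw [form, Finset.expect_eq_sum_div_card, Sys.I, Nat.card_Ico, Nat.add_sub_cancel_left]
      congr 1
      refine Finset.sum_congr rfl fun k _ => ?_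
      rw [Pi.one_apply, one_mul]
    rw [h1, norm_div, Complex.norm_natCast, div_mul_cancel₀ _ hTpos.ne']
  by_contra hcon
  exact by
    push Not at hcon
    have hblock : ∀ u', S.u ≤ u' → u' + T' ≤ S.u + S.T →
        ‖∑ k ∈ Ico u' (u' + T'), G k‖ ≤ δ / 4 * T' := by
      intro u' h1 h2
      have h3 := hcon u' h1 h2
      have hT'0 : (0 : ℝ) < T' := by exact_mod_cast hT'
      have hne : (Ico u' (u' + T')).Nonempty := by
        rw [Finset.nonempty_Ico]
        omega
      have h4 : ‖𝔼 k ∈ Ico u' (u' + T'), G k‖ ≤ δ / 4 := by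
        have h5 : ‖(𝔼 k ∈ Ico u' (u' + T'), G k) - form (S.init.sub u' T')
            (fun i => c i.castSucc) 1
            (fun x => f0 x * f (Fin.last m) (x + (S.a c (Fin.last m) u' : ZMod N)))
            (fun i => f i.castSucc)‖ ≤ η := by
          have h6 : form (S.init.sub u' T') (fun i => c i.castSucc) 1
            (fun x => f0 x * f (Fin.last m) (x + (S.a c (Fin.last m) u' : ZMod N)))
            (fun i => f i.castSucc) = 𝔼 k ∈ Ico u' (u' + T'), 𝔼 x : ZMod N,
              (f0 x * f (Fin.last m) (x + (S.a c (Fin.last m) u' : ZMod N))) *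
                ∏ i : Fin m, f i.castSucc (x + (S.a c i.castSucc k : ZMod N)) := by
            refine Finset.expect_congr rfl fun k _ => ?_
            rw [Pi.one_apply, one_mul]
            rfl
          rw [h6, ← Finset.expect_sub_distrib]
          refine (RCLike.norm_expect_le (K := ℂ)).trans (Finset.expect_le hne fun k hk => ?_)
          rw [Finset.mem_Ico] at hk
          rw [hGdef]
          dsimp only
          rw [← Finset.expect_sub_distrib]
          refine (RCLike.norm_expect_le (K := ℂ)).trans (Finset.expect_le Finset.univ_nonempty fun x _ => ?_)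
          rw [Fin.prod_univ_castSucc]
          have h7 : f0 x * ((∏ i : Fin m, f i.castSucc (x + (S.a c i.castSucc k : ZMod N))) *
              f (Fin.last m) (x + (S.a c (Fin.last m) k : ZMod N))) -
              (f0 x * f (Fin.last m) (x + (S.a c (Fin.last m) u' : ZMod N))) *
                ∏ i : Fin m, f i.castSucc (x + (S.a c i.castSucc k : ZMod N))
              = f0 x * ((∏ i : Fin m, f i.castSucc (x + (S.a c i.castSucc k : ZMod N))) *
                (f (Fin.last m) (x + (S.a c (Fin.last m) k : ZMod N))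
                  - f (Fin.last m) (x + (S.a c (Fin.last m) u' : ZMod N)))) := by ring
          rw [h7, norm_mul, norm_mul]
          have h8 := hη k u' (by omega) (by omega) h1 (by omega) (by
            rw [abs_le]
            have h9 : (u' : ℝ) ≤ k := by exact_mod_cast hk.1
            have h10 : (k : ℝ) ≤ u' + T' := by exact_mod_cast hk.2.le
            constructor <;> (clear * - hT'0 h9 h10; linarith)) x
          calc _ ≤ 1 * (1 * η) := by
                gcongr
                · exact hf0 x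
                · exact hprod k x
            _ = η := by ring
        have h6 := norm_sub_norm_le (𝔼 k ∈ Ico u' (u' + T'), G k) (form (S.init.sub u' T')
            (fun i => c i.castSucc) 1
            (fun x => f0 x * f (Fin.last m) (x + (S.a c (Fin.last m) u' : ZMod N)))
            (fun i => f i.castSucc))
        (clear * - h3 h5 h6; linarith)
      rw [Finset.expect_eq_sum_div_card, Nat.card_Ico, Nat.add_sub_cancel_left, norm_div,
        Complex.norm_natCast, div_le_iff₀ hT'0] at h4
      exact h4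
    have h1 := block_sum G hG S.u S.T T' hT' (δ / 4 * T') (by (clear * - hδ hT'; positivity)) hblock
    rw [hformG] at h1
    have hT'0 : (0 : ℝ) < T' := by exact_mod_cast hT'
    have h2 : (S.T / T' : ℝ) * (δ / 4 * T') = δ / 4 * S.T := by
      field_simp
    rw [h2] at h1
    have h3 : δ / 2 * S.T ≤ ‖form S c 1 f0 f‖ * S.T :=
      mul_le_mul_of_nonneg_right hform hTpos.le
    (clear * - hT h1 h3; linarith)

theorem low (m : ℕ) (c : Fin (m + 1) → ℝ) (hc0 : ∀ i, 0 < c i) (s ε : ℝ) (hε : 0 < ε)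
    (hU : ∀ ε : ℝ, 0 < ε → UP m (fun i => c i.castSucc) ε)
    (hT : ∀ ε : ℝ, 0 < ε → TopP m c s ε) :
    ∃ x0 : ℝ, 0 < x0 ∧ ∃ C : ℕ, ∃ σ : ℝ, 0 < σ ∧ ∃ D0 : ℝ,
  ∀ (S : Sys (m + 1)) (N : ℕ) [NeZero N], D0 ≤ S.D → Good S c N x0 →
  ∀ δ : ℝ, S.D ^ (-σ) ≤ δ → δ ≤ 1 / 2 →
  ∀ X : ℝ, (S.Q : ℝ) ≤ X → S.Q * S.D ^ (s - σ) ≤ X →
  ∀ (f0 : ZMod N → ℂ) (f : Fin (m + 1) → ZMod N → ℂ),
  Adm δ⁻¹ S.Q f0 → (∀ i, Adm δ⁻¹ S.Q (f i)) → Adm δ⁻¹ X (f (Fin.last m)) →
  δ ≤ ‖form S c 1 f0 f‖ →
  ∀ i : Fin m, ∀ L : ℕ, 1 ≤ L → (L : ℝ) ≤ S.P i.castSucc * S.D ^ (-ε) →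
    δ ^ C ≤ nrm (A L (f i.castSucc)) := by
  obtain ⟨x1, hx1, C1, σ1, hσ1, D1, h1⟩ := hU ε hε
  set p : ℝ := c (Fin.last m) with hp
  have hp0 : 0 < p := hc0 _
  obtain ⟨ε2, hε2, hε2x, hε2p, hε24⟩ : ∃ ε2 : ℝ, 0 < ε2 ∧ 4 * ε2 ≤ x1 ∧ 8 * ε2 ≤ p ∧
      4 * ε2 ≤ 1 := by
    refine ⟨min (min (x1 / 4) (p / 8)) (1 / 4), by (clear * - hx1 hp0; positivity), ?_, ?_, ?_⟩
    · have := (min_le_left (min (x1 / 4) (p / 8)) (1 / 4)).trans (min_le_left _ _)
      linarith
    · have := (min_le_left (min (x1 / 4) (p / 8)) (1 / 4)).trans (min_le_right _ _)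
      (clear * - this; linarith)
    · have := min_le_right (min (x1 / 4) (p / 8)) (1 / 4)
      linarith
  obtain ⟨x2, hx2, C2, σ2, hσ2, D2, h2⟩ := hT ε2 hε2
  obtain ⟨K, hK0, hK⟩ : ∃ K : ℝ, 0 < K ∧ K = p * 2 ^ p := ⟨_, by positivity, rfl⟩
  obtain ⟨x0, hx0, hx01, hx02, hx03⟩ : ∃ x0 : ℝ, 0 < x0 ∧ x0 ≤ x1 ∧ x0 ≤ x2 ∧ x0 ≤ ε2 :=
    ⟨min (min x1 x2) ε2, by positivity, (min_le_left _ _).trans (min_le_left _ _),
      (min_le_left _ _).trans (min_le_right _ _), min_le_right _ _⟩
  obtain ⟨σ, hσ, hσa, hσb, hσc, hσd⟩ : ∃ σ : ℝ, 0 < σ ∧ 4 * σ ≤ σ1 ∧ 3 * σ ≤ σ2 ∧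
      2 * σ ≤ ε2 ∧ σ * (3 * C2) ≤ ε2 / 2 := by
    refine ⟨min (min (σ1 / 4) (σ2 / 3)) (min (ε2 / 2) (ε2 / (2 * (3 * C2 + 1)))), by (clear * - hσ1 hσ2 hε2; positivity),
      ?_, ?_, ?_, ?_⟩
    · have := (min_le_left (min (σ1 / 4) (σ2 / 3)) (min (ε2 / 2) (ε2 / (2 * (3 * C2 + 1))))).trans
        (min_le_left _ _)
      (clear * - this; linarith)
    · have := (min_le_left (min (σ1 / 4) (σ2 / 3)) (min (ε2 / 2) (ε2 / (2 * (3 * C2 + 1))))).trans
        (min_le_right _ _)
      linarith
    · have := (min_le_right (min (σ1 / 4) (σ2 / 3)) (min (ε2 / 2) (ε2 / (2 * (3 * C2 + 1))))).trans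
        (min_le_left _ _)
      linarith
    · have h3 := (min_le_right (min (σ1 / 4) (σ2 / 3))
        (min (ε2 / 2) (ε2 / (2 * (3 * C2 + 1))))).trans (min_le_right _ _)
      have h4 : (0 : ℝ) ≤ 3 * C2 := by (clear * -; positivity)
      calc _ ≤ ε2 / (2 * (3 * C2 + 1)) * (3 * C2) := mul_le_mul_of_nonneg_right h3 h4
        _ ≤ ε2 / (2 * (3 * C2 + 1)) * (3 * C2 + 1) :=
            mul_le_mul_of_nonneg_left (by (clear * - hε2 hε24; linarith)) (by positivity)
        _ = ε2 / 2 := by field_simp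
  refine ⟨x0, hx0, 4 * C1, σ, hσ, max (max D1 D2) ((64 * K + 32) ^ (2 / ε2)), ?_⟩
  intro S N _ hD hgood δ hδσ hδ2 X hQX hX f0 f hf0 hf hfX hform i L hL1 hL
  -- sizes
  have hDκ : 64 * K + 32 ≤ S.D ^ (ε2 / 2) := by
    have h3 : (64 * K + 32) ^ (2 / ε2) ≤ S.D := (le_max_right _ _).trans hD
    have h4 := Real.rpow_le_rpow (by positivity) h3 (by positivity : 0 ≤ ε2 / 2)
    rw [← Real.rpow_mul (by positivity)] at h4
    have h5 : 2 / ε2 * (ε2 / 2) = 1 := by field_simp
    rwa [h5, Real.rpow_one] at h4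
  have hD1 : 1 ≤ S.D := by
    refine le_trans ?_ ((le_max_right _ _).trans hD)
    exact Real.one_le_rpow (by (clear * - hε24 hK0 hσ hσc; linarith)) (by positivity)
  have hD0 : 0 < S.D := by (clear * - hε24 hσ hσc hD1; linarith)
  have hDD1 : D1 ≤ S.D := ((le_max_left _ _).trans (le_max_left _ _)).trans hD
  exact by
    have hDD2 : D2 ≤ S.D := ((le_max_right _ _).trans (le_max_left _ _)).trans hD
    have hδ0 : 0 < δ := (Real.rpow_pos_of_pos hD0 _).trans_le hδσ
    have hinv : 0 < δ⁻¹ := inv_pos.2 hδ0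
    have hinv2 : 2 ≤ δ⁻¹ := by
      rw [le_inv_comm₀ two_pos hδ0]
      (clear * - hδ2; linarith)
    have hQ0 : (0 : ℝ) < S.Q := (Real.rpow_pos_of_pos hD0 _).trans_le hgood.Q1
    have hX0 : 0 < X := hQ0.trans_le hQX
    -- the top sequence
    exact by
      have hPQ : (S.Q : ℝ) ≤ S.P (Fin.last m) := by
        refine le_trans ?_ (hgood.P1 (Fin.last m))
        exact le_mul_of_one_le_right hQ0.le (Real.one_le_rpow hD1 (by rw [← hp]; (clear * - hε2p hx03 hσ hσc; linarith)))
      have hPD : S.D ^ (2 : ℝ) ≤ S.P (Fin.last m) := hgood.Q1.trans hPQ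
      have hP0 : 0 < S.P (Fin.last m) := hQ0.trans_le hPQ
      have hy2 : 1 ≤ S.P (Fin.last m) * S.D ^ (-(2 * ε2)) := by
        calc (1 : ℝ) ≤ S.D ^ (2 - 2 * ε2) := Real.one_le_rpow hD1 (by (clear * - hε24 hσ hσc; linarith))
          _ = S.D ^ (2 : ℝ) * S.D ^ (-(2 * ε2)) := by
              rw [← Real.rpow_add hD0]
              congr 1
          _ ≤ _ := mul_le_mul_of_nonneg_right hPD (Real.rpow_nonneg hD0.le _)
      have hy1 : 1 ≤ S.P (Fin.last m) * S.D ^ (-ε2) := by
        refine hy2.trans (mul_le_mul_of_nonneg_left ?_ hP0.le)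
        exact Real.rpow_le_rpow_of_exponent_le hD1 (by (clear * - hσ hσc; linarith))
      obtain ⟨L', hL'1, hL'a, hL'b⟩ : ∃ L' : ℕ, 1 ≤ L' ∧
          (L' : ℝ) ≤ S.P (Fin.last m) * S.D ^ (-(2 * ε2)) ∧
          S.P (Fin.last m) * S.D ^ (-(2 * ε2)) / 2 ≤ L' :=
        ⟨_, (Nat.one_le_floor_iff _).2 hy2, Nat.floor_le (by (clear * - hε24 hσ hσc hy2; linarith)), floor_half hy2⟩
      obtain ⟨L2, hL21, hL2a, hL2b⟩ : ∃ L2 : ℕ, 1 ≤ L2 ∧
          (L2 : ℝ) ≤ S.P (Fin.last m) * S.D ^ (-ε2) ∧
          S.P (Fin.last m) * S.D ^ (-ε2) / 2 ≤ L2 :=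
        ⟨_, (Nat.one_le_floor_iff _).2 hy1, Nat.floor_le (by (clear * - hε24 hσ hσc hy1; linarith)), floor_half hy1⟩
      have hL'0 : (0 : ℝ) < L' := by exact_mod_cast hL'1
      exact by
        have hL20 : (0 : ℝ) < L2 := by exact_mod_cast hL21
        set fm : ZMod N → ℂ := f (Fin.last m) with hfm
        set g : ZMod N → ℂ := A L' fm with hg
        set u : ZMod N → ℂ := fun x => (1 / 2 : ℂ) * (fm x - g x) with hu
        have hgb : ∀ x, ‖g x‖ ≤ 1 := fun x => norm_A_le hfX.bdd L' x
        have hub : ∀ x, ‖u x‖ ≤ 1 := by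
          intro x
          rw [hu]
          dsimp only
          rw [norm_mul, norm_div, norm_one, Complex.norm_ofNat]
          have h3 := norm_sub_le (fm x) (g x)
          have h4 := hfX.bdd x
          have h5 := hgb x
          (clear * - h3 h4 h5; linarith)
        exact by
          have hutv : TV δ⁻¹ X u := by
            have h3 := (hfX.tv.sub (hfX.tv.avg L')).smul (1 / 2 : ℂ)
            have h4 : ‖(1 / 2 : ℂ)‖ * (δ⁻¹ + δ⁻¹) = δ⁻¹ := by
              rw [norm_div, norm_one, Complex.norm_ofNat]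
              ring
            rw [h4] at h3
            exact h3
          -- decomposition
          have hdec : form S c 1 f0 f = 2 * form S c 1 f0 (Function.update f (Fin.last m) u)
              + form S c 1 f0 (Function.update f (Fin.last m) g) := by
            rw [← form_update_smul, ← form_update_add]
            congr 1
            refine (Function.update_eq_self (Fin.last m) f).symm.trans ?_
            congr 1
            funext x
            rw [hu]
            dsimp only
            rw [← hfm]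
            ring
          -- the first term is small
          have hsmall : ‖form S c 1 f0 (Function.update f (Fin.last m) u)‖ < δ ^ 3 := by
            by_contra hcon
            push Not at hcon
            have hδ3 : S.D ^ (-σ2) ≤ δ ^ 3 := by
              calc S.D ^ (-σ2) ≤ S.D ^ (-σ * (3 : ℕ)) :=
                    Real.rpow_le_rpow_of_exponent_le hD1 (by push_cast; (clear * - hσb; linarith))
                _ = (S.D ^ (-σ)) ^ 3 := Real.rpow_mul_natCast hD0.le _ _
                _ ≤ δ ^ 3 := pow_le_pow_left₀ (Real.rpow_nonneg hD0.le _) hδσ 3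
            have hδ31 : δ ^ 3 ≤ 1 / 2 := by
              calc δ ^ 3 ≤ δ ^ 1 := pow_le_pow_of_le_one hδ0.le (by (clear * - hε24 hσ hσc hδ2; linarith)) (by norm_num)
                _ ≤ 1 / 2 := by rw [pow_one]; exact hδ2
            have hinv3 : δ⁻¹ ≤ (δ ^ 3)⁻¹ := by
              refine inv_anti₀ (pow_pos hδ0 3) ?_
              calc δ ^ 3 ≤ δ ^ 1 := pow_le_pow_of_le_one hδ0.le (by (clear * - hε24 hσ hσc hδ2; linarith)) (by norm_num)
                _ = δ := pow_one δ
            have hXσ : S.Q * S.D ^ (s - σ2) ≤ X := by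
              refine le_trans ?_ hX
              exact mul_le_mul_of_nonneg_left
                (Real.rpow_le_rpow_of_exponent_le hD1 (by (clear * - hσ hσb; linarith))) hQ0.le
            have hAu : Adm (δ ^ 3)⁻¹ X u := (Adm.mk hub hutv).mono hinv3 hX0 le_rfl
            have h3 := h2 S N hDD2 (good_mono hgood hD1 hx02) (δ ^ 3) hδ3 hδ31 X hQX hXσ f0
              (Function.update f (Fin.last m) u) (hf0.mono hinv3 hQ0 le_rfl) (fun j => by
                by_cases hj : j = Fin.last m
                · subst hj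
                  rw [Function.update_self]
                  exact hAu.mono le_rfl hQ0 hQX
                · rw [Function.update_of_ne hj]
                  exact (hf j).mono hinv3 hQ0 le_rfl) (by rw [Function.update_self]; exact hAu) hcon
              L2 hL21 hL2a
            rw [Function.update_self] at h3
            have h4 : nrm (A L2 u) ≤ L' / L2 := by
              refine Finset.expect_le Finset.univ_nonempty fun x _ => ?_
              rw [hu, A_const_mul, norm_mul, norm_div, norm_one, Complex.norm_ofNat]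
              have h5 := A_small hfX.bdd L2 L' hL21 hL'1 x
              calc _ ≤ 1 / 2 * (2 * (L' : ℝ) / L2) := mul_le_mul_of_nonneg_left h5 (by norm_num)
                _ = L' / L2 := by ring
            have h5 : (L' / L2 : ℝ) ≤ 2 * S.D ^ (-ε2) := by
              rw [div_le_iff₀ hL20]
              calc (L' : ℝ) ≤ S.P (Fin.last m) * S.D ^ (-(2 * ε2)) := hL'a
                _ = 2 * S.D ^ (-ε2) * (S.P (Fin.last m) * S.D ^ (-ε2) / 2) := by
                    have : S.D ^ (-(2 * ε2)) = S.D ^ (-ε2) * S.D ^ (-ε2) := by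
                      rw [← Real.rpow_add hD0]
                      congr 1
                      ring
                    rw [this]
                    ring
                _ ≤ _ := mul_le_mul_of_nonneg_left hL2b (by positivity)
            have h6 : S.D ^ (-(ε2 / 2)) ≤ (δ ^ 3) ^ C2 := by
              rw [← pow_mul]
              calc S.D ^ (-(ε2 / 2)) ≤ S.D ^ (-σ * ((3 * C2 : ℕ) : ℝ)) :=
                    Real.rpow_le_rpow_of_exponent_le hD1 (by push_cast; (clear * - hσd; linarith))
                _ = (S.D ^ (-σ)) ^ (3 * C2) := Real.rpow_mul_natCast hD0.le _ _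
                _ ≤ δ ^ (3 * C2) := pow_le_pow_left₀ (Real.rpow_nonneg hD0.le _) hδσ _
            have h7 : S.D ^ (-(ε2 / 2)) ≤ 2 * S.D ^ (-ε2) := h6.trans (h3.trans (h4.trans h5))
            have h8 : S.D ^ (ε2 / 2) ≤ 2 := by
              have h9 := mul_le_mul_of_nonneg_right h7 (Real.rpow_nonneg hD0.le ε2)
              rw [mul_assoc, ← Real.rpow_add hD0, ← Real.rpow_add hD0] at h9
              have h10 : -(ε2 / 2) + ε2 = ε2 / 2 := by ring
              have h11 : -ε2 + ε2 = 0 := by ring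
              rw [h10, h11, Real.rpow_zero, mul_one] at h9
              exact h9
            (clear * - hε24 hK0 hσ hσc hDκ h8; linarith)
          have hgform : δ / 2 ≤ ‖form S c 1 f0 (Function.update f (Fin.last m) g)‖ := by
            have h3 : ‖form S c 1 f0 f‖ ≤ 2 * ‖form S c 1 f0 (Function.update f (Fin.last m) u)‖
                + ‖form S c 1 f0 (Function.update f (Fin.last m) g)‖ := by
              rw [hdec]
              refine (norm_add_le _ _).trans ?_
              rw [norm_mul, Complex.norm_ofNat]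
            have h4 : δ ^ 3 ≤ δ / 4 := by
              have h5 : δ ^ 2 ≤ 1 / 4 := by (clear * - hδ2 hε24 hσ hσc hδ0; nlinarith)
              calc δ ^ 3 = δ * δ ^ 2 := by ring
                _ ≤ δ * (1 / 4) := mul_le_mul_of_nonneg_left h5 hδ0.le
                _ = δ / 4 := by ring
            (clear * - hform hsmall h3 h4; linarith)
          -- the short intervals
          have hT1 : (1 : ℝ) ≤ S.D ^ (1 - 3 * ε2) := Real.one_le_rpow hD1 (by (clear * - hε24 hσ hσc; linarith))
          obtain ⟨T', hT'0, hT'a, hT'b⟩ : ∃ T' : ℕ, 0 < T' ∧ S.D ^ (1 - 3 * ε2) ≤ T' ∧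
              (T' : ℝ) ≤ 2 * S.D ^ (1 - 3 * ε2) := by
            refine ⟨⌈S.D ^ (1 - 3 * ε2)⌉₊, Nat.ceil_pos.2 (by (clear * - hε24 hσ hσc hT1; linarith)), Nat.le_ceil _, ?_⟩
            have := Nat.ceil_lt_add_one (show 0 ≤ S.D ^ (1 - 3 * ε2) by (clear * - hε24 hσ hσc hT1; linarith))
            (clear * - hT1 this; linarith)
          have hTT : (T' : ℝ) < δ / 4 * S.T := by
            have h3 : S.D ^ (1 - ε2) ≤ S.T :=
              (Real.rpow_le_rpow_of_exponent_le hD1 (by (clear * - hx03; linarith))).trans hgood.T1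
            have h4 : S.D ^ (-(ε2 / 2)) ≤ δ :=
              (Real.rpow_le_rpow_of_exponent_le hD1 (by (clear * - hσc; linarith))).trans hδσ
            have h5 : S.D ^ (1 - 3 * ε2) * (S.D ^ (ε2 / 2) * S.D ^ (ε2 / 2) * S.D ^ (ε2 / 2))
                = S.D ^ (-(ε2 / 2)) * S.D ^ (1 - ε2) := by
              rw [← Real.rpow_add hD0, ← Real.rpow_add hD0, ← Real.rpow_add hD0, ← Real.rpow_add hD0]
              congr 1
              ring
            have h6 : (32 : ℝ) ≤ S.D ^ (ε2 / 2) := by (clear * - hK0 hDκ; linarith)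
            have h7 : (32 : ℝ) ≤ S.D ^ (ε2 / 2) * S.D ^ (ε2 / 2) * S.D ^ (ε2 / 2) := by
              have h8 : (1 : ℝ) ≤ S.D ^ (ε2 / 2) * S.D ^ (ε2 / 2) := by (clear * - hε24 hDκ hε2 hσc hK0 hσ; nlinarith)
              (clear * - h8 hK0 hDκ; nlinarith)
            have h8 : 32 * S.D ^ (1 - 3 * ε2) ≤ δ * S.T := by
              calc 32 * S.D ^ (1 - 3 * ε2)
                  ≤ S.D ^ (1 - 3 * ε2) * (S.D ^ (ε2 / 2) * S.D ^ (ε2 / 2) * S.D ^ (ε2 / 2)) := by
                    rw [mul_comm]
                    exact mul_le_mul_of_nonneg_left h7 (by (clear * - hε24 hσ hσc hT1; linarith))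
                _ = S.D ^ (-(ε2 / 2)) * S.D ^ (1 - ε2) := h5
                _ ≤ δ * S.T := mul_le_mul h4 h3 (Real.rpow_nonneg hD0.le _) hδ0.le
            (clear * - hε24 hσ hσc hT1 hT'b h8; linarith)
          -- the averaged top function is almost constant
          exact by
            have hη : ∀ k k' : ℕ, S.u ≤ k → k < S.u + S.T → S.u ≤ k' → k' < S.u + S.T →
                |(k : ℝ) - k'| ≤ T' → ∀ x,
                ‖Function.update f (Fin.last m) g (Fin.last m) (x + (S.a c (Fin.last m) k : ZMod N))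
                  - Function.update f (Fin.last m) g (Fin.last m)
                    (x + (S.a c (Fin.last m) k' : ZMod N))‖ ≤ δ / 8 := by
              intro k k' hk1 hk2 hk1' hk2' hkk x
              rw [Function.update_self]
              have e1 : x + (S.a c (Fin.last m) k : ZMod N) = x + (S.a c (Fin.last m) k' : ZMod N)
                  + ((S.a c (Fin.last m) k - S.a c (Fin.last m) k' : ℤ) : ZMod N) := by
                push_cast
                ring
              rw [e1]
              refine (A_lipschitz hfX.bdd L' hL'1 _ _).trans ?_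
              have h3 : |((S.a c (Fin.last m) k - S.a c (Fin.last m) k' : ℤ) : ℝ)|
                  ≤ S.P (Fin.last m) * (K * (T' / S.D)) + 1 := by
                refine (floor_diff _ _).trans ?_
                rw [← mul_sub, abs_mul, abs_of_pos hP0]
                have h4 := rpow_lip p hp0 (S.t k') (S.t k) (t_mem hgood hD0 k' hk1' hk2')
                  (t_mem hgood hD0 k hk1 hk2)
                have h5 : |S.t k - S.t k'| ≤ T' / S.D := by
                  rw [Sys.t, Sys.t, ← sub_div, abs_div, abs_of_pos hD0, add_sub_add_right_eq_sub]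
                  exact div_le_div_of_nonneg_right hkk hD0.le
                have h6 : |S.t k ^ p - S.t k' ^ p| ≤ K * (T' / S.D) := by
                  rw [hK]
                  exact h4.trans (mul_le_mul_of_nonneg_left h5 (by positivity))
                have h7 := mul_le_mul_of_nonneg_left h6 hP0.le
                (clear * - h7; linarith)
              have h4 : 2 * |((S.a c (Fin.last m) k - S.a c (Fin.last m) k' : ℤ) : ℝ)| / L'
                  ≤ 2 * (S.P (Fin.last m) * (K * (T' / S.D)) + 1)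
                    / (S.P (Fin.last m) * S.D ^ (-(2 * ε2)) / 2) := by
                refine div_le_div₀ (by (clear * - hP0 hK0 hT'0 hD1; positivity)) (by (clear * - h3; linarith)) (by (clear * - hP0 hD1; positivity)) hL'b
              refine h4.trans ?_
              have h5 : (T' / S.D : ℝ) ≤ 2 * S.D ^ (-(3 * ε2)) := by
                rw [div_le_iff₀ hD0]
                refine hT'b.trans (le_of_eq ?_)
                rw [mul_assoc]
                nth_rewrite 3 [← Real.rpow_one S.D]
                rw [← Real.rpow_add hD0]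
                congr 2
                ring
              have h6 : (1 : ℝ) ≤ S.P (Fin.last m) * S.D ^ (-(3 * ε2)) := by
                calc (1 : ℝ) ≤ S.D ^ (2 - 3 * ε2) := Real.one_le_rpow hD1 (by (clear * - hε24 hσ hσc; linarith))
                  _ = S.D ^ (2 : ℝ) * S.D ^ (-(3 * ε2)) := by
                      rw [← Real.rpow_add hD0]
                      congr 1
                  _ ≤ _ := mul_le_mul_of_nonneg_right hPD (Real.rpow_nonneg hD0.le _)
              have h7 : S.P (Fin.last m) * (K * (T' / S.D)) + 1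
                  ≤ S.P (Fin.last m) * S.D ^ (-(3 * ε2)) * (2 * K + 1) := by
                have h8 := mul_le_mul_of_nonneg_left h5 (by (clear * - hP0 hK0; positivity) : 0 ≤ S.P (Fin.last m) * K)
                calc S.P (Fin.last m) * (K * (T' / S.D)) + 1
                    = S.P (Fin.last m) * K * (T' / S.D) + 1 := by ring
                  _ ≤ S.P (Fin.last m) * K * (2 * S.D ^ (-(3 * ε2)))
                      + S.P (Fin.last m) * S.D ^ (-(3 * ε2)) := add_le_add h8 h6
                  _ = _ := by ring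
              rw [div_le_iff₀ (by (clear * - hP0 hD1; positivity))]
              have h9 : S.D ^ (-(ε2 / 2)) ≤ δ :=
                (Real.rpow_le_rpow_of_exponent_le hD1 (by (clear * - hσc; linarith))).trans hδσ
              have h10 : S.D ^ (-(3 * ε2)) * S.D ^ (ε2 / 2) = S.D ^ (-(ε2 / 2)) * S.D ^ (-(2 * ε2)) := by
                rw [← Real.rpow_add hD0, ← Real.rpow_add hD0]
                congr 1
                ring
              calc 2 * (S.P (Fin.last m) * (K * (T' / S.D)) + 1)
                  ≤ 2 * (S.P (Fin.last m) * S.D ^ (-(3 * ε2)) * (2 * K + 1)) := by (clear * - h7; linarith)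
                _ = S.P (Fin.last m) * (S.D ^ (-(3 * ε2)) * (64 * K + 32)) / 16 := by ring
                _ ≤ S.P (Fin.last m) * (S.D ^ (-(3 * ε2)) * S.D ^ (ε2 / 2)) / 16 := by
                    (clear * - hDκ hD1 hP0; gcongr)
                _ = S.P (Fin.last m) * (S.D ^ (-(ε2 / 2)) * S.D ^ (-(2 * ε2))) / 16 := by rw [h10]
                _ ≤ S.P (Fin.last m) * (δ * S.D ^ (-(2 * ε2))) / 16 := by
                    (clear * - h9 hD1 hP0; gcongr)
                _ = δ / 8 * (S.P (Fin.last m) * S.D ^ (-(2 * ε2)) / 2) := by ring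
            have hupdb : ∀ j x, ‖Function.update f (Fin.last m) g j x‖ ≤ 1 := by
              intro j x
              by_cases hj : j = Fin.last m
              · subst hj
                rw [Function.update_self]
                exact hgb x
              · rw [Function.update_of_ne hj]
                exact (hf j).bdd x
            obtain ⟨u', hu'1, hu'2, hu'3⟩ := reduce S c f0 hf0.bdd (Function.update f (Fin.last m) g) hupdb
              T' hT'0 δ (δ / 8) hδ0 hTT hgform hη
            rw [Function.update_self] at hu'3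
            have e2 : (fun i : Fin m => Function.update f (Fin.last m) g i.castSucc)
                = fun i : Fin m => f i.castSucc := by
              funext j
              rw [Function.update_of_ne (Fin.castSucc_lt_last j).ne]
            rw [e2] at hu'3
            -- apply the hypothesis for the lower system
            have hδ4 : S.D ^ (-σ1) ≤ δ ^ 4 := by
              calc S.D ^ (-σ1) ≤ S.D ^ (-σ * (4 : ℕ)) :=
                    Real.rpow_le_rpow_of_exponent_le hD1 (by push_cast; (clear * - hσa; linarith))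
                _ = (S.D ^ (-σ)) ^ 4 := Real.rpow_mul_natCast hD0.le _ _
                _ ≤ δ ^ 4 := pow_le_pow_left₀ (Real.rpow_nonneg hD0.le _) hδσ 4
            have hδ3 : δ ^ 3 ≤ 1 / 8 := by
              calc δ ^ 3 ≤ (1 / 2) ^ 3 := pow_le_pow_left₀ hδ0.le hδ2 3
                _ = 1 / 8 := by norm_num
            have hδ48 : δ ^ 4 ≤ δ / 8 := by
              calc δ ^ 4 = δ * δ ^ 3 := by ring
                _ ≤ δ * (1 / 8) := mul_le_mul_of_nonneg_left hδ3 hδ0.le
                _ = δ / 8 := by ring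
            exact by
              have hinv4 : δ⁻¹ + δ⁻¹ ≤ (δ ^ 4)⁻¹ := by
                rw [← inv_pow]
                have h3 : δ⁻¹ ^ 4 = δ⁻¹ * δ⁻¹ ^ 3 := by ring
                have h4 : 2 ≤ δ⁻¹ ^ 3 := by
                  calc (2 : ℝ) ≤ 2 ^ 3 := by norm_num
                    _ ≤ δ⁻¹ ^ 3 := pow_le_pow_left₀ (by norm_num) hinv2 3
                rw [h3]
                (clear * - hε24 hσ hσc hinv h4; nlinarith)
              have hgood' : Good (S.init.sub u' T') (fun i => c i.castSucc) N x1 := by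
                have h3 := good_mono hgood hD1 hx01
                refine ⟨h3.ρ0, h3.ρ1, h3.Q1, h3.Q2, fun i => h3.P1 i.castSucc, fun i => h3.P2 i.castSucc,
                  fun i => h3.N1 i.castSucc, h3.N2, ?_, ?_, ?_⟩
                · change S.D ≤ (u' : ℝ)
                  exact h3.u1.trans (by exact_mod_cast hu'1)
                · change (u' : ℝ) + T' ≤ 2 * S.D
                  refine le_trans ?_ h3.u2
                  exact_mod_cast hu'2
                · change S.D ^ (1 - x1) ≤ (T' : ℝ)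
                  exact (Real.rpow_le_rpow_of_exponent_le hD1 (by (clear * - hε2x hσ hσc; linarith))).trans hT'a
              have hgA : Adm δ⁻¹ S.Q g := (hf (Fin.last m)).avg L'
              have hfinal := h1 (S.init.sub u' T') N hDD1 hgood' (δ ^ 4) hδ4 (by (clear * - hε24 hσ hσc hδ2 hδ48; linarith))
                (fun x => f0 x * g (x + (S.a c (Fin.last m) u' : ZMod N))) (fun i => f i.castSucc)
                ((hf0.mul (hgA.shift _)).mono hinv4 hQ0 le_rfl)
                (fun j => (hf j.castSucc).mono (by (clear * - hε24 hσ hσc hinv2 hinv4; linarith)) hQ0 le_rfl) (by (clear * - hu'3 hδ48; linarith)) i L hL1 hL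
              rw [pow_mul]
              exact hfinal

end US10

/-- the statement for the top function gives it for all functions -/
theorem us_of_top (m : ℕ) (c : Fin (m + 1) → ℝ) (hc : StrictMono c) (hc0 : ∀ i, 0 < c i) (s : ℝ)
    (hs0 : 0 ≤ s) (hU : ∀ ε : ℝ, 0 < ε → UP m (fun i => c i.castSucc) ε)
    (hT : ∀ ε : ℝ, 0 < ε → TopP m c s ε) : ∀ ε : ℝ, 0 < ε → UsP m c s ε := by
  intro ε hε
  obtain ⟨x1, hx1, C1, σ1, hσ1, D1, h1⟩ := US10.low m c hc0 s ε hε hU hT
  obtain ⟨x2, hx2, C2, σ2, hσ2, D2, h2⟩ := hT ε hε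
  refine ⟨min x1 x2, lt_min hx1 hx2, max C1 C2, min σ1 σ2, lt_min hσ1 hσ2,
    max (max D1 D2) 1, ?_⟩
  intro S N _ hD hgood δ hδσ hδ2 X hQX hX f0 f hf0 hf hfX hform i L hL1 hL
  have hD1 : 1 ≤ S.D := (le_max_right _ _).trans hD
  have hD0 : 0 < S.D := by (clear * - hD1; linarith)
  have hδ0 : 0 < δ := (Real.rpow_pos_of_pos hD0 _).trans_le hδσ
  have hmono : ∀ σ' : ℝ, min σ1 σ2 ≤ σ' → S.D ^ (-σ') ≤ δ ∧ S.Q * S.D ^ (s - σ') ≤ X := by
    intro σ' h
    constructor
    · exact (Real.rpow_le_rpow_of_exponent_le hD1 (by (clear * - h; linarith))).trans hδσ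
    · exact (mul_le_mul_of_nonneg_left (Real.rpow_le_rpow_of_exponent_le hD1 (by (clear * - h; linarith)))
        (Nat.cast_nonneg _)).trans hX
  have hδ1 : δ ≤ 1 := by (clear * - hδ2 hδ0; linarith)
  rcases Fin.eq_castSucc_or_eq_last i with ⟨j, rfl⟩ | rfl
  · have h3 := h1 S N (((le_max_left _ _).trans (le_max_left _ _)).trans hD)
      (US10.good_mono hgood hD1 (min_le_left _ _)) δ (hmono σ1 (min_le_left _ _)).1 hδ2 X hQX
      (hmono σ1 (min_le_left _ _)).2 f0 f hf0 hf hfX hform j L hL1 hL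
    exact (pow_le_pow_of_le_one hδ0.le hδ1 (le_max_left _ _)).trans h3
  · have h3 := h2 S N (((le_max_right _ _).trans (le_max_left _ _)).trans hD)
      (US10.good_mono hgood hD1 (min_le_right _ _)) δ (hmono σ2 (min_le_right _ _)).1 hδ2 X hQX
      (hmono σ2 (min_le_right _ _)).2 f0 f hf0 hf hfX hform L hL1 hL
    exact (pow_le_pow_of_le_one hδ0.le hδ1 (le_max_right _ _)).trans h3

end

end Pool.Agent.Helper57.NX

end

section

set_option autoImplicit false

open Finset

open scoped BigOperators ComplexConjugate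

namespace Pool.Agent.Helper67.NX2

open Pool.Agent.Helper57.NX

noncomputable section

namespace US50

open Pool.Agent.Helper57.NX.US10

theorem low (m : ℕ) (c : Fin (m + 1) → ℝ) (hc0 : ∀ i, 0 < c i) (s ε : ℝ) (hε : 0 < ε)
    (hU : ∀ ε : ℝ, 0 < ε → UPm m (fun i => c i.castSucc) ε)
    (hT : ∀ ε : ℝ, 0 < ε → TopPm m c s ε) :
    ∃ x0 : ℝ, 0 < x0 ∧ ∃ C : ℕ, ∃ σ : ℝ, 0 < σ ∧ ∃ D0 : ℝ,
  ∀ (S : Sys (m + 1)) (N : ℕ) [NeZero N] (lam : ℕ), D0 ≤ S.D → IG S c N x0 lam →
  ∀ δ : ℝ, S.D ^ (-σ) ≤ δ → δ ≤ 1 / 2 → (lam : ℝ) ≤ δ⁻¹ →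
  ∀ X : ℝ, (S.Q : ℝ) ≤ X → S.Q * S.D ^ (s - σ) ≤ X →
  ∀ (f0 : ZMod N → ℂ) (f : Fin (m + 1) → ZMod N → ℂ),
  Adm δ⁻¹ S.Q f0 → (∀ i, Adm δ⁻¹ S.Q (f i)) → Adm δ⁻¹ X (f (Fin.last m)) →
  δ ≤ ‖form S c 1 f0 f‖ →
  ∃ q : ℕ, 1 ≤ q ∧ (q : ℝ) ≤ δ⁻¹ ^ C ∧ ∀ i : Fin m, ∀ L : ℕ, 1 ≤ L →
    (L : ℝ) * (stp S.Q q (c i.castSucc) : ℝ) ≤ S.P i.castSucc * S.D ^ (-ε) →
    δ ^ C ≤ nrm (Aq (stp S.Q q (c i.castSucc)) L (f i.castSucc)) := by
  obtain ⟨x1, hx1, C1, σ1, hσ1, D1, h1⟩ := hU ε hε
  set p : ℝ := c (Fin.last m) with hp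
  have hp0 : 0 < p := hc0 _
  obtain ⟨ε2, hε2, hε2x, hε2p, hε24⟩ : ∃ ε2 : ℝ, 0 < ε2 ∧ 4 * ε2 ≤ x1 ∧ 8 * ε2 ≤ p ∧
      4 * ε2 ≤ 1 := by
    refine ⟨min (min (x1 / 4) (p / 8)) (1 / 4), by (clear * - hx1 hp0; positivity), ?_, ?_, ?_⟩
    · have := (min_le_left (min (x1 / 4) (p / 8)) (1 / 4)).trans (min_le_left _ _)
      linarith
    · have := (min_le_left (min (x1 / 4) (p / 8)) (1 / 4)).trans (min_le_right _ _)
      linarith
    · have := min_le_right (min (x1 / 4) (p / 8)) (1 / 4)
      linarith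
  obtain ⟨x2, hx2, C2, σ2, hσ2, D2, h2⟩ := hT ε2 hε2
  obtain ⟨K, hK0, hK⟩ : ∃ K : ℝ, 0 < K ∧ K = p * 2 ^ p := ⟨_, by positivity, rfl⟩
  obtain ⟨x0, hx0, hx01, hx02, hx03⟩ : ∃ x0 : ℝ, 0 < x0 ∧ x0 ≤ x1 ∧ x0 ≤ x2 ∧ x0 ≤ ε2 :=
    ⟨min (min x1 x2) ε2, by positivity, (min_le_left _ _).trans (min_le_left _ _),
      (min_le_left _ _).trans (min_le_right _ _), min_le_right _ _⟩
  obtain ⟨σ, hσ, hσa, hσb, hσc, hσd⟩ : ∃ σ : ℝ, 0 < σ ∧ 4 * σ ≤ σ1 ∧ 3 * σ ≤ σ2 ∧
      2 * σ ≤ ε2 ∧ σ * (3 * C2) ≤ ε2 / 2 := by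
    refine ⟨min (min (σ1 / 4) (σ2 / 3)) (min (ε2 / 2) (ε2 / (2 * (3 * C2 + 1)))), by (clear * - hσ1 hσ2 hε2; positivity),
      ?_, ?_, ?_, ?_⟩
    · have := (min_le_left (min (σ1 / 4) (σ2 / 3)) (min (ε2 / 2) (ε2 / (2 * (3 * C2 + 1))))).trans
        (min_le_left _ _)
      linarith
    · have := (min_le_left (min (σ1 / 4) (σ2 / 3)) (min (ε2 / 2) (ε2 / (2 * (3 * C2 + 1))))).trans
        (min_le_right _ _)
      linarith
    · have := (min_le_right (min (σ1 / 4) (σ2 / 3)) (min (ε2 / 2) (ε2 / (2 * (3 * C2 + 1))))).trans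
        (min_le_left _ _)
      linarith
    · have h3 := (min_le_right (min (σ1 / 4) (σ2 / 3))
        (min (ε2 / 2) (ε2 / (2 * (3 * C2 + 1))))).trans (min_le_right _ _)
      have h4 : (0 : ℝ) ≤ 3 * C2 := by (clear * -; positivity)
      calc _ ≤ ε2 / (2 * (3 * C2 + 1)) * (3 * C2) := mul_le_mul_of_nonneg_right h3 h4
        _ ≤ ε2 / (2 * (3 * C2 + 1)) * (3 * C2 + 1) :=
            mul_le_mul_of_nonneg_left (by (clear * - hε2 hε24; linarith)) (by (clear * - hε2; positivity))
        _ = ε2 / 2 := by field_simp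
  refine ⟨x0, hx0, 4 * C1, σ, hσ, max (max D1 D2) ((64 * K + 32) ^ (2 / ε2)), ?_⟩
  intro S N _ lam hD hIG δ hδσ hδ2 hlam X hQX hX f0 f hf0 hf hfX hform
  have hgood := hIG.good
  -- sizes
  have hDκ : 64 * K + 32 ≤ S.D ^ (ε2 / 2) := by
    have h3 : (64 * K + 32) ^ (2 / ε2) ≤ S.D := (le_max_right _ _).trans hD
    have h4 := Real.rpow_le_rpow (by positivity) h3 (by positivity : 0 ≤ ε2 / 2)
    rw [← Real.rpow_mul (by positivity)] at h4
    have h5 : 2 / ε2 * (ε2 / 2) = 1 := by field_simp
    rwa [h5, Real.rpow_one] at h4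
  have hD1 : 1 ≤ S.D := by
    refine le_trans ?_ ((le_max_right _ _).trans hD)
    exact Real.one_le_rpow (by (clear * - hε24 hK0 hσ hσc; linarith)) (by positivity)
  have hD0 : 0 < S.D := by (clear * - hε24 hσ hσc hD1; linarith)
  exact by
    have hDD1 : D1 ≤ S.D := ((le_max_left _ _).trans (le_max_left _ _)).trans hD
    have hDD2 : D2 ≤ S.D := ((le_max_right _ _).trans (le_max_left _ _)).trans hD
    have hδ0 : 0 < δ := (Real.rpow_pos_of_pos hD0 _).trans_le hδσ
    have hinv : 0 < δ⁻¹ := inv_pos.2 hδ0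
    have hinv2 : 2 ≤ δ⁻¹ := by
      rw [le_inv_comm₀ two_pos hδ0]
      (clear * - hδ2; linarith)
    have hQ0 : (0 : ℝ) < S.Q := (Real.rpow_pos_of_pos hD0 _).trans_le hgood.Q1
    exact by
      have hX0 : 0 < X := hQ0.trans_le hQX
      -- the top sequence
      have hPQ : (S.Q : ℝ) ≤ S.P (Fin.last m) := by
        refine le_trans ?_ (hgood.P1 (Fin.last m))
        exact le_mul_of_one_le_right hQ0.le (Real.one_le_rpow hD1 (by rw [← hp]; (clear * - hε2p hx03 hσ hσc; linarith)))
      have hPD : S.D ^ (2 : ℝ) ≤ S.P (Fin.last m) := hgood.Q1.trans hPQ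
      have hP0 : 0 < S.P (Fin.last m) := hQ0.trans_le hPQ
      have hy2 : 1 ≤ S.P (Fin.last m) * S.D ^ (-(2 * ε2)) := by
        calc (1 : ℝ) ≤ S.D ^ (2 - 2 * ε2) := Real.one_le_rpow hD1 (by (clear * - hε24 hσ hσc; linarith))
          _ = S.D ^ (2 : ℝ) * S.D ^ (-(2 * ε2)) := by
              rw [← Real.rpow_add hD0]
              congr 1
          _ ≤ _ := mul_le_mul_of_nonneg_right hPD (Real.rpow_nonneg hD0.le _)
      have hy1 : 1 ≤ S.P (Fin.last m) * S.D ^ (-ε2) := by
        refine hy2.trans (mul_le_mul_of_nonneg_left ?_ hP0.le)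
        exact Real.rpow_le_rpow_of_exponent_le hD1 (by (clear * - hσ hσc; linarith))
      exact by
        obtain ⟨L', hL'1, hL'a, hL'b⟩ : ∃ L' : ℕ, 1 ≤ L' ∧
            (L' : ℝ) ≤ S.P (Fin.last m) * S.D ^ (-(2 * ε2)) ∧
            S.P (Fin.last m) * S.D ^ (-(2 * ε2)) / 2 ≤ L' :=
          ⟨_, (Nat.one_le_floor_iff _).2 hy2, Nat.floor_le (by (clear * - hε24 hσ hσc hy2; linarith)), floor_half hy2⟩
        obtain ⟨L2, hL21, hL2a, hL2b⟩ : ∃ L2 : ℕ, 1 ≤ L2 ∧
            (L2 : ℝ) ≤ S.P (Fin.last m) * S.D ^ (-ε2) ∧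
            S.P (Fin.last m) * S.D ^ (-ε2) / 2 ≤ L2 :=
          ⟨_, (Nat.one_le_floor_iff _).2 hy1, Nat.floor_le (by (clear * - hε24 hσ hσc hy1; linarith)), floor_half hy1⟩
        have hL'0 : (0 : ℝ) < L' := by exact_mod_cast hL'1
        have hL20 : (0 : ℝ) < L2 := by exact_mod_cast hL21
        set fm : ZMod N → ℂ := f (Fin.last m) with hfm
        set g : ZMod N → ℂ := A L' fm with hg
        set u : ZMod N → ℂ := fun x => (1 / 2 : ℂ) * (fm x - g x) with hu
        have hgb : ∀ x, ‖g x‖ ≤ 1 := fun x => norm_A_le hfX.bdd L' x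
        exact by
          have hub : ∀ x, ‖u x‖ ≤ 1 := by
            intro x
            rw [hu]
            dsimp only
            rw [norm_mul, norm_div, norm_one, Complex.norm_ofNat]
            have h3 := norm_sub_le (fm x) (g x)
            have h4 := hfX.bdd x
            have h5 := hgb x
            (clear * - h3 h4 h5; linarith)
          have hutv : TV δ⁻¹ X u := by
            have h3 := (hfX.tv.sub (hfX.tv.avg L')).smul (1 / 2 : ℂ)
            have h4 : ‖(1 / 2 : ℂ)‖ * (δ⁻¹ + δ⁻¹) = δ⁻¹ := by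
              rw [norm_div, norm_one, Complex.norm_ofNat]
              ring
            rw [h4] at h3
            exact h3
          -- decomposition
          have hdec : form S c 1 f0 f = 2 * form S c 1 f0 (Function.update f (Fin.last m) u)
              + form S c 1 f0 (Function.update f (Fin.last m) g) := by
            rw [← form_update_smul, ← form_update_add]
            congr 1
            refine (Function.update_eq_self (Fin.last m) f).symm.trans ?_
            congr 1
            funext x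
            rw [hu]
            dsimp only
            rw [← hfm]
            ring
          -- the first term is small
          have hsmall : ‖form S c 1 f0 (Function.update f (Fin.last m) u)‖ < δ ^ 3 := by
            by_contra hcon
            push Not at hcon
            have hδ3 : S.D ^ (-σ2) ≤ δ ^ 3 := by
              calc S.D ^ (-σ2) ≤ S.D ^ (-σ * (3 : ℕ)) :=
                    Real.rpow_le_rpow_of_exponent_le hD1 (by push_cast; (clear * - hσb; linarith))
                _ = (S.D ^ (-σ)) ^ 3 := Real.rpow_mul_natCast hD0.le _ _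
                _ ≤ δ ^ 3 := pow_le_pow_left₀ (Real.rpow_nonneg hD0.le _) hδσ 3
            have hδ31 : δ ^ 3 ≤ 1 / 2 := by
              calc δ ^ 3 ≤ δ ^ 1 := pow_le_pow_of_le_one hδ0.le (by (clear * - hε24 hσ hσc hδ2; linarith)) (by norm_num)
                _ ≤ 1 / 2 := by rw [pow_one]; exact hδ2
            have hinv3 : δ⁻¹ ≤ (δ ^ 3)⁻¹ := by
              refine inv_anti₀ (pow_pos hδ0 3) ?_
              calc δ ^ 3 ≤ δ ^ 1 := pow_le_pow_of_le_one hδ0.le (by (clear * - hε24 hσ hσc hδ2; linarith)) (by norm_num)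
                _ = δ := pow_one δ
            have hXσ : S.Q * S.D ^ (s - σ2) ≤ X := by
              refine le_trans ?_ hX
              exact mul_le_mul_of_nonneg_left
                (Real.rpow_le_rpow_of_exponent_le hD1 (by (clear * - hσ hσb; linarith))) hQ0.le
            have hAu : Adm (δ ^ 3)⁻¹ X u := (Adm.mk hub hutv).mono hinv3 hX0 le_rfl
            have h3 := h2 S N lam hDD2 (ig_mono hIG hD1 hx02) (δ ^ 3) hδ3 hδ31 (hlam.trans hinv3) X hQX hXσ f0
              (Function.update f (Fin.last m) u) (hf0.mono hinv3 hQ0 le_rfl) (fun j => by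
                by_cases hj : j = Fin.last m
                · subst hj
                  rw [Function.update_self]
                  exact hAu.mono le_rfl hQ0 hQX
                · rw [Function.update_of_ne hj]
                  exact (hf j).mono hinv3 hQ0 le_rfl) (by rw [Function.update_self]; exact hAu) hcon
              L2 hL21 hL2a
            rw [Function.update_self] at h3
            have h4 : nrm (A L2 u) ≤ L' / L2 := by
              refine Finset.expect_le Finset.univ_nonempty fun x _ => ?_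
              rw [hu, A_const_mul, norm_mul, norm_div, norm_one, Complex.norm_ofNat]
              have h5 := A_small hfX.bdd L2 L' hL21 hL'1 x
              calc _ ≤ 1 / 2 * (2 * (L' : ℝ) / L2) := mul_le_mul_of_nonneg_left h5 (by norm_num)
                _ = L' / L2 := by ring
            have h5 : (L' / L2 : ℝ) ≤ 2 * S.D ^ (-ε2) := by
              rw [div_le_iff₀ hL20]
              calc (L' : ℝ) ≤ S.P (Fin.last m) * S.D ^ (-(2 * ε2)) := hL'a
                _ = 2 * S.D ^ (-ε2) * (S.P (Fin.last m) * S.D ^ (-ε2) / 2) := by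
                    have : S.D ^ (-(2 * ε2)) = S.D ^ (-ε2) * S.D ^ (-ε2) := by
                      rw [← Real.rpow_add hD0]
                      congr 1
                      ring
                    rw [this]
                    ring
                _ ≤ _ := mul_le_mul_of_nonneg_left hL2b (by positivity)
            have h6 : S.D ^ (-(ε2 / 2)) ≤ (δ ^ 3) ^ C2 := by
              rw [← pow_mul]
              calc S.D ^ (-(ε2 / 2)) ≤ S.D ^ (-σ * ((3 * C2 : ℕ) : ℝ)) :=
                    Real.rpow_le_rpow_of_exponent_le hD1 (by push_cast; (clear * - hσd; linarith))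
                _ = (S.D ^ (-σ)) ^ (3 * C2) := Real.rpow_mul_natCast hD0.le _ _
                _ ≤ δ ^ (3 * C2) := pow_le_pow_left₀ (Real.rpow_nonneg hD0.le _) hδσ _
            have h7 : S.D ^ (-(ε2 / 2)) ≤ 2 * S.D ^ (-ε2) := h6.trans (h3.trans (h4.trans h5))
            have h8 : S.D ^ (ε2 / 2) ≤ 2 := by
              have h9 := mul_le_mul_of_nonneg_right h7 (Real.rpow_nonneg hD0.le ε2)
              rw [mul_assoc, ← Real.rpow_add hD0, ← Real.rpow_add hD0] at h9
              have h10 : -(ε2 / 2) + ε2 = ε2 / 2 := by ring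
              have h11 : -ε2 + ε2 = 0 := by ring
              rw [h10, h11, Real.rpow_zero, mul_one] at h9
              exact h9
            (clear * - hε24 hK0 hσ hσc hDκ h8; linarith)
          have hgform : δ / 2 ≤ ‖form S c 1 f0 (Function.update f (Fin.last m) g)‖ := by
            have h3 : ‖form S c 1 f0 f‖ ≤ 2 * ‖form S c 1 f0 (Function.update f (Fin.last m) u)‖
                + ‖form S c 1 f0 (Function.update f (Fin.last m) g)‖ := by
              rw [hdec]
              refine (norm_add_le _ _).trans ?_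
              rw [norm_mul, Complex.norm_ofNat]
            have h4 : δ ^ 3 ≤ δ / 4 := by
              have h5 : δ ^ 2 ≤ 1 / 4 := by (clear * - hδ2 hδ0; nlinarith)
              calc δ ^ 3 = δ * δ ^ 2 := by ring
                _ ≤ δ * (1 / 4) := mul_le_mul_of_nonneg_left h5 hδ0.le
                _ = δ / 4 := by ring
            (clear * - hform hsmall h3 h4; linarith)
          -- the short intervals
          have hT1 : (1 : ℝ) ≤ S.D ^ (1 - 3 * ε2) := Real.one_le_rpow hD1 (by (clear * - hε24 hσ hσc; linarith))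
          exact by
            obtain ⟨T', hT'0, hT'a, hT'b⟩ : ∃ T' : ℕ, 0 < T' ∧ S.D ^ (1 - 3 * ε2) ≤ T' ∧
                (T' : ℝ) ≤ 2 * S.D ^ (1 - 3 * ε2) := by
              refine ⟨⌈S.D ^ (1 - 3 * ε2)⌉₊, Nat.ceil_pos.2 (by (clear * - hε24 hσ hσc hT1; linarith)), Nat.le_ceil _, ?_⟩
              have := Nat.ceil_lt_add_one (show 0 ≤ S.D ^ (1 - 3 * ε2) by (clear * - hε24 hσ hσc hT1; linarith))
              (clear * - hT1 this; linarith)
            have hTT : (T' : ℝ) < δ / 4 * S.T := by
              have h3 : S.D ^ (1 - ε2) ≤ S.T :=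
                (Real.rpow_le_rpow_of_exponent_le hD1 (by (clear * - hx03; linarith))).trans hgood.T1
              have h4 : S.D ^ (-(ε2 / 2)) ≤ δ :=
                (Real.rpow_le_rpow_of_exponent_le hD1 (by (clear * - hσc; linarith))).trans hδσ
              have h5 : S.D ^ (1 - 3 * ε2) * (S.D ^ (ε2 / 2) * S.D ^ (ε2 / 2) * S.D ^ (ε2 / 2))
                  = S.D ^ (-(ε2 / 2)) * S.D ^ (1 - ε2) := by
                rw [← Real.rpow_add hD0, ← Real.rpow_add hD0, ← Real.rpow_add hD0, ← Real.rpow_add hD0]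
                congr 1
                ring
              have h6 : (32 : ℝ) ≤ S.D ^ (ε2 / 2) := by (clear * - hK0 hDκ; linarith)
              have h7 : (32 : ℝ) ≤ S.D ^ (ε2 / 2) * S.D ^ (ε2 / 2) * S.D ^ (ε2 / 2) := by
                have h8 : (1 : ℝ) ≤ S.D ^ (ε2 / 2) * S.D ^ (ε2 / 2) := by (clear * - hε24 hDκ hε2 hσc hK0 hσ; nlinarith)
                (clear * - h8 hK0 hDκ; nlinarith)
              have h8 : 32 * S.D ^ (1 - 3 * ε2) ≤ δ * S.T := by
                calc 32 * S.D ^ (1 - 3 * ε2)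
                    ≤ S.D ^ (1 - 3 * ε2) * (S.D ^ (ε2 / 2) * S.D ^ (ε2 / 2) * S.D ^ (ε2 / 2)) := by
                      rw [mul_comm]
                      exact mul_le_mul_of_nonneg_left h7 (by (clear * - hε24 hσ hσc hT1; linarith))
                  _ = S.D ^ (-(ε2 / 2)) * S.D ^ (1 - ε2) := h5
                  _ ≤ δ * S.T := mul_le_mul h4 h3 (Real.rpow_nonneg hD0.le _) hδ0.le
              (clear * - hε24 hσ hσc hT1 hT'b h8; linarith)
            -- the averaged top function is almost constant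
            have hη : ∀ k k' : ℕ, S.u ≤ k → k < S.u + S.T → S.u ≤ k' → k' < S.u + S.T →
                |(k : ℝ) - k'| ≤ T' → ∀ x,
                ‖Function.update f (Fin.last m) g (Fin.last m) (x + (S.a c (Fin.last m) k : ZMod N))
                  - Function.update f (Fin.last m) g (Fin.last m)
                    (x + (S.a c (Fin.last m) k' : ZMod N))‖ ≤ δ / 8 := by
              intro k k' hk1 hk2 hk1' hk2' hkk x
              rw [Function.update_self]
              have e1 : x + (S.a c (Fin.last m) k : ZMod N) = x + (S.a c (Fin.last m) k' : ZMod N)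
                  + ((S.a c (Fin.last m) k - S.a c (Fin.last m) k' : ℤ) : ZMod N) := by
                push_cast
                ring
              rw [e1]
              refine (A_lipschitz hfX.bdd L' hL'1 _ _).trans ?_
              have h3 : |((S.a c (Fin.last m) k - S.a c (Fin.last m) k' : ℤ) : ℝ)|
                  ≤ S.P (Fin.last m) * (K * (T' / S.D)) + 1 := by
                refine (floor_diff _ _).trans ?_
                rw [← mul_sub, abs_mul, abs_of_pos hP0]
                have h4 := Pool.Agent.Helper57.NX.US10.rpow_lip p hp0 (S.t k') (S.t k) (Pool.Agent.Helper57.NX.US10.t_mem hgood hD0 k' hk1' hk2')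
                  (Pool.Agent.Helper57.NX.US10.t_mem hgood hD0 k hk1 hk2)
                have h5 : |S.t k - S.t k'| ≤ T' / S.D := by
                  rw [Sys.t, Sys.t, ← sub_div, abs_div, abs_of_pos hD0, add_sub_add_right_eq_sub]
                  exact div_le_div_of_nonneg_right hkk hD0.le
                have h6 : |S.t k ^ p - S.t k' ^ p| ≤ K * (T' / S.D) := by
                  rw [hK]
                  exact h4.trans (mul_le_mul_of_nonneg_left h5 (by positivity))
                have h7 := mul_le_mul_of_nonneg_left h6 hP0.le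
                (clear * - h7; linarith)
              have h4 : 2 * |((S.a c (Fin.last m) k - S.a c (Fin.last m) k' : ℤ) : ℝ)| / L'
                  ≤ 2 * (S.P (Fin.last m) * (K * (T' / S.D)) + 1)
                    / (S.P (Fin.last m) * S.D ^ (-(2 * ε2)) / 2) := by
                refine div_le_div₀ (by (clear * - hP0 hK0 hT'0 hD1; positivity)) (by (clear * - h3; linarith)) (by (clear * - hP0 hD1; positivity)) hL'b
              refine h4.trans ?_
              have h5 : (T' / S.D : ℝ) ≤ 2 * S.D ^ (-(3 * ε2)) := by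
                rw [div_le_iff₀ hD0]
                refine hT'b.trans (le_of_eq ?_)
                rw [mul_assoc]
                nth_rewrite 3 [← Real.rpow_one S.D]
                rw [← Real.rpow_add hD0]
                congr 2
                ring
              have h6 : (1 : ℝ) ≤ S.P (Fin.last m) * S.D ^ (-(3 * ε2)) := by
                calc (1 : ℝ) ≤ S.D ^ (2 - 3 * ε2) := Real.one_le_rpow hD1 (by (clear * - hε24 hσ hσc; linarith))
                  _ = S.D ^ (2 : ℝ) * S.D ^ (-(3 * ε2)) := by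
                      rw [← Real.rpow_add hD0]
                      congr 1
                  _ ≤ _ := mul_le_mul_of_nonneg_right hPD (Real.rpow_nonneg hD0.le _)
              have h7 : S.P (Fin.last m) * (K * (T' / S.D)) + 1
                  ≤ S.P (Fin.last m) * S.D ^ (-(3 * ε2)) * (2 * K + 1) := by
                have h8 := mul_le_mul_of_nonneg_left h5 (by positivity : 0 ≤ S.P (Fin.last m) * K)
                calc S.P (Fin.last m) * (K * (T' / S.D)) + 1
                    = S.P (Fin.last m) * K * (T' / S.D) + 1 := by ring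
                  _ ≤ S.P (Fin.last m) * K * (2 * S.D ^ (-(3 * ε2)))
                      + S.P (Fin.last m) * S.D ^ (-(3 * ε2)) := add_le_add h8 h6
                  _ = _ := by ring
              rw [div_le_iff₀ (by (clear * - hP0 hD1; positivity))]
              have h9 : S.D ^ (-(ε2 / 2)) ≤ δ :=
                (Real.rpow_le_rpow_of_exponent_le hD1 (by (clear * - hσc; linarith))).trans hδσ
              have h10 : S.D ^ (-(3 * ε2)) * S.D ^ (ε2 / 2) = S.D ^ (-(ε2 / 2)) * S.D ^ (-(2 * ε2)) := by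
                rw [← Real.rpow_add hD0, ← Real.rpow_add hD0]
                congr 1
                ring
              calc 2 * (S.P (Fin.last m) * (K * (T' / S.D)) + 1)
                  ≤ 2 * (S.P (Fin.last m) * S.D ^ (-(3 * ε2)) * (2 * K + 1)) := by (clear * - h7; linarith)
                _ = S.P (Fin.last m) * (S.D ^ (-(3 * ε2)) * (64 * K + 32)) / 16 := by ring
                _ ≤ S.P (Fin.last m) * (S.D ^ (-(3 * ε2)) * S.D ^ (ε2 / 2)) / 16 := by
                    (clear * - hDκ hD1 hP0; gcongr)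
                _ = S.P (Fin.last m) * (S.D ^ (-(ε2 / 2)) * S.D ^ (-(2 * ε2))) / 16 := by rw [h10]
                _ ≤ S.P (Fin.last m) * (δ * S.D ^ (-(2 * ε2))) / 16 := by
                    (clear * - h9 hD1 hP0; gcongr)
                _ = δ / 8 * (S.P (Fin.last m) * S.D ^ (-(2 * ε2)) / 2) := by ring
            have hupdb : ∀ j x, ‖Function.update f (Fin.last m) g j x‖ ≤ 1 := by
              intro j x
              by_cases hj : j = Fin.last m
              · subst hj
                rw [Function.update_self]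
                exact hgb x
              · rw [Function.update_of_ne hj]
                exact (hf j).bdd x
            obtain ⟨u', hu'1, hu'2, hu'3⟩ := reduce S c f0 hf0.bdd (Function.update f (Fin.last m) g) hupdb
              T' hT'0 δ (δ / 8) hδ0 hTT hgform hη
            rw [Function.update_self] at hu'3
            have e2 : (fun i : Fin m => Function.update f (Fin.last m) g i.castSucc)
                = fun i : Fin m => f i.castSucc := by
              funext j
              rw [Function.update_of_ne (Fin.castSucc_lt_last j).ne]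
            rw [e2] at hu'3
            -- apply the hypothesis for the lower system
            have hδ4 : S.D ^ (-σ1) ≤ δ ^ 4 := by
              calc S.D ^ (-σ1) ≤ S.D ^ (-σ * (4 : ℕ)) :=
                    Real.rpow_le_rpow_of_exponent_le hD1 (by push_cast; (clear * - hσa; linarith))
                _ = (S.D ^ (-σ)) ^ 4 := Real.rpow_mul_natCast hD0.le _ _
                _ ≤ δ ^ 4 := pow_le_pow_left₀ (Real.rpow_nonneg hD0.le _) hδσ 4
            have hδ3 : δ ^ 3 ≤ 1 / 8 := by
              calc δ ^ 3 ≤ (1 / 2) ^ 3 := pow_le_pow_left₀ hδ0.le hδ2 3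
                _ = 1 / 8 := by norm_num
            exact by
              have hδ48 : δ ^ 4 ≤ δ / 8 := by
                calc δ ^ 4 = δ * δ ^ 3 := by ring
                  _ ≤ δ * (1 / 8) := mul_le_mul_of_nonneg_left hδ3 hδ0.le
                  _ = δ / 8 := by ring
              have hinv4 : δ⁻¹ + δ⁻¹ ≤ (δ ^ 4)⁻¹ := by
                rw [← inv_pow]
                have h3 : δ⁻¹ ^ 4 = δ⁻¹ * δ⁻¹ ^ 3 := by ring
                have h4 : 2 ≤ δ⁻¹ ^ 3 := by
                  calc (2 : ℝ) ≤ 2 ^ 3 := by norm_num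
                    _ ≤ δ⁻¹ ^ 3 := pow_le_pow_left₀ (by norm_num) hinv2 3
                rw [h3]
                (clear * - h4 hε24 hσ hσc hlam; nlinarith)
              have hgood' : IG (S.init.sub u' T') (fun i => c i.castSucc) N x1 lam := by
                have h4 := ig_mono hIG hD1 hx01
                have h3 := h4.good
                refine ⟨?_, h4.Q3, h4.lam1, h4.rho, fun i d hd => h4.Pint i.castSucc d hd, h4.prime⟩
                refine ⟨h3.ρ0, h3.ρ1, h3.Q1, h3.Q2, fun i => h3.P1 i.castSucc, fun i => h3.P2 i.castSucc,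
                  fun i => h3.N1 i.castSucc, h3.N2, ?_, ?_, ?_⟩
                · change S.D ≤ (u' : ℝ)
                  exact h3.u1.trans (by exact_mod_cast hu'1)
                · change (u' : ℝ) + T' ≤ 2 * S.D
                  refine le_trans ?_ h3.u2
                  exact_mod_cast hu'2
                · change S.D ^ (1 - x1) ≤ (T' : ℝ)
                  exact (Real.rpow_le_rpow_of_exponent_le hD1 (by (clear * - hε2x hσ hσc; linarith))).trans hT'a
              have hgA : Adm δ⁻¹ S.Q g := (hf (Fin.last m)).avg L'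
              have hfinal := h1 (S.init.sub u' T') N lam hDD1 hgood' (δ ^ 4) hδ4 (by (clear * - hε24 hσ hσc hδ2 hδ48; linarith))
                (by (clear * - hε24 hσ hσc hlam hinv2 hinv4; linarith))
                (fun x => f0 x * g (x + (S.a c (Fin.last m) u' : ZMod N))) (fun i => f i.castSucc)
                ((hf0.mul (hgA.shift _)).mono hinv4 hQ0 le_rfl)
                (fun j => (hf j.castSucc).mono (by (clear * - hε24 hσ hσc hinv2 hinv4; linarith)) hQ0 le_rfl) (by (clear * - hu'3 hδ48; linarith))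
              obtain ⟨q, hq1, hq2, hq3⟩ := hfinal
              refine ⟨q, hq1, ?_, fun i L hL1 hL => ?_⟩
              · rw [pow_mul, inv_pow]
                exact hq2
              · rw [pow_mul]
                exact hq3 i L hL1 hL

end US50

/-- the statement for the top function gives it for all functions -/
theorem us_of_top' (m : ℕ) (c : Fin (m + 1) → ℝ) (hc : Ex c) (s : ℝ) (hs0 : 0 ≤ s)
    (hU : ∀ ε : ℝ, 0 < ε → UPm m (fun i => c i.castSucc) ε)
    (hT : ∀ ε : ℝ, 0 < ε → TopPm m c s ε) : ∀ ε : ℝ, 0 < ε → UsJ m c s ε univ := by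
  intro ε hε
  obtain ⟨x1, hx1, C1, σ1, hσ1, D1, h1⟩ :=
    US50.low m c (fun i => lt_of_lt_of_le two_pos (hc.two i)) s ε hε hU hT
  obtain ⟨x2, hx2, C2, σ2, hσ2, D2, h2⟩ := hT ε hε
  refine ⟨min x1 x2, lt_min hx1 hx2, max C1 C2, min σ1 σ2, lt_min hσ1 hσ2,
    max (max D1 D2) 1, ?_⟩
  intro S N _ lam hD hgood δ hδσ hδ2 hlam X hQX hX f0 f hf0 hf hfX hform
  have hD1 : 1 ≤ S.D := (le_max_right _ _).trans hD
  have hD0 : 0 < S.D := by (clear * - hD1; linarith)
  have hδ0 : 0 < δ := (Real.rpow_pos_of_pos hD0 _).trans_le hδσ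
  have hmono : ∀ σ' : ℝ, min σ1 σ2 ≤ σ' → S.D ^ (-σ') ≤ δ ∧ S.Q * S.D ^ (s - σ') ≤ X := by
    intro σ' h
    constructor
    · exact (Real.rpow_le_rpow_of_exponent_le hD1 (by (clear * - h; linarith))).trans hδσ
    · exact (mul_le_mul_of_nonneg_left (Real.rpow_le_rpow_of_exponent_le hD1 (by (clear * - h; linarith)))
        (Nat.cast_nonneg _)).trans hX
  have hδ1 : δ ≤ 1 := by linarith
  have hinv1 : 1 ≤ δ⁻¹ := (one_le_inv₀ hδ0).2 hδ1
  obtain ⟨q, hq1, hq2, hq3⟩ := h1 S N lam (((le_max_left _ _).trans (le_max_left _ _)).trans hD)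
    (US50.ig_mono hgood hD1 (min_le_left _ _)) δ (hmono σ1 (min_le_left _ _)).1 hδ2 hlam X hQX
    (hmono σ1 (min_le_left _ _)).2 f0 f hf0 hf hfX hform
  refine ⟨q, hq1, hq2.trans (pow_le_pow_right₀ hinv1 (le_max_left _ _)), ?_⟩
  intro i _ L hL1 hL
  have hst : 1 ≤ stp S.Q q (c i) := by
    unfold stp
    split_ifs
    · have hQ0 : 0 < S.Q := by
        have h3 : (0 : ℝ) < S.Q := (Real.rpow_pos_of_pos hD0 _).trans_le hgood.good.Q1
        exact_mod_cast h3
      exact Nat.mul_pos hQ0 (by omega)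
    · exact le_rfl
  rcases Fin.eq_castSucc_or_eq_last i with ⟨j, rfl⟩ | rfl
  · have h3 := hq3 j L hL1 hL
    exact (pow_le_pow_of_le_one hδ0.le hδ1 (le_max_left _ _)).trans h3
  · have h3 := h2 S N lam (((le_max_right _ _).trans (le_max_left _ _)).trans hD)
      (US50.ig_mono hgood hD1 (min_le_right _ _)) δ (hmono σ2 (min_le_right _ _)).1 hδ2 hlam X hQX
      (hmono σ2 (min_le_right _ _)).2 f0 f hf0 hf hfX hform
      (stp S.Q q (c (Fin.last m)) * L) (Nat.mul_pos hst hL1) (by
        push_cast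
        rw [mul_comm]
        exact hL)
    exact ((pow_le_pow_of_le_one hδ0.le hδ1 (le_max_right _ _)).trans h3).trans
      (US50.nrm_A_mul _ L hst _)

end

end Pool.Agent.Helper67.NX2

end

section

set_option autoImplicit false

open Finset

open scoped BigOperators ComplexConjugate

namespace Pool.Agent.Helper67.NX2

open Pool.Agent.Helper57.NX

noncomputable section

theorem thmP_of21 (s : ℕ) (d : Fin (s + 1) → ℕ)
    (hU : ∀ ε : ℝ, 0 < ε → UPm (s + 1) (fun i => (d i : ℝ)) ε)
    (hZA : ∀ ε : ℝ, 0 < ε →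
      ∃ x0 : ℝ, 0 < x0 ∧ ∃ C : ℕ, ∃ σ : ℝ, 0 < σ ∧ ∃ D0 : ℝ,
      ∀ (S : Sys (s + 1)) (N : ℕ) [NeZero N] (lam : ℕ), D0 ≤ S.D →
      IG S (fun i => (d i : ℝ)) N x0 lam →
      ∀ δ : ℝ, S.D ^ (-σ) ≤ δ → δ ≤ 1 / 2 → (lam : ℝ) ≤ δ⁻¹ →
      ∀ (f0 : ZMod N → ℂ) (f : Fin (s + 1) → ZMod N → ℂ),
      Adm δ⁻¹ S.Q f0 → (∀ i, Adm δ⁻¹ S.Q (f i)) → δ ≤ ‖form S (fun i => (d i : ℝ)) 1 f0 f‖ →
      ∃ q : ℕ, 1 ≤ q ∧ (q : ℝ) ≤ δ⁻¹ ^ C ∧ ∀ L : ℕ, 1 ≤ L →
        (L : ℝ) * (S.Q * q) ≤ S.P 0 * S.D ^ (-ε) → δ ^ C ≤ nrm (Aq (S.Q * q) L f0)) :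
    ∀ ε : ℝ, 0 < ε →
    ∃ x0 : ℝ, 0 < x0 ∧ ∃ C : ℕ, ∃ σ : ℝ, 0 < σ ∧ ∃ D0 : ℝ,
    ∀ (D : ℝ) (lam u T Z : ℕ), D0 ≤ D → D ≤ u → (u : ℝ) + T ≤ 2 * D → D ^ (1 - x0) ≤ T →
    1 ≤ lam → (∀ i, (lam * (3 * D)) ^ (d i) ≤ Z) →
    ∀ δ : ℝ, D ^ (-σ) ≤ δ → δ ≤ 1 / 2 → (lam : ℝ) ≤ δ⁻¹ →
    ∀ (f0 : ℤ → ℂ) (f : Fin (s + 1) → ℤ → ℂ), (∀ x, ‖f0 x‖ ≤ 1) → (∀ i x, ‖f i x‖ ≤ 1) →
    (∀ x, (x < 0 ∨ (Z : ℤ) ≤ x) → f0 x = 0 ∧ ∀ i, f i x = 0) →
    δ * Z ≤ ‖𝔼 k ∈ Ico u (u + T), ∑ x ∈ range Z, f0 x * ∏ i, f i (x + ((lam * k) ^ (d i) : ℕ))‖ →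
    ∃ q : ℕ, 1 ≤ q ∧ (q : ℝ) ≤ δ⁻¹ ^ C ∧
      (∀ L : ℕ, 1 ≤ L → (L : ℝ) * q ≤ D ^ (d 0 - ε) →
        δ ^ C * Z ≤ ∑ x ∈ range Z, ‖𝔼 a ∈ range L, f0 (x + (q * a : ℕ))‖) ∧
      (∀ i, ∀ L : ℕ, 1 ≤ L → (L : ℝ) * q ≤ D ^ (d i - ε) →
        δ ^ C * Z ≤ ∑ x ∈ range Z, ‖𝔼 a ∈ range L, f i (x + (q * a : ℕ))‖) := by
  intro ε hε
  obtain ⟨x1, hx1, C1, σ1, hσ1, D1, H1⟩ := hU ε hε
  obtain ⟨x2, hx2, C2, σ2, hσ2, D2, H2⟩ := hZA ε hε
  set c : Fin (s + 1) → ℝ := fun i => (d i : ℝ) with hc
  set x0 : ℝ := min x1 x2 with hx0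
  have hx0' : 0 < x0 := lt_min hx1 hx2
  set M : ℕ := 4 * C1 + 4 * C2 + ∑ i, d i + 4 with hM
  have hM0 : (0 : ℝ) < M := by rw [hM]; (clear * -; positivity)
  exact by
    refine ⟨x0, hx0', 4 * C1 + 4 * C2, min (min σ1 σ2 / M) (min x0 ε / M),
      lt_min (div_pos (lt_min hσ1 hσ2) hM0) (div_pos (lt_min hx0' hε) hM0), max 4 (max D1 D2), ?_⟩
    intro D lam u T Z hD hDu huT hT hlam hZ δ hδσ hδ hlamδ f0 f hf0 hf hsup hform
    set σ : ℝ := min (min σ1 σ2 / M) (min x0 ε / M) with hσ
    have hD4 : 4 ≤ D := (le_max_left _ _).trans hD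
    have hDa : D1 ≤ D := ((le_max_left _ _).trans (le_max_right _ _)).trans hD
    have hDb : D2 ≤ D := ((le_max_right _ _).trans (le_max_right _ _)).trans hD
    have hD0 : 0 < D := by (clear * - hD4; linarith)
    have hD1 : 1 ≤ D := by (clear * - hD4; linarith)
    exact by
      have hδ0 : 0 < δ := (Real.rpow_pos_of_pos hD0 _).trans_le hδσ
      have hσ0 : 0 < σ := lt_min (div_pos (lt_min hσ1 hσ2) hM0) (div_pos (lt_min hx0' hε) hM0)
      have hinv2 : 2 ≤ δ⁻¹ := by
        rw [le_inv_comm₀ (by norm_num) hδ0]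
        (clear * - hδ; linarith)
      have hσM1 : σ * M ≤ min σ1 σ2 := by
        have : σ ≤ min σ1 σ2 / M := min_le_left _ _
        rwa [le_div_iff₀ hM0] at this
      have hσM2 : σ * M ≤ min x0 ε := by
        have : σ ≤ min x0 ε / M := min_le_right _ _
        rwa [le_div_iff₀ hM0] at this
      have hσn : ∀ n : ℕ, n ≤ M → σ * n ≤ σ * M := fun n hn =>
        mul_le_mul_of_nonneg_left (by exact_mod_cast hn) hσ0.le
      exact by
        have hdM : ∀ i, d i ≤ M := fun i => by
          have h1 : d i ≤ ∑ i, d i := Finset.single_le_sum (f := d) (fun _ _ => Nat.zero_le _)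
            (Finset.mem_univ i)
          omega
        -- the modulus
        have hlamr : (1 : ℝ) ≤ lam := by exact_mod_cast hlam
        have hZ1 : 1 ≤ Z := by
          have h1 : (1 : ℝ) ≤ (lam * (3 * D)) ^ (d 0) := one_le_pow₀ (by (clear * - hDu hδ hD4 hδ0 hlamr huT; nlinarith))
          exact_mod_cast h1.trans (hZ 0)
        have hZr : (1 : ℝ) ≤ Z := by exact_mod_cast hZ1
        obtain ⟨p, hp, hp1, hp2⟩ := Nat.exists_prime_lt_and_le_two_mul (4 * Z) (by omega)
        have hp0 : 0 < p := hp.pos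
        have hpr1 : 4 * (Z : ℝ) ≤ p := by exact_mod_cast hp1.le
        exact by
          have hpr2 : (p : ℝ) ≤ 8 * Z := by
            have : p ≤ 8 * Z := by omega
            exact_mod_cast this
          have hpr0 : (0 : ℝ) < p := by exact_mod_cast hp0
          set Q : ℕ := ⌈D ^ (2 : ℕ)⌉₊ with hQ
          have hQpos : 0 < Q := Nat.ceil_pos.mpr (by positivity)
          have hQr : (0 : ℝ) < Q := by exact_mod_cast hQpos
          haveI : NeZero (Q * p) := ⟨(Nat.mul_pos hQpos hp0).ne'⟩
          exact by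
            have hIG : IG (⟨D, 0, Q, u, T, fun i => (Q : ℝ) * (lam * D) ^ d i⟩ : Sys (s + 1)) c (Q * p) x0
                lam := ig21 D x0 p Z lam u T d hx0' hD4 hDu huT hT hlam hZ hp (by omega) (fun i =>
                  (pow_le_pow_left₀ (by positivity) hlamδ _).trans (inv_pow_le21 hD1 hδσ
                    ((hσn (d i) (hdM i)).trans (hσM2.trans (min_le_left _ _)))))
            set S : Sys (s + 1) := ⟨D, 0, Q, u, T, fun i => (Q : ℝ) * (lam * D) ^ d i⟩ with hS
            have ha : ∀ i k, S.a c i k = (Q : ℤ) * ((lam * k : ℕ) : ℤ) ^ d i := by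
              intro i k
              have h1 := a_nat hIG (by exact hD0) (r := 0) (by simp [hS]) i (d i) rfl k
              rw [add_zero] at h1
              exact h1
            have hkZ : ∀ i, ∀ k ∈ Ico u (u + T), (lam * k) ^ d i ≤ Z := by
              intro i k hk
              rw [Finset.mem_Ico] at hk
              have h1 : (k : ℝ) ≤ u + T := by exact_mod_cast hk.2.le
              have h2 : (((lam * k) ^ d i : ℕ) : ℝ) ≤ Z := by
                push_cast
                refine le_trans ?_ (hZ i)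
                exact pow_le_pow_left₀ (by (clear * - hlam; positivity))
                  (mul_le_mul_of_nonneg_left (by (clear * - huT hδ hD4 hδ0 h1; linarith)) (by positivity)) _
              exact_mod_cast h2
            have hFL := form_lift21 (N := Q * p) D Q p Z lam u T rfl (fun i => (Q : ℝ) * (lam * D) ^ d i) c d
              hQpos ha (by omega) hkZ f0 f hsup
            -- the new parameter
            have hδ4 : δ ^ 4 ≤ δ / 8 := by
              have h1 : δ ^ 4 = δ * (δ * δ * δ) := by ring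
              have h2 : δ * δ * δ ≤ 1 / 2 * (1 / 2) * (1 / 2) := by (clear * - hδ hδ0; gcongr)
              rw [h1]
              (clear * - hδ0 h2; nlinarith)
            exact by
              have hform1 : δ ^ 4 ≤ ‖form S c 1 (lift21 (N := Q * p) Q f0)
                  (fun i => lift21 (N := Q * p) Q (f i))‖ := by
                refine hδ4.trans ?_
                rw [hFL, norm_div, Complex.norm_natCast, le_div_iff₀ hpr0]
                refine le_trans ?_ hform
                calc δ / 8 * p ≤ δ / 8 * (8 * Z) := by (clear * - hpr2 hδ0; gcongr)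
                  _ = δ * Z := by ring
              have hδ41 : δ ^ 4 ≤ 1 / 2 := by
                have : δ / 8 ≤ 1 / 2 := by (clear * - hδ hδ0; linarith)
                (clear * - hδ hδ0 hδ4; linarith)
              have hinv4 : δ⁻¹ ≤ (δ ^ 4)⁻¹ := by
                rw [← inv_pow]
                exact le_self_pow₀ (by (clear * - hδ hδ0 hinv2; linarith)) (by norm_num)
              have hδ4a : D ^ (-σ1) ≤ δ ^ 4 := le_pow21 hD1 hδσ ((hσn 4 (by omega)).trans
                (hσM1.trans (min_le_left _ _)))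
              have hδ4b : D ^ (-σ2) ≤ δ ^ 4 := le_pow21 hD1 hδσ ((hσn 4 (by omega)).trans
                (hσM1.trans (min_le_right _ _)))
              have hadm : ∀ g : ℤ → ℂ, (∀ x, ‖g x‖ ≤ 1) → Adm (δ ^ 4)⁻¹ (S.Q : ℝ)
                  (lift21 (N := Q * p) Q g) := fun g hg =>
                (lift_adm21 Q p rfl g hg).mono (hinv2.trans hinv4) hQr le_rfl
              exact by
                obtain ⟨q1, hq1, hq1', hq1L⟩ := H1 S (Q * p) lam hDa (hIG.mono (min_le_left _ _) hD1) (δ ^ 4)
                  hδ4a hδ41 (hlamδ.trans hinv4) (lift21 (N := Q * p) Q f0)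
                  (fun i => lift21 (N := Q * p) Q (f i)) (hadm f0 hf0) (fun i => hadm (f i) (hf i)) hform1
                obtain ⟨q2, hq2, hq2', hq2L⟩ := H2 S (Q * p) lam hDb (hIG.mono (min_le_right _ _) hD1) (δ ^ 4)
                  hδ4b hδ41 (hlamδ.trans hinv4) (lift21 (N := Q * p) Q f0)
                  (fun i => lift21 (N := Q * p) Q (f i)) (hadm f0 hf0) (fun i => hadm (f i) (hf i)) hform1
                -- the conclusion for one function
                have key : ∀ (g : ℤ → ℂ) (i : Fin (s + 1)) (C : ℕ) (q : ℕ), (∀ x, ‖g x‖ ≤ 1) →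
                    (∀ x, (x < 0 ∨ (Z : ℤ) ≤ x) → g x = 0) → C ≤ C1 + C2 → 1 ≤ q → ∀ L : ℕ, 1 ≤ L →
                    (L : ℝ) * q ≤ D ^ ((d i : ℝ) - ε) →
                    (δ ^ 4) ^ C ≤ nrm (Aq (Q * q) L (lift21 (N := Q * p) Q g)) →
                    δ ^ (4 * C1 + 4 * C2) * Z ≤ ∑ x ∈ range Z, ‖𝔼 a ∈ range L, g (x + (q * a : ℕ))‖ := by
                  intro g i C q hg hg0 hC hq L hL hLq hn
                  have h1 : D ^ ((d i : ℝ) - ε) ≤ Z * D ^ (-ε) := by
                    rw [sub_eq_add_neg, Real.rpow_add hD0, Real.rpow_natCast]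
                    refine mul_le_mul_of_nonneg_right ?_ (by positivity)
                    refine le_trans ?_ (hZ i)
                    exact pow_le_pow_left₀ hD0.le (by (clear * - hDu hδ hD4 hδ0 hlamr huT; nlinarith)) _
                  have h2 : D ^ (-ε) ≤ 1 := Real.rpow_le_one_of_one_le_of_nonpos hD1 (by (clear * - hε; linarith))
                  have h3 : (L : ℝ) * q ≤ Z := by
                    refine hLq.trans (h1.trans ?_)
                    exact mul_le_of_le_one_right (by (clear * - hZ1; positivity)) h2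
                  have h4 : L * q ≤ Z := by exact_mod_cast h3
                  have h5 := nrm_lift21 (N := Q * p) Q p Z q L rfl g hg hg0 (by omega) h4
                  have h6 : δ ^ (4 * C1 + 4 * C2) ≤ (δ ^ 4) ^ C := by
                    rw [← pow_mul]
                    exact pow_le_pow_of_le_one hδ0.le (by (clear * - hδ hδ0; linarith)) (by omega)
                  have h7 : D ^ (-ε) ≤ δ ^ (4 * C1 + 4 * C2) := le_pow21 hD1 hδσ
                    ((hσn _ (by omega)).trans (hσM2.trans (min_le_right _ _)))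
                  have h8 : p * δ ^ (4 * C1 + 4 * C2) ≤
                      p * nrm (Aq (Q * q) L (lift21 (N := Q * p) Q g)) :=
                    mul_le_mul_of_nonneg_left (h6.trans hn) hpr0.le
                  have h9 : 4 * (Z : ℝ) * δ ^ (4 * C1 + 4 * C2) ≤ p * δ ^ (4 * C1 + 4 * C2) :=
                    mul_le_mul_of_nonneg_right hpr1 (by positivity)
                  have h10 : (L : ℝ) * q ≤ Z * δ ^ (4 * C1 + 4 * C2) :=
                    hLq.trans (h1.trans (mul_le_mul_of_nonneg_left h7 (by (clear * - hZ1; positivity))))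
                  have h11 : 0 ≤ (Z : ℝ) * δ ^ (4 * C1 + 4 * C2) := by positivity
                  (clear * - h5 h8 h9 h10 h11; nlinarith)
                have hPD : ∀ i, (Q : ℝ) * D ^ ((d i : ℝ) - ε) ≤ S.P i * S.D ^ (-ε) := by
                  intro i
                  change (Q : ℝ) * D ^ ((d i : ℝ) - ε) ≤ (Q : ℝ) * (lam * D) ^ d i * D ^ (-ε)
                  rw [sub_eq_add_neg, Real.rpow_add hD0, Real.rpow_natCast, mul_assoc]
                  refine mul_le_mul_of_nonneg_left ?_ hQr.le
                  refine mul_le_mul_of_nonneg_right ?_ (by positivity)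
                  exact pow_le_pow_left₀ hD0.le (by (clear * - hlamr huT; nlinarith)) _
                refine ⟨q1 * q2, Nat.mul_pos hq1 hq2, ?_, ?_, ?_⟩
                · push_cast
                  calc (q1 : ℝ) * q2 ≤ (δ ^ 4)⁻¹ ^ C1 * (δ ^ 4)⁻¹ ^ C2 := by (clear * - hq1' hq2' hq2 hδ0; gcongr)
                    _ = δ⁻¹ ^ (4 * C1 + 4 * C2) := by
                      rw [pow_add, pow_mul, pow_mul, inv_pow δ 4]
                · intro L hL hLq
                  refine key f0 0 C2 (q1 * q2) hf0 (fun x hx => (hsup x hx).1) (by omega)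
                    (Nat.mul_pos hq1 hq2) L hL hLq ?_
                  have h1 := hq2L (q1 * L) (Nat.mul_pos hq1 hL) (by
                    refine le_trans ?_ (hPD 0)
                    change (((q1 * L : ℕ) : ℝ)) * ((Q : ℝ) * q2) ≤ Q * D ^ ((d 0 : ℝ) - ε)
                    calc (((q1 * L : ℕ) : ℝ)) * ((Q : ℝ) * q2) = Q * (L * ((q1 * q2 : ℕ) : ℝ)) := by
                          push_cast; ring
                      _ ≤ _ := mul_le_mul_of_nonneg_left hLq hQr.le)
                  refine h1.trans ((nrm_Aq_mul (Q * q2) q1 L hq1 _).trans (le_of_eq ?_))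
                  congr 2
                  ring
                · intro i L hL hLq
                  refine key (f i) i C1 (q1 * q2) (hf i) (fun x hx => (hsup x hx).2 i) (by omega)
                    (Nat.mul_pos hq1 hq2) L hL hLq ?_
                  have hst : stp S.Q q1 (c i) = Q * q1 := stp_nat _ _ ⟨d i, rfl⟩
                  have h1 := hq1L i (q2 * L) (Nat.mul_pos hq2 hL) (by
                    rw [hst]
                    refine le_trans ?_ (hPD i)
                    calc (((q2 * L : ℕ) : ℝ)) * ((Q * q1 : ℕ) : ℝ) = Q * (L * ((q1 * q2 : ℕ) : ℝ)) := by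
                          push_cast; ring
                      _ ≤ _ := mul_le_mul_of_nonneg_left hLq hQr.le)
                  rw [hst] at h1
                  refine h1.trans ((nrm_Aq_mul (Q * q1) q2 L hq2 _).trans (le_of_eq ?_))
                  congr 2
                  ring

end

end Pool.Agent.Helper67.NX2

end
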