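import Pool.Agent.Helper23.MC.L01_a0
import Pool.Agent.Helper23.MC.L01_a11
import Pool.Agent.Helper23.MC.L01_a12
import Pool.Agent.Helper23.MC.L01_a13
import Pool.Agent.Helper23.MC.L01_a2
import Pool.Agent.Helper23.MC.L01_a4
import Pool.Agent.Helper23.MC.L01_a7
import Pool.Agent.Helper23.MC.L01_a8

/-!
Parts of Helper60.NX2.DlB, Helper45.NX2.DsCore
-/

attribute [local instance 5000]
  Pool.Agent.Helper23.MC.Inst.rCharZero Pool.Agent.Helper23.MC.Inst.rALM
  Pool.Agent.Helper23.MC.Inst.rARM Pool.Agent.Helper23.MC.Inst.rALSM
  Pool.Agent.Helper23.MC.Inst.rARSM Pool.Agent.Helper23.MC.Inst.rARRLE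
  Pool.Agent.Helper23.MC.Inst.rALRLE Pool.Agent.Helper23.MC.Inst.rARRLT
  Pool.Agent.Helper23.MC.Inst.rALRLT Pool.Agent.Helper23.MC.Inst.rPMRLT
  Pool.Agent.Helper23.MC.Inst.rMPRLT Pool.Agent.Helper23.MC.Inst.rPMM
  Pool.Agent.Helper23.MC.Inst.rMPM Pool.Agent.Helper23.MC.Inst.rPMSM
  Pool.Agent.Helper23.MC.Inst.rMPSM Pool.Agent.Helper23.MC.Inst.rEAOL
  Pool.Agent.Helper23.MC.Inst.rIOR Pool.Agent.Helper23.MC.Inst.rISOR
  Pool.Agent.Helper23.MC.Inst.rNZD Pool.Agent.Helper23.MC.Inst.rcCharZero
  Pool.Agent.Helper23.MC.Inst.rcNZD Pool.Agent.Helper23.MC.Inst.zCharZero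
  Pool.Agent.Helper23.MC.Inst.zALM Pool.Agent.Helper23.MC.Inst.zARM
  Pool.Agent.Helper23.MC.Inst.zALSM Pool.Agent.Helper23.MC.Inst.zARSM
  Pool.Agent.Helper23.MC.Inst.zIOR Pool.Agent.Helper23.MC.Inst.zISOR
  Pool.Agent.Helper23.MC.Inst.zNZD Pool.Agent.Helper23.MC.Inst.qCharZero
  Pool.Agent.Helper23.MC.Inst.mR Pool.Agent.Helper23.MC.Inst.mC Pool.Agent.Helper23.MC.Inst.mRC
  Pool.Agent.Helper23.MC.Inst.rPSM Pool.Agent.Helper23.MC.Inst.rCSM
  Pool.Agent.Helper23.MC.Inst.cAdd Pool.Agent.Helper23.MC.Inst.cAddM
  Pool.Agent.Helper23.MC.Inst.cMul Pool.Agent.Helper23.MC.Inst.cMon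

namespace Pool.Agent.Helper57.NX
end Pool.Agent.Helper57.NX

section

set_option autoImplicit false

set_option linter.unusedSectionVars false

set_option linter.unusedVariables false

open Finset

open scoped BigOperators ComplexConjugate

namespace Pool.Agent.Helper67.NX2

open Pool.Agent.Helper57.NX

noncomputable section

section point

variable {N : ℕ} [NeZero N]

theorem dbq_local (k : ℕ) (hk : 1 ≤ k) (X' : ℕ) (hX' : 1 ≤ X') (q Y : ℕ) (hY : 1 ≤ Y)
    (u : ZMod N → ℂ)
    (hu : ∀ x, ‖u x‖ ≤ 1) (θ : (Fin k → ℕ) → (Fin k → ℕ) → ℕ → ℝ) (a' : Fin k → ℕ) (j : ℕ)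
    (x : ZMod N) :
    (𝔼 a ∈ boxset k X', 𝔼 b ∈ boxset k X',
      ‖𝔼 z ∈ range Y, cube u a b (x + ((q * z : ℕ) : ZMod N))
        * e (-(psiSum θ a' a b j * ((q * z : ℕ) : ℝ)))‖)
        ^ (2 ^ (k + 1)) ≤ dbqG k X' q Y u x := by
  have hneb : (boxset k X').Nonempty := by
    refine ⟨fun _ => 0, ?_⟩
    simp only [boxset, Fintype.mem_piFinset, mem_range]
    intro _
    omega
  set T : ℕ → ℕ → (Fin k → ℕ) → (Fin k → ℕ) → ℂ := fun z z' b a =>
    cube (fun x => u (x + ((q * z : ℕ) : ZMod N)) * conj (u (x + ((q * z' : ℕ) : ZMod N)))) a b x *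
      e ((∑ ω ∈ univ.erase (fun _ : Fin k => false), sg ω * θ (sel ω a a') b j)
        * (((q * z : ℕ) : ℝ) - ((q * z' : ℕ) : ℝ))) with hT
  have h1 : (𝔼 a ∈ boxset k X', 𝔼 b ∈ boxset k X',
      ‖𝔼 z ∈ range Y, cube u a b (x + ((q * z : ℕ) : ZMod N))
        * e (-(psiSum θ a' a b j * ((q * z : ℕ) : ℝ)))‖) ^ 2
      ≤ 𝔼 z ∈ range Y, 𝔼 z' ∈ range Y, 𝔼 b ∈ boxset k X', ‖𝔼 a ∈ boxset k X', T z z' b a‖ := by
    have h2 : (𝔼 a ∈ boxset k X', 𝔼 b ∈ boxset k X',
      ‖𝔼 z ∈ range Y, cube u a b (x + ((q * z : ℕ) : ZMod N))
        * e (-(psiSum θ a' a b j * ((q * z : ℕ) : ℝ)))‖) ^ 2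
      ≤ 𝔼 a ∈ boxset k X', 𝔼 b ∈ boxset k X',
      ‖𝔼 z ∈ range Y, cube u a b (x + ((q * z : ℕ) : ZMod N))
        * e (-(psiSum θ a' a b j * ((q * z : ℕ) : ℝ)))‖ ^ 2 := by
      refine (gcs_sq_expect_le _ _).trans ?_
      exact expect_le_expect fun a _ => gcs_sq_expect_le _ _
    refine h2.trans ?_
    have h3 : ∀ a b : Fin k → ℕ,
        ‖𝔼 z ∈ range Y, cube u a b (x + ((q * z : ℕ) : ZMod N))
          * e (-(psiSum θ a' a b j * ((q * z : ℕ) : ℝ)))‖ ^ 2
        = (𝔼 z ∈ range Y, 𝔼 z' ∈ range Y, T z z' b a).re := by
      intro a b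
      rw [dbq_norm_sq]
      congr 1
      refine expect_congr rfl fun z _ => expect_congr rfl fun z' _ => ?_
      rw [hT]
      simp only
      rw [cube_mul k (fun x => u (x + ((q * z : ℕ) : ZMod N)))
        (fun x => conj (u (x + ((q * z' : ℕ) : ZMod N)))),
        cube_shift, cube_conj k (fun x => u (x + ((q * z' : ℕ) : ZMod N))), cube_shift, map_mul,
        ← e_neg]
      rw [show (∑ ω ∈ univ.erase (fun _ : Fin k => false), sg ω * θ (sel ω a a') b j)
        * (((q * z : ℕ) : ℝ) - ((q * z' : ℕ) : ℝ))
        = -(psiSum θ a' a b j * ((q * z : ℕ) : ℝ)) + - -(psiSum θ a' a b j * ((q * z' : ℕ) : ℝ)) by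
          unfold psiSum; ring, e_add]
      ring
    simp only [h3]
    have h4 : 𝔼 a ∈ boxset k X', 𝔼 b ∈ boxset k X',
        (𝔼 z ∈ range Y, 𝔼 z' ∈ range Y, T z z' b a).re
        = 𝔼 z ∈ range Y, 𝔼 z' ∈ range Y, 𝔼 b ∈ boxset k X',
          (𝔼 a ∈ boxset k X', T z z' b a).re := by
      simp only [gcs_re_expect]
      have h5 : ∀ a ∈ boxset k X', 𝔼 b ∈ boxset k X', 𝔼 z ∈ range Y, 𝔼 z' ∈ range Y,
          (T z z' b a).re
          = 𝔼 z ∈ range Y, 𝔼 z' ∈ range Y, 𝔼 b ∈ boxset k X', (T z z' b a).re := by
        intro a _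
        rw [expect_comm]
        exact expect_congr rfl fun z _ => expect_comm _ _ _
      rw [expect_congr rfl h5, expect_comm]
      refine expect_congr rfl fun z _ => ?_
      rw [expect_comm]
      refine expect_congr rfl fun z' _ => ?_
      rw [expect_comm]
    rw [h4]
    exact expect_le_expect fun z _ => expect_le_expect fun z' _ => expect_le_expect fun b _ =>
      Complex.re_le_norm _
  have h0 : 0 ≤ 𝔼 a ∈ boxset k X', 𝔼 b ∈ boxset k X',
      ‖𝔼 z ∈ range Y, cube u a b (x + ((q * z : ℕ) : ZMod N))
        * e (-(psiSum θ a' a b j * ((q * z : ℕ) : ℝ)))‖ :=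
    expect_nonneg fun a _ => expect_nonneg fun b _ => norm_nonneg _
  rw [pow_succ, mul_comm, pow_mul]
  refine (pow_le_pow_left₀ (by (clear * -; positivity)) h1 _).trans ?_
  refine (gcs_pow_expect_le _ _ _ fun z _ => expect_nonneg fun z' _ => expect_nonneg fun b _ =>
    norm_nonneg _).trans ?_
  refine expect_le_expect fun z _ => ?_
  refine (gcs_pow_expect_le _ _ _ fun z' _ => expect_nonneg fun b _ => norm_nonneg _).trans ?_
  refine expect_le_expect fun z' _ => ?_
  refine (gcs_pow_expect_le _ _ _ fun b _ => norm_nonneg _).trans ?_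
  refine expect_le hneb fun b _ => ?_
  refine dbq_point k hk X' hX' _ (fun y => ?_) (fun a => θ a b j) a' b
    (((q * z : ℕ) : ℝ) - ((q * z' : ℕ) : ℝ)) x
  rw [norm_mul, RCLike.norm_conj]
  exact mul_le_one₀ (hu _) (norm_nonneg _) (hu _)

/-- shorten all directions, and pass to the progressions of difference `q` -/
theorem dbq_short (q : ℕ) (hq : IsUnit (q : ZMod N)) (k X Y : ℕ) (hY : 1 ≤ Y)
    (hX : 1 ≤ X) {f : ZMod N → ℂ} (hf : ∀ x, ‖f x‖ ≤ 1) :
    Box k X f ≤ Box k Y (fun y => f ((q : ZMod N) * y)) + k * (4 * (q * Y) / X) := by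
  have hneX : (range X).Nonempty := by simpa using (by omega : X ≠ 0)
  induction k generalizing f with
  | zero =>
    rw [dbq_Box_zero, dbq_Box_zero, dbq_expect_mul (q : ZMod N) hq f]
    simp
  | succ k ih =>
    have h1 : Box (k + 1) X f
        ≤ (𝔼 z ∈ range X, 𝔼 z' ∈ range X,
          Box k Y (fun y => f ((q : ZMod N) * y + ((1 * z : ℕ) : ZMod N))
            * conj (f ((q : ZMod N) * y + ((1 * z' : ℕ) : ZMod N)))))
          + k * (4 * (q * Y) / X) := by
      rw [Box_succ]
      have hc : 𝔼 _z ∈ range X, 𝔼 _z' ∈ range X, ((k : ℝ) * (4 * (q * Y) / X))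
          = k * (4 * (q * Y) / X) := by
        rw [expect_const hneX, expect_const hneX]
      rw [← hc, ← expect_add_distrib]
      refine expect_le_expect fun z _ => ?_
      rw [← expect_add_distrib]
      refine expect_le_expect fun z' _ => ?_
      have := ih (f := fun x => f (x + (z : ZMod N)) * conj (f (x + (z' : ZMod N))))
        (fun x => by
          rw [norm_mul, RCLike.norm_conj]
          exact mul_le_one₀ (hf _) (norm_nonneg _) (hf _))
      simp only [one_mul]
      exact this
    rw [dbq_avg q hq 1 k Y X f] at h1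
    have h2 : 𝔼 a ∈ boxset k Y, 𝔼 b ∈ boxset k Y, 𝔼 x, ‖Aq 1 X (cubeq q f a b) x‖ ^ 2
        ≤ (𝔼 a ∈ boxset k Y, 𝔼 b ∈ boxset k Y, 𝔼 x, ‖Aq q Y (cubeq q f a b) x‖ ^ 2)
          + 4 * (q * Y) / X := by
      have hne := dbq_boxset_ne k Y hY
      have hc : 𝔼 _a ∈ boxset k Y, 𝔼 _b ∈ boxset k Y, (4 * ((q : ℝ) * Y) / X)
          = 4 * (q * Y) / X := by
        rw [expect_const hne, expect_const hne]
      rw [← hc, ← expect_add_distrib]
      refine expect_le_expect fun a _ => ?_
      rw [← expect_add_distrib]
      refine expect_le_expect fun b _ => ?_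
      exact dbq_shorten (dbq_norm_cubeq_le q k hf a b) q X Y hY hX
    have h3 : Box (k + 1) Y (fun y => f ((q : ZMod N) * y))
        = 𝔼 a ∈ boxset k Y, 𝔼 b ∈ boxset k Y, 𝔼 x, ‖Aq q Y (cubeq q f a b) x‖ ^ 2 := by
      rw [Box_succ, ← dbq_avg q hq q k Y Y f]
      refine expect_congr rfl fun z _ => expect_congr rfl fun z' _ => ?_
      congr 1
      funext y
      push_cast
      rw [mul_add, mul_add]
    rw [h3]
    push_cast
    (clear * - h1 h2; linarith)

end point

theorem dl_B' (k : ℕ) (hk : 1 ≤ k) : ∀ n n1 : ℕ, ∃ n3 : ℕ,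
    ∀ (p : ℕ) [NeZero p] (κ : Type) [Fintype κ] [Nonempty κ] (u : κ → ZMod p → ℂ) (δ : ℝ)
      (X X' : ℕ), p.Prime → (∀ i x, ‖u i x‖ ≤ 1) → 0 < δ → δ ≤ 1 / 2 → 1 ≤ X →
      (X : ℝ) ≤ δ ^ n3 * p → 1 ≤ X' → (X' : ℝ) ≤ δ ^ n3 * X →
      ∀ (r : ZMod p) (θ : κ → (Fin k → ℕ) → (Fin k → ℕ) → ℕ → ℝ) (a' : κ → ℕ → Fin k → ℕ),
        (∀ i j, a' i j ∈ boxset k X') →
        δ ^ n ≤ 𝔼 i, 𝔼 j ∈ range (p / X), 𝔼 a ∈ boxset k X', 𝔼 b ∈ boxset k X',
          (open scoped Classical in
          if (∃ q : ℕ, 1 ≤ q ∧ (q : ℝ) ≤ δ⁻¹ ^ n1 ∧
              dint (q * (θ i a b j - psiSum (θ i) (a' i j) a b j)) ≤ δ⁻¹ ^ n1 / X) then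
            ‖𝔼 t ∈ range X, cube (u i) a b (r + ((j * X + t : ℕ) : ZMod p)) *
              e (-(θ i a b j * t))‖
          else 0) →
        ∃ q : ℕ, 1 ≤ q ∧ (q : ℝ) ≤ δ⁻¹ ^ n1 ∧ ∀ X'' : ℕ, 1 ≤ X'' → (X'' : ℝ) ≤ δ ^ n3 * X' →
          δ ^ n3 ≤ 𝔼 i, Box (k + 1) X'' (fun z => u i ((q : ZMod p) * z)) := by
  intro n n1
  classical
  refine ⟨2 * n1 + (n + n1 + 1) * 2 ^ (k + 1) + (n + n1) + k + 10, ?_⟩
  intro p _ κ _ _ u δ X X' hp hu hδ0 hδ1 hX hXN hX' hXX r θ a' _ h
  set n3 := 2 * n1 + (n + n1 + 1) * 2 ^ (k + 1) + (n + n1) + k + 10 with hn3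
  have hX0 : (0 : ℝ) < X := by exact_mod_cast hX
  have hX'0 : (0 : ℝ) < X' := by exact_mod_cast hX'
  have hN0 : (0 : ℝ) < p := by exact_mod_cast NeZero.pos p
  have hδ1' : δ ≤ 1 := hδ1.trans (by norm_num)
  have hinv1 : 1 ≤ δ⁻¹ := (one_le_inv₀ hδ0).mpr hδ1'
  exact by
    have hn3half : δ ^ n3 ≤ 1 / 2 :=
      (pow_le_pow_of_le_one hδ0.le hδ1' (by omega : 1 ≤ n3)).trans (by simpa using hδ1)
    have hXN2 : 2 * X ≤ p := by
      have : 2 * (X : ℝ) ≤ p := by (clear * - hXN hn3half; nlinarith)
      exact_mod_cast this
    have hKne : (range (p / X)).Nonempty := by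
      have : 1 ≤ p / X := (Nat.one_le_div_iff (by omega)).mpr (by omega)
      simpa using (by omega : p / X ≠ 0)
    have hneb : (boxset k X').Nonempty := dbq_boxset_ne k X' hX'
    have hneX : (range X).Nonempty := by simpa using (by omega : X ≠ 0)
    set V : ℝ := δ⁻¹ ^ n1 / X with hV
    exact by
      have hV0 : 0 ≤ V := by (clear * - hδ0 hX; positivity)
      set G : κ → ℕ → (Fin k → ℕ) → (Fin k → ℕ) → ℝ := fun i j a b =>
        ‖𝔼 t ∈ range X, cube (u i) a b (r + ((j * X + t : ℕ) : ZMod p)) * e (-(θ i a b j * t))‖ with hG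
      have hG0 : ∀ i j a b, 0 ≤ G i j a b := fun i j a b => norm_nonneg _
      set Ds : κ → ℕ → (Fin k → ℕ) → (Fin k → ℕ) → ℝ := fun i j a b =>
        θ i a b j - psiSum (θ i) (a' i j) a b j with hDs
      -- pigeonhole
      have hpig : ∃ q : ℕ, 1 ≤ q ∧ (q : ℝ) ≤ δ⁻¹ ^ n1 ∧
          δ ^ (n + n1) ≤ 𝔼 i, 𝔼 j ∈ range (p / X), 𝔼 a ∈ boxset k X', 𝔼 b ∈ boxset k X',
            (if dint (q * Ds i j a b) ≤ V then G i j a b else 0) := by
        by_contra hcon
        push Not at hcon
        set Qm : ℕ := ⌊δ⁻¹ ^ n1⌋₊ with hQm
        have hQ1 : 1 ≤ Qm := Nat.one_le_floor_iff _ |>.mpr (one_le_pow₀ hinv1)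
        have hmem : ∀ q ∈ Icc 1 Qm, 1 ≤ q ∧ (q : ℝ) ≤ δ⁻¹ ^ n1 := by
          intro q hq
          have := mem_Icc.mp hq
          exact ⟨this.1, (Nat.le_floor_iff (by (clear * - hδ0; positivity))).mp this.2⟩
        have h1 : ∑ q ∈ Icc 1 Qm, (𝔼 i, 𝔼 j ∈ range (p / X), 𝔼 a ∈ boxset k X', 𝔼 b ∈ boxset k X',
            (if dint (q * Ds i j a b) ≤ V then G i j a b else 0)) < δ ^ n := by
          have h2 : ∑ q ∈ Icc 1 Qm, (𝔼 i, 𝔼 j ∈ range (p / X), 𝔼 a ∈ boxset k X', 𝔼 b ∈ boxset k X',
            (if dint (q * Ds i j a b) ≤ V then G i j a b else 0))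
              < ∑ q ∈ Icc 1 Qm, δ ^ (n + n1) := by
            refine sum_lt_sum_of_nonempty ⟨1, mem_Icc.mpr ⟨le_rfl, hQ1⟩⟩ fun q hq => ?_
            exact hcon q (hmem q hq).1 (hmem q hq).2
          refine h2.trans_le ?_
          rw [sum_const, Nat.card_Icc, nsmul_eq_mul, Nat.add_sub_cancel]
          have h3 : (Qm : ℝ) ≤ δ⁻¹ ^ n1 := Nat.floor_le (by positivity)
          calc (Qm : ℝ) * δ ^ (n + n1) ≤ δ⁻¹ ^ n1 * δ ^ (n + n1) := by (clear * - h3 hδ0; gcongr)
            _ = δ ^ n := by
              rw [pow_add, mul_comm (δ ^ n), ← mul_assoc, ← mul_pow, inv_mul_cancel₀ hδ0.ne', one_pow,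
                one_mul]
        have h2 : δ ^ n ≤ ∑ q ∈ Icc 1 Qm, (𝔼 i, 𝔼 j ∈ range (p / X), 𝔼 a ∈ boxset k X',
            𝔼 b ∈ boxset k X', (if dint (q * Ds i j a b) ≤ V then G i j a b else 0)) := by
          simp only [← expect_sum_comm]
          refine h.trans ?_
          refine expect_le_expect fun i _ => expect_le_expect fun j _ => expect_le_expect fun a _ =>
            expect_le_expect fun b _ => ?_
          have hnn : ∀ q ∈ Icc 1 Qm, 0 ≤ (if dint (q * Ds i j a b) ≤ V then G i j a b else 0) := by
            intro q _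
            split_ifs
            · exact hG0 i j a b
            · exact le_rfl
          split_ifs with hif
          · obtain ⟨q, hq1, hq2, hq3⟩ := hif
            have hq : q ∈ Icc 1 Qm := mem_Icc.mpr ⟨hq1, (Nat.le_floor_iff (by positivity)).mpr hq2⟩
            refine le_trans (le_of_eq ?_) (single_le_sum hnn hq)
            rw [if_pos hq3]
          · exact sum_nonneg hnn
        (clear * - h1 h2; linarith)
      obtain ⟨q, hq1, hq2, hq3⟩ := hpig
      exact by
        refine ⟨q, hq1, hq2, ?_⟩
        intro Y hY hYX
        have hY0 : (0 : ℝ) < Y := by exact_mod_cast hY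
        have hqp : q < p := by
          have h1 : (q : ℝ) < p := by
            have h2 : δ⁻¹ ^ n1 ≤ 1 / 2 * p := by
              have h3 : δ ^ n1 * δ⁻¹ ^ n1 = 1 := by
                rw [← mul_pow, mul_inv_cancel₀ hδ0.ne', one_pow]
              have h4 : (1 : ℝ) ≤ δ ^ n3 * p := le_trans (by exact_mod_cast hX) hXN
              have h5 : δ ^ n3 ≤ δ ^ n1 * (1 / 2) := by
                have : n3 = n1 + (n1 + (n + n1 + 1) * 2 ^ (k + 1) + (n + n1) + k + 9) + 1 := by omega
                rw [this, pow_add, pow_add, pow_one]
                have h6 : δ ^ (n1 + (n + n1 + 1) * 2 ^ (k + 1) + (n + n1) + k + 9) ≤ 1 :=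
                  pow_le_one₀ hδ0.le hδ1'
                calc δ ^ n1 * δ ^ (n1 + (n + n1 + 1) * 2 ^ (k + 1) + (n + n1) + k + 9) * δ
                    ≤ δ ^ n1 * 1 * (1 / 2) := by (clear * - h6 hδ0 hδ1; gcongr)
                  _ = δ ^ n1 * (1 / 2) := by ring
              have h6 : (1 : ℝ) ≤ δ ^ n1 * (1 / 2) * p := h4.trans (by (clear * - h5 hN0; gcongr))
              have h7 : 0 < δ⁻¹ ^ n1 := by positivity
              calc δ⁻¹ ^ n1 = δ⁻¹ ^ n1 * 1 := (mul_one _).symm
                _ ≤ δ⁻¹ ^ n1 * (δ ^ n1 * (1 / 2) * p) := by (clear * - h6 hδ0; gcongr)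
                _ = (δ ^ n1 * δ⁻¹ ^ n1) * (1 / 2 * p) := by ring
                _ = 1 / 2 * p := by rw [h3, one_mul]
            have : (1 : ℝ) / 2 * p < p := by (clear * - hN0; linarith)
            (clear * - hN0 hq2 h2; linarith)
          exact_mod_cast h1
        have hqu : IsUnit (q : ZMod p) := by
          rw [ZMod.isUnit_iff_coprime]
          exact (Nat.coprime_of_lt_prime (by omega) hqp hp).symm
        set W : κ → ℕ → ℕ → ℝ := fun i j t0 => 𝔼 a ∈ boxset k X', 𝔼 b ∈ boxset k X',
            ‖𝔼 z ∈ range Y, cube (u i) a b (r + ((j * X + t0 : ℕ) : ZMod p) + ((q * z : ℕ) : ZMod p))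
              * e (-(psiSum (θ i) (a' i j) a b j * ((q * z : ℕ) : ℝ)))‖ with hW
        set err : ℝ := 2 * (q * Y) / X + 2 * Real.pi * V * Y with herr
        have herr0 : 0 ≤ err := by (clear * - hq1 hY hX hδ0; positivity)
        exact by
          have hWn : ∀ i j t0, 0 ≤ W i j t0 := fun i j t0 =>
            expect_nonneg fun a _ => expect_nonneg fun b _ => norm_nonneg _
          have hYX2 : (Y : ℝ) ≤ δ ^ n3 * X := by
            refine hYX.trans ?_
            have : (X' : ℝ) ≤ X := hXX.trans (by (clear * - hX0 hn3half; nlinarith))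
            (clear * - this hδ0; gcongr)
          have hid : δ⁻¹ ^ n1 * δ ^ n1 = 1 := by
            rw [← mul_pow, inv_mul_cancel₀ hδ0.ne', one_pow]
          -- the error term
          have herr1 : err ≤ δ ^ (n + n1) / 2 := by
            have h1 : (Y : ℝ) / X ≤ δ ^ n3 := by
              rw [div_le_iff₀ hX0]
              exact hYX2
            have h2 : err = 2 * (q * (Y / X)) + 2 * Real.pi * (δ⁻¹ ^ n1 * (Y / X)) := by
              rw [herr, hV]
              ring
            have hpi : Real.pi ≤ 4 := Real.pi_le_four
            have h4 : δ ^ n3 ≤ δ ^ n1 * (δ ^ (n + n1) * (1 / 32)) := by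
              have : n3 = n1 + ((n + n1) + 5) + (n1 + (n + n1 + 1) * 2 ^ (k + 1) + k + 5) := by omega
              rw [this, pow_add, pow_add _ (n1) ((n + n1) + 5), pow_add _ (n + n1) 5]
              have h5 : δ ^ 5 ≤ 1 / 32 := by
                calc δ ^ 5 ≤ (1 / 2) ^ 5 := pow_le_pow_left₀ hδ0.le hδ1 5
                  _ = 1 / 32 := by norm_num
              have h6 : δ ^ (n1 + (n + n1 + 1) * 2 ^ (k + 1) + k + 5) ≤ 1 := pow_le_one₀ hδ0.le hδ1'
              calc δ ^ n1 * (δ ^ (n + n1) * δ ^ 5) * δ ^ (n1 + (n + n1 + 1) * 2 ^ (k + 1) + k + 5)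
                  ≤ δ ^ n1 * (δ ^ (n + n1) * δ ^ 5) * 1 := by (clear * - h6 hδ0; gcongr)
                _ ≤ δ ^ n1 * (δ ^ (n + n1) * (1 / 32)) := by
                  rw [mul_one]
                  (clear * - h5 hδ0; gcongr)
            have h7 : δ⁻¹ ^ n1 * (Y / X) ≤ δ ^ (n + n1) * (1 / 32) := by
              calc δ⁻¹ ^ n1 * ((Y : ℝ) / X) ≤ δ⁻¹ ^ n1 * (δ ^ n1 * (δ ^ (n + n1) * (1 / 32))) := by
                    gcongr
                    exact h1.trans h4
                _ = δ ^ (n + n1) * (1 / 32) := by rw [← mul_assoc, hid, one_mul]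
            have h8 : (q : ℝ) * (Y / X) ≤ δ ^ (n + n1) * (1 / 32) := by
              refine le_trans ?_ h7
              (clear * - hq2 hY hX; gcongr)
            have h10 : 0 ≤ δ⁻¹ ^ n1 * ((Y : ℝ) / X) := by (clear * - hδ0 hY hX; positivity)
            have h11 : 0 < δ ^ (n + n1) := by positivity
            rw [h2]
            (clear * - herr0 h2 h7 h8 hδ0 hδ1 hpi h10; nlinarith)
          -- step A
          have hA : δ ^ (n + n1) ≤ (𝔼 i, 𝔼 j ∈ range (p / X), 𝔼 t0 ∈ range X, W i j t0) + err := by
            refine hq3.trans ?_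
            have hc : 𝔼 _i : κ, 𝔼 _j ∈ range (p / X), err = err := by
              rw [expect_const univ_nonempty, expect_const hKne]
            rw [← hc, ← expect_add_distrib]
            refine expect_le_expect fun i _ => ?_
            rw [← expect_add_distrib]
            refine expect_le_expect fun j _ => ?_
            have hterm : ∀ a b : Fin k → ℕ,
                (if dint (q * Ds i j a b) ≤ V then G i j a b else 0)
                ≤ (𝔼 t0 ∈ range X, ‖𝔼 z ∈ range Y,
                    cube (u i) a b (r + ((j * X + t0 : ℕ) : ZMod p) + ((q * z : ℕ) : ZMod p))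
                    * e (-(psiSum (θ i) (a' i j) a b j * ((q * z : ℕ) : ℝ)))‖) + err := by
              intro a b
              have hn : 0 ≤ 𝔼 t0 ∈ range X, ‖𝔼 z ∈ range Y,
                    cube (u i) a b (r + ((j * X + t0 : ℕ) : ZMod p) + ((q * z : ℕ) : ZMod p))
                    * e (-(psiSum (θ i) (a' i j) a b j * ((q * z : ℕ) : ℝ)))‖ :=
                expect_nonneg fun _ _ => norm_nonneg _
              split_ifs with hif
              · have hw := dbq_window (fun t => cube (u i) a b (r + ((j * X + t : ℕ) : ZMod p)))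
                  (fun t => norm_cube_le k (hu i) a b _) (θ i a b j) (psiSum (θ i) (a' i j) a b j) q X Y
                  hX hY
                exact by
                  refine hw.trans ?_
                  have hcast : ∀ t0 z : ℕ, (r + ((j * X + (t0 + q * z) : ℕ) : ZMod p))
                      = r + ((j * X + t0 : ℕ) : ZMod p) + ((q * z : ℕ) : ZMod p) := by
                    intro t0 z
                    push_cast
                    ring
                  simp only [hcast]
                  have : 2 * Real.pi * dint (q * (θ i a b j - psiSum (θ i) (a' i j) a b j)) * Y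
                      ≤ 2 * Real.pi * V * Y := by
                    have : dint (q * (θ i a b j - psiSum (θ i) (a' i j) a b j)) ≤ V := hif
                    (clear * - hif hY; gcongr)
                  rw [herr]
                  (clear * - this; linarith)
              · (clear * - herr0 hn; linarith)
            have hc2 : 𝔼 _a ∈ boxset k X', 𝔼 _b ∈ boxset k X', err = err := by
              rw [expect_const hneb, expect_const hneb]
            calc 𝔼 a ∈ boxset k X', 𝔼 b ∈ boxset k X',
                  (if dint (q * Ds i j a b) ≤ V then G i j a b else 0)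
                ≤ 𝔼 a ∈ boxset k X', 𝔼 b ∈ boxset k X', ((𝔼 t0 ∈ range X, ‖𝔼 z ∈ range Y,
                    cube (u i) a b (r + ((j * X + t0 : ℕ) : ZMod p) + ((q * z : ℕ) : ZMod p))
                    * e (-(psiSum (θ i) (a' i j) a b j * ((q * z : ℕ) : ℝ)))‖) + err) :=
                  expect_le_expect fun a _ => expect_le_expect fun b _ => hterm a b
              _ = (𝔼 a ∈ boxset k X', 𝔼 b ∈ boxset k X', 𝔼 t0 ∈ range X, ‖𝔼 z ∈ range Y,
                    cube (u i) a b (r + ((j * X + t0 : ℕ) : ZMod p) + ((q * z : ℕ) : ZMod p))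
                    * e (-(psiSum (θ i) (a' i j) a b j * ((q * z : ℕ) : ℝ)))‖) + err := by
                  rw [← hc2, ← expect_add_distrib]
                  refine expect_congr rfl fun a _ => ?_
                  rw [← expect_add_distrib]
                  simp only [hc2]
              _ = (𝔼 t0 ∈ range X, W i j t0) + err := by
                  congr 1
                  rw [hW]
                  simp only
                  have h5 : ∀ a ∈ boxset k X', 𝔼 b ∈ boxset k X', 𝔼 t0 ∈ range X, ‖𝔼 z ∈ range Y,
                    cube (u i) a b (r + ((j * X + t0 : ℕ) : ZMod p) + ((q * z : ℕ) : ZMod p))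
                    * e (-(psiSum (θ i) (a' i j) a b j * ((q * z : ℕ) : ℝ)))‖
                    = 𝔼 t0 ∈ range X, 𝔼 b ∈ boxset k X', ‖𝔼 z ∈ range Y,
                    cube (u i) a b (r + ((j * X + t0 : ℕ) : ZMod p) + ((q * z : ℕ) : ZMod p))
                    * e (-(psiSum (θ i) (a' i j) a b j * ((q * z : ℕ) : ℝ)))‖ :=
                      fun a _ => expect_comm _ _ _
                  rw [expect_congr rfl h5, expect_comm]
          have hA' : δ ^ (n + n1 + 1) ≤ 𝔼 i, 𝔼 j ∈ range (p / X), 𝔼 t0 ∈ range X, W i j t0 := by
            have h1 : δ ^ (n + n1 + 1) ≤ δ ^ (n + n1) / 2 := by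
              rw [pow_succ]
              have : 0 < δ ^ (n + n1) := by positivity
              (clear * - hδ1 herr0 herr1; nlinarith)
            (clear * - herr1 hA h1; linarith)
          -- steps B and C
          exact by
            have hB : (δ ^ (n + n1 + 1)) ^ (2 ^ (k + 1))
                ≤ 𝔼 i, 𝔼 j ∈ range (p / X), 𝔼 t ∈ range X,
                  dbqG k X' q Y (u i) (r + ((j * X + t : ℕ) : ZMod p)) := by
              refine (pow_le_pow_left₀ (by positivity) hA' _).trans ?_
              refine (gcs_pow_expect_le _ _ _ fun i _ => expect_nonneg fun j _ => expect_nonneg fun t _ =>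
                hWn i j t).trans ?_
              refine expect_le_expect fun i _ => ?_
              refine (gcs_pow_expect_le _ _ _ fun j _ => expect_nonneg fun t _ => hWn i j t).trans ?_
              refine expect_le_expect fun j _ => ?_
              refine (gcs_pow_expect_le _ _ _ fun t _ => hWn i j t).trans ?_
              refine expect_le_expect fun t _ => ?_
              exact dbq_local k hk X' hX' q Y hY (u i) (hu i) (θ i) (a' i j) j _
            have hC : ∀ i, 𝔼 j ∈ range (p / X), 𝔼 t ∈ range X,
                  dbqG k X' q Y (u i) (r + ((j * X + t : ℕ) : ZMod p))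
                ≤ 2 * (Box (k + 1) Y (fun y => u i ((q : ZMod p) * y)) + k * (4 * (q * Y) / X')) := by
              intro i
              refine (dbq_blocks (dbqG k X' q Y (u i)) (dbqG_nonneg k hk X' q Y (u i)) X hX hXN2 r).trans ?_
              refine mul_le_mul_of_nonneg_left ?_ zero_le_two
              rw [dbqG_expect]
              have hneY : (range Y).Nonempty := by simpa using (by (clear * - k n n1 p X X' q hY; omega) : Y ≠ 0)
              have hc : 𝔼 _z ∈ range Y, 𝔼 _z' ∈ range Y, ((k : ℝ) * (4 * (q * Y) / X'))
                  = k * (4 * (q * Y) / X') := by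
                rw [expect_const hneY, expect_const hneY]
              rw [Box_succ, ← hc, ← expect_add_distrib]
              refine expect_le_expect fun z _ => ?_
              rw [← expect_add_distrib]
              refine expect_le_expect fun z' _ => ?_
              have := dbq_short (N := p) q hqu k X' Y hY hX'
                (f := fun x => u i (x + ((q * z : ℕ) : ZMod p)) * conj (u i (x + ((q * z' : ℕ) : ZMod p))))
                (fun x => by
                  rw [norm_mul, RCLike.norm_conj]
                  exact mul_le_one₀ (hu i _) (norm_nonneg _) (hu i _))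
              refine this.trans (le_of_eq ?_)
              congr 2
              funext y
              push_cast
              rw [mul_add, mul_add]
            have hD : (δ ^ (n + n1 + 1)) ^ (2 ^ (k + 1))
                ≤ 2 * (𝔼 i, Box (k + 1) Y (fun y => u i ((q : ZMod p) * y))) + 2 * (k * (4 * (q * Y) / X')) := by
              refine hB.trans ?_
              refine (expect_le_expect fun i _ => hC i).trans (le_of_eq ?_)
              rw [← mul_expect, expect_add_distrib, expect_const univ_nonempty]
              ring
            -- final comparison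
            have hE : 2 * ((k : ℝ) * (4 * (q * Y) / X')) ≤ (δ ^ (n + n1 + 1)) ^ (2 ^ (k + 1)) / 2 := by
              have h1 : (Y : ℝ) / X' ≤ δ ^ n3 := by
                rw [div_le_iff₀ hX'0]
                exact hYX
              have h2 : (k : ℝ) ≤ δ⁻¹ ^ k := by
                have h3 : (k : ℝ) ≤ 2 ^ k := by exact_mod_cast k.lt_two_pow_self.le
                have h4 : (2 : ℝ) ≤ δ⁻¹ := by
                  rw [le_inv_comm₀ (by norm_num) hδ0]
                  simpa using hδ1
                exact h3.trans (pow_le_pow_left₀ (by norm_num) h4 _)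
              have h3 : δ⁻¹ ^ k * δ ^ k = 1 := by
                rw [← mul_pow, inv_mul_cancel₀ hδ0.ne', one_pow]
              have h4 : δ ^ n3 ≤ δ ^ n1 * δ ^ k * ((δ ^ (n + n1 + 1)) ^ (2 ^ (k + 1)) * (1 / 32)) := by
                rw [← pow_mul]
                have : n3 = n1 + k + ((n + n1 + 1) * 2 ^ (k + 1) + 5) + (n1 + (n + n1) + 5) := by omega
                rw [this, pow_add, pow_add _ (n1 + k), pow_add _ n1 k,
                  pow_add _ ((n + n1 + 1) * 2 ^ (k + 1)) 5]
                have h5 : δ ^ 5 ≤ 1 / 32 := by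
                  calc δ ^ 5 ≤ (1 / 2) ^ 5 := pow_le_pow_left₀ hδ0.le hδ1 5
                    _ = 1 / 32 := by norm_num
                have h6 : δ ^ (n1 + (n + n1) + 5) ≤ 1 := pow_le_one₀ hδ0.le hδ1'
                calc δ ^ n1 * δ ^ k * (δ ^ ((n + n1 + 1) * 2 ^ (k + 1)) * δ ^ 5) * δ ^ (n1 + (n + n1) + 5)
                    ≤ δ ^ n1 * δ ^ k * (δ ^ ((n + n1 + 1) * 2 ^ (k + 1)) * δ ^ 5) * 1 := by (clear * - h6 hδ0; gcongr)
                  _ ≤ δ ^ n1 * δ ^ k * (δ ^ ((n + n1 + 1) * 2 ^ (k + 1)) * (1 / 32)) := by
                    rw [mul_one]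
                    (clear * - h5 hδ0; gcongr)
              calc 2 * ((k : ℝ) * (4 * (q * Y) / X')) = 8 * (k * q * (Y / X')) := by ring
                _ ≤ 8 * (δ⁻¹ ^ k * δ⁻¹ ^ n1 *
                    (δ ^ n1 * δ ^ k * ((δ ^ (n + n1 + 1)) ^ (2 ^ (k + 1)) * (1 / 32)))) := by
                    gcongr
                    exact h1.trans h4
                _ = 8 * ((δ⁻¹ ^ k * δ ^ k) * (δ⁻¹ ^ n1 * δ ^ n1) *
                    ((δ ^ (n + n1 + 1)) ^ (2 ^ (k + 1)) * (1 / 32))) := by ring
                _ = 8 * ((δ ^ (n + n1 + 1)) ^ (2 ^ (k + 1)) * (1 / 32)) := by rw [h3, hid]; ring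
                _ ≤ (δ ^ (n + n1 + 1)) ^ (2 ^ (k + 1)) / 2 := by
                    have : 0 < (δ ^ (n + n1 + 1)) ^ (2 ^ (k + 1)) := by positivity
                    (clear * - this; linarith)
            have hF : δ ^ n3 ≤ (δ ^ (n + n1 + 1)) ^ (2 ^ (k + 1)) * (1 / 4) := by
              rw [← pow_mul]
              have : n3 = (n + n1 + 1) * 2 ^ (k + 1) + 2 + (2 * n1 + (n + n1) + k + 8) := by omega
              rw [this, pow_add, pow_add]
              have h5 : δ ^ 2 ≤ 1 / 4 := by
                calc δ ^ 2 ≤ (1 / 2) ^ 2 := pow_le_pow_left₀ hδ0.le hδ1 2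
                  _ = 1 / 4 := by norm_num
              have h6 : δ ^ (2 * n1 + (n + n1) + k + 8) ≤ 1 := pow_le_one₀ hδ0.le hδ1'
              calc δ ^ ((n + n1 + 1) * 2 ^ (k + 1)) * δ ^ 2 * δ ^ (2 * n1 + (n + n1) + k + 8)
                  ≤ δ ^ ((n + n1 + 1) * 2 ^ (k + 1)) * δ ^ 2 * 1 := by (clear * - h6 hδ0; gcongr)
                _ ≤ δ ^ ((n + n1 + 1) * 2 ^ (k + 1)) * (1 / 4) := by
                  rw [mul_one]
                  (clear * - h5 hδ0; gcongr)
            (clear * - hD hE hF; linarith)

end

end Pool.Agent.Helper67.NX2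

end

section

set_option autoImplicit false

open Finset

open scoped BigOperators ComplexConjugate

namespace Pool.Agent.Helper67.NX2

open Pool.Agent.Helper57.NX

noncomputable section

/-- the differences of the sequences are multiples of the steps -/
theorem stp_dvd45 {m N : ℕ} {S : Sys (m + 1)} {c : Fin (m + 1) → ℝ} {x : ℝ} {lam : ℕ}
    [NeZero N] (hG : IG S c N x lam) (hD : 0 < S.D) (q j k : ℕ) (i : Fin (m + 1)) :
    ∃ t : ℤ, S.a c i (k + q * j) - S.a c i k = stp S.Q q (c i) * t := by
  by_cases h : IsN (c i)
  · obtain ⟨d, hd⟩ := h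
    obtain ⟨r, hr⟩ := hG.rho
    rw [a_nat hG hD hr i d hd, a_nat hG hD hr i d hd, stp_nat S.Q q ⟨d, hd⟩]
    have h1 : ((q : ℤ)) ∣ ((lam * (k + q * j) + r : ℕ) : ℤ) ^ d - ((lam * k + r : ℕ) : ℤ) ^ d := by
      refine dvd_trans ?_ (sub_dvd_pow_sub_pow _ _ d)
      exact ⟨lam * j, by push_cast; ring⟩
    obtain ⟨t, ht⟩ := h1
    refine ⟨t, ?_⟩
    rw [← mul_sub, ht]
    push_cast
    ring
  · rw [stp_not S.Q q h]
    exact ⟨S.a c i (k + q * j) - S.a c i k, by push_cast; ring⟩

theorem ds_core45 (m : ℕ) (c : Fin (m + 1) → ℝ) (hc : Ex c) (s : ℝ)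
    (hCR : ∀ ε : ℝ, 0 < ε →
      ∃ x0 : ℝ, 0 < x0 ∧ ∃ C : ℕ, ∃ σ : ℝ, 0 < σ ∧ ∃ D0 : ℝ,
      ∀ (S : Sys (m + 1)) (N : ℕ) [NeZero N] (lam : ℕ), D0 ≤ S.D → IG S c N x0 lam →
      ∀ δ : ℝ, S.D ^ (-σ) ≤ δ → δ ≤ 1 / 2 → (lam : ℝ) ≤ δ⁻¹ →
      ∀ X : ℝ, (S.Q : ℝ) ≤ X → S.Q * S.D ^ (s - σ) ≤ X → X ≤ S.Q * S.D ^ s →
      ∀ (h : ℕ → ℂ) (f0 : ZMod N → ℂ) (f : Fin (m + 1) → ZMod N → ℂ),
      (∀ k, ‖h k‖ ≤ 1) → Adm δ⁻¹ S.Q f0 → (∀ i, Adm δ⁻¹ S.Q (f i)) →
      Adm δ⁻¹ X (f (Fin.last m)) →
      δ ≤ ‖form S c h f0 f‖ →
      ∃ q : ℕ, 1 ≤ q ∧ (q : ℝ) ≤ δ⁻¹ ^ C ∧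
      ∃ (b : Fin (m + 1) → ℤ) (cc : Fin (m + 1) → ZMod N → ℂ),
        (∀ i, |(b i : ℝ) / N| ≤ δ⁻¹ ^ C / S.Q ∧ (i = Fin.last m → |(b i : ℝ) / N| ≤ δ⁻¹ ^ C / X) ∧
          Adm (δ⁻¹ ^ C) S.Q (cc i) ∧
          ∀ (x : ZMod N) (t : ℤ), ‖cc i (x + ((stp S.Q q (c i) * t : ℤ) : ZMod N)) - cc i x‖ ≤
            |(t : ℝ)| * (stp S.Q q (c i) : ℝ) * S.D ^ ε / S.P i) ∧
        δ ^ C ≤ ‖form S c h f0 (fun i x => e ((b i : ℝ) / N * x.val) * cc i x)‖) :
    ∀ ε : ℝ, 0 < ε → DsPm m c s ε := by
  intro ε0 hε0
  -- reduce to `ε ≤ 1`
  set ε := min ε0 1 with hεdef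
  have hε : 0 < ε := lt_min hε0 one_pos
  have hε1 : ε ≤ 1 := min_le_right _ _
  have hεε0 : ε ≤ ε0 := min_le_left _ _
  have hc0 : ∀ i, 0 < c i := fun i => by (clear * - hc; linarith [hc.two i])
  obtain ⟨x1, hx1, C0, σ, hσ, D0, H⟩ := hCR (ε / 4) (by positivity)
  set C : ℕ := C0 + 1 with hCdef
  exact by
    have hC1 : 1 ≤ C := by omega
    have hC0 : (0 : ℝ) < C := by exact_mod_cast hC1
    set x0 : ℝ := min x1 (ε / 4) with hx0def
    have hx0 : 0 < x0 := lt_min hx1 (by positivity)
    have hx0a : x0 ≤ x1 := min_le_left _ _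
    have hx0b : x0 ≤ ε / 4 := min_le_right _ _
    -- constants
    exact by
      have hMc0 : 0 ≤ Mc c := Finset.sum_nonneg fun i _ => mul_nonneg (hc0 i).le (by positivity)
      set A0 : ℝ := 8 * (m + 1) * (Mc c + 2) with hA0
      have hA0pos : 0 < A0 := by (clear * - hMc0; positivity)
      refine ⟨x0, hx0, C + 1, min σ (ε / (4 * C)), lt_min hσ (by positivity),
        max (max D0 4) ((4 * A0) ^ (4 / ε)), ?_⟩
      intro S N _ lam hD hG δ hδσ hδ hlam X hQX hX hX' hw f0 f hh hf0 hf hfl hform
      have hDa : D0 ≤ S.D := ((le_max_left _ _).trans (le_max_left _ _)).trans hD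
      have hD4 : 4 ≤ S.D := ((le_max_right _ _).trans (le_max_left _ _)).trans hD
      have hD1 : 1 ≤ S.D := by (clear * - hε1 hx0 hx0b hD4; linarith)
      exact by
        have hDpos : 0 < S.D := by (clear * - hε1 hx0 hx0b hD4; linarith)
        have hδ0 : 0 < δ := (Real.rpow_pos_of_pos hDpos _).trans_le hδσ
        have hR2 : 2 ≤ δ⁻¹ := two_le_inv hδ0 hδ
        have hgood := hG.good
        have hQD : S.D ^ (2 : ℝ) ≤ (S.Q : ℝ) := hgood.Q1
        have hQ0 : (0 : ℝ) < S.Q := (Real.rpow_pos_of_pos hDpos _).trans_le hQD
        exact by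
          have hσa : min σ (ε / (4 * C)) ≤ σ := min_le_left _ _
          have hσb : min σ (ε / (4 * C)) ≤ ε / (4 * C) := min_le_right _ _
          obtain ⟨q, hq1, hq, b, cc, hbc, hF'⟩ := H S N lam hDa (hG.mono hx0a hD1) δ
            ((Real.rpow_le_rpow_of_exponent_le hD1 (by (clear * - hσa; linarith))).trans hδσ) hδ hlam X hQX
            (le_trans (mul_le_mul_of_nonneg_left (Real.rpow_le_rpow_of_exponent_le hD1 (by (clear * - hσa; linarith)))
              (Nat.cast_nonneg _)) hX) hX' hw f0 f hh hf0 hf hfl hform
          have hCC : δ⁻¹ ^ C0 ≤ δ⁻¹ ^ C := pow_le_pow_right₀ (by (clear * - hε1 hx0 hx0b hR2; linarith)) (by omega)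
          have hCC' : δ ^ C ≤ δ ^ C0 := pow_le_pow_of_le_one hδ0.le (by (clear * - hε1 hx0 hx0b hδ; linarith)) (by omega)
          have hq' : (q : ℝ) ≤ δ⁻¹ ^ C := hq.trans hCC
          -- sizes of `P`
          have hP : ∀ i, S.D ^ (2 : ℝ) ≤ S.P i := by
            intro i
            refine le_trans ?_ (hgood.P1 i)
            calc S.D ^ (2 : ℝ) = S.D ^ (2 : ℝ) * 1 := (mul_one _).symm
              _ ≤ S.Q * S.D ^ (c i - x0) := by
                refine mul_le_mul hQD (Real.one_le_rpow hD1 ?_) zero_le_one hQ0.le
                (clear * - hε1 hx0 hx0b hc; linarith [hc.two i])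
          exact by
            have hP0 : ∀ i, 0 < S.P i := fun i => (Real.rpow_pos_of_pos hDpos _).trans_le (hP i)
            have h2 : δ⁻¹ ^ C0 ≤ δ⁻¹ ^ (C + 1) := pow_le_pow_right₀ (by (clear * - hε1 hx0 hx0b hR2; linarith)) (by omega)
            refine ⟨q, hq1, hq.trans h2, fun i => (b i : ℝ) / N, ?_, ?_, ?_⟩
            · intro i
              refine (hbc i).1.trans ?_
              (clear * - h2 hQ0; gcongr)
            · refine ((hbc (Fin.last m)).2.1 rfl).trans ?_
              have h3 : 0 < X := hQ0.trans_le hQX
              (clear * - h2 h3; gcongr)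
            intro K hK1 hKD0
            have hKD : (K : ℝ) ≤ S.D ^ (1 - ε) :=
              hKD0.trans (Real.rpow_le_rpow_of_exponent_le hD1 (by (clear * - hεε0; linarith)))
            -- powers of `δ` and `D`
            have hDε : S.D ^ (-(ε / 4)) ≤ δ ^ C := by
              calc S.D ^ (-(ε / 4)) = (S.D ^ (-(ε / (4 * C)))) ^ C := by
                    rw [← Real.rpow_natCast, ← Real.rpow_mul hDpos.le]
                    congr 1
                    (clear * - hC1 hε; field_simp)
                _ ≤ δ ^ C := by
                    refine pow_le_pow_left₀ (Real.rpow_nonneg hDpos.le _) (le_trans ?_ hδσ) C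
                    exact Real.rpow_le_rpow_of_exponent_le hD1 (by (clear * - hσb; linarith))
            have hDinv : δ⁻¹ ^ C ≤ S.D ^ (ε / 4) := by
              rw [inv_pow, inv_le_comm₀ (by positivity) (Real.rpow_pos_of_pos hDpos _), ← Real.rpow_neg hDpos.le]
              exact hDε
            have hqK : (q : ℝ) * K ≤ S.D ^ (-(3 * ε / 4)) * S.D := by
              calc (q : ℝ) * K ≤ S.D ^ (ε / 4) * S.D ^ (1 - ε) := by
                    gcongr
                    exact hq'.trans hDinv
                _ = S.D ^ (-(3 * ε / 4)) * S.D := by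
                    rw [← Real.rpow_add hDpos, ← Real.rpow_add_one hDpos.ne']
                    congr 1
                    ring
            exact by
              have hqKD : (q : ℝ) * K ≤ S.D := by
                refine hqK.trans (mul_le_of_le_one_left hDpos.le ?_)
                exact Real.rpow_le_one_of_one_le_of_nonpos hD1 (by (clear * - hx0 hx0b; linarith))
              -- decomposition of the form
              set E : ℕ → ℂ := fun k => hw k * ∏ i, ch (b i : ZMod N) (S.a c i k : ZMod N) with hE
              set g0 : ZMod N → ℂ := fun x => f0 x * ∏ i, ch (b i : ZMod N) x with hg0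
              set V : ℕ → ℂ := fun k => 𝔼 x : ZMod N, g0 x * ∏ i, cc i (x + (S.a c i k : ZMod N)) with hV
              have hccb : ∀ i x, ‖cc i x‖ ≤ 1 := fun i x => (hbc i).2.2.1.bdd x
              have hg0b : ∀ x, ‖g0 x‖ ≤ 1 := by
                intro x
                rw [hg0, norm_mul, norm_prod]
                refine mul_le_one₀ (hf0.bdd x) (Finset.prod_nonneg fun i _ => norm_nonneg _) ?_
                exact Finset.prod_le_one (fun i _ => norm_nonneg _) fun i _ => (norm_ch _ _).le
              exact by
                have hEb : ∀ k, ‖E k‖ ≤ 1 := by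
                  intro k
                  rw [hE, norm_mul, norm_prod]
                  refine mul_le_one₀ (hh k) (Finset.prod_nonneg fun i _ => norm_nonneg _) ?_
                  exact Finset.prod_le_one (fun i _ => norm_nonneg _) fun i _ => (norm_ch _ _).le
                have hVb : ∀ k, ‖V k‖ ≤ 1 := by
                  intro k
                  rw [hV]
                  refine (norm_expect_le' _ _).trans ?_
                  calc 𝔼 x : ZMod N, ‖g0 x * ∏ i, cc i (x + (S.a c i k : ZMod N))‖ ≤ 𝔼 _x : ZMod N, (1 : ℝ) := by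
                        refine Finset.expect_le_expect fun x _ => ?_
                        rw [norm_mul, norm_prod]
                        refine mul_le_one₀ (hg0b x) (Finset.prod_nonneg fun i _ => norm_nonneg _) ?_
                        exact Finset.prod_le_one (fun i _ => norm_nonneg _) fun i _ => hccb i _
                    _ = 1 := Finset.expect_const Finset.univ_nonempty 1
                have hdec : form S c hw f0 (fun i x => e ((b i : ℝ) / N * x.val) * cc i x) =
                    𝔼 k ∈ S.I, E k * V k := by
                  unfold form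
                  refine Finset.expect_congr rfl fun k _ => ?_
                  change hw k * 𝔼 x : ZMod N, f0 x * ∏ i, (e ((b i : ℝ) / N * (x + (S.a c i k : ZMod N)).val) *
                      cc i (x + (S.a c i k : ZMod N))) =
                    (hw k * ∏ i, ch (b i : ZMod N) (S.a c i k : ZMod N)) *
                      𝔼 x : ZMod N, (f0 x * ∏ i, ch (b i : ZMod N) x) * ∏ i, cc i (x + (S.a c i k : ZMod N))
                  rw [mul_assoc (hw k), Finset.mul_expect univ _ (∏ i, ch (b i : ZMod N) (S.a c i k : ZMod N))]
                  congr 1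
                  refine Finset.expect_congr rfl fun x _ => ?_
                  have h1 : ∏ i, (e ((b i : ℝ) / N * (x + (S.a c i k : ZMod N)).val) *
                      cc i (x + (S.a c i k : ZMod N))) =
                      (∏ i, ch (b i : ZMod N) x) * ((∏ i, ch (b i : ZMod N) (S.a c i k : ZMod N)) *
                        ∏ i, cc i (x + (S.a c i k : ZMod N))) := by
                    rw [← Finset.prod_mul_distrib, ← Finset.prod_mul_distrib]
                    refine Finset.prod_congr rfl fun i _ => ?_
                    rw [ch_eq45, ch_add]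
                    ring
                  rw [h1]
                  ring
                -- asymptotics
                have hT0 : 0 < S.D ^ (1 - x0) := Real.rpow_pos_of_pos hDpos _
                have hTpos : (0 : ℝ) < S.T := hT0.trans_le hgood.T1
                have hT1 : 1 ≤ S.T := by exact_mod_cast hTpos
                exact by
                  have hbig : 4 * A0 ≤ S.D ^ (ε / 4) := by
                    have h1 : (4 * A0) ^ (4 / ε) ≤ S.D := (le_max_right _ _).trans hD
                    calc 4 * A0 = ((4 * A0) ^ (4 / ε)) ^ (ε / 4) := by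
                          rw [← Real.rpow_mul (by (clear * - hMc0; positivity))]
                          have : 4 / ε * (ε / 4) = 1 := by field_simp
                          rw [this, Real.rpow_one]
                      _ ≤ S.D ^ (ε / 4) := Real.rpow_le_rpow (by (clear * - hMc0; positivity)) h1 (by positivity)
                  have hsmall : 2 * A0 * S.D ^ (-(ε / 2)) ≤ δ ^ C / 2 := by
                    have h1 : S.D ^ (-(ε / 2)) = S.D ^ (-(ε / 4)) * S.D ^ (-(ε / 4)) := by
                      rw [← Real.rpow_add hDpos]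
                      congr 1
                      ring
                    have h2 : 4 * A0 * S.D ^ (-(ε / 4)) ≤ 1 := by
                      rw [Real.rpow_neg hDpos.le, mul_inv_le_iff₀ (Real.rpow_pos_of_pos hDpos _), one_mul]
                      exact hbig
                    calc 2 * A0 * S.D ^ (-(ε / 2)) = (4 * A0 * S.D ^ (-(ε / 4))) * S.D ^ (-(ε / 4)) / 2 := by
                          rw [h1]; ring
                      _ ≤ 1 * δ ^ C / 2 := by
                          (clear * - h2 hDε hD4; gcongr)
                      _ = δ ^ C / 2 := by ring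
                  -- first error: shifts
                  set η' := S.D ^ (-(ε / 2)) with hη'
                  have hη'0 : 0 < η' := Real.rpow_pos_of_pos hDpos _
                  have hKT : 2 * ((q : ℝ) * K) / S.T ≤ 2 * η' := by
                    rw [div_le_iff₀ hTpos]
                    have h1 : S.D ^ (-(3 * ε / 4)) * S.D ≤ η' * S.D ^ (1 - x0) := by
                      rw [hη', ← Real.rpow_add hDpos, ← Real.rpow_add_one hDpos.ne']
                      exact Real.rpow_le_rpow_of_exponent_le hD1 (by (clear * - hx0b; linarith))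
                    have h2 := mul_le_mul_of_nonneg_left hgood.T1 hη'0.le
                    (clear * - hqK h1 h2; nlinarith [hqK])
                  -- second error: variation of `V`
                  have hVd : ∀ k ∈ S.I, ∀ j : ℕ, j < K →
                      ‖V (k + q * j) - V k‖ ≤ (m + 1) * (4 * (Mc c + 1)) * η' := by
                    intro k hk j hj
                    have hjK : (j : ℝ) ≤ K := by exact_mod_cast hj.le
                    have hqj : ((q * j : ℕ) : ℝ) ≤ q * K := by
                      push_cast
                      (clear * - hjK hq1; gcongr)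
                    have hjD : ((q * j : ℕ) : ℝ) ≤ S.D := hqj.trans hqKD
                    have hterm : ∀ i, |((S.a c i (k + q * j) - S.a c i k : ℤ) : ℝ)| * S.D ^ (ε / 4) / S.P i ≤
                        4 * (Mc c + 1) * η' := by
                      intro i
                      have h1 := a_diff hgood hc0 hD1 hk hjD (fun i => (hP0 i).le) i
                      rw [div_le_iff₀ (hP0 i)]
                      have h3 : ((q * j : ℕ) : ℝ) / S.D ≤ S.D ^ (-(3 * ε / 4)) := by
                        rw [div_le_iff₀ hDpos]
                        exact hqj.trans hqK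
                      have h4 : S.D ^ (-(3 * ε / 4)) * S.D ^ (ε / 4) = η' := by
                        rw [hη', ← Real.rpow_add hDpos]
                        congr 1
                        ring
                      have h5 : S.D ^ (ε / 4) ≤ S.P i * η' := by
                        calc S.D ^ (ε / 4) ≤ S.D ^ (2 - ε / 2) :=
                              Real.rpow_le_rpow_of_exponent_le hD1 (by (clear * - hε1 hx0 hx0b; linarith))
                          _ = S.D ^ (2 : ℝ) * η' := by rw [hη', ← Real.rpow_add hDpos]; congr 1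
                          _ ≤ S.P i * η' := mul_le_mul_of_nonneg_right (hP i) hη'0.le
                      have hpos : 0 < S.D ^ (ε / 4) := Real.rpow_pos_of_pos hDpos _
                      calc |((S.a c i (k + q * j) - S.a c i k : ℤ) : ℝ)| * S.D ^ (ε / 4)
                          ≤ (S.P i * (Mc c * (((q * j : ℕ) : ℝ) / S.D)) + 1) * S.D ^ (ε / 4) := by (clear * - h1 hD4; gcongr)
                        _ ≤ (S.P i * (Mc c * S.D ^ (-(3 * ε / 4))) + 1) * S.D ^ (ε / 4) := by
                            have := (hP0 i).le
                            (clear * - h3 hMc0 this hD4; gcongr)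
                        _ = S.P i * Mc c * (S.D ^ (-(3 * ε / 4)) * S.D ^ (ε / 4)) + S.D ^ (ε / 4) := by ring
                        _ ≤ S.P i * Mc c * η' + S.P i * η' := by rw [h4]; (clear * - h5; linarith)
                        _ ≤ 4 * (Mc c + 1) * η' * S.P i := by
                            have : 0 ≤ S.P i * (Mc c + 1) * η' := by
                              have := (hP0 i).le
                              (clear * - this hMc0 hD4; positivity)
                            (clear * - this; nlinarith)
                    have hdiff : V (k + q * j) - V k = 𝔼 x : ZMod N, g0 x *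
                        (∏ i, cc i (x + (S.a c i (k + q * j) : ZMod N)) - ∏ i, cc i (x + (S.a c i k : ZMod N))) := by
                      rw [hV]
                      change 𝔼 x : ZMod N, g0 x * ∏ i, cc i (x + (S.a c i (k + q * j) : ZMod N)) -
                        𝔼 x : ZMod N, g0 x * ∏ i, cc i (x + (S.a c i k : ZMod N)) = _
                      rw [← Finset.expect_sub_distrib]
                      exact Finset.expect_congr rfl fun x _ => by ring
                    rw [hdiff]
                    refine (norm_expect_le' _ _).trans ?_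
                    calc 𝔼 x : ZMod N, ‖g0 x * (∏ i, cc i (x + (S.a c i (k + q * j) : ZMod N)) -
                          ∏ i, cc i (x + (S.a c i k : ZMod N)))‖
                        ≤ 𝔼 _x : ZMod N, ((m + 1) * (4 * (Mc c + 1)) * η' : ℝ) := by
                          refine Finset.expect_le_expect fun x _ => ?_
                          rw [norm_mul]
                          refine (mul_le_of_le_one_left (norm_nonneg _) (hg0b x)).trans ?_
                          refine (prod_sub_prod univ (fun i _ => hccb i _) (fun i _ => hccb i _)).trans ?_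
                          calc ∑ i, ‖cc i (x + (S.a c i (k + q * j) : ZMod N)) - cc i (x + (S.a c i k : ZMod N))‖
                              ≤ ∑ _i : Fin (m + 1), 4 * (Mc c + 1) * η' := by
                                refine Finset.sum_le_sum fun i _ => ?_
                                obtain ⟨t, ht⟩ := stp_dvd45 hG hDpos q j k i
                                have h7 := (hbc i).2.2.2 (x + (S.a c i k : ZMod N)) t
                                rw [← ht] at h7
                                have h8 : x + (S.a c i k : ZMod N) +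
                                    ((S.a c i (k + q * j) - S.a c i k : ℤ) : ZMod N) =
                                    x + (S.a c i (k + q * j) : ZMod N) := by
                                  push_cast
                                  ring
                                rw [h8] at h7
                                refine h7.trans (le_trans (le_of_eq ?_) (hterm i))
                                have h9 : ((S.a c i (k + q * j) - S.a c i k : ℤ) : ℝ) =
                                    (stp S.Q q (c i) : ℝ) * t := by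
                                  rw [ht]; push_cast; ring
                                rw [h9, abs_mul, abs_of_nonneg (Nat.cast_nonneg (stp S.Q q (c i)) :
                                  (0 : ℝ) ≤ (stp S.Q q (c i) : ℝ))]
                                ring
                            _ = (m + 1) * (4 * (Mc c + 1)) * η' := by
                                rw [Finset.sum_const, Finset.card_univ, Fintype.card_fin, nsmul_eq_mul]
                                push_cast
                                ring
                      _ = _ := Finset.expect_const Finset.univ_nonempty _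
                  -- third error: integer parts
                  have hEd : ∀ k, ‖E k - hw k * e (∑ i, (b i : ℝ) / N * S.P i * (S.t k) ^ (c i))‖ ≤
                      8 * (m + 1) * η' := by
                    intro k
                    have h1 : E k = hw k * e (∑ i, (b i : ℝ) / N * (S.a c i k : ℝ)) := by
                      change hw k * ∏ i, ch (b i : ZMod N) (S.a c i k : ZMod N) = _
                      rw [e_sum]
                      congr 1
                      exact Finset.prod_congr rfl fun i _ => ch_int45 _ _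
                    rw [h1, ← mul_sub, norm_mul]
                    refine (mul_le_of_le_one_left (norm_nonneg _) (hh k)).trans ?_
                    refine (norm_e_sub_e_le _ _).trans ?_
                    rw [← Finset.sum_sub_distrib]
                    have h2 : |∑ i, ((b i : ℝ) / N * (S.a c i k : ℝ) - (b i : ℝ) / N * S.P i * (S.t k) ^ (c i))| ≤
                        (m + 1) * η' := by
                      refine (Finset.abs_sum_le_sum_abs _ _).trans ?_
                      calc ∑ i, |(b i : ℝ) / N * (S.a c i k : ℝ) - (b i : ℝ) / N * S.P i * (S.t k) ^ (c i)|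
                          ≤ ∑ _i : Fin (m + 1), η' := by
                            refine Finset.sum_le_sum fun i _ => ?_
                            rw [mul_assoc, ← mul_sub, abs_mul]
                            have h3 : |(S.a c i k : ℝ) - S.P i * (S.t k) ^ (c i)| ≤ 1 := by
                              have h4 := Int.floor_le (S.P i * (S.t k) ^ (c i))
                              have h5 := Int.lt_floor_add_one (S.P i * (S.t k) ^ (c i))
                              unfold Sys.a
                              rw [abs_le]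
                              constructor <;> (clear * - h5 hε1 hx0 hx0b h4; linarith)
                            refine (mul_le_of_le_one_right (abs_nonneg _) h3).trans ((hbc i).1.trans ?_)
                            rw [div_le_iff₀ hQ0]
                            calc δ⁻¹ ^ C0 ≤ S.D ^ (ε / 4) := hCC.trans hDinv
                              _ ≤ η' * S.D ^ (2 : ℝ) := by
                                rw [hη', ← Real.rpow_add hDpos]
                                exact Real.rpow_le_rpow_of_exponent_le hD1 (by (clear * - hε1 hx0 hx0b; linarith))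
                              _ ≤ η' * S.Q := mul_le_mul_of_nonneg_left hQD hη'0.le
                        _ = (m + 1) * η' := by
                            rw [Finset.sum_const, Finset.card_univ, Fintype.card_fin, nsmul_eq_mul]
                            push_cast
                            ring
                    have h6 : 2 * Real.pi ≤ 8 := by (clear * -; linarith [Real.pi_le_four])
                    calc 2 * Real.pi * |∑ i, ((b i : ℝ) / N * (S.a c i k : ℝ) -
                          (b i : ℝ) / N * S.P i * (S.t k) ^ (c i))|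
                        ≤ 8 * ((m + 1) * η') := mul_le_mul h6 h2 (abs_nonneg _) (by norm_num)
                      _ = _ := by ring
                  -- conclusion
                  exact by
                    have hI : S.I.Nonempty := by
                      rw [Sys.I, Finset.nonempty_Ico]
                      (clear * - C0 q K hT1; omega)
                    have hKne : (range K).Nonempty := Finset.nonempty_range_iff.mpr (by omega)
                    have hGb : ∀ k, ‖E k * V k‖ ≤ 1 := fun k => by
                      rw [norm_mul]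
                      exact mul_le_one₀ (hEb k) (norm_nonneg _) (hVb k)
                    have e1 : ‖𝔼 k ∈ S.I, E k * V k -
                        𝔼 j ∈ range K, 𝔼 k ∈ S.I, E (k + q * j) * V (k + q * j)‖ ≤ 2 * η' := by
                      have h1 : 𝔼 k ∈ S.I, E k * V k - 𝔼 j ∈ range K, 𝔼 k ∈ S.I, E (k + q * j) * V (k + q * j) =
                          𝔼 j ∈ range K, (𝔼 k ∈ S.I, E k * V k - 𝔼 k ∈ S.I, E (k + q * j) * V (k + q * j)) := by
                        rw [Finset.expect_sub_distrib, Finset.expect_const hKne]
                      rw [h1]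
                      refine (norm_expect_le' _ _).trans ?_
                      calc 𝔼 j ∈ range K, ‖𝔼 k ∈ S.I, E k * V k - 𝔼 k ∈ S.I, E (k + q * j) * V (k + q * j)‖
                          ≤ 𝔼 _j ∈ range K, 2 * η' := by
                            refine Finset.expect_le_expect fun j hj => ?_
                            have h2 := shift_expect hGb S.u S.T (q * j) hT1
                            refine h2.trans (le_trans ?_ hKT)
                            have h3 : (j : ℝ) ≤ K := by exact_mod_cast (Finset.mem_range.mp hj).le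
                            push_cast
                            (clear * - h3 hq1 hT1; gcongr)
                        _ = 2 * η' := Finset.expect_const hKne _
                    have e2 : ‖𝔼 j ∈ range K, 𝔼 k ∈ S.I, E (k + q * j) * V (k + q * j) -
                        𝔼 j ∈ range K, 𝔼 k ∈ S.I, E (k + q * j) * V k‖ ≤ (m + 1) * (4 * (Mc c + 1)) * η' := by
                      rw [← Finset.expect_sub_distrib]
                      refine (norm_expect_le' _ _).trans ?_
                      calc 𝔼 j ∈ range K, ‖𝔼 k ∈ S.I, E (k + q * j) * V (k + q * j) -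
                            𝔼 k ∈ S.I, E (k + q * j) * V k‖
                          ≤ 𝔼 _j ∈ range K, ((m + 1) * (4 * (Mc c + 1)) * η' : ℝ) := by
                            refine Finset.expect_le_expect fun j hj => ?_
                            rw [← Finset.expect_sub_distrib]
                            refine (norm_expect_le' _ _).trans ?_
                            calc 𝔼 k ∈ S.I, ‖E (k + q * j) * V (k + q * j) - E (k + q * j) * V k‖
                                ≤ 𝔼 _k ∈ S.I, ((m + 1) * (4 * (Mc c + 1)) * η' : ℝ) := by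
                                  refine Finset.expect_le_expect fun k hk => ?_
                                  rw [← mul_sub, norm_mul]
                                  exact (mul_le_of_le_one_left (norm_nonneg _) (hEb _)).trans
                                    (hVd k hk j (Finset.mem_range.mp hj))
                              _ = _ := Finset.expect_const hI _
                        _ = _ := Finset.expect_const hKne _
                    have e3 : ‖𝔼 j ∈ range K, 𝔼 k ∈ S.I, E (k + q * j) * V k‖ ≤
                        𝔼 k ∈ S.I, ‖𝔼 j ∈ range K, E (k + q * j)‖ := by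
                      rw [Finset.expect_comm]
                      refine (norm_expect_le' _ _).trans (Finset.expect_le_expect fun k _ => ?_)
                      rw [← Finset.expect_mul, norm_mul]
                      exact mul_le_of_le_one_right (norm_nonneg _) (hVb k)
                    exact by
                      have e4 : 𝔼 k ∈ S.I, ‖𝔼 j ∈ range K, E (k + q * j)‖ ≤
                          𝔼 k ∈ S.I, ‖𝔼 j ∈ range K, hw (k + q * j) *
                            e (∑ i, (b i : ℝ) / N * S.P i * (S.t (k + q * j)) ^ (c i))‖ + 8 * (m + 1) * η' := by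
                        rw [← Finset.expect_const hI (8 * (m + 1) * η' : ℝ), ← Finset.expect_add_distrib]
                        refine Finset.expect_le_expect fun k _ => ?_
                        have h1 : 𝔼 j ∈ range K, E (k + q * j) = 𝔼 j ∈ range K, hw (k + q * j) *
                            e (∑ i, (b i : ℝ) / N * S.P i * (S.t (k + q * j)) ^ (c i)) +
                            𝔼 j ∈ range K, (E (k + q * j) - hw (k + q * j) *
                              e (∑ i, (b i : ℝ) / N * S.P i * (S.t (k + q * j)) ^ (c i))) := by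
                          rw [← Finset.expect_add_distrib]
                          exact Finset.expect_congr rfl fun j _ => by ring
                        rw [h1]
                        refine (norm_add_le _ _).trans (add_le_add le_rfl ?_)
                        refine (norm_expect_le' _ _).trans ?_
                        calc 𝔼 j ∈ range K, ‖E (k + q * j) - hw (k + q * j) *
                              e (∑ i, (b i : ℝ) / N * S.P i * (S.t (k + q * j)) ^ (c i))‖
                            ≤ 𝔼 _j ∈ range K, (8 * (m + 1) * η' : ℝ) := Finset.expect_le_expect fun j _ => hEd _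
                          _ = _ := Finset.expect_const hKne _
                      have hfin : δ ^ C / 2 ≤ 𝔼 k ∈ S.I, ‖𝔼 j ∈ range K, hw (k + q * j) *
                            e (∑ i, (b i : ℝ) / N * S.P i * (S.t (k + q * j)) ^ (c i))‖ := by
                        have h1 : ‖𝔼 k ∈ S.I, E k * V k‖ ≤ 2 * η' + (m + 1) * (4 * (Mc c + 1)) * η' +
                            ‖𝔼 j ∈ range K, 𝔼 k ∈ S.I, E (k + q * j) * V k‖ := by
                          have h2 : 𝔼 k ∈ S.I, E k * V k =
                              (𝔼 k ∈ S.I, E k * V k - 𝔼 j ∈ range K, 𝔼 k ∈ S.I, E (k + q * j) * V (k + q * j)) +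
                              (𝔼 j ∈ range K, 𝔼 k ∈ S.I, E (k + q * j) * V (k + q * j) -
                                𝔼 j ∈ range K, 𝔼 k ∈ S.I, E (k + q * j) * V k) +
                              𝔼 j ∈ range K, 𝔼 k ∈ S.I, E (k + q * j) * V k := by ring
                          calc ‖𝔼 k ∈ S.I, E k * V k‖ = _ := congrArg norm h2
                            _ ≤ _ := (norm_add₃_le).trans (by (clear * - e1 e2; linarith))
                        rw [← hdec] at h1
                        have h3 : 2 * η' + (m + 1) * (4 * (Mc c + 1)) * η' + 8 * (m + 1) * η' ≤ 2 * A0 * η' := by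
                          have h4 : (0 : ℝ) ≤ m := Nat.cast_nonneg _
                          have h5 : 2 + (m + 1) * (4 * (Mc c + 1)) + 8 * (m + 1) ≤ 2 * A0 := by
                            rw [hA0]
                            (clear * - hε1 hx0 hx0b hMc0 h4; nlinarith [mul_nonneg h4 hMc0])
                          calc 2 * η' + (m + 1) * (4 * (Mc c + 1)) * η' + 8 * (m + 1) * η'
                              = (2 + (m + 1) * (4 * (Mc c + 1)) + 8 * (m + 1)) * η' := by ring
                            _ ≤ _ := mul_le_mul_of_nonneg_right h5 hη'0.le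
                        (clear * - hF' hCC' hsmall e3 e4 h1 h3; linarith)
                      refine le_trans ?_ hfin
                      calc δ ^ (C + 1) = δ ^ C * δ := pow_succ _ _
                        _ ≤ δ ^ C * (1 / 2) := mul_le_mul_of_nonneg_left hδ (by positivity)
                        _ = δ ^ C / 2 := by ring

end

end Pool.Agent.Helper67.NX2

end
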