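import Pool.Agent.Helper23.MC.L01_a0
import Pool.Agent.Helper23.MC.L01_a1
import Pool.Agent.Helper23.MC.L01_a12
import Pool.Agent.Helper23.MC.L01_a13
import Pool.Agent.Helper23.MC.L01_a2
import Pool.Agent.Helper23.MC.L01_a5
import Pool.Agent.Helper23.MC.L01_a8
import Pool.Agent.Helper23.MC.L01_a9

/-!
Parts of Helper5.NX.Basic, Helper67.NX.TopStepAux, Helper41.NX2.TopStep, Helper52.NX2.ArTopAux, Helper52.NX2.ArTop, Helper15.NX2.DaggerOf, Helper15.NX2.TopArithOf
-/

attribute [local instance 5000]
  Pool.Agent.Helper23.MC.Inst.rCharZero Pool.Agent.Helper23.MC.Inst.rALM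
  Pool.Agent.Helper23.MC.Inst.rARM Pool.Agent.Helper23.MC.Inst.rALSM
  Pool.Agent.Helper23.MC.Inst.rARSM Pool.Agent.Helper23.MC.Inst.rARRLE
  Pool.Agent.Helper23.MC.Inst.rALRLE Pool.Agent.Helper23.MC.Inst.rARRLT
  Pool.Agent.Helper23.MC.Inst.rALRLT Pool.Agent.Helper23.MC.Inst.rPMRLT
  Pool.Agent.Helper23.MC.Inst.rMPRLT Pool.Agent.Helper23.MC.Inst.rPMM
  Pool.Agent.Helper23.MC.Inst.rMPM Pool.Agent.Helper23.MC.Inst.rPMSM
  Pool.Agent.Helper23.MC.Inst.rMPSM Pool.Agent.Helper23.MC.Inst.rEAOL
  Pool.Agent.Helper23.MC.Inst.rIOR Pool.Agent.Helper23.MC.Inst.rISOR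
  Pool.Agent.Helper23.MC.Inst.rNZD Pool.Agent.Helper23.MC.Inst.rcCharZero
  Pool.Agent.Helper23.MC.Inst.rcNZD Pool.Agent.Helper23.MC.Inst.zCharZero
  Pool.Agent.Helper23.MC.Inst.zALM Pool.Agent.Helper23.MC.Inst.zARM
  Pool.Agent.Helper23.MC.Inst.zALSM Pool.Agent.Helper23.MC.Inst.zARSM
  Pool.Agent.Helper23.MC.Inst.zIOR Pool.Agent.Helper23.MC.Inst.zISOR
  Pool.Agent.Helper23.MC.Inst.zNZD Pool.Agent.Helper23.MC.Inst.qCharZero
  Pool.Agent.Helper23.MC.Inst.mR Pool.Agent.Helper23.MC.Inst.mC Pool.Agent.Helper23.MC.Inst.mRC
  Pool.Agent.Helper23.MC.Inst.rPSM Pool.Agent.Helper23.MC.Inst.rCSM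
  Pool.Agent.Helper23.MC.Inst.cAdd Pool.Agent.Helper23.MC.Inst.cAddM
  Pool.Agent.Helper23.MC.Inst.cMul Pool.Agent.Helper23.MC.Inst.cMon

namespace Pool.Agent.Helper57.NX
end Pool.Agent.Helper57.NX

section

set_option autoImplicit false

open Finset

open scoped BigOperators ComplexConjugate

namespace Pool.Agent.Helper57.NX

noncomputable section

section Basic

variable {N : ℕ} [NeZero N]

theorem TV.l1_sub_Ab {B X : ℝ} {f : ZMod N → ℂ} (h : TV B X f) (hX : 0 < X) (L : ℕ) (hL : 1 ≤ L) :
    𝔼 x, ‖f x - Ab L f x‖ ≤ L * B * (1 / X + 1 / N) := by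
  have hB := h.nonneg
  have h1 : ∀ x, ‖f x - Ab L f x‖ ≤ 𝔼 a ∈ range L, ‖f (x + ((-(a : ℤ) : ℤ) : ZMod N)) - f x‖ := by
    intro x
    have h2 : f x - Ab L f x = 𝔼 a ∈ range L, (f x - f (x + ((-(a : ℤ) : ℤ) : ZMod N))) := by
      rw [expect_sub_distrib, expect_const (nonempty_range_iff.2 (by omega))]
      simp [Ab, sub_eq_add_neg]
    rw [h2]
    refine (norm_expect_le5 _ _).trans (le_of_eq (expect_congr rfl fun a _ => norm_sub_rev _ _))
  refine (expect_le_expect fun x _ => h1 x).trans ?_
  rw [expect_comm]
  refine expect_le_of5 _ _ (by (clear * - hL hB hX; positivity)) fun a ha => ?_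
  refine (h.l1_shift hX (-(a : ℤ))).trans ?_
  have h3 : (a : ℝ) ≤ L := by exact_mod_cast (mem_range.1 ha).le
  rw [Int.cast_neg, Int.cast_natCast, abs_neg, Nat.abs_cast, mul_assoc, mul_assoc]
  exact mul_le_mul_of_nonneg_right h3 (by (clear * - hB hX; positivity))

end Basic

end

end Pool.Agent.Helper57.NX

end

section

set_option autoImplicit false

open Finset

open scoped BigOperators ComplexConjugate

namespace Pool.Agent.Helper57.NX

noncomputable section

/-- correlation of a function with small averages with a function of bounded variation -/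
theorem small67 {N : ℕ} [NeZero N] (u G : ZMod N → ℂ) (hu : ∀ x, ‖u x‖ ≤ 1) (B X : ℝ)
    (hX : 0 < X) (hG : Adm B X G) (L : ℕ) (hL : 1 ≤ L) (η : ℝ) (hη : 0 ≤ η)
    (h : ∀ x, ‖A L u x‖ ≤ η) :
    ‖𝔼 x, u x * G x‖ ≤ L * B * (1 / X + 1 / N) + η := by
  have e1 : 𝔼 x, u x * G x = 𝔼 x, u x * (G x - Ab L G x) + 𝔼 x, A L u x * G x := by
    rw [adj_A, ← expect_add_distrib]
    exact expect_congr rfl fun x _ => by ring
  rw [e1]
  refine (norm_add_le _ _).trans (add_le_add ?_ ?_)
  · refine le_trans ?_ (hG.tv.l1_sub_Ab hX L hL)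
    refine (norm_expect_le5 _ _).trans (expect_le_expect fun x _ => ?_)
    rw [norm_mul]
    exact mul_le_of_le_one_left (norm_nonneg _) (hu x)
  · refine norm_expect_le_of5 _ _ hη fun x _ => ?_
    rw [norm_mul]
    exact (mul_le_of_le_one_right (norm_nonneg _) (hG.bdd x)).trans (h x)

theorem endgame67 {N : ℕ} [NeZero N] (u : ZMod N → ℂ) (δ : ℝ) (hδp : 0 < δ)
    (hδ1 : δ ≤ 1 / 2) (hu1 : ∀ x, ‖u x‖ ≤ 1) (n4 r G n5 : ℕ) (hn5 : n5 = G + n4 + 7) (X2 : ℕ)
    (hX21' : 1 ≤ X2) (hX2N : X2 ≤ N) (r' : ZMod N) (cc : ℕ → ℂ) (φ : ℕ → ℝ)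
    (hcc : ∀ j, ‖cc j‖ ≤ 1) (p : ℕ → Prop) [DecidablePred p]
    (hp : p = fun j => δ⁻¹ ^ G / X2 ≤ |φ j|)
    (hbig : ‖𝔼 x, u x * bphase X2 r' (fun j => if p j then cc j else 0) φ x‖ ≤ δ ^ (n4 + r + 2))
    (hcor : δ ^ n4 ≤ ‖𝔼 x, u x * bphase X2 r' cc φ x‖) (L' : ℕ)
    (huA : ∀ L : ℕ, 1 ≤ L → ∀ x, ‖A L u x‖ ≤ L' / L) (hx4 : 1 ≤ δ ^ n5 * (X2 : ℝ)) :
    δ ^ (n4 + 2) * (δ ^ n5 * X2) ≤ L' := by
  have hδ1' : δ ≤ 1 := by (clear * - hδp hδ1; linarith)
  have h2inv : (2 : ℝ) ≤ δ⁻¹ := by
    rw [le_inv_comm₀ (by norm_num) hδp]; (clear * - hδ1; linarith)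
  have hX20 : (0 : ℝ) < X2 := by exact_mod_cast hX21'
  have hX2N' : (X2 : ℝ) ≤ N := by exact_mod_cast hX2N
  -- the part with small frequencies
  have hinvG : (0 : ℝ) < δ⁻¹ ^ G := by (clear * - hδp; positivity)
  have hsmallAdm : Adm (δ⁻¹ ^ (G + 4)) X2
      (bphase X2 r' (fun j => if p j then 0 else cc j) φ) := by
    have hccs : ∀ j, ‖(if p j then (0 : ℂ) else cc j)‖ ≤ 1 := by
      intro j
      split_ifs
      · simp
      · exact hcc j
    have h1 := bphase_adm67 X2 hX21' hX2N r' (fun j => if p j then 0 else cc j) φ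
      (δ⁻¹ ^ G / X2) (by (clear * - hδp hX21'; positivity)) hccs
      (fun j hj => by
        by_contra h
        apply hj
        have h2 : p j := by
          rw [hp]
          exact (not_le.1 h).le
        simp only [h2, if_true])
    refine h1.mono ?_ hX20 le_rfl
    have h2 : 2 * Real.pi * (δ⁻¹ ^ G / X2) * X2 = 2 * Real.pi * δ⁻¹ ^ G := by
      (clear * - hX21' hδp; field_simp)
    rw [h2]
    have h3 : Real.pi < 3.15 := Real.pi_lt_d2
    have h4 : (1 : ℝ) ≤ δ⁻¹ ^ G := one_le_pow₀ (by (clear * - hδp hδ1 h2inv; linarith))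
    have h5 : (16 : ℝ) ≤ δ⁻¹ ^ 4 := by
      calc (16 : ℝ) = 2 ^ 4 := by norm_num
        _ ≤ δ⁻¹ ^ 4 := pow_le_pow_left₀ (by norm_num) h2inv 4
    have h6 : δ⁻¹ ^ (G + 4) = δ⁻¹ ^ 4 * δ⁻¹ ^ G := by rw [add_comm, pow_add]
    rw [h6]
    (clear * - hδ1 h4 hδp hinvG h3 h5; nlinarith)
  exact by
    obtain ⟨X3, hX3def⟩ : ∃ X3 : ℕ, X3 = ⌊δ ^ n5 * (X2 : ℝ)⌋₊ := ⟨_, rfl⟩
    have hX31 : 1 ≤ X3 := by rw [hX3def]; exact (floor_facts _ hx4).1
    have hX32 : (X3 : ℝ) ≤ δ ^ n5 * X2 := by rw [hX3def]; exact (floor_facts _ hx4).2.1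
    have hX33 : δ ^ n5 * X2 / 2 ≤ X3 := by rw [hX3def]; exact (floor_facts _ hx4).2.2
    have hX30 : (0 : ℝ) < X3 := by exact_mod_cast hX31
    have hsmall := small67 u _ hu1 _ X2 hX20 hsmallAdm X3 hX31 (L' / X3) (by (clear * - hX31; positivity))
      (huA X3 hX31)
    have hs1 : (X3 : ℝ) * δ⁻¹ ^ (G + 4) * (1 / X2 + 1 / N) ≤ 2 * δ ^ (n4 + 3) := by
      have h7 : (1 : ℝ) / X2 + 1 / N ≤ 2 / X2 := by
        have : (1 : ℝ) / N ≤ 1 / X2 := one_div_le_one_div_of_le hX20 hX2N'
        have e2 : (2 : ℝ) / X2 = 1 / X2 + 1 / X2 := by ring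
        (clear * - this e2; linarith)
      have e3 : δ ^ n5 = δ ^ (n4 + 3) * δ ^ (G + 4) := by
        rw [← pow_add]
        congr 1
        (clear * - N δ hn5 X2 X3; omega)
      calc (X3 : ℝ) * δ⁻¹ ^ (G + 4) * (1 / X2 + 1 / N) ≤
            (δ ^ n5 * X2) * δ⁻¹ ^ (G + 4) * (2 / X2) := by (clear * - hX32 hδp h7 hX21'; gcongr)
        _ = 2 * δ ^ (n4 + 3) * (δ ^ (G + 4) * δ⁻¹ ^ (G + 4)) * (X2 / X2) := by
            rw [e3]
            ring
        _ = 2 * δ ^ (n4 + 3) := by
            rw [← mul_pow, mul_inv_cancel₀ hδp.ne', one_pow, div_self hX20.ne', mul_one, mul_one]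
    -- total
    exact by
      have htot : δ ^ n4 ≤ δ ^ (n4 + r + 2) + (2 * δ ^ (n4 + 3) + L' / X3) := by
        refine hcor.trans ?_
        have e1 : 𝔼 x, u x * bphase X2 r' cc φ x =
            𝔼 x, u x * bphase X2 r' (fun j => if p j then cc j else 0) φ x +
            𝔼 x, u x * bphase X2 r' (fun j => if p j then 0 else cc j) φ x := by
          rw [← expect_add_distrib]
          refine expect_congr rfl fun x _ => ?_
          rw [bphase_split67 X2 r' cc φ p x]
          ring
        rw [e1]
        refine (norm_add_le _ _).trans (add_le_add hbig (hsmall.trans ?_))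
        (clear * - hs1; linarith)
      have hq1 : δ ^ (n4 + r + 2) ≤ δ ^ n4 / 4 := by
        have h1 : δ ^ (n4 + r + 2) ≤ δ ^ (n4 + 2) := pow_le_pow_of_le_one hδp.le hδ1' (by omega)
        have h2 : δ ^ (n4 + 2) = δ ^ n4 * δ ^ 2 := pow_add _ _ _
        have h3 : δ ^ 2 ≤ 1 / 4 := by (clear * - hδ1 hδp; nlinarith)
        have h4 : 0 < δ ^ n4 := by (clear * - hδp; positivity)
        (clear * - h1 h2 hδp hδ1 h3 h4; nlinarith)
      have hq2 : 2 * δ ^ (n4 + 3) ≤ δ ^ n4 / 4 := by
        have h2 : δ ^ (n4 + 3) = δ ^ n4 * δ ^ 3 := pow_add _ _ _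
        have h3 : δ ^ 3 ≤ (1 / 2) ^ 3 := pow_le_pow_left₀ hδp.le hδ1 3
        have h4 : 0 < δ ^ n4 := by positivity
        (clear * - h2 hδp hδ1 h3 h4; nlinarith)
      have hq3 : δ ^ n4 / 2 ≤ L' / X3 := by (clear * - htot hq1 hq2; linarith)
      rw [le_div_iff₀ hX30] at hq3
      have hq4 : δ ^ (n4 + 2) * (δ ^ n5 * X2) ≤ δ ^ n4 / 2 * X3 := by
        have h2 : δ ^ (n4 + 2) = δ ^ n4 * δ ^ 2 := pow_add _ _ _
        have h3 : δ ^ 2 ≤ 1 / 4 := by (clear * - hδ1 hδp; nlinarith)
        have h4 : 0 < δ ^ n4 := by positivity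
        have h5 : 0 < δ ^ n5 * X2 := by (clear * - hδp hX21'; positivity)
        calc δ ^ (n4 + 2) * (δ ^ n5 * X2) = δ ^ n4 * (δ ^ 2 * (δ ^ n5 * X2)) := by rw [h2]; ring
          _ ≤ δ ^ n4 * (1 / 4 * (δ ^ n5 * X2)) := by gcongr
          _ = δ ^ n4 / 2 * (δ ^ n5 * X2 / 2) := by ring
          _ ≤ δ ^ n4 / 2 * X3 := by (clear * - hX33 hδp; gcongr)
      (clear * - hq3 hq4; linarith)

end

end Pool.Agent.Helper57.NX

end

section

set_option autoImplicit false

open Finset

open scoped BigOperators ComplexConjugate

namespace Pool.Agent.Helper67.NX2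

open Pool.Agent.Helper57.NX

noncomputable section

theorem endgame67 {N : ℕ} [NeZero N] (u : ZMod N → ℂ) (δ : ℝ) (hδp : 0 < δ)
    (hδ1 : δ ≤ 1 / 2) (hu1 : ∀ x, ‖u x‖ ≤ 1) (n4 r G n5 : ℕ) (hn5 : n5 = G + n4 + 7) (X2 : ℕ)
    (hX21' : 1 ≤ X2) (hX2N : X2 ≤ N) (r' : ZMod N) (cc : ℕ → ℂ) (φ : ℕ → ℝ)
    (hcc : ∀ j, ‖cc j‖ ≤ 1) (p : ℕ → Prop) [DecidablePred p]
    (hp : p = fun j => δ⁻¹ ^ G / X2 ≤ |φ j|)
    (hbig : ‖𝔼 x, u x * bphase X2 r' (fun j => if p j then cc j else 0) φ x‖ ≤ δ ^ (n4 + r + 2))
    (hcor : δ ^ n4 ≤ ‖𝔼 x, u x * bphase X2 r' cc φ x‖) (L' : ℕ)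
    (huA : ∀ L : ℕ, 1 ≤ L → ∀ x, ‖A L u x‖ ≤ L' / L) (hx4 : 1 ≤ δ ^ n5 * (X2 : ℝ)) :
    δ ^ (n4 + 2) * (δ ^ n5 * X2) ≤ L' := by
  have hδ1' : δ ≤ 1 := by (clear * - hδp hδ1; linarith)
  have h2inv : (2 : ℝ) ≤ δ⁻¹ := by
    rw [le_inv_comm₀ (by norm_num) hδp]; (clear * - hδ1; linarith)
  have hX20 : (0 : ℝ) < X2 := by exact_mod_cast hX21'
  have hX2N' : (X2 : ℝ) ≤ N := by exact_mod_cast hX2N
  -- the part with small frequencies
  have hinvG : (0 : ℝ) < δ⁻¹ ^ G := by positivity
  have hsmallAdm : Adm (δ⁻¹ ^ (G + 4)) X2
      (bphase X2 r' (fun j => if p j then 0 else cc j) φ) := by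
    have hccs : ∀ j, ‖(if p j then (0 : ℂ) else cc j)‖ ≤ 1 := by
      intro j
      split_ifs
      · simp
      · exact hcc j
    have h1 := bphase_adm67 X2 hX21' hX2N r' (fun j => if p j then 0 else cc j) φ
      (δ⁻¹ ^ G / X2) (by (clear * - hδp hX21'; positivity)) hccs
      (fun j hj => by
        by_contra h
        apply hj
        have h2 : p j := by
          rw [hp]
          exact (not_le.1 h).le
        simp only [h2, if_true])
    refine h1.mono ?_ hX20 le_rfl
    have h2 : 2 * Real.pi * (δ⁻¹ ^ G / X2) * X2 = 2 * Real.pi * δ⁻¹ ^ G := by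
      (clear * - hX21' hδp; field_simp)
    rw [h2]
    have h3 : Real.pi < 3.15 := Real.pi_lt_d2
    have h4 : (1 : ℝ) ≤ δ⁻¹ ^ G := one_le_pow₀ (by (clear * - hδp hδ1 h2inv; linarith))
    have h5 : (16 : ℝ) ≤ δ⁻¹ ^ 4 := by
      calc (16 : ℝ) = 2 ^ 4 := by norm_num
        _ ≤ δ⁻¹ ^ 4 := pow_le_pow_left₀ (by norm_num) h2inv 4
    have h6 : δ⁻¹ ^ (G + 4) = δ⁻¹ ^ 4 * δ⁻¹ ^ G := by rw [add_comm, pow_add]
    rw [h6]
    (clear * - hδ1 h4 hδp hinvG h3 h5; nlinarith)
  exact by
    obtain ⟨X3, hX3def⟩ : ∃ X3 : ℕ, X3 = ⌊δ ^ n5 * (X2 : ℝ)⌋₊ := ⟨_, rfl⟩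
    have hX31 : 1 ≤ X3 := by rw [hX3def]; exact (floor_facts _ hx4).1
    have hX32 : (X3 : ℝ) ≤ δ ^ n5 * X2 := by rw [hX3def]; exact (floor_facts _ hx4).2.1
    have hX33 : δ ^ n5 * X2 / 2 ≤ X3 := by rw [hX3def]; exact (floor_facts _ hx4).2.2
    have hX30 : (0 : ℝ) < X3 := by exact_mod_cast hX31
    have hsmall := small67 u _ hu1 _ X2 hX20 hsmallAdm X3 hX31 (L' / X3) (by (clear * - hX31; positivity))
      (huA X3 hX31)
    have hs1 : (X3 : ℝ) * δ⁻¹ ^ (G + 4) * (1 / X2 + 1 / N) ≤ 2 * δ ^ (n4 + 3) := by
      have h7 : (1 : ℝ) / X2 + 1 / N ≤ 2 / X2 := by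
        have : (1 : ℝ) / N ≤ 1 / X2 := one_div_le_one_div_of_le hX20 hX2N'
        have e2 : (2 : ℝ) / X2 = 1 / X2 + 1 / X2 := by ring
        (clear * - this e2; linarith)
      have e3 : δ ^ n5 = δ ^ (n4 + 3) * δ ^ (G + 4) := by
        rw [← pow_add]
        congr 1
        omega
      calc (X3 : ℝ) * δ⁻¹ ^ (G + 4) * (1 / X2 + 1 / N) ≤
            (δ ^ n5 * X2) * δ⁻¹ ^ (G + 4) * (2 / X2) := by (clear * - hX32 hδp h7 hX21'; gcongr)
        _ = 2 * δ ^ (n4 + 3) * (δ ^ (G + 4) * δ⁻¹ ^ (G + 4)) * (X2 / X2) := by
            rw [e3]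
            ring
        _ = 2 * δ ^ (n4 + 3) := by
            rw [← mul_pow, mul_inv_cancel₀ hδp.ne', one_pow, div_self hX20.ne', mul_one, mul_one]
    -- total
    exact by
      have htot : δ ^ n4 ≤ δ ^ (n4 + r + 2) + (2 * δ ^ (n4 + 3) + L' / X3) := by
        refine hcor.trans ?_
        have e1 : 𝔼 x, u x * bphase X2 r' cc φ x =
            𝔼 x, u x * bphase X2 r' (fun j => if p j then cc j else 0) φ x +
            𝔼 x, u x * bphase X2 r' (fun j => if p j then 0 else cc j) φ x := by
          rw [← expect_add_distrib]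
          refine expect_congr rfl fun x _ => ?_
          rw [bphase_split67 X2 r' cc φ p x]
          ring
        rw [e1]
        refine (norm_add_le _ _).trans (add_le_add hbig (hsmall.trans ?_))
        (clear * - hs1; linarith)
      have hq1 : δ ^ (n4 + r + 2) ≤ δ ^ n4 / 4 := by
        have h1 : δ ^ (n4 + r + 2) ≤ δ ^ (n4 + 2) := pow_le_pow_of_le_one hδp.le hδ1' (by omega)
        have h2 : δ ^ (n4 + 2) = δ ^ n4 * δ ^ 2 := pow_add _ _ _
        have h3 : δ ^ 2 ≤ 1 / 4 := by (clear * - hδ1 hδp; nlinarith)
        have h4 : 0 < δ ^ n4 := by positivity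
        (clear * - h1 h2 hδp hδ1 h3 h4; nlinarith)
      have hq2 : 2 * δ ^ (n4 + 3) ≤ δ ^ n4 / 4 := by
        have h2 : δ ^ (n4 + 3) = δ ^ n4 * δ ^ 3 := pow_add _ _ _
        have h3 : δ ^ 3 ≤ (1 / 2) ^ 3 := pow_le_pow_left₀ hδp.le hδ1 3
        have h4 : 0 < δ ^ n4 := by (clear * - hδp; positivity)
        (clear * - h2 hδp hδ1 h3 h4; nlinarith)
      have hq3 : δ ^ n4 / 2 ≤ L' / X3 := by (clear * - htot hq1 hq2; linarith)
      rw [le_div_iff₀ hX30] at hq3
      have hq4 : δ ^ (n4 + 2) * (δ ^ n5 * X2) ≤ δ ^ n4 / 2 * X3 := by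
        have h2 : δ ^ (n4 + 2) = δ ^ n4 * δ ^ 2 := pow_add _ _ _
        have h3 : δ ^ 2 ≤ 1 / 4 := by (clear * - hδ1 hδp; nlinarith)
        have h4 : 0 < δ ^ n4 := by (clear * - hδp; positivity)
        have h5 : 0 < δ ^ n5 * X2 := by (clear * - hδp hX21'; positivity)
        calc δ ^ (n4 + 2) * (δ ^ n5 * X2) = δ ^ n4 * (δ ^ 2 * (δ ^ n5 * X2)) := by rw [h2]; ring
          _ ≤ δ ^ n4 * (1 / 4 * (δ ^ n5 * X2)) := by (clear * - h3 hδp hX21'; gcongr)
          _ = δ ^ n4 / 2 * (δ ^ n5 * X2 / 2) := by ring
          _ ≤ δ ^ n4 / 2 * X3 := by (clear * - hX33 hδp; gcongr)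
      (clear * - hq3 hq4; linarith)

end

end Pool.Agent.Helper67.NX2

end

section

set_option autoImplicit false

open Finset

open scoped BigOperators ComplexConjugate

namespace Pool.Agent.Helper67.NX2

open Pool.Agent.Helper57.NX

noncomputable section

section Tv52

variable {N : ℕ} [NeZero N]

/-- the function `x ↦ g (x.val / M + β)` has small variation at scale `M Y` -/
lemma adm_dil52 {p : ℕ} [NeZero p] {B X : ℝ} {g : ZMod p → ℂ} (hg : Adm B X g) (M Y : ℕ)
    (hM : 1 ≤ M) (hY : 1 ≤ Y) (hYX : (Y : ℝ) ≤ X) (hMY : M * Y ≤ N) (β : ZMod p) :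
    Adm (6 * B + 2) ((M * Y : ℕ) : ℝ) (fun x : ZMod N => g (((x.val / M : ℕ) : ZMod p) + β)) := by
  have hB := hg.tv.nonneg
  have hY0 : (1 : ℝ) ≤ Y := by exact_mod_cast hY
  have hX0 : 0 < X := by (clear * - hYX hY0; linarith)
  refine ⟨fun x => hg.bdd _, ?_⟩
  refine tv_of_window64 (Nat.mul_pos hM hY) fun x => ?_
  have key := sum_wrap52 (N := N) (fun n => g (((n / M : ℕ) : ZMod p) + β)) (fun n => hg.bdd _)
    (3 * B) (M * Y) hMY ?_ x
  · refine key.trans (le_of_eq ?_)
    ring
  · intro n l _ hl
    have h1 := blocksum52 (fun i : ℕ => g ((i : ZMod p) + β)) M n l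
    rw [h1]
    have h2 : (n + l) / M - n / M ≤ Y + 1 := by
      have e1 : (n + l) / M ≤ (n + M * Y) / M := Nat.div_le_div_right (by omega)
      rw [Nat.add_mul_div_left _ _ (by omega)] at e1
      omega
    exact by
      have h3 : ∑ i ∈ range ((n + l) / M - n / M), ‖g (((n / M + i + 1 : ℕ) : ZMod p) + β) -
          g (((n / M + i : ℕ) : ZMod p) + β)‖ ≤
          ∑ i ∈ range (Y + 1), ‖g ((((n / M : ℕ) : ZMod p) + β) + (i : ZMod p) + 1) -
            g ((((n / M : ℕ) : ZMod p) + β) + (i : ZMod p))‖ := by
        refine (sum_le_sum_of_subset_of_nonneg (range_mono h2) fun _ _ _ => norm_nonneg _).trans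
          (le_of_eq (sum_congr rfl fun i _ => ?_))
        congr 3 <;> push_cast <;> ring
      refine h3.trans ((hg.tv _ _).trans ?_)
      rw [mul_comm 3 B]
      refine mul_le_mul_of_nonneg_left ?_ hB
      have h4 : ((Y + 1 : ℕ) : ℝ) / X ≤ 2 := by
        rw [div_le_iff₀ hX0]
        push_cast
        (clear * - hYX hY0; linarith)
      (clear * - h4; linarith)

end Tv52

end

end Pool.Agent.Helper67.NX2

end

section

set_option autoImplicit false

open Finset

open scoped BigOperators ComplexConjugate

namespace Pool.Agent.Helper67.NX2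

open Pool.Agent.Helper57.NX

noncomputable section

theorem ar_top (m : ℕ) (c : Fin (m + 1) → ℝ) (hc : Ex c) (d : ℕ) (hd : c (Fin.last m) = d)
    (s : ℝ) (hs0 : 0 < s) (hs : s < d) (hT : ∀ ε : ℝ, 0 < ε → TopPm m c s ε) :
    ∀ ε : ℝ, 0 < ε → ∃ x0 : ℝ, 0 < x0 ∧ ∃ C : ℕ, ∃ σ : ℝ, 0 < σ ∧ ∃ D0 : ℝ,
    ∀ (S : Sys (m + 1)) (N : ℕ) [NeZero N] (lam : ℕ), D0 ≤ S.D → IG S c N x0 lam →
    ∀ δ : ℝ, S.D ^ (-σ) ≤ δ → δ ≤ 1 / 2 → (lam : ℝ) ≤ δ⁻¹ →
    ∀ (p : ℕ) [NeZero p], p.Prime → N = S.Q * p → ∀ q : ℕ, 1 ≤ q → (q : ℝ) ≤ δ⁻¹ →
    ∀ X : ℝ, 1 ≤ X → S.D ^ (s - σ) ≤ X →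
    ∀ (f0 : ZMod N → ℂ) (f : Fin m → ZMod N → ℂ), Adm δ⁻¹ S.Q f0 → (∀ i, Adm δ⁻¹ S.Q (f i)) →
    ∀ G : ZMod p → ℂ, Adm δ⁻¹ X (fun z => G ((q : ZMod p) * z)) →
    δ ≤ ‖form S c 1 f0 (Fin.snoc (α := fun _ => ZMod N → ℂ) f (blk S.Q G))‖ →
    ∀ L : ℕ, 1 ≤ L → (L : ℝ) * (S.Q * q) ≤ S.P (Fin.last m) * S.D ^ (-ε) →
      δ ^ C ≤ nrm (A L (fun z : ZMod p => G ((q : ZMod p) * z))) := by
  intro ε hε
  obtain ⟨x', hx', C1, σ1, hσ1, D1, H1⟩ := hT (ε / 2) (by (clear * - hε; positivity))
  have hc0 : ∀ i, 0 < c i := fun i => by have := hc.two i; (clear * - this; linarith)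
  obtain ⟨xr, hxr⟩ : ∃ xr, xr = min x' 1 := ⟨_, rfl⟩
  have hxr0 : 0 < xr := by rw [hxr]; (clear * - hx'; positivity)
  have hxr1 : xr ≤ x' := by rw [hxr]; exact min_le_left _ _
  have hxr2 : xr ≤ 1 := by rw [hxr]; exact min_le_right _ _
  obtain ⟨x2, hx2, σ2, hσ2, D2, H2⟩ := IG.dil c hc0 xr hxr0
  have hds : 0 < (d - s) / 4 := by (clear * - hs; linarith)
  obtain ⟨K1, hK1⟩ : ∃ K1 : ℝ, K1 = 2 * (4 * C1 + 1) := ⟨_, rfl⟩
  have hK10 : 0 < K1 := by rw [hK1]; (clear * -; positivity)
  exact by
    obtain ⟨Z, hZ⟩ : ∃ Z, Z = min (min (min (σ1 / 8) σ2) (min (xr / 64) (ε / K1)))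
      (min (1 / 8) ((d - s) / 4)) := ⟨_, rfl⟩
    have hZ0 : 0 < Z := by rw [hZ]; (clear * - hσ1 hσ2 hxr0 hε hK10 hs; positivity)
    have hZ1 : Z ≤ σ1 / 8 := by
      rw [hZ]; exact (min_le_left _ _).trans ((min_le_left _ _).trans (min_le_left _ _))
    have hZ2 : Z ≤ σ2 := by
      rw [hZ]; exact (min_le_left _ _).trans ((min_le_left _ _).trans (min_le_right _ _))
    have hZ3 : Z ≤ xr / 64 := by
      rw [hZ]; exact (min_le_left _ _).trans ((min_le_right _ _).trans (min_le_left _ _))
    have hZ4 : Z ≤ ε / K1 := by
      rw [hZ]; exact (min_le_left _ _).trans ((min_le_right _ _).trans (min_le_right _ _))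
    have hZ5 : Z ≤ 1 / 8 := by
      rw [hZ]; exact (min_le_right _ _).trans (min_le_left _ _)
    exact by
      have hZ6 : Z ≤ (d - s) / 4 := by
        rw [hZ]; exact (min_le_right _ _).trans (min_le_right _ _)
      obtain ⟨K2, hK2⟩ : ∃ K2 : ℝ, K2 = 16 * (d * 3 ^ (d - 1)) + 8 := ⟨_, rfl⟩
      have hev : ∀ᶠ D : ℝ in Filter.atTop, 16 ≤ D ∧ D2 ≤ D ∧ D1 ≤ D ^ (1 / 2 : ℝ) ∧
          4 ≤ D ^ (3 / 8 : ℝ) ∧ K2 ≤ D ^ (xr / 8) ∧ 2 ≤ D ^ (σ1 / 2) ∧ 4 ^ (d : ℝ) + 2 ≤ D ^ (ε / 2) := by
        refine (Filter.eventually_ge_atTop _).and ((Filter.eventually_ge_atTop _).and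
          (((tendsto_rpow_atTop (by positivity)).eventually_ge_atTop _).and
          (((tendsto_rpow_atTop (by positivity)).eventually_ge_atTop _).and
          (((tendsto_rpow_atTop (by positivity)).eventually_ge_atTop _).and
          (((tendsto_rpow_atTop (by positivity)).eventually_ge_atTop _).and
          ((tendsto_rpow_atTop (by positivity)).eventually_ge_atTop _))))))
      obtain ⟨D0, hD0⟩ := Filter.eventually_atTop.1 hev
      refine ⟨min x2 Z, by positivity, 4 * C1 + 2, Z, hZ0, D0, ?_⟩
      intro S N _ lam hSD hG δ hδσ hδ2 hlam p _ hp hN q hq hqδ X hX1 hX2 f0 f hf0 hf G hGadm hform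
        L hL hLP
      obtain ⟨hD16, hDD2, hDD1, hD4, hDK2, hDσ1, hDε⟩ := hD0 S.D hSD
      set D := S.D with hDdef
      have hDpos : 0 < D := by (clear * - hxr2 hZ0 hZ3 hD16; linarith)
      have hD1 : 1 ≤ D := by (clear * - hxr2 hZ0 hZ3 hD16; linarith)
      have hδ0 : 0 < δ := lt_of_lt_of_le (Real.rpow_pos_of_pos hDpos _) hδσ
      exact by
        have hδi : δ⁻¹ ≤ D ^ Z := by
          rw [inv_le_comm₀ hδ0 (by (clear * - hD16; positivity)), ← Real.rpow_neg hDpos.le]
          exact hδσ
        have hδi2 : 2 ≤ δ⁻¹ := by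
          rw [le_inv_comm₀ (by norm_num) hδ0]
          (clear * - hδ2; linarith)
        have rp : ∀ a b : ℝ, D ^ a * D ^ b = D ^ (a + b) := fun a b => (Real.rpow_add hDpos a b).symm
        have hmono : ∀ {a b : ℝ}, a ≤ b → D ^ a ≤ D ^ b := fun h => Real.rpow_le_rpow_of_exponent_le hD1 h
        have hD8 : 8 ≤ D ^ (xr / 8) := by
          refine le_trans ?_ hDK2
          rw [hK2]
          have : (0 : ℝ) ≤ 16 * (d * 3 ^ (d - 1)) := by (clear * -; positivity)
          (clear * - this; linarith)
        have hx0Z : min x2 Z ≤ Z := min_le_right _ _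
        exact by
          have hGd := hG.good
          have hQ1 : 1 ≤ S.Q := by
            have h1 : (1 : ℝ) ≤ S.Q := le_trans (Real.one_le_rpow hD1 (by norm_num)) hGd.Q1
            exact_mod_cast h1
          have hQr : (0 : ℝ) < S.Q := by exact_mod_cast hQ1
          have hN0 : 0 < N := Nat.pos_of_ne_zero (NeZero.ne N)
          have hNr : (0 : ℝ) < N := by exact_mod_cast hN0
          have hp0 : 0 < p := hp.pos
          exact by
            have hpr : (0 : ℝ) < p := by exact_mod_cast hp0
            have hqr : (1 : ℝ) ≤ q := by exact_mod_cast hq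
            have hqZ : (q : ℝ) ≤ D ^ Z := hqδ.trans hδi
            have hlam1 : 1 ≤ lam := hG.lam1
            have hlamr : (1 : ℝ) ≤ lam := by exact_mod_cast hlam1
            -- the exponent `d`
            obtain ⟨d', rfl⟩ : ∃ d', d = d' + 1 := by
              have h2 := hc.two (Fin.last m)
              rw [hd] at h2
              have h3 : 2 ≤ d := by exact_mod_cast h2
              exact ⟨d - 1, by omega⟩
            -- size of `p`
            have hP : S.P (Fin.last m) = S.Q * (lam * D) ^ (d' + 1) := hG.Pint _ _ hd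
            exact by
              have hpD : (lam * D) ^ (d' + 1) ≤ p * D ^ Z := by
                have h1 := hGd.N1 (Fin.last m)
                rw [hP, hN] at h1
                have h2 : (((S.Q * p : ℕ) : ℕ) : ℝ) * D ^ (min x2 Z) ≤ S.Q * (p * D ^ Z) := by
                  push_cast
                  rw [mul_assoc]
                  exact mul_le_mul_of_nonneg_left (mul_le_mul_of_nonneg_left
                    (Real.rpow_le_rpow_of_exponent_le hD1 hx0Z) hpr.le) hQr.le
                exact le_of_mul_le_mul_left (h1.trans h2) hQr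
              -- the window
              obtain ⟨J, hJ⟩ : ∃ J : ℕ, J = ⌈D ^ (1 - xr / 4)⌉₊ := ⟨_, rfl⟩
              have hJ1 : D ^ (1 - xr / 4) ≤ J := by rw [hJ]; exact Nat.le_ceil _
              have h1J : 1 ≤ D ^ (1 - xr / 4) := Real.one_le_rpow hD1 (by (clear * - hxr2 hZ0 hZ3; linarith))
              have hJ0 : 1 ≤ J := by exact_mod_cast h1J.trans hJ1
              have hJ2 : (J : ℝ) ≤ 2 * D ^ (1 - xr / 4) := by
                have h1 : (J : ℝ) < D ^ (1 - xr / 4) + 1 := by rw [hJ]; exact Nat.ceil_lt_add_one (by (clear * - hxr2 hZ0 hZ3 h1J; linarith))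
                (clear * - h1J h1; linarith)
              have hqJ : 4 * (q : ℝ) * J ≤ δ * S.T := by
                have hT := hGd.T1
                have h1 : D ^ (1 - Z) ≤ S.T :=
                  (Real.rpow_le_rpow_of_exponent_le hD1 (by (clear * - hx0Z; linarith))).trans hT
                have h2 : D ^ (-Z) * D ^ (1 - Z) ≤ δ * S.T :=
                  mul_le_mul hδσ h1 (by positivity) hδ0.le
                refine le_trans ?_ h2
                calc 4 * (q : ℝ) * J ≤ 4 * D ^ Z * (2 * D ^ (1 - xr / 4)) := by (clear * - hqZ hJ2 hJ0 hD16; gcongr)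
                  _ = 8 * D ^ (Z + (1 - xr / 4)) := by rw [← rp]; ring
                  _ ≤ D ^ (xr / 8) * D ^ (Z + (1 - xr / 4)) := by (clear * - hD8 hD16; gcongr)
                  _ = D ^ (xr / 8 + (Z + (1 - xr / 4))) := rp _ _
                  _ ≤ D ^ (-Z + (1 - Z)) := hmono (by (clear * - hZ0 hZ3; linarith))
                  _ = D ^ (-Z) * D ^ (1 - Z) := (rp _ _).symm
              exact by
                obtain ⟨g, hg⟩ : ∃ g : ℕ → ℂ, g = fun k => 𝔼 x : ZMod N, f0 x *
                    ∏ i, (Fin.snoc (α := fun _ => ZMod N → ℂ) f (blk S.Q G)) i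
                      (x + (S.a c i k : ZMod N)) := ⟨_, rfl⟩
                -- `q` is invertible modulo `p`
                have hsZ : D ^ (Z + s) < p := by
                  have h1 : D ^ ((d' + 1 : ℕ) : ℝ) ≤ p * D ^ Z := by
                    rw [Real.rpow_natCast]
                    exact le_trans (pow_le_pow_left₀ hDpos.le (le_mul_of_one_le_left hDpos.le hlamr) _) hpD
                  have h2 : D ^ (((d' + 1 : ℕ) : ℝ) - Z) ≤ p := by
                    rw [Real.rpow_sub hDpos, div_le_iff₀ (by (clear * - hD16; positivity))]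
                    exact h1
                  exact lt_of_lt_of_le (Real.rpow_lt_rpow_of_exponent_lt (by (clear * - hxr2 hZ0 hZ3 hD16; linarith)) (by (clear * - hZ0 hZ6; linarith))) h2
                have hqp : q < p := by
                  have h1 : (q : ℝ) < p := lt_of_le_of_lt (hqZ.trans (hmono (by (clear * - hs0; linarith)))) hsZ
                  exact_mod_cast h1
                obtain ⟨qi, hqi⟩ : ∃ qi : ZMod p, (q : ZMod p) * qi = 1 :=
                  ⟨(q : ZMod p)⁻¹, ZMod.coe_mul_inv_eq_one q (Nat.coprime_of_lt_prime (by (clear * - xr S N lam p hq L J; omega)) hqp hp).symm⟩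
                have hG1 : ∀ z, ‖G z‖ ≤ 1 := by
                  intro z
                  have h1 : ‖G ((q : ZMod p) * (qi * z))‖ ≤ 1 := hGadm.bdd (qi * z)
                  rwa [← mul_assoc, hqi, one_mul] at h1
                have hsnoc : ∀ (h : ZMod N → ℂ), (∀ x, ‖h x‖ ≤ 1) → ∀ i x,
                    ‖(Fin.snoc (α := fun _ => ZMod N → ℂ) f h : Fin (m + 1) → ZMod N → ℂ) i x‖ ≤ 1 := by
                  intro h hh i x
                  refine Fin.lastCases ?_ (fun i => ?_) i
                  · rw [Fin.snoc_last]; exact hh x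
                  · rw [Fin.snoc_castSucc]; exact (hf i).bdd x
                have hg1 : ∀ k, ‖g k‖ ≤ 1 := by
                  intro k
                  rw [hg]
                  refine norm_expect_le_of5 _ _ (by norm_num) fun x _ => ?_
                  rw [norm_mul, norm_prod]
                  refine mul_le_one₀ (hf0.bdd x) (prod_nonneg fun _ _ => norm_nonneg _) ?_
                  exact prod_le_one (fun _ _ => norm_nonneg _) fun i _ => hsnoc _ (fun x => hG1 _) i _
                have hgform : δ ≤ ‖𝔼 k ∈ S.I, g k‖ := by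
                  refine hform.trans (le_of_eq ?_)
                  unfold form
                  simp only [Pi.one_apply, one_mul, hg]
                exact by
                  obtain ⟨r0, u', hr0, hu1, hu2, hwin⟩ := exists_window S δ q J hq hJ0 hqJ g hg1 hgform hδ0
                  -- size of the window
                  have hSu2 : q * (u' + J) + r0 ≤ 2 * D := by
                    have h1 : (((q * (u' + J) + r0 : ℕ) : ℕ) : ℝ) ≤ S.u + S.T := by exact_mod_cast hu2
                    push_cast at h1
                    have h2 := hGd.u2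
                    (clear * - h1 h2; linarith)
                  have hqJD : 2 * (q : ℝ) * J ≤ D := by
                    have h1 := hGd.u1
                    have h2 := hGd.u2
                    have h3 : (0 : ℝ) ≤ S.T := Nat.cast_nonneg _
                    have h4 : δ * S.T ≤ 1 / 2 * S.T := mul_le_mul_of_nonneg_right hδ2 h3
                    (clear * - hxr2 hZ0 hZ3 hD16 hqJ h1 h2 h4; linarith)
                  have hJu : J < u' := by
                    by_contra hcon
                    rw [not_lt] at hcon
                    have h1 : S.u < q * (u' + 1) := by rw [Nat.mul_add]; (clear * - xr N lam p L J hr0 hu1; omega)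
                    have h2 : q * (u' + 1) ≤ q * (2 * J) := Nat.mul_le_mul_left _ (by omega)
                    have h3 : (S.u : ℝ) < ((q * (2 * J) : ℕ) : ℝ) := by exact_mod_cast h1.trans_le h2
                    have h4 := hGd.u1
                    push_cast at h3
                    (clear * - hqJD h4 h3; linarith)
                  have hGx2 : IG S c N x2 lam := hG.mono (min_le_left _ _) hD1
                  obtain ⟨hIG', hD'1, hD'2, hP'⟩ := H2 S N lam hDD2 hGx2 q r0 u' J hq
                    (hqZ.trans (hmono hZ2)) hr0 hu1 hu2 hJu.le ((hmono (by (clear * - hZ0 hZ3; linarith))).trans hJ1)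
                  have hρ0 := hGd.ρ0
                  have hρ1 := hGd.ρ1
                  exact by
                    have hdil : ∀ (i : Fin (m + 1)) (k : ℕ), (dil S c q r0 u' J).a c i k = S.a c i (q * k + r0) :=
                      fun i k => dil_a S c q r0 u' J k hq (by omega) hDpos hρ0 i
                    obtain ⟨r, hr⟩ := hG.rho
                    -- the values at the top
                    obtain ⟨v, hv⟩ : ∃ v : ℕ, v = lam * (q * u' + r0) + r := ⟨_, rfl⟩
                    obtain ⟨Δ, hΔ⟩ : ∃ Δ : ℕ, Δ = (v + q * (lam * J)) ^ (d' + 1) - v ^ (d' + 1) := ⟨_, rfl⟩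
                    have hbig : ∀ j ∈ Ico u' (u' + J), ∃ Δk : ℕ, Δk ≤ Δ ∧ q ∣ Δk ∧
                        S.a c (Fin.last m) (q * j + r0) = (S.Q : ℤ) * (v ^ (d' + 1) + Δk : ℕ) := by
                      intro j hj
                      rw [mem_Ico] at hj
                      obtain ⟨w, hw⟩ : ∃ w, j = u' + w := ⟨j - u', by omega⟩
                      have e1 : lam * (q * j + r0) + r = v + q * (lam * w) := by
                        rw [hw, hv]
                        ring
                      have e2 : v ^ (d' + 1) ≤ (v + q * (lam * w)) ^ (d' + 1) := Nat.pow_le_pow_left (by omega) _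
                      refine ⟨(v + q * (lam * w)) ^ (d' + 1) - v ^ (d' + 1), ?_, ?_, ?_⟩
                      · rw [hΔ]
                        refine Nat.sub_le_sub_right (Nat.pow_le_pow_left ?_ _) _
                        have : q * (lam * w) ≤ q * (lam * J) :=
                          Nat.mul_le_mul_left _ (Nat.mul_le_mul_left _ (by omega))
                        omega
                      · have e3 := Nat.sub_dvd_pow_sub_pow (v + q * (lam * w)) v (d' + 1)
                        rw [Nat.add_sub_cancel_left] at e3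
                        exact (Dvd.intro _ rfl).trans e3
                      · rw [a_nat hG hDpos hr (Fin.last m) (d' + 1) hd, e1, Nat.add_sub_cancel' e2]
                        push_cast
                        ring
                    have hsplit := form_split52 S c hQ1 hq hN r0 u' J hJ0 hdil f0 f hf0.bdd (fun i => (hf i).bdd) G hG1
                      (v ^ (d' + 1)) Δ hbig
                    -- size of `Δ`
                    have hΔp : 2 * ((Δ : ℝ) / p) ≤ δ / 4 := by
                      have e1 : v ^ (d' + 1) ≤ (v + q * (lam * J)) ^ (d' + 1) := Nat.pow_le_pow_left (by omega) _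
                      have e2 : (Δ : ℝ) = ((v : ℝ) + q * (lam * J)) ^ (d' + 1) - (v : ℝ) ^ (d' + 1) := by
                        rw [hΔ, Nat.cast_sub e1]
                        push_cast
                        ring
                      have e3 := pow_sub_le52 ((v : ℝ) + q * (lam * J)) v (Nat.cast_nonneg _)
                        (le_add_of_nonneg_right (by (clear * - hq hlam1 hJ0; positivity))) d'
                      rw [← e2, add_sub_cancel_left] at e3
                      have e4 : (v : ℝ) + q * (lam * J) ≤ 3 * (lam * D) := by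
                        have f1 : (v : ℝ) + q * (lam * J) = lam * (q * (u' + J) + r0) + S.ρ * lam := by
                          rw [hr, hv]
                          push_cast
                          ring
                        have f2 : (lam : ℝ) * (q * (u' + J) + r0) ≤ lam * (2 * D) :=
                          mul_le_mul_of_nonneg_left hSu2 (by (clear * -; linarith))
                        have f3 : S.ρ * lam ≤ 1 * lam := mul_le_mul_of_nonneg_right hρ1 (by (clear * -; linarith))
                        have f4 : (lam : ℝ) * 1 ≤ lam * D := mul_le_mul_of_nonneg_left hD1 (by (clear * -; linarith))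
                        rw [f1]
                        (clear * - f2 f3 f4; linarith)
                      have e5 : ((v : ℝ) + q * (lam * J)) ^ d' ≤ (3 * (lam * D)) ^ d' :=
                        pow_le_pow_left₀ (by (clear * - hq hlam1 hJ0; positivity)) e4 _
                      have e6 : (Δ : ℝ) * D ≤ (d' + 1) * 3 ^ d' * (p * D ^ Z) * (q * J) := by
                        calc (Δ : ℝ) * D ≤ ((d' + 1) * ((v : ℝ) + q * (lam * J)) ^ d' * (q * (lam * J))) * D := by
                              (clear * - e3 hD16; gcongr)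
                          _ ≤ ((d' + 1) * (3 * (lam * D)) ^ d' * (q * (lam * J))) * D := by (clear * - e5 hq hlam1 hJ0 hD16; gcongr)
                          _ = (d' + 1) * 3 ^ d' * ((lam * D) ^ (d' + 1)) * (q * J) := by
                              rw [mul_pow 3]
                              ring
                          _ ≤ _ := by (clear * - hpD hq hJ0; gcongr)
                      have e7 : (q : ℝ) * J ≤ 2 * D ^ (Z + (1 - xr / 4)) := by
                        calc (q : ℝ) * J ≤ D ^ Z * (2 * D ^ (1 - xr / 4)) := by (clear * - hqZ hJ2 hJ0 hD16; gcongr)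
                          _ = 2 * D ^ (Z + (1 - xr / 4)) := by rw [← rp]; ring
                      have e8 : (16 * ((d' + 1) * 3 ^ d') : ℝ) ≤ D ^ (xr / 8) := by
                        have f1 := hDK2
                        rw [hK2, Nat.add_sub_cancel] at f1
                        push_cast at f1
                        (clear * - hxr2 hZ0 hZ3 f1; linarith)
                      have e9 : (Δ : ℝ) * D ≤ (p * (δ / 8)) * D := by
                        calc (Δ : ℝ) * D ≤ (d' + 1) * 3 ^ d' * (p * D ^ Z) * (q * J) := e6
                          _ ≤ (d' + 1) * 3 ^ d' * (p * D ^ Z) * (2 * D ^ (Z + (1 - xr / 4))) := by (clear * - e7 hp0 hD16; gcongr)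
                          _ = (16 * ((d' + 1) * 3 ^ d')) * (p * D ^ Z) * (1 / 8 * D ^ (Z + (1 - xr / 4))) := by ring
                          _ ≤ D ^ (xr / 8) * (p * D ^ Z) * (1 / 8 * D ^ (Z + (1 - xr / 4))) := by (clear * - e8 hp0 hD16; gcongr)
                          _ = p * (1 / 8) * (D ^ (xr / 8) * D ^ Z * D ^ (Z + (1 - xr / 4))) := by ring
                          _ = p * (1 / 8) * D ^ (xr / 8 + Z + (Z + (1 - xr / 4))) := by rw [rp, rp]
                          _ ≤ p * (1 / 8) * D ^ (-Z + 1) := by
                              have : D ^ (xr / 8 + Z + (Z + (1 - xr / 4))) ≤ D ^ (-Z + 1) := hmono (by (clear * - hZ0 hZ3; linarith))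
                              (clear * - this hp0; gcongr)
                          _ = p * (D ^ (-Z) / 8) * D := by rw [← rp, Real.rpow_one]; ring
                          _ ≤ (p * (δ / 8)) * D := by (clear * - hδσ hp0 hD16; gcongr)
                      have e10 : (Δ : ℝ) ≤ p * (δ / 8) := le_of_mul_le_mul_right e9 hDpos
                      have e11 : (Δ : ℝ) / p ≤ δ / 8 := by
                        rw [div_le_iff₀ hpr]
                        (clear * - e10; linarith)
                      (clear * - e11; linarith)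
                    -- a class with a large form
                    have hδδ : δ ^ 2 ≤ 1 / 4 := by
                      calc δ ^ 2 = δ * δ := sq δ
                        _ ≤ 1 / 2 * (1 / 2) := mul_le_mul hδ2 hδ2 hδ0.le (by norm_num)
                        _ = 1 / 4 := by norm_num
                    obtain ⟨b, hbq, hb⟩ : ∃ b ∈ range q, δ ^ 4 ≤
                        ‖form (dil S c q r0 u' J) c 1 (fun x => f0 x * ind52 S.Q q b x)
                          (Fin.snoc (α := fun _ => ZMod N → ℂ) f (T52 S.Q q (v ^ (d' + 1)) b G))‖ := by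
                      by_contra hcon
                      push Not at hcon
                      have h1 : ∑ b ∈ range q, ‖form (dil S c q r0 u' J) c 1 (fun x => f0 x * ind52 S.Q q b x)
                          (Fin.snoc (α := fun _ => ZMod N → ℂ) f (T52 S.Q q (v ^ (d' + 1)) b G))‖ <
                          ∑ _b ∈ range q, δ ^ 4 :=
                        sum_lt_sum_of_nonempty (nonempty_range_iff.2 (by (clear * - xr S N lam p hq L d' J r0 u' r v Δ; omega))) hcon
                      rw [sum_const, card_range, nsmul_eq_mul] at h1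
                      have h2 : (q : ℝ) * δ ^ 4 ≤ δ⁻¹ * δ ^ 4 := by (clear * - hqδ hδ0; gcongr)
                      have h3 : δ⁻¹ * δ ^ 4 = δ * δ ^ 2 := by field_simp
                      have h4 : δ * δ ^ 2 ≤ δ * (1 / 4) := by (clear * - hδδ hδ0; gcongr)
                      have h5 := hsplit
                      rw [hg] at hwin
                      (clear * - hwin hsplit hΔp h1 h2 h3 h4; linarith)
                    -- the dilated system
                    exact by
                      set S' := dil S c q r0 u' J with hS'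
                      obtain ⟨Y, hY⟩ : ∃ Y : ℕ, Y = ⌊max 1 (D ^ (s - Z))⌋₊ := ⟨_, rfl⟩
                      have hYle : (Y : ℝ) ≤ max 1 (D ^ (s - Z)) := by
                        rw [hY]; exact Nat.floor_le (by positivity)
                      have hY1 : 1 ≤ Y := by
                        rw [hY]; exact Nat.le_floor (by simp)
                      have hYr : (1 : ℝ) ≤ Y := by exact_mod_cast hY1
                      have hYge : max 1 (D ^ (s - Z)) ≤ 2 * Y := by
                        have h1 : max 1 (D ^ (s - Z)) < Y + 1 := by rw [hY]; exact Nat.lt_floor_add_one _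
                        (clear * - hYr h1; linarith)
                      have hYX : (Y : ℝ) ≤ X := hYle.trans (max_le hX1 hX2)
                      have hYs : (Y : ℝ) ≤ D ^ s := by
                        refine hYle.trans (max_le (Real.one_le_rpow hD1 hs0.le) (hmono (by (clear * - hZ0; linarith))))
                      have hMY : S.Q * q * Y ≤ N := by
                        have h1 : (q : ℝ) * Y ≤ p := by
                          calc (q : ℝ) * Y ≤ D ^ Z * D ^ s := by (clear * - hqZ hYs hY1 hD16; gcongr)
                            _ = D ^ (Z + s) := rp _ _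
                            _ ≤ p := hsZ.le
                        have h2 : q * Y ≤ p := by exact_mod_cast h1
                        rw [hN, mul_assoc]
                        exact Nat.mul_le_mul_left _ h2
                      have hQN : S.Q ≤ N := by rw [hN]; exact Nat.le_mul_of_pos_right _ hp0
                      exact by
                        have hM1 : 1 ≤ S.Q * q := Nat.mul_pos hQ1 hq
                        obtain ⟨β, hβ⟩ : ∃ β : ZMod p, β = qi * ((b + v ^ (d' + 1) : ℕ) : ZMod p) := ⟨_, rfl⟩
                        have hTG : ∀ y : ZMod N, T52 S.Q q (v ^ (d' + 1)) b G y =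
                            G ((q : ZMod p) * ((((y + (-((S.Q * v ^ (d' + 1) : ℕ) : ZMod N))).val / (S.Q * q) : ℕ) :
                              ZMod p) + β)) := by
                          intro y
                          unfold T52
                          congr 1
                          rw [hβ, mul_add, ← mul_assoc, hqi, one_mul, ← sub_eq_add_neg]
                          push_cast
                          ring
                        have hadmT0 := adm_dil52 (N := N) hGadm (S.Q * q) Y hM1 hY1 hYX hMY β
                        have hadmT : Adm (6 * δ⁻¹ + 2) ((S.Q * q * Y : ℕ) : ℝ) (T52 (N := N) S.Q q (v ^ (d' + 1)) b G) := by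
                          have h1 := hadmT0.shift (-((S.Q * v ^ (d' + 1) : ℕ) : ZMod N))
                          have h2 : T52 (N := N) S.Q q (v ^ (d' + 1)) b G = fun y => G ((q : ZMod p) *
                              ((((y + (-((S.Q * v ^ (d' + 1) : ℕ) : ZMod N))).val / (S.Q * q) : ℕ) : ZMod p) + β)) :=
                            funext hTG
                          rw [h2]
                          exact h1
                        have hi4 : δ⁻¹ ^ 4 = (δ ^ 4)⁻¹ := inv_pow δ 4
                        have hi4' : 8 * δ⁻¹ ≤ (δ ^ 4)⁻¹ := by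
                          rw [← hi4]
                          have h1 : (2 : ℝ) ^ 3 ≤ δ⁻¹ ^ 3 := pow_le_pow_left₀ (by norm_num) hδi2 _
                          have h2 : δ⁻¹ ^ 4 = δ⁻¹ ^ 3 * δ⁻¹ := by ring
                          rw [h2]
                          have h3 : (0 : ℝ) < δ⁻¹ := inv_pos.2 hδ0
                          norm_num at h1
                          exact mul_le_mul_of_nonneg_right (by rw [inv_pow]; exact h1) h3.le
                        exact by
                          have hB1 : 6 * δ⁻¹ + 2 ≤ (δ ^ 4)⁻¹ := by (clear * - hxr2 hZ0 hZ3 hδi2 hi4'; linarith)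
                          have hB2 : δ⁻¹ + 4 ≤ (δ ^ 4)⁻¹ := by (clear * - hxr2 hZ0 hZ3 hδi2 hi4'; linarith)
                          have hB3 : δ⁻¹ ≤ (δ ^ 4)⁻¹ := by (clear * - hxr2 hZ0 hZ3 hδi2 hi4'; linarith)
                          have hQY : (S.Q : ℝ) ≤ ((S.Q * q * Y : ℕ) : ℝ) := by
                            push_cast
                            have : (S.Q : ℝ) * 1 * 1 ≤ S.Q * q * Y := by (clear * - hqr hQ1 hYr hq; gcongr)
                            (clear * - this; linarith)
                          have hD'half : D ^ (1 / 2 : ℝ) ≤ S'.D := by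
                            refine le_trans ?_ hD'1
                            rw [le_div_iff₀ (by positivity)]
                            calc D ^ (1 / 2 : ℝ) * (4 * q) ≤ D ^ (1 / 2 : ℝ) * (D ^ (3 / 8 : ℝ) * D ^ Z) := by (clear * - hD4 hqZ hq hD16; gcongr)
                              _ = D ^ (1 / 2 + (3 / 8 + Z)) := by rw [rp, rp]
                              _ ≤ D ^ (1 : ℝ) := hmono (by (clear * - hxr2 hZ0 hZ3; linarith))
                              _ = D := Real.rpow_one _
                          have hD'le : S'.D ≤ D := hD'2.trans (div_le_self hDpos.le hqr)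
                          exact by
                            have hD'1' : 1 ≤ S'.D := (Real.one_le_rpow hD1 (by norm_num)).trans hD'half
                            have hD'pos : 0 < S'.D := by (clear * - hxr2 hZ0 hZ3 hD'1'; linarith)
                            have hS'Q : S'.Q = S.Q := rfl
                            have hML1 : 1 ≤ S.Q * q * L := Nat.mul_pos hM1 hL
                            have hfin := H1 S' N (lam * q) (hDD1.trans hD'half) (hIG'.mono hxr1 hD'1') (δ ^ 4)
                              (by
                                calc S'.D ^ (-σ1) ≤ (D ^ (1 / 2 : ℝ)) ^ (-σ1) :=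
                                      Real.rpow_le_rpow_of_nonpos (by positivity) hD'half (by (clear * - hZ0 hZ1; linarith))
                                  _ = D ^ (1 / 2 * (-σ1)) := (Real.rpow_mul hDpos.le _ _).symm
                                  _ ≤ D ^ (-Z * (4 : ℕ)) := hmono (by push_cast; (clear * - hZ1; linarith))
                                  _ = (D ^ (-Z)) ^ 4 := by rw [Real.rpow_mul hDpos.le, Real.rpow_natCast]
                                  _ ≤ δ ^ 4 := pow_le_pow_left₀ (by positivity) hδσ _)
                              ((pow_le_of_le_one hδ0.le (hδ2.trans (by norm_num)) (by norm_num)).trans hδ2)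
                              (by
                                push_cast
                                calc (lam : ℝ) * q ≤ δ⁻¹ * δ⁻¹ := by (clear * - hlam hqδ hq hδ0; gcongr)
                                  _ ≤ (δ ^ 4)⁻¹ := by
                                    rw [← hi4]
                                    have : δ⁻¹ ^ 2 ≤ δ⁻¹ ^ 4 := pow_le_pow_right₀ (by (clear * - hxr2 hZ0 hZ3 hδi2; linarith)) (by norm_num)
                                    (clear * - this; linarith [sq (δ⁻¹)]))
                              ((S.Q * q * Y : ℕ) : ℝ) hQY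
                              (by
                                rw [hS'Q]
                                push_cast
                                rw [mul_assoc]
                                refine mul_le_mul_of_nonneg_left ?_ hQr.le
                                rcases le_total s σ1 with hsσ | hsσ
                                · have h1 : S'.D ^ (s - σ1) ≤ 1 := Real.rpow_le_one_of_one_le_of_nonpos hD'1' (by (clear * - hsσ; linarith))
                                  exact h1.trans (one_le_mul_of_one_le_of_one_le hqr hYr)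
                                · have h1 : S'.D ^ (s - σ1) ≤ D ^ (s - σ1) :=
                                    Real.rpow_le_rpow hD'pos.le hD'le (by (clear * - hsσ; linarith))
                                  have h2 : D ^ (s - σ1) * 2 ≤ D ^ (s - Z) := by
                                    calc D ^ (s - σ1) * 2 ≤ D ^ (s - σ1) * D ^ (σ1 / 2) := by (clear * - hDσ1 hD16; gcongr)
                                      _ = D ^ (s - σ1 + σ1 / 2) := rp _ _
                                      _ ≤ D ^ (s - Z) := hmono (by (clear * - hZ0 hZ1; linarith))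
                                  have h3 : D ^ (s - Z) ≤ 2 * Y := (le_max_right _ _).trans hYge
                                  have h4 : (Y : ℝ) ≤ q * Y := le_mul_of_one_le_left (Nat.cast_nonneg _) hqr
                                  linarith only [h1, h2, h3, h4])
                              (fun x => f0 x * ind52 S.Q q b x)
                              (Fin.snoc (α := fun _ => ZMod N → ℂ) f (T52 S.Q q (v ^ (d' + 1)) b G))
                              ((hf0.mul (adm_ind52 hQ1 hQN q b)).mono hB2 hQr le_rfl)
                              (by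
                                intro i
                                refine Fin.lastCases ?_ (fun i => ?_) i
                                · rw [Fin.snoc_last]
                                  exact hadmT.mono hB1 hQr hQY
                                · rw [Fin.snoc_castSucc]
                                  exact (hf i).mono hB3 hQr le_rfl)
                              (by
                                rw [Fin.snoc_last]
                                exact hadmT.mono hB1 (by (clear * - hQ1 hq hY1; positivity)) le_rfl)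
                              hb (S.Q * q * L) hML1
                              (by
                                have h1 := (hP' (Fin.last m)).1
                                have h2 : S.P (Fin.last m) * 4 ^ (-c (Fin.last m)) * D ^ (-(ε / 2)) ≤
                                    S'.P (Fin.last m) * S'.D ^ (-(ε / 2)) := by
                                  refine mul_le_mul h1 (Real.rpow_le_rpow_of_nonpos hD'pos hD'le (by (clear * - hε; linarith))) (by positivity)
                                    (le_trans ?_ h1)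
                                  rw [hP]; (clear * - hQ1 hlam1 hD16; positivity)
                                refine le_trans ?_ h2
                                have h3 : ((S.Q * q * L : ℕ) : ℝ) = (L : ℝ) * (S.Q * q) := by push_cast; ring
                                rw [h3]
                                refine hLP.trans ?_
                                rw [hd, mul_assoc]
                                refine mul_le_mul_of_nonneg_left ?_ (by rw [hP]; (clear * - hQ1 hlam1 hD16; positivity))
                                have h4 : (4 : ℝ) ^ (((d' + 1 : ℕ) : ℝ)) ≤ D ^ (ε / 2) := by (clear * - hxr2 hZ0 hZ3 hDε; linarith)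
                                have h5 : D ^ (-ε) * 4 ^ (((d' + 1 : ℕ) : ℝ)) ≤ D ^ (-(ε / 2)) := by
                                  calc D ^ (-ε) * 4 ^ (((d' + 1 : ℕ) : ℝ)) ≤ D ^ (-ε) * D ^ (ε / 2) := by (clear * - h4 hD16; gcongr)
                                    _ = D ^ (-ε + ε / 2) := rp _ _
                                    _ = D ^ (-(ε / 2)) := by rw [show -ε + ε / 2 = -(ε / 2) by ring]
                                rw [Real.rpow_neg (show (0 : ℝ) ≤ 4 by norm_num), inv_mul_eq_div,
                                  le_div_iff₀ (Real.rpow_pos_of_pos (by norm_num) _)]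
                                exact h5)
                            rw [Fin.snoc_last] at hfin
                            -- transport to `ZMod p`
                            have htr : nrm (A (S.Q * q * L) (T52 (N := N) S.Q q (v ^ (d' + 1)) b G)) ≤
                                q * nrm (A L (fun z : ZMod p => G ((q : ZMod p) * z))) + (S.Q * q : ℝ) * L / N := by
                              have h1 := nrm_Aq_mul 1 (S.Q * q) L hM1 (T52 (N := N) S.Q q (v ^ (d' + 1)) b G)
                              rw [Aq_one, one_mul] at h1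
                              refine h1.trans ?_
                              have h2 := nrm_dil52 (N := N) hQ1 hq hN (fun z : ZMod p => G ((q : ZMod p) * z))
                                (fun z => hG1 _) β L
                              refine le_trans (le_of_eq ?_) h2
                              unfold nrm
                              rw [← expect_shift (fun x => ‖Aq (S.Q * q) L (T52 (N := N) S.Q q (v ^ (d' + 1)) b G) x‖)
                                ((S.Q * v ^ (d' + 1) : ℕ) : ZMod N)]
                              refine expect_congr rfl fun x _ => ?_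
                              congr 1
                              unfold Aq
                              refine expect_congr rfl fun l _ => ?_
                              rw [hTG]
                              have h3 : x + ((S.Q * v ^ (d' + 1) : ℕ) : ZMod N) + ((S.Q * q * l : ℕ) : ZMod N) +
                                  -((S.Q * v ^ (d' + 1) : ℕ) : ZMod N) = x + ((S.Q * q * l : ℕ) : ZMod N) := by ring
                              rw [h3]
                            have hsm : (S.Q * q : ℝ) * L / N * 2 ≤ δ ^ (4 * C1) := by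
                              have h1 : (S.Q * q : ℝ) * L ≤ N * D ^ (Z - ε) := by
                                have e1 := hGd.N1 (Fin.last m)
                                calc (S.Q * q : ℝ) * L = (L : ℝ) * (S.Q * q) := by ring
                                  _ ≤ S.P (Fin.last m) * D ^ (-ε) := hLP
                                  _ ≤ (N * D ^ (min x2 Z)) * D ^ (-ε) := by (clear * - e1 hD16; gcongr)
                                  _ = N * D ^ (min x2 Z + -ε) := by rw [mul_assoc, rp]
                                  _ ≤ N * D ^ (Z - ε) := mul_le_mul_of_nonneg_left (hmono (by (clear * - hx0Z; linarith))) hNr.le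
                              have h2 : (S.Q * q : ℝ) * L / N ≤ D ^ (Z - ε) := by
                                rw [div_le_iff₀ hNr]
                                (clear * - h1; linarith)
                              have h3 : K1 * Z ≤ ε := by
                                rw [le_div_iff₀ hK10] at hZ4
                                (clear * - hZ4; linarith)
                              rw [hK1] at h3
                              calc (S.Q * q : ℝ) * L / N * 2 ≤ D ^ (Z - ε) * D ^ (ε / 2) := by
                                    have h4 : (2 : ℝ) ≤ D ^ (ε / 2) := by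
                                      have : (0 : ℝ) ≤ 4 ^ (((d' + 1 : ℕ) : ℝ)) := by positivity
                                      (clear * - hDε this; linarith)
                                    (clear * - h2 h4 hD16; gcongr)
                                _ = D ^ (Z - ε + ε / 2) := rp _ _
                                _ ≤ D ^ (-Z * ((4 * C1 : ℕ) : ℝ)) := hmono (by push_cast; (clear * - h3; linarith))
                                _ = (D ^ (-Z)) ^ (4 * C1) := by rw [Real.rpow_mul hDpos.le, Real.rpow_natCast]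
                                _ ≤ δ ^ (4 * C1) := pow_le_pow_left₀ (by positivity) hδσ _
                            exact by
                              obtain ⟨n, hn⟩ : ∃ n : ℝ, n = nrm (A L (fun z : ZMod p => G ((q : ZMod p) * z))) := ⟨_, rfl⟩
                              rw [← hn] at htr ⊢
                              have hqn : δ ^ (4 * C1) / 2 ≤ q * n := by
                                rw [← pow_mul] at hfin
                                (clear * - hfin hsm htr; linarith)
                              have hδC : δ ^ (4 * C1 + 2) * q ≤ δ ^ (4 * C1) / 2 := by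
                                calc δ ^ (4 * C1 + 2) * q ≤ δ ^ (4 * C1 + 2) * δ⁻¹ := by (clear * - hqδ hδ0; gcongr)
                                  _ = δ ^ (4 * C1) * δ := by
                                    rw [pow_add]
                                    (clear * - hδ0; field_simp)
                                  _ ≤ δ ^ (4 * C1) * (1 / 2) := by (clear * - hδ2 hδ0; gcongr)
                                  _ = δ ^ (4 * C1) / 2 := by ring
                              have hq0 : (0 : ℝ) < q := by (clear * - hxr2 hZ0 hZ3 hqr; linarith)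
                              refine le_of_mul_le_mul_left ?_ hq0
                              (clear * - hqn hδC; linarith)

end

end Pool.Agent.Helper67.NX2

end

section

set_option autoImplicit false

open Finset

open scoped BigOperators ComplexConjugate

namespace Pool.Agent.Helper67.NX2

open Pool.Agent.Helper57.NX

noncomputable section

section Str

variable {m N : ℕ} [NeZero N]

theorem sq_le_dual15 (S : Sys (m + 1)) (c : Fin (m + 1) → ℝ) (f0 : ZMod N → ℂ)
    (f : Fin (m + 1) → ZMod N → ℂ) (hf : ∀ x, ‖f (Fin.last m) x‖ ≤ 1) {δ : ℝ} (hδ : 0 ≤ δ)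
    (h : δ ≤ ‖form S c 1 f0 f‖) :
    δ ^ 2 ≤ 𝔼 x, ‖dual S c 1 f0 f (Fin.last m) x‖ ^ 2 := by
  have e1 : form S c 1 f0 f = 𝔼 x, f (Fin.last m) x * dual S c 1 f0 f (Fin.last m) x := by
    rw [← form_dual, Function.update_eq_self]
  have e2 : ‖form S c 1 f0 f‖ ≤ 𝔼 x, 1 * ‖dual S c 1 f0 f (Fin.last m) x‖ := by
    rw [e1]
    refine (RCLike.norm_expect_le (K := ℂ)).trans (expect_le_expect fun x _ => ?_)
    rw [norm_mul]
    exact mul_le_mul_of_nonneg_right (hf x) (norm_nonneg _)
  refine (pow_le_pow_left₀ hδ (h.trans e2) 2).trans ?_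
  refine (expect_mul_sq_le_sq_mul_sq univ (fun _ => (1 : ℝ))
    fun x => ‖dual S c 1 f0 f (Fin.last m) x‖).trans ?_
  refine mul_le_of_le_one_left (expect_nonneg fun k _ => by (clear * -; positivity)) ?_
  simp

end Str

end

end Pool.Agent.Helper67.NX2

end

section

set_option autoImplicit false

open Finset

open scoped BigOperators ComplexConjugate

namespace Pool.Agent.Helper67.NX2

open Pool.Agent.Helper57.NX

noncomputable section

/-- the window sums of the phases after removing the integer parts -/
theorem phase15 {m N : ℕ} [NeZero N] {S : Sys (m + 1)} {c : Fin (m + 1) → ℝ} {x : ℝ}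
    {lam : ℕ} (hI : IG S c N x lam) (hD : 0 < S.D) (d : ℕ) (hd : c (Fin.last m) = d)
    (θ : Fin m → ℝ) (β : ℝ) (k : ℕ) :
    ‖e (∑ i : Fin m, θ i * (S.a c i.castSucc k)) * e (β * (S.a c (Fin.last m) k)) -
      e (∑ i : Fin (m + 1), (Fin.snoc (α := fun _ => ℝ) (fun i : Fin m => θ i * S.P i.castSucc)
        (β * S.P (Fin.last m)) : Fin (m + 1) → ℝ) i * (((k : ℝ) + S.ρ) / S.D) ^ (c i))‖ ≤
      2 * Real.pi * ∑ i : Fin m, |θ i| := by
  rw [← e_add]
  refine (norm_e_sub_e_le _ _).trans ?_
  refine mul_le_mul_of_nonneg_left ?_ (by positivity)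
  rw [Fin.sum_univ_castSucc]
  simp only [Fin.snoc_castSucc, Fin.snoc_last]
  rw [a_last15 hI hD d hd k]
  have h1 : ∑ i : Fin m, θ i * (S.a c i.castSucc k : ℝ) +
      β * (S.P (Fin.last m) * S.t k ^ c (Fin.last m)) -
      (∑ i : Fin m, θ i * S.P i.castSucc * ((k + S.ρ) / S.D) ^ c i.castSucc +
        β * S.P (Fin.last m) * ((k + S.ρ) / S.D) ^ c (Fin.last m)) =
      ∑ i : Fin m, θ i * ((S.a c i.castSucc k : ℝ) - S.P i.castSucc * (S.t k) ^ c i.castSucc) := by
    simp only [mul_sub, Finset.sum_sub_distrib, Sys.t]
    have h2 : ∀ i : Fin m, θ i * S.P i.castSucc * ((k + S.ρ) / S.D) ^ c i.castSucc =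
        θ i * (S.P i.castSucc * ((k + S.ρ) / S.D) ^ c i.castSucc) := fun i => by ring
    simp_rw [h2]
    ring
  rw [h1]
  refine (Finset.abs_sum_le_sum_abs _ _).trans (Finset.sum_le_sum fun i _ => ?_)
  rw [abs_mul]
  refine mul_le_of_le_one_right (abs_nonneg _) ?_
  unfold Sys.a
  have h3 := Int.floor_le (S.P i.castSucc * S.t k ^ c i.castSucc)
  have h4 := Int.lt_floor_add_one (S.P i.castSucc * S.t k ^ c i.castSucc)
  rw [abs_le]
  constructor <;> (clear * - h4 h3; linarith)

end

end Pool.Agent.Helper67.NX2

end
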