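import Pool.Agent.Helper23.MC.L01_a0
import Pool.Agent.Helper23.MC.L01_a1
import Pool.Agent.Helper23.MC.L01_a12
import Pool.Agent.Helper23.MC.L01_a2
import Pool.Agent.Helper23.MC.L01_a7

/-!
Parts of Helper41.NX.Conv, Helper41.NX.BaseClass, Helper8.NX2.BaseFin, Helper91.NX2.GncAux, Helper91.NX2.GncArith, Helper21.NX2.ZeroArithOf
-/

attribute [local instance 5000]
  Pool.Agent.Helper23.MC.Inst.rCharZero Pool.Agent.Helper23.MC.Inst.rALM
  Pool.Agent.Helper23.MC.Inst.rARM Pool.Agent.Helper23.MC.Inst.rALSM
  Pool.Agent.Helper23.MC.Inst.rARSM Pool.Agent.Helper23.MC.Inst.rARRLE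
  Pool.Agent.Helper23.MC.Inst.rALRLE Pool.Agent.Helper23.MC.Inst.rARRLT
  Pool.Agent.Helper23.MC.Inst.rALRLT Pool.Agent.Helper23.MC.Inst.rPMRLT
  Pool.Agent.Helper23.MC.Inst.rMPRLT Pool.Agent.Helper23.MC.Inst.rPMM
  Pool.Agent.Helper23.MC.Inst.rMPM Pool.Agent.Helper23.MC.Inst.rPMSM
  Pool.Agent.Helper23.MC.Inst.rMPSM Pool.Agent.Helper23.MC.Inst.rEAOL
  Pool.Agent.Helper23.MC.Inst.rIOR Pool.Agent.Helper23.MC.Inst.rISOR
  Pool.Agent.Helper23.MC.Inst.rNZD Pool.Agent.Helper23.MC.Inst.rcCharZero
  Pool.Agent.Helper23.MC.Inst.rcNZD Pool.Agent.Helper23.MC.Inst.zCharZero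
  Pool.Agent.Helper23.MC.Inst.zALM Pool.Agent.Helper23.MC.Inst.zARM
  Pool.Agent.Helper23.MC.Inst.zALSM Pool.Agent.Helper23.MC.Inst.zARSM
  Pool.Agent.Helper23.MC.Inst.zIOR Pool.Agent.Helper23.MC.Inst.zISOR
  Pool.Agent.Helper23.MC.Inst.zNZD Pool.Agent.Helper23.MC.Inst.qCharZero
  Pool.Agent.Helper23.MC.Inst.mR Pool.Agent.Helper23.MC.Inst.mC Pool.Agent.Helper23.MC.Inst.mRC
  Pool.Agent.Helper23.MC.Inst.rPSM Pool.Agent.Helper23.MC.Inst.rCSM
  Pool.Agent.Helper23.MC.Inst.cAdd Pool.Agent.Helper23.MC.Inst.cAddM
  Pool.Agent.Helper23.MC.Inst.cMul Pool.Agent.Helper23.MC.Inst.cMon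

namespace Pool.Agent.Helper41.NX
end Pool.Agent.Helper41.NX
namespace Pool.Agent.Helper57.NX
end Pool.Agent.Helper57.NX
namespace Pool.Agent.Helper67.NX2
end Pool.Agent.Helper67.NX2
namespace Pool.Agent.Helper82.NX
end Pool.Agent.Helper82.NX

section

set_option autoImplicit false

open Finset

open scoped BigOperators ComplexConjugate

namespace Pool.Agent.Helper41.NX

open Pool.Agent.Helper57.NX

noncomputable section

theorem base_conv (m : ℕ) (c : Fin (m + 1) → ℝ) (hc0 : ∀ i, 0 < c i) :
    ∃ C : ℝ, 0 < C ∧ ∀ ε : ℝ, 0 < ε → ε ≤ 1 / 2 → ∀ (S : Sys (m + 1)) (N : ℕ) [NeZero N] (x0 : ℝ),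
    x0 ≤ c (Fin.last m) → x0 ≤ 1 / 8 → Good S c N x0 → 4 ≤ S.D → C * S.D ^ (-ε) ≤ 1 / 2 →
    ∀ σ : ℝ, 0 ≤ σ → σ ≤ 1 / 8 → ∀ X : ℝ, S.Q * S.D ^ (c (Fin.last m) - 1 / 4) ≤ X →
    ∀ f : ZMod N → ℂ, Adm (S.D ^ σ) X f → ∀ b : ZMod N → ℂ, (∀ x, ‖b x‖ ≤ 1) →
    ∀ V : ℝ, 0 ≤ V → V ≤ S.D ^ (1 / 3 : ℝ) → ∀ v : ZMod N → Fin m → ℝ,
    (∀ x, b x ≠ 0 → ∀ i, |v x i| ≤ V) → ∀ K : ℕ, 1 ≤ K → (K : ℝ) ≤ S.D ^ (1 - ε) →
    S.D ^ (1 - ε) / 2 ≤ (K : ℝ) → ∀ u1 ∈ S.I, ∃ z0 Z : ℕ,
      3 / 4 * S.P (Fin.last m) ≤ z0 ∧
      (z0 : ℝ) + Z ≤ 4 ^ (c (Fin.last m)) * S.P (Fin.last m) ∧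
      c (Fin.last m) / 16 * (S.P (Fin.last m) * S.D ^ (-ε)) ≤ Z ∧
      ‖𝔼 x, b x * 𝔼 j ∈ range K, f (x + (S.a c (Fin.last m) (u1 + j) : ZMod N)) *
        e (∑ i : Fin m, v x i * (S.t (u1 + j)) ^ (c i.castSucc))‖ ≤
      ‖𝔼 x, b x * 𝔼 z ∈ Ico z0 (z0 + Z), f (x + (z : ZMod N)) *
        e (∑ i : Fin m, v x i * ((z : ℝ) / S.P (Fin.last m)) ^
          (c i.castSucc / c (Fin.last m)))‖ + C * S.D ^ (-ε) := by
  set cl : ℝ := c (Fin.last m) with hcl
  have hcl0 : 0 < cl := hc0 _
  obtain ⟨C1, hC10, hC1⟩ := rpow_lip cl 1 4 one_pos
  obtain ⟨C2, hC20, hC2⟩ := rpow_lip (cl - 1) 1 4 one_pos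
  obtain ⟨C3, hC30, hC3⟩ := rpow_taylor cl 1 4 one_pos
  have h4 : (1 : ℝ) ≤ 4 ^ cl := Real.one_le_rpow (by norm_num) hcl0.le
  have hL : ∀ i : Fin m, ∃ C : ℝ, 0 < C ∧ ∀ x ∈ Set.Icc (1 / 2) ((4 : ℝ) ^ cl),
      ∀ y ∈ Set.Icc (1 / 2) ((4 : ℝ) ^ cl), |x ^ (c i.castSucc / cl) - y ^ (c i.castSucc / cl)| ≤
        C * |x - y| := fun i => rpow_lip _ _ _ (by norm_num)
  choose C4 hC40 hC4 using hL
  set E4 : ℝ := ∑ i, C4 i with hE4
  exact by
    have hE40 : 0 ≤ E4 := sum_nonneg fun i _ => (hC40 i).le
    set Cη : ℝ := 4 / cl * (1 + C3 + cl * C2) with hCη
    have hCη0 : 0 < Cη := by positivity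
    set C5 : ℝ := 4 * cl * 4 ^ cl + 2 * Real.pi * (E4 * (1 + C1)) with hC5
    have hpi := Real.pi_pos
    have hC50 : 0 < C5 := by
      have : 0 ≤ 2 * Real.pi * (E4 * (1 + C1)) := by (clear * - hE40 hC10; positivity)
      have h5 : 0 < 4 * cl * 4 ^ cl := by positivity
      (clear * - this h5; linarith)
    exact by
      refine ⟨4 * Cη + C5, by (clear * - hcl0 hC30 hC20 hE40 hC10; positivity), ?_⟩
      intro ε hε hε2 S N _ x0 hx0c hx08 hG hD4 hDε σ hσ0 hσ8 X hX f hf b hb V hV0 hV v hv K hK1 hKu hKl
        u1 hu1
      set D : ℝ := S.D with hD
      set P : ℝ := S.P (Fin.last m) with hP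
      have hD0 : 0 < D := by (clear * - hD4; linarith)
      have hD1 : 1 ≤ D := by (clear * - hD4; linarith)
      have hQ0 : (0 : ℝ) < S.Q := lt_of_lt_of_le (by positivity) hG.Q1
      -- size of P
      have hPl : S.Q * D ^ (cl - x0) ≤ P := hG.P1 (Fin.last m)
      exact by
        have hPu : P ≤ S.Q * D ^ (cl + x0) := hG.P2 (Fin.last m)
        have hPN : P ≤ N * D ^ x0 := hG.N1 (Fin.last m)
        have hPD2 : D ^ (2 : ℝ) ≤ P := by
          have h1 : (1 : ℝ) ≤ D ^ (cl - x0) := Real.one_le_rpow hD1 (by (clear * - hx0c; linarith))
          calc D ^ (2 : ℝ) ≤ S.Q := hG.Q1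
            _ ≤ S.Q * D ^ (cl - x0) := le_mul_of_one_le_right hQ0.le h1
            _ ≤ P := hPl
        have hDD : D * D ≤ P := by
          have h1 : D ^ (2 : ℝ) = D * D := by
            rw [Real.rpow_two]; ring
          exact h1 ▸ hPD2
        have hDD4 : D ≤ D * D := by (clear * - hD4; nlinarith only [hD4])
        have hDD16 : 16 ≤ D * D := by nlinarith only [hD4]
        exact by
          have hP0 : 0 < P := by linarith only [hDD, hDD16]
          have hP16 : 16 ≤ P := by linarith only [hDD, hDD16]
          have hPgeD : D ≤ P := by linarith only [hDD, hDD4]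
          -- the sequence
          have hDε0 : 0 < D ^ (-ε) := by positivity
          have hK0 : (0 : ℝ) < K := by positivity
          have hD1ε : D ^ (1 - ε) = D * D ^ (-ε) := by
            rw [sub_eq_add_neg, Real.rpow_add hD0, Real.rpow_one]
          exact by
            have hDε1 : D ^ (-ε) ≤ 1 := Real.rpow_le_one_of_one_le_of_nonpos hD1 (by (clear * - hε; linarith))
            have hKD : (K : ℝ) ≤ D := by
              rw [hD1ε] at hKu
              exact hKu.trans (mul_le_of_le_one_right hD0.le hDε1)
            rw [Sys.I, mem_Ico] at hu1
            have hu1l : D ≤ (u1 : ℝ) := hG.u1.trans (by exact_mod_cast hu1.1)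
            have hu1u : (u1 : ℝ) ≤ 2 * D := by
              have h1 : (u1 : ℝ) ≤ S.u + S.T := by exact_mod_cast hu1.2.le
              exact h1.trans hG.u2
            have htmem : ∀ j ≤ K, S.t (u1 + j) ∈ Set.Icc (1 : ℝ) 4 := by
              intro j hj
              have hjK : (j : ℝ) ≤ K := by exact_mod_cast hj
              have hj0 : (0 : ℝ) ≤ j := by (clear * -; positivity)
              unfold Sys.t
              rw [← hD]
              push_cast
              constructor
              · rw [le_div_iff₀ hD0]
                (clear * - hu1l hG; linarith [hG.ρ0])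
              · rw [div_le_iff₀ hD0]
                (clear * - hε hε2 hD4 hKD hu1u hjK hG; linarith [hG.ρ1])
            have htstep : ∀ j, S.t (u1 + (j + 1)) - S.t (u1 + j) = 1 / D := by
              intro j
              unfold Sys.t
              rw [← hD]
              push_cast
              field_simp
              ring
            exact by
              have ht0 : ∀ j : ℕ, S.t (u1 + j) - S.t u1 = j / D := by
                intro j
                unfold Sys.t
                rw [← hD]
                push_cast
                field_simp
                ring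
              set α : ℕ → ℕ := fun j => ⌊P * S.t (u1 + j) ^ cl⌋₊ with hα
              have htpos : ∀ j ≤ K, (1 : ℝ) ≤ S.t (u1 + j) ^ cl := fun j hj =>
                Real.one_le_rpow (htmem j hj).1 hcl0.le
              have hαa : ∀ j ≤ K, (S.a c (Fin.last m) (u1 + j) : ℤ) = (α j : ℤ) := by
                intro j hj
                have h1 : 0 ≤ P * S.t (u1 + j) ^ cl := by
                  have := htpos j hj
                  (clear * - hP0 this; positivity)
                unfold Sys.a
                rw [← hP, ← hcl]
                exact (Int.natCast_floor_eq_floor h1).symm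
              have hαl : ∀ j ≤ K, P * S.t (u1 + j) ^ cl - 1 < α j := fun j _ => Nat.sub_one_lt_floor _
              have hαu : ∀ j ≤ K, (α j : ℝ) ≤ P * S.t (u1 + j) ^ cl := fun j hj =>
                Nat.floor_le (by have := htpos j hj; (clear * - hP0 this; positivity))
              exact by
                have hα0t : α 0 = ⌊P * S.t u1 ^ cl⌋₊ := by simp [hα]
                set t0 : ℝ := S.t u1 with ht0def
                have ht0mem : t0 ∈ Set.Icc (1 : ℝ) 4 := by
                  have := htmem 0 (Nat.zero_le _)
                  simpa using this
                set g0 : ℝ := P * (cl * t0 ^ (cl - 1)) / D with hg0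
                have ht01 : 1 / 4 ≤ t0 ^ (cl - 1) := by
                  have h1 : t0 ^ (cl - 1) = t0 ^ cl / t0 := Real.rpow_sub_one (by (clear * - hε hε2 ht0mem; linarith [ht0mem.1])) _
                  rw [h1, div_le_div_iff₀ (by norm_num) (by (clear * - hε hε2 ht0mem; linarith [ht0mem.1]))]
                  have h2 : 1 ≤ t0 ^ cl := Real.one_le_rpow ht0mem.1 hcl0.le
                  (clear * - h2 ht0mem; linarith [ht0mem.2])
                have ht02 : t0 ^ (cl - 1) ≤ 4 ^ cl := by
                  have h1 : t0 ^ (cl - 1) ≤ t0 ^ cl :=
                    Real.rpow_le_rpow_of_exponent_le ht0mem.1 (by (clear * - hε hε2; linarith))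
                  exact h1.trans (Real.rpow_le_rpow (by (clear * - hε hε2 ht0mem; linarith [ht0mem.1])) ht0mem.2 hcl0.le)
                have hg0l : P / D * (cl / 4) ≤ g0 := by
                  have h1 : g0 = P / D * (cl * t0 ^ (cl - 1)) := by rw [hg0]; ring
                  rw [h1]
                  apply mul_le_mul_of_nonneg_left _ (by (clear * - hP0 hD4; positivity))
                  nlinarith only [ht01, hcl0]
                have hg0u : g0 ≤ P / D * (cl * 4 ^ cl) := by
                  have h1 : g0 = P / D * (cl * t0 ^ (cl - 1)) := by rw [hg0]; ring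
                  rw [h1]
                  apply mul_le_mul_of_nonneg_left _ (by positivity)
                  exact mul_le_mul_of_nonneg_left ht02 hcl0.le
                exact by
                  have hPDpos : 0 < P / D := by (clear * - hP0 hD4; positivity)
                  have hg0pos : 0 < g0 := lt_of_lt_of_le (by (clear * - hP0 hD4 hcl0; positivity)) hg0l
                  -- Dinv ≤ D^{-ε}
                  have hDinv : 1 / D ≤ D ^ (-ε) := by
                    have h1 : (1 : ℝ) / D = D ^ (-1 : ℝ) := by rw [Real.rpow_neg_one]; ring
                    rw [h1]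
                    exact Real.rpow_le_rpow_of_exponent_le hD1 (by (clear * - hε hε2; linarith))
                  set η : ℝ := Cη * D ^ (-ε) with hη
                  have hη0 : 0 ≤ η := by positivity
                  have hηhalf : η ≤ 1 / 2 := by
                    have h1 : η ≤ (4 * Cη + C5) * D ^ (-ε) := by
                      rw [hη]
                      apply mul_le_mul_of_nonneg_right _ hDε0.le
                      (clear * - hCη0 hC50; linarith)
                    (clear * - hDε h1; linarith)
                  exact by
                    have hgap : ∀ j < K, |((α (j + 1) : ℝ) - α j) - g0| ≤ η * g0 := by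
                      intro j hj
                      have hjK : (j : ℝ) ≤ K := by exact_mod_cast hj.le
                      have h1 := hC3 _ (htmem (j + 1) hj) _ (htmem j hj.le)
                      rw [htstep] at h1
                      have h2 := hC2 _ (htmem j hj.le) _ ht0mem
                      rw [ht0 j] at h2
                      have h3 : |(j : ℝ) / D| ≤ D ^ (-ε) := by
                        rw [abs_of_nonneg (by (clear * - hD4; positivity)), div_le_iff₀ hD0]
                        calc (j : ℝ) ≤ K := hjK
                          _ ≤ D ^ (1 - ε) := hKu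
                          _ = _ := by rw [hD1ε]; ring
                      have h5 : |((α (j + 1) : ℝ) - α j) - P * (S.t (u1 + (j + 1)) ^ cl - S.t (u1 + j) ^ cl)| ≤ 1 := by
                        have a1 := hαl (j + 1) hj
                        have a2 := hαu (j + 1) hj
                        have a3 := hαl j hj.le
                        have a4 := hαu j hj.le
                        rw [abs_le]
                        constructor <;> (clear * - a1 a4 a2 a3; linarith)
                      have h6 : ((α (j + 1) : ℝ) - α j) - g0 =
                          (((α (j + 1) : ℝ) - α j) - P * (S.t (u1 + (j + 1)) ^ cl - S.t (u1 + j) ^ cl)) +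
                          P * (S.t (u1 + (j + 1)) ^ cl - S.t (u1 + j) ^ cl -
                            cl * S.t (u1 + j) ^ (cl - 1) * (1 / D)) +
                          P / D * (cl * (S.t (u1 + j) ^ (cl - 1) - t0 ^ (cl - 1))) := by
                        rw [hg0]
                        ring
                      rw [h6]
                      have h7 : |P * (S.t (u1 + (j + 1)) ^ cl - S.t (u1 + j) ^ cl -
                            cl * S.t (u1 + j) ^ (cl - 1) * (1 / D))| ≤ P / D * (C3 * D ^ (-ε)) := by
                        rw [abs_mul, abs_of_pos hP0]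
                        calc P * _ ≤ P * (C3 * (1 / D) ^ 2) := mul_le_mul_of_nonneg_left h1 hP0.le
                          _ = P / D * (C3 * (1 / D)) := by ring
                          _ ≤ P / D * (C3 * D ^ (-ε)) := by
                              apply mul_le_mul_of_nonneg_left _ hPDpos.le
                              exact mul_le_mul_of_nonneg_left hDinv hC30.le
                      have h8 : |P / D * (cl * (S.t (u1 + j) ^ (cl - 1) - t0 ^ (cl - 1)))| ≤
                          P / D * (cl * C2 * D ^ (-ε)) := by
                        rw [abs_mul, abs_of_pos hPDpos, abs_mul, abs_of_pos hcl0]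
                        apply mul_le_mul_of_nonneg_left _ hPDpos.le
                        rw [mul_assoc]
                        apply mul_le_mul_of_nonneg_left _ hcl0.le
                        exact h2.trans (mul_le_mul_of_nonneg_left h3 hC20.le)
                      have h9 : (1 : ℝ) ≤ P / D * D ^ (-ε) := by
                        calc (1 : ℝ) = D * (1 / D) := by field_simp
                          _ ≤ P / D * D ^ (-ε) := by
                              apply mul_le_mul _ hDinv (by positivity) hPDpos.le
                              rw [le_div_iff₀ hD0]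
                              exact hDD
                      have h10 : |(((α (j + 1) : ℝ) - α j) - P * (S.t (u1 + (j + 1)) ^ cl - S.t (u1 + j) ^ cl)) +
                          P * (S.t (u1 + (j + 1)) ^ cl - S.t (u1 + j) ^ cl -
                            cl * S.t (u1 + j) ^ (cl - 1) * (1 / D)) +
                          P / D * (cl * (S.t (u1 + j) ^ (cl - 1) - t0 ^ (cl - 1)))| ≤
                          P / D * ((1 + C3 + cl * C2) * D ^ (-ε)) := by
                        refine (abs_add_three _ _ _).trans ?_
                        have : P / D * ((1 + C3 + cl * C2) * D ^ (-ε)) = P / D * D ^ (-ε) +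
                          P / D * (C3 * D ^ (-ε)) + P / D * (cl * C2 * D ^ (-ε)) := by ring
                        (clear * - h5 h7 h8 h9; linarith)
                      refine h10.trans ?_
                      have h11 : η * g0 ≥ η * (P / D * (cl / 4)) := mul_le_mul_of_nonneg_left hg0l hη0
                      have h12 : η * (P / D * (cl / 4)) = P / D * ((1 + C3 + cl * C2) * D ^ (-ε)) := by
                        rw [hη, hCη]
                        (clear * - hcl0 hD4 hP0 hC30 hC20; field_simp)
                      (clear * - h11 h12; linarith)
                    have hαmono : ∀ j < K, α j ≤ α (j + 1) := by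
                      intro j hj
                      have h1 := abs_le.mp (hgap j hj)
                      have h2 : η * g0 ≤ g0 / 2 := by nlinarith only [hηhalf, hg0pos]
                      have h3 : (α j : ℝ) ≤ α (j + 1) := by linarith only [h1.1, h2, hg0pos]
                      exact_mod_cast h3
                    -- the two averages
                    set G : ℕ → ℂ := fun j => 𝔼 x, b x * (f (x + (S.a c (Fin.last m) (u1 + j) : ZMod N)) *
                          e (∑ i : Fin m, v x i * (S.t (u1 + j)) ^ (c i.castSucc))) with hGdef
                    set Gt : ℕ → ℂ := fun z => 𝔼 x, b x * (f (x + (z : ZMod N)) *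
                          e (∑ i : Fin m, v x i * ((z : ℝ) / P) ^ (c i.castSucc / cl))) with hGtdef
                    have hG1 : ∀ j, ‖G j‖ ≤ 1 := by
                      intro j
                      refine norm_expect_le_of5 _ _ zero_le_one fun x _ => ?_
                      rw [norm_mul, norm_mul, norm_e, mul_one]
                      exact mul_le_one₀ (hb x) (norm_nonneg _) (hf.bdd _)
                    have hXpos : 0 < X := lt_of_lt_of_le (by (clear * - hQ0 hD4; positivity)) hX
                    exact by
                      have hN0 : (0 : ℝ) < N := by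
                        have := NeZero.pos N
                        exact_mod_cast this
                      have hGt : ∀ j < K, ∀ z ∈ Ico (α j) (α (j + 1)), ‖G j - Gt z‖ ≤ C5 * D ^ (-ε) := by
                        intro j hj z hz
                        rw [mem_Ico] at hz
                        have hz1 : (α j : ℝ) ≤ z := by exact_mod_cast hz.1
                        have hz2 : (z : ℝ) ≤ α (j + 1) := by exact_mod_cast hz.2.le
                        have a1 := hαl (j + 1) hj
                        have a2 := hαu (j + 1) hj
                        have a3 := hαl j hj.le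
                        have a4 := hαu j hj.le
                        have b1 := htpos j hj.le
                        have b2 := htpos (j + 1) hj
                        have b3 : S.t (u1 + j) ^ cl ≤ 4 ^ cl :=
                          Real.rpow_le_rpow (by (clear * - hε hε2 htmem hj; linarith [(htmem j hj.le).1])) (htmem j hj.le).2 hcl0.le
                        have b4 : S.t (u1 + (j + 1)) ^ cl ≤ 4 ^ cl :=
                          Real.rpow_le_rpow (by (clear * - hε hε2 htmem hj; linarith [(htmem (j + 1) hj).1])) (htmem (j + 1) hj).2 hcl0.le
                        have b5 := hC1 _ (htmem (j + 1) hj) _ (htmem j hj.le)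
                        rw [htstep, abs_of_pos (by positivity : 0 < 1 / D)] at b5
                        have b6 := (abs_le.mp b5).2
                        -- z / P close to t^cl
                        have hzP : |(z : ℝ) / P - S.t (u1 + j) ^ cl| ≤ (1 + C1) / D := by
                          have h1 : 1 / P ≤ 1 / D := by
                            exact one_div_le_one_div_of_le hD0 hPgeD
                          have h2 : S.t (u1 + j) ^ cl - 1 / P ≤ (z : ℝ) / P := by
                            rw [le_div_iff₀ hP0, sub_mul, one_div, inv_mul_cancel₀ hP0.ne']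
                            (clear * - hz1 a3; linarith)
                          have h3 : (z : ℝ) / P ≤ S.t (u1 + (j + 1)) ^ cl := by
                            rw [div_le_iff₀ hP0]
                            (clear * - hz2 a2; linarith)
                          have h4 : (1 + C1) / D = 1 / D + C1 * (1 / D) := by ring
                          rw [h4, abs_le]
                          have h5 : 0 ≤ C1 * (1 / D) := by positivity
                          have h6 : 0 ≤ 1 / D := by (clear * - hD4; positivity)
                          constructor <;> (clear * - h1 h2 h5 b6 h3 h6; linarith)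
                        have hzmem : (z : ℝ) / P ∈ Set.Icc (1 / 2) ((4 : ℝ) ^ cl) := by
                          constructor
                          · rw [le_div_iff₀ hP0]
                            nlinarith only [hz1, a3, b1, hP16]
                          · rw [div_le_iff₀ hP0]
                            nlinarith only [hz2, a2, b4, hP16]
                        have htm : S.t (u1 + j) ^ cl ∈ Set.Icc (1 / 2) ((4 : ℝ) ^ cl) := ⟨by (clear * - hε hε2 b1; linarith), b3⟩
                        -- f close
                        have hfz : 𝔼 x, ‖f (x + (S.a c (Fin.last m) (u1 + j) : ZMod N)) - f (x + (z : ZMod N))‖ ≤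
                            4 * cl * 4 ^ cl * D ^ (-ε) := by
                          have h1 : ((S.a c (Fin.last m) (u1 + j) : ℤ) : ZMod N) =
                              (z : ZMod N) + (((α j : ℤ) - z : ℤ) : ZMod N) := by
                            rw [hαa j hj.le]
                            push_cast
                            ring
                          have h2 : ∀ x : ZMod N, f (x + (S.a c (Fin.last m) (u1 + j) : ZMod N)) -
                              f (x + (z : ZMod N)) = f ((x + (z : ZMod N)) + (((α j : ℤ) - z : ℤ) : ZMod N)) -
                              f (x + (z : ZMod N)) := by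
                            intro x
                            rw [h1, add_assoc]
                          simp only [h2]
                          rw [expect_shift (fun y => ‖f (y + (((α j : ℤ) - z : ℤ) : ZMod N)) - f y‖)
                            (z : ZMod N)]
                          refine (hf.tv.l1_shift hXpos _).trans ?_
                          have h3 : |(((α j : ℤ) - z : ℤ) : ℝ)| ≤ 2 * (P / D * (cl * 4 ^ cl)) := by
                            have h30 := (abs_le.mp (hgap j hj)).2
                            have h31 : η * g0 ≤ g0 / 2 := by nlinarith only [hηhalf, hg0pos]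
                            push_cast
                            rw [abs_le]
                            constructor <;> (clear * - hg0u hg0pos hz2 h30 h31 hz1; linarith)
                          have h4 : 1 / X ≤ D ^ (3 / 8 : ℝ) / P := by
                            rw [div_le_div_iff₀ hXpos hP0, one_mul]
                            calc P ≤ S.Q * D ^ (cl + x0) := hPu
                              _ ≤ S.Q * D ^ (3 / 8 + (cl - 1 / 4)) := by
                                  apply mul_le_mul_of_nonneg_left _ hQ0.le
                                  exact Real.rpow_le_rpow_of_exponent_le hD1 (by (clear * - hx08; linarith))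
                              _ = D ^ (3 / 8 : ℝ) * (S.Q * D ^ (cl - 1 / 4)) := by
                                  rw [Real.rpow_add hD0]; ring
                              _ ≤ D ^ (3 / 8 : ℝ) * X := mul_le_mul_of_nonneg_left hX (by (clear * - hD4; positivity))
                          have h5 : 1 / (N : ℝ) ≤ D ^ (3 / 8 : ℝ) / P := by
                            rw [div_le_div_iff₀ hN0 hP0, one_mul]
                            calc P ≤ N * D ^ x0 := hPN
                              _ ≤ N * D ^ (3 / 8 : ℝ) := by
                                  apply mul_le_mul_of_nonneg_left _ hN0.le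
                                  exact Real.rpow_le_rpow_of_exponent_le hD1 (by (clear * - hε hε2 hx08; linarith))
                              _ = _ := by ring
                          have h6 : D ^ σ ≤ D ^ (1 / 8 : ℝ) := Real.rpow_le_rpow_of_exponent_le hD1 hσ8
                          have h7 : D ^ (1 / 8 : ℝ) * D ^ (3 / 8 : ℝ) = D ^ (1 / 2 : ℝ) := by
                            rw [← Real.rpow_add hD0]; norm_num
                          have h8 : D ^ (1 / 2 : ℝ) / D ≤ D ^ (-ε) := by
                            have h80 : D ^ (1 / 2 : ℝ) / D = D ^ (1 / 2 - 1 : ℝ) := by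
                              rw [Real.rpow_sub_one hD0.ne']
                            rw [h80]
                            exact Real.rpow_le_rpow_of_exponent_le hD1 (by (clear * - hε2; linarith))
                          calc |(((α j : ℤ) - z : ℤ) : ℝ)| * D ^ σ * (1 / X + 1 / N)
                              ≤ (2 * (P / D * (cl * 4 ^ cl))) * D ^ (1 / 8 : ℝ) *
                                (D ^ (3 / 8 : ℝ) / P + D ^ (3 / 8 : ℝ) / P) := by
                                apply mul_le_mul _ (add_le_add h4 h5) (by (clear * - hXpos hN0; positivity)) (by (clear * - hP0 hD4 hcl0; positivity))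
                                exact mul_le_mul h3 h6 (by positivity) (by (clear * - hP0 hD4 hcl0; positivity))
                            _ = 4 * cl * 4 ^ cl * ((D ^ (1 / 8 : ℝ) * D ^ (3 / 8 : ℝ)) / D) := by
                                field_simp
                                ring
                            _ = 4 * cl * 4 ^ cl * (D ^ (1 / 2 : ℝ) / D) := by rw [h7]
                            _ ≤ _ := mul_le_mul_of_nonneg_left h8 (by positivity)
                        -- phases close
                        have hph : ∀ x, b x ≠ 0 → ‖e (∑ i : Fin m, v x i * (S.t (u1 + j)) ^ (c i.castSucc)) -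
                            e (∑ i : Fin m, v x i * ((z : ℝ) / P) ^ (c i.castSucc / cl))‖ ≤
                            2 * Real.pi * (E4 * (1 + C1)) * D ^ (-ε) := by
                          intro x hx
                          refine (norm_e_sub_e_le _ _).trans ?_
                          rw [mul_assoc (2 * Real.pi)]
                          apply mul_le_mul_of_nonneg_left _ (by positivity)
                          rw [← sum_sub_distrib]
                          refine (abs_sum_le_sum_abs _ _).trans ?_
                          have h1 : ∀ i : Fin m, |v x i * (S.t (u1 + j)) ^ (c i.castSucc) -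
                              v x i * ((z : ℝ) / P) ^ (c i.castSucc / cl)| ≤ C4 i * ((1 + C1) * D ^ (-ε)) := by
                            intro i
                            have h2 : (S.t (u1 + j)) ^ (c i.castSucc) =
                                ((S.t (u1 + j)) ^ cl) ^ (c i.castSucc / cl) := by
                              rw [← Real.rpow_mul (by (clear * - hε hε2 htmem hj; linarith [(htmem j hj.le).1])), mul_div_cancel₀ _ hcl0.ne']
                            rw [h2, ← mul_sub, abs_mul]
                            have h3 := hC4 i _ htm _ hzmem
                            rw [abs_sub_comm (S.t (u1 + j) ^ cl)] at h3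
                            have h5 : |((S.t (u1 + j)) ^ cl) ^ (c i.castSucc / cl) -
                                ((z : ℝ) / P) ^ (c i.castSucc / cl)| ≤ C4 i * ((1 + C1) / D) :=
                              h3.trans (mul_le_mul_of_nonneg_left hzP (hC40 i).le)
                            calc |v x i| * _ ≤ D ^ (1 / 3 : ℝ) * (C4 i * ((1 + C1) / D)) :=
                                  mul_le_mul ((hv x hx i).trans hV) h5 (abs_nonneg _) (by positivity)
                              _ = C4 i * ((1 + C1) * (D ^ (1 / 3 : ℝ) / D)) := by ring
                              _ ≤ C4 i * ((1 + C1) * D ^ (-ε)) := by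
                                  apply mul_le_mul_of_nonneg_left _ (hC40 i).le
                                  apply mul_le_mul_of_nonneg_left _ (by positivity)
                                  rw [← Real.rpow_sub_one hD0.ne']
                                  exact Real.rpow_le_rpow_of_exponent_le hD1 (by (clear * - hε hε2; linarith))
                          calc _ ≤ ∑ i, C4 i * ((1 + C1) * D ^ (-ε)) := sum_le_sum fun i _ => h1 i
                            _ = _ := by rw [← sum_mul, ← hE4]; ring
                        -- combine
                        simp only [hGdef, hGtdef]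
                        rw [← expect_sub_distrib]
                        refine (norm_expect_le5 _ _).trans ?_
                        have hterm : ∀ x : ZMod N, ‖b x * (f (x + (S.a c (Fin.last m) (u1 + j) : ZMod N)) *
                            e (∑ i : Fin m, v x i * (S.t (u1 + j)) ^ (c i.castSucc))) -
                            b x * (f (x + (z : ZMod N)) *
                            e (∑ i : Fin m, v x i * ((z : ℝ) / P) ^ (c i.castSucc / cl)))‖ ≤
                            ‖f (x + (S.a c (Fin.last m) (u1 + j) : ZMod N)) - f (x + (z : ZMod N))‖ +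
                            2 * Real.pi * (E4 * (1 + C1)) * D ^ (-ε) := by
                          intro x
                          by_cases hx : b x = 0
                          · rw [hx]
                            simp only [zero_mul, sub_zero, norm_zero]
                            have : 0 ≤ 2 * Real.pi * (E4 * (1 + C1)) * D ^ (-ε) := by (clear * - hE40 hC10 hD4; positivity)
                            have h0 := norm_nonneg (f (x + (S.a c (Fin.last m) (u1 + j) : ZMod N)) -
                              f (x + (z : ZMod N)))
                            (clear * - this h0; linarith)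
                          · have h1 : b x * (f (x + (S.a c (Fin.last m) (u1 + j) : ZMod N)) *
                              e (∑ i : Fin m, v x i * (S.t (u1 + j)) ^ (c i.castSucc))) -
                              b x * (f (x + (z : ZMod N)) *
                              e (∑ i : Fin m, v x i * ((z : ℝ) / P) ^ (c i.castSucc / cl))) =
                              b x * ((f (x + (S.a c (Fin.last m) (u1 + j) : ZMod N)) - f (x + (z : ZMod N))) *
                                e (∑ i : Fin m, v x i * (S.t (u1 + j)) ^ (c i.castSucc)) +
                                f (x + (z : ZMod N)) * (e (∑ i : Fin m, v x i * (S.t (u1 + j)) ^ (c i.castSucc)) -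
                                e (∑ i : Fin m, v x i * ((z : ℝ) / P) ^ (c i.castSucc / cl)))) := by ring
                            rw [h1, norm_mul]
                            have h2 := norm_add_le ((f (x + (S.a c (Fin.last m) (u1 + j) : ZMod N)) -
                                f (x + (z : ZMod N))) * e (∑ i : Fin m, v x i * (S.t (u1 + j)) ^ (c i.castSucc)))
                                (f (x + (z : ZMod N)) * (e (∑ i : Fin m, v x i * (S.t (u1 + j)) ^ (c i.castSucc)) -
                                e (∑ i : Fin m, v x i * ((z : ℝ) / P) ^ (c i.castSucc / cl))))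
                            rw [norm_mul, norm_mul, norm_e, mul_one] at h2
                            have h3 := mul_le_mul (hf.bdd (x + (z : ZMod N))) (hph x hx) (norm_nonneg _) zero_le_one
                            rw [one_mul] at h3
                            have h5 := h2.trans (add_le_add_right h3 _)
                            have h6 : ‖b x‖ * ‖(f (x + (S.a c (Fin.last m) (u1 + j) : ZMod N)) -
                                f (x + (z : ZMod N))) * e (∑ i : Fin m, v x i * (S.t (u1 + j)) ^ (c i.castSucc)) +
                                f (x + (z : ZMod N)) * (e (∑ i : Fin m, v x i * (S.t (u1 + j)) ^ (c i.castSucc)) -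
                                e (∑ i : Fin m, v x i * ((z : ℝ) / P) ^ (c i.castSucc / cl)))‖ ≤ 1 * _ :=
                              mul_le_mul (hb x) h5 (norm_nonneg _) zero_le_one
                            rw [one_mul] at h6
                            exact h6
                        calc _ ≤ 𝔼 x, (‖f (x + (S.a c (Fin.last m) (u1 + j) : ZMod N)) - f (x + (z : ZMod N))‖ +
                            2 * Real.pi * (E4 * (1 + C1)) * D ^ (-ε)) := expect_le_expect fun x _ => hterm x
                          _ = 𝔼 x, ‖f (x + (S.a c (Fin.last m) (u1 + j) : ZMod N)) - f (x + (z : ZMod N))‖ +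
                            2 * Real.pi * (E4 * (1 + C1)) * D ^ (-ε) := by
                              rw [expect_add_distrib, expect_const univ_nonempty]
                          _ ≤ 4 * cl * 4 ^ cl * D ^ (-ε) + 2 * Real.pi * (E4 * (1 + C1)) * D ^ (-ε) :=
                              add_le_add_left hfz _
                          _ = _ := by rw [hC5]; ring
                      obtain ⟨hZl, hZu, hdiff⟩ := gap_change K hK1 α hαmono G Gt hG1 g0 η (C5 * D ^ (-ε)) hg0pos hη0
                        hηhalf hgap hGt
                      have hα0K : α 0 ≤ α K := by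
                        have : (α 0 : ℝ) ≤ α K := by
                          have : 0 < g0 * K / 2 := by (clear * - hP0 hcl0 ht01 hD4 hK1; positivity)
                          (clear * - hZl this; linarith)
                        exact_mod_cast this
                      refine ⟨α 0, α K - α 0, ?_, ?_, ?_, ?_⟩
                      · have h1 := hαl 0 (Nat.zero_le _)
                        have h2 := htpos 0 (Nat.zero_le _)
                        (clear * - h1 hP16 h2; nlinarith only [h1, h2, hP16])
                      · have h1 : ((α 0 : ℕ) : ℝ) + ((α K - α 0 : ℕ) : ℝ) = α K := by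
                          push_cast [hα0K]; ring
                        exact by
                          rw [h1]
                          refine (hαu K le_rfl).trans ?_
                          rw [mul_comm]
                          apply mul_le_mul_of_nonneg_right _ hP0.le
                          exact Real.rpow_le_rpow (by (clear * - hε hε2 htmem; linarith [(htmem K le_rfl).1])) (htmem K le_rfl).2 hcl0.le
                      · have h1 : ((α K - α 0 : ℕ) : ℝ) = (α K : ℝ) - α 0 := by
                          push_cast [hα0K]; ring
                        exact by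
                          rw [h1]
                          refine le_trans ?_ hZl
                          calc cl / 16 * (P * D ^ (-ε)) = (P / D * (cl / 4)) * (D ^ (1 - ε) / 2) / 2 := by
                                rw [hD1ε]
                                field_simp
                                ring
                            _ ≤ g0 * K / 2 := by
                                apply div_le_div_of_nonneg_right _ (by norm_num)
                                exact mul_le_mul hg0l hKl (by positivity) hg0pos.le
                      · have h1 : α 0 + (α K - α 0) = α K := by (clear * - hα0t hα0K; omega)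
                        exact by
                          rw [h1]
                          have h2 : 𝔼 x, b x * 𝔼 j ∈ range K, f (x + (S.a c (Fin.last m) (u1 + j) : ZMod N)) *
                              e (∑ i : Fin m, v x i * (S.t (u1 + j)) ^ (c i.castSucc)) = 𝔼 j ∈ range K, G j := by
                            simp only [hGdef, mul_expect]
                            rw [expect_comm]
                          have h3 : 𝔼 x, b x * 𝔼 z ∈ Ico (α 0) (α K), f (x + (z : ZMod N)) *
                              e (∑ i : Fin m, v x i * ((z : ℝ) / P) ^ (c i.castSucc / cl)) =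
                              𝔼 z ∈ Ico (α 0) (α K), Gt z := by
                            simp only [hGtdef, mul_expect]
                            rw [expect_comm]
                          rw [h2, h3]
                          have h4 := norm_sub_norm_le (𝔼 j ∈ range K, G j) (𝔼 z ∈ Ico (α 0) (α K), Gt z)
                          have h5 : (4 * Cη + C5) * D ^ (-ε) = C5 * D ^ (-ε) + 4 * η := by rw [hη]; ring
                          rw [h5]
                          (clear * - hdiff h4; linarith)

end

end Pool.Agent.Helper41.NX

end

section

set_option autoImplicit false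

open Finset

open scoped BigOperators ComplexConjugate

namespace Pool.Agent.Helper57.NX

open Pool.Agent.Helper41.NX

noncomputable section

theorem base_class (hES : ES0) (m : ℕ) (c : Fin (m + 1) → ℝ) (hc : StrictMono c)
    (hc0 : ∀ i, 0 < c i) : ∀ ε2 : ℝ, 0 < ε2 → ∃ ε1 : ℝ, 0 < ε1 ∧ ∀ ε : ℝ, 0 < ε → ε ≤ ε1 →
    ∃ x0 : ℝ, 0 < x0 ∧ ∃ σ : ℝ, 0 < σ ∧ ∃ D0 : ℝ,
    ∀ (S : Sys (m + 1)) (N : ℕ) [NeZero N], D0 ≤ S.D → Good S c N x0 →
    ∀ X : ℝ, S.Q * S.D ^ (c (Fin.last m) - 1 / 4) ≤ X →
    ∀ f : ZMod N → ℂ, Adm (S.D ^ σ) X f →
    ∀ (θ : ZMod N → Fin m → ℝ) (lam : ℝ), S.D ^ ε2 ≤ lam → lam ^ (7 / 6 : ℝ) ≤ S.D ^ (1 / 3 : ℝ) →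
    ∀ E : Finset (ZMod N), (∀ x ∈ E, (∀ i, |θ x i * S.P i.castSucc| ≤ lam ^ (7 / 6 : ℝ)) ∧
      ∃ i, lam ≤ |θ x i * S.P i.castSucc|) →
    ∀ K : ℕ, S.D ^ (1 - ε) ≤ (K : ℝ) + 1 → (K : ℝ) ≤ S.D ^ (1 - ε) →
    𝔼 x, (if x ∈ E then locCorr S c f θ K x else 0) ≤ S.D ^ (-σ) := by
  intro ε2 hε2
  set cl : ℝ := c (Fin.last m) with hcl
  have hcl0 : 0 < cl := hc0 _
  set g : Fin m → ℝ := fun i => c i.castSucc / cl with hg
  have hg0 : ∀ i, 0 < g i := fun i => div_pos (hc0 _) hcl0
  have hg1 : ∀ i, g i < 1 := fun i => by
    rw [hg]
    simp only
    rw [div_lt_one hcl0]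
    exact hc (Fin.castSucc_lt_last i)
  have hginj : Function.Injective g := by
    intro i j hij
    simp only [hg] at hij
    have h1 : c i.castSucc = c j.castSucc := by
      field_simp at hij
      exact hij
    exact Fin.castSucc_injective m (hc.injective h1)
  exact by
    have h4 : (1 : ℝ) ≤ 4 ^ cl := Real.one_le_rpow (by norm_num) hcl0.le
    set kap : ℝ := ε2 / 8 with hkap
    have hkap0 : 0 < kap := by positivity
    obtain ⟨xE, hxE0, σE, hσE0, P0, CE, hCE0, hpair⟩ :=
      pair_bound hES m g hg0 hg1 hginj (4 ^ cl) h4 (kap / (cl + 4)) (by positivity)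
    obtain ⟨CC, hCC0, hconv⟩ := base_conv m c hc0
    refine ⟨min (min xE ε2) (1 / 2) / 8, by positivity, fun ε hε hεε1 => ?_⟩
    exact by
      have hεxE : ε ≤ xE / 8 := hεε1.trans (div_le_div_of_nonneg_right
        ((min_le_left _ _).trans (min_le_left _ _)) (by norm_num))
      have hεε2 : ε ≤ ε2 / 8 := hεε1.trans (div_le_div_of_nonneg_right
        ((min_le_left _ _).trans (min_le_right _ _)) (by norm_num))
      have hε12 : ε ≤ 1 / 2 / 8 := hεε1.trans (div_le_div_of_nonneg_right
        (min_le_right _ _) (by norm_num))
      set x0 : ℝ := min cl (1 / 8) with hx0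
      have hx00 : 0 < x0 := by positivity
      set σ : ℝ := min (min (ε / 4) (1 / 32)) (min (ε2 / 64) (σE / 4)) with hσ
      exact by
        have hσ0 : 0 < σ := by positivity
        have hσ1 : σ ≤ ε / 4 := (min_le_left _ _).trans (min_le_left _ _)
        have hσ2 : σ ≤ 1 / 32 := (min_le_left _ _).trans (min_le_right _ _)
        have hσ3 : σ ≤ ε2 / 64 := (min_le_right _ _).trans (min_le_left _ _)
        have hσ4 : σ ≤ σE / 4 := (min_le_right _ _).trans (min_le_right _ _)
        have e1 := ev_le41 (4 * CC) (-ε) (-σ) (by (clear * - hσ0 hσ1; linarith))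
        exact by
          have e2 := ev_le41 (128 / cl) (ε - 2 * ε2 / 3) (-σ) (by (clear * - hεε2 hσ0 hσ3; linarith))
          have e3 := ev_le41 (128 * CE) (kap - ε2 / 3) (-(2 * σ)) (by rw [hkap]; (clear * - hσ0 hσ3; linarith))
          have e4 := ev_le41 32 (-1) (-(2 * σ)) (by (clear * - hε12 hσ0 hσ1; linarith))
          have e5 := ev_le41 (16 * CE) (-σE) (-(2 * σ)) (by (clear * - hσ0 hσ4; linarith))
          have e6 := ev_le41 (16 * CE) (-(ε2 / 6)) (-(2 * σ)) (by (clear * - hσ0 hσ3; linarith))
          have e7 := Filter.eventually_ge_atTop P0
          exact by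
            have e8 := Filter.eventually_ge_atTop (4 : ℝ)
            have e9 := ev_le41 (16 / cl) (-xE) (-ε) (by (clear * - hεxE hσ0 hσ1; linarith))
            have e10 := ev_le41 4 0 (2 * ε2 / 3) (by positivity)
            have e11 := ev_le41 2 0 (1 - ε) (by (clear * - hε12 hσ0 hσ1; linarith))
            obtain ⟨D0, hD0⟩ := Filter.eventually_atTop.mp (e1.and (e2.and (e3.and (e4.and (e5.and
              (e6.and (e7.and (e8.and (e9.and (e10.and e11))))))))))
            refine ⟨x0, hx00, σ, hσ0, D0, ?_⟩
            intro S N _ hDD hG X hX f hf θ lam hlam1 hlam2 E hE K hK1 hK2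
            obtain ⟨f1, f2, f3, f4, f5, f6, f7, f8, f9, f10, f11⟩ := hD0 S.D hDD
            clear e1 e2 e3 e4 e5 e6 e7 e8 e9 e10 e11 hD0
            set D : ℝ := S.D with hD
            have h10 : 4 ≤ D ^ (2 * ε2 / 3) := by
              rw [Real.rpow_zero, mul_one] at f10
              exact f10
            have h11 : 2 ≤ D ^ (1 - ε) := by
              rw [Real.rpow_zero, mul_one] at f11
              exact f11
            clear f10 f11
            have hDpos : 0 < D := by (clear * - hε12 hσ0 hσ1 f8; linarith)
            have hD1 : 1 ≤ D := by (clear * - hε12 hσ0 hσ1 f8; linarith)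
            set P : ℝ := S.P (Fin.last m) with hP
            have hQ0 : (0 : ℝ) < S.Q := lt_of_lt_of_le (by positivity) hG.Q1
            have hPl : S.Q * D ^ (cl - x0) ≤ P := hG.P1 (Fin.last m)
            have hPu : P ≤ S.Q * D ^ (cl + x0) := hG.P2 (Fin.last m)
            have hx0c : x0 ≤ cl := min_le_left _ _
            have hx08 : x0 ≤ 1 / 8 := min_le_right _ _
            have hPD2 : D * D ≤ P := by
              have h1 : (1 : ℝ) ≤ D ^ (cl - x0) := Real.one_le_rpow hD1 (by (clear * - hx0c; linarith))
              have h2 : D * D = D ^ (2 : ℝ) := by rw [Real.rpow_two]; ring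
              calc D * D = D ^ (2 : ℝ) := h2
                _ ≤ S.Q := hG.Q1
                _ ≤ S.Q * D ^ (cl - x0) := le_mul_of_one_le_right hQ0.le h1
                _ ≤ P := hPl
            have hPD : D ≤ P := by (clear * - hPD2 f8; nlinarith only [hPD2, f8])
            exact by
              have hPpos : 0 < P := by (clear * - hε12 hσ0 hσ1 f8 hPD; linarith)
              have hPup : P ≤ D ^ (cl + 4) := by
                calc P ≤ S.Q * D ^ (cl + x0) := hPu
                  _ ≤ D ^ (3 : ℝ) * D ^ (cl + x0) := mul_le_mul_of_nonneg_right hG.Q2 (by positivity)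
                  _ = D ^ (3 + (cl + x0)) := (Real.rpow_add hDpos _ _).symm
                  _ ≤ D ^ (cl + 4) := Real.rpow_le_rpow_of_exponent_le hD1 (by (clear * - hε12 hσ0 hσ1 hx08; linarith))
              -- lam
              have hlam_1 : 1 ≤ lam := (Real.one_le_rpow hD1 hε2.le).trans hlam1
              have hlam0 : 0 < lam := by (clear * - hε12 hσ0 hσ1 hlam_1; linarith)
              have hlamD : lam ≤ D ^ (1 / 3 : ℝ) := by
                refine le_trans ?_ hlam2
                calc lam = lam ^ (1 : ℝ) := (Real.rpow_one _).symm
                  _ ≤ lam ^ (7 / 6 : ℝ) := Real.rpow_le_rpow_of_exponent_le hlam_1 (by norm_num)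
              by_contra hcon
              exact by
                push Not at hcon
                -- choose k
                have hTpos : 0 < S.T := by
                  have h1 : 0 < D ^ (1 - x0) := by (clear * - f8; positivity)
                  have h2 : (0 : ℝ) < S.T := h1.trans_le hG.T1
                  exact_mod_cast h2
                have hIne : S.I.Nonempty := ⟨S.u, by rw [Sys.I, mem_Ico]; omega⟩
                have hswap : 𝔼 x, (if x ∈ E then locCorr S c f θ K x else 0) =
                    𝔼 k ∈ S.I, 𝔼 x, (if x ∈ E then ‖𝔼 j ∈ range K, f (x + (S.a c (Fin.last m) (k + j) :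
                      ZMod N)) * e (∑ i : Fin m, θ x i * S.P i.castSucc * (S.t (k + j)) ^ (c i.castSucc))‖
                      else 0) := by
                  rw [expect_comm]
                  refine expect_congr rfl fun x _ => ?_
                  split_ifs with hx
                  · rfl
                  · rw [expect_const hIne]
                rw [hswap] at hcon
                obtain ⟨u1, hu1, hcon1⟩ := exists_le_of_le_expect hIne hcon.le
                set v : ZMod N → Fin m → ℝ := fun x i => θ x i * S.P i.castSucc with hv
                set W : ZMod N → ℂ := fun x => 𝔼 j ∈ range K, f (x + (S.a c (Fin.last m) (u1 + j) :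
                      ZMod N)) * e (∑ i : Fin m, v x i * (S.t (u1 + j)) ^ (c i.castSucc)) with hW
                set b : ZMod N → ℂ := fun x => if x ∈ E then conj (W x) / (‖W x‖ : ℂ) else 0 with hbdef
                have hb : ∀ x, ‖b x‖ ≤ 1 := by
                  intro x
                  simp only [hbdef]
                  split_ifs
                  · rw [norm_div, RCLike.norm_conj, Complex.norm_real, norm_norm]
                    exact div_self_le_one _
                  · simp
                exact by
                  have hbE : ∀ x, x ∉ E → b x = 0 := fun x hx => if_neg hx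
                  have hbW : ∀ x, b x * W x = ((if x ∈ E then ‖W x‖ else 0 : ℝ) : ℂ) := by
                    intro x
                    simp only [hbdef]
                    split_ifs
                    · rw [div_mul_eq_mul_div, mul_comm, Complex.mul_conj']
                      by_cases h0 : ‖W x‖ = 0
                      · rw [h0]; simp
                      · have h1 : (‖W x‖ : ℂ) ≠ 0 := by exact_mod_cast h0
                        field_simp
                    · simp
                  have hnorm : D ^ (-σ) ≤ ‖𝔼 x, b x * W x‖ := by
                    have h1 : 𝔼 x, b x * W x = ((𝔼 x, (if x ∈ E then ‖W x‖ else 0 : ℝ) : ℝ) : ℂ) := by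
                      simp only [hbW]
                      rw [expect_eq_sum_div_card, expect_eq_sum_div_card]
                      push_cast
                      rfl
                    rw [h1, Complex.norm_real]
                    exact hcon1.trans (le_abs_self _)
                  -- K
                  have hKl : D ^ (1 - ε) / 2 ≤ (K : ℝ) := by (clear * - hK1 h11; linarith)
                  have hKone : 1 ≤ K := by
                    have : (1 : ℝ) ≤ K := by (clear * - hK1 h11; linarith)
                    exact_mod_cast this
                  -- conversion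
                  have hDσ0 : 0 < D ^ (-σ) := by positivity
                  exact by
                    have hDσ1 : D ^ (-σ) ≤ 1 := Real.rpow_le_one_of_one_le_of_nonpos hD1 (by (clear * - hσ0; linarith))
                    obtain ⟨z0, Z, hz0, hzZ, hZl, hmain⟩ := hconv ε hε (by (clear * - hε12 hσ0 hσ1; linarith)) S N x0 hx0c hx08 hG f8
                      (by (clear * - hε12 hσ0 hσ1 f1 hDσ1; linarith)) σ hσ0.le (by (clear * - hε12 hσ0 hσ1; linarith)) X hX f hf b hb (lam ^ (7 / 6 : ℝ)) (by (clear * - hlam_1; positivity))
                      hlam2 v (fun x hx i => by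
                        have hxE : x ∈ E := by
                          by_contra hxE
                          exact hx (hbE x hxE)
                        exact (hE x hxE).1 i) K hKone hK2 hKl u1 hu1
                    -- H
                    set H : ℕ := ⌊P * lam ^ (-(2 / 3) : ℝ)⌋₊ with hH
                    set y : ℝ := P * lam ^ (-(2 / 3) : ℝ) with hy
                    have hy0 : 0 < y := by (clear * - hPpos hlam_1; positivity)
                    have hlam23 : lam ^ (2 / 3 : ℝ) ≤ D ^ (1 / 3 : ℝ) := by
                      refine le_trans ?_ hlamD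
                      calc lam ^ (2 / 3 : ℝ) ≤ lam ^ (1 : ℝ) :=
                            Real.rpow_le_rpow_of_exponent_le hlam_1 (by norm_num)
                        _ = lam := Real.rpow_one _
                    have hD13 : D ^ (1 / 3 : ℝ) ≤ D := by
                      calc D ^ (1 / 3 : ℝ) ≤ D ^ (1 : ℝ) := Real.rpow_le_rpow_of_exponent_le hD1 (by norm_num)
                        _ = D := Real.rpow_one _
                    have hyD : D ≤ y := by
                      rw [hy, Real.rpow_neg hlam0.le, ← div_eq_mul_inv, le_div_iff₀ (by positivity)]
                      calc D * lam ^ (2 / 3 : ℝ) ≤ D * D := mul_le_mul_of_nonneg_left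
                            (hlam23.trans hD13) hDpos.le
                        _ ≤ P := hPD2
                    exact by
                      have hHle : (H : ℝ) ≤ y := Nat.floor_le hy0.le
                      have hHge : y / 2 ≤ (H : ℝ) := by
                        have h1 : y - 1 < H := Nat.sub_one_lt_floor y
                        (clear * - hε12 hσ0 hσ1 f8 hyD h1; linarith)
                      have hHpos : (0 : ℝ) < H := by (clear * - hε12 hσ0 hσ1 f8 hyD hHge; linarith)
                      have hH1 : 1 ≤ H := by
                        have : 0 < H := by exact_mod_cast hHpos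
                        omega
                      have hyP4 : y ≤ P / 4 := by
                        rw [hy, Real.rpow_neg hlam0.le, ← div_eq_mul_inv, div_le_div_iff₀ (by positivity)
                          (by norm_num)]
                        apply mul_le_mul_of_nonneg_left _ hPpos.le
                        calc (4 : ℝ) ≤ D ^ (2 * ε2 / 3) := h10
                          _ = (D ^ ε2) ^ (2 / 3 : ℝ) := by rw [← Real.rpow_mul hDpos.le]; ring_nf
                          _ ≤ lam ^ (2 / 3 : ℝ) := Real.rpow_le_rpow (by positivity) hlam1 (by norm_num)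
                      have hZpos : (0 : ℝ) < Z := lt_of_lt_of_le (by (clear * - hcl0 hPpos f8; positivity)) hZl
                      exact by
                        have hZ1 : 1 ≤ Z := by
                          have : 0 < Z := by exact_mod_cast hZpos
                          omega
                        -- 2H/Z
                        have hHZ : 2 * (H : ℝ) / Z ≤ D ^ (-σ) / 4 := by
                          have h1 : 2 * (H : ℝ) / Z ≤ 2 * y / (cl / 16 * (P * D ^ (-ε))) := by
                            apply div_le_div₀ (by (clear * - hPpos hlam_1; positivity)) (by (clear * - hHle; linarith)) (by (clear * - hcl0 hPpos f8; positivity)) hZl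
                          have h2 : 2 * y / (cl / 16 * (P * D ^ (-ε))) = 32 / cl * (D ^ ε * lam ^ (-(2 / 3) : ℝ)) := by
                            rw [hy, Real.rpow_neg hDpos.le]
                            field_simp
                            norm_num
                          have h3 : lam ^ (-(2 / 3) : ℝ) ≤ D ^ (-(2 * ε2 / 3)) := by
                            calc lam ^ (-(2 / 3) : ℝ) ≤ (D ^ ε2) ^ (-(2 / 3) : ℝ) :=
                                  Real.rpow_le_rpow_of_nonpos (by positivity) hlam1 (by norm_num)
                              _ = D ^ (-(2 * ε2 / 3)) := by rw [← Real.rpow_mul hDpos.le]; ring_nf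
                          have h5 : D ^ ε * D ^ (-(2 * ε2 / 3)) = D ^ (ε - 2 * ε2 / 3) := by
                            rw [← Real.rpow_add hDpos]; ring_nf
                          have h6 : 32 / cl * (D ^ ε * lam ^ (-(2 / 3) : ℝ)) ≤ 32 / cl * D ^ (ε - 2 * ε2 / 3) := by
                            rw [← h5]
                            apply mul_le_mul_of_nonneg_left _ (by positivity)
                            exact mul_le_mul_of_nonneg_left h3 (by positivity)
                          have h7 : 32 / cl * D ^ (ε - 2 * ε2 / 3) = (128 / cl * D ^ (ε - 2 * ε2 / 3)) / 4 := by ring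
                          (clear * - f2 h1 h2 h6 h7; linarith)
                        -- TT*
                        have hδ : 3 / 4 * D ^ (-σ) ≤ ‖𝔼 x, b x * 𝔼 z ∈ Ico z0 (z0 + Z), f (x + (z : ZMod N)) *
                            e ((fun (x : ZMod N) (s : ℝ) => ∑ i : Fin m, v x i * (s / P) ^ (g i)) x z)‖ := by
                          have h1 : 4 * CC * D ^ (-ε) ≤ D ^ (-σ) := f1
                          have h2 := hnorm.trans hmain
                          have h3 : CC * D ^ (-ε) ≤ D ^ (-σ) / 4 := by (clear * - f1; linarith)
                          (clear * - f1 hnorm hmain; linarith)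
                        obtain ⟨w, hw⟩ := tt_star f b hf.bdd hb E hbE
                          (fun (x : ZMod N) (s : ℝ) => ∑ i : Fin m, v x i * (s / P) ^ (g i)) z0 Z H hZ1 hH1
                          (3 / 4 * D ^ (-σ)) (by (clear * - hDσ0 hHZ; linarith)) hδ
                        have hlow : D ^ (-(2 * σ)) / 4 ≤ (3 / 4 * D ^ (-σ) - 2 * H / Z) ^ 2 := by
                          have h1 : D ^ (-(2 * σ)) = D ^ (-σ) * D ^ (-σ) := by
                            rw [← Real.rpow_add hDpos]; ring_nf
                          rw [h1]
                          nlinarith only [hHZ, hDσ0]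
                        -- pairs
                        set R : ℝ := CE * (P ^ (kap / (cl + 4)) * P / lam) with hR
                        have hR0 : 0 ≤ R := by (clear * - hCE0 hPpos hlam_1; positivity)
                        exact by
                          set V : ℝ := lam ^ (7 / 6 : ℝ) with hV
                          have hV0 : 0 ≤ V := by positivity
                          have hVP : V ≤ P / 4 := by
                            have h1 : V ≤ D := hlam2.trans hD13
                            nlinarith only [h1, hPD2, f8]
                          set η3 : ℝ := CE * P ^ (-σE) + CE * (V * ((H : ℝ) / P) ^ 2) with hη3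
                          have hη30 : 0 ≤ η3 := by (clear * - hCE0 hPpos hlam_1 hH1; positivity)
                          have hPZ : P ^ (1 - xE) ≤ Z := by
                            refine le_trans ?_ hZl
                            have h1 : P ^ (1 - xE) = P * P ^ (-xE) := by
                              rw [sub_eq_add_neg, Real.rpow_add hPpos, Real.rpow_one]
                            have h2 : P ^ (-xE) ≤ D ^ (-xE) :=
                              Real.rpow_le_rpow_of_nonpos hDpos hPD (by (clear * - hεxE hσ0 hσ1; linarith))
                            have h3 : D ^ (-xE) ≤ cl / 16 * D ^ (-ε) := by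
                              have h30 : 16 / cl * D ^ (-xE) ≤ D ^ (-ε) := f9
                              have h31 : D ^ (-xE) = cl / 16 * (16 / cl * D ^ (-xE)) := by field_simp
                              rw [h31]
                              exact mul_le_mul_of_nonneg_left h30 (by positivity)
                            rw [h1]
                            calc P * P ^ (-xE) ≤ P * (cl / 16 * D ^ (-ε)) :=
                                  mul_le_mul_of_nonneg_left (h2.trans h3) hPpos.le
                              _ = _ := by ring
                          exact by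
                            have hpairs : 𝔼 h ∈ range H, 𝔼 h' ∈ range H,
                                (if w + (h : ZMod N) ∈ E ∧ w + (h' : ZMod N) ∈ E then
                                  ‖𝔼 z ∈ Ico z0 (z0 + Z), e ((fun (x : ZMod N) (s : ℝ) =>
                                    ∑ i : Fin m, v x i * (s / P) ^ (g i)) (w + (h : ZMod N)) ((z : ℝ) - h) -
                                    (fun (x : ZMod N) (s : ℝ) => ∑ i : Fin m, v x i * (s / P) ^ (g i))
                                      (w + (h' : ZMod N)) ((z : ℝ) - h'))‖ else 0) ≤ (2 * R + 1) / H + η3 := by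
                              have hne : (range H).Nonempty := ⟨0, by simp; (clear * - K Z hH hH1; omega)⟩
                              calc _ ≤ 𝔼 h ∈ range H, 𝔼 h' ∈ range H,
                                    ((if |(h : ℝ) - h'| ≤ R then (1 : ℝ) else 0) + η3) := by
                                    refine expect_le_expect fun h hh => expect_le_expect fun h' hh' => ?_
                                    rw [mem_range] at hh hh'
                                    split_ifs with h1 h2 h2
                                    · have h3 : ‖𝔼 z ∈ Ico z0 (z0 + Z), e ((fun (x : ZMod N) (s : ℝ) =>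
                                        ∑ i : Fin m, v x i * (s / P) ^ (g i)) (w + (h : ZMod N)) ((z : ℝ) - h) -
                                        (fun (x : ZMod N) (s : ℝ) => ∑ i : Fin m, v x i * (s / P) ^ (g i))
                                          (w + (h' : ZMod N)) ((z : ℝ) - h'))‖ ≤ 1 :=
                                        norm_expect_le_of5 _ _ zero_le_one fun z _ => (norm_e _).le
                                      (clear * - hη30 h3; linarith)
                                    · rw [zero_add]
                                      push Not at h2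
                                      have hhH : (h : ℝ) ≤ H := by exact_mod_cast hh.le
                                      have hh'H : (h' : ℝ) ≤ H := by exact_mod_cast hh'.le
                                      exact hpair P (f7.trans hPD) V hV0 hVP (v (w + (h : ZMod N))) (v (w + (h' : ZMod N)))
                                        (hE _ h1.1).1 (hE _ h1.2).1 lam hlam0 (hE _ h1.1).2 z0 Z hz0 hzZ hPZ h h' H
                                        (by (clear * -; positivity)) hhH (by (clear * -; positivity)) hh'H (hHle.trans hyP4) h2
                                    · (clear * - hε12 hσ0 hσ1 hη30; linarith)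
                                    · (clear * - hη30; linarith)
                                _ = 𝔼 h ∈ range H, 𝔼 h' ∈ range H, (if |(h : ℝ) - h'| ≤ R then (1 : ℝ) else 0) + η3 := by
                                    simp only [expect_add_distrib, expect_const hne]
                                _ ≤ _ := add_le_add_left (expect_close_le H hH1 R hR0) _
                            have hfin := hlow.trans (hw.trans hpairs)
                            -- final estimates
                            have hPε : P ^ (kap / (cl + 4)) ≤ D ^ kap := by
                              calc P ^ (kap / (cl + 4)) ≤ (D ^ (cl + 4)) ^ (kap / (cl + 4)) :=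
                                    Real.rpow_le_rpow hPpos.le hPup (by positivity)
                                _ = D ^ kap := by
                                    rw [← Real.rpow_mul hDpos.le]
                                    congr 1
                                    (clear * - hcl0 hkap0; field_simp)
                            have hRH : (2 * R + 1) / H ≤ 4 * CE * D ^ (kap - ε2 / 3) + 2 * D ^ (-1 : ℝ) := by
                              have h1 : (2 * R + 1) / H ≤ (2 * R + 1) / (y / 2) :=
                                div_le_div_of_nonneg_left (by (clear * - hCE0 hPpos hlam_1; positivity)) (by (clear * - hPpos hlam_1; positivity)) hHge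
                              have h2 : (2 * R + 1) / (y / 2) = 4 * R / y + 2 / y := by field_simp; ring
                              have h3 : 2 / y ≤ 2 * D ^ (-1 : ℝ) := by
                                rw [Real.rpow_neg_one, ← div_eq_mul_inv]
                                exact div_le_div_of_nonneg_left (by norm_num) hDpos hyD
                              have h5 : lam ^ (2 / 3 : ℝ) / lam ≤ D ^ (-(ε2 / 3)) := by
                                calc lam ^ (2 / 3 : ℝ) / lam = lam ^ (-(1 / 3) : ℝ) := by
                                      rw [← Real.rpow_sub_one hlam0.ne']; norm_num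
                                  _ ≤ (D ^ ε2) ^ (-(1 / 3) : ℝ) :=
                                      Real.rpow_le_rpow_of_nonpos (by positivity) hlam1 (by norm_num)
                                  _ = D ^ (-(ε2 / 3)) := by rw [← Real.rpow_mul hDpos.le]; ring_nf
                              have h6 : 4 * R / y = 4 * CE * (P ^ (kap / (cl + 4)) * (lam ^ (2 / 3 : ℝ) / lam)) := by
                                rw [hR, hy, Real.rpow_neg hlam0.le]
                                (clear * - hPpos hlam_1 hCE0; field_simp)
                              have h7 : 4 * R / y ≤ 4 * CE * D ^ (kap - ε2 / 3) := by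
                                rw [h6]
                                apply mul_le_mul_of_nonneg_left _ (by positivity)
                                calc P ^ (kap / (cl + 4)) * (lam ^ (2 / 3 : ℝ) / lam) ≤ D ^ kap * D ^ (-(ε2 / 3)) :=
                                      mul_le_mul hPε h5 (by (clear * - hlam_1; positivity)) (by positivity)
                                  _ = D ^ (kap - ε2 / 3) := by rw [← Real.rpow_add hDpos]; ring_nf
                              rw [h2] at h1
                              (clear * - h1 h3 h7; linarith)
                            have hη3le : η3 ≤ CE * D ^ (-σE) + CE * D ^ (-(ε2 / 6)) := by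
                              rw [hη3]
                              apply add_le_add
                              · apply mul_le_mul_of_nonneg_left _ hCE0.le
                                exact Real.rpow_le_rpow_of_nonpos hDpos hPD (by (clear * - hσ0 hσ4; linarith))
                              · apply mul_le_mul_of_nonneg_left _ hCE0.le
                                exact by
                                  have h1 : ((H : ℝ) / P) ^ 2 ≤ (lam ^ (-(2 / 3) : ℝ)) ^ 2 := by
                                    apply pow_le_pow_left₀ (by (clear * - hH1 hPpos; positivity))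
                                    rw [div_le_iff₀ hPpos, mul_comm]
                                    exact hHle
                                  have h2 : (lam ^ (-(2 / 3) : ℝ)) ^ 2 = lam ^ (-(4 / 3) : ℝ) := by
                                    rw [← Real.rpow_natCast, ← Real.rpow_mul hlam0.le]
                                    norm_num
                                  calc V * ((H : ℝ) / P) ^ 2 ≤ V * lam ^ (-(4 / 3) : ℝ) := by
                                        rw [← h2]
                                        exact mul_le_mul_of_nonneg_left h1 hV0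
                                    _ = lam ^ (-(1 / 6) : ℝ) := by
                                        rw [hV, ← Real.rpow_add hlam0]; norm_num
                                    _ ≤ (D ^ ε2) ^ (-(1 / 6) : ℝ) :=
                                        Real.rpow_le_rpow_of_nonpos (by (clear * - f8; positivity)) hlam1 (by norm_num)
                                    _ = D ^ (-(ε2 / 6)) := by rw [← Real.rpow_mul hDpos.le]; ring_nf
                            have hD2σ : 0 < D ^ (-(2 * σ)) := by positivity
                            have g3 : 128 * CE * D ^ (kap - ε2 / 3) ≤ D ^ (-(2 * σ)) := f3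
                            have g4 : 32 * D ^ (-1 : ℝ) ≤ D ^ (-(2 * σ)) := f4
                            have g5 : 16 * CE * D ^ (-σE) ≤ D ^ (-(2 * σ)) := f5
                            have g6 : 16 * CE * D ^ (-(ε2 / 6)) ≤ D ^ (-(2 * σ)) := f6
                            linarith only [hfin, hRH, hη3le, g3, g4, g5, g6, hD2σ]

end

end Pool.Agent.Helper57.NX

end

section

set_option autoImplicit false

open Finset

open scoped BigOperators ComplexConjugate

namespace Pool.Agent.Helper67.NX2

open Pool.Agent.Helper57.NX

noncomputable section

/-- the local correlation of the dilated system -/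
theorem locCorr_dil8 {m N : ℕ} [NeZero N] (S : Sys (m + 1)) (c : Fin (m + 1) → ℝ)
    (f : ZMod N → ℂ) (θ : ZMod N → Fin m → ℝ) (q r0 u' T' K : ℕ) (x : ZMod N) (hq : 1 ≤ q)
    (hu : 1 ≤ u') (hD : 0 < S.D) (hρ : 0 ≤ S.ρ) :
    locCorr (dil S c q r0 u' T') c f θ K x =
      𝔼 i ∈ Ico u' (u' + T'), ‖𝔼 j ∈ range K,
        f (x + (S.a c (Fin.last m) (q * i + r0 + q * j) : ZMod N)) *
        e (∑ i' : Fin m, θ x i' * S.P i'.castSucc *
          (S.t (q * i + r0 + q * j)) ^ (c i'.castSucc))‖ := by
  unfold locCorr
  refine expect_congr rfl fun i _ => ?_
  congr 1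
  refine expect_congr rfl fun j _ => ?_
  have h1 : q * i + r0 + q * j = q * (i + j) + r0 := by ring
  rw [h1, dil_a S c q r0 u' T' (i + j) hq hu hD hρ]
  congr 2
  refine sum_congr rfl fun i' _ => ?_
  rw [mul_assoc, mul_assoc, dil_Pt S c q r0 u' T' (i + j) hq hu hD hρ]

end

end Pool.Agent.Helper67.NX2

end

section

set_option autoImplicit false

open Finset

open scoped BigOperators ComplexConjugate

namespace Pool.Agent.Helper91.NX2

open Pool.Agent.Helper57.NX

open Pool.Agent.Helper67.NX2

open Pool.Agent.Helper82.NX

noncomputable section

/-- high differences have exact linear values up to a small error -/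
theorem ev_lin {m : ℕ} (c : Fin (m + 1) → ℝ) (n d : ℕ) : ∃ C : ℝ, 0 < C ∧
    ∀ (S : Sys (m + 1)) (M : ℕ) (Pm : ℝ) (lam r : ℕ), 0 ≤ Pm → 1 ≤ S.D → 0 ≤ S.ρ → S.ρ ≤ 1 →
    n * (M : ℝ) ≤ S.D → (∀ i : Fin m, 0 ≤ S.P i.castSucc ∧ S.P i.castSucc ≤ Pm) →
    (∀ k, S.a c (Fin.last m) k = (S.Q : ℤ) * ((lam * k + r : ℕ) : ℤ) ^ d) →
    ∀ p : Phi (m + 1), Bd M n p → p ∈ (VV (d - 1) : AddSubgroup (Phi (m + 1))) →
    ∃ α β : ℤ, ∀ k : ℕ, S.D ≤ k → (k : ℝ) ≤ 3 * S.D →
      |((ev (S.a c) p k - S.Q * (α * k + β) : ℤ) : ℝ)| ≤ C * (1 + Pm * ((M : ℝ) / S.D) ^ (d - 1)) := by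
  classical
  obtain ⟨C, hC, hsm⟩ := ev_small c n (d - 1)
  refine ⟨C, hC, ?_⟩
  intro S M Pm lam r hPm hD hρ0 hρ1 hMD hP ha p hp hpV
  -- the system without the last sequence
  set S' : Sys (m + 1) := ⟨S.D, S.ρ, S.Q, S.u, S.T, fun i => if i = Fin.last m then 0 else S.P i⟩
    with hS'
  set p1 : Phi (m + 1) := p.filter (fun s => s.2 = Fin.last m) with hp1
  set p2 : Phi (m + 1) := p.filter (fun s => ¬ s.2 = Fin.last m) with hp2
  have hpp : p1 + p2 = p := Finsupp.filter_add_filter_not p _
  have hBd2 : Bd M n p2 := by
    refine ⟨?_, ?_⟩
    · refine le_trans ?_ hp.1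
      rw [hp2, Finsupp.support_filter]
      refine le_trans (le_of_eq (Finset.sum_congr rfl fun s hs => ?_))
        (Finset.sum_le_sum_of_subset (Finset.filter_subset _ _))
      rw [Finsupp.filter_apply_pos (fun s : List ℕ × Fin (m + 1) => ¬ s.2 = Fin.last m) p
        (Finset.mem_filter.1 hs).2]
    · intro s hs
      rw [hp2, Finsupp.support_filter] at hs
      exact hp.2 s (Finset.mem_filter.1 hs).1
  have hV2 : p2 ∈ (VV (d - 1) : AddSubgroup (Phi (m + 1))) := by
    rw [mem_VV5] at hpV ⊢
    intro s hs
    rw [hp2, Finsupp.support_filter] at hs
    exact hpV s (Finset.mem_filter.1 hs).1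
  have hev2 : ∀ k, ev (S.a c) p2 k = ev (S'.a c) p2 k := by
    intro k
    unfold ev Finsupp.sum
    refine Finset.sum_congr rfl fun s hs => ?_
    rw [hp2, Finsupp.support_filter] at hs
    have hne := (Finset.mem_filter.1 hs).2
    have h1 : S.a c s.2 = S'.a c s.2 := by
      funext j
      unfold Sys.a Sys.t
      rw [hS']
      dsimp only
      rw [if_neg hne]
    dsimp only
    rw [h1]
  -- the last sequence
  have hlin : ∀ s ∈ p1.support, ∃ αβ : ℤ × ℤ, ∀ k : ℕ,
      dl s.1 (S.a c s.2) k = S.Q * (αβ.1 * k + αβ.2) := by
    intro s hs
    rw [hp1, Finsupp.support_filter] at hs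
    have h1 := (Finset.mem_filter.1 hs).2
    have h2 := (mem_VV5 _ _).1 hpV s (Finset.mem_filter.1 hs).1
    rw [h1]
    obtain ⟨α, β, h3⟩ := dl_lin S.Q lam r d s.1 h2 (S.a c (Fin.last m)) ha
    exact ⟨(α, β), h3⟩
  choose! F hF using hlin
  refine ⟨∑ s ∈ p1.support, p1 s * (F s).1, ∑ s ∈ p1.support, p1 s * (F s).2, ?_⟩
  intro k hk hk3
  have hev1 : ev (S.a c) p1 k = S.Q * ((∑ s ∈ p1.support, p1 s * (F s).1) * k +
      ∑ s ∈ p1.support, p1 s * (F s).2) := by
    unfold ev Finsupp.sum
    rw [Finset.sum_mul, ← Finset.sum_add_distrib, Finset.mul_sum]
    refine Finset.sum_congr rfl fun s hs => ?_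
    dsimp only
    rw [hF s hs k]
    ring
  have h1 : ev (S.a c) p k = ev (S.a c) p1 k + ev (S'.a c) p2 k := by
    rw [← hev2, ← ev_add5, hpp]
  rw [h1, hev1, add_sub_cancel_left]
  refine hsm S' M Pm hPm hD hρ0 hρ1 hMD ?_ p2 hBd2 hV2 k hk hk3
  intro i
  rw [hS']
  dsimp only
  split_ifs with h
  · exact ⟨le_rfl, hPm⟩
  · obtain ⟨j, rfl⟩ := Fin.eq_castSucc_of_ne_last h
    exact hP j

end

end Pool.Agent.Helper91.NX2

end

section

set_option autoImplicit false

open Finset

open scoped BigOperators ComplexConjugate

namespace Pool.Agent.Helper91.NX2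

open Pool.Agent.Helper57.NX

open Pool.Agent.Helper67.NX2

open Pool.Agent.Helper82.NX

noncomputable section

/-- the slope of a typed element with exponent one -/
theorem slope {m : ℕ} (S : Sys m) (c : Fin m → ℝ) (δ : ℝ) (n n' M : ℕ) (Y lam1 w Err : ℝ)
    (p : Phi m) (hD : 1 ≤ S.D) (hρ0 : 0 ≤ S.ρ) (hTp : Tp S c δ n 1 Y 1 lam1 w p)
    (hBd : Bd M n' p) (u T : ℕ) (hu : S.D ≤ u) (huY : (u : ℝ) + T ≤ Y) (Q : ℕ) (α β : ℤ)
    (h1 : |((ev (S.a c) p u - Q * (α * u + β) : ℤ) : ℝ)| ≤ Err)
    (h2 : |((ev (S.a c) p (u + T) - Q * (α * (u + T : ℕ) + β) : ℤ) : ℝ)| ≤ Err) :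
    ∃ Λ : ℝ, δ ^ n * lam1 ≤ |Λ| ∧ |Λ| ≤ δ⁻¹ ^ n * lam1 ∧
      |(α : ℝ) * (Q * T) - T * (Λ / S.D)| ≤ 2 * Err + 2 * (n' * 2 ^ n') +
        T * (δ⁻¹ ^ n * lam1 * w / S.D) := by
  obtain ⟨Λ, hΛ1, hΛ2, hTyp⟩ := hTp
  refine ⟨Λ, hΛ1, hΛ2, ?_⟩
  have hD0 : 0 < S.D := by (clear * - hD; linarith)
  have hT0 : (0 : ℝ) ≤ T := Nat.cast_nonneg _
  have hmdl : ∀ y : ℝ, mdl S 1 1 y = 1 / S.D := by
    intro y
    unfold mdl ff
    simp
  have e1 := ev_jet S c M n' p hBd u
  have e2 := ev_jet S c M n' p hBd (u + T)
  have hmv := (convex_Icc (u : ℝ) (u + T)).norm_image_sub_le_of_norm_hasDerivWithin_le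
    (f := fun y => jet S c 0 p y - y * (Λ / S.D)) (f' := fun y => jet S c 1 p y - 1 * (Λ / S.D))
    (C := δ⁻¹ ^ n * lam1 * w / S.D) (x := (u : ℝ)) (y := (u : ℝ) + T)
    (fun z hz => ((jet_hasDeriv S c hD0 hρ0 0 p z (by (clear * - hD hu hz; linarith [hz.1]))).sub
      ((hasDerivAt_id z).mul_const (Λ / S.D))).hasDerivWithinAt)
    (fun z hz => by
      rw [Real.norm_eq_abs]
      have := hTyp 1 le_rfl z (hu.trans hz.1) (hz.2.trans huY)
      rw [hmdl, pow_one] at this
      refine le_trans (le_of_eq ?_) this
      congr 1
      ring)
    ⟨le_rfl, by (clear * -; linarith)⟩ ⟨by linarith, le_rfl⟩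
  exact by
    rw [Real.norm_eq_abs, Real.norm_eq_abs, add_sub_cancel_left, abs_of_nonneg hT0] at hmv
    have e3 : jet S c 0 p ((u : ℝ) + T) - ((u : ℝ) + T) * (Λ / S.D) -
        (jet S c 0 p u - u * (Λ / S.D)) = jet S c 0 p ((u : ℝ) + T) - jet S c 0 p u - T * (Λ / S.D) := by
      ring
    rw [e3] at hmv
    push_cast at h1 h2 e1 e2
    have key : (α : ℝ) * (Q * T) - T * (Λ / S.D) =
        (jet S c 0 p ((u : ℝ) + T) - jet S c 0 p u - T * (Λ / S.D))
        + ((ev (S.a c) p (u + T) : ℝ) - jet S c 0 p ((u : ℝ) + T))
        - ((ev (S.a c) p u : ℝ) - jet S c 0 p u)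
        - ((ev (S.a c) p (u + T) : ℝ) - Q * (α * ((u : ℝ) + T) + β))
        + ((ev (S.a c) p u : ℝ) - Q * (α * u + β)) := by ring
    rw [key]
    rw [abs_le] at *
    constructor <;> (clear * - e1 hmv h1 h2 e2; linarith [hmv.1, hmv.2, e1.1, e1.2, e2.1, e2.2, h1.1, h1.2, h2.1, h2.2])

end

end Pool.Agent.Helper91.NX2

end

section

set_option autoImplicit false

open Finset

open scoped BigOperators ComplexConjugate

namespace Pool.Agent.Helper67.NX2

open Pool.Agent.Helper57.NX

noncomputable section

/-- the phases of the sequences -/
theorem phase21 {m : ℕ} {S : Sys m} {c : Fin m → ℝ} {N : ℕ} [NeZero N] {x : ℝ} {lam : ℕ}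
    (hG : IG S c N x lam) (hD : 1 ≤ S.D) (i : Fin m) (d : ℕ) (hd : c i = d) (θ : ℝ) (k : ℕ) :
    θ * (S.a c i k : ℝ) = θ * S.P i * (((k : ℝ) + S.ρ) / S.D) ^ (c i) := by
  have hD0 : 0 < S.D := by (clear * - hD; linarith)
  obtain ⟨r, hr⟩ := hG.rho
  rw [a_nat hG hD0 hr i d hd, hG.Pint i d hd, hd, Real.rpow_natCast]
  push_cast
  rw [← hr, mul_assoc, mul_assoc, ← mul_pow]
  congr 3
  field_simp

/-- Window step: a large form with characters and local functions gives a large window sum of the
phases, and a large average against the frame function. -/
theorem window21 {m N : ℕ} [NeZero N] {S : Sys (m + 1)} {c : Fin (m + 1) → ℝ} {x : ℝ} {lam : ℕ}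
    (hG : IG S c N x lam) (hD : 1 ≤ S.D) (d : Fin (m + 1) → ℕ) (hd : ∀ i, c i = d i)
    (hd1 : ∀ i, 1 ≤ d i) (f0 : ZMod N → ℂ) (hf0 : ∀ x, ‖f0 x‖ ≤ 1) (b : Fin (m + 1) → ℤ)
    (cc : Fin (m + 1) → ZMod N → ℂ) (hcc : ∀ i x, ‖cc i x‖ ≤ 1) (q K : ℕ) (W η : ℝ)
    (hK1 : 1 ≤ K) (hW : 0 ≤ W)
    (hlip : ∀ i (x : ZMod N) (t : ℤ), ‖cc i (x + ((((S.Q * q : ℕ) : ℤ) * t : ℤ) : ZMod N)) -
      cc i x‖ ≤ |(t : ℝ)| * ((S.Q * q : ℕ) : ℝ) * W / S.P i)
    (hKD : (q : ℝ) * K ≤ S.D) (hT : 1 ≤ S.T)
    (herr : 2 * (q * K) / S.T + (∑ i, (d i : ℝ) * 4 ^ d i) * (q * K / S.D) * W < η / 2)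
    (hform : η ≤ ‖form S c 1 f0 (fun i x => e ((b i : ℝ) / N * x.val) * cc i x)‖) :
    ∃ k0 ∈ S.I,
      η / 2 ≤ ‖𝔼 j ∈ range K, e (∑ i, ((b i : ℝ) / N * S.P i) *
        ((((k0 + q * j : ℕ) : ℝ) + S.ρ) / S.D) ^ (c i))‖ ∧
      η / 2 ≤ ‖𝔼 x : ZMod N, f0 x * ∏ i, (e ((b i : ℝ) / N * x.val) *
        cc i (x + (S.a c i k0 : ZMod N)))‖ := by
  classical
  have hD0 : 0 < S.D := by (clear * - hD; linarith)
  have hQ0 : (0 : ℝ) < S.Q := (Real.rpow_pos_of_pos hD0 _).trans_le hG.good.Q1
  have hlam : (0 : ℝ) < lam := by exact_mod_cast hG.lam1
  have hP0 : ∀ i, 0 < S.P i := fun i => by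
    rw [hG.Pint i (d i) (hd i)]; (clear * - hQ0 hlam hD; positivity)
  set θ : Fin (m + 1) → ℝ := fun i => (b i : ℝ) / N with hθ
  exact by
    set G : ℕ → ℂ := fun k => 𝔼 x : ZMod N, f0 x * ∏ i, (e ((b i : ℝ) / N *
      ((x + (S.a c i k : ZMod N)).val : ℝ)) * cc i (x + (S.a c i k : ZMod N))) with hGdef
    set w : ℕ → ℂ := fun k => e (∑ i, ((b i : ℝ) / N * S.P i) *
      (((k : ℝ) + S.ρ) / S.D) ^ (c i)) with hw
    set Mk : ℕ → ℂ := fun k => 𝔼 x : ZMod N, f0 x * ∏ i, (e ((b i : ℝ) / N * x.val) *
          cc i (x + (S.a c i k : ZMod N))) with hMk
    have hform' : form S c 1 f0 (fun i x => e ((b i : ℝ) / N * x.val) * cc i x) = 𝔼 k ∈ S.I, G k := by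
      unfold form
      refine Finset.expect_congr rfl fun k _ => ?_
      rw [Pi.one_apply, one_mul]
    have hwk : ∀ k, w k = ∏ i, e (θ i * (S.a c i k : ℝ)) := by
      intro k
      rw [hw, ← e_sum21]
      simp only
      congr 1
      refine Finset.sum_congr rfl fun i _ => ?_
      rw [phase21 hG hD i (d i) (hd i)]
    have hGk : ∀ k, G k = w k * Mk k := by
      intro k
      rw [hwk, hGdef, hMk]
      simp only
      rw [Finset.mul_expect]
      refine Finset.expect_congr rfl fun x _ => ?_
      rw [mul_left_comm, ← Finset.prod_mul_distrib]
      congr 1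
      refine Finset.prod_congr rfl fun i _ => ?_
      rw [char_add21]
      ring
    exact by
      have hnw : ∀ k, ‖w k‖ = 1 := fun k => norm_e _
      have hprod : ∀ (g : Fin (m + 1) → ℂ), (∀ i, ‖g i‖ ≤ 1) → ‖∏ i, g i‖ ≤ 1 := by
        intro g hg
        rw [norm_prod]
        exact Finset.prod_le_one (fun j _ => norm_nonneg _) fun j _ => hg j
      have hterm : ∀ i (x : ZMod N) (y : ZMod N), ‖e ((b i : ℝ) / N * x.val) * cc i y‖ ≤ 1 := by
        intro i x y
        rw [norm_mul, norm_e, one_mul]
        exact hcc i y
      have hnM : ∀ k, ‖Mk k‖ ≤ 1 := by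
        intro k
        refine norm_expect_le_of5 _ _ zero_le_one fun x _ => ?_
        rw [norm_mul]
        exact mul_le_one₀ (hf0 x) (norm_nonneg _) (hprod _ fun i => hterm i x _)
      have hnG : ∀ k, ‖G k‖ ≤ 1 := by
        intro k
        rw [hGk, norm_mul, hnw, one_mul]
        exact hnM k
      -- the difference of `Mk`
      have hdiff : ∀ k ∈ S.I, ∀ j ∈ range K, ‖G (k + q * j) - w (k + q * j) * Mk k‖ ≤
          (∑ i, (d i : ℝ) * 4 ^ d i) * (q * K / S.D) * W := by
        intro k hk j hj
        rw [hGk, ← mul_sub, norm_mul, hnw, one_mul]
        rw [Sys.I, Finset.mem_Ico] at hk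
        have hk2 : (k : ℝ) + 1 ≤ S.u + S.T := by exact_mod_cast hk.2
        have hj2 : (j : ℝ) ≤ K := by exact_mod_cast (Finset.mem_range.mp hj).le
        have hqj : (q : ℝ) * j ≤ q * K := mul_le_mul_of_nonneg_left hj2 (Nat.cast_nonneg _)
        have hu2 := hG.good.u2
        have hρ1 := hG.good.ρ1
        have hkk : ((k + q * j : ℕ) : ℝ) + S.ρ ≤ 4 * S.D := by
          push_cast
          (clear * - hD hKD hk2 hqj hu2 hρ1; linarith)
        have h1 : Mk (k + q * j) - Mk k = 𝔼 x : ZMod N, f0 x * (∏ i, (e ((b i : ℝ) / N * x.val) *
            cc i (x + (S.a c i (k + q * j) : ZMod N))) - ∏ i, (e ((b i : ℝ) / N * x.val) *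
            cc i (x + (S.a c i k : ZMod N)))) := by
          rw [hMk]
          simp only
          rw [← Finset.expect_sub_distrib]
          refine Finset.expect_congr rfl fun x _ => ?_
          ring
        rw [h1]
        refine norm_expect_le_of5 _ _ ?_ fun x _ => ?_
        · have : 0 ≤ ∑ i, (d i : ℝ) * 4 ^ d i := Finset.sum_nonneg fun i _ => by (clear * -; positivity)
          (clear * - hK1 hD hW; positivity)
        rw [norm_mul]
        refine (mul_le_of_le_one_left (norm_nonneg _) (hf0 x)).trans ?_
        refine (prod_sub_prod21 univ (fun i _ => hterm i x _) (fun i _ => hterm i x _)).trans ?_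
        rw [Finset.sum_mul, Finset.sum_mul]
        refine Finset.sum_le_sum fun i _ => ?_
        rw [← mul_sub, norm_mul, norm_e, one_mul]
        obtain ⟨t, ht1, ht2⟩ := step_le21 hG hD i (d i) (hd i) (hd1 i) k q j hkk
        rw [ht1]
        have h2 : ((S.a c i k + ((S.Q * q : ℕ) : ℤ) * t : ℤ) : ZMod N) =
            (S.a c i k : ZMod N) + ((((S.Q * q : ℕ) : ℤ) * t : ℤ) : ZMod N) := by
          rw [Int.cast_add]
        rw [h2, ← add_assoc]
        refine (hlip i _ t).trans ?_
        calc |(t : ℝ)| * ((S.Q * q : ℕ) : ℝ) * W / S.P i
            = (|(t : ℝ)| * ((S.Q * q : ℕ) : ℝ) / S.P i) * W := by ring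
          _ ≤ ((d i : ℝ) * 4 ^ d i * (q * j / S.D)) * W := mul_le_mul_of_nonneg_right ht2 hW
          _ ≤ (d i : ℝ) * 4 ^ d i * (q * K / S.D) * W := by (clear * - hqj hD hW; gcongr)
      exact by
        by_contra hcon
        push Not at hcon
        -- all windows are small
        have hsmall : ∀ k ∈ S.I, ‖𝔼 j ∈ range K, w (k + q * j) * Mk k‖ ≤ η / 2 := by
          intro k hk
          by_contra h1
          push Not at h1
          have h2 : 𝔼 j ∈ range K, w (k + q * j) * Mk k = (𝔼 j ∈ range K, w (k + q * j)) * Mk k := by
            rw [Finset.expect_mul]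
          rw [h2, norm_mul] at h1
          have h3 : ‖𝔼 j ∈ range K, w (k + q * j)‖ ≤ 1 :=
            norm_expect_le_of5 _ _ zero_le_one fun j _ => (hnw _).le
          have h4 : η / 2 ≤ ‖𝔼 j ∈ range K, w (k + q * j)‖ :=
            h1.le.trans (mul_le_of_le_one_right (norm_nonneg _) (hnM k))
          have h5 : η / 2 ≤ ‖Mk k‖ := h1.le.trans (mul_le_of_le_one_left (norm_nonneg _) h3)
          have h6 := hcon k hk
          rw [hw] at h4
          simp only at h4
          exact absurd h5 (not_le.mpr (h6 h4))
        have hIne : S.I.Nonempty := by
          rw [Sys.I, Finset.nonempty_Ico]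
          omega
        have hT0 : (0 : ℝ) < S.T := by exact_mod_cast hT
        have hKne : (range K).Nonempty := Finset.nonempty_range_iff.mpr (by omega)
        -- shifting
        have h1 : ‖𝔼 k ∈ S.I, G k - 𝔼 k ∈ S.I, 𝔼 j ∈ range K, G (k + q * j)‖ ≤ 2 * (q * K) / S.T := by
          have h2 : 𝔼 k ∈ S.I, G k - 𝔼 k ∈ S.I, 𝔼 j ∈ range K, G (k + q * j) =
              𝔼 j ∈ range K, (𝔼 k ∈ S.I, G k - 𝔼 k ∈ S.I, G (k + q * j)) := by
            rw [Finset.expect_sub_distrib, Finset.expect_const hKne,
              Finset.expect_comm S.I (range K) fun k j => G (k + q * j)]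
          rw [h2]
          refine norm_expect_le_of5 _ _ (by (clear * - hK1 hT; positivity)) fun j hj => ?_
          refine (shift_expect21 hnG S.u S.T (q * j) hT).trans ?_
          have hj2 : (j : ℝ) ≤ K := by exact_mod_cast (Finset.mem_range.mp hj).le
          push_cast
          (clear * - hj2 hT; gcongr)
        have h2 : ‖𝔼 k ∈ S.I, 𝔼 j ∈ range K, G (k + q * j) -
            𝔼 k ∈ S.I, 𝔼 j ∈ range K, w (k + q * j) * Mk k‖ ≤
            (∑ i, (d i : ℝ) * 4 ^ d i) * (q * K / S.D) * W := by
          rw [← Finset.expect_sub_distrib]
          have h0 : 0 ≤ (∑ i, (d i : ℝ) * 4 ^ d i) * (q * K / S.D) * W := by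
            have : 0 ≤ ∑ i, (d i : ℝ) * 4 ^ d i := Finset.sum_nonneg fun i _ => by (clear * -; positivity)
            (clear * - hK1 hD hW; positivity)
          refine norm_expect_le_of5 _ _ h0 fun k hk => ?_
          rw [← Finset.expect_sub_distrib]
          exact norm_expect_le_of5 _ _ h0 fun j hj => hdiff k hk j hj
        exact by
          have hη0 : 0 ≤ η / 2 := by
            refine le_trans ?_ herr.le
            have : 0 ≤ ∑ i, (d i : ℝ) * 4 ^ d i := Finset.sum_nonneg fun i _ => by (clear * -; positivity)
            (clear * - hK1 hT hD hW; positivity)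
          have h3 : ‖𝔼 k ∈ S.I, 𝔼 j ∈ range K, w (k + q * j) * Mk k‖ ≤ η / 2 :=
            norm_expect_le_of5 _ _ hη0 hsmall
          rw [hform'] at hform
          have h4 : 𝔼 k ∈ S.I, G k = (𝔼 k ∈ S.I, G k - 𝔼 k ∈ S.I, 𝔼 j ∈ range K, G (k + q * j)) +
              ((𝔼 k ∈ S.I, 𝔼 j ∈ range K, G (k + q * j) -
              𝔼 k ∈ S.I, 𝔼 j ∈ range K, w (k + q * j) * Mk k) +
              𝔼 k ∈ S.I, 𝔼 j ∈ range K, w (k + q * j) * Mk k) := by ring
          rw [h4] at hform
          have h5 := hform.trans ((norm_add_le _ _).trans (add_le_add h1 ((norm_add_le _ _).trans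
            (add_le_add h2 h3))))
          (clear * - herr h5; linarith)

end

end Pool.Agent.Helper67.NX2

end
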