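import Pool.Agent.Helper23.MC.L01_a0
import Pool.Agent.Helper23.MC.L01_a1
import Pool.Agent.Helper23.MC.L01_a13
import Pool.Agent.Helper23.MC.L01_a2
import Pool.Agent.Helper23.MC.L01_a4
import Pool.Agent.Helper23.MC.L01_a7
import Pool.Agent.Helper23.MC.L01_a9

/-!
Parts of Helper51.NX.Sweep, Helper9.NX2.DlTotalBase, Helper9.NX2.DlTotalTwo, Helper9.NX2.DlTotalAux
-/

attribute [local instance 5000]
  Pool.Agent.Helper23.MC.Inst.rCharZero Pool.Agent.Helper23.MC.Inst.rALM
  Pool.Agent.Helper23.MC.Inst.rARM Pool.Agent.Helper23.MC.Inst.rALSM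
  Pool.Agent.Helper23.MC.Inst.rARSM Pool.Agent.Helper23.MC.Inst.rARRLE
  Pool.Agent.Helper23.MC.Inst.rALRLE Pool.Agent.Helper23.MC.Inst.rARRLT
  Pool.Agent.Helper23.MC.Inst.rALRLT Pool.Agent.Helper23.MC.Inst.rPMRLT
  Pool.Agent.Helper23.MC.Inst.rMPRLT Pool.Agent.Helper23.MC.Inst.rPMM
  Pool.Agent.Helper23.MC.Inst.rMPM Pool.Agent.Helper23.MC.Inst.rPMSM
  Pool.Agent.Helper23.MC.Inst.rMPSM Pool.Agent.Helper23.MC.Inst.rEAOL
  Pool.Agent.Helper23.MC.Inst.rIOR Pool.Agent.Helper23.MC.Inst.rISOR
  Pool.Agent.Helper23.MC.Inst.rNZD Pool.Agent.Helper23.MC.Inst.rcCharZero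
  Pool.Agent.Helper23.MC.Inst.rcNZD Pool.Agent.Helper23.MC.Inst.zCharZero
  Pool.Agent.Helper23.MC.Inst.zALM Pool.Agent.Helper23.MC.Inst.zARM
  Pool.Agent.Helper23.MC.Inst.zALSM Pool.Agent.Helper23.MC.Inst.zARSM
  Pool.Agent.Helper23.MC.Inst.zIOR Pool.Agent.Helper23.MC.Inst.zISOR
  Pool.Agent.Helper23.MC.Inst.zNZD Pool.Agent.Helper23.MC.Inst.qCharZero
  Pool.Agent.Helper23.MC.Inst.mR Pool.Agent.Helper23.MC.Inst.mC Pool.Agent.Helper23.MC.Inst.mRC
  Pool.Agent.Helper23.MC.Inst.rPSM Pool.Agent.Helper23.MC.Inst.rCSM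
  Pool.Agent.Helper23.MC.Inst.cAdd Pool.Agent.Helper23.MC.Inst.cAddM
  Pool.Agent.Helper23.MC.Inst.cMul Pool.Agent.Helper23.MC.Inst.cMon

namespace Pool.Agent.Helper57.NX
end Pool.Agent.Helper57.NX

section

set_option autoImplicit false

open Finset

open scoped BigOperators ComplexConjugate

namespace Pool.Agent.Helper57.NX

noncomputable section

namespace SW27

/-- the values of one difference -/
theorem one_diff (γ : ℝ) (hγ : γ ≠ 0) (n : ℕ) : ∃ q : ℕ, ∀ (m : ℕ) (S : Sys m) (c : Fin m → ℝ)
    (δ Y lam w : ℝ) (M : ℕ) (p : Phi m), 1 ≤ S.D → 0 ≤ S.ρ → S.ρ ≤ 1 → 0 < δ → δ ≤ 1 / 2 →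
    0 < lam → 0 ≤ w → w ≤ δ ^ (2 * n + q) → Y ≤ 3 * S.D →
    Tp S c δ n 2 Y γ lam w p → Bd M (n + n) p → ∀ (k K : ℕ), S.D ≤ k → (k : ℝ) + K ≤ Y →
      1 ≤ K →
      δ ^ (n + q) * (lam / S.D) ≤ |jet S c 1 p k| ∧
      |jet S c 1 p k| ≤ 2 ^ q * δ⁻¹ ^ n * (lam / S.D) ∧
      ∀ j < K, |((ev (S.a c) p (k + j) - (⌊jet S c 0 p k⌋ + ⌊jet S c 1 p k * j⌋) : ℤ) : ℝ)| ≤
        2 ^ q * δ⁻¹ ^ n * (1 + lam * (K / S.D) ^ 2) := by
  obtain ⟨C1, hC1, hb1⟩ := mdl_bound γ 1
  obtain ⟨C2, hC2, hb2⟩ := mdl_bound γ 2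
  obtain ⟨c1, hc1, hl1⟩ := mdl_lower γ hγ
  -- a power of two above all constants
  obtain ⟨q, hq⟩ := pow_unbounded_of_one_lt
    (C1 + 1 + (C2 + 1) + (((n + n : ℕ) : ℝ) * 2 ^ (n + n) + 2) + 2 / c1) (by norm_num : (1 : ℝ) < 2)
  have hc1' : 0 < 2 / c1 := by (clear * - hc1; positivity)
  have hn0 : (0 : ℝ) ≤ ((n + n : ℕ) : ℝ) * 2 ^ (n + n) + 2 := by (clear * -; positivity)
  have hqa : C1 + 1 ≤ 2 ^ q := by linarith
  have hqb : (C2 + 1) + (((n + n : ℕ) : ℝ) * 2 ^ (n + n) + 2) ≤ 2 ^ q := by (clear * - hC1 hq hc1'; linarith)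
  have hqc : 2 / c1 ≤ 2 ^ q := by (clear * - hC1 hC2 hq hn0; linarith)
  refine ⟨q, ?_⟩
  intro m S c δ Y lam w M p hD hρ0 hρ1 hδ0 hδ1 hlam hw0 hw hY hTp hBd k K hk hkY hK
  obtain ⟨Λ, hΛ1, hΛ2, hTyp⟩ := hTp
  have hD0 : 0 < S.D := by (clear * - hD hδ0 hδ1; linarith)
  exact by
    have hδ1' : δ ≤ 1 := by (clear * - hδ0 hδ1; linarith)
    have hρD : S.ρ ≤ S.D := by (clear * - hD hρ1; linarith)
    have hk0 : (0 : ℝ) < k := by (clear * - hD hδ0 hδ1 hk; linarith)
    have hK0 : (0 : ℝ) ≤ K := Nat.cast_nonneg K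
    have hinv : 1 ≤ δ⁻¹ ^ n := one_le_pow₀ ((one_le_inv₀ hδ0).2 hδ1')
    have hwn : w ≤ 1 := hw.trans (pow_le_one₀ hδ0.le hδ1')
    exact by
      have hE : δ⁻¹ ^ n * lam * w ≤ δ⁻¹ ^ n * lam := by
        have : 0 ≤ δ⁻¹ ^ n * lam := by positivity
        (clear * - hδ0 hδ1 hwn this; nlinarith)
      have hkD : (k : ℝ) ≤ Y := by (clear * - hkY; linarith)
      have hj1 := hTyp 1 (by norm_num) k hk hkD
      rw [pow_one] at hj1
      have hcp : δ⁻¹ ^ n * δ ^ n = 1 := by
        rw [← mul_pow, inv_mul_cancel₀ hδ0.ne', one_pow]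
      refine ⟨?_, ?_, ?_⟩
      · have h1 := hl1 m S hD0 hρ0 hρD k hk (by (clear * - hY hkY; linarith))
        exact by
          have h2 : |Λ * mdl S γ 1 k| - |jet S c 1 p k - Λ * mdl S γ 1 k| ≤ |jet S c 1 p k| := by
            have := abs_sub_abs_le_abs_sub (Λ * mdl S γ 1 k) (jet S c 1 p k)
            rw [abs_sub_comm (Λ * mdl S γ 1 k)] at this
            (clear * - this; linarith)
          have h3 : δ ^ n * lam * (c1 / S.D) ≤ |Λ * mdl S γ 1 k| := by
            rw [abs_mul]
            exact mul_le_mul hΛ1 h1 (by (clear * - hc1 hD; positivity)) (abs_nonneg _)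
          have h4 : δ⁻¹ ^ n * lam * w / S.D ≤ δ ^ (n + q) * (lam / S.D) := by
            have : δ⁻¹ ^ n * w ≤ δ ^ (n + q) := by
              calc δ⁻¹ ^ n * w ≤ δ⁻¹ ^ n * δ ^ (2 * n + q) := by (clear * - hw hδ0; gcongr)
                _ = (δ⁻¹ ^ n * δ ^ n) * δ ^ (n + q) := by ring
                _ = δ ^ (n + q) := by rw [hcp, one_mul]
            calc δ⁻¹ ^ n * lam * w / S.D = (δ⁻¹ ^ n * w) * (lam / S.D) := by ring
              _ ≤ δ ^ (n + q) * (lam / S.D) := by (clear * - this hlam hD; gcongr)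
          have h5 : 2 * (δ ^ (n + q) * (lam / S.D)) ≤ δ ^ n * lam * (c1 / S.D) := by
            have hq2 : δ ^ q ≤ c1 / 2 := by
              have h6 : δ ^ q ≤ (1 / 2) ^ q := pow_le_pow_left₀ hδ0.le hδ1 q
              have h7 : ((1 : ℝ) / 2) ^ q = 1 / 2 ^ q := by rw [div_pow, one_pow]
              rw [h7] at h6
              refine h6.trans ?_
              rw [div_le_div_iff₀ (by positivity) (by norm_num)]
              have := (div_le_iff₀ hc1).1 hqc
              (clear * - this; linarith)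
            calc 2 * (δ ^ (n + q) * (lam / S.D)) = 2 * δ ^ q * (δ ^ n * lam / S.D) := by
                  rw [pow_add]; ring
              _ ≤ 2 * (c1 / 2) * (δ ^ n * lam / S.D) := by (clear * - hq2 hδ0 hlam hD; gcongr)
              _ = δ ^ n * lam * (c1 / S.D) := by ring
          (clear * - hj1 h2 h3 h4 h5; linarith)
      · have h1 := hb1 m S hD0 hρ0 hρD k hk (by (clear * - hD hδ0 hδ1 hY hkY; linarith))
        exact by
          rw [pow_one] at h1
          have h2 : |jet S c 1 p k| ≤ |Λ * mdl S γ 1 k| + |jet S c 1 p k - Λ * mdl S γ 1 k| := by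
            have := abs_add_le (Λ * mdl S γ 1 k) (jet S c 1 p k - Λ * mdl S γ 1 k)
            rwa [add_sub_cancel] at this
          have h3 : |Λ * mdl S γ 1 k| ≤ δ⁻¹ ^ n * lam * (C1 / S.D) := by
            rw [abs_mul]
            exact mul_le_mul hΛ2 h1 (abs_nonneg _) (by (clear * - hδ0 hlam; positivity))
          have h4 : δ⁻¹ ^ n * lam * w / S.D ≤ δ⁻¹ ^ n * lam / S.D := by (clear * - hE hD; gcongr)
          calc |jet S c 1 p k| ≤ δ⁻¹ ^ n * lam * (C1 / S.D) + δ⁻¹ ^ n * lam / S.D := by (clear * - hj1 h2 h3 h4; linarith)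
            _ = (C1 + 1) * (δ⁻¹ ^ n * (lam / S.D)) := by ring
            _ ≤ 2 ^ q * (δ⁻¹ ^ n * (lam / S.D)) := by (clear * - hqa hδ0 hlam hD; gcongr)
            _ = 2 ^ q * δ⁻¹ ^ n * (lam / S.D) := by ring
      · intro j hj
        exact by
          have hjK : (j : ℝ) ≤ K := by exact_mod_cast hj.le
          have hj0 : (0 : ℝ) ≤ j := Nat.cast_nonneg j
          have hsup : ∀ y : ℝ, (k : ℝ) ≤ y → y ≤ k + j →
              |jet S c 2 p y| ≤ (C2 + 1) * (δ⁻¹ ^ n * lam / S.D ^ 2) := by
            intro y hy hy'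
            have hyY : y ≤ Y := by (clear * - hkY hjK hy'; linarith)
            have h1 := hTyp 2 le_rfl y (by (clear * - hk hy; linarith)) hyY
            have h2 := hb2 m S hD0 hρ0 hρD y (by (clear * - hk hy; linarith)) (by (clear * - hD hδ0 hδ1 hY hkY hjK hy'; linarith))
            have h3 : |jet S c 2 p y| ≤ |Λ * mdl S γ 2 y| + |jet S c 2 p y - Λ * mdl S γ 2 y| := by
              have := abs_add_le (Λ * mdl S γ 2 y) (jet S c 2 p y - Λ * mdl S γ 2 y)
              rwa [add_sub_cancel] at this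
            have h4 : |Λ * mdl S γ 2 y| ≤ δ⁻¹ ^ n * lam * (C2 / S.D ^ 2) := by
              rw [abs_mul]
              exact mul_le_mul hΛ2 h2 (abs_nonneg _) (by (clear * - hδ0 hlam; positivity))
            have h5 : δ⁻¹ ^ n * lam * w / S.D ^ 2 ≤ δ⁻¹ ^ n * lam / S.D ^ 2 := by (clear * - hE hD; gcongr)
            calc |jet S c 2 p y| ≤ δ⁻¹ ^ n * lam * (C2 / S.D ^ 2) + δ⁻¹ ^ n * lam / S.D ^ 2 := by
                  (clear * - h1 h3 h4 h5; linarith)
              _ = (C2 + 1) * (δ⁻¹ ^ n * lam / S.D ^ 2) := by ring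
          have ht := taylor2 (jet S c 0 p) (jet S c 1 p) (jet S c 2 p) k (k + j) _ (by (clear * -; linarith))
            (fun y hy _ => jet_hasDeriv S c hD0 hρ0 0 p y (by (clear * - hD hδ0 hδ1 hk hy; linarith)))
            (fun y hy _ => jet_hasDeriv S c hD0 hρ0 1 p y (by (clear * - hD hδ0 hδ1 hk hy; linarith))) hsup
          have he := ev_jet S c M (n + n) p hBd (k + j)
          have hfl1 := Int.floor_le (jet S c 0 p k)
          exact by
            have hfl2 := Int.lt_floor_add_one (jet S c 0 p k)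
            have hfl3 := Int.floor_le (jet S c 1 p k * j)
            have hfl4 := Int.lt_floor_add_one (jet S c 1 p k * j)
            have e1 : (k : ℝ) + j - k = j := by ring
            rw [e1] at ht
            have hbd : (C2 + 1) * (δ⁻¹ ^ n * lam / S.D ^ 2) * (j : ℝ) ^ 2 ≤
                (C2 + 1) * (δ⁻¹ ^ n * (lam * (K / S.D) ^ 2)) := by
              calc (C2 + 1) * (δ⁻¹ ^ n * lam / S.D ^ 2) * (j : ℝ) ^ 2
                  ≤ (C2 + 1) * (δ⁻¹ ^ n * lam / S.D ^ 2) * (K : ℝ) ^ 2 := by (clear * - hjK hC2 hδ0 hlam hD; gcongr)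
                _ = (C2 + 1) * (δ⁻¹ ^ n * (lam * (K / S.D) ^ 2)) := by rw [div_pow]; ring
            have hfin : ((n + n : ℕ) : ℝ) * 2 ^ (n + n) + 2 +
                (C2 + 1) * (δ⁻¹ ^ n * (lam * (K / S.D) ^ 2)) ≤
                2 ^ q * δ⁻¹ ^ n * (1 + lam * (K / S.D) ^ 2) := by
              have a1 : ((n + n : ℕ) : ℝ) * 2 ^ (n + n) + 2 ≤
                  (((n + n : ℕ) : ℝ) * 2 ^ (n + n) + 2) * (δ⁻¹ ^ n * (1 + lam * (K / S.D) ^ 2)) := by
                have : 1 ≤ δ⁻¹ ^ n * (1 + lam * (K / S.D) ^ 2) := by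
                  have h0 : 0 ≤ lam * ((K : ℝ) / S.D) ^ 2 := by (clear * - hlam hK hD; positivity)
                  (clear * - hinv h0 hδ0 hδ1; nlinarith)
                (clear * - hn0 this; nlinarith)
              have a2 : (C2 + 1) * (δ⁻¹ ^ n * (lam * (K / S.D) ^ 2)) ≤
                  (C2 + 1) * (δ⁻¹ ^ n * (1 + lam * (K / S.D) ^ 2)) := by
                gcongr
                (clear * - hδ0 hδ1; linarith)
              calc _ ≤ ((C2 + 1) + (((n + n : ℕ) : ℝ) * 2 ^ (n + n) + 2)) *
                    (δ⁻¹ ^ n * (1 + lam * (K / S.D) ^ 2)) := by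
                    rw [add_mul]; (clear * - a1 a2; linarith)
                _ ≤ 2 ^ q * (δ⁻¹ ^ n * (1 + lam * (K / S.D) ^ 2)) := by (clear * - hqb hδ0 hlam hK hD; gcongr)
                _ = _ := by ring
            push_cast at he ⊢
            rw [abs_le] at he ht ⊢
            constructor <;> push_cast at * <;> (clear * - hδ0 hδ1 ht hfl1 hfl3 hbd he hfin hfl2 hfl4; nlinarith [he.1, he.2, ht.1, ht.2])

end SW27

end

end Pool.Agent.Helper57.NX

end

section

set_option autoImplicit false

open Finset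

open scoped BigOperators ComplexConjugate

namespace Pool.Agent.Helper67.NX2

open Pool.Agent.Helper57.NX

noncomputable section

/-- long averages with a phase against short progressions -/
theorem h9_window {N : ℕ} [NeZero N] {f : ZMod N → ℂ} (hf : ∀ x, ‖f x‖ ≤ 1) (x0 : ZMod N)
    (θ : ℝ) (X q L : ℕ) (hX : 1 ≤ X) (hL : 1 ≤ L) :
    ‖𝔼 t ∈ range X, f (x0 + (t : ZMod N)) * e (-(θ * t))‖ ≤
      (𝔼 t ∈ range X, ‖𝔼 l ∈ range L, f (x0 + (t : ZMod N) + ((q * l : ℕ) : ZMod N))‖)
        + 2 * Real.pi * dint (q * θ) * L + 2 * q * L / X := by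
  set G : ℕ → ℂ := fun t => f (x0 + (t : ZMod N)) * e (-(θ * t)) with hG
  have hG1 : ∀ t, ‖G t‖ ≤ 1 := by
    intro t
    simp only [hG]
    rw [norm_mul, norm_e, mul_one]
    exact hf _
  have hX0 : (0 : ℝ) < X := by exact_mod_cast hX
  have hL0 : (0 : ℝ) < L := by exact_mod_cast hL
  have hLne : (range L).Nonempty := ⟨0, mem_range.mpr (by omega)⟩
  have hXne : (range X).Nonempty := ⟨0, mem_range.mpr (by omega)⟩
  -- replace by the double average
  exact by
    have h1 : ‖(𝔼 t ∈ range X, G t) - 𝔼 l ∈ range L, 𝔼 t ∈ range X, G (t + q * l)‖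
        ≤ 2 * q * L / X := by
      have h2 : (𝔼 t ∈ range X, G t) = 𝔼 l ∈ range L, 𝔼 t ∈ range X, G t := by
        rw [expect_const hLne]
      rw [h2, ← expect_sub_distrib]
      refine norm_expect_le_of5 _ _ (by (clear * - hL hX; positivity)) fun l hl => ?_
      rw [mem_range] at hl
      rw [expect_eq_sum_div_card, expect_eq_sum_div_card, ← sub_div, norm_div, card_range,
        Complex.norm_natCast]
      refine div_le_div_of_nonneg_right ?_ hX0.le
      refine le_trans (h9_shift_sum G hG1 X (q * l)) ?_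
      push_cast
      have : (l : ℝ) ≤ L := by exact_mod_cast hl.le
      have hq : (0 : ℝ) ≤ q := Nat.cast_nonneg q
      nlinarith
    -- the inner averages
    have h3 : ‖𝔼 l ∈ range L, 𝔼 t ∈ range X, G (t + q * l)‖ ≤
        (𝔼 t ∈ range X, ‖𝔼 l ∈ range L, f (x0 + (t : ZMod N) + ((q * l : ℕ) : ZMod N))‖)
          + 2 * Real.pi * dint (q * θ) * L := by
      rw [expect_comm]
      refine le_trans (norm_expect_le5 _ _) ?_
      have h4 : ∀ t ∈ range X, ‖𝔼 l ∈ range L, G (t + q * l)‖ ≤
          ‖𝔼 l ∈ range L, f (x0 + (t : ZMod N) + ((q * l : ℕ) : ZMod N))‖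
            + 2 * Real.pi * dint (q * θ) * L := by
        intro t _
        set d : ℝ := q * θ - round (q * θ) with hd
        have hGl : ∀ l : ℕ, G (t + q * l) = e (-(θ * t)) *
            (f (x0 + (t : ZMod N) + ((q * l : ℕ) : ZMod N)) * e (-(d * l))) := by
          intro l
          simp only [hG]
          have h5 : e (-(θ * ((t + q * l : ℕ) : ℝ))) = e (-(θ * t)) * e (-(d * l)) := by
            have h6 : -(θ * ((t + q * l : ℕ) : ℝ)) =
                (-(θ * t) + -(d * l)) + ((-(round (q * θ)) * l : ℤ) : ℝ) := by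
              rw [hd]
              push_cast
              ring
            rw [h6, e_add _ (((-(round (q * θ)) * l : ℤ) : ℝ)), e_int, mul_one, e_add]
          rw [h5]
          have h7 : x0 + ((t + q * l : ℕ) : ZMod N) =
              x0 + (t : ZMod N) + ((q * l : ℕ) : ZMod N) := by
            push_cast
            ring
          rw [h7]
          ring
        have h8 : 𝔼 l ∈ range L, G (t + q * l) = e (-(θ * t)) *
            𝔼 l ∈ range L, f (x0 + (t : ZMod N) + ((q * l : ℕ) : ZMod N)) * e (-(d * l)) := by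
          rw [mul_expect]
          exact expect_congr rfl fun l _ => hGl l
        rw [h8, norm_mul, norm_e, one_mul]
        have h9 : 𝔼 l ∈ range L, f (x0 + (t : ZMod N) + ((q * l : ℕ) : ZMod N)) * e (-(d * l)) =
            (𝔼 l ∈ range L, f (x0 + (t : ZMod N) + ((q * l : ℕ) : ZMod N))) +
            𝔼 l ∈ range L, f (x0 + (t : ZMod N) + ((q * l : ℕ) : ZMod N)) *
              (e (-(d * l)) - 1) := by
          rw [← expect_add_distrib]
          refine expect_congr rfl fun l _ => ?_
          ring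
        rw [h9]
        refine le_trans (norm_add_le _ _) ?_
        have h10 : ‖𝔼 l ∈ range L, f (x0 + (t : ZMod N) + ((q * l : ℕ) : ZMod N)) *
              (e (-(d * l)) - 1)‖ ≤ 2 * Real.pi * dint (q * θ) * L := by
          have hdint : 0 ≤ dint (q * θ) := abs_nonneg _
          refine norm_expect_le_of5 _ _ (by (clear * - hdint hL; positivity)) fun l hl => ?_
          rw [mem_range] at hl
          rw [norm_mul]
          have h11 : ‖e (-(d * l)) - 1‖ ≤ 2 * Real.pi * (dint (q * θ) * l) := by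
            have := norm_e_sub_e_le (-(d * l)) 0
            rw [e_zero, sub_zero, abs_neg, abs_mul, Nat.abs_cast] at this
            exact this
          have h12 : (l : ℝ) ≤ L := by exact_mod_cast hl.le
          have h13 : dint (q * θ) * l ≤ dint (q * θ) * L := mul_le_mul_of_nonneg_left h12 hdint
          have hpi := Real.pi_pos
          calc _ ≤ 1 * (2 * Real.pi * (dint (q * θ) * l)) :=
                mul_le_mul (hf _) h11 (norm_nonneg _) zero_le_one
            _ ≤ _ := by (clear * - h13 hpi; nlinarith)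
        (clear * - h10; linarith)
      refine le_trans (expect_le_expect h4) ?_
      rw [expect_add_distrib, expect_const hXne]
    have h14 := norm_sub_le (𝔼 l ∈ range L, 𝔼 t ∈ range X, G (t + q * l))
      ((𝔼 l ∈ range L, 𝔼 t ∈ range X, G (t + q * l)) - 𝔼 t ∈ range X, G t)
    rw [sub_sub_cancel] at h14
    rw [norm_sub_rev] at h1
    (clear * - h1 h3 h14; linarith)

/-- the block sums for the phase functions -/
theorem h9_block_eval {N : ℕ} [NeZero N] (u : ZMod N → ℂ) (r : ZMod N) (X : ℕ) (hX : 1 ≤ X)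
    (θ : ℕ → ℝ) (w : ℕ → ℂ) (P : ℕ → Prop) [DecidablePred P]
    (hw : ∀ j, w j * (𝔼 t ∈ range X, u (r + ((j * X + t : ℕ) : ZMod N)) * e (-(θ j * t))) =
      ((‖𝔼 t ∈ range X, u (r + ((j * X + t : ℕ) : ZMod N)) * e (-(θ j * t))‖ : ℝ) : ℂ)) :
    𝔼 x, conj (u x) * bphase X r
      (fun j => if j < N / X ∧ P j then conj (w j) * e (-(θ j * (j * X : ℕ))) else 0) θ x =
      (((1 / N : ℝ) * ∑ j ∈ range (N / X), if P j then
        X * ‖𝔼 t ∈ range X, u (r + ((j * X + t : ℕ) : ZMod N)) * e (-(θ j * t))‖ else 0 : ℝ) : ℂ)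
      := by
  set K := N / X with hK
  set cc : ℕ → ℂ := fun j => if j < K ∧ P j then conj (w j) * e (-(θ j * (j * X : ℕ))) else 0
    with hcc
  have hval : ∀ v, v < N → ((r + (v : ZMod N)) - r).val = v := by
    intro v hv
    rw [add_sub_cancel_left]
    exact ZMod.val_natCast_of_lt hv
  have hzero : ∀ v, K * X ≤ v → v < N →
      conj (u (r + (v : ZMod N))) * bphase X r cc θ (r + (v : ZMod N)) = 0 := by
    intro v hv1 hv2
    unfold bphase
    rw [hval v hv2]
    have : ¬ (v / X < K ∧ P (v / X)) := by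
      rintro ⟨h, _⟩
      have := (Nat.le_div_iff_mul_le (by omega : 0 < X)).mpr hv1
      omega
    simp only [hcc]
    rw [if_neg this]
    simp
  rw [h72_expect_blocks r X (fun x => conj (u x) * bphase X r cc θ x) hzero]
  rw [Complex.ofReal_mul, Complex.ofReal_sum]
  congr 1
  · push_cast
    rfl
  refine sum_congr rfl fun j hj => ?_
  exact by
    rw [mem_range] at hj
    have hlt : ∀ t ∈ range X, j * X + t < N := by
      intro t ht
      rw [mem_range] at ht
      calc j * X + t < j * X + X := by omega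
        _ = (j + 1) * X := by ring
        _ ≤ K * X := Nat.mul_le_mul_right X (by omega)
        _ ≤ N := Nat.div_mul_le_self N X
    have hdiv : ∀ t ∈ range X, (j * X + t) / X = j := by
      intro t ht
      rw [mem_range] at ht
      rw [mul_comm, Nat.mul_add_div (by omega), Nat.div_eq_of_lt ht, Nat.add_zero]
    by_cases hg : P j
    · rw [if_pos hg]
      exact by
        have hterm : ∀ t ∈ range X, conj (u (r + ((j * X + t : ℕ) : ZMod N))) *
            bphase X r cc θ (r + ((j * X + t : ℕ) : ZMod N)) =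
            conj (w j * (u (r + ((j * X + t : ℕ) : ZMod N)) * e (-(θ j * t)))) := by
          intro t ht
          unfold bphase
          rw [hval _ (hlt t ht), hdiv t ht]
          simp only [hcc]
          rw [if_pos ⟨hj, hg⟩]
          have h1 : e (-(θ j * (j * X : ℕ))) * e (θ j * ((j * X + t : ℕ) : ℝ)) =
              conj (e (-(θ j * t))) := by
            rw [← e_neg, ← e_add]
            congr 1
            push_cast
            ring
          rw [map_mul, map_mul, ← h1]
          ring
        rw [sum_congr rfl hterm, ← map_sum, ← mul_sum]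
        have hSsum : ∑ t ∈ range X, u (r + ((j * X + t : ℕ) : ZMod N)) * e (-(θ j * t)) =
            (X : ℂ) * 𝔼 t ∈ range X, u (r + ((j * X + t : ℕ) : ZMod N)) * e (-(θ j * t)) := by
          rw [expect_eq_sum_div_card, card_range]
          have : (X : ℂ) ≠ 0 := by exact_mod_cast (by omega : X ≠ 0)
          (clear * - this; field_simp)
        rw [hSsum, mul_left_comm, hw j, map_mul, Complex.conj_ofReal, Complex.conj_natCast]
        push_cast
        rfl
    · rw [if_neg hg, Complex.ofReal_zero]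
      refine sum_eq_zero fun t ht => ?_
      unfold bphase
      rw [hval _ (hlt t ht), hdiv t ht]
      simp only [hcc]
      rw [if_neg (fun h => hg h.2)]
      simp

end

end Pool.Agent.Helper67.NX2

end

section

set_option autoImplicit false

open Finset

open scoped BigOperators ComplexConjugate

namespace Pool.Agent.Helper67.NX2

open Pool.Agent.Helper57.NX

noncomputable section

theorem h9_two (n n1 : ℕ) (p : ℕ) [NeZero p] (κ ι : Type) [Fintype κ] [Nonempty κ]
    (Ω : Finset ι) (F : ι → κ → ZMod p → ℂ) (u : κ → ZMod p → ℂ) (δ : ℝ) (X : ℕ)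
    (hp : p.Prime)
    (hF : ∀ n i x, ‖F n i x‖ ≤ 1) (hu : ∀ i x, u i x = conj (𝔼 n ∈ Ω, F n i x))
    (hδ0 : 0 < δ) (hδ1 : δ ≤ 1 / 2) (hX1 : 1 ≤ X) (hXp : (X : ℝ) ≤ δ ^ (n + 3 + n1) * p)
    (hB : δ ^ n ≤ 𝔼 i, Box 2 X (u i))
    (hLP : LPhM Ω F 0 1 X (δ⁻¹ ^ n1) (δ⁻¹ ^ n1 / X) (δ ^ (n + 4))) :
    ∃ q : ℕ, 1 ≤ q ∧ (q : ℝ) ≤ δ⁻¹ ^ n1 ∧ ∀ L : ℕ, 1 ≤ L → (L : ℝ) ≤ δ ^ (n + 8 + 2 * n1) * X →
      δ ^ (n + 8 + 2 * n1) ≤ 𝔼 i, nrm (A L (fun z => u i ((q : ZMod p) * z))) := by
  classical
  have hu1 : ∀ i x, ‖u i x‖ ≤ 1 := h9_norm_u hF hu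
  have hX0 : (0 : ℝ) < X := by exact_mod_cast hX1
  have hp0 : (0 : ℝ) < p := by exact_mod_cast hp.pos
  have hδle1 : δ ≤ 1 := by (clear * - hδ0 hδ1; linarith)
  have hδinv : 2 ≤ δ⁻¹ := by
    rw [le_inv_comm₀ (by norm_num) hδ0]
    (clear * - hδ1; linarith)
  have hpos : ∀ a : ℕ, 0 < δ ^ a := fun a => pow_pos hδ0 a
  exact by
    have hle1 : ∀ a : ℕ, δ ^ a ≤ 1 := fun a => pow_le_one₀ hδ0.le hδle1
    have h3 : δ ^ 3 ≤ 1 / 8 := by
      have := pow_le_pow_left₀ hδ0.le hδ1 3
      norm_num at this ⊢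
      (clear * - this; linarith)
    have hXN4 : (X : ℝ) ≤ δ ^ n / 8 * p := by
      refine le_trans hXp ?_
      have h4 : δ ^ (n + 3 + n1) ≤ δ ^ n / 8 := by
        rw [pow_add, pow_add]
        have h5 : δ ^ n * δ ^ 3 ≤ δ ^ n / 8 := by (clear * - hδ0 hδ1 h3 hpos; nlinarith [hpos n])
        have h6 : δ ^ n * δ ^ 3 * δ ^ n1 ≤ δ ^ n * δ ^ 3 := by
          (clear * - hδ0 hδ1 hle1 hpos; nlinarith [hle1 n1, mul_pos (hpos n) (hpos 3)])
        linarith
      exact mul_le_mul_of_nonneg_right h4 hp0.le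
    have hXN8 : (X : ℝ) ≤ p / 8 := by
      refine le_trans hXN4 ?_
      have : δ ^ n / 8 * p ≤ 1 / 8 * p :=
        mul_le_mul_of_nonneg_right (by (clear * - hle1; linarith [hle1 n])) hp0.le
      (clear * - this; linarith)
    have hXNn : X ≤ p := by
      have : (X : ℝ) ≤ p := by (clear * - hX0 hXN8; linarith)
      exact_mod_cast this
    set R : ℝ := δ⁻¹ ^ n1 with hR
    exact by
      have hR1 : 1 ≤ R := one_le_pow₀ (by (clear * - hδ0 hδ1 hδinv; linarith))
      have hR0 : 0 < R := by (clear * - hδ0 hδ1 hR1; linarith)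
      set V : ℝ := R / X with hV
      have hV0 : 0 < V := by positivity
      obtain ⟨r, θ, hθ, hU⟩ := u2_block (N := p) (κ := κ) univ univ_nonempty
        u hu1 X hX1 hXNn
      have hBU : 𝔼 i, Box 2 X (u i) = 𝔼 i, U2 X (u i) :=
        expect_congr rfl fun i _ => h72_box_two X (u i)
      rw [← hBU] at hU
      set S : κ → ℕ → ℂ := fun i j => 𝔼 t ∈ range X,
        u i (r + ((j * X + t : ℕ) : ZMod p)) * e (-(θ i j * t)) with hS
      exact by
        set K : ℕ := p / X with hK
        have hKX : (p : ℝ) / 2 ≤ K * X := by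
          have h1 : p < (p / X + 1) * X := by
            have := Nat.lt_div_mul_add (a := p) (b := X) (by omega)
            rw [Nat.add_mul, Nat.one_mul]
            exact this
          have h2 : (p : ℝ) < (K + 1) * X := by exact_mod_cast h1
          (clear * - hX0 hXN8 h2; nlinarith)
        have hKX2 : (K : ℝ) * X ≤ p := by exact_mod_cast Nat.div_mul_le_self p X
        set E : ℝ := 𝔼 i, 𝔼 j ∈ range K, ‖S i j‖ with hE
        have hElow : 3 * δ ^ n / 8 ≤ E := by
          have h1 : δ ^ n ≤ 2 * E + 2 * X / p := le_trans hB hU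
          have h2 : 2 * (X : ℝ) / p ≤ δ ^ n / 4 := by
            rw [div_le_iff₀ hp0]
            (clear * - hXN4; linarith)
          (clear * - hB hU h2; linarith)
        choose w hw1 hw2 using fun i j => h72_unimod (S i j)
        -- major pairs
        set maj : κ → ℕ → Prop := fun i j => ∃ q : ℕ, 1 ≤ q ∧ (q : ℝ) ≤ R ∧ dint (q * θ i j) ≤ V
          with hmaj
        -- the minor part
        exact by
          have hminor : 𝔼 i : κ, (1 / p : ℝ) * ∑ j ∈ range K, (if ¬ maj i j then X * ‖S i j‖ else 0)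
              < δ ^ (n + 4) := by
            have h1 := hLP (fun i => i.elim0) (h9_boxset_zero 1 _) (fun i => i.elim0)
              (h9_boxset_zero 1 _) r
              (fun i j => if j < p / X ∧ ¬ maj i j then conj (w i j) * e (-(θ i j * (j * X : ℕ))) else 0)
              θ ?_ ?_
            · have h2 : 𝔼 n ∈ Ω, 𝔼 i : κ, 𝔼 x, cube (F n i) (fun i : Fin 0 => i.elim0)
                  (fun i : Fin 0 => i.elim0) x * bphase X r
                  (fun j => if j < p / X ∧ ¬ maj i j then
                    conj (w i j) * e (-(θ i j * (j * X : ℕ))) else 0) (θ i) x =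
                  ((𝔼 i : κ, (1 / p : ℝ) * ∑ j ∈ range K,
                    (if ¬ maj i j then X * ‖S i j‖ else 0) : ℝ) : ℂ) := by
                rw [expect_comm]
                have h3 : ∀ i : κ, 𝔼 n ∈ Ω, 𝔼 x, cube (F n i) (fun i : Fin 0 => i.elim0)
                  (fun i : Fin 0 => i.elim0) x * bphase X r
                  (fun j => if j < p / X ∧ ¬ maj i j then
                    conj (w i j) * e (-(θ i j * (j * X : ℕ))) else 0) (θ i) x =
                  (((1 / p : ℝ) * ∑ j ∈ range K,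
                    (if ¬ maj i j then X * ‖S i j‖ else 0) : ℝ) : ℂ) := by
                  intro i
                  rw [← h9_block_eval (u i) r X hX1 (θ i) (w i) (fun j => ¬ maj i j) (hw2 i)]
                  rw [expect_comm]
                  refine expect_congr rfl fun x _ => ?_
                  rw [hu i x, Complex.conj_conj, expect_mul]
                  refine expect_congr rfl fun n _ => ?_
                  rw [h9_cube_zero]
                rw [expect_congr rfl fun i _ => h3 i]
                rw [Complex.ofReal_expect]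
              rw [h2, Complex.norm_real, Real.norm_eq_abs] at h1
              exact lt_of_le_of_lt (le_abs_self _) h1
            · intro i j
              split_ifs
              · rw [norm_mul, norm_e, mul_one, Complex.norm_conj]
                exact hw1 i j
              · simp
            · intro i j hne q hq1 hq
              by_contra hcon
              apply hne
              rw [if_neg]
              rintro ⟨_, h⟩
              exact h ⟨q, hq1, hq, not_lt.mp hcon⟩
          -- the total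
          have htotal : 3 * δ ^ n / 16 ≤ 𝔼 i : κ, (1 / p : ℝ) * ∑ j ∈ range K, (X * ‖S i j‖) := by
            have h1 : 𝔼 i : κ, (1 / p : ℝ) * ∑ j ∈ range K, (X * ‖S i j‖) = (K * X / p) * E := by
              rw [hE, mul_expect]
              refine expect_congr rfl fun i _ => ?_
              have h2 : (K : ℝ) * 𝔼 j ∈ range K, ‖S i j‖ = ∑ j ∈ range K, ‖S i j‖ := by
                rw [expect_eq_sum_div_card, card_range]
                have hK0 : (K : ℝ) ≠ 0 := by
                  intro h
                  rw [h] at hKX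
                  (clear * - hX0 hXN8 hKX; linarith)
                (clear * - hK0; field_simp)
              rw [← mul_sum, ← h2]
              ring
            rw [h1]
            have h2 : 1 / 2 ≤ (K * X / p : ℝ) := by
              rw [le_div_iff₀ hp0]
              (clear * - hKX; linarith)
            have h3 : 0 ≤ E := by (clear * - hElow hpos; linarith [hpos n])
            (clear * - hElow hδ0 hδ1 h2 h3; nlinarith)
          -- the major part
          have hmajor : δ ^ n / 8 ≤ 𝔼 i : κ, (1 / p : ℝ) * ∑ j ∈ range K,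
              (if maj i j then X * ‖S i j‖ else 0) := by
            have h1 : 𝔼 i : κ, (1 / p : ℝ) * ∑ j ∈ range K, (X * ‖S i j‖) =
                (𝔼 i : κ, (1 / p : ℝ) * ∑ j ∈ range K, (if maj i j then X * ‖S i j‖ else 0)) +
                𝔼 i : κ, (1 / p : ℝ) * ∑ j ∈ range K, (if ¬ maj i j then X * ‖S i j‖ else 0) := by
              rw [← expect_add_distrib]
              refine expect_congr rfl fun i _ => ?_
              rw [← mul_add, ← sum_add_distrib]
              congr 1
              refine sum_congr rfl fun j _ => ?_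
              by_cases h : maj i j
              · simp [h]
              · simp [h]
            have h4 : δ ^ (n + 4) ≤ δ ^ n / 16 := by
              rw [pow_add]
              have : δ ^ 4 ≤ 1 / 16 := by
                have := pow_le_pow_left₀ hδ0.le hδ1 4
                norm_num at this ⊢
                (clear * - this; linarith)
              (clear * - this hp0 hXN4 hpos; nlinarith [hpos n])
            (clear * - hminor htotal h1 h4; linarith)
          -- pigeonhole
          set T : ℕ → ℝ := fun q => 𝔼 i : κ, (1 / p : ℝ) * ∑ j ∈ range K,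
              (if dint (q * θ i j) ≤ V then X * ‖S i j‖ else 0) with hT
          have hTsum : δ ^ n / 8 ≤ ∑ q ∈ Icc 1 ⌊R⌋₊, T q := by
            refine le_trans hmajor ?_
            simp only [hT]
            rw [← expect_sum_comm]
            refine expect_le_expect fun i _ => ?_
            rw [← mul_sum, sum_comm]
            refine mul_le_mul_of_nonneg_left ?_ (by (clear * - hp0; positivity))
            refine sum_le_sum fun j _ => ?_
            have hnn : ∀ q ∈ Icc 1 ⌊R⌋₊, 0 ≤ (if dint ((q : ℝ) * θ i j) ≤ V then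
                (X : ℝ) * ‖S i j‖ else 0) := by
              intro q _
              split_ifs
              · (clear * - hX1; positivity)
              · exact le_rfl
            split_ifs with h
            · obtain ⟨q, hq1, hq2, hq3⟩ := h
              have hq : q ∈ Icc 1 ⌊R⌋₊ := mem_Icc.mpr ⟨hq1, Nat.le_floor hq2⟩
              refine le_trans ?_ (single_le_sum hnn hq)
              rw [if_pos hq3]
            · exact sum_nonneg hnn
          obtain ⟨q, hq, hTq⟩ : ∃ q ∈ Icc 1 ⌊R⌋₊, δ ^ n / 8 / R ≤ T q := by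
            by_contra hcon
            push Not at hcon
            have hfl : 1 ≤ ⌊R⌋₊ := (Nat.one_le_floor_iff _).mpr hR1
            have hne : (Icc 1 ⌊R⌋₊).Nonempty := ⟨1, mem_Icc.mpr ⟨le_rfl, hfl⟩⟩
            have h1 : ∑ q ∈ Icc 1 ⌊R⌋₊, T q < ∑ q ∈ Icc 1 ⌊R⌋₊, δ ^ n / 8 / R :=
              sum_lt_sum_of_nonempty hne hcon
            rw [sum_const, Nat.card_Icc, Nat.add_sub_cancel, nsmul_eq_mul] at h1
            have h2 : (⌊R⌋₊ : ℝ) * (δ ^ n / 8 / R) ≤ R * (δ ^ n / 8 / R) :=
              mul_le_mul_of_nonneg_right (Nat.floor_le hR0.le)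
                (div_nonneg (div_nonneg (hpos n).le (by norm_num)) hR0.le)
            have h3 : R * (δ ^ n / 8 / R) = δ ^ n / 8 := by field_simp
            (clear * - hTsum h1 h2 h3; linarith)
          rw [mem_Icc] at hq
          have hqR : (q : ℝ) ≤ R := le_trans (by exact_mod_cast hq.2) (Nat.floor_le hR0.le)
          exact by
            refine ⟨q, hq.1, hqR, ?_⟩
            intro L hL1 hL
            have hL0 : (0 : ℝ) < L := by exact_mod_cast hL1
            have hqp : q < p := by
              have h1 : R * δ ^ n1 = 1 := by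
                rw [hR, ← mul_pow, inv_mul_cancel₀ hδ0.ne', one_pow]
              have h2 : (1 : ℝ) ≤ δ ^ (n + 3 + n1) * p := le_trans (by exact_mod_cast hX1) hXp
              have h4 : δ ^ (n + 3 + n1) ≤ δ ^ n1 / 8 := by
                rw [pow_add, pow_add]
                have h5 : δ ^ n * δ ^ 3 ≤ 1 / 8 := by (clear * - h3 hle1 hp0 hXN4 hpos; nlinarith [hpos n, hle1 n, hpos 3])
                (clear * - h5 hδ0 hδ1 hR1 h1 hpos; nlinarith [hpos n1])
              have h5 : (1 : ℝ) ≤ δ ^ n1 / 8 * p := le_trans h2 (mul_le_mul_of_nonneg_right h4 hp0.le)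
              have h6 : R ≤ p / 8 := by
                have h7 := mul_le_mul_of_nonneg_left h5 hR0.le
                have h8 : R * (δ ^ n1 / 8 * p) = (R * δ ^ n1) * p / 8 := by ring
                rw [h8, h1] at h7
                (clear * - h7; linarith)
              have h7 : (q : ℝ) < p := by (clear * - hδ0 hδ1 hR1 hqR h6; linarith)
              exact_mod_cast h7
            -- windows
            have hwin : T q ≤ (𝔼 i, nrm (A L (fun z => u i ((q : ZMod p) * z)))) +
                (2 * Real.pi * V * L + 2 * q * L / X) := by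
              have h1 : ∀ i : κ, (1 / p : ℝ) * ∑ j ∈ range K,
                  (if dint (q * θ i j) ≤ V then X * ‖S i j‖ else 0) ≤
                  nrm (A L (fun z => u i ((q : ZMod p) * z))) + (2 * Real.pi * V * L + 2 * q * L / X) := by
                intro i
                rw [← h9_nrm_dil hp q L hq.1 hqp (u i)]
                refine le_trans ?_ (add_le_add_left (h9_blocks_le r X
                  (fun x => ‖𝔼 l ∈ range L, u i (x + ((q * l : ℕ) : ZMod p))‖)
                  (fun _ => norm_nonneg _)) _)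
                have h2 : ∀ j ∈ range K, (if dint (q * θ i j) ≤ V then X * ‖S i j‖ else 0) ≤
                    ∑ t ∈ range X, ‖𝔼 l ∈ range L, u i (r + ((j * X + t : ℕ) : ZMod p) +
                      ((q * l : ℕ) : ZMod p))‖ + X * (2 * Real.pi * V * L + 2 * q * L / X) := by
                  intro j _
                  have hpi := Real.pi_pos
                  split_ifs with h
                  · have h3 := h9_window (hu1 i) (r + ((j * X : ℕ) : ZMod p)) (θ i j) X q L hX1 hL1
                    exact by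
                      have h4 : S i j = 𝔼 t ∈ range X,
                          u i (r + ((j * X : ℕ) : ZMod p) + (t : ZMod p)) * e (-(θ i j * t)) := by
                        simp only [hS]
                        refine expect_congr rfl fun t _ => ?_
                        congr 2
                        push_cast
                        ring
                      rw [← h4] at h3
                      have h5 : (X : ℝ) * (𝔼 t ∈ range X, ‖𝔼 l ∈ range L,
                          u i (r + ((j * X : ℕ) : ZMod p) + (t : ZMod p) + ((q * l : ℕ) : ZMod p))‖) =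
                          ∑ t ∈ range X, ‖𝔼 l ∈ range L, u i (r + ((j * X + t : ℕ) : ZMod p) +
                            ((q * l : ℕ) : ZMod p))‖ := by
                        rw [expect_eq_sum_div_card, card_range, mul_div_cancel₀ _ hX0.ne']
                        refine sum_congr rfl fun t _ => ?_
                        congr 1
                        refine expect_congr rfl fun l _ => ?_
                        congr 2
                        push_cast
                        ring
                      rw [← h5, ← mul_add]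
                      refine mul_le_mul_of_nonneg_left ?_ hX0.le
                      have h6 : 2 * Real.pi * dint (q * θ i j) * L ≤ 2 * Real.pi * V * L := by
                        refine mul_le_mul_of_nonneg_right ?_ hL0.le
                        exact mul_le_mul_of_nonneg_left h (by positivity)
                      (clear * - h3 h6; linarith)
                  · (clear * - hX1 hδ0 hL1; positivity)
                have h7 := mul_le_mul_of_nonneg_left (sum_le_sum h2) (by (clear * - hp0; positivity) : (0 : ℝ) ≤ 1 / p)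
                refine le_trans h7 ?_
                rw [sum_add_distrib, mul_add, sum_const, card_range, nsmul_eq_mul]
                have hpi := Real.pi_pos
                have h8 : (0 : ℝ) ≤ 2 * Real.pi * V * L + 2 * q * L / X := by (clear * - hδ0 hX1 hL1; positivity)
                have h9 : (1 / p : ℝ) * (K * (X * (2 * Real.pi * V * L + 2 * q * L / X))) ≤
                    2 * Real.pi * V * L + 2 * q * L / X := by
                  have h10 : (1 / p : ℝ) * (K * (X * (2 * Real.pi * V * L + 2 * q * L / X))) =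
                      (K * X / p) * (2 * Real.pi * V * L + 2 * q * L / X) := by ring
                  rw [h10]
                  have h11 : (K * X / p : ℝ) ≤ 1 := by
                    rw [div_le_one hp0]
                    exact hKX2
                  (clear * - hδ0 hδ1 h8 h11; nlinarith)
                (clear * - h9; linarith)
              simp only [hT]
              refine le_trans (expect_le_expect fun i _ => h1 i) ?_
              rw [expect_add_distrib, expect_const univ_nonempty]
            -- errors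
            have herr : 2 * Real.pi * V * L + 2 * q * L / X ≤ δ ^ (n + 4 + n1) := by
              have h1 : 2 * (q : ℝ) * L / X ≤ 2 * R * L / X := by
                refine div_le_div_of_nonneg_right ?_ hX0.le
                (clear * - hqR; nlinarith)
              have h2 : 2 * Real.pi * V * L ≤ 8 * R * L / X := by
                rw [hV]
                have h3 : 2 * Real.pi * (R / X) * L = (2 * Real.pi) * (R * L / X) := by ring
                have h4 : 8 * R * L / X = 8 * (R * L / X) := by ring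
                rw [h3, h4]
                refine mul_le_mul_of_nonneg_right ?_ (by (clear * - hδ0 hL1 hX1; positivity))
                (clear * -; linarith [Real.pi_lt_four])
              have h5 : 8 * R * L / X + 2 * R * L / X = 10 * (R * (L / X)) := by ring
              have h6 : (L : ℝ) / X ≤ δ ^ (n + 8 + 2 * n1) := by
                rw [div_le_iff₀ hX0]
                exact hL
              have h7 : R * (L / X) ≤ R * δ ^ (n + 8 + 2 * n1) := mul_le_mul_of_nonneg_left h6 hR0.le
              have h8 : R * δ ^ (n + 8 + 2 * n1) = δ ^ (n + 8 + n1) := by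
                have h9 : n + 8 + 2 * n1 = n1 + (n + 8 + n1) := by omega
                rw [hR, h9, pow_add, ← mul_assoc, ← mul_pow, inv_mul_cancel₀ hδ0.ne', one_pow, one_mul]
              have h10 : δ ^ (n + 8 + n1) ≤ δ ^ (n + 4 + n1) / 16 := by
                have h11 : n + 8 + n1 = (n + 4 + n1) + 4 := by omega
                rw [h11, pow_add]
                have : δ ^ 4 ≤ 1 / 16 := by
                  have := pow_le_pow_left₀ hδ0.le hδ1 4
                  norm_num at this ⊢
                  (clear * - this; linarith)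
                (clear * - hδ0 hδ1 this hpos; nlinarith [hpos (n + 4 + n1)])
              have h12 := hpos (n + 4 + n1)
              (clear * - h1 h2 h5 h7 h8 h10 h12; linarith)
            have hmain : δ ^ (n + 3 + n1) ≤ T q := by
              refine le_trans ?_ hTq
              have h1 : δ ^ n / 8 / R = δ ^ n * δ ^ n1 / 8 := by
                rw [hR, inv_pow]
                field_simp
              rw [h1, pow_add, pow_add]
              have := mul_pos (hpos n) (hpos n1)
              (clear * - hδ0 hδ1 h3 this; nlinarith)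
            have h1 : 2 * δ ^ (n + 4 + n1) ≤ δ ^ (n + 3 + n1) := by
              have h2 : n + 4 + n1 = (n + 3 + n1) + 1 := by omega
              rw [h2, pow_succ]
              have := hpos (n + 3 + n1)
              (clear * - hδ1 this; nlinarith)
            exact by
              have h2 : δ ^ (n + 8 + 2 * n1) ≤ δ ^ (n + 4 + n1) := h72_pow_anti hδ0 hδ1 (by (clear * - p δ X q L; omega))
              (clear * - hwin herr hmain h1 h2; linarith)

end

end Pool.Agent.Helper67.NX2

end

section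

set_option autoImplicit false

open Finset

open scoped BigOperators ComplexConjugate

namespace Pool.Agent.Helper67.NX2

open Pool.Agent.Helper57.NX

noncomputable section

theorem h9_total (hL : ∀ k, 1 ≤ k → H9Low k) (r : ℕ) : ∀ (Γ : ℕ → ℕ → ℕ) (n : ℕ), ∃ n4 : ℕ,
    ∀ (p : ℕ) [NeZero p] (κ ι : Type) [Fintype κ] [Nonempty κ] (Ω : Finset ι)
      (F : ι → κ → ZMod p → ℂ) (u : κ → ZMod p → ℂ) (δ : ℝ) (X : ℕ), p.Prime → Ω.Nonempty →
      (∀ n i x, ‖F n i x‖ ≤ 1) → (∀ i x, u i x = conj (𝔼 n ∈ Ω, F n i x)) →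
      0 < δ → δ ≤ 1 / 2 → δ⁻¹ ^ n4 ≤ (X : ℝ) → (X : ℝ) ≤ δ ^ n4 * p →
      δ ^ n ≤ 𝔼 i, Box (r + 2) X (u i) →
      (∀ nq ≤ n4, ∀ q : ℕ, 1 ≤ q → (q : ℝ) ≤ δ⁻¹ ^ nq → ∀ k ≤ r, ∀ n2 ≤ n4, ∀ X2 X' : ℕ,
        δ ^ n4 * X ≤ X2 → X2 ≤ X → 1 ≤ X' → X' ≤ X2 →
        LPhM Ω (fun n i z => F n i ((q : ZMod p) * z)) k X' X2 (δ⁻¹ ^ (Γ nq n2))
          (δ⁻¹ ^ (Γ nq n2) / X2) (δ ^ n2)) →
      ∃ q : ℕ, 1 ≤ q ∧ (q : ℝ) ≤ δ⁻¹ ^ n4 ∧ ∀ L : ℕ, 1 ≤ L → (L : ℝ) ≤ δ ^ n4 * X →
        δ ^ n4 ≤ 𝔼 i, nrm (A L (fun z => u i ((q : ZMod p) * z))) := by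
  induction r with
  | zero =>
    intro Γ n
    set n1 := Γ 0 (n + 4) with hn1
    refine ⟨n + 8 + 2 * n1, ?_⟩
    intro p _ κ ι _ _ Ω F u δ X hp hΩ hF hu hδ0 hδ1 hXlow hXp hB hLP
    have hp0 : (0 : ℝ) ≤ p := Nat.cast_nonneg p
    have hX1R : (1 : ℝ) ≤ X := by
      refine le_trans ?_ hXlow
      exact one_le_pow₀ (by
        rw [le_inv_comm₀ (by norm_num) hδ0]
        linarith)
    have hX1 : 1 ≤ X := by exact_mod_cast hX1R
    have hLP1 := hLP 0 (by omega) 1 le_rfl (by simp) 0 le_rfl (n + 4) (by omega) X 1 (by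
      have : δ ^ (n + 8 + 2 * n1) ≤ 1 := pow_le_one₀ hδ0.le (by (clear * - hδ0 hδ1; linarith))
      (clear * - this; nlinarith)) le_rfl le_rfl hX1
    have hF1 : (fun n i z => F n i (((1 : ℕ) : ZMod p) * z)) = F := by
      funext n i z
      rw [Nat.cast_one, one_mul]
    rw [hF1] at hLP1
    obtain ⟨q, hq1, hq2, hq3⟩ := h9_two n n1 p κ ι Ω F u δ X hp hF hu hδ0 hδ1 hX1
      (le_trans hXp (mul_le_mul_of_nonneg_right (h72_pow_anti hδ0 hδ1 (by omega)) hp0)) hB hLP1
    exact ⟨q, hq1, le_trans hq2 (h72_ipow_mono hδ0 hδ1 (by omega)), hq3⟩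
  | succ r ih =>
    intro Γ n
    obtain ⟨n2, h2⟩ := hL (r + 1) (by omega) n
    set n1 := Γ 0 n2 with hn1
    obtain ⟨n3, hlow⟩ := h2 n1
    obtain ⟨n5, hn5⟩ := ih (fun nq m2 => Γ (nq + n1) m2) n3
    refine ⟨n5 + 2 * n3 + 2 + n1 + n2, ?_⟩
    set n4 := n5 + 2 * n3 + 2 + n1 + n2 with hn4
    intro p _ κ ι _ _ Ω F u δ X hp hΩ hF hu hδ0 hδ1 hXlow hXp hB hLP
    have hX0 : (0 : ℝ) ≤ X := Nat.cast_nonneg X
    have hp0 : (0 : ℝ) ≤ p := Nat.cast_nonneg p
    have hle1 : ∀ a : ℕ, δ ^ a ≤ 1 := fun a => pow_le_one₀ hδ0.le (by (clear * - hδ0 hδ1; linarith))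
    exact by
      have hpos : ∀ a : ℕ, 0 < δ ^ a := fun a => pow_pos hδ0 a
      have hδinv : 1 ≤ δ⁻¹ := by
        rw [le_inv_comm₀ (by norm_num) hδ0]
        (clear * - hδ0 hδ1; linarith)
      have hX1R : (1 : ℝ) ≤ X := le_trans (one_le_pow₀ hδinv) hXlow
      have hX1 : 1 ≤ X := by exact_mod_cast hX1R
      -- `δ^m X ≥ δ⁻¹^(n4-m)`
      have hXm : ∀ m a, m + a ≤ n4 → δ⁻¹ ^ a ≤ δ ^ m * X := by
        intro m a hma
        have h1 : δ⁻¹ ^ (m + a) ≤ X := le_trans (h72_ipow_mono hδ0 hδ1 hma) hXlow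
        have h3 := mul_le_mul_of_nonneg_left h1 (hpos m).le
        rw [pow_add, ← mul_assoc, ← mul_pow, mul_inv_cancel₀ hδ0.ne', one_pow, one_mul] at h3
        exact h3
      obtain ⟨hX'1, hX'le, hX'ge⟩ := h9_floor hδ0 hδ1 n3 X (by
        have := hXm n3 0 (by omega)
        rwa [pow_zero] at this)
      set X' : ℕ := ⌊δ ^ n3 * (X : ℝ)⌋₊ with hX'
      exact by
        have hX'ge2 : δ ^ (n3 + (n3 + 1)) * X ≤ δ ^ n3 * X' := by
          rw [pow_add, mul_assoc]
          exact mul_le_mul_of_nonneg_left hX'ge (hpos n3).le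
        obtain ⟨hX''1, hX''le, hX''ge⟩ := h9_floor hδ0 hδ1 n3 X' (by
          have := hXm (n3 + (n3 + 1)) 0 (by omega)
          rw [pow_zero] at this
          (clear * - hX'ge2 this; linarith))
        set X'' : ℕ := ⌊δ ^ n3 * (X' : ℝ)⌋₊ with hX''
        have hX''ge2 : δ ^ (2 * n3 + 2) * X ≤ X'' := by
          have h3 : 2 * n3 + 2 = (n3 + 1) + (n3 + 1) := by omega
          rw [h3, pow_add, mul_assoc]
          exact le_trans (mul_le_mul_of_nonneg_left hX'ge (hpos (n3 + 1)).le) hX''ge
        have hX'X : X' ≤ X := by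
          have : (X' : ℝ) ≤ X := le_trans hX'le (by (clear * - hle1; nlinarith [hle1 n3]))
          exact_mod_cast this
        have hX''X' : X'' ≤ X' := by
          have : (X'' : ℝ) ≤ X' := le_trans hX''le (by
            (clear * - hle1; nlinarith [hle1 n3, (Nat.cast_nonneg X' : (0 : ℝ) ≤ X')]))
          exact_mod_cast this
        have hX''X : (X'' : ℝ) ≤ X := by exact_mod_cast le_trans hX''X' hX'X
        exact by
          have hXp3 : (X : ℝ) ≤ δ ^ n3 * p :=
            le_trans hXp (mul_le_mul_of_nonneg_right (h72_pow_anti hδ0 hδ1 (by omega)) hp0)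
          -- first stage
          have hLP1 := hLP 0 (by omega) 1 le_rfl (by simp) (r + 1) le_rfl n2 (by omega) X X' (by
            (clear * - hle1; nlinarith [hle1 n4])) le_rfl hX'1 hX'X
          have hF1 : (fun n i z => F n i (((1 : ℕ) : ZMod p) * z)) = F := by
            funext n i z
            rw [Nat.cast_one, one_mul]
          rw [hF1] at hLP1
          obtain ⟨q, hq1, hq2, hbox⟩ := hlow p κ ι Ω F u δ X X' X'' hp hΩ hF hu hδ0 hδ1 hX1 hXp3 hB
            hX'1 hX'le hX''1 hX''le hLP1
          -- the inductive hypothesis at the scale `X''` for the dilated functions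
          obtain ⟨q', hq'1, hq'2, hq'3⟩ := hn5 p κ ι Ω (fun n i z => F n i ((q : ZMod p) * z))
            (fun i z => u i ((q : ZMod p) * z)) δ X'' hp hΩ (fun n i x => hF n i _)
            (fun i x => hu i _) hδ0 hδ1
            (le_trans (hXm (2 * n3 + 2) n5 (by omega)) hX''ge2)
            (le_trans hX''X (le_trans hXp
              (mul_le_mul_of_nonneg_right (h72_pow_anti hδ0 hδ1 (by omega)) hp0))) hbox (by
              intro nq hnq q' hq'1 hq'2 k hk m2 hm2 X2 X3 hX2 hX2' hX3 hX3'
              have h4 := hLP (nq + n1) (by omega) (q * q') (Nat.mul_pos hq1 hq'1) (by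
                push_cast
                rw [Nat.add_comm nq n1, pow_add]
                exact mul_le_mul hq2 hq'2 (Nat.cast_nonneg _) (by positivity)) k (by omega) m2
                (by omega) X2 X3 (by
                  refine le_trans ?_ hX2
                  refine le_trans ?_ (mul_le_mul_of_nonneg_left hX''ge2 (hpos n5).le)
                  rw [← mul_assoc, ← pow_add]
                  exact mul_le_mul_of_nonneg_right (h72_pow_anti hδ0 hδ1 (by omega)) hX0)
                (le_trans hX2' (le_trans hX''X' hX'X)) hX3 hX3'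
              have h5 : (fun n i z => F n i (((q * q' : ℕ) : ZMod p) * z)) =
                  (fun n i z => F n i ((q : ZMod p) * ((q' : ZMod p) * z))) := by
                funext n i z
                rw [Nat.cast_mul, mul_assoc]
              rw [h5] at h4
              exact h4)
          refine ⟨q * q', Nat.mul_pos hq1 hq'1, ?_, ?_⟩
          · push_cast
            refine le_trans (mul_le_mul hq2 hq'2 (Nat.cast_nonneg _) (by positivity)) ?_
            rw [← pow_add]
            exact h72_ipow_mono hδ0 hδ1 (by omega)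
          · intro L hL1 hL2
            have h6 := hq'3 L hL1 (by
              refine le_trans hL2 ?_
              refine le_trans ?_ (mul_le_mul_of_nonneg_left hX''ge2 (hpos n5).le)
              rw [← mul_assoc, ← pow_add]
              exact mul_le_mul_of_nonneg_right (h72_pow_anti hδ0 hδ1 (by omega)) hX0)
            have h7 : (𝔼 i, nrm (A L (fun z => u i (((q * q' : ℕ) : ZMod p) * z)))) =
                𝔼 i, nrm (A L (fun z => u i ((q : ZMod p) * ((q' : ZMod p) * z)))) := by
              refine expect_congr rfl fun i _ => ?_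
              congr 2
              funext z
              rw [Nat.cast_mul, mul_assoc]
            rw [h7]
            exact le_trans (h72_pow_anti hδ0 hδ1 (by omega)) h6

/-- `dl_total'` from the two halves of the degree lowering step -/
theorem h9_dl_total (hL : ∀ k, 1 ≤ k → H9Low k) (r : ℕ) (Γ : ℕ → ℕ → ℕ) (n : ℕ) : ∃ n4 : ℕ,
    ∀ (p : ℕ) [NeZero p] (κ ι : Type) [Fintype κ] [Nonempty κ] (Ω : Finset ι)
      (F : ι → κ → ZMod p → ℂ) (u : κ → ZMod p → ℂ) (δ : ℝ) (X : ℕ), p.Prime → Ω.Nonempty →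
      (∀ n i x, ‖F n i x‖ ≤ 1) → (∀ i x, u i x = conj (𝔼 n ∈ Ω, F n i x)) →
      0 < δ → δ ≤ 1 / 2 → δ⁻¹ ^ n4 ≤ (X : ℝ) → (X : ℝ) ≤ δ ^ n4 * p →
      δ ^ n ≤ 𝔼 i, Box r X (u i) →
      (∀ nq ≤ n4, ∀ q : ℕ, 1 ≤ q → (q : ℝ) ≤ δ⁻¹ ^ nq → ∀ k ≤ r, ∀ n2 ≤ n4, ∀ X2 X' : ℕ,
        δ ^ n4 * X ≤ X2 → X2 ≤ X → 1 ≤ X' → X' ≤ X2 →
        LPhM Ω (fun n i z => F n i ((q : ZMod p) * z)) k X' X2 (δ⁻¹ ^ (Γ nq n2))
          (δ⁻¹ ^ (Γ nq n2) / X2) (δ ^ n2)) →
      ∃ q : ℕ, 1 ≤ q ∧ (q : ℝ) ≤ δ⁻¹ ^ n4 ∧ ∀ L : ℕ, 1 ≤ L → (L : ℝ) ≤ δ ^ n4 * X →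
        δ ^ n4 ≤ 𝔼 i, nrm (A L (fun z => u i ((q : ZMod p) * z))) := by
  obtain ⟨s, hs, hraise⟩ : ∃ s, s ≤ r ∧ ∀ (p : ℕ) [NeZero p] (κ : Type) [Fintype κ] [Nonempty κ]
      (u : κ → ZMod p → ℂ) (δ : ℝ) (X : ℕ), (∀ i x, ‖u i x‖ ≤ 1) → 1 ≤ X → 0 < δ → δ ≤ 1 / 2 →
      δ ^ n ≤ 𝔼 i, Box r X (u i) → δ ^ (4 * n) ≤ 𝔼 i, Box (s + 2) X (u i) := by
    by_cases hr : 2 ≤ r
    · refine ⟨r - 2, by omega, ?_⟩
      intro p _ κ _ _ u δ X _ _ hδ0 hδ1 h
      have h1 : r - 2 + 2 = r := by omega
      rw [h1]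
      exact le_trans (h72_pow_anti hδ0 hδ1 (by omega)) h
    · refine ⟨0, by omega, ?_⟩
      intro p _ κ _ _ u δ X hu hX hδ0 hδ1 h
      have h2 : δ ^ (2 * n) ≤ 𝔼 i, Box 1 X (u i) := by
        interval_cases r
        · exact h9_raise 0 X hX u hu n δ hδ0 h
        · exact le_trans (h72_pow_anti hδ0 hδ1 (by omega)) h
      have h3 := h9_raise 1 X hX u hu (2 * n) δ hδ0 h2
      rw [show 4 * n = 2 * (2 * n) by ring]
      exact h3
  obtain ⟨n4, h4⟩ := h9_total hL s Γ (4 * n)
  refine ⟨n4, ?_⟩
  intro p _ κ ι _ _ Ω F u δ X hp hΩ hF hu hδ0 hδ1 hXlow hXp hB hLP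
  have hX1R : (1 : ℝ) ≤ X := by
    refine le_trans ?_ hXlow
    exact one_le_pow₀ (by
      rw [le_inv_comm₀ (by norm_num) hδ0]
      (clear * - hδ0 hδ1; linarith))
  have hX1 : 1 ≤ X := by exact_mod_cast hX1R
  refine h4 p κ ι Ω F u δ X hp hΩ hF hu hδ0 hδ1 hXlow hXp
    (hraise p κ u δ X (h9_norm_u hF hu) hX1 hδ0 hδ1 hB) ?_
  intro nq hnq q hq1 hq2 k hk
  exact hLP nq hnq q hq1 hq2 k (le_trans hk hs)

end

end Pool.Agent.Helper67.NX2

end
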