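import Pool.Agent.Helper23.MC.L01_a0
import Pool.Agent.Helper23.MC.L01_a1
import Pool.Agent.Helper23.MC.L01_a11
import Pool.Agent.Helper23.MC.L01_a12
import Pool.Agent.Helper23.MC.L01_a13
import Pool.Agent.Helper23.MC.L01_a2
import Pool.Agent.Helper23.MC.L01_a6
import Pool.Agent.Helper23.MC.L01_a8

/-!
Parts of Helper7.NX.BaseCells, Helper41.NX2.BaseCells, Helper59.NX2.BaseRatlA
-/

attribute [local instance 5000]
  Pool.Agent.Helper23.MC.Inst.rCharZero Pool.Agent.Helper23.MC.Inst.rALM
  Pool.Agent.Helper23.MC.Inst.rARM Pool.Agent.Helper23.MC.Inst.rALSM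
  Pool.Agent.Helper23.MC.Inst.rARSM Pool.Agent.Helper23.MC.Inst.rARRLE
  Pool.Agent.Helper23.MC.Inst.rALRLE Pool.Agent.Helper23.MC.Inst.rARRLT
  Pool.Agent.Helper23.MC.Inst.rALRLT Pool.Agent.Helper23.MC.Inst.rPMRLT
  Pool.Agent.Helper23.MC.Inst.rMPRLT Pool.Agent.Helper23.MC.Inst.rPMM
  Pool.Agent.Helper23.MC.Inst.rMPM Pool.Agent.Helper23.MC.Inst.rPMSM
  Pool.Agent.Helper23.MC.Inst.rMPSM Pool.Agent.Helper23.MC.Inst.rEAOL
  Pool.Agent.Helper23.MC.Inst.rIOR Pool.Agent.Helper23.MC.Inst.rISOR
  Pool.Agent.Helper23.MC.Inst.rNZD Pool.Agent.Helper23.MC.Inst.rcCharZero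
  Pool.Agent.Helper23.MC.Inst.rcNZD Pool.Agent.Helper23.MC.Inst.zCharZero
  Pool.Agent.Helper23.MC.Inst.zALM Pool.Agent.Helper23.MC.Inst.zARM
  Pool.Agent.Helper23.MC.Inst.zALSM Pool.Agent.Helper23.MC.Inst.zARSM
  Pool.Agent.Helper23.MC.Inst.zIOR Pool.Agent.Helper23.MC.Inst.zISOR
  Pool.Agent.Helper23.MC.Inst.zNZD Pool.Agent.Helper23.MC.Inst.qCharZero
  Pool.Agent.Helper23.MC.Inst.mR Pool.Agent.Helper23.MC.Inst.mC Pool.Agent.Helper23.MC.Inst.mRC
  Pool.Agent.Helper23.MC.Inst.rPSM Pool.Agent.Helper23.MC.Inst.rCSM
  Pool.Agent.Helper23.MC.Inst.cAdd Pool.Agent.Helper23.MC.Inst.cAddM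
  Pool.Agent.Helper23.MC.Inst.cMul Pool.Agent.Helper23.MC.Inst.cMon

namespace Pool.Agent.Helper57.NX
end Pool.Agent.Helper57.NX

section

set_option autoImplicit false

open Finset

open scoped BigOperators ComplexConjugate

namespace Pool.Agent.Helper57.NX

noncomputable section

theorem form_loc7 {m N : ℕ} [NeZero N] (S : Sys (m + 1)) (c : Fin (m + 1) → ℝ)
    (f0 : ZMod N → ℂ) (hf0 : ∀ x, ‖f0 x‖ ≤ 1) (f : Fin (m + 1) → ZMod N → ℂ)
    (hf : ∀ i x, ‖f i x‖ ≤ 1) (B X : ℝ) (hX : 0 < X) (hT : TV B X (f (Fin.last m)))
    (R : ℕ) (hR : 1 ≤ R) :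
    ‖form S c 1 f0 f - 𝔼 r, loc7 S c f0 f R r‖ ≤ R * B * (1 / X + 1 / N) := by
  have hB := hT.nonneg
  have h1 : form S c 1 f0 f - 𝔼 r, loc7 S c f0 f R r =
      𝔼 k ∈ S.I, 𝔼 t ∈ range R, 𝔼 x : ZMod N, (f0 (x + (t : ZMod N)) *
        ∏ i : Fin m, f i.castSucc (x + (t : ZMod N) + (S.a c i.castSucc k : ZMod N))) *
        (f (Fin.last m) (x + (S.a c (Fin.last m) k : ZMod N) + ((t : ℤ) : ZMod N)) -
          f (Fin.last m) (x + (S.a c (Fin.last m) k : ZMod N))) := by
    unfold form loc7
    rw [expect_comm (s := univ), ← expect_sub_distrib]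
    refine expect_congr rfl fun k _ => ?_
    have e1 : (1 : ℕ → ℂ) k * 𝔼 x : ZMod N, f0 x * ∏ i, f i (x + (S.a c i k : ZMod N)) =
        𝔼 t ∈ range R, 𝔼 x : ZMod N, f0 (x + (t : ZMod N)) *
          ∏ i, f i (x + (t : ZMod N) + (S.a c i k : ZMod N)) := by
      rw [Pi.one_apply, one_mul]
      have : ∀ t ∈ range R, 𝔼 x : ZMod N, f0 (x + (t : ZMod N)) *
          ∏ i, f i (x + (t : ZMod N) + (S.a c i k : ZMod N)) =
          𝔼 x : ZMod N, f0 x * ∏ i, f i (x + (S.a c i k : ZMod N)) := fun t _ =>
        expect_shift (fun x => f0 x * ∏ i, f i (x + (S.a c i k : ZMod N))) (t : ZMod N)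
      rw [expect_congr rfl this, expect_const (nonempty_range_iff.2 (by omega))]
    rw [e1]
    have e2 : ∀ x : ZMod N, f (Fin.last m) (x + (S.a c (Fin.last m) k : ZMod N)) *
        𝔼 t ∈ range R, f0 (x + (t : ZMod N)) *
          ∏ i : Fin m, f i.castSucc (x + (t : ZMod N) + (S.a c i.castSucc k : ZMod N)) =
        𝔼 t ∈ range R, f (Fin.last m) (x + (S.a c (Fin.last m) k : ZMod N)) *
          (f0 (x + (t : ZMod N)) *
          ∏ i : Fin m, f i.castSucc (x + (t : ZMod N) + (S.a c i.castSucc k : ZMod N))) :=
      fun x => mul_expect _ _ _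
    rw [expect_congr rfl fun x _ => e2 x, expect_comm (s := univ), ← expect_sub_distrib]
    refine expect_congr rfl fun t _ => ?_
    rw [← expect_sub_distrib]
    refine expect_congr rfl fun x _ => ?_
    rw [Fin.prod_univ_castSucc, Int.cast_natCast,
      show x + (S.a c (Fin.last m) k : ZMod N) + (t : ZMod N) =
        x + (t : ZMod N) + (S.a c (Fin.last m) k : ZMod N) by ring]
    ring
  rw [h1]
  refine norm_expect_le_of5 _ _ (by (clear * - hR hB hX; positivity)) fun k _ => ?_
  refine norm_expect_le_of5 _ _ (by (clear * - hR hB hX; positivity)) fun t ht => ?_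
  exact by
    refine (norm_expect_le5 _ _).trans ?_
    have h2 : ∀ x ∈ (univ : Finset (ZMod N)), ‖(f0 (x + (t : ZMod N)) *
          ∏ i : Fin m, f i.castSucc (x + (t : ZMod N) + (S.a c i.castSucc k : ZMod N))) *
          (f (Fin.last m) (x + (S.a c (Fin.last m) k : ZMod N) + ((t : ℤ) : ZMod N)) -
            f (Fin.last m) (x + (S.a c (Fin.last m) k : ZMod N)))‖ ≤
        (fun x => ‖f (Fin.last m) (x + ((t : ℤ) : ZMod N)) - f (Fin.last m) x‖)
          (x + (S.a c (Fin.last m) k : ZMod N)) := by
      intro x _
      rw [norm_mul]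
      have h3 : ‖f0 (x + (t : ZMod N)) *
          ∏ i : Fin m, f i.castSucc (x + (t : ZMod N) + (S.a c i.castSucc k : ZMod N))‖ ≤ 1 := by
        rw [norm_mul, norm_prod]
        refine mul_le_one₀ (hf0 _) (prod_nonneg fun _ _ => norm_nonneg _) ?_
        exact prod_le_one (fun _ _ => norm_nonneg _) fun i _ => hf _ _
      exact mul_le_of_le_one_left (norm_nonneg _) h3
    refine (expect_le_expect h2).trans ?_
    rw [expect_shift (fun x => ‖f (Fin.last m) (x + ((t : ℤ) : ZMod N)) - f (Fin.last m) x‖)
      (S.a c (Fin.last m) k : ZMod N)]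
    refine (hT.l1_shift hX (t : ℤ)).trans ?_
    have h3 : (t : ℝ) ≤ R := by exact_mod_cast (mem_range.1 ht).le
    rw [Int.cast_natCast, Nat.abs_cast, mul_assoc, mul_assoc]
    exact mul_le_mul_of_nonneg_right h3 (by (clear * - hB hX; positivity))

/-- One good base point. -/
theorem good_pt7 {m : ℕ} (c : Fin (m + 1) → ℝ) (x0' : ℝ) (C' : ℕ) (σ' D0' ε : ℝ)
    (H : ∀ (S : Sys m) (N : ℕ) [NeZero N], D0' ≤ S.D → Good S (fun i => c i.castSucc) N x0' →
      ∀ δ : ℝ, S.D ^ (-σ') ≤ δ → δ ≤ 1 / 2 →
      ∀ (h : ℕ → ℂ) (f0 : ZMod N → ℂ) (f : Fin m → ZMod N → ℂ),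
      (∀ k, ‖h k‖ ≤ 1) → Adm δ⁻¹ S.Q f0 → (∀ i, Adm δ⁻¹ S.Q (f i)) →
      δ ≤ ‖form S (fun i => c i.castSucc) h f0 f‖ →
      ∃ θ : Fin m → ℝ, (∀ i, |θ i| ≤ δ⁻¹ ^ C' / S.Q) ∧
        ∀ K : ℕ, 1 ≤ K → (K : ℝ) ≤ S.D ^ (1 - ε) →
          δ ^ C' ≤ 𝔼 k ∈ S.I, ‖𝔼 j ∈ range K, h (k + j) *
            e (∑ i, θ i * S.P i * (S.t (k + j)) ^ (c i.castSucc))‖)
    (S : Sys (m + 1)) (N : ℕ) [NeZero N] (hD0 : D0' ≤ S.D) (R : ℕ) (hR : 1 ≤ R)
    (hQ0 : 0 < (S.Q : ℝ)) (hQR : (S.Q : ℝ) ≤ 2 * R)
    (hG : Good S.init (fun i => c i.castSucc) (2 * R) x0')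
    (δ : ℝ) (hδp : 0 < δ) (hδ0 : S.D ^ (-σ') ≤ δ ^ 4) (hδ1 : δ ≤ 1 / 2)
    (f0 : ZMod N → ℂ) (f : Fin (m + 1) → ZMod N → ℂ) (hf0 : Adm δ⁻¹ S.Q f0)
    (hf : ∀ i, Adm δ⁻¹ S.Q (f i))
    (ha0 : ∀ i : Fin m, ∀ k ∈ S.I, 0 ≤ S.a c i.castSucc k)
    (ha1 : ∀ i : Fin m, ∀ k ∈ S.I, S.a c i.castSucc k ≤ (R : ℤ))
    (r : ZMod N) (hr : δ / 4 ≤ ‖loc7 S c f0 f R r‖) :
    ∃ θ : Fin m → ℝ, (∀ i, |θ i| ≤ δ⁻¹ ^ (4 * C') / S.Q) ∧
        ∀ K : ℕ, 1 ≤ K → (K : ℝ) ≤ S.D ^ (1 - ε) →
          δ ^ (4 * C') ≤ locCorr S c (f (Fin.last m)) (fun _ => θ) K r := by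
  have : NeZero (2 * R) := ⟨by omega⟩
  have hu : (2 : ℝ) ≤ δ⁻¹ := by
    rw [le_inv_comm₀ (by norm_num) hδp]
    (clear * - hδ1; linarith)
  have hu4 : 2 * (δ⁻¹ + 1) + 2 ≤ (δ ^ 4)⁻¹ := by
    rw [← inv_pow]
    have h2 : 4 ≤ δ⁻¹ ^ 2 := by (clear * - hu; nlinarith)
    have h3 : 4 * δ⁻¹ ^ 2 ≤ δ⁻¹ ^ 4 := by (clear * - h2; nlinarith)
    (clear * - h3 hδp hδ1 h2 hu; nlinarith)
  have hB0 : (0 : ℝ) ≤ δ⁻¹ := by (clear * - hδp hδ1 hu; linarith)
  -- the functions on the cyclic group
  have hAf : ∀ i : Fin m, Adm (δ ^ 4)⁻¹ S.Q
      (fun y : ZMod (2 * R) => f i.castSucc (r + (y.val : ZMod N))) := by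
    intro i
    have h1 := tv_transport7 (fun v => f i.castSucc (r + (v : ZMod N)))
      (fun v => (hf i.castSucc).bdd _) δ⁻¹ S.Q hB0 hQ0
      (fun a l => tv_nat7 (hf i.castSucc).tv r a l) (2 * R) (by push_cast; exact hQR)
    exact h1.mono (by (clear * - hδp hδ1 hu4; linarith)) hQ0 (le_refl _)
  have hAf0 : Adm (δ ^ 4)⁻¹ S.Q
      (fun y : ZMod (2 * R) => if y.val < R then f0 (r + (y.val : ZMod N)) else 0) := by
    have h1 := tv_transport7 (fun v => if v < R then f0 (r + (v : ZMod N)) else 0)
      (fun v => by
        by_cases hv : v < R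
        · simp only [if_pos hv]
          exact hf0.bdd _
        · simp only [if_neg hv, norm_zero]
          norm_num) (δ⁻¹ + 1) S.Q (by (clear * - hδp hδ1 hu; linarith)) hQ0
      (fun a l => tv_cut7 (fun v => f0 (r + (v : ZMod N))) (fun v => hf0.bdd _) δ⁻¹ S.Q hQ0
        (fun a l => tv_nat7 hf0.tv r a l) R a l) (2 * R) (by push_cast; exact hQR)
    exact h1.mono hu4 hQ0 (le_refl _)
  exact by
    have hform : form S.init (fun i => c i.castSucc)
        (fun k => f (Fin.last m) (r + (S.a c (Fin.last m) k : ZMod N)))
        (fun y : ZMod (2 * R) => if y.val < R then f0 (r + (y.val : ZMod N)) else 0)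
        (fun i y => f i.castSucc (r + (y.val : ZMod N))) = (1 / 2) * loc7 S c f0 f R r := by
      unfold form loc7
      rw [mul_expect]
      refine expect_congr rfl fun k hk => ?_
      have h1 := local7 R hR f0 (fun i : Fin m => f i.castSucc) r
        (fun i => S.a c i.castSucc k) (fun i => ha0 i k hk) (fun i => ha1 i k hk)
      have h2 : (𝔼 y : ZMod (2 * R), (if y.val < R then f0 (r + (y.val : ZMod N)) else 0) *
          ∏ i : Fin m, f i.castSucc (r + ((y + (S.init.a (fun i => c i.castSucc) i k :
            ZMod (2 * R))).val : ZMod N))) =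
          (1 / 2) * 𝔼 t ∈ range R, f0 (r + (t : ZMod N)) *
        ∏ i : Fin m, f i.castSucc (r + (t : ZMod N) + (S.a c i.castSucc k : ZMod N)) := h1
      rw [h2]
      ring
    have hδ4 : δ ^ 4 ≤ δ / 8 := by (clear * - hδ1 hδp; nlinarith [pow_pos hδp 3, pow_pos hδp 2])
    obtain ⟨θ, h1, h2⟩ := H S.init (2 * R) hD0 hG (δ ^ 4) hδ0 (by (clear * - hδp hδ1 hδ4; linarith)) 
      (fun k => f (Fin.last m) (r + (S.a c (Fin.last m) k : ZMod N)))
      (fun y : ZMod (2 * R) => if y.val < R then f0 (r + (y.val : ZMod N)) else 0)
      (fun i y => f i.castSucc (r + (y.val : ZMod N)))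
      (fun k => (hf (Fin.last m)).bdd _) hAf0 hAf (by
        rw [hform, norm_mul]
        have : ‖(1 / 2 : ℂ)‖ = 1 / 2 := by norm_num
        rw [this]
        (clear * - hr hδ4; linarith))
    refine ⟨θ, fun i => ?_, fun K hK1 hK2 => ?_⟩
    · refine (h1 i).trans (le_of_eq ?_)
      rw [← inv_pow, ← pow_mul]
      rfl
    · have h3 := h2 K hK1 hK2
      rw [← pow_mul] at h3
      exact h3

theorem base_cells (m : ℕ) (c : Fin (m + 1) → ℝ) (hc : StrictMono c) (hc0 : ∀ i, 0 < c i)
    (s : ℝ) (hs0 : 0 < s) (hs : s < c (Fin.last m)) (hs1 : ∀ i : Fin m, c i.castSucc < s)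
    (hD : ∀ ε : ℝ, 0 < ε → DP m (fun i => c i.castSucc) ε) : ∀ ε : ℝ, 0 < ε →
    ∃ x0 : ℝ, 0 < x0 ∧ ∃ C : ℕ, ∃ σ : ℝ, 0 < σ ∧ ∃ D0 : ℝ,
    ∀ (S : Sys (m + 1)) (N : ℕ) [NeZero N], D0 ≤ S.D → Good S c N x0 →
    ∀ δ : ℝ, S.D ^ (-σ) ≤ δ → δ ≤ 1 / 2 →
    ∀ X : ℝ, (S.Q : ℝ) ≤ X → S.Q * S.D ^ (s - σ) ≤ X →
    ∀ (f0 : ZMod N → ℂ) (f : Fin (m + 1) → ZMod N → ℂ),
    Adm δ⁻¹ S.Q f0 → (∀ i, Adm δ⁻¹ S.Q (f i)) → Adm δ⁻¹ X (f (Fin.last m)) →
    δ ≤ ‖form S c 1 f0 f‖ →
    ∃ θ : ZMod N → Fin m → ℝ, (∀ x i, |θ x i| ≤ δ⁻¹ ^ C / S.Q) ∧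
      ∀ K : ℕ, 1 ≤ K → (K : ℝ) ≤ S.D ^ (1 - ε) →
        δ ^ C ≤ 𝔼 x, locCorr S c (f (Fin.last m)) θ K x := by
  intro ε hε
  obtain ⟨x0', hx0', C', σ', hσ', D0', H⟩ := hD ε hε
  obtain ⟨κ1, hκ1, hκ1'⟩ := exists_gap7 (fun i : Fin m => s - c i.castSucc)
    (fun i => sub_pos.mpr (hs1 i))
  obtain ⟨κ, hκdef⟩ : ∃ κ, κ = min κ1 (min s (c (Fin.last m) - s)) := ⟨_, rfl⟩
  have hκ : 0 < κ := by
    rw [hκdef]
    exact lt_min hκ1 (lt_min hs0 (sub_pos.mpr hs))
  have hκi : ∀ i : Fin m, κ ≤ s - c i.castSucc := fun i => by
    refine le_trans ?_ (hκ1' i)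
    rw [hκdef]
    exact min_le_left _ _
  have hκs : κ ≤ s := by
    rw [hκdef]
    exact (min_le_right _ _).trans (min_le_left _ _)
  have hκc : κ ≤ c (Fin.last m) - s := by
    rw [hκdef]
    exact (min_le_right _ _).trans (min_le_right _ _)
  obtain ⟨M, hM⟩ : ∃ M : ℝ, M = 2 ^ (c (Fin.last m)) + 3 := ⟨_, rfl⟩
  have hM1 : 1 ≤ M := by
    have : (0 : ℝ) < 2 ^ c (Fin.last m) := Real.rpow_pos_of_pos (by norm_num) _
    rw [hM]
    linarith
  refine ⟨min x0' (κ / 8), lt_min hx0' (by (clear * - hκ; positivity)), 4 * C' + 3, min (σ' / 4) (κ / 40),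
    lt_min (by (clear * - hσ'; positivity)) (by (clear * - hκ; positivity)), max D0' (M ^ (2 / κ)), ?_⟩
  intro S N _ hD0 hG δ hδ0 hδ1 X hX1 hX2 f0 f hf0 hf hfm hform
  have hDM1 : M ^ (2 / κ) ≤ S.D := (le_max_right _ _).trans hD0
  exact by
    have hD1 : 1 ≤ S.D := (Real.one_le_rpow hM1 (by (clear * - hκ; positivity))).trans hDM1
    have hDp : 0 < S.D := by (clear * - hD1; linarith)
    have hDM : M ≤ S.D ^ (κ / 2) := by
      have h1 : (M ^ (2 / κ)) ^ (κ / 2) = M := by
        rw [← Real.rpow_mul (by (clear * - hM1; linarith)), show 2 / κ * (κ / 2) = 1 by field_simp, Real.rpow_one]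
      rw [← h1]
      exact Real.rpow_le_rpow (Real.rpow_nonneg (by (clear * - hM1; linarith)) _) hDM1 (by positivity)
    have hδp : 0 < δ := lt_of_lt_of_le (Real.rpow_pos_of_pos hDp _) hδ0
    obtain ⟨R, hRdef⟩ : ∃ R : ℕ, R = ⌊δ ^ 4 * min X (S.Q * S.D ^ s)⌋₊ := ⟨_, rfl⟩
    obtain ⟨hQp, hXp, hR1, hQR, herr, hP⟩ := sizes7 c hc hc0 s κ (min x0' (κ / 8))
      (min (σ' / 4) (κ / 40)) M hκ hκi hκs hκc (min_le_right _ _)
      (lt_min (by positivity) (by positivity)) (min_le_right _ _) hM S N hG hD1 hDM δ hδp hδ0 hδ1
      X hX2 R hRdef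
    -- the average of the local forms is large
    have hloc : δ / 2 ≤ 𝔼 r, ‖loc7 S c f0 f R r‖ := by
      have h1 := form_loc7 S c f0 hf0.bdd f (fun i x => (hf i).bdd x) δ⁻¹ X hXp hfm.tv R hR1
      have h2 : ‖form S c 1 f0 f‖ ≤ ‖form S c 1 f0 f - 𝔼 r, loc7 S c f0 f R r‖ +
          ‖𝔼 r, loc7 S c f0 f R r‖ := by
        have := norm_add_le (form S c 1 f0 f - 𝔼 r, loc7 S c f0 f R r) (𝔼 r, loc7 S c f0 f R r)
        rwa [sub_add_cancel] at this
      have h3 := norm_expect_le5 univ (fun r : ZMod N => loc7 S c f0 f R r)
      (clear * - hform herr h1 h2 h3; linarith)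
    -- bounds for the sequences
    exact by
      have hab : ∀ i : Fin m, ∀ k ∈ S.I, 0 ≤ S.a c i.castSucc k ∧ S.a c i.castSucc k ≤ (R : ℤ) := by
        intro i k hk
        obtain ⟨h1, h2, h3⟩ := hP i
        have h4 := a_bound7 S c i.castSucc (hc0 _).le h1 hDp hG.ρ0 hG.ρ1 hG.u2 hk
        refine ⟨h4.1, ?_⟩
        exact_mod_cast h4.2.trans h2
      -- the smaller system is good
      have hG' : Good S.init (fun i => c i.castSucc) (2 * R) x0' := by
        have hx : min x0' (κ / 8) ≤ x0' := min_le_left _ _
        refine ⟨hG.ρ0, hG.ρ1, hG.Q1, hG.Q2, fun i => ?_, fun i => ?_, fun i => ?_, ?_, hG.u1, hG.u2,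
          ?_⟩
        · refine le_trans ?_ (hG.P1 i.castSucc)
          exact mul_le_mul_of_nonneg_left
            (Real.rpow_le_rpow_of_exponent_le hD1 (by (clear * - hx; linarith))) hQp.le
        · refine le_trans (hG.P2 i.castSucc) ?_
          exact mul_le_mul_of_nonneg_left
            (Real.rpow_le_rpow_of_exponent_le hD1 (by (clear * - hx; linarith))) hQp.le
        · obtain ⟨h1, h2, h3⟩ := hP i
          have h4 : (1 : ℝ) ≤ S.D ^ x0' := Real.one_le_rpow hD1 hx0'.le
          have h5 : (R : ℝ) ≤ ((2 * R : ℕ) : ℝ) * S.D ^ x0' := by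
            push_cast
            have h6 : (0 : ℝ) ≤ R := Nat.cast_nonneg _
            (clear * - hQp hQR h4; nlinarith)
          exact h3.trans h5
        · have h6 : (0 : ℝ) ≤ R := Nat.cast_nonneg _
          push_cast
          show (S.Q : ℝ) ≤ 2 * R
          (clear * - hQp hQR; linarith)
        · refine le_trans ?_ hG.T1
          exact Real.rpow_le_rpow_of_exponent_le hD1 (by (clear * - hx; linarith))
      have hδ4 : S.D ^ (-σ') ≤ δ ^ 4 := by
        have h1 : S.D ^ (-σ') ≤ (S.D ^ (-(min (σ' / 4) (κ / 40)))) ^ 4 := by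
          rw [← Real.rpow_natCast, ← Real.rpow_mul hDp.le]
          refine Real.rpow_le_rpow_of_exponent_le hD1 ?_
          have := min_le_left (σ' / 4) (κ / 40)
          push_cast
          (clear * - this; linarith)
        exact h1.trans (pow_le_pow_left₀ (Real.rpow_nonneg hDp.le _) hδ0 4)
      have hu : (1 : ℝ) ≤ δ⁻¹ := by
        rw [le_inv_comm₀ (by norm_num) hδp]
        (clear * - hδ1 hδp; linarith)
      -- the choice of the phases
      have key : ∀ r : ZMod N, ∃ θ : Fin m → ℝ, (∀ i, |θ i| ≤ δ⁻¹ ^ (4 * C' + 3) / S.Q) ∧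
          (δ / 4 ≤ ‖loc7 S c f0 f R r‖ → ∀ K : ℕ, 1 ≤ K → (K : ℝ) ≤ S.D ^ (1 - ε) →
            δ ^ (4 * C') ≤ locCorr S c (f (Fin.last m)) (fun _ => θ) K r) := by
        intro r
        by_cases hr : δ / 4 ≤ ‖loc7 S c f0 f R r‖
        · obtain ⟨θ, h1, h2⟩ := good_pt7 c x0' C' σ' D0' ε H S N ((le_max_left _ _).trans hD0) R hR1
            hQp (by (clear * - hQp hQR; linarith)) hG' δ hδp hδ4 hδ1 f0 f hf0 hf (fun i k hk => (hab i k hk).1)
            (fun i k hk => (hab i k hk).2) r hr
          refine ⟨θ, fun i => (h1 i).trans ?_, fun _ => h2⟩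
          exact div_le_div_of_nonneg_right (pow_le_pow_right₀ hu (by (clear * - s S δ X R; omega))) hQp.le
        · refine ⟨fun _ => 0, fun i => ?_, fun h => absurd h hr⟩
          rw [abs_zero]
          (clear * - hδp hQp; positivity)
      choose θ hθ1 hθ2 using key
      exact by
        refine ⟨θ, hθ1, fun K hK1 hK2 => ?_⟩
        have hpt : ∀ x ∈ (univ : Finset (ZMod N)), δ ^ (4 * C') * (‖loc7 S c f0 f R x‖ - δ / 4) ≤
            locCorr S c (f (Fin.last m)) θ K x := by
          intro x _
          have hl1 : ‖loc7 S c f0 f R x‖ ≤ 1 := by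
            refine norm_expect_le_of5 _ _ zero_le_one fun k _ => ?_
            rw [norm_mul]
            refine mul_le_one₀ ((hf _).bdd _) (norm_nonneg _) ?_
            refine norm_expect_le_of5 _ _ zero_le_one fun t _ => ?_
            rw [norm_mul, norm_prod]
            refine mul_le_one₀ (hf0.bdd _) (prod_nonneg fun _ _ => norm_nonneg _) ?_
            exact prod_le_one (fun _ _ => norm_nonneg _) fun i _ => (hf _).bdd _
          by_cases hr : δ / 4 ≤ ‖loc7 S c f0 f R x‖
          · have h1 := hθ2 x hr K hK1 hK2
            have h2 : locCorr S c (f (Fin.last m)) θ K x =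
              locCorr S c (f (Fin.last m)) (fun _ => θ x) K x := rfl
            rw [h2]
            refine le_trans ?_ h1
            exact mul_le_of_le_one_right (by positivity) (by (clear * - hδp hl1; linarith))
          · have h1 : 0 ≤ locCorr S c (f (Fin.last m)) θ K x :=
              expect_nonneg fun _ _ => norm_nonneg _
            push Not at hr
            refine le_trans ?_ h1
            exact mul_nonpos_of_nonneg_of_nonpos (by positivity) (by (clear * - hr; linarith))
        refine le_trans ?_ (expect_le_expect hpt)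
        rw [← mul_expect, expect_sub_distrib, expect_const (univ_nonempty)]
        have h1 : δ / 4 ≤ 𝔼 r, ‖loc7 S c f0 f R r‖ - δ / 4 := by (clear * - hloc; linarith)
        refine le_trans ?_ (mul_le_mul_of_nonneg_left h1 (by positivity))
        rw [pow_add]
        refine mul_le_mul_of_nonneg_left ?_ (by positivity)
        (clear * - hδ1 hδp; nlinarith [pow_pos hδp 2])

end

end Pool.Agent.Helper57.NX

end

section

set_option autoImplicit false

open Finset

open scoped BigOperators ComplexConjugate

namespace Pool.Agent.Helper67.NX2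

open Pool.Agent.Helper57.NX

noncomputable section

/-- One good base point. -/
theorem good_pt41 {m : ℕ} (c : Fin (m + 1) → ℝ) (x0' : ℝ) (C' : ℕ) (σ' D0' ε : ℝ)
    (H : ∀ (S : Sys m) (N : ℕ) [NeZero N] (lam : ℕ), D0' ≤ S.D →
      IG S (fun i => c i.castSucc) N x0' lam →
      ∀ δ : ℝ, S.D ^ (-σ') ≤ δ → δ ≤ 1 / 2 → (lam : ℝ) ≤ δ⁻¹ →
      ∀ (h : ℕ → ℂ) (f0 : ZMod N → ℂ) (f : Fin m → ZMod N → ℂ),
      (∀ k, ‖h k‖ ≤ 1) → Adm δ⁻¹ S.Q f0 → (∀ i, Adm δ⁻¹ S.Q (f i)) →
      δ ≤ ‖form S (fun i => c i.castSucc) h f0 f‖ →
      ∃ q : ℕ, 1 ≤ q ∧ (q : ℝ) ≤ δ⁻¹ ^ C' ∧ ∃ θ : Fin m → ℝ, (∀ i, |θ i| ≤ δ⁻¹ ^ C' / S.Q) ∧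
        ∀ K : ℕ, 1 ≤ K → (K : ℝ) ≤ S.D ^ (1 - ε) →
          δ ^ C' ≤ 𝔼 k ∈ S.I, ‖𝔼 j ∈ range K, h (k + q * j) *
            e (∑ i, θ i * S.P i * (S.t (k + q * j)) ^ (c i.castSucc))‖)
    (S : Sys (m + 1)) (N : ℕ) [NeZero N] (lam : ℕ) (hD0 : D0' ≤ S.D) (R n : ℕ) (hR : 1 ≤ R)
    (hn : 2 * R ≤ n) (hn8 : n ≤ 8 * R)
    (hQ0 : 0 < (S.Q : ℝ)) (hQR : (S.Q : ℝ) ≤ n)
    (hG : IG S.init (fun i => c i.castSucc) n x0' lam)
    (δ : ℝ) (hδp : 0 < δ) (hδ0 : S.D ^ (-σ') ≤ δ ^ 6) (hδ1 : δ ≤ 1 / 2) (hlam : (lam : ℝ) ≤ δ⁻¹)
    (f0 : ZMod N → ℂ) (f : Fin (m + 1) → ZMod N → ℂ) (hf0 : Adm δ⁻¹ S.Q f0)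
    (hf : ∀ i, Adm δ⁻¹ S.Q (f i))
    (ha0 : ∀ i : Fin m, ∀ k ∈ S.I, 0 ≤ S.a c i.castSucc k)
    (ha1 : ∀ i : Fin m, ∀ k ∈ S.I, S.a c i.castSucc k ≤ (R : ℤ))
    (r : ZMod N) (hr : δ / 4 ≤ ‖loc7 S c f0 f R r‖) :
    ∃ q : ℕ, 1 ≤ q ∧ (q : ℝ) ≤ δ⁻¹ ^ (6 * C') ∧
      ∃ θ : Fin m → ℝ, (∀ i, |θ i| ≤ δ⁻¹ ^ (6 * C') / S.Q) ∧
        ∀ K : ℕ, 1 ≤ K → (K : ℝ) ≤ S.D ^ (1 - ε) →
          δ ^ (6 * C') ≤ locCorrq S c q (f (Fin.last m)) (fun _ => θ) K r := by
  have : NeZero n := ⟨by omega⟩
  have hu : (2 : ℝ) ≤ δ⁻¹ := by
    rw [le_inv_comm₀ (by norm_num) hδp]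
    (clear * - hδ1; linarith)
  have hu4 : 2 * (δ⁻¹ + 1) + 2 ≤ (δ ^ 6)⁻¹ := by
    rw [← inv_pow]
    have h2 : 4 ≤ δ⁻¹ ^ 2 := by (clear * - hu hlam; nlinarith)
    have h3 : 4 * δ⁻¹ ^ 2 ≤ δ⁻¹ ^ 4 := by (clear * - h2; nlinarith)
    have h4 : δ⁻¹ ^ 4 ≤ δ⁻¹ ^ 6 := pow_le_pow_right₀ (by (clear * - hδp hδ1 hu; linarith)) (by norm_num)
    (clear * - h2 h3 h4 hδp hδ1 hlam hu; nlinarith)
  have hB0 : (0 : ℝ) ≤ δ⁻¹ := by (clear * - hδp hδ1 hu; linarith)
  -- the functions on the cyclic group
  have hAf : ∀ i : Fin m, Adm (δ ^ 6)⁻¹ S.Q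
      (fun y : ZMod n => f i.castSucc (r + (y.val : ZMod N))) := by
    intro i
    have h1 := tv_transport7 (fun v => f i.castSucc (r + (v : ZMod N)))
      (fun v => (hf i.castSucc).bdd _) δ⁻¹ S.Q hB0 hQ0
      (fun a l => tv_nat7 (hf i.castSucc).tv r a l) n hQR
    exact h1.mono (by (clear * - hδp hδ1 hu4; linarith)) hQ0 (le_refl _)
  have hAf0 : Adm (δ ^ 6)⁻¹ S.Q
      (fun y : ZMod n => if y.val < R then f0 (r + (y.val : ZMod N)) else 0) := by
    have h1 := tv_transport7 (fun v => if v < R then f0 (r + (v : ZMod N)) else 0)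
      (fun v => by
        by_cases hv : v < R
        · simp only [if_pos hv]
          exact hf0.bdd _
        · simp only [if_neg hv, norm_zero]
          norm_num) (δ⁻¹ + 1) S.Q (by (clear * - hδp hδ1 hu; linarith)) hQ0
      (fun a l => tv_cut7 (fun v => f0 (r + (v : ZMod N))) (fun v => hf0.bdd _) δ⁻¹ S.Q hQ0
        (fun a l => tv_nat7 hf0.tv r a l) R a l) n hQR
    exact h1.mono hu4 hQ0 (le_refl _)
  exact by
    have hform : form S.init (fun i => c i.castSucc)
        (fun k => f (Fin.last m) (r + (S.a c (Fin.last m) k : ZMod N)))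
        (fun y : ZMod n => if y.val < R then f0 (r + (y.val : ZMod N)) else 0)
        (fun i y => f i.castSucc (r + (y.val : ZMod N))) = ((R : ℂ) / n) * loc7 S c f0 f R r := by
      unfold form loc7
      rw [mul_expect]
      refine expect_congr rfl fun k hk => ?_
      have h1 := local41 R n hR hn f0 (fun i : Fin m => f i.castSucc) r
        (fun i => S.a c i.castSucc k) (fun i => ha0 i k hk) (fun i => ha1 i k hk)
      have h2 : (𝔼 y : ZMod n, (if y.val < R then f0 (r + (y.val : ZMod N)) else 0) *
          ∏ i : Fin m, f i.castSucc (r + ((y + (S.init.a (fun i => c i.castSucc) i k :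
            ZMod n)).val : ZMod N))) =
          ((R : ℂ) / n) * 𝔼 t ∈ range R, f0 (r + (t : ZMod N)) *
        ∏ i : Fin m, f i.castSucc (r + (t : ZMod N) + (S.a c i.castSucc k : ZMod N)) := h1
      rw [h2]
      ring
    have hδ6 : δ ^ 6 ≤ δ / 32 := by
      have h5 : δ ^ 5 ≤ (1 / 2) ^ 5 := pow_le_pow_left₀ hδp.le hδ1 5
      have h6 : δ ^ 6 = δ * δ ^ 5 := by ring
      (clear * - hδp h5; nlinarith)
    obtain ⟨q, hq1, hq2, θ, h1, h2⟩ := H S.init n lam hD0 hG (δ ^ 6) hδ0 (by (clear * - hδp hδ1 hδ6; linarith))
      (hlam.trans (by (clear * - hδp hδ1 hu hu4; linarith)))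
      (fun k => f (Fin.last m) (r + (S.a c (Fin.last m) k : ZMod N)))
      (fun y : ZMod n => if y.val < R then f0 (r + (y.val : ZMod N)) else 0)
      (fun i y => f i.castSucc (r + (y.val : ZMod N)))
      (fun k => (hf (Fin.last m)).bdd _) hAf0 hAf (by
        rw [hform, norm_mul]
        have h3 : (1 / 8 : ℝ) ≤ ‖(R : ℂ) / n‖ := by
          rw [norm_div, Complex.norm_natCast, Complex.norm_natCast]
          have hn0 : (0 : ℝ) < n := by
            have : 0 < n := by omega
            exact_mod_cast this
          rw [le_div_iff₀ hn0]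
          have : (n : ℝ) ≤ 8 * R := by exact_mod_cast hn8
          (clear * - this; linarith)
        have h4 : (1 / 8 : ℝ) * (δ / 4) ≤ ‖(R : ℂ) / n‖ * ‖loc7 S c f0 f R r‖ :=
          mul_le_mul h3 hr (by positivity) (norm_nonneg _)
        (clear * - hδ6 h4; linarith))
    refine ⟨q, hq1, ?_, θ, fun i => ?_, fun K hK1 hK2 => ?_⟩
    · refine hq2.trans (le_of_eq ?_)
      rw [← inv_pow, ← pow_mul]
    · refine (h1 i).trans (le_of_eq ?_)
      rw [← inv_pow, ← pow_mul]
      rfl
    · have h3 := h2 K hK1 hK2
      rw [← pow_mul] at h3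
      exact h3

theorem base_cells' (m : ℕ) (c : Fin (m + 1) → ℝ) (hc : Ex c)
    (s : ℝ) (hs0 : 0 < s) (hs : s < c (Fin.last m)) (hs1 : ∀ i : Fin m, c i.castSucc < s)
    (hD : ∀ ε : ℝ, 0 < ε → DPm m (fun i => c i.castSucc) ε) : ∀ ε : ℝ, 0 < ε →
    ∃ x0 : ℝ, 0 < x0 ∧ ∃ C : ℕ, ∃ σ : ℝ, 0 < σ ∧ ∃ D0 : ℝ,
    ∀ (S : Sys (m + 1)) (N : ℕ) [NeZero N] (lam : ℕ), D0 ≤ S.D → IG S c N x0 lam →
    ∀ δ : ℝ, S.D ^ (-σ) ≤ δ → δ ≤ 1 / 2 → (lam : ℝ) ≤ δ⁻¹ →
    ∀ X : ℝ, (S.Q : ℝ) ≤ X → S.Q * S.D ^ (s - σ) ≤ X →
    ∀ (f0 : ZMod N → ℂ) (f : Fin (m + 1) → ZMod N → ℂ),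
    Adm δ⁻¹ S.Q f0 → (∀ i, Adm δ⁻¹ S.Q (f i)) → Adm δ⁻¹ X (f (Fin.last m)) →
    δ ≤ ‖form S c 1 f0 f‖ →
    ∃ q : ℕ, 1 ≤ q ∧ (q : ℝ) ≤ δ⁻¹ ^ C ∧
    ∃ (θ : ZMod N → Fin m → ℝ) (E : Finset (ZMod N)), (∀ x i, |θ x i| ≤ δ⁻¹ ^ C / S.Q) ∧
      ∀ K : ℕ, 1 ≤ K → (K : ℝ) ≤ S.D ^ (1 - ε) →
        δ ^ C ≤ 𝔼 x, (if x ∈ E then locCorrq S c q (f (Fin.last m)) θ K x else 0) := by
  classical
  intro ε hε
  have hc0 : ∀ i, 0 < c i := fun i => by (clear * - hc; linarith [hc.two i])
  have hcm : StrictMono c := fun i j hij => by (clear * - hc hij; linarith [hc.gap i j hij])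
  obtain ⟨x0', hx0', C', σ', hσ', D0', H⟩ := hD ε hε
  obtain ⟨κ1, hκ1, hκ1'⟩ := exists_gap7 (fun i : Fin m => s - c i.castSucc)
    (fun i => sub_pos.mpr (hs1 i))
  obtain ⟨κ, hκdef⟩ : ∃ κ, κ = min κ1 (min s (c (Fin.last m) - s)) := ⟨_, rfl⟩
  have hκ : 0 < κ := by
    rw [hκdef]
    exact lt_min hκ1 (lt_min hs0 (sub_pos.mpr hs))
  have hκi : ∀ i : Fin m, κ ≤ s - c i.castSucc := fun i => by
    refine le_trans ?_ (hκ1' i)
    rw [hκdef]
    exact min_le_left _ _
  have hκs : κ ≤ s := by
    rw [hκdef]
    exact (min_le_right _ _).trans (min_le_left _ _)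
  have hκc : κ ≤ c (Fin.last m) - s := by
    rw [hκdef]
    exact (min_le_right _ _).trans (min_le_right _ _)
  exact by
    obtain ⟨M, hM⟩ : ∃ M : ℝ, M = 2 ^ (c (Fin.last m)) + 3 := ⟨_, rfl⟩
    have hM1 : 1 ≤ M := by
      have : (0 : ℝ) < 2 ^ c (Fin.last m) := Real.rpow_pos_of_pos (by norm_num) _
      rw [hM]
      (clear * - this; linarith)
    refine ⟨min x0' (κ / 8), lt_min hx0' (by (clear * - hκ; positivity)), 12 * C' + 4, min (σ' / 6) (κ / 40),
      lt_min (by positivity) (by positivity), max D0' (M ^ (2 / κ)), ?_⟩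
    intro S N _ lam hD0 hIG δ hδ0 hδ1 hlam X hX1 hX2 f0 f hf0 hf hfm hform
    have hG := hIG.good
    have hDM1 : M ^ (2 / κ) ≤ S.D := (le_max_right _ _).trans hD0
    have hD1 : 1 ≤ S.D := (Real.one_le_rpow hM1 (by positivity)).trans hDM1
    have hDp : 0 < S.D := by (clear * - hD1; linarith)
    have hDM : M ≤ S.D ^ (κ / 2) := by
      have h1 : (M ^ (2 / κ)) ^ (κ / 2) = M := by
        rw [← Real.rpow_mul (by (clear * - hM1; linarith)), show 2 / κ * (κ / 2) = 1 by field_simp, Real.rpow_one]
      rw [← h1]
      exact Real.rpow_le_rpow (Real.rpow_nonneg (by (clear * - hM1; linarith)) _) hDM1 (by (clear * - hκ; positivity))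
    exact by
      have hδp : 0 < δ := lt_of_lt_of_le (Real.rpow_pos_of_pos hDp _) hδ0
      obtain ⟨R, hRdef⟩ : ∃ R : ℕ, R = ⌊δ ^ 4 * min X (S.Q * S.D ^ s)⌋₊ := ⟨_, rfl⟩
      obtain ⟨hQp, hXp, hR1, hQR, herr, hP⟩ := sizes7 c hcm hc0 s κ (min x0' (κ / 8))
        (min (σ' / 6) (κ / 40)) M hκ hκi hκs hκc (min_le_right _ _)
        (lt_min (by positivity) (by positivity)) (min_le_right _ _) hM S N hG hD1 hDM δ hδp hδ0 hδ1
        X hX2 R hRdef
      obtain ⟨p, hp, hpn, hp8⟩ := exists_mod41 S.Q R (by exact_mod_cast hQp) (by exact_mod_cast hQR)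
      obtain ⟨n, hndef⟩ : ∃ n : ℕ, n = S.Q * p := ⟨_, rfl⟩
      rw [← hndef] at hpn hp8
      have hRn : (R : ℝ) ≤ n := by
        have : R ≤ n := by omega
        exact_mod_cast this
      -- the average of the local forms is large
      have hloc : δ / 2 ≤ 𝔼 r, ‖loc7 S c f0 f R r‖ := by
        have h1 := form_loc7 S c f0 hf0.bdd f (fun i x => (hf i).bdd x) δ⁻¹ X hXp hfm.tv R hR1
        have h2 : ‖form S c 1 f0 f‖ ≤ ‖form S c 1 f0 f - 𝔼 r, loc7 S c f0 f R r‖ +
            ‖𝔼 r, loc7 S c f0 f R r‖ := by
          have := norm_add_le (form S c 1 f0 f - 𝔼 r, loc7 S c f0 f R r) (𝔼 r, loc7 S c f0 f R r)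
          rwa [sub_add_cancel] at this
        have h3 := norm_expect_le5 univ (fun r : ZMod N => loc7 S c f0 f R r)
        (clear * - hform herr h1 h2 h3; linarith)
      -- bounds for the sequences
      have hab : ∀ i : Fin m, ∀ k ∈ S.I, 0 ≤ S.a c i.castSucc k ∧ S.a c i.castSucc k ≤ (R : ℤ) := by
        intro i k hk
        obtain ⟨h1, h2, h3⟩ := hP i
        have h4 := a_bound7 S c i.castSucc (hc0 _).le h1 hDp hG.ρ0 hG.ρ1 hG.u2 hk
        refine ⟨h4.1, ?_⟩
        exact_mod_cast h4.2.trans h2
      -- the smaller system is good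
      have hx : min x0' (κ / 8) ≤ x0' := min_le_left _ _
      exact by
        have hG' : Good S.init (fun i => c i.castSucc) n x0' := by
          refine ⟨hG.ρ0, hG.ρ1, hG.Q1, hG.Q2, fun i => ?_, fun i => ?_, fun i => ?_, ?_, hG.u1, hG.u2,
            ?_⟩
          · refine le_trans ?_ (hG.P1 i.castSucc)
            exact mul_le_mul_of_nonneg_left
              (Real.rpow_le_rpow_of_exponent_le hD1 (by (clear * - hx; linarith))) hQp.le
          · refine le_trans (hG.P2 i.castSucc) ?_
            exact mul_le_mul_of_nonneg_left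
              (Real.rpow_le_rpow_of_exponent_le hD1 (by (clear * - hx; linarith))) hQp.le
          · obtain ⟨h1, h2, h3⟩ := hP i
            have h4 : (1 : ℝ) ≤ S.D ^ x0' := Real.one_le_rpow hD1 hx0'.le
            have h5 : (R : ℝ) ≤ (n : ℝ) * S.D ^ x0' := by
              have h6 : (0 : ℝ) ≤ n := Nat.cast_nonneg _
              (clear * - hRn h4; nlinarith)
            exact h3.trans h5
          · show (S.Q : ℝ) ≤ n
            (clear * - hQR hRn; linarith)
          · refine le_trans ?_ hG.T1
            exact Real.rpow_le_rpow_of_exponent_le hD1 (by (clear * - hx; linarith))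
        have hIG' : IG S.init (fun i => c i.castSucc) n x0' lam :=
          ⟨hG', hIG.Q3.trans (Real.rpow_le_rpow_of_exponent_le hD1 (by (clear * - hx; linarith))), hIG.lam1, hIG.rho,
            fun i d hd => hIG.Pint i.castSucc d hd, ⟨p, hp, hndef⟩⟩
        have hδ6 : S.D ^ (-σ') ≤ δ ^ 6 := by
          have h1 : S.D ^ (-σ') ≤ (S.D ^ (-(min (σ' / 6) (κ / 40)))) ^ 6 := by
            rw [← Real.rpow_natCast, ← Real.rpow_mul hDp.le]
            refine Real.rpow_le_rpow_of_exponent_le hD1 ?_
            have := min_le_left (σ' / 6) (κ / 40)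
            push_cast
            (clear * - this; linarith)
          exact h1.trans (pow_le_pow_left₀ (Real.rpow_nonneg hDp.le _) hδ0 6)
        have hu : (2 : ℝ) ≤ δ⁻¹ := by
          rw [le_inv_comm₀ (by norm_num) hδp]
          (clear * - hδ1; linarith)
        have hu1 : (1 : ℝ) ≤ δ⁻¹ := by (clear * - hδ1 hδp hu; linarith)
        -- the choice of the phases
        have key : ∀ r : ZMod N, ∃ q : ℕ, 1 ≤ q ∧ (q : ℝ) ≤ δ⁻¹ ^ (6 * C') ∧
            ∃ θ : Fin m → ℝ, (∀ i, |θ i| ≤ δ⁻¹ ^ (12 * C' + 4) / S.Q) ∧
            (δ / 4 ≤ ‖loc7 S c f0 f R r‖ → ∀ K : ℕ, 1 ≤ K → (K : ℝ) ≤ S.D ^ (1 - ε) →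
              δ ^ (6 * C') ≤ locCorrq S c q (f (Fin.last m)) (fun _ => θ) K r) := by
          intro r
          by_cases hr : δ / 4 ≤ ‖loc7 S c f0 f R r‖
          · obtain ⟨q, hq1, hq2, θ, h1, h2⟩ := good_pt41 c x0' C' σ' D0' ε H S N lam
              ((le_max_left _ _).trans hD0) R n hR1 hpn hp8
              hQp (by (clear * - hQR hRn; linarith)) hIG' δ hδp hδ6 hδ1 hlam f0 f hf0 hf (fun i k hk => (hab i k hk).1)
              (fun i k hk => (hab i k hk).2) r hr
            refine ⟨q, hq1, hq2, θ, fun i => (h1 i).trans ?_, fun _ => h2⟩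
            exact div_le_div_of_nonneg_right (pow_le_pow_right₀ hu1 (by omega)) hQp.le
          · refine ⟨1, le_rfl, ?_, fun _ => 0, fun i => ?_, fun h => absurd h hr⟩
            · rw [Nat.cast_one]
              exact one_le_pow₀ hu1
            · rw [abs_zero]
              (clear * - hδp hQp; positivity)
        exact by
          choose q hq1 hq2 θ hθ1 hθ2 using key
          -- the good points
          obtain ⟨G, hGdef⟩ : ∃ G : Finset (ZMod N),
              G = univ.filter fun x => δ / 4 ≤ ‖loc7 S c f0 f R x‖ := ⟨_, rfl⟩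
          have hGmem : ∀ x, x ∈ G ↔ δ / 4 ≤ ‖loc7 S c f0 f R x‖ := fun x => by
            rw [hGdef, mem_filter]
            simp
          have hl1 : ∀ x, ‖loc7 S c f0 f R x‖ ≤ 1 := by
            intro x
            refine norm_expect_le_of5 _ _ zero_le_one fun k _ => ?_
            rw [norm_mul]
            refine mul_le_one₀ ((hf _).bdd _) (norm_nonneg _) ?_
            refine norm_expect_le_of5 _ _ zero_le_one fun t _ => ?_
            rw [norm_mul, norm_prod]
            refine mul_le_one₀ (hf0.bdd _) (prod_nonneg fun _ _ => norm_nonneg _) ?_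
            exact prod_le_one (fun _ _ => norm_nonneg _) fun i _ => (hf _).bdd _
          have hGd : δ / 4 ≤ 𝔼 x : ZMod N, (if x ∈ G then (1 : ℝ) else 0) := by
            have h1 : 𝔼 x : ZMod N, (‖loc7 S c f0 f R x‖ - δ / 4) ≤
                𝔼 x : ZMod N, (if x ∈ G then (1 : ℝ) else 0) := by
              refine expect_le_expect fun x _ => ?_
              by_cases hx : x ∈ G
              · rw [if_pos hx]
                have := hl1 x
                (clear * - hδp this; linarith)
              · rw [if_neg hx]
                rw [hGmem] at hx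
                push Not at hx
                (clear * - hx; linarith)
            rw [expect_sub_distrib, expect_const univ_nonempty] at h1
            (clear * - hloc h1; linarith)
          exact by
            obtain ⟨W, hWdef⟩ : ∃ W : ℕ, W = ⌊δ⁻¹ ^ (6 * C')⌋₊ + 1 := ⟨_, rfl⟩
            have hWle : (W : ℝ) ≤ 2 * δ⁻¹ ^ (6 * C') := by
              rw [hWdef]
              push_cast
              have h1 := Nat.floor_le (show (0 : ℝ) ≤ δ⁻¹ ^ (6 * C') by positivity)
              have h2 : (1 : ℝ) ≤ δ⁻¹ ^ (6 * C') := one_le_pow₀ hu1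
              (clear * - h1 h2; linarith)
            have hqW : ∀ x ∈ G, q x ∈ range W := fun x _ => by
              rw [mem_range, hWdef]
              exact Nat.lt_succ_of_le (Nat.le_floor (hq2 x))
            obtain ⟨q0, hq0, hdens⟩ := pigeon41 G q W hqW (δ ^ (6 * C' + 4)) (by omega) (by
              refine le_trans ?_ hGd
              have h3 : δ ^ (6 * C' + 4) * W ≤ δ ^ (6 * C' + 4) * (2 * δ⁻¹ ^ (6 * C')) :=
                mul_le_mul_of_nonneg_left hWle (by positivity)
              have h4 : δ ^ (6 * C' + 4) * (2 * δ⁻¹ ^ (6 * C')) = 2 * δ ^ 4 := by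
                rw [pow_add]
                have h5 : δ ^ (6 * C') * δ⁻¹ ^ (6 * C') = 1 := by
                  rw [← mul_pow, mul_inv_cancel₀ hδp.ne', one_pow]
                calc δ ^ (6 * C') * δ ^ 4 * (2 * δ⁻¹ ^ (6 * C')) =
                    2 * δ ^ 4 * (δ ^ (6 * C') * δ⁻¹ ^ (6 * C')) := by ring
                  _ = _ := by rw [h5, mul_one]
              have h6 : δ ^ 3 ≤ (1 / 2) ^ 3 := pow_le_pow_left₀ hδp.le hδ1 3
              have h7 : δ ^ 4 = δ * δ ^ 3 := by ring
              (clear * - h3 h4 hδp h6; nlinarith))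
            -- the step
            have hex : ∃ x ∈ G, q x = q0 := by
              by_contra hno
              push Not at hno
              have h1 : 𝔼 x : ZMod N, (if x ∈ G ∧ q x = q0 then (1 : ℝ) else 0) = 0 := by
                rw [expect_congr rfl fun x _ => if_neg fun h => hno x h.1 h.2]
                simp
              rw [h1] at hdens
              have : 0 < δ ^ (6 * C' + 4) := by positivity
              (clear * - hdens this; linarith)
            obtain ⟨x1, hx1, hx1q⟩ := hex
            refine ⟨q0, ?_, ?_, θ, G.filter fun x => q x = q0, hθ1, fun K hK1 hK2 => ?_⟩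
            · rw [← hx1q]; exact hq1 x1
            · rw [← hx1q]
              exact (hq2 x1).trans (pow_le_pow_right₀ hu1 (by omega))
            exact by
              · have hpt : ∀ x ∈ (univ : Finset (ZMod N)),
                    δ ^ (6 * C') * (if x ∈ G ∧ q x = q0 then (1 : ℝ) else 0) ≤
                    (if x ∈ G.filter (fun x => q x = q0) then
                      locCorrq S c q0 (f (Fin.last m)) θ K x else 0) := by
                  intro x _
                  by_cases hxG : x ∈ G ∧ q x = q0
                  · rw [if_pos hxG, if_pos (mem_filter.2 hxG), mul_one]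
                    have h1 := hθ2 x ((hGmem x).1 hxG.1) K hK1 hK2
                    rw [hxG.2] at h1
                    exact h1
                  · rw [if_neg hxG, if_neg (fun h => hxG (mem_filter.1 h)), mul_zero]
                exact by
                  refine le_trans ?_ (expect_le_expect hpt)
                  rw [← mul_expect]
                  have h1 : δ ^ (12 * C' + 4) = δ ^ (6 * C') * δ ^ (6 * C' + 4) := by
                    rw [← pow_add]
                    congr 1
                    omega
                  rw [h1]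
                  exact mul_le_mul_of_nonneg_left hdens (by positivity)

end

end Pool.Agent.Helper67.NX2

end

section

set_option autoImplicit false

open Finset

open scoped BigOperators ComplexConjugate

namespace Pool.Agent.Helper67.NX2

open Pool.Agent.Helper57.NX

noncomputable section

theorem l1_two59 {N : ℕ} [NeZero N] {B X : ℝ} {f : ZMod N → ℂ} (h : TV B X f) (hX : 0 < X)
    (a b : ℤ) : 𝔼 x, ‖f (x + (a : ZMod N)) - f (x + (b : ZMod N))‖ ≤
      |(a : ℝ) - b| * (B * (1 / X + 1 / N)) := by
  have h1 := h.l1_shift hX (a - b)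
  rw [← expect_shift (fun x => ‖f (x + ((a - b : ℤ) : ZMod N)) - f x‖) (b : ZMod N)] at h1
  rw [mul_assoc] at h1
  push_cast at h1
  refine le_trans (le_of_eq (expect_congr rfl fun x _ => ?_)) h1
  congr 3
  ring

theorem base_ratl_of (hR : RatlStmt) (m : ℕ) (c : Fin (m + 1) → ℝ) (hc : Ex c) :
    ∃ eb : ℝ, 0 < eb ∧ ∀ (n : ℕ) (ε : ℝ), 0 < ε → ε ≤ eb →
    ∃ x0 : ℝ, 0 < x0 ∧ ∃ C : ℕ, ∃ σ : ℝ, 0 < σ ∧ ∃ D0 : ℝ,
    ∀ (S : Sys (m + 1)) (N : ℕ) [NeZero N] (lam : ℕ), D0 ≤ S.D → IG S c N x0 lam →
    ∀ δ : ℝ, S.D ^ (-σ) ≤ δ → δ ≤ 1 / 2 → (lam : ℝ) ≤ δ⁻¹ →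
    ∀ X : ℝ, S.Q * S.D ^ (c (Fin.last m) - 2 * eb) ≤ X →
    ∀ f : ZMod N → ℂ, Adm δ⁻¹ X f → ∀ q : ℕ, 1 ≤ q → (q : ℝ) ≤ δ⁻¹ ^ n →
    ∀ (θ : ZMod N → Fin m → ℝ) (E : Finset (ZMod N)), (∀ x i, |θ x i| ≤ δ⁻¹ ^ n / S.Q) →
    ∀ K : ℕ, S.D ^ (1 - ε) ≤ (K : ℝ) + 1 → (K : ℝ) ≤ S.D ^ (1 - ε) →
    δ ^ n ≤ 𝔼 x, (if x ∈ E then locCorrq S c q f θ K x else 0) →
    ∃ q2 : ℕ, 1 ≤ q2 ∧ (q2 : ℝ) ≤ δ⁻¹ ^ C ∧
    ∃ (θ2 : ZMod N → Fin m → ℝ) (E2 : Finset (ZMod N)),
      (∀ x ∈ E2, ∀ i, |θ2 x i * S.P i.castSucc| ≤ S.D ^ (1 / 4 : ℝ)) ∧
      ∀ K2 : ℕ, 1 ≤ K2 → (K2 : ℝ) ≤ S.D ^ (1 - 2 * ε) →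
        δ ^ C ≤ 𝔼 x, (if x ∈ E2 then locCorrq S c q2 f θ2 K2 x else 0) := by
  classical
  have hcm : StrictMono c := fun i j hij => by
    have := hc.gap i j hij
    linarith
  have hc0 : ∀ i, 0 < c i := fun i => by
    have := hc.two i
    (clear * - this; linarith)
  obtain ⟨xr, hxr, Cr, σr, hσr, Dr, HR⟩ := hR (fun i : Fin m => c i.castSucc)
    (hcm.comp (Fin.strictMono_castSucc)) (fun i => hc0 _) (c (Fin.last m) + 3) (1 / 16)
    (by norm_num)
  set y := min xr 1 with hy
  have hy0 : 0 < y := lt_min hxr one_pos
  have hy1 : y ≤ 1 := min_le_right _ _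
  have hyr : y ≤ xr := min_le_left _ _
  exact by
    refine ⟨y / 16, by (clear * - hxr; positivity), fun n ε hε hεy => ⟨ε / 2, by positivity, ?_⟩⟩
    set cl := c (Fin.last m) with hcl
    have hcl0 : 0 < cl := hc0 _
    exact by
      set L := Lc59 cl with hL
      have hL0 : 0 ≤ L := Lc59_nonneg _
      set C1 : ℕ := n + 1 + (n + 3) * Cr with hC1
      set B : ℕ := (n + 1) + (n + 3) * Cr + C1 with hB
      obtain ⟨σ, hσ0, hσ1, hσ2, hσ3, hσ4⟩ : ∃ σ : ℝ, 0 < σ ∧ σ * B ≤ ε / 4 ∧ σ * (n + 3) ≤ σr ∧
          σ * n ≤ y / 2 ∧ σ * cl ≤ 3 / 16 := by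
        refine ⟨min (ε / 4 / (B + 1)) (min (σr / (n + 3)) (min (y / 2 / (n + 1)) (3 / 16 / (cl + 1)))),
          by (clear * - hε hσr hxr hcl0; positivity), ?_, ?_, ?_, ?_⟩
        · have h1 : min (ε / 4 / (B + 1)) (min (σr / (n + 3)) (min (y / 2 / (n + 1))
              (3 / 16 / (cl + 1)))) ≤ ε / 4 / (B + 1) := min_le_left _ _
          have h2 := mul_le_mul_of_nonneg_right h1 (Nat.cast_nonneg (α := ℝ) B)
          refine h2.trans ?_
          rw [div_mul_eq_mul_div, div_le_iff₀ (by (clear * -; positivity))]
          exact mul_le_mul_of_nonneg_left (by (clear * - hy1 hε hεy; linarith)) (by positivity)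
        · have h1 : min (ε / 4 / (B + 1)) (min (σr / (n + 3)) (min (y / 2 / (n + 1))
              (3 / 16 / (cl + 1)))) ≤ σr / (n + 3) := (min_le_right _ _).trans (min_le_left _ _)
          have h2 := mul_le_mul_of_nonneg_right h1 (show (0 : ℝ) ≤ n + 3 by (clear * -; positivity))
          refine h2.trans (le_of_eq ?_)
          rw [div_mul_cancel₀]
          (clear * -; positivity)
        · have h1 : min (ε / 4 / (B + 1)) (min (σr / (n + 3)) (min (y / 2 / (n + 1))
              (3 / 16 / (cl + 1)))) ≤ y / 2 / (n + 1) :=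
            (min_le_right _ _).trans ((min_le_right _ _).trans (min_le_left _ _))
          have h2 := mul_le_mul_of_nonneg_right h1 (Nat.cast_nonneg (α := ℝ) n)
          refine h2.trans ?_
          rw [div_mul_eq_mul_div, div_le_iff₀ (by (clear * -; positivity))]
          exact mul_le_mul_of_nonneg_left (by (clear * - hy1 hε hεy; linarith)) (by positivity)
        · have h1 : min (ε / 4 / (B + 1)) (min (σr / (n + 3)) (min (y / 2 / (n + 1))
              (3 / 16 / (cl + 1)))) ≤ 3 / 16 / (cl + 1) :=
            (min_le_right _ _).trans ((min_le_right _ _).trans (min_le_right _ _))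
          have h2 := mul_le_mul_of_nonneg_right h1 hcl0.le
          refine h2.trans ?_
          rw [div_mul_eq_mul_div, div_le_iff₀ (by positivity)]
          exact mul_le_mul_of_nonneg_left (by (clear * - hy1 hε hεy; linarith)) (by positivity)
      have hev : ∀ᶠ D : ℝ in Filter.atTop, Dr ≤ D ∧ 1 ≤ D ∧ 16 * (8 + 2 * L) ≤ D ^ (ε / 4) ∧
          2 ≤ D ^ (1 - ε) ∧ 2 ≤ D ^ (y / 2) := by
        filter_upwards [Filter.eventually_ge_atTop Dr, Filter.eventually_ge_atTop (1 : ℝ),
          ev59 (16 * (8 + 2 * L)) (ε / 4) (by positivity), ev59 2 (1 - ε) (by (clear * - hy1 hε hεy; linarith)),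
          ev59 2 (y / 2) (by positivity)] with D h1 h2 h3 h4 h5
        exact ⟨h1, h2, h3, h4, h5⟩
      obtain ⟨D0, hD0⟩ := Filter.eventually_atTop.1 hev
      refine ⟨C1 + 1, σ, hσ0, D0, ?_⟩
      intro S N _ lam hD hIG δ hδ1 hδ2 hlam X hX f hf q hq1 hq2 θ E hθ K hK1 hK2 hmain
      obtain ⟨hDr, hD1, e1, e2, e3⟩ := hD0 S.D hD
      have hDp : 0 < S.D := by (clear * - hy1 hε hεy hD1; linarith)
      exact by
        have hG := hIG.good
        have hQ0 : 0 < (S.Q : ℝ) := lt_of_lt_of_le (Real.rpow_pos_of_pos hDp _) hG.Q1
        obtain ⟨hX0, hP0, hPW, hW⟩ := sizes59 (b := 2 * (y / 16)) (by positivity) hD1 hc0 hG hX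
        have hN : 0 < (N : ℝ) := by exact_mod_cast Nat.pos_of_ne_zero (NeZero.ne N)
        have hδ0 : 0 < δ := lt_of_lt_of_le (Real.rpow_pos_of_pos hDp _) hδ1
        have hδi1 : 1 ≤ δ⁻¹ := by rw [one_le_inv₀ hδ0]; (clear * - hy1 hε hεy hδ2; linarith)
        set G := S.D ^ σ with hGdef
        exact by
          have hG1 : 1 ≤ G := Real.one_le_rpow hD1 hσ0.le
          have hG0 : 0 < G := by (clear * - hy1 hε hεy hG1; linarith)
          have hδG : δ⁻¹ ≤ G := by
            rw [Real.rpow_neg hDp.le, ← hGdef] at hδ1
            rw [inv_le_comm₀ hδ0 hG0]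
            exact hδ1
          have hGδ : G⁻¹ ≤ δ := by
            rw [inv_le_comm₀ hG0 hδ0]; exact hδG
          have hGpow : ∀ b : ℕ, G ^ b = S.D ^ (σ * b) := by
            intro b
            rw [hGdef, ← Real.rpow_natCast, ← Real.rpow_mul hDp.le]
          have hDτ : 0 < S.D ^ (-(ε / 2)) := Real.rpow_pos_of_pos hDp _
          exact by
            have hδC0 : 0 < δ ^ C1 := pow_pos hδ0 _
            -- all errors are small
            have small : ∀ (A : ℝ) (b : ℕ), 0 ≤ A → A ≤ 8 + 2 * L → b + C1 ≤ B →
                A * S.D ^ (-(ε / 2)) * G ^ b ≤ δ ^ C1 / 16 := by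
              intro A b hA0 hA hb
              have h1 : (G⁻¹) ^ C1 ≤ δ ^ C1 := pow_le_pow_left₀ (inv_nonneg.2 hG0.le) hGδ _
              have h2 : G ^ (b + C1) ≤ S.D ^ (ε / 4) := by
                refine (pow_le_pow_right₀ hG1 hb).trans ?_
                rw [hGpow]
                exact Real.rpow_le_rpow_of_exponent_le hD1 hσ1
              have h3 : 16 * A * G ^ (b + C1) ≤ S.D ^ (ε / 2) := by
                have h4 : S.D ^ (ε / 2) = S.D ^ (ε / 4) * S.D ^ (ε / 4) := by
                  rw [← Real.rpow_add hDp]; congr 1; ring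
                rw [h4]
                exact mul_le_mul (by (clear * - e1 hA; linarith)) h2 (by positivity) (by positivity)
              have h5 : A * S.D ^ (-(ε / 2)) * G ^ b ≤ (G⁻¹) ^ C1 / 16 := by
                have h6 : A * S.D ^ (-(ε / 2)) * G ^ b = A * G ^ b / S.D ^ (ε / 2) := by
                  rw [Real.rpow_neg hDp.le]; ring
                have h7 : (G⁻¹) ^ C1 / 16 = 1 / (16 * G ^ C1) := by
                  rw [inv_pow]; field_simp
                rw [h6, h7, div_le_div_iff₀ (Real.rpow_pos_of_pos hDp _) (by positivity), one_mul]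
                refine le_trans (le_of_eq ?_) h3
                rw [pow_add]
                ring
              (clear * - h1 h5; linarith)
            -- sizes
            have hq' : (q : ℝ) ≤ G ^ n := hq2.trans (pow_le_pow_left₀ (by positivity) hδG _)
            have hq0 : (0 : ℝ) < q := by exact_mod_cast hq1
            set K1 := ⌊S.D ^ (1 - y / 2)⌋₊ with hK1d
            have hK1u : (K1 : ℝ) ≤ S.D ^ (1 - y / 2) := Nat.floor_le (Real.rpow_nonneg hDp.le _)
            exact by
              have h1y : 1 ≤ S.D ^ (1 - y) := Real.one_le_rpow hD1 (by (clear * - hy1; linarith))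
              have hK1l : S.D ^ (1 - y) ≤ K1 := by
                have h1 := Nat.lt_floor_add_one (S.D ^ (1 - y / 2))
                have h2 : S.D ^ (1 - y / 2) = S.D ^ (1 - y) * S.D ^ (y / 2) := by
                  rw [← Real.rpow_add hDp]; congr 1; ring
                have h3 : 2 * S.D ^ (1 - y) ≤ S.D ^ (1 - y / 2) := by
                  rw [h2, mul_comm (2 : ℝ)]
                  exact mul_le_mul_of_nonneg_left e3 (by (clear * - hy1 hε hεy h1y; linarith))
                (clear * - h1y h1 h3; linarith)
              have hK1one : 1 ≤ K1 := by exact_mod_cast h1y.trans hK1l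
              have hKhalf : S.D ^ (1 - ε) / 2 ≤ K := by (clear * - hK1 e2; linarith)
              have hK0 : 0 < (K : ℝ) := lt_of_lt_of_le (by positivity) hKhalf
              have hKone : 1 ≤ K := by exact_mod_cast hK0
              exact by
                have hT0 : 0 < (S.T : ℝ) := lt_of_lt_of_le (Real.rpow_pos_of_pos hDp _) hG.T1
                have hTne : (range S.T).Nonempty := nonempty_range_iff.2 (by
                  rintro h0; rw [h0] at hT0; simp at hT0)
                have hqK1 : (q : ℝ) * K1 ≤ S.D := by
                  calc (q : ℝ) * K1 ≤ G ^ n * S.D ^ (1 - y / 2) := mul_le_mul hq' hK1u (by (clear * - hK1one; positivity)) (by positivity)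
                    _ = S.D ^ (σ * n + (1 - y / 2)) := by rw [hGpow, ← Real.rpow_add hDp]
                    _ ≤ S.D ^ (1 : ℝ) := Real.rpow_le_rpow_of_exponent_le hD1 (by (clear * - hσ3; linarith))
                    _ = S.D := Real.rpow_one _
                have hKinv : ∀ a : ℝ, S.D ^ a / K ≤ 2 * S.D ^ (a - (1 - ε)) := by
                  intro a
                  rw [div_le_iff₀ hK0]
                  calc S.D ^ a = 2 * S.D ^ (a - (1 - ε)) * (S.D ^ (1 - ε) / 2) := by
                        rw [Real.rpow_sub hDp]
                        have := (Real.rpow_pos_of_pos hDp (1 - ε)).ne'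
                        (clear * - this hD1; field_simp)
                    _ ≤ _ := mul_le_mul_of_nonneg_left hKhalf (by positivity)
                have hqKT : (q : ℝ) * K / S.T ≤ S.D ^ (-(ε / 2)) * G ^ n := by
                  rw [div_le_iff₀ hT0]
                  calc (q : ℝ) * K ≤ G ^ n * S.D ^ (1 - ε) := mul_le_mul hq' hK2 (by positivity) (by positivity)
                    _ = S.D ^ (-(ε / 2)) * G ^ n * S.D ^ (1 - ε / 2) := by
                        rw [mul_comm (S.D ^ (-(ε / 2))) (G ^ n), mul_assoc, ← Real.rpow_add hDp]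
                        congr 2
                        ring
                    _ ≤ _ := mul_le_mul_of_nonneg_left hG.T1 (by positivity)
                -- the first error
                have err1 : 2 * (((1 : ℕ) : ℝ) * K1) / K + 2 * ((q : ℝ) * K) / S.T ≤
                    4 * S.D ^ (-(ε / 2)) + 2 * S.D ^ (-(ε / 2)) * G ^ n := by
                  have h1 : 2 * (((1 : ℕ) : ℝ) * K1) / K ≤ 4 * S.D ^ (-(ε / 2)) := by
                    calc 2 * (((1 : ℕ) : ℝ) * K1) / K ≤ 2 * (S.D ^ (1 - y / 2) / K) := by
                          rw [Nat.cast_one, one_mul, mul_div_assoc]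
                          exact mul_le_mul_of_nonneg_left (div_le_div_of_nonneg_right hK1u hK0.le) (by norm_num)
                      _ ≤ 2 * (2 * S.D ^ (1 - y / 2 - (1 - ε))) :=
                          mul_le_mul_of_nonneg_left (hKinv _) (by norm_num)
                      _ = 4 * S.D ^ (ε - y / 2) := by
                          have : 1 - y / 2 - (1 - ε) = ε - y / 2 := by ring
                          rw [this]; ring
                      _ ≤ 4 * S.D ^ (-(ε / 2)) := mul_le_mul_of_nonneg_left
                          (Real.rpow_le_rpow_of_exponent_le hD1 (by (clear * - hε hεy; linarith))) (by norm_num)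
                  have h2 : 2 * ((q : ℝ) * K) / S.T ≤ 2 * S.D ^ (-(ε / 2)) * G ^ n := by
                    rw [mul_div_assoc, mul_assoc]
                    exact mul_le_mul_of_nonneg_left hqKT (by norm_num)
                  (clear * - h1 h2; linarith)
                exact by
                  set δr := δ ^ (n + 3) with hδr
                  have hδr0 : 0 < δr := pow_pos hδ0 _
                  have hδr8 : δr ≤ δ ^ n / 8 := by
                    rw [hδr, pow_add]
                    have : δ ^ 3 ≤ 1 / 8 := by
                      calc δ ^ 3 ≤ (1 / 2) ^ 3 := pow_le_pow_left₀ hδ0.le hδ2 3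
                        _ = 1 / 8 := by norm_num
                    have h9 := mul_le_mul_of_nonneg_left this (pow_pos hδ0 n).le
                    (clear * - h9; linarith)
                  set V : ZMod N → ℕ → ℝ := fun x k => ‖𝔼 l ∈ range K1, e (ph59 S c (θ x) (k + q * l))‖ with hV
                  set E1 := E.filter (fun x => ∃ i ∈ range S.T, δr ≤ V x (S.u + i)) with hE1
                  set W : ZMod N → ℕ → ℝ := fun x k => 𝔼 l ∈ range K1,
                    ‖f (x + (S.a c (Fin.last m) (k + q * l) : ZMod N)) - f (x + (S.a c (Fin.last m) k : ZMod N))‖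
                    with hWd
                  exact by
                    have hW0 : ∀ x k, 0 ≤ W x k := fun x k => expect_nonneg fun l _ => norm_nonneg _
                    set err := 2 * (((1 : ℕ) : ℝ) * K1) / K + 2 * ((q : ℝ) * K) / S.T with herr
                    have herr0 : 0 ≤ err := by (clear * - hK1one hKone hq1 hT0; positivity)
                    have hLnn : ∀ x, 0 ≤ locCorrq S c q f θ K x := fun x => expect_nonneg fun _ _ => norm_nonneg _
                    have key : ∀ x : ZMod N, (if x ∈ E then locCorrq S c q f θ K x else 0) ≤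
                        (if x ∈ E1 then locCorrq S c q f θ K x else 0) +
                          ((δr + err) + 𝔼 i ∈ range S.T, W x (S.u + i)) := by
                      intro x
                      have hnn : 0 ≤ 𝔼 i ∈ range S.T, W x (S.u + i) := expect_nonneg fun i _ => hW0 _ _
                      by_cases hx : x ∈ E
                      · by_cases hx1 : x ∈ E1
                        · rw [if_pos hx, if_pos hx1]
                          (clear * - hδr0 herr0 hnn; linarith)
                        exact by
                          · rw [if_pos hx, if_neg hx1, zero_add]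
                            exact by
                              have h1 : ∀ i ∈ range S.T, V x (S.u + i) < δr := by
                                intro i hi
                                by_contra h2
                                rw [not_lt] at h2
                                exact hx1 (mem_filter.2 ⟨hx, i, hi, h2⟩)
                              have h2 := locCorrq_le59 (S := S) (c := c) f hf.bdd θ q 1 K K1 hKone hK1one x
                              rw [mul_one] at h2
                              refine h2.trans ?_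
                              rw [locCorrq_eq59]
                              have h3 : 𝔼 i ∈ range S.T, ‖𝔼 l ∈ range K1,
                                  (f (x + (S.a c (Fin.last m) (S.u + i + q * l) : ZMod N)) *
                                    e (ph59 S c (θ x) (S.u + i + q * l)))‖ ≤
                                  𝔼 i ∈ range S.T, (δr + W x (S.u + i)) := by
                                refine expect_le_expect fun i hi => ?_
                                refine (win_large59 f hf.bdd (θ x) q K1 (S.u + i) x).trans (add_le_add ?_ le_rfl)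
                                exact (h1 i hi).le
                              rw [expect_add_distrib, expect_const hTne] at h3
                              (clear * - herr h3; linarith)
                      · rw [if_neg hx]
                        have hx1 : x ∉ E1 := fun h => hx (mem_filter.1 h).1
                        rw [if_neg hx1]
                        (clear * - hδ0 hK1one hKone hq1 hT0; positivity)
                    -- the average of W
                    have hWav : 𝔼 x : ZMod N, 𝔼 i ∈ range S.T, W x (S.u + i) ≤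
                        (2 * L + 2) * S.D ^ (-(ε / 2)) * G ^ (n + 1) := by
                      have hpos : 0 ≤ (2 * L + 2) * S.D ^ (-(ε / 2)) * G ^ (n + 1) := by (clear * - hL0 hD1; positivity)
                      rw [expect_comm]
                      refine expect_le_of5 _ _ hpos fun i hi => ?_
                      rw [hWd]
                      simp only
                      rw [expect_comm]
                      refine expect_le_of5 _ _ hpos fun l hl => ?_
                      have hiT : (i : ℝ) ≤ S.T := by exact_mod_cast (mem_range.1 hi).le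
                      have hlK : (l : ℝ) ≤ K1 := by exact_mod_cast (mem_range.1 hl).le
                      have hqlK : (q : ℝ) * l ≤ S.D := (mul_le_mul_of_nonneg_left hlK hq0.le).trans hqK1
                      refine (l1_two59 hf.tv hX0 _ _).trans ?_
                      have h5 := adiff59 (c := c) (Fin.last m) (k := S.u + i) (j := q * l) hD1 hG.ρ0 hG.ρ1 hP0.le
                        (by push_cast; have := hG.u1; have : (0 : ℝ) ≤ i := Nat.cast_nonneg _; linarith)
                        (by push_cast; have := hG.u2; (clear * - hiT hqlK this; linarith))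
                      have h6 : ((q * l : ℕ) : ℝ) / S.D ≤ G ^ n * S.D ^ (-(y / 2)) := by
                        rw [div_le_iff₀ hDp]
                        push_cast
                        calc (q : ℝ) * l ≤ G ^ n * S.D ^ (1 - y / 2) :=
                              mul_le_mul hq' (hlK.trans hK1u) (by (clear * -; positivity)) (by positivity)
                          _ = G ^ n * S.D ^ (-(y / 2)) * S.D := by
                              nth_rewrite 3 [← Real.rpow_one S.D]
                              rw [mul_assoc, ← Real.rpow_add hDp]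
                              congr 2
                              ring
                      have h7 : |(S.a c (Fin.last m) (S.u + i + q * l) : ℝ) - S.a c (Fin.last m) (S.u + i)| ≤
                          L * (S.P (Fin.last m) * (G ^ n * S.D ^ (-(y / 2)))) + 1 :=
                        h5.trans (by (clear * - h6 hP0 hL0; gcongr))
                      have hWn : 0 ≤ δ⁻¹ * (1 / X + 1 / N) := by (clear * - hδ0 hX0 hN; positivity)
                      have hWn' : 0 ≤ 1 / X + 1 / (N : ℝ) := by (clear * - hX0 hN; positivity)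
                      calc |(S.a c (Fin.last m) (S.u + i + q * l) : ℝ) - S.a c (Fin.last m) (S.u + i)| *
                            (δ⁻¹ * (1 / X + 1 / N))
                          ≤ (L * (S.P (Fin.last m) * (G ^ n * S.D ^ (-(y / 2)))) + 1) * (δ⁻¹ * (1 / X + 1 / N)) :=
                            mul_le_mul_of_nonneg_right h7 hWn
                        _ ≤ (L * (S.P (Fin.last m) * (G ^ n * S.D ^ (-(y / 2)))) + 1) * (G * (1 / X + 1 / N)) := by
                            (clear * - hδG hX0 hN hL0 hP0 hD1; gcongr)
                        _ = L * (G ^ (n + 1) * S.D ^ (-(y / 2))) * (S.P (Fin.last m) * (1 / X + 1 / N))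
                            + G * (1 / X + 1 / N) := by rw [pow_succ]; ring
                        _ ≤ L * (G ^ (n + 1) * S.D ^ (-(y / 2))) * (2 * S.D ^ (ε / 2 + 2 * (y / 16)))
                            + G * (2 * S.D ^ (2 * (y / 16) - 2)) := by (clear * - hPW hL0 hD1 hW; gcongr)
                        _ ≤ L * G ^ (n + 1) * (2 * S.D ^ (-(ε / 2))) + G ^ (n + 1) * (2 * S.D ^ (-(ε / 2))) := by
                            refine add_le_add ?_ ?_
                            · have h8 : L * (G ^ (n + 1) * S.D ^ (-(y / 2))) * (2 * S.D ^ (ε / 2 + 2 * (y / 16))) =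
                                  L * G ^ (n + 1) * (2 * S.D ^ (-(y / 2) + (ε / 2 + 2 * (y / 16)))) := by
                                rw [Real.rpow_add hDp (-(y / 2))]; ring
                              rw [h8]
                              refine mul_le_mul_of_nonneg_left (mul_le_mul_of_nonneg_left
                                (Real.rpow_le_rpow_of_exponent_le hD1 (by (clear * - hε hεy; linarith))) (by norm_num)) (by (clear * - hL0 hD1; positivity))
                            · have h9 : G ≤ G ^ (n + 1) := le_self_pow₀ hG1 (by (clear * - xr Cr S q K; omega))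
                              refine mul_le_mul h9 (mul_le_mul_of_nonneg_left
                                (Real.rpow_le_rpow_of_exponent_le hD1 (by (clear * - hy1 hε hεy; linarith))) (by norm_num)) (by positivity)
                                (by positivity)
                        _ = (2 * L + 2) * S.D ^ (-(ε / 2)) * G ^ (n + 1) := by ring
                    -- the contribution of E1
                    have hδnC : δ ^ C1 ≤ δ ^ n := pow_le_pow_of_le_one hδ0.le (by (clear * - hy1 hε hεy hδ2; linarith)) (by omega)
                    exact by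
                      have hGn : G ^ n ≤ G ^ (n + 1) := pow_le_pow_right₀ hG1 (by omega)
                      have hGn1 : 1 ≤ G ^ (n + 1) := one_le_pow₀ hG1
                      have hmain1 : δ ^ n / 2 ≤ 𝔼 x, (if x ∈ E1 then locCorrq S c q f θ K x else 0) := by
                        have h1 := expect_le_expect (s := univ) fun x _ => key x
                        rw [expect_add_distrib, expect_add_distrib, expect_const univ_nonempty] at h1
                        have h2 := small (8 + 2 * L) (n + 1) (by (clear * - hL0; positivity)) le_rfl (by omega)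
                        have h3 : err ≤ 6 * S.D ^ (-(ε / 2)) * G ^ (n + 1) := by
                          refine err1.trans ?_
                          have h4 : S.D ^ (-(ε / 2)) ≤ S.D ^ (-(ε / 2)) * G ^ (n + 1) :=
                            le_mul_of_one_le_right hDτ.le hGn1
                          have h5 : S.D ^ (-(ε / 2)) * G ^ n ≤ S.D ^ (-(ε / 2)) * G ^ (n + 1) :=
                            mul_le_mul_of_nonneg_left hGn hDτ.le
                          (clear * - h4 h5; linarith)
                        have h4 : (6 * S.D ^ (-(ε / 2)) * G ^ (n + 1)) + (2 * L + 2) * S.D ^ (-(ε / 2)) * G ^ (n + 1) =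
                            (8 + 2 * L) * S.D ^ (-(ε / 2)) * G ^ (n + 1) := by ring
                        (clear * - hmain hδr0 hδr8 hWav hδnC h1 h2 h3; linarith)
                      -- the denominators
                      have hlam1 := hIG.lam1
                      have hrat : ∀ x ∈ E1, (∀ i : Fin m, ¬ IsN (c i.castSucc) →
                            |θ x i * S.P i.castSucc| ≤ S.D ^ (1 / 16 : ℝ)) ∧
                          ∃ q' : ℕ, 1 ≤ q' ∧ (q' : ℝ) ≤ δr⁻¹ ^ Cr ∧ ∀ (i : Fin m) (d : ℕ), c i.castSucc = d →
                          dint (q' * ((θ x i * S.P i.castSucc) / (lam * S.D) ^ d)) ≤ S.D ^ ((1 / 16 : ℝ) - d) := by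
                        intro x hx
                        obtain ⟨-, i, hi, hVi⟩ := mem_filter.1 hx
                        have hiT : (i : ℝ) ≤ S.T := by exact_mod_cast (mem_range.1 hi).le
                        refine HR S.D hDr S.ρ hG.ρ0 hG.ρ1 lam hlam1 hIG.rho δr ?_ ?_ ?_
                          (fun i => θ x i * S.P i.castSucc) ?_ q (S.u + i) K1 hq1 ?_ ?_ ?_ ?_ hqK1 ?_
                        · calc S.D ^ (-σr) ≤ S.D ^ (-(σ * (n + 3))) :=
                                Real.rpow_le_rpow_of_exponent_le hD1 (by (clear * - hσ2; linarith))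
                            _ = (G⁻¹) ^ (n + 3) := by
                                rw [Real.rpow_neg hDp.le, inv_pow, hGpow]
                                push_cast
                                rfl
                            _ ≤ δr := pow_le_pow_left₀ (inv_nonneg.2 hG0.le) hGδ _
                        · have : δ ^ n ≤ 1 := pow_le_one₀ hδ0.le (by (clear * - hy1 hε hεy hδ2; linarith))
                          (clear * - hy1 hε hεy hδr8 this; linarith)
                        · rw [hδr, ← inv_pow]
                          exact by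
                            exact hlam.trans (le_self_pow₀ hδi1 (by (clear * - xr Cr S lam q K; omega)))
                        · intro j
                          exact by
                            have h1 := hθ x j
                            have h2 := hG.P2 j.castSucc
                            have hP : 0 < S.P j.castSucc :=
                              lt_of_lt_of_le (mul_pos hQ0 (Real.rpow_pos_of_pos hDp _)) (hG.P1 _)
                            rw [abs_mul, abs_of_pos hP]
                            have hcj : c j.castSucc ≤ cl := (hcm (Fin.castSucc_lt_last j)).le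
                            calc |θ x j| * S.P j.castSucc ≤ (δ⁻¹ ^ n / S.Q) * (S.Q * S.D ^ (c j.castSucc + ε / 2)) :=
                                  mul_le_mul h1 h2 hP.le (by (clear * - hδ0 hQ0; positivity))
                              _ = δ⁻¹ ^ n * S.D ^ (c j.castSucc + ε / 2) := by
                                  (clear * - hQ0 hD1 hδ0; field_simp)
                              _ ≤ G ^ n * S.D ^ (c j.castSucc + ε / 2) := by (clear * - hδ0 hδG hD1; gcongr)
                              _ = S.D ^ (σ * n + (c j.castSucc + ε / 2)) := by rw [hGpow, ← Real.rpow_add hDp]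
                              _ ≤ S.D ^ (cl + 3) := Real.rpow_le_rpow_of_exponent_le hD1 (by (clear * - hy1 hε hεy hσ3 hcj; linarith))
                        · rw [hδr, ← inv_pow]
                          exact by
                            exact hq2.trans (pow_le_pow_right₀ hδi1 (by omega))
                        · push_cast
                          exact by
                            have := hG.u1
                            have : (0 : ℝ) ≤ i := Nat.cast_nonneg _
                            linarith
                        · push_cast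
                          have := hG.u2
                          (clear * - hy1 hε hεy hD1 hiT this; linarith)
                        · exact (Real.rpow_le_rpow_of_exponent_le hD1 (by (clear * - hyr; linarith))).trans hK1l
                        · refine hVi.trans (le_of_eq ?_)
                          rw [hV]
                          simp only
                          congr 1
                      have hrat' : ∀ x, ∃ q' : ℕ, x ∈ E1 → (1 ≤ q' ∧ (q' : ℝ) ≤ δr⁻¹ ^ Cr ∧
                          ∀ (i : Fin m) (d : ℕ), c i.castSucc = d →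
                          dint (q' * ((θ x i * S.P i.castSucc) / (lam * S.D) ^ d)) ≤ S.D ^ ((1 / 16 : ℝ) - d)) := by
                        intro x
                        by_cases hx : x ∈ E1
                        · obtain ⟨q', h1, h2, h3⟩ := (hrat x hx).2
                          exact ⟨q', fun _ => ⟨h1, h2, h3⟩⟩
                        · exact ⟨0, fun h => absurd h hx⟩
                      exact by
                        choose qq hqq using hrat'
                        set M := ⌊δr⁻¹ ^ Cr⌋₊ with hM
                        have hMle : (M : ℝ) ≤ δr⁻¹ ^ Cr := Nat.floor_le (by positivity)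
                        -- pigeonhole
                        obtain ⟨p, hpmem, hp⟩ : ∃ p ∈ Icc 1 M, δ ^ C1 ≤
                            𝔼 x, (if x ∈ E1.filter (fun x => qq x = p) then locCorrq S c q f θ K x else 0) := by
                          by_contra hcon
                          push Not at hcon
                          have h1 : ∀ x : ZMod N, (if x ∈ E1 then locCorrq S c q f θ K x else 0) =
                              ∑ p ∈ Icc 1 M, (if x ∈ E1.filter (fun x => qq x = p) then
                                locCorrq S c q f θ K x else 0) := by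
                            intro x
                            by_cases hx : x ∈ E1
                            · obtain ⟨a1, a2, -⟩ := hqq x hx
                              have hmem : qq x ∈ Icc 1 M := mem_Icc.2 ⟨a1, Nat.le_floor a2⟩
                              rw [if_pos hx, Finset.sum_eq_single_of_mem (qq x) hmem]
                              · rw [if_pos (show x ∈ E1.filter (fun z => qq z = qq x) from mem_filter.2 ⟨hx, rfl⟩)]
                              · intro b _ hb
                                rw [if_neg]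
                                intro h
                                exact hb (mem_filter.1 h).2.symm
                            · rw [if_neg hx]
                              symm
                              refine Finset.sum_eq_zero fun b _ => ?_
                              rw [if_neg]
                              intro h
                              exact hx (mem_filter.1 h).1
                          have h2 : 𝔼 x, (if x ∈ E1 then locCorrq S c q f θ K x else 0) =
                              ∑ p ∈ Icc 1 M, 𝔼 x, (if x ∈ E1.filter (fun x => qq x = p) then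
                                locCorrq S c q f θ K x else 0) := by
                            rw [expect_congr rfl fun x _ => h1 x, expect_sum_comm]
                          have h3 : ∑ p ∈ Icc 1 M, 𝔼 x, (if x ∈ E1.filter (fun x => qq x = p) then
                                locCorrq S c q f θ K x else 0) ≤ M * δ ^ C1 := by
                            calc _ ≤ ∑ p ∈ Icc 1 M, δ ^ C1 := Finset.sum_le_sum fun p hp => (hcon p hp).le
                              _ = M * δ ^ C1 := by rw [Finset.sum_const, Nat.card_Icc, nsmul_eq_mul, Nat.add_sub_cancel]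
                          have h4 : (M : ℝ) * δ ^ C1 ≤ δ ^ (n + 1) := by
                            calc (M : ℝ) * δ ^ C1 ≤ δr⁻¹ ^ Cr * δ ^ C1 := by (clear * - hMle hδ0; gcongr)
                              _ = δ ^ (n + 1) := by
                                  rw [hC1, pow_add, hδr, ← inv_pow, ← pow_mul, inv_pow, mul_comm (δ ^ (n + 1)),
                                    ← mul_assoc, inv_mul_cancel₀ (pow_ne_zero _ hδ0.ne'), one_mul]
                          have h5 : δ ^ (n + 1) ≤ δ ^ n / 2 := by
                            rw [pow_succ]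
                            have h9 := mul_le_mul_of_nonneg_left hδ2 (pow_pos hδ0 n).le
                            (clear * - h9; linarith)
                          have hMpos : (Icc 1 M).Nonempty := by
                            rw [Finset.nonempty_iff_ne_empty]
                            intro h0
                            rw [h0, Finset.sum_empty] at h2
                            rw [h2] at hmain1
                            have := pow_pos hδ0 n
                            (clear * - hδr0 hδr8 hmain1; linarith)
                          have h6 : ∑ p ∈ Icc 1 M, 𝔼 x, (if x ∈ E1.filter (fun x => qq x = p) then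
                                locCorrq S c q f θ K x else 0) < M * δ ^ C1 := by
                            calc _ < ∑ p ∈ Icc 1 M, δ ^ C1 := Finset.sum_lt_sum_of_nonempty hMpos hcon
                              _ = M * δ ^ C1 := by rw [Finset.sum_const, Nat.card_Icc, nsmul_eq_mul, Nat.add_sub_cancel]
                          (clear * - hmain1 h2 h4 h5 h6; linarith)
                        obtain ⟨hp1, hpM⟩ := mem_Icc.1 hpmem
                        have hp0 : (0 : ℝ) < p := by exact_mod_cast hp1
                        have hpr : (p : ℝ) ≤ δr⁻¹ ^ Cr := le_trans (by exact_mod_cast hpM) hMle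
                        have hpδ : (p : ℝ) ≤ δ⁻¹ ^ ((n + 3) * Cr) := by
                          rw [pow_mul]
                          rwa [hδr, ← inv_pow] at hpr
                        have hpG : (p : ℝ) ≤ G ^ ((n + 3) * Cr) := hpδ.trans (pow_le_pow_left₀ (by (clear * - hδ0; positivity)) hδG _)
                        exact by
                          set E2 := E1.filter (fun x => qq x = p) with hE2
                          refine ⟨q * p, Nat.mul_pos hq1 hp1, ?_, fun x => th59 S c p (θ x), E2, ?_, ?_⟩
                          · push_cast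
                            exact by
                              calc (q : ℝ) * p ≤ δ⁻¹ ^ n * δ⁻¹ ^ ((n + 3) * Cr) :=
                                    mul_le_mul hq2 hpδ hp0.le (by (clear * - hδ0; positivity))
                                _ = δ⁻¹ ^ (n + (n + 3) * Cr) := by rw [pow_add]
                                _ ≤ _ := pow_le_pow_right₀ hδi1 (by (clear * - xr S lam δ q K p; omega))
                          · intro x hx i
                            exact by
                              obtain ⟨hx1, hxp⟩ := mem_filter.1 hx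
                              change |th59 S c p (θ x) i * S.P i.castSucc| ≤ _
                              have hP : 0 < S.P i.castSucc :=
                                lt_of_lt_of_le (mul_pos hQ0 (Real.rpow_pos_of_pos hDp _)) (hG.P1 _)
                              by_cases hNat : IsN (c i.castSucc)
                              · obtain ⟨d, hd⟩ := hNat
                                exact by
                                  obtain ⟨-, -, h3⟩ := hqq x hx1
                                  have h4 := h3 i d hd
                                  rw [hxp, hIG.Pint _ d hd] at h4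
                                  have hlD : (0 : ℝ) < (lam * S.D) ^ d := by
                                    have : (0 : ℝ) < lam := by exact_mod_cast hlam1
                                    (clear * - hlam1 hD1; positivity)
                                  have h5 : θ x i * (S.Q * (lam * S.D) ^ d) / (lam * S.D) ^ d = θ x i * S.Q := by
                                    rw [← mul_assoc, mul_div_cancel_right₀ _ hlD.ne']
                                  rw [h5] at h4
                                  unfold dint at h4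
                                  have h6 : th59 S c p (θ x) i = θ x i - (round (p * (θ x i * S.Q)) : ℝ) / p / S.Q := by
                                    unfold th59
                                    rw [if_pos ⟨d, hd⟩]
                                  rw [h6, hIG.Pint _ d hd]
                                  have h7 : (θ x i - (round (p * (θ x i * S.Q)) : ℝ) / p / S.Q) * (S.Q * (lam * S.D) ^ d) =
                                      (p * (θ x i * S.Q) - round (p * (θ x i * S.Q))) / p * (lam * S.D) ^ d := by
                                    (clear * - hQ0 hp1 hlam1 hD1; field_simp)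
                                  rw [h7, abs_mul, abs_div, abs_of_pos hp0, abs_of_pos hlD]
                                  have h8 : |p * (θ x i * S.Q) - round (p * (θ x i * S.Q))| / p ≤ S.D ^ ((1 / 16 : ℝ) - d) := by
                                    rw [div_le_iff₀ hp0]
                                    have : (1 : ℝ) ≤ p := by exact_mod_cast hp1
                                    exact h4.trans (le_mul_of_one_le_right (Real.rpow_nonneg hDp.le _) this)
                                  have hcj : c i.castSucc ≤ cl := (hcm (Fin.castSucc_lt_last i)).le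
                                  exact by
                                    calc |p * (θ x i * S.Q) - round (p * (θ x i * S.Q))| / p * (lam * S.D) ^ d
                                        ≤ S.D ^ ((1 / 16 : ℝ) - d) * (lam * S.D) ^ d := mul_le_mul_of_nonneg_right h8 hlD.le
                                      _ = S.D ^ (1 / 16 : ℝ) * (lam : ℝ) ^ d := by
                                          rw [mul_pow, Real.rpow_sub hDp, Real.rpow_natCast]
                                          have : S.D ^ d ≠ 0 := pow_ne_zero _ hDp.ne'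
                                          (clear * - this hlam1 hD1; field_simp)
                                      _ ≤ S.D ^ (1 / 16 : ℝ) * G ^ d := by
                                          have := hlam.trans hδG
                                          (clear * - hlam1 this hD1; gcongr)
                                      _ = S.D ^ (1 / 16 + σ * d) := by rw [hGpow, ← Real.rpow_add hDp]
                                      _ ≤ S.D ^ (1 / 4 : ℝ) := by
                                          refine Real.rpow_le_rpow_of_exponent_le hD1 ?_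
                                          have : σ * d ≤ σ * cl := mul_le_mul_of_nonneg_left (by rw [← hd]; exact hcj) hσ0.le
                                          (clear * - hσ4 this; linarith)
                              · have h6 : th59 S c p (θ x) i = θ x i := by
                                  unfold th59
                                  rw [if_neg hNat]
                                exact by
                                  rw [h6]
                                  exact ((hrat x hx1).1 i hNat).trans
                                    (Real.rpow_le_rpow_of_exponent_le hD1 (by norm_num))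
                          · intro K2 hK21 hK2u
                            exact by
                              have h1 : ∀ x, (if x ∈ E2 then locCorrq S c q f θ K x else 0) ≤
                                  (if x ∈ E2 then locCorrq S c (q * p) f (fun x => th59 S c p (θ x)) K2 x else 0) +
                                  (2 * (p * K2) / K + 2 * (q * K) / S.T) := by
                                intro x
                                by_cases hx : x ∈ E2
                                · rw [if_pos hx, if_pos hx, ← locCorrq_change59 hIG hDp hQ0 f θ q p K2 hp1 x]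
                                  exact locCorrq_le59 f hf.bdd θ q p K K2 hKone hK21 x
                                · rw [if_neg hx, if_neg hx]
                                  (clear * - hp1 hK21 hKone hq1 hT0; positivity)
                              have h2 := expect_le_expect (s := univ) fun x _ => h1 x
                              rw [expect_add_distrib, expect_const univ_nonempty] at h2
                              have h3 : 2 * ((p : ℝ) * K2) / K ≤ 4 * S.D ^ (-(ε / 2)) * G ^ ((n + 3) * Cr) := by
                                calc 2 * ((p : ℝ) * K2) / K = 2 * p * (K2 / K) := by ring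
                                  _ ≤ 2 * G ^ ((n + 3) * Cr) * (S.D ^ (1 - 2 * ε) / K) := by (clear * - hpG hK2u hKone hK21 hD1; gcongr)
                                  _ ≤ 2 * G ^ ((n + 3) * Cr) * (2 * S.D ^ (1 - 2 * ε - (1 - ε))) :=
                                      mul_le_mul_of_nonneg_left (hKinv _) (by (clear * - hD1; positivity))
                                  _ ≤ 2 * G ^ ((n + 3) * Cr) * (2 * S.D ^ (-(ε / 2))) := by
                                      refine mul_le_mul_of_nonneg_left (mul_le_mul_of_nonneg_left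
                                        (Real.rpow_le_rpow_of_exponent_le hD1 (by (clear * - hε; linarith))) (by norm_num)) (by positivity)
                                  _ = _ := by ring
                              have h4 : 2 * ((q : ℝ) * K) / S.T ≤ 2 * S.D ^ (-(ε / 2)) * G ^ n := by
                                rw [mul_div_assoc, mul_assoc]
                                exact mul_le_mul_of_nonneg_left hqKT (by norm_num)
                              have h5 := small 4 ((n + 3) * Cr) (by norm_num) (by (clear * - hy1 hε hεy hL0; linarith)) (by (clear * - xr S lam δ q K p K2; omega))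
                              have h6 := small 2 n (by norm_num) (by (clear * - hy1 hε hεy hL0; linarith)) (by omega)
                              have h7 : δ ^ (C1 + 1) ≤ δ ^ C1 / 2 := by
                                rw [pow_succ]
                                have h9 := mul_le_mul_of_nonneg_left hδ2 hδC0.le
                                (clear * - h9; linarith)
                              exact by
                                (clear * - hδC0 hp h2 h3 h4 h5 h6 h7; linarith)

end

end Pool.Agent.Helper67.NX2

end
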