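import Pool.Agent.Helper23.MC.L01_a1
import Pool.Agent.Helper23.MC.L01_a13
import Pool.Agent.Helper23.MC.L01_a3

/-!
Parts of Helper45.NX.Round, Helper57.FP.EnergyMain, Helper96.NX.TreeFixed
-/

attribute [local instance 5000]
  Pool.Agent.Helper23.MC.Inst.rCharZero Pool.Agent.Helper23.MC.Inst.rALM
  Pool.Agent.Helper23.MC.Inst.rARM Pool.Agent.Helper23.MC.Inst.rALSM
  Pool.Agent.Helper23.MC.Inst.rARSM Pool.Agent.Helper23.MC.Inst.rARRLE
  Pool.Agent.Helper23.MC.Inst.rALRLE Pool.Agent.Helper23.MC.Inst.rARRLT
  Pool.Agent.Helper23.MC.Inst.rALRLT Pool.Agent.Helper23.MC.Inst.rPMRLT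
  Pool.Agent.Helper23.MC.Inst.rMPRLT Pool.Agent.Helper23.MC.Inst.rPMM
  Pool.Agent.Helper23.MC.Inst.rMPM Pool.Agent.Helper23.MC.Inst.rPMSM
  Pool.Agent.Helper23.MC.Inst.rMPSM Pool.Agent.Helper23.MC.Inst.rEAOL
  Pool.Agent.Helper23.MC.Inst.rIOR Pool.Agent.Helper23.MC.Inst.rISOR
  Pool.Agent.Helper23.MC.Inst.rNZD Pool.Agent.Helper23.MC.Inst.rcCharZero
  Pool.Agent.Helper23.MC.Inst.rcNZD Pool.Agent.Helper23.MC.Inst.zCharZero
  Pool.Agent.Helper23.MC.Inst.zALM Pool.Agent.Helper23.MC.Inst.zARM
  Pool.Agent.Helper23.MC.Inst.zALSM Pool.Agent.Helper23.MC.Inst.zARSM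
  Pool.Agent.Helper23.MC.Inst.zIOR Pool.Agent.Helper23.MC.Inst.zISOR
  Pool.Agent.Helper23.MC.Inst.zNZD Pool.Agent.Helper23.MC.Inst.qCharZero
  Pool.Agent.Helper23.MC.Inst.mR Pool.Agent.Helper23.MC.Inst.mC Pool.Agent.Helper23.MC.Inst.mRC
  Pool.Agent.Helper23.MC.Inst.rPSM Pool.Agent.Helper23.MC.Inst.rCSM
  Pool.Agent.Helper23.MC.Inst.cAdd Pool.Agent.Helper23.MC.Inst.cAddM
  Pool.Agent.Helper23.MC.Inst.cMul Pool.Agent.Helper23.MC.Inst.cMon

section

set_option autoImplicit false

open Finset

open scoped BigOperators ComplexConjugate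

namespace Pool.Agent.Helper57.NX

noncomputable section

theorem r45_Env_mono {m N M R n n' : ℕ} {S : Sys m} {δ w : ℝ} (h : Env S N δ M R w n')
    (hn : n ≤ n') : Env S N δ M R w n where
  ρ0 := h.ρ0
  ρ1 := h.ρ1
  D1 := h.D1
  δ0 := h.δ0
  δ1 := h.δ1
  u1 := h.u1
  u2 := h.u2
  MT := h.MT.trans (mul_le_mul_of_nonneg_right (r45_pow_anti h.δ0 h.δ1 hn) (Nat.cast_nonneg _))
  M1 := (r45_pow_inv_mono h.δ0 h.δ1 hn).trans h.M1
  MD := h.MD
  w1 := h.w1.trans (r45_pow_anti h.δ0 h.δ1 hn)
  P0 := h.P0
  PR := h.PR
  wQ := h.wQ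
  QN := h.QN

theorem r45_Clu_mono {m M : ℕ} {S : Sys m} {c : Fin m → ℝ} {δ Y Y' γ lam w : ℝ}
    {n n' B B' : ℕ} {g0 : Phi m} {t : List (Phi m)} (h : Clu S c δ M n B Y γ lam w g0 t)
    (h0 : 0 < δ) (h1 : δ ≤ 1 / 2)
    (hD : 0 < S.D)
    (hl : 0 ≤ lam) (hw : 0 ≤ w) (hn : n ≤ n') (hB : B' ≤ B) (hY : Y' ≤ Y) :
    Clu S c δ M n' B' Y' γ lam w g0 t where
  g := fun g hg => r45_Tp_mono (h.g g hg) h0 h1 hD hl hw hn hB hY
  b0 := h.b0.mono hn
  bt := fun g hg => (h.bt g hg).mono hn
  ne := h.ne
  le := h.le.trans hn

theorem r45_TG_mono {m M : ℕ} {S : Sys m} {c : Fin m → ℝ} {δ Y Y' γ lam w : ℝ}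
    {n n' B B' : ℕ} {Lq Lg Lq' : List (Phi m)} (h : TG S c δ M n B Y γ lam w Lq Lg)
    (h0 : 0 < δ) (h1 : δ ≤ 1 / 2)
    (hD : 0 < S.D)
    (hl : 0 ≤ lam) (hw : 0 ≤ w) (hn : n ≤ n') (hB : B' ≤ B) (hY : Y' ≤ Y)
    (hs : List.Sublist Lq' Lq) :
    TG S c δ M n' B' Y' γ lam w Lq' Lg where
  q := fun g hg p hp => by
    refine r45_Tp_mono (h.q g hg p ?_) h0 h1 hD hl hw hn hB hY
    rcases List.mem_cons.1 hp with h2 | h2
    · exact List.mem_cons.2 (Or.inl h2)
    · exact List.mem_cons.2 (Or.inr (hs.subset h2))
  g := fun g0 t ht g hg => r45_Tp_mono (h.g g0 t ht g hg) h0 h1 hD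
    (by (clear * - hl hD; positivity)) hw hn hB hY
  bq := fun p hp => (h.bq p (hs.subset hp)).mono hn
  bg := fun p hp => (h.bg p hp).mono hn
  lq := (hs.length_le.trans h.lq).trans hn
  lg := h.lg.trans hn
  ne := h.ne

theorem r45_lform_perm {m N : ℕ} [NeZero N] (S : Sys m) (c : Fin m → ℝ)
    (F0 : ZMod N → ℂ) {L L' : List ((ZMod N → ℂ) × Phi m)} (h : L.Perm L') :
    lform S c F0 L = lform S c F0 L' := by
  unfold lform
  refine Finset.expect_congr rfl fun k _ => Finset.expect_congr rfl fun x _ => ?_
  congr 1
  exact (h.map _).prod_eq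

theorem r45_merge1 {m N : ℕ} [NeZero N] (S : Sys m) (c : Fin m → ℝ) (B E : ℝ)
    (F0 : ZMod N → ℂ) (hF0 : ∀ x, ‖F0 x‖ ≤ 1)
    (L : List ((ZMod N → ℂ) × Phi m)) (hL : ∀ fp ∈ L, ∀ x, ‖fp.1 x‖ ≤ 1)
    (hQ : 1 ≤ S.Q) (f : ZMod N → ℂ) (hf : Adm B S.Q f) (p : Phi m) (hE0 : 0 ≤ E)
    (hE : ∀ k ∈ S.I, |(ev (S.a c) p k : ℝ)| ≤ E) :
    ‖lform S c F0 ((f, p) :: L) - lform S c (fun x => F0 x * f x) L‖
      ≤ E * B * (1 / S.Q + 1 / N) := by
  have hB : 0 ≤ B := hf.tv.nonneg
  have hQ' : (0 : ℝ) < S.Q := by exact_mod_cast hQ
  have hR : 0 ≤ E * B * (1 / (S.Q : ℝ) + 1 / N) := by (clear * - hE0 hB hQ; positivity)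
  unfold lform
  rw [← Finset.expect_sub_distrib]
  refine norm_expect_le_of5 _ _ hR fun k hk => ?_
  rw [← Finset.expect_sub_distrib]
  refine (norm_expect_le5 _ _).trans ?_
  calc 𝔼 x, ‖F0 x * (List.map (fun fp => fp.1 (x + (ev (S.a c) fp.2 k : ZMod N)))
          ((f, p) :: L)).prod - F0 x * f x * (List.map
            (fun fp => fp.1 (x + (ev (S.a c) fp.2 k : ZMod N))) L).prod‖
      ≤ 𝔼 x, ‖f (x + (ev (S.a c) p k : ZMod N)) - f x‖ := by
        refine Finset.expect_le_expect fun x _ => ?_
        have h1 : F0 x * (List.map (fun fp => fp.1 (x + (ev (S.a c) fp.2 k : ZMod N)))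
          ((f, p) :: L)).prod - F0 x * f x * (List.map
            (fun fp => fp.1 (x + (ev (S.a c) fp.2 k : ZMod N))) L).prod
            = (f (x + (ev (S.a c) p k : ZMod N)) - f x) * (F0 x * (List.map
            (fun fp => fp.1 (x + (ev (S.a c) fp.2 k : ZMod N))) L).prod) := by
          rw [List.map_cons, List.prod_cons]; ring
        rw [h1, norm_mul]
        refine mul_le_of_le_one_right (norm_nonneg _) ?_
        rw [norm_mul]
        exact mul_le_one₀ (hF0 x) (norm_nonneg _) (r45_norm_prod _ _ fun fp hfp => hL fp hfp _)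
    _ ≤ |((ev (S.a c) p k : ℤ) : ℝ)| * B * (1 / S.Q + 1 / N) := hf.tv.l1_shift hQ' _
    _ ≤ E * B * (1 / S.Q + 1 / N) := by
        have := hE k hk
        (clear * - this hB hQ; gcongr)

theorem r45_merge {m N : ℕ} [NeZero N] (S : Sys m) (c : Fin m → ℝ) (B E : ℝ)
    (pr : (ZMod N → ℂ) × Phi m → Bool)
    (hQ : 1 ≤ S.Q) (hE0 : 0 ≤ E) (hB : 0 ≤ B)
    (Lq : List ((ZMod N → ℂ) × Phi m)) : ∀ (Lg : List ((ZMod N → ℂ) × Phi m)) (F0 : ZMod N → ℂ),
    (∀ x, ‖F0 x‖ ≤ 1) → (∀ fp ∈ Lg, ∀ x, ‖fp.1 x‖ ≤ 1) →
    (∀ fp ∈ Lq, Adm B S.Q fp.1) →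
    (∀ fp ∈ Lq, pr fp = false → ∀ k ∈ S.I, |(ev (S.a c) fp.2 k : ℝ)| ≤ E) →
    ∃ F0' : ZMod N → ℂ, (∀ x, ‖F0' x‖ ≤ 1) ∧
    ‖lform S c F0 (Lq ++ Lg) - lform S c F0' (Lq.filter pr ++ Lg)‖
      ≤ Lq.length * (E * B * (1 / S.Q + 1 / N)) := by
  have hQ' : (0 : ℝ) < S.Q := by exact_mod_cast hQ
  have hR : 0 ≤ E * B * (1 / (S.Q : ℝ) + 1 / N) := by (clear * - hE0 hB hQ; positivity)
  induction Lq with
  | nil =>
    intro Lg F0 hF0 hLg _ _
    exact ⟨F0, hF0, by simp⟩
  | cons fp Lq ih =>
    intro Lg F0 hF0 hLg hLq hE
    obtain ⟨f, p⟩ := fp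
    have hf : Adm B S.Q f := hLq (f, p) (by simp)
    cases hp : pr (f, p) with
    | true =>
      obtain ⟨F0', h1, h2⟩ := ih ((f, p) :: Lg) F0 hF0
        (fun fp hfp => by
          rcases List.mem_cons.1 hfp with h | h
          · rw [h]; exact hf.bdd
          · exact hLg fp h)
        (fun fp hfp => hLq fp (by simp [hfp])) (fun fp hfp => hE fp (by simp [hfp]))
      refine ⟨F0', h1, ?_⟩
      rw [List.filter_cons_of_pos hp]
      rw [r45_lform_perm S c F0 (L := ((f, p) :: Lq) ++ Lg) (L' := Lq ++ (f, p) :: Lg)
        (by simpa using (List.perm_middle (l₁ := Lq) (l₂ := Lg) (a := (f, p))).symm)]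
      rw [r45_lform_perm S c F0' (L := ((f, p) :: Lq.filter pr) ++ Lg)
        (L' := Lq.filter pr ++ (f, p) :: Lg)
        (by simpa using (List.perm_middle (l₁ := Lq.filter pr) (l₂ := Lg) (a := (f, p))).symm)]
      refine h2.trans ?_
      rw [List.length_cons]
      push_cast
      (clear * - hR; nlinarith)
    | false =>
      obtain ⟨F0', h1, h2⟩ := ih Lg (fun x => F0 x * f x)
        (fun x => by
          rw [norm_mul]
          exact mul_le_one₀ (hF0 x) (norm_nonneg _) (hf.bdd x)) hLg
        (fun fp hfp => hLq fp (by simp [hfp])) (fun fp hfp => hE fp (by simp [hfp]))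
      refine ⟨F0', h1, ?_⟩
      rw [List.filter_cons_of_neg (by simp [hp])]
      have h3 := r45_merge1 S c B E F0 hF0 (Lq ++ Lg)
        (fun fp hfp => by
          rcases List.mem_append.1 hfp with h | h
          · exact (hLq fp (by simp [h])).bdd
          · exact hLg fp h) hQ f hf p hE0 (hE (f, p) (by simp) hp)
      rw [List.cons_append]
      calc _ ≤ ‖lform S c F0 ((f, p) :: (Lq ++ Lg)) - lform S c (fun x => F0 x * f x) (Lq ++ Lg)‖
            + ‖lform S c (fun x => F0 x * f x) (Lq ++ Lg) -
              lform S c F0' (Lq.filter pr ++ Lg)‖ := norm_sub_le_norm_sub_add_norm_sub _ _ _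
        _ ≤ _ := by
          rw [List.length_cons]
          push_cast
          (clear * - h2 h3; linarith)

theorem r45_ev {m : ℕ} (c : Fin m → ℝ) (n R : ℕ) : ∃ C : ℝ, 0 < C ∧
    ∀ (S : Sys m) (N : ℕ) (δ w : ℝ) (M : ℕ), Env S N δ M R w n →
    ∀ p : Phi m, Bd M n p → p ∈ (VV R : AddSubgroup (Phi m)) →
    ∀ k ∈ S.I, |(ev (S.a c) p k : ℝ)| ≤ C * (w * S.Q) := by
  obtain ⟨C, hC, h⟩ := ev_small c n R
  refine ⟨2 * C, by positivity, ?_⟩
  intro S N δ w M hE p hp hV k hk
  have hD : 0 < S.D := by linarith [hE.D1]
  have hnM : n * (M : ℝ) ≤ S.D := by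
    have h1 : (M : ℝ) / S.D ≤ δ ^ n := hE.MD.trans hE.w1
    rw [div_le_iff₀ hD] at h1
    have h2 : (n : ℝ) * δ ^ n ≤ 1 := by
      have h3 : δ ^ n ≤ (1 / 2) ^ n := pow_le_pow_left₀ hE.δ0.le hE.δ1 n
      have h4 : (n : ℝ) ≤ 2 ^ n := by exact_mod_cast Nat.lt_two_pow_self.le
      calc (n : ℝ) * δ ^ n ≤ 2 ^ n * (1 / 2) ^ n := by
            have := pow_nonneg hE.δ0.le n
            (clear * - h4 h3 this; gcongr)
        _ = 1 := by rw [← mul_pow]; norm_num
    calc n * (M : ℝ) ≤ n * (δ ^ n * S.D) := by (clear * - h1; gcongr)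
      _ = (n * δ ^ n) * S.D := by ring
      _ ≤ 1 * S.D := by gcongr
      _ = S.D := one_mul _
  obtain ⟨Pm, hP0, hP1, hP2⟩ : ∃ Pm : ℝ, 0 ≤ Pm ∧ (∀ i, 0 ≤ S.P i ∧ S.P i ≤ Pm) ∧
      Pm * ((M : ℝ) / S.D) ^ R ≤ w * S.Q := by
    rcases isEmpty_or_nonempty (Fin m) with hm | hm
    · refine ⟨0, le_rfl, fun i => (hm.false i).elim, ?_⟩
      rw [zero_mul]
      linarith [hE.wQ]
    · obtain ⟨i0, hi0⟩ := Finite.exists_max S.P
      exact ⟨S.P i0, hE.P0 i0, fun i => ⟨hE.P0 i, hi0 i⟩, hE.PR i0⟩
  rw [Sys.I, Finset.mem_Ico] at hk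
  have hk1 : (S.u : ℝ) ≤ k := by exact_mod_cast hk.1
  have hk2 : (k : ℝ) ≤ S.u + S.T := by exact_mod_cast hk.2.le
  have := h S M Pm hP0 hE.D1 hE.ρ0 hE.ρ1 hnM hP1 p hp hV k (hE.u1.trans hk1)
    (by (clear * - hD hk2 hE; linarith [hE.u2]))
  refine this.trans ?_
  have h5 := hE.wQ
  (clear * - hC hP2 h5; nlinarith)

/-- merging the negligible elements -/
theorem r45_merge2 {m : ℕ} (c : Fin m → ℝ) (n R : ℕ) : ∃ n' : ℕ, n ≤ n' ∧
    ∀ (S : Sys m) (N : ℕ) [NeZero N] (δ w : ℝ) (M : ℕ), Env S N δ M R w n' →
    ∀ (Lq Lg : List ((ZMod N → ℂ) × Phi m)) (F0 : ZMod N → ℂ) (pr : (ZMod N → ℂ) × Phi m → Bool),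
    (∀ fp : (ZMod N → ℂ) × Phi m, pr fp = false ↔ fp.2 ∈ (VV R : AddSubgroup (Phi m))) →
    (∀ x, ‖F0 x‖ ≤ 1) → (∀ fp ∈ Lg, ∀ x, ‖fp.1 x‖ ≤ 1) →
    (∀ fp ∈ Lq, Adm (δ⁻¹ ^ n) S.Q fp.1) → (∀ fp ∈ Lq, Bd M n fp.2) → Lq.length ≤ n →
    δ ^ n ≤ ‖lform S c F0 (Lq ++ Lg)‖ →
    ∃ F0' : ZMod N → ℂ, (∀ x, ‖F0' x‖ ≤ 1) ∧
      δ ^ n' ≤ ‖lform S c F0' (Lq.filter pr ++ Lg)‖ := by
  obtain ⟨C, hC, h⟩ := r45_ev c n R
  obtain ⟨e, he⟩ := r45_pow_ge (4 * n * C)
  refine ⟨2 * n + e + 1, by omega, ?_⟩
  intro S N _ δ w M hE Lq Lg F0 pr hpr hF0 hLg hLq hBd hlen hδ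
  have hδ0 := hE.δ0
  have hδ1 := hE.δ1
  have hE' : Env S N δ M R w n := r45_Env_mono hE (by omega)
  have hwQ := hE.wQ
  have hQ0 : (0 : ℝ) < S.Q := by
    rcases (Nat.cast_nonneg S.Q : (0 : ℝ) ≤ S.Q).eq_or_lt with h0 | h0
    · rw [← h0, mul_zero] at hwQ; (clear * - hδ0 hδ1 hwQ; linarith)
    · exact h0
  have hQ1 : 1 ≤ S.Q := by exact_mod_cast Nat.cast_pos.1 hQ0
  exact by
    have hw0 : 0 < w := by
      by_contra h0
      have : w * S.Q ≤ 0 := mul_nonpos_of_nonpos_of_nonneg (not_lt.1 h0) hQ0.le
      (clear * - hδ0 hδ1 hwQ this; linarith)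
    obtain ⟨F0', h1, h2⟩ := r45_merge S c (δ⁻¹ ^ n) (C * (w * S.Q)) pr hQ1
      (by (clear * - hC hw0 hQ1; positivity)) (by positivity) Lq Lg F0 hF0 hLg hLq
      (fun fp hfp hp k hk => h S N δ w M hE' fp.2 (hBd fp hfp) ((hpr fp).1 hp) k hk)
    refine ⟨F0', h1, ?_⟩
    have hNpos : (0 : ℝ) < N := by
      have := NeZero.pos N
      exact_mod_cast this
    have h3 : (Lq.length : ℝ) * (C * (w * S.Q) * δ⁻¹ ^ n * (1 / S.Q + 1 / N)) ≤ δ ^ n / 2 := by
      have h4 : (1 : ℝ) / S.Q + 1 / N ≤ 2 / S.Q := by
        have : (1 : ℝ) / N ≤ 1 / S.Q := one_div_le_one_div_of_le hQ0 hE.QN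
        calc (1 : ℝ) / S.Q + 1 / N ≤ 1 / S.Q + 1 / S.Q := by (clear * - this; linarith)
          _ = 2 / S.Q := by ring
      have h5 : (Lq.length : ℝ) ≤ n := by exact_mod_cast hlen
      calc (Lq.length : ℝ) * (C * (w * S.Q) * δ⁻¹ ^ n * (1 / S.Q + 1 / N))
          ≤ n * (C * (w * S.Q) * δ⁻¹ ^ n * (2 / S.Q)) := by (clear * - h5 h4 hC hw0 hQ1 hδ0 hNpos; gcongr)
        _ = 2 * n * C * w * δ⁻¹ ^ n := by (clear * - hQ1 hδ0 hw0 hC; field_simp)
        _ ≤ 2 * n * C * δ ^ (2 * n + e + 1) * δ⁻¹ ^ n := by
            have := hE.w1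
            (clear * - this hC hδ0; gcongr)
        _ = (4 * n * C) * (δ ^ e * δ ^ n * δ) / 2 := by
            rw [show 2 * n + e + 1 = n + e + n + 1 by ring, pow_succ, pow_add, pow_add]
            have : δ ^ n * δ⁻¹ ^ n = 1 := by
              rw [← mul_pow, mul_inv_cancel₀ hδ0.ne', one_pow]
            linear_combination (2 * n * C * δ ^ e * δ ^ n * δ) * this
        _ ≤ δ⁻¹ ^ e * (δ ^ e * δ ^ n * δ) / 2 := by
            have := he δ hδ0 hδ1
            (clear * - this hδ0; gcongr)
        _ = δ ^ n * δ / 2 := by
            have : δ⁻¹ ^ e * δ ^ e = 1 := by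
              rw [← mul_pow, inv_mul_cancel₀ hδ0.ne', one_pow]
            linear_combination (δ ^ n * δ / 2) * this
        _ ≤ δ ^ n / 2 := by
            have : δ ^ n * δ ≤ δ ^ n * 1 := by
              have := pow_pos hδ0 n
              gcongr
              (clear * - hδ0 hδ1; linarith)
            (clear * - this; linarith)
    have h6 : ‖lform S c F0 (Lq ++ Lg)‖ ≤ ‖lform S c F0' (Lq.filter pr ++ Lg)‖ +
        ‖lform S c F0 (Lq ++ Lg) - lform S c F0' (Lq.filter pr ++ Lg)‖ := by
      have := norm_sub_norm_le (lform S c F0 (Lq ++ Lg)) (lform S c F0' (Lq.filter pr ++ Lg))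
      (clear * - this; linarith)
    have h7 : δ ^ (2 * n + e + 1) ≤ δ ^ n / 2 := by
      calc δ ^ (2 * n + e + 1) ≤ δ ^ (n + 1) := r45_pow_anti hδ0 hδ1 (by omega)
        _ = δ ^ n * δ := pow_succ _ _
        _ ≤ δ ^ n * (1 / 2) := by
            have := pow_pos hδ0 n
            gcongr
        _ = δ ^ n / 2 := by ring
    linarith

/-- sizes needed for `lform_step` -/
theorem r45_step_sizes {m N M R n : ℕ} {S : Sys m} {δ w : ℝ}
    (hE : Env S N δ M R w (2 * n + 6)) :
    0 < δ ^ n ∧ δ ^ n ≤ 1 ∧ 16 / (δ ^ n) ^ 2 ≤ M ∧ (M : ℝ) ≤ (δ ^ n) ^ 2 * S.T / 64 := by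
  have hδ0 := hE.δ0
  have hδ1 := hE.δ1
  refine ⟨pow_pos hδ0 n, pow_le_one₀ hδ0.le (by linarith), ?_, ?_⟩
  · have h1 := (r45_Env_mono hE (show 2 * n + 4 ≤ 2 * n + 6 by omega)).M1
    refine le_trans ?_ h1
    have h2 : (16 : ℝ) ≤ δ⁻¹ ^ 4 := by
      have := pow_le_pow_left₀ (by norm_num) (r45_inv_one hδ0 hδ1) 4
      norm_num at this ⊢
      (clear * - this; linarith)
    rw [div_eq_mul_inv, pow_add, ← pow_mul, mul_comm n 2, ← inv_pow, mul_comm]
    have := pow_pos (inv_pos.2 hδ0) (2 * n)
    gcongr
  · refine hE.MT.trans ?_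
    have h2 : δ ^ 6 ≤ 1 / 64 := by
      have := pow_le_pow_left₀ hδ0.le hδ1 6
      norm_num at this ⊢
      (clear * - this; linarith)
    have h3 : (0 : ℝ) ≤ S.T := Nat.cast_nonneg _
    have h4 := pow_pos hδ0 (2 * n)
    calc δ ^ (2 * n + 6) * (S.T : ℝ) = δ ^ (2 * n) * δ ^ 6 * S.T := by rw [pow_add]
      _ ≤ δ ^ (2 * n) * (1 / 64) * S.T := by (clear * - h2 hδ0; gcongr)
      _ = (δ ^ n) ^ 2 * S.T / 64 := by rw [← pow_mul, mul_comm n 2]; ring

/-- the conclusion of a round -/
def Concl {m N : ℕ} [NeZero N] (S : Sys m) (c : Fin m → ℝ) (δ : ℝ) (M n B : ℕ)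
    (Y γ lam w : ℝ) (fs : ZMod N → ℂ) (l : ℕ) : Prop :=
  ∃ (g0' : Phi m) (t' : List ((ZMod N → ℂ) × Phi m)),
    (∀ fp ∈ t', fp.1 = fs ∨ fp.1 = fun x => conj (fs x)) ∧ t'.length + 1 ≤ l ∧
    Clu S c δ M n B Y (γ - 1) (lam * M / S.D) w g0' (t'.map Prod.snd) ∧
    δ ^ n ≤ ‖lform S c 1 ((fs, g0') :: t')‖

theorem r45_Concl_mono {m N M R : ℕ} [NeZero N] {S : Sys m} {c : Fin m → ℝ}
    {δ Y Y' γ lam w : ℝ} {n n' B B' l l' : ℕ} {fs : ZMod N → ℂ}
    (h : Concl S c δ M n B Y γ lam w fs l) (hE : Env S N δ M R w n')
    (hl : 0 ≤ lam) (hw : 0 ≤ w) (hn : n ≤ n') (hB : B' ≤ B) (hY : Y' ≤ Y) (hll : l ≤ l') :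
    Concl S c δ M n' B' Y' γ lam w fs l' := by
  obtain ⟨g0', t', h1, h2, h3, h4⟩ := h
  have hD : 0 < S.D := by (clear * - hE; linarith [hE.D1])
  refine ⟨g0', t', h1, h2.trans hll, r45_Clu_mono h3 hE.δ0 hE.δ1 hD (by (clear * - hl hD; positivity)) hw hn hB hY,
    (r45_pow_anti hE.δ0 hE.δ1 hn).trans h4⟩

theorem r45_Env_w {m N M R n : ℕ} {S : Sys m} {δ w : ℝ} (hE : Env S N δ M R w n) :
    0 < w := by
  have hwQ := hE.wQ
  by_contra h0
  have : w * S.Q ≤ 0 := mul_nonpos_of_nonpos_of_nonneg (not_lt.1 h0) (Nat.cast_nonneg _)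
  linarith

/-- the last step -/
theorem r45_final (γ : ℝ) (hγ : γ ≠ 0) (n B : ℕ) : ∃ n' : ℕ, n ≤ n' ∧
    ∀ (m : ℕ) (c : Fin m → ℝ) (R : ℕ) (S : Sys m) (N : ℕ) [NeZero N] (δ Y lam w : ℝ) (M : ℕ),
      Env S N δ M R w n' → 0 < lam → Y ≤ 3 * S.D →
      ∀ (fs F0 : ZMod N → ℂ) (g0 : Phi m) (tg : List ((ZMod N → ℂ) × Phi m)),
        (∀ x, ‖fs x‖ ≤ 1) → (∀ x, ‖F0 x‖ ≤ 1) →
        (∀ fp ∈ tg, fp.1 = fs ∨ fp.1 = fun x => conj (fs x)) →
        TG S c δ M n (B + 1) (Y + M) γ lam w [] (g0 :: tg.map Prod.snd) →
        δ ^ n ≤ ‖lform S c F0 ((fs, g0) :: tg)‖ →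
        Concl S c δ M n' B Y γ lam w fs (2 * (tg.length + 1)) := by
  obtain ⟨n1, hn1, H⟩ := type_final γ hγ n B
  refine ⟨n1 + 2 * n + 6, by omega, ?_⟩
  intro m c R S N _ δ Y lam w M hE hlam hY fs F0 g0 tg hfs hF0 htg hTG hδ
  have hδ0 := hE.δ0
  have hδ1 := hE.δ1
  have hE1 : Env S N δ M R w n1 := r45_Env_mono hE (by omega)
  obtain ⟨Bad, hBad, hB2⟩ := H m S c δ Y lam w M hE.D1 hE.ρ0 hE.ρ1 hδ0 hδ1 hlam hE1.M1 hE1.MD
    hE1.w1 hY g0 (tg.map Prod.snd) hTG
  obtain ⟨s1, s2, s3, s4⟩ := r45_step_sizes (r45_Env_mono hE (show 2 * n + 6 ≤ n1 + 2 * n + 6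
    by omega))
  have htg' : ∀ fp ∈ tg, ∀ x, ‖fp.1 x‖ ≤ 1 := by
    intro fp hfp x
    rcases htg fp hfp with h | h
    · rw [h]; exact hfs x
    · rw [h]; simpa using hfs x
  obtain ⟨s, hs1, hs2, hs3, hs4⟩ := lform_step S c M (δ ^ n) s1 s2 F0 hF0 ((fs, g0) :: tg)
    (by
      intro fp hfp x
      rcases List.mem_cons.1 hfp with h | h
      · rw [h]; exact hfs x
      · exact htg' fp h x) s3 s4 Bad (by rw [← pow_mul, mul_comm n 2]; exact hBad) 0 hδ
  refine ⟨g0, tg ++ ((fs, g0) :: tg).map (fun fp => ((fun x => conj (fp.1 x)), tau s fp.2)),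
    ?_, ?_, ?_, ?_⟩
  · intro fp hfp
    rcases List.mem_append.1 hfp with h | h
    · exact htg fp h
    · obtain ⟨fp', h1, rfl⟩ := List.mem_map.1 h
      rcases List.mem_cons.1 h1 with h2 | h2
      · subst h2
        exact Or.inr rfl
      · rcases htg fp' h2 with h3 | h3
        · exact Or.inr (by rw [h3])
        · refine Or.inl ?_
          funext x
          show conj (fp'.1 x) = fs x
          rw [h3]
          simp
  · simp only [List.length_append, List.length_map, List.length_cons]
    omega
  · have := hB2 s hs1 hs2 hs3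
    have h5 : ((tg ++ ((fs, g0) :: tg).map
        (fun fp => ((fun x => conj (fp.1 x)), tau s fp.2))).map Prod.snd)
        = tg.map Prod.snd ++ (g0 :: tg.map Prod.snd).map (tau s) := by
      simp [List.map_append, List.map_map, Function.comp_def]
    rw [h5]
    exact r45_Clu_mono this hδ0 hδ1 (by (clear * - hδ0 hδ1 hE; linarith [hE.D1]))
      (by have := hE.D1; (clear * - hlam this; positivity)) (r45_Env_w hE).le (by omega) le_rfl le_rfl
  · have h5 : (fs, g0) :: (tg ++ ((fs, g0) :: tg).map
        (fun fp => ((fun x => conj (fp.1 x)), tau s fp.2)))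
        = ((fs, g0) :: tg).map (fun fp => (fp.1, fp.2 - 0)) ++
        ((fs, g0) :: tg).map (fun fp => ((fun x => conj (fp.1 x)), tau s fp.2 - 0)) := by
      simp
    rw [h5]
    refine le_trans ?_ hs4
    have h6 : δ ^ 2 ≤ 1 / 4 := by
      have := pow_le_pow_left₀ hδ0.le hδ1 2
      norm_num at this ⊢
      (clear * - this; linarith)
    calc δ ^ (n1 + 2 * n + 6) ≤ δ ^ (2 * n + 2) := r45_pow_anti hδ0 hδ1 (by omega)
      _ = δ ^ (2 * n) * δ ^ 2 := pow_add _ _ _
      _ ≤ δ ^ (2 * n) * (1 / 4) := by
          have := pow_pos hδ0 (2 * n)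
          (clear * - h6 hδ0; gcongr)
      _ = (δ ^ n) ^ 2 / 4 := by rw [← pow_mul, mul_comm n 2]; ring

/-- the elimination: induction over the number of remaining steps -/
theorem r45_main {m : ℕ} (c : Fin m → ℝ) (γ : ℝ) (hγ : γ ≠ 0) (R μ : ℕ) :
    ∀ n B : ℕ, ∃ n' : ℕ, n ≤ n' ∧
    ∀ (S : Sys m) (N : ℕ) [NeZero N] (δ Y lam w : ℝ) (M : ℕ),
      Env S N δ M R w n' → 0 < lam → Y + (μ + 1 : ℕ) * (M : ℝ) ≤ 3 * S.D →
      ∀ (fs F0 : ZMod N → ℂ) (Lq : List ((ZMod N → ℂ) × Phi m)) (g0 : Phi m)
        (tg : List ((ZMod N → ℂ) × Phi m)),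
        (∀ x, ‖fs x‖ ≤ 1) → (∀ x, ‖F0 x‖ ≤ 1) →
        (∀ fp ∈ tg, fp.1 = fs ∨ fp.1 = fun x => conj (fs x)) →
        (∀ fp ∈ Lq, Adm (δ⁻¹ ^ n) S.Q fp.1) →
        Steps VV tau R μ (Lq.map Prod.snd) →
        TG S c δ M n (B + (μ + 1)) (Y + (μ + 1 : ℕ) * (M : ℝ)) γ lam w
          (Lq.map Prod.snd) (g0 :: tg.map Prod.snd) →
        δ ^ n ≤ ‖lform S c F0 (Lq ++ (fs, g0) :: tg)‖ →
        Concl S c δ M n' B Y γ lam w fs ((tg.length + 1) * 2 ^ (μ + 1)) := by
  classical
  induction μ with
  | zero =>
    intro n B
    obtain ⟨n', hn', H⟩ := r45_final γ hγ n B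
    refine ⟨n', hn', ?_⟩
    intro S N _ δ Y lam w M hE hlam hY fs F0 Lq g0 tg hfs hF0 htg hLq hSt hTG hδ
    simp only [zero_add, pow_one, Nat.cast_one, one_mul] at hY hTG ⊢
    have hnil : Lq = [] := by simpa [Steps] using hSt
    subst hnil
    have hM0 : (0 : ℝ) ≤ M := Nat.cast_nonneg _
    have := H m c R S N δ Y lam w M hE hlam (by (clear * - hY; linarith)) fs F0 g0 tg hfs hF0 htg hTG
      (by simpa using hδ)
    rwa [mul_comm]
  | succ μ ih =>
    intro n B
    obtain ⟨na, hna, Ha⟩ := r45_final γ hγ n B
    obtain ⟨n1, hn1, H1⟩ := type_step γ hγ n (B + (μ + 1))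
    obtain ⟨n2, hn2, H2⟩ := r45_merge2 c (max n1 (2 * n + 2)) R
    obtain ⟨n3, hn3, H3⟩ := ih n2 B
    refine ⟨max na (n3 + 2 * n + 6), by omega, ?_⟩
    intro S N _ δ Y lam w M hE hlam hY fs F0 Lq g0 tg hfs hF0 htg hLq hSt hTG hδ
    have hδ0 := hE.δ0
    have hδ1 := hE.δ1
    have hD := hE.D1
    have hw := r45_Env_w hE
    have hM0 : (0 : ℝ) ≤ M := Nat.cast_nonneg _
    exact by
      have hμM : (0 : ℝ) ≤ ((μ : ℝ) + 1) * M := by (clear * -; positivity)
      rcases hSt with hnil | ⟨q, hq, hSt⟩
      · have hnil : Lq = [] := by simpa using hnil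
        exact by
          subst hnil
          have hY' : Y ≤ 3 * S.D := by
            push_cast at hY
            (clear * - hμM hY; nlinarith)
          have := Ha m c R S N δ Y lam w M (r45_Env_mono hE (le_max_left _ _)) hlam hY' fs F0 g0 tg
            hfs hF0 htg (r45_TG_mono hTG hδ0 hδ1 (by (clear * - hδ0 hδ1 hD; linarith)) hlam.le hw.le le_rfl (by omega)
              (by push_cast; (clear * - hμM; nlinarith)) (List.Sublist.refl _)) (by simpa using hδ)
          refine r45_Concl_mono this hE hlam.le hw.le (le_max_left _ _) le_rfl le_rfl ?_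
          have : 2 ≤ 2 ^ (μ + 1 + 1) := by
            calc 2 = 2 ^ 1 := rfl
              _ ≤ 2 ^ (μ + 1 + 1) := Nat.pow_le_pow_right (by norm_num) (by omega)
          calc 2 * (tg.length + 1) = (tg.length + 1) * 2 := mul_comm _ _
            _ ≤ (tg.length + 1) * 2 ^ (μ + 1 + 1) := Nat.mul_le_mul_left _ this
      · have hE1 : Env S N δ M R w n1 := r45_Env_mono hE (by omega)
        exact by
          have hE3 : Env S N δ M R w n3 := r45_Env_mono hE (by omega)
          have hE2 : Env S N δ M R w n2 := r45_Env_mono hE3 hn3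
          have hYe : Y + ((μ + 1 + 1 : ℕ) : ℝ) * M = Y + ((μ + 1 : ℕ) : ℝ) * M + M := by
            push_cast; ring
          rw [hYe] at hY hTG
          obtain ⟨Bad, hBad, hB2⟩ := H1 m S c δ (Y + ((μ + 1 : ℕ) : ℝ) * M) lam w M hE.D1 hE.ρ0 hE.ρ1
            hδ0 hδ1 hlam hE1.M1 hE1.MD hE1.w1 (by (clear * - hY; linarith)) (Lq.map Prod.snd)
            (g0 :: tg.map Prod.snd) hTG q hq
          obtain ⟨s1, s2, s3, s4⟩ := r45_step_sizes (r45_Env_mono hE
            (show 2 * n + 6 ≤ max na (n3 + 2 * n + 6) by omega))
          have htg' : ∀ fp ∈ tg, ∀ x, ‖fp.1 x‖ ≤ 1 := by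
            intro fp hfp x
            rcases htg fp hfp with h | h
            · rw [h]; exact hfs x
            · rw [h]; simpa using hfs x
          obtain ⟨s, hs1, hs2, hs3, hs4⟩ := lform_step S c M (δ ^ n) s1 s2 F0 hF0
            (Lq ++ (fs, g0) :: tg)
            (by
              intro fp hfp x
              rcases List.mem_append.1 hfp with h | h
              · exact (hLq fp h).bdd x
              · rcases List.mem_cons.1 h with h | h
                · rw [h]; exact hfs x
                · exact htg' fp h x) s3 s4 Bad (by rw [← pow_mul, mul_comm n 2]; exact hBad) q hδ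
          have hT := hB2 s hs1 hs2 hs3
          -- the new lists
          set Lq1 : List ((ZMod N → ℂ) × Phi m) := Lq.map (fun fp => (fp.1, fp.2 - q)) ++
            Lq.map (fun fp => ((fun x => conj (fp.1 x)), tau s fp.2 - q)) with hLq1
          set tg1 : List ((ZMod N → ℂ) × Phi m) := tg.map (fun fp => (fp.1, fp.2 - q)) ++
            ((fs, g0) :: tg).map (fun fp => ((fun x => conj (fp.1 x)), tau s fp.2 - q)) with htg1
          have hLq1s : Lq1.map Prod.snd = (Lq.map Prod.snd).map (fun p => p - q) ++
              (Lq.map Prod.snd).map (fun p => tau s p - q) := by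
            simp [hLq1, List.map_append, List.map_map, Function.comp_def]
          have htg1s : (g0 - q) :: tg1.map Prod.snd = (g0 :: tg.map Prod.snd).map (fun p => p - q) ++
              (g0 :: tg.map Prod.snd).map (fun p => tau s p - q) := by
            simp [htg1, List.map_append, List.map_map, Function.comp_def]
          rw [← hLq1s, ← htg1s] at hT
          have hperm : ((Lq ++ (fs, g0) :: tg).map (fun fp => (fp.1, fp.2 - q)) ++
              (Lq ++ (fs, g0) :: tg).map
                (fun fp => ((fun x => conj (fp.1 x)), tau s fp.2 - q))).Perm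
              (Lq1 ++ (fs, g0 - q) :: tg1) := by
            have h1 : (fs, g0 - q) :: tg1 = ((fs, g0) :: tg).map (fun fp => (fp.1, fp.2 - q)) ++
              ((fs, g0) :: tg).map (fun fp => ((fun x => conj (fp.1 x)), tau s fp.2 - q)) := by
              simp [htg1]
            rw [h1, hLq1, List.map_append, List.map_append, List.append_assoc, List.append_assoc]
            refine List.Perm.append_left _ ?_
            rw [← List.append_assoc, ← List.append_assoc]
            exact List.Perm.append_right _ List.perm_append_comm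
          rw [r45_lform_perm S c 1 hperm] at hs4
          have hLq1A : ∀ fp ∈ Lq1, Adm (δ⁻¹ ^ (max n1 (2 * n + 2))) S.Q fp.1 := by
            have hmono : ∀ f : ZMod N → ℂ, Adm (δ⁻¹ ^ n) S.Q f →
                Adm (δ⁻¹ ^ (max n1 (2 * n + 2))) S.Q f := by
              intro f hf
              have hQ0 : (0 : ℝ) < S.Q := by
                have hwQ := hE.wQ
                rcases (Nat.cast_nonneg S.Q : (0 : ℝ) ≤ S.Q).eq_or_lt with h0 | h0
                · rw [← h0, mul_zero] at hwQ; (clear * - hδ0 hδ1 hwQ; linarith)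
                · exact h0
              exact hf.mono (r45_pow_inv_mono hδ0 hδ1 (by omega)) hQ0 le_rfl
            intro fp hfp
            rcases List.mem_append.1 hfp with h | h
            · obtain ⟨fp', h1, rfl⟩ := List.mem_map.1 h
              exact hmono _ (hLq fp' h1)
            · obtain ⟨fp', h1, rfl⟩ := List.mem_map.1 h
              exact hmono _ (hLq fp' h1).cnj
          have htg1A : ∀ fp ∈ tg1, fp.1 = fs ∨ fp.1 = fun x => conj (fs x) := by
            intro fp hfp
            rcases List.mem_append.1 hfp with h | h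
            · obtain ⟨fp', h1, rfl⟩ := List.mem_map.1 h
              exact htg fp' h1
            · obtain ⟨fp', h1, rfl⟩ := List.mem_map.1 h
              rcases List.mem_cons.1 h1 with h2 | h2
              · subst h2
                exact Or.inr rfl
              · rcases htg fp' h2 with h3 | h3
                · exact Or.inr (by rw [h3])
                · refine Or.inl ?_
                  funext x
                  show conj (fp'.1 x) = fs x
                  rw [h3]
                  simp
          exact by
            have hδ2 : δ ^ (max n1 (2 * n + 2)) ≤ ‖lform S c 1 (Lq1 ++ (fs, g0 - q) :: tg1)‖ := by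
              refine le_trans ?_ hs4
              have h6 : δ ^ 2 ≤ 1 / 4 := by
                have := pow_le_pow_left₀ hδ0.le hδ1 2
                norm_num at this ⊢
                (clear * - this; linarith)
              calc δ ^ (max n1 (2 * n + 2)) ≤ δ ^ (2 * n + 2) := r45_pow_anti hδ0 hδ1 (by omega)
                _ = δ ^ (2 * n) * δ ^ 2 := pow_add _ _ _
                _ ≤ δ ^ (2 * n) * (1 / 4) := by
                    have := pow_pos hδ0 (2 * n)
                    (clear * - h6 hδ0; gcongr)
                _ = (δ ^ n) ^ 2 / 4 := by rw [← pow_mul, mul_comm n 2]; ring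
            obtain ⟨F1, hF1, hδ3⟩ := H2 S N δ w M hE2 Lq1 ((fs, g0 - q) :: tg1) 1
              (fun fp => decide (fp.2 ∉ (VV R : AddSubgroup (Phi m))))
              (fun fp => by simp) (fun x => by simp)
              (by
                intro fp hfp x
                rcases List.mem_cons.1 hfp with h | h
                · rw [h]; exact hfs x
                · rcases htg1A fp h with h | h
                  · rw [h]; exact hfs x
                  · rw [h]; simpa using hfs x) hLq1A
              (fun fp hfp => (hT.bq fp.2 (List.mem_map_of_mem hfp)).mono (le_max_left _ _))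
              (by
                have := hT.lq
                rw [List.length_map] at this
                exact this.trans (le_max_left _ _)) hδ2
            have hpn : (Lq1.filter (fun fp => decide (fp.2 ∉ (VV R : AddSubgroup (Phi m))))).map Prod.snd
                = petNext VV tau R q s (Lq.map Prod.snd) := by
              unfold petNext
              rw [← hLq1s, List.filter_map]
              congr 1
            have := H3 S N δ Y lam w M hE3 hlam (by (clear * - hY; linarith)) fs F1
              (Lq1.filter (fun fp => decide (fp.2 ∉ (VV R : AddSubgroup (Phi m))))) (g0 - q) tg1 hfs hF1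
              htg1A
              (by
                intro fp hfp
                have h1 : fp ∈ Lq1 := (List.mem_filter.1 hfp).1
                have hQ0 : (0 : ℝ) < S.Q := by
                  have hwQ := hE.wQ
                  rcases (Nat.cast_nonneg S.Q : (0 : ℝ) ≤ S.Q).eq_or_lt with h0 | h0
                  · rw [← h0, mul_zero] at hwQ; (clear * - hδ0 hδ1 hwQ; linarith)
                  · exact h0
                exact (hLq1A fp h1).mono (r45_pow_inv_mono hδ0 hδ1 hn2) hQ0 le_rfl)
              (by rw [hpn]; exact hSt s)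
              (r45_TG_mono hT hδ0 hδ1 (by (clear * - hδ0 hδ1 hD; linarith)) hlam.le hw.le ((le_max_left _ _).trans hn2)
                le_rfl le_rfl ((List.filter_sublist).map _)) hδ3
            refine r45_Concl_mono this hE hlam.le hw.le (by omega) le_rfl le_rfl ?_
            have h7 : tg1.length + 1 = 2 * (tg.length + 1) := by
              simp [htg1]; omega
            rw [h7]
            exact le_of_eq (by ring)

end

end Pool.Agent.Helper57.NX

end

section

set_option autoImplicit false

open Finset Real

namespace Pool.Agent.Helper57.FP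

theorem energy_main (δ ε : ℝ) (hδ : 0 < δ) (hε : 0 < ε) (c M : ℕ) (hc : 1 ≤ c) :
    ∃ z0 : ℕ, ∀ z : ℕ, z0 ≤ z → ∀ A : Finset ℕ, (∀ p ∈ A, p.Prime ∧ p < 2 ^ z) →
    δ * ((2 : ℝ) ^ z / Real.log ((2 : ℝ) ^ z)) ≤ A.card →
    ∃ β : ℕ, z ^ M ≤ 2 ^ β ∧ (c + 1) * β ≤ z ∧ ∃ J : Finset ℕ,
      (J.card : ℝ) ≤ ε * ((2 : ℝ) ^ z / 2 ^ β) ∧ ∃ G : Finset ℕ, G ⊆ A ∧
      δ / 4 * ((2 : ℝ) ^ z / Real.log ((2 : ℝ) ^ z)) ≤ G.card ∧
      ∀ p ∈ G, ∀ j : ℕ, p ≤ j * 2 ^ β → (j + 1) * 2 ^ β ≤ p + 2 ^ (c * β) → j ∉ J →
        δ / 4 * ((2 : ℝ) ^ β / Real.log ((2 : ℝ) ^ z)) ≤ bc A (2 ^ β) j := by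
  classical
  obtain ⟨C, hC, Z0, hE⟩ := energy_le
  set K : ℕ := ⌈16 * C / (δ ^ 2 * ε)⌉₊ + 1 with hK
  have hK0 : 0 < K := Nat.succ_pos _
  have hKr : (0 : ℝ) < K := by exact_mod_cast hK0
  have hKC : 16 * C / (δ ^ 2 * ε) ≤ K := by
    rw [hK]; push_cast
    (clear * -; linarith [Nat.le_ceil (16 * C / (δ ^ 2 * ε))])
  set D : ℕ := (c + 1) ^ K with hD
  have hD0 : 0 < D := by positivity
  exact by
    obtain ⟨z1, hz1⟩ := pow_le_two_pow D (max M 2) hD0
    refine ⟨max (max z1 Z0) (max 2 ⌈16 * C / δ ^ 2⌉₊), ?_⟩
    intro z hz A hA hcard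
    have hzz1 : z1 ≤ z := (le_max_left _ _).trans ((le_max_left _ _).trans hz)
    have hzZ0 : Z0 ≤ z := (le_max_right _ _).trans ((le_max_left _ _).trans hz)
    have hz2 : 2 ≤ z := (le_max_left _ _).trans ((le_max_right _ _).trans hz)
    have hzC : ⌈16 * C / δ ^ 2⌉₊ ≤ z := (le_max_right _ _).trans ((le_max_right _ _).trans hz)
    have hzC' : 16 * C / δ ^ 2 ≤ z := (Nat.le_ceil _).trans (by exact_mod_cast hzC)
    have hz0' : (0 : ℝ) < z := by exact_mod_cast (by omega : 0 < z)
    exact by
      set lz : ℝ := Real.log ((2 : ℝ) ^ z) with hlz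
      have hlzeq : lz = z * Real.log 2 := by rw [hlz, Real.log_pow]
      have hlog2 : 0 < Real.log 2 := Real.log_pos (by norm_num)
      have hlog2' : Real.log 2 ≤ 1 := by
        have := Real.log_two_lt_d9; (clear * - hlog2 this; linarith)
      have hlz0 : 0 < lz := by rw [hlzeq]; positivity
      have hlzz : lz ≤ z := by rw [hlzeq]; (clear * - hlog2'; nlinarith)
      exact by
        set e : ℕ := z / D with he
        have hpow : z ^ (max M 2) ≤ 2 ^ e := hz1 z hzz1
        have hpow2 : z ^ 2 ≤ 2 ^ e := (Nat.pow_le_pow_right (by omega) (le_max_right _ _)).trans hpow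
        have hpowM : z ^ M ≤ 2 ^ e := (Nat.pow_le_pow_right (by omega) (le_max_left _ _)).trans hpow
        have hpow1 : z ≤ 2 ^ e := by
          refine le_trans ?_ hpow2
          (clear * - hz2; nlinarith)
        set Z : ℕ := 2 ^ z with hZ
        exact by
          have hZr : (Z : ℝ) = (2 : ℝ) ^ z := by rw [hZ]; push_cast; rfl
          have hZ0 : Z0 ≤ Z := hzZ0.trans Nat.lt_two_pow_self.le
          -- scales
          set bt : ℕ → ℕ := fun i => e * (c + 1) ^ i with hbt
          have hbtS : ∀ i, bt (i + 1) = (c + 1) * bt i := by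
            intro i; simp only [hbt]; ring
          have hbtK : ∀ i, i ≤ K → bt i ≤ z := by
            intro i hi
            calc e * (c + 1) ^ i ≤ e * (c + 1) ^ K :=
                  Nat.mul_le_mul_left _ (Nat.pow_le_pow_right (by omega) hi)
              _ ≤ z := Nat.div_mul_le_self z D
          have hbt0 : ∀ i, e ≤ bt i := fun i => Nat.le_mul_of_pos_right _ (by positivity)
          exact by
            have hlogB : ∀ i, lz ^ 2 ≤ ((2 ^ bt i : ℕ) : ℝ) := by
              intro i
              calc lz ^ 2 ≤ (z : ℝ) ^ 2 := by (clear * - hlz0 hlzz; gcongr)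
                _ = ((z ^ 2 : ℕ) : ℝ) := by push_cast; rfl
                _ ≤ ((2 ^ e : ℕ) : ℝ) := by exact_mod_cast hpow2
                _ ≤ _ := by exact_mod_cast Nat.pow_le_pow_right (by norm_num) (hbt0 i)
            have hEi : ∀ i N : ℕ, ∑ j ∈ range N, (bc A (2 ^ bt i) j : ℝ) ^ 2 ≤
                C * (2 ^ z / lz ^ 2) * ((2 ^ bt i : ℕ) : ℝ) := by
              intro i N
              have := hE Z hZ0 (2 ^ bt i) (by positivity) (by rw [hZr]; exact hlogB i) A hA N
              rwa [hZr] at this
            set En : ℕ → ℝ := fun i => (∑ j ∈ range (2 ^ (z - bt i)), (bc A (2 ^ bt i) j : ℝ) ^ 2) /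
              2 ^ bt i with hEn
            obtain ⟨i, hiK, hpig⟩ := pigeon En K hK0 (C * (2 ^ z / lz ^ 2))
              (by
                simp only [hEn]
                rw [div_le_iff₀ (by positivity)]
                have := hEi 0 (2 ^ (z - bt 0))
                push_cast at this
                exact this)
              (by simp only [hEn]; (clear * -; positivity))
            set β : ℕ := bt i with hβ
            have hβz : (c + 1) * β ≤ z := by rw [hβ, ← hbtS]; exact hbtK (i + 1) (by omega)
            exact by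
              have hβ1 : c * β + β ≤ z := by rw [← Nat.succ_mul]; exact hβz
              set B : ℕ := 2 ^ β with hB
              set R : ℕ := 2 ^ (c * β) with hR
              set N : ℕ := 2 ^ (z - (c + 1) * β) with hN
              have hBr : (B : ℝ) = (2 : ℝ) ^ β := by rw [hB]; push_cast; rfl
              have hBpos : 0 < B := by positivity
              exact by
                have hB0 : (0 : ℝ) < B := by exact_mod_cast hBpos
                have hRpos : 0 < R := by positivity
                have hR0 : (0 : ℝ) < R := by exact_mod_cast hRpos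
                have hW : B * R = 2 ^ bt (i + 1) := by
                  rw [hB, hR, ← pow_add, hbtS]
                  congr 1; ring
                have hNR : N * R = 2 ^ (z - β) := by
                  rw [hN, hR, ← pow_add]
                  congr 1
                  rw [Nat.succ_mul]; (clear * - M Z0 z1 hβ1; omega)
                have hNRB : N * R * B = Z := by
                  rw [hNR, hB, ← pow_add, hZ]
                  congr 1; omega
                exact by
                  have hNRBr : (N : ℝ) * R * B = 2 ^ z := by rw [← hZr, ← hNRB]; push_cast; ring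
                  have hNW : N = 2 ^ (z - bt (i + 1)) := by rw [hN, hbtS]
                  have hbcW : ∀ V, ∑ i ∈ range R, (bc A B (V * R + i) : ℝ) = bc A (B * R) V := by
                    intro V
                    rw [bc_mul A B R V hRpos]; push_cast; rfl
                  -- the key variance bound
                  have hvar : ∑ j ∈ range (N * R), ((bc A B j : ℝ) - (bc A (B * R) (j / R) : ℝ) / R) ^ 2 ≤
                      B * (C * (2 ^ z / lz ^ 2) / K) := by
                    have h1 := energy_identity (fun j => (bc A B j : ℝ)) N R hRpos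
                    simp only [hbcW] at h1
                    rw [h1]
                    have h2 : En i = (∑ j ∈ range (N * R), (bc A B j : ℝ) ^ 2) / B := by
                      simp only [hEn]
                      rw [hNR, ← hβ, ← hBr]
                    have h3 : En (i + 1) = (∑ V ∈ range N, (bc A (B * R) V : ℝ) ^ 2) / (B * R) := by
                      simp only [hEn]
                      rw [← hNW, ← hW]
                      congr 1
                      have : ((B * R : ℕ) : ℝ) = (2 : ℝ) ^ bt (i + 1) := by rw [hW]; push_cast; rfl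
                      rw [← this]; push_cast; rfl
                    rw [h2, h3] at hpig
                    have h4 : (∑ j ∈ range (N * R), (bc A B j : ℝ) ^ 2) - (∑ V ∈ range N, (bc A (B * R) V : ℝ) ^ 2) / R
                        = B * ((∑ j ∈ range (N * R), (bc A B j : ℝ) ^ 2) / B -
                          (∑ V ∈ range N, (bc A (B * R) V : ℝ) ^ 2) / (B * R)) := by
                      (clear * - hRpos hBpos; field_simp)
                    rw [h4]
                    exact mul_le_mul_of_nonneg_left hpig hB0.le
                  -- bad blocks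
                  set J : Finset ℕ := (range (N * R)).filter (fun j =>
                    δ / 2 * ((B * R : ℝ) / lz) ≤ bc A (B * R) (j / R) ∧ (bc A B j : ℝ) < δ / 4 * (B / lz)) with hJ
                  exact by
                    have hJcard : (J.card : ℝ) ≤ ε * (2 ^ z / B) := by
                      have h1 : (J.card : ℝ) * (δ / 4 * (B / lz)) ^ 2 ≤ B * (C * (2 ^ z / lz ^ 2) / K) := by
                        calc (J.card : ℝ) * (δ / 4 * (B / lz)) ^ 2 = ∑ _j ∈ J, (δ / 4 * (B / lz)) ^ 2 := by
                              rw [Finset.sum_const, nsmul_eq_mul]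
                          _ ≤ ∑ j ∈ J, ((bc A B j : ℝ) - (bc A (B * R) (j / R) : ℝ) / R) ^ 2 := by
                              apply Finset.sum_le_sum
                              intro j hj
                              rw [hJ, Finset.mem_filter] at hj
                              obtain ⟨_, hj1, hj2⟩ := hj
                              have h2 : δ / 2 * (B / lz) ≤ (bc A (B * R) (j / R) : ℝ) / R := by
                                rw [le_div_iff₀ hR0]
                                calc δ / 2 * (B / lz) * R = δ / 2 * ((B * R : ℝ) / lz) := by ring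
                                  _ ≤ _ := hj1
                              have h3 : 0 < δ / 4 * (B / lz) := by positivity
                              have h4 : δ / 2 * (B / lz) = 2 * (δ / 4 * (B / lz)) := by ring
                              have h5 : δ / 4 * (B / lz) ≤ (bc A (B * R) (j / R) : ℝ) / R - bc A B j := by (clear * - hj2 h2; linarith)
                              have h6 := pow_le_pow_left₀ h3.le h5 2
                              calc (δ / 4 * (B / lz)) ^ 2 ≤ ((bc A (B * R) (j / R) : ℝ) / R - bc A B j) ^ 2 := h6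
                                _ = _ := by ring
                          _ ≤ ∑ j ∈ range (N * R), ((bc A B j : ℝ) - (bc A (B * R) (j / R) : ℝ) / R) ^ 2 := by
                              apply Finset.sum_le_sum_of_subset_of_nonneg (Finset.filter_subset _ _)
                              intro j _ _; (clear * -; positivity)
                          _ ≤ _ := hvar
                      have h2 : (J.card : ℝ) * (δ / 4 * (B / lz)) ^ 2 = (J.card : ℝ) * B * (δ ^ 2 * B / (16 * lz ^ 2)) := by
                        field_simp; ring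
                      have h3 : B * (C * (2 ^ z / lz ^ 2) / K) = (16 * C / (δ ^ 2 * K)) * 2 ^ z * (δ ^ 2 * B / (16 * lz ^ 2)) := by
                        (clear * - hδ hK0 hlz0 hC hBpos; field_simp)
                      rw [h2, h3] at h1
                      have h4 : (J.card : ℝ) * B ≤ (16 * C / (δ ^ 2 * K)) * 2 ^ z :=
                        le_of_mul_le_mul_right h1 (by (clear * - hδ hlz0; positivity))
                      have h5 : 16 * C / (δ ^ 2 * K) ≤ ε := by
                        rw [div_le_iff₀ (by positivity)]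
                        rw [div_le_iff₀ (by positivity)] at hKC
                        (clear * - hKC; linarith)
                      have h6 : (J.card : ℝ) * B ≤ ε * 2 ^ z := by
                        refine h4.trans ?_
                        exact mul_le_mul_of_nonneg_right h5 (by positivity)
                      rw [← mul_div_assoc, le_div_iff₀ hB0]
                      exact h6
                    -- the good set
                    set G : Finset ℕ := A.filter (fun p => δ / 2 * ((B * R : ℝ) / lz) ≤ bc A (B * R) (p / (B * R)) ∧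
                      p % (B * R) + R ≤ B * R) with hG
                    set A1 : Finset ℕ := A.filter (fun p => (bc A (B * R) (p / (B * R)) : ℝ) <
                      δ / 2 * ((B * R : ℝ) / lz)) with hA1
                    set A2 : Finset ℕ := A.filter (fun p => B * R < p % (B * R) + R) with hA2
                    exact by
                      have hBRpos : 0 < B * R := Nat.mul_pos hBpos hRpos
                      have hZNBR : Z = N * (B * R) := by rw [← hNRB]; ring
                      have hcover : A ⊆ (G ∪ A1) ∪ A2 := by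
                        intro p hp
                        rw [Finset.mem_union, Finset.mem_union, hG, hA1, hA2, Finset.mem_filter, Finset.mem_filter,
                          Finset.mem_filter]
                        by_cases h1 : δ / 2 * ((B * R : ℝ) / lz) ≤ bc A (B * R) (p / (B * R))
                        · by_cases h2 : p % (B * R) + R ≤ B * R
                          · left; left; exact ⟨hp, h1, h2⟩
                          · right; exact ⟨hp, by omega⟩
                        · left; right; exact ⟨hp, not_le.mp h1⟩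
                      have hcard1 : (A1.card : ℝ) ≤ δ / 2 * (2 ^ z / lz) := by
                        have h1 : A1.card = ∑ V ∈ range N, (A1.filter (fun p => p / (B * R) = V)).card := by
                          apply Finset.card_eq_sum_card_fiberwise
                          intro p hp
                          rw [Finset.mem_coe, hA1, Finset.mem_filter] at hp
                          rw [Finset.mem_coe, Finset.mem_range]
                          show p / (B * R) < N
                          rw [Nat.div_lt_iff_lt_mul hBRpos, ← hZNBR]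
                          exact (hA p hp.1).2
                        rw [h1]
                        push_cast
                        calc ∑ V ∈ range N, ((A1.filter (fun p => p / (B * R) = V)).card : ℝ)
                            ≤ ∑ _V ∈ range N, δ / 2 * ((B * R : ℝ) / lz) := by
                              apply Finset.sum_le_sum
                              intro V _
                              by_cases hV : (bc A (B * R) V : ℝ) < δ / 2 * ((B * R : ℝ) / lz)
                              · refine le_trans ?_ hV.le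
                                have : (A1.filter (fun p => p / (B * R) = V)).card ≤ bc A (B * R) V := by
                                  unfold bc
                                  exact Finset.card_le_card (Finset.filter_subset_filter _ (Finset.filter_subset _ _))
                                exact_mod_cast this
                              · have : A1.filter (fun p => p / (B * R) = V) = ∅ := by
                                  rw [Finset.eq_empty_iff_forall_notMem]
                                  intro p hp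
                                  rw [Finset.mem_filter, hA1, Finset.mem_filter] at hp
                                  rw [hp.2] at hp
                                  exact hV hp.1.2
                                rw [this, Finset.card_empty, Nat.cast_zero]
                                (clear * - hδ hlz0; positivity)
                          _ = δ / 2 * (2 ^ z / lz) := by
                              rw [Finset.sum_const, Finset.card_range, nsmul_eq_mul, ← hNRBr]
                              ring
                      set T : ℕ := 2 ^ ((c - 1) * β) with hT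
                      have hTB : T * B = R := by
                        rw [hT, hB, hR, ← pow_add]
                        congr 1
                        obtain ⟨c', rfl⟩ : ∃ c', c = c' + 1 := ⟨c - 1, by omega⟩
                        simp only [Nat.add_sub_cancel]
                        ring
                      exact by
                        have hTR : T ≤ R := by
                          rw [← hTB]; exact Nat.le_mul_of_pos_right _ hBpos
                        have hcard2 : (A2.card : ℝ) ≤ δ / 4 * (2 ^ z / lz) := by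
                          set bd : Finset ℕ := (range (N * R)).filter (fun j => R - T ≤ j % R) with hbd
                          have h1 : A2.card ≤ ∑ j ∈ bd, bc A B j := by
                            rw [Finset.card_eq_sum_card_fiberwise (f := fun p => p / B) (t := bd)]
                            · apply Finset.sum_le_sum
                              intro j _
                              unfold bc
                              exact Finset.card_le_card (Finset.filter_subset_filter _ (Finset.filter_subset _ _))
                            · intro p hp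
                              exact by
                                rw [Finset.mem_coe, hA2, Finset.mem_filter] at hp
                                rw [Finset.mem_coe, hbd, Finset.mem_filter, Finset.mem_range]
                                show p / B < N * R ∧ R - T ≤ p / B % R
                                obtain ⟨hpA, hp2⟩ := hp
                                constructor
                                · rw [Nat.div_lt_iff_lt_mul hBpos, hNRB]
                                  exact (hA p hpA).2
                                · rw [Nat.mod_mul] at hp2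
                                  have h3 := Nat.mod_lt p hBpos
                                  have h4 : B * R < B * (p / B % R + 1 + T) := by
                                    calc B * R < p % B + B * (p / B % R) + R := hp2
                                      _ < B + B * (p / B % R) + R := by omega
                                      _ = B + B * (p / B % R) + T * B := by rw [hTB]
                                      _ = B * (p / B % R + 1 + T) := by ring
                                  have h5 : R < p / B % R + 1 + T := lt_of_mul_lt_mul_left h4 (Nat.zero_le _)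
                                  omega
                          have h2 : (bd.card : ℝ) ≤ N * T := by exact_mod_cast card_bdry_le N R T hRpos hTR
                          have h3 : (∑ j ∈ bd, (bc A B j : ℝ)) ^ 2 ≤ bd.card * ∑ j ∈ bd, (bc A B j : ℝ) ^ 2 :=
                            sq_sum_le_card_mul_sum_sq
                          have h4 : ∑ j ∈ bd, (bc A B j : ℝ) ^ 2 ≤ C * (2 ^ z / lz ^ 2) * B := by
                            refine le_trans ?_ (hEi i (N * R))
                            apply Finset.sum_le_sum_of_subset_of_nonneg (Finset.filter_subset _ _)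
                            intro j _ _; (clear * -; positivity)
                          have h5 : (A2.card : ℝ) ≤ ∑ j ∈ bd, (bc A B j : ℝ) := by exact_mod_cast h1
                          have h6 : (A2.card : ℝ) ^ 2 ≤ (δ / 4 * (2 ^ z / lz)) ^ 2 := by
                            calc (A2.card : ℝ) ^ 2 ≤ (∑ j ∈ bd, (bc A B j : ℝ)) ^ 2 :=
                                  pow_le_pow_left₀ (by (clear * -; positivity)) h5 2
                              _ ≤ bd.card * ∑ j ∈ bd, (bc A B j : ℝ) ^ 2 := h3
                              _ ≤ (N * T) * (C * (2 ^ z / lz ^ 2) * B) := by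
                                  apply mul_le_mul h2 h4 (Finset.sum_nonneg fun j _ => by (clear * -; positivity)) (by positivity)
                              _ = C * (2 ^ z / lz ^ 2) * (N * (T * B)) := by ring
                              _ = C * (2 ^ z / lz ^ 2) * (N * R) := by
                                  rw [← hTB]; push_cast; ring
                              _ = C / B * (2 ^ z / lz) ^ 2 := by
                                  have : (N : ℝ) * R = 2 ^ z / B := by
                                    rw [eq_div_iff hB0.ne']; exact hNRBr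
                                  rw [this]
                                  (clear * - hBpos hlz0 hC; field_simp)
                              _ ≤ δ ^ 2 / 16 * (2 ^ z / lz) ^ 2 := by
                                  apply mul_le_mul_of_nonneg_right _ (by positivity)
                                  have h7 : (z : ℝ) ≤ B := by
                                    have : z ≤ B := hpow1.trans (Nat.pow_le_pow_right (by norm_num) (hbt0 i))
                                    exact_mod_cast this
                                  have h8 : 16 * C / δ ^ 2 ≤ B := hzC'.trans h7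
                                  rw [div_le_iff₀ (by positivity)] at h8
                                  rw [div_le_div_iff₀ hB0 (by norm_num)]
                                  (clear * - h8; linarith)
                              _ = _ := by ring
                          exact (pow_le_pow_iff_left₀ (by (clear * -; positivity)) (by positivity) two_ne_zero).mp h6
                        have hGcard : δ / 4 * (2 ^ z / lz) ≤ G.card := by
                          have h1 : A.card ≤ G.card + A1.card + A2.card := by
                            refine (Finset.card_le_card hcover).trans ?_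
                            refine (Finset.card_union_le _ _).trans ?_
                            have := Finset.card_union_le G A1
                            omega
                          have h2 : (A.card : ℝ) ≤ G.card + A1.card + A2.card := by exact_mod_cast h1
                          have h3 : δ * (2 ^ z / lz) = δ / 4 * (2 ^ z / lz) + δ / 2 * (2 ^ z / lz) + δ / 4 * (2 ^ z / lz) := by
                            ring
                          (clear * - hcard hcard1 hcard2 h2; linarith)
                        refine ⟨β, hpowM.trans (Nat.pow_le_pow_right (by norm_num) (hbt0 i)), hβz, J, ?_, G,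
                          Finset.filter_subset _ _, hGcard, ?_⟩
                        · rw [← hBr]; exact hJcard
                        · intro p hp j hpj hjp hjJ
                          exact by
                            rw [hG, Finset.mem_filter] at hp
                            obtain ⟨hpA, hp1, hp2⟩ := hp
                            have hpj' : p ≤ j * B := hpj
                            have hjp' : (j + 1) * B ≤ p + R := hjp
                            rw [← hBr]
                            set V := p / (B * R) with hV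
                            have h1 : B * R * V + p % (B * R) = p := Nat.div_add_mod p (B * R)
                            have h2 : V * R ≤ j := by
                              have : V * R * B ≤ j * B := by
                                calc V * R * B = B * R * V := by ring
                                  _ ≤ p := by omega
                                  _ ≤ j * B := hpj'
                              exact le_of_mul_le_mul_right this hBpos
                            have h3 : j + 1 ≤ (V + 1) * R := by
                              have : (j + 1) * B ≤ (V + 1) * R * B := by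
                                calc (j + 1) * B ≤ p + R := hjp'
                                  _ = B * R * V + (p % (B * R) + R) := by omega
                                  _ ≤ B * R * V + B * R := by omega
                                  _ = (V + 1) * R * B := by ring
                              exact le_of_mul_le_mul_right this hBpos
                            have h4 : j / R = V := by
                              apply Nat.div_eq_of_lt_le
                              · exact h2
                              · omega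
                            have h5 : V < N := by
                              rw [hV, Nat.div_lt_iff_lt_mul hBRpos, ← hZNBR]
                              exact (hA p hpA).2
                            have h6 : j < N * R := by
                              calc j < (V + 1) * R := by omega
                                _ ≤ N * R := Nat.mul_le_mul_right _ h5
                            by_contra hne
                            apply hjJ
                            rw [hJ, Finset.mem_filter, Finset.mem_range]
                            refine ⟨h6, ?_, not_le.mp hne⟩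
                            rw [h4]
                            exact hp1

end Pool.Agent.Helper57.FP

end

section

set_option autoImplicit false

open Finset

open scoped BigOperators ComplexConjugate

namespace Pool.Agent.Helper57.NX

noncomputable section

open Pool.Agent.Helper57.FP in
/-- counting version of the tree theorem, fixed shifts -/
theorem tree_fixed (δ : ℝ) (hδ : 0 < δ) (l c M : ℕ) (hc : 1 ≤ c) :
    ∃ τ : ℝ, 0 < τ ∧ ∃ z0 : ℕ, ∀ z : ℕ, z0 ≤ z → ∀ A : Finset ℕ, (∀ p ∈ A, p.Prime ∧ p < 2 ^ z) →
    δ * ((2 : ℝ) ^ z / Real.log ((2 : ℝ) ^ z)) ≤ A.card →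
    ∃ β : ℕ, z ^ M ≤ 2 ^ β ∧ (c + 1) * β ≤ z ∧ ∀ y : Fin l → ℕ, (∀ i, 1 ≤ y i) →
      (∀ i j, i < j → y i + (2 ^ β) ^ 2 < y j) → (∀ i, y i + (2 ^ β) ^ 2 ≤ 2 ^ (c * β)) →
      τ * ((2 : ℝ) ^ z / Real.log ((2 : ℝ) ^ z) ^ (l + 1)) * (((2 : ℝ) ^ β) ^ 2) ^ l ≤
        (#((A ×ˢ (univ : Finset (Fin l → Fin ((2 ^ β) ^ 2)))).filter
          fun pu => ∀ i, pu.1 + y i + (pu.2 i : ℕ) ∈ A) : ℝ) := by
  classical
  choose C hC Z0 hP using pair_bound
  set τ : ℕ → ℝ := fun k => δ / 4 * (δ / 16) ^ k with hτ
  have hτ0 : ∀ k, 0 < τ k := fun k => by simp only [hτ]; (clear * - hδ; positivity)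
  obtain ⟨ε, hε, hεle⟩ := exists_pos_le l (fun k => τ k ^ 2 / 16 / C k)
    (fun k => div_pos (by have := hτ0 k; positivity) (hC k))
  obtain ⟨Zm, hZm⟩ := exists_nat_ge l Z0
  obtain ⟨z1, hz1⟩ := energy_main δ ε hδ hε c (max M (l + 1)) hc
  refine ⟨τ l, hτ0 l, max (max z1 Zm) 2, ?_⟩
  intro z hz A hA hcard
  have hzz1 : z1 ≤ z := (le_max_left _ _).trans ((le_max_left _ _).trans hz)
  have hzZm : Zm ≤ z := (le_max_right _ _).trans ((le_max_left _ _).trans hz)
  have hz2 : 2 ≤ z := (le_max_right _ _).trans hz
  obtain ⟨β, hβ0, hβ2, J, hJ, G, hGA, hG, hgood⟩ := hz1 z hzz1 A hA hcard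
  have hβ1 : z ^ (l + 1) ≤ 2 ^ β :=
    (Nat.pow_le_pow_right (by omega) (le_max_right _ _)).trans hβ0
  have hβM : z ^ M ≤ 2 ^ β :=
    (Nat.pow_le_pow_right (by omega) (le_max_left _ _)).trans hβ0
  have hzβ : z ≤ 2 ^ β := by
    refine le_trans ?_ hβ1
    calc z = z ^ 1 := (pow_one z).symm
      _ ≤ z ^ (l + 1) := Nat.pow_le_pow_right (by omega) (by omega)
  refine ⟨β, hβM, hβ2, ?_⟩
  intro y hy1 hy2 hy3
  set s : ℕ → ℕ → ℕ := fun i x => if h : i < l then max (x + 1) (y ⟨i, h⟩) else x + 1 with hsdef
  have hs : ∀ i x, x < s i x := by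
    intro i x
    simp only [hsdef]
    split_ifs with h
    · exact lt_of_lt_of_le (Nat.lt_succ_self x) (le_max_left _ _)
    · exact Nat.lt_succ_self x
  have hsv : ∀ (i : ℕ) (hi : i < l) (x : ℕ), x < y ⟨i, hi⟩ → s i x = y ⟨i, hi⟩ := by
    intro i hi x hx
    simp only [hsdef, hi, dif_pos]
    exact max_eq_right (by omega)
  have hXlt : ∀ (u : Fin l → Fin ((2 ^ β) ^ 2)) (i : ℕ) (hi : i < l), X s u i < y ⟨i, hi⟩ := by
    intro u i
    induction i with
    | zero =>
      intro hi
      rw [X_zero]
      exact hy1 _
    | succ i ih =>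
      intro hi
      have hil : i < l := by omega
      have h1 := ih hil
      rw [X_succ s u hil]
      rw [hsv i hil _ h1]
      have h3 := hy2 ⟨i, hil⟩ ⟨i + 1, hi⟩ (by simp)
      have h4 := (u ⟨i, hil⟩).2
      omega
  have hsX : ∀ (u : Fin l → Fin ((2 ^ β) ^ 2)) (i : ℕ) (hi : i < l),
      s i (X s u i) = y ⟨i, hi⟩ := by
    intro u i hi
    exact hsv i hi _ (hXlt u i hi)
  have hS : ∀ i < l, ∀ u : Fin l → Fin ((2 ^ β) ^ 2),
      s i (X s u i) + (2 ^ β) ^ 2 ≤ 2 ^ (c * β) := by
    intro i hi u
    rw [hsX u i hi]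
    exact hy3 _
  set B : ℕ := 2 ^ β with hB
  have hB2 : 2 ≤ B := hz2.trans hzβ
  have hBr : (B : ℝ) = (2 : ℝ) ^ β := by rw [hB]; push_cast; rfl
  set Z : ℕ := 2 ^ z with hZ
  have hZr : (Z : ℝ) = (2 : ℝ) ^ z := by rw [hZ]; push_cast; rfl
  set lz : ℝ := Real.log Z with hlz
  have hlz' : Real.log ((2 : ℝ) ^ z) = lz := by rw [hlz, hZr]
  have hlzeq : lz = z * Real.log 2 := by rw [← hlz', Real.log_pow]
  have hlog2 : 0 < Real.log 2 := Real.log_pos (by norm_num)
  have hlog2' : Real.log 2 ≤ 1 := by
    have := Real.log_two_lt_d9; (clear * - hlog2 this; linarith)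
  have hz0' : (0 : ℝ) < z := by exact_mod_cast (by omega : 0 < z)
  have hlz0 : 0 < lz := by rw [hlzeq]; positivity
  have hlzz : lz ≤ z := by rw [hlzeq]; (clear * - hlog2'; nlinarith)
  rw [hlz', ← hZr] at hG
  rw [← hZr, ← hBr] at hJ
  have hcβz : c * β ≤ z := by
    have : (c + 1) * β = c * β + β := Nat.succ_mul c β
    omega
  -- all shifts are small
  have hL2 : 2 ^ z ≤ 2 ^ (B ^ 2) := by
    apply Nat.pow_le_pow_right (by norm_num)
    (clear * - hz2 hzβ; nlinarith)
  have hsmall : ∀ i < l, ∀ u : Fin l → Fin (B ^ 2), s i (X s u i) ≤ 2 ^ (B ^ 2) := by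
    intro i hi u
    have h1 := hS i hi u
    have h2 : 2 ^ (c * β) ≤ 2 ^ z := Nat.pow_le_pow_right (by norm_num) hcβz
    omega
  have hsmall' : ∀ i < l, ∀ u : Fin l → Fin (B ^ 2), X s u i ≤ 2 ^ (B ^ 2) := fun i hi u =>
    ((hs i (X s u i)).le).trans (hsmall i hi u)
  have hmain : ∀ k ≤ l, τ k * (Z / lz ^ (k + 1)) * ((B ^ 2 : ℕ) : ℝ) ^ l ≤
      (FP.TG G A l (B ^ 2) k s).card := by
    intro k
    induction k with
    | zero =>
      intro _
      have h1 : FP.TG G A l (B ^ 2) 0 s = G ×ˢ univ := by
        ext c
        rw [FP.mem_TG, Finset.mem_product]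
        constructor
        · rintro ⟨h, _⟩; exact ⟨h, Finset.mem_univ _⟩
        · rintro ⟨h, _⟩
          refine ⟨h, fun i hi => ?_⟩
          have : i = 0 := by omega
          subst this
          rw [X_zero, add_zero]
          exact hGA h
      rw [h1, Finset.card_product, Finset.card_univ, Fintype.card_fun, Fintype.card_fin,
        Fintype.card_fin]
      simp only [hτ, pow_zero, mul_one, zero_add, pow_one]
      push_cast
      have h2 : (0 : ℝ) ≤ ((B : ℝ) ^ 2) ^ l := by (clear * -; positivity)
      exact mul_le_mul_of_nonneg_right hG h2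
    | succ k ih =>
      intro hk
      have hkl : k < l := by omega
      have h1 := step (G := G) (A := A) (J := J) (l := l) (B := B) (k := k) (Z := Z)
        (S := 2 ^ (c * β)) (s := s) hkl hB2 (δ := δ) (ε := ε) (lz := lz) (τ := τ k) (C := C k)
        hδ hε hlz0 (hτ0 k) (hC k) (by positivity)
        (by
          have := hεle k hkl
          rwa [le_div_iff₀ (hC k)] at this) hA hGA hJ
        (by
          intro p hp j h1 h2 h3
          have := hgood p hp j h1 h2 h3
          rw [hlz', ← hBr] at this
          exact this)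
        (hS k hkl)
        (by
          apply hP k Z ((hZm k hkl).trans (hzZm.trans Nat.lt_two_pow_self.le)) l (B ^ 2) s hkl.le
          · calc lz ^ (2 * k + 2) ≤ (z : ℝ) ^ (2 * k + 2) := by (clear * - hlz0 hlzz; gcongr)
              _ ≤ (z : ℝ) ^ (2 * (l + 1)) := by
                  apply pow_le_pow_right₀
                  · exact_mod_cast (by omega : 1 ≤ z)
                  · omega
              _ = ((z : ℝ) ^ (l + 1)) ^ 2 := by rw [mul_comm, pow_mul]
              _ ≤ (B : ℝ) ^ 2 := by
                  have : (z : ℝ) ^ (l + 1) ≤ B := by exact_mod_cast hβ1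
                  (clear * - hz2 this; gcongr)
              _ = ((B ^ 2 : ℕ) : ℝ) := by push_cast; rfl
          · exact hs
          · intro u i hi
            exact hsmall' i (by omega) u
          · exact hsmall k hkl)
        (ih hkl.le)
      have h2 : τ (k + 1) = δ / 16 * τ k := by simp only [hτ]; ring
      rw [h2]
      exact h1
  have h1 := hmain l le_rfl
  rw [hlz', ← hZr, ← hBr]
  have h2 : ((B ^ 2 : ℕ) : ℝ) ^ l = ((B : ℝ) ^ 2) ^ l := by push_cast; rfl
  rw [h2] at h1
  refine h1.trans ?_
  have h3 : FP.TG G A l (B ^ 2) l s ⊆ (A ×ˢ (univ : Finset (Fin l → Fin (B ^ 2)))).filter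
      fun pu => ∀ i, pu.1 + y i + (pu.2 i : ℕ) ∈ A := by
    intro pu hpu
    rw [FP.mem_TG] at hpu
    rw [Finset.mem_filter, Finset.mem_product]
    refine ⟨⟨hGA hpu.1, Finset.mem_univ _⟩, fun i => ?_⟩
    have h4 := hpu.2 (i + 1) i.2
    rw [X_succ s pu.2 i.2, hsX pu.2 i i.2, ← add_assoc] at h4
    exact h4
  exact_mod_cast Finset.card_le_card h3

end

end Pool.Agent.Helper57.NX

end
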