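import Pool.Agent.Helper23.MC.L01_a0
import Pool.Agent.Helper23.MC.L01_a1
import Pool.Agent.Helper23.MC.L01_a12
import Pool.Agent.Helper23.MC.L01_a13
import Pool.Agent.Helper23.MC.L01_a2
import Pool.Agent.Helper23.MC.L01_a4
import Pool.Agent.Helper23.MC.L01_a7
import Pool.Agent.Helper23.MC.L01_a8

/-!
Parts of Helper5.NX.Basic, Helper72.NX.DlBase, Helper72.NX.DlTotalAux, Helper87.NX.DlA, Helper88.NX.DlB, Helper72.NX.DlTotal, Helper82.NX2.Fib, Helper15.NX2.DaggerOf, Helper72.NX2.DlA, Helper21.NX2.ZeroAux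
-/

attribute [local instance 5000]
  Pool.Agent.Helper23.MC.Inst.rCharZero Pool.Agent.Helper23.MC.Inst.rALM
  Pool.Agent.Helper23.MC.Inst.rARM Pool.Agent.Helper23.MC.Inst.rALSM
  Pool.Agent.Helper23.MC.Inst.rARSM Pool.Agent.Helper23.MC.Inst.rARRLE
  Pool.Agent.Helper23.MC.Inst.rALRLE Pool.Agent.Helper23.MC.Inst.rARRLT
  Pool.Agent.Helper23.MC.Inst.rALRLT Pool.Agent.Helper23.MC.Inst.rPMRLT
  Pool.Agent.Helper23.MC.Inst.rMPRLT Pool.Agent.Helper23.MC.Inst.rPMM
  Pool.Agent.Helper23.MC.Inst.rMPM Pool.Agent.Helper23.MC.Inst.rPMSM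
  Pool.Agent.Helper23.MC.Inst.rMPSM Pool.Agent.Helper23.MC.Inst.rEAOL
  Pool.Agent.Helper23.MC.Inst.rIOR Pool.Agent.Helper23.MC.Inst.rISOR
  Pool.Agent.Helper23.MC.Inst.rNZD Pool.Agent.Helper23.MC.Inst.rcCharZero
  Pool.Agent.Helper23.MC.Inst.rcNZD Pool.Agent.Helper23.MC.Inst.zCharZero
  Pool.Agent.Helper23.MC.Inst.zALM Pool.Agent.Helper23.MC.Inst.zARM
  Pool.Agent.Helper23.MC.Inst.zALSM Pool.Agent.Helper23.MC.Inst.zARSM
  Pool.Agent.Helper23.MC.Inst.zIOR Pool.Agent.Helper23.MC.Inst.zISOR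
  Pool.Agent.Helper23.MC.Inst.zNZD Pool.Agent.Helper23.MC.Inst.qCharZero
  Pool.Agent.Helper23.MC.Inst.mR Pool.Agent.Helper23.MC.Inst.mC Pool.Agent.Helper23.MC.Inst.mRC
  Pool.Agent.Helper23.MC.Inst.rPSM Pool.Agent.Helper23.MC.Inst.rCSM
  Pool.Agent.Helper23.MC.Inst.cAdd Pool.Agent.Helper23.MC.Inst.cAddM
  Pool.Agent.Helper23.MC.Inst.cMul Pool.Agent.Helper23.MC.Inst.cMon

namespace Pool.Agent.Helper57.NX
end Pool.Agent.Helper57.NX

section

set_option autoImplicit false

open Finset

open scoped BigOperators ComplexConjugate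

namespace Pool.Agent.Helper57.NX

noncomputable section

section Basic

variable {N : ℕ} [NeZero N]

theorem Adm.cub {B X : ℝ} (hX : 0 < X) {f : ZMod N → ℂ} (h : Adm B X f) (k : ℕ) (a b : Fin k → ℕ) :
    Adm (2 ^ k * B) X (cube f a b) := by
  have h1 : ∀ ω ∈ (univ : Finset (Fin k → Bool)),
      Adm B X (fun x => cjj ω (f (x + (tot (sel ω a b) : ZMod N)))) := by
    intro ω _
    unfold cjj
    split_ifs
    · exact h.shift _
    · exact (h.shift _).cnj
  have h2 := Adm.prod univ hX h1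
  have h3 : ∑ _ω : Fin k → Bool, B = 2 ^ k * B := by
    rw [sum_const, card_univ, Fintype.card_pi, nsmul_eq_mul]
    simp
  rw [h3] at h2
  exact h2

end Basic

end

end Pool.Agent.Helper57.NX

end

section

set_option autoImplicit false

open Finset

open scoped BigOperators ComplexConjugate

namespace Pool.Agent.Helper57.NX

noncomputable section

theorem h72_base (n : ℕ) {N : ℕ} [NeZero N] (u : ZMod N → ℂ) (δ Y : ℝ) (X : ℕ) (hδ0 : 0 < δ)
    (hδ1 : δ ≤ 1 / 2) (hu : Adm (δ⁻¹ ^ n) Y u) (hY : 1 ≤ Y) (hYX : Y ≤ X)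
    (hXN : (X : ℝ) ≤ δ ^ (n + 3) * N) (hB : δ ^ n ≤ Box 2 X u) :
    ∃ (r' : ZMod N) (cc : ℕ → ℂ) (φ : ℕ → ℝ),
      (∀ j, ‖cc j‖ ≤ 1) ∧ (∀ j, |φ j| ≤ δ⁻¹ ^ (2 * n + 4) / Y) ∧
      δ ^ (n + 4) ≤ ‖𝔼 x, u x * bphase X r' cc φ x‖ := by
  have hX1R : (1 : ℝ) ≤ X := le_trans hY hYX
  have hX1 : 1 ≤ X := by exact_mod_cast hX1R
  have hX0 : (0 : ℝ) < X := by (clear * - hδ0 hδ1 hY hYX; linarith)
  have hN0 : (0 : ℝ) < N := by
    have : N ≠ 0 := NeZero.ne N
    exact_mod_cast Nat.pos_of_ne_zero this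
  have hδle1 : δ ≤ 1 := by (clear * - hδ0 hδ1; linarith)
  have hδinv : 2 ≤ δ⁻¹ := by
    rw [le_inv_comm₀ (by norm_num) hδ0]
    (clear * - hδ1; linarith)
  exact by
    have hpn : 0 < δ ^ n := pow_pos hδ0 n
    have hpn1 : δ ^ n ≤ 1 := pow_le_one₀ hδ0.le hδle1
    have h3 : δ ^ 3 ≤ 1 / 8 := by
      have := pow_le_pow_left₀ hδ0.le hδ1 3
      norm_num at this ⊢
      (clear * - this; linarith)
    have hXN4 : (X : ℝ) ≤ δ ^ n / 8 * N := by
      refine le_trans hXN ?_
      rw [pow_add]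
      have : δ ^ n * δ ^ 3 ≤ δ ^ n / 8 := by (clear * - hδ0 hδ1 hpn h3; nlinarith)
      exact mul_le_mul_of_nonneg_right this hN0.le
    have hXN8 : (X : ℝ) ≤ N / 8 := by
      refine le_trans hXN4 ?_
      have : δ ^ n / 8 * N ≤ 1 / 8 * N := mul_le_mul_of_nonneg_right (by (clear * - hpn1; linarith)) hN0.le
      (clear * - this; linarith)
    have hXNn : X ≤ N := by
      have : (X : ℝ) ≤ N := by (clear * - hδ0 hδ1 hY hYX hXN8; linarith)
      exact_mod_cast this
    exact by
      obtain ⟨r, θ, hθ, hU⟩ := u2_block (N := N) (κ := Unit) {()} (singleton_nonempty _)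
        (fun _ => u) (fun _ x => hu.bdd x) X hX1 hXNn
      rw [expect_singleton, expect_singleton, ← h72_box_two] at hU
      set S : ℕ → ℂ := fun j => 𝔼 t ∈ range X,
        u (r + ((j * X + t : ℕ) : ZMod N)) * e (-(θ () j * t)) with hS
      set K : ℕ := N / X with hK
      have hKX : (N : ℝ) / 2 ≤ K * X := by
        have h1 : N < (N / X + 1) * X := by
          have := Nat.lt_div_mul_add (a := N) (b := X) (by omega)
          rw [Nat.add_mul, Nat.one_mul]
          exact this
        have h2 : (N : ℝ) < (K + 1) * X := by exact_mod_cast h1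
        (clear * - hδ0 hδ1 hY hYX hXN8 h2; nlinarith)
      have hK0 : (0 : ℝ) < K := by
        by_contra hcon
        have : (K : ℝ) ≤ 0 := not_lt.mp hcon
        (clear * - hδ0 hδ1 hY hYX hXN8 hKX hcon; nlinarith)
      have hKX2 : (K : ℝ) * X ≤ N := by exact_mod_cast Nat.div_mul_le_self N X
      set E : ℝ := 𝔼 j ∈ range K, ‖S j‖ with hE
      exact by
        have hElow : 3 * δ ^ n / 8 ≤ E := by
          have h1 : δ ^ n ≤ 2 * E + 2 * X / N := le_trans hB hU
          have h2 : 2 * (X : ℝ) / N ≤ δ ^ n / 4 := by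
            rw [div_le_iff₀ hN0]
            (clear * - hXN4; linarith)
          (clear * - hB hU h2; linarith)
        set τ : ℝ := δ ^ n / 8 with hτ
        have hτ0 : 0 < τ := by positivity
        choose w hw1 hw2 using fun j => h72_unimod (S j)
        classical
        set cc : ℕ → ℂ := fun j => if j < K ∧ τ ≤ ‖S j‖ then w j * e (θ () j * (j * X : ℕ)) else 0
          with hcc
        exact by
          set φ : ℕ → ℝ := fun j => if j < K ∧ τ ≤ ‖S j‖ then -(θ () j) else 0 with hφ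
          refine ⟨r, cc, φ, ?_, ?_, ?_⟩
          · intro j
            simp only [hcc]
            split_ifs with h
            · rw [norm_mul, norm_e, mul_one]; exact hw1 j
            · simp
          · intro j
            exact by
              simp only [hφ]
              split_ifs with h
              · rw [abs_neg]
                exact by
                  by_cases hz : θ () j = 0
                  · rw [hz, abs_zero]
                    (clear * - hδ0 hY; positivity)
                  · have hpos : 0 < |θ () j| := abs_pos.mpr hz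
                    exact by
                      have hf := freq_bound (fun x => hu.bdd x) (r + ((j * X : ℕ) : ZMod N)) X hX1 (θ () j)
                        hpos (hθ () j)
                      have hSj : S j = 𝔼 t ∈ range X,
                          u (r + ((j * X : ℕ) : ZMod N) + (t : ZMod N)) * e (-(θ () j * t)) := by
                        simp only [hS]
                        refine expect_congr rfl fun t _ => ?_
                        congr 2
                        push_cast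
                        ring
                      rw [← hSj] at hf
                      have htv := hu.tv (r + ((j * X : ℕ) : ZMod N)) X
                      have hB1 : 1 ≤ δ⁻¹ ^ n := one_le_pow₀ (by (clear * - hδinv; linarith))
                      have hY0 : 0 < Y := by (clear * - hY; linarith)
                      have h4 : τ ≤ (2 + δ⁻¹ ^ n * (X / Y + 1)) / (4 * |θ () j| * X) := by
                        refine le_trans h.2 (le_trans hf ?_)
                        refine div_le_div_of_nonneg_right ?_ (by (clear * - hz hX1; positivity))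
                        (clear * - htv; linarith)
                      rw [le_div_iff₀ (by (clear * - hz hX1; positivity))] at h4
                      -- multiply out
                      have h5 : |θ () j| * (4 * τ * X) ≤ 4 * δ⁻¹ ^ n * (X / Y) := by
                        have hXY : 1 ≤ (X : ℝ) / Y := by rw [le_div_iff₀ hY0]; (clear * - hYX; linarith)
                        have : 2 + δ⁻¹ ^ n * (X / Y + 1) ≤ 4 * δ⁻¹ ^ n * (X / Y) := by
                          have e1 : (2 : ℝ) ≤ 2 * (δ⁻¹ ^ n * (X / Y)) := by (clear * - hB1 hXY hpn1 hτ hτ0; nlinarith)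
                          have e2 : δ⁻¹ ^ n * (X / Y + 1) ≤ 2 * (δ⁻¹ ^ n * (X / Y)) := by (clear * - hXY hB1; nlinarith)
                          (clear * - e1 e2; linarith)
                        (clear * - h4 this; nlinarith)
                      have h6 : |θ () j| ≤ δ⁻¹ ^ n / (τ * Y) := by
                        rw [le_div_iff₀ (by positivity)]
                        have h7 : |θ () j| * (4 * τ * X) * (Y / (4 * X)) ≤
                            4 * δ⁻¹ ^ n * (X / Y) * (Y / (4 * X)) :=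
                          mul_le_mul_of_nonneg_right h5 (by positivity)
                        have h8 : |θ () j| * (4 * τ * X) * (Y / (4 * X)) = |θ () j| * (τ * Y) := by
                          (clear * - hX1 hY hτ0 hz; field_simp)
                        have h9 : 4 * δ⁻¹ ^ n * (X / Y) * (Y / (4 * X)) = δ⁻¹ ^ n := by
                          (clear * - hX1 hY hδ0; field_simp)
                        rw [h8, h9] at h7
                        exact h7
                      exact by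
                        refine le_trans h6 ?_
                        have h10 : δ⁻¹ ^ n / (τ * Y) = (8 * δ⁻¹ ^ (2 * n)) / Y := by
                          rw [hτ, two_mul, pow_add, inv_pow]
                          field_simp
                        rw [h10]
                        refine div_le_div_of_nonneg_right ?_ hY0.le
                        have h11 : (8 : ℝ) ≤ δ⁻¹ ^ 4 := by
                          have := pow_le_pow_left₀ (by norm_num) hδinv 4
                          norm_num at this ⊢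
                          (clear * - this; linarith)
                        rw [pow_add]
                        have : 0 < δ⁻¹ ^ (2 * n) := by positivity
                        (clear * - hpn1 hτ hτ0 h11 this; nlinarith)
              · rw [abs_zero]
                have : 0 < Y := by (clear * - hY; linarith)
                positivity
          · -- the lower bound
            have hval : ∀ v, v < N → ((r + (v : ZMod N)) - r).val = v := by
              intro v hv
              rw [add_sub_cancel_left]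
              exact ZMod.val_natCast_of_lt hv
            exact by
              have hzero : ∀ v, K * X ≤ v → v < N →
                  u (r + (v : ZMod N)) * bphase X r cc φ (r + (v : ZMod N)) = 0 := by
                intro v hv1 hv2
                unfold bphase
                rw [hval v hv2]
                have : ¬ (v / X < K ∧ τ ≤ ‖S (v / X)‖) := by
                  rintro ⟨h, _⟩
                  have := (Nat.le_div_iff_mul_le (by (clear * - N hX1 v; omega) : 0 < X)).mpr hv1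
                  omega
                simp only [hcc]
                rw [if_neg this]
                simp
              rw [h72_expect_blocks r X (fun x => u x * bphase X r cc φ x) hzero]
              have hblk : ∀ j ∈ range K, ∑ t ∈ range X, u (r + ((j * X + t : ℕ) : ZMod N)) *
                  bphase X r cc φ (r + ((j * X + t : ℕ) : ZMod N)) =
                  ((if τ ≤ ‖S j‖ then X * ‖S j‖ else 0 : ℝ) : ℂ) := by
                intro j hj
                rw [mem_range] at hj
                have hlt : ∀ t ∈ range X, j * X + t < N := by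
                  intro t ht
                  rw [mem_range] at ht
                  calc j * X + t < j * X + X := by omega
                    _ = (j + 1) * X := by ring
                    _ ≤ K * X := Nat.mul_le_mul_right X (by omega)
                    _ ≤ N := Nat.div_mul_le_self N X
                have hdiv : ∀ t ∈ range X, (j * X + t) / X = j := by
                  intro t ht
                  rw [mem_range] at ht
                  rw [mul_comm, Nat.mul_add_div (by omega), Nat.div_eq_of_lt ht, Nat.add_zero]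
                by_cases hg : τ ≤ ‖S j‖
                · rw [if_pos hg]
                  exact by
                    have hterm : ∀ t ∈ range X, u (r + ((j * X + t : ℕ) : ZMod N)) *
                        bphase X r cc φ (r + ((j * X + t : ℕ) : ZMod N)) =
                        w j * (u (r + ((j * X + t : ℕ) : ZMod N)) * e (-(θ () j * t))) := by
                      intro t ht
                      unfold bphase
                      rw [hval _ (hlt t ht), hdiv t ht]
                      simp only [hcc, hφ]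
                      rw [if_pos ⟨hj, hg⟩, if_pos ⟨hj, hg⟩]
                      have : e (θ () j * (j * X : ℕ)) * e (-(θ () j) * ((j * X + t : ℕ) : ℝ)) =
                          e (-(θ () j * t)) := by
                        rw [← e_add]
                        congr 1
                        push_cast
                        ring
                      calc _ = w j * (u (r + ((j * X + t : ℕ) : ZMod N)) *
                          (e (θ () j * (j * X : ℕ)) * e (-(θ () j) * ((j * X + t : ℕ) : ℝ)))) := by ring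
                        _ = _ := by rw [this]
                    rw [sum_congr rfl hterm, ← mul_sum]
                    have hSsum : ∑ t ∈ range X, u (r + ((j * X + t : ℕ) : ZMod N)) * e (-(θ () j * t)) =
                        (X : ℂ) * S j := by
                      simp only [hS]
                      rw [expect_eq_sum_div_card, card_range]
                      have : (X : ℂ) ≠ 0 := by exact_mod_cast (by omega : X ≠ 0)
                      (clear * - this; field_simp)
                    rw [hSsum]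
                    calc w j * ((X : ℂ) * S j) = X * (w j * S j) := by ring
                      _ = X * (‖S j‖ : ℂ) := by rw [hw2 j]
                      _ = _ := by push_cast; ring
                · rw [if_neg hg]
                  rw [Complex.ofReal_zero]
                  refine sum_eq_zero fun t ht => ?_
                  unfold bphase
                  rw [hval _ (hlt t ht), hdiv t ht]
                  simp only [hcc]
                  rw [if_neg (fun h => hg h.2)]
                  simp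
              rw [sum_congr rfl hblk, ← Complex.ofReal_sum]
              have hnorm : ‖(1 / (N : ℂ)) * ((∑ j ∈ range K, (if τ ≤ ‖S j‖ then X * ‖S j‖ else 0) : ℝ) : ℂ)‖
                  = (1 / N) * ∑ j ∈ range K, (if τ ≤ ‖S j‖ then X * ‖S j‖ else 0) := by
                rw [norm_mul, norm_div, norm_one, Complex.norm_natCast, Complex.norm_real, Real.norm_eq_abs,
                  abs_of_nonneg]
                refine sum_nonneg fun j _ => ?_
                split_ifs
                · (clear * - hX1; positivity)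
                · exact le_rfl
              rw [hnorm]
              have hsum : (X : ℝ) * (K * E - K * τ) ≤
                  ∑ j ∈ range K, (if τ ≤ ‖S j‖ then X * ‖S j‖ else 0) := by
                have h1 : (K : ℝ) * E = ∑ j ∈ range K, ‖S j‖ := by
                  rw [hE, expect_eq_sum_div_card, card_range]
                  (clear * - hK0; field_simp)
                have h2 : (K : ℝ) * τ = ∑ j ∈ range K, τ := by
                  rw [sum_const, card_range, nsmul_eq_mul]
                rw [h1, h2, ← sum_sub_distrib, mul_sum]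
                refine sum_le_sum fun j _ => ?_
                split_ifs with h
                · (clear * - hpn hτ; nlinarith)
                · (clear * - h; nlinarith [not_le.mp h])
              have h16 : δ ^ (n + 4) ≤ δ ^ n / 16 := by
                rw [pow_add]
                have : δ ^ 4 ≤ 1 / 16 := by
                  have := pow_le_pow_left₀ hδ0.le hδ1 4
                  norm_num at this ⊢
                  (clear * - this; linarith)
                (clear * - hδ0 hδ1 hpn this; nlinarith)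
              calc δ ^ (n + 4) ≤ δ ^ n / 16 := h16
                _ ≤ (1 / N) * (X * (K * E - K * τ)) := by
                  rw [one_div, ← div_eq_inv_mul, le_div_iff₀ hN0]
                  have h1 : δ ^ n / 4 ≤ E - τ := by rw [hτ]; (clear * - hElow; linarith)
                  have h2 : (N : ℝ) / 2 * (δ ^ n / 4) ≤ (K * X) * (E - τ) :=
                    mul_le_mul hKX h1 (by positivity) (by (clear * - hK0 hX1; positivity))
                  (clear * - h2 hpn; nlinarith)
                _ ≤ _ := mul_le_mul_of_nonneg_left hsum (by positivity)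

end

end Pool.Agent.Helper57.NX

end

section

set_option autoImplicit false

open Finset

open scoped BigOperators ComplexConjugate

namespace Pool.Agent.Helper57.NX

noncomputable section

theorem h72_total (hL : ∀ k, 1 ≤ k → H72Low k) (Γ : ℕ → ℕ) (r : ℕ) : ∀ n : ℕ, ∃ n4 : ℕ,
    ∀ (N : ℕ) [NeZero N] (ι : Type) (Ω : Finset ι) (F : ι → ZMod N → ℂ) (κ u : ZMod N → ℂ)
      (δ Y : ℝ) (X : ℕ), DLData Ω F κ u → 0 < δ → δ ≤ 1 / 2 → Adm (δ⁻¹ ^ n) Y u →
      1 ≤ Y → Y ≤ δ ^ n4 * X → (X : ℝ) ≤ δ ^ n4 * N → δ ^ n ≤ Box (r + 2) X u →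
      (∀ k ≤ r, ∀ n2 ≤ n4, ∀ X2 X' : ℕ, δ ^ n4 * X ≤ X2 → X2 ≤ X → 1 ≤ X' → X' ≤ X2 →
        LPh Ω F k X' X2 (δ⁻¹ ^ n2 / Y) (δ⁻¹ ^ (Γ n2) / X2) (δ ^ n2)) →
      ∃ X2 : ℕ, δ ^ n4 * X ≤ X2 ∧ X2 ≤ X ∧ ∃ (r' : ZMod N) (cc : ℕ → ℂ) (φ : ℕ → ℝ),
        (∀ j, ‖cc j‖ ≤ 1) ∧ (∀ j, |φ j| ≤ δ⁻¹ ^ n4 / Y) ∧
        δ ^ n4 ≤ ‖𝔼 x, u x * bphase X2 r' cc φ x‖ := by
  induction r with
  | zero =>
    intro n
    refine ⟨2 * n + 4, ?_⟩
    intro N _ ι Ω F κ u δ Y X _ hδ0 hδ1 hu hY hYX hXN hB _
    have hX0 : (0 : ℝ) ≤ X := Nat.cast_nonneg X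
    have hN0 : (0 : ℝ) ≤ N := Nat.cast_nonneg N
    have hle1 : ∀ a : ℕ, δ ^ a ≤ 1 := fun a => pow_le_one₀ hδ0.le (by (clear * - hδ0 hδ1; linarith))
    have hYX' : Y ≤ X := le_trans hYX (by (clear * - hle1; nlinarith [hle1 (2 * n + 4)]))
    obtain ⟨r', cc, φ, h1, h2, h3⟩ := h72_base n u δ Y X hδ0 hδ1 hu hY hYX'
      (le_trans hXN (mul_le_mul_of_nonneg_right (h72_pow_anti hδ0 hδ1 (by omega)) hN0)) hB
    refine ⟨X, by (clear * - hle1; nlinarith [hle1 (2 * n + 4)]), le_rfl, r', cc, φ, h1, h2, ?_⟩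
    exact le_trans (h72_pow_anti hδ0 hδ1 (by omega)) h3
  | succ r ih =>
    intro n
    obtain ⟨n2, n3, hlow⟩ := hL (r + 1) (by omega) Γ n
    obtain ⟨n4, hn4⟩ := ih (max n n3)
    refine ⟨n4 + n3 + 1 + n2, ?_⟩
    intro N _ ι Ω F κ u δ Y X hD hδ0 hδ1 hu hY hYX hXN hB hLP
    have hX0 : (0 : ℝ) ≤ X := Nat.cast_nonneg X
    have hN0 : (0 : ℝ) ≤ N := Nat.cast_nonneg N
    have hle1 : ∀ a : ℕ, δ ^ a ≤ 1 := fun a => pow_le_one₀ hδ0.le (by (clear * - hδ0 hδ1; linarith))
    have hpos : ∀ a : ℕ, 0 < δ ^ a := fun a => pow_pos hδ0 a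
    have hY0 : 0 < Y := by linarith
    exact by
      have hYX' : Y ≤ X := le_trans hYX (by (clear * - hle1; nlinarith [hle1 (n4 + n3 + 1 + n2)]))
      -- the new length
      have h1 : 1 ≤ δ ^ n3 * X := by
        refine le_trans hY (le_trans hYX ?_)
        exact mul_le_mul_of_nonneg_right (h72_pow_anti hδ0 hδ1 (by omega)) hX0
      set X' : ℕ := ⌊δ ^ n3 * X⌋₊ with hX'
      have hX'1 : 1 ≤ X' := Nat.one_le_floor_iff _ |>.mpr h1
      have hX'le : (X' : ℝ) ≤ δ ^ n3 * X := Nat.floor_le (by (clear * - h1; positivity))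
      have hX'ge : δ ^ (n3 + 1) * X ≤ X' := by
        have h2 : δ ^ n3 * X < X' + 1 := Nat.lt_floor_add_one _
        have h3 : (1 : ℝ) ≤ X' := by exact_mod_cast hX'1
        have h4 : δ ^ (n3 + 1) * X ≤ (δ ^ n3 * X) / 2 := by
          rw [pow_succ]
          have : δ ^ n3 * δ * X = (δ ^ n3 * X) * δ := by ring
          rw [this]
          (clear * - hδ1 h1; nlinarith)
        (clear * - h2 h3 h4; linarith)
      exact by
        have hX'X : X' ≤ X := by
          have : (X' : ℝ) ≤ X := le_trans hX'le (by (clear * - hle1; nlinarith [hle1 n3]))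
          exact_mod_cast this
        have hXN3 : (X : ℝ) ≤ δ ^ n3 * N :=
          le_trans hXN (mul_le_mul_of_nonneg_right (h72_pow_anti hδ0 hδ1 (by omega)) hN0)
        have hbox : δ ^ n3 ≤ Box (r + 2) X' u := by
          refine hlow N ι Ω F κ u δ Y X X' hD hδ0 hδ1 hu hY hYX' hXN3 hB hX'1 hX'le ?_
          refine hLP (r + 1) le_rfl n2 (by omega) X X' ?_ le_rfl hX'1 hX'X
          (clear * - hle1; nlinarith [hle1 (n4 + n3 + 1 + n2)])
        -- the inductive hypothesis at the scale `X'`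
        have hu' : Adm (δ⁻¹ ^ max n n3) Y u :=
          hu.mono (h72_ipow_mono hδ0 hδ1 (le_max_left _ _)) hY0 le_rfl
        have hbox' : δ ^ max n n3 ≤ Box (r + 2) X' u :=
          le_trans (h72_pow_anti hδ0 hδ1 (le_max_right _ _)) hbox
        have hX'4 : δ ^ (n4 + n3 + 1 + n2) * X ≤ δ ^ n4 * X' := by
          have e1 : δ ^ (n4 + n3 + 1 + n2) * X ≤ δ ^ (n4 + (n3 + 1)) * X :=
            mul_le_mul_of_nonneg_right (h72_pow_anti hδ0 hδ1 (by omega)) hX0
          refine le_trans e1 ?_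
          rw [pow_add, mul_assoc]
          exact mul_le_mul_of_nonneg_left hX'ge (hpos n4).le
        exact by
          have hYX'' : Y ≤ δ ^ n4 * X' := le_trans hYX hX'4
          have hX'N : (X' : ℝ) ≤ δ ^ n4 * N := by
            refine le_trans (by exact_mod_cast hX'X : (X' : ℝ) ≤ X) (le_trans hXN ?_)
            exact mul_le_mul_of_nonneg_right (h72_pow_anti hδ0 hδ1 (by omega)) hN0
          obtain ⟨X2, hX2a, hX2b, r', cc, φ, hc1, hc2, hc3⟩ := hn4 N ι Ω F κ u δ Y X' hD hδ0 hδ1 hu' hY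
            hYX'' hX'N hbox' (by
              intro k hk m2 hm2 X2 X3 hX2 hX2' hX3 hX3'
              exact hLP k (by omega) m2 (by omega) X2 X3 (le_trans hX'4 hX2) (le_trans hX2' hX'X)
                hX3 hX3')
          refine ⟨X2, le_trans hX'4 hX2a, le_trans hX2b hX'X, r', cc, φ, hc1, ?_, ?_⟩
          · intro j
            refine le_trans (hc2 j) (div_le_div_of_nonneg_right ?_ hY0.le)
            exact h72_ipow_mono hδ0 hδ1 (by omega)
          · exact le_trans (h72_pow_anti hδ0 hδ1 (by omega)) hc3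

/-- `dl_total` from the two halves of the degree lowering step -/
theorem h72_dl_total (hL : ∀ k, 1 ≤ k → H72Low k) (r : ℕ) (Γ : ℕ → ℕ) (n : ℕ) : ∃ n4 : ℕ,
    ∀ (N : ℕ) [NeZero N] (ι : Type) (Ω : Finset ι) (F : ι → ZMod N → ℂ) (κ u : ZMod N → ℂ)
      (δ Y : ℝ) (X : ℕ), DLData Ω F κ u → 0 < δ → δ ≤ 1 / 2 → Adm (δ⁻¹ ^ n) Y u →
      1 ≤ Y → Y ≤ δ ^ n4 * X → (X : ℝ) ≤ δ ^ n4 * N → δ ^ n ≤ Box r X u →
      (∀ k ≤ r, ∀ n2 ≤ n4, ∀ X2 X' : ℕ, δ ^ n4 * X ≤ X2 → X2 ≤ X → 1 ≤ X' → X' ≤ X2 →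
        LPh Ω F k X' X2 (δ⁻¹ ^ n2 / Y) (δ⁻¹ ^ (Γ n2) / X2) (δ ^ n2)) →
      ∃ X2 : ℕ, δ ^ n4 * X ≤ X2 ∧ X2 ≤ X ∧ ∃ (r' : ZMod N) (cc : ℕ → ℂ) (φ : ℕ → ℝ),
        (∀ j, ‖cc j‖ ≤ 1) ∧ (∀ j, |φ j| ≤ δ⁻¹ ^ n4 / Y) ∧
        δ ^ n4 ≤ ‖𝔼 x, u x * bphase X2 r' cc φ x‖ := by
  -- general reduction from order `r` to order `s + 2`
  have key : ∀ s, s ≤ r → (∀ (N : ℕ) [NeZero N] (u : ZMod N → ℂ) (X : ℕ) (δ : ℝ),
      (∀ x, ‖u x‖ ≤ 1) → 1 ≤ X → 0 < δ → δ ≤ 1 / 2 → δ ^ n ≤ Box r X u →
      δ ^ (4 * n) ≤ Box (s + 2) X u) → ∃ n4 : ℕ,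
    ∀ (N : ℕ) [NeZero N] (ι : Type) (Ω : Finset ι) (F : ι → ZMod N → ℂ) (κ u : ZMod N → ℂ)
      (δ Y : ℝ) (X : ℕ), DLData Ω F κ u → 0 < δ → δ ≤ 1 / 2 → Adm (δ⁻¹ ^ n) Y u →
      1 ≤ Y → Y ≤ δ ^ n4 * X → (X : ℝ) ≤ δ ^ n4 * N → δ ^ n ≤ Box r X u →
      (∀ k ≤ r, ∀ n2 ≤ n4, ∀ X2 X' : ℕ, δ ^ n4 * X ≤ X2 → X2 ≤ X → 1 ≤ X' → X' ≤ X2 →
        LPh Ω F k X' X2 (δ⁻¹ ^ n2 / Y) (δ⁻¹ ^ (Γ n2) / X2) (δ ^ n2)) →
      ∃ X2 : ℕ, δ ^ n4 * X ≤ X2 ∧ X2 ≤ X ∧ ∃ (r' : ZMod N) (cc : ℕ → ℂ) (φ : ℕ → ℝ),
        (∀ j, ‖cc j‖ ≤ 1) ∧ (∀ j, |φ j| ≤ δ⁻¹ ^ n4 / Y) ∧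
        δ ^ n4 ≤ ‖𝔼 x, u x * bphase X2 r' cc φ x‖ := by
    intro s hs hbox
    obtain ⟨n4, h⟩ := h72_total hL Γ s (4 * n)
    refine ⟨n4, ?_⟩
    intro N _ ι Ω F κ u δ Y X hD hδ0 hδ1 hu hY hYX hXN hB hLP
    have hX1 : 1 ≤ X := by
      by_contra hcon
      have : X = 0 := by omega
      rw [this] at hYX
      simp at hYX
      (clear * - hδ0 hδ1 hY hYX; linarith)
    refine h N ι Ω F κ u δ Y X hD hδ0 hδ1
      (hu.mono (h72_ipow_mono hδ0 hδ1 (by omega)) (by (clear * - hδ0 hδ1 hY; linarith)) le_rfl) hY hYX hXN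
      (hbox N u X δ hu.bdd hX1 hδ0 hδ1 hB) ?_
    intro k hk
    exact hLP k (le_trans hk hs)
  by_cases hr : 2 ≤ r
  · refine key (r - 2) (by omega) ?_
    intro N _ u X δ _ _ hδ0 hδ1 hB
    have : r - 2 + 2 = r := by omega
    rw [this]
    exact le_trans (h72_pow_anti hδ0 hδ1 (by omega)) hB
  · refine key 0 (by omega) ?_
    intro N _ u X δ hu hX hδ0 hδ1 hB
    have h2 : δ ^ (2 * n) ≤ Box 1 X u := by
      interval_cases r
      · refine le_trans ?_ (Box_succ_ge 0 X hX hu)
        rw [mul_comm, pow_mul]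
        exact pow_le_pow_left₀ (pow_pos hδ0 n).le hB 2
      · exact le_trans (h72_pow_anti hδ0 hδ1 (by omega)) hB
    refine le_trans ?_ (Box_succ_ge 1 X hX hu)
    rw [show 4 * n = 2 * n * 2 by ring, pow_mul]
    exact pow_le_pow_left₀ (pow_pos hδ0 _).le h2 2

end

end Pool.Agent.Helper57.NX

end

section

set_option autoImplicit false

open Finset

open scoped BigOperators ComplexConjugate

namespace Pool.Agent.Helper57.NX

noncomputable section

section dla_cube

variable {N : ℕ} {k : ℕ}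

theorem dla_prod_e {ι : Type} (s : Finset ι) (t : ι → ℝ) : ∏ i ∈ s, e (t i) = e (∑ i ∈ s, t i) := by
  classical
  induction s using Finset.induction_on with
  | empty => rw [prod_empty, sum_empty, e_zero]
  | insert i s hi ih => rw [prod_insert hi, sum_insert hi, ih, e_add]

/-- product of block phases over the cube -/
theorem dla_prod_bphase (X : ℕ) (r x : ZMod N) (c : (Fin k → Bool) → ℕ → ℂ)
    (φ : (Fin k → Bool) → ℕ → ℝ) :
    ∏ ω, cjj ω (bphase X r (c ω) (φ ω) x) =
      bphase X r (fun j => ∏ ω, cjj ω (c ω j)) (fun j => ∑ ω, sg ω * φ ω j) x := by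
  unfold bphase
  simp only [cjj_mul, dla_cjj_e]
  rw [prod_mul_distrib, dla_prod_e]
  congr 2
  rw [sum_mul]
  exact sum_congr rfl (fun ω _ => by ring)

/-- conjugate and translate of a block phase -/
theorem dla_bphase_conj (X : ℕ) (r y x : ZMod N) (c : ℕ → ℂ) (φ : ℕ → ℝ) :
    conj (bphase X r c φ (x - y)) = bphase X (r + y) (fun j => conj (c j)) (fun j => -φ j) x := by
  unfold bphase
  rw [map_mul, show x - y - r = x - (r + y) by ring, ← e_neg]
  congr 2
  ring

end dla_cube

section dla_steps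

variable {N : ℕ} [NeZero N] {k : ℕ}

theorem dla_freq {v : ZMod N → ℂ} (hv : ∀ x, ‖v x‖ ≤ 1) {B Y : ℝ} (hTV : TV B Y v) (hY : 1 ≤ Y)
    (X : ℕ) (hYX : Y ≤ X) (x : ZMod N) (θ β : ℝ) (hβ : 0 < β) (hθ : |θ| ≤ 1 / 2)
    (h : β / 16 ≤ ‖𝔼 t ∈ range X, v (x + (t : ZMod N)) * e (-(θ * t))‖) :
    |θ| ≤ 8 * (1 + B) / (β * Y) := by
  have hB : 0 ≤ B := hTV.nonneg
  have hY0 : 0 < Y := by (clear * - hY; linarith)
  have hX0 : (0 : ℝ) < X := by (clear * - hY hYX; linarith)
  have hX1 : 1 ≤ X := by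
    have : (0 : ℝ) < (X : ℝ) := hX0
    have h2 : 0 < X := by exact_mod_cast this
    exact h2
  rcases eq_or_ne θ 0 with rfl | hne
  · rw [abs_zero]
    (clear * - hB hβ hY; positivity)
  have h0 : 0 < |θ| := abs_pos.2 hne
  have h1 := freq_bound hv x X hX1 θ h0 hθ
  exact by
    have h2 := hTV x X
    have h3 : β / 16 ≤ (2 + B * (X / Y + 1)) / (4 * |θ| * X) := by
      refine h.trans (h1.trans ?_)
      exact div_le_div_of_nonneg_right (by (clear * - h2; linarith)) (by (clear * - hne hX1; positivity))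
    rw [le_div_iff₀ (by positivity)] at h3
    rw [le_div_iff₀ (by (clear * - hβ hY; positivity))]
    have h4 : 1 ≤ (X : ℝ) / Y := by rw [le_div_iff₀ hY0]; (clear * - hYX; linarith)
    have h5 : β / 16 * (4 * |θ| * X) ≤ (2 + 2 * B) * (X / Y) := by
      refine h3.trans ?_
      (clear * - h4 hB; nlinarith)
    have h6 : β / 16 * (4 * |θ| * X) * Y ≤ (2 + 2 * B) * X := by
      calc β / 16 * (4 * |θ| * X) * Y ≤ (2 + 2 * B) * (X / Y) * Y :=
            mul_le_mul_of_nonneg_right h5 hY0.le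
        _ = (2 + 2 * B) * X := by field_simp
    have h7 : (|θ| * (β * Y)) * X ≤ (8 * (1 + B)) * X := by (clear * - h6; nlinarith)
    exact le_of_mul_le_mul_right h7 hX0

/-- big frequencies give a small form, small ones are counted -/
theorem dla_split {ι : Type} {Ω : Finset ι} {F : ι → ZMod N → ℂ}
    {κ u : ZMod N → ℂ} (D : DLData Ω F κ u) (X X' : ℕ) (hX : 1 ≤ X) {U V η : ℝ}
    (hLP : LPh Ω F k X' X U V η) (a a' : Fin k → ℕ) (ha : a ∈ boxset k X')
    (ha' : a' ∈ boxset k X') (r y : ZMod N) (C : ℕ → ℂ) (Φ : ℕ → ℝ)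
    (hC : ∀ j, ‖C j‖ ≤ 1) (hC0 : ∀ j, N / X ≤ j → C j = 0) (hΦ : ∀ j, |Φ j| ≤ U) :
    ‖𝔼 n ∈ Ω, 𝔼 x : ZMod N, conj (cube (F n) a a' (x + y)) * bphase X r C Φ x‖ ≤
      (𝔼 j ∈ range (N / X), if C j ≠ 0 ∧ |Φ j| < V then (1 : ℝ) else 0) + η := by
  classical
  set C1 : ℕ → ℂ := fun j => if V ≤ |Φ j| then C j else 0 with hC1
  set C2 : ℕ → ℂ := fun j => if V ≤ |Φ j| then 0 else C j with hC2
  have hsum : ∀ x, bphase X r C Φ x = bphase X r C2 Φ x + bphase X r C1 Φ x := by
    intro x
    unfold bphase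
    rw [← add_mul, hC1, hC2]
    congr 1
    dsimp only
    split_ifs <;> simp
  have hsplit : 𝔼 n ∈ Ω, 𝔼 x : ZMod N, conj (cube (F n) a a' (x + y)) * bphase X r C Φ x =
      (𝔼 n ∈ Ω, 𝔼 x : ZMod N, conj (cube (F n) a a' (x + y)) * bphase X r C2 Φ x) +
      𝔼 n ∈ Ω, 𝔼 x : ZMod N, conj (cube (F n) a a' (x + y)) * bphase X r C1 Φ x := by
    rw [← expect_add_distrib]
    refine expect_congr rfl (fun n _ => ?_)
    rw [← expect_add_distrib]
    refine expect_congr rfl (fun x _ => ?_)
    rw [hsum x]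
    ring
  rw [hsplit]
  refine (norm_add_le _ _).trans (add_le_add ?_ ?_)
  · refine (dla_norm_expect_le_const _ _ _ ?_ (fun n _ => ?_))
    · refine expect_nonneg (fun j _ => ?_)
      split_ifs <;> norm_num
    exact by
      · refine (dla_norm_expect_le _ _).trans ?_
        exact by
          have h1 := dla_expect_blk_le X hX r
            (fun j => if C j ≠ 0 ∧ |Φ j| < V then (1 : ℝ) else 0)
            (fun j => by split_ifs <;> norm_num)
            (fun j hj => by
              rw [if_neg]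
              intro h
              exact h.1 (hC0 j hj))
          refine le_trans (expect_le_expect (fun x _ => ?_)) h1
          rw [norm_mul, dla_norm_bphase, RCLike.norm_conj]
          have h2 : ‖cube (F n) a a' (x + y)‖ ≤ 1 := norm_cube_le k (D.F1 n) a a' _
          have h3 : ‖C2 ((x - r).val / X)‖ ≤
              if C ((x - r).val / X) ≠ 0 ∧ |Φ ((x - r).val / X)| < V then (1 : ℝ) else 0 := by
            rw [hC2]
            dsimp only
            by_cases hV : V ≤ |Φ ((x - r).val / X)|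
            · rw [if_pos hV, norm_zero]
              split_ifs <;> norm_num
            · rw [if_neg hV]
              push Not at hV
              by_cases hz : C ((x - r).val / X) = 0
              · rw [hz, norm_zero]
                split_ifs <;> norm_num
              · rw [if_pos ⟨hz, hV⟩]
                exact hC _
          calc ‖cube (F n) a a' (x + y)‖ * ‖C2 ((x - r).val / X)‖
              ≤ 1 * ‖C2 ((x - r).val / X)‖ := mul_le_mul_of_nonneg_right h2 (norm_nonneg _)
            _ = ‖C2 ((x - r).val / X)‖ := one_mul _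
            _ ≤ _ := h3
  · have h1 : conj (𝔼 n ∈ Ω, 𝔼 x : ZMod N, conj (cube (F n) a a' (x + y)) *
        bphase X r C1 Φ x) = 𝔼 n ∈ Ω, 𝔼 x : ZMod N, cube (F n) a a' x *
          bphase X (r + y) (fun j => conj (C1 j)) (fun j => -Φ j) x := by
      rw [gcs_conj_expect]
      refine expect_congr rfl (fun n _ => ?_)
      rw [gcs_conj_expect, ← expect_shift_sub5 _ y]
      refine expect_congr rfl (fun x _ => ?_)
      rw [map_mul, Complex.conj_conj, dla_bphase_conj, sub_add_cancel]
    have h2 := hLP a ha a' ha' (r + y) (fun j => conj (C1 j)) (fun j => -Φ j)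
      (fun j => by
        rw [RCLike.norm_conj, hC1]
        dsimp only
        split_ifs
        · exact hC j
        · simp)
      (fun j => by rw [abs_neg]; exact hΦ j)
      (fun j hj => by
        rw [abs_neg]
        by_contra hcon
        apply hj
        rw [hC1]
        dsimp only
        rw [if_neg hcon, map_zero])
    rw [← h1, RCLike.norm_conj] at h2
    exact h2.le

open Classical in
theorem dla_corr_g (X : ℕ) (hX : 1 ≤ X) (hXN : X ≤ N) (r : ZMod N) (v : ZMod N → ℂ)
    (θ : ℕ → ℝ) (β : ℝ) (hβ : 0 < β) :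
    𝔼 x, v x * bphase X r (dla_cc X r v θ β) (fun j => -dla_th X r v θ β j) x =
      (((X : ℝ) * ((N / X : ℕ) : ℝ) / N * 𝔼 j ∈ range (N / X),
        (if dla_good X r v θ β j then ‖dla_S X r v θ j‖ else 0) : ℝ) : ℂ) := by
  rw [dla_block_corr X hX hXN r v _ _ (dla_cc_out X r v θ β), Complex.ofReal_mul]
  congr 1
  have h1 : ((𝔼 j ∈ range (N / X), (if dla_good X r v θ β j then ‖dla_S X r v θ j‖ else 0) : ℝ)
      : ℂ) = 𝔼 j ∈ range (N / X), (((if dla_good X r v θ β j then ‖dla_S X r v θ j‖ else 0)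
      : ℝ) : ℂ) := map_expect (Complex.ofRealCLM.toLinearMap.restrictScalars ℚ≥0) _ _
  rw [h1]
  refine expect_congr rfl (fun j _ => ?_)
  change _ * dla_S X r v (dla_th X r v θ β) j = _
  by_cases hg : dla_good X r v θ β j
  · rw [dla_S_good hg, if_pos hg]
    have hth : dla_th X r v θ β j = θ j := by
      unfold dla_th
      rw [if_pos hg]
    have hcc : dla_cc X r v θ β j = e (θ j * ((j * X : ℕ) : ℝ)) *
        (conj (dla_S X r v θ j) / (‖dla_S X r v θ j‖ : ℂ)) := by
      unfold dla_cc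
      rw [if_pos hg]
    rw [hth, hcc]
    have he : e (θ j * ((j * X : ℕ) : ℝ)) * e (-(θ j * ((j * X : ℕ) : ℝ))) = 1 := by
      rw [← e_add, add_neg_cancel, e_zero]
    have hS : (0 : ℝ) < ‖dla_S X r v θ j‖ := lt_of_lt_of_le (by positivity) hg.2
    have hS' : ((‖dla_S X r v θ j‖ : ℝ) : ℂ) ≠ 0 := by exact_mod_cast hS.ne'
    have hconj : conj (dla_S X r v θ j) * dla_S X r v θ j =
        ((‖dla_S X r v θ j‖ : ℝ) : ℂ) ^ 2 := by
      rw [mul_comm, Complex.mul_conj, Complex.normSq_eq_norm_sq]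
      push_cast
      rfl
    calc e (θ j * ((j * X : ℕ) : ℝ)) *
          (conj (dla_S X r v θ j) / (‖dla_S X r v θ j‖ : ℂ)) *
          e (-(θ j * ((j * X : ℕ) : ℝ))) * dla_S X r v θ j
        = (e (θ j * ((j * X : ℕ) : ℝ)) * e (-(θ j * ((j * X : ℕ) : ℝ)))) *
          ((conj (dla_S X r v θ j) * dla_S X r v θ j) / (‖dla_S X r v θ j‖ : ℂ)) := by ring
      _ = ((‖dla_S X r v θ j‖ : ℝ) : ℂ) := by
          rw [he, one_mul, hconj]
          field_simp
  · have hcc : dla_cc X r v θ β j = 0 := by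
      unfold dla_cc
      rw [if_neg hg]
    rw [hcc, if_neg hg]
    simp

open Classical in
theorem dla_main (hk : 1 ≤ k) {ι : Type} {Ω : Finset ι} {F : ι → ZMod N → ℂ}
    {κ u : ZMod N → ℂ} (D : DLData Ω F κ u) {B Y β U V η : ℝ} (hA : Adm B Y u)
    (hY : 1 ≤ Y) (X X' : ℕ) (hYX : Y ≤ X) (hX' : 1 ≤ X') (hX'X : X' ≤ X) (hXN : 2 * X ≤ N)
    (hβ : 0 < β) (hBox : β ≤ Box (k + 2) X u)
    (h1 : (k : ℝ) * (4 * X' / X) ≤ β / 2) (h2 : 2 * (X : ℝ) / N ≤ β / 4)
    (hη : η ≤ (β / 32) ^ (2 ^ k) / 2)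
    (hU : 2 ^ k * (8 * (1 + 2 ^ k * B) / (β * Y)) ≤ U) (hLP : LPh Ω F k X' X U V η) :
    ∃ (r : ZMod N) (θ : (Fin k → ℕ) → (Fin k → ℕ) → ℕ → ℝ) (a' : ℕ → Fin k → ℕ),
        (∀ j, a' j ∈ boxset k X') ∧
        (β / 32) ^ (2 ^ k + 1) ≤ 𝔼 j ∈ range (N / X), 𝔼 a ∈ boxset k X', 𝔼 b ∈ boxset k X',
          (if |θ a b j - psiSum θ (a' j) a b j| ≤ V then
            ‖𝔼 t ∈ range X, cube u a b (r + ((j * X + t : ℕ) : ZMod N)) * e (-(θ a b j * t))‖
          else 0) := by
  have hu := hA.bdd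
  have hX1 : 1 ≤ X := hX'.trans hX'X
  have hXN1 : X ≤ N := by omega
  have hne : (boxset k X').Nonempty := by
    unfold boxset
    rw [Fintype.piFinset_nonempty]
    exact fun _ => ⟨0, mem_range.2 (by omega)⟩
  obtain ⟨r, θ0, hθ0, hst⟩ := dla_start hu X X' hX' hX'X hXN1 hBox h1 h2
  have hgd : β / 16 ≤ 𝔼 i ∈ boxset k X' ×ˢ boxset k X', 𝔼 j ∈ range (N / X),
      (if dla_good X r (cube u i.1 i.2) (θ0 i) β j then
        ‖dla_S X r (cube u i.1 i.2) (θ0 i) j‖ else 0) :=
    dla_good_avg (boxset k X' ×ˢ boxset k X') X r (fun i => cube u i.1 i.2) θ0 β hβ hst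
  set θ : (Fin k → ℕ) → (Fin k → ℕ) → ℕ → ℝ :=
    fun a b => dla_th X r (cube u a b) (θ0 (a, b)) β with hθ
  exact by
    set cc : (Fin k → ℕ) → (Fin k → ℕ) → ℕ → ℂ :=
      fun a b => dla_cc X r (cube u a b) (θ0 (a, b)) β with hcc
    -- the correlation
    have hcorr : 𝔼 a ∈ boxset k X', 𝔼 b ∈ boxset k X', 𝔼 x : ZMod N,
        cube u a b x * bphase X r (cc a b) (fun j => -θ a b j) x =
        (((X : ℝ) * ((N / X : ℕ) : ℝ) / N * 𝔼 i ∈ boxset k X' ×ˢ boxset k X',
          𝔼 j ∈ range (N / X), (if dla_good X r (cube u i.1 i.2) (θ0 i) β j then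
            ‖dla_S X r (cube u i.1 i.2) (θ0 i) j‖ else 0) : ℝ) : ℂ) := by
      have hr : ∀ a ∈ boxset k X', ∀ b ∈ boxset k X', 𝔼 x : ZMod N,
          cube u a b x * bphase X r (cc a b) (fun j => -θ a b j) x = _ := fun a _ b _ =>
        dla_corr_g X hX1 hXN1 r (cube u a b) (θ0 (a, b)) β hβ
      rw [expect_congr rfl (fun a ha => expect_congr rfl (fun b hb => hr a ha b hb))]
      rw [← expect_product (boxset k X') (boxset k X') (fun i =>
        (((X : ℝ) * ((N / X : ℕ) : ℝ) / N * 𝔼 j ∈ range (N / X),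
          (if dla_good X r (cube u i.1 i.2) (θ0 i) β j then
            ‖dla_S X r (cube u i.1 i.2) (θ0 i) j‖ else 0) : ℝ) : ℂ))]
      rw [mul_expect]
      symm
      exact map_expect (Complex.ofRealCLM.toLinearMap.restrictScalars ℚ≥0) _ _
    have hXJ : (1 : ℝ) / 2 ≤ (X : ℝ) * ((N / X : ℕ) : ℝ) / N := by
      have hN : (0 : ℝ) < N := by exact_mod_cast Nat.pos_of_ne_zero (NeZero.ne N)
      rw [le_div_iff₀ hN]
      have h3 : N < X * (N / X) + X := by
        have h4 := Nat.div_add_mod N X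
        have h5 := Nat.mod_lt N (show X > 0 by omega)
        omega
      have h6 : N ≤ 2 * (X * (N / X)) := by omega
      have h7 : (N : ℝ) ≤ 2 * ((X : ℝ) * ((N / X : ℕ) : ℝ)) := by exact_mod_cast h6
      (clear * - h7; linarith)
    have hδ1 : β / 32 ≤ ‖𝔼 a ∈ boxset k X', 𝔼 b ∈ boxset k X', 𝔼 x : ZMod N,
        cube u a b x * bphase X r (cc a b) (fun j => -θ a b j) x‖ := by
      rw [hcorr, Complex.norm_real, Real.norm_eq_abs]
      refine le_trans ?_ (le_abs_self _)
      calc β / 32 = 1 / 2 * (β / 16) := by ring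
        _ ≤ _ := mul_le_mul hXJ hgd (by (clear * - hβ; positivity)) (by (clear * - hXJ; positivity))
    obtain ⟨y, hy⟩ := dla_gcs_step hk D hu X' hX'
      (fun a b x => bphase X r (cc a b) (fun j => -θ a b j) x) (β / 32) (by (clear * - hβ; positivity)) hδ1
    -- the phases of the cube
    set p : (Fin k → ℕ) → (Fin k → ℕ) → (Fin k → ℕ) → ℕ → ℝ := fun a a' b j =>
      if cc a b j ≠ 0 ∧ |θ a b j - psiSum θ a' a b j| ≤ V then (1 : ℝ) else 0 with hp
    have hθb : ∀ a b j, |θ a b j| ≤ 8 * (1 + 2 ^ k * B) / (β * Y) := by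
      intro a b j
      rw [hθ]
      dsimp only
      unfold dla_th
      have hB : 0 ≤ B := hA.tv.nonneg
      split_ifs with hg
      · exact dla_freq (fun x => norm_cube_le k hu a b x) (hA.cub (by (clear * - hY; linarith)) k a b).tv hY X hYX
          _ (θ0 (a, b) j) β hβ (hθ0 _ _) (by
            have h3 := hg.2
            unfold dla_S at h3
            refine h3.trans (le_of_eq (congrArg norm ?_))
            refine expect_congr rfl (fun t _ => ?_)
            have : r + ((j * X + t : ℕ) : ZMod N) = (r + ((j * X : ℕ) : ZMod N)) + (t : ZMod N) := by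
              push_cast
              ring
            rw [this])
      · rw [abs_zero]
        (clear * - hB hβ hY; positivity)
    exact by
      have hW : ∀ c ∈ boxset k X' ×ˢ boxset k X', ∀ b ∈ boxset k X',
          (𝔼 n ∈ Ω, 𝔼 x : ZMod N, conj (cube (F n) c.1 c.2 (x + y)) *
            ∏ ω, cjj ω (bphase X r (cc (sel ω c.1 c.2) b)
              (fun j => -θ (sel ω c.1 c.2) b j) x)).re ≤
            (𝔼 j ∈ range (N / X), p c.1 c.2 b j) + η := by
        intro c hc b _
        rw [mem_product] at hc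
        refine (Complex.re_le_norm _).trans ?_
        have h3 := dla_split D X X' hX1 hLP c.1 c.2 hc.1 hc.2 r y
          (fun j => ∏ ω, cjj ω (cc (sel ω c.1 c.2) b j))
          (fun j => ∑ ω, sg ω * (-θ (sel ω c.1 c.2) b j))
          (fun j => dla_norm_prod_le _ _ (fun ω _ => by
            rw [dla_norm_cjj]
            exact dla_cc_norm _ _ _ _ _ _))
          (fun j hj => prod_eq_zero (mem_univ (fun _ : Fin k => false)) (by
            have h4 : cc (sel (fun _ : Fin k => false) c.1 c.2) b j = 0 :=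
              dla_cc_out _ _ _ _ _ _ hj
            rw [h4]
            unfold cjj
            split_ifs <;> simp))
          (fun j => (dla_Phi_bound _ (fun ω => by
            rw [abs_neg]
            exact hθb _ _ _)).trans hU)
        have h5 : 𝔼 n ∈ Ω, 𝔼 x : ZMod N, conj (cube (F n) c.1 c.2 (x + y)) *
            ∏ ω, cjj ω (bphase X r (cc (sel ω c.1 c.2) b)
              (fun j => -θ (sel ω c.1 c.2) b j) x) =
            𝔼 n ∈ Ω, 𝔼 x : ZMod N, conj (cube (F n) c.1 c.2 (x + y)) *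
              bphase X r (fun j => ∏ ω, cjj ω (cc (sel ω c.1 c.2) b j))
              (fun j => ∑ ω, sg ω * (-θ (sel ω c.1 c.2) b j)) x := by
          refine expect_congr rfl (fun n _ => expect_congr rfl (fun x _ => ?_))
          rw [dla_prod_bphase X r x (fun ω => cc (sel ω c.1 c.2) b)
            (fun ω j => -θ (sel ω c.1 c.2) b j)]
        rw [h5]
        refine h3.trans (add_le_add (expect_le_expect (fun j _ => ?_)) le_rfl)
        rw [hp]
        dsimp only
        by_cases h6 : (∏ ω, cjj ω (cc (sel ω c.1 c.2) b j)) ≠ 0 ∧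
            |∑ ω, sg ω * (-θ (sel ω c.1 c.2) b j)| < V
        · rw [if_pos h6, if_pos]
          refine ⟨?_, ?_⟩
          · have h7 := (Finset.prod_ne_zero_iff.1 h6.1) (fun _ : Fin k => false) (mem_univ _)
            have h8 := dla_cjj_ne_zero _ _ h7
            have h9 : sel (fun _ : Fin k => false) c.1 c.2 = c.1 := by
              funext i
              simp [sel]
            rwa [h9] at h8
          · have h7 := h6.2.le
            rwa [dla_psi, abs_neg] at h7
        · rw [if_neg h6]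
          split_ifs <;> norm_num
      have hsum : (β / 32) ^ (2 ^ k) / 2 ≤ 𝔼 c ∈ boxset k X' ×ˢ boxset k X', 𝔼 b ∈ boxset k X',
          𝔼 j ∈ range (N / X), p c.1 c.2 b j := by
        have h3 : (β / 32) ^ (2 ^ k) ≤ 𝔼 c ∈ boxset k X' ×ˢ boxset k X', 𝔼 b ∈ boxset k X',
          ((𝔼 j ∈ range (N / X), p c.1 c.2 b j) + η) := by
          refine hy.trans ?_
          rw [gcs_re_expect]
          refine expect_le_expect (fun c hc => ?_)
          rw [gcs_re_expect]
          exact expect_le_expect (fun b hb => hW c hc b hb)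
        have h4 : 𝔼 c ∈ boxset k X' ×ˢ boxset k X', 𝔼 b ∈ boxset k X',
          ((𝔼 j ∈ range (N / X), p c.1 c.2 b j) + η) = (𝔼 c ∈ boxset k X' ×ˢ boxset k X',
            𝔼 b ∈ boxset k X', 𝔼 j ∈ range (N / X), p c.1 c.2 b j) + η := by
          simp only [expect_add_distrib]
          rw [expect_const hne, expect_const (hne.product hne)]
        rw [h4] at h3
        (clear * - hη h3; linarith)
      have hswap : 𝔼 c ∈ boxset k X' ×ˢ boxset k X', 𝔼 b ∈ boxset k X',
          𝔼 j ∈ range (N / X), p c.1 c.2 b j = 𝔼 j ∈ range (N / X), 𝔼 a' ∈ boxset k X',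
            𝔼 a ∈ boxset k X', 𝔼 b ∈ boxset k X', p a a' b j := by
        rw [expect_product (boxset k X') (boxset k X') (fun c => 𝔼 b ∈ boxset k X',
          𝔼 j ∈ range (N / X), p c.1 c.2 b j)]
        rw [expect_comm (s := boxset k X') (t := boxset k X')]
        rw [expect_comm (s := range (N / X)) (t := boxset k X')]
        refine expect_congr rfl (fun a' _ => ?_)
        rw [expect_comm (s := range (N / X)) (t := boxset k X')]
        refine expect_congr rfl (fun a _ => ?_)
        exact expect_comm _ _ _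
      rw [hswap] at hsum
      have hch : ∀ j, ∃ a' ∈ boxset k X', 𝔼 a' ∈ boxset k X', 𝔼 a ∈ boxset k X',
          𝔼 b ∈ boxset k X', p a a' b j ≤ 𝔼 a ∈ boxset k X', 𝔼 b ∈ boxset k X', p a a' b j :=
        fun j => dla_exists_ge (boxset k X') hne (fun a' => 𝔼 a ∈ boxset k X',
          𝔼 b ∈ boxset k X', p a a' b j)
      choose a' ha' hmax using hch
      refine ⟨r, θ, a', ha', ?_⟩
      have hfin : β / 16 * (𝔼 j ∈ range (N / X), 𝔼 a ∈ boxset k X', 𝔼 b ∈ boxset k X',
          p a (a' j) b j) ≤ 𝔼 j ∈ range (N / X), 𝔼 a ∈ boxset k X', 𝔼 b ∈ boxset k X',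
              (if |θ a b j - psiSum θ (a' j) a b j| ≤ V then
                ‖𝔼 t ∈ range X, cube u a b (r + ((j * X + t : ℕ) : ZMod N)) * e (-(θ a b j * t))‖
              else 0) := by
        rw [mul_expect]
        refine expect_le_expect (fun j _ => ?_)
        rw [mul_expect]
        refine expect_le_expect (fun a _ => ?_)
        rw [mul_expect]
        refine expect_le_expect (fun b _ => ?_)
        rw [hp]
        dsimp only
        by_cases h6 : cc a b j ≠ 0 ∧ |θ a b j - psiSum θ (a' j) a b j| ≤ V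
        · rw [if_pos h6, if_pos h6.2, mul_one]
          have hg : dla_good X r (cube u a b) (θ0 (a, b)) β j := dla_cc_ne h6.1
          have h7 := dla_S_good hg
          have h8 := hg.2
          rw [← h7] at h8
          exact h8
        · rw [if_neg h6, mul_zero]
          split_ifs
          · exact norm_nonneg _
          · exact le_rfl
      refine le_trans ?_ hfin
      have h10 : (β / 32) ^ (2 ^ k) / 2 ≤ 𝔼 j ∈ range (N / X), 𝔼 a ∈ boxset k X',
          𝔼 b ∈ boxset k X', p a (a' j) b j :=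
        hsum.trans (expect_le_expect (fun j _ => hmax j))
      calc (β / 32) ^ (2 ^ k + 1) = β / 16 * ((β / 32) ^ (2 ^ k) / 2) := by
            rw [pow_succ]
            ring
        _ ≤ _ := mul_le_mul_of_nonneg_left h10 (by positivity)

end dla_steps

theorem dl_A (k : ℕ) (hk : 1 ≤ k) : ∀ n : ℕ, ∃ n2 : ℕ, ∀ n1 : ℕ, ∃ n3 : ℕ,
    ∀ (N : ℕ) [NeZero N] (ι : Type) (Ω : Finset ι) (F : ι → ZMod N → ℂ) (κ u : ZMod N → ℂ)
      (δ Y : ℝ) (X X' : ℕ), DLData Ω F κ u → 0 < δ → δ ≤ 1 / 2 → Adm (δ⁻¹ ^ n) Y u →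
      1 ≤ Y → Y ≤ X → (X : ℝ) ≤ δ ^ n3 * N → δ ^ n ≤ Box (k + 2) X u →
      1 ≤ X' → (X' : ℝ) ≤ δ ^ n3 * X →
      LPh Ω F k X' X (δ⁻¹ ^ n2 / Y) (δ⁻¹ ^ n1 / X) (δ ^ n2) →
      ∃ (r : ZMod N) (θ : (Fin k → ℕ) → (Fin k → ℕ) → ℕ → ℝ) (a' : ℕ → Fin k → ℕ),
        (∀ j, a' j ∈ boxset k X') ∧
        δ ^ n2 ≤ 𝔼 j ∈ range (N / X), 𝔼 a ∈ boxset k X', 𝔼 b ∈ boxset k X',
          (if |θ a b j - psiSum θ (a' j) a b j| ≤ δ⁻¹ ^ n1 / X then
            ‖𝔼 t ∈ range X, cube u a b (r + ((j * X + t : ℕ) : ZMod N)) * e (-(θ a b j * t))‖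
          else 0) := by
  intro n
  refine ⟨(n + 5) * (2 ^ k + 1) + (2 * n + 2 * k + 4), fun n1 => ⟨n + k + 3, ?_⟩⟩
  intro N _ ι Ω F κ u δ Y X X' D h0 h1 hA hY hYX hXN hBox hX' hX'X hLP
  have hX0 : (0 : ℝ) < X := by (clear * - h0 h1 hY hYX; linarith)
  have hN0 : (0 : ℝ) < N := by exact_mod_cast Nat.pos_of_ne_zero (NeZero.ne N)
  have h2 : δ ^ (n + k + 3) ≤ 1 / 2 := by
    calc δ ^ (n + k + 3) ≤ δ ^ 1 := pow_le_pow_of_le_one h0.le (by (clear * - h0 h1; linarith)) (by omega)
      _ = δ := pow_one δ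
      _ ≤ 1 / 2 := h1
  have h3 : X' ≤ X := by
    have : (X' : ℝ) ≤ X := by
      refine hX'X.trans ?_
      calc δ ^ (n + k + 3) * (X : ℝ) ≤ 1 / 2 * X := mul_le_mul_of_nonneg_right h2 hX0.le
        _ ≤ X := by (clear * - h0 h1 hY hYX; linarith)
    exact_mod_cast this
  have h4 : 2 * X ≤ N := by
    have : 2 * (X : ℝ) ≤ N := by
      have h5 : δ ^ (n + k + 3) * (N : ℝ) ≤ 1 / 2 * N := mul_le_mul_of_nonneg_right h2 hN0.le
      (clear * - hXN h5; linarith)
    exact_mod_cast this
  exact by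
    have h6 := dla_num3 h0 h1 n k (2 * n + 2 * k + 4)
    have hβ : 0 < δ ^ n := pow_pos h0 n
    have hβ1 : δ ^ n ≤ 1 := pow_le_one₀ h0.le (by (clear * - h0 h1; linarith))
    obtain ⟨r, θ, a', ha', hfin⟩ := dla_main hk D hA hY X X' hYX hX' h3 h4 hβ hBox
      (dla_num1 h0 h1 n k hX0 hX'X) (dla_num2 h0 h1 n k hN0 hXN)
      (by
        refine h6.trans ?_
        rw [pow_succ]
        have h7 : 0 < (δ ^ n / 32) ^ 2 ^ k := by (clear * - h0; positivity)
        calc (δ ^ n / 32) ^ 2 ^ k * (δ ^ n / 32) ≤ (δ ^ n / 32) ^ 2 ^ k * (1 / 2) :=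
              mul_le_mul_of_nonneg_left (by (clear * - h0 h1 hβ1; linarith)) h7.le
          _ = (δ ^ n / 32) ^ 2 ^ k / 2 := by ring)
      (dla_num4 h0 h1 n k ((n + 5) * (2 ^ k + 1) + (2 * n + 2 * k + 4)) (by (clear * - N X X'; omega))
        (by (clear * - h0 h1 hY; linarith) : (0 : ℝ) < Y)) hLP
    exact ⟨r, θ, a', ha', h6.trans hfin⟩

end

end Pool.Agent.Helper57.NX

end

section

set_option autoImplicit false

set_option linter.unusedSectionVars false

set_option linter.unusedVariables false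

open Finset

open scoped BigOperators ComplexConjugate

namespace Pool.Agent.Helper57.NX

noncomputable section

section point

variable {N : ℕ} [NeZero N]

theorem db_local (k : ℕ) (hk : 1 ≤ k) (X' : ℕ) (hX' : 1 ≤ X') (u : ZMod N → ℂ)
    (hu : ∀ x, ‖u x‖ ≤ 1) (θ : (Fin k → ℕ) → (Fin k → ℕ) → ℕ → ℝ) (a' : Fin k → ℕ) (j : ℕ)
    (x : ZMod N) :
    (𝔼 a ∈ boxset k X', 𝔼 b ∈ boxset k X',
      ‖𝔼 z ∈ range X', cube u a b (x + (z : ZMod N)) * e (-(psiSum θ a' a b j * z))‖)
        ^ (2 ^ (k + 1)) ≤ dbG k X' u x := by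
  have hneb : (boxset k X').Nonempty := by
    refine ⟨fun _ => 0, ?_⟩
    simp only [boxset, Fintype.mem_piFinset, mem_range]
    intro _
    omega
  set T : ℕ → ℕ → (Fin k → ℕ) → (Fin k → ℕ) → ℂ := fun z z' b a =>
    cube (fun x => u (x + (z : ZMod N)) * conj (u (x + (z' : ZMod N)))) a b x *
      e ((∑ ω ∈ univ.erase (fun _ : Fin k => false), sg ω * θ (sel ω a a') b j)
        * ((z : ℝ) - z')) with hT
  have h1 : (𝔼 a ∈ boxset k X', 𝔼 b ∈ boxset k X',
      ‖𝔼 z ∈ range X', cube u a b (x + (z : ZMod N)) * e (-(psiSum θ a' a b j * z))‖) ^ 2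
      ≤ 𝔼 z ∈ range X', 𝔼 z' ∈ range X', 𝔼 b ∈ boxset k X', ‖𝔼 a ∈ boxset k X', T z z' b a‖ := by
    have h2 : (𝔼 a ∈ boxset k X', 𝔼 b ∈ boxset k X',
      ‖𝔼 z ∈ range X', cube u a b (x + (z : ZMod N)) * e (-(psiSum θ a' a b j * z))‖) ^ 2
      ≤ 𝔼 a ∈ boxset k X', 𝔼 b ∈ boxset k X',
      ‖𝔼 z ∈ range X', cube u a b (x + (z : ZMod N)) * e (-(psiSum θ a' a b j * z))‖ ^ 2 := by
      refine (gcs_sq_expect_le _ _).trans ?_
      exact expect_le_expect fun a _ => gcs_sq_expect_le _ _
    refine h2.trans ?_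
    have h3 : ∀ a b : Fin k → ℕ,
        ‖𝔼 z ∈ range X', cube u a b (x + (z : ZMod N)) * e (-(psiSum θ a' a b j * z))‖ ^ 2
        = (𝔼 z ∈ range X', 𝔼 z' ∈ range X', T z z' b a).re := by
      intro a b
      rw [db_norm_sq]
      congr 1
      refine expect_congr rfl fun z _ => expect_congr rfl fun z' _ => ?_
      rw [hT]
      simp only
      rw [cube_mul k (fun x => u (x + (z : ZMod N))) (fun x => conj (u (x + (z' : ZMod N)))),
        cube_shift, cube_conj k (fun x => u (x + (z' : ZMod N))), cube_shift, map_mul, ← e_neg]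
      rw [show (∑ ω ∈ univ.erase (fun _ : Fin k => false), sg ω * θ (sel ω a a') b j)
        * ((z : ℝ) - z') = -(psiSum θ a' a b j * z) + - -(psiSum θ a' a b j * z') by
          unfold psiSum; ring, e_add]
      ring
    simp only [h3]
    have h4 : 𝔼 a ∈ boxset k X', 𝔼 b ∈ boxset k X',
        (𝔼 z ∈ range X', 𝔼 z' ∈ range X', T z z' b a).re
        = 𝔼 z ∈ range X', 𝔼 z' ∈ range X', 𝔼 b ∈ boxset k X',
          (𝔼 a ∈ boxset k X', T z z' b a).re := by
      simp only [gcs_re_expect]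
      have h5 : ∀ a ∈ boxset k X', 𝔼 b ∈ boxset k X', 𝔼 z ∈ range X', 𝔼 z' ∈ range X',
          (T z z' b a).re
          = 𝔼 z ∈ range X', 𝔼 z' ∈ range X', 𝔼 b ∈ boxset k X', (T z z' b a).re := by
        intro a _
        rw [expect_comm]
        exact expect_congr rfl fun z _ => expect_comm _ _ _
      rw [expect_congr rfl h5, expect_comm]
      refine expect_congr rfl fun z _ => ?_
      rw [expect_comm]
      refine expect_congr rfl fun z' _ => ?_
      rw [expect_comm]
    rw [h4]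
    exact expect_le_expect fun z _ => expect_le_expect fun z' _ => expect_le_expect fun b _ =>
      Complex.re_le_norm _
  have h0 : 0 ≤ 𝔼 a ∈ boxset k X', 𝔼 b ∈ boxset k X',
      ‖𝔼 z ∈ range X', cube u a b (x + (z : ZMod N)) * e (-(psiSum θ a' a b j * z))‖ :=
    expect_nonneg fun a _ => expect_nonneg fun b _ => norm_nonneg _
  rw [pow_succ, mul_comm, pow_mul]
  refine (pow_le_pow_left₀ (by (clear * -; positivity)) h1 _).trans ?_
  refine (gcs_pow_expect_le _ _ _ fun z _ => expect_nonneg fun z' _ => expect_nonneg fun b _ =>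
    norm_nonneg _).trans ?_
  refine expect_le_expect fun z _ => ?_
  refine (gcs_pow_expect_le _ _ _ fun z' _ => expect_nonneg fun b _ => norm_nonneg _).trans ?_
  refine expect_le_expect fun z' _ => ?_
  refine (gcs_pow_expect_le _ _ _ fun b _ => norm_nonneg _).trans ?_
  refine expect_le hneb fun b _ => ?_
  refine db_point k hk X' hX' _ (fun y => ?_) (fun a => θ a b j) a' b ((z : ℝ) - z') x
  rw [norm_mul, RCLike.norm_conj]
  exact mul_le_one₀ (hu _) (norm_nonneg _) (hu _)

end point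

theorem dl_B (k : ℕ) (hk : 1 ≤ k) : ∀ n n1 : ℕ, ∃ n3 : ℕ,
    ∀ (N : ℕ) [NeZero N] (u : ZMod N → ℂ) (δ : ℝ) (X X' : ℕ), (∀ x, ‖u x‖ ≤ 1) →
      0 < δ → δ ≤ 1 / 2 → 1 ≤ X → (X : ℝ) ≤ δ ^ n3 * N → 1 ≤ X' → (X' : ℝ) ≤ δ ^ n3 * X →
      ∀ (r : ZMod N) (θ : (Fin k → ℕ) → (Fin k → ℕ) → ℕ → ℝ) (a' : ℕ → Fin k → ℕ),
        (∀ j, a' j ∈ boxset k X') →
        δ ^ n ≤ 𝔼 j ∈ range (N / X), 𝔼 a ∈ boxset k X', 𝔼 b ∈ boxset k X',
          (if |θ a b j - psiSum θ (a' j) a b j| ≤ δ⁻¹ ^ n1 / X then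
            ‖𝔼 t ∈ range X, cube u a b (r + ((j * X + t : ℕ) : ZMod N)) * e (-(θ a b j * t))‖
          else 0) →
        δ ^ n3 ≤ Box (k + 1) X' u := by
  intro n n1
  refine ⟨n + n1 + 5 + (n + 1) * 2 ^ (k + 1) + 1, ?_⟩
  intro N _ u δ X X' hu hδ0 hδ1 hX hXN hX' hXX r θ a' _ h
  set n3 := n + n1 + 5 + (n + 1) * 2 ^ (k + 1) + 1 with hn3
  have hX0 : (0 : ℝ) < X := by exact_mod_cast hX
  have hN0 : (0 : ℝ) < N := by exact_mod_cast NeZero.pos N
  have hδ1' : δ ≤ 1 := hδ1.trans (by norm_num)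
  have hn3half : δ ^ n3 ≤ 1 / 2 :=
    (pow_le_pow_of_le_one hδ0.le hδ1' (by omega : 1 ≤ n3)).trans (by simpa using hδ1)
  have hXN2 : 2 * X ≤ N := by
    have : 2 * (X : ℝ) ≤ N := by (clear * - hXN hn3half; nlinarith)
    exact_mod_cast this
  exact by
    have hKne : (range (N / X)).Nonempty := by
      have : 1 ≤ N / X := (Nat.one_le_div_iff (by omega)).mpr (by omega)
      simpa using (by omega : N / X ≠ 0)
    have hneb : (boxset k X').Nonempty := by
      refine ⟨fun _ => 0, ?_⟩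
      simp only [boxset, Fintype.mem_piFinset, mem_range]
      intro _
      omega
    have hneX : (range X).Nonempty := by simpa using (by omega : X ≠ 0)
    set W : ℕ → ℕ → ℝ := fun j t0 => 𝔼 a ∈ boxset k X', 𝔼 b ∈ boxset k X',
        ‖𝔼 z ∈ range X', cube u a b (r + ((j * X + t0 : ℕ) : ZMod N) + (z : ZMod N))
          * e (-(psiSum θ (a' j) a b j * z))‖ with hW
    set err : ℝ := 2 * X' / X + 2 * Real.pi * (δ⁻¹ ^ n1 / X) * X' with herr
    have herr0 : 0 ≤ err := by (clear * - hX' hX hδ0; positivity)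
    exact by
      have hWn : ∀ j t0, 0 ≤ W j t0 := fun j t0 =>
        expect_nonneg fun a _ => expect_nonneg fun b _ => norm_nonneg _
      -- the error term
      have herr1 : err ≤ δ ^ n / 2 := by
        have h1 : (X' : ℝ) / X ≤ δ ^ n3 := by
          rw [div_le_iff₀ hX0]
          exact hXX
        have h2 : err = 2 * (X' / X) + 2 * Real.pi * (δ⁻¹ ^ n1 * (X' / X)) := by
          rw [herr]
          ring
        have hpi : Real.pi ≤ 4 := Real.pi_le_four
        have h3 : δ⁻¹ ^ n1 * δ ^ n1 = 1 := by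
          rw [← mul_pow, inv_mul_cancel₀ hδ0.ne', one_pow]
        have h4 : δ ^ n3 ≤ δ ^ n1 * (δ ^ n * (1 / 32)) := by
          have : n3 = n1 + (n + 5) + ((n + 1) * 2 ^ (k + 1) + 1) := by (clear * - N X X'; omega)
          rw [this, pow_add, pow_add, pow_add]
          have h5 : δ ^ 5 ≤ 1 / 32 := by
            calc δ ^ 5 ≤ (1 / 2) ^ 5 := pow_le_pow_left₀ hδ0.le hδ1 5
              _ = 1 / 32 := by norm_num
          have h6 : δ ^ ((n + 1) * 2 ^ (k + 1) + 1) ≤ 1 := pow_le_one₀ hδ0.le hδ1'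
          calc δ ^ n1 * (δ ^ n * δ ^ 5) * δ ^ ((n + 1) * 2 ^ (k + 1) + 1)
              ≤ δ ^ n1 * (δ ^ n * δ ^ 5) * 1 := by gcongr
            _ ≤ δ ^ n1 * (δ ^ n * (1 / 32)) := by
              rw [mul_one]
              (clear * - h5 hδ0; gcongr)
        have h7 : δ⁻¹ ^ n1 * (X' / X) ≤ δ ^ n * (1 / 32) := by
          calc δ⁻¹ ^ n1 * ((X' : ℝ) / X) ≤ δ⁻¹ ^ n1 * (δ ^ n1 * (δ ^ n * (1 / 32))) := by
                gcongr
                exact h1.trans h4
            _ = δ ^ n * (1 / 32) := by rw [← mul_assoc, h3, one_mul]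
        have h8 : (X' : ℝ) / X ≤ δ ^ n * (1 / 32) := by
          refine (h1.trans h4).trans ?_
          have : δ ^ n1 ≤ 1 := pow_le_one₀ hδ0.le hδ1'
          have h9 : 0 ≤ δ ^ n * (1 / 32) := by positivity
          (clear * - this h9; nlinarith)
        have h10 : 0 ≤ δ⁻¹ ^ n1 * ((X' : ℝ) / X) := by (clear * - hδ0 hX' hX; positivity)
        have h11 : 0 < δ ^ n := by positivity
        rw [h2]
        (clear * - herr0 h2 h7 h8 hδ0 hδ1 hpi h10; nlinarith)
      -- step A
      have hA : δ ^ n ≤ (𝔼 j ∈ range (N / X), 𝔼 t0 ∈ range X, W j t0) + err := by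
        refine h.trans ?_
        have hc : 𝔼 _j ∈ range (N / X), err = err := expect_const hKne _
        rw [← hc, ← expect_add_distrib]
        refine expect_le_expect fun j _ => ?_
        have hterm : ∀ a b : Fin k → ℕ,
            (if |θ a b j - psiSum θ (a' j) a b j| ≤ δ⁻¹ ^ n1 / X then
                ‖𝔼 t ∈ range X, cube u a b (r + ((j * X + t : ℕ) : ZMod N)) * e (-(θ a b j * t))‖
              else 0)
            ≤ (𝔼 t0 ∈ range X, ‖𝔼 z ∈ range X',
                cube u a b (r + ((j * X + t0 : ℕ) : ZMod N) + (z : ZMod N))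
                * e (-(psiSum θ (a' j) a b j * z))‖) + err := by
          intro a b
          have hn : 0 ≤ 𝔼 t0 ∈ range X, ‖𝔼 z ∈ range X',
                cube u a b (r + ((j * X + t0 : ℕ) : ZMod N) + (z : ZMod N))
                * e (-(psiSum θ (a' j) a b j * z))‖ := expect_nonneg fun _ _ => norm_nonneg _
          split_ifs with hif
          · have hw := db_window (fun t => cube u a b (r + ((j * X + t : ℕ) : ZMod N)))
              (fun t => norm_cube_le k hu a b _) (θ a b j) (psiSum θ (a' j) a b j) X X' hX hX'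
            exact by
              refine hw.trans ?_
              have hcast : ∀ t0 z : ℕ, (r + ((j * X + (t0 + z) : ℕ) : ZMod N))
                  = r + ((j * X + t0 : ℕ) : ZMod N) + (z : ZMod N) := by
                intro t0 z
                push_cast
                ring
              simp only [hcast]
              have : 2 * Real.pi * |θ a b j - psiSum θ (a' j) a b j| * X'
                  ≤ 2 * Real.pi * (δ⁻¹ ^ n1 / X) * X' := by (clear * - hif hX'; gcongr)
              rw [herr]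
              (clear * - this; linarith)
          · (clear * - herr0 hn; linarith)
        have hc2 : 𝔼 _a ∈ boxset k X', 𝔼 _b ∈ boxset k X', err = err := by
          rw [expect_const hneb, expect_const hneb]
        calc 𝔼 a ∈ boxset k X', 𝔼 b ∈ boxset k X',
              (if |θ a b j - psiSum θ (a' j) a b j| ≤ δ⁻¹ ^ n1 / X then
                ‖𝔼 t ∈ range X, cube u a b (r + ((j * X + t : ℕ) : ZMod N)) * e (-(θ a b j * t))‖
              else 0)
            ≤ 𝔼 a ∈ boxset k X', 𝔼 b ∈ boxset k X', ((𝔼 t0 ∈ range X, ‖𝔼 z ∈ range X',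
                cube u a b (r + ((j * X + t0 : ℕ) : ZMod N) + (z : ZMod N))
                * e (-(psiSum θ (a' j) a b j * z))‖) + err) :=
              expect_le_expect fun a _ => expect_le_expect fun b _ => hterm a b
          _ = (𝔼 a ∈ boxset k X', 𝔼 b ∈ boxset k X', 𝔼 t0 ∈ range X, ‖𝔼 z ∈ range X',
                cube u a b (r + ((j * X + t0 : ℕ) : ZMod N) + (z : ZMod N))
                * e (-(psiSum θ (a' j) a b j * z))‖) + err := by
              rw [← hc2, ← expect_add_distrib]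
              refine expect_congr rfl fun a _ => ?_
              rw [← expect_add_distrib]
              simp only [hc2]
          _ = (𝔼 t0 ∈ range X, W j t0) + err := by
              congr 1
              rw [hW]
              simp only
              have h5 : ∀ a ∈ boxset k X', 𝔼 b ∈ boxset k X', 𝔼 t0 ∈ range X, ‖𝔼 z ∈ range X',
                cube u a b (r + ((j * X + t0 : ℕ) : ZMod N) + (z : ZMod N))
                * e (-(psiSum θ (a' j) a b j * z))‖
                = 𝔼 t0 ∈ range X, 𝔼 b ∈ boxset k X', ‖𝔼 z ∈ range X',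
                cube u a b (r + ((j * X + t0 : ℕ) : ZMod N) + (z : ZMod N))
                * e (-(psiSum θ (a' j) a b j * z))‖ := fun a _ => expect_comm _ _ _
              rw [expect_congr rfl h5, expect_comm]
      have hA' : δ ^ (n + 1) ≤ 𝔼 j ∈ range (N / X), 𝔼 t0 ∈ range X, W j t0 := by
        have h1 : δ ^ (n + 1) ≤ δ ^ n / 2 := by
          rw [pow_succ]
          have : 0 < δ ^ n := by positivity
          (clear * - hδ1 herr0 herr1; nlinarith)
        (clear * - herr1 hA h1; linarith)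
      -- steps B and C
      have hB : (δ ^ (n + 1)) ^ (2 ^ (k + 1))
          ≤ 𝔼 j ∈ range (N / X), 𝔼 t ∈ range X, dbG k X' u (r + ((j * X + t : ℕ) : ZMod N)) := by
        refine (pow_le_pow_left₀ (by positivity) hA' _).trans ?_
        refine (gcs_pow_expect_le _ _ _ fun j _ => expect_nonneg fun t _ => hWn j t).trans ?_
        refine expect_le_expect fun j _ => ?_
        refine (gcs_pow_expect_le _ _ _ fun t _ => hWn j t).trans ?_
        refine expect_le_expect fun t _ => ?_
        exact db_local k hk X' hX' u hu θ (a' j) j _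
      have hC := db_blocks (dbG k X' u) (dbG_nonneg k hk X' u) X hX hXN2 r
      exact by
        rw [dbG_expect] at hC
        have hD : (δ ^ (n + 1)) ^ (2 ^ (k + 1)) ≤ 2 * Box (k + 1) X' u := hB.trans hC
        have hE : δ ^ n3 ≤ (δ ^ (n + 1)) ^ (2 ^ (k + 1)) * δ := by
          rw [← pow_mul, ← pow_succ]
          exact pow_le_pow_of_le_one hδ0.le hδ1' (by (clear * - N X X'; omega))
        have hF : 0 ≤ (δ ^ (n + 1)) ^ (2 ^ (k + 1)) := by positivity
        (clear * - hB hC hE hδ1 hF; nlinarith)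

end

end Pool.Agent.Helper57.NX

end

section

set_option autoImplicit false

open Finset

open scoped BigOperators ComplexConjugate

namespace Pool.Agent.Helper57.NX

noncomputable section

theorem dl_total (r : ℕ) (Γ : ℕ → ℕ) (n : ℕ) : ∃ n4 : ℕ,
    ∀ (N : ℕ) [NeZero N] (ι : Type) (Ω : Finset ι) (F : ι → ZMod N → ℂ) (κ u : ZMod N → ℂ)
      (δ Y : ℝ) (X : ℕ), DLData Ω F κ u → 0 < δ → δ ≤ 1 / 2 → Adm (δ⁻¹ ^ n) Y u →
      1 ≤ Y → Y ≤ δ ^ n4 * X → (X : ℝ) ≤ δ ^ n4 * N → δ ^ n ≤ Box r X u →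
      (∀ k ≤ r, ∀ n2 ≤ n4, ∀ X2 X' : ℕ, δ ^ n4 * X ≤ X2 → X2 ≤ X → 1 ≤ X' → X' ≤ X2 →
        LPh Ω F k X' X2 (δ⁻¹ ^ n2 / Y) (δ⁻¹ ^ (Γ n2) / X2) (δ ^ n2)) →
      ∃ X2 : ℕ, δ ^ n4 * X ≤ X2 ∧ X2 ≤ X ∧ ∃ (r' : ZMod N) (cc : ℕ → ℂ) (φ : ℕ → ℝ),
        (∀ j, ‖cc j‖ ≤ 1) ∧ (∀ j, |φ j| ≤ δ⁻¹ ^ n4 / Y) ∧
        δ ^ n4 ≤ ‖𝔼 x, u x * bphase X2 r' cc φ x‖ :=
  h72_dl_total (fun k hk => h72_low_of k (dl_A k hk) (dl_B k hk)) r Γ n

end

end Pool.Agent.Helper57.NX

end

section

set_option autoImplicit false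

set_option linter.unusedVariables false

open Finset

open scoped BigOperators ComplexConjugate

namespace Pool.Agent.Helper67.NX2

open Pool.Agent.Helper57.NX

noncomputable section

section AqBasic

variable {N : ℕ} [NeZero N]

/-- cubes of admissible functions are admissible -/
theorem Adm.cubq {B X : ℝ} (hX : 0 < X) {f : ZMod N → ℂ} (h : Adm B X f) (st k : ℕ)
    (a b : Fin k → ℕ) : Adm (2 ^ k * B) X (cubeq st f a b) := by
  rw [fb_cubeq_eq]
  exact Adm.cub hX h k _ _

end AqBasic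

end

end Pool.Agent.Helper67.NX2

end

section

set_option autoImplicit false

open Finset

open scoped BigOperators ComplexConjugate

namespace Pool.Agent.Helper67.NX2

open Pool.Agent.Helper57.NX

noncomputable section

section Str

variable {m N : ℕ} [NeZero N]

/-- the form with the conjugate of the dual function -/
theorem form_dual15 (S : Sys (m + 1)) (c : Fin (m + 1) → ℝ) (f0 : ZMod N → ℂ)
    (f : Fin (m + 1) → ZMod N → ℂ) :
    form S c 1 f0 (Function.update f (Fin.last m)
      (fun x => conj (dual S c 1 f0 f (Fin.last m) x))) =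
      ((𝔼 x, ‖dual S c 1 f0 f (Fin.last m) x‖ ^ 2 : ℝ) : ℂ) := by
  rw [form_dual]
  push_cast
  refine expect_congr rfl fun x _ => ?_
  rw [mul_comm, Complex.mul_conj, Complex.normSq_eq_norm_sq]
  push_cast
  rfl

end Str

end

end Pool.Agent.Helper67.NX2

end

section

set_option autoImplicit false

open Finset

open scoped BigOperators ComplexConjugate

namespace Pool.Agent.Helper67.NX2

open Pool.Agent.Helper57.NX

noncomputable section

section dlm_steps

variable {N : ℕ} [NeZero N] {k : ℕ} {κ ι : Type} [Fintype κ]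

open Classical in
/-- non-major frequencies give a small form, major ones are counted -/
theorem dlm_split [Nonempty κ] {Ω : Finset ι} {F : ι → κ → ZMod N → ℂ}
    (hF : ∀ n i x, ‖F n i x‖ ≤ 1) (X X' : ℕ) (hX : 1 ≤ X) {R V η : ℝ}
    (hLP : LPhM Ω F k X' X R V η) (a a' : Fin k → ℕ) (ha : a ∈ boxset k X')
    (ha' : a' ∈ boxset k X') (r : ZMod N) (C : κ → ℕ → ℂ) (Φ : κ → ℕ → ℝ)
    (hC : ∀ i j, ‖C i j‖ ≤ 1) (hC0 : ∀ i j, N / X ≤ j → C i j = 0) :
    ‖𝔼 n ∈ Ω, 𝔼 i, 𝔼 x : ZMod N, conj (cube (F n i) a a' x) * bphase X r (C i) (Φ i) x‖ ≤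
      (𝔼 i, 𝔼 j ∈ range (N / X), if C i j ≠ 0 ∧ dlm_maj R V (Φ i j) then (1 : ℝ) else 0)
        + η := by
  set C1 : κ → ℕ → ℂ := fun i j => if dlm_maj R V (Φ i j) then 0 else C i j with hC1
  set C2 : κ → ℕ → ℂ := fun i j => if dlm_maj R V (Φ i j) then C i j else 0 with hC2
  have hsum : ∀ i x, bphase X r (C i) (Φ i) x =
      bphase X r (C2 i) (Φ i) x + bphase X r (C1 i) (Φ i) x := by
    intro i x
    unfold bphase
    rw [← add_mul, hC1, hC2]
    congr 1
    dsimp only
    split_ifs <;> simp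
  have hsplit : 𝔼 n ∈ Ω, 𝔼 i, 𝔼 x : ZMod N, conj (cube (F n i) a a' x) *
        bphase X r (C i) (Φ i) x =
      (𝔼 n ∈ Ω, 𝔼 i, 𝔼 x : ZMod N, conj (cube (F n i) a a' x) * bphase X r (C2 i) (Φ i) x) +
      𝔼 n ∈ Ω, 𝔼 i, 𝔼 x : ZMod N, conj (cube (F n i) a a' x) *
        bphase X r (C1 i) (Φ i) x := by
    rw [← expect_add_distrib]
    refine expect_congr rfl (fun n _ => ?_)
    rw [← expect_add_distrib]
    refine expect_congr rfl (fun i _ => ?_)
    rw [← expect_add_distrib]
    refine expect_congr rfl (fun x _ => ?_)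
    rw [hsum i x]
    ring
  rw [hsplit]
  refine (norm_add_le _ _).trans (add_le_add ?_ ?_)
  · refine (dla_norm_expect_le_const _ _ _ ?_ (fun n _ => ?_))
    · refine expect_nonneg (fun i _ => expect_nonneg (fun j _ => ?_))
      split_ifs <;> norm_num
    exact by
      · refine (dla_norm_expect_le _ _).trans (expect_le_expect (fun i _ => ?_))
        exact by
          refine (dla_norm_expect_le _ _).trans ?_
          have h1 := dla_expect_blk_le X hX r
            (fun j => if C i j ≠ 0 ∧ dlm_maj R V (Φ i j) then (1 : ℝ) else 0)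
            (fun j => by split_ifs <;> norm_num)
            (fun j hj => by
              rw [if_neg]
              intro h
              exact h.1 (hC0 i j hj))
          refine le_trans (expect_le_expect (fun x _ => ?_)) h1
          rw [norm_mul, dla_norm_bphase, RCLike.norm_conj]
          have h2 : ‖cube (F n i) a a' x‖ ≤ 1 := norm_cube_le k (hF n i) a a' _
          have h3 : ‖C2 i ((x - r).val / X)‖ ≤
              if C i ((x - r).val / X) ≠ 0 ∧ dlm_maj R V (Φ i ((x - r).val / X))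
                then (1 : ℝ) else 0 := by
            rw [hC2]
            dsimp only
            by_cases hV : dlm_maj R V (Φ i ((x - r).val / X))
            · rw [if_pos hV]
              by_cases hz : C i ((x - r).val / X) = 0
              · rw [hz, norm_zero]
                split_ifs <;> norm_num
              · rw [if_pos ⟨hz, hV⟩]
                exact hC _ _
            · rw [if_neg hV, norm_zero]
              split_ifs <;> norm_num
          calc ‖cube (F n i) a a' x‖ * ‖C2 i ((x - r).val / X)‖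
              ≤ 1 * ‖C2 i ((x - r).val / X)‖ := mul_le_mul_of_nonneg_right h2 (norm_nonneg _)
            _ = ‖C2 i ((x - r).val / X)‖ := one_mul _
            _ ≤ _ := h3
  · have h1 : conj (𝔼 n ∈ Ω, 𝔼 i, 𝔼 x : ZMod N, conj (cube (F n i) a a' x) *
        bphase X r (C1 i) (Φ i) x) = 𝔼 n ∈ Ω, 𝔼 i, 𝔼 x : ZMod N, cube (F n i) a a' x *
          bphase X r (fun j => conj (C1 i j)) (fun j => -Φ i j) x := by
      rw [gcs_conj_expect]
      refine expect_congr rfl (fun n _ => ?_)
      rw [gcs_conj_expect]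
      refine expect_congr rfl (fun i _ => ?_)
      rw [gcs_conj_expect]
      refine expect_congr rfl (fun x _ => ?_)
      have h3 := dla_bphase_conj X r 0 x (C1 i) (Φ i)
      rw [sub_zero, add_zero] at h3
      rw [map_mul, Complex.conj_conj, h3]
    have h2 := hLP a ha a' ha' r (fun i j => conj (C1 i j)) (fun i j => -Φ i j)
      (fun i j => by
        rw [RCLike.norm_conj, hC1]
        dsimp only
        split_ifs
        · simp
        · exact hC i j)
      (fun i j hj q hq1 hqR => by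
        by_contra hcon
        apply hj
        have h4 : dlm_maj R V (Φ i j) := by
          rw [← dlm_maj_neg]
          exact ⟨q, hq1, hqR, not_lt.1 hcon⟩
        rw [hC1]
        dsimp only
        rw [if_pos h4, map_zero])
    rw [← h1, RCLike.norm_conj] at h2
    exact h2.le

open Classical in
/-- the correlation with the good block phases -/
theorem dlm_corr {u : κ → ZMod N → ℂ} (X X' : ℕ) (hX : 1 ≤ X) (hXN : X ≤ N) (r : ZMod N)
    (θ : κ × ((Fin k → ℕ) × (Fin k → ℕ)) → ℕ → ℝ) (β : ℝ) (hβ : 0 < β) :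
    𝔼 i, 𝔼 a ∈ boxset k X', 𝔼 b ∈ boxset k X', 𝔼 x : ZMod N,
      cube (u i) a b x * bphase X r (dla_cc X r (cube (u i) a b) (θ (i, (a, b))) β)
        (fun j => -dla_th X r (cube (u i) a b) (θ (i, (a, b))) β j) x =
      (((X : ℝ) * ((N / X : ℕ) : ℝ) / N *
        𝔼 z ∈ (univ : Finset κ) ×ˢ (boxset k X' ×ˢ boxset k X'), 𝔼 j ∈ range (N / X),
          (if dla_good X r (cube (u z.1) z.2.1 z.2.2) (θ z) β j then
            ‖dla_S X r (cube (u z.1) z.2.1 z.2.2) (θ z) j‖ else 0) : ℝ) : ℂ) := by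
  have hr : ∀ i : κ, ∀ a ∈ boxset k X', ∀ b ∈ boxset k X', 𝔼 x : ZMod N,
      cube (u i) a b x * bphase X r (dla_cc X r (cube (u i) a b) (θ (i, (a, b))) β)
        (fun j => -dla_th X r (cube (u i) a b) (θ (i, (a, b))) β j) x =
      (((X : ℝ) * ((N / X : ℕ) : ℝ) / N * 𝔼 j ∈ range (N / X),
        (if dla_good X r (cube (u i) a b) (θ (i, (a, b))) β j then
          ‖dla_S X r (cube (u i) a b) (θ (i, (a, b))) j‖ else 0) : ℝ) : ℂ) :=
    fun i a _ b _ => dla_corr_g X hX hXN r (cube (u i) a b) (θ (i, (a, b))) β hβ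
  rw [expect_congr rfl (fun i _ => expect_congr rfl (fun a ha => expect_congr rfl
    (fun b hb => hr i a ha b hb)))]
  have h1 : ∀ i ∈ (univ : Finset κ), 𝔼 a ∈ boxset k X', 𝔼 b ∈ boxset k X',
      (((X : ℝ) * ((N / X : ℕ) : ℝ) / N * 𝔼 j ∈ range (N / X),
        (if dla_good X r (cube (u i) a b) (θ (i, (a, b))) β j then
          ‖dla_S X r (cube (u i) a b) (θ (i, (a, b))) j‖ else 0) : ℝ) : ℂ) =
      𝔼 c ∈ boxset k X' ×ˢ boxset k X', (((X : ℝ) * ((N / X : ℕ) : ℝ) / N *
        𝔼 j ∈ range (N / X), (if dla_good X r (cube (u i) c.1 c.2) (θ (i, c)) β j then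
          ‖dla_S X r (cube (u i) c.1 c.2) (θ (i, c)) j‖ else 0) : ℝ) : ℂ) := by
    intro i _
    rw [expect_product (boxset k X') (boxset k X') (fun c =>
      (((X : ℝ) * ((N / X : ℕ) : ℝ) / N *
        𝔼 j ∈ range (N / X), (if dla_good X r (cube (u i) c.1 c.2) (θ (i, c)) β j then
          ‖dla_S X r (cube (u i) c.1 c.2) (θ (i, c)) j‖ else 0) : ℝ) : ℂ))]
  rw [expect_congr rfl h1]
  rw [← expect_product (univ : Finset κ) (boxset k X' ×ˢ boxset k X') (fun z =>
    (((X : ℝ) * ((N / X : ℕ) : ℝ) / N * 𝔼 j ∈ range (N / X),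
        (if dla_good X r (cube (u z.1) z.2.1 z.2.2) (θ z) β j then
          ‖dla_S X r (cube (u z.1) z.2.1 z.2.2) (θ z) j‖ else 0) : ℝ) : ℂ))]
  rw [mul_expect]
  symm
  exact map_expect (Complex.ofRealCLM.toLinearMap.restrictScalars ℚ≥0) _ _

open Classical in
theorem dlm_main [Nonempty κ] (hk : 1 ≤ k) {Ω : Finset ι} {F : ι → κ → ZMod N → ℂ}
    {u : κ → ZMod N → ℂ} (hF : ∀ n i x, ‖F n i x‖ ≤ 1)
    (hrep : ∀ i x, u i x = conj (𝔼 n ∈ Ω, F n i x)) (hu : ∀ i x, ‖u i x‖ ≤ 1)
    {β R V η : ℝ} (X X' : ℕ) (hX' : 1 ≤ X') (hX'X : X' ≤ X) (hXN : 2 * X ≤ N)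
    (hβ : 0 < β) (hBox : β ≤ 𝔼 i, Box (k + 2) X (u i))
    (h1 : (k : ℝ) * (4 * X' / X) ≤ β / 2) (h2 : 2 * (X : ℝ) / N ≤ β / 4)
    (hη : η ≤ (β / 32) ^ (2 ^ k) / 2) (hLP : LPhM Ω F k X' X R V η) :
    ∃ (r : ZMod N) (θ : κ → (Fin k → ℕ) → (Fin k → ℕ) → ℕ → ℝ) (a' : κ → ℕ → Fin k → ℕ),
        (∀ i j, a' i j ∈ boxset k X') ∧
        (β / 32) ^ (2 ^ k + 1) ≤ 𝔼 i, 𝔼 j ∈ range (N / X), 𝔼 a ∈ boxset k X',
          𝔼 b ∈ boxset k X',
          (if dlm_maj R V (θ i a b j - psiSum (θ i) (a' i j) a b j) then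
            ‖𝔼 t ∈ range X, cube (u i) a b (r + ((j * X + t : ℕ) : ZMod N)) *
              e (-(θ i a b j * t))‖
          else 0) := by
  have hX1 : 1 ≤ X := hX'.trans hX'X
  have hXN1 : X ≤ N := by omega
  have hne : (boxset k X').Nonempty := by
    unfold boxset
    rw [Fintype.piFinset_nonempty]
    exact fun _ => ⟨0, mem_range.2 (by omega)⟩
  obtain ⟨r, θ0, hst⟩ := dlm_start hu X X' hX' hX'X hXN1 hBox h1 h2
  have hgd : β / 16 ≤ 𝔼 z ∈ (univ : Finset κ) ×ˢ (boxset k X' ×ˢ boxset k X'),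
      𝔼 j ∈ range (N / X), (if dla_good X r (cube (u z.1) z.2.1 z.2.2) (θ0 z) β j then
        ‖dla_S X r (cube (u z.1) z.2.1 z.2.2) (θ0 z) j‖ else 0) :=
    dla_good_avg ((univ : Finset κ) ×ˢ (boxset k X' ×ˢ boxset k X')) X r
      (fun z => cube (u z.1) z.2.1 z.2.2) θ0 β hβ hst
  set θ : κ → (Fin k → ℕ) → (Fin k → ℕ) → ℕ → ℝ :=
    fun i a b => dla_th X r (cube (u i) a b) (θ0 (i, (a, b))) β with hθ
  set cc : κ → (Fin k → ℕ) → (Fin k → ℕ) → ℕ → ℂ :=
    fun i a b => dla_cc X r (cube (u i) a b) (θ0 (i, (a, b))) β with hcc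
  -- the correlation
  exact by
    have hcorr := dlm_corr (u := u) (k := k) X X' hX1 hXN1 r θ0 β hβ
    have hXJ : (1 : ℝ) / 2 ≤ (X : ℝ) * ((N / X : ℕ) : ℝ) / N := by
      have hN : (0 : ℝ) < N := by exact_mod_cast Nat.pos_of_ne_zero (NeZero.ne N)
      rw [le_div_iff₀ hN]
      have h3 : N < X * (N / X) + X := by
        have h4 := Nat.div_add_mod N X
        have h5 := Nat.mod_lt N (show X > 0 by omega)
        omega
      have h6 : N ≤ 2 * (X * (N / X)) := by (clear * - k X' hXN h3; omega)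
      have h7 : (N : ℝ) ≤ 2 * ((X : ℝ) * ((N / X : ℕ) : ℝ)) := by exact_mod_cast h6
      (clear * - h7; linarith)
    have hδ1 : β / 32 ≤ ‖𝔼 i, 𝔼 a ∈ boxset k X', 𝔼 b ∈ boxset k X', 𝔼 x : ZMod N,
        cube (u i) a b x * bphase X r (cc i a b) (fun j => -θ i a b j) x‖ := by
      rw [hcc, hθ]
      dsimp only
      rw [hcorr, Complex.norm_real, Real.norm_eq_abs]
      refine le_trans ?_ (le_abs_self _)
      calc β / 32 = 1 / 2 * (β / 16) := by ring
        _ ≤ _ := mul_le_mul hXJ hgd (by positivity) (by (clear * - hXJ; positivity))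
    have hy := dlm_gcs_fam hk hrep hu X' hX'
      (fun i a b x => bphase X r (cc i a b) (fun j => -θ i a b j) x) (β / 32) (by (clear * - hβ; positivity)) hδ1
    -- the phases of the cube
    set P : κ → (Fin k → ℕ) → (Fin k → ℕ) → (Fin k → ℕ) → ℕ → ℝ := fun i a a' b j =>
      if cc i a b j ≠ 0 ∧ dlm_maj R V (θ i a b j - psiSum (θ i) a' a b j) then (1 : ℝ) else 0
      with hP
    have hW : ∀ c ∈ boxset k X' ×ˢ boxset k X', ∀ b ∈ boxset k X',
        (𝔼 n ∈ Ω, 𝔼 i, 𝔼 x : ZMod N, conj (cube (F n i) c.1 c.2 x) *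
          ∏ ω, cjj ω (bphase X r (cc i (sel ω c.1 c.2) b)
            (fun j => -θ i (sel ω c.1 c.2) b j) x)).re ≤
          (𝔼 i, 𝔼 j ∈ range (N / X), P i c.1 c.2 b j) + η := by
      intro c hc b _
      rw [mem_product] at hc
      refine (Complex.re_le_norm _).trans ?_
      have h3 := dlm_split hF X X' hX1 hLP c.1 c.2 hc.1 hc.2 r
        (fun i j => ∏ ω, cjj ω (cc i (sel ω c.1 c.2) b j))
        (fun i j => ∑ ω, sg ω * (-θ i (sel ω c.1 c.2) b j))
        (fun i j => dla_norm_prod_le _ _ (fun ω _ => by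
          rw [dla_norm_cjj]
          exact dla_cc_norm _ _ _ _ _ _))
        (fun i j hj => prod_eq_zero (mem_univ (fun _ : Fin k => false)) (by
          have h4 : cc i (sel (fun _ : Fin k => false) c.1 c.2) b j = 0 :=
            dla_cc_out _ _ _ _ _ _ hj
          rw [h4]
          unfold cjj
          split_ifs <;> simp))
      have h5 : 𝔼 n ∈ Ω, 𝔼 i, 𝔼 x : ZMod N, conj (cube (F n i) c.1 c.2 x) *
          ∏ ω, cjj ω (bphase X r (cc i (sel ω c.1 c.2) b)
            (fun j => -θ i (sel ω c.1 c.2) b j) x) =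
          𝔼 n ∈ Ω, 𝔼 i, 𝔼 x : ZMod N, conj (cube (F n i) c.1 c.2 x) *
            bphase X r (fun j => ∏ ω, cjj ω (cc i (sel ω c.1 c.2) b j))
            (fun j => ∑ ω, sg ω * (-θ i (sel ω c.1 c.2) b j)) x := by
        refine expect_congr rfl (fun n _ => expect_congr rfl (fun i _ => expect_congr rfl
          (fun x _ => ?_)))
        rw [dla_prod_bphase X r x (fun ω => cc i (sel ω c.1 c.2) b)
          (fun ω j => -θ i (sel ω c.1 c.2) b j)]
      rw [h5]
      refine h3.trans (add_le_add (expect_le_expect (fun i _ => expect_le_expect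
        (fun j _ => ?_))) le_rfl)
      rw [hP]
      dsimp only
      by_cases h6 : (∏ ω, cjj ω (cc i (sel ω c.1 c.2) b j)) ≠ 0 ∧
          dlm_maj R V (∑ ω, sg ω * (-θ i (sel ω c.1 c.2) b j))
      · rw [if_pos h6, if_pos]
        refine ⟨?_, ?_⟩
        · have h7 := (Finset.prod_ne_zero_iff.1 h6.1) (fun _ : Fin k => false) (mem_univ _)
          have h8 := dla_cjj_ne_zero _ _ h7
          have h9 : sel (fun _ : Fin k => false) c.1 c.2 = c.1 := by
            funext i
            simp [sel]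
          rwa [h9] at h8
        · have h7 := h6.2
          rwa [dla_psi (θ i), dlm_maj_neg] at h7
      · rw [if_neg h6]
        split_ifs <;> norm_num
    exact by
      have hsum : (β / 32) ^ (2 ^ k) / 2 ≤ 𝔼 c ∈ boxset k X' ×ˢ boxset k X', 𝔼 b ∈ boxset k X',
          𝔼 i, 𝔼 j ∈ range (N / X), P i c.1 c.2 b j := by
        have h3 : (β / 32) ^ (2 ^ k) ≤ 𝔼 c ∈ boxset k X' ×ˢ boxset k X', 𝔼 b ∈ boxset k X',
          ((𝔼 i, 𝔼 j ∈ range (N / X), P i c.1 c.2 b j) + η) :=
          hy.trans (expect_le_expect (fun c hc => expect_le_expect (fun b hb => hW c hc b hb)))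
        have h4 : 𝔼 c ∈ boxset k X' ×ˢ boxset k X', 𝔼 b ∈ boxset k X',
          ((𝔼 i, 𝔼 j ∈ range (N / X), P i c.1 c.2 b j) + η) =
            (𝔼 c ∈ boxset k X' ×ˢ boxset k X',
            𝔼 b ∈ boxset k X', 𝔼 i, 𝔼 j ∈ range (N / X), P i c.1 c.2 b j) + η := by
          simp only [expect_add_distrib]
          rw [expect_const hne, expect_const (hne.product hne)]
        rw [h4] at h3
        (clear * - hη h3; linarith)
      have hswap : 𝔼 c ∈ boxset k X' ×ˢ boxset k X', 𝔼 b ∈ boxset k X',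
          𝔼 i, 𝔼 j ∈ range (N / X), P i c.1 c.2 b j = 𝔼 i, 𝔼 j ∈ range (N / X),
            𝔼 a' ∈ boxset k X', 𝔼 a ∈ boxset k X', 𝔼 b ∈ boxset k X', P i a a' b j := by
        have e1 : ∀ c ∈ boxset k X' ×ˢ boxset k X', 𝔼 b ∈ boxset k X',
            𝔼 i, 𝔼 j ∈ range (N / X), P i c.1 c.2 b j =
            𝔼 i, 𝔼 b ∈ boxset k X', 𝔼 j ∈ range (N / X), P i c.1 c.2 b j :=
          fun c _ => expect_comm _ _ _
        rw [expect_congr rfl e1, expect_comm]
        refine expect_congr rfl (fun i _ => ?_)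
        rw [expect_product (boxset k X') (boxset k X') (fun c => 𝔼 b ∈ boxset k X',
          𝔼 j ∈ range (N / X), P i c.1 c.2 b j)]
        rw [expect_comm (s := boxset k X') (t := boxset k X')]
        rw [expect_comm (s := range (N / X)) (t := boxset k X')]
        refine expect_congr rfl (fun a' _ => ?_)
        rw [expect_comm (s := range (N / X)) (t := boxset k X')]
        refine expect_congr rfl (fun a _ => ?_)
        exact expect_comm _ _ _
      rw [hswap] at hsum
      have hch : ∀ (i : κ) (j : ℕ), ∃ a' ∈ boxset k X', 𝔼 a' ∈ boxset k X', 𝔼 a ∈ boxset k X',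
          𝔼 b ∈ boxset k X', P i a a' b j ≤ 𝔼 a ∈ boxset k X', 𝔼 b ∈ boxset k X', P i a a' b j :=
        fun i j => dla_exists_ge (boxset k X') hne (fun a' => 𝔼 a ∈ boxset k X',
          𝔼 b ∈ boxset k X', P i a a' b j)
      choose a' ha' hmax using hch
      refine ⟨r, θ, a', ha', ?_⟩
      have hfin : β / 16 * (𝔼 i, 𝔼 j ∈ range (N / X), 𝔼 a ∈ boxset k X', 𝔼 b ∈ boxset k X',
          P i a (a' i j) b j) ≤ 𝔼 i, 𝔼 j ∈ range (N / X), 𝔼 a ∈ boxset k X',
            𝔼 b ∈ boxset k X',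
              (if dlm_maj R V (θ i a b j - psiSum (θ i) (a' i j) a b j) then
                ‖𝔼 t ∈ range X, cube (u i) a b (r + ((j * X + t : ℕ) : ZMod N)) *
                  e (-(θ i a b j * t))‖
              else 0) := by
        rw [mul_expect]
        refine expect_le_expect (fun i _ => ?_)
        rw [mul_expect]
        refine expect_le_expect (fun j _ => ?_)
        rw [mul_expect]
        refine expect_le_expect (fun a _ => ?_)
        rw [mul_expect]
        refine expect_le_expect (fun b _ => ?_)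
        rw [hP]
        dsimp only
        by_cases h6 : cc i a b j ≠ 0 ∧ dlm_maj R V (θ i a b j - psiSum (θ i) (a' i j) a b j)
        · rw [if_pos h6, if_pos h6.2, mul_one]
          have hg : dla_good X r (cube (u i) a b) (θ0 (i, (a, b))) β j := dla_cc_ne h6.1
          have h7 := dla_S_good hg
          have h8 := hg.2
          rw [← h7] at h8
          exact h8
        · rw [if_neg h6, mul_zero]
          split_ifs
          · exact norm_nonneg _
          · exact le_rfl
      refine le_trans ?_ hfin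
      have h10 : (β / 32) ^ (2 ^ k) / 2 ≤ 𝔼 i, 𝔼 j ∈ range (N / X), 𝔼 a ∈ boxset k X',
          𝔼 b ∈ boxset k X', P i a (a' i j) b j :=
        hsum.trans (expect_le_expect (fun i _ => expect_le_expect (fun j _ => hmax i j)))
      calc (β / 32) ^ (2 ^ k + 1) = β / 16 * ((β / 32) ^ (2 ^ k) / 2) := by
            rw [pow_succ]
            ring
        _ ≤ _ := mul_le_mul_of_nonneg_left h10 (by positivity)

end dlm_steps

/-- **Degree lowering with major frequencies, first half.** -/
theorem dl_A' (k : ℕ) (hk : 1 ≤ k) : ∀ n : ℕ, ∃ n2 : ℕ, ∀ n1 : ℕ, ∃ n3 : ℕ,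
    ∀ (p : ℕ) [NeZero p] (κ ι : Type) [Fintype κ] [Nonempty κ] (Ω : Finset ι)
      (F : ι → κ → ZMod p → ℂ) (u : κ → ZMod p → ℂ) (δ : ℝ) (X X' : ℕ), Ω.Nonempty →
      (∀ n i x, ‖F n i x‖ ≤ 1) → (∀ i x, u i x = conj (𝔼 n ∈ Ω, F n i x)) →
      0 < δ → δ ≤ 1 / 2 → 1 ≤ X → (X : ℝ) ≤ δ ^ n3 * p →
      δ ^ n ≤ 𝔼 i, Box (k + 2) X (u i) → 1 ≤ X' → (X' : ℝ) ≤ δ ^ n3 * X →
      LPhM Ω F k X' X (δ⁻¹ ^ n1) (δ⁻¹ ^ n1 / X) (δ ^ n2) →
      ∃ (r : ZMod p) (θ : κ → (Fin k → ℕ) → (Fin k → ℕ) → ℕ → ℝ) (a' : κ → ℕ → Fin k → ℕ),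
        (∀ i j, a' i j ∈ boxset k X') ∧
        δ ^ n2 ≤ 𝔼 i, 𝔼 j ∈ range (p / X), 𝔼 a ∈ boxset k X', 𝔼 b ∈ boxset k X',
          (open scoped Classical in
          if (∃ q : ℕ, 1 ≤ q ∧ (q : ℝ) ≤ δ⁻¹ ^ n1 ∧
              dint (q * (θ i a b j - psiSum (θ i) (a' i j) a b j)) ≤ δ⁻¹ ^ n1 / X) then
            ‖𝔼 t ∈ range X, cube (u i) a b (r + ((j * X + t : ℕ) : ZMod p)) *
              e (-(θ i a b j * t))‖
          else 0) := by
  intro n
  refine ⟨(n + 5) * (2 ^ k + 1) + 0, fun n1 => ⟨n + k + 3, ?_⟩⟩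
  intro p _ κ ι _ _ Ω F u δ X X' hΩ hF hrep h0 h1 hX1 hXN hBox hX' hX'X hLP
  have hu : ∀ i x, ‖u i x‖ ≤ 1 := by
    intro i x
    rw [hrep, RCLike.norm_conj]
    exact dla_norm_expect_le_const _ _ _ zero_le_one (fun n _ => hF n i x)
  have hX0 : (0 : ℝ) < X := by exact_mod_cast hX1
  have hN0 : (0 : ℝ) < p := by exact_mod_cast Nat.pos_of_ne_zero (NeZero.ne p)
  have h2 : δ ^ (n + k + 3) ≤ 1 / 2 := by
    calc δ ^ (n + k + 3) ≤ δ ^ 1 := pow_le_pow_of_le_one h0.le (by (clear * - h0 h1; linarith)) (by omega)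
      _ = δ := pow_one δ
      _ ≤ 1 / 2 := h1
  have h3 : X' ≤ X := by
    have : (X' : ℝ) ≤ X := by
      refine hX'X.trans ?_
      calc δ ^ (n + k + 3) * (X : ℝ) ≤ 1 / 2 * X := mul_le_mul_of_nonneg_right h2 hX0.le
        _ ≤ X := by (clear * - hX0; linarith)
    exact_mod_cast this
  have h4 : 2 * X ≤ p := by
    have : 2 * (X : ℝ) ≤ p := by
      have h5 : δ ^ (n + k + 3) * (p : ℝ) ≤ 1 / 2 * p := mul_le_mul_of_nonneg_right h2 hN0.le
      (clear * - hXN h5; linarith)
    exact_mod_cast this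
  have h6 := dla_num3 h0 h1 n k 0
  have hβ : 0 < δ ^ n := pow_pos h0 n
  have hβ1 : δ ^ n ≤ 1 := pow_le_one₀ h0.le (by (clear * - h0 h1; linarith))
  obtain ⟨r, θ, a', ha', hfin⟩ := dlm_main hk hF hrep hu X X' hX' h3 h4 hβ hBox
    (dla_num1 h0 h1 n k hX0 hX'X) (dla_num2 h0 h1 n k hN0 hXN)
    (by
      refine h6.trans ?_
      rw [pow_succ]
      have h7 : 0 < (δ ^ n / 32) ^ 2 ^ k := by (clear * - h0; positivity)
      calc (δ ^ n / 32) ^ 2 ^ k * (δ ^ n / 32) ≤ (δ ^ n / 32) ^ 2 ^ k * (1 / 2) :=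
            mul_le_mul_of_nonneg_left (by (clear * - h0 h1 hβ1; linarith)) h7.le
        _ = (δ ^ n / 32) ^ 2 ^ k / 2 := by ring) hLP
  exact ⟨r, θ, a', ha', h6.trans hfin⟩

end

end Pool.Agent.Helper67.NX2

end

section

set_option autoImplicit false

open Finset

open scoped BigOperators ComplexConjugate

namespace Pool.Agent.Helper67.NX2

open Pool.Agent.Helper57.NX

noncomputable section

/-- `‖e t - 1‖ ≤ 2π dint t` -/
theorem norm_e_sub_one_le21 (t : ℝ) : ‖e t - 1‖ ≤ 2 * Real.pi * dint t := by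
  have h : e t = e (t - round t) := by
    have h1 : t = (t - round t) + ((round t : ℤ) : ℝ) := by ring
    conv_lhs => rw [h1, e_add, e_int, mul_one]
  have h2 := norm_e_sub_e_le (t - round t) 0
  rw [e_zero, sub_zero] at h2
  rw [h]
  exact h2

end

end Pool.Agent.Helper67.NX2

end
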