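import Pool.Agent.Helper23.MC.L01_a0
import Pool.Agent.Helper23.MC.L01_a1
import Pool.Agent.Helper23.MC.L01_a12
import Pool.Agent.Helper23.MC.L01_a13
import Pool.Agent.Helper23.MC.L01_a2
import Pool.Agent.Helper23.MC.L01_a8

/-!
Parts of Helper99.NX.LpLocalAux, Helper92.NX2.Bc, Helper94.NX2.LowStep, Helper94.NX2.LowCore
-/

attribute [local instance 5000]
  Pool.Agent.Helper23.MC.Inst.rCharZero Pool.Agent.Helper23.MC.Inst.rALM
  Pool.Agent.Helper23.MC.Inst.rARM Pool.Agent.Helper23.MC.Inst.rALSM
  Pool.Agent.Helper23.MC.Inst.rARSM Pool.Agent.Helper23.MC.Inst.rARRLE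
  Pool.Agent.Helper23.MC.Inst.rALRLE Pool.Agent.Helper23.MC.Inst.rARRLT
  Pool.Agent.Helper23.MC.Inst.rALRLT Pool.Agent.Helper23.MC.Inst.rPMRLT
  Pool.Agent.Helper23.MC.Inst.rMPRLT Pool.Agent.Helper23.MC.Inst.rPMM
  Pool.Agent.Helper23.MC.Inst.rMPM Pool.Agent.Helper23.MC.Inst.rPMSM
  Pool.Agent.Helper23.MC.Inst.rMPSM Pool.Agent.Helper23.MC.Inst.rEAOL
  Pool.Agent.Helper23.MC.Inst.rIOR Pool.Agent.Helper23.MC.Inst.rISOR
  Pool.Agent.Helper23.MC.Inst.rNZD Pool.Agent.Helper23.MC.Inst.rcCharZero
  Pool.Agent.Helper23.MC.Inst.rcNZD Pool.Agent.Helper23.MC.Inst.zCharZero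
  Pool.Agent.Helper23.MC.Inst.zALM Pool.Agent.Helper23.MC.Inst.zARM
  Pool.Agent.Helper23.MC.Inst.zALSM Pool.Agent.Helper23.MC.Inst.zARSM
  Pool.Agent.Helper23.MC.Inst.zIOR Pool.Agent.Helper23.MC.Inst.zISOR
  Pool.Agent.Helper23.MC.Inst.zNZD Pool.Agent.Helper23.MC.Inst.qCharZero
  Pool.Agent.Helper23.MC.Inst.mR Pool.Agent.Helper23.MC.Inst.mC Pool.Agent.Helper23.MC.Inst.mRC
  Pool.Agent.Helper23.MC.Inst.rPSM Pool.Agent.Helper23.MC.Inst.rCSM
  Pool.Agent.Helper23.MC.Inst.cAdd Pool.Agent.Helper23.MC.Inst.cAddM
  Pool.Agent.Helper23.MC.Inst.cMul Pool.Agent.Helper23.MC.Inst.cMon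

namespace Pool.Agent.Helper57.NX
end Pool.Agent.Helper57.NX

section

set_option autoImplicit false

open Finset

open scoped BigOperators ComplexConjugate

namespace Pool.Agent.Helper57.NX

noncomputable section

theorem lpl_classes_c (X q0 κ : ℕ) (hX : 1 ≤ X) (hq0 : 1 ≤ q0) (W M : ℝ) (hW : 2 ≤ W)
    (hWM : 32 * W ≤ M) (cc : ℕ → ℂ) (φ : ℕ → ℝ) (ϑ : ℝ) (hcc : ∀ j, ‖cc j‖ ≤ 1)
    (hφ : ∀ j, j / q0 = κ → cc j ≠ 0 → |φ j - ϑ| ≤ W / X) [NeZero (4 * (X * q0))]
    (t : ZMod (4 * (X * q0))) :
    Adm (N := 4 * (X * q0)) M X (fun y => cpf X (X * q0) κ cc φ ϑ (y - t).val) := by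
  have hX0 : (0 : ℝ) < X := by exact_mod_cast hX
  have hXN' : (X : ℝ) ≤ ((4 * (X * q0) : ℕ) : ℝ) := by
    have : X ≤ 4 * (X * q0) := by nlinarith
    exact_mod_cast this
  have h1 := lpl_wrap (N' := 4 * (X * q0)) (cpf X (X * q0) κ cc φ ϑ)
    (2 * Real.pi * W + 2) X hX0 hXN' (cpf_norm X (X * q0) κ cc φ ϑ hcc)
    (cpf_tv X q0 κ hX hq0 cc φ ϑ W (by (clear * - hW; linarith)) hcc hφ)
  have h2 : Adm (N := 4 * (X * q0)) M X (fun y => cpf X (X * q0) κ cc φ ϑ y.val) := by
    refine ⟨fun y => cpf_norm X (X * q0) κ cc φ ϑ hcc _, ?_⟩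
    refine h1.mono ?_ hX0 le_rfl
    refine le_trans ?_ hWM
    have hπ : Real.pi ≤ 3.15 := Real.pi_lt_d2.le
    have h2 : Real.pi * W ≤ 3.15 * W := mul_le_mul_of_nonneg_right hπ (by (clear * - hW; linarith))
    linarith
  have h3 := h2.shift (-t)
  simpa only [sub_eq_add_neg] using h3

end

end Pool.Agent.Helper57.NX

end

section

set_option autoImplicit false

open Finset

open scoped BigOperators ComplexConjugate

namespace Pool.Agent.Helper67.NX2

open Pool.Agent.Helper57.NX

noncomputable section

section Core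

variable {N : ℕ} [NeZero N]

/-- the core: freezing the residue of the top function -/
theorem core92 {Q p ℓ : ℕ} (hN : N = Q * p) (hQ : 1 ≤ Q) {B δ : ℝ} (hℓ : 1 ≤ ℓ)
    (I : Finset ℕ) (H : ℕ → ZMod N → ℂ) (hH : ∀ k, Adm B Q (H k)) (b : ℕ → ℤ) (g : ZMod N → ℂ)
    (hg : ∀ x, ‖g x‖ ≤ 1) (hB : (2 * B + 1) * ℓ < δ / 2 * Q)
    (h : δ ≤ ‖𝔼 k ∈ I, 𝔼 x : ZMod N, H k x * g (x + ((Q * b k : ℤ) : ZMod N))‖) :
    ∃ r0 : ℕ, r0 + ℓ ≤ Q ∧ (ℓ : ℝ) / Q * (δ / 2) ≤
      ‖𝔼 k ∈ I, 𝔼 x : ZMod N, ((if r0 ≤ x.val % Q ∧ x.val % Q < r0 + ℓ then (1 : ℂ) else 0) *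
        H k x) * g ((Q * ((x + ((Q * b k : ℤ) : ZMod N)).val / Q) + r0 : ℕ) : ZMod N)‖ := by
  have hQ0 : (0 : ℝ) < Q := by exact_mod_cast hQ
  have hp : 1 ≤ p := by
    rcases Nat.eq_zero_or_pos p with h0 | h0
    · exfalso; apply NeZero.ne N; rw [hN, h0, mul_zero]
    · exact h0
  have hp0 : (0 : ℝ) < p := by exact_mod_cast hp
  set T : ℕ → ℕ → ℕ → ℕ → ℂ := fun k r' r z => H k ((Q * z + r' : ℕ) : ZMod N) *
    g (((Q * z + r : ℕ) : ZMod N) + ((Q * b k : ℤ) : ZMod N)) with hT
  set Ψ : ℕ → ℕ → ℂ := fun r' r => 𝔼 k ∈ I, (∑ z ∈ range p, T k r' r z) / p with hΨ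
  set Δ : ℕ → ℝ := fun r => 𝔼 k ∈ I, (∑ z ∈ range p, ∑ t ∈ range ℓ,
    ‖H k (((Q * z + r : ℕ) : ZMod N) + (t : ZMod N) + 1) -
      H k (((Q * z + r : ℕ) : ZMod N) + (t : ZMod N))‖) / p with hΔ
  -- (1)
  exact by
    have h1 : 𝔼 k ∈ I, 𝔼 x : ZMod N, H k x * g (x + ((Q * b k : ℤ) : ZMod N)) =
        (∑ r ∈ range Q, Ψ r r) / Q := by
      rw [hΨ]
      simp only
      rw [← expect_sum_comm, expect_div]
      refine expect_congr rfl fun k _ => ?_
      rw [expect_fib92 hN]
    -- (2)
    have h2 : ∀ r0 : ℕ, r0 + ℓ ≤ Q → 𝔼 k ∈ I, 𝔼 x : ZMod N,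
        ((if r0 ≤ x.val % Q ∧ x.val % Q < r0 + ℓ then (1 : ℂ) else 0) *
          H k x) * g ((Q * ((x + ((Q * b k : ℤ) : ZMod N)).val / Q) + r0 : ℕ) : ZMod N) =
        (∑ s ∈ range ℓ, Ψ (r0 + s) r0) / Q := by
      intro r0 hr0
      rw [hΨ]
      simp only
      rw [← expect_sum_comm, expect_div]
      refine expect_congr rfl fun k _ => ?_
      rw [expect_fib92 hN]
      congr 1
      have h3 : ∀ r ∈ range Q, (∑ z ∈ range p,
          ((if r0 ≤ (((Q * z + r : ℕ) : ZMod N)).val % Q ∧
              (((Q * z + r : ℕ) : ZMod N)).val % Q < r0 + ℓ then (1 : ℂ) else 0) *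
            H k ((Q * z + r : ℕ) : ZMod N)) *
            g ((Q * ((((Q * z + r : ℕ) : ZMod N) + ((Q * b k : ℤ) : ZMod N)).val / Q) + r0 : ℕ) :
              ZMod N)) / (p : ℂ) =
          if r ∈ Ico r0 (r0 + ℓ) then (∑ z ∈ range p, T k r r0 z) / (p : ℂ) else 0 := by
        intro r hr
        have hr' := mem_range.1 hr
        have h4 : ∀ z ∈ range p, ((if r0 ≤ (((Q * z + r : ℕ) : ZMod N)).val % Q ∧
              (((Q * z + r : ℕ) : ZMod N)).val % Q < r0 + ℓ then (1 : ℂ) else 0) *
            H k ((Q * z + r : ℕ) : ZMod N)) *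
            g ((Q * ((((Q * z + r : ℕ) : ZMod N) + ((Q * b k : ℤ) : ZMod N)).val / Q) + r0 : ℕ) :
              ZMod N) = if r ∈ Ico r0 (r0 + ℓ) then T k r r0 z else 0 := by
          intro z hz
          rw [val92 hN (mem_range.1 hz) hr', Nat.mul_add_mod, Nat.mod_eq_of_lt hr', arg92 hN hr']
          by_cases h5 : r0 ≤ r ∧ r < r0 + ℓ
          · rw [if_pos h5, if_pos (mem_Ico.2 h5), one_mul]
          · rw [if_neg h5, if_neg (fun h6 => h5 (mem_Ico.1 h6)), zero_mul, zero_mul]
        rw [sum_congr rfl h4]
        split_ifs with h5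
        · rfl
        · simp
      rw [sum_congr rfl h3, ← sum_filter]
      have h6 : (range Q).filter (fun r => r ∈ Ico r0 (r0 + ℓ)) = Ico r0 (r0 + ℓ) := by
        ext r
        simp only [mem_filter, mem_range, mem_Ico]
        constructor
        · rintro ⟨_, h⟩; exact h
        · intro h; exact ⟨by omega, h⟩
      rw [h6, sum_Ico_eq_sum_range, Nat.add_sub_cancel_left]
    -- (3)
    have h3 : ∀ r s : ℕ, s < ℓ → ‖Ψ (r + s) r - Ψ r r‖ ≤ Δ r := by
      intro r s hs
      rw [hΨ, hΔ]
      simp only
      rw [← expect_sub_distrib]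
      refine (norm_expect_le5 _ _).trans (expect_le_expect fun k _ => ?_)
      rw [← sub_div, ← sum_sub_distrib, norm_div, Complex.norm_natCast]
      refine div_le_div_of_nonneg_right ?_ hp0.le
      refine (norm_sum_le _ _).trans (sum_le_sum fun z _ => ?_)
      rw [hT]
      simp only
      rw [← sub_mul, norm_mul]
      refine (mul_le_of_le_one_right (norm_nonneg _) (hg _)).trans ?_
      have h4 : ((Q * z + (r + s) : ℕ) : ZMod N) = ((Q * z + r : ℕ) : ZMod N) + (s : ZMod N) := by
        push_cast; ring
      rw [h4]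
      refine (norm_shift_nat5 (H k) _ s).trans ?_
      exact sum_le_sum_of_subset_of_nonneg (range_subset_range.2 hs.le) fun _ _ _ => norm_nonneg _
    -- (4)
    have h4 : ∑ r ∈ range Q, Δ r ≤ 2 * B * ℓ := by
      rw [hΔ]
      simp only
      rw [← expect_sum_comm]
      have hB0 : 0 ≤ B := (hH 0).tv.nonneg
      refine expect_le_of5 _ _ (by (clear * - hB0 hℓ; positivity)) fun k _ => ?_
      rw [← sum_div, div_le_iff₀ hp0, sum_comm]
      refine (sum_le_card_nsmul _ _ (2 * B * ℓ) fun z _ => ?_).trans (le_of_eq ?_)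
      · rw [sum_comm]
        refine (sum_le_card_nsmul _ _ (2 * B) fun t _ => ?_).trans (le_of_eq ?_)
        · have h5 := (hH k).tv (((Q * z : ℕ) : ZMod N) + (t : ZMod N)) Q
          rw [div_self hQ0.ne'] at h5
          refine le_trans (le_of_eq ?_) (h5.trans (le_of_eq (by ring)))
          refine sum_congr rfl fun r _ => ?_
          congr 3 <;> (push_cast; ring)
        · rw [card_range, nsmul_eq_mul]; ring
      · rw [card_range, nsmul_eq_mul]; ring
    -- (5)
    have h5 : ∃ r0 : ℕ, r0 + ℓ ≤ Q ∧ δ / 2 ≤ ‖Ψ r0 r0‖ - Δ r0 := by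
      by_contra hc
      push Not at hc
      have h6 : δ * Q ≤ ∑ r ∈ range Q, ‖Ψ r r‖ := by
        rw [h1, norm_div, Complex.norm_natCast, le_div_iff₀ hQ0] at h
        exact h.trans (norm_sum_le _ _)
      have hΨ1 : ∀ r, ‖Ψ r r‖ ≤ 1 := by
        intro r
        rw [hΨ]
        simp only
        refine norm_expect_le_of5 _ _ zero_le_one fun k _ => ?_
        rw [norm_div, Complex.norm_natCast, div_le_iff₀ hp0]
        refine (norm_sum_le _ _).trans ((sum_le_card_nsmul _ _ 1 fun z _ => ?_).trans ?_)
        · rw [hT]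
          simp only
          rw [norm_mul]
          exact mul_le_one₀ ((hH k).bdd _) (norm_nonneg _) (hg _)
        · rw [card_range]; simp
      have hΔ0 : ∀ r, 0 ≤ Δ r := by
        intro r
        rw [hΔ]
        simp only
        exact expect_nonneg fun k _ => div_nonneg (sum_nonneg fun _ _ => sum_nonneg fun _ _ =>
          norm_nonneg _) hp0.le
      have hℓQ : ℓ ≤ Q := by
        by_contra hlt
        push Not at hlt
        have hδ1 : δ ≤ 1 := by
          refine h.trans (norm_expect_le_of5 _ _ zero_le_one fun k _ =>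
            norm_expect_le_of5 _ _ zero_le_one fun x _ => ?_)
          rw [norm_mul]
          exact mul_le_one₀ ((hH k).bdd _) (norm_nonneg _) (hg _)
        have hB0 : 0 ≤ B := (hH 0).tv.nonneg
        have h7 : (Q : ℝ) < ℓ := by exact_mod_cast hlt
        have h8 : (ℓ : ℝ) ≤ (2 * B + 1) * ℓ := by (clear * - hB hQ0 h7 hδ1 hB0; nlinarith)
        (clear * - hB hQ0 h7 h8 hδ1; nlinarith)
      have h7 : ∑ r ∈ range Q, ‖Ψ r r‖ ≤ ∑ r ∈ range Q, (δ / 2 + Δ r) + ℓ := by
        obtain ⟨M, hM⟩ := Nat.exists_eq_add_of_le hℓQ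
        have h8 : range Q = range (ℓ + M) := by rw [hM]
        have h9 : ∑ r ∈ range Q, ‖Ψ r r‖ = ∑ r ∈ range M, ‖Ψ r r‖ +
            ∑ r ∈ range ℓ, ‖Ψ (M + r) (M + r)‖ := by
          rw [h8, add_comm, sum_range_add]
        have h10 : ∑ r ∈ range Q, (δ / 2 + Δ r) = ∑ r ∈ range M, (δ / 2 + Δ r) +
            ∑ r ∈ range ℓ, (δ / 2 + Δ (M + r)) := by
          rw [h8, add_comm, sum_range_add]
        rw [h9, h10]
        have h11 : ∑ r ∈ range M, ‖Ψ r r‖ ≤ ∑ r ∈ range M, (δ / 2 + Δ r) := by
          refine sum_le_sum fun r hr => ?_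
          have := hc r (by have := mem_range.1 hr; omega)
          (clear * - this; linarith)
        have h12 : ∑ r ∈ range ℓ, ‖Ψ (M + r) (M + r)‖ ≤ ℓ := by
          refine (sum_le_card_nsmul _ _ 1 fun r _ => hΨ1 _).trans ?_
          rw [card_range]; simp
        have hδ0 : 0 < δ := by
          by_contra hneg
          push Not at hneg
          have hB0 : 0 ≤ B := (hH 0).tv.nonneg
          have h13 : δ / 2 * Q ≤ 0 := mul_nonpos_of_nonpos_of_nonneg (by (clear * - hneg; linarith)) hQ0.le
          have h14 : 0 ≤ (2 * B + 1) * (ℓ : ℝ) := by (clear * - hB0 hℓ; positivity)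
          (clear * - hB h13 h14; linarith)
        have h15 : 0 ≤ ∑ r ∈ range ℓ, (δ / 2 + Δ (M + r)) :=
          sum_nonneg fun r _ => add_nonneg (by (clear * - hδ0; linarith)) (hΔ0 _)
        linarith
      rw [sum_add_distrib, sum_const, card_range, nsmul_eq_mul] at h7
      (clear * - hB h4 h6 h7; nlinarith)
    -- (6)
    obtain ⟨r0, hr0, h6⟩ := h5
    refine ⟨r0, hr0, ?_⟩
    rw [h2 r0 hr0, norm_div, Complex.norm_natCast, div_mul_eq_mul_div]
    refine div_le_div_of_nonneg_right ?_ hQ0.le
    have h7 : ∑ s ∈ range ℓ, Ψ (r0 + s) r0 =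
        (ℓ : ℂ) * Ψ r0 r0 + ∑ s ∈ range ℓ, (Ψ (r0 + s) r0 - Ψ r0 r0) := by
      rw [sum_sub_distrib, sum_const, card_range, nsmul_eq_mul]; ring
    have h8 : ‖∑ s ∈ range ℓ, (Ψ (r0 + s) r0 - Ψ r0 r0)‖ ≤ ℓ * Δ r0 := by
      refine (norm_sum_le _ _).trans ((sum_le_card_nsmul _ _ (Δ r0) fun s hs =>
        h3 r0 s (mem_range.1 hs)).trans (le_of_eq ?_))
      rw [card_range, nsmul_eq_mul]
    have h9 : ‖(ℓ : ℂ) * Ψ r0 r0‖ = ℓ * ‖Ψ r0 r0‖ := by
      rw [norm_mul, Complex.norm_natCast]
    rw [h7]
    have h10 := norm_sub_norm_le ((ℓ : ℂ) * Ψ r0 r0) (-(∑ s ∈ range ℓ, (Ψ (r0 + s) r0 - Ψ r0 r0)))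
    rw [norm_neg, sub_neg_eq_add, h9] at h10
    have h11 : (ℓ : ℝ) * (δ / 2) ≤ ℓ * (‖Ψ r0 r0‖ - Δ r0) :=
      mul_le_mul_of_nonneg_left h6 (Nat.cast_nonneg _)
    have h12 : (ℓ : ℝ) * (‖Ψ r0 r0‖ - Δ r0) = ℓ * ‖Ψ r0 r0‖ - ℓ * Δ r0 := by ring
    (clear * - h8 h10 h11; linarith)

end Core

theorem bc (m : ℕ) : ∃ C : ℕ, ∀ (c : Fin (m + 1) → ℝ) (d : ℕ) (_ : c (Fin.last m) = d)
    (S : Sys (m + 1)) (N : ℕ) [NeZero N] (lam : ℕ) (x : ℝ), 1 ≤ S.D → IG S c N x lam →
    ∀ δ : ℝ, 0 < δ → δ ≤ 1 / 2 → δ⁻¹ ^ C ≤ S.Q →
    ∀ (f0 : ZMod N → ℂ) (f : Fin m → ZMod N → ℂ) (g : ZMod N → ℂ),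
    Adm δ⁻¹ S.Q f0 → (∀ i, Adm δ⁻¹ S.Q (f i)) → (∀ x, ‖g x‖ ≤ 1) →
    δ ≤ ‖form S c 1 f0 (Fin.snoc (α := fun _ => ZMod N → ℂ) f g)‖ →
    ∃ e : ℕ, e < S.Q ∧ ∃ f0' : ZMod N → ℂ, Adm (δ⁻¹ ^ 3) S.Q f0' ∧
      δ ^ C ≤ ‖form S c 1 f0' (Fin.snoc (α := fun _ => ZMod N → ℂ) f
        (fun x => g ((S.Q * (x.val / S.Q) + e : ℕ) : ZMod N)))‖ := by
  refine ⟨m + 9, ?_⟩
  intro c d hd S N _ lam x hD hIG δ hδ0 hδ1 hQC f0 f g hf0 hf hg hform
  have hD0 : 0 < S.D := by (clear * - hD hδ0 hδ1; linarith)
  obtain ⟨r, hr⟩ := hIG.rho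
  obtain ⟨p, hp, hN⟩ := hIG.prime
  have hδi : (2 : ℝ) ≤ δ⁻¹ := by
    rw [le_inv_comm₀ (by norm_num) hδ0]; (clear * - hδ1; linarith)
  have hm1 : (1 : ℝ) ≤ (m : ℝ) + 1 := by
    have : (0 : ℝ) ≤ m := Nat.cast_nonneg m
    (clear * -; linarith)
  have hm2 : (m : ℝ) + 1 ≤ 2 ^ m := by
    have : m + 1 ≤ 2 ^ m := Nat.lt_two_pow_self
    exact_mod_cast this
  have hQ0 : (0 : ℝ) < S.Q := lt_of_lt_of_le (by positivity) hQC
  have hQ : 1 ≤ S.Q := by exact_mod_cast (Nat.cast_pos.1 hQ0)
  -- the functions `H k`
  exact by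
    set H : ℕ → ZMod N → ℂ := fun k x => f0 x * ∏ i : Fin m, f i (x + (S.a c i.castSucc k : ZMod N))
      with hHdef
    have hH : ∀ k, Adm ((m + 1) * δ⁻¹) S.Q (H k) := by
      intro k
      have h1 := hf0.mul (Adm.prod (univ : Finset (Fin m)) (B := fun _ => δ⁻¹) hQ0
        (fun i _ => (hf i).shift (S.a c i.castSucc k : ZMod N)))
      rw [sum_const, card_univ, Fintype.card_fin, nsmul_eq_mul] at h1
      refine h1.mono (le_of_eq (by ring)) hQ0 le_rfl
    set b : ℕ → ℤ := fun k => (((lam * k + r) ^ d : ℕ) : ℤ) with hb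
    have hformH : ∀ (f0' : ZMod N → ℂ) (g' : ZMod N → ℂ),
        form S c 1 f0' (Fin.snoc (α := fun _ => ZMod N → ℂ) f g') =
        𝔼 k ∈ S.I, 𝔼 x : ZMod N, (f0' x * ∏ i : Fin m, f i (x + (S.a c i.castSucc k : ZMod N))) *
          g' (x + ((S.Q * b k : ℤ) : ZMod N)) := by
      intro f0' g'
      unfold form
      refine expect_congr rfl fun k _ => ?_
      rw [Pi.one_apply, one_mul]
      refine expect_congr rfl fun x _ => ?_
      rw [Fin.prod_univ_castSucc, Fin.snoc_last, a_last92 hd hD0 hIG hr k]
      simp only [Fin.snoc_castSucc]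
      ring
    rw [hformH] at hform
    -- the length
    set y : ℝ := δ ^ 2 * S.Q / (12 * (m + 1)) with hy
    have hy1 : 1 ≤ y := by
      rw [hy, le_div_iff₀ (by (clear * -; positivity)), one_mul]
      have h1 : δ ^ 2 * δ⁻¹ ^ (m + 9) ≤ δ ^ 2 * S.Q := mul_le_mul_of_nonneg_left hQC (by positivity)
      have h2 : δ ^ 2 * δ⁻¹ ^ (m + 9) = δ⁻¹ ^ (m + 7) := by
        rw [show m + 9 = 2 + (m + 7) by ring, pow_add, ← mul_assoc, ← mul_pow,
          mul_inv_cancel₀ hδ0.ne', one_pow, one_mul]
      have h3 : (2 : ℝ) ^ (m + 7) ≤ δ⁻¹ ^ (m + 7) := pow_le_pow_left₀ (by norm_num) hδi _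
      have h4 : (2 : ℝ) ^ (m + 7) = 128 * 2 ^ m := by rw [pow_add]; norm_num; ring
      (clear * - hδ0 hδ1 hm2 h1 h2 h3 h4; nlinarith)
    exact by
      obtain ⟨e0, he0, he1⟩ := core92 (ℓ := ⌊y⌋₊) (B := (m + 1) * δ⁻¹) (δ := δ) hN hQ
        (Nat.le_floor (by exact_mod_cast hy1)) S.I H hH b g hg (by
          have h1 : (⌊y⌋₊ : ℝ) ≤ y := Nat.floor_le (by (clear * - hδ0 hδ1 hy1; linarith))
          have h2 : (2 * (((m : ℝ) + 1) * δ⁻¹) + 1) ≤ 3 * (((m : ℝ) + 1) * δ⁻¹) := by (clear * - hδ0 hδ1 hδi; nlinarith)
          have h3 : 0 < ((m : ℝ) + 1) * δ⁻¹ := by (clear * - hδ0; positivity)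
          calc (2 * (((m : ℝ) + 1) * δ⁻¹) + 1) * (⌊y⌋₊ : ℝ)
              ≤ 3 * (((m : ℝ) + 1) * δ⁻¹) * y := mul_le_mul h2 h1 (Nat.cast_nonneg _) (by (clear * - hδ0; positivity))
            _ = δ / 4 * S.Q := by rw [hy]; field_simp; norm_num
            _ < δ / 2 * S.Q := by (clear * - hδ0 hQ0; nlinarith)) hform
      have hfl : 1 ≤ ⌊y⌋₊ := Nat.le_floor (by exact_mod_cast hy1)
      refine ⟨e0, by omega, fun x => (if e0 ≤ x.val % S.Q ∧ x.val % S.Q < e0 + ⌊y⌋₊ then (1 : ℂ)
        else 0) * f0 x, ?_, ?_⟩
      · refine ((ind92 hN hQ he0).mul hf0).mono ?_ hQ0 le_rfl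
        have h1 : δ⁻¹ ^ 3 = δ⁻¹ * δ⁻¹ ^ 2 := by ring
        rw [h1]
        (clear * - hδ1 hδi hδ0; nlinarith)
      · rw [hformH]
        exact by
          have h1 : (𝔼 k ∈ S.I, 𝔼 x : ZMod N, ((if e0 ≤ x.val % S.Q ∧ x.val % S.Q < e0 + ⌊y⌋₊ then
              (1 : ℂ) else 0) * f0 x * ∏ i : Fin m, f i (x + (S.a c i.castSucc k : ZMod N))) *
                g ((S.Q * ((x + ((S.Q * b k : ℤ) : ZMod N)).val / S.Q) + e0 : ℕ) : ZMod N)) =
              𝔼 k ∈ S.I, 𝔼 x : ZMod N, ((if e0 ≤ x.val % S.Q ∧ x.val % S.Q < e0 + ⌊y⌋₊ then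
              (1 : ℂ) else 0) * H k x) *
                g ((S.Q * ((x + ((S.Q * b k : ℤ) : ZMod N)).val / S.Q) + e0 : ℕ) : ZMod N) := by
            refine expect_congr rfl fun k _ => expect_congr rfl fun x _ => ?_
            rw [hHdef]
            ring
          rw [h1]
          refine le_trans ?_ he1
          have h2 : y / 2 ≤ (⌊y⌋₊ : ℝ) := by
            have h3 := Nat.lt_floor_add_one y
            have h4 : (1 : ℝ) ≤ ⌊y⌋₊ := by exact_mod_cast hfl
            (clear * - h3 h4; linarith)
          have h5 : δ ^ 3 / (48 * (m + 1)) ≤ (⌊y⌋₊ : ℝ) / S.Q * (δ / 2) := by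
            calc δ ^ 3 / (48 * (m + 1)) = y / 2 / S.Q * (δ / 2) := by rw [hy]; field_simp; norm_num
              _ ≤ _ := by (clear * - h2 hQ hδ0; gcongr)
          refine le_trans ?_ h5
          rw [le_div_iff₀ (by (clear * -; positivity))]
          have h6 : δ ^ (m + 6) ≤ (1 / 2) ^ (m + 6) := pow_le_pow_left₀ hδ0.le hδ1 _
          have h7 : ((1 : ℝ) / 2) ^ (m + 6) * (48 * (m + 1)) ≤ 1 := by
            rw [one_div, inv_pow, inv_mul_le_iff₀ (by positivity), pow_add]
            (clear * - hδ0 hδ1 hm2; nlinarith)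
          have h8 : δ ^ (m + 9) = δ ^ 3 * δ ^ (m + 6) := by rw [← pow_add]; congr 1; ring
          rw [h8, mul_assoc]
          refine mul_le_of_le_one_right (by positivity) ?_
          refine le_trans (mul_le_mul_of_nonneg_right h6 (by (clear * -; positivity))) h7

end

end Pool.Agent.Helper67.NX2

end

section

set_option autoImplicit false

open Finset

open scoped BigOperators ComplexConjugate

namespace Pool.Agent.Helper67.NX2

open Pool.Agent.Helper57.NX

noncomputable section

namespace Low94

/-- lengthening: a top function which is smooth along progressions and has small averages gives a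
small form -/
theorem long {m : ℕ} {c : Fin (m + 1) → ℝ} {d : ℕ} (hd : c (Fin.last m) = d) {s ε x2 : ℝ}
    {C2 : ℕ} {σ2 D2 : ℝ} (har : ArC m c s ε x2 C2 σ2 D2) {Cb : ℕ} (hbc : BcC m Cb)
    {S : Sys (m + 1)} {N : ℕ} [NeZero N] {lam : ℕ} (hD2 : D2 ≤ S.D) (hD1 : 1 ≤ S.D)
    (hIG : IG S c N x2 lam) {δb δc : ℝ} (hb0 : 0 < δb) (hb1 : δb ≤ 1 / 2)
    (hbQ : δb⁻¹ ^ Cb ≤ S.Q) (hc0 : S.D ^ (-σ2) ≤ δc) (hc1 : δc ≤ 1 / 2)
    (hcl : (lam : ℝ) ≤ δc⁻¹) (hcb : δc ≤ δb ^ Cb) (hcb3 : δb⁻¹ ^ 3 ≤ δc⁻¹) {q : ℕ} (hq : 1 ≤ q)
    (hqc : (q : ℝ) ≤ δc⁻¹) {L1 : ℕ} (hL1 : 1 ≤ L1) (hL1s : S.D ^ (s - σ2) ≤ (L1 : ℝ))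
    {f0 : ZMod N → ℂ} {f : Fin m → ZMod N → ℂ} {g : ZMod N → ℂ} (hf0 : Adm δb⁻¹ S.Q f0)
    (hf : ∀ i, Adm δb⁻¹ S.Q (f i)) (hg : ∀ x, ‖g x‖ ≤ 1)
    (hl : ∀ x, ‖g (x + ((S.Q * q : ℕ) : ZMod N)) - g x‖ ≤ 2 / L1)
    (hform : δb ≤ ‖form S c 1 f0 (Fin.snoc (α := fun _ => ZMod N → ℂ) f g)‖) {L : ℕ} (hL : 1 ≤ L)
    (hLP : (L : ℝ) * (S.Q * q) ≤ S.P (Fin.last m) * S.D ^ (-ε)) {B : ℝ}
    (hB : ∀ x, ‖Aq (S.Q * q) L g x‖ ≤ B) : δc ^ C2 ≤ B := by
  have hD0 : 0 < S.D := by linarith
  have hδc0 : 0 < δc := (Real.rpow_pos_of_pos hD0 _).trans_le hc0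
  have hQ0 : (0 : ℝ) < S.Q := (Real.rpow_pos_of_pos hD0 _).trans_le hIG.good.Q1
  have hQ1 : 1 ≤ S.Q := by exact_mod_cast Nat.cast_pos.1 hQ0
  obtain ⟨p, hp, hN⟩ := hIG.prime
  haveI : NeZero p := ⟨hp.pos.ne'⟩
  obtain ⟨e, he, f0', hf0', hform'⟩ := hbc c d hd S N lam x2 hD1 hIG δb hb0 hb1 hbQ f0 f g hf0 hf
    hg hform
  have h2c : (2 : ℝ) ≤ δc⁻¹ := by
    rw [le_inv_comm₀ (by norm_num) hδc0]
    linarith
  exact by
    have hbi : (1 : ℝ) ≤ δb⁻¹ := by
      rw [one_le_inv₀ hb0]
      linarith
    have hb3 : δb⁻¹ ≤ δc⁻¹ := by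
      refine le_trans ?_ hcb3
      calc δb⁻¹ = δb⁻¹ ^ 1 := (pow_one _).symm
        _ ≤ δb⁻¹ ^ 3 := pow_le_pow_right₀ hbi (by norm_num)
    have hL1' : (1 : ℝ) ≤ L1 := by exact_mod_cast hL1
    have hGm := G_mul (q := q) hN g e
    have h1 := har S N lam hD2 hIG δc hc0 hc1 hcl p hp hN q hq hqc L1 hL1' hL1s f0' f
      (hf0'.mono hcb3 hQ0 le_rfl) (fun i => (hf i).mono hb3 hQ0 le_rfl)
      (fun y : ZMod p => g ((S.Q * y.val + e : ℕ) : ZMod N))
      (by
        rw [hGm]
        exact (fib_adm hN hg hl e).mono h2c (by linarith) le_rfl)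
      (by
        rw [blk_G hQ1 hN]
        exact hcb.trans hform') L hL hLP
    refine h1.trans ?_
    rw [hGm]
    refine Finset.expect_le Finset.univ_nonempty fun z _ => ?_
    rw [A_fib hN]
    exact hB _

end Low94

end

end Pool.Agent.Helper67.NX2

end

section

set_option autoImplicit false

open Finset

open scoped BigOperators ComplexConjugate

namespace Pool.Agent.Helper67.NX2

open Pool.Agent.Helper57.NX

noncomputable section

namespace Low94

open Pool.Agent.Helper57.NX.US10 (floor_half)

theorem low_core (m : ℕ) (c : Fin (m + 1) → ℝ) (hc : Ex c) (d : ℕ)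
    (hd : c (Fin.last m) = d) (s : ℝ) (hs0 : 0 < s)
    (har : ∀ ε : ℝ, 0 < ε → ∃ x0 : ℝ, 0 < x0 ∧ ∃ C : ℕ, ∃ σ : ℝ, 0 < σ ∧ ∃ D0 : ℝ,
      ArC m c s ε x0 C σ D0)
    (hdag : ∀ κ : ℝ, 0 < κ → ∃ x0 : ℝ, 0 < x0 ∧ ∃ C : ℕ, ∃ σ : ℝ, 0 < σ ∧ ∃ D0 : ℝ,
      ∀ (S : Sys (m + 1)) (N : ℕ) [NeZero N] (lam : ℕ), D0 ≤ S.D → IG S c N x0 lam →
      ∀ δ : ℝ, S.D ^ (-σ) ≤ δ → δ ≤ 1 / 2 → (lam : ℝ) ≤ δ⁻¹ →
      ∀ (f0 : ZMod N → ℂ) (f : Fin (m + 1) → ZMod N → ℂ),
      Adm δ⁻¹ S.Q f0 → (∀ i, Adm δ⁻¹ S.Q (f i)) → δ ≤ ‖form S c 1 f0 f‖ →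
      ∃ q : ℕ, 1 ≤ q ∧ (q : ℝ) ≤ δ⁻¹ ^ C ∧ ∀ L : ℕ, 1 ≤ L → (L : ℝ) ≤ S.D ^ (s - κ) →
        δ ^ C ≤ nrm (Aq (S.Q * q) L (dual S c 1 f0 f (Fin.last m))))
    (hU : ∀ ε : ℝ, 0 < ε → UPm m (fun i => c i.castSucc) ε) :
    ∀ ε : ℝ, 0 < ε → UsJ m c 0 ε (univ.erase (Fin.last m)) := by
  intro ε hε
  have hc0 : ∀ i, 0 < c i := fun i => by (clear * - hc; linarith [hc.two i])
  have hd2 : 2 ≤ d := by
    have := hc.two (Fin.last m)
    rw [hd] at this
    exact_mod_cast this
  obtain ⟨x1, hx1, C1, σ1, hσ1, D1, h1⟩ := hU (ε / 2) (half_pos hε)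
  obtain ⟨x4, hx4, σ4, hσ4, D4, h4⟩ := IG.dil c hc0 x1 hx1
  obtain ⟨ε2, hε2, hε2x, hε21⟩ : ∃ ε2 : ℝ, 0 < ε2 ∧ 6 * ε2 ≤ x1 ∧ 8 * ε2 ≤ 1 :=
    ⟨min (x1 / 6) (1 / 8), by positivity, by (clear * -; linarith [min_le_left (x1 / 6) (1 / 8 : ℝ)]),
      by linarith [min_le_right (x1 / 6) (1 / 8 : ℝ)]⟩
  obtain ⟨x2, hx2, C2, σ2, hσ2, D2, h2⟩ := har ε2 hε2
  obtain ⟨κ, hκ, hκσ, hκs⟩ : ∃ κ : ℝ, 0 < κ ∧ κ ≤ σ2 / 2 ∧ κ ≤ s / 2 :=
    ⟨min (σ2 / 2) (s / 2), by (clear * - hσ2 hs0; positivity), min_le_left _ _, min_le_right _ _⟩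
  obtain ⟨x3, hx3, C3, σ3, hσ3, D3, h3⟩ := hdag κ hκ
  obtain ⟨Cb, hCb⟩ := bc m
  -- the exponents
  obtain ⟨e1, he1⟩ : ∃ e1 : ℕ, e1 = 2 * C3 + 3 := ⟨_, rfl⟩
  obtain ⟨nc, hnc⟩ : ∃ nc : ℕ, nc = e1 * (Cb + 3) + C3 + 2 := ⟨_, rfl⟩
  obtain ⟨nu, hnu⟩ : ∃ nu : ℕ, nu = 2 * C3 + m + 6 := ⟨_, rfl⟩
  obtain ⟨K, hK⟩ : ∃ K : ℕ, K = nc * C2 + nc + nu + e1 * Cb + 2 * C3 + 2 := ⟨_, rfl⟩
  obtain ⟨σ, hσ, hσa, hσb⟩ : ∃ σ : ℝ, 0 < σ ∧ σ ≤ σ3 ∧
      σ * K ≤ min (min σ1 σ2) (min (min σ4 ε2) 1) / 4 := by
    refine ⟨min σ3 (min (min σ1 σ2) (min (min σ4 ε2) 1) / (4 * (K + 1))), by (clear * - hσ3 hσ1 hσ2 hσ4 hε2; positivity),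
      min_le_left _ _, ?_⟩
    have hK0 : (0 : ℝ) ≤ K := Nat.cast_nonneg _
    calc _ ≤ min (min σ1 σ2) (min (min σ4 ε2) 1) / (4 * (K + 1)) * K :=
          mul_le_mul_of_nonneg_right (min_le_right _ _) hK0
      _ ≤ min (min σ1 σ2) (min (min σ4 ε2) 1) / (4 * (K + 1)) * (K + 1) :=
          mul_le_mul_of_nonneg_left (by (clear * - hε2 hε21; linarith)) (by (clear * - hσ1 hσ2 hσ4 hε2; positivity))
      _ = _ := by (clear * - hσ1 hσ2 hσ4 hε2; field_simp)
  have hσc : ∀ n : ℕ, n ≤ K → σ * n ≤ σ1 / 4 ∧ σ * n ≤ σ2 / 4 ∧ σ * n ≤ σ4 / 4 ∧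
      σ * n ≤ ε2 / 4 ∧ σ * n ≤ 1 / 4 := by
    intro n hn
    have hn' : (n : ℝ) ≤ K := by exact_mod_cast hn
    have h5 : σ * n ≤ min (min σ1 σ2) (min (min σ4 ε2) 1) / 4 :=
      (mul_le_mul_of_nonneg_left hn' hσ.le).trans hσb
    have m1 : min (min σ1 σ2) (min (min σ4 ε2) 1) ≤ σ1 :=
      (min_le_left _ _).trans (min_le_left _ _)
    have m2 : min (min σ1 σ2) (min (min σ4 ε2) 1) ≤ σ2 :=
      (min_le_left _ _).trans (min_le_right _ _)
    have m3 : min (min σ1 σ2) (min (min σ4 ε2) 1) ≤ σ4 :=
      (min_le_right _ _).trans ((min_le_left _ _).trans (min_le_left _ _))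
    have m4 : min (min σ1 σ2) (min (min σ4 ε2) 1) ≤ ε2 :=
      (min_le_right _ _).trans ((min_le_left _ _).trans (min_le_right _ _))
    have m5 : min (min σ1 σ2) (min (min σ4 ε2) 1) ≤ 1 :=
      (min_le_right _ _).trans (min_le_right _ _)
    refine ⟨?_, ?_, ?_, ?_, ?_⟩ <;> (clear * - h5 m1 m2 m3 m4 hε2 hε21; linarith)
  obtain ⟨x0, hx0, hx0a, hx0b, hx0c, hx0d⟩ : ∃ x0 : ℝ, 0 < x0 ∧ x0 ≤ x2 ∧ x0 ≤ x3 ∧ x0 ≤ x4 ∧
      x0 ≤ ε2 / 2 := by
    refine ⟨min (min x2 x3) (min x4 (ε2 / 2)), by (clear * - hx2 hx3 hx4 hε2; positivity), ?_, ?_, ?_, ?_⟩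
    · exact (min_le_left _ _).trans (min_le_left _ _)
    · exact (min_le_left _ _).trans (min_le_right _ _)
    · exact (min_le_right _ _).trans (min_le_left _ _)
    · exact (min_le_right _ _).trans (min_le_right _ _)
  obtain ⟨W, hW⟩ : ∃ W : ℝ, W = 32 * (d * 3 ^ d) + 64 := ⟨_, rfl⟩
  have hW64 : 64 ≤ W := by
    rw [hW]
    have : (0 : ℝ) ≤ 32 * (d * 3 ^ d) := by (clear * - hd2; positivity)
    (clear * - this; linarith)
  obtain ⟨K4, hK4, hK41⟩ : ∃ K4 : ℝ, (∀ i, (4 : ℝ) ^ (c i) ≤ K4) ∧ 1 ≤ K4 := by
    refine ⟨1 + ∑ i, (4 : ℝ) ^ (c i), fun i => ?_, ?_⟩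
    · have := Finset.single_le_sum (f := fun i => (4 : ℝ) ^ (c i)) (fun i _ => by positivity)
        (Finset.mem_univ i)
      (clear * - hε21 hx0 hx0d this; linarith)
    · have : 0 ≤ ∑ i, (4 : ℝ) ^ (c i) := Finset.sum_nonneg fun i _ => by positivity
      (clear * - this; linarith)
  -- the threshold
  refine ⟨x0, hx0, nu * C1, σ, hσ, max (max (max D2 D3) (max D4 ((max D1 1) ^ (2 : ℕ))))
    (max (max (W ^ (2 / ε2)) (2 ^ (2 / σ2))) (max (K4 ^ (2 / ε)) 256)), ?_⟩
  intro S N _ lam hD hIG δ hδσ hδ2 hlam X hQX hX f0 f hf0 hf hfX hform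
  have hDa : max (max D2 D3) (max D4 ((max D1 1) ^ (2 : ℕ))) ≤ S.D := (le_max_left _ _).trans hD
  have hDb : max (max (W ^ (2 / ε2)) (2 ^ (2 / σ2))) (max (K4 ^ (2 / ε)) 256) ≤ S.D :=
    (le_max_right _ _).trans hD
  exact by
    have hD2 : D2 ≤ S.D := ((le_max_left _ _).trans (le_max_left _ _)).trans hDa
    have hD3 : D3 ≤ S.D := ((le_max_right _ _).trans (le_max_left _ _)).trans hDa
    have hD4 : D4 ≤ S.D := ((le_max_left _ _).trans (le_max_right _ _)).trans hDa
    have hD1' : (max D1 1) ^ (2 : ℕ) ≤ S.D := ((le_max_right _ _).trans (le_max_right _ _)).trans hDa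
    have hDW : W ^ (2 / ε2) ≤ S.D := ((le_max_left _ _).trans (le_max_left _ _)).trans hDb
    have hDσ : (2 : ℝ) ^ (2 / σ2) ≤ S.D := ((le_max_right _ _).trans (le_max_left _ _)).trans hDb
    exact by
      have hDK : K4 ^ (2 / ε) ≤ S.D := ((le_max_left _ _).trans (le_max_right _ _)).trans hDb
      have hD256 : (256 : ℝ) ≤ S.D := ((le_max_right _ _).trans (le_max_right _ _)).trans hDb
      have hD1 : 1 ≤ S.D := by (clear * - hε21 hx0 hx0d hD256; linarith)
      have hD0 : 0 < S.D := by (clear * - hε21 hx0 hx0d hD256; linarith)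
      have hWD : W ≤ S.D ^ (ε2 / 2) := by
        have h5 := Real.rpow_le_rpow (by (clear * - hW64; positivity)) hDW (by positivity : 0 ≤ ε2 / 2)
        rw [← Real.rpow_mul (by (clear * - hε21 hx0 hx0d hW64; linarith))] at h5
        have h6 : 2 / ε2 * (ε2 / 2) = 1 := by field_simp
        rwa [h6, Real.rpow_one] at h5
      have hσD : 2 ≤ S.D ^ (σ2 / 2) := by
        have h5 := Real.rpow_le_rpow (by positivity) hDσ (by positivity : 0 ≤ σ2 / 2)
        rw [← Real.rpow_mul (by norm_num)] at h5
        have h6 : 2 / σ2 * (σ2 / 2) = 1 := by (clear * - hσ2; field_simp)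
        rwa [h6, Real.rpow_one] at h5
      exact by
        have hKD : K4 ≤ S.D ^ (ε / 2) := by
          have h5 := Real.rpow_le_rpow (by (clear * - hK41; positivity)) hDK (by positivity : 0 ≤ ε / 2)
          rw [← Real.rpow_mul (by (clear * - hε21 hx0 hx0d hK41; linarith))] at h5
          have h6 : 2 / ε * (ε / 2) = 1 := by (clear * - hε; field_simp)
          rwa [h6, Real.rpow_one] at h5
        have hδ0 : 0 < δ := (Real.rpow_pos_of_pos hD0 _).trans_le hδσ
        have hinv2 : 2 ≤ δ⁻¹ := by
          rw [le_inv_comm₀ two_pos hδ0]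
          (clear * - hδ2; linarith)
        have hinv1 : 1 ≤ δ⁻¹ := by (clear * - hε21 hx0 hx0d hinv2; linarith)
        have hgood := hIG.good
        have hQ0 : (0 : ℝ) < S.Q := (Real.rpow_pos_of_pos hD0 _).trans_le hgood.Q1
        exact by
          have hT0 : (0 : ℝ) < S.T := (Real.rpow_pos_of_pos hD0 _).trans_le hgood.T1
          have hI : S.I.Nonempty := by
            have : 0 < S.T := by exact_mod_cast hT0
            unfold Sys.I
            exact Finset.nonempty_Ico.2 (by (clear * - d C2 C3 Cb e1 nc nu K this; omega))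
          -- the progressions
          obtain ⟨q, hq1, hq2, hq3⟩ := h3 S N lam hD3 (hIG.mono hx0b hD1) δ
            ((Real.rpow_le_rpow_of_exponent_le hD1 (by (clear * - hσa; linarith))).trans hδσ) hδ2 hlam f0 f hf0 hf hform
          have hq0 : (0 : ℝ) < q := by exact_mod_cast hq1
          have hqD : (q : ℝ) ≤ S.D ^ (ε2 / 4) :=
            hq2.trans (pow_upper hD1 hδ0 hδσ (hσc C3 (by (clear * - d hnc hnu hK q; omega))).2.2.2.1)
          obtain ⟨L1, hL11, hL1a, hL1b⟩ : ∃ L1 : ℕ, 1 ≤ L1 ∧ (L1 : ℝ) ≤ S.D ^ (s - κ) ∧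
              S.D ^ (s - κ) / 2 ≤ L1 := by
            have hy : (1 : ℝ) ≤ S.D ^ (s - κ) := Real.one_le_rpow hD1 (by (clear * - hκ hκs; linarith))
            exact ⟨_, (Nat.one_le_floor_iff _).2 hy, Nat.floor_le (by (clear * - hε21 hx0 hx0d hy; linarith)), floor_half hy⟩
          have hL1s : S.D ^ (s - σ2) ≤ (L1 : ℝ) := by
            refine le_trans ?_ hL1b
            rw [le_div_iff₀ two_pos]
            calc S.D ^ (s - σ2) * 2 ≤ S.D ^ (s - σ2) * S.D ^ (σ2 / 2) :=
                  mul_le_mul_of_nonneg_left hσD (Real.rpow_nonneg hD0.le _)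
              _ = S.D ^ (s - σ2 / 2) := by
                  rw [← Real.rpow_add hD0]
                  congr 1
                  ring
              _ ≤ _ := Real.rpow_le_rpow_of_exponent_le hD1 (by (clear * - hκσ; linarith))
          have hN1 := hq3 L1 hL11 hL1a
          exact by
            obtain ⟨st, hst⟩ : ∃ st : ℕ, st = S.Q * q := ⟨_, rfl⟩
            rw [← hst] at hN1
            obtain ⟨F, hF⟩ : ∃ F : ZMod N → ℂ, F = dual S c 1 f0 f (Fin.last m) := ⟨_, rfl⟩
            have hFA : Adm (((m + 1 : ℕ) : ℝ) * δ⁻¹) S.Q F := by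
              rw [hF]
              exact Adm.dual hQ0 S c 1 (fun k => by simp) (Fin.last m) hf0 (fun j _ => hf j) hI
            obtain ⟨w, hw⟩ : ∃ w : ZMod N → ℂ, w = fun x => conj (Aq st L1 (Aqb st L1 F) x) := ⟨_, rfl⟩
            have hwA : Adm (((m + 1 : ℕ) : ℝ) * δ⁻¹) S.Q w := by
              rw [hw]
              exact (Adm.aq (Adm.aqb hFA st L1) st L1).cnj
            have hwb := hwA.bdd
            have hwl : ∀ x, ‖w (x + ((S.Q * q : ℕ) : ZMod N)) - w x‖ ≤ 2 / L1 := by
              intro x
              have h5 := Aq_lipschitz (f := Aqb st L1 F) (fun x => norm_Aqb_le hFA.bdd st L1 x) st L1 hL11 x 1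
              rw [hw, ← hst]
              dsimp only
              rw [← map_sub, Complex.norm_conj]
              have h6 : (((st : ℤ) * 1 : ℤ) : ZMod N) = ((st : ℕ) : ZMod N) := by push_cast; ring
              rw [h6] at h5
              refine h5.trans (le_of_eq ?_)
              norm_num
            have hwform : δ ^ (2 * C3) ≤ ‖form S c 1 f0 (Function.update f (Fin.last m) w)‖ := by
              have h5 := form_w S c f0 f st L1 hL11
              rw [← hF, ← hw] at h5
              rw [← hF] at hN1
              refine le_trans ?_ h5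
              rw [mul_comm 2 C3, pow_mul]
              exact pow_le_pow_left₀ (pow_pos hδ0 _).le hN1 2
            -- the two lengths
            have hPm : S.P (Fin.last m) = S.Q * (lam * S.D) ^ d := hIG.Pint (Fin.last m) d hd
            have hlam1 : (1 : ℝ) ≤ lam := by exact_mod_cast hIG.lam1
            exact by
              have hlD : S.D ^ (2 : ℝ) ≤ (lam * S.D) ^ d := by
                have h5 : S.D ≤ lam * S.D := le_mul_of_one_le_left hD0.le hlam1
                calc S.D ^ (2 : ℝ) = S.D ^ (2 : ℕ) := by norm_cast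
                  _ ≤ S.D ^ d := pow_le_pow_right₀ hD1 hd2
                  _ ≤ (lam * S.D) ^ d := pow_le_pow_left₀ hD0.le h5 d
              have hlD0 : 0 < (lam * S.D) ^ d := by (clear * - hlam1 hD256; positivity)
              have hy : ∀ t : ℝ, t ≤ 2 * ε2 → 1 ≤ (lam * S.D) ^ d * S.D ^ (-t) / q := by
                intro t ht
                rw [le_div_iff₀ hq0, one_mul]
                calc (q : ℝ) ≤ S.D ^ (ε2 / 4) := hqD
                  _ ≤ S.D ^ (2 - t) := Real.rpow_le_rpow_of_exponent_le hD1 (by (clear * - hε21 hx0 hx0d ht; linarith))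
                  _ = S.D ^ (2 : ℝ) * S.D ^ (-t) := by
                      rw [← Real.rpow_add hD0]
                      congr 1
                  _ ≤ _ := mul_le_mul_of_nonneg_right hlD (Real.rpow_nonneg hD0.le _)
              have hy2 := hy (2 * ε2) le_rfl
              have hy3 := hy ε2 (by (clear * - hx0 hx0d; linarith))
              obtain ⟨L2, hL21, hL2a, hL2b⟩ : ∃ L2 : ℕ, 1 ≤ L2 ∧
                  (L2 : ℝ) ≤ (lam * S.D) ^ d * S.D ^ (-(2 * ε2)) / q ∧
                  (lam * S.D) ^ d * S.D ^ (-(2 * ε2)) / q / 2 ≤ L2 :=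
                ⟨_, (Nat.one_le_floor_iff _).2 hy2, Nat.floor_le (by (clear * - hε21 hx0 hx0d hy2; linarith)), floor_half hy2⟩
              obtain ⟨L3, hL31, hL3a, hL3b⟩ : ∃ L3 : ℕ, 1 ≤ L3 ∧
                  (L3 : ℝ) ≤ (lam * S.D) ^ d * S.D ^ (-ε2) / q ∧
                  (lam * S.D) ^ d * S.D ^ (-ε2) / q / 2 ≤ L3 :=
                ⟨_, (Nat.one_le_floor_iff _).2 hy3, Nat.floor_le (by (clear * - hε21 hx0 hx0d hy3; linarith)), floor_half hy3⟩
              have hL20 : (0 : ℝ) < L2 := by exact_mod_cast hL21
              exact by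
                have hL30 : (0 : ℝ) < L3 := by exact_mod_cast hL31
                have hL10 : (0 : ℝ) < L1 := by exact_mod_cast hL11
                obtain ⟨g, hg⟩ : ∃ g : ZMod N → ℂ, g = Aq st L2 w := ⟨_, rfl⟩
                have hgA : Adm (((m + 1 : ℕ) : ℝ) * δ⁻¹) S.Q g := by
                  rw [hg]
                  exact Adm.aq hwA st L2
                have hgb := hgA.bdd
                have hgl : ∀ x, ‖g (x + ((S.Q * q : ℕ) : ZMod N)) - g x‖ ≤ 2 / L1 := by
                  intro x
                  rw [hg, ← Aq_shift]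
                  have h5 := congrFun (Aq_sub st L2 (fun y => w (y + ((S.Q * q : ℕ) : ZMod N))) w) x
                  rw [← h5]
                  exact norm_expect_le_of5 _ _ (by (clear * - hL11; positivity)) fun a _ => hwl _
                obtain ⟨u, hu⟩ : ∃ u : ZMod N → ℂ, u = fun x => (1 / 2 : ℂ) * (w x - g x) := ⟨_, rfl⟩
                have hub : ∀ x, ‖u x‖ ≤ 1 := by
                  intro x
                  rw [hu]
                  dsimp only
                  rw [norm_mul, norm_div, norm_one, Complex.norm_ofNat]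
                  have h5 := norm_sub_le (w x) (g x)
                  have h6 := hwb x
                  have h7 := hgb x
                  (clear * - h5 h6 h7; linarith)
                exact by
                  have hul : ∀ x, ‖u (x + ((S.Q * q : ℕ) : ZMod N)) - u x‖ ≤ 2 / L1 := by
                    intro x
                    rw [hu]
                    dsimp only
                    rw [← mul_sub, norm_mul, norm_div, norm_one, Complex.norm_ofNat]
                    have h5 : ‖w (x + ((S.Q * q : ℕ) : ZMod N)) - g (x + ((S.Q * q : ℕ) : ZMod N)) - (w x - g x)‖ ≤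
                        2 / L1 + 2 / L1 := by
                      have e2 : w (x + ((S.Q * q : ℕ) : ZMod N)) - g (x + ((S.Q * q : ℕ) : ZMod N)) - (w x - g x) =
                          (w (x + ((S.Q * q : ℕ) : ZMod N)) - w x) - (g (x + ((S.Q * q : ℕ) : ZMod N)) - g x) := by
                        ring
                      rw [e2]
                      exact (norm_sub_le _ _).trans (add_le_add (hwl x) (hgl x))
                    (clear * - h5; linarith)
                  -- decomposition
                  have hdec : form S c 1 f0 (Function.update f (Fin.last m) w) =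
                      2 * form S c 1 f0 (Function.update f (Fin.last m) u)
                      + form S c 1 f0 (Function.update f (Fin.last m) g) := by
                    rw [← form_update_smul, ← form_update_add]
                    congr 2
                    funext x
                    rw [hu]
                    dsimp only
                    ring
                  -- powers of `δ`
                  have hpow : ∀ a b : ℕ, a ≤ b → δ ^ b ≤ δ ^ a := fun a b h =>
                    pow_le_pow_of_le_one hδ0.le (by (clear * - hε21 hx0 hx0d hδ2; linarith)) h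
                  have hpowi : ∀ a b : ℕ, a ≤ b → δ⁻¹ ^ a ≤ δ⁻¹ ^ b := fun a b h =>
                    pow_le_pow_right₀ hinv1 h
                  have hhalf : ∀ a : ℕ, 1 ≤ a → δ ^ a ≤ 1 / 2 := fun a h =>
                    (hpow 1 a h).trans (by rw [pow_one]; exact hδ2)
                  -- the first term is small
                  have hsmall : ‖form S c 1 f0 (Function.update f (Fin.last m) u)‖ < δ ^ e1 := by
                    by_contra hcon
                    push Not at hcon
                    rw [snoc_init] at hcon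
                    have hB : ∀ x, ‖Aq (S.Q * q) L3 u x‖ ≤ L2 / L3 := by
                      intro x
                      rw [← hst, hu, Aq_const_mul, norm_mul, norm_div, norm_one, Complex.norm_ofNat, hg]
                      have h5 := Aq_small hwb st L3 L2 hL31 hL21 x
                      calc _ ≤ 1 / 2 * (2 * (L2 : ℝ) / L3) := mul_le_mul_of_nonneg_left h5 (by norm_num)
                        _ = L2 / L3 := by ring
                    have hlong := long (δb := δ ^ e1) (δc := δ ^ nc) hd h2 hCb hD2 hD1 (hIG.mono hx0a hD1)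
                      (pow_pos hδ0 _) (hhalf _ (by (clear * - d C2 he1 hnc nu K S q L1 st L2 L3; omega))) (by
                        rw [← inv_pow, ← pow_mul]
                        calc δ⁻¹ ^ (e1 * Cb) ≤ S.D ^ (1 / 4 : ℝ) :=
                              pow_upper hD1 hδ0 hδσ (hσc _ (by omega)).2.2.2.2
                          _ ≤ S.D ^ (2 : ℝ) := Real.rpow_le_rpow_of_exponent_le hD1 (by norm_num)
                          _ ≤ S.Q := hgood.Q1)
                      (pow_lower hD1 hδσ (by
                        have := (hσc nc (by omega)).2.1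
                        (clear * - hκ hκσ this; linarith))) (hhalf _ (by omega))
                      (by
                        rw [← inv_pow]
                        refine hlam.trans ?_
                        calc δ⁻¹ = δ⁻¹ ^ 1 := (pow_one _).symm
                          _ ≤ _ := hpowi _ _ (by omega))
                      (by
                        rw [← pow_mul]
                        refine hpow _ _ ?_
                        have : e1 * (Cb + 3) = e1 * Cb + e1 * 3 := mul_add _ _ _
                        omega)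
                      (by
                        rw [← inv_pow, ← inv_pow, ← pow_mul]
                        refine hpowi _ _ ?_
                        have : e1 * (Cb + 3) = e1 * Cb + e1 * 3 := mul_add _ _ _
                        omega) hq1
                      (by
                        rw [← inv_pow]
                        exact hq2.trans (hpowi _ _ (by omega))) hL11 hL1s
                      (hf0.mono (by
                        rw [← inv_pow]
                        calc δ⁻¹ = δ⁻¹ ^ 1 := (pow_one _).symm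
                          _ ≤ _ := hpowi _ _ (by (clear * - d C2 he1 hnc nu K S q L1 st L2 L3; omega))) hQ0 le_rfl)
                      (fun i => (hf i.castSucc).mono (by
                        rw [← inv_pow]
                        calc δ⁻¹ = δ⁻¹ ^ 1 := (pow_one _).symm
                          _ ≤ _ := hpowi _ _ (by omega)) hQ0 le_rfl) hub hul hcon hL31
                      (by
                        rw [hPm]
                        calc (L3 : ℝ) * (S.Q * q) ≤ (lam * S.D) ^ d * S.D ^ (-ε2) / q * (S.Q * q) :=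
                              mul_le_mul_of_nonneg_right hL3a (by (clear * - hQ0 hq1; positivity))
                          _ = S.Q * (lam * S.D) ^ d * S.D ^ (-ε2) := by (clear * - hq1 hQ0 hD256 hlam1; field_simp)) hB
                    rw [← pow_mul] at hlong
                    have h5 : (L2 / L3 : ℝ) ≤ 2 * S.D ^ (-ε2) := by
                      rw [div_le_iff₀ hL30]
                      calc (L2 : ℝ) ≤ (lam * S.D) ^ d * S.D ^ (-(2 * ε2)) / q := hL2a
                        _ = 2 * S.D ^ (-ε2) * ((lam * S.D) ^ d * S.D ^ (-ε2) / q / 2) := by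
                            have : S.D ^ (-(2 * ε2)) = S.D ^ (-ε2) * S.D ^ (-ε2) := by
                              rw [← Real.rpow_add hD0]
                              congr 1
                              ring
                            rw [this]
                            ring
                        _ ≤ _ := mul_le_mul_of_nonneg_left hL3b (by (clear * - hD256; positivity))
                    have h6 : S.D ^ (-(ε2 / 2)) ≤ δ ^ (nc * C2) := pow_lower hD1 hδσ (by
                      have := (hσc (nc * C2) (by omega)).2.2.2.1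
                      (clear * - hx0 hx0d this; linarith))
                    have h7 : S.D ^ (-(ε2 / 2)) ≤ 2 * S.D ^ (-ε2) := h6.trans (hlong.trans h5)
                    have h8 : S.D ^ (ε2 / 2) ≤ 2 := by
                      have h9 := mul_le_mul_of_nonneg_right h7 (Real.rpow_nonneg hD0.le ε2)
                      rw [mul_assoc, ← Real.rpow_add hD0, ← Real.rpow_add hD0] at h9
                      have h10 : -(ε2 / 2) + ε2 = ε2 / 2 := by ring
                      have h11 : -ε2 + ε2 = 0 := by ring
                      rw [h10, h11, Real.rpow_zero, mul_one] at h9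
                      exact h9
                    (clear * - hε21 hx0 hx0d hW64 hWD h8; linarith)
                  exact by
                    obtain ⟨η, hη⟩ : ∃ η : ℝ, η = δ ^ (2 * C3 + 1) := ⟨_, rfl⟩
                    have hη0 : 0 < η := by rw [hη]; positivity
                    have hgform : η ≤ ‖form S c 1 f0 (Function.update f (Fin.last m) g)‖ := by
                      have h5 : ‖form S c 1 f0 (Function.update f (Fin.last m) w)‖ ≤
                          2 * ‖form S c 1 f0 (Function.update f (Fin.last m) u)‖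
                          + ‖form S c 1 f0 (Function.update f (Fin.last m) g)‖ := by
                        rw [hdec]
                        refine (norm_add_le _ _).trans ?_
                        rw [norm_mul, Complex.norm_ofNat]
                      have h6 : δ ^ e1 ≤ δ ^ (2 * C3) / 8 := by
                        rw [he1, pow_add]
                        have h7 : δ ^ 3 ≤ 1 / 8 := by
                          calc δ ^ 3 ≤ (1 / 2) ^ 3 := pow_le_pow_left₀ hδ0.le hδ2 3
                            _ = 1 / 8 := by norm_num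
                        have := mul_le_mul_of_nonneg_left h7 (pow_pos hδ0 (2 * C3)).le
                        (clear * - this; linarith)
                      have h7 : η ≤ δ ^ (2 * C3) / 2 := by
                        rw [hη, pow_succ]
                        have := mul_le_mul_of_nonneg_left hδ2 (pow_pos hδ0 (2 * C3)).le
                        (clear * - this; linarith)
                      have h8 := pow_pos hδ0 (2 * C3)
                      (clear * - hwform hsmall hη0 h5 h6 h7; linarith)
                    -- the short intervals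
                    have hT1 : (1 : ℝ) ≤ S.D ^ (1 - 3 * ε2) := Real.one_le_rpow hD1 (by (clear * - hε21 hx0 hx0d; linarith))
                    obtain ⟨J, hJ0, hJa, hJb⟩ : ∃ J : ℕ, 0 < J ∧ S.D ^ (1 - 3 * ε2) ≤ J ∧
                        (J : ℝ) ≤ 2 * S.D ^ (1 - 3 * ε2) := by
                      refine ⟨⌈S.D ^ (1 - 3 * ε2)⌉₊, Nat.ceil_pos.2 (by (clear * - hε21 hx0 hx0d hT1; linarith)), Nat.le_ceil _, ?_⟩
                      have := Nat.ceil_lt_add_one (show 0 ≤ S.D ^ (1 - 3 * ε2) by (clear * - hε21 hx0 hx0d hT1; linarith))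
                      (clear * - hT1 this; linarith)
                    have hηD : S.D ^ (-(ε2 / 4)) ≤ η := by
                      rw [hη]
                      exact pow_lower hD1 hδσ (hσc _ (by (clear * - d hnc hnu hK S q L1 st L2 L3 J; omega))).2.2.2.1
                    have hTD : S.D ^ (1 - ε2 / 2) ≤ S.T :=
                      (Real.rpow_le_rpow_of_exponent_le hD1 (by (clear * - hx0d; linarith))).trans hgood.T1
                    have hWD2 : W ≤ S.D ^ (2 * ε2) :=
                      hWD.trans (Real.rpow_le_rpow_of_exponent_le hD1 (by (clear * - hx0 hx0d; linarith)))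
                    exact by
                      have hqJ : 4 * (q : ℝ) * J ≤ η * S.T := by
                        calc 4 * (q : ℝ) * J ≤ 4 * S.D ^ (ε2 / 4) * (2 * S.D ^ (1 - 3 * ε2)) := by (clear * - hqD hJb hJ0 hD256; gcongr)
                          _ = S.D ^ (ε2 / 4) * S.D ^ (1 - 3 * ε2) * 8 := by ring
                          _ ≤ S.D ^ (ε2 / 4) * S.D ^ (1 - 3 * ε2) * S.D ^ (2 * ε2) := by
                              gcongr
                              (clear * - hε21 hx0 hx0d hW64 hWD2; linarith)
                          _ = S.D ^ (-(ε2 / 4)) * S.D ^ (1 - ε2 / 2) := by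
                              rw [← Real.rpow_add hD0, ← Real.rpow_add hD0, ← Real.rpow_add hD0]
                              congr 1
                              ring
                          _ ≤ η * S.T := mul_le_mul hηD hTD (Real.rpow_nonneg hD0.le _) hη0.le
                      have hfb : ∀ (i : Fin (m + 1)) (x : ZMod N),
                          ‖(Fin.snoc (α := fun _ => ZMod N → ℂ) (fun i : Fin m => f i.castSucc) g i) x‖ ≤ 1 := by
                        intro i x
                        refine Fin.lastCases ?_ (fun i => ?_) i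
                        · rw [Fin.snoc_last]; exact hgb x
                        · rw [Fin.snoc_castSucc]; exact (hf i.castSucc).bdd x
                      obtain ⟨r0, u', hr0, hu1, hu2, hu3⟩ := exists_window S η q J hq1 hJ0 hqJ
                        (fun k => 𝔼 x, f0 x * ∏ i : Fin (m + 1),
                          (Fin.snoc (α := fun _ => ZMod N → ℂ) (fun i : Fin m => f i.castSucc) g i)
                            (x + (S.a c i k : ZMod N)))
                        (fun k => norm_expect_le_of5 _ _ zero_le_one fun x _ => by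
                          rw [norm_mul, norm_prod]
                          exact mul_le_one₀ (hf0.bdd x) (Finset.prod_nonneg fun i _ => norm_nonneg _)
                            (Finset.prod_le_one (fun i _ => norm_nonneg _) fun i _ => hfb i _))
                        (by
                          rw [snoc_init] at hgform
                          unfold form at hgform
                          simpa only [Pi.one_apply, one_mul] using hgform) hη0
                      -- `J ≤ u'`
                      have hJu : J ≤ u' := by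
                        have h5 : (S.u : ℝ) ≤ q * u' + r0 := by exact_mod_cast hu1
                        have h6 : (r0 : ℝ) + 1 ≤ q := by exact_mod_cast hr0
                        have h7 : S.D < q * (u' + 1) := by
                          have := hgood.u1
                          (clear * - hε21 hx0 hx0d h5 h6 this; nlinarith)
                        have h8 : S.D ^ (1 - ε2 / 4) < u' + 1 := by
                          have h9 : S.D ^ (1 - ε2 / 4) * S.D ^ (ε2 / 4) = S.D := by
                            rw [← Real.rpow_add hD0]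
                            have : 1 - ε2 / 4 + ε2 / 4 = 1 := by ring
                            rw [this, Real.rpow_one]
                          by_contra h10
                          push Not at h10
                          have h11 : (q : ℝ) * (u' + 1) ≤ S.D ^ (ε2 / 4) * S.D ^ (1 - ε2 / 4) :=
                            mul_le_mul hqD h10 (by (clear * -; positivity)) (Real.rpow_nonneg hD0.le _)
                          (clear * - h7 h9 h11; linarith)
                        have h9 : S.D ^ (1 - 3 * ε2) * 8 ≤ S.D ^ (1 - ε2 / 4) := by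
                          calc S.D ^ (1 - 3 * ε2) * 8 ≤ S.D ^ (1 - 3 * ε2) * S.D ^ (2 * ε2) := by
                                gcongr
                                (clear * - hε21 hx0 hx0d hW64 hWD2; linarith)
                            _ = S.D ^ (1 - ε2) := by
                                rw [← Real.rpow_add hD0]
                                congr 1
                                ring
                            _ ≤ _ := Real.rpow_le_rpow_of_exponent_le hD1 (by (clear * - hx0 hx0d; linarith))
                        have h10 : (J : ℝ) ≤ u' := by (clear * - hε21 hx0 hx0d hT1 hJb h8 h9; linarith)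
                        exact_mod_cast h10
                      have hu'1 : 1 ≤ u' := le_trans hJ0 hJu
                      -- freezing
                      have hfr := freeze hd hD1 hIG hf0.bdd (fun i x => (hf i.castSucc).bdd x) hwb hq1 hL21 hJ0 hu'1
                        hu2 (η := η) (by
                          have h5 : (L2 : ℝ)⁻¹ ≤ 2 * q / ((lam * S.D) ^ d * S.D ^ (-(2 * ε2))) := by
                            rw [inv_le_comm₀ hL20 (by (clear * - hq1 hlam1 hD256; positivity))]
                            refine le_trans (le_of_eq ?_) hL2b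
                            rw [inv_div]
                            (clear * - hq1 hD256 hlam1; field_simp)
                          have h6 : S.D ^ (d - 1) * S.D = S.D ^ d := by
                            rw [← pow_succ, Nat.sub_add_cancel (by (clear * - hd2 C2 C3 Cb e1 nc nu K S q L1 st L2 L3 J r0 u'; omega))]
                          have h7 : S.D ^ (1 - 3 * ε2) = S.D * S.D ^ (-(3 * ε2)) := by
                            rw [sub_eq_add_neg, Real.rpow_add hD0, Real.rpow_one]
                          calc 2 * (d * 3 ^ d * lam ^ d * (S.D ^ (d - 1) * J)) / L2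
                              = 2 * (d * 3 ^ d * lam ^ d * (S.D ^ (d - 1) * J)) * (L2 : ℝ)⁻¹ := by
                                rw [div_eq_mul_inv]
                            _ ≤ 2 * (d * 3 ^ d * lam ^ d * (S.D ^ (d - 1) * (2 * S.D ^ (1 - 3 * ε2)))) *
                                (2 * q / ((lam * S.D) ^ d * S.D ^ (-(2 * ε2)))) := by (clear * - hJb hD256 hd2 hlam1 h5 hL21; gcongr)
                            _ = 8 * (d * 3 ^ d) * q * (S.D ^ (-(3 * ε2)) / S.D ^ (-(2 * ε2))) := by
                                rw [h7, mul_pow, ← h6]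
                                have h8 : (0 : ℝ) < S.D ^ (-(2 * ε2)) := Real.rpow_pos_of_pos hD0 _
                                field_simp
                                ring
                            _ = 8 * (d * 3 ^ d) * q * S.D ^ (-ε2) := by
                                rw [← Real.rpow_sub hD0]
                                congr 2
                                ring
                            _ ≤ 8 * (d * 3 ^ d) * S.D ^ (ε2 / 4) * S.D ^ (-ε2) := by (clear * - hqD hd2 hD256; gcongr)
                            _ = (32 * (d * 3 ^ d)) * (S.D ^ (ε2 / 4) * S.D ^ (-ε2)) / 4 := by ring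
                            _ ≤ S.D ^ (ε2 / 2) * (S.D ^ (ε2 / 4) * S.D ^ (-ε2)) / 4 := by
                                gcongr
                                (clear * - hε21 hx0 hx0d hW hWD; linarith)
                            _ = S.D ^ (-(ε2 / 4)) / 4 := by
                                rw [← Real.rpow_add hD0, ← Real.rpow_add hD0]
                                congr 2
                                ring
                            _ ≤ η / 4 := by (clear * - hηD; linarith)) (by
                          rw [← hst, ← hg]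
                          exact hu3)
                      rw [← hst, ← hg] at hfr
                      -- the dilated system
                      have hqσ4 : (q : ℝ) ≤ S.D ^ σ4 :=
                        hq2.trans (pow_upper hD1 hδ0 hδσ (by
                          have := (hσc C3 (by (clear * - d hnc hnu hK S q L1 st L2 L3 J r0 u'; omega))).2.2.1
                          (clear * - hσ4 this; linarith)))
                      obtain ⟨hIG', hDl, hDu, hP⟩ := h4 S N lam hD4 (hIG.mono hx0c hD1) q r0 u' J hq1 hqσ4 hr0 hu1 hu2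
                        hJu ((Real.rpow_le_rpow_of_exponent_le hD1 (by (clear * - hε2x; linarith))).trans hJa)
                      have hD'h : S.D ^ (1 / 2 : ℝ) ≤ (dil S c q r0 u' J).D := by
                        refine le_trans ?_ hDl
                        rw [le_div_iff₀ (by (clear * - hq1; positivity))]
                        have h5 : (4 : ℝ) ≤ S.D ^ (1 / 4 : ℝ) := by
                          have h6 := Real.rpow_le_rpow (by norm_num) hD256 (by norm_num : (0 : ℝ) ≤ 1 / 4)
                          have h7 : (256 : ℝ) ^ (1 / 4 : ℝ) = 4 := by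
                            rw [show (256 : ℝ) = 4 ^ (4 : ℝ) by norm_num, ← Real.rpow_mul (by norm_num)]
                            norm_num
                          rwa [h7] at h6
                        calc S.D ^ (1 / 2 : ℝ) * (4 * q) ≤ S.D ^ (1 / 2 : ℝ) * (S.D ^ (1 / 4 : ℝ) * S.D ^ (ε2 / 4)) := by
                              (clear * - h5 hqD hq1 hD256; gcongr)
                          _ = S.D ^ (1 / 2 + (1 / 4 + ε2 / 4)) := by
                              rw [← Real.rpow_add hD0, ← Real.rpow_add hD0]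
                          _ ≤ S.D ^ (1 : ℝ) := Real.rpow_le_rpow_of_exponent_le hD1 (by (clear * - hε21 hx0 hx0d; linarith))
                          _ = S.D := Real.rpow_one _
                      exact by
                        have hD'0 : 0 < (dil S c q r0 u' J).D := (Real.rpow_pos_of_pos hD0 _).trans_le hD'h
                        have hD'D : (dil S c q r0 u' J).D ≤ S.D := by
                          refine hDu.trans ?_
                          have : (1 : ℝ) ≤ q := by exact_mod_cast hq1
                          exact div_le_self hD0.le this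
                        have hm2 : ((m : ℝ) + 2) * δ⁻¹ ≤ δ⁻¹ ^ (m + 3) := by
                          rw [pow_succ δ⁻¹ (m + 2)]
                          refine mul_le_mul_of_nonneg_right ?_ (by (clear * - hε21 hx0 hx0d hinv2; linarith))
                          have h5 : ((m + 2 : ℕ) : ℝ) ≤ 2 ^ (m + 2) := by exact_mod_cast Nat.lt_two_pow_self.le
                          push_cast at h5
                          exact h5.trans (pow_le_pow_left₀ (by norm_num) hinv2 _)
                        obtain ⟨q', hq'1, hq'2, hq'3⟩ := h1 (dil S c q r0 u' J).init N (lam * q)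
                          (by
                            refine le_trans (le_trans ?_ hD'h) le_rfl
                            have h5 := Real.rpow_le_rpow (by (clear * -; positivity)) hD1' (by norm_num : (0 : ℝ) ≤ 1 / 2)
                            rw [← Real.rpow_natCast, ← Real.rpow_mul (by (clear * -; positivity))] at h5
                            have h6 : ((2 : ℕ) : ℝ) * (1 / 2) = 1 := by norm_num
                            rw [h6, Real.rpow_one] at h5
                            exact (le_max_left D1 1).trans h5)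
                          hIG'.init (δ ^ nu)
                          (by
                            calc (dil S c q r0 u' J).init.D ^ (-σ1) ≤ (S.D ^ (1 / 2 : ℝ)) ^ (-σ1) :=
                                  Real.rpow_le_rpow_of_nonpos (Real.rpow_pos_of_pos hD0 _) hD'h (by (clear * - hσ1; linarith))
                              _ = S.D ^ (-(σ1 / 2)) := by
                                  rw [← Real.rpow_mul hD0.le]
                                  congr 1
                                  ring
                              _ ≤ δ ^ nu := pow_lower hD1 hδσ (by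
                                  have := (hσc nu (by (clear * - d hnc hnu hK S q L1 st L2 L3 J r0 u'; omega))).1
                                  (clear * - hσ1 this; linarith)))
                          (hhalf _ (by omega))
                          (by
                            rw [← inv_pow]
                            push_cast
                            calc (lam : ℝ) * q ≤ δ⁻¹ * δ⁻¹ ^ C3 := by (clear * - hlam hq2 hq1 hδ0; gcongr)
                              _ = δ⁻¹ ^ (C3 + 1) := by ring
                              _ ≤ _ := hpowi _ _ (by omega))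
                          (fun x => f0 x * g (x + (S.a c (Fin.last m) (q * u' + r0) : ZMod N)))
                          (fun i => f i.castSucc)
                          ((hf0.mul (hgA.shift _)).mono (by
                            rw [← inv_pow]
                            push_cast
                            calc δ⁻¹ + ((m : ℝ) + 1) * δ⁻¹ = ((m : ℝ) + 2) * δ⁻¹ := by ring
                              _ ≤ _ := hm2
                              _ ≤ _ := hpowi _ _ (by omega)) hQ0 le_rfl)
                          (fun i => (hf i.castSucc).mono (by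
                            rw [← inv_pow]
                            calc δ⁻¹ = δ⁻¹ ^ 1 := (pow_one _).symm
                              _ ≤ _ := hpowi _ _ (by omega)) hQ0 le_rfl)
                          (by
                            refine le_trans ?_ hfr
                            rw [hη]
                            calc δ ^ nu ≤ δ ^ (2 * C3 + 1 + 2) := hpow _ _ (by omega)
                              _ = δ ^ (2 * C3 + 1) * δ ^ 2 := pow_add _ _ _
                              _ ≤ δ ^ (2 * C3 + 1) * (1 / 4) := by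
                                  have h5 : δ ^ 2 ≤ 1 / 4 := by (clear * - hδ2 hδ0; nlinarith)
                                  have := pow_pos hδ0 (2 * C3 + 1)
                                  (clear * - h5 hδ0; gcongr)
                              _ = _ := by ring)
                        refine ⟨q', hq'1, ?_, fun i hi L hL1 hL => ?_⟩
                        · rw [pow_mul, inv_pow]
                          exact hq'2
                        exact by
                          · obtain ⟨i', rfl⟩ := Fin.exists_castSucc_eq.2 (ne_of_mem_erase hi)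
                            exact by
                              rw [pow_mul]
                              refine hq'3 i' L hL1 (hL.trans ?_)
                              show S.P i'.castSucc * S.D ^ (-ε) ≤
                                (dil S c q r0 u' J).P i'.castSucc * (dil S c q r0 u' J).D ^ (-(ε / 2))
                              have hP0 : 0 < S.P i'.castSucc := by
                                refine lt_of_lt_of_le ?_ (hgood.P1 i'.castSucc)
                                exact mul_pos hQ0 (Real.rpow_pos_of_pos hD0 _)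
                              have h5 : S.D ^ (-(ε / 2)) ≤ (dil S c q r0 u' J).D ^ (-(ε / 2)) :=
                                Real.rpow_le_rpow_of_nonpos hD'0 hD'D (by (clear * - hε; linarith))
                              have h6 : S.D ^ (-ε) ≤ 4 ^ (-c i'.castSucc) * S.D ^ (-(ε / 2)) := by
                                have h7 : S.D ^ (-ε) = S.D ^ (-(ε / 2)) * S.D ^ (-(ε / 2)) := by
                                  rw [← Real.rpow_add hD0]
                                  congr 1
                                  ring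
                                rw [h7]
                                refine mul_le_mul_of_nonneg_right ?_ (Real.rpow_nonneg hD0.le _)
                                rw [Real.rpow_neg hD0.le, Real.rpow_neg (by norm_num)]
                                exact inv_anti₀ (by positivity) ((hK4 _).trans hKD)
                              calc S.P i'.castSucc * S.D ^ (-ε)
                                  ≤ S.P i'.castSucc * (4 ^ (-c i'.castSucc) * S.D ^ (-(ε / 2))) :=
                                    mul_le_mul_of_nonneg_left h6 hP0.le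
                                _ = S.P i'.castSucc * 4 ^ (-c i'.castSucc) * S.D ^ (-(ε / 2)) := by ring
                                _ ≤ (dil S c q r0 u' J).P i'.castSucc * (dil S c q r0 u' J).D ^ (-(ε / 2)) :=
                                    mul_le_mul (hP i'.castSucc).1 h5 (Real.rpow_nonneg hD0.le _)
                                      ((by (clear * - hP0; positivity) : (0 : ℝ) ≤ S.P i'.castSucc * 4 ^ (-c i'.castSucc)).trans
                                        (hP i'.castSucc).1)

end Low94

end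

end Pool.Agent.Helper67.NX2

end
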