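import Pool.Agent.Helper23.MC.L01_a0
import Pool.Agent.Helper23.MC.L01_a13
import Pool.Agent.Helper23.MC.L01_a2
import Pool.Agent.Helper23.MC.L01_a5
import Pool.Agent.Helper23.MC.L01_a6
import Pool.Agent.Helper23.MC.L01_a7
import Pool.Agent.Helper23.MC.L01_a8

/-!
Parts of Helper55.NX2.AqBasic, Helper5.NX2.RatlCore, Helper25.NX2.Weyl, Helper5.NX2.Ratl, Helper67.NX.BPhase, Helper67.NX.TopStepAux, Helper15.NX2.TopArithOf, Helper87.NX2.LargeSieve, Helper40.NX2.LsMajor
-/

attribute [local instance 5000]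
  Pool.Agent.Helper23.MC.Inst.rCharZero Pool.Agent.Helper23.MC.Inst.rALM
  Pool.Agent.Helper23.MC.Inst.rARM Pool.Agent.Helper23.MC.Inst.rALSM
  Pool.Agent.Helper23.MC.Inst.rARSM Pool.Agent.Helper23.MC.Inst.rARRLE
  Pool.Agent.Helper23.MC.Inst.rALRLE Pool.Agent.Helper23.MC.Inst.rARRLT
  Pool.Agent.Helper23.MC.Inst.rALRLT Pool.Agent.Helper23.MC.Inst.rPMRLT
  Pool.Agent.Helper23.MC.Inst.rMPRLT Pool.Agent.Helper23.MC.Inst.rPMM
  Pool.Agent.Helper23.MC.Inst.rMPM Pool.Agent.Helper23.MC.Inst.rPMSM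
  Pool.Agent.Helper23.MC.Inst.rMPSM Pool.Agent.Helper23.MC.Inst.rEAOL
  Pool.Agent.Helper23.MC.Inst.rIOR Pool.Agent.Helper23.MC.Inst.rISOR
  Pool.Agent.Helper23.MC.Inst.rNZD Pool.Agent.Helper23.MC.Inst.rcCharZero
  Pool.Agent.Helper23.MC.Inst.rcNZD Pool.Agent.Helper23.MC.Inst.zCharZero
  Pool.Agent.Helper23.MC.Inst.zALM Pool.Agent.Helper23.MC.Inst.zARM
  Pool.Agent.Helper23.MC.Inst.zALSM Pool.Agent.Helper23.MC.Inst.zARSM
  Pool.Agent.Helper23.MC.Inst.zIOR Pool.Agent.Helper23.MC.Inst.zISOR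
  Pool.Agent.Helper23.MC.Inst.zNZD Pool.Agent.Helper23.MC.Inst.qCharZero
  Pool.Agent.Helper23.MC.Inst.mR Pool.Agent.Helper23.MC.Inst.mC Pool.Agent.Helper23.MC.Inst.mRC
  Pool.Agent.Helper23.MC.Inst.rPSM Pool.Agent.Helper23.MC.Inst.rCSM
  Pool.Agent.Helper23.MC.Inst.cAdd Pool.Agent.Helper23.MC.Inst.cAddM
  Pool.Agent.Helper23.MC.Inst.cMul Pool.Agent.Helper23.MC.Inst.cMon

namespace Pool.Agent.Helper57.NX
end Pool.Agent.Helper57.NX

section

set_option autoImplicit false

open Finset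

open scoped BigOperators ComplexConjugate

namespace Pool.Agent.Helper67.NX2

open Pool.Agent.Helper57.NX

noncomputable section

section AqBasic

variable {N : ℕ} [NeZero N]

/-- geometric sums -/
theorem norm_expect_e_le (θ : ℝ) (L : ℕ) (hL : 1 ≤ L) (h : 0 < dint θ) :
    ‖𝔼 t ∈ range L, e (θ * t)‖ ≤ 1 / (2 * L * dint θ) := by
  have h0 : ∀ t : ℕ, e (θ * t) = e (θ - round θ) ^ t := by
    intro t
    induction t with
    | zero => simp [e_zero]
    | succ n ih =>
      rw [pow_succ, ← ih]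
      have e1 : θ * ((n + 1 : ℕ) : ℝ) = θ * n + ((θ - round θ) + (round θ : ℤ)) := by
        push_cast; ring
      rw [e1, e_add, e_add, e_int, mul_one]
  have h1 : 4 * dint θ ≤ ‖1 - e (θ - round θ)‖ := four_mul_abs_le (θ - round θ) (dint_le_half θ)
  have hne : e (θ - round θ) ≠ 1 := by
    intro hcon
    rw [hcon, sub_self, norm_zero] at h1
    (clear * - h h1; linarith)
  have h2 : 𝔼 t ∈ range L, e (θ * t) = (e (θ - round θ) ^ L - 1) / (e (θ - round θ) - 1) / L := by
    rw [expect_eq_sum_div_card, card_range, sum_congr rfl (fun t _ => h0 t), geom_sum_eq hne]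
  have hL0 : (0 : ℝ) < L := by exact_mod_cast hL
  rw [h2, norm_div, norm_div, Complex.norm_natCast, norm_sub_rev (e (θ - round θ)) 1]
  have h3 : ‖e (θ - round θ) ^ L - 1‖ ≤ 2 := by
    refine (norm_sub_le _ _).trans ?_
    rw [norm_pow, norm_e, one_pow, norm_one]
    norm_num
  rw [div_div]
  refine (div_le_div_of_nonneg_left (norm_nonneg _) (by (clear * - h hL; positivity))
    (mul_le_mul_of_nonneg_right h1 hL0.le)).trans ?_
  refine (div_le_div_of_nonneg_right h3 (by positivity)).trans (le_of_eq ?_)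
  field_simp
  norm_num

end AqBasic

end

end Pool.Agent.Helper67.NX2

end

section

set_option autoImplicit false

open Finset

open scoped BigOperators ComplexConjugate

namespace Pool.Agent.Helper67.NX2

open Pool.Agent.Helper57.NX

noncomputable section

theorem rt5_ratl (hWeyl : rt5Weyl) (hES : ES0) {m : ℕ} (c : Fin m → ℝ) (hc : StrictMono c) (hc0 : ∀ i, 0 < c i)
    (a ε : ℝ) (hε : 0 < ε) :
    ∃ x0 : ℝ, 0 < x0 ∧ ∃ C : ℕ, ∃ σ : ℝ, 0 < σ ∧ ∃ D0 : ℝ, ∀ D : ℝ, D0 ≤ D →
    ∀ ρ : ℝ, 0 ≤ ρ → ρ ≤ 1 → ∀ lam : ℕ, 1 ≤ lam → (∃ r : ℕ, ρ * lam = r) →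
    ∀ δ : ℝ, D ^ (-σ) ≤ δ → δ ≤ 1 / 2 → (lam : ℝ) ≤ δ⁻¹ →
    ∀ v : Fin m → ℝ, (∀ i, |v i| ≤ D ^ a) →
    ∀ q k K : ℕ, 1 ≤ q → (q : ℝ) ≤ δ⁻¹ → D ≤ k → (k : ℝ) ≤ 3 * D → D ^ (1 - x0) ≤ K →
    (q : ℝ) * K ≤ D →
    δ ≤ ‖𝔼 j ∈ range K, e (∑ i, v i * ((((k + q * j : ℕ) : ℝ) + ρ) / D) ^ (c i))‖ →
    (∀ i, ¬ IsN (c i) → |v i| ≤ D ^ ε) ∧
    ∃ q' : ℕ, 1 ≤ q' ∧ (q' : ℝ) ≤ δ⁻¹ ^ C ∧ ∀ (i : Fin m) (d : ℕ), c i = d →
      dint (q' * (v i / (lam * D) ^ d)) ≤ D ^ (ε - d) := by
  classical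
  obtain ⟨n, hn⟩ : ∃ n : ℕ, n = ∑ i : Fin m, ⌊c i⌋₊ := ⟨_, rfl⟩
  have hnd : ∀ (i : Fin m) (d : ℕ), c i = d → d ∈ Icc 1 n := by
    intro i d hd
    rw [mem_Icc]
    constructor
    · have h1 := hc0 i
      rw [hd] at h1
      have : 0 < d := by exact_mod_cast h1
      omega
    · have h1 : ⌊c i⌋₊ = d := by rw [hd, Nat.floor_natCast]
      rw [hn, ← h1]
      exact Finset.single_le_sum (f := fun i => ⌊c i⌋₊) (fun _ _ => Nat.zero_le _) (mem_univ i)
  obtain ⟨κ0, hκ0, C0, σ0, hσ0, D00, hD00, PL⟩ := rt5PL_all hWeyl n ε hε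
  obtain ⟨ε', hε', hε'1, hε'2, hε'3⟩ : ∃ ε' : ℝ, 0 < ε' ∧ ε' ≤ ε ∧ ε' ≤ κ0 / 4 ∧ ε' ≤ 1 / 4 :=
    ⟨min ε (min (κ0 / 4) (1 / 4)), lt_min hε (lt_min (by (clear * - hκ0; linarith)) (by norm_num)), min_le_left _ _,
      (min_le_right _ _).trans (min_le_left _ _), (min_le_right _ _).trans (min_le_right _ _)⟩
  obtain ⟨x1, hx1, σ1, hσ1, D01, hD01, NN⟩ := rt5_nonnat hES c hc hc0 a ε' hε'
  obtain ⟨Cs, hCs⟩ : ∃ Cs : ℝ, Cs = ∑ i, c i * (5 : ℝ) ^ (c i) := ⟨_, rfl⟩
  have hCs0 : 0 ≤ Cs := by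
    rw [hCs]
    exact sum_nonneg fun i _ => mul_nonneg (hc0 i).le (Real.rpow_nonneg (by norm_num) _)
  obtain ⟨D2, hD21, hD2⟩ := rt5_big (4 + 8 * Real.pi * Cs) (ε' / 4) (by (clear * - hε'; linarith))
  obtain ⟨σ, hσ, hσa, hσb, hσc⟩ : ∃ σ : ℝ, 0 < σ ∧ σ ≤ σ1 ∧ 4 * σ ≤ σ0 ∧ σ ≤ ε' / 4 := by
    refine ⟨min σ1 (min (σ0 / 4) (ε' / 4)), lt_min hσ1 (lt_min (by (clear * - hσ0; linarith)) (by (clear * - hε'; linarith))),
      min_le_left _ _, ?_, (min_le_right _ _).trans (min_le_right _ _)⟩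
    have : min σ1 (min (σ0 / 4) (ε' / 4)) ≤ σ0 / 4 := (min_le_right _ _).trans (min_le_left _ _)
    (clear * - this; linarith)
  refine ⟨min x1 (ε' / 2), lt_min hx1 (by (clear * - hσ hσc; linarith)), 4 * C0, σ, hσ, max (max D00 D01) D2, ?_⟩
  intro D hDD ρ hρ0 hρ1 lam hlam hr δ hδ1 hδ2 hlamδ v hv q k K hq hqδ hk1 hk2 hK1 hK2 h
  obtain ⟨r, hr⟩ := hr
  have hDD0 : D00 ≤ D := ((le_max_left _ _).trans (le_max_left _ _)).trans hDD
  have hDD1 : D01 ≤ D := ((le_max_right _ _).trans (le_max_left _ _)).trans hDD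
  have hDD2 : D2 ≤ D := (le_max_right _ _).trans hDD
  have hD : 1 < D := lt_of_lt_of_le hD21 hDD2
  exact by
    have hDp : 0 < D := by (clear * - hD00 hε'3 hσ hσc hDD0; linarith)
    have hδ : 0 < δ := lt_of_lt_of_le (Real.rpow_pos_of_pos hDp _) hδ1
    have hδi : 2 ≤ δ⁻¹ := by
      rw [le_inv_comm₀ (by norm_num) hδ]; (clear * - hδ2; linarith)
    have hδi0 : 0 < δ⁻¹ := inv_pos.mpr hδ
    have hδiD : δ⁻¹ ≤ D ^ σ := by
      have := rt5_inv hDp hδ1 1
      rw [pow_one] at this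
      simpa using this
    have hbig := hD2 D hDD2
    exact by
      have hpi : (3 : ℝ) < Real.pi := Real.pi_gt_three
      have hc4 : (4 : ℝ) ≤ D ^ (ε' / 4) := by
        have : 0 ≤ 8 * Real.pi * Cs := by (clear * - hCs0; positivity)
        (clear * - hbig this; linarith)
      have hcC : 8 * Real.pi * Cs ≤ D ^ (ε' / 4) := by (clear * - hε'3 hσ hσc hbig; linarith)
      -- the non-natural exponents
      have hnn : ∀ i, ¬ IsN (c i) → |v i| ≤ D ^ ε' := by
        refine NN D hDD1 ρ hρ0 hρ1 δ ?_ hδ2 v hv q k K hq hqδ hk1 hk2 ?_ hK2 h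
        · exact (Real.rpow_le_rpow_of_exponent_le hD.le (by (clear * - hσa; linarith))).trans hδ1
        · exact (Real.rpow_le_rpow_of_exponent_le hD.le
            (by (clear * -; linarith [min_le_left x1 (ε' / 2)]))).trans hK1
      refine ⟨fun i hi => (hnn i hi).trans (Real.rpow_le_rpow_of_exponent_le hD.le hε'1), ?_⟩
      -- the window
      obtain ⟨hJ1, hJ2, hJ3⟩ := rt5_floor (x := D ^ (1 - 2 * ε'))
        (Real.one_le_rpow hD.le (by (clear * - hε'3 hσ hσc; linarith)))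
      obtain ⟨J, hJ⟩ : ∃ J : ℕ, J = ⌊D ^ (1 - 2 * ε')⌋₊ := ⟨_, rfl⟩
      rw [← hJ] at hJ1 hJ2 hJ3
      have hJK : 4 * ((1 : ℕ) : ℝ) * J ≤ δ * K := by
        have h2 : (4 : ℝ) * (J * δ⁻¹) ≤ D ^ (ε' / 4 + ((1 - 2 * ε') + σ)) :=
          rt5_mul hDp hc4 (by (clear * - hJ1 hδ; positivity)) (rt5_mul hDp hJ2 hδi0.le hδiD)
        have h3 : (4 : ℝ) * (J * δ⁻¹) ≤ K := by
          refine (rt5_le hD.le h2 ?_).trans hK1
          (clear * - hσ hσc; linarith [min_le_right x1 (ε' / 2)])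
        have h5 : (4 : ℝ) * (J * δ⁻¹) * δ = 4 * J := by
          (clear * - hδ hJ1; field_simp)
        have h6 : (4 : ℝ) * (J * δ⁻¹) * δ ≤ K * δ := mul_le_mul_of_nonneg_right h3 hδ.le
        push_cast
        (clear * - h5 h6; linarith)
      obtain ⟨j0, hj0, hwin⟩ := rt5_win K 1 J δ hδ le_rfl hJ1 hJK
        (fun j : ℕ => e (∑ i, v i * ((((k + q * j : ℕ) : ℝ) + ρ) / D) ^ (c i)))
        (fun _ => (norm_e _).le) h
      have hlam1 : (1 : ℝ) ≤ (lam : ℝ) := by exact_mod_cast hlam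
      exact by
        have hlam0 : (0 : ℝ) < (lam : ℝ) := by (clear * - hε'3 hσ hσc hlam1; linarith)
        have hq1 : (1 : ℝ) ≤ (q : ℝ) := by exact_mod_cast hq
        -- the point
        obtain ⟨x, hx⟩ : ∃ x : ℕ → ℝ, x = fun j => (((k + q * (j0 + 1 * j) : ℕ) : ℝ) + ρ) / D :=
          ⟨_, rfl⟩
        have hxj : ∀ j : ℕ, x j = (((k + q * (j0 + 1 * j) : ℕ) : ℝ) + ρ) / D := fun j => by rw [hx]
        have hx1' : ∀ j : ℕ, 1 ≤ x j := by
          intro j
          rw [hxj, le_div_iff₀ hDp]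
          push_cast
          have : (0 : ℝ) ≤ (q : ℝ) * (j0 + 1 * j) := by (clear * - hq; positivity)
          (clear * - hρ0 hk1 this; linarith)
        have hKr : ∀ j : ℕ, j ≤ J → (q : ℝ) * (j0 + 1 * j) ≤ D := by
          intro j hj
          have h1 : j0 + 1 * j ≤ K := by (clear * - c n lam q hJ hj0 hj; omega)
          have h2 : ((j0 + 1 * j : ℕ) : ℝ) ≤ K := by exact_mod_cast h1
          push_cast at h2
          refine le_trans ?_ hK2
          have : (0 : ℝ) ≤ q := by (clear * - hε'3 hσ hσc hq1; linarith)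
          (clear * - h2; nlinarith)
        have hx5 : ∀ j : ℕ, j ≤ J → x j ≤ 5 := by
          intro j hj
          rw [hxj, div_le_iff₀ hDp]
          push_cast
          have := hKr j hj
          (clear * - hD00 hρ1 hk2 hDD0 this; linarith)
        exact by
          have hxdiff : ∀ j : ℕ, j < J → |x j - x 0| ≤ δ⁻¹ * (D ^ (1 - 2 * ε') * D ^ (-1 : ℝ)) := by
            intro j hj
            have h1 : x j - x 0 = q * j * D ^ (-1 : ℝ) := by
              rw [hxj, hxj, Real.rpow_neg_one]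
              push_cast
              field_simp
              ring
            rw [h1, abs_of_nonneg (by (clear * - hq hD; positivity))]
            have h2 : (j : ℝ) ≤ D ^ (1 - 2 * ε') := le_trans (by exact_mod_cast hj.le) hJ2
            have h3 : 0 ≤ D ^ (-1 : ℝ) := Real.rpow_nonneg hDp.le _
            calc (q : ℝ) * j * D ^ (-1 : ℝ) ≤ δ⁻¹ * D ^ (1 - 2 * ε') * D ^ (-1 : ℝ) := by
                  (clear * - hqδ h2 hδ hD; gcongr)
              _ = _ := by ring
          -- natural and non-natural parts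
          obtain ⟨w, hw⟩ : ∃ w : ℕ → ℝ, w = fun d : ℕ => ∑ i ∈ univ.filter (fun i => c i = (d : ℝ)),
              v i / (lam * D) ^ d := ⟨_, rfl⟩
          have hwi : ∀ (i : Fin m) (d : ℕ), c i = d → w d = v i / (lam * D) ^ d := by
            intro i d hd
            have h1 : univ.filter (fun i' => c i' = (d : ℝ)) = {i} := by
              ext i'
              simp only [mem_filter, mem_univ, true_and, mem_singleton]
              constructor
              · intro h'
                exact hc.injective (h'.trans hd.symm)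
              · intro h'
                rw [h']; exact hd
            rw [hw]
            simp only
            rw [h1, sum_singleton]
          have hnat : ∀ j : ℕ, ∑ d ∈ Icc 1 n, w d *
              (((lam * q : ℕ) : ℝ) * (j : ℝ) + ((lam * (k + q * j0) + r : ℕ) : ℝ)) ^ d =
              ∑ i ∈ univ.filter (fun i => IsN (c i)), v i * (x j) ^ (c i) := by
            intro j
            have hY : ((lam * q : ℕ) : ℝ) * (j : ℝ) + ((lam * (k + q * j0) + r : ℕ) : ℝ) =
                lam * D * x j := by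
              rw [hxj]
              push_cast
              rw [← hr]
              field_simp
              ring
            rw [hY]
            have h1 : ∀ d ∈ Icc 1 n, w d * (lam * D * x j) ^ d =
                ∑ i, if c i = (d : ℝ) then v i * (x j) ^ (c i) else 0 := by
              intro d _
              rw [hw]
              simp only
              rw [sum_mul, sum_filter]
              refine sum_congr rfl fun i _ => ?_
              split_ifs with hid
              · rw [hid, Real.rpow_natCast, mul_pow (lam * D) (x j) d]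
                have : (lam * D) ^ d ≠ 0 := by (clear * - hlam hD; positivity)
                (clear * - this; field_simp)
              · rfl
            rw [sum_congr rfl h1, sum_comm, sum_filter]
            refine sum_congr rfl fun i _ => ?_
            by_cases hi : IsN (c i)
            · rw [if_pos hi]
              obtain ⟨d, hd⟩ := hi
              rw [sum_eq_single_of_mem d (hnd i d hd)]
              · rw [if_pos hd]
              · intro b _ hb
                rw [if_neg]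
                intro h'
                rw [hd] at h'
                exact hb (by exact_mod_cast h'.symm)
            · rw [if_neg hi]
              refine sum_eq_zero fun b _ => ?_
              rw [if_neg]
              intro h'
              exact hi ⟨b, h'⟩
          have hsplit : ∀ j : ℕ, e (∑ i, v i * ((((k + q * (j0 + 1 * j) : ℕ) : ℝ) + ρ) / D) ^ (c i)) =
              e (∑ d ∈ Icc 1 n, w d *
                (((lam * q : ℕ) : ℝ) * (j : ℝ) + ((lam * (k + q * j0) + r : ℕ) : ℝ)) ^ d) *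
              e (∑ i ∈ univ.filter (fun i => ¬ IsN (c i)), v i * (x j) ^ (c i)) := by
            intro j
            rw [← e_add, hnat, sum_filter_add_sum_filter_not, ← hxj]
          have hη : ∀ j < J, ∃ k' : ℤ, |∑ i ∈ univ.filter (fun i => ¬ IsN (c i)), v i * (x j) ^ (c i) -
              ∑ i ∈ univ.filter (fun i => ¬ IsN (c i)), v i * (x 0) ^ (c i) - k'| ≤
                δ / (8 * Real.pi) := by
            intro j hj
            refine ⟨0, ?_⟩
            rw [Int.cast_zero, sub_zero, ← sum_sub_distrib]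
            obtain ⟨Δ, hΔ⟩ : ∃ Δ : ℝ, Δ = δ⁻¹ * (D ^ (1 - 2 * ε') * D ^ (-1 : ℝ)) := ⟨_, rfl⟩
            have hΔ0 : 0 ≤ Δ := by rw [hΔ]; (clear * - hδ hD; positivity)
            have h1 : |∑ i ∈ univ.filter (fun i => ¬ IsN (c i)),
                (v i * (x j) ^ (c i) - v i * (x 0) ^ (c i))| ≤ Cs * (D ^ ε' * Δ) := by
              calc |∑ i ∈ univ.filter (fun i => ¬ IsN (c i)),
                    (v i * (x j) ^ (c i) - v i * (x 0) ^ (c i))|
                  ≤ ∑ i ∈ univ.filter (fun i => ¬ IsN (c i)),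
                    |v i * (x j) ^ (c i) - v i * (x 0) ^ (c i)| := abs_sum_le_sum_abs _ _
                _ ≤ ∑ i ∈ univ.filter (fun i => ¬ IsN (c i)), c i * 5 ^ (c i) * (D ^ ε' * Δ) := by
                    refine sum_le_sum fun i hi => ?_
                    have hi' : ¬ IsN (c i) := (mem_filter.mp hi).2
                    rw [← mul_sub, abs_mul]
                    have h2 := rt5_lip (hc0 i) (hx1' 0) (hx5 0 (by omega)) (hx1' j) (hx5 j hj.le)
                    have h3 := hxdiff j hj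
                    rw [← hΔ] at h3
                    have h4 : 0 ≤ c i * 5 ^ (c i) :=
                      mul_nonneg (hc0 i).le (Real.rpow_nonneg (by norm_num) _)
                    calc |v i| * |x j ^ (c i) - x 0 ^ (c i)| ≤ D ^ ε' * (c i * 5 ^ (c i) * Δ) :=
                          mul_le_mul (hnn i hi') (h2.trans (mul_le_mul_of_nonneg_left h3 h4))
                            (abs_nonneg _) (Real.rpow_nonneg hDp.le _)
                      _ = _ := by ring
                _ ≤ ∑ i, c i * 5 ^ (c i) * (D ^ ε' * Δ) := by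
                    refine sum_le_sum_of_subset_of_nonneg (filter_subset _ _) fun i _ _ => ?_
                    have h4 : 0 ≤ c i * 5 ^ (c i) :=
                      mul_nonneg (hc0 i).le (Real.rpow_nonneg (by norm_num) _)
                    have h5 : 0 ≤ D ^ ε' := Real.rpow_nonneg hDp.le _
                    (clear * - h4 hD hΔ0; positivity)
                _ = Cs * (D ^ ε' * Δ) := by rw [← sum_mul, hCs]
            refine h1.trans ?_
            have h2 : (8 * Real.pi * Cs) * ((D ^ ε' * Δ) * δ⁻¹) ≤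
                D ^ (ε' / 4 + ((ε' + (σ + ((1 - 2 * ε') + -1))) + σ)) := by
              refine rt5_mul hDp hcC (by (clear * - hD hΔ0 hδ; positivity)) ?_
              refine rt5_mul hDp ?_ hδi0.le hδiD
              refine rt5_mul hDp le_rfl hΔ0 ?_
              rw [hΔ]
              refine rt5_mul hDp hδiD (by (clear * - hD; positivity)) ?_
              exact rt5_mul hDp le_rfl (by (clear * - hD; positivity)) le_rfl
            have h3 : (8 * Real.pi * Cs) * ((D ^ ε' * Δ) * δ⁻¹) ≤ 1 := by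
              have := rt5_le hD.le h2 (b := 0) (by (clear * - hσ hσc; linarith))
              rwa [Real.rpow_zero] at this
            have h4 : Cs * (D ^ ε' * Δ) =
                ((8 * Real.pi * Cs) * ((D ^ ε' * Δ) * δ⁻¹)) * (δ / (8 * Real.pi)) := by
              (clear * - hδ hD; field_simp)
            rw [h4]
            calc _ ≤ 1 * (δ / (8 * Real.pi)) := mul_le_mul_of_nonneg_right h3 (by (clear * - hδ; positivity))
              _ = δ / (8 * Real.pi) := one_mul _
          have hdrop := rt5_drop J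
            (fun j => e (∑ d ∈ Icc 1 n, w d *
                (((lam * q : ℕ) : ℝ) * (j : ℝ) + ((lam * (k + q * j0) + r : ℕ) : ℝ)) ^ d))
            (fun _ => (norm_e _).le)
            (fun j => ∑ i ∈ univ.filter (fun i => ¬ IsN (c i)), v i * (x j) ^ (c i))
            (∑ i ∈ univ.filter (fun i => ¬ IsN (c i)), v i * (x 0) ^ (c i)) (δ / (8 * Real.pi))
            (by (clear * - hδ; positivity)) hη
          exact by
            have hlow : δ / 4 ≤ ‖𝔼 j ∈ range J, e (∑ d ∈ Icc 1 n, w d *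
                  (((lam * q : ℕ) : ℝ) * (j : ℝ) + ((lam * (k + q * j0) + r : ℕ) : ℝ)) ^ d)‖ := by
              have h1 : 2 * Real.pi * (δ / (8 * Real.pi)) = δ / 4 := by
                field_simp
                norm_num
              have h2 : 𝔼 j ∈ range J, e (∑ i, v i * ((((k + q * (j0 + 1 * j) : ℕ) : ℝ) + ρ) / D) ^ (c i)) =
                  𝔼 j ∈ range J, e (∑ d ∈ Icc 1 n, w d *
                  (((lam * q : ℕ) : ℝ) * (j : ℝ) + ((lam * (k + q * j0) + r : ℕ) : ℝ)) ^ d) *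
                e (∑ i ∈ univ.filter (fun i => ¬ IsN (c i)), v i * (x j) ^ (c i)) :=
                expect_congr rfl fun j _ => hsplit j
              rw [h1, ← h2] at hdrop
              have h3 : δ / 2 ≤ ‖𝔼 j ∈ range J,
                e (∑ i, v i * ((((k + q * (j0 + 1 * j) : ℕ) : ℝ) + ρ) / D) ^ (c i))‖ := hwin
              (clear * - hwin hdrop; linarith)
            -- the polynomial part
            have hδ4 : δ ^ 4 ≤ δ / 4 := by
              have h1 : δ ^ 4 = δ ^ 3 * δ := by ring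
              have h2 : δ ^ 3 ≤ (1 / 2) ^ 3 := pow_le_pow_left₀ hδ.le hδ2 3
              rw [h1]
              (clear * - hδ hε'3 hσ hσc h2; nlinarith)
            have hinv : (δ ^ 4)⁻¹ = δ⁻¹ ^ 4 := (inv_pow δ 4).symm
            have hi2 : 4 ≤ δ⁻¹ ^ 2 := by (clear * - hδi hlamδ; nlinarith)
            have hi3 : 8 ≤ δ⁻¹ ^ 3 := by
              have : δ⁻¹ ^ 3 = δ⁻¹ ^ 2 * δ⁻¹ := by ring
              rw [this]; (clear * - hi2 hδi; nlinarith)
            obtain ⟨q', hq'1, hq'b, hq'd⟩ := PL D hDD0 (δ ^ 4) (by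
                have h1 := rt5_inv hDp hδ1 4
                have h3 : δ⁻¹ ^ 4 ≤ D ^ σ0 := rt5_le hD.le h1 (by push_cast; (clear * - hσb; linarith))
                have h4 : (D ^ σ0)⁻¹ ≤ (δ⁻¹ ^ 4)⁻¹ := inv_anti₀ (by (clear * - hδ; positivity)) h3
                rw [inv_pow, inv_inv] at h4
                rwa [Real.rpow_neg hDp.le]) (hδ4.trans (by (clear * - hε'3 hσ hσc hδ2; linarith))) (lam * q) (lam * (k + q * j0) + r) J
              (Nat.one_le_iff_ne_zero.mpr (by
                have : 0 < lam * q := Nat.mul_pos (by (clear * - c n ε' D hlam q K J j0; omega)) (by omega)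
                omega))
              (by
                rw [hinv]
                push_cast
                have h1 : (lam : ℝ) * q ≤ δ⁻¹ * δ⁻¹ := mul_le_mul hlamδ hqδ (by (clear * - hε'3 hσ hσc hq1; linarith)) hδi0.le
                have h2 : δ⁻¹ ^ 4 = δ⁻¹ * δ⁻¹ * δ⁻¹ ^ 2 := by ring
                rw [h2]
                have h3 : 0 ≤ δ⁻¹ * δ⁻¹ := by (clear * - hδ; positivity)
                (clear * - hε'3 hσ hσc hi2 h1; nlinarith))
              (by
                rw [hinv]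
                push_cast
                rw [← hr]
                have h1 := hKr 0 (by omega)
                simp only [Nat.cast_zero, mul_zero, add_zero] at h1
                have h2 : (k : ℝ) + q * j0 + ρ ≤ 5 * D := by (clear * - hD00 hρ1 hk2 hDD0 h1; linarith)
                have h3 : (lam : ℝ) * (k + q * j0) + ρ * lam = lam * (k + q * j0 + ρ) := by ring
                rw [h3]
                have h4 : (lam : ℝ) * (k + q * j0 + ρ) ≤ δ⁻¹ * (5 * D) :=
                  mul_le_mul hlamδ h2 (by (clear * - hq hρ0; positivity)) hδi0.le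
                refine h4.trans ?_
                have h5 : δ⁻¹ ^ 4 * D = δ⁻¹ * (δ⁻¹ ^ 3 * D) := by ring
                rw [h5]
                refine mul_le_mul_of_nonneg_left ?_ hδi0.le
                (clear * - hε'3 hDD0 hi3 hD00 hσ hσc hε' hk2; nlinarith))
              (by
                have h2 : (2 : ℝ) * D ^ (1 - κ0) ≤ D ^ (ε' / 4 + (1 - κ0)) :=
                  rt5_mul hDp (by (clear * - hε'3 hσ hσc hc4; linarith)) (Real.rpow_nonneg hDp.le _) le_rfl
                have h3 := rt5_le hD.le h2 (b := 1 - 2 * ε') (by (clear * - hε'2 hσ hσc; linarith))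
                (clear * - hJ3 h3; linarith))
              (by
                have := rt5_le hD.le hJ2 (b := 1) (by (clear * - hσ hσc; linarith))
                rwa [Real.rpow_one] at this) w (hδ4.trans hlow)
            rw [hinv, ← pow_mul] at hq'b
            refine ⟨q', hq'1, hq'b, ?_⟩
            intro i d hd
            have h1 := hq'd d (hnd i d hd)
            rw [hwi i d hd] at h1
            exact h1

end

end Pool.Agent.Helper67.NX2

end

section

set_option autoImplicit false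

open Finset

open scoped BigOperators ComplexConjugate

namespace Pool.Agent.Helper67.NX2

open Pool.Agent.Helper57.NX

noncomputable section

theorem weyl_one25 : ∃ C : ℕ, ∀ δ : ℝ, 0 < δ → δ ≤ 1 / 2 → ∀ K : ℕ,
    δ⁻¹ ^ C ≤ K → ∀ p : Polynomial ℝ, p.natDegree ≤ 1 →
    δ ≤ ‖𝔼 j ∈ range K, e (p.eval (j : ℝ))‖ →
    ∃ q : ℕ, 1 ≤ q ∧ (q : ℝ) ≤ δ⁻¹ ^ C ∧ dint (q * p.coeff 1) ≤ δ⁻¹ ^ C / (K : ℝ) ^ 1 := by
  refine ⟨1, fun δ hδ hδ2 K hK p hp hS => ⟨1, le_rfl, ?_, ?_⟩⟩
  · rw [pow_one, Nat.cast_one]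
    exact (one_le_inv₀ hδ).mpr (by (clear * - hδ hδ2; linarith))
  exact by
    · have hx1 : 1 ≤ δ⁻¹ := (one_le_inv₀ hδ).mpr (by (clear * - hδ hδ2; linarith))
      exact by
        rw [pow_one] at hK
        have hK1 : (1 : ℝ) ≤ K := hx1.trans hK
        have hK1' : 1 ≤ K := by exact_mod_cast hK1
        rw [Nat.cast_one, one_mul, pow_one, pow_one]
        rcases eq_or_lt_of_le (dint_nonneg (p.coeff 1)) with h0 | hpos
        · rw [← h0]
          (clear * - hδ hK1'; positivity)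
        have h1 : ∀ j : ℕ, e (p.eval (j : ℝ)) = e (p.coeff 0) * e (p.coeff 1 * j) := by
          intro j
          rw [← e_add]
          congr 1
          have h2 : p.natDegree < 2 := by omega
          rw [Polynomial.eval_eq_sum_range' h2]
          simp [Finset.sum_range_succ]
        have h2 : ‖𝔼 j ∈ range K, e (p.eval (j : ℝ))‖ = ‖𝔼 j ∈ range K, e (p.coeff 1 * j)‖ := by
          simp only [h1]
          rw [← Finset.mul_expect, norm_mul, norm_e, one_mul]
        rw [h2] at hS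
        have h3 := hS.trans (norm_expect_e_le (p.coeff 1) K hK1' hpos)
        have hK0 : (0 : ℝ) < K := by (clear * - hδ hδ2 hK hx1; linarith)
        rw [le_div_iff₀ (by (clear * - hK1' hpos; positivity))] at h3
        rw [le_div_iff₀ hK0]
        have h4 : δ * δ⁻¹ = 1 := mul_inv_cancel₀ hδ.ne'
        have h5 : δ * (dint (p.coeff 1) * K) ≤ δ * δ⁻¹ := by
          rw [h4]
          (clear * - hδ hδ2 h3; nlinarith)
        exact le_of_mul_le_mul_left h5 hδ

theorem weyl_step25 (d : ℕ) (hd : 1 ≤ d)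
    (ih : ∃ C : ℕ, ∀ δ : ℝ, 0 < δ → δ ≤ 1 / 2 → ∀ K : ℕ,
      δ⁻¹ ^ C ≤ K → ∀ p : Polynomial ℝ, p.natDegree ≤ d →
      δ ≤ ‖𝔼 j ∈ range K, e (p.eval (j : ℝ))‖ →
      ∃ q : ℕ, 1 ≤ q ∧ (q : ℝ) ≤ δ⁻¹ ^ C ∧ dint (q * p.coeff d) ≤ δ⁻¹ ^ C / (K : ℝ) ^ d) :
    ∃ C : ℕ, ∀ δ : ℝ, 0 < δ → δ ≤ 1 / 2 → ∀ K : ℕ,
      δ⁻¹ ^ C ≤ K → ∀ p : Polynomial ℝ, p.natDegree ≤ d + 1 →
      δ ≤ ‖𝔼 j ∈ range K, e (p.eval (j : ℝ))‖ →
      ∃ q : ℕ, 1 ≤ q ∧ (q : ℝ) ≤ δ⁻¹ ^ C ∧
        dint (q * p.coeff (d + 1)) ≤ δ⁻¹ ^ C / (K : ℝ) ^ (d + 1) := by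
  obtain ⟨C', ih⟩ := ih
  refine ⟨15 * C' + 5 * d + 20, fun δ hδ hδ2 K hK p hp hS => ?_⟩
  exact by
    set x : ℝ := δ⁻¹ with hx
    have hx2 : 2 ≤ x := by
      rw [hx, le_inv_comm₀ (by norm_num) hδ]
      (clear * - hδ2; linarith)
    have hx1 : 1 ≤ x := by (clear * - hδ hδ2 hx2; linarith)
    have hx0 : 0 < x := by (clear * - hδ hδ2 hx2; linarith)
    have hδx : δ = x⁻¹ := by rw [hx, inv_inv]
    have hpow : ∀ n : ℕ, n ≤ 15 * C' + 5 * d + 20 → x ^ n ≤ K := fun n hn =>
      (pow_le_pow_right₀ hx1 hn).trans hK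
    have hK1 : (1 : ℝ) ≤ K := by
      have := hpow 0 (by omega)
      simpa using this
    exact by
      have hK0 : (0 : ℝ) < K := by (clear * - hδ hδ2 hK1; linarith)
      have hKd : (K : ℝ) ≤ (K : ℝ) ^ d := le_self_pow₀ hK1 (by omega)
      -- sums
      have hS1 : δ * K ≤ ‖∑ j ∈ range K, e (p.eval (j : ℝ))‖ := by
        rw [Finset.expect_eq_sum_div_card, card_range, norm_div, Complex.norm_natCast,
          le_div_iff₀ hK0] at hS
        exact hS
      set Sh : ℕ → ℂ := fun h => ∑ i ∈ range (K - h), e ((dif25 p h).eval (i : ℝ)) with hSh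
      have hSh2 : ∀ h, ∑ i ∈ range (K - h), conj (e (p.eval (i : ℝ))) * e (p.eval ((i + h : ℕ) : ℝ)) = Sh h := by
        intro h
        simp only [hSh]
        apply Finset.sum_congr rfl
        intro i _
        rw [dif_eval25, ← e_neg, ← e_add]
        congr 1
        push_cast
        ring
      have hv := vdc25 (fun j => e (p.eval (j : ℝ))) (fun j => norm_e _) K
      exact by
        simp only [hSh2] at hv
        have h1 : (δ * K) ^ 2 ≤ K + 2 * ∑ h ∈ Ico 1 K, ‖Sh h‖ :=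
          (pow_le_pow_left₀ (by (clear * - hδ hK1; positivity)) hS1 2).trans hv
        have h2 : (K : ℝ) ≤ (δ * K) ^ 2 / 2 := by
          have h3 : x ^ 3 ≤ K := hpow 3 (by omega)
          have h4 : 2 * x ^ 2 ≤ K := by (clear * - h3 hx2 hx0; nlinarith [pow_pos hx0 2])
          have h5 : (δ * x) = 1 := by rw [hδx]; exact inv_mul_cancel₀ hx0.ne'
          have h6 : δ ^ 2 * (2 * x ^ 2) = 2 := by
            have : δ ^ 2 * (2 * x ^ 2) = 2 * (δ * x) ^ 2 := by ring
            rw [this, h5]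
            norm_num
          have h7 : 2 ≤ δ ^ 2 * K := by
            rw [← h6]
            apply mul_le_mul_of_nonneg_left h4 (by positivity)
          (clear * - h7; nlinarith)
        have h3 : δ ^ 2 * K ^ 2 / 4 ≤ ∑ h ∈ Ico 1 K, ‖Sh h‖ := by (clear * - h1 h2; nlinarith)
        have hShle : ∀ h, ‖Sh h‖ ≤ ((K - h : ℕ) : ℝ) := by
          intro h
          simp only [hSh]
          refine (norm_sum_le _ _).trans (le_of_eq ?_)
          simp [norm_e]
        set G : Finset ℕ := (Ico 1 K).filter (fun h => δ ^ 2 * K / 8 ≤ ‖Sh h‖) with hG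
        have hGcard : δ ^ 2 * K / 8 ≤ G.card := by
          have h4 : ∑ h ∈ Ico 1 K, ‖Sh h‖ ≤ ∑ h ∈ Ico 1 K, ((if δ ^ 2 * K / 8 ≤ ‖Sh h‖ then (K : ℝ) else 0)
              + δ ^ 2 * K / 8) := by
            apply Finset.sum_le_sum
            intro h hh
            split_ifs with hc
            · have h5 := hShle h
              have h6 : ((K - h : ℕ) : ℝ) ≤ K := by exact_mod_cast Nat.sub_le K h
              have h7 : 0 ≤ δ ^ 2 * K / 8 := by (clear * - hδ hK1; positivity)
              (clear * - h5 h6 h7; linarith)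
            · (clear * - hc; linarith)
          rw [Finset.sum_add_distrib, ← Finset.sum_filter, Finset.sum_const, Finset.sum_const,
            nsmul_eq_mul, nsmul_eq_mul, Nat.card_Ico, ← hG] at h4
          have h8 : ((K - 1 : ℕ) : ℝ) ≤ K := by exact_mod_cast Nat.sub_le K 1
          have h9 : ((K - 1 : ℕ) : ℝ) * (δ ^ 2 * K / 8) ≤ K * (δ ^ 2 * K / 8) :=
            mul_le_mul_of_nonneg_right h8 (by (clear * - hδ hK1; positivity))
          have h10 : δ ^ 2 * K / 8 * K ≤ G.card * K := by (clear * - h1 h2 h4 h9; nlinarith)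
          exact le_of_mul_le_mul_right h10 hK0
        -- induction hypothesis
        exact by
          have hδ5 : δ ^ 5 ≤ δ ^ 2 / 8 := by
            have : δ ^ 3 ≤ (1 / 2) ^ 3 := pow_le_pow_left₀ hδ.le hδ2 3
            have h5 : δ ^ 5 = δ ^ 2 * δ ^ 3 := by ring
            rw [h5]
            have h6 : 0 ≤ δ ^ 2 := by positivity
            (clear * - this; nlinarith)
          have hδ5' : δ ^ 5 ≤ 1 / 2 := by
            have : δ ^ 2 ≤ 1 := by (clear * - hδ hδ2; nlinarith)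
            (clear * - hδ hδ2 hδ5 this; linarith)
          have hδ5inv : (δ ^ 5)⁻¹ = x ^ 5 := by rw [hδx]; simp
          set ε0 : ℝ := x ^ (5 * C' + 5 * d) / (K : ℝ) ^ d with hε0
          have hex : ∀ h ∈ G, ∃ q : ℕ, q ∈ Icc 1 ⌊x ^ (5 * C')⌋₊ ∧
              dint (q * (((d + 1 : ℕ) : ℝ) * h * p.coeff (d + 1))) ≤ ε0 := by
            intro h hh
            rw [hG, mem_filter, mem_Ico] at hh
            have hKh : δ ^ 5 * K ≤ ((K - h : ℕ) : ℝ) := by
              have h5 := hShle h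
              have h6 : δ ^ 5 * K ≤ δ ^ 2 * K / 8 := by (clear * - hδ5; nlinarith)
              (clear * - hh h5 h6; linarith [hh.2])
            have hKh0 : (0 : ℝ) < ((K - h : ℕ) : ℝ) := lt_of_lt_of_le (by (clear * - hδ hK1; positivity)) hKh
            obtain ⟨q, hq1, hq2, hq3⟩ := ih (δ ^ 5) (by positivity) hδ5' (K - h) (by
                rw [hδ5inv, ← pow_mul]
                have h7 : x ^ (5 * C' + 5) ≤ K := hpow _ (by (clear * - K hp h; omega))
                have h8 : δ ^ 5 * x ^ (5 * C' + 5) = x ^ (5 * C') := by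
                  rw [pow_add, hδx]
                  (clear * - hx2; field_simp)
                calc x ^ (5 * C') = δ ^ 5 * x ^ (5 * C' + 5) := h8.symm
                  _ ≤ δ ^ 5 * K := mul_le_mul_of_nonneg_left h7 (by positivity)
                  _ ≤ _ := hKh) (dif25 p h) (dif_deg25 p d h hp) (by
                rw [Finset.expect_eq_sum_div_card, card_range, norm_div, Complex.norm_natCast,
                  le_div_iff₀ hKh0]
                have h9 : ((K - h : ℕ) : ℝ) ≤ K := by exact_mod_cast Nat.sub_le K h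
                have h10 : ‖∑ i ∈ range (K - h), e (Polynomial.eval (i : ℝ) (dif25 p h))‖ = ‖Sh h‖ := rfl
                rw [h10]
                calc δ ^ 5 * ((K - h : ℕ) : ℝ) ≤ δ ^ 5 * K := mul_le_mul_of_nonneg_left h9 (by positivity)
                  _ ≤ δ ^ 2 / 8 * K := mul_le_mul_of_nonneg_right hδ5 hK0.le
                  _ = δ ^ 2 * K / 8 := by ring
                  _ ≤ _ := hh.2)
            rw [hδ5inv, ← pow_mul] at hq2 hq3
            refine ⟨q, ?_, ?_⟩
            · rw [mem_Icc]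
              exact ⟨hq1, Nat.le_floor hq2⟩
            · rw [dif_coeff25 p d h hp] at hq3
              exact by
                refine hq3.trans ?_
                rw [hε0, div_le_div_iff₀ (by (clear * - hKh0; positivity)) (by positivity)]
                have h11 : (δ ^ 5 * K) ^ d ≤ ((K - h : ℕ) : ℝ) ^ d := pow_le_pow_left₀ (by positivity) hKh d
                have h12 : x ^ (5 * C' + 5 * d) * (δ ^ 5 * K) ^ d = x ^ (5 * C') * (K : ℝ) ^ d := by
                  rw [pow_add, mul_pow, ← pow_mul, hδx]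
                  have : x ^ (5 * d) * (x⁻¹) ^ (5 * d) = 1 := by
                    rw [← mul_pow, mul_inv_cancel₀ hx0.ne', one_pow]
                  calc x ^ (5 * C') * x ^ (5 * d) * ((x⁻¹) ^ (5 * d) * (K : ℝ) ^ d)
                      = x ^ (5 * C') * (x ^ (5 * d) * (x⁻¹) ^ (5 * d)) * (K : ℝ) ^ d := by ring
                    _ = x ^ (5 * C') * (K : ℝ) ^ d := by rw [this, mul_one]
                calc x ^ (5 * C') * (K : ℝ) ^ d = x ^ (5 * C' + 5 * d) * (δ ^ 5 * K) ^ d := h12.symm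
                  _ ≤ x ^ (5 * C' + 5 * d) * ((K - h : ℕ) : ℝ) ^ d :=
                    mul_le_mul_of_nonneg_left h11 (by positivity)
          choose! qf hqf1 hqf2 using hex
          exact by
            set η : ℝ := δ ^ (5 * C' + 5) with hη
            have hη0 : 0 < η := by positivity
            have hη1 : η ≤ 1 := pow_le_one₀ hδ.le (by (clear * - hδ hδ2; linarith))
            have hηinv : η⁻¹ = x ^ (5 * C' + 5) := by rw [hη, hδx]; simp
            have hne : (Icc 1 ⌊x ^ (5 * C')⌋₊).Nonempty := by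
              rw [nonempty_Icc]
              exact Nat.le_floor (by simpa using one_le_pow₀ hx1)
            have hpig : ((Icc 1 ⌊x ^ (5 * C')⌋₊).card) • (η * K) ≤ (G.card : ℝ) := by
              rw [Nat.card_Icc, nsmul_eq_mul, Nat.add_sub_cancel]
              have h5 : ((⌊x ^ (5 * C')⌋₊ : ℕ) : ℝ) ≤ x ^ (5 * C') := Nat.floor_le (by positivity)
              calc ((⌊x ^ (5 * C')⌋₊ : ℕ) : ℝ) * (η * K) ≤ x ^ (5 * C') * (η * K) :=
                    mul_le_mul_of_nonneg_right h5 (by (clear * - hδ hK1; positivity))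
                _ = δ ^ 5 * K := by
                    rw [hη, pow_add, hδx]
                    have : x ^ (5 * C') * (x⁻¹) ^ (5 * C') = 1 := by
                      rw [← mul_pow, mul_inv_cancel₀ hx0.ne', one_pow]
                    calc x ^ (5 * C') * ((x⁻¹) ^ (5 * C') * (x⁻¹) ^ 5 * K)
                        = (x ^ (5 * C') * (x⁻¹) ^ (5 * C')) * ((x⁻¹) ^ 5 * K) := by ring
                      _ = (x⁻¹) ^ 5 * K := by rw [this, one_mul]
                _ ≤ δ ^ 2 / 8 * K := mul_le_mul_of_nonneg_right hδ5 hK0.le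
                _ = δ ^ 2 * K / 8 := by ring
                _ ≤ _ := hGcard
            exact by
              obtain ⟨q, hq, hcard⟩ :=
                Finset.exists_le_card_fiber_of_nsmul_le_card_of_maps_to hqf1 hne hpig
              rw [mem_Icc] at hq
              have hq2 : (q : ℝ) ≤ x ^ (5 * C') :=
                (Nat.cast_le.mpr hq.2).trans (Nat.floor_le (by positivity))
              obtain ⟨q', hq'1, hq'2, hq'3⟩ := vino ((q : ℝ) * ((d + 1 : ℕ) : ℝ) * p.coeff (d + 1)) η ε0 K hη0 hη1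
                (by
                  rw [div_eq_mul_inv, hηinv]
                  have h5 : x ^ (5 * C' + 8) ≤ K := hpow _ (by (clear * - δ hp q; omega))
                  refine le_trans ?_ h5
                  have h6 : x ^ (5 * C' + 8) = x ^ (5 * C' + 5) * x ^ 3 := by ring
                  rw [h6, mul_comm]
                  apply mul_le_mul_of_nonneg_left _ (by positivity)
                  calc (8 : ℝ) = 2 ^ 3 := by norm_num
                    _ ≤ x ^ 3 := pow_le_pow_left₀ (by norm_num) hx2 3)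
                (by (clear * - hδ hK1; positivity))
                (by
                  rw [hε0, div_le_div_iff₀ (by positivity) (by norm_num)]
                  have h5 : x ^ (10 * C' + 5 * d + 10) ≤ (K : ℝ) ^ d := (hpow _ (by omega)).trans hKd
                  have h6 : x ^ (5 * C' + 5 * d) * 32 ≤ η * x ^ (10 * C' + 5 * d + 10) := by
                    have h7 : η * x ^ (10 * C' + 5 * d + 10) = x ^ (5 * C' + 5 * d) * x ^ 5 := by
                      have h8 : η * x ^ (5 * C' + 5) = 1 := by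
                        rw [← hηinv]
                        exact mul_inv_cancel₀ hη0.ne'
                      calc η * x ^ (10 * C' + 5 * d + 10)
                          = (η * x ^ (5 * C' + 5)) * (x ^ (5 * C' + 5 * d) * x ^ 5) := by ring
                        _ = _ := by rw [h8, one_mul]
                    rw [h7]
                    apply mul_le_mul_of_nonneg_left _ (by positivity)
                    calc (32 : ℝ) = 2 ^ 5 := by norm_num
                      _ ≤ x ^ 5 := pow_le_pow_left₀ (by norm_num) hx2 5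
                  exact h6.trans (mul_le_mul_of_nonneg_left h5 hη0.le))
                (G.filter (fun h => qf h = q))
                (by
                  intro h hh
                  rw [mem_filter] at hh
                  have h5 := hh.1
                  rw [hG, mem_filter, mem_Ico] at h5
                  refine ⟨h5.1.1, h5.1.2, ?_⟩
                  have h6 := hqf2 h hh.1
                  rw [hh.2] at h6
                  have h7 : (q : ℝ) * ((d + 1 : ℕ) : ℝ) * p.coeff (d + 1) * h =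
                      q * (((d + 1 : ℕ) : ℝ) * h * p.coeff (d + 1)) := by ring
                  rw [h7]
                  exact h6)
                hcard
              refine ⟨q' * q * (d + 1), ?_, ?_, ?_⟩
              · have : 0 < q' * q * (d + 1) := by
                  have := hq.1
                  (clear * - hq'1 this hd; positivity)
                omega
              · have h5 : (q' : ℝ) ≤ x ^ 2 * x ^ (5 * C' + 5) := by
                  refine hq'2.trans ?_
                  rw [div_eq_mul_inv, hηinv]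
                  apply mul_le_mul_of_nonneg_right _ (by positivity)
                  (clear * - hx2; nlinarith)
                exact by
                  have h6 : ((d + 1 : ℕ) : ℝ) ≤ x ^ (d + 1) := by
                    have h7 : d + 1 ≤ 2 ^ (d + 1) := (Nat.lt_two_pow_self).le
                    calc ((d + 1 : ℕ) : ℝ) ≤ ((2 ^ (d + 1) : ℕ) : ℝ) := by exact_mod_cast h7
                      _ = (2 : ℝ) ^ (d + 1) := by push_cast; ring
                      _ ≤ x ^ (d + 1) := pow_le_pow_left₀ (by norm_num) hx2 _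
                  have h8 : ((q' * q * (d + 1) : ℕ) : ℝ) = (q' : ℝ) * q * ((d + 1 : ℕ) : ℝ) := by push_cast; ring
                  rw [h8]
                  calc (q' : ℝ) * q * ((d + 1 : ℕ) : ℝ)
                      ≤ (x ^ 2 * x ^ (5 * C' + 5)) * x ^ (5 * C') * x ^ (d + 1) := by
                        apply mul_le_mul (mul_le_mul h5 hq2 (by (clear * -; positivity)) (by positivity)) h6 (by positivity)
                          (by positivity)
                    _ = x ^ (10 * C' + 7 + (d + 1)) := by ring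
                    _ ≤ x ^ (15 * C' + 5 * d + 20) := pow_le_pow_right₀ hx1 (by omega)
              · have h5 : ((q' * q * (d + 1) : ℕ) : ℝ) * p.coeff (d + 1) =
                    q' * ((q : ℝ) * ((d + 1 : ℕ) : ℝ) * p.coeff (d + 1)) := by push_cast; ring
                exact by
                  rw [h5]
                  refine hq'3.trans ?_
                  have h6 : 128 * ε0 / (η ^ 2 * K) = 128 * x ^ (15 * C' + 5 * d + 10) / (K : ℝ) ^ (d + 1) := by
                    have h7 : η = (x ^ (5 * C' + 5))⁻¹ := by rw [← hηinv, inv_inv]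
                    rw [hε0, h7]
                    field_simp
                    ring
                  rw [h6]
                  apply div_le_div_of_nonneg_right _ (by (clear * - hK1; positivity))
                  calc 128 * x ^ (15 * C' + 5 * d + 10) ≤ x ^ 7 * x ^ (15 * C' + 5 * d + 10) := by
                        apply mul_le_mul_of_nonneg_right _ (by positivity)
                        calc (128 : ℝ) = 2 ^ 7 := by norm_num
                          _ ≤ x ^ 7 := pow_le_pow_left₀ (by norm_num) hx2 7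
                    _ = x ^ (15 * C' + 5 * d + 17) := by ring
                    _ ≤ x ^ (15 * C' + 5 * d + 20) := pow_le_pow_right₀ hx1 (by omega)

theorem weyl (d : ℕ) (hd : 1 ≤ d) : ∃ C : ℕ, ∀ δ : ℝ, 0 < δ → δ ≤ 1 / 2 → ∀ K : ℕ,
    δ⁻¹ ^ C ≤ K → ∀ p : Polynomial ℝ, p.natDegree ≤ d →
    δ ≤ ‖𝔼 j ∈ range K, e (p.eval (j : ℝ))‖ →
    ∃ q : ℕ, 1 ≤ q ∧ (q : ℝ) ≤ δ⁻¹ ^ C ∧ dint (q * p.coeff d) ≤ δ⁻¹ ^ C / (K : ℝ) ^ d := by
  induction d, hd using Nat.le_induction with
  | base => exact weyl_one25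
  | succ d hd ih => exact weyl_step25 d hd ih

end

end Pool.Agent.Helper67.NX2

end

section

set_option autoImplicit false

open Finset

open scoped BigOperators ComplexConjugate

namespace Pool.Agent.Helper67.NX2

open Pool.Agent.Helper57.NX

theorem ratl (hES : ES0) {m : ℕ} (c : Fin m → ℝ) (hc : StrictMono c) (hc0 : ∀ i, 0 < c i)
    (a ε : ℝ) (hε : 0 < ε) :
    ∃ x0 : ℝ, 0 < x0 ∧ ∃ C : ℕ, ∃ σ : ℝ, 0 < σ ∧ ∃ D0 : ℝ, ∀ D : ℝ, D0 ≤ D →
    ∀ ρ : ℝ, 0 ≤ ρ → ρ ≤ 1 → ∀ lam : ℕ, 1 ≤ lam → (∃ r : ℕ, ρ * lam = r) →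
    ∀ δ : ℝ, D ^ (-σ) ≤ δ → δ ≤ 1 / 2 → (lam : ℝ) ≤ δ⁻¹ →
    ∀ v : Fin m → ℝ, (∀ i, |v i| ≤ D ^ a) →
    ∀ q k K : ℕ, 1 ≤ q → (q : ℝ) ≤ δ⁻¹ → D ≤ k → (k : ℝ) ≤ 3 * D → D ^ (1 - x0) ≤ K →
    (q : ℝ) * K ≤ D →
    δ ≤ ‖𝔼 j ∈ range K, e (∑ i, v i * ((((k + q * j : ℕ) : ℝ) + ρ) / D) ^ (c i))‖ →
    (∀ i, ¬ IsN (c i) → |v i| ≤ D ^ ε) ∧
    ∃ q' : ℕ, 1 ≤ q' ∧ (q' : ℝ) ≤ δ⁻¹ ^ C ∧ ∀ (i : Fin m) (d : ℕ), c i = d →
      dint (q' * (v i / (lam * D) ^ d)) ≤ D ^ (ε - d) :=
  rt5_ratl weyl hES c hc hc0 a ε hε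

end Pool.Agent.Helper67.NX2

end

section

set_option autoImplicit false

open Finset

open scoped BigOperators ComplexConjugate

namespace Pool.Agent.Helper57.NX

noncomputable section

section BP

variable {N : ℕ} [NeZero N]

/-- conjugates of block phases are block phases -/
theorem bphase_conj67 (X : ℕ) (r : ZMod N) (cc : ℕ → ℂ) (φ : ℕ → ℝ) (x : ZMod N) :
    conj (bphase X r cc φ x) = bphase X r (fun j => conj (cc j)) (fun j => -φ j) x := by
  unfold bphase
  rw [map_mul, ← e_neg]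
  congr 2
  ring

end BP

end

end Pool.Agent.Helper57.NX

end

section

set_option autoImplicit false

open Finset

open scoped BigOperators ComplexConjugate

namespace Pool.Agent.Helper57.NX

noncomputable section

/-- `u` does not correlate with block phases with a small form -/
theorem big67 {m N : ℕ} [NeZero N] (S : Sys (m + 1)) (c : Fin (m + 1) → ℝ) (f0 : ZMod N → ℂ)
    (f' : Fin m → ZMod N → ℂ) (ψ u : ZMod N → ℂ) (hψ1 : ∑ y, ‖ψ y‖ ≤ 1)
    (hψ2 : ∀ x, u x = ∑ y, ψ y * conj (𝔼 k ∈ S.I, Fk67 S c f0 f' k (x + y))) (X2 : ℕ)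
    (r' : ZMod N) (cc : ℕ → ℂ) (φ : ℕ → ℝ) (η : ℝ) (hη : 0 ≤ η)
    (h : ∀ r'' : ZMod N, ‖form S c 1 f0 (Fin.snoc (α := fun _ => ZMod N → ℂ) f'
      (bphase X2 r'' (fun j => conj (cc j)) (fun j => -φ j)))‖ ≤ η) :
    ‖𝔼 x, u x * bphase X2 r' cc φ x‖ ≤ η := by
  set F : ZMod N → ℂ := fun x => 𝔼 k ∈ S.I, Fk67 S c f0 f' k x with hF
  have e1 : ∀ y, ‖𝔼 x, conj (F (x + y)) * bphase X2 r' cc φ x‖ ≤ η := by
    intro y
    have e2 : 𝔼 x, conj (F (x + y)) * bphase X2 r' cc φ x =
        conj (form S c 1 f0 (Fin.snoc (α := fun _ => ZMod N → ℂ) f'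
          (bphase X2 (r' + y) (fun j => conj (cc j)) (fun j => -φ j)))) := by
      rw [← expect_dual67, conj_expect67,
        ← expect_shift (fun x => conj ((𝔼 k ∈ S.I, Fk67 S c f0 f' k x) *
          bphase X2 (r' + y) (fun j => conj (cc j)) (fun j => -φ j) x)) y]
      refine expect_congr rfl fun x _ => ?_
      rw [map_mul, bphase_shift67, ← bphase_conj67, Complex.conj_conj, add_sub_cancel_right]
    rw [e2, RCLike.norm_conj]
    exact h _
  have e3 : 𝔼 x, u x * bphase X2 r' cc φ x =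
      ∑ y, ψ y * 𝔼 x, conj (F (x + y)) * bphase X2 r' cc φ x := by
    simp_rw [hψ2, sum_mul, mul_expect]
    rw [expect_sum_comm]
    refine sum_congr rfl fun y _ => expect_congr rfl fun x _ => ?_
    ring
  rw [e3]
  calc _ ≤ ∑ y, ‖ψ y * 𝔼 x, conj (F (x + y)) * bphase X2 r' cc φ x‖ := norm_sum_le _ _
    _ ≤ ∑ y, ‖ψ y‖ * η := sum_le_sum fun y _ => by
        rw [norm_mul]
        exact mul_le_mul_of_nonneg_left (e1 y) (norm_nonneg _)
    _ = (∑ y, ‖ψ y‖) * η := by rw [sum_mul]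
    _ ≤ 1 * η := mul_le_mul_of_nonneg_right hψ1 hη
    _ = η := one_mul _

end

end Pool.Agent.Helper57.NX

end

section

set_option autoImplicit false

open Finset

open scoped BigOperators ComplexConjugate

namespace Pool.Agent.Helper67.NX2

open Pool.Agent.Helper57.NX

noncomputable section

section Aux

variable {m N : ℕ} [NeZero N] {S : Sys (m + 1)} {c : Fin (m + 1) → ℝ} {x : ℝ} {lam : ℕ}

theorem step_div15 (hI : IG S c N x lam) (hD : 0 < S.D) (q k0 j : ℕ) (i : Fin (m + 1)) :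
    ∃ t : ℤ, S.a c i (k0 + q * j) = S.a c i k0 + (stp S.Q q (c i) : ℤ) * t := by
  by_cases h : IsN (c i)
  · have h' := h
    obtain ⟨n, hn⟩ := h'
    obtain ⟨r, hr⟩ := hI.rho
    rw [a_nat hI hD hr i n hn, a_nat hI hD hr i n hn, stp_nat _ _ h]
    have hdvd : (q : ℤ) ∣ ((lam * (k0 + q * j) + r : ℕ) : ℤ) ^ n - ((lam * k0 + r : ℕ) : ℤ) ^ n := by
      have h1 : (q : ℤ) ∣ ((lam * (k0 + q * j) + r : ℕ) : ℤ) - ((lam * k0 + r : ℕ) : ℤ) :=
        ⟨lam * j, by push_cast; ring⟩
      exact h1.trans (sub_dvd_pow_sub_pow _ _ n)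
    obtain ⟨t, ht⟩ := hdvd
    refine ⟨t, ?_⟩
    push_cast at ht ⊢
    linear_combination (S.Q : ℤ) * ht
  · rw [stp_not _ _ h]
    exact ⟨S.a c i (k0 + q * j) - S.a c i k0, by push_cast; ring⟩

end Aux

end

end Pool.Agent.Helper67.NX2

end

section

set_option autoImplicit false

open Finset

open scoped BigOperators ComplexConjugate

namespace Pool.Agent.Helper67.NX2

open Pool.Agent.Helper57.NX

noncomputable section

/-- the sum over `a < L` -/
theorem ls87_geom (θ : ℝ) (L : ℕ) (hL : 1 ≤ L) (h : 0 < dint θ) :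
    ‖∑ t ∈ range L, e (θ * t)‖ ≤ 1 / (2 * dint θ) := by
  have h1 := norm_expect_e_le θ L hL h
  have hL0 : (0 : ℝ) < (L : ℝ) := by exact_mod_cast hL
  rw [Finset.expect_eq_sum_div_card, card_range, norm_div, Complex.norm_natCast,
    div_le_iff₀ hL0] at h1
  refine h1.trans (le_of_eq ?_)
  field_simp

/-- the dual inequality, with the double average -/
theorem ls87_double (P : Finset ℝ) (Δ : ℝ) (hΔ : 0 < Δ)
    (hP : ∀ α ∈ P, ∀ β ∈ P, α ≠ β → Δ ≤ dint (α - β)) (N0 L : ℕ) (hL : 1 ≤ L) (c : ℝ → ℂ) :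
    ∑ b ∈ range L, ∑ a ∈ range L,
      ‖∑ α ∈ P, c α * e (α * ((N0 : ℝ) + a - b))‖ ^ 2 ≤
      (2 * (L : ℝ) ^ 2 + 1 / Δ ^ 2) * ∑ α ∈ P, ‖c α‖ ^ 2 := by
  obtain ⟨K, hK⟩ : ∃ K : ℝ → ℝ, K = fun θ => ‖∑ t ∈ range L, e (θ * t)‖ := ⟨_, rfl⟩
  obtain ⟨X, hX⟩ : ∃ X : ℝ, X = ∑ b ∈ range L, ∑ a ∈ range L,
      ‖∑ α ∈ P, c α * e (α * ((N0 : ℝ) + a - b))‖ ^ 2 := ⟨_, rfl⟩
  rw [← hX]
  have hX0 : 0 ≤ X := by
    rw [hX]; exact Finset.sum_nonneg fun _ _ => Finset.sum_nonneg fun _ _ => sq_nonneg _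
  have hKneg : ∀ θ, K (-θ) = K θ := by
    intro θ
    rw [hK]
    dsimp only
    rw [← RCLike.norm_conj, map_sum]
    congr 1
    refine Finset.sum_congr rfl fun t _ => ?_
    rw [ls87_e_conj]
    congr 1
    ring
  have e1 : (X : ℂ) = ∑ α ∈ P, ∑ β ∈ P, c α * conj (c β) * e ((α - β) * N0) *
      ((∑ a ∈ range L, e ((α - β) * a)) * ∑ b ∈ range L, e (-(α - β) * b)) := by
    have e2 : ∀ a b : ℕ, ((‖∑ α ∈ P, c α * e (α * ((N0 : ℝ) + a - b))‖ ^ 2 : ℝ) : ℂ) =
        ∑ α ∈ P, ∑ β ∈ P, c α * conj (c β) * e ((α - β) * N0) *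
          (e ((α - β) * a) * e (-(α - β) * b)) := by
      intro a b
      rw [← Complex.normSq_eq_norm_sq, ← Complex.mul_conj, map_sum, Finset.sum_mul_sum]
      refine Finset.sum_congr rfl fun α _ => Finset.sum_congr rfl fun β _ => ?_
      rw [map_mul, ls87_e_conj]
      have e3 : e ((α - β) * N0) * (e ((α - β) * a) * e (-(α - β) * b)) =
          e (α * ((N0 : ℝ) + a - b)) * e (-(β * ((N0 : ℝ) + a - b))) := by
        rw [← ls87_e_add, ← ls87_e_add, ← ls87_e_add]
        congr 1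
        ring
      calc c α * e (α * ((N0 : ℝ) + a - b)) * (conj (c β) * e (-(β * ((N0 : ℝ) + a - b))))
          = c α * conj (c β) * (e (α * ((N0 : ℝ) + a - b)) * e (-(β * ((N0 : ℝ) + a - b)))) := by
            ring
        _ = c α * conj (c β) * e ((α - β) * N0) * (e ((α - β) * a) * e (-(α - β) * b)) := by
            rw [← e3]; ring
    calc (X : ℂ) = ∑ b ∈ range L, ∑ a ∈ range L, ∑ α ∈ P, ∑ β ∈ P,
          c α * conj (c β) * e ((α - β) * N0) * (e ((α - β) * a) * e (-(α - β) * b)) := by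
          rw [hX]
          push_cast
          refine Finset.sum_congr rfl fun b _ => Finset.sum_congr rfl fun a _ => ?_
          rw [← e2 a b]
          push_cast
          rfl
      _ = ∑ b ∈ range L, ∑ α ∈ P, ∑ a ∈ range L, ∑ β ∈ P,
          c α * conj (c β) * e ((α - β) * N0) * (e ((α - β) * a) * e (-(α - β) * b)) :=
          Finset.sum_congr rfl fun b _ => Finset.sum_comm
      _ = ∑ α ∈ P, ∑ b ∈ range L, ∑ a ∈ range L, ∑ β ∈ P,
          c α * conj (c β) * e ((α - β) * N0) * (e ((α - β) * a) * e (-(α - β) * b)) :=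
          Finset.sum_comm
      _ = ∑ α ∈ P, ∑ β ∈ P, c α * conj (c β) * e ((α - β) * N0) *
          ((∑ a ∈ range L, e ((α - β) * a)) * ∑ b ∈ range L, e (-(α - β) * b)) := by
          refine Finset.sum_congr rfl fun α _ => ?_
          rw [Finset.sum_congr rfl fun b _ => Finset.sum_comm, Finset.sum_comm]
          refine Finset.sum_congr rfl fun β _ => ?_
          rw [Finset.sum_mul_sum, Finset.mul_sum, Finset.sum_comm]
          refine Finset.sum_congr rfl fun a _ => ?_
          rw [Finset.mul_sum]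
  have e2 : X ≤ ∑ α ∈ P, ∑ β ∈ P, ‖c α‖ * ‖c β‖ * K (α - β) ^ 2 := by
    calc X = ‖(X : ℂ)‖ := by rw [Complex.norm_real, Real.norm_of_nonneg hX0]
      _ ≤ ∑ α ∈ P, ∑ β ∈ P, ‖c α * conj (c β) * e ((α - β) * N0) *
          ((∑ a ∈ range L, e ((α - β) * a)) * ∑ b ∈ range L, e (-(α - β) * b))‖ := by
          rw [e1]
          exact (norm_sum_le _ _).trans (Finset.sum_le_sum fun α _ => norm_sum_le _ _)
      _ = ∑ α ∈ P, ∑ β ∈ P, ‖c α‖ * ‖c β‖ * K (α - β) ^ 2 := by
          refine Finset.sum_congr rfl fun α _ => Finset.sum_congr rfl fun β _ => ?_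
          rw [norm_mul, norm_mul, norm_mul, norm_mul, RCLike.norm_conj, ls87_norm_e, mul_one]
          have h1 : ‖∑ b ∈ range L, e (-(α - β) * b)‖ = K (α - β) := by
            rw [← hKneg, hK]
          rw [h1, sq]
          congr 1
          rw [hK]
  have e3 : ∑ α ∈ P, ∑ β ∈ P, ‖c α‖ * ‖c β‖ * K (α - β) ^ 2 ≤
      ∑ α ∈ P, ∑ β ∈ P, ‖c α‖ ^ 2 * K (α - β) ^ 2 := by
    have s1 : ∑ α ∈ P, ∑ β ∈ P, ‖c β‖ ^ 2 * K (α - β) ^ 2 =
        ∑ α ∈ P, ∑ β ∈ P, ‖c α‖ ^ 2 * K (α - β) ^ 2 := by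
      rw [Finset.sum_comm]
      refine Finset.sum_congr rfl fun α _ => Finset.sum_congr rfl fun β _ => ?_
      rw [← hKneg (α - β), neg_sub]
    have s2 : ∑ α ∈ P, ∑ β ∈ P, ‖c α‖ * ‖c β‖ * K (α - β) ^ 2 ≤
        ∑ α ∈ P, ∑ β ∈ P, (1 / 2 * (‖c α‖ ^ 2 * K (α - β) ^ 2) +
          1 / 2 * (‖c β‖ ^ 2 * K (α - β) ^ 2)) := by
      refine Finset.sum_le_sum fun α _ => Finset.sum_le_sum fun β _ => ?_
      (clear * -; nlinarith [mul_nonneg (sq_nonneg (‖c α‖ - ‖c β‖)) (sq_nonneg (K (α - β)))])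
    have s3 : ∑ α ∈ P, ∑ β ∈ P, (1 / 2 * (‖c α‖ ^ 2 * K (α - β) ^ 2) +
          1 / 2 * (‖c β‖ ^ 2 * K (α - β) ^ 2)) =
        1 / 2 * (∑ α ∈ P, ∑ β ∈ P, ‖c α‖ ^ 2 * K (α - β) ^ 2) +
        1 / 2 * (∑ α ∈ P, ∑ β ∈ P, ‖c β‖ ^ 2 * K (α - β) ^ 2) := by
      simp only [Finset.sum_add_distrib, Finset.mul_sum]
    rw [s1] at s3
    (clear * - s2 s3; linarith)
  refine (e2.trans e3).trans ?_
  rw [Finset.mul_sum]
  refine Finset.sum_le_sum fun α _ => ?_
  rw [← Finset.mul_sum, mul_comm]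
  refine mul_le_mul_of_nonneg_right ?_ (sq_nonneg _)
  refine ls87_sep P Δ hΔ hP α L (fun β => K (α - β) ^ 2) (fun β => ?_) (fun β hβ => ?_)
  · have h1 := ls87_geom' (α - β) L
    have h2 : K (α - β) ≤ L := by rw [hK]; exact h1
    have h3 : 0 ≤ K (α - β) := by rw [hK]; exact norm_nonneg _
    exact pow_le_pow_left₀ h3 h2 2
  · have h1 := ls87_geom (α - β) L hL hβ
    have h2 : K (α - β) ≤ 1 / (2 * dint (α - β)) := by rw [hK]; exact h1
    have h3 : 0 ≤ K (α - β) := by rw [hK]; exact norm_nonneg _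
    calc K (α - β) ^ 2 ≤ (1 / (2 * dint (α - β))) ^ 2 := pow_le_pow_left₀ h3 h2 2
      _ = 1 / (4 * dint (α - β) ^ 2) := by rw [div_pow, mul_pow]; norm_num

theorem large_sieve : ∃ C : ℝ, 0 < C ∧ ∀ (N0 N : ℕ) (Δ : ℝ), 1 ≤ N → 0 < Δ → Δ ≤ 1 →
    ∀ P : Finset ℝ, (∀ α ∈ P, ∀ β ∈ P, α ≠ β → Δ ≤ dint (α - β)) → ∀ a : ℕ → ℂ,
    ∑ α ∈ P, ‖∑ n ∈ Ico N0 (N0 + N), a n * e (α * n)‖ ^ 2 ≤
      C * (N + 1 / Δ) * ∑ n ∈ Ico N0 (N0 + N), ‖a n‖ ^ 2 := by
  refine ⟨17, by norm_num, ?_⟩
  intro N0 N Δ hN hΔ hΔ1 P hP a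
  have hΔi : 1 ≤ 1 / Δ := by rw [le_div_iff₀ hΔ]; (clear * - hΔ1; linarith)
  refine ls87_dual P (Ico N0 (N0 + N)) (fun α n => e (α * n)) (17 * (N + 1 / Δ)) (by (clear * - hN hΔ; positivity))
    (fun c => ?_) a
  -- the length
  obtain ⟨N1, hN1⟩ : ∃ N1 : ℕ, N1 = N + ⌈1 / Δ⌉₊ := ⟨_, rfl⟩
  have h1 : (1 / Δ : ℝ) ≤ (⌈1 / Δ⌉₊ : ℝ) := Nat.le_ceil _
  have h2 : (⌈1 / Δ⌉₊ : ℝ) < 1 / Δ + 1 := Nat.ceil_lt_add_one (by positivity)
  have h3 : (N1 : ℝ) = N + (⌈1 / Δ⌉₊ : ℝ) := by rw [hN1]; push_cast; rfl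
  have hN1' : 1 / Δ ≤ (N1 : ℝ) := by rw [h3]; linarith [Nat.cast_nonneg (α := ℝ) N]
  exact by
    have hN1pos : (0 : ℝ) < (N1 : ℝ) := by (clear * - hΔi h1 h3; linarith)
    have hNN1 : N ≤ N1 := by omega
    have hD := ls87_double P Δ hΔ hP N0 (2 * N1) (by omega) c
    -- the left side
    have hlow : (N1 : ℝ) * ∑ n ∈ Ico N0 (N0 + N), ‖∑ α ∈ P, c α * e (α * n)‖ ^ 2 ≤
        ∑ b ∈ range (2 * N1), ∑ a ∈ range (2 * N1),
          ‖∑ α ∈ P, c α * e (α * ((N0 : ℝ) + a - b))‖ ^ 2 := by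
      calc (N1 : ℝ) * ∑ n ∈ Ico N0 (N0 + N), ‖∑ α ∈ P, c α * e (α * n)‖ ^ 2
          = ∑ b ∈ range N1, ∑ n ∈ Ico N0 (N0 + N), ‖∑ α ∈ P, c α * e (α * n)‖ ^ 2 := by
            rw [Finset.sum_const, card_range, nsmul_eq_mul]
        _ ≤ ∑ b ∈ range N1, ∑ a ∈ range (2 * N1),
              ‖∑ α ∈ P, c α * e (α * ((N0 : ℝ) + a - b))‖ ^ 2 := by
            refine Finset.sum_le_sum fun b hb => ?_
            rw [Finset.mem_range] at hb
            have e1 : ∑ n ∈ Ico N0 (N0 + N), ‖∑ α ∈ P, c α * e (α * n)‖ ^ 2 =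
                ∑ a ∈ Ico b (b + N), ‖∑ α ∈ P, c α * e (α * ((N0 : ℝ) + a - b))‖ ^ 2 := by
              rw [Finset.sum_Ico_eq_sum_range, Finset.sum_Ico_eq_sum_range,
                Nat.add_sub_cancel_left, Nat.add_sub_cancel_left]
              refine Finset.sum_congr rfl fun t _ => ?_
              congr 2
              refine Finset.sum_congr rfl fun α _ => ?_
              congr 3
              push_cast
              ring
            rw [e1]
            refine Finset.sum_le_sum_of_subset_of_nonneg (fun t ht => ?_) fun _ _ _ => sq_nonneg _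
            rw [Finset.mem_Ico] at ht
            rw [Finset.mem_range]
            omega
        _ ≤ ∑ b ∈ range (2 * N1), ∑ a ∈ range (2 * N1),
              ‖∑ α ∈ P, c α * e (α * ((N0 : ℝ) + a - b))‖ ^ 2 := by
            refine Finset.sum_le_sum_of_subset_of_nonneg (fun t ht => ?_)
              fun _ _ _ => Finset.sum_nonneg fun _ _ => sq_nonneg _
            rw [Finset.mem_range] at ht ⊢
            omega
    have hS0 : 0 ≤ ∑ α ∈ P, ‖c α‖ ^ 2 := Finset.sum_nonneg fun _ _ => sq_nonneg _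
    have hfin := hlow.trans hD
    exact by
      push_cast at hfin
      have hΔ2 : 1 / Δ ^ 2 ≤ N1 * (1 / Δ) := by
        have : 1 / Δ ^ 2 = (1 / Δ) * (1 / Δ) := by field_simp
        rw [this]
        exact mul_le_mul_of_nonneg_right hN1' (by positivity)
      have hC : 2 * (2 * (N1 : ℝ)) ^ 2 + 1 / Δ ^ 2 ≤ N1 * (17 * (N + 1 / Δ)) := by
        have : 2 * (2 * (N1 : ℝ)) ^ 2 = N1 * (8 * N1) := by ring
        rw [this]
        have h8 : 8 * (N1 : ℝ) + 1 / Δ ≤ 17 * (N + 1 / Δ) := by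
          rw [h3]
          have hNr : (1 : ℝ) ≤ (N : ℝ) := by exact_mod_cast hN
          (clear * - hΔi h2 hNr; linarith)
        (clear * - hΔ2 h8 hN1pos; nlinarith [mul_le_mul_of_nonneg_left h8 hN1pos.le])
      have hfin2 : (N1 : ℝ) * ∑ n ∈ Ico N0 (N0 + N), ‖∑ α ∈ P, c α * e (α * n)‖ ^ 2 ≤
          N1 * (17 * (N + 1 / Δ) * ∑ α ∈ P, ‖c α‖ ^ 2) := by
        refine hfin.trans ((mul_le_mul_of_nonneg_right hC hS0).trans (le_of_eq ?_))
        ring
      exact le_of_mul_le_mul_left hfin2 hN1pos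

end

end Pool.Agent.Helper67.NX2

end

section

set_option autoImplicit false

open Finset

open scoped BigOperators ComplexConjugate

namespace Pool.Agent.Helper67.NX2

open Pool.Agent.Helper57.NX

noncomputable section

theorem ls_major : ∃ C : ℝ, 0 < C ∧ ∀ N0 N M c R Q0 : ℕ, 2 ≤ R → R ≤ N → 1 ≤ M → 1 ≤ Q0 →
    (M * Q0) ^ 16 ≤ N → (∀ p : ℕ, p.Prime → p ∣ M → p ≤ R) →
    ∀ P : Finset (ℕ × ℕ), (∀ x ∈ P, 1 ≤ x.1 ∧ x.1 ≤ Q0 ∧ Nat.Coprime x.1 M ∧
      ∀ p : ℕ, p.Prime → p ∣ x.1 → p ≤ R) →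
    (∀ x ∈ P, ∀ y ∈ P, x ≠ y → ∀ m : ℤ, (x.2 : ℤ) * y.1 - y.2 * x.1 ≠ m * (x.1 * y.1)) →
    ∀ f : ℕ → ℝ, (∀ y, f y ≠ 0 → y.Prime ∧ N ≤ y ^ 4) →
    ∑ x ∈ P, ‖∑ y ∈ (Ico N0 (N0 + N)).filter (fun y => y ≡ c [MOD M]),
        (f y : ℂ) * e ((x.2 : ℝ) / x.1 * y)‖ ^ 2 ≤
      C * (Real.log R / Real.log N) * (N / M) *
        ∑ y ∈ (Ico N0 (N0 + N)).filter (fun y => y ≡ c [MOD M]), f y ^ 2 :=
  LsMajor.ls_major_of large_sieve montgomery rough_sum

end

end Pool.Agent.Helper67.NX2

end
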