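import Pool.Agent.Helper23.MC.L01_a0
import Pool.Agent.Helper23.MC.L01_a1
import Pool.Agent.Helper23.MC.L01_a10
import Pool.Agent.Helper23.MC.L01_a12
import Pool.Agent.Helper23.MC.L01_a13
import Pool.Agent.Helper23.MC.L01_a2
import Pool.Agent.Helper23.MC.L01_a3
import Pool.Agent.Helper23.MC.L01_a5
import Pool.Agent.Helper23.MC.L01_a7
import Pool.Agent.Helper23.MC.L01_a8
import Pool.Agent.Helper23.MC.L01_a9

/-!
Parts of Helper84.NX2.BaseOf, Helper15.NX2.TopArithOf, Helper61.NX.PatA, Helper79.RG.Sieve, Helper79.RG.Window, Helper15.KS.Ord, Helper8.NX3.Averages, Helper57.NX3.PatMain, Helper40.NX3.EnLeOf, Helper7.NX3.PairSieve, Helper40.NX3.EnLe, Helper85.NX3.GoodSet, Helper82.NX3.MainFixed, Helper87.NX3.Scales, Helper57.NX3.PatFinal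
-/

attribute [local instance 5000]
  Pool.Agent.Helper23.MC.Inst.rCharZero Pool.Agent.Helper23.MC.Inst.rALM
  Pool.Agent.Helper23.MC.Inst.rARM Pool.Agent.Helper23.MC.Inst.rALSM
  Pool.Agent.Helper23.MC.Inst.rARSM Pool.Agent.Helper23.MC.Inst.rARRLE
  Pool.Agent.Helper23.MC.Inst.rALRLE Pool.Agent.Helper23.MC.Inst.rARRLT
  Pool.Agent.Helper23.MC.Inst.rALRLT Pool.Agent.Helper23.MC.Inst.rPMRLT
  Pool.Agent.Helper23.MC.Inst.rMPRLT Pool.Agent.Helper23.MC.Inst.rPMM
  Pool.Agent.Helper23.MC.Inst.rMPM Pool.Agent.Helper23.MC.Inst.rPMSM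
  Pool.Agent.Helper23.MC.Inst.rMPSM Pool.Agent.Helper23.MC.Inst.rEAOL
  Pool.Agent.Helper23.MC.Inst.rIOR Pool.Agent.Helper23.MC.Inst.rISOR
  Pool.Agent.Helper23.MC.Inst.rNZD Pool.Agent.Helper23.MC.Inst.rcCharZero
  Pool.Agent.Helper23.MC.Inst.rcNZD Pool.Agent.Helper23.MC.Inst.zCharZero
  Pool.Agent.Helper23.MC.Inst.zALM Pool.Agent.Helper23.MC.Inst.zARM
  Pool.Agent.Helper23.MC.Inst.zALSM Pool.Agent.Helper23.MC.Inst.zARSM
  Pool.Agent.Helper23.MC.Inst.zIOR Pool.Agent.Helper23.MC.Inst.zISOR
  Pool.Agent.Helper23.MC.Inst.zNZD Pool.Agent.Helper23.MC.Inst.qCharZero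
  Pool.Agent.Helper23.MC.Inst.mR Pool.Agent.Helper23.MC.Inst.mC Pool.Agent.Helper23.MC.Inst.mRC
  Pool.Agent.Helper23.MC.Inst.rPSM Pool.Agent.Helper23.MC.Inst.rCSM
  Pool.Agent.Helper23.MC.Inst.cAdd Pool.Agent.Helper23.MC.Inst.cAddM
  Pool.Agent.Helper23.MC.Inst.cMul Pool.Agent.Helper23.MC.Inst.cMon

namespace Pool.Agent.Helper44
end Pool.Agent.Helper44
namespace Pool.Agent.Helper57.FP
end Pool.Agent.Helper57.FP
namespace Pool.Agent.Helper57.NX
end Pool.Agent.Helper57.NX
namespace Pool.Agent.Helper96.CPAP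
end Pool.Agent.Helper96.CPAP

section

set_option autoImplicit false

open Finset

open scoped BigOperators ComplexConjugate

namespace Pool.Agent.Helper67.NX2

open Pool.Agent.Helper57.NX

noncomputable section

theorem base'_of (m : ℕ) (c : Fin (m + 1) → ℝ) (hc : Ex c) (hM : A16Mono m c)
    (h1 : A16Cells m c) (h2 : A16Ratl m c) (h3 : A16Fin m c) :
    ∃ sb : ℝ, c (Fin.last m) - 1 / 8 ≤ sb ∧ sb < c (Fin.last m) ∧
      ∀ ε : ℝ, 0 < ε → TopPm m c sb ε := by
  obtain ⟨eb, heb, h2⟩ := h2
  have hg0 : 0 < min eb (1 / 16) := lt_min heb (by norm_num)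
  have hg1 : min eb (1 / 16) ≤ eb := min_le_left _ _
  have hg2 : min eb (1 / 16) ≤ 1 / 16 := min_le_right _ _
  set g : ℝ := min eb (1 / 16) with hg
  have htwo := hc.two (Fin.last m)
  refine ⟨c (Fin.last m) - g, by linarith, by linarith, fun ε hε => ?_⟩
  obtain ⟨ε1, hε1, h3⟩ := h3 ε hε
  set ε' : ℝ := min eb (min (ε1 / 2) (1 / 2)) with hε'
  have e0 : 0 < ε' := lt_min heb (lt_min (by linarith) (by norm_num))
  have e1 : ε' ≤ eb := min_le_left _ _
  have e2 : 2 * ε' ≤ ε1 := by
    have : ε' ≤ ε1 / 2 := (min_le_right _ _).trans (min_le_left _ _)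
    linarith
  have e3 : ε' ≤ 1 / 2 := (min_le_right _ _).trans (min_le_right _ _)
  obtain ⟨xa, hxa, Ca, σa, hσa, Da, ha⟩ := h1 (c (Fin.last m) - g) (by linarith) (by linarith)
    (fun i => by
      have := hc.gap i.castSucc (Fin.last m) (Fin.castSucc_lt_last i)
      linarith) ε' e0
  obtain ⟨xb, hxb, Cb, σb, hσb, Db, hb⟩ := h2 Ca ε' e0 e1
  obtain ⟨xc, hxc, Cc, σc, hσc, Dc, hcc⟩ := h3 Cb
  refine ⟨min xa (min xb xc), lt_min hxa (lt_min hxb hxc), Cc,
    min (min σa σb) (min σc (min eb (1 / 16))), lt_min (lt_min hσa hσb) (lt_min hσc hg0),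
    max (max Da Db) (max Dc 1), ?_⟩
  intro S N _ lam hD hS δ hδ hδ1 hlam X hX hX1 f0 f hf0 hf hfl hform L hL hL1
  set σ : ℝ := min (min σa σb) (min σc (min eb (1 / 16))) with hσ
  have sa : σ ≤ σa := (min_le_left _ _).trans (min_le_left _ _)
  have sb : σ ≤ σb := (min_le_left _ _).trans (min_le_right _ _)
  have sc : σ ≤ σc := (min_le_right _ _).trans (min_le_left _ _)
  have sg : σ ≤ g := (min_le_right _ _).trans (min_le_right _ _)
  have dA : Da ≤ S.D := ((le_max_left _ _).trans (le_max_left _ _)).trans hD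
  have dB : Db ≤ S.D := ((le_max_right _ _).trans (le_max_left _ _)).trans hD
  have dC : Dc ≤ S.D := ((le_max_left _ _).trans (le_max_right _ _)).trans hD
  have d1 : 1 ≤ S.D := ((le_max_right _ _).trans (le_max_right _ _)).trans hD
  have hQ : (0 : ℝ) ≤ S.Q := Nat.cast_nonneg _
  have pw : ∀ {a b : ℝ}, a ≤ b → S.D ^ a ≤ S.D ^ b := fun h => Real.rpow_le_rpow_of_exponent_le d1 h
  obtain ⟨q, hq1, hq2, θ, E, hθ, hE⟩ := ha S N lam dA (hM hS (min_le_left _ _) d1) δ
    ((pw (by linarith)).trans hδ) hδ1 hlam X hX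
    ((mul_le_mul_of_nonneg_left (pw (by linarith)) hQ).trans hX1) f0 f hf0 hf hfl hform
  -- the window length
  have hDpos : 0 < S.D := by linarith
  have hw : 1 ≤ S.D ^ (1 - ε') := Real.one_le_rpow d1 (by linarith)
  have hK1 : 1 ≤ ⌊S.D ^ (1 - ε')⌋₊ := by
    rw [Nat.one_le_floor_iff]
    exact hw
  have hK2 : ((⌊S.D ^ (1 - ε')⌋₊ : ℕ) : ℝ) ≤ S.D ^ (1 - ε') :=
    Nat.floor_le (by linarith)
  have hK3 : S.D ^ (1 - ε') ≤ ((⌊S.D ^ (1 - ε')⌋₊ : ℕ) : ℝ) + 1 :=
    (Nat.lt_floor_add_one _).le
  obtain ⟨q2, hq21, hq22, θ2, E2, hθ2, hE2⟩ := hb S N lam dB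
    (hM hS ((min_le_right _ _).trans (min_le_left _ _)) d1) δ
    ((pw (by linarith)).trans hδ) hδ1 hlam X
    ((mul_le_mul_of_nonneg_left (pw (by linarith)) hQ).trans hX1) (f (Fin.last m)) hfl q hq1 hq2
    θ E hθ _ hK3 hK2 (hE _ hK1 hK2)
  exact hcc S N lam dC (hM hS ((min_le_right _ _).trans (min_le_right _ _)) d1) δ
    ((pw (by linarith)).trans hδ) hδ1 hlam X
    ((mul_le_mul_of_nonneg_left (pw (by linarith)) hQ).trans hX1) (f (Fin.last m)) hfl q2 hq21
    hq22 θ2 E2 hθ2 (fun K hK hK' => hE2 K hK (hK'.trans (pw (by linarith)))) L hL hL1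

end

end Pool.Agent.Helper67.NX2

end

section

set_option autoImplicit false

open Finset

open scoped BigOperators ComplexConjugate

namespace Pool.Agent.Helper67.NX2

open Pool.Agent.Helper57.NX

noncomputable section

section Aux

variable {m N : ℕ} [NeZero N] {S : Sys (m + 1)} {c : Fin (m + 1) → ℝ} {x : ℝ} {lam : ℕ}

theorem norm_e_sub_one_le15 (y : ℝ) : ‖e y - 1‖ ≤ 2 * Real.pi * dint y := by
  have h1 : e y = e (y - round y) := by
    have h2 : y = (y - round y) + (round y : ℤ) := by ring
    conv_lhs => rw [h2]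
    rw [e_add, e_int, mul_one]
  rw [h1, ← e_zero]
  refine (norm_e_sub_e_le _ _).trans (le_of_eq ?_)
  rw [sub_zero, dint]

theorem half_le_norm15 (β V : ℝ) (L : ℕ) (hL : 1 ≤ L) (h : dint β ≤ V)
    (hLV : 2 * Real.pi * (L * V) ≤ 1 / 2) : 1 / 2 ≤ ‖𝔼 a ∈ range L, e (β * a)‖ := by
  have h1 : ‖𝔼 a ∈ range L, e (β * a) - 1‖ ≤ 1 / 2 := by
    have h2 : 𝔼 a ∈ range L, e (β * a) - 1 = 𝔼 a ∈ range L, (e (β * a) - 1) := by
      rw [expect_sub_distrib, expect_const (nonempty_range_iff.2 (by omega))]
    rw [h2]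
    refine norm_expect_le_of5 _ _ (by norm_num) fun a ha => ?_
    have ha' : (a : ℝ) ≤ L := by exact_mod_cast (mem_range.1 ha).le
    refine (norm_e_sub_one_le15 _).trans ?_
    refine le_trans ?_ hLV
    have h3 : dint (β * a) ≤ a * dint β := by
      rw [mul_comm]
      exact dint_mul_le a β
    have h4 : (a : ℝ) * dint β ≤ L * V :=
      mul_le_mul ha' h (dint_nonneg _) (Nat.cast_nonneg _)
    exact mul_le_mul_of_nonneg_left (h3.trans h4) (by positivity)
  have h5 := norm_sub_norm_le (1 : ℂ) (1 - 𝔼 a ∈ range L, e (β * a))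
  rw [norm_one, sub_sub_cancel] at h5
  rw [norm_sub_rev] at h1
  (clear * - h1 h5; linarith)

end Aux

end

end Pool.Agent.Helper67.NX2

end

section

set_option autoImplicit false

open Finset

open scoped BigOperators ComplexConjugate

namespace Pool.Agent.Helper57.NX

noncomputable section

section TVs

variable {N : ℕ} [NeZero N]

theorem gA_adm (A : Finset ℕ) {Q : ℕ} (hQ : 0 < Q) (hQN : Q ∣ N) :
    Adm 8 Q (fun y : ZMod N => (gA A Q y : ℂ)) := by
  have hb : ∀ y : ZMod N, ‖(gA A Q y : ℂ)‖ ≤ 1 := fun y => by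
    rw [Complex.norm_real, Real.norm_eq_abs, abs_of_nonneg (gA_nonneg _ _ _)]
    exact gA_le_one _ _ _
  refine ⟨hb, ?_⟩
  have h1 := tv_of_jumps hQ hQN {Q - 1} (fun y : ZMod N => (gA A Q y : ℂ)) hb (by
    intro x hx
    rw [Finset.mem_singleton] at hx
    obtain ⟨h2, h3⟩ := val_succ hQ hQN x hx
    change ((ind A ((x + 1).val / Q) : ℝ) : ℂ) = ((ind A (x.val / Q) : ℝ) : ℂ)
    rw [h2, (div_succ h3).1])
  refine h1.mono ?_ (by exact_mod_cast hQ) le_rfl
  rw [Finset.card_singleton]
  norm_num

theorem g0A_adm (A : Finset ℕ) {Q : ℕ} (hQ : 0 < Q) (hQN : Q ∣ N) (η : ℝ) :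
    Adm 8 Q (fun y : ZMod N => (g0A A Q η y : ℂ)) := by
  have hb : ∀ y : ZMod N, ‖(g0A A Q η y : ℂ)‖ ≤ 1 := fun y => by
    rw [Complex.norm_real, Real.norm_eq_abs, abs_of_nonneg (g0A_nonneg _ _ _ _)]
    exact g0A_le_one _ _ _ _
  refine ⟨hb, ?_⟩
  have h1 := tv_of_jumps hQ hQN {Q - 1, ⌈η * Q⌉₊ - 1} (fun y : ZMod N => (g0A A Q η y : ℂ)) hb (by
    intro x hx
    rw [Finset.mem_insert, Finset.mem_singleton, not_or] at hx
    obtain ⟨h2, h3⟩ := val_succ hQ hQN x hx.1
    obtain ⟨h4, h5⟩ := div_succ h3
    have h6 : ((((x.val + 1) % Q : ℕ) : ℝ) < η * Q) ↔ (((x.val % Q : ℕ) : ℝ) < η * Q) := by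
      rw [h5, Nat.cast_add, Nat.cast_one]
      constructor
      · intro h7
        linarith
      · intro h7
        by_contra h8
        push Not at h8
        apply hx.2
        have h9 : ⌈η * Q⌉₊ = x.val % Q + 1 := by
          rw [Nat.ceil_eq_iff (by omega)]
          constructor
          · simpa using h7
          · push_cast
            exact h8
        omega
    change ((g0A A Q η (x + 1) : ℝ) : ℂ) = ((g0A A Q η x : ℝ) : ℂ)
    unfold g0A
    rw [h2, h4]
    simp only [h6])
  refine h1.mono ?_ (by exact_mod_cast hQ) le_rfl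
  have h2 : (#({Q - 1, ⌈η * Q⌉₊ - 1} : Finset ℕ) : ℝ) ≤ 2 := by
    exact_mod_cast Finset.card_le_two
  linarith

end TVs

end

end Pool.Agent.Helper57.NX

end

section

set_option autoImplicit false

open Finset

namespace Pool.Agent.Helper79.RG

open Pool.Agent.Helper44 Pool.Agent.Helper96.CPAP

/-- **Upper bound sieve for prime tuples**, uniform in the shifts. -/
theorem tuple_sieve (k : ℕ) (hk : 0 < k) : ∃ C : ℝ, 0 < C ∧ ∀ b : Fin k → ℕ, Function.Injective b →
    ∀ N : ℕ, 2 ≤ N →
      (((range N).filter (fun m => ∀ i, (m + b i).Prime)).card : ℝ) ≤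
        C * Real.exp (k * sigT b) * N / (Real.log N) ^ k := by
  classical
  obtain ⟨K, c, hK, -, hsieve⟩ := sieveK k
  obtain ⟨C1, hC1, hprod⟩ := prod_pU_le k
  have hk' : (0 : ℝ) < k := by exact_mod_cast hk
  have h2K : (0 : ℝ) < 2 * K := by (clear * - hK; linarith)
  set C : ℝ := (2 * K) ^ k * 2 ^ k + 3 * (2 * k) ^ k + 2 * C1 * (2 * K) ^ k with hC
  refine ⟨C, by (clear * - hK hk hC1; positivity), ?_⟩
  intro b hb N hN
  have hN0 : (0 : ℝ) < N := by positivity
  have hN1 : (1 : ℝ) < N := by exact_mod_cast (by omega : 1 < N)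
  have hlN : 0 < Real.log N := Real.log_pos hN1
  exact by
    have hE : 1 ≤ Real.exp (k * sigT b) := Real.one_le_exp (by have := sigT_nonneg b; (clear * - hk this; positivity))
    have hcardN : (((range N).filter (fun m => ∀ i, (m + b i).Prime)).card : ℝ) ≤ N := by
      have := Finset.card_filter_le (range N) (fun m => ∀ i, (m + b i).Prime)
      rw [card_range] at this
      exact_mod_cast this
    set w : ℝ := (N : ℝ) ^ (1 / (2 * K)) with hw
    have hlogw : Real.log w = Real.log N / (2 * K) := by
      rw [hw, Real.log_rpow hN0]; ring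
    by_cases hw2 : w < 2
    · -- small `N`
      have h1 : Real.log N ≤ 2 * K * 2 := by
        have h2 : Real.log w ≤ Real.log 2 := Real.log_le_log (by (clear * - hN; positivity)) hw2.le
        have h3 : Real.log 2 ≤ 2 := by have := Real.log_two_lt_d9; (clear * - this; linarith)
        rw [hlogw, div_le_iff₀ h2K] at h2
        (clear * - h2 h3 hK; nlinarith)
      exact by
        have h2 : (Real.log N) ^ k ≤ (2 * K) ^ k * 2 ^ k := by
          rw [← mul_pow]
          exact pow_le_pow_left₀ hlN.le h1 k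
        rw [le_div_iff₀ (by positivity)]
        calc (((range N).filter (fun m => ∀ i, (m + b i).Prime)).card : ℝ) * (Real.log N) ^ k
            ≤ N * ((2 * K) ^ k * 2 ^ k) := by (clear * - hcardN h2 hlN hN; gcongr)
          _ ≤ N * (C * Real.exp (k * sigT b)) := by
              apply mul_le_mul_of_nonneg_left _ hN0.le
              have h3 : (2 * K) ^ k * 2 ^ k ≤ C := by
                rw [hC]
                have : 0 ≤ 3 * (2 * (k : ℝ)) ^ k := by positivity
                have : 0 ≤ 2 * C1 * (2 * K) ^ k := by positivity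
                linarith
              have h4 : 0 ≤ C := by rw [hC]; positivity
              (clear * - h3 hE h4; nlinarith)
          _ = C * Real.exp (k * sigT b) * N := by ring
    · push Not at hw2
      exact by
        have hw0 : (0 : ℝ) < w := by (clear * - hw2; linarith)
        have hs := (hsieve ℕ (PT b) (fun q h => ⟨h.1, h.2.1⟩) (fun _ => k)
          (fun q _ => ⟨Nat.cast_nonneg k, le_refl _⟩) w hw2 (range N)
          (fun q m => ∃ i, q ∣ m + b i) N 1 hN0.le zero_le_one
          (fun I hI => count_bound' I (fun q hq => (hI q hq).1) N)).1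
        have hsub : (range N).filter (fun m => ∀ i, (m + b i).Prime) ⊆
            (range (⌊w⌋₊ + 1)) ∪
            (range N).filter (fun m => ∀ q : ℕ, PT b q → (q : ℝ) ≤ w → ¬ ∃ i, q ∣ m + b i) := by
          intro m hm
          rw [Finset.mem_filter] at hm
          rw [Finset.mem_union, Finset.mem_filter, Finset.mem_range]
          by_cases hmw : (m : ℝ) ≤ w
          · left
            have := Nat.le_floor hmw
            omega
          · right
            push Not at hmw
            refine ⟨hm.1, ?_⟩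
            rintro q hq hqw ⟨i, hi⟩
            have h1 := (Nat.prime_dvd_prime_iff_eq hq.1 (hm.2 i)).mp hi
            have h2 : (m : ℝ) ≤ q := by
              rw [h1]
              exact_mod_cast Nat.le_add_right _ _
            (clear * - hmw hqw h2; linarith)
        have hcard := Finset.card_le_card hsub
        have hcard2 := hcard.trans (Finset.card_union_le _ _)
        rw [card_range] at hcard2
        rw [evCount_eq] at hs
        have hwK : w ^ K = Real.sqrt N := by
          rw [hw, ← Real.rpow_mul hN0.le, Real.sqrt_eq_rpow]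
          congr 1
          field_simp
        have hww : w ≤ Real.sqrt N := by
          rw [← hwK]
          exact Real.self_le_rpow_of_one_le (by (clear * - hw2; linarith)) hK
        have hfl : (⌊w⌋₊ : ℝ) ≤ w := Nat.floor_le hw0.le
        have hsq : Real.sqrt N ≤ (2 * k) ^ k * N / (Real.log N) ^ k := by
          rw [le_div_iff₀ (by positivity)]
          have h1 : Real.log N ≤ (N : ℝ) ^ (1 / (2 * (k : ℝ))) / (1 / (2 * k)) :=
            Real.log_le_rpow_div hN0.le (by positivity)
          have h2 : (Real.log N) ^ k ≤ (2 * k) ^ k * Real.sqrt N := by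
            calc (Real.log N) ^ k ≤ ((N : ℝ) ^ (1 / (2 * (k : ℝ))) / (1 / (2 * k))) ^ k :=
                  pow_le_pow_left₀ hlN.le h1 k
              _ = (2 * k) ^ k * Real.sqrt N := by
                  rw [div_div_eq_mul_div, div_one, mul_pow, ← Real.rpow_natCast ((N : ℝ) ^ _),
                    ← Real.rpow_mul hN0.le, Real.sqrt_eq_rpow, mul_comm]
                  congr 2
                  field_simp
          calc Real.sqrt N * (Real.log N) ^ k ≤ Real.sqrt N * ((2 * k) ^ k * Real.sqrt N) :=
                mul_le_mul_of_nonneg_left h2 (Real.sqrt_nonneg _)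
            _ = (2 * k) ^ k * (Real.sqrt N * Real.sqrt N) := by ring
            _ = (2 * k) ^ k * N := by rw [Real.mul_self_sqrt hN0.le]
        exact by
          have hpr := hprod b hb w hw2
          have hc3 : (((range N).filter (fun m => ∀ i, (m + b i).Prime)).card : ℝ) ≤
              (⌊w⌋₊ : ℝ) + 1 + (2 * N * (∏ q ∈ pU (PT b) w, (1 - (k : ℝ) / q)) + 1 * w ^ K) := by
            have : (((range N).filter (fun m => ∀ i, (m + b i).Prime)).card : ℝ) ≤
              ((⌊w⌋₊ + 1 + ((range N).filter (fun m => ∀ q : ℕ, PT b q → (q : ℝ) ≤ w →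
                ¬ ∃ i, q ∣ m + b i)).card : ℕ) : ℝ) := by exact_mod_cast hcard2
            push_cast at this
            (clear * - hs this; linarith)
          have hmain : 2 * N * (∏ q ∈ pU (PT b) w, (1 - (k : ℝ) / q)) ≤
              2 * C1 * (2 * K) ^ k * Real.exp (k * sigT b) * N / (Real.log N) ^ k := by
            calc 2 * N * (∏ q ∈ pU (PT b) w, (1 - (k : ℝ) / q))
                ≤ 2 * N * (C1 * Real.exp (k * sigT b) / (Real.log w) ^ k) :=
                  mul_le_mul_of_nonneg_left hpr (by positivity)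
              _ = 2 * C1 * (2 * K) ^ k * Real.exp (k * sigT b) * N / (Real.log N) ^ k := by
                  rw [hlogw, div_pow]
                  (clear * - hK hlN hC1 hN; field_simp)
          have h1w : 1 ≤ w := by (clear * - hw2; linarith)
          have hEsq : 3 * ((2 * k) ^ k * N / (Real.log N) ^ k) ≤
              3 * (2 * k) ^ k * Real.exp (k * sigT b) * N / (Real.log N) ^ k := by
            have h1 : 3 * ((2 * (k : ℝ)) ^ k * N / (Real.log N) ^ k) =
              (3 * (2 * k) ^ k * N / (Real.log N) ^ k) * 1 := by ring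
            rw [h1]
            calc (3 * (2 * (k : ℝ)) ^ k * N / (Real.log N) ^ k) * 1
                ≤ (3 * (2 * (k : ℝ)) ^ k * N / (Real.log N) ^ k) * Real.exp (k * sigT b) :=
                  mul_le_mul_of_nonneg_left hE (by positivity)
              _ = _ := by ring
          calc (((range N).filter (fun m => ∀ i, (m + b i).Prime)).card : ℝ)
              ≤ 3 * Real.sqrt N + 2 * N * (∏ q ∈ pU (PT b) w, (1 - (k : ℝ) / q)) := by
                rw [hwK] at hc3
                (clear * - hw2 hww hfl hc3; linarith)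
            _ ≤ 3 * (2 * k) ^ k * Real.exp (k * sigT b) * N / (Real.log N) ^ k +
                2 * C1 * (2 * K) ^ k * Real.exp (k * sigT b) * N / (Real.log N) ^ k := by
                (clear * - hsq hmain hEsq; linarith)
            _ ≤ C * Real.exp (k * sigT b) * N / (Real.log N) ^ k := by
                have h3 : 0 ≤ (2 * K) ^ k * 2 ^ k * Real.exp (k * sigT b) * N / (Real.log N) ^ k := by
                  positivity
                have h4 : C * Real.exp (k * sigT b) * N / (Real.log N) ^ k =
                  (2 * K) ^ k * 2 ^ k * Real.exp (k * sigT b) * N / (Real.log N) ^ k +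
                  3 * (2 * k) ^ k * Real.exp (k * sigT b) * N / (Real.log N) ^ k +
                  2 * C1 * (2 * K) ^ k * Real.exp (k * sigT b) * N / (Real.log N) ^ k := by
                  rw [hC]; ring
                rw [h4]
                (clear * - h3; linarith)

end Pool.Agent.Helper79.RG

end

section

set_option autoImplicit false

open Finset Filter Topology

namespace Pool.Agent.Helper79.RG

theorem cw_le : ∃ B : ℝ, 0 < B ∧ ∀ x h y : ℕ, 2 ≤ h → cw x h y ≤ B * h / Real.log h := by
  obtain ⟨C, hC, H⟩ := tuple_sieve 1 one_pos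
  refine ⟨C, hC, ?_⟩
  intro x h y hh
  have h1 := H (fun _ => y + 1 - h) (Function.injective_of_subsingleton _) h hh
  have h2 : sigT (fun _ : Fin 1 => y + 1 - h) = 0 := by simp [sigT]
  rw [h2, mul_zero, Real.exp_zero, mul_one, pow_one] at h1
  refine le_trans ?_ h1
  rw [cw_eq]
  norm_cast
  apply Finset.card_le_card_of_injOn (fun p => p - (y + 1 - h))
  · intro p hp
    rw [Finset.mem_coe, Finset.mem_filter, mem_PR] at hp
    rw [Finset.mem_coe, Finset.mem_filter, Finset.mem_range]
    simp only
    refine ⟨by omega, ?_⟩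
    intro _
    have : p - (y + 1 - h) + (y + 1 - h) = p := by omega
    rw [this]
    exact hp.1.2
  · intro p hp q hq hpq
    rw [Finset.mem_coe, Finset.mem_filter, mem_PR] at hp hq
    simp only at hpq
    omega

end Pool.Agent.Helper79.RG

end

section

set_option autoImplicit false

open Finset Filter Topology

namespace Pool.Agent.Helper15.KS

variable {C0 s : ℝ} {A P0 : ℕ} {F : ℕ → ℝ}

/-- Brun-Titchmarsh -/
theorem bt : ∃ B : ℝ, 0 < B ∧ ∀ x M : ℕ, 2 ≤ M →
    (((Finset.Ico x (x + M)).filter Nat.Prime).card : ℝ) ≤ B * M / Real.log M := by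
  obtain ⟨B, hB, H⟩ := Pool.Agent.Helper79.RG.cw_le
  refine ⟨B, hB, fun x M hM => ?_⟩
  have h1 := H (x + M) M (x + M - 1) hM
  rw [Pool.Agent.Helper79.RG.cw_eq] at h1
  refine le_trans ?_ h1
  norm_cast
  apply Finset.card_le_card
  intro p hp
  rw [Finset.mem_filter, Finset.mem_Ico] at hp
  rw [Finset.mem_filter, Pool.Agent.Helper79.RG.mem_PR]
  refine ⟨⟨hp.1.2, hp.2⟩, ?_, ?_⟩
  · omega
  · omega

end Pool.Agent.Helper15.KS

end

section

set_option autoImplicit false

open Finset

open scoped BigOperators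

namespace Pool.Agent.Helper57.NX3

noncomputable section

/-- averages of the weighted indicator function over intervals of length at least
`(2 ^ z) ^ θ` are bounded -/
theorem AN_le (θ : ℝ) (hθ : 0 < θ) : ∃ V : ℝ, 1 ≤ V ∧ ∃ z0 : ℕ, ∀ z : ℕ, z0 ≤ z →
    ∀ A : Finset ℕ, PS z A → ∀ L : ℕ, ((2 : ℝ) ^ z) ^ θ ≤ L → ∀ x, AN L (FA z A) x ≤ V := by
  obtain ⟨B, hB, hbt⟩ := Pool.Agent.Helper15.KS.bt
  refine ⟨max 1 (B / θ), le_max_left _ _, ⌈1 / θ⌉₊ + 1, ?_⟩
  intro z hz A hA L hL x
  refine le_trans ?_ (le_max_right _ _)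
  have hz1 : 1 ≤ z := by omega
  have hzθ : 1 ≤ (z : ℝ) * θ := by
    have h1 : 1 / θ ≤ (⌈1 / θ⌉₊ : ℝ) := Nat.le_ceil _
    have h2 : ((⌈1 / θ⌉₊ + 1 : ℕ) : ℝ) ≤ z := by exact_mod_cast hz
    push_cast at h2
    have h3 : 1 / θ ≤ z := by (clear * - h1 h2; linarith)
    rwa [div_le_iff₀ hθ] at h3
  have h2z : (0 : ℝ) < (2 : ℝ) ^ z := by positivity
  have hlz : 0 < Real.log ((2 : ℝ) ^ z) := by
    apply Real.log_pos
    exact one_lt_pow₀ (by norm_num) (by omega)
  have hpow : (2 : ℝ) ≤ ((2 : ℝ) ^ z) ^ θ := by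
    rw [← Real.rpow_natCast, ← Real.rpow_mul (by norm_num)]
    calc (2 : ℝ) = (2 : ℝ) ^ (1 : ℝ) := (Real.rpow_one 2).symm
      _ ≤ (2 : ℝ) ^ ((z : ℝ) * θ) := Real.rpow_le_rpow_of_exponent_le (by norm_num) hzθ
  have hL2r : (2 : ℝ) ≤ L := hpow.trans hL
  have hL2 : 2 ≤ L := by exact_mod_cast hL2r
  have hLpos : (0 : ℝ) < L := by (clear * - hL hpow; linarith)
  have hlogL : θ * Real.log ((2 : ℝ) ^ z) ≤ Real.log L := by
    rw [← Real.log_rpow h2z]
    exact Real.log_le_log (by positivity) hL
  have hlogLpos : 0 < Real.log L := lt_of_lt_of_le (by (clear * - hθ hlz; positivity)) hlogL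
  -- bound for the sum
  have hsum : ∑ y ∈ Ico x (x + L), FA z A y ≤
      Real.log ((2 : ℝ) ^ z) * (((Ico x (x + L)).filter Nat.Prime).card : ℝ) := by
    have : ∀ y ∈ Ico x (x + L), FA z A y ≤
        if Nat.Prime y then Real.log ((2 : ℝ) ^ z) else 0 := by
      intro y _
      unfold FA
      split_ifs with h1 h2 h2
      · exact le_refl _
      · exact absurd (hA y h1).1 h2
      · exact hlz.le
      · exact le_refl _
    refine (sum_le_sum this).trans ?_
    rw [← sum_filter, sum_const, nsmul_eq_mul, mul_comm]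
  rw [AN_eq8, div_le_iff₀ hLpos]
  calc ∑ y ∈ Ico x (x + L), FA z A y ≤
      Real.log ((2 : ℝ) ^ z) * (((Ico x (x + L)).filter Nat.Prime).card : ℝ) := hsum
    _ ≤ Real.log ((2 : ℝ) ^ z) * (B * L / Real.log L) :=
        mul_le_mul_of_nonneg_left (hbt x L hL2) hlz.le
    _ = B * L * (Real.log ((2 : ℝ) ^ z) / Real.log L) := by ring
    _ ≤ B * L * (1 / θ) := by
        apply mul_le_mul_of_nonneg_left _ (by positivity)
        rw [div_le_div_iff₀ hlogLpos hθ]
        (clear * - hlogL; linarith)
    _ = B / θ * L := by ring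

/-- products of averages over long intervals are bounded and change slowly -/
theorem prod_AN (ρ : Type) [Fintype ρ] (θ : ℝ) (hθ : 0 < θ) : ∃ V : ℝ, 1 ≤ V ∧
    ∀ γ ε ε' : ℝ, 1 ≤ γ → 0 < ε' → ε' < ε → ε ≤ 1 / 2 → ∃ z0 : ℕ, ∀ z : ℕ, z0 ≤ z →
    ∀ A : Finset ℕ, PS z A →
    ∀ D : ℝ, ((2 : ℝ) ^ z) ^ θ ≤ D → ∀ L w : ρ → ℕ, (∀ j, D ^ (γ - ε') / 8 ≤ L j) →
      (∀ x, |∏ j, AN (L j) (FA z A) (x + w j)| ≤ V) ∧
      ∀ x t : ℕ, |(∏ j, AN (L j) (FA z A) (x + t + w j)) - ∏ j, AN (L j) (FA z A) (x + w j)| ≤
        V * t / D ^ (γ - ε) := by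
  obtain ⟨V1, hV1, z1, H1⟩ := AN_le (θ / 4) (by positivity)
  refine ⟨V1 ^ Fintype.card ρ, one_le_pow₀ hV1, ?_⟩
  intro γ ε ε' hγ hε' hεε hε
  obtain ⟨z2, H2⟩ := log_small8 (8 * (Fintype.card ρ + 1)) (θ * (ε - ε')) (by (clear * -; positivity))
    (mul_pos hθ (by (clear * - hεε; linarith)))
  refine ⟨max (max z1 z2) (⌈12 / θ⌉₊ + 1), ?_⟩
  intro z hz A hA D hD L w hL
  have hz1 : z1 ≤ z := (le_max_left _ _).trans ((le_max_left _ _).trans hz)
  have hz2 : z2 ≤ z := (le_max_right _ _).trans ((le_max_left _ _).trans hz)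
  have hz3 : ⌈12 / θ⌉₊ + 1 ≤ z := (le_max_right _ _).trans hz
  have hzθ : 12 ≤ (z : ℝ) * θ := by
    have h1 : 12 / θ ≤ (⌈12 / θ⌉₊ : ℝ) := Nat.le_ceil _
    have h2 : ((⌈12 / θ⌉₊ + 1 : ℕ) : ℝ) ≤ z := by exact_mod_cast hz3
    push_cast at h2
    have h3 : 12 / θ ≤ z := by (clear * - hε' hεε hε h1 h2; linarith)
    rwa [div_le_iff₀ hθ] at h3
  have h2z : (1 : ℝ) ≤ (2 : ℝ) ^ z := one_le_pow₀ (by norm_num)
  have h2z0 : (0 : ℝ) ≤ (2 : ℝ) ^ z := by (clear * - hε' hεε hε h2z; linarith)
  have hZθ1 : 1 ≤ ((2 : ℝ) ^ z) ^ θ := Real.one_le_rpow h2z hθ.le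
  have hD1 : 1 ≤ D := hZθ1.trans hD
  have hD0 : 0 < D := by (clear * - hε' hεε hε hD hZθ1; linarith)
  have h8 : (8 : ℝ) ≤ ((2 : ℝ) ^ z) ^ (θ / 4) := by
    rw [← Real.rpow_natCast, ← Real.rpow_mul (by norm_num)]
    calc (8 : ℝ) = (2 : ℝ) ^ (3 : ℝ) := by norm_num
      _ ≤ (2 : ℝ) ^ ((z : ℝ) * (θ / 4)) :=
          Real.rpow_le_rpow_of_exponent_le (by norm_num) (by (clear * - hzθ; linarith))
  have hLbig : ∀ j, ((2 : ℝ) ^ z) ^ (θ / 4) ≤ L j := by
    intro j
    refine le_trans ?_ (hL j)
    rw [le_div_iff₀ (by norm_num : (0 : ℝ) < 8)]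
    calc ((2 : ℝ) ^ z) ^ (θ / 4) * 8 ≤ ((2 : ℝ) ^ z) ^ (θ / 4) * ((2 : ℝ) ^ z) ^ (θ / 4) :=
          mul_le_mul_of_nonneg_left h8 (by positivity)
      _ = ((2 : ℝ) ^ z) ^ (θ * (1 / 2)) := by
          rw [← Real.rpow_add (by positivity)]
          congr 1; ring
      _ = (((2 : ℝ) ^ z) ^ θ) ^ (1 / 2 : ℝ) := by rw [Real.rpow_mul h2z0]
      _ ≤ D ^ (1 / 2 : ℝ) := Real.rpow_le_rpow (by positivity) hD (by norm_num)
      _ ≤ D ^ (γ - ε') := Real.rpow_le_rpow_of_exponent_le hD1 (by (clear * - hγ hεε hε; linarith))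
  have hf0 := FA_nonneg8 z A
  have hAV : ∀ j x, AN (L j) (FA z A) x ≤ V1 := fun j x => H1 z hz1 A hA (L j) (hLbig j) x
  have hA0 : ∀ j x, 0 ≤ AN (L j) (FA z A) x := fun j x => AN_nonneg8 hf0 (L j) x
  refine ⟨fun x => ?_, fun x t => ?_⟩
  · rw [abs_of_nonneg (prod_nonneg fun j _ => hA0 j _)]
    calc ∏ j, AN (L j) (FA z A) (x + w j) ≤ ∏ _j : ρ, V1 :=
          prod_le_prod (fun j _ => hA0 j _) (fun j _ => hAV j _)
      _ = V1 ^ Fintype.card ρ := by rw [prod_const, card_univ]
  · have hLpos : ∀ j, 0 < L j := by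
      intro j
      have h1 := (by (clear * - h8 hLbig; linarith [h8, hLbig j]) : (8 : ℝ) ≤ L j)
      have h2 : (8 : ℕ) ≤ L j := by exact_mod_cast h1
      omega
    set E : ℝ := Real.log ((2 : ℝ) ^ z) * t / (D ^ (γ - ε') / 8) with hEdef
    have hDp : 0 < D ^ (γ - ε') := Real.rpow_pos_of_pos hD0 _
    have hDp2 : 0 < D ^ (γ - ε) := Real.rpow_pos_of_pos hD0 _
    have hE0 : 0 ≤ E := by
      have := lz_nonneg8 z
      (clear * - this hD1; positivity)
    have hstep : ∀ j, |AN (L j) (FA z A) (x + t + w j) - AN (L j) (FA z A) (x + w j)| ≤ E := by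
      intro j
      have h1 := AN_step8 hf0 (FA_le8 z A) (hLpos j) (x + w j) t
      have e1 : x + w j + t = x + t + w j := by ring
      rw [e1] at h1
      refine h1.trans ?_
      have hlz := lz_nonneg8 z
      exact div_le_div_of_nonneg_left (by (clear * - hlz; positivity)) (by positivity) (hL j)
    have hd := prod_diff8 (univ : Finset ρ) (fun j => AN (L j) (FA z A) (x + t + w j))
      (fun j => AN (L j) (FA z A) (x + w j)) hV1 (fun j => hA0 j _) (fun j => hAV j _)
      (fun j => hA0 j _) (fun j => hAV j _) hstep hE0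
    rw [card_univ] at hd
    refine hd.trans ?_
    have hlz := lz_nonneg8 z
    have hkey : 8 * (Fintype.card ρ : ℝ) * Real.log ((2 : ℝ) ^ z) ≤ D ^ (ε - ε') := by
      calc 8 * (Fintype.card ρ : ℝ) * Real.log ((2 : ℝ) ^ z)
          ≤ 8 * ((Fintype.card ρ : ℝ) + 1) * Real.log ((2 : ℝ) ^ z) := by
            apply mul_le_mul_of_nonneg_right _ hlz
            (clear * - hε' hεε hε; linarith)
        _ ≤ ((2 : ℝ) ^ z) ^ (θ * (ε - ε')) := H2 z hz2
        _ = (((2 : ℝ) ^ z) ^ θ) ^ (ε - ε') := by rw [Real.rpow_mul h2z0]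
        _ ≤ D ^ (ε - ε') := Real.rpow_le_rpow (by positivity) hD (by (clear * - hεε; linarith))
    have hsplit : D ^ (γ - ε') = D ^ (γ - ε) * D ^ (ε - ε') := by
      rw [← Real.rpow_add hD0]
      congr 1; ring
    have hVn : 0 ≤ V1 ^ Fintype.card ρ := by positivity
    have e2 : (Fintype.card ρ : ℝ) * V1 ^ Fintype.card ρ * E =
        V1 ^ Fintype.card ρ * t * (8 * (Fintype.card ρ : ℝ) * Real.log ((2 : ℝ) ^ z)) /
          D ^ (γ - ε') := by
      rw [hEdef]
      (clear * - hD1 hV1; field_simp)
    rw [e2, div_le_div_iff₀ hDp hDp2, hsplit]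
    have h5 : V1 ^ Fintype.card ρ * t * (8 * (Fintype.card ρ : ℝ) * Real.log ((2 : ℝ) ^ z)) ≤
        V1 ^ Fintype.card ρ * t * D ^ (ε - ε') :=
      mul_le_mul_of_nonneg_left hkey (by (clear * - hV1; positivity))
    (clear * - h5 hDp2; nlinarith [mul_le_mul_of_nonneg_right h5 hDp2.le])

end

end Pool.Agent.Helper57.NX3

end

section

set_option autoImplicit false

open Finset

open scoped BigOperators

namespace Pool.Agent.Helper57.NX3

open Pool.Agent.Helper57.NX (ind ind_nonneg gA g0A AR Sys Good form formR Adm ES0 g0A_nonneg gA_nonneg gA_le_one g0A_adm gA_adm form_ofReal A_ofReal expect_zmod_real frac_ok exists_pos_lb)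

open Pool.Agent.Helper67.NX2 (IsN sh nform IG Ex PrA BlkLen Fm)

noncomputable section

theorem step_pattern {l s : ℕ} (c : Fin (l + 1) → ℝ) (hc : Ex c)
    (hc0 : ∀ i, c 0 ≤ c i) (d : Fin s → ℕ)
    (em : Fin s → Fin (l + 1)) (hem : Function.Injective em) (hd : ∀ j, c (em j) = d j)
    (hall : ∀ i, IsN (c i) → ∃ j, em j = i)
    (K K' : ℕ) (hK : 1 ≤ K) (hK' : 1 ≤ K') (hKK : K ∣ K')
    (hpf : K'.primeFactors = K.primeFactors)
    (xw : ℝ) (hxw : 0 < xw) (hxw1 : xw ≤ 1 / 8)
    (τ V τ1 κ δ1 : ℝ) (hτ : 0 < τ) (hτ1 : 0 < τ1)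
    (Θ j : ℕ) (hΘ2 : 2 ≤ Θ) (Γ : ℝ) (hΓ0 : 0 ≤ Γ) (hΓ : ∀ i, c i ≤ Γ) (hΘ : Γ + 3 ≤ Θ)
    (hτΘ : τ * (2 * Θ ^ (j + 2)) ≤ 1) (N0 : ℕ)
    (x0 σ1 D1 : ℝ) (hx0 : 0 < x0) (hσ1 : 0 < σ1)
    (hFR : ∀ (S : Sys (l + 1)) (N : ℕ) [NeZero N], D1 ≤ S.D → IG S c N x0 K →
      ∀ (f0 : ZMod N → ℂ) (f : Fin (l + 1) → ZMod N → ℂ), Adm 8 S.Q f0 → (∀ i, Adm 8 S.Q (f i)) →
      ∀ L : Fin (l + 1) → ℕ, (∀ i, 1 ≤ L i ∧ (L i : ℝ) ≤ S.P i * S.D ^ (-(xw / 8))) →
      ‖form S c 1 f0 f - form S c 1 f0 (fun i x => (open scoped Classical in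
        if IsN (c i) then f i x else NX.A (L i) (f i) x))‖ ≤ S.D ^ (-σ1))
    (σ2 : ℝ) (hσ2 : 0 < σ2) (Cf D2 : ℝ) (hCf : 0 ≤ Cf)
    (hfrac : ∀ i, ¬ IsN (c i) → ∀ D : ℕ, D2 ≤ D → ∀ η : ℝ, 0 < η → η ≤ 1 →
      (#((Ico D (D + D)).filter fun k : ℕ => 1 - η ≤ Int.fract (((K * k : ℕ) : ℝ) ^ c i)) : ℝ) ≤
        Cf * (η + (D : ℝ) ^ (-σ2)) * D)
    (D3 : ℝ) (hfreeze : ∀ i, ∀ (D u T Q B : ℕ), D3 ≤ D → D ≤ u → u + T ≤ 2 * D →
      (T : ℝ) ≤ (D : ℝ) ^ (1 - xw / 2) →
      1 ≤ Q → (D : ℝ) ^ (c i - xw / 2 / 2) / 4 ≤ B → ∃ v : ℕ, (v : ℝ) ≤ (2 * K * D : ℝ) ^ c i + 3 ∧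
      ∀ k ∈ Ico u (u + T), ∀ e < Q, (e + ⌊(Q : ℝ) * ((K * k : ℕ) : ℝ) ^ c i⌋₊) / Q + 1 ≤ v ∧
        v + B / 2 ≤ (e + ⌊(Q : ℝ) * ((K * k : ℕ) : ℝ) ^ c i⌋₊) / Q + 1 + B)
    (z1 : ℕ) (hPM : ∀ z : ℕ, z1 ≤ z → ∀ A : Finset ℕ, PrA z A → ∀ (D : ℝ) (u T : ℕ),
      (2 : ℝ) ^ (τ * z) ≤ D → (∀ i, ((K : ℝ) * (3 * D)) ^ (d i) ≤ (2 : ℝ) ^ z) →
      D ≤ u → (u : ℝ) + T ≤ 2 * D → D ^ (1 - xw) ≤ T →
      ∀ G : ℕ → ℝ, (∀ x, |G x| ≤ V) →
      (∀ x t : ℕ, |G (x + t) - G x| ≤ V * t / D ^ (c 0 - 1 / 8)) →
      ∀ b : Option (Fin s) → ℕ, BlkLen d (c 0) (1 / 8) D b →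
      |nform d K u T (2 ^ z) G (fun _ => FA z A) -
        nform d K u T (2 ^ z) G (fun o => Fm (FA z A) K' (b o))| ≤ τ1 / 2)
    (z2 : ℕ) (hAN : (open scoped Classical in ∀ z : ℕ, z2 ≤ z → ∀ A : Finset ℕ, PS z A →
      ∀ D : ℝ, ((2 : ℝ) ^ z) ^ τ ≤ D → ∀ L w : {i : Fin (l + 1) // ¬ IsN (c i)} → ℕ,
      (∀ j, D ^ (c 0 - xw / 4) / 8 ≤ L j) →
      (∀ x, |∏ j, AN (L j) (FA z A) (x + w j)| ≤ V) ∧
      ∀ x t : ℕ, |(∏ j, AN (L j) (FA z A) (x + t + w j)) - ∏ j, AN (L j) (FA z A) (x + w j)| ≤
        V * t / D ^ (c 0 - 1 / 8)))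
    (z3 : ℕ) (hMF : (open scoped Classical in ∀ z : ℕ, z3 ≤ z →
      ∀ A : Finset ℕ, PS z A → δ1 * ((2 : ℝ) ^ z / Real.log ((2 : ℝ) ^ z)) ≤ A.card →
      ∀ β β1 : ℕ, β1 ≤ β → β ≤ z → ((2 : ℝ) ^ z) ^ (τ / 2) ≤ 2 ^ β1 →
      En z A K' β1 + En z A 1 β1 ≤ En z A K β + En z A 1 β + κ →
      ∀ b v : Option (Fin s) → ℕ, (∀ i, β1 ≤ b i ∧ b i ≤ β ∧ K ∣ v i ∧
        (v i : ℝ) * ((2 : ℝ) ^ z) ^ (τ / 2) ≤ 2 ^ β) →
      ∀ L w : {i : Fin (l + 1) // ¬ IsN (c i)} → ℕ,
      (∀ j, (w j : ℝ) * ((2 : ℝ) ^ z) ^ (τ / 2) ≤ 2 ^ β ∧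
        (L j : ℝ) * ((2 : ℝ) ^ z) ^ (τ / 2) ≤ 2 ^ β ∧ 2 ^ β1 * ((2 : ℝ) ^ z) ^ (τ / 2) ≤ L j) →
      τ1 ≤ (∑ x ∈ range (2 ^ z), (∏ i, cd (FA z A) K' (b i) (x + v i)) *
        ∏ j, AN (L j) (FA z A) (x + w j)) / 2 ^ z)) :
    ∃ z0 : ℕ, ∀ z : ℕ, z0 ≤ z → ∀ A : Finset ℕ, PrA z A →
    δ1 * ((2 : ℝ) ^ z / Real.log ((2 : ℝ) ^ z)) ≤ A.card →
    En z A K' (z / Θ ^ (j + 2)) + En z A 1 (z / Θ ^ (j + 2)) ≤
      En z A K (z / Θ ^ (j + 1)) + En z A 1 (z / Θ ^ (j + 1)) + κ →
    ∃ m ∈ A, ∃ n : ℕ, N0 ≤ n ∧ ∀ i, m + ⌊(n : ℝ) ^ c i⌋₊ ∈ A := by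
  classical
  set σ := min σ1 (min σ2 1) with hσdef
  have hσ : 0 < σ := lt_min hσ1 (lt_min hσ2 one_pos)
  have hσ1' : σ ≤ σ1 := min_le_left _ _
  have hσ2' : σ ≤ σ2 := (min_le_right _ _).trans (min_le_left _ _)
  have hσle : σ ≤ 1 := (min_le_right _ _).trans (min_le_right _ _)
  set τ3 := τ1 / 2 / 4 ^ (l + 1 + 1) with hτ3
  exact by
    have hτ30 : 0 < τ3 := by positivity
    set Cs : ℝ := ((l + 1 : ℕ) : ℝ) * Cf with hCs
    have hCs0 : 0 ≤ Cs := by (clear * - hCf; positivity)
    set c1 := min (1 / 2) (τ3 / (4 * Cs + 4)) with hc1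
    have hc10 : 0 < c1 := lt_min (by norm_num) (by (clear * - hτ1 hCf; positivity))
    have hc11 : c1 ≤ 1 / 2 := min_le_left _ _
    exact by
      have hc1τ : 2 * Cs * c1 ≤ τ3 / 2 := by
        have h1 : c1 ≤ τ3 / (4 * Cs + 4) := min_le_right _ _
        rw [le_div_iff₀ (by (clear * - hCf; positivity))] at h1
        (clear * - hc10 h1; nlinarith)
      have hKr : (1 : ℝ) ≤ K := by exact_mod_cast hK
      have hK0 : (0 : ℝ) < K := by (clear * - hxw hxw1 hKr; linarith)
      set CK : ℝ := 8 * (3 * K : ℝ) ^ Γ + N0 + |D1| + |D2| + |D3| + 64 with hCK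
      have h3K1 : (1 : ℝ) ≤ (3 * K : ℝ) ^ Γ := Real.one_le_rpow (by (clear * - hxw hxw1 hKr; linarith)) hΓ0
      obtain ⟨za, hza⟩ := size_ev τ 1 hτ one_pos 0 CK
      obtain ⟨zb, hzb⟩ := size_ev τ (xw / 8) hτ (by (clear * - hxw; positivity)) 0 4
      obtain ⟨zc, hzc⟩ := size_ev τ x0 hτ hx0 0 ((3 * K : ℝ) ^ Γ)
      obtain ⟨zd, hzd⟩ := size_ev τ σ hτ hσ (2 * (l + 1) + 3) 0
      refine ⟨max z1 (max z2 (max z3 (max za (max zb (max zc (max zd (max (2 * Θ ^ (j + 2))
        (max 2 (⌈2 / (c1 * τ3)⌉₊ + ⌈1 / c1⌉₊ + 1))))))))), ?_⟩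
      intro z hz A hA hcard hEn
      simp only [max_le_iff] at hz
      obtain ⟨hz1, hz2, hz3, hza', hzb', hzc', hzd', hzΘ, hz2', hzt⟩ := hz
      have hPSA : PS z A := fun p hp => ⟨(hA p hp).1, (hA p hp).2.1⟩
      by_contra hno
      exact by
        push Not at hno
        -- scales
        obtain ⟨hsc1, hsc2, hsc3⟩ := scale_facts Θ j z τ hΘ2 hτΘ hzΘ
        set β1 := z / Θ ^ (j + 2) with hβ1
        set β := z / Θ ^ (j + 1) with hβ
        set D : ℕ := 2 ^ β1 with hD
        have hDτ0 : (0 : ℝ) ≤ ((2 : ℝ) ^ z) ^ τ := by positivity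
        have hmono : ∀ e : ℝ, 0 ≤ e → (((2 : ℝ) ^ z) ^ τ) ^ e ≤ (D : ℝ) ^ e := fun e he =>
          Real.rpow_le_rpow hDτ0 hsc1 he
        have hDCK : CK ≤ D := by
          have h1 := (hza z hza').1.trans (hmono 1 zero_le_one)
          rwa [Real.rpow_one] at h1
        have hDxw : (4 : ℝ) ≤ (D : ℝ) ^ (xw / 8) := (hzb z hzb').1.trans (hmono _ (by positivity))
        exact by
          have hDx0 : (3 * K : ℝ) ^ Γ ≤ (D : ℝ) ^ x0 := (hzc z hzc').1.trans (hmono _ hx0.le)
          have hD64 : (64 : ℝ) ≤ D := by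
            have h1 : (0 : ℝ) ≤ (N0 : ℝ) := Nat.cast_nonneg _
            have := abs_nonneg D1
            have := abs_nonneg D2
            have := abs_nonneg D3
            linarith
          have hDr1 : (1 : ℝ) ≤ D := by (clear * - hxw hxw1 hD64; linarith)
          have hDr0 : (0 : ℝ) < D := by (clear * - hxw hxw1 hD64; linarith)
          have hD2n : 2 ≤ D := by
            have : (2 : ℝ) ≤ D := by (clear * - hxw hxw1 hD64; linarith)
            exact_mod_cast this
          have hD1n : 1 ≤ D := by omega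
          exact by
            have hDK : 8 * (3 * K : ℝ) ^ Γ ≤ D := by
              have h1 : (0 : ℝ) ≤ (N0 : ℝ) := Nat.cast_nonneg _
              have := abs_nonneg D1
              have := abs_nonneg D2
              have := abs_nonneg D3
              linarith
            have hDN0 : N0 ≤ D := by
              have h1 : (N0 : ℝ) ≤ D := by
                have := abs_nonneg D1
                have := abs_nonneg D2
                have := abs_nonneg D3
                linarith
              exact_mod_cast h1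
            have hDD1 : D1 ≤ D := by
              have h1 : (0 : ℝ) ≤ (N0 : ℝ) := Nat.cast_nonneg _
              have := le_abs_self D1
              have := abs_nonneg D2
              have := abs_nonneg D3
              linarith
            have hDD2 : D2 ≤ D := by
              have h1 : (0 : ℝ) ≤ (N0 : ℝ) := Nat.cast_nonneg _
              have := abs_nonneg D1
              have := le_abs_self D2
              have := abs_nonneg D3
              linarith
            have hDD3 : D3 ≤ D := by
              have h1 : (0 : ℝ) ≤ (N0 : ℝ) := Nat.cast_nonneg _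
              have := abs_nonneg D1
              have := abs_nonneg D2
              have := le_abs_self D3
              linarith
            have hβ1pos : 1 ≤ β1 := by
              rcases Nat.eq_zero_or_pos β1 with h1 | h1
              · rw [hD, h1] at hD2n
                norm_num at hD2n
              · exact h1
            -- exponents
            exact by
              have hc2 : ∀ i, 2 ≤ c i := hc.two
              have hcpos : ∀ i, 0 < c i := fun i => by (clear * - hxw hxw1 hc2; linarith [hc2 i])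
              have hz0 : (0 : ℝ) < z := by
                have : (2 : ℝ) ≤ z := by exact_mod_cast hz2'
                (clear * - hxw hxw1 this; linarith)
              have hβz : (2 : ℝ) ^ β ≤ (2 : ℝ) ^ z := pow_le_pow_right₀ (by norm_num) hsc3
              have hθ : ((2 : ℝ) ^ z) ^ (τ / 2) ≤ (D : ℝ) ^ (1 / 2 : ℝ) := by
                have h1 := hmono (1 / 2) (by norm_num)
                rw [← Real.rpow_mul (by positivity)] at h1
                have h2 : τ * (1 / 2) = τ / 2 := by ring
                rwa [h2] at h1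
              have hd2 : ∀ i, (2 : ℝ) ≤ d i := fun i => by rw [← hd i]; exact hc2 _
              exact by
                have hdΓ : ∀ i, (d i : ℝ) ≤ Γ := fun i => by rw [← hd i]; exact hΓ _
                set B : Fin (l + 1) → ℕ := BB c β1 xw with hB
                have hB2 : ∀ i, ¬ IsN (c i) → 2 ≤ B i := fun i hi =>
                  BB_two hc2 (by (clear * - hxw hxw1; linarith)) hβ1pos hi
                have hBle : ∀ i, (B i : ℝ) ≤ (D : ℝ) ^ (c i - xw / 4) := fun i =>
                  BB_le (β1 := β1) (xw := xw) hc2 (by (clear * - hxw hxw1; linarith)) i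
                -- the modulus
                obtain ⟨P, hP, hP1, hP2⟩ := Nat.exists_prime_lt_and_le_two_mul (2 * 2 ^ z) (by positivity)
                have hNz : NeZero (D ^ 2 * P) := ⟨by have := hP.pos; (clear * - this; positivity)⟩
                exact by
                  have hN1 : D ^ 2 * (2 * 2 ^ z) ≤ D ^ 2 * P := Nat.mul_le_mul_left _ hP1.le
                  have hN2 : D ^ 2 * P ≤ D ^ 2 * (4 * 2 ^ z) := by
                    refine Nat.mul_le_mul_left _ (hP2.trans (le_of_eq ?_))
                    ring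
                  have hsz : ∀ i, ((2 * K * D : ℕ) : ℝ) ^ c i + B i + 1 ≤ (2 : ℝ) ^ z := by
                    intro i
                    have h1 : ((2 * K * D : ℕ) : ℝ) ^ c i ≤ (D : ℝ) ^ (c i + 1) / 8 := by
                      have := twoKe_le hK hDr0 hDK (hcpos i).le (hΓ i)
                      push_cast
                      exact this
                    have h2 : (D : ℝ) ^ (c i - xw / 4) ≤ (D : ℝ) ^ (c i) :=
                      Real.rpow_le_rpow_of_exponent_le hDr1 (by (clear * - hxw; linarith))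
                    have h3 : (D : ℝ) ^ (c i) * 64 ≤ (D : ℝ) ^ (c i + 1) := by
                      rw [Real.rpow_add hDr0, Real.rpow_one]
                      exact mul_le_mul_of_nonneg_left hD64 (by positivity)
                    have h4 : (64 : ℝ) ≤ (D : ℝ) ^ (c i + 1) := by
                      calc (64 : ℝ) ≤ D := hD64
                        _ = (D : ℝ) ^ (1 : ℝ) := (Real.rpow_one _).symm
                        _ ≤ _ := Real.rpow_le_rpow_of_exponent_le hDr1 (by (clear * - hcpos; linarith [hcpos i]))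
                    have h5 : (D : ℝ) ^ (c i + 1) ≤ (2 : ℝ) ^ z :=
                      (Dβ_le hsc2 (by (clear * - hxw hxw1 hΘ hΓ; linarith [hΓ i]))).trans hβz
                    have h6 := hBle i
                    (clear * - hxw hxw1 h1 h2 h3 h4 h5 h6; linarith)
                  have hsz' : ∀ i, ((2 * K * D : ℕ) : ℝ) ^ c i ≤ (2 : ℝ) ^ z := by
                    intro i
                    have h1 := hsz i
                    have h2 : (0 : ℝ) ≤ B i := Nat.cast_nonneg _
                    (clear * - hxw hxw1 h1; linarith)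
                  -- windows
                  obtain ⟨T, W, hDTW, hTpos, hTup, hTlow⟩ := window_len hxw hxw1 hDxw
                  have hwin := all_windows c hc2 hc0 d hd2 K K' hK xw hxw hxw1 τ V τ1 κ δ1 z Θ β1 β hΘ2 Γ hΓ hdΓ hΘ
                    A D hD hD64 hDK hDxw hβ1pos hsc2 hsc3 hsc1 hθ
                    (fun i u T Q B => hfreeze i D u T Q B hDD3) (hPM z hz1 A hA) (hAN z hz2 A hPSA) hcard hEn
                    (hMF z hz3 A hPSA) T W hDTW hTpos hTup hTlow
                  -- sizes of ζ and η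
                  set ζ := (z : ℝ)⁻¹ with hζ
                  exact by
                    have hζ0 : 0 < ζ := by positivity
                    have hz1r : (1 : ℝ) ≤ z := by exact_mod_cast (by omega : 1 ≤ z)
                    have hζ1 : ζ ≤ 1 := inv_le_one_of_one_le₀ hz1r
                    have hztr : 2 / (c1 * τ3) + 1 / c1 < z := by
                      have h1 : 2 / (c1 * τ3) ≤ ⌈2 / (c1 * τ3)⌉₊ := Nat.le_ceil _
                      have h2 : 1 / c1 ≤ ⌈1 / c1⌉₊ := Nat.le_ceil _
                      have h3 : ((⌈2 / (c1 * τ3)⌉₊ + ⌈1 / c1⌉₊ + 1 : ℕ) : ℝ) ≤ z := by exact_mod_cast hzt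
                      push_cast at h3
                      (clear * - hxw hxw1 h1 h2 h3; linarith)
                    have hζc : ζ ≤ c1 := by
                      have h1 : 1 / c1 ≤ (z : ℝ) := by
                        have : 0 < 2 / (c1 * τ3) := by (clear * - hτ1 hCf; positivity)
                        (clear * - hztr this; linarith)
                      rw [hζ, inv_le_comm₀ hz0 hc10, ← one_div]
                      exact h1
                    have hζt : ζ < c1 * τ3 / 2 := by
                      have h5 : 2 / (c1 * τ3) < z := by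
                        have : 0 < 1 / c1 := by (clear * - hτ1 hCf; positivity)
                        (clear * - hztr this; linarith)
                      rw [div_lt_iff₀ (by (clear * - hτ1 hCf; positivity))] at h5
                      rw [hζ, inv_lt_iff_one_lt_mul₀ hz0]
                      (clear * - h5; linarith)
                    exact by
                      have hDσ : ∀ σ', σ ≤ σ' → (D : ℝ) ^ (-σ') ≤ ζ ^ (2 * (l + 1) + 3) := by
                        intro σ' hσ'
                        calc (D : ℝ) ^ (-σ') ≤ (D : ℝ) ^ (-σ) := Real.rpow_le_rpow_of_exponent_le hDr1 (by (clear * - hσ'; linarith))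
                          _ ≤ (((2 : ℝ) ^ z) ^ τ) ^ (-σ) := by
                              rw [Real.rpow_neg hDr0.le, Real.rpow_neg hDτ0]
                              exact inv_anti₀ (by positivity) (hmono σ hσ.le)
                          _ ≤ _ := (hzd z hzd').2
                      set η := c1 * ζ ^ (l + 1 + 1) with hη
                      have hη0 : 0 < η := by (clear * - hτ1 hCf hz2'; positivity)
                      have hη12 : η ≤ 1 / 2 := by
                        have : ζ ^ (l + 1 + 1) ≤ 1 := pow_le_one₀ hζ0.le hζ1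
                        calc η ≤ 1 / 2 * 1 := mul_le_mul hc11 this (by positivity) (by norm_num)
                          _ = 1 / 2 := mul_one _
                      have hη1 : η ≤ 1 := by (clear * - hxw hxw1 hη12; linarith)
                      have hζη : ζ ^ (2 * (l + 1) + 3) ≤ η := by
                        calc ζ ^ (2 * (l + 1) + 3) ≤ ζ ^ (l + 1 + 2) := pow_le_pow_of_le_one hζ0.le hζ1 (by (clear * - K K' τ1 Θ j N0 Cf z1 z2 z3 za zb zc zd z P T W; omega))
                          _ = ζ * ζ ^ (l + 1 + 1) := by ring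
                          _ ≤ c1 * ζ ^ (l + 1 + 1) := mul_le_mul_of_nonneg_right hζc (by (clear * - hz2'; positivity))
                      exact by
                        have hQη : 1 ≤ η * (D : ℝ) ^ 2 := by
                          have h1 : (D : ℝ) ^ (-σ) ≤ η := (hDσ σ le_rfl).trans hζη
                          have h2 : (1 : ℝ) ≤ (D : ℝ) ^ (-σ) * (D : ℝ) ^ (2 : ℝ) := by
                            rw [← Real.rpow_add hDr0]
                            exact Real.one_le_rpow hDr1 (by (clear * - hxw hxw1 hσle; linarith))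
                          rw [Real.rpow_two] at h2
                          exact h2.trans (mul_le_mul_of_nonneg_right h1 (by positivity))
                        -- lower bound
                        have hlow := lower_form c hcpos d em hem hd hall z (by omega) A hPSA K D T W (D ^ 2 * P) hDTW
                          hTpos hD1n η (τ1 / 2) (by positivity) hN1 hN2 hη0.le hη1 B hB2 hsz hwin
                        have hlog : Real.log ((2 : ℝ) ^ z) = z * Real.log 2 := Real.log_pow _ _
                        have hlog2 : 0 < Real.log 2 := Real.log_pos (by norm_num)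
                        have hlogz : 0 < Real.log ((2 : ℝ) ^ z) := by rw [hlog]; positivity
                        have hlogle : Real.log ((2 : ℝ) ^ z) ≤ z := by
                          rw [hlog]
                          have : Real.log 2 ≤ 1 := by (clear * - hxw hxw1; linarith [Real.log_two_lt_d9])
                          (clear * - this; nlinarith)
                        exact by
                          have hlow' : τ3 * (c1 * ζ ^ (l + 1 + 1)) * ζ ^ (l + 1 + 1) ≤
                              formR (N := D ^ 2 * P) (SK D K c) c (g0A A (D ^ 2) η) (gm c A (D ^ 2) B) := by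
                            refine le_trans ?_ hlow
                            have h1 : ζ ^ (l + 1 + 1) * Real.log ((2 : ℝ) ^ z) ^ (l + 1 + 1) ≤ 1 := by
                              rw [← mul_pow]
                              refine pow_le_one₀ (by (clear * - hz2' hlogz; positivity)) ?_
                              rw [hζ, inv_mul_le_iff₀ hz0, mul_one]
                              exact hlogle
                            have h2 : (1 : ℝ) * ζ ^ (l + 1 + 1) ≤ 1 / Real.log ((2 : ℝ) ^ z) ^ (l + 1 + 1) := by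
                              rw [one_mul, le_div_iff₀ (by (clear * - hlogz; positivity))]
                              exact h1
                            calc τ3 * (c1 * ζ ^ (l + 1 + 1)) * ζ ^ (l + 1 + 1)
                                = η * (τ1 / 2) / 4 ^ (l + 1 + 1) * (1 * ζ ^ (l + 1 + 1)) := by
                                  rw [hτ3, hη]
                                  ring
                              _ ≤ η * (τ1 / 2) / 4 ^ (l + 1 + 1) * (1 / Real.log ((2 : ℝ) ^ z) ^ (l + 1 + 1)) :=
                                  mul_le_mul_of_nonneg_left h2 (by (clear * - hτ1 hCf hz2'; positivity))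
                              _ = η * (τ1 / 2) / (4 ^ (l + 1 + 1) * Real.log ((2 : ℝ) ^ z) ^ (l + 1 + 1)) := by
                                  (clear * - hlogz hτ1 hη0; field_simp)
                          -- upper bound
                          set bad : Finset ℕ := univ.biUnion fun i : Fin (l + 1) =>
                            (Ico D (D + D)).filter fun k : ℕ => 1 - η ≤ Int.fract (((K * k : ℕ) : ℝ) ^ (c i)) with hbad
                          have hfrN : ∀ i, IsN (c i) → ∀ k : ℕ, Int.fract (((K * k : ℕ) : ℝ) ^ (c i)) = 0 := by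
                            rintro i ⟨n, hn⟩ k
                            rw [hn, Real.rpow_natCast, ← Nat.cast_pow, Int.fract_natCast]
                          have hbadcard : (bad.card : ℝ) ≤ 2 * Cs * η * D := by
                            have h1 : (bad.card : ℝ) ≤ ∑ i, (#((Ico D (D + D)).filter fun k : ℕ =>
                                1 - η ≤ Int.fract (((K * k : ℕ) : ℝ) ^ (c i))) : ℝ) := by
                              exact_mod_cast Finset.card_biUnion_le
                            refine h1.trans ?_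
                            have h2 : ∀ i, (#((Ico D (D + D)).filter fun k : ℕ =>
                                1 - η ≤ Int.fract (((K * k : ℕ) : ℝ) ^ (c i))) : ℝ) ≤ Cf * (2 * η) * D := by
                              intro i
                              by_cases hi : IsN (c i)
                              · have h3 : (Ico D (D + D)).filter (fun k : ℕ =>
                                    1 - η ≤ Int.fract (((K * k : ℕ) : ℝ) ^ (c i))) = ∅ := by
                                  rw [Finset.filter_eq_empty_iff]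
                                  intro k _
                                  rw [hfrN i hi k]
                                  (clear * - hxw hxw1 hη12; linarith)
                                rw [h3, Finset.card_empty, Nat.cast_zero]
                                (clear * - hCf hτ1 hz2'; positivity)
                              · refine (hfrac i hi D hDD2 η hη0 hη1).trans ?_
                                exact by
                                  have h4 := (hDσ σ2 hσ2').trans hζη
                                  gcongr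
                                  (clear * - h4; linarith)
                            calc ∑ i, (#((Ico D (D + D)).filter fun k : ℕ =>
                                1 - η ≤ Int.fract (((K * k : ℕ) : ℝ) ^ (c i))) : ℝ) ≤
                                  ∑ _i : Fin (l + 1), Cf * (2 * η) * D := Finset.sum_le_sum fun i _ => h2 i
                              _ = 2 * Cs * η * D := by
                                  rw [Finset.sum_const, Finset.card_univ, Fintype.card_fin, nsmul_eq_mul, hCs]
                                  ring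
                          have hup := upper_form c hcpos z A hPSA K D (D ^ 2 * P) hD1n η Cs hN1 hη0.le
                            hQη hsz' bad hbadcard (by
                              intro k hk hkb i
                              by_contra h3
                              push Not at h3
                              apply hkb
                              rw [hbad, Finset.mem_biUnion]
                              exact ⟨i, Finset.mem_univ i, Finset.mem_filter.mpr ⟨hk, h3⟩⟩)
                            (by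
                              intro k hk p hp hall'
                              have hk' := Finset.mem_Ico.mp hk
                              obtain ⟨i, hi⟩ := hno p hp (K * k) (by
                                calc N0 ≤ D := hDN0
                                  _ ≤ k := hk'.1
                                  _ = 1 * k := (one_mul k).symm
                                  _ ≤ K * k := Nat.mul_le_mul_right k hK)
                              exact hi (hall' i))
                          -- comparison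
                          exact by
                            have hig : IG (SK D K c) c (D ^ 2 * P) x0 K := by
                              refine IG_SK c hcpos D K (2 ^ z) P x0 hx0 hD2n hK ?_ ?_ (Nat.one_le_two_pow) hP hP1
                              · intro i
                                exact by
                                  refine le_trans ?_ hDx0
                                  calc (K : ℝ) ^ (c i) ≤ (3 * K : ℝ) ^ (c i) :=
                                        Real.rpow_le_rpow hK0.le (by (clear * - hxw hxw1 hKr; linarith)) (hcpos i).le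
                                    _ ≤ _ := Real.rpow_le_rpow_of_exponent_le (by (clear * - hxw hxw1 hKr; linarith)) (hΓ i)
                              · intro i
                                have h1 := hsz' i
                                push_cast at h1 ⊢
                                have h2 : ((K : ℝ) * D) ^ c i ≤ (2 * K * D : ℝ) ^ c i := by
                                  refine Real.rpow_le_rpow (by positivity) ?_ (hcpos i).le
                                  have : (0 : ℝ) ≤ K * D := by positivity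
                                  (clear * - this; linarith)
                                have h3 : (0 : ℝ) ≤ (2 : ℝ) ^ z := by positivity
                                (clear * - h1 h2 h3; linarith)
                            have hQpos : 0 < D ^ 2 := by positivity
                            have hrep := hFR (SK D K c) (D ^ 2 * P) hDD1 hig
                              (fun y : ZMod (D ^ 2 * P) => (g0A A (D ^ 2) η y : ℂ))
                              (fun (_ : Fin (l + 1)) (y : ZMod (D ^ 2 * P)) => (gA A (D ^ 2) y : ℂ))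
                              (g0A_adm A hQpos (Dvd.intro _ rfl) η)
                              (fun _ => gA_adm A hQpos (Dvd.intro _ rfl)) (fun i => D ^ 2 * (B i + 1)) (by
                                intro i
                                refine ⟨Nat.mul_pos hQpos (Nat.succ_pos _), ?_⟩
                                change ((D ^ 2 * (B i + 1) : ℕ) : ℝ) ≤
                                  ((D ^ 2 : ℕ) : ℝ) * ((K : ℝ) * D) ^ (c i) * (D : ℝ) ^ (-(xw / 8))
                                rw [mul_assoc, Nat.cast_mul]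
                                refine mul_le_mul_of_nonneg_left ?_ (by positivity)
                                have h1 : (D : ℝ) ^ (c i) ≤ ((K : ℝ) * D) ^ (c i) := by
                                  refine Real.rpow_le_rpow hDr0.le ?_ (hcpos i).le
                                  (clear * - hKr; nlinarith)
                                have h2 : (D : ℝ) ^ (c i) * (D : ℝ) ^ (-(xw / 8)) =
                                    (D : ℝ) ^ (c i - xw / 4) * (D : ℝ) ^ (xw / 8) := by
                                  rw [← Real.rpow_add hDr0, ← Real.rpow_add hDr0]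
                                  congr 1
                                  ring
                                have h3 : (1 : ℝ) ≤ (D : ℝ) ^ (c i - xw / 4) :=
                                  Real.one_le_rpow hDr1 (by (clear * - hxw hxw1 hc2; linarith [hc2 i]))
                                push_cast
                                calc (B i : ℝ) + 1 ≤ (D : ℝ) ^ (c i - xw / 4) * 4 := by (clear * - hxw hxw1 h3 hBle; linarith [hBle i])
                                  _ ≤ (D : ℝ) ^ (c i - xw / 4) * (D : ℝ) ^ (xw / 8) :=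
                                      mul_le_mul_of_nonneg_left hDxw (by positivity)
                                  _ = (D : ℝ) ^ (c i) * (D : ℝ) ^ (-(xw / 8)) := h2.symm
                                  _ ≤ _ := mul_le_mul_of_nonneg_right h1 (by positivity))
                            have hAA : (fun (i : Fin (l + 1)) (x : ZMod (D ^ 2 * P)) =>
                                (open scoped Classical in if IsN (c i) then (gA A (D ^ 2) x : ℂ) else
                                  NX.A (D ^ 2 * (B i + 1)) (fun y : ZMod (D ^ 2 * P) => (gA A (D ^ 2) y : ℂ)) x)) =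
                                fun (i : Fin (l + 1)) (x : ZMod (D ^ 2 * P)) => ((gm c A (D ^ 2) B i x : ℝ) : ℂ) := by
                              funext i x
                              unfold gm
                              by_cases hi : IsN (c i)
                              · rw [if_pos hi, if_pos hi]
                              · rw [if_neg hi, if_neg hi]
                                exact A_ofReal _ (gA A (D ^ 2)) x
                            rw [hAA, form_ofReal, form_ofReal, ← Complex.ofReal_sub, Complex.norm_real, Real.norm_eq_abs]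
                              at hrep
                            have h1 := (abs_sub_le_iff.mp hrep).2
                            have hSKD : (SK D K c).D = (D : ℝ) := rfl
                            rw [hSKD] at h1
                            exact final_num (l + 1) τ3 Cs c1 ζ _ _ _ hζ0 hc10 hc1τ hζt hlow' hup
                              (sub_le_iff_le_add'.mp h1) (hDσ σ1 hσ1')

end

end Pool.Agent.Helper57.NX3

end

section

set_option autoImplicit false

open Finset

open scoped BigOperators

namespace Pool.Agent.Helper57.NX3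

noncomputable section

namespace EnLe

open Pool.Agent.Helper57.FP

/-- C3 -/
theorem en_le_of (hPS : PairSieve) :
    ∃ C1 : ℝ, 1 ≤ C1 ∧ ∀ M : ℕ, 1 ≤ M → ∀ θ : ℝ, 0 < θ → ∃ z0 : ℕ, ∀ z : ℕ, z0 ≤ z →
    ∀ A : Finset ℕ, PS z A → ∀ b : ℕ, b ≤ z → ((2 : ℝ) ^ z) ^ θ ≤ 2 ^ b → En z A M b ≤ C1 := by
  classical
  obtain ⟨C, hC, Z0, hsv⟩ := hPS
  obtain ⟨C', hC', hpsi⟩ := psi_avg 2
  refine ⟨4 * C * C' + 1, by nlinarith [mul_pos hC hC'], ?_⟩
  intro M hM θ hθ
  have hM0 : (0 : ℝ) < M := by exact_mod_cast hM
  have hφ : (0 : ℝ) < M.totient := by exact_mod_cast Nat.totient_pos.2 hM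
  -- large `z`
  have hev : ∀ᶠ x : ℝ in Filter.atTop, 2 * M * Real.log x ^ 2 ≤ x ^ θ := by
    have h1 := isLittleO_log_rpow_rpow_atTop (s := θ) (2 : ℝ) hθ
    have h2 := h1.bound (show (0 : ℝ) < 1 / (2 * M) by (clear * - hM; positivity))
    filter_upwards [h2, Filter.eventually_ge_atTop (1 : ℝ)] with x hx hx1
    rw [Real.norm_eq_abs, Real.norm_eq_abs,
      abs_of_nonneg (Real.rpow_nonneg (by (clear * - hx1; linarith) : (0 : ℝ) ≤ x) θ)] at hx
    have h3 : Real.log x ^ (2 : ℝ) = Real.log x ^ 2 := by
      rw [← Real.rpow_natCast]; norm_num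
    rw [h3, abs_of_nonneg (sq_nonneg (Real.log x)), one_div, ← div_eq_inv_mul, le_div_iff₀ (by positivity)]
      at hx
    (clear * - hx; linarith)
  have hev2 : ∀ᶠ x : ℝ in Filter.atTop, (M : ℝ) ≤ x ^ θ :=
    (tendsto_rpow_atTop hθ).eventually_ge_atTop _
  have hpow : Filter.Tendsto (fun z : ℕ => (2 : ℝ) ^ z) Filter.atTop Filter.atTop :=
    tendsto_pow_atTop_atTop_of_one_lt (by norm_num)
  have hev3 : ∀ᶠ z : ℕ in Filter.atTop, 2 * M * Real.log ((2 : ℝ) ^ z) ^ 2 ≤ ((2 : ℝ) ^ z) ^ θ ∧
      (M : ℝ) ≤ ((2 : ℝ) ^ z) ^ θ ∧ (max Z0 2 : ℕ) ≤ (2 : ℝ) ^ z := by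
    filter_upwards [hpow.eventually hev, hpow.eventually hev2,
      hpow.eventually_ge_atTop ((max Z0 2 : ℕ) : ℝ)] with z h1 h2 h3
    exact ⟨h1, h2, h3⟩
  exact by
    obtain ⟨z0, hz0⟩ := Filter.eventually_atTop.1 hev3
    refine ⟨z0, fun z hz A hA b _ hb2 => ?_⟩
    exact by
      obtain ⟨hz1, hz2, hz3⟩ := hz0 z hz
      have hMb : (M : ℝ) ≤ 2 ^ b := hz2.trans hb2
      have hZ0 : Z0 ≤ 2 ^ z := by
        have : ((max Z0 2 : ℕ) : ℝ) ≤ ((2 ^ z : ℕ) : ℝ) := by push_cast; push_cast at hz3; exact hz3
        exact (le_max_left _ _).trans (by exact_mod_cast this)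
      have hZ2 : 2 ≤ 2 ^ z := by
        have : ((max Z0 2 : ℕ) : ℝ) ≤ ((2 ^ z : ℕ) : ℝ) := by push_cast; push_cast at hz3; exact hz3
        exact (le_max_right Z0 2).trans (by exact_mod_cast this)
      set lz := Real.log ((2 : ℝ) ^ z) with hlz
      have hlz0 : 0 < lz := Real.log_pos (by
        have : (2 : ℝ) ≤ 2 ^ z := by exact_mod_cast hZ2
        (clear * - this; linarith))
      have h2b : (0 : ℝ) < 2 ^ b := by positivity
      exact by
        have h2z : (0 : ℝ) < 2 ^ z := by positivity
        set L := 2 ^ b / M with hL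
        -- the pairs
        have hsum : lz ^ 2 * ∑ t ∈ Icc 1 L,
            (((range (2 ^ z)).filter (fun n => n.Prime ∧ (n + M * t).Prime)).card : ℝ) ≤
            C * 2 ^ z * (M / M.totient) * (C' * (2 ^ b / M)) := by
          have h1 : ∀ t ∈ Icc 1 L,
              lz ^ 2 * (((range (2 ^ z)).filter (fun n => n.Prime ∧ (n + M * t).Prime)).card : ℝ) ≤
                C * 2 ^ z * (M / M.totient) * Psi 2 (t : ℤ) := by
            intro t ht
            have ht1 : 1 ≤ t := (mem_Icc.1 ht).1
            have ht0 : (0 : ℝ) < t := by exact_mod_cast ht1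
            have hφt : (0 : ℝ) < t.totient := by exact_mod_cast Nat.totient_pos.2 ht1
            have h2 := hsv (2 ^ z) hZ0 (M * t) (Nat.mul_pos hM ht1)
            have h3 : (((M * t : ℕ) : ℝ)) / (M * t).totient ≤ (M / M.totient) * Psi 2 (t : ℤ) := by
              have h4 : ((M.totient : ℝ)) * t.totient ≤ (M * t).totient := by
                exact_mod_cast Nat.totient_super_multiplicative M t
              calc (((M * t : ℕ) : ℝ)) / (M * t).totient ≤ ((M * t : ℕ) : ℝ) / (M.totient * t.totient) :=
                    div_le_div_of_nonneg_left (Nat.cast_nonneg _) (by (clear * - hM ht1; positivity)) h4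
                _ = (M / M.totient) * (t / t.totient) := by
                    push_cast
                    (clear * - ht1 hM; field_simp)
                _ ≤ (M / M.totient) * Psi 2 (t : ℤ) :=
                    mul_le_mul_of_nonneg_left (div_totient_le ht1) (by positivity)
            have h5 : Real.log (((2 ^ z : ℕ) : ℝ)) = lz := by
              rw [hlz]; push_cast; rfl
            rw [h5] at h2
            calc lz ^ 2 * (((range (2 ^ z)).filter (fun n => n.Prime ∧ (n + M * t).Prime)).card : ℝ)
                ≤ lz ^ 2 * (C * ((((M * t : ℕ) : ℝ)) / (M * t).totient) *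
                    (((2 ^ z : ℕ) : ℝ) / lz ^ 2)) := mul_le_mul_of_nonneg_left h2 (by positivity)
              _ = C * 2 ^ z * ((((M * t : ℕ) : ℝ)) / (M * t).totient) := by
                  push_cast
                  (clear * - hlz0 hM ht1 hC; field_simp)
              _ ≤ C * 2 ^ z * ((M / M.totient) * Psi 2 (t : ℤ)) :=
                  mul_le_mul_of_nonneg_left h3 (by positivity)
              _ = _ := by ring
          rw [mul_sum]
          refine (sum_le_sum h1).trans ?_
          rw [← mul_sum]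
          refine mul_le_mul_of_nonneg_left ?_ (by positivity)
          have hL1 : 1 ≤ L := by
            rw [hL]
            exact (Nat.one_le_div_iff hM).2 (by exact_mod_cast hMb)
          have h2 := hpsi L hL1 1 (by
            intro i hi
            have e1 : ((1 : ℤ) + i).natAbs = 1 + i := by omega
            rw [e1]
            have e2 : L < 4 ^ L := Nat.lt_pow_self (by norm_num)
            omega)
          have h3 : ∑ t ∈ Icc 1 L, Psi 2 (t : ℤ) = ∑ i ∈ range L, Psi 2 (1 + i) := by
            have e1 : Icc 1 L = Ico 1 (L + 1) := by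
              ext t; simp only [mem_Icc, mem_Ico]; omega
            rw [e1, sum_Ico_eq_sum_range]
            refine sum_congr (by simp) fun i _ => ?_
            push_cast
            rfl
          rw [h3]
          refine h2.trans (mul_le_mul_of_nonneg_left ?_ hC'.le)
          have := Nat.cast_div_le (α := ℝ) (m := 2 ^ b) (n := M)
          push_cast at this
          exact this
        have hcard : (A.card : ℝ) ≤ 2 ^ z := by
          have h1 : A ⊆ range (2 ^ z) := fun p hp => mem_range.2 (hA p hp).2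
          have h2 := card_le_card h1
          rw [card_range] at h2
          exact_mod_cast h2
        have hpairs : ((PPr A M b).card : ℝ) ≤ A.card + 2 * ∑ t ∈ Icc 1 L,
            (((range (2 ^ z)).filter (fun n => n.Prime ∧ (n + M * t).Prime)).card : ℝ) := by
          exact_mod_cast card_PPr_le (b := b) hM hA
        have hmain := sum_cd_sq_le (z := z) hM hMb A
        exact by
          rw [← hlz] at hmain
          have h3 : ∑ x ∈ range (2 ^ z), cd (FA z A) M b x ^ 2 ≤
              2 ^ z + 4 * C * C' * 2 ^ z * (M / M.totient) := by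
            calc ∑ x ∈ range (2 ^ z), cd (FA z A) M b x ^ 2
                ≤ 2 * ((M : ℝ) / 2 ^ b) * lz ^ 2 * (PPr A M b).card := hmain
              _ ≤ 2 * ((M : ℝ) / 2 ^ b) * lz ^ 2 * (A.card + 2 * ∑ t ∈ Icc 1 L,
                  (((range (2 ^ z)).filter (fun n => n.Prime ∧ (n + M * t).Prime)).card : ℝ)) :=
                  mul_le_mul_of_nonneg_left hpairs (by (clear * - hM hlz0; positivity))
              _ = 2 * M * lz ^ 2 / 2 ^ b * A.card + 4 * ((M : ℝ) / 2 ^ b) * (lz ^ 2 * ∑ t ∈ Icc 1 L,
                  (((range (2 ^ z)).filter (fun n => n.Prime ∧ (n + M * t).Prime)).card : ℝ)) := by ring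
              _ ≤ 1 * 2 ^ z + 4 * ((M : ℝ) / 2 ^ b) *
                  (C * 2 ^ z * (M / M.totient) * (C' * (2 ^ b / M))) := by
                  refine add_le_add (mul_le_mul ?_ hcard (Nat.cast_nonneg _) zero_le_one) ?_
                  · rw [div_le_one h2b]
                    exact hz1.trans hb2
                  · exact mul_le_mul_of_nonneg_left hsum (by positivity)
              _ = 2 ^ z + 4 * C * C' * 2 ^ z * (M / M.totient) := by
                  field_simp
          unfold En
          have h4 : (M.totient : ℝ) / M ≤ 1 := by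
            rw [div_le_one hM0]
            exact_mod_cast Nat.totient_le M
          calc (M.totient : ℝ) / M * ((∑ x ∈ range (2 ^ z), cd (FA z A) M b x ^ 2) / 2 ^ z)
              ≤ (M.totient : ℝ) / M * ((2 ^ z + 4 * C * C' * 2 ^ z * (M / M.totient)) / 2 ^ z) :=
                mul_le_mul_of_nonneg_left (div_le_div_of_nonneg_right h3 h2z.le) (by positivity)
            _ = (M.totient : ℝ) / M + 4 * C * C' := by
                (clear * - hM hC hC'; field_simp)
            _ ≤ 4 * C * C' + 1 := by (clear * - h4; linarith)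

end EnLe

end

end Pool.Agent.Helper57.NX3

end

section

set_option autoImplicit false

open Finset

open scoped BigOperators

namespace Pool.Agent.Helper57.NX3

open Pool.Agent.Helper44 Pool.Agent.Helper96.CPAP Pool.Agent.Helper57.FP

theorem pair_sieve : ∃ C : ℝ, 0 < C ∧ ∃ Z0 : ℕ, ∀ Z : ℕ, Z0 ≤ Z → ∀ h : ℕ, 1 ≤ h →
    (((range Z).filter (fun n => n.Prime ∧ (n + h).Prime)).card : ℝ) ≤
      C * ((h : ℝ) / h.totient) * (Z / (Real.log Z) ^ 2) := by
  classical
  obtain ⟨K, c, hK, hc, hS⟩ := sieveK 2
  obtain ⟨C, hC, hprod⟩ := prod_local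
  obtain ⟨Z1, hZ1⟩ := Filter.eventually_atTop.mp (eventually_small 2)
  obtain ⟨Z2, hZ2⟩ : ∃ Z2 : ℕ, ∀ Z : ℕ, Z2 ≤ Z → (2 : ℝ) ≤ (Z : ℝ) ^ (1 / (2 * K)) := by
    have h := (tendsto_rpow_atTop (y := 1 / (2 * K)) (by positivity)).comp
      (tendsto_natCast_atTop_atTop (R := ℝ))
    obtain ⟨Z2, h2⟩ := Filter.eventually_atTop.mp (h.eventually (Filter.eventually_ge_atTop 2))
    exact ⟨Z2, h2⟩
  refine ⟨2 * C * (2 * K) ^ 2 + 1, by positivity, max (max Z1 Z2) 2, ?_⟩
  intro Z hZ h hh
  set y : Bool → ℕ := psy h with hy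
  have hZ1' := hZ1 Z ((le_max_left _ _).trans ((le_max_left _ _).trans hZ))
  have hZ2' := hZ2 Z ((le_max_right _ _).trans ((le_max_left _ _).trans hZ))
  have hZ3 : 2 ≤ Z := (le_max_right _ _).trans hZ
  have hZr : (1 : ℝ) < Z := by exact_mod_cast hZ3
  have hZ0 : (0 : ℝ) < Z := by (clear * - hZr; linarith)
  exact by
    have hlog : 0 < Real.log Z := Real.log_pos hZr
    set w : ℝ := (Z : ℝ) ^ (1 / (2 * K)) with hw
    have hw0 : 0 < w := by (clear * - hZ2'; linarith)
    have hlogw : Real.log w = Real.log Z / (2 * K) := by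
      rw [hw, Real.log_rpow hZ0]; ring
    have hwK : w ^ K = (Z : ℝ) ^ (1 / 2 : ℝ) := by
      rw [hw, ← Real.rpow_mul hZ0.le]
      congr 1
      field_simp
    have hwle : w ≤ (Z : ℝ) ^ (1 / 2 : ℝ) := by
      rw [hw]
      apply Real.rpow_le_rpow_of_exponent_le hZr.le
      apply one_div_le_one_div_of_le (by norm_num)
      (clear * - hK; linarith)
    have hone : (1 : ℝ) ≤ (Z : ℝ) ^ (1 / 2 : ℝ) := Real.one_le_rpow hZr.le (by norm_num)
    -- sieve bound
    exact by
      have h1 := (hS ℕ (PP 2) (fun q h => h) (fun q => (nu y q : ℝ)) (fun q _ => by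
          refine ⟨by (clear * -; positivity), ?_⟩
          have := psy_le h q
          exact_mod_cast this) w hZ2' (range Z) (fun q n => ∃ i, q ∣ n + y i) Z 1 hZ0.le zero_le_one
          (fun I hI => by
            have := count_bound' y I (fun q hq => (hI q hq).1.1) Z
            simpa using this)).1
      rw [hwK, one_mul] at h1
      -- cover
      have h2 : (((range Z).filter (fun n => n.Prime ∧ (n + h).Prime)).card : ℝ) ≤
          evCount (range Z) (fun n => ∀ q : ℕ, PP 2 q → (q : ℝ) ≤ w → ¬ ∃ i, q ∣ n + y i) +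
            (w + 1) := by
        rw [evCount_eq]
        have hsub : (range Z).filter (fun n => n.Prime ∧ (n + h).Prime) ⊆
            (range Z).filter (fun n => ∀ q : ℕ, PP 2 q → (q : ℝ) ≤ w → ¬ ∃ i, q ∣ n + y i) ∪
              range (⌊w⌋₊ + 1) := by
          intro n hn
          rw [Finset.mem_filter] at hn
          rw [Finset.mem_union, Finset.mem_filter, Finset.mem_range]
          by_cases h' : n < ⌊w⌋₊ + 1
          · right; exact Finset.mem_range.mpr h'
          · left
            refine ⟨Finset.mem_range.mp hn.1, ?_⟩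
            rintro q hq hqw ⟨i, hi⟩
            have hpr : (n + y i).Prime := by
              cases i
              · simpa [hy, psy] using hn.2.1
              · simpa [hy, psy] using hn.2.2
            have h3 : q = n + y i := (Nat.prime_dvd_prime_iff_eq hq.1 hpr).mp hi
            have h4 : q ≤ ⌊w⌋₊ := Nat.le_floor hqw
            omega
        have h3 := Finset.card_le_card hsub
        have h4 := h3.trans (Finset.card_union_le _ _)
        rw [Finset.card_range] at h4
        have h5 : ((⌊w⌋₊ + 1 : ℕ) : ℝ) ≤ w + 1 := by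
          push_cast
          (clear * - hw0; linarith [Nat.floor_le hw0.le])
        calc _ ≤ ((((range Z).filter (fun n => ∀ q : ℕ, PP 2 q → (q : ℝ) ≤ w →
                  ¬ ∃ i, q ∣ n + y i)).card + (⌊w⌋₊ + 1) : ℕ) : ℝ) := by exact_mod_cast h4
          _ ≤ _ := by
              push_cast
              push_cast at h5
              (clear * - h5; linarith)
      have h3 := hprod w hZ2' h hh
      have hT := ratio_ge h hh
      set T := (h : ℝ) / h.totient with hTdef
      have h4 : C * T / (Real.log w) ^ 2 = C * (2 * K) ^ 2 * T / (Real.log Z) ^ 2 := by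
        rw [hlogw, div_pow]
        (clear * - hK hlog hT hC; field_simp)
      rw [h4] at h3
      have h5 : 2 * (Z : ℝ) * ∏ q ∈ pU (PP 2) w, (1 - (nu y q : ℝ) / q) ≤
          2 * Z * (C * (2 * K) ^ 2 * T / (Real.log Z) ^ 2) :=
        mul_le_mul_of_nonneg_left h3 (by positivity)
      have h6 : (0 : ℝ) ≤ Z / (Real.log Z) ^ 2 := by positivity
      have h7 : Z / (Real.log Z) ^ 2 ≤ T * (Z / (Real.log Z) ^ 2) := le_mul_of_one_le_left h6 hT
      exact by
        calc _ ≤ _ := h2
          _ ≤ (2 * Z * (C * (2 * K) ^ 2 * T / (Real.log Z) ^ 2) + (Z : ℝ) ^ (1 / 2 : ℝ)) +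
              (w + 1) := by (clear * - h1 h5; linarith)
          _ ≤ 2 * Z * (C * (2 * K) ^ 2 * T / (Real.log Z) ^ 2) + 3 * (Z : ℝ) ^ (1 / 2 : ℝ) := by
              (clear * - hZ2' hwle; linarith)
          _ ≤ 2 * Z * (C * (2 * K) ^ 2 * T / (Real.log Z) ^ 2) + Z / (Real.log Z) ^ 2 := by
              (clear * - hZ1'; linarith)
          _ ≤ 2 * Z * (C * (2 * K) ^ 2 * T / (Real.log Z) ^ 2) + T * (Z / (Real.log Z) ^ 2) := by
              (clear * - h7; linarith)
          _ = (2 * C * (2 * K) ^ 2 + 1) * T * (Z / (Real.log Z) ^ 2) := by ring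

end Pool.Agent.Helper57.NX3

end

section

set_option autoImplicit false

open Finset

open scoped BigOperators

namespace Pool.Agent.Helper57.NX3

noncomputable section

theorem en_le : ∃ C1 : ℝ, 1 ≤ C1 ∧ ∀ M : ℕ, 1 ≤ M → ∀ θ : ℝ, 0 < θ → ∃ z0 : ℕ, ∀ z : ℕ, z0 ≤ z →
    ∀ A : Finset ℕ, PS z A → ∀ b : ℕ, b ≤ z → ((2 : ℝ) ^ z) ^ θ ≤ 2 ^ b → En z A M b ≤ C1 :=
  EnLe.en_le_of pair_sieve

end

end Pool.Agent.Helper57.NX3

end

section

set_option autoImplicit false

open Finset

open scoped BigOperators

namespace Pool.Agent.Helper57.NX3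

noncomputable section

theorem good_set : ∃ ω : ℝ, 0 < ω ∧ ∀ δ : ℝ, 0 < δ → δ ≤ 1 → ∀ M : ℕ, 1 ≤ M → ∀ θ : ℝ, 0 < θ →
    ∃ z0 : ℕ, ∀ z : ℕ, z0 ≤ z → ∀ A : Finset ℕ, PS z A →
    δ * ((2 : ℝ) ^ z / Real.log ((2 : ℝ) ^ z)) ≤ A.card →
    ∀ β : ℕ, β ≤ z → ((2 : ℝ) ^ z) ^ θ ≤ 2 ^ β →
    ω * δ ^ 2 * ((M.totient : ℝ) / M) * 2 ^ z ≤ (GG z A M β δ).card := by
  obtain ⟨C1, hC1, hen⟩ := en_le
  refine ⟨1 / (9 * C1), by positivity, ?_⟩
  intro δ hδ hδ1 M hM θ hθ
  obtain ⟨z1, hz1⟩ := hen M hM θ hθ
  obtain ⟨z2, hz2⟩ := gs_ev M hM δ θ hδ hθ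
  refine ⟨max (max z1 z2) 1, ?_⟩
  intro z hz A hA hcard β hβ hθβ
  have hz1' : z1 ≤ z := le_trans (le_max_left _ _) (le_trans (le_max_left _ _) hz)
  have hz2' : z2 ≤ z := le_trans (le_max_right _ _) (le_trans (le_max_left _ _) hz)
  have hz3' : 1 ≤ z := le_trans (le_max_right _ _) hz
  have hE := hz1 z hz1' A hA β hβ hθβ
  obtain ⟨a1, a2, a3⟩ := hz2 z hz2'
  have hM0 : (0 : ℝ) < M := by exact_mod_cast hM
  have hM1 : (1 : ℝ) ≤ M := by exact_mod_cast hM
  exact by
    set Z : ℝ := (2 : ℝ) ^ z with hZ
    have hZ0 : 0 < Z := by positivity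
    set lz := Real.log Z with hlz
    have hlz0 : 0 < lz := by
      rw [hlz, hZ]
      apply Real.log_pos
      exact one_lt_pow₀ (by norm_num) (by omega)
    set kap : ℝ := (M.totient : ℝ) / M with hkap
    have hφ1 : (1 : ℝ) ≤ M.totient := by
      exact_mod_cast Nat.totient_pos.2 hM
    exact by
      have hkap0 : 0 < kap := by (clear * - hM; positivity)
      have hkapM : 1 / (M : ℝ) ≤ kap := by
        rw [hkap]; (clear * - hφ1 hM; gcongr)
      have hkap1 : kap ≤ 1 := by
        rw [hkap, div_le_one hM0]; exact_mod_cast Nat.totient_le M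
      set F := FA z A with hF
      have hF0 : ∀ x, 0 ≤ F x := FA_nonneg z A
      have h2β : (0 : ℝ) < 2 ^ β := by positivity
      exact by
        have hε : (M : ℝ) / 2 ^ β ≤ 1 / 100 := by
          rw [div_le_div_iff₀ h2β (by norm_num)]
          (clear * - hθβ a1; linarith)
        have hε0 : 0 ≤ (M : ℝ) / 2 ^ β := by positivity
        -- the sum of `F` over the classes prime to `M`
        have hsumF : δ * Z ≤ ∑ x ∈ range (2 ^ z), F x := by
          rw [sum_FA hA]
          have := mul_le_mul_of_nonneg_left hcard hlz0.le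
          calc δ * Z = lz * (δ * (Z / lz)) := by (clear * - hlz0 hZ0 hδ; field_simp)
            _ ≤ lz * A.card := this
        have hsplit : ∑ x ∈ range (2 ^ z), F x =
            ∑ x ∈ (range (2 ^ z)).filter (fun x => x.Coprime M), F x +
            ∑ x ∈ (range (2 ^ z)).filter (fun x => ¬ x.Coprime M), F x :=
          (Finset.sum_filter_add_sum_filter_not _ _ _).symm
        have hnon : ∑ x ∈ (range (2 ^ z)).filter (fun x => ¬ x.Coprime M), F x ≤ M * lz := by
          calc ∑ x ∈ (range (2 ^ z)).filter (fun x => ¬ x.Coprime M), F x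
              = ∑ x ∈ ((range (2 ^ z)).filter (fun x => ¬ x.Coprime M)).filter (fun x => x ∈ A), lz := by
                rw [Finset.sum_filter _ (fun _ => lz)]
                apply Finset.sum_congr rfl
                intro x _
                rfl
            _ = (((range (2 ^ z)).filter (fun x => ¬ x.Coprime M)).filter (fun x => x ∈ A)).card * lz := by
                rw [Finset.sum_const, nsmul_eq_mul]
            _ ≤ M * lz := by
                apply mul_le_mul_of_nonneg_right _ hlz0.le
                have hsub : ((range (2 ^ z)).filter (fun x => ¬ x.Coprime M)).filter (fun x => x ∈ A) ⊆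
                    Finset.Icc 1 M := by
                  intro x hx
                  simp only [Finset.mem_filter, Finset.mem_range] at hx
                  obtain ⟨⟨_, hc⟩, hxA⟩ := hx
                  have hp := (hA x hxA).1
                  rw [hp.coprime_iff_not_dvd, not_not] at hc
                  exact Finset.mem_Icc.2 ⟨hp.one_lt.le, Nat.le_of_dvd hM hc⟩
                have := Finset.card_le_card hsub
                rw [Nat.card_Icc] at this
                exact_mod_cast this
        have hco : δ * Z * (99 / 100) ≤ ∑ x ∈ (range (2 ^ z)).filter (fun x => x.Coprime M), F x := by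
          (clear * - a2 hsumF hsplit hnon; nlinarith)
        exact by
          have hcd : (99 / 100) * (δ * Z * (99 / 100)) ≤
              ∑ x ∈ (range (2 ^ z)).filter (fun x => x.Coprime M), cd F M β x := by
            refine le_trans ?_ (sum_cd_coprime hF0 hM hβ)
            apply mul_le_mul _ hco (by positivity) (by (clear * - hε; linarith))
            (clear * - hε; linarith)
          -- the terms with small block average
          have hsm := gs_small hF0 hM hβ (show (0 : ℝ) ≤ δ / 4 by positivity)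
          have hsm' : ∑ x ∈ (range (2 ^ z)).filter (fun x => x.Coprime M ∧ cd F 1 β x < δ / 4),
              cd F M β x ≤ (101 / 100) * (δ / 4) * Z := by
            refine le_trans hsm ?_
            apply mul_le_mul_of_nonneg_right _ hZ0.le
            apply mul_le_mul_of_nonneg_right _ (by positivity)
            (clear * - hε; linarith)
          -- the terms with small `ht`
          have hcc := card_coprime_le M hM (2 ^ z)
          have hcc' : ((((range (2 ^ z)).filter (fun x => x.Coprime M)).card : ℕ) : ℝ) ≤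
              kap * Z + M := by
            have := (abs_le.1 hcc).2
            push_cast at this
            (clear * - this; linarith)
          have hst : ∑ x ∈ (range (2 ^ z)).filter (fun x => x.Coprime M ∧ kap * cd F M β x < δ / 4),
              kap * cd F M β x ≤ (δ / 4) * (kap * Z + M) := by
            calc _ ≤ ∑ x ∈ (range (2 ^ z)).filter (fun x => x.Coprime M ∧ kap * cd F M β x < δ / 4),
                  δ / 4 := by
                  apply Finset.sum_le_sum
                  intro x hx
                  exact (Finset.mem_filter.1 hx).2.2.le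
              _ = ((range (2 ^ z)).filter (fun x => x.Coprime M ∧ kap * cd F M β x < δ / 4)).card *
                  (δ / 4) := by rw [Finset.sum_const, nsmul_eq_mul]
              _ ≤ (((range (2 ^ z)).filter (fun x => x.Coprime M)).card : ℝ) * (δ / 4) := by
                  apply mul_le_mul_of_nonneg_right _ (by positivity)
                  have : ((range (2 ^ z)).filter (fun x => x.Coprime M ∧ kap * cd F M β x < δ / 4)) ⊆
                      (range (2 ^ z)).filter (fun x => x.Coprime M) := by
                    intro x hx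
                    simp only [Finset.mem_filter] at hx ⊢
                    exact ⟨hx.1, hx.2.1⟩
                  exact_mod_cast Finset.card_le_card this
              _ ≤ (δ / 4) * (kap * Z + M) := by
                  rw [mul_comm]
                  exact mul_le_mul_of_nonneg_left hcc' (by positivity)
          -- decomposition
          exact by
            have hdec : ∑ x ∈ (range (2 ^ z)).filter (fun x => x.Coprime M), kap * cd F M β x ≤
                ∑ x ∈ GG z A M β δ, kap * cd F M β x +
                ∑ x ∈ (range (2 ^ z)).filter (fun x => x.Coprime M ∧ cd F 1 β x < δ / 4),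
                  kap * cd F M β x +
                ∑ x ∈ (range (2 ^ z)).filter (fun x => x.Coprime M ∧ kap * cd F M β x < δ / 4),
                  kap * cd F M β x := by
              unfold GG
              rw [Finset.sum_filter, Finset.sum_filter, Finset.sum_filter, Finset.sum_filter,
                ← Finset.sum_add_distrib, ← Finset.sum_add_distrib]
              apply Finset.sum_le_sum
              intro x _
              have h0 : 0 ≤ kap * cd F M β x := mul_nonneg hkap0.le (cd_nonneg hF0 M β x)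
              have g1 : 0 ≤ if x.Coprime M ∧ δ / 4 ≤ (M.totient : ℝ) / M * cd (FA z A) M β x ∧
                  δ / 4 ≤ cd (FA z A) 1 β x then kap * cd F M β x else 0 := by
                by_cases h : x.Coprime M ∧ δ / 4 ≤ (M.totient : ℝ) / M * cd (FA z A) M β x ∧
                  δ / 4 ≤ cd (FA z A) 1 β x
                · rw [if_pos h]; exact h0
                · rw [if_neg h]
              have g2 : 0 ≤ if x.Coprime M ∧ cd F 1 β x < δ / 4 then kap * cd F M β x else 0 := by
                by_cases h : x.Coprime M ∧ cd F 1 β x < δ / 4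
                · rw [if_pos h]; exact h0
                · rw [if_neg h]
              have g3 : 0 ≤ if x.Coprime M ∧ kap * cd F M β x < δ / 4 then kap * cd F M β x else 0 := by
                by_cases h : x.Coprime M ∧ kap * cd F M β x < δ / 4
                · rw [if_pos h]; exact h0
                · rw [if_neg h]
              by_cases hc : x.Coprime M
              · rw [if_pos hc]
                exact by
                  by_cases hu : cd F 1 β x < δ / 4
                  · rw [if_pos (show x.Coprime M ∧ cd F 1 β x < δ / 4 from ⟨hc, hu⟩)]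
                    (clear * - g1 g3; linarith)
                  · by_cases hv : kap * cd F M β x < δ / 4
                    · rw [if_pos (show x.Coprime M ∧ kap * cd F M β x < δ / 4 from ⟨hc, hv⟩)]
                      (clear * - g1 g2; linarith)
                    · rw [if_pos (show x.Coprime M ∧ δ / 4 ≤ (M.totient : ℝ) / M * cd (FA z A) M β x ∧
                        δ / 4 ≤ cd (FA z A) 1 β x from ⟨hc, not_lt.1 hv, not_lt.1 hu⟩)]
                      (clear * - g2 g3; linarith)
              · rw [if_neg hc]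
                (clear * - g1 g2 g3; linarith)
            have hbig : kap * Z * δ / 3 ≤ ∑ x ∈ GG z A M β δ, kap * cd F M β x := by
              have e1 := mul_le_mul_of_nonneg_left hcd hkap0.le
              have e2 := mul_le_mul_of_nonneg_left hsm' hkap0.le
              rw [Finset.mul_sum] at e1 e2
              have hMM : (M : ℝ) * (δ / 4) ≤ δ / 100 * (kap * Z) := by
                have h1 : (M : ℝ) * 25 ≤ kap * Z := by
                  calc (M : ℝ) * 25 = 1 / M * (25 * (M : ℝ) ^ 2) := by (clear * - hM; field_simp)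
                    _ ≤ kap * Z := mul_le_mul hkapM a3 (by positivity) hkap0.le
                (clear * - hδ h1; nlinarith)
              have hkZ : 0 < kap * Z * δ := by positivity
              have e3 : kap * ((99 / 100) * (δ * Z * (99 / 100))) = (9801 / 10000) * (kap * Z * δ) := by
                ring
              have e4 : kap * ((101 / 100) * (δ / 4) * Z) = (101 / 400) * (kap * Z * δ) := by ring
              have e5 : (δ / 4) * (kap * Z + M) = (1 / 4) * (kap * Z * δ) + M * (δ / 4) := by ring
              have e6 : δ / 100 * (kap * Z) = (1 / 100) * (kap * Z * δ) := by ring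
              have e7 : kap * Z * δ / 3 = (1 / 3) * (kap * Z * δ) := by ring
              rw [e3] at e1
              rw [e4] at e2
              rw [e5] at hst
              rw [e6] at hMM
              rw [e7]
              (clear * - hst hdec e1 e2 hMM hkZ; linarith)
            -- the second moment
            have hsq : ∑ x ∈ GG z A M β δ, (kap * cd F M β x) ^ 2 ≤ C1 * (kap * Z) := by
              calc ∑ x ∈ GG z A M β δ, (kap * cd F M β x) ^ 2
                  ≤ ∑ x ∈ range (2 ^ z), (kap * cd F M β x) ^ 2 := by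
                    apply Finset.sum_le_sum_of_subset_of_nonneg (Finset.filter_subset _ _)
                    intro x _ _
                    (clear * -; positivity)
                _ = kap * Z * En z A M β := by
                    unfold En
                    rw [← hkap, ← hZ, ← hF]
                    simp_rw [mul_pow]
                    rw [← Finset.mul_sum]
                    (clear * - hZ0 hkap0; field_simp)
                _ ≤ kap * Z * C1 := mul_le_mul_of_nonneg_left hE (by positivity)
                _ = C1 * (kap * Z) := by ring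
            have hCS : (∑ x ∈ GG z A M β δ, kap * cd F M β x) ^ 2 ≤
                (GG z A M β δ).card * ∑ x ∈ GG z A M β δ, (kap * cd F M β x) ^ 2 :=
              sq_sum_le_card_mul_sum_sq
            have hkZ0 : 0 < kap * Z := by positivity
            have h9 : (kap * Z * δ / 3) ^ 2 ≤ (GG z A M β δ).card * (C1 * (kap * Z)) := by
              calc (kap * Z * δ / 3) ^ 2 ≤ (∑ x ∈ GG z A M β δ, kap * cd F M β x) ^ 2 :=
                    pow_le_pow_left₀ (by positivity) hbig 2
                _ ≤ _ := hCS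
                _ ≤ _ := mul_le_mul_of_nonneg_left hsq (Nat.cast_nonneg _)
            exact by
              have hC0 : 0 < C1 := by (clear * - hC1; linarith)
              have h10 : 1 / (9 * C1) * δ ^ 2 * kap * Z * (C1 * (kap * Z)) ≤
                  (GG z A M β δ).card * (C1 * (kap * Z)) := by
                calc 1 / (9 * C1) * δ ^ 2 * kap * Z * (C1 * (kap * Z)) = (kap * Z * δ / 3) ^ 2 := by
                      field_simp; ring
                  _ ≤ _ := h9
              exact le_of_mul_le_mul_right h10 (by positivity)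

end

end Pool.Agent.Helper57.NX3

end

section

set_option autoImplicit false

open Finset

open scoped BigOperators

namespace Pool.Agent.Helper57.NX3

noncomputable section

theorem main_fixed (ι ρ : Type) [Fintype ι] [Nonempty ι] [Fintype ρ] (δ : ℝ) (hδ : 0 < δ)
    (hδ1 : δ ≤ 1) :
    ∃ κ : ℝ, 0 < κ ∧ ∃ τ1 : ℝ, 0 < τ1 ∧ ∀ M M' : ℕ, 1 ≤ M → 1 ≤ M' → M ∣ M' →
    M'.primeFactors = M.primeFactors → ∀ θ : ℝ, 0 < θ → ∃ z0 : ℕ, ∀ z : ℕ, z0 ≤ z →
    ∀ A : Finset ℕ, PS z A → δ * ((2 : ℝ) ^ z / Real.log ((2 : ℝ) ^ z)) ≤ A.card →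
    ∀ β β1 : ℕ, β1 ≤ β → β ≤ z → ((2 : ℝ) ^ z) ^ θ ≤ 2 ^ β1 →
    En z A M' β1 + En z A 1 β1 ≤ En z A M β + En z A 1 β + κ →
    ∀ b v : ι → ℕ, (∀ i, β1 ≤ b i ∧ b i ≤ β ∧ M ∣ v i ∧
      (v i : ℝ) * ((2 : ℝ) ^ z) ^ θ ≤ 2 ^ β) →
    ∀ L w : ρ → ℕ, (∀ j, (w j : ℝ) * ((2 : ℝ) ^ z) ^ θ ≤ 2 ^ β ∧
      (L j : ℝ) * ((2 : ℝ) ^ z) ^ θ ≤ 2 ^ β ∧ 2 ^ β1 * ((2 : ℝ) ^ z) ^ θ ≤ L j) →
    τ1 ≤ (∑ x ∈ range (2 ^ z), (∏ i, cd (FA z A) M' (b i) (x + v i)) *
      ∏ j, AN (L j) (FA z A) (x + w j)) / 2 ^ z :=
  Helper82.NX3.main_fixed_of good_set en_mono bad_nat bad_real ι ρ δ hδ hδ1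

end

end Pool.Agent.Helper57.NX3

end

section

set_option autoImplicit false

open Finset

open scoped BigOperators

namespace Pool.Agent.Helper57.NX3

noncomputable section

/-- A chain of scales `β_j = z / Θ^(j+1)` and moduli `Ks j`: some step has a small energy
increment. -/
theorem scales (κ : ℝ) (hκ : 0 < κ) : ∃ J : ℕ, ∀ Θ : ℕ, 2 ≤ Θ → ∀ Ks : ℕ → ℕ, (∀ j, 1 ≤ Ks j) →
    ∃ z0 : ℕ, ∀ z : ℕ, z0 ≤ z → ∀ A : Finset ℕ, PS z A → ∃ j < J,
      En z A (Ks (j + 1)) (z / Θ ^ (j + 2)) + En z A 1 (z / Θ ^ (j + 2)) ≤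
        En z A (Ks j) (z / Θ ^ (j + 1)) + En z A 1 (z / Θ ^ (j + 1)) + κ :=
  scales_of (EnLe.en_le_of pair_sieve) κ hκ

end

end Pool.Agent.Helper57.NX3

end

section

set_option autoImplicit false

open Finset

open scoped BigOperators

namespace Pool.Agent.Helper57.NX3

open Pool.Agent.Helper57.NX (Sys Good form Adm ES0 exists_pos_lb)

open Pool.Agent.Helper67.NX2 (IsN sh nform IG Ex PrA BlkLen Fm)

noncomputable section

theorem pattern_mixed (hES : ES0) (hFR : FormRep) (hPMo : PrimesModel) {l : ℕ}
    (c : Fin (l + 1) → ℝ) (hc : Ex c) (hnat : ∃ i, IsN (c i)) (δ : ℝ) (hδ : 0 < δ) (N0 : ℕ) :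
    ∃ z0 : ℕ, ∀ z : ℕ, z0 ≤ z → ∀ A : Finset ℕ, PS z A →
    δ * ((2 : ℝ) ^ z / Real.log ((2 : ℝ) ^ z)) ≤ A.card →
    ∃ m ∈ A, ∃ n : ℕ, N0 ≤ n ∧ ∀ i, m + ⌊(n : ℝ) ^ c i⌋₊ ∈ A := by
  classical
  -- monotonicity of the exponents
  have hc0 : ∀ i, c 0 ≤ c i := by
    intro i
    rcases eq_or_lt_of_le (Fin.zero_le i) with h | h
    · rw [← h]
    · have := hc.gap 0 i h
      (clear * - this; linarith)
  have hcl : ∀ i, c i ≤ c (Fin.last l) := by
    intro i
    rcases eq_or_lt_of_le (Fin.le_last i) with h | h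
    · rw [h]
    · have := hc.gap i (Fin.last l) h
      linarith
  -- the natural exponents
  set Sn : Finset (Fin (l + 1)) := univ.filter fun i => IsN (c i) with hSn
  have hSne : 0 < Sn.card := by
    obtain ⟨i, hi⟩ := hnat
    exact Finset.card_pos.mpr ⟨i, Finset.mem_filter.mpr ⟨Finset.mem_univ i, hi⟩⟩
  obtain ⟨s, hs⟩ : ∃ s, Sn.card = s + 1 := ⟨Sn.card - 1, by omega⟩
  set em : Fin (s + 1) ↪o Fin (l + 1) := Sn.orderEmbOfFin hs with hem
  have hemN : ∀ j, IsN (c (em j)) := fun j =>
    (Finset.mem_filter.mp (Finset.orderEmbOfFin_mem Sn hs j)).2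
  choose d hd using hemN
  have hall : ∀ i, IsN (c i) → ∃ j, em j = i := by
    intro i hi
    have h1 : i ∈ Set.range em := by
      rw [hem, Finset.range_orderEmbOfFin]
      exact Finset.mem_coe.mpr (Finset.mem_filter.mpr ⟨Finset.mem_univ i, hi⟩)
    exact h1
  have hd2 : ∀ i, 2 ≤ d i := by
    intro i
    have h1 := hc.two (em i)
    rw [hd i] at h1
    exact_mod_cast h1
  have hgap : ∀ i j, i < j → d i + 2 ≤ d j := by
    intro i j hij
    have h1 := hc.gap (em i) (em j) (em.strictMono hij)
    rw [hd i, hd j] at h1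
    exact_mod_cast h1
  -- constants
  have hγ : 1 ≤ c 0 := by (clear * - hc; linarith [hc.two 0])
  have hγd : c 0 ≤ d 0 := by rw [← hd 0]; exact hc0 _
  obtain ⟨x1, hx1, HPM⟩ := hPMo s d hd2 hgap (c 0) (1 / 8) hγ hγd (by norm_num) le_rfl
  set xw := min x1 (1 / 8) with hxwdef
  have hxw : 0 < xw := lt_min hx1 (by norm_num)
  have hxw1 : xw ≤ 1 / 8 := min_le_right _ _
  have hxwx1 : xw ≤ x1 := min_le_left _ _
  obtain ⟨x0, hx0, σ1, hσ1, HFR⟩ := hFR (l + 1) c hc (xw / 8) (by positivity)
  set δ1 := min (δ / 2) 1 with hδ1def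
  have hδ1 : 0 < δ1 := lt_min (by positivity) one_pos
  obtain ⟨κ, hκ, τ1, hτ1, HMF⟩ := main_fixed (Option (Fin (s + 1)))
    {i : Fin (l + 1) // ¬ IsN (c i)} δ1 hδ1 (min_le_right _ _)
  obtain ⟨J, HJ⟩ := scales κ hκ
  set Γ := c (Fin.last l) with hΓdef
  have hΓ0 : 0 ≤ Γ := by (clear * - hxw hxw1 hc; linarith [hc.two (Fin.last l)])
  set Θ : ℕ := ⌈Γ⌉₊ + 3 with hΘdef
  have hΘ : Γ + 3 ≤ Θ := by
    rw [hΘdef]
    push_cast
    (clear * -; linarith [Nat.le_ceil Γ])
  have hΘ2 : 2 ≤ Θ := by omega
  set τ : ℝ := 1 / (2 * (Θ : ℝ) ^ (J + 2)) with hτdef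
  have hΘr : (1 : ℝ) ≤ Θ := by exact_mod_cast (by omega : 1 ≤ Θ)
  have hτ : 0 < τ := by (clear * -; positivity)
  have hτΘ : ∀ j < J, τ * (2 * Θ ^ (j + 2)) ≤ 1 := by
    intro j hj
    rw [hτdef, one_div, inv_mul_le_iff₀ (by (clear * -; positivity)), mul_one]
    refine mul_le_mul_of_nonneg_left ?_ (by norm_num)
    exact pow_le_pow_right₀ hΘr (by omega)
  obtain ⟨V, hV, HAN⟩ := prod_AN {i : Fin (l + 1) // ¬ IsN (c i)} τ hτ
  obtain ⟨z2, hAN⟩ := HAN (c 0) (1 / 8) (xw / 4) hγ (by positivity) (by (clear * - hxw hxw1; linarith)) (by norm_num)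
  obtain ⟨w0, Hw⟩ := HPM τ V (τ1 / 2) hτ hV (by (clear * - hτ1; positivity))
  -- the chain
  obtain ⟨Ks, hKs⟩ := exists_chain w0 (fun K K' => PMrel d (c 0) (1 / 8) x1 τ V (τ1 / 2) K K')
    (fun K hK hKw => Hw w0 le_rfl K hK (fun p hp hpK => (hKw p hp).mp hpK))
  obtain ⟨zS, hzS⟩ := HJ Θ hΘ2 Ks (fun j => (hKs j).1)
  -- one step
  have hstep : ∀ j, ∃ z0 : ℕ, j < J → ∀ z : ℕ, z0 ≤ z → ∀ A : Finset ℕ, PrA z A →
    δ1 * ((2 : ℝ) ^ z / Real.log ((2 : ℝ) ^ z)) ≤ A.card →
    En z A (Ks (j + 1)) (z / Θ ^ (j + 2)) + En z A 1 (z / Θ ^ (j + 2)) ≤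
      En z A (Ks j) (z / Θ ^ (j + 1)) + En z A 1 (z / Θ ^ (j + 1)) + κ →
    ∃ m ∈ A, ∃ n : ℕ, N0 ≤ n ∧ ∀ i, m + ⌊(n : ℝ) ^ c i⌋₊ ∈ A := by
    intro j
    by_cases hj : j < J
    swap
    · exact ⟨0, fun h => absurd h hj⟩
    obtain ⟨hK, hKw, hKK, z1, hPM⟩ := hKs j
    obtain ⟨hK', hKw', -, -⟩ := hKs (j + 1)
    have hpf : (Ks (j + 1)).primeFactors = (Ks j).primeFactors := by
      ext p
      rw [Nat.mem_primeFactors, Nat.mem_primeFactors]
      constructor
      · rintro ⟨hp, h1, -⟩
        exact ⟨hp, (hKw p hp).mpr ((hKw' p hp).mp h1), by omega⟩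
      · rintro ⟨hp, h1, -⟩
        exact ⟨hp, (hKw' p hp).mpr ((hKw p hp).mp h1), by omega⟩
    obtain ⟨D1, hFR1⟩ := HFR (Ks j)
    -- fractional parts
    have hfr : ∀ i : Fin (l + 1), ∃ C : ℝ, 0 < C ∧ ∃ σ : ℝ, 0 < σ ∧ ∃ D0 : ℝ, ¬ IsN (c i) →
        ∀ D : ℕ, D0 ≤ D → ∀ η : ℝ, 0 < η → η ≤ 1 →
        (#((Ico D (D + D)).filter fun k : ℕ =>
          1 - η ≤ Int.fract (((Ks j * k : ℕ) : ℝ) ^ c i)) : ℝ) ≤ C * (η + (D : ℝ) ^ (-σ)) * D := by
      intro i
      by_cases hi : IsN (c i)
      · exact ⟨1, one_pos, 1, one_pos, 0, fun h => absurd hi h⟩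
      · obtain ⟨C, hC, σ, hσ, D0, h⟩ := frac_mult hES (c i) (by (clear * - hxw hxw1 hc; linarith [hc.two i]))
          (fun n hn => hi ⟨n, hn⟩) (Ks j) hK
        exact ⟨C, hC, σ, hσ, D0, fun _ => h⟩
    choose Ci hCi σi hσi Di HF using hfr
    obtain ⟨σ2, hσ2, hσ21, hσ2i⟩ := exists_pos_lb σi hσi
    -- freezing
    have hfz := fun i : Fin (l + 1) => freeze_real (Ks j) hK (c i) (by (clear * - hxw hxw1 hc; linarith [hc.two i]))
      (xw / 2) (by (clear * - hx1; positivity))
    choose Fi HFi using hfz
    obtain ⟨z3, hMF⟩ := HMF (Ks j) (Ks (j + 1)) hK hK' hKK hpf (τ / 2) (by (clear * -; positivity))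
    have hsumle : ∀ (g : Fin (l + 1) → ℝ) (i : Fin (l + 1)), g i ≤ ∑ i, |g i| := fun g i =>
      (le_abs_self _).trans (Finset.single_le_sum (f := fun i => |g i|)
        (fun j _ => abs_nonneg _) (Finset.mem_univ i))
    have hmain := step_pattern c hc hc0 d em em.injective hd hall (Ks j) (Ks (j + 1)) hK hK' hKK hpf
      xw hxw hxw1 τ V τ1 κ δ1 hτ hτ1 Θ j hΘ2 Γ hΓ0 hcl hΘ (hτΘ j hj) N0 x0 σ1 (max D1 1) hx0 hσ1
      (fun S N _ hD hIG => hFR1 S N ((le_max_left _ _).trans hD) hIG)
      σ2 hσ2 (∑ i, |Ci i|) (max (∑ i, |Di i|) 1) (Finset.sum_nonneg fun i _ => abs_nonneg _)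
      (by
        intro i hi D hD η hη hη1
        have hD1 : (1 : ℝ) ≤ D := (le_max_right _ _).trans hD
        refine (HF i hi D ((hsumle Di i).trans ((le_max_left _ _).trans hD)) η hη hη1).trans ?_
        have h1 : (D : ℝ) ^ (-σi i) ≤ (D : ℝ) ^ (-σ2) :=
          Real.rpow_le_rpow_of_exponent_le hD1 (by (clear * - hσ2i; linarith [hσ2i i]))
        have h2 := hsumle Ci i
        have h3 : (0 : ℝ) ≤ (D : ℝ) ^ (-σi i) := by (clear * - hD1; positivity)
        have h4 := hCi i
        (clear * - h2 h1 hη hD1; gcongr))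
      (∑ i, |Fi i|)
      (by
        intro i D u T Q B hD hu huT hT hQ hB
        exact HFi i D u T Q B ((hsumle Fi i).trans hD) hu huT hT hQ hB)
      z1
      (by
        intro z hz A hA D u T h1 h2 h3 h4 h5 G hG1 hG2 b hb
        refine hPM z hz A hA D u T h1 h2 h3 h4 (le_trans ?_ h5) G hG1 hG2 b hb
        have hD1 : (1 : ℝ) ≤ D := by
          refine le_trans ?_ h1
          exact Real.one_le_rpow (by norm_num) (by (clear * -; positivity))
        exact Real.rpow_le_rpow_of_exponent_le hD1 (by (clear * - hxwx1; linarith)))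
      z2 hAN z3 hMF
    obtain ⟨z0, hz0⟩ := hmain
    exact ⟨z0, fun _ => hz0⟩
  choose Zs hZs using hstep
  obtain ⟨zP, hzP⟩ := small_primes δ hδ
  refine ⟨max (max zS zP) (∑ j ∈ range J, Zs j), fun z hz A hA hcard => ?_⟩
  have hzS' : zS ≤ z := (le_max_left _ _).trans ((le_max_left _ _).trans hz)
  have hzP' : zP ≤ z := (le_max_right _ _).trans ((le_max_left _ _).trans hz)
  have hzZ : ∑ j ∈ range J, Zs j ≤ z := (le_max_right _ _).trans hz
  set A' := A.filter fun p => 2 ^ z ≤ p ^ 2 with hA'
  have hA'P : PrA z A' := by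
    intro p hp
    rw [hA', Finset.mem_filter] at hp
    exact ⟨(hA p hp.1).1, (hA p hp.1).2, hp.2⟩
  have hA'S : PS z A' := fun p hp => hA p (Finset.mem_filter.mp hp).1
  obtain ⟨j, hj, hE⟩ := hzS z hzS' A' hA'S
  have hcard' := hzP z hzP' A hA hcard
  have hX0 : 0 ≤ (2 : ℝ) ^ z / Real.log ((2 : ℝ) ^ z) := by
    have : 0 ≤ Real.log ((2 : ℝ) ^ z) := Real.log_nonneg (one_le_pow₀ (by norm_num))
    (clear * - this; positivity)
  obtain ⟨m, hm, n, hn, hall'⟩ := hZs j hj z
    ((Finset.single_le_sum (f := Zs) (fun _ _ => Nat.zero_le _) (Finset.mem_range.mpr hj)).trans hzZ)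
    A' hA'P (by
      refine le_trans ?_ hcard'
      exact mul_le_mul_of_nonneg_right (min_le_left _ _) hX0) hE
  exact ⟨m, (Finset.mem_filter.mp hm).1, n, hn, fun i => (Finset.mem_filter.mp (hall' i)).1⟩

end

end Pool.Agent.Helper57.NX3

end
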