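import Pool.Agent.Helper23.MC.L01_a1
import Pool.Agent.Helper23.MC.L01_a11
import Pool.Agent.Helper23.MC.L01_a13
import Pool.Agent.Helper23.MC.L01_a2
import Pool.Agent.Helper23.MC.L01_a4
import Pool.Agent.Helper23.MC.L01_a8

/-!
Parts of Helper82.NX.GncA, Helper82.NX.GncB, Helper5.NX.PhiBasics, Helper94.NX2.Round, Helper51.NX.Sweep, Helper91.NX2.GncAux, Helper45.NX.Round, Helper82.NX2.GncCore, Helper92.NX2.Pars
-/

attribute [local instance 5000]
  Pool.Agent.Helper23.MC.Inst.rCharZero Pool.Agent.Helper23.MC.Inst.rALM
  Pool.Agent.Helper23.MC.Inst.rARM Pool.Agent.Helper23.MC.Inst.rALSM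
  Pool.Agent.Helper23.MC.Inst.rARSM Pool.Agent.Helper23.MC.Inst.rARRLE
  Pool.Agent.Helper23.MC.Inst.rALRLE Pool.Agent.Helper23.MC.Inst.rARRLT
  Pool.Agent.Helper23.MC.Inst.rALRLT Pool.Agent.Helper23.MC.Inst.rPMRLT
  Pool.Agent.Helper23.MC.Inst.rMPRLT Pool.Agent.Helper23.MC.Inst.rPMM
  Pool.Agent.Helper23.MC.Inst.rMPM Pool.Agent.Helper23.MC.Inst.rPMSM
  Pool.Agent.Helper23.MC.Inst.rMPSM Pool.Agent.Helper23.MC.Inst.rEAOL
  Pool.Agent.Helper23.MC.Inst.rIOR Pool.Agent.Helper23.MC.Inst.rISOR
  Pool.Agent.Helper23.MC.Inst.rNZD Pool.Agent.Helper23.MC.Inst.rcCharZero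
  Pool.Agent.Helper23.MC.Inst.rcNZD Pool.Agent.Helper23.MC.Inst.zCharZero
  Pool.Agent.Helper23.MC.Inst.zALM Pool.Agent.Helper23.MC.Inst.zARM
  Pool.Agent.Helper23.MC.Inst.zALSM Pool.Agent.Helper23.MC.Inst.zARSM
  Pool.Agent.Helper23.MC.Inst.zIOR Pool.Agent.Helper23.MC.Inst.zISOR
  Pool.Agent.Helper23.MC.Inst.zNZD Pool.Agent.Helper23.MC.Inst.qCharZero
  Pool.Agent.Helper23.MC.Inst.mR Pool.Agent.Helper23.MC.Inst.mC Pool.Agent.Helper23.MC.Inst.mRC
  Pool.Agent.Helper23.MC.Inst.rPSM Pool.Agent.Helper23.MC.Inst.rCSM
  Pool.Agent.Helper23.MC.Inst.cAdd Pool.Agent.Helper23.MC.Inst.cAddM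
  Pool.Agent.Helper23.MC.Inst.cMul Pool.Agent.Helper23.MC.Inst.cMon

namespace Pool.Agent.Helper57.NX
end Pool.Agent.Helper57.NX
namespace Pool.Agent.Helper67.NX2
end Pool.Agent.Helper67.NX2
namespace Pool.Agent.Helper82.NX
end Pool.Agent.Helper82.NX

section

set_option autoImplicit false

open Finset

open scoped BigOperators ComplexConjugate

namespace Pool.Agent.Helper82.NX

open Pool.Agent.Helper57.NX

noncomputable section

/-- the statement of NX-25 -/
def RoundS : Prop := ∀ {m : ℕ} (c : Fin m → ℝ) (γ : ℝ), γ ≠ 0 → ∀ (R s : ℕ), ∃ ν : ℕ, ∀ n B : ℕ,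
    ∃ n' : ℕ, ∀ (S : Sys m) (N : ℕ) [NeZero N] (δ Y lam w : ℝ) (M : ℕ), Env S N δ M R w n' →
      0 < lam → Y + ν * M ≤ 3 * S.D →
      ∀ (fs : ZMod N → ℂ) (g0 : Phi m) (t : List ((ZMod N → ℂ) × Phi m)), t.length ≤ s →
        Adm (δ⁻¹ ^ n) S.Q fs → (∀ fp ∈ t, Adm (δ⁻¹ ^ n) S.Q fp.1) →
        Clu S c δ M n (B + ν) (Y + ν * M) γ lam w g0 (t.map Prod.snd) →
        δ ^ n ≤ ‖lform S c 1 ((fs, g0) :: t)‖ →
        ∃ (g0' : Phi m) (t' : List ((ZMod N → ℂ) × Phi m)),
          (∀ fp ∈ t', fp.1 = fs ∨ fp.1 = fun x => conj (fs x)) ∧ t'.length ≤ 2 ^ ν ∧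
          Clu S c δ M n' B Y (γ - 1) (lam * M / S.D) w g0' (t'.map Prod.snd) ∧
          δ ^ n' ≤ ‖lform S c 1 ((fs, g0') :: t')‖

/-- the statement of NX-27 -/
def SweepS : Prop := ∀ (γ : ℝ), γ ≠ 0 → ∀ (n : ℕ), ∃ n' : ℕ, ∀ (m : ℕ) (S : Sys m)
    (c : Fin m → ℝ)
    (N : ℕ) [NeZero N] (δ Y lam w X : ℝ) (M R K : ℕ), Env S N δ M R w n' → 0 < lam →
    5 / 2 * S.D ≤ Y → Y ≤ 3 * S.D →
    ∀ (fs : ZMod N → ℂ) (g0 : Phi m) (t : List ((ZMod N → ℂ) × Phi m)),
      Adm (δ⁻¹ ^ n) X fs → (∀ fp ∈ t, fp.1 = fs ∨ fp.1 = fun x => conj (fs x)) →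
      Clu S c δ M n 2 Y γ lam w g0 (t.map Prod.snd) → n * (M : ℝ) ≤ S.D / 4 →
      δ ^ n ≤ ‖lform S c 1 ((fs, g0) :: t)‖ →
      δ⁻¹ ^ n' ≤ K → (K : ℝ) ≤ δ ^ n' * S.T → lam * (K / S.D) ^ 2 ≤ δ ^ n' * X →
      lam / S.D ≤ δ ^ n' * X → 1 ≤ δ ^ n' * X → X ≤ N → X ≤ δ ^ n' * (lam * (K / S.D)) →
      ∀ X1 : ℕ, 1 ≤ X1 → (X1 : ℝ) ≤ δ ^ n' * (lam * (K / S.D)) →
        δ ^ n' ≤ Box t.length X1 fs

section Mono

variable {m : ℕ} {S : Sys m} {c : Fin m → ℝ} {δ : ℝ} {M : ℕ}

theorem Env.mono {N R n n' : ℕ} {w : ℝ} (hE : Env S N δ M R w n') (h : n ≤ n') :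
    Env S N δ M R w n where
  ρ0 := hE.ρ0
  ρ1 := hE.ρ1
  D1 := hE.D1
  δ0 := hE.δ0
  δ1 := hE.δ1
  u1 := hE.u1
  u2 := hE.u2
  MT := hE.MT.trans (mul_le_mul_of_nonneg_right
    (pow_anti hE.δ0 (hE.δ1.trans (by norm_num)) h) (Nat.cast_nonneg _))
  M1 := (inv_pow_mono hE.δ0 (hE.δ1.trans (by norm_num)) h).trans hE.M1
  MD := hE.MD
  w1 := hE.w1.trans (pow_anti hE.δ0 (hE.δ1.trans (by norm_num)) h)
  P0 := hE.P0
  PR := hE.PR
  wQ := hE.wQ
  QN := hE.QN

theorem Bd.mono' {n n' : ℕ} {p : Phi m} (h : Bd M n p) (hn : n ≤ n') : Bd M n' p :=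
  ⟨h.1.trans hn, fun s hs => ⟨(h.2 s hs).1.trans hn, (h.2 s hs).2⟩⟩

theorem Clu.mono' {n n' B : ℕ} {Y γ lam w : ℝ} {g0 : Phi m} {t : List (Phi m)} (h0 : 0 < δ)
    (h1 : δ ≤ 1) (hD : 0 < S.D) (hl : 0 ≤ lam) (hw : 0 ≤ w)
    (h : Clu S c δ M n B Y γ lam w g0 t) (hn : n ≤ n') : Clu S c δ M n' B Y γ lam w g0 t where
  g := fun g hg => Tp.mono' h0 h1 hD hl hw (h.g g hg) hn
  b0 := Bd.mono' h.b0 hn
  bt := fun g hg => Bd.mono' (h.bt g hg) hn
  ne := h.ne
  le := h.le.trans hn

end Mono

/-- `j` rounds. -/
theorem rounds (hR : RoundS) {m : ℕ} (c : Fin m → ℝ) (γ : ℝ) (R : ℕ) (j : ℕ)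
    (hγ : ∀ i : ℕ, i < j → γ - i ≠ 0) (s : ℕ) : ∃ ν s' : ℕ, ∀ n B : ℕ,
    ∃ n' : ℕ, n ≤ n' ∧ ∀ (S : Sys m) (N : ℕ) [NeZero N] (δ Y lam w : ℝ) (M : ℕ),
      Env S N δ M R w n' → 0 < S.Q → 0 ≤ w →
      0 < lam → Y + ν * M ≤ 3 * S.D →
      ∀ (fs : ZMod N → ℂ) (g0 : Phi m) (t : List ((ZMod N → ℂ) × Phi m)), t.length ≤ s →
        Adm (δ⁻¹ ^ n) S.Q fs → (∀ fp ∈ t, Adm (δ⁻¹ ^ n) S.Q fp.1) →
        Clu S c δ M n (B + ν) (Y + ν * M) γ lam w g0 (t.map Prod.snd) →
        δ ^ n ≤ ‖lform S c 1 ((fs, g0) :: t)‖ →
        ∃ (g0' : Phi m) (t' : List ((ZMod N → ℂ) × Phi m)),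
          (∀ fp ∈ t', Adm (δ⁻¹ ^ n) S.Q fp.1) ∧
          (1 ≤ j → ∀ fp ∈ t', fp.1 = fs ∨ fp.1 = fun x => conj (fs x)) ∧ t'.length ≤ s' ∧
          Clu S c δ M n' B Y (γ - j) (lam * (M / S.D) ^ j) w g0' (t'.map Prod.snd) ∧
          δ ^ n' ≤ ‖lform S c 1 ((fs, g0') :: t')‖ := by
  induction j with
  | zero =>
    refine ⟨0, s, fun n B => ⟨n, le_rfl, ?_⟩⟩
    intro S N _ δ Y lam w M hE hQ hw hlam hY fs g0 t hts hfs ht hC hl
    refine ⟨g0, t, ht, fun h => absurd h (by norm_num), hts, ?_, hl⟩
    simpa using hC
  | succ j ih =>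
    obtain ⟨ν₁, s₁, h₁⟩ := ih fun i hi => hγ i (by omega)
    obtain ⟨ν₂, h₂⟩ := hR c (γ - j) (hγ j (by omega)) R s₁
    refine ⟨ν₁ + ν₂, 2 ^ ν₂, fun n B => ?_⟩
    obtain ⟨n₁, hn₁, h₁⟩ := h₁ n (B + ν₂)
    obtain ⟨n₂, h₂⟩ := h₂ n₁ B
    refine ⟨max n₁ n₂, hn₁.trans (le_max_left _ _), ?_⟩
    intro S N _ δ Y lam w M hE hQ hw hlam hY fs g0 t hts hfs ht hC hl
    have hD : 0 < S.D := lt_of_lt_of_le one_pos hE.D1
    have hδ1 : δ ≤ 1 := hE.δ1.trans (by norm_num)
    have hQ' : (0 : ℝ) < S.Q := by exact_mod_cast hQ
    have hMpos : (0 : ℝ) < M := lt_of_lt_of_le (pow_pos (inv_pos.mpr hE.δ0) _) hE.M1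
    have e1 : Y + ν₂ * M + ν₁ * M = Y + ((ν₁ + ν₂ : ℕ) : ℝ) * M := by push_cast; ring
    have e2 : B + ν₂ + ν₁ = B + (ν₁ + ν₂) := by omega
    obtain ⟨g1, t1, a1, _, a3, a4, a5⟩ := h₁ S N δ (Y + ν₂ * M) lam w M
      (Env.mono hE (le_max_left _ _)) hQ hw hlam (by rw [e1]; exact hY) fs g0 t hts hfs ht
      (by rw [e1, e2]; exact hC) hl
    have hlam1 : 0 < lam * (M / S.D) ^ j := by positivity
    have hY2 : Y + ν₂ * M ≤ 3 * S.D := by
      refine le_trans ?_ hY
      push_cast
      have : (0 : ℝ) ≤ ν₁ * M := by positivity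
      linarith
    have hfs1 : Adm (δ⁻¹ ^ n₁) S.Q fs := Adm.mono' hfs hQ' (inv_pow_mono hE.δ0 hδ1 hn₁)
    obtain ⟨g2, t2, b1, b2, b3, b4⟩ := h₂ S N δ Y (lam * (M / S.D) ^ j) w M
      (Env.mono hE (le_max_right _ _)) hlam1 hY2 fs g1 t1 a3 hfs1
      (fun fp hfp => Adm.mono' (a1 fp hfp) hQ' (inv_pow_mono hE.δ0 hδ1 hn₁)) a4 a5
    have e3 : lam * (M / S.D) ^ j * M / S.D = lam * (M / S.D) ^ (j + 1) := by
      rw [pow_succ]; ring
    have e4 : γ - (j : ℝ) - 1 = γ - ((j + 1 : ℕ) : ℝ) := by push_cast; ring
    rw [e3, e4] at b3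
    refine ⟨g2, t2, ?_, fun _ => b1, b2, ?_, ?_⟩
    · intro fp hfp
      rcases b1 fp hfp with h | h
      · rw [h]; exact hfs
      · rw [h]; exact Adm.conj' hfs
    · exact Clu.mono' hE.δ0 hδ1 hD (by positivity) hw b3 (le_max_right _ _)
    · exact (pow_anti hE.δ0 hδ1 (le_max_right _ _)).trans b4

/-- The form as a form of a list. -/
theorem form_eq_lform {m N : ℕ} [NeZero N] (S : Sys (m + 1)) (c : Fin (m + 1) → ℝ)
    (f0 : ZMod N → ℂ) (f : Fin (m + 1) → ZMod N → ℂ) :
    form S c 1 f0 f = lform S c 1 ((f (Fin.last m), Finsupp.single ([], Fin.last m) 1) ::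
      (f0, 0) :: List.ofFn fun i : Fin m =>
        (f i.castSucc, (Finsupp.single (([] : List ℕ), i.castSucc) (1 : ℤ) : Phi (m + 1)))) := by
  unfold form lform
  refine Finset.expect_congr rfl fun k _ => ?_
  rw [Pi.one_apply, one_mul]
  refine Finset.expect_congr rfl fun x _ => ?_
  have h1 : ∀ i, ev (S.a c) (Finsupp.single (([] : List ℕ), i) (1 : ℤ)) k = S.a c i k := by
    intro i
    simp [ev, dl]
  have h2 : ev (S.a c) (0 : Phi (m + 1)) k = 0 := by simp [ev]
  rw [Pi.one_apply, one_mul, List.map_cons, List.map_cons, List.prod_cons, List.prod_cons,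
    List.map_ofFn, List.prod_ofFn, Fin.prod_univ_castSucc]
  simp only [Function.comp, h1, h2, Int.cast_zero, add_zero]
  ring

end

end Pool.Agent.Helper82.NX

end

section

set_option autoImplicit false

open Finset

open scoped BigOperators ComplexConjugate

namespace Pool.Agent.Helper82.NX

open Pool.Agent.Helper57.NX

noncomputable section

theorem Bd_single' {m : ℕ} (M n : ℕ) (hn : 1 ≤ n) (i : Fin m) :
    Bd M n (Finsupp.single (([] : List ℕ), i) (1 : ℤ)) := by
  have h1 : (Finsupp.single (([] : List ℕ), i) (1 : ℤ)).support = {(([] : List ℕ), i)} :=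
    Finsupp.support_single_ne_zero _ one_ne_zero
  refine ⟨?_, ?_⟩
  · rw [h1, Finset.sum_singleton, Finsupp.single_eq_same]
    exact hn
  · intro s hs
    rw [h1, Finset.mem_singleton] at hs
    subst hs
    exact ⟨Nat.zero_le _, fun h hh => absurd hh (List.not_mem_nil)⟩

theorem Bd_zero' {m : ℕ} (M n : ℕ) : Bd M n (0 : Phi m) := by
  refine ⟨by simp, by simp⟩

theorem init_clu {m : ℕ} (c : Fin (m + 1) → ℝ) (B : ℕ) : ∃ C0 : ℝ, 0 ≤ C0 ∧
    ∀ S : Sys (m + 1), 1 ≤ S.D → 0 ≤ S.ρ → S.ρ ≤ 1 → ∀ (δ : ℝ) (M : ℕ) (Y w : ℝ), 0 < δ → δ ≤ 1 →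
      Y ≤ 4 * S.D → 0 ≤ w → 0 ≤ S.P (Fin.last m) →
      (∀ i : Fin m, 0 ≤ S.P i.castSucc ∧ C0 * S.P i.castSucc ≤ S.P (Fin.last m) * w) →
      Clu S c δ M (m + 1) B Y (c (Fin.last m)) (S.P (Fin.last m)) w
        (Finsupp.single ([], Fin.last m) 1)
        (0 :: List.ofFn fun i : Fin m =>
          (Finsupp.single (([] : List ℕ), i.castSucc) (1 : ℤ) : Phi (m + 1))) := by
  refine ⟨∑ i : Fin m, ∑ b ∈ range (B + 1), |ff (c i.castSucc) b| * 5 ^ |c i.castSucc - b|,
    Finset.sum_nonneg fun i _ => Finset.sum_nonneg fun b _ => by positivity, ?_⟩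
  intro S hD hρ0 hρ1 δ M Y w hδ0 hδ1 hY hw hP hPi
  have hD0 : 0 < S.D := lt_of_lt_of_le one_pos hD
  have hinv : 1 ≤ δ⁻¹ ^ (m + 1) := one_le_pow₀ (one_le_inv_iff₀.mpr ⟨hδ0, hδ1⟩)
  have hpow : δ ^ (m + 1) ≤ 1 := pow_le_one₀ hδ0.le hδ1
  -- the typing
  have key : ∀ g : Phi (m + 1), (∀ b ≤ B, ∀ y : ℝ, S.D ≤ y → y ≤ Y →
      |jet S c b g y| ≤ S.P (Fin.last m) * w / S.D ^ b) →
      Tp S c δ (m + 1) B Y (c (Fin.last m)) (S.P (Fin.last m)) w
        (g - Finsupp.single ([], Fin.last m) 1) := by
    intro g hg
    refine ⟨-S.P (Fin.last m), ?_, ?_, ?_⟩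
    · rw [abs_neg, abs_of_nonneg hP]
      exact mul_le_of_le_one_left hP hpow
    · rw [abs_neg, abs_of_nonneg hP]
      exact le_mul_of_one_le_left hP hinv
    · intro b hb y h1 h2
      rw [jet_sub', jet_single']
      have e : jet S c b g y - S.P (Fin.last m) * mdl S (c (Fin.last m)) b y -
          -S.P (Fin.last m) * mdl S (c (Fin.last m)) b y = jet S c b g y := by ring
      rw [e]
      refine (hg b hb y h1 h2).trans (div_le_div_of_nonneg_right ?_ (pow_pos hD0 b).le)
      rw [mul_assoc]
      exact le_mul_of_one_le_left (mul_nonneg hP hw) hinv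
  refine ⟨?_, Bd_single' _ _ (by omega) _, ?_, by simp, by simp⟩
  · intro g hg
    exact by
      rw [List.mem_cons, List.mem_ofFn] at hg
      rcases hg with rfl | ⟨i, rfl⟩
      · refine key 0 fun b _ y _ _ => ?_
        rw [jet_zero', abs_zero]
        positivity
      · refine key _ fun b hb y h1 h2 => ?_
        rw [jet_single', abs_mul, abs_of_nonneg (hPi i).1]
        have h3 := mdl_bound' S (c i.castSucc) b hD hρ0 hρ1 y h1 (h2.trans hY)
        have h4 : |ff (c i.castSucc) b| * 5 ^ |c i.castSucc - b| ≤
            ∑ i : Fin m, ∑ b ∈ range (B + 1), |ff (c i.castSucc) b| * 5 ^ |c i.castSucc - b| := by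
          refine le_trans ?_ (Finset.single_le_sum (f := fun i : Fin m =>
            ∑ b ∈ range (B + 1), |ff (c i.castSucc) b| * 5 ^ |c i.castSucc - (b : ℝ)|)
            (fun j _ => Finset.sum_nonneg fun b _ => by positivity) (Finset.mem_univ i))
          exact Finset.single_le_sum (f := fun b : ℕ =>
            |ff (c i.castSucc) b| * 5 ^ |c i.castSucc - (b : ℝ)|)
            (fun b _ => by positivity) (Finset.mem_range.mpr (by omega))
        calc S.P i.castSucc * |mdl S (c i.castSucc) b y|
            ≤ S.P i.castSucc * (|ff (c i.castSucc) b| * 5 ^ |c i.castSucc - b| / S.D ^ b) :=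
              mul_le_mul_of_nonneg_left h3 (hPi i).1
          _ = (|ff (c i.castSucc) b| * 5 ^ |c i.castSucc - b|) * S.P i.castSucc / S.D ^ b := by ring
          _ ≤ _ := by
              refine div_le_div_of_nonneg_right ?_ (pow_pos hD0 b).le
              exact (mul_le_mul_of_nonneg_right h4 (hPi i).1).trans (hPi i).2
  · intro g hg
    rw [List.mem_cons, List.mem_ofFn] at hg
    rcases hg with rfl | ⟨i, rfl⟩
    · exact Bd_zero' _ _
    · exact Bd_single' _ _ (by omega) _

end

end Pool.Agent.Helper82.NX

end

section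

set_option autoImplicit false

open Finset

open scoped BigOperators ComplexConjugate

namespace Pool.Agent.Helper57.NX

noncomputable section

section PhiBasics

variable {m : ℕ}

theorem ev_sub (a : Fin m → ℕ → ℤ) (p q : Phi m) (k : ℕ) :
    ev a (p - q) k = ev a p k - ev a q k := by
  have h := ev_add5 a (p - q) q k
  rw [sub_add_cancel] at h
  (clear * - h; linarith)

end PhiBasics

end

end Pool.Agent.Helper57.NX

end

section

set_option autoImplicit false

open Finset

open scoped BigOperators ComplexConjugate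

namespace Pool.Agent.Helper67.NX2

open Pool.Agent.Helper57.NX

noncomputable section

theorem r94_TG_mono {m M : ℕ} {S : Sys m} {c : Fin m → ℝ} {δ Y Y' γ lam w : ℝ}
    {n n' B B' : ℕ} {Lq Lg Lq' : List (Phi m)} (h : TG S c δ M n B Y γ lam w Lq Lg)
    (h0 : 0 < δ) (h1 : δ ≤ 1 / 2)
    (hD : 0 < S.D)
    (hl : 0 ≤ lam) (hw : 0 ≤ w) (hn : n ≤ n') (hB : B' ≤ B) (hY : Y' ≤ Y)
    (hs : List.Sublist Lq' Lq) :
    TG S c δ M n' B' Y' γ lam w Lq' Lg where
  q := fun g hg p hp => by
    refine r94_Tp_mono (h.q g hg p ?_) h0 h1 hD hl hw hn hB hY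
    rcases List.mem_cons.1 hp with h2 | h2
    · exact List.mem_cons.2 (Or.inl h2)
    · exact List.mem_cons.2 (Or.inr (hs.subset h2))
  g := fun g0 t ht g hg => r94_Tp_mono (h.g g0 t ht g hg) h0 h1 hD
    (by (clear * - hl hD; positivity)) hw hn hB hY
  bq := fun p hp => (h.bq p (hs.subset hp)).mono hn
  bg := fun p hp => (h.bg p hp).mono hn
  lq := (hs.length_le.trans h.lq).trans hn
  lg := h.lg.trans hn
  ne := h.ne

theorem r94_lform_frame {m N : ℕ} [NeZero N] (S : Sys m) (c : Fin m → ℝ)
    (f : ZMod N → ℂ) (q : Phi m) (L : List ((ZMod N → ℂ) × Phi m)) :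
    lform S c 1 ((f, q) :: L) = lform S c f (L.map (fun fp => (fp.1, fp.2 - q))) := by
  unfold lform
  refine Finset.expect_congr rfl fun k _ => ?_
  rw [← expect_shift _ (-(ev (S.a c) q k : ZMod N))]
  refine Finset.expect_congr rfl fun x _ => ?_
  simp only [Pi.one_apply, one_mul, List.map_cons, List.prod_cons, List.map_map,
    neg_add_cancel_right]
  congr 2
  refine List.map_congr_left fun fp _ => ?_
  simp only [Function.comp]
  rw [ev_sub, Int.cast_sub, ← add_sub_assoc, sub_eq_add_neg, add_right_comm]

theorem r94_Concl_mono {m N M R : ℕ} [NeZero N] {S : Sys m} {c : Fin m → ℝ}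
    {δ Y Y' γ lam w : ℝ} {n n' B B' b l l' : ℕ} {fs : ZMod N → ℂ}
    (h : Concl S c δ M n B Y γ lam w b fs l) (hE : Env S N δ M R w n')
    (hl : 0 ≤ lam) (hw : 0 ≤ w) (hn : n ≤ n') (hB : B' ≤ B) (hY : Y' ≤ Y) (hll : l ≤ l') :
    Concl S c δ M n' B' Y' γ lam w b fs l' := by
  obtain ⟨g0', t', h1, h2, h3, h5, h4⟩ := h
  have hD : 0 < S.D := by (clear * - hE; linarith [hE.D1])
  refine ⟨g0', t', h1, h2.trans hll, r94_Clu_mono h3 hE.δ0 hE.δ1 hD (by (clear * - hl hD; positivity)) hw hn hB hY,
    h5, (r94_pow_anti hE.δ0 hE.δ1 hn).trans h4⟩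

/-- the last step -/
theorem r94_final (γ : ℝ) (hγ : γ ≠ 0) (n B : ℕ) : ∃ n' : ℕ, n ≤ n' ∧
    ∀ (m : ℕ) (c : Fin m → ℝ) (R : ℕ) (S : Sys m) (N : ℕ) [NeZero N] (δ Y lam w : ℝ) (M : ℕ),
      Env S N δ M R w n' → 0 < lam → Y ≤ 3 * S.D →
      ∀ (fs F0 : ZMod N → ℂ) (g0 : Phi m) (tg : List ((ZMod N → ℂ) × Phi m)),
        (∀ x, ‖fs x‖ ≤ 1) → (∀ x, ‖F0 x‖ ≤ 1) →
        (∀ fp ∈ tg, fp.1 = fs ∨ fp.1 = fun x => conj (fs x)) →
        TG S c δ M n (B + 1) (Y + M) γ lam w [] (g0 :: tg.map Prod.snd) →
        ∀ b : ℕ, InvV b [] g0 tg →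
        δ ^ n ≤ ‖lform S c F0 ((fs, g0) :: tg)‖ →
        Concl S c δ M n' B Y γ lam w b fs (2 * (tg.length + 1)) := by
  obtain ⟨n1, hn1, H⟩ := type_final γ hγ n B
  refine ⟨n1 + 2 * n + 6, by omega, ?_⟩
  intro m c R S N _ δ Y lam w M hE hlam hY fs F0 g0 tg hfs hF0 htg hTG b hV hδ
  have hδ0 := hE.δ0
  have hδ1 := hE.δ1
  have hE1 : Env S N δ M R w n1 := r94_Env_mono hE (by omega)
  obtain ⟨Bad, hBad, hB2⟩ := H m S c δ Y lam w M hE.D1 hE.ρ0 hE.ρ1 hδ0 hδ1 hlam hE1.M1 hE1.MD
    hE1.w1 hY g0 (tg.map Prod.snd) hTG
  obtain ⟨s1, s2, s3, s4⟩ := r94_step_sizes (r94_Env_mono hE (show 2 * n + 6 ≤ n1 + 2 * n + 6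
    by (clear * - hn1; omega)))
  have htg' : ∀ fp ∈ tg, ∀ x, ‖fp.1 x‖ ≤ 1 := by
    intro fp hfp x
    rcases htg fp hfp with h | h
    · rw [h]; exact hfs x
    · rw [h]; simpa using hfs x
  obtain ⟨s, hs1, hs2, hs3, hs4⟩ := lform_step S c M (δ ^ n) s1 s2 F0 hF0 ((fs, g0) :: tg)
    (by
      intro fp hfp x
      rcases List.mem_cons.1 hfp with h | h
      · rw [h]; exact hfs x
      · exact htg' fp h x) s3 s4 Bad (by rw [← pow_mul, mul_comm n 2]; exact hBad) 0 hδ
  refine ⟨g0, tg ++ ((fs, g0) :: tg).map (fun fp => ((fun x => conj (fp.1 x)), tau s fp.2)),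
    ?_, ?_, ?_, ?_, ?_⟩
  · intro fp hfp
    rcases List.mem_append.1 hfp with h | h
    · exact htg fp h
    · obtain ⟨fp', h1, rfl⟩ := List.mem_map.1 h
      rcases List.mem_cons.1 h1 with h2 | h2
      · subst h2
        exact Or.inr rfl
      · rcases htg fp' h2 with h3 | h3
        · exact Or.inr (by rw [h3])
        · refine Or.inl ?_
          funext x
          show conj (fp'.1 x) = fs x
          rw [h3]
          simp
  · simp only [List.length_append, List.length_map, List.length_cons]
    omega
  · have := hB2 s hs1 hs2 hs3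
    have h5 : ((tg ++ ((fs, g0) :: tg).map
        (fun fp => ((fun x => conj (fp.1 x)), tau s fp.2))).map Prod.snd)
        = tg.map Prod.snd ++ (g0 :: tg.map Prod.snd).map (tau s) := by
      simp [List.map_append, List.map_map, Function.comp_def]
    rw [h5]
    exact r94_Clu_mono this hδ0 hδ1 (by (clear * - hδ0 hδ1 hE; linarith [hE.D1]))
      (by have := hE.D1; (clear * - hlam this; positivity)) (r94_Env_w hE).le (by omega) le_rfl le_rfl
  · intro fp hfp
    rcases List.mem_append.1 hfp with h | h
    · exact hV.d fp h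
    · obtain ⟨fp', h1, rfl⟩ := List.mem_map.1 h
      show tau s fp'.2 - g0 ∈ (VV (b + 1) : AddSubgroup (Phi m))
      rcases List.mem_cons.1 h1 with h2 | h2
      · subst h2
        exact tau_sub_mem b s g0 hV.h0
      · have h3 := add_mem (tau_sub_mem b s fp'.2 (hV.g fp' h2)) (hV.d fp' h2)
        rwa [sub_add_sub_cancel] at h3
  · have h5 : (fs, g0) :: (tg ++ ((fs, g0) :: tg).map
        (fun fp => ((fun x => conj (fp.1 x)), tau s fp.2)))
        = ((fs, g0) :: tg).map (fun fp => (fp.1, fp.2 - 0)) ++
        ((fs, g0) :: tg).map (fun fp => ((fun x => conj (fp.1 x)), tau s fp.2 - 0)) := by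
      simp
    rw [h5]
    refine le_trans ?_ hs4
    have h6 : δ ^ 2 ≤ 1 / 4 := by
      have := pow_le_pow_left₀ hδ0.le hδ1 2
      norm_num at this ⊢
      (clear * - this; linarith)
    calc δ ^ (n1 + 2 * n + 6) ≤ δ ^ (2 * n + 2) := r94_pow_anti hδ0 hδ1 (by omega)
      _ = δ ^ (2 * n) * δ ^ 2 := pow_add _ _ _
      _ ≤ δ ^ (2 * n) * (1 / 4) := by
          have := pow_pos hδ0 (2 * n)
          (clear * - h6 hδ0; gcongr)
      _ = (δ ^ n) ^ 2 / 4 := by rw [← pow_mul, mul_comm n 2]; ring

/-- the elimination: induction over the number of remaining steps -/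
theorem r94_main {m : ℕ} (c : Fin m → ℝ) (γ : ℝ) (hγ : γ ≠ 0) (R μ : ℕ) :
    ∀ n B : ℕ, ∃ n' : ℕ, n ≤ n' ∧
    ∀ (S : Sys m) (N : ℕ) [NeZero N] (δ Y lam w : ℝ) (M : ℕ),
      Env S N δ M R w n' → 0 < lam → Y + (μ + 1 : ℕ) * (M : ℝ) ≤ 3 * S.D →
      ∀ (fs F0 : ZMod N → ℂ) (Lq : List ((ZMod N → ℂ) × Phi m)) (g0 : Phi m)
        (tg : List ((ZMod N → ℂ) × Phi m)),
        (∀ x, ‖fs x‖ ≤ 1) → (∀ x, ‖F0 x‖ ≤ 1) →
        (∀ fp ∈ tg, fp.1 = fs ∨ fp.1 = fun x => conj (fs x)) →
        (∀ fp ∈ Lq, Adm (δ⁻¹ ^ n) S.Q fp.1) →
        Steps VV tau R μ (Lq.map Prod.snd) →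
        TG S c δ M n (B + (μ + 1)) (Y + (μ + 1 : ℕ) * (M : ℝ)) γ lam w
          (Lq.map Prod.snd) (g0 :: tg.map Prod.snd) →
        ∀ b : ℕ, InvV b Lq g0 tg →
        δ ^ n ≤ ‖lform S c F0 (Lq ++ (fs, g0) :: tg)‖ →
        Concl S c δ M n' B Y γ lam w b fs ((tg.length + 1) * 2 ^ (μ + 1)) := by
  classical
  induction μ with
  | zero =>
    intro n B
    obtain ⟨n', hn', H⟩ := r94_final γ hγ n B
    refine ⟨n', hn', ?_⟩
    intro S N _ δ Y lam w M hE hlam hY fs F0 Lq g0 tg hfs hF0 htg hLq hSt hTG b hV hδ
    simp only [zero_add, pow_one, Nat.cast_one, one_mul] at hY hTG ⊢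
    have hnil : Lq = [] := by simpa [Steps] using hSt
    subst hnil
    have hM0 : (0 : ℝ) ≤ M := Nat.cast_nonneg _
    have := H m c R S N δ Y lam w M hE hlam (by (clear * - hY; linarith)) fs F0 g0 tg hfs hF0 htg hTG b hV
      (by simpa using hδ)
    rwa [mul_comm]
  | succ μ ih =>
    intro n B
    obtain ⟨na, hna, Ha⟩ := r94_final γ hγ n B
    obtain ⟨n1, hn1, H1⟩ := type_step γ hγ n (B + (μ + 1))
    obtain ⟨n2, hn2, H2⟩ := r94_merge2 c (max n1 (2 * n + 2)) R
    obtain ⟨n3, hn3, H3⟩ := ih n2 B
    refine ⟨max na (n3 + 2 * n + 6), by omega, ?_⟩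
    intro S N _ δ Y lam w M hE hlam hY fs F0 Lq g0 tg hfs hF0 htg hLq hSt hTG b hV hδ
    have hδ0 := hE.δ0
    have hδ1 := hE.δ1
    have hD := hE.D1
    have hw := r94_Env_w hE
    have hM0 : (0 : ℝ) ≤ M := Nat.cast_nonneg _
    exact by
      have hμM : (0 : ℝ) ≤ ((μ : ℝ) + 1) * M := by (clear * -; positivity)
      rcases hSt with hnil | ⟨q, hq, hSt⟩
      · have hnil : Lq = [] := by simpa using hnil
        exact by
          subst hnil
          have hY' : Y ≤ 3 * S.D := by
            push_cast at hY
            (clear * - hμM hY; nlinarith)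
          have := Ha m c R S N δ Y lam w M (r94_Env_mono hE (le_max_left _ _)) hlam hY' fs F0 g0 tg
            hfs hF0 htg (r94_TG_mono hTG hδ0 hδ1 (by (clear * - hδ0 hδ1 hD; linarith)) hlam.le hw.le le_rfl (by omega)
              (by push_cast; (clear * - hμM; nlinarith)) (List.Sublist.refl _)) b hV (by simpa using hδ)
          refine r94_Concl_mono this hE hlam.le hw.le (le_max_left _ _) le_rfl le_rfl ?_
          have : 2 ≤ 2 ^ (μ + 1 + 1) := by
            calc 2 = 2 ^ 1 := rfl
              _ ≤ 2 ^ (μ + 1 + 1) := Nat.pow_le_pow_right (by norm_num) (by omega)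
          calc 2 * (tg.length + 1) = (tg.length + 1) * 2 := mul_comm _ _
            _ ≤ (tg.length + 1) * 2 ^ (μ + 1 + 1) := Nat.mul_le_mul_left _ this
      · have hE1 : Env S N δ M R w n1 := r94_Env_mono hE (by omega)
        exact by
          have hE3 : Env S N δ M R w n3 := r94_Env_mono hE (by omega)
          have hE2 : Env S N δ M R w n2 := r94_Env_mono hE3 hn3
          have hYe : Y + ((μ + 1 + 1 : ℕ) : ℝ) * M = Y + ((μ + 1 : ℕ) : ℝ) * M + M := by
            push_cast; ring
          rw [hYe] at hY hTG
          obtain ⟨Bad, hBad, hB2⟩ := H1 m S c δ (Y + ((μ + 1 : ℕ) : ℝ) * M) lam w M hE.D1 hE.ρ0 hE.ρ1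
            hδ0 hδ1 hlam hE1.M1 hE1.MD hE1.w1 (by (clear * - hY; linarith)) (Lq.map Prod.snd)
            (g0 :: tg.map Prod.snd) hTG q hq
          obtain ⟨s1, s2, s3, s4⟩ := r94_step_sizes (r94_Env_mono hE
            (show 2 * n + 6 ≤ max na (n3 + 2 * n + 6) by omega))
          have htg' : ∀ fp ∈ tg, ∀ x, ‖fp.1 x‖ ≤ 1 := by
            intro fp hfp x
            rcases htg fp hfp with h | h
            · rw [h]; exact hfs x
            · rw [h]; simpa using hfs x
          obtain ⟨s, hs1, hs2, hs3, hs4⟩ := lform_step S c M (δ ^ n) s1 s2 F0 hF0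
            (Lq ++ (fs, g0) :: tg)
            (by
              intro fp hfp x
              rcases List.mem_append.1 hfp with h | h
              · exact (hLq fp h).bdd x
              · rcases List.mem_cons.1 h with h | h
                · rw [h]; exact hfs x
                · exact htg' fp h x) s3 s4 Bad (by rw [← pow_mul, mul_comm n 2]; exact hBad) q hδ
          have hT := hB2 s hs1 hs2 hs3
          -- the new lists
          set Lq1 : List ((ZMod N → ℂ) × Phi m) := Lq.map (fun fp => (fp.1, fp.2 - q)) ++
            Lq.map (fun fp => ((fun x => conj (fp.1 x)), tau s fp.2 - q)) with hLq1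
          set tg1 : List ((ZMod N → ℂ) × Phi m) := tg.map (fun fp => (fp.1, fp.2 - q)) ++
            ((fs, g0) :: tg).map (fun fp => ((fun x => conj (fp.1 x)), tau s fp.2 - q)) with htg1
          have hLq1s : Lq1.map Prod.snd = (Lq.map Prod.snd).map (fun p => p - q) ++
              (Lq.map Prod.snd).map (fun p => tau s p - q) := by
            simp [hLq1, List.map_append, List.map_map, Function.comp_def]
          have htg1s : (g0 - q) :: tg1.map Prod.snd = (g0 :: tg.map Prod.snd).map (fun p => p - q) ++
              (g0 :: tg.map Prod.snd).map (fun p => tau s p - q) := by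
            simp [htg1, List.map_append, List.map_map, Function.comp_def]
          rw [← hLq1s, ← htg1s] at hT
          have hperm : ((Lq ++ (fs, g0) :: tg).map (fun fp => (fp.1, fp.2 - q)) ++
              (Lq ++ (fs, g0) :: tg).map
                (fun fp => ((fun x => conj (fp.1 x)), tau s fp.2 - q))).Perm
              (Lq1 ++ (fs, g0 - q) :: tg1) := by
            have h1 : (fs, g0 - q) :: tg1 = ((fs, g0) :: tg).map (fun fp => (fp.1, fp.2 - q)) ++
              ((fs, g0) :: tg).map (fun fp => ((fun x => conj (fp.1 x)), tau s fp.2 - q)) := by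
              simp [htg1]
            rw [h1, hLq1, List.map_append, List.map_append, List.append_assoc, List.append_assoc]
            refine List.Perm.append_left _ ?_
            rw [← List.append_assoc, ← List.append_assoc]
            exact List.Perm.append_right _ List.perm_append_comm
          rw [r94_lform_perm S c 1 hperm] at hs4
          have hLq1A : ∀ fp ∈ Lq1, Adm (δ⁻¹ ^ (max n1 (2 * n + 2))) S.Q fp.1 := by
            have hmono : ∀ f : ZMod N → ℂ, Adm (δ⁻¹ ^ n) S.Q f →
                Adm (δ⁻¹ ^ (max n1 (2 * n + 2))) S.Q f := by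
              intro f hf
              have hQ0 : (0 : ℝ) < S.Q := by
                have hwQ := hE.wQ
                rcases (Nat.cast_nonneg S.Q : (0 : ℝ) ≤ S.Q).eq_or_lt with h0 | h0
                · rw [← h0, mul_zero] at hwQ; (clear * - hδ0 hδ1 hwQ; linarith)
                · exact h0
              exact hf.mono (r94_pow_inv_mono hδ0 hδ1 (by omega)) hQ0 le_rfl
            intro fp hfp
            rcases List.mem_append.1 hfp with h | h
            · obtain ⟨fp', h1, rfl⟩ := List.mem_map.1 h
              exact hmono _ (hLq fp' h1)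
            · obtain ⟨fp', h1, rfl⟩ := List.mem_map.1 h
              exact hmono _ (hLq fp' h1).cnj
          have htg1A : ∀ fp ∈ tg1, fp.1 = fs ∨ fp.1 = fun x => conj (fs x) := by
            intro fp hfp
            rcases List.mem_append.1 hfp with h | h
            · obtain ⟨fp', h1, rfl⟩ := List.mem_map.1 h
              exact htg fp' h1
            · obtain ⟨fp', h1, rfl⟩ := List.mem_map.1 h
              rcases List.mem_cons.1 h1 with h2 | h2
              · subst h2
                exact Or.inr rfl
              · rcases htg fp' h2 with h3 | h3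
                · exact Or.inr (by rw [h3])
                · refine Or.inl ?_
                  funext x
                  show conj (fp'.1 x) = fs x
                  rw [h3]
                  simp
          exact by
            have hδ2 : δ ^ (max n1 (2 * n + 2)) ≤ ‖lform S c 1 (Lq1 ++ (fs, g0 - q) :: tg1)‖ := by
              refine le_trans ?_ hs4
              have h6 : δ ^ 2 ≤ 1 / 4 := by
                have := pow_le_pow_left₀ hδ0.le hδ1 2
                norm_num at this ⊢
                (clear * - this; linarith)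
              calc δ ^ (max n1 (2 * n + 2)) ≤ δ ^ (2 * n + 2) := r94_pow_anti hδ0 hδ1 (by omega)
                _ = δ ^ (2 * n) * δ ^ 2 := pow_add _ _ _
                _ ≤ δ ^ (2 * n) * (1 / 4) := by
                    have := pow_pos hδ0 (2 * n)
                    (clear * - h6 hδ0; gcongr)
                _ = (δ ^ n) ^ 2 / 4 := by rw [← pow_mul, mul_comm n 2]; ring
            obtain ⟨F1, hF1, hδ3⟩ := H2 S N δ w M hE2 Lq1 ((fs, g0 - q) :: tg1) 1
              (fun fp => decide (fp.2 ∉ (VV R : AddSubgroup (Phi m))))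
              (fun fp => by simp) (fun x => by simp)
              (by
                intro fp hfp x
                rcases List.mem_cons.1 hfp with h | h
                · rw [h]; exact hfs x
                · rcases htg1A fp h with h | h
                  · rw [h]; exact hfs x
                  · rw [h]; simpa using hfs x) hLq1A
              (fun fp hfp => (hT.bq fp.2 (List.mem_map_of_mem hfp)).mono (le_max_left _ _))
              (by
                have := hT.lq
                rw [List.length_map] at this
                exact this.trans (le_max_left _ _)) hδ2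
            have hpn : (Lq1.filter (fun fp => decide (fp.2 ∉ (VV R : AddSubgroup (Phi m))))).map Prod.snd
                = petNext VV tau R q s (Lq.map Prod.snd) := by
              unfold petNext
              rw [← hLq1s, List.filter_map]
              congr 1
            have hqV : q ∈ (VV b : AddSubgroup (Phi m)) := by
              obtain ⟨fp, h1, rfl⟩ := List.mem_map.1 hq
              exact hV.q fp h1
            have htau : ∀ p : Phi m, p ∈ (VV b : AddSubgroup (Phi m)) →
                tau s p - q ∈ (VV b : AddSubgroup (Phi m)) := by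
              intro p hp
              have h1 := add_mem (VV_antitone (m := m) (Nat.le_succ b) (tau_sub_mem b s p hp))
                (sub_mem hp hqV)
              rwa [sub_add_sub_cancel] at h1
            have hV1 : InvV b (Lq1.filter (fun fp => decide (fp.2 ∉ (VV R : AddSubgroup (Phi m)))))
                (g0 - q) tg1 := by
              constructor
              · intro fp hfp
                rcases List.mem_append.1 (List.mem_filter.1 hfp).1 with h | h
                · obtain ⟨fp', h1, rfl⟩ := List.mem_map.1 h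
                  exact sub_mem (hV.q fp' h1) hqV
                · obtain ⟨fp', h1, rfl⟩ := List.mem_map.1 h
                  exact htau _ (hV.q fp' h1)
              · exact sub_mem hV.h0 hqV
              · intro fp hfp
                rcases List.mem_append.1 hfp with h | h
                · obtain ⟨fp', h1, rfl⟩ := List.mem_map.1 h
                  show fp'.2 - q - (g0 - q) ∈ (VV (b + 1) : AddSubgroup (Phi m))
                  rw [sub_sub_sub_cancel_right]
                  exact hV.d fp' h1
                · obtain ⟨fp', h1, rfl⟩ := List.mem_map.1 h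
                  show tau s fp'.2 - q - (g0 - q) ∈ (VV (b + 1) : AddSubgroup (Phi m))
                  rw [sub_sub_sub_cancel_right]
                  rcases List.mem_cons.1 h1 with h2 | h2
                  · subst h2
                    exact tau_sub_mem b s g0 hV.h0
                  · have h3 := add_mem (tau_sub_mem b s fp'.2 (hV.g fp' h2)) (hV.d fp' h2)
                    rwa [sub_add_sub_cancel] at h3
            have := H3 S N δ Y lam w M hE3 hlam (by (clear * - hY; linarith)) fs F1
              (Lq1.filter (fun fp => decide (fp.2 ∉ (VV R : AddSubgroup (Phi m))))) (g0 - q) tg1 hfs hF1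
              htg1A
              (by
                intro fp hfp
                have h1 : fp ∈ Lq1 := (List.mem_filter.1 hfp).1
                have hQ0 : (0 : ℝ) < S.Q := by
                  have hwQ := hE.wQ
                  rcases (Nat.cast_nonneg S.Q : (0 : ℝ) ≤ S.Q).eq_or_lt with h0 | h0
                  · rw [← h0, mul_zero] at hwQ; (clear * - hδ0 hδ1 hwQ; linarith)
                  · exact h0
                exact (hLq1A fp h1).mono (r94_pow_inv_mono hδ0 hδ1 hn2) hQ0 le_rfl)
              (by rw [hpn]; exact hSt s)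
              (r94_TG_mono hT hδ0 hδ1 (by (clear * - hδ0 hδ1 hD; linarith)) hlam.le hw.le ((le_max_left _ _).trans hn2)
                le_rfl le_rfl ((List.filter_sublist).map _)) b hV1 hδ3
            refine r94_Concl_mono this hE hlam.le hw.le (by omega) le_rfl le_rfl ?_
            have h7 : tg1.length + 1 = 2 * (tg.length + 1) := by
              simp [htg1]; omega
            rw [h7]
            exact le_of_eq (by ring)

/-- One round of the elimination, with the filtration. -/
theorem round' {m : ℕ} (c : Fin m → ℝ) (γ : ℝ) (hγ : γ ≠ 0) (R s : ℕ) : ∃ ν : ℕ, ∀ n B : ℕ,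
    ∃ n' : ℕ, ∀ (S : Sys m) (N : ℕ) [NeZero N] (δ Y lam w : ℝ) (M : ℕ), Env S N δ M R w n' →
      0 < lam → Y + ν * M ≤ 3 * S.D →
      ∀ (fs : ZMod N → ℂ) (g0 : Phi m) (t : List ((ZMod N → ℂ) × Phi m)) (b : ℕ), t.length ≤ s →
        Adm (δ⁻¹ ^ n) S.Q fs → (∀ fp ∈ t, Adm (δ⁻¹ ^ n) S.Q fp.1) →
        Clu S c δ M n (B + ν) (Y + ν * M) γ lam w g0 (t.map Prod.snd) →
        (∀ fp ∈ t, fp.2 - g0 ∈ (VV b : AddSubgroup (Phi m))) →
        δ ^ n ≤ ‖lform S c 1 ((fs, g0) :: t)‖ →
        ∃ (g0' : Phi m) (t' : List ((ZMod N → ℂ) × Phi m)),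
          (∀ fp ∈ t', fp.1 = fs ∨ fp.1 = fun x => conj (fs x)) ∧ t'.length ≤ 2 ^ ν ∧
          Clu S c δ M n' B Y (γ - 1) (lam * M / S.D) w g0' (t'.map Prod.snd) ∧
          (∀ fp ∈ t', fp.2 - g0' ∈ (VV (b + 1) : AddSubgroup (Phi m))) ∧
          δ ^ n' ≤ ‖lform S c 1 ((fs, g0') :: t')‖ := by
  classical
  obtain ⟨μ, hμ⟩ := pet_terminates R s
  refine ⟨μ + 1, ?_⟩
  intro n B
  obtain ⟨n2, hn2, H2⟩ := r94_merge2 c (2 * n + 1) R
  obtain ⟨n3, hn3, H3⟩ := r94_main c γ hγ R μ n2 B
  refine ⟨n3, ?_⟩
  intro S N _ δ Y lam w M hE hlam hY fs g0 t b ht hfs htA hC hVt hδ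
  have hδ0 := hE.δ0
  have hδ1 := hE.δ1
  have hD := hE.D1
  have hw := r94_Env_w hE
  have hQ0 : (0 : ℝ) < S.Q := by
    have hwQ := hE.wQ
    rcases (Nat.cast_nonneg S.Q : (0 : ℝ) ≤ S.Q).eq_or_lt with h0 | h0
    · rw [← h0, mul_zero] at hwQ; (clear * - hδ0 hδ1 hwQ; linarith)
    · exact h0
  have hne : t ≠ [] := by
    intro h0
    exact hC.ne (by rw [h0]; rfl)
  exact by
    obtain ⟨⟨f1, q1⟩, rest, rfl⟩ := List.exists_cons_of_ne_nil hne
    have hq1 : q1 ∈ (((f1, q1) :: rest).map Prod.snd) := by simp
    have hfp1 : ∀ fp ∈ rest, fp.2 ∈ (((f1, q1) :: rest).map Prod.snd) := by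
      intro fp hfp
      simp only [List.map_cons, List.mem_cons, List.mem_map]
      exact Or.inr ⟨fp, hfp, rfl⟩
    have hf1 : Adm (δ⁻¹ ^ n) S.Q f1 := htA (f1, q1) (by simp)
    -- translation
    have h1 : lform S c 1 ((fs, g0) :: (f1, q1) :: rest) =
        lform S c f1 (rest.map (fun fp => (fp.1, fp.2 - q1)) ++ [(fs, g0 - q1)]) := by
      rw [r94_lform_perm S c 1 (List.Perm.swap (f1, q1) (fs, g0) rest), r94_lform_frame]
      refine r94_lform_perm S c f1 ?_
      rw [List.map_cons]
      exact (List.perm_append_singleton _ _).symm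
    rw [h1] at hδ
    set Lq1 : List ((ZMod N → ℂ) × Phi m) := rest.map (fun fp => (fp.1, fp.2 - q1)) with hLq1
    have hlen : rest.length + 1 ≤ n := by simpa using hC.le
    exact by
      have hT : TG S c δ M (2 * n + 1) (B + (μ + 1)) (Y + ((μ + 1 : ℕ) : ℝ) * M) γ lam w
          (Lq1.map Prod.snd) [g0 - q1] := by
        constructor
        · intro g hg p hp
          exact by
            rw [List.mem_singleton] at hg
            subst hg
            rcases List.mem_cons.1 hp with h | h
            · subst h
              rw [sub_zero]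
              exact r94_Tp_neg (r94_Tp_mono (hC.g q1 hq1) hδ0 hδ1 (by (clear * - hδ0 hδ1 hD; linarith)) hlam.le hw.le
                (by omega) le_rfl le_rfl)
            · rw [hLq1, List.map_map] at h
              obtain ⟨fp, hfp, rfl⟩ := List.mem_map.1 h
              show Tp S c δ (2 * n + 1) (B + (μ + 1)) (Y + ((μ + 1 : ℕ) : ℝ) * M) γ lam w
                (g0 - q1 - (fp.2 - q1))
              rw [sub_sub_sub_cancel_right]
              exact r94_Tp_neg (r94_Tp_mono (hC.g fp.2 (hfp1 fp hfp)) hδ0 hδ1 (by (clear * - hδ0 hδ1 hD; linarith)) hlam.le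
                hw.le (by omega) le_rfl le_rfl)
        · intro g1 t1 h g hg
          have h2 : t1 = [] := by
            have := congrArg List.tail h
            simpa using this.symm
          rw [h2] at hg
          simp at hg
        · intro p h
          rw [hLq1, List.map_map] at h
          obtain ⟨fp, hfp, rfl⟩ := List.mem_map.1 h
          exact ((hC.bt fp.2 (hfp1 fp hfp)).sub (hC.bt q1 hq1)).mono (by omega)
        · intro p h
          rw [List.mem_singleton] at h
          subst h
          exact (hC.b0.sub (hC.bt q1 hq1)).mono (by omega)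
        · rw [hLq1, List.length_map, List.length_map]
          omega
        · simp
        · simp
      have hLqA : ∀ fp ∈ Lq1, Adm (δ⁻¹ ^ (2 * n + 1)) S.Q fp.1 := by
        intro fp hfp
        obtain ⟨fp', h1, rfl⟩ := List.mem_map.1 hfp
        exact (htA fp' (by simp [h1])).mono (r94_pow_inv_mono hδ0 hδ1 (by omega)) hQ0 le_rfl
      obtain ⟨F1, hF1, hδ3⟩ := H2 S N δ w M (r94_Env_mono hE hn3) Lq1 [(fs, g0 - q1)] f1
        (fun fp => decide (fp.2 ∉ (VV R : AddSubgroup (Phi m))))
        (fun fp => by simp) hf1.bdd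
        (by
          intro fp hfp x
          rw [List.mem_singleton] at hfp
          rw [hfp]
          exact hfs.bdd x) hLqA
        (fun fp hfp => hT.bq fp.2 (List.mem_map_of_mem hfp))
        (by
          have := hT.lq
          rwa [List.length_map] at this)
        ((r94_pow_anti hδ0 hδ1 (by omega)).trans hδ)
      have hVq1 : q1 - g0 ∈ (VV b : AddSubgroup (Phi m)) := hVt (f1, q1) (by simp)
      have hV1 : InvV b (Lq1.filter (fun fp => decide (fp.2 ∉ (VV R : AddSubgroup (Phi m)))))
          (g0 - q1) ([] : List ((ZMod N → ℂ) × Phi m)) := by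
        constructor
        · intro fp hfp
          obtain ⟨fp', h1, rfl⟩ := List.mem_map.1 (List.mem_filter.1 hfp).1
          show fp'.2 - q1 ∈ (VV b : AddSubgroup (Phi m))
          have h2 := sub_mem (hVt fp' (by simp [h1])) hVq1
          rwa [sub_sub_sub_cancel_right] at h2
        · have h2 := neg_mem hVq1
          rwa [neg_sub] at h2
        · intro fp hfp
          simp at hfp
      obtain ⟨g0', t', k1, k2, k3, k5, k4⟩ := H3 S N δ Y lam w M hE hlam (by exact_mod_cast hY) fs F1
        (Lq1.filter (fun fp => decide (fp.2 ∉ (VV R : AddSubgroup (Phi m))))) (g0 - q1) [] hfs.bdd hF1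
        (by simp)
        (by
          intro fp hfp
          have h1 : fp ∈ Lq1 := (List.mem_filter.1 hfp).1
          exact (hLqA fp h1).mono (r94_pow_inv_mono hδ0 hδ1 hn2) hQ0 le_rfl)
        (by
          refine hμ (Phi m) VV tau VV_zero VV_antitone tau_sub_mem _ ?_ ?_
          · rw [List.length_map]
            refine (List.length_filter_le _ _).trans ?_
            have h8 : rest.length + 1 ≤ s := by simpa using ht
            have h9 : Lq1.length = rest.length := by rw [hLq1, List.length_map]
            omega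
          · intro p hp
            obtain ⟨fp, hfp, rfl⟩ := List.mem_map.1 hp
            simpa using (List.mem_filter.1 hfp).2)
        (r94_TG_mono hT hδ0 hδ1 (by (clear * - hδ0 hδ1 hD; linarith)) hlam.le hw.le hn2
          le_rfl le_rfl ((List.filter_sublist).map _)) b hV1 hδ3
      refine ⟨g0', t', k1, ?_, k3, k5, k4⟩
      simp only [List.length_nil, zero_add, one_mul] at k2
      omega

end

end Pool.Agent.Helper67.NX2

end

section

set_option autoImplicit false

open Finset

open scoped BigOperators ComplexConjugate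

namespace Pool.Agent.Helper57.NX

noncomputable section

namespace SW27

/-- translation of the form by the head of the list -/
theorem lform_translate {m N : ℕ} [NeZero N] (S : Sys m) (c : Fin m → ℝ) (fs : ZMod N → ℂ)
    (g0 : Phi m) (t : List ((ZMod N → ℂ) × Phi m)) :
    lform S c 1 ((fs, g0) :: t) = 𝔼 k ∈ S.I, 𝔼 x : ZMod N, fs x *
      ∏ j : Fin t.length, (t[j.1]).1 (x + ((ev (S.a c) ((t[j.1]).2 - g0) k : ℤ) : ZMod N)) := by
  unfold lform
  refine Finset.expect_congr rfl fun k _ => ?_
  rw [← expect_shift _ (((-(ev (S.a c) g0 k) : ℤ)) : ZMod N)]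
  refine Finset.expect_congr rfl fun x _ => ?_
  rw [List.map_cons, List.prod_cons, Pi.one_apply, one_mul]
  congr 1
  · congr 1
    push_cast
    ring
  · rw [← Fin.prod_univ_fun_getElem t (fun fp => fp.1 (x + ((-(ev (S.a c) g0 k) : ℤ) : ZMod N)
      + (ev (S.a c) fp.2 k : ZMod N)))]
    refine Finset.prod_congr rfl fun j _ => ?_
    exact by
      congr 1
      rw [ev_sub]
      push_cast
      ring

end SW27

end

end Pool.Agent.Helper57.NX

end

section

set_option autoImplicit false

open Finset

open scoped BigOperators ComplexConjugate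

namespace Pool.Agent.Helper91.NX2

open Pool.Agent.Helper57.NX

open Pool.Agent.Helper67.NX2

open Pool.Agent.Helper82.NX

noncomputable section

/-- `j` rounds, with the filtration. -/
theorem rounds' {m : ℕ} (c : Fin m → ℝ) (γ : ℝ) (R : ℕ) (j : ℕ)
    (hγ : ∀ i : ℕ, i < j → γ - i ≠ 0) (s : ℕ) : ∃ ν s' : ℕ, ∀ n B : ℕ,
    ∃ n' : ℕ, n ≤ n' ∧ ∀ (S : Sys m) (N : ℕ) [NeZero N] (δ Y lam w : ℝ) (M : ℕ),
      Env S N δ M R w n' → 0 < S.Q → 0 ≤ w →
      0 < lam → Y + ν * M ≤ 3 * S.D →
      ∀ (fs : ZMod N → ℂ) (g0 : Phi m) (t : List ((ZMod N → ℂ) × Phi m)), t.length ≤ s →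
        Adm (δ⁻¹ ^ n) S.Q fs → (∀ fp ∈ t, Adm (δ⁻¹ ^ n) S.Q fp.1) →
        Clu S c δ M n (B + ν) (Y + ν * M) γ lam w g0 (t.map Prod.snd) →
        δ ^ n ≤ ‖lform S c 1 ((fs, g0) :: t)‖ →
        ∃ (g0' : Phi m) (t' : List ((ZMod N → ℂ) × Phi m)),
          (∀ fp ∈ t', Adm (δ⁻¹ ^ n) S.Q fp.1) ∧
          (1 ≤ j → ∀ fp ∈ t', fp.1 = fs ∨ fp.1 = fun x => conj (fs x)) ∧ t'.length ≤ s' ∧
          Clu S c δ M n' B Y (γ - j) (lam * (M / S.D) ^ j) w g0' (t'.map Prod.snd) ∧
          (∀ fp ∈ t', fp.2 - g0' ∈ (VV j : AddSubgroup (Phi m))) ∧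
          δ ^ n' ≤ ‖lform S c 1 ((fs, g0') :: t')‖ := by
  induction j with
  | zero =>
    refine ⟨0, s, fun n B => ⟨n, le_rfl, ?_⟩⟩
    intro S N _ δ Y lam w M hE hQ hw hlam hY fs g0 t hts hfs ht hC hl
    refine ⟨g0, t, ht, fun h => absurd h (by norm_num), hts, ?_, ?_, hl⟩
    · simpa using hC
    · intro fp _
      rw [VV_zero]
      trivial
  | succ j ih =>
    obtain ⟨ν₁, s₁, h₁⟩ := ih fun i hi => hγ i (by omega)
    obtain ⟨ν₂, h₂⟩ := round' c (γ - j) (hγ j (by omega)) R s₁
    refine ⟨ν₁ + ν₂, 2 ^ ν₂, fun n B => ?_⟩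
    obtain ⟨n₁, hn₁, h₁⟩ := h₁ n (B + ν₂)
    obtain ⟨n₂, h₂⟩ := h₂ n₁ B
    refine ⟨max n₁ n₂, hn₁.trans (le_max_left _ _), ?_⟩
    intro S N _ δ Y lam w M hE hQ hw hlam hY fs g0 t hts hfs ht hC hl
    have hD : 0 < S.D := lt_of_lt_of_le one_pos hE.D1
    have hδ1 : δ ≤ 1 := hE.δ1.trans (by norm_num)
    have hQ' : (0 : ℝ) < S.Q := by exact_mod_cast hQ
    exact by
      have hMpos : (0 : ℝ) < M := lt_of_lt_of_le (pow_pos (inv_pos.mpr hE.δ0) _) hE.M1
      have e1 : Y + ν₂ * M + ν₁ * M = Y + ((ν₁ + ν₂ : ℕ) : ℝ) * M := by push_cast; ring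
      have e2 : B + ν₂ + ν₁ = B + (ν₁ + ν₂) := by omega
      obtain ⟨g1, t1, a1, _, a3, a4, av, a5⟩ := h₁ S N δ (Y + ν₂ * M) lam w M
        (Env.mono hE (le_max_left _ _)) hQ hw hlam (by rw [e1]; exact hY) fs g0 t hts hfs ht
        (by rw [e1, e2]; exact hC) hl
      have hlam1 : 0 < lam * (M / S.D) ^ j := by positivity
      have hY2 : Y + ν₂ * M ≤ 3 * S.D := by
        refine le_trans ?_ hY
        push_cast
        have : (0 : ℝ) ≤ ν₁ * M := by positivity
        linarith
      have hfs1 : Adm (δ⁻¹ ^ n₁) S.Q fs :=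
        Helper82.NX.Adm.mono' hfs hQ' (Pool.Agent.Helper82.NX.inv_pow_mono hE.δ0 hδ1 hn₁)
      exact by
        obtain ⟨g2, t2, b1, b2, b3, bv, b4⟩ := h₂ S N δ Y (lam * (M / S.D) ^ j) w M
          (Env.mono hE (le_max_right _ _)) hlam1 hY2 fs g1 t1 j a3 hfs1
          (fun fp hfp => Helper82.NX.Adm.mono' (a1 fp hfp) hQ' (Pool.Agent.Helper82.NX.inv_pow_mono hE.δ0 hδ1 hn₁)) a4 av a5
        have e3 : lam * (M / S.D) ^ j * M / S.D = lam * (M / S.D) ^ (j + 1) := by
          rw [pow_succ]; ring
        have e4 : γ - (j : ℝ) - 1 = γ - ((j + 1 : ℕ) : ℝ) := by push_cast; ring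
        rw [e3, e4] at b3
        refine ⟨g2, t2, ?_, fun _ => b1, b2, ?_, bv, ?_⟩
        · intro fp hfp
          rcases b1 fp hfp with h | h
          · rw [h]; exact hfs
          · rw [h]; exact Adm.conj' hfs
        · exact Clu.mono' hE.δ0 hδ1 hD (by positivity) hw b3 (le_max_right _ _)
        · exact (pow_anti hE.δ0 hδ1 (le_max_right _ _)).trans b4

end

end Pool.Agent.Helper91.NX2

end

section

set_option autoImplicit false

open Finset

open scoped BigOperators ComplexConjugate

namespace Pool.Agent.Helper57.NX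

noncomputable section

theorem r45_lform_frame {m N : ℕ} [NeZero N] (S : Sys m) (c : Fin m → ℝ)
    (f : ZMod N → ℂ) (q : Phi m) (L : List ((ZMod N → ℂ) × Phi m)) :
    lform S c 1 ((f, q) :: L) = lform S c f (L.map (fun fp => (fp.1, fp.2 - q))) := by
  unfold lform
  refine Finset.expect_congr rfl fun k _ => ?_
  rw [← expect_shift _ (-(ev (S.a c) q k : ZMod N))]
  refine Finset.expect_congr rfl fun x _ => ?_
  simp only [Pi.one_apply, one_mul, List.map_cons, List.prod_cons, List.map_map,
    neg_add_cancel_right]
  congr 2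
  refine List.map_congr_left fun fp _ => ?_
  simp only [Function.comp]
  rw [ev_sub, Int.cast_sub, ← add_sub_assoc, sub_eq_add_neg, add_right_comm]

end

end Pool.Agent.Helper57.NX

end

section

set_option autoImplicit false

open Finset

open scoped BigOperators ComplexConjugate

namespace Pool.Agent.Helper82.NX2

open Pool.Agent.Helper57.NX

open Pool.Agent.Helper82.NX

noncomputable section

theorem gnc_core (hRd : RoundS) (hSw : SweepS) (m : ℕ) (c : Fin (m + 1) → ℝ) (hc : StrictMono c)
    (hc0 : ∀ i, 0 < c i) (r0 : ℕ) (hr0 : 0 < r0) (hγ : ∀ i : ℕ, i ≤ r0 → c (Fin.last m) - i ≠ 0)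
    (εb : ℝ) (hεb : 0 < εb) (s : ℝ) (hs0 : 0 ≤ s) (hs : s ≤ c (Fin.last m) - εb)
    (hsr : c (Fin.last m) - (s + 3 * min (εb / 8) (1 / 16)) < r0) (s' : ℝ)
    (hs' : s' ≤ s + min (εb / 8) (1 / 16)) : GNCP m c s s' := by
  set cm := c (Fin.last m) with hcm
  set g0 : ℝ := min (εb / 8) (1 / 16) with hg0
  have hg0p : 0 < g0 := lt_min (by (clear * - hεb; linarith)) (by norm_num)
  have hg0a : g0 ≤ εb / 8 := min_le_left _ _
  have hg0b : g0 ≤ 1 / 16 := min_le_right _ _
  have hcmp : 0 < cm := hc0 _
  exact by
    obtain ⟨gap, hgap0, hgap⟩ := Pool.Agent.Helper82.NX.exists_gap c hc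
    -- exponents
    set mu : ℝ := s + 3 * g0 with hmu
    have hr0p : (0 : ℝ) < r0 := by exact_mod_cast hr0
    set e : ℝ := (cm - mu) / r0 with he
    have her : e * r0 = cm - mu := div_mul_cancel₀ _ hr0p.ne'
    have he0 : 0 < e := div_pos (by rw [hmu]; (clear * - hs hg0p hg0a; linarith)) hr0p
    have he1 : e < 1 := by
      rw [he, div_lt_one hr0p]
      exact hsr
    exact by
      set κ : ℝ := g0 / 8 with hκ
      set κ1 : ℝ := min e (min gap 1) / 4 with hκ1
      have hκ1p : 0 < κ1 := by
        rw [hκ1]
        have : 0 < min e (min gap 1) := lt_min he0 (lt_min hgap0 one_pos)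
        (clear * - this; linarith)
      have hκ1e : κ1 ≤ e / 4 := by
        rw [hκ1]
        exact div_le_div_of_nonneg_right (min_le_left _ _) (by norm_num)
      have hκ1g : κ1 ≤ gap / 4 := by
        rw [hκ1]
        exact div_le_div_of_nonneg_right ((min_le_right _ _).trans (min_le_left _ _)) (by norm_num)
      have hκ11 : κ1 ≤ 1 / 4 := by
        rw [hκ1]
        exact div_le_div_of_nonneg_right ((min_le_right _ _).trans (min_le_right _ _)) (by norm_num)
      exact by
        obtain ⟨R, hR⟩ := exists_nat_ge ((cm + 2) / e)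
        have hRe : cm + 2 ≤ R * e := by
          rwa [div_le_iff₀ he0] at hR
        -- the rounds and the sweep
        obtain ⟨ν, s₁, hrd⟩ := rounds hRd c cm R r0 (fun i hi => hγ i hi.le) (m + 1)
        obtain ⟨n₁, hn₁, hrd⟩ := hrd (m + 1) 2
        obtain ⟨n₃, hsw⟩ := hSw (cm - r0) (hγ r0 le_rfl) n₁
        obtain ⟨C0, hC0, hinit⟩ := init_clu c (2 + ν)
        set Nm : ℕ := max n₁ n₃ with hNm
        set θ : ℝ := min (κ1 / 2) (min ((1 - e) / 2) (κ / 4)) with hθ
        have hθp : 0 < θ := by
          rw [hθ]
          refine lt_min (by (clear * - hκ1p; linarith)) (lt_min (by (clear * - he1; linarith)) ?_)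
          rw [hκ]
          (clear * - hg0p; linarith)
        have hθ1 : θ ≤ κ1 / 2 := min_le_left _ _
        have hθ2 : θ ≤ (1 - e) / 2 := (min_le_right _ _).trans (min_le_left _ _)
        exact by
          have hθ3 : θ ≤ κ / 4 := (min_le_right _ _).trans (min_le_right _ _)
          obtain ⟨D0, hD02, hD0⟩ := exists_D0 θ (2 ^ (r0 + 1) + 2 * ν + 4 * n₁ + C0 + 2) hθp
          refine ⟨θ, hθp, s₁, n₃ * 2 ^ s₁, θ / (Nm + 1), by (clear * - he0 hgap0 he1 hεb; positivity), D0, ?_⟩
          intro S N _ hDD hG δ hδ hδ2 X hQX hXs f0 f hf0 hf hfX hform X1 hX1 hX1s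
          set D := S.D with hDdef
          have hD2 : 2 ≤ D := hD02.trans hDD
          have hD1 : 1 ≤ D := by (clear * - hD02 hDD; linarith)
          have hDp : 0 < D := by (clear * - hD02 hDD; linarith)
          have hbig := hD0 D hDD
          exact by
            have hA1 : (2 : ℝ) ^ (r0 + 1) ≤ D ^ θ := by
              have : (0 : ℝ) ≤ ν := Nat.cast_nonneg _
              have : (0 : ℝ) ≤ n₁ := Nat.cast_nonneg _
              (clear * - hC0 hbig; linarith)
            have hA2 : 2 * (ν : ℝ) ≤ D ^ θ := by
              have : (0 : ℝ) ≤ 2 ^ (r0 + 1) := by positivity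
              have : (0 : ℝ) ≤ n₁ := Nat.cast_nonneg _
              linarith
            have hA3 : 4 * (n₁ : ℝ) ≤ D ^ θ := by
              have : (0 : ℝ) ≤ 2 ^ (r0 + 1) := by positivity
              have : (0 : ℝ) ≤ ν := Nat.cast_nonneg _
              linarith
            have hA4 : C0 ≤ D ^ θ := by
              have : (0 : ℝ) ≤ 2 ^ (r0 + 1) := by positivity
              have : (0 : ℝ) ≤ ν := Nat.cast_nonneg _
              have : (0 : ℝ) ≤ n₁ := Nat.cast_nonneg _
              linarith
            have hA5 : (2 : ℝ) ≤ D ^ θ := by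
              have : (0 : ℝ) ≤ 2 ^ (r0 + 1) := by positivity
              have : (0 : ℝ) ≤ ν := Nat.cast_nonneg _
              have : (0 : ℝ) ≤ n₁ := Nat.cast_nonneg _
              linarith
            have pw : ∀ {a b : ℝ}, a ≤ b → D ^ a ≤ D ^ b := fun h =>
              Real.rpow_le_rpow_of_exponent_le hD1 h
            exact by
              have pp : ∀ a : ℝ, 0 < D ^ a := fun a => Real.rpow_pos_of_pos hDp a
              have pa : ∀ a b : ℝ, D ^ a * D ^ b = D ^ (a + b) := fun a b => (Real.rpow_add hDp a b).symm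
              -- δ
              have hδ0 : 0 < δ := lt_of_lt_of_le (pp _) hδ
              have hδ1 : δ ≤ 1 := hδ2.trans (by norm_num)
              have hδn : ∀ n : ℕ, n ≤ Nm → D ^ (-θ) ≤ δ ^ n := by
                intro n hn
                refine le_trans ?_ (pow_le_pow_left₀ (pp _).le hδ n)
                rw [← Real.rpow_natCast, ← Real.rpow_mul hDp.le]
                refine pw ?_
                have h1 : (n : ℝ) ≤ Nm + 1 := by
                  have : (n : ℝ) ≤ Nm := by exact_mod_cast hn
                  (clear * - this; linarith)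
                have h2 : θ / (Nm + 1) * n ≤ θ := by
                  rw [div_mul_eq_mul_div, div_le_iff₀ (by (clear * -; positivity))]
                  exact mul_le_mul_of_nonneg_left h1 hθp.le
                (clear * - h2; linarith)
              have hδi : ∀ n : ℕ, n ≤ Nm → δ⁻¹ ^ n ≤ D ^ θ := by
                intro n hn
                have h1 := hδn n hn
                rw [Real.rpow_neg hDp.le] at h1
                rw [inv_pow]
                exact inv_le_of_inv_le₀ (pp _) h1
              -- M and K
              exact by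
                set M : ℕ := ⌊D ^ (1 - e)⌋₊ with hM
                obtain ⟨hM1, hM2, hM3⟩ := floor_bounds (a := 1 - e) hD1 hA5 (by (clear * - he1 hθ2; linarith))
                rw [← hM] at hM1 hM2 hM3
                set k : ℝ := 1 - 2 * g0 + κ with hk
                set K : ℕ := ⌊D ^ k⌋₊ with hK
                have hθ8 : θ ≤ 1 / 8 := by (clear * - he1 hκ1e hθ1; linarith)
                obtain ⟨hK1, hK2, hK3⟩ := floor_bounds (a := k) hD1 hA5 (by rw [hk, hκ]; (clear * - hg0p hg0b he1 hκ1e hθ1; linarith))
                rw [← hK] at hK1 hK2 hK3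
                -- `Q` and `P`
                have hQ1 : D ^ (2 : ℝ) ≤ S.Q := hG.Q1
                have hQp : (0 : ℝ) < S.Q := lt_of_lt_of_le (pp _) hQ1
                exact by
                  have hQpos : 0 < S.Q := by exact_mod_cast hQp
                  set Pm := S.P (Fin.last m) with hPm
                  have hPm1 : S.Q * D ^ (cm - θ) ≤ Pm := hG.P1 _
                  have hPm2 : Pm ≤ S.Q * D ^ (cm + θ) := hG.P2 _
                  have hPmp : 0 < Pm := lt_of_lt_of_le (mul_pos hQp (pp _)) hPm1
                  have hP0 : ∀ i, 0 ≤ S.P i := fun i => le_trans (mul_nonneg hQp.le (pp _).le) (hG.P1 i)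
                  exact by
                    have hPi : ∀ i, S.P i ≤ S.Q * D ^ (cm + θ) := by
                      intro i
                      refine (hG.P2 i).trans (mul_le_mul_of_nonneg_left (pw ?_) hQp.le)
                      have : c i ≤ cm := hc.monotone (Fin.le_last i)
                      (clear * - this; linarith)
                    -- `M / D`
                    have hMpos : (0 : ℝ) < M := lt_of_lt_of_le (pp _) hM3
                    have eD : ∀ a : ℝ, D ^ a / D = D ^ (a - 1) := fun a => (Real.rpow_sub_one hDp.ne' a).symm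
                    have hMD : (M : ℝ) / D ≤ D ^ (-e) := by
                      have h1 := div_le_div_of_nonneg_right hM1 hDp.le
                      rw [eD] at h1
                      refine h1.trans (le_of_eq ?_)
                      congr 1
                      ring
                    have hMD' : D ^ (-e) / 2 ≤ (M : ℝ) / D := by
                      have h1 := div_le_div_of_nonneg_right hM2 hDp.le
                      rw [div_right_comm, eD] at h1
                      refine le_trans (le_of_eq ?_) h1
                      congr 2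
                      ring
                    have hpow : ∀ j : ℕ, (D ^ (-e)) ^ j = D ^ (-(e * j)) := by
                      intro j
                      rw [← Real.rpow_natCast, ← Real.rpow_mul hDp.le]
                      congr 1
                      ring
                    exact by
                      have hMDj : ∀ j : ℕ, ((M : ℝ) / D) ^ j ≤ D ^ (-(e * j)) := by
                        intro j
                        rw [← hpow]
                        exact pow_le_pow_left₀ (by (clear * - hMpos hD2; positivity)) hMD j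
                      have hMDr : D ^ (-(e * r0)) / 2 ^ r0 ≤ ((M : ℝ) / D) ^ r0 := by
                        rw [← hpow, ← div_pow]
                        exact pow_le_pow_left₀ (by (clear * - hD2; positivity)) hMD' r0
                      -- `lam`
                      set lam : ℝ := Pm * ((M : ℝ) / D) ^ r0 with hlam
                      have hlamp : 0 < lam := by (clear * - hPmp hMpos hD2; positivity)
                      have hl1 : S.Q * D ^ (mu - θ) / 2 ^ r0 ≤ lam := by
                        have h1 : S.Q * D ^ (mu - θ) / 2 ^ r0 =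
                            (S.Q * D ^ (cm - θ)) * (D ^ (-(e * r0)) / 2 ^ r0) := by
                          have : mu - θ = (cm - θ) + -(e * r0) := by rw [her]; ring
                          rw [this, ← pa]
                          ring
                        rw [h1, hlam]
                        exact mul_le_mul hPm1 hMDr (by (clear * - hD2; positivity)) hPmp.le
                      have hl2 : lam ≤ S.Q * D ^ (mu + θ) := by
                        have h1 : S.Q * D ^ (mu + θ) = (S.Q * D ^ (cm + θ)) * D ^ (-(e * r0)) := by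
                          have : mu + θ = (cm + θ) + -(e * r0) := by rw [her]; ring
                          rw [this, ← pa]
                          ring
                        rw [h1, hlam]
                        exact mul_le_mul hPm2 (hMDj r0) (by (clear * - hMpos hD2; positivity)) (mul_nonneg hQp.le (pp _).le)
                      -- `w`
                      exact by
                        set w : ℝ := D ^ (-κ1) with hw
                        have hw0 : 0 < w := pp _
                        have hT : D ^ (1 - θ) ≤ S.T := hG.T1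
                        have hδNm := hδn Nm le_rfl
                        have hEnv : Env S N δ M R w Nm :=
                          { ρ0 := hG.ρ0
                            ρ1 := hG.ρ1
                            D1 := hD1
                            δ0 := hδ0
                            δ1 := hδ2
                            u1 := hG.u1
                            u2 := hG.u2
                            MT := by
                              refine hM1.trans ?_
                              calc D ^ (1 - e) ≤ D ^ (-θ + (1 - θ)) := pw (by (clear * - hκ1e hθp hθ1; linarith))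
                                _ = D ^ (-θ) * D ^ (1 - θ) := (pa _ _).symm
                                _ ≤ δ ^ Nm * S.T := mul_le_mul hδNm hT (pp _).le (pow_pos hδ0 _).le
                            M1 := (hδi Nm le_rfl).trans (le_trans (pw (by (clear * - hθ2; linarith))) hM3)
                            MD := hMD.trans (pw (by (clear * - hκ1e hθp hθ1; linarith)))
                            w1 := le_trans (pw (by (clear * - hθp hθ1; linarith))) hδNm
                            P0 := hP0
                            PR := by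
                              intro i
                              calc S.P i * ((M : ℝ) / D) ^ R ≤ (S.Q * D ^ (cm + θ)) * D ^ (-(e * R)) :=
                                    mul_le_mul (hPi i) (hMDj R) (by (clear * - hMpos hD2; positivity)) (mul_nonneg hQp.le (pp _).le)
                                _ = S.Q * D ^ (cm + θ + -(e * R)) := by rw [mul_assoc, pa]
                                _ ≤ S.Q * D ^ (-κ1) := by
                                    refine mul_le_mul_of_nonneg_left (pw ?_) hQp.le
                                    have : e * R = R * e := mul_comm _ _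
                                    (clear * - hg0p hg0b he1 hκ1e hRe hθ1; linarith)
                                _ = w * S.Q := mul_comm _ _
                            wQ := by
                              calc (1 : ℝ) = D ^ (0 : ℝ) := (Real.rpow_zero D).symm
                                _ ≤ D ^ (-κ1 + 2) := pw (by (clear * - hg0p hg0b he1 hκ1e; linarith))
                                _ = D ^ (-κ1) * D ^ (2 : ℝ) := (pa _ _).symm
                                _ ≤ w * S.Q := mul_le_mul_of_nonneg_left hQ1 hw0.le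
                            QN := hG.N2 }
                        -- `ν M ≤ D / 2`, `n₁ M ≤ D / 4`
                        have hMθ : D ^ θ * M ≤ D := by
                          calc D ^ θ * M ≤ D ^ θ * D ^ (1 - e) := mul_le_mul_of_nonneg_left hM1 (pp _).le
                            _ = D ^ (θ + (1 - e)) := pa _ _
                            _ ≤ D ^ (1 : ℝ) := pw (by (clear * - hκ1e hθp hθ1; linarith))
                            _ = D := Real.rpow_one D
                        exact by
                          have hνM : (ν : ℝ) * M ≤ D / 2 := by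
                            have := mul_le_mul_of_nonneg_right hA2 hMpos.le
                            (clear * - hMθ this; linarith)
                          have hn₁M : (n₁ : ℝ) * M ≤ D / 4 := by
                            have := mul_le_mul_of_nonneg_right hA3 hMpos.le
                            (clear * - hMθ this; linarith)
                          -- the initial list
                          have hclu := hinit S hD1 hG.ρ0 hG.ρ1 δ M (5 / 2 * D + ν * M) w hδ0 hδ1 (by (clear * - hD02 hDD hνM; linarith)) hw0.le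
                            hPmp.le (fun i => ⟨hP0 _, by
                              calc C0 * S.P i.castSucc ≤ D ^ θ * (S.Q * D ^ (c i.castSucc + θ)) :=
                                    mul_le_mul hA4 (hG.P2 _) (hP0 _) (pp _).le
                                _ = S.Q * D ^ (θ + (c i.castSucc + θ)) := by rw [← pa θ]; ring
                                _ ≤ S.Q * D ^ ((cm - θ) + -κ1) := by
                                    refine mul_le_mul_of_nonneg_left (pw ?_) hQp.le
                                    have := hgap i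
                                    (clear * - hκ1g hθp hθ1 this; linarith)
                                _ = (S.Q * D ^ (cm - θ)) * w := by rw [← pa]; ring
                                _ ≤ Pm * w := mul_le_mul_of_nonneg_right hPm1 hw0.le⟩)
                          have hadm : ∀ {B' : ℝ} {g : ZMod N → ℂ}, Adm δ⁻¹ B' g → 0 < B' → ∀ n : ℕ, 1 ≤ n →
                              Adm (δ⁻¹ ^ n) B' g := by
                            intro B' g hg hB' n hn
                            refine Adm.mono' hg hB' ?_
                            have := Pool.Agent.Helper82.NX.inv_pow_mono hδ0 hδ1 hn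
                            rwa [pow_one] at this
                          have hform' : δ ^ (m + 1) ≤ ‖lform S c 1 ((f (Fin.last m), Finsupp.single ([], Fin.last m) 1) ::
                              (f0, 0) :: List.ofFn fun i : Fin m =>
                                (f i.castSucc, (Finsupp.single (([] : List ℕ), i.castSucc) (1 : ℤ) : Phi (m + 1))))‖ := by
                            rw [← form_eq_lform]
                            refine le_trans ?_ hform
                            have := pow_anti hδ0 hδ1 (show 1 ≤ m + 1 by (clear * - c r0 εb s n₁ n₃ S X1; omega))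
                            rwa [pow_one] at this
                          obtain ⟨g0', t', _, ht'2, ht'3, ht'4, ht'5⟩ := hrd S N δ (5 / 2 * D) Pm w M
                            (Env.mono hEnv (le_max_left _ _)) hQpos hw0.le hPmp (by (clear * - hνM; linarith)) (f (Fin.last m))
                            (Finsupp.single ([], Fin.last m) 1)
                            ((f0, 0) :: List.ofFn fun i : Fin m =>
                                (f i.castSucc, (Finsupp.single (([] : List ℕ), i.castSucc) (1 : ℤ) : Phi (m + 1))))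
                            (by simp) (hadm (hf _) hQp _ (by omega))
                            (by
                              intro fp hfp
                              rw [List.mem_cons, List.mem_ofFn] at hfp
                              rcases hfp with rfl | ⟨i, rfl⟩
                              · exact hadm hf0 hQp _ (by omega)
                              · exact hadm (hf _) hQp _ (by omega))
                            (by
                              rw [List.map_cons, List.map_ofFn]
                              exact hclu) hform'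
                          -- the scale `X'`
                          set X' : ℝ := min X (S.Q * D ^ s) with hX'
                          exact by
                            have hX'Q : (S.Q : ℝ) ≤ X' := by
                              refine le_min hQX ?_
                              have : (1 : ℝ) ≤ D ^ s := Real.one_le_rpow hD1 hs0
                              exact le_mul_of_one_le_right hQp.le this
                            have hX'p : 0 < X' := lt_of_lt_of_le hQp hX'Q
                            have hX's : S.Q * D ^ (s - θ) ≤ X' := by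
                              refine le_min (le_trans ?_ hXs) (mul_le_mul_of_nonneg_left (pw (by (clear * - hθp; linarith))) hQp.le)
                              refine mul_le_mul_of_nonneg_left (pw ?_) hQp.le
                              have : θ / ((Nm : ℝ) + 1) ≤ θ := div_le_self hθp.le (by
                                have : (0 : ℝ) ≤ Nm := Nat.cast_nonneg _
                                (clear * -; linarith))
                              (clear * - this; linarith)
                            have hX's2 : X' ≤ S.Q * D ^ s := min_le_right _ _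
                            have hfX' : Adm (δ⁻¹ ^ n₁) X' (f (Fin.last m)) := by
                              refine hadm ⟨hfX.bdd, ?_⟩ hX'p _ (by omega)
                              exact TV.mono hfX.tv le_rfl hX'p (min_le_left _ _)
                            have hδ3 := hδn n₃ (le_max_right _ _)
                            exact by
                              have hδ3p : 0 < δ ^ n₃ := pow_pos hδ0 _
                              -- lower bound for `lam K / D`
                              have hKD1 : (K : ℝ) / D ≤ D ^ (k - 1) := by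
                                have h1 := div_le_div_of_nonneg_right hK1 hDp.le
                                rwa [eD] at h1
                              have hKD2 : D ^ (k - 1) / 2 ≤ (K : ℝ) / D := by
                                have h1 := div_le_div_of_nonneg_right hK2 hDp.le
                                rwa [div_right_comm, eD] at h1
                              have hlow : S.Q * D ^ (s + g0) ≤ δ ^ n₃ * (lam * ((K : ℝ) / D)) := by
                                calc S.Q * D ^ (s + g0) ≤ S.Q * D ^ (-θ + (mu - θ) + (k - 1) + -θ) := by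
                                      refine mul_le_mul_of_nonneg_left (pw ?_) hQp.le
                                      rw [hmu, hk]
                                      (clear * - hθp hθ3; linarith)
                                  _ = D ^ (-θ) * ((S.Q * D ^ (mu - θ)) * D ^ (k - 1)) * D ^ (-θ) := by
                                      rw [← pa, ← pa, ← pa]; ring
                                  _ ≤ D ^ (-θ) * ((S.Q * D ^ (mu - θ)) * D ^ (k - 1)) * (1 / 2 ^ (r0 + 1)) := by
                                      refine mul_le_mul_of_nonneg_left ?_ (by (clear * - hD2 hQpos; positivity))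
                                      rw [Real.rpow_neg hDp.le, one_div]
                                      exact inv_anti₀ (by positivity) hA1
                                  _ = D ^ (-θ) * ((S.Q * D ^ (mu - θ) / 2 ^ r0) * (D ^ (k - 1) / 2)) := by
                                      rw [pow_succ]
                                      (clear * - hD2 hQpos; field_simp)
                                  _ ≤ δ ^ n₃ * (lam * ((K : ℝ) / D)) := by
                                      refine mul_le_mul hδ3 (mul_le_mul hl1 hKD2 (by (clear * - hD2; positivity)) hlamp.le) (by (clear * - hQpos hD2; positivity))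
                                        hδ3p.le
                              have hbox := hsw (m + 1) S c N δ (5 / 2 * D) lam w X' M R K (Env.mono hEnv (le_max_right _ _))
                                hlamp le_rfl (by (clear * - hD02 hDD; linarith)) (f (Fin.last m)) g0' t' hfX' (ht'2 (by (clear * - c hr0 εb s s₁ n₁ n₃ S X1 t'; omega))) ht'4 hn₁M ht'5
                                (by
                                  refine (hδi n₃ (le_max_right _ _)).trans (le_trans (pw ?_) hK3)
                                  rw [hk]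
                                  (clear * - hg0b hθp hθ3; linarith))
                                (by
                                  refine hK1.trans ?_
                                  calc D ^ k ≤ D ^ (-θ + (1 - θ)) := pw (by rw [hk]; (clear * - hκ hθp hθ3; linarith))
                                    _ = D ^ (-θ) * D ^ (1 - θ) := (pa _ _).symm
                                    _ ≤ δ ^ n₃ * S.T := mul_le_mul hδ3 hT (pp _).le hδ3p.le)
                                (by
                                  calc lam * ((K : ℝ) / D) ^ 2 ≤ (S.Q * D ^ (mu + θ)) * (D ^ (k - 1)) ^ 2 := by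
                                        refine mul_le_mul hl2 (pow_le_pow_left₀ (by (clear * - hD2; positivity)) hKD1 2) (by (clear * -; positivity))
                                          (mul_nonneg hQp.le (pp _).le)
                                    _ = S.Q * D ^ ((mu + θ) + ((k - 1) + (k - 1))) := by
                                        rw [← pa (mu + θ), ← pa (k - 1)]; ring
                                    _ ≤ S.Q * D ^ (-θ + (s - θ)) := by
                                        refine mul_le_mul_of_nonneg_left (pw ?_) hQp.le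
                                        rw [hmu, hk]
                                        (clear * - hκ hθp hθ3; linarith)
                                    _ = D ^ (-θ) * (S.Q * D ^ (s - θ)) := by rw [← pa]; ring
                                    _ ≤ δ ^ n₃ * X' := mul_le_mul hδ3 hX's (by (clear * - hQpos hD2; positivity)) hδ3p.le)
                                (by
                                  calc lam / D ≤ (S.Q * D ^ (mu + θ)) / D := div_le_div_of_nonneg_right hl2 hDp.le
                                    _ = S.Q * D ^ (mu + θ - 1) := by rw [mul_div_assoc, eD]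
                                    _ ≤ S.Q * D ^ (-θ + (s - θ)) := by
                                        refine mul_le_mul_of_nonneg_left (pw ?_) hQp.le
                                        rw [hmu]
                                        (clear * - hg0p hg0b he1 hκ1e hθ1; linarith)
                                    _ = D ^ (-θ) * (S.Q * D ^ (s - θ)) := by rw [← pa]; ring
                                    _ ≤ δ ^ n₃ * X' := mul_le_mul hδ3 hX's (by (clear * - hQpos hD2; positivity)) hδ3p.le)
                                (by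
                                  calc (1 : ℝ) = D ^ (0 : ℝ) := (Real.rpow_zero D).symm
                                    _ ≤ D ^ (-θ + 2) := pw (by (clear * - hg0p hg0b he1 hκ1e hθ1; linarith))
                                    _ = D ^ (-θ) * D ^ (2 : ℝ) := (pa _ _).symm
                                    _ ≤ δ ^ n₃ * X' := mul_le_mul hδ3 (hQ1.trans hX'Q) (pp _).le hδ3p.le)
                                (by
                                  refine hX's2.trans ?_
                                  have h1 : S.Q * D ^ (cm - θ) ≤ N * D ^ θ := hPm1.trans (hG.N1 _)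
                                  have h2 : S.Q * D ^ (cm - θ - θ) ≤ N := by
                                    have h3 := mul_le_mul_of_nonneg_right h1 (pp (-θ)).le
                                    rw [mul_assoc, pa, mul_assoc, pa] at h3
                                    have h4 : θ + -θ = 0 := by ring
                                    rw [h4, Real.rpow_zero, mul_one] at h3
                                    refine le_trans (le_of_eq ?_) h3
                                    congr 2
                                  refine le_trans (mul_le_mul_of_nonneg_left (pw ?_) hQp.le) h2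
                                  (clear * - hs hg0p hg0a hκ hθ3; linarith))
                                (by
                                  refine hX's2.trans (le_trans (mul_le_mul_of_nonneg_left (pw ?_) hQp.le) hlow)
                                  (clear * - hg0p; linarith))
                                X1 hX1
                                (by
                                  refine hX1s.trans (le_trans (mul_le_mul_of_nonneg_left (pw ?_) hQp.le) hlow)
                                  (clear * - hs'; linarith))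
                              exact Box_raise _ _ _ ht'3 hX1 hfX.bdd hδ0 hδ1 _ hbox

end

end Pool.Agent.Helper82.NX2

end

section

set_option autoImplicit false

open Finset

open scoped BigOperators ComplexConjugate

namespace Pool.Agent.Helper67.NX2

open Pool.Agent.Helper57.NX

noncomputable section

theorem e_mul_conj (a b : ℕ) (t n : ℝ) :
    e (-((a : ℝ) * t / n)) * conj (e (-((b : ℝ) * t / n))) = e (t * (((b : ℤ) - a : ℤ) : ℝ) / n) := by
  rw [← e_neg, ← e_add]
  congr 1
  push_cast
  ring

theorem parseval (n : ℕ) (hn : 1 ≤ n) (A : Finset ℕ) (hA : A ⊆ range n) (c : ℕ → ℂ) :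
    𝔼 t ∈ range n, ‖∑ a ∈ A, c a * e (-((a : ℝ) * t / n))‖ ^ 2 = ∑ a ∈ A, ‖c a‖ ^ 2 := by
  have hn0 : (n : ℝ) ≠ 0 := by positivity
  have hnc : (n : ℂ) ≠ 0 := by exact_mod_cast hn0
  have key : ∑ t ∈ range n, ‖∑ a ∈ A, c a * e (-((a : ℝ) * t / n))‖ ^ 2 =
      n * ∑ a ∈ A, ‖c a‖ ^ 2 := by
    have hC : ((∑ t ∈ range n, ‖∑ a ∈ A, c a * e (-((a : ℝ) * t / n))‖ ^ 2 : ℝ) : ℂ) =
        ((n * ∑ a ∈ A, ‖c a‖ ^ 2 : ℝ) : ℂ) := by
      push_cast
      have h1 : ∀ t ∈ range n, ((‖∑ a ∈ A, c a * e (-((a : ℝ) * t / n))‖ : ℂ)) ^ 2 =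
          ∑ a ∈ A, ∑ b ∈ A, c a * conj (c b) * e ((t : ℝ) * (((b : ℤ) - a : ℤ) : ℝ) / n) := by
        intro t _
        rw [← Complex.mul_conj', map_sum, sum_mul_sum]
        refine sum_congr rfl fun a _ => sum_congr rfl fun b _ => ?_
        rw [map_mul, ← e_mul_conj a b t n]
        ring
      rw [sum_congr rfl h1, sum_comm, mul_sum]
      refine sum_congr rfl fun a ha => ?_
      rw [sum_comm]
      have h2 : ∀ b ∈ A, ∑ t ∈ range n, c a * conj (c b) *
          e ((t : ℝ) * (((b : ℤ) - a : ℤ) : ℝ) / n) =
          if b = a then c a * conj (c b) * n else 0 := by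
        intro b hb
        rw [← mul_sum, orth n hn]
        have ha' := mem_range.mp (hA ha)
        have hb' := mem_range.mp (hA hb)
        by_cases hab : b = a
        · rw [if_pos hab, if_pos]
          rw [hab]; simp
        · rw [if_neg hab, if_neg, mul_zero]
          intro hd
          apply hab
          have h3 : |((b : ℤ) - a)| < n := by
            rw [abs_lt]; constructor <;> omega
          have h4 := Int.eq_zero_of_abs_lt_dvd hd h3
          omega
      rw [sum_congr rfl h2, sum_ite_eq' A a, if_pos ha, Complex.mul_conj']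
      ring
    exact_mod_cast hC
  rw [Finset.expect_eq_sum_div_card, card_range, key]
  field_simp

theorem pars (r1 : ℕ) (hr1 : 1 ≤ r1) (E : Finset ℕ) (hE : ∀ p ∈ E, p.Prime) (Y : Finset ℕ)
    (f : ℕ → ℝ) :
    𝔼 t ∈ range (∏ p ∈ E, p ^ r1), (∑ y ∈ Y, f y *
        ∏ p ∈ E, ((if y ≡ t [MOD p ^ r1] then (p : ℝ) ^ r1 else 0) - 1)) ^ 2 =
      ∑ a ∈ AE r1 E, ‖∑ y ∈ Y, (f y : ℂ) *
        e ((a : ℝ) / ((∏ p ∈ E, p ^ r1 : ℕ) : ℝ) * y)‖ ^ 2 := by
  have hq1 : ∀ p ∈ E, 1 ≤ p ^ r1 := fun p hp => Nat.one_le_pow _ _ (hE p hp).pos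
  have hq : ∀ p ∈ E, ∀ p' ∈ E, p ≠ p' → Nat.Coprime (p ^ r1) (p' ^ r1) := fun p hp p' hp' hne =>
    Nat.Coprime.pow _ _ ((Nat.coprime_primes (hE p hp) (hE p' hp')).mpr hne)
  set n := ∏ p ∈ E, p ^ r1 with hn
  have hn1 : 1 ≤ n := Nat.one_le_iff_ne_zero.mpr
    (prod_ne_zero_iff.mpr fun p hp => by have := hq1 p hp; omega)
  have hn0 : (n : ℝ) ≠ 0 := by (clear * - hn1; positivity)
  have hAE : AE r1 E = (range n).filter (fun a => ∀ p ∈ E, ¬ p ^ r1 ∣ a) := rfl
  exact by
    have hsub : AE r1 E ⊆ range n := filter_subset _ _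
    rw [← parseval n hn1 (AE r1 E) hsub]
    refine Finset.expect_congr rfl fun t _ => ?_
    have h1 : ((∑ y ∈ Y, f y *
          ∏ p ∈ E, ((if y ≡ t [MOD p ^ r1] then (p : ℝ) ^ r1 else 0) - 1) : ℝ) : ℂ) =
        ∑ a ∈ AE r1 E, (∑ y ∈ Y, (f y : ℂ) * e ((a : ℝ) / (n : ℝ) * y)) *
          e (-((a : ℝ) * t / n)) := by
      push_cast
      have h2 : ∀ y ∈ Y, (f y : ℂ) *
          ∏ p ∈ E, (((if y ≡ t [MOD p ^ r1] then (p : ℝ) ^ r1 else 0 : ℝ) : ℂ) - 1) =
          ∑ a ∈ AE r1 E, (f y : ℂ) * e ((a : ℝ) / (n : ℝ) * y) * e (-((a : ℝ) * t / n)) := by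
        intro y _
        have h3 := prod_sub_one (fun p => p ^ r1) E hq1 hq ((y : ℤ) - t)
        have h4 : ∏ p ∈ E, (((if y ≡ t [MOD p ^ r1] then (p : ℝ) ^ r1 else 0 : ℝ) : ℂ) - 1) =
            ∏ p ∈ E, ((if ((p ^ r1 : ℕ) : ℤ) ∣ (y : ℤ) - t then ((p ^ r1 : ℕ) : ℂ) else 0) - 1) := by
          refine prod_congr rfl fun p hp => ?_
          have h5 : (y ≡ t [MOD p ^ r1]) ↔ (((p ^ r1 : ℕ) : ℤ) ∣ (y : ℤ) - t) := by
            constructor
            · intro h
              exact (Nat.modEq_iff_dvd.mp h.symm)
            · intro h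
              exact (Nat.modEq_iff_dvd.mpr h).symm
          by_cases h6 : y ≡ t [MOD p ^ r1]
          · rw [if_pos h6, if_pos (h5.mp h6)]
            push_cast
            ring
          · rw [if_neg h6, if_neg (fun h => h6 (h5.mpr h))]
            push_cast
            ring
        rw [h4, h3, mul_sum]
        refine sum_congr rfl fun a _ => ?_
        rw [mul_assoc, ← e_add]
        have h7 : (a : ℝ) * (((y : ℤ) - t : ℤ) : ℝ) / ((∏ p ∈ E, p ^ r1 : ℕ) : ℝ) =
            (a : ℝ) / (n : ℝ) * y + -((a : ℝ) * t / n) := by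
          rw [← hn]
          push_cast
          ring
        rw [h7]
      rw [sum_congr rfl h2, sum_comm]
      refine sum_congr rfl fun a _ => ?_
      rw [sum_mul]
    rw [← h1, Complex.norm_real, Real.norm_eq_abs, sq_abs]

end

end Pool.Agent.Helper67.NX2

end
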