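import Pool.Agent.Helper23.MC.L01_a1
import Pool.Agent.Helper23.MC.L01_a10
import Pool.Agent.Helper23.MC.L01_a12
import Pool.Agent.Helper23.MC.L01_a13
import Pool.Agent.Helper23.MC.L01_a6
import Pool.Agent.Helper23.MC.L01_a8

/-!
Parts of Helper99.NX.LpLocalAux, Helper73.NX2.LpLocalAux, Helper73.NX2.LpLocalOf, Helper46.NX2.PrimesModelOf
-/

attribute [local instance 5000]
  Pool.Agent.Helper23.MC.Inst.rCharZero Pool.Agent.Helper23.MC.Inst.rALM
  Pool.Agent.Helper23.MC.Inst.rARM Pool.Agent.Helper23.MC.Inst.rALSM
  Pool.Agent.Helper23.MC.Inst.rARSM Pool.Agent.Helper23.MC.Inst.rARRLE
  Pool.Agent.Helper23.MC.Inst.rALRLE Pool.Agent.Helper23.MC.Inst.rARRLT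
  Pool.Agent.Helper23.MC.Inst.rALRLT Pool.Agent.Helper23.MC.Inst.rPMRLT
  Pool.Agent.Helper23.MC.Inst.rMPRLT Pool.Agent.Helper23.MC.Inst.rPMM
  Pool.Agent.Helper23.MC.Inst.rMPM Pool.Agent.Helper23.MC.Inst.rPMSM
  Pool.Agent.Helper23.MC.Inst.rMPSM Pool.Agent.Helper23.MC.Inst.rEAOL
  Pool.Agent.Helper23.MC.Inst.rIOR Pool.Agent.Helper23.MC.Inst.rISOR
  Pool.Agent.Helper23.MC.Inst.rNZD Pool.Agent.Helper23.MC.Inst.rcCharZero
  Pool.Agent.Helper23.MC.Inst.rcNZD Pool.Agent.Helper23.MC.Inst.zCharZero
  Pool.Agent.Helper23.MC.Inst.zALM Pool.Agent.Helper23.MC.Inst.zARM
  Pool.Agent.Helper23.MC.Inst.zALSM Pool.Agent.Helper23.MC.Inst.zARSM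
  Pool.Agent.Helper23.MC.Inst.zIOR Pool.Agent.Helper23.MC.Inst.zISOR
  Pool.Agent.Helper23.MC.Inst.zNZD Pool.Agent.Helper23.MC.Inst.qCharZero
  Pool.Agent.Helper23.MC.Inst.mR Pool.Agent.Helper23.MC.Inst.mC Pool.Agent.Helper23.MC.Inst.mRC
  Pool.Agent.Helper23.MC.Inst.rPSM Pool.Agent.Helper23.MC.Inst.rCSM
  Pool.Agent.Helper23.MC.Inst.cAdd Pool.Agent.Helper23.MC.Inst.cAddM
  Pool.Agent.Helper23.MC.Inst.cMul Pool.Agent.Helper23.MC.Inst.cMon

namespace Pool.Agent.Helper57.NX
end Pool.Agent.Helper57.NX

section

set_option autoImplicit false

open Finset

open scoped BigOperators ComplexConjugate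

namespace Pool.Agent.Helper57.NX

noncomputable section

theorem lpl_f0_tv {N : ℕ} [NeZero N] (f0 : ZMod N → ℂ) (hf0 : ∀ x, ‖f0 x‖ ≤ 1) (B Q ϑ W : ℝ)
    (hQ : 0 < Q) (hB : TV B Q f0) (hW : |ϑ| ≤ W / Q) (L : ℕ) (z : ZMod N) (a l : ℕ) :
    ∑ j ∈ range l, ‖(if a + j + 1 < L then f0 (z + ((a + j + 1 : ℕ) : ZMod N)) *
        e (ϑ * ((a + j + 1 : ℕ) : ℝ)) else 0) - (if a + j < L then f0 (z + ((a + j : ℕ) : ZMod N)) *
        e (ϑ * ((a + j : ℕ) : ℝ)) else 0)‖ ≤ (1 + B + 2 * Real.pi * W) * (l / Q + 1) := by
  have hB0 := hB.nonneg
  have hstep : ∀ j : ℕ, ‖(if a + j + 1 < L then f0 (z + ((a + j + 1 : ℕ) : ZMod N)) *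
        e (ϑ * ((a + j + 1 : ℕ) : ℝ)) else 0) - (if a + j < L then f0 (z + ((a + j : ℕ) : ZMod N)) *
        e (ϑ * ((a + j : ℕ) : ℝ)) else 0)‖ ≤
      ((if a + (j + 1) < L then (0 : ℝ) else 1) - (if a + j < L then (0 : ℝ) else 1)) +
      ‖f0 ((z + (a : ZMod N)) + (j : ZMod N) + 1) - f0 ((z + (a : ZMod N)) + (j : ZMod N))‖ +
      2 * Real.pi * (W / Q) := by
    intro j
    have hn : 0 ≤ ‖f0 ((z + (a : ZMod N)) + (j : ZMod N) + 1) - f0 ((z + (a : ZMod N)) + (j : ZMod N))‖ :=
      norm_nonneg _
    have hWQ : 0 ≤ W / Q := (abs_nonneg _).trans hW
    have hn2 : 0 ≤ 2 * Real.pi * (W / Q) := by positivity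
    rw [← add_assoc a j 1]
    by_cases h1 : a + j + 1 < L
    · have h2 : a + j < L := by omega
      exact by
        rw [if_pos h1, if_pos h2, if_pos h1, if_pos h2]
        have e1 : z + ((a + j + 1 : ℕ) : ZMod N) = (z + (a : ZMod N)) + (j : ZMod N) + 1 := by
          push_cast; ring
        have e2 : z + ((a + j : ℕ) : ZMod N) = (z + (a : ZMod N)) + (j : ZMod N) := by
          push_cast; ring
        rw [e1, e2]
        generalize (z + (a : ZMod N)) + (j : ZMod N) + 1 = p
        generalize (z + (a : ZMod N)) + (j : ZMod N) = q
        have h3 := norm_e_sub_e_le (ϑ * ((a + j + 1 : ℕ) : ℝ)) (ϑ * ((a + j : ℕ) : ℝ))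
        have h4 : ϑ * ((a + j + 1 : ℕ) : ℝ) - ϑ * ((a + j : ℕ) : ℝ) = ϑ := by push_cast; ring
        rw [h4] at h3
        have h5 : f0 p * e (ϑ * ((a + j + 1 : ℕ) : ℝ)) - f0 q * e (ϑ * ((a + j : ℕ) : ℝ)) =
            (f0 p - f0 q) * e (ϑ * ((a + j + 1 : ℕ) : ℝ)) +
            f0 q * (e (ϑ * ((a + j + 1 : ℕ) : ℝ)) - e (ϑ * ((a + j : ℕ) : ℝ))) := by ring
        rw [h5]
        refine (norm_add_le _ _).trans ?_
        rw [norm_mul, norm_mul, norm_e, mul_one]
        have h6 : ‖f0 q‖ * ‖e (ϑ * ((a + j + 1 : ℕ) : ℝ)) - e (ϑ * ((a + j : ℕ) : ℝ))‖ ≤
            1 * (2 * Real.pi * (W / Q)) := by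
          refine mul_le_mul (hf0 _) (h3.trans ?_) (norm_nonneg _) zero_le_one
          (clear * - hW; gcongr)
        (clear * - h6; linarith)
    · by_cases h2 : a + j < L
      · rw [if_neg h1, if_pos h2, if_neg h1, if_pos h2, zero_sub, norm_neg, norm_mul, norm_e, mul_one]
        (clear * - hn hn2 hf0; linarith [hf0 (z + ((a + j : ℕ) : ZMod N))])
      · rw [if_neg h1, if_neg h2, if_neg h1, if_neg h2, sub_self, sub_self, norm_zero]
        (clear * - hn hn2; linarith)
  refine (sum_le_sum fun j _ => hstep j).trans ?_
  rw [sum_add_distrib, sum_add_distrib, sum_range_sub (fun j => if a + j < L then (0 : ℝ) else 1) l]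
  have h1 : ((if a + l < L then (0 : ℝ) else 1) - (if a + 0 < L then (0 : ℝ) else 1)) ≤ 1 := by
    split_ifs <;> norm_num
  have h2 := hB (z + (a : ZMod N)) l
  simp only [sum_const, card_range, nsmul_eq_mul]
  have hWQ : 0 ≤ W / Q := (abs_nonneg _).trans hW
  have hW0 : 0 ≤ W := by
    have := mul_nonneg hWQ hQ.le
    rwa [div_mul_cancel₀ _ hQ.ne'] at this
  exact by
    have h3 : (l : ℝ) * (2 * Real.pi * (W / Q)) = 2 * Real.pi * W * (l / Q) := by ring
    rw [h3]
    have h4 : (0 : ℝ) ≤ l / Q := by (clear * - hQ; positivity)
    have h5 : 0 ≤ Real.pi * W := by (clear * - hW0; positivity)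
    (clear * - h1 h2 h4 h5; nlinarith)

theorem lpl_classes {N : ℕ} [NeZero N] (X q0 Q : ℕ) (hX : 1 ≤ X) (hq0 : 1 ≤ q0) (hQX : Q ≤ X)
    (hQ : 0 < Q) (I W M : ℝ) (hI : 2 ≤ I) (hIW : I ≤ W) (hWM : 32 * W ≤ M) (z : ZMod N) (ϑ : ℝ)
    (hϑQ : |ϑ| ≤ 2 * W / Q) [NeZero (4 * (X * q0))] (f0 : ZMod N → ℂ) (hf0 : Adm I Q f0) :
    Adm (N := 4 * (X * q0)) M Q (fun y => if y.val < X * q0 then
      f0 (z + (y.val : ZMod N)) * e (ϑ * (y.val : ℝ)) else 0) := by
  have hQ0 : (0 : ℝ) < Q := by exact_mod_cast hQ
  have hQN' : (Q : ℝ) ≤ ((4 * (X * q0) : ℕ) : ℝ) := by
    have : Q ≤ 4 * (X * q0) := by (clear * - hX hQX hq0; nlinarith)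
    exact_mod_cast this
  have hb0 : ∀ t : ℕ, ‖(if t < X * q0 then f0 (z + (t : ZMod N)) * e (ϑ * (t : ℝ)) else 0)‖ ≤ 1 := by
    intro t
    split_ifs
    · rw [norm_mul, norm_e, mul_one]; exact hf0.bdd _
    · simp
  refine ⟨fun y => hb0 y.val, ?_⟩
  have h1 := lpl_wrap (N' := 4 * (X * q0))
    (fun t => if t < X * q0 then f0 (z + (t : ZMod N)) * e (ϑ * (t : ℝ)) else 0)
    (1 + I + 2 * Real.pi * (2 * W)) Q hQ0 hQN' hb0
    (fun a l => lpl_f0_tv f0 hf0.bdd I Q ϑ (2 * W) hQ0 hf0.tv hϑQ (X * q0) z a l)
  refine h1.mono ?_ hQ0 le_rfl
  refine le_trans ?_ hWM
  have hπ : Real.pi ≤ 3.15 := Real.pi_lt_d2.le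
  have h2 : Real.pi * W ≤ 3.15 * W := mul_le_mul_of_nonneg_right hπ (by (clear * - hI hIW; linarith))
  (clear * - hI hIW h2; linarith)

theorem lpl_classes_i {N : ℕ} [NeZero N] (X q0 Q : ℕ) (hX : 1 ≤ X) (hq0 : 1 ≤ q0) (hQX : Q ≤ X)
    (hQ : 0 < Q) (I W M : ℝ) (hI : 2 ≤ I) (hIW : I ≤ W) (hWM : 32 * W ≤ M) (z : ZMod N)
    [NeZero (4 * (X * q0))] (f : ZMod N → ℂ) (hf : Adm I Q f) :
    Adm (N := 4 * (X * q0)) M Q (fun y => f (z + (y.val : ZMod N))) := by
  have hQ0 : (0 : ℝ) < Q := by exact_mod_cast hQ
  have hQN' : (Q : ℝ) ≤ ((4 * (X * q0) : ℕ) : ℝ) := by
    have : Q ≤ 4 * (X * q0) := by (clear * - hX hQX hq0; nlinarith)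
    exact_mod_cast this
  refine ⟨fun y => hf.bdd _, ?_⟩
  have h1 := lpl_wrap (N' := 4 * (X * q0)) (fun t => f (z + (t : ZMod N))) I Q hQ0 hQN'
    (fun t => hf.bdd _) (fun a l => lpl_fi_tv f I Q hf.tv z a l)
  refine h1.mono ?_ hQ0 le_rfl
  refine le_trans ?_ hWM
  (clear * - hI hIW; linarith)

end

end Pool.Agent.Helper57.NX

end

section

set_option autoImplicit false

open Finset

open scoped BigOperators ComplexConjugate

namespace Pool.Agent.Helper67.NX2

open Pool.Agent.Helper57.NX

noncomputable section

theorem lpl2_classes {N N' : ℕ} [NeZero N] (X q0 Q : ℕ) (hX : 1 ≤ X) (hq0 : 1 ≤ q0) (hQX : Q ≤ X)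
    (hQ : 0 < Q) (I W M : ℝ) (hI : 2 ≤ I) (hIW : I ≤ W) (hWM : 32 * W ≤ M) (z : ZMod N) (ϑ : ℝ)
    (hϑQ : |ϑ| ≤ 2 * W / Q) [NeZero N'] (hN' : 4 * (X * q0) ≤ N') (f0 : ZMod N → ℂ) (hf0 : Adm I Q f0) :
    Adm (N := N') M Q (fun y => if y.val < X * q0 then
      f0 (z + (y.val : ZMod N)) * e (ϑ * (y.val : ℝ)) else 0) := by
  have hQ0 : (0 : ℝ) < Q := by exact_mod_cast hQ
  have hQN' : (Q : ℝ) ≤ (N' : ℝ) := by
    have : Q ≤ 4 * (X * q0) := by (clear * - hX hQX hq0; nlinarith)
    exact_mod_cast this.trans hN'
  have hb0 : ∀ t : ℕ, ‖(if t < X * q0 then f0 (z + (t : ZMod N)) * e (ϑ * (t : ℝ)) else 0)‖ ≤ 1 := by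
    intro t
    split_ifs
    · rw [norm_mul, norm_e, mul_one]; exact hf0.bdd _
    · simp
  refine ⟨fun y => hb0 y.val, ?_⟩
  have h1 := lpl_wrap (N' := N')
    (fun t => if t < X * q0 then f0 (z + (t : ZMod N)) * e (ϑ * (t : ℝ)) else 0)
    (1 + I + 2 * Real.pi * (2 * W)) Q hQ0 hQN' hb0
    (fun a l => lpl_f0_tv f0 hf0.bdd I Q ϑ (2 * W) hQ0 hf0.tv hϑQ (X * q0) z a l)
  refine h1.mono ?_ hQ0 le_rfl
  refine le_trans ?_ hWM
  have hπ : Real.pi ≤ 3.15 := Real.pi_lt_d2.le
  have h2 : Real.pi * W ≤ 3.15 * W := mul_le_mul_of_nonneg_right hπ (by (clear * - hI hIW; linarith))
  (clear * - hI hIW h2; linarith)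

theorem lpl2_classes_i {N N' : ℕ} [NeZero N] (X q0 Q : ℕ) (hX : 1 ≤ X) (hq0 : 1 ≤ q0) (hQX : Q ≤ X)
    (hQ : 0 < Q) (I W M : ℝ) (hI : 2 ≤ I) (hIW : I ≤ W) (hWM : 32 * W ≤ M) (z : ZMod N)
    [NeZero N'] (hN' : 4 * (X * q0) ≤ N') (f : ZMod N → ℂ) (hf : Adm I Q f) :
    Adm (N := N') M Q (fun y => f (z + (y.val : ZMod N))) := by
  have hQ0 : (0 : ℝ) < Q := by exact_mod_cast hQ
  have hQN' : (Q : ℝ) ≤ (N' : ℝ) := by
    have : Q ≤ 4 * (X * q0) := by (clear * - hX hQX hq0; nlinarith)
    exact_mod_cast this.trans hN'
  refine ⟨fun y => hf.bdd _, ?_⟩
  have h1 := lpl_wrap (N' := N') (fun t => f (z + (t : ZMod N))) I Q hQ0 hQN'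
    (fun t => hf.bdd _) (fun a l => lpl_fi_tv f I Q hf.tv z a l)
  refine h1.mono ?_ hQ0 le_rfl
  refine le_trans ?_ hWM
  (clear * - hI hIW; linarith)

theorem lpl2_classes_c {N' : ℕ} (X q0 κ : ℕ) (hX : 1 ≤ X) (hq0 : 1 ≤ q0) (W M : ℝ) (hW : 2 ≤ W)
    (hWM : 32 * W ≤ M) (cc : ℕ → ℂ) (φ : ℕ → ℝ) (ϑ : ℝ) (hcc : ∀ j, ‖cc j‖ ≤ 1)
    (hφ : ∀ j, j / q0 = κ → cc j ≠ 0 → |φ j - ϑ| ≤ W / X) [NeZero N'] (hN' : 4 * (X * q0) ≤ N')
    (t : ZMod N') :
    Adm (N := N') M X (fun y => cpf X (X * q0) κ cc φ ϑ (y - t).val) := by
  have hX0 : (0 : ℝ) < X := by exact_mod_cast hX
  have hXN' : (X : ℝ) ≤ (N' : ℝ) := by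
    have : X ≤ 4 * (X * q0) := by nlinarith
    exact_mod_cast this.trans hN'
  have h1 := lpl_wrap (N' := N') (cpf X (X * q0) κ cc φ ϑ)
    (2 * Real.pi * W + 2) X hX0 hXN' (cpf_norm X (X * q0) κ cc φ ϑ hcc)
    (cpf_tv X q0 κ hX hq0 cc φ ϑ W (by (clear * - hW; linarith)) hcc hφ)
  have h2 : Adm (N := N') M X (fun y => cpf X (X * q0) κ cc φ ϑ y.val) := by
    refine ⟨fun y => cpf_norm X (X * q0) κ cc φ ϑ hcc _, ?_⟩
    refine h1.mono ?_ hX0 le_rfl
    refine le_trans ?_ hWM
    have hπ : Real.pi ≤ 3.15 := Real.pi_lt_d2.le
    have h2 : Real.pi * W ≤ 3.15 * W := mul_le_mul_of_nonneg_right hπ (by (clear * - hW; linarith))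
    linarith
  have h3 := h2.shift (-t)
  simpa only [sub_eq_add_neg] using h3

end

end Pool.Agent.Helper67.NX2

end

section

set_option autoImplicit false

open Finset

open scoped BigOperators ComplexConjugate

namespace Pool.Agent.Helper67.NX2

open Pool.Agent.Helper57.NX

noncomputable section

theorem lp_local_of (hRatl : RatlC) (m : ℕ) (c : Fin (m + 1) → ℝ) (hc : Ex c) (s s0 : ℝ) (hs0 : 0 ≤ s0)
    (hs0s : s0 ≤ s) (hs : s < c (Fin.last m)) (hnat : IsN (c (Fin.last m)) → 0 < s0)
    (hD : ∀ ε : ℝ, 0 < ε → DsPm m c s ε) :
    ∃ ε0 : ℝ, 0 < ε0 ∧ ∀ ε : ℝ, 0 < ε → ε ≤ ε0 → ∀ n : ℕ,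
    ∃ x0 : ℝ, 0 < x0 ∧ ∃ C : ℕ, ∃ σ : ℝ, 0 < σ ∧ ∃ D0 : ℝ,
    ∀ (S : Sys (m + 1)) (N : ℕ) [NeZero N] (lam : ℕ), D0 ≤ S.D → IG S c N x0 lam →
    ∀ δ : ℝ, S.D ^ (-σ) ≤ δ → δ ≤ 1 / 2 → (lam : ℝ) ≤ δ⁻¹ →
    ∀ X : ℕ, S.Q ≤ X → S.Q * S.D ^ (s - σ) ≤ (X : ℝ) → (X : ℝ) ≤ S.Q * S.D ^ s →
    ∀ q0 : ℕ, 1 ≤ q0 → S.P (Fin.last m) * S.D ^ (-ε) / 2 ≤ (X : ℝ) * q0 →
      (X : ℝ) * q0 ≤ S.P (Fin.last m) * S.D ^ (-ε) →
    ∀ (f0 : ZMod N → ℂ) (f : Fin m → ZMod N → ℂ),
    Adm δ⁻¹ S.Q f0 → (∀ i, Adm δ⁻¹ S.Q (f i)) →
    ∀ (r : ZMod N) (cc : ℕ → ℂ) (φ : ℕ → ℝ) (θ : ℕ → ℝ), (∀ j, ‖cc j‖ ≤ 1) →
    (∀ j, |φ j| ≤ δ⁻¹ / (S.Q * S.D ^ s0)) →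
    (∀ j, cc j ≠ 0 → |φ j - θ (j / q0)| ≤ δ⁻¹ ^ n / X) →
    δ ^ n ≤ ‖form S c 1 f0 (Fin.snoc (α := fun _ => ZMod N → ℂ) f (bphase X r cc φ))‖ →
    ∃ j, cc j ≠ 0 ∧ |φ j| ≤ δ⁻¹ ^ C / X := by
  set cl := c (Fin.last m) with hcl
  have hcl2 : 2 ≤ cl := hc.two _
  have hcl0 : 0 < cl := by linarith
  have hc0 : ∀ i, 0 < c i := fun i => by (clear * - hc; linarith [hc.two i])
  have hcs : StrictMono c := lpl2_strictMono hc
  have hgap : ∀ i : Fin m, 2 ≤ cl - c i.castSucc := fun i => by
    (clear * - hc; linarith [hc.gap i.castSucc (Fin.last m) (Fin.castSucc_lt_last i)])
  exact by
    obtain ⟨t1, ht1, ht1s⟩ : ∃ t1 : ℝ, 0 < t1 ∧ (IsN cl → t1 ≤ s0) := by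
      by_cases h : IsN cl
      · exact ⟨s0, hnat h, fun _ => le_rfl⟩
      · exact ⟨1, one_pos, fun h' => (h h').elim⟩
    obtain ⟨xE, hxE, CR, σE, hσE, DE, HE⟩ := hRatl c hcs hc0 (cl + 5) ((cl - s) / 8) (by (clear * - hs; linarith))
    obtain ⟨x2, hx2, C2, σ2, hσ2, D2, H2⟩ := hD (min (xE / 2) (1 / 2)) (by (clear * - hxE; positivity))
    have hmin0 : 0 < min (min (x2 / 4) ((cl - s) / 8)) (1 / 8) := by
      have : 0 < (cl - s) / 8 := by (clear * - hs; linarith)
      (clear * - hx2 hs; positivity)
    refine ⟨min (min (x2 / 4) ((cl - s) / 8)) (1 / 8), hmin0, fun ε hε hεle n0 => ?_⟩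
    have hε1 : ε ≤ x2 / 4 := hεle.trans ((min_le_left _ _).trans (min_le_left _ _))
    exact by
      have hε2 : ε ≤ (cl - s) / 8 := hεle.trans ((min_le_left _ _).trans (min_le_right _ _))
      have hε4 : ε ≤ 1 / 8 := hεle.trans (min_le_right _ _)
      obtain ⟨n, hn⟩ : ∃ n, n = n0 + 1 := ⟨_, rfl⟩
      obtain ⟨p1, hp1⟩ : ∃ p1, p1 = (n + 7) * (C2 + 1) + 1 := ⟨_, rfl⟩
      have hp1n : n + 7 ≤ p1 := by rw [hp1]; (clear * -; nlinarith)
      have hp1C : (n + 7) * C2 + 1 ≤ p1 := by rw [hp1]; (clear * - hn; nlinarith)
      obtain ⟨p, hp⟩ : ∃ p, p = p1 * (CR + 1) := ⟨_, rfl⟩
      have hp1p : p1 ≤ p := by rw [hp]; (clear * -; nlinarith)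
      have hp1R : p1 * CR ≤ p := by rw [hp]; (clear * - hn hp1n; nlinarith)
      exact by
        have hpn : n + 7 ≤ p := hp1n.trans hp1p
        have hpC : (n + 7) * C2 ≤ p := by omega
        have hp0 : 0 < p := by omega
        obtain ⟨ε2, hε2'⟩ : ∃ ε2, ε2 = min (xE / 2) (1 / 2) := ⟨_, rfl⟩
        have hε2a : ε2 ≤ xE / 2 := by rw [hε2']; exact min_le_left _ _
        have hε2b : ε2 ≤ 1 / 2 := by rw [hε2']; exact min_le_right _ _
        have hε20 : 0 < ε2 := by rw [hε2']; (clear * - hxE; positivity)
        exact by
          rw [← hε2'] at H2
          obtain ⟨Z, hZ⟩ : ∃ Z, Z = min (min σ2 (ε / 8)) (min (min (1 / 2) ε2) (min (σE / 2) (t1 / 4))) :=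
            ⟨_, rfl⟩
          have hZ0 : 0 < Z := by rw [hZ]; (clear * - hσ2 hε hε20 hσE ht1; positivity)
          have hZ1 : Z ≤ σ2 := by rw [hZ]; exact (min_le_left _ _).trans (min_le_left _ _)
          have hZ2 : Z ≤ ε / 8 := by rw [hZ]; exact (min_le_left _ _).trans (min_le_right _ _)
          have hZ3 : Z ≤ 1 / 2 := by
            rw [hZ]; exact (min_le_right _ _).trans ((min_le_left _ _).trans (min_le_left _ _))
          have hZ5 : Z ≤ ε2 := by
            rw [hZ]; exact (min_le_right _ _).trans ((min_le_left _ _).trans (min_le_right _ _))
          have hZ4 : Z ≤ σE / 2 := by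
            rw [hZ]; exact (min_le_right _ _).trans ((min_le_right _ _).trans (min_le_left _ _))
          exact by
            have hZ6 : Z ≤ t1 / 4 := by
              rw [hZ]; exact (min_le_right _ _).trans ((min_le_right _ _).trans (min_le_right _ _))
            obtain ⟨κ1, hκ1⟩ : ∃ κ1, κ1 = cl * 3 ^ cl := ⟨_, rfl⟩
            have hκ10 : 0 < κ1 := by rw [hκ1]; positivity
            obtain ⟨K0, hK0⟩ : ∃ K0 : ℝ, K0 = 16 * (2 * κ1 + 1) + 2 * 3 ^ cl + 4 := ⟨_, rfl⟩
            have h3cl : (0 : ℝ) < 3 ^ cl := by positivity
            have hev : ∀ᶠ D : ℝ in Filter.atTop, 26 ≤ D ∧ D2 ≤ D ∧ DE ≤ D ∧ K0 ≤ D ^ (ε / 2) ∧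
                7 ≤ D ^ (t1 / 4) ∧ 2 ≤ D ^ (xE / 2) := by
              refine (Filter.eventually_ge_atTop _).and ((Filter.eventually_ge_atTop _).and
                ((Filter.eventually_ge_atTop _).and (((tendsto_rpow_atTop (by positivity)).eventually_ge_atTop _).and
                (((tendsto_rpow_atTop (by positivity)).eventually_ge_atTop _).and
                ((tendsto_rpow_atTop (by positivity)).eventually_ge_atTop _)))))
            obtain ⟨D0, hD0⟩ := Filter.eventually_atTop.1 hev
            have hp0r : (0 : ℝ) < p := by exact_mod_cast hp0
            refine ⟨ε / 4, by positivity, p + 2, Z / p, by (clear * - hZ0 hp0; positivity), D0, ?_⟩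
            intro S N _ lam hSD hIG δ hδσ hδ2 hlam X hQX hX1 hX2 q0 hq0 hXq1 hXq2 f0 f hf0 hf r cc φ θ hcc hφ1
              hφ2 hform
            have hG : Good S c N (ε / 4) := hIG.good
            exact by
              obtain ⟨hD26, hDD2, hDDE, hDK0, hDt1, hDxE⟩ := hD0 S.D hSD
              have hD0 : 0 < S.D := by (clear * - hε4 hZ0 hZ2 hD26; linarith)
              have hD1 : 1 ≤ S.D := by (clear * - hε4 hZ0 hZ2 hD26; linarith)
              have hδ0 : 0 < δ := lt_of_lt_of_le (Real.rpow_pos_of_pos hD0 _) hδσ
              have hδ1 : δ ≤ 1 := by (clear * - hε4 hZ0 hZ2 hδ2; linarith)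
              have hφ1w : ∀ j, |φ j| ≤ δ⁻¹ / S.Q := by
                intro j
                refine (hφ1 j).trans ?_
                have hQ2' : S.D ^ (2 : ℝ) ≤ (S.Q : ℝ) := hG.Q1
                have hQ0' : (0 : ℝ) < S.Q := (Real.rpow_pos_of_pos hD0 _).trans_le hQ2'
                exact div_le_div_of_nonneg_left (inv_nonneg.2 hδ0.le) hQ0'
                  (le_mul_of_one_le_right hQ0'.le (Real.one_le_rpow hD1 hs0))
              -- powers of `δ`
              have hδp : S.D ^ (-Z) ≤ δ ^ p := by
                have h1 : (S.D ^ (-(Z / p))) ^ p = S.D ^ (-Z) := by
                  rw [← Real.rpow_mul_natCast hD0.le]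
                  congr 1
                  field_simp
                rw [← h1]
                exact pow_le_pow_left₀ (Real.rpow_nonneg hD0.le _) hδσ p
              exact by
                have hδq : ∀ q, q ≤ p → ∀ y : ℝ, Z ≤ y → S.D ^ (-y) ≤ δ ^ q := by
                  intro q hq y hy
                  calc S.D ^ (-y) ≤ S.D ^ (-Z) := Real.rpow_le_rpow_of_exponent_le hD1 (by (clear * - hy; linarith))
                    _ ≤ δ ^ p := hδp
                    _ ≤ δ ^ q := pow_le_pow_of_le_one hδ0.le hδ1 hq
                have hexp : ∀ a b : ℝ, a ≤ b → S.D ^ a ≤ S.D ^ b := fun a b hab =>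
                  Real.rpow_le_rpow_of_exponent_le hD1 hab
                have hadd : ∀ a b : ℝ, S.D ^ a * S.D ^ b = S.D ^ (a + b) := fun a b => (Real.rpow_add hD0 a b).symm
                have hK : ∀ k a b : ℝ, k ≤ K0 → a + ε / 2 ≤ b → k * S.D ^ a ≤ S.D ^ b := by
                  intro k a b hk hab
                  calc k * S.D ^ a ≤ S.D ^ (ε / 2) * S.D ^ a :=
                        mul_le_mul_of_nonneg_right (hk.trans hDK0) (Real.rpow_nonneg hD0.le _)
                    _ = S.D ^ (ε / 2 + a) := hadd _ _
                    _ ≤ S.D ^ b := hexp _ _ (by (clear * - hab; linarith))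
                have hpos : ∀ a : ℝ, 0 < S.D ^ a := fun a => Real.rpow_pos_of_pos hD0 a
                -- sizes
                have hQ2 : S.D ^ (2 : ℝ) ≤ (S.Q : ℝ) := hG.Q1
                exact by
                  have hQ0 : (0 : ℝ) < S.Q := (hpos _).trans_le hQ2
                  have hP0 : ∀ i, 0 < S.P i := fun i => lt_of_lt_of_le (mul_pos hQ0 (hpos _)) (hG.P1 i)
                  obtain ⟨P, hP⟩ : ∃ P, P = S.P (Fin.last m) := ⟨_, rfl⟩
                  have hPpos : 0 < P := by rw [hP]; exact hP0 _
                  rw [← hP] at hXq1 hXq2
                  have hP1 : S.Q * S.D ^ (cl - ε / 4) ≤ P := by rw [hP]; exact hG.P1 _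
                  have hX1n : 1 ≤ X := by
                    have : 0 < S.Q := by exact_mod_cast hQ0
                    omega
                  have hX0 : (0 : ℝ) < X := by exact_mod_cast hX1n
                  exact by
                    have hQXr : (S.Q : ℝ) ≤ X := by exact_mod_cast hQX
                    obtain ⟨L, hL⟩ : ∃ L, L = X * q0 := ⟨_, rfl⟩
                    have hL1 : 1 ≤ L := by rw [hL]; exact Nat.mul_pos hX1n hq0
                    have hLr : (L : ℝ) = (X : ℝ) * q0 := by rw [hL]; push_cast; rfl
                    rw [← hLr] at hXq1 hXq2
                    have hXL : (X : ℝ) ≤ L := by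
                      rw [hLr]
                      have : (1 : ℝ) ≤ q0 := by exact_mod_cast hq0
                      exact le_mul_of_one_le_right hX0.le this
                    have hL0 : (0 : ℝ) < L := by exact_mod_cast hL1
                    -- the short interval
                    obtain ⟨T', hT'⟩ : ∃ T', T' = ⌈S.D ^ (1 - 2 * ε)⌉₊ := ⟨_, rfl⟩
                    have hT'1 : S.D ^ (1 - 2 * ε) ≤ T' := by rw [hT']; exact Nat.le_ceil _
                    exact by
                      have hone : 1 ≤ S.D ^ (1 - 2 * ε) := Real.one_le_rpow hD1 (by (clear * - hε4 hZ0 hZ2; linarith))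
                      have hT'2 : (T' : ℝ) ≤ 2 * S.D ^ (1 - 2 * ε) := by
                        have := Nat.ceil_lt_add_one (hpos (1 - 2 * ε)).le
                        rw [← hT'] at this
                        (clear * - hone this; linarith)
                      have hT'3 : 1 ≤ T' := by
                        have : (1 : ℝ) ≤ T' := hone.trans hT'1
                        exact_mod_cast this
                      have hn1 : n ≤ p := by omega
                      have hδn : S.D ^ (-(ε / 8)) ≤ δ ^ n := hδq n hn1 _ hZ2
                      have hδn0 : 0 < δ ^ n := pow_pos hδ0 n
                      exact by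
                        have hTT : (T' : ℝ) ≤ δ ^ n / 2 * S.T := by
                          have h1 : S.D ^ (1 - ε / 4) ≤ S.T := hG.T1
                          have h2 : 4 * S.D ^ (1 - 2 * ε) ≤ S.D ^ (-(ε / 8) + (1 - ε / 4)) :=
                            hK 4 _ _ (by rw [hK0]; (clear * - hε4 hZ0 hZ2 hκ10 h3cl; linarith)) (by (clear * - hZ0 hZ2; linarith))
                          rw [← hadd] at h2
                          have h3 : S.D ^ (-(ε / 8)) * S.D ^ (1 - ε / 4) ≤ δ ^ n * S.T :=
                            mul_le_mul hδn h1 (hpos _).le hδn0.le
                          (clear * - hT'2 h2 h3; linarith)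
                        have hLN : ((X * q0 : ℕ) : ℝ) ≤ δ ^ n / 4 * N := by
                          rw [← hL]
                          have h1 : P ≤ N * S.D ^ (ε / 4) := by rw [hP]; exact hG.N1 _
                          have h2 : 4 * S.D ^ (ε / 4 + -ε) ≤ S.D ^ (-(ε / 8)) :=
                            hK 4 _ _ (by rw [hK0]; (clear * - hε4 hZ0 hZ2 hκ10 h3cl; linarith)) (by (clear * - hZ0 hZ2; linarith))
                          have h3 : (L : ℝ) ≤ N * S.D ^ (ε / 4) * S.D ^ (-ε) :=
                            hXq2.trans (mul_le_mul_of_nonneg_right h1 (hpos _).le)
                          rw [mul_assoc, hadd] at h3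
                          have hN0 : (0 : ℝ) ≤ N := by (clear * -; positivity)
                          have h4 : (N : ℝ) * (4 * S.D ^ (ε / 4 + -ε)) ≤ N * δ ^ n :=
                            mul_le_mul_of_nonneg_left (h2.trans hδn) hN0
                          (clear * - h3 h4; linarith)
                        have hPD : 1 ≤ P * S.D ^ (-(2 * ε)) := by
                          have h1 : S.D ^ (2 : ℝ) * S.D ^ (cl - ε / 4) ≤ P :=
                            (mul_le_mul_of_nonneg_right hQ2 (hpos _).le).trans hP1
                          rw [hadd] at h1
                          have h2 : S.D ^ (2 + (cl - ε / 4)) * S.D ^ (-(2 * ε)) ≤ P * S.D ^ (-(2 * ε)) :=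
                            mul_le_mul_of_nonneg_right h1 (hpos _).le
                          rw [hadd] at h2
                          exact (Real.one_le_rpow hD1 (by (clear * - hcl2 hε4 hZ0 hZ2; linarith))).trans h2
                        obtain ⟨Bd, hBd⟩ : ∃ Bd, Bd = ⌊P * (κ1 * (T' / S.D)) + 1⌋₊ := ⟨_, rfl⟩
                        have hBd0 : 0 ≤ P * (κ1 * (T' / S.D)) + 1 := by (clear * - hPpos hκ10 hT'3 hD26; positivity)
                        have hTD : (T' : ℝ) / S.D ≤ 2 * S.D ^ (-(2 * ε)) := by
                          rw [div_le_iff₀ hD0]
                          have : S.D ^ (-(2 * ε)) * S.D = S.D ^ (1 - 2 * ε) := by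
                            conv_lhs => rw [← Real.rpow_one S.D]
                            rw [← Real.rpow_mul hD0.le, one_mul, hadd]
                            congr 1; ring
                          rw [mul_assoc, this]
                          exact hT'2
                        have hBdle : (Bd : ℝ) ≤ δ ^ n / 8 * ((X * q0 : ℕ) : ℝ) := by
                          rw [← hL]
                          have h1 : (Bd : ℝ) ≤ P * (κ1 * (T' / S.D)) + 1 := by rw [hBd]; exact Nat.floor_le hBd0
                          have h2 : P * (κ1 * (T' / S.D)) ≤ P * (κ1 * (2 * S.D ^ (-(2 * ε)))) := by (clear * - hTD hκ10 hPpos; gcongr)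
                          have h3 : 16 * (2 * κ1 + 1) * S.D ^ (-(2 * ε)) ≤ S.D ^ (-(ε / 8) + -ε) :=
                            hK _ _ _ (by rw [hK0]; (clear * - hε4 hZ0 hZ2 h3cl; linarith)) (by (clear * - hZ0 hZ2; linarith))
                          rw [← hadd] at h3
                          have h4 : S.D ^ (-(ε / 8)) * (P * S.D ^ (-ε) / 2) ≤ δ ^ n * L :=
                            mul_le_mul hδn hXq1 (by have := hpos (-ε); (clear * - hPpos hD26; positivity)) hδn0.le
                          have h5 : P * (16 * (2 * κ1 + 1) * S.D ^ (-(2 * ε))) ≤ P * (S.D ^ (-(ε / 8)) * S.D ^ (-ε)) :=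
                            mul_le_mul_of_nonneg_left h3 hPpos.le
                          (clear * - hPD h1 h2 h4 h5; linarith)
                        exact by
                          have hu12 : ∀ u' : ℕ, S.u ≤ u' → u' + T' ≤ S.u + S.T →
                              S.D ≤ (u' : ℝ) ∧ (u' : ℝ) + T' ≤ 2 * S.D := by
                            intro u' h1 h2
                            have h3 : (S.u : ℝ) ≤ u' := by exact_mod_cast h1
                            have h4 : (u' : ℝ) + T' ≤ S.u + S.T := by exact_mod_cast h2
                            exact ⟨hG.u1.trans h3, h4.trans hG.u2⟩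
                          have hb : ∀ u' k : ℕ, S.u ≤ u' → u' ≤ k → k < u' + T' → u' + T' ≤ S.u + S.T →
                              0 ≤ S.a c (Fin.last m) k - S.a c (Fin.last m) u' ∧
                              S.a c (Fin.last m) k - S.a c (Fin.last m) u' ≤ Bd := by
                            intro u' k h1 h2 h3 h4
                            obtain ⟨h5, h6⟩ := hu12 u' h1 h4
                            have h7 := lpl_b S c (Fin.last m) hcl0 hG.ρ0 hG.ρ1 hD1 (hP0 _).le T' u' k h5 h2 h3 h6
                            refine ⟨h7.1.1, ?_⟩
                            have h8 := h7.1.2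
                            rw [← hcl, ← hκ1, ← hP] at h8
                            have h9 : S.a c (Fin.last m) k - S.a c (Fin.last m) u' ≤ ⌊P * (κ1 * (T' / S.D)) + 1⌋ :=
                              Int.le_floor.2 h8
                            rw [hBd, ← Int.natCast_floor_eq_floor hBd0] at *
                            exact h9
                          have hPi : ∀ i : Fin m, S.P i.castSucc * 3 ^ (c i.castSucc) ≤ L := by
                            intro i
                            have h1 : S.P i.castSucc ≤ S.Q * S.D ^ (c i.castSucc + ε / 4) := hG.P2 _
                            have h2 : c i.castSucc ≤ cl - 2 := by (clear * - hgap; linarith [hgap i])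
                            have h3 : (3 : ℝ) ^ (c i.castSucc) ≤ 3 ^ cl :=
                              Real.rpow_le_rpow_of_exponent_le (by norm_num) (by (clear * - hε4 hZ0 hZ2 h2; linarith))
                            have h4 : S.D ^ (c i.castSucc + ε / 4) ≤ S.D ^ (cl - 2 + ε / 4) := hexp _ _ (by (clear * - h2; linarith))
                            have h5 : 2 * 3 ^ cl * S.D ^ (cl - 2 + ε / 4) ≤ S.D ^ (cl - ε / 4 + -ε) :=
                              hK _ _ _ (by rw [hK0]; (clear * - hε4 hZ0 hZ2 hκ10; linarith)) (by (clear * - hε4 hZ0 hZ2; linarith))
                            rw [← hadd (cl - ε / 4) (-ε)] at h5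
                            have h6 : S.Q * S.D ^ (cl - ε / 4) * S.D ^ (-ε) ≤ P * S.D ^ (-ε) :=
                              mul_le_mul_of_nonneg_right hP1 (hpos _).le
                            calc S.P i.castSucc * 3 ^ (c i.castSucc) ≤ (S.Q * S.D ^ (cl - 2 + ε / 4)) * 3 ^ cl := by
                                  refine mul_le_mul (h1.trans (mul_le_mul_of_nonneg_left h4 hQ0.le)) h3 (by positivity) ?_
                                  have := hpos (cl - 2 + ε / 4)
                                  (clear * - hQ0 hD26; positivity)
                              _ = S.Q * (2 * 3 ^ cl * S.D ^ (cl - 2 + ε / 4)) / 2 := by ring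
                              _ ≤ S.Q * (S.D ^ (cl - ε / 4) * S.D ^ (-ε)) / 2 :=
                                  div_le_div_of_nonneg_right (mul_le_mul_of_nonneg_left h5 hQ0.le) (by norm_num)
                              _ ≤ P * S.D ^ (-ε) / 2 := by (clear * - h6; linarith)
                              _ ≤ L := hXq1
                          -- localisation
                          have hform' : δ ^ n ≤ ‖form S c 1 f0 (Fin.snoc (α := fun _ => ZMod N → ℂ) f (bphase X r cc φ))‖ := by
                            refine le_trans ?_ hform
                            rw [hn]
                            exact pow_le_pow_of_le_one hδ0.le hδ1 (by (clear * - CR C2 ε n p1 p κ1 S X q0 P L T' Bd; omega))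
                          obtain ⟨u', κ, hu1, hu2, hκ, hE2⟩ := lpl_cell S c (δ ^ n) hδn0 X q0 T' Bd hX1n hq0 hT'3 hTT hLN hb
                            hBdle f0 f hf0.bdd (fun i => (hf i).bdd) r cc φ θ hcc hform'
                          obtain ⟨hDu, hDu2⟩ := hu12 u' hu1 hu2
                          obtain ⟨z, hz⟩ : ∃ z : ZMod N, z = r + ((κ * (X * q0) : ℕ) : ZMod N) -
                            (S.a c (Fin.last m) u' : ZMod N) := ⟨_, rfl⟩
                          rw [← hz] at hE2
                          obtain ⟨j0, hj0, hcj0⟩ : ∃ j, j / q0 = κ ∧ cc j ≠ 0 := by
                            by_contra hcon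
                            push Not at hcon
                            have hw0 : ∀ w, cpf X (X * q0) κ cc φ (θ κ) w = 0 := by
                              intro w
                              unfold cpf
                              split_ifs with hw
                              · rw [hcon _ (lpl_cell_index X q0 κ w hX1n hq0 hw), zero_mul]
                              · rfl
                            have h0 : lplE2 S c f0 f X (X * q0) κ z cc φ (θ κ) u' T' = 0 := by
                              unfold lplE2
                              refine expect_eq_zero fun k _ => expect_eq_zero fun y _ => ?_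
                              rw [hw0, zero_mul, mul_zero]
                            rw [h0, norm_zero] at hE2
                            (clear * - hδn0 hE2; linarith)
                          obtain ⟨W, hW⟩ : ∃ W, W = δ⁻¹ ^ n := ⟨_, rfl⟩
                          obtain ⟨ϑ, hϑ⟩ : ∃ ϑ, ϑ = θ κ := ⟨_, rfl⟩
                          have hinv : 2 ≤ δ⁻¹ := by
                            rw [le_inv_comm₀ (by norm_num) hδ0]; (clear * - hδ2; linarith)
                          have hinv1 : 1 ≤ δ⁻¹ := by (clear * - hε4 hZ0 hZ2 hinv; linarith)
                          exact by
                            have hWδ : δ⁻¹ ≤ W := by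
                              rw [hW]; exact le_self_pow₀ hinv1 (by omega)
                            have hW0 : 0 < W := by (clear * - hε4 hZ0 hZ2 hinv hWδ; linarith)
                            have hφθ : ∀ j, j / q0 = κ → cc j ≠ 0 → |φ j - ϑ| ≤ W / X := by
                              intro j hj hcj
                              have := hφ2 j hcj
                              rw [hj, ← hϑ] at this
                              refine this.trans ?_
                              rw [hW, hn]
                              exact div_le_div_of_nonneg_right (pow_le_pow_right₀ hinv1 (by omega)) hX0.le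
                            have hϑQ : |ϑ| ≤ 2 * W / S.Q := by
                              have h1 := hφθ j0 hj0 hcj0
                              have h2 := hφ1w j0
                              have h3 : |ϑ| ≤ |φ j0| + |φ j0 - ϑ| := by
                                have := abs_sub_abs_le_abs_sub ϑ (φ j0)
                                rw [abs_sub_comm] at this
                                (clear * - this; linarith)
                              have h4 : W / X ≤ W / S.Q := div_le_div_of_nonneg_left hW0.le hQ0 hQXr
                              have h5 : δ⁻¹ / S.Q ≤ W / S.Q := div_le_div_of_nonneg_right hWδ hQ0.le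
                              have h6 : 2 * W / S.Q = W / S.Q + W / S.Q := by ring
                              rw [h6]
                              (clear * - h1 h2 h3 h4 h5; linarith)
                            have hinvq : ∀ q, q ≤ p → ∀ y : ℝ, Z ≤ y → δ⁻¹ ^ q ≤ S.D ^ y := by
                              intro q hq y hy
                              have h1 := hδq q hq y hy
                              rw [Real.rpow_neg hD0.le] at h1
                              rw [inv_pow]
                              exact (inv_le_comm₀ (pow_pos hδ0 q) (hpos y)).2 h1
                            -- the new parameter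
                            obtain ⟨δ', hδ'⟩ : ∃ δ', δ' = δ ^ (n + 7) := ⟨_, rfl⟩
                            have hδ'0 : 0 < δ' := by rw [hδ']; positivity
                            exact by
                              have hδ'1 : S.D ^ (-σ2) ≤ δ' := by rw [hδ']; exact hδq (n + 7) hpn _ hZ1
                              have hδ'2 : δ' ≤ 1 / 2 := by
                                rw [hδ']
                                refine le_trans ?_ hδ2
                                calc δ ^ (n + 7) ≤ δ ^ 1 := pow_le_pow_of_le_one hδ0.le hδ1 (by omega)
                                  _ = δ := pow_one δ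
                              have hδ'i : 32 * W ≤ δ'⁻¹ := by
                                rw [hδ', ← inv_pow, pow_add, ← hW]
                                have h32 : (2 : ℝ) ^ 7 ≤ δ⁻¹ ^ 7 := pow_le_pow_left₀ (by norm_num) hinv 7
                                calc 32 * W ≤ W * 2 ^ 7 := by (clear * - hε4 hZ0 hZ2 hinv hWδ; linarith)
                                  _ ≤ W * δ⁻¹ ^ 7 := mul_le_mul_of_nonneg_left h32 hW0.le
                              have hπ0 : 0 < Real.pi := Real.pi_pos
                              have hQpos : 0 < S.Q := by exact_mod_cast hQ0
                              obtain ⟨N', p', hp'p, hN'p, hN'1, hN'2⟩ : ∃ N' p' : ℕ, p'.Prime ∧ N' = S.Q * p' ∧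
                                  4 * (X * q0) ≤ N' ∧ N' ≤ 16 * (X * q0) := by
                                obtain ⟨p', h1, h2, h3⟩ := Nat.exists_prime_lt_and_le_two_mul (4 * (X * q0) / S.Q + 1)
                                  (Nat.succ_ne_zero _)
                                have h4 : 4 * (X * q0) < S.Q * (4 * (X * q0) / S.Q + 1) := Nat.lt_mul_div_succ _ hQpos
                                have h5 : S.Q * (4 * (X * q0) / S.Q) ≤ 4 * (X * q0) := Nat.mul_div_le _ _
                                have h6 : S.Q ≤ X * q0 := hQX.trans (Nat.le_mul_of_pos_right _ hq0)
                                refine ⟨S.Q * p', p', h1, rfl, h4.le.trans (Nat.mul_le_mul_left _ h2.le), ?_⟩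
                                calc S.Q * p' ≤ S.Q * (2 * (4 * (X * q0) / S.Q + 1)) := Nat.mul_le_mul_left _ h3
                                  _ = 2 * (S.Q * (4 * (X * q0) / S.Q)) + 2 * S.Q := by ring
                                  _ ≤ 16 * (X * q0) := by omega
                              have : NeZero N' := ⟨by (clear * - CR C2 ε n0 n p1 p κ1 N P hL hL1 T' Bd u' κ j0 hN'p hN'1 hN'2; omega)⟩
                              exact by
                                have h4L : 4 * (L : ℝ) ≤ N' := by rw [hL]; exact_mod_cast hN'1
                                have h16L : (N' : ℝ) ≤ 16 * L := by rw [hL]; exact_mod_cast hN'2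
                                have hx2p : ε / 4 ≤ x2 := by (clear * - hε1 hZ0 hZ2; linarith)
                                have hGood : Good (S.sub u' T') c N' x2 := by
                                  refine ⟨hG.ρ0, hG.ρ1, hG.Q1, hG.Q2, fun i => ?_, fun i => ?_, fun i => ?_, ?_, hDu, hDu2, ?_⟩
                                  · exact (mul_le_mul_of_nonneg_left (hexp _ _ (by (clear * - hε1 hZ0 hZ2; linarith))) hQ0.le).trans (hG.P1 i)
                                  · exact (hG.P2 i).trans (mul_le_mul_of_nonneg_left (hexp _ _ (by (clear * - hε1 hZ0 hZ2; linarith))) hQ0.le)
                                  · have h1x : 1 ≤ S.D ^ x2 := Real.one_le_rpow hD1 hx2.le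
                                    exact by
                                      change S.P i ≤ N' * S.D ^ x2
                                      refine le_trans ?_ (mul_le_mul_of_nonneg_right h4L (hpos _).le)
                                      refine Fin.lastCases ?_ (fun i => ?_) i
                                      · rw [← hP]
                                        have h1 : S.D ^ (-ε) * S.D ^ x2 = S.D ^ (-ε + x2) := hadd _ _
                                        have h2 : 1 ≤ S.D ^ (-ε + x2) := Real.one_le_rpow hD1 (by (clear * - hε1 hZ0 hZ2; linarith))
                                        have h3 : P * S.D ^ (-ε) / 2 * S.D ^ x2 ≤ L * S.D ^ x2 :=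
                                          mul_le_mul_of_nonneg_right hXq1 (hpos _).le
                                        have h4 : P * 1 ≤ P * (S.D ^ (-ε) * S.D ^ x2) := by
                                          rw [h1]; exact mul_le_mul_of_nonneg_left h2 hPpos.le
                                        (clear * - hPpos h3 h4; linarith)
                                      · have h1 := hPi i
                                        have h2 : (1 : ℝ) ≤ 3 ^ (c i.castSucc) := Real.one_le_rpow (by norm_num) (hc0 _).le
                                        have h3 : S.P i.castSucc * 1 ≤ S.P i.castSucc * 3 ^ (c i.castSucc) :=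
                                          mul_le_mul_of_nonneg_left h2 (hP0 _).le
                                        have h4 : (L : ℝ) * 1 ≤ L * S.D ^ x2 := mul_le_mul_of_nonneg_left h1x hL0.le
                                        (clear * - hX0 hXL h1 h3 h4; linarith)
                                  · change (S.Q : ℝ) ≤ N'
                                    (clear * - hX0 hQXr hXL h4L; linarith)
                                  · change S.D ^ (1 - x2) ≤ (T' : ℝ)
                                    exact (hexp _ _ (by (clear * - hε1 hZ0 hZ2; linarith))).trans hT'1
                                have hIG' : IG (S.sub u' T') c N' x2 lam :=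
                                  ⟨hGood, hIG.Q3.trans (hexp _ _ (by (clear * - hε1 hZ0 hZ2; linarith))), hIG.lam1, hIG.rho, hIG.Pint, p', hp'p, hN'p⟩
                                -- classes
                                have hA0 := lpl2_classes (N' := N') X q0 S.Q hX1n hq0 hQX hQpos δ⁻¹ W δ'⁻¹ hinv hWδ hδ'i z ϑ hϑQ hN'1 f0 hf0
                                exact by
                                  have hAi := fun i => lpl2_classes_i (N' := N') X q0 S.Q hX1n hq0 hQX hQpos δ⁻¹ W δ'⁻¹ hinv hWδ hδ'i z
                                    hN'1 (f i) (hf i)
                                  have hAc := lpl2_classes_c (N' := N') X q0 κ hX1n hq0 W δ'⁻¹ (hinv.trans hWδ) hδ'i cc φ ϑ hcc hφθ hN'1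
                                    (S.a c (Fin.last m) u' : ZMod N')
                                  have hA : ∀ i, Adm (N := N') δ'⁻¹ S.Q ((Fin.snoc (α := fun _ => ZMod N' → ℂ)
                                      (fun i y => f i (z + (y.val : ZMod N)))
                                      (fun y => cpf X (X * q0) κ cc φ ϑ (y - (S.a c (Fin.last m) u' : ZMod N')).val) :
                                      Fin (m + 1) → ZMod N' → ℂ) i) := by
                                    intro i
                                    refine Fin.lastCases ?_ (fun i => ?_) i
                                    · rw [Fin.snoc_last]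
                                      exact hAc.mono le_rfl hQ0 hQXr
                                    · rw [Fin.snoc_castSucc]
                                      exact hAi i
                                  have hkI : ∀ k ∈ Ico u' (u' + T'), u' ≤ k ∧ k < u' + T' := fun k hk => mem_Ico.1 hk
                                  have hδn8 : δ ^ n / 8 ≤ 1 := by
                                    have := pow_le_one₀ hδ0.le hδ1 (n := n)
                                    linarith only [this]
                                  have htr := lpl2_transport (N' := N') S c f0 f X (X * q0) κ z cc φ ϑ u' T' (hL ▸ hL1) hN'1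
                                    (by
                                      intro i k hk
                                      obtain ⟨hk1, hk2⟩ := hkI k hk
                                      have h7 := lpl_b S c i.castSucc (hc0 _) hG.ρ0 hG.ρ1 hD1 (hP0 _).le T' u' k hDu hk1 hk2 hDu2
                                      refine ⟨h7.2.1, ?_⟩
                                      have h8 := h7.2.2.trans (hPi i)
                                      rw [hL] at h8
                                      exact_mod_cast h8)
                                    (by
                                      intro k hk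
                                      obtain ⟨hk1, hk2⟩ := hkI k hk
                                      have h7 := hb u' k hu1 hk1 hk2 hu2
                                      refine ⟨h7.1, h7.2.trans ?_⟩
                                      have h8 : (Bd : ℝ) ≤ ((X * q0 : ℕ) : ℝ) := by
                                        refine hBdle.trans ?_
                                        exact mul_le_of_le_one_left (by (clear * - hX1n hq0; positivity)) hδn8
                                      exact_mod_cast h8)
                                  exact by
                                    have hF : δ' ≤ ‖form (N := N') (S.sub u' T') c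
                                        (fun k => e (ϑ * ((S.a c (Fin.last m) k - S.a c (Fin.last m) u' : ℤ) : ℝ)))
                                        (fun y => if y.val < X * q0 then f0 (z + (y.val : ZMod N)) * e (ϑ * (y.val : ℝ)) else 0)
                                        (Fin.snoc (α := fun _ => ZMod N' → ℂ) (fun i y => f i (z + (y.val : ZMod N)))
                                          (fun y => cpf X (X * q0) κ cc φ ϑ (y - (S.a c (Fin.last m) u' : ZMod N')).val))‖ := by
                                      rw [htr, norm_mul, hϑ]
                                      have h1 : ‖((X * q0 : ℕ) : ℂ) / N'‖ = (L : ℝ) / N' := by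
                                        rw [norm_div, Complex.norm_natCast, Complex.norm_natCast, hL]
                                      rw [h1, hδ', pow_add]
                                      have hN'0 : (0 : ℝ) < N' := by linarith only [h4L, hL0]
                                      have h1' : 1 / 16 ≤ (L : ℝ) / N' := by
                                        rw [div_le_div_iff₀ (by norm_num) hN'0]
                                        linarith only [h16L]
                                      have h2 : δ ^ 7 ≤ 1 / 128 := by
                                        calc δ ^ 7 ≤ (1 / 2) ^ 7 := pow_le_pow_left₀ hδ0.le hδ2 7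
                                          _ = 1 / 128 := by norm_num
                                      have h3 : δ ^ n * δ ^ 7 ≤ δ ^ n * (1 / 128) := mul_le_mul_of_nonneg_left h2 hδn0.le
                                      have h4 : 1 / 16 * (δ ^ n / 8) ≤ (L : ℝ) / N' * ‖lplE2 S c f0 f X (X * q0) κ z cc φ (θ κ) u' T'‖ :=
                                        mul_le_mul h1' hE2 (by (clear * - hδ0; positivity)) (by (clear * - hL1 hN'0; positivity))
                                      linarith only [h3, h4]
                                    have hX1' : S.Q * S.D ^ (s - σ2) ≤ (X : ℝ) := by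
                                      refine (mul_le_mul_of_nonneg_left (hexp _ _ ?_) hQ0.le).trans hX1
                                      have h1 : Z / p ≤ Z := div_le_self hZ0.le (by exact_mod_cast hp0)
                                      linarith only [h1, hZ1]
                                    have hδδ' : δ⁻¹ ≤ δ'⁻¹ := by
                                      rw [hδ', ← inv_pow]; exact le_self_pow₀ hinv1 (by (clear * - CR C2 ε hn p1 p κ1 S N X q0 P L T' Bd u' κ j0 N' p'; omega))
                                    obtain ⟨q, hq1, hqC, θ', hθ1, hθ2, hθ3⟩ := H2 (S.sub u' T') N' lam hDD2 hIG' δ' hδ'1 hδ'2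
                                      (hlam.trans hδδ') X hQXr
                                      hX1' hX2 _ _ _ (fun k => (norm_e _).le) hA0 hA (by rw [Fin.snoc_last]; exact hAc) hF
                                    -- the window
                                    obtain ⟨K, hKd⟩ : ∃ K, K = ⌊S.D ^ (1 - ε2)⌋₊ := ⟨_, rfl⟩
                                    have hK2 : (K : ℝ) ≤ S.D ^ (1 - ε2) := by rw [hKd]; exact Nat.floor_le (hpos _).le
                                    have hK3 : S.D ^ (1 - ε2) < K + 1 := by rw [hKd]; exact Nat.lt_floor_add_one _
                                    have hD2 : 2 ≤ S.D ^ (1 - ε2) := by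
                                      have h1 : S.D ^ (1 / 2 : ℝ) ≤ S.D ^ (1 - ε2) := hexp _ _ (by linarith only [hε2b])
                                      have h2 : (4 : ℝ) ^ (1 / 2 : ℝ) ≤ S.D ^ (1 / 2 : ℝ) :=
                                        Real.rpow_le_rpow (by norm_num) (by linarith only [hD26]) (by norm_num)
                                      have h3 : (4 : ℝ) ^ (1 / 2 : ℝ) = 2 := by
                                        rw [← Real.sqrt_eq_rpow, show (4 : ℝ) = 2 ^ 2 by norm_num]
                                        exact Real.sqrt_sq (by norm_num)
                                      linarith only [h1, h2, h3]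
                                    exact by
                                      have hK1 : 1 ≤ K := by
                                        have : (1 : ℝ) ≤ K := by linarith only [hK3, hD2]
                                        exact_mod_cast this
                                      have hK4 : S.D ^ (1 - xE) ≤ K := by
                                        have h1 : 2 ≤ S.D ^ (xE - ε2) := hDxE.trans (hexp _ _ (by linarith only [hε2a]))
                                        have h2 : S.D ^ (1 - ε2) = S.D ^ (xE - ε2) * S.D ^ (1 - xE) := by
                                          rw [hadd]; congr 1; ring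
                                        have h3 : 2 * S.D ^ (1 - xE) ≤ S.D ^ (1 - ε2) := by
                                          rw [h2]; exact mul_le_mul_of_nonneg_right h1 (hpos _).le
                                        linarith only [h3, hK3, hD2]
                                      have hKD : (K : ℝ) ≤ S.D := by
                                        refine hK2.trans ?_
                                        calc S.D ^ (1 - ε2) ≤ S.D ^ (1 : ℝ) := hexp _ _ (by linarith only [hε20])
                                          _ = S.D := Real.rpow_one _
                                      have hθ3' := hθ3 K hK1 hK2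
                                      have hδC : δ' ^ C2 = δ ^ ((n + 7) * C2) := by rw [hδ', ← pow_mul]
                                      have hδC' : δ'⁻¹ ^ C2 = δ⁻¹ ^ ((n + 7) * C2) := by rw [hδ', ← inv_pow, ← pow_mul]
                                      exact by
                                        have hA2 : 2 * Real.pi * |ϑ| ≤ δ' ^ C2 / 2 := by
                                          have h1 : S.D ^ (-(1 / 2 : ℝ)) ≤ δ' ^ C2 := by rw [hδC]; exact hδq _ hpC _ hZ3
                                          have h2 : W ≤ S.D ^ (1 / 2 : ℝ) := by rw [hW]; exact hinvq n hn1 _ hZ3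
                                          have h3 : |ϑ| ≤ 2 * S.D ^ (1 / 2 : ℝ) / S.D ^ (2 : ℝ) :=
                                            hϑQ.trans (div_le_div₀ (by have := hpos (1 / 2); (clear * - hD26; positivity))
                                              (mul_le_mul_of_nonneg_left h2 (by norm_num)) (hpos _) hQ2)
                                          have h4 : 2 * S.D ^ (1 / 2 : ℝ) / S.D ^ (2 : ℝ) = 2 * S.D ^ (-(3 / 2) : ℝ) := by
                                            rw [mul_div_assoc, ← Real.rpow_sub hD0]; congr 2; norm_num
                                          rw [h4] at h3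
                                          have h5 : S.D ^ (-(1 / 2 : ℝ)) = S.D ^ (1 : ℝ) * S.D ^ (-(3 / 2) : ℝ) := by
                                            rw [hadd]; congr 1; norm_num
                                          rw [Real.rpow_one] at h5
                                          have h6 : 26 * S.D ^ (-(3 / 2) : ℝ) ≤ S.D * S.D ^ (-(3 / 2) : ℝ) :=
                                            mul_le_mul_of_nonneg_right hD26 (hpos _).le
                                          have h7 : 2 * Real.pi * |ϑ| ≤ 2 * 3.15 * (2 * S.D ^ (-(3 / 2) : ℝ)) :=
                                            mul_le_mul (mul_le_mul_of_nonneg_left Real.pi_lt_d2.le (by norm_num)) h3 (abs_nonneg _)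
                                              (by norm_num)
                                          have h8 := hpos (-(3 / 2) : ℝ)
                                          linarith only [h1, h5, h6, h7, h8]
                                        obtain ⟨k, hk1, hk2, hwin⟩ := lpl2_window S c θ' ϑ (δ' ^ C2) u' T' K q hT'3 hA2 hθ3'
                                        obtain ⟨v, hv⟩ : ∃ v : Fin (m + 1) → ℝ, v = fun i => θ' i * S.P i +
                                          (if i = Fin.last m then ϑ * S.P i else 0) := ⟨_, rfl⟩
                                        have hva : ∀ i, |v i| ≤ S.D ^ (cl + 5) := by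
                                          intro i
                                          have h0 : |v i| ≤ |θ' i * S.P i| + |ϑ * S.P i| := by
                                            rw [hv]
                                            refine (abs_add_le _ _).trans ?_
                                            split_ifs
                                            · exact le_rfl
                                            · rw [abs_zero]
                                              have := abs_nonneg (ϑ * S.P i)
                                              (clear * - this; linarith)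
                                          refine h0.trans ?_
                                          have h1 : |θ' i| ≤ S.D ^ (1 / 2 : ℝ) / S.Q := by
                                            refine (hθ1 i).trans ?_
                                            rw [hδC']
                                            exact div_le_div_of_nonneg_right (hinvq _ hpC _ hZ3) hQ0.le
                                          have h2 : |ϑ| ≤ 2 * S.D ^ (1 / 2 : ℝ) / S.Q := by
                                            refine hϑQ.trans (div_le_div_of_nonneg_right ?_ hQ0.le)
                                            rw [hW]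
                                            exact mul_le_mul_of_nonneg_left (hinvq n hn1 _ hZ3) (by norm_num)
                                          have hci : c i ≤ cl := hcs.monotone (Fin.le_last i)
                                          have h3 : S.P i ≤ S.Q * S.D ^ (cl + 1) :=
                                            (hG.P2 i).trans (mul_le_mul_of_nonneg_left (hexp _ _ (by linarith only [hci, hε4])) hQ0.le)
                                          rw [abs_mul, abs_mul, abs_of_pos (hP0 i), ← add_mul]
                                          have h4 : |θ' i| + |ϑ| ≤ 3 * S.D ^ (1 / 2 : ℝ) / S.Q := by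
                                            have : 3 * S.D ^ (1 / 2 : ℝ) / S.Q = S.D ^ (1 / 2 : ℝ) / S.Q + 2 * S.D ^ (1 / 2 : ℝ) / S.Q := by
                                              ring
                                            linarith only [h1, h2, this]
                                          calc (|θ' i| + |ϑ|) * S.P i ≤ (3 * S.D ^ (1 / 2 : ℝ) / S.Q) * (S.Q * S.D ^ (cl + 1)) :=
                                                mul_le_mul h4 h3 (hP0 i).le (by have := hpos (1 / 2); (clear * - hD26 hQpos; positivity))
                                            _ = 3 * (S.D ^ (1 / 2 : ℝ) * S.D ^ (cl + 1)) := by (clear * - hQpos hD26; field_simp)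
                                            _ = 3 * S.D ^ (1 / 2 + (cl + 1)) := by rw [hadd]
                                            _ ≤ S.D * S.D ^ (1 / 2 + (cl + 1)) :=
                                                mul_le_mul_of_nonneg_right (by linarith only [hD26]) (hpos _).le
                                            _ = S.D ^ (1 + (1 / 2 + (cl + 1))) := by
                                                rw [← hadd 1, Real.rpow_one]
                                            _ ≤ S.D ^ (cl + 5) := hexp _ _ (by linarith only)
                                        -- the parameter for `ratl`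
                                        obtain ⟨δr, hδr⟩ : ∃ δr, δr = δ ^ p1 := ⟨_, rfl⟩
                                        have hδr0 : 0 < δr := by rw [hδr]; exact pow_pos hδ0 _
                                        have hδr1 : S.D ^ (-σE) ≤ δr := by
                                          rw [hδr]; exact hδq p1 hp1p _ (by linarith only [hZ4, hσE])
                                        have hδr2 : δr ≤ 1 / 2 := by
                                          rw [hδr]
                                          calc δ ^ p1 ≤ δ ^ 1 := pow_le_pow_of_le_one hδ0.le hδ1 (by (clear * - CR ε n0 hp1 p ε2 κ1 S N X q0 P L T' Bd u' κ j0 N' p' q K k; omega))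
                                            _ = δ := pow_one δ
                                            _ ≤ 1 / 2 := hδ2
                                        have hδrA : δr ≤ δ' ^ C2 / 2 := by
                                          rw [hδr, hδC]
                                          calc δ ^ p1 ≤ δ ^ ((n + 7) * C2 + 1) := pow_le_pow_of_le_one hδ0.le hδ1 hp1C
                                            _ = δ ^ ((n + 7) * C2) * δ := pow_succ _ _
                                            _ ≤ δ ^ ((n + 7) * C2) * (1 / 2) := mul_le_mul_of_nonneg_left hδ2 (pow_pos hδ0 _).le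
                                            _ = δ ^ ((n + 7) * C2) / 2 := by ring
                                        exact by
                                          have hδri : δ⁻¹ ^ p1 = δr⁻¹ := by rw [hδr, inv_pow]
                                          have hlamr : (lam : ℝ) ≤ δr⁻¹ := by
                                            rw [← hδri]; exact hlam.trans (le_self_pow₀ hinv1 (by omega))
                                          have hqr : (q : ℝ) ≤ δr⁻¹ := by
                                            rw [← hδri]
                                            refine hqC.trans ?_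
                                            rw [hδC']
                                            exact pow_le_pow_right₀ hinv1 (by omega)
                                          have hDk : S.D ≤ (k : ℝ) := by
                                            have : (u' : ℝ) ≤ k := by exact_mod_cast hk1
                                            linarith only [this, hDu]
                                          have hkD : (k : ℝ) ≤ 3 * S.D := by
                                            have : (k : ℝ) ≤ u' + T' := by exact_mod_cast hk2.le
                                            linarith only [this, hDu2, hD0]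
                                          have hqK : (q : ℝ) * K ≤ S.D := by
                                            have h1 : (q : ℝ) ≤ S.D ^ ε2 := by
                                              refine hqC.trans ?_
                                              rw [hδC']
                                              exact hinvq _ hpC _ hZ5
                                            calc (q : ℝ) * K ≤ S.D ^ ε2 * S.D ^ (1 - ε2) :=
                                                  mul_le_mul h1 hK2 (by (clear * - hK1; positivity)) (hpos _).le
                                              _ = S.D ^ (ε2 + (1 - ε2)) := hadd _ _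
                                              _ = S.D := by
                                                  rw [show ε2 + (1 - ε2) = 1 by ring, Real.rpow_one]
                                          exact by
                                            obtain ⟨hR1, q', hq'1, hq'C, hR2⟩ := HE S.D hDDE S.ρ hG.ρ0 hG.ρ1 lam hIG.lam1 hIG.rho δr hδr1 hδr2
                                              hlamr v hva q k K hq1 hqr hDk hkD hK4 hqK
                                              (by
                                                refine hδrA.trans ?_
                                                rw [hv]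
                                                exact hwin)
                                            -- conclusion
                                            have hvl : v (Fin.last m) = (θ' (Fin.last m) + ϑ) * P := by
                                              rw [hv, hP]
                                              simp only [if_true]
                                              ring
                                            have hXP : (X : ℝ) * S.D ^ ((cl - s) / 8) ≤ P := by
                                              calc (X : ℝ) * S.D ^ ((cl - s) / 8) ≤ (S.Q * S.D ^ s) * S.D ^ ((cl - s) / 8) :=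
                                                    mul_le_mul_of_nonneg_right hX2 (hpos _).le
                                                _ = S.Q * S.D ^ (s + (cl - s) / 8) := by rw [mul_assoc, hadd]
                                                _ ≤ S.Q * S.D ^ (cl - ε / 4) :=
                                                    mul_le_mul_of_nonneg_left (hexp _ _ (by linarith only [hε2, hs])) hQ0.le
                                                _ ≤ P := hP1
                                            have hϑX : |θ' (Fin.last m) + ϑ| ≤ 1 / X := by
                                              by_cases hN : IsN cl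
                                              · obtain ⟨d, hd⟩ := hN
                                                exact by
                                                  have hPd : S.P (Fin.last m) = S.Q * (lam * S.D) ^ d := hIG.Pint _ d hd
                                                  have hlam0 : (0 : ℝ) < lam := by exact_mod_cast hIG.lam1
                                                  have hlD : (0 : ℝ) < (lam * S.D) ^ d := by (clear * - hlam0 hD26; positivity)
                                                  have h1 := hR2 (Fin.last m) d hd
                                                  obtain ⟨y, hy⟩ : ∃ y, y = (θ' (Fin.last m) + ϑ) * S.Q := ⟨_, rfl⟩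
                                                  have h2 : v (Fin.last m) / (lam * S.D) ^ d = y := by
                                                    rw [hvl, hP, hPd, hy]
                                                    (clear * - hlam0 hD26 hQpos; field_simp)
                                                  rw [h2] at h1
                                                  have hq'0 : (1 : ℝ) ≤ q' := by exact_mod_cast hq'1
                                                  have hst : t1 ≤ s0 := ht1s ⟨d, hd⟩
                                                  exact by
                                                    have hZp : Z / p ≤ Z := div_le_self hZ0.le (by exact_mod_cast hp0)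
                                                    have hXQ : (S.Q : ℝ) / X ≤ S.D ^ (Z - t1) := by
                                                      rw [div_le_iff₀ hX0]
                                                      calc (S.Q : ℝ) = S.D ^ (Z - t1) * (S.Q * S.D ^ (t1 - Z)) := by
                                                            rw [mul_left_comm, hadd, show Z - t1 + (t1 - Z) = 0 by ring, Real.rpow_zero, mul_one]
                                                        _ ≤ S.D ^ (Z - t1) * (S.Q * S.D ^ (s - Z / p)) := by
                                                            refine mul_le_mul_of_nonneg_left (mul_le_mul_of_nonneg_left (hexp _ _ ?_) hQ0.le)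
                                                              (hpos _).le
                                                            linarith only [hst, hs0s, hZp]
                                                        _ ≤ S.D ^ (Z - t1) * X := mul_le_mul_of_nonneg_left hX1 (hpos _).le
                                                    have hDZ := hpos Z
                                                    have h3 : |θ' (Fin.last m)| * S.Q ≤ S.D ^ Z * S.D ^ (Z - t1) := by
                                                      calc |θ' (Fin.last m)| * S.Q ≤ (δ'⁻¹ ^ C2 / X) * S.Q :=
                                                            mul_le_mul_of_nonneg_right hθ2 hQ0.le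
                                                        _ = δ'⁻¹ ^ C2 * (S.Q / X) := by ring
                                                        _ ≤ S.D ^ Z * S.D ^ (Z - t1) := by
                                                            refine mul_le_mul ?_ hXQ (by (clear * - hQpos hX1n; positivity)) hDZ.le
                                                            rw [hδC']; exact hinvq _ hpC _ le_rfl
                                                    have h4 : |ϑ| * S.Q ≤ 2 * (S.D ^ Z * S.D ^ (Z - t1)) := by
                                                      have h5 := hφθ j0 hj0 hcj0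
                                                      have h6 := hφ1 j0
                                                      have h7 : |ϑ| ≤ |φ j0| + |φ j0 - ϑ| := by
                                                        have := abs_sub_abs_le_abs_sub ϑ (φ j0)
                                                        rw [abs_sub_comm] at this
                                                        (clear * - this; linarith)
                                                      have h8 : |φ j0| * S.Q ≤ S.D ^ Z * S.D ^ (Z - t1) := by
                                                        calc |φ j0| * S.Q ≤ δ⁻¹ / (S.Q * S.D ^ s0) * S.Q := mul_le_mul_of_nonneg_right h6 hQ0.le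
                                                          _ = δ⁻¹ * S.D ^ (-s0) := by
                                                              rw [Real.rpow_neg hD0.le]
                                                              have := hpos s0
                                                              (clear * - hQpos hD26 hδ0; field_simp)
                                                          _ ≤ S.D ^ Z * S.D ^ (Z - t1) := by
                                                              refine mul_le_mul ?_ (hexp _ _ (by linarith only [hst, hZ0])) (hpos _).le hDZ.le
                                                              calc δ⁻¹ = δ⁻¹ ^ 1 := (pow_one _).symm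
                                                                _ ≤ S.D ^ Z := hinvq 1 (by (clear * - C2 ε n0 n hp hp0 ε2 κ1 S N X q0 P L T' Bd u' κ j0 N' p' q K k q'; omega)) _ le_rfl
                                                      have h9 : |φ j0 - ϑ| * S.Q ≤ S.D ^ Z * S.D ^ (Z - t1) := by
                                                        calc |φ j0 - ϑ| * S.Q ≤ W / X * S.Q := mul_le_mul_of_nonneg_right h5 hQ0.le
                                                          _ = W * (S.Q / X) := by ring
                                                          _ ≤ S.D ^ Z * S.D ^ (Z - t1) := by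
                                                              refine mul_le_mul ?_ hXQ (by (clear * - hQpos hX1n; positivity)) hDZ.le
                                                              rw [hW]; exact hinvq n hn1 _ le_rfl
                                                      have h10 := mul_le_mul_of_nonneg_right h7 hQ0.le
                                                      linarith only [h8, h9, h10]
                                                    have h5 : |y| ≤ 3 * (S.D ^ Z * S.D ^ (Z - t1)) := by
                                                      rw [hy, abs_mul, abs_of_pos hQ0]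
                                                      have := mul_le_mul_of_nonneg_right (abs_add_le (θ' (Fin.last m)) ϑ) hQ0.le
                                                      linarith only [this, h3, h4]
                                                    exact by
                                                      have h6 : (q' : ℝ) ≤ S.D ^ Z := by
                                                        refine hq'C.trans ?_
                                                        rw [← hδri, ← pow_mul]
                                                        exact hinvq _ hp1R _ le_rfl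
                                                      have h7 : |(q' : ℝ) * y| < 1 / 2 := by
                                                        rw [abs_mul, abs_of_pos (by linarith only [hq'0])]
                                                        calc (q' : ℝ) * |y| ≤ S.D ^ Z * (3 * (S.D ^ Z * S.D ^ (Z - t1))) :=
                                                              mul_le_mul h6 h5 (abs_nonneg _) hDZ.le
                                                          _ = 3 * (S.D ^ Z * (S.D ^ Z * S.D ^ (Z - t1))) := by ring
                                                          _ = 3 * S.D ^ (Z + (Z + (Z - t1))) := by rw [hadd, hadd]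
                                                          _ ≤ 3 * S.D ^ (-(t1 / 4)) :=
                                                              mul_le_mul_of_nonneg_left (hexp _ _ (by linarith only [hZ6])) (by norm_num)
                                                          _ ≤ 3 * (1 / 7) := by
                                                              refine mul_le_mul_of_nonneg_left ?_ (by norm_num)
                                                              rw [Real.rpow_neg hD0.le, ← one_div]
                                                              exact one_div_le_one_div_of_le (by norm_num) hDt1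
                                                          _ < 1 / 2 := by norm_num
                                                      rw [lpl2_dint h7, abs_mul, abs_of_pos (by linarith only [hq'0] : (0 : ℝ) < q')] at h1
                                                      have h8 : |y| ≤ S.D ^ ((cl - s) / 8 - d) :=
                                                        (le_mul_of_one_le_left (abs_nonneg _) hq'0).trans h1
                                                      rw [le_div_iff₀ hX0]
                                                      calc |θ' (Fin.last m) + ϑ| * X ≤ |θ' (Fin.last m) + ϑ| * (S.Q * S.D ^ s) :=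
                                                            mul_le_mul_of_nonneg_left hX2 (abs_nonneg _)
                                                        _ = |y| * S.D ^ s := by
                                                            rw [hy, abs_mul, abs_of_pos hQ0]; ring
                                                        _ ≤ S.D ^ ((cl - s) / 8 - d) * S.D ^ s := mul_le_mul_of_nonneg_right h8 (hpos _).le
                                                        _ = S.D ^ ((cl - s) / 8 - d + s) := hadd _ _
                                                        _ ≤ S.D ^ (0 : ℝ) := hexp _ _ (by rw [← hd]; linarith only [hs])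
                                                        _ = 1 := Real.rpow_zero _
                                              · have hfin := hR1 (Fin.last m) hN
                                                rw [hvl, abs_mul, abs_of_pos hPpos] at hfin
                                                rw [le_div_iff₀ hX0]
                                                have h1 : |θ' (Fin.last m) + ϑ| * P * X ≤ S.D ^ ((cl - s) / 8) * X :=
                                                  mul_le_mul_of_nonneg_right hfin hX0.le
                                                have h2 : |θ' (Fin.last m) + ϑ| * X * P ≤ 1 * P := by linarith only [h1, hXP]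
                                                exact le_of_mul_le_mul_right h2 hPpos
                                            have hϑ1 : |ϑ| ≤ |θ' (Fin.last m) + ϑ| + |θ' (Fin.last m)| := by
                                              have := abs_sub (θ' (Fin.last m) + ϑ) (θ' (Fin.last m))
                                              rw [add_sub_cancel_left] at this
                                              exact this
                                            refine ⟨j0, hcj0, ?_⟩
                                            have h1 : |φ j0| ≤ |φ j0 - ϑ| + |ϑ| := by
                                              have := abs_add_le (φ j0 - ϑ) ϑ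
                                              rwa [sub_add_cancel] at this
                                            have h2 := hφθ j0 hj0 hcj0
                                            exact by
                                              have h3 : W ≤ δ⁻¹ ^ p := by rw [hW]; exact pow_le_pow_right₀ hinv1 hn1
                                              have h4 : δ'⁻¹ ^ C2 ≤ δ⁻¹ ^ p := by rw [hδC']; exact pow_le_pow_right₀ hinv1 hpC
                                              have h5 : 1 ≤ δ⁻¹ ^ p := one_le_pow₀ hinv1
                                              have h6 : (2 : ℝ) ^ 2 ≤ δ⁻¹ ^ 2 := pow_le_pow_left₀ (by norm_num) hinv 2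
                                              have h7 : δ⁻¹ ^ p * 2 ^ 2 ≤ δ⁻¹ ^ p * δ⁻¹ ^ 2 := mul_le_mul_of_nonneg_left h6 (by linarith only [h5])
                                              have h8 : W / X + (1 / X + δ'⁻¹ ^ C2 / X) = (W + 1 + δ'⁻¹ ^ C2) / X := by ring
                                              have h9 : W / X + (1 / X + δ'⁻¹ ^ C2 / X) ≤ δ⁻¹ ^ (p + 2) / X := by
                                                rw [h8, pow_add]
                                                refine div_le_div_of_nonneg_right ?_ hX0.le
                                                linarith only [h3, h4, h5, h7]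
                                              linarith only [h1, h2, h9, hϑ1, hϑX, hθ2]

end

end Pool.Agent.Helper67.NX2

end

section

set_option autoImplicit false

open Finset

open scoped BigOperators ComplexConjugate

namespace Pool.Agent.Helper67.NX2

open Pool.Agent.Helper57.NX

noncomputable section

theorem primes_model_of (s : ℕ) (d : Fin (s + 1) → ℕ) (hd2 : ∀ i, 2 ≤ d i)
    (hgap : ∀ i j, i < j → d i + 2 ≤ d j) (γ ε : ℝ) (hγ : 1 ≤ γ) (hγd : γ ≤ d 0) (hε : 0 < ε)
    (hε' : ε ≤ 1 / 8) (hS : Stage12C s d γ ε) (hL : LocalMainC s d) (hC : CellLeC) :
    ∃ x0 : ℝ, 0 < x0 ∧ ∀ τ V κ : ℝ, 0 < τ → 1 ≤ V → 0 < κ → ∃ w0 : ℕ, ∀ w : ℕ, w0 ≤ w →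
    ∀ K : ℕ, 1 ≤ K → (∀ p : ℕ, p.Prime → p ∣ K → p ≤ w) →
    ∃ K' : ℕ, 1 ≤ K' ∧ K ∣ K' ∧ (∀ p : ℕ, p.Prime → (p ∣ K' ↔ p ≤ w)) ∧
    ∃ z0 : ℕ, ∀ z : ℕ, z0 ≤ z → ∀ A : Finset ℕ, PrA z A → ∀ (D : ℝ) (u T : ℕ),
    (2 : ℝ) ^ (τ * z) ≤ D → (∀ i, ((K : ℝ) * (3 * D)) ^ (d i) ≤ (2 : ℝ) ^ z) →
    D ≤ u → (u : ℝ) + T ≤ 2 * D → D ^ (1 - x0) ≤ T →
    ∀ G : ℕ → ℝ, (∀ x, |G x| ≤ V) → (∀ x t : ℕ, |G (x + t) - G x| ≤ V * t / D ^ (γ - ε)) →
    ∀ b : Option (Fin (s + 1)) → ℕ, BlkLen d γ ε D b →
    |nform d K u T (2 ^ z) G (fun _ => FA z A) -
      nform d K u T (2 ^ z) G (fun o => Fm (FA z A) K' (b o))| ≤ κ := by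
  have hγd' : ∀ i, γ ≤ d i := by
    intro i
    by_cases hi : i = 0
    · rw [hi]; exact hγd
    · have h1 := hgap 0 i (Fin.pos_of_ne_zero hi)
      have h2 : ((d 0 : ℕ) : ℝ) ≤ d i := by exact_mod_cast (by omega : d 0 ≤ d i)
      (clear * - hγd h2; linarith)
  obtain ⟨x1, hx1, HS⟩ := hS
  obtain ⟨Cc, hCc, HC⟩ := hC
  obtain ⟨σf, hσf, Df, HF⟩ := freeze s d hd2 γ ε hγ hγd' hε hε'
  refine ⟨min x1 ε, lt_min hx1 hε, ?_⟩
  intro τ V κ hτ hV hκ
  have hV0 : 0 < V := by (clear * - hε hε' hV; linarith)
  set Vl : ℝ := max 1 (Cc * (2 / τ)) with hVl
  have hVl1 : 1 ≤ Vl := le_max_left _ _
  obtain ⟨w0, HL⟩ := hL Vl (κ / (4 * V)) hVl1 (by (clear * - hκ hV; positivity))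
  refine ⟨w0, ?_⟩
  intro w hw K hK hKw
  obtain ⟨K', hK'0, hKK', hK'p, HL'⟩ := HL w hw K hK hKw
  have hK'1 : 1 ≤ K' := Nat.one_le_iff_ne_zero.2 (NeZero.ne K')
  refine ⟨K', hK'1, hKK', hK'p, ?_⟩
  set σ : ℝ := τ * min (σf / 2) (1 / 16) with hσ
  exact by
    have hσ0 : 0 < σ := mul_pos hτ (lt_min (by positivity) (by norm_num))
    obtain ⟨z1, HS'⟩ := HS τ V (κ / 4) σ hτ hV (by positivity) hσ0 K K' hK hK'1
    -- lower bound for `D`
    set Dm : ℝ := max (max (max Df 256) (max ((K : ℝ) ^ (1 / σf)) (V ^ (1 / σf))))
      (max ((Cc * (2 / τ)) ^ (2 / σf)) ((8 / κ) ^ (1 / σf))) with hDm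
    obtain ⟨z2, hz2⟩ : ∃ z2 : ℕ, Dm ≤ (2 : ℝ) ^ (τ * z2) := by
      obtain ⟨n, hn⟩ := exists_nat_ge (Real.logb 2 (max Dm 1) / τ)
      refine ⟨n, ?_⟩
      have h1 : Real.logb 2 (max Dm 1) ≤ τ * n := by
        rw [div_le_iff₀ hτ] at hn
        (clear * - hn; linarith)
      have h2 := (Real.logb_le_iff_le_rpow (by norm_num) (by positivity)).1 h1
      exact (le_max_left _ _).trans h2
    refine ⟨max (max z1 z2) 1, ?_⟩
    intro z hz A hA D u T hDz hKz hu1 hu2 hT G hG hGl b hb
    have hz1 : z1 ≤ z := ((le_max_left _ _).trans (le_max_left _ _)).trans hz
    have hz2' : z2 ≤ z := ((le_max_right _ _).trans (le_max_left _ _)).trans hz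
    have hz3 : 1 ≤ z := (le_max_right _ _).trans hz
    have hzr : (1 : ℝ) ≤ z := by exact_mod_cast hz3
    exact by
      have hDm' : Dm ≤ D := by
        refine (hz2.trans (Real.rpow_le_rpow_of_exponent_le (by norm_num) ?_)).trans hDz
        exact mul_le_mul_of_nonneg_left (by exact_mod_cast hz2') hτ.le
      have hDf : Df ≤ D := le_trans ((le_max_left _ _).trans ((le_max_left _ _).trans (le_max_left _ _))) hDm'
      have hD256 : 256 ≤ D :=
        le_trans ((le_max_right _ _).trans ((le_max_left _ _).trans (le_max_left _ _))) hDm'
      have hDK : (K : ℝ) ^ (1 / σf) ≤ D :=
        le_trans ((le_max_left _ _).trans ((le_max_right _ _).trans (le_max_left _ _))) hDm'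
      have hDV : V ^ (1 / σf) ≤ D :=
        le_trans ((le_max_right _ _).trans ((le_max_right _ _).trans (le_max_left _ _))) hDm'
      have hDC : (Cc * (2 / τ)) ^ (2 / σf) ≤ D :=
        le_trans ((le_max_left _ _).trans (le_max_right _ _)) hDm'
      exact by
        have hDκ : (8 / κ) ^ (1 / σf) ≤ D :=
          le_trans ((le_max_right _ _).trans (le_max_right _ _)) hDm'
        have hD0 : 0 < D := by (clear * - hε hε' hD256; linarith)
        have hD1 : 1 ≤ D := by (clear * - hε hε' hD256; linarith)
        have hpw : ∀ a t : ℝ, 0 ≤ a → 0 < t → a ^ (1 / t) ≤ D → a ≤ D ^ t := by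
          intro a t ha ht h
          have h1 := Real.rpow_le_rpow (by (clear * - ha; positivity)) h ht.le
          rwa [← Real.rpow_mul ha, one_div_mul_cancel ht.ne', Real.rpow_one] at h1
        have hK1 : (K : ℝ) ≤ D ^ σf := hpw _ _ (Nat.cast_nonneg _) hσf hDK
        have hV1 : V ≤ D ^ σf := hpw _ _ hV0.le hσf hDV
        exact by
          have hC1 : Cc * (2 / τ) ≤ D ^ (σf / 2) := by
            refine hpw _ _ (by positivity) (by positivity) ?_
            rwa [one_div_div]
          have hκ1 : D ^ (-σf) ≤ κ / 8 := by
            have h1 : 8 / κ ≤ D ^ σf := hpw _ _ (by positivity) hσf hDκ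
            rw [Real.rpow_neg hD0.le, inv_le_comm₀ (Real.rpow_pos_of_pos hD0 _) (by positivity), inv_div]
            exact h1
          obtain ⟨K2, hK'K2, hK21, hK2z, HS2⟩ := HS' z hz1
          have : NeZero K2 := ⟨by omega⟩
          have hK'K2le : K' ≤ K2 := Nat.le_of_dvd hK21 hK'K2
          have hK2D : (K2 : ℝ) ≤ D ^ (σf / 2) := by
            refine hK2z.trans ?_
            have h1 : (2 : ℝ) ^ (σ * z) = ((2 : ℝ) ^ (τ * z)) ^ (min (σf / 2) (1 / 16)) := by
              rw [← Real.rpow_mul (by norm_num)]
              congr 1
              rw [hσ]
              ring
            rw [h1]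
            refine (Real.rpow_le_rpow (by positivity) hDz (le_min (by positivity) (by norm_num))).trans ?_
            exact Real.rpow_le_rpow_of_exponent_le hD1 (min_le_left _ _)
          -- blocks
          have hbb : ∀ o, (2 : ℝ) ^ (τ * z / 2) ≤ (2 : ℝ) ^ (b o) ∧ τ * z / 2 ≤ b o := by
            intro o
            cases o with
            | none => exact blk46 hε' hγ hD256 hDz hb.1.1
            | some i =>
              refine blk46 hε' ?_ hD256 hDz (hb.2 i).1
              exact hγ.trans (hγd' i)
          exact by
            have hb1 : ∀ o, 1 ≤ b o := by
              intro o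
              have h1 := (hbb o).2
              have h2 : 0 < τ * z / 2 := by (clear * - hτ hz3; positivity)
              have h3 : (0 : ℝ) < b o := h2.trans_le h1
              exact_mod_cast h3
            have hK1r : (1 : ℝ) ≤ K := by exact_mod_cast hK
            have hDi : ∀ (e : ℝ) (i : Fin (s + 1)), e ≤ d i → D ^ (e - 2 * ε) ≤ (2 : ℝ) ^ z := by
              intro e i he
              refine le_trans ?_ (hKz i)
              rw [← Real.rpow_natCast (K * (3 * D)) (d i)]
              have h1 : D ^ (e - 2 * ε) ≤ D ^ ((d i : ℕ) : ℝ) :=
                Real.rpow_le_rpow_of_exponent_le hD1 (by (clear * - hε he; linarith))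
              refine h1.trans (Real.rpow_le_rpow hD0.le ?_ (Nat.cast_nonneg _))
              (clear * - hε hε' hu1 hK1r hu2 hD256; nlinarith)
            have hbz : ∀ o, b o ≤ z := by
              intro o
              have h1 : (2 : ℝ) ^ (b o) ≤ 2 ^ z := by
                cases o with
                | none => exact hb.1.2.trans (hDi γ 0 hγd)
                | some i => exact (hb.2 i).2.trans (hDi (d i) i le_rfl)
              exact (pow_le_pow_iff_right₀ (by norm_num : (1 : ℝ) < 2)).1 h1
            have hzb : ∀ o, (z : ℝ) / b o ≤ 2 / τ := by
              intro o
              have h1 := (hbb o).2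
              have h2 : (0 : ℝ) < b o := by exact_mod_cast hb1 o
              rw [div_le_div_iff₀ h2 hτ]
              (clear * - h1; linarith)
            have hM2 : ∀ M : ℕ, M ≤ K2 → ∀ o, M ^ 2 < 2 ^ (b o) := by
              intro M hM o
              have h1 : (M : ℝ) ≤ K2 := by exact_mod_cast hM
              have h2 : (K2 : ℝ) ^ 2 < (2 : ℝ) ^ (b o) := by
                have h3 : (K2 : ℝ) ≤ (2 : ℝ) ^ (τ * z / 8) := by
                  refine hK2z.trans (Real.rpow_le_rpow_of_exponent_le (by norm_num) ?_)
                  have h4 : σ ≤ τ * (1 / 16) := mul_le_mul_of_nonneg_left (min_le_right _ _) hτ.le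
                  have h5 : σ * z ≤ τ * (1 / 16) * z := mul_le_mul_of_nonneg_right h4 (by (clear * - hε hε' hzr; linarith))
                  have h6 : 0 < τ * z := by positivity
                  (clear * - h5 h6; linarith)
                have h4 := pow_le_pow_left₀ (Nat.cast_nonneg _) h3 2
                rw [← Real.rpow_natCast ((2 : ℝ) ^ (τ * z / 8)) 2, ← Real.rpow_mul (by norm_num)] at h4
                refine h4.trans_lt (lt_of_lt_of_le ?_ (hbb o).1)
                refine Real.rpow_lt_rpow_of_exponent_lt (by norm_num) ?_
                have h6 : 0 < τ * z := by positivity
                push_cast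
                (clear * - h6; linarith)
              have h3 := (pow_le_pow_left₀ (Nat.cast_nonneg _) h1 2).trans_lt h2
              exact_mod_cast h3
            -- bounds for cells
            exact by
              have hcell : ∀ (M : ℕ), 1 ≤ M → M ≤ K2 → ∀ o j (ρ : ZMod M),
                  cell (FA z A) M (b o) j ρ ≤ Cc * (2 / τ) * (M / M.totient) := by
                intro M hM1 hM2' o j ρ
                refine (HC z A hA (b o) j M (hb1 o) (hbz o) hM1 (hM2 M hM2' o) ρ).trans ?_
                refine mul_le_mul_of_nonneg_right ?_ (by (clear * - hM1; positivity))
                exact mul_le_mul_of_nonneg_left (hzb o) hCc.le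
              set Vf : ℝ := max V (Cc * (2 / τ) * K2) with hVf
              have hVf1 : 1 ≤ Vf := hV.trans (le_max_left _ _)
              have hVfD : Vf ≤ D ^ σf := by
                refine max_le hV1 ?_
                have h1 : D ^ σf = D ^ (σf / 2) * D ^ (σf / 2) := by
                  rw [← Real.rpow_add hD0]
                  congr 1
                  ring
                rw [h1]
                exact mul_le_mul hC1 hK2D (Nat.cast_nonneg _) (Real.rpow_nonneg hD0.le _)
              have hcell' : ∀ (M : ℕ), 1 ≤ M → M ≤ K2 → ∀ o j (ρ : ZMod M),
                  |cell (FA z A) M (b o) j ρ| ≤ Vf := by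
                intro M hM1 hM2' o j ρ
                rw [abs_of_nonneg (cell_nonneg46 (FA_nonneg46 z A) M (b o) j ρ)]
                refine (hcell M hM1 hM2' o j ρ).trans (le_trans ?_ (le_max_right _ _))
                refine mul_le_mul_of_nonneg_left ?_ (by positivity)
                have h1 : (1 : ℝ) ≤ M.totient := by exact_mod_cast Nat.totient_pos.2 hM1
                refine (div_le_self (Nat.cast_nonneg _) h1).trans ?_
                exact_mod_cast hM2'
              have hGVf : ∀ x, |G x| ≤ Vf := fun x => (hG x).trans (le_max_left _ _)
              exact by
                have hGlVf : ∀ x t : ℕ, |G (x + t) - G x| ≤ Vf * t / D ^ (γ - ε) := by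
                  intro x t
                  refine (hGl x t).trans ?_
                  refine div_le_div_of_nonneg_right ?_ (Real.rpow_nonneg hD0.le _)
                  exact mul_le_mul_of_nonneg_right (le_max_left _ _) (Nat.cast_nonneg _)
                have hTε : D ^ (1 - ε) ≤ T := by
                  refine le_trans (Real.rpow_le_rpow_of_exponent_le hD1 ?_) hT
                  have := min_le_right x1 ε
                  (clear * - this; linarith)
                have hT1 : D ^ (1 - x1) ≤ T := by
                  refine le_trans (Real.rpow_le_rpow_of_exponent_le hD1 ?_) hT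
                  have := min_le_left x1 ε
                  (clear * - this; linarith)
                have hK2D' : (K2 : ℝ) ≤ D ^ σf := hK2D.trans (Real.rpow_le_rpow_of_exponent_le hD1 (by (clear * - hσf; linarith)))
                have hK'D : (K' : ℝ) ≤ D ^ σf := le_trans (by exact_mod_cast hK'K2le) hK2D'
                -- the four steps
                have s1 := HS2 A hA D u T hDz hKz hu1 hu2 hT1 G hG hGl b hb
                exact by
                  have s2 := HF D Vf K K2 u T z hDf hK hK1 hK2D' hVf1 hVfD hu1 hu2 hTε hKz (FA z A) G b hb hbz
                    (hcell' K2 hK21 le_rfl) hGVf hGlVf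
                  have s3 := HF D Vf K K' u T z hDf hK hK1 hK'D hVf1 hVfD hu1 hu2 hTε hKz (FA z A) G b hb hbz
                    (hcell' K' hK'1 hK'K2le) hGVf hGlVf
                  have s4 : |𝔼 k ∈ Ico u (u + T), (∑ x ∈ range (2 ^ z), G x *
                        lfm d K K2 (fun o => cell (FA z A) K2 (b o) ((x + sh d (K * k) o) / 2 ^ (b o)))) / 2 ^ z -
                      𝔼 k ∈ Ico u (u + T), (∑ x ∈ range (2 ^ z), G x *
                        lfm d K K' (fun o => cell (FA z A) K' (b o) ((x + sh d (K * k) o) / 2 ^ (b o)))) / 2 ^ z| ≤
                      κ / 4 := by
                    have hpt : ∀ (k x : ℕ),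
                        |lfm d K K2 (fun o => cell (FA z A) K2 (b o) ((x + sh d (K * k) o) / 2 ^ (b o))) -
                        lfm d K K' (fun o => cell (FA z A) K' (b o) ((x + sh d (K * k) o) / 2 ^ (b o)))| ≤
                        κ / (4 * V) := by
                      intro k x
                      have h1 := HL' K2 hK'K2
                        (fun o => cell (FA z A) K2 (b o) ((x + sh d (K * k) o) / 2 ^ (b o)))
                        (fun o ρ => cell_nonneg46 (FA_nonneg46 z A) K2 (b o) _ ρ) (by
                          intro M' hM' o ρ
                          have hM'1 : 1 ≤ M' := Nat.pos_of_dvd_of_pos hM' hK21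
                          rw [fav_cell (FA z A) K2 M' (b o) _ hM' hM'1 ρ]
                          refine (hcell M' hM'1 (Nat.le_of_dvd hK21 hM') o _ ρ).trans ?_
                          exact mul_le_mul_of_nonneg_right (le_max_right _ _) (by (clear * - hM'1; positivity)))
                      have h2 : (fun o : Option (Fin (s + 1)) => fav K'
                          (cell (FA z A) K2 (b o) ((x + sh d (K * k) o) / 2 ^ (b o)))) =
                          fun o => cell (FA z A) K' (b o) ((x + sh d (K * k) o) / 2 ^ (b o)) := by
                        funext o ρ
                        exact fav_cell (FA z A) K2 K' (b o) _ hK'K2 hK'1 ρ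
                      rw [h2] at h1
                      exact h1
                    have hT0 : 0 < T := by
                      have h1 : 0 < D ^ (1 - ε) := Real.rpow_pos_of_pos hD0 _
                      exact_mod_cast h1.trans_le hTε
                    have hne : (Ico u (u + T)).Nonempty := by
                      rw [nonempty_Ico]
                      omega
                    rw [← expect_sub_distrib]
                    refine (abs_expect_le _ _).trans ?_
                    refine expect_le hne fun k _ => ?_
                    rw [← sub_div, ← sum_sub_distrib, abs_div, abs_of_pos (by positivity : (0 : ℝ) < 2 ^ z),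
                      div_le_iff₀ (by positivity)]
                    refine (abs_sum_le_sum_abs _ _).trans ?_
                    have h1 : ∀ x ∈ range (2 ^ z), |G x *
                        lfm d K K2 (fun o => cell (FA z A) K2 (b o) ((x + sh d (K * k) o) / 2 ^ (b o))) -
                        G x * lfm d K K' (fun o => cell (FA z A) K' (b o) ((x + sh d (K * k) o) / 2 ^ (b o)))| ≤
                        κ / 4 := by
                      intro x _
                      rw [← mul_sub, abs_mul]
                      refine (mul_le_mul (hG x) (hpt k x) (abs_nonneg _) hV0.le).trans (le_of_eq ?_)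
                      field_simp
                    refine (sum_le_sum h1).trans (le_of_eq ?_)
                    rw [sum_const, card_range, nsmul_eq_mul]
                    push_cast
                    ring
                  have t1 := abs_le.1 s1
                  have t2 := abs_le.1 (s2.trans hκ1)
                  have t3 := abs_le.1 (s3.trans hκ1)
                  exact by
                    have t4 := abs_le.1 s4
                    rw [abs_le]
                    constructor <;> (clear * - hκ t1 t2 t3 t4; linarith [t1.1, t1.2, t2.1, t2.2, t3.1, t3.2, t4.1, t4.2])

end

end Pool.Agent.Helper67.NX2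

end
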