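import Pool.Agent.Helper23.MC.L01_a0
import Pool.Agent.Helper23.MC.L01_a1
import Pool.Agent.Helper23.MC.L01_a11
import Pool.Agent.Helper23.MC.L01_a12
import Pool.Agent.Helper23.MC.L01_a13
import Pool.Agent.Helper23.MC.L01_a2
import Pool.Agent.Helper23.MC.L01_a5
import Pool.Agent.Helper23.MC.L01_a7
import Pool.Agent.Helper23.MC.L01_a8

/-!
Parts of Helper85.NX.Form, Helper64.NX.LpKey, Helper64.NX.LpAlign, Helper67.NX.Conv, Helper28.NX.BaseAux, Helper91.NX2.AlKey, Helper91.NX2.AlArithCore
-/

attribute [local instance 5000]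
  Pool.Agent.Helper23.MC.Inst.rCharZero Pool.Agent.Helper23.MC.Inst.rALM
  Pool.Agent.Helper23.MC.Inst.rARM Pool.Agent.Helper23.MC.Inst.rALSM
  Pool.Agent.Helper23.MC.Inst.rARSM Pool.Agent.Helper23.MC.Inst.rARRLE
  Pool.Agent.Helper23.MC.Inst.rALRLE Pool.Agent.Helper23.MC.Inst.rARRLT
  Pool.Agent.Helper23.MC.Inst.rALRLT Pool.Agent.Helper23.MC.Inst.rPMRLT
  Pool.Agent.Helper23.MC.Inst.rMPRLT Pool.Agent.Helper23.MC.Inst.rPMM
  Pool.Agent.Helper23.MC.Inst.rMPM Pool.Agent.Helper23.MC.Inst.rPMSM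
  Pool.Agent.Helper23.MC.Inst.rMPSM Pool.Agent.Helper23.MC.Inst.rEAOL
  Pool.Agent.Helper23.MC.Inst.rIOR Pool.Agent.Helper23.MC.Inst.rISOR
  Pool.Agent.Helper23.MC.Inst.rNZD Pool.Agent.Helper23.MC.Inst.rcCharZero
  Pool.Agent.Helper23.MC.Inst.rcNZD Pool.Agent.Helper23.MC.Inst.zCharZero
  Pool.Agent.Helper23.MC.Inst.zALM Pool.Agent.Helper23.MC.Inst.zARM
  Pool.Agent.Helper23.MC.Inst.zALSM Pool.Agent.Helper23.MC.Inst.zARSM
  Pool.Agent.Helper23.MC.Inst.zIOR Pool.Agent.Helper23.MC.Inst.zISOR
  Pool.Agent.Helper23.MC.Inst.zNZD Pool.Agent.Helper23.MC.Inst.qCharZero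
  Pool.Agent.Helper23.MC.Inst.mR Pool.Agent.Helper23.MC.Inst.mC Pool.Agent.Helper23.MC.Inst.mRC
  Pool.Agent.Helper23.MC.Inst.rPSM Pool.Agent.Helper23.MC.Inst.rCSM
  Pool.Agent.Helper23.MC.Inst.cAdd Pool.Agent.Helper23.MC.Inst.cAddM
  Pool.Agent.Helper23.MC.Inst.cMul Pool.Agent.Helper23.MC.Inst.cMon

namespace Pool.Agent.Helper57.NX
end Pool.Agent.Helper57.NX
namespace Pool.Agent.Helper67.NX2
end Pool.Agent.Helper67.NX2

section

set_option autoImplicit false

open Finset

open scoped BigOperators ComplexConjugate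

namespace Pool.Agent.Helper57.NX

noncomputable section

section Form

variable {m N : ℕ} [NeZero N]

theorem form_update_sub (S : Sys m) (c : Fin m → ℝ) (h : ℕ → ℂ) (f0 : ZMod N → ℂ)
    (f : Fin m → ZMod N → ℂ) (i : Fin m) (u v : ZMod N → ℂ) :
    form S c h f0 (Function.update f i (fun x => u x - v x)) =
      form S c h f0 (Function.update f i u) - form S c h f0 (Function.update f i v) := by
  rw [form_update, form_update, form_update, ← Finset.expect_sub_distrib]
  refine Finset.expect_congr rfl fun k _ => ?_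
  rw [← mul_sub, ← Finset.expect_sub_distrib]
  congr 1
  refine Finset.expect_congr rfl fun x _ => ?_
  ring

theorem norm_form_update_le (S : Sys m) (c : Fin m → ℝ) (h : ℕ → ℂ) (hh : ∀ k, ‖h k‖ ≤ 1)
    (f0 : ZMod N → ℂ) (hf0 : ∀ x, ‖f0 x‖ ≤ 1)
    (f : Fin m → ZMod N → ℂ) (i : Fin m) (hf : ∀ j, j ≠ i → ∀ x, ‖f j x‖ ≤ 1) (u : ZMod N → ℂ) :
    ‖form S c h f0 (Function.update f i u)‖ ≤ nrm u := by
  have hu : 0 ≤ nrm u := Finset.expect_nonneg fun x _ => norm_nonneg _
  rw [form_update]
  refine (RCLike.norm_expect_le (K := ℂ)).trans (expect_le_of_nonneg _ _ _ hu fun k _ => ?_)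
  rw [norm_mul]
  refine (mul_le_of_le_one_left (norm_nonneg _) (hh k)).trans ?_
  refine (RCLike.norm_expect_le (K := ℂ)).trans ?_
  refine (Finset.expect_le_expect fun x _ => ?_).trans
    (exp_shift (fun x => ‖u x‖) (S.a c i k : ZMod N)).le
  rw [norm_mul, norm_mul]
  refine mul_le_of_le_one_right (norm_nonneg _) ?_
  refine mul_le_one₀ (hf0 x) (norm_nonneg _) ?_
  exact norm_prod_le _ _ (fun j hj => hf j (ne_of_mem_erase hj)) _

end Form

end

end Pool.Agent.Helper57.NX

end

section

set_option autoImplicit false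

open Finset

open scoped BigOperators ComplexConjugate

namespace Pool.Agent.Helper57.NX

noncomputable section

section Form64

variable {m N : ℕ} [NeZero N]

lemma snoc_sub64 (S : Sys (m + 1)) (c : Fin (m + 1) → ℝ) (f0 : ZMod N → ℂ)
    (hf0 : ∀ x, ‖f0 x‖ ≤ 1) (f : Fin m → ZMod N → ℂ) (hf : ∀ i x, ‖f i x‖ ≤ 1)
    (u v : ZMod N → ℂ) :
    ‖form S c 1 f0 (Fin.snoc (α := fun _ => ZMod N → ℂ) f u)‖ ≤
      ‖form S c 1 f0 (Fin.snoc (α := fun _ => ZMod N → ℂ) f v)‖ + nrm (fun x => u x - v x) := by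
  have h1 := form_update_sub S c 1 f0 (Fin.snoc (α := fun _ => ZMod N → ℂ) f u) (Fin.last m) u v
  have h2 := norm_form_update_le S c 1 (fun _ => by simp) f0 hf0
    (Fin.snoc (α := fun _ => ZMod N → ℂ) f (fun _ => 0)) (Fin.last m)
    (fun j _ x => snoc_bdd64 hf (fun _ => by simp) j x) (fun x => u x - v x)
  rw [snoc_update64, snoc_update64, snoc_update64] at h1
  rw [snoc_update64] at h2
  have h3 : form S c 1 f0 (Fin.snoc (α := fun _ => ZMod N → ℂ) f u) =
      form S c 1 f0 (Fin.snoc (α := fun _ => ZMod N → ℂ) f v) +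
      form S c 1 f0 (Fin.snoc (α := fun _ => ZMod N → ℂ) f (fun x => u x - v x)) := by
    rw [h1]; ring
  rw [h3]
  exact (norm_add_le _ _).trans (add_le_add le_rfl h2)

lemma bphase_mul64 {X : ℕ} {r : ZMod N} (cc : ℕ → ℂ) (φ : ℕ → ℝ) {Y : ℕ} {y y' : ℕ}
    (hy : y < Y) (hy' : y' < Y) {z : ZMod N} (hz : ¬ ∃ t < Y, chg64 X r (z + (t : ZMod N))) :
    bphase X r cc φ (z + (y : ZMod N)) * conj (bphase X r cc φ (z + (y' : ZMod N))) =
      Gf64 X r cc φ y y' z := by
  have hz' : ∀ t < Y, ¬ chg64 X r (z + (t : ZMod N)) := fun t ht h => hz ⟨t, ht, h⟩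
  obtain ⟨h1, h2⟩ := nochg64 (X := X) y fun t ht => hz' t (ht.trans hy)
  obtain ⟨h3, h4⟩ := nochg64 (X := X) y' fun t ht => hz' t (ht.trans hy')
  unfold bphase Gf64 gcoef64
  rw [h2, h4, h1, h3, map_mul, ← e_neg]
  set j := (z - r).val / X
  set v := (z - r).val
  have h5 : e (φ j * ((y : ℝ) - y')) = e (φ j * ((v + y : ℕ) : ℝ)) * e (-(φ j * ((v + y' : ℕ) : ℝ))) := by
    rw [← e_add]
    congr 1
    push_cast
    ring
  rw [h5]
  have h6 : ((‖cc j‖ ^ 2 : ℝ) : ℂ) = cc j * conj (cc j) := by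
    rw [Complex.mul_conj, Complex.normSq_eq_norm_sq]
  rw [h6]
  ring

lemma nrm_diff64 {X : ℕ} (hX : 1 ≤ X) (hXN : X ≤ N) (r : ZMod N) {cc : ℕ → ℂ}
    (hcc : ∀ j, ‖cc j‖ ≤ 1) (φ : ℕ → ℝ) {Y : ℕ} {y y' : ℕ} (hy : y < Y) (hy' : y' < Y) :
    nrm (fun z : ZMod N => bphase X r cc φ (z + (y : ZMod N)) *
      conj (bphase X r cc φ (z + (y' : ZMod N))) - Gf64 X r cc φ y y' z) ≤ 4 * Y / X := by
  classical
  have h1 : nrm (fun z : ZMod N => bphase X r cc φ (z + (y : ZMod N)) *
      conj (bphase X r cc φ (z + (y' : ZMod N))) - Gf64 X r cc φ y y' z) ≤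
      𝔼 z : ZMod N, 2 * (if ∃ t < Y, chg64 X r (z + (t : ZMod N)) then (1 : ℝ) else 0) := by
    refine expect_le_expect fun z _ => ?_
    split_ifs with h
    · refine (norm_sub_le _ _).trans ?_
      rw [norm_mul, Complex.norm_conj]
      have h2 := mul_le_one₀ (bphase_bdd64 (X := X) (r := r) hcc φ (z + (y : ZMod N)))
        (norm_nonneg _) (bphase_bdd64 (X := X) (r := r) hcc φ (z + (y' : ZMod N)))
      have h3 := norm_gcoef64 hcc φ y y' ((z - r).val / X)
      unfold Gf64
      (clear * - h2 h3; linarith)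
    · beta_reduce
      rw [bphase_mul64 cc φ hy hy' h, sub_self, norm_zero]
      norm_num
  refine h1.trans ?_
  rw [← mul_expect]
  have h4 := expect_exc64 hX hXN r Y
  have h5 : 2 * ((Y : ℝ) * (2 / X)) = 4 * Y / X := by ring
  rw [← h5]
  exact mul_le_mul_of_nonneg_left (by convert h4) (by norm_num)

/-- geometric sums -/
lemma geom64 {Y : ℕ} (hY : 1 ≤ Y) {β w0 : ℝ} (hw0 : 0 < w0) (hβ : w0 ≤ |β|) (hβ2 : |β| ≤ 1 / 2) :
    ‖𝔼 y ∈ range Y, e (β * y)‖ ≤ 1 / (2 * Y * w0) := by
  have hY0 : (0 : ℝ) < Y := by exact_mod_cast hY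
  have h := freq_bound (N := 1) (f := fun _ => 1) (fun _ => by simp) 0 Y hY (-β)
    (by rw [abs_neg]; exact hw0.trans_le hβ) (by rwa [abs_neg])
  simp only [one_mul, sub_self, norm_zero, sum_const_zero, add_zero, neg_mul, neg_neg,
    abs_neg] at h
  refine h.trans ?_
  have hβ0 : 0 < |β| := hw0.trans_le hβ
  rw [div_le_div_iff₀ (by (clear * - hβ0 hY; positivity)) (by (clear * - hY hw0; positivity))]
  (clear * - hβ hY0; nlinarith [mul_le_mul_of_nonneg_left hβ hY0.le])

omit [NeZero N] in
/-- expansion of the averages of the differenced block phase -/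
lemma expand64 {X : ℕ} (r : ZMod N) {cc : ℕ → ℂ} (hcc : ∀ j, ‖cc j‖ ≤ 1) (φ : ℕ → ℝ)
    {Y : ℕ} (hY : 1 ≤ Y) (L : ℕ) {w0 : ℝ} (hw0 : 0 < w0) (hφ : ∀ j j', |φ j - φ j'| ≤ 1 / 2)
    (z : ZMod N) :
    𝔼 y ∈ range Y, 𝔼 y' ∈ range Y, ‖A L (Gf64 X r cc φ y y') z‖ ^ 2 ≤
      𝔼 w ∈ range L, 𝔼 w' ∈ range L, (ind64 X r cc φ w0 (z + (w : ZMod N)) (z + (w' : ZMod N)) +
        (1 / (2 * Y * w0)) ^ 2) := by
  set J : ℕ → ℕ := fun w => (z + (w : ZMod N) - r).val / X with hJ
  have h1 : ((𝔼 y ∈ range Y, 𝔼 y' ∈ range Y, ‖A L (Gf64 X r cc φ y y') z‖ ^ 2 : ℝ) : ℂ) =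
      ((𝔼 w ∈ range L, 𝔼 w' ∈ range L, ‖cc (J w)‖ ^ 2 * ‖cc (J w')‖ ^ 2 *
        ‖𝔼 y ∈ range Y, e ((φ (J w) - φ (J w')) * y)‖ ^ 2 : ℝ) : ℂ) := by
    have h2 : ∀ y y' : ℕ, ((‖A L (Gf64 X r cc φ y y') z‖ ^ 2 : ℝ) : ℂ) =
        𝔼 w ∈ range L, 𝔼 w' ∈ range L, ((‖cc (J w)‖ ^ 2 * ‖cc (J w')‖ ^ 2 : ℝ) : ℂ) *
          (e ((φ (J w) - φ (J w')) * y) * conj (e ((φ (J w) - φ (J w')) * y'))) := by
      intro y y'
      unfold A
      rw [norm_sq_expect64]
      refine expect_congr rfl fun w _ => expect_congr rfl fun w' _ => ?_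
      unfold Gf64 gcoef64
      rw [map_mul, Complex.conj_ofReal, ← e_neg, ← e_neg]
      have h3 : e ((φ (J w) - φ (J w')) * y) * e (-((φ (J w) - φ (J w')) * y')) =
          e (φ (J w) * ((y : ℝ) - y')) * e (-(φ (J w') * ((y : ℝ) - y'))) := by
        rw [← e_add, ← e_add]
        congr 1
        ring
      rw [h3]
      push_cast
      ring
    push_cast
    simp_rw [← Complex.ofReal_pow]
    simp_rw [h2]
    rw [expect_comm4_64]
    refine expect_congr rfl fun w _ => expect_congr rfl fun w' _ => ?_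
    rw [norm_sq_expect64]
    simp_rw [← mul_expect]
    push_cast
    ring
  have h4 := Complex.ofReal_injective h1
  rw [h4]
  refine expect_le_expect fun w _ => expect_le_expect fun w' _ => ?_
  exact by
    have hb : ∀ j, ‖cc j‖ ^ 2 ≤ 1 := fun j => by
      have := hcc j
      have := norm_nonneg (cc j)
      nlinarith
    have he : ‖𝔼 y ∈ range Y, e ((φ (J w) - φ (J w')) * y)‖ ≤ 1 :=
      norm_expect_le_of5 _ _ zero_le_one fun y _ => (norm_e _).le
    have hκ : 0 ≤ (1 / (2 * Y * w0)) ^ 2 := by (clear * - hY hw0; positivity)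
    have hbb : ‖cc (J w)‖ ^ 2 * ‖cc (J w')‖ ^ 2 ≤ 1 :=
      mul_le_one₀ (hb _) (by (clear * -; positivity)) (hb _)
    have hbb0 : 0 ≤ ‖cc (J w)‖ ^ 2 * ‖cc (J w')‖ ^ 2 := by (clear * -; positivity)
    unfold ind64
    split_ifs with hc
    · have h5 : ‖𝔼 y ∈ range Y, e ((φ (J w) - φ (J w')) * y)‖ ^ 2 ≤ 1 := by
        have := norm_nonneg (𝔼 y ∈ range Y, e ((φ (J w) - φ (J w')) * y))
        (clear * - he this; nlinarith)
      have := mul_le_one₀ hbb (by (clear * -; positivity)) h5
      linarith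
    · by_cases hc1 : cc (J w) = 0
      · rw [hc1]
        simp only [norm_zero, ne_eq, OfNat.ofNat_ne_zero, not_false_eq_true, zero_pow, zero_mul,
          zero_add]
        exact hκ
      by_cases hc2 : cc (J w') = 0
      · rw [hc2]
        simp only [norm_zero, ne_eq, OfNat.ofNat_ne_zero, not_false_eq_true, zero_pow, zero_mul,
          mul_zero, zero_add]
        exact hκ
      have h6 : w0 < |φ (J w) - φ (J w')| := by
        by_contra h
        exact hc ⟨hc1, hc2, not_lt.1 h⟩
      have h7 := geom64 hY hw0 h6.le (hφ (J w) (J w'))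
      have h8 := pow_le_pow_left₀ (norm_nonneg _) h7 2
      rw [zero_add]
      calc ‖cc (J w)‖ ^ 2 * ‖cc (J w')‖ ^ 2 * ‖𝔼 y ∈ range Y, e ((φ (J w) - φ (J w')) * y)‖ ^ 2
          ≤ 1 * ‖𝔼 y ∈ range Y, e ((φ (J w) - φ (J w')) * y)‖ ^ 2 :=
            mul_le_mul_of_nonneg_right hbb (by (clear * -; positivity))
        _ ≤ (1 / (2 * Y * w0)) ^ 2 := by rw [one_mul]; exact h8

/-- Key lemma: a large form of a block phase gives many pairs of points at distance `< L` with
close frequencies. -/
theorem key64 (S : Sys (m + 1)) (c : Fin (m + 1) → ℝ) (f0 : ZMod N → ℂ)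
    (hf0 : ∀ x, ‖f0 x‖ ≤ 1) (f : Fin m → ZMod N → ℂ) (hf : ∀ i x, ‖f i x‖ ≤ 1)
    {X : ℕ} (hX : 1 ≤ X) (hXN : X ≤ N) (r : ZMod N) {cc : ℕ → ℂ} (hcc : ∀ j, ‖cc j‖ ≤ 1)
    {φ : ℕ → ℝ} (hφ : ∀ j j', |φ j - φ j'| ≤ 1 / 2) {Y : ℕ} (hY : 1 ≤ Y) (L : ℕ) {w0 : ℝ}
    (hw0 : 0 < w0) {δ1 δ6 δT : ℝ} (hδ1 : 0 ≤ δ1) (hδ6 : 0 ≤ δ6) (hδT : 0 < δT)
    (hpos : 0 ≤ δ1 ^ 2 - 4 * Y / X - δ6)
    (hG : ∀ y < Y, ∀ y' < Y, δ6 ≤ ‖form S c 1
        (fun x => f0 (x + (y : ZMod N)) * conj (f0 (x + (y' : ZMod N))))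
        (Fin.snoc (α := fun _ => ZMod N → ℂ)
          (fun i x => f i (x + (y : ZMod N)) * conj (f i (x + (y' : ZMod N))))
          (Gf64 X r cc φ y y'))‖ → δT ≤ nrm (A L (Gf64 X r cc φ y y')))
    (h : δ1 ≤ ‖form S c 1 f0 (Fin.snoc (α := fun _ => ZMod N → ℂ) f (bphase X r cc φ))‖) :
    (δT * (δ1 ^ 2 - 4 * Y / X - δ6)) ^ 2 ≤
      (𝔼 z : ZMod N, 𝔼 w ∈ range L, 𝔼 w' ∈ range L,
        ind64 X r cc φ w0 (z + (w : ZMod N)) (z + (w' : ZMod N))) + (1 / (2 * Y * w0)) ^ 2 := by
  have hY0 : (0 : ℝ) < Y := by exact_mod_cast hY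
  have hne : (range Y).Nonempty := nonempty_range_iff.2 (by omega)
  -- step 1
  have h1 := form_cs_local64 S c f0 (Fin.snoc (α := fun _ => ZMod N → ℂ) f (bphase X r cc φ)) Y hY
  have h2 : ∀ y < Y, ∀ y' < Y,
      ‖form S c 1 (fun x => f0 (x + (y : ZMod N)) * conj (f0 (x + (y' : ZMod N))))
        (fun i x => (Fin.snoc (α := fun _ => ZMod N → ℂ) f (bphase X r cc φ) i) (x + (y : ZMod N)) *
          conj ((Fin.snoc (α := fun _ => ZMod N → ℂ) f (bphase X r cc φ) i)
            (x + (y' : ZMod N))))‖ ≤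
      (δ6 + nrm (A L (Gf64 X r cc φ y y')) / δT) + 4 * Y / X := by
    intro y hy y' hy'
    have e1 : (fun (i : Fin (m + 1)) (x : ZMod N) =>
        (Fin.snoc (α := fun _ => ZMod N → ℂ) f (bphase X r cc φ) i) (x + (y : ZMod N)) *
          conj ((Fin.snoc (α := fun _ => ZMod N → ℂ) f (bphase X r cc φ) i)
            (x + (y' : ZMod N)))) =
        Fin.snoc (α := fun _ => ZMod N → ℂ)
          (fun i x => f i (x + (y : ZMod N)) * conj (f i (x + (y' : ZMod N))))
          (fun x => bphase X r cc φ (x + (y : ZMod N)) *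
            conj (bphase X r cc φ (x + (y' : ZMod N)))) := by
      funext i
      refine Fin.lastCases ?_ (fun i => ?_) i
      · rw [Fin.snoc_last, Fin.snoc_last]
      · rw [Fin.snoc_castSucc, Fin.snoc_castSucc]
    rw [e1]
    have hb0 : ∀ x, ‖f0 (x + (y : ZMod N)) * conj (f0 (x + (y' : ZMod N)))‖ ≤ 1 := fun x => by
      rw [norm_mul, Complex.norm_conj]
      exact mul_le_one₀ (hf0 _) (norm_nonneg _) (hf0 _)
    have hb : ∀ (i : Fin m) x, ‖f i (x + (y : ZMod N)) * conj (f i (x + (y' : ZMod N)))‖ ≤ 1 :=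
      fun i x => by
        rw [norm_mul, Complex.norm_conj]
        exact mul_le_one₀ (hf i _) (norm_nonneg _) (hf i _)
    refine (snoc_sub64 S c _ hb0 _ hb _ (Gf64 X r cc φ y y')).trans ?_
    refine add_le_add ?_ (nrm_diff64 hX hXN r hcc φ hy hy')
    by_cases hc : δ6 ≤ ‖form S c 1
        (fun x => f0 (x + (y : ZMod N)) * conj (f0 (x + (y' : ZMod N))))
        (Fin.snoc (α := fun _ => ZMod N → ℂ)
          (fun i x => f i (x + (y : ZMod N)) * conj (f i (x + (y' : ZMod N))))
          (Gf64 X r cc φ y y'))‖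
    · have h3 := hG y hy y' hy' hc
      have h4 : 1 ≤ nrm (A L (Gf64 X r cc φ y y')) / δT := by rwa [le_div_iff₀ hδT, one_mul]
      have h5 := norm_form_le_one S c 1 (fun _ => by simp) _ hb0 _
        (snoc_bdd64 hb (u := Gf64 X r cc φ y y') fun x => norm_gcoef64 hcc φ y y' _)
      (clear * - hδ6 h4 h5; linarith)
    · have h3 : 0 ≤ nrm (A L (Gf64 X r cc φ y y')) / δT := div_nonneg (nrm_nonneg _) hδT.le
      have := not_le.1 hc
      (clear * - hc h3; linarith)
  -- step 2
  have h3 : δ1 ^ 2 ≤ 𝔼 y ∈ range Y, 𝔼 y' ∈ range Y,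
      ((δ6 + nrm (A L (Gf64 X r cc φ y y')) / δT) + 4 * Y / X) := by
    refine (pow_le_pow_left₀ hδ1 h 2).trans (h1.trans ?_)
    exact expect_le_expect fun y hy => expect_le_expect fun y' hy' =>
      h2 y (mem_range.1 hy) y' (mem_range.1 hy')
  set M := 𝔼 y ∈ range Y, 𝔼 y' ∈ range Y, nrm (A L (Gf64 X r cc φ y y')) with hM
  exact by
    have h4 : 𝔼 y ∈ range Y, 𝔼 y' ∈ range Y,
        ((δ6 + nrm (A L (Gf64 X r cc φ y y')) / δT) + 4 * Y / X) = δ6 + M / δT + 4 * Y / X := by
      simp_rw [expect_add_distrib, expect_const hne, ← expect_div]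
      rfl
    rw [h4] at h3
    have h5 : δT * (δ1 ^ 2 - 4 * Y / X - δ6) ≤ M := by
      have h6 : δ1 ^ 2 - 4 * Y / X - δ6 ≤ M / δT := by (clear * - h3; linarith)
      rw [le_div_iff₀ hδT] at h6
      (clear * - h6; linarith)
    -- step 3
    have h6 : M ^ 2 ≤ 𝔼 y ∈ range Y, 𝔼 y' ∈ range Y, 𝔼 z : ZMod N,
        ‖A L (Gf64 X r cc φ y y') z‖ ^ 2 := by
      rw [hM]
      refine (sq_expect_le64 _ _).trans (expect_le_expect fun y _ => ?_)
      refine (sq_expect_le64 _ _).trans (expect_le_expect fun y' _ => ?_)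
      exact sq_expect_le64 _ _
    have h7 : 𝔼 y ∈ range Y, 𝔼 y' ∈ range Y, 𝔼 z : ZMod N, ‖A L (Gf64 X r cc φ y y') z‖ ^ 2 =
        𝔼 z : ZMod N, 𝔼 y ∈ range Y, 𝔼 y' ∈ range Y, ‖A L (Gf64 X r cc φ y y') z‖ ^ 2 := by
      rw [expect_comm (s := (univ : Finset (ZMod N))) (t := range Y)]
      exact expect_congr rfl fun y _ => expect_comm _ _ _
    have h8 : 𝔼 z : ZMod N, 𝔼 y ∈ range Y, 𝔼 y' ∈ range Y, ‖A L (Gf64 X r cc φ y y') z‖ ^ 2 ≤
        𝔼 z : ZMod N, 𝔼 w ∈ range L, 𝔼 w' ∈ range L,
          (ind64 X r cc φ w0 (z + (w : ZMod N)) (z + (w' : ZMod N)) + (1 / (2 * Y * w0)) ^ 2) :=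
      expect_le_expect fun z _ => expand64 r hcc φ hY L hw0 hφ z
    have h9 : 𝔼 z : ZMod N, 𝔼 w ∈ range L, 𝔼 w' ∈ range L,
          (ind64 X r cc φ w0 (z + (w : ZMod N)) (z + (w' : ZMod N)) + (1 / (2 * Y * w0)) ^ 2) ≤
        (𝔼 z : ZMod N, 𝔼 w ∈ range L, 𝔼 w' ∈ range L,
          ind64 X r cc φ w0 (z + (w : ZMod N)) (z + (w' : ZMod N))) + (1 / (2 * Y * w0)) ^ 2 := by
      simp_rw [expect_add_distrib]
      refine add_le_add le_rfl ?_
      refine expect_le_of5 _ _ (by (clear * - hY hw0; positivity)) fun z _ => ?_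
      refine expect_le_of5 _ _ (by positivity) fun w _ => ?_
      exact expect_le_of5 _ _ (by positivity) fun w' _ => le_rfl
    refine (pow_le_pow_left₀ (mul_nonneg hδT.le hpos) h5 2).trans (h6.trans ?_)
    rw [h7]
    exact h8.trans h9

end Form64

end

end Pool.Agent.Helper57.NX

end

section

set_option autoImplicit false

open Finset

open scoped BigOperators ComplexConjugate

namespace Pool.Agent.Helper57.NX

noncomputable section

section

variable {m N : ℕ} [NeZero N]

lemma form_add64 (S : Sys (m + 1)) (c : Fin (m + 1) → ℝ) (f0 : ZMod N → ℂ)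
    (f : Fin m → ZMod N → ℂ) (u v : ZMod N → ℂ) :
    form S c 1 f0 (Fin.snoc (α := fun _ => ZMod N → ℂ) f (fun x => u x + v x)) =
      form S c 1 f0 (Fin.snoc (α := fun _ => ZMod N → ℂ) f u) +
      form S c 1 f0 (Fin.snoc (α := fun _ => ZMod N → ℂ) f v) := by
  have h1 := form_update_add S c 1 f0 (Fin.snoc (α := fun _ => ZMod N → ℂ) f u) (Fin.last m) u v
  rwa [snoc_update64, snoc_update64, snoc_update64] at h1

lemma form_zero64 (S : Sys (m + 1)) (c : Fin (m + 1) → ℝ) (f0 : ZMod N → ℂ)
    (f : Fin m → ZMod N → ℂ) :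
    form S c 1 f0 (Fin.snoc (α := fun _ => ZMod N → ℂ) f (fun _ => 0)) = 0 := by
  have h := form_add64 S c f0 f (fun _ => 0) (fun _ => 0)
  simp only [add_zero] at h
  exact left_eq_add.1 h

lemma form_sum64 (S : Sys (m + 1)) (c : Fin (m + 1) → ℝ) (f0 : ZMod N → ℂ)
    (f : Fin m → ZMod N → ℂ) (n : ℕ) (u : ℕ → ZMod N → ℂ) :
    ‖form S c 1 f0 (Fin.snoc (α := fun _ => ZMod N → ℂ) f (fun x => ∑ s ∈ range n, u s x))‖ ≤
      ∑ s ∈ range n, ‖form S c 1 f0 (Fin.snoc (α := fun _ => ZMod N → ℂ) f (u s))‖ := by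
  induction n with
  | zero =>
    simp only [range_zero, sum_empty]
    rw [form_zero64, norm_zero]
  | succ n ih =>
    simp only [sum_range_succ]
    rw [form_add64]
    exact (norm_add_le _ _).trans (add_le_add ih le_rfl)

end

theorem lp_align (m : ℕ) (c : Fin (m + 1) → ℝ) (s ε : ℝ) (hs : 0 ≤ s) (hε : 0 < ε)
    (hT : TopP m c s ε) :
    ∃ x0 : ℝ, 0 < x0 ∧ ∃ C : ℕ, ∃ σ : ℝ, 0 < σ ∧ ∃ D0 : ℝ,
    ∀ (S : Sys (m + 1)) (N : ℕ) [NeZero N], D0 ≤ S.D → Good S c N x0 →
    ∀ δ : ℝ, S.D ^ (-σ) ≤ δ → δ ≤ 1 / 2 →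
    ∀ X : ℕ, S.Q ≤ X → S.Q * S.D ^ (s - σ) ≤ (X : ℝ) →
    ∀ q0 : ℕ, 1 ≤ q0 → (X : ℝ) * q0 ≤ S.P (Fin.last m) * S.D ^ (-ε) →
    ∀ (f0 : ZMod N → ℂ) (f : Fin m → ZMod N → ℂ),
    Adm δ⁻¹ S.Q f0 → (∀ i, Adm δ⁻¹ S.Q (f i)) →
    ∀ (r : ZMod N) (cc : ℕ → ℂ) (φ : ℕ → ℝ), (∀ j, ‖cc j‖ ≤ 1) → (∀ j, |φ j| ≤ δ⁻¹ / S.Q) →
    δ ≤ ‖form S c 1 f0 (Fin.snoc (α := fun _ => ZMod N → ℂ) f (bphase X r cc φ))‖ →
    ∃ (cc' : ℕ → ℂ) (θ : ℕ → ℝ), (∀ j, cc' j = cc j ∨ cc' j = 0) ∧
      (∀ j, cc' j ≠ 0 → |φ j - θ (j / q0)| ≤ δ⁻¹ ^ C / X) ∧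
      δ ^ C ≤ ‖form S c 1 f0 (Fin.snoc (α := fun _ => ZMod N → ℂ) f (bphase X r cc' φ))‖ := by
  obtain ⟨xT, hxT, CT, σT, hσT, DT, HT⟩ := hT
  refine ⟨min xT ε, lt_min hxT hε, 12 * CT + 20, min (σT / 6) (1 / 9),
    lt_min (by positivity) (by norm_num), max DT 4, ?_⟩
  intro S N _ hD hGood δ hδ1 hδ2 X hQX hX q0 hq hXq f0 f hf0 hf r cc φ hcc hφ hform
  set σ := min (σT / 6) (1 / 9) with hσ
  have hσ0 : 0 < σ := lt_min (by positivity) (by norm_num)
  have hσa : 6 * σ ≤ σT := by have := min_le_left (σT / 6) (1 / 9 : ℝ); rw [← hσ] at this; (clear * - this; linarith)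
  have hσb : 9 * σ ≤ 1 := by have := min_le_right (σT / 6) (1 / 9 : ℝ); rw [← hσ] at this; (clear * - this; linarith)
  have hD4 : 4 ≤ S.D := (le_max_right _ _).trans hD
  have hDT : DT ≤ S.D := (le_max_left _ _).trans hD
  exact by
    have hD0 : 0 < S.D := by (clear * - hσ0 hσb hD4; linarith)
    have hD1 : 1 ≤ S.D := by (clear * - hσ0 hσb hD4; linarith)
    have hδ0 : 0 < δ := (Real.rpow_pos_of_pos hD0 _).trans_le hδ1
    have hδi : 2 ≤ δ⁻¹ := by
      rw [le_inv_comm₀ (by norm_num) hδ0]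
      (clear * - hδ2; linarith)
    have hδi0 : 0 < δ⁻¹ := by positivity
    -- powers of δ
    have hpow : ∀ (n : ℕ), S.D ^ (-(n * σ)) ≤ δ ^ n := by
      intro n
      have h := pow_le_pow_left₀ (Real.rpow_nonneg hD0.le _) hδ1 n
      rw [← Real.rpow_natCast (S.D ^ (-σ)) n, ← Real.rpow_mul hD0.le] at h
      refine le_trans (le_of_eq ?_) h
      congr 1
      ring
    exact by
      have hQ : (S.D : ℝ) ^ (2 : ℝ) ≤ S.Q := hGood.Q1
      have hQ0 : (0 : ℝ) < S.Q := (Real.rpow_pos_of_pos hD0 _).trans_le hQ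
      have hQX' : (S.Q : ℝ) ≤ X := by exact_mod_cast hQX
      have hX0 : (0 : ℝ) < X := hQ0.trans_le hQX'
      have hX1 : 1 ≤ X := by exact_mod_cast hX0
      -- sizes
      have hL : ((X * q0 : ℕ) : ℝ) ≤ S.P (Fin.last m) * S.D ^ (-ε) := by push_cast; exact hXq
      exact by
        have hLN : X * q0 ≤ N := by
          have h1 := hGood.N1 (Fin.last m)
          have h2 : S.P (Fin.last m) * S.D ^ (-ε) ≤ N * S.D ^ (min xT ε) * S.D ^ (-ε) :=
            mul_le_mul_of_nonneg_right h1 (Real.rpow_nonneg hD0.le _)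
          have h3 : (N : ℝ) * S.D ^ (min xT ε) * S.D ^ (-ε) ≤ N := by
            rw [mul_assoc, ← Real.rpow_add hD0]
            have h4 : S.D ^ (min xT ε + -ε) ≤ 1 :=
              Real.rpow_le_one_of_one_le_of_nonpos hD1 (by have := min_le_right xT ε; (clear * - this; linarith))
            exact mul_le_of_le_one_right (Nat.cast_nonneg _) h4
          exact_mod_cast hL.trans (h2.trans h3)
        have hL1 : 1 ≤ X * q0 := Nat.mul_pos hX1 hq
        have hXN : X ≤ N := (Nat.le_mul_of_pos_right X hq).trans hLN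
        -- Y
        have h9 : 4 ≤ δ ^ 9 * X := by
          have h1 := hpow 9
          have h2 : S.D ^ (-(1 : ℝ)) ≤ S.D ^ (-(((9 : ℕ) : ℝ) * σ)) :=
            Real.rpow_le_rpow_of_exponent_le hD1 (by push_cast; (clear * - hσb; linarith))
          have h3 : S.D ^ (-(1 : ℝ)) * S.D ^ (2 : ℝ) = S.D := by
            rw [← Real.rpow_add hD0]
            norm_num
          calc (4 : ℝ) ≤ S.D := hD4
            _ = S.D ^ (-(1 : ℝ)) * S.D ^ (2 : ℝ) := h3.symm
            _ ≤ δ ^ 9 * X := mul_le_mul (h2.trans h1) (hQ.trans hQX') (Real.rpow_nonneg hD0.le _)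
                (by positivity)
        set Y := ⌊δ ^ 9 * X⌋₊ with hYdef
        have hYle : (Y : ℝ) ≤ δ ^ 9 * X := Nat.floor_le (by positivity)
        exact by
          have hYge : δ ^ 9 * X - 1 ≤ Y := by
            have := Nat.lt_floor_add_one (δ ^ 9 * X)
            rw [← hYdef] at this
            (clear * - this; linarith)
          have hY1 : 1 ≤ Y := by
            rw [hYdef, Nat.one_le_floor_iff]
            (clear * - hσ0 hσb h9; linarith)
          have hY10 : δ ^ 10 * X ≤ Y := by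
            have h1 : δ ^ 10 * X = δ * (δ ^ 9 * X) := by ring
            have h2 : δ * (δ ^ 9 * X) ≤ 1 / 2 * (δ ^ 9 * X) :=
              mul_le_mul_of_nonneg_right hδ2 (by (clear * - hδ0 hX1; positivity))
            (clear * - hσ0 hσb h9 hYge h2; linarith)
          have hY0 : (0 : ℝ) < Y := by exact_mod_cast hY1
          -- w0, η
          set w0 : ℝ := δ⁻¹ ^ (6 * CT + 16) / X with hw0def
          have hw0 : 0 < w0 := by positivity
          exact by
            set η : ℝ := δ ^ (12 * CT + 17) with hηdef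
            have hη : 0 < η := by positivity
            have hφd : ∀ j j', |φ j - φ j'| ≤ 1 / 2 := by
              intro j j'
              have h1 : |φ j - φ j'| ≤ δ⁻¹ / S.Q + δ⁻¹ / S.Q :=
                (abs_sub _ _).trans (add_le_add (hφ j) (hφ j'))
              have h2 : δ⁻¹ ≤ S.D := by
                rw [inv_le_comm₀ hδ0 hD0]
                refine le_trans ?_ hδ1
                rw [← Real.rpow_neg_one]
                exact Real.rpow_le_rpow_of_exponent_le hD1 (by (clear * - hσ0 hσb; linarith))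
              have h3 : δ⁻¹ / S.Q ≤ 1 / 4 := by
                rw [div_le_iff₀ hQ0]
                rw [Real.rpow_two] at hQ
                have h4 : 4 * S.D ≤ S.D ^ 2 := by
                  rw [sq]
                  exact mul_le_mul_of_nonneg_right hD4 hD0.le
                (clear * - hQ h2 h4; linarith)
              (clear * - h1 h3; linarith)
            have hf0b : ∀ x, ‖f0 x‖ ≤ 1 := hf0.bdd
            have hfb : ∀ i x, ‖f i x‖ ≤ 1 := fun i => (hf i).bdd
            have hδ6i : 64 ≤ (δ ^ 6)⁻¹ := by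
              rw [← inv_pow]
              calc (64 : ℝ) = 2 ^ 6 := by norm_num
                _ ≤ δ⁻¹ ^ 6 := pow_le_pow_left₀ (by norm_num) hδi 6
            exact by
              have hδ6i' : δ⁻¹ + δ⁻¹ ≤ (δ ^ 6)⁻¹ := by
                rw [← inv_pow]
                have h1 : δ⁻¹ ^ 2 ≤ δ⁻¹ ^ 6 := pow_le_pow_right₀ (by (clear * - hσ0 hσb hδi; linarith)) (by norm_num)
                have h2 : 2 * δ⁻¹ ≤ δ⁻¹ ^ 2 := by
                  rw [sq]
                  exact mul_le_mul_of_nonneg_right hδi hδi0.le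
                (clear * - h1 h2; linarith)
              have hGb : ∀ y y' : ℕ, ∀ cc' : ℕ → ℂ, (∀ j, ‖cc' j‖ ≤ 1) →
                  Adm (δ ^ 6)⁻¹ X (Gf64 X r cc' φ y y') := by
                intro y y' cc' hcc'
                have h1 : Adm 4 (X : ℝ) (Gf64 X r cc' φ y y') :=
                  ⟨fun z => norm_gcoef64 hcc' φ y y' _,
                    tv_block64 hX1 hXN r (gcoef64 cc' φ y y') fun j => norm_gcoef64 hcc' φ y y' j⟩
                exact h1.mono (by (clear * - hσ0 hσb hδ6i; linarith)) hX0 le_rfl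
              -- the unpopular part
              have hrest : ‖form S c 1 f0 (Fin.snoc (α := fun _ => ZMod N → ℂ) f
                  (bphase X r (ccr64 cc φ w0 η q0) φ))‖ < δ / 2 := by
                by_contra hcon
                rw [not_lt] at hcon
                have hccr : ∀ j, ‖ccr64 cc φ w0 η q0 j‖ ≤ 1 := norm_ccr64 cc φ w0 η q0 hcc
                have hpos : δ ^ 5 ≤ (δ / 2) ^ 2 - 4 * Y / X - δ ^ 6 := by
                  have h1 : 4 * (Y : ℝ) / X ≤ 4 * δ ^ 9 := by
                    rw [div_le_iff₀ hX0]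
                    (clear * - hYle; linarith)
                  have h2 : δ ^ 9 ≤ δ ^ 2 * (1 / 2) ^ 7 := by
                    have h3 : δ ^ 9 = δ ^ 2 * δ ^ 7 := by ring
                    rw [h3]
                    exact mul_le_mul_of_nonneg_left (pow_le_pow_left₀ hδ0.le hδ2 7) (by positivity)
                  have h3 : δ ^ 6 ≤ δ ^ 2 * (1 / 2) ^ 4 := by
                    have h3 : δ ^ 6 = δ ^ 2 * δ ^ 4 := by ring
                    rw [h3]
                    exact mul_le_mul_of_nonneg_left (pow_le_pow_left₀ hδ0.le hδ2 4) (by positivity)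
                  have h4 : δ ^ 5 ≤ δ ^ 2 * (1 / 2) ^ 3 := by
                    have h3 : δ ^ 5 = δ ^ 2 * δ ^ 3 := by ring
                    rw [h3]
                    exact mul_le_mul_of_nonneg_left (pow_le_pow_left₀ hδ0.le hδ2 3) (by positivity)
                  have h5 : 0 < δ ^ 2 := by positivity
                  have h6 : (δ / 2) ^ 2 = δ ^ 2 / 4 := by ring
                  rw [h6]
                  norm_num at h2 h3 h4
                  (clear * - h1 h5 h2 h3 h4; linarith)
                have hkey := key64 S c f0 hf0b f hfb hX1 hXN r hccr hφd hY1 (X * q0) hw0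
                  (δ1 := δ / 2) (δ6 := δ ^ 6) (δT := (δ ^ 6) ^ CT) (by positivity) (by positivity)
                  (by positivity) ((by positivity : (0 : ℝ) ≤ δ ^ 5).trans hpos) (by
                    intro y _ y' _ hyy
                    have h1 := HT S N hDT (hGood.mono64 hD1 (min_le_left _ _)) (δ ^ 6) (by
                      refine le_trans ?_ (hpow 6)
                      exact Real.rpow_le_rpow_of_exponent_le hD1 (by push_cast; (clear * - hσa; linarith))) (by
                      refine (pow_le_pow_left₀ hδ0.le hδ2 6).trans (by norm_num)) X hQX' (by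
                      refine le_trans ?_ hX
                      refine mul_le_mul_of_nonneg_left ?_ hQ0.le
                      exact Real.rpow_le_rpow_of_exponent_le hD1 (by (clear * - hσ0 hσa; linarith)))
                      _ _ (((hf0.shift (y : ZMod N)).mul (hf0.shift (y' : ZMod N)).cnj).mono hδ6i' hQ0 le_rfl)
                      (by
                        intro i
                        refine Fin.lastCases ?_ (fun i => ?_) i
                        · rw [Fin.snoc_last]
                          exact (hGb y y' _ hccr).mono le_rfl hQ0 hQX'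
                        · rw [Fin.snoc_castSucc]
                          exact (((hf i).shift (y : ZMod N)).mul ((hf i).shift (y' : ZMod N)).cnj).mono
                            hδ6i' hQ0 le_rfl)
                      (by rw [Fin.snoc_last]; exact hGb y y' _ hccr) hyy (X * q0) hL1 hL
                    rwa [Fin.snoc_last] at h1) hcon
                have hr := rest64 cc φ w0 η q0 hX1 hq hη.le hw0 rfl hLN r
                have h1 : δ ^ (12 * CT + 10) ≤ ((δ ^ 6) ^ CT * ((δ / 2) ^ 2 - 4 * Y / X - δ ^ 6)) ^ 2 := by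
                  have h2 : δ ^ (12 * CT + 10) = ((δ ^ 6) ^ CT * δ ^ 5) ^ 2 := by
                    rw [← pow_mul, ← pow_add, ← pow_mul]
                    congr 1
                    ring
                  rw [h2]
                  exact pow_le_pow_left₀ (by positivity) (mul_le_mul_of_nonneg_left hpos (by positivity)) 2
                have h2 : (1 / (2 * Y * w0)) ^ 2 ≤ δ ^ (12 * CT + 10) / 16 := by
                  have h3 : 2 * δ⁻¹ ^ (6 * CT + 6) ≤ 2 * Y * w0 := by
                    have h4 : δ ^ 10 * X * w0 = δ⁻¹ ^ (6 * CT + 6) := by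
                      rw [hw0def]
                      have h5 : δ⁻¹ ^ (6 * CT + 16) = δ⁻¹ ^ (6 * CT + 6) * δ⁻¹ ^ 10 := by
                        rw [← pow_add]
                      rw [h5]
                      (clear * - hδ0 hX1; field_simp)
                    have h6 := mul_le_mul_of_nonneg_right hY10 hw0.le
                    rw [h4] at h6
                    (clear * - h6; linarith)
                  have h4 : 1 / (2 * Y * w0) ≤ δ ^ (6 * CT + 6) / 2 := by
                    rw [div_le_div_iff₀ (by positivity) (by norm_num)]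
                    have h5 : δ ^ (6 * CT + 6) * δ⁻¹ ^ (6 * CT + 6) = 1 := by
                      rw [← mul_pow, mul_inv_cancel₀ hδ0.ne', one_pow]
                    have h6 := mul_le_mul_of_nonneg_left h3 (by positivity : (0 : ℝ) ≤ δ ^ (6 * CT + 6))
                    (clear * - h5 h6; linarith)
                  have h5 := pow_le_pow_left₀ (by (clear * - hY1 hδ0 hX1; positivity)) h4 2
                  have h6 : (δ ^ (6 * CT + 6) / 2) ^ 2 = δ ^ 2 * δ ^ (12 * CT + 10) / 4 := by
                    rw [div_pow, ← pow_mul, ← pow_add]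
                    congr 1
                    · congr 1
                      ring
                    · norm_num
                  rw [h6] at h5
                  have h7 : δ ^ 2 ≤ 1 / 4 := (pow_le_pow_left₀ hδ0.le hδ2 2).trans (by norm_num)
                  have h8 : 0 < δ ^ (12 * CT + 10) := by positivity
                  have h9 := mul_le_mul_of_nonneg_right h7 h8.le
                  (clear * - h5 h9; linarith)
                have h3 : 9 * η ≤ 9 / 128 * δ ^ (12 * CT + 10) := by
                  have h4 : η = δ ^ 7 * δ ^ (12 * CT + 10) := by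
                    rw [hηdef, ← pow_add]
                    congr 1
                    ring
                  have h5 : δ ^ 7 ≤ 1 / 128 := (pow_le_pow_left₀ hδ0.le hδ2 7).trans (by norm_num)
                  have h8 : 0 < δ ^ (12 * CT + 10) := by positivity
                  rw [h4]
                  have h9 := mul_le_mul_of_nonneg_right h5 h8.le
                  (clear * - hη hkey hr h1 h2 h4 h9; linarith)
                have h8 : 0 < δ ^ (12 * CT + 10) := by positivity
                (clear * - hη hkey hr h1 h2 h3; linarith)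
              -- the popular part
              have hsplit : ∀ x, bphase X r cc φ x =
                  bphase X r (ccp64 cc φ w0 η q0) φ x + bphase X r (ccr64 cc φ w0 η q0) φ x := by
                intro x
                unfold bphase
                rw [← add_mul, ccp_add_ccr64]
              have hpop : δ / 2 ≤ ‖form S c 1 f0 (Fin.snoc (α := fun _ => ZMod N → ℂ) f
                  (bphase X r (ccp64 cc φ w0 η q0) φ))‖ := by
                have h1 : bphase X r cc φ = fun x =>
                  bphase X r (ccp64 cc φ w0 η q0) φ x + bphase X r (ccr64 cc φ w0 η q0) φ x := funext hsplit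
                rw [h1, form_add64] at hform
                have h2 := hform.trans (norm_add_le _ _)
                (clear * - hrest h2; linarith)
              have hsum : bphase X r (ccp64 cc φ w0 η q0) φ = fun x =>
                  ∑ s ∈ range ⌈1 / η⌉₊, bphase X r (ccs64 cc φ w0 η q0 s) φ x := by
                funext x
                unfold bphase
                rw [sum_ccs64 cc φ w0 η q0 hq hη, sum_mul]
              exact by
                rw [hsum] at hpop
                have hpop2 := hpop.trans (form_sum64 S c f0 f ⌈1 / η⌉₊ fun s =>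
                  bphase X r (ccs64 cc φ w0 η q0 s) φ)
                have hη1 : η ≤ 1 := pow_le_one₀ hδ0.le (by (clear * - hδ2 hσ0 hσb; linarith))
                have hceil : ((⌈1 / η⌉₊ : ℕ) : ℝ) ≤ 2 / η := by
                  have h1 := Nat.ceil_lt_add_one (by positivity : 0 ≤ 1 / η)
                  have h2 : 1 ≤ 1 / η := by rw [le_div_iff₀ hη]; (clear * - hη1; linarith)
                  have h3 : 2 / η = 1 / η + 1 / η := by ring
                  (clear * - h1 h2 h3; linarith)
                obtain ⟨s', hs', hbig⟩ : ∃ s' ∈ range ⌈1 / η⌉₊, δ * η / 4 ≤ ‖form S c 1 f0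
                    (Fin.snoc (α := fun _ => ZMod N → ℂ) f (bphase X r (ccs64 cc φ w0 η q0 s') φ))‖ := by
                  by_contra hcon
                  push Not at hcon
                  have h0 : (range ⌈1 / η⌉₊).Nonempty := by
                    rw [nonempty_range_iff]
                    intro h0
                    rw [h0] at hpop2
                    simp only [range_zero, sum_empty] at hpop2
                    (clear * - hδ0 hpop2; linarith)
                  have h1 := sum_lt_sum_of_nonempty h0 hcon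
                  rw [sum_const, card_range, nsmul_eq_mul] at h1
                  have h2 : (⌈1 / η⌉₊ : ℝ) * (δ * η / 4) ≤ 2 / η * (δ * η / 4) :=
                    mul_le_mul_of_nonneg_right hceil (by (clear * - hδ0; positivity))
                  have h3 : 2 / η * (δ * η / 4) = δ / 2 := by field_simp; ring
                  (clear * - hpop2 h1 h2 h3; linarith)
                refine ⟨ccs64 cc φ w0 η q0 s', th64 cc φ w0 η q0 s', ccs_cases64 cc φ w0 η q0 s', ?_, ?_⟩
                · intro j hj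
                  exact by
                    refine (th_close64 cc φ w0 η q0 hq hw0 hj).trans ?_
                    rw [hw0def]
                    refine div_le_div_of_nonneg_right ?_ hX0.le
                    exact pow_le_pow_right₀ (by (clear * - hσ0 hσb hδi; linarith)) (by (clear * - S N δ X q0; omega))
                · refine le_trans ?_ hbig
                  exact by
                    have h1 : δ ^ (12 * CT + 20) = δ ^ 2 * (δ * η) := by
                      rw [hηdef, ← pow_succ', ← pow_add]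
                      congr 1
                      ring
                    have h2 : δ ^ 2 ≤ 1 / 4 := (pow_le_pow_left₀ hδ0.le hδ2 2).trans (by norm_num)
                    have h3 : 0 < δ * η := by positivity
                    rw [h1]
                    have h9 := mul_le_mul_of_nonneg_right h2 h3.le
                    (clear * - h9; linarith)

end

end Pool.Agent.Helper57.NX

end

section

set_option autoImplicit false

open Finset

open scoped BigOperators ComplexConjugate

namespace Pool.Agent.Helper57.NX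

noncomputable section

section Conv

variable {N : ℕ} [NeZero N]

/-- `T g = A_Y (g - A_{L'} g)` correlates with `F`; then there is `u` with the properties needed
in the top step -/
theorem core67 (g F : ZMod N → ℂ) (hg : ∀ x, ‖g x‖ ≤ 1) (hF : ∀ x, ‖F x‖ ≤ 1) (L' Y : ℕ)
    (hL' : 1 ≤ L') (hY : 1 ≤ Y) (η : ℝ) (hη : 0 ≤ η)
    (h : η ≤ ‖𝔼 x, A Y (fun y => g y - A L' g y) x * F x‖) :
    ∃ u κ : ZMod N → ℂ, (∀ x, ‖u x‖ ≤ 1) ∧ TV 2 Y u ∧ ∑ y, ‖κ y‖ ≤ 1 ∧
      (∀ x, u x = ∑ y, κ y * conj (F (x + y))) ∧ η ^ 2 / 4 ≤ ‖𝔼 x, u x * F x‖ ∧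
      ∀ L : ℕ, 1 ≤ L → ∀ x, ‖A L u x‖ ≤ L' / L := by
  classical
  set F1 : ZMod N → ℂ := Ab Y F with hF1
  set H : ZMod N → ℂ := fun x => F1 x - Ab L' F1 x with hH
  have hF1b : ∀ x, ‖F1 x‖ ≤ 1 := norm_Ab_le hF Y
  have hHb : ∀ x, ‖H x‖ ≤ 2 := fun x => by
    have h1 := norm_sub_le (F1 x) (Ab L' F1 x)
    have h2 := hF1b x
    have h3 := norm_Ab_le hF1b L' x
    rw [hH]
    linarith
  -- adjointness of `g ↦ g - A g`
  have hadj : ∀ p q : ZMod N → ℂ, 𝔼 x, A Y (fun y => p y - A L' p y) x * q x =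
      𝔼 x, p x * (Ab Y q x - Ab L' (Ab Y q) x) := by
    intro p q
    rw [adj_A]
    have h1 : ∀ x, (p x - A L' p x) * Ab Y q x = p x * Ab Y q x - A L' p x * Ab Y q x :=
      fun x => by ring
    have h2 : ∀ x, p x * (Ab Y q x - Ab L' (Ab Y q) x) =
      p x * Ab Y q x - p x * Ab L' (Ab Y q) x := fun x => by ring
    simp_rw [h1, h2]
    rw [expect_sub_distrib, expect_sub_distrib, adj_A]
  -- the second moment of `H`
  have hE : η ^ 2 ≤ 𝔼 x, ‖H x‖ ^ 2 := by
    have h1 : η ≤ 𝔼 x, ‖H x‖ := by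
      refine h.trans ?_
      rw [hadj g F]
      refine (norm_expect_le5 _ _).trans (expect_le_expect fun x _ => ?_)
      rw [norm_mul]
      calc ‖g x‖ * ‖Ab Y F x - Ab L' (Ab Y F) x‖ ≤ 1 * ‖H x‖ :=
            mul_le_mul_of_nonneg_right (hg x) (norm_nonneg _)
        _ = ‖H x‖ := one_mul _
    have h2 : η ^ 2 ≤ (𝔼 x, ‖H x‖) ^ 2 := pow_le_pow_left₀ hη h1 2
    exact h2.trans (sq_expect_le67 _)
  -- `v = conj H / 2` is bounded by `1`
  exact by
    set v : ZMod N → ℂ := fun x => (1 / 2 : ℂ) * conj (H x) with hv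
    have hvb : ∀ x, ‖v x‖ ≤ 1 := fun x => by
      rw [hv]
      simp only [norm_mul, RCLike.norm_conj]
      have := hHb x
      have h2 : ‖(1 / 2 : ℂ)‖ = 1 / 2 := by norm_num
      rw [h2]
      linarith
    set w : ZMod N → ℂ := fun x => v x - A L' v x with hw
    have hwb : ∀ x, ‖w x‖ ≤ 2 := fun x => by
      have h1 := norm_sub_le (v x) (A L' v x)
      have h2 := hvb x
      have h3 := norm_A_le hvb L' x
      rw [hw]
      linarith
    set u : ZMod N → ℂ := fun x => (1 / 2 : ℂ) * A Y w x with hu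
    have hhalf : ‖(1 / 2 : ℂ)‖ = 1 / 2 := by norm_num
    exact by
      obtain ⟨κ, hκ1, hκ2⟩ : Cv67 1 (fun (f : ZMod N → ℂ) x => (1 / 2 : ℂ) * A Y (fun y =>
          ((1 / 2 : ℂ) * (Ab Y f y - Ab L' (Ab Y f) y)) -
            A L' (fun z => (1 / 2 : ℂ) * (Ab Y f z - Ab L' (Ab Y f) z)) y) x) := by
        have c1 : Cv67 2 (fun (f : ZMod N → ℂ) x => Ab Y f x - Ab L' (Ab Y f) x) := by
          have := (cv_Ab67 (N := N) Y).sub ((cv_Ab67 (N := N) L').comp (cv_Ab67 Y) zero_le_one)
          norm_num at this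
          exact this
        have c2 : Cv67 1 (fun (f : ZMod N → ℂ) x => (1 / 2 : ℂ) * (Ab Y f x - Ab L' (Ab Y f) x)) := by
          have := c1.smul (1 / 2 : ℂ)
          rw [hhalf] at this
          norm_num at this ⊢
          exact this
        have c3 := c2.sub ((cv_A67 (N := N) L').comp c2 zero_le_one)
        have c4 := ((cv_A67 (N := N) Y).comp c3 (by norm_num)).smul (1 / 2 : ℂ)
        rw [hhalf] at c4
        norm_num at c4 ⊢
        exact c4
      refine ⟨u, κ, fun x => ?_, ?_, hκ1, fun x => ?_, ?_, fun L hL x => ?_⟩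
      · have h1 := norm_A_le_of5 (by norm_num : (0 : ℝ) ≤ 2) hwb Y x
        rw [hu]
        simp only [norm_mul, hhalf]
        linarith
      · have h1 := (tv_A hwb Y hY).smul (1 / 2 : ℂ)
        rw [hhalf] at h1
        norm_num at h1 ⊢
        rw [hu]
        norm_num
        exact h1
      · rw [← hκ2 (fun z => conj (F z)) x]
        rw [hu, hw, hv]
        have e1 : ∀ y, conj (H y) = Ab Y (fun z => conj (F z)) y -
            Ab L' (Ab Y (fun z => conj (F z))) y := by
          intro y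
          have e2 : (Ab Y (fun z => conj (F z))) = fun z => conj (F1 z) := by
            funext z
            rw [Ab_conj]
          rw [e2, Ab_conj, hH]
          simp only [map_sub]
        simp only [e1]
      · have e1 : 𝔼 x, u x * F x = (1 / 4 : ℂ) * ((𝔼 x, ‖H x‖ ^ 2 : ℝ) : ℂ) := by
          have e2 : ∀ x, u x * F x = (1 / 2 : ℂ) * (A Y w x * F x) := fun x => by rw [hu]; ring
          simp_rw [e2]
          rw [← mul_expect, hw, hadj v F]
          have e3 : ∀ x, v x * (Ab Y F x - Ab L' (Ab Y F) x) =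
              (1 / 2 : ℂ) * ((‖H x‖ ^ 2 : ℝ) : ℂ) := by
            intro x
            have e4 : v x * H x = (1 / 2 : ℂ) * (conj (H x) * H x) := by rw [hv]; ring
            rw [← Complex.normSq_eq_norm_sq, Complex.normSq_eq_conj_mul_self]
            exact e4
          simp_rw [e3]
          rw [← mul_expect]
          have e5 : (((𝔼 x, ‖H x‖ ^ 2 : ℝ)) : ℂ) = 𝔼 x, ((‖H x‖ ^ 2 : ℝ) : ℂ) := by
            rw [Finset.expect_eq_sum_div_card, Finset.expect_eq_sum_div_card]
            push_cast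
            rfl
          rw [e5, ← mul_assoc]
          norm_num
        exact by
          rw [e1, norm_mul, Complex.norm_real, Real.norm_of_nonneg
            (expect_nonneg fun _ _ => by positivity)]
          have e6 : ‖(1 / 4 : ℂ)‖ = 1 / 4 := by norm_num
          rw [e6]
          linarith
      · have e1 : A L u x = (1 / 2 : ℂ) * A Y (A L w) x := by
          rw [hu, A_smul, A_comm]
        have e2 : ∀ y, ‖A L w y‖ ≤ 2 * L' / L := fun y => A_small hvb L L' hL hL' y
        have hnn : (0 : ℝ) ≤ 2 * L' / L := by positivity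
        have e3 := norm_A_le_of5 hnn e2 Y x
        rw [e1, norm_mul, hhalf]
        have e4 : (1 / 2 : ℝ) * (2 * L' / L) = L' / L := by ring
        linarith

end Conv

end

end Pool.Agent.Helper57.NX

end

section

set_option autoImplicit false

open Finset

open scoped BigOperators ComplexConjugate

namespace Pool.Agent.Helper57.NX

noncomputable section

theorem base_of28 (m : ℕ) (c : Fin (m + 1) → ℝ) (hc : StrictMono c) (hc0 : ∀ i, 0 < c i)
    (h1 : ∀ s, 0 < s → s < c (Fin.last m) → (∀ i : Fin m, c i.castSucc < s) →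
      ∀ ε : ℝ, 0 < ε → BCells m c s ε)
    (h2 : ∀ ε2 : ℝ, 0 < ε2 → ∃ ε1 : ℝ, 0 < ε1 ∧ ∀ ε : ℝ, 0 < ε → ε ≤ ε1 → BClass m c ε2 ε)
    (h3 : ∃ εb : ℝ, 0 < εb ∧ ∀ ε : ℝ, 0 < ε → ε ≤ εb → BLarge m c (c (Fin.last m) + 3) εb ε)
    (h4 : ∀ (n : ℕ) (ε2 : ℝ), 0 < ε2 → ε2 ≤ 1 / 16 → ∀ ε : ℝ, 0 < ε → ε ≤ ε2 →
      BSmall m c n ε2 ε) :
    ∃ sb : ℝ, 0 < sb ∧ sb < c (Fin.last m) ∧ ∀ ε : ℝ, 0 < ε → TopP m c sb ε := by
  classical
  obtain ⟨εb, hεb, hL⟩ := h3
  have hcm := hc0 (Fin.last m)
  obtain ⟨e1, he1, hgap⟩ : ∃ e1 : ℝ, 0 < e1 ∧ ∀ i : Fin m, c i.castSucc + e1 < c (Fin.last m) := by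
    rcases Nat.eq_zero_or_pos m with rfl | hm
    · exact ⟨1, one_pos, fun i => i.elim0⟩
    · obtain ⟨m', rfl⟩ := Nat.exists_eq_succ_of_ne_zero hm.ne'
      have h5 : c (Fin.last m').castSucc < c (Fin.last (m' + 1)) :=
        hc (Fin.castSucc_lt_last _)
      refine ⟨(c (Fin.last (m' + 1)) - c (Fin.last m').castSucc) / 2, by (clear * - h5; linarith), fun i => ?_⟩
      have h6 : c i.castSucc ≤ c (Fin.last m').castSucc :=
        hc.monotone (Fin.castSucc_le_castSucc_iff.2 (Fin.le_last i))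
      change c i.castSucc + (c (Fin.last (m' + 1)) - c (Fin.last m').castSucc) / 2 <
        c (Fin.last (m' + 1))
      (clear * - h5 h6; linarith)
  obtain ⟨e0, he0, he0b, he08, he0c, he01⟩ : ∃ e0 : ℝ, 0 < e0 ∧ e0 ≤ εb ∧ e0 ≤ 1 / 8 ∧
      e0 ≤ c (Fin.last m) / 2 ∧ e0 ≤ e1 :=
    ⟨min (min εb (1 / 8)) (min (c (Fin.last m) / 2) e1), by positivity,
      (min_le_left _ _).trans (min_le_left _ _), (min_le_left _ _).trans (min_le_right _ _),
      (min_le_right _ _).trans (min_le_left _ _), (min_le_right _ _).trans (min_le_right _ _)⟩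
  refine ⟨c (Fin.last m) - e0, by linarith, by (clear * - he0; linarith), ?_⟩
  intro ε hε
  obtain ⟨ε2, hε2, hε2a, hε2b⟩ : ∃ ε2 : ℝ, 0 < ε2 ∧ ε2 ≤ ε / 8 ∧ ε2 ≤ 1 / 16 :=
    ⟨min (ε / 8) (1 / 16), by positivity, min_le_left _ _, min_le_right _ _⟩
  obtain ⟨ε1, hε1, hC⟩ := h2 ε2 hε2
  obtain ⟨εK, hεK, hεK1, hεK2, hεKb⟩ : ∃ εK : ℝ, 0 < εK ∧ εK ≤ ε1 ∧ εK ≤ ε2 ∧ εK ≤ εb :=
    ⟨min ε1 (min ε2 εb), by positivity, min_le_left _ _,
      (min_le_right _ _).trans (min_le_left _ _), (min_le_right _ _).trans (min_le_right _ _)⟩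
  obtain ⟨xc, hxc, Cc, σc, hσc, Dc, hcells⟩ := h1 (c (Fin.last m) - e0) (by (clear * - hcm he0c; linarith))
    (by (clear * - he0; linarith)) (fun i => by (clear * - he01 hgap; linarith [hgap i])) εK hεK
  obtain ⟨xl, hxl, σl, hσl, Dl, hlarge⟩ := hL εK hεK hεKb
  obtain ⟨xk, hxk, σk, hσk, Dk, hclass⟩ := hC εK hεK hεK1
  obtain ⟨xs, hxs, Cs, σs, hσs, Ds, hsmall⟩ := h4 (Cc + 1) ε2 hε2 hε2b εK hεK hεK2
  obtain ⟨J, hJ1, hJ2⟩ := exists_J28 hε2 hε2b
  obtain ⟨x0, hx0, hx0c, hx0l, hx0k, hx0s, hx01⟩ : ∃ x0 : ℝ, 0 < x0 ∧ x0 ≤ xc ∧ x0 ≤ xl ∧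
      x0 ≤ xk ∧ x0 ≤ xs ∧ x0 ≤ 1 :=
    ⟨min (min xc xl) (min (min xk xs) 1), by (clear * - hxc hxl hxk hxs; positivity),
      (min_le_left _ _).trans (min_le_left _ _), (min_le_left _ _).trans (min_le_right _ _),
      (min_le_right _ _).trans ((min_le_left _ _).trans (min_le_left _ _)),
      (min_le_right _ _).trans ((min_le_left _ _).trans (min_le_right _ _)),
      (min_le_right _ _).trans (min_le_right _ _)⟩
  obtain ⟨σ', hσ', hσ'l, hσ'k⟩ : ∃ σ' : ℝ, 0 < σ' ∧ σ' ≤ σl ∧ σ' ≤ σk :=
    ⟨min σl σk, by positivity, min_le_left _ _, min_le_right _ _⟩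
  obtain ⟨σ, hσ, hσ1, hσ2, hσ3, hσ4, hσ5, hσ6, hσ7, hσ8⟩ : ∃ σ : ℝ, 0 < σ ∧ σ ≤ σc ∧ σ ≤ σk ∧
      σ ≤ σl ∧ σ ≤ σs ∧ σ ≤ 1 / 8 ∧ σ ≤ εb ∧ σ * Cc ≤ σ' / 2 ∧ σ * Cc ≤ 1 := by
    have hCc : (0 : ℝ) < (Cc : ℝ) + 1 := by (clear * -; positivity)
    refine ⟨min (min (min σc σk) (min σl σs)) (min (min (1 / 8) εb)
      (min (σ' / 2 / (Cc + 1)) (1 / (Cc + 1)))), by (clear * - hσc hσk hσl hσs hεb hσ'; positivity), ?_, ?_, ?_, ?_, ?_, ?_, ?_, ?_⟩
    · exact (min_le_left _ _).trans ((min_le_left _ _).trans (min_le_left _ _))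
    · exact (min_le_left _ _).trans ((min_le_left _ _).trans (min_le_right _ _))
    · exact (min_le_left _ _).trans ((min_le_right _ _).trans (min_le_left _ _))
    · exact (min_le_left _ _).trans ((min_le_right _ _).trans (min_le_right _ _))
    · exact (min_le_right _ _).trans ((min_le_left _ _).trans (min_le_left _ _))
    · exact (min_le_right _ _).trans ((min_le_left _ _).trans (min_le_right _ _))
    · refine le_trans (mul_le_mul_of_nonneg_right ((min_le_right _ _).trans
        ((min_le_right _ _).trans (min_le_left _ _))) (Nat.cast_nonneg _)) ?_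
      rw [div_mul_eq_mul_div, div_le_iff₀ hCc]
      (clear * - hσ'; nlinarith)
    · refine le_trans (mul_le_mul_of_nonneg_right ((min_le_right _ _).trans
        ((min_le_right _ _).trans (min_le_right _ _))) (Nat.cast_nonneg _)) ?_
      rw [div_mul_eq_mul_div, div_le_iff₀ hCc]
      (clear * - hε2 hε2b; linarith)
  obtain ⟨D1, hD1⟩ : ∃ D1 : ℝ, ∀ D : ℝ, D1 ≤ D → ((J : ℝ) + 2) * D ^ (-(σ' / 2)) ≤ 1 / 2 := by
    have h5 := (tendsto_rpow_neg_atTop (show (0 : ℝ) < σ' / 2 by positivity)).const_mul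
      ((J : ℝ) + 2)
    rw [mul_zero] at h5
    have h6 := h5.eventually (eventually_le_nhds (show (0 : ℝ) < 1 / 2 by norm_num))
    obtain ⟨D1, h7⟩ := Filter.eventually_atTop.1 h6
    exact ⟨D1, h7⟩
  refine ⟨x0, hx0, Cs, σ, hσ, max (max (max Dc Dl) (max Dk Ds)) (max 2 D1), ?_⟩
  intro S N _ hSD hG δ hδ hδ2 X hX1 hX2 f0 f hf0 hf hfl hform L hL1 hL2
  have hDc : Dc ≤ S.D := le_trans ((le_max_left _ _).trans ((le_max_left _ _).trans
    (le_max_left _ _))) hSD
  have hDl : Dl ≤ S.D := le_trans ((le_max_right _ _).trans ((le_max_left _ _).trans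
    (le_max_left _ _))) hSD
  have hDk : Dk ≤ S.D := le_trans ((le_max_left _ _).trans ((le_max_right _ _).trans
    (le_max_left _ _))) hSD
  have hDs : Ds ≤ S.D := le_trans ((le_max_right _ _).trans ((le_max_right _ _).trans
    (le_max_left _ _))) hSD
  have hD2 : 2 ≤ S.D := le_trans ((le_max_left _ _).trans (le_max_right _ _)) hSD
  exact by
    have hDD : D1 ≤ S.D := le_trans ((le_max_right _ _).trans (le_max_right _ _)) hSD
    have hDone : 1 ≤ S.D := by (clear * - hε2 hε2b hD2; linarith)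
    have hDpos : 0 < S.D := by (clear * - hε2 hε2b hD2; linarith)
    have hδpos : 0 < δ := lt_of_lt_of_le (Real.rpow_pos_of_pos hDpos _) hδ
    have hmono : ∀ a b : ℝ, a ≤ b → S.D ^ a ≤ S.D ^ b := fun a b h =>
      Real.rpow_le_rpow_of_exponent_le hDone h
    have hδinv : δ⁻¹ ≤ S.D ^ σ := by
      have h5 := inv_anti₀ (Real.rpow_pos_of_pos hDpos _) hδ
      rwa [Real.rpow_neg hDpos.le, inv_inv] at h5
    exact by
      have hQpos : (0 : ℝ) < S.Q := lt_of_lt_of_le (Real.rpow_pos_of_pos hDpos _) hG.Q1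
      have hXpos : 0 < X := lt_of_lt_of_le hQpos hX1
      -- the phases
      obtain ⟨θ, hθ, hcorr⟩ := hcells S N hDc (good_mono28 hG hx0c hDone) δ
        (le_trans (hmono _ _ (by (clear * - hσ1; linarith))) hδ) hδ2 X hX1
        (le_trans (mul_le_mul_of_nonneg_left (hmono _ _ (by (clear * - hσ1; linarith))) hQpos.le) hX2) f0 f hf0 hf hfl
        hform
      have hKr : (1 : ℝ) ≤ S.D ^ (1 - εK) := Real.one_le_rpow hDone (by (clear * - hε2 hε2b hεK2; linarith))
      have hKK : (1 : ℕ) ≤ ⌊S.D ^ (1 - εK)⌋₊ := Nat.le_floor (by exact_mod_cast hKr)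
      have hK1 : ((⌊S.D ^ (1 - εK)⌋₊ : ℕ) : ℝ) ≤ S.D ^ (1 - εK) := Nat.floor_le (by (clear * - hε2 hε2b hKr; linarith))
      have hK2 : S.D ^ (1 - εK) ≤ ((⌊S.D ^ (1 - εK)⌋₊ : ℕ) : ℝ) + 1 := (Nat.lt_floor_add_one _).le
      exact by
        generalize ⌊S.D ^ (1 - εK)⌋₊ = K at hKK hK1 hK2
        have hcorr' := hcorr K hKK hK1
        -- size of the frequencies
        have hv : ∀ x i, |θ x i * S.P i.castSucc| ≤ S.D ^ (c (Fin.last m) + 3) := by
          intro x i
          have hP0 : 0 ≤ S.P i.castSucc := le_trans (by (clear * - hQpos hD2; positivity)) (hG.P1 i.castSucc)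
          have hPow : δ⁻¹ ^ Cc ≤ S.D ^ (1 : ℝ) := by
            calc δ⁻¹ ^ Cc ≤ (S.D ^ σ) ^ Cc := pow_le_pow_left₀ (by (clear * - hδpos; positivity)) hδinv _
              _ = S.D ^ (σ * Cc) := by rw [← Real.rpow_natCast, ← Real.rpow_mul hDpos.le]
              _ ≤ S.D ^ (1 : ℝ) := hmono _ _ hσ8
          have hci : c i.castSucc ≤ c (Fin.last m) := hc.monotone (Fin.le_last _)
          rw [abs_mul, abs_of_nonneg hP0]
          calc |θ x i| * S.P i.castSucc ≤ (δ⁻¹ ^ Cc / S.Q) * (S.Q * S.D ^ (c i.castSucc + x0)) :=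
                mul_le_mul (hθ x i) (hG.P2 i.castSucc) hP0 (by (clear * - hδpos hQpos; positivity))
            _ = δ⁻¹ ^ Cc * S.D ^ (c i.castSucc + x0) := by
                (clear * - hQpos hD2 hδpos; field_simp)
            _ ≤ S.D ^ (1 : ℝ) * S.D ^ (c i.castSucc + x0) :=
                mul_le_mul_of_nonneg_right hPow (by positivity)
            _ = S.D ^ (1 + (c i.castSucc + x0)) := (Real.rpow_add hDpos _ _).symm
            _ ≤ _ := hmono _ _ (by (clear * - hε2 hε2b hx01 hci; linarith))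
        -- the parts
        set El : Finset (ZMod N) := univ.filter fun x => ∃ i, S.D ^ (1 / 4 : ℝ) ≤
          |θ x i * S.P i.castSucc| with hEl
        set Es : Finset (ZMod N) := univ.filter fun x => ∀ i, |θ x i * S.P i.castSucc| ≤ S.D ^ ε2
          with hEs
        set Ek : ℕ → Finset (ZMod N) := fun j => univ.filter fun x =>
          (∀ i, |θ x i * S.P i.castSucc| ≤ (S.D ^ (ε2 * (7 / 6 : ℝ) ^ j)) ^ (7 / 6 : ℝ)) ∧
            ∃ i, S.D ^ (ε2 * (7 / 6 : ℝ) ^ j) ≤ |θ x i * S.P i.castSucc| with hEk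
        have hXq : S.Q * S.D ^ (c (Fin.last m) - 1 / 4) ≤ X :=
          le_trans (mul_le_mul_of_nonneg_left (hmono _ _ (by (clear * - he08 hσ5; linarith))) hQpos.le) hX2
        exact by
          have pl : 𝔼 x, (if x ∈ El then locCorr S c (f (Fin.last m)) θ K x else 0) ≤ S.D ^ (-σl) := by
            refine hlarge S N hDl (good_mono28 hG hx0l hDone) X
              (le_trans (mul_le_mul_of_nonneg_left (hmono _ _ (by (clear * - he0b hσ6; linarith))) hQpos.le) hX2) _
              (hfl.mono (hδinv.trans (hmono _ _ hσ3)) hXpos le_rfl) θ El (fun x hx => ⟨hv x, ?_⟩) K hK2 hK1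
            exact (Finset.mem_filter.1 hx).2
          have pk : ∀ j ∈ range (J + 1),
              𝔼 x, (if x ∈ Ek j then locCorr S c (f (Fin.last m)) θ K x else 0) ≤ S.D ^ (-σk) := by
            intro j hj
            rw [Finset.mem_range] at hj
            refine hclass S N hDk (good_mono28 hG hx0k hDone) X hXq _
              (hfl.mono (hδinv.trans (hmono _ _ hσ2)) hXpos le_rfl) θ (S.D ^ (ε2 * (7 / 6 : ℝ) ^ j))
              (hmono _ _ ?_) ?_ (Ek j) (fun x hx => (Finset.mem_filter.1 hx).2) K hK2 hK1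
            · have : (1 : ℝ) ≤ (7 / 6 : ℝ) ^ j := one_le_pow₀ (by norm_num)
              (clear * - he0 he08 hε2 this; nlinarith)
            · rw [← Real.rpow_mul hDpos.le]
              refine hmono _ _ ?_
              have := hJ2 j (by omega)
              (clear * - this; linarith)
          -- the sum
          have hcover : ∀ x, locCorr S c (f (Fin.last m)) θ K x ≤
              (if x ∈ El then locCorr S c (f (Fin.last m)) θ K x else 0) +
              ∑ j ∈ range (J + 1), (if x ∈ Ek j then locCorr S c (f (Fin.last m)) θ K x else 0) +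
              (if x ∈ Es then locCorr S c (f (Fin.last m)) θ K x else 0) := by
            intro x
            have hn := locCorr_nonneg28 S c (f (Fin.last m)) θ K x
            have n1 : 0 ≤ (if x ∈ El then locCorr S c (f (Fin.last m)) θ K x else 0) := by
              split_ifs <;> [exact hn; exact le_rfl]
            have n2 : ∀ j, 0 ≤ (if x ∈ Ek j then locCorr S c (f (Fin.last m)) θ K x else 0) := fun j => by
              split_ifs <;> [exact hn; exact le_rfl]
            have n2' : 0 ≤ ∑ j ∈ range (J + 1),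
                (if x ∈ Ek j then locCorr S c (f (Fin.last m)) θ K x else 0) :=
              Finset.sum_nonneg fun j _ => n2 j
            have n3 : 0 ≤ (if x ∈ Es then locCorr S c (f (Fin.last m)) θ K x else 0) := by
              split_ifs <;> [exact hn; exact le_rfl]
            by_cases hxl : x ∈ El
            · rw [if_pos hxl] at n1 ⊢
              (clear * - n2' n3; linarith)
            by_cases hxs' : x ∈ Es
            · rw [if_pos hxs'] at n3 ⊢
              (clear * - n1 n2'; linarith)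
            rw [hEl, Finset.mem_filter] at hxl
            rw [hEs, Finset.mem_filter] at hxs'
            push Not at hxl hxs'
            have hxl' := hxl (Finset.mem_univ _)
            obtain ⟨i0, hi0⟩ := hxs' (Finset.mem_univ _)
            obtain ⟨i1, -, hi1⟩ := Finset.exists_max_image (univ : Finset (Fin m))
              (fun i => |θ x i * S.P i.castSucc|) ⟨i0, Finset.mem_univ _⟩
            obtain ⟨j, hjJ, hj1, hj2⟩ := cover28 hDone hJ1
              (le_trans hi0.le (hi1 i0 (Finset.mem_univ _))) (hxl' i1)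
            have hxj : x ∈ Ek j := by
              rw [hEk, Finset.mem_filter]
              exact ⟨Finset.mem_univ _, fun i => (hi1 i (Finset.mem_univ _)).trans hj2, i1, hj1⟩
            have h5 := Finset.single_le_sum (f := fun j => if x ∈ Ek j then
              locCorr S c (f (Fin.last m)) θ K x else 0) (fun j _ => n2 j)
              (Finset.mem_range.2 (show j < J + 1 by omega))
            simp only [if_pos hxj] at h5
            (clear * - n1 n3 h5; linarith)
          have hsum : 𝔼 x, locCorr S c (f (Fin.last m)) θ K x ≤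
              𝔼 x, (if x ∈ El then locCorr S c (f (Fin.last m)) θ K x else 0) +
              ∑ j ∈ range (J + 1), 𝔼 x, (if x ∈ Ek j then locCorr S c (f (Fin.last m)) θ K x else 0) +
              𝔼 x, (if x ∈ Es then locCorr S c (f (Fin.last m)) θ K x else 0) := by
            refine le_trans (Finset.expect_le_expect fun x _ => hcover x) ?_
            rw [Finset.expect_add_distrib, Finset.expect_add_distrib, Finset.expect_sum_comm]
          have hk' : ∑ j ∈ range (J + 1), 𝔼 x, (if x ∈ Ek j then locCorr S c (f (Fin.last m)) θ K x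
              else 0) ≤ ((J : ℝ) + 1) * S.D ^ (-σk) := by
            refine le_trans (Finset.sum_le_sum pk) ?_
            rw [Finset.sum_const, Finset.card_range, nsmul_eq_mul]
            push_cast
            exact le_rfl
          have hl2 : S.D ^ (-σl) ≤ S.D ^ (-σ') := hmono _ _ (by (clear * - hσ'l; linarith))
          exact by
            have hk2 : S.D ^ (-σk) ≤ S.D ^ (-σ') := hmono _ _ (by (clear * - hσ'k; linarith))
            have hhalf : ((J : ℝ) + 2) * S.D ^ (-σ') ≤ δ ^ Cc / 2 := by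
              have h5 : S.D ^ (-(σ' / 2)) ≤ δ ^ Cc := by
                calc S.D ^ (-(σ' / 2)) ≤ S.D ^ (-σ * Cc) := hmono _ _ (by (clear * - hσ7; linarith))
                  _ = (S.D ^ (-σ)) ^ Cc := by rw [Real.rpow_mul hDpos.le, Real.rpow_natCast]
                  _ ≤ δ ^ Cc := pow_le_pow_left₀ (by positivity) hδ _
              have h6 : S.D ^ (-σ') = S.D ^ (-(σ' / 2)) * S.D ^ (-(σ' / 2)) := by
                rw [← Real.rpow_add hDpos]
                congr 1
                ring
              have h7 := hD1 S.D hDD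
              have h8 : 0 < S.D ^ (-(σ' / 2)) := Real.rpow_pos_of_pos hDpos _
              rw [h6]
              (clear * - h5 hε2 hε2b h7 h8; nlinarith)
            have hsmallpart : δ ^ (Cc + 1) ≤
                𝔼 x, (if x ∈ Es then locCorr S c (f (Fin.last m)) θ K x else 0) := by
              have h5 : δ ^ (Cc + 1) ≤ δ ^ Cc / 2 := by
                rw [pow_succ]
                have : 0 < δ ^ Cc := by positivity
                (clear * - hε2 hε2b hδ2 this; nlinarith)
              have h6 : ((J : ℝ) + 1) * S.D ^ (-σk) ≤ ((J : ℝ) + 1) * S.D ^ (-σ') :=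
                mul_le_mul_of_nonneg_left hk2 (by (clear * -; positivity))
              (clear * - hcorr' pl hsum hk' hl2 hhalf h5 h6; linarith)
            refine hsmall S N hDs (good_mono28 hG hx0s hDone) δ (le_trans (hmono _ _ (by (clear * - hσ4; linarith))) hδ) hδ2
              X hXq _ hfl θ Es (fun x hx => (Finset.mem_filter.1 hx).2) K hK2 hK1 hsmallpart L hL1
              (hL2.trans ?_)
            have hP0 : 0 ≤ S.P (Fin.last m) := le_trans (by (clear * - hQpos hD2; positivity)) (hG.P1 (Fin.last m))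
            exact mul_le_mul_of_nonneg_left (hmono _ _ (by (clear * - hε2 hε2a; linarith))) hP0

end

end Pool.Agent.Helper57.NX

end

section

set_option autoImplicit false

open Finset

open scoped BigOperators ComplexConjugate

namespace Pool.Agent.Helper91.NX2

open Pool.Agent.Helper57.NX

open Pool.Agent.Helper67.NX2

noncomputable section

section

variable {m N : ℕ} [NeZero N]

/-- Key lemma: a large form of a block phase gives many pairs of points at distance `< L` with
close frequencies. -/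
theorem key_st {p : ℕ} [NeZero p] (hp : p.Prime) (S : Sys (m + 1)) (hN : N = S.Q * p)
    {q : ℕ} (hq : 1 ≤ q) (hqp : q < p) (c : Fin (m + 1) → ℝ) (f0 : ZMod N → ℂ)
    (hf0 : ∀ x, ‖f0 x‖ ≤ 1) (f : Fin m → ZMod N → ℂ) (hf : ∀ i x, ‖f i x‖ ≤ 1)
    {X : ℕ} (hX : 1 ≤ X) (hXN : X ≤ p) (r : ZMod p) {cc : ℕ → ℂ} (hcc : ∀ j, ‖cc j‖ ≤ 1)
    {φ : ℕ → ℝ} (hφ : ∀ j j', |φ j - φ j'| ≤ 1 / 2) {Y : ℕ} (hY : 1 ≤ Y) (L : ℕ) {w0 : ℝ}
    (hw0 : 0 < w0) {δ1 δ6 δT : ℝ} (hδ1 : 0 ≤ δ1) (hδ6 : 0 ≤ δ6) (hδT : 0 < δT)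
    (hpos : 0 ≤ δ1 ^ 2 - 4 * Y / X - δ6)
    (hG : ∀ y < Y, ∀ y' < Y, δ6 ≤ ‖form S c 1
        (fun x => f0 (x + ((S.Q * q * y : ℕ) : ZMod N)) *
          conj (f0 (x + ((S.Q * q * y' : ℕ) : ZMod N))))
        (Fin.snoc (α := fun _ => ZMod N → ℂ)
          (fun i x => f i (x + ((S.Q * q * y : ℕ) : ZMod N)) *
            conj (f i (x + ((S.Q * q * y' : ℕ) : ZMod N))))
          (bd S.Q q (Gf64 X r cc φ y y')))‖ → δT ≤ nrm (A L (Gf64 X r cc φ y y')))
    (h : δ1 ≤ ‖form S c 1 f0 (Fin.snoc (α := fun _ => ZMod N → ℂ) f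
      (bd S.Q q (bphase X r cc φ)))‖) :
    (δT * (δ1 ^ 2 - 4 * Y / X - δ6)) ^ 2 ≤
      (𝔼 z : ZMod p, 𝔼 w ∈ range L, 𝔼 w' ∈ range L,
        ind64 X r cc φ w0 (z + (w : ZMod p)) (z + (w' : ZMod p))) + (1 / (2 * Y * w0)) ^ 2 := by
  have hY0 : (0 : ℝ) < Y := by exact_mod_cast hY
  have hne : (range Y).Nonempty := nonempty_range_iff.2 (by omega)
  -- step 1
  have h1 := form_cs_st S c f0 (Fin.snoc (α := fun _ => ZMod N → ℂ) f
    (bd S.Q q (bphase X r cc φ))) (S.Q * q) Y hY
  have h2 : ∀ y < Y, ∀ y' < Y,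
      ‖form S c 1 (fun x => f0 (x + ((S.Q * q * y : ℕ) : ZMod N)) *
          conj (f0 (x + ((S.Q * q * y' : ℕ) : ZMod N))))
        (fun i x => (Fin.snoc (α := fun _ => ZMod N → ℂ) f (bd S.Q q (bphase X r cc φ)) i)
            (x + ((S.Q * q * y : ℕ) : ZMod N)) *
          conj ((Fin.snoc (α := fun _ => ZMod N → ℂ) f (bd S.Q q (bphase X r cc φ)) i)
            (x + ((S.Q * q * y' : ℕ) : ZMod N))))‖ ≤
      (δ6 + nrm (A L (Gf64 X r cc φ y y')) / δT) + 4 * Y / X := by
    intro y hy y' hy'
    have e1 : (fun (i : Fin (m + 1)) (x : ZMod N) =>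
        (Fin.snoc (α := fun _ => ZMod N → ℂ) f (bd S.Q q (bphase X r cc φ)) i)
            (x + ((S.Q * q * y : ℕ) : ZMod N)) *
          conj ((Fin.snoc (α := fun _ => ZMod N → ℂ) f (bd S.Q q (bphase X r cc φ)) i)
            (x + ((S.Q * q * y' : ℕ) : ZMod N)))) =
        Fin.snoc (α := fun _ => ZMod N → ℂ)
          (fun i x => f i (x + ((S.Q * q * y : ℕ) : ZMod N)) *
            conj (f i (x + ((S.Q * q * y' : ℕ) : ZMod N))))
          (bd S.Q q fun z => bphase X r cc φ (z + (y : ZMod p)) *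
            conj (bphase X r cc φ (z + (y' : ZMod p)))) := by
      funext i
      refine Fin.lastCases ?_ (fun i => ?_) i
      · rw [Fin.snoc_last, Fin.snoc_last]
        funext x
        rw [bd_shift hp hN hq hqp, bd_shift hp hN hq hqp]
        rfl
      · rw [Fin.snoc_castSucc, Fin.snoc_castSucc]
    rw [e1]
    have hb0 : ∀ x, ‖f0 (x + ((S.Q * q * y : ℕ) : ZMod N)) *
        conj (f0 (x + ((S.Q * q * y' : ℕ) : ZMod N)))‖ ≤ 1 := fun x => by
      rw [norm_mul, Complex.norm_conj]
      exact mul_le_one₀ (hf0 _) (norm_nonneg _) (hf0 _)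
    have hb : ∀ (i : Fin m) x, ‖f i (x + ((S.Q * q * y : ℕ) : ZMod N)) *
        conj (f i (x + ((S.Q * q * y' : ℕ) : ZMod N)))‖ ≤ 1 :=
      fun i x => by
        rw [norm_mul, Complex.norm_conj]
        exact mul_le_one₀ (hf i _) (norm_nonneg _) (hf i _)
    refine (snoc_sub64 S c _ hb0 _ hb _ (bd S.Q q (Gf64 X r cc φ y y'))).trans ?_
    refine add_le_add ?_ ?_
    swap
    · refine le_trans (le_of_eq ?_) (nrm_diff64 hX hXN r hcc φ hy hy')
      exact nrm_bd hp hN hq hqp (fun z => bphase X r cc φ (z + (y : ZMod p)) *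
            conj (bphase X r cc φ (z + (y' : ZMod p))) - Gf64 X r cc φ y y' z)
    by_cases hc : δ6 ≤ ‖form S c 1
        (fun x => f0 (x + ((S.Q * q * y : ℕ) : ZMod N)) *
          conj (f0 (x + ((S.Q * q * y' : ℕ) : ZMod N))))
        (Fin.snoc (α := fun _ => ZMod N → ℂ)
          (fun i x => f i (x + ((S.Q * q * y : ℕ) : ZMod N)) *
            conj (f i (x + ((S.Q * q * y' : ℕ) : ZMod N))))
          (bd S.Q q (Gf64 X r cc φ y y')))‖
    · have h3 := hG y hy y' hy' hc
      have h4 : 1 ≤ nrm (A L (Gf64 X r cc φ y y')) / δT := by rwa [le_div_iff₀ hδT, one_mul]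
      have h5 := norm_form_le_one S c 1 (fun _ => by simp) _ hb0 _
        (snoc_bdd64 hb (u := bd S.Q q (Gf64 X r cc φ y y')) fun x => norm_gcoef64 hcc φ y y' _)
      (clear * - hδ6 h4 h5; linarith)
    · have h3 : 0 ≤ nrm (A L (Gf64 X r cc φ y y')) / δT := div_nonneg (nrm_nonneg _) hδT.le
      have := not_le.1 hc
      (clear * - hc h3; linarith)
  -- step 2
  have h3 : δ1 ^ 2 ≤ 𝔼 y ∈ range Y, 𝔼 y' ∈ range Y,
      ((δ6 + nrm (A L (Gf64 X r cc φ y y')) / δT) + 4 * Y / X) := by
    refine (pow_le_pow_left₀ hδ1 h 2).trans (h1.trans ?_)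
    exact expect_le_expect fun y hy => expect_le_expect fun y' hy' =>
      h2 y (mem_range.1 hy) y' (mem_range.1 hy')
  set M := 𝔼 y ∈ range Y, 𝔼 y' ∈ range Y, nrm (A L (Gf64 X r cc φ y y')) with hM
  exact by
    have h4 : 𝔼 y ∈ range Y, 𝔼 y' ∈ range Y,
        ((δ6 + nrm (A L (Gf64 X r cc φ y y')) / δT) + 4 * Y / X) = δ6 + M / δT + 4 * Y / X := by
      simp_rw [expect_add_distrib, expect_const hne, ← expect_div]
      rfl
    rw [h4] at h3
    have h5 : δT * (δ1 ^ 2 - 4 * Y / X - δ6) ≤ M := by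
      have h6 : δ1 ^ 2 - 4 * Y / X - δ6 ≤ M / δT := by (clear * - h3; linarith)
      rw [le_div_iff₀ hδT] at h6
      (clear * - h6; linarith)
    -- step 3
    have h6 : M ^ 2 ≤ 𝔼 y ∈ range Y, 𝔼 y' ∈ range Y, 𝔼 z : ZMod p,
        ‖A L (Gf64 X r cc φ y y') z‖ ^ 2 := by
      rw [hM]
      refine (sq_expect_le64 _ _).trans (expect_le_expect fun y _ => ?_)
      refine (sq_expect_le64 _ _).trans (expect_le_expect fun y' _ => ?_)
      exact sq_expect_le64 _ _
    have h7 : 𝔼 y ∈ range Y, 𝔼 y' ∈ range Y, 𝔼 z : ZMod p, ‖A L (Gf64 X r cc φ y y') z‖ ^ 2 =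
        𝔼 z : ZMod p, 𝔼 y ∈ range Y, 𝔼 y' ∈ range Y, ‖A L (Gf64 X r cc φ y y') z‖ ^ 2 := by
      rw [expect_comm (s := (univ : Finset (ZMod p))) (t := range Y)]
      exact expect_congr rfl fun y _ => expect_comm _ _ _
    have h8 : 𝔼 z : ZMod p, 𝔼 y ∈ range Y, 𝔼 y' ∈ range Y, ‖A L (Gf64 X r cc φ y y') z‖ ^ 2 ≤
        𝔼 z : ZMod p, 𝔼 w ∈ range L, 𝔼 w' ∈ range L,
          (ind64 X r cc φ w0 (z + (w : ZMod p)) (z + (w' : ZMod p)) + (1 / (2 * Y * w0)) ^ 2) :=
      expect_le_expect fun z _ => expand64 r hcc φ hY L hw0 hφ z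
    have h9 : 𝔼 z : ZMod p, 𝔼 w ∈ range L, 𝔼 w' ∈ range L,
          (ind64 X r cc φ w0 (z + (w : ZMod p)) (z + (w' : ZMod p)) + (1 / (2 * Y * w0)) ^ 2) ≤
        (𝔼 z : ZMod p, 𝔼 w ∈ range L, 𝔼 w' ∈ range L,
          ind64 X r cc φ w0 (z + (w : ZMod p)) (z + (w' : ZMod p))) + (1 / (2 * Y * w0)) ^ 2 := by
      simp_rw [expect_add_distrib]
      refine add_le_add le_rfl ?_
      refine expect_le_of5 _ _ (by (clear * - hY hw0; positivity)) fun z _ => ?_
      refine expect_le_of5 _ _ (by positivity) fun w _ => ?_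
      exact expect_le_of5 _ _ (by positivity) fun w' _ => le_rfl
    refine (pow_le_pow_left₀ (mul_nonneg hδT.le hpos) h5 2).trans (h6.trans ?_)
    rw [h7]
    exact h8.trans h9

end

end

end Pool.Agent.Helper91.NX2

end

section

set_option autoImplicit false

open Finset

open scoped BigOperators ComplexConjugate

namespace Pool.Agent.Helper91.NX2

open Pool.Agent.Helper57.NX

open Pool.Agent.Helper67.NX2

noncomputable section

theorem al_half (m : ℕ) (c : Fin (m + 1) → ℝ) (s ε : ℝ) (hs0 : 0 < s) (hε : 0 < ε)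
    (hT : ArTopC m c s ε) : ∃ x0 : ℝ, 0 < x0 ∧ ∃ C : ℕ, ∃ σ : ℝ, 0 < σ ∧ ∃ D0 : ℝ,
    ∀ (S : Sys (m + 1)) (N : ℕ) [NeZero N] (lam : ℕ), D0 ≤ S.D → IG S c N x0 lam →
    ∀ δ : ℝ, S.D ^ (-σ) ≤ δ → δ ≤ 1 / 2 → (lam : ℝ) ≤ δ⁻¹ →
    ∀ (p : ℕ) [NeZero p], p.Prime → N = S.Q * p → ∀ q : ℕ, 1 ≤ q → (q : ℝ) ≤ δ⁻¹ →
    ∀ X : ℕ, 1 ≤ X → S.D ^ (s - σ) ≤ (X : ℝ) →
    ∀ q0 : ℕ, 1 ≤ q0 → (X : ℝ) * q0 * (S.Q * q) ≤ S.P (Fin.last m) * S.D ^ (-ε) →
    ∀ (f0 : ZMod N → ℂ) (f : Fin m → ZMod N → ℂ), Adm δ⁻¹ S.Q f0 → (∀ i, Adm δ⁻¹ S.Q (f i)) →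
    ∀ (r : ZMod p) (cc : ℕ → ℂ) (φ : ℕ → ℝ), (∀ j, ‖cc j‖ ≤ 1) →
    (∀ j j', |φ j - φ j'| ≤ 1 / 2) →
    δ ≤ ‖form S c 1 f0 (Fin.snoc (α := fun _ => ZMod N → ℂ) f (bd S.Q q (bphase X r cc φ)))‖ →
    ∃ (cc' : ℕ → ℂ) (θ : ℕ → ℝ), (∀ j, cc' j = cc j ∨ cc' j = 0) ∧
      (∀ j, cc' j ≠ 0 → |φ j - θ (j / q0)| ≤ δ⁻¹ ^ C / X) ∧
      δ ^ C ≤ ‖form S c 1 f0 (Fin.snoc (α := fun _ => ZMod N → ℂ) f
        (bd S.Q q (bphase X r cc' φ)))‖ := by
  obtain ⟨xT, hxT, CT, σT, hσT, DT, HT⟩ := hT
  refine ⟨min xT ε, lt_min hxT hε, 12 * CT + 20, min (σT / 6) (s / 20),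
    lt_min (by (clear * - hσT; positivity)) (by positivity), max DT (max 4 (4 ^ (2 / s))), ?_⟩
  intro S N _ lam hD hIG δ hδ1 hδ2 hlam p _ hp hN q hq hqδ X hX1 hX q0 hq0 hXq f0 f hf0 hf r cc φ
    hcc hφd hform
  have hGood := hIG.good
  set σ := min (σT / 6) (s / 20) with hσ
  have hσ0 : 0 < σ := lt_min (by positivity) (by positivity)
  have hσa : 6 * σ ≤ σT := by have := min_le_left (σT / 6) (s / 20); rw [← hσ] at this; (clear * - this; linarith)
  have hσb : 20 * σ ≤ s := by have := min_le_right (σT / 6) (s / 20); rw [← hσ] at this; (clear * - this; linarith)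
  have hDT : DT ≤ S.D := (le_max_left _ _).trans hD
  exact by
    have hD4 : 4 ≤ S.D := ((le_max_left _ _).trans (le_max_right _ _)).trans hD
    have hDs : (4 : ℝ) ^ (2 / s) ≤ S.D := ((le_max_right _ _).trans (le_max_right _ _)).trans hD
    have hD0 : 0 < S.D := by (clear * - hD4; linarith)
    have hD1 : 1 ≤ S.D := by (clear * - hD4; linarith)
    have hδ0 : 0 < δ := (Real.rpow_pos_of_pos hD0 _).trans_le hδ1
    have hδi : 2 ≤ δ⁻¹ := by
      rw [le_inv_comm₀ (by norm_num) hδ0]
      (clear * - hδ2; linarith)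
    exact by
      have hδi0 : 0 < δ⁻¹ := by (clear * - hδ0; positivity)
      -- powers of δ
      have hpow : ∀ (n : ℕ), S.D ^ (-(n * σ)) ≤ δ ^ n := by
        intro n
        have h := pow_le_pow_left₀ (Real.rpow_nonneg hD0.le _) hδ1 n
        rw [← Real.rpow_natCast (S.D ^ (-σ)) n, ← Real.rpow_mul hD0.le] at h
        refine le_trans (le_of_eq ?_) h
        congr 1
        ring
      have hQ : (S.D : ℝ) ^ (2 : ℝ) ≤ S.Q := hGood.Q1
      have hQ0 : (0 : ℝ) < S.Q := (Real.rpow_pos_of_pos hD0 _).trans_le hQ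
      have hX0 : (0 : ℝ) < X := by exact_mod_cast hX1
      have hX0' : (1 : ℝ) ≤ X := by exact_mod_cast hX1
      exact by
        have hq1 : (1 : ℝ) ≤ q := by exact_mod_cast hq
        -- the size of X
        have h9 : 4 ≤ δ ^ 9 * X := by
          have h1 := hpow 9
          have h2 : (4 : ℝ) ≤ S.D ^ (s / 2) := by
            have h3 := Real.rpow_le_rpow (by positivity) hDs (by positivity : 0 ≤ s / 2)
            rw [← Real.rpow_mul (by norm_num)] at h3
            have h4 : 2 / s * (s / 2) = 1 := by field_simp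
            rwa [h4, Real.rpow_one] at h3
          have h3 : S.D ^ (s / 2) ≤ S.D ^ (-(((9 : ℕ) : ℝ) * σ)) * S.D ^ (s - σ) := by
            rw [← Real.rpow_add hD0]
            refine Real.rpow_le_rpow_of_exponent_le hD1 ?_
            push_cast
            (clear * - hσb; linarith)
          refine h2.trans (h3.trans ?_)
          exact mul_le_mul h1 hX (Real.rpow_nonneg hD0.le _) (by (clear * - hδ0; positivity))
        have hX2 : 2 ≤ X := by
          have h1 : δ ^ 9 ≤ 1 := pow_le_one₀ hδ0.le (by (clear * - hδ2 hδ0; linarith))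
          have h2 : δ ^ 9 * X ≤ 1 * X := mul_le_mul_of_nonneg_right h1 hX0.le
          have h3 : (2 : ℝ) ≤ X := by (clear * - hδ2 hδ0 h9 h2; linarith)
          exact_mod_cast h3
        -- sizes
        have hL : ((X * q0 : ℕ) : ℝ) * (S.Q * q) ≤ S.P (Fin.last m) * S.D ^ (-ε) := by
          push_cast
          exact hXq
        have hLN : X * q0 * q ≤ p := by
          have h1 := hGood.N1 (Fin.last m)
          have h2 : S.P (Fin.last m) * S.D ^ (-ε) ≤ N * S.D ^ (min xT ε) * S.D ^ (-ε) :=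
            mul_le_mul_of_nonneg_right h1 (Real.rpow_nonneg hD0.le _)
          have h3 : (N : ℝ) * S.D ^ (min xT ε) * S.D ^ (-ε) ≤ N := by
            rw [mul_assoc, ← Real.rpow_add hD0]
            have h4 : S.D ^ (min xT ε + -ε) ≤ 1 :=
              Real.rpow_le_one_of_one_le_of_nonpos hD1 (by have := min_le_right xT ε; (clear * - this; linarith))
            exact mul_le_of_le_one_right (Nat.cast_nonneg _) h4
          have h5 := hL.trans (h2.trans h3)
          rw [hN] at h5
          push_cast at h5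
          have h6 : (S.Q : ℝ) * (X * q0 * q) ≤ S.Q * p := by (clear * - h5; linarith)
          have h7 := le_of_mul_le_mul_left h6 hQ0
          exact_mod_cast h7
        have hqp : q < p := by
          have h1 : 2 * 1 * q ≤ X * q0 * q := by (clear * - hX2 hq0; gcongr)
          omega
        exact by
          have hLp : X * q0 ≤ p := (Nat.le_mul_of_pos_right _ (by omega : 0 < q)).trans hLN
          have hL1 : 1 ≤ X * q0 := Nat.mul_pos hX1 hq0
          have hXN : X ≤ p := (Nat.le_mul_of_pos_right X hq0).trans hLp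
          -- Y
          set Y := ⌊δ ^ 9 * X⌋₊ with hYdef
          have hYle : (Y : ℝ) ≤ δ ^ 9 * X := Nat.floor_le (by (clear * - hδ0 hX1; positivity))
          have hYge : δ ^ 9 * X - 1 ≤ Y := by
            have := Nat.lt_floor_add_one (δ ^ 9 * X)
            rw [← hYdef] at this
            (clear * - this; linarith)
          exact by
            have hY1 : 1 ≤ Y := by
              rw [hYdef, Nat.one_le_floor_iff]
              (clear * - hδ2 hδ0 h9; linarith)
            have hY10 : δ ^ 10 * X ≤ Y := by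
              have h1 : δ ^ 10 * X = δ * (δ ^ 9 * X) := by ring
              have h2 : δ * (δ ^ 9 * X) ≤ 1 / 2 * (δ ^ 9 * X) :=
                mul_le_mul_of_nonneg_right hδ2 (by positivity)
              (clear * - hδ2 hδ0 h9 hYge h2; linarith)
            have hY0 : (0 : ℝ) < Y := by exact_mod_cast hY1
            -- w0, η
            set w0 : ℝ := δ⁻¹ ^ (6 * CT + 16) / X with hw0def
            have hw0 : 0 < w0 := by (clear * - hδ0 hX1; positivity)
            set η : ℝ := δ ^ (12 * CT + 17) with hηdef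
            exact by
              have hη : 0 < η := by positivity
              have hf0b : ∀ x, ‖f0 x‖ ≤ 1 := hf0.bdd
              have hfb : ∀ i x, ‖f i x‖ ≤ 1 := fun i => (hf i).bdd
              have hδ6i : 64 ≤ (δ ^ 6)⁻¹ := by
                rw [← inv_pow]
                calc (64 : ℝ) = 2 ^ 6 := by norm_num
                  _ ≤ δ⁻¹ ^ 6 := pow_le_pow_left₀ (by norm_num) hδi 6
              have hδ6a : δ⁻¹ ≤ (δ ^ 6)⁻¹ := by
                rw [← inv_pow]
                exact le_self_pow₀ (by (clear * - hδ2 hδ0 hδi; linarith)) (by norm_num)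
              have hδ6i' : δ⁻¹ + δ⁻¹ ≤ (δ ^ 6)⁻¹ := by
                rw [← inv_pow]
                have h1 : δ⁻¹ ^ 2 ≤ δ⁻¹ ^ 6 := pow_le_pow_right₀ (by (clear * - hδ2 hδ0 hδi; linarith)) (by norm_num)
                have h2 : 2 * δ⁻¹ ≤ δ⁻¹ ^ 2 := by
                  rw [sq]
                  exact mul_le_mul_of_nonneg_right hδi hδi0.le
                (clear * - h1 h2; linarith)
              exact by
                have : Fact p.Prime := ⟨hp⟩
                have hqz : (q : ZMod p) ≠ 0 := by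
                  rw [Ne, ZMod.natCast_eq_zero_iff]
                  intro h
                  exact absurd (Nat.le_of_dvd (by omega) h) (by omega)
                have hGb : ∀ y y' : ℕ, ∀ cc' : ℕ → ℂ, (∀ j, ‖cc' j‖ ≤ 1) →
                    Adm (δ ^ 6)⁻¹ X (Gf64 X r cc' φ y y') := by
                  intro y y' cc' hcc'
                  have h1 : Adm 4 (X : ℝ) (Gf64 X r cc' φ y y') :=
                    ⟨fun z => norm_gcoef64 hcc' φ y y' _,
                      tv_block64 hX1 hXN r (gcoef64 cc' φ y y') fun j => norm_gcoef64 hcc' φ y y' j⟩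
                  exact h1.mono (by (clear * - hδ2 hδ0 hδ6i; linarith)) hX0 le_rfl
                have hdil : ∀ g : ZMod p → ℂ,
                    (fun z : ZMod p => (fun y : ZMod p => g (y * (q : ZMod p)⁻¹)) ((q : ZMod p) * z)) = g := by
                  intro g
                  funext z
                  beta_reduce
                  congr 1
                  rw [mul_comm (q : ZMod p) z, mul_assoc, mul_inv_cancel₀ hqz, mul_one]
                -- the unpopular part
                have hrest : ‖form S c 1 f0 (Fin.snoc (α := fun _ => ZMod N → ℂ) f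
                    (bd S.Q q (bphase X r (ccr64 cc φ w0 η q0) φ)))‖ < δ / 2 := by
                  by_contra hcon
                  rw [not_lt] at hcon
                  have hccr : ∀ j, ‖ccr64 cc φ w0 η q0 j‖ ≤ 1 := norm_ccr64 cc φ w0 η q0 hcc
                  have hpos : δ ^ 5 ≤ (δ / 2) ^ 2 - 4 * Y / X - δ ^ 6 := by
                    have h1 : 4 * (Y : ℝ) / X ≤ 4 * δ ^ 9 := by
                      rw [div_le_iff₀ hX0]
                      (clear * - hYle; linarith)
                    have h2 : δ ^ 9 ≤ δ ^ 2 * (1 / 2) ^ 7 := by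
                      have h3 : δ ^ 9 = δ ^ 2 * δ ^ 7 := by ring
                      rw [h3]
                      exact mul_le_mul_of_nonneg_left (pow_le_pow_left₀ hδ0.le hδ2 7) (by positivity)
                    have h3 : δ ^ 6 ≤ δ ^ 2 * (1 / 2) ^ 4 := by
                      have h3 : δ ^ 6 = δ ^ 2 * δ ^ 4 := by ring
                      rw [h3]
                      exact mul_le_mul_of_nonneg_left (pow_le_pow_left₀ hδ0.le hδ2 4) (by positivity)
                    have h4 : δ ^ 5 ≤ δ ^ 2 * (1 / 2) ^ 3 := by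
                      have h3 : δ ^ 5 = δ ^ 2 * δ ^ 3 := by ring
                      rw [h3]
                      exact mul_le_mul_of_nonneg_left (pow_le_pow_left₀ hδ0.le hδ2 3) (by positivity)
                    have h5 : 0 < δ ^ 2 := by positivity
                    have h6 : (δ / 2) ^ 2 = δ ^ 2 / 4 := by ring
                    rw [h6]
                    norm_num at h2 h3 h4
                    (clear * - h1 h5 h2 h3 h4; linarith)
                  have hkey := key_st hp S hN hq hqp c f0 hf0b f hfb hX1 hXN r hccr hφd hY1 (X * q0) hw0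
                    (δ1 := δ / 2) (δ6 := δ ^ 6) (δT := (δ ^ 6) ^ CT) (by positivity) (by positivity)
                    (by positivity) ((by positivity : (0 : ℝ) ≤ δ ^ 5).trans hpos) (by
                      intro y _ y' _ hyy
                      have h1 := HT S N lam hDT (hIG.mono (min_le_left _ _) hD1) (δ ^ 6) (by
                        refine le_trans ?_ (hpow 6)
                        exact Real.rpow_le_rpow_of_exponent_le hD1 (by push_cast; (clear * - hσa; linarith))) (by
                        refine (pow_le_pow_left₀ hδ0.le hδ2 6).trans (by norm_num))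
                        (hlam.trans hδ6a) p hp hN q hq (hqδ.trans hδ6a) X hX0' (by
                        refine le_trans ?_ hX
                        exact Real.rpow_le_rpow_of_exponent_le hD1 (by (clear * - hσ0 hσa; linarith)))
                        _ _ (((hf0.shift ((S.Q * q * y : ℕ) : ZMod N)).mul
                          (hf0.shift ((S.Q * q * y' : ℕ) : ZMod N)).cnj).mono hδ6i' hQ0 le_rfl)
                        (fun i => (((hf i).shift ((S.Q * q * y : ℕ) : ZMod N)).mul
                          ((hf i).shift ((S.Q * q * y' : ℕ) : ZMod N)).cnj).mono hδ6i' hQ0 le_rfl)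
                        (fun w : ZMod p => Gf64 X r (ccr64 cc φ w0 η q0) φ y y' (w * (q : ZMod p)⁻¹))
                        (by
                          rw [hdil]
                          exact hGb y y' _ hccr)
                        hyy (X * q0) hL1 hL
                      rwa [hdil] at h1) hcon
                  have hr := rest64 cc φ w0 η q0 hX1 hq0 hη.le hw0 rfl hLp r
                  have h1 : δ ^ (12 * CT + 10) ≤ ((δ ^ 6) ^ CT * ((δ / 2) ^ 2 - 4 * Y / X - δ ^ 6)) ^ 2 := by
                    have h2 : δ ^ (12 * CT + 10) = ((δ ^ 6) ^ CT * δ ^ 5) ^ 2 := by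
                      rw [← pow_mul, ← pow_add, ← pow_mul]
                      congr 1
                      ring
                    rw [h2]
                    exact pow_le_pow_left₀ (by positivity) (mul_le_mul_of_nonneg_left hpos (by positivity)) 2
                  have h2 : (1 / (2 * Y * w0)) ^ 2 ≤ δ ^ (12 * CT + 10) / 16 := by
                    have h3 : 2 * δ⁻¹ ^ (6 * CT + 6) ≤ 2 * Y * w0 := by
                      have h4 : δ ^ 10 * X * w0 = δ⁻¹ ^ (6 * CT + 6) := by
                        rw [hw0def]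
                        have h5 : δ⁻¹ ^ (6 * CT + 16) = δ⁻¹ ^ (6 * CT + 6) * δ⁻¹ ^ 10 := by
                          rw [← pow_add]
                        rw [h5]
                        (clear * - hδ0 hX1; field_simp)
                      have h6 := mul_le_mul_of_nonneg_right hY10 hw0.le
                      rw [h4] at h6
                      (clear * - h6; linarith)
                    have h4 : 1 / (2 * Y * w0) ≤ δ ^ (6 * CT + 6) / 2 := by
                      rw [div_le_div_iff₀ (by (clear * - hY1 hδ0 hX1; positivity)) (by norm_num)]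
                      have h5 : δ ^ (6 * CT + 6) * δ⁻¹ ^ (6 * CT + 6) = 1 := by
                        rw [← mul_pow, mul_inv_cancel₀ hδ0.ne', one_pow]
                      have h6 := mul_le_mul_of_nonneg_left h3 (by positivity : (0 : ℝ) ≤ δ ^ (6 * CT + 6))
                      (clear * - h5 h6; linarith)
                    have h5 := pow_le_pow_left₀ (by (clear * - hY1 hδ0 hX1; positivity)) h4 2
                    have h6 : (δ ^ (6 * CT + 6) / 2) ^ 2 = δ ^ 2 * δ ^ (12 * CT + 10) / 4 := by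
                      rw [div_pow, ← pow_mul, ← pow_add]
                      congr 1
                      · congr 1
                        ring
                      · norm_num
                    rw [h6] at h5
                    have h7 : δ ^ 2 ≤ 1 / 4 := (pow_le_pow_left₀ hδ0.le hδ2 2).trans (by norm_num)
                    have h8 : 0 < δ ^ (12 * CT + 10) := by positivity
                    have h9 := mul_le_mul_of_nonneg_right h7 h8.le
                    (clear * - h5 h9; linarith)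
                  have h3 : 9 * η ≤ 9 / 128 * δ ^ (12 * CT + 10) := by
                    have h4 : η = δ ^ 7 * δ ^ (12 * CT + 10) := by
                      rw [hηdef, ← pow_add]
                      congr 1
                      ring
                    have h5 : δ ^ 7 ≤ 1 / 128 := (pow_le_pow_left₀ hδ0.le hδ2 7).trans (by norm_num)
                    have h8 : 0 < δ ^ (12 * CT + 10) := by positivity
                    rw [h4]
                    have h9 := mul_le_mul_of_nonneg_right h5 h8.le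
                    (clear * - hη hkey hr h1 h2 h4 h9; linarith)
                  have h8 : 0 < δ ^ (12 * CT + 10) := by positivity
                  (clear * - hη hkey hr h1 h2 h3; linarith)
                -- the popular part
                have hsplit : ∀ x, bphase X r cc φ x =
                    bphase X r (ccp64 cc φ w0 η q0) φ x + bphase X r (ccr64 cc φ w0 η q0) φ x := by
                  intro x
                  unfold bphase
                  rw [← add_mul, ccp_add_ccr64]
                have hpop : δ / 2 ≤ ‖form S c 1 f0 (Fin.snoc (α := fun _ => ZMod N → ℂ) f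
                    (bd S.Q q (bphase X r (ccp64 cc φ w0 η q0) φ)))‖ := by
                  have h1 : bphase X r cc φ = fun x =>
                    bphase X r (ccp64 cc φ w0 η q0) φ x + bphase X r (ccr64 cc φ w0 η q0) φ x := funext hsplit
                  rw [h1, bd_add, form_add64] at hform
                  have h2 := hform.trans (norm_add_le _ _)
                  (clear * - hrest h2; linarith)
                exact by
                  have hsum : bphase X r (ccp64 cc φ w0 η q0) φ = fun x =>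
                      ∑ s ∈ range ⌈1 / η⌉₊, bphase X r (ccs64 cc φ w0 η q0 s) φ x := by
                    funext x
                    unfold bphase
                    rw [sum_ccs64 cc φ w0 η q0 hq0 hη, sum_mul]
                  rw [hsum, bd_sum] at hpop
                  have hpop2 := hpop.trans (form_sum64 S c f0 f ⌈1 / η⌉₊ fun s =>
                    bd S.Q q (bphase X r (ccs64 cc φ w0 η q0 s) φ))
                  have hη1 : η ≤ 1 := pow_le_one₀ hδ0.le (by (clear * - hδ2 hδ0; linarith))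
                  have hceil : ((⌈1 / η⌉₊ : ℕ) : ℝ) ≤ 2 / η := by
                    have h1 := Nat.ceil_lt_add_one (by positivity : 0 ≤ 1 / η)
                    have h2 : 1 ≤ 1 / η := by rw [le_div_iff₀ hη]; (clear * - hη1; linarith)
                    have h3 : 2 / η = 1 / η + 1 / η := by ring
                    (clear * - h1 h2 h3; linarith)
                  obtain ⟨s', hs', hbig⟩ : ∃ s' ∈ range ⌈1 / η⌉₊, δ * η / 4 ≤ ‖form S c 1 f0
                      (Fin.snoc (α := fun _ => ZMod N → ℂ) f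
                        (bd S.Q q (bphase X r (ccs64 cc φ w0 η q0 s') φ)))‖ := by
                    by_contra hcon
                    push Not at hcon
                    have h0 : (range ⌈1 / η⌉₊).Nonempty := by
                      rw [nonempty_range_iff]
                      intro h0
                      rw [h0] at hpop2
                      simp only [range_zero, sum_empty] at hpop2
                      (clear * - hδ0 hpop2; linarith)
                    have h1 := sum_lt_sum_of_nonempty h0 hcon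
                    rw [sum_const, card_range, nsmul_eq_mul] at h1
                    have h2 : (⌈1 / η⌉₊ : ℝ) * (δ * η / 4) ≤ 2 / η * (δ * η / 4) :=
                      mul_le_mul_of_nonneg_right hceil (by positivity)
                    have h3 : 2 / η * (δ * η / 4) = δ / 2 := by field_simp; ring
                    (clear * - hpop2 h1 h2 h3; linarith)
                  refine ⟨ccs64 cc φ w0 η q0 s', th64 cc φ w0 η q0 s', ccs_cases64 cc φ w0 η q0 s', ?_, ?_⟩
                  · intro j hj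
                    exact by
                      refine (th_close64 cc φ w0 η q0 hq0 hw0 hj).trans ?_
                      rw [hw0def]
                      refine div_le_div_of_nonneg_right ?_ hX0.le
                      exact pow_le_pow_right₀ (by (clear * - hδ2 hδ0 hδi; linarith)) (by (clear * - S N δ p q X q0; omega))
                  · refine le_trans ?_ hbig
                    exact by
                      have h1 : δ ^ (12 * CT + 20) = δ ^ 2 * (δ * η) := by
                        rw [hηdef, ← pow_succ', ← pow_add]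
                        congr 1
                        ring
                      have h2 : δ ^ 2 ≤ 1 / 4 := (pow_le_pow_left₀ hδ0.le hδ2 2).trans (by norm_num)
                      have h3 : 0 < δ * η := by positivity
                      rw [h1]
                      have h9 := mul_le_mul_of_nonneg_right h2 h3.le
                      (clear * - h9; linarith)

theorem cch_add (φ : ℕ → ℝ) (cc : ℕ → ℂ) (j : ℕ) :
    cc j = cch false φ cc j + cch true φ cc j := by
  unfold cch
  simp only [Bool.false_eq_true, if_false, if_true]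
  split_ifs <;> simp

theorem al_arith_core (m : ℕ) (c : Fin (m + 1) → ℝ) (s ε : ℝ) (hs0 : 0 < s) (hε : 0 < ε)
    (hT : ArTopC m c s ε) : ∃ x0 : ℝ, 0 < x0 ∧ ∃ C : ℕ, ∃ σ : ℝ, 0 < σ ∧ ∃ D0 : ℝ,
    ∀ (S : Sys (m + 1)) (N : ℕ) [NeZero N] (lam : ℕ), D0 ≤ S.D → IG S c N x0 lam →
    ∀ δ : ℝ, S.D ^ (-σ) ≤ δ → δ ≤ 1 / 2 → (lam : ℝ) ≤ δ⁻¹ →
    ∀ (p : ℕ) [NeZero p], p.Prime → N = S.Q * p → ∀ q : ℕ, 1 ≤ q → (q : ℝ) ≤ δ⁻¹ →
    ∀ X : ℕ, 1 ≤ X → S.D ^ (s - σ) ≤ (X : ℝ) →
    ∀ q0 : ℕ, 1 ≤ q0 → (X : ℝ) * q0 * (S.Q * q) ≤ S.P (Fin.last m) * S.D ^ (-ε) →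
    ∀ (f0 : ZMod N → ℂ) (f : Fin m → ZMod N → ℂ), Adm δ⁻¹ S.Q f0 → (∀ i, Adm δ⁻¹ S.Q (f i)) →
    ∀ (r : ZMod p) (cc : ℕ → ℂ) (φ : ℕ → ℝ), (∀ j, ‖cc j‖ ≤ 1) →
    δ ≤ ‖form S c 1 f0 (Fin.snoc (α := fun _ => ZMod N → ℂ) f
      (blk S.Q fun y : ZMod p => bphase X r cc φ (y * (q : ZMod p)⁻¹)))‖ →
    ∃ (cc' : ℕ → ℂ) (θ : ℕ → ℝ), (∀ j, cc' j = cc j ∨ cc' j = 0) ∧
      (∀ j, cc' j ≠ 0 → dint (φ j - θ (j / q0)) ≤ δ⁻¹ ^ C / X) ∧
      δ ^ C ≤ ‖form S c 1 f0 (Fin.snoc (α := fun _ => ZMod N → ℂ) f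
        (blk S.Q fun y : ZMod p => bphase X r cc' φ (y * (q : ZMod p)⁻¹)))‖ := by
  obtain ⟨x0, hx0, C, σ, hσ, D0, H⟩ := al_half m c s ε hs0 hε hT
  refine ⟨x0, hx0, 2 * C, σ / 2, by positivity, max D0 1, ?_⟩
  intro S N _ lam hD hIG δ hδ1 hδ2 hlam p _ hp hN q hq hqδ X hX1 hX q0 hq0 hXq f0 f hf0 hf r cc φ
    hcc hform
  have hD1 : 1 ≤ S.D := (le_max_right _ _).trans hD
  have hDp : 0 < S.D := by (clear * - hD1; linarith)
  have hδ0 : 0 < δ := (Real.rpow_pos_of_pos hDp _).trans_le hδ1
  have hQ0 : (0 : ℝ) < S.Q := (Real.rpow_pos_of_pos hDp _).trans_le hIG.good.Q1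
  have hinv : δ⁻¹ ≤ (δ ^ 2)⁻¹ := by
    rw [← inv_pow]
    have h1 : 1 ≤ δ⁻¹ := by
      rw [le_inv_comm₀ one_pos hδ0]
      (clear * - hδ2 hδ0; linarith)
    exact le_self_pow₀ h1 (by norm_num)
  have hcast : δ ≤ ‖form S c 1 f0 (Fin.snoc (α := fun _ => ZMod N → ℂ) f
      (bd S.Q q (bphase X r cc φ)))‖ := hform
  -- a class with large form
  exact by
    have hspl : bphase X r cc φ = fun z => bphase X r (cch false φ cc) (phh false φ) z +
        bphase X r (cch true φ cc) (phh true φ) z := by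
      rw [bphase_phh X r false φ cc (cch false φ cc) fun j hj => hj,
        bphase_phh X r true φ cc (cch true φ cc) fun j hj => hj]
      funext z
      unfold bphase
      rw [← add_mul, ← cch_add]
    obtain ⟨b, hb⟩ : ∃ b : Bool, δ / 2 ≤ ‖form S c 1 f0 (Fin.snoc (α := fun _ => ZMod N → ℂ) f
        (bd S.Q q (bphase X r (cch b φ cc) (phh b φ))))‖ := by
      by_contra hcon
      push Not at hcon
      have h1 := hcon false
      have h2 := hcon true
      rw [hspl, bd_add, form_add64] at hcast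
      have h3 := hcast.trans (norm_add_le _ _)
      (clear * - h1 h2 h3; linarith)
    have hδδ : δ ^ 2 ≤ δ / 2 := by
      rw [sq]
      have := mul_le_mul_of_nonneg_left hδ2 hδ0.le
      (clear * - this; linarith)
    obtain ⟨cc', θ, h1, h2, h3⟩ := H S N lam ((le_max_left _ _).trans hD) hIG (δ ^ 2) (by
        have h := pow_le_pow_left₀ (Real.rpow_nonneg hDp.le _) hδ1 2
        rw [← Real.rpow_natCast (S.D ^ (-(σ / 2))) 2, ← Real.rpow_mul hDp.le] at h
        refine le_trans (le_of_eq ?_) h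
        congr 1
        push_cast
        ring) (by
        have := (pow_le_pow_left₀ hδ0.le hδ2 2)
        norm_num at this
        (clear * - hδ2 hδ0 hδδ; linarith)) (hlam.trans hinv) p hp hN q hq (hqδ.trans hinv) X hX1 (by
        refine le_trans ?_ hX
        exact Real.rpow_le_rpow_of_exponent_le hD1 (by (clear * - hσ; linarith))) q0 hq0 hXq f0 f
      (hf0.mono hinv hQ0 le_rfl) (fun i => (hf i).mono hinv hQ0 le_rfl) r (cch b φ cc) (phh b φ)
      (by
        intro j
        rcases cch_cases b φ cc j with h | h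
        · rw [h]
          exact hcc j
        · rw [h, norm_zero]
          exact zero_le_one) (phh_sub b φ) (hδδ.trans hb)
    have hne : ∀ j, cc' j ≠ 0 → cch b φ cc j ≠ 0 := by
      intro j hj
      rcases h1 j with h | h
      · rwa [h] at hj
      · exact absurd h hj
    refine ⟨cc', θ, ?_, ?_, ?_⟩
    · intro j
      rcases h1 j with h | h
      · rw [h]
        exact cch_cases b φ cc j
      · exact Or.inr h
    · intro j hj
      have h4 := h2 j hj
      rw [cch_phh b φ cc (hne j hj)] at h4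
      have h5 : dint (φ j - θ (j / q0)) ≤ |Int.fract (φ j) - θ (j / q0)| := by
        refine (dint_le_abs_sub _ ⌊φ j⌋).trans (le_of_eq ?_)
        congr 1
        have := Int.fract_add_floor (φ j)
        (clear * - this; linarith)
      refine h5.trans (h4.trans (le_of_eq ?_))
      rw [← inv_pow, ← pow_mul]
    · rw [bphase_phh X r b φ cc cc' hne, ← pow_mul] at h3
      exact h3

end

end Pool.Agent.Helper91.NX2

end
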