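import Pool.Agent.Helper23.MC.L01_a1
import Pool.Agent.Helper23.MC.L01_a12
import Pool.Agent.Helper23.MC.L01_a13
import Pool.Agent.Helper23.MC.L01_a4
import Pool.Agent.Helper23.MC.L01_a5
import Pool.Agent.Helper23.MC.L01_a7

/-!
Parts of Helper8.NX.BaseLS, Helper30.NX.LinForms
-/

attribute [local instance 5000]
  Pool.Agent.Helper23.MC.Inst.rCharZero Pool.Agent.Helper23.MC.Inst.rALM
  Pool.Agent.Helper23.MC.Inst.rARM Pool.Agent.Helper23.MC.Inst.rALSM
  Pool.Agent.Helper23.MC.Inst.rARSM Pool.Agent.Helper23.MC.Inst.rARRLE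
  Pool.Agent.Helper23.MC.Inst.rALRLE Pool.Agent.Helper23.MC.Inst.rARRLT
  Pool.Agent.Helper23.MC.Inst.rALRLT Pool.Agent.Helper23.MC.Inst.rPMRLT
  Pool.Agent.Helper23.MC.Inst.rMPRLT Pool.Agent.Helper23.MC.Inst.rPMM
  Pool.Agent.Helper23.MC.Inst.rMPM Pool.Agent.Helper23.MC.Inst.rPMSM
  Pool.Agent.Helper23.MC.Inst.rMPSM Pool.Agent.Helper23.MC.Inst.rEAOL
  Pool.Agent.Helper23.MC.Inst.rIOR Pool.Agent.Helper23.MC.Inst.rISOR
  Pool.Agent.Helper23.MC.Inst.rNZD Pool.Agent.Helper23.MC.Inst.rcCharZero
  Pool.Agent.Helper23.MC.Inst.rcNZD Pool.Agent.Helper23.MC.Inst.zCharZero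
  Pool.Agent.Helper23.MC.Inst.zALM Pool.Agent.Helper23.MC.Inst.zARM
  Pool.Agent.Helper23.MC.Inst.zALSM Pool.Agent.Helper23.MC.Inst.zARSM
  Pool.Agent.Helper23.MC.Inst.zIOR Pool.Agent.Helper23.MC.Inst.zISOR
  Pool.Agent.Helper23.MC.Inst.zNZD Pool.Agent.Helper23.MC.Inst.qCharZero
  Pool.Agent.Helper23.MC.Inst.mR Pool.Agent.Helper23.MC.Inst.mC Pool.Agent.Helper23.MC.Inst.mRC
  Pool.Agent.Helper23.MC.Inst.rPSM Pool.Agent.Helper23.MC.Inst.rCSM
  Pool.Agent.Helper23.MC.Inst.cAdd Pool.Agent.Helper23.MC.Inst.cAddM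
  Pool.Agent.Helper23.MC.Inst.cMul Pool.Agent.Helper23.MC.Inst.cMon

section

set_option autoImplicit false

open Finset

open scoped BigOperators ComplexConjugate

namespace Pool.Agent.Helper57.NX

noncomputable section

theorem l1_two8 {N : ℕ} [NeZero N] {B X : ℝ} {f : ZMod N → ℂ} (h : TV B X f) (hX : 0 < X)
    (a b : ℤ) : 𝔼 x, ‖f (x + (a : ZMod N)) - f (x + (b : ZMod N))‖ ≤
      |(a : ℝ) - b| * (B * (1 / X + 1 / N)) := by
  have h1 := h.l1_shift hX (a - b)
  rw [← expect_shift (fun x => ‖f (x + ((a - b : ℤ) : ZMod N)) - f x‖) (b : ZMod N)] at h1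
  rw [mul_assoc] at h1
  push_cast at h1
  refine le_trans (le_of_eq (expect_congr rfl fun x _ => ?_)) h1
  congr 3
  ring

theorem base_large (hES : ES0) (m : ℕ) (c : Fin (m + 1) → ℝ) (hc : StrictMono c)
    (hc0 : ∀ i, 0 < c i) (hcn : ∀ i (n : ℕ), c i ≠ n) (a : ℝ) :
    ∃ εb : ℝ, 0 < εb ∧ ∀ ε : ℝ, 0 < ε → ε ≤ εb →
    ∃ x0 : ℝ, 0 < x0 ∧ ∃ σ : ℝ, 0 < σ ∧ ∃ D0 : ℝ,
    ∀ (S : Sys (m + 1)) (N : ℕ) [NeZero N], D0 ≤ S.D → Good S c N x0 →
    ∀ X : ℝ, S.Q * S.D ^ (c (Fin.last m) - 2 * εb) ≤ X →
    ∀ f : ZMod N → ℂ, Adm (S.D ^ σ) X f →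
    ∀ θ : ZMod N → Fin m → ℝ,
    ∀ E : Finset (ZMod N), (∀ x ∈ E, (∀ i, |θ x i * S.P i.castSucc| ≤ S.D ^ a) ∧
      ∃ i, S.D ^ (1 / 4 : ℝ) ≤ |θ x i * S.P i.castSucc|) →
    ∀ K : ℕ, S.D ^ (1 - ε) ≤ (K : ℝ) + 1 → (K : ℝ) ≤ S.D ^ (1 - ε) →
    𝔼 x, (if x ∈ E then locCorr S c f θ K x else 0) ≤ S.D ^ (-σ) := by
  obtain ⟨xE, hxE, σE, hσE, DE, HE⟩ := hES m 0 (fun i => c i.castSucc)
    (hc.injective.comp (Fin.castSucc_injective m)) (fun i n => hcn _ n) 4 a (1 / 4)
    (by norm_num) (by norm_num)
  set y := min xE 1 with hy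
  have hy0 : 0 < y := lt_min hxE one_pos
  have hy1 : y ≤ 1 := min_le_right _ _
  have hyE : y ≤ xE := min_le_left _ _
  refine ⟨y / 16, by (clear * - hxE; positivity), fun ε hε hεy => ⟨ε / 2, by (clear * - hε; positivity), ?_⟩⟩
  exact by
    obtain ⟨σ, hσ0, hσ1, hσ2, hσ3⟩ : ∃ σ : ℝ, 0 < σ ∧ σ ≤ ε / 4 ∧ σ ≤ y / 32 ∧ σ ≤ σE / 2 :=
      ⟨min (ε / 4) (min (y / 32) (σE / 2)), by (clear * - hε hxE hσE; positivity), min_le_left _ _,
        (min_le_right _ _).trans (min_le_left _ _), (min_le_right _ _).trans (min_le_right _ _)⟩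
    set C := Lc8 (c (Fin.last m)) with hC
    have hC0 : 0 ≤ C := Lc8_nonneg _
    have hev : ∀ᶠ D : ℝ in Filter.atTop, DE ≤ D ∧ 1 ≤ D ∧ 5 * D ^ (-σE) ≤ D ^ (-σ) ∧
        20 * D ^ (-(7 * y / 16)) ≤ D ^ (-σ) ∧ 10 * D ^ (-(ε / 2)) ≤ D ^ (-σ) ∧
        10 * C * D ^ (-(5 * y / 16)) ≤ D ^ (-σ) ∧ 10 * D ^ (-(1 : ℝ)) ≤ D ^ (-σ) ∧
        2 * D ^ (-(1 - ε)) ≤ D ^ (-(0 : ℝ)) ∧ 2 * D ^ (-(-(1 - y))) ≤ D ^ (-(-(1 - y / 2))) := by
      filter_upwards [Filter.eventually_ge_atTop DE, Filter.eventually_ge_atTop (1 : ℝ),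
        ev8 5 σE σ (by (clear * - hσ0 hσ3; linarith)), ev8 20 (7 * y / 16) σ (by (clear * - hεy hσ0 hσ1; linarith)), ev8 10 (ε / 2) σ (by (clear * - hσ0 hσ1; linarith)),
        ev8 (10 * C) (5 * y / 16) σ (by (clear * - hεy hσ0 hσ1; linarith)), ev8 10 1 σ (by (clear * - hy1 hεy hσ0 hσ1; linarith)),
        ev8 2 (1 - ε) 0 (by (clear * - hy1 hεy hσ0 hσ1; linarith)), ev8 2 (-(1 - y)) (-(1 - y / 2)) (by (clear * - hεy hσ0 hσ1; linarith))]
        with D h1 h2 h3 h4 h5 h6 h7 h8 h9
      exact ⟨h1, h2, h3, h4, h5, h6, h7, h8, h9⟩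
    obtain ⟨D0, hD0⟩ := Filter.eventually_atTop.1 hev
    refine ⟨σ, hσ0, D0, ?_⟩
    intro S N _ hD hG X hX f hf θ E hE K hK1 hK2
    obtain ⟨hDE, hD1, e1, e2, e3, e4, e5, e6, e7⟩ := hD0 S.D hD
    have hDp : 0 < S.D := by (clear * - hy1 hεy hσ0 hσ1 hD1; linarith)
    rw [neg_neg, neg_neg] at e7
    rw [neg_zero, Real.rpow_zero, Real.rpow_neg hDp.le, ← div_eq_mul_inv,
      div_le_one (Real.rpow_pos_of_pos hDp _)] at e6
    obtain ⟨hX0, hP0, hPW, hW⟩ := sizes8 (b := 2 * (y / 16))
      (by positivity) hD1 hc0 hG hX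
    have hN : 0 < (N : ℝ) := by exact_mod_cast Nat.pos_of_ne_zero (NeZero.ne N)
    -- the window length
    set K2 := ⌊S.D ^ (1 - y / 2)⌋₊ with hK2d
    exact by
      have hK2u : (K2 : ℝ) ≤ S.D ^ (1 - y / 2) := Nat.floor_le (Real.rpow_nonneg hDp.le _)
      have h1y : 1 ≤ S.D ^ (1 - y) := Real.one_le_rpow hD1 (by (clear * - hy1; linarith))
      have hK2l : S.D ^ (1 - y) ≤ K2 := by
        have := Nat.lt_floor_add_one (S.D ^ (1 - y / 2))
        (clear * - e7 h1y this; linarith)
      have hK2one : 1 ≤ K2 := by exact_mod_cast h1y.trans hK2l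
      have hKhalf : S.D ^ (1 - ε) / 2 ≤ K := by (clear * - hK1 e6; linarith)
      have hK0 : 0 < (K : ℝ) := lt_of_lt_of_le (by (clear * - hD1; positivity)) hKhalf
      exact by
        have hKone : 1 ≤ K := by exact_mod_cast hK0
        have hT0 : 0 < (S.T : ℝ) := lt_of_lt_of_le (Real.rpow_pos_of_pos hDp _) hG.T1
        have hK2D : (K2 : ℝ) ≤ S.D := by
          refine hK2u.trans ?_
          calc S.D ^ (1 - y / 2) ≤ S.D ^ (1 : ℝ) :=
                Real.rpow_le_rpow_of_exponent_le hD1 (by (clear * - hεy hσ0 hσ1; linarith))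
            _ = S.D := Real.rpow_one _
        -- pointwise bound
        have key : ∀ x : ZMod N, (if x ∈ E then locCorr S c f θ K x else 0) ≤
            (S.D ^ (-σE) + (2 * K2 / K + 2 * K / S.T)) +
              𝔼 i ∈ range S.T, 𝔼 l ∈ range K2, ‖f (x + (S.a c (Fin.last m) (S.u + i + l) : ZMod N))
              - f (x + (S.a c (Fin.last m) (S.u + i) : ZMod N))‖ := by
          intro x
          have hnn : 0 ≤ 𝔼 i ∈ range S.T, 𝔼 l ∈ range K2,
              ‖f (x + (S.a c (Fin.last m) (S.u + i + l) : ZMod N))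
              - f (x + (S.a c (Fin.last m) (S.u + i) : ZMod N))‖ :=
            expect_nonneg fun i _ => expect_nonneg fun l _ => norm_nonneg _
          have hp := Real.rpow_pos_of_pos hDp (-σE)
          split_ifs with hx
          · refine (locCorr_le8 f hf.bdd θ K K2 hKone hK2one x).trans ?_
            exact by
              have h3 : 𝔼 i ∈ range S.T, ‖𝔼 l ∈ range K2,
                  (f (x + (S.a c (Fin.last m) (S.u + i + l) : ZMod N)) *
                    e (ph8 S c (θ x) (S.u + i + l)))‖ ≤ 𝔼 i ∈ range S.T, (S.D ^ (-σE) +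
                  𝔼 l ∈ range K2, ‖f (x + (S.a c (Fin.last m) (S.u + i + l) : ZMod N))
                  - f (x + (S.a c (Fin.last m) (S.u + i) : ZMod N))‖) := by
                refine expect_le_expect fun i hi => ?_
                refine (win_large8 f hf.bdd (θ x) K2 (S.u + i) x).trans (add_le_add ?_ le_rfl)
                have hiT : (i : ℝ) ≤ S.T := by exact_mod_cast (mem_range.1 hi).le
                have h4 := HE S.D hDE S.ρ hG.ρ0 hG.ρ1 (fun i => θ x i * S.P i.castSucc) (hE x hx).1
                  (hE x hx).2 0 (by simp) (S.u + i) K2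
                  (by push_cast; have := hG.u1; have : (0 : ℝ) ≤ i := Nat.cast_nonneg _; linarith)
                  (by push_cast; have := hG.u2; (clear * - hK2D hiT this; linarith))
                  ((Real.rpow_le_rpow_of_exponent_le hD1 (by (clear * - hyE; linarith))).trans hK2l)
                rw [expect_Ico8] at h4
                refine le_trans (le_of_eq ?_) h4
                congr 1
                refine expect_congr rfl fun l _ => ?_
                simp [ph8, Sys.t]
              rw [expect_add_distrib, expect_const (nonempty_range_iff.2 (by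
                rintro h0; rw [h0] at hT0; simp at hT0))] at h3
              (clear * - h3; linarith)
          · (clear * - hD1 hK2one hKone hT0; positivity)
        refine (expect_le_expect fun x _ => key x).trans ?_
        rw [expect_add_distrib, expect_const univ_nonempty]
        have hsh : 𝔼 x : ZMod N, 𝔼 i ∈ range S.T, 𝔼 l ∈ range K2,
            ‖f (x + (S.a c (Fin.last m) (S.u + i + l) : ZMod N))
              - f (x + (S.a c (Fin.last m) (S.u + i) : ZMod N))‖
            ≤ 2 * C * S.D ^ (-(5 * y / 16)) + 2 * S.D ^ (-(1 : ℝ)) := by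
          rw [expect_comm]
          have hpos : 0 ≤ 2 * C * S.D ^ (-(5 * y / 16)) + 2 * S.D ^ (-(1 : ℝ)) := by (clear * - hC0 hD1; positivity)
          refine expect_le_of5 _ _ hpos fun i hi => ?_
          rw [expect_comm]
          refine expect_le_of5 _ _ hpos fun l hl => ?_
          have hiT : (i : ℝ) ≤ S.T := by exact_mod_cast (mem_range.1 hi).le
          have hlK : (l : ℝ) ≤ K2 := by exact_mod_cast (mem_range.1 hl).le
          refine (l1_two8 hf.tv hX0 _ _).trans ?_
          have h5 := adiff8 (c := c) (Fin.last m) (k := S.u + i) (j := l) hD1 hG.ρ0 hG.ρ1 hP0.le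
            (by push_cast; have := hG.u1; have : (0 : ℝ) ≤ i := Nat.cast_nonneg _; linarith)
            (by push_cast; have := hG.u2; (clear * - hK2D hiT hlK this; linarith))
          have h6 : (l : ℝ) / S.D ≤ S.D ^ (-(y / 2)) := by
            rw [div_le_iff₀ hDp]
            calc (l : ℝ) ≤ S.D ^ (1 - y / 2) := hlK.trans hK2u
              _ = S.D ^ (-(y / 2)) * S.D := by
                  nth_rewrite 3 [← Real.rpow_one S.D]
                  rw [← Real.rpow_add hDp]
                  congr 1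
                  ring
          have h7 : |(S.a c (Fin.last m) (S.u + i + l) : ℝ) - S.a c (Fin.last m) (S.u + i)| ≤
              C * (S.P (Fin.last m) * S.D ^ (-(y / 2))) + 1 :=
            h5.trans (by (clear * - h6 hP0 hC0; gcongr))
          have hWn : 0 ≤ S.D ^ σ * (1 / X + 1 / N) := by (clear * - hD1 hX0 hN; positivity)
          calc |(S.a c (Fin.last m) (S.u + i + l) : ℝ) - S.a c (Fin.last m) (S.u + i)| *
                (S.D ^ σ * (1 / X + 1 / N))
              ≤ (C * (S.P (Fin.last m) * S.D ^ (-(y / 2))) + 1) * (S.D ^ σ * (1 / X + 1 / N)) :=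
                mul_le_mul_of_nonneg_right h7 hWn
            _ = C * (S.D ^ (-(y / 2)) * S.D ^ σ) * (S.P (Fin.last m) * (1 / X + 1 / N))
                + S.D ^ σ * (1 / X + 1 / N) := by ring
            _ ≤ C * (S.D ^ (-(y / 2)) * S.D ^ σ) * (2 * S.D ^ (ε / 2 + 2 * (y / 16)))
                + S.D ^ σ * (2 * S.D ^ (2 * (y / 16) - 2)) := by (clear * - hPW hC0 hD1 hW; gcongr)
            _ = 2 * C * S.D ^ (-(y / 2) + σ + (ε / 2 + 2 * (y / 16)))
                + 2 * S.D ^ (σ + (2 * (y / 16) - 2)) := by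
                rw [Real.rpow_add hDp (-(y / 2) + σ), Real.rpow_add hDp (-(y / 2)),
                  Real.rpow_add hDp σ]
                ring
            _ ≤ 2 * C * S.D ^ (-(5 * y / 16)) + 2 * S.D ^ (-(1 : ℝ)) := by
                gcongr
                · (clear * - hεy hσ0 hσ1; linarith)
                · (clear * - hy1 hεy hσ0 hσ1; linarith)
        have h8 : 2 * (K2 : ℝ) / K ≤ 4 * S.D ^ (-(7 * y / 16)) := by
          rw [div_le_iff₀ hK0]
          calc 2 * (K2 : ℝ) ≤ 2 * S.D ^ (1 - y / 2) := by (clear * - hK2u; linarith)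
            _ ≤ 2 * S.D ^ (-(7 * y / 16) + (1 - ε)) := by
                gcongr
                (clear * - hεy; linarith)
            _ = 4 * S.D ^ (-(7 * y / 16)) * (S.D ^ (1 - ε) / 2) := by
                rw [Real.rpow_add hDp]
                ring
            _ ≤ _ := by gcongr
        exact by
          have h9 : 2 * (K : ℝ) / S.T ≤ 2 * S.D ^ (-(ε / 2)) := by
            rw [div_le_iff₀ hT0]
            calc 2 * (K : ℝ) ≤ 2 * S.D ^ (1 - ε) := by (clear * - hK2; linarith)
              _ = 2 * S.D ^ (-(ε / 2)) * S.D ^ (1 - ε / 2) := by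
                  rw [mul_assoc, ← Real.rpow_add hDp]
                  congr 2
                  ring
              _ ≤ _ := by
                  have := hG.T1
                  (clear * - this hD1; gcongr)
          (clear * - e1 e2 e3 e4 e5 hsh h8 h9; linarith)

/-- replacing the average over `j` by the average over `z` -/
theorem gaps8 {N : ℕ} [NeZero N] {f : ZMod N → ℂ} {B X : ℝ} (hf : Adm B X f) (hX : 0 < X)
    (b : ℕ → ℤ) (K : ℕ) (hK : 1 ≤ K) (hb : ∀ j < K, b j ≤ b (j + 1)) (G R : ℝ) (hG : 0 < G)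
    (hR : 0 ≤ R) (hgap : ∀ j < K, |((b (j + 1) : ℝ) - b j) - G| ≤ R) (hRG : R ≤ G / 2) :
    ∃ Z : ℕ, K * G / 2 ≤ Z ∧ 𝔼 x, ‖𝔼 j ∈ range K, f (x + (b j : ZMod N))‖ ≤
      nrm (A Z f) + ((G + R) * (B * (1 / X + 1 / N)) + 4 * (R / G)) := by
  have hKr : 0 < (K : ℝ) := by exact_mod_cast hK
  have hN : 0 < (N : ℝ) := by exact_mod_cast Nat.pos_of_ne_zero (NeZero.ne N)
  have hB : 0 ≤ B := hf.tv.nonneg
  set Z := (b K - b 0).toNat with hZ
  set g : ℕ → ℕ := fun j => (b (j + 1) - b j).toNat with hg
  have hgr : ∀ j < K, (g j : ℝ) = (b (j + 1) : ℝ) - b j := by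
    intro j hj
    have h1 : ((g j : ℕ) : ℤ) = b (j + 1) - b j :=
      Int.toNat_of_nonneg (by have := hb j hj; omega)
    have h2 : (((g j : ℕ) : ℤ) : ℝ) = ((b (j + 1) - b j : ℤ) : ℝ) := by rw [h1]
    push_cast at h2
    exact h2
  exact by
    have hsum : ∑ j ∈ range K, (g j : ℝ) = Z := by
      have h1 : ((Z : ℕ) : ℤ) = b K - b 0 :=
        Int.toNat_of_nonneg (by have := (split8 f b K hb 0).1; omega)
      have h2 : (((Z : ℕ) : ℤ) : ℝ) = ((b K - b 0 : ℤ) : ℝ) := by rw [h1]
      push_cast at h2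
      rw [h2, ← Finset.sum_range_sub (fun j => (b j : ℝ)) K]
      exact sum_congr rfl fun j hj => hgr j (mem_range.1 hj)
    have hZG : |(Z : ℝ) - K * G| ≤ K * R := by
      rw [← hsum]
      have h1 : ∑ j ∈ range K, (g j : ℝ) - K * G = ∑ j ∈ range K, ((g j : ℝ) - G) := by
        rw [sum_sub_distrib, sum_const, card_range, nsmul_eq_mul]
      rw [h1]
      refine (abs_sum_le_sum_abs _ _).trans ?_
      refine (sum_le_card_nsmul _ _ R fun j hj => ?_).trans (le_of_eq ?_)
      · rw [hgr j (mem_range.1 hj)]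
        exact hgap j (mem_range.1 hj)
      · rw [card_range, nsmul_eq_mul]
    have hZl : K * G / 2 ≤ Z := by
      have h1 := (abs_le.1 hZG).1
      have h2 : K * R ≤ K * (G / 2) := mul_le_mul_of_nonneg_left hRG hKr.le
      (clear * - h1 h2; linarith)
    have hZ0 : 0 < (Z : ℝ) := lt_of_lt_of_le (by (clear * - hK hG; positivity)) hZl
    refine ⟨Z, hZl, ?_⟩
    have hWn : 0 ≤ B * (1 / X + 1 / (N : ℝ)) := by (clear * - hB hX hN; positivity)
    -- pointwise
    have key : ∀ x : ZMod N, ‖𝔼 j ∈ range K, f (x + (b j : ZMod N))‖ ≤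
        ‖A Z f (x + (b 0 : ZMod N))‖ + (∑ j ∈ range K, ∑ z ∈ range (g j),
          ‖f (x + ((b j + z : ℤ) : ZMod N)) - f (x + (b j : ZMod N))‖) / Z + 4 * (R / G) := by
      intro x
      have hU : A Z f (x + (b 0 : ZMod N)) =
          (∑ j ∈ range K, ∑ z ∈ range (g j), f (x + (b j : ZMod N) + (z : ZMod N))) / Z := by
        unfold A
        rw [expect_eq_sum_div_card, card_range, (split8 f b K hb x).2]
      have hV : 𝔼 j ∈ range K, f (x + (b j : ZMod N)) =
          (∑ j ∈ range K, f (x + (b j : ZMod N))) / K := by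
        rw [expect_eq_sum_div_card, card_range]
      have hdec : 𝔼 j ∈ range K, f (x + (b j : ZMod N)) = A Z f (x + (b 0 : ZMod N))
          - (∑ j ∈ range K, ∑ z ∈ range (g j),
            (f (x + (b j : ZMod N) + (z : ZMod N)) - f (x + (b j : ZMod N)))) / Z
          + ∑ j ∈ range K, ((1 / (K : ℂ)) - (g j : ℂ) / Z) * f (x + (b j : ZMod N)) := by
        rw [hU, hV]
        simp only [sum_sub_distrib, sum_const, card_range, nsmul_eq_mul, sub_mul, sub_div,
          sum_div]
        have h1 : ∑ j ∈ range K, (g j : ℂ) * f (x + (b j : ZMod N)) / Z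
            = ∑ j ∈ range K, (g j : ℂ) / Z * f (x + (b j : ZMod N)) :=
          sum_congr rfl fun j _ => by ring
        have h2 : ∑ j ∈ range K, f (x + (b j : ZMod N)) / (K : ℂ)
            = ∑ j ∈ range K, 1 / (K : ℂ) * f (x + (b j : ZMod N)) :=
          sum_congr rfl fun j _ => by ring
        rw [h1, h2]
        ring
      rw [hdec]
      refine (norm_add_le _ _).trans (add_le_add ((norm_sub_le _ _).trans
        (add_le_add le_rfl ?_)) ?_)
      · rw [norm_div, Complex.norm_natCast]
        refine div_le_div_of_nonneg_right ?_ hZ0.le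
        refine (norm_sum_le _ _).trans (sum_le_sum fun j _ => (norm_sum_le _ _).trans
          (le_of_eq (sum_congr rfl fun z _ => ?_)))
        push_cast
        rw [add_assoc]
      · refine (norm_sum_le _ _).trans ?_
        exact by
          refine (sum_le_card_nsmul _ _ (4 * (R / G) / K) fun j hj => ?_).trans (le_of_eq ?_)
          · rw [norm_mul]
            exact by
              refine (mul_le_of_le_one_right (norm_nonneg _) (hf.bdd _)).trans ?_
              have h1 : (1 / (K : ℂ)) - (g j : ℂ) / Z = ((1 / (K : ℝ) - (g j : ℝ) / Z : ℝ) : ℂ) := by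
                push_cast; rfl
              rw [h1, Complex.norm_real, Real.norm_eq_abs]
              have h2 : 1 / (K : ℝ) - (g j : ℝ) / Z = (Z - K * g j) / (K * Z) := by
                (clear * - hZ0 hK; field_simp)
              rw [h2, abs_div, abs_of_pos (mul_pos hKr hZ0), div_le_iff₀ (mul_pos hKr hZ0)]
              have h3 := hgap j (mem_range.1 hj)
              rw [← hgr j (mem_range.1 hj)] at h3
              have h4 : |(Z : ℝ) - K * g j| ≤ 2 * (K * R) := by
                have h5 : (Z : ℝ) - K * g j = (Z - K * G) - K * (g j - G) := by ring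
                rw [h5]
                refine (abs_sub _ _).trans ?_
                rw [abs_mul, abs_of_pos hKr]
                have := mul_le_mul_of_nonneg_left h3 hKr.le
                (clear * - hZG this; linarith)
              refine h4.trans ?_
              have h6 : 4 * (R / G) / K * (K * Z) = 4 * (R / G) * Z := by
                (clear * - hK hZ0 hG; field_simp)
              rw [h6]
              have h7 : 2 * (K * R) = 4 * (R / G) * (K * G / 2) := by
                field_simp
                ring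
              rw [h7]
              exact mul_le_mul_of_nonneg_left hZl (by (clear * - hR hG; positivity))
          · rw [card_range, nsmul_eq_mul]
            field_simp
    exact by
      refine (expect_le_expect fun x _ => key x).trans ?_
      rw [expect_add_distrib, expect_add_distrib, expect_const univ_nonempty]
      have e1 : 𝔼 x : ZMod N, ‖A Z f (x + (b 0 : ZMod N))‖ = nrm (A Z f) :=
        expect_shift (fun x => ‖A Z f x‖) _
      have e2 : 𝔼 x : ZMod N, (∑ j ∈ range K, ∑ z ∈ range (g j),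
            ‖f (x + ((b j + z : ℤ) : ZMod N)) - f (x + (b j : ZMod N))‖) / Z
          ≤ (G + R) * (B * (1 / X + 1 / N)) := by
        rw [← expect_div, div_le_iff₀ hZ0, expect_sum_comm]
        have e3 : ∀ j ∈ range K, 𝔼 x : ZMod N, ∑ z ∈ range (g j),
            ‖f (x + ((b j + z : ℤ) : ZMod N)) - f (x + (b j : ZMod N))‖
            ≤ g j * ((G + R) * (B * (1 / X + 1 / N))) := by
          intro j hj
          rw [expect_sum_comm]
          refine (sum_le_card_nsmul _ _ ((G + R) * (B * (1 / X + 1 / N))) fun z hz => ?_).trans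
            (le_of_eq ?_)
          · refine (l1_two8 hf.tv hX _ _).trans (mul_le_mul_of_nonneg_right ?_ hWn)
            push_cast
            have h1 : (z : ℝ) ≤ g j := by exact_mod_cast (mem_range.1 hz).le
            have h2 := (abs_le.1 (hgap j (mem_range.1 hj))).2
            rw [← hgr j (mem_range.1 hj)] at h2
            rw [add_sub_cancel_left, Nat.abs_cast]
            (clear * - h1 h2; linarith)
          · rw [card_range, nsmul_eq_mul]
        refine (sum_le_sum e3).trans (le_of_eq ?_)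
        rw [← sum_mul, hsum]
        ring
      rw [e1]
      (clear * - e2; linarith)

/-- the averages over short windows are controlled by averages over intervals -/
theorem window_le8 {m N : ℕ} [NeZero N] {S : Sys (m + 1)} {c : Fin (m + 1) → ℝ}
    {f : ZMod N → ℂ} {B X : ℝ} (hf : Adm B X f) (hX : 0 < X) (hD : 1 ≤ S.D) (h0 : 0 ≤ S.ρ)
    (h1 : S.ρ ≤ 1) (i : Fin (m + 1)) (hci : 0 < c i) (hP : 0 < S.P i) (k K : ℕ) (hK : 1 ≤ K)
    (hk : S.D ≤ k) (hk3 : (k : ℝ) + K ≤ 3 * S.D) {r : ℝ} (hr : (K : ℝ) / S.D ≤ r)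
    (hRG : 1 + S.P i * c i / S.D * (Lc8 (c i - 1) * r) ≤
      S.P i * c i / S.D * (4 : ℝ) ^ (-|c i - 1|) / 2) :
    ∃ Z : ℕ, K * (S.P i * c i / S.D * (4 : ℝ) ^ (-|c i - 1|)) / 2 ≤ Z ∧
      𝔼 x, ‖𝔼 j ∈ range K, f (x + (S.a c i (k + j) : ZMod N))‖ ≤
      nrm (A Z f) + ((2 * (S.P i * c i / S.D * (4 : ℝ) ^ |c i - 1|)) * (B * (1 / X + 1 / N)) +
        4 * ((1 + S.P i * c i / S.D * (Lc8 (c i - 1) * r)) /
          (S.P i * c i / S.D * (4 : ℝ) ^ (-|c i - 1|)))) := by
  have hDp : 0 < S.D := by (clear * - hD; linarith)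
  have hN : 0 < (N : ℝ) := by exact_mod_cast Nat.pos_of_ne_zero (NeZero.ne N)
  have hB : 0 ≤ B := hf.tv.nonneg
  set M := S.P i * c i / S.D with hM
  have hM0 : 0 < M := by (clear * - hP hci hD; positivity)
  have htk := t_mem8 hD h0 h1 hk (by have : (0 : ℝ) ≤ K := Nat.cast_nonneg _; (clear * - hk3; linarith))
  exact by
    have hb8 := rpow_bounds8 (c i - 1) (S.t k) htk.1 htk.2
    set G := M * S.t k ^ (c i - 1) with hG
    set R := 1 + M * (Lc8 (c i - 1) * r) with hR
    have h4p : 0 < (4 : ℝ) ^ (-|c i - 1|) := by positivity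
    have hG0 : 0 < G := mul_pos hM0 (h4p.trans_le hb8.1)
    have hr0 : 0 ≤ r := le_trans (by (clear * - hK hD; positivity)) hr
    exact by
      have hR0 : 0 ≤ R := by
        have := Lc8_nonneg (c i - 1)
        (clear * - hP hci hD this hr0; positivity)
      have hGl : M * (4 : ℝ) ^ (-|c i - 1|) ≤ G := mul_le_mul_of_nonneg_left hb8.1 hM0.le
      have hGu : G ≤ M * (4 : ℝ) ^ |c i - 1| := mul_le_mul_of_nonneg_left hb8.2 hM0.le
      have hRG' : R ≤ G / 2 := by (clear * - hRG hGl; linarith)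
      have hstep : ∀ j < K, 1 ≤ S.t (k + j) ∧ S.t (k + (j + 1)) ≤ 4 ∧
          S.t (k + (j + 1)) - S.t (k + j) = 1 / S.D ∧ S.t (k + (j + 1)) - S.t k ≤ r := by
        intro j hj
        have hjK : (j : ℝ) + 1 ≤ K := by exact_mod_cast hj
        have hj0 : (0 : ℝ) ≤ j := Nat.cast_nonneg _
        have e1 := t_mem8 (S := S) (k := k + j) hD h0 h1 (by push_cast; (clear * - hk; linarith))
          (by push_cast; (clear * - hk3 hjK; linarith))
        have e2 := t_mem8 (S := S) (k := k + (j + 1)) hD h0 h1 (by push_cast; (clear * - hk; linarith))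
          (by push_cast; (clear * - hk3 hjK; linarith))
        refine ⟨e1.1, e2.2, ?_, ?_⟩
        · have := t_add8 (S := S) (k + j) 1
          rw [Nat.cast_one] at this
          rw [← this]
          rfl
        · rw [t_add8]
          refine le_trans ?_ hr
          push_cast
          (clear * - hjK hD; gcongr)
      have hmono : ∀ j < K, S.a c i (k + j) ≤ S.a c i (k + (j + 1)) := by
        intro j hj
        obtain ⟨e1, e2, e3, e4⟩ := hstep j hj
        unfold Sys.a
        refine Int.floor_le_floor (mul_le_mul_of_nonneg_left ?_ hP.le)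
        refine Real.rpow_le_rpow (by (clear * - e1; linarith)) ?_ hci.le
        have : 0 < 1 / S.D := by positivity
        (clear * - e3 this; linarith)
      exact by
        have hgap : ∀ j < K, |((S.a c i (k + (j + 1)) : ℝ) - S.a c i (k + j)) - G| ≤ R := by
          intro j hj
          obtain ⟨e1, e2, e3, e4⟩ := hstep j hj
          have hDi : 0 < 1 / S.D := by positivity
          obtain ⟨ξ, g1, g2, g3⟩ := mv8 (c i) (S.t (k + j)) (S.t (k + (j + 1))) e1 (by (clear * - e3 hDi; linarith))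
          have hf8 := floor8 (S.P i * S.t (k + (j + 1)) ^ c i) (S.P i * S.t (k + j) ^ c i)
          have htj : S.t k ≤ S.t (k + j) := by
            have := t_add8 (S := S) k j
            have h3 : 0 ≤ (j : ℝ) / S.D := by (clear * - hD; positivity)
            (clear * - this h3; linarith)
          have h5 : S.P i * S.t (k + (j + 1)) ^ c i - S.P i * S.t (k + j) ^ c i = M * ξ ^ (c i - 1) := by
            rw [← mul_sub, g3, e3, hM]
            (clear * - hD hci hP; field_simp)
          rw [h5] at hf8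
          have h6 := lip8 (c i - 1) (S.t k) ξ htk.1 (by (clear * - g1 htj; linarith)) (by (clear * - e2 g2; linarith))
          have h7 : |M * ξ ^ (c i - 1) - G| ≤ M * (Lc8 (c i - 1) * r) := by
            rw [hG, ← mul_sub, abs_mul, abs_of_pos hM0]
            refine mul_le_mul_of_nonneg_left (h6.trans ?_) hM0.le
            exact mul_le_mul_of_nonneg_left (by (clear * - e4 g2; linarith)) (Lc8_nonneg _)
          unfold Sys.a
          rw [abs_le] at hf8 h7 ⊢
          constructor <;> (clear * - hf8 h7; linarith [hf8.1, hf8.2, h7.1, h7.2])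
        obtain ⟨Z, hZ1, hZ2⟩ := gaps8 hf hX (fun j => S.a c i (k + j)) K hK hmono G R hG0 hR0 hgap hRG'
        have hKr : 0 < (K : ℝ) := by exact_mod_cast hK
        refine ⟨Z, le_trans ?_ hZ1, hZ2.trans ?_⟩
        · (clear * - hGl hK; gcongr)
        · have hWn : 0 ≤ B * (1 / X + 1 / (N : ℝ)) := by (clear * - hB hX hN; positivity)
          exact by
            gcongr
            (clear * - hRG hG0 hGl hGu; linarith)

theorem base_small (m : ℕ) (c : Fin (m + 1) → ℝ) (hc : StrictMono c)
    (hc0 : ∀ i, 0 < c i) (n : ℕ) : ∀ ε2 : ℝ, 0 < ε2 → ε2 ≤ 1 / 16 →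
    ∀ ε : ℝ, 0 < ε → ε ≤ ε2 →
    ∃ x0 : ℝ, 0 < x0 ∧ ∃ C : ℕ, ∃ σ : ℝ, 0 < σ ∧ ∃ D0 : ℝ,
    ∀ (S : Sys (m + 1)) (N : ℕ) [NeZero N], D0 ≤ S.D → Good S c N x0 →
    ∀ δ : ℝ, S.D ^ (-σ) ≤ δ → δ ≤ 1 / 2 →
    ∀ X : ℝ, S.Q * S.D ^ (c (Fin.last m) - 1 / 4) ≤ X →
    ∀ f : ZMod N → ℂ, Adm δ⁻¹ X f →
    ∀ θ : ZMod N → Fin m → ℝ,
    ∀ E : Finset (ZMod N), (∀ x ∈ E, ∀ i, |θ x i * S.P i.castSucc| ≤ S.D ^ ε2) →
    ∀ K : ℕ, S.D ^ (1 - ε) ≤ (K : ℝ) + 1 → (K : ℝ) ≤ S.D ^ (1 - ε) →
    δ ^ n ≤ 𝔼 x, (if x ∈ E then locCorr S c f θ K x else 0) →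
    ∀ L : ℕ, 1 ≤ L → (L : ℝ) ≤ S.P (Fin.last m) * S.D ^ (-(4 * ε2)) → δ ^ C ≤ nrm (A L f) := by
  intro ε2 hε2 hε2' ε hε hεε2
  -- constants
  set cl := c (Fin.last m) with hcl
  have hcl0 : 0 < cl := hc0 _
  set κ := (4 : ℝ) ^ (-|cl - 1|) with hκ
  have hκ0 : 0 < κ := by positivity
  set κ' := (4 : ℝ) ^ |cl - 1| with hκ'
  have hκ'0 : 0 < κ' := by positivity
  exact by
    set L1 := Lc8 (cl - 1) with hL1
    have hL10 : 0 ≤ L1 := Lc8_nonneg _
    set C4 := ∑ i : Fin m, Lc8 (c i.castSucc) with hC4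
    have hC40 : 0 ≤ C4 := sum_nonneg fun i _ => Lc8_nonneg _
    set C1 := 1 / (cl * κ) + L1 / κ with hC1
    have hC10 : 0 < C1 := by (clear * - hcl0 hL10; positivity)
    exact by
      set C2 := 4 * cl * κ' with hC2
      have hC20 : 0 < C2 := by positivity
      set C3 := 8 / (cl * κ) with hC3
      have hC30 : 0 < C3 := by positivity
      set Ct := 2 * Real.pi * C4 + 4 + 2 + C2 + 4 * C1 + C3 with hCt
      set σ := ε / (8 * (n + 1)) with hσ
      exact by
        have hσ0 : 0 < σ := by (clear * - hε; positivity)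
        have hn0 : (0 : ℝ) ≤ n := Nat.cast_nonneg _
        have hσn : σ * n ≤ ε / 8 := by
          rw [hσ, div_mul_eq_mul_div, div_le_div_iff₀ (by (clear * -; positivity)) (by norm_num)]
          (clear * - hε; nlinarith)
        have hσ1 : σ ≤ ε / 8 := by
          rw [hσ]
          refine div_le_div_of_nonneg_left hε.le (by norm_num) ?_
          (clear * -; linarith)
        have hev : ∀ᶠ D : ℝ in Filter.atTop, 1 ≤ D ∧ 2 * Ct * D ^ (-(ε / 2)) ≤ D ^ (-(ε / 8)) ∧
            2 * C1 * D ^ (-(ε / 2)) ≤ D ^ (-(0 : ℝ)) ∧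
            2 * D ^ (-(1 - 2 * ε2)) ≤ D ^ (-(0 : ℝ)) := by
          filter_upwards [Filter.eventually_ge_atTop (1 : ℝ), ev8 (2 * Ct) (ε / 2) (ε / 8) (by (clear * - hσ0 hσ1; linarith)),
            ev8 (2 * C1) (ε / 2) 0 (by (clear * - hσ0 hσ1; linarith)), ev8 2 (1 - 2 * ε2) 0 (by linarith)]
            with D h1 h2 h3 h4
          exact ⟨h1, h2, h3, h4⟩
        obtain ⟨D0, hD0⟩ := Filter.eventually_atTop.1 hev
        refine ⟨ε / 2, by (clear * - hε; positivity), n + 1, σ, hσ0, D0, ?_⟩
        intro S N _ hD hG δ hδ1 hδ2 X hX f hf θ E hE K hK1 hK2 hcor L hL1' hL2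
        obtain ⟨hD1, e1, e2, e3⟩ := hD0 S.D hD
        have hDp : 0 < S.D := by (clear * - hε2' hεε2 hσ0 hσ1 hD1; linarith)
        exact by
          have hδ0 : 0 < δ := (Real.rpow_pos_of_pos hDp _).trans_le hδ1
          rw [neg_zero, Real.rpow_zero] at e2
          rw [neg_zero, Real.rpow_zero, Real.rpow_neg hDp.le, ← div_eq_mul_inv,
            div_le_one (Real.rpow_pos_of_pos hDp _)] at e3
          obtain ⟨hX0, hP0, hPW, hW⟩ := sizes8 (b := 1 / 4) (by norm_num) hD1 hc0 hG hX
          have hN : 0 < (N : ℝ) := by exact_mod_cast Nat.pos_of_ne_zero (NeZero.ne N)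
          have hq : 0 < S.D ^ (-(ε / 2)) := Real.rpow_pos_of_pos hDp _
          -- monotonicity of powers
          have pw : ∀ α β : ℝ, α ≤ β → S.D ^ α ≤ S.D ^ β := fun α β h =>
            Real.rpow_le_rpow_of_exponent_le hD1 h
          set K3 := ⌊S.D ^ (1 - 2 * ε2)⌋₊ with hK3d
          have hK3u : (K3 : ℝ) ≤ S.D ^ (1 - 2 * ε2) := Nat.floor_le (Real.rpow_nonneg hDp.le _)
          exact by
            have hK3l : S.D ^ (1 - 2 * ε2) / 2 ≤ K3 := by
              have := Nat.lt_floor_add_one (S.D ^ (1 - 2 * ε2))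
              (clear * - e3 this; linarith)
            have hK30 : 0 < (K3 : ℝ) := lt_of_lt_of_le (by (clear * - hD1; positivity)) hK3l
            have hK3one : 1 ≤ K3 := by exact_mod_cast hK30
            have hKhalf : S.D ^ (1 - ε) / 2 ≤ K := by
              have := pw (1 - 2 * ε2) (1 - ε) (by (clear * - hεε2 hσ0 hσ1; linarith))
              (clear * - hK1 e3 this; linarith)
            have hK0 : 0 < (K : ℝ) := lt_of_lt_of_le (by positivity) hKhalf
            have hKone : 1 ≤ K := by exact_mod_cast hK0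
            exact by
              have hT0 : 0 < (S.T : ℝ) := lt_of_lt_of_le (Real.rpow_pos_of_pos hDp _) hG.T1
              have hK3D : (K3 : ℝ) ≤ S.D := by
                refine hK3u.trans ((pw (1 - 2 * ε2) 1 (by (clear * - hεε2 hσ0 hσ1; linarith))).trans (le_of_eq (Real.rpow_one _)))
              have hr : (K3 : ℝ) / S.D ≤ S.D ^ (-(2 * ε2)) := by
                rw [div_le_iff₀ hDp]
                calc (K3 : ℝ) ≤ S.D ^ (1 - 2 * ε2) := hK3u
                  _ = S.D ^ (-(2 * ε2)) * S.D := by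
                      nth_rewrite 3 [← Real.rpow_one S.D]
                      rw [← Real.rpow_add hDp]
                      congr 1
                      ring
              -- phases
              have key : ∀ x : ZMod N, (if x ∈ E then locCorr S c f θ K x else 0) ≤
                  (2 * Real.pi * (C4 * S.D ^ (-ε2)) + (2 * K3 / K + 2 * K / S.T)) +
                    𝔼 i ∈ range S.T, ‖𝔼 l ∈ range K3,
                      f (x + (S.a c (Fin.last m) (S.u + i + l) : ZMod N))‖ := by
                intro x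
                have hnn : 0 ≤ 𝔼 i ∈ range S.T, ‖𝔼 l ∈ range K3,
                      f (x + (S.a c (Fin.last m) (S.u + i + l) : ZMod N))‖ :=
                  expect_nonneg fun i _ => norm_nonneg _
                split_ifs with hx
                · refine (locCorr_le8 f hf.bdd θ K K3 hKone hK3one x).trans ?_
                  exact by
                    have h3 : 𝔼 i ∈ range S.T, ‖𝔼 l ∈ range K3,
                        (f (x + (S.a c (Fin.last m) (S.u + i + l) : ZMod N)) *
                          e (ph8 S c (θ x) (S.u + i + l)))‖ ≤ 𝔼 i ∈ range S.T, (‖𝔼 l ∈ range K3,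
                        f (x + (S.a c (Fin.last m) (S.u + i + l) : ZMod N))‖ +
                          2 * Real.pi * (C4 * S.D ^ (-ε2))) := by
                      refine expect_le_expect fun i hi => ?_
                      have hiT : (i : ℝ) ≤ S.T := by exact_mod_cast (mem_range.1 hi).le
                      refine win_small8 f hf.bdd (θ x) K3 (S.u + i) x (by (clear * - hC40 hD1; positivity)) fun l hl => ?_
                      have hlK : (l : ℝ) ≤ K3 := by exact_mod_cast (mem_range.1 hl).le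
                      unfold ph8
                      rw [← sum_sub_distrib, hC4, sum_mul]
                      refine (abs_sum_le_sum_abs _ _).trans (sum_le_sum fun i' _ => ?_)
                      rw [← mul_sub, abs_mul]
                      have h5 := tpow8 (S := S) (c i'.castSucc) (k := S.u + i) (j := l) hD1 hG.ρ0 hG.ρ1
                        (by push_cast; have := hG.u1; have : (0 : ℝ) ≤ i := Nat.cast_nonneg _; linarith)
                        (by push_cast; have := hG.u2; (clear * - hK3D hiT hlK this; linarith))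
                      have h6 : (l : ℝ) / S.D ≤ S.D ^ (-(2 * ε2)) := le_trans (by (clear * - hlK hD1; gcongr)) hr
                      have h7 : Lc8 (c i'.castSucc) * ((l : ℝ) / S.D) ≤
                          Lc8 (c i'.castSucc) * S.D ^ (-(2 * ε2)) :=
                        mul_le_mul_of_nonneg_left h6 (Lc8_nonneg _)
                      calc _ ≤ S.D ^ ε2 * (Lc8 (c i'.castSucc) * S.D ^ (-(2 * ε2))) :=
                            mul_le_mul (hE x hx i') (h5.trans h7) (abs_nonneg _) (Real.rpow_nonneg hDp.le _)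
                        _ = Lc8 (c i'.castSucc) * S.D ^ (-ε2) := by
                            rw [mul_left_comm, ← Real.rpow_add hDp]
                            congr 2
                            ring
                    rw [expect_add_distrib, expect_const (nonempty_range_iff.2 (by
                      rintro h0; rw [h0] at hT0; simp at hT0))] at h3
                    (clear * - h3; linarith)
                · (clear * - hC40 hD1 hK3one hKone hT0; positivity)
              have hcor2 := hcor.trans (expect_le_expect fun x _ => key x)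
              rw [expect_add_distrib, expect_const univ_nonempty, expect_comm] at hcor2
              -- windows
              have hwin : 𝔼 i ∈ range S.T, 𝔼 x : ZMod N, ‖𝔼 l ∈ range K3,
                  f (x + (S.a c (Fin.last m) (S.u + i + l) : ZMod N))‖ ≤
                  nrm (A L f) + (C2 + 4 * C1 + C3) * S.D ^ (-(ε / 2)) := by
                have hnn : 0 ≤ nrm (A L f) := nrm_nonneg _
                refine expect_le_of5 _ _ (by (clear * - hnn hcl0 hL10 hD1; positivity)) fun i hi => ?_
                have hiT : (i : ℝ) ≤ S.T := by exact_mod_cast (mem_range.1 hi).le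
                set P := S.P (Fin.last m) with hP
                have hM0 : 0 < P * cl / S.D := by (clear * - hP0 hcl0 hD1; positivity)
                -- `D / P` is small
                have hDP : S.D / P ≤ S.D ^ (-(ε / 2)) := by
                  rw [div_le_iff₀ hP0]
                  calc S.D = S.D ^ (-(ε / 2)) * S.D ^ (1 + ε / 2) := by
                        rw [← Real.rpow_add hDp]
                        nth_rewrite 1 [← Real.rpow_one S.D]
                        congr 1
                        ring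
                    _ ≤ S.D ^ (-(ε / 2)) * P := by
                        refine mul_le_mul_of_nonneg_left ?_ hq.le
                        calc S.D ^ (1 + ε / 2) ≤ S.D ^ ((2 : ℝ) + (cl - ε / 2)) := pw _ _ (by (clear * - hε2' hεε2 hcl0 hσ0 hσ1; linarith))
                          _ = S.D ^ (2 : ℝ) * S.D ^ (cl - ε / 2) := Real.rpow_add hDp _ _
                          _ ≤ S.Q * S.D ^ (cl - ε / 2) :=
                              mul_le_mul_of_nonneg_right hG.Q1 (Real.rpow_nonneg hDp.le _)
                          _ ≤ P := hG.P1 _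
                have hRG : (1 + P * cl / S.D * (L1 * S.D ^ (-(2 * ε2)))) / (P * cl / S.D * κ) ≤
                    C1 * S.D ^ (-(ε / 2)) := by
                  rw [add_div, hC1, add_mul]
                  refine add_le_add ?_ ?_
                  · calc 1 / (P * cl / S.D * κ) = 1 / (cl * κ) * (S.D / P) := by (clear * - hκ0 hD1 hcl0 hP0; field_simp)
                      _ ≤ _ := by (clear * - hDP hcl0; gcongr)
                  · calc P * cl / S.D * (L1 * S.D ^ (-(2 * ε2))) / (P * cl / S.D * κ)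
                        = L1 / κ * S.D ^ (-(2 * ε2)) := by (clear * - hP0 hcl0 hD1 hκ0; field_simp)
                      _ ≤ _ := by
                          have := pw (-(2 * ε2)) (-(ε / 2)) (by (clear * - hεε2 hσ0 hσ1; linarith))
                          (clear * - this hL10; gcongr)
                have hRG' : 1 + P * cl / S.D * (L1 * S.D ^ (-(2 * ε2))) ≤ P * cl / S.D * κ / 2 := by
                  rw [div_le_iff₀ (by (clear * - hP0 hcl0 hD1; positivity))] at hRG
                  have h5 : C1 * S.D ^ (-(ε / 2)) ≤ 1 / 2 := by (clear * - e2; linarith)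
                  have h6 := mul_le_mul_of_nonneg_right h5 (by (clear * - hP0 hcl0 hD1; positivity) : 0 ≤ P * cl / S.D * κ)
                  (clear * - hRG h6; linarith)
                obtain ⟨Z, hZ1, hZ2⟩ := window_le8 hf hX0 hD1 hG.ρ0 hG.ρ1 (Fin.last m) hcl0 hP0
                  (S.u + i) K3 hK3one
                  (by push_cast; have := hG.u1; have : (0 : ℝ) ≤ i := Nat.cast_nonneg _; linarith)
                  (by push_cast; have := hG.u2; (clear * - hK3D hiT this; linarith)) hr hRG'
                refine hZ2.trans ?_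
                have hZ0 : 0 < (Z : ℝ) := lt_of_lt_of_le (by (clear * - hK3one hP0 hcl0 hD1; positivity)) hZ1
                have hZone : 1 ≤ Z := by exact_mod_cast hZ0
                have h7 := nrm_A_mono hf.bdd L Z hL1' hZone
                have h8 : 2 * (L : ℝ) / Z ≤ C3 * S.D ^ (-(ε / 2)) := by
                  rw [div_le_iff₀ hZ0]
                  calc 2 * (L : ℝ) ≤ 2 * (P * S.D ^ (-(4 * ε2))) := by (clear * - hL2; linarith)
                    _ = C3 * S.D ^ (-(2 * ε2)) * (S.D ^ (1 - 2 * ε2) / 2 * (P * cl / S.D * κ) / 2) := by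
                        have h9 : S.D ^ (-(4 * ε2)) = S.D ^ (-(2 * ε2)) * S.D ^ (1 - 2 * ε2) / S.D := by
                          rw [← Real.rpow_add hDp, eq_div_iff hDp.ne']
                          nth_rewrite 2 [← Real.rpow_one S.D]
                          rw [← Real.rpow_add hDp]
                          congr 1
                          ring
                        rw [h9, hC3]
                        field_simp
                        ring
                    _ ≤ C3 * S.D ^ (-(ε / 2)) * Z := by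
                        have := pw (-(2 * ε2)) (-(ε / 2)) (by (clear * - hεε2 hσ0 hσ1; linarith))
                        refine mul_le_mul (by (clear * - this hcl0; gcongr)) (le_trans ?_ hZ1) (by (clear * - hD1 hP0 hcl0; positivity)) (by (clear * - hcl0 hD1; positivity))
                        (clear * - hK3l hP0 hcl0 hD1; gcongr)
                have h10 : 2 * (P * cl / S.D * κ') * (δ⁻¹ * (1 / X + 1 / N)) ≤ C2 * S.D ^ (-(ε / 2)) := by
                  have h11 : δ⁻¹ ≤ S.D ^ σ := by
                    rw [inv_le_comm₀ hδ0 (Real.rpow_pos_of_pos hDp _), ← Real.rpow_neg hDp.le]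
                    exact hδ1
                  have hWn : 0 ≤ 1 / X + 1 / (N : ℝ) := by (clear * - hX0 hN; positivity)
                  calc 2 * (P * cl / S.D * κ') * (δ⁻¹ * (1 / X + 1 / N))
                      = 2 * cl * κ' * (δ⁻¹ * (P * (1 / X + 1 / N)) * (1 / S.D)) := by (clear * - hN hX0 hδ0 hκ'0 hD1 hcl0 hP0; field_simp)
                    _ ≤ 2 * cl * κ' * (S.D ^ σ * (2 * S.D ^ (ε / 2 + 1 / 4)) * (1 / S.D)) := by (clear * - h11 hPW hP0 hX0 hN hD1 hcl0; gcongr)
                    _ = C2 * (S.D ^ σ * S.D ^ (ε / 2 + 1 / 4) * S.D ^ (-(1 : ℝ))) := by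
                        rw [Real.rpow_neg_one, hC2]
                        ring
                    _ = C2 * S.D ^ (σ + (ε / 2 + 1 / 4) + -(1 : ℝ)) := by
                        rw [Real.rpow_add hDp (σ + (ε / 2 + 1 / 4)), Real.rpow_add hDp σ]
                    _ ≤ _ := by
                        have := pw (σ + (ε / 2 + 1 / 4) + -(1 : ℝ)) (-(ε / 2)) (by (clear * - hε2' hεε2 hσ0 hσ1; linarith))
                        (clear * - this hcl0; gcongr)
                (clear * - hRG h7 h8 h10; linarith)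
              have h8 : 2 * (K3 : ℝ) / K ≤ 4 * S.D ^ (-(ε / 2)) := by
                rw [div_le_iff₀ hK0]
                calc 2 * (K3 : ℝ) ≤ 2 * S.D ^ (1 - 2 * ε2) := by (clear * - hK3u; linarith)
                  _ ≤ 2 * S.D ^ (-(ε / 2) + (1 - ε)) := by
                      have := pw (1 - 2 * ε2) (-(ε / 2) + (1 - ε)) (by (clear * - hεε2 hσ0 hσ1; linarith))
                      (clear * - this; linarith)
                  _ = 4 * S.D ^ (-(ε / 2)) * (S.D ^ (1 - ε) / 2) := by
                      rw [Real.rpow_add hDp]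
                      ring
                  _ ≤ _ := by (clear * - hKhalf hD1; gcongr)
              exact by
                have h9 : 2 * (K : ℝ) / S.T ≤ 2 * S.D ^ (-(ε / 2)) := by
                  rw [div_le_iff₀ hT0]
                  calc 2 * (K : ℝ) ≤ 2 * S.D ^ (1 - ε) := by (clear * - hK2; linarith)
                    _ = 2 * S.D ^ (-(ε / 2)) * S.D ^ (1 - ε / 2) := by
                        rw [mul_assoc, ← Real.rpow_add hDp]
                        congr 2
                        ring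
                    _ ≤ _ := by
                        have := hG.T1
                        (clear * - this hD1; gcongr)
                have h10 : 2 * Real.pi * (C4 * S.D ^ (-ε2)) ≤ 2 * Real.pi * C4 * S.D ^ (-(ε / 2)) := by
                  have := pw (-ε2) (-(ε / 2)) (by (clear * - hεε2 hσ0 hσ1; linarith))
                  rw [← mul_assoc]
                  (clear * - this hC40; gcongr)
                have h11 : δ ^ n ≤ nrm (A L f) + Ct * S.D ^ (-(ε / 2)) := by
                  have : Ct * S.D ^ (-(ε / 2)) = 2 * Real.pi * C4 * S.D ^ (-(ε / 2)) + 4 * S.D ^ (-(ε / 2)) +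
                    2 * S.D ^ (-(ε / 2)) + (C2 + 4 * C1 + C3) * S.D ^ (-(ε / 2)) := by
                    rw [hCt]; ring
                  (clear * - hcor2 hwin h8 h9 h10; linarith)
                have h12 : S.D ^ (-(ε / 8)) ≤ δ ^ n := by
                  calc S.D ^ (-(ε / 8)) ≤ S.D ^ (-(σ * n)) := pw _ _ (by (clear * - hσn; linarith))
                    _ = (S.D ^ (-σ)) ^ n := by
                        rw [← Real.rpow_natCast, ← Real.rpow_mul hDp.le]
                        congr 1
                        ring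
                    _ ≤ δ ^ n := pow_le_pow_left₀ (Real.rpow_nonneg hDp.le _) hδ1 n
                have h13 : δ ^ (n + 1) ≤ δ ^ n / 2 := by
                  rw [pow_succ]
                  have := mul_le_mul_of_nonneg_left hδ2 (pow_nonneg hδ0.le n)
                  (clear * - this; linarith)
                (clear * - e1 hcor2 hwin h8 h9 h10 h12 h13; linarith)

end

end Pool.Agent.Helper57.NX

end

section

set_option autoImplicit false

open Finset

open scoped BigOperators ComplexConjugate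

namespace Pool.Agent.Helper57.NX

noncomputable section

namespace LF

variable {N : ℕ} [NeZero N]

theorem l1_pair {B X : ℝ} {f : ZMod N → ℂ} (h : TV B X f) (hX : 0 < X) (u v : ℤ) :
    𝔼 x, ‖f (x + (u : ZMod N)) - f (x + (v : ZMod N))‖ ≤ |((u - v : ℤ) : ℝ)| * B * (1 / X + 1 / N) := by
  have h1 := h.l1_shift hX (u - v)
  have h2 := expect_shift (fun x : ZMod N => ‖f (x + ((u - v : ℤ) : ZMod N)) - f x‖) (v : ZMod N)
  rw [← h2] at h1
  refine le_trans (le_of_eq (Finset.expect_congr rfl fun x _ => ?_)) h1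
  congr 3
  push_cast
  ring

/-- replacing the arguments in a product costs the sum of the displacements -/
theorem expect_prod_diff {ι : Type} [Fintype ι] {B X : ℝ} (hX : 0 < X) (F : ZMod N → ℂ)
    (hF : ∀ x, ‖F x‖ ≤ 1) (g : ι → ZMod N → ℂ) (hg : ∀ i, Adm B X (g i)) (u v : ι → ℤ) (E : ι → ℝ)
    (hE : ∀ i, |((u i - v i : ℤ) : ℝ)| ≤ E i) :
    ‖(𝔼 x, F x * ∏ i, g i (x + (u i : ZMod N))) - 𝔼 x, F x * ∏ i, g i (x + (v i : ZMod N))‖
      ≤ (∑ i, E i) * (B * (1 / X + 1 / N)) := by
  rw [← Finset.expect_sub_distrib]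
  refine (RCLike.norm_expect_le (K := ℂ)).trans ?_
  have h1 : ∀ x : ZMod N, ‖F x * ∏ i, g i (x + (u i : ZMod N))
      - F x * ∏ i, g i (x + (v i : ZMod N))‖
      ≤ ∑ i, ‖g i (x + (u i : ZMod N)) - g i (x + (v i : ZMod N))‖ := by
    intro x
    rw [← mul_sub, norm_mul]
    calc _ ≤ 1 * ‖∏ i, g i (x + (u i : ZMod N)) - ∏ i, g i (x + (v i : ZMod N))‖ :=
          mul_le_mul_of_nonneg_right (hF x) (norm_nonneg _)
      _ ≤ _ := by
          rw [one_mul]
          exact norm_prod_sub_prod_le _ _ _ (fun i _ => (hg i).bdd _) fun i _ => (hg i).bdd _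
  refine (Finset.expect_le_expect fun x _ => h1 x).trans ?_
  rw [Finset.expect_sum_comm, Finset.sum_mul]
  refine Finset.sum_le_sum fun i _ => ?_
  refine (l1_pair (hg i).tv hX _ _).trans ?_
  have hB : 0 ≤ B := (hg i).tv.nonneg
  have h2 : 0 ≤ B * (1 / X + 1 / N) := by (clear * - hB hX; positivity)
  calc _ = |((u i - v i : ℤ) : ℝ)| * (B * (1 / X + 1 / N)) := by ring
    _ ≤ _ := mul_le_mul_of_nonneg_right (hE i) h2

theorem W_lip {r : ℕ} {B X : ℝ} (hX : 0 < X) {f : ZMod N → ℂ} (hf : Adm B X f)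
    (u v : (Fin r → Bool) → ℤ) (E : ℝ) (hE : ∀ ω, |((u ω - v ω : ℤ) : ℝ)| ≤ E) :
    ‖W f u - W f v‖ ≤ 2 ^ r * E * (B * (1 / X + 1 / N)) := by
  have h1 := expect_prod_diff (N := N) hX (fun _ => (1 : ℂ)) (fun _ => by simp)
    (fun ω x => cjj ω (f x)) (fun ω => adm_cjj hf ω) u v (fun _ => E) hE
  simp only [one_mul] at h1
  refine h1.trans (le_of_eq ?_)
  rw [Finset.sum_const, nsmul_eq_mul, Finset.card_univ, Fintype.card_pi_const, Fintype.card_bool]
  push_cast
  ring

/-- progressions versus intervals -/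
theorem coupling {r : ℕ} {B X : ℝ} (hX : 0 < X) {f : ZMod N → ℂ} (hf : Adm B X f)
    (α : Fin r → ℝ) (hα : ∀ i, α i ≠ 0) (X' : ℕ) (hX' : 0 < X') (e : Fin r → ℕ)
    (he : ∀ i, 0 < e i) (he1 : ∀ i, |α i| * e i ≤ X') (he2 : ∀ i, (X' : ℝ) < |α i| * (e i + 1))
    (E : ℝ) (hE : ∑ i, (2 * |α i| + 2) ≤ E) :
    ‖(𝔼 l ∈ Fintype.piFinset (fun i => range (e i)), 𝔼 l' ∈ Fintype.piFinset (fun i => range (e i)),
        W f (fun ω => -∑ i, ⌊α i * ((sel ω l l' i : ℕ) : ℝ)⌋))
      - 𝔼 a ∈ boxset r X', 𝔼 b ∈ boxset r X', 𝔼 x, cube f a b x‖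
      ≤ 2 ^ r * E * (B * (1 / X + 1 / N)) := by
  classical
  -- reflect
  have hsel : ∀ (ω : Fin r → Bool) (l l' : Fin r → ℕ),
      sel ω (fun i => if 0 < α i then e i - 1 - l i else l i)
        (fun i => if 0 < α i then e i - 1 - l' i else l' i)
      = fun i => if 0 < α i then e i - 1 - sel ω l l' i else sel ω l l' i := by
    intro ω l l'
    funext i
    by_cases h : ω i = true
    · simp only [sel, h, if_true]
    · simp only [sel, h, if_false, Bool.false_eq_true]
  have h1 : (𝔼 l ∈ Fintype.piFinset (fun i => range (e i)),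
      𝔼 l' ∈ Fintype.piFinset (fun i => range (e i)),
        W f (fun ω => -∑ i, ⌊α i * ((sel ω l l' i : ℕ) : ℝ)⌋))
      = 𝔼 l ∈ Fintype.piFinset (fun i => range (e i)),
      𝔼 l' ∈ Fintype.piFinset (fun i => range (e i)),
        W f (fun ω => ∑ i, hh (α i) (e i) (sel ω l l' i)) := by
    rw [← expect_pi_refl e (fun i => 0 < α i)]
    refine Finset.expect_congr rfl fun l _ => ?_
    rw [← expect_pi_refl e (fun i => 0 < α i)]
    refine Finset.expect_congr rfl fun l' _ => ?_
    rw [← W_shift f _ (∑ i, if 0 < α i then ⌊α i * ((e i - 1 : ℕ) : ℝ)⌋ else 0)]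
    congr 1
    funext ω
    rw [hsel, neg_add_eq_sub, ← Finset.sum_sub_distrib]
    rfl
  -- couple
  have h2 : (𝔼 l ∈ Fintype.piFinset (fun i => range (e i)),
      𝔼 l' ∈ Fintype.piFinset (fun i => range (e i)),
        W f (fun ω => ∑ i, hh (α i) (e i) (sel ω l l' i)))
      = 𝔼 j ∈ Fintype.piFinset (fun i => range (e i * X')),
      𝔼 j' ∈ Fintype.piFinset (fun i => range (e i * X')),
        W f (fun ω => ∑ i, hh (α i) (e i) (sel ω (fun i => j i / X') (fun i => j' i / X') i)) := by
    rw [← expect_pi_div e (fun _ => X') (fun _ => hX')]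
    refine Finset.expect_congr rfl fun l _ => ?_
    rw [← expect_pi_div e (fun _ => X') (fun _ => hX')]
  have h3 : (𝔼 a ∈ boxset r X', 𝔼 b ∈ boxset r X', 𝔼 x, cube f a b x)
      = 𝔼 j ∈ Fintype.piFinset (fun i => range (e i * X')),
      𝔼 j' ∈ Fintype.piFinset (fun i => range (e i * X')),
        W f (fun ω => ∑ i, ((sel ω (fun i => j i / e i) (fun i => j' i / e i) i : ℕ) : ℤ)) := by
    have e0 : (fun i : Fin r => range (e i * X')) = fun i => range (X' * e i) := by
      funext i
      rw [mul_comm]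
    rw [e0, boxset, ← expect_pi_div (fun _ : Fin r => X') e he]
    refine Finset.expect_congr rfl fun l _ => ?_
    rw [← expect_pi_div (fun _ : Fin r => X') e he]
    refine Finset.expect_congr rfl fun l' _ => ?_
    rw [W_cube]
  have hne : (Fintype.piFinset (fun i => range (e i * X'))).Nonempty :=
    ⟨fun _ => 0, Fintype.mem_piFinset.2 fun i => Finset.mem_range.2 (Nat.mul_pos (he i) hX')⟩
  rw [h1, h2, h3, ← Finset.expect_sub_distrib]
  refine (RCLike.norm_expect_le (K := ℂ)).trans (Finset.expect_le hne fun j hj => ?_)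
  exact by
    rw [← Finset.expect_sub_distrib]
    refine (RCLike.norm_expect_le (K := ℂ)).trans (Finset.expect_le hne fun j' hj' => ?_)
    refine W_lip hX hf _ _ E fun ω => ?_
    have key : ∀ (i : Fin r) (t : ℕ), t < e i * X' →
        |((hh (α i) (e i) (t / X') - ((t / e i : ℕ) : ℤ) : ℤ) : ℝ)| ≤ 2 * |α i| + 2 := by
      intro i t ht
      have hα0 : 0 < |α i| := abs_pos.2 (hα i)
      have b1 := couple_real |α i| hα0 X' (e i) t hX' (he i) (he1 i) (he2 i) ht
      have b2 := hh_bound (α i) (hα i) (e i) (t / X') ((Nat.div_lt_iff_lt_mul hX').2 ht)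
      rw [abs_le] at b2 ⊢
      rw [Int.cast_sub, Int.cast_natCast]
      constructor <;> linarith [b1.1, b1.2, b2.1, b2.2]
    rw [← Finset.sum_sub_distrib, Int.cast_sum]
    refine (Finset.abs_sum_le_sum_abs _ _).trans (le_trans (Finset.sum_le_sum fun i _ => ?_) hE)
    unfold sel
    split_ifs
    · exact key i _ (Finset.mem_range.1 (Fintype.mem_piFinset.1 hj' i))
    · exact key i _ (Finset.mem_range.1 (Fintype.mem_piFinset.1 hj i))

theorem gcs_part {r : ℕ} (hr : 1 ≤ r) {B X : ℝ} (hX : 0 < X) (fs : ZMod N → ℂ)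
    (hfs : ∀ x, ‖fs x‖ ≤ 1) (f : Fin r → ZMod N → ℂ) (hf : ∀ j, Adm B X (f j)) (α : Fin r → ℝ)
    (K : ℕ) (hK : 0 < K) (e : Fin r → ℕ) (he : ∀ i, 0 < e i) (H : ℝ) (hH : ∑ i, (e i : ℝ) ≤ H)
    (δ : ℝ) (hδ : 0 ≤ δ)
    (h : δ + 2 * H / K + r * (r + 2) * (B * (1 / X + 1 / N))
      ≤ ‖𝔼 k ∈ range K, 𝔼 x, fs x * ∏ j, f j (x + (⌊α j * k⌋ : ZMod N))‖) :
    δ ^ (2 ^ r) ≤ (𝔼 l ∈ Fintype.piFinset (fun i => range (e i)),
      𝔼 l' ∈ Fintype.piFinset (fun i => range (e i)),
        W fs (fun ω => -∑ i, ⌊α i * ((sel ω l l' i : ℕ) : ℝ)⌋)).re := by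
  classical
  set G : ℕ → ℂ := fun k => 𝔼 x : ZMod N, fs x * ∏ j, f j (x + (⌊α j * k⌋ : ZMod N)) with hGdef
  set L : Finset (Fin r → ℕ) := Fintype.piFinset (fun i => range (e i)) with hLdef
  have hL : L.Nonempty :=
    ⟨fun _ => 0, Fintype.mem_piFinset.2 fun i => Finset.mem_range.2 (he i)⟩
  have hG : ∀ k, ‖G k‖ ≤ 1 := by
    intro k
    refine (RCLike.norm_expect_le (K := ℂ)).trans (Finset.expect_le Finset.univ_nonempty
      fun x _ => ?_)
    rw [norm_mul, norm_prod]
    exact mul_le_one₀ (hfs x) (Finset.prod_nonneg fun _ _ => norm_nonneg _)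
      (Finset.prod_le_one (fun _ _ => norm_nonneg _) fun j _ => (hf j).bdd _)
  have h1 := avg_avg L hL (fun l => ∑ i, l i) H (fun l hl => by
    push_cast
    refine le_trans (Finset.sum_le_sum fun i _ => ?_) hH
    have := Finset.mem_range.1 (Fintype.mem_piFinset.1 hl i)
    exact_mod_cast this.le) G hG K hK
  exact by
    have h2 : δ + r * (r + 2) * (B * (1 / X + 1 / N))
        ≤ ‖𝔼 k ∈ range K, 𝔼 l ∈ L, G (k + ∑ i, l i)‖ := by
      have h3 := norm_sub_norm_le (𝔼 k ∈ range K, G k) (𝔼 k ∈ range K, 𝔼 l ∈ L, G (k + ∑ i, l i))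
      (clear * - h h1 h3; linarith)
    obtain ⟨k, -, h3⟩ := exists_of_le_norm_expect (range K) (Finset.nonempty_range_iff.2 hK.ne') _ _ h2
    set Lam : (Fin r → ℕ) → ℤ := fun l => ∑ i, ⌊α i * (l i : ℝ)⌋ with hLam
    set v : Fin r → (Fin r → ℕ) → ℤ :=
      fun j l => ⌊α j * k + ∑ i ∈ univ.erase j, (α j - α i) * l i⌋ with hv
    have h4 : ‖(𝔼 l ∈ L, G (k + ∑ i, l i)) - 𝔼 l ∈ L, 𝔼 x : ZMod N,
        fs (x + ((-Lam l : ℤ) : ZMod N)) * ∏ j, f j (x + (v j l : ZMod N))‖
        ≤ r * (r + 2) * (B * (1 / X + 1 / N)) := by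
      rw [← Finset.expect_sub_distrib]
      refine (RCLike.norm_expect_le (K := ℂ)).trans (Finset.expect_le hL fun l _ => ?_)
      have h5 : G (k + ∑ i, l i) = 𝔼 x : ZMod N, fs (x + ((-Lam l : ℤ) : ZMod N)) *
          ∏ j, f j (x + ((-Lam l + ⌊α j * ((k + ∑ i, l i : ℕ) : ℝ)⌋ : ℤ) : ZMod N)) := by
        rw [hGdef]
        dsimp only
        rw [← expect_shift (fun x : ZMod N => fs x *
          ∏ j, f j (x + (⌊α j * ((k + ∑ i, l i : ℕ) : ℝ)⌋ : ZMod N))) ((-Lam l : ℤ) : ZMod N)]
        refine Finset.expect_congr rfl fun x _ => ?_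
        congr 1
        refine Finset.prod_congr rfl fun j _ => ?_
        congr 1
        push_cast
        ring
      rw [h5]
      refine (expect_prod_diff hX (fun x => fs (x + ((-Lam l : ℤ) : ZMod N))) (fun x => hfs _) f hf
        (fun j => -Lam l + ⌊α j * ((k + ∑ i, l i : ℕ) : ℝ)⌋) (fun j => v j l)
        (fun _ => (r : ℝ) + 2) (fun j => round_bound α j k l)).trans (le_of_eq ?_)
      rw [Finset.sum_const, nsmul_eq_mul, Finset.card_univ, Fintype.card_fin]
    have h5 : δ ≤ ‖𝔼 l ∈ L, 𝔼 x : ZMod N,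
        fs (x + ((-Lam l : ℤ) : ZMod N)) * ∏ j, f j (x + (v j l : ZMod N))‖ := by
      have h6 := norm_sub_norm_le (𝔼 l ∈ L, G (k + ∑ i, l i)) (𝔼 l ∈ L, 𝔼 x : ZMod N,
        fs (x + ((-Lam l : ℤ) : ZMod N)) * ∏ j, f j (x + (v j l : ZMod N)))
      (clear * - h3 h4 h6; linarith)
    rw [Finset.expect_comm] at h5
    have h6 : δ ≤ 𝔼 x : ZMod N, ‖𝔼 l ∈ L,
        fs (x + ((-Lam l : ℤ) : ZMod N)) * ∏ j, f j (x + (v j l : ZMod N))‖ :=
      h5.trans (RCLike.norm_expect_le (K := ℂ))
    have h7 : δ ^ (2 ^ r) ≤ 𝔼 x : ZMod N, ‖𝔼 l ∈ L,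
        fs (x + ((-Lam l : ℤ) : ZMod N)) * ∏ j, f j (x + (v j l : ZMod N))‖ ^ (2 ^ r) :=
      (pow_le_pow_left₀ hδ h6 _).trans
        (gcs_pow_expect_le _ _ _ fun _ _ => norm_nonneg _)
    refine h7.trans ?_
    have h8 : ∀ x : ZMod N, ‖𝔼 l ∈ L,
        fs (x + ((-Lam l : ℤ) : ZMod N)) * ∏ j, f j (x + (v j l : ZMod N))‖ ^ (2 ^ r)
        ≤ (𝔼 l ∈ L, 𝔼 l' ∈ L, ∏ ω : Fin r → Bool,
          cjj ω (fs (x + ((-Lam (sel ω l l') : ℤ) : ZMod N)))).re := by
      intro x
      refine gcs hr (fun i => range (e i)) (fun i => Finset.nonempty_range_iff.2 (he i).ne')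
        (fun l => fs (x + ((-Lam l : ℤ) : ZMod N))) (fun j l => f j (x + (v j l : ZMod N)))
        (fun j l => (hf j).bdd _) ?_
      intro j a a' haa
      have h9 : v j a = v j a' := by
        rw [hv]
        dsimp only
        congr 2
        refine Finset.sum_congr rfl fun i hi => ?_
        rw [haa i (Finset.ne_of_mem_erase hi)]
      rw [h9]
    refine (Finset.expect_le_expect fun x _ => h8 x).trans (le_of_eq ?_)
    rw [← gcs_re_expect]
    congr 1
    rw [Finset.expect_comm]
    refine Finset.expect_congr rfl fun l _ => ?_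
    rw [Finset.expect_comm]
    rfl

end LF

/-- averages of linear forms are controlled by the box norm of the first function over an
interval. -/
theorem lin_forms (r n : ℕ) (hr : 1 ≤ r) : ∃ n' : ℕ, ∀ (N : ℕ) [NeZero N] (δ X A0 : ℝ) (K : ℕ)
    (α : Fin r → ℝ) (fs : ZMod N → ℂ) (f : Fin r → ZMod N → ℂ), 0 < δ → δ ≤ 1 / 2 →
    Adm (δ⁻¹ ^ n) X fs → (∀ j, Adm (δ⁻¹ ^ n) X (f j)) → 0 < A0 → (∀ j, A0 ≤ |α j|) →
    (∀ j, |α j| ≤ δ ^ n' * X) → 1 ≤ δ ^ n' * X → X ≤ N → δ⁻¹ ^ n' ≤ K → X ≤ δ ^ n' * A0 * K →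
    δ ^ n ≤ ‖𝔼 k ∈ range K, 𝔼 x, fs x * ∏ j, f j (x + (⌊α j * k⌋ : ZMod N))‖ →
    ∀ X1 : ℕ, 1 ≤ X1 → (X1 : ℝ) ≤ δ ^ n' * A0 * K → δ ^ n' ≤ Box r X1 fs := by
  obtain ⟨p, hp⟩ : ∃ p : ℕ, p = n + r + 3 := ⟨_, rfl⟩
  obtain ⟨m1, hm1⟩ : ∃ m1 : ℕ, m1 = (n + 1) * 2 ^ r := ⟨_, rfl⟩
  obtain ⟨t, ht⟩ : ∃ t : ℕ, t = p + m1 + 2 * r + 6 := ⟨_, rfl⟩
  refine ⟨n + t, ?_⟩
  intro N _ δ X A0 K α fs f hδ0 hδ hfs hf hA0 hA hα h1X hXN hK hXA hform X1 hX1 hX1b
  have hr2 : (r : ℝ) ≤ 2 ^ r := by exact_mod_cast Nat.lt_two_pow_self.le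
  have hr1 : (1 : ℝ) ≤ 2 ^ r := one_le_pow₀ (by norm_num)
  have hr0 : (0 : ℝ) ≤ r := Nat.cast_nonneg r
  have hδ1 : δ ≤ 1 := by (clear * - hδ0 hδ; linarith)
  have hinv : 0 < δ⁻¹ := inv_pos.2 hδ0
  have hX0 : 0 < X := by
    by_contra hcon
    have : δ ^ (n + t) * X ≤ 0 := mul_nonpos_of_nonneg_of_nonpos (by positivity) (by (clear * - hcon; linarith))
    (clear * - hδ0 hδ h1X this; linarith)
  exact by
    have hN0 : (0 : ℝ) < N := hX0.trans_le hXN
    have hK0 : (0 : ℝ) < K := (pow_pos hinv _).trans_le hK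
    have hKn : 0 < K := by exact_mod_cast hK0
    have h1X' : 1 / X ≤ δ ^ (n + t) := by
      rw [div_le_iff₀ hX0]
      exact h1X
    have hNX : 1 / (N : ℝ) ≤ 1 / X := one_div_le_one_div_of_le hX0 hXN
    have hB : δ⁻¹ ^ n * δ ^ (n + t) = δ ^ t := by
      rw [pow_add, ← mul_assoc, ← mul_pow, inv_mul_cancel₀ hδ0.ne', one_pow, one_mul]
    exact by
      have hBX : δ⁻¹ ^ n * (1 / X + 1 / N) ≤ 2 * δ ^ t := by
        calc δ⁻¹ ^ n * (1 / X + 1 / N) ≤ δ⁻¹ ^ n * (2 * δ ^ (n + t)) :=
              mul_le_mul_of_nonneg_left (by (clear * - h1X' hNX; linarith)) (by positivity)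
          _ = 2 * δ ^ t := by rw [← hB]; ring
      have hδnt : δ ^ (n + t) ≤ 1 := pow_le_one₀ hδ0.le hδ1
      have hX1' : 1 ≤ X := by
        calc 1 ≤ δ ^ (n + t) * X := h1X
          _ ≤ 1 * X := mul_le_mul_of_nonneg_right hδnt hX0.le
          _ = X := one_mul X
      -- the length of the intervals
      set y : ℝ := δ ^ p * A0 * K with hy
      have hy0 : 0 < y := by (clear * - hδ0 hA0 hKn; positivity)
      obtain ⟨q, hq⟩ : ∃ q : ℕ, n + t = q + p ∧ n + m1 + 2 * r + 6 = q := ⟨_, by omega, rfl⟩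
      have hyq : δ ^ (n + t) * A0 * K = δ ^ q * y := by
        rw [hq.1, hy, pow_add]
        ring
      exact by
        have h2q : 2 * δ ^ q ≤ 1 := by
          have := LF.absorb hδ0 hδ 2 1 0 q (by norm_num) (by omega)
          simpa using this
        have hy2 : 2 * X ≤ y := by
          have h1 : X ≤ δ ^ q * y := by rw [← hyq]; exact hXA
          (clear * - hXA hyq hy0 h2q; nlinarith)
        obtain ⟨X', hX'1, hX'a, hX'b⟩ : ∃ X' : ℕ, 1 ≤ X' ∧ (X' : ℝ) ≤ y ∧ y / 2 ≤ X' :=
          ⟨⌊y⌋₊, (Nat.one_le_floor_iff _).2 (by (clear * - hδ0 hδ hX1' hy2; linarith)), Nat.floor_le hy0.le,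
            LF.floor_half (by (clear * - hδ0 hδ hX1' hy2; linarith))⟩
        have hX'0 : (0 : ℝ) < X' := by exact_mod_cast hX'1
        have hα0 : ∀ i, 0 < |α i| := fun i => hA0.trans_le (hA i)
        have hαX : ∀ i, |α i| ≤ X' := by
          intro i
          calc |α i| ≤ δ ^ (n + t) * X := hα i
            _ ≤ 1 * X := mul_le_mul_of_nonneg_right hδnt hX0.le
            _ ≤ X' := by (clear * - hy2 hX'b; linarith)
        obtain ⟨e, he⟩ : ∃ e : Fin r → ℕ, ∀ i, e i = ⌊(X' : ℝ) / |α i|⌋₊ := ⟨_, fun _ => rfl⟩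
        have he0 : ∀ i, 0 < e i := by
          intro i
          rw [he i]
          exact (Nat.one_le_floor_iff _).2 ((one_le_div (hα0 i)).2 (hαX i))
        exact by
          have he1 : ∀ i, |α i| * e i ≤ X' := by
            intro i
            have := Nat.floor_le (show 0 ≤ (X' : ℝ) / |α i| by (clear * - hX'1; positivity))
            rw [← he i, le_div_iff₀ (hα0 i)] at this
            (clear * - this; linarith)
          have he2 : ∀ i, (X' : ℝ) < |α i| * (e i + 1) := by
            intro i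
            have := Nat.lt_floor_add_one ((X' : ℝ) / |α i|)
            rw [← he i, div_lt_iff₀ (hα0 i)] at this
            (clear * - this; linarith)
          have heK : ∀ i, (e i : ℝ) ≤ δ ^ p * K := by
            intro i
            have h1 : A0 * e i ≤ A0 * (δ ^ p * K) := by
              calc A0 * e i ≤ |α i| * e i := mul_le_mul_of_nonneg_right (hA i) (Nat.cast_nonneg _)
                _ ≤ y := (he1 i).trans hX'a
                _ = A0 * (δ ^ p * K) := by rw [hy]; ring
            exact le_of_mul_le_mul_left h1 hA0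
          have hH : ∑ i, (e i : ℝ) ≤ r * (δ ^ p * K) := by
            refine (Finset.sum_le_sum fun i _ => heK i).trans (le_of_eq ?_)
            rw [Finset.sum_const, nsmul_eq_mul, Finset.card_univ, Fintype.card_fin]
          -- progressions
          have hsum : δ ^ (n + 1) + 2 * (r * (δ ^ p * K)) / K
              + r * (r + 2) * (δ⁻¹ ^ n * (1 / X + 1 / N)) ≤ δ ^ n := by
            have h1 : δ ^ (n + 1) ≤ δ ^ n / 2 := by
              rw [pow_succ]
              have := pow_pos hδ0 n
              (clear * - hδ this; nlinarith)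
            have h2 : 2 * (r * (δ ^ p * K)) / K = 2 * r * δ ^ p := by
              field_simp
            have h3 : (8 * r) * δ ^ p ≤ δ ^ n := by
              refine LF.absorb hδ0 hδ _ (r + 3) n p ?_ (by omega)
              rw [pow_add]
              (clear * - hr2; linarith)
            have h4 : (8 * r * (r + 2)) * δ ^ t ≤ δ ^ n := by
              refine LF.absorb hδ0 hδ _ (2 * r + 5) n t ?_ (by omega)
              have h5 : (r : ℝ) * (r + 2) ≤ 2 ^ r * (4 * 2 ^ r) := by
                refine mul_le_mul hr2 (by (clear * - hδ0 hδ hr2 hr1; linarith)) (by (clear * - hδ0 hδ; linarith)) (by positivity)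
              calc (8 * r * (r + 2) : ℝ) = 8 * (r * (r + 2)) := by ring
                _ ≤ 8 * (2 ^ r * (4 * 2 ^ r)) := by (clear * - h5; linarith)
                _ = 2 ^ (2 * r + 5) := by rw [pow_add, two_mul, pow_add]; ring
            have h5 : r * (r + 2) * (δ⁻¹ ^ n * (1 / X + 1 / N)) ≤ r * (r + 2) * (2 * δ ^ t) :=
              mul_le_mul_of_nonneg_left hBX (by positivity)
            rw [h2]
            (clear * - h1 h3 h4 h5; linarith)
          have hQ := LF.gcs_part hr hX0 fs hfs.bdd f hf α K hKn e he0 _ hH (δ ^ (n + 1)) (by positivity)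
            (hsum.trans hform)
          exact by
            rw [← pow_mul, ← hm1] at hQ
            -- intervals
            have hE : ∑ i, (2 * |α i| + 2) ≤ 4 * r * (δ ^ (n + t) * X) := by
              have h1 : ∀ i ∈ (univ : Finset (Fin r)), 2 * |α i| + 2 ≤ 4 * (δ ^ (n + t) * X) := by
                intro i _
                (clear * - h1X hα; linarith [hα i])
              refine (Finset.sum_le_sum h1).trans (le_of_eq ?_)
              rw [Finset.sum_const, nsmul_eq_mul, Finset.card_univ, Fintype.card_fin]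
              ring
            have hcpl := LF.coupling hX0 hfs α (fun i => abs_pos.1 (hα0 i)) X' hX'1 e he0 he1 he2 _ hE
            have hcb : 2 ^ r * (4 * r * (δ ^ (n + t) * X)) * (δ⁻¹ ^ n * (1 / X + 1 / N)) ≤ δ ^ m1 / 2 := by
              have h1 : δ⁻¹ ^ n * (1 / X + 1 / N) ≤ δ⁻¹ ^ n * (2 * (1 / X)) :=
                mul_le_mul_of_nonneg_left (by (clear * - hNX; linarith)) (by positivity)
              have h2 : 2 ^ r * (4 * r * (δ ^ (n + t) * X)) * (δ⁻¹ ^ n * (2 * (1 / X)))
                  = 8 * r * 2 ^ r * δ ^ t := by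
                rw [← hB]
                field_simp
                ring
              have h3 : (16 * r * 2 ^ r) * δ ^ t ≤ δ ^ m1 := by
                refine LF.absorb hδ0 hδ _ (2 * r + 4) m1 t ?_ (by omega)
                calc (16 * r * 2 ^ r : ℝ) ≤ 16 * 2 ^ r * 2 ^ r := by (clear * - hr2; gcongr)
                  _ = 2 ^ (2 * r + 4) := by rw [pow_add, two_mul, pow_add]; ring
              calc _ ≤ 2 ^ r * (4 * r * (δ ^ (n + t) * X)) * (δ⁻¹ ^ n * (2 * (1 / X))) :=
                    mul_le_mul_of_nonneg_left h1 (by (clear * - hr hδ0 hX0; positivity))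
                _ = 8 * r * 2 ^ r * δ ^ t := h2
                _ ≤ δ ^ m1 / 2 := by (clear * - h3; linarith)
            have hBox : δ ^ m1 / 2 ≤ Box r X' fs := by
              have h1 := Complex.re_le_norm ((𝔼 l ∈ Fintype.piFinset (fun i => range (e i)),
                𝔼 l' ∈ Fintype.piFinset (fun i => range (e i)),
                  LF.W fs (fun ω => -∑ i, ⌊α i * ((sel ω l l' i : ℕ) : ℝ)⌋))
                - 𝔼 a ∈ boxset r X', 𝔼 b ∈ boxset r X', 𝔼 x, cube fs a b x)
              rw [Complex.sub_re] at h1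
              have h2 := h1.trans (hcpl.trans hcb)
              unfold Box
              (clear * - hQ hcpl hcb h1; linarith)
            -- shorter intervals
            have hX1X' : (X1 : ℝ) ≤ δ ^ q * (2 * X') := by
              rw [hyq] at hX1b
              exact hX1b.trans (mul_le_mul_of_nonneg_left (by (clear * - hX'b; linarith)) (by positivity))
            have hX1le : X1 ≤ X' := by
              have : (X1 : ℝ) ≤ X' := by
                calc (X1 : ℝ) ≤ δ ^ q * (2 * X') := hX1X'
                  _ = 2 * δ ^ q * X' := by ring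
                  _ ≤ 1 * X' := mul_le_mul_of_nonneg_right h2q hX'0.le
                  _ = X' := one_mul _
              exact_mod_cast this
            have hsh := Box_shorten_all r X' X1 hX1 hX1le hfs.bdd
            exact by
              have h8 : (r : ℝ) * (4 * X1 / X') ≤ δ ^ m1 / 4 := by
                have h1 : (4 * X1 / X' : ℝ) ≤ 8 * δ ^ q := by
                  rw [div_le_iff₀ hX'0]
                  (clear * - hX1X'; linarith)
                have h3 : (32 * r) * δ ^ q ≤ δ ^ m1 := by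
                  refine LF.absorb hδ0 hδ _ (r + 5) m1 q ?_ (by omega)
                  rw [pow_add]
                  (clear * - hr2; linarith)
                have h4 : (r : ℝ) * (4 * X1 / X') ≤ r * (8 * δ ^ q) := mul_le_mul_of_nonneg_left h1 hr0
                (clear * - h3 h4; linarith)
              have h9 : 4 * δ ^ (n + t) ≤ δ ^ m1 :=
                LF.absorb hδ0 hδ 4 2 m1 (n + t) (by norm_num) (by omega)
              (clear * - hBox hsh h8 h9; linarith)

end

end Pool.Agent.Helper57.NX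

end
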