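import Pool.Agent.Helper23.MC.L02_a0
import Pool.Agent.Helper23.MC.L02_a1
import Pool.Agent.Helper23.MC.L02_a11
import Pool.Agent.Helper23.MC.L02_a12
import Pool.Agent.Helper23.MC.L02_a13
import Pool.Agent.Helper23.MC.L02_a14
import Pool.Agent.Helper23.MC.L02_a15
import Pool.Agent.Helper23.MC.L02_a2
import Pool.Agent.Helper23.MC.L02_a3
import Pool.Agent.Helper23.MC.L02_a4
import Pool.Agent.Helper23.MC.L02_a6
import Pool.Agent.Helper23.MC.L02_a8
import Pool.Agent.Helper23.MC.L02_a9

/-!
Parts of Helper91.NX2.AlArith, Helper30.NX2.LocArith, Helper91.NX2.GncArith, Helper9.NX2.DlTotal, Helper94.NX2.LowArith, Helper45.NX2.DsOfUs, Helper63.NX2.VarBoundFinal, Helper28.NX.Base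
-/

attribute [local instance 5000]
  Pool.Agent.Helper23.MC.Inst.rCharZero Pool.Agent.Helper23.MC.Inst.rALM
  Pool.Agent.Helper23.MC.Inst.rARM Pool.Agent.Helper23.MC.Inst.rALSM
  Pool.Agent.Helper23.MC.Inst.rARSM Pool.Agent.Helper23.MC.Inst.rARRLE
  Pool.Agent.Helper23.MC.Inst.rALRLE Pool.Agent.Helper23.MC.Inst.rARRLT
  Pool.Agent.Helper23.MC.Inst.rALRLT Pool.Agent.Helper23.MC.Inst.rPMRLT
  Pool.Agent.Helper23.MC.Inst.rMPRLT Pool.Agent.Helper23.MC.Inst.rPMM
  Pool.Agent.Helper23.MC.Inst.rMPM Pool.Agent.Helper23.MC.Inst.rPMSM
  Pool.Agent.Helper23.MC.Inst.rMPSM Pool.Agent.Helper23.MC.Inst.rEAOL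
  Pool.Agent.Helper23.MC.Inst.rIOR Pool.Agent.Helper23.MC.Inst.rISOR
  Pool.Agent.Helper23.MC.Inst.rNZD Pool.Agent.Helper23.MC.Inst.rcCharZero
  Pool.Agent.Helper23.MC.Inst.rcNZD Pool.Agent.Helper23.MC.Inst.zCharZero
  Pool.Agent.Helper23.MC.Inst.zALM Pool.Agent.Helper23.MC.Inst.zARM
  Pool.Agent.Helper23.MC.Inst.zALSM Pool.Agent.Helper23.MC.Inst.zARSM
  Pool.Agent.Helper23.MC.Inst.zIOR Pool.Agent.Helper23.MC.Inst.zISOR
  Pool.Agent.Helper23.MC.Inst.zNZD Pool.Agent.Helper23.MC.Inst.qCharZero
  Pool.Agent.Helper23.MC.Inst.mR Pool.Agent.Helper23.MC.Inst.mC Pool.Agent.Helper23.MC.Inst.mRC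
  Pool.Agent.Helper23.MC.Inst.rPSM Pool.Agent.Helper23.MC.Inst.rCSM
  Pool.Agent.Helper23.MC.Inst.cAdd Pool.Agent.Helper23.MC.Inst.cAddM
  Pool.Agent.Helper23.MC.Inst.cMul Pool.Agent.Helper23.MC.Inst.cMon

namespace Pool.Agent.Helper57.NX
end Pool.Agent.Helper57.NX
namespace Pool.Agent.Helper82.NX
end Pool.Agent.Helper82.NX
namespace Pool.Agent.Helper91.NX2
end Pool.Agent.Helper91.NX2

section

set_option autoImplicit false

open Finset

open scoped BigOperators ComplexConjugate

namespace Pool.Agent.Helper67.NX2

open Pool.Agent.Helper57.NX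

noncomputable section

theorem al_arith (m : ℕ) (c : Fin (m + 1) → ℝ) (hc : Ex c) (d : ℕ) (hd : c (Fin.last m) = d)
    (s : ℝ) (hs0 : 0 < s) (hs : s < d) (hT : ∀ ε : ℝ, 0 < ε → TopPm m c s ε)
    (ε : ℝ) (hε : 0 < ε) : ∃ x0 : ℝ, 0 < x0 ∧ ∃ C : ℕ, ∃ σ : ℝ, 0 < σ ∧ ∃ D0 : ℝ,
    ∀ (S : Sys (m + 1)) (N : ℕ) [NeZero N] (lam : ℕ), D0 ≤ S.D → IG S c N x0 lam →
    ∀ δ : ℝ, S.D ^ (-σ) ≤ δ → δ ≤ 1 / 2 → (lam : ℝ) ≤ δ⁻¹ →
    ∀ (p : ℕ) [NeZero p], p.Prime → N = S.Q * p → ∀ q : ℕ, 1 ≤ q → (q : ℝ) ≤ δ⁻¹ →
    ∀ X : ℕ, 1 ≤ X → S.D ^ (s - σ) ≤ (X : ℝ) →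
    ∀ q0 : ℕ, 1 ≤ q0 → (X : ℝ) * q0 * (S.Q * q) ≤ S.P (Fin.last m) * S.D ^ (-ε) →
    ∀ (f0 : ZMod N → ℂ) (f : Fin m → ZMod N → ℂ), Adm δ⁻¹ S.Q f0 → (∀ i, Adm δ⁻¹ S.Q (f i)) →
    ∀ (r : ZMod p) (cc : ℕ → ℂ) (φ : ℕ → ℝ), (∀ j, ‖cc j‖ ≤ 1) →
    δ ≤ ‖form S c 1 f0 (Fin.snoc (α := fun _ => ZMod N → ℂ) f
      (blk S.Q fun y : ZMod p => bphase X r cc φ (y * (q : ZMod p)⁻¹)))‖ →
    ∃ (cc' : ℕ → ℂ) (θ : ℕ → ℝ), (∀ j, cc' j = cc j ∨ cc' j = 0) ∧
      (∀ j, cc' j ≠ 0 → dint (φ j - θ (j / q0)) ≤ δ⁻¹ ^ C / X) ∧
      δ ^ C ≤ ‖form S c 1 f0 (Fin.snoc (α := fun _ => ZMod N → ℂ) f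
        (blk S.Q fun y : ZMod p => bphase X r cc' φ (y * (q : ZMod p)⁻¹)))‖ :=
  Pool.Agent.Helper91.NX2.al_arith_core m c s ε hs0 hε (ar_top m c hc d hd s hs0 hs hT ε hε)

end

end Pool.Agent.Helper67.NX2

end

section

set_option autoImplicit false

open Finset

open scoped BigOperators ComplexConjugate

namespace Pool.Agent.Helper67.NX2

open Pool.Agent.Helper57.NX

noncomputable section

/-- **A25.** Localisation along progressions. -/
theorem loc_arith (hES : ES0) (m : ℕ) (c : Fin (m + 1) → ℝ) (hc : Ex c) (d : ℕ)
    (hd : c (Fin.last m) = d) (s : ℝ) (hs0 : 0 < s) (hs : s ≤ 1)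
    (hD : ∀ ε : ℝ, 0 < ε → DsPm m c s ε) :
    ∃ ε0 : ℝ, 0 < ε0 ∧ ∀ ε : ℝ, 0 < ε → ε ≤ ε0 → ∀ n : ℕ,
    ∃ x0 : ℝ, 0 < x0 ∧ ∃ C : ℕ, ∃ σ : ℝ, 0 < σ ∧ ∃ D0 : ℝ,
    ∀ (S : Sys (m + 1)) (N : ℕ) [NeZero N] (lam : ℕ), D0 ≤ S.D → IG S c N x0 lam →
    ∀ δ : ℝ, S.D ^ (-σ) ≤ δ → δ ≤ 1 / 2 → (lam : ℝ) ≤ δ⁻¹ →
    ∀ (p : ℕ) [NeZero p], p.Prime → N = S.Q * p → ∀ q : ℕ, 1 ≤ q → (q : ℝ) ≤ δ⁻¹ →
    ∀ X : ℕ, 1 ≤ X → S.D ^ (s - σ) ≤ (X : ℝ) → (X : ℝ) * δ⁻¹ ^ 4 ≤ S.D ^ s →
    ∀ q0 : ℕ, 1 ≤ q0 → S.P (Fin.last m) * S.D ^ (-ε) / 2 ≤ (X : ℝ) * q0 * (S.Q * q) →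
      (X : ℝ) * q0 * (S.Q * q) ≤ S.P (Fin.last m) * S.D ^ (-ε) →
    ∀ (f0 : ZMod N → ℂ) (f : Fin m → ZMod N → ℂ), Adm δ⁻¹ S.Q f0 → (∀ i, Adm δ⁻¹ S.Q (f i)) →
    ∀ (r : ZMod p) (cc : ℕ → ℂ) (φ θ : ℕ → ℝ), (∀ j, ‖cc j‖ ≤ 1) →
    (∀ j, cc j ≠ 0 → dint (φ j - θ (j / q0)) ≤ δ⁻¹ ^ n / X) →
    δ ^ n ≤ ‖form S c 1 f0 (Fin.snoc (α := fun _ => ZMod N → ℂ) f
      (blk S.Q fun y : ZMod p => bphase X r cc φ (y * (q : ZMod p)⁻¹)))‖ →
    ∃ j q' : ℕ, cc j ≠ 0 ∧ 1 ≤ q' ∧ (q' : ℝ) ≤ δ⁻¹ ^ C ∧ dint (q' * φ j) ≤ δ⁻¹ ^ C / X :=
  loc_arith_of m c hc d hd s hs0 hs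
    (fun a ε hε => ratl hES c hc.strictMono (fun i => by linarith [hc.two i]) a ε hε) hD

end

end Pool.Agent.Helper67.NX2

end

section

set_option autoImplicit false

open Finset

open scoped BigOperators ComplexConjugate

namespace Pool.Agent.Helper67.NX2

open Pool.Agent.Helper57.NX

open Pool.Agent.Helper82.NX

open Pool.Agent.Helper91.NX2

noncomputable section

theorem gnc_arith (m : ℕ) (c : Fin (m + 1) → ℝ) (hc : Ex c) (d : ℕ) (hd : c (Fin.last m) = d)
    (κ : ℝ) (hκ : 0 < κ) :
    ∃ x0 : ℝ, 0 < x0 ∧ ∃ r C : ℕ, ∃ σ : ℝ, 0 < σ ∧ ∃ D0 : ℝ,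
    ∀ (S : Sys (m + 1)) (N : ℕ) [NeZero N] (lam : ℕ), D0 ≤ S.D → IG S c N x0 lam →
    ∀ δ : ℝ, S.D ^ (-σ) ≤ δ → δ ≤ 1 / 2 → (lam : ℝ) ≤ δ⁻¹ →
    ∀ (f0 : ZMod N → ℂ) (f : Fin (m + 1) → ZMod N → ℂ),
    Adm δ⁻¹ S.Q f0 → (∀ i, Adm δ⁻¹ S.Q (f i)) → δ ≤ ‖form S c 1 f0 f‖ →
    ∃ q : ℕ, 1 ≤ q ∧ (q : ℝ) ≤ δ⁻¹ ^ C ∧ ∀ H : ℕ, 1 ≤ H → (H : ℝ) ≤ S.D ^ (1 - κ) →
      δ ^ C ≤ Boxq (S.Q * q) r H (f (Fin.last m)) := by
  classical
  have hd2 : 2 ≤ d := by
    have := hc.two (Fin.last m)
    rw [hd] at this
    exact_mod_cast this
  have hd2r : (2 : ℝ) ≤ d := by exact_mod_cast hd2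
  have hcm : ∀ i : Fin m, c i.castSucc ≤ (d : ℝ) - 2 := by
    intro i
    have := hc.gap _ _ (Fin.castSucc_lt_last i)
    rw [hd] at this
    (clear * - this; linarith)
  have hcle : ∀ i : Fin (m + 1), c i ≤ d := by
    intro i
    rcases Fin.eq_castSucc_or_eq_last i with ⟨j, rfl⟩ | rfl
    · have := hcm j
      (clear * - this; linarith)
    · exact hd.le
  -- constants
  obtain ⟨ν, s₁, hrd⟩ := rounds' c (d : ℝ) (d + 2) (d - 1) (fun i hi => by
    have h1 : (i : ℝ) < d := by exact_mod_cast (by omega : i < d)
    intro h
    (clear * - h1 h; linarith)) (m + 1)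
  obtain ⟨n₁, hn₁, hrd⟩ := hrd (m + 1) 1
  obtain ⟨Ce, hCe, hev⟩ := ev_lin c (n₁ + n₁) d
  obtain ⟨C0, hC0, hinit⟩ := init_clu c (1 + ν)
  obtain ⟨Nm, hNm⟩ : ∃ Nm : ℕ, Nm = 2 * n₁ + 4 := ⟨_, rfl⟩
  obtain ⟨nl, hnl⟩ : ∃ nl : ℕ, nl = n₁ + 2 + d + (Nm + 1) * d := ⟨_, rfl⟩
  obtain ⟨Lf, hLf⟩ : ∃ Lf : ℕ → ℕ, ∀ r : ℕ, (hr : 1 ≤ r) →
      ∀ (N : ℕ) [NeZero N] (δ : ℝ) (K Q : ℕ)
    (α β : Fin r → ℤ) (fs : ZMod N → ℂ) (f : Fin r → ZMod N → ℂ), 0 < δ → δ ≤ 1 / 2 →
    (∀ x, ‖fs x‖ ≤ 1) → (∀ j x, ‖f j x‖ ≤ 1) → (∀ j, α j ≠ 0 ∧ |(α j : ℝ)| ≤ δ⁻¹ ^ nl) →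
    δ⁻¹ ^ (Lf r) ≤ K →
    δ ^ nl ≤ ‖𝔼 k ∈ range K, 𝔼 x, fs x * ∏ j, f j (x + ((Q * (α j * k + β j) : ℤ) : ZMod N))‖ →
    ∃ q : ℕ, 1 ≤ q ∧ (q : ℝ) ≤ δ⁻¹ ^ (Lf r) ∧ ∀ H : ℕ, 1 ≤ H → (H : ℝ) ≤ δ ^ (Lf r) * K →
      δ ^ (Lf r) ≤ Boxq (Q * q) r H fs := by
    refine ⟨fun r => if hr : 1 ≤ r then Classical.choose (lin_forms' r nl hr) else 0, ?_⟩
    intro r hr
    simp only [dif_pos hr]
    exact Classical.choose_spec (lin_forms' r nl hr)
  obtain ⟨Lmax, hLmax⟩ : ∃ Lmax : ℕ, Lmax = ∑ r ∈ range (s₁ + 1), Lf r := ⟨_, rfl⟩
  obtain ⟨Nt, hNt⟩ : ∃ Nt : ℕ, Nt = Nm + nl + Lmax + 4 * n₁ + 8 := ⟨_, rfl⟩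
  obtain ⟨θ, hθdef⟩ : ∃ θ : ℝ, θ = min (κ / 4) (1 / (16 * (d + 2))) := ⟨_, rfl⟩
  have hd0 : (0 : ℝ) < 16 * ((d : ℝ) + 2) := by (clear * - hd2r; linarith)
  have hθp : 0 < θ := by
    rw [hθdef]
    exact lt_min (by (clear * - hκ; linarith)) (by (clear * - hd2; positivity))
  exact by
    have hθκ : θ ≤ κ / 4 := by rw [hθdef]; exact min_le_left _ _
    have hθd : θ * (16 * (d + 2)) ≤ 1 := by
      have h1 : θ ≤ 1 / (16 * (d + 2)) := by rw [hθdef]; exact min_le_right _ _
      rwa [le_div_iff₀ hd0] at h1
    have hθ64 : 64 * θ ≤ 1 := by (clear * - hd2r hθd; nlinarith)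
    obtain ⟨D0, hD02, hD0⟩ := exists_D0 θ (2 * ν + 4 * n₁ + C0 + 2 * Ce + 4 * s₁ +
      32 * ((n₁ + n₁ : ℕ) * 2 ^ (n₁ + n₁)) + 32) hθp
    refine ⟨θ, hθp, s₁, Lmax * 2 ^ s₁, θ / (Nt + 1), by (clear * - hθp; positivity), D0, ?_⟩
    intro S N _ lam hDD hIG δ hδ hδ2 hlam f0 f hf0 hf hform
    have hG := hIG.good
    obtain ⟨rr, hrr⟩ := hIG.rho
    obtain ⟨D, hDdef⟩ : ∃ D, D = S.D := ⟨_, rfl⟩
    rw [← hDdef] at hDD hδ
    have hD2 : 2 ≤ D := hD02.trans hDD
    have hD1 : 1 ≤ D := by (clear * - hθp hθ64 hD02 hDD; linarith)
    exact by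
      have hDp : 0 < D := by (clear * - hθp hθ64 hD02 hDD; linarith)
      have hbig := hD0 D hDD
      have hν0 : (0 : ℝ) ≤ ν := Nat.cast_nonneg _
      have hn0 : (0 : ℝ) ≤ n₁ := Nat.cast_nonneg _
      have hs0 : (0 : ℝ) ≤ s₁ := Nat.cast_nonneg _
      have hE0 : (0 : ℝ) ≤ (n₁ + n₁ : ℕ) * 2 ^ (n₁ + n₁) := by (clear * -; positivity)
      exact by
        have hA1 : 2 * (ν : ℝ) ≤ D ^ θ := by (clear * - hCe hC0 hθp hθ64 hbig hE0; linarith)
        have hA2 : 4 * (n₁ : ℝ) ≤ D ^ θ := by (clear * - hCe hC0 hθp hθ64 hbig hE0; linarith)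
        have hA3 : C0 ≤ D ^ θ := by (clear * - hCe hθp hθ64 hbig hE0; linarith)
        have hA4 : 2 * Ce ≤ D ^ θ := by (clear * - hC0 hθp hθ64 hbig hE0; linarith)
        have hA5 : 4 * (s₁ : ℝ) ≤ D ^ θ := by (clear * - hCe hC0 hθp hθ64 hbig hE0; linarith)
        have hA6 : 32 * ((n₁ + n₁ : ℕ) * (2 : ℝ) ^ (n₁ + n₁)) ≤ D ^ θ := by (clear * - hCe hC0 hθp hθ64 hbig; linarith)
        exact by
          have hA7 : (32 : ℝ) ≤ D ^ θ := by (clear * - hCe hC0 hbig hE0; linarith)
          have pw : ∀ {a b : ℝ}, a ≤ b → D ^ a ≤ D ^ b := fun h =>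
            Real.rpow_le_rpow_of_exponent_le hD1 h
          have pp : ∀ a : ℝ, 0 < D ^ a := fun a => Real.rpow_pos_of_pos hDp a
          have pa : ∀ a b : ℝ, D ^ a * D ^ b = D ^ (a + b) := fun a b => (Real.rpow_add hDp a b).symm
          have p1 : D ^ (1 : ℝ) = D := Real.rpow_one D
          -- δ
          have hδ0 : 0 < δ := lt_of_lt_of_le (pp _) hδ
          exact by
            have hδ1 : δ ≤ 1 := hδ2.trans (by norm_num)
            have hinv0 : 0 < δ⁻¹ := inv_pos.2 hδ0
            have hinv1 : 1 ≤ δ⁻¹ := (one_le_inv₀ hδ0).2 hδ1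
            have hinv2 : 2 ≤ δ⁻¹ := by
              rw [le_inv_comm₀ (by norm_num) hδ0]
              (clear * - hδ2; linarith)
            have hδn : ∀ n : ℕ, n ≤ Nt → D ^ (-θ) ≤ δ ^ n := by
              intro n hn
              refine le_trans ?_ (pow_le_pow_left₀ (pp _).le hδ n)
              rw [← Real.rpow_natCast, ← Real.rpow_mul hDp.le]
              refine pw ?_
              have h1 : (n : ℝ) ≤ Nt + 1 := by
                have : (n : ℝ) ≤ Nt := by exact_mod_cast hn
                (clear * - hθp hθ64 this; linarith)
              have h2 : θ / (Nt + 1) * n ≤ θ := by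
                rw [div_mul_eq_mul_div, div_le_iff₀ (by (clear * -; positivity))]
                exact mul_le_mul_of_nonneg_left h1 hθp.le
              (clear * - h2; linarith)
            have hδi : ∀ n : ℕ, n ≤ Nt → δ⁻¹ ^ n ≤ D ^ θ := by
              intro n hn
              have h1 := hδn n hn
              rw [Real.rpow_neg hDp.le] at h1
              rw [inv_pow]
              exact inv_le_of_inv_le₀ (pp _) h1
            exact by
              have hcp : ∀ n : ℕ, δ⁻¹ ^ n * δ ^ n = 1 := by
                intro n
                rw [← mul_pow, inv_mul_cancel₀ hδ0.ne', one_pow]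
              -- `M`
              obtain ⟨M, hMdef⟩ : ∃ M : ℕ, M = ⌈δ⁻¹ ^ Nm⌉₊ := ⟨_, rfl⟩
              have hM1 : δ⁻¹ ^ Nm ≤ (M : ℝ) := by rw [hMdef]; exact Nat.le_ceil _
              have hM1' : (1 : ℝ) ≤ M := (one_le_pow₀ hinv1).trans hM1
              have hM2 : (M : ℝ) ≤ 2 * δ⁻¹ ^ Nm := by
                have h1 := Nat.ceil_lt_add_one (show 0 ≤ δ⁻¹ ^ Nm by (clear * - hδ0; positivity))
                rw [← hMdef] at h1
                have h2 : 1 ≤ δ⁻¹ ^ Nm := one_le_pow₀ hinv1
                (clear * - h1 h2; linarith)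
              have hMpos : (0 : ℝ) < M := by (clear * - hθp hθ64 hM1'; linarith)
              have hMθ : (M : ℝ) ≤ D ^ (2 * θ) := by
                calc (M : ℝ) ≤ 2 * δ⁻¹ ^ Nm := hM2
                  _ ≤ D ^ θ * D ^ θ := mul_le_mul (by (clear * - hCe hC0 hθp hθ64 hbig hE0; linarith)) (hδi _ (by omega)) (by (clear * - hδ0; positivity)) (pp _).le
                  _ = D ^ (2 * θ) := by rw [pa]; congr 1; ring
              exact by
                have hMD : (M : ℝ) / D ≤ D ^ (2 * θ - 1) := by
                  rw [Real.rpow_sub_one hDp.ne']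
                  exact div_le_div_of_nonneg_right hMθ hDp.le
                have hMD0 : 0 < (M : ℝ) / D := by (clear * - hM1' hD2; positivity)
                have hMDj : ∀ j : ℕ, ((M : ℝ) / D) ^ j ≤ D ^ ((2 * θ - 1) * j) := by
                  intro j
                  rw [Real.rpow_mul hDp.le, Real.rpow_natCast]
                  exact pow_le_pow_left₀ hMD0.le hMD j
                -- `Q` and `P`
                have hQ1 : D ^ (2 : ℝ) ≤ S.Q := by have := hG.Q1; rwa [← hDdef] at this
                have hQp : (0 : ℝ) < S.Q := lt_of_lt_of_le (pp _) hQ1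
                have hQpos : 0 < S.Q := by exact_mod_cast hQp
                exact by
                  have hPm0 : S.P (Fin.last m) = S.Q * (lam * D) ^ d := by
                    have := hIG.Pint (Fin.last m) d hd
                    rwa [← hDdef] at this
                  have hlam1 : (1 : ℝ) ≤ lam := by exact_mod_cast hIG.lam1
                  have hPm1 : S.Q * D ^ ((d : ℝ) - θ) ≤ S.P (Fin.last m) := by
                    have := hG.P1 (Fin.last m)
                    rwa [← hDdef, hd] at this
                  have hPmp : 0 < S.P (Fin.last m) := lt_of_lt_of_le (mul_pos hQp (pp _)) hPm1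
                  have hP0 : ∀ i, 0 ≤ S.P i := fun i => by
                    have := hG.P1 i
                    rw [← hDdef] at this
                    exact le_trans (mul_nonneg hQp.le (pp _).le) this
                  have hP2 : ∀ i, S.P i ≤ S.Q * D ^ (c i + θ) := fun i => by
                    have := hG.P2 i
                    rwa [← hDdef] at this
                  exact by
                    have hPi : ∀ i, S.P i ≤ S.Q * D ^ ((d : ℝ) + θ) := by
                      intro i
                      refine (hP2 i).trans (mul_le_mul_of_nonneg_left (pw ?_) hQp.le)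
                      (clear * - hcle; linarith [hcle i])
                    have hPlow : ∀ i : Fin m, S.P i.castSucc ≤ S.Q * D ^ ((d : ℝ) - 2 + θ) := by
                      intro i
                      refine (hP2 _).trans (mul_le_mul_of_nonneg_left (pw ?_) hQp.le)
                      (clear * - hcm; linarith [hcm i])
                    -- `w`
                    obtain ⟨w, hw⟩ : ∃ w : ℝ, w = D ^ (-(1 / 4) : ℝ) := ⟨_, rfl⟩
                    have hw0 : 0 < w := by rw [hw]; exact pp _
                    have hwδ : ∀ n : ℕ, n ≤ Nt → w ≤ δ ^ n := fun n hn => by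
                      rw [hw]
                      exact (pw (by (clear * - hθp hθ64; linarith))).trans (hδn n hn)
                    have hT : D ^ (1 - θ) ≤ S.T := by have := hG.T1; rwa [← hDdef] at this
                    have hu1 : D ≤ S.u := by have := hG.u1; rwa [← hDdef] at this
                    exact by
                      have hu2 : (S.u : ℝ) + S.T ≤ 2 * D := by have := hG.u2; rwa [← hDdef] at this
                      have hTp0 : (0 : ℝ) < S.T := lt_of_lt_of_le (pp _) hT
                      have hTn : 0 < S.T := by exact_mod_cast hTp0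
                      have hEnv : Env S N δ M (d + 2) w n₁ :=
                        { ρ0 := hG.ρ0
                          ρ1 := hG.ρ1
                          D1 := by rw [← hDdef]; exact hD1
                          δ0 := hδ0
                          δ1 := hδ2
                          u1 := hG.u1
                          u2 := hG.u2
                          MT := by
                            refine hMθ.trans ?_
                            calc D ^ (2 * θ) ≤ D ^ (-θ + (1 - θ)) := pw (by (clear * - hθp hθ64; linarith))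
                              _ = D ^ (-θ) * D ^ (1 - θ) := (pa _ _).symm
                              _ ≤ δ ^ n₁ * S.T := mul_le_mul (hδn _ (by (clear * - d hNm hLmax hNt S δ M; omega))) hT (pp _).le (pow_pos hδ0 _).le
                          M1 := (pow_le_pow_right₀ hinv1 (by omega)).trans hM1
                          MD := by
                            rw [← hDdef, hw]
                            exact hMD.trans (pw (by (clear * - hθp hθ64; linarith)))
                          w1 := hwδ _ (by omega)
                          P0 := hP0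
                          PR := by
                            intro i
                            rw [← hDdef]
                            calc S.P i * ((M : ℝ) / D) ^ (d + 2) ≤ (S.Q * D ^ ((d : ℝ) + θ)) *
                                  D ^ ((2 * θ - 1) * ((d + 2 : ℕ) : ℝ)) :=
                                  mul_le_mul (hPi i) (hMDj _) (by (clear * - hM1' hD2; positivity)) (mul_nonneg hQp.le (pp _).le)
                              _ = S.Q * D ^ ((d : ℝ) + θ + (2 * θ - 1) * ((d + 2 : ℕ) : ℝ)) := by rw [mul_assoc, pa]
                              _ ≤ S.Q * D ^ (-(1 / 4) : ℝ) := by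
                                  refine mul_le_mul_of_nonneg_left (pw ?_) hQp.le
                                  push_cast
                                  (clear * - hθp hθd hθ64; nlinarith)
                              _ = w * S.Q := by rw [hw]; exact mul_comm _ _
                          wQ := by
                            rw [hw]
                            calc (1 : ℝ) = D ^ (0 : ℝ) := (Real.rpow_zero D).symm
                              _ ≤ D ^ (-(1 / 4) + 2 : ℝ) := pw (by norm_num)
                              _ = D ^ (-(1 / 4) : ℝ) * D ^ (2 : ℝ) := (pa _ _).symm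
                              _ ≤ D ^ (-(1 / 4) : ℝ) * S.Q := mul_le_mul_of_nonneg_left hQ1 (pp _).le
                          QN := hG.N2 }
                      have hMθ3 : D ^ θ * M ≤ D := by
                        calc D ^ θ * M ≤ D ^ θ * D ^ (2 * θ) := mul_le_mul_of_nonneg_left hMθ (pp _).le
                          _ = D ^ (θ + 2 * θ) := pa _ _
                          _ ≤ D ^ (1 : ℝ) := pw (by (clear * - hθp hθ64; linarith))
                          _ = D := p1
                      have hνM : (ν : ℝ) * M ≤ D / 2 := by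
                        have := mul_le_mul_of_nonneg_right hA1 hMpos.le
                        (clear * - hMθ3 this; linarith)
                      exact by
                        have hnM : ((n₁ + n₁ : ℕ) : ℝ) * M ≤ D := by
                          have := mul_le_mul_of_nonneg_right hA2 hMpos.le
                          push_cast
                          have h0 : 0 ≤ (n₁ : ℝ) * M := by (clear * - hM1'; positivity)
                          (clear * - hθp hθ64 hD02 hDD hMθ3 this; linarith)
                        -- the initial list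
                        have hclu := hinit S (by rw [← hDdef]; exact hD1) hG.ρ0 hG.ρ1 δ M (5 / 2 * D + ν * M) w hδ0 hδ1
                          (by rw [← hDdef]; (clear * - hθp hθ64 hD02 hDD hνM; linarith)) hw0.le hPmp.le (fun i => ⟨hP0 _, by
                            calc C0 * S.P i.castSucc ≤ D ^ θ * (S.Q * D ^ ((d : ℝ) - 2 + θ)) :=
                                  mul_le_mul hA3 (hPlow i) (hP0 _) (pp _).le
                              _ = S.Q * D ^ (θ + ((d : ℝ) - 2 + θ)) := by rw [← pa θ]; ring
                              _ ≤ S.Q * D ^ (((d : ℝ) - θ) + -(1 / 4)) := by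
                                  refine mul_le_mul_of_nonneg_left (pw ?_) hQp.le
                                  (clear * - hθp hθ64; linarith)
                              _ = (S.Q * D ^ ((d : ℝ) - θ)) * w := by rw [hw, ← pa]; ring
                              _ ≤ S.P (Fin.last m) * w := mul_le_mul_of_nonneg_right hPm1 hw0.le⟩)
                        rw [hd] at hclu
                        have hadm : ∀ {g : ZMod N → ℂ}, Adm δ⁻¹ S.Q g → ∀ n : ℕ, 1 ≤ n → Adm (δ⁻¹ ^ n) S.Q g := by
                          intro g hg n hn
                          refine Helper82.NX.Adm.mono' hg hQp ?_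
                          have := Pool.Agent.Helper82.NX.inv_pow_mono hδ0 hδ1 hn
                          rwa [pow_one] at this
                        have hform' : δ ^ (m + 1) ≤ ‖lform S c 1 ((f (Fin.last m), Finsupp.single ([], Fin.last m) 1) ::
                            (f0, 0) :: List.ofFn fun i : Fin m =>
                              (f i.castSucc, (Finsupp.single (([] : List ℕ), i.castSucc) (1 : ℤ) : Phi (m + 1))))‖ := by
                          rw [← form_eq_lform]
                          refine le_trans ?_ hform
                          have := pow_anti hδ0 hδ1 (show 1 ≤ m + 1 by (clear * - d s₁ n₁ Nm nl Lf Lmax Nt S δ M; omega))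
                          rwa [pow_one] at this
                        obtain ⟨g0', t', _, ht'2, ht'3, ht'4, ht'v, ht'5⟩ := hrd S N δ (5 / 2 * D) (S.P (Fin.last m)) w M
                          hEnv hQpos hw0.le hPmp (by rw [← hDdef]; (clear * - hνM; linarith)) (f (Fin.last m))
                          (Finsupp.single ([], Fin.last m) 1)
                          ((f0, 0) :: List.ofFn fun i : Fin m =>
                              (f i.castSucc, (Finsupp.single (([] : List ℕ), i.castSucc) (1 : ℤ) : Phi (m + 1))))
                          (by simp) (hadm (hf _) _ (by omega))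
                          (by
                            intro fp hfp
                            rw [List.mem_cons, List.mem_ofFn] at hfp
                            rcases hfp with rfl | ⟨i, rfl⟩
                            · exact hadm hf0 _ (by omega)
                            · exact hadm (hf _) _ (by omega))
                          (by
                            rw [List.map_cons, List.map_ofFn]
                            exact hclu) hform'
                        rw [← hDdef] at ht'4
                        obtain ⟨fs, hfs⟩ : ∃ fs, fs = f (Fin.last m) := ⟨_, rfl⟩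
                        rw [← hfs] at ht'2 ht'5 ⊢
                        have hfsA : Adm (δ⁻¹ ^ n₁) S.Q fs := by rw [hfs]; exact hadm (hf _) _ (by omega)
                        have hγ1 : (d : ℝ) - ((d - 1 : ℕ) : ℝ) = 1 := by
                          rw [Nat.cast_sub (by omega)]
                          push_cast
                          ring
                        rw [hγ1] at ht'4
                        -- `lam1`
                        obtain ⟨L1, hL1⟩ : ∃ L1 : ℝ, L1 = (lam : ℝ) ^ d * (M : ℝ) ^ (d - 1) := ⟨_, rfl⟩
                        have hlam1e : S.P (Fin.last m) * ((M : ℝ) / D) ^ (d - 1) = L1 * (S.Q * D) := by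
                          rw [hPm0, hL1, div_pow, mul_pow]
                          have h1 : D ^ d = D ^ (d - 1) * D := by
                            rw [← pow_succ]
                            congr 1
                            omega
                          rw [h1]
                          have : D ^ (d - 1) ≠ 0 := by positivity
                          (clear * - this hM1' hD2 hlam1 hQpos; field_simp)
                        exact by
                          rw [hlam1e] at ht'4
                          have hMle : (M : ℝ) ≤ L1 := by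
                            rw [hL1]
                            calc (M : ℝ) = 1 * (M : ℝ) ^ 1 := by rw [pow_one, one_mul]
                              _ ≤ (lam : ℝ) ^ d * (M : ℝ) ^ (d - 1) :=
                                  mul_le_mul (one_le_pow₀ hlam1) (pow_le_pow_right₀ hM1' (by omega)) (by (clear * - hM1'; positivity))
                                    (by (clear * - hlam1; positivity))
                          have hL1p : 0 < L1 := by (clear * - hθp hθ64 hM1' hMle; linarith)
                          have hL1u : L1 ≤ δ⁻¹ ^ (d + (Nm + 1) * d) := by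
                            rw [hL1, pow_add]
                            refine mul_le_mul (pow_le_pow_left₀ (by (clear * - hlam1; positivity)) hlam d) ?_ (by (clear * - hM1'; positivity)) (by positivity)
                            calc (M : ℝ) ^ (d - 1) ≤ (M : ℝ) ^ d := pow_le_pow_right₀ hM1' (by omega)
                              _ ≤ (δ⁻¹ ^ (Nm + 1)) ^ d := by
                                  refine pow_le_pow_left₀ hMpos.le (hM2.trans ?_) d
                                  rw [pow_succ, mul_comm]
                                  exact mul_le_mul_of_nonneg_left hinv2 (by (clear * - hδ0; positivity))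
                              _ = δ⁻¹ ^ ((Nm + 1) * d) := (pow_mul _ _ _).symm
                          have hr1 : 1 ≤ t'.length := by
                            have := ht'4.ne
                            rw [ne_eq, List.map_eq_nil_iff] at this
                            exact List.length_pos_iff.2 this
                          -- the functions and the differences
                          obtain ⟨g, hg⟩ : ∃ g : Fin t'.length → ZMod N → ℂ, g = fun j => (t'[j.1]).1 := ⟨_, rfl⟩
                          obtain ⟨p, hp⟩ : ∃ p : Fin t'.length → Phi (m + 1), p = fun j => (t'[j.1]).2 - g0' := ⟨_, rfl⟩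
                          exact by
                            have hgA : ∀ j, Adm (δ⁻¹ ^ n₁) S.Q (g j) := by
                              intro j
                              rcases ht'2 (by omega) _ (List.getElem_mem j.2) with h | h
                              · rw [hg]; simp only [h]; exact hfsA
                              · rw [hg]; simp only [h]; exact hfsA.cnj
                            have hmem : ∀ j : Fin t'.length, (t'[j.1]).2 ∈ t'.map Prod.snd := fun j =>
                              List.mem_map.2 ⟨_, List.getElem_mem j.2, rfl⟩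
                            have hTp : ∀ j, Tp S c δ n₁ 1 (5 / 2 * D) 1 (L1 * (S.Q * D)) w (p j) := fun j => by
                              rw [hp]
                              exact ht'4.g _ (hmem j)
                            have hBd : ∀ j, Bd M (n₁ + n₁) (p j) := fun j => by
                              rw [hp]
                              exact (ht'4.bt _ (hmem j)).sub ht'4.b0
                            have hVV : ∀ j, p j ∈ (VV (d - 1) : AddSubgroup (Phi (m + 1))) := fun j => by
                              rw [hp]
                              exact ht'v _ (List.getElem_mem j.2)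
                            -- exact linear values
                            have haN : ∀ k, S.a c (Fin.last m) k = (S.Q : ℤ) * ((lam * k + rr : ℕ) : ℤ) ^ d := fun k =>
                              a_nat hIG (by rw [← hDdef]; exact hDp) hrr (Fin.last m) d hd k
                            exact by
                              have hlinj : ∀ j, ∃ αβ : ℤ × ℤ, ∀ k : ℕ, D ≤ k → (k : ℝ) ≤ 3 * D →
                                  |((ev (S.a c) (p j) k - S.Q * (αβ.1 * k + αβ.2) : ℤ) : ℝ)| ≤
                                    Ce * (1 + S.Q * D ^ ((d : ℝ) - 2 + θ) * ((M : ℝ) / D) ^ (d - 1)) := by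
                                intro j
                                obtain ⟨α, β, h⟩ := hev S M (S.Q * D ^ ((d : ℝ) - 2 + θ)) lam rr
                                  (mul_nonneg hQp.le (pp _).le) (by rw [← hDdef]; exact hD1) hG.ρ0 hG.ρ1
                                  (by rw [← hDdef]; exact hnM) (fun i => ⟨hP0 _, hPlow i⟩) haN (p j) (hBd j) (hVV j)
                                refine ⟨(α, β), ?_⟩
                                rw [← hDdef] at h
                                exact h
                              choose αβ hαβ using hlinj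
                              obtain ⟨Err, hErr⟩ : ∃ Err : ℝ, Err = S.Q * D ^ (-(1 / 2) : ℝ) := ⟨_, rfl⟩
                              have hErrp : 0 < Err := by rw [hErr]; exact mul_pos hQp (pp _)
                              have hErrb : Ce * (1 + S.Q * D ^ ((d : ℝ) - 2 + θ) * ((M : ℝ) / D) ^ (d - 1)) ≤ Err := by
                                have h1 : S.Q * D ^ ((d : ℝ) - 2 + θ) * ((M : ℝ) / D) ^ (d - 1) ≤ S.Q * D ^ (-(3 / 4) : ℝ) := by
                                  calc S.Q * D ^ ((d : ℝ) - 2 + θ) * ((M : ℝ) / D) ^ (d - 1)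
                                      ≤ S.Q * D ^ ((d : ℝ) - 2 + θ) * D ^ ((2 * θ - 1) * ((d - 1 : ℕ) : ℝ)) :=
                                        mul_le_mul_of_nonneg_left (hMDj _) (mul_nonneg hQp.le (pp _).le)
                                    _ = S.Q * D ^ ((d : ℝ) - 2 + θ + (2 * θ - 1) * ((d - 1 : ℕ) : ℝ)) := by rw [mul_assoc, pa]
                                    _ ≤ S.Q * D ^ (-(3 / 4) : ℝ) := by
                                        refine mul_le_mul_of_nonneg_left (pw ?_) hQp.le
                                        rw [Nat.cast_sub (by omega)]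
                                        push_cast
                                        (clear * - hθp hθd hθ64; nlinarith)
                                have h2 : (1 : ℝ) ≤ S.Q * D ^ (-(3 / 4) : ℝ) := by
                                  calc (1 : ℝ) = D ^ (0 : ℝ) := (Real.rpow_zero D).symm
                                    _ ≤ D ^ (2 + -(3 / 4) : ℝ) := pw (by norm_num)
                                    _ = D ^ (2 : ℝ) * D ^ (-(3 / 4) : ℝ) := (pa _ _).symm
                                    _ ≤ S.Q * D ^ (-(3 / 4) : ℝ) := mul_le_mul_of_nonneg_right hQ1 (pp _).le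
                                calc Ce * (1 + S.Q * D ^ ((d : ℝ) - 2 + θ) * ((M : ℝ) / D) ^ (d - 1))
                                    ≤ Ce * (2 * (S.Q * D ^ (-(3 / 4) : ℝ))) := mul_le_mul_of_nonneg_left (by (clear * - h1 h2; linarith)) hCe.le
                                  _ = (2 * Ce) * (S.Q * D ^ (-(3 / 4) : ℝ)) := by ring
                                  _ ≤ D ^ θ * (S.Q * D ^ (-(3 / 4) : ℝ)) :=
                                      mul_le_mul_of_nonneg_right hA4 (mul_nonneg hQp.le (pp _).le)
                                  _ = S.Q * D ^ (θ + -(3 / 4)) := by rw [← pa]; ring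
                                  _ ≤ S.Q * D ^ (-(1 / 2) : ℝ) := mul_le_mul_of_nonneg_left (pw (by (clear * - hθp hθ64; linarith))) hQp.le
                                  _ = Err := hErr.symm
                              -- the slopes
                              have hα : ∀ j, (αβ j).1 ≠ 0 ∧ |((αβ j).1 : ℝ)| ≤ δ⁻¹ ^ nl := by
                                intro j
                                obtain ⟨Λ, hΛ1, hΛ2, hΛ3⟩ := slope S c δ n₁ (n₁ + n₁) M (5 / 2 * D) (L1 * (S.Q * D)) w Err (p j)
                                  (by rw [← hDdef]; exact hD1) hG.ρ0 (hTp j) (hBd j) S.u S.T (by rw [← hDdef]; exact hu1)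
                                  (by (clear * - hθp hθ64 hD02 hDD hu2; linarith)) S.Q (αβ j).1 (αβ j).2
                                  ((hαβ j S.u hu1 (by (clear * - hθp hθ64 hD02 hDD hu2 hTp0; linarith))).trans hErrb)
                                  ((hαβ j (S.u + S.T) (by push_cast; (clear * - hu1 hTp0; linarith)) (by push_cast; (clear * - hθp hθ64 hD02 hDD hu2; linarith))).trans hErrb)
                                rw [← hDdef] at hΛ3
                                obtain ⟨E1, hE1⟩ : ∃ E1 : ℝ, E1 = ((n₁ + n₁ : ℕ) : ℝ) * 2 ^ (n₁ + n₁) := ⟨_, rfl⟩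
                                rw [← hE1] at hΛ3 hA6
                                obtain ⟨α, hαd⟩ : ∃ α : ℝ, α = ((αβ j).1 : ℝ) := ⟨_, rfl⟩
                                rw [← hαd] at hΛ3 ⊢
                                have hQT : 0 < (S.Q : ℝ) * S.T := mul_pos hQp hTp0
                                -- divide
                                obtain ⟨x, hx⟩ : ∃ x : ℝ, x = Λ / (S.Q * D) := ⟨_, rfl⟩
                                have hxa : |x| = |Λ| / (S.Q * D) := by
                                  rw [hx, abs_div, abs_of_pos (mul_pos hQp hDp)]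
                                have hx1 : δ ^ n₁ * L1 ≤ |x| := by
                                  rw [hxa, le_div_iff₀ (mul_pos hQp hDp)]
                                  calc δ ^ n₁ * L1 * (S.Q * D) = δ ^ n₁ * (L1 * (S.Q * D)) := by ring
                                    _ ≤ |Λ| := hΛ1
                                have hx2 : |x| ≤ δ⁻¹ ^ n₁ * L1 := by
                                  rw [hxa, div_le_iff₀ (mul_pos hQp hDp)]
                                  calc |Λ| ≤ δ⁻¹ ^ n₁ * (L1 * (S.Q * D)) := hΛ2
                                    _ = δ⁻¹ ^ n₁ * L1 * (S.Q * D) := by ring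
                                have hTΛ : S.T * (Λ / D) = x * (S.Q * S.T) := by
                                  rw [hx]; (clear * - hQpos hD2 hTn; field_simp)
                                have hTE : S.T * (δ⁻¹ ^ n₁ * (L1 * (S.Q * D)) * w / D) = (δ⁻¹ ^ n₁ * w * L1) * (S.Q * S.T) := by
                                  (clear * - hD2 hw0 hQpos hL1p hδ0 hTn; field_simp)
                                have hw4 : δ⁻¹ ^ n₁ * w ≤ δ ^ n₁ / 4 := by
                                  have h1 : w ≤ δ ^ (n₁ + n₁ + 2) := hwδ _ (by omega)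
                                  have h2 : δ⁻¹ ^ n₁ * δ ^ (n₁ + n₁ + 2) = δ ^ (n₁ + 2) := by
                                    calc δ⁻¹ ^ n₁ * δ ^ (n₁ + n₁ + 2) = (δ⁻¹ ^ n₁ * δ ^ n₁) * δ ^ (n₁ + 2) := by ring
                                      _ = δ ^ (n₁ + 2) := by rw [hcp, one_mul]
                                  calc δ⁻¹ ^ n₁ * w ≤ δ⁻¹ ^ n₁ * δ ^ (n₁ + n₁ + 2) := mul_le_mul_of_nonneg_left h1 (by (clear * - hδ0; positivity))
                                    _ = δ ^ (n₁ + 2) := h2
                                    _ = δ ^ n₁ * δ ^ 2 := pow_add _ _ _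
                                    _ ≤ δ ^ n₁ * (1 / 4) := by
                                        refine mul_le_mul_of_nonneg_left ?_ (by positivity)
                                        (clear * - hδ2 hδ0; nlinarith)
                                    _ = δ ^ n₁ / 4 := by ring
                                have hT32 : 32 ≤ (S.T : ℝ) := by
                                  calc (32 : ℝ) ≤ D ^ θ := hA7
                                    _ ≤ D ^ (1 - θ) := pw (by (clear * - hθp hθ64; linarith))
                                    _ ≤ S.T := hT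
                                have hQ1' : (1 : ℝ) ≤ S.Q := by
                                  calc (1 : ℝ) = D ^ (0 : ℝ) := (Real.rpow_zero D).symm
                                    _ ≤ D ^ (2 : ℝ) := pw (by norm_num)
                                    _ ≤ S.Q := hQ1
                                have herr1 : 2 * Err ≤ (1 / 16) * (S.Q * S.T) := by
                                  have h1 : D ^ (-(1 / 2) : ℝ) ≤ 1 := by
                                    calc D ^ (-(1 / 2) : ℝ) ≤ D ^ (0 : ℝ) := pw (by norm_num)
                                      _ = 1 := Real.rpow_zero D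
                                  have h2 : Err ≤ S.Q := by
                                    rw [hErr]
                                    exact mul_le_of_le_one_right hQp.le h1
                                  have h3 : (S.Q : ℝ) * 32 ≤ S.Q * S.T := mul_le_mul_of_nonneg_left hT32 hQp.le
                                  (clear * - h2 h3; linarith)
                                have herr2 : 2 * E1 ≤ (1 / 16) * (S.Q * S.T) := by
                                  have h1 : 32 * E1 ≤ S.T := by
                                    calc 32 * E1 ≤ D ^ θ := hA6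
                                      _ ≤ D ^ (1 - θ) := pw (by (clear * - hθp hθ64; linarith))
                                      _ ≤ S.T := hT
                                  have h2 : (1 : ℝ) * S.T ≤ S.Q * S.T := mul_le_mul_of_nonneg_right hQ1' hTp0.le
                                  (clear * - h1 h2; linarith)
                                have hdiff : |α - x| ≤ 1 / 8 + δ ^ n₁ / 4 * L1 := by
                                  rw [hTΛ, hTE] at hΛ3
                                  have h1 : α * (S.Q * S.T) - x * (S.Q * S.T) = (α - x) * (S.Q * S.T) := by ring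
                                  rw [h1, abs_mul, abs_of_pos hQT] at hΛ3
                                  have h2 : δ⁻¹ ^ n₁ * w * L1 ≤ δ ^ n₁ / 4 * L1 := mul_le_mul_of_nonneg_right hw4 hL1p.le
                                  have h3 : (δ⁻¹ ^ n₁ * w * L1) * (S.Q * S.T) ≤ (δ ^ n₁ / 4 * L1) * (S.Q * S.T) :=
                                    mul_le_mul_of_nonneg_right h2 hQT.le
                                  have h4 : |α - x| * (S.Q * S.T) ≤ (1 / 8 + δ ^ n₁ / 4 * L1) * (S.Q * S.T) := by (clear * - hΛ3 herr1 herr2 h3; linarith)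
                                  exact le_of_mul_le_mul_right h4 hQT
                                have hbig4 : 4 ≤ δ ^ n₁ * L1 := by
                                  have h1 : δ⁻¹ ^ (n₁ + 2) ≤ L1 :=
                                    (pow_le_pow_right₀ hinv1 (by (clear * - d s₁ hNm nl Lf Lmax Nt S δ M t'; omega))).trans (hM1.trans hMle)
                                  have h2 : δ ^ n₁ * δ⁻¹ ^ (n₁ + 2) = δ⁻¹ ^ 2 := by
                                    calc δ ^ n₁ * δ⁻¹ ^ (n₁ + 2) = (δ⁻¹ ^ n₁ * δ ^ n₁) * δ⁻¹ ^ 2 := by ring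
                                      _ = δ⁻¹ ^ 2 := by rw [hcp, one_mul]
                                  calc (4 : ℝ) = 2 ^ 2 := by norm_num
                                    _ ≤ δ⁻¹ ^ 2 := pow_le_pow_left₀ (by norm_num) hinv2 2
                                    _ = δ ^ n₁ * δ⁻¹ ^ (n₁ + 2) := h2.symm
                                    _ ≤ δ ^ n₁ * L1 := mul_le_mul_of_nonneg_left h1 (by (clear * - hδ0; positivity))
                                constructor
                                · intro h0
                                  have hα0 : α = 0 := by rw [hαd, h0, Int.cast_zero]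
                                  rw [hα0, zero_sub, abs_neg] at hdiff
                                  (clear * - hθp hθ64 hx1 hdiff hbig4; linarith)
                                · have h1 : |α| ≤ |x| + |α - x| := by
                                    have := abs_add_le x (α - x)
                                    rwa [add_sub_cancel] at this
                                  exact by
                                    have h2 : δ ^ n₁ ≤ δ⁻¹ ^ n₁ :=
                                      (pow_le_one₀ hδ0.le hδ1).trans (one_le_pow₀ hinv1)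
                                    have h3 : δ ^ n₁ * L1 ≤ δ⁻¹ ^ n₁ * L1 := mul_le_mul_of_nonneg_right h2 hL1p.le
                                    calc |α| ≤ 2 * (δ⁻¹ ^ n₁ * L1) := by (clear * - hθp hθ64 hx1 hx2 hdiff hbig4 h1; linarith)
                                      _ ≤ δ⁻¹ * (δ⁻¹ ^ n₁ * δ⁻¹ ^ (d + (Nm + 1) * d)) :=
                                          mul_le_mul hinv2 (mul_le_mul_of_nonneg_left hL1u (by positivity)) (by (clear * - hδ0 hL1p; positivity))
                                            (by (clear * - hδ0; positivity))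
                                      _ = δ⁻¹ ^ (n₁ + 1 + (d + (Nm + 1) * d)) := by ring
                                      _ ≤ δ⁻¹ ^ nl := pow_le_pow_right₀ hinv1 (by omega)
                              -- replace the sequences
                              have hf1 : δ ^ n₁ ≤ ‖𝔼 k ∈ range S.T, 𝔼 x : ZMod N, fs x *
                                  ∏ j, g j (x + ((ev (S.a c) (p j) (S.u + k) : ℤ) : ZMod N))‖ := by
                                rw [SW27.lform_translate] at ht'5
                                rw [← SW27.expect_Ico S.u S.T (fun k => 𝔼 x : ZMod N, fs x *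
                                  ∏ j, g j (x + ((ev (S.a c) (p j) k : ℤ) : ZMod N))), hg, hp]
                                exact ht'5
                              have hrep : ∀ k ∈ range S.T, ‖(𝔼 x : ZMod N, fs x *
                                  ∏ j, g j (x + ((ev (S.a c) (p j) (S.u + k) : ℤ) : ZMod N))) - 𝔼 x : ZMod N, fs x *
                                  ∏ j, g j (x + ((S.Q * ((αβ j).1 * k + ((αβ j).1 * S.u + (αβ j).2)) : ℤ) : ZMod N))‖ ≤
                                    (t'.length * Err) * (δ⁻¹ ^ n₁ * (1 / S.Q + 1 / N)) := by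
                                intro k hk
                                have hkT : (k : ℝ) ≤ S.T := by exact_mod_cast (Finset.mem_range.1 hk).le
                                have hk0 : (0 : ℝ) ≤ k := Nat.cast_nonneg k
                                have h4 := LF.expect_prod_diff hQp fs hfsA.bdd g hgA
                                  (fun j => ev (S.a c) (p j) (S.u + k))
                                  (fun j => S.Q * ((αβ j).1 * k + ((αβ j).1 * S.u + (αβ j).2))) (fun _ => Err)
                                  (fun j => by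
                                    have h5 := (hαβ j (S.u + k) (by push_cast; (clear * - hu1; linarith)) (by push_cast; (clear * - hθp hθ64 hD02 hDD hu2 hkT; linarith))).trans hErrb
                                    refine le_trans (le_of_eq ?_) h5
                                    congr 2
                                    push_cast
                                    ring)
                                rw [Finset.sum_const, Finset.card_univ, Fintype.card_fin, nsmul_eq_mul] at h4
                                exact h4
                              exact by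
                                have herr : (t'.length * Err) * (δ⁻¹ ^ n₁ * (1 / S.Q + 1 / N)) ≤ δ ^ n₁ / 2 := by
                                  have hQN : (S.Q : ℝ) ≤ N := hG.N2
                                  have hN : (1 : ℝ) / N ≤ 1 / S.Q := one_div_le_one_div_of_le hQp hQN
                                  have ht's : (t'.length : ℝ) ≤ s₁ := by exact_mod_cast ht'3
                                  have h1 : (t'.length * Err) * (δ⁻¹ ^ n₁ * (1 / S.Q + 1 / N)) ≤
                                      (s₁ * Err) * (δ⁻¹ ^ n₁ * (1 / S.Q + 1 / S.Q)) := by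
                                    have : (0 : ℝ) ≤ 1 / N := by (clear * -; positivity)
                                    (clear * - ht's hErrp hN hδ0 hQpos; gcongr)
                                  have h2 : (s₁ * Err) * (δ⁻¹ ^ n₁ * (1 / S.Q + 1 / S.Q)) =
                                      (2 * s₁) * D ^ (-(1 / 2) : ℝ) * δ⁻¹ ^ n₁ := by
                                    rw [hErr]
                                    field_simp
                                    ring
                                  have h3 : D ^ (-(1 / 2) : ℝ) * (D ^ θ * D ^ θ) ≤ D ^ (-θ) := by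
                                    rw [pa, pa]
                                    exact pw (by (clear * - hθp hθ64; linarith))
                                  calc _ ≤ (2 * s₁) * D ^ (-(1 / 2) : ℝ) * δ⁻¹ ^ n₁ := h1.trans (le_of_eq h2)
                                    _ = (1 / 2) * ((4 * s₁) * D ^ (-(1 / 2) : ℝ) * δ⁻¹ ^ n₁) := by ring
                                    _ ≤ (1 / 2) * (D ^ θ * D ^ (-(1 / 2) : ℝ) * D ^ θ) := by
                                        refine mul_le_mul_of_nonneg_left ?_ (by norm_num)
                                        refine mul_le_mul (mul_le_mul_of_nonneg_right hA5 (pp _).le) (hδi _ (by omega))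
                                          (by (clear * - hδ0; positivity)) (mul_nonneg (pp _).le (pp _).le)
                                    _ = (1 / 2) * (D ^ (-(1 / 2) : ℝ) * (D ^ θ * D ^ θ)) := by ring
                                    _ ≤ (1 / 2) * D ^ (-θ) := mul_le_mul_of_nonneg_left h3 (by norm_num)
                                    _ ≤ (1 / 2) * δ ^ n₁ := mul_le_mul_of_nonneg_left (hδn _ (by omega)) (by norm_num)
                                    _ = δ ^ n₁ / 2 := by ring
                                have h5 : δ ^ nl ≤ ‖𝔼 k ∈ range S.T, 𝔼 x : ZMod N, fs x *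
                                    ∏ j, g j (x + ((S.Q * ((αβ j).1 * k + ((αβ j).1 * S.u + (αβ j).2)) : ℤ) : ZMod N))‖ := by
                                  have h6 : ‖(𝔼 k ∈ range S.T, 𝔼 x : ZMod N, fs x *
                                    ∏ j, g j (x + ((ev (S.a c) (p j) (S.u + k) : ℤ) : ZMod N))) -
                                    𝔼 k ∈ range S.T, 𝔼 x : ZMod N, fs x *
                                    ∏ j, g j (x + ((S.Q * ((αβ j).1 * k + ((αβ j).1 * S.u + (αβ j).2)) : ℤ) : ZMod N))‖ ≤
                                      δ ^ n₁ / 2 := by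
                                    rw [← Finset.expect_sub_distrib]
                                    refine norm_expect_le_of5 _ _ (by positivity) fun k hk => ?_
                                    exact (hrep k hk).trans herr
                                  have h7 := norm_sub_norm_le (𝔼 k ∈ range S.T, 𝔼 x : ZMod N, fs x *
                                    ∏ j, g j (x + ((ev (S.a c) (p j) (S.u + k) : ℤ) : ZMod N)))
                                    (𝔼 k ∈ range S.T, 𝔼 x : ZMod N, fs x *
                                    ∏ j, g j (x + ((S.Q * ((αβ j).1 * k + ((αβ j).1 * S.u + (αβ j).2)) : ℤ) : ZMod N)))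
                                  have h8 : δ ^ nl ≤ δ ^ n₁ / 2 := by
                                    calc δ ^ nl ≤ δ ^ (n₁ + 1) := pow_le_pow_of_le_one hδ0.le hδ1 (by (clear * - hd2 hNm hnl hLmax hNt S δ M t'; omega))
                                      _ ≤ δ ^ n₁ / 2 := by
                                        rw [pow_succ]
                                        have : 0 < δ ^ n₁ := by (clear * - hδ0; positivity)
                                        (clear * - hθp hθ64 hδ2 this; nlinarith)
                                  (clear * - hf1 h6 h7 h8; linarith)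
                                -- linear forms
                                have hLr : Lf t'.length ≤ Lmax := by
                                  rw [hLmax]
                                  exact Finset.single_le_sum (f := Lf) (fun _ _ => Nat.zero_le _)
                                    (Finset.mem_range.2 (Nat.lt_succ_of_le ht'3))
                                have hDT : ∀ n : ℕ, n ≤ Nt → D ^ (1 - 2 * θ) ≤ δ ^ n * S.T := by
                                  intro n hn
                                  calc D ^ (1 - 2 * θ) = D ^ (-θ) * D ^ (1 - θ) := by rw [pa]; congr 1; ring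
                                    _ ≤ δ ^ n * S.T := mul_le_mul (hδn _ hn) hT (pp _).le (by (clear * - hδ0; positivity))
                                obtain ⟨q, hq1, hq2, hq3⟩ := hLf t'.length hr1 N δ S.T S.Q (fun j => (αβ j).1)
                                  (fun j => (αβ j).1 * S.u + (αβ j).2) fs g hδ0 hδ2 hfsA.bdd (fun j => (hgA j).bdd) hα
                                  (by
                                    calc δ⁻¹ ^ Lf t'.length ≤ D ^ θ := hδi _ (by omega)
                                      _ ≤ D ^ (1 - θ) := pw (by (clear * - hθp hθ64; linarith))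
                                      _ ≤ S.T := hT)
                                  (by exact_mod_cast h5)
                                have h2s : 1 ≤ 2 ^ s₁ := Nat.one_le_two_pow
                                have hLC : Lf t'.length ≤ Lmax * 2 ^ s₁ := hLr.trans (Nat.le_mul_of_pos_right _ h2s)
                                exact by
                                  refine ⟨q, hq1, hq2.trans (pow_le_pow_right₀ hinv1 hLC), ?_⟩
                                  intro H hH hHb
                                  rw [← hDdef] at hHb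
                                  have h9 := hq3 H hH (hHb.trans ((pw (by (clear * - hθp hθκ; linarith))).trans (hDT _ (by omega))))
                                  have h10 := Boxq_raise (S.Q * q) t'.length s₁ H ht'3 hH hfsA.bdd hδ0 hδ1 _ h9
                                  exact (pow_le_pow_of_le_one hδ0.le hδ1 (Nat.mul_le_mul_right _ hLr)).trans h10

end

end Pool.Agent.Helper67.NX2

end

section

set_option autoImplicit false

open Finset

open scoped BigOperators ComplexConjugate

namespace Pool.Agent.Helper67.NX2

open Pool.Agent.Helper57.NX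

noncomputable section

theorem dl_total' (r : ℕ) (Γ : ℕ → ℕ → ℕ) (n : ℕ) : ∃ n4 : ℕ,
    ∀ (p : ℕ) [NeZero p] (κ ι : Type) [Fintype κ] [Nonempty κ] (Ω : Finset ι)
      (F : ι → κ → ZMod p → ℂ) (u : κ → ZMod p → ℂ) (δ : ℝ) (X : ℕ), p.Prime → Ω.Nonempty →
      (∀ n i x, ‖F n i x‖ ≤ 1) → (∀ i x, u i x = conj (𝔼 n ∈ Ω, F n i x)) →
      0 < δ → δ ≤ 1 / 2 → δ⁻¹ ^ n4 ≤ (X : ℝ) → (X : ℝ) ≤ δ ^ n4 * p →
      δ ^ n ≤ 𝔼 i, Box r X (u i) →
      (∀ nq ≤ n4, ∀ q : ℕ, 1 ≤ q → (q : ℝ) ≤ δ⁻¹ ^ nq → ∀ k ≤ r, ∀ n2 ≤ n4, ∀ X2 X' : ℕ,
        δ ^ n4 * X ≤ X2 → X2 ≤ X → 1 ≤ X' → X' ≤ X2 →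
        LPhM Ω (fun n i z => F n i ((q : ZMod p) * z)) k X' X2 (δ⁻¹ ^ (Γ nq n2))
          (δ⁻¹ ^ (Γ nq n2) / X2) (δ ^ n2)) →
      ∃ q : ℕ, 1 ≤ q ∧ (q : ℝ) ≤ δ⁻¹ ^ n4 ∧ ∀ L : ℕ, 1 ≤ L → (L : ℝ) ≤ δ ^ n4 * X →
        δ ^ n4 ≤ 𝔼 i, nrm (A L (fun z => u i ((q : ZMod p) * z))) :=
  h9_dl_total (fun k hk => h9_low_of k (dl_A' k hk) (dl_B' k hk)) r Γ n

end

end Pool.Agent.Helper67.NX2

end

section

set_option autoImplicit false

open Finset

open scoped BigOperators ComplexConjugate

namespace Pool.Agent.Helper67.NX2

open Pool.Agent.Helper57.NX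

noncomputable section

/-- the lower functions (natural top exponent) -/
theorem low_arith (m : ℕ) (c : Fin (m + 1) → ℝ) (hc : Ex c) (d : ℕ)
    (hd : c (Fin.last m) = d) (s : ℝ) (hs0 : 0 < s) (hs : s < 1)
    (hT : ∀ ε : ℝ, 0 < ε → TopPm m c s ε)
    (hdag : ∀ κ : ℝ, 0 < κ → ∃ x0 : ℝ, 0 < x0 ∧ ∃ C : ℕ, ∃ σ : ℝ, 0 < σ ∧ ∃ D0 : ℝ,
      ∀ (S : Sys (m + 1)) (N : ℕ) [NeZero N] (lam : ℕ), D0 ≤ S.D → IG S c N x0 lam →
      ∀ δ : ℝ, S.D ^ (-σ) ≤ δ → δ ≤ 1 / 2 → (lam : ℝ) ≤ δ⁻¹ →
      ∀ (f0 : ZMod N → ℂ) (f : Fin (m + 1) → ZMod N → ℂ),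
      Adm δ⁻¹ S.Q f0 → (∀ i, Adm δ⁻¹ S.Q (f i)) → δ ≤ ‖form S c 1 f0 f‖ →
      ∃ q : ℕ, 1 ≤ q ∧ (q : ℝ) ≤ δ⁻¹ ^ C ∧ ∀ L : ℕ, 1 ≤ L → (L : ℝ) ≤ S.D ^ (s - κ) →
        δ ^ C ≤ nrm (Aq (S.Q * q) L (dual S c 1 f0 f (Fin.last m))))
    (hU : ∀ ε : ℝ, 0 < ε → UPm m (fun i => c i.castSucc) ε) :
    ∀ ε : ℝ, 0 < ε → UsJ m c 0 ε (univ.erase (Fin.last m)) := by
  refine Low94.low_core m c hc d hd s hs0 (fun ε hε => ?_) hdag hU
  have h2 := hc.two (Fin.last m)
  rw [hd] at h2
  exact ar_top m c hc d hd s hs0 (by linarith) hT ε hε

end

end Pool.Agent.Helper67.NX2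

end

section

set_option autoImplicit false

open Finset

open scoped BigOperators ComplexConjugate

namespace Pool.Agent.Helper67.NX2

open Pool.Agent.Helper57.NX

noncomputable section

theorem ds_of_us' (m : ℕ) (c : Fin (m + 1) → ℝ) (hc : Ex c) (s : ℝ) (hs0 : 0 ≤ s)
    (hs : s < c (Fin.last m)) (hU : ∀ ε : ℝ, 0 < ε → UsJ m c s ε univ) :
    ∀ ε : ℝ, 0 < ε → DsPm m c s ε := by
  refine ds_core45 m c hc s fun ε hε => ?_
  obtain ⟨x0, hx0, C, σ, hσ, D0, H⟩ := char_rep m c hc s hs0 hs univ hU ε hε
  refine ⟨x0, hx0, C, σ, hσ, D0, ?_⟩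
  intro S N _ lam hD hG δ hδσ hδ hlam X hQX hX hX' h f0 f hh hf0 hf hfl hform
  obtain ⟨q, hq1, hq, b, cc, hbc, hF⟩ := H S N lam hD hG δ hδσ hδ hlam X hQX hX hX' h f0 f hh hf0
    hf hfl hform
  refine ⟨q, hq1, hq, b, cc, fun i => hbc i (mem_univ i), ?_⟩
  simpa only [mem_univ, if_true] using hF

end

end Pool.Agent.Helper67.NX2

end

section

set_option autoImplicit false

open Finset

open scoped BigOperators ComplexConjugate

namespace Pool.Agent.Helper67.NX2

open Pool.Agent.Helper57.NX

noncomputable section

theorem var_bound (r0 r1 : ℕ) (hr1 : 1 ≤ r1) : ∃ C : ℝ, 0 < C ∧ ∀ (z : ℕ) (A : Finset ℕ),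
    PrA z A → ∀ b j K R : ℕ, 1 ≤ b → b ≤ z → 2 ≤ R → R ≤ 2 ^ b → 1 ≤ K →
    (K * R ^ (2 * r0 * r1)) ^ 16 ≤ 2 ^ b → (∀ p : ℕ, p.Prime → p ∣ K → p ≤ R) →
    ∀ PP : Finset ℕ, (∀ p ∈ PP, p.Prime ∧ p ≤ R ∧ ¬ p ∣ K) →
    ∀ (κ : ℕ) (B : Finset ℕ) (ω : ℕ → ℕ), B ⊆ PP → B.card ≤ r0 →
    ∑ E ∈ (PP \ B).powerset.filter (fun E => (B ∪ E).card ≤ r0),
      𝔼 t ∈ range (∏ p ∈ E, p ^ r1),
        DS (FA z A) K r1 b j (B ∪ E) κ (fun p => if p ∈ B then ω p else t) ^ 2 ≤
      (C * (z / b) * Real.log R) ^ 2 :=
  var_bound_of r0 r1 hr1 (fun E hE Y f => pars r1 hr1 E hE Y f) ls_major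
    (cell_le_of_bt bt_class) totient_ratio

end

end Pool.Agent.Helper67.NX2

end

section

set_option autoImplicit false

open Finset

open scoped BigOperators ComplexConjugate

namespace Pool.Agent.Helper57.NX

noncomputable section

theorem base (hES : ES0) (m : ℕ) (c : Fin (m + 1) → ℝ) (hc : StrictMono c) (hc0 : ∀ i, 0 < c i)
    (hcn : ∀ i (n : ℕ), c i ≠ n)
    (hD : ∀ ε : ℝ, 0 < ε → DP m (fun i => c i.castSucc) ε) :
    ∃ sb : ℝ, 0 < sb ∧ sb < c (Fin.last m) ∧ ∀ ε : ℝ, 0 < ε → TopP m c sb ε :=
  base_of28 m c hc hc0 (fun s hs0 hs hs1 ε hε => base_cells m c hc hc0 s hs0 hs hs1 hD ε hε)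
    (base_class hES m c hc hc0) (base_large hES m c hc hc0 hcn _)
    (fun n ε2 h h1 ε hε hε1 => base_small m c hc hc0 n ε2 h h1 ε hε hε1)

end

end Pool.Agent.Helper57.NX

end
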