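import Pool.Agent.Helper23.MC.L02_a1
import Pool.Agent.Helper23.MC.L02_a14
import Pool.Agent.Helper23.MC.L02_a16
import Pool.Agent.Helper23.MC.L02_a6
import Pool.Agent.Helper23.MC.L02_a9

/-!
Parts of Helper51.NX.Sweep, Helper61.NX.DsOfUs, Helper45.NX.Round, Helper82.NX2.Gnc, Helper82.NX2.GncNat
-/

attribute [local instance 5000]
  Pool.Agent.Helper23.MC.Inst.rCharZero Pool.Agent.Helper23.MC.Inst.rALM
  Pool.Agent.Helper23.MC.Inst.rARM Pool.Agent.Helper23.MC.Inst.rALSM
  Pool.Agent.Helper23.MC.Inst.rARSM Pool.Agent.Helper23.MC.Inst.rARRLE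
  Pool.Agent.Helper23.MC.Inst.rALRLE Pool.Agent.Helper23.MC.Inst.rARRLT
  Pool.Agent.Helper23.MC.Inst.rALRLT Pool.Agent.Helper23.MC.Inst.rPMRLT
  Pool.Agent.Helper23.MC.Inst.rMPRLT Pool.Agent.Helper23.MC.Inst.rPMM
  Pool.Agent.Helper23.MC.Inst.rMPM Pool.Agent.Helper23.MC.Inst.rPMSM
  Pool.Agent.Helper23.MC.Inst.rMPSM Pool.Agent.Helper23.MC.Inst.rEAOL
  Pool.Agent.Helper23.MC.Inst.rIOR Pool.Agent.Helper23.MC.Inst.rISOR
  Pool.Agent.Helper23.MC.Inst.rNZD Pool.Agent.Helper23.MC.Inst.rcCharZero
  Pool.Agent.Helper23.MC.Inst.rcNZD Pool.Agent.Helper23.MC.Inst.zCharZero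
  Pool.Agent.Helper23.MC.Inst.zALM Pool.Agent.Helper23.MC.Inst.zARM
  Pool.Agent.Helper23.MC.Inst.zALSM Pool.Agent.Helper23.MC.Inst.zARSM
  Pool.Agent.Helper23.MC.Inst.zIOR Pool.Agent.Helper23.MC.Inst.zISOR
  Pool.Agent.Helper23.MC.Inst.zNZD Pool.Agent.Helper23.MC.Inst.qCharZero
  Pool.Agent.Helper23.MC.Inst.mR Pool.Agent.Helper23.MC.Inst.mC Pool.Agent.Helper23.MC.Inst.mRC
  Pool.Agent.Helper23.MC.Inst.rPSM Pool.Agent.Helper23.MC.Inst.rCSM
  Pool.Agent.Helper23.MC.Inst.cAdd Pool.Agent.Helper23.MC.Inst.cAddM
  Pool.Agent.Helper23.MC.Inst.cMul Pool.Agent.Helper23.MC.Inst.cMon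

namespace Pool.Agent.Helper57.NX
end Pool.Agent.Helper57.NX

section

set_option autoImplicit false

open Finset

open scoped BigOperators ComplexConjugate

namespace Pool.Agent.Helper57.NX

noncomputable section

open SW27 LF in
/-- NX-27: the linear sweep. -/
theorem sweep (γ : ℝ) (hγ : γ ≠ 0) (n : ℕ) : ∃ n' : ℕ, ∀ (m : ℕ) (S : Sys m) (c : Fin m → ℝ)
    (N : ℕ) [NeZero N] (δ Y lam w X : ℝ) (M R K : ℕ), Env S N δ M R w n' → 0 < lam →
    5 / 2 * S.D ≤ Y → Y ≤ 3 * S.D →
    ∀ (fs : ZMod N → ℂ) (g0 : Phi m) (t : List ((ZMod N → ℂ) × Phi m)),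
      Adm (δ⁻¹ ^ n) X fs → (∀ fp ∈ t, fp.1 = fs ∨ fp.1 = fun x => conj (fs x)) →
      Clu S c δ M n 2 Y γ lam w g0 (t.map Prod.snd) → n * (M : ℝ) ≤ S.D / 4 →
      δ ^ n ≤ ‖lform S c 1 ((fs, g0) :: t)‖ →
      δ⁻¹ ^ n' ≤ K → (K : ℝ) ≤ δ ^ n' * S.T → lam * (K / S.D) ^ 2 ≤ δ ^ n' * X →
      lam / S.D ≤ δ ^ n' * X → 1 ≤ δ ^ n' * X → X ≤ N → X ≤ δ ^ n' * (lam * (K / S.D)) →
      ∀ X1 : ℕ, 1 ≤ X1 → (X1 : ℝ) ≤ δ ^ n' * (lam * (K / S.D)) →
        δ ^ n' ≤ Box t.length X1 fs := by
  classical
  obtain ⟨q, hq⟩ := one_diff γ hγ n
  set Lf : ℕ → ℕ := fun r => if hr : 1 ≤ r then Classical.choose (lin_forms r (n + 1) hr) else 0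
    with hLf
  set Lmax : ℕ := ∑ r ∈ range (n + 1), Lf r with hLmax
  refine ⟨Lmax + 4 * n + 2 * q + 8, ?_⟩
  intro m S c N _ δ Y lam w X M R K hEnv hlam hY1 hY2 fs g0 t hfs ht hClu hnM hform hK1 hK2 hlK
    hlX h1X hXN hXK X1 hX1 hX1b
  set n' : ℕ := Lmax + 4 * n + 2 * q + 8 with hn'
  have hδ0 := hEnv.δ0
  have hδ1 := hEnv.δ1
  have hδ1' : δ ≤ 1 := by (clear * - hδ0 hδ1; linarith)
  exact by
    have hD1 := hEnv.D1
    have hD0 : 0 < S.D := by (clear * - hδ0 hδ1 hD1; linarith)
    have hw0 : 0 ≤ w := (by (clear * - hD1; positivity) : (0 : ℝ) ≤ (M : ℝ) / S.D).trans hEnv.MD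
    have hδn : ∀ a b : ℕ, a ≤ b → δ ^ b ≤ δ ^ a := fun a b hab =>
      pow_le_pow_of_le_one hδ0.le hδ1' hab
    have hinv1 : 1 ≤ δ⁻¹ := (one_le_inv₀ hδ0).2 hδ1'
    have hX0 : 0 < X := by
      have : 0 < δ ^ n' * X := by (clear * - h1X hδ0 hδ1; linarith)
      exact (mul_pos_iff_of_pos_left (by (clear * - hδ0; positivity) : (0 : ℝ) < δ ^ n')).1 this
    exact by
      have hr1 : 1 ≤ t.length := by
        have := hClu.ne
        rw [ne_eq, List.map_eq_nil_iff] at this
        exact List.length_pos_iff.2 this
      have hrn : t.length ≤ n := by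
        have := hClu.le
        rwa [List.length_map] at this
      have hLr : Lf t.length ≤ Lmax :=
        Finset.single_le_sum (f := Lf) (fun _ _ => Nat.zero_le _)
          (Finset.mem_range.2 (Nat.lt_succ_of_le hrn))
      have hLspec := Classical.choose_spec (lin_forms t.length (n + 1) hr1)
      have hLe : Classical.choose (lin_forms t.length (n + 1) hr1) = Lf t.length := by
        rw [hLf]
        simp only [dif_pos hr1]
      rw [hLe] at hLspec
      set L := Lf t.length with hL
      -- the functions and the differences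
      set g : Fin t.length → ZMod N → ℂ := fun j => (t[j.1]).1 with hg
      set p : Fin t.length → Phi m := fun j => (t[j.1]).2 - g0 with hp
      exact by
        have hgA : ∀ j, Adm (δ⁻¹ ^ n) X (g j) := by
          intro j
          rcases ht _ (List.getElem_mem j.2) with h | h
          · rw [hg]; simp only [h]; exact hfs
          · rw [hg]; simp only [h]; exact hfs.cnj
        have hmem : ∀ j : Fin t.length, (t[j.1]).2 ∈ t.map Prod.snd := fun j =>
          List.mem_map.2 ⟨_, List.getElem_mem j.2, rfl⟩
        have hTp : ∀ j, Tp S c δ n 2 Y γ lam w (p j) := fun j => hClu.g _ (hmem j)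
        have hBd : ∀ j, Bd M (n + n) (p j) := fun j => (hClu.bt _ (hmem j)).sub hClu.b0
        -- the sequence
        set G : ℕ → ℂ := fun k => 𝔼 x : ZMod N, fs x *
            ∏ j, g j (x + ((ev (S.a c) (p j) k : ℤ) : ZMod N)) with hG
        have hG1 : ∀ k, ‖G k‖ ≤ 1 := by
          intro k
          refine norm_expect_le_of5 _ _ zero_le_one fun x _ => ?_
          rw [norm_mul, norm_prod]
          have h1 : ∏ j, ‖g j (x + ((ev (S.a c) (p j) k : ℤ) : ZMod N))‖ ≤ 1 :=
            Finset.prod_le_one (fun _ _ => norm_nonneg _) fun j _ => (hgA j).bdd _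
          calc ‖fs x‖ * ∏ j, ‖g j (x + ((ev (S.a c) (p j) k : ℤ) : ZMod N))‖ ≤ 1 * 1 :=
                mul_le_mul (hfs.bdd x) h1 (Finset.prod_nonneg fun _ _ => norm_nonneg _) zero_le_one
            _ = 1 := one_mul 1
        have hf1 : δ ^ n ≤ ‖𝔼 k ∈ range S.T, G (S.u + k)‖ := by
          rw [lform_translate] at hform
          rw [← expect_Ico]
          exact hform
        -- sizes of `K` and `T`
        exact by
          have hKpos : (1 : ℝ) ≤ K := (one_le_pow₀ hinv1).trans hK1
          have hK1' : 1 ≤ K := by exact_mod_cast hKpos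
          have hTpos : (0 : ℝ) < S.T := by
            have h0 : (0 : ℝ) < δ ^ n' * S.T := by (clear * - hK2 hδ0 hδ1 hKpos; linarith)
            exact (mul_pos_iff_of_pos_left (by (clear * - hδ0; positivity) : (0 : ℝ) < δ ^ n')).1 h0
          have hTpos' : 0 < S.T := by exact_mod_cast hTpos
          -- averaging over short intervals
          have h1 := avg_avg (range K) ⟨0, Finset.mem_range.2 hK1'⟩ (fun l => l) (K : ℝ)
            (fun l hl => by exact_mod_cast (Finset.mem_range.1 hl).le) (fun k => G (S.u + k))
            (fun k => hG1 _) S.T hTpos'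
          have hKT : 2 * (K : ℝ) / S.T ≤ δ ^ n / 4 := by
            have h2 : (8 : ℝ) * δ ^ n' ≤ δ ^ n := absorb hδ0 hδ1 8 3 n n' (by norm_num) (by (clear * - S K X1 hr1 hrn; omega))
            rw [div_le_iff₀ hTpos]
            (clear * - hK2 h2; nlinarith)
          exact by
            have h2 : 3 / 4 * δ ^ n ≤ ‖𝔼 k ∈ range S.T, 𝔼 l ∈ range K, G (S.u + (k + l))‖ := by
              have h3 := norm_sub_norm_le (𝔼 k ∈ range S.T, G (S.u + k))
                (𝔼 k ∈ range S.T, 𝔼 l ∈ range K, G (S.u + (k + l)))
              (clear * - hf1 h1 hKT h3; linarith)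
            obtain ⟨k, hk, h3⟩ := exists_of_le_norm_expect (range S.T) ⟨0, Finset.mem_range.2 hTpos'⟩ _ _ h2
            set k0 := S.u + k with hk0
            have hkT : (k : ℝ) ≤ S.T := by exact_mod_cast (Finset.mem_range.1 hk).le
            have hk0D : S.D ≤ (k0 : ℝ) := by
              rw [hk0]
              push_cast
              have := hEnv.u1
              have h0 : (0 : ℝ) ≤ k := Nat.cast_nonneg k
              (clear * - this; linarith)
            have hk0Y : (k0 : ℝ) + K ≤ Y := by
              have h4 : δ ^ n' ≤ 1 / 2 := by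
                calc δ ^ n' ≤ δ ^ 1 := hδn 1 n' (by omega)
                  _ ≤ 1 / 2 := by rw [pow_one]; exact hδ1
              have h5 : (K : ℝ) ≤ 1 / 2 * S.T := hK2.trans (by (clear * - h4 hTpos'; gcongr))
              have h6 : (S.T : ℝ) ≤ S.D := by
                have := hEnv.u1
                have := hEnv.u2
                linarith
              rw [hk0]
              push_cast
              have := hEnv.u2
              (clear * - hY1 hkT h5 h6 this; linarith)
            have hwq : w ≤ δ ^ (2 * n + q) := hEnv.w1.trans (hδn _ _ (by (clear * - S K X1 hr1 hrn k; omega)))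
            exact by
              have hdat := fun j => hq m S c δ Y lam w M (p j) hD1 hEnv.ρ0 hEnv.ρ1 hδ0 hδ1 hlam hw0 hwq hY2
                (hTp j) (hBd j) k0 K hk0D hk0Y hK1'
              set α : Fin t.length → ℝ := fun j => jet S c 1 (p j) k0 with hα
              set bt : Fin t.length → ℤ := fun j => ⌊jet S c 0 (p j) k0⌋ with hbt
              -- replace the sequences by linear ones
              set E : ℝ := 2 ^ q * δ⁻¹ ^ n * (1 + lam * (K / S.D) ^ 2) with hE
              have hrep : ∀ l ∈ range K, ‖G (S.u + (k + l)) - 𝔼 x : ZMod N, fs x *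
                  ∏ j, g j (x + ((bt j + ⌊α j * l⌋ : ℤ) : ZMod N))‖ ≤
                    (t.length * E) * (δ⁻¹ ^ n * (1 / X + 1 / N)) := by
                intro l hl
                have h4 := expect_prod_diff hX0 fs hfs.bdd g hgA
                  (fun j => ev (S.a c) (p j) (k0 + l)) (fun j => bt j + ⌊α j * l⌋) (fun _ => E)
                  (fun j => (hdat j).2.2 l (Finset.mem_range.1 hl))
                rw [Finset.sum_const, Finset.card_univ, Fintype.card_fin, nsmul_eq_mul] at h4
                have e1 : G (S.u + (k + l)) = 𝔼 x : ZMod N, fs x *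
                  ∏ j, g j (x + ((ev (S.a c) (p j) (k0 + l) : ℤ) : ZMod N)) := by
                  rw [hG, hk0]
                  simp only [add_assoc]
                rw [e1]
                exact h4
              exact by
                have herr : (t.length * E) * (δ⁻¹ ^ n * (1 / X + 1 / N)) ≤ δ ^ n / 4 := by
                  have hcp : δ⁻¹ ^ (2 * n) * δ ^ (2 * n) = 1 := by
                    rw [← mul_pow, inv_mul_cancel₀ hδ0.ne', one_pow]
                  have hE' : E ≤ 2 ^ q * δ⁻¹ ^ n * (2 * (δ ^ n' * X)) := by
                    rw [hE]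
                    gcongr
                    (clear * - hlK h1X; linarith)
                  have hN : (1 : ℝ) / N ≤ 1 / X := one_div_le_one_div_of_le hX0 hXN
                  have hr' : (t.length : ℝ) ≤ 2 ^ n := by
                    calc (t.length : ℝ) ≤ n := by exact_mod_cast hrn
                      _ ≤ 2 ^ n := by exact_mod_cast Nat.lt_two_pow_self.le
                  have hEnn : 0 ≤ E := by rw [hE]; (clear * - hδ0 hlam hK1' hD1; positivity)
                  have hNnn : (0 : ℝ) ≤ 1 / N := by (clear * -; positivity)
                  calc (t.length * E) * (δ⁻¹ ^ n * (1 / X + 1 / N))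
                      ≤ (2 ^ n * (2 ^ q * δ⁻¹ ^ n * (2 * (δ ^ n' * X)))) * (δ⁻¹ ^ n * (1 / X + 1 / X)) := by
                        (clear * - hr' hE' hδ0 hlam hK1' hD1 hN hX0; gcongr)
                    _ = 2 ^ (n + q + 2) * (δ⁻¹ ^ (2 * n) * δ ^ n') := by
                        field_simp
                        ring
                    _ = 2 ^ (n + q + 2) * δ ^ (n' - 2 * n) := by
                        congr 1
                        have : δ ^ n' = δ ^ (2 * n) * δ ^ (n' - 2 * n) := by
                          rw [← pow_add]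
                          congr 1
                          omega
                        rw [this, ← mul_assoc, hcp, one_mul]
                    _ ≤ δ ^ (n + 2) := absorb hδ0 hδ1 _ (n + q + 2) (n + 2) (n' - 2 * n) le_rfl (by (clear * - S K X1 hr1 k; omega))
                    _ = δ ^ n * δ ^ 2 := by ring
                    _ ≤ δ ^ n * (1 / 4) := by
                        gcongr
                        (clear * - hδ1 hδ0; nlinarith)
                    _ = δ ^ n / 4 := by ring
                have h5 : δ ^ (n + 1) ≤ ‖𝔼 l ∈ range K, 𝔼 x : ZMod N, fs x *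
                    ∏ j, g j (x + ((bt j + ⌊α j * l⌋ : ℤ) : ZMod N))‖ := by
                  have h6 : ‖(𝔼 l ∈ range K, G (S.u + (k + l))) - 𝔼 l ∈ range K, 𝔼 x : ZMod N, fs x *
                    ∏ j, g j (x + ((bt j + ⌊α j * l⌋ : ℤ) : ZMod N))‖ ≤ δ ^ n / 4 := by
                    rw [← Finset.expect_sub_distrib]
                    refine norm_expect_le_of5 _ _ (by (clear * - hδ0; positivity)) fun l hl => ?_
                    exact (hrep l hl).trans herr
                  have h7 := norm_sub_norm_le (𝔼 l ∈ range K, G (S.u + (k + l)))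
                    (𝔼 l ∈ range K, 𝔼 x : ZMod N, fs x * ∏ j, g j (x + ((bt j + ⌊α j * l⌋ : ℤ) : ZMod N)))
                  have h8 : δ ^ (n + 1) ≤ δ ^ n / 2 := by
                    rw [pow_succ]
                    have : 0 < δ ^ n := by positivity
                    (clear * - hδ1 this; nlinarith)
                  (clear * - h3 h6 h7 h8; linarith)
                -- the linear forms
                have hconcl := hLspec N δ X (δ ^ (n + q) * (lam / S.D)) K α fs
                  (fun j x => g j (x + (bt j : ZMod N))) hδ0 hδ1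
                  (hfs.mono (pow_le_pow_right₀ hinv1 (Nat.le_succ n)) hX0 le_rfl)
                  (fun j => ((hgA j).shift _).mono (pow_le_pow_right₀ hinv1 (Nat.le_succ n)) hX0 le_rfl)
                  (by positivity) (fun j => (hdat j).1) ?_ ?_ hXN ?_ ?_ ?_ X1 hX1 ?_
                · exact (hδn _ _ (by omega)).trans hconcl
                · intro j
                  exact by
                    have hcp : δ⁻¹ ^ n * δ ^ n = 1 := by
                      rw [← mul_pow, inv_mul_cancel₀ hδ0.ne', one_pow]
                    calc |α j| ≤ 2 ^ q * δ⁻¹ ^ n * (lam / S.D) := (hdat j).2.1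
                      _ ≤ 2 ^ q * δ⁻¹ ^ n * (δ ^ n' * X) := by (clear * - hlX hδ0; gcongr)
                      _ = (2 ^ q * δ ^ (n' - n)) * X := by
                          have : δ ^ n' = δ ^ n * δ ^ (n' - n) := by
                            rw [← pow_add]
                            congr 1
                            (clear * - S K X1 hrn hLr hLe k; omega)
                          rw [this]
                          calc _ = 2 ^ q * (δ⁻¹ ^ n * δ ^ n) * δ ^ (n' - n) * X := by ring
                            _ = _ := by rw [hcp]; ring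
                      _ ≤ δ ^ L * X := by
                          gcongr
                          exact absorb hδ0 hδ1 _ q L (n' - n) le_rfl (by omega)
                · calc (1 : ℝ) ≤ δ ^ n' * X := h1X
                    _ ≤ δ ^ L * X := mul_le_mul_of_nonneg_right (hδn _ _ (by omega)) hX0.le
                · calc δ⁻¹ ^ L ≤ δ⁻¹ ^ n' := pow_le_pow_right₀ hinv1 (by omega)
                    _ ≤ K := hK1
                · calc X ≤ δ ^ n' * (lam * (K / S.D)) := hXK
                    _ ≤ δ ^ (L + (n + q)) * (lam * (K / S.D)) :=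
                        mul_le_mul_of_nonneg_right (hδn _ _ (by omega)) (by (clear * - hlam hK1' hD1; positivity))
                    _ = δ ^ L * (δ ^ (n + q) * (lam / S.D)) * K := by rw [pow_add]; ring
                · refine h5.trans (le_of_eq ?_)
                  exact by
                    congr 1
                    refine Finset.expect_congr rfl fun l _ => Finset.expect_congr rfl fun x _ => ?_
                    congr 1
                    refine Finset.prod_congr rfl fun j _ => ?_
                    congr 1
                    push_cast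
                    ring
                · calc (X1 : ℝ) ≤ δ ^ n' * (lam * (K / S.D)) := hX1b
                    _ ≤ δ ^ (L + (n + q)) * (lam * (K / S.D)) :=
                        mul_le_mul_of_nonneg_right (hδn _ _ (by omega)) (by (clear * - hlam hK1' hD1; positivity))
                    _ = δ ^ L * (δ ^ (n + q) * (lam / S.D)) * K := by rw [pow_add]; ring

end

end Pool.Agent.Helper57.NX

end

section

set_option autoImplicit false

open Finset

open scoped BigOperators ComplexConjugate

namespace Pool.Agent.Helper57.NX

noncomputable section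

theorem stages (m : ℕ) (c : Fin (m + 1) → ℝ) (s ε : ℝ) (hε : 0 < ε)
    (h1 : ∀ i, ε ≤ c i / 4) (h2 : ε ≤ (c (Fin.last m) - s) / 4) (hU : UsP m c s ε)
    (J : Finset (Fin (m + 1))) :
    ∃ x0 : ℝ, 0 < x0 ∧ x0 ≤ ε ∧ ∃ C : ℕ, 1 ≤ C ∧ ∃ σ : ℝ, 0 < σ ∧ σ ≤ 1 / 2 ∧ ∃ D0 : ℝ, 4 ≤ D0 ∧
    ∀ (S : Sys (m + 1)) (N : ℕ) [NeZero N], D0 ≤ S.D → Good S c N x0 →
    ∀ δ : ℝ, S.D ^ (-σ) ≤ δ → δ ≤ 1 / 2 →
    ∀ X : ℝ, (S.Q : ℝ) ≤ X → S.Q * S.D ^ (s - σ) ≤ X → X ≤ S.Q * S.D ^ s →
    ∀ (h : ℕ → ℂ) (f0 : ZMod N → ℂ) (f : Fin (m + 1) → ZMod N → ℂ),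
    (∀ k, ‖h k‖ ≤ 1) → Adm δ⁻¹ S.Q f0 → (∀ i, Adm δ⁻¹ (XiOf S X i) (f i)) →
    δ ≤ ‖form S c h f0 f‖ → ∃ f' : Fin (m + 1) → ZMod N → ℂ,
      (∀ i ∈ J, Nice S (XiOf S X i) ε (δ⁻¹ ^ C) i (f' i)) ∧
      (∀ i, Adm (δ⁻¹ ^ C) (XiOf S X i) (f' i)) ∧ δ ^ C ≤ ‖form S c h f0 f'‖ := by
  classical
  induction J using Finset.induction_on with
  | empty =>
    refine ⟨ε, hε, le_rfl, 1, le_rfl, 1 / 2, by norm_num, le_rfl, 4, le_rfl, ?_⟩
    intro S N _ hD hG δ hδσ hδ X hQX hX hX' h f0 f hh hf0 hf hform
    refine ⟨f, fun i hi => absurd hi (Finset.notMem_empty i), ?_, ?_⟩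
    · intro i
      rw [pow_one]
      exact hf i
    · rw [pow_one]
      exact hform
  | insert i J hi ih =>
    obtain ⟨x1, hx1, hx1', C1, hC1, σ1, hσ1, hσ1', D1, hD1, H1⟩ := ih
    obtain ⟨x2, hx2, hx2', C2, hC2, σ2, hσ2, hσ2', D2, hD2, H2⟩ := one_step m c s ε hε h1 h2 hU
    have hC1r : (1 : ℝ) ≤ C1 := by exact_mod_cast hC1
    have hC10 : (0 : ℝ) < C1 := by (clear * - hσ1 hσ1' hC1r; linarith)
    refine ⟨min x1 x2, lt_min hx1 hx2, (min_le_left _ _).trans hx1', C1 * C2,
      Nat.mul_pos hC1 hC2, min σ1 (σ2 / C1), lt_min hσ1 (by positivity),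
      (min_le_left _ _).trans hσ1', max D1 D2, hD1.trans (le_max_left _ _), ?_⟩
    intro S N _ hD hG δ hδσ hδ X hQX hX hX' h f0 f hh hf0 hf hform
    have hDa : D1 ≤ S.D := (le_max_left _ _).trans hD
    exact by
      have hDb : D2 ≤ S.D := (le_max_right _ _).trans hD
      have hD1' : 1 ≤ S.D := by (clear * - hσ1 hσ1' hD1 hDa; linarith)
      have hD0 : 0 < S.D := by (clear * - hσ1 hσ1' hD1 hDa; linarith)
      have hδ0 : 0 < δ := (Real.rpow_pos_of_pos hD0 _).trans_le hδσ
      have hR2 : 2 ≤ δ⁻¹ := two_le_inv hδ0 hδ
      have hm1 : min σ1 (σ2 / C1) ≤ σ1 := min_le_left _ _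
      exact by
        have hm2 : min σ1 (σ2 / C1) ≤ σ2 / C1 := min_le_right _ _
        have hm3 : σ2 / C1 ≤ σ2 := div_le_self hσ2.le hC1r
        have hQ0 : (0 : ℝ) < S.Q := by
          have := hG.Q1
          exact (Real.rpow_pos_of_pos hD0 _).trans_le this
        have hXi0 : ∀ j, 0 < XiOf S X j := fun j => hQ0.trans_le (le_XiOf hQX j)
        have hXσ : ∀ σ', min σ1 (σ2 / C1) ≤ σ' → S.Q * S.D ^ (s - σ') ≤ X := by
          intro σ' hσ'
          refine le_trans (mul_le_mul_of_nonneg_left ?_ (Nat.cast_nonneg _)) hX
          exact Real.rpow_le_rpow_of_exponent_le hD1' (by (clear * - hσ'; linarith))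
        obtain ⟨f', hN', hA', hF'⟩ := H1 S N hDa (hG.mono (min_le_left _ _) hD1') δ
          ((Real.rpow_le_rpow_of_exponent_le hD1' (by (clear * - hm1; linarith))).trans hδσ) hδ X hQX (hXσ σ1 hm1) hX'
          h f0 f hh hf0 hf hform
        have hinv : (δ ^ C1)⁻¹ = δ⁻¹ ^ C1 := (inv_pow δ C1).symm
        exact by
          have hδ' : S.D ^ (-σ2) ≤ δ ^ C1 := by
            calc S.D ^ (-σ2) = (S.D ^ (-(σ2 / C1))) ^ C1 := by
                  rw [← Real.rpow_natCast, ← Real.rpow_mul hD0.le]
                  congr 1
                  (clear * - hC1 hσ2; field_simp)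
              _ ≤ δ ^ C1 := by
                  refine pow_le_pow_left₀ (Real.rpow_nonneg hD0.le _) (le_trans ?_ hδσ) C1
                  exact Real.rpow_le_rpow_of_exponent_le hD1' (by (clear * - hm2; linarith))
          have hδ'' : δ ^ C1 ≤ 1 / 2 := by
            calc δ ^ C1 ≤ δ ^ 1 := pow_le_pow_of_le_one hδ0.le (by (clear * - hσ1 hσ1' hδ; linarith)) hC1
              _ ≤ 1 / 2 := by rw [pow_one]; exact hδ
          obtain ⟨ψ, hψ1, hψ2, hψ3⟩ := H2 S N hDb (hG.mono (min_le_right _ _) hD1') (δ ^ C1) hδ' hδ'' X
            hQX (hXσ σ2 (hm2.trans hm3)) hX' h f0 f' hh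
            (hf0.mono (by
              rw [hinv]
              exact le_self_pow₀ (by (clear * - hσ1 hσ1' hR2; linarith)) (by (clear * - hC1 C2; omega))) hQ0 le_rfl)
            (fun j => by
              rw [hinv]
              exact hA' j) hF' i
          have hpow : (δ ^ C1)⁻¹ ^ C2 = δ⁻¹ ^ (C1 * C2) := by rw [hinv, ← pow_mul]
          rw [hpow] at hψ1 hψ2
          have hle : δ⁻¹ ^ C1 ≤ δ⁻¹ ^ (C1 * C2) :=
            pow_le_pow_right₀ (by (clear * - hσ1 hσ1' hR2; linarith)) (Nat.le_mul_of_pos_right C1 hC2)
          refine ⟨Function.update f' i ψ, ?_, ?_, ?_⟩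
          · intro j hj
            by_cases hji : j = i
            · subst hji
              rw [Function.update_self]
              exact hψ1
            · rw [Function.update_of_ne hji]
              exact (hN' j ((Finset.mem_insert.mp hj).resolve_left hji)).mono (hXi0 j) hle
          · intro j
            by_cases hji : j = i
            · subst hji
              rw [Function.update_self]
              exact hψ2
            · rw [Function.update_of_ne hji]
              exact (hA' j).mono hle (hXi0 j) le_rfl
          · rw [pow_mul]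
            exact hψ3

theorem ds_of_us (m : ℕ) (c : Fin (m + 1) → ℝ) (hc : ∀ i, 0 < c i) (s : ℝ) (hs0 : 0 ≤ s)
    (hs : s < c (Fin.last m))
    (h : ∀ ε : ℝ, 0 < ε → UsP m c s ε) : ∀ ε : ℝ, 0 < ε → DsP m c s ε := by
  intro ε0 hε0
  -- reduce to `ε ≤ 1`
  set ε := min ε0 1 with hεdef
  have hε : 0 < ε := lt_min hε0 one_pos
  have hε1 : ε ≤ 1 := min_le_right _ _
  have hεε0 : ε ≤ ε0 := min_le_left _ _
  -- the smaller parameter
  obtain ⟨i0, -, hi0⟩ := Finset.exists_min_image (univ : Finset (Fin (m + 1))) c
    Finset.univ_nonempty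
  set η := min (ε / 4) (min (c i0 / 4) ((c (Fin.last m) - s) / 4)) with hηdef
  have hη : 0 < η := lt_min (by (clear * - hε; linarith)) (lt_min (by (clear * - hc; linarith [hc i0])) (by (clear * - hs; linarith)))
  exact by
    have hηε : η ≤ ε / 4 := min_le_left _ _
    have hηc : ∀ i, η ≤ c i / 4 := fun i =>
      ((min_le_right _ _).trans (min_le_left _ _)).trans (by (clear * - hi0; linarith [hi0 i (Finset.mem_univ i)]))
    have hηs : η ≤ (c (Fin.last m) - s) / 4 := (min_le_right _ _).trans (min_le_right _ _)
    obtain ⟨x0, hx0, hx0η, C, hC, σ, hσ, hσ', D0, hD0, H⟩ :=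
      stages m c s η hη hηc hηs (h η hη) univ
    have hC0 : (0 : ℝ) < C := by exact_mod_cast hC
    -- constants
    have hMc0 : 0 ≤ Mc c := Finset.sum_nonneg fun i _ => mul_nonneg (hc i).le (by positivity)
    set A0 : ℝ := 8 * (m + 1) * (Mc c + 2) with hA0
    exact by
      have hA0pos : 0 < A0 := by (clear * - hMc0; positivity)
      refine ⟨x0, hx0, C + 1, min σ (ε / (4 * C)), lt_min hσ (by (clear * - hε0 hC; positivity)),
        max D0 ((4 * A0) ^ (2 / ε)), ?_⟩
      intro S N _ hD hG δ hδσ hδ X hQX hX hX' hw f0 f hh hf0 hf hfl hform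
      have hDa : D0 ≤ S.D := (le_max_left _ _).trans hD
      have hD4 : 4 ≤ S.D := hD0.trans hDa
      have hD1 : 1 ≤ S.D := by (clear * - hε1 hη hηε hD0 hDa; linarith)
      have hDpos : 0 < S.D := by (clear * - hε1 hη hηε hD0 hDa; linarith)
      have hδ0 : 0 < δ := (Real.rpow_pos_of_pos hDpos _).trans_le hδσ
      exact by
        have hR2 : 2 ≤ δ⁻¹ := two_le_inv hδ0 hδ
        have hQD : S.D ^ (2 : ℝ) ≤ (S.Q : ℝ) := hG.Q1
        have hQ0 : (0 : ℝ) < S.Q := (Real.rpow_pos_of_pos hDpos _).trans_le hQD
        have hXi0 : ∀ j, 0 < XiOf S X j := fun j => hQ0.trans_le (le_XiOf hQX j)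
        have hσa : min σ (ε / (4 * C)) ≤ σ := min_le_left _ _
        have hσb : min σ (ε / (4 * C)) ≤ ε / (4 * C) := min_le_right _ _
        exact by
          obtain ⟨f', hN', -, hF'⟩ := H S N hDa hG δ
            ((Real.rpow_le_rpow_of_exponent_le hD1 (by (clear * - hσa; linarith))).trans hδσ) hδ X hQX
            (le_trans (mul_le_mul_of_nonneg_left (Real.rpow_le_rpow_of_exponent_le hD1 (by (clear * - hσa; linarith)))
              (Nat.cast_nonneg _)) hX) hX' hw f0 f hh hf0
            (fun i => by
              unfold XiOf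
              split_ifs with hi
              · rw [hi]; exact hfl
              · exact hf i) hform
          choose b z g hz hg hlip hfr hψ using fun i => hN' i (Finset.mem_univ i)
          -- sizes of `P`
          have hP : ∀ i, S.D ^ (2 : ℝ) ≤ S.P i := by
            intro i
            refine le_trans ?_ (hG.P1 i)
            calc S.D ^ (2 : ℝ) = S.D ^ (2 : ℝ) * 1 := (mul_one _).symm
              _ ≤ S.Q * S.D ^ (c i - x0) := by
                refine mul_le_mul hQD (Real.one_le_rpow hD1 ?_) zero_le_one hQ0.le
                (clear * - hη hx0η hηc; linarith [hηc i])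
          have hP0 : ∀ i, 0 < S.P i := fun i => (Real.rpow_pos_of_pos hDpos _).trans_le (hP i)
          refine ⟨fun i => fr (b i), ?_, ?_, ?_⟩
          · intro i
            refine (hfr i).trans ?_
            have h1 := le_XiOf hQX i
            have h2 : δ⁻¹ ^ C ≤ δ⁻¹ ^ (C + 1) := pow_le_pow_right₀ (by (clear * - hε1 hη hηε hR2; linarith)) (Nat.le_succ C)
            (clear * - hδ0 h2 hQ0 h1; gcongr)
          · refine (hfr (Fin.last m)).trans ?_
            have h1 : XiOf S X (Fin.last m) = X := if_pos rfl
            rw [h1]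
            have h2 : δ⁻¹ ^ C ≤ δ⁻¹ ^ (C + 1) := pow_le_pow_right₀ (by (clear * - hε1 hη hηε hR2; linarith)) (Nat.le_succ C)
            have h3 : 0 < X := hQ0.trans_le hQX
            (clear * - h2 h3; gcongr)
          intro K hK1 hKD0
          have hKD : (K : ℝ) ≤ S.D ^ (1 - ε) :=
            hKD0.trans (Real.rpow_le_rpow_of_exponent_le hD1 (by (clear * - hεε0; linarith)))
          have hKD' : (K : ℝ) ≤ S.D := by
            refine hKD.trans ?_
            calc S.D ^ (1 - ε) ≤ S.D ^ (1 : ℝ) := Real.rpow_le_rpow_of_exponent_le hD1 (by (clear * - hη hηε; linarith))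
              _ = S.D := Real.rpow_one _
          -- decomposition of the form
          set E : ℕ → ℂ := fun k => hw k * ∏ i, ch (b i) (S.a c i k : ZMod N) with hE
          set g0 : ZMod N → ℂ := fun x => f0 x * ∏ i, (z i * ch (b i) x) with hg0
          exact by
            set V : ℕ → ℂ := fun k => 𝔼 x : ZMod N, g0 x * ∏ i, g i (x + (S.a c i k : ZMod N)) with hV
            have hg0b : ∀ x, ‖g0 x‖ ≤ 1 := by
              intro x
              rw [hg0, norm_mul, norm_prod]
              refine mul_le_one₀ (hf0.bdd x) (Finset.prod_nonneg fun i _ => norm_nonneg _) ?_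
              refine Finset.prod_le_one (fun i _ => norm_nonneg _) fun i _ => ?_
              rw [norm_mul, norm_ch, mul_one]
              exact hz i
            have hEb : ∀ k, ‖E k‖ ≤ 1 := by
              intro k
              rw [hE, norm_mul, norm_prod]
              refine mul_le_one₀ (hh k) (Finset.prod_nonneg fun i _ => norm_nonneg _) ?_
              exact Finset.prod_le_one (fun i _ => norm_nonneg _) fun i _ => (norm_ch _ _).le
            have hVb : ∀ k, ‖V k‖ ≤ 1 := by
              intro k
              rw [hV]
              refine (norm_expect_le' _ _).trans ?_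
              calc 𝔼 x : ZMod N, ‖g0 x * ∏ i, g i (x + (S.a c i k : ZMod N))‖ ≤ 𝔼 _x : ZMod N, (1 : ℝ) := by
                    refine Finset.expect_le_expect fun x _ => ?_
                    rw [norm_mul, norm_prod]
                    refine mul_le_one₀ (hg0b x) (Finset.prod_nonneg fun i _ => norm_nonneg _) ?_
                    exact Finset.prod_le_one (fun i _ => norm_nonneg _) fun i _ => hg i _
                _ = 1 := Finset.expect_const Finset.univ_nonempty 1
            have hdec : form S c hw f0 f' = 𝔼 k ∈ S.I, E k * V k := by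
              unfold form
              refine Finset.expect_congr rfl fun k _ => ?_
              change hw k * 𝔼 x : ZMod N, f0 x * ∏ i, f' i (x + (S.a c i k : ZMod N)) =
                (hw k * ∏ i, ch (b i) (S.a c i k : ZMod N)) *
                  𝔼 x : ZMod N, (f0 x * ∏ i, (z i * ch (b i) x)) * ∏ i, g i (x + (S.a c i k : ZMod N))
              rw [mul_assoc (hw k), Finset.mul_expect univ _ (∏ i, ch (b i) (S.a c i k : ZMod N))]
              congr 1
              refine Finset.expect_congr rfl fun x _ => ?_
              have h1 : ∏ i, f' i (x + (S.a c i k : ZMod N)) =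
                  (∏ i, (z i * ch (b i) x)) * ((∏ i, ch (b i) (S.a c i k : ZMod N)) *
                    ∏ i, g i (x + (S.a c i k : ZMod N))) := by
                rw [← Finset.prod_mul_distrib, ← Finset.prod_mul_distrib]
                refine Finset.prod_congr rfl fun i _ => ?_
                rw [hψ i, ch_add]
                ring
              rw [h1]
              ring
            -- asymptotics
            have hT0 : 0 < S.D ^ (1 - x0) := Real.rpow_pos_of_pos hDpos _
            exact by
              have hTpos : (0 : ℝ) < S.T := hT0.trans_le hG.T1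
              have hT1 : 1 ≤ S.T := by exact_mod_cast hTpos
              have hDε : S.D ^ (-(ε / 4)) ≤ δ ^ C := by
                calc S.D ^ (-(ε / 4)) = (S.D ^ (-(ε / (4 * C)))) ^ C := by
                      rw [← Real.rpow_natCast, ← Real.rpow_mul hDpos.le]
                      congr 1
                      field_simp
                  _ ≤ δ ^ C := by
                      refine pow_le_pow_left₀ (Real.rpow_nonneg hDpos.le _) (le_trans ?_ hδσ) C
                      exact Real.rpow_le_rpow_of_exponent_le hD1 (by (clear * - hσb; linarith))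
              have hDinv : δ⁻¹ ^ C ≤ S.D ^ (ε / 4) := by
                rw [inv_pow, inv_le_comm₀ (by positivity) (Real.rpow_pos_of_pos hDpos _), ← Real.rpow_neg hDpos.le]
                exact hDε
              have hbig : 4 * A0 ≤ S.D ^ (ε / 2) := by
                have h1 : (4 * A0) ^ (2 / ε) ≤ S.D := (le_max_right _ _).trans hD
                calc 4 * A0 = ((4 * A0) ^ (2 / ε)) ^ (ε / 2) := by
                      rw [← Real.rpow_mul (by (clear * - hMc0; positivity))]
                      have : 2 / ε * (ε / 2) = 1 := by field_simp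
                      rw [this, Real.rpow_one]
                  _ ≤ S.D ^ (ε / 2) := Real.rpow_le_rpow (by (clear * - hMc0; positivity)) h1 (by positivity)
              have hsmall : 2 * A0 * S.D ^ (-(3 * ε / 4)) ≤ δ ^ C / 2 := by
                have h1 : S.D ^ (-(3 * ε / 4)) = S.D ^ (-(ε / 2)) * S.D ^ (-(ε / 4)) := by
                  rw [← Real.rpow_add hDpos]
                  congr 1
                  ring
                have h2 : 4 * A0 * S.D ^ (-(ε / 2)) ≤ 1 := by
                  rw [Real.rpow_neg hDpos.le, mul_inv_le_iff₀ (Real.rpow_pos_of_pos hDpos _), one_mul]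
                  exact hbig
                calc 2 * A0 * S.D ^ (-(3 * ε / 4)) = (4 * A0 * S.D ^ (-(ε / 2))) * S.D ^ (-(ε / 4)) / 2 := by
                      rw [h1]; ring
                  _ ≤ 1 * δ ^ C / 2 := by
                      (clear * - h2 hDε hD4; gcongr)
                  _ = δ ^ C / 2 := by ring
              -- first error: shifts
              exact by
                set η' := S.D ^ (-(3 * ε / 4)) with hη'
                have hη'0 : 0 < η' := Real.rpow_pos_of_pos hDpos _
                have hKT : 2 * (K : ℝ) / S.T ≤ 2 * η' := by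
                  rw [div_le_iff₀ hTpos]
                  have h1 : S.D ^ (1 - ε) ≤ η' * S.D ^ (1 - x0) := by
                    rw [hη', ← Real.rpow_add hDpos]
                    exact Real.rpow_le_rpow_of_exponent_le hD1 (by (clear * - hηε hx0η; linarith))
                  have h2 := mul_le_mul_of_nonneg_left hG.T1 hη'0.le
                  (clear * - hKD h1 h2; nlinarith [hKD])
                -- second error: variation of `V`
                have hVd : ∀ k ∈ S.I, ∀ j : ℕ, j < K →
                    ‖V (k + j) - V k‖ ≤ (m + 1) * (4 * (Mc c + 1)) * η' := by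
                  intro k hk j hj
                  have hjK : (j : ℝ) ≤ K := by exact_mod_cast hj.le
                  have hjD : (j : ℝ) ≤ S.D := hjK.trans hKD'
                  have hterm : ∀ i, 4 * |((S.a c i (k + j) - S.a c i k : ℤ) : ℝ)| / (S.P i * S.D ^ (-η)) ≤
                      4 * (Mc c + 1) * η' := by
                    intro i
                    have h1 := a_diff hG hc hD1 hk hjD (fun i => (hP0 i).le) i
                    have h2 : 0 < S.P i * S.D ^ (-η) := mul_pos (hP0 i) (Real.rpow_pos_of_pos hDpos _)
                    rw [div_le_iff₀ h2]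
                    have h3 : (j : ℝ) / S.D ≤ S.D ^ (-ε) := by
                      rw [div_le_iff₀ hDpos]
                      calc (j : ℝ) ≤ S.D ^ (1 - ε) := hjK.trans hKD
                        _ = S.D ^ (-ε) * S.D := by
                          rw [← Real.rpow_add_one hDpos.ne']
                          congr 1
                          ring
                    have h4 : S.D ^ (-ε) ≤ η' * S.D ^ (-η) := by
                      rw [hη', ← Real.rpow_add hDpos]
                      exact Real.rpow_le_rpow_of_exponent_le hD1 (by (clear * - hηε; linarith))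
                    have h5 : (1 : ℝ) ≤ S.P i * (η' * S.D ^ (-η)) := by
                      calc (1 : ℝ) ≤ S.D ^ (2 - ε) := Real.one_le_rpow hD1 (by (clear * - hε1 hη hηε; linarith))
                        _ = S.D ^ (2 : ℝ) * S.D ^ (-ε) := by rw [← Real.rpow_add hDpos]; congr 1
                        _ ≤ S.P i * (η' * S.D ^ (-η)) :=
                          mul_le_mul (hP i) h4 (Real.rpow_nonneg hDpos.le _) (hP0 i).le
                    have h6 : S.P i * (Mc c * (j / S.D)) ≤ S.P i * (Mc c * (η' * S.D ^ (-η))) :=
                      mul_le_mul_of_nonneg_left (mul_le_mul_of_nonneg_left (h3.trans h4) hMc0) (hP0 i).le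
                    calc 4 * |((S.a c i (k + j) - S.a c i k : ℤ) : ℝ)|
                        ≤ 4 * (S.P i * (Mc c * (j / S.D)) + 1) := by (clear * - h1; linarith)
                      _ ≤ 4 * (S.P i * (Mc c * (η' * S.D ^ (-η))) + S.P i * (η' * S.D ^ (-η))) := by (clear * - h5 h6; linarith)
                      _ = _ := by ring
                  have hdiff : V (k + j) - V k = 𝔼 x : ZMod N, g0 x *
                      (∏ i, g i (x + (S.a c i (k + j) : ZMod N)) - ∏ i, g i (x + (S.a c i k : ZMod N))) := by
                    rw [hV]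
                    change 𝔼 x : ZMod N, g0 x * ∏ i, g i (x + (S.a c i (k + j) : ZMod N)) -
                      𝔼 x : ZMod N, g0 x * ∏ i, g i (x + (S.a c i k : ZMod N)) = _
                    rw [← Finset.expect_sub_distrib]
                    exact Finset.expect_congr rfl fun x _ => by ring
                  rw [hdiff]
                  refine (norm_expect_le' _ _).trans ?_
                  calc 𝔼 x : ZMod N, ‖g0 x * (∏ i, g i (x + (S.a c i (k + j) : ZMod N)) -
                        ∏ i, g i (x + (S.a c i k : ZMod N)))‖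
                      ≤ 𝔼 _x : ZMod N, ((m + 1) * (4 * (Mc c + 1)) * η' : ℝ) := by
                        refine Finset.expect_le_expect fun x _ => ?_
                        rw [norm_mul]
                        refine (mul_le_of_le_one_left (norm_nonneg _) (hg0b x)).trans ?_
                        refine (prod_sub_prod univ (fun i _ => hg i _) (fun i _ => hg i _)).trans ?_
                        calc ∑ i, ‖g i (x + (S.a c i (k + j) : ZMod N)) - g i (x + (S.a c i k : ZMod N))‖
                            ≤ ∑ _i : Fin (m + 1), 4 * (Mc c + 1) * η' := by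
                              refine Finset.sum_le_sum fun i _ => ?_
                              have h7 := hlip i (x + (S.a c i k : ZMod N)) (S.a c i (k + j) - S.a c i k)
                              have h8 : x + (S.a c i k : ZMod N) + ((S.a c i (k + j) - S.a c i k : ℤ) : ZMod N) =
                                  x + (S.a c i (k + j) : ZMod N) := by
                                push_cast
                                ring
                              rw [h8] at h7
                              exact h7.trans (hterm i)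
                          _ = (m + 1) * (4 * (Mc c + 1)) * η' := by
                              rw [Finset.sum_const, Finset.card_univ, Fintype.card_fin, nsmul_eq_mul]
                              push_cast
                              ring
                    _ = _ := Finset.expect_const Finset.univ_nonempty _
                -- third error: integer parts
                have hEd : ∀ k, ‖E k - hw k * e (∑ i, fr (b i) * S.P i * (S.t k) ^ (c i))‖ ≤
                    8 * (m + 1) * η' := by
                  intro k
                  have h1 : E k = hw k * e (∑ i, fr (b i) * (S.a c i k : ℝ)) := by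
                    change hw k * ∏ i, ch (b i) (S.a c i k : ZMod N) = _
                    rw [e_sum]
                    congr 1
                    exact Finset.prod_congr rfl fun i _ => ch_int _ _
                  rw [h1, ← mul_sub, norm_mul]
                  refine (mul_le_of_le_one_left (norm_nonneg _) (hh k)).trans ?_
                  refine (norm_e_sub_e_le _ _).trans ?_
                  rw [← Finset.sum_sub_distrib]
                  have h2 : |∑ i, (fr (b i) * (S.a c i k : ℝ) - fr (b i) * S.P i * (S.t k) ^ (c i))| ≤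
                      (m + 1) * η' := by
                    refine (Finset.abs_sum_le_sum_abs _ _).trans ?_
                    calc ∑ i, |fr (b i) * (S.a c i k : ℝ) - fr (b i) * S.P i * (S.t k) ^ (c i)|
                        ≤ ∑ _i : Fin (m + 1), η' := by
                          refine Finset.sum_le_sum fun i _ => ?_
                          rw [mul_assoc, ← mul_sub, abs_mul]
                          have h3 : |(S.a c i k : ℝ) - S.P i * (S.t k) ^ (c i)| ≤ 1 := by
                            have h4 := Int.floor_le (S.P i * (S.t k) ^ (c i))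
                            have h5 := Int.lt_floor_add_one (S.P i * (S.t k) ^ (c i))
                            unfold Sys.a
                            rw [abs_le]
                            constructor <;> (clear * - h5 hε1 hη hηε h4; linarith)
                          refine (mul_le_of_le_one_right (abs_nonneg _) h3).trans ((hfr i).trans ?_)
                          rw [div_le_iff₀ (hXi0 i)]
                          calc δ⁻¹ ^ C ≤ S.D ^ (ε / 4) := hDinv
                            _ ≤ η' * S.D ^ (2 : ℝ) := by
                              rw [hη', ← Real.rpow_add hDpos]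
                              exact Real.rpow_le_rpow_of_exponent_le hD1 (by (clear * - hε1 hη hηε; linarith))
                            _ ≤ η' * XiOf S X i :=
                              mul_le_mul_of_nonneg_left (hQD.trans (le_XiOf hQX i)) hη'0.le
                      _ = (m + 1) * η' := by
                          rw [Finset.sum_const, Finset.card_univ, Fintype.card_fin, nsmul_eq_mul]
                          push_cast
                          ring
                  have h6 : 2 * Real.pi ≤ 8 := by (clear * -; linarith [Real.pi_le_four])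
                  calc 2 * Real.pi * |∑ i, (fr (b i) * (S.a c i k : ℝ) - fr (b i) * S.P i * (S.t k) ^ (c i))|
                      ≤ 8 * ((m + 1) * η') := mul_le_mul h6 h2 (abs_nonneg _) (by norm_num)
                    _ = _ := by ring
                -- conclusion
                have hI : S.I.Nonempty := by
                  rw [Sys.I, Finset.nonempty_Ico]
                  omega
                have hKne : (range K).Nonempty := Finset.nonempty_range_iff.mpr (by omega)
                exact by
                  have hGb : ∀ k, ‖E k * V k‖ ≤ 1 := fun k => by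
                    rw [norm_mul]
                    exact mul_le_one₀ (hEb k) (norm_nonneg _) (hVb k)
                  have e1 : ‖𝔼 k ∈ S.I, E k * V k - 𝔼 j ∈ range K, 𝔼 k ∈ S.I, E (k + j) * V (k + j)‖ ≤ 2 * η' := by
                    have h1 : 𝔼 k ∈ S.I, E k * V k - 𝔼 j ∈ range K, 𝔼 k ∈ S.I, E (k + j) * V (k + j) =
                        𝔼 j ∈ range K, (𝔼 k ∈ S.I, E k * V k - 𝔼 k ∈ S.I, E (k + j) * V (k + j)) := by
                      rw [Finset.expect_sub_distrib, Finset.expect_const hKne]
                    rw [h1]
                    refine (norm_expect_le' _ _).trans ?_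
                    calc 𝔼 j ∈ range K, ‖𝔼 k ∈ S.I, E k * V k - 𝔼 k ∈ S.I, E (k + j) * V (k + j)‖
                        ≤ 𝔼 _j ∈ range K, 2 * η' := by
                          refine Finset.expect_le_expect fun j hj => ?_
                          have h2 := shift_expect hGb S.u S.T j hT1
                          refine h2.trans (le_trans ?_ hKT)
                          have h3 : (j : ℝ) ≤ K := by exact_mod_cast (Finset.mem_range.mp hj).le
                          (clear * - h3 hT1; gcongr)
                      _ = 2 * η' := Finset.expect_const hKne _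
                  have e2 : ‖𝔼 j ∈ range K, 𝔼 k ∈ S.I, E (k + j) * V (k + j) -
                      𝔼 j ∈ range K, 𝔼 k ∈ S.I, E (k + j) * V k‖ ≤ (m + 1) * (4 * (Mc c + 1)) * η' := by
                    rw [← Finset.expect_sub_distrib]
                    refine (norm_expect_le' _ _).trans ?_
                    calc 𝔼 j ∈ range K, ‖𝔼 k ∈ S.I, E (k + j) * V (k + j) - 𝔼 k ∈ S.I, E (k + j) * V k‖
                        ≤ 𝔼 _j ∈ range K, ((m + 1) * (4 * (Mc c + 1)) * η' : ℝ) := by
                          refine Finset.expect_le_expect fun j hj => ?_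
                          rw [← Finset.expect_sub_distrib]
                          refine (norm_expect_le' _ _).trans ?_
                          calc 𝔼 k ∈ S.I, ‖E (k + j) * V (k + j) - E (k + j) * V k‖
                              ≤ 𝔼 _k ∈ S.I, ((m + 1) * (4 * (Mc c + 1)) * η' : ℝ) := by
                                refine Finset.expect_le_expect fun k hk => ?_
                                rw [← mul_sub, norm_mul]
                                exact (mul_le_of_le_one_left (norm_nonneg _) (hEb _)).trans
                                  (hVd k hk j (Finset.mem_range.mp hj))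
                            _ = _ := Finset.expect_const hI _
                      _ = _ := Finset.expect_const hKne _
                  have e3 : ‖𝔼 j ∈ range K, 𝔼 k ∈ S.I, E (k + j) * V k‖ ≤
                      𝔼 k ∈ S.I, ‖𝔼 j ∈ range K, E (k + j)‖ := by
                    rw [Finset.expect_comm]
                    refine (norm_expect_le' _ _).trans (Finset.expect_le_expect fun k _ => ?_)
                    rw [← Finset.expect_mul, norm_mul]
                    exact mul_le_of_le_one_right (norm_nonneg _) (hVb k)
                  have e4 : 𝔼 k ∈ S.I, ‖𝔼 j ∈ range K, E (k + j)‖ ≤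
                      𝔼 k ∈ S.I, ‖𝔼 j ∈ range K, hw (k + j) *
                        e (∑ i, fr (b i) * S.P i * (S.t (k + j)) ^ (c i))‖ + 8 * (m + 1) * η' := by
                    rw [← Finset.expect_const hI (8 * (m + 1) * η' : ℝ), ← Finset.expect_add_distrib]
                    refine Finset.expect_le_expect fun k _ => ?_
                    have h1 : 𝔼 j ∈ range K, E (k + j) = 𝔼 j ∈ range K, hw (k + j) *
                        e (∑ i, fr (b i) * S.P i * (S.t (k + j)) ^ (c i)) +
                        𝔼 j ∈ range K, (E (k + j) - hw (k + j) *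
                          e (∑ i, fr (b i) * S.P i * (S.t (k + j)) ^ (c i))) := by
                      rw [← Finset.expect_add_distrib]
                      exact Finset.expect_congr rfl fun j _ => by ring
                    rw [h1]
                    refine (norm_add_le _ _).trans (add_le_add le_rfl ?_)
                    refine (norm_expect_le' _ _).trans ?_
                    calc 𝔼 j ∈ range K, ‖E (k + j) - hw (k + j) *
                          e (∑ i, fr (b i) * S.P i * (S.t (k + j)) ^ (c i))‖
                        ≤ 𝔼 _j ∈ range K, (8 * (m + 1) * η' : ℝ) := Finset.expect_le_expect fun j _ => hEd _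
                      _ = _ := Finset.expect_const hKne _
                  have hfin : δ ^ C / 2 ≤ 𝔼 k ∈ S.I, ‖𝔼 j ∈ range K, hw (k + j) *
                        e (∑ i, fr (b i) * S.P i * (S.t (k + j)) ^ (c i))‖ := by
                    have h1 : ‖𝔼 k ∈ S.I, E k * V k‖ ≤ 2 * η' + (m + 1) * (4 * (Mc c + 1)) * η' +
                        ‖𝔼 j ∈ range K, 𝔼 k ∈ S.I, E (k + j) * V k‖ := by
                      have h2 : 𝔼 k ∈ S.I, E k * V k =
                          (𝔼 k ∈ S.I, E k * V k - 𝔼 j ∈ range K, 𝔼 k ∈ S.I, E (k + j) * V (k + j)) +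
                          (𝔼 j ∈ range K, 𝔼 k ∈ S.I, E (k + j) * V (k + j) -
                            𝔼 j ∈ range K, 𝔼 k ∈ S.I, E (k + j) * V k) +
                          𝔼 j ∈ range K, 𝔼 k ∈ S.I, E (k + j) * V k := by ring
                      calc ‖𝔼 k ∈ S.I, E k * V k‖ = _ := congrArg norm h2
                        _ ≤ _ := (norm_add₃_le).trans (by (clear * - e1 e2; linarith))
                    rw [← hdec] at h1
                    have h3 : 2 * η' + (m + 1) * (4 * (Mc c + 1)) * η' + 8 * (m + 1) * η' ≤ 2 * A0 * η' := by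
                      have h4 : (0 : ℝ) ≤ m := Nat.cast_nonneg _
                      have h5 : 2 + (m + 1) * (4 * (Mc c + 1)) + 8 * (m + 1) ≤ 2 * A0 := by
                        rw [hA0]
                        (clear * - hε1 hη hηε hMc0 h4; nlinarith [mul_nonneg h4 hMc0])
                      calc 2 * η' + (m + 1) * (4 * (Mc c + 1)) * η' + 8 * (m + 1) * η'
                          = (2 + (m + 1) * (4 * (Mc c + 1)) + 8 * (m + 1)) * η' := by ring
                        _ ≤ _ := mul_le_mul_of_nonneg_right h5 hη'0.le
                    (clear * - hF' hsmall e3 e4 h1 h3; linarith)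
                  refine le_trans ?_ hfin
                  calc δ ^ (C + 1) = δ ^ C * δ := pow_succ _ _
                    _ ≤ δ ^ C * (1 / 2) := mul_le_mul_of_nonneg_left hδ (by (clear * - hδ0; positivity))
                    _ = δ ^ C / 2 := by ring

end

end Pool.Agent.Helper57.NX

end

section

set_option autoImplicit false

open Finset

open scoped BigOperators ComplexConjugate

namespace Pool.Agent.Helper57.NX

noncomputable section

/-- One round of the elimination. -/
theorem round {m : ℕ} (c : Fin m → ℝ) (γ : ℝ) (hγ : γ ≠ 0) (R s : ℕ) : ∃ ν : ℕ, ∀ n B : ℕ,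
    ∃ n' : ℕ, ∀ (S : Sys m) (N : ℕ) [NeZero N] (δ Y lam w : ℝ) (M : ℕ), Env S N δ M R w n' →
      0 < lam → Y + ν * M ≤ 3 * S.D →
      ∀ (fs : ZMod N → ℂ) (g0 : Phi m) (t : List ((ZMod N → ℂ) × Phi m)), t.length ≤ s →
        Adm (δ⁻¹ ^ n) S.Q fs → (∀ fp ∈ t, Adm (δ⁻¹ ^ n) S.Q fp.1) →
        Clu S c δ M n (B + ν) (Y + ν * M) γ lam w g0 (t.map Prod.snd) →
        δ ^ n ≤ ‖lform S c 1 ((fs, g0) :: t)‖ →
        ∃ (g0' : Phi m) (t' : List ((ZMod N → ℂ) × Phi m)),
          (∀ fp ∈ t', fp.1 = fs ∨ fp.1 = fun x => conj (fs x)) ∧ t'.length ≤ 2 ^ ν ∧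
          Clu S c δ M n' B Y (γ - 1) (lam * M / S.D) w g0' (t'.map Prod.snd) ∧
          δ ^ n' ≤ ‖lform S c 1 ((fs, g0') :: t')‖ := by
  classical
  obtain ⟨μ, hμ⟩ := pet_terminates R s
  refine ⟨μ + 1, ?_⟩
  intro n B
  obtain ⟨n2, hn2, H2⟩ := r45_merge2 c (2 * n + 1) R
  obtain ⟨n3, hn3, H3⟩ := r45_main c γ hγ R μ n2 B
  refine ⟨n3, ?_⟩
  intro S N _ δ Y lam w M hE hlam hY fs g0 t ht hfs htA hC hδ
  have hδ0 := hE.δ0
  have hδ1 := hE.δ1
  have hD := hE.D1
  have hw := r45_Env_w hE
  have hQ0 : (0 : ℝ) < S.Q := by
    have hwQ := hE.wQ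
    rcases (Nat.cast_nonneg S.Q : (0 : ℝ) ≤ S.Q).eq_or_lt with h0 | h0
    · rw [← h0, mul_zero] at hwQ; (clear * - hδ0 hδ1 hwQ; linarith)
    · exact h0
  have hne : t ≠ [] := by
    intro h0
    exact hC.ne (by rw [h0]; rfl)
  exact by
    obtain ⟨⟨f1, q1⟩, rest, rfl⟩ := List.exists_cons_of_ne_nil hne
    have hq1 : q1 ∈ (((f1, q1) :: rest).map Prod.snd) := by simp
    have hfp1 : ∀ fp ∈ rest, fp.2 ∈ (((f1, q1) :: rest).map Prod.snd) := by
      intro fp hfp
      simp only [List.map_cons, List.mem_cons, List.mem_map]
      exact Or.inr ⟨fp, hfp, rfl⟩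
    have hf1 : Adm (δ⁻¹ ^ n) S.Q f1 := htA (f1, q1) (by simp)
    -- translation
    have h1 : lform S c 1 ((fs, g0) :: (f1, q1) :: rest) =
        lform S c f1 (rest.map (fun fp => (fp.1, fp.2 - q1)) ++ [(fs, g0 - q1)]) := by
      rw [r45_lform_perm S c 1 (List.Perm.swap (f1, q1) (fs, g0) rest), r45_lform_frame]
      refine r45_lform_perm S c f1 ?_
      rw [List.map_cons]
      exact (List.perm_append_singleton _ _).symm
    rw [h1] at hδ
    set Lq1 : List ((ZMod N → ℂ) × Phi m) := rest.map (fun fp => (fp.1, fp.2 - q1)) with hLq1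
    have hlen : rest.length + 1 ≤ n := by simpa using hC.le
    exact by
      have hT : TG S c δ M (2 * n + 1) (B + (μ + 1)) (Y + ((μ + 1 : ℕ) : ℝ) * M) γ lam w
          (Lq1.map Prod.snd) [g0 - q1] := by
        constructor
        · intro g hg p hp
          exact by
            rw [List.mem_singleton] at hg
            subst hg
            rcases List.mem_cons.1 hp with h | h
            · subst h
              rw [sub_zero]
              exact r45_Tp_neg (r45_Tp_mono (hC.g q1 hq1) hδ0 hδ1 (by (clear * - hδ0 hδ1 hD; linarith)) hlam.le hw.le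
                (by omega) le_rfl le_rfl)
            · rw [hLq1, List.map_map] at h
              obtain ⟨fp, hfp, rfl⟩ := List.mem_map.1 h
              show Tp S c δ (2 * n + 1) (B + (μ + 1)) (Y + ((μ + 1 : ℕ) : ℝ) * M) γ lam w
                (g0 - q1 - (fp.2 - q1))
              rw [sub_sub_sub_cancel_right]
              exact r45_Tp_neg (r45_Tp_mono (hC.g fp.2 (hfp1 fp hfp)) hδ0 hδ1 (by (clear * - hδ0 hδ1 hD; linarith)) hlam.le
                hw.le (by omega) le_rfl le_rfl)
        · intro g1 t1 h g hg
          have h2 : t1 = [] := by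
            have := congrArg List.tail h
            simpa using this.symm
          rw [h2] at hg
          simp at hg
        · intro p h
          rw [hLq1, List.map_map] at h
          obtain ⟨fp, hfp, rfl⟩ := List.mem_map.1 h
          exact ((hC.bt fp.2 (hfp1 fp hfp)).sub (hC.bt q1 hq1)).mono (by omega)
        · intro p h
          rw [List.mem_singleton] at h
          subst h
          exact (hC.b0.sub (hC.bt q1 hq1)).mono (by omega)
        · rw [hLq1, List.length_map, List.length_map]
          omega
        · simp
        · simp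
      have hLqA : ∀ fp ∈ Lq1, Adm (δ⁻¹ ^ (2 * n + 1)) S.Q fp.1 := by
        intro fp hfp
        obtain ⟨fp', h1, rfl⟩ := List.mem_map.1 hfp
        exact (htA fp' (by simp [h1])).mono (r45_pow_inv_mono hδ0 hδ1 (by omega)) hQ0 le_rfl
      obtain ⟨F1, hF1, hδ3⟩ := H2 S N δ w M (r45_Env_mono hE hn3) Lq1 [(fs, g0 - q1)] f1
        (fun fp => decide (fp.2 ∉ (VV R : AddSubgroup (Phi m))))
        (fun fp => by simp) hf1.bdd
        (by
          intro fp hfp x
          rw [List.mem_singleton] at hfp
          rw [hfp]
          exact hfs.bdd x) hLqA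
        (fun fp hfp => hT.bq fp.2 (List.mem_map_of_mem hfp))
        (by
          have := hT.lq
          rwa [List.length_map] at this)
        ((r45_pow_anti hδ0 hδ1 (by omega)).trans hδ)
      obtain ⟨g0', t', k1, k2, k3, k4⟩ := H3 S N δ Y lam w M hE hlam (by exact_mod_cast hY) fs F1
        (Lq1.filter (fun fp => decide (fp.2 ∉ (VV R : AddSubgroup (Phi m))))) (g0 - q1) [] hfs.bdd hF1
        (by simp)
        (by
          intro fp hfp
          have h1 : fp ∈ Lq1 := (List.mem_filter.1 hfp).1
          exact (hLqA fp h1).mono (r45_pow_inv_mono hδ0 hδ1 hn2) hQ0 le_rfl)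
        (by
          refine hμ (Phi m) VV tau VV_zero VV_antitone tau_sub_mem _ ?_ ?_
          · rw [List.length_map]
            refine (List.length_filter_le _ _).trans ?_
            have h8 : rest.length + 1 ≤ s := by simpa using ht
            have h9 : Lq1.length = rest.length := by rw [hLq1, List.length_map]
            omega
          · intro p hp
            obtain ⟨fp, hfp, rfl⟩ := List.mem_map.1 hp
            simpa using (List.mem_filter.1 hfp).2)
        (r45_TG_mono hT hδ0 hδ1 (by (clear * - hδ0 hδ1 hD; linarith)) hlam.le hw.le hn2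
          le_rfl le_rfl ((List.filter_sublist).map _)) hδ3
      refine ⟨g0', t', k1, ?_, k3, k4⟩
      simp only [List.length_nil, zero_add, one_mul] at k2
      omega

end

end Pool.Agent.Helper57.NX

end

section

set_option autoImplicit false

namespace Pool.Agent.Helper67.NX2

open Pool.Agent.Helper57.NX

/-- NX2-A17: the generalised von Neumann theorem, non-natural top exponent -/
theorem gnc' (m : ℕ) (c : Fin (m + 1) → ℝ) (hc : StrictMono c) (hc0 : ∀ i, 0 < c i)
    (hcn : ¬ IsN (c (Fin.last m))) (εb : ℝ) (hεb : 0 < εb) :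
    ∃ g0 : ℝ, 0 < g0 ∧ ∀ s : ℝ, 0 ≤ s → s ≤ c (Fin.last m) - εb → ∀ s' : ℝ, s' ≤ s + g0 →
      GNCP m c s s' := by
  refine ⟨min (εb / 8) (1 / 16), lt_min (by linarith) (by norm_num), ?_⟩
  intro s hs0 hs s' hs'
  have hmin : 0 < min (εb / 8) (1 / 16) := lt_min (by linarith) (by norm_num)
  have hce := Nat.le_ceil (c (Fin.last m))
  refine Pool.Agent.Helper82.NX2.gnc_core (fun c γ hγ R s => round c γ hγ R s) sweep m c hc hc0
    (⌈c (Fin.last m)⌉₊ + 1) (by omega) (fun i _ h => hcn ⟨i, by linarith⟩) εb hεb s hs0 hs ?_ s' hs'
  push_cast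
  linarith

end Pool.Agent.Helper67.NX2

end

section

set_option autoImplicit false

namespace Pool.Agent.Helper67.NX2

open Pool.Agent.Helper57.NX

/-- NX2-A18: the generalised von Neumann theorem, natural top exponent, smooth functions -/
theorem gnc_nat (m : ℕ) (c : Fin (m + 1) → ℝ) (hc : Ex c) (d : ℕ) (hd : c (Fin.last m) = d)
    (εb : ℝ) (hεb : 0 < εb) :
    ∃ g0 : ℝ, 0 < g0 ∧ g0 ≤ 1 / 16 ∧ ∀ s : ℝ, 1 - 2 * g0 ≤ s → s ≤ d - εb →
      ∀ s' : ℝ, s' ≤ s + g0 → GNCP m c s s' := by
  have hmin : 0 < min (εb / 8) (1 / 16) := lt_min (by linarith) (by norm_num)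
  have hmin2 : min (εb / 8) (1 / 16) ≤ 1 / 16 := min_le_right _ _
  refine ⟨min (εb / 8) (1 / 16), hmin, hmin2, ?_⟩
  intro s hs0 hs s' hs'
  have h2 := hc.two (Fin.last m)
  have hd2 : 2 ≤ d := by
    rw [hd] at h2
    exact_mod_cast h2
  have hcast : ((d - 1 : ℕ) : ℝ) = d - 1 := by
    rw [Nat.cast_sub (by omega), Nat.cast_one]
  refine Pool.Agent.Helper82.NX2.gnc_core (fun c γ hγ R s => round c γ hγ R s) sweep m c
    (fun i j hij => by have := hc.gap i j hij; linarith) (fun i => by have := hc.two i; linarith)
    (d - 1) (by omega) ?_ εb hεb s (by linarith) (by rw [hd]; exact hs) ?_ s' hs'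
  · intro i hi h
    rw [hd] at h
    have h3 : (d : ℝ) = i := by linarith
    have h4 : d = i := by exact_mod_cast h3
    omega
  · rw [hd, hcast]
    linarith

end Pool.Agent.Helper67.NX2

end
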