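import Pool.Agent.Helper23.MC.L02_a1
import Pool.Agent.Helper23.MC.L02_a10
import Pool.Agent.Helper23.MC.L02_a12
import Pool.Agent.Helper23.MC.L02_a16
import Pool.Agent.Helper23.MC.L02_a4
import Pool.Agent.Helper23.MC.L02_a5
import Pool.Agent.Helper23.MC.L02_a8

/-!
Parts of Helper15.NX2.TopArithOf, Helper96.NX.Replace, Helper61.NX.Pattern
-/

attribute [local instance 5000]
  Pool.Agent.Helper23.MC.Inst.rCharZero Pool.Agent.Helper23.MC.Inst.rALM
  Pool.Agent.Helper23.MC.Inst.rARM Pool.Agent.Helper23.MC.Inst.rALSM
  Pool.Agent.Helper23.MC.Inst.rARSM Pool.Agent.Helper23.MC.Inst.rARRLE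
  Pool.Agent.Helper23.MC.Inst.rALRLE Pool.Agent.Helper23.MC.Inst.rARRLT
  Pool.Agent.Helper23.MC.Inst.rALRLT Pool.Agent.Helper23.MC.Inst.rPMRLT
  Pool.Agent.Helper23.MC.Inst.rMPRLT Pool.Agent.Helper23.MC.Inst.rPMM
  Pool.Agent.Helper23.MC.Inst.rMPM Pool.Agent.Helper23.MC.Inst.rPMSM
  Pool.Agent.Helper23.MC.Inst.rMPSM Pool.Agent.Helper23.MC.Inst.rEAOL
  Pool.Agent.Helper23.MC.Inst.rIOR Pool.Agent.Helper23.MC.Inst.rISOR
  Pool.Agent.Helper23.MC.Inst.rNZD Pool.Agent.Helper23.MC.Inst.rcCharZero
  Pool.Agent.Helper23.MC.Inst.rcNZD Pool.Agent.Helper23.MC.Inst.zCharZero
  Pool.Agent.Helper23.MC.Inst.zALM Pool.Agent.Helper23.MC.Inst.zARM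
  Pool.Agent.Helper23.MC.Inst.zALSM Pool.Agent.Helper23.MC.Inst.zARSM
  Pool.Agent.Helper23.MC.Inst.zIOR Pool.Agent.Helper23.MC.Inst.zISOR
  Pool.Agent.Helper23.MC.Inst.zNZD Pool.Agent.Helper23.MC.Inst.qCharZero
  Pool.Agent.Helper23.MC.Inst.mR Pool.Agent.Helper23.MC.Inst.mC Pool.Agent.Helper23.MC.Inst.mRC
  Pool.Agent.Helper23.MC.Inst.rPSM Pool.Agent.Helper23.MC.Inst.rCSM
  Pool.Agent.Helper23.MC.Inst.cAdd Pool.Agent.Helper23.MC.Inst.cAddM
  Pool.Agent.Helper23.MC.Inst.cMul Pool.Agent.Helper23.MC.Inst.cMon

namespace Pool.Agent.Helper57.NX
end Pool.Agent.Helper57.NX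

section

set_option autoImplicit false

open Finset

open scoped BigOperators ComplexConjugate

namespace Pool.Agent.Helper67.NX2

open Pool.Agent.Helper57.NX

noncomputable section

set_option maxHeartbeats 2000000 in
theorem top_last15 (m : ℕ) (c : Fin (m + 1) → ℝ) (hR : RatlSt15 c) (hc : Ex c) (d : ℕ)
    (hd : c (Fin.last m) = d)
    (hJ : ∀ ε : ℝ, 0 < ε → UsJ m c 0 ε (univ.erase (Fin.last m))) (ε : ℝ) (hε : 0 < ε) :
    ∃ x0 : ℝ, 0 < x0 ∧ ∃ C : ℕ, ∃ σ : ℝ, 0 < σ ∧ ∃ D0 : ℝ,
    ∀ (S : Sys (m + 1)) (N : ℕ) [NeZero N] (lam : ℕ), D0 ≤ S.D → IG S c N x0 lam →
    ∀ δ : ℝ, S.D ^ (-σ) ≤ δ → δ ≤ 1 / 2 → (lam : ℝ) ≤ δ⁻¹ →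
    ∀ (f0 : ZMod N → ℂ) (f : Fin (m + 1) → ZMod N → ℂ),
    Adm δ⁻¹ S.Q f0 → (∀ i, Adm δ⁻¹ S.Q (f i)) → δ ≤ ‖form S c 1 f0 f‖ →
    ∃ q : ℕ, 1 ≤ q ∧ (q : ℝ) ≤ δ⁻¹ ^ C ∧ ∀ L : ℕ, 1 ≤ L →
      (L : ℝ) * ((S.Q * q : ℕ) : ℝ) ≤ S.P (Fin.last m) * S.D ^ (-ε) →
      δ ^ C ≤ nrm (Aq (S.Q * q) L (f (Fin.last m))) := by
  have hc0 : ∀ i, 0 < c i := fun i => by linarith [hc.two i]
  have hcm : ∀ i, c i ≤ c (Fin.last m) := fun i => hc.strictMono.monotone (Fin.le_last i)
  obtain ⟨xr, hxr, Cr, σr, hσr, Dr, hr⟩ := hR (c (Fin.last m) + 5) (ε / 4) (by (clear * - hε; linarith))
  set w : ℝ := min xr (1 / 2) with hw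
  have hw0 : 0 < w := lt_min hxr (by norm_num)
  have hwr : w ≤ xr := min_le_left _ _
  have hw2 : w ≤ 1 / 2 := min_le_right _ _
  exact by
    clear_value w
    obtain ⟨xc, hxc, Cc, σc, hσc, Dc, hcr⟩ := char_rep m c hc 0 le_rfl (hc0 _)
      (univ.erase (Fin.last m)) hJ (w / 4) (by (clear * - hw0; linarith))
    set c2 : ℕ := 2 * Cc + 6 with hc2
    set C : ℕ := 2 * Cc + 7 + c2 * Cr with hC
    set Ka : ℕ := C + 3 * Cc + c2 + 1 with hKa
    set τ : ℝ := min σc (min σr (w / 2)) with hτ
    have hτ0 : 0 < τ := lt_min hσc (lt_min hσr (by (clear * - hw0; linarith)))
    have hτc : τ ≤ σc := min_le_left _ _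
    have hτr : τ ≤ σr := (min_le_right _ _).trans (min_le_left _ _)
    have hτw : τ ≤ w / 2 := (min_le_right _ _).trans (min_le_right _ _)
    clear_value τ
    have hKa1 : (1 : ℝ) ≤ (Ka : ℝ) := by
      have : 1 ≤ Ka := by omega
      exact_mod_cast this
    have hσ0 : 0 < τ / (8 * Ka) := by (clear * - hτ0; positivity)
    have hMc0 : 0 ≤ Mc c := Finset.sum_nonneg fun i _ => mul_nonneg (hc0 i).le (by positivity)
    set A1 : ℝ := 4 * (m + 1) * (2 * Mc c + 1) with hA1
    have hA10 : 0 ≤ A1 := by (clear * - hMc0; positivity)
    clear_value A1
    refine ⟨min xc (min (w / 8) (ε / 8)), lt_min hxc (lt_min (by (clear * - hτ0 hτw; linarith)) (by (clear * - hε; linarith))), C,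
      τ / (8 * Ka), hσ0, max (max Dr Dc) (max (max ((8 : ℝ) ^ (1 / (w / 2))) (A1 ^ (1 / (w / 4))))
        (max (512 * (m + 1)) ((14 : ℝ) ^ (1 / (ε / 2))))), ?_⟩
    intro S N _ lam hSD hI δ hδ1 hδ2 hlam f0 f h0 hf hform
    have hDr : Dr ≤ S.D := (le_max_left _ _).trans ((le_max_left _ _).trans hSD)
    have hDc : Dc ≤ S.D := (le_max_right _ _).trans ((le_max_left _ _).trans hSD)
    have hD8 : (8 : ℝ) ≤ S.D ^ (w / 2) := large15 (by norm_num) (by (clear * - hτ0 hτw; linarith))
      ((le_max_left _ _).trans ((le_max_left _ _).trans ((le_max_right _ _).trans hSD)))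
    have hDA : A1 ≤ S.D ^ (w / 4) := large15 hA10 (by (clear * - hτ0 hτw; linarith))
      ((le_max_right _ _).trans ((le_max_left _ _).trans ((le_max_right _ _).trans hSD)))
    exact by
      have hDm : 512 * ((m : ℝ) + 1) ≤ S.D :=
        (le_max_left _ _).trans ((le_max_right _ _).trans ((le_max_right _ _).trans hSD))
      have hD14 : (14 : ℝ) ≤ S.D ^ (ε / 2) := large15 (by norm_num) (by (clear * - hε; linarith))
        ((le_max_right _ _).trans ((le_max_right _ _).trans ((le_max_right _ _).trans hSD)))
      have hD1 : 1 ≤ S.D := by
        have : (0 : ℝ) ≤ m := Nat.cast_nonneg m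
        (clear * - hw2 hτ0 hτw hDm; linarith)
      have hD0 : 0 < S.D := by (clear * - hw2 hτ0 hτw hDm; linarith)
      have hδ0 : 0 < δ := lt_of_lt_of_le (Real.rpow_pos_of_pos hD0 _) hδ1
      have hδle1 : δ ≤ 1 := by (clear * - hw2 hτ0 hτw hδ2; linarith)
      exact by
        have hδi : 1 ≤ δ⁻¹ := (one_le_inv₀ hδ0).2 hδle1
        have hpow : ∀ j : ℕ, j ≤ Ka → S.D ^ (-(τ / 8)) ≤ δ ^ j := by
          intro j hj
          refine pow_ge15' hD1 hσ0.le (le_of_eq ?_) hδ1 hj
          (clear * - hKa1 hτ0; field_simp)
        have hpowi : ∀ j : ℕ, j ≤ Ka → δ⁻¹ ^ j ≤ S.D ^ (τ / 8) := fun j hj =>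
          inv_pow_le15' hD0 (hpow j hj)
        have hIc : IG S c N xc lam := hI.mono (min_le_left _ _) hD1
        have hIw : IG S c N (w / 8) lam := hI.mono ((min_le_right _ _).trans (min_le_left _ _)) hD1
        have hIε : IG S c N (ε / 8) lam := hI.mono ((min_le_right _ _).trans (min_le_right _ _)) hD1
        exact by
          have hQD : S.D ^ (2 : ℝ) ≤ (S.Q : ℝ) := hI.good.Q1
          have hQ0 : (0 : ℝ) < S.Q := lt_of_lt_of_le (Real.rpow_pos_of_pos hD0 _) hQD
          have hP2 : ∀ i, S.D ^ (2 : ℝ) ≤ S.P i := by
            intro i
            refine le_trans ?_ (hIw.good.P1 i)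
            calc S.D ^ (2 : ℝ) = S.D ^ (2 : ℝ) * 1 := (mul_one _).symm
              _ ≤ S.Q * S.D ^ (c i - w / 8) := by
                refine mul_le_mul hQD (Real.one_le_rpow hD1 ?_) zero_le_one hQ0.le
                (clear * - hw2 hτ0 hτw hc; linarith [hc.two i])
          have hP0 : ∀ i, 0 < S.P i := fun i => (Real.rpow_pos_of_pos hD0 _).trans_le (hP2 i)
          -- replacing the lower functions
          obtain ⟨q, hq1, hq, b, cc, hb, hform2⟩ := hcr S N lam hDc hIc δ
            ((Real.rpow_le_rpow_of_exponent_le hD1 (by (clear * - hσc hτc; linarith))).trans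
              ((hpow 1 (by omega)).trans (pow_one δ).le)) hδ2 hlam S.Q le_rfl
            (by
              refine mul_le_of_le_one_right hQ0.le ?_
              exact Real.rpow_le_one_of_one_le_of_nonpos hD1 (by (clear * - hσc; linarith)))
            (by rw [Real.rpow_zero, mul_one]) 1 f0 f (fun k => by simp) h0 hf (hf _) hform
          have hmem : ∀ i : Fin m, i.castSucc ∈ univ.erase (Fin.last m) := fun i => by
            simp [(Fin.castSucc_lt_last i).ne]
          set G : ℕ → ℂ := fun k => 𝔼 x, f0 x * ∏ i, (if i ∈ univ.erase (Fin.last m) then
                e ((b i : ℝ) / N * (x + (S.a c i k : ZMod N)).val) * cc i (x + (S.a c i k : ZMod N))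
                else f i (x + (S.a c i k : ZMod N))) with hG
          exact by
            have hform3 : δ ^ Cc ≤ ‖𝔼 k ∈ S.I, G k‖ := by
              refine hform2.trans (le_of_eq ?_)
              congr 1
              unfold form
              refine expect_congr rfl fun k _ => ?_
              rw [Pi.one_apply, one_mul]
            have hG1 : ∀ k, ‖G k‖ ≤ 1 := by
              intro k
              refine norm_expect_le_of5 _ _ zero_le_one fun x _ => ?_
              rw [norm_mul, norm_prod]
              refine mul_le_one₀ (h0.bdd x) (prod_nonneg fun _ _ => norm_nonneg _) ?_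
              refine prod_le_one (fun _ _ => norm_nonneg _) fun i _ => ?_
              split_ifs with hi
              · rw [norm_mul, norm_e, one_mul]
                exact (hb i hi).2.2.1.bdd _
              · exact (hf i).bdd _
            -- the window
            set J : ℕ := ⌈S.D ^ (1 - w)⌉₊ with hJdef
            have hJ1 : S.D ^ (1 - w) ≤ J := Nat.le_ceil _
            have hJ0 : 1 ≤ S.D ^ (1 - w) := Real.one_le_rpow hD1 (by (clear * - hw2 hτ0 hτw; linarith))
            have hJ2 : (J : ℝ) ≤ 2 * S.D ^ (1 - w) := by
              have := Nat.ceil_lt_add_one (a := S.D ^ (1 - w)) (by (clear * - hD1; positivity))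
              (clear * - hJ0 this; linarith)
            exact by
              have hJpos : 1 ≤ J := by
                have : (1 : ℝ) ≤ J := hJ0.trans hJ1
                exact_mod_cast this
              have hqD : (q : ℝ) ≤ S.D ^ (τ / 8) := hq.trans (hpowi Cc (by omega))
              have hη0 : 0 < δ ^ Cc := pow_pos hδ0 _
              have hη1 : δ ^ Cc ≤ 1 := pow_le_one₀ hδ0.le hδle1
              have hqJD : (q : ℝ) * J ≤ 2 * S.D ^ (1 - w + τ / 8) := by
                calc (q : ℝ) * J ≤ S.D ^ (τ / 8) * (2 * S.D ^ (1 - w)) :=
                      mul_le_mul hqD hJ2 (by (clear * - hD1; positivity)) (by (clear * - hD1; positivity))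
                  _ = 2 * S.D ^ (1 - w + τ / 8) := by
                      rw [Real.rpow_add hD0]
                      ring
              have hqJ : 4 * (q : ℝ) * J ≤ δ ^ Cc * S.T := by
                calc 4 * (q : ℝ) * J = 4 * (q * J) := by ring
                  _ ≤ 4 * (2 * S.D ^ (1 - w + τ / 8)) := by (clear * - hqJD; linarith)
                  _ = 8 * S.D ^ (1 - w + τ / 8) := by ring
                  _ ≤ S.D ^ (w / 2) * S.D ^ (1 - w + τ / 8) := mul_le_mul_of_nonneg_right hD8 (by positivity)
                  _ = S.D ^ (1 - w / 2 + τ / 8) := by
                      rw [← Real.rpow_add hD0]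
                      congr 1
                      ring
                  _ ≤ S.D ^ (-(τ / 8) + (1 - w / 8)) := by
                      apply Real.rpow_le_rpow_of_exponent_le hD1
                      (clear * - hτ0 hτw; linarith)
                  _ = S.D ^ (-(τ / 8)) * S.D ^ (1 - w / 8) := Real.rpow_add hD0 _ _
                  _ ≤ δ ^ Cc * S.T := mul_le_mul (hpow Cc (by omega)) hIw.good.T1 (by (clear * - hD1; positivity))
                      (by (clear * - hδ0; positivity))
              exact by
                have hTD : (S.T : ℝ) ≤ S.D := by
                  have h1 := hI.good.u1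
                  have h2 := hI.good.u2
                  (clear * - h1 h2; linarith)
                have hqJD' : (q : ℝ) * J ≤ S.D := by
                  have h1 : δ ^ Cc * S.T ≤ 1 * S.T := mul_le_mul_of_nonneg_right hη1 (Nat.cast_nonneg _)
                  have h2 : 0 ≤ (q : ℝ) * J := by (clear * - hq1 hD1; positivity)
                  (clear * - hw2 hτ0 hτw hDm hqJ hTD h1; linarith)
                obtain ⟨r0, u', hr0, hu', huT, hwin⟩ := exists_window S (δ ^ Cc) q J hq1 hJpos hqJ G hG1 hform3
                  hη0
                set k0 : ℕ := q * u' + r0 with hk0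
                have hk0I : k0 ∈ S.I := by
                  rw [Sys.I, mem_Ico]
                  refine ⟨hu', ?_⟩
                  have h1 : 1 ≤ q * J := Nat.mul_pos hq1 hJpos
                  have h2 : q * (u' + J) = q * u' + q * J := by ring
                  omega
                set E : ℝ := (2 * Mc c + 1) * S.D ^ (-(w / 2)) with hEdef
                have hE0 : 0 ≤ E := by (clear * - hMc0 hD1; positivity)
                exact by
                  have hE : ∀ (i : Fin m), ∀ j ∈ Ico u' (u' + J), ∀ x,
                      ‖cc i.castSucc (x + (S.a c i.castSucc (q * j + r0) : ZMod N)) -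
                        cc i.castSucc (x + (S.a c i.castSucc k0 : ZMod N))‖ ≤ E := by
                    intro i j hj x
                    rw [mem_Ico] at hj
                    obtain ⟨j', rfl⟩ := Nat.exists_eq_add_of_le hj.1
                    have hj' : j' < J := by omega
                    have h1 : q * (u' + j') + r0 = k0 + q * j' := by rw [hk0]; ring
                    rw [h1]
                    obtain ⟨t, ht⟩ := step_div15 hI hD0 q k0 j' i.castSucc
                    have h2 : x + (S.a c i.castSucc (k0 + q * j') : ZMod N) =
                        x + (S.a c i.castSucc k0 : ZMod N) +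
                          ((stp S.Q q (c i.castSucc) * t : ℤ) : ZMod N) := by
                      rw [ht]
                      push_cast
                      ring
                    rw [h2]
                    refine ((hb i.castSucc (hmem i)).2.2.2 _ t).trans ?_
                    have h3 : |(t : ℝ)| * (stp S.Q q (c i.castSucc) : ℝ) =
                        |((S.a c i.castSucc (k0 + q * j') - S.a c i.castSucc k0 : ℤ) : ℝ)| := by
                      rw [ht]
                      push_cast
                      rw [add_sub_cancel_left, abs_mul, Nat.abs_cast, mul_comm]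
                    rw [h3]
                    have hqj' : ((q * j' : ℕ) : ℝ) ≤ q * J := by
                      push_cast
                      exact mul_le_mul_of_nonneg_left (by exact_mod_cast hj'.le) (Nat.cast_nonneg _)
                    have h4 := a_diff hI.good hc0 hD1 hk0I (hqj'.trans hqJD') (fun i => (hP0 i).le) i.castSucc
                    have h5 : ((q * j' : ℕ) : ℝ) / S.D ≤ 2 * S.D ^ (-w + τ / 8) := by
                      rw [div_le_iff₀ hD0]
                      refine (hqj'.trans hqJD).trans (le_of_eq ?_)
                      rw [mul_assoc, ← Real.rpow_add_one' hD0.le (by (clear * - hw2 hτ0 hτw; linarith))]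
                      congr 2
                      ring
                    have h6 : S.P i.castSucc * (Mc c * (((q * j' : ℕ) : ℝ) / S.D)) + 1 ≤
                        S.P i.castSucc * (Mc c * (2 * S.D ^ (-w + τ / 8))) + 1 := by
                      have := mul_le_mul_of_nonneg_left (mul_le_mul_of_nonneg_left h5 hMc0) (hP0 i.castSucc).le
                      (clear * - this; linarith)
                    have h7 : S.D ^ (w / 4) / S.P i.castSucc ≤ S.D ^ (-(w / 2)) := by
                      rw [div_le_iff₀ (hP0 _)]
                      calc S.D ^ (w / 4) ≤ S.D ^ (-(w / 2) + 2) := by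
                            apply Real.rpow_le_rpow_of_exponent_le hD1
                            (clear * - hw2 hτ0 hτw; linarith)
                        _ = S.D ^ (-(w / 2)) * S.D ^ (2 : ℝ) := Real.rpow_add hD0 _ _
                        _ ≤ S.D ^ (-(w / 2)) * S.P i.castSucc := mul_le_mul_of_nonneg_left (hP2 _) (by (clear * - hD1; positivity))
                    have h8 : S.D ^ (-w + τ / 8) * S.D ^ (w / 4) ≤ S.D ^ (-(w / 2)) := by
                      rw [← Real.rpow_add hD0]
                      apply Real.rpow_le_rpow_of_exponent_le hD1
                      (clear * - hτ0 hτw; linarith)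
                    calc |((S.a c i.castSucc (k0 + q * j') - S.a c i.castSucc k0 : ℤ) : ℝ)| * S.D ^ (w / 4) /
                          S.P i.castSucc
                        ≤ (S.P i.castSucc * (Mc c * (2 * S.D ^ (-w + τ / 8))) + 1) * S.D ^ (w / 4) /
                          S.P i.castSucc := by
                          apply div_le_div_of_nonneg_right _ (hP0 _).le
                          exact mul_le_mul_of_nonneg_right (h4.trans h6) (by (clear * - hD1; positivity))
                      _ = 2 * Mc c * (S.D ^ (-w + τ / 8) * S.D ^ (w / 4)) + S.D ^ (w / 4) / S.P i.castSucc := by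
                          have := (hP0 i.castSucc).ne'
                          (clear * - this hD1; field_simp)
                      _ ≤ 2 * Mc c * S.D ^ (-(w / 2)) + S.D ^ (-(w / 2)) :=
                          add_le_add (mul_le_mul_of_nonneg_left h8 (by (clear * - hMc0; positivity))) h7
                      _ = E := by rw [hEdef]; ring
                  have hmE : m * E ≤ δ ^ Cc / 4 := by
                    have h1 : 4 * (m * E) ≤ A1 * S.D ^ (-(w / 2)) := by
                      have h2 : 0 ≤ (2 * Mc c + 1) * S.D ^ (-(w / 2)) := hE0
                      rw [hEdef, hA1]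
                      (clear * - hE0; nlinarith)
                    have h3 : A1 * S.D ^ (-(w / 2)) ≤ S.D ^ (w / 4) * S.D ^ (-(w / 2)) :=
                      mul_le_mul_of_nonneg_right hDA (by positivity)
                    have h4 : S.D ^ (w / 4) * S.D ^ (-(w / 2)) ≤ S.D ^ (-(τ / 8)) := by
                      rw [← Real.rpow_add hD0]
                      apply Real.rpow_le_rpow_of_exponent_le hD1
                      (clear * - hτ0 hτw; linarith)
                    have h5 := hpow Cc (by omega)
                    (clear * - h1 h3 h4 h5; linarith)
                  have hwin2 := window15 S c h0.bdd f b cc (fun i x => (hb i.castSucc (hmem i)).2.2.1.bdd x)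
                    (hf (Fin.last m)).bdd (Ico u' (u' + J)) (fun j => q * j + r0) k0 E hE0 hE
                  set fm : ZMod N → ℂ := f (Fin.last m) with hfm
                  set wt : ℕ → ℂ := fun j =>
                    e (∑ i : Fin m, (b i.castSucc : ℝ) / N * (S.a c i.castSucc (q * j + r0))) with hwt
                  set am : ℕ → ℤ := fun j => S.a c (Fin.last m) (q * j + r0) with ham
                  have hL1 : δ ^ Cc / 4 ≤ 𝔼 x, ‖𝔼 j ∈ Ico u' (u' + J), wt j * fm (x + (am j : ZMod N))‖ := by
                    (clear * - hwin hmE hwin2; linarith)
                  exact by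
                    have hL2 : (δ ^ Cc) ^ 2 / 16 ≤
                        𝔼 x, ‖𝔼 j ∈ Ico u' (u' + J), wt j * fm (x + (am j : ZMod N))‖ ^ 2 := by
                      have h1 := expect_mul_sq_le_sq_mul_sq univ (fun _ => (1 : ℝ))
                        fun x : ZMod N => ‖𝔼 j ∈ Ico u' (u' + J), wt j * fm (x + (am j : ZMod N))‖
                      simp only [one_mul, one_pow] at h1
                      rw [expect_const univ_nonempty, one_mul] at h1
                      refine le_trans ?_ h1
                      calc (δ ^ Cc) ^ 2 / 16 = (δ ^ Cc / 4) ^ 2 := by ring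
                        _ ≤ _ := pow_le_pow_left₀ (by (clear * - hδ0; positivity)) hL1 2
                    rw [four_window15] at hL2
                    set ξ : ℝ := (δ ^ Cc) ^ 2 / 32 with hξ
                    have hξ0 : 0 < ξ := by positivity
                    have hξ1 : ξ = δ ^ (2 * Cc) / 32 := by rw [hξ, ← pow_mul, mul_comm Cc 2]
                    set δ2 : ℝ := δ ^ c2 with hδ2def
                    have hδ20 : 0 < δ2 := pow_pos hδ0 _
                    have hδ2i : δ2⁻¹ = δ⁻¹ ^ c2 := by rw [hδ2def, inv_pow]
                    exact by
                      have hδ2ξ : δ2 ≤ ξ / 2 := by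
                        rw [hδ2def, hξ1, hc2, pow_add]
                        have h1 : δ ^ 6 ≤ (1 / 2) ^ 6 := pow_le_pow_left₀ hδ0.le hδ2 6
                        have h2 : 0 < δ ^ (2 * Cc) := pow_pos hδ0 _
                        (clear * - h1 hw2 hτ0 hτw hξ hξ1; nlinarith)
                      have hcard : ∀ (Z : ℕ → ℂ), (∀ j, ‖Z j‖ = 1) → ‖𝔼 j ∈ Ico u' (u' + J), Z j‖ ≤ 1 := fun Z hZ =>
                        norm_expect_le_of5 _ _ zero_le_one fun j _ => (hZ j).le
                      have hWle : ∀ bb : ZMod N, ‖𝔼 j ∈ Ico u' (u' + J), wt j * e (fr bb * am j)‖ ≤ 1 := fun bb =>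
                        hcard _ fun j => by simp only [hwt, norm_mul, norm_e, mul_one]
                      obtain ⟨q', hq'1, hq'R, hq'V⟩ := pigeon15 (hf (Fin.last m)).bdd
                        (fun bb => ‖𝔼 j ∈ Ico u' (u' + J), wt j * e (fr bb * am j)‖ ^ 2)
                        (fun bb => pow_le_one₀ (norm_nonneg _) (hWle bb)) ξ hξ0 (by
                          refine le_trans (le_of_eq ?_) hL2
                          rw [hξ]
                          ring) ⌊δ2⁻¹ ^ Cr⌋₊
                        (fun q' bb => dint ((q' : ℝ) * (fr bb * S.Q)) ≤ S.D ^ (ε / 4 - d)) (by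
                          intro bb hbb
                          have hZ : ξ ≤ ‖𝔼 j ∈ Ico u' (u' + J), wt j * e (fr bb * am j)‖ :=
                            hbb.trans (pow_le_of_le_one (norm_nonneg _) (hWle bb) two_ne_zero)
                          rw [expect_Ico15] at hZ
                          set v : Fin (m + 1) → ℝ := Fin.snoc (α := fun _ => ℝ)
                            (fun i : Fin m => (b i.castSucc : ℝ) / N * S.P i.castSucc)
                            (fr bb * S.P (Fin.last m)) with hv
                          have hθ : ∀ i : Fin m, |(b i.castSucc : ℝ) / N| ≤ δ⁻¹ ^ Cc / S.Q := fun i =>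
                            (hb i.castSucc (hmem i)).1
                          have hZ2 : ‖𝔼 j ∈ range J, wt (u' + j) * e (fr bb * am (u' + j)) -
                              𝔼 j ∈ range J, e (∑ i, v i * ((((k0 + q * j : ℕ) : ℝ) + S.ρ) / S.D) ^ (c i))‖ ≤
                              ξ / 2 := by
                            rw [← expect_sub_distrib]
                            refine norm_expect_le_of5 _ _ (by positivity) fun j _ => ?_
                            have h1 : q * (u' + j) + r0 = k0 + q * j := by rw [hk0]; ring
                            simp only [hwt, ham, h1]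
                            refine (phase15 hI hD0 d hd (fun i : Fin m => (b i.castSucc : ℝ) / N) (fr bb)
                              (k0 + q * j)).trans ?_
                            have h2 : ∑ i : Fin m, |(b i.castSucc : ℝ) / N| ≤ m * (δ⁻¹ ^ Cc / S.Q) := by
                              refine (sum_le_sum fun i _ => hθ i).trans (le_of_eq ?_)
                              rw [sum_const, card_univ, Fintype.card_fin, nsmul_eq_mul]
                            have h3 : 2 * Real.pi ≤ 8 := by (clear * -; linarith [Real.pi_le_four])
                            have h4 : 512 * ((m : ℝ) + 1) * δ⁻¹ ^ Cc ≤ S.Q * δ ^ (2 * Cc) := by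
                              have h5 : 512 * ((m : ℝ) + 1) ≤ S.Q * δ ^ (3 * Cc) := by
                                calc 512 * ((m : ℝ) + 1) ≤ S.D := hDm
                                  _ = S.D ^ (2 : ℝ) * S.D ^ (-1 : ℝ) := by
                                      rw [← Real.rpow_add hD0]
                                      norm_num
                                  _ ≤ S.Q * δ ^ (3 * Cc) := by
                                      refine mul_le_mul hQD ?_ (by (clear * - hD1; positivity)) hQ0.le
                                      refine le_trans ?_ (hpow (3 * Cc) (by (clear * - w S q r0 u' j; omega)))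
                                      apply Real.rpow_le_rpow_of_exponent_le hD1
                                      (clear * - hw2 hτ0 hτw; linarith)
                              have h6 : δ ^ (3 * Cc) * δ⁻¹ ^ Cc = δ ^ (2 * Cc) := by
                                rw [show 3 * Cc = 2 * Cc + Cc by ring, pow_add, mul_assoc, ← mul_pow,
                                  mul_inv_cancel₀ hδ0.ne', one_pow, mul_one]
                              calc 512 * ((m : ℝ) + 1) * δ⁻¹ ^ Cc ≤ S.Q * δ ^ (3 * Cc) * δ⁻¹ ^ Cc :=
                                    mul_le_mul_of_nonneg_right h5 (by (clear * - hδ0; positivity))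
                                _ = S.Q * δ ^ (2 * Cc) := by rw [mul_assoc, h6]
                            calc 2 * Real.pi * ∑ i : Fin m, |(b i.castSucc : ℝ) / N|
                                ≤ 8 * (m * (δ⁻¹ ^ Cc / S.Q)) :=
                                  mul_le_mul h3 h2 (sum_nonneg fun _ _ => abs_nonneg _) (by norm_num)
                              _ = 8 * m * δ⁻¹ ^ Cc / S.Q := by ring
                              _ ≤ ξ / 2 := by
                                  rw [div_le_iff₀ hQ0, hξ1]
                                  have h7 : 0 ≤ δ⁻¹ ^ Cc := by positivity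
                                  (clear * - hq h4; nlinarith)
                          have hZ3 : δ2 ≤ ‖𝔼 j ∈ range J,
                              e (∑ i, v i * ((((k0 + q * j : ℕ) : ℝ) + S.ρ) / S.D) ^ (c i))‖ := by
                            have h1 := norm_sub_norm_le (𝔼 j ∈ range J, wt (u' + j) * e (fr bb * am (u' + j)))
                              (𝔼 j ∈ range J, e (∑ i, v i * ((((k0 + q * j : ℕ) : ℝ) + S.ρ) / S.D) ^ (c i)))
                            (clear * - hδ2ξ hZ hZ2 h1; linarith)
                          have hk0D : (k0 : ℝ) ≤ 2 * S.D := by
                            have h1 : (k0 : ℝ) ≤ S.u + S.T := by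
                              have h2 : k0 ≤ S.u + S.T := by
                                have h3 : q * (u' + J) = q * u' + q * J := by ring
                                omega
                              exact_mod_cast h2
                            exact h1.trans hI.good.u2
                          exact by
                            have hkey := hr S.D hDr S.ρ hI.good.ρ0 hI.good.ρ1 lam hI.lam1 hI.rho δ2
                              ((Real.rpow_le_rpow_of_exponent_le hD1 (by (clear * - hσr hτr; linarith))).trans (hpow c2 (by omega)))
                              ((pow_le_of_le_one hδ0.le hδle1 (by omega)).trans hδ2)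
                              (hlam.trans (by rw [hδ2i]; exact le_self_pow₀ hδi (by omega))) v
                              (by
                                intro i
                                refine Fin.lastCases ?_ (fun i => ?_) i
                                · rw [hv, Fin.snoc_last, abs_mul, abs_of_pos (hP0 _)]
                                  calc |fr bb| * S.P (Fin.last m) ≤ 1 * S.P (Fin.last m) := by
                                        refine mul_le_mul_of_nonneg_right ?_ (hP0 _).le
                                        (clear * - hw2 hτ0 hτw; linarith [abs_fr_le bb])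
                                    _ = S.P (Fin.last m) := one_mul _
                                    _ ≤ S.Q * S.D ^ (c (Fin.last m) + w / 8) := hIw.good.P2 _
                                    _ ≤ S.D ^ (3 : ℝ) * S.D ^ (c (Fin.last m) + w / 8) :=
                                        mul_le_mul_of_nonneg_right hI.good.Q2 (by (clear * - hD1; positivity))
                                    _ = S.D ^ (3 + (c (Fin.last m) + w / 8)) := (Real.rpow_add hD0 _ _).symm
                                    _ ≤ S.D ^ (c (Fin.last m) + 5) := by
                                        apply Real.rpow_le_rpow_of_exponent_le hD1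
                                        (clear * - hw2 hτ0 hτw; linarith)
                                · rw [hv, Fin.snoc_castSucc, abs_mul, abs_of_pos (hP0 _)]
                                  calc |(b i.castSucc : ℝ) / N| * S.P i.castSucc
                                      ≤ (δ⁻¹ ^ Cc / S.Q) * (S.Q * S.D ^ (c i.castSucc + w / 8)) :=
                                        mul_le_mul (hθ i) (hIw.good.P2 _) (hP0 _).le (by (clear * - hδ0 hQ0; positivity))
                                    _ = δ⁻¹ ^ Cc * S.D ^ (c i.castSucc + w / 8) := by (clear * - hQ0 hD1 hδ0; field_simp)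
                                    _ ≤ S.D ^ (τ / 8) * S.D ^ (c i.castSucc + w / 8) :=
                                        mul_le_mul_of_nonneg_right (hpowi Cc (by omega)) (by (clear * - hD1; positivity))
                                    _ = S.D ^ (τ / 8 + (c i.castSucc + w / 8)) := (Real.rpow_add hD0 _ _).symm
                                    _ ≤ S.D ^ (c (Fin.last m) + 5) := by
                                        apply Real.rpow_le_rpow_of_exponent_le hD1
                                        (clear * - hw2 hτ0 hτw hcm; linarith [hcm i.castSucc]))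
                              q k0 J hq1
                              (hq.trans (by rw [hδ2i]; exact pow_le_pow_right₀ hδi (by (clear * - Cr w S q r0 u'; omega))))
                              (hI.good.u1.trans (by exact_mod_cast hu'))
                              (hk0D.trans (by (clear * - hw2 hτ0 hτw hDm; linarith)))
                              ((Real.rpow_le_rpow_of_exponent_le hD1 (by (clear * - hwr; linarith))).trans hJ1)
                              hqJD' hZ3
                            obtain ⟨-, q', hq'1, hq', hq'd⟩ := hkey
                            refine ⟨q', hq'1, Nat.le_floor hq', ?_⟩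
                            have h1 := hq'd (Fin.last m) d hd
                            rw [hv, Fin.snoc_last, hI.Pint (Fin.last m) d hd] at h1
                            have h2 : fr bb * (S.Q * (lam * S.D) ^ d) / (lam * S.D) ^ d = fr bb * S.Q := by
                              have h3 : (lam : ℝ) ≠ 0 := by
                                have := hI.lam1
                                have h4 : lam ≠ 0 := by omega
                                exact_mod_cast h4
                              have h5 : ((lam : ℝ) * S.D) ^ d ≠ 0 := pow_ne_zero _ (mul_ne_zero h3 hD0.ne')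
                              rw [← mul_assoc, mul_div_assoc, div_self h5, mul_one]
                            rw [h2] at h1
                            exact h1)
                      classical
                      have hRpos : 1 ≤ ⌊δ2⁻¹ ^ Cr⌋₊ := hq'1.trans hq'R
                      exact by
                        have hRle : ((⌊δ2⁻¹ ^ Cr⌋₊ : ℕ) : ℝ) ≤ δ⁻¹ ^ (c2 * Cr) := by
                          refine (Nat.floor_le (by (clear * - hδ0; positivity))).trans (le_of_eq ?_)
                          rw [hδ2i, ← pow_mul]
                        have hq'δ : (q' : ℝ) ≤ δ⁻¹ ^ (c2 * Cr) := le_trans (by exact_mod_cast hq'R) hRle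
                        refine ⟨q', hq'1, hq'δ.trans (pow_le_pow_right₀ hδi (by omega)), ?_⟩
                        intro L hL hLP
                        have hfin := nrm_Aq_ge15 (hf (Fin.last m)).bdd (S.Q * q') L _ _ hq'V (by
                          intro bb hbb
                          have hbb' : dint ((q' : ℝ) * (fr bb * S.Q)) ≤ S.D ^ (ε / 4 - d) := (mem_filter.1 hbb).2
                          have h1 : ∀ a : ℕ, fr bb * ((S.Q * q' * a : ℕ) : ℝ) = (q' : ℝ) * (fr bb * S.Q) * a := by
                            intro a
                            push_cast
                            ring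
                          simp only [h1]
                          refine half_le_norm15 _ _ L hL hbb' ?_
                          have hq'1' : (1 : ℝ) ≤ q' := by exact_mod_cast hq'1
                          have h2 : (L : ℝ) * S.Q ≤ S.P (Fin.last m) * S.D ^ (-ε) := by
                            refine le_trans ?_ hLP
                            push_cast
                            have : (S.Q : ℝ) ≤ S.Q * q' := le_mul_of_one_le_right hQ0.le hq'1'
                            exact mul_le_mul_of_nonneg_left this (Nat.cast_nonneg _)
                          have h3 : (L : ℝ) * S.Q ≤ S.Q * S.D ^ ((d : ℝ) + ε / 8 - ε) := by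
                            refine h2.trans ?_
                            rw [← hd]
                            calc S.P (Fin.last m) * S.D ^ (-ε) ≤ S.Q * S.D ^ (c (Fin.last m) + ε / 8) * S.D ^ (-ε) :=
                                  mul_le_mul_of_nonneg_right (hIε.good.P2 _) (by positivity)
                              _ = S.Q * S.D ^ (c (Fin.last m) + ε / 8 - ε) := by
                                  rw [mul_assoc, ← Real.rpow_add hD0]
                                  congr 2
                          have h4 : (L : ℝ) ≤ S.D ^ ((d : ℝ) + ε / 8 - ε) := by
                            rw [mul_comm] at h3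
                            exact le_of_mul_le_mul_left h3 hQ0
                          exact by
                            have h5 : (L : ℝ) * S.D ^ (ε / 4 - (d : ℝ)) ≤ S.D ^ (-(ε / 2)) := by
                              calc (L : ℝ) * S.D ^ (ε / 4 - (d : ℝ)) ≤
                                    S.D ^ ((d : ℝ) + ε / 8 - ε) * S.D ^ (ε / 4 - (d : ℝ)) :=
                                    mul_le_mul_of_nonneg_right h4 (by positivity)
                                _ = S.D ^ ((d : ℝ) + ε / 8 - ε + (ε / 4 - (d : ℝ))) := (Real.rpow_add hD0 _ _).symm
                                _ ≤ S.D ^ (-(ε / 2)) := by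
                                    apply Real.rpow_le_rpow_of_exponent_le hD1
                                    (clear * - hε; linarith)
                            have h6 : 14 * S.D ^ (-(ε / 2)) ≤ 1 := by
                              calc 14 * S.D ^ (-(ε / 2)) ≤ S.D ^ (ε / 2) * S.D ^ (-(ε / 2)) :=
                                    mul_le_mul_of_nonneg_right hD14 (by positivity)
                                _ = 1 := by rw [← Real.rpow_add hD0, add_neg_cancel, Real.rpow_zero]
                            have h7 : 2 * Real.pi ≤ 7 := by (clear * - hw2 hτ0 hτw; linarith [Real.pi_lt_d2])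
                            have h8 : 0 ≤ S.D ^ (-(ε / 2)) := by positivity
                            calc 2 * Real.pi * (L * S.D ^ (ε / 4 - (d : ℝ))) ≤ 7 * S.D ^ (-(ε / 2)) :=
                                  mul_le_mul h7 h5 (by (clear * - hL hD1; positivity)) (by norm_num)
                              _ ≤ 1 / 2 := by (clear * - h6; linarith))
                        refine le_trans ?_ hfin
                        have hRr : (0 : ℝ) < ((⌊δ2⁻¹ ^ Cr⌋₊ : ℕ) : ℝ) := by exact_mod_cast hRpos
                        rw [div_div, le_div_iff₀ (by (clear * - hRpos; positivity))]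
                        have h1 : δ ^ C * ((⌊δ2⁻¹ ^ Cr⌋₊ : ℕ) * 4) ≤ δ ^ C * (δ⁻¹ ^ (c2 * Cr) * 4) := by
                          apply mul_le_mul_of_nonneg_left _ (by positivity)
                          (clear * - hRle; linarith)
                        refine h1.trans ?_
                        have h2 : δ ^ C * (δ⁻¹ ^ (c2 * Cr) * 4) = δ ^ (2 * Cc) * δ ^ 7 * 4 := by
                          rw [hC, pow_add, pow_add]
                          have h3 : δ ^ (c2 * Cr) * δ⁻¹ ^ (c2 * Cr) = 1 := by
                            rw [← mul_pow, mul_inv_cancel₀ hδ0.ne', one_pow]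
                          linear_combination (δ ^ (2 * Cc) * δ ^ 7 * 4) * h3
                        exact by
                          rw [h2, hξ1]
                          have h3 : δ ^ 7 ≤ (1 / 2) ^ 7 := pow_le_pow_left₀ hδ0.le hδ2 7
                          have h4 : 0 < δ ^ (2 * Cc) := pow_pos hδ0 _
                          (clear * - h3 hw2 hτ0 hτw hξ hξ1; nlinarith)

theorem top_arith_of15 (m : ℕ) (c : Fin (m + 1) → ℝ) (hR : RatlSt15 c) (hc : Ex c) (d : ℕ)
    (hd : c (Fin.last m) = d)
    (hJ : ∀ ε : ℝ, 0 < ε → UsJ m c 0 ε (univ.erase (Fin.last m))) :
    ∀ ε : ℝ, 0 < ε → UsJ m c 0 ε univ := by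
  intro ε hε
  obtain ⟨x1, hx1, C1, σ1, hσ1, D1, H1⟩ := top_last15 m c hR hc d hd hJ ε hε
  obtain ⟨x2, hx2, C2, σ2, hσ2, D2, H2⟩ := hJ ε hε
  refine ⟨min x1 x2, lt_min hx1 hx2, C1 + C2, min σ1 σ2, lt_min hσ1 hσ2, max 1 (max D1 D2), ?_⟩
  intro S N _ lam hD hI δ hδ1 hδ2 hlam X hQX hX f0 f h0 hf hfX hform
  have hD1 : 1 ≤ S.D := (le_max_left _ _).trans hD
  have hD0 : 0 < S.D := by (clear * - hD1; linarith)
  have hδ0 : 0 < δ := lt_of_lt_of_le (Real.rpow_pos_of_pos hD0 _) hδ1
  have hδle1 : δ ≤ 1 := by (clear * - hδ2 hδ0; linarith)
  have hδi : 1 ≤ δ⁻¹ := (one_le_inv₀ hδ0).2 hδle1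
  have hs1 : min σ1 σ2 ≤ σ1 := min_le_left _ _
  exact by
    have hs2 : min σ1 σ2 ≤ σ2 := min_le_right _ _
    obtain ⟨q1, hq11, hq1, h1⟩ := H1 S N lam
      ((le_max_left _ _).trans ((le_max_right _ _).trans hD)) (hI.mono (min_le_left _ _) hD1) δ
      ((Real.rpow_le_rpow_of_exponent_le hD1 (by (clear * - hs1; linarith))).trans hδ1) hδ2 hlam f0 f h0 hf hform
    obtain ⟨q2, hq21, hq2, h2⟩ := H2 S N lam
      ((le_max_right _ _).trans ((le_max_right _ _).trans hD)) (hI.mono (min_le_right _ _) hD1) δ
      ((Real.rpow_le_rpow_of_exponent_le hD1 (by (clear * - hs2; linarith))).trans hδ1) hδ2 hlam X hQX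
      (le_trans (mul_le_mul_of_nonneg_left (Real.rpow_le_rpow_of_exponent_le hD1 (by (clear * - hs2; linarith)))
        (Nat.cast_nonneg _)) hX) f0 f h0 hf hfX hform
    refine ⟨q1 * q2, Nat.mul_pos hq11 hq21, ?_, ?_⟩
    · push_cast
      rw [pow_add]
      exact mul_le_mul hq1 hq2 (by (clear * - hq21; positivity)) (by (clear * - hδ0; positivity))
    · intro i _ L hL hLP
      by_cases hi : i = Fin.last m
      · subst hi
        have hN : IsN (c (Fin.last m)) := ⟨d, hd⟩
        rw [stp_nat _ _ hN] at hLP ⊢
        have e1 : S.Q * (q1 * q2) = (S.Q * q1) * q2 := by ring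
        rw [e1] at hLP ⊢
        refine le_trans ?_ (nrm_Aq_mul (S.Q * q1) q2 L hq21 (f (Fin.last m)))
        refine le_trans (pow_le_pow_of_le_one hδ0.le hδle1 (Nat.le_add_right C1 C2))
          (h1 (q2 * L) (Nat.mul_pos hq21 hL) (le_trans (le_of_eq ?_) hLP))
        push_cast
        ring
      · have hie : i ∈ univ.erase (Fin.last m) := mem_erase.2 ⟨hi, mem_univ _⟩
        by_cases hN : IsN (c i)
        · have h3 := h2 i hie (q1 * L) (Nat.mul_pos hq11 hL)
          rw [stp_nat _ _ hN] at hLP h3 ⊢
          have e1 : S.Q * (q1 * q2) = (S.Q * q2) * q1 := by ring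
          rw [e1] at hLP ⊢
          refine le_trans ?_ (nrm_Aq_mul (S.Q * q2) q1 L hq11 (f i))
          refine le_trans (pow_le_pow_of_le_one hδ0.le hδle1 (Nat.le_add_left C2 C1))
            (h3 (le_trans (le_of_eq ?_) hLP))
          push_cast
          ring
        · have h3 := h2 i hie L hL
          rw [stp_not _ _ hN] at hLP h3 ⊢
          exact le_trans (pow_le_pow_of_le_one hδ0.le hδle1 (Nat.le_add_left C2 C1)) (h3 hLP)

end

end Pool.Agent.Helper67.NX2

end

section

set_option autoImplicit false

open Finset

open scoped BigOperators ComplexConjugate

namespace Pool.Agent.Helper57.NX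

noncomputable section

theorem form_replace (m : ℕ) (c : Fin m → ℝ) (hU : ∀ ε : ℝ, 0 < ε → UP m c ε) :
    ∀ ε : ℝ, 0 < ε → ∃ x0 : ℝ, 0 < x0 ∧ ∃ σ : ℝ, 0 < σ ∧ ∃ D0 : ℝ,
    ∀ (S : Sys m) (N : ℕ) [NeZero N], D0 ≤ S.D → Good S c N x0 →
    ∀ (f0 : ZMod N → ℂ) (f : Fin m → ZMod N → ℂ), Adm 8 S.Q f0 → (∀ i, Adm 8 S.Q (f i)) →
    ∀ L : Fin m → ℕ, (∀ i, 1 ≤ L i ∧ (L i : ℝ) ≤ S.P i * S.D ^ (-ε)) →
    ‖form S c 1 f0 f - form S c 1 f0 (fun i => A (L i) (f i))‖ ≤ S.D ^ (-σ) := by
  intro ε hε
  obtain ⟨x0, hx0, C, σ', hσ', D0, h⟩ := hU (ε / 2) (by (clear * - hε; linarith))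
  set σ1 : ℝ := min σ' (ε / (4 * (C + 1))) with hσ1
  have hC1 : (0 : ℝ) < 4 * (C + 1) := by positivity
  have hσ10 : 0 < σ1 := lt_min hσ' (by positivity)
  have hσ1C : σ1 * C ≤ ε / 4 := by
    have h1 : σ1 ≤ ε / (4 * (C + 1)) := min_le_right _ _
    have h2 : σ1 * (4 * (C + 1)) ≤ ε := by rwa [le_div_iff₀ hC1] at h1
    (clear * - hσ10 h2; nlinarith)
  have ht1 := (tendsto_rpow_atTop hσ10).eventually_ge_atTop 8
  have ht2 := (tendsto_rpow_atTop (show (0 : ℝ) < ε / 4 by (clear * - hε; linarith))).eventually_gt_atTop 2
  exact by
    have ht3 := (tendsto_rpow_atTop (show (0 : ℝ) < σ1 / 2 by (clear * - hσ10; linarith))).eventually_ge_atTop (2 * m)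
    obtain ⟨D1, hD1⟩ := Filter.eventually_atTop.mp ((ht1.and ht2).and ht3)
    refine ⟨x0, hx0, σ1 / 2, by (clear * - hσ10; linarith), max D0 (max D1 1), ?_⟩
    intro S N _ hD hG f0 f hf0 hf L hL
    have hDD0 : D0 ≤ S.D := (le_max_left _ _).trans hD
    have hDD1 : D1 ≤ S.D := ((le_max_left _ _).trans (le_max_right _ _)).trans hD
    have hDone : 1 ≤ S.D := ((le_max_right _ _).trans (le_max_right _ _)).trans hD
    have hDpos : 0 < S.D := by (clear * - hDone; linarith)
    obtain ⟨⟨hd1, hd2⟩, hd3⟩ := hD1 S.D hDD1
    have hQpos : (0 : ℝ) < S.Q := lt_of_lt_of_le (by positivity) hG.Q1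
    exact by
      set δ : ℝ := S.D ^ (-σ1) with hδ
      have hδ0 : 0 < δ := by positivity
      have hδinv : δ⁻¹ = S.D ^ σ1 := by rw [hδ, Real.rpow_neg hDpos.le, inv_inv]
      have hδ8 : 8 ≤ δ⁻¹ := by rw [hδinv]; exact hd1
      have hδle : δ ≤ 1 / 2 := by
        have h1 : δ * δ⁻¹ = 1 := mul_inv_cancel₀ hδ0.ne'
        (clear * - hδ0 h1 hd1 hδinv; nlinarith)
      have hδσ : S.D ^ (-σ') ≤ δ :=
        Real.rpow_le_rpow_of_exponent_le hDone (neg_le_neg (min_le_left _ _))
      exact by
        have hδC : S.D ^ (-(ε / 4)) ≤ δ ^ C := by
          rw [hδ, ← Real.rpow_natCast, ← Real.rpow_mul hDpos.le]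
          exact Real.rpow_le_rpow_of_exponent_le hDone (by (clear * - hσ1C; linarith))
        have hm0 : Adm δ⁻¹ S.Q f0 := hf0.mono hδ8 hQpos le_rfl
        have hadmA : ∀ i, Adm 8 S.Q (A (L i) (f i)) := fun i => ⟨norm_A_le (hf i).bdd _, (hf i).tv.avg _⟩
        have hhyb : ∀ t i, Adm 8 S.Q (hyb f L t i) := by
          intro t i
          unfold hyb
          split_ifs
          · exact hadmA i
          · exact hf i
        have key : ∀ i : Fin m, ‖form S c 1 f0 (hyb f L i) - form S c 1 f0 (hyb f L (i + 1))‖ ≤ 2 * δ := by
          intro i
          set w : ZMod N → ℂ := fun x => (1 / 2 : ℂ) * (f i x - A (L i) (f i) x) with hw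
          have hwadm : Adm 8 S.Q w := by
            refine ⟨fun x => ?_, ?_⟩
            · rw [hw]
              simp only [norm_mul]
              have h1 : ‖f i x - A (L i) (f i) x‖ ≤ 1 + 1 :=
                (norm_sub_le _ _).trans (add_le_add ((hf i).bdd x) ((hadmA i).bdd x))
              have h2 : ‖(1 / 2 : ℂ)‖ = 1 / 2 := by norm_num
              rw [h2]; (clear * - h1; linarith)
            · have h1 := ((hf i).tv.sub (hadmA i).tv).smul (1 / 2 : ℂ)
              have h2 : ‖(1 / 2 : ℂ)‖ * (8 + 8) = (8 : ℝ) := by norm_num
              rw [h2] at h1
              exact h1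
          have hdiff : form S c 1 f0 (hyb f L i) - form S c 1 f0 (hyb f L (i + 1)) =
              2 * form S c 1 f0 (Function.update (hyb f L i) i w) := by
            rw [hw, form_update_smul, form_update_sub, ← hyb_succ, ← hyb_self]
            ring
          rw [hdiff, norm_mul]
          have h2 : ‖(2 : ℂ)‖ = 2 := by norm_num
          rw [h2]
          refine mul_le_mul_of_nonneg_left ?_ (by norm_num)
          by_contra hcon
          push Not at hcon
          have hadm : ∀ j, Adm δ⁻¹ S.Q (Function.update (hyb f L i) i w j) := by
            intro j
            by_cases hj : j = i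
            · subst hj
              rw [Function.update_self]
              exact hwadm.mono hδ8 hQpos le_rfl
            · rw [Function.update_of_ne hj]
              exact (hhyb i j).mono hδ8 hQpos le_rfl
          obtain ⟨hLi1, hLi2⟩ := hL i
          have hLi1' : (1 : ℝ) ≤ L i := by exact_mod_cast hLi1
          have hPpos : 0 < S.P i := by
            have h3 : 0 < S.P i * S.D ^ (-ε) := by (clear * - hδ0 hδle hLi2 hLi1'; linarith)
            exact pos_of_mul_pos_left h3 (by (clear * - hDone; positivity))
          set y : ℝ := S.P i * S.D ^ (-(ε / 2)) with hy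
          have hyL : (L i : ℝ) * S.D ^ (ε / 2) ≤ y := by
            have h3 : S.D ^ (-(ε / 2)) = S.D ^ (-ε) * S.D ^ (ε / 2) := by
              rw [← Real.rpow_add hDpos]; congr 1; ring
            rw [hy, h3, ← mul_assoc]
            exact mul_le_mul_of_nonneg_right hLi2 (by positivity)
          have hDe : 1 ≤ S.D ^ (ε / 2) := Real.one_le_rpow hDone (by (clear * - hε; linarith))
          have hy1 : 1 ≤ y := by (clear * - hLi1' hyL hDe; nlinarith)
          have hfl1 : 1 ≤ ⌊y⌋₊ := Nat.one_le_floor_iff _ |>.mpr hy1
          have hfl2 : y / 2 ≤ (⌊y⌋₊ : ℝ) := by
            have h3 := Nat.lt_floor_add_one y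
            have h4 : (1 : ℝ) ≤ (⌊y⌋₊ : ℝ) := by exact_mod_cast hfl1
            (clear * - h3 h4; linarith)
          have h5 := h S N hDD0 hG δ hδσ hδle f0 (Function.update (hyb f L i) i w) hm0 hadm hcon.le i
            ⌊y⌋₊ hfl1 (Nat.floor_le (by (clear * - hδ0 hδle hy1; linarith)))
          rw [Function.update_self] at h5
          have h6 : nrm (A ⌊y⌋₊ w) ≤ (L i : ℝ) / ⌊y⌋₊ := by
            unfold nrm
            refine expect_le_of5 _ _ (by (clear * - hLi1 hfl1; positivity)) fun x _ => ?_
            have h7 : A ⌊y⌋₊ w x = (1 / 2 : ℂ) * A ⌊y⌋₊ (fun z => f i z - A (L i) (f i) z) x := by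
              rw [hw]
              unfold A
              rw [Finset.mul_expect]
            rw [h7, norm_mul]
            have h8 := A_small (hf i).bdd ⌊y⌋₊ (L i) hfl1 hLi1 x
            have h9 : ‖(1 / 2 : ℂ)‖ = 1 / 2 := by norm_num
            rw [h9]
            calc 1 / 2 * ‖A ⌊y⌋₊ (fun z => f i z - A (L i) (f i) z) x‖ ≤ 1 / 2 * (2 * L i / ⌊y⌋₊) :=
                  mul_le_mul_of_nonneg_left h8 (by norm_num)
              _ = (L i : ℝ) / ⌊y⌋₊ := by ring
          have hypos : 0 < y := by (clear * - hδ0 hδle hy1; linarith)
          have hflpos : (0 : ℝ) < ⌊y⌋₊ := by (clear * - hδ0 hδle hy1 hfl2; linarith)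
          have h10 : (L i : ℝ) / ⌊y⌋₊ ≤ 2 * S.D ^ (-(ε / 2)) := by
            rw [div_le_iff₀ hflpos]
            have h11 : S.D ^ (-(ε / 2)) * S.D ^ (ε / 2) = 1 := by
              rw [← Real.rpow_add hDpos, neg_add_cancel, Real.rpow_zero]
            have h12 : (0 : ℝ) < S.D ^ (-(ε / 2)) := by positivity
            calc (L i : ℝ) = (L i * S.D ^ (ε / 2)) * S.D ^ (-(ε / 2)) := by
                  rw [mul_assoc, mul_comm (S.D ^ (ε / 2)), h11, mul_one]
              _ ≤ y * S.D ^ (-(ε / 2)) := mul_le_mul_of_nonneg_right hyL h12.le
              _ ≤ (2 * ⌊y⌋₊) * S.D ^ (-(ε / 2)) :=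
                  mul_le_mul_of_nonneg_right (by (clear * - hfl2; linarith)) h12.le
              _ = 2 * S.D ^ (-(ε / 2)) * ⌊y⌋₊ := by ring
          have h13 : S.D ^ (-(ε / 4)) ≤ 2 * S.D ^ (-(ε / 2)) := hδC.trans (h5.trans (h6.trans h10))
          have h14 : S.D ^ (-(ε / 4)) * S.D ^ (ε / 2) = S.D ^ (ε / 4) := by
            rw [← Real.rpow_add hDpos]; congr 1; ring
          have h15 : S.D ^ (-(ε / 2)) * S.D ^ (ε / 2) = 1 := by
            rw [← Real.rpow_add hDpos, neg_add_cancel, Real.rpow_zero]
          have h16 : (0 : ℝ) < S.D ^ (ε / 2) := by positivity
          have h17 := mul_le_mul_of_nonneg_right h13 h16.le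
          rw [h14, mul_assoc, h15, mul_one] at h17
          (clear * - hd2 h17; linarith)
        have htel : ‖form S c 1 f0 (hyb f L 0) - form S c 1 f0 (hyb f L m)‖ ≤ m * (2 * δ) := by
          have h1 := dist_le_range_sum_dist (fun t => form S c 1 f0 (hyb f L t)) m
          rw [dist_eq_norm] at h1
          refine h1.trans ?_
          refine (sum_le_card_nsmul _ _ (2 * δ) fun t ht => ?_).trans (le_of_eq ?_)
          · rw [dist_eq_norm]
            exact key ⟨t, mem_range.mp ht⟩
          · rw [card_range, nsmul_eq_mul]
        rw [hyb_zero, hyb_last] at htel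
        refine htel.trans ?_
        have h18 : δ = S.D ^ (-(σ1 / 2)) * S.D ^ (-(σ1 / 2)) := by
          rw [hδ, ← Real.rpow_add hDpos]; congr 1; ring
        have h19 : S.D ^ (-(σ1 / 2)) * S.D ^ (σ1 / 2) = 1 := by
          rw [← Real.rpow_add hDpos, neg_add_cancel, Real.rpow_zero]
        have h20 : (0 : ℝ) < S.D ^ (-(σ1 / 2)) := by positivity
        exact by
          calc (m : ℝ) * (2 * δ) = (2 * m) * S.D ^ (-(σ1 / 2)) * S.D ^ (-(σ1 / 2)) := by rw [h18]; ring
            _ ≤ S.D ^ (σ1 / 2) * S.D ^ (-(σ1 / 2)) * S.D ^ (-(σ1 / 2)) := by gcongr
            _ = S.D ^ (-(σ1 / 2)) := by rw [mul_comm (S.D ^ (σ1 / 2)), h19, one_mul]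

end

end Pool.Agent.Helper57.NX

end

section

set_option autoImplicit false

open Finset

open scoped BigOperators ComplexConjugate

namespace Pool.Agent.Helper57.NX

noncomputable section

theorem nx_pattern (hES : ES0) (l : ℕ) (c : Fin l → ℝ) (hc : StrictMono c) (hc0 : ∀ i, 0 < c i)
    (hcn : ∀ i (n : ℕ), c i ≠ n) (hU : ∀ ε : ℝ, 0 < ε → UP l c ε) (δ : ℝ) (hδ : 0 < δ) (N0 : ℕ) :
    ∃ z0 : ℕ, ∀ z : ℕ, z0 ≤ z → ∀ A : Finset ℕ, (∀ p ∈ A, p.Prime ∧ p < 2 ^ z) →
    δ * ((2 : ℝ) ^ z / Real.log ((2 : ℝ) ^ z)) ≤ A.card →
    ∃ m ∈ A, ∃ n : ℕ, N0 ≤ n ∧ ∀ i, m + ⌊(n : ℝ) ^ c i⌋₊ ∈ A := by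
  -- bounds for the exponents
  obtain ⟨γ, hγ, hγ1, hγc⟩ := exists_pos_lb c hc0
  obtain ⟨g, hg, hgap⟩ := exists_gap c hc
  obtain ⟨Γ, hΓ0, hΓ⟩ : ∃ Γ : ℝ, 0 ≤ Γ ∧ ∀ i, c i ≤ Γ :=
    ⟨∑ i, c i, Finset.sum_nonneg fun i _ => (hc0 i).le,
      fun i => Finset.single_le_sum (f := c) (fun j _ => (hc0 j).le) (Finset.mem_univ i)⟩
  -- the analytic inputs
  obtain ⟨x0, hx0, σ1, hσ1, D1, H1⟩ := form_replace l c hU (γ / 4) (by (clear * - hγ; linarith))
  choose Ci hCi σi hσi Di H2 using fun i => frac_count hES (c i) (hc0 i) (hcn i)
  obtain ⟨σ2, hσ2, hσ2', hσ2i⟩ := exists_pos_lb σi hσi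
  obtain ⟨D2, hD2⟩ : ∃ D2 : ℝ, ∀ i, Di i ≤ D2 :=
    ⟨∑ i, |Di i|, fun i => (le_abs_self _).trans
      (Finset.single_le_sum (f := fun i => |Di i|) (fun j _ => abs_nonneg _) (Finset.mem_univ i))⟩
  set Cs := ∑ i, Ci i with hCs
  have hCs0 : 0 ≤ Cs := Finset.sum_nonneg fun i _ => (hCi i).le
  set σ := min σ1 σ2 with hσdef
  have hσ : 0 < σ := lt_min hσ1 hσ2
  have hσ1' : σ ≤ σ1 := min_le_left _ _
  have hσ2'' : σ ≤ σ2 := min_le_right _ _
  exact by
    have hσle : σ ≤ 1 := hσ2''.trans hσ2'
    -- the parameters
    set a := ⌈4 / γ⌉₊ + 1 with ha
    have haγ : 4 ≤ (a : ℝ) * γ := by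
      have h1 : 4 / γ ≤ ⌈4 / γ⌉₊ := Nat.le_ceil _
      have h2 : 4 / γ ≤ (a : ℝ) := by rw [ha]; push_cast; (clear * - h1; linarith)
      rwa [div_le_iff₀ hγ] at h2
    have ha1 : 1 ≤ a := by omega
    set cc := ⌈((a : ℝ) + 1) * Γ⌉₊ + 3 with hcc
    set M := ⌈(2 * l + 3 : ℝ) / σ⌉₊ + 1 with hM
    exact by
      have hMσ : (2 * l + 3 : ℝ) ≤ M * σ := by
        have h1 : (2 * l + 3 : ℝ) / σ ≤ ⌈(2 * l + 3 : ℝ) / σ⌉₊ := Nat.le_ceil _
        have h2 : (2 * l + 3 : ℝ) / σ ≤ (M : ℝ) := by rw [hM]; push_cast; (clear * - h1; linarith)
        rwa [div_le_iff₀ hσ] at h2
      have hM1 : 1 ≤ M := by omega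
      obtain ⟨τ, hτ, z1, H3⟩ := tree_fixed δ hδ l cc M (by omega)
      set τ' := τ / 2 ^ (l + 1) with hτ'
      have hτ'0 : 0 < τ' := by (clear * - hτ; positivity)
      set c1 := min 1 (τ' / (4 * Cs + 4)) with hc1
      have hc10 : 0 < c1 := lt_min one_pos (by (clear * - hτ hCs0; positivity))
      exact by
        have hc11 : c1 ≤ 1 := min_le_left _ _
        have hc1τ : 2 * Cs * c1 ≤ τ' / 2 := by
          have h1 : c1 ≤ τ' / (4 * Cs + 4) := min_le_right _ _
          rw [le_div_iff₀ (by (clear * - hCs0; positivity))] at h1
          (clear * - hc10 h1; nlinarith)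
        refine ⟨max z1 (max 2 (max N0 (max ⌈D1⌉₊ (max ⌈D2⌉₊ (max ⌈(2 : ℝ) ^ (1 / g)⌉₊
          (max ⌈1 / c1⌉₊ (⌈2 / (c1 * τ')⌉₊ + 1))))))), ?_⟩
        intro z hz A hA hcard
        simp only [max_le_iff] at hz
        obtain ⟨hz1, hz2, hzN, hzD1, hzD2, hzg, hzc, hzt⟩ := hz
        have hzr2 : (2 : ℝ) ≤ z := by exact_mod_cast hz2
        have hz0 : (0 : ℝ) < z := by (clear * - hzr2; linarith)
        by_contra hno
        push Not at hno
        obtain ⟨β, hβ1, hβ2, H4⟩ := H3 z hz1 A hA hcard
        -- sizes
        set B := 2 ^ β with hB
        set D := B ^ a with hD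
        exact by
          have hzM : z ≤ z ^ M := Nat.le_self_pow (by omega) z
          have hzB : z ≤ B := hzM.trans hβ1
          have hB2 : 2 ≤ B := hz2.trans hzB
          have hBD : B ≤ D := Nat.le_self_pow (by omega) B
          have hzD : z ≤ D := hzB.trans hBD
          have hD2' : 2 ≤ D := hB2.trans hBD
          exact by
            have hD1n : 1 ≤ D := by omega
            have hDr2 : (2 : ℝ) ≤ D := by exact_mod_cast hD2'
            have hDr1 : (1 : ℝ) ≤ D := by (clear * - hDr2; linarith)
            have hDr0 : (0 : ℝ) < D := by (clear * - hDr2; linarith)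
            have hBr2 : (2 : ℝ) ≤ B := by exact_mod_cast hB2
            have hBr1 : (1 : ℝ) ≤ B := by (clear * - hBr2; linarith)
            exact by
              have hBr0 : (0 : ℝ) < B := by (clear * - hBr2; linarith)
              have hDB : (D : ℝ) = (B : ℝ) ^ a := by rw [hD]; push_cast; rfl
              have hDrp : ∀ t : ℝ, (D : ℝ) ^ t = (B : ℝ) ^ (a * t) := by
                intro t
                rw [hDB, ← Real.rpow_natCast, ← Real.rpow_mul hBr0.le]
              -- `D^γ ≥ B^4`, `D^(γ - γ/4) ≥ B^3`
              have hDγ : ∀ i, (B : ℝ) ^ 3 ≤ (D : ℝ) ^ (c i - γ / 4) := by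
                intro i
                rw [hDrp, ← Real.rpow_natCast]
                refine Real.rpow_le_rpow_of_exponent_le hBr1 ?_
                have h1 : (a : ℝ) * (γ * (3 / 4)) ≤ a * (c i - γ / 4) :=
                  mul_le_mul_of_nonneg_left (by (clear * - hγc; linarith [hγc i])) (Nat.cast_nonneg _)
                push_cast
                (clear * - haγ h1; linarith)
              have hB3 : (B : ℝ) ^ 2 + 3 ≤ (B : ℝ) ^ 3 := by (clear * - hBr2; nlinarith [mul_self_nonneg ((B : ℝ) - 2)])
              have hkc : ∀ i, ∀ k : ℕ, D ≤ k → (B : ℝ) ^ 2 + 3 ≤ (k : ℝ) ^ (c i) := by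
                intro i k hk
                have hk' : (D : ℝ) ≤ k := by exact_mod_cast hk
                calc (B : ℝ) ^ 2 + 3 ≤ (B : ℝ) ^ 3 := hB3
                  _ ≤ (D : ℝ) ^ (c i - γ / 4) := hDγ i
                  _ ≤ (D : ℝ) ^ (c i) := Real.rpow_le_rpow_of_exponent_le hDr1 (by (clear * - hγ; linarith))
                  _ ≤ (k : ℝ) ^ (c i) := Real.rpow_le_rpow hDr0.le hk' (hc0 i).le
              -- upper bound
              exact by
                have hup : ∀ i, ∀ k : ℕ, D ≤ k → k < D + D →
                    (k : ℝ) ^ (c i) + (B : ℝ) ^ 2 + 3 ≤ ((2 ^ (cc * β) : ℕ) : ℝ) := by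
                  intro i k hk hk'
                  have h1 : (k : ℝ) ≤ 2 * D := by
                    have : (k : ℝ) < D + D := by exact_mod_cast hk'
                    (clear * - this; linarith)
                  have h2 : (2 : ℝ) * D ≤ (B : ℝ) ^ ((a : ℝ) + 1) := by
                    calc (2 : ℝ) * D ≤ B * (B : ℝ) ^ a := by rw [← hDB]; exact mul_le_mul_of_nonneg_right hBr2 hDr0.le
                      _ = (B : ℝ) ^ ((a : ℝ) + 1) := by
                        rw [Real.rpow_add hBr0, Real.rpow_natCast, Real.rpow_one]
                        ring
                  have h3 : (k : ℝ) ^ (c i) ≤ (B : ℝ) ^ ⌈((a : ℝ) + 1) * Γ⌉₊ := by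
                    calc (k : ℝ) ^ (c i) ≤ ((B : ℝ) ^ ((a : ℝ) + 1)) ^ (c i) :=
                          Real.rpow_le_rpow (Nat.cast_nonneg _) (h1.trans h2) (hc0 i).le
                      _ ≤ ((B : ℝ) ^ ((a : ℝ) + 1)) ^ Γ :=
                          Real.rpow_le_rpow_of_exponent_le (Real.one_le_rpow hBr1 (by (clear * - hγ; positivity))) (hΓ i)
                      _ = (B : ℝ) ^ (((a : ℝ) + 1) * Γ) := by rw [← Real.rpow_mul hBr0.le]
                      _ ≤ (B : ℝ) ^ ((⌈((a : ℝ) + 1) * Γ⌉₊ : ℕ) : ℝ) :=
                          Real.rpow_le_rpow_of_exponent_le hBr1 (Nat.le_ceil _)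
                      _ = _ := Real.rpow_natCast _ _
                  have h4 : (1 : ℝ) ≤ (B : ℝ) ^ ⌈((a : ℝ) + 1) * Γ⌉₊ := one_le_pow₀ hBr1
                  have h5 : ((2 ^ (cc * β) : ℕ) : ℝ) = (B : ℝ) ^ ⌈((a : ℝ) + 1) * Γ⌉₊ * (B : ℝ) ^ 3 := by
                    rw [← pow_add, ← hcc, hB]
                    push_cast
                    rw [← pow_mul, mul_comm β cc]
                  rw [h5]
                  have h6 : (B : ℝ) ^ 2 + 4 ≤ (B : ℝ) ^ 3 := by (clear * - hBr2; nlinarith [mul_self_nonneg ((B : ℝ) - 2)])
                  calc (k : ℝ) ^ (c i) + (B : ℝ) ^ 2 + 3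
                      ≤ (B : ℝ) ^ ⌈((a : ℝ) + 1) * Γ⌉₊ + (B : ℝ) ^ 2 + 3 := by (clear * - h3; linarith)
                    _ ≤ (B : ℝ) ^ ⌈((a : ℝ) + 1) * Γ⌉₊ * ((B : ℝ) ^ 2 + 4) := by (clear * - h4; nlinarith)
                    _ ≤ _ := mul_le_mul_of_nonneg_left h6 (by positivity)
                have hccz : 2 ^ (cc * β) ≤ 2 ^ z := by
                  refine Nat.pow_le_pow_right (by norm_num) (le_trans ?_ hβ2)
                  exact Nat.mul_le_mul_right β (Nat.le_succ cc)
                have hcczr : ((2 ^ (cc * β) : ℕ) : ℝ) ≤ ((2 ^ z : ℕ) : ℝ) := by exact_mod_cast hccz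
                set Z := 2 ^ z with hZ
                set Q := D ^ 2 with hQ
                have hQ0 : 0 < Q := by positivity
                have hQr0 : (0 : ℝ) < Q := by exact_mod_cast hQ0
                have hQr : (Q : ℝ) = (D : ℝ) ^ 2 := by rw [hQ]; push_cast; rfl
                exact by
                  have hZ0 : 0 < Z := by positivity
                  have hZr0 : (0 : ℝ) < Z := by exact_mod_cast hZ0
                  have : NeZero (Q * (2 * Z)) := ⟨by positivity⟩
                  set S := SS D c with hS
                  have hSI : S.I = Ico D (D + D) := rfl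
                  have hSD : S.D = (D : ℝ) := rfl
                  exact by
                    have hSQ : S.Q = Q := rfl
                    have hSP : ∀ i, S.P i = (D : ℝ) ^ (2 : ℝ) * (D : ℝ) ^ (c i) := fun i => rfl
                    have hQ2 : (D : ℝ) ^ (2 : ℝ) = Q := by rw [Real.rpow_two, hQr]
                    have hDc : ∀ i, (D : ℝ) ^ (c i) ≤ Z := by
                      intro i
                      have h1 := hup i D le_rfl (by omega)
                      have h2 : (0 : ℝ) ≤ (B : ℝ) ^ 2 := by positivity
                      (clear * - hcczr h1 h2; linarith)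
                    have hgood : Good S c (Q * (2 * Z)) x0 := by
                      have hDx : (1 : ℝ) ≤ (D : ℝ) ^ x0 := Real.one_le_rpow hDr1 hx0.le
                      refine ⟨le_rfl, zero_le_one, ?_, ?_, ?_, ?_, ?_, ?_, ?_, ?_, ?_⟩
                      · rw [hSD, hSQ, hQ2]
                      · rw [hSD, hSQ, ← hQ2]
                        exact Real.rpow_le_rpow_of_exponent_le hDr1 (by norm_num)
                      · intro i
                        rw [hSP, hSD, hSQ, hQ2]
                        exact mul_le_mul_of_nonneg_left
                          (Real.rpow_le_rpow_of_exponent_le hDr1 (by (clear * - hx0; linarith))) hQr0.le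
                      · intro i
                        rw [hSP, hSD, hSQ, hQ2]
                        exact mul_le_mul_of_nonneg_left
                          (Real.rpow_le_rpow_of_exponent_le hDr1 (by (clear * - hx0; linarith))) hQr0.le
                      · intro i
                        rw [hSP, hSD, hQ2]
                        push_cast
                        calc (Q : ℝ) * (D : ℝ) ^ (c i) ≤ Q * (2 * Z) :=
                              mul_le_mul_of_nonneg_left (by (clear * - hZr0 hDc; linarith [hDc i])) hQr0.le
                          _ = Q * (2 * Z) * 1 := (mul_one _).symm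
                          _ ≤ _ := mul_le_mul_of_nonneg_left hDx (by positivity)
                      · rw [hSQ]
                        have h1 : Q * 1 ≤ Q * (2 * Z) := Nat.mul_le_mul_left Q (by omega)
                        rw [mul_one] at h1
                        exact_mod_cast h1
                      · exact le_rfl
                      · change (D : ℝ) + D ≤ 2 * D
                        (clear * -; linarith)
                      · change (D : ℝ) ^ (1 - x0) ≤ D
                        calc (D : ℝ) ^ (1 - x0) ≤ (D : ℝ) ^ (1 : ℝ) :=
                              Real.rpow_le_rpow_of_exponent_le hDr1 (by (clear * - hx0; linarith))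
                          _ = D := Real.rpow_one _
                    -- smallness of `D^(-σ)`
                    have hDσ : ∀ σ', σ ≤ σ' → (D : ℝ) ^ (-σ') ≤ (z : ℝ)⁻¹ ^ (2 * l + 3) := by
                      intro σ' hσ'
                      have h1 : (z : ℝ) ^ (2 * l + 3 : ℕ) ≤ (D : ℝ) ^ σ := by
                        have h2 : (z : ℝ) ^ M ≤ D := by
                          have : z ^ M ≤ D := hβ1.trans hBD
                          exact_mod_cast this
                        calc (z : ℝ) ^ (2 * l + 3 : ℕ) = (z : ℝ) ^ ((2 * l + 3 : ℕ) : ℝ) := (Real.rpow_natCast _ _).symm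
                          _ ≤ (z : ℝ) ^ ((M : ℝ) * σ) := by
                              refine Real.rpow_le_rpow_of_exponent_le (by (clear * - hzr2; linarith)) ?_
                              push_cast
                              (clear * - hMσ; linarith)
                          _ = ((z : ℝ) ^ M) ^ σ := by rw [Real.rpow_mul hz0.le, Real.rpow_natCast]
                          _ ≤ (D : ℝ) ^ σ := Real.rpow_le_rpow (by (clear * - hz2; positivity)) h2 hσ.le
                      calc (D : ℝ) ^ (-σ') ≤ (D : ℝ) ^ (-σ) := Real.rpow_le_rpow_of_exponent_le hDr1 (by (clear * - hσ'; linarith))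
                        _ = ((D : ℝ) ^ σ)⁻¹ := Real.rpow_neg hDr0.le _
                        _ ≤ ((z : ℝ) ^ (2 * l + 3 : ℕ))⁻¹ := inv_anti₀ (by positivity) h1
                        _ = _ := (inv_pow _ _).symm
                    exact by
                      set ζ := (z : ℝ)⁻¹ with hζ
                      have hζ0 : 0 < ζ := by positivity
                      have hζ1 : ζ ≤ 1 := by
                        rw [hζ]
                        exact inv_le_one_of_one_le₀ (by (clear * - hzr2; linarith))
                      have hζc : ζ ≤ c1 := by
                        have h1 : 1 / c1 ≤ (z : ℝ) := (Nat.le_ceil _).trans (by exact_mod_cast hzc)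
                        rw [hζ, inv_le_comm₀ hz0 hc10, ← one_div]
                        exact h1
                      set η := c1 * ζ ^ (l + 1) with hη
                      have hη0 : 0 < η := by (clear * - hτ hCs0 hz2; positivity)
                      have hη1 : η ≤ 1 := by
                        have : ζ ^ (l + 1) ≤ 1 := pow_le_one₀ hζ0.le hζ1
                        calc η ≤ 1 * 1 := mul_le_mul hc11 this (by positivity) zero_le_one
                          _ = 1 := one_mul 1
                      exact by
                        have hζη : ζ ^ (2 * l + 3) ≤ η := by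
                          calc ζ ^ (2 * l + 3) ≤ ζ ^ (l + 2) := pow_le_pow_of_le_one hζ0.le hζ1 (by omega)
                            _ = ζ * ζ ^ (l + 1) := by ring
                            _ ≤ c1 * ζ ^ (l + 1) := mul_le_mul_of_nonneg_right hζc (by (clear * - hz2; positivity))
                        have hQη : 1 ≤ η * Q := by
                          have h1 : (D : ℝ) ^ (-σ) ≤ η := (hDσ σ le_rfl).trans hζη
                          have h2 : (1 : ℝ) ≤ (D : ℝ) ^ (-σ) * (D : ℝ) ^ (2 : ℝ) := by
                            rw [← Real.rpow_add hDr0]
                            exact Real.one_le_rpow hDr1 (by (clear * - hσ2' hσ2''; linarith))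
                          rw [hQ2] at h2
                          exact h2.trans (mul_le_mul_of_nonneg_right h1 hQr0.le)
                        -- the values of the sequences
                        have haS : ∀ i k, ((S.a c i k : ℤ) : ZMod (Q * (2 * Z))) = ((aN Q (c i) k : ℕ) : ZMod (Q * (2 * Z))) := by
                          intro i k
                          rw [hS, SS_a hD1n c i k]
                          push_cast
                          rfl
                        have haN : ∀ i, ∀ k ∈ S.I, aN Q (c i) k + Q * (B ^ 2 + 1) ≤ Q * Z := by
                          intro i k hk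
                          rw [hSI, Finset.mem_Ico] at hk
                          have h1 := (hup i k hk.1 hk.2).trans hcczr
                          have h2 : ((aN Q (c i) k : ℕ) : ℝ) ≤ Q * (k : ℝ) ^ (c i) := Nat.floor_le (by (clear * -; positivity))
                          have h3 : ((aN Q (c i) k + Q * (B ^ 2 + 1) : ℕ) : ℝ) ≤ ((Q * Z : ℕ) : ℝ) := by
                            push_cast
                            calc ((aN Q (c i) k : ℕ) : ℝ) + Q * ((B : ℝ) ^ 2 + 1)
                                ≤ Q * (k : ℝ) ^ (c i) + Q * ((B : ℝ) ^ 2 + 1) := by (clear * - h2; linarith)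
                              _ = Q * ((k : ℝ) ^ (c i) + (B : ℝ) ^ 2 + 1) := by ring
                              _ ≤ Q * Z := mul_le_mul_of_nonneg_left (by (clear * - h1; linarith)) hQr0.le
                          exact_mod_cast h3
                        have hAZ : ∀ p ∈ A, p < Z := fun p hp => (hA p hp).2
                        -- lower bound
                        set L : ℕ := Q * (B ^ 2 + 1) with hL
                        set T : ℝ := τ * ((2 : ℝ) ^ z / Real.log ((2 : ℝ) ^ z) ^ (l + 1)) * ((B : ℝ) ^ 2) ^ l with hT
                        exact by
                          have hlog : Real.log ((2 : ℝ) ^ z) = z * Real.log 2 := Real.log_pow _ _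
                          have hlog2 : 0 < Real.log 2 := Real.log_pos (by norm_num)
                          have hlogz : 0 < Real.log ((2 : ℝ) ^ z) := by rw [hlog]; positivity
                          have hlogle : Real.log ((2 : ℝ) ^ z) ≤ z := by
                            rw [hlog]
                            have : Real.log 2 ≤ 1 := by (clear * -; linarith [Real.log_two_lt_d9])
                            (clear * - this; nlinarith)
                          have hT0 : 0 ≤ T := by (clear * - hτ hlogz; positivity)
                          have hlow_k : ∀ k ∈ S.I, τ' * η * ζ ^ (l + 1) ≤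
                              𝔼 y : ZMod (Q * (2 * Z)), g0A A Q η y *
                                ∏ i, AR L (gA A Q) (y + (S.a c i k : ZMod (Q * (2 * Z)))) := by
                            intro k hk
                            have hk' := hk
                            rw [hSI, Finset.mem_Ico] at hk'
                            have h1 := lower_k A Q Z (B ^ 2) η hAZ hQ0 (fun i => aN Q (c i) k) (fun i => haN i k hk) T
                              hη0.le hη1 hT0 (by
                                intro e he _
                                have h2 : ∀ i, (k : ℝ) ^ (c i) ≤ (((e + aN Q (c i) k) / Q + 1 : ℕ) : ℝ) ∧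
                                    (((e + aN Q (c i) k) / Q + 1 : ℕ) : ℝ) ≤ (k : ℝ) ^ (c i) + 2 := by
                                  intro i
                                  have h3 := s_bounds hQ0 (x := (k : ℝ) ^ (c i)) (by (clear * -; positivity)) he
                                  have h4 : aN Q (c i) k = ⌊(Q : ℝ) * (k : ℝ) ^ (c i)⌋₊ := rfl
                                  rw [h4]
                                  push_cast
                                  push_cast at h3
                                  constructor <;> (clear * - h3; linarith [h3.1, h3.2])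
                                have h5 := H4 (fun i => (e + aN Q (c i) k) / Q + 1) (fun i => Nat.le_add_left 1 _) (by
                                  intro i j hij
                                  have h6 : (k : ℝ) ^ (c i) * 2 ≤ (k : ℝ) ^ (c j) := by
                                    have hkD : (D : ℝ) ≤ k := by exact_mod_cast hk'.1
                                    have hk0 : (0 : ℝ) < k := by (clear * - hDr2 hkD; linarith)
                                    have hk1 : (1 : ℝ) ≤ k := by (clear * - hDr2 hkD; linarith)
                                    have h7 : (2 : ℝ) ≤ (k : ℝ) ^ g := by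
                                      have h8 : (2 : ℝ) ^ (1 / g) ≤ k := by
                                        calc (2 : ℝ) ^ (1 / g) ≤ ⌈(2 : ℝ) ^ (1 / g)⌉₊ := Nat.le_ceil _
                                          _ ≤ (z : ℝ) := by exact_mod_cast hzg
                                          _ ≤ D := by exact_mod_cast hzD
                                          _ ≤ k := hkD
                                      calc (2 : ℝ) = ((2 : ℝ) ^ (1 / g)) ^ g := by
                                            rw [← Real.rpow_mul (by norm_num)]
                                            have : 1 / g * g = 1 := by field_simp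
                                            rw [this, Real.rpow_one]
                                        _ ≤ (k : ℝ) ^ g := Real.rpow_le_rpow (by positivity) h8 hg.le
                                    calc (k : ℝ) ^ (c i) * 2 ≤ (k : ℝ) ^ (c i) * (k : ℝ) ^ g :=
                                          mul_le_mul_of_nonneg_left h7 (by (clear * - hk0; positivity))
                                      _ = (k : ℝ) ^ (c i + g) := (Real.rpow_add hk0 _ _).symm
                                      _ ≤ (k : ℝ) ^ (c j) := Real.rpow_le_rpow_of_exponent_le hk1 (hgap i j hij)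
                                  have h9 := hkc i k hk'.1
                                  have h10 : ((((e + aN Q (c i) k) / Q + 1) + (2 ^ β) ^ 2 : ℕ) : ℝ) <
                                      (((e + aN Q (c j) k) / Q + 1 : ℕ) : ℝ) := by
                                    have h11 := (h2 i).2
                                    have h12 := (h2 j).1
                                    rw [Nat.cast_add, Nat.cast_pow]
                                    change _ + (B : ℝ) ^ 2 < _
                                    (clear * - h6 h9 h11 h12; linarith)
                                  exact_mod_cast h10) (by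
                                  intro i
                                  have h11 := (h2 i).2
                                  have h12 := hup i k hk'.1 hk'.2
                                  have h10 : ((((e + aN Q (c i) k) / Q + 1) + (2 ^ β) ^ 2 : ℕ) : ℝ) ≤
                                      ((2 ^ (cc * β) : ℕ) : ℝ) := by
                                    rw [Nat.cast_add, Nat.cast_pow]
                                    change _ + (B : ℝ) ^ 2 ≤ _
                                    (clear * - h11 h12; linarith)
                                  exact_mod_cast h10)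
                                have h13 : (((2 : ℝ) ^ β) ^ 2) ^ l = ((B : ℝ) ^ 2) ^ l := by
                                  rw [hB]
                                  push_cast
                                  rfl
                                rw [h13] at h5
                                exact h5)
                            have h2 : 𝔼 y : ZMod (Q * (2 * Z)), g0A A Q η y *
                                ∏ i, AR L (gA A Q) (y + (S.a c i k : ZMod (Q * (2 * Z)))) =
                                (∑ y : ZMod (Q * (2 * Z)), g0A A Q η y *
                                ∏ i, AR L (gA A Q) (y + (aN Q (c i) k : ZMod (Q * (2 * Z))))) / (Q * (2 * Z)) := by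
                              rw [expect_zmod_real]
                              push_cast
                              simp_rw [haS]
                            rw [h2, le_div_iff₀ (by positivity)]
                            refine le_trans ?_ h1
                            rw [le_div_iff₀ (by positivity)]
                            -- numerics
                            have h3 : ((B : ℝ) ^ 2 + 1) ^ l ≤ 2 ^ l * ((B : ℝ) ^ 2) ^ l := by
                              rw [← mul_pow]
                              refine pow_le_pow_left₀ (by positivity) ?_ l
                              (clear * - hBr2; nlinarith)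
                            have h4 : ζ ^ (l + 1) * Real.log ((2 : ℝ) ^ z) ^ (l + 1) ≤ 1 := by
                              rw [← mul_pow]
                              refine pow_le_one₀ (by (clear * - hz2 hlogz; positivity)) ?_
                              rw [hζ, inv_mul_le_iff₀ hz0, mul_one]
                              exact hlogle
                            have hZr : (Z : ℝ) = (2 : ℝ) ^ z := by rw [hZ]; push_cast; rfl
                            have h5 : (1 : ℝ) * ζ ^ (l + 1) ≤ 1 / Real.log ((2 : ℝ) ^ z) ^ (l + 1) := by
                              rw [one_mul, le_div_iff₀ (by (clear * - hlogz; positivity))]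
                              exact h4
                            have h6 : ((B ^ 2 : ℕ) : ℝ) = (B : ℝ) ^ 2 := by push_cast; rfl
                            rw [h6]
                            calc τ' * η * ζ ^ (l + 1) * (Q * (2 * Z)) * ((B : ℝ) ^ 2 + 1) ^ l
                                ≤ τ' * η * ζ ^ (l + 1) * (Q * (2 * Z)) * (2 ^ l * ((B : ℝ) ^ 2) ^ l) :=
                                  mul_le_mul_of_nonneg_left h3 (by (clear * - hτ hCs0 hz2; positivity))
                              _ = η * Q * (τ * ((2 : ℝ) ^ z * (1 * ζ ^ (l + 1))) * ((B : ℝ) ^ 2) ^ l) := by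
                                  rw [hτ', hZr]
                                  field_simp
                                  ring
                              _ ≤ η * Q * (τ * ((2 : ℝ) ^ z * (1 / Real.log ((2 : ℝ) ^ z) ^ (l + 1))) *
                                  ((B : ℝ) ^ 2) ^ l) := by
                                  (clear * - h5 hτ hCs0 hz2; gcongr)
                              _ = η * Q * T := by
                                  rw [hT]
                                  ring
                          exact by
                            have hIne : S.I.Nonempty := by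
                              rw [hSI, Finset.nonempty_Ico]
                              (clear * - c N0 g Γ σ1 D1 Ci σ2 D2 τ z1 z hD2'; omega)
                            have hlow : τ' * η * ζ ^ (l + 1) ≤ formR (N := Q * (2 * Z)) S c (g0A A Q η) (fun _ => AR L (gA A Q)) := by
                              rw [← Finset.expect_const hIne (τ' * η * ζ ^ (l + 1))]
                              exact Finset.expect_le_expect fun k hk => hlow_k k hk
                            -- upper bound
                            set bad : Finset ℕ := univ.biUnion fun i : Fin l =>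
                              (Ico D (D + D)).filter fun k : ℕ => 1 - η ≤ Int.fract ((k : ℝ) ^ (c i)) with hbad
                            have hbadcard : (bad.card : ℝ) ≤ 2 * Cs * η * D := by
                              have h1 : (bad.card : ℝ) ≤ ∑ i, (#((Ico D (D + D)).filter fun k : ℕ =>
                                  1 - η ≤ Int.fract ((k : ℝ) ^ (c i))) : ℝ) := by
                                exact_mod_cast Finset.card_biUnion_le
                              refine h1.trans ?_
                              have h2 : ∀ i, (#((Ico D (D + D)).filter fun k : ℕ =>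
                                  1 - η ≤ Int.fract ((k : ℝ) ^ (c i))) : ℝ) ≤ Ci i * (2 * η) * D := by
                                intro i
                                have h3 := H2 i D (by
                                  calc Di i ≤ D2 := hD2 i
                                    _ ≤ ⌈D2⌉₊ := Nat.le_ceil _
                                    _ ≤ (z : ℝ) := by exact_mod_cast hzD2
                                    _ ≤ D := by exact_mod_cast hzD) η hη0 hη1 D D le_rfl (by (clear * -; linarith)) (by (clear * - hDr2; linarith))
                                refine h3.trans ?_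
                                have h4 := (hDσ (σi i) (hσ2''.trans (hσ2i i))).trans hζη
                                have h5 := hCi i
                                gcongr
                                (clear * - h4; linarith)
                              calc ∑ i, (#((Ico D (D + D)).filter fun k : ℕ =>
                                  1 - η ≤ Int.fract ((k : ℝ) ^ (c i))) : ℝ) ≤ ∑ i, Ci i * (2 * η) * D :=
                                    Finset.sum_le_sum fun i _ => h2 i
                                _ = 2 * Cs * η * D := by
                                    rw [← Finset.sum_mul, ← Finset.sum_mul]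
                                    ring
                            have hup_k : ∀ k ∈ S.I, 𝔼 y : ZMod (Q * (2 * Z)), g0A A Q η y *
                                  ∏ i : Fin l, gA A Q (y + (S.a c i k : ZMod (Q * (2 * Z)))) ≤
                                  if k ∈ bad then η else 0 := by
                              intro k hk
                              rw [expect_zmod_real]
                              simp_rw [haS]
                              rw [div_le_iff₀ (by exact_mod_cast NeZero.pos (Q * (2 * Z)))]
                              split_ifs with hkb
                              · have h1 : ∑ y : ZMod (Q * (2 * Z)), g0A A Q η y *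
                                    ∏ i : Fin l, gA A Q (y + (aN Q (c i) k : ZMod (Q * (2 * Z)))) ≤
                                    ∑ y : ZMod (Q * (2 * Z)), g0A A Q η y := by
                                  refine Finset.sum_le_sum fun y _ => ?_
                                  refine mul_le_of_le_one_right (g0A_nonneg _ _ _ _) ?_
                                  exact Finset.prod_le_one (fun i _ => gA_nonneg _ _ _) fun i _ => gA_le_one _ _ _
                                exact by
                                  refine h1.trans ((g0_sum A Q Z η hAZ hQ0 hη0.le).trans ?_)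
                                  push_cast
                                  calc (Z : ℝ) * (η * Q + 1) ≤ Z * (η * Q + η * Q) :=
                                        mul_le_mul_of_nonneg_left (by (clear * - hQη; linarith)) hZr0.le
                                    _ = _ := by ring
                              · have h1 := upper_k A Q Z η hAZ hQ0 (fun i : Fin l => aN Q (c i) k)
                                  (fun i => le_trans (Nat.le_add_right _ _) (haN i k hk)) (by
                                    intro e _ he' p hp hall
                                    rw [hSI] at hk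
                                    have hk' := Finset.mem_Ico.mp hk
                                    obtain ⟨i, hi⟩ := hno p hp k (by (clear * - c g Γ σ1 D1 Ci σ2 D2 τ z1 hzN hzD e hk'; omega))
                                    apply hi
                                    have h2 : Int.fract ((k : ℝ) ^ (c i)) < 1 - η := by
                                      by_contra h3
                                      push Not at h3
                                      apply hkb
                                      rw [hbad, Finset.mem_biUnion]
                                      exact ⟨i, Finset.mem_univ i, Finset.mem_filter.mpr ⟨hk, h3⟩⟩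
                                    have h4 := frac_ok hQ0 (x := (k : ℝ) ^ (c i)) (by (clear * -; positivity)) h2 he'
                                    rw [← h4]
                                    exact hall i)
                                rw [h1, zero_mul]
                            exact by
                              have hupform : formR (N := Q * (2 * Z)) S c (g0A A Q η) (fun _ => gA A Q) ≤ 2 * Cs * η * η := by
                                have h1 : formR (N := Q * (2 * Z)) S c (g0A A Q η) (fun _ => gA A Q) ≤ 𝔼 k ∈ S.I, if k ∈ bad then η else 0 :=
                                  Finset.expect_le_expect fun k hk => hup_k k hk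
                                refine h1.trans ?_
                                rw [Finset.expect_eq_sum_div_card, hSI, Nat.card_Ico, Nat.add_sub_cancel,
                                  div_le_iff₀ hDr0, ← Finset.sum_filter, Finset.sum_const, nsmul_eq_mul]
                                have h2 : (((Ico D (D + D)).filter fun k => k ∈ bad).card : ℝ) ≤ bad.card := by
                                  have : (Ico D (D + D)).filter (fun k => k ∈ bad) ⊆ bad := fun k hk =>
                                    (Finset.mem_filter.mp hk).2
                                  exact_mod_cast Finset.card_le_card this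
                                calc (((Ico D (D + D)).filter fun k => k ∈ bad).card : ℝ) * η ≤ (2 * Cs * η * D) * η :=
                                      mul_le_mul_of_nonneg_right (h2.trans hbadcard) hη0.le
                                  _ = _ := by ring
                              -- comparison
                              have hrep := H1 S (Q * (2 * Z)) (by
                                  rw [hSD]
                                  calc D1 ≤ ⌈D1⌉₊ := Nat.le_ceil _
                                    _ ≤ (z : ℝ) := by exact_mod_cast hzD1
                                    _ ≤ D := by exact_mod_cast hzD) hgood (fun y : ZMod (Q * (2 * Z)) => (g0A A Q η y : ℂ))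
                                (fun (_ : Fin l) (y : ZMod (Q * (2 * Z))) => (gA A Q y : ℂ)) (g0A_adm A hQ0 (Dvd.intro _ rfl) η)
                                (fun _ => gA_adm A hQ0 (Dvd.intro _ rfl)) (fun _ => L) (by
                                  intro i
                                  refine ⟨Nat.mul_pos hQ0 (by positivity), ?_⟩
                                  rw [hSP, hSD, hQ2, hL, mul_assoc, ← Real.rpow_add hDr0]
                                  push_cast
                                  refine mul_le_mul_of_nonneg_left ?_ hQr0.le
                                  have h1 := hDγ i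
                                  rw [sub_eq_add_neg] at h1
                                  (clear * - hB3 h1; linarith))
                              have hAA : (fun (_ : Fin l) => NX.A L (fun y : ZMod (Q * (2 * Z)) => (gA A Q y : ℂ))) =
                                  fun (_ : Fin l) (x : ZMod (Q * (2 * Z))) => ((AR L (gA A Q) x : ℝ) : ℂ) := by
                                funext _ x
                                exact A_ofReal L (gA A Q) x
                              rw [hAA, form_ofReal, form_ofReal, ← Complex.ofReal_sub, Complex.norm_real, Real.norm_eq_abs]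
                                at hrep
                              have h1 := (abs_sub_le_iff.mp hrep).2
                              have h2 : τ' * η * ζ ^ (l + 1) ≤ 2 * Cs * η * η + ζ ^ (2 * l + 3) := by
                                have h3 := hDσ σ1 hσ1'
                                rw [hSD] at h1
                                (clear * - hlow hupform h1 h3; linarith)
                              have h3 : ζ ^ (2 * l + 3) < c1 * τ' / 2 * ζ ^ (2 * l + 2) := by
                                have h4 : ζ < c1 * τ' / 2 := by
                                  have h5 : 2 / (c1 * τ') < z := by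
                                    have h6 : 2 / (c1 * τ') ≤ ⌈2 / (c1 * τ')⌉₊ := Nat.le_ceil _
                                    have h7 : ((⌈2 / (c1 * τ')⌉₊ + 1 : ℕ) : ℝ) ≤ z := by exact_mod_cast hzt
                                    push_cast at h7
                                    (clear * - h6 h7; linarith)
                                  rw [div_lt_iff₀ (by (clear * - hτ hCs0; positivity))] at h5
                                  rw [hζ, inv_lt_iff_one_lt_mul₀ hz0]
                                  (clear * - h5; linarith)
                                calc ζ ^ (2 * l + 3) = ζ * ζ ^ (2 * l + 2) := by ring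
                                  _ < _ := mul_lt_mul_of_pos_right h4 (by (clear * - hz2; positivity))
                              have h4 : τ' * η * ζ ^ (l + 1) = c1 * τ' * ζ ^ (2 * l + 2) := by
                                rw [hη]; ring
                              exact by
                                have h5 : 2 * Cs * η * η = (2 * Cs * c1) * c1 * ζ ^ (2 * l + 2) := by
                                  rw [hη]; ring
                                have h6 : (2 * Cs * c1) * c1 * ζ ^ (2 * l + 2) ≤ (τ' / 2) * c1 * ζ ^ (2 * l + 2) := by
                                  (clear * - hc1τ hτ hCs0 hz2; gcongr)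
                                have h7 : (τ' / 2) * c1 * ζ ^ (2 * l + 2) + c1 * τ' / 2 * ζ ^ (2 * l + 2) =
                                    c1 * τ' * ζ ^ (2 * l + 2) := by ring
                                (clear * - h2 h3 h4 h5 h6; linarith)

end

end Pool.Agent.Helper57.NX

end
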