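import Pool.Agent.Helper23.MC.L02_a1
import Pool.Agent.Helper23.MC.L02_a13
import Pool.Agent.Helper23.MC.L02_a15
import Pool.Agent.Helper23.MC.L02_a2
import Pool.Agent.Helper23.MC.L02_a4
import Pool.Agent.Helper23.MC.L02_a5
import Pool.Agent.Helper23.MC.L02_a9

/-!
Parts of Helper59.NX2.BaseRatl, Helper8.NX2.BaseFin, Helper21.NX2.ZeroArithOf, Helper21.NX2.ZeroArith, Helper67.NX2.PartA
-/

attribute [local instance 5000]
  Pool.Agent.Helper23.MC.Inst.rCharZero Pool.Agent.Helper23.MC.Inst.rALM
  Pool.Agent.Helper23.MC.Inst.rARM Pool.Agent.Helper23.MC.Inst.rALSM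
  Pool.Agent.Helper23.MC.Inst.rARSM Pool.Agent.Helper23.MC.Inst.rARRLE
  Pool.Agent.Helper23.MC.Inst.rALRLE Pool.Agent.Helper23.MC.Inst.rARRLT
  Pool.Agent.Helper23.MC.Inst.rALRLT Pool.Agent.Helper23.MC.Inst.rPMRLT
  Pool.Agent.Helper23.MC.Inst.rMPRLT Pool.Agent.Helper23.MC.Inst.rPMM
  Pool.Agent.Helper23.MC.Inst.rMPM Pool.Agent.Helper23.MC.Inst.rPMSM
  Pool.Agent.Helper23.MC.Inst.rMPSM Pool.Agent.Helper23.MC.Inst.rEAOL
  Pool.Agent.Helper23.MC.Inst.rIOR Pool.Agent.Helper23.MC.Inst.rISOR
  Pool.Agent.Helper23.MC.Inst.rNZD Pool.Agent.Helper23.MC.Inst.rcCharZero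
  Pool.Agent.Helper23.MC.Inst.rcNZD Pool.Agent.Helper23.MC.Inst.zCharZero
  Pool.Agent.Helper23.MC.Inst.zALM Pool.Agent.Helper23.MC.Inst.zARM
  Pool.Agent.Helper23.MC.Inst.zALSM Pool.Agent.Helper23.MC.Inst.zARSM
  Pool.Agent.Helper23.MC.Inst.zIOR Pool.Agent.Helper23.MC.Inst.zISOR
  Pool.Agent.Helper23.MC.Inst.zNZD Pool.Agent.Helper23.MC.Inst.qCharZero
  Pool.Agent.Helper23.MC.Inst.mR Pool.Agent.Helper23.MC.Inst.mC Pool.Agent.Helper23.MC.Inst.mRC
  Pool.Agent.Helper23.MC.Inst.rPSM Pool.Agent.Helper23.MC.Inst.rCSM
  Pool.Agent.Helper23.MC.Inst.cAdd Pool.Agent.Helper23.MC.Inst.cAddM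
  Pool.Agent.Helper23.MC.Inst.cMul Pool.Agent.Helper23.MC.Inst.cMon

namespace Pool.Agent.Helper57.NX
end Pool.Agent.Helper57.NX
namespace Pool.Agent.Helper67.NX2
end Pool.Agent.Helper67.NX2

section

set_option autoImplicit false

open Finset

open scoped BigOperators ComplexConjugate

namespace Pool.Agent.Helper67.NX2

open Pool.Agent.Helper57.NX

theorem base_ratl (hES : ES0) (m : ℕ) (c : Fin (m + 1) → ℝ) (hc : Ex c) :
    ∃ eb : ℝ, 0 < eb ∧ ∀ (n : ℕ) (ε : ℝ), 0 < ε → ε ≤ eb →
    ∃ x0 : ℝ, 0 < x0 ∧ ∃ C : ℕ, ∃ σ : ℝ, 0 < σ ∧ ∃ D0 : ℝ,
    ∀ (S : Sys (m + 1)) (N : ℕ) [NeZero N] (lam : ℕ), D0 ≤ S.D → IG S c N x0 lam →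
    ∀ δ : ℝ, S.D ^ (-σ) ≤ δ → δ ≤ 1 / 2 → (lam : ℝ) ≤ δ⁻¹ →
    ∀ X : ℝ, S.Q * S.D ^ (c (Fin.last m) - 2 * eb) ≤ X →
    ∀ f : ZMod N → ℂ, Adm δ⁻¹ X f → ∀ q : ℕ, 1 ≤ q → (q : ℝ) ≤ δ⁻¹ ^ n →
    ∀ (θ : ZMod N → Fin m → ℝ) (E : Finset (ZMod N)), (∀ x i, |θ x i| ≤ δ⁻¹ ^ n / S.Q) →
    ∀ K : ℕ, S.D ^ (1 - ε) ≤ (K : ℝ) + 1 → (K : ℝ) ≤ S.D ^ (1 - ε) →
    δ ^ n ≤ 𝔼 x, (if x ∈ E then locCorrq S c q f θ K x else 0) →
    ∃ q2 : ℕ, 1 ≤ q2 ∧ (q2 : ℝ) ≤ δ⁻¹ ^ C ∧
    ∃ (θ2 : ZMod N → Fin m → ℝ) (E2 : Finset (ZMod N)),
      (∀ x ∈ E2, ∀ i, |θ2 x i * S.P i.castSucc| ≤ S.D ^ (1 / 4 : ℝ)) ∧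
      ∀ K2 : ℕ, 1 ≤ K2 → (K2 : ℝ) ≤ S.D ^ (1 - 2 * ε) →
        δ ^ C ≤ 𝔼 x, (if x ∈ E2 then locCorrq S c q2 f θ2 K2 x else 0) :=
  base_ratl_of (fun {_} c hc hc0 a ε hε => ratl hES c hc hc0 a ε hε) m c hc

end Pool.Agent.Helper67.NX2

end

section

set_option autoImplicit false

open Finset

open scoped BigOperators ComplexConjugate

namespace Pool.Agent.Helper67.NX2

open Pool.Agent.Helper57.NX

noncomputable section

theorem base_fin (hES : ES0) (m : ℕ) (c : Fin (m + 1) → ℝ) (hc : Ex c) (ε : ℝ) (hε : 0 < ε) :
    ∃ ε1 : ℝ, 0 < ε1 ∧ ∀ n : ℕ,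
    ∃ x0 : ℝ, 0 < x0 ∧ ∃ C : ℕ, ∃ σ : ℝ, 0 < σ ∧ ∃ D0 : ℝ,
    ∀ (S : Sys (m + 1)) (N : ℕ) [NeZero N] (lam : ℕ), D0 ≤ S.D → IG S c N x0 lam →
    ∀ δ : ℝ, S.D ^ (-σ) ≤ δ → δ ≤ 1 / 2 → (lam : ℝ) ≤ δ⁻¹ →
    ∀ X : ℝ, S.Q * S.D ^ (c (Fin.last m) - 1 / 8) ≤ X →
    ∀ f : ZMod N → ℂ, Adm δ⁻¹ X f → ∀ q : ℕ, 1 ≤ q → (q : ℝ) ≤ δ⁻¹ ^ n →
    ∀ (θ : ZMod N → Fin m → ℝ) (E : Finset (ZMod N)),
    (∀ x ∈ E, ∀ i, |θ x i * S.P i.castSucc| ≤ S.D ^ (1 / 4 : ℝ)) →
    (∀ K : ℕ, 1 ≤ K → (K : ℝ) ≤ S.D ^ (1 - ε1) →
      δ ^ n ≤ 𝔼 x, (if x ∈ E then locCorrq S c q f θ K x else 0)) →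
    ∀ L : ℕ, 1 ≤ L → (L : ℝ) ≤ S.P (Fin.last m) * S.D ^ (-ε) → δ ^ C ≤ nrm (A L f) := by
  classical
  have hcm : StrictMono c := fun i j h => by (clear * - hc h; linarith [hc.gap i j h])
  have hc0 : ∀ i, 0 < c i := fun i => by (clear * - hc; linarith [hc.two i])
  obtain ⟨ε2, hε2, hε2a, hε2b⟩ : ∃ ε2 : ℝ, 0 < ε2 ∧ ε2 ≤ ε / 8 ∧ ε2 ≤ 1 / 16 :=
    ⟨min (ε / 8) (1 / 16), by (clear * - hε; positivity), min_le_left _ _, min_le_right _ _⟩
  obtain ⟨ε1, hε1, hC⟩ := base_class hES m c hcm hc0 ε2 hε2
  obtain ⟨εK, hεK, hεK1, hεK2⟩ : ∃ εK : ℝ, 0 < εK ∧ εK ≤ ε1 ∧ εK ≤ ε2 :=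
    ⟨min ε1 ε2, by (clear * - hε1 hε2; positivity), min_le_left _ _, min_le_right _ _⟩
  refine ⟨εK, hεK, fun n => ?_⟩
  obtain ⟨xk, hxk, σk, hσk, Dk, hclass⟩ := hC εK hεK hεK1
  obtain ⟨xs, hxs, Cs, σs, hσs, Ds, hsmall⟩ :=
    base_small m c hcm hc0 (n + 2) ε2 hε2 hε2b εK hεK hεK2
  obtain ⟨J, hJ1, hJ2⟩ := exists_J28 hε2 hε2b
  obtain ⟨x', hx', hx'k, hx's, hx'1⟩ : ∃ x' : ℝ, 0 < x' ∧ x' ≤ xk ∧ x' ≤ xs ∧ x' ≤ 1 :=
    ⟨min xk (min xs 1), by positivity, min_le_left _ _, (min_le_right _ _).trans (min_le_left _ _),
      (min_le_right _ _).trans (min_le_right _ _)⟩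
  obtain ⟨xd, hxd, σd, hσd, Dd, hdil⟩ := IG.dil c hc0 x' hx'
  obtain ⟨x0, hx0, hx0d, hx0'⟩ : ∃ x0 : ℝ, 0 < x0 ∧ x0 ≤ xd ∧ x0 ≤ x' / 8 :=
    ⟨min xd (x' / 8), by positivity, min_le_left _ _, min_le_right _ _⟩
  obtain ⟨τ, hτ, hτ1, hτ2, hτ3, hτ4, hτ5⟩ : ∃ τ : ℝ, 0 < τ ∧ τ ≤ σd ∧ τ ≤ x' / 8 ∧ τ ≤ σk / 8 ∧
      τ ≤ σs / 8 ∧ τ ≤ 1 / 32 :=
    ⟨min (min σd (x' / 8)) (min (min (σk / 8) (σs / 8)) (1 / 32)), by (clear * - hσd hx' hσk hσs; positivity),
      (min_le_left _ _).trans (min_le_left _ _), (min_le_left _ _).trans (min_le_right _ _),
      (min_le_right _ _).trans ((min_le_left _ _).trans (min_le_left _ _)),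
      (min_le_right _ _).trans ((min_le_left _ _).trans (min_le_right _ _)),
      (min_le_right _ _).trans (min_le_right _ _)⟩
  obtain ⟨σ, hσ, hσn, hσn1, hσ1⟩ : ∃ σ : ℝ, 0 < σ ∧ σ * n ≤ τ ∧ σ * (n + 1) ≤ τ ∧ σ ≤ τ := by
    have hn : (0 : ℝ) < (n : ℝ) + 2 := by (clear * -; positivity)
    have hn0 : (0 : ℝ) ≤ (n : ℝ) := Nat.cast_nonneg n
    refine ⟨τ / (n + 2), by (clear * - hτ; positivity), ?_, ?_, ?_⟩
    · rw [div_mul_eq_mul_div, div_le_iff₀ hn]
      (clear * - hτ; nlinarith)
    · rw [div_mul_eq_mul_div, div_le_iff₀ hn]
      (clear * - hτ; nlinarith)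
    · rw [div_le_iff₀ hn]
      (clear * - hτ; nlinarith)
  obtain ⟨D1, hD1⟩ := large8 (1 / 32) 4 (by norm_num)
  obtain ⟨D2, hD2⟩ := large8 (x' / 4) 2 (by positivity)
  obtain ⟨D3, hD3⟩ := large8 (1 / 4) 6 (by norm_num)
  obtain ⟨D4, hD4⟩ := large8 (3 * σk / 8) (2 * ((J : ℝ) + 1)) (by positivity)
  obtain ⟨D5, hD5⟩ := large8 (ε / 2) (4 ^ c (Fin.last m)) (by positivity)
  obtain ⟨D6, hD6⟩ := large8 (1 / 2) (max Dk Ds) (by norm_num)
  refine ⟨x0, hx0, Cs, σ, hσ, max (max (max D1 D2) (max D3 D4)) (max (max D5 D6) (max Dd 1)), ?_⟩
  intro S N _ lam hSD hIG δ hδ hδ2 hlam X hX f hf q hq1 hq2 θ E hE hcorr L hL1 hL2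
  rw [max_le_iff, max_le_iff, max_le_iff, max_le_iff, max_le_iff, max_le_iff, max_le_iff] at hSD
  obtain ⟨⟨⟨hS1, hS2⟩, hS3, hS4⟩, ⟨hS5, hS6⟩, hSd, hSone⟩ := hSD
  have hG := hIG.good
  have hDone : 1 ≤ S.D := hSone
  have hDpos : 0 < S.D := by (clear * - hτ hτ5 hSone; linarith)
  exact by
    have hδpos : 0 < δ := lt_of_lt_of_le (Real.rpow_pos_of_pos hDpos _) hδ
    have hmono : ∀ a b : ℝ, a ≤ b → S.D ^ a ≤ S.D ^ b := fun a b h =>
      Real.rpow_le_rpow_of_exponent_le hDone h
    have hδinv : δ⁻¹ ≤ S.D ^ σ := by
      have h5 := inv_anti₀ (Real.rpow_pos_of_pos hDpos _) hδ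
      rwa [Real.rpow_neg hDpos.le, inv_inv] at h5
    have hδn : ∀ k : ℕ, S.D ^ (-(σ * k)) ≤ δ ^ k := by
      intro k
      calc S.D ^ (-(σ * k)) = (S.D ^ (-σ)) ^ k := by
            rw [← Real.rpow_natCast, ← Real.rpow_mul hDpos.le]
            congr 1
            ring
        _ ≤ δ ^ k := pow_le_pow_left₀ (by (clear * - hSone; positivity)) hδ _
    have hQpos : (0 : ℝ) < S.Q := lt_of_lt_of_le (Real.rpow_pos_of_pos hDpos _) hG.Q1
    have hqpos : (0 : ℝ) < q := by exact_mod_cast hq1
    exact by
      have hqone : (1 : ℝ) ≤ q := by exact_mod_cast hq1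
      have hqτ : (q : ℝ) ≤ S.D ^ τ := by
        calc (q : ℝ) ≤ δ⁻¹ ^ n := hq2
          _ ≤ (S.D ^ σ) ^ n := pow_le_pow_left₀ (by (clear * - hδpos; positivity)) hδinv _
          _ = S.D ^ (σ * n) := by rw [← Real.rpow_natCast, ← Real.rpow_mul hDpos.le]
          _ ≤ S.D ^ τ := hmono _ _ hσn
      have hX0 : 0 < X := lt_of_lt_of_le (by (clear * - hQpos hSone; positivity)) hX
      -- the interval of the dilated systems
      obtain ⟨u', hu'⟩ : ∃ u', u' = S.u / q + 1 := ⟨_, rfl⟩
      obtain ⟨T', hT'⟩ : ∃ T', T' = (S.u + S.T) / q - 1 - u' := ⟨_, rfl⟩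
      have ha1 := Nat.div_add_mod S.u q
      have ha2 := Nat.mod_lt S.u hq1
      have hb1 := Nat.div_add_mod (S.u + S.T) q
      exact by
        have hb2 := Nat.mod_lt (S.u + S.T) hq1
        have g1 : S.u ≤ q * u' := by
          rw [hu', Nat.mul_add, mul_one]
          omega
        have g3 : S.T ≤ q * T' + 3 * q := by
          have h5 : (S.u + S.T) / q ≤ T' + 2 + S.u / q := by omega
          have h6 := Nat.mul_le_mul_left q h5
          rw [Nat.mul_add, Nat.mul_add] at h6
          omega
        have g3r : (S.T : ℝ) ≤ q * T' + 3 * q := by exact_mod_cast g3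
        have hTbig : S.D ^ (1 - x' / 8) ≤ S.T := (hmono _ _ (by (clear * - hx0'; linarith))).trans hG.T1
        have gT : S.D ^ (1 - x' / 2) ≤ T' := by
          have h5 : S.D ^ (1 - x' / 4) * q ≤ S.T := by
            calc S.D ^ (1 - x' / 4) * q ≤ S.D ^ (1 - x' / 4) * S.D ^ (x' / 8) :=
                  mul_le_mul_of_nonneg_left (hqτ.trans (hmono _ _ hτ2)) (by (clear * - hSone; positivity))
              _ = S.D ^ (1 - x' / 8) := by
                  rw [← Real.rpow_add hDpos]
                  congr 1
                  ring
              _ ≤ S.T := hTbig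
          have h6 : S.D ^ (1 - x' / 4) ≤ T' + 3 := by
            have : S.D ^ (1 - x' / 4) * q ≤ (T' + 3) * q := by (clear * - g3r h5; linarith)
            exact le_of_mul_le_mul_right this hqpos
          have h7 : S.D ^ (1 - x' / 4) = S.D ^ (1 - x' / 2) * S.D ^ (x' / 4) := by
            rw [← Real.rpow_add hDpos]
            congr 1
            ring
          have h8 := hD2 S.D hS2
          have h9 : (3 : ℝ) ≤ S.D ^ (1 - x' / 2) := by
            have := hD3 S.D hS3
            have := hmono (1 / 4) (1 - x' / 2) (by (clear * - hx'1 hτ hτ5; linarith))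
            linarith
          have h10 := mul_le_mul_of_nonneg_left h8 (show 0 ≤ S.D ^ (1 - x' / 2) by (clear * - hSone; positivity))
          (clear * - h6 h7 h9 h10; linarith)
        exact by
          have hT'pos : 0 < T' := by
            have : (0 : ℝ) < T' := lt_of_lt_of_le (Real.rpow_pos_of_pos hDpos _) gT
            exact_mod_cast this
          have g2 : q * (u' + T') + q ≤ S.u + S.T := by
            have h5 : u' + T' + 1 = (S.u + S.T) / q := by omega
            calc q * (u' + T') + q = q * (u' + T' + 1) := by ring
              _ ≤ S.u + S.T := by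
                  rw [h5]
                  omega
          have g4 : T' ≤ u' := by
            have h5 : S.T ≤ S.u := by
              have : (S.T : ℝ) ≤ S.u := by (clear * - hG; linarith [hG.u1, hG.u2])
              exact_mod_cast this
            have h6 : (S.u + S.T) / q ≤ 2 * (S.u / q) + 1 := by
              have h7 : S.u + S.T < q * (2 * (S.u / q) + 2) := by
                have : q * (2 * (S.u / q) + 2) = 2 * (q * (S.u / q)) + 2 * q := by ring
                rw [this]
                omega
              have := Nat.div_lt_of_lt_mul h7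
              (clear * - L u' T' this; omega)
            omega
          have hu'pos : 1 ≤ u' := by omega
          have hTpos : 0 < S.T := by
            have : (0 : ℝ) < S.T := lt_of_lt_of_le (Real.rpow_pos_of_pos hDpos _) hG.T1
            exact_mod_cast this
          have hTrpos : (0 : ℝ) < S.T := by exact_mod_cast hTpos
          exact by
            have hdil' := fun r0 (hr0 : r0 < q) => hdil S N lam hSd (IG_mono8 hIG hx0d hDone) q r0 u' T' hq1
              (hqτ.trans (hmono _ _ hτ1)) hr0 (by omega) (by omega) g4 gT
            -- the new scale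
            obtain ⟨D', hD'⟩ : ∃ D' : ℝ, D' = ((u' : ℝ) + T') / 2 := ⟨_, rfl⟩
            have hdD : ∀ r0, (dil S c q r0 u' T').D = D' := fun r0 => hD'.symm
            have hD'le : D' ≤ S.D := by
              have h5 := (hdil' 0 (by omega)).2.2.1
              rw [hdD] at h5
              exact h5.trans (div_le_self hDpos.le hqone)
            have hD'ge : S.D ^ (15 / 16 : ℝ) ≤ D' := by
              have h5 := (hdil' 0 (by omega)).2.1
              rw [hdD] at h5
              refine le_trans ?_ h5
              rw [le_div_iff₀ (by (clear * - hq1; positivity))]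
              calc S.D ^ (15 / 16 : ℝ) * (4 * q) ≤ S.D ^ (15 / 16 : ℝ) * (S.D ^ (1 / 32 : ℝ) * S.D ^ τ) :=
                    mul_le_mul_of_nonneg_left (mul_le_mul (hD1 S.D hS1) hqτ hqpos.le (by (clear * - hSone; positivity)))
                      (by positivity)
                _ = S.D ^ (15 / 16 + (1 / 32 + τ)) := by
                    rw [← Real.rpow_add hDpos, ← Real.rpow_add hDpos]
                _ ≤ S.D ^ (1 : ℝ) := hmono _ _ (by (clear * - hτ5; linarith))
                _ = S.D := Real.rpow_one _
            have hD'half : S.D ^ (1 / 2 : ℝ) ≤ D' := (hmono _ _ (by norm_num)).trans hD'ge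
            have hD'one : 1 ≤ D' := (Real.one_le_rpow hDone (by norm_num)).trans hD'half
            exact by
              have hD'pos : 0 < D' := by (clear * - hτ hτ5 hD'one; linarith)
              have hmono' : ∀ a b : ℝ, a ≤ b → D' ^ a ≤ D' ^ b := fun a b h =>
                Real.rpow_le_rpow_of_exponent_le hD'one h
              have hpow' : ∀ a : ℝ, 0 ≤ a → S.D ^ (a / 2) ≤ D' ^ a := by
                intro a ha
                calc S.D ^ (a / 2) = (S.D ^ (1 / 2 : ℝ)) ^ a := by
                      rw [← Real.rpow_mul hDpos.le]
                      congr 1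
                      ring
                  _ ≤ D' ^ a := Real.rpow_le_rpow (by (clear * - hSone; positivity)) hD'half ha
              have hneg' : ∀ a : ℝ, 0 ≤ a → D' ^ (-a) ≤ S.D ^ (-(a / 2)) := by
                intro a ha
                rw [Real.rpow_neg hD'pos.le, Real.rpow_neg hDpos.le]
                exact inv_anti₀ (Real.rpow_pos_of_pos hDpos _) (hpow' a ha)
              -- the window length
              have hKr : (1 : ℝ) ≤ D' ^ (1 - εK) := Real.one_le_rpow hD'one (by (clear * - hε2b hεK2 hτ hτ5; linarith))
              have hKK : (1 : ℕ) ≤ ⌊D' ^ (1 - εK)⌋₊ := Nat.le_floor (by exact_mod_cast hKr)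
              exact by
                have hK1 : ((⌊D' ^ (1 - εK)⌋₊ : ℕ) : ℝ) ≤ D' ^ (1 - εK) := Nat.floor_le (by (clear * - hτ hτ5 hKr; linarith))
                have hK2 : D' ^ (1 - εK) ≤ ((⌊D' ^ (1 - εK)⌋₊ : ℕ) : ℝ) + 1 := (Nat.lt_floor_add_one _).le
                generalize ⌊D' ^ (1 - εK)⌋₊ = K at hKK hK1 hK2
                have hcorr' := hcorr K hKK (hK1.trans (Real.rpow_le_rpow hD'pos.le hD'le (by (clear * - hε2b hεK2 hτ hτ5; linarith))))
                -- passing to one residue class
                have hloc : ∀ x, (if x ∈ E then locCorrq S c q f θ K x else 0) ≤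
                    𝔼 r ∈ range q, (if x ∈ E then locCorr (dil S c q r u' T') c f θ K x else 0) +
                      3 * q / S.T := by
                  intro x
                  by_cases hx : x ∈ E
                  · simp only [if_pos hx]
                    exact by
                      have h5 := avg_split8 S.u S.T q u' T' hq1 hTpos hT'pos g1 (by omega) g3
                        (fun k => ‖𝔼 j ∈ range K, f (x + (S.a c (Fin.last m) (k + q * j) : ZMod N)) *
                          e (∑ i : Fin m, θ x i * S.P i.castSucc * (S.t (k + q * j)) ^ (c i.castSucc))‖)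
                        (fun k => norm_nonneg _) (fun k => ?_)
                      · unfold locCorrq Sys.I
                        exact by
                          refine h5.trans (le_of_eq ?_)
                          congr 1
                          refine expect_congr rfl fun r _ => ?_
                          rw [locCorr_dil8 S c f θ q r u' T' K x hq1 hu'pos hDpos hG.ρ0]
                      · refine norm_expect_le_of5 _ _ zero_le_one fun j _ => ?_
                        rw [norm_mul, norm_e, mul_one]
                        exact hf.bdd _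
                  · simp only [if_neg hx, expect_const_zero, zero_add]
                    (clear * - hq1 hTpos; positivity)
                have hsum : 𝔼 x, (if x ∈ E then locCorrq S c q f θ K x else 0) ≤
                    𝔼 r ∈ range q, 𝔼 x, (if x ∈ E then locCorr (dil S c q r u' T') c f θ K x else 0) +
                      3 * q / S.T := by
                  refine (expect_le_expect fun x _ => hloc x).trans (le_of_eq ?_)
                  rw [expect_add_distrib, expect_const univ_nonempty, expect_comm]
                have hsmallT : 3 * (q : ℝ) / S.T ≤ δ ^ n / 2 := by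
                  rw [div_le_iff₀ hTrpos]
                  have h5 : S.D ^ (-τ) ≤ δ ^ n := (hmono _ _ (by (clear * - hσ hσn1; linarith))).trans (hδn n)
                  have h6 : S.D ^ (7 / 8 : ℝ) ≤ S.T := (hmono _ _ (by (clear * - hx'1; linarith))).trans hTbig
                  have h7 := hD3 S.D hS3
                  calc 3 * (q : ℝ) = 6 * q / 2 := by ring
                    _ ≤ S.D ^ (1 / 4 : ℝ) * S.D ^ τ / 2 := by
                        have := mul_le_mul h7 hqτ hqpos.le (by (clear * - hSone; positivity))
                        (clear * - this; linarith)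
                    _ = S.D ^ (1 / 4 + τ) / 2 := by rw [← Real.rpow_add hDpos]
                    _ ≤ S.D ^ (-τ + 7 / 8) / 2 := by
                        have := hmono (1 / 4 + τ) (-τ + 7 / 8) (by (clear * - hτ hτ5; linarith))
                        (clear * - this; linarith)
                    _ = S.D ^ (-τ) / 2 * S.D ^ (7 / 8 : ℝ) := by
                        rw [Real.rpow_add hDpos]
                        ring
                    _ ≤ δ ^ n / 2 * S.T := mul_le_mul (by (clear * - h5; linarith)) h6 (by positivity) (by (clear * - hδpos; positivity))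
                obtain ⟨r, hr, hrE⟩ : ∃ r ∈ range q, δ ^ n / 2 ≤
                    𝔼 x, (if x ∈ E then locCorr (dil S c q r u' T') c f θ K x else 0) := by
                  have h5 : δ ^ n / 2 ≤ 𝔼 r ∈ range q,
                      𝔼 x, (if x ∈ E then locCorr (dil S c q r u' T') c f θ K x else 0) := by (clear * - hcorr' hsum hsmallT; linarith)
                  exact exists_le_of_le_expect (nonempty_range_iff.2 (by (clear * - S hq1 L u' T' K; omega))) h5
                rw [mem_range] at hr
                obtain ⟨hIG', -, -, hP'⟩ := hdil' r hr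
                have hdDr := hdD r
                obtain ⟨S', hS'⟩ : ∃ S' : Sys (m + 1), S' = dil S c q r u' T' := ⟨_, rfl⟩
                rw [← hS'] at hIG' hP' hrE hdDr
                have hQ' : S'.Q = S.Q := by rw [hS']; rfl
                have hG' := hIG'.good
                have hX' : (S'.Q : ℝ) * S'.D ^ (c (Fin.last m) - 1 / 4) ≤ X := by
                  rw [hQ', hdDr]
                  refine le_trans (mul_le_mul_of_nonneg_left ?_ hQpos.le) hX
                  have h5 := hc.two (Fin.last m)
                  exact (hmono' _ _ (by (clear * - hτ hτ5; linarith))).trans (Real.rpow_le_rpow hD'pos.le hD'le (by (clear * - hτ hτ5 h5; linarith)))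
                exact by
                  have hP0 : ∀ i, 0 ≤ S.P i := fun i => le_trans (by (clear * - hQpos hSone; positivity)) (hG.P1 i)
                  have hP0' : ∀ i, 0 ≤ S'.P i := fun i =>
                    le_trans (mul_nonneg (hP0 i) (by positivity)) (hP' i).1
                  have hv : ∀ x ∈ E, ∀ i : Fin m, |θ x i * S'.P i.castSucc| ≤ D' ^ (2 / 7 : ℝ) := by
                    intro x hx i
                    have h5 : |θ x i * S'.P i.castSucc| ≤ |θ x i * S.P i.castSucc| := by
                      rw [abs_mul, abs_mul, abs_of_nonneg (hP0' _), abs_of_nonneg (hP0 _)]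
                      exact mul_le_mul_of_nonneg_left (hP' _).2 (abs_nonneg _)
                    refine h5.trans ((hE x hx i).trans ?_)
                    calc S.D ^ (1 / 4 : ℝ) ≤ S.D ^ (15 / 16 * (2 / 7) : ℝ) := hmono _ _ (by norm_num)
                      _ = (S.D ^ (15 / 16 : ℝ)) ^ (2 / 7 : ℝ) := Real.rpow_mul hDpos.le _ _
                      _ ≤ D' ^ (2 / 7 : ℝ) := Real.rpow_le_rpow (by (clear * - hSone; positivity)) hD'ge (by norm_num)
                  -- the classes
                  set Es : Finset (ZMod N) := E.filter fun x => ∀ i, |θ x i * S'.P i.castSucc| ≤ D' ^ ε2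
                    with hEs
                  set Ek : ℕ → Finset (ZMod N) := fun j => E.filter fun x =>
                    (∀ i, |θ x i * S'.P i.castSucc| ≤ (D' ^ (ε2 * (7 / 6 : ℝ) ^ j)) ^ (7 / 6 : ℝ)) ∧
                      ∃ i, D' ^ (ε2 * (7 / 6 : ℝ) ^ j) ≤ |θ x i * S'.P i.castSucc| with hEk
                  exact by
                    have pk : ∀ j ∈ range (J + 1),
                        𝔼 x, (if x ∈ Ek j then locCorr S' c f θ K x else 0) ≤ D' ^ (-σk) := by
                      intro j hj
                      rw [Finset.mem_range] at hj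
                      rw [← hdDr]
                      refine hclass S' N ?_ (good_mono28 hG' hx'k (by rw [hdDr]; exact hD'one)) X hX' _
                        (hf.mono ?_ hX0 le_rfl) θ (D' ^ (ε2 * (7 / 6 : ℝ) ^ j))
                        ?_ ?_ (Ek j) (fun x hx => (Finset.mem_filter.1 hx).2) K (by rw [hdDr]; exact hK2)
                        (by rw [hdDr]; exact hK1)
                      · rw [hdDr]
                        exact (le_max_left _ _).trans ((hD6 S.D hS6).trans hD'half)
                      · rw [hdDr]
                        refine hδinv.trans (le_trans (hmono _ _ ?_) (hpow' σk hσk.le))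
                        (clear * - hτ hτ3 hσ1; linarith)
                      · rw [hdDr]
                        refine hmono' _ _ ?_
                        exact le_mul_of_one_le_right hε2.le (one_le_pow₀ (by norm_num))
                      · rw [hdDr, ← Real.rpow_mul hD'pos.le]
                        exact by
                          refine hmono' _ _ ?_
                          have := hJ2 j (by omega)
                          (clear * - this; linarith)
                    have hcover : ∀ x, (if x ∈ E then locCorr S' c f θ K x else 0) ≤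
                        ∑ j ∈ range (J + 1), (if x ∈ Ek j then locCorr S' c f θ K x else 0) +
                        (if x ∈ Es then locCorr S' c f θ K x else 0) := by
                      intro x
                      have hn := locCorr_nonneg28 S' c f θ K x
                      have n2 : ∀ j, 0 ≤ (if x ∈ Ek j then locCorr S' c f θ K x else 0) := fun j => by
                        split_ifs <;> [exact hn; exact le_rfl]
                      have n2' : 0 ≤ ∑ j ∈ range (J + 1), (if x ∈ Ek j then locCorr S' c f θ K x else 0) :=
                        Finset.sum_nonneg fun j _ => n2 j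
                      have n3 : 0 ≤ (if x ∈ Es then locCorr S' c f θ K x else 0) := by
                        split_ifs <;> [exact hn; exact le_rfl]
                      by_cases hxE : x ∈ E
                      · rw [if_pos hxE]
                        exact by
                          by_cases hxs' : x ∈ Es
                          · rw [if_pos hxs'] at n3 ⊢
                            (clear * - n2'; linarith)
                          rw [hEs, Finset.mem_filter] at hxs'
                          push Not at hxs'
                          obtain ⟨i0, hi0⟩ := hxs' hxE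
                          obtain ⟨i1, -, hi1⟩ := Finset.exists_max_image (univ : Finset (Fin m))
                            (fun i => |θ x i * S'.P i.castSucc|) ⟨i0, Finset.mem_univ _⟩
                          obtain ⟨j, hjJ, hj1, hj2⟩ := cover8 hD'one hJ1
                            (le_trans hi0.le (hi1 i0 (Finset.mem_univ _))) (hv x hxE i1)
                          have hxj : x ∈ Ek j := by
                            rw [hEk, Finset.mem_filter]
                            exact ⟨hxE, fun i => (hi1 i (Finset.mem_univ _)).trans hj2, i1, hj1⟩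
                          have h5 := Finset.single_le_sum (f := fun j => if x ∈ Ek j then
                            locCorr S' c f θ K x else 0) (fun j _ => n2 j)
                            (Finset.mem_range.2 (show j < J + 1 by omega))
                          simp only [if_pos hxj] at h5
                          (clear * - n3 h5; linarith)
                      · rw [if_neg hxE]
                        (clear * - n2' n3; linarith)
                    have hsum2 : 𝔼 x, (if x ∈ E then locCorr S' c f θ K x else 0) ≤
                        ∑ j ∈ range (J + 1), 𝔼 x, (if x ∈ Ek j then locCorr S' c f θ K x else 0) +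
                        𝔼 x, (if x ∈ Es then locCorr S' c f θ K x else 0) := by
                      refine le_trans (Finset.expect_le_expect fun x _ => hcover x) ?_
                      rw [Finset.expect_add_distrib, Finset.expect_sum_comm]
                    have hk' : ∑ j ∈ range (J + 1), 𝔼 x, (if x ∈ Ek j then locCorr S' c f θ K x
                        else 0) ≤ ((J : ℝ) + 1) * D' ^ (-σk) := by
                      refine le_trans (Finset.sum_le_sum pk) ?_
                      rw [Finset.sum_const, Finset.card_range, nsmul_eq_mul]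
                      push_cast
                      exact le_rfl
                    have hhalf : ((J : ℝ) + 1) * D' ^ (-σk) ≤ δ ^ (n + 1) / 2 := by
                      have h5 : S.D ^ (-(σk / 8)) ≤ δ ^ (n + 1) := by
                        refine (hmono _ _ ?_).trans (hδn (n + 1))
                        push_cast
                        (clear * - hτ3 hσn1; linarith)
                      have h6 := hneg' σk hσk.le
                      have h7 : S.D ^ (-(σk / 8)) = S.D ^ (-(σk / 2)) * S.D ^ (3 * σk / 8) := by
                        rw [← Real.rpow_add hDpos]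
                        congr 1
                        ring
                      have h8 := hD4 S.D hS4
                      have h9 : 0 < S.D ^ (-(σk / 2)) := Real.rpow_pos_of_pos hDpos _
                      have h10 : ((J : ℝ) + 1) * D' ^ (-σk) ≤ ((J : ℝ) + 1) * S.D ^ (-(σk / 2)) :=
                        mul_le_mul_of_nonneg_left h6 (by (clear * -; positivity))
                      have h11 := mul_le_mul_of_nonneg_left h8 h9.le
                      (clear * - h5 h7 h10 h11; linarith)
                    have hsmallpart : δ ^ (n + 2) ≤ 𝔼 x, (if x ∈ Es then locCorr S' c f θ K x else 0) := by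
                      have h5 : δ ^ (n + 1) ≤ δ ^ n / 2 := by
                        rw [pow_succ]
                        have := mul_le_mul_of_nonneg_left hδ2 (show 0 ≤ δ ^ n by positivity)
                        (clear * - this; linarith)
                      have h6 : δ ^ (n + 2) ≤ δ ^ (n + 1) / 2 := by
                        rw [pow_succ δ (n + 1)]
                        have := mul_le_mul_of_nonneg_left hδ2 (show 0 ≤ δ ^ (n + 1) by (clear * - hδpos; positivity))
                        (clear * - this; linarith)
                      (clear * - hrE hsum2 hk' hhalf h5 h6; linarith)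
                    exact by
                      refine hsmall S' N ?_ (good_mono28 hG' hx's (by rw [hdDr]; exact hD'one)) δ ?_ hδ2
                        X hX' _ hf θ Es (fun x hx => by rw [hdDr]; exact (Finset.mem_filter.1 hx).2) K
                        (by rw [hdDr]; exact hK2) (by rw [hdDr]; exact hK1) hsmallpart L hL1 (hL2.trans ?_)
                      · rw [hdDr]
                        exact (le_max_right _ _).trans ((hD6 S.D hS6).trans hD'half)
                      · rw [hdDr]
                        refine (hneg' σs hσs.le).trans ((hmono _ _ ?_).trans hδ)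
                        (clear * - hτ hτ4 hσ1; linarith)
                      · rw [hdDr]
                        exact by
                          have h5 := (hP' (Fin.last m)).1
                          have h6 := hD5 S.D hS5
                          have h7 : (4 : ℝ) ^ (-c (Fin.last m)) * 4 ^ c (Fin.last m) = 1 := by
                            rw [← Real.rpow_add (by norm_num), neg_add_cancel, Real.rpow_zero]
                          have h8 : (0 : ℝ) < 4 ^ (-c (Fin.last m)) := by positivity
                          have h9 : S.D ^ (-(4 * ε2)) ≤ D' ^ (-(4 * ε2)) :=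
                            Real.rpow_le_rpow_of_nonpos hD'pos hD'le (by (clear * - hε2; linarith))
                          have h10 : S.D ^ (-ε) ≤ 4 ^ (-c (Fin.last m)) * S.D ^ (-(4 * ε2)) := by
                            calc S.D ^ (-ε) ≤ S.D ^ (-(ε / 2)) * S.D ^ (-(4 * ε2)) := by
                                  rw [← Real.rpow_add hDpos]
                                  exact hmono _ _ (by (clear * - hε2a; linarith))
                              _ ≤ 4 ^ (-c (Fin.last m)) * S.D ^ (-(4 * ε2)) := by
                                  refine mul_le_mul_of_nonneg_right ?_ (by (clear * - hSone; positivity))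
                                  rw [Real.rpow_neg hDpos.le, inv_le_comm₀ (by positivity) h8,
                                    Real.rpow_neg (by norm_num), inv_inv]
                                  exact h6
                          exact by
                            calc S.P (Fin.last m) * S.D ^ (-ε) ≤
                                  S.P (Fin.last m) * (4 ^ (-c (Fin.last m)) * S.D ^ (-(4 * ε2))) :=
                                  mul_le_mul_of_nonneg_left h10 (hP0 _)
                              _ = (S.P (Fin.last m) * 4 ^ (-c (Fin.last m))) * S.D ^ (-(4 * ε2)) := by ring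
                              _ ≤ S'.P (Fin.last m) * D' ^ (-(4 * ε2)) := mul_le_mul h5 h9 (by (clear * - hSone; positivity)) (hP0' _)

end

end Pool.Agent.Helper67.NX2

end

section

set_option autoImplicit false

open Finset

open scoped BigOperators ComplexConjugate

namespace Pool.Agent.Helper67.NX2

open Pool.Agent.Helper57.NX

noncomputable section

theorem zero_arith_of21 (m : ℕ) (c : Fin (m + 1) → ℝ) (hR : RatlSt21 c) (hc : Ex c)
    (hcN : ∀ i, IsN (c i)) (hU : ∀ ε : ℝ, 0 < ε → UsJ m c 0 ε univ) : ∀ ε : ℝ, 0 < ε →
    ∃ x0 : ℝ, 0 < x0 ∧ ∃ C : ℕ, ∃ σ : ℝ, 0 < σ ∧ ∃ D0 : ℝ,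
    ∀ (S : Sys (m + 1)) (N : ℕ) [NeZero N] (lam : ℕ), D0 ≤ S.D → IG S c N x0 lam →
    ∀ δ : ℝ, S.D ^ (-σ) ≤ δ → δ ≤ 1 / 2 → (lam : ℝ) ≤ δ⁻¹ →
    ∀ (f0 : ZMod N → ℂ) (f : Fin (m + 1) → ZMod N → ℂ),
    Adm δ⁻¹ S.Q f0 → (∀ i, Adm δ⁻¹ S.Q (f i)) → δ ≤ ‖form S c 1 f0 f‖ →
    ∃ q : ℕ, 1 ≤ q ∧ (q : ℝ) ≤ δ⁻¹ ^ C ∧ ∀ L : ℕ, 1 ≤ L →
      (L : ℝ) * (S.Q * q) ≤ S.P 0 * S.D ^ (-ε) → δ ^ C ≤ nrm (Aq (S.Q * q) L f0) := by
  intro ε hε
  choose d hd using hcN
  have hd2 : ∀ i, 2 ≤ d i := fun i => by
    have h := hc.two i
    rw [hd i] at h
    exact_mod_cast h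
  have hmono : StrictMono c := fun i j hij => by (clear * - hc hij; linarith [hc.gap i j hij])
  have hmono' : Monotone c := hmono.monotone
  obtain ⟨x2, hx2, C2, σ2, hσ2, D2, H2⟩ := hR (c (Fin.last m) + 1) (ε / 2)
    (by positivity)
  set ε1 := min (ε / 4) (min (x2 / 4) (1 / 4)) with hε1def
  have hε1 : 0 < ε1 := lt_min (by positivity) (lt_min (by positivity) (by norm_num))
  have hε1a : ε1 ≤ ε / 4 := min_le_left _ _
  exact by
    have hε1b : ε1 ≤ x2 / 4 := (min_le_right _ _).trans (min_le_left _ _)
    have hε1c : ε1 ≤ 1 / 4 := (min_le_right _ _).trans (min_le_right _ _)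
    obtain ⟨x1, hx1, C1, σ1, hσ1, D1, H1⟩ := char_rep m c hc 0 le_rfl
      (by (clear * - hε1 hε1c hc; linarith [hc.two (Fin.last m)])) univ hU ε1 hε1
    set A0 : ℝ := ∑ i, (d i : ℝ) * 4 ^ d i with hA0
    have hA0' : 0 ≤ A0 := Finset.sum_nonneg fun i _ => by (clear * -; positivity)
    set M : ℕ := C1 + d 0 + 2 with hM
    have hM0 : (0 : ℝ) < M := by rw [hM]; (clear * -; positivity)
    exact by
      set B : ℝ := 8 * (2 + A0) + 32 * (m + 1) with hB
      have hB1 : 1 ≤ B := by
        have : (0 : ℝ) ≤ m := Nat.cast_nonneg _
        linarith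
      refine ⟨min x1 (ε1 / 4), lt_min hx1 (by positivity), C1 + (C1 + 1) * C2 + 2,
        min σ1 (min (σ2 / M) (ε1 / (8 * M))), lt_min hσ1 (lt_min (by (clear * - hσ2; positivity)) (by (clear * - hε hx2; positivity))),
        max D1 (max D2 (max 4 (max (2 ^ (2 / x2)) (B ^ (4 / ε1))))), ?_⟩
      intro S N _ lam hD hG δ hδσ hδ hlamδ f0 f hf0 hf hform
      have hDa : D1 ≤ S.D := (le_max_left _ _).trans hD
      have hDr1 := (le_max_right _ _).trans hD
      have hDb : D2 ≤ S.D := (le_max_left _ _).trans hDr1
      have hDr2 := (le_max_right _ _).trans hDr1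
      exact by
        have hD4 : 4 ≤ S.D := (le_max_left _ _).trans hDr2
        have hDr3 := (le_max_right _ _).trans hDr2
        have hDc : (2 : ℝ) ^ (2 / x2) ≤ S.D := (le_max_left _ _).trans hDr3
        have hDd : B ^ (4 / ε1) ≤ S.D := (le_max_right _ _).trans hDr3
        have hD1 : 1 ≤ S.D := by (clear * - hε1 hε1c hD4; linarith)
        have hD0 : 0 < S.D := by (clear * - hε1 hε1c hD4; linarith)
        exact by
          have hδ0 : 0 < δ := (Real.rpow_pos_of_pos hD0 _).trans_le hδσ
          have hinv2 : 2 ≤ δ⁻¹ := by
            rw [le_inv_comm₀ (by norm_num) hδ0]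
            (clear * - hδ; linarith)
          -- exponents
          set σ := min σ1 (min (σ2 / M) (ε1 / (8 * M))) with hσdef
          have hσa : σ ≤ σ1 := min_le_left _ _
          have hσb : σ ≤ σ2 / M := (min_le_right _ _).trans (min_le_left _ _)
          have hσc : σ ≤ ε1 / (8 * M) := (min_le_right _ _).trans (min_le_right _ _)
          exact by
            have hσ0 : 0 < σ := lt_min hσ1 (lt_min (by (clear * - hσ2; positivity)) (by (clear * - hε hx2; positivity)))
            have hσM2 : σ * M ≤ σ2 := by
              rwa [le_div_iff₀ hM0] at hσb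
            have hσM1 : σ * M ≤ ε1 / 8 := by
              rw [le_div_iff₀ (by (clear * -; positivity))] at hσc
              (clear * - hσc; linarith)
            have hσn : ∀ n : ℕ, n ≤ M → σ * n ≤ ε1 / 8 := fun n hn => by
              have h1 : (n : ℝ) ≤ M := by exact_mod_cast hn
              exact (mul_le_mul_of_nonneg_left h1 hσ0.le).trans hσM1
            have hrp : ∀ {a b : ℝ}, a ≤ b → S.D ^ a ≤ S.D ^ b := fun h =>
              Real.rpow_le_rpow_of_exponent_le hD1 h
            have hBD : B ≤ S.D ^ (ε1 / 4) := by
              have h1 : (B ^ (4 / ε1)) ^ (ε1 / 4) ≤ S.D ^ (ε1 / 4) :=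
                Real.rpow_le_rpow (by (clear * -; positivity)) hDd (by positivity)
              rwa [← Real.rpow_mul (by linarith), show 4 / ε1 * (ε1 / 4) = 1 by field_simp,
                Real.rpow_one] at h1
            exact by
              have h2D : 2 ≤ S.D ^ (x2 / 2) := by
                have h1 : ((2 : ℝ) ^ (2 / x2)) ^ (x2 / 2) ≤ S.D ^ (x2 / 2) :=
                  Real.rpow_le_rpow (by positivity) hDc (by positivity)
                rwa [← Real.rpow_mul (by norm_num), show 2 / x2 * (x2 / 2) = 1 by (clear * - hx2; field_simp),
                  Real.rpow_one] at h1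
              -- sizes
              have hG1 : IG S c N x1 lam := hG.mono (min_le_left _ _) hD1
              have hGx : IG S c N (ε1 / 4) lam := hG.mono (min_le_right _ _) hD1
              have hQ0 : (0 : ℝ) < S.Q := (Real.rpow_pos_of_pos hD0 _).trans_le hG.good.Q1
              have hlam : (1 : ℝ) ≤ lam := by exact_mod_cast hG.lam1
              have hPi : ∀ i, S.P i = S.Q * (lam * S.D) ^ d i := fun i => hG.Pint i (d i) (hd i)
              exact by
                have hP0 : ∀ i, 0 < S.P i := fun i => by rw [hPi]; (clear * - hQ0 hlam hD4; positivity)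
                have hd0 : ∀ i, d 0 ≤ d i := fun i => by
                  have h := hmono' (Fin.zero_le i)
                  rw [hd, hd] at h
                  exact_mod_cast h
                have hP0i : ∀ i, S.P 0 ≤ S.P i := fun i => by
                  rw [hPi, hPi]
                  have h1 : (1 : ℝ) ≤ lam * S.D := by (clear * - hε1 hε1c hlam hD4; nlinarith)
                  exact mul_le_mul_of_nonneg_left (pow_le_pow_right₀ h1 (hd0 i)) hQ0.le
                -- the character representation
                obtain ⟨q1, hq1, hq1', b, cc, hbc, hform1⟩ := H1 S N lam hDa hG1 δ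
                  ((hrp (by (clear * - hσa; linarith))).trans hδσ) hδ hlamδ S.Q le_rfl
                  (by
                    refine mul_le_of_le_one_right hQ0.le ?_
                    exact Real.rpow_le_one_of_one_le_of_nonpos hD1 (by (clear * - hσ1; linarith)))
                  (by rw [Real.rpow_zero, mul_one]) 1 f0 f (fun k => by simp) hf0 hf (hf _) hform
                have hstp : ∀ i, stp S.Q q1 (c i) = S.Q * q1 := fun i => stp_nat _ _ ⟨d i, hd i⟩
                have hform2 : δ ^ C1 ≤ ‖form S c 1 f0 (fun i x => e ((b i : ℝ) / N * x.val) * cc i x)‖ := by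
                  simpa using hform1
                have hq1D : (q1 : ℝ) ≤ S.D ^ (ε1 / 8) := hq1'.trans (inv_pow_le21 hD1 hδσ (hσn C1 (by (clear * - q1; omega))))
                exact by
                  have hq1r : (1 : ℝ) ≤ q1 := by exact_mod_cast hq1
                  -- the window length
                  set K : ℕ := ⌊S.D ^ (1 - 2 * ε1)⌋₊ with hK
                  have hKle : (K : ℝ) ≤ S.D ^ (1 - 2 * ε1) := Nat.floor_le (by (clear * - hD4; positivity))
                  have hK2 : 2 ≤ S.D ^ (1 - 2 * ε1) := by
                    calc (2 : ℝ) = 4 ^ (1 / 2 : ℝ) := by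
                          rw [show (4 : ℝ) = 2 ^ (2 : ℝ) by norm_num, ← Real.rpow_mul (by norm_num)]
                          norm_num
                      _ ≤ S.D ^ (1 / 2 : ℝ) := Real.rpow_le_rpow (by norm_num) hD4 (by norm_num)
                      _ ≤ _ := hrp (by (clear * - hε1c; linarith))
                  have hKge : S.D ^ (1 - 2 * ε1) / 2 ≤ K := by
                    have h1 := Nat.lt_floor_add_one (S.D ^ (1 - 2 * ε1))
                    (clear * - hK2 h1; linarith)
                  have hK1 : 1 ≤ K := by
                    have h1 : (1 : ℝ) ≤ K := by (clear * - hK2 hKge; linarith)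
                    exact_mod_cast h1
                  exact by
                    have hKx : S.D ^ (1 - x2) ≤ K := by
                      have h1 : S.D ^ (1 - x2) * 2 ≤ S.D ^ (1 - 2 * ε1) := by
                        calc S.D ^ (1 - x2) * 2 ≤ S.D ^ (1 - x2) * S.D ^ (x2 / 2) := by (clear * - h2D hD4; gcongr)
                          _ = S.D ^ (1 - x2 + x2 / 2) := by rw [← Real.rpow_add hD0]
                          _ ≤ _ := hrp (by (clear * - hε1b; linarith))
                      (clear * - hKge h1; linarith)
                    have hqK : (q1 : ℝ) * K ≤ S.D ^ (1 - 2 * ε1 + ε1 / 8) := by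
                      calc (q1 : ℝ) * K ≤ S.D ^ (ε1 / 8) * S.D ^ (1 - 2 * ε1) := by (clear * - hq1D hKle hK1 hD4; gcongr)
                        _ = _ := by rw [← Real.rpow_add hD0]; congr 1; ring
                    have hqKD : (q1 : ℝ) * K ≤ S.D := by
                      refine hqK.trans ?_
                      calc S.D ^ (1 - 2 * ε1 + ε1 / 8) ≤ S.D ^ (1 : ℝ) := hrp (by (clear * - hε1; linarith))
                        _ = S.D := Real.rpow_one _
                    have hTr : S.D ^ (1 - ε1 / 4) ≤ S.T := hGx.good.T1
                    have hT0 : (0 : ℝ) < S.T := (Real.rpow_pos_of_pos hD0 _).trans_le hTr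
                    have hT1 : 1 ≤ S.T := by exact_mod_cast hT0
                    exact by
                      have hδC1 : S.D ^ (-(ε1 / 8)) ≤ δ ^ C1 := le_pow21 hD1 hδσ (hσn C1 (by omega))
                      have herr : 2 * (q1 * K) / S.T + A0 * (q1 * K / S.D) * S.D ^ ε1 < δ ^ C1 / 2 := by
                        have h1 : (q1 * K : ℝ) / S.T ≤ S.D ^ (-(ε1 / 2)) := by
                          rw [div_le_iff₀ hT0]
                          calc (q1 * K : ℝ) ≤ S.D ^ (1 - 2 * ε1 + ε1 / 8) := hqK
                            _ ≤ S.D ^ (-(ε1 / 2) + (1 - ε1 / 4)) := hrp (by (clear * - hε1; linarith))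
                            _ = S.D ^ (-(ε1 / 2)) * S.D ^ (1 - ε1 / 4) := Real.rpow_add hD0 _ _
                            _ ≤ _ := by (clear * - hTr hD4; gcongr)
                        have h2 : (q1 * K : ℝ) / S.D * S.D ^ ε1 ≤ S.D ^ (-(ε1 / 2)) := by
                          rw [div_mul_eq_mul_div, div_le_iff₀ hD0]
                          calc (q1 * K : ℝ) * S.D ^ ε1 ≤ S.D ^ (1 - 2 * ε1 + ε1 / 8) * S.D ^ ε1 := by (clear * - hqK hD4; gcongr)
                            _ = S.D ^ (1 - 2 * ε1 + ε1 / 8 + ε1) := (Real.rpow_add hD0 _ _).symm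
                            _ ≤ S.D ^ (-(ε1 / 2) + 1) := hrp (by (clear * - hε1; linarith))
                            _ = S.D ^ (-(ε1 / 2)) * S.D := by rw [Real.rpow_add hD0, Real.rpow_one]
                        have h3 : 2 * (q1 * K) / S.T + A0 * (q1 * K / S.D) * S.D ^ ε1 ≤
                            (2 + A0) * S.D ^ (-(ε1 / 2)) := by
                          have h4 : 2 * (q1 * K : ℝ) / S.T = 2 * (q1 * K / S.T) := by ring
                          have h5 : A0 * (q1 * K / S.D) * S.D ^ ε1 = A0 * (q1 * K / S.D * S.D ^ ε1) := by ring
                          rw [h4, h5, add_mul]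
                          (clear * - h1 h2; gcongr)
                        have h6 : (2 + A0) * S.D ^ (-(ε1 / 2)) * 8 ≤ S.D ^ (-(ε1 / 8)) := by
                          calc (2 + A0) * S.D ^ (-(ε1 / 2)) * 8 = (8 * (2 + A0)) * S.D ^ (-(ε1 / 2)) := by ring
                            _ ≤ S.D ^ (ε1 / 4) * S.D ^ (-(ε1 / 2)) := by
                              refine mul_le_mul_of_nonneg_right ?_ (by positivity)
                              have : (0 : ℝ) ≤ m := Nat.cast_nonneg _
                              linarith
                            _ = S.D ^ (ε1 / 4 + -(ε1 / 2)) := (Real.rpow_add hD0 _ _).symm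
                            _ ≤ _ := hrp (by (clear * - hε1; linarith))
                        have h7 : 0 < S.D ^ (-(ε1 / 8)) := Real.rpow_pos_of_pos hD0 _
                        (clear * - hδC1 h3 h6 h7; linarith)
                      have hcc1 : ∀ i x, ‖cc i x‖ ≤ 1 := fun i => (hbc i (mem_univ i)).2.2.1.bdd
                      have hlip : ∀ i (x : ZMod N) (t : ℤ), ‖cc i (x + ((((S.Q * q1 : ℕ) : ℤ) * t : ℤ) : ZMod N)) -
                          cc i x‖ ≤ |(t : ℝ)| * ((S.Q * q1 : ℕ) : ℝ) * S.D ^ ε1 / S.P i := by
                        intro i x t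
                        have h1 := (hbc i (mem_univ i)).2.2.2 x t
                        rw [hstp i] at h1
                        exact h1
                      obtain ⟨k0, hk0, hw, hMk⟩ := window21 hG hD1 d hd (fun i => by (clear * - hd2; linarith [hd2 i])) f0 hf0.bdd b cc
                        hcc1 q1 K (S.D ^ ε1) (δ ^ C1) hK1 (by (clear * - hD4; positivity)) hlip hqKD hT1 herr hform2
                      rw [Sys.I, Finset.mem_Ico] at hk0
                      have hk0u : (S.u : ℝ) ≤ k0 := by exact_mod_cast hk0.1
                      have hk0T : (k0 : ℝ) ≤ S.u + S.T := by exact_mod_cast hk0.2.le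
                      -- the rational approximations
                      exact by
                        have hδ1 : δ ^ (C1 + 1) ≤ δ ^ C1 / 2 := by
                          rw [pow_succ]
                          have h1 : 0 < δ ^ C1 := by positivity
                          (clear * - hε1 hε1c hδ h1; nlinarith)
                        have hδ1' : δ ^ (C1 + 1) ≤ 1 / 2 := by
                          have h1 : δ ^ C1 ≤ 1 := pow_le_one₀ hδ0.le (by (clear * - hδ; linarith))
                          (clear * - hδ1 h1; linarith)
                        have hinv1 : δ⁻¹ ≤ (δ ^ (C1 + 1))⁻¹ := by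
                          rw [← inv_pow]
                          exact le_self_pow₀ (by (clear * - hinv2; linarith)) (by omega)
                        obtain ⟨-, q', hq', hq'', hdint⟩ := H2 S.D hDb S.ρ hG.good.ρ0 hG.good.ρ1 lam hG.lam1 hG.rho
                          (δ ^ (C1 + 1)) (by
                            have h1 : σ * ((C1 + 1 : ℕ) : ℝ) ≤ σ2 := by
                              have h2 : ((C1 + 1 : ℕ) : ℝ) ≤ M := by exact_mod_cast (by omega : C1 + 1 ≤ M)
                              exact (mul_le_mul_of_nonneg_left h2 hσ0.le).trans hσM2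
                            exact le_pow21 hD1 hδσ h1) hδ1' (hlamδ.trans hinv1)
                          (fun i => (b i : ℝ) / N * S.P i) (by
                            intro i
                            rw [abs_mul, abs_of_pos (hP0 i)]
                            have h1 : S.P i ≤ S.Q * S.D ^ (c i + ε1 / 4) := hGx.good.P2 i
                            calc |(b i : ℝ) / N| * S.P i ≤ (δ⁻¹ ^ C1 / S.Q) * (S.Q * S.D ^ (c i + ε1 / 4)) :=
                                  mul_le_mul (hbc i (mem_univ i)).1 h1 (hP0 i).le (by (clear * - hδ0 hQ0; positivity))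
                              _ = δ⁻¹ ^ C1 * S.D ^ (c i + ε1 / 4) := by (clear * - hQ0 hD4 hδ0; field_simp)
                              _ ≤ S.D ^ (ε1 / 8) * S.D ^ (c i + ε1 / 4) := by
                                refine mul_le_mul_of_nonneg_right ?_ (by positivity)
                                exact inv_pow_le21 hD1 hδσ (hσn C1 (by omega))
                              _ = S.D ^ (ε1 / 8 + (c i + ε1 / 4)) := (Real.rpow_add hD0 _ _).symm
                              _ ≤ _ := hrp (by (clear * - hε1c hmono'; linarith [hmono' (Fin.le_last i)])))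
                          q1 k0 K hq1 (hq1'.trans (by
                            rw [← inv_pow]
                            exact pow_le_pow_right₀ (by (clear * - hinv2; linarith)) (by omega)))
                          (hG.good.u1.trans hk0u) (by (clear * - hD4 hk0T hG; linarith [hG.good.u2])) hKx hqKD (hδ1.trans hw)
                        have hq'r : (1 : ℝ) ≤ q' := by exact_mod_cast hq'
                        have hdi : ∀ i, dint (q' * ((b i : ℝ) / N * S.Q)) ≤ S.D ^ (ε / 2 - d i) := by
                          intro i
                          have h1 := hdint i (d i) (hd i)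
                          have h2 : (b i : ℝ) / N * S.P i / (lam * S.D) ^ d i = (b i : ℝ) / N * S.Q := by
                            rw [hPi]
                            have : (lam * S.D) ^ d i ≠ 0 := by (clear * - hlam hD4; positivity)
                            (clear * - this hQ0; field_simp)
                          rwa [h2] at h1
                        refine ⟨q1 * q', Nat.mul_pos hq1 hq', ?_, ?_⟩
                        · have h1 : (q' : ℝ) ≤ δ⁻¹ ^ ((C1 + 1) * C2) := by
                            rw [pow_mul, inv_pow δ (C1 + 1)]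
                            exact hq''
                          exact by
                            calc ((q1 * q' : ℕ) : ℝ) = q1 * q' := by push_cast; ring
                              _ ≤ δ⁻¹ ^ C1 * δ⁻¹ ^ ((C1 + 1) * C2) := by (clear * - hq1' h1 hq' hδ0; gcongr)
                              _ = δ⁻¹ ^ (C1 + (C1 + 1) * C2) := by rw [← pow_add]
                              _ ≤ _ := pow_le_pow_right₀ (by (clear * - hinv2; linarith)) (by omega)
                        intro L hL hLq
                        -- the error in the last step
                        set H : ZMod N → ℂ := fun x => ∏ i, (e ((b i : ℝ) / N * x.val) *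
                              cc i (x + (S.a c i k0 : ZMod N))) with hH
                        exact by
                          have hterm : ∀ i (x : ZMod N) (y : ZMod N), ‖e ((b i : ℝ) / N * x.val) * cc i y‖ ≤ 1 := by
                            intro i x y
                            rw [norm_mul, norm_e, one_mul]
                            exact hcc1 i y
                          have hH1 : ∀ x, ‖H x‖ ≤ 1 := by
                            intro x
                            rw [hH]
                            simp only
                            rw [norm_prod]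
                            exact Finset.prod_le_one (fun j _ => norm_nonneg _) fun j _ => hterm j x _
                          have hLr : (1 : ℝ) ≤ L := by exact_mod_cast hL
                          have hLq1 : (q1 : ℝ) * L ≤ S.D ^ (ε1 / 8) * S.D ^ ((d 0 : ℝ) - ε) := by
                            have h1 : (q1 : ℝ) * L * S.Q ≤ S.P 0 * S.D ^ (-ε) := by
                              refine le_trans ?_ hLq
                              push_cast
                              have : (q1 : ℝ) * L * S.Q * 1 ≤ (q1 : ℝ) * L * S.Q * q' := by (clear * - hq'r hq1 hL hQ0; gcongr)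
                              (clear * - this; linarith)
                            rw [hPi] at h1
                            have h2 : (q1 : ℝ) * L ≤ (lam * S.D) ^ d 0 * S.D ^ (-ε) := by
                              have h3 : (q1 : ℝ) * L * S.Q ≤ ((lam * S.D) ^ d 0 * S.D ^ (-ε)) * S.Q := by (clear * - h1; linarith)
                              exact le_of_mul_le_mul_right h3 hQ0
                            refine h2.trans ?_
                            rw [mul_pow, sub_eq_add_neg, Real.rpow_add hD0, Real.rpow_natCast, mul_assoc]
                            refine mul_le_mul_of_nonneg_right ?_ (by (clear * - hD4; positivity))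
                            calc (lam : ℝ) ^ d 0 ≤ δ⁻¹ ^ d 0 := pow_le_pow_left₀ (by (clear * - hlam; positivity)) hlamδ _
                              _ ≤ _ := inv_pow_le21 hD1 hδσ (hσn (d 0) (by omega))
                          have hlipH : ∀ a < L, ∀ x, ‖H (x + ((S.Q * (q1 * q') * a : ℕ) : ZMod N)) - H x‖ ≤
                              ∑ i : Fin (m + 1), 8 * S.D ^ (-ε1) := by
                            intro a ha x
                            have haL : (a : ℝ) ≤ L := by exact_mod_cast ha.le
                            rw [hH]
                            simp only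
                            refine (prod_sub_prod21 univ (fun i _ => hterm i _ _) (fun i _ => hterm i _ _)).trans ?_
                            refine Finset.sum_le_sum fun i _ => ?_
                            have h1 : ((S.Q * (q1 * q') * a : ℕ) : ZMod N) =
                                (((S.Q * (q1 * q') * a : ℕ) : ℤ) : ZMod N) := by push_cast; rfl
                            have h2 : (((S.Q * (q1 * q') * a : ℕ) : ℤ)) = ((S.Q * q1 : ℕ) : ℤ) * ((q' * a : ℕ) : ℤ) := by
                              push_cast; ring
                            have h3 : e ((b i : ℝ) / N * ((x + ((S.Q * (q1 * q') * a : ℕ) : ZMod N)).val : ℝ)) =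
                                e ((b i : ℝ) / N * (x.val : ℝ)) *
                                  e ((b i : ℝ) / N * (((S.Q * (q1 * q') * a : ℕ) : ℤ) : ℝ)) := by
                              rw [h1, char_add21]
                            have h4 : ‖e ((b i : ℝ) / N * (((S.Q * (q1 * q') * a : ℕ) : ℤ) : ℝ)) - 1‖ ≤
                                7 * S.D ^ (-ε1) := by
                              refine (norm_e_sub_one_le21 _).trans ?_
                              have h5 : (b i : ℝ) / N * (((S.Q * (q1 * q') * a : ℕ) : ℤ) : ℝ) =
                                  ((q1 * a : ℕ) : ℝ) * (q' * ((b i : ℝ) / N * S.Q)) := by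
                                push_cast; ring
                              rw [h5]
                              have h6 : dint (((q1 * a : ℕ) : ℝ) * (q' * ((b i : ℝ) / N * S.Q))) ≤ S.D ^ (-ε1) := by
                                calc dint (((q1 * a : ℕ) : ℝ) * (q' * ((b i : ℝ) / N * S.Q)))
                                    ≤ ((q1 * a : ℕ) : ℝ) * dint (q' * ((b i : ℝ) / N * S.Q)) := dint_mul_le _ _
                                  _ ≤ (q1 * L) * S.D ^ (ε / 2 - d i) := by
                                    push_cast
                                    refine mul_le_mul ?_ (hdi i) (dint_nonneg _) (by (clear * - hq1 hL; positivity))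
                                    (clear * - haL hq1; gcongr)
                                  _ ≤ (S.D ^ (ε1 / 8) * S.D ^ ((d 0 : ℝ) - ε)) * S.D ^ (ε / 2 - d i) :=
                                    mul_le_mul_of_nonneg_right hLq1 (by positivity)
                                  _ = S.D ^ (ε1 / 8 + ((d 0 : ℝ) - ε) + (ε / 2 - d i)) := by
                                    rw [Real.rpow_add hD0, Real.rpow_add hD0]
                                  _ ≤ _ := by
                                    have : (d 0 : ℝ) ≤ d i := by exact_mod_cast hd0 i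
                                    exact hrp (by (clear * - hε hε1a this; linarith))
                              have h7 : 2 * Real.pi ≤ 7 := by (clear * -; linarith [Real.pi_lt_d2])
                              exact mul_le_mul h7 h6 (dint_nonneg _) (by norm_num)
                            have h5 : ‖cc i (x + ((S.Q * (q1 * q') * a : ℕ) : ZMod N) + (S.a c i k0 : ZMod N)) -
                                cc i (x + (S.a c i k0 : ZMod N))‖ ≤ S.D ^ (-ε1) := by
                              rw [h1, h2, add_right_comm]
                              refine (hlip i _ _).trans ?_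
                              rw [div_le_iff₀ (hP0 i)]
                              have h6 : |(((q' * a : ℕ) : ℤ) : ℝ)| * ((S.Q * q1 : ℕ) : ℝ) ≤ S.P i * S.D ^ (-ε) := by
                                rw [abs_of_nonneg (by (clear * -; positivity))]
                                refine le_trans ?_ (hLq.trans (mul_le_mul_of_nonneg_right (hP0i i) (by positivity)))
                                push_cast
                                calc (q' : ℝ) * a * (S.Q * q1) ≤ q' * L * (S.Q * q1) := by (clear * - haL hq' hQ0 hq1; gcongr)
                                  _ = _ := by ring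
                              calc |(((q' * a : ℕ) : ℤ) : ℝ)| * ((S.Q * q1 : ℕ) : ℝ) * S.D ^ ε1
                                  ≤ S.P i * S.D ^ (-ε) * S.D ^ ε1 := mul_le_mul_of_nonneg_right h6 (by (clear * - hD4; positivity))
                                _ = S.P i * S.D ^ (-ε + ε1) := by
                                  rw [Real.rpow_add hD0]
                                  ring
                                _ ≤ S.P i * S.D ^ (-ε1) := by
                                  refine mul_le_mul_of_nonneg_left (hrp ?_) (hP0 i).le
                                  (clear * - hε hε1a; linarith)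
                                _ = S.D ^ (-ε1) * S.P i := mul_comm _ _
                            rw [h3]
                            have h8 : e ((b i : ℝ) / N * (x.val : ℝ)) *
                                  e ((b i : ℝ) / N * (((S.Q * (q1 * q') * a : ℕ) : ℤ) : ℝ)) *
                                  cc i (x + ((S.Q * (q1 * q') * a : ℕ) : ZMod N) + (S.a c i k0 : ZMod N)) -
                                e ((b i : ℝ) / N * (x.val : ℝ)) * cc i (x + (S.a c i k0 : ZMod N)) =
                                e ((b i : ℝ) / N * (x.val : ℝ)) *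
                                  ((e ((b i : ℝ) / N * (((S.Q * (q1 * q') * a : ℕ) : ℤ) : ℝ)) - 1) *
                                    cc i (x + ((S.Q * (q1 * q') * a : ℕ) : ZMod N) + (S.a c i k0 : ZMod N)) +
                                  (cc i (x + ((S.Q * (q1 * q') * a : ℕ) : ZMod N) + (S.a c i k0 : ZMod N)) -
                                    cc i (x + (S.a c i k0 : ZMod N)))) := by ring
                            rw [h8, norm_mul, norm_e, one_mul]
                            refine (norm_add_le _ _).trans ?_
                            rw [norm_mul]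
                            have h9 := mul_le_of_le_one_right (norm_nonneg
                              (e ((b i : ℝ) / N * (((S.Q * (q1 * q') * a : ℕ) : ℤ) : ℝ)) - 1))
                              (hcc1 i (x + ((S.Q * (q1 * q') * a : ℕ) : ZMod N) + (S.a c i k0 : ZMod N)))
                            (clear * - h4 h5 h9; linarith)
                          have hfin := frame21 f0 H (S.Q * (q1 * q')) L _ hL hf0.bdd hH1 hlipH
                          exact by
                            have hfin2 := hMk.trans hfin
                            rw [Finset.sum_const, Finset.card_univ, Fintype.card_fin, nsmul_eq_mul] at hfin2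
                            have herr2 : ((m + 1 : ℕ) : ℝ) * (8 * S.D ^ (-ε1)) ≤ δ ^ C1 / 4 := by
                              have h1 : ((m + 1 : ℕ) : ℝ) * (8 * S.D ^ (-ε1)) * 4 ≤ S.D ^ (-(ε1 / 8)) := by
                                push_cast
                                calc ((m : ℝ) + 1) * (8 * S.D ^ (-ε1)) * 4 = (32 * (m + 1)) * S.D ^ (-ε1) := by ring
                                  _ ≤ S.D ^ (ε1 / 4) * S.D ^ (-ε1) := by
                                    refine mul_le_mul_of_nonneg_right ?_ (by positivity)
                                    (clear * - hA0' hBD; linarith)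
                                  _ = S.D ^ (ε1 / 4 + -ε1) := (Real.rpow_add hD0 _ _).symm
                                  _ ≤ _ := hrp (by (clear * - hε1; linarith))
                              (clear * - hδC1 h1; linarith)
                            have h1 : δ ^ (C1 + (C1 + 1) * C2 + 2) ≤ δ ^ C1 / 4 := by
                              calc δ ^ (C1 + (C1 + 1) * C2 + 2) ≤ δ ^ (C1 + 2) :=
                                    pow_le_pow_of_le_one hδ0.le (by (clear * - hδ; linarith)) (by omega)
                                _ = δ ^ C1 * (δ * δ) := by ring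
                                _ ≤ δ ^ C1 * ((1 / 2) * (1 / 2)) := by (clear * - hδ hδ0; gcongr)
                                _ = _ := by ring
                            (clear * - hfin2 herr2 h1; linarith)

end

end Pool.Agent.Helper67.NX2

end

section

set_option autoImplicit false

open Finset

open scoped BigOperators ComplexConjugate

namespace Pool.Agent.Helper67.NX2

open Pool.Agent.Helper57.NX

theorem zero_arith (hES : ES0) (m : ℕ) (c : Fin (m + 1) → ℝ) (hc : Ex c)
    (hcN : ∀ i, IsN (c i)) (hU : ∀ ε : ℝ, 0 < ε → UsJ m c 0 ε univ) : ∀ ε : ℝ, 0 < ε →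
    ∃ x0 : ℝ, 0 < x0 ∧ ∃ C : ℕ, ∃ σ : ℝ, 0 < σ ∧ ∃ D0 : ℝ,
    ∀ (S : Sys (m + 1)) (N : ℕ) [NeZero N] (lam : ℕ), D0 ≤ S.D → IG S c N x0 lam →
    ∀ δ : ℝ, S.D ^ (-σ) ≤ δ → δ ≤ 1 / 2 → (lam : ℝ) ≤ δ⁻¹ →
    ∀ (f0 : ZMod N → ℂ) (f : Fin (m + 1) → ZMod N → ℂ),
    Adm δ⁻¹ S.Q f0 → (∀ i, Adm δ⁻¹ S.Q (f i)) → δ ≤ ‖form S c 1 f0 f‖ →
    ∃ q : ℕ, 1 ≤ q ∧ (q : ℝ) ≤ δ⁻¹ ^ C ∧ ∀ L : ℕ, 1 ≤ L →
      (L : ℝ) * (S.Q * q) ≤ S.P 0 * S.D ^ (-ε) → δ ^ C ≤ nrm (Aq (S.Q * q) L f0) :=
  zero_arith_of21 m c (fun a ε hε => ratl hES c (fun i j hij => by linarith [hc.gap i j hij])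
    (fun i => by linarith [hc.two i]) a ε hε) hc hcN hU

end Pool.Agent.Helper67.NX2

end

section

set_option autoImplicit false

open Finset

open scoped BigOperators ComplexConjugate

namespace Pool.Agent.Helper67.NX2.W

open Pool.Agent.Helper57.NX Pool.Agent.Helper67.NX2

theorem base (hES : ES0) (m : ℕ) (c : Fin (m + 1) → ℝ) (hc : Ex c)
    (hD : ∀ ε : ℝ, 0 < ε → DPm m (fun i => c i.castSucc) ε) :
    ∃ sb : ℝ, c (Fin.last m) - 1 / 8 ≤ sb ∧ sb < c (Fin.last m) ∧
      ∀ ε : ℝ, 0 < ε → TopPm m c sb ε :=
  base'_of m c hc (fun h hx hD => h.mono hx hD)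
    (fun s h0 hs hs1 => base_cells' m c hc s h0 hs hs1 hD) (base_ratl hES m c hc)
    (fun e he => base_fin hES m c hc e he)

end Pool.Agent.Helper67.NX2.W

end
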