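import Pool.Agent.Helper23.MC.L02_a1
import Pool.Agent.Helper23.MC.L02_a10
import Pool.Agent.Helper23.MC.L02_a12
import Pool.Agent.Helper23.MC.L02_a2
import Pool.Agent.Helper23.MC.L02_a4
import Pool.Agent.Helper23.MC.L02_a6
import Pool.Agent.Helper23.MC.L02_a8

/-!
Parts of Helper41.NX2.TopStep, Helper82.NX.GncC, Helper53.NX2.FormReplace
-/

attribute [local instance 5000]
  Pool.Agent.Helper23.MC.Inst.rCharZero Pool.Agent.Helper23.MC.Inst.rALM
  Pool.Agent.Helper23.MC.Inst.rARM Pool.Agent.Helper23.MC.Inst.rALSM
  Pool.Agent.Helper23.MC.Inst.rARSM Pool.Agent.Helper23.MC.Inst.rARRLE
  Pool.Agent.Helper23.MC.Inst.rALRLE Pool.Agent.Helper23.MC.Inst.rARRLT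
  Pool.Agent.Helper23.MC.Inst.rALRLT Pool.Agent.Helper23.MC.Inst.rPMRLT
  Pool.Agent.Helper23.MC.Inst.rMPRLT Pool.Agent.Helper23.MC.Inst.rPMM
  Pool.Agent.Helper23.MC.Inst.rMPM Pool.Agent.Helper23.MC.Inst.rPMSM
  Pool.Agent.Helper23.MC.Inst.rMPSM Pool.Agent.Helper23.MC.Inst.rEAOL
  Pool.Agent.Helper23.MC.Inst.rIOR Pool.Agent.Helper23.MC.Inst.rISOR
  Pool.Agent.Helper23.MC.Inst.rNZD Pool.Agent.Helper23.MC.Inst.rcCharZero
  Pool.Agent.Helper23.MC.Inst.rcNZD Pool.Agent.Helper23.MC.Inst.zCharZero
  Pool.Agent.Helper23.MC.Inst.zALM Pool.Agent.Helper23.MC.Inst.zARM
  Pool.Agent.Helper23.MC.Inst.zALSM Pool.Agent.Helper23.MC.Inst.zARSM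
  Pool.Agent.Helper23.MC.Inst.zIOR Pool.Agent.Helper23.MC.Inst.zISOR
  Pool.Agent.Helper23.MC.Inst.zNZD Pool.Agent.Helper23.MC.Inst.qCharZero
  Pool.Agent.Helper23.MC.Inst.mR Pool.Agent.Helper23.MC.Inst.mC Pool.Agent.Helper23.MC.Inst.mRC
  Pool.Agent.Helper23.MC.Inst.rPSM Pool.Agent.Helper23.MC.Inst.rCSM
  Pool.Agent.Helper23.MC.Inst.cAdd Pool.Agent.Helper23.MC.Inst.cAddM
  Pool.Agent.Helper23.MC.Inst.cMul Pool.Agent.Helper23.MC.Inst.cMon

namespace Pool.Agent.Helper57.NX
end Pool.Agent.Helper57.NX

section

set_option autoImplicit false

open Finset

open scoped BigOperators ComplexConjugate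

namespace Pool.Agent.Helper67.NX2

open Pool.Agent.Helper57.NX

noncomputable section

theorem smooth67 {N : ℕ} [NeZero N] (g : ZMod N → ℂ) (δ X' : ℝ) (hδp : 0 < δ)
    (hδ1 : δ ≤ 1 / 2) (hX'0 : 0 < X') (hX'N : X' ≤ N) (hgX' : Adm δ⁻¹ X' g) (Y : ℕ) (hY1 : 1 ≤ Y)
    (hY2 : (Y : ℝ) ≤ δ ^ 6 * X') (L' : ℕ) :
    nrm (fun x => (g x - A L' g x) - A Y (fun x => g x - A L' g x) x) ≤ δ / 4 := by
  have e1 : (fun x => (g x - A L' g x) - A Y (fun x => g x - A L' g x) x) =
      fun x => (g x - A Y g x) + (-A L' (fun y => g y - A Y g y) x) := by
    funext x
    rw [A_sub, A_sub, A_comm Y L']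
    ring
  rw [e1]
  have h3 := nrm_add_le (fun x => g x - A Y g x)
    (fun x => -A L' (fun y => g y - A Y g y) x)
  have h4 : nrm (fun x => -A L' (fun y => g y - A Y g y) x) ≤
      nrm (fun x => g x - A Y g x) := by
    have h5 : nrm (fun x => -A L' (fun y => g y - A Y g y) x) =
        nrm (A L' (fun y => g y - A Y g y)) := by
      unfold nrm
      simp only [norm_neg]
    rw [h5]
    exact nrm_A_le _ _
  have h6 : nrm (fun x => g x - A Y g x) ≤ Y * δ⁻¹ * (1 / X' + 1 / N) :=
    hgX'.tv.l1_sub_A hX'0 Y hY1
  have h7 : (1 : ℝ) / X' + 1 / N ≤ 2 / X' := by
    have : (1 : ℝ) / N ≤ 1 / X' := one_div_le_one_div_of_le hX'0 hX'N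
    have e2 : (2 : ℝ) / X' = 1 / X' + 1 / X' := by ring
    (clear * - this e2; linarith)
  have h8 : (Y : ℝ) * δ⁻¹ * (1 / X' + 1 / N) ≤ 2 * δ ^ 5 := by
    calc (Y : ℝ) * δ⁻¹ * (1 / X' + 1 / N) ≤ (δ ^ 6 * X') * δ⁻¹ * (2 / X') := by gcongr
      _ = 2 * δ ^ 5 := by (clear * - hX'0 hδp; field_simp)
  have h9 : 2 * (2 * δ ^ 5) ≤ δ / 4 := by
    have : δ ^ 5 = δ * δ ^ 4 := by ring
    have h10 : δ ^ 4 ≤ (1 / 2) ^ 4 := pow_le_pow_left₀ hδp.le hδ1 4
    (clear * - hδp h10; nlinarith)
  (clear * - h3 h4 h6 h8 h9; linarith)

theorem uadm67 {N : ℕ} [NeZero N] (u : ZMod N → ℂ) (δ X' : ℝ) (hδp : 0 < δ)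
    (hδ1 : δ ≤ 1 / 2) (hu1 : ∀ x, ‖u x‖ ≤ 1) (Y : ℕ) (hY0 : (0 : ℝ) < Y) (hYX' : (Y : ℝ) ≤ X')
    (hX'0 : 0 < X') (hY3 : δ ^ 6 * X' / 2 ≤ Y) (hutv : TV 2 Y u) : Adm (δ⁻¹ ^ 8) X' u := by
  refine ⟨hu1, ?_⟩
  have h1 := hutv.rescale hY0 hYX'
  refine h1.mono ?_ hX'0 le_rfl
  have h2 : X' / Y ≤ 2 * δ⁻¹ ^ 6 := by
    rw [div_le_iff₀ hY0]
    calc X' = 2 * δ⁻¹ ^ 6 * (δ ^ 6 * X' / 2) := by (clear * - hδp hX'0; field_simp)
      _ ≤ _ := mul_le_mul_of_nonneg_left hY3 (by (clear * - hδp; positivity))
  have h3 : (4 : ℝ) ≤ δ⁻¹ ^ 2 := by
    have : (2 : ℝ) ≤ δ⁻¹ := by
      rw [le_inv_comm₀ (by norm_num) hδp]; (clear * - hδ1; linarith)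
    (clear * - this; nlinarith)
  calc 2 * (X' / Y) ≤ 2 * (2 * δ⁻¹ ^ 6) := by (clear * - h2; linarith)
    _ = 4 * δ⁻¹ ^ 6 := by ring
    _ ≤ δ⁻¹ ^ 2 * δ⁻¹ ^ 6 := mul_le_mul_of_nonneg_right h3 (by (clear * - hδp; positivity))
    _ = δ⁻¹ ^ 8 := by rw [← pow_add]

theorem top_step' (m : ℕ) (c : Fin (m + 1) → ℝ) (_hc : Ex c)
    (s s' s0 ε : ℝ) (hs : 0 ≤ s) (hs0 : s0 = 0 ∨ s0 < s) (hss : s < s')
    (hs' : s' < c (Fin.last m)) (_hε : 0 < ε)
    (hG : GNCP m c s s') (hL : LPPm m c s' s0) (hT : TopPm m c s' ε) : TopPm m c s ε := by
  classical
  obtain ⟨xG, hxG, r, CG, σG, hσG, DG, hG⟩ := hG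
  obtain ⟨xL, hxL, CL, σL, hσL, DL, hL⟩ := hL
  obtain ⟨xT, hxT, CT, σT, hσT, DT, hT⟩ := hT
  obtain ⟨n4, hn4⟩ := dl_total r (fun n2 => CL * (n2 + r + 2)) (8 * CG + 8)
  obtain ⟨G, hGdef⟩ : ∃ G : ℕ, G = CL * (n4 + r + 2) := ⟨_, rfl⟩
  obtain ⟨n5, hn5⟩ : ∃ n5 : ℕ, n5 = G + n4 + 7 := ⟨_, rfl⟩
  obtain ⟨M, hM⟩ : ∃ M : ℕ, M = 2 * n4 + n5 + r + 20 := ⟨_, rfl⟩
  obtain ⟨κ, hκdef⟩ : ∃ κ : ℝ, κ = min ((s' - s) / 8) (σT / 8) := ⟨_, rfl⟩
  have hκ0 : 0 < κ := by rw [hκdef]; exact lt_min (by (clear * - hss; linarith)) (by (clear * - hσT; linarith))
  have hκ1 : κ ≤ (s' - s) / 8 := by rw [hκdef]; exact min_le_left _ _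
  have hκ2 : κ ≤ σT / 8 := by rw [hκdef]; exact min_le_right _ _
  obtain ⟨g0, hg00, hg0⟩ : ∃ g0 : ℝ, 0 < g0 ∧ (s0 = 0 ∨ g0 ≤ s - s0) := by
    rcases hs0 with h | h
    · exact ⟨1, one_pos, Or.inl h⟩
    · exact ⟨s - s0, by (clear * - h; linarith), Or.inr le_rfl⟩
  obtain ⟨μ, hμdef⟩ : ∃ μ : ℝ, μ = min (min (min σT σG) (min σL (s' - s)))
      (min (min ((c (Fin.last m) - s') / 2) κ) (min g0 1)) := ⟨_, rfl⟩
  have hμ0 : 0 < μ := by
    rw [hμdef]
    refine lt_min (lt_min (lt_min hσT hσG) (lt_min hσL (by (clear * - hκ0 hκ1; linarith))))
      (lt_min (lt_min (by (clear * - hs'; linarith)) hκ0) (lt_min hg00 one_pos))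
  have hμg : μ ≤ g0 := by
    rw [hμdef]; exact (min_le_right _ _).trans ((min_le_right _ _).trans (min_le_left _ _))
  have hμT : μ ≤ σT := by
    rw [hμdef]; exact (min_le_left _ _).trans ((min_le_left _ _).trans (min_le_left _ _))
  exact by
    have hμG : μ ≤ σG := by
      rw [hμdef]; exact (min_le_left _ _).trans ((min_le_left _ _).trans (min_le_right _ _))
    have hμL : μ ≤ σL := by
      rw [hμdef]; exact (min_le_left _ _).trans ((min_le_right _ _).trans (min_le_left _ _))
    have hμs : μ ≤ s' - s := by
      rw [hμdef]; exact (min_le_left _ _).trans ((min_le_right _ _).trans (min_le_right _ _))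
    have hμc : μ ≤ (c (Fin.last m) - s') / 2 := by
      rw [hμdef]; exact (min_le_right _ _).trans ((min_le_left _ _).trans (min_le_left _ _))
    have hμκ : μ ≤ κ := by
      rw [hμdef]; exact (min_le_right _ _).trans ((min_le_left _ _).trans (min_le_right _ _))
    have hμ1 : μ ≤ 1 := by
      rw [hμdef]; exact (min_le_right _ _).trans ((min_le_right _ _).trans (min_le_right _ _))
    exact by
      have hM0 : (0 : ℝ) < M := by
        have : 0 < M := by omega
        exact_mod_cast this
      obtain ⟨σ, hσdef⟩ : ∃ σ : ℝ, σ = μ / M := ⟨_, rfl⟩
      have hσ0 : 0 < σ := by rw [hσdef]; (clear * - hμ0 hM0; positivity)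
      have hMσ : (M : ℝ) * σ = μ := by rw [hσdef]; (clear * - hM0 hμ0; field_simp)
      -- small multiples of `σ`
      have hKσ : ∀ K : ℕ, K ≤ M → (K : ℝ) * σ ≤ μ := fun K hK => by
        rw [← hMσ]
        exact mul_le_mul_of_nonneg_right (by exact_mod_cast hK) hσ0.le
      refine ⟨min (min xG xL) (min xT ((c (Fin.last m) - s') / 4)), ?_, 2 * CT, σ, hσ0,
        max (max DG DL) (max DT 2), ?_⟩
      · exact lt_min (lt_min hxG hxL) (lt_min hxT (by (clear * - hμ0 hμc; linarith)))
      intro S N _ lam hD hgood δ hδ0 hδ1 hlam X hQX hX f0 f hf0 hf hfm hform L hL1 hL2
      have hDG : DG ≤ S.D := ((le_max_left _ _).trans (le_max_left _ _)).trans hD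
      have hDL' : DL ≤ S.D := ((le_max_right _ _).trans (le_max_left _ _)).trans hD
      exact by
        have hDT : DT ≤ S.D := ((le_max_left _ _).trans (le_max_right _ _)).trans hD
        have hD2 : 2 ≤ S.D := ((le_max_right _ _).trans (le_max_right _ _)).trans hD
        have hD1 : 1 ≤ S.D := by (clear * - hD2; linarith)
        have hDp : 0 < S.D := by (clear * - hD2; linarith)
        have hgG : Good S c N xG := hgood.good.mono67 hD1 ((min_le_left _ _).trans (min_le_left _ _))
        have hgL : IG S c N xL lam := ig_mono41 hgood hD1 ((min_le_left _ _).trans (min_le_right _ _))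
        exact by
          have hgT : IG S c N xT lam := ig_mono41 hgood hD1 ((min_le_right _ _).trans (min_le_left _ _))
          have hgc : Good S c N ((c (Fin.last m) - s') / 4) :=
            hgood.good.mono67 hD1 ((min_le_right _ _).trans (min_le_right _ _))
          clear hgood
          have hδp : 0 < δ := (Real.rpow_pos_of_pos hDp _).trans_le hδ0
          have hδ1' : δ ≤ 1 := by (clear * - hδ1 hδp; linarith)
          have hhalf : S.D ^ (-σ) ≤ 1 / 2 := hδ0.trans hδ1
          -- powers
          have hpow : ∀ (K : ℕ) (y : ℝ), y ≤ -((K : ℝ) * σ) → S.D ^ y ≤ δ ^ K := by
            intro K y hy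
            calc S.D ^ y ≤ S.D ^ (-σ * (K : ℝ)) :=
                  Real.rpow_le_rpow_of_exponent_le hD1 (by (clear * - hy; linarith))
              _ = (S.D ^ (-σ)) ^ K := by rw [Real.rpow_mul hDp.le, Real.rpow_natCast]
              _ ≤ δ ^ K := pow_le_pow_left₀ (Real.rpow_pos_of_pos hDp _).le hδ0 K
          exact by
            have hQ1 : (1 : ℝ) ≤ S.Q := by
              refine le_trans ?_ hgG.Q1
              exact Real.one_le_rpow hD1 (by norm_num)
            have hQ0 : (0 : ℝ) < S.Q := by (clear * - hδ1 hδp hQ1; linarith)
            have hmonoD : ∀ y z : ℝ, y ≤ z → (S.Q : ℝ) * S.D ^ y ≤ S.Q * S.D ^ z := fun y z h =>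
              mul_le_mul_of_nonneg_left (Real.rpow_le_rpow_of_exponent_le hD1 h) hQ0.le
            have hQle : ∀ y : ℝ, 0 ≤ y → (S.Q : ℝ) ≤ S.Q * S.D ^ y := fun y h =>
              le_mul_of_one_le_right hQ0.le (Real.one_le_rpow hD1 h)
            -- halving costs `σ`
            have hhalfQ : ∀ y : ℝ, (S.Q : ℝ) * S.D ^ (y - σ) ≤ S.Q * S.D ^ y / 2 := by
              intro y
              rw [show y - σ = y + -σ by ring, Real.rpow_add hDp]
              have h1 : 0 ≤ (S.Q : ℝ) * S.D ^ y := by (clear * - hQ1 hD2; positivity)
              (clear * - hδ0 h1 hδ1; nlinarith)
            have hδQ : ∀ (K : ℕ) (y : ℝ), (S.Q : ℝ) * S.D ^ (y - K * σ) ≤ δ ^ K * (S.Q * S.D ^ y) := by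
              intro K y
              rw [show y - K * σ = y + -((K : ℝ) * σ) by ring, Real.rpow_add hDp]
              have h1 : 0 ≤ (S.Q : ℝ) * S.D ^ y := by (clear * - hQ1 hD2; positivity)
              have h2 := hpow K _ le_rfl
              (clear * - hδ1 hδp h1 h2; nlinarith)
            exact by
              set g : ZMod N → ℂ := f (Fin.last m) with hg
              have hgb : ∀ x, ‖g x‖ ≤ 1 := hfm.bdd
              -- the scale `L'`
              have hy1 : 0 ≤ s' - 2 * κ := by (clear * - hs hκ0 hκ1; linarith)
              obtain ⟨L', hL'def⟩ : ∃ L' : ℕ, L' = ⌊(S.Q : ℝ) * S.D ^ (s' - 2 * κ)⌋₊ := ⟨_, rfl⟩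
              have hx1 : (1 : ℝ) ≤ (S.Q : ℝ) * S.D ^ (s' - 2 * κ) := hQ1.trans (hQle _ hy1)
              have hL'1 : 1 ≤ L' := by rw [hL'def]; exact (floor_facts _ hx1).1
              have hL'2 : (L' : ℝ) ≤ (S.Q : ℝ) * S.D ^ (s' - 2 * κ) := by
                rw [hL'def]; exact (floor_facts _ hx1).2.1
              exact by
                have hL'3 : (S.Q : ℝ) * S.D ^ (s' - 2 * κ) / 2 ≤ L' := by
                  rw [hL'def]; exact (floor_facts _ hx1).2.2
                have hL'Q : (S.Q : ℝ) ≤ L' := by
                  have : S.Q ≤ L' := by rw [hL'def]; exact Nat.le_floor (hQle _ hy1)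
                  exact_mod_cast this
                have hL'0 : (0 : ℝ) < L' := by exact_mod_cast hL'1
                have e_f : Function.update f (Fin.last m) g = f := Function.update_eq_self _ _
                by_cases hcase : δ ^ 2 ≤ ‖form S c 1 f0 (Function.update f (Fin.last m) (A L' g))‖
                · -- case (i)
                  have hB2 : (2 : ℝ) ≤ (δ ^ 2)⁻¹ := by
                    rw [le_inv_comm₀ (by norm_num) (by (clear * - hδp; positivity))]
                    (clear * - hδ1 hδp; nlinarith)
                  exact by
                    have hBB : δ⁻¹ ≤ (δ ^ 2)⁻¹ := by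
                      rw [inv_le_inv₀ hδp (by (clear * - hδp; positivity))]
                      (clear * - hδp hδ1; nlinarith)
                    have hAd : Adm (δ ^ 2)⁻¹ L' (A L' g) :=
                      ⟨norm_A_le hgb L', (by simpa using tv_A hgb L' hL'1 : TV 2 L' (A L' g)).mono hB2 hL'0 le_rfl⟩
                    have h2σ := hKσ 2 (by omega)
                    have h3σ := hKσ 3 (by omega)
                    push_cast at h2σ h3σ
                    have key := hT S N lam hDT hgT (δ ^ 2) (hpow 2 (-σT) (by push_cast; (clear * - hκ2 hμκ hσ0 h3σ; linarith))) (by (clear * - hδ1 hδp; nlinarith))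
                      (hlam.trans hBB)
                      L' hL'Q (by
                        have h1 := hhalfQ (s' - 2 * κ)
                        have h2 := hmonoD (s' - σT) (s' - 2 * κ - σ) (by (clear * - hκ2 hμκ hσ0 h3σ; linarith))
                        (clear * - hL'3 h1 h2; linarith))
                      f0 (Function.update f (Fin.last m) (A L' g)) (hf0.mono hBB hQ0 le_rfl)
                      (by
                        intro i
                        by_cases hi : i = Fin.last m
                        · subst hi
                          rw [Function.update_self]
                          exact hAd.mono le_rfl hQ0 hL'Q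
                        · rw [Function.update_of_ne hi]
                          exact (hf i).mono hBB hQ0 le_rfl)
                      (by rw [Function.update_self]; exact hAd) hcase L hL1 hL2
                    rw [Function.update_self, A_comm] at key
                    rw [pow_mul]
                    exact key.trans (nrm_A_le L' (A L g))
                · exfalso
                  exact by
                    push Not at hcase
                    -- the scale `X'`
                    obtain ⟨X', hX'def⟩ : ∃ X' : ℝ, X' = min X (S.Q * S.D ^ s) := ⟨_, rfl⟩
                    have hX'X : X' ≤ X := by rw [hX'def]; exact min_le_left _ _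
                    have hX's : X' ≤ S.Q * S.D ^ s := by rw [hX'def]; exact min_le_right _ _
                    have hQX' : (S.Q : ℝ) ≤ X' := by rw [hX'def]; exact le_min hQX (hQle _ hs)
                    have hX'σ : S.Q * S.D ^ (s - σ) ≤ X' := by
                      rw [hX'def]; exact le_min hX (hmonoD _ _ (by (clear * - hσ0; linarith)))
                    have hX'0s : S.Q * S.D ^ s0 ≤ X' := by
                      rcases hg0 with h | h
                      · rw [h, Real.rpow_zero, mul_one]
                        exact hQX'
                      · refine (hmonoD _ _ ?_).trans hX'σ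
                        have h1 := hKσ 1 (by (clear * - s' CL G hM κ S L L'; omega))
                        push_cast at h1
                        (clear * - hμg h h1; linarith)
                    have hX'1 : 1 ≤ X' := hQ1.trans hQX'
                    have hX'0 : 0 < X' := by (clear * - hδ1 hδp hQ1 hQX'; linarith)
                    exact by
                      have hgX' : Adm δ⁻¹ X' g := hfm.mono le_rfl hX'0 hX'X
                      -- size of `N`
                      have hNbig : (S.Q : ℝ) * S.D ^ (c (Fin.last m) - 2 * ((c (Fin.last m) - s') / 4)) ≤ N := by
                        have h1 := hgc.N1 (Fin.last m)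
                        have h2 := hgc.P1 (Fin.last m)
                        have h3 := h2.trans h1
                        have hp : 0 < S.D ^ ((c (Fin.last m) - s') / 4) := Real.rpow_pos_of_pos hDp _
                        have h4 : (S.Q : ℝ) * S.D ^ (c (Fin.last m) - 2 * ((c (Fin.last m) - s') / 4)) *
                            S.D ^ ((c (Fin.last m) - s') / 4) =
                            S.Q * S.D ^ (c (Fin.last m) - (c (Fin.last m) - s') / 4) := by
                          rw [mul_assoc, ← Real.rpow_add hDp]
                          congr 2
                          ring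
                        rw [← h4] at h3
                        exact le_of_mul_le_mul_right h3 hp
                      have hNK : ∀ K : ℕ, K ≤ M → (S.Q : ℝ) * S.D ^ s' ≤ δ ^ K * N := by
                        intro K hK
                        have h1 := hδQ K (c (Fin.last m) - 2 * ((c (Fin.last m) - s') / 4))
                        have h2 := hmonoD s' (c (Fin.last m) - 2 * ((c (Fin.last m) - s') / 4) - K * σ)
                          (by have := hKσ K hK; (clear * - hμc this; linarith))
                        exact h2.trans (h1.trans (mul_le_mul_of_nonneg_left hNbig (by (clear * - hδp; positivity))))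
                      have hQs'N : (S.Q : ℝ) * S.D ^ s' ≤ N := by
                        have := hNK 0 (by omega)
                        simpa using this
                      have hX'N : X' ≤ N := hX's.trans ((hmonoD s s' hss.le).trans hQs'N)
                      have hN0 : (0 : ℝ) < N := by (clear * - hδ1 hδp hQ1 hQX' hX'N; linarith)
                      -- the scale `Y`
                      exact by
                        obtain ⟨Y, hYdef⟩ : ∃ Y : ℕ, Y = ⌊δ ^ 6 * X'⌋₊ := ⟨_, rfl⟩
                        have hx2 : (1 : ℝ) ≤ δ ^ 6 * X' := by
                          have h1 := hδQ 6 0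
                          have h2 := hKσ 6 (by omega)
                          push_cast at h1 h2
                          rw [Real.rpow_zero, mul_one] at h1
                          have h3 : (1 : ℝ) ≤ S.Q * S.D ^ (0 - 6 * σ) := by
                            calc (1 : ℝ) ≤ S.D ^ (2 : ℝ) * S.D ^ (0 - 6 * σ) := by
                                  rw [← Real.rpow_add hDp]
                                  exact Real.one_le_rpow hD1 (by (clear * - hμ1 hσ0 h2; linarith))
                              _ ≤ _ := mul_le_mul_of_nonneg_right hgG.Q1 (Real.rpow_pos_of_pos hDp _).le
                          exact h3.trans (h1.trans (mul_le_mul_of_nonneg_left hQX' (by positivity)))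
                        have hY1 : 1 ≤ Y := by rw [hYdef]; exact (floor_facts _ hx2).1
                        have hY2 : (Y : ℝ) ≤ δ ^ 6 * X' := by rw [hYdef]; exact (floor_facts _ hx2).2.1
                        have hY3 : δ ^ 6 * X' / 2 ≤ Y := by rw [hYdef]; exact (floor_facts _ hx2).2.2
                        have hY0 : (0 : ℝ) < Y := by exact_mod_cast hY1
                        -- the high part is large
                        exact by
                          have hhigh : δ / 2 ≤ ‖form S c 1 f0 (Function.update f (Fin.last m)
                              (fun x => g x - A L' g x))‖ := by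
                            rw [form_update_sub, e_f]
                            have h1 := norm_sub_norm_le (form S c 1 f0 f)
                              (form S c 1 f0 (Function.update f (Fin.last m) (A L' g)))
                            (clear * - hform hcase h1 hδ1 hδp; nlinarith)
                          have hone : ∀ k, ‖(1 : ℕ → ℂ) k‖ ≤ 1 := fun k => by simp
                          -- smoothing at scale `Y`
                          have hsm : δ / 4 ≤ ‖form S c 1 f0 (Function.update f (Fin.last m)
                              (A Y (fun x => g x - A L' g x)))‖ := by
                            have h1 := norm_form_update_le S c 1 hone f0 hf0.bdd f (Fin.last m)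
                              (fun j _ => (hf j).bdd) (fun x => (g x - A L' g x) - A Y (fun x => g x - A L' g x) x)
                            rw [form_update_sub] at h1
                            have h2 := smooth67 g δ X' hδp hδ1 hX'0 hX'N hgX' Y hY1 hY2 L'
                            have h3 := norm_sub_norm_le (form S c 1 f0 (Function.update f (Fin.last m)
                              (fun x => g x - A L' g x))) (form S c 1 f0 (Function.update f (Fin.last m)
                              (A Y (fun x => g x - A L' g x))))
                            (clear * - hhigh h1 h2 h3; linarith)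
                          -- the dual function
                          set f' : Fin m → ZMod N → ℂ := fun i => f i.castSucc with hf'
                          set F : ZMod N → ℂ := fun x => 𝔼 k ∈ S.I, Fk67 S c f0 f' k x with hF
                          have hdual : dual S c 1 f0 f (Fin.last m) = F := by
                            funext x
                            rw [dual_last67]
                          exact by
                            have hFb : ∀ x, ‖F x‖ ≤ 1 := fun x => by
                              rw [← hdual]
                              exact norm_dual_le S c 1 hone f0 hf0.bdd f (Fin.last m) (fun j _ => (hf j).bdd) x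
                            rw [form_dual, hdual] at hsm
                            obtain ⟨u, ψ, hu1, hutv, hψ1, hψ2, huF, huA⟩ :=
                              core67 g F hgb hFb L' Y hL'1 hY1 (δ / 4) (by (clear * - hδp; positivity)) hsm
                            -- `u` is admissible at scale `X'`
                            have hYX' : (Y : ℝ) ≤ X' := hY2.trans (mul_le_of_le_one_left hX'0.le
                              (pow_le_one₀ hδp.le hδ1'))
                            have huX' : Adm (δ⁻¹ ^ 8) X' u := uadm67 u δ X' hδp hδ1 hu1 Y hY0 hYX' hX'0 hY3 hutv
                            have huform : δ ^ 8 ≤ ‖form S c 1 f0 (Function.update f (Fin.last m) u)‖ := by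
                              rw [form_dual, hdual]
                              refine le_trans ?_ huF
                              have h1 : δ ^ 6 ≤ (1 / 2) ^ 6 := pow_le_pow_left₀ hδp.le hδ1 6
                              have h2 : δ ^ 8 = δ ^ 2 * δ ^ 6 := by ring
                              have h3 : 0 ≤ δ ^ 2 := by (clear * - hδp; positivity)
                              (clear * - h1; nlinarith)
                            -- the box norm of `u`
                            obtain ⟨X1, hX1def⟩ : ∃ X1 : ℕ, X1 = ⌊(S.Q : ℝ) * S.D ^ s'⌋₊ := ⟨_, rfl⟩
                            have hs'0 : 0 ≤ s' := by (clear * - hs hκ0 hκ1; linarith)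
                            have hx3 : (1 : ℝ) ≤ (S.Q : ℝ) * S.D ^ s' := hQ1.trans (hQle _ hs'0)
                            have hX11 : 1 ≤ X1 := by rw [hX1def]; exact (floor_facts _ hx3).1
                            exact by
                              have hX12 : (X1 : ℝ) ≤ (S.Q : ℝ) * S.D ^ s' := by
                                rw [hX1def]; exact (floor_facts _ hx3).2.1
                              have hX13 : (S.Q : ℝ) * S.D ^ s' / 2 ≤ X1 := by rw [hX1def]; exact (floor_facts _ hx3).2.2
                              have hX14 : (S.Q : ℝ) * S.D ^ (s' - σ) ≤ X1 := (hhalfQ s').trans hX13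
                              have hinv8 : δ⁻¹ ≤ (δ ^ 8)⁻¹ := by
                                rw [← inv_pow]
                                have := inv_pow_mono hδp hδ1' (show 1 ≤ 8 by norm_num)
                                simpa using this
                              have h8σ := hKσ 8 (by omega)
                              have hbox : (δ ^ 8) ^ CG ≤ Box r X1 u := by
                                have key := hG S N hDG hgG (δ ^ 8) (hpow 8 (-σG) (by push_cast at h8σ ⊢; (clear * - hμG h8σ; linarith)))
                                  (by
                                    have h1 : δ ^ 8 ≤ δ ^ 1 := pow_le_pow_of_le_one hδp.le hδ1' (by norm_num)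
                                    rw [pow_one] at h1
                                    (clear * - hδ1 h1; linarith)) X' hQX' ((hmonoD _ _ (by have := hKσ 1 (by omega); push_cast at this; (clear * - hμG this; linarith))).trans hX'σ)
                                  f0 (Function.update f (Fin.last m) u) (hf0.mono hinv8 hQ0 le_rfl)
                                  (by
                                    intro i
                                    by_cases hi : i = Fin.last m
                                    · subst hi
                                      rw [Function.update_self, ← inv_pow]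
                                      exact huX'.mono le_rfl hQ0 hQX'
                                    · rw [Function.update_of_ne hi]
                                      exact (hf i).mono hinv8 hQ0 le_rfl)
                                  (by rw [Function.update_self, ← inv_pow]; exact huX') huform X1 hX11 hX12
                                rw [Function.update_self] at key
                                exact key
                              -- the scales `X2`
                              exact by
                                have hX2low : ∀ X2 : ℕ, δ ^ n4 * X1 ≤ X2 →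
                                    (S.Q : ℝ) * S.D ^ (s' - σ - n4 * σ) ≤ X2 := by
                                  intro X2 h
                                  exact ((hδQ n4 (s' - σ)).trans (mul_le_mul_of_nonneg_left hX14 (by (clear * - hδp; positivity)))).trans h
                                have hn4σ := hKσ (n4 + 1) (by omega)
                                push_cast at hn4σ
                                -- large frequencies
                                have hLPall : ∀ n2 ≤ n4, ∀ X2 : ℕ, δ ^ n4 * X1 ≤ X2 → X2 ≤ X1 →
                                    ∀ (g0 : ZMod N → ℂ) (g' : Fin m → ZMod N → ℂ), Adm (δ⁻¹ ^ (n2 + r + 2)) S.Q g0 →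
                                    (∀ i, Adm (δ⁻¹ ^ (n2 + r + 2)) S.Q (g' i)) →
                                    ∀ (r' : ZMod N) (cc : ℕ → ℂ) (φ : ℕ → ℝ), (∀ j, ‖cc j‖ ≤ 1) →
                                    (∀ j, |φ j| ≤ δ⁻¹ ^ n2 / X') →
                                    (∀ j, cc j ≠ 0 → δ⁻¹ ^ (CL * (n2 + r + 2)) / X2 ≤ |φ j|) →
                                    ‖form S c 1 g0 (Fin.snoc (α := fun _ => ZMod N → ℂ) g' (bphase X2 r' cc φ))‖ <
                                      δ ^ (n2 + r + 2) := by
                                  intro n2 hn2 X2 h1 h2 g0 g' hg0 hg' r' cc φ hcc hφ1 hφ2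
                                  have hKL := hKσ (n2 + r + 2) (by omega)
                                  have hlow := hX2low X2 h1
                                  refine hL S N lam hDL' hgL (δ ^ (n2 + r + 2)) (hpow _ _ (by (clear * - hμL hKL; linarith))) ?_ ?_ X2 ?_ ?_ ?_
                                    g0 g' ?_ ?_ r' cc φ hcc ?_ ?_
                                  · have h3 : δ ^ (n2 + r + 2) ≤ δ ^ 1 := pow_le_pow_of_le_one hδp.le hδ1' (by omega)
                                    rw [pow_one] at h3
                                    (clear * - hδ1 h3; linarith)
                                  · rw [← inv_pow]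
                                    refine hlam.trans ?_
                                    have := inv_pow_mono hδp hδ1' (show 1 ≤ n2 + r + 2 by omega)
                                    rwa [pow_one] at this
                                  · have h3 : (S.Q : ℝ) ≤ X2 := (hQle _ (by (clear * - hs hμs hn4σ; linarith))).trans hlow
                                    exact_mod_cast h3
                                  · exact (hmonoD _ _ (by (clear * - hμL hn4σ; linarith))).trans hlow
                                  · have h3 : (X2 : ℝ) ≤ X1 := by exact_mod_cast h2
                                    exact h3.trans hX12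
                                  · rw [← inv_pow]; exact hg0
                                  · intro i; rw [← inv_pow]; exact hg' i
                                  · intro j
                                    rw [← inv_pow]
                                    refine (hφ1 j).trans ?_
                                    exact div_le_div₀ (by (clear * - hδp; positivity)) (inv_pow_mono hδp hδ1' (by omega))
                                      (mul_pos hQ0 (Real.rpow_pos_of_pos hDp _)) hX'0s
                                  · intro j hj
                                    rw [← inv_pow, ← pow_mul, mul_comm (n2 + r + 2) CL]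
                                    exact hφ2 j hj
                                have h2inv : (2 : ℝ) ≤ δ⁻¹ := by
                                  rw [le_inv_comm₀ (by norm_num) hδp]; (clear * - hδ1; linarith)
                                have hLPh : ∀ k ≤ r, ∀ n2 ≤ n4, ∀ X2 X'' : ℕ, δ ^ n4 * X1 ≤ X2 → X2 ≤ X1 → 1 ≤ X'' →
                                    X'' ≤ X2 → LPh S.I (Fk67 S c f0 f') k X'' X2 (δ⁻¹ ^ n2 / X')
                                      (δ⁻¹ ^ (CL * (n2 + r + 2)) / X2) (δ ^ n2) := by
                                  intro k hk n2 hn2 X2 X'' h1 h2 _ _ a _ b _ r' cc φ hcc hφ1 hφ2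
                                  rw [form_cube67]
                                  have hB : (2 : ℝ) ^ k * δ⁻¹ ≤ δ⁻¹ ^ (n2 + r + 2) := by
                                    calc (2 : ℝ) ^ k * δ⁻¹ ≤ δ⁻¹ ^ k * δ⁻¹ :=
                                          mul_le_mul_of_nonneg_right (pow_le_pow_left₀ (by norm_num) h2inv k) (by (clear * - hδp; positivity))
                                      _ = δ⁻¹ ^ (k + 1) := by rw [pow_succ]
                                      _ ≤ _ := inv_pow_mono hδp hδ1' (by omega)
                                  refine lt_of_lt_of_le (hLPall n2 hn2 X2 h1 h2 _ _ ?_ ?_ r' cc φ hcc hφ1 hφ2)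
                                    (pow_le_pow_of_le_one hδp.le hδ1' (by omega))
                                  · exact (Adm.cub hQ0 hf0 k a b).mono hB hQ0 le_rfl
                                  · intro i
                                    exact (Adm.cub hQ0 (hf i.castSucc) k a b).mono hB hQ0 le_rfl
                                -- apply `dl_total`
                                have hSI : S.I.Nonempty := by
                                  have h1 : (0 : ℝ) < S.T := (Real.rpow_pos_of_pos hDp _).trans_le hgG.T1
                                  have h2 : 0 < S.T := by exact_mod_cast h1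
                                  exact nonempty_Ico.2 (by omega)
                                have hdata : DLData S.I (Fk67 S c f0 f') ψ u :=
                                  ⟨hSI, norm_Fk_le67 S c f0 f' hf0.bdd (fun i => (hf i.castSucc).bdd), hψ1, hψ2⟩
                                exact by
                                  obtain ⟨X2, hX21, hX22, r', cc, φ, hcc, hφ, hcor⟩ := hn4 N ℕ S.I (Fk67 S c f0 f') ψ u δ X' X1
                                    hdata hδp hδ1 (huX'.mono (inv_pow_mono hδp hδ1' (by omega)) hX'0 le_rfl) hX'1
                                    (by
                                      have h1 := (hδQ n4 (s' - σ)).trans (mul_le_mul_of_nonneg_left hX14 (by positivity))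
                                      have h2 := hmonoD s (s' - σ - n4 * σ) (by (clear * - hμs hn4σ; linarith))
                                      exact hX's.trans (h2.trans h1))
                                    (hX12.trans (hNK n4 (by omega)))
                                    (by
                                      rw [← pow_mul] at hbox
                                      exact (pow_le_pow_of_le_one hδp.le hδ1' (by omega)).trans hbox)
                                    hLPh
                                  have hX2l := hX2low X2 hX21
                                  have hX2Q : (S.Q : ℝ) ≤ X2 := (hQle _ (by (clear * - hs hμs hn4σ; linarith))).trans hX2l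
                                  have hX20 : (0 : ℝ) < X2 := by (clear * - hδ1 hδp hQ1 hX2Q; linarith)
                                  have hX21' : 1 ≤ X2 := by exact_mod_cast hX20
                                  have hX2N' : (X2 : ℝ) ≤ N := by
                                    have h1 : (X2 : ℝ) ≤ X1 := by exact_mod_cast hX22
                                    exact h1.trans (hX12.trans hQs'N)
                                  have hX2N : X2 ≤ N := by exact_mod_cast hX2N'
                                  exact by
                                    set p : ℕ → Prop := fun j => δ⁻¹ ^ G / X2 ≤ |φ j| with hp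
                                    -- the part with large frequencies
                                    have hbig : ‖𝔼 x, u x * bphase X2 r' (fun j => if p j then cc j else 0) φ x‖ ≤
                                        δ ^ (n4 + r + 2) := by
                                      refine big67 S c f0 f' ψ u hψ1 hψ2 X2 r' _ φ _ (by positivity) fun r'' => ?_
                                      refine (hLPall n4 le_rfl X2 hX21 hX22 f0 f' ?_ ?_ r'' _ _ ?_ ?_ ?_).le
                                      · have := inv_pow_mono hδp hδ1' (show 1 ≤ n4 + r + 2 by omega)
                                        rw [pow_one] at this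
                                        exact hf0.mono this hQ0 le_rfl
                                      · intro i
                                        have := inv_pow_mono hδp hδ1' (show 1 ≤ n4 + r + 2 by omega)
                                        rw [pow_one] at this
                                        exact (hf i.castSucc).mono this hQ0 le_rfl
                                      · intro j
                                        simp only [RCLike.norm_conj]
                                        split_ifs
                                        · exact hcc j
                                        · simp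
                                      · intro j
                                        rw [abs_neg]
                                        exact hφ j
                                      · intro j hj
                                        rw [abs_neg, ← hGdef]
                                        by_contra h
                                        apply hj
                                        simp only [hp, if_neg h, map_zero]
                                    have h5low : (S.Q : ℝ) * S.D ^ (s' - κ) ≤ δ ^ (n4 + 2) * (δ ^ n5 * X2) := by
                                      have h1 := hδQ (n4 + 2 + n5) (s' - σ - n4 * σ)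
                                      have h2 := hKσ (2 * n4 + n5 + 3) (by omega)
                                      push_cast at h1 h2
                                      have h3 := hmonoD (s' - κ) (s' - σ - n4 * σ - ((n4 : ℝ) + 2 + n5) * σ) (by (clear * - hμκ h2; linarith))
                                      calc _ ≤ _ := h3
                                        _ ≤ _ := h1
                                        _ ≤ δ ^ (n4 + 2 + n5) * X2 := mul_le_mul_of_nonneg_left hX2l (by positivity)
                                        _ = _ := by rw [pow_add, mul_assoc]
                                    have hx4 : (1 : ℝ) ≤ δ ^ n5 * (X2 : ℝ) := by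
                                      have h1 : δ ^ (n4 + 2) ≤ 1 := pow_le_one₀ hδp.le hδ1'
                                      have h2 : (0 : ℝ) ≤ δ ^ n5 * X2 := by (clear * - hδp hX21'; positivity)
                                      have h3 : (1 : ℝ) ≤ S.Q * S.D ^ (s' - κ) := hQ1.trans (hQle _ (by (clear * - hs hκ0 hκ1; linarith)))
                                      (clear * - h5low h3 h1 h2; nlinarith)
                                    have hend := endgame67 u δ hδp hδ1 hu1 n4 r G n5 hn5 X2 hX21' hX2N r' cc φ hcc p hp hbig hcor
                                      L' huA hx4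
                                    have hq5 : (S.Q : ℝ) * S.D ^ (s' - 2 * κ) < S.Q * S.D ^ (s' - κ) :=
                                      mul_lt_mul_of_pos_left (Real.rpow_lt_rpow_of_exponent_lt (by (clear * - hδ1 hD2 hδp; linarith)) (by (clear * - hκ0; linarith))) hQ0
                                    (clear * - hL'2 h5low hend hq5; linarith)

end

end Pool.Agent.Helper67.NX2

end

section

set_option autoImplicit false

open Finset

open scoped BigOperators ComplexConjugate

namespace Pool.Agent.Helper82.NX

open Pool.Agent.Helper57.NX

noncomputable section

theorem gnc_of (hRd : RoundS) (hSw : SweepS) (m : ℕ) (c : Fin (m + 1) → ℝ) (hc : StrictMono c)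
    (hc0 : ∀ i, 0 < c i) (hcn : ∀ i (n : ℕ), c i ≠ n) (εb : ℝ) (hεb : 0 < εb) :
    ∃ g0 : ℝ, 0 < g0 ∧ ∀ s : ℝ, 0 ≤ s → s ≤ c (Fin.last m) - εb → ∀ s' : ℝ, s' ≤ s + g0 →
      GNCP m c s s' := by
  set cm := c (Fin.last m) with hcm
  set g0 : ℝ := min (εb / 8) (1 / 16) with hg0
  have hg0p : 0 < g0 := lt_min (by (clear * - hεb; linarith)) (by norm_num)
  have hg0a : g0 ≤ εb / 8 := min_le_left _ _
  have hg0b : g0 ≤ 1 / 16 := min_le_right _ _
  refine ⟨g0, hg0p, ?_⟩
  intro s hs0 hs s' hs'
  have hcmp : 0 < cm := hc0 _
  exact by
    obtain ⟨gap, hgap0, hgap⟩ := exists_gap c hc
    -- exponents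
    set mu : ℝ := s + 3 * g0 with hmu
    set r0 : ℕ := ⌈cm⌉₊ + 1 with hr0
    have hr0c : cm + 1 ≤ (r0 : ℝ) := by
      rw [hr0]
      push_cast
      have := Nat.le_ceil cm
      (clear * - this; linarith)
    have hr0p : (0 : ℝ) < r0 := by (clear * - hg0p hg0a hg0b hs0 hs hr0c; linarith)
    set e : ℝ := (cm - mu) / r0 with he
    have her : e * r0 = cm - mu := div_mul_cancel₀ _ hr0p.ne'
    exact by
      have he0 : 0 < e := div_pos (by rw [hmu]; (clear * - hg0p hg0a hs; linarith)) hr0p
      have he1 : e < 1 := by
        rw [he, div_lt_one hr0p, hmu]
        (clear * - hg0p hg0b hs0 hr0c; linarith)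
      set κ : ℝ := g0 / 8 with hκ
      set κ1 : ℝ := min e (min gap 1) / 4 with hκ1
      have hκ1p : 0 < κ1 := by
        rw [hκ1]
        have : 0 < min e (min gap 1) := lt_min he0 (lt_min hgap0 one_pos)
        (clear * - this; linarith)
      have hκ1e : κ1 ≤ e / 4 := by
        rw [hκ1]
        exact div_le_div_of_nonneg_right (min_le_left _ _) (by norm_num)
      exact by
        have hκ1g : κ1 ≤ gap / 4 := by
          rw [hκ1]
          exact div_le_div_of_nonneg_right ((min_le_right _ _).trans (min_le_left _ _)) (by norm_num)
        have hκ11 : κ1 ≤ 1 / 4 := by
          rw [hκ1]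
          exact div_le_div_of_nonneg_right ((min_le_right _ _).trans (min_le_right _ _)) (by norm_num)
        obtain ⟨R, hR⟩ := exists_nat_ge ((cm + 2) / e)
        have hRe : cm + 2 ≤ R * e := by
          rwa [div_le_iff₀ he0] at hR
        -- the rounds and the sweep
        have hγ : ∀ i : ℕ, cm - i ≠ 0 := fun i h => hcn (Fin.last m) i (by rw [← hcm]; (clear * - h; linarith))
        obtain ⟨ν, s₁, hrd⟩ := rounds hRd c cm R r0 (fun i _ => hγ i) (m + 1)
        obtain ⟨n₁, hn₁, hrd⟩ := hrd (m + 1) 2
        obtain ⟨n₃, hsw⟩ := hSw (cm - r0) (hγ r0) n₁
        obtain ⟨C0, hC0, hinit⟩ := init_clu c (2 + ν)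
        set Nm : ℕ := max n₁ n₃ with hNm
        set θ : ℝ := min (κ1 / 2) (min ((1 - e) / 2) (κ / 4)) with hθ
        exact by
          have hθp : 0 < θ := by
            rw [hθ]
            refine lt_min (by (clear * - hκ1p; linarith)) (lt_min (by (clear * - he1; linarith)) ?_)
            rw [hκ]
            (clear * - hg0p; linarith)
          have hθ1 : θ ≤ κ1 / 2 := min_le_left _ _
          have hθ2 : θ ≤ (1 - e) / 2 := (min_le_right _ _).trans (min_le_left _ _)
          have hθ3 : θ ≤ κ / 4 := (min_le_right _ _).trans (min_le_right _ _)
          obtain ⟨D0, hD02, hD0⟩ := exists_D0 θ (2 ^ (r0 + 1) + 2 * ν + 4 * n₁ + C0 + 2) hθp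
          refine ⟨θ, hθp, s₁, n₃ * 2 ^ s₁, θ / (Nm + 1), by (clear * - he0 hgap0 he1 hεb; positivity), D0, ?_⟩
          intro S N _ hDD hG δ hδ hδ2 X hQX hXs f0 f hf0 hf hfX hform X1 hX1 hX1s
          set D := S.D with hDdef
          have hD2 : 2 ≤ D := hD02.trans hDD
          exact by
            have hD1 : 1 ≤ D := by (clear * - hD02 hDD; linarith)
            have hDp : 0 < D := by (clear * - hD02 hDD; linarith)
            have hbig := hD0 D hDD
            have hA1 : (2 : ℝ) ^ (r0 + 1) ≤ D ^ θ := by
              have : (0 : ℝ) ≤ ν := Nat.cast_nonneg _
              have : (0 : ℝ) ≤ n₁ := Nat.cast_nonneg _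
              (clear * - hC0 hbig; linarith)
            have hA2 : 2 * (ν : ℝ) ≤ D ^ θ := by
              have : (0 : ℝ) ≤ 2 ^ (r0 + 1) := by positivity
              have : (0 : ℝ) ≤ n₁ := Nat.cast_nonneg _
              linarith
            have hA3 : 4 * (n₁ : ℝ) ≤ D ^ θ := by
              have : (0 : ℝ) ≤ 2 ^ (r0 + 1) := by positivity
              have : (0 : ℝ) ≤ ν := Nat.cast_nonneg _
              linarith
            exact by
              have hA4 : C0 ≤ D ^ θ := by
                have : (0 : ℝ) ≤ 2 ^ (r0 + 1) := by positivity
                have : (0 : ℝ) ≤ ν := Nat.cast_nonneg _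
                have : (0 : ℝ) ≤ n₁ := Nat.cast_nonneg _
                linarith
              have hA5 : (2 : ℝ) ≤ D ^ θ := by
                have : (0 : ℝ) ≤ 2 ^ (r0 + 1) := by positivity
                have : (0 : ℝ) ≤ ν := Nat.cast_nonneg _
                have : (0 : ℝ) ≤ n₁ := Nat.cast_nonneg _
                linarith
              have pw : ∀ {a b : ℝ}, a ≤ b → D ^ a ≤ D ^ b := fun h =>
                Real.rpow_le_rpow_of_exponent_le hD1 h
              have pp : ∀ a : ℝ, 0 < D ^ a := fun a => Real.rpow_pos_of_pos hDp a
              have pa : ∀ a b : ℝ, D ^ a * D ^ b = D ^ (a + b) := fun a b => (Real.rpow_add hDp a b).symm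
              -- δ
              have hδ0 : 0 < δ := lt_of_lt_of_le (pp _) hδ
              exact by
                have hδ1 : δ ≤ 1 := hδ2.trans (by norm_num)
                have hδn : ∀ n : ℕ, n ≤ Nm → D ^ (-θ) ≤ δ ^ n := by
                  intro n hn
                  refine le_trans ?_ (pow_le_pow_left₀ (pp _).le hδ n)
                  rw [← Real.rpow_natCast, ← Real.rpow_mul hDp.le]
                  refine pw ?_
                  have h1 : (n : ℝ) ≤ Nm + 1 := by
                    have : (n : ℝ) ≤ Nm := by exact_mod_cast hn
                    (clear * - this; linarith)
                  have h2 : θ / (Nm + 1) * n ≤ θ := by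
                    rw [div_mul_eq_mul_div, div_le_iff₀ (by (clear * -; positivity))]
                    exact mul_le_mul_of_nonneg_left h1 hθp.le
                  (clear * - h2; linarith)
                have hδi : ∀ n : ℕ, n ≤ Nm → δ⁻¹ ^ n ≤ D ^ θ := by
                  intro n hn
                  have h1 := hδn n hn
                  rw [Real.rpow_neg hDp.le] at h1
                  rw [inv_pow]
                  exact inv_le_of_inv_le₀ (pp _) h1
                -- M and K
                set M : ℕ := ⌊D ^ (1 - e)⌋₊ with hM
                obtain ⟨hM1, hM2, hM3⟩ := floor_bounds (a := 1 - e) hD1 hA5 (by (clear * - he1 hθ2; linarith))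
                rw [← hM] at hM1 hM2 hM3
                set k : ℝ := 1 - 2 * g0 + κ with hk
                set K : ℕ := ⌊D ^ k⌋₊ with hK
                exact by
                  have hθ8 : θ ≤ 1 / 8 := by (clear * - he1 hκ1e hθ1; linarith)
                  obtain ⟨hK1, hK2, hK3⟩ := floor_bounds (a := k) hD1 hA5 (by rw [hk, hκ]; (clear * - hg0p hg0b he1 hκ1e hθ1; linarith))
                  rw [← hK] at hK1 hK2 hK3
                  -- `Q` and `P`
                  have hQ1 : D ^ (2 : ℝ) ≤ S.Q := hG.Q1
                  have hQp : (0 : ℝ) < S.Q := lt_of_lt_of_le (pp _) hQ1
                  have hQpos : 0 < S.Q := by exact_mod_cast hQp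
                  set Pm := S.P (Fin.last m) with hPm
                  have hPm1 : S.Q * D ^ (cm - θ) ≤ Pm := hG.P1 _
                  exact by
                    have hPm2 : Pm ≤ S.Q * D ^ (cm + θ) := hG.P2 _
                    have hPmp : 0 < Pm := lt_of_lt_of_le (mul_pos hQp (pp _)) hPm1
                    have hP0 : ∀ i, 0 ≤ S.P i := fun i => le_trans (mul_nonneg hQp.le (pp _).le) (hG.P1 i)
                    have hPi : ∀ i, S.P i ≤ S.Q * D ^ (cm + θ) := by
                      intro i
                      refine (hG.P2 i).trans (mul_le_mul_of_nonneg_left (pw ?_) hQp.le)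
                      have : c i ≤ cm := hc.monotone (Fin.le_last i)
                      (clear * - this; linarith)
                    -- `M / D`
                    have hMpos : (0 : ℝ) < M := lt_of_lt_of_le (pp _) hM3
                    have eD : ∀ a : ℝ, D ^ a / D = D ^ (a - 1) := fun a => (Real.rpow_sub_one hDp.ne' a).symm
                    exact by
                      have hMD : (M : ℝ) / D ≤ D ^ (-e) := by
                        have h1 := div_le_div_of_nonneg_right hM1 hDp.le
                        rw [eD] at h1
                        refine h1.trans (le_of_eq ?_)
                        congr 1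
                        ring
                      have hMD' : D ^ (-e) / 2 ≤ (M : ℝ) / D := by
                        have h1 := div_le_div_of_nonneg_right hM2 hDp.le
                        rw [div_right_comm, eD] at h1
                        refine le_trans (le_of_eq ?_) h1
                        congr 2
                        ring
                      have hpow : ∀ j : ℕ, (D ^ (-e)) ^ j = D ^ (-(e * j)) := by
                        intro j
                        rw [← Real.rpow_natCast, ← Real.rpow_mul hDp.le]
                        congr 1
                        ring
                      have hMDj : ∀ j : ℕ, ((M : ℝ) / D) ^ j ≤ D ^ (-(e * j)) := by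
                        intro j
                        rw [← hpow]
                        exact pow_le_pow_left₀ (by (clear * - hMpos hD2; positivity)) hMD j
                      have hMDr : D ^ (-(e * r0)) / 2 ^ r0 ≤ ((M : ℝ) / D) ^ r0 := by
                        rw [← hpow, ← div_pow]
                        exact pow_le_pow_left₀ (by (clear * - hD2; positivity)) hMD' r0
                      -- `lam`
                      set lam : ℝ := Pm * ((M : ℝ) / D) ^ r0 with hlam
                      exact by
                        have hlamp : 0 < lam := by (clear * - hPmp hMpos hD2; positivity)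
                        have hl1 : S.Q * D ^ (mu - θ) / 2 ^ r0 ≤ lam := by
                          have h1 : S.Q * D ^ (mu - θ) / 2 ^ r0 =
                              (S.Q * D ^ (cm - θ)) * (D ^ (-(e * r0)) / 2 ^ r0) := by
                            have : mu - θ = (cm - θ) + -(e * r0) := by rw [her]; ring
                            rw [this, ← pa]
                            ring
                          rw [h1, hlam]
                          exact mul_le_mul hPm1 hMDr (by positivity) hPmp.le
                        have hl2 : lam ≤ S.Q * D ^ (mu + θ) := by
                          have h1 : S.Q * D ^ (mu + θ) = (S.Q * D ^ (cm + θ)) * D ^ (-(e * r0)) := by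
                            have : mu + θ = (cm + θ) + -(e * r0) := by rw [her]; ring
                            rw [this, ← pa]
                            ring
                          rw [h1, hlam]
                          exact mul_le_mul hPm2 (hMDj r0) (by (clear * - hMpos hD2; positivity)) (mul_nonneg hQp.le (pp _).le)
                        -- `w`
                        set w : ℝ := D ^ (-κ1) with hw
                        have hw0 : 0 < w := pp _
                        have hT : D ^ (1 - θ) ≤ S.T := hG.T1
                        exact by
                          have hδNm := hδn Nm le_rfl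
                          have hEnv : Env S N δ M R w Nm :=
                            { ρ0 := hG.ρ0
                              ρ1 := hG.ρ1
                              D1 := hD1
                              δ0 := hδ0
                              δ1 := hδ2
                              u1 := hG.u1
                              u2 := hG.u2
                              MT := by
                                refine hM1.trans ?_
                                calc D ^ (1 - e) ≤ D ^ (-θ + (1 - θ)) := pw (by (clear * - hκ1e hθp hθ1; linarith))
                                  _ = D ^ (-θ) * D ^ (1 - θ) := (pa _ _).symm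
                                  _ ≤ δ ^ Nm * S.T := mul_le_mul hδNm hT (pp _).le (pow_pos hδ0 _).le
                              M1 := (hδi Nm le_rfl).trans (le_trans (pw (by (clear * - hθ2; linarith))) hM3)
                              MD := hMD.trans (pw (by (clear * - hκ1e hθp hθ1; linarith)))
                              w1 := le_trans (pw (by (clear * - hθp hθ1; linarith))) hδNm
                              P0 := hP0
                              PR := by
                                intro i
                                calc S.P i * ((M : ℝ) / D) ^ R ≤ (S.Q * D ^ (cm + θ)) * D ^ (-(e * R)) :=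
                                      mul_le_mul (hPi i) (hMDj R) (by (clear * - hMpos hD2; positivity)) (mul_nonneg hQp.le (pp _).le)
                                  _ = S.Q * D ^ (cm + θ + -(e * R)) := by rw [mul_assoc, pa]
                                  _ ≤ S.Q * D ^ (-κ1) := by
                                      refine mul_le_mul_of_nonneg_left (pw ?_) hQp.le
                                      have : e * R = R * e := mul_comm _ _
                                      (clear * - hg0p hg0b he1 hκ1e hRe hθ1; linarith)
                                  _ = w * S.Q := mul_comm _ _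
                              wQ := by
                                calc (1 : ℝ) = D ^ (0 : ℝ) := (Real.rpow_zero D).symm
                                  _ ≤ D ^ (-κ1 + 2) := pw (by (clear * - hg0p hg0b he1 hκ1e; linarith))
                                  _ = D ^ (-κ1) * D ^ (2 : ℝ) := (pa _ _).symm
                                  _ ≤ w * S.Q := mul_le_mul_of_nonneg_left hQ1 hw0.le
                              QN := hG.N2 }
                          -- `ν M ≤ D / 2`, `n₁ M ≤ D / 4`
                          have hMθ : D ^ θ * M ≤ D := by
                            calc D ^ θ * M ≤ D ^ θ * D ^ (1 - e) := mul_le_mul_of_nonneg_left hM1 (pp _).le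
                              _ = D ^ (θ + (1 - e)) := pa _ _
                              _ ≤ D ^ (1 : ℝ) := pw (by (clear * - hκ1e hθp hθ1; linarith))
                              _ = D := Real.rpow_one D
                          have hνM : (ν : ℝ) * M ≤ D / 2 := by
                            have := mul_le_mul_of_nonneg_right hA2 hMpos.le
                            (clear * - hMθ this; linarith)
                          have hn₁M : (n₁ : ℝ) * M ≤ D / 4 := by
                            have := mul_le_mul_of_nonneg_right hA3 hMpos.le
                            (clear * - hMθ this; linarith)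
                          -- the initial list
                          have hclu := hinit S hD1 hG.ρ0 hG.ρ1 δ M (5 / 2 * D + ν * M) w hδ0 hδ1 (by (clear * - hD02 hDD hνM; linarith)) hw0.le
                            hPmp.le (fun i => ⟨hP0 _, by
                              calc C0 * S.P i.castSucc ≤ D ^ θ * (S.Q * D ^ (c i.castSucc + θ)) :=
                                    mul_le_mul hA4 (hG.P2 _) (hP0 _) (pp _).le
                                _ = S.Q * D ^ (θ + (c i.castSucc + θ)) := by rw [← pa θ]; ring
                                _ ≤ S.Q * D ^ ((cm - θ) + -κ1) := by
                                    refine mul_le_mul_of_nonneg_left (pw ?_) hQp.le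
                                    have := hgap i
                                    (clear * - hκ1g hθp hθ1 this; linarith)
                                _ = (S.Q * D ^ (cm - θ)) * w := by rw [← pa]; ring
                                _ ≤ Pm * w := mul_le_mul_of_nonneg_right hPm1 hw0.le⟩)
                          exact by
                            have hadm : ∀ {B' : ℝ} {g : ZMod N → ℂ}, Adm δ⁻¹ B' g → 0 < B' → ∀ n : ℕ, 1 ≤ n →
                                Adm (δ⁻¹ ^ n) B' g := by
                              intro B' g hg hB' n hn
                              refine Adm.mono' hg hB' ?_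
                              have := inv_pow_mono hδ0 hδ1 hn
                              rwa [pow_one] at this
                            have hform' : δ ^ (m + 1) ≤ ‖lform S c 1 ((f (Fin.last m), Finsupp.single ([], Fin.last m) 1) ::
                                (f0, 0) :: List.ofFn fun i : Fin m =>
                                  (f i.castSucc, (Finsupp.single (([] : List ℕ), i.castSucc) (1 : ℤ) : Phi (m + 1))))‖ := by
                              rw [← form_eq_lform]
                              refine le_trans ?_ hform
                              have := pow_anti hδ0 hδ1 (show 1 ≤ m + 1 by (clear * - c εb s n₁ n₃ S X1; omega))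
                              rwa [pow_one] at this
                            obtain ⟨g0', t', _, ht'2, ht'3, ht'4, ht'5⟩ := hrd S N δ (5 / 2 * D) Pm w M
                              (Env.mono hEnv (le_max_left _ _)) hQpos hw0.le hPmp (by (clear * - hνM; linarith)) (f (Fin.last m))
                              (Finsupp.single ([], Fin.last m) 1)
                              ((f0, 0) :: List.ofFn fun i : Fin m =>
                                  (f i.castSucc, (Finsupp.single (([] : List ℕ), i.castSucc) (1 : ℤ) : Phi (m + 1))))
                              (by simp) (hadm (hf _) hQp _ (by omega))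
                              (by
                                intro fp hfp
                                rw [List.mem_cons, List.mem_ofFn] at hfp
                                rcases hfp with rfl | ⟨i, rfl⟩
                                · exact hadm hf0 hQp _ (by omega)
                                · exact hadm (hf _) hQp _ (by omega))
                              (by
                                rw [List.map_cons, List.map_ofFn]
                                exact hclu) hform'
                            -- the scale `X'`
                            set X' : ℝ := min X (S.Q * D ^ s) with hX'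
                            have hX'Q : (S.Q : ℝ) ≤ X' := by
                              refine le_min hQX ?_
                              have : (1 : ℝ) ≤ D ^ s := Real.one_le_rpow hD1 hs0
                              exact le_mul_of_one_le_right hQp.le this
                            have hX'p : 0 < X' := lt_of_lt_of_le hQp hX'Q
                            have hX's : S.Q * D ^ (s - θ) ≤ X' := by
                              refine le_min (le_trans ?_ hXs) (mul_le_mul_of_nonneg_left (pw (by (clear * - hθp; linarith))) hQp.le)
                              refine mul_le_mul_of_nonneg_left (pw ?_) hQp.le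
                              have : θ / ((Nm : ℝ) + 1) ≤ θ := div_le_self hθp.le (by
                                have : (0 : ℝ) ≤ Nm := Nat.cast_nonneg _
                                (clear * -; linarith))
                              (clear * - this; linarith)
                            exact by
                              have hX's2 : X' ≤ S.Q * D ^ s := min_le_right _ _
                              have hfX' : Adm (δ⁻¹ ^ n₁) X' (f (Fin.last m)) := by
                                refine hadm ⟨hfX.bdd, ?_⟩ hX'p _ (by omega)
                                exact TV.mono hfX.tv le_rfl hX'p (min_le_left _ _)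
                              have hδ3 := hδn n₃ (le_max_right _ _)
                              have hδ3p : 0 < δ ^ n₃ := pow_pos hδ0 _
                              -- lower bound for `lam K / D`
                              have hKD1 : (K : ℝ) / D ≤ D ^ (k - 1) := by
                                have h1 := div_le_div_of_nonneg_right hK1 hDp.le
                                rwa [eD] at h1
                              have hKD2 : D ^ (k - 1) / 2 ≤ (K : ℝ) / D := by
                                have h1 := div_le_div_of_nonneg_right hK2 hDp.le
                                rwa [div_right_comm, eD] at h1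
                              exact by
                                have hlow : S.Q * D ^ (s + g0) ≤ δ ^ n₃ * (lam * ((K : ℝ) / D)) := by
                                  calc S.Q * D ^ (s + g0) ≤ S.Q * D ^ (-θ + (mu - θ) + (k - 1) + -θ) := by
                                        refine mul_le_mul_of_nonneg_left (pw ?_) hQp.le
                                        rw [hmu, hk]
                                        (clear * - hθp hθ3; linarith)
                                    _ = D ^ (-θ) * ((S.Q * D ^ (mu - θ)) * D ^ (k - 1)) * D ^ (-θ) := by
                                        rw [← pa, ← pa, ← pa]; ring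
                                    _ ≤ D ^ (-θ) * ((S.Q * D ^ (mu - θ)) * D ^ (k - 1)) * (1 / 2 ^ (r0 + 1)) := by
                                        refine mul_le_mul_of_nonneg_left ?_ (by (clear * - hD2 hQpos; positivity))
                                        rw [Real.rpow_neg hDp.le, one_div]
                                        exact inv_anti₀ (by positivity) hA1
                                    _ = D ^ (-θ) * ((S.Q * D ^ (mu - θ) / 2 ^ r0) * (D ^ (k - 1) / 2)) := by
                                        rw [pow_succ]
                                        (clear * - hD2 hQpos; field_simp)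
                                    _ ≤ δ ^ n₃ * (lam * ((K : ℝ) / D)) := by
                                        refine mul_le_mul hδ3 (mul_le_mul hl1 hKD2 (by (clear * - hD2; positivity)) hlamp.le) (by (clear * - hQpos hD2; positivity))
                                          hδ3p.le
                                have hbox := hsw (m + 1) S c N δ (5 / 2 * D) lam w X' M R K (Env.mono hEnv (le_max_right _ _))
                                  hlamp le_rfl (by (clear * - hD02 hDD; linarith)) (f (Fin.last m)) g0' t' hfX' (ht'2 (by omega)) ht'4 hn₁M ht'5
                                  (by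
                                    refine (hδi n₃ (le_max_right _ _)).trans (le_trans (pw ?_) hK3)
                                    rw [hk]
                                    (clear * - hg0b hθp hθ3; linarith))
                                  (by
                                    refine hK1.trans ?_
                                    calc D ^ k ≤ D ^ (-θ + (1 - θ)) := pw (by rw [hk]; (clear * - hκ hθp hθ3; linarith))
                                      _ = D ^ (-θ) * D ^ (1 - θ) := (pa _ _).symm
                                      _ ≤ δ ^ n₃ * S.T := mul_le_mul hδ3 hT (pp _).le hδ3p.le)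
                                  (by
                                    calc lam * ((K : ℝ) / D) ^ 2 ≤ (S.Q * D ^ (mu + θ)) * (D ^ (k - 1)) ^ 2 := by
                                          refine mul_le_mul hl2 (pow_le_pow_left₀ (by (clear * - hD2; positivity)) hKD1 2) (by (clear * -; positivity))
                                            (mul_nonneg hQp.le (pp _).le)
                                      _ = S.Q * D ^ ((mu + θ) + ((k - 1) + (k - 1))) := by
                                          rw [← pa (mu + θ), ← pa (k - 1)]; ring
                                      _ ≤ S.Q * D ^ (-θ + (s - θ)) := by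
                                          refine mul_le_mul_of_nonneg_left (pw ?_) hQp.le
                                          rw [hmu, hk]
                                          (clear * - hκ hθp hθ3; linarith)
                                      _ = D ^ (-θ) * (S.Q * D ^ (s - θ)) := by rw [← pa]; ring
                                      _ ≤ δ ^ n₃ * X' := mul_le_mul hδ3 hX's (by (clear * - hQpos hD2; positivity)) hδ3p.le)
                                  (by
                                    calc lam / D ≤ (S.Q * D ^ (mu + θ)) / D := div_le_div_of_nonneg_right hl2 hDp.le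
                                      _ = S.Q * D ^ (mu + θ - 1) := by rw [mul_div_assoc, eD]
                                      _ ≤ S.Q * D ^ (-θ + (s - θ)) := by
                                          refine mul_le_mul_of_nonneg_left (pw ?_) hQp.le
                                          rw [hmu]
                                          (clear * - hg0p hg0b he1 hκ1e hθ1; linarith)
                                      _ = D ^ (-θ) * (S.Q * D ^ (s - θ)) := by rw [← pa]; ring
                                      _ ≤ δ ^ n₃ * X' := mul_le_mul hδ3 hX's (by (clear * - hQpos hD2; positivity)) hδ3p.le)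
                                  (by
                                    calc (1 : ℝ) = D ^ (0 : ℝ) := (Real.rpow_zero D).symm
                                      _ ≤ D ^ (-θ + 2) := pw (by (clear * - hg0p hg0b he1 hκ1e hθ1; linarith))
                                      _ = D ^ (-θ) * D ^ (2 : ℝ) := (pa _ _).symm
                                      _ ≤ δ ^ n₃ * X' := mul_le_mul hδ3 (hQ1.trans hX'Q) (pp _).le hδ3p.le)
                                  (by
                                    refine hX's2.trans ?_
                                    have h1 : S.Q * D ^ (cm - θ) ≤ N * D ^ θ := hPm1.trans (hG.N1 _)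
                                    have h2 : S.Q * D ^ (cm - θ - θ) ≤ N := by
                                      have h3 := mul_le_mul_of_nonneg_right h1 (pp (-θ)).le
                                      rw [mul_assoc, pa, mul_assoc, pa] at h3
                                      have h4 : θ + -θ = 0 := by ring
                                      rw [h4, Real.rpow_zero, mul_one] at h3
                                      refine le_trans (le_of_eq ?_) h3
                                      congr 2
                                    refine le_trans (mul_le_mul_of_nonneg_left (pw ?_) hQp.le) h2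
                                    (clear * - hg0p hg0a hs hκ hθ3; linarith))
                                  (by
                                    refine hX's2.trans (le_trans (mul_le_mul_of_nonneg_left (pw ?_) hQp.le) hlow)
                                    (clear * - hg0p; linarith))
                                  X1 hX1
                                  (by
                                    refine hX1s.trans (le_trans (mul_le_mul_of_nonneg_left (pw ?_) hQp.le) hlow)
                                    (clear * - hs'; linarith))
                                exact Box_raise _ _ _ ht'3 hX1 hfX.bdd hδ0 hδ1 _ hbox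

end

end Pool.Agent.Helper82.NX

end

section

set_option autoImplicit false

open Finset

open scoped BigOperators ComplexConjugate

namespace Pool.Agent.Helper67.NX2

open Pool.Agent.Helper57.NX

noncomputable section

theorem form_replace' (m : ℕ) (c : Fin m → ℝ) (hU : ∀ ε : ℝ, 0 < ε → UPm m c ε) :
    ∀ ε : ℝ, 0 < ε → ∃ x0 : ℝ, 0 < x0 ∧ ∃ σ : ℝ, 0 < σ ∧ ∀ lam : ℕ, ∃ D0 : ℝ,
    ∀ (S : Sys m) (N : ℕ) [NeZero N], D0 ≤ S.D → IG S c N x0 lam →
    ∀ (f0 : ZMod N → ℂ) (f : Fin m → ZMod N → ℂ), Adm 8 S.Q f0 → (∀ i, Adm 8 S.Q (f i)) →
    ∀ L : Fin m → ℕ, (∀ i, 1 ≤ L i ∧ (L i : ℝ) ≤ S.P i * S.D ^ (-ε)) →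
    ‖form S c 1 f0 f - form S c 1 f0 (fun i x => (open scoped Classical in
      if IsN (c i) then f i x else A (L i) (f i) x))‖ ≤ S.D ^ (-σ) := by
  intro ε hε
  obtain ⟨x0, hx0, C, σ', hσ', D0, h⟩ := hU (ε / 2) (by (clear * - hε; linarith))
  set σ1 : ℝ := min σ' (ε / (4 * (C + 1))) with hσ1
  have hC1 : (0 : ℝ) < 4 * (C + 1) := by positivity
  have hσ10 : 0 < σ1 := lt_min hσ' (by positivity)
  have hσ1C : σ1 * C ≤ ε / 4 := by
    have h1 : σ1 ≤ ε / (4 * (C + 1)) := min_le_right _ _
    have h2 : σ1 * (4 * (C + 1)) ≤ ε := by rwa [le_div_iff₀ hC1] at h1
    (clear * - hσ10 h2; nlinarith)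
  have ht1 := (tendsto_rpow_atTop hσ10).eventually_ge_atTop 8
  have ht2 := (tendsto_rpow_atTop (show (0 : ℝ) < ε / 4 by linarith)).eventually_gt_atTop 2
  exact by
    have ht3 := (tendsto_rpow_atTop (show (0 : ℝ) < σ1 / 2 by linarith)).eventually_ge_atTop (2 * m)
    refine ⟨x0, hx0, σ1 / 2, by linarith, ?_⟩
    intro lam
    have ht4 := (tendsto_rpow_atTop hσ10).eventually_ge_atTop (lam : ℝ)
    obtain ⟨D1, hD1⟩ := Filter.eventually_atTop.mp (((ht1.and ht2).and ht3).and ht4)
    refine ⟨max D0 (max D1 1), ?_⟩
    intro S N _ hD hG f0 f hf0 hf L hL
    have hDD0 : D0 ≤ S.D := (le_max_left _ _).trans hD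
    have hDD1 : D1 ≤ S.D := ((le_max_left _ _).trans (le_max_right _ _)).trans hD
    have hDone : 1 ≤ S.D := ((le_max_right _ _).trans (le_max_right _ _)).trans hD
    have hDpos : 0 < S.D := by (clear * - hDone; linarith)
    exact by
      obtain ⟨⟨⟨hd1, hd2⟩, hd3⟩, hd4⟩ := hD1 S.D hDD1
      have hQpos : (0 : ℝ) < S.Q := lt_of_lt_of_le (by positivity) hG.good.Q1
      set δ : ℝ := S.D ^ (-σ1) with hδ
      have hδ0 : 0 < δ := by positivity
      have hδinv : δ⁻¹ = S.D ^ σ1 := by rw [hδ, Real.rpow_neg hDpos.le, inv_inv]
      have hδ8 : 8 ≤ δ⁻¹ := by rw [hδinv]; exact hd1
      have hδlam : (lam : ℝ) ≤ δ⁻¹ := by rw [hδinv]; exact hd4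
      exact by
        have hδle : δ ≤ 1 / 2 := by
          have h1 : δ * δ⁻¹ = 1 := mul_inv_cancel₀ hδ0.ne'
          (clear * - hδ0 h1 hd1 hδinv; nlinarith)
        have hδσ : S.D ^ (-σ') ≤ δ :=
          Real.rpow_le_rpow_of_exponent_le hDone (neg_le_neg (min_le_left _ _))
        have hδC : S.D ^ (-(ε / 4)) ≤ δ ^ C := by
          rw [hδ, ← Real.rpow_natCast, ← Real.rpow_mul hDpos.le]
          exact Real.rpow_le_rpow_of_exponent_le hDone (by (clear * - hσ1C; linarith))
        have hm0 : Adm δ⁻¹ S.Q f0 := hf0.mono hδ8 hQpos le_rfl
        have hadmA : ∀ i, Adm 8 S.Q (A (L i) (f i)) := fun i => ⟨norm_A_le (hf i).bdd _, (hf i).tv.avg _⟩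
        have hhyb : ∀ t i, Adm 8 S.Q (hyf c f L t i) := by
          intro t i
          unfold hyf
          split_ifs
          · exact hadmA i
          · exact hf i
        have key : ∀ i : Fin m, ‖form S c 1 f0 (hyf c f L i) - form S c 1 f0 (hyf c f L (i + 1))‖ ≤ 2 * δ := by
          intro i
          by_cases hiN : IsN (c i)
          · rw [hyf_succ_nat c f L i hiN, sub_self, norm_zero]
            positivity
          set w : ZMod N → ℂ := fun x => (1 / 2 : ℂ) * (f i x - A (L i) (f i) x) with hw
          have hwadm : Adm 8 S.Q w := by
            refine ⟨fun x => ?_, ?_⟩
            · rw [hw]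
              simp only [norm_mul]
              have h1 : ‖f i x - A (L i) (f i) x‖ ≤ 1 + 1 :=
                (norm_sub_le _ _).trans (add_le_add ((hf i).bdd x) ((hadmA i).bdd x))
              have h2 : ‖(1 / 2 : ℂ)‖ = 1 / 2 := by norm_num
              rw [h2]; (clear * - h1; linarith)
            · have h1 := ((hf i).tv.sub (hadmA i).tv).smul (1 / 2 : ℂ)
              have h2 : ‖(1 / 2 : ℂ)‖ * (8 + 8) = (8 : ℝ) := by norm_num
              rw [h2] at h1
              exact h1
          have hdiff : form S c 1 f0 (hyf c f L i) - form S c 1 f0 (hyf c f L (i + 1)) =
              2 * form S c 1 f0 (Function.update (hyf c f L i) i w) := by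
            rw [hw, form_update_smul, form_update_sub, ← hyf_succ c f L i hiN, ← hyf_self]
            ring
          rw [hdiff, norm_mul]
          have h2 : ‖(2 : ℂ)‖ = 2 := by norm_num
          rw [h2]
          refine mul_le_mul_of_nonneg_left ?_ (by norm_num)
          by_contra hcon
          push Not at hcon
          have hadm : ∀ j, Adm δ⁻¹ S.Q (Function.update (hyf c f L i) i w j) := by
            intro j
            by_cases hj : j = i
            · subst hj
              rw [Function.update_self]
              exact hwadm.mono hδ8 hQpos le_rfl
            · rw [Function.update_of_ne hj]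
              exact (hhyb i j).mono hδ8 hQpos le_rfl
          obtain ⟨hLi1, hLi2⟩ := hL i
          have hLi1' : (1 : ℝ) ≤ L i := by exact_mod_cast hLi1
          have hPpos : 0 < S.P i := by
            have h3 : 0 < S.P i * S.D ^ (-ε) := by (clear * - hδ0 hδle hLi2 hLi1'; linarith)
            exact pos_of_mul_pos_left h3 (by positivity)
          set y : ℝ := S.P i * S.D ^ (-(ε / 2)) with hy
          have hyL : (L i : ℝ) * S.D ^ (ε / 2) ≤ y := by
            have h3 : S.D ^ (-(ε / 2)) = S.D ^ (-ε) * S.D ^ (ε / 2) := by
              rw [← Real.rpow_add hDpos]; congr 1; ring
            rw [hy, h3, ← mul_assoc]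
            exact mul_le_mul_of_nonneg_right hLi2 (by positivity)
          have hDe : 1 ≤ S.D ^ (ε / 2) := Real.one_le_rpow hDone (by (clear * - hε; linarith))
          have hy1 : 1 ≤ y := by (clear * - hLi1' hyL hDe; nlinarith)
          have hfl1 : 1 ≤ ⌊y⌋₊ := Nat.one_le_floor_iff _ |>.mpr hy1
          have hfl2 : y / 2 ≤ (⌊y⌋₊ : ℝ) := by
            have h3 := Nat.lt_floor_add_one y
            have h4 : (1 : ℝ) ≤ (⌊y⌋₊ : ℝ) := by exact_mod_cast hfl1
            (clear * - h3 h4; linarith)
          obtain ⟨q, hq1, hq2, h5'⟩ := h S N lam hDD0 hG δ hδσ hδle hδlam f0
            (Function.update (hyf c f L i) i w) hm0 hadm hcon.le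
          have h5 := h5' i ⌊y⌋₊ hfl1 (by
            rw [stp_not_fr _ _ hiN, Nat.cast_one, mul_one]
            exact Nat.floor_le (by (clear * - hδ0 hδle hy1; linarith)))
          rw [Function.update_self, stp_not_fr _ _ hiN, Aq_one_fr] at h5
          have h6 : nrm (A ⌊y⌋₊ w) ≤ (L i : ℝ) / ⌊y⌋₊ := by
            unfold nrm
            refine expect_le_of5 _ _ (by (clear * - hLi1 hfl1; positivity)) fun x _ => ?_
            have h7 : A ⌊y⌋₊ w x = (1 / 2 : ℂ) * A ⌊y⌋₊ (fun z => f i z - A (L i) (f i) z) x := by
              rw [hw]
              unfold A
              rw [Finset.mul_expect]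
            rw [h7, norm_mul]
            have h8 := A_small (hf i).bdd ⌊y⌋₊ (L i) hfl1 hLi1 x
            have h9 : ‖(1 / 2 : ℂ)‖ = 1 / 2 := by norm_num
            rw [h9]
            calc 1 / 2 * ‖A ⌊y⌋₊ (fun z => f i z - A (L i) (f i) z) x‖ ≤ 1 / 2 * (2 * L i / ⌊y⌋₊) :=
                  mul_le_mul_of_nonneg_left h8 (by norm_num)
              _ = (L i : ℝ) / ⌊y⌋₊ := by ring
          have hypos : 0 < y := by (clear * - hδ0 hδle hy1; linarith)
          have hflpos : (0 : ℝ) < ⌊y⌋₊ := by (clear * - hδ0 hδle hy1 hfl2; linarith)
          have h10 : (L i : ℝ) / ⌊y⌋₊ ≤ 2 * S.D ^ (-(ε / 2)) := by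
            rw [div_le_iff₀ hflpos]
            have h11 : S.D ^ (-(ε / 2)) * S.D ^ (ε / 2) = 1 := by
              rw [← Real.rpow_add hDpos, neg_add_cancel, Real.rpow_zero]
            have h12 : (0 : ℝ) < S.D ^ (-(ε / 2)) := by positivity
            calc (L i : ℝ) = (L i * S.D ^ (ε / 2)) * S.D ^ (-(ε / 2)) := by
                  rw [mul_assoc, mul_comm (S.D ^ (ε / 2)), h11, mul_one]
              _ ≤ y * S.D ^ (-(ε / 2)) := mul_le_mul_of_nonneg_right hyL h12.le
              _ ≤ (2 * ⌊y⌋₊) * S.D ^ (-(ε / 2)) :=
                  mul_le_mul_of_nonneg_right (by (clear * - hfl2; linarith)) h12.le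
              _ = 2 * S.D ^ (-(ε / 2)) * ⌊y⌋₊ := by ring
          have h13 : S.D ^ (-(ε / 4)) ≤ 2 * S.D ^ (-(ε / 2)) := hδC.trans (h5.trans (h6.trans h10))
          have h14 : S.D ^ (-(ε / 4)) * S.D ^ (ε / 2) = S.D ^ (ε / 4) := by
            rw [← Real.rpow_add hDpos]; congr 1; ring
          have h15 : S.D ^ (-(ε / 2)) * S.D ^ (ε / 2) = 1 := by
            rw [← Real.rpow_add hDpos, neg_add_cancel, Real.rpow_zero]
          have h16 : (0 : ℝ) < S.D ^ (ε / 2) := by positivity
          have h17 := mul_le_mul_of_nonneg_right h13 h16.le
          rw [h14, mul_assoc, h15, mul_one] at h17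
          (clear * - hd2 h17; linarith)
        have htel : ‖form S c 1 f0 (hyf c f L 0) - form S c 1 f0 (hyf c f L m)‖ ≤ m * (2 * δ) := by
          have h1 := dist_le_range_sum_dist (fun t => form S c 1 f0 (hyf c f L t)) m
          rw [dist_eq_norm] at h1
          refine h1.trans ?_
          refine (sum_le_card_nsmul _ _ (2 * δ) fun t ht => ?_).trans (le_of_eq ?_)
          · rw [dist_eq_norm]
            exact key ⟨t, mem_range.mp ht⟩
          · rw [card_range, nsmul_eq_mul]
        exact by
          rw [hyf_zero, hyf_last] at htel
          refine htel.trans ?_
          have h18 : δ = S.D ^ (-(σ1 / 2)) * S.D ^ (-(σ1 / 2)) := by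
            rw [hδ, ← Real.rpow_add hDpos]; congr 1; ring
          have h19 : S.D ^ (-(σ1 / 2)) * S.D ^ (σ1 / 2) = 1 := by
            rw [← Real.rpow_add hDpos, neg_add_cancel, Real.rpow_zero]
          have h20 : (0 : ℝ) < S.D ^ (-(σ1 / 2)) := by positivity
          calc (m : ℝ) * (2 * δ) = (2 * m) * S.D ^ (-(σ1 / 2)) * S.D ^ (-(σ1 / 2)) := by rw [h18]; ring
            _ ≤ S.D ^ (σ1 / 2) * S.D ^ (-(σ1 / 2)) * S.D ^ (-(σ1 / 2)) := by (clear * - hd3 hDone; gcongr)
            _ = S.D ^ (-(σ1 / 2)) := by rw [mul_comm (S.D ^ (σ1 / 2)), h19, one_mul]

end

end Pool.Agent.Helper67.NX2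

end
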