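import Pool.Agent.Helper23.MC.L02_a1
import Pool.Agent.Helper23.MC.L02_a12
import Pool.Agent.Helper23.MC.L02_a2
import Pool.Agent.Helper23.MC.L02_a3
import Pool.Agent.Helper23.MC.L02_a4
import Pool.Agent.Helper23.MC.L02_a7
import Pool.Agent.Helper23.MC.L02_a8

/-!
Parts of Helper46.NX2.LpAlign, Helper67.NX.TopStepAux, Helper67.NX.TopStep, Helper67.NX2.PartA, Helper99.NX.LpLocal, Helper57.NX.Final
-/

attribute [local instance 5000]
  Pool.Agent.Helper23.MC.Inst.rCharZero Pool.Agent.Helper23.MC.Inst.rALM
  Pool.Agent.Helper23.MC.Inst.rARM Pool.Agent.Helper23.MC.Inst.rALSM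
  Pool.Agent.Helper23.MC.Inst.rARSM Pool.Agent.Helper23.MC.Inst.rARRLE
  Pool.Agent.Helper23.MC.Inst.rALRLE Pool.Agent.Helper23.MC.Inst.rARRLT
  Pool.Agent.Helper23.MC.Inst.rALRLT Pool.Agent.Helper23.MC.Inst.rPMRLT
  Pool.Agent.Helper23.MC.Inst.rMPRLT Pool.Agent.Helper23.MC.Inst.rPMM
  Pool.Agent.Helper23.MC.Inst.rMPM Pool.Agent.Helper23.MC.Inst.rPMSM
  Pool.Agent.Helper23.MC.Inst.rMPSM Pool.Agent.Helper23.MC.Inst.rEAOL
  Pool.Agent.Helper23.MC.Inst.rIOR Pool.Agent.Helper23.MC.Inst.rISOR
  Pool.Agent.Helper23.MC.Inst.rNZD Pool.Agent.Helper23.MC.Inst.rcCharZero
  Pool.Agent.Helper23.MC.Inst.rcNZD Pool.Agent.Helper23.MC.Inst.zCharZero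
  Pool.Agent.Helper23.MC.Inst.zALM Pool.Agent.Helper23.MC.Inst.zARM
  Pool.Agent.Helper23.MC.Inst.zALSM Pool.Agent.Helper23.MC.Inst.zARSM
  Pool.Agent.Helper23.MC.Inst.zIOR Pool.Agent.Helper23.MC.Inst.zISOR
  Pool.Agent.Helper23.MC.Inst.zNZD Pool.Agent.Helper23.MC.Inst.qCharZero
  Pool.Agent.Helper23.MC.Inst.mR Pool.Agent.Helper23.MC.Inst.mC Pool.Agent.Helper23.MC.Inst.mRC
  Pool.Agent.Helper23.MC.Inst.rPSM Pool.Agent.Helper23.MC.Inst.rCSM
  Pool.Agent.Helper23.MC.Inst.cAdd Pool.Agent.Helper23.MC.Inst.cAddM
  Pool.Agent.Helper23.MC.Inst.cMul Pool.Agent.Helper23.MC.Inst.cMon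

namespace Pool.Agent.Helper57.NX
end Pool.Agent.Helper57.NX
namespace Pool.Agent.Helper67.NX2
end Pool.Agent.Helper67.NX2

section

set_option autoImplicit false

open Finset

open scoped BigOperators ComplexConjugate

namespace Pool.Agent.Helper67.NX2

open Pool.Agent.Helper57.NX

noncomputable section

theorem lp_align' (m : ℕ) (c : Fin (m + 1) → ℝ) (s ε : ℝ) (hs : 0 ≤ s) (hε : 0 < ε)
    (hT : TopPm m c s ε) :
    ∃ x0 : ℝ, 0 < x0 ∧ ∃ C : ℕ, ∃ σ : ℝ, 0 < σ ∧ ∃ D0 : ℝ,
    ∀ (S : Sys (m + 1)) (N : ℕ) [NeZero N] (lam : ℕ), D0 ≤ S.D → IG S c N x0 lam →
    ∀ δ : ℝ, S.D ^ (-σ) ≤ δ → δ ≤ 1 / 2 → (lam : ℝ) ≤ δ⁻¹ →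
    ∀ X : ℕ, S.Q ≤ X → S.Q * S.D ^ (s - σ) ≤ (X : ℝ) →
    ∀ q0 : ℕ, 1 ≤ q0 → (X : ℝ) * q0 ≤ S.P (Fin.last m) * S.D ^ (-ε) →
    ∀ (f0 : ZMod N → ℂ) (f : Fin m → ZMod N → ℂ),
    Adm δ⁻¹ S.Q f0 → (∀ i, Adm δ⁻¹ S.Q (f i)) →
    ∀ (r : ZMod N) (cc : ℕ → ℂ) (φ : ℕ → ℝ), (∀ j, ‖cc j‖ ≤ 1) → (∀ j, |φ j| ≤ δ⁻¹ / S.Q) →
    δ ≤ ‖form S c 1 f0 (Fin.snoc (α := fun _ => ZMod N → ℂ) f (bphase X r cc φ))‖ →
    ∃ (cc' : ℕ → ℂ) (θ : ℕ → ℝ), (∀ j, cc' j = cc j ∨ cc' j = 0) ∧
      (∀ j, cc' j ≠ 0 → |φ j - θ (j / q0)| ≤ δ⁻¹ ^ C / X) ∧
      δ ^ C ≤ ‖form S c 1 f0 (Fin.snoc (α := fun _ => ZMod N → ℂ) f (bphase X r cc' φ))‖ := by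
  obtain ⟨xT, hxT, CT, σT, hσT, DT, HT⟩ := hT
  refine ⟨min xT ε, lt_min hxT hε, 12 * CT + 20, min (σT / 6) (1 / 9),
    lt_min (by positivity) (by norm_num), max DT 4, ?_⟩
  intro S N _ lam hD hIG δ hδ1 hδ2 hlam X hQX hX q0 hq hXq f0 f hf0 hf r cc φ hcc hφ hform
  have hGood := hIG.good
  set σ := min (σT / 6) (1 / 9) with hσ
  have hσ0 : 0 < σ := lt_min (by positivity) (by norm_num)
  have hσa : 6 * σ ≤ σT := by have := min_le_left (σT / 6) (1 / 9 : ℝ); rw [← hσ] at this; (clear * - this; linarith)
  have hσb : 9 * σ ≤ 1 := by have := min_le_right (σT / 6) (1 / 9 : ℝ); rw [← hσ] at this; (clear * - this; linarith)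
  have hD4 : 4 ≤ S.D := (le_max_right _ _).trans hD
  exact by
    have hDT : DT ≤ S.D := (le_max_left _ _).trans hD
    have hD0 : 0 < S.D := by (clear * - hσ0 hσb hD4; linarith)
    have hD1 : 1 ≤ S.D := by (clear * - hσ0 hσb hD4; linarith)
    have hδ0 : 0 < δ := (Real.rpow_pos_of_pos hD0 _).trans_le hδ1
    have hδi : 2 ≤ δ⁻¹ := by
      rw [le_inv_comm₀ (by norm_num) hδ0]
      (clear * - hδ2; linarith)
    have hδi0 : 0 < δ⁻¹ := by positivity
    -- powers of δ
    exact by
      have hpow : ∀ (n : ℕ), S.D ^ (-(n * σ)) ≤ δ ^ n := by
        intro n
        have h := pow_le_pow_left₀ (Real.rpow_nonneg hD0.le _) hδ1 n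
        rw [← Real.rpow_natCast (S.D ^ (-σ)) n, ← Real.rpow_mul hD0.le] at h
        refine le_trans (le_of_eq ?_) h
        congr 1
        ring
      have hQ : (S.D : ℝ) ^ (2 : ℝ) ≤ S.Q := hGood.Q1
      have hQ0 : (0 : ℝ) < S.Q := (Real.rpow_pos_of_pos hD0 _).trans_le hQ
      have hQX' : (S.Q : ℝ) ≤ X := by exact_mod_cast hQX
      have hX0 : (0 : ℝ) < X := hQ0.trans_le hQX'
      have hX1 : 1 ≤ X := by exact_mod_cast hX0
      -- sizes
      exact by
        have hL : ((X * q0 : ℕ) : ℝ) ≤ S.P (Fin.last m) * S.D ^ (-ε) := by push_cast; exact hXq
        have hLN : X * q0 ≤ N := by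
          have h1 := hGood.N1 (Fin.last m)
          have h2 : S.P (Fin.last m) * S.D ^ (-ε) ≤ N * S.D ^ (min xT ε) * S.D ^ (-ε) :=
            mul_le_mul_of_nonneg_right h1 (Real.rpow_nonneg hD0.le _)
          have h3 : (N : ℝ) * S.D ^ (min xT ε) * S.D ^ (-ε) ≤ N := by
            rw [mul_assoc, ← Real.rpow_add hD0]
            have h4 : S.D ^ (min xT ε + -ε) ≤ 1 :=
              Real.rpow_le_one_of_one_le_of_nonpos hD1 (by have := min_le_right xT ε; (clear * - this; linarith))
            exact mul_le_of_le_one_right (Nat.cast_nonneg _) h4
          exact_mod_cast hL.trans (h2.trans h3)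
        have hL1 : 1 ≤ X * q0 := Nat.mul_pos hX1 hq
        have hXN : X ≤ N := (Nat.le_mul_of_pos_right X hq).trans hLN
        -- Y
        have h9 : 4 ≤ δ ^ 9 * X := by
          have h1 := hpow 9
          have h2 : S.D ^ (-(1 : ℝ)) ≤ S.D ^ (-(((9 : ℕ) : ℝ) * σ)) :=
            Real.rpow_le_rpow_of_exponent_le hD1 (by push_cast; (clear * - hσb; linarith))
          have h3 : S.D ^ (-(1 : ℝ)) * S.D ^ (2 : ℝ) = S.D := by
            rw [← Real.rpow_add hD0]
            norm_num
          calc (4 : ℝ) ≤ S.D := hD4
            _ = S.D ^ (-(1 : ℝ)) * S.D ^ (2 : ℝ) := h3.symm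
            _ ≤ δ ^ 9 * X := mul_le_mul (h2.trans h1) (hQ.trans hQX') (Real.rpow_nonneg hD0.le _)
                (by positivity)
        set Y := ⌊δ ^ 9 * X⌋₊ with hYdef
        exact by
          have hYle : (Y : ℝ) ≤ δ ^ 9 * X := Nat.floor_le (by (clear * - hδ0 hX1; positivity))
          have hYge : δ ^ 9 * X - 1 ≤ Y := by
            have := Nat.lt_floor_add_one (δ ^ 9 * X)
            rw [← hYdef] at this
            (clear * - this; linarith)
          have hY1 : 1 ≤ Y := by
            rw [hYdef, Nat.one_le_floor_iff]
            (clear * - hσ0 hσb h9; linarith)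
          have hY10 : δ ^ 10 * X ≤ Y := by
            have h1 : δ ^ 10 * X = δ * (δ ^ 9 * X) := by ring
            have h2 : δ * (δ ^ 9 * X) ≤ 1 / 2 * (δ ^ 9 * X) :=
              mul_le_mul_of_nonneg_right hδ2 (by (clear * - hδ0 hX1; positivity))
            (clear * - hσ0 hσb h9 hYge h2; linarith)
          have hY0 : (0 : ℝ) < Y := by exact_mod_cast hY1
          -- w0, η
          set w0 : ℝ := δ⁻¹ ^ (6 * CT + 16) / X with hw0def
          exact by
            have hw0 : 0 < w0 := by (clear * - hδ0 hX1; positivity)
            set η : ℝ := δ ^ (12 * CT + 17) with hηdef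
            have hη : 0 < η := by positivity
            have hφd : ∀ j j', |φ j - φ j'| ≤ 1 / 2 := by
              intro j j'
              have h1 : |φ j - φ j'| ≤ δ⁻¹ / S.Q + δ⁻¹ / S.Q :=
                (abs_sub _ _).trans (add_le_add (hφ j) (hφ j'))
              have h2 : δ⁻¹ ≤ S.D := by
                rw [inv_le_comm₀ hδ0 hD0]
                refine le_trans ?_ hδ1
                rw [← Real.rpow_neg_one]
                exact Real.rpow_le_rpow_of_exponent_le hD1 (by (clear * - hσ0 hσb; linarith))
              have h3 : δ⁻¹ / S.Q ≤ 1 / 4 := by
                rw [div_le_iff₀ hQ0]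
                rw [Real.rpow_two] at hQ
                have h4 : 4 * S.D ≤ S.D ^ 2 := by
                  rw [sq]
                  exact mul_le_mul_of_nonneg_right hD4 hD0.le
                (clear * - hQ h2 h4; linarith)
              (clear * - h1 h3; linarith)
            have hf0b : ∀ x, ‖f0 x‖ ≤ 1 := hf0.bdd
            have hfb : ∀ i x, ‖f i x‖ ≤ 1 := fun i => (hf i).bdd
            exact by
              have hδ6i : 64 ≤ (δ ^ 6)⁻¹ := by
                rw [← inv_pow]
                calc (64 : ℝ) = 2 ^ 6 := by norm_num
                  _ ≤ δ⁻¹ ^ 6 := pow_le_pow_left₀ (by norm_num) hδi 6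
              have hδ6i' : δ⁻¹ + δ⁻¹ ≤ (δ ^ 6)⁻¹ := by
                rw [← inv_pow]
                have h1 : δ⁻¹ ^ 2 ≤ δ⁻¹ ^ 6 := pow_le_pow_right₀ (by (clear * - hσ0 hσb hδi; linarith)) (by norm_num)
                have h2 : 2 * δ⁻¹ ≤ δ⁻¹ ^ 2 := by
                  rw [sq]
                  exact mul_le_mul_of_nonneg_right hδi hδi0.le
                (clear * - h1 h2; linarith)
              have hlam6 : (lam : ℝ) ≤ (δ ^ 6)⁻¹ := hlam.trans (le_trans (by (clear * - hσ0 hσb hδi; linarith)) hδ6i')
              have hGb : ∀ y y' : ℕ, ∀ cc' : ℕ → ℂ, (∀ j, ‖cc' j‖ ≤ 1) →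
                  Adm (δ ^ 6)⁻¹ X (Gf64 X r cc' φ y y') := by
                intro y y' cc' hcc'
                have h1 : Adm 4 (X : ℝ) (Gf64 X r cc' φ y y') :=
                  ⟨fun z => norm_gcoef64 hcc' φ y y' _,
                    tv_block64 hX1 hXN r (gcoef64 cc' φ y y') fun j => norm_gcoef64 hcc' φ y y' j⟩
                exact h1.mono (by (clear * - hσ0 hσb hδ6i; linarith)) hX0 le_rfl
              -- the unpopular part
              have hrest : ‖form S c 1 f0 (Fin.snoc (α := fun _ => ZMod N → ℂ) f
                  (bphase X r (ccr64 cc φ w0 η q0) φ))‖ < δ / 2 := by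
                by_contra hcon
                rw [not_lt] at hcon
                have hccr : ∀ j, ‖ccr64 cc φ w0 η q0 j‖ ≤ 1 := norm_ccr64 cc φ w0 η q0 hcc
                have hpos : δ ^ 5 ≤ (δ / 2) ^ 2 - 4 * Y / X - δ ^ 6 := by
                  have h1 : 4 * (Y : ℝ) / X ≤ 4 * δ ^ 9 := by
                    rw [div_le_iff₀ hX0]
                    (clear * - hYle; linarith)
                  have h2 : δ ^ 9 ≤ δ ^ 2 * (1 / 2) ^ 7 := by
                    have h3 : δ ^ 9 = δ ^ 2 * δ ^ 7 := by ring
                    rw [h3]
                    exact mul_le_mul_of_nonneg_left (pow_le_pow_left₀ hδ0.le hδ2 7) (by (clear * - hδ0; positivity))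
                  have h3 : δ ^ 6 ≤ δ ^ 2 * (1 / 2) ^ 4 := by
                    have h3 : δ ^ 6 = δ ^ 2 * δ ^ 4 := by ring
                    rw [h3]
                    exact mul_le_mul_of_nonneg_left (pow_le_pow_left₀ hδ0.le hδ2 4) (by positivity)
                  have h4 : δ ^ 5 ≤ δ ^ 2 * (1 / 2) ^ 3 := by
                    have h3 : δ ^ 5 = δ ^ 2 * δ ^ 3 := by ring
                    rw [h3]
                    exact mul_le_mul_of_nonneg_left (pow_le_pow_left₀ hδ0.le hδ2 3) (by positivity)
                  have h5 : 0 < δ ^ 2 := by positivity
                  have h6 : (δ / 2) ^ 2 = δ ^ 2 / 4 := by ring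
                  rw [h6]
                  norm_num at h2 h3 h4
                  (clear * - h1 h5 h2 h3 h4; linarith)
                have hkey := key64 S c f0 hf0b f hfb hX1 hXN r hccr hφd hY1 (X * q0) hw0
                  (δ1 := δ / 2) (δ6 := δ ^ 6) (δT := (δ ^ 6) ^ CT) (by positivity) (by positivity)
                  (by positivity) ((by positivity : (0 : ℝ) ≤ δ ^ 5).trans hpos) (by
                    intro y _ y' _ hyy
                    have h1 := HT S N lam hDT (IG_mono46 hIG (min_le_left _ _) hD1) (δ ^ 6) (by
                      refine le_trans ?_ (hpow 6)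
                      exact Real.rpow_le_rpow_of_exponent_le hD1 (by push_cast; (clear * - hσa; linarith))) (by
                      refine (pow_le_pow_left₀ hδ0.le hδ2 6).trans (by norm_num)) hlam6 X hQX' (by
                      refine le_trans ?_ hX
                      refine mul_le_mul_of_nonneg_left ?_ hQ0.le
                      exact Real.rpow_le_rpow_of_exponent_le hD1 (by (clear * - hσ0 hσa; linarith)))
                      _ _ (((hf0.shift (y : ZMod N)).mul (hf0.shift (y' : ZMod N)).cnj).mono hδ6i' hQ0 le_rfl)
                      (by
                        intro i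
                        refine Fin.lastCases ?_ (fun i => ?_) i
                        · rw [Fin.snoc_last]
                          exact (hGb y y' _ hccr).mono le_rfl hQ0 hQX'
                        · rw [Fin.snoc_castSucc]
                          exact (((hf i).shift (y : ZMod N)).mul ((hf i).shift (y' : ZMod N)).cnj).mono
                            hδ6i' hQ0 le_rfl)
                      (by rw [Fin.snoc_last]; exact hGb y y' _ hccr) hyy (X * q0) hL1 hL
                    rwa [Fin.snoc_last] at h1) hcon
                have hr := rest64 cc φ w0 η q0 hX1 hq hη.le hw0 rfl hLN r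
                have h1 : δ ^ (12 * CT + 10) ≤ ((δ ^ 6) ^ CT * ((δ / 2) ^ 2 - 4 * Y / X - δ ^ 6)) ^ 2 := by
                  have h2 : δ ^ (12 * CT + 10) = ((δ ^ 6) ^ CT * δ ^ 5) ^ 2 := by
                    rw [← pow_mul, ← pow_add, ← pow_mul]
                    congr 1
                    ring
                  rw [h2]
                  exact pow_le_pow_left₀ (by positivity) (mul_le_mul_of_nonneg_left hpos (by positivity)) 2
                have h2 : (1 / (2 * Y * w0)) ^ 2 ≤ δ ^ (12 * CT + 10) / 16 := by
                  have h3 : 2 * δ⁻¹ ^ (6 * CT + 6) ≤ 2 * Y * w0 := by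
                    have h4 : δ ^ 10 * X * w0 = δ⁻¹ ^ (6 * CT + 6) := by
                      rw [hw0def]
                      have h5 : δ⁻¹ ^ (6 * CT + 16) = δ⁻¹ ^ (6 * CT + 6) * δ⁻¹ ^ 10 := by
                        rw [← pow_add]
                      rw [h5]
                      (clear * - hδ0 hX1; field_simp)
                    have h6 := mul_le_mul_of_nonneg_right hY10 hw0.le
                    rw [h4] at h6
                    (clear * - h6; linarith)
                  have h4 : 1 / (2 * Y * w0) ≤ δ ^ (6 * CT + 6) / 2 := by
                    rw [div_le_div_iff₀ (by (clear * - hY1 hδ0 hX1; positivity)) (by norm_num)]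
                    have h5 : δ ^ (6 * CT + 6) * δ⁻¹ ^ (6 * CT + 6) = 1 := by
                      rw [← mul_pow, mul_inv_cancel₀ hδ0.ne', one_pow]
                    have h6 := mul_le_mul_of_nonneg_left h3 (by positivity : (0 : ℝ) ≤ δ ^ (6 * CT + 6))
                    (clear * - h5 h6; linarith)
                  have h5 := pow_le_pow_left₀ (by (clear * - hY1 hδ0 hX1; positivity)) h4 2
                  have h6 : (δ ^ (6 * CT + 6) / 2) ^ 2 = δ ^ 2 * δ ^ (12 * CT + 10) / 4 := by
                    rw [div_pow, ← pow_mul, ← pow_add]
                    congr 1
                    · congr 1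
                      ring
                    · norm_num
                  rw [h6] at h5
                  have h7 : δ ^ 2 ≤ 1 / 4 := (pow_le_pow_left₀ hδ0.le hδ2 2).trans (by norm_num)
                  have h8 : 0 < δ ^ (12 * CT + 10) := by positivity
                  have h9 := mul_le_mul_of_nonneg_right h7 h8.le
                  (clear * - h5 h9; linarith)
                have h3 : 9 * η ≤ 9 / 128 * δ ^ (12 * CT + 10) := by
                  have h4 : η = δ ^ 7 * δ ^ (12 * CT + 10) := by
                    rw [hηdef, ← pow_add]
                    congr 1
                    ring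
                  have h5 : δ ^ 7 ≤ 1 / 128 := (pow_le_pow_left₀ hδ0.le hδ2 7).trans (by norm_num)
                  have h8 : 0 < δ ^ (12 * CT + 10) := by positivity
                  rw [h4]
                  have h9 := mul_le_mul_of_nonneg_right h5 h8.le
                  (clear * - hη hkey hr h1 h2 h4 h9; linarith)
                have h8 : 0 < δ ^ (12 * CT + 10) := by positivity
                (clear * - hη hkey hr h1 h2 h3; linarith)
              -- the popular part
              have hsplit : ∀ x, bphase X r cc φ x =
                  bphase X r (ccp64 cc φ w0 η q0) φ x + bphase X r (ccr64 cc φ w0 η q0) φ x := by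
                intro x
                unfold bphase
                rw [← add_mul, ccp_add_ccr64]
              exact by
                have hpop : δ / 2 ≤ ‖form S c 1 f0 (Fin.snoc (α := fun _ => ZMod N → ℂ) f
                    (bphase X r (ccp64 cc φ w0 η q0) φ))‖ := by
                  have h1 : bphase X r cc φ = fun x =>
                    bphase X r (ccp64 cc φ w0 η q0) φ x + bphase X r (ccr64 cc φ w0 η q0) φ x := funext hsplit
                  rw [h1, form_add64] at hform
                  have h2 := hform.trans (norm_add_le _ _)
                  (clear * - hrest h2; linarith)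
                have hsum : bphase X r (ccp64 cc φ w0 η q0) φ = fun x =>
                    ∑ s ∈ range ⌈1 / η⌉₊, bphase X r (ccs64 cc φ w0 η q0 s) φ x := by
                  funext x
                  unfold bphase
                  rw [sum_ccs64 cc φ w0 η q0 hq hη, sum_mul]
                rw [hsum] at hpop
                have hpop2 := hpop.trans (form_sum64 S c f0 f ⌈1 / η⌉₊ fun s =>
                  bphase X r (ccs64 cc φ w0 η q0 s) φ)
                have hη1 : η ≤ 1 := pow_le_one₀ hδ0.le (by (clear * - hδ2 hσ0 hσb; linarith))
                have hceil : ((⌈1 / η⌉₊ : ℕ) : ℝ) ≤ 2 / η := by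
                  have h1 := Nat.ceil_lt_add_one (by positivity : 0 ≤ 1 / η)
                  have h2 : 1 ≤ 1 / η := by rw [le_div_iff₀ hη]; (clear * - hη1; linarith)
                  have h3 : 2 / η = 1 / η + 1 / η := by ring
                  (clear * - h1 h2 h3; linarith)
                obtain ⟨s', hs', hbig⟩ : ∃ s' ∈ range ⌈1 / η⌉₊, δ * η / 4 ≤ ‖form S c 1 f0
                    (Fin.snoc (α := fun _ => ZMod N → ℂ) f (bphase X r (ccs64 cc φ w0 η q0 s') φ))‖ := by
                  by_contra hcon
                  push Not at hcon
                  have h0 : (range ⌈1 / η⌉₊).Nonempty := by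
                    rw [nonempty_range_iff]
                    intro h0
                    rw [h0] at hpop2
                    simp only [range_zero, sum_empty] at hpop2
                    (clear * - hδ0 hpop2; linarith)
                  have h1 := sum_lt_sum_of_nonempty h0 hcon
                  rw [sum_const, card_range, nsmul_eq_mul] at h1
                  have h2 : (⌈1 / η⌉₊ : ℝ) * (δ * η / 4) ≤ 2 / η * (δ * η / 4) :=
                    mul_le_mul_of_nonneg_right hceil (by (clear * - hδ0; positivity))
                  have h3 : 2 / η * (δ * η / 4) = δ / 2 := by field_simp; ring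
                  (clear * - hpop2 h1 h2 h3; linarith)
                refine ⟨ccs64 cc φ w0 η q0 s', th64 cc φ w0 η q0 s', ccs_cases64 cc φ w0 η q0 s', ?_, ?_⟩
                · intro j hj
                  exact by
                    refine (th_close64 cc φ w0 η q0 hq hw0 hj).trans ?_
                    rw [hw0def]
                    refine div_le_div_of_nonneg_right ?_ hX0.le
                    exact pow_le_pow_right₀ (by (clear * - hσ0 hσb hδi; linarith)) (by (clear * - S N δ X q0; omega))
                · refine le_trans ?_ hbig
                  exact by
                    have h1 : δ ^ (12 * CT + 20) = δ ^ 2 * (δ * η) := by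
                      rw [hηdef, ← pow_succ', ← pow_add]
                      congr 1
                      ring
                    have h2 : δ ^ 2 ≤ 1 / 4 := (pow_le_pow_left₀ hδ0.le hδ2 2).trans (by norm_num)
                    have h3 : 0 < δ * η := by positivity
                    rw [h1]
                    have h9 := mul_le_mul_of_nonneg_right h2 h3.le
                    (clear * - h9; linarith)

end

end Pool.Agent.Helper67.NX2

end

section

set_option autoImplicit false

open Finset

open scoped BigOperators ComplexConjugate

namespace Pool.Agent.Helper57.NX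

noncomputable section

theorem top_step_of67 (hDL : DLTotal67) (m : ℕ) (c : Fin (m + 1) → ℝ)
    (s s' ε : ℝ) (hs0 : 0 ≤ s) (hss : s < s') (hs' : s' < c (Fin.last m))
    (hG : GNCP m c s s') (hL : LPP m c s') (hT : TopP m c s' ε) : TopP m c s ε := by
  classical
  obtain ⟨xG, hxG, r, CG, σG, hσG, DG, hG⟩ := hG
  obtain ⟨xL, hxL, CL, σL, hσL, DL, hL⟩ := hL
  obtain ⟨xT, hxT, CT, σT, hσT, DT, hT⟩ := hT
  obtain ⟨n4, hn4⟩ := hDL r (fun n2 => CL * (n2 + r + 2)) (8 * CG + 8)
  obtain ⟨G, hGdef⟩ : ∃ G : ℕ, G = CL * (n4 + r + 2) := ⟨_, rfl⟩
  obtain ⟨n5, hn5⟩ : ∃ n5 : ℕ, n5 = G + n4 + 7 := ⟨_, rfl⟩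
  obtain ⟨M, hM⟩ : ∃ M : ℕ, M = 2 * n4 + n5 + r + 20 := ⟨_, rfl⟩
  obtain ⟨κ, hκdef⟩ : ∃ κ : ℝ, κ = min ((s' - s) / 8) (σT / 8) := ⟨_, rfl⟩
  have hκ0 : 0 < κ := by rw [hκdef]; exact lt_min (by (clear * - hss; linarith)) (by (clear * - hσT; linarith))
  have hκ1 : κ ≤ (s' - s) / 8 := by rw [hκdef]; exact min_le_left _ _
  have hκ2 : κ ≤ σT / 8 := by rw [hκdef]; exact min_le_right _ _
  obtain ⟨μ, hμdef⟩ : ∃ μ : ℝ, μ = min (min (min σT σG) (min σL (s' - s)))
      (min (min ((c (Fin.last m) - s') / 2) κ) 1) := ⟨_, rfl⟩
  have hμ0 : 0 < μ := by
    rw [hμdef]
    refine lt_min (lt_min (lt_min hσT hσG) (lt_min hσL (by (clear * - hκ0 hκ1; linarith))))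
      (lt_min (lt_min (by (clear * - hs'; linarith)) hκ0) one_pos)
  have hμT : μ ≤ σT := by
    rw [hμdef]; exact (min_le_left _ _).trans ((min_le_left _ _).trans (min_le_left _ _))
  have hμG : μ ≤ σG := by
    rw [hμdef]; exact (min_le_left _ _).trans ((min_le_left _ _).trans (min_le_right _ _))
  exact by
    have hμL : μ ≤ σL := by
      rw [hμdef]; exact (min_le_left _ _).trans ((min_le_right _ _).trans (min_le_left _ _))
    have hμs : μ ≤ s' - s := by
      rw [hμdef]; exact (min_le_left _ _).trans ((min_le_right _ _).trans (min_le_right _ _))
    have hμc : μ ≤ (c (Fin.last m) - s') / 2 := by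
      rw [hμdef]; exact (min_le_right _ _).trans ((min_le_left _ _).trans (min_le_left _ _))
    have hμκ : μ ≤ κ := by
      rw [hμdef]; exact (min_le_right _ _).trans ((min_le_left _ _).trans (min_le_right _ _))
    have hμ1 : μ ≤ 1 := by
      rw [hμdef]; exact (min_le_right _ _).trans (min_le_right _ _)
    have hM0 : (0 : ℝ) < M := by
      have : 0 < M := by omega
      exact_mod_cast this
    exact by
      obtain ⟨σ, hσdef⟩ : ∃ σ : ℝ, σ = μ / M := ⟨_, rfl⟩
      have hσ0 : 0 < σ := by rw [hσdef]; (clear * - hμ0 hM0; positivity)
      have hMσ : (M : ℝ) * σ = μ := by rw [hσdef]; (clear * - hM0 hμ0; field_simp)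
      -- small multiples of `σ`
      have hKσ : ∀ K : ℕ, K ≤ M → (K : ℝ) * σ ≤ μ := fun K hK => by
        rw [← hMσ]
        exact mul_le_mul_of_nonneg_right (by exact_mod_cast hK) hσ0.le
      refine ⟨min (min xG xL) (min xT ((c (Fin.last m) - s') / 4)), ?_, 2 * CT, σ, hσ0,
        max (max DG DL) (max DT 2), ?_⟩
      · exact lt_min (lt_min hxG hxL) (lt_min hxT (by (clear * - hμ0 hμc; linarith)))
      intro S N _ hD hgood δ hδ0 hδ1 X hQX hX f0 f hf0 hf hfm hform L hL1 hL2
      have hDG : DG ≤ S.D := ((le_max_left _ _).trans (le_max_left _ _)).trans hD
      have hDL' : DL ≤ S.D := ((le_max_right _ _).trans (le_max_left _ _)).trans hD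
      have hDT : DT ≤ S.D := ((le_max_left _ _).trans (le_max_right _ _)).trans hD
      exact by
        have hD2 : 2 ≤ S.D := ((le_max_right _ _).trans (le_max_right _ _)).trans hD
        have hD1 : 1 ≤ S.D := by (clear * - hD2; linarith)
        have hDp : 0 < S.D := by (clear * - hD2; linarith)
        have hgG : Good S c N xG := hgood.mono67 hD1 ((min_le_left _ _).trans (min_le_left _ _))
        have hgL : Good S c N xL := hgood.mono67 hD1 ((min_le_left _ _).trans (min_le_right _ _))
        have hgT : Good S c N xT := hgood.mono67 hD1 ((min_le_right _ _).trans (min_le_left _ _))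
        exact by
          have hgc : Good S c N ((c (Fin.last m) - s') / 4) :=
            hgood.mono67 hD1 ((min_le_right _ _).trans (min_le_right _ _))
          clear hgood
          have hδp : 0 < δ := (Real.rpow_pos_of_pos hDp _).trans_le hδ0
          have hδ1' : δ ≤ 1 := by (clear * - hδ1 hδp; linarith)
          have hhalf : S.D ^ (-σ) ≤ 1 / 2 := hδ0.trans hδ1
          -- powers
          have hpow : ∀ (K : ℕ) (y : ℝ), y ≤ -((K : ℝ) * σ) → S.D ^ y ≤ δ ^ K := by
            intro K y hy
            calc S.D ^ y ≤ S.D ^ (-σ * (K : ℝ)) :=
                  Real.rpow_le_rpow_of_exponent_le hD1 (by (clear * - hy; linarith))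
              _ = (S.D ^ (-σ)) ^ K := by rw [Real.rpow_mul hDp.le, Real.rpow_natCast]
              _ ≤ δ ^ K := pow_le_pow_left₀ (Real.rpow_pos_of_pos hDp _).le hδ0 K
          have hQ1 : (1 : ℝ) ≤ S.Q := by
            refine le_trans ?_ hgG.Q1
            exact Real.one_le_rpow hD1 (by norm_num)
          exact by
            have hQ0 : (0 : ℝ) < S.Q := by (clear * - hδ1 hδp hQ1; linarith)
            have hmonoD : ∀ y z : ℝ, y ≤ z → (S.Q : ℝ) * S.D ^ y ≤ S.Q * S.D ^ z := fun y z h =>
              mul_le_mul_of_nonneg_left (Real.rpow_le_rpow_of_exponent_le hD1 h) hQ0.le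
            have hQle : ∀ y : ℝ, 0 ≤ y → (S.Q : ℝ) ≤ S.Q * S.D ^ y := fun y h =>
              le_mul_of_one_le_right hQ0.le (Real.one_le_rpow hD1 h)
            -- halving costs `σ`
            have hhalfQ : ∀ y : ℝ, (S.Q : ℝ) * S.D ^ (y - σ) ≤ S.Q * S.D ^ y / 2 := by
              intro y
              rw [show y - σ = y + -σ by ring, Real.rpow_add hDp]
              have h1 : 0 ≤ (S.Q : ℝ) * S.D ^ y := by (clear * - hQ1 hD2; positivity)
              (clear * - hδ0 h1 hδ1; nlinarith)
            have hδQ : ∀ (K : ℕ) (y : ℝ), (S.Q : ℝ) * S.D ^ (y - K * σ) ≤ δ ^ K * (S.Q * S.D ^ y) := by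
              intro K y
              rw [show y - K * σ = y + -((K : ℝ) * σ) by ring, Real.rpow_add hDp]
              have h1 : 0 ≤ (S.Q : ℝ) * S.D ^ y := by (clear * - hQ1 hD2; positivity)
              have h2 := hpow K _ le_rfl
              (clear * - hδ1 hδp h1 h2; nlinarith)
            set g : ZMod N → ℂ := f (Fin.last m) with hg
            exact by
              have hgb : ∀ x, ‖g x‖ ≤ 1 := hfm.bdd
              -- the scale `L'`
              have hy1 : 0 ≤ s' - 2 * κ := by (clear * - hs0 hκ0 hκ1; linarith)
              obtain ⟨L', hL'def⟩ : ∃ L' : ℕ, L' = ⌊(S.Q : ℝ) * S.D ^ (s' - 2 * κ)⌋₊ := ⟨_, rfl⟩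
              have hx1 : (1 : ℝ) ≤ (S.Q : ℝ) * S.D ^ (s' - 2 * κ) := hQ1.trans (hQle _ hy1)
              have hL'1 : 1 ≤ L' := by rw [hL'def]; exact (floor_facts _ hx1).1
              have hL'2 : (L' : ℝ) ≤ (S.Q : ℝ) * S.D ^ (s' - 2 * κ) := by
                rw [hL'def]; exact (floor_facts _ hx1).2.1
              have hL'3 : (S.Q : ℝ) * S.D ^ (s' - 2 * κ) / 2 ≤ L' := by
                rw [hL'def]; exact (floor_facts _ hx1).2.2
              exact by
                have hL'Q : (S.Q : ℝ) ≤ L' := by
                  have : S.Q ≤ L' := by rw [hL'def]; exact Nat.le_floor (hQle _ hy1)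
                  exact_mod_cast this
                have hL'0 : (0 : ℝ) < L' := by exact_mod_cast hL'1
                have e_f : Function.update f (Fin.last m) g = f := Function.update_eq_self _ _
                by_cases hcase : δ ^ 2 ≤ ‖form S c 1 f0 (Function.update f (Fin.last m) (A L' g))‖
                · -- case (i)
                  have hB2 : (2 : ℝ) ≤ (δ ^ 2)⁻¹ := by
                    rw [le_inv_comm₀ (by norm_num) (by positivity)]
                    (clear * - hδ1 hδp; nlinarith)
                  exact by
                    have hBB : δ⁻¹ ≤ (δ ^ 2)⁻¹ := by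
                      rw [inv_le_inv₀ hδp (by (clear * - hδp; positivity))]
                      (clear * - hδp hδ1; nlinarith)
                    have hAd : Adm (δ ^ 2)⁻¹ L' (A L' g) :=
                      ⟨norm_A_le hgb L', (by simpa using tv_A hgb L' hL'1 : TV 2 L' (A L' g)).mono hB2 hL'0 le_rfl⟩
                    have h2σ := hKσ 2 (by omega)
                    have h3σ := hKσ 3 (by omega)
                    push_cast at h2σ h3σ
                    have key := hT S N hDT hgT (δ ^ 2) (hpow 2 (-σT) (by push_cast; (clear * - hκ2 hμκ hσ0 h3σ; linarith))) (by (clear * - hδ1 hδp; nlinarith))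
                      L' hL'Q (by
                        have h1 := hhalfQ (s' - 2 * κ)
                        have h2 := hmonoD (s' - σT) (s' - 2 * κ - σ) (by (clear * - hκ2 hμκ hσ0 h3σ; linarith))
                        (clear * - hL'3 h1 h2; linarith))
                      f0 (Function.update f (Fin.last m) (A L' g)) (hf0.mono hBB hQ0 le_rfl)
                      (by
                        intro i
                        by_cases hi : i = Fin.last m
                        · subst hi
                          rw [Function.update_self]
                          exact hAd.mono le_rfl hQ0 hL'Q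
                        · rw [Function.update_of_ne hi]
                          exact (hf i).mono hBB hQ0 le_rfl)
                      (by rw [Function.update_self]; exact hAd) hcase L hL1 hL2
                    rw [Function.update_self, A_comm] at key
                    rw [pow_mul]
                    exact key.trans (nrm_A_le L' (A L g))
                · exfalso
                  exact by
                    push Not at hcase
                    -- the scale `X'`
                    obtain ⟨X', hX'def⟩ : ∃ X' : ℝ, X' = min X (S.Q * S.D ^ s) := ⟨_, rfl⟩
                    have hX'X : X' ≤ X := by rw [hX'def]; exact min_le_left _ _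
                    have hX's : X' ≤ S.Q * S.D ^ s := by rw [hX'def]; exact min_le_right _ _
                    have hQX' : (S.Q : ℝ) ≤ X' := by rw [hX'def]; exact le_min hQX (hQle _ hs0)
                    have hX'σ : S.Q * S.D ^ (s - σ) ≤ X' := by
                      rw [hX'def]; exact le_min hX (hmonoD _ _ (by (clear * - hσ0; linarith)))
                    have hX'1 : 1 ≤ X' := hQ1.trans hQX'
                    have hX'0 : 0 < X' := by (clear * - hδ1 hδp hQ1 hQX'; linarith)
                    have hgX' : Adm δ⁻¹ X' g := hfm.mono le_rfl hX'0 hX'X
                    -- size of `N`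
                    exact by
                      have hNbig : (S.Q : ℝ) * S.D ^ (c (Fin.last m) - 2 * ((c (Fin.last m) - s') / 4)) ≤ N := by
                        have h1 := hgc.N1 (Fin.last m)
                        have h2 := hgc.P1 (Fin.last m)
                        have h3 := h2.trans h1
                        have hp : 0 < S.D ^ ((c (Fin.last m) - s') / 4) := Real.rpow_pos_of_pos hDp _
                        have h4 : (S.Q : ℝ) * S.D ^ (c (Fin.last m) - 2 * ((c (Fin.last m) - s') / 4)) *
                            S.D ^ ((c (Fin.last m) - s') / 4) =
                            S.Q * S.D ^ (c (Fin.last m) - (c (Fin.last m) - s') / 4) := by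
                          rw [mul_assoc, ← Real.rpow_add hDp]
                          congr 2
                          ring
                        rw [← h4] at h3
                        exact le_of_mul_le_mul_right h3 hp
                      have hNK : ∀ K : ℕ, K ≤ M → (S.Q : ℝ) * S.D ^ s' ≤ δ ^ K * N := by
                        intro K hK
                        have h1 := hδQ K (c (Fin.last m) - 2 * ((c (Fin.last m) - s') / 4))
                        have h2 := hmonoD s' (c (Fin.last m) - 2 * ((c (Fin.last m) - s') / 4) - K * σ)
                          (by have := hKσ K hK; (clear * - hμc this; linarith))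
                        exact h2.trans (h1.trans (mul_le_mul_of_nonneg_left hNbig (by (clear * - hδp; positivity))))
                      have hQs'N : (S.Q : ℝ) * S.D ^ s' ≤ N := by
                        have := hNK 0 (by (clear * - s' r CL n4 G n5 κ S L L'; omega))
                        simpa using this
                      have hX'N : X' ≤ N := hX's.trans ((hmonoD s s' hss.le).trans hQs'N)
                      have hN0 : (0 : ℝ) < N := by (clear * - hδ1 hδp hQ1 hQX' hX'N; linarith)
                      -- the scale `Y`
                      obtain ⟨Y, hYdef⟩ : ∃ Y : ℕ, Y = ⌊δ ^ 6 * X'⌋₊ := ⟨_, rfl⟩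
                      exact by
                        have hx2 : (1 : ℝ) ≤ δ ^ 6 * X' := by
                          have h1 := hδQ 6 0
                          have h2 := hKσ 6 (by omega)
                          push_cast at h1 h2
                          rw [Real.rpow_zero, mul_one] at h1
                          have h3 : (1 : ℝ) ≤ S.Q * S.D ^ (0 - 6 * σ) := by
                            calc (1 : ℝ) ≤ S.D ^ (2 : ℝ) * S.D ^ (0 - 6 * σ) := by
                                  rw [← Real.rpow_add hDp]
                                  exact Real.one_le_rpow hD1 (by (clear * - hμ1 hσ0 h2; linarith))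
                              _ ≤ _ := mul_le_mul_of_nonneg_right hgG.Q1 (Real.rpow_pos_of_pos hDp _).le
                          exact h3.trans (h1.trans (mul_le_mul_of_nonneg_left hQX' (by (clear * - hδp; positivity))))
                        have hY1 : 1 ≤ Y := by rw [hYdef]; exact (floor_facts _ hx2).1
                        have hY2 : (Y : ℝ) ≤ δ ^ 6 * X' := by rw [hYdef]; exact (floor_facts _ hx2).2.1
                        have hY3 : δ ^ 6 * X' / 2 ≤ Y := by rw [hYdef]; exact (floor_facts _ hx2).2.2
                        have hY0 : (0 : ℝ) < Y := by exact_mod_cast hY1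
                        -- the high part is large
                        have hhigh : δ / 2 ≤ ‖form S c 1 f0 (Function.update f (Fin.last m)
                            (fun x => g x - A L' g x))‖ := by
                          rw [form_update_sub, e_f]
                          have h1 := norm_sub_norm_le (form S c 1 f0 f)
                            (form S c 1 f0 (Function.update f (Fin.last m) (A L' g)))
                          (clear * - hform hcase h1 hδ1 hδp; nlinarith)
                        exact by
                          have hone : ∀ k, ‖(1 : ℕ → ℂ) k‖ ≤ 1 := fun k => by simp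
                          -- smoothing at scale `Y`
                          have hsm : δ / 4 ≤ ‖form S c 1 f0 (Function.update f (Fin.last m)
                              (A Y (fun x => g x - A L' g x)))‖ := by
                            have h1 := norm_form_update_le S c 1 hone f0 hf0.bdd f (Fin.last m)
                              (fun j _ => (hf j).bdd) (fun x => (g x - A L' g x) - A Y (fun x => g x - A L' g x) x)
                            rw [form_update_sub] at h1
                            have h2 := smooth67 g δ X' hδp hδ1 hX'0 hX'N hgX' Y hY1 hY2 L'
                            have h3 := norm_sub_norm_le (form S c 1 f0 (Function.update f (Fin.last m)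
                              (fun x => g x - A L' g x))) (form S c 1 f0 (Function.update f (Fin.last m)
                              (A Y (fun x => g x - A L' g x))))
                            (clear * - hhigh h1 h2 h3; linarith)
                          -- the dual function
                          set f' : Fin m → ZMod N → ℂ := fun i => f i.castSucc with hf'
                          set F : ZMod N → ℂ := fun x => 𝔼 k ∈ S.I, Fk67 S c f0 f' k x with hF
                          have hdual : dual S c 1 f0 f (Fin.last m) = F := by
                            funext x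
                            rw [dual_last67]
                          have hFb : ∀ x, ‖F x‖ ≤ 1 := fun x => by
                            rw [← hdual]
                            exact norm_dual_le S c 1 hone f0 hf0.bdd f (Fin.last m) (fun j _ => (hf j).bdd) x
                          exact by
                            rw [form_dual, hdual] at hsm
                            obtain ⟨u, ψ, hu1, hutv, hψ1, hψ2, huF, huA⟩ :=
                              core67 g F hgb hFb L' Y hL'1 hY1 (δ / 4) (by (clear * - hδp; positivity)) hsm
                            -- `u` is admissible at scale `X'`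
                            have hYX' : (Y : ℝ) ≤ X' := hY2.trans (mul_le_of_le_one_left hX'0.le
                              (pow_le_one₀ hδp.le hδ1'))
                            have huX' : Adm (δ⁻¹ ^ 8) X' u := uadm67 u δ X' hδp hδ1 hu1 Y hY0 hYX' hX'0 hY3 hutv
                            have huform : δ ^ 8 ≤ ‖form S c 1 f0 (Function.update f (Fin.last m) u)‖ := by
                              rw [form_dual, hdual]
                              refine le_trans ?_ huF
                              have h1 : δ ^ 6 ≤ (1 / 2) ^ 6 := pow_le_pow_left₀ hδp.le hδ1 6
                              have h2 : δ ^ 8 = δ ^ 2 * δ ^ 6 := by ring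
                              have h3 : 0 ≤ δ ^ 2 := by positivity
                              (clear * - h1; nlinarith)
                            -- the box norm of `u`
                            obtain ⟨X1, hX1def⟩ : ∃ X1 : ℕ, X1 = ⌊(S.Q : ℝ) * S.D ^ s'⌋₊ := ⟨_, rfl⟩
                            have hs'0 : 0 ≤ s' := by (clear * - hs0 hκ0 hκ1; linarith)
                            have hx3 : (1 : ℝ) ≤ (S.Q : ℝ) * S.D ^ s' := hQ1.trans (hQle _ hs'0)
                            have hX11 : 1 ≤ X1 := by rw [hX1def]; exact (floor_facts _ hx3).1
                            have hX12 : (X1 : ℝ) ≤ (S.Q : ℝ) * S.D ^ s' := by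
                              rw [hX1def]; exact (floor_facts _ hx3).2.1
                            exact by
                              have hX13 : (S.Q : ℝ) * S.D ^ s' / 2 ≤ X1 := by rw [hX1def]; exact (floor_facts _ hx3).2.2
                              have hX14 : (S.Q : ℝ) * S.D ^ (s' - σ) ≤ X1 := (hhalfQ s').trans hX13
                              have hinv8 : δ⁻¹ ≤ (δ ^ 8)⁻¹ := by
                                rw [← inv_pow]
                                have := inv_pow_mono hδp hδ1' (show 1 ≤ 8 by norm_num)
                                simpa using this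
                              have h8σ := hKσ 8 (by omega)
                              have hbox : (δ ^ 8) ^ CG ≤ Box r X1 u := by
                                have key := hG S N hDG hgG (δ ^ 8) (hpow 8 (-σG) (by push_cast at h8σ ⊢; (clear * - hμG h8σ; linarith)))
                                  (by
                                    have h1 : δ ^ 8 ≤ δ ^ 1 := pow_le_pow_of_le_one hδp.le hδ1' (by norm_num)
                                    rw [pow_one] at h1
                                    (clear * - hδ1 h1; linarith)) X' hQX' ((hmonoD _ _ (by have := hKσ 1 (by omega); push_cast at this; (clear * - hμG this; linarith))).trans hX'σ)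
                                  f0 (Function.update f (Fin.last m) u) (hf0.mono hinv8 hQ0 le_rfl)
                                  (by
                                    intro i
                                    by_cases hi : i = Fin.last m
                                    · subst hi
                                      rw [Function.update_self, ← inv_pow]
                                      exact huX'.mono le_rfl hQ0 hQX'
                                    · rw [Function.update_of_ne hi]
                                      exact (hf i).mono hinv8 hQ0 le_rfl)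
                                  (by rw [Function.update_self, ← inv_pow]; exact huX') huform X1 hX11 hX12
                                rw [Function.update_self] at key
                                exact key
                              -- the scales `X2`
                              have hX2low : ∀ X2 : ℕ, δ ^ n4 * X1 ≤ X2 →
                                  (S.Q : ℝ) * S.D ^ (s' - σ - n4 * σ) ≤ X2 := by
                                intro X2 h
                                exact ((hδQ n4 (s' - σ)).trans (mul_le_mul_of_nonneg_left hX14 (by (clear * - hδp; positivity)))).trans h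
                              exact by
                                have hn4σ := hKσ (n4 + 1) (by omega)
                                push_cast at hn4σ
                                -- large frequencies
                                have hLPall : ∀ n2 ≤ n4, ∀ X2 : ℕ, δ ^ n4 * X1 ≤ X2 → X2 ≤ X1 →
                                    ∀ (g0 : ZMod N → ℂ) (g' : Fin m → ZMod N → ℂ), Adm (δ⁻¹ ^ (n2 + r + 2)) S.Q g0 →
                                    (∀ i, Adm (δ⁻¹ ^ (n2 + r + 2)) S.Q (g' i)) →
                                    ∀ (r' : ZMod N) (cc : ℕ → ℂ) (φ : ℕ → ℝ), (∀ j, ‖cc j‖ ≤ 1) →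
                                    (∀ j, |φ j| ≤ δ⁻¹ ^ n2 / X') →
                                    (∀ j, cc j ≠ 0 → δ⁻¹ ^ (CL * (n2 + r + 2)) / X2 ≤ |φ j|) →
                                    ‖form S c 1 g0 (Fin.snoc (α := fun _ => ZMod N → ℂ) g' (bphase X2 r' cc φ))‖ <
                                      δ ^ (n2 + r + 2) := by
                                  intro n2 hn2 X2 h1 h2 g0 g' hg0 hg' r' cc φ hcc hφ1 hφ2
                                  have hKL := hKσ (n2 + r + 2) (by omega)
                                  have hlow := hX2low X2 h1
                                  refine hL S N hDL' hgL (δ ^ (n2 + r + 2)) (hpow _ _ (by (clear * - hμL hKL; linarith))) ?_ X2 ?_ ?_ ?_ g0 g' ?_ ?_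
                                    r' cc φ hcc ?_ ?_
                                  · have h3 : δ ^ (n2 + r + 2) ≤ δ ^ 1 := pow_le_pow_of_le_one hδp.le hδ1' (by omega)
                                    rw [pow_one] at h3
                                    (clear * - hδ1 h3; linarith)
                                  · have h3 : (S.Q : ℝ) ≤ X2 := (hQle _ (by (clear * - hs0 hμs hn4σ; linarith))).trans hlow
                                    exact_mod_cast h3
                                  · exact (hmonoD _ _ (by (clear * - hμL hn4σ; linarith))).trans hlow
                                  · have h3 : (X2 : ℝ) ≤ X1 := by exact_mod_cast h2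
                                    exact h3.trans hX12
                                  · rw [← inv_pow]; exact hg0
                                  · intro i; rw [← inv_pow]; exact hg' i
                                  · intro j
                                    exact by
                                      rw [← inv_pow]
                                      refine (hφ1 j).trans ?_
                                      exact div_le_div₀ (by (clear * - hδp; positivity)) (inv_pow_mono hδp hδ1' (by omega)) hQ0 hQX'
                                  · intro j hj
                                    rw [← inv_pow, ← pow_mul, mul_comm (n2 + r + 2) CL]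
                                    exact hφ2 j hj
                                have h2inv : (2 : ℝ) ≤ δ⁻¹ := by
                                  rw [le_inv_comm₀ (by norm_num) hδp]; (clear * - hδ1; linarith)
                                have hLPh : ∀ k ≤ r, ∀ n2 ≤ n4, ∀ X2 X'' : ℕ, δ ^ n4 * X1 ≤ X2 → X2 ≤ X1 → 1 ≤ X'' →
                                    X'' ≤ X2 → LPh S.I (Fk67 S c f0 f') k X'' X2 (δ⁻¹ ^ n2 / X')
                                      (δ⁻¹ ^ (CL * (n2 + r + 2)) / X2) (δ ^ n2) := by
                                  intro k hk n2 hn2 X2 X'' h1 h2 _ _ a _ b _ r' cc φ hcc hφ1 hφ2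
                                  rw [form_cube67]
                                  have hB : (2 : ℝ) ^ k * δ⁻¹ ≤ δ⁻¹ ^ (n2 + r + 2) := by
                                    calc (2 : ℝ) ^ k * δ⁻¹ ≤ δ⁻¹ ^ k * δ⁻¹ :=
                                          mul_le_mul_of_nonneg_right (pow_le_pow_left₀ (by norm_num) h2inv k) (by (clear * - hδp; positivity))
                                      _ = δ⁻¹ ^ (k + 1) := by rw [pow_succ]
                                      _ ≤ _ := inv_pow_mono hδp hδ1' (by omega)
                                  refine lt_of_lt_of_le (hLPall n2 hn2 X2 h1 h2 _ _ ?_ ?_ r' cc φ hcc hφ1 hφ2)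
                                    (pow_le_pow_of_le_one hδp.le hδ1' (by omega))
                                  · exact (Adm.cub hQ0 hf0 k a b).mono hB hQ0 le_rfl
                                  · intro i
                                    exact (Adm.cub hQ0 (hf i.castSucc) k a b).mono hB hQ0 le_rfl
                                -- apply `dl_total`
                                have hSI : S.I.Nonempty := by
                                  have h1 : (0 : ℝ) < S.T := (Real.rpow_pos_of_pos hDp _).trans_le hgG.T1
                                  have h2 : 0 < S.T := by exact_mod_cast h1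
                                  exact nonempty_Ico.2 (by omega)
                                have hdata : DLData S.I (Fk67 S c f0 f') ψ u :=
                                  ⟨hSI, norm_Fk_le67 S c f0 f' hf0.bdd (fun i => (hf i.castSucc).bdd), hψ1, hψ2⟩
                                obtain ⟨X2, hX21, hX22, r', cc, φ, hcc, hφ, hcor⟩ := hn4 N ℕ S.I (Fk67 S c f0 f') ψ u δ X' X1
                                  hdata hδp hδ1 (huX'.mono (inv_pow_mono hδp hδ1' (by omega)) hX'0 le_rfl) hX'1
                                  (by
                                    have h1 := (hδQ n4 (s' - σ)).trans (mul_le_mul_of_nonneg_left hX14 (by (clear * - hδp; positivity)))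
                                    have h2 := hmonoD s (s' - σ - n4 * σ) (by (clear * - hμs hn4σ; linarith))
                                    exact hX's.trans (h2.trans h1))
                                  (hX12.trans (hNK n4 (by omega)))
                                  (by
                                    rw [← pow_mul] at hbox
                                    exact (pow_le_pow_of_le_one hδp.le hδ1' (by omega)).trans hbox)
                                  hLPh
                                have hX2l := hX2low X2 hX21
                                exact by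
                                  have hX2Q : (S.Q : ℝ) ≤ X2 := (hQle _ (by (clear * - hs0 hμs hn4σ; linarith))).trans hX2l
                                  have hX20 : (0 : ℝ) < X2 := by (clear * - hδ1 hδp hQ1 hX2Q; linarith)
                                  have hX21' : 1 ≤ X2 := by exact_mod_cast hX20
                                  have hX2N' : (X2 : ℝ) ≤ N := by
                                    have h1 : (X2 : ℝ) ≤ X1 := by exact_mod_cast hX22
                                    exact h1.trans (hX12.trans hQs'N)
                                  have hX2N : X2 ≤ N := by exact_mod_cast hX2N'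
                                  set p : ℕ → Prop := fun j => δ⁻¹ ^ G / X2 ≤ |φ j| with hp
                                  -- the part with large frequencies
                                  exact by
                                    have hbig : ‖𝔼 x, u x * bphase X2 r' (fun j => if p j then cc j else 0) φ x‖ ≤
                                        δ ^ (n4 + r + 2) := by
                                      refine big67 S c f0 f' ψ u hψ1 hψ2 X2 r' _ φ _ (by (clear * - hδp; positivity)) fun r'' => ?_
                                      refine (hLPall n4 le_rfl X2 hX21 hX22 f0 f' ?_ ?_ r'' _ _ ?_ ?_ ?_).le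
                                      · have := inv_pow_mono hδp hδ1' (show 1 ≤ n4 + r + 2 by omega)
                                        rw [pow_one] at this
                                        exact hf0.mono this hQ0 le_rfl
                                      · intro i
                                        have := inv_pow_mono hδp hδ1' (show 1 ≤ n4 + r + 2 by omega)
                                        rw [pow_one] at this
                                        exact (hf i.castSucc).mono this hQ0 le_rfl
                                      · intro j
                                        simp only [RCLike.norm_conj]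
                                        split_ifs
                                        · exact hcc j
                                        · simp
                                      · intro j
                                        rw [abs_neg]
                                        exact hφ j
                                      · intro j hj
                                        rw [abs_neg, ← hGdef]
                                        by_contra h
                                        apply hj
                                        simp only [hp, if_neg h, map_zero]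
                                    have h5low : (S.Q : ℝ) * S.D ^ (s' - κ) ≤ δ ^ (n4 + 2) * (δ ^ n5 * X2) := by
                                      have h1 := hδQ (n4 + 2 + n5) (s' - σ - n4 * σ)
                                      have h2 := hKσ (2 * n4 + n5 + 3) (by omega)
                                      push_cast at h1 h2
                                      have h3 := hmonoD (s' - κ) (s' - σ - n4 * σ - ((n4 : ℝ) + 2 + n5) * σ) (by (clear * - hμκ h2; linarith))
                                      calc _ ≤ _ := h3
                                        _ ≤ _ := h1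
                                        _ ≤ δ ^ (n4 + 2 + n5) * X2 := mul_le_mul_of_nonneg_left hX2l (by positivity)
                                        _ = _ := by rw [pow_add, mul_assoc]
                                    have hx4 : (1 : ℝ) ≤ δ ^ n5 * (X2 : ℝ) := by
                                      have h1 : δ ^ (n4 + 2) ≤ 1 := pow_le_one₀ hδp.le hδ1'
                                      have h2 : (0 : ℝ) ≤ δ ^ n5 * X2 := by positivity
                                      have h3 : (1 : ℝ) ≤ S.Q * S.D ^ (s' - κ) := hQ1.trans (hQle _ (by (clear * - hs0 hκ0 hκ1; linarith)))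
                                      (clear * - h5low h3 h1 h2; nlinarith)
                                    have hend := endgame67 u δ hδp hδ1 hu1 n4 r G n5 hn5 X2 hX21' hX2N r' cc φ hcc p hp hbig hcor
                                      L' huA hx4
                                    have hq5 : (S.Q : ℝ) * S.D ^ (s' - 2 * κ) < S.Q * S.D ^ (s' - κ) :=
                                      mul_lt_mul_of_pos_left (Real.rpow_lt_rpow_of_exponent_lt (by (clear * - hδ1 hD2 hδp; linarith)) (by (clear * - hκ0; linarith))) hQ0
                                    (clear * - hL'2 h5low hend hq5; linarith)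

end

end Pool.Agent.Helper57.NX

end

section

set_option autoImplicit false

open Finset

open scoped BigOperators ComplexConjugate

namespace Pool.Agent.Helper57.NX

noncomputable section

theorem top_step (m : ℕ) (c : Fin (m + 1) → ℝ) (_hc : StrictMono c) (_hc0 : ∀ i, 0 < c i)
    (s s' ε : ℝ) (hs0 : 0 ≤ s) (hss : s < s') (hs' : s' < c (Fin.last m)) (_hε : 0 < ε)
    (hG : GNCP m c s s') (hL : LPP m c s') (hT : TopP m c s' ε) : TopP m c s ε :=
  top_step_of67 dl_total m c s s' ε hs0 hss hs' hG hL hT

end

end Pool.Agent.Helper57.NX

end

section

set_option autoImplicit false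

open Finset

open scoped BigOperators ComplexConjugate

namespace Pool.Agent.Helper67.NX2.W

open Pool.Agent.Helper57.NX Pool.Agent.Helper67.NX2

theorem lpp (hES : ES0) (m : ℕ) (c : Fin (m + 1) → ℝ) (hc : Ex c) (s s0 : ℝ) (hs0 : 0 ≤ s0)
    (hs0s : s0 ≤ s) (hs : s < c (Fin.last m)) (hnat : IsN (c (Fin.last m)) → 0 < s0)
    (hT : ∀ ε : ℝ, 0 < ε → TopPm m c s ε)
    (hD : ∀ ε : ℝ, 0 < ε → DsPm m c s ε) : LPPm m c s s0 :=
  lpp_core' m c s s0 hs0 hs (fun e he => lp_align' m c s e (hs0.trans hs0s) he (hT e he))
    (lp_local_of (fun c hc hc0 a e he => ratl hES c hc hc0 a e he) m c hc s s0 hs0 hs0s hs hnat hD)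

end Pool.Agent.Helper67.NX2.W

end

section

set_option autoImplicit false

open Finset

open scoped BigOperators ComplexConjugate

namespace Pool.Agent.Helper57.NX

noncomputable section

/-- **NX-15.** Block phases: localisation to one cell. -/
theorem lp_local (hES : ES0) (m : ℕ) (c : Fin (m + 1) → ℝ) (hc : StrictMono c) (hc0 : ∀ i, 0 < c i)
    (hcn : ∀ i (n : ℕ), c i ≠ n) (s : ℝ) (hs0 : 0 ≤ s) (hs : s < c (Fin.last m))
    (hD : ∀ ε : ℝ, 0 < ε → DsP m c s ε) :
    ∃ ε0 : ℝ, 0 < ε0 ∧ ∀ ε : ℝ, 0 < ε → ε ≤ ε0 → ∀ n : ℕ,
    ∃ x0 : ℝ, 0 < x0 ∧ ∃ C : ℕ, ∃ σ : ℝ, 0 < σ ∧ ∃ D0 : ℝ,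
    ∀ (S : Sys (m + 1)) (N : ℕ) [NeZero N], D0 ≤ S.D → Good S c N x0 →
    ∀ δ : ℝ, S.D ^ (-σ) ≤ δ → δ ≤ 1 / 2 →
    ∀ X : ℕ, S.Q ≤ X → S.Q * S.D ^ (s - σ) ≤ (X : ℝ) → (X : ℝ) ≤ S.Q * S.D ^ s →
    ∀ q0 : ℕ, 1 ≤ q0 → S.P (Fin.last m) * S.D ^ (-ε) / 2 ≤ (X : ℝ) * q0 →
      (X : ℝ) * q0 ≤ S.P (Fin.last m) * S.D ^ (-ε) →
    ∀ (f0 : ZMod N → ℂ) (f : Fin m → ZMod N → ℂ),
    Adm δ⁻¹ S.Q f0 → (∀ i, Adm δ⁻¹ S.Q (f i)) →
    ∀ (r : ZMod N) (cc : ℕ → ℂ) (φ : ℕ → ℝ) (θ : ℕ → ℝ), (∀ j, ‖cc j‖ ≤ 1) →
    (∀ j, |φ j| ≤ δ⁻¹ / S.Q) → (∀ j, cc j ≠ 0 → |φ j - θ (j / q0)| ≤ δ⁻¹ ^ n / X) →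
    δ ^ n ≤ ‖form S c 1 f0 (Fin.snoc (α := fun _ => ZMod N → ℂ) f (bphase X r cc φ))‖ →
    ∃ j, cc j ≠ 0 ∧ |φ j| ≤ δ⁻¹ ^ C / X := by
  set cl := c (Fin.last m) with hcl
  have hcl0 : 0 < cl := hc0 _
  obtain ⟨gap, hgap0, hgap⟩ : ∃ g : ℝ, 0 < g ∧ ∀ i : Fin m, g ≤ cl - c i.castSucc := by
    rcases isEmpty_or_nonempty (Fin m) with he | he
    · exact ⟨1, one_pos, fun i => (he.false i).elim⟩
    · obtain ⟨i0, hi0⟩ := Finite.exists_min (fun i : Fin m => cl - c i.castSucc)
      exact ⟨cl - c i0.castSucc, sub_pos.2 (hc (Fin.castSucc_lt_last i0)), hi0⟩
  obtain ⟨xE, hxE, σE, hσE, DE, HE⟩ := hES (m + 1) 0 c hc.injective hcn 4 (cl + 5) ((cl - s) / 8)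
    (by norm_num) (by linarith)
  obtain ⟨x2, hx2, C2, σ2, hσ2, D2, H2⟩ := hD (min (xE / 2) (1 / 2)) (by positivity)
  have hmin0 : 0 < min (min (x2 / 4) ((cl - s) / 8)) (min (gap / 8) (1 / 8)) := by
    have : 0 < (cl - s) / 8 := by (clear * - hs; linarith)
    (clear * - hx2 hs hgap0; positivity)
  refine ⟨min (min (x2 / 4) ((cl - s) / 8)) (min (gap / 8) (1 / 8)), hmin0,
    fun ε hε hεle n0 => ?_⟩
  exact by
    have hε1 : ε ≤ x2 / 4 := hεle.trans ((min_le_left _ _).trans (min_le_left _ _))
    have hε2 : ε ≤ (cl - s) / 8 := hεle.trans ((min_le_left _ _).trans (min_le_right _ _))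
    have hε3 : ε ≤ gap / 8 := hεle.trans ((min_le_right _ _).trans (min_le_left _ _))
    have hε4 : ε ≤ 1 / 8 := hεle.trans ((min_le_right _ _).trans (min_le_right _ _))
    obtain ⟨n, hn⟩ : ∃ n, n = n0 + 1 := ⟨_, rfl⟩
    obtain ⟨p, hp⟩ : ∃ p, p = (n + 5) * (C2 + 1) := ⟨_, rfl⟩
    have hpn : n + 5 ≤ p := by rw [hp]; (clear * -; nlinarith)
    have hpC : (n + 5) * C2 ≤ p := by rw [hp]; (clear * - hn; nlinarith)
    exact by
      have hp0 : 0 < p := by omega
      obtain ⟨Z, hZ⟩ : ∃ Z, Z = min (min σ2 (ε / 8)) (min (1 / 2) (σE / 2)) := ⟨_, rfl⟩
      have hZ0 : 0 < Z := by rw [hZ]; positivity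
      have hZ1 : Z ≤ σ2 := by rw [hZ]; exact (min_le_left _ _).trans (min_le_left _ _)
      have hZ2 : Z ≤ ε / 8 := by rw [hZ]; exact (min_le_left _ _).trans (min_le_right _ _)
      have hZ3 : Z ≤ 1 / 2 := by rw [hZ]; exact (min_le_right _ _).trans (min_le_left _ _)
      have hZ4 : Z ≤ σE / 2 := by rw [hZ]; exact (min_le_right _ _).trans (min_le_right _ _)
      exact by
        obtain ⟨κ1, hκ1⟩ : ∃ κ1, κ1 = cl * 3 ^ cl := ⟨_, rfl⟩
        have hκ10 : 0 < κ1 := by rw [hκ1]; positivity
        obtain ⟨K0, hK0⟩ : ∃ K0 : ℝ, K0 = 16 * (2 * κ1 + 1) + 2 * 3 ^ cl + 4 := ⟨_, rfl⟩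
        have h3cl : (0 : ℝ) < 3 ^ cl := by positivity
        have hev : ∀ᶠ D : ℝ in Filter.atTop, 26 ≤ D ∧ D2 ≤ D ∧ DE ≤ D ∧ K0 ≤ D ^ (ε / 2) ∧
            3 ≤ D ^ (σE / 2) ∧ 2 ≤ D ^ (xE / 2) := by
          refine (Filter.eventually_ge_atTop _).and ((Filter.eventually_ge_atTop _).and
            ((Filter.eventually_ge_atTop _).and (((tendsto_rpow_atTop (by positivity)).eventually_ge_atTop _).and
            (((tendsto_rpow_atTop (by positivity)).eventually_ge_atTop _).and
            ((tendsto_rpow_atTop (by positivity)).eventually_ge_atTop _)))))
        obtain ⟨D0, hD0⟩ := Filter.eventually_atTop.1 hev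
        have hp0r : (0 : ℝ) < p := by exact_mod_cast hp0
        refine ⟨ε / 4, by (clear * - hε; positivity), p + 2, Z / p, by positivity, D0, ?_⟩
        intro S N _ hSD hG δ hδσ hδ2 X hQX hX1 hX2 q0 hq0 hXq1 hXq2 f0 f hf0 hf r cc φ θ hcc hφ1 hφ2 hform
        obtain ⟨hD26, hDD2, hDDE, hDK0, hDσE, hDxE⟩ := hD0 S.D hSD
        have hD0 : 0 < S.D := by (clear * - hε4 hZ0 hZ2 hD26; linarith)
        have hD1 : 1 ≤ S.D := by (clear * - hε4 hZ0 hZ2 hD26; linarith)
        exact by
          have hδ0 : 0 < δ := lt_of_lt_of_le (Real.rpow_pos_of_pos hD0 _) hδσ
          have hδ1 : δ ≤ 1 := by (clear * - hε4 hZ0 hZ2 hδ2; linarith)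
          -- powers of `δ`
          have hδp : S.D ^ (-Z) ≤ δ ^ p := by
            have h1 : (S.D ^ (-(Z / p))) ^ p = S.D ^ (-Z) := by
              rw [← Real.rpow_mul_natCast hD0.le]
              congr 1
              (clear * - hp0 hZ0; field_simp)
            rw [← h1]
            exact pow_le_pow_left₀ (Real.rpow_nonneg hD0.le _) hδσ p
          have hδq : ∀ q, q ≤ p → ∀ y : ℝ, Z ≤ y → S.D ^ (-y) ≤ δ ^ q := by
            intro q hq y hy
            calc S.D ^ (-y) ≤ S.D ^ (-Z) := Real.rpow_le_rpow_of_exponent_le hD1 (by (clear * - hy; linarith))
              _ ≤ δ ^ p := hδp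
              _ ≤ δ ^ q := pow_le_pow_of_le_one hδ0.le hδ1 hq
          have hexp : ∀ a b : ℝ, a ≤ b → S.D ^ a ≤ S.D ^ b := fun a b hab =>
            Real.rpow_le_rpow_of_exponent_le hD1 hab
          have hadd : ∀ a b : ℝ, S.D ^ a * S.D ^ b = S.D ^ (a + b) := fun a b => (Real.rpow_add hD0 a b).symm
          exact by
            have hK : ∀ k a b : ℝ, k ≤ K0 → a + ε / 2 ≤ b → k * S.D ^ a ≤ S.D ^ b := by
              intro k a b hk hab
              calc k * S.D ^ a ≤ S.D ^ (ε / 2) * S.D ^ a :=
                    mul_le_mul_of_nonneg_right (hk.trans hDK0) (Real.rpow_nonneg hD0.le _)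
                _ = S.D ^ (ε / 2 + a) := hadd _ _
                _ ≤ S.D ^ b := hexp _ _ (by (clear * - hab; linarith))
            have hpos : ∀ a : ℝ, 0 < S.D ^ a := fun a => Real.rpow_pos_of_pos hD0 a
            -- sizes
            have hQ2 : S.D ^ (2 : ℝ) ≤ (S.Q : ℝ) := hG.Q1
            have hQ0 : (0 : ℝ) < S.Q := (hpos _).trans_le hQ2
            have hP0 : ∀ i, 0 < S.P i := fun i => lt_of_lt_of_le (mul_pos hQ0 (hpos _)) (hG.P1 i)
            obtain ⟨P, hP⟩ : ∃ P, P = S.P (Fin.last m) := ⟨_, rfl⟩
            have hPpos : 0 < P := by rw [hP]; exact hP0 _
            exact by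
              rw [← hP] at hXq1 hXq2
              have hP1 : S.Q * S.D ^ (cl - ε / 4) ≤ P := by rw [hP]; exact hG.P1 _
              have hX1n : 1 ≤ X := by
                have : 0 < S.Q := by exact_mod_cast hQ0
                omega
              have hX0 : (0 : ℝ) < X := by exact_mod_cast hX1n
              have hQXr : (S.Q : ℝ) ≤ X := by exact_mod_cast hQX
              obtain ⟨L, hL⟩ : ∃ L, L = X * q0 := ⟨_, rfl⟩
              have hL1 : 1 ≤ L := by rw [hL]; exact Nat.mul_pos hX1n hq0
              have hLr : (L : ℝ) = (X : ℝ) * q0 := by rw [hL]; push_cast; rfl
              exact by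
                rw [← hLr] at hXq1 hXq2
                have hXL : (X : ℝ) ≤ L := by
                  rw [hLr]
                  have : (1 : ℝ) ≤ q0 := by exact_mod_cast hq0
                  exact le_mul_of_one_le_right hX0.le this
                have hL0 : (0 : ℝ) < L := by exact_mod_cast hL1
                -- the short interval
                obtain ⟨T', hT'⟩ : ∃ T', T' = ⌈S.D ^ (1 - 2 * ε)⌉₊ := ⟨_, rfl⟩
                have hT'1 : S.D ^ (1 - 2 * ε) ≤ T' := by rw [hT']; exact Nat.le_ceil _
                have hone : 1 ≤ S.D ^ (1 - 2 * ε) := Real.one_le_rpow hD1 (by (clear * - hε4 hZ0 hZ2; linarith))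
                have hT'2 : (T' : ℝ) ≤ 2 * S.D ^ (1 - 2 * ε) := by
                  have := Nat.ceil_lt_add_one (hpos (1 - 2 * ε)).le
                  rw [← hT'] at this
                  (clear * - hone this; linarith)
                have hT'3 : 1 ≤ T' := by
                  have : (1 : ℝ) ≤ T' := hone.trans hT'1
                  exact_mod_cast this
                exact by
                  have hn1 : n ≤ p := by omega
                  have hδn : S.D ^ (-(ε / 8)) ≤ δ ^ n := hδq n hn1 _ hZ2
                  have hδn0 : 0 < δ ^ n := pow_pos hδ0 n
                  have hTT : (T' : ℝ) ≤ δ ^ n / 2 * S.T := by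
                    have h1 : S.D ^ (1 - ε / 4) ≤ S.T := hG.T1
                    have h2 : 4 * S.D ^ (1 - 2 * ε) ≤ S.D ^ (-(ε / 8) + (1 - ε / 4)) :=
                      hK 4 _ _ (by rw [hK0]; (clear * - hε4 hZ0 hZ2 hκ10 h3cl; linarith)) (by (clear * - hZ0 hZ2; linarith))
                    rw [← hadd] at h2
                    have h3 : S.D ^ (-(ε / 8)) * S.D ^ (1 - ε / 4) ≤ δ ^ n * S.T :=
                      mul_le_mul hδn h1 (hpos _).le hδn0.le
                    (clear * - hT'2 h2 h3; linarith)
                  have hLN : ((X * q0 : ℕ) : ℝ) ≤ δ ^ n / 4 * N := by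
                    rw [← hL]
                    have h1 : P ≤ N * S.D ^ (ε / 4) := by rw [hP]; exact hG.N1 _
                    have h2 : 4 * S.D ^ (ε / 4 + -ε) ≤ S.D ^ (-(ε / 8)) :=
                      hK 4 _ _ (by rw [hK0]; (clear * - hε4 hZ0 hZ2 hκ10 h3cl; linarith)) (by (clear * - hZ0 hZ2; linarith))
                    have h3 : (L : ℝ) ≤ N * S.D ^ (ε / 4) * S.D ^ (-ε) :=
                      hXq2.trans (mul_le_mul_of_nonneg_right h1 (hpos _).le)
                    rw [mul_assoc, hadd] at h3
                    have hN0 : (0 : ℝ) ≤ N := by (clear * -; positivity)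
                    have h4 : (N : ℝ) * (4 * S.D ^ (ε / 4 + -ε)) ≤ N * δ ^ n :=
                      mul_le_mul_of_nonneg_left (h2.trans hδn) hN0
                    (clear * - h3 h4; linarith)
                  have hPD : 1 ≤ P * S.D ^ (-(2 * ε)) := by
                    have h1 : S.D ^ (2 : ℝ) * S.D ^ (cl - ε / 4) ≤ P :=
                      (mul_le_mul_of_nonneg_right hQ2 (hpos _).le).trans hP1
                    rw [hadd] at h1
                    have h2 : S.D ^ (2 + (cl - ε / 4)) * S.D ^ (-(2 * ε)) ≤ P * S.D ^ (-(2 * ε)) :=
                      mul_le_mul_of_nonneg_right h1 (hpos _).le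
                    rw [hadd] at h2
                    exact (Real.one_le_rpow hD1 (by (clear * - hs0 hε2 hε4 hZ0 hZ2; linarith))).trans h2
                  exact by
                    obtain ⟨Bd, hBd⟩ : ∃ Bd, Bd = ⌊P * (κ1 * (T' / S.D)) + 1⌋₊ := ⟨_, rfl⟩
                    have hBd0 : 0 ≤ P * (κ1 * (T' / S.D)) + 1 := by (clear * - hPpos hκ10 hT'3 hD26; positivity)
                    have hTD : (T' : ℝ) / S.D ≤ 2 * S.D ^ (-(2 * ε)) := by
                      rw [div_le_iff₀ hD0]
                      have : S.D ^ (-(2 * ε)) * S.D = S.D ^ (1 - 2 * ε) := by
                        conv_lhs => rw [← Real.rpow_one S.D]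
                        rw [← Real.rpow_mul hD0.le, one_mul, hadd]
                        congr 1; ring
                      rw [mul_assoc, this]
                      exact hT'2
                    have hBdle : (Bd : ℝ) ≤ δ ^ n / 8 * ((X * q0 : ℕ) : ℝ) := by
                      rw [← hL]
                      have h1 : (Bd : ℝ) ≤ P * (κ1 * (T' / S.D)) + 1 := by rw [hBd]; exact Nat.floor_le hBd0
                      have h2 : P * (κ1 * (T' / S.D)) ≤ P * (κ1 * (2 * S.D ^ (-(2 * ε)))) := by (clear * - hTD hκ10 hPpos; gcongr)
                      have h3 : 16 * (2 * κ1 + 1) * S.D ^ (-(2 * ε)) ≤ S.D ^ (-(ε / 8) + -ε) :=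
                        hK _ _ _ (by rw [hK0]; (clear * - hε4 hZ0 hZ2 h3cl; linarith)) (by (clear * - hZ0 hZ2; linarith))
                      rw [← hadd] at h3
                      have h4 : S.D ^ (-(ε / 8)) * (P * S.D ^ (-ε) / 2) ≤ δ ^ n * L :=
                        mul_le_mul hδn hXq1 (by have := hpos (-ε); (clear * - hPpos hD26; positivity)) hδn0.le
                      have h5 : P * (16 * (2 * κ1 + 1) * S.D ^ (-(2 * ε))) ≤ P * (S.D ^ (-(ε / 8)) * S.D ^ (-ε)) :=
                        mul_le_mul_of_nonneg_left h3 hPpos.le
                      (clear * - hPD h1 h2 h4 h5; linarith)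
                    have hu12 : ∀ u' : ℕ, S.u ≤ u' → u' + T' ≤ S.u + S.T →
                        S.D ≤ (u' : ℝ) ∧ (u' : ℝ) + T' ≤ 2 * S.D := by
                      intro u' h1 h2
                      have h3 : (S.u : ℝ) ≤ u' := by exact_mod_cast h1
                      have h4 : (u' : ℝ) + T' ≤ S.u + S.T := by exact_mod_cast h2
                      exact ⟨hG.u1.trans h3, h4.trans hG.u2⟩
                    have hb : ∀ u' k : ℕ, S.u ≤ u' → u' ≤ k → k < u' + T' → u' + T' ≤ S.u + S.T →
                        0 ≤ S.a c (Fin.last m) k - S.a c (Fin.last m) u' ∧
                        S.a c (Fin.last m) k - S.a c (Fin.last m) u' ≤ Bd := by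
                      intro u' k h1 h2 h3 h4
                      obtain ⟨h5, h6⟩ := hu12 u' h1 h4
                      have h7 := lpl_b S c (Fin.last m) hcl0 hG.ρ0 hG.ρ1 hD1 (hP0 _).le T' u' k h5 h2 h3 h6
                      refine ⟨h7.1.1, ?_⟩
                      have h8 := h7.1.2
                      rw [← hcl, ← hκ1, ← hP] at h8
                      have h9 : S.a c (Fin.last m) k - S.a c (Fin.last m) u' ≤ ⌊P * (κ1 * (T' / S.D)) + 1⌋ :=
                        Int.le_floor.2 h8
                      rw [hBd, ← Int.natCast_floor_eq_floor hBd0] at *
                      exact h9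
                    have hPi : ∀ i : Fin m, S.P i.castSucc * 3 ^ (c i.castSucc) ≤ L := by
                      intro i
                      have h1 : S.P i.castSucc ≤ S.Q * S.D ^ (c i.castSucc + ε / 4) := hG.P2 _
                      have h2 : c i.castSucc ≤ cl - gap := by (clear * - hgap; linarith [hgap i])
                      have h3 : (3 : ℝ) ^ (c i.castSucc) ≤ 3 ^ cl :=
                        Real.rpow_le_rpow_of_exponent_le (by norm_num) (by (clear * - hε3 hZ0 hZ2 h2; linarith))
                      have h4 : S.D ^ (c i.castSucc + ε / 4) ≤ S.D ^ (cl - gap + ε / 4) := hexp _ _ (by (clear * - h2; linarith))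
                      have h5 : 2 * 3 ^ cl * S.D ^ (cl - gap + ε / 4) ≤ S.D ^ (cl - ε / 4 + -ε) :=
                        hK _ _ _ (by rw [hK0]; (clear * - hε4 hZ0 hZ2 hκ10; linarith)) (by (clear * - hε3 hZ0 hZ2; linarith))
                      rw [← hadd (cl - ε / 4) (-ε)] at h5
                      have h6 : S.Q * S.D ^ (cl - ε / 4) * S.D ^ (-ε) ≤ P * S.D ^ (-ε) :=
                        mul_le_mul_of_nonneg_right hP1 (hpos _).le
                      calc S.P i.castSucc * 3 ^ (c i.castSucc) ≤ (S.Q * S.D ^ (cl - gap + ε / 4)) * 3 ^ cl := by
                            refine mul_le_mul (h1.trans (mul_le_mul_of_nonneg_left h4 hQ0.le)) h3 (by positivity) ?_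
                            have := hpos (cl - gap + ε / 4)
                            (clear * - hQ0 hD26; positivity)
                        _ = S.Q * (2 * 3 ^ cl * S.D ^ (cl - gap + ε / 4)) / 2 := by ring
                        _ ≤ S.Q * (S.D ^ (cl - ε / 4) * S.D ^ (-ε)) / 2 :=
                            div_le_div_of_nonneg_right (mul_le_mul_of_nonneg_left h5 hQ0.le) (by norm_num)
                        _ ≤ P * S.D ^ (-ε) / 2 := by (clear * - h6; linarith)
                        _ ≤ L := hXq1
                    -- localisation
                    exact by
                      have hform' : δ ^ n ≤ ‖form S c 1 f0 (Fin.snoc (α := fun _ => ZMod N → ℂ) f (bphase X r cc φ))‖ := by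
                        refine le_trans ?_ hform
                        rw [hn]
                        exact pow_le_pow_of_le_one hδ0.le hδ1 (by (clear * - C2 ε n p κ1 S X q0 P L T' Bd; omega))
                      obtain ⟨u', κ, hu1, hu2, hκ, hE2⟩ := lpl_cell S c (δ ^ n) hδn0 X q0 T' Bd hX1n hq0 hT'3 hTT hLN hb
                        hBdle f0 f hf0.bdd (fun i => (hf i).bdd) r cc φ θ hcc hform'
                      obtain ⟨hDu, hDu2⟩ := hu12 u' hu1 hu2
                      obtain ⟨z, hz⟩ : ∃ z : ZMod N, z = r + ((κ * (X * q0) : ℕ) : ZMod N) -
                        (S.a c (Fin.last m) u' : ZMod N) := ⟨_, rfl⟩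
                      rw [← hz] at hE2
                      obtain ⟨j0, hj0, hcj0⟩ : ∃ j, j / q0 = κ ∧ cc j ≠ 0 := by
                        by_contra hcon
                        push Not at hcon
                        have hw0 : ∀ w, cpf X (X * q0) κ cc φ (θ κ) w = 0 := by
                          intro w
                          unfold cpf
                          split_ifs with hw
                          · rw [hcon _ (lpl_cell_index X q0 κ w hX1n hq0 hw), zero_mul]
                          · rfl
                        have h0 : lplE2 S c f0 f X (X * q0) κ z cc φ (θ κ) u' T' = 0 := by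
                          unfold lplE2
                          refine expect_eq_zero fun k _ => expect_eq_zero fun y _ => ?_
                          rw [hw0, zero_mul, mul_zero]
                        rw [h0, norm_zero] at hE2
                        (clear * - hδn0 hE2; linarith)
                      obtain ⟨W, hW⟩ : ∃ W, W = δ⁻¹ ^ n := ⟨_, rfl⟩
                      obtain ⟨ϑ, hϑ⟩ : ∃ ϑ, ϑ = θ κ := ⟨_, rfl⟩
                      have hinv : 2 ≤ δ⁻¹ := by
                        rw [le_inv_comm₀ (by norm_num) hδ0]; (clear * - hδ2; linarith)
                      have hinv1 : 1 ≤ δ⁻¹ := by (clear * - hε4 hZ0 hZ2 hinv; linarith)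
                      have hWδ : δ⁻¹ ≤ W := by
                        rw [hW]; exact le_self_pow₀ hinv1 (by (clear * - C2 ε hn p κ1 S N X q0 P L T' Bd u' κ j0; omega))
                      have hW0 : 0 < W := by (clear * - hε4 hZ0 hZ2 hinv hWδ; linarith)
                      have hφθ : ∀ j, j / q0 = κ → cc j ≠ 0 → |φ j - ϑ| ≤ W / X := by
                        intro j hj hcj
                        have := hφ2 j hcj
                        rw [hj, ← hϑ] at this
                        refine this.trans ?_
                        rw [hW, hn]
                        exact div_le_div_of_nonneg_right (pow_le_pow_right₀ hinv1 (by omega)) hX0.le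
                      exact by
                        have hϑQ : |ϑ| ≤ 2 * W / S.Q := by
                          have h1 := hφθ j0 hj0 hcj0
                          have h2 := hφ1 j0
                          have h3 : |ϑ| ≤ |φ j0| + |φ j0 - ϑ| := by
                            have := abs_sub_abs_le_abs_sub ϑ (φ j0)
                            rw [abs_sub_comm] at this
                            (clear * - this; linarith)
                          have h4 : W / X ≤ W / S.Q := div_le_div_of_nonneg_left hW0.le hQ0 hQXr
                          have h5 : δ⁻¹ / S.Q ≤ W / S.Q := div_le_div_of_nonneg_right hWδ hQ0.le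
                          have h6 : 2 * W / S.Q = W / S.Q + W / S.Q := by ring
                          rw [h6]
                          (clear * - h1 h2 h3 h4 h5; linarith)
                        have hinvq : ∀ q, q ≤ p → ∀ y : ℝ, Z ≤ y → δ⁻¹ ^ q ≤ S.D ^ y := by
                          intro q hq y hy
                          have h1 := hδq q hq y hy
                          rw [Real.rpow_neg hD0.le] at h1
                          rw [inv_pow]
                          exact (inv_le_comm₀ (pow_pos hδ0 q) (hpos y)).2 h1
                        -- the new parameter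
                        obtain ⟨δ', hδ'⟩ : ∃ δ', δ' = δ ^ (n + 5) := ⟨_, rfl⟩
                        have hδ'0 : 0 < δ' := by rw [hδ']; positivity
                        have hδ'1 : S.D ^ (-σ2) ≤ δ' := by rw [hδ']; exact hδq (n + 5) hpn _ hZ1
                        have hδ'2 : δ' ≤ 1 / 2 := by
                          rw [hδ']
                          refine le_trans ?_ hδ2
                          calc δ ^ (n + 5) ≤ δ ^ 1 := pow_le_pow_of_le_one hδ0.le hδ1 (by omega)
                            _ = δ := pow_one δ
                        have hδ'i : 32 * W ≤ δ'⁻¹ := by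
                          rw [hδ', ← inv_pow, pow_add, ← hW]
                          have h32 : (2 : ℝ) ^ 5 ≤ δ⁻¹ ^ 5 := pow_le_pow_left₀ (by norm_num) hinv 5
                          calc 32 * W = W * 2 ^ 5 := by ring
                            _ ≤ W * δ⁻¹ ^ 5 := mul_le_mul_of_nonneg_left h32 hW0.le
                        exact by
                          have hπ0 : 0 < Real.pi := Real.pi_pos
                          have : NeZero (4 * (X * q0)) := ⟨by omega⟩
                          have h4L : ((4 * (X * q0) : ℕ) : ℝ) = 4 * L := by rw [hL]; push_cast; ring
                          have hx2p : ε / 4 ≤ x2 := by (clear * - hε1 hZ0 hZ2; linarith)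
                          have hGood : Good (S.sub u' T') c (4 * (X * q0)) x2 := by
                            refine ⟨hG.ρ0, hG.ρ1, hG.Q1, hG.Q2, fun i => ?_, fun i => ?_, fun i => ?_, ?_, hDu, hDu2, ?_⟩
                            · exact (mul_le_mul_of_nonneg_left (hexp _ _ (by (clear * - hε1 hZ0 hZ2; linarith))) hQ0.le).trans (hG.P1 i)
                            · exact (hG.P2 i).trans (mul_le_mul_of_nonneg_left (hexp _ _ (by (clear * - hε1 hZ0 hZ2; linarith))) hQ0.le)
                            · rw [h4L]
                              exact by
                                have h1x : 1 ≤ S.D ^ x2 := Real.one_le_rpow hD1 hx2.le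
                                change S.P i ≤ 4 * L * S.D ^ x2
                                refine Fin.lastCases ?_ (fun i => ?_) i
                                · rw [← hP]
                                  exact by
                                    have h1 : S.D ^ (-ε) * S.D ^ x2 = S.D ^ (-ε + x2) := hadd _ _
                                    have h2 : 1 ≤ S.D ^ (-ε + x2) := Real.one_le_rpow hD1 (by (clear * - hε1 hZ0 hZ2; linarith))
                                    have h3 : P * S.D ^ (-ε) / 2 * S.D ^ x2 ≤ L * S.D ^ x2 :=
                                      mul_le_mul_of_nonneg_right hXq1 (hpos _).le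
                                    have h4 : P * 1 ≤ P * (S.D ^ (-ε) * S.D ^ x2) := by
                                      rw [h1]; exact mul_le_mul_of_nonneg_left h2 hPpos.le
                                    (clear * - hPpos h3 h4; linarith)
                                · have h1 := hPi i
                                  have h2 : (1 : ℝ) ≤ 3 ^ (c i.castSucc) := Real.one_le_rpow (by norm_num) (hc0 _).le
                                  have h3 : S.P i.castSucc * 1 ≤ S.P i.castSucc * 3 ^ (c i.castSucc) :=
                                    mul_le_mul_of_nonneg_left h2 (hP0 _).le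
                                  have h4 : (L : ℝ) * 1 ≤ L * S.D ^ x2 := mul_le_mul_of_nonneg_left h1x hL0.le
                                  (clear * - hX0 hXL h1 h3 h4; linarith)
                            · rw [h4L]
                              change (S.Q : ℝ) ≤ 4 * L
                              (clear * - hX0 hQXr hXL; linarith)
                            · change S.D ^ (1 - x2) ≤ (T' : ℝ)
                              exact (hexp _ _ (by (clear * - hε1 hZ0 hZ2; linarith))).trans hT'1
                          have hQpos : 0 < S.Q := by exact_mod_cast hQ0
                          -- classes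
                          exact by
                            have hA0 := lpl_classes X q0 S.Q hX1n hq0 hQX hQpos δ⁻¹ W δ'⁻¹ hinv hWδ hδ'i z ϑ hϑQ f0 hf0
                            have hAi := fun i => lpl_classes_i X q0 S.Q hX1n hq0 hQX hQpos δ⁻¹ W δ'⁻¹ hinv hWδ hδ'i z
                              (f i) (hf i)
                            have hAc := lpl_classes_c X q0 κ hX1n hq0 W δ'⁻¹ (hinv.trans hWδ) hδ'i cc φ ϑ hcc hφθ
                              (S.a c (Fin.last m) u' : ZMod (4 * (X * q0)))
                            have hA : ∀ i, Adm (N := 4 * (X * q0)) δ'⁻¹ S.Q ((Fin.snoc (α := fun _ => ZMod (4 * (X * q0)) → ℂ)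
                                (fun i y => f i (z + (y.val : ZMod N)))
                                (fun y => cpf X (X * q0) κ cc φ ϑ (y - (S.a c (Fin.last m) u' : ZMod (4 * (X * q0)))).val) :
                                Fin (m + 1) → ZMod (4 * (X * q0)) → ℂ) i) := by
                              intro i
                              refine Fin.lastCases ?_ (fun i => ?_) i
                              · rw [Fin.snoc_last]
                                exact hAc.mono le_rfl hQ0 hQXr
                              · rw [Fin.snoc_castSucc]
                                exact hAi i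
                            have hkI : ∀ k ∈ Ico u' (u' + T'), u' ≤ k ∧ k < u' + T' := fun k hk => mem_Ico.1 hk
                            have hδn8 : δ ^ n / 8 ≤ 1 := by
                              have := pow_le_one₀ hδ0.le hδ1 (n := n)
                              linarith only [this]
                            exact by
                              have htr := lpl_transport S c f0 f X (X * q0) κ z cc φ ϑ u' T' (hL ▸ hL1)
                                (by
                                  intro i k hk
                                  obtain ⟨hk1, hk2⟩ := hkI k hk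
                                  have h7 := lpl_b S c i.castSucc (hc0 _) hG.ρ0 hG.ρ1 hD1 (hP0 _).le T' u' k hDu hk1 hk2 hDu2
                                  refine ⟨h7.2.1, ?_⟩
                                  have h8 := h7.2.2.trans (hPi i)
                                  rw [hL] at h8
                                  exact_mod_cast h8)
                                (by
                                  intro k hk
                                  obtain ⟨hk1, hk2⟩ := hkI k hk
                                  have h7 := hb u' k hu1 hk1 hk2 hu2
                                  refine ⟨h7.1, h7.2.trans ?_⟩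
                                  have h8 : (Bd : ℝ) ≤ ((X * q0 : ℕ) : ℝ) := by
                                    refine hBdle.trans ?_
                                    exact mul_le_of_le_one_left (by (clear * - hX1n hq0; positivity)) hδn8
                                  exact_mod_cast h8)
                              have hF : δ' ≤ ‖form (N := 4 * (X * q0)) (S.sub u' T') c
                                  (fun k => e (ϑ * ((S.a c (Fin.last m) k - S.a c (Fin.last m) u' : ℤ) : ℝ)))
                                  (fun y => if y.val < X * q0 then f0 (z + (y.val : ZMod N)) * e (ϑ * (y.val : ℝ)) else 0)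
                                  (Fin.snoc (α := fun _ => ZMod (4 * (X * q0)) → ℂ) (fun i y => f i (z + (y.val : ZMod N)))
                                    (fun y => cpf X (X * q0) κ cc φ ϑ (y - (S.a c (Fin.last m) u' : ZMod (4 * (X * q0)))).val))‖ := by
                                rw [htr, norm_mul, hϑ]
                                have h1 : ‖(1 / 4 : ℂ)‖ = 1 / 4 := by norm_num
                                rw [h1, hδ', pow_add]
                                have h2 : δ ^ 5 ≤ 1 / 32 := by
                                  calc δ ^ 5 ≤ (1 / 2) ^ 5 := pow_le_pow_left₀ hδ0.le hδ2 5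
                                    _ = 1 / 32 := by norm_num
                                have h3 : δ ^ n * δ ^ 5 ≤ δ ^ n * (1 / 32) := mul_le_mul_of_nonneg_left h2 hδn0.le
                                linarith only [h3, hE2]
                              have hX1' : S.Q * S.D ^ (s - σ2) ≤ (X : ℝ) := by
                                refine (mul_le_mul_of_nonneg_left (hexp _ _ ?_) hQ0.le).trans hX1
                                have h1 : Z / p ≤ Z := div_le_self hZ0.le (by exact_mod_cast hp0)
                                linarith only [h1, hZ1]
                              obtain ⟨θ', hθ1, hθ2, hθ3⟩ := H2 (S.sub u' T') (4 * (X * q0)) hDD2 hGood δ' hδ'1 hδ'2 X hQXr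
                                hX1' hX2 _ _ _ (fun k => (norm_e _).le) hA0 hA (by rw [Fin.snoc_last]; exact hAc) hF
                              -- the window
                              obtain ⟨ε2, hε2'⟩ : ∃ ε2, ε2 = min (xE / 2) (1 / 2) := ⟨_, rfl⟩
                              rw [← hε2'] at hθ3
                              have hε2a : ε2 ≤ xE / 2 := by rw [hε2']; exact min_le_left _ _
                              have hε2b : ε2 ≤ 1 / 2 := by rw [hε2']; exact min_le_right _ _
                              have hε20 : 0 < ε2 := by rw [hε2']; positivity
                              exact by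
                                obtain ⟨K, hKd⟩ : ∃ K, K = ⌊S.D ^ (1 - ε2)⌋₊ := ⟨_, rfl⟩
                                have hK2 : (K : ℝ) ≤ S.D ^ (1 - ε2) := by rw [hKd]; exact Nat.floor_le (hpos _).le
                                have hK3 : S.D ^ (1 - ε2) < K + 1 := by rw [hKd]; exact Nat.lt_floor_add_one _
                                have hD2 : 2 ≤ S.D ^ (1 - ε2) := by
                                  have h1 : S.D ^ (1 / 2 : ℝ) ≤ S.D ^ (1 - ε2) := hexp _ _ (by linarith only [hε2b])
                                  have h2 : (4 : ℝ) ^ (1 / 2 : ℝ) ≤ S.D ^ (1 / 2 : ℝ) :=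
                                    Real.rpow_le_rpow (by norm_num) (by linarith only [hD26]) (by norm_num)
                                  have h3 : (4 : ℝ) ^ (1 / 2 : ℝ) = 2 := by
                                    rw [← Real.sqrt_eq_rpow, show (4 : ℝ) = 2 ^ 2 by norm_num]
                                    exact Real.sqrt_sq (by norm_num)
                                  linarith only [h1, h2, h3]
                                have hK1 : 1 ≤ K := by
                                  have : (1 : ℝ) ≤ K := by linarith only [hK3, hD2]
                                  exact_mod_cast this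
                                have hK4 : S.D ^ (1 - xE) ≤ K := by
                                  have h1 : 2 ≤ S.D ^ (xE - ε2) := hDxE.trans (hexp _ _ (by linarith only [hε2a]))
                                  have h2 : S.D ^ (1 - ε2) = S.D ^ (xE - ε2) * S.D ^ (1 - xE) := by
                                    rw [hadd]; congr 1; ring
                                  have h3 : 2 * S.D ^ (1 - xE) ≤ S.D ^ (1 - ε2) := by
                                    rw [h2]; exact mul_le_mul_of_nonneg_right h1 (hpos _).le
                                  linarith only [h3, hK3, hD2]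
                                have hKD : (K : ℝ) ≤ S.D := by
                                  refine hK2.trans ?_
                                  calc S.D ^ (1 - ε2) ≤ S.D ^ (1 : ℝ) := hexp _ _ (by linarith only [hε20])
                                    _ = S.D := Real.rpow_one _
                                exact by
                                  have hθ3' := hθ3 K hK1 hK2
                                  have hδC : δ' ^ C2 = δ ^ ((n + 5) * C2) := by rw [hδ', ← pow_mul]
                                  have hδC' : δ'⁻¹ ^ C2 = δ⁻¹ ^ ((n + 5) * C2) := by rw [hδ', ← inv_pow, ← pow_mul]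
                                  have hfin := lpl_final S c θ' ϑ (δ' ^ C2) (S.D ^ ((cl - s) / 8)) (S.D ^ (-σE)) (S.D ^ (cl + 5)) u' T' K
                                    hT'3 hDu hDu2 hKD
                                    (by
                                      have h1 : S.D ^ (-(σE / 2)) ≤ δ' ^ C2 := by rw [hδC]; exact hδq _ hpC _ hZ4
                                      have h2 : S.D ^ (-(σE / 2)) = S.D ^ (-σE) * S.D ^ (σE / 2) := by
                                        rw [hadd]; congr 1; ring
                                      have h3 : S.D ^ (-σE) * 3 ≤ S.D ^ (-σE) * S.D ^ (σE / 2) :=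
                                        mul_le_mul_of_nonneg_left hDσE (hpos _).le
                                      have h4 := hpos (-σE)
                                      linarith only [h1, h2, h3, h4])
                                    (by
                                      have h1 : S.D ^ (-(1 / 2 : ℝ)) ≤ δ' ^ C2 := by rw [hδC]; exact hδq _ hpC _ hZ3
                                      have h2 : W ≤ S.D ^ (1 / 2 : ℝ) := by rw [hW]; exact hinvq n hn1 _ hZ3
                                      have h3 : |ϑ| ≤ 2 * S.D ^ (1 / 2 : ℝ) / S.D ^ (2 : ℝ) :=
                                        hϑQ.trans (div_le_div₀ (by have := hpos (1 / 2); positivity)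
                                          (mul_le_mul_of_nonneg_left h2 (by norm_num)) (hpos _) hQ2)
                                      have h4 : 2 * S.D ^ (1 / 2 : ℝ) / S.D ^ (2 : ℝ) = 2 * S.D ^ (-(3 / 2) : ℝ) := by
                                        rw [mul_div_assoc, ← Real.rpow_sub hD0]; congr 2; norm_num
                                      rw [h4] at h3
                                      have h5 : S.D ^ (-(1 / 2 : ℝ)) = S.D ^ (1 : ℝ) * S.D ^ (-(3 / 2) : ℝ) := by
                                        rw [hadd]; congr 1; norm_num
                                      rw [Real.rpow_one] at h5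
                                      have h6 : 26 * S.D ^ (-(3 / 2) : ℝ) ≤ S.D * S.D ^ (-(3 / 2) : ℝ) :=
                                        mul_le_mul_of_nonneg_right hD26 (hpos _).le
                                      have h7 : 2 * Real.pi * |ϑ| ≤ 2 * 3.15 * (2 * S.D ^ (-(3 / 2) : ℝ)) :=
                                        mul_le_mul (mul_le_mul_of_nonneg_left Real.pi_lt_d2.le (by norm_num)) h3 (abs_nonneg _)
                                          (by norm_num)
                                      have h8 := hpos (-(3 / 2) : ℝ)
                                      exact by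
                                        linarith only [h1, h5, h6, h7, h8])
                                    (by
                                      intro v hv1 hv2 k hk1 hk2
                                      have h1 := HE S.D hDDE S.ρ hG.ρ0 hG.ρ1 v hv1 hv2 0 (by simp) k K hk1 hk2 hK4
                                      simpa only [Polynomial.eval_zero, add_zero] using h1)
                                    (by
                                      intro i
                                      have h1 : |θ' i| ≤ S.D ^ (1 / 2 : ℝ) / S.Q := by
                                        refine (hθ1 i).trans ?_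
                                        rw [hδC']
                                        exact div_le_div_of_nonneg_right (hinvq _ hpC _ hZ3) hQ0.le
                                      have h2 : |ϑ| ≤ 2 * S.D ^ (1 / 2 : ℝ) / S.Q := by
                                        refine hϑQ.trans (div_le_div_of_nonneg_right ?_ hQ0.le)
                                        rw [hW]
                                        exact mul_le_mul_of_nonneg_left (hinvq n hn1 _ hZ3) (by norm_num)
                                      have hci : c i ≤ cl := hc.monotone (Fin.le_last i)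
                                      have h3 : S.P i ≤ S.Q * S.D ^ (cl + 1) :=
                                        (hG.P2 i).trans (mul_le_mul_of_nonneg_left (hexp _ _ (by linarith only [hci, hε4])) hQ0.le)
                                      rw [abs_mul, abs_mul, abs_of_pos (hP0 i), ← add_mul]
                                      have h4 : |θ' i| + |ϑ| ≤ 3 * S.D ^ (1 / 2 : ℝ) / S.Q := by
                                        have : 3 * S.D ^ (1 / 2 : ℝ) / S.Q = S.D ^ (1 / 2 : ℝ) / S.Q + 2 * S.D ^ (1 / 2 : ℝ) / S.Q := by
                                          ring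
                                        linarith only [h1, h2, this]
                                      calc (|θ' i| + |ϑ|) * S.P i ≤ (3 * S.D ^ (1 / 2 : ℝ) / S.Q) * (S.Q * S.D ^ (cl + 1)) :=
                                            mul_le_mul h4 h3 (hP0 i).le (by have := hpos (1 / 2); (clear * - hD26 hQpos; positivity))
                                        _ = 3 * (S.D ^ (1 / 2 : ℝ) * S.D ^ (cl + 1)) := by (clear * - hQpos hD26; field_simp)
                                        _ = 3 * S.D ^ (1 / 2 + (cl + 1)) := by rw [hadd]
                                        _ ≤ S.D * S.D ^ (1 / 2 + (cl + 1)) :=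
                                            mul_le_mul_of_nonneg_right (by linarith only [hD26]) (hpos _).le
                                        _ = S.D ^ (1 + (1 / 2 + (cl + 1))) := by
                                            rw [← hadd 1, Real.rpow_one]
                                        _ ≤ S.D ^ (cl + 5) := hexp _ _ (by linarith only))
                                    hθ3'
                                  -- conclusion
                                  rw [← add_mul, abs_mul, ← hP, abs_of_pos hPpos] at hfin
                                  have hXP : (X : ℝ) * S.D ^ ((cl - s) / 8) ≤ P := by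
                                    calc (X : ℝ) * S.D ^ ((cl - s) / 8) ≤ (S.Q * S.D ^ s) * S.D ^ ((cl - s) / 8) :=
                                          mul_le_mul_of_nonneg_right hX2 (hpos _).le
                                      _ = S.Q * S.D ^ (s + (cl - s) / 8) := by rw [mul_assoc, hadd]
                                      _ ≤ S.Q * S.D ^ (cl - ε / 4) :=
                                          mul_le_mul_of_nonneg_left (hexp _ _ (by linarith only [hε2, hs])) hQ0.le
                                      _ ≤ P := hP1
                                  have hϑX : |θ' (Fin.last m) + ϑ| ≤ 1 / X := by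
                                    rw [le_div_iff₀ hX0]
                                    have h1 : |θ' (Fin.last m) + ϑ| * P * X ≤ S.D ^ ((cl - s) / 8) * X :=
                                      mul_le_mul_of_nonneg_right hfin.le hX0.le
                                    have h2 : |θ' (Fin.last m) + ϑ| * X * P ≤ 1 * P := by linarith only [h1, hXP]
                                    exact le_of_mul_le_mul_right h2 hPpos
                                  have hϑ1 : |ϑ| ≤ |θ' (Fin.last m) + ϑ| + |θ' (Fin.last m)| := by
                                    have := abs_sub (θ' (Fin.last m) + ϑ) (θ' (Fin.last m))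
                                    rw [add_sub_cancel_left] at this
                                    exact this
                                  exact by
                                    refine ⟨j0, hcj0, ?_⟩
                                    have h1 : |φ j0| ≤ |φ j0 - ϑ| + |ϑ| := by
                                      have := abs_add_le (φ j0 - ϑ) ϑ
                                      rwa [sub_add_cancel] at this
                                    have h2 := hφθ j0 hj0 hcj0
                                    have h3 : W ≤ δ⁻¹ ^ p := by rw [hW]; exact pow_le_pow_right₀ hinv1 hn1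
                                    have h4 : δ'⁻¹ ^ C2 ≤ δ⁻¹ ^ p := by rw [hδC']; exact pow_le_pow_right₀ hinv1 hpC
                                    have h5 : 1 ≤ δ⁻¹ ^ p := one_le_pow₀ hinv1
                                    have h6 : (2 : ℝ) ^ 2 ≤ δ⁻¹ ^ 2 := pow_le_pow_left₀ (by norm_num) hinv 2
                                    exact by
                                      have h7 : δ⁻¹ ^ p * 2 ^ 2 ≤ δ⁻¹ ^ p * δ⁻¹ ^ 2 := mul_le_mul_of_nonneg_left h6 (by linarith only [h5])
                                      have h8 : W / X + (1 / X + δ'⁻¹ ^ C2 / X) = (W + 1 + δ'⁻¹ ^ C2) / X := by ring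
                                      have h9 : W / X + (1 / X + δ'⁻¹ ^ C2 / X) ≤ δ⁻¹ ^ (p + 2) / X := by
                                        rw [h8, pow_add]
                                        refine div_le_div_of_nonneg_right ?_ hX0.le
                                        linarith only [h3, h4, h5, h7]
                                      linarith only [h1, h2, h9, hϑ1, hϑX, hθ2]

end

end Pool.Agent.Helper57.NX

end

section

set_option autoImplicit false

open Finset

open scoped BigOperators ComplexConjugate

namespace Pool.Agent.Helper57.NX

/-- NX-16 -/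
theorem lpp (hES : ES0) (m : ℕ) (c : Fin (m + 1) → ℝ) (hc : StrictMono c) (hc0 : ∀ i, 0 < c i)
    (hcn : ∀ i (n : ℕ), c i ≠ n) (s : ℝ) (hs0 : 0 ≤ s) (hs : s < c (Fin.last m))
    (hT : ∀ ε : ℝ, 0 < ε → TopP m c s ε)
    (hD : ∀ ε : ℝ, 0 < ε → DsP m c s ε) : LPP m c s :=
  lpp_core m c s hs (fun ε hε => lp_align m c s ε hs0 hε (hT ε hε))
    (lp_local hES m c hc hc0 hcn s hs0 hs hD)

end Pool.Agent.Helper57.NX

end
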