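import Pool.Agent.Helper23.MC.L03_a0
import Pool.Agent.Helper23.MC.L03_a1
import Pool.Agent.Helper23.MC.L03_a2
import Pool.Agent.Helper23.MC.L03_a3
import Pool.Agent.Helper23.MC.L03_a4
import Pool.Agent.Helper23.MC.L03_a5

/-!
Parts of Helper15.NX2.DaggerOf, Helper67.NX2.PartA, Helper67.NX2.PartB, Helper82.NX.Gnc, Helper57.NX.Final, Helper67.NX2.AllExp
-/

attribute [local instance 5000]
  Pool.Agent.Helper23.MC.Inst.rCharZero Pool.Agent.Helper23.MC.Inst.rALM
  Pool.Agent.Helper23.MC.Inst.rARM Pool.Agent.Helper23.MC.Inst.rALSM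
  Pool.Agent.Helper23.MC.Inst.rARSM Pool.Agent.Helper23.MC.Inst.rARRLE
  Pool.Agent.Helper23.MC.Inst.rALRLE Pool.Agent.Helper23.MC.Inst.rARRLT
  Pool.Agent.Helper23.MC.Inst.rALRLT Pool.Agent.Helper23.MC.Inst.rPMRLT
  Pool.Agent.Helper23.MC.Inst.rMPRLT Pool.Agent.Helper23.MC.Inst.rPMM
  Pool.Agent.Helper23.MC.Inst.rMPM Pool.Agent.Helper23.MC.Inst.rPMSM
  Pool.Agent.Helper23.MC.Inst.rMPSM Pool.Agent.Helper23.MC.Inst.rEAOL
  Pool.Agent.Helper23.MC.Inst.rIOR Pool.Agent.Helper23.MC.Inst.rISOR
  Pool.Agent.Helper23.MC.Inst.rNZD Pool.Agent.Helper23.MC.Inst.rcCharZero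
  Pool.Agent.Helper23.MC.Inst.rcNZD Pool.Agent.Helper23.MC.Inst.zCharZero
  Pool.Agent.Helper23.MC.Inst.zALM Pool.Agent.Helper23.MC.Inst.zARM
  Pool.Agent.Helper23.MC.Inst.zALSM Pool.Agent.Helper23.MC.Inst.zARSM
  Pool.Agent.Helper23.MC.Inst.zIOR Pool.Agent.Helper23.MC.Inst.zISOR
  Pool.Agent.Helper23.MC.Inst.zNZD Pool.Agent.Helper23.MC.Inst.qCharZero
  Pool.Agent.Helper23.MC.Inst.mR Pool.Agent.Helper23.MC.Inst.mC Pool.Agent.Helper23.MC.Inst.mRC
  Pool.Agent.Helper23.MC.Inst.rPSM Pool.Agent.Helper23.MC.Inst.rCSM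
  Pool.Agent.Helper23.MC.Inst.cAdd Pool.Agent.Helper23.MC.Inst.cAddM
  Pool.Agent.Helper23.MC.Inst.cMul Pool.Agent.Helper23.MC.Inst.cMon

namespace Pool.Agent.Helper57.NX
end Pool.Agent.Helper57.NX
namespace Pool.Agent.Helper67.NX2
end Pool.Agent.Helper67.NX2

section

set_option autoImplicit false

open Finset

open scoped BigOperators ComplexConjugate

namespace Pool.Agent.Helper67.NX2

open Pool.Agent.Helper57.NX

noncomputable section

set_option maxHeartbeats 1000000 in
theorem dagger_of15 (hdl : DlTot15) (m : ℕ) (c : Fin (m + 1) → ℝ) (hc : Ex c) (d : ℕ)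
    (hd : c (Fin.last m) = d) (s : ℝ) (hs0 : 0 < s) (hs : s < 1) (hlp : LpSt15 m c s) :
    ∀ κ : ℝ, 0 < κ → ∃ x0 : ℝ, 0 < x0 ∧ ∃ C : ℕ, ∃ σ : ℝ, 0 < σ ∧ ∃ D0 : ℝ,
    ∀ (S : Sys (m + 1)) (N : ℕ) [NeZero N] (lam : ℕ), D0 ≤ S.D → IG S c N x0 lam →
    ∀ δ : ℝ, S.D ^ (-σ) ≤ δ → δ ≤ 1 / 2 → (lam : ℝ) ≤ δ⁻¹ →
    ∀ (f0 : ZMod N → ℂ) (f : Fin (m + 1) → ZMod N → ℂ),
    Adm δ⁻¹ S.Q f0 → (∀ i, Adm δ⁻¹ S.Q (f i)) → δ ≤ ‖form S c 1 f0 f‖ →
    ∃ q : ℕ, 1 ≤ q ∧ (q : ℝ) ≤ δ⁻¹ ^ C ∧ ∀ L : ℕ, 1 ≤ L → (L : ℝ) ≤ S.D ^ (s - κ) →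
      δ ^ C ≤ nrm (Aq (S.Q * q) L (dual S c 1 f0 f (Fin.last m))) := by
  intro κ hκ
  obtain ⟨xg, hxg, r, Cg, σg, hσg, Dg, hg⟩ := gnc_arith m c hc d hd (1 - s) (by (clear * - hs; linarith))
  obtain ⟨xl, hxl, Cl, σl, hσl, Dl, hl⟩ := hlp
  obtain ⟨n4, h4⟩ := hdl r
    (fun nq n2 => Cl * (max n2 (nq + (m + 3) * Cg) + r + 2)) ((m + 3) * Cg)
  set n : ℕ := (m + 3) * Cg with hn
  set K : ℕ := n4 + n + r + 2 with hK
  set Ka : ℕ := (m + 3) + K + Cl * K + n4 + n + 1 with hKa
  set τ : ℝ := min σg (min σl (min κ s)) with hτ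
  have hτ0 : 0 < τ := lt_min hσg (lt_min hσl (lt_min hκ hs0))
  have hτg : τ ≤ σg := min_le_left _ _
  exact by
    have hτl : τ ≤ σl := (min_le_right _ _).trans (min_le_left _ _)
    have hτκ : τ ≤ κ := (min_le_right _ _).trans ((min_le_right _ _).trans (min_le_left _ _))
    have hτs : τ ≤ s := (min_le_right _ _).trans ((min_le_right _ _).trans (min_le_right _ _))
    have hKa1 : (1 : ℝ) ≤ (Ka : ℝ) := by
      have : 1 ≤ Ka := by omega
      exact_mod_cast this
    clear_value τ
    have hσ0 : 0 < τ / (8 * Ka) := by (clear * - hτ0; positivity)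
    refine ⟨min xg (min xl (1 / 4)), lt_min hxg (lt_min hxl (by norm_num)), n4 + n,
      τ / (8 * Ka), hσ0, max Dg (max Dl (2 ^ (8 / τ))), ?_⟩
    intro S N _ lam hSD hI δ hδ1 hδ2 hlam f0 f h0 hf hform
    have hDg : Dg ≤ S.D := (le_max_left _ _).trans hSD
    have hDl : Dl ≤ S.D := (le_max_left _ _).trans ((le_max_right _ _).trans hSD)
    have hD2 : (2 : ℝ) ^ (8 / τ) ≤ S.D := (le_max_right _ _).trans ((le_max_right _ _).trans hSD)
    have hD1' : 1 < S.D := lt_of_lt_of_le (Real.one_lt_rpow (by norm_num) (by positivity)) hD2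
    have hD1 : 1 ≤ S.D := hD1'.le
    have hD0 : 0 < S.D := by (clear * - hs0 hs hD1'; linarith)
    have hDτ : 2 ≤ S.D ^ (τ / 8) := by
      calc (2 : ℝ) = ((2 : ℝ) ^ (8 / τ)) ^ (τ / 8) := by
            rw [← Real.rpow_mul (by norm_num)]
            rw [show 8 / τ * (τ / 8) = 1 by (clear * - hτ0; field_simp), Real.rpow_one]
        _ ≤ S.D ^ (τ / 8) := Real.rpow_le_rpow (by positivity) hD2 (by (clear * - hτ0; positivity))
    have hδ0 : 0 < δ := lt_of_lt_of_le (Real.rpow_pos_of_pos hD0 _) hδ1
    exact by
      have hδle1 : δ ≤ 1 := by (clear * - hs0 hs hδ2; linarith)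
      have hδi : 1 ≤ δ⁻¹ := (one_le_inv₀ hδ0).2 hδle1
      have hδi2 : 2 ≤ δ⁻¹ := by
        rw [le_inv_comm₀ (by norm_num) hδ0]
        (clear * - hδ2; linarith)
      -- powers of `δ`
      have hpow : ∀ j : ℕ, j ≤ Ka → S.D ^ (-(τ / 8)) ≤ δ ^ j := by
        intro j hj
        refine pow_ge15 hD1 hσ0.le (le_of_eq ?_) hδ1 hj
        (clear * - hKa1 hτ0; field_simp)
      have hpowi : ∀ j : ℕ, j ≤ Ka → δ⁻¹ ^ j ≤ S.D ^ (τ / 8) := fun j hj =>
        inv_pow_le15 hD0 (hpow j hj)
      -- the prime
      obtain ⟨p, hp, hN⟩ := hI.prime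
      haveI : NeZero p := ⟨hp.ne_zero⟩
      exact by
        have hIg : IG S c N xg lam := hI.mono (min_le_left _ _) hD1
        have hIl : IG S c N xl lam := hI.mono ((min_le_right _ _).trans (min_le_left _ _)) hD1
        have hI4 : IG S c N (1 / 4) lam := hI.mono ((min_le_right _ _).trans (min_le_right _ _)) hD1
        have hQ0 : (0 : ℝ) < S.Q := lt_of_lt_of_le (Real.rpow_pos_of_pos hD0 _) hI4.good.Q1
        have hQ1 : 0 < S.Q := by exact_mod_cast hQ0
        haveI : NeZero S.Q := ⟨hQ1.ne'⟩
        exact by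
          have hpD : S.D ≤ p := by
            have e1 := (hI4.good.P1 (Fin.last m)).trans (hI4.good.N1 (Fin.last m))
            rw [hN] at e1
            push_cast at e1
            rw [mul_assoc] at e1
            have e2 : S.D ^ (c (Fin.last m) - 1 / 4) ≤ p * S.D ^ ((1 : ℝ) / 4) := le_of_mul_le_mul_left e1 hQ0
            have e3 : S.D * S.D ^ ((1 : ℝ) / 4) ≤ S.D ^ (c (Fin.last m) - 1 / 4) := by
              rw [← Real.rpow_one_add' hD0.le (by norm_num)]
              apply Real.rpow_le_rpow_of_exponent_le hD1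
              have := hc.two (Fin.last m)
              (clear * - hs0 hs this; linarith)
            exact le_of_mul_le_mul_right (e3.trans e2) (Real.rpow_pos_of_pos hD0 _)
          -- the dual function
          set F : ZMod N → ℂ := dual S c 1 f0 f (Fin.last m) with hF
          have hIne : S.I.Nonempty := by
            have hT1 : (0 : ℝ) < S.T := lt_of_lt_of_le (Real.rpow_pos_of_pos hD0 _) hI4.good.T1
            have hT2 : 0 < S.T := by exact_mod_cast hT1
            exact ⟨S.u, mem_Ico.2 ⟨le_rfl, by omega⟩⟩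
          set u : ZMod N → ℂ := fun x => conj (F x) with hu
          have huA : Adm ((m + 1 : ℕ) * δ⁻¹) S.Q u := by
            refine Adm.cnj ?_
            exact Adm.dual hQ0 S c 1 (fun k => by simp) (Fin.last m) h0 (fun j _ => hf j) hIne
          -- the generalised von Neumann theorem
          set δ1 : ℝ := δ ^ (m + 3) with hδ1def
          exact by
            have hδ10 : 0 < δ1 := pow_pos hδ0 _
            have hδ1i : δ1⁻¹ = δ⁻¹ ^ (m + 3) := by rw [hδ1def, inv_pow]
            have hδδ1 : δ⁻¹ ≤ δ1⁻¹ := by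
              rw [hδ1i]
              exact le_self_pow₀ hδi (by omega)
            have hmδ : ((m + 1 : ℕ) : ℝ) * δ⁻¹ ≤ δ1⁻¹ := by
              rw [hδ1i]
              calc ((m + 1 : ℕ) : ℝ) * δ⁻¹ ≤ 2 ^ (m + 1) * δ⁻¹ := by
                    apply mul_le_mul_of_nonneg_right _ (by positivity)
                    have : m + 1 < 2 ^ (m + 1) := Nat.lt_two_pow_self
                    exact_mod_cast this.le
                _ ≤ δ⁻¹ ^ (m + 1) * δ⁻¹ := by
                    apply mul_le_mul_of_nonneg_right _ (by positivity)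
                    exact pow_le_pow_left₀ (by norm_num) hδi2 _
                _ = δ⁻¹ ^ (m + 2) := by ring
                _ ≤ δ⁻¹ ^ (m + 3) := pow_le_pow_right₀ hδi (by omega)
            obtain ⟨q0, hq01, hq0, hbox⟩ := hg S N lam hDg hIg δ1
              ((Real.rpow_le_rpow_of_exponent_le hD1 (by (clear * - hσg hτg; linarith))).trans (hpow (m + 3) (by omega)))
              ((pow_le_of_le_one hδ0.le hδle1 (by omega)).trans hδ2) (hlam.trans hδδ1) f0
              (Function.update f (Fin.last m) u) (h0.mono hδδ1 hQ0 le_rfl)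
              (fun i => by
                by_cases hi : i = Fin.last m
                · subst hi
                  rw [Function.update_self]
                  exact huA.mono hmδ hQ0 le_rfl
                · rw [Function.update_of_ne hi]
                  exact (hf i).mono hδδ1 hQ0 le_rfl)
              (by
                rw [form_dual15, Complex.norm_real, Real.norm_of_nonneg
                  (expect_nonneg fun _ _ => by (clear * -; positivity))]
                refine le_trans ?_ (sq_le_dual15 S c f0 f (hf (Fin.last m)).bdd hδ0.le hform)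
                exact pow_le_pow_of_le_one hδ0.le hδle1 (by omega))
            have hCg : δ1 ^ Cg = δ ^ n := by rw [hδ1def, ← pow_mul]
            have hCgi : δ1⁻¹ ^ Cg = δ⁻¹ ^ n := by rw [hδ1i, ← pow_mul]
            exact by
              rw [hCgi] at hq0
              rw [Function.update_self] at hbox
              -- the length
              set H : ℕ := ⌊S.D ^ (s - τ / 2)⌋₊ with hH
              have hH1 : (H : ℝ) ≤ S.D ^ (s - τ / 2) := Nat.floor_le (by (clear * - hD1'; positivity))
              have hH2 : S.D ^ (s - 5 * τ / 8) ≤ (H : ℝ) := by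
                have e1 : 1 ≤ S.D ^ (s - τ / 2) := Real.one_le_rpow hD1 (by (clear * - hs0 hτs; linarith))
                have e2 : S.D ^ (s - τ / 2) < H + 1 := Nat.lt_floor_add_one _
                have e4 : 1 ≤ H := Nat.floor_pos.2 e1
                have e4' : (1 : ℝ) ≤ H := by exact_mod_cast e4
                have e5 : S.D ^ (s - τ / 2) = S.D ^ (s - 5 * τ / 8) * S.D ^ (τ / 8) := by
                  rw [← Real.rpow_add hD0]
                  congr 1
                  ring
                have e6 : S.D ^ (s - 5 * τ / 8) * 2 ≤ S.D ^ (s - 5 * τ / 8) * S.D ^ (τ / 8) :=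
                  mul_le_mul_of_nonneg_left hDτ (by positivity)
                (clear * - e2 e4' e5 e6; linarith)
              have hHpos : 1 ≤ H := Nat.floor_pos.2 (Real.one_le_rpow hD1 (by (clear * - hs0 hτs; linarith)))
              have hbox1 : δ ^ n ≤ 𝔼 e : Fin S.Q, Box r H (fib (p := p) S.Q q0 u e) := by
                rw [← hCg]
                refine (hbox H hHpos (hH1.trans ?_)).trans (le_of_eq ?_)
                · apply Real.rpow_le_rpow_of_exponent_le hD1
                  (clear * - hτ0; linarith)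
                · refine Boxq_fib hp hN hq01 ?_ r H u
                  have e1 : (q0 : ℝ) ≤ S.D ^ (τ / 8) := hq0.trans (hpowi n (by omega))
                  have e2 : S.D ^ (τ / 8) < S.D := by
                    conv_rhs => rw [← Real.rpow_one S.D]
                    exact Real.rpow_lt_rpow_of_exponent_lt hD1' (by (clear * - hs0 hs hτs; linarith))
                  exact_mod_cast lt_of_le_of_lt e1 (lt_of_lt_of_le e2 hpD)
              have hlt : ∀ t : ℕ, (t : ℝ) ≤ S.D ^ (τ / 8) → t < p := by
                intro t ht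
                have e2 : S.D ^ (τ / 8) < S.D := by
                  conv_rhs => rw [← Real.rpow_one S.D]
                  exact Real.rpow_lt_rpow_of_exponent_lt hD1' (by (clear * - hs0 hs hτs; linarith))
                exact_mod_cast lt_of_le_of_lt ht (lt_of_lt_of_le e2 hpD)
              exact by
                have hn4H : ∀ j : ℕ, j ≤ Ka → S.D ^ (s - 3 * τ / 4) ≤ δ ^ j * H := by
                  intro j hj
                  calc S.D ^ (s - 3 * τ / 4) = S.D ^ (-(τ / 8)) * S.D ^ (s - 5 * τ / 8) := by
                        rw [← Real.rpow_add hD0]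
                        congr 1
                        ring
                    _ ≤ δ ^ j * H := mul_le_mul (hpow j hj) hH2 (by positivity) (by positivity)
                obtain ⟨q1, hq11, hq1, hfin⟩ := h4 p (Fin S.Q) ℕ S.I
                  (fun k e => fib (p := p) S.Q q0 (Fk67 S c f0 (fun i => f i.castSucc) k) e)
                  (fun e => fib (p := p) S.Q q0 u e) δ H hp hIne
                  (fun k e z => norm_Fk_le67 S c f0 (fun i => f i.castSucc) h0.bdd (fun i => (hf _).bdd) k _)
                  (fun e z => by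
                    simp only [fib, hu, hF]
                    rw [dual_last67])
                  hδ0 hδ2
                  (by
                    refine ((hpowi n4 (by omega)).trans ?_).trans hH2
                    apply Real.rpow_le_rpow_of_exponent_le hD1
                    (clear * - hs0 hτs; linarith))
                  (by
                    refine hH1.trans ?_
                    calc S.D ^ (s - τ / 2) ≤ S.D ^ (-(τ / 8)) * S.D := by
                          rw [← Real.rpow_add_one' hD0.le (by (clear * - hs0 hs hτs; linarith))]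
                          apply Real.rpow_le_rpow_of_exponent_le hD1
                          (clear * - hs hτ0; linarith)
                      _ ≤ δ ^ n4 * p := mul_le_mul (hpow n4 (by omega)) hpD hD0.le (by positivity))
                  hbox1
                  (by
                    intro nq hnq q hq hqδ k hk n2 hn2 X2 X' hX2 hX2H hX' hX'X2
                    intro a ha b hb r' cc φ hcc hmaj
                    have hK' : max n2 (nq + n) + r + 2 ≤ K := by
                      have : max n2 (nq + n) ≤ n4 + n := max_le (by omega) (by omega)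
                      omega
                    have hClK : (max n2 (nq + n) + r + 2) * Cl ≤ Ka := by
                      have : (max n2 (nq + n) + r + 2) * Cl ≤ Cl * K := by
                        rw [mul_comm]
                        exact Nat.mul_le_mul_left _ hK'
                      omega
                    set K' : ℕ := max n2 (nq + n) + r + 2 with hK'def
                    set δ' : ℝ := δ ^ K' with hδ'
                    have hδ'0 : 0 < δ' := pow_pos hδ0 _
                    have hδ'i : δ'⁻¹ = δ⁻¹ ^ K' := by rw [hδ', inv_pow]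
                    have hδδ' : δ⁻¹ ≤ δ'⁻¹ := by
                      rw [hδ'i]
                      exact le_self_pow₀ hδi (by omega)
                    have hδ'C : δ'⁻¹ ^ Cl = δ⁻¹ ^ (Cl * K') := by rw [hδ'i, ← pow_mul, mul_comm]
                    exact by
                      have hqq : ((q0 * q : ℕ) : ℝ) ≤ δ⁻¹ ^ (nq + n) := by
                        push_cast
                        calc (q0 : ℝ) * q ≤ δ⁻¹ ^ n * δ⁻¹ ^ nq := mul_le_mul hq0 hqδ (by positivity) (by positivity)
                          _ = δ⁻¹ ^ (nq + n) := by rw [← pow_add, add_comm]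
                      have hqqp : q0 * q < p := hlt _ (hqq.trans (hpowi _ (by
                        have := le_max_right n2 (nq + n)
                        omega)))
                      have hX2pos : 1 ≤ X2 := hX'.trans hX'X2
                      have hcubeA : ∀ g : ZMod N → ℂ, Adm δ⁻¹ S.Q g →
                          Adm δ'⁻¹ S.Q (cubeq (S.Q * (q0 * q)) g a b) := by
                        intro g hg'
                        refine (Adm.cubq hQ0 hg' (S.Q * (q0 * q)) k a b).mono ?_ hQ0 le_rfl
                        rw [hδ'i]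
                        calc (2 : ℝ) ^ k * δ⁻¹ ≤ δ⁻¹ ^ k * δ⁻¹ :=
                              mul_le_mul_of_nonneg_right (pow_le_pow_left₀ (by norm_num) hδi2 _) (by positivity)
                          _ = δ⁻¹ ^ (k + 1) := by ring
                          _ ≤ δ⁻¹ ^ K' := pow_le_pow_right₀ hδi (by omega)
                      have key := hl S N lam hDl hIl δ'
                        ((Real.rpow_le_rpow_of_exponent_le hD1 (by (clear * - hσl hτl; linarith))).trans (hpow K' (by omega)))
                        ((pow_le_of_le_one hδ0.le hδle1 (by omega)).trans hδ2) (hlam.trans hδδ') p hp hN (q0 * q)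
                        (Nat.mul_pos hq01 hq)
                        (hqq.trans (by
                          rw [hδ'i]
                          refine pow_le_pow_right₀ hδi ?_
                          have := le_max_right n2 (nq + n)
                          omega)) X2 hX2pos
                        (by
                          refine le_trans ?_ ((hn4H n4 (by omega)).trans hX2)
                          apply Real.rpow_le_rpow_of_exponent_le hD1
                          (clear * - hσl hτl; linarith))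
                        (by
                          rw [hδ'C]
                          calc (X2 : ℝ) * δ⁻¹ ^ (Cl * K') ≤ S.D ^ (s - τ / 2) * S.D ^ (τ / 8) := by
                                refine mul_le_mul ?_ (hpowi _ (by rw [mul_comm]; exact hClK)) (by positivity)
                                  (by positivity)
                                refine le_trans ?_ hH1
                                exact_mod_cast hX2H
                            _ = S.D ^ (s - 3 * τ / 8) := by
                                rw [← Real.rpow_add hD0]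
                                congr 1
                                ring
                            _ ≤ S.D ^ s := by
                                apply Real.rpow_le_rpow_of_exponent_le hD1
                                (clear * - hτ0; linarith))
                        (cubeq (S.Q * (q0 * q)) f0 a b)
                        (fun i => cubeq (S.Q * (q0 * q)) (f i.castSucc) a b) (hcubeA f0 h0)
                        (fun i => hcubeA _ (hf _)) r' (ext15 cc) (ext15 φ)
                        (by
                          intro e j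
                          unfold ext15
                          split_ifs
                          · exact hcc _ _
                          · simp)
                        (by
                          intro e j hej
                          rw [hδ'C]
                          by_cases he : e < S.Q
                          · have e1 : ext15 cc e j = cc ⟨e, he⟩ j := by
                              unfold ext15
                              rw [dif_pos he]
                            have e2 : ext15 φ e j = φ ⟨e, he⟩ j := by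
                              unfold ext15
                              rw [dif_pos he]
                            rw [e1] at hej
                            rw [e2]
                            exact hmaj ⟨e, he⟩ j hej
                          · exfalso
                            apply hej
                            unfold ext15
                            rw [dif_neg he])
                      rw [← form_fib15 S c f0 (fun i => f i.castSucc) hp hN (Nat.mul_pos hq01 hq) hqqp a b r'
                        cc φ] at key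
                      have e3 : ∀ (n : ℕ) (e : Fin S.Q), (fun z : ZMod p => fib S.Q q0
                          (Fk67 S c f0 (fun i => f i.castSucc) n) e ((q : ZMod p) * z)) =
                          fib S.Q (q0 * q) (Fk67 S c f0 (fun i => f i.castSucc) n) e := by
                        intro n e
                        funext z
                        exact fib_fib hN _ _ _
                      simp only [e3]
                      refine lt_of_lt_of_le key ?_
                      exact pow_le_pow_of_le_one hδ0.le hδle1 (by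
                        have := le_max_left n2 (nq + n)
                        omega))
                refine ⟨q0 * q1, Nat.mul_pos hq01 hq11, ?_, ?_⟩
                · push_cast
                  exact by
                    calc (q0 : ℝ) * q1 ≤ δ⁻¹ ^ n * δ⁻¹ ^ n4 := mul_le_mul hq0 hq1 (by (clear * - hq11; positivity)) (by positivity)
                      _ = δ⁻¹ ^ (n4 + n) := by rw [← pow_add, add_comm]
                · intro L hL hLD
                  exact by
                    have e1 := hfin L hL (by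
                      refine hLD.trans ?_
                      refine le_trans ?_ (hn4H n4 (by omega))
                      apply Real.rpow_le_rpow_of_exponent_le hD1
                      (clear * - hκ hτκ; linarith))
                    have hqqp : q0 * q1 < p := hlt _ (by
                      push_cast
                      calc (q0 : ℝ) * q1 ≤ δ⁻¹ ^ n * δ⁻¹ ^ n4 :=
                            mul_le_mul hq0 hq1 (by (clear * - hq11; positivity)) (by (clear * - hδ0; positivity))
                        _ = δ⁻¹ ^ (n + n4) := by rw [← pow_add]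
                        _ ≤ S.D ^ (τ / 8) := hpowi _ (by omega))
                    have e4 : ∀ e : Fin S.Q, (fun z : ZMod p => fib S.Q q0 u e ((q1 : ZMod p) * z)) =
                        fib S.Q (q0 * q1) u e := by
                      intro e
                      funext z
                      exact fib_fib hN _ _ _
                    simp only [e4] at e1
                    rw [← nrm_Aq_conj15, nrm_fib hp hN (Nat.mul_pos hq01 hq11) hqqp]
                    refine le_trans ?_ e1
                    exact pow_le_pow_of_le_one hδ0.le hδle1 (by omega)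

end

end Pool.Agent.Helper67.NX2

end

section

set_option autoImplicit false

open Finset

open scoped BigOperators ComplexConjugate

namespace Pool.Agent.Helper67.NX2.W

open Pool.Agent.Helper57.NX Pool.Agent.Helper67.NX2

theorem dag (hES : ES0) (m : ℕ) (c : Fin (m + 1) → ℝ) (hc : Ex c) (d : ℕ)
    (hd : c (Fin.last m) = d) (s : ℝ) (hs0 : 0 < s) (hs : s < 1)
    (hT : ∀ ε : ℝ, 0 < ε → TopPm m c s ε) (hD : ∀ ε : ℝ, 0 < ε → DsPm m c s ε) :
    ∀ κ : ℝ, 0 < κ → ∃ x0 : ℝ, 0 < x0 ∧ ∃ C : ℕ, ∃ σ : ℝ, 0 < σ ∧ ∃ D0 : ℝ,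
    ∀ (S : Sys (m + 1)) (N : ℕ) [NeZero N] (lam : ℕ), D0 ≤ S.D → IG S c N x0 lam →
    ∀ δ : ℝ, S.D ^ (-σ) ≤ δ → δ ≤ 1 / 2 → (lam : ℝ) ≤ δ⁻¹ →
    ∀ (f0 : ZMod N → ℂ) (f : Fin (m + 1) → ZMod N → ℂ),
    Adm δ⁻¹ S.Q f0 → (∀ i, Adm δ⁻¹ S.Q (f i)) → δ ≤ ‖form S c 1 f0 f‖ →
    ∃ q : ℕ, 1 ≤ q ∧ (q : ℝ) ≤ δ⁻¹ ^ C ∧ ∀ L : ℕ, 1 ≤ L → (L : ℝ) ≤ S.D ^ (s - κ) →
      δ ^ C ≤ nrm (Aq (S.Q * q) L (dual S c 1 f0 f (Fin.last m))) :=
  dagger_of15 (fun r Γ n => dl_total' r Γ n) m c hc d hd s hs0 hs
    (lp_arith_core m c hc d hd s hs.le (bc m)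
      (fun ε hε => al_arith m c hc d hd s hs0
        (lt_of_lt_of_le hs (by
          have h := hc.two (Fin.last m)
          rw [hd] at h
          linarith)) hT ε hε)
      (loc_arith hES m c hc d hd s hs0 hs.le hD))

/-- main induction for mixed systems -/
theorem main_mixed (hES : ES0) (m : ℕ) (c : Fin m → ℝ) (hc : Ex c) :
    (∀ ε : ℝ, 0 < ε → UPm m c ε) ∧ (∀ ε : ℝ, 0 < ε → DPm m c ε) :=
  main_mixed_of (fun m c hc hD => base hES m c hc hD)
    (fun m c h1 h2 h3 εb hεb => gnc' m c h1 h2 h3 εb hεb)
    (fun m c hc d hd εb hεb => gnc_nat m c hc d hd εb hεb)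
    (fun m c hc s hs hU hT => us_of_top' m c hc s hs hU hT)
    (fun m c hc s hs0 hs hU => ds_of_us' m c hc s hs0 hs hU)
    (fun m c hc s s0 h1 h2 h3 h4 hT hD => lpp hES m c hc s s0 h1 h2 h3 h4 hT hD)
    (fun m c hc s s' s0 ε h1 h2 h3 h4 h5 hG hL hT =>
      top_step' m c hc s s' s0 ε h1 h2 h3 h4 h5 hG hL hT)
    (fun m c hc d hd s hs0 hs hT hD hU =>
      low_arith m c hc d hd s hs0 hs hT (dag hES m c hc d hd s hs0 hs hT hD) hU)
    (fun m c hc d hd hJ => top_arith_of15 m c
      (fun a e he => ratl hES c hc.strictMono (fun i => by have := hc.two i; linarith) a e he)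
      hc d hd hJ)
    m c hc

end Pool.Agent.Helper67.NX2.W

end

section

set_option autoImplicit false

open Finset

open scoped BigOperators ComplexConjugate

namespace Pool.Agent.Helper67.NX2.W

open Pool.Agent.Helper57.NX Pool.Agent.Helper67.NX2

theorem thmP (hES : ES0) (s : ℕ) (d : Fin (s + 1) → ℕ) (hd2 : ∀ i, 2 ≤ d i)
    (hgap : ∀ i j, i < j → d i + 2 ≤ d j) : Pool.Agent.Helper67.NX2.ThmPC s d :=
  thmP_of21 s d (main_mixed hES (s + 1) _ (ex_nat s d hd2 hgap)).1
    (zero_arith hES s _ (ex_nat s d hd2 hgap) (fun i => ⟨d i, rfl⟩)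
      (fun ε hε => usJ_of_upm s _ ε ((main_mixed hES (s + 1) _ (ex_nat s d hd2 hgap)).1 ε hε)))

theorem replace_ap (hES : ES0) (s : ℕ) (d : Fin (s + 1) → ℕ) (hd2 : ∀ i, 2 ≤ d i)
    (hgap : ∀ i j, i < j → d i + 2 ≤ d j) (γ ε : ℝ) (hγ : 1 ≤ γ) (hγd : γ ≤ d 0) (hε : 0 < ε)
    (hε' : ε ≤ 1 / 8) : ReplaceApC s d γ ε :=
  replace_ap_of s d (thmP hES s d hd2 hgap) hd2 γ ε hγ hγd hε hε'

theorem stage12 (hES : ES0) (s : ℕ) (d : Fin (s + 1) → ℕ) (hd2 : ∀ i, 2 ≤ d i)
    (hgap : ∀ i j, i < j → d i + 2 ≤ d j) (γ ε : ℝ) (hγ : 1 ≤ γ) (hγd : γ ≤ d 0) (hε : 0 < ε)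
    (hε' : ε ≤ 1 / 8) : Stage12C s d γ ε :=
  stage12_of s d hd2 γ ε hγ hγd hε hε' (replace_ap hES s d hd2 hgap γ ε hγ hγd hε hε')
    var_bound cell_le

theorem local_thm (hES : ES0) (s : ℕ) (d : Fin (s + 1) → ℕ) (hd2 : ∀ i, 2 ≤ d i)
    (hgap : ∀ i j, i < j → d i + 2 ≤ d j) : LM.LocalThmP s d :=
  local_thm_of s d hd2 (thmP hES s d hd2 hgap)

theorem peel (hES : ES0) (s : ℕ) (d : Fin (s + 1) → ℕ) (hd2 : ∀ i, 2 ≤ d i)
    (hgap : ∀ i j, i < j → d i + 2 ≤ d j) : LM.PeelP s d :=
  peel_of8 s d (local_thm hES s d hd2 hgap)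

theorem local_main (hES : ES0) (s : ℕ) (d : Fin (s + 1) → ℕ) (hd2 : ∀ i, 2 ≤ d i)
    (hgap : ∀ i j, i < j → d i + 2 ≤ d j) : LocalMainC s d :=
  fun V κ hV hκ => local_main_of s d (local_thm hES s d hd2 hgap) (peel hES s d hd2 hgap)
    totient_ratio V κ hV hκ

/-- The primes model. -/
theorem primes_model (hES : ES0) (s : ℕ) (d : Fin (s + 1) → ℕ) (hd2 : ∀ i, 2 ≤ d i)
    (hgap : ∀ i j, i < j → d i + 2 ≤ d j) (γ ε : ℝ) (hγ : 1 ≤ γ) (hγd : γ ≤ d 0) (hε : 0 < ε)
    (hε' : ε ≤ 1 / 8) :
    ∃ x0 : ℝ, 0 < x0 ∧ ∀ τ V κ : ℝ, 0 < τ → 1 ≤ V → 0 < κ → ∃ w0 : ℕ, ∀ w : ℕ, w0 ≤ w →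
    ∀ K : ℕ, 1 ≤ K → (∀ p : ℕ, p.Prime → p ∣ K → p ≤ w) →
    ∃ K' : ℕ, 1 ≤ K' ∧ K ∣ K' ∧ (∀ p : ℕ, p.Prime → (p ∣ K' ↔ p ≤ w)) ∧
    ∃ z0 : ℕ, ∀ z : ℕ, z0 ≤ z → ∀ A : Finset ℕ, PrA z A → ∀ (D : ℝ) (u T : ℕ),
    (2 : ℝ) ^ (τ * z) ≤ D → (∀ i, ((K : ℝ) * (3 * D)) ^ (d i) ≤ (2 : ℝ) ^ z) →
    D ≤ u → (u : ℝ) + T ≤ 2 * D → D ^ (1 - x0) ≤ T →
    ∀ G : ℕ → ℝ, (∀ x, |G x| ≤ V) → (∀ x t : ℕ, |G (x + t) - G x| ≤ V * t / D ^ (γ - ε)) →
    ∀ b : Option (Fin (s + 1)) → ℕ, BlkLen d γ ε D b →
    |nform d K u T (2 ^ z) G (fun _ => FA z A) -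
      nform d K u T (2 ^ z) G (fun o => Fm (FA z A) K' (b o))| ≤ κ :=
  primes_model_of s d hd2 hgap γ ε hγ hγd hε hε' (stage12 hES s d hd2 hgap γ ε hγ hγd hε hε')
    (local_main hES s d hd2 hgap) cell_le

end Pool.Agent.Helper67.NX2.W

end

section

set_option autoImplicit false

namespace Pool.Agent.Helper57.NX

/-- NX-28: the generalised von Neumann theorem -/
theorem gnc (m : ℕ) (c : Fin (m + 1) → ℝ) (hc : StrictMono c) (hc0 : ∀ i, 0 < c i)
    (hcn : ∀ i (n : ℕ), c i ≠ n) (εb : ℝ) (hεb : 0 < εb) :
    ∃ g0 : ℝ, 0 < g0 ∧ ∀ s : ℝ, 0 ≤ s → s ≤ c (Fin.last m) - εb → ∀ s' : ℝ, s' ≤ s + g0 →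
      GNCP m c s s' :=
  Pool.Agent.Helper82.NX.gnc_of (fun c γ hγ R s => round c γ hγ R s) sweep m c hc hc0 hcn εb hεb

end Pool.Agent.Helper57.NX

end

section

set_option autoImplicit false

open Finset

open scoped BigOperators ComplexConjugate

namespace Pool.Agent.Helper57.NX

/-- NX-29 -/
theorem main_induction (m : ℕ) (c : Fin m → ℝ) (hc : StrictMono c)
    (hc0 : ∀ i, 0 < c i) (hcn : ∀ i (n : ℕ), c i ≠ n) :
    (∀ ε : ℝ, 0 < ε → UP m c ε) ∧ (∀ ε : ℝ, 0 < ε → DP m c ε) :=
  main_induction_of
    (fun m c hc hc0 hcn hD => base es0 m c hc hc0 hcn hD)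
    (fun m c hc hc0 hcn εb hεb => gnc m c hc hc0 hcn εb hεb)
    (fun m c hc hc0 s hs0 hU hT => us_of_top m c hc hc0 s hs0 hU hT)
    (fun m c hc0 s hs0 hs h => ds_of_us m c hc0 s hs0 hs h)
    (fun m c hc hc0 hcn s hs0 hs hT hD => lpp es0 m c hc hc0 hcn s hs0 hs hT hD)
    (fun m c hc hc0 s s' ε hs0 hss hs' hε hG hL hT =>
      top_step m c hc hc0 s s' ε hs0 hss hs' hε hG hL hT)
    m c hc hc0 hcn

end Pool.Agent.Helper57.NX

end

section

set_option autoImplicit false

open Finset

open scoped BigOperators ComplexConjugate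

namespace Pool.Agent.Helper67.NX2.W

open Pool.Agent.Helper57.NX Pool.Agent.Helper67.NX2

theorem formRep : Pool.Agent.Helper57.NX3.FormRep :=
  fun m c hc => form_replace' m c (main_mixed es0 m c hc).1

theorem primesModel : Pool.Agent.Helper57.NX3.PrimesModel :=
  fun s d h1 h2 γ ε h3 h4 h5 h6 => primes_model es0 s d h1 h2 γ ε h3 h4 h5 h6

theorem patternE : Pool.Agent.Helper57.NX3.PatternE := by
  intro l c hc δ hδ N0
  by_cases hnat : ∃ i, IsN (c i)
  · obtain ⟨i, hi⟩ := hnat
    cases l with
    | zero => exact i.elim0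
    | succ l =>
      exact Pool.Agent.Helper57.NX3.pattern_mixed es0 formRep primesModel c hc ⟨i, hi⟩ δ hδ N0
  · have hcm : StrictMono c := fun i j hij => by linarith [hc.gap i j hij]
    have hc0 : ∀ i, 0 < c i := fun i => by linarith [hc.two i]
    have hcn : ∀ i (n : ℕ), c i ≠ n := fun i n h => hnat ⟨i, n, h⟩
    exact nx_pattern es0 l c hcm hc0 hcn (main_induction l c hcm hc0 hcn).1 δ hδ N0

/-- Q2 for all exponents, in all dense sets of primes -/
theorem all_exponents (A : Set ℕ) (hA : ∀ p ∈ A, p.Prime)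
    (hd : ∃ δ : ℝ, 0 < δ ∧ ∃ᶠ x : ℕ in Filter.atTop,
      δ * (Nat.primeCounting x : ℝ) ≤ ({p ∈ A | p ≤ x}.ncard : ℝ))
    (l : ℕ) (c : Fin l → ℝ) (hc : ∀ i, 0 < c i) (N : ℕ) :
    ∃ m ∈ A, ∃ n : ℕ, N ≤ n ∧ ∀ i, m + ⌊(n : ℝ) ^ c i⌋₊ ∈ A :=
  Pool.Agent.Helper57.NX3.final_all patternE A hA hd l c hc N

end Pool.Agent.Helper67.NX2.W

end
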